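import Pool.Agent.WN.CutRow
import Pool.Agent.WN.LeafRow
import Pool.Agent.Helper99.WN.ParDef

/-!
# The search tree, part 2
-/

set_option autoImplicit false

namespace Pool.Agent.WN.Data

open Pool.Agent.W3 Pool.Agent.WN Pool.Agent.Helper99.WN

/-- the state above piece 80 of the tree -/
def s80 : St := ⟨[0, 0, 1, 2, 5, 7, 39], [39, 7, 3, 5, 2, 1, 0], [0, 1, 2, 5, 4],
  [],
  [⟨true, 2, 3, 3, 10⟩, ⟨true, 2, 3, 2, 5⟩, ⟨true, 2, 3, 9, 20⟩],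
  [.spn 0 0 651200, .spn 1 1 302400, .spn 3 2 302400, .spn 7 5 424061, .spn 39 4 140426]⟩

/-- piece 80 of the tree -/
noncomputable def t80 : WN.Tree :=
(.haz 3 103 1 20
(.ask 21
(.mark 55 [3, 6, 7]
(.spn
(.lp [[3], [1, 5, 6], [0, 2, 4, 7]] [(.mj 3 6, 1605), (.mj 4 3, 1689), (.mj 5 4, 3936), (.rw 4, 3), (.rw 5, 2), (.hz 3 103, 158371)])
(.haz 6 47 2 5
(.haz 3 39 1 10
(.ask 103
(.mark 119 [3, 7, 8]
(.spn
(.lp [[3], [0, 2, 4, 7], [1, 5, 6, 8]] [(.mj 3 8, 397), (.mj 4 6, 563), (.mj 5 4, 1278), (.mj 6 3, 1077), (.rw 6, 1), (.hz 5 183, 3373344), (.hz 5 359, 220073)])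
(.lp [[3], [0, 2, 4, 7], [1, 5, 6, 8]] [(.mj 4 6, 4), (.mj 5 4, 6), (.mj 7 3, 6), (.hz 5 55, 5910), (.hz 5 103, 2956), (.hz 5 119, 3413), (.hz 5 183, 4065), (.hz 5 359, 1068), (.hz 5 375, 1461)])
(.lp [[3], [0, 2, 4, 7], [1, 5, 6, 8]] [(.mj 1 2, 2248), (.mj 4 6, 313), (.mj 8 3, 1279), (.rw 1, 1), (.hz 2 11, 24321), (.hz 5 39, 209505), (.hz 5 55, 808525), (.hz 5 103, 415635), (.hz 5 119, 799142), (.hz 5 183, 799142)])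
.fin))
(.ask 119
(.mark 119 [3, 7, 8]
(.spn
(.lp [[3], [0, 2, 4, 7], [1, 5, 6, 8]] [(.mj 3 8, 212), (.mj 4 6, 196), (.mj 5 4, 1280), (.mj 6 3, 783), (.rw 6, 1)])
(.lp [[3], [0, 2, 4, 7], [1, 5, 6, 8]] [(.mj 5 4, 8), (.mj 7 3, 5), (.hz 5 55, 7869), (.hz 5 119, 3123)])
(.lp [[3], [0, 2, 4, 7], [1, 5, 6, 8]] [(.mj 5 4, 3), (.mj 8 3, 2), (.hz 5 55, 2847), (.hz 5 119, 1130)])
.fin))
(.lp [[3], [1, 5, 6], [0, 2, 4, 7]] [(.mj 4 3, 2), (.mj 5 4, 3)])))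
(.cut 3 [(0, 1), (1, 1), (2, 1), (3, 1), (5, 1), (7, 1), (21, 1), (39, 1)]
(.lp [[3], [1, 5, 6], [0, 2, 4, 7]] [(.mj 1 2, 35629), (.mj 4 6, 3658), (.hz 5 2, 945194), (.hz 5 3, 1995409), (.hz 5 7, 688072), (.hz 4 47, 3440360), (.hz 3 103, 21369), (.rw 6, 1)])))
(.cut 3 [(0, 1), (1, 1), (2, 1), (3, 1), (5, 1), (7, 1), (21, 1), (39, 1), (149, 1)]
(.cut 3 [(0, 1), (1, 1), (2, 1), (3, 1), (5, 1), (7, 1), (21, 1), (39, 1), (149, 1), (103, 1)]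
(.lp [[3], [1, 5, 6], [0, 2, 4, 7]] [(.mj 1 2, 20598), (.mj 5 4, 5714), (.mj 6 3, 13540), (.rw 1, 18), (.hz 4 39, 12873448), (.rw 6, 9), (.rw 7, 5)]))))
(.lp [[3], [1, 5, 6], [0, 2, 4, 7]] [(.mj 7 3, 1173), (.mj 7 6, 969), (.rw 1, 12), (.rw 4, 1), (.hz 3 103, 382498)])
.fin))
(.ask 23
(.mark 55 [3, 6, 7]
(.spn
(.lp [[3], [1, 5, 6], [0, 2, 4, 7]] [(.mj 3 6, 2628), (.mj 4 3, 2766), (.mj 5 4, 7365), (.rw 4, 6), (.rw 5, 4), (.hz 3 103, 259318)])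
(.haz 6 47 2 5
(.haz 3 39 1 10
(.ask 103
(.mark 119 [3, 7, 8]
(.spn
(.lp [[3], [0, 2, 4, 7], [1, 5, 6, 8]] [(.mj 3 8, 669), (.mj 4 6, 1001), (.mj 5 4, 2283), (.mj 6 3, 1882), (.rw 6, 2), (.hz 5 183, 5706758), (.hz 5 359, 397971)])
(.lp [[3], [0, 2, 4, 7], [1, 5, 6, 8]] [(.mj 4 6, 4), (.mj 5 4, 6), (.mj 7 3, 6), (.hz 5 55, 6090), (.hz 5 103, 3034), (.hz 5 119, 3512), (.hz 5 183, 4160), (.hz 5 359, 1096), (.hz 5 375, 1397)])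
(.lp [[3], [0, 2, 4, 7], [1, 5, 6, 8]] [(.mj 4 6, 3), (.mj 5 4, 4), (.mj 8 3, 4), (.hz 5 55, 3517), (.hz 5 103, 2242), (.hz 5 119, 2205), (.hz 5 183, 3266), (.hz 5 359, 56), (.hz 5 247, 558)])
.fin))
(.ask 119
(.mark 119 [3, 7, 8]
(.spn
(.lp [[3], [0, 2, 4, 7], [1, 5, 6, 8]] [(.mj 3 8, 366), (.mj 4 6, 366), (.mj 5 4, 2470), (.mj 6 3, 1464), (.rw 6, 2)])
(.lp [[3], [0, 2, 4, 7], [1, 5, 6, 8]] [(.mj 5 4, 3), (.mj 7 3, 2), (.hz 5 55, 2442), (.hz 5 119, 969)])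
(.lp [[3], [0, 2, 4, 7], [1, 5, 6, 8]] [(.mj 5 4, 3), (.mj 8 3, 2), (.hz 5 55, 2847), (.hz 5 119, 1130)])
.fin))
(.lp [[3], [1, 5, 6], [0, 2, 4, 7]] [(.mj 4 3, 3), (.mj 5 4, 5)])))
(.cut 3 [(0, 1), (1, 1), (2, 1), (3, 1), (5, 1), (7, 1), (21, 1), (39, 1)]
(.lp [[3], [1, 5, 6], [0, 2, 4, 7]] [(.mj 1 2, 35629), (.mj 4 6, 3658), (.hz 5 2, 945194), (.hz 5 3, 1995409), (.hz 5 7, 688072), (.hz 4 47, 3440360), (.hz 3 103, 21369), (.rw 6, 1)])))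
(.cut 3 [(0, 1), (1, 1), (2, 1), (3, 1), (5, 1), (7, 1), (21, 1), (39, 1), (103, 1)]
(.cut 3 [(0, 1), (1, 1), (2, 1), (3, 1), (5, 1), (7, 1), (21, 1), (23, 1), (39, 1), (55, 1)]
(.lp [[3], [1, 5, 6], [0, 2, 4, 7]] [(.mj 1 2, 27318), (.mj 5 4, 10775), (.mj 6 3, 17017), (.hz 4 39, 11125148), (.hz 4 47, 5948864), (.rw 6, 6), (.rw 7, 16)]))))
(.cut 3 [(0, 1), (1, 1), (2, 1), (3, 1), (5, 1), (7, 1), (21, 1), (39, 1)]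
(.lp [[3], [1, 5, 6], [0, 2, 4, 7]] [(.mj 5 4, 1196), (.mj 7 3, 435), (.mj 7 6, 435), (.rw 4, 1), (.rw 6, 1)]))
.fin))
(.haz 4 103 1 5
(.haz 4 103 1 4
(.ask 55
(.mark 55 [3, 6, 7]
(.spn
(.haz 6 55 7 20
(.lp [[3], [1, 5, 6], [0, 2, 4, 7]] [(.mj 3 6, 3), (.mj 4 3, 3), (.mj 5 4, 2), (.hz 6 55, 385), (.hz 6 183, 675)])
(.lp [[3], [1, 5, 6], [0, 2, 4, 7]] [(.mj 0 1, 4319), (.mj 5 4, 1236), (.rw 5, 1), (.hz 6 39, 58681)]))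
(.ask 103
(.mark 119 [3, 7, 8]
(.spn
(.haz 3 183 1 20
(.haz 3 103 1 10
(.haz 8 247 3 10
(.ask 183
(.mark 247 [3, 8, 9]
(.lp [[3], [1, 5, 6, 8], [0, 2, 4, 7, 9]] [(.mj 3 8, 2482), (.mj 4 6, 5054), (.mj 5 4, 11727), (.mj 6 3, 8689), (.rw 6, 11), (.hz 6 183, 3995643), (.hz 7 359, 2161428), (.hz 7 247, 4483797), (.hz 8 247, 1520124), (.hz 6 695, 4700957), (.hz 8 759, 3722752)]))
(.lp [[3], [0, 2, 4, 7], [1, 5, 6, 8]] [(.mj 3 7, 14), (.mj 3 8, 29), (.mj 4 6, 11), (.mj 5 4, 20), (.mj 6 3, 40), (.hz 7 359, 638), (.hz 7 247, 28476), (.hz 8 247, 42047)]))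
(.lp [[3], [0, 2, 4, 7], [1, 5, 6, 8]] [(.mj 3 7, 5), (.mj 4 6, 3), (.mj 5 4, 5), (.mj 6 3, 7), (.hz 8 103, 1230), (.hz 8 119, 4255), (.hz 7 247, 7628)]))
(.lp [[3], [0, 2, 4, 7], [1, 5, 6, 8]] [(.mj 1 2, 18122), (.mj 3 8, 61), (.mj 4 6, 1643), (.rw 6, 1), (.hz 7 2, 473776), (.hz 7 3, 1000193), (.hz 7 7, 326650), (.hz 7 39, 362945), (.hz 6 183, 217256), (.hz 3 359, 434511)]))
(.lp [[3], [0, 2, 4, 7], [1, 5, 6, 8]] [(.mj 1 2, 13), (.mj 4 6, 1), (.hz 6 2, 169), (.hz 6 3, 347), (.hz 6 7, 239)]))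
(.maj 3 8
(.cut 3 [(0, 1), (1, 1), (2, 1), (3, 1), (5, 1), (7, 1), (21, 1), (23, 1), (39, 1), (55, 1), (103, 1), (119, 1)]
(.lp [[3], [0, 2, 4, 7], [1, 5, 6, 8]] [(.mj 1 2, 944), (.mj 5 4, 1068), (.mj 7 3, 891), (.mj 7 8, 165), (.hz 3 359, 234107), (.hz 5 359, 536773), (.hz 3 375, 1653498), (.rw 7, 2)]))
(.cut 3 [(0, 1), (1, 1), (2, 1), (3, 1), (5, 1), (7, 1), (21, 1), (23, 1), (39, 1), (55, 1), (103, 1), (119, 1)]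
(.lp [[3], [0, 2, 4, 7], [1, 5, 6, 8]] [(.mj 1 2, 8462), (.mj 5 4, 172), (.mj 7 3, 245), (.mj 7 8, 616), (.mj 8 3, 3479), (.hz 5 359, 539247), (.hz 5 367, 4351802), (.hz 3 247, 1694775), (.rw 7, 8)])))
(.haz 3 7 1 10
(.lp [[3], [0, 2, 4, 7], [1, 5, 6, 8]] [(.mj 1 2, 6), (.mj 4 6, 1), (.mj 8 3, 4), (.hz 6 7, 415), (.hz 6 23, 877), (.hz 6 39, 461), (.hz 6 55, 1487), (.hz 6 103, 1222), (.hz 6 119, 2478), (.hz 6 183, 1936)])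
(.cut 3 [(0, 1), (1, 1), (2, 1), (3, 1), (5, 1), (7, 1), (21, 1), (23, 1), (39, 1), (55, 1), (103, 1), (119, 1)]
(.lp [[3], [0, 2, 4, 7], [1, 5, 6, 8]] [(.mj 1 2, 5047), (.mj 4 6, 493), (.mj 8 3, 515), (.mj 8 7, 9), (.hz 6 2, 104756), (.hz 6 3, 221151), (.hz 3 103, 40666), (.hz 3 119, 40703), (.rw 7, 1)])))
.fin))
(.ask 119
(.mark 119 [3, 7, 8]
(.spn
(.lp [[3], [0, 2, 4, 7], [1, 5, 6, 8]] [(.mj 3 8, 534), (.mj 4 6, 685), (.mj 5 4, 5005), (.mj 6 3, 2741), (.rw 6, 4), (.hz 3 247, 2815433)])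
(.lp [[3], [0, 2, 4, 7], [1, 5, 6, 8]] [(.mj 5 4, 28), (.mj 7 3, 16), (.mj 7 8, 1), (.hz 3 119, 16665), (.hz 3 247, 12338), (.hz 3 375, 6506)])
(.cut 3 [(0, 1), (1, 1), (2, 1), (3, 1), (5, 1), (7, 1), (21, 1), (23, 1), (39, 1), (55, 1), (103, 1), (119, 1)]
(.lp [[3], [0, 2, 4, 7], [1, 5, 6, 8]] [(.mj 5 4, 822), (.mj 8 3, 329), (.rw 7, 1)]))
.fin))
(.lp [[3], [1, 5, 6], [0, 2, 4, 7]] [(.mj 5 4, 11), (.mj 6 3, 6), (.hz 5 111, 10764), (.hz 3 119, 2113), (.hz 3 247, 5954)])))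
(.cut 3 [(0, 1), (1, 1), (2, 1), (3, 1), (5, 1), (7, 1), (21, 1), (39, 1)]
(.lp [[3], [1, 5, 6], [0, 2, 4, 7]] [(.mj 5 4, 8911), (.mj 7 3, 3931), (.mj 7 6, 2055), (.rw 5, 1), (.hz 5 103, 3517508), (.hz 5 111, 14488785), (.rw 6, 11)]))
.fin))
(.spn
(.lp [[4], [1, 3], [0, 2, 5, 6]] [(.mj 3 6, 5), (.mj 5 3, 8), (.mj 5 4, 1)])
(.haz 6 47 2 5
(.haz 3 39 1 10
(.ask 103
(.mark 103 [3, 4, 7]
(.ask 119
(.mark 119 [3, 7, 8]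
(.spn
(.haz 8 247 3 10
(.lp [[3], [0, 2, 4, 8], [1, 5, 6, 7]] [(.mj 3 7, 24), (.mj 3 8, 70), (.mj 4 6, 82), (.mj 6 3, 95), (.hz 7 231, 51050), (.hz 8 247, 71954)])
(.lp [[3], [0, 2, 4, 8], [1, 5, 6, 7]] [(.mj 3 7, 4), (.mj 4 6, 6), (.mj 6 3, 6), (.hz 8 119, 3558), (.hz 7 231, 4800)]))
(.lp [[3], [0, 2, 4, 8], [1, 5, 6, 7]] [(.mj 4 6, 6), (.mj 7 3, 5), (.mj 7 8, 1), (.hz 7 103, 5354), (.hz 7 119, 1933), (.hz 7 231, 967), (.hz 7 375, 5094)])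
(.lp [[3], [0, 2, 4, 8], [1, 5, 6, 7]] [(.mj 1 2, 8), (.mj 4 6, 1), (.mj 8 3, 5), (.hz 7 39, 1080), (.hz 7 55, 3360), (.hz 7 103, 1137), (.hz 7 119, 3019), (.hz 7 231, 906)])
.fin))
(.lp [[4], [1, 3], [0, 2, 5, 6, 7]] [(.mj 4 6, 3), (.mj 6 3, 2), (.hz 7 103, 1345), (.hz 7 231, 775)])))
(.ask 119
(.haz 4 111 13 20
(.maj 3 7
(.ask 119
(.mark 119 [3, 7, 8]
(.spn
(.haz 8 247 3 20
(.lp [[3], [0, 2, 4, 7], [1, 5, 6, 8]] [(.mj 3 7, 76), (.mj 5 4, 105), (.mj 6 3, 129), (.mj 7 8, 59), (.hz 8 111, 18669), (.hz 9 247, 23750), (.hz 7 375, 177159)])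
(.lp [[3], [0, 2, 4, 7], [1, 5, 6, 8]] [(.mj 3 7, 4), (.mj 4 6, 1), (.mj 5 4, 3), (.mj 6 3, 5), (.hz 9 119, 1158)]))
(.con 7 3)
(.con 8 7)
.fin))
(.lp [[4], [1, 3], [0, 2, 5, 6, 7]] [(.mj 3 7, 1), (.mj 6 3, 1)]))
(.lp [[4], [1, 3], [0, 2, 5, 6, 7]] [(.mj 5 4, 3), (.mj 7 3, 2), (.hz 7 55, 2847), (.hz 7 119, 1130)]))
(.lp [[4], [1, 3], [0, 2, 5, 6, 7]] [(.mj 4 6, 1), (.mj 6 3, 1), (.hz 8 103, 394)]))
(.lp [[4], [1, 3], [0, 2, 5, 6]] [(.mj 6 3, 1)])))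
(.cut 3 [(0, 1), (1, 1), (2, 1), (3, 1), (5, 1), (7, 1), (21, 1), (39, 1)]
(.lp [[4], [1, 3], [0, 2, 5, 6]] [(.mj 1 2, 35629), (.mj 4 6, 3658), (.hz 7 2, 945194), (.hz 7 3, 1995409), (.hz 7 7, 688072), (.hz 6 47, 3440360), (.hz 3 103, 21369), (.rw 6, 1)])))
(.lp [[4], [1, 3], [0, 2, 5, 6]] [(.mj 6 3, 10), (.hz 6 39, 17891), (.hz 3 103, 2478), (.hz 3 119, 1590)]))
.fin
.fin))
(.lp [[4], [1, 3], [0, 2, 5, 6]] [(.mj 0 1, 11041), (.mj 4 6, 1920), (.rw 4, 1), (.hz 5 39, 2760220), (.hz 3 103, 540043)]))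
(.lp [[4], [1, 3], [0, 2, 5, 6]] [(.mj 0 1, 5481), (.mj 4 6, 953), (.rw 4, 1), (.hz 4 39, 1370332), (.hz 3 103, 268109)]))))
(.lp [[4], [1, 3], [0, 2, 5, 6]] [(.mj 1 2, 8), (.mj 4 6, 1), (.hz 3 2, 107), (.hz 3 3, 219), (.hz 3 7, 73), (.hz 3 39, 77)]))

theorem run80 : run P3488 (leaf3 218 625) (cutRow P3488) [] t80 s80 = true := by
  decide +kernel

theorem bad80 : Bad P3488 s80 :=
  run_sound (leaf3_sound P3488 rfl rfl) (cutRow_sound P3488) (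
    fun _ h => absurd h List.not_mem_nil) t80 s80 run80

/-- the state above piece 141 of the tree -/
def s141 : St := ⟨[0, 0, 1, 3, 5, 15, 15, 47, 21], [63, 31, 15, 11, 7, 5, 3, 2, 1, 0], [0, 1, 2, 3, 4, 5, 6],
  [(4, 5)],
  [⟨true, 2, 3, 3, 10⟩, ⟨true, 1, 5, 2, 5⟩, ⟨true, 2, 3, 23, 50⟩, ⟨true, 1, 5, 12, 25⟩, ⟨true, 1, 21, 27, 50⟩, ⟨true, 4, 15, 9, 40⟩, ⟨true, 3, 23, 11, 20⟩, ⟨true, 1, 21, 29, 50⟩, ⟨true, 5, 287, 1, 5⟩, ⟨true, 5, 287, 3, 10⟩, ⟨true, 8, 191, 1, 10⟩, ⟨true, 8, 95, 3, 20⟩, ⟨false, 8, 31, 13, 40⟩],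
  [.spn 0 0 651200, .spn 1 1 302400, .spn 3 2 302400, .spn 7 3 302400, .spn 15 4 140426, .spn 31 5 140426, .spn 63 6 62723]⟩

/-- piece 141 of the tree -/
noncomputable def t141 : WN.Tree :=
(.haz 8 191 7 40
(.haz 3 279 5 8
(.haz 6 191 9 40
(.haz 8 63 1 5
(.haz 8 95 1 5
(.haz 7 127 3 20
(.ask 79
(.mark 127 [7, 8, 9]
(.spn
(.lp [[6, 9], [0, 2, 4, 8], [1, 3, 5, 7]] [(.mj 0 1, 72), (.mj 4 5, 2), (.mj 6 7, 2), (.mj 7 8, 13), (.hz 12 21, 28), (.hz 7 277, 368), (.hz 14 279, 3928), (.hz 16 63, 17419), (.hz 17 95, 16016), (.hz 5 591, 827), (.hz 16 127, 60919), (.hz 16 191, 6135), (.hz 17 607, 65205), (.hz 9 863, 57909)])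
(.ask 175
(.mark 191 [6, 8, 10]
(.lp [[6, 9], [0, 2, 4, 8], [1, 3, 5, 7, 10]] [(.mj 4 5, 28), (.mj 5 6, 37), (.mj 6 8, 34), (.mj 8 7, 11), (.hz 12 21, 111), (.hz 12 23, 498), (.hz 12 31, 1033), (.hz 9 287, 2337), (.hz 5 591, 551), (.hz 16 191, 51249), (.hz 17 607, 57282), (.hz 18 639, 40551), (.hz 15 1215, 2470), (.hz 16 1215, 103867)]))
(.lp [[6, 9], [0, 2, 4, 8], [1, 3, 5, 7]] [(.mj 4 5, 45), (.mj 5 6, 159), (.mj 6 8, 151), (.mj 8 7, 77), (.hz 16 63, 35167), (.hz 17 95, 73749), (.hz 15 191, 22372), (.hz 16 191, 358947), (.hz 17 607, 334390), (.hz 18 639, 221522)]))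
(.lp [[6, 9], [0, 2, 4, 8], [1, 3, 5, 7]] [(.mj 0 1, 21), (.mj 4 5, 2), (.mj 5 6, 3), (.mj 9 7, 1), (.mj 9 8, 5), (.hz 12 21, 152), (.hz 12 23, 203), (.hz 17 95, 15655), (.hz 9 287, 942), (.hz 5 591, 51), (.hz 16 127, 23212), (.hz 15 191, 843), (.hz 16 191, 17277)])
.fin))
(.maj 7 8
(.lp [[6], [0, 2, 4, 8], [1, 3, 5, 7]] [(.mj 0 1, 69), (.mj 4 5, 17), (.mj 5 6, 18), (.mj 6 7, 13), (.mj 7 8, 36), (.hz 7 277, 375), (.hz 14 279, 3862), (.hz 16 63, 28783), (.hz 17 95, 94546), (.hz 16 127, 170902), (.hz 15 191, 293), (.hz 16 191, 44723)])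
(.ask 111
(.mark 127 [7, 8, 9]
(.spn
(.con 7 8)
(.haz 7 127 3 10
(.lp [[6, 9], [0, 2, 4, 8], [1, 3, 5, 7]] [(.mj 4 5, 61), (.mj 5 6, 49), (.mj 6 8, 71), (.mj 8 7, 22), (.hz 19 127, 34533), (.hz 16 191, 206160), (.hz 19 639, 113394)])
(.ask 277
(.mark 383 [7, 9, 10]
(.lp [[6, 9], [1, 3, 5, 7], [0, 2, 4, 8, 10]] [(.mj 4 5, 137), (.mj 5 6, 65), (.mj 6 8, 100), (.hz 7 1301, 118), (.hz 19 63, 15993), (.hz 14 1303, 4588), (.hz 16 191, 283951), (.hz 9 1311, 28156), (.hz 18 639, 46718)]))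
(.ask 279
(.mark 383 [7, 9, 10]
(.lp [[6, 9], [1, 3, 5, 7], [0, 2, 4, 8, 10]] [(.mj 4 5, 45), (.mj 5 6, 22), (.mj 6 8, 33), (.hz 19 63, 5634), (.hz 14 1303, 1229), (.hz 16 191, 93561), (.hz 9 1311, 9010), (.hz 18 639, 15572)]))
(.lp [[6, 9], [0, 2, 4, 8], [1, 3, 5, 7]] [(.mj 0 1, 283), (.mj 5 6, 6), (.mj 6 8, 25), (.hz 9 287, 11785), (.hz 19 127, 290), (.hz 16 191, 63535), (.hz 18 639, 4712)]))))
(.lp [[6, 9], [0, 2, 4, 8], [1, 3, 5, 7]] [(.mj 4 5, 3), (.mj 9 8, 2), (.hz 16 63, 1571), (.hz 16 127, 4104), (.hz 15 191, 61)])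
.fin))
(.ask 95
(.mark 127 [7, 8, 9]
(.spn
(.con 7 8)
(.haz 7 127 3 10
(.lp [[6, 9], [0, 2, 4, 8], [1, 3, 5, 7]] [(.mj 5 6, 12), (.mj 6 8, 14), (.mj 8 7, 14), (.hz 5 175, 184), (.hz 19 127, 23762), (.hz 16 191, 12004), (.hz 17 607, 17718), (.hz 19 383, 10830), (.hz 19 639, 40360)])
(.lp [[6, 9], [0, 2, 4, 8], [1, 3, 5, 7]] [(.mj 0 1, 38), (.mj 5 6, 57), (.mj 6 8, 50), (.mj 8 7, 17), (.hz 7 277, 142), (.hz 19 47, 10954), (.hz 19 63, 20269), (.hz 17 95, 60283), (.hz 19 111, 1027), (.hz 16 191, 119791), (.hz 17 607, 148518), (.hz 18 639, 28310)]))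
(.lp [[6, 9], [0, 2, 4, 8], [1, 3, 5, 7]] [(.mj 4 5, 4), (.mj 5 6, 4), (.mj 9 7, 1), (.mj 9 8, 5), (.hz 12 21, 3), (.hz 14 279, 52), (.hz 16 63, 2015), (.hz 17 95, 13411), (.hz 9 287, 321), (.hz 16 127, 21613), (.hz 15 191, 701), (.hz 16 191, 13500)])
.fin))
(.ask 127
(.mark 127 [7, 8, 9]
(.spn
(.con 7 8)
(.haz 8 63 11 50
(.haz 5 287 9 25
(.haz 3 279 33 50
(.ask 277
(.mark 383 [7, 9, 10]
(.spn
(.haz 7 639 11 50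
(.ask 639
(.mark 895 [7, 10, 11]
(.lp [[5, 7], [0, 2, 4, 8, 10], [1, 3, 6, 9, 11]] [(.mj 4 5, 69), (.mj 5 6, 161), (.mj 6 8, 251), (.mj 7 9, 62), (.mj 8 7, 185), (.hz 7 1301, 79), (.hz 21 1303, 465), (.hz 19 191, 35528), (.hz 20 1311, 6130), (.hz 22 639, 96506), (.hz 18 1407, 67867), (.hz 22 2687, 89866)]))
(.lp [[6, 9], [1, 3, 5, 7], [0, 2, 4, 8, 10]] [(.mj 4 5, 75), (.mj 5 6, 174), (.mj 6 8, 271), (.mj 7 9, 68), (.mj 8 7, 200), (.hz 7 1301, 85), (.hz 21 1303, 503), (.hz 19 191, 38427), (.hz 20 1311, 6630), (.hz 22 639, 105963), (.hz 18 1407, 73405)]))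
(.lp [[6, 9], [1, 3, 5, 7], [0, 2, 4, 8, 10]] [(.mj 0 1, 19), (.mj 5 6, 19), (.mj 6 8, 26), (.mj 7 9, 18), (.hz 22 47, 1705), (.hz 7 1301, 60), (.hz 22 63, 5434), (.hz 22 111, 2351), (.hz 22 127, 14266), (.hz 18 639, 7105), (.hz 19 639, 12073)]))
(.haz 6 287 13 50
(.ask 175
(.mark 447 [6, 10, 11]
(.lp [[6, 9], [0, 2, 4, 8, 10], [1, 3, 5, 7, 11]] [(.mj 4 5, 27), (.mj 5 6, 30), (.mj 6 8, 23), (.mj 8 9, 4), (.mj 9 7, 4), (.hz 7 1301, 170), (.hz 21 1303, 1003), (.hz 19 191, 6915), (.hz 22 1311, 11843), (.hz 19 255, 2867), (.hz 18 639, 10384), (.hz 15 2239, 2884), (.hz 19 2239, 4381), (.hz 22 1343, 1505), (.hz 18 1407, 25076)]))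
(.lp [[6, 9], [1, 3, 5, 7], [0, 2, 4, 8, 10]] [(.mj 5 6, 50), (.mj 6 8, 22), (.mj 8 9, 8), (.mj 9 7, 19), (.hz 7 1301, 275), (.hz 21 1303, 1626), (.hz 15 191, 5370), (.hz 19 191, 12813), (.hz 22 1311, 23768), (.hz 18 639, 16972), (.hz 22 447, 21745), (.hz 22 1343, 8259), (.hz 18 1407, 137643)]))
(.lp [[6, 9], [1, 3, 5, 7], [0, 2, 4, 8, 10]] [(.mj 4 5, 7), (.mj 6 8, 37), (.mj 8 9, 2), (.mj 9 7, 14), (.hz 22 31, 12581), (.hz 17 95, 71546), (.hz 15 191, 6785), (.hz 19 191, 12948), (.hz 18 383, 40930), (.hz 18 639, 4390)]))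
(.lp [[6, 9], [1, 3, 5, 7], [0, 2, 4, 8, 10]] [(.mj 4 5, 13), (.mj 5 6, 10), (.mj 6 8, 18), (.mj 10 7, 5), (.mj 10 9, 5), (.hz 12 21, 13), (.hz 21 279, 48), (.hz 19 191, 6584), (.hz 20 1311, 633), (.hz 19 255, 3158), (.hz 18 639, 16834), (.hz 19 639, 2543)])
.fin))
(.ask 279
(.mark 383 [7, 9, 10]
(.spn
(.ask 639
(.ask 175
(.mark 1023 [10, 11, 12]
(.lp [[6, 9, 11], [0, 2, 4, 8, 10], [1, 3, 5, 7, 12]] [(.mj 4 5, 56), (.mj 5 6, 83), (.mj 6 8, 128), (.mj 7 9, 43), (.mj 8 7, 66), (.hz 21 279, 349), (.hz 19 191, 12516), (.hz 20 1311, 4241), (.hz 5 4271, 3267), (.hz 18 639, 17136), (.hz 19 639, 18568), (.hz 19 4287, 38397), (.hz 18 2687, 113564)]))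
(.ask 191
(.mark 1023 [10, 11, 12]
(.lp [[6, 9, 11], [0, 2, 4, 8, 10], [1, 3, 5, 7, 12]] [(.mj 5 6, 18), (.mj 6 8, 26), (.mj 7 9, 10), (.mj 8 7, 19), (.hz 19 191, 1767), (.hz 18 639, 9718), (.hz 19 639, 3702), (.hz 19 4287, 6312), (.hz 18 2687, 30562)]))
(.mark 639 [7, 8, 11]
(.lp [[5, 7], [0, 2, 4, 8, 10], [1, 3, 6, 9, 11]] [(.mj 5 6, 78), (.mj 6 8, 96), (.mj 7 9, 31), (.mj 8 7, 70), (.hz 18 639, 69990), (.hz 19 639, 14475), (.hz 18 2687, 82341)]))))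
(.lp [[6, 9], [1, 3, 5, 7], [0, 2, 4, 8, 10]] [(.mj 0 1, 507), (.mj 4 5, 16), (.mj 5 6, 40), (.mj 6 8, 116), (.mj 7 9, 19), (.mj 8 7, 39), (.hz 21 1303, 3758), (.hz 19 191, 25227), (.hz 20 1311, 17234), (.hz 18 639, 18713)]))
(.haz 6 287 13 50
(.lp [[6, 9], [1, 3, 5, 7], [0, 2, 4, 8, 10]] [(.mj 4 5, 861), (.mj 5 6, 2928), (.mj 6 8, 876), (.mj 9 7, 1177), (.hz 22 287, 665384), (.hz 21 1303, 110017), (.hz 18 127, 1855241), (.hz 19 191, 440293), (.hz 22 1311, 712650), (.hz 18 383, 3457668), (.hz 22 1343, 518650), (.hz 18 1407, 8644169)])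
(.lp [[6, 9], [1, 3, 5, 7], [0, 2, 4, 8, 10]] [(.mj 0 1, 26), (.mj 4 5, 1), (.mj 6 8, 16), (.mj 8 9, 2), (.mj 9 7, 7), (.hz 22 31, 4231), (.hz 17 95, 17446), (.hz 18 127, 5253), (.hz 19 191, 6251), (.hz 18 383, 20662), (.hz 18 639, 4573)]))
(.lp [[6, 9], [1, 3, 5, 7], [0, 2, 4, 8, 10]] [(.mj 4 5, 13), (.mj 5 6, 11), (.mj 6 8, 18), (.mj 10 7, 6), (.mj 10 9, 5), (.hz 21 279, 78), (.hz 19 191, 6380), (.hz 20 1311, 938), (.hz 19 255, 2320), (.hz 18 383, 3066), (.hz 18 639, 16486), (.hz 19 639, 2556)])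
.fin))
(.ask 287
(.mark 383 [7, 9, 10]
(.lp [[6, 9], [1, 3, 5, 7], [0, 2, 4, 8, 10]] [(.mj 0 1, 32910), (.mj 5 6, 1167), (.mj 6 8, 3143), (.mj 8 9, 158), (.hz 17 95, 3000719), (.hz 19 191, 985611), (.hz 20 1311, 478350), (.hz 18 639, 356278)]))
(.lp [[6, 9], [0, 2, 4, 8], [1, 3, 5, 7]] [(.mj 0 1, 80), (.mj 5 6, 3), (.mj 6 8, 5), (.hz 18 127, 418), (.hz 15 191, 271), (.hz 19 191, 1205)]))))
(.lp [[6, 9], [0, 2, 4, 8], [1, 3, 5, 7]] [(.hz 12 21, 2), (.hz 21 23, 524), (.hz 12 23, 645), (.hz 14 279, 13), (.hz 20 287, 3), (.hz 5 175, 2)]))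
(.lp [[6, 9], [0, 2, 4, 8], [1, 3, 5, 7]] [(.mj 5 6, 4), (.mj 6 8, 2), (.hz 12 21, 6), (.hz 12 23, 26), (.hz 20 31, 4228), (.hz 12 31, 882), (.hz 9 287, 5357), (.hz 5 175, 945)]))
(.lp [[6, 9], [0, 2, 4, 8], [1, 3, 5, 7]] [(.mj 0 1, 506), (.mj 5 6, 6), (.hz 19 21, 2867), (.hz 19 23, 4163), (.hz 19 31, 3446), (.hz 19 63, 2527), (.hz 15 191, 5844), (.hz 18 639, 462)]))
(.lp [[6, 9], [0, 2, 4, 8], [1, 3, 5, 7]] [(.mj 4 5, 4), (.mj 5 6, 1), (.mj 9 8, 3), (.hz 16 63, 3077), (.hz 17 95, 3649), (.hz 18 127, 610), (.hz 16 127, 13845), (.hz 16 191, 6923)])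
.fin))
(.lp [[6], [0, 2, 4, 8], [1, 3, 5, 7]] [(.mj 0 1, 15), (.mj 4 5, 17), (.mj 5 6, 17), (.mj 6 8, 31), (.mj 8 7, 8), (.hz 16 191, 102328)]))))))
(.lp [[6], [0, 2, 4, 8], [1, 3, 5, 7]] [(.mj 0 1, 11), (.mj 4 5, 15), (.mj 5 6, 81), (.mj 6 8, 55), (.hz 7 277, 41), (.hz 18 47, 6843), (.hz 18 63, 17943), (.hz 17 95, 241528), (.hz 16 191, 130042)]))
(.lp [[6], [0, 2, 4, 8], [1, 3, 5, 7]] [(.mj 0 1, 860), (.mj 5 6, 23), (.mj 6 7, 1), (.mj 6 8, 27), (.hz 17 21, 45552), (.hz 17 23, 59171), (.hz 17 31, 32873), (.hz 11 95, 10182), (.hz 15 191, 7965), (.hz 16 191, 67707)]))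
(.lp [[6], [0, 2, 4, 8], [1, 3, 5, 7]] [(.mj 0 1, 195), (.mj 5 6, 5), (.mj 6 7, 1), (.hz 16 21, 11035), (.hz 16 23, 16387), (.hz 16 31, 14636), (.hz 16 63, 12448), (.hz 11 95, 2165), (.hz 15 191, 2239), (.hz 13 191, 548)]))
(.lp [[6], [0, 2, 4, 8], [1, 3, 5, 7]] [(.mj 0 1, 404), (.mj 4 5, 71), (.mj 6 7, 107), (.mj 6 8, 204), (.hz 15 15, 11380), (.hz 7 277, 1521), (.hz 15 31, 28676), (.hz 15 47, 334), (.hz 15 63, 44607), (.hz 13 191, 107292)]))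
(.lp [[6], [0, 2, 4, 8], [1, 3, 5, 7]] [(.hz 14 7, 5), (.hz 12 21, 1), (.hz 14 23, 82), (.hz 12 23, 17)]))
(.lp [[6], [0, 2, 4, 8], [1, 3, 5, 7]] [(.mj 0 1, 99), (.mj 5 6, 2), (.mj 6 7, 1), (.hz 13 21, 681), (.hz 13 23, 1000), (.hz 13 31, 880), (.hz 13 63, 736), (.hz 11 95, 1055), (.hz 10 191, 2374)]))

theorem run141 : run P3488 (leaf3 218 625) (cutRow P3488) [] t141 s141 = true := by
  decide +kernel

theorem bad141 : Bad P3488 s141 :=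
  run_sound (leaf3_sound P3488 rfl rfl) (cutRow_sound P3488) (
    fun _ h => absurd h List.not_mem_nil) t141 s141 run141

/-- the state above piece 97 of the tree -/
def s97 : St := ⟨[0, 0, 1, 3, 5, 5, 15, 21, 79], [31, 15, 11, 7, 3, 2, 1, 0], [0, 1, 2, 3, 4, 6],
  [],
  [⟨true, 2, 3, 3, 10⟩, ⟨true, 1, 5, 2, 5⟩, ⟨true, 2, 3, 23, 50⟩, ⟨true, 1, 5, 12, 25⟩, ⟨true, 2, 11, 12, 25⟩, ⟨true, 5, 31, 3, 50⟩, ⟨true, 3, 39, 21, 50⟩, ⟨true, 6, 191, 13, 50⟩, ⟨true, 5, 15, 3, 50⟩, ⟨true, 1, 37, 14, 25⟩],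
  [.spn 0 0 651200, .spn 1 1 302400, .spn 3 2 302400, .spn 7 3 140426, .spn 15 4 140426, .spn 31 6 140426]⟩

/-- piece 97 of the tree -/
noncomputable def t97 : WN.Tree :=
(.mark 95 [5, 7, 8]
(.spn
(.haz 8 223 6 25
(.haz 5 159 1 10
(.haz 8 223 17 50
(.haz 5 335 1 10
(.haz 5 335 3 25
(.haz 5 159 3 25
(.maj 7 8
(.lp [[5], [0, 2, 4, 7], [1, 3, 6, 8]] [(.mj 3 4, 727), (.mj 4 6, 434), (.mj 5 7, 473), (.mj 6 5, 1239), (.mj 7 8, 566), (.hz 15 159, 1182128), (.hz 14 335, 208579), (.hz 12 223, 112223), (.hz 14 351, 791272), (.hz 12 255, 1)])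
(.haz 8 223 21 50
(.haz 7 95 11 50
(.lp [[5], [0, 2, 4, 7], [1, 3, 6, 8]] [(.mj 1 2, 1244), (.mj 4 6, 1095), (.mj 5 8, 1478), (.mj 6 5, 2460), (.mj 8 7, 2128), (.rw 6, 1), (.hz 15 159, 622229), (.hz 14 335, 55075), (.hz 17 127, 2967326), (.hz 17 351, 517214)])
(.lp [[5], [0, 2, 4, 7], [1, 3, 6, 8]] [(.mj 3 4, 108), (.mj 4 6, 49), (.mj 5 8, 95), (.mj 6 5, 136), (.hz 17 21, 439), (.hz 17 23, 1879), (.hz 17 31, 3028), (.hz 17 95, 3218), (.hz 15 159, 133488), (.hz 14 335, 1108), (.hz 16 223, 33301)]))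
(.lp [[5], [0, 2, 4, 7], [1, 3, 6, 8]] [(.mj 1 2, 7), (.mj 3 4, 11), (.mj 4 6, 22), (.mj 6 5, 25), (.mj 8 7, 12), (.hz 16 95, 4350), (.hz 15 159, 35436), (.hz 14 335, 4369), (.hz 15 223, 16902)])))
(.lp [[5], [0, 2, 4, 7], [1, 3, 6, 8]] [(.mj 1 2, 1053), (.mj 3 4, 764), (.mj 5 7, 259), (.mj 5 8, 1184), (.rw 6, 1), (.hz 15 7, 59830), (.hz 15 15, 296003), (.hz 15 31, 1124573), (.hz 11 159, 3500535), (.hz 12 223, 475978)]))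
(.lp [[5], [0, 2, 4, 7], [1, 3, 6, 8]] [(.mj 1 2, 277), (.mj 3 4, 109), (.mj 5 7, 118), (.mj 5 8, 539), (.rw 6, 1), (.hz 14 7, 15744), (.hz 14 15, 69072), (.hz 14 79, 899808), (.hz 11 159, 88278), (.hz 13 335, 1962821), (.hz 12 223, 216604)]))
(.lp [[5], [0, 2, 4, 7], [1, 3, 6, 8]] [(.mj 3 4, 19), (.mj 4 6, 8), (.mj 5 7, 2), (.mj 5 8, 8), (.hz 13 5, 921), (.hz 13 7, 2864), (.hz 13 15, 5997), (.hz 11 159, 14600), (.hz 8 335, 574), (.hz 12 223, 3097)]))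
(.lp [[5], [0, 2, 4, 7], [1, 3, 6, 8]] [(.mj 3 4, 3), (.mj 5 7, 33), (.mj 6 5, 65), (.hz 12 79, 3359), (.hz 12 95, 10931), (.hz 11 159, 177705), (.hz 10 223, 15487)]))
(.lp [[5], [0, 2, 4, 7], [1, 3, 6, 8]] [(.mj 3 4, 641), (.mj 5 7, 277), (.mj 5 8, 707), (.rw 6, 1), (.hz 11 5, 36007), (.hz 11 7, 112023), (.hz 11 15, 442090), (.hz 11 31, 1890180), (.hz 5 159, 462949), (.hz 10 223, 626929)]))
(.lp [[5], [0, 2, 4, 7], [1, 3, 6, 8]] [(.mj 5 7, 14), (.mj 6 5, 22), (.hz 10 79, 2095), (.hz 10 95, 6526), (.hz 5 159, 11107)]))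
(.haz 4 47 13 50
(.haz 6 47 2 5
(.haz 4 47 17 50
(.haz 4 39 3 10
(.haz 6 47 11 25
(.ask 37
(.mark 127 [7, 8, 9]
(.lp [[5, 9], [0, 2, 4, 7], [1, 3, 6, 8]] [(.mj 3 4, 1193), (.mj 4 6, 542), (.mj 7 5, 21), (.mj 7 8, 109), (.hz 13 39, 453202), (.hz 9 549, 28115), (.hz 14 47, 114975), (.hz 13 551, 305912), (.hz 14 559, 83472), (.hz 5 351, 21644)]))
(.ask 39
(.mark 111 [4, 8, 9]
(.cut 5 [(0, 1), (1, 1), (2, 1), (3, 1), (5, 1), (7, 1), (11, 1), (21, 1), (15, 1), (23, 1), (31, 1), (79, 1), (95, 1)]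
(.lp [[5, 9], [0, 2, 4, 7], [1, 3, 6, 8]] [(.mj 3 4, 16664), (.mj 4 6, 7406), (.mj 7 5, 1213), (.mj 7 8, 1653), (.hz 13 39, 528989), (.hz 14 47, 89374), (.hz 13 551, 10719872), (.hz 12 559, 147326), (.hz 14 559, 2266426), (.hz 12 367, 317542), (.rw 7, 4)])))
(.ask 47
(.maj 5 8
(.mark 111 [4, 8, 9]
(.cut 5 [(0, 1), (1, 1), (2, 1), (3, 1), (5, 1), (7, 1), (11, 1), (21, 1), (15, 1), (23, 1), (31, 1), (79, 1), (95, 1)]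
(.lp [[5, 9], [0, 2, 4, 7], [1, 3, 6, 8]] [(.mj 3 4, 3244), (.mj 4 6, 1473), (.mj 7 5, 269), (.mj 7 8, 297), (.hz 14 47, 487374), (.hz 12 559, 149734), (.hz 14 559, 48600), (.hz 5 351, 57638), (.hz 12 367, 213766), (.rw 7, 1)])))
(.mark 47 [4, 6, 9]
(.cut 5 [(0, 1), (1, 1), (2, 1), (3, 1), (5, 1), (7, 1), (11, 1), (21, 1), (15, 1), (23, 1), (31, 1), (79, 1), (95, 1)]
(.lp [[5, 9], [0, 2, 4, 7], [1, 3, 6, 8]] [(.mj 3 4, 11838), (.mj 4 6, 5261), (.mj 7 8, 1201), (.mj 8 5, 1357), (.hz 13 39, 2740582), (.hz 5 159, 153744), (.hz 12 559, 65754), (.hz 14 559, 1761282), (.hz 12 623, 285008), (.rw 7, 4)]))))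
(.cut 5 [(0, 1), (1, 1), (2, 1), (3, 1), (5, 1), (7, 1), (11, 1), (21, 1), (15, 1), (23, 1), (31, 1), (79, 1), (95, 1)]
(.lp [[5], [0, 2, 4, 7], [1, 3, 6, 8]] [(.mj 3 4, 18430), (.mj 4 6, 9244), (.mj 7 5, 1147), (.mj 7 8, 1462), (.rw 7, 4)])))))
(.cut 5 [(0, 1), (1, 1), (2, 1), (3, 1), (5, 1), (7, 1), (11, 1), (21, 1), (15, 1), (23, 1), (149, 1), (31, 1), (79, 1), (151, 1), (95, 1), (159, 1)]
(.cut 5 [(0, 1), (1, 1), (2, 1), (3, 1), (5, 1), (7, 1), (11, 1), (21, 1), (15, 1), (23, 1), (31, 1), (79, 1), (95, 1), (335, 1)]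
(.lp [[5], [0, 2, 4, 7], [1, 3, 6, 8]] [(.mj 3 4, 528235), (.mj 7 5, 108220), (.hz 9 37, 4705331), (.hz 14 15, 69197018), (.hz 13 39, 379548228), (.hz 11 47, 133576429), (.hz 11 63, 16725864), (.hz 12 111, 1676297), (.hz 8 335, 11012845), (.hz 5 351, 2250126), (.rw 7, 24), (.rw 8, 67)]))))
(.cut 5 [(0, 1), (1, 1), (2, 1), (3, 1), (5, 1), (7, 1), (11, 1), (21, 1), (15, 1), (23, 1), (149, 2), (31, 1), (79, 1), (151, 1), (95, 1), (159, 1)]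
(.cut 5 [(0, 1), (1, 1), (2, 1), (3, 1), (5, 1), (7, 1), (11, 1), (21, 1), (15, 1), (23, 1), (31, 1), (79, 1)]
(.lp [[5], [0, 2, 4, 7], [1, 3, 6, 8]] [(.mj 4 6, 188793), (.mj 7 5, 151329), (.mj 7 8, 40318), (.hz 13 7, 136630628), (.hz 6 39, 16188935), (.hz 3 149, 6424949), (.hz 12 47, 35303057), (.hz 11 47, 265890687), (.hz 9 181, 4258452), (.hz 5 159, 4253733), (.hz 8 335, 26472199), (.hz 12 367, 57107509), (.rw 7, 25), (.rw 8, 69)]))))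
(.lp [[5], [0, 2, 4, 7], [1, 3, 6, 8]] [(.mj 1 2, 156), (.mj 4 6, 99), (.mj 7 5, 13), (.hz 12 15, 6903), (.hz 6 39, 328), (.hz 10 47, 3067), (.hz 11 47, 124150), (.hz 5 159, 4554), (.hz 10 111, 2077), (.hz 8 335, 883), (.hz 5 351, 2718), (.hz 10 367, 321)]))
(.cut 5 [(0, 1), (1, 1), (2, 1), (3, 1), (5, 1), (7, 1), (11, 1), (21, 1), (15, 1), (23, 1), (31, 1), (79, 1)]
(.cut 5 [(0, 1), (1, 1), (2, 1), (3, 1), (5, 1), (7, 1), (11, 1), (21, 1), (15, 1), (23, 1), (31, 1), (79, 1), (95, 1)]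
(.lp [[5], [0, 2, 4, 7], [1, 3, 6, 8]] [(.mj 1 2, 1712), (.mj 3 4, 3965), (.mj 7 5, 1431), (.hz 11 15, 2887015), (.hz 10 47, 567645), (.hz 8 335, 64583), (.hz 5 351, 52525), (.rw 7, 1), (.rw 8, 1)]))))
(.lp [[5], [0, 2, 4, 7], [1, 3, 6, 8]] [(.mj 4 6, 11314), (.mj 7 5, 13100), (.rw 5, 2), (.hz 10 5, 136735), (.hz 10 7, 458247), (.hz 10 15, 839112), (.hz 5 31, 2489251), (.hz 8 79, 2042437), (.hz 5 95, 2105849), (.hz 5 159, 1283247), (.hz 8 335, 818760), (.hz 5 351, 3111286)]))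
(.haz 6 47 2 5
(.haz 6 47 11 25
(.haz 3 39 13 25
(.haz 6 159 12 25
(.haz 5 159 2 25
(.ask 335
(.mark 351 [5, 7, 9]
(.lp [[5], [0, 2, 4, 7], [1, 3, 6, 8, 9]] [(.mj 1 2, 17), (.mj 3 4, 30), (.mj 4 6, 90), (.mj 8 5, 26), (.mj 8 7, 26), (.hz 9 37, 1042), (.hz 12 39, 6993), (.hz 11 47, 26361), (.hz 11 63, 2305), (.hz 14 159, 43707), (.hz 13 159, 2662), (.hz 14 223, 58240), (.hz 8 847, 3842)]))
(.ask 351
(.mark 351 [5, 7, 9]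
(.spn
(.lp [[5], [0, 2, 4, 7], [1, 3, 6, 8, 9]] [(.mj 1 2, 63), (.mj 3 4, 443), (.mj 4 6, 705), (.mj 8 5, 449), (.rw 7, 1), (.hz 11 47, 5336), (.hz 14 159, 515738), (.hz 13 159, 37275), (.hz 14 223, 835638)])
(.cut 5 [(0, 1), (1, 1), (2, 1), (3, 1), (5, 1), (7, 1), (11, 1), (21, 1), (15, 1), (23, 1), (31, 1), (79, 1)]
(.cut 5 [(0, 1), (1, 1), (2, 1), (3, 1), (5, 1), (7, 1), (11, 1), (21, 1), (15, 1), (23, 1), (149, 1), (31, 1), (79, 1), (151, 2), (95, 1), (159, 2), (223, 1)]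
(.cut 5 [(0, 1), (1, 1), (2, 1), (3, 1), (5, 1), (7, 1), (11, 1), (21, 1), (15, 1), (23, 1), (31, 1), (79, 1), (95, 1)]
(.lp [[5], [0, 2, 4, 7], [1, 3, 6, 8, 9]] [(.mj 3 4, 6430), (.mj 4 6, 76128), (.mj 7 5, 30385), (.mj 8 7, 39111), (.rw 7, 15), (.hz 9 37, 574078), (.hz 12 39, 2958707), (.hz 11 47, 15492065), (.hz 9 181, 1070323), (.hz 12 183, 3349896), (.hz 14 223, 47331357), (.hz 5 863, 7216361), (.rw 8, 31), (.rw 9, 1), (.rw 10, 34)]))))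
(.cut 5 [(0, 1), (1, 1), (2, 1), (3, 1), (5, 1), (7, 1), (11, 1), (21, 1), (15, 1), (23, 1), (31, 1), (79, 1), (95, 1), (335, 1), (351, 1)]
(.cut 7 [(0, 1), (1, 1), (2, 1), (3, 1), (5, 1), (7, 1), (11, 1), (21, 1), (37, 1), (15, 1), (23, 1), (39, 1), (53, 1), (31, 1), (47, 1), (55, 1), (79, 1), (63, 2), (95, 1), (111, 1), (335, 1), (127, 1), (367, 1)]
(.lp [[5], [0, 2, 4, 7], [1, 3, 6, 8, 9]] [(.mj 3 4, 29168), (.mj 4 6, 119101), (.mj 9 5, 11530), (.mj 9 7, 17649), (.rw 7, 14), (.hz 9 37, 1848443), (.hz 12 39, 9526590), (.hz 11 47, 33414158), (.hz 9 181, 586377), (.hz 13 159, 7595738), (.hz 13 191, 16557976), (.rw 8, 56), (.rw 9, 4)])))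
.fin))
(.lp [[5], [0, 2, 4, 7], [1, 3, 6, 8]] [(.mj 8 5, 1), (.mj 8 7, 1), (.hz 14 479, 1943)])))
(.cut 5 [(0, 1), (1, 1), (2, 1), (3, 1), (5, 1), (7, 1), (11, 1), (21, 1), (15, 1), (23, 1), (31, 1), (79, 1), (95, 1), (335, 1)]
(.lp [[5], [0, 2, 4, 7], [1, 3, 6, 8]] [(.mj 3 4, 1137), (.mj 4 6, 4010), (.mj 8 7, 1200), (.hz 14 5, 57536), (.hz 14 7, 161762), (.hz 14 21, 750), (.hz 14 23, 7125), (.hz 12 39, 28039), (.hz 14 31, 438070), (.hz 11 47, 705106), (.hz 5 159, 293720), (.hz 13 159, 276757), (.hz 5 223, 631856), (.rw 7, 1)])))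
(.lp [[5], [0, 2, 4, 7], [1, 3, 6, 8]] [(.mj 3 4, 53), (.mj 8 5, 204), (.mj 8 7, 223), (.hz 13 15, 40356), (.hz 13 31, 99679), (.hz 11 47, 25511), (.hz 11 63, 71431), (.hz 5 159, 300943), (.hz 11 191, 532422)]))
(.cut 5 [(0, 1), (1, 1), (2, 1), (3, 1), (5, 1), (7, 1), (11, 1), (15, 1), (79, 1), (335, 1)]
(.cut 5 [(0, 1), (1, 1), (2, 1), (3, 1), (5, 1), (7, 1), (11, 1), (15, 1), (79, 1)]
(.lp [[5], [0, 2, 4, 7], [1, 3, 6, 8]] [(.mj 1 2, 77534), (.mj 8 5, 6813), (.mj 8 7, 1004), (.hz 12 7, 4434728), (.hz 6 39, 780477), (.hz 11 47, 628979), (.hz 5 95, 327207), (.hz 5 159, 5654553), (.hz 11 191, 5252372), (.hz 5 223, 677271), (.rw 7, 2), (.rw 8, 5)]))))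
(.lp [[5], [0, 2, 4, 7], [1, 3, 6, 8]] [(.mj 8 5, 10), (.mj 8 7, 8), (.hz 11 15, 4241), (.hz 10 47, 13958), (.hz 10 63, 3547), (.hz 5 159, 11024), (.hz 8 335, 837), (.hz 10 191, 99871), (.hz 5 351, 483)]))
(.lp [[5], [0, 2, 4, 7], [1, 3, 6, 8]] [(.mj 1 2, 2), (.mj 8 5, 41), (.mj 8 7, 22), (.hz 10 15, 52301), (.hz 5 31, 2533), (.hz 8 79, 4560), (.hz 5 159, 33182), (.hz 8 335, 2140), (.hz 7 191, 35564), (.hz 5 351, 4712)]))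
.fin))

theorem run97 : run P3488 (leaf3 218 625) (cutRow P3488) [] t97 s97 = true := by
  decide +kernel

theorem bad97 : Bad P3488 s97 :=
  run_sound (leaf3_sound P3488 rfl rfl) (cutRow_sound P3488) (
    fun _ h => absurd h List.not_mem_nil) t97 s97 run97

/-- the state above piece 167 of the tree -/
def s167 : St := ⟨[0, 0, 1, 3, 5, 15, 21, 31, 47, 159, 303, 703], [671, 447, 191, 63, 31, 23, 21, 15, 11, 7, 5, 3, 2, 1, 0], [0, 1, 2, 3, 4, 5, 7, 8, 9],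
  [(5, 6), (4, 5)],
  [⟨true, 2, 3, 3, 10⟩, ⟨true, 1, 5, 2, 5⟩, ⟨true, 2, 3, 23, 50⟩, ⟨true, 1, 5, 12, 25⟩, ⟨true, 1, 21, 27, 50⟩, ⟨true, 4, 15, 9, 40⟩, ⟨true, 3, 23, 11, 20⟩, ⟨true, 4, 47, 7, 20⟩, ⟨true, 4, 47, 17, 40⟩, ⟨true, 4, 47, 9, 20⟩, ⟨true, 4, 47, 19, 40⟩, ⟨true, 3, 87, 27, 40⟩, ⟨true, 5, 95, 1, 4⟩, ⟨true, 5, 159, 1, 4⟩, ⟨true, 7, 127, 7, 40⟩, ⟨true, 7, 95, 1, 5⟩, ⟨true, 8, 127, 7, 40⟩, ⟨true, 4, 303, 1, 2⟩, ⟨true, 6, 447, 1, 20⟩, ⟨true, 6, 703, 1, 20⟩, ⟨true, 8, 127, 3, 10⟩, ⟨true, 6, 63, 1, 20⟩, ⟨true, 7, 1343, 7, 25⟩, ⟨true, 7, 1343, 21, 50⟩, ⟨true, 9, 1471, 9, 25⟩],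
  [.spn 0 0 651200, .spn 1 1 302400, .spn 3 2 302400, .spn 7 3 302400, .spn 15 4 302400, .spn 31 5 140426, .spn 63 7 140426, .spn 191 8 140426, .spn 447 9 140426]⟩

/-- piece 167 of the tree -/
noncomputable def t167 : WN.Tree :=
(.mark 959 [6, 10, 11]
(.spn
(.ask 85
(.mark 1023 [10, 11, 12]
(.lp [[6, 12], [1, 3, 5, 8, 10], [0, 2, 4, 7, 9, 11]] [(.mj 6 10, 83), (.mj 8 9, 437), (.mj 9 6, 246), (.mj 9 10, 163), (.rw 9, 1)]))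
(.haz 11 1023 17 50
(.lp [[6], [1, 3, 5, 8, 10], [0, 2, 4, 7, 9, 11]] [(.mj 6 10, 1249), (.mj 7 8, 993), (.mj 8 9, 3717), (.mj 9 6, 2422), (.rw 9, 5), (.hz 17 1327, 564677), (.hz 21 1343, 3275125), (.hz 18 1471, 7043948), (.hz 24 1471, 1330347), (.hz 25 1023, 5688564), (.hz 18 1983, 1406272), (.hz 25 2047, 1654438)])
(.lp [[6], [1, 3, 5, 8, 10], [0, 2, 4, 7, 9, 11]] [(.mj 6 10, 22), (.mj 8 9, 20), (.mj 9 6, 23), (.hz 17 1327, 3032), (.hz 25 703, 280), (.hz 21 1343, 17586), (.hz 25 959, 20792), (.hz 18 1471, 25469), (.hz 19 2751, 56637)])))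
(.haz 11 1983 1 10
(.haz 8 2751 3 10
(.haz 8 2751 19 50
(.haz 10 3007 9 25
(.ask 1327
(.mark 1983 [6, 11, 12]
(.spn
(.lp [[6], [0, 2, 4, 7, 9, 11], [1, 3, 5, 8, 10, 12]] [(.mj 6 11, 477), (.mj 8 9, 252), (.mj 9 10, 1084), (.mj 10 6, 825), (.rw 10, 1), (.hz 19 2751, 1912118), (.hz 18 3007, 4072055), (.hz 28 3007, 774094), (.hz 25 6079, 7010813)])
(.cut 6 [(0, 1), (1, 1), (2, 1), (3, 1), (5, 1), (7, 1), (11, 1), (21, 1), (15, 1), (23, 1), (31, 1), (47, 1), (63, 1), (159, 1), (303, 1), (191, 1), (319, 1), (671, 1), (1327, 1), (447, 1), (703, 1), (1343, 1), (5423, 1), (959, 1), (1471, 1)]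
(.lp [[6], [0, 2, 4, 7, 9, 11], [1, 3, 5, 8, 10, 12]] [(.mj 7 8, 238739), (.mj 8 9, 130487), (.mj 10 11, 34155), (.mj 11 6, 144248), (.hz 17 5423, 2035652366), (.hz 23 5439, 15381067), (.hz 27 2815, 16304579), (.hz 23 5503, 14804590), (.hz 18 5567, 195713205), (.hz 24 5567, 11939792), (.hz 18 6079, 1059320984), (.rw 11, 466)]))
(.lp [[6], [0, 2, 4, 7, 9, 11], [1, 3, 5, 8, 10, 12]] [(.mj 9 10, 12), (.mj 12 6, 10), (.mj 12 11, 6), (.hz 21 1343, 27079), (.hz 18 1471, 88766), (.hz 19 2751, 36396), (.hz 27 2751, 2199), (.hz 21 5439, 2924), (.hz 18 1983, 31270), (.hz 18 3007, 104868), (.hz 28 3007, 20648), (.hz 18 5567, 12585), (.hz 18 4031, 232808)])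
.fin))
(.haz 11 2047 9 50
(.ask 1343
(.mark 1983 [6, 11, 12]
(.spn
(.lp [[6], [0, 2, 4, 7, 9, 11], [1, 3, 5, 8, 10, 12]] [(.mj 6 11, 766), (.mj 8 9, 410), (.mj 9 10, 1765), (.mj 10 6, 1331), (.rw 10, 2), (.hz 19 2751, 3101345), (.hz 18 3007, 6590000), (.hz 28 3007, 1261919), (.hz 25 6079, 11004614)])
(.cut 6 [(0, 1), (1, 1), (2, 1), (3, 1), (5, 1), (7, 1), (11, 1), (21, 1), (15, 1), (23, 1), (31, 1), (47, 1), (63, 1), (159, 1), (303, 1), (191, 1), (319, 1), (671, 1), (1327, 1), (447, 1), (703, 1), (1343, 1)]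
(.cut 6 [(0, 1), (1, 1), (2, 1), (3, 1), (5, 1), (7, 1), (11, 1), (21, 1), (15, 1), (23, 1), (31, 1), (47, 1), (63, 1), (159, 1), (303, 1), (191, 1), (319, 1), (671, 1), (1327, 1), (447, 1), (703, 1), (1343, 1), (959, 1), (1471, 1), (2751, 1), (5439, 1), (1983, 1)]
(.cut 6 [(0, 1), (1, 1), (2, 1), (3, 1), (5, 1), (7, 1), (11, 1), (21, 1), (15, 1), (23, 1), (31, 1), (47, 1), (63, 1), (159, 1), (303, 1), (191, 1), (319, 1), (671, 1), (1327, 1), (447, 1), (703, 1), (1343, 1), (959, 1), (1471, 1), (5439, 2), (1983, 1), (5567, 1)]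
(.cut 6 [(0, 1), (1, 1), (2, 1), (3, 1), (5, 1), (7, 1), (11, 1), (21, 1), (15, 1), (23, 1), (31, 1), (47, 1), (63, 1), (159, 1), (303, 1), (191, 1), (319, 1), (671, 1), (1327, 1), (447, 1), (703, 1), (1343, 1), (959, 1), (1471, 1)]
(.lp [[6], [0, 2, 4, 7, 9, 11], [1, 3, 5, 8, 10, 12]] [(.mj 7 8, 13952), (.mj 8 9, 6873), (.mj 10 11, 3494), (.mj 11 6, 8782), (.rw 11, 20), (.rw 12, 1), (.rw 13, 1), (.rw 14, 7)])))))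
(.lp [[6], [0, 2, 4, 7, 9, 11], [1, 3, 5, 8, 10, 12]] [(.mj 9 10, 8), (.mj 12 6, 7), (.mj 12 11, 4), (.hz 21 1343, 18826), (.hz 18 1471, 61711), (.hz 19 2751, 25195), (.hz 27 2751, 1527), (.hz 21 5439, 1873), (.hz 18 1983, 21739), (.hz 18 3007, 72596), (.hz 28 3007, 14350), (.hz 18 5567, 8637), (.hz 18 4031, 161166)])
.fin))
(.ask 1471
(.mark 1983 [6, 11, 12]
(.spn
(.lp [[6], [0, 2, 4, 7, 9, 11], [1, 3, 5, 8, 10, 12]] [(.mj 6 11, 881), (.mj 8 9, 441), (.mj 9 10, 1899), (.mj 10 6, 1491), (.rw 10, 2), (.hz 19 2751, 3392912), (.hz 18 3007, 7282646), (.hz 28 3007, 1348673), (.hz 18 5567, 15207045), (.hz 25 6079, 11340157)])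
(.cut 6 [(0, 1), (1, 1), (2, 1), (3, 1), (5, 1), (7, 1), (11, 1), (21, 1), (15, 1), (23, 1), (31, 1), (47, 1), (63, 1), (159, 1), (303, 1), (191, 1), (319, 1), (1327, 1), (447, 1)]
(.cut 6 [(0, 1), (1, 1), (2, 1), (3, 1), (5, 1), (7, 1), (11, 1), (21, 1), (15, 1), (23, 1), (31, 1), (47, 1), (63, 1), (159, 1), (303, 1), (191, 1), (319, 1), (671, 1), (1327, 1), (447, 1), (703, 1), (1343, 1), (959, 1), (1471, 1)]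
(.lp [[6], [0, 2, 4, 7, 9, 11], [1, 3, 5, 8, 10, 12]] [(.mj 7 8, 11904), (.mj 8 9, 8650), (.mj 10 11, 920), (.mj 11 6, 7692), (.hz 18 6079, 36111591), (.rw 11, 19), (.rw 12, 6)])))
(.lp [[6], [0, 2, 4, 7, 9, 11], [1, 3, 5, 8, 10, 12]] [(.mj 9 10, 24), (.mj 12 6, 20), (.mj 12 11, 12), (.hz 21 1343, 56853), (.hz 18 1471, 186364), (.hz 19 2751, 72242), (.hz 27 2751, 4574), (.hz 18 1983, 65651), (.hz 18 3007, 208247), (.hz 28 3007, 43165), (.hz 18 5567, 22103), (.hz 18 4031, 462385)])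
.fin))
(.haz 11 1983 7 50
(.ask 1983
(.mark 1983 [6, 11, 12]
(.spn
(.haz 11 1983 7 25
(.lp [[6], [0, 2, 4, 7, 9, 11], [1, 3, 5, 8, 10, 12]] [(.mj 6 11, 4), (.mj 6 12, 1), (.mj 9 10, 2), (.mj 10 6, 4), (.hz 31 1983, 4534), (.hz 31 2047, 13970), (.hz 31 6079, 20851)])
(.lp [[6], [0, 2, 4, 7, 9, 11], [1, 3, 5, 8, 10, 12]] [(.mj 7 8, 23027), (.mj 8 9, 696), (.mj 10 6, 8860), (.rw 10, 25), (.hz 31 703, 8578454), (.hz 31 959, 10135667), (.hz 19 2751, 8859822), (.hz 29 2047, 33864308)]))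
(.cut 6 [(0, 1), (1, 1), (2, 1), (3, 1), (5, 1), (7, 1), (11, 1), (21, 1), (15, 1), (23, 1), (31, 1), (47, 1), (63, 1), (159, 1), (303, 1), (191, 1), (319, 1), (671, 1), (1327, 1), (447, 1), (703, 1), (1343, 1), (959, 1), (1471, 1)]
(.lp [[6], [0, 2, 4, 7, 9, 11], [1, 3, 5, 8, 10, 12]] [(.mj 7 8, 4702), (.mj 8 9, 4507), (.mj 11 6, 3307), (.mj 11 12, 23), (.hz 18 6079, 15044316), (.rw 11, 11)]))
(.cut 6 [(0, 1), (1, 1), (2, 1), (3, 1), (5, 1), (7, 1), (11, 1), (21, 1), (15, 1), (23, 1), (31, 1), (47, 1), (63, 1), (159, 1), (303, 1), (191, 1), (319, 1), (671, 1), (1327, 1), (447, 1), (703, 1), (1343, 1), (959, 1), (1471, 1), (2751, 1), (1983, 1)]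
(.cut 6 [(0, 1), (1, 1), (2, 1), (3, 1), (5, 1), (7, 1), (11, 1), (21, 1), (15, 1), (23, 1), (31, 1), (47, 1), (63, 1), (159, 1), (303, 1), (191, 1), (1327, 1)]
(.cut 6 [(0, 1), (1, 1), (2, 1), (3, 1), (5, 1), (7, 1), (11, 1), (21, 1), (15, 1), (23, 1), (31, 1), (47, 1), (63, 1), (159, 1), (303, 1), (191, 1), (319, 1), (671, 1), (1327, 1), (447, 1), (703, 1), (1343, 1)]
(.lp [[6], [0, 2, 4, 7, 9, 11], [1, 3, 5, 8, 10, 12]] [(.mj 7 8, 68439), (.mj 8 9, 47029), (.mj 12 6, 43498), (.hz 19 2751, 66515169), (.hz 18 1983, 220930400), (.hz 30 1983, 172547), (.hz 18 3007, 121376263), (.hz 29 2047, 133757245), (.rw 11, 4), (.rw 12, 67), (.rw 13, 49)]))))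
.fin))
(.spn
(.lp [[6], [1, 3, 5, 8, 10], [0, 2, 4, 7, 9, 11]] [(.mj 6 11, 2), (.mj 9 6, 1), (.mj 10 6, 2)])
(.lp [[6], [1, 3, 5, 8, 10], [0, 2, 4, 7, 9, 11]] [(.mj 10 11, 12), (.mj 11 6, 7), (.hz 19 2751, 60276), (.hz 18 3007, 170318)])
.fin
.fin))
(.cut 6 [(0, 1), (1, 1), (2, 1), (3, 1), (5, 1), (7, 1), (11, 1), (21, 1), (15, 1), (23, 1), (31, 1), (47, 1), (63, 1), (159, 1), (303, 1), (191, 1), (319, 1), (671, 1), (1327, 1), (447, 1), (703, 1), (1343, 1), (959, 1), (1471, 1)]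
(.lp [[6], [1, 3, 5, 8, 10], [0, 2, 4, 7, 9, 11]] [(.mj 7 8, 6018), (.mj 8 9, 458), (.mj 9 10, 1683), (.mj 10 6, 3204), (.hz 30 703, 5643246), (.hz 25 1983, 8068551), (.rw 10, 8)])))))
(.cut 6 [(0, 1), (1, 1), (2, 1), (3, 1), (5, 1), (7, 1), (11, 1), (21, 1), (15, 1), (23, 1), (31, 1), (47, 1), (63, 1), (159, 1), (303, 1), (191, 1), (319, 1), (671, 1), (1327, 1), (447, 1), (703, 1), (959, 1)]
(.lp [[6], [1, 3, 5, 8, 10], [0, 2, 4, 7, 9, 11]] [(.mj 7 8, 20047), (.mj 8 9, 1475), (.mj 9 10, 1679), (.mj 10 6, 9147), (.hz 29 703, 3742365), (.hz 29 767, 10397792), (.hz 29 959, 4614098), (.rw 10, 22)]))))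
(.lp [[6], [1, 3, 5, 8, 10], [0, 2, 4, 7, 9, 11]] [(.mj 8 9, 1410), (.mj 10 11, 1023), (.rw 9, 4), (.hz 28 959, 16644579), (.hz 19 2751, 13607570), (.hz 18 3007, 11993671)]))
(.lp [[6], [1, 3, 5, 8, 10], [0, 2, 4, 7, 9, 11]] [(.mj 8 9, 1276), (.rw 9, 2), (.hz 19 703, 1879018), (.hz 27 703, 3915495), (.hz 18 959, 7830990), (.hz 26 2751, 15661980)]))
(.lp [[6], [1, 3, 5, 8, 10], [0, 2, 4, 7, 9, 11]] [(.mj 3 4, 13), (.mj 8 9, 1), (.hz 26 47, 2231), (.hz 26 63, 2708), (.hz 26 191, 3265), (.hz 19 703, 5621)]))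
(.cut 6 [(0, 1), (1, 1), (2, 1), (3, 1), (5, 1), (7, 1), (11, 1), (21, 1), (15, 1), (23, 1), (31, 1), (47, 1), (63, 1), (159, 1), (303, 1), (191, 1), (319, 1), (671, 1), (1327, 1), (447, 1), (703, 1), (1343, 1), (959, 1), (1471, 1)]
(.lp [[6], [1, 3, 5, 8, 10], [0, 2, 4, 7, 9, 11]] [(.mj 7 8, 326), (.mj 8 9, 72), (.mj 9 10, 4895), (.mj 10 6, 2559), (.hz 17 1327, 1663083), (.hz 25 703, 6215104), (.hz 21 1343, 10087019), (.hz 25 959, 12558459), (.hz 18 1471, 18218695), (.hz 20 2815, 2173818), (.rw 10, 2)])))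
(.ask 1327
(.mark 1471 [6, 9, 12]
(.cut 6 [(0, 1), (1, 1), (2, 1), (3, 1), (5, 1), (7, 1), (11, 1), (21, 1), (15, 1), (23, 1), (31, 1), (47, 1), (63, 1), (159, 1), (303, 1), (191, 1), (319, 1), (671, 1), (1327, 1), (447, 1), (703, 1), (1343, 1), (5423, 1), (959, 1), (1471, 1)]
(.lp [[6], [0, 2, 4, 7, 9, 11], [1, 3, 5, 8, 10, 12]] [(.mj 8 9, 2116), (.mj 11 6, 1278), (.mj 11 10, 1362), (.hz 17 1327, 13089197), (.hz 23 1343, 243420), (.hz 17 5423, 6649913), (.hz 23 1407, 1923282), (.hz 24 1471, 1849763), (.rw 10, 4)])))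
(.cut 6 [(0, 1), (1, 1), (2, 1), (3, 1), (5, 1), (7, 1), (11, 1), (21, 1), (15, 1), (23, 1), (31, 1), (47, 1), (63, 1), (159, 1), (303, 1), (191, 1), (319, 1), (1327, 1), (447, 1)]
(.lp [[6], [1, 3, 5, 8, 10], [0, 2, 4, 7, 9, 11]] [(.mj 7 8, 63), (.mj 8 9, 1424), (.mj 11 6, 923), (.mj 11 10, 751), (.hz 23 1343, 77805), (.hz 23 1407, 589368), (.hz 24 1471, 850755), (.hz 19 2751, 3470761), (.rw 10, 2)])))
.fin))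

theorem run167 : run P3488 (leaf3 218 625) (cutRow P3488) [] t167 s167 = true := by
  decide +kernel

theorem bad167 : Bad P3488 s167 :=
  run_sound (leaf3_sound P3488 rfl rfl) (cutRow_sound P3488) (
    fun _ h => absurd h List.not_mem_nil) t167 s167 run167

/-- the state above piece 138 of the tree -/
def s138 : St := ⟨[0, 0, 1, 3, 5, 11, 15, 21, 95], [149, 95, 79, 31, 15, 11, 7, 5, 3, 2, 1, 0], [0, 1, 2, 3, 4, 6, 7],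
  [],
  [⟨true, 2, 3, 3, 10⟩, ⟨true, 1, 5, 2, 5⟩, ⟨true, 2, 3, 23, 50⟩, ⟨true, 1, 5, 12, 25⟩, ⟨true, 1, 21, 27, 50⟩, ⟨true, 4, 15, 9, 40⟩, ⟨true, 3, 23, 11, 20⟩, ⟨true, 4, 79, 7, 25⟩, ⟨true, 6, 63, 6, 25⟩, ⟨true, 4, 15, 17, 50⟩, ⟨true, 3, 151, 29, 50⟩, ⟨false, 5, 95, 1, 5⟩, ⟨true, 5, 351, 1, 20⟩, ⟨true, 5, 351, 1, 10⟩, ⟨true, 5, 223, 1, 10⟩, ⟨true, 4, 47, 2, 5⟩],
  [.spn 0 0 651200, .spn 1 1 302400, .spn 3 2 302400, .spn 7 3 302400, .spn 15 4 140426, .spn 31 6 140426, .spn 95 7 140426]⟩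

/-- piece 138 of the tree -/
noncomputable def t138 : WN.Tree :=
(.haz 5 95 7 40
(.lp [[5], [0, 2, 4, 7], [1, 3, 6, 8]] [(.mj 3 4, 13), (.mj 7 5, 9), (.hz 16 95, 3011), (.hz 16 223, 1259), (.hz 16 351, 1964)])
(.haz 4 111 13 20
(.haz 7 351 1 5
(.ask 151
(.mark 223 [5, 8, 9]
(.spn
(.lp [[5], [1, 3, 6, 8], [0, 2, 4, 7, 9]] [(.mj 3 4, 78), (.mj 5 8, 17), (.mj 7 5, 33), (.hz 16 11, 451), (.hz 15 47, 20187), (.hz 16 79, 1223), (.hz 13 351, 39025), (.hz 18 351, 25455), (.hz 14 735, 21564)])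
(.ask 351
(.mark 479 [5, 9, 10]
(.lp [[5], [0, 2, 4, 7, 9], [1, 3, 6, 8, 10]] [(.mj 3 4, 228), (.mj 7 8, 86), (.mj 8 5, 108), (.hz 16 11, 1494), (.hz 15 47, 66865), (.hz 17 111, 10287), (.hz 14 223, 195718), (.hz 13 351, 252068), (.hz 14 735, 619258), (.hz 13 1375, 29462)]))
(.ask 479
(.mark 479 [5, 9, 10]
(.spn
(.lp [[5], [0, 2, 4, 7, 9], [1, 3, 6, 8, 10]] [(.mj 3 4, 4012), (.mj 5 10, 363), (.mj 8 5, 1526), (.rw 8, 1), (.hz 16 11, 16625), (.hz 15 47, 743983), (.hz 17 111, 114459)])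
(.lp [[5], [0, 2, 4, 7, 9], [1, 3, 6, 8, 10]] [(.mj 3 4, 6), (.mj 9 5, 2), (.hz 16 11, 41), (.hz 15 47, 1839), (.hz 16 79, 3), (.hz 17 111, 275), (.hz 14 223, 6229), (.hz 13 351, 610), (.hz 13 479, 4790)])
(.lp [[5], [0, 2, 4, 7, 9], [1, 3, 6, 8, 10]] [(.mj 3 4, 6), (.mj 10 5, 2), (.hz 16 11, 43), (.hz 15 47, 1903), (.hz 17 111, 293), (.hz 14 223, 6502), (.hz 13 351, 642), (.hz 13 479, 5004)])
.fin))
(.lp [[5], [1, 3, 6, 8], [0, 2, 4, 7, 9]] [(.mj 3 4, 3), (.mj 7 5, 1), (.hz 16 11, 25), (.hz 16 15, 15), (.hz 15 47, 894), (.hz 16 79, 35), (.hz 17 111, 93)])))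
(.lp [[5], [1, 3, 6, 8], [0, 2, 4, 7, 9]] [(.mj 3 4, 5662), (.mj 9 5, 1380), (.mj 9 8, 955), (.rw 6, 1), (.hz 16 11, 49915), (.hz 16 15, 63235), (.hz 15 47, 1190306), (.hz 16 79, 148788), (.hz 13 351, 3715235)])
.fin))
(.haz 7 383 11 40
(.ask 159
(.mark 223 [5, 8, 9]
(.spn
(.haz 8 223 17 40
(.lp [[5], [1, 3, 6, 8], [0, 2, 4, 7, 9]] [(.mj 5 8, 2885), (.mj 6 7, 3200), (.mj 7 5, 3200), (.rw 6, 1), (.hz 20 223, 457546), (.hz 13 351, 2756328), (.hz 20 255, 10924), (.hz 20 735, 1893295)])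
(.lp [[5], [1, 3, 6, 8], [0, 2, 4, 7, 9]] [(.mj 3 4, 55), (.mj 6 7, 1), (.mj 7 5, 17), (.hz 16 11, 333), (.hz 15 47, 14892), (.hz 16 79, 903), (.hz 20 95, 3556), (.hz 20 223, 2814), (.hz 13 351, 14577), (.hz 14 735, 20465)]))
(.ask 351
(.mark 479 [5, 9, 10]
(.spn
(.lp [[5], [0, 2, 4, 7, 9], [1, 3, 6, 8, 10]] [(.mj 3 4, 5816), (.mj 7 8, 2415), (.mj 8 5, 3703), (.rw 8, 5), (.hz 14 735, 31502008), (.hz 13 1375, 11001471)])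
(.lp [[5], [0, 2, 4, 7, 9], [1, 3, 6, 8, 10]] [(.mj 3 4, 5), (.mj 7 8, 1), (.mj 9 5, 2), (.hz 16 11, 31), (.hz 15 47, 1401), (.hz 17 111, 216), (.hz 14 223, 4787), (.hz 13 351, 3546), (.hz 13 479, 4795), (.hz 14 735, 2359), (.hz 13 1375, 1635), (.hz 13 1503, 1117)])
(.lp [[5], [0, 2, 4, 7, 9], [1, 3, 6, 8, 10]] [(.mj 3 4, 4), (.mj 7 8, 1), (.mj 10 5, 2), (.hz 16 11, 24), (.hz 15 47, 1096), (.hz 17 111, 169), (.hz 14 223, 3745), (.hz 13 351, 4337), (.hz 13 479, 4315), (.hz 14 735, 7532), (.hz 13 1375, 179), (.hz 13 991, 1791)])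
.fin))
(.ask 479
(.mark 479 [5, 9, 10]
(.spn
(.lp [[5], [0, 2, 4, 7, 9], [1, 3, 6, 8, 10]] [(.mj 3 4, 3660), (.mj 5 10, 501), (.mj 8 5, 1616), (.rw 8, 1), (.hz 16 11, 13219), (.hz 15 47, 591540), (.hz 17 111, 91006), (.hz 14 735, 14773532)])
(.lp [[5], [0, 2, 4, 7, 9], [1, 3, 6, 8, 10]] [(.mj 3 4, 6), (.mj 9 5, 2), (.hz 16 11, 37), (.hz 15 47, 1638), (.hz 16 79, 3), (.hz 17 111, 245), (.hz 14 223, 5550), (.hz 13 351, 544), (.hz 13 479, 4268), (.hz 13 1503, 5390)])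
(.lp [[5], [0, 2, 4, 7, 9], [1, 3, 6, 8, 10]] [(.mj 3 4, 6), (.mj 10 5, 2), (.hz 16 11, 43), (.hz 15 47, 1903), (.hz 17 111, 293), (.hz 14 223, 6502), (.hz 13 351, 642), (.hz 13 479, 5004)])
.fin))
(.lp [[5], [1, 3, 6, 8], [0, 2, 4, 7, 9]] [(.mj 3 4, 9), (.mj 7 5, 2), (.hz 16 11, 75), (.hz 16 15, 95), (.hz 15 47, 1781), (.hz 16 79, 223)])))
(.lp [[5], [1, 3, 6, 8], [0, 2, 4, 7, 9]] [(.mj 3 4, 13), (.mj 9 5, 5), (.mj 9 8, 2), (.hz 16 11, 86), (.hz 15 47, 3845), (.hz 16 79, 7), (.hz 17 111, 574), (.hz 14 223, 13027), (.hz 13 351, 10207), (.hz 18 351, 4857), (.hz 14 735, 6032)])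
.fin))
(.ask 223
(.mark 223 [5, 8, 9]
(.spn
(.haz 8 223 7 20
(.lp [[5], [1, 3, 6, 8], [0, 2, 4, 7, 9]] [(.mj 5 8, 12), (.mj 5 9, 1), (.mj 6 7, 9), (.mj 7 5, 12), (.hz 20 223, 5793), (.hz 20 255, 5231), (.hz 20 735, 11453)])
(.ask 351
(.haz 9 479 3 10
(.haz 9 479 2 5
(.mark 479 [5, 9, 10]
(.lp [[5], [0, 2, 4, 7, 9], [1, 3, 6, 8, 10]] [(.mj 3 4, 320), (.mj 5 8, 8), (.mj 5 9, 104), (.mj 7 5, 232), (.hz 20 95, 50918), (.hz 13 351, 147463), (.hz 22 479, 283285), (.hz 13 1375, 348401), (.hz 22 1503, 726487)]))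
(.mark 351 [5, 7, 10]
(.lp [[5], [0, 2, 4, 7, 9], [1, 3, 6, 8, 10]] [(.mj 3 4, 14), (.mj 5 8, 9), (.mj 6 7, 8), (.mj 7 5, 17), (.hz 22 223, 37391), (.hz 13 351, 20512), (.hz 21 479, 15525), (.hz 13 1375, 14866)])))
(.lp [[5], [0, 2, 4, 7, 9], [1, 3, 6, 8, 10]] [(.mj 3 4, 1), (.mj 6 7, 2), (.mj 7 5, 2), (.hz 20 95, 932), (.hz 20 223, 1971), (.hz 21 223, 3752), (.hz 13 351, 1709), (.hz 13 1375, 1898)]))
(.lp [[5], [1, 3, 6, 8], [0, 2, 4, 7, 9]] [(.mj 3 4, 186901), (.mj 7 5, 31348), (.rw 7, 13), (.hz 16 11, 1647563), (.hz 16 15, 2087233), (.hz 15 47, 39289096), (.hz 16 79, 4911137), (.hz 20 223, 13714611)])))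
(.maj 5 9
(.ask 351
(.mark 479 [5, 9, 10]
(.spn
(.ask 43
(.mark 511 [9, 10, 11]
(.lp [[5, 11], [0, 2, 4, 7, 9], [1, 3, 6, 8, 10]] [(.mj 3 4, 2101), (.mj 5 9, 61), (.mj 7 8, 744), (.mj 8 5, 970), (.rw 8, 2), (.hz 2 2091, 10294), (.hz 15 2095, 671673), (.hz 17 2159, 109273), (.hz 14 735, 2150502)]))
(.ask 47
(.mark 511 [9, 10, 11]
(.lp [[5, 11], [0, 2, 4, 7, 9], [1, 3, 6, 8, 10]] [(.mj 3 4, 1219), (.mj 5 9, 32), (.mj 7 8, 409), (.mj 8 5, 516), (.rw 8, 1), (.hz 15 2095, 318344), (.hz 17 2159, 83959), (.hz 14 735, 1115381)]))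
(.ask 111
(.mark 511 [9, 10, 11]
(.lp [[5, 11], [0, 2, 4, 7, 9], [1, 3, 6, 8, 10]] [(.mj 3 4, 1153), (.mj 5 9, 29), (.mj 7 8, 377), (.mj 8 5, 468), (.rw 8, 1), (.hz 17 2159, 87995), (.hz 14 735, 999746)]))
(.lp [[5], [0, 2, 4, 7, 9], [1, 3, 6, 8, 10]] [(.mj 3 4, 2948), (.mj 7 8, 685), (.mj 8 5, 945), (.rw 8, 1), (.hz 14 735, 4630576), (.hz 13 1375, 2038973)]))))
(.con 9 5)
(.lp [[5], [0, 2, 4, 7, 9], [1, 3, 6, 8, 10]] [(.mj 3 4, 10), (.mj 7 8, 2), (.mj 10 5, 7), (.hz 14 223, 24010), (.hz 13 351, 17345), (.hz 13 479, 18818), (.hz 14 735, 14196)])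
.fin))
(.ask 479
(.mark 479 [5, 9, 10]
(.spn
(.ask 43
(.mark 127 [7, 8, 11]
(.lp [[5, 11], [0, 2, 4, 7, 9], [1, 3, 6, 8, 10]] [(.mj 3 4, 3765), (.mj 5 10, 267), (.mj 8 5, 1256), (.rw 8, 1), (.hz 16 11, 18104), (.hz 2 2091, 1817), (.hz 15 2095, 928691), (.hz 17 2159, 268560), (.hz 14 735, 7731847)]))
(.lp [[5], [0, 2, 4, 7, 9], [1, 3, 6, 8, 10]] [(.mj 3 4, 3889), (.mj 5 10, 284), (.mj 8 5, 1430), (.rw 8, 1), (.hz 15 47, 937259), (.hz 17 111, 102995), (.hz 14 735, 8387202)]))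
(.con 9 5)
(.lp [[5], [0, 2, 4, 7, 9], [1, 3, 6, 8, 10]] [(.mj 3 4, 6), (.mj 10 5, 2), (.hz 16 11, 43), (.hz 15 47, 1903), (.hz 17 111, 293), (.hz 14 223, 6502), (.hz 13 351, 642), (.hz 13 479, 5004)])
.fin))
(.lp [[5], [1, 3, 6, 8], [0, 2, 4, 7, 9]] [(.mj 5 9, 1), (.mj 8 5, 1)])))
(.lp [[5], [1, 3, 6, 8], [0, 2, 4, 7, 9]] [(.mj 3 4, 48), (.mj 7 8, 11), (.mj 8 9, 4), (.mj 9 5, 34), (.hz 14 223, 113741), (.hz 13 351, 82165), (.hz 13 479, 89143), (.hz 14 735, 23459)]))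
(.lp [[5], [1, 3, 6, 8], [0, 2, 4, 7, 9]] [(.mj 3 4, 9787), (.mj 9 5, 1793), (.rw 7, 1), (.hz 16 11, 64221), (.hz 15 47, 2873889), (.hz 17 111, 442137), (.hz 14 223, 9819120), (.hz 13 351, 1568877), (.hz 18 351, 5387691)])
.fin))
(.spn
(.lp [[5], [0, 2, 4, 7], [1, 3, 6, 8]] [(.mj 5 8, 3), (.mj 6 5, 1), (.mj 7 5, 4)])
(.ask 351
(.mark 351 [5, 7, 9]
(.ask 479
(.mark 479 [5, 9, 10]
(.spn
(.lp [[5], [0, 2, 4, 7, 10], [1, 3, 6, 8, 9]] [(.mj 5 10, 9), (.mj 7 8, 37), (.mj 8 5, 25), (.hz 13 351, 92532), (.hz 13 863, 49099)])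
(.lp [[5], [0, 2, 4, 7, 10], [1, 3, 6, 8, 9]] [(.mj 7 8, 4), (.mj 9 5, 3), (.mj 9 10, 1), (.hz 13 351, 12184), (.hz 13 479, 4400), (.hz 13 1503, 10252)])
(.lp [[5], [0, 2, 4, 7, 10], [1, 3, 6, 8, 9]] [(.mj 3 4, 7), (.mj 7 8, 2), (.mj 10 5, 5), (.hz 14 223, 17219), (.hz 13 351, 12438), (.hz 13 479, 13495)])
.fin))
(.lp [[5], [0, 2, 4, 7], [1, 3, 6, 8, 9]] [(.mj 7 8, 1), (.mj 8 5, 1), (.hz 13 351, 3658)])))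
(.ask 479
(.maj 5 9
(.ask 479
(.mark 479 [5, 9, 10]
(.spn
(.haz 10 991 9 40
(.lp [[5], [0, 2, 4, 7, 9], [1, 3, 6, 8, 10]] [(.mj 3 4, 53), (.mj 5 9, 35), (.mj 7 8, 6), (.mj 8 5, 66), (.mj 9 10, 29), (.hz 20 991, 22622), (.hz 13 1503, 355142)])
(.lp [[5], [0, 2, 4, 7, 9], [1, 3, 6, 8, 10]] [(.mj 3 4, 10), (.mj 5 9, 8), (.mj 8 5, 11), (.hz 20 479, 5366)]))
(.con 9 5)
(.con 10 9)
.fin))
(.lp [[5], [1, 3, 6, 8], [0, 2, 4, 7, 9]] [(.mj 5 9, 1), (.mj 8 5, 1)]))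
(.lp [[5], [1, 3, 6, 8], [0, 2, 4, 7, 9]] [(.mj 3 4, 6), (.mj 9 5, 2), (.hz 16 11, 43), (.hz 15 47, 1903), (.hz 17 111, 293), (.hz 14 223, 6502), (.hz 13 351, 642), (.hz 13 479, 5004)]))
(.lp [[5], [0, 2, 4, 7], [1, 3, 6, 8]] [(.mj 8 5, 1)])))
.fin
.fin)))
(.lp [[5], [0, 2, 4, 7], [1, 3, 6, 8]] [(.mj 7 5, 13), (.mj 7 8, 14), (.hz 19 31, 2913), (.hz 16 95, 796), (.hz 19 95, 4210), (.hz 13 351, 47512)])))
(.lp [[5], [0, 2, 4, 7], [1, 3, 6, 8]] [(.mj 7 5, 122), (.mj 7 8, 272), (.rw 6, 1), (.hz 18 95, 3206043), (.hz 13 351, 822062)]))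
(.lp [[5], [0, 2, 4, 7], [1, 3, 6, 8]] [(.mj 3 4, 1), (.hz 16 11, 16), (.hz 16 15, 43), (.hz 16 31, 27), (.hz 17 79, 747), (.hz 16 79, 347)])))

theorem run138 : run P3488 (leaf3 218 625) (cutRow P3488) [] t138 s138 = true := by
  decide +kernel

theorem bad138 : Bad P3488 s138 :=
  run_sound (leaf3_sound P3488 rfl rfl) (cutRow_sound P3488) (
    fun _ h => absurd h List.not_mem_nil) t138 s138 run138

end Pool.Agent.WN.Data
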