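import Pool.Agent.WN.CutRow
import Pool.Agent.WN.LeafRow
import Pool.Agent.Helper99.WN.ParDef
import Pool.Agent.WN.Data.D2

/-!
# The search tree, part 7
-/

set_option autoImplicit false

namespace Pool.Agent.WN.Data

open Pool.Agent.W3 Pool.Agent.WN Pool.Agent.Helper99.WN

/-- the state above piece 192 of the tree -/
def s192 : St := ⟨[0, 0, 1, 3, 5, 15, 21, 63, 63], [47, 31, 23, 21, 15, 11, 7, 5, 3, 2, 1, 0], [0, 1, 2, 3, 4, 5],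
  [(5, 6), (4, 5)],
  [⟨true, 2, 3, 3, 10⟩, ⟨true, 1, 5, 2, 5⟩, ⟨true, 2, 3, 23, 50⟩, ⟨true, 1, 5, 12, 25⟩, ⟨true, 1, 21, 27, 50⟩, ⟨true, 4, 15, 9, 40⟩, ⟨true, 3, 23, 11, 20⟩, ⟨true, 4, 47, 7, 20⟩, ⟨true, 4, 47, 17, 40⟩, ⟨true, 4, 47, 9, 20⟩, ⟨true, 4, 47, 19, 40⟩, ⟨true, 3, 87, 27, 40⟩, ⟨true, 5, 95, 1, 4⟩, ⟨true, 6, 63, 1, 10⟩],
  [.spn 0 0 651200, .spn 1 1 302400, .spn 3 2 302400, .spn 7 3 302400, .spn 15 4 302400, .spn 31 5 302400]⟩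

/-- piece 192 of the tree -/
noncomputable def t192 : WN.Tree :=
(.mark 63 [6, 7, 8]
(.spn
(.lp [[8], [0, 2, 4, 6], [1, 3, 5, 7]] [(.mj 3 4, 180), (.mj 6 7, 32), (.mj 7 8, 27), (.hz 13 319, 46956)])
(.ask 191
(.mark 191 [6, 8, 9]
(.spn
(.haz 6 319 3 20
(.haz 9 447 13 40
(.haz 9 447 17 40
(.lp [[8], [0, 2, 4, 6], [1, 3, 5, 7, 9]] [(.mj 6 8, 74), (.mj 6 9, 701), (.mj 7 6, 1861), (.rw 7, 1), (.hz 14 319, 1829569), (.hz 16 447, 322865)])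
(.lp [[8], [0, 2, 4, 6], [1, 3, 5, 7, 9]] [(.mj 6 8, 11), (.mj 7 6, 22), (.hz 16 191, 4421), (.hz 14 319, 21050), (.hz 15 447, 2316)]))
(.lp [[8], [0, 2, 4, 6], [1, 3, 5, 7, 9]] [(.mj 6 8, 4), (.mj 7 6, 7), (.hz 15 191, 1305), (.hz 14 319, 6596)]))
(.lp [[8], [0, 2, 4, 6], [1, 3, 5, 7, 9]] [(.mj 6 9, 103), (.rw 7, 1), (.hz 14 63, 825772), (.hz 13 319, 1808833)]))
(.haz 8 255 9 40
(.haz 8 703 1 4
(.ask 319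
(.mark 447 [6, 9, 10]
(.spn
(.lp [[6], [0, 2, 4, 7, 9], [1, 3, 5, 8, 10]] [(.mj 6 9, 1046), (.mj 7 8, 1933), (.mj 8 6, 1466), (.rw 8, 1), (.hz 13 703, 1282906), (.hz 15 703, 2390870), (.hz 13 1343, 4665112)])
(.ask 703
(.mark 959 [6, 10, 11]
(.spn
(.haz 11 1983 7 20
(.lp [[6], [1, 3, 5, 8, 10], [0, 2, 4, 7, 9, 11]] [(.mj 6 10, 322), (.mj 6 11, 1573), (.mj 7 8, 2082), (.mj 8 9, 891), (.mj 9 6, 2564), (.rw 9, 1), (.hz 13 1343, 8407919), (.hz 13 1471, 14015267), (.hz 13 2751, 874747), (.hz 16 1983, 4691762)])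
(.lp [[6], [1, 3, 5, 8, 10], [0, 2, 4, 7, 9, 11]] [(.mj 7 8, 1945), (.mj 8 9, 405), (.mj 9 6, 1196), (.rw 9, 1), (.hz 16 703, 532082), (.hz 13 1343, 7563136), (.hz 16 959, 1119473), (.hz 13 1471, 12185053)]))
(.lp [[6], [1, 3, 5, 8, 10], [0, 2, 4, 7, 9, 11]] [(.mj 7 8, 5), (.mj 8 9, 3), (.mj 10 6, 5), (.hz 13 319, 15536), (.hz 13 447, 6905), (.hz 13 703, 11681), (.hz 13 1343, 2218), (.hz 13 959, 11890), (.hz 13 1471, 764), (.hz 13 2751, 4218), (.hz 13 3007, 7638)])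
(.lp [[6], [1, 3, 5, 8, 10], [0, 2, 4, 7, 9, 11]] [(.mj 0 1, 7), (.mj 7 8, 1), (.mj 8 9, 1), (.mj 11 6, 5), (.hz 13 63, 4138), (.hz 13 191, 2759), (.hz 13 319, 5715), (.hz 13 447, 7445), (.hz 13 703, 7108), (.hz 13 1343, 4379), (.hz 13 959, 13138), (.hz 13 1471, 13138)])
.fin))
(.ask 959
(.mark 959 [6, 10, 11]
(.spn
(.lp [[6], [1, 3, 5, 8, 10], [0, 2, 4, 7, 9, 11]] [(.mj 6 11, 13), (.mj 7 8, 45), (.mj 8 9, 9), (.mj 9 6, 36), (.hz 13 319, 131145), (.hz 13 1343, 58287), (.hz 13 1471, 181336)])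
(.lp [[6], [1, 3, 5, 8, 10], [0, 2, 4, 7, 9, 11]] [(.mj 7 8, 4), (.mj 10 6, 3), (.mj 10 11, 1), (.hz 13 319, 9518), (.hz 13 447, 4231), (.hz 13 959, 4701), (.hz 13 3007, 9808)])
(.lp [[6], [1, 3, 5, 8, 10], [0, 2, 4, 7, 9, 11]] [(.mj 0 1, 4), (.mj 7 8, 1), (.mj 11 6, 3), (.hz 13 63, 2726), (.hz 13 191, 1817), (.hz 13 319, 4312), (.hz 13 447, 5147), (.hz 13 703, 2019), (.hz 13 959, 7962)])
.fin))
(.lp [[6], [0, 2, 4, 7, 9], [1, 3, 5, 8, 10]] [(.mj 7 8, 3), (.mj 8 6, 2), (.hz 13 319, 4334)])))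
(.lp [[6], [0, 2, 4, 7, 9], [1, 3, 5, 8, 10]] [(.mj 7 8, 2), (.mj 10 6, 2), (.mj 10 9, 1), (.hz 13 319, 5356), (.hz 13 447, 2380), (.hz 13 703, 4109), (.hz 15 703, 2598), (.hz 13 1343, 680)])
.fin))
(.ask 447
(.mark 447 [6, 9, 10]
(.spn
(.haz 9 447 1 4
(.lp [[6], [0, 2, 4, 7, 9], [1, 3, 5, 8, 10]] [(.mj 6 9, 62), (.mj 6 10, 17), (.mj 7 8, 49), (.mj 8 6, 69), (.hz 16 447, 102390), (.hz 13 703, 60503), (.hz 16 1471, 383326)])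
(.lp [[6], [0, 2, 4, 7, 9], [1, 3, 5, 8, 10]] [(.mj 7 8, 15964), (.mj 8 6, 7638), (.rw 8, 13), (.hz 16 191, 18045005), (.hz 13 703, 6683335)]))
(.ask 703
(.mark 959 [6, 10, 11]
(.spn
(.ask 85
(.mark 1023 [10, 11, 12]
(.lp [[8, 10], [0, 2, 4, 6, 12], [1, 3, 5, 7, 9, 11]] [(.mj 0 1, 40498), (.mj 8 9, 1600), (.mj 9 6, 5212), (.rw 9, 13), (.hz 4 4181, 232672), (.hz 11 4183, 656777), (.hz 12 4191, 12975596), (.hz 13 1471, 20994589)]))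
(.ask 87
(.mark 1023 [10, 11, 12]
(.lp [[8, 10], [0, 2, 4, 6, 12], [1, 3, 5, 7, 9, 11]] [(.mj 0 1, 35342), (.mj 8 9, 1057), (.mj 9 6, 3532), (.rw 9, 8), (.hz 11 4183, 295189), (.hz 12 4191, 7617309), (.hz 13 1471, 13874077)]))
(.lp [[6], [1, 3, 5, 8, 10], [0, 2, 4, 7, 9, 11]] [(.mj 0 1, 285240), (.mj 8 9, 5978), (.mj 9 6, 26852), (.rw 9, 26), (.hz 13 63, 19808348), (.hz 13 1471, 132055655), (.hz 13 2751, 42875213)])))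
(.lp [[6], [1, 3, 5, 8, 10], [0, 2, 4, 7, 9, 11]] [(.mj 0 1, 12), (.mj 9 10, 1), (.mj 10 6, 7), (.hz 13 63, 7529), (.hz 13 191, 5019), (.hz 13 319, 5019), (.hz 13 447, 11154), (.hz 13 703, 5577), (.hz 13 959, 18590), (.hz 13 1471, 3541), (.hz 13 2751, 6197)])
(.lp [[6], [1, 3, 5, 8, 10], [0, 2, 4, 7, 9, 11]] [(.mj 0 1, 20), (.mj 8 9, 1), (.mj 11 6, 12), (.hz 13 63, 12510), (.hz 13 191, 8340), (.hz 13 319, 8340), (.hz 13 447, 18534), (.hz 13 703, 14299), (.hz 13 959, 32706), (.hz 13 1471, 24919)])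
.fin))
(.ask 959
(.mark 959 [6, 10, 11]
(.spn
(.haz 11 1983 13 40
(.lp [[6], [1, 3, 5, 8, 10], [0, 2, 4, 7, 9, 11]] [(.mj 0 1, 6448), (.mj 6 10, 1490), (.mj 6 11, 4309), (.mj 7 8, 4276), (.mj 9 6, 8751), (.rw 9, 1), (.hz 13 319, 18740743), (.hz 13 1471, 30601826), (.hz 16 1983, 5690832)])
(.lp [[6], [1, 3, 5, 8, 10], [0, 2, 4, 7, 9, 11]] [(.mj 0 1, 8), (.mj 6 10, 9), (.mj 7 8, 2), (.mj 9 6, 11), (.hz 16 959, 6783)]))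
(.lp [[6], [1, 3, 5, 8, 10], [0, 2, 4, 7, 9, 11]] [(.mj 7 8, 3), (.mj 10 6, 2), (.hz 13 319, 7914), (.hz 13 447, 3517), (.hz 13 959, 3908), (.hz 13 1471, 582), (.hz 13 3007, 4933)])
(.lp [[6], [1, 3, 5, 8, 10], [0, 2, 4, 7, 9, 11]] [(.mj 0 1, 3), (.mj 11 6, 2), (.hz 13 63, 1906), (.hz 13 191, 1271), (.hz 13 319, 1271), (.hz 13 447, 2824), (.hz 13 703, 1412), (.hz 13 959, 4707), (.hz 13 1471, 3138)])
.fin))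
(.lp [[6], [0, 2, 4, 7, 9], [1, 3, 5, 8, 10]] [(.mj 0 1, 1), (.mj 7 8, 2), (.mj 9 6, 2), (.hz 13 319, 6900), (.hz 13 447, 3967), (.hz 13 1471, 4959)])))
(.lp [[6], [0, 2, 4, 7, 9], [1, 3, 5, 8, 10]] [(.mj 7 8, 13584), (.mj 10 6, 3594), (.rw 8, 4), (.hz 13 319, 39619637), (.hz 13 447, 17608728), (.hz 13 703, 3144416), (.hz 15 703, 28299741)])
.fin))
(.spn
(.lp [[8], [0, 2, 4, 6], [1, 3, 5, 7, 9]] [(.mj 6 9, 2), (.mj 8 6, 3)])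
(.ask 703
(.mark 703 [6, 8, 10]
(.ask 959
(.mark 959 [6, 10, 11]
(.spn
(.lp [[6], [1, 3, 5, 8, 11], [0, 2, 4, 7, 9, 10]] [(.mj 6 11, 9), (.mj 8 9, 37), (.mj 9 6, 25), (.hz 13 703, 92532), (.hz 13 1727, 49099)])
(.lp [[6], [1, 3, 5, 8, 11], [0, 2, 4, 7, 9, 10]] [(.mj 8 9, 4), (.mj 10 6, 3), (.mj 10 11, 1), (.hz 13 703, 12111), (.hz 13 959, 4374), (.hz 13 3007, 10350)])
(.lp [[6], [1, 3, 5, 8, 11], [0, 2, 4, 7, 9, 10]] [(.mj 0 1, 11), (.mj 8 9, 1), (.mj 11 6, 7), (.hz 13 63, 6439), (.hz 13 191, 4293), (.hz 13 319, 4293), (.hz 13 447, 9539), (.hz 13 703, 7359), (.hz 13 959, 16833)])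
.fin))
(.lp [[8], [0, 2, 4, 6], [1, 3, 5, 7, 9, 10]] [(.mj 8 9, 1), (.mj 9 6, 1), (.hz 13 703, 3658)])))
(.ask 959
(.maj 6 10
(.ask 959
(.mark 959 [6, 10, 11]
(.spn
(.haz 11 1983 1 5
(.lp [[6], [1, 3, 5, 8, 11], [0, 2, 4, 7, 9, 10]] [(.mj 0 1, 133), (.mj 6 10, 103), (.mj 9 6, 171), (.mj 10 11, 83), (.hz 16 1983, 541418), (.hz 13 3007, 1082835)])
(.lp [[6], [1, 3, 5, 8, 11], [0, 2, 4, 7, 9, 10]] [(.mj 0 1, 4), (.mj 6 10, 4), (.mj 9 6, 5), (.hz 16 959, 23026)]))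
(.con 10 6)
(.con 11 10)
.fin))
(.lp [[8], [0, 2, 4, 6], [1, 3, 5, 7, 9, 10]] [(.mj 6 10, 1), (.mj 9 6, 1)]))
(.lp [[8], [0, 2, 4, 6], [1, 3, 5, 7, 9, 10]] [(.mj 0 1, 3), (.mj 10 6, 2), (.hz 13 63, 1906), (.hz 13 191, 1271), (.hz 13 319, 1271), (.hz 13 447, 2824), (.hz 13 703, 1412), (.hz 13 959, 4707)]))
(.lp [[8], [0, 2, 4, 6], [1, 3, 5, 7, 9]] [(.mj 9 6, 1)])))
.fin
.fin)))
(.lp [[8], [0, 2, 4, 6], [1, 3, 5, 7, 9]] [(.mj 8 6, 1), (.mj 8 9, 1), (.hz 15 63, 2155), (.hz 15 191, 2963), (.hz 13 319, 269), (.hz 13 703, 3440)]))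
(.lp [[8], [0, 2, 4, 6], [1, 3, 5, 7, 9]] [(.mj 8 6, 1), (.mj 8 9, 1), (.hz 14 63, 210), (.hz 14 191, 279), (.hz 13 319, 230), (.hz 13 703, 3252)]))
(.ask 703
(.mark 703 [6, 8, 10]
(.spn
(.lp [[8], [0, 2, 4, 6], [1, 3, 5, 7, 9, 10]] [(.mj 9 6, 627), (.rw 8, 1)])
(.lp [[8], [0, 2, 4, 6], [1, 3, 5, 7, 9, 10]] [(.mj 9 8, 1098), (.rw 8, 2), (.hz 13 319, 3203375), (.hz 13 447, 5694889)])
(.maj 6 8
(.cut 6 [(0, 1), (1, 1), (2, 1), (3, 1), (5, 1), (7, 1), (11, 1), (21, 1), (15, 1), (23, 1), (31, 1), (47, 1), (63, 1), (191, 1), (703, 1)]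
(.cut 8 [(0, 1), (1, 1), (2, 1), (3, 1), (5, 1), (7, 1), (11, 1), (21, 1), (15, 1), (23, 1), (85, 1), (31, 1), (47, 1), (87, 1), (63, 1), (95, 1), (127, 1), (191, 1), (255, 1)]
(.cut 8 [(0, 1), (1, 1), (2, 1), (3, 1), (5, 1), (7, 1), (11, 1), (21, 1), (15, 1), (23, 1), (85, 1), (31, 1), (47, 1), (87, 1), (63, 1), (95, 1), (127, 2), (191, 1), (255, 1), (703, 1), (767, 1)]
(.cut 8 [(0, 1), (1, 1), (2, 1), (3, 1), (5, 1), (7, 1), (11, 1), (21, 1), (15, 1), (23, 1), (85, 1), (31, 1), (47, 1), (87, 1), (63, 1), (95, 1), (191, 1)]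
(.lp [[8], [0, 2, 4, 6], [1, 3, 5, 7, 9, 10]] [(.mj 0 1, 168753), (.mj 10 6, 1065115), (.hz 13 63, 1440151265), (.hz 13 447, 3624348724), (.hz 13 959, 3727901545), (.rw 9, 1524), (.rw 10, 96), (.rw 11, 190), (.rw 12, 239)])))))
(.cut 8 [(0, 1), (1, 1), (2, 1), (3, 1), (5, 1), (7, 1), (11, 1), (21, 1), (15, 1), (23, 1), (31, 1), (47, 1), (63, 1), (191, 1)]
(.lp [[8], [0, 2, 4, 6], [1, 3, 5, 7, 9, 10]] [(.mj 0 1, 57914), (.mj 10 6, 27578), (.rw 8, 2), (.hz 13 63, 36195995), (.hz 13 191, 24130663), (.hz 13 319, 24130663), (.hz 13 447, 53623696), (.hz 13 703, 26811848), (.hz 13 959, 72391990), (.rw 9, 11)])))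
.fin))
(.lp [[8], [0, 2, 4, 6], [1, 3, 5, 7, 9]] [(.mj 9 8, 1), (.rw 7, 1)]))
.fin))
(.lp [[8], [0, 2, 4, 6], [1, 3, 5, 7]] [(.mj 7 8, 232), (.rw 6, 1), (.hz 13 319, 2033615)]))
(.con 8 7)
.fin))

theorem run192 : run P3488 (leaf3 218 625) (cutRow P3488) [] t192 s192 = true := by
  decide +kernel

theorem bad192 : Bad P3488 s192 :=
  run_sound (leaf3_sound P3488 rfl rfl) (cutRow_sound P3488) (
    fun _ h => absurd h List.not_mem_nil) t192 s192 run192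

/-- the state above piece 149 of the tree -/
def s149 : St := ⟨[0, 0, 1, 3, 5, 15, 15, 47, 23, 279], [175, 319, 63, 31, 21, 15, 11, 7, 5, 3, 2, 1, 0], [0, 1, 2, 3, 4, 5, 8, 7],
  [(4, 5)],
  [⟨true, 2, 3, 3, 10⟩, ⟨true, 1, 5, 2, 5⟩, ⟨true, 2, 3, 23, 50⟩, ⟨true, 1, 5, 12, 25⟩, ⟨true, 1, 21, 27, 50⟩, ⟨true, 4, 15, 9, 40⟩, ⟨true, 3, 23, 11, 20⟩, ⟨true, 1, 21, 29, 50⟩, ⟨true, 8, 95, 7, 40⟩, ⟨true, 4, 79, 13, 40⟩, ⟨true, 7, 831, 13, 40⟩, ⟨true, 4, 79, 3, 8⟩, ⟨true, 8, 95, 1, 4⟩],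
  [.spn 0 0 651200, .spn 1 1 302400, .spn 3 2 302400, .spn 7 3 302400, .spn 15 4 140426, .spn 31 5 140426, .spn 63 8 140426, .spn 319 7 140426]⟩

/-- piece 149 of the tree -/
noncomputable def t149 : WN.Tree :=
(.haz 6 447 3 50
(.haz 7 127 3 10
(.haz 5 95 11 25
(.haz 5 79 8 25
(.ask 191
(.mark 447 [6, 9, 10]
(.spn
(.haz 9 1471 3 25
(.haz 9 447 13 50
(.lp [[6], [0, 2, 4, 8, 9], [1, 3, 5, 7, 10]] [(.mj 6 9, 1816), (.mj 6 10, 25), (.mj 7 6, 1816), (.mj 8 7, 1791), (.rw 8, 1), (.hz 18 447, 574832), (.hz 18 511, 1384808), (.hz 13 1471, 1067106), (.hz 18 1471, 1503839)])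
(.haz 10 511 19 50
(.lp [[6], [0, 2, 4, 8, 9], [1, 3, 5, 7, 10]] [(.mj 3 4, 509), (.mj 7 6, 976), (.mj 8 7, 1826), (.rw 8, 2), (.hz 18 279, 31504), (.hz 18 287, 156485), (.hz 18 319, 407785), (.hz 18 447, 181151), (.hz 19 511, 1654643), (.hz 13 959, 771516)])
(.lp [[6], [0, 2, 4, 8, 9], [1, 3, 5, 7, 10]] [(.mj 3 4, 3), (.mj 7 6, 5), (.mj 8 7, 6), (.hz 18 279, 162), (.hz 18 287, 804), (.hz 18 319, 2096), (.hz 18 447, 4355), (.hz 19 447, 3972)])))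
(.lp [[6], [0, 2, 4, 8, 9], [1, 3, 5, 7, 10]] [(.mj 7 6, 909), (.mj 8 7, 1605), (.rw 8, 1), (.hz 17 279, 94262), (.hz 17 287, 319205), (.hz 17 319, 692649), (.hz 17 447, 368430)]))
(.ask 79
(.mark 255 [8, 10, 11]
(.cut 6 [(0, 1), (1, 1), (2, 1), (3, 1), (5, 1), (7, 1), (11, 1), (21, 1), (15, 1), (23, 1), (31, 1), (47, 1), (279, 1), (63, 1), (175, 1), (287, 1), (791, 1), (191, 1), (319, 1), (447, 1)]
(.lp [[6, 11], [0, 2, 4, 8, 9], [1, 3, 5, 7, 10]] [(.mj 3 4, 15095), (.mj 8 7, 4175), (.mj 9 6, 3265), (.mj 9 10, 238), (.hz 15 95, 1897295), (.hz 11 2127, 4504973), (.hz 14 127, 5252790), (.hz 12 2143, 15274803), (.hz 11 2159, 9009946), (.hz 14 2175, 31434220), (.hz 12 2175, 15821018), (.hz 12 2303, 45645368), (.hz 13 1471, 3620327), (.rw 9, 4)])))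
(.ask 111
(.mark 255 [8, 10, 11]
(.cut 6 [(0, 1), (1, 1), (2, 1), (3, 1), (5, 1), (7, 1), (11, 1), (21, 1), (15, 1), (23, 1), (31, 1), (47, 1), (279, 1), (63, 1), (175, 1), (287, 1), (791, 1), (191, 1), (319, 1), (447, 1)]
(.lp [[6, 11], [0, 2, 4, 8, 9], [1, 3, 5, 7, 10]] [(.mj 3 4, 5538), (.mj 8 7, 1512), (.mj 9 6, 1103), (.mj 9 10, 103), (.hz 14 127, 3542817), (.hz 11 2159, 3493568), (.hz 14 2175, 7739141), (.hz 12 2175, 6240421), (.hz 12 2303, 14844350), (.hz 13 1471, 1216609), (.rw 9, 1)])))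
(.lp [[6], [0, 2, 4, 8, 9], [1, 3, 5, 7, 10]] [(.mj 3 4, 9555), (.mj 8 7, 3198), (.mj 9 6, 1546), (.hz 15 95, 116074), (.hz 12 95, 4952315), (.hz 14 127, 9082544), (.hz 12 127, 3395033), (.hz 11 239, 763205), (.hz 13 447, 735472), (.hz 13 959, 496810), (.hz 13 1471, 1675483)])))
(.ask 791
(.mark 831 [6, 7, 11]
(.cut 6 [(0, 1), (1, 1), (2, 1), (3, 1), (5, 1), (7, 1), (11, 1), (21, 1), (15, 1), (23, 1), (31, 1), (47, 1), (279, 1), (63, 1), (287, 1), (791, 1), (319, 1), (2839, 1)]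
(.lp [[6], [1, 3, 5, 7, 10], [0, 2, 4, 8, 9, 11]] [(.mj 3 4, 7870), (.mj 8 7, 4297), (.mj 10 6, 3601), (.mj 10 9, 572), (.hz 11 79, 1468255), (.hz 11 111, 1468255), (.hz 14 127, 1468255), (.hz 6 2839, 1825142), (.hz 15 863, 3100874), (.hz 10 895, 6146632), (.hz 13 959, 635156), (.hz 13 1471, 1045659), (.rw 9, 7)])))
(.cut 6 [(0, 1), (1, 1), (2, 1), (3, 1), (5, 1), (7, 1), (11, 1), (21, 1), (15, 1), (23, 1), (31, 1), (47, 1), (279, 1), (63, 1), (287, 1), (791, 1), (319, 1)]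
(.lp [[6], [0, 2, 4, 8, 9], [1, 3, 5, 7, 10]] [(.mj 3 4, 1763), (.mj 8 7, 2797), (.mj 10 6, 1977), (.mj 10 9, 1023), (.hz 11 79, 372740), (.hz 11 111, 232963), (.hz 10 831, 598324), (.hz 15 863, 2088058), (.hz 10 895, 2442079), (.hz 13 959, 2956068), (.hz 13 1471, 1218957), (.rw 9, 4)])))
.fin))
(.ask 447
(.mark 447 [6, 9, 10]
(.spn
(.haz 10 959 3 10
(.haz 9 1471 7 50
(.ask 1471
(.haz 9 1471 9 50
(.mark 1471 [6, 9, 11]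
(.ask 3519
(.ask 79
(.mark 3583 [9, 12, 13]
(.lp [[6, 13], [0, 2, 4, 8, 9], [1, 3, 5, 7, 10, 11, 12]] [(.mj 3 4, 33), (.mj 6 9, 52), (.mj 6 10, 29), (.mj 7 6, 70), (.mj 8 7, 16), (.hz 19 1471, 60369), (.hz 19 1535, 28481), (.hz 19 3519, 33671), (.hz 19 7615, 41062)]))
(.ask 111
(.mark 3583 [9, 12, 13]
(.lp [[6, 13], [0, 2, 4, 8, 9], [1, 3, 5, 7, 10, 11, 12]] [(.mj 3 4, 33), (.mj 6 9, 56), (.mj 6 10, 33), (.mj 7 6, 74), (.mj 8 7, 16), (.hz 19 1471, 67868), (.hz 19 1535, 17727), (.hz 19 3519, 37853), (.hz 19 9727, 173999), (.hz 19 7615, 46163)]))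
(.haz 9 447 1 5
(.mark 3519 [6, 9, 12]
(.lp [[6], [0, 2, 4, 8, 9], [1, 3, 5, 7, 10, 11, 12]] [(.mj 3 4, 18), (.mj 6 9, 12), (.mj 6 10, 4), (.mj 7 6, 18), (.mj 8 7, 10), (.hz 20 447, 3250), (.hz 20 511, 218816), (.hz 20 1471, 86980), (.hz 20 1535, 13463), (.hz 20 3519, 53853), (.hz 20 7615, 67316)]))
(.lp [[6], [0, 2, 4, 8, 9], [1, 3, 5, 7, 10, 11, 12]] [(.mj 3 4, 506), (.mj 6 10, 170), (.mj 7 6, 312), (.mj 8 7, 210), (.hz 20 287, 162253), (.hz 20 319, 856148), (.hz 20 447, 1122917), (.hz 13 959, 330570), (.hz 19 1471, 191179)]))))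
(.lp [[6], [0, 2, 4, 8, 9], [1, 3, 5, 7, 10, 11]] [(.mj 3 4, 9), (.mj 6 9, 5), (.mj 7 6, 10), (.mj 8 7, 4), (.hz 19 1535, 18402)])))
(.lp [[6], [0, 2, 4, 8, 9], [1, 3, 5, 7, 10, 11]] [(.mj 3 4, 58), (.mj 6 10, 110), (.mj 7 6, 163), (.mj 8 7, 134), (.hz 19 279, 6379), (.hz 19 287, 26574), (.hz 19 319, 63619), (.hz 19 447, 73044), (.hz 13 959, 127022), (.hz 18 1471, 123888)]))
(.lp [[6], [0, 2, 4, 8, 9], [1, 3, 5, 7, 10]] [(.mj 6 9, 5), (.mj 7 6, 9)]))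
(.lp [[6], [0, 2, 4, 8, 9], [1, 3, 5, 7, 10]] [(.mj 6 10, 17), (.mj 7 6, 22), (.mj 8 7, 16), (.hz 18 279, 1129), (.hz 18 287, 3853), (.hz 18 319, 8432), (.hz 18 447, 4062), (.hz 17 959, 96214)]))
(.lp [[6], [0, 2, 4, 8, 9], [1, 3, 5, 7, 10]] [(.mj 3 4, 11), (.mj 6 9, 8), (.mj 7 6, 13), (.mj 8 7, 4), (.hz 17 447, 29736), (.hz 13 959, 16721)]))
(.cut 6 [(0, 1), (1, 1), (2, 1), (3, 1), (5, 1), (7, 1), (11, 1), (21, 1), (15, 1), (23, 1), (31, 1), (47, 1), (279, 1), (63, 1), (175, 1), (287, 1), (791, 1), (191, 1), (319, 1), (447, 1)]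
(.lp [[6], [0, 2, 4, 8, 9], [1, 3, 5, 7, 10]] [(.mj 3 4, 5856), (.mj 8 7, 80), (.mj 9 6, 1653), (.mj 9 10, 374), (.hz 11 79, 1237982), (.hz 11 111, 773739), (.hz 6 791, 4255), (.hz 11 239, 754595), (.hz 13 1471, 1676285), (.rw 9, 2)]))
(.ask 1471
(.mark 1471 [6, 9, 11]
(.spn
(.lp [[6], [0, 2, 4, 8, 9], [1, 3, 5, 7, 10, 11]] [(.mj 10 6, 156), (.rw 9, 1)])
(.lp [[6], [0, 2, 4, 8, 9], [1, 3, 5, 7, 10, 11]] [(.mj 10 9, 7876), (.rw 9, 13), (.hz 13 959, 50271687)])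
(.maj 6 9
(.cut 6 [(0, 1), (1, 1), (2, 1), (3, 1), (5, 1), (7, 1), (11, 1), (21, 1), (15, 1), (23, 1), (31, 1), (47, 1), (279, 1), (63, 1), (175, 1), (287, 1), (191, 1), (319, 1), (447, 1)]
(.lp [[6], [0, 2, 4, 8, 9], [1, 3, 5, 7, 10, 11]] [(.mj 3 4, 602), (.mj 8 7, 288), (.mj 11 6, 329), (.rw 10, 1)]))
(.ask 791
(.mark 959 [6, 10, 12]
(.cut 6 [(0, 1), (1, 1), (2, 1), (3, 1), (5, 1), (7, 1), (11, 1), (21, 1), (15, 1), (23, 1), (31, 1), (47, 1), (279, 1), (63, 1), (175, 1), (287, 1), (791, 1), (191, 1), (319, 1), (799, 1), (4887, 1), (447, 1), (831, 1), (959, 1)]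
(.cut 9 [(0, 1), (1, 1), (2, 1), (3, 1), (5, 1), (7, 1), (11, 1), (21, 1), (15, 1), (23, 1), (31, 1), (47, 1), (279, 1), (63, 1), (175, 1), (287, 1), (191, 1), (319, 1), (447, 1), (1471, 1)]
(.lp [[6], [0, 2, 4, 8, 9, 12], [1, 3, 5, 7, 10, 11]] [(.mj 3 4, 28644), (.mj 8 7, 9582), (.mj 11 6, 9307), (.hz 11 79, 4805966), (.hz 11 111, 4805966), (.hz 6 4887, 6287483), (.hz 15 863, 9845503), (.rw 10, 26), (.rw 11, 1)]))))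
(.cut 6 [(0, 1), (1, 1), (2, 1), (3, 1), (5, 1), (7, 1), (11, 1), (21, 1), (15, 1), (23, 1), (31, 1), (47, 1), (279, 1), (63, 1), (175, 1), (287, 1), (791, 1), (191, 1), (319, 1), (447, 1)]
(.cut 9 [(0, 1), (1, 1), (2, 1), (3, 1), (5, 1), (7, 1), (11, 1), (21, 1), (15, 1), (23, 1), (31, 1), (47, 1), (279, 1), (63, 1), (175, 1), (287, 1), (191, 1), (319, 1), (447, 1)]
(.lp [[6], [0, 2, 4, 8, 9], [1, 3, 5, 7, 10, 11]] [(.mj 3 4, 318725), (.mj 8 7, 20109), (.mj 11 6, 119167), (.hz 15 863, 120459857), (.hz 10 895, 119521782), (.hz 13 1983, 202583429), (.rw 10, 359), (.rw 11, 46)])))))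
.fin))
(.lp [[6], [0, 2, 4, 8, 9], [1, 3, 5, 7, 10]] [(.mj 10 9, 1), (.rw 8, 1)]))
.fin))
(.cut 6 [(0, 1), (1, 1), (2, 1), (3, 1), (5, 1), (7, 1), (11, 1), (21, 1), (15, 1), (23, 1), (31, 1), (47, 1), (279, 1), (63, 1), (175, 1), (287, 1), (791, 1), (191, 1)]
(.lp [[6], [1, 3, 5, 7], [0, 2, 4, 8, 9]] [(.mj 3 4, 510430), (.mj 7 6, 168477), (.mj 8 7, 63168), (.hz 11 79, 107913230), (.hz 11 111, 67445769), (.hz 11 239, 65777007), (.hz 13 959, 233554814), (.rw 8, 62)]))))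
(.lp [[6], [1, 3, 5, 7], [0, 2, 4, 8, 9]] [(.mj 3 4, 10), (.mj 7 6, 4), (.hz 16 15, 1600), (.hz 11 79, 5570), (.hz 15 95, 3083), (.hz 12 95, 6333), (.hz 14 127, 4327), (.hz 12 127, 13231)]))
(.cut 6 [(0, 1), (1, 1), (2, 1), (3, 1), (5, 1), (7, 1), (11, 1), (21, 1), (15, 1), (23, 1), (31, 1), (47, 1), (279, 1), (175, 1), (287, 1), (791, 1)]
(.lp [[6], [1, 3, 5, 7], [0, 2, 4, 8, 9]] [(.mj 3 4, 44685), (.mj 5 8, 20658), (.mj 7 6, 32167), (.mj 8 6, 1008), (.mj 8 7, 2249), (.hz 15 31, 18375985), (.hz 12 95, 90423843), (.hz 11 111, 26478772), (.hz 12 127, 78285037), (.hz 10 831, 132832), (.hz 13 959, 1771093), (.rw 8, 20)])))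
(.lp [[6], [1, 3, 5, 7], [0, 2, 4, 8, 9]] [(.mj 3 4, 25), (.mj 7 6, 8), (.hz 11 79, 8373), (.hz 14 63, 20636), (.hz 12 95, 27513), (.hz 14 111, 940), (.hz 12 127, 15625), (.hz 11 239, 8778), (.hz 10 831, 544), (.hz 13 959, 7260)]))
(.cut 6 [(0, 1), (1, 1), (2, 1), (3, 1), (5, 1), (7, 1), (11, 1), (21, 1), (15, 1), (23, 1), (31, 1), (47, 1), (279, 1), (63, 1), (287, 1), (791, 1), (319, 1)]
(.lp [[6], [1, 3, 5, 7], [0, 2, 4, 8, 9]] [(.mj 3 4, 6132), (.mj 8 7, 2128), (.hz 13 15, 394256), (.hz 13 31, 32208), (.hz 13 287, 410608), (.rw 8, 2)])))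

theorem run149 : run P3488 (leaf3 218 625) (cutRow P3488) [] t149 s149 = true := by
  decide +kernel

theorem bad149 : Bad P3488 s149 :=
  run_sound (leaf3_sound P3488 rfl rfl) (cutRow_sound P3488) (
    fun _ h => absurd h List.not_mem_nil) t149 s149 run149

/-- the state above piece 70 of the tree -/
def s70 : St := ⟨[0, 0, 1, 1, 3, 7], [19, 7, 5, 3, 2, 1, 0], [0, 1, 2, 4],
  [],
  [⟨true, 1, 9, 7, 50⟩, ⟨true, 2, 11, 3, 50⟩, ⟨true, 2, 9, 9, 50⟩, ⟨false, 3, 3, 1, 5⟩, ⟨true, 2, 3, 1, 4⟩, ⟨true, 1, 9, 3, 10⟩, ⟨true, 2, 9, 3, 10⟩, ⟨true, 1, 9, 7, 20⟩, ⟨true, 1, 5, 7, 20⟩, ⟨true, 1, 9, 19, 50⟩, ⟨true, 3, 39, 3, 50⟩, ⟨true, 1, 13, 23, 40⟩, ⟨true, 1, 9, 17, 40⟩, ⟨true, 1, 13, 27, 40⟩],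
  [.spn 0 0 651200, .spn 1 1 140426, .spn 3 2 140426, .spn 7 4 140426]⟩

/-- piece 70 of the tree -/
noncomputable def t70 : WN.Tree :=
(.haz 4 39 9 40
(.haz 4 39 3 10
(.ask 23
(.mark 23 [3, 5, 6]
(.spn
(.haz 5 23 13 40
(.lp [[3], [0, 2, 5], [1, 4, 6]] [(.mj 0 1, 54), (.mj 2 4, 6), (.mj 3 5, 51), (.mj 3 6, 17), (.mj 4 3, 69), (.hz 16 23, 690), (.hz 16 31, 4893), (.hz 16 87, 6045)])
(.haz 6 55 7 25
(.haz 4 39 23 50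
(.haz 3 39 1 10
(.haz 3 39 1 8
(.ask 87
(.haz 5 215 1 20
(.haz 4 39 1 2
(.haz 6 55 2 5
(.ask 39
(.mark 119 [3, 7, 8]
(.lp [[3], [0, 2, 5, 8], [1, 4, 6, 7]] [(.mj 0 1, 53), (.mj 3 5, 7), (.mj 3 6, 24), (.mj 4 3, 45), (.hz 20 39, 6119), (.hz 22 39, 12720), (.hz 23 55, 20213), (.hz 20 295, 20794), (.hz 20 311, 2564), (.hz 23 311, 29140)]))
(.ask 55
(.mark 119 [3, 7, 8]
(.lp [[3], [0, 2, 5, 8], [1, 4, 6, 7]] [(.mj 0 1, 26), (.mj 3 5, 3), (.mj 3 6, 12), (.mj 4 3, 22), (.hz 20 39, 3350), (.hz 23 55, 11294), (.hz 20 311, 1171), (.hz 23 311, 9843)]))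
(.lp [[3], [0, 2, 5], [1, 4, 6, 7]] [(.mj 3 6, 2), (.mj 4 3, 3)])))
(.mark 87 [3, 5, 7]
(.lp [[3], [0, 2, 5], [1, 4, 6, 7]] [(.mj 0 1, 90), (.mj 3 5, 10), (.mj 4 3, 54), (.hz 16 23, 2942), (.hz 23 23, 30954), (.hz 20 39, 26742), (.hz 20 55, 190), (.hz 17 55, 1153), (.hz 21 215, 1517)])))
(.mark 87 [3, 5, 7]
(.lp [[3], [0, 2, 5], [1, 4, 6, 7]] [(.mj 0 1, 80), (.mj 3 5, 52), (.mj 4 3, 77), (.hz 22 7, 119711), (.hz 20 39, 18003), (.hz 18 39, 3962), (.hz 20 55, 1013), (.hz 17 55, 6159), (.hz 21 215, 8104)])))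
(.lp [[3], [0, 2, 5], [1, 4, 6, 7]] [(.mj 2 4, 4), (.mj 3 6, 3), (.mj 4 3, 4), (.hz 21 7, 407), (.hz 21 23, 418)]))
(.lp [[3], [0, 2, 5], [1, 4, 6]] [(.mj 0 1, 43), (.mj 3 5, 9), (.mj 3 6, 1), (.mj 4 3, 29), (.hz 20 39, 14105), (.hz 20 55, 4282)]))
(.lp [[3], [0, 2, 5], [1, 4, 6]] [(.mj 0 1, 36), (.mj 3 5, 3), (.mj 3 6, 2), (.hz 20 1, 1288), (.hz 20 5, 1472), (.hz 20 7, 785), (.hz 18 39, 168), (.hz 17 55, 772)]))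
(.lp [[3], [0, 2, 5], [1, 4, 6]] [(.mj 0 1, 15), (.mj 3 5, 1), (.mj 3 6, 1), (.hz 19 1, 425), (.hz 19 5, 473), (.hz 19 7, 249), (.hz 18 39, 67), (.hz 17 55, 306)]))
(.lp [[3], [0, 2, 5], [1, 4, 6]] [(.mj 4 3, 7), (.hz 18 7, 598), (.hz 16 7, 651), (.hz 10 39, 259)]))
(.lp [[3], [0, 2, 5], [1, 4, 6]] [(.mj 4 3, 2), (.hz 16 7, 33), (.hz 16 23, 181), (.hz 17 23, 289), (.hz 10 39, 193)])))
(.haz 4 11 1 5
(.haz 4 15 7 20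
(.ask 39
(.mark 55 [3, 6, 7]
(.spn
(.haz 6 55 1 4
(.haz 3 87 1 10
(.lp [[3], [1, 4, 6], [0, 2, 5, 7]] [(.mj 0 1, 137), (.mj 3 6, 378), (.mj 3 7, 147), (.mj 4 5, 269), (.mj 5 3, 499), (.hz 18 55, 52117), (.hz 19 87, 206771), (.hz 10 167, 23392), (.hz 18 183, 946989)])
(.lp [[3], [1, 4, 6], [0, 2, 5, 7]] [(.mj 0 1, 60), (.mj 3 6, 9), (.mj 3 7, 2), (.mj 4 5, 10), (.hz 19 1, 1982), (.hz 19 5, 2203), (.hz 19 7, 2447), (.hz 19 23, 2719), (.hz 18 55, 3230), (.hz 10 167, 819), (.hz 18 183, 19473)]))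
(.lp [[3], [1, 4, 6], [0, 2, 5, 7]] [(.mj 0 1, 280), (.mj 4 5, 2080), (.mj 5 3, 1122), (.rw 5, 1), (.hz 18 23, 1051858), (.hz 18 55, 674966), (.hz 10 167, 312691), (.hz 10 119, 70124)]))
(.maj 3 7
(.cut 3 [(0, 1), (1, 1), (2, 1), (3, 1), (5, 1), (7, 1), (19, 1), (23, 1), (39, 1), (55, 1)]
(.cut 3 [(0, 1), (1, 1), (2, 1), (3, 1), (5, 1), (7, 1), (19, 1), (23, 1), (39, 1), (55, 1), (87, 1)]
(.lp [[3], [1, 4, 6], [0, 2, 5, 7]] [(.mj 0 1, 287347), (.mj 5 6, 3986), (.mj 6 3, 56303), (.hz 12 9, 2049569), (.hz 13 13, 1290469), (.hz 10 167, 10168014), (.hz 17 175, 39485752), (.hz 10 183, 7160059), (.rw 6, 88), (.rw 7, 4)])))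
(.ask 9
(.mark 63 [6, 7, 8]
(.cut 3 [(0, 1), (1, 1), (2, 1), (3, 1), (5, 1), (7, 1), (19, 1), (23, 1)]
(.lp [[3, 8], [1, 4, 6], [0, 2, 5, 7]] [(.mj 0 1, 11427), (.mj 4 5, 498), (.mj 5 6, 50), (.mj 6 3, 340), (.mj 6 7, 241), (.mj 7 3, 1673), (.hz 12 265, 86986), (.hz 6 265, 50377), (.hz 16 267, 1226970), (.hz 13 269, 139391), (.hz 17 271, 618643), (.hz 15 167, 45843), (.hz 17 175, 338688), (.hz 10 119, 249059), (.rw 6, 4)])))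
(.cut 3 [(0, 1), (1, 1), (2, 1), (3, 1), (5, 1), (7, 1), (19, 1), (23, 1), (39, 1), (55, 1)]
(.lp [[3], [1, 4, 6], [0, 2, 5, 7]] [(.mj 0 1, 162975), (.mj 4 5, 4770), (.mj 6 7, 4402), (.mj 7 3, 26041), (.hz 13 13, 1812474), (.hz 17 15, 2227174), (.hz 15 167, 1058183), (.hz 17 175, 4034485), (.hz 10 119, 3809460), (.rw 6, 40)]))))
(.haz 6 55 3 10
(.cut 3 [(0, 1), (1, 1), (2, 1), (3, 1), (5, 1), (7, 1), (19, 1), (23, 1), (39, 1), (55, 1)]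
(.lp [[3], [1, 4, 6], [0, 2, 5, 7]] [(.mj 4 5, 1067), (.mj 7 3, 707), (.mj 7 6, 707), (.hz 18 55, 285841), (.hz 18 191, 1381855), (.rw 6, 2)]))
(.cut 3 [(0, 1), (1, 1), (2, 1), (3, 1), (5, 1), (7, 1), (19, 1), (23, 1), (39, 1)]
(.lp [[3], [1, 4, 6], [0, 2, 5, 7]] [(.mj 0 1, 408), (.mj 4 5, 2820), (.mj 7 3, 1711), (.mj 7 6, 406), (.hz 18 23, 509496), (.hz 10 39, 200220), (.hz 10 167, 164418), (.hz 10 119, 465862), (.rw 6, 2)])))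
.fin))
(.ask 55
(.mark 55 [3, 6, 7]
(.spn
(.haz 6 183 3 20
(.haz 3 23 1 10
(.haz 6 183 1 4
(.lp [[3], [1, 4, 6], [0, 2, 5, 7]] [(.mj 0 1, 47), (.mj 3 6, 31), (.mj 3 7, 20), (.mj 4 5, 2), (.mj 5 3, 54), (.hz 19 87, 36647), (.hz 20 183, 77917)])
(.lp [[3], [1, 4, 6], [0, 2, 5, 7]] [(.mj 0 1, 19), (.mj 3 7, 12), (.mj 5 3, 17), (.hz 20 23, 5539), (.hz 20 55, 17902), (.hz 19 87, 11977), (.hz 18 183, 4678)]))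
(.lp [[3], [1, 4, 6], [0, 2, 5, 7]] [(.mj 0 1, 39), (.mj 3 6, 1), (.mj 3 7, 1), (.mj 4 5, 1), (.hz 19 1, 1031), (.hz 19 5, 1146), (.hz 19 7, 221), (.hz 18 183, 709)]))
(.lp [[3], [1, 4, 6], [0, 2, 5, 7]] [(.mj 0 1, 4), (.mj 3 7, 3), (.mj 5 3, 4), (.hz 18 23, 419), (.hz 18 55, 679), (.hz 10 119, 543)]))
(.cut 3 [(0, 1), (1, 1), (2, 1), (3, 1), (5, 1), (7, 1), (19, 1), (23, 1), (39, 1), (55, 1)]
(.lp [[3], [1, 4, 6], [0, 2, 5, 7]] [(.mj 0 1, 21313), (.mj 5 6, 80), (.mj 6 3, 3449), (.hz 12 9, 177389), (.hz 13 13, 111689), (.hz 10 39, 90931), (.hz 10 55, 33736), (.hz 10 183, 344913), (.rw 6, 4)]))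
(.ask 183
(.mark 183 [3, 6, 8]
(.spn
(.lp [[3], [1, 4, 6], [0, 2, 5, 7, 8]] [(.mj 7 3, 152), (.rw 6, 1)])
(.cut 3 [(0, 1), (1, 1), (2, 1), (3, 1), (5, 1), (7, 1), (19, 1), (23, 1), (39, 1), (55, 1)]
(.lp [[3], [1, 4, 6], [0, 2, 5, 7, 8]] [(.mj 0 1, 17098), (.mj 6 3, 2703), (.mj 7 6, 798), (.rw 6, 1), (.hz 12 9, 142305), (.hz 13 13, 89599), (.hz 10 439, 270312), (.rw 7, 6)]))
(.cut 3 [(0, 1), (1, 1), (2, 1), (3, 1), (5, 1), (7, 1), (19, 1), (23, 1), (39, 1), (55, 1), (183, 1)]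
(.lp [[3], [1, 4, 6], [0, 2, 5, 7, 8]] [(.mj 0 1, 3476), (.mj 8 3, 531), (.hz 12 9, 28931), (.hz 13 13, 18216), (.hz 10 39, 14830), (.hz 10 55, 8490), (.rw 7, 1)]))
.fin))
(.lp [[3], [1, 4, 6], [0, 2, 5, 7]] [(.mj 7 6, 1), (.rw 5, 1)]))
.fin))
(.spn
(.lp [[3], [0, 2, 5], [1, 4, 6]] [(.mj 3 6, 1), (.mj 5 3, 1)])
(.cut 3 [(0, 1), (1, 1), (2, 1), (3, 1), (5, 1), (7, 1), (19, 1), (23, 1), (39, 1), (55, 1)]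
(.lp [[3], [0, 2, 5], [1, 4, 6]] [(.mj 0 1, 4213), (.mj 5 6, 66), (.mj 6 3, 692), (.hz 12 9, 35068), (.hz 13 13, 22080), (.rw 6, 1)]))
.fin
.fin)))
(.lp [[3], [0, 2, 5], [1, 4, 6]] [(.mj 4 5, 11), (.mj 5 3, 8), (.hz 17 7, 1622), (.hz 16 11, 870), (.hz 16 15, 4914), (.hz 10 39, 1104)]))
(.lp [[3], [0, 2, 5], [1, 4, 6]] [(.mj 4 3, 5), (.mj 4 5, 4), (.hz 16 3, 3353), (.hz 6 9, 186), (.hz 10 39, 584)]))
(.haz 5 23 9 40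
(.cut 3 [(0, 1), (1, 1), (2, 1), (3, 1), (5, 1), (7, 1)]
(.lp [[3], [0, 2, 5], [1, 4, 6]] [(.mj 0 1, 2177918), (.mj 6 3, 268030), (.mj 6 5, 35110), (.rw 4, 95), (.hz 12 9, 18126940), (.hz 13 13, 11413259), (.hz 16 23, 14636548), (.hz 6 27, 11469268), (.hz 15 47, 173513295), (.rw 5, 400)]))
(.cut 3 [(0, 1), (1, 1), (2, 1), (3, 1), (5, 1), (7, 1)]
(.lp [[3], [0, 2, 5], [1, 4, 6]] [(.mj 0 1, 5497), (.mj 6 3, 932), (.hz 12 9, 44634), (.hz 16 7, 18602), (.hz 13 13, 28103), (.hz 15 39, 3328), (.hz 15 47, 410055), (.hz 10 55, 11091), (.rw 5, 1)])))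
.fin))
(.spn
(.lp [[3], [1, 4], [0, 2, 5]] [(.mj 3 5, 2), (.mj 4 3, 3)])
(.haz 3 39 1 8
(.lp [[3], [1, 4], [0, 2, 5]] [(.mj 4 5, 24), (.mj 5 3, 13), (.hz 16 39, 19772)])
(.haz 3 39 1 10
(.ask 39
(.mark 39 [3, 4, 6]
(.ask 55
(.mark 55 [3, 6, 7]
(.spn
(.lp [[3], [1, 4, 7], [0, 2, 5, 6]] [(.mj 3 7, 534), (.mj 4 5, 3134), (.mj 5 3, 1709), (.rw 5, 2)])
(.lp [[3], [1, 4, 7], [0, 2, 5, 6]] [(.mj 4 5, 3), (.mj 6 3, 3), (.mj 6 7, 1), (.hz 17 39, 2655), (.hz 17 55, 1019)])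
(.lp [[3], [1, 4, 7], [0, 2, 5, 6]] [(.mj 4 5, 3), (.mj 7 3, 2), (.hz 17 39, 2397), (.hz 17 55, 920)])
.fin))
(.lp [[3], [1, 4], [0, 2, 5, 6]] [(.mj 4 5, 923), (.rw 4, 1), (.hz 17 39, 461295)])))
(.ask 55
(.maj 3 6
(.ask 55
(.mark 55 [3, 6, 7]
(.spn
(.haz 6 183 11 40
(.lp [[3], [1, 4, 7], [0, 2, 5, 6]] [(.mj 3 6, 12), (.mj 4 5, 13), (.mj 5 3, 17), (.mj 6 7, 6), (.hz 17 183, 13757), (.hz 18 183, 1500)])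
(.lp [[3], [1, 4, 7], [0, 2, 5, 6]] [(.mj 4 5, 2), (.mj 5 3, 2), (.mj 6 7, 1), (.hz 18 55, 232), (.hz 17 183, 2934)]))
(.con 6 3)
(.con 7 6)
.fin))
(.lp [[3], [1, 4], [0, 2, 5, 6]] [(.mj 3 6, 1), (.mj 5 3, 1)]))
(.lp [[3], [1, 4], [0, 2, 5, 6]] [(.mj 4 5, 3), (.mj 6 3, 2), (.hz 17 39, 2397), (.hz 17 55, 920)]))
(.lp [[3], [1, 4], [0, 2, 5]] [(.mj 5 3, 1)])))
(.cut 3 [(0, 1), (1, 1), (2, 1), (3, 1), (5, 1), (7, 1), (19, 1), (23, 1)]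
(.lp [[3], [1, 4], [0, 2, 5]] [(.mj 0 1, 12597), (.mj 4 5, 2800), (.hz 17 1, 359124), (.hz 17 5, 399027), (.hz 17 7, 210014), (.rw 5, 2)]))))
.fin
.fin))
(.lp [[3], [1, 4], [0, 2, 5]] [(.mj 2 4, 5), (.mj 4 3, 40), (.mj 4 5, 42), (.hz 6 9, 1588), (.hz 15 7, 12704), (.hz 10 39, 5668)]))
(.lp [[3], [1, 4], [0, 2, 5]] [(.mj 4 3, 1), (.mj 4 5, 1), (.hz 14 3, 29), (.hz 14 7, 65), (.hz 10 39, 147)]))

theorem run70 : run P3488 (leaf3 218 625) (cutRow P3488) [] t70 s70 = true := by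
  decide +kernel

theorem bad70 : Bad P3488 s70 :=
  run_sound (leaf3_sound P3488 rfl rfl) (cutRow_sound P3488) (
    fun _ h => absurd h List.not_mem_nil) t70 s70 run70

/-- the state above piece 256 of the tree -/
def s256 : St := ⟨[0, 0, 1, 3, 7, 7, 23, 55], [55, 39, 23, 7, 5, 3, 2, 1, 0], [0, 1, 2, 4, 5, 6],
  [],
  [⟨true, 2, 3, 3, 10⟩, ⟨true, 1, 5, 2, 5⟩, ⟨true, 2, 3, 23, 50⟩, ⟨true, 1, 5, 12, 25⟩, ⟨true, 3, 55, 3, 50⟩, ⟨true, 3, 87, 3, 50⟩],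
  [.spn 0 0 651200, .spn 1 1 302400, .spn 3 2 302400, .spn 7 4 424061, .spn 23 5 140426, .spn 55 6 140426]⟩

/-- piece 256 of the tree -/
noncomputable def t256 : WN.Tree :=
(.haz 6 191 8 25
(.ask 87
(.mark 119 [3, 7, 8]
(.spn
(.haz 7 375 1 5
(.haz 7 119 17 50
(.lp [[3], [1, 5, 7], [0, 2, 4, 6, 8]] [(.mj 3 7, 6909), (.mj 3 8, 646), (.mj 5 6, 5473), (.mj 6 3, 6909), (.rw 6, 1), (.hz 8 119, 310968), (.hz 5 343, 493455), (.hz 8 127, 518176), (.hz 8 375, 1157561)])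
(.haz 7 375 13 50
(.ask 11
(.mark 127 [7, 8, 9]
(.lp [[5, 7], [1, 3, 9], [0, 2, 4, 6, 8]] [(.mj 3 7, 41), (.mj 3 8, 19), (.mj 5 6, 30), (.mj 6 3, 49), (.hz 8 55, 777), (.hz 4 183, 1148), (.hz 9 375, 9644)]))
(.ask 15
(.mark 127 [7, 8, 9]
(.lp [[5, 7], [1, 3, 9], [0, 2, 4, 6, 8]] [(.mj 3 7, 41), (.mj 3 8, 19), (.mj 5 6, 30), (.mj 6 3, 49), (.hz 8 55, 778), (.hz 4 183, 1172), (.hz 9 375, 9703)]))
(.ask 31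
(.mark 127 [7, 8, 9]
(.lp [[5, 7], [1, 3, 9], [0, 2, 4, 6, 8]] [(.mj 3 7, 98), (.mj 3 8, 45), (.mj 5 6, 72), (.mj 6 3, 118), (.hz 8 55, 1814), (.hz 4 183, 3019), (.hz 9 375, 23025)]))
(.ask 95
(.mark 127 [7, 8, 9]
(.lp [[5, 7], [1, 3, 9], [0, 2, 4, 6, 8]] [(.mj 3 7, 33), (.mj 3 8, 14), (.mj 5 6, 28), (.mj 6 3, 38), (.hz 8 55, 786), (.hz 5 343, 98), (.hz 9 375, 7627)]))
(.haz 3 183 1 10
(.ask 183
(.mark 183 [3, 6, 9]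
(.lp [[3], [1, 5, 7, 9], [0, 2, 4, 6, 8]] [(.mj 3 7, 15), (.mj 3 8, 45), (.mj 6 3, 73), (.hz 8 55, 971), (.hz 8 119, 6742), (.hz 10 183, 59531), (.hz 5 343, 904), (.hz 9 375, 10712), (.hz 10 695, 27443)]))
(.lp [[3], [1, 5, 7], [0, 2, 4, 6, 8]] [(.mj 3 8, 7), (.mj 6 3, 10), (.hz 8 119, 1472), (.hz 10 183, 7226), (.hz 5 343, 198), (.hz 9 375, 1303)]))
(.lp [[3], [1, 5, 7], [0, 2, 4, 6, 8]] [(.mj 3 7, 2), (.mj 3 8, 1), (.mj 5 6, 1), (.hz 10 23, 583), (.hz 10 39, 872), (.hz 10 55, 2517), (.hz 8 55, 30), (.hz 4 183, 244), (.hz 9 375, 511)]))))))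
(.lp [[3], [1, 5, 7], [0, 2, 4, 6, 8]] [(.mj 3 8, 9), (.mj 6 3, 13), (.hz 9 55, 623), (.hz 9 119, 1419), (.hz 4 183, 2181), (.hz 5 343, 264), (.hz 7 375, 16986)])))
(.lp [[3], [1, 5, 7], [0, 2, 4, 6, 8]] [(.mj 3 8, 2), (.mj 5 6, 3), (.mj 6 3, 3), (.hz 7 55, 2498), (.hz 7 119, 3225), (.hz 4 183, 227), (.hz 5 343, 426)]))
(.haz 3 503 2 25
(.ask 183
(.mark 247 [3, 8, 9]
(.spn
(.lp [[3], [1, 5, 7, 9], [0, 2, 4, 6, 8]] [(.mj 4 5, 1821), (.mj 6 7, 2181), (.mj 7 3, 12590), (.rw 7, 29), (.hz 5 343, 1805990), (.hz 4 375, 4279738), (.hz 4 695, 3774681), (.hz 7 503, 6040815)])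
(.maj 3 9
(.cut 3 [(0, 1), (1, 1), (2, 1), (3, 1), (5, 1), (7, 1), (23, 1), (39, 1), (55, 1), (87, 1), (119, 1), (183, 1), (247, 1)]
(.lp [[3], [1, 5, 7, 9], [0, 2, 4, 6, 8]] [(.mj 4 5, 422), (.mj 6 7, 33), (.mj 7 8, 949), (.mj 8 3, 1226), (.hz 4 695, 407010), (.hz 4 759, 1212097), (.rw 8, 4)]))
(.cut 3 [(0, 1), (1, 1), (2, 1), (3, 1), (5, 1), (7, 1), (23, 1), (39, 1), (55, 1), (87, 1), (183, 1)]
(.cut 3 [(0, 1), (1, 1), (2, 1), (3, 1), (5, 1), (7, 1), (23, 1), (39, 1), (55, 1), (87, 1), (119, 1), (183, 1), (247, 1)]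
(.lp [[3], [1, 5, 7, 9], [0, 2, 4, 6, 8]] [(.mj 6 7, 822), (.mj 7 8, 2198), (.mj 8 9, 1376), (.mj 9 3, 10026), (.hz 4 119, 1540950), (.hz 7 503, 4139360), (.rw 8, 15), (.rw 9, 14)]))))
(.cut 3 [(0, 1), (1, 1), (2, 1), (3, 1), (5, 1), (7, 1), (23, 1), (39, 1), (55, 1), (87, 1), (119, 1)]
(.cut 3 [(0, 1), (1, 1), (2, 1), (3, 1), (5, 1), (7, 1), (23, 1), (39, 1), (55, 1), (87, 1), (119, 1), (183, 1), (247, 1)]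
(.cut 8 [(0, 1), (1, 1), (2, 1), (3, 1), (5, 1), (7, 1), (11, 1), (15, 1), (23, 1), (39, 1), (31, 1), (47, 1), (55, 1), (87, 1), (63, 1), (95, 1), (119, 1), (183, 1), (127, 1), (191, 1), (695, 1), (703, 1)]
(.lp [[3], [1, 5, 7, 9], [0, 2, 4, 6, 8]] [(.mj 5 6, 695), (.mj 6 7, 8468), (.mj 9 3, 7364), (.mj 9 8, 4502), (.hz 4 119, 129423), (.hz 4 183, 501136), (.hz 4 375, 739561), (.rw 8, 18), (.rw 9, 3), (.rw 10, 1)]))))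
.fin))
(.ask 247
(.mark 247 [3, 8, 9]
(.spn
(.haz 8 127 11 50
(.lp [[3], [1, 5, 7, 9], [0, 2, 4, 6, 8]] [(.mj 4 5, 711), (.mj 7 3, 1239), (.rw 7, 4), (.hz 5 343, 177687), (.hz 8 127, 926187), (.hz 4 375, 88844)])
(.lp [[3], [1, 5, 7, 9], [0, 2, 4, 6, 8]] [(.mj 3 9, 129), (.mj 4 5, 5711), (.mj 7 3, 2458), (.rw 7, 6), (.hz 8 87, 103129), (.hz 5 343, 92158), (.hz 4 375, 1107042), (.hz 7 503, 604662)]))
(.maj 3 9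
(.cut 3 [(0, 1), (1, 1), (2, 1), (3, 1), (5, 1), (7, 1), (23, 1), (39, 1), (55, 1), (87, 1), (119, 1), (183, 1), (247, 1)]
(.lp [[3], [1, 5, 7, 9], [0, 2, 4, 6, 8]] [(.mj 7 8, 847), (.mj 8 3, 1262), (.hz 4 759, 1177007), (.rw 8, 4)]))
(.cut 3 [(0, 1), (1, 1), (2, 1), (3, 1), (5, 1), (7, 1), (23, 1), (39, 1), (55, 1), (87, 1), (183, 1)]
(.lp [[3], [1, 5, 7, 9], [0, 2, 4, 6, 8]] [(.mj 5 6, 38), (.mj 7 8, 34), (.mj 8 9, 45), (.mj 9 3, 419), (.hz 4 183, 66759), (.hz 5 343, 10984), (.hz 4 375, 80464), (.hz 7 503, 282566), (.hz 4 759, 47797), (.rw 8, 1)])))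
(.ask 343
(.mark 375 [3, 7, 10]
(.cut 3 [(0, 1), (1, 1), (2, 1), (3, 1), (5, 1), (7, 1), (23, 1), (39, 1), (55, 1), (87, 1)]
(.cut 3 [(0, 1), (1, 1), (2, 1), (3, 1), (5, 1), (7, 1), (23, 1), (39, 1), (55, 1), (87, 1), (119, 1), (183, 1), (343, 1), (247, 1), (375, 1)]
(.lp [[3], [1, 5, 7, 9], [0, 2, 4, 6, 8, 10]] [(.mj 9 3, 2294), (.hz 7 503, 1127672), (.rw 8, 6), (.rw 9, 2)]))))
(.cut 3 [(0, 1), (1, 1), (2, 1), (3, 1), (5, 1), (7, 1), (23, 1), (39, 1), (55, 1), (87, 1), (119, 1), (183, 1), (247, 1)]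
(.cut 3 [(0, 1), (1, 1), (2, 1), (3, 1), (5, 1), (7, 1), (23, 1), (39, 1), (55, 1), (87, 1), (119, 1), (183, 1), (343, 1), (247, 1), (375, 2), (503, 1)]
(.cut 8 [(0, 1), (1, 1), (2, 1), (3, 1), (5, 1), (7, 1), (11, 1), (15, 1), (23, 1), (39, 1), (31, 1), (47, 1), (55, 1), (87, 1), (63, 1), (95, 1), (119, 1), (183, 1), (127, 1), (191, 1), (247, 1), (255, 1)]
(.cut 3 [(0, 1), (1, 1), (2, 1), (3, 1), (5, 1), (7, 1), (23, 1), (87, 1), (343, 1)]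
(.lp [[3], [1, 5, 7, 9], [0, 2, 4, 6, 8]] [(.mj 4 5, 42873), (.mj 9 3, 24490), (.mj 9 8, 6431), (.rw 8, 40), (.rw 9, 2), (.rw 10, 4), (.rw 11, 44)]))))))
.fin))
(.lp [[3], [1, 5, 7], [0, 2, 4, 6, 8]] [(.mj 7 3, 2), (.mj 7 8, 2), (.hz 7 503, 4287)])))
(.cut 3 [(0, 1), (1, 1), (2, 1), (3, 1), (5, 1), (7, 1), (23, 1), (39, 1), (55, 1), (87, 1), (119, 1)]
(.lp [[3], [1, 5, 7], [0, 2, 4, 6, 8]] [(.mj 5 6, 9), (.mj 6 7, 9), (.hz 7 183, 184987), (.hz 7 343, 92494), (.hz 7 247, 261317), (.hz 7 375, 261317), (.rw 7, 1)])))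
(.haz 7 119 6 25
(.cut 3 [(0, 1), (1, 1), (2, 1), (3, 1), (5, 1), (7, 1), (23, 1), (39, 1), (55, 1), (87, 1)]
(.cut 3 [(0, 1), (1, 1), (2, 1), (3, 1), (5, 1), (7, 1), (23, 1), (39, 1), (55, 1), (87, 1), (119, 1), (343, 1)]
(.lp [[3], [1, 5, 7], [0, 2, 4, 6, 8]] [(.mj 5 6, 8051), (.mj 8 3, 4663), (.mj 8 7, 4663), (.hz 7 119, 794477), (.hz 5 343, 4396), (.hz 7 127, 5480744), (.hz 6 191, 399705), (.rw 7, 12), (.rw 8, 2)])))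
(.cut 3 [(0, 1), (1, 1), (2, 1), (3, 1), (5, 1), (7, 1), (23, 1), (39, 1), (55, 1), (87, 1), (119, 1)]
(.lp [[3], [1, 5, 7], [0, 2, 4, 6, 8]] [(.mj 5 6, 890), (.mj 8 3, 453), (.mj 8 7, 171), (.hz 7 55, 51270), (.hz 5 87, 33238), (.hz 6 191, 242131), (.rw 7, 1)])))
.fin))
(.ask 119
(.mark 119 [3, 7, 8]
(.spn
(.haz 8 247 3 10
(.haz 7 375 1 5
(.ask 375
(.mark 375 [3, 7, 9]
(.lp [[3], [1, 5, 7], [0, 2, 4, 6, 8, 9]] [(.mj 3 7, 70), (.mj 3 8, 36), (.mj 4 5, 4), (.mj 6 3, 102), (.hz 4 183, 8272), (.hz 8 375, 129426), (.hz 8 383, 78333), (.hz 8 887, 78333)]))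
(.lp [[3], [1, 5, 7], [0, 2, 4, 6, 8]] [(.mj 3 7, 2), (.mj 6 3, 3)]))
(.lp [[3], [1, 5, 7], [0, 2, 4, 6, 8]] [(.mj 3 8, 4), (.mj 4 5, 1), (.mj 6 3, 5), (.hz 8 55, 2263), (.hz 8 119, 2271), (.hz 4 183, 821), (.hz 7 247, 3785)]))
(.lp [[3], [1, 5, 7], [0, 2, 4, 6, 8]] [(.mj 3 7, 4), (.mj 4 5, 1), (.mj 6 3, 5), (.hz 7 119, 2695)]))
(.cut 3 [(0, 1), (1, 1), (2, 1), (3, 1), (5, 1), (7, 1), (23, 1), (39, 1), (55, 1), (87, 1), (119, 1)]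
(.lp [[3], [1, 5, 7], [0, 2, 4, 6, 8]] [(.mj 4 5, 1939), (.mj 7 3, 776), (.mj 7 8, 78), (.hz 4 375, 95443), (.rw 7, 2)]))
(.ask 375
(.mark 375 [3, 7, 9]
(.spn
(.lp [[3], [1, 5, 7], [0, 2, 4, 6, 8, 9]] [(.mj 8 3, 149), (.rw 7, 1)])
(.cut 3 [(0, 1), (1, 1), (2, 1), (3, 1), (5, 1), (7, 1), (23, 1), (39, 1), (55, 1), (87, 1), (119, 1), (375, 1)]
(.lp [[3], [1, 5, 7], [0, 2, 4, 6, 8, 9]] [(.mj 7 3, 1006), (.mj 7 9, 1006), (.mj 8 7, 2141), (.rw 7, 1), (.rw 8, 5)]))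
(.cut 3 [(0, 1), (1, 1), (2, 1), (3, 1), (5, 1), (7, 1), (23, 1), (39, 1), (55, 1), (87, 1), (119, 1), (183, 2), (247, 1)]
(.cut 3 [(0, 1), (1, 1), (2, 1), (3, 1), (5, 1), (7, 1), (23, 1), (39, 1), (55, 1)]
(.cut 3 [(0, 1), (1, 1), (2, 1), (3, 1), (5, 1), (7, 1), (23, 1), (39, 1), (55, 1), (87, 1), (119, 1)]
(.cut 7 [(0, 1), (1, 1), (2, 1), (3, 1), (5, 1), (7, 1), (11, 1), (15, 1), (23, 1), (39, 1), (31, 1), (47, 1), (55, 1), (87, 1), (63, 1), (95, 1), (119, 1), (127, 1)]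
(.lp [[3], [1, 5, 7], [0, 2, 4, 6, 8, 9]] [(.mj 4 5, 27158), (.mj 9 3, 35323), (.hz 6 191, 6656336), (.hz 4 503, 6775942), (.rw 8, 1), (.rw 9, 45), (.rw 10, 79), (.rw 11, 4)])))))
.fin))
(.lp [[3], [1, 5, 7], [0, 2, 4, 6, 8]] [(.mj 8 7, 1), (.rw 6, 1)]))
.fin))
(.spn
(.lp [[3], [1, 5, 7], [0, 2, 4, 6]] [(.mj 3 7, 1), (.mj 6 3, 1)])
(.cut 3 [(0, 1), (1, 1), (2, 1), (3, 1), (5, 1), (7, 1), (23, 1), (39, 1), (55, 1), (87, 1), (119, 1)]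
(.lp [[3], [1, 5, 7], [0, 2, 4, 6]] [(.mj 6 7, 1079), (.mj 7 3, 431), (.rw 7, 1)]))
.fin
.fin)))
(.lp [[3], [1, 5, 7], [0, 2, 4, 6]] [(.mj 4 5, 2), (.mj 6 3, 10), (.mj 6 7, 11), (.hz 6 23, 915), (.hz 6 55, 2082), (.hz 4 183, 3728)]))

theorem run256 : run P3488 (leaf3 218 625) (cutRow P3488) [] t256 s256 = true := by
  decide +kernel

theorem bad256 : Bad P3488 s256 :=
  run_sound (leaf3_sound P3488 rfl rfl) (cutRow_sound P3488) (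
    fun _ h => absurd h List.not_mem_nil) t256 s256 run256

/-- the state above piece 93 of the tree -/
def s93 : St := ⟨[0, 0, 1, 3, 5, 5, 11, 31, 79], [75, 31, 23, 21, 15, 7, 3, 2, 1, 0], [0, 1, 2, 3, 4, 6],
  [],
  [⟨true, 2, 3, 3, 10⟩, ⟨true, 1, 5, 2, 5⟩, ⟨true, 2, 3, 23, 50⟩, ⟨true, 1, 5, 12, 25⟩, ⟨true, 2, 11, 12, 25⟩, ⟨true, 4, 79, 11, 50⟩, ⟨true, 5, 31, 1, 50⟩, ⟨true, 3, 39, 7, 25⟩, ⟨true, 5, 31, 1, 25⟩, ⟨true, 4, 47, 17, 50⟩, ⟨true, 3, 39, 2, 5⟩, ⟨true, 3, 39, 23, 50⟩, ⟨true, 5, 159, 3, 50⟩, ⟨true, 1, 37, 27, 50⟩, ⟨true, 3, 55, 16, 25⟩, ⟨true, 6, 159, 11, 50⟩, ⟨true, 1, 37, 29, 50⟩, ⟨true, 3, 39, 12, 25⟩, ⟨true, 1, 53, 7, 10⟩],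
  [.spn 0 0 651200, .spn 1 1 302400, .spn 3 2 302400, .spn 7 3 140426, .spn 15 4 140426, .spn 31 6 140426]⟩

/-- piece 93 of the tree -/
noncomputable def t93 : WN.Tree :=
(.mark 95 [5, 7, 8]
(.spn
(.haz 7 95 2 5
(.lp [[5], [0, 2, 4, 7], [1, 3, 6, 8]] [(.mj 4 6, 12283), (.mj 5 7, 12283), (.mj 6 5, 12283), (.rw 5, 2), (.rw 6, 2), (.hz 19 95, 10440384), (.hz 19 127, 13818155), (.hz 19 351, 35313064)])
(.haz 7 351 1 5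
(.haz 7 95 13 40
(.lp [[5], [0, 2, 4, 7], [1, 3, 6, 8]] [(.mj 4 6, 243), (.mj 5 7, 236), (.mj 5 8, 42), (.mj 6 5, 296), (.hz 19 31, 92181), (.hz 21 95, 14402), (.hz 21 127, 41608), (.hz 8 351, 49793), (.hz 21 351, 101265)])
(.ask 37
(.mark 127 [7, 8, 9]
(.lp [[5, 9], [0, 2, 4, 7], [1, 3, 6, 8]] [(.mj 0 1, 9), (.mj 4 6, 36), (.mj 5 8, 19), (.mj 6 5, 35), (.hz 21 31, 6611), (.hz 21 95, 8954), (.hz 8 351, 7669), (.hz 20 351, 58532)]))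
(.ask 39
(.mark 127 [7, 8, 9]
(.lp [[5, 9], [0, 2, 4, 7], [1, 3, 6, 8]] [(.mj 0 1, 136), (.mj 4 6, 12), (.mj 5 8, 19), (.mj 6 5, 37), (.hz 21 31, 5433), (.hz 17 551, 4221), (.hz 21 95, 8174), (.hz 20 351, 58991)]))
(.ask 47
(.mark 127 [7, 8, 9]
(.lp [[5, 9], [0, 2, 4, 7], [1, 3, 6, 8]] [(.mj 0 1, 154), (.mj 5 8, 3), (.mj 6 5, 16), (.hz 21 31, 1885), (.hz 21 95, 1885), (.hz 8 351, 1900), (.hz 20 351, 8750)]))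
(.ask 111
(.mark 127 [7, 8, 9]
(.lp [[5, 9], [0, 2, 4, 7], [1, 3, 6, 8]] [(.mj 0 1, 13), (.mj 6 5, 1), (.hz 21 31, 120), (.hz 21 95, 72)]))
(.haz 8 127 3 10
(.haz 8 223 2 5
(.lp [[5], [0, 2, 4, 7], [1, 3, 6, 8]] [(.mj 4 6, 50), (.mj 5 8, 32), (.mj 6 5, 55), (.hz 21 31, 9329), (.hz 21 95, 6749), (.hz 12 159, 6189), (.hz 22 127, 47725), (.hz 23 223, 100680)])
(.lp [[5], [0, 2, 4, 7], [1, 3, 6, 8]] [(.mj 4 6, 5), (.mj 6 5, 4), (.hz 21 31, 611), (.hz 21 95, 1314), (.hz 23 95, 8909), (.hz 12 159, 405), (.hz 22 127, 4658)]))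
(.lp [[5], [0, 2, 4, 7], [1, 3, 6, 8]] [(.mj 4 6, 4), (.mj 6 5, 3), (.hz 21 31, 501), (.hz 21 95, 808), (.hz 22 95, 2544), (.hz 12 159, 332)])))))))
(.lp [[5], [0, 2, 4, 7], [1, 3, 6, 8]] [(.mj 4 6, 4), (.mj 5 8, 2), (.mj 6 5, 4), (.hz 20 31, 5234), (.hz 20 95, 5828)])))
(.ask 159
(.mark 223 [5, 8, 9]
(.spn
(.haz 8 127 9 50
(.ask 37
(.mark 255 [8, 9, 10]
(.lp [[5, 10], [1, 3, 6, 8], [0, 2, 4, 7, 9]] [(.mj 0 1, 239710), (.mj 5 8, 1839), (.mj 6 7, 20844), (.mj 7 5, 39096), (.rw 7, 95), (.hz 16 1061, 1723699), (.hz 17 1063, 5256188), (.hz 18 1077, 8004282), (.hz 14 1079, 8362250), (.hz 19 127, 32763774), (.hz 19 767, 781663)]))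
(.ask 53
(.mark 255 [8, 9, 10]
(.lp [[5, 10], [1, 3, 6, 8], [0, 2, 4, 7, 9]] [(.mj 0 1, 165025), (.mj 5 8, 1266), (.mj 6 7, 14350), (.mj 7 5, 27664), (.rw 7, 68), (.hz 18 1077, 6817310), (.hz 14 1079, 6281117), (.hz 19 127, 23446229), (.hz 19 767, 538125)]))
(.ask 39
(.mark 255 [8, 9, 10]
(.lp [[5, 10], [1, 3, 6, 8], [0, 2, 4, 7, 9]] [(.mj 0 1, 44605), (.mj 5 8, 342), (.mj 6 7, 3879), (.mj 7 5, 5800), (.rw 7, 13), (.hz 17 1063, 1080046), (.hz 14 1079, 523422), (.hz 19 127, 4342634), (.hz 19 767, 145451)]))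
(.ask 55
(.mark 255 [8, 9, 10]
(.lp [[5, 10], [1, 3, 6, 8], [0, 2, 4, 7, 9]] [(.mj 0 1, 96100), (.mj 5 8, 737), (.mj 6 7, 8357), (.mj 7 5, 13835), (.rw 7, 32), (.hz 14 1079, 2065191), (.hz 19 127, 10948528), (.hz 19 767, 313370)]))
(.ask 47
(.mark 255 [8, 9, 10]
(.lp [[5, 10], [1, 3, 6, 8], [0, 2, 4, 7, 9]] [(.mj 0 1, 5446), (.mj 5 8, 42), (.mj 6 7, 474), (.mj 7 5, 554), (.rw 7, 1), (.hz 19 127, 346646), (.hz 19 767, 17758)]))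
(.ask 63
(.mark 255 [8, 9, 10]
(.lp [[5, 10], [1, 3, 6, 8], [0, 2, 4, 7, 9]] [(.mj 0 1, 4302), (.mj 5 8, 33), (.mj 6 7, 374), (.mj 7 5, 487), (.rw 7, 1), (.hz 19 127, 333078), (.hz 19 767, 14028)]))
(.lp [[5], [1, 3, 6, 8], [0, 2, 4, 7, 9]] [(.mj 0 1, 150793), (.mj 6 7, 9413), (.mj 7 5, 6988), (.rw 7, 1), (.hz 19 127, 4416891), (.hz 12 671, 763437)])))))))
(.lp [[5], [1, 3, 6, 8], [0, 2, 4, 7, 9]] [(.mj 6 7, 1685), (.mj 7 5, 954), (.rw 7, 1), (.hz 19 79, 87889), (.hz 19 95, 367086), (.hz 12 671, 881832), (.hz 12 479, 488423)]))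
(.haz 5 31 1 10
(.lp [[5], [1, 3, 6, 8], [0, 2, 4, 7, 9]] [(.mj 0 1, 142), (.mj 6 7, 3), (.mj 8 5, 29), (.hz 16 37, 694), (.hz 17 39, 528), (.hz 18 53, 2873), (.hz 19 31, 12958), (.hz 14 55, 1281), (.hz 19 95, 45795), (.hz 19 159, 18125), (.hz 19 223, 44559), (.hz 19 351, 19069), (.hz 19 671, 16106), (.hz 15 671, 1181), (.hz 19 735, 60845)])
(.maj 5 9
(.cut 5 [(0, 1), (1, 1), (2, 1), (3, 1), (5, 1), (7, 1), (11, 1), (21, 1), (15, 1), (23, 1), (75, 1), (31, 1), (79, 1), (95, 1), (159, 1), (223, 1)]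
(.lp [[5], [1, 3, 6, 8], [0, 2, 4, 7, 9]] [(.mj 0 1, 35530), (.mj 6 7, 1217), (.mj 7 8, 569), (.mj 8 5, 3309), (.hz 19 5, 538225), (.hz 19 21, 765862), (.hz 16 37, 52087), (.hz 19 23, 561588), (.hz 12 671, 1436553), (.hz 15 671, 88549), (.hz 12 735, 4906393), (.rw 8, 7)]))
(.cut 5 [(0, 1), (1, 1), (2, 1), (3, 1), (5, 1), (7, 1), (11, 1), (21, 1), (15, 1), (23, 1), (75, 1), (31, 1), (79, 1), (95, 1), (159, 1)]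
(.lp [[5], [1, 3, 6, 8], [0, 2, 4, 7, 9]] [(.mj 0 1, 55471), (.mj 6 7, 2628), (.mj 8 9, 623), (.mj 9 5, 6324), (.hz 19 21, 1059803), (.hz 16 37, 328904), (.hz 17 39, 865891), (.hz 14 55, 283969), (.hz 12 671, 60704), (.hz 9 367, 159799), (.hz 12 479, 3969091), (.hz 12 735, 949936), (.rw 8, 11)]))))
(.ask 671
(.mark 735 [5, 8, 10]
(.cut 5 [(0, 1), (1, 1), (2, 1), (3, 1), (5, 1), (7, 1), (11, 1), (21, 1), (15, 1), (23, 1), (75, 1), (31, 1)]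
(.cut 5 [(0, 1), (1, 1), (2, 1), (3, 1), (5, 1), (7, 1), (11, 1), (21, 1), (15, 1), (23, 1), (75, 1), (31, 1), (79, 1), (95, 1)]
(.cut 5 [(0, 1), (1, 1), (2, 1), (3, 1), (5, 1), (7, 1), (11, 1), (21, 1), (15, 1), (23, 1), (75, 1), (31, 1), (79, 1), (95, 1), (159, 1), (223, 1)]
(.lp [[5], [1, 3, 6, 8], [0, 2, 4, 7, 9, 10]] [(.mj 0 1, 10931), (.mj 6 7, 25678), (.mj 9 5, 17810), (.mj 9 8, 16049), (.hz 16 37, 63014), (.hz 17 39, 150067), (.hz 18 53, 261057), (.hz 14 55, 193005), (.hz 8 351, 5856070), (.hz 9 367, 1883689), (.hz 12 1695, 7145782), (.rw 8, 1), (.rw 9, 30), (.rw 10, 9)])))))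
(.ask 735
(.mark 735 [5, 8, 10]
(.spn
(.lp [[5], [1, 3, 6, 8], [0, 2, 4, 7, 9, 10]] [(.mj 0 1, 6155), (.mj 6 7, 1130), (.mj 9 5, 1558), (.mj 9 8, 148), (.rw 8, 4), (.hz 16 37, 26130), (.hz 18 53, 108253), (.hz 8 351, 3078995)])
(.cut 5 [(0, 1), (1, 1), (2, 1), (3, 1), (5, 1), (7, 1), (11, 1), (21, 1), (15, 1), (23, 1), (75, 1), (31, 1), (79, 1), (95, 1), (159, 1), (223, 1), (671, 1), (735, 1)]
(.lp [[5], [1, 3, 6, 8], [0, 2, 4, 7, 9, 10]] [(.mj 6 7, 110), (.mj 8 5, 66), (.mj 8 10, 290), (.mj 9 5, 282), (.mj 9 8, 533), (.hz 9 367, 26470), (.rw 9, 1)]))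
(.cut 5 [(0, 1), (1, 1), (2, 1), (3, 1), (5, 1), (7, 1), (11, 1), (21, 1), (15, 1), (23, 1), (75, 1), (31, 1), (79, 1), (95, 1), (159, 1), (223, 1), (671, 1), (735, 1)]
(.lp [[5], [1, 3, 6, 8], [0, 2, 4, 7, 9, 10]] [(.mj 0 1, 20441), (.mj 6 7, 1222), (.mj 10 5, 3828), (.mj 10 8, 157), (.hz 16 37, 93251), (.hz 18 53, 386324), (.hz 14 55, 119061), (.hz 12 159, 1040877), (.hz 9 367, 308905), (.rw 9, 8)]))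
.fin))
(.lp [[5], [1, 3, 6, 8], [0, 2, 4, 7, 9]] [(.mj 9 5, 1), (.mj 9 8, 1), (.hz 12 479, 3066)])))
.fin))
(.ask 223
(.mark 223 [5, 8, 9]
(.spn
(.haz 9 479 13 40
(.haz 8 735 1 5
(.ask 735
(.mark 735 [5, 8, 10]
(.lp [[5], [1, 3, 6, 8], [0, 2, 4, 7, 9, 10]] [(.mj 0 1, 14), (.mj 5 8, 11), (.mj 5 9, 6), (.mj 7 5, 17), (.hz 8 351, 6008), (.hz 12 479, 4474), (.hz 20 735, 59875), (.hz 20 767, 33267), (.hz 20 1759, 33267)]))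
(.lp [[5], [1, 3, 6, 8], [0, 2, 4, 7, 9]] [(.mj 5 8, 2), (.mj 7 5, 3)]))
(.lp [[5], [1, 3, 6, 8], [0, 2, 4, 7, 9]] [(.mj 0 1, 165), (.mj 5 9, 124), (.mj 7 5, 155), (.hz 20 79, 92320), (.hz 20 95, 205090), (.hz 20 223, 145826), (.hz 8 351, 204572), (.hz 19 479, 93080)]))
(.lp [[5], [1, 3, 6, 8], [0, 2, 4, 7, 9]] [(.mj 0 1, 18), (.mj 5 8, 13), (.mj 7 5, 17), (.hz 19 223, 5974)]))
(.cut 5 [(0, 1), (1, 1), (2, 1), (3, 1), (5, 1), (7, 1), (11, 1), (21, 1), (15, 1), (23, 1), (75, 1), (31, 1), (79, 1), (95, 1), (159, 1), (223, 1)]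
(.lp [[5], [1, 3, 6, 8], [0, 2, 4, 7, 9]] [(.mj 0 1, 24310), (.mj 4 6, 562), (.mj 8 5, 2860), (.mj 8 9, 218), (.hz 16 37, 140134), (.hz 17 39, 333728), (.hz 18 53, 580555), (.hz 14 55, 429217), (.hz 12 735, 1225732), (.rw 8, 4)]))
(.ask 735
(.mark 735 [5, 8, 10]
(.spn
(.lp [[5], [1, 3, 6, 8], [0, 2, 4, 7, 9, 10]] [(.mj 9 5, 136), (.rw 8, 1)])
(.lp [[5], [1, 3, 6, 8], [0, 2, 4, 7, 9, 10]] [(.mj 9 8, 7758), (.rw 8, 13), (.hz 12 479, 28473242)])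
(.cut 5 [(0, 1), (1, 1), (2, 1), (3, 1), (5, 1), (7, 1), (11, 1), (21, 1), (15, 1), (23, 1), (75, 1), (31, 1), (79, 1), (95, 1), (159, 1), (223, 1)]
(.lp [[5], [1, 3, 6, 8], [0, 2, 4, 7, 9, 10]] [(.mj 0 1, 4637), (.mj 10 5, 789), (.hz 16 37, 19686), (.hz 18 53, 81555), (.hz 12 159, 171867), (.hz 9 367, 79744), (.rw 9, 2)]))
.fin))
(.lp [[5], [1, 3, 6, 8], [0, 2, 4, 7, 9]] [(.mj 9 8, 1), (.rw 7, 1)]))
.fin))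
(.spn
(.lp [[5], [0, 2, 4, 7], [1, 3, 6, 8]] [(.mj 5 8, 1), (.mj 7 5, 1)])
(.lp [[5], [0, 2, 4, 7], [1, 3, 6, 8]] [(.mj 7 8, 3), (.mj 8 5, 2), (.hz 12 479, 3263)])
.fin
.fin)))
(.cut 5 [(0, 1), (1, 1), (2, 1), (3, 1), (5, 1), (7, 1), (11, 1), (21, 1), (15, 1), (23, 1), (75, 1), (31, 1)]
(.cut 5 [(0, 1), (1, 1), (2, 1), (3, 1), (5, 1), (7, 1), (11, 1), (21, 1), (15, 1), (23, 1), (75, 1), (31, 1), (79, 1), (95, 1)]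
(.lp [[5], [0, 2, 4, 7], [1, 3, 6, 8]] [(.mj 4 6, 2658), (.mj 8 5, 1618), (.mj 8 7, 1172), (.hz 12 159, 49588), (.hz 15 159, 214446), (.hz 12 223, 1184061), (.rw 7, 2), (.rw 8, 1)])))
.fin))

theorem run93 : run P3488 (leaf3 218 625) (cutRow P3488) [] t93 s93 = true := by
  decide +kernel

theorem bad93 : Bad P3488 s93 :=
  run_sound (leaf3_sound P3488 rfl rfl) (cutRow_sound P3488) (
    fun _ h => absurd h List.not_mem_nil) t93 s93 run93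

end Pool.Agent.WN.Data
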