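import Pool.Agent.WN.CutRow
import Pool.Agent.WN.LeafRow
import Pool.Agent.Helper99.WN.ParDef
import Pool.Agent.WN.Data.D7

/-!
# The search tree, part 12
-/

set_option autoImplicit false

namespace Pool.Agent.WN.Data

open Pool.Agent.W3 Pool.Agent.WN Pool.Agent.Helper99.WN

/-- the state above piece 263 of the tree -/
def s263 : St := ⟨[0, 0, 1, 5, 7, 23, 23, 55], [55, 23, 7, 5, 3, 2, 1, 0], [0, 1, 2, 4, 5, 6],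
  [],
  [⟨true, 2, 3, 3, 10⟩, ⟨true, 1, 5, 2, 5⟩, ⟨true, 2, 3, 23, 50⟩, ⟨true, 1, 5, 12, 25⟩, ⟨true, 4, 15, 1, 25⟩],
  [.spn 0 0 651200, .spn 1 1 302400, .spn 3 2 651200, .spn 7 4 651200, .spn 23 5 424061, .spn 55 6 140426]⟩

/-- piece 263 of the tree -/
noncomputable def t263 : WN.Tree :=
(.haz 3 183 3 50
(.maj 3 7
(.cut 3 [(0, 1), (1, 1), (2, 1), (3, 1), (5, 1), (7, 1), (23, 1), (55, 1)]
(.lp [[3], [1, 6], [0, 2, 4, 5, 7]] [(.mj 1 2, 7352), (.mj 5 6, 163), (.hz 5 183, 51056), (.rw 6, 1)]))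
(.ask 87
(.mark 119 [3, 7, 8]
(.spn
(.con 3 7)
(.ask 183
(.mark 247 [3, 8, 9]
(.spn
(.lp [[3], [1, 6, 8], [0, 2, 4, 5, 7, 9]] [(.mj 1 2, 10703), (.mj 3 9, 92), (.mj 5 6, 1070), (.mj 6 7, 642), (.rw 7, 1), (.hz 5 695, 83356), (.hz 5 503, 267578)])
(.cut 3 [(0, 1), (1, 1), (2, 1), (3, 1), (5, 1), (7, 1), (23, 1), (55, 1), (87, 1), (119, 1), (183, 1), (247, 1)]
(.lp [[3], [1, 6, 8], [0, 2, 4, 5, 7, 9]] [(.mj 5 6, 762), (.mj 6 7, 381), (.mj 8 9, 64), (.rw 2, 5), (.rw 8, 1)]))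
(.cut 3 [(0, 1), (1, 1), (2, 1), (3, 1), (5, 1), (7, 1), (23, 1), (55, 1), (183, 1)]
(.cut 3 [(0, 1), (1, 1), (2, 1), (3, 1), (5, 1), (7, 1), (23, 1), (55, 1), (87, 1), (119, 1), (183, 1), (247, 1)]
(.lp [[3], [1, 6, 8], [0, 2, 4, 5, 7, 9]] [(.mj 1 2, 2824), (.mj 5 6, 1059), (.mj 6 7, 882), (.mj 9 3, 518), (.hz 5 503, 110305), (.rw 8, 1), (.rw 9, 1)])))
.fin))
(.ask 247
(.mark 247 [3, 8, 9]
(.spn
(.lp [[3], [1, 6, 8], [0, 2, 4, 5, 7, 9]] [(.mj 1 2, 13182), (.mj 3 9, 225), (.mj 5 6, 1352), (.rw 7, 1)])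
(.lp [[3], [1, 6, 8], [0, 2, 4, 5, 7, 9]] [(.mj 5 6, 147), (.mj 6 7, 21), (.mj 8 9, 21), (.rw 2, 1), (.hz 5 247, 13985), (.hz 5 503, 38370), (.hz 5 759, 12510)])
(.cut 3 [(0, 1), (1, 1), (2, 1), (3, 1), (5, 1), (7, 1), (23, 1), (55, 1), (183, 1)]
(.cut 3 [(0, 1), (1, 1), (2, 1), (3, 1), (5, 1), (7, 1), (23, 1), (55, 1), (87, 1), (119, 1), (183, 1), (247, 1)]
(.cut 8 [(0, 1), (1, 1), (2, 1), (3, 1), (5, 1), (7, 1), (13, 1), (15, 1), (23, 1), (31, 1), (55, 1), (63, 1), (183, 1), (191, 1)]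
(.lp [[3], [1, 6, 8], [0, 2, 4, 5, 7, 9]] [(.mj 5 6, 175765), (.mj 9 3, 132594), (.hz 5 503, 28908648), (.rw 8, 438), (.rw 9, 4), (.rw 10, 46)]))))
.fin))
(.lp [[3], [1, 6, 8], [0, 2, 4, 5, 7]] [(.mj 1 2, 13), (.mj 5 6, 1), (.hz 5 247, 129), (.hz 5 503, 354)])))
(.cut 3 [(0, 1), (1, 1), (2, 1), (3, 1), (5, 1), (7, 1), (23, 1), (55, 1)]
(.lp [[3], [1, 6, 8], [0, 2, 4, 5, 7]] [(.mj 5 6, 1201), (.mj 8 7, 758), (.rw 2, 8), (.hz 5 183, 27117), (.rw 7, 1)]))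
.fin))
(.haz 6 183 8 25
(.haz 7 119 13 50
(.ask 119
(.mark 119 [3, 7, 8]
(.spn
(.con 3 7)
(.ask 183
(.mark 247 [3, 8, 9]
(.spn
(.lp [[3], [1, 6, 8], [0, 2, 4, 5, 7, 9]] [(.mj 1 2, 62903), (.mj 3 8, 59), (.rw 7, 8), (.hz 7 375, 42370), (.hz 5 695, 513913), (.hz 5 503, 981574)])
(.maj 3 9
(.cut 3 [(0, 1), (1, 1), (2, 1), (3, 1), (5, 1), (7, 1), (23, 1), (55, 1), (87, 1), (119, 1), (183, 1), (247, 1)]
(.lp [[3], [1, 6, 8], [0, 2, 4, 5, 7, 9]] [(.mj 5 6, 1656), (.mj 8 3, 1385), (.hz 5 695, 169257), (.hz 6 695, 91819), (.hz 5 759, 972214), (.rw 8, 4)]))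
(.ask 375
(.mark 503 [3, 9, 10]
(.cut 3 [(0, 1), (1, 1), (2, 1), (3, 1), (5, 1), (7, 1), (23, 1), (55, 1), (87, 1), (119, 1), (183, 1), (247, 1), (695, 1)]
(.cut 3 [(0, 1), (1, 1), (2, 1), (3, 1), (5, 1), (7, 1), (23, 1), (55, 1), (87, 1), (119, 1), (183, 1), (247, 1)]
(.lp [[3], [1, 6, 8, 10], [0, 2, 4, 5, 7, 9]] [(.mj 5 6, 1524), (.mj 7 8, 3519), (.mj 8 9, 6038), (.mj 9 3, 18398), (.hz 5 247, 865126), (.hz 6 703, 1704485), (.hz 5 1527, 6209194), (.rw 8, 1), (.rw 9, 60)]))))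
(.ask 695
(.mark 695 [3, 6, 10]
(.cut 3 [(0, 1), (1, 1), (2, 1), (3, 1), (5, 1), (7, 1), (23, 1), (55, 1), (87, 1), (119, 1), (183, 1), (247, 1), (695, 1)]
(.lp [[3], [1, 6, 8], [0, 2, 4, 5, 7, 9, 10]] [(.mj 8 3, 3429), (.mj 8 9, 3095), (.mj 9 3, 49523), (.hz 6 703, 4845354), (.hz 5 503, 9671393), (.hz 6 1727, 1285840), (.rw 8, 164)])))
(.cut 3 [(0, 1), (1, 1), (2, 1), (3, 1), (5, 1), (7, 1), (23, 1), (55, 1), (87, 1), (119, 1), (183, 1), (247, 1), (695, 1)]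
(.lp [[3], [1, 6, 8], [0, 2, 4, 5, 7, 9]] [(.mj 5 6, 1711), (.mj 8 3, 531), (.mj 8 9, 257), (.mj 9 3, 594), (.rw 8, 4)])))))
(.cut 3 [(0, 1), (1, 1), (2, 1), (3, 1), (5, 1), (7, 1), (23, 1), (55, 1), (87, 1), (119, 1), (183, 1), (247, 1)]
(.lp [[3], [1, 6, 8], [0, 2, 4, 5, 7, 9]] [(.mj 6 7, 6294), (.mj 9 3, 3147), (.mj 9 8, 2432), (.hz 7 375, 206150), (.hz 7 383, 666376), (.hz 5 503, 842157), (.rw 8, 10)]))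
.fin))
(.ask 247
(.mark 247 [3, 8, 9]
(.spn
(.lp [[3], [1, 6, 8], [0, 2, 4, 5, 7, 9]] [(.mj 1 2, 44796), (.mj 3 9, 607), (.mj 5 6, 5070), (.rw 7, 4), (.hz 5 503, 841657)])
(.cut 3 [(0, 1), (1, 1), (2, 1), (3, 1), (5, 1), (7, 1), (23, 1), (55, 1), (87, 1), (119, 1), (183, 1), (247, 1)]
(.lp [[3], [1, 6, 8], [0, 2, 4, 5, 7, 9]] [(.mj 5 6, 958), (.mj 8 3, 383), (.mj 8 9, 39), (.hz 5 759, 45740), (.rw 8, 1)]))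
(.maj 3 8
(.cut 3 [(0, 1), (1, 1), (2, 1), (3, 1), (5, 1), (7, 1), (23, 1), (55, 1), (87, 1), (119, 1), (183, 1), (247, 1)]
(.cut 8 [(0, 1), (1, 1), (2, 1), (3, 1), (5, 1), (7, 1), (13, 1), (15, 1), (23, 1), (31, 1), (55, 1), (87, 1), (63, 1), (95, 1), (119, 1), (183, 1), (127, 1), (191, 1), (247, 1), (255, 1)]
(.lp [[3], [1, 6, 8], [0, 2, 4, 5, 7, 9]] [(.mj 9 3, 3952), (.hz 5 503, 3724918), (.rw 8, 13), (.rw 9, 1)])))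
(.cut 3 [(0, 1), (1, 1), (2, 1), (3, 1), (5, 1), (7, 1), (23, 1), (55, 1), (87, 1), (119, 1), (183, 1), (247, 1)]
(.cut 8 [(0, 1), (1, 1), (2, 1), (3, 1), (5, 1), (7, 1), (23, 1), (55, 1), (87, 1), (119, 1), (183, 1), (247, 1)]
(.lp [[3], [1, 6, 8], [0, 2, 4, 5, 7, 9]] [(.mj 5 6, 15759), (.mj 8 3, 4961), (.mj 9 3, 292), (.rw 8, 21), (.rw 9, 1)]))))
.fin))
(.lp [[3], [1, 6, 8], [0, 2, 4, 5, 7]] [(.mj 1 2, 7), (.mj 5 6, 1), (.hz 6 191, 109), (.hz 5 247, 64), (.hz 5 503, 132)])))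
(.lp [[3], [1, 6, 8], [0, 2, 4, 5, 7]] [(.mj 5 6, 685), (.mj 8 7, 428), (.rw 2, 5), (.hz 7 119, 44153), (.hz 5 183, 53451), (.hz 5 247, 223289), (.hz 7 375, 5059), (.hz 5 503, 84317)])
.fin))
(.spn
(.con 3 7)
(.ask 183
(.mark 183 [3, 6, 8]
(.ask 247
(.mark 247 [3, 8, 9]
(.spn
(.lp [[3], [1, 6, 9], [0, 2, 4, 5, 7, 8]] [(.mj 3 9, 225), (.mj 6 7, 1352), (.rw 2, 8), (.rw 7, 1)])
(.lp [[3], [1, 6, 9], [0, 2, 4, 5, 7, 8]] [(.mj 6 7, 6), (.mj 8 3, 4), (.mj 8 9, 1), (.hz 5 183, 1008), (.hz 5 247, 297), (.hz 5 439, 141), (.hz 5 759, 904)])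
(.maj 3 8
(.cut 3 [(0, 1), (1, 1), (2, 1), (3, 1), (5, 1), (7, 1), (23, 1), (55, 1), (87, 1), (119, 1), (183, 1), (247, 1)]
(.cut 8 [(0, 1), (1, 1), (2, 1), (3, 1), (5, 1), (7, 1), (13, 1), (15, 1), (23, 1), (31, 1), (55, 1), (87, 1), (63, 1), (95, 1), (119, 1), (127, 1)]
(.lp [[3], [1, 6, 9], [0, 2, 4, 5, 7, 8]] [(.mj 6 7, 4189), (.mj 9 3, 13995), (.hz 5 439, 2419734), (.hz 5 503, 8330231), (.rw 8, 47), (.rw 9, 4)])))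
(.cut 3 [(0, 1), (1, 1), (2, 1), (3, 1), (5, 1), (7, 1), (23, 1), (55, 1), (87, 1), (119, 1), (183, 1), (247, 1)]
(.lp [[3], [1, 6, 9], [0, 2, 4, 5, 7, 8]] [(.mj 6 7, 1477), (.mj 8 3, 985), (.rw 8, 4)])))
.fin))
(.lp [[3], [1, 6], [0, 2, 4, 5, 7, 8]] [(.mj 6 7, 3), (.mj 7 3, 2), (.hz 5 183, 310)])))
(.ask 247
(.ask 247
(.mark 247 [3, 8, 9]
(.spn
(.lp [[3], [1, 6, 9], [0, 2, 4, 5, 7, 8]] [(.mj 1 2, 356), (.mj 3 8, 15), (.mj 8 9, 11), (.hz 5 759, 6737)])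
(.ask 503
(.mark 503 [3, 9, 10]
(.spn
(.lp [[3], [1, 6, 9], [0, 2, 4, 5, 7, 8, 10]] [(.mj 8 3, 76), (.rw 8, 1)])
(.cut 3 [(0, 1), (1, 1), (2, 1), (3, 1), (5, 1), (7, 1), (23, 1), (55, 1), (87, 1), (119, 1), (183, 1), (247, 1)]
(.lp [[3], [1, 6, 9], [0, 2, 4, 5, 7, 8, 10]] [(.mj 8 9, 88), (.mj 9 3, 559), (.mj 9 10, 8), (.hz 5 1527, 68297), (.rw 9, 2)]))
(.cut 3 [(0, 1), (1, 1), (2, 1), (3, 1), (5, 1), (7, 1), (23, 1), (55, 1), (87, 1), (119, 1), (183, 1), (247, 1), (503, 1)]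
(.lp [[3], [1, 6, 9], [0, 2, 4, 5, 7, 8, 10]] [(.mj 10 3, 278), (.rw 9, 1)]))
.fin))
(.lp [[3], [1, 6, 9], [0, 2, 4, 5, 7, 8]] [(.mj 8 9, 1130), (.rw 7, 1)]))
(.con 9 8)
.fin))
(.spn
(.lp [[3], [1, 6], [0, 2, 4, 5, 7, 8]] [(.mj 3 8, 1), (.mj 7 3, 1)])
(.ask 503
(.maj 3 9
(.ask 503
(.mark 503 [3, 9, 10]
(.spn
(.lp [[3], [1, 6, 10], [0, 2, 4, 5, 7, 8, 9]] [(.rw 7, 1), (.rw 8, 3)])
(.con 9 3)
(.con 10 9)
.fin))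
(.lp [[3], [1, 6], [0, 2, 4, 5, 7, 8, 9]] [(.mj 3 9, 1), (.mj 8 3, 1)]))
(.cut 3 [(0, 1), (1, 1), (2, 1), (3, 1), (5, 1), (7, 1), (23, 1), (55, 1), (183, 1)]
(.lp [[3], [1, 6], [0, 2, 4, 5, 7, 8, 9]] [(.mj 5 6, 446), (.mj 9 3, 737), (.hz 5 183, 44350), (.hz 5 503, 82903), (.rw 8, 2)])))
(.lp [[3], [1, 6], [0, 2, 4, 5, 7, 8]] [(.mj 8 3, 1)]))
.fin
.fin))
(.lp [[3], [1, 6], [0, 2, 4, 5, 7]] [(.mj 7 3, 1)])))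
.fin
.fin))
(.cut 3 [(0, 1), (1, 1), (2, 1), (3, 1), (5, 1), (7, 1), (23, 1), (55, 1)]
(.lp [[3], [1, 6], [0, 2, 4, 5, 7]] [(.mj 5 6, 4525), (.rw 2, 20), (.hz 7 55, 97519), (.hz 6 191, 720691), (.rw 6, 2)])))
(.lp [[3], [1, 6], [0, 2, 4, 5, 7]] [(.mj 6 7, 105), (.rw 2, 1), (.hz 6 55, 14324), (.hz 5 183, 13131)]))))
(.cut 3 [(0, 1), (1, 1), (2, 1), (3, 1)]
(.lp [[3], [1, 6], [0, 2, 4, 5, 7]] [(.hz 5 5, 41215), (.hz 5 7, 82429), (.rw 6, 2)])))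

theorem run263 : run P3488 (leaf3 218 625) (cutRow P3488) [] t263 s263 = true := by
  decide +kernel

theorem bad263 : Bad P3488 s263 :=
  run_sound (leaf3_sound P3488 rfl rfl) (cutRow_sound P3488) (
    fun _ h => absurd h List.not_mem_nil) t263 s263 run263

/-- the state above piece 23 of the tree -/
def s23 : St := ⟨[0, 0, 1, 1, 3, 7, 13, 39], [19, 47, 15, 11, 9, 7, 5, 3, 2, 1, 0], [0, 1, 2, 3, 5, 4],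
  [],
  [⟨true, 1, 9, 7, 50⟩, ⟨true, 2, 11, 3, 50⟩, ⟨true, 2, 9, 9, 50⟩, ⟨true, 3, 3, 1, 5⟩, ⟨true, 1, 5, 13, 50⟩, ⟨true, 5, 31, 1, 8⟩, ⟨true, 4, 175, 1, 10⟩, ⟨true, 4, 111, 1, 10⟩, ⟨true, 2, 19, 21, 50⟩, ⟨true, 7, 111, 11, 50⟩, ⟨true, 2, 19, 12, 25⟩, ⟨true, 4, 175, 7, 50⟩, ⟨true, 4, 15, 7, 50⟩, ⟨true, 7, 111, 8, 25⟩, ⟨true, 7, 63, 6, 25⟩, ⟨true, 7, 63, 3, 10⟩],
  [.spn 0 0 651200, .spn 1 1 140426, .spn 3 2 140426, .spn 7 3 62723, .spn 15 5 140426, .spn 47 4 62723]⟩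

/-- piece 23 of the tree -/
noncomputable def t23 : WN.Tree :=
(.ask 23
(.mark 63 [6, 7, 8]
(.spn
(.lp [[3, 6], [1, 4, 8], [0, 2, 5, 7]] [(.mj 1 2, 256), (.mj 4 6, 2719), (.mj 5 4, 2921), (.mj 6 7, 2886), (.rw 5, 1), (.hz 12 79, 114483), (.hz 3 279, 7455), (.hz 3 167, 6164), (.hz 15 63, 5363549), (.hz 13 111, 1333296), (.hz 3 311, 5425430), (.hz 15 319, 16414465)])
(.haz 6 191 2 25
(.haz 6 191 1 10
(.haz 6 63 9 50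
(.haz 6 47 11 50
(.lp [[3, 6], [1, 4, 8], [0, 2, 5, 7]] [(.mj 1 2, 253), (.mj 3 5, 585), (.mj 4 7, 877), (.mj 5 4, 1351), (.mj 7 6, 1254), (.hz 12 79, 114538), (.hz 3 279, 331395), (.hz 19 63, 894198), (.hz 5 287, 2786689), (.hz 19 175, 230166), (.hz 19 319, 1819187), (.hz 15 319, 175573)])
(.haz 7 111 21 50
(.ask 167
(.mark 191 [6, 8, 9]
(.lp [[3, 6], [1, 4, 8], [0, 2, 5, 7, 9]] [(.mj 3 5, 2), (.mj 4 7, 3), (.mj 5 4, 4), (.hz 19 13, 108), (.hz 19 15, 464), (.hz 19 47, 237), (.hz 20 111, 773)]))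
(.ask 175
(.mark 191 [6, 8, 9]
(.spn
(.lp [[3, 6], [1, 4, 8], [0, 2, 5, 7, 9]] [(.mj 4 7, 24), (.mj 5 4, 33), (.mj 6 9, 5), (.mj 7 6, 1), (.hz 19 13, 682), (.hz 19 15, 2918), (.hz 19 47, 1784), (.hz 20 111, 5534), (.hz 18 319, 15480)])
(.lp [[3, 6], [1, 4, 8], [0, 2, 5, 7, 9]] [(.mj 3 5, 2), (.mj 4 7, 6), (.mj 5 4, 8), (.mj 8 6, 1), (.hz 19 13, 160), (.hz 19 15, 411), (.hz 12 79, 1519), (.hz 20 111, 1746), (.hz 18 191, 618), (.hz 18 703, 1306)])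
(.lp [[3, 6], [1, 4, 8], [0, 2, 5, 7, 9]] [(.mj 3 5, 2), (.mj 4 7, 13), (.mj 5 4, 17), (.mj 9 6, 5), (.hz 19 13, 269), (.hz 19 15, 456), (.hz 12 79, 3867), (.hz 18 63, 1127), (.hz 20 111, 2952), (.hz 18 191, 4961), (.hz 18 703, 1417)])
.fin))
(.lp [[3, 6], [1, 4, 8], [0, 2, 5, 7]] [(.mj 4 7, 1), (.mj 5 4, 3), (.hz 19 13, 46), (.hz 19 15, 198), (.hz 19 47, 324), (.hz 18 63, 900)])))
(.lp [[3, 6], [1, 4, 8], [0, 2, 5, 7]] [(.mj 3 5, 3), (.mj 5 4, 5), (.hz 19 13, 97), (.hz 19 15, 415), (.hz 19 47, 1152), (.hz 20 47, 1152), (.hz 18 63, 701)])))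
(.lp [[3, 6], [1, 4, 8], [0, 2, 5, 7]] [(.mj 3 5, 41), (.mj 4 7, 36), (.mj 5 4, 47), (.hz 18 13, 1340), (.hz 18 15, 5391), (.hz 18 47, 3221), (.hz 12 79, 1540), (.hz 5 287, 9611), (.hz 13 111, 19134)]))
(.lp [[3, 6], [1, 4, 8], [0, 2, 5, 7]] [(.mj 3 5, 3), (.mj 4 7, 2), (.mj 5 4, 3), (.hz 17 13, 408), (.hz 17 15, 1679), (.hz 17 47, 1932)]))
(.lp [[3, 6], [1, 4, 8], [0, 2, 5, 7]] [(.mj 3 5, 3), (.mj 4 7, 2), (.mj 5 4, 3), (.hz 16 13, 175), (.hz 16 15, 717), (.hz 16 47, 812)]))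
(.lp [[3, 6], [1, 4, 8], [0, 2, 5, 7]] [(.mj 1 2, 595), (.mj 3 5, 25), (.mj 5 4, 1056), (.mj 8 6, 279), (.mj 8 7, 651), (.rw 5, 1), (.hz 12 79, 265634), (.hz 15 63, 1165342), (.hz 13 111, 319591), (.hz 15 319, 387035)])
.fin))
(.haz 3 167 3 10
(.ask 27
(.mark 63 [6, 7, 8]
(.spn
(.lp [[3, 6], [1, 4, 8], [0, 2, 5, 7]] [(.mj 2 3, 3), (.mj 4 6, 1), (.mj 5 4, 1), (.mj 6 7, 2), (.hz 16 167, 409), (.hz 15 63, 3978), (.hz 13 111, 354), (.hz 15 319, 385)])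
(.haz 6 191 1 10
(.haz 6 175 1 5
(.ask 77
(.mark 111 [4, 7, 9]
(.lp [[1, 4, 8], [3, 6, 9], [0, 2, 5, 7]] [(.mj 1 2, 15), (.mj 3 5, 3), (.mj 4 7, 14), (.mj 5 4, 25), (.mj 7 6, 6), (.hz 4 589, 96), (.hz 18 175, 12607), (.hz 12 591, 8466), (.hz 18 191, 42032), (.hz 12 623, 4203), (.hz 13 623, 11690)]))
(.haz 7 111 19 50
(.ask 79
(.mark 111 [4, 7, 9]
(.lp [[1, 4, 8], [3, 6, 9], [0, 2, 5, 7]] [(.mj 3 5, 3), (.mj 4 7, 13), (.mj 5 4, 20), (.mj 7 6, 8), (.hz 18 175, 14183), (.hz 12 591, 6840), (.hz 18 191, 50642), (.hz 12 623, 274), (.hz 19 623, 4897)]))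
(.ask 111
(.mark 111 [4, 7, 9]
(.lp [[1, 4, 8], [3, 6, 9], [0, 2, 5, 7]] [(.mj 3 5, 1), (.mj 4 7, 5), (.mj 5 4, 7), (.mj 7 6, 2), (.hz 19 111, 640), (.hz 18 191, 11814), (.hz 12 623, 1181), (.hz 19 623, 1299)]))
(.lp [[3, 6], [1, 4, 8], [0, 2, 5, 7]] [(.mj 4 7, 2), (.mj 5 4, 3)])))
(.lp [[3, 6], [1, 4, 8], [0, 2, 5, 7]] [(.mj 3 5, 52), (.mj 5 4, 71), (.mj 7 6, 60), (.hz 19 39, 740), (.hz 19 47, 11522), (.hz 12 79, 27165), (.hz 18 191, 206477), (.hz 15 319, 84761), (.hz 18 447, 847611)])))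
(.haz 7 111 21 50
(.ask 77
(.mark 127 [7, 8, 9]
(.lp [[1, 4, 8], [3, 6, 9], [0, 2, 5, 7]] [(.mj 3 5, 1), (.mj 4 7, 4), (.mj 5 4, 5), (.hz 18 13, 3851), (.hz 19 111, 310), (.hz 19 623, 1446)]))
(.lp [[3, 6], [1, 4, 8], [0, 2, 5, 7]] [(.mj 3 5, 23), (.mj 4 7, 36), (.mj 5 4, 50), (.hz 18 15, 49925), (.hz 18 47, 17648), (.hz 12 79, 5508), (.hz 19 111, 9426)]))
(.lp [[3, 6], [1, 4, 8], [0, 2, 5, 7]] [(.mj 3 5, 4), (.mj 5 4, 5), (.hz 18 13, 1038), (.hz 18 15, 3503), (.hz 18 47, 10363), (.hz 19 47, 1016), (.hz 12 79, 519)])))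
(.lp [[3, 6], [1, 4, 8], [0, 2, 5, 7]] [(.mj 3 5, 4), (.mj 4 7, 5), (.mj 5 4, 8), (.hz 17 13, 881), (.hz 17 15, 3623), (.hz 17 47, 2007), (.hz 13 111, 2854)]))
(.lp [[3, 6], [1, 4, 8], [0, 2, 5, 7]] [(.mj 2 3, 13), (.mj 5 4, 1), (.mj 8 7, 4), (.hz 16 167, 1509), (.hz 15 63, 4371), (.hz 13 111, 1485), (.hz 16 183, 3028)])
.fin))
(.haz 4 167 3 25
(.ask 77
(.mark 79 [4, 5, 8]
(.ask 333
(.mark 367 [4, 7, 9]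
(.lp [[1, 4], [2, 5, 7], [0, 3, 6, 8, 9]] [(.mj 1 2, 10), (.mj 3 5, 1), (.mj 4 7, 6), (.mj 5 4, 11), (.hz 12 79, 387), (.hz 16 167, 41), (.hz 13 111, 638), (.hz 12 335, 1320), (.hz 4 845, 16), (.hz 13 367, 2520), (.hz 12 847, 3154), (.hz 13 879, 6975)]))
(.haz 4 111 6 25
(.ask 335
(.mark 367 [4, 7, 9]
(.lp [[1, 4], [2, 5, 7], [0, 3, 6, 8, 9]] [(.mj 1 2, 27), (.mj 3 5, 1), (.mj 4 7, 18), (.mj 5 4, 33), (.hz 16 167, 119), (.hz 18 111, 2179), (.hz 13 111, 2175), (.hz 12 335, 2902), (.hz 18 367, 4194), (.hz 13 367, 8453), (.hz 12 847, 10309), (.hz 13 879, 20450)]))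
(.mark 111 [4, 7, 8]
(.lp [[1, 4], [3, 6, 8], [0, 2, 5, 7]] [(.mj 4 6, 4), (.mj 4 7, 17), (.mj 5 4, 27), (.hz 17 167, 14), (.hz 18 111, 4668), (.hz 13 111, 6743), (.hz 18 367, 12561), (.hz 13 367, 14062)])))
(.mark 111 [4, 7, 8]
(.lp [[1, 4], [3, 6, 8], [0, 2, 5, 7]] [(.mj 1 2, 278), (.mj 4 6, 17), (.mj 4 7, 160), (.mj 5 4, 149), (.hz 18 39, 12763), (.hz 18 47, 43865), (.hz 18 111, 18548), (.hz 13 111, 47636), (.hz 12 335, 34172), (.hz 13 367, 131595)])))))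
(.ask 55
(.mark 63 [6, 7, 8]
(.spn
(.lp [[3, 6], [1, 4, 8], [0, 2, 5, 7]] [(.mj 1 2, 41), (.mj 4 6, 28), (.mj 5 4, 46), (.mj 6 7, 40), (.hz 12 79, 5176), (.hz 17 167, 783), (.hz 15 63, 97208), (.hz 13 111, 9827), (.hz 3 311, 75912), (.hz 15 319, 141091)])
(.haz 6 175 9 50
(.ask 79
(.mark 111 [4, 7, 9]
(.lp [[1, 4, 8], [3, 6, 9], [0, 2, 5, 7]] [(.mj 3 5, 4), (.mj 4 7, 17), (.mj 5 4, 30), (.mj 7 6, 9), (.hz 12 79, 5303), (.hz 18 175, 2226), (.hz 12 591, 5655), (.hz 18 191, 2892), (.hz 15 319, 8676), (.hz 5 607, 10164), (.hz 12 623, 1266), (.hz 13 623, 13448), (.hz 18 447, 8003)]))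
(.ask 111
(.mark 111 [4, 7, 9]
(.lp [[1, 4, 8], [3, 6, 9], [0, 2, 5, 7]] [(.mj 3 5, 15), (.mj 4 7, 13), (.mj 5 4, 18), (.mj 7 6, 9), (.hz 13 111, 3543), (.hz 18 191, 3541), (.hz 15 319, 15715), (.hz 12 623, 3541), (.hz 13 623, 6668), (.hz 18 447, 8414)]))
(.lp [[3, 6], [1, 4, 8], [0, 2, 5, 7]] [(.mj 4 7, 2), (.mj 5 4, 3)])))
(.lp [[3, 6], [1, 4, 8], [0, 2, 5, 7]] [(.mj 3 5, 20), (.mj 4 7, 15), (.mj 5 4, 19), (.hz 18 15, 2950), (.hz 18 47, 1413), (.hz 13 111, 7959), (.hz 15 319, 10037)]))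
(.lp [[3, 6], [1, 4, 8], [0, 2, 5, 7]] [(.mj 3 5, 4), (.mj 5 4, 15), (.mj 8 6, 8), (.mj 8 7, 10), (.hz 12 79, 4505), (.hz 15 63, 13304), (.hz 5 95, 20087), (.hz 13 111, 3575), (.hz 11 175, 2320), (.hz 15 319, 4677)])
.fin))
(.maj 6 7
(.lp [[1, 4], [3, 6], [0, 2, 5, 7]] [(.mj 2 3, 13), (.mj 4 6, 15), (.mj 5 4, 24), (.mj 6 7, 22), (.hz 12 79, 3943), (.hz 16 167, 330), (.hz 17 167, 2167), (.hz 15 63, 49793), (.hz 13 111, 5236)])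
(.ask 79
(.mark 79 [4, 5, 8]
(.ask 335
(.mark 367 [4, 7, 9]
(.lp [[1, 4], [2, 5, 7], [0, 3, 6, 8, 9]] [(.mj 4 7, 10), (.mj 5 4, 16), (.mj 7 6, 2), (.hz 12 79, 3074), (.hz 17 167, 9), (.hz 13 111, 2882), (.hz 12 335, 1481), (.hz 13 367, 6895), (.hz 12 847, 2393), (.hz 13 879, 2450)]))
(.mark 111 [4, 7, 8]
(.lp [[1, 4], [3, 6, 8], [0, 2, 5, 7]] [(.mj 4 7, 26), (.mj 5 4, 41), (.mj 7 6, 6), (.hz 12 79, 8741), (.hz 15 63, 65), (.hz 12 111, 171), (.hz 13 111, 8257), (.hz 12 335, 4545), (.hz 13 367, 19798)]))))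
(.ask 111
(.mark 111 [4, 7, 8]
(.lp [[1, 4], [3, 6, 8], [0, 2, 5, 7]] [(.mj 4 7, 120), (.mj 5 4, 193), (.mj 7 6, 31), (.hz 12 79, 42230), (.hz 15 63, 306), (.hz 12 111, 4147), (.hz 13 111, 42851), (.hz 13 367, 63016)]))
(.lp [[1, 4], [3, 6], [0, 2, 5, 7]] [(.mj 4 7, 2), (.mj 5 4, 3)]))))))
(.lp [[1, 4], [3, 6], [0, 2, 5, 7]] [(.mj 1 2, 38), (.mj 2 3, 5), (.mj 4 6, 1), (.mj 4 7, 12), (.hz 17 7, 5304), (.hz 16 167, 2284), (.hz 15 63, 4763), (.hz 13 111, 6839)])))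
(.lp [[1, 4], [3, 6], [0, 2, 5, 7]] [(.mj 2 3, 8), (.mj 3 5, 36), (.mj 4 7, 8), (.mj 5 4, 16), (.hz 16 5, 3560), (.hz 16 7, 10208), (.hz 12 79, 1999), (.hz 3 167, 4363), (.hz 15 63, 2571), (.hz 13 111, 4178)])))

theorem run23 : run P3488 (leaf3 218 625) (cutRow P3488) [] t23 s23 = true := by
  decide +kernel

theorem bad23 : Bad P3488 s23 :=
  run_sound (leaf3_sound P3488 rfl rfl) (cutRow_sound P3488) (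
    fun _ h => absurd h List.not_mem_nil) t23 s23 run23

/-- the state above piece 203 of the tree -/
def s203 : St := ⟨[0, 0, 1, 3, 5, 15, 23, 31, 47, 191, 447], [319, 303, 191, 159, 63, 31, 23, 21, 15, 11, 7, 5, 3, 2, 1, 0], [0, 1, 2, 3, 4, 5, 7, 8],
  [(5, 6), (4, 5)],
  [⟨true, 2, 3, 3, 10⟩, ⟨true, 1, 5, 2, 5⟩, ⟨true, 2, 3, 23, 50⟩, ⟨true, 1, 5, 12, 25⟩, ⟨true, 1, 21, 27, 50⟩, ⟨true, 4, 15, 9, 40⟩, ⟨true, 3, 23, 11, 20⟩, ⟨true, 4, 47, 7, 20⟩, ⟨true, 4, 47, 17, 40⟩, ⟨true, 4, 47, 9, 20⟩, ⟨true, 4, 47, 19, 40⟩, ⟨true, 5, 95, 1, 5⟩, ⟨true, 5, 95, 3, 10⟩, ⟨true, 5, 31, 3, 10⟩, ⟨true, 3, 87, 29, 40⟩, ⟨true, 6, 447, 1, 40⟩, ⟨true, 7, 319, 11, 40⟩, ⟨true, 7, 127, 13, 40⟩, ⟨true, 6, 703, 3, 40⟩],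
  [.spn 0 0 651200, .spn 1 1 302400, .spn 3 2 302400, .spn 7 3 302400, .spn 15 4 302400, .spn 31 5 140426, .spn 63 7 140426, .spn 191 8 140426]⟩

/-- piece 203 of the tree -/
noncomputable def t203 : WN.Tree :=
(.mark 447 [6, 9, 10]
(.spn
(.haz 9 1471 3 40
(.haz 9 447 11 40
(.ask 1471
(.mark 1471 [6, 9, 11]
(.lp [[6], [0, 2, 4, 7, 9], [1, 3, 5, 8, 10, 11]] [(.mj 6 9, 147), (.mj 7 8, 124), (.mj 8 6, 150), (.hz 20 447, 50768), (.hz 20 511, 83334), (.hz 20 1471, 70024), (.hz 20 3519, 96585)]))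
(.lp [[6], [0, 2, 4, 7, 9], [1, 3, 5, 8, 10]] [(.mj 6 9, 2), (.mj 8 6, 3), (.hz 18 703, 60), (.hz 20 511, 3215)]))
(.haz 10 959 7 20
(.ask 703
(.mark 959 [6, 10, 11]
(.lp [[6], [1, 3, 5, 8, 10], [0, 2, 4, 7, 9, 11]] [(.mj 6 10, 59), (.mj 7 8, 80), (.mj 8 6, 89), (.hz 20 191, 33413), (.hz 20 447, 3829), (.hz 21 959, 63352), (.hz 18 2751, 60560), (.hz 21 3007, 163011)]))
(.lp [[6], [0, 2, 4, 7, 9], [1, 3, 5, 8, 10]] [(.mj 6 10, 23), (.mj 7 8, 34), (.mj 8 6, 31), (.hz 20 447, 18300), (.hz 21 959, 47614)]))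
(.lp [[6], [0, 2, 4, 7, 9], [1, 3, 5, 8, 10]] [(.mj 7 8, 1), (.mj 8 6, 1), (.hz 20 191, 427), (.hz 20 447, 808), (.hz 21 447, 1617), (.hz 18 703, 375)])))
(.lp [[6], [0, 2, 4, 7, 9], [1, 3, 5, 8, 10]] [(.mj 6 10, 2), (.mj 7 8, 3), (.mj 8 6, 3), (.hz 19 191, 1255), (.hz 19 447, 1369)]))
(.haz 5 223 17 25
(.haz 6 447 2 25
(.haz 7 383 3 5
(.haz 8 767 3 10
(.ask 703
(.mark 959 [6, 10, 11]
(.spn
(.haz 10 3007 1 4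
(.lp [[6], [1, 3, 5, 8, 10], [0, 2, 4, 7, 9, 11]] [(.mj 0 1, 367169), (.mj 6 10, 124152), (.mj 6 11, 58186), (.mj 8 9, 75824), (.mj 9 6, 189111), (.rw 9, 32), (.hz 20 1471, 336254802), (.hz 18 2751, 91919079), (.hz 23 3007, 2679884552)])
(.lp [[6], [1, 3, 5, 8, 10], [0, 2, 4, 7, 9, 11]] [(.mj 0 1, 671), (.mj 8 9, 1629), (.mj 9 6, 860), (.rw 9, 1), (.hz 23 447, 6293068), (.hz 23 959, 4994538), (.hz 20 1471, 902919), (.hz 20 3007, 3991828)]))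
(.haz 5 95 9 20
(.maj 6 11
(.cut 6 [(0, 1), (1, 1), (2, 1), (3, 1), (5, 1), (7, 1), (11, 1), (21, 1), (15, 1), (23, 1), (31, 1), (47, 1), (63, 1), (159, 1), (303, 1), (191, 1), (319, 1), (447, 1), (703, 1), (959, 1)]
(.lp [[6], [1, 3, 5, 8, 10], [0, 2, 4, 7, 9, 11]] [(.mj 0 1, 1126712), (.mj 9 10, 16557), (.mj 10 6, 47835), (.hz 14 87, 6648850), (.hz 23 95, 19071702), (.hz 18 2751, 70628338), (.hz 22 2815, 363903868), (.hz 20 3007, 161625474), (.rw 10, 88)]))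
(.cut 6 [(0, 1), (1, 1), (2, 1), (3, 1), (5, 1), (7, 1), (11, 1), (21, 1), (15, 1), (23, 1), (31, 1), (47, 1), (63, 1), (159, 1), (303, 1), (191, 1), (319, 1), (447, 1), (703, 1), (959, 1)]
(.lp [[6], [1, 3, 5, 8, 10], [0, 2, 4, 7, 9, 11]] [(.mj 0 1, 416711), (.mj 8 9, 4544), (.mj 9 10, 2942), (.mj 10 11, 2942), (.mj 11 6, 26723), (.hz 14 87, 1855900), (.hz 20 447, 8686836), (.hz 22 2815, 29549927), (.hz 20 1983, 59766351), (.rw 10, 59)])))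
(.lp [[6], [1, 3, 5, 8, 10], [0, 2, 4, 7, 9, 11]] [(.mj 3 4, 1), (.hz 23 31, 141), (.hz 19 223, 35)]))
(.maj 6 10
(.cut 6 [(0, 1), (1, 1), (2, 1), (3, 1), (5, 1), (7, 1), (11, 1), (21, 1), (15, 1), (23, 1), (31, 1), (47, 1), (63, 1), (159, 1), (303, 1), (191, 1), (319, 1), (447, 1), (703, 1), (959, 1)]
(.lp [[6], [1, 3, 5, 8, 10], [0, 2, 4, 7, 9, 11]] [(.mj 0 1, 4292), (.mj 8 9, 317), (.mj 11 6, 383), (.mj 11 10, 47), (.hz 14 87, 19117), (.hz 20 1471, 1286653), (.rw 10, 1)]))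
(.cut 6 [(0, 1), (1, 1), (2, 1), (3, 1), (5, 1), (7, 1), (11, 1), (21, 1), (15, 1), (23, 1), (31, 1), (47, 1), (63, 1), (159, 1), (303, 1), (191, 1), (319, 1), (447, 1), (703, 1), (959, 1)]
(.cut 10 [(0, 1), (1, 1), (2, 1), (3, 1), (5, 1), (7, 1), (11, 1), (21, 1), (15, 1), (23, 1), (31, 1), (47, 1), (63, 1), (159, 1), (303, 1), (191, 1), (319, 1), (447, 1), (703, 1), (2751, 1)]
(.lp [[6], [1, 3, 5, 8, 10], [0, 2, 4, 7, 9, 11]] [(.mj 0 1, 139613), (.mj 8 9, 7458), (.mj 10 6, 12695), (.mj 11 10, 4949), (.hz 14 87, 621794), (.hz 18 703, 9971851), (.hz 20 959, 17679383), (.hz 20 1983, 13556413), (.rw 10, 25), (.rw 11, 2)]))))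
.fin))
(.ask 959
(.mark 959 [6, 10, 11]
(.spn
(.haz 10 959 3 10
(.lp [[6], [1, 3, 5, 8, 10], [0, 2, 4, 7, 9, 11]] [(.mj 0 1, 19), (.mj 6 10, 8), (.mj 6 11, 4), (.mj 8 9, 1), (.mj 9 6, 10), (.hz 23 959, 1192), (.hz 23 1023, 43605), (.hz 23 3007, 55264)])
(.haz 11 1983 9 20
(.lp [[6], [1, 3, 5, 8, 10], [0, 2, 4, 7, 9, 11]] [(.mj 0 1, 40), (.mj 6 10, 2), (.mj 6 11, 9), (.mj 9 6, 12), (.hz 23 447, 15275), (.hz 20 1471, 25459), (.hz 24 1983, 32824)])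
(.lp [[6], [1, 3, 5, 8, 10], [0, 2, 4, 7, 9, 11]] [(.mj 0 1, 6), (.mj 9 6, 1), (.hz 23 447, 464), (.hz 23 959, 6668), (.hz 24 959, 3334), (.hz 20 1471, 3067)])))
(.ask 87
(.mark 1023 [10, 11, 12]
(.cut 6 [(0, 1), (1, 1), (2, 1), (3, 1), (5, 1), (7, 1), (11, 1), (21, 1), (15, 1), (23, 1), (31, 1), (47, 1), (63, 1), (159, 1), (303, 1), (191, 1)]
(.cut 6 [(0, 1), (1, 1), (2, 1), (3, 1), (5, 1), (7, 1), (11, 1), (21, 1), (15, 1), (23, 1), (31, 1), (47, 1), (63, 1), (159, 1), (303, 1), (191, 1), (319, 1), (447, 1)]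
(.lp [[6, 12], [1, 3, 5, 8, 10], [0, 2, 4, 7, 9, 11]] [(.mj 0 1, 189050), (.mj 9 10, 1304), (.mj 10 6, 9047), (.hz 14 4183, 982089), (.hz 12 4191, 14409376), (.hz 17 4223, 5421983), (.hz 20 959, 1698032), (.hz 22 4863, 45286736), (.hz 20 3007, 14701838), (.rw 10, 6), (.rw 11, 13)]))))
(.cut 6 [(0, 1), (1, 1), (2, 1), (3, 1), (5, 1), (7, 1), (11, 1), (21, 1), (15, 1), (23, 1), (31, 1), (47, 1), (63, 1), (159, 1), (303, 1), (191, 1), (319, 1), (447, 1), (703, 1)]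
(.lp [[6], [1, 3, 5, 8, 10], [0, 2, 4, 7, 9, 11]] [(.mj 0 1, 873052), (.mj 9 10, 6548), (.mj 10 6, 44243), (.hz 18 703, 5536157), (.hz 20 3007, 71894830), (.rw 10, 94)])))
(.ask 87
(.mark 95 [5, 7, 12]
(.cut 6 [(0, 1), (1, 1), (2, 1), (3, 1), (5, 1), (7, 1), (11, 1), (21, 1), (15, 1), (23, 1), (31, 1), (47, 1), (63, 1), (159, 1), (303, 1), (191, 1)]
(.cut 10 [(0, 1), (1, 1), (2, 1), (3, 1), (5, 1), (7, 1), (11, 1), (21, 1), (15, 1), (23, 1), (31, 1), (47, 1), (87, 1), (63, 1), (95, 1), (159, 1), (303, 1), (127, 1), (191, 1), (223, 1), (319, 1), (255, 1), (383, 1), (447, 1), (703, 1), (511, 1), (767, 1)]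
(.cut 6 [(0, 1), (1, 1), (2, 1), (3, 1), (5, 1), (7, 1), (11, 1), (21, 1), (15, 1), (23, 1), (31, 1), (47, 1), (63, 1), (159, 1), (303, 1), (191, 1), (319, 1), (447, 1), (703, 1), (959, 1), (1471, 1)]
(.cut 6 [(0, 1), (1, 1), (2, 1), (3, 1), (5, 1), (7, 1), (11, 1), (21, 1), (15, 1), (23, 1), (31, 1), (47, 1), (63, 1), (159, 1), (303, 1), (191, 1), (319, 1), (447, 1), (703, 1), (959, 1), (1471, 2)]
(.lp [[6, 12], [1, 3, 5, 8, 10], [0, 2, 4, 7, 9, 11]] [(.mj 0 1, 987211), (.mj 11 6, 45131), (.hz 14 4183, 5128418), (.hz 12 4191, 75245036), (.hz 17 4223, 28313325), (.rw 10, 56), (.rw 11, 1), (.rw 12, 2), (.rw 13, 50)]))))))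
(.cut 6 [(0, 1), (1, 1), (2, 1), (3, 1), (5, 1), (7, 1), (11, 1), (21, 1), (15, 1), (23, 1), (31, 1), (47, 1), (63, 1), (159, 1), (303, 1), (191, 1), (319, 1), (447, 1), (703, 1)]
(.lp [[6], [1, 3, 5, 8, 10], [0, 2, 4, 7, 9, 11]] [(.mj 0 1, 369743), (.mj 11 6, 17065), (.rw 10, 41)])))
.fin))
(.spn
(.lp [[6], [0, 2, 4, 7, 9], [1, 3, 5, 8, 10]] [(.mj 6 10, 1), (.mj 9 6, 1)])
(.lp [[6], [0, 2, 4, 7, 9], [1, 3, 5, 8, 10]] [(.mj 9 10, 89), (.mj 10 6, 48), (.hz 20 1471, 434262)])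
.fin
.fin)))
(.lp [[6], [0, 2, 4, 7, 9], [1, 3, 5, 8, 10]] [(.mj 3 4, 11), (.mj 8 9, 3), (.mj 9 6, 1), (.hz 22 191, 7927), (.hz 21 383, 4902), (.hz 18 703, 2824)]))
(.lp [[6], [0, 2, 4, 7, 9], [1, 3, 5, 8, 10]] [(.mj 7 8, 2), (.mj 8 9, 2), (.mj 9 6, 3), (.hz 21 319, 23390), (.hz 17 383, 1670), (.hz 18 703, 2318)]))
(.lp [[6], [0, 2, 4, 7, 9], [1, 3, 5, 8, 10]] [(.mj 0 1, 117), (.mj 8 9, 1), (.hz 20 23, 1300), (.hz 20 31, 660), (.hz 20 159, 718), (.hz 20 191, 711), (.hz 15 447, 472), (.hz 18 703, 1177)]))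
(.lp [[6], [0, 2, 4, 7, 9], [1, 3, 5, 8, 10]] [(.mj 3 4, 16), (.mj 9 6, 1), (.mj 9 10, 1), (.hz 19 159, 3488), (.hz 12 223, 5230)]))
(.haz 8 703 7 20
(.haz 6 191 1 8
(.lp [[6], [0, 2, 4, 7, 9], [1, 3, 5, 8, 10]] [(.mj 0 1, 11), (.mj 10 6, 1), (.hz 14 87, 51), (.hz 20 191, 2155), (.hz 20 447, 4749), (.hz 20 703, 1606), (.hz 19 703, 220), (.hz 20 959, 4406)])
(.haz 6 63 1 10
(.lp [[6], [0, 2, 4, 7, 9], [1, 3, 5, 8, 10]] [(.mj 0 1, 896), (.mj 10 6, 65), (.hz 14 87, 3992), (.hz 21 63, 48353), (.hz 21 191, 89214), (.hz 21 319, 84335), (.hz 21 447, 175088), (.hz 21 703, 93406), (.hz 19 703, 15459), (.hz 21 959, 263975)])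
(.lp [[6], [0, 2, 4, 7, 9], [1, 3, 5, 8, 10]] [(.mj 0 1, 340), (.mj 10 9, 2), (.hz 21 23, 9531), (.hz 21 31, 4804), (.hz 20 159, 6863), (.hz 20 191, 6692), (.hz 18 703, 2152), (.hz 19 703, 3374), (.hz 18 959, 6248), (.hz 15 1471, 1467)])))
(.lp [[6], [0, 2, 4, 7, 9], [1, 3, 5, 8, 10]] [(.mj 10 9, 683), (.rw 8, 1), (.hz 19 191, 2543308), (.hz 18 703, 767918)]))
.fin))

theorem run203 : run P3488 (leaf3 218 625) (cutRow P3488) [] t203 s203 = true := by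
  decide +kernel

theorem bad203 : Bad P3488 s203 :=
  run_sound (leaf3_sound P3488 rfl rfl) (cutRow_sound P3488) (
    fun _ h => absurd h List.not_mem_nil) t203 s203 run203

/-- the state above piece 175 of the tree -/
def s175 : St := ⟨[0, 0, 1, 3, 5, 15, 21, 31, 47, 191, 319, 703], [447, 303, 191, 159, 63, 31, 23, 21, 15, 11, 7, 5, 3, 2, 1, 0], [0, 1, 2, 3, 4, 5, 7, 8, 9],
  [(5, 6), (4, 5)],
  [⟨true, 2, 3, 3, 10⟩, ⟨true, 1, 5, 2, 5⟩, ⟨true, 2, 3, 23, 50⟩, ⟨true, 1, 5, 12, 25⟩, ⟨true, 1, 21, 27, 50⟩, ⟨true, 4, 15, 9, 40⟩, ⟨true, 3, 23, 11, 20⟩, ⟨true, 4, 47, 7, 20⟩, ⟨true, 4, 47, 17, 40⟩, ⟨true, 4, 47, 9, 20⟩, ⟨true, 4, 47, 19, 40⟩, ⟨true, 3, 87, 27, 40⟩, ⟨true, 5, 95, 1, 4⟩, ⟨true, 5, 159, 1, 4⟩, ⟨true, 7, 127, 7, 40⟩, ⟨true, 7, 95, 1, 5⟩, ⟨true, 8, 127, 9, 50⟩, ⟨true, 5, 95, 2, 5⟩, ⟨true, 6, 191,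 3, 50⟩, ⟨true, 4, 303, 13, 25⟩, ⟨true, 5, 95, 12, 25⟩, ⟨true, 8, 767, 7, 25⟩, ⟨true, 9, 1535, 7, 20⟩],
  [.spn 0 0 651200, .spn 1 1 302400, .spn 3 2 302400, .spn 7 3 302400, .spn 15 4 302400, .spn 31 5 140426, .spn 63 7 140426, .spn 191 8 140426, .spn 447 9 140426]⟩

/-- piece 175 of the tree -/
noncomputable def t175 : WN.Tree :=
(.mark 959 [6, 10, 11]
(.spn
(.haz 10 447 3 10
(.lp [[6], [1, 3, 5, 8, 10], [0, 2, 4, 7, 9, 11]] [(.mj 6 10, 1820), (.mj 6 11, 257), (.mj 8 9, 1335), (.mj 9 6, 1820), (.rw 9, 1), (.hz 23 511, 13000808), (.hz 23 959, 2741022), (.hz 18 2751, 1095112), (.hz 23 3007, 12032997)])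
(.ask 85
(.mark 1023 [10, 11, 12]
(.lp [[6, 12], [1, 3, 5, 8, 10], [0, 2, 4, 7, 9, 11]] [(.mj 6 10, 362), (.mj 8 9, 1832), (.mj 9 6, 1449), (.rw 9, 5), (.hz 23 319, 755324), (.hz 23 447, 1993374)]))
(.ask 87
(.mark 1023 [10, 11, 12]
(.lp [[6, 12], [1, 3, 5, 8, 10], [0, 2, 4, 7, 9, 11]] [(.mj 6 10, 362), (.mj 8 9, 1832), (.mj 9 6, 1449), (.rw 9, 5), (.hz 23 319, 755324), (.hz 23 447, 1993374)]))
(.ask 95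
(.mark 1023 [10, 11, 12]
(.lp [[6, 12], [1, 3, 5, 8, 10], [0, 2, 4, 7, 9, 11]] [(.mj 6 10, 362), (.mj 8 9, 1832), (.mj 9 6, 1449), (.rw 9, 5), (.hz 23 319, 755324), (.hz 23 447, 1993374)]))
(.ask 223
(.mark 1023 [10, 11, 12]
(.lp [[6, 12], [1, 3, 5, 8, 10], [0, 2, 4, 7, 9, 11]] [(.mj 6 10, 362), (.mj 8 9, 1832), (.mj 9 6, 1449), (.rw 9, 5), (.hz 23 319, 755324), (.hz 23 447, 1993374)]))
(.ask 127
(.mark 1023 [10, 11, 12]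
(.lp [[6, 12], [1, 3, 5, 8, 10], [0, 2, 4, 7, 9, 11]] [(.mj 6 10, 362), (.mj 8 9, 1832), (.mj 9 6, 1449), (.rw 9, 5), (.hz 23 319, 755324), (.hz 23 447, 1993374)]))
(.ask 255
(.mark 1023 [10, 11, 12]
(.lp [[6, 12], [1, 3, 5, 8, 10], [0, 2, 4, 7, 9, 11]] [(.mj 6 10, 362), (.mj 8 9, 1832), (.mj 9 6, 1449), (.rw 9, 5), (.hz 23 319, 755324), (.hz 23 447, 1993374)]))
(.ask 767
(.mark 1023 [10, 11, 12]
(.lp [[6, 12], [1, 3, 5, 8, 10], [0, 2, 4, 7, 9, 11]] [(.mj 6 10, 1781), (.mj 8 9, 8604), (.mj 9 6, 6334), (.rw 9, 20), (.hz 23 319, 3547592), (.hz 23 447, 9362441), (.hz 18 2751, 1447226)]))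
(.ask 383
(.mark 1023 [10, 11, 12]
(.lp [[6, 12], [1, 3, 5, 8, 10], [0, 2, 4, 7, 9, 11]] [(.mj 6 10, 1059), (.mj 8 9, 5554), (.mj 9 6, 6997), (.rw 9, 22), (.hz 23 319, 2547934), (.hz 23 447, 3725729), (.hz 18 1471, 6996539)]))
(.ask 511
(.mark 1023 [10, 11, 12]
(.lp [[6, 12], [1, 3, 5, 8, 10], [0, 2, 4, 7, 9, 11]] [(.mj 6 10, 905), (.mj 8 9, 4899), (.mj 9 6, 8085), (.rw 9, 25), (.hz 23 319, 2437049), (.hz 23 447, 1583266), (.hz 18 1471, 11312803)]))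
(.ask 1023
(.mark 1023 [10, 11, 12]
(.spn
(.haz 10 3007 1 4
(.lp [[6, 12], [1, 3, 5, 8, 10], [0, 2, 4, 7, 9, 11]] [(.mj 6 10, 7666), (.mj 6 11, 3416), (.mj 8 9, 4481), (.mj 9 6, 10046), (.rw 10, 2), (.hz 23 319, 1847569), (.hz 23 447, 4875914), (.hz 18 2751, 4110988), (.hz 24 3007, 172651611)])
(.lp [[6, 12], [1, 3, 5, 8, 10], [0, 2, 4, 7, 9, 11]] [(.mj 9 6, 3849), (.mj 10 11, 2720), (.rw 10, 1), (.hz 24 319, 8908009), (.hz 24 447, 22660726), (.hz 24 959, 40997681), (.hz 18 2751, 4536628), (.hz 18 3007, 11048850)]))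
(.haz 6 3007 3 20
(.lp [[6, 12], [1, 3, 5, 8, 10], [0, 2, 4, 7, 9, 11]] [(.mj 8 9, 35), (.mj 9 6, 12), (.mj 11 10, 9), (.hz 23 319, 17931), (.hz 23 447, 43044), (.hz 18 1471, 9983), (.hz 18 1983, 36666), (.hz 24 3007, 85336)])
(.lp [[6, 12], [1, 3, 5, 8, 10], [0, 2, 4, 7, 9, 11]] [(.mj 8 9, 543), (.mj 11 10, 144), (.rw 9, 1), (.hz 24 959, 3187264), (.hz 18 2751, 635418), (.hz 18 1983, 586947)]))
(.lp [[6, 12], [1, 3, 5, 8, 10], [0, 2, 4, 7, 9, 11]] [(.mj 8 9, 458), (.mj 9 6, 2785), (.rw 10, 1), (.hz 23 319, 1096604), (.hz 18 1471, 8292437), (.hz 18 2751, 2440273), (.hz 18 1983, 6113710), (.hz 18 3007, 6113710)])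
.fin))
(.lp [[6], [1, 3, 5, 8, 10], [0, 2, 4, 7, 9, 11]] [(.mj 6 10, 362), (.mj 8 9, 1832), (.mj 9 6, 1449), (.rw 9, 5), (.hz 23 319, 755324), (.hz 23 447, 1993374)]))))))))))))
(.haz 6 191 1 10
(.lp [[6], [1, 3, 5, 8, 10], [0, 2, 4, 7, 9, 11]] [(.mj 0 1, 35), (.mj 7 8, 20), (.mj 8 9, 6), (.mj 10 6, 33), (.hz 23 191, 58151), (.hz 23 447, 174502), (.hz 23 703, 66375), (.hz 23 959, 131777), (.hz 23 1471, 97262), (.hz 23 2751, 90768), (.hz 21 2815, 61635), (.hz 23 3007, 28127)])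
(.haz 8 2751 7 20
(.ask 1343
(.mark 1983 [6, 11, 12]
(.spn
(.lp [[6], [0, 2, 4, 7, 9, 11], [1, 3, 5, 8, 10, 12]] [(.mj 6 11, 5338), (.mj 9 10, 13747), (.mj 10 6, 5338), (.rw 9, 8), (.rw 10, 14)])
(.cut 6 [(0, 1), (1, 1), (2, 1), (3, 1), (5, 1), (7, 1), (11, 1), (21, 1), (15, 1), (23, 1), (31, 1), (47, 1), (63, 1), (159, 1), (303, 1), (191, 1), (319, 1), (447, 1), (703, 1), (1343, 1), (959, 1), (1471, 1)]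
(.lp [[6], [0, 2, 4, 7, 9, 11], [1, 3, 5, 8, 10, 12]] [(.mj 0 1, 15195), (.mj 7 8, 1466), (.mj 10 11, 1082), (.mj 11 6, 2635), (.hz 23 21, 256669), (.hz 24 2815, 5025026), (.hz 18 5567, 2386571), (.hz 18 6079, 1443956), (.rw 11, 8)]))
(.lp [[6], [0, 2, 4, 7, 9, 11], [1, 3, 5, 8, 10, 12]] [(.mj 9 10, 1762), (.mj 12 6, 1091), (.mj 12 11, 794), (.rw 9, 1), (.hz 18 1471, 6795590), (.hz 18 2751, 1276657), (.hz 24 2751, 61734), (.hz 18 1983, 466979), (.hz 18 3007, 4426595), (.hz 18 5567, 2864229)])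
.fin))
(.haz 8 2751 2 5
(.maj 6 11
(.cut 6 [(0, 1), (1, 1), (2, 1), (3, 1), (5, 1), (7, 1), (11, 1), (21, 1), (15, 1), (23, 1), (31, 1), (47, 1), (63, 1), (159, 1), (303, 1), (191, 1), (319, 1), (447, 1), (703, 1), (959, 1)]
(.lp [[6], [1, 3, 5, 8, 10], [0, 2, 4, 7, 9, 11]] [(.mj 0 1, 67455), (.mj 7 8, 29538), (.mj 9 10, 2185), (.mj 10 6, 38511), (.hz 18 2751, 38053810), (.hz 25 2751, 51080159), (.hz 18 3007, 166496111), (.rw 10, 95)]))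
(.ask 1471
(.mark 1983 [6, 11, 12]
(.cut 6 [(0, 1), (1, 1), (2, 1), (3, 1), (5, 1), (7, 1), (11, 1), (21, 1), (15, 1), (23, 1), (31, 1), (47, 1), (63, 1), (159, 1), (303, 1), (191, 1), (319, 1), (447, 1), (703, 1), (1343, 1), (959, 1), (1471, 1)]
(.lp [[6], [0, 2, 4, 7, 9, 11], [1, 3, 5, 8, 10, 12]] [(.mj 0 1, 14106), (.mj 7 8, 1231), (.mj 10 11, 925), (.mj 11 6, 2368), (.hz 23 21, 238284), (.hz 25 2815, 16391282), (.hz 18 6079, 5687132), (.rw 10, 7)])))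
(.ask 1983
(.mark 1983 [6, 11, 12]
(.cut 6 [(0, 1), (1, 1), (2, 1), (3, 1), (5, 1), (7, 1), (11, 1), (21, 1), (15, 1), (23, 1), (31, 1), (47, 1), (63, 1), (159, 1), (303, 1), (191, 1)]
(.cut 6 [(0, 1), (1, 1), (2, 1), (3, 1), (5, 1), (7, 1), (11, 1), (21, 1), (15, 1), (23, 1), (31, 1), (47, 1), (63, 1), (159, 1), (303, 1), (191, 1), (319, 1), (447, 1), (703, 1), (1343, 1), (959, 1), (1471, 1), (2751, 1)]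
(.cut 6 [(0, 1), (1, 1), (2, 1), (3, 1), (5, 1), (7, 1), (11, 1), (21, 1), (15, 1), (23, 1), (31, 1), (47, 1), (63, 1), (159, 1), (303, 1), (191, 1), (319, 1), (447, 1), (703, 1), (1343, 1), (959, 1), (1471, 1)]
(.lp [[6], [0, 2, 4, 7, 9, 11], [1, 3, 5, 8, 10, 12]] [(.mj 0 1, 581845), (.mj 10 11, 14730), (.mj 11 6, 70832), (.hz 23 21, 9828470), (.hz 18 1471, 37626928), (.hz 25 2815, 283519489), (.hz 18 6079, 111560470), (.rw 10, 90), (.rw 11, 2), (.rw 12, 112)])))))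
(.lp [[6], [1, 3, 5, 8, 10], [0, 2, 4, 7, 9, 11]] [(.mj 10 11, 9), (.mj 11 6, 5), (.hz 18 2751, 12444), (.hz 18 3007, 43054)]))))
(.cut 6 [(0, 1), (1, 1), (2, 1), (3, 1), (5, 1), (7, 1), (11, 1), (21, 1), (15, 1), (23, 1), (31, 1), (47, 1), (63, 1), (159, 1), (303, 1), (191, 1), (319, 1), (703, 1), (1343, 1)]
(.lp [[6], [1, 3, 5, 8, 10], [0, 2, 4, 7, 9, 11]] [(.mj 8 9, 4499), (.mj 9 10, 1542), (.mj 10 6, 10032), (.mj 10 11, 11078), (.hz 23 191, 14318969), (.hz 25 191, 95564030), (.hz 25 703, 73759772), (.hz 21 767, 8696053), (.hz 18 2751, 12513692), (.hz 24 2751, 30909365), (.hz 18 3007, 56041738), (.rw 10, 8)]))))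
(.cut 6 [(0, 1), (1, 1), (2, 1), (3, 1), (5, 1), (7, 1), (11, 1), (21, 1), (15, 1), (23, 1), (31, 1), (47, 1), (63, 1), (159, 1), (303, 1), (191, 1)]
(.lp [[6], [1, 3, 5, 8, 10], [0, 2, 4, 7, 9, 11]] [(.mj 8 9, 3145), (.mj 10 6, 1593), (.mj 10 11, 90), (.hz 23 63, 1203858), (.hz 24 63, 1547817), (.hz 23 191, 3573902), (.hz 24 191, 2875220), (.hz 18 447, 378355), (.hz 18 703, 2792853), (.hz 24 703, 107021), (.hz 18 2751, 1502495), (.hz 21 2815, 6679642), (.hz 18 1983, 1221107), (.rw 10, 1)]))))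
(.haz 10 959 1 5
(.cut 6 [(0, 1), (1, 1), (2, 1), (3, 1), (5, 1), (7, 1), (11, 1), (21, 1), (15, 1), (23, 1), (31, 1), (47, 1), (63, 1), (159, 1), (303, 1), (191, 1), (319, 1), (447, 1), (703, 1), (959, 1)]
(.lp [[6], [1, 3, 5, 8, 10], [0, 2, 4, 7, 9, 11]] [(.mj 8 9, 3096), (.mj 11 6, 1979), (.mj 11 10, 1979), (.hz 18 703, 1285687), (.hz 15 1407, 13395783), (.hz 23 959, 12091911), (.hz 23 1023, 105108712), (.rw 10, 5)]))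
(.lp [[6], [1, 3, 5, 8, 10], [0, 2, 4, 7, 9, 11]] [(.mj 8 9, 62), (.mj 11 6, 40), (.hz 23 319, 105768), (.hz 23 447, 229952), (.hz 18 703, 85541), (.hz 18 959, 18947), (.hz 23 959, 97447), (.hz 18 1471, 40391), (.hz 18 2751, 13521), (.hz 18 1983, 62938)]))
.fin))

theorem run175 : run P3488 (leaf3 218 625) (cutRow P3488) [] t175 s175 = true := by
  decide +kernel

theorem bad175 : Bad P3488 s175 :=
  run_sound (leaf3_sound P3488 rfl rfl) (cutRow_sound P3488) (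
    fun _ h => absurd h List.not_mem_nil) t175 s175 run175

/-- the state above piece 191 of the tree -/
def s191 : St := ⟨[0, 0, 1, 3, 5, 15, 21, 47], [47, 31, 23, 21, 15, 11, 7, 5, 3, 2, 1, 0], [0, 1, 2, 3, 4, 5],
  [(5, 6), (4, 5)],
  [⟨true, 2, 3, 3, 10⟩, ⟨true, 1, 5, 2, 5⟩, ⟨true, 2, 3, 23, 50⟩, ⟨true, 1, 5, 12, 25⟩, ⟨true, 1, 21, 27, 50⟩, ⟨true, 4, 15, 9, 40⟩, ⟨true, 3, 23, 11, 20⟩, ⟨true, 4, 47, 7, 20⟩, ⟨true, 4, 47, 17, 40⟩, ⟨true, 4, 47, 9, 20⟩, ⟨true, 4, 47, 19, 40⟩, ⟨true, 3, 87, 27, 40⟩, ⟨true, 5, 95, 1, 4⟩],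
  [.spn 0 0 651200, .spn 1 1 302400, .spn 3 2 302400, .spn 7 3 302400, .spn 15 4 302400, .spn 31 5 302400]⟩

/-- piece 191 of the tree -/
noncomputable def t191 : WN.Tree :=
(.ask 63
(.mark 63 [6, 7, 8]
(.spn
(.ask 85
(.mark 127 [7, 8, 9]
(.spn
(.haz 7 319 7 40
(.haz 8 127 3 10
(.lp [[8], [1, 3, 5, 7], [0, 2, 4, 6, 9]] [(.mj 3 4, 98), (.mj 6 7, 68), (.mj 7 8, 46), (.hz 10 175, 1015), (.hz 14 127, 43547), (.hz 12 607, 10794), (.hz 14 255, 74301), (.hz 14 639, 138458)])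
(.ask 319
(.mark 319 [6, 7, 10]
(.lp [[7], [0, 2, 4, 6, 9], [1, 3, 5, 8, 10]] [(.mj 3 4, 63), (.mj 6 7, 35), (.mj 7 8, 2), (.hz 14 63, 1020), (.hz 14 127, 17658), (.hz 13 319, 10220), (.hz 13 1343, 7679)]))
(.lp [[8], [1, 3, 5, 7], [0, 2, 4, 6, 9]] [(.mj 3 4, 13), (.mj 6 7, 7), (.hz 14 127, 4830), (.hz 13 319, 1979)])))
(.lp [[8], [1, 3, 5, 7], [0, 2, 4, 6, 9]] [(.mj 3 4, 9), (.mj 7 8, 4), (.hz 13 47, 436), (.hz 13 63, 1364)]))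
(.haz 7 127 1 5
(.ask 319
(.mark 383 [7, 9, 10]
(.lp [[7], [0, 2, 4, 6, 9], [1, 3, 5, 8, 10]] [(.mj 3 4, 61), (.mj 6 8, 27), (.mj 8 7, 32), (.hz 10 175, 1624), (.hz 13 127, 79802), (.hz 13 383, 49578), (.hz 13 639, 210824), (.hz 13 1407, 72076)]))
(.ask 383
(.mark 383 [7, 9, 10]
(.spn
(.lp [[7], [0, 2, 4, 6, 9], [1, 3, 5, 8, 10]] [(.mj 3 4, 36), (.mj 6 8, 5), (.mj 7 10, 5), (.mj 8 7, 16), (.hz 10 175, 971), (.hz 13 127, 13385), (.hz 13 639, 151728)])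
(.lp [[7], [0, 2, 4, 6, 9], [1, 3, 5, 8, 10]] [(.mj 3 4, 1895), (.mj 9 7, 495), (.mj 9 10, 213), (.rw 4, 1), (.hz 13 127, 1480501)])
(.lp [[7], [0, 2, 4, 6, 9], [1, 3, 5, 8, 10]] [(.mj 3 4, 3), (.mj 10 7, 1), (.hz 10 175, 71), (.hz 13 127, 3505), (.hz 13 383, 5809)])
.fin))
(.lp [[8], [1, 3, 5, 7], [0, 2, 4, 6, 9]] [(.mj 3 4, 1222), (.mj 6 7, 175), (.mj 8 7, 208), (.rw 4, 1)])))
(.cut 7 [(0, 1), (1, 1), (2, 1), (3, 1), (5, 1), (7, 1), (11, 1), (21, 1), (15, 1), (23, 1), (85, 1), (31, 1), (47, 1), (87, 1), (63, 1), (95, 1), (127, 1)]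
(.lp [[8], [1, 3, 5, 7], [0, 2, 4, 6, 9]] [(.mj 3 4, 15732), (.mj 6 8, 3452), (.hz 13 47, 5204265), (.hz 13 63, 6040665), (.rw 8, 1)])))
(.lp [[8], [1, 3, 5, 7], [0, 2, 4, 6, 9]] [(.mj 3 4, 8134), (.mj 9 7, 1864), (.mj 9 8, 1864), (.rw 4, 4), (.rw 6, 2)])
.fin))
(.haz 6 319 3 20
(.haz 4 175 14 25
(.haz 7 127 4 25
(.haz 6 447 9 50
(.haz 7 319 1 5
(.haz 6 319 6 25
(.haz 7 127 11 50
(.haz 7 319 6 25
(.haz 4 175 31 50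
(.maj 7 8
(.ask 87
(.mark 127 [7, 8, 9]
(.lp [[8], [1, 3, 5, 7], [0, 2, 4, 6, 9]] [(.mj 3 4, 64), (.mj 6 7, 34), (.mj 7 8, 7), (.hz 21 175, 284), (.hz 20 319, 16573)]))
(.haz 7 319 13 50
(.ask 319
(.mark 319 [6, 7, 9]
(.lp [[7], [0, 2, 4, 6], [1, 3, 5, 8, 9]] [(.mj 3 4, 333), (.mj 6 7, 94), (.mj 7 8, 15), (.hz 21 175, 6079), (.hz 18 319, 2164), (.hz 22 319, 12190), (.hz 22 831, 16473)]))
(.lp [[8], [0, 2, 4, 6], [1, 3, 5, 7]] [(.mj 3 4, 116), (.mj 6 7, 33), (.mj 7 8, 5), (.hz 21 175, 2124), (.hz 22 319, 4035)]))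
(.lp [[8], [0, 2, 4, 6], [1, 3, 5, 7]] [(.mj 3 4, 38), (.mj 7 8, 6), (.hz 22 47, 1323), (.hz 22 63, 1576), (.hz 18 319, 4261)])))
(.lp [[8], [0, 2, 4, 6], [1, 3, 5, 7]] [(.mj 3 4, 303), (.mj 6 8, 59), (.mj 8 7, 110), (.hz 21 175, 5537), (.hz 19 127, 38474), (.hz 20 319, 28050)]))
(.lp [[8], [0, 2, 4, 6], [1, 3, 5, 7]] [(.mj 3 4, 2), (.mj 6 7, 1), (.hz 21 47, 114), (.hz 14 175, 267), (.hz 20 319, 351)]))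
(.lp [[8], [0, 2, 4, 6], [1, 3, 5, 7]] [(.mj 3 4, 61), (.mj 6 8, 11), (.hz 20 47, 4142), (.hz 20 63, 4890), (.hz 17 319, 26101)]))
(.lp [[8], [0, 2, 4, 6], [1, 3, 5, 7]] [(.mj 3 4, 29), (.mj 6 8, 5), (.hz 19 47, 956), (.hz 19 63, 1120), (.hz 17 319, 11951)]))
(.lp [[8], [0, 2, 4, 6], [1, 3, 5, 7]] [(.mj 3 4, 3), (.mj 6 7, 3), (.mj 6 8, 2), (.hz 18 31, 431), (.hz 18 63, 998), (.hz 17 319, 9169)]))
(.lp [[8], [0, 2, 4, 6], [1, 3, 5, 7]] [(.mj 3 4, 447), (.mj 6 8, 95), (.hz 17 47, 147991), (.hz 17 63, 171775), (.hz 13 319, 9031), (.hz 15 383, 45154)]))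
(.lp [[8], [0, 2, 4, 6], [1, 3, 5, 7]] [(.mj 4 5, 899), (.mj 6 8, 321), (.rw 6, 2), (.hz 16 63, 623995)]))
(.lp [[8], [0, 2, 4, 6], [1, 3, 5, 7]] [(.mj 3 4, 10), (.mj 6 8, 2), (.hz 15 47, 626), (.hz 15 63, 715)]))
(.lp [[8], [0, 2, 4, 6], [1, 3, 5, 7]] [(.mj 3 4, 32), (.mj 6 7, 26), (.hz 14 47, 9095), (.hz 10 175, 5758)]))
(.lp [[8], [0, 2, 4, 6], [1, 3, 5, 7]] [(.mj 4 5, 4), (.mj 6 8, 1), (.hz 13 23, 339), (.hz 13 31, 671), (.hz 13 63, 363)])))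
(.haz 6 63 1 5
(.lp [[8], [0, 2, 4, 6], [1, 3, 5, 7]] [(.mj 4 5, 3), (.mj 7 6, 2), (.hz 13 63, 2704), (.hz 13 319, 3822)])
(.haz 8 127 1 4
(.lp [[8], [0, 2, 4, 6], [1, 3, 5, 7]] [(.mj 4 5, 63), (.mj 7 6, 5), (.mj 7 8, 12), (.hz 13 21, 3682), (.hz 13 23, 15646), (.hz 13 31, 37966), (.hz 14 127, 65350)])
(.lp [[8], [0, 2, 4, 6], [1, 3, 5, 7]] [(.mj 4 5, 5), (.mj 7 6, 1), (.hz 13 21, 179), (.hz 13 23, 762), (.hz 13 31, 1849), (.hz 14 63, 2087)])))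
(.ask 319
(.mark 319 [6, 7, 9]
(.spn
(.haz 7 127 7 50
(.lp [[7], [0, 2, 4, 6], [1, 3, 5, 8, 9]] [(.mj 8 6, 17439), (.rw 7, 28), (.hz 13 127, 11913247)])
(.haz 9 447 19 50
(.haz 7 383 1 10
(.lp [[7], [0, 2, 4, 6], [1, 3, 5, 8, 9]] [(.mj 6 9, 15), (.mj 8 6, 19), (.hz 13 47, 878), (.hz 13 63, 2921), (.hz 15 383, 34020), (.hz 14 447, 6236)])
(.lp [[7], [0, 2, 4, 6], [1, 3, 5, 8, 9]] [(.mj 6 9, 9), (.mj 8 6, 13), (.hz 15 47, 2697), (.hz 15 63, 7853), (.hz 15 319, 828), (.hz 14 447, 3741)]))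
(.lp [[7], [0, 2, 4, 6], [1, 3, 5, 8, 9]] [(.mj 8 6, 2), (.hz 13 47, 51), (.hz 13 63, 539), (.hz 14 319, 333)])))
(.haz 9 447 3 10
(.haz 7 831 11 50
(.haz 6 63 7 50
(.lp [[7], [0, 2, 4, 6], [1, 3, 5, 8, 9]] [(.mj 4 5, 50), (.mj 7 6, 28), (.mj 8 7, 2), (.hz 15 63, 3644), (.hz 15 191, 1303), (.hz 15 319, 4237), (.hz 15 831, 4927)])
(.maj 6 9
(.lp [[7], [0, 2, 4, 6], [1, 3, 5, 8, 9]] [(.mj 4 5, 185), (.mj 6 9, 28), (.mj 7 6, 28), (.hz 15 21, 817), (.hz 15 23, 3401), (.hz 15 31, 8039), (.hz 13 447, 57419)])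
(.cut 6 [(0, 1), (1, 1), (2, 1), (3, 1), (5, 1), (7, 1), (11, 1), (21, 1), (15, 1), (23, 1), (31, 1), (47, 1), (63, 1), (175, 1), (319, 1)]
(.cut 6 [(0, 1), (1, 1), (2, 1), (3, 1), (5, 1), (7, 1), (11, 1), (21, 1), (15, 1), (23, 1), (31, 1), (47, 1), (63, 1), (175, 1), (191, 1), (319, 1)]
(.lp [[7], [0, 2, 4, 6], [1, 3, 5, 8, 9]] [(.mj 4 5, 88843), (.mj 7 9, 9368), (.mj 9 6, 9368), (.hz 15 21, 392682), (.hz 15 23, 1634654), (.hz 15 31, 3864172), (.hz 13 511, 7271291), (.rw 8, 10), (.rw 9, 2)])))))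
(.lp [[7], [0, 2, 4, 6], [1, 3, 5, 8, 9]] [(.mj 0 1, 1508), (.mj 7 9, 969), (.rw 7, 4), (.hz 14 319, 1199556)]))
(.cut 6 [(0, 1), (1, 1), (2, 1), (3, 1), (5, 1), (7, 1), (11, 1), (21, 1), (15, 1), (23, 1), (31, 1), (47, 1), (63, 1), (175, 1), (319, 1)]
(.lp [[7], [0, 2, 4, 6], [1, 3, 5, 8, 9]] [(.mj 4 5, 1232105), (.mj 7 6, 277337), (.rw 6, 322), (.hz 13 319, 440727525), (.rw 8, 307)])))
(.ask 831
(.mark 831 [6, 7, 10]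
(.spn
(.lp [[7], [0, 2, 4, 6], [1, 3, 5, 8, 9, 10]] [(.mj 9 6, 627), (.rw 8, 1)])
(.cut 6 [(0, 1), (1, 1), (2, 1), (3, 1), (5, 1), (7, 1), (11, 1), (21, 1), (15, 1), (23, 1), (31, 1), (47, 1), (63, 1), (175, 1)]
(.cut 6 [(0, 1), (1, 1), (2, 1), (3, 1), (5, 1), (7, 1), (11, 1), (21, 1), (15, 1), (23, 1), (31, 1), (47, 1), (63, 1), (175, 1), (191, 1), (319, 1), (831, 1)]
(.lp [[7], [0, 2, 4, 6], [1, 3, 5, 8, 9, 10]] [(.mj 4 5, 26223), (.mj 7 10, 6310), (.mj 9 7, 11436), (.rw 7, 10), (.rw 8, 31), (.rw 9, 8), (.rw 10, 16)])))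
(.ask 1855
(.mark 1855 [6, 7, 11]
(.spn
(.lp [[7], [0, 2, 4, 6], [1, 3, 5, 8, 9, 10, 11]] [(.mj 10 6, 213), (.rw 9, 1)])
(.lp [[7], [0, 2, 4, 6], [1, 3, 5, 8, 9, 10, 11]] [(.mj 10 7, 371), (.rw 9, 1)])
(.haz 6 63 3 25
(.lp [[7], [0, 2, 4, 6], [1, 3, 5, 8, 9, 10, 11]] [(.mj 0 1, 16131), (.mj 4 5, 826), (.mj 11 6, 4522), (.rw 9, 1), (.hz 4 85, 63810), (.hz 13 63, 1982312), (.hz 13 191, 1582620), (.hz 13 319, 1582620), (.hz 13 831, 1798432), (.hz 13 1855, 2043672)])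
(.haz 6 63 1 10
(.lp [[7], [0, 2, 4, 6], [1, 3, 5, 8, 9, 10, 11]] [(.mj 0 1, 14), (.mj 11 6, 1), (.hz 13 21, 123), (.hz 13 23, 71), (.hz 11 87, 33), (.hz 14 63, 590), (.hz 14 191, 1099), (.hz 14 319, 656), (.hz 14 447, 1538), (.hz 14 831, 729), (.hz 14 959, 810), (.hz 14 1855, 810)])
(.lp [[7], [0, 2, 4, 6], [1, 3, 5, 8, 9, 10, 11]] [(.mj 0 1, 6), (.hz 14 21, 146), (.hz 14 23, 182), (.hz 14 31, 96)])))
.fin))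
(.lp [[7], [0, 2, 4, 6], [1, 3, 5, 8, 9, 10]] [(.mj 10 7, 1), (.rw 8, 1)]))
.fin))
(.lp [[7], [0, 2, 4, 6], [1, 3, 5, 8, 9]] [(.mj 9 7, 1), (.rw 7, 1)]))
.fin))
(.lp [[8], [0, 2, 4, 6], [1, 3, 5, 7]] [(.mj 4 5, 3), (.rw 6, 1)]))
.fin))
(.spn
(.lp [[], [0, 2, 4, 6], [1, 3, 5, 7]] [(.mj 3 4, 7249), (.mj 6 7, 1294), (.rw 4, 4)])
(.lp [[], [0, 2, 4, 6], [1, 3, 5, 7]] [(.mj 7 6, 294), (.rw 4, 2)])
.fin
.fin))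

theorem run191 : run P3488 (leaf3 218 625) (cutRow P3488) [] t191 s191 = true := by
  decide +kernel

theorem bad191 : Bad P3488 s191 :=
  run_sound (leaf3_sound P3488 rfl rfl) (cutRow_sound P3488) (
    fun _ h => absurd h List.not_mem_nil) t191 s191 run191

/-- the state above piece 198 of the tree -/
def s198 : St := ⟨[0, 0, 1, 3, 5, 15, 23, 31, 47, 159, 447], [703, 671, 447, 319, 303, 191, 63, 31, 23, 21, 15, 11, 7, 5, 3, 2, 1, 0], [0, 1, 2, 3, 4, 5, 7, 8, 9],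
  [(10, 6), (5, 6), (4, 5)],
  [⟨true, 2, 3, 3, 10⟩, ⟨true, 1, 5, 2, 5⟩, ⟨true, 2, 3, 23, 50⟩, ⟨true, 1, 5, 12, 25⟩, ⟨true, 1, 21, 27, 50⟩, ⟨true, 4, 15, 9, 40⟩, ⟨true, 3, 23, 11, 20⟩, ⟨true, 4, 47, 7, 20⟩, ⟨true, 4, 47, 17, 40⟩, ⟨true, 4, 47, 9, 20⟩, ⟨true, 4, 47, 19, 40⟩, ⟨true, 5, 95, 1, 5⟩, ⟨true, 5, 95, 3, 10⟩, ⟨true, 5, 31, 3, 10⟩, ⟨true, 3, 87, 29, 40⟩, ⟨true, 6, 447, 1, 40⟩, ⟨true, 8, 703, 13, 50⟩, ⟨true, 6, 959, 3, 50⟩, ⟨true, 8, 127, 7, 25⟩, ⟨true, 6, 703, 3, 50⟩, ⟨true, 8, 703, 21, 50⟩, ⟨true, 7, 127, 9, 20⟩, ⟨true, 6, 1471, 1, 20⟩],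
  [.spn 0 0 651200, .spn 1 1 302400, .spn 3 2 302400, .spn 7 3 302400, .spn 15 4 302400, .spn 31 5 140426, .spn 63 7 140426, .spn 191 8 140426, .spn 447 9 140426]⟩

/-- piece 198 of the tree -/
noncomputable def t198 : WN.Tree :=
(.ask 959
(.mark 959 [6, 10, 11]
(.spn
(.con 6 10)
(.haz 10 3071 3 10
(.ask 1471
(.mark 1983 [6, 11, 12]
(.spn
(.lp [[6], [0, 2, 4, 7, 9, 11], [1, 3, 5, 8, 10, 12]] [(.mj 0 1, 115408), (.mj 9 10, 522), (.mj 10 6, 6691), (.rw 10, 13), (.hz 14 87, 513992), (.hz 17 3007, 27460321), (.hz 17 6079, 10664598)])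
(.cut 6 [(0, 1), (1, 1), (2, 1), (3, 1), (5, 1), (7, 1), (11, 1), (21, 1), (15, 1), (23, 1), (31, 1), (47, 1), (63, 1), (159, 1), (303, 1), (191, 1), (319, 1), (447, 1), (1471, 1)]
(.cut 6 [(0, 1), (1, 1), (2, 1), (3, 1), (5, 1), (7, 1), (11, 1), (21, 1), (15, 1), (23, 1), (31, 1), (47, 1), (63, 1), (159, 1), (303, 1), (191, 1), (319, 1), (671, 1), (447, 1), (703, 1), (959, 1)]
(.lp [[6], [0, 2, 4, 7, 9, 11], [1, 3, 5, 8, 10, 12]] [(.mj 0 1, 136571), (.mj 10 11, 1455), (.mj 11 6, 7527), (.hz 14 87, 608243), (.hz 17 6079, 10564125), (.rw 11, 5), (.rw 12, 16)])))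
(.cut 6 [(0, 1), (1, 1), (2, 1), (3, 1), (5, 1), (7, 1), (11, 1), (21, 1), (15, 1), (23, 1), (31, 1), (47, 1), (63, 1), (159, 1), (303, 1), (191, 1), (671, 1), (703, 1)]
(.cut 6 [(0, 1), (1, 1), (2, 1), (3, 1), (5, 1), (7, 1), (11, 1), (21, 1), (15, 1), (23, 1), (31, 1), (47, 1), (63, 1), (159, 1), (303, 1), (191, 1), (319, 1), (671, 1), (447, 1), (703, 1), (959, 1)]
(.lp [[6], [0, 2, 4, 7, 9, 11], [1, 3, 5, 8, 10, 12]] [(.mj 0 1, 16971), (.mj 9 10, 236), (.mj 12 6, 1021), (.mj 12 11, 178), (.hz 14 87, 75582), (.rw 11, 1), (.rw 12, 2)])))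
.fin))
(.ask 1983
(.mark 1983 [6, 11, 12]
(.spn
(.haz 12 4031 3 8
(.lp [[6], [0, 2, 4, 7, 9, 11], [1, 3, 5, 8, 10, 12]] [(.mj 0 1, 98206), (.mj 6 11, 1315), (.mj 6 12, 4687), (.mj 10 6, 14847), (.rw 10, 22), (.hz 17 3007, 55164018), (.hz 24 4031, 81496648)])
(.lp [[6], [0, 2, 4, 7, 9, 11], [1, 3, 5, 8, 10, 12]] [(.mj 0 1, 40), (.mj 6 11, 12), (.mj 10 6, 13), (.hz 24 1983, 125374)]))
(.cut 6 [(0, 1), (1, 1), (2, 1), (3, 1), (5, 1), (7, 1), (11, 1), (21, 1), (15, 1), (23, 1), (31, 1), (47, 1), (63, 1), (159, 1), (303, 1), (191, 1), (319, 1), (671, 1), (447, 1), (703, 1), (959, 1), (1471, 1), (1983, 1)]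
(.lp [[6], [0, 2, 4, 7, 9, 11], [1, 3, 5, 8, 10, 12]] [(.mj 0 1, 20670), (.mj 10 11, 398), (.mj 11 6, 2276), (.mj 11 12, 1), (.hz 17 6079, 3309832), (.rw 11, 7)]))
(.cut 6 [(0, 1), (1, 1), (2, 1), (3, 1), (5, 1), (7, 1), (11, 1), (21, 1), (15, 1), (23, 1), (31, 1), (47, 1), (63, 1), (159, 1), (303, 1), (191, 1), (319, 1), (671, 1), (447, 1), (703, 1), (959, 1), (1471, 1), (1983, 1)]
(.lp [[6], [0, 2, 4, 7, 9, 11], [1, 3, 5, 8, 10, 12]] [(.mj 0 1, 2747), (.mj 12 6, 281), (.mj 12 11, 2), (.rw 11, 1)]))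
.fin))
(.spn
(.lp [[6], [1, 3, 5, 8, 10], [0, 2, 4, 7, 9, 11]] [(.mj 6 11, 1), (.mj 10 6, 1)])
(.cut 6 [(0, 1), (1, 1), (2, 1), (3, 1), (5, 1), (7, 1), (11, 1), (21, 1), (15, 1), (23, 1), (31, 1), (47, 1), (63, 1), (159, 1), (303, 1), (191, 1), (319, 1), (671, 1), (447, 1), (703, 1), (959, 1)]
(.lp [[6], [1, 3, 5, 8, 10], [0, 2, 4, 7, 9, 11]] [(.mj 0 1, 76184), (.mj 10 11, 1170), (.mj 11 6, 4608), (.hz 14 87, 339301), (.hz 19 703, 4093272), (.hz 17 959, 1236776), (.rw 11, 10)]))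
.fin
.fin)))
(.lp [[6], [1, 3, 5, 8, 10], [0, 2, 4, 7, 9, 11]] [(.mj 0 1, 1), (.mj 10 6, 1), (.mj 10 11, 1), (.hz 23 447, 3258), (.hz 23 959, 6694), (.hz 17 3007, 5837)]))
(.ask 1471
(.maj 6 12
(.mark 1471 [6, 9, 12]
(.cut 6 [(0, 1), (1, 1), (2, 1), (3, 1), (5, 1), (7, 1), (11, 1), (21, 1), (15, 1), (23, 1), (31, 1), (47, 1), (63, 1), (159, 1), (303, 1), (191, 1), (319, 1), (447, 1), (1471, 1)]
(.lp [[6], [0, 2, 4, 7, 9, 11], [1, 3, 5, 8, 10, 12]] [(.mj 0 1, 78528), (.mj 5 7, 4500), (.mj 8 9, 8102), (.mj 10 6, 2961), (.mj 11 6, 8795), (.rw 9, 1), (.hz 17 3007, 2738572), (.hz 22 5567, 62400607), (.rw 10, 39)])))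
(.mark 1471 [6, 9, 12]
(.cut 6 [(0, 1), (1, 1), (2, 1), (3, 1), (5, 1), (7, 1), (11, 1), (21, 1), (15, 1), (23, 1), (31, 1), (47, 1), (63, 1), (159, 1), (303, 1), (191, 1), (319, 1), (447, 1), (1471, 1)]
(.cut 6 [(0, 1), (1, 1), (2, 1), (3, 1), (5, 1), (7, 1), (11, 1), (21, 1), (15, 1), (23, 1), (31, 1), (47, 1), (63, 1), (159, 1), (303, 1), (191, 1), (319, 1), (671, 1), (447, 1), (703, 1), (959, 1)]
(.lp [[6], [0, 2, 4, 7, 9, 11], [1, 3, 5, 8, 10, 12]] [(.mj 0 1, 23770), (.mj 12 6, 2268), (.hz 14 87, 24068), (.hz 19 703, 2122286), (.rw 10, 1), (.rw 11, 5)])))))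
(.cut 6 [(0, 1), (1, 1), (2, 1), (3, 1), (5, 1), (7, 1), (11, 1), (21, 1), (15, 1), (23, 1), (31, 1), (47, 1), (63, 1), (159, 1), (303, 1), (191, 1), (319, 1), (671, 1), (447, 1), (703, 1), (1471, 1)]
(.lp [[6], [1, 3, 5, 8, 10], [0, 2, 4, 7, 9, 11]] [(.mj 8 9, 674), (.mj 10 6, 110), (.mj 11 6, 181), (.mj 11 10, 105), (.rw 10, 1)])))
.fin))
(.spn
(.con 6 10)
(.ask 1471
(.mark 1471 [6, 9, 11]
(.ask 1983
(.mark 1983 [6, 11, 12]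
(.spn
(.lp [[6], [0, 2, 4, 7, 9, 12], [1, 3, 5, 8, 10, 11]] [(.mj 6 12, 207), (.mj 9 10, 1223), (.mj 10 6, 650), (.rw 10, 1)])
(.lp [[6], [0, 2, 4, 7, 9, 12], [1, 3, 5, 8, 10, 11]] [(.mj 9 10, 7), (.mj 11 6, 5), (.mj 11 12, 1), (.hz 22 1471, 40983), (.hz 17 1983, 4317), (.hz 17 6079, 12540)])
(.cut 6 [(0, 1), (1, 1), (2, 1), (3, 1), (5, 1), (7, 1), (11, 1), (21, 1), (15, 1), (23, 1), (31, 1), (47, 1), (63, 1), (159, 1), (303, 1), (191, 1), (319, 1), (671, 1), (447, 1), (703, 1), (959, 1), (1471, 1), (1983, 1)]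
(.lp [[6], [0, 2, 4, 7, 9, 12], [1, 3, 5, 8, 10, 11]] [(.mj 9 10, 712), (.mj 12 6, 258), (.rw 11, 1)]))
.fin))
(.lp [[6], [0, 2, 4, 7, 9], [1, 3, 5, 8, 10, 11]] [(.mj 9 10, 3), (.mj 10 6, 2), (.hz 22 1471, 12289)])))
(.ask 1983
(.maj 6 11
(.ask 1983
(.mark 1983 [6, 11, 12]
(.spn
(.haz 12 4031 1 5
(.lp [[6], [0, 2, 4, 7, 9, 11], [1, 3, 5, 8, 10, 12]] [(.mj 6 11, 26), (.mj 9 10, 27), (.mj 10 6, 41), (.mj 11 12, 23), (.hz 23 4031, 372163), (.hz 17 6079, 195148)])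
(.lp [[6], [0, 2, 4, 7, 9, 11], [1, 3, 5, 8, 10, 12]] [(.mj 6 11, 3), (.mj 9 10, 2), (.mj 10 6, 3), (.hz 23 1983, 41478)]))
(.con 11 6)
(.con 12 11)
.fin))
(.lp [[6], [1, 3, 5, 8, 10], [0, 2, 4, 7, 9, 11]] [(.mj 6 11, 1), (.mj 10 6, 1)]))
(.cut 6 [(0, 1), (1, 1), (2, 1), (3, 1), (5, 1), (7, 1), (11, 1), (21, 1), (15, 1), (23, 1), (31, 1), (47, 1), (63, 1), (159, 1), (303, 1), (191, 1), (319, 1), (671, 1), (447, 1), (703, 1), (959, 1)]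
(.lp [[6], [1, 3, 5, 8, 10], [0, 2, 4, 7, 9, 11]] [(.mj 9 10, 712), (.mj 11 6, 258), (.rw 10, 1)])))
(.lp [[6], [0, 2, 4, 7, 9], [1, 3, 5, 8, 10]] [(.mj 10 6, 1)])))
.fin
.fin))

theorem run198 : run P3488 (leaf3 218 625) (cutRow P3488) [] t198 s198 = true := by
  decide +kernel

theorem bad198 : Bad P3488 s198 :=
  run_sound (leaf3_sound P3488 rfl rfl) (cutRow_sound P3488) (
    fun _ h => absurd h List.not_mem_nil) t198 s198 run198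

end Pool.Agent.WN.Data
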