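import Pool.Agent.WN.CutRow
import Pool.Agent.WN.LeafRow
import Pool.Agent.Helper99.WN.ParDef
import Pool.Agent.WN.Data.D12

/-!
# The search tree, part 17
-/

set_option autoImplicit false

namespace Pool.Agent.WN.Data

open Pool.Agent.W3 Pool.Agent.WN Pool.Agent.Helper99.WN

/-- the state above piece 22 of the tree -/
def s22 : St := ⟨[0, 0, 1, 1, 3, 7, 11, 39], [47, 15, 9, 7, 5, 3, 2, 1, 0], [0, 1, 2, 3, 5, 7],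
  [],
  [⟨true, 1, 9, 7, 50⟩, ⟨true, 2, 11, 3, 50⟩, ⟨true, 2, 9, 9, 50⟩, ⟨true, 3, 3, 1, 5⟩, ⟨true, 1, 5, 13, 50⟩, ⟨true, 5, 23, 8, 25⟩],
  [.spn 0 0 651200, .spn 1 1 140426, .spn 3 2 140426, .spn 7 3 62723, .spn 15 5 140426, .spn 47 7 140426]⟩

/-- piece 22 of the tree -/
noncomputable def t22 : WN.Tree :=
(.haz 5 23 17 40
(.haz 4 7 3 20
(.lp [[1, 4], [3, 6], [0, 2, 5, 7]] [(.mj 2 3, 6), (.mj 3 5, 5), (.mj 7 4, 6), (.hz 7 15, 2019), (.hz 7 39, 1424), (.hz 2 75, 25), (.hz 7 47, 2039), (.hz 7 79, 3675), (.hz 7 167, 99), (.hz 7 111, 662)])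
(.haz 2 19 21 40
(.haz 4 111 1 20
(.haz 3 23 11 40
(.ask 167
(.mark 175 [4, 6, 8]
(.spn
(.ask 19
(.mark 191 [6, 8, 9]
(.lp [[3, 6], [1, 4, 9], [0, 2, 5, 7, 8]] [(.mj 2 3, 2039), (.mj 3 5, 2039), (.mj 4 6, 262), (.mj 7 4, 323), (.rw 6, 1), (.hz 10 23, 90464), (.hz 8 531, 73555), (.hz 6 535, 341690)]))
(.ask 23
(.mark 191 [6, 8, 9]
(.lp [[3, 6], [1, 4, 9], [0, 2, 5, 7, 8]] [(.mj 2 3, 2118), (.mj 3 5, 2293), (.mj 4 6, 113), (.mj 7 4, 56), (.mj 7 6, 175), (.rw 6, 1), (.hz 7 7, 109429), (.hz 6 535, 372819), (.hz 6 543, 23060)]))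
(.haz 4 79 1 10
(.lp [[1, 4], [3, 6], [0, 2, 5, 7, 8]] [(.mj 2 3, 141656), (.mj 3 5, 132485), (.mj 4 6, 4779), (.mj 7 4, 32642), (.rw 6, 52), (.hz 11 79, 58751339), (.hz 11 111, 88529789)])
(.lp [[1, 4], [3, 6], [0, 2, 5, 7, 8]] [(.mj 2 3, 18421), (.mj 3 5, 13751), (.mj 4 6, 512), (.rw 6, 1), (.hz 11 15, 2688736), (.hz 9 111, 2127907)]))))
(.maj 4 8
(.cut 4 [(0, 1), (1, 1), (2, 1), (3, 1), (5, 1), (9, 1), (7, 1), (11, 1), (13, 1), (15, 1), (39, 1), (47, 1), (167, 1), (175, 1)]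
(.lp [[1, 4], [3, 6], [0, 2, 5, 7, 8]] [(.mj 7 6, 5880), (.rw 6, 6), (.rw 7, 10)]))
(.cut 4 [(0, 1), (1, 1), (2, 1), (3, 1), (5, 1), (9, 1), (7, 1), (11, 1), (13, 1), (15, 1), (39, 1), (75, 1), (47, 1), (79, 1), (111, 1)]
(.cut 4 [(0, 1), (1, 1), (2, 1), (3, 1), (5, 1), (9, 1), (7, 1), (11, 1), (13, 1), (15, 1), (39, 1), (47, 1)]
(.cut 4 [(0, 1), (1, 1), (2, 1), (3, 1), (5, 1), (9, 1), (7, 1), (11, 1), (13, 1), (15, 1), (39, 1), (75, 1), (47, 1), (79, 2), (167, 1), (111, 1), (175, 1)]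
(.cut 4 [(0, 1), (1, 1), (2, 1), (3, 1), (5, 1), (9, 1), (7, 1), (11, 1), (13, 1), (15, 1), (39, 1), (47, 1), (167, 1), (175, 1)]
(.lp [[1, 4], [3, 6], [0, 2, 5, 7, 8]] [(.mj 3 5, 3797), (.mj 6 4, 3733), (.mj 6 8, 9602), (.mj 7 6, 17448), (.mj 8 4, 7879), (.hz 8 91, 537397), (.rw 7, 1), (.rw 8, 3), (.rw 9, 2), (.rw 10, 27)]))))))
(.maj 4 6
(.cut 4 [(0, 1), (1, 1), (2, 1), (3, 1), (5, 1), (9, 1), (7, 1), (11, 1), (13, 1), (15, 1), (39, 1), (47, 1), (167, 1), (175, 1)]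
(.cut 6 [(0, 1), (1, 1), (2, 1), (3, 1), (5, 1), (9, 1), (7, 1), (11, 1), (13, 1), (19, 1), (15, 1), (23, 1), (27, 1), (39, 1), (31, 2), (47, 1), (55, 1), (167, 1), (63, 1), (183, 1), (423, 1), (439, 1)]
(.lp [[1, 4], [3, 6], [0, 2, 5, 7, 8]] [(.mj 2 3, 202480), (.mj 3 5, 153394), (.mj 8 4, 80919), (.hz 3 19, 86233063), (.hz 10 23, 11759054), (.hz 9 111, 169046798), (.hz 9 239, 192706411), (.rw 7, 223), (.rw 8, 13)])))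
(.cut 4 [(0, 1), (1, 1), (2, 1), (3, 1), (5, 1), (9, 1), (7, 1), (11, 1), (13, 1), (15, 1), (39, 1), (47, 1)]
(.cut 4 [(0, 1), (1, 1), (2, 1), (3, 1), (5, 1), (9, 1), (7, 1), (11, 1), (13, 1), (15, 1), (39, 1), (75, 1), (47, 1), (79, 2), (167, 1), (111, 1), (175, 1)]
(.cut 6 [(0, 1), (1, 1), (2, 1), (3, 1), (5, 1), (9, 1), (7, 1), (11, 1), (13, 1), (15, 1), (39, 1), (47, 1), (167, 1), (423, 1)]
(.cut 4 [(0, 1), (1, 1), (2, 1), (3, 1), (5, 1), (9, 1), (7, 1), (11, 1), (13, 1), (15, 1), (39, 1), (47, 1), (167, 1), (175, 1)]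
(.lp [[1, 4], [3, 6], [0, 2, 5, 7, 8]] [(.mj 2 3, 57787), (.mj 3 5, 141566), (.mj 6 4, 41264), (.mj 8 6, 51770), (.hz 8 19, 2814279), (.hz 6 23, 11836525), (.hz 6 95, 15200117), (.hz 9 495, 52704065), (.rw 7, 58), (.rw 8, 7), (.rw 9, 33), (.rw 10, 38)]))))))
.fin))
(.ask 175
(.mark 175 [4, 6, 8]
(.spn
(.haz 6 175 3 20
(.lp [[1, 4], [3, 6], [0, 2, 5, 7, 8]] [(.mj 2 3, 6), (.mj 3 5, 10), (.mj 4 6, 33), (.mj 4 8, 18), (.mj 7 4, 36), (.hz 11 175, 1646), (.hz 11 191, 48966), (.hz 11 431, 34240)])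
(.haz 8 239 7 20
(.lp [[1, 4], [3, 6], [0, 2, 5, 7, 8]] [(.mj 3 5, 8), (.mj 4 8, 10), (.mj 7 4, 12), (.hz 11 11, 1160), (.hz 11 15, 3297), (.hz 11 47, 3256), (.hz 9 111, 15938), (.hz 11 175, 439), (.hz 12 239, 11280)])
(.lp [[1, 4], [3, 6], [0, 2, 5, 7, 8]] [(.mj 3 5, 1), (.mj 7 4, 1), (.hz 11 11, 83), (.hz 11 15, 235), (.hz 11 47, 266), (.hz 11 175, 513), (.hz 12 175, 513)])))
(.maj 4 8
(.cut 4 [(0, 1), (1, 1), (2, 1), (3, 1), (5, 1), (9, 1), (7, 1), (11, 1), (13, 1), (15, 1), (39, 1), (75, 1), (47, 1), (79, 1), (167, 1), (175, 1)]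
(.cut 4 [(0, 1), (1, 1), (2, 1), (3, 1), (5, 1), (9, 1), (7, 1), (11, 1), (13, 1), (15, 1), (39, 1), (75, 2), (47, 1), (79, 2), (167, 1), (111, 1), (175, 1)]
(.lp [[1, 4], [3, 6], [0, 2, 5, 7, 8]] [(.mj 7 6, 42104), (.rw 6, 44), (.hz 9 111, 30603929), (.rw 7, 26), (.rw 8, 28)])))
(.cut 4 [(0, 1), (1, 1), (2, 1), (3, 1), (5, 1), (9, 1), (7, 1), (11, 1), (13, 1), (15, 1), (39, 1), (47, 1), (167, 1), (175, 1)]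
(.lp [[1, 4], [3, 6], [0, 2, 5, 7, 8]] [(.mj 6 4, 214), (.mj 6 8, 723), (.mj 7 6, 1184), (.mj 8 4, 510), (.hz 8 91, 42327), (.rw 7, 2)])))
(.ask 431
(.mark 431 [4, 6, 9]
(.spn
(.lp [[1, 4], [3, 6], [0, 2, 5, 7, 8, 9]] [(.mj 8 4, 167), (.rw 7, 1)])
(.lp [[1, 4], [3, 6], [0, 2, 5, 7, 8, 9]] [(.mj 8 6, 2464), (.rw 7, 4)])
(.maj 4 6
(.cut 4 [(0, 1), (1, 1), (2, 1), (3, 1), (5, 1), (9, 1), (7, 1), (11, 1), (13, 1), (15, 1), (39, 1), (47, 1)]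
(.cut 6 [(0, 1), (1, 1), (2, 1), (3, 1), (5, 1), (9, 1), (7, 1), (11, 1), (13, 1), (19, 1), (15, 1), (23, 1), (39, 1), (55, 1), (167, 1)]
(.cut 4 [(0, 1), (1, 1), (2, 1), (3, 1), (5, 1), (9, 1), (7, 1), (11, 1), (13, 1), (15, 1), (39, 1), (47, 1), (167, 1), (175, 1)]
(.lp [[1, 4], [3, 6], [0, 2, 5, 7, 8, 9]] [(.mj 2 3, 49249), (.mj 3 5, 40294), (.mj 9 4, 47458), (.hz 9 111, 127598719), (.hz 9 239, 30220749), (.rw 8, 92), (.rw 9, 10), (.rw 10, 62)]))))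
(.cut 4 [(0, 1), (1, 1), (2, 1), (3, 1), (5, 1), (9, 1), (7, 1), (11, 1), (13, 1), (15, 1), (39, 1), (47, 1)]
(.cut 4 [(0, 1), (1, 1), (2, 1), (3, 1), (5, 1), (9, 1), (7, 1), (11, 1), (13, 1), (15, 1), (39, 1), (75, 1), (47, 1), (79, 1), (167, 1), (175, 1)]
(.cut 6 [(0, 1), (1, 1), (2, 1), (3, 1), (5, 1), (9, 1), (7, 1), (11, 1), (13, 1), (15, 1), (39, 1), (47, 1), (167, 1), (175, 1)]
(.lp [[1, 4], [3, 6], [0, 2, 5, 7, 8, 9]] [(.mj 3 5, 30398), (.mj 9 6, 15018), (.rw 7, 8), (.hz 8 91, 1674801), (.hz 6 95, 5224655), (.hz 9 239, 51413454), (.hz 9 495, 35668003), (.rw 8, 37), (.rw 9, 9), (.rw 10, 60)])))))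
.fin))
(.lp [[1, 4], [3, 6], [0, 2, 5, 7, 8]] [(.mj 8 6, 1), (.rw 6, 1)]))
.fin))
(.lp [[1, 4], [3, 6], [0, 2, 5, 7]] [(.mj 7 4, 1), (.mj 7 6, 1), (.hz 9 111, 2966)])))
(.lp [[1, 4], [3, 6], [0, 2, 5, 7]] [(.mj 3 5, 2), (.hz 10 3, 59), (.hz 7 3, 95), (.hz 10 7, 121), (.hz 7 7, 56), (.hz 6 23, 161)]))
(.cut 4 [(0, 1), (1, 1), (2, 1), (3, 1), (5, 1), (9, 1), (7, 1), (11, 1), (13, 1), (15, 1), (39, 1), (47, 1)]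
(.lp [[1, 4], [3, 6], [0, 2, 5, 7]] [(.mj 2 3, 77), (.mj 3 5, 56), (.hz 9 3, 192150), (.hz 9 11, 39132), (.rw 6, 1)])))
(.lp [[1, 4], [3, 6], [0, 2, 5, 7]] [(.mj 2 3, 9), (.mj 3 5, 1), (.hz 8 3, 387), (.hz 7 3, 607), (.hz 7 7, 16), (.hz 3 19, 2205), (.hz 6 23, 46)])))
(.cut 4 [(0, 1), (1, 1), (2, 1), (3, 1), (5, 1), (9, 1), (7, 1), (11, 1), (13, 1), (15, 1), (39, 1), (47, 1)]
(.lp [[1, 4], [3, 6], [0, 2, 5, 7]] [(.mj 2 3, 4446), (.mj 7 4, 2296), (.mj 7 6, 539), (.hz 6 7, 362480), (.hz 3 19, 3336109), (.hz 3 23, 814573), (.hz 5 23, 320267), (.rw 6, 1)])))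

theorem run22 : run P3488 (leaf3 218 625) (cutRow P3488) [] t22 s22 = true := by
  decide +kernel

theorem bad22 : Bad P3488 s22 :=
  run_sound (leaf3_sound P3488 rfl rfl) (cutRow_sound P3488) (
    fun _ h => absurd h List.not_mem_nil) t22 s22 run22

/-- the state above piece 268 of the tree -/
def s268 : St := ⟨[0, 0, 1, 5, 5], [1, 0], [0, 2],
  [(3, 1)],
  [],
  [.spn 0 0 651200, .spn 1 2 651200]⟩

/-- piece 268 of the tree -/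
noncomputable def t268 : WN.Tree :=
(.mark 5 [1, 3, 4]
(.spn
(.con 1 3)
(.ask 13
(.mark 13 [1, 4, 5]
(.spn
(.lp [[1], [4], [0, 2, 3, 5]] [(.mj 3 1, 627), (.rw 3, 1)])
(.haz 1 61 2 25
(.haz 4 45 9 50
(.maj 1 5
(.haz 5 29 7 20
(.haz 5 29 3 8
(.cut 1 [(0, 1), (1, 1), (5, 1), (13, 1)]
(.lp [[1], [4], [0, 2, 3, 5]] [(.mj 1 5, 738), (.mj 3 4, 922), (.mj 4 1, 738), (.hz 3 29, 115250), (.hz 3 31, 57625), (.rw 4, 1)]))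
(.cut 1 [(0, 1), (1, 1), (5, 1), (13, 1)]
(.lp [[1], [4], [0, 2, 3, 5]] [(.mj 3 4, 5821), (.mj 4 1, 2575), (.hz 3 13, 279868), (.hz 2 31, 80462), (.rw 4, 7)])))
(.cut 1 [(0, 1), (1, 1), (5, 1), (13, 1)]
(.lp [[1], [4], [0, 2, 3, 5]] [(.mj 3 4, 3634), (.mj 4 1, 1627), (.hz 2 13, 67934), (.hz 1 45, 1627), (.hz 0 61, 40667), (.rw 4, 4)])))
(.haz 1 29 3 40
(.haz 0 2 4 5
(.ask 21
(.mark 29 [1, 5, 6]
(.spn
(.con 1 5)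
(.ask 45
(.mark 61 [1, 6, 7]
(.spn
(.lp [[1], [4, 6], [0, 2, 3, 5, 7]] [(.mj 3 4, 524), (.mj 4 5, 513), (.mj 5 1, 432), (.rw 5, 1), (.hz 2 93, 51578), (.hz 0 125, 80727), (.hz 0 189, 55340)])
(.cut 1 [(0, 1), (1, 1), (5, 1), (13, 1), (21, 1), (29, 1), (45, 1), (61, 1)]
(.lp [[1], [4, 6], [0, 2, 3, 5, 7]] [(.mj 3 4, 592), (.mj 4 5, 353), (.mj 6 1, 355), (.hz 1 173, 142), (.hz 0 189, 40938), (.rw 6, 1)]))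
(.cut 1 [(0, 1), (1, 1), (5, 1), (13, 1), (21, 1), (29, 1), (45, 1), (61, 1)]
(.lp [[1], [4, 6], [0, 2, 3, 5, 7]] [(.mj 3 4, 797), (.mj 4 5, 679), (.mj 7 1, 539), (.hz 2 93, 4593), (.hz 0 125, 43827), (.rw 6, 2)]))
.fin))
(.ask 61
(.mark 61 [1, 6, 7]
(.spn
(.lp [[1], [4, 6], [0, 2, 3, 5, 7]] [(.mj 1 7, 305), (.mj 3 4, 825), (.mj 5 1, 724), (.rw 5, 1), (.hz 2 93, 18418), (.hz 0 125, 285486)])
(.lp [[1], [4, 6], [0, 2, 3, 5, 7]] [(.mj 3 4, 3), (.mj 6 1, 2), (.hz 2 29, 240), (.hz 0 61, 108), (.hz 0 125, 322), (.hz 0 189, 282)])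
(.cut 1 [(0, 1), (1, 1), (5, 1), (13, 1), (21, 1), (29, 1), (45, 1), (61, 1)]
(.cut 6 [(0, 1), (1, 1), (2, 1), (3, 1), (5, 1), (7, 1), (13, 1), (21, 1), (15, 1), (45, 1), (47, 1)]
(.lp [[1], [4, 6], [0, 2, 3, 5, 7]] [(.mj 3 4, 4578), (.mj 7 1, 3545), (.hz 0 125, 461535), (.rw 6, 13), (.rw 7, 1)])))
.fin))
(.lp [[1], [4, 6], [0, 2, 3, 5]] [(.mj 3 4, 3), (.mj 4 1, 2), (.hz 2 29, 105), (.hz 0 125, 304)])))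
(.lp [[1], [4, 6], [0, 2, 3, 5]] [(.mj 3 4, 3), (.mj 5 1, 3), (.mj 6 5, 2), (.hz 2 29, 236), (.hz 1 45, 56), (.hz 0 61, 695), (.hz 2 93, 350)])
.fin))
(.haz 5 29 3 10
(.ask 29
(.mark 29 [1, 5, 6]
(.spn
(.con 1 5)
(.ask 45
(.mark 61 [1, 6, 7]
(.spn
(.lp [[1], [4, 6], [0, 2, 3, 5, 7]] [(.mj 4 5, 185), (.mj 5 1, 789), (.rw 5, 2), (.hz 2 93, 66221), (.hz 0 125, 91105), (.hz 0 189, 82879)])
(.cut 1 [(0, 1), (1, 1), (5, 1), (13, 1), (21, 1), (29, 1), (45, 1), (61, 1)]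
(.lp [[1], [4, 6], [0, 2, 3, 5, 7]] [(.mj 5 6, 25), (.mj 6 1, 313), (.hz 0 61, 13473), (.hz 1 173, 1282), (.hz 0 189, 35867), (.rw 6, 1)]))
(.lp [[1], [4, 6], [0, 2, 3, 5, 7]] [(.mj 4 5, 88), (.mj 7 1, 65), (.mj 7 6, 32), (.hz 0 61, 14378), (.hz 2 93, 7018), (.hz 4 93, 6708), (.hz 0 125, 22483), (.hz 0 189, 11606)])
.fin))
(.ask 61
(.mark 61 [1, 6, 7]
(.spn
(.haz 7 125 3 10
(.lp [[1], [4, 6], [0, 2, 3, 5, 7]] [(.mj 1 7, 477), (.mj 3 4, 1737), (.mj 5 1, 1320), (.rw 5, 2), (.hz 2 93, 78325), (.hz 0 125, 223785), (.hz 5 125, 149190)])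
(.lp [[1], [4, 6], [0, 2, 3, 5, 7]] [(.mj 1 6, 1), (.mj 5 1, 1), (.hz 5 61, 229)]))
(.lp [[1], [4, 6], [0, 2, 3, 5, 7]] [(.mj 3 4, 8), (.mj 6 1, 5), (.hz 2 29, 715), (.hz 0 61, 323), (.hz 0 125, 48), (.hz 0 189, 462)])
(.cut 1 [(0, 1), (1, 1), (5, 1), (13, 1), (21, 1), (29, 1), (45, 1), (61, 1)]
(.lp [[1], [4, 6], [0, 2, 3, 5, 7]] [(.mj 7 1, 1100), (.rw 6, 4)]))
.fin))
(.lp [[1], [4, 6], [0, 2, 3, 5]] [(.mj 3 4, 10), (.mj 5 1, 8), (.hz 2 29, 1055), (.hz 2 93, 380)])))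
(.lp [[1], [4, 6], [0, 2, 3, 5]] [(.mj 3 4, 1663), (.rw 4, 1), (.hz 2 29, 158019), (.hz 4 29, 216237)])
.fin))
(.spn
(.con 1 5)
(.ask 45
(.mark 45 [1, 4, 6]
(.ask 61
(.mark 61 [1, 6, 7]
(.spn
(.lp [[1], [4, 7], [0, 2, 3, 5, 6]] [(.mj 1 7, 341), (.mj 4 5, 1299), (.mj 5 1, 774), (.rw 5, 1), (.hz 0 125, 156089)])
(.lp [[1], [4, 7], [0, 2, 3, 5, 6]] [(.mj 4 5, 4), (.mj 6 1, 3), (.hz 0 61, 632), (.hz 0 125, 510), (.hz 0 189, 414)])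
(.cut 1 [(0, 1), (1, 1), (5, 1), (13, 1), (21, 1), (29, 1)]
(.lp [[1], [4, 7], [0, 2, 3, 5, 6]] [(.mj 4 5, 84), (.mj 7 1, 280), (.hz 0 125, 20979), (.rw 6, 1)]))
.fin))
(.lp [[1], [4], [0, 2, 3, 5, 6]] [(.mj 4 5, 1), (.mj 5 1, 1), (.hz 0 61, 111), (.hz 0 125, 143)])))
(.ask 61
(.maj 1 6
(.ask 61
(.mark 61 [1, 6, 7]
(.spn
(.haz 7 125 1 5
(.lp [[1], [4, 7], [0, 2, 3, 5, 6]] [(.mj 1 6, 5), (.mj 5 1, 8), (.mj 6 7, 4), (.hz 5 125, 1931), (.hz 0 189, 1879)])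
(.lp [[1], [4, 7], [0, 2, 3, 5, 6]] [(.mj 1 6, 1), (.mj 5 1, 1), (.hz 5 61, 335)]))
(.con 6 1)
(.con 7 6)
.fin))
(.lp [[1], [4], [0, 2, 3, 5, 6]] [(.mj 1 6, 1), (.mj 5 1, 1)]))
(.cut 1 [(0, 1)]
(.lp [[1], [4], [0, 2, 3, 5, 6]] [(.mj 6 1, 8740), (.hz 2 29, 656106), (.hz 0 61, 1141053), (.rw 5, 8)])))
(.lp [[1], [4], [0, 2, 3, 5]] [(.mj 5 1, 1)])))
.fin
.fin))
(.lp [[1], [4], [0, 2, 3, 5]] [(.mj 3 4, 26), (.mj 5 1, 17), (.hz 4 13, 1353), (.hz 2 29, 2251)])))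
(.cut 1 [(0, 1)]
(.cut 1 [(0, 1), (1, 1)]
(.lp [[1], [4], [0, 2, 3, 5]] [(.mj 5 1, 6772), (.rw 3, 1), (.hz 3 0, 846558), (.hz 2 29, 421777), (.hz 1 45, 6676), (.hz 0 61, 166908), (.rw 4, 4), (.rw 5, 4)]))))
(.cut 1 [(0, 1)]
(.cut 1 [(0, 1), (1, 1)]
(.cut 1 [(0, 1), (1, 1), (5, 1)]
(.lp [[1], [4], [0, 2, 3, 5]] [(.hz 2 13, 580323), (.hz 2 21, 580323), (.rw 4, 3), (.rw 5, 2), (.rw 6, 23)]))))))
(.lp [[1], [4], [0, 2, 3, 5]] [(.mj 4 1, 84), (.mj 4 5, 335), (.rw 3, 1), (.hz 1 13, 23241)]))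
(.cut 1 [(0, 1)]
(.cut 1 [(0, 1), (1, 1)]
(.cut 1 [(0, 1), (1, 1), (5, 1)]
(.cut 1 [(0, 1), (1, 1), (5, 1), (13, 1)]
(.lp [[1], [4], [0, 2, 3, 5]] [(.mj 3 4, 531), (.hz 0 21, 2737776), (.hz 0 29, 2571850), (.hz 0 45, 2571850), (.rw 4, 10), (.rw 5, 5), (.rw 6, 5), (.rw 7, 64)]))))))
(.haz 1 61 3 50
(.ask 45
(.mark 45 [1, 4, 6]
(.spn
(.lp [[1], [4], [0, 2, 3, 5, 6]] [(.mj 5 1, 213), (.rw 4, 1)])
(.lp [[1], [4], [0, 2, 3, 5, 6]] [(.mj 5 4, 1239), (.rw 4, 2), (.hz 0 61, 154843)])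
(.maj 1 4
(.cut 1 [(0, 1), (1, 1), (5, 1), (13, 1), (45, 1)]
(.cut 4 [(0, 1), (1, 1), (2, 1), (3, 1), (5, 1), (13, 1)]
(.lp [[1], [4], [0, 2, 3, 5, 6]] [(.mj 6 1, 3506), (.hz 0 61, 636216), (.rw 5, 11), (.rw 6, 2)])))
(.ask 109
(.mark 109 [1, 4, 7]
(.spn
(.con 1 4)
(.lp [[1], [4], [0, 2, 3, 5, 6, 7]] [(.mj 6 4, 627), (.rw 5, 1)])
(.cut 1 [(0, 1)]
(.cut 1 [(0, 1), (1, 1)]
(.cut 1 [(0, 1), (1, 1), (5, 1)]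
(.cut 1 [(0, 1), (1, 1), (5, 1), (13, 1)]
(.cut 4 [(0, 1), (1, 1), (5, 1), (13, 1), (45, 1), (109, 1)]
(.lp [[1], [4], [0, 2, 3, 5, 6, 7]] [(.mj 7 4, 381), (.rw 5, 1), (.hz 0 61, 151991), (.hz 0 125, 161693), (.hz 0 253, 19050), (.rw 6, 2), (.rw 7, 1), (.rw 8, 1), (.rw 9, 1), (.rw 10, 6)]))))))
.fin))
(.lp [[1], [4], [0, 2, 3, 5, 6]] [(.mj 6 4, 1), (.rw 4, 1)])))
.fin))
(.lp [[1], [4], [0, 2, 3, 5]] [(.mj 5 4, 1), (.rw 3, 1)]))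
(.cut 1 [(0, 1)]
(.lp [[1], [4], [0, 2, 3, 5]] [(.hz 0 1, 38930), (.rw 4, 2)])))
.fin))
(.spn
(.lp [[1], [4], [0, 2, 3]] [(.mj 3 1, 1), (.rw 3, 1)])
(.cut 1 [(0, 1), (1, 1), (5, 1), (13, 1)]
(.lp [[1], [4], [0, 2, 3]] [(.mj 3 4, 162), (.rw 2, 1), (.rw 4, 1)]))
.fin
.fin))
(.con 4 3)
.fin))

theorem run268 : run P3488 (leaf3 218 625) (cutRow P3488) [] t268 s268 = true := by
  decide +kernel

theorem bad268 : Bad P3488 s268 :=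
  run_sound (leaf3_sound P3488 rfl rfl) (cutRow_sound P3488) (
    fun _ h => absurd h List.not_mem_nil) t268 s268 run268

/-- the state above piece 143 of the tree -/
def s143 : St := ⟨[0, 0, 1, 3, 5, 15, 15, 47, 21, 287], [175, 319, 279, 277, 63, 31, 15, 11, 7, 5, 3, 2, 1, 0], [0, 1, 2, 3, 4, 5, 8, 7],
  [(4, 5)],
  [⟨true, 2, 3, 3, 10⟩, ⟨true, 1, 5, 2, 5⟩, ⟨true, 2, 3, 23, 50⟩, ⟨true, 1, 5, 12, 25⟩, ⟨true, 1, 21, 27, 50⟩, ⟨true, 4, 15, 9, 40⟩, ⟨true, 3, 23, 11, 20⟩, ⟨true, 1, 21, 29, 50⟩, ⟨true, 4, 79, 11, 40⟩, ⟨true, 4, 175, 11, 40⟩, ⟨true, 4, 175, 3, 10⟩, ⟨true, 6, 175, 1, 40⟩, ⟨true, 8, 191, 1, 4⟩, ⟨true, 6, 287, 3, 50⟩, ⟨true, 4, 79, 9, 25⟩, ⟨false, 6, 47, 4, 25⟩, ⟨true, 5, 79, 8, 25⟩],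
  [.spn 0 0 651200, .spn 1 1 302400, .spn 3 2 302400, .spn 7 3 302400, .spn 15 4 140426, .spn 31 5 140426, .spn 63 8 140426, .spn 319 7 140426]⟩

/-- piece 143 of the tree -/
noncomputable def t143 : WN.Tree :=
(.haz 5 799 1 4
(.haz 5 799 7 20
(.haz 5 799 2 5
(.ask 191
(.mark 447 [6, 9, 10]
(.spn
(.ask 79
(.mark 511 [9, 10, 11]
(.lp [[6, 11], [0, 2, 4, 8, 9], [1, 3, 5, 7, 10]] [(.mj 3 4, 1951), (.mj 6 9, 83), (.mj 7 6, 900), (.mj 8 7, 991), (.rw 8, 2), (.hz 15 47, 23220), (.hz 14 2127, 97181), (.hz 13 799, 430072), (.hz 14 2159, 140181), (.hz 13 831, 255558)]))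
(.ask 111
(.mark 511 [9, 10, 11]
(.lp [[6, 11], [0, 2, 4, 8, 9], [1, 3, 5, 7, 10]] [(.mj 3 4, 2886), (.mj 6 9, 84), (.mj 7 6, 622), (.mj 8 7, 1377), (.rw 8, 2), (.hz 15 47, 346944)]))
(.ask 239
(.mark 511 [9, 10, 11]
(.lp [[6, 11], [0, 2, 4, 8, 9], [1, 3, 5, 7, 10]] [(.mj 3 4, 12), (.mj 5 8, 12), (.mj 7 6, 2), (.mj 8 7, 12)]))
(.ask 95
(.mark 511 [9, 10, 11]
(.lp [[6, 11], [0, 2, 4, 8, 9], [1, 3, 5, 7, 10]] [(.mj 3 4, 1558), (.mj 6 9, 39), (.mj 7 6, 290), (.mj 8 6, 206), (.mj 8 7, 625), (.rw 8, 1)]))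
(.ask 127
(.mark 511 [9, 10, 11]
(.lp [[6, 11], [0, 2, 4, 8, 9], [1, 3, 5, 7, 10]] [(.mj 3 4, 1360), (.mj 6 9, 34), (.mj 7 6, 257), (.mj 8 6, 203), (.mj 8 7, 545), (.rw 8, 1)]))
(.lp [[6], [0, 2, 4, 8, 9], [1, 3, 5, 7, 10]] [(.mj 3 4, 26479), (.mj 7 6, 3898), (.mj 8 7, 8772), (.rw 8, 2)]))))))
(.maj 6 10
(.haz 10 447 17 40
(.cut 6 [(0, 1), (1, 1), (2, 1), (3, 1), (5, 1), (7, 1), (11, 1), (21, 1), (15, 1), (23, 1), (277, 1), (31, 1), (47, 1), (279, 1), (63, 1), (175, 1), (287, 1), (191, 1), (319, 1), (447, 1)]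
(.lp [[6], [0, 2, 4, 8, 9], [1, 3, 5, 7, 10]] [(.mj 5 8, 291), (.mj 6 10, 772), (.mj 7 9, 578), (.mj 9 6, 772), (.hz 20 447, 110686), (.hz 20 511, 1903202), (.hz 20 959, 1073684), (.rw 9, 1)]))
(.cut 6 [(0, 1), (1, 1), (2, 1), (3, 1), (5, 1), (7, 1), (11, 1), (21, 1), (15, 1), (23, 1), (277, 1), (31, 1), (47, 1), (279, 1), (63, 1), (175, 1), (287, 1), (191, 1), (319, 1), (447, 1)]
(.lp [[6], [0, 2, 4, 8, 9], [1, 3, 5, 7, 10]] [(.mj 3 4, 310190), (.mj 8 7, 30017), (.mj 9 6, 87057), (.hz 14 79, 16968832), (.hz 14 111, 16968832), (.hz 20 191, 20965385), (.hz 13 1471, 232346048), (.rw 9, 131)])))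
(.cut 6 [(0, 1), (1, 1), (2, 1), (3, 1), (5, 1), (7, 1), (11, 1), (21, 1), (15, 1), (23, 1), (277, 1), (31, 1), (47, 1), (279, 1), (63, 1), (175, 1), (287, 1), (191, 1), (319, 1), (447, 1)]
(.lp [[6], [0, 2, 4, 8, 9], [1, 3, 5, 7, 10]] [(.mj 3 4, 1035), (.mj 5 8, 196), (.mj 8 7, 375), (.mj 9 10, 58), (.mj 10 6, 488), (.hz 14 79, 56606), (.hz 14 111, 56606), (.hz 13 447, 83407), (.hz 19 863, 38741), (.hz 13 959, 376667), (.rw 9, 1)])))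
(.haz 9 447 7 40
(.cut 6 [(0, 1), (1, 1), (2, 1), (3, 1), (5, 1), (7, 1), (11, 1), (21, 1), (15, 1), (23, 1), (277, 1), (31, 1), (47, 1), (279, 1), (63, 1), (175, 1), (287, 1), (191, 1), (319, 1), (447, 1)]
(.lp [[6], [0, 2, 4, 8, 9], [1, 3, 5, 7, 10]] [(.mj 8 7, 2536), (.mj 10 6, 1715), (.mj 10 9, 1715), (.hz 13 447, 160416), (.hz 20 447, 1432116), (.hz 19 863, 6192595), (.hz 13 959, 5554126), (.rw 9, 4)]))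
(.lp [[6], [0, 2, 4, 8, 9], [1, 3, 5, 7, 10]] [(.mj 3 4, 1), (.mj 8 7, 7), (.mj 10 6, 5), (.hz 20 287, 974), (.hz 20 319, 2222), (.hz 13 799, 941), (.hz 13 447, 8413), (.hz 20 447, 1271), (.hz 13 831, 2561), (.hz 13 1471, 7151)]))
.fin))
(.ask 447
(.mark 447 [6, 9, 10]
(.spn
(.haz 10 959 8 25
(.ask 799
(.mark 959 [6, 10, 11]
(.lp [[6], [1, 3, 5, 7, 10], [0, 2, 4, 8, 9, 11]] [(.mj 3 4, 20039), (.mj 6 9, 7), (.mj 6 10, 5538), (.mj 7 6, 9443), (.mj 8 7, 2215), (.rw 8, 1), (.hz 15 47, 1802092), (.hz 14 79, 1215974), (.hz 13 799, 3493964), (.hz 13 831, 5149328), (.hz 13 2847, 1970636), (.hz 20 959, 5905833), (.hz 13 2879, 9822178), (.hz 20 3007, 20074707)]))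
(.haz 9 447 9 50
(.ask 1471
(.mark 1471 [6, 9, 11]
(.ask 3519
(.mark 3519 [6, 9, 12]
(.lp [[6], [0, 2, 4, 8, 9], [1, 3, 5, 7, 10, 11, 12]] [(.mj 3 4, 176), (.mj 6 9, 182), (.mj 6 10, 75), (.mj 7 6, 273), (.mj 8 7, 76), (.hz 15 47, 8269), (.hz 21 511, 350806), (.hz 21 1471, 154727), (.hz 21 1535, 19194), (.hz 21 3519, 87437), (.hz 21 3583, 1), (.hz 21 7615, 106630)]))
(.lp [[6], [0, 2, 4, 8, 9], [1, 3, 5, 7, 10, 11]] [(.mj 3 4, 6), (.mj 6 9, 3), (.mj 7 6, 6), (.mj 8 7, 2), (.hz 21 511, 10901), (.hz 21 1535, 1839)])))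
(.lp [[6], [0, 2, 4, 8, 9], [1, 3, 5, 7, 10]] [(.mj 6 9, 6), (.mj 7 6, 11)]))
(.lp [[6], [0, 2, 4, 8, 9], [1, 3, 5, 7, 10]] [(.mj 3 4, 8), (.mj 6 10, 29), (.mj 7 6, 36), (.mj 8 7, 29), (.hz 21 319, 18693), (.hz 13 799, 2316), (.hz 21 447, 6662), (.hz 13 831, 18770), (.hz 20 959, 64034)])))
(.lp [[6], [0, 2, 4, 8, 9], [1, 3, 5, 7, 10]] [(.mj 3 4, 13), (.mj 6 9, 10), (.mj 7 6, 15), (.mj 8 7, 5), (.hz 13 799, 5541), (.hz 20 447, 14791), (.hz 13 831, 15267)]))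
(.cut 6 [(0, 1), (1, 1), (2, 1), (3, 1), (5, 1), (7, 1), (11, 1), (21, 1), (15, 1), (23, 1), (277, 1), (31, 1), (47, 1), (279, 1), (63, 1), (175, 1), (287, 1), (191, 1), (319, 1), (799, 1), (447, 1), (831, 1)]
(.lp [[6], [0, 2, 4, 8, 9], [1, 3, 5, 7, 10]] [(.mj 3 4, 21644), (.mj 8 7, 451), (.mj 9 6, 6438), (.mj 9 10, 1021), (.hz 15 47, 217546), (.hz 14 79, 1313333), (.hz 13 287, 1886170), (.hz 14 111, 805726), (.hz 13 319, 2435142), (.hz 13 799, 808025), (.hz 14 239, 940467), (.hz 13 447, 1684573), (.hz 13 1471, 6500788), (.rw 9, 1)]))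
(.ask 1471
(.mark 1471 [6, 9, 11]
(.spn
(.lp [[6], [0, 2, 4, 8, 9], [1, 3, 5, 7, 10, 11]] [(.mj 10 6, 159), (.rw 9, 1)])
(.lp [[6], [0, 2, 4, 8, 9], [1, 3, 5, 7, 10, 11]] [(.mj 3 4, 54834), (.mj 8 7, 720), (.rw 8, 8), (.rw 9, 23), (.hz 14 79, 3738946), (.hz 13 287, 4918703), (.hz 14 111, 2392926), (.hz 13 319, 6505496), (.hz 13 799, 5232663), (.hz 14 239, 2315621), (.hz 13 447, 7788471), (.hz 13 831, 12487404), (.hz 13 959, 21570079)])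
(.cut 6 [(0, 1), (1, 1), (2, 1), (3, 1), (5, 1), (7, 1), (11, 1), (21, 1), (15, 1), (23, 1), (277, 1), (31, 1), (47, 1), (279, 1), (63, 1), (175, 1), (287, 1), (191, 1), (319, 1), (799, 1), (447, 1)]
(.cut 6 [(0, 1), (1, 1), (2, 1), (3, 1), (5, 1), (7, 1), (11, 1), (21, 1), (15, 1), (23, 1), (277, 1), (31, 1), (47, 1), (279, 1), (63, 1), (287, 1), (319, 1)]
(.cut 6 [(0, 1), (1, 1), (2, 1), (3, 1), (5, 1), (7, 1), (11, 1), (21, 1), (15, 1), (23, 1), (277, 1), (31, 1), (47, 1), (279, 1), (63, 1), (175, 1), (287, 1), (191, 1), (319, 1), (447, 1)]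
(.lp [[6], [0, 2, 4, 8, 9], [1, 3, 5, 7, 10, 11]] [(.mj 3 4, 254044), (.mj 8 7, 81983), (.mj 11 6, 101252), (.hz 14 79, 11048120), (.hz 14 111, 11048120), (.hz 13 447, 78729020), (.rw 10, 19), (.rw 11, 133), (.rw 12, 44)]))))
.fin))
(.lp [[6], [0, 2, 4, 8, 9], [1, 3, 5, 7, 10]] [(.mj 10 9, 1), (.rw 8, 1)]))
.fin))
(.lp [[6], [1, 3, 5, 7], [0, 2, 4, 8, 9]] [(.mj 3 4, 120), (.mj 7 6, 3), (.mj 8 6, 10), (.mj 8 7, 9), (.hz 15 15, 4235), (.hz 15 47, 11239), (.hz 14 79, 2958), (.hz 13 799, 10575), (.hz 13 831, 13869)])))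
(.lp [[6], [1, 3, 5, 7], [0, 2, 4, 8, 9]] [(.mj 3 4, 2946), (.mj 8 7, 219), (.rw 6, 1), (.hz 15 15, 131994), (.hz 19 31, 1135717), (.hz 15 47, 157136), (.hz 16 95, 53036), (.hz 19 287, 3004729), (.hz 14 239, 208199)]))
(.lp [[6], [1, 3, 5, 7], [0, 2, 4, 8, 9]] [(.mj 3 4, 1907), (.rw 6, 1), (.hz 18 15, 171260), (.hz 15 15, 137008), (.hz 18 287, 611642)]))
(.lp [[6], [1, 3, 5, 7], [0, 2, 4, 8, 9]] [(.mj 3 4, 4), (.mj 8 6, 1), (.hz 17 15, 1670), (.hz 15 15, 267), (.hz 17 31, 2638), (.hz 16 95, 320)]))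

theorem run143 : run P3488 (leaf3 218 625) (cutRow P3488) [] t143 s143 = true := by
  decide +kernel

theorem bad143 : Bad P3488 s143 :=
  run_sound (leaf3_sound P3488 rfl rfl) (cutRow_sound P3488) (
    fun _ h => absurd h List.not_mem_nil) t143 s143 run143

/-- the state above piece 186 of the tree -/
def s186 : St := ⟨[0, 0, 1, 3, 5, 15, 21, 47, 47, 127, 255], [383, 319, 431, 303, 255, 191, 175, 127, 95, 87, 85, 63, 31, 23, 21, 15, 11, 7, 5, 3, 2, 1, 0], [0, 1, 2, 3, 4, 5, 6, 7, 8],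
  [(5, 6), (4, 5)],
  [⟨true, 2, 3, 3, 10⟩, ⟨true, 1, 5, 2, 5⟩, ⟨true, 2, 3, 23, 50⟩, ⟨true, 1, 5, 12, 25⟩, ⟨true, 1, 21, 27, 50⟩, ⟨true, 4, 15, 9, 40⟩, ⟨true, 3, 23, 11, 20⟩, ⟨true, 4, 47, 7, 20⟩, ⟨true, 4, 47, 17, 40⟩, ⟨true, 4, 47, 9, 20⟩, ⟨true, 4, 47, 19, 40⟩, ⟨true, 3, 87, 27, 40⟩, ⟨true, 5, 95, 1, 4⟩, ⟨true, 7, 383, 1, 20⟩, ⟨true, 6, 191, 11, 40⟩, ⟨true, 8, 255, 3, 40⟩, ⟨true, 7, 303, 3, 40⟩, ⟨true, 6, 319, 7, 20⟩, ⟨true, 8, 191, 1, 10⟩, ⟨true, 6, 319, 2, 5⟩, ⟨true, 8, 639, 1, 8⟩, ⟨true, 7, 319, 1, 5⟩, ⟨true, 7, 639, 3, 20⟩, ⟨true, 6, 191, 2, 5⟩, ⟨true, 7, 639, 9, 40⟩, ⟨true, 7, 639, 11, 40⟩, ⟨true, 6, 191, 17, 40⟩, ⟨true, 8, 255, 1, 8⟩, ⟨true, 9, 1535, 1, 10⟩, ⟨true, 9, 1279, 2, 25⟩, ⟨true, 9, 1279, 7, 50⟩, ⟨true, 9, 383, 1, 10⟩, ⟨true, 9, 383, 3, 25⟩, ⟨true, 9, 383, 7, 50⟩, ⟨true, 8, 1279, 9,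 50⟩],
  [.spn 0 0 651200, .spn 1 1 302400, .spn 3 2 302400, .spn 7 3 302400, .spn 15 4 302400, .spn 31 5 302400, .spn 63 6 140426, .spn 127 7 140426, .spn 255 8 62723]⟩

/-- piece 186 of the tree -/
noncomputable def t186 : WN.Tree :=
(.haz 10 1023 1 10
(.haz 8 767 1 4
(.ask 447
(.mark 511 [9, 10, 11]
(.spn
(.haz 9 1279 1 4
(.haz 10 2559 1 5
(.haz 10 2559 3 10
(.ask 1279
(.ask 639
(.mark 2047 [11, 12, 13]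
(.lp [[8, 11], [0, 2, 4, 6, 9, 13], [1, 3, 5, 7, 10, 12]] [(.mj 6 7, 8), (.mj 7 8, 6), (.mj 8 9, 7), (.mj 9 10, 2), (.hz 37 1279, 41281), (.hz 25 8831, 868), (.hz 20 8831, 12616), (.hz 39 2559, 24450), (.hz 37 5375, 51013)]))
(.mark 1279 [8, 9, 12]
(.lp [[8, 11], [0, 2, 4, 6, 9], [1, 3, 5, 7, 10, 12]] [(.mj 6 7, 22), (.mj 7 8, 19), (.mj 8 9, 19), (.mj 9 10, 5), (.hz 37 1279, 128087), (.hz 37 5375, 137869)])))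
(.lp [[8, 11], [0, 2, 4, 6, 9], [1, 3, 5, 7, 10]] [(.mj 4 5, 112), (.mj 7 8, 51), (.mj 8 9, 59), (.mj 9 10, 18), (.hz 25 639, 7900), (.hz 37 1279, 281588), (.hz 39 2559, 213749)]))
(.lp [[8, 11], [0, 2, 4, 6, 9], [1, 3, 5, 7, 10]] [(.mj 4 5, 69), (.mj 7 8, 19), (.mj 8 9, 26), (.hz 39 255, 48464), (.hz 25 639, 2358), (.hz 39 511, 37665), (.hz 37 1279, 192986)]))
(.lp [[8, 11], [0, 2, 4, 6, 9], [1, 3, 5, 7, 10]] [(.mj 4 5, 8), (.mj 7 8, 2), (.mj 8 9, 3), (.hz 38 255, 10451), (.hz 25 639, 381), (.hz 38 511, 8140), (.hz 37 1279, 22505)]))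
(.lp [[8, 11], [0, 2, 4, 6, 9], [1, 3, 5, 7, 10]] [(.mj 6 7, 193), (.mj 7 8, 221), (.mj 9 10, 150), (.hz 37 127, 1148623), (.hz 37 255, 1548635), (.hz 34 1279, 197906), (.hz 33 2559, 35683), (.hz 35 3071, 1784136)]))
(.ask 639
(.mark 1023 [10, 11, 12]
(.lp [[8, 11], [1, 3, 5, 7, 10], [0, 2, 4, 6, 9, 12]] [(.mj 3 4, 20), (.mj 6 7, 29), (.mj 8 10, 1), (.mj 10 9, 9), (.hz 30 1279, 3891), (.hz 25 4735, 4035), (.hz 30 1535, 13120), (.hz 25 4991, 16400)]))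
(.lp [[8, 11], [0, 2, 4, 6, 9], [1, 3, 5, 7, 10]] [(.mj 6 7, 11), (.mj 7 8, 1), (.mj 8 10, 1), (.mj 10 9, 3), (.hz 30 1279, 1063), (.hz 25 895, 6858)]))
(.lp [[8, 11], [0, 2, 4, 6, 9], [1, 3, 5, 7, 10]] [(.mj 6 7, 9), (.mj 7 8, 1), (.mj 11 9, 5), (.mj 11 10, 2), (.hz 25 639, 1760), (.hz 34 1279, 47), (.hz 30 1279, 3743)])
.fin))
(.haz 9 1279 1 5
(.maj 9 10
(.ask 511
(.mark 511 [9, 10, 11]
(.spn
(.haz 9 2559 13 50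
(.ask 639
(.mark 1023 [10, 11, 12]
(.spn
(.ask 1279
(.mark 2047 [11, 12, 13]
(.spn
(.haz 10 2559 11 50
(.ask 9471
(.ask 2559
(.mark 11775 [9, 14, 15]
(.lp [[8, 11, 15], [0, 2, 4, 6, 9, 12], [1, 3, 5, 7, 10, 13, 14]] [(.mj 7 8, 71), (.mj 8 9, 55), (.mj 9 10, 36), (.mj 10 11, 10), (.hz 37 1279, 87704), (.hz 20 4735, 93640), (.hz 38 2559, 716), (.hz 39 2559, 49765), (.hz 36 4863, 250821), (.hz 37 9471, 243635), (.hz 39 35327, 68790), (.hz 37 25855, 375843)]))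
(.mark 10239 [11, 12, 14]
(.lp [[8, 11], [0, 2, 4, 6, 9, 12], [1, 3, 5, 7, 10, 13, 14]] [(.mj 7 8, 48), (.mj 8 9, 47), (.mj 9 10, 29), (.mj 10 11, 12), (.mj 11 13, 1), (.hz 37 1279, 16152), (.hz 20 4735, 18703), (.hz 39 2559, 13581), (.hz 36 4863, 50098), (.hz 37 9471, 520702), (.hz 39 3071, 4107)])))
(.lp [[8, 11], [0, 2, 4, 6, 9, 12], [1, 3, 5, 7, 10, 13]] [(.mj 6 7, 7), (.mj 7 8, 154), (.mj 8 9, 71), (.mj 9 10, 44), (.hz 20 4735, 445227), (.hz 38 2559, 27581), (.hz 39 2559, 99358), (.hz 36 4863, 1115150), (.hz 37 9471, 37780), (.hz 37 9727, 385611), (.hz 36 5887, 482014)]))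
(.lp [[8, 11], [0, 2, 4, 6, 9, 12], [1, 3, 5, 7, 10, 13]] [(.mj 7 8, 7), (.mj 8 9, 5), (.mj 10 11, 2), (.hz 39 255, 3886), (.hz 39 511, 4692), (.hz 20 4735, 1916), (.hz 38 2559, 4978), (.hz 36 4863, 47877)]))
(.haz 11 1535 9 50
(.lp [[8, 11], [0, 2, 4, 6, 9, 12], [1, 3, 5, 7, 10, 13]] [(.mj 7 8, 35), (.mj 8 9, 37), (.mj 9 10, 15), (.mj 12 11, 15), (.mj 12 13, 3), (.hz 39 1535, 48418), (.hz 38 2559, 30774), (.hz 34 9471, 5551), (.hz 37 9471, 501100), (.hz 39 2047, 102884), (.hz 39 9727, 57220), (.hz 36 9983, 747585), (.hz 39 10239, 242517)])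
(.lp [[8, 11], [0, 2, 4, 6, 9, 12], [1, 3, 5, 7, 10, 13]] [(.mj 7 8, 12), (.mj 8 9, 11), (.mj 9 10, 7), (.mj 12 13, 1), (.hz 39 511, 18965), (.hz 37 9471, 117094)]))
(.haz 10 2559 1 5
(.lp [[8, 11], [0, 2, 4, 6, 9, 12], [1, 3, 5, 7, 10, 13]] [(.mj 7 8, 267), (.mj 8 9, 284), (.mj 9 10, 195), (.mj 13 11, 68), (.hz 38 2559, 156860), (.hz 39 2559, 5311816), (.hz 37 9471, 2628606), (.hz 39 3071, 4668960), (.hz 35 5119, 351814)])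
(.lp [[8, 11], [0, 2, 4, 6, 9, 12], [1, 3, 5, 7, 10, 13]] [(.mj 6 7, 9), (.mj 7 8, 8), (.mj 8 9, 11), (.mj 13 11, 4), (.mj 13 12, 1), (.hz 39 255, 109183), (.hz 38 2559, 5131)]))
.fin))
(.lp [[8, 11], [1, 3, 5, 7, 10], [0, 2, 4, 6, 9, 12]] [(.mj 6 7, 37), (.mj 7 8, 67), (.mj 8 9, 38), (.mj 9 10, 10), (.hz 20 4735, 269228), (.hz 37 1535, 161562), (.hz 38 2559, 16156), (.hz 36 4863, 280506)]))
(.haz 10 511 13 50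
(.lp [[8, 11], [1, 3, 5, 7, 10], [0, 2, 4, 6, 9, 12]] [(.mj 3 4, 54), (.mj 7 8, 29), (.mj 11 10, 14), (.hz 39 511, 25440), (.hz 37 1279, 14823), (.hz 20 4735, 161882), (.hz 39 1023, 75635), (.hz 36 4863, 597724), (.hz 39 5119, 94220)])
(.lp [[8, 11], [1, 3, 5, 7, 10], [0, 2, 4, 6, 9, 12]] [(.mj 7 8, 28), (.mj 8 9, 9), (.hz 39 255, 10464), (.hz 20 4735, 69315), (.hz 37 1535, 56344), (.hz 38 2559, 4334), (.hz 36 1791, 50887), (.hz 36 4863, 321693)]))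
(.lp [[8, 11], [1, 3, 5, 7, 10], [0, 2, 4, 6, 9, 12]] [(.mj 3 4, 73), (.mj 7 8, 13), (.mj 8 9, 8), (.mj 12 10, 8), (.mj 12 11, 7), (.hz 37 1279, 109565), (.hz 37 1535, 171301), (.hz 38 2559, 23761), (.hz 35 3071, 614507)])
.fin))
(.ask 1279
(.haz 9 1279 13 50
(.mark 1279 [8, 9, 12]
(.lp [[8, 11], [0, 2, 4, 6, 9], [1, 3, 5, 7, 10, 12]] [(.mj 6 7, 758), (.mj 7 8, 431), (.mj 8 9, 387), (.mj 9 10, 72), (.hz 34 1279, 65599), (.hz 39 1279, 171395), (.hz 38 2559, 12798), (.hz 39 5375, 227118), (.hz 35 3071, 639885)]))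
(.lp [[8, 11], [0, 2, 4, 6, 9], [1, 3, 5, 7, 10, 12]] [(.mj 6 7, 258), (.mj 7 8, 210), (.mj 9 10, 116), (.hz 39 255, 175617), (.hz 34 1279, 200444), (.hz 38 2559, 20579), (.hz 35 3071, 1028971)]))
(.lp [[8, 11], [0, 2, 4, 6, 9], [1, 3, 5, 7, 10]] [(.mj 6 7, 75), (.mj 7 8, 43), (.mj 8 9, 38), (.mj 9 10, 7)])))
(.lp [[8, 11], [0, 2, 4, 6, 9], [1, 3, 5, 7, 10]] [(.mj 3 4, 4), (.mj 6 7, 7), (.hz 38 127, 948), (.hz 38 383, 2279)]))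
(.con 10 9)
(.lp [[8, 11], [0, 2, 4, 6, 9], [1, 3, 5, 7, 10]] [(.mj 4 5, 15072), (.mj 6 7, 11354), (.mj 11 9, 6670), (.rw 9, 1), (.hz 25 639, 3370839), (.hz 33 511, 14273515), (.hz 34 1279, 2434403), (.hz 37 1279, 39185794)])
.fin))
(.spn
(.ask 1279
(.mark 1279 [8, 9, 11]
(.lp [[8], [0, 2, 4, 6, 9], [1, 3, 5, 7, 10, 11]] [(.mj 3 4, 272), (.mj 7 8, 52), (.mj 8 9, 19), (.mj 9 10, 23), (.hz 37 1279, 88072), (.hz 37 3327, 110090)]))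
(.lp [[8], [0, 2, 4, 6, 9], [1, 3, 5, 7, 10]] [(.mj 7 8, 5), (.mj 8 9, 4), (.mj 9 10, 2)]))
(.con 10 9)
.fin
.fin))
(.lp [[8], [0, 2, 4, 6, 9], [1, 3, 5, 7, 10]] [(.mj 6 7, 3487), (.mj 8 10, 226), (.mj 10 9, 1989), (.hz 33 511, 4358739), (.hz 37 1279, 10395871)]))
(.lp [[8], [0, 2, 4, 6, 9], [1, 3, 5, 7, 10]] [(.mj 6 7, 52), (.mj 7 8, 13), (.mj 8 10, 10), (.hz 37 127, 208220), (.hz 30 1279, 9606)])))
(.lp [[8], [0, 2, 4, 6, 9], [1, 3, 5, 7, 10]] [(.mj 3 4, 197), (.mj 6 7, 48), (.hz 36 191, 46875), (.hz 36 255, 104474), (.hz 36 639, 104474)]))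
(.lp [[8], [0, 2, 4, 6, 9], [1, 3, 5, 7, 10]] [(.mj 4 5, 28), (.mj 7 8, 15), (.mj 8 9, 11), (.hz 35 255, 27936), (.hz 20 639, 51475), (.hz 30 1279, 6497)]))

theorem run186 : run P3488 (leaf3 218 625) (cutRow P3488) [] t186 s186 = true := by
  decide +kernel

theorem bad186 : Bad P3488 s186 :=
  run_sound (leaf3_sound P3488 rfl rfl) (cutRow_sound P3488) (
    fun _ h => absurd h List.not_mem_nil) t186 s186 run186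

/-- the state above piece 45 of the tree -/
def s45 : St := ⟨[0, 0, 1, 1, 7, 7, 11, 23, 63], [63, 47, 55, 39, 31, 15, 13, 9, 7, 5, 3, 2, 1, 0], [0, 1, 2, 3, 4, 5, 6],
  [(3, 4)],
  [⟨true, 1, 9, 7, 50⟩, ⟨true, 2, 11, 3, 50⟩, ⟨true, 2, 9, 9, 50⟩, ⟨true, 3, 3, 1, 5⟩, ⟨true, 1, 5, 13, 50⟩, ⟨true, 2, 11, 3, 5⟩, ⟨true, 2, 9, 8, 25⟩, ⟨true, 2, 9, 17, 50⟩, ⟨true, 2, 11, 33, 50⟩, ⟨true, 4, 47, 4, 25⟩, ⟨true, 4, 79, 1, 5⟩, ⟨true, 5, 159, 7, 50⟩, ⟨true, 4, 79, 3, 10⟩, ⟨true, 3, 23, 7, 25⟩, ⟨true, 3, 23, 3, 10⟩, ⟨true, 6, 63, 2, 25⟩, ⟨true, 5, 95, 4, 25⟩, ⟨true, 4, 79, 9, 25⟩],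
  [.spn 0 0 651200, .spn 1 1 140426, .spn 3 2 302400, .spn 7 3 62723, .spn 15 4 140426, .spn 31 5 62723, .spn 63 6 62723]⟩

/-- piece 45 of the tree -/
noncomputable def t45 : WN.Tree :=
(.haz 7 319 1 10
(.haz 7 55 3 10
(.lp [[3, 6], [1, 5, 8], [0, 2, 4, 7]] [(.mj 4 5, 5), (.mj 5 6, 7), (.mj 6 7, 8), (.hz 19 55, 2137), (.hz 19 63, 10889), (.hz 19 127, 7206), (.hz 19 319, 14412)])
(.haz 7 319 3 20
(.haz 7 319 1 5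
(.haz 6 319 3 20
(.haz 6 319 1 5
(.ask 75
(.mark 127 [7, 8, 9]
(.spn
(.ask 151
(.mark 191 [6, 8, 10]
(.lp [[1, 5, 8], [3, 6, 9], [0, 2, 4, 7, 10]] [(.mj 2 3, 150), (.mj 4 5, 27), (.mj 5 6, 3), (.mj 6 7, 63), (.mj 7 8, 14), (.hz 14 1175, 16864), (.hz 23 319, 13856), (.hz 21 319, 326069), (.hz 11 1183, 4324), (.hz 14 1207, 33601)]))
(.lp [[1, 5, 8], [3, 6, 9], [0, 2, 4, 7]] [(.mj 2 3, 111), (.mj 4 5, 50), (.mj 5 6, 20), (.mj 6 7, 57), (.mj 7 8, 15), (.hz 19 55, 12148), (.hz 23 319, 54282), (.hz 21 319, 278896), (.hz 16 607, 20128)]))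
(.ask 151
(.mark 191 [6, 8, 10]
(.lp [[1, 5, 8], [3, 6, 9], [0, 2, 4, 7, 10]] [(.mj 2 3, 346), (.mj 4 5, 133), (.mj 6 7, 54), (.mj 6 8, 32), (.mj 8 7, 48), (.hz 19 23, 30137), (.hz 19 55, 8060), (.hz 21 319, 494149), (.hz 16 607, 91097), (.hz 14 1207, 68823), (.hz 21 383, 441871), (.hz 15 1215, 88374)]))
(.lp [[1, 5, 8], [3, 6, 9], [0, 2, 4, 7]] [(.mj 2 3, 42), (.mj 4 5, 10), (.mj 6 8, 6), (.mj 8 7, 13), (.hz 19 55, 6798), (.hz 21 319, 52366), (.hz 16 607, 3492), (.hz 21 383, 129415)]))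
(.lp [[1, 5, 8], [3, 6, 9], [0, 2, 4, 7]] [(.mj 2 3, 21), (.mj 4 5, 4), (.mj 9 7, 5), (.mj 9 8, 3), (.hz 19 23, 1788), (.hz 19 55, 3275), (.hz 23 319, 5542), (.hz 21 319, 35041)])
.fin))
(.ask 79
(.mark 127 [7, 8, 9]
(.spn
(.ask 319
(.mark 319 [6, 7, 10]
(.lp [[1, 4, 7], [3, 6, 9], [0, 2, 5, 8, 10]] [(.mj 2 3, 63), (.mj 4 5, 35), (.mj 5 6, 36), (.mj 6 7, 49), (.mj 7 8, 16), (.hz 19 23, 5518), (.hz 19 55, 4031), (.hz 23 319, 12038), (.hz 21 319, 181521), (.hz 21 1343, 172727)]))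
(.lp [[1, 5, 8], [3, 6, 9], [0, 2, 4, 7]] [(.mj 2 3, 71), (.mj 4 5, 39), (.mj 5 6, 41), (.mj 6 7, 55), (.mj 7 8, 17), (.hz 19 23, 6182), (.hz 19 55, 4517), (.hz 21 319, 196697)]))
(.haz 9 127 3 10
(.lp [[1, 5, 8], [3, 6, 9], [0, 2, 4, 7]] [(.mj 2 3, 23694), (.mj 4 5, 4604), (.mj 6 8, 3598), (.mj 8 7, 4909), (.rw 7, 1), (.hz 19 23, 2066324), (.hz 19 55, 3785042), (.hz 24 127, 7285178), (.hz 21 319, 22939051), (.hz 24 255, 116930811), (.hz 21 383, 118804935)])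
(.lp [[1, 5, 8], [3, 6, 9], [0, 2, 4, 7]] [(.mj 2 3, 1074), (.mj 4 5, 849), (.mj 5 6, 14), (.mj 6 8, 99), (.mj 8 7, 554), (.hz 19 23, 93636), (.hz 24 79, 202450), (.hz 24 95, 664152), (.hz 21 319, 1849256), (.hz 16 607, 271664), (.hz 21 383, 5170106)]))
(.lp [[1, 5, 8], [3, 6, 9], [0, 2, 4, 7]] [(.mj 2 3, 16), (.mj 4 5, 2), (.mj 9 7, 4), (.mj 9 8, 2), (.hz 19 23, 1175), (.hz 19 55, 2481), (.hz 14 151, 279), (.hz 23 319, 6538), (.hz 21 319, 24489)])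
.fin))
(.haz 7 31 13 50
(.lp [[3, 6], [1, 5, 8], [0, 2, 4, 7]] [(.mj 2 3, 25), (.mj 4 5, 56), (.mj 5 6, 47), (.mj 6 7, 69), (.hz 24 31, 1666), (.hz 24 63, 19915), (.hz 24 95, 8247), (.hz 24 319, 24090)])
(.ask 95
(.mark 127 [7, 8, 9]
(.spn
(.ask 319
(.haz 8 127 11 25
(.mark 319 [6, 7, 10]
(.lp [[1, 4, 7], [3, 6, 9], [0, 2, 5, 8, 10]] [(.mj 2 3, 2), (.mj 4 5, 7), (.mj 5 6, 19), (.mj 6 7, 17), (.mj 7 8, 10), (.hz 24 23, 145), (.hz 24 31, 414), (.hz 25 127, 3950), (.hz 25 255, 8226), (.hz 25 639, 24365), (.hz 21 1343, 99802)]))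
(.haz 6 159 6 25
(.ask 151
(.mark 447 [6, 10, 11]
(.lp [[3, 6, 9], [1, 5, 8, 10], [0, 2, 4, 7, 11]] [(.mj 4 5, 50), (.mj 5 6, 42), (.mj 6 7, 25), (.mj 7 8, 2), (.hz 24 23, 469), (.hz 25 63, 8396), (.hz 26 159, 12051), (.hz 14 2199, 4579), (.hz 21 319, 67432), (.hz 26 2207, 17892), (.hz 21 1343, 87737)]))
(.mark 319 [6, 7, 10]
(.lp [[1, 4, 7], [3, 6, 9], [0, 2, 5, 8, 10]] [(.mj 4 5, 375), (.mj 5 6, 323), (.mj 6 7, 178), (.mj 7 8, 14), (.hz 24 31, 13084), (.hz 19 55, 6252), (.hz 25 63, 69885), (.hz 26 159, 112953), (.hz 21 319, 497208), (.hz 21 1343, 621510)])))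
(.mark 319 [6, 7, 10]
(.lp [[1, 4, 7], [3, 6, 9], [0, 2, 5, 8, 10]] [(.mj 4 5, 3), (.mj 6 7, 1), (.hz 24 23, 32), (.hz 26 31, 1504), (.hz 24 31, 374), (.hz 25 63, 547), (.hz 21 319, 2948), (.hz 21 1343, 3684)]))))
(.lp [[1, 5, 8], [3, 6, 9], [0, 2, 4, 7]] [(.mj 2 3, 235), (.mj 4 5, 46), (.mj 5 6, 2), (.mj 6 7, 38), (.mj 7 8, 10), (.hz 24 23, 3951), (.hz 19 55, 36776), (.hz 21 319, 43685)]))
(.ask 319
(.mark 383 [7, 9, 10]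
(.spn
(.haz 7 95 7 50
(.lp [[1, 4, 7], [3, 6, 9], [0, 2, 5, 8, 10]] [(.mj 2 3, 12799), (.mj 4 5, 9987), (.mj 5 6, 1966), (.mj 6 8, 1576), (.mj 8 7, 7050), (.rw 8, 4), (.hz 24 23, 215234), (.hz 25 95, 1651702), (.hz 21 319, 24340421), (.hz 16 607, 4496488), (.hz 25 607, 1938880), (.hz 25 639, 16058887)])
(.lp [[1, 4, 7], [3, 6, 9], [0, 2, 5, 8, 10]] [(.mj 2 3, 15), (.mj 4 5, 2), (.mj 6 8, 2), (.hz 25 23, 1408), (.hz 21 319, 11670)]))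
(.lp [[1, 4, 7], [3, 6, 9], [0, 2, 5, 8, 10]] [(.mj 2 3, 82), (.mj 4 5, 64), (.mj 5 6, 47), (.mj 8 9, 7), (.mj 9 7, 66), (.hz 24 23, 1379), (.hz 21 319, 228979), (.hz 21 383, 1922526), (.hz 23 1343, 232937), (.hz 21 1343, 229968), (.hz 21 895, 1272354)])
(.ask 151
(.mark 191 [6, 8, 11]
(.lp [[3, 6, 9], [1, 5, 8, 10], [0, 2, 4, 7, 11]] [(.mj 2 3, 12337), (.mj 4 5, 2041), (.mj 6 8, 691), (.mj 10 7, 2929), (.rw 7, 1), (.hz 24 23, 95145), (.hz 14 151, 795178), (.hz 21 319, 17205096), (.hz 14 2231, 3073780), (.hz 21 383, 73573469), (.hz 15 2239, 9003228)]))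
(.lp [[1, 4, 7], [3, 6, 9], [0, 2, 5, 8, 10]] [(.mj 2 3, 15462), (.mj 4 5, 2945), (.mj 6 8, 1064), (.mj 10 7, 3313), (.rw 7, 1), (.hz 19 55, 2761114), (.hz 21 319, 21876888), (.hz 21 383, 83845822)]))
.fin))
(.lp [[1, 5, 8], [3, 6, 9], [0, 2, 4, 7]] [(.mj 2 3, 1704), (.mj 4 5, 443), (.mj 6 7, 163), (.mj 8 7, 119), (.hz 24 23, 28647), (.hz 19 55, 237350), (.hz 16 607, 78015), (.hz 21 383, 1940658)]))
(.lp [[1, 5, 8], [3, 6, 9], [0, 2, 4, 7]] [(.mj 2 3, 119), (.mj 4 5, 22), (.mj 9 7, 18), (.mj 9 8, 5), (.hz 24 23, 2001), (.hz 19 55, 18968), (.hz 15 191, 6036), (.hz 23 319, 146614), (.hz 21 319, 95245), (.hz 21 383, 508470)])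
.fin))
(.lp [[3, 6], [1, 5, 8], [0, 2, 4, 7]] [(.mj 4 5, 38), (.mj 5 6, 17), (.mj 6 7, 9), (.mj 6 8, 5), (.hz 24 23, 800), (.hz 24 31, 3216), (.hz 21 319, 64728)])))))
(.lp [[3, 6], [1, 5, 8], [0, 2, 4, 7]] [(.mj 2 3, 6), (.mj 4 5, 2), (.mj 6 7, 7), (.mj 6 8, 4), (.hz 23 11, 455), (.hz 23 15, 5218), (.hz 23 31, 9897), (.hz 23 47, 3570), (.hz 23 63, 25883), (.hz 21 319, 53022)]))
(.lp [[3, 6], [1, 5, 8], [0, 2, 4, 7]] [(.mj 6 7, 4), (.mj 6 8, 2), (.hz 22 11, 301), (.hz 22 15, 857), (.hz 22 31, 1310), (.hz 22 47, 971), (.hz 22 63, 3410), (.hz 21 319, 27393)]))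
(.lp [[3, 6], [1, 5, 8], [0, 2, 4, 7]] [(.mj 2 3, 707), (.mj 4 5, 139), (.mj 6 8, 100), (.hz 21 23, 154838), (.hz 21 31, 164515), (.hz 21 55, 283186), (.hz 21 63, 446370), (.hz 20 319, 159642)]))
(.lp [[3, 6], [1, 5, 8], [0, 2, 4, 7]] [(.mj 2 3, 26), (.mj 4 5, 5), (.mj 6 8, 4), (.hz 20 23, 1355), (.hz 20 31, 1416), (.hz 20 55, 2417), (.hz 20 63, 3735), (.hz 18 319, 11508)])))
(.lp [[3, 6], [1, 5, 8], [0, 2, 4, 7]] [(.mj 2 3, 12), (.mj 4 5, 2), (.mj 6 8, 2), (.hz 18 23, 2601), (.hz 18 55, 867), (.hz 18 63, 3212)]))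

theorem run45 : run P3488 (leaf3 218 625) (cutRow P3488) [] t45 s45 = true := by
  decide +kernel

theorem bad45 : Bad P3488 s45 :=
  run_sound (leaf3_sound P3488 rfl rfl) (cutRow_sound P3488) (
    fun _ h => absurd h List.not_mem_nil) t45 s45 run45

/-- the state above piece 241 of the tree -/
def s241 : St := ⟨[0, 0, 1, 3, 5, 15, 31, 31, 63, 95, 319, 639], [607, 383, 127, 63, 47, 31, 23, 21, 15, 11, 7, 5, 3, 2, 1, 0], [0, 1, 2, 3, 4, 5, 6, 8, 9],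
  [(4, 5)],
  [⟨true, 2, 3, 3, 10⟩, ⟨true, 1, 5, 2, 5⟩, ⟨true, 2, 3, 23, 50⟩, ⟨true, 1, 5, 12, 25⟩, ⟨true, 1, 21, 27, 50⟩, ⟨true, 4, 15, 9, 40⟩, ⟨true, 3, 23, 11, 20⟩, ⟨true, 4, 47, 7, 20⟩, ⟨true, 4, 47, 17, 40⟩, ⟨true, 4, 47, 9, 20⟩, ⟨true, 4, 47, 19, 40⟩, ⟨true, 5, 31, 3, 10⟩, ⟨true, 4, 47, 3, 5⟩, ⟨true, 4, 47, 5, 8⟩, ⟨true, 6, 159, 1, 10⟩, ⟨true, 6, 319, 1, 8⟩, ⟨true, 6, 319, 1, 5⟩, ⟨true, 7, 95, 1, 20⟩, ⟨true, 9, 1535, 1, 10⟩, ⟨true, 9, 1535, 3, 10⟩, ⟨true, 6, 159, 1, 4⟩],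
  [.spn 0 0 651200, .spn 1 1 302400, .spn 3 2 302400, .spn 7 3 302400, .spn 15 4 302400, .spn 31 5 140426, .spn 63 6 140426, .spn 127 8 140426, .spn 383 9 140426]⟩

/-- piece 241 of the tree -/
noncomputable def t241 : WN.Tree :=
(.mark 895 [7, 10, 11]
(.spn
(.haz 10 895 1 4
(.lp [[7], [1, 3, 5, 8, 10], [0, 2, 4, 6, 9, 11]] [(.mj 7 10, 1702), (.mj 8 9, 1635), (.mj 9 7, 1702), (.rw 9, 1), (.hz 21 895, 10901919), (.hz 17 2687, 4251494), (.hz 21 1023, 17282906), (.hz 21 2943, 26854976)])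
(.lp [[7], [1, 3, 5, 8, 10], [0, 2, 4, 6, 9, 11]] [(.mj 8 9, 1355), (.mj 9 7, 795), (.rw 9, 1), (.hz 21 319, 1983902), (.hz 21 383, 5904470), (.hz 21 895, 3373983)]))
(.haz 5 159 2 5
(.haz 8 2687 7 20
(.ask 1343
(.mark 1919 [7, 11, 12]
(.spn
(.lp [[7], [0, 2, 4, 6, 9, 11], [1, 3, 5, 8, 10, 12]] [(.mj 7 11, 141), (.mj 8 9, 506), (.mj 9 10, 697), (.mj 10 7, 572), (.rw 10, 1), (.hz 17 2687, 2726041), (.hz 17 2943, 4253894), (.hz 17 5503, 5507235)])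
(.cut 7 [(0, 1), (1, 1), (2, 1), (3, 1), (5, 1), (7, 1), (11, 1), (21, 1), (15, 1), (23, 1), (31, 1), (47, 1), (63, 1), (95, 1), (127, 1), (319, 1), (607, 1), (383, 1), (639, 1), (1343, 1), (895, 1), (1407, 1), (1919, 1)]
(.lp [[7], [0, 2, 4, 6, 9, 11], [1, 3, 5, 8, 10, 12]] [(.mj 8 9, 4417), (.mj 9 10, 2545), (.mj 11 7, 2506), (.mj 11 12, 6), (.hz 17 5503, 1631584), (.hz 20 5567, 10176601), (.hz 17 6015, 14528958), (.rw 11, 8)]))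
(.cut 7 [(0, 1), (1, 1), (2, 1), (3, 1), (5, 1), (7, 1), (11, 1), (21, 1), (15, 1), (23, 1), (31, 1), (47, 1), (63, 1), (95, 1), (127, 1), (319, 1), (607, 1), (383, 1), (639, 1)]
(.cut 7 [(0, 1), (1, 1), (2, 1), (3, 1), (5, 1), (7, 1), (11, 1), (21, 1), (15, 1), (23, 1), (31, 1), (47, 1), (63, 1), (95, 1), (127, 1), (319, 1), (607, 1), (383, 1), (639, 1), (1343, 1), (895, 1), (1407, 1)]
(.lp [[7], [0, 2, 4, 6, 9, 11], [1, 3, 5, 8, 10, 12]] [(.mj 8 9, 744), (.mj 9 10, 838), (.mj 12 7, 654), (.mj 12 11, 183), (.rw 11, 1), (.rw 12, 1)])))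
.fin))
(.ask 1407
(.mark 1919 [7, 11, 12]
(.spn
(.haz 12 3967 1 4
(.lp [[7], [0, 2, 4, 6, 9, 11], [1, 3, 5, 8, 10, 12]] [(.mj 7 11, 1154), (.mj 8 9, 7599), (.mj 9 10, 9346), (.mj 10 7, 7564), (.rw 10, 14), (.hz 17 2687, 39961279), (.hz 17 2943, 60682759), (.hz 17 5503, 60601501), (.hz 23 3967, 30839364)])
(.lp [[7], [0, 2, 4, 6, 9, 11], [1, 3, 5, 8, 10, 12]] [(.mj 7 11, 4), (.mj 9 10, 3), (.mj 10 7, 4), (.hz 23 1407, 11040), (.hz 23 1919, 65978)]))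
(.cut 7 [(0, 1), (1, 1), (2, 1), (3, 1), (5, 1), (7, 1), (11, 1), (21, 1), (15, 1), (23, 1), (31, 1), (47, 1), (63, 1), (95, 1), (127, 1), (319, 1), (607, 1), (383, 1), (639, 1), (1343, 1), (1407, 1)]
(.cut 7 [(0, 1), (1, 1), (2, 1), (3, 1), (5, 1), (7, 1), (11, 1), (21, 1), (15, 1), (23, 1), (31, 1), (47, 1), (63, 1), (95, 1), (127, 1), (319, 1), (607, 1), (383, 1), (639, 1), (1343, 1), (895, 1), (1407, 1), (2687, 1), (1919, 1)]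
(.cut 7 [(0, 1), (1, 1), (2, 1), (3, 1), (5, 1), (7, 1), (11, 1), (21, 1), (15, 1), (23, 1), (31, 1), (47, 1), (63, 1), (95, 1), (127, 1), (319, 1), (607, 1), (383, 1), (639, 1), (895, 1), (2687, 2), (2943, 1)]
(.lp [[7], [0, 2, 4, 6, 9, 11], [1, 3, 5, 8, 10, 12]] [(.mj 8 9, 355354), (.mj 9 10, 184479), (.mj 11 7, 198550), (.mj 11 12, 8545), (.hz 17 2687, 223223227), (.hz 17 5503, 176133637), (.hz 17 6015, 1263019959), (.rw 11, 499), (.rw 12, 105), (.rw 13, 19)]))))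
(.cut 7 [(0, 1), (1, 1), (2, 1), (3, 1), (5, 1), (7, 1), (11, 1), (21, 1), (15, 1), (23, 1), (31, 1), (47, 1), (63, 1), (95, 1), (127, 1), (319, 1), (607, 1), (383, 1), (1343, 1), (1407, 1), (5503, 1)]
(.cut 7 [(0, 1), (1, 1), (2, 1), (3, 1), (5, 1), (7, 1), (11, 1), (21, 1), (15, 1), (23, 1), (31, 1), (47, 1), (63, 1), (95, 1), (127, 1), (319, 1), (607, 1), (383, 1), (639, 1)]
(.cut 7 [(0, 1), (1, 1), (2, 1), (3, 1), (5, 1), (7, 1), (11, 1), (21, 1), (15, 1), (23, 1), (31, 1), (47, 1), (63, 1), (95, 1), (127, 1), (319, 1), (607, 1), (383, 1), (639, 1), (895, 1)]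
(.lp [[7], [0, 2, 4, 6, 9, 11], [1, 3, 5, 8, 10, 12]] [(.mj 8 9, 12777), (.mj 9 10, 14207), (.mj 12 7, 10865), (.mj 12 11, 2769), (.rw 11, 2), (.rw 12, 16), (.rw 13, 16)]))))
.fin))
(.ask 1919
(.mark 1919 [7, 11, 12]
(.spn
(.haz 12 3967 1 2
(.lp [[7], [0, 2, 4, 6, 9, 11], [1, 3, 5, 8, 10, 12]] [(.mj 7 11, 3957), (.mj 7 12, 74970), (.mj 8 9, 103707), (.mj 10 7, 141457), (.rw 10, 104), (.hz 17 2687, 730923610), (.hz 17 2943, 1349252042), (.hz 23 3967, 5326010665)])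
(.haz 12 3967 3 10
(.lp [[7], [0, 2, 4, 6, 9, 11], [1, 3, 5, 8, 10, 12]] [(.mj 7 11, 15), (.mj 9 10, 14), (.mj 10 7, 16), (.hz 17 2687, 16020), (.hz 23 1919, 733136), (.hz 17 2943, 51266), (.hz 24 3967, 111504)])
(.lp [[7], [0, 2, 4, 6, 9, 11], [1, 3, 5, 8, 10, 12]] [(.mj 7 11, 5), (.mj 9 10, 4), (.mj 10 7, 5), (.hz 24 1919, 38563)])))
(.cut 7 [(0, 1), (1, 1), (2, 1), (3, 1), (5, 1), (7, 1), (11, 1), (21, 1), (15, 1), (23, 1), (31, 1), (47, 1), (63, 1), (95, 1), (127, 1), (319, 1), (607, 1), (383, 1), (639, 1), (1343, 1), (895, 1), (1407, 1), (1919, 1)]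
(.lp [[7], [0, 2, 4, 6, 9, 11], [1, 3, 5, 8, 10, 12]] [(.mj 8 9, 732), (.mj 11 7, 318), (.mj 11 12, 123), (.rw 11, 1)]))
(.cut 7 [(0, 1), (1, 1), (2, 1), (3, 1), (5, 1), (7, 1), (11, 1), (21, 1), (15, 1), (23, 1), (31, 1), (47, 1), (63, 1), (95, 1), (127, 1), (319, 1), (607, 1), (383, 1), (639, 1), (1343, 1), (895, 1), (1407, 1), (2687, 1), (1919, 1)]
(.cut 7 [(0, 1), (1, 1), (2, 1), (3, 1), (5, 1), (7, 1), (11, 1), (21, 1), (15, 1), (23, 1), (31, 1), (47, 1), (63, 1), (95, 1), (127, 1), (319, 1), (607, 1), (383, 1), (639, 1), (1343, 1), (1407, 1)]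
(.cut 7 [(0, 1), (1, 1), (2, 1), (3, 1), (5, 1), (7, 1), (11, 1), (21, 1), (15, 1), (23, 1), (31, 1), (47, 1), (63, 1), (95, 1), (127, 1), (319, 1), (607, 1), (383, 1), (639, 1), (895, 1)]
(.lp [[7], [0, 2, 4, 6, 9, 11], [1, 3, 5, 8, 10, 12]] [(.mj 8 9, 5628), (.mj 9 10, 4860), (.mj 12 7, 13240), (.rw 11, 1), (.rw 12, 13), (.rw 13, 33)]))))
.fin))
(.cut 7 [(0, 1), (1, 1), (2, 1), (3, 1), (5, 1), (7, 1), (11, 1), (21, 1), (15, 1), (23, 1), (31, 1), (47, 1), (63, 1), (95, 1), (127, 1), (319, 1), (607, 1), (383, 1), (639, 1), (1343, 1), (895, 1), (1407, 1), (2687, 1), (2943, 1)]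
(.lp [[7], [1, 3, 5, 8, 10], [0, 2, 4, 6, 9, 11]] [(.mj 8 9, 4558), (.mj 9 10, 1203), (.mj 10 7, 4417), (.mj 10 11, 3044), (.hz 17 2687, 38757859), (.hz 20 1471, 316104), (.hz 17 2943, 67406690), (.rw 10, 2)])))))
(.lp [[7], [1, 3, 5, 8, 10], [0, 2, 4, 6, 9, 11]] [(.mj 8 9, 627), (.rw 8, 1), (.hz 17 607, 557101), (.hz 17 639, 1254510), (.hz 22 639, 2050959)]))
(.lp [[7], [1, 3, 5, 8, 10], [0, 2, 4, 6, 9, 11]] [(.mj 3 4, 1), (.hz 21 31, 209)]))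
(.cut 7 [(0, 1), (1, 1), (2, 1), (3, 1), (5, 1), (7, 1), (11, 1), (21, 1), (15, 1), (23, 1), (31, 1), (47, 1), (63, 1), (95, 1), (127, 1), (319, 1), (607, 1), (383, 1), (639, 1), (1343, 2), (895, 1), (1407, 2), (1919, 1)]
(.cut 7 [(0, 1), (1, 1), (2, 1), (3, 1), (5, 1), (7, 1), (11, 1), (21, 1), (15, 1), (23, 1), (31, 1), (47, 1), (63, 1), (95, 1), (127, 1), (319, 1), (607, 1), (383, 1), (639, 1)]
(.lp [[7], [1, 3, 5, 8, 10], [0, 2, 4, 6, 9, 11]] [(.mj 6 8, 1062), (.mj 8 9, 25198), (.mj 11 7, 16584), (.mj 11 10, 15523), (.hz 17 1407, 15262661), (.hz 17 2687, 29675413), (.hz 20 1471, 29950221), (.rw 10, 4), (.rw 11, 36)])))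
.fin))

theorem run241 : run P3488 (leaf3 218 625) (cutRow P3488) [] t241 s241 = true := by
  decide +kernel

theorem bad241 : Bad P3488 s241 :=
  run_sound (leaf3_sound P3488 rfl rfl) (cutRow_sound P3488) (
    fun _ h => absurd h List.not_mem_nil) t241 s241 run241

/-- the state above piece 66 of the tree -/
def s66 : St := ⟨[0, 0, 1, 1, 3, 5, 19, 37], [23, 7, 3, 2, 1, 0], [0, 1, 2, 4, 5],
  [],
  [⟨true, 1, 9, 7, 50⟩, ⟨true, 2, 11, 3, 50⟩, ⟨true, 2, 9, 9, 50⟩, ⟨false, 3, 3, 1, 5⟩, ⟨true, 2, 3, 1, 4⟩, ⟨true, 1, 9, 3, 10⟩, ⟨true, 2, 9, 3, 10⟩, ⟨true, 1, 9, 7, 20⟩, ⟨true, 1, 5, 7, 20⟩, ⟨true, 3, 37, 1, 20⟩, ⟨false, 3, 3, 3, 20⟩, ⟨true, 1, 9, 2, 5⟩],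
  [.spn 0 0 651200, .spn 1 1 140426, .spn 3 2 140426, .spn 7 4 140426, .spn 23 5 140426]⟩

/-- piece 66 of the tree -/
noncomputable def t66 : WN.Tree :=
(.mark 55 [3, 6, 7]
(.spn
(.haz 6 55 3 10
(.lp [[3], [1, 4, 6], [0, 2, 5, 7]] [(.mj 3 6, 1612), (.mj 4 5, 1472), (.mj 5 3, 1612), (.rw 5, 1), (.hz 9 165, 87629), (.hz 12 55, 483713), (.hz 9 167, 350516), (.hz 12 63, 906961), (.hz 12 183, 1410828)])
(.lp [[3], [1, 4, 6], [0, 2, 5, 7]] [(.mj 4 5, 1495), (.mj 5 3, 966), (.rw 5, 1), (.hz 12 19, 139669), (.hz 12 23, 409030), (.hz 9 165, 157290), (.hz 12 55, 289940), (.hz 9 167, 794729), (.hz 9 119, 279337)]))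
(.haz 7 127 3 40
(.ask 83
(.mark 119 [3, 7, 8]
(.spn
(.lp [[3], [0, 2, 5, 7], [1, 4, 6, 8]] [(.mj 3 7, 2827), (.mj 4 5, 9879), (.mj 5 6, 13906), (.mj 6 3, 11381), (.rw 6, 19), (.hz 9 165, 1392822), (.hz 9 167, 7037418), (.hz 9 183, 10844461), (.hz 9 375, 14069051), (.hz 12 383, 1104388)])
(.maj 3 8
(.cut 3 [(0, 1), (1, 1), (2, 1), (3, 1), (5, 1), (7, 1), (19, 1), (37, 1), (23, 1), (39, 1), (83, 1), (55, 1), (87, 1), (119, 1)]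
(.lp [[3], [0, 2, 5, 7], [1, 4, 6, 8]] [(.mj 4 5, 199), (.mj 5 6, 311), (.mj 6 7, 326), (.mj 7 3, 311), (.hz 9 375, 1250906), (.rw 7, 1)]))
(.cut 3 [(0, 1), (1, 1), (2, 1), (3, 1), (5, 1), (7, 1), (19, 1), (37, 1), (23, 1), (39, 1), (55, 1)]
(.lp [[3], [0, 2, 5, 7], [1, 4, 6, 8]] [(.mj 4 5, 4136), (.mj 5 6, 3221), (.mj 8 3, 2737), (.hz 9 165, 109171), (.hz 9 167, 935685), (.hz 6 91, 814194), (.hz 9 247, 2565513), (.hz 9 375, 208944), (.rw 7, 8)])))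
(.cut 3 [(0, 1), (1, 1), (2, 1), (3, 1), (5, 1), (7, 1), (19, 1), (37, 1), (23, 1), (39, 1), (83, 1), (55, 1)]
(.lp [[3], [0, 2, 5, 7], [1, 4, 6, 8]] [(.mj 4 5, 134), (.mj 5 6, 1227), (.mj 8 3, 807), (.mj 8 7, 673), (.hz 9 167, 65678), (.hz 11 173, 59214), (.hz 9 183, 354485), (.rw 7, 2)]))
.fin))
(.ask 87
(.mark 119 [3, 7, 8]
(.spn
(.haz 8 247 1 4
(.lp [[3], [0, 2, 5, 7], [1, 4, 6, 8]] [(.mj 3 7, 18230), (.mj 4 5, 117658), (.mj 5 6, 147943), (.mj 6 3, 118921), (.rw 6, 215), (.hz 9 165, 16081016), (.hz 9 167, 81251452), (.hz 9 183, 121887605), (.hz 13 247, 65514537), (.hz 9 375, 120845087)])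
(.lp [[3], [0, 2, 5, 7], [1, 4, 6, 8]] [(.mj 3 7, 4), (.mj 5 6, 3), (.mj 6 3, 4), (.hz 13 87, 1657), (.hz 13 119, 8835)]))
(.maj 3 8
(.cut 3 [(0, 1), (1, 1), (2, 1), (3, 1), (5, 1), (7, 1), (19, 1), (37, 1), (23, 1), (39, 1), (83, 1), (55, 1), (87, 1), (119, 1)]
(.lp [[3], [0, 2, 5, 7], [1, 4, 6, 8]] [(.mj 4 5, 2018), (.mj 5 6, 2630), (.mj 6 7, 2448), (.mj 7 3, 2630), (.hz 9 375, 9752433), (.rw 7, 8)]))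
(.cut 3 [(0, 1), (1, 1), (2, 1), (3, 1), (5, 1), (7, 1), (19, 1), (37, 1), (23, 1), (39, 1), (83, 1), (55, 1), (87, 1), (119, 1)]
(.lp [[3], [0, 2, 5, 7], [1, 4, 6, 8]] [(.mj 4 5, 852), (.mj 5 6, 601), (.mj 6 7, 76), (.mj 7 3, 256), (.mj 7 8, 31), (.mj 8 3, 289), (.rw 7, 2)])))
(.cut 3 [(0, 1), (1, 1), (2, 1), (3, 1), (5, 1), (7, 1), (19, 1), (37, 1), (23, 1), (39, 1), (55, 1)]
(.lp [[3], [0, 2, 5, 7], [1, 4, 6, 8]] [(.mj 4 5, 682), (.mj 5 6, 923), (.mj 8 3, 696), (.mj 8 7, 228), (.hz 9 165, 11588), (.hz 9 167, 166631), (.hz 9 183, 83895), (.hz 9 375, 225299), (.rw 7, 2)]))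
.fin))
(.ask 119
(.mark 119 [3, 7, 8]
(.spn
(.haz 8 247 11 40
(.haz 7 375 7 40
(.ask 375
(.mark 375 [3, 7, 9]
(.lp [[3], [0, 2, 5, 7], [1, 4, 6, 8, 9]] [(.mj 3 7, 35), (.mj 3 8, 18), (.mj 5 6, 8), (.mj 6 3, 49), (.hz 9 165, 2475), (.hz 9 167, 12507), (.hz 9 183, 16863), (.hz 14 375, 15762), (.hz 14 383, 8826), (.hz 14 887, 8826)]))
(.lp [[3], [0, 2, 5, 7], [1, 4, 6, 8]] [(.mj 3 7, 2), (.mj 6 3, 3)]))
(.lp [[3], [0, 2, 5, 7], [1, 4, 6, 8]] [(.mj 3 8, 7), (.mj 5 6, 5), (.mj 6 3, 8), (.hz 14 37, 129), (.hz 14 39, 538), (.hz 9 165, 277), (.hz 14 55, 1380), (.hz 9 167, 1330), (.hz 14 119, 859), (.hz 13 247, 3325)]))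
(.lp [[3], [0, 2, 5, 7], [1, 4, 6, 8]] [(.mj 3 7, 2), (.mj 5 6, 1), (.mj 6 3, 2), (.hz 13 119, 456)]))
(.cut 3 [(0, 1), (1, 1), (2, 1), (3, 1), (5, 1), (7, 1), (19, 1), (37, 1), (23, 1), (39, 1), (83, 1), (55, 1), (87, 1)]
(.lp [[3], [0, 2, 5, 7], [1, 4, 6, 8]] [(.mj 4 5, 831384), (.mj 7 3, 1327772), (.mj 7 8, 67147), (.hz 11 173, 240483081), (.hz 9 375, 852736432), (.rw 7, 4148)]))
(.cut 3 [(0, 1), (1, 1), (2, 1), (3, 1), (5, 1), (7, 1), (19, 1), (37, 1), (23, 1), (39, 1), (83, 1), (165, 1), (87, 1)]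
(.cut 3 [(0, 1), (1, 1), (2, 1), (3, 1), (5, 1), (7, 1), (19, 1), (37, 1), (23, 1), (83, 1), (87, 1)]
(.cut 3 [(0, 1), (1, 1), (2, 1), (3, 1), (5, 1), (7, 1), (19, 1), (37, 1), (23, 1), (39, 1), (83, 1), (165, 2), (55, 1), (87, 1), (167, 2), (119, 1), (183, 1), (247, 1)]
(.cut 3 [(0, 1), (1, 1), (2, 1), (3, 1), (5, 1), (7, 1), (19, 1), (37, 1), (23, 1), (39, 1), (83, 1), (55, 1), (87, 1), (119, 1)]
(.cut 3 [(0, 1), (1, 1), (2, 1), (3, 1), (5, 1), (7, 1), (37, 1), (39, 1), (165, 2), (167, 1)]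
(.cut 7 [(0, 1), (1, 1), (2, 1), (3, 1), (5, 1), (9, 1), (7, 1), (11, 1), (13, 1), (19, 1), (37, 1), (15, 1), (23, 1), (27, 1), (39, 1), (45, 1), (83, 1), (31, 1), (47, 1), (55, 1), (87, 1), (91, 1), (63, 1), (95, 1), (119, 1), (127, 1)]
(.lp [[3], [0, 2, 5, 7], [1, 4, 6, 8]] [(.mj 4 5, 214632), (.mj 5 6, 180716), (.mj 8 3, 407861), (.hz 11 173, 94186865), (.hz 12 127, 152355624), (.hz 9 247, 52566159), (.rw 7, 51), (.rw 8, 955), (.rw 9, 3), (.rw 10, 404), (.rw 11, 51), (.rw 12, 6)])))))))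
.fin))
(.cut 3 [(0, 1), (1, 1), (2, 1), (3, 1), (5, 1), (7, 1), (19, 1), (37, 1), (23, 1), (83, 1), (165, 1), (87, 1)]
(.lp [[3], [1, 4, 6], [0, 2, 5, 7]] [(.mj 4 5, 3941), (.mj 5 6, 794), (.mj 6 3, 2808), (.mj 6 7, 1026), (.hz 9 165, 653608), (.hz 9 167, 2775326), (.hz 6 91, 12105), (.hz 9 183, 4751928), (.rw 6, 2)])))))
(.cut 3 [(0, 1), (1, 1), (2, 1), (3, 1), (5, 1), (7, 1), (19, 1), (37, 1), (23, 1), (39, 1), (55, 1)]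
(.lp [[3], [1, 4, 6], [0, 2, 5, 7]] [(.mj 4 5, 1), (.mj 5 6, 969), (.mj 6 3, 439), (.hz 12 37, 29314), (.hz 12 39, 74265), (.hz 12 47, 14143), (.hz 12 63, 154688), (.rw 6, 1)])))
(.cut 3 [(0, 1), (1, 1), (2, 1), (3, 1), (5, 1), (7, 1), (19, 1), (37, 1), (23, 1), (39, 1), (55, 1)]
(.lp [[3], [1, 4, 6], [0, 2, 5, 7]] [(.mj 4 5, 1254), (.mj 7 3, 814), (.mj 7 6, 814), (.hz 9 37, 22497), (.hz 6 91, 218046), (.rw 6, 2)]))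
.fin))

theorem run66 : run P3488 (leaf3 218 625) (cutRow P3488) [] t66 s66 = true := by
  decide +kernel

theorem bad66 : Bad P3488 s66 :=
  run_sound (leaf3_sound P3488 rfl rfl) (cutRow_sound P3488) (
    fun _ h => absurd h List.not_mem_nil) t66 s66 run66

end Pool.Agent.WN.Data
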