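import Pool.Agent.WN.CutRow
import Pool.Agent.WN.LeafRow
import Pool.Agent.Helper99.WN.ParDef

/-!
# The search tree, part 3
-/

set_option autoImplicit false

namespace Pool.Agent.WN.Data

open Pool.Agent.W3 Pool.Agent.WN Pool.Agent.Helper99.WN

/-- the state above piece 165 of the tree -/
def s165 : St := ⟨[0, 0, 1, 3, 5, 15, 21, 23, 47], [63, 31, 21, 15, 11, 7, 5, 3, 2, 1, 0], [0, 1, 2, 3, 4, 5, 8],
  [(5, 6), (4, 5)],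
  [⟨true, 2, 3, 3, 10⟩, ⟨true, 1, 5, 2, 5⟩, ⟨true, 2, 3, 23, 50⟩, ⟨true, 1, 5, 12, 25⟩, ⟨true, 1, 21, 27, 50⟩, ⟨true, 4, 15, 9, 40⟩, ⟨true, 3, 23, 11, 20⟩, ⟨true, 4, 47, 7, 20⟩, ⟨true, 4, 47, 17, 40⟩, ⟨true, 4, 47, 9, 20⟩, ⟨true, 4, 47, 19, 40⟩, ⟨true, 3, 87, 27, 40⟩],
  [.spn 0 0 651200, .spn 1 1 302400, .spn 3 2 302400, .spn 7 3 302400, .spn 15 4 302400, .spn 31 5 140426, .spn 63 8 140426]⟩

/-- piece 165 of the tree -/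
noncomputable def t165 : WN.Tree :=
(.haz 1 85 17 25
(.haz 6 447 1 20
(.haz 7 95 1 20
(.ask 303
(.mark 319 [6, 7, 9]
(.spn
(.haz 6 159 3 20
(.lp [[7], [0, 2, 4, 6], [1, 3, 5, 8, 9]] [(.mj 3 4, 6111), (.mj 6 7, 1650), (.mj 8 6, 4506), (.rw 4, 22), (.hz 15 159, 8273938), (.hz 15 191, 4781975)])
(.cut 7 [(0, 1), (1, 1), (2, 1), (3, 1), (5, 1), (7, 1), (11, 1), (21, 1), (15, 1), (23, 1), (85, 1), (31, 1), (47, 1), (63, 1), (303, 1), (319, 1), (815, 1)]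
(.lp [[7], [0, 2, 4, 6], [1, 3, 5, 8, 9]] [(.mj 3 4, 2827), (.mj 6 7, 4355), (.mj 8 7, 357), (.rw 4, 18), (.hz 15 31, 4712474), (.rw 8, 4)])))
(.haz 7 127 3 20
(.haz 7 127 1 5
(.lp [[7], [0, 2, 4, 6], [1, 3, 5, 8, 9]] [(.mj 3 4, 9857), (.mj 8 7, 3273), (.rw 4, 20), (.hz 16 127, 46206521), (.hz 13 447, 219682)])
(.lp [[7], [0, 2, 4, 6], [1, 3, 5, 8, 9]] [(.mj 4 5, 652), (.mj 7 6, 269), (.rw 4, 1), (.rw 7, 1), (.hz 16 31, 516771), (.hz 16 63, 6071003), (.hz 15 127, 1344444)]))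
(.lp [[7], [0, 2, 4, 6], [1, 3, 5, 8, 9]] [(.mj 4 5, 440), (.mj 7 6, 157), (.rw 7, 1), (.hz 15 63, 1375890)]))
(.cut 6 [(0, 1), (1, 1), (2, 1), (3, 1), (5, 1), (7, 1), (11, 1), (21, 1), (15, 1), (23, 1), (31, 1), (47, 1), (151, 1), (63, 1), (159, 2), (303, 1), (191, 2), (319, 1), (815, 1), (447, 1)]
(.cut 7 [(0, 1), (1, 1), (2, 1), (3, 1), (5, 1), (7, 1), (11, 1), (21, 1), (15, 1), (23, 1), (85, 1), (31, 1), (47, 1), (87, 1), (63, 1), (95, 1), (303, 1), (815, 1)]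
(.lp [[7], [0, 2, 4, 6], [1, 3, 5, 8, 9]] [(.mj 3 4, 126376), (.mj 9 6, 28479), (.mj 9 7, 47429), (.rw 4, 318), (.hz 14 95, 129858802), (.hz 14 127, 39971640), (.hz 13 447, 118123210), (.rw 8, 2), (.rw 9, 17)])))
.fin))
(.ask 319
(.mark 319 [6, 7, 9]
(.spn
(.haz 6 191 7 50
(.haz 6 831 1 5
(.haz 9 383 8 25
(.ask 151
(.mark 447 [6, 9, 10]
(.cut 7 [(0, 1), (1, 1), (2, 1), (3, 1), (5, 1), (7, 1), (11, 1), (21, 1), (15, 1), (23, 1), (85, 1), (31, 1), (47, 1), (87, 1), (63, 1), (95, 1), (303, 1), (127, 1), (319, 1), (831, 2)]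
(.cut 7 [(0, 1), (1, 1), (2, 1), (3, 1), (5, 1), (7, 1), (11, 1), (21, 1), (15, 1), (23, 1), (85, 1), (31, 1), (47, 1), (87, 1), (63, 1), (95, 1), (303, 1), (127, 2), (319, 1), (831, 2)]
(.lp [[6], [0, 2, 4, 7, 10], [1, 3, 5, 8, 9]] [(.mj 3 4, 13168), (.mj 6 9, 5710), (.mj 8 6, 6243), (.hz 15 191, 968206), (.hz 15 1215, 16764131), (.hz 15 1471, 2431688), (.hz 17 1535, 15198052), (.rw 8, 2), (.rw 9, 1)]))))
(.haz 9 447 3 10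
(.ask 159
(.mark 447 [6, 9, 10]
(.cut 7 [(0, 1), (1, 1), (2, 1), (3, 1), (5, 1), (7, 1), (11, 1), (21, 1), (15, 1), (23, 1), (85, 1), (31, 1), (47, 1), (303, 1)]
(.cut 7 [(0, 1), (1, 1), (2, 1), (3, 1), (5, 1), (7, 1), (11, 1), (21, 1), (15, 1), (23, 1), (85, 1), (31, 1), (47, 1), (87, 1), (63, 1), (95, 1), (303, 1), (127, 1), (319, 1), (831, 2)]
(.lp [[6], [0, 2, 4, 7, 10], [1, 3, 5, 8, 9]] [(.mj 3 4, 703723), (.mj 6 9, 284908), (.mj 8 6, 292780), (.hz 14 95, 120441001), (.hz 15 1215, 428227874), (.hz 18 1471, 1760962035), (.rw 8, 25), (.rw 9, 121)]))))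
(.ask 191
(.mark 447 [6, 9, 10]
(.cut 7 [(0, 1), (1, 1), (2, 1), (3, 1), (5, 1), (7, 1), (11, 1), (21, 1), (15, 1), (23, 1), (85, 1), (31, 1), (47, 1), (87, 1), (63, 1), (95, 1), (303, 1), (127, 1), (319, 1), (831, 2)]
(.lp [[6], [0, 2, 4, 7, 10], [1, 3, 5, 8, 9]] [(.mj 3 4, 5534), (.mj 6 9, 2668), (.mj 8 6, 3074), (.hz 15 191, 767932), (.hz 18 447, 817647), (.hz 15 1215, 3122502), (.hz 18 1471, 14320873), (.rw 8, 1)])))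
(.haz 6 447 13 50
(.ask 447
(.mark 447 [6, 9, 10]
(.lp [[6], [0, 2, 4, 7, 10], [1, 3, 5, 8, 9]] [(.mj 6 7, 6), (.mj 6 9, 35), (.mj 8 6, 58), (.hz 19 447, 23907), (.hz 18 447, 76611), (.hz 18 1471, 100028)]))
(.lp [[7], [0, 2, 4, 6], [1, 3, 5, 8, 9]] [(.mj 6 9, 2), (.mj 8 6, 3)]))
(.lp [[7], [0, 2, 4, 6], [1, 3, 5, 8, 9]] [(.mj 4 5, 542), (.mj 6 9, 691), (.rw 7, 2), (.hz 15 191, 78800), (.hz 19 319, 891861), (.hz 18 447, 1986667)]))))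
(.lp [[7], [0, 2, 4, 6], [1, 3, 5, 8, 9]] [(.mj 3 4, 14), (.mj 8 6, 2), (.hz 15 191, 5259), (.hz 18 319, 4608)])))
(.lp [[7], [0, 2, 4, 6], [1, 3, 5, 8, 9]] [(.mj 3 4, 8), (.mj 8 6, 1), (.hz 15 191, 3048), (.hz 17 319, 1075)]))
(.lp [[7], [0, 2, 4, 6], [1, 3, 5, 8, 9]] [(.mj 4 5, 400), (.mj 6 9, 105), (.rw 7, 1), (.hz 16 319, 3746919)]))
(.lp [[7], [0, 2, 4, 6], [1, 3, 5, 8, 9]] [(.mj 4 5, 367), (.rw 7, 2), (.hz 15 63, 717311)]))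
(.haz 7 127 7 50
(.haz 9 383 3 10
(.ask 85
(.mark 383 [7, 9, 10]
(.lp [[7], [0, 2, 4, 6, 10], [1, 3, 5, 8, 9]] [(.mj 3 4, 16), (.mj 7 9, 12), (.mj 8 7, 16), (.hz 11 87, 3064), (.hz 16 383, 4354), (.hz 15 1151, 39140), (.hz 13 447, 11920), (.hz 16 1407, 71098)]))
(.ask 87
(.mark 383 [7, 9, 10]
(.lp [[7], [0, 2, 4, 6, 10], [1, 3, 5, 8, 9]] [(.mj 3 4, 100), (.mj 7 9, 74), (.mj 8 7, 98), (.hz 11 87, 18053), (.hz 16 383, 29749), (.hz 15 1151, 236043), (.hz 13 447, 75273), (.hz 16 1407, 433451)]))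
(.ask 95
(.mark 383 [7, 9, 10]
(.cut 6 [(0, 1), (1, 1), (2, 1), (3, 1), (5, 1), (7, 1), (11, 1), (21, 1), (15, 1), (23, 1), (31, 1), (47, 1), (151, 1), (63, 1), (159, 1), (303, 1), (191, 1), (319, 1), (831, 2)]
(.lp [[7], [0, 2, 4, 6, 10], [1, 3, 5, 8, 9]] [(.mj 3 4, 8555), (.mj 7 9, 4707), (.mj 8 7, 5885), (.hz 14 1119, 8824224), (.hz 15 1151, 6782436), (.hz 13 447, 2249502), (.hz 15 1407, 1103459), (.hz 16 1407, 29957112), (.rw 8, 2)])))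
(.ask 127
(.mark 383 [7, 9, 10]
(.cut 6 [(0, 1), (1, 1), (2, 1), (3, 1), (5, 1), (7, 1), (11, 1), (21, 1), (15, 1), (23, 1), (31, 1), (47, 1), (151, 1), (63, 1), (159, 1), (303, 1), (191, 1), (319, 1), (831, 2)]
(.cut 6 [(0, 1), (1, 1), (2, 1), (3, 1), (5, 1), (7, 1), (11, 1), (21, 1), (15, 1), (23, 1), (31, 1), (47, 1), (151, 1), (63, 1), (159, 1), (303, 1), (191, 2), (319, 1), (831, 2)]
(.lp [[7], [0, 2, 4, 6, 10], [1, 3, 5, 8, 9]] [(.mj 3 4, 148097), (.mj 7 6, 9484), (.mj 7 9, 101074), (.mj 8 7, 137557), (.hz 15 127, 13762854), (.hz 15 1151, 145757131), (.hz 16 1407, 588306421), (.rw 8, 44), (.rw 9, 16)]))))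
(.ask 383
(.maj 6 9
(.mark 383 [7, 9, 10]
(.cut 6 [(0, 1), (1, 1), (2, 1), (3, 1), (5, 1), (7, 1), (11, 1), (21, 1), (15, 1), (23, 1), (31, 1), (47, 1), (63, 1), (303, 1), (319, 1)]
(.lp [[7], [0, 2, 4, 6, 10], [1, 3, 5, 8, 9]] [(.mj 7 6, 32081), (.mj 7 9, 73411), (.mj 8 7, 125070), (.hz 16 383, 189046370), (.hz 16 1407, 215643803), (.rw 8, 70)])))
(.mark 383 [7, 9, 10]
(.cut 6 [(0, 1), (1, 1), (2, 1), (3, 1), (5, 1), (7, 1), (11, 1), (21, 1), (15, 1), (23, 1), (31, 1), (47, 1), (63, 1), (303, 1), (319, 1), (831, 2)]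
(.lp [[7], [0, 2, 4, 6, 10], [1, 3, 5, 8, 9]] [(.mj 4 5, 9234), (.mj 7 9, 2430), (.mj 8 7, 7290), (.mj 9 6, 2441), (.hz 15 127, 3273269), (.hz 16 1407, 10981297), (.rw 8, 2)]))))
(.lp [[7], [0, 2, 4, 6], [1, 3, 5, 8, 9]] [(.mj 7 9, 2), (.mj 8 7, 3)]))))))
(.lp [[7], [0, 2, 4, 6], [1, 3, 5, 8, 9]] [(.mj 3 4, 8), (.mj 7 6, 5), (.mj 8 7, 14), (.hz 15 127, 15166), (.hz 16 319, 13723)]))
(.lp [[7], [0, 2, 4, 6], [1, 3, 5, 8, 9]] [(.mj 4 5, 386), (.rw 7, 2), (.hz 15 63, 708134)]))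
(.ask 831
(.mark 831 [6, 7, 10]
(.spn
(.lp [[7], [0, 2, 4, 6], [1, 3, 5, 8, 9, 10]] [(.mj 9 6, 624), (.rw 8, 1), (.hz 14 95, 739526), (.hz 14 127, 1168753), (.hz 14 383, 2010877)])
(.lp [[7], [0, 2, 4, 6], [1, 3, 5, 8, 9, 10]] [(.mj 4 5, 1100), (.mj 9 7, 3208), (.rw 4, 1), (.rw 8, 6), (.hz 14 95, 3436748), (.hz 13 447, 15616099), (.hz 13 959, 171837)])
(.maj 6 7
(.cut 7 [(0, 1), (1, 1), (2, 1), (3, 1), (5, 1), (7, 1), (11, 1), (21, 1), (15, 1), (23, 1), (85, 1), (31, 1), (47, 1), (63, 1), (303, 1)]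
(.cut 6 [(0, 1), (1, 1), (2, 1), (3, 1), (5, 1), (7, 1), (11, 1), (21, 1), (15, 1), (23, 1), (31, 1), (47, 1), (63, 1), (303, 1), (319, 1)]
(.cut 7 [(0, 1), (1, 1), (2, 1), (3, 1), (5, 1), (7, 1), (11, 1), (21, 1), (15, 1), (23, 1), (85, 1), (31, 1), (47, 1), (87, 1), (63, 1), (95, 1), (303, 1), (127, 2), (319, 1), (383, 1)]
(.cut 7 [(0, 1), (1, 1), (2, 1), (3, 1), (5, 1), (7, 1), (11, 1), (21, 1), (15, 1), (23, 1), (85, 1), (31, 1), (47, 1), (87, 1), (63, 1), (95, 2), (303, 1), (127, 1), (319, 1), (383, 1)]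
(.lp [[7], [0, 2, 4, 6], [1, 3, 5, 8, 9, 10]] [(.mj 4 5, 60557), (.mj 10 6, 12051), (.rw 4, 235), (.rw 8, 48), (.rw 9, 63), (.rw 10, 143), (.rw 11, 14), (.rw 12, 21)])))))
(.cut 6 [(0, 1), (1, 1), (2, 1), (3, 1), (5, 1), (7, 1), (11, 1), (21, 1), (15, 1), (23, 1), (31, 1), (47, 1), (303, 1)]
(.cut 6 [(0, 1), (1, 1), (2, 1), (3, 1), (5, 1), (7, 1), (11, 1), (21, 1), (15, 1), (23, 1), (31, 1), (47, 1), (151, 1), (63, 1), (159, 2), (303, 1), (191, 1)]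
(.cut 7 [(0, 1), (1, 1), (2, 1), (3, 1), (5, 1), (7, 1), (11, 1), (21, 1), (15, 1), (23, 1), (31, 1), (47, 1), (63, 1), (303, 1), (319, 1)]
(.cut 6 [(0, 1), (1, 1), (2, 1), (3, 1), (5, 1), (7, 1), (11, 1), (21, 1), (15, 1), (23, 1), (31, 1), (47, 1), (151, 1), (63, 1), (159, 2), (303, 1), (191, 2), (319, 1), (447, 1)]
(.cut 7 [(0, 1), (1, 1), (2, 1), (3, 1), (5, 1), (7, 1), (11, 1), (21, 1), (15, 1), (23, 1), (31, 1), (47, 1), (63, 1), (303, 1), (319, 1), (831, 1)]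
(.lp [[7], [0, 2, 4, 6], [1, 3, 5, 8, 9, 10]] [(.mj 4 5, 10954), (.mj 10 7, 4806), (.rw 4, 22), (.rw 8, 6), (.hz 13 447, 34461177), (.rw 9, 3), (.rw 10, 4), (.rw 11, 20), (.rw 12, 7), (.rw 13, 6)])))))))
.fin))
(.lp [[7], [0, 2, 4, 6], [1, 3, 5, 8, 9]] [(.mj 9 7, 1), (.rw 7, 1)]))
.fin))
(.lp [[7], [0, 2, 4, 6], [1, 3, 5, 8]] [(.mj 3 4, 33), (.mj 8 7, 1)])))
(.cut 7 [(0, 1), (1, 1), (2, 1), (3, 1), (5, 1), (7, 1), (11, 1), (21, 1), (15, 1), (23, 1), (85, 1), (31, 1), (47, 1), (63, 1), (303, 1)]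
(.lp [[7], [0, 2, 4, 6], [1, 3, 5, 8]] [(.mj 8 6, 16190), (.rw 4, 100), (.hz 14 31, 39826941), (.hz 13 447, 53446016), (.rw 7, 28)])))
(.cut 6 [(0, 1), (1, 1), (2, 1), (3, 1), (5, 1), (7, 1), (11, 1), (21, 1), (15, 1), (23, 1), (31, 1), (47, 1), (63, 1), (303, 1)]
(.lp [[7], [0, 2, 4, 6], [1, 3, 5, 8]] [(.mj 3 4, 6005), (.mj 8 7, 6677), (.rw 4, 54), (.hz 13 31, 1810168), (.hz 13 63, 3455224), (.hz 13 319, 13044734), (.rw 7, 14)])))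
(.lp [[7], [0, 2, 4, 6], [1, 3, 5, 8]] [(.mj 3 4, 1662), (.mj 8 6, 335), (.rw 4, 4), (.hz 12 21, 287690), (.hz 4 85, 113179)]))

theorem run165 : run P3488 (leaf3 218 625) (cutRow P3488) [] t165 s165 = true := by
  decide +kernel

theorem bad165 : Bad P3488 s165 :=
  run_sound (leaf3_sound P3488 rfl rfl) (cutRow_sound P3488) (
    fun _ h => absurd h List.not_mem_nil) t165 s165 run165

/-- the state above piece 81 of the tree -/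
def s81 : St := ⟨[0, 0, 1, 3, 3, 5], [7, 3, 2, 1, 0], [0, 1, 2, 3],
  [],
  [⟨true, 2, 3, 3, 10⟩, ⟨true, 1, 5, 2, 5⟩, ⟨true, 2, 3, 23, 50⟩, ⟨true, 1, 5, 12, 25⟩],
  [.spn 0 0 651200, .spn 1 1 302400, .spn 3 2 140426, .spn 7 3 140426]⟩

/-- piece 81 of the tree -/
noncomputable def t81 : WN.Tree :=
(.ask 37
(.haz 5 23 3 20
(.haz 5 15 3 10
(.ask 11
(.mark 15 [4, 5, 7]
(.spn
(.lp [[4], [1, 3, 7], [0, 2, 5, 6]] [(.mj 0 1, 12), (.mj 3 4, 1), (.mj 4 5, 4), (.hz 3 37, 122), (.hz 5 15, 1079), (.hz 4 23, 154), (.hz 2 139, 10), (.hz 5 143, 526)])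
(.mark 47 [4, 6, 7]
(.spn
(.haz 6 63 1 4
(.lp [[4], [1, 3, 7], [0, 2, 5, 6]] [(.mj 0 1, 283277), (.mj 3 5, 74838), (.mj 5 4, 8094), (.rw 4, 7), (.rw 5, 49), (.hz 3 101, 2425316), (.hz 6 63, 73625668)])
(.lp [[4], [1, 3, 7], [0, 2, 5, 6]] [(.mj 0 1, 40), (.mj 3 5, 4), (.mj 4 7, 1), (.hz 6 37, 2494), (.hz 6 39, 2443), (.hz 6 47, 3258)]))
(.ask 101
(.mark 103 [3, 4, 8]
(.cut 4 [(0, 1), (1, 1), (2, 1), (3, 1), (5, 1), (7, 1), (11, 1), (37, 1), (15, 1), (39, 1), (101, 1), (47, 1), (357, 1)]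
(.lp [[4], [1, 3, 7], [0, 2, 5, 6, 8]] [(.mj 0 1, 25939), (.mj 3 5, 11252), (.mj 6 4, 2091), (.mj 6 7, 1798), (.rw 5, 1), (.hz 4 23, 1200882), (.hz 5 143, 1027218), (.hz 3 357, 564162), (.rw 6, 5)])))
(.lp [[4], [1, 3, 7], [0, 2, 5, 6]] [(.mj 0 1, 69), (.mj 3 5, 17), (.mj 6 7, 1), (.hz 4 23, 3058), (.hz 5 143, 373)]))
(.haz 4 143 1 20
(.haz 5 23 1 4
(.lp [[4], [1, 3, 7], [0, 2, 5, 6]] [(.mj 0 1, 464), (.mj 3 5, 139), (.mj 5 7, 14), (.hz 7 23, 147050), (.hz 3 101, 3974), (.hz 6 143, 11873)])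
(.lp [[4], [1, 3, 7], [0, 2, 5, 6]] [(.mj 0 1, 2), (.hz 7 5, 163), (.hz 7 7, 150)]))
(.cut 4 [(0, 1), (1, 1), (2, 1), (3, 1), (5, 1), (7, 1), (11, 1), (37, 1), (15, 1), (39, 1), (101, 1), (47, 1)]
(.lp [[4], [1, 3, 7], [0, 2, 5, 6]] [(.mj 0 1, 6744), (.mj 3 5, 2585), (.mj 5 7, 517), (.hz 6 7, 105569), (.hz 6 11, 79349), (.hz 6 15, 31677), (.hz 3 101, 134671), (.rw 6, 1)])))
.fin))
(.lp [[4], [1, 3, 7], [0, 2, 5, 6]] [(.mj 0 1, 14), (.mj 7 4, 1), (.mj 7 5, 4), (.hz 3 37, 144), (.hz 5 15, 1278), (.hz 4 23, 720)])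
.fin))
(.ask 15
(.mark 15 [4, 5, 7]
(.spn
(.lp [[4], [1, 3, 7], [0, 2, 5, 6]] [(.mj 0 1, 10), (.mj 3 4, 1), (.mj 4 5, 3), (.hz 3 37, 100), (.hz 5 15, 888), (.hz 5 31, 352), (.hz 5 143, 581)])
(.mark 47 [4, 6, 7]
(.spn
(.haz 4 15 1 5
(.lp [[4], [1, 3, 7], [0, 2, 5, 6]] [(.mj 0 1, 3008), (.mj 3 5, 2342), (.mj 4 7, 389), (.mj 5 4, 2586), (.rw 5, 1), (.hz 6 15, 2272293), (.hz 3 101, 25755), (.hz 6 143, 1616366), (.hz 6 111, 2188121)])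
(.haz 7 111 1 4
(.ask 101
(.mark 111 [4, 7, 8]
(.lp [[4], [1, 3, 7], [0, 2, 5, 6, 8]] [(.mj 0 1, 4449), (.mj 3 5, 5301), (.mj 4 7, 3856), (.mj 5 4, 4044), (.rw 4, 1), (.hz 6 7, 135625), (.hz 3 101, 36229), (.hz 5 143, 421726), (.hz 7 111, 5422192), (.hz 7 367, 12049315)]))
(.lp [[4], [1, 3, 7], [0, 2, 5, 6]] [(.mj 0 1, 82681), (.mj 3 5, 20570), (.mj 4 7, 3033), (.rw 4, 1), (.rw 5, 7), (.hz 6 7, 2520776), (.hz 5 143, 1042426), (.hz 7 111, 6633620)]))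
(.lp [[4], [1, 3, 7], [0, 2, 5, 6]] [(.mj 0 1, 5045), (.mj 3 5, 3333), (.mj 5 4, 1315), (.rw 5, 1), (.hz 6 15, 29562), (.hz 7 15, 1379573), (.hz 7 47, 788327)])))
(.ask 101
(.mark 111 [4, 7, 8]
(.cut 4 [(0, 1), (1, 1), (2, 1), (3, 1), (5, 1), (7, 1), (11, 1), (37, 1), (15, 1), (39, 1), (101, 1), (47, 1), (357, 1)]
(.lp [[4], [1, 3, 7], [0, 2, 5, 6, 8]] [(.mj 3 5, 4055), (.mj 6 4, 2749), (.mj 6 7, 2195), (.hz 5 143, 577282), (.hz 3 357, 280725), (.rw 6, 4)])))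
(.cut 4 [(0, 1), (1, 1), (2, 1), (3, 1), (5, 1), (7, 1), (37, 1), (39, 1), (101, 1)]
(.cut 4 [(0, 1), (1, 1), (2, 1), (3, 1), (5, 1), (7, 1), (11, 1), (37, 1), (15, 1), (39, 1), (101, 1), (47, 1)]
(.lp [[4], [1, 3, 7], [0, 2, 5, 6]] [(.mj 0 1, 28016), (.mj 3 5, 14415), (.mj 6 4, 6065), (.mj 6 7, 4473), (.hz 5 143, 1657832), (.rw 6, 1), (.rw 7, 12)]))))
(.haz 5 23 1 4
(.haz 7 31 3 10
(.haz 4 239 1 20
(.haz 7 111 3 10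
(.haz 6 175 3 20
(.haz 1 101 27 50
(.haz 5 23 3 10
(.haz 1 101 29 50
(.ask 143
(.mark 175 [4, 6, 8]
(.spn
(.haz 6 175 7 25
(.lp [[4], [0, 2, 5, 6], [1, 3, 7, 8]] [(.mj 4 6, 30), (.mj 4 8, 10), (.mj 5 7, 16), (.mj 7 4, 30), (.hz 14 175, 2757), (.hz 5 399, 4380), (.hz 14 191, 14304), (.hz 14 431, 21515), (.hz 8 495, 4723)])
(.lp [[4], [0, 2, 5, 6], [1, 3, 7, 8]] [(.mj 0 1, 305), (.mj 3 5, 44), (.mj 4 6, 9), (.mj 4 8, 5), (.hz 14 37, 2574), (.hz 12 23, 5469), (.hz 14 39, 714), (.hz 14 47, 415), (.hz 10 191, 3901), (.hz 10 431, 9683)]))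
(.ask 101
(.mark 239 [4, 8, 9]
(.spn
(.lp [[4], [1, 3, 7, 8], [0, 2, 5, 6, 9]] [(.mj 4 8, 5220), (.mj 6 4, 5220), (.mj 7 6, 12527), (.rw 6, 8), (.rw 7, 11)])
(.cut 4 [(0, 1), (1, 1), (2, 1), (3, 1), (5, 1), (7, 1), (11, 1), (37, 1), (15, 1), (39, 1), (101, 1), (47, 1), (103, 1), (143, 1), (613, 1), (111, 1), (175, 1), (239, 1)]
(.lp [[4], [1, 3, 7, 8], [0, 2, 5, 6, 9]] [(.mj 3 5, 5797), (.mj 6 8, 3862), (.mj 7 6, 685), (.mj 8 4, 3862), (.hz 13 613, 329511), (.hz 5 415, 3367804), (.hz 8 751, 6780394), (.rw 8, 11)]))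
(.lp [[4], [1, 3, 7, 8], [0, 2, 5, 6, 9]] [(.mj 0 1, 85793), (.mj 3 5, 46305), (.mj 5 7, 2861), (.mj 9 4, 1115), (.mj 9 8, 5605), (.rw 6, 14), (.hz 2 19, 249328), (.hz 12 23, 22914326), (.hz 5 31, 1982048), (.hz 5 399, 3668211), (.hz 8 239, 833999), (.hz 8 495, 43984117), (.hz 8 751, 18668531)])
.fin))
(.cut 4 [(0, 1), (1, 1), (2, 1), (3, 1), (5, 1), (7, 1), (37, 1), (39, 1), (101, 1)]
(.cut 4 [(0, 1), (1, 1), (2, 1), (3, 1), (5, 1), (7, 1), (11, 1), (37, 1), (15, 1), (101, 1), (143, 1)]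
(.cut 4 [(0, 1), (1, 1), (2, 1), (3, 1), (5, 1), (7, 1), (11, 1), (37, 1), (15, 1), (39, 1), (101, 1), (47, 1), (143, 1), (175, 1)]
(.lp [[4], [0, 2, 5, 6], [1, 3, 7, 8]] [(.mj 0 1, 2296441), (.mj 3 5, 532621), (.mj 5 7, 36284), (.mj 6 8, 23156), (.hz 12 23, 76388642), (.hz 5 399, 14472313), (.hz 5 415, 47066478), (.rw 7, 32), (.rw 8, 90), (.rw 9, 34)])))))
(.haz 6 47 13 50
(.cut 4 [(0, 1), (1, 1), (2, 1), (3, 1), (5, 1), (7, 1), (11, 1), (37, 1), (15, 1), (39, 1), (101, 1), (47, 1), (143, 1), (175, 1)]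
(.lp [[4], [0, 2, 5, 6], [1, 3, 7, 8]] [(.mj 0 1, 136937), (.mj 3 5, 25395), (.mj 5 7, 60942), (.mj 8 4, 53858), (.mj 8 6, 94799), (.hz 12 23, 7378856), (.hz 13 101, 4741774), (.hz 5 31, 1870566), (.hz 14 47, 5475159), (.hz 14 63, 30519082), (.hz 14 175, 19960321), (.hz 14 191, 28462912), (.hz 8 239, 168528343), (.rw 7, 140)]))
(.cut 4 [(0, 1), (1, 1), (2, 1), (3, 1), (5, 1), (7, 1), (37, 1), (39, 1), (101, 1), (103, 1)]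
(.cut 4 [(0, 1), (1, 1), (2, 1), (3, 1), (5, 1), (7, 1), (11, 1), (37, 1), (15, 1), (39, 1), (101, 1), (47, 1), (143, 1), (175, 1)]
(.lp [[4], [0, 2, 5, 6], [1, 3, 7, 8]] [(.mj 0 1, 6861312), (.mj 3 5, 711107), (.mj 5 7, 225863), (.mj 8 6, 219340), (.hz 14 37, 44746123), (.hz 14 39, 18745854), (.hz 10 175, 69658924), (.hz 10 191, 141051232), (.hz 8 239, 179772222), (.rw 7, 77), (.rw 8, 444)]))))
.fin))
(.ask 175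
(.mark 175 [4, 6, 8]
(.spn
(.lp [[4], [0, 2, 5, 6], [1, 3, 7, 8]] [(.mj 0 1, 137), (.mj 3 5, 37), (.mj 4 6, 2), (.mj 4 8, 2), (.mj 5 7, 1), (.hz 12 23, 16135), (.hz 13 101, 516), (.hz 10 191, 1346), (.hz 10 431, 2291)])
(.cut 4 [(0, 1), (1, 1), (2, 1), (3, 1), (5, 1), (7, 1), (11, 1), (37, 1), (15, 1), (39, 1), (101, 1), (47, 1), (143, 1), (175, 1)]
(.lp [[4], [0, 2, 5, 6], [1, 3, 7, 8]] [(.mj 0 1, 45242), (.mj 3 5, 12673), (.mj 6 8, 366), (.hz 12 23, 3696161), (.hz 13 101, 234638), (.hz 5 159, 637955), (.rw 7, 2)]))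
(.ask 431
(.mark 431 [4, 6, 9]
(.spn
(.lp [[4], [0, 2, 5, 6], [1, 3, 7, 8, 9]] [(.mj 8 4, 150), (.rw 7, 1)])
(.lp [[4], [0, 2, 5, 6], [1, 3, 7, 8, 9]] [(.mj 0 1, 18069), (.mj 3 5, 1142), (.mj 6 9, 370), (.mj 8 6, 6023), (.rw 7, 8), (.hz 8 239, 28827358), (.hz 10 943, 45678), (.hz 8 1007, 913562)])
(.lp [[4], [0, 2, 5, 6], [1, 3, 7, 8, 9]] [(.mj 0 1, 76020), (.mj 3 5, 11124), (.mj 9 6, 8176), (.rw 7, 1), (.hz 12 23, 2262501), (.hz 13 101, 286220), (.hz 7 63, 40424), (.hz 10 175, 6702636), (.hz 8 239, 29036577), (.hz 10 431, 5468691), (.hz 8 495, 21024683), (.hz 10 943, 42026), (.hz 8 1007, 840515)])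
.fin))
(.lp [[4], [0, 2, 5, 6], [1, 3, 7, 8]] [(.mj 8 6, 1), (.rw 6, 1)]))
.fin))
(.lp [[4], [1, 3, 7], [0, 2, 5, 6]] [(.mj 0 1, 55), (.mj 3 5, 18), (.mj 5 7, 1), (.hz 12 23, 8157), (.hz 13 101, 173)])))
(.lp [[4], [1, 3, 7], [0, 2, 5, 6]] [(.mj 3 5, 19), (.hz 13 5, 731), (.hz 2 19, 730), (.hz 5 15, 1879), (.hz 12 23, 8448), (.hz 11 101, 499)]))
(.lp [[4], [1, 3, 7], [0, 2, 5, 6]] [(.mj 0 1, 4), (.hz 12 5, 131), (.hz 12 7, 77)]))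
(.lp [[4], [1, 3, 7], [0, 2, 5, 6]] [(.mj 3 5, 5), (.hz 11 5, 273), (.hz 2 19, 172), (.hz 3 37, 466), (.hz 6 23, 3949), (.hz 2 27, 22), (.hz 5 31, 127)]))
(.cut 4 [(0, 1), (1, 1), (2, 1), (3, 1), (5, 1), (7, 1), (37, 1), (39, 1), (101, 1)]
(.lp [[4], [1, 3, 7], [0, 2, 5, 6]] [(.mj 0 1, 18163), (.mj 3 5, 2239), (.hz 10 37, 256870), (.hz 10 39, 36760), (.hz 7 31, 75534), (.hz 10 47, 6712), (.rw 6, 1)])))
(.lp [[4], [1, 3, 7], [0, 2, 5, 6]] [(.mj 0 1, 9), (.mj 3 5, 2), (.mj 7 4, 4), (.mj 7 6, 5), (.hz 9 15, 1660), (.hz 9 47, 3374)]))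
(.cut 4 [(0, 1), (1, 1), (2, 1), (3, 1), (5, 1), (7, 1), (11, 1), (37, 1), (15, 1), (39, 1), (101, 1), (47, 1)]
(.lp [[4], [1, 3, 7], [0, 2, 5, 6]] [(.mj 3 5, 36856), (.mj 5 7, 16328), (.hz 8 3, 694056), (.hz 8 7, 1077613), (.hz 8 11, 730585), (.hz 8 15, 1903366), (.hz 3 101, 5330269), (.hz 8 143, 12957696), (.hz 8 103, 11142693), (.hz 8 111, 25927289), (.hz 8 175, 25927289), (.rw 6, 80)])))
(.lp [[4], [1, 3, 7], [0, 2, 5, 6]] [(.mj 0 1, 40), (.mj 3 5, 12), (.hz 7 15, 1133), (.hz 6 23, 12698), (.hz 3 101, 324)]))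
(.lp [[4], [1, 3, 7], [0, 2, 5, 6]] [(.mj 0 1, 1), (.hz 6 5, 78), (.hz 6 7, 44)]))
.fin))
(.mark 39 [3, 4, 6]
(.lp [[4], [1, 3, 7], [0, 2, 5, 6]] [(.mj 0 1, 49), (.mj 7 5, 14), (.hz 5 15, 6601), (.hz 4 23, 2718), (.hz 3 101, 416)]))
.fin))
(.mark 39 [3, 4, 6]
(.lp [[4], [1, 3], [0, 2, 5, 6]] [(.mj 0 1, 35), (.mj 3 4, 1), (.mj 3 5, 11), (.hz 4 23, 1510), (.hz 3 101, 292), (.hz 5 31, 1168)]))))
(.lp [[4], [1, 3], [0, 2, 5, 6]] [(.mj 0 1, 4), (.hz 5 5, 131), (.hz 5 7, 77)]))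
(.lp [[4], [1, 3], [0, 2, 5, 6]] [(.mj 0 1, 1), (.hz 4 5, 14), (.hz 4 7, 8)]))
(.cut 4 [(0, 1), (1, 1), (2, 1), (3, 1), (5, 1), (7, 1), (37, 1)]
(.lp [[4], [1, 3], [0, 2, 5]] [(.mj 0 1, 17491), (.mj 3 5, 2624), (.rw 4, 1)])))

theorem run81 : run P3488 (leaf3 218 625) (cutRow P3488) [] t81 s81 = true := by
  decide +kernel

theorem bad81 : Bad P3488 s81 :=
  run_sound (leaf3_sound P3488 rfl rfl) (cutRow_sound P3488) (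
    fun _ h => absurd h List.not_mem_nil) t81 s81 run81

/-- the state above piece 39 of the tree -/
def s39 : St := ⟨[0, 0, 1, 1, 7, 7, 11, 23, 47, 159], [191, 183, 151, 63, 55, 39, 31, 15, 13, 9, 7, 5, 3, 2, 1, 0], [0, 1, 2, 3, 4, 5, 7, 6],
  [(3, 4)],
  [⟨true, 1, 9, 7, 50⟩, ⟨true, 2, 11, 3, 50⟩, ⟨true, 2, 9, 9, 50⟩, ⟨true, 3, 3, 1, 5⟩, ⟨true, 1, 5, 13, 50⟩, ⟨true, 2, 11, 3, 5⟩, ⟨true, 2, 9, 8, 25⟩, ⟨true, 2, 9, 17, 50⟩, ⟨true, 2, 11, 33, 50⟩, ⟨true, 4, 47, 4, 25⟩, ⟨true, 4, 79, 1, 5⟩, ⟨true, 5, 159, 7, 50⟩, ⟨true, 4, 79, 3, 10⟩, ⟨true, 3, 23, 7, 25⟩, ⟨true, 3, 23, 3, 10⟩, ⟨true, 6, 63, 2, 25⟩, ⟨true, 5, 95, 4, 25⟩, ⟨true, 4, 79, 9, 25⟩, ⟨true, 4, 303, 13, 50⟩, ⟨true, 6, 159, 3, 25⟩, ⟨true, 4, 303, 8, 25⟩, ⟨true, 6, 47, 7, 50⟩, ⟨true, 4, 79, 21, 50⟩, ⟨true, 4, 303, 11, 25⟩, ⟨true, 8, 703, 3, 25⟩],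
  [.spn 0 0 651200, .spn 1 1 140426, .spn 3 2 302400, .spn 7 3 62723, .spn 15 4 140426, .spn 31 5 62723, .spn 63 7 62723, .spn 191 6 62723]⟩

/-- piece 39 of the tree -/
noncomputable def t39 : WN.Tree :=
(.haz 4 79 19 40
(.ask 75
(.mark 255 [8, 9, 10]
(.spn
(.haz 9 447 1 4
(.lp [[1, 5, 8], [3, 6, 10], [0, 2, 4, 7, 9]] [(.mj 4 5, 14), (.mj 5 7, 9), (.mj 6 8, 22), (.mj 7 6, 36), (.mj 8 9, 22), (.hz 21 303, 10071), (.hz 21 319, 9636), (.hz 19 671, 15088), (.hz 26 447, 217759), (.hz 21 703, 29363)])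
(.lp [[1, 5, 8], [3, 6, 10], [0, 2, 4, 7, 9]] [(.mj 4 5, 22), (.mj 5 7, 9), (.mj 6 8, 34), (.mj 7 6, 41), (.mj 8 9, 10), (.hz 26 159, 63362), (.hz 26 191, 240328)]))
(.ask 671
(.mark 767 [8, 10, 11]
(.lp [[1, 5, 8], [3, 6, 10], [0, 2, 4, 7, 9, 11]] [(.mj 4 5, 1), (.mj 5 7, 40), (.mj 6 9, 31), (.mj 7 6, 58), (.mj 9 8, 36), (.hz 8 1099, 7), (.hz 21 303, 20760), (.hz 25 1103, 55), (.hz 21 319, 53642), (.hz 16 1119, 904), (.hz 25 367, 7904), (.hz 21 447, 38189), (.hz 24 703, 64471)]))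
(.ask 703
(.mark 767 [8, 10, 11]
(.spn
(.haz 9 447 3 8
(.lp [[1, 5, 8], [3, 6, 10], [0, 2, 4, 7, 9, 11]] [(.mj 4 5, 10), (.mj 5 7, 17), (.mj 6 9, 26), (.mj 7 6, 43), (.mj 8 11, 6), (.mj 9 8, 20), (.hz 21 303, 14358), (.hz 21 319, 43259), (.hz 21 447, 450), (.hz 26 447, 147968), (.hz 24 1791, 236482)])
(.lp [[1, 5, 8], [3, 6, 10], [0, 2, 4, 7, 9, 11]] [(.mj 5 7, 5), (.mj 6 8, 1), (.mj 7 6, 6), (.mj 8 11, 1), (.mj 9 8, 4), (.hz 21 303, 2093), (.hz 26 191, 23359), (.hz 21 319, 7406), (.hz 21 447, 1830)]))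
(.lp [[1, 5, 8], [3, 6, 10], [0, 2, 4, 7, 9, 11]] [(.mj 4 5, 88), (.mj 5 7, 1081), (.mj 7 6, 1134), (.mj 10 8, 649), (.mj 10 11, 369), (.rw 7, 1), (.hz 23 303, 20347), (.hz 21 303, 358451), (.hz 21 319, 1176153), (.hz 21 447, 436208), (.hz 24 703, 98015), (.hz 21 2751, 210388), (.hz 24 2751, 2483191)])
(.lp [[1, 5, 8], [3, 6, 10], [0, 2, 4, 7, 9, 11]] [(.mj 5 7, 8), (.mj 6 9, 7), (.mj 7 6, 13), (.mj 11 8, 8), (.hz 21 303, 4643), (.hz 21 319, 11994), (.hz 25 367, 1769), (.hz 21 447, 9912), (.hz 24 703, 28299), (.hz 24 767, 55719)])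
.fin))
(.lp [[1, 5, 8], [3, 6, 10], [0, 2, 4, 7, 9]] [(.mj 4 5, 8), (.mj 5 7, 23), (.mj 6 9, 5), (.mj 7 6, 26), (.mj 9 8, 11), (.hz 21 303, 8838), (.hz 21 319, 25569), (.hz 21 447, 20893)])))
(.lp [[1, 5, 8], [3, 6, 10], [0, 2, 4, 7, 9]] [(.mj 5 7, 2), (.mj 7 6, 7), (.mj 10 8, 4), (.mj 10 9, 3), (.hz 21 303, 2251), (.hz 21 319, 7936), (.hz 19 671, 2895), (.hz 21 447, 4860), (.hz 21 703, 3858), (.hz 24 703, 13630)])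
.fin))
(.haz 5 79 9 40
(.ask 79
(.mark 255 [8, 9, 10]
(.spn
(.ask 671
(.mark 703 [6, 8, 11]
(.lp [[1, 5, 8], [3, 6, 10], [0, 2, 4, 7, 9, 11]] [(.mj 4 5, 7), (.mj 5 7, 11), (.mj 6 8, 21), (.mj 7 6, 28), (.mj 8 9, 13), (.hz 21 303, 6729), (.hz 21 319, 6666), (.hz 19 671, 11921), (.hz 21 703, 12114), (.hz 24 703, 29568), (.hz 24 2751, 42072)]))
(.lp [[1, 5, 8], [3, 6, 10], [0, 2, 4, 7, 9]] [(.mj 4 5, 48), (.mj 5 7, 12), (.mj 6 8, 9), (.mj 7 6, 26), (.mj 8 9, 15), (.hz 21 303, 18380), (.hz 26 1103, 23517), (.hz 21 319, 22887), (.hz 26 1119, 4856), (.hz 21 703, 23889), (.hz 24 703, 14487)]))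
(.ask 671
(.mark 767 [8, 10, 11]
(.lp [[1, 5, 8], [3, 6, 10], [0, 2, 4, 7, 9, 11]] [(.mj 4 5, 5), (.mj 5 7, 29), (.mj 6 9, 21), (.mj 7 6, 40), (.mj 9 8, 23), (.hz 21 303, 13377), (.hz 26 1103, 2392), (.hz 21 319, 40477), (.hz 26 1119, 1152), (.hz 25 367, 1224), (.hz 21 447, 33030), (.hz 24 703, 25951), (.hz 24 2751, 17162)]))
(.ask 735
(.mark 767 [8, 10, 11]
(.lp [[1, 5, 8], [3, 6, 10], [0, 2, 4, 7, 9, 11]] [(.mj 4 5, 1), (.mj 5 6, 2), (.mj 5 7, 9), (.mj 6 8, 5), (.mj 7 6, 8), (.mj 9 8, 2), (.hz 21 303, 1780), (.hz 21 319, 5336)]))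
(.ask 703
(.mark 767 [8, 10, 11]
(.spn
(.haz 10 767 1 8
(.lp [[1, 5, 8], [3, 6, 10], [0, 2, 4, 7, 9, 11]] [(.mj 4 5, 1023), (.mj 5 7, 6284), (.mj 6 9, 6027), (.mj 7 6, 11018), (.mj 8 11, 990), (.mj 9 8, 6431), (.rw 9, 1), (.hz 21 303, 3550742), (.hz 26 1103, 116132), (.hz 21 319, 11778104), (.hz 21 447, 8568495), (.hz 24 2751, 10671728), (.hz 27 1023, 276488637), (.hz 27 2815, 58676144)])
(.lp [[1, 5, 8], [3, 6, 10], [0, 2, 4, 7, 9, 11]] [(.mj 4 5, 45), (.mj 5 7, 101), (.mj 6 9, 26), (.mj 7 6, 56), (.mj 8 11, 19), (.mj 9 8, 58), (.hz 27 79, 49777), (.hz 27 95, 106665), (.hz 21 303, 23616), (.hz 27 127, 185509), (.hz 21 319, 45456), (.hz 27 255, 61984), (.hz 24 2751, 23824)]))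
(.lp [[1, 5, 8], [3, 6, 10], [0, 2, 4, 7, 9, 11]] [(.mj 4 5, 1), (.mj 5 7, 5), (.mj 7 6, 7), (.mj 10 8, 4), (.mj 10 11, 3), (.hz 23 303, 16), (.hz 21 303, 2312), (.hz 26 1103, 500), (.hz 21 319, 7352), (.hz 26 1119, 241), (.hz 21 447, 5882), (.hz 21 2751, 3683), (.hz 24 2751, 16483)])
(.lp [[1, 5, 8], [3, 6, 10], [0, 2, 4, 7, 9, 11]] [(.mj 4 5, 1), (.mj 5 7, 8), (.mj 6 9, 7), (.mj 7 6, 13), (.mj 11 8, 8), (.hz 21 303, 4606), (.hz 26 1103, 262), (.hz 21 319, 12456), (.hz 25 367, 1391), (.hz 21 447, 10643), (.hz 24 703, 28397), (.hz 24 767, 53776)])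
.fin))
(.lp [[1, 5, 8], [3, 6, 10], [0, 2, 4, 7, 9]] [(.mj 4 5, 12), (.mj 5 7, 26), (.mj 6 8, 9), (.mj 7 6, 21), (.mj 9 8, 2), (.hz 21 303, 6430), (.hz 26 1103, 5662), (.hz 21 319, 14097), (.hz 26 1119, 2728), (.hz 21 447, 4550)]))))
(.lp [[1, 5, 8], [3, 6, 10], [0, 2, 4, 7, 9]] [(.mj 5 7, 2), (.mj 7 6, 5), (.mj 10 8, 3), (.mj 10 9, 3), (.hz 21 303, 1539), (.hz 21 319, 5426), (.hz 19 671, 1978), (.hz 21 447, 3319), (.hz 21 703, 2648), (.hz 24 703, 9229)])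
.fin))
(.ask 111
(.mark 255 [8, 9, 10]
(.lp [[1, 5, 8], [3, 6, 10], [0, 2, 4, 7, 9]] [(.mj 4 5, 176), (.mj 5 7, 116), (.mj 6 9, 2), (.mj 7 6, 3), (.hz 24 703, 4763)]))
(.haz 5 95 11 40
(.ask 95
(.mark 255 [8, 9, 10]
(.spn
(.haz 9 447 11 40
(.lp [[1, 5, 8], [3, 6, 10], [0, 2, 4, 7, 9]] [(.mj 4 5, 93), (.mj 5 7, 76), (.mj 6 8, 304), (.mj 7 6, 554), (.mj 8 9, 311), (.hz 21 303, 134728), (.hz 21 319, 224613), (.hz 19 671, 232539), (.hz 28 447, 308441), (.hz 21 703, 452555), (.hz 28 511, 1)])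
(.lp [[1, 5, 8], [3, 6, 10], [0, 2, 4, 7, 9]] [(.mj 4 5, 5), (.mj 6 8, 63), (.mj 7 6, 81), (.mj 8 9, 15), (.hz 28 159, 12904), (.hz 21 303, 23858), (.hz 28 191, 39427), (.hz 24 703, 101600)]))
(.ask 671
(.mark 767 [8, 10, 11]
(.lp [[1, 5, 8], [3, 6, 10], [0, 2, 4, 7, 9, 11]] [(.mj 4 5, 4), (.mj 5 7, 22), (.mj 6 9, 17), (.mj 7 6, 32), (.mj 9 8, 18), (.hz 21 303, 10563), (.hz 21 319, 31412), (.hz 27 1119, 1071), (.hz 25 367, 1327), (.hz 21 447, 25811), (.hz 24 703, 20508), (.hz 24 2751, 13231)]))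
(.ask 703
(.mark 767 [8, 10, 11]
(.spn
(.haz 10 767 7 40
(.lp [[1, 5, 8], [3, 6, 10], [0, 2, 4, 7, 9, 11]] [(.mj 4 5, 22), (.mj 5 7, 145), (.mj 6 9, 69), (.mj 7 6, 206), (.mj 8 11, 43), (.mj 9 8, 119), (.hz 21 303, 69431), (.hz 21 319, 204536), (.hz 27 1119, 6585), (.hz 25 367, 9991), (.hz 21 447, 168702), (.hz 21 2751, 120446), (.hz 24 2751, 44968), (.hz 28 1023, 750358), (.hz 28 2815, 470866)])
(.lp [[1, 5, 8], [3, 6, 10], [0, 2, 4, 7, 9, 11]] [(.mj 4 5, 3), (.mj 5 7, 130), (.mj 6 9, 59), (.mj 7 6, 126), (.mj 8 11, 47), (.mj 9 8, 128), (.hz 28 95, 19157), (.hz 21 303, 40490), (.hz 28 127, 64720), (.hz 21 319, 106802), (.hz 28 255, 108128), (.hz 24 2751, 49711), (.hz 24 1791, 1595409)]))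
(.lp [[1, 5, 8], [3, 6, 10], [0, 2, 4, 7, 9, 11]] [(.mj 4 5, 2), (.mj 5 7, 10), (.mj 6 9, 1), (.mj 7 6, 13), (.mj 10 8, 7), (.mj 10 11, 4), (.hz 21 303, 4304), (.hz 21 319, 13626), (.hz 27 1119, 632), (.hz 21 447, 10925), (.hz 24 703, 3619), (.hz 21 2751, 5719), (.hz 24 2751, 27051)])
(.lp [[1, 5, 8], [3, 6, 10], [0, 2, 4, 7, 9, 11]] [(.mj 4 5, 2), (.mj 5 7, 11), (.mj 6 9, 9), (.mj 7 6, 18), (.mj 11 8, 10), (.hz 21 303, 5674), (.hz 21 319, 18591), (.hz 21 447, 13884), (.hz 21 703, 591), (.hz 24 703, 36464), (.hz 24 767, 67662)])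
.fin))
(.lp [[1, 5, 8], [3, 6, 10], [0, 2, 4, 7, 9]] [(.mj 4 5, 8), (.mj 5 7, 18), (.mj 6 8, 7), (.mj 7 6, 16), (.mj 9 8, 1), (.hz 21 303, 4583), (.hz 21 319, 10651), (.hz 27 1119, 2326), (.hz 21 447, 3393)])))
(.lp [[1, 5, 8], [3, 6, 10], [0, 2, 4, 7, 9]] [(.mj 5 7, 1), (.mj 7 6, 4), (.mj 10 8, 2), (.mj 10 9, 2), (.hz 21 303, 1220), (.hz 21 319, 4302), (.hz 19 671, 1564), (.hz 21 447, 2611), (.hz 21 703, 2148), (.hz 24 703, 6877)])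
.fin))
(.ask 223
(.mark 255 [8, 9, 10]
(.lp [[1, 5, 8], [3, 6, 10], [0, 2, 4, 7, 9]] [(.mj 4 5, 97), (.mj 5 7, 75), (.mj 6 8, 2), (.mj 7 6, 1)]))
(.haz 9 255 3 10
(.haz 9 447 7 20
(.haz 6 447 9 40
(.ask 127
(.mark 255 [8, 9, 10]
(.lp [[1, 5, 8], [3, 6, 10], [0, 2, 4, 7, 9]] [(.mj 4 5, 432), (.mj 5 7, 264), (.mj 6 9, 56), (.mj 7 6, 93), (.hz 21 303, 64442), (.hz 30 447, 100798), (.hz 29 447, 157959), (.hz 28 1279, 65482), (.hz 24 1791, 218274)]))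
(.haz 9 255 3 8
(.lp [[3, 6], [1, 5, 8], [0, 2, 4, 7, 9]] [(.mj 4 5, 369), (.mj 5 7, 288), (.mj 7 6, 13), (.hz 31 255, 234259), (.hz 30 447, 45438)])
(.lp [[3, 6], [1, 5, 8], [0, 2, 4, 7, 9]] [(.mj 4 5, 53), (.mj 5 7, 33), (.mj 7 6, 8), (.hz 31 191, 27529), (.hz 28 255, 11190), (.hz 30 447, 21868)])))
(.lp [[3, 6], [1, 5, 8], [0, 2, 4, 7, 9]] [(.mj 4 5, 73), (.mj 5 7, 40), (.mj 6 9, 8), (.hz 30 63, 8712), (.hz 21 303, 14690), (.hz 30 191, 9089), (.hz 21 319, 3022), (.hz 29 447, 22990)]))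
(.lp [[3, 6], [1, 5, 8], [0, 2, 4, 7, 9]] [(.mj 4 5, 36), (.mj 5 7, 22), (.mj 7 6, 5), (.hz 21 303, 9007), (.hz 29 191, 6488), (.hz 21 319, 5828), (.hz 28 255, 6744)]))
(.lp [[3, 6], [1, 5, 8], [0, 2, 4, 7, 9]] [(.mj 4 5, 10), (.mj 5 7, 5), (.mj 7 6, 2), (.hz 28 159, 1302), (.hz 21 303, 2710), (.hz 28 191, 4879), (.hz 21 319, 2921)]))))
(.lp [[3, 6], [1, 5, 8], [0, 2, 4, 7, 9]] [(.mj 5 7, 3785), (.mj 7 6, 2640), (.rw 7, 1), (.hz 27 15, 98640), (.hz 27 31, 1654813), (.hz 26 95, 1618455), (.hz 23 303, 798541), (.hz 21 303, 514661), (.hz 21 319, 1287042), (.hz 19 671, 1858636)]))))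
(.lp [[3, 6], [1, 5, 8], [0, 2, 4, 7, 9]] [(.mj 5 7, 3), (.mj 6 9, 1), (.mj 7 6, 5), (.hz 26 15, 1204), (.hz 21 47, 1120), (.hz 21 63, 1188), (.hz 21 303, 1302), (.hz 21 319, 3400), (.hz 19 671, 1184), (.hz 24 703, 2357)])))
(.lp [[3, 6], [1, 5, 8], [0, 2, 4, 7, 9]] [(.mj 4 5, 16), (.mj 7 6, 17), (.hz 25 15, 5183), (.hz 21 47, 3589), (.hz 22 79, 2920), (.hz 21 63, 6160), (.hz 23 303, 2551), (.hz 21 303, 2318), (.hz 21 319, 8488), (.hz 21 703, 345)]))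

theorem run39 : run P3488 (leaf3 218 625) (cutRow P3488) [] t39 s39 = true := by
  decide +kernel

theorem bad39 : Bad P3488 s39 :=
  run_sound (leaf3_sound P3488 rfl rfl) (cutRow_sound P3488) (
    fun _ h => absurd h List.not_mem_nil) t39 s39 run39

/-- the state above piece 131 of the tree -/
def s131 : St := ⟨[0, 0, 1, 3, 5, 11, 15, 21, 79, 149], [223, 95, 31, 15, 11, 7, 5, 3, 2, 1, 0], [0, 1, 2, 3, 4, 6, 7, 8],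
  [],
  [⟨true, 2, 3, 3, 10⟩, ⟨true, 1, 5, 2, 5⟩, ⟨true, 2, 3, 23, 50⟩, ⟨true, 1, 5, 12, 25⟩, ⟨true, 1, 21, 27, 50⟩, ⟨true, 4, 15, 9, 40⟩, ⟨true, 3, 23, 11, 20⟩, ⟨true, 4, 79, 7, 25⟩, ⟨true, 6, 63, 6, 25⟩, ⟨true, 4, 15, 17, 50⟩, ⟨true, 3, 151, 29, 50⟩, ⟨true, 5, 351, 1, 25⟩, ⟨true, 4, 335, 9, 25⟩, ⟨true, 7, 63, 1, 5⟩],
  [.spn 0 0 651200, .spn 1 1 302400, .spn 3 2 302400, .spn 7 3 302400, .spn 15 4 140426, .spn 31 6 140426, .spn 95 7 140426, .spn 223 8 140426]⟩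

/-- piece 131 of the tree -/
noncomputable def t131 : WN.Tree :=
(.haz 5 335 1 20
(.haz 6 671 3 8
(.haz 6 671 19 40
(.ask 335
(.mark 479 [5, 9, 10]
(.spn
(.haz 9 479 6 25
(.lp [[5], [0, 2, 4, 7, 9], [1, 3, 6, 8, 10]] [(.mj 5 9, 3112), (.mj 5 10, 465), (.mj 7 8, 2395), (.mj 8 5, 3112), (.rw 8, 1), (.hz 14 1359, 786000), (.hz 17 479, 1496709), (.hz 14 1375, 3530579), (.hz 17 511, 5289891), (.hz 17 1503, 6628702)])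
(.lp [[5], [0, 2, 4, 7, 9], [1, 3, 6, 8, 10]] [(.mj 3 4, 481), (.mj 7 8, 1585), (.mj 8 5, 971), (.rw 8, 1), (.hz 17 149, 16105), (.hz 17 151, 85611), (.hz 17 159, 336704), (.hz 17 223, 826728), (.hz 14 1359, 828027), (.hz 17 479, 528366), (.hz 14 1375, 4083533), (.hz 14 991, 2126409)]))
(.haz 5 335 2 25
(.haz 5 335 1 10
(.cut 5 [(0, 1), (1, 1), (2, 1), (3, 1), (5, 1), (7, 1), (11, 1), (21, 1), (15, 1), (23, 1), (149, 1), (31, 1), (79, 1), (151, 1), (661, 1), (95, 1), (159, 1), (335, 1), (663, 1), (223, 1), (351, 1), (479, 1)]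
(.lp [[5], [0, 2, 4, 7, 9], [1, 3, 6, 8, 10]] [(.mj 3 4, 24152), (.mj 6 7, 10043), (.mj 7 8, 16747), (.mj 8 9, 7419), (.mj 9 5, 25974), (.hz 2 43, 143873), (.hz 9 47, 909784), (.hz 9 111, 486629), (.hz 18 335, 18851620), (.hz 18 351, 77684590), (.hz 12 1359, 1577652), (.hz 18 1359, 4056706), (.hz 18 479, 123756840), (.hz 18 1375, 23532383), (.hz 18 991, 77094157), (.hz 18 1503, 77094157), (.rw 9, 8)]))
(.ask 1359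
(.mark 1375 [5, 7, 11]
(.cut 5 [(0, 1), (1, 1), (2, 1), (3, 1), (5, 1), (7, 1), (11, 1), (21, 1), (15, 1), (23, 1), (149, 1), (31, 1), (79, 1), (151, 1), (661, 1), (95, 1), (335, 1), (663, 1), (351, 1), (1359, 1)]
(.lp [[5], [0, 2, 4, 7, 9], [1, 3, 6, 8, 10, 11]] [(.mj 3 4, 5077), (.mj 7 8, 1909), (.mj 9 5, 1201), (.hz 18 11, 216511), (.hz 18 15, 565335), (.hz 18 79, 628150), (.hz 17 335, 608544), (.hz 17 351, 2619050), (.hz 12 1359, 226614), (.hz 17 479, 688137), (.hz 12 3407, 75854), (.hz 17 3407, 65804), (.hz 17 991, 467098), (.hz 17 1503, 2131999), (.hz 17 3423, 1471379), (.hz 13 3455, 15014075), (.rw 9, 1)])))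
(.lp [[5], [0, 2, 4, 7, 9], [1, 3, 6, 8, 10]] [(.mj 3 4, 112), (.mj 7 8, 39), (.mj 9 5, 27), (.hz 18 11, 4894), (.hz 18 15, 12779), (.hz 18 79, 15642), (.hz 17 335, 12283), (.hz 17 351, 55857), (.hz 17 1359, 118), (.hz 17 479, 52368), (.hz 17 1375, 16505), (.hz 17 991, 48972), (.hz 17 1503, 48827)])))
(.lp [[5], [0, 2, 4, 7, 9], [1, 3, 6, 8, 10]] [(.mj 3 4, 1741), (.mj 7 8, 724), (.mj 9 10, 52), (.hz 17 11, 47728), (.hz 17 15, 254073), (.hz 17 79, 146082), (.hz 14 335, 371939), (.hz 14 351, 926415), (.hz 12 1359, 90610), (.hz 14 1359, 27691), (.hz 14 1375, 221937), (.hz 14 991, 474514), (.hz 14 1503, 366501)]))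
(.haz 5 159 1 10
(.lp [[5], [0, 2, 4, 7, 9], [1, 3, 6, 8, 10]] [(.mj 3 4, 2529), (.mj 6 7, 2919), (.mj 7 8, 6031), (.mj 10 5, 6286), (.mj 10 9, 1115), (.rw 7, 1), (.hz 2 43, 15068), (.hz 9 47, 95281), (.hz 17 159, 7392801), (.hz 9 111, 50964), (.hz 17 223, 5553797), (.hz 17 671, 10995920), (.hz 14 1359, 1664101), (.hz 17 479, 44941754), (.hz 17 735, 25824691), (.hz 17 1503, 32743891)])
(.haz 8 127 3 10
(.cut 5 [(0, 1), (1, 1), (2, 1), (3, 1), (5, 1), (7, 1), (11, 1), (21, 1), (15, 1), (23, 1), (149, 1), (31, 1), (79, 1), (151, 1), (661, 1), (95, 1), (159, 1), (335, 1), (663, 1), (223, 1), (351, 1), (479, 1)]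
(.lp [[5], [0, 2, 4, 7, 9], [1, 3, 6, 8, 10]] [(.mj 3 4, 14290), (.mj 4 6, 2224), (.mj 6 7, 71), (.mj 7 8, 7297), (.mj 10 5, 1156), (.mj 10 9, 731), (.hz 17 11, 1035578), (.hz 17 15, 3709272), (.hz 17 31, 212683), (.hz 17 159, 1243227), (.hz 9 111, 136454), (.hz 14 335, 1904446), (.hz 18 127, 13030988), (.hz 18 767, 11019010), (.rw 9, 4)]))
(.lp [[5], [0, 2, 4, 7, 9], [1, 3, 6, 8, 10]] [(.mj 3 4, 2), (.hz 17 11, 109), (.hz 17 15, 1230), (.hz 17 31, 222), (.hz 18 79, 542), (.hz 18 95, 1762)])))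
.fin))
(.haz 5 351 3 40
(.haz 8 735 1 4
(.ask 351
(.mark 479 [5, 9, 10]
(.spn
(.haz 9 479 1 4
(.lp [[5], [0, 2, 4, 7, 9], [1, 3, 6, 8, 10]] [(.mj 5 9, 3430), (.mj 5 10, 620), (.mj 7 8, 2396), (.mj 8 5, 3430), (.rw 8, 1), (.hz 19 479, 9485655), (.hz 17 1375, 1634417), (.hz 19 511, 36441367), (.hz 19 1503, 44580023)])
(.lp [[5], [0, 2, 4, 7, 9], [1, 3, 6, 8, 10]] [(.mj 3 4, 3735), (.mj 7 8, 11976), (.mj 8 5, 7236), (.rw 8, 8), (.hz 19 149, 729356), (.hz 19 151, 3889898), (.hz 19 159, 15641351), (.hz 19 223, 38847349), (.hz 19 479, 21982189), (.hz 17 1375, 15375905), (.hz 17 991, 7940298)]))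
(.ask 43
(.mark 511 [9, 10, 11]
(.cut 5 [(0, 1), (1, 1), (2, 1), (3, 1), (5, 1), (7, 1), (11, 1), (21, 1), (15, 1), (23, 1), (149, 1), (31, 1), (79, 1), (151, 1), (661, 1), (95, 1), (159, 1), (663, 1), (223, 1)]
(.lp [[5, 11], [0, 2, 4, 7, 9], [1, 3, 6, 8, 10]] [(.mj 3 4, 3796), (.mj 7 8, 983), (.mj 9 5, 1682), (.hz 2 2091, 26604), (.hz 9 2095, 204222), (.hz 8 2111, 213873), (.hz 13 2111, 4332870), (.hz 17 351, 1544502), (.hz 9 2159, 215958), (.hz 13 2175, 10014221), (.hz 17 479, 1965006), (.hz 13 1407, 3944610), (.hz 17 1503, 423860), (.rw 9, 1)])))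
(.cut 5 [(0, 1), (1, 1), (2, 1), (3, 1), (5, 1), (7, 1), (11, 1), (21, 1), (15, 1), (23, 1), (149, 1), (31, 1), (79, 1), (151, 1), (661, 1), (95, 1), (335, 1), (663, 1), (351, 1)]
(.lp [[5], [0, 2, 4, 7, 9], [1, 3, 6, 8, 10]] [(.mj 3 4, 69259), (.mj 7 8, 17760), (.mj 9 5, 28940), (.hz 9 47, 2483679), (.hz 13 63, 5322169), (.hz 9 111, 1774056), (.hz 17 351, 24166609), (.hz 17 479, 13710031), (.hz 17 1375, 575353), (.hz 13 1407, 43533027), (.hz 17 991, 6301777), (.hz 17 1503, 24402945), (.rw 9, 19)])))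
(.maj 5 9
(.cut 5 [(0, 1), (1, 1), (2, 1), (3, 1), (5, 1), (7, 1), (11, 1), (21, 1), (15, 1), (23, 1), (149, 1), (31, 1), (79, 1), (151, 1), (95, 1), (159, 1), (335, 1), (223, 1), (351, 1), (479, 1)]
(.lp [[5], [0, 2, 4, 7, 9], [1, 3, 6, 8, 10]] [(.mj 3 4, 679), (.mj 5 9, 34), (.mj 7 8, 372), (.mj 10 5, 431), (.rw 9, 1)]))
(.cut 5 [(0, 1), (1, 1), (2, 1), (3, 1), (5, 1), (7, 1), (11, 1), (21, 1), (15, 1), (23, 1), (149, 1), (31, 1), (79, 1), (151, 1), (661, 1), (95, 1), (159, 1), (335, 1), (663, 1), (223, 1), (351, 1), (479, 1)]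
(.lp [[5], [0, 2, 4, 7, 9], [1, 3, 6, 8, 10]] [(.mj 3 4, 7706), (.mj 7 8, 2455), (.mj 9 5, 3809), (.mj 10 9, 302), (.hz 2 43, 53662), (.hz 9 47, 339336), (.hz 13 63, 3255951), (.hz 9 111, 181505), (.hz 17 351, 3396457), (.hz 17 479, 3610172), (.hz 17 1375, 236479), (.hz 17 1503, 2168968), (.rw 9, 2)])))
.fin))
(.ask 479
(.mark 479 [5, 9, 10]
(.spn
(.haz 10 991 7 20
(.haz 9 479 7 40
(.ask 1503
(.mark 1503 [5, 9, 11]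
(.lp [[5], [0, 2, 4, 7, 9], [1, 3, 6, 8, 10, 11]] [(.mj 3 4, 27), (.mj 5 9, 37), (.mj 5 10, 19), (.mj 7 8, 15), (.mj 8 5, 53), (.hz 12 367, 771), (.hz 20 511, 81970), (.hz 20 1503, 49861), (.hz 20 3551, 27080)]))
(.lp [[5], [0, 2, 4, 7, 9], [1, 3, 6, 8, 10]] [(.mj 5 9, 3), (.mj 8 5, 5)]))
(.lp [[5], [0, 2, 4, 7, 9], [1, 3, 6, 8, 10]] [(.mj 3 4, 44), (.mj 5 10, 34), (.mj 7 8, 15), (.mj 8 5, 50), (.hz 20 149, 120), (.hz 20 151, 626), (.hz 20 159, 5977), (.hz 20 223, 17201), (.hz 20 479, 1473), (.hz 17 991, 78705), (.hz 19 991, 101922)]))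
(.lp [[5], [0, 2, 4, 7, 9], [1, 3, 6, 8, 10]] [(.mj 3 4, 9), (.mj 5 9, 6), (.mj 7 8, 3), (.mj 8 5, 10), (.hz 19 479, 11984), (.hz 17 991, 17803)]))
(.lp [[5], [0, 2, 4, 7, 9], [1, 3, 6, 8, 10]] [(.mj 3 4, 20), (.mj 9 5, 8), (.mj 9 10, 1), (.hz 2 43, 116), (.hz 9 47, 736), (.hz 9 111, 394), (.hz 17 351, 412), (.hz 12 367, 744), (.hz 17 479, 9974), (.hz 17 991, 10055), (.hz 17 1503, 9996)])
(.ask 1503
(.mark 1503 [5, 9, 11]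
(.spn
(.lp [[5], [0, 2, 4, 7, 9], [1, 3, 6, 8, 10, 11]] [(.mj 10 5, 141), (.rw 9, 1)])
(.lp [[5], [0, 2, 4, 7, 9], [1, 3, 6, 8, 10, 11]] [(.mj 3 4, 6013), (.rw 8, 1), (.rw 9, 4), (.hz 2 43, 35817), (.hz 9 47, 226490), (.hz 9 111, 121146), (.hz 17 351, 126825), (.hz 12 367, 228831), (.hz 17 479, 3067228), (.hz 17 991, 9993903)])
(.cut 5 [(0, 1), (1, 1), (2, 1), (3, 1), (5, 1), (7, 1), (11, 1), (21, 1), (15, 1), (23, 1), (149, 1), (31, 1), (79, 1), (151, 1), (661, 1), (95, 1), (335, 1), (663, 1), (351, 1)]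
(.lp [[5], [0, 2, 4, 7, 9], [1, 3, 6, 8, 10, 11]] [(.mj 3 4, 19072), (.mj 7 8, 3714), (.mj 11 5, 10520), (.hz 4 661, 211979), (.hz 10 663, 1352277), (.hz 17 351, 8759579), (.hz 17 479, 4272467), (.hz 18 735, 15106136), (.hz 17 991, 27866961), (.hz 17 1503, 7725446), (.rw 10, 11)]))
.fin))
(.lp [[5], [0, 2, 4, 7, 9], [1, 3, 6, 8, 10]] [(.mj 10 9, 1), (.rw 8, 1)]))
.fin))
(.lp [[5], [1, 3, 6, 8], [0, 2, 4, 7, 9]] [(.mj 3 4, 4), (.mj 6 7, 3), (.mj 7 5, 3), (.hz 2 43, 28), (.hz 9 47, 177), (.hz 13 63, 1832), (.hz 9 111, 95), (.hz 12 367, 179), (.hz 17 991, 3417)])))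
(.lp [[5], [1, 3, 6, 8], [0, 2, 4, 7, 9]] [(.mj 6 7, 329), (.mj 8 9, 69), (.rw 7, 1), (.hz 18 223, 9050063)]))
(.cut 5 [(0, 1), (1, 1), (2, 1), (3, 1), (5, 1), (7, 1), (11, 1), (21, 1), (15, 1), (23, 1), (149, 1), (31, 1), (79, 1), (151, 1), (661, 1), (95, 1), (159, 1), (335, 1), (663, 1)]
(.cut 5 [(0, 1), (1, 1), (2, 1), (3, 1), (5, 1), (7, 1), (11, 1), (21, 1), (15, 1), (23, 1), (149, 1), (31, 1), (79, 1), (151, 1), (661, 1), (95, 1), (159, 1), (335, 1), (663, 1), (223, 1), (671, 1)]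
(.cut 5 [(0, 1), (1, 1), (2, 1), (3, 1), (5, 1), (7, 1), (11, 1), (21, 1), (15, 1), (23, 1), (149, 1), (31, 1), (79, 1), (151, 1), (661, 1), (95, 1), (159, 1), (335, 1), (663, 1), (223, 1), (671, 1), (735, 1)]
(.lp [[5], [1, 3, 6, 8], [0, 2, 4, 7, 9]] [(.mj 3 4, 204397), (.mj 7 8, 68225), (.hz 17 11, 3039658), (.hz 17 15, 7845603), (.hz 17 31, 750407), (.hz 17 79, 8481733), (.hz 17 95, 9980692), (.hz 16 671, 6638895), (.rw 8, 9), (.rw 9, 33), (.rw 10, 11)]))))))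
(.lp [[5], [1, 3, 6, 8], [0, 2, 4, 7, 9]] [(.mj 3 4, 87), (.mj 6 7, 563), (.rw 6, 1), (.hz 16 15, 3840), (.hz 2 43, 1402), (.hz 9 47, 13159), (.hz 13 63, 657968), (.hz 16 159, 392781)]))
(.lp [[5], [1, 3, 6, 8], [0, 2, 4, 7, 9]] [(.mj 6 7, 541), (.rw 6, 1), (.hz 15 159, 2255041)]))
(.lp [[5], [1, 3, 6, 8], [0, 2, 4, 7, 9]] [(.mj 3 4, 74), (.mj 4 6, 5), (.mj 7 8, 38), (.hz 14 11, 2698), (.hz 14 15, 16827), (.hz 12 335, 1496), (.hz 11 351, 61307)]))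

theorem run131 : run P3488 (leaf3 218 625) (cutRow P3488) [] t131 s131 = true := by
  decide +kernel

theorem bad131 : Bad P3488 s131 :=
  run_sound (leaf3_sound P3488 rfl rfl) (cutRow_sound P3488) (
    fun _ h => absurd h List.not_mem_nil) t131 s131 run131

/-- the state above piece 234 of the tree -/
def s234 : St := ⟨[0, 0, 1, 3, 5, 15, 31, 31, 47, 127, 191], [255, 159, 127, 95, 63, 31, 23, 21, 15, 11, 7, 5, 3, 2, 1, 0], [0, 1, 2, 3, 4, 5, 6, 7, 9],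
  [(4, 5)],
  [⟨true, 2, 3, 3, 10⟩, ⟨true, 1, 5, 2, 5⟩, ⟨true, 2, 3, 23, 50⟩, ⟨true, 1, 5, 12, 25⟩, ⟨true, 1, 21, 27, 50⟩, ⟨true, 4, 15, 9, 40⟩, ⟨true, 3, 23, 11, 20⟩, ⟨true, 4, 47, 7, 20⟩, ⟨true, 4, 47, 17, 40⟩, ⟨true, 4, 47, 9, 20⟩, ⟨true, 4, 47, 19, 40⟩, ⟨true, 5, 31, 3, 10⟩, ⟨true, 4, 47, 3, 5⟩, ⟨true, 4, 47, 5, 8⟩, ⟨true, 6, 159, 1, 10⟩, ⟨true, 6, 159, 1, 4⟩, ⟨true, 6, 319, 11, 40⟩, ⟨true, 5, 159, 7, 20⟩, ⟨true, 8, 255, 3, 40⟩, ⟨true, 7, 319, 1, 8⟩, ⟨true, 7, 639, 1, 10⟩, ⟨true, 7, 639, 3, 20⟩, ⟨true, 7, 639, 7, 40⟩],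
  [.spn 0 0 651200, .spn 1 1 302400, .spn 3 2 302400, .spn 7 3 302400, .spn 15 4 302400, .spn 31 5 140426, .spn 63 6 140426, .spn 127 7 62723, .spn 255 9 140426]⟩

/-- piece 234 of the tree -/
noncomputable def t234 : WN.Tree :=
(.haz 8 127 2 25
(.haz 8 127 1 10
(.haz 8 191 1 10
(.haz 6 1215 11 25
(.haz 7 383 1 5
(.ask 639
(.mark 767 [8, 10, 11]
(.spn
(.haz 11 1791 6 25
(.haz 9 1279 2 5
(.haz 11 1023 8 25
(.haz 9 1279 11 25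
(.haz 11 1791 17 50
(.ask 1215
(.mark 1791 [8, 11, 12]
(.lp [[5, 8], [1, 3, 7, 10, 12], [0, 2, 4, 6, 9, 11]] [(.mj 6 7, 26), (.mj 7 9, 12), (.mj 8 10, 3), (.mj 8 11, 23), (.mj 9 8, 35), (.hz 25 1215, 122816), (.hz 24 1279, 128665), (.hz 31 1279, 11185), (.hz 22 2687, 384), (.hz 25 5311, 60203), (.hz 32 1791, 25929), (.hz 24 5375, 377528), (.hz 32 5887, 79951)]))
(.haz 10 1023 4 25
(.haz 9 1279 12 25
(.ask 1279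
(.mark 1791 [8, 11, 12]
(.lp [[5, 8], [1, 3, 7, 10, 12], [0, 2, 4, 6, 9, 11]] [(.mj 6 7, 10), (.mj 7 9, 5), (.mj 8 10, 2), (.mj 8 11, 9), (.mj 9 8, 14), (.hz 25 1215, 47233), (.hz 24 1279, 35580), (.hz 34 1279, 6971), (.hz 33 1023, 8313), (.hz 32 1791, 12147), (.hz 24 5375, 145576), (.hz 32 5887, 29162)]))
(.ask 1791
(.mark 1791 [8, 11, 12]
(.lp [[5, 8], [1, 3, 7, 10, 12], [0, 2, 4, 6, 9, 11]] [(.mj 6 7, 24), (.mj 7 9, 13), (.mj 8 10, 7), (.mj 8 11, 25), (.mj 9 8, 38), (.hz 25 1215, 120728), (.hz 33 1023, 61331), (.hz 30 1023, 399), (.hz 32 1791, 45573), (.hz 32 5887, 54427)]))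
(.lp [[7, 10], [1, 3, 5, 8], [0, 2, 4, 6, 9, 11]] [(.mj 8 11, 2), (.mj 9 8, 3)])))
(.lp [[7, 10], [1, 3, 5, 8], [0, 2, 4, 6, 9, 11]] [(.mj 6 7, 23), (.mj 8 10, 46), (.mj 9 8, 78), (.hz 34 127, 57419), (.hz 34 255, 177035), (.hz 25 1215, 297557), (.hz 24 1279, 425077), (.hz 31 1279, 144493), (.hz 32 1791, 63883)]))
(.lp [[7, 10], [1, 3, 5, 8], [0, 2, 4, 6, 9, 11]] [(.mj 6 7, 17), (.mj 8 11, 67), (.mj 9 8, 99), (.hz 33 255, 84142), (.hz 25 1215, 231733), (.hz 33 767, 48053), (.hz 24 1279, 901480), (.hz 30 1023, 1673), (.hz 32 1791, 144939)])))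
(.haz 10 1023 7 25
(.lp [[7, 10], [1, 3, 5, 8], [0, 2, 4, 6, 9, 11]] [(.mj 6 7, 5), (.mj 7 9, 4), (.mj 8 10, 7), (.mj 9 8, 9), (.hz 32 639, 2226), (.hz 32 767, 11426), (.hz 33 1023, 45864), (.hz 28 1791, 19622)])
(.lp [[7, 10], [1, 3, 5, 8], [0, 2, 4, 6, 9, 11]] [(.mj 6 7, 2), (.mj 9 8, 4), (.hz 32 639, 981), (.hz 25 1215, 16961), (.hz 33 767, 10057), (.hz 32 767, 5204), (.hz 24 1279, 49298)])))
(.lp [[7, 10], [1, 3, 5, 8], [0, 2, 4, 6, 9, 11]] [(.mj 6 7, 2), (.mj 8 10, 6), (.mj 9 8, 9), (.hz 31 127, 6293), (.hz 31 255, 19194), (.hz 25 1215, 31027), (.hz 24 1279, 47668), (.hz 29 1279, 78208), (.hz 28 1791, 15173)]))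
(.lp [[7, 10], [1, 3, 5, 8], [0, 2, 4, 6, 9, 11]] [(.mj 6 7, 66), (.mj 7 9, 29), (.mj 8 10, 26), (.mj 9 8, 65), (.hz 30 639, 30594), (.hz 25 1215, 337299), (.hz 30 767, 121446), (.hz 24 1279, 780563), (.hz 28 1791, 70552)]))
(.lp [[7, 10], [1, 3, 5, 8], [0, 2, 4, 6, 9, 11]] [(.mj 6 7, 10), (.mj 9 8, 6), (.hz 29 127, 26935), (.hz 29 255, 28088), (.hz 27 383, 53870), (.hz 25 1215, 43887), (.hz 24 1279, 37593)]))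
(.lp [[7, 10], [1, 3, 5, 8], [0, 2, 4, 6, 9, 11]] [(.mj 6 7, 13), (.mj 7 9, 6), (.mj 8 10, 6), (.mj 9 8, 14), (.hz 28 639, 5990), (.hz 25 1215, 66642), (.hz 28 767, 23302), (.hz 24 1279, 157260)]))
(.ask 2687
(.mark 2815 [8, 10, 12]
(.lp [[7, 10], [1, 3, 5, 8], [0, 2, 4, 6, 9, 11, 12]] [(.mj 6 7, 92), (.mj 10 8, 62), (.mj 10 11, 22), (.hz 25 191, 269091), (.hz 24 255, 234921), (.hz 25 1215, 78739), (.hz 24 767, 261023), (.hz 24 1279, 74371), (.hz 22 2687, 6844), (.hz 24 2687, 328019), (.hz 27 2943, 1681693), (.hz 24 6783, 191213), (.hz 27 7039, 1025458)]))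
(.lp [[7, 10], [1, 3, 5, 8], [0, 2, 4, 6, 9, 11]] [(.mj 6 7, 9), (.mj 10 8, 6), (.mj 10 11, 1), (.hz 25 191, 26995), (.hz 24 255, 23567), (.hz 25 1215, 7899), (.hz 24 767, 26185), (.hz 24 1279, 7461), (.hz 24 2687, 7900), (.hz 24 2815, 66780)]))
(.haz 10 767 2 25
(.haz 9 1279 11 25
(.haz 6 319 13 25
(.ask 2687
(.mark 2815 [8, 10, 12]
(.spn
(.lp [[7, 10], [1, 3, 5, 8], [0, 2, 4, 6, 9, 11, 12]] [(.mj 6 7, 5657), (.mj 7 9, 10631), (.mj 8 10, 1551), (.mj 11 8, 7882), (.rw 10, 11), (.hz 25 191, 16498520), (.hz 25 1215, 13344663), (.hz 24 1279, 55820502), (.hz 29 1279, 4332090), (.hz 24 1791, 170111768), (.hz 24 6783, 56769634), (.hz 28 6911, 5155615)])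
(.lp [[7, 10], [1, 3, 5, 8], [0, 2, 4, 6, 9, 11, 12]] [(.mj 3 4, 79), (.mj 6 7, 7), (.mj 7 9, 10), (.mj 10 8, 36), (.mj 11 10, 11), (.hz 13 303, 9032), (.hz 24 127, 21075), (.hz 25 191, 42183), (.hz 24 255, 91355), (.hz 24 639, 66706), (.hz 25 1215, 28478), (.hz 24 767, 147652), (.hz 24 1279, 100351), (.hz 24 2687, 46146), (.hz 24 1791, 236933), (.hz 24 2815, 215332), (.hz 24 6783, 53921), (.hz 24 6911, 311571)])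
(.lp [[7, 10], [1, 3, 5, 8], [0, 2, 4, 6, 9, 11, 12]] [(.mj 6 7, 4), (.mj 7 9, 10), (.mj 12 8, 10), (.mj 12 10, 4), (.hz 25 191, 11512), (.hz 24 255, 10050), (.hz 24 639, 46000), (.hz 25 1215, 24025), (.hz 24 767, 32555), (.hz 24 1279, 88401), (.hz 29 1279, 6169), (.hz 24 2687, 21388), (.hz 24 1791, 177713), (.hz 24 2815, 61478), (.hz 28 2815, 6939), (.hz 24 6783, 7694)])
.fin))
(.ask 2815
(.mark 2815 [8, 10, 12]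
(.spn
(.maj 10 12
(.lp [[7, 10], [1, 3, 5, 8], [0, 2, 4, 6, 9, 11, 12]] [(.mj 3 4, 10), (.mj 6 7, 1), (.mj 8 10, 6), (.mj 10 12, 5), (.mj 11 8, 12), (.hz 25 191, 9550), (.hz 25 1215, 17574), (.hz 24 1279, 92770), (.hz 24 1791, 203733), (.hz 24 6911, 168489), (.hz 28 6911, 17786)])
(.lp [[7, 10], [1, 3, 5, 8], [0, 2, 4, 6, 9, 11, 12]] [(.mj 3 4, 16), (.mj 6 7, 4), (.mj 7 9, 2), (.mj 8 12, 15), (.mj 11 8, 26), (.mj 12 10, 11), (.hz 25 191, 16730), (.hz 25 1215, 69565), (.hz 24 1279, 282284), (.hz 24 1791, 605450), (.hz 24 3839, 312795), (.hz 28 6911, 103482)]))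
(.lp [[7, 10], [1, 3, 5, 8], [0, 2, 4, 6, 9, 11, 12]] [(.mj 5 6, 7), (.mj 6 7, 14), (.mj 10 8, 12), (.hz 24 127, 4480), (.hz 25 191, 41251), (.hz 24 255, 49950), (.hz 24 639, 4978), (.hz 25 1215, 8082), (.hz 24 767, 61031), (.hz 24 1279, 11358), (.hz 24 2687, 5531), (.hz 24 1791, 8218), (.hz 24 2815, 73958), (.hz 24 6911, 82175)])
(.lp [[7, 10], [1, 3, 5, 8], [0, 2, 4, 6, 9, 11, 12]] [(.mj 3 4, 13), (.mj 6 7, 1), (.mj 12 8, 4), (.hz 13 303, 1454), (.hz 24 127, 3392), (.hz 25 191, 5765), (.hz 24 255, 13809), (.hz 24 639, 3769), (.hz 25 1215, 7725), (.hz 24 767, 22139), (.hz 24 1279, 16931), (.hz 24 2687, 4188), (.hz 30 1471, 1657), (.hz 28 1023, 11734), (.hz 24 1791, 12813), (.hz 24 2815, 26645)])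
.fin))
(.lp [[7, 10], [1, 3, 5, 8], [0, 2, 4, 6, 9, 11]] [(.mj 11 8, 1), (.mj 11 10, 1), (.hz 25 191, 193), (.hz 25 1215, 2429), (.hz 24 1279, 11385), (.hz 24 1791, 24929)])))
(.lp [[7, 10], [1, 3, 5, 8], [0, 2, 4, 6, 9, 11]] [(.mj 0 1, 199), (.mj 6 7, 23), (.mj 11 8, 35), (.hz 30 63, 16941), (.hz 24 127, 45657), (.hz 25 191, 65442), (.hz 24 255, 121973), (.hz 24 639, 50730), (.hz 26 1215, 6755), (.hz 25 1215, 50730), (.hz 24 767, 191892), (.hz 24 1279, 191892), (.hz 29 1279, 15351), (.hz 24 1791, 383784)]))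
(.lp [[7, 10], [1, 3, 5, 8], [0, 2, 4, 6, 9, 11]] [(.mj 6 7, 4), (.mj 11 8, 3), (.hz 29 127, 2218), (.hz 25 191, 12043), (.hz 29 255, 1504), (.hz 27 383, 12542), (.hz 24 639, 4172), (.hz 25 1215, 7933), (.hz 24 767, 15782), (.hz 24 1279, 15782)]))
(.lp [[7, 10], [1, 3, 5, 8], [0, 2, 4, 6, 9, 11]] [(.mj 3 4, 4), (.mj 5 6, 1), (.mj 7 9, 48), (.mj 11 8, 29), (.hz 28 191, 15251), (.hz 28 255, 41089), (.hz 24 639, 222937), (.hz 25 1215, 41235), (.hz 24 767, 97705), (.hz 28 767, 10831), (.hz 24 1279, 155977), (.hz 24 2687, 58272), (.hz 24 1791, 311954)]))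
.fin))
(.ask 767
(.mark 767 [8, 10, 11]
(.spn
(.haz 11 1791 17 50
(.haz 8 767 7 25
(.lp [[7, 10], [1, 3, 5, 8], [0, 2, 4, 6, 9, 11]] [(.mj 6 7, 8), (.mj 9 8, 10), (.hz 29 767, 28798), (.hz 24 1279, 83683)])
(.lp [[7, 10], [1, 3, 5, 8], [0, 2, 4, 6, 9, 11]] [(.mj 6 7, 64), (.mj 8 10, 13), (.mj 8 11, 55), (.mj 9 8, 71), (.hz 29 639, 56571), (.hz 25 1215, 309532), (.hz 24 1279, 684860), (.hz 28 1791, 132312)]))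
(.lp [[7, 10], [1, 3, 5, 8], [0, 2, 4, 6, 9, 11]] [(.mj 6 7, 11), (.mj 7 9, 4), (.mj 8 10, 5), (.mj 9 8, 11), (.hz 25 1215, 57984), (.hz 28 767, 10218), (.hz 24 1279, 136116)]))
(.lp [[7, 10], [1, 3, 5, 8], [0, 2, 4, 6, 9, 11]] [(.mj 6 7, 6), (.mj 10 8, 4), (.hz 25 191, 17293), (.hz 24 255, 15097), (.hz 24 767, 16775), (.hz 24 2815, 26655)])
(.haz 8 127 3 25
(.lp [[7, 10], [1, 3, 5, 8], [0, 2, 4, 6, 9, 11]] [(.mj 5 6, 3), (.mj 6 7, 4), (.mj 11 8, 4), (.hz 28 127, 798), (.hz 28 255, 9891), (.hz 28 639, 907), (.hz 26 1215, 259), (.hz 28 767, 8076)])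
(.lp [[7, 10], [1, 3, 5, 8], [0, 2, 4, 6, 9, 11]] [(.mj 3 4, 54), (.mj 5 6, 1), (.mj 6 7, 1), (.hz 28 47, 2830), (.hz 28 63, 2124), (.hz 28 127, 2393), (.hz 24 255, 5982), (.hz 26 1215, 1196)]))
.fin))
(.lp [[7, 10], [1, 3, 5, 8], [0, 2, 4, 6, 9]] [(.mj 6 7, 7), (.mj 7 8, 4), (.hz 25 191, 5633), (.hz 25 1215, 14370), (.hz 24 1279, 13554)])))
(.lp [[7, 10], [1, 3, 5, 8], [0, 2, 4, 6, 9]] [(.mj 0 1, 80), (.mj 7 9, 1), (.hz 27 63, 1596), (.hz 27 127, 6503), (.hz 19 319, 1811), (.hz 24 639, 2237)]))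
(.lp [[7, 10], [1, 3, 5, 8], [0, 2, 4, 6, 9]] [(.mj 0 1, 80), (.mj 6 7, 2), (.hz 26 63, 868), (.hz 26 191, 508), (.hz 25 191, 2082)]))
(.lp [[7, 10], [1, 3, 5, 8], [0, 2, 4, 6, 9]] [(.mj 3 4, 453), (.mj 6 7, 33), (.mj 7 9, 29), (.hz 25 47, 62398), (.hz 25 63, 110415), (.hz 24 255, 85799), (.hz 24 639, 75862), (.hz 15 1215, 21450), (.hz 24 1279, 85799)]))
(.lp [[7, 10], [1, 3, 5, 8], [0, 2, 4, 6, 9]] [(.mj 3 4, 118), (.mj 6 7, 7), (.mj 7 9, 7), (.hz 24 47, 16055), (.hz 24 63, 13921), (.hz 24 127, 11551), (.hz 23 255, 3314), (.hz 23 639, 7362), (.hz 15 1215, 1657), (.hz 23 1279, 3314)]))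
(.lp [[7, 10], [1, 3, 5, 8], [0, 2, 4, 6, 9]] [(.mj 3 4, 134), (.mj 6 7, 8), (.mj 7 9, 9), (.hz 23 47, 7200), (.hz 23 63, 6203), (.hz 23 127, 5120), (.hz 18 255, 2432)]))

theorem run234 : run P3488 (leaf3 218 625) (cutRow P3488) [] t234 s234 = true := by
  decide +kernel

theorem bad234 : Bad P3488 s234 :=
  run_sound (leaf3_sound P3488 rfl rfl) (cutRow_sound P3488) (
    fun _ h => absurd h List.not_mem_nil) t234 s234 run234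

end Pool.Agent.WN.Data
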