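import Pool.Agent.WN.CutRow
import Pool.Agent.WN.LeafRow
import Pool.Agent.Helper99.WN.ParDef
import Pool.Agent.WN.Data.D3

/-!
# The search tree, part 8
-/

set_option autoImplicit false

namespace Pool.Agent.WN.Data

open Pool.Agent.W3 Pool.Agent.WN Pool.Agent.Helper99.WN

/-- the state above piece 238 of the tree -/
def s238 : St := ⟨[0, 0, 1, 3, 5, 15, 31, 31, 47, 127, 159], [127, 95, 63, 31, 23, 21, 15, 11, 7, 5, 3, 2, 1, 0], [0, 1, 2, 3, 4, 5, 6, 7],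
  [(4, 5)],
  [⟨true, 2, 3, 3, 10⟩, ⟨true, 1, 5, 2, 5⟩, ⟨true, 2, 3, 23, 50⟩, ⟨true, 1, 5, 12, 25⟩, ⟨true, 1, 21, 27, 50⟩, ⟨true, 4, 15, 9, 40⟩, ⟨true, 3, 23, 11, 20⟩, ⟨true, 4, 47, 7, 20⟩, ⟨true, 4, 47, 17, 40⟩, ⟨true, 4, 47, 9, 20⟩, ⟨true, 4, 47, 19, 40⟩, ⟨true, 5, 31, 3, 10⟩, ⟨true, 4, 47, 3, 5⟩, ⟨true, 4, 47, 5, 8⟩, ⟨true, 6, 159, 1, 10⟩, ⟨true, 6, 159, 1, 4⟩, ⟨true, 6, 319, 11, 40⟩, ⟨true, 5, 159, 7, 20⟩, ⟨true, 8, 255, 3, 40⟩, ⟨true, 7, 319, 1, 8⟩],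
  [.spn 0 0 651200, .spn 1 1 302400, .spn 3 2 302400, .spn 7 3 302400, .spn 15 4 302400, .spn 31 5 140426, .spn 63 6 140426, .spn 127 7 62723]⟩

/-- piece 238 of the tree -/
noncomputable def t238 : WN.Tree :=
(.mark 255 [8, 9, 10]
(.spn
(.haz 8 639 3 20
(.haz 9 255 2 5
(.lp [[7, 10], [1, 3, 5, 8], [0, 2, 4, 6, 9]] [(.mj 6 7, 28), (.mj 7 8, 28), (.mj 8 9, 24), (.hz 17 159, 46), (.hz 21 255, 131272), (.hz 20 639, 20291), (.hz 15 1215, 1417), (.hz 17 1247, 22686), (.hz 18 1279, 8329), (.hz 21 1279, 368943)])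
(.haz 9 255 7 20
(.lp [[7, 10], [1, 3, 5, 8], [0, 2, 4, 6, 9]] [(.mj 5 6, 60), (.mj 6 7, 318), (.mj 7 8, 303), (.mj 8 9, 149), (.hz 21 127, 343282), (.hz 17 1183, 43333), (.hz 22 255, 81330), (.hz 20 639, 217685), (.hz 18 1279, 108398), (.hz 22 1279, 572959)])
(.lp [[7, 10], [1, 3, 5, 8], [0, 2, 4, 6, 9]] [(.mj 6 7, 514442), (.mj 7 8, 378164), (.rw 8, 64), (.hz 22 127, 274496191), (.hz 22 255, 294708744), (.hz 20 639, 271805051), (.hz 18 1279, 354475720)])))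
(.cut 9 [(0, 1), (1, 1), (2, 1), (3, 1), (5, 1), (7, 1), (11, 1), (21, 1), (15, 1), (23, 1), (31, 1), (47, 1), (63, 1), (95, 1), (159, 1), (303, 1), (127, 1), (191, 1), (223, 1), (319, 1), (1183, 1), (447, 1), (1215, 1), (1247, 1), (1471, 1)]
(.lp [[7, 10], [1, 3, 5, 8], [0, 2, 4, 6, 9]] [(.mj 3 4, 203133), (.mj 6 7, 78449), (.mj 7 9, 23554), (.mj 8 9, 62879), (.mj 8 10, 8124), (.hz 20 47, 27703135), (.hz 20 63, 52585085), (.hz 20 127, 49795300), (.hz 18 1279, 40701384), (.rw 9, 13)])))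
(.haz 8 639 1 10
(.haz 7 319 7 40
(.haz 8 1279 3 25
(.haz 6 1215 9 20
(.haz 6 319 1 2
(.ask 639
(.mark 767 [8, 10, 11]
(.spn
(.haz 11 1791 11 40
(.haz 11 1791 7 20
(.haz 9 383 17 40
(.ask 303
(.mark 383 [7, 9, 12]
(.lp [[7, 10], [1, 3, 5, 8, 12], [0, 2, 4, 6, 9, 11]] [(.mj 5 6, 26), (.mj 6 7, 149), (.mj 7 9, 75), (.mj 8 11, 40), (.mj 9 8, 68), (.hz 13 4399, 36088), (.hz 24 4415, 164415), (.hz 21 4415, 115707), (.hz 22 1279, 473962), (.hz 21 4479, 52544), (.hz 27 4479, 78309), (.hz 26 1791, 265128)]))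
(.ask 319
(.mark 383 [7, 9, 12]
(.lp [[7, 10], [1, 3, 5, 8, 12], [0, 2, 4, 6, 9, 11]] [(.mj 5 6, 22), (.mj 6 7, 51), (.mj 7 9, 26), (.mj 8 11, 14), (.mj 9 8, 26), (.hz 24 4415, 37444), (.hz 21 4415, 33688), (.hz 22 1279, 164395), (.hz 21 4479, 18026), (.hz 27 4479, 25279), (.hz 26 1791, 90605)]))
(.ask 383
(.mark 895 [7, 11, 12]
(.lp [[7, 10], [1, 3, 5, 8, 12], [0, 2, 4, 6, 9, 11]] [(.mj 3 4, 695), (.mj 6 7, 82), (.mj 7 9, 62), (.mj 8 11, 40), (.mj 9 8, 102), (.hz 22 1279, 546107), (.hz 21 4479, 59533), (.hz 27 4479, 40344), (.hz 26 1791, 261635)]))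
(.lp [[7, 10], [1, 3, 5, 8], [0, 2, 4, 6, 9, 11]] [(.mj 3 4, 33), (.mj 5 6, 13), (.mj 6 7, 29), (.mj 7 9, 16), (.mj 8 11, 9), (.mj 9 8, 18), (.hz 22 1279, 108169), (.hz 26 1791, 57906)]))))
(.lp [[7, 10], [1, 3, 5, 8], [0, 2, 4, 6, 9, 11]] [(.mj 5 6, 31), (.mj 6 7, 57), (.mj 8 10, 6), (.mj 8 11, 20), (.mj 9 8, 66), (.hz 27 127, 32015), (.hz 21 319, 42267), (.hz 22 1279, 320109), (.hz 20 2687, 32079), (.hz 26 1791, 153287)]))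
(.lp [[7, 10], [1, 3, 5, 8], [0, 2, 4, 6, 9, 11]] [(.mj 6 7, 18), (.mj 7 9, 8), (.mj 8 10, 6), (.mj 9 8, 18), (.hz 26 639, 10608), (.hz 26 767, 42460), (.hz 22 1279, 144423), (.hz 25 1791, 9544)]))
(.lp [[7, 10], [1, 3, 5, 8], [0, 2, 4, 6, 9, 11]] [(.mj 6 7, 6), (.mj 7 9, 3), (.mj 8 10, 2), (.mj 9 8, 6), (.hz 25 639, 1727), (.hz 25 767, 6777), (.hz 22 1279, 48235)]))
(.ask 2687
(.mark 2687 [7, 8, 12]
(.lp [[7, 10], [1, 3, 5, 8], [0, 2, 4, 6, 9, 11, 12]] [(.mj 5 6, 14), (.mj 6 7, 16), (.mj 10 8, 11), (.mj 10 11, 4), (.hz 13 303, 2941), (.hz 24 319, 5438), (.hz 21 319, 8467), (.hz 20 639, 1209), (.hz 20 767, 45693), (.hz 22 1279, 19608), (.hz 20 2687, 58148), (.hz 22 1791, 12585), (.hz 21 2943, 43813), (.hz 20 6783, 31155), (.hz 21 7039, 22386)]))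
(.lp [[7, 10], [1, 3, 5, 8], [0, 2, 4, 6, 9, 11]] [(.mj 5 6, 4), (.mj 6 7, 6), (.mj 10 8, 4), (.mj 10 11, 1), (.hz 13 303, 945), (.hz 21 319, 2970), (.hz 20 767, 24839), (.hz 22 1279, 6745), (.hz 20 2687, 4788), (.hz 20 2815, 38015)]))
(.haz 10 767 3 40
(.ask 2687
(.mark 2815 [8, 10, 12]
(.spn
(.lp [[7, 10], [1, 3, 5, 8], [0, 2, 4, 6, 9, 11, 12]] [(.mj 3 4, 2273), (.mj 5 6, 3728), (.mj 6 7, 11184), (.mj 7 9, 10401), (.mj 8 12, 993), (.mj 11 8, 9945), (.rw 10, 13), (.hz 13 303, 1405842), (.hz 21 319, 3606684), (.hz 23 1215, 350725), (.hz 22 1279, 58034787), (.hz 22 1791, 104845381), (.hz 20 6783, 49989115), (.hz 25 6911, 4965970)])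
(.lp [[7, 10], [1, 3, 5, 8], [0, 2, 4, 6, 9, 11, 12]] [(.mj 5 6, 1186), (.mj 7 9, 92), (.mj 10 8, 567), (.mj 11 10, 726), (.rw 10, 1), (.hz 13 303, 99593), (.hz 24 319, 2191046), (.hz 20 639, 900759), (.hz 24 447, 2290639), (.hz 20 767, 3256448), (.hz 22 1279, 6151877), (.hz 20 2687, 733426), (.hz 22 1791, 10310438), (.hz 20 2815, 3426198), (.hz 20 6783, 814918), (.hz 20 6911, 4712351)])
(.lp [[7, 10], [1, 3, 5, 8], [0, 2, 4, 6, 9, 11, 12]] [(.mj 3 4, 14), (.mj 5 6, 4), (.mj 6 7, 13), (.mj 7 9, 8), (.mj 12 8, 12), (.hz 13 303, 4064), (.hz 21 319, 7832), (.hz 20 639, 36916), (.hz 20 767, 79425), (.hz 25 767, 1770), (.hz 22 1279, 55838), (.hz 20 2687, 17164), (.hz 22 1791, 60612), (.hz 20 2815, 78742), (.hz 25 2815, 6769), (.hz 20 6783, 631), (.hz 22 3839, 92362)])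
.fin))
(.ask 2815
(.mark 2815 [8, 10, 12]
(.spn
(.lp [[7, 10], [1, 3, 5, 8], [0, 2, 4, 6, 9, 11, 12]] [(.mj 5 6, 956), (.mj 6 7, 1635), (.mj 7 9, 134), (.mj 8 12, 584), (.mj 11 8, 1635), (.rw 10, 1), (.hz 22 1279, 13125083), (.hz 22 1791, 17317098), (.hz 25 6911, 2922386)])
(.lp [[7, 10], [1, 3, 5, 8], [0, 2, 4, 6, 9, 11, 12]] [(.mj 5 6, 52), (.mj 6 7, 44), (.mj 10 8, 29), (.hz 13 303, 9260), (.hz 24 319, 39711), (.hz 21 319, 23431), (.hz 20 639, 8825), (.hz 20 767, 267790), (.hz 22 1279, 81480), (.hz 20 2687, 9805), (.hz 22 1791, 37095), (.hz 20 2815, 179447), (.hz 20 6911, 199386)])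
(.lp [[7, 10], [1, 3, 5, 8], [0, 2, 4, 6, 9, 11, 12]] [(.mj 3 4, 18), (.mj 5 6, 2), (.mj 6 7, 1), (.mj 12 8, 4), (.hz 13 303, 3023), (.hz 24 319, 15330), (.hz 21 319, 905), (.hz 20 639, 3407), (.hz 23 1215, 2768), (.hz 20 767, 30650), (.hz 25 767, 1063), (.hz 22 1279, 19288), (.hz 20 2687, 3785), (.hz 22 1791, 19667), (.hz 20 2815, 25755), (.hz 25 2815, 2248), (.hz 22 3839, 29969)])
.fin))
(.lp [[7, 10], [1, 3, 5, 8], [0, 2, 4, 6, 9, 11]] [(.mj 5 6, 2), (.mj 11 8, 3), (.mj 11 10, 3)])))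
(.lp [[7, 10], [1, 3, 5, 8], [0, 2, 4, 6, 9, 11]] [(.mj 5 6, 381), (.mj 6 7, 6), (.mj 7 9, 592), (.mj 11 8, 447), (.hz 25 159, 74715), (.hz 13 303, 31989), (.hz 25 191, 196997), (.hz 24 319, 703761), (.hz 25 255, 231360), (.hz 20 639, 2829100), (.hz 24 447, 1387005), (.hz 20 767, 1724687), (.hz 22 1279, 1730268), (.hz 20 2687, 703270), (.hz 22 1791, 2344234)]))
.fin))
(.ask 767
(.mark 767 [8, 10, 11]
(.spn
(.haz 8 255 7 40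
(.lp [[7, 10], [1, 3, 5, 8], [0, 2, 4, 6, 9, 11]] [(.mj 5 6, 50), (.mj 6 7, 137), (.mj 7 9, 37), (.mj 8 11, 43), (.mj 9 8, 144), (.hz 17 1183, 5580), (.hz 25 255, 155086), (.hz 23 1215, 23493), (.hz 25 1279, 553705)])
(.lp [[7, 10], [1, 3, 5, 8], [0, 2, 4, 6, 9, 11]] [(.mj 5 6, 22), (.mj 6 7, 19), (.mj 8 11, 6), (.hz 25 47, 1585), (.hz 25 63, 4527), (.hz 25 127, 12074), (.hz 21 319, 1167), (.hz 22 1279, 32556)]))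
(.lp [[7, 10], [1, 3, 5, 8], [0, 2, 4, 6, 9, 11]] [(.mj 5 6, 1733), (.mj 6 7, 3891), (.mj 10 8, 1295), (.rw 9, 1), (.hz 13 303, 686862), (.hz 21 319, 2158708), (.hz 21 383, 1728935), (.hz 20 767, 6339428), (.hz 20 2815, 7043809)])
(.lp [[7, 10], [1, 3, 5, 8], [0, 2, 4, 6, 9, 11]] [(.mj 5 6, 100), (.mj 6 7, 28), (.mj 11 8, 42), (.hz 13 303, 10826), (.hz 24 319, 155529), (.hz 21 319, 11806), (.hz 15 1183, 176920), (.hz 20 639, 34562), (.hz 23 1215, 50237), (.hz 20 767, 379913), (.hz 22 1279, 222696)])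
.fin))
(.lp [[7, 10], [1, 3, 5, 8], [0, 2, 4, 6, 9]] [(.mj 6 7, 8), (.mj 7 8, 5), (.mj 9 10, 1)])))
(.lp [[7, 10], [1, 3, 5, 8], [0, 2, 4, 6, 9]] [(.mj 0 1, 476), (.mj 6 7, 16), (.hz 24 63, 87428), (.hz 16 319, 6), (.hz 21 319, 6127), (.hz 17 1183, 5550), (.hz 20 639, 28)]))
(.lp [[7, 10], [1, 3, 5, 8], [0, 2, 4, 6, 9]] [(.mj 0 1, 110), (.mj 6 7, 4), (.hz 23 63, 2014), (.hz 23 191, 211), (.hz 21 319, 1350), (.hz 17 1183, 524), (.hz 23 1183, 736)]))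
(.lp [[7, 10], [1, 3, 5, 8], [0, 2, 4, 6, 9]] [(.mj 3 4, 143), (.mj 5 6, 13), (.mj 7 9, 4), (.hz 22 47, 7973), (.hz 22 63, 7169), (.hz 22 127, 2928), (.hz 22 191, 6256), (.hz 15 1183, 114806), (.hz 20 639, 11304)]))
(.lp [[7, 10], [1, 3, 5, 8], [0, 2, 4, 6, 9]] [(.mj 0 1, 79), (.mj 5 6, 3), (.mj 7 9, 13), (.mj 9 8, 11), (.hz 21 63, 13479), (.hz 19 319, 58160), (.hz 17 1183, 18677), (.hz 19 383, 56018), (.hz 20 639, 33518)]))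
(.lp [[7, 10], [1, 3, 5, 8], [0, 2, 4, 6, 9]] [(.mj 3 4, 30), (.mj 7 9, 1), (.hz 20 47, 3796), (.hz 20 63, 4452), (.hz 15 1183, 1056), (.hz 18 767, 704)]))
(.haz 5 223 13 20
(.haz 9 383 11 40
(.lp [[7, 10], [1, 3, 5, 8], [0, 2, 4, 6, 9]] [(.mj 0 1, 74), (.mj 6 7, 6), (.mj 10 8, 2), (.mj 10 9, 5), (.hz 19 319, 13462), (.hz 20 223, 14156), (.hz 21 383, 3471), (.hz 21 511, 9657), (.hz 18 1279, 450)])
(.lp [[7, 10], [1, 3, 5, 8], [0, 2, 4, 6, 9]] [(.mj 6 7, 5), (.mj 10 8, 3), (.mj 10 9, 1), (.hz 13 303, 308), (.hz 21 127, 1125), (.hz 19 319, 17361), (.hz 19 383, 8882)]))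
(.lp [[7, 10], [1, 3, 5, 8], [0, 2, 4, 6, 9]] [(.mj 0 1, 770), (.mj 5 6, 29), (.mj 6 7, 31), (.mj 10 8, 2), (.mj 10 9, 1), (.hz 20 95, 21458), (.hz 16 319, 171), (.hz 19 319, 63038), (.hz 17 1183, 2604), (.hz 18 767, 6353), (.hz 18 1279, 1541)]))
.fin))

theorem run238 : run P3488 (leaf3 218 625) (cutRow P3488) [] t238 s238 = true := by
  decide +kernel

theorem bad238 : Bad P3488 s238 :=
  run_sound (leaf3_sound P3488 rfl rfl) (cutRow_sound P3488) (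
    fun _ h => absurd h List.not_mem_nil) t238 s238 run238

/-- the state above piece 127 of the tree -/
def s127 : St := ⟨[0, 0, 1, 3, 5, 11, 15, 21, 47, 149], [303, 191, 63, 43, 31, 15, 11, 7, 5, 3, 2, 1, 0], [0, 1, 2, 3, 4, 5, 7, 8],
  [],
  [⟨true, 2, 3, 3, 10⟩, ⟨true, 1, 5, 2, 5⟩, ⟨true, 2, 3, 23, 50⟩, ⟨true, 1, 5, 12, 25⟩, ⟨true, 1, 21, 27, 50⟩, ⟨true, 4, 15, 9, 40⟩, ⟨true, 3, 23, 11, 20⟩, ⟨true, 4, 79, 7, 25⟩, ⟨true, 4, 79, 8, 25⟩, ⟨true, 7, 95, 9, 50⟩, ⟨true, 4, 79, 17, 50⟩, ⟨true, 4, 79, 9, 25⟩, ⟨true, 5, 95, 9, 50⟩, ⟨true, 5, 95, 13, 50⟩, ⟨true, 3, 151, 29, 50⟩, ⟨true, 5, 159, 6, 25⟩, ⟨true, 7, 127, 11, 50⟩, ⟨true, 5, 79, 11, 50⟩, ⟨false, 6, 47, 11, 50⟩, ⟨true, 4, 303, 8, 25⟩, ⟨true, 4, 303, 9, 25⟩, ⟨true, 4, 303, 19, 50⟩, ⟨true, 4, 303, 2, 5⟩, ⟨true, 4, 79, 19, 50⟩, ⟨false, 6, 63, 9, 50⟩, ⟨true, 5, 79,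 8, 25⟩, ⟨false, 6, 47, 4, 25⟩, ⟨true, 7, 95, 13, 50⟩, ⟨true, 8, 111, 1, 5⟩, ⟨true, 6, 959, 2, 25⟩, ⟨true, 7, 95, 3, 10⟩, ⟨true, 6, 671, 2, 25⟩, ⟨true, 5, 79, 9, 25⟩, ⟨true, 6, 319, 2, 25⟩, ⟨true, 5, 671, 2, 5⟩],
  [.spn 0 0 651200, .spn 1 1 302400, .spn 3 2 302400, .spn 7 3 302400, .spn 15 4 140426, .spn 31 5 140426, .spn 63 7 140426, .spn 191 8 140426]⟩

/-- piece 127 of the tree -/
noncomputable def t127 : WN.Tree :=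
(.haz 8 703 9 25
(.haz 9 447 9 50
(.ask 319
(.mark 447 [6, 9, 10]
(.spn
(.haz 10 511 21 50
(.lp [[6], [0, 2, 4, 7, 9], [1, 3, 5, 8, 10]] [(.mj 3 4, 279), (.mj 5 7, 102), (.mj 6 9, 384), (.mj 7 8, 1001), (.mj 8 6, 701), (.rw 8, 1), (.hz 26 47, 13424), (.hz 23 79, 10598), (.hz 30 95, 64763), (.hz 31 671, 436264), (.hz 31 703, 1037932), (.hz 35 703, 218351), (.hz 37 511, 854427), (.hz 36 1471, 364843)])
(.lp [[6], [0, 2, 4, 7, 9], [1, 3, 5, 8, 10]] [(.mj 3 4, 1), (.mj 6 9, 12), (.mj 7 8, 12), (.mj 8 6, 14), (.hz 23 79, 34), (.hz 4 661, 15), (.hz 14 663, 96), (.hz 31 671, 7036), (.hz 37 447, 5902), (.hz 31 703, 11881), (.hz 33 1343, 14672), (.hz 36 511, 2860), (.hz 36 1471, 11516)]))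
(.haz 7 1343 2 5
(.haz 9 1535 2 5
(.ask 661
(.mark 959 [6, 10, 11]
(.spn
(.lp [[6], [1, 3, 5, 8, 10], [0, 2, 4, 7, 9, 11]] [(.mj 3 4, 2618), (.mj 4 5, 170), (.mj 6 10, 182), (.mj 7 8, 444), (.mj 9 6, 999), (.rw 9, 1), (.hz 23 79, 77726), (.hz 28 111, 790316), (.hz 33 1343, 1448288), (.hz 37 1343, 608124), (.hz 33 1471, 4655335)])
(.lp [[6], [1, 3, 5, 8, 10], [0, 2, 4, 7, 9, 11]] [(.mj 3 4, 123), (.mj 4 5, 18), (.mj 7 8, 5), (.mj 9 10, 41), (.mj 10 6, 53), (.hz 23 79, 5132), (.hz 30 95, 41746), (.hz 33 319, 12464), (.hz 31 671, 33077), (.hz 33 447, 50859), (.hz 31 703, 81969), (.hz 33 1343, 90736), (.hz 31 2719, 53367), (.hz 29 959, 95124), (.hz 33 1471, 282190), (.hz 31 2751, 122478), (.hz 29 3007, 236523)])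
(.lp [[6], [1, 3, 5, 8, 10], [0, 2, 4, 7, 9, 11]] [(.mj 3 4, 4314), (.mj 4 5, 333), (.mj 7 8, 148), (.mj 11 6, 1134), (.mj 11 10, 582), (.rw 8, 1), (.hz 23 79, 180372), (.hz 30 95, 1467204), (.hz 23 111, 121177), (.hz 30 127, 1594685), (.hz 31 671, 1162527), (.hz 22 367, 790939), (.hz 33 447, 696103), (.hz 31 703, 1956957), (.hz 33 1343, 1874655), (.hz 37 1343, 2063224), (.hz 29 959, 1422167), (.hz 33 1471, 5604201)])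
.fin))
(.ask 663
(.mark 959 [6, 10, 11]
(.spn
(.lp [[6], [1, 3, 5, 8, 10], [0, 2, 4, 7, 9, 11]] [(.mj 3 4, 2745), (.mj 4 5, 178), (.mj 6 10, 184), (.mj 7 8, 467), (.mj 9 6, 1041), (.rw 9, 1), (.hz 23 79, 81491), (.hz 28 111, 830885), (.hz 33 1343, 1516219), (.hz 37 1343, 634562), (.hz 33 1471, 4870189)])
(.lp [[6], [1, 3, 5, 8, 10], [0, 2, 4, 7, 9, 11]] [(.mj 0 1, 563), (.mj 3 4, 189), (.mj 4 5, 5), (.mj 7 8, 1), (.mj 9 10, 19), (.mj 10 6, 33), (.hz 23 79, 4112), (.hz 30 95, 28195), (.hz 33 319, 10821), (.hz 31 671, 17593), (.hz 33 447, 43831), (.hz 31 703, 57308), (.hz 33 1343, 40607), (.hz 31 2719, 24457), (.hz 29 959, 67192), (.hz 33 1471, 129965), (.hz 31 2751, 67504), (.hz 29 3007, 146409)])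
(.lp [[6], [1, 3, 5, 8, 10], [0, 2, 4, 7, 9, 11]] [(.mj 3 4, 4524), (.mj 4 5, 349), (.mj 7 8, 155), (.mj 11 6, 1175), (.mj 11 10, 600), (.rw 8, 1), (.hz 23 79, 189154), (.hz 30 95, 1538639), (.hz 23 111, 127077), (.hz 30 127, 1672327), (.hz 31 671, 1219128), (.hz 22 367, 829448), (.hz 33 447, 729995), (.hz 31 703, 2052238), (.hz 33 1343, 1935940), (.hz 37 1343, 2159587), (.hz 29 959, 1479200), (.hz 33 1471, 5788299)])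
.fin))
(.ask 79
(.mark 383 [7, 10, 11]
(.lp [[6, 11], [0, 2, 4, 7, 9], [1, 3, 5, 8, 10]] [(.mj 0 1, 2848), (.mj 3 4, 215), (.mj 5 7, 296), (.mj 7 8, 32), (.mj 9 6, 1), (.hz 23 2127, 3023), (.hz 32 2127, 8630), (.hz 30 2143, 673922), (.hz 31 671, 90333), (.hz 28 2159, 183941), (.hz 30 2175, 73910), (.hz 28 2175, 303286), (.hz 33 447, 29552), (.hz 31 703, 29565), (.hz 37 1407, 13001), (.hz 33 1471, 6)]))
(.ask 95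
(.mark 383 [7, 10, 11]
(.lp [[6, 11], [0, 2, 4, 7, 9], [1, 3, 5, 8, 10]] [(.mj 0 1, 204), (.mj 3 4, 54), (.mj 7 8, 2), (.mj 9 6, 2), (.hz 32 79, 1495), (.hz 30 95, 4660), (.hz 30 2143, 2408), (.hz 28 2175, 10825), (.hz 33 447, 2101), (.hz 33 1343, 706), (.hz 37 1343, 1412), (.hz 34 735, 3), (.hz 33 1471, 3537)]))
(.lp [[6], [0, 2, 4, 7, 9], [1, 3, 5, 8, 10]] [(.mj 0 1, 675), (.mj 3 4, 197), (.mj 4 5, 26), (.mj 9 6, 8), (.hz 28 111, 6458), (.hz 30 127, 14983), (.hz 33 319, 3820), (.hz 33 447, 10580), (.hz 31 703, 3), (.hz 33 1343, 4593), (.hz 37 1343, 6056), (.hz 33 1471, 15176)])))))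
(.cut 6 [(0, 1), (1, 1), (2, 1), (3, 1), (5, 1), (7, 1), (11, 1), (21, 1), (15, 1), (23, 1), (43, 1), (149, 1), (31, 1), (47, 1), (151, 1), (661, 1), (63, 1), (159, 1), (303, 1), (663, 1), (191, 1), (319, 1), (671, 1), (447, 1)]
(.cut 6 [(0, 1), (1, 1), (2, 1), (3, 1), (5, 1), (7, 1), (11, 1), (21, 1), (15, 1), (23, 1), (43, 1), (149, 1), (31, 1), (47, 1), (151, 1), (661, 1), (63, 1), (159, 1), (303, 1), (663, 1), (191, 1), (319, 1), (447, 1)]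
(.lp [[6], [0, 2, 4, 7, 9], [1, 3, 5, 8, 10]] [(.mj 3 4, 192463), (.mj 4 5, 23235), (.mj 9 6, 70124), (.mj 9 10, 50757), (.hz 23 79, 6954641), (.hz 30 95, 34807649), (.hz 23 111, 564851), (.hz 38 191, 14328040), (.hz 22 367, 41670517), (.hz 38 255, 132582330), (.hz 38 447, 467427968), (.hz 33 1343, 100879849), (.hz 38 511, 530367096), (.hz 33 1471, 327899272), (.rw 9, 12), (.rw 10, 38)]))))
(.cut 6 [(0, 1), (1, 1), (2, 1), (3, 1), (5, 1), (7, 1), (11, 1), (21, 1), (15, 1), (23, 1), (43, 1), (149, 1), (31, 1), (47, 1), (151, 1), (661, 1), (63, 1), (159, 1), (303, 1), (663, 1), (191, 1), (319, 1)]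
(.lp [[6], [0, 2, 4, 7, 9], [1, 3, 5, 8, 10]] [(.mj 3 4, 450469), (.mj 7 8, 339376), (.mj 8 9, 32661), (.mj 9 6, 269932), (.hz 23 79, 12265015), (.hz 32 79, 10331952), (.hz 37 63, 914964794), (.hz 30 95, 24640069), (.hz 28 111, 714730810), (.hz 30 127, 582343682), (.hz 33 319, 491837418), (.hz 37 319, 135706412), (.hz 31 671, 23412212), (.hz 33 447, 213404890), (.hz 33 1343, 246470630), (.hz 30 1407, 1282174668), (.rw 9, 68)])))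
(.lp [[6], [0, 2, 4, 7, 9], [1, 3, 5, 8, 10]] [(.mj 3 4, 18), (.mj 7 8, 21), (.mj 10 6, 16), (.mj 10 9, 6), (.hz 23 79, 557), (.hz 32 79, 757), (.hz 30 95, 5036), (.hz 28 111, 43262), (.hz 30 127, 3874), (.hz 33 319, 34232), (.hz 31 671, 11854), (.hz 33 447, 16033), (.hz 36 447, 690), (.hz 31 703, 34063), (.hz 35 703, 7997), (.hz 33 1343, 4428), (.hz 29 959, 74746)])
.fin))
(.ask 447
(.mark 447 [6, 9, 10]
(.spn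
(.ask 1471
(.mark 1471 [6, 9, 11]
(.ask 3519
(.maj 9 10
(.mark 3519 [6, 9, 12]
(.lp [[6], [0, 2, 4, 7, 9], [1, 3, 5, 8, 10, 11, 12]] [(.mj 6 9, 14), (.mj 6 10, 1), (.mj 7 8, 9), (.mj 8 6, 14), (.mj 9 10, 2), (.hz 36 447, 3130), (.hz 36 511, 12434), (.hz 36 1471, 7758), (.hz 36 3519, 7720), (.hz 36 7615, 9415)]))
(.mark 3519 [6, 9, 12]
(.lp [[6], [0, 2, 4, 7, 9], [1, 3, 5, 8, 10, 11, 12]] [(.mj 4 5, 1), (.mj 6 9, 4), (.mj 6 10, 17), (.mj 7 8, 10), (.mj 8 6, 30), (.mj 10 9, 22), (.hz 4 661, 87), (.hz 14 663, 558), (.hz 31 671, 30468), (.hz 36 447, 780), (.hz 31 703, 33475), (.hz 36 511, 96925), (.hz 36 1471, 23833), (.hz 36 1535, 465), (.hz 36 3519, 2119), (.hz 36 7615, 2584)])))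
(.lp [[6], [0, 2, 4, 7, 9], [1, 3, 5, 8, 10, 11]] [(.mj 6 9, 4), (.mj 8 6, 7), (.hz 36 511, 15255), (.hz 36 1535, 2507)])))
(.lp [[6], [0, 2, 4, 7, 9], [1, 3, 5, 8, 10]] [(.mj 6 9, 2), (.mj 8 6, 3), (.hz 36 511, 5063)]))
(.ask 79
(.mark 511 [9, 10, 11]
(.lp [[6, 11], [0, 2, 4, 7, 9], [1, 3, 5, 8, 10]] [(.mj 0 1, 278), (.mj 3 4, 115), (.mj 4 5, 33), (.mj 5 7, 80), (.mj 7 8, 3), (.mj 9 6, 37), (.mj 9 10, 13), (.hz 23 2127, 7816), (.hz 30 2143, 207489), (.hz 31 671, 71034), (.hz 30 2175, 125834), (.hz 31 703, 76949), (.hz 30 2431, 120927), (.hz 29 959, 48371), (.hz 33 1471, 171725)]))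
(.lp [[6], [0, 2, 4, 7, 9], [1, 3, 5, 8, 10]] [(.mj 0 1, 467), (.mj 3 4, 318), (.mj 4 5, 76), (.mj 9 6, 42), (.mj 9 10, 8), (.hz 30 95, 53923), (.hz 23 111, 2316), (.hz 33 319, 4833), (.hz 31 671, 20324), (.hz 22 367, 666), (.hz 33 447, 62359), (.hz 31 703, 45149), (.hz 33 1471, 102986)]))
(.ask 1471
(.mark 1471 [6, 9, 11]
(.spn
(.lp [[6], [0, 2, 4, 7, 9], [1, 3, 5, 8, 10, 11]] [(.mj 10 6, 163), (.rw 9, 1)])
(.lp [[6], [0, 2, 4, 7, 9], [1, 3, 5, 8, 10, 11]] [(.mj 0 1, 13159), (.mj 3 4, 2450), (.mj 10 9, 1019), (.rw 9, 2), (.hz 32 79, 43748), (.hz 4 661, 44458), (.hz 33 319, 252979), (.hz 31 671, 1142422), (.hz 33 447, 322530), (.hz 31 703, 4251533), (.hz 29 959, 9960655)])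
(.lp [[6], [0, 2, 4, 7, 9], [1, 3, 5, 8, 10, 11]] [(.mj 7 8, 1632), (.rw 9, 1), (.hz 33 319, 3725595), (.hz 33 447, 1671004), (.hz 36 447, 835502), (.hz 33 1471, 2258113), (.hz 36 1471, 1129057)])
.fin))
(.lp [[6], [0, 2, 4, 7, 9], [1, 3, 5, 8, 10]] [(.mj 10 9, 1), (.rw 8, 1)]))
.fin))
(.lp [[6], [1, 3, 5, 8], [0, 2, 4, 7, 9]] [(.mj 5 7, 34), (.mj 7 8, 7), (.mj 8 6, 12), (.hz 26 47, 1654), (.hz 23 79, 1083), (.hz 30 95, 52573), (.hz 31 671, 17854), (.hz 31 703, 33706)])))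
(.cut 6 [(0, 1), (1, 1), (2, 1), (3, 1), (5, 1), (7, 1), (11, 1), (21, 1), (15, 1), (23, 1), (43, 1), (149, 1), (31, 1), (47, 1), (151, 1), (661, 1), (63, 1), (159, 1), (303, 1), (663, 1), (191, 1)]
(.lp [[6], [1, 3, 5, 8], [0, 2, 4, 7, 9]] [(.mj 0 1, 14633047), (.mj 3 4, 2504957), (.mj 5 7, 178533), (.mj 8 6, 45042), (.hz 36 149, 52051035), (.hz 32 79, 53727450), (.hz 36 151, 48616268), (.hz 32 95, 10598333), (.hz 36 159, 35747493), (.hz 28 111, 191021246), (.hz 36 191, 31826347), (.hz 33 319, 37446581), (.hz 31 703, 22521004), (.rw 8, 28)])))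
(.lp [[6], [1, 3, 5, 8], [0, 2, 4, 7, 9]] [(.mj 5 7, 2284), (.mj 8 9, 141), (.rw 7, 4), (.hz 35 191, 6662153), (.hz 31 671, 3162692), (.hz 31 703, 351410)]))

theorem run127 : run P3488 (leaf3 218 625) (cutRow P3488) [] t127 s127 = true := by
  decide +kernel

theorem bad127 : Bad P3488 s127 :=
  run_sound (leaf3_sound P3488 rfl rfl) (cutRow_sound P3488) (
    fun _ h => absurd h List.not_mem_nil) t127 s127 run127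

/-- the state above piece 60 of the tree -/
def s60 : St := ⟨[0, 0, 1, 1, 7, 23, 11, 15], [11, 13, 9, 7, 5, 3, 2, 1, 0], [0, 1, 2, 3],
  [(4, 6), (3, 4)],
  [⟨true, 1, 9, 7, 50⟩, ⟨true, 2, 11, 3, 50⟩, ⟨true, 2, 9, 9, 50⟩, ⟨true, 3, 3, 1, 5⟩, ⟨true, 1, 5, 13, 50⟩, ⟨true, 2, 11, 3, 5⟩, ⟨true, 2, 9, 8, 25⟩, ⟨true, 2, 9, 17, 50⟩, ⟨true, 2, 11, 33, 50⟩, ⟨true, 3, 23, 8, 25⟩, ⟨true, 4, 15, 27, 50⟩, ⟨true, 3, 23, 19, 50⟩, ⟨true, 4, 15, 29, 50⟩],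
  [.spn 0 0 651200, .spn 1 1 140426, .spn 3 2 302400, .spn 7 3 140426]⟩

/-- piece 60 of the tree -/
noncomputable def t60 : WN.Tree :=
(.mark 15 [4, 6, 7]
(.spn
(.mark 31 [5, 6, 7]
(.spn
(.haz 5 159 13 50
(.haz 5 31 13 25
(.haz 6 143 1 10
(.ask 55
(.mark 63 [6, 7, 8]
(.spn
(.haz 6 159 9 50
(.haz 8 191 13 50
(.haz 8 63 12 25
(.lp [[1, 6], [3, 7], [0, 2, 4, 5, 8]] [(.mj 2 3, 50), (.mj 5 6, 18), (.mj 6 8, 37), (.hz 12 143, 2043), (.hz 18 63, 9482), (.hz 14 159, 11161), (.hz 16 159, 9414), (.hz 18 191, 30112)])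
(.haz 8 191 9 25
(.lp [[1, 6], [3, 7], [0, 2, 4, 5, 8]] [(.mj 2 3, 204), (.mj 5 6, 36), (.mj 6 8, 55), (.hz 12 143, 267), (.hz 18 55, 7021), (.hz 16 159, 32012), (.hz 19 191, 45301)])
(.lp [[1, 6], [3, 7], [0, 2, 4, 5, 8]] [(.mj 2 3, 1), (.hz 19 55, 43), (.hz 19 63, 71), (.hz 16 159, 119), (.hz 17 191, 1)])))
(.lp [[1, 6], [3, 7], [0, 2, 4, 5, 8]] [(.mj 2 3, 12), (.mj 6 7, 1), (.hz 17 55, 239), (.hz 17 63, 376)]))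
(.lp [[1, 6], [3, 7], [0, 2, 4, 5, 8]] [(.mj 6 8, 162), (.rw 6, 2), (.hz 16 31, 605145), (.hz 15 143, 462472), (.hz 15 159, 3200977)]))
(.haz 8 63 1 2
(.lp [[1, 6], [3, 7], [0, 2, 4, 5, 8]] [(.mj 1 2, 33), (.mj 2 3, 38), (.mj 5 7, 10), (.mj 7 8, 27), (.hz 12 79, 1148), (.hz 15 143, 9929), (.hz 16 63, 102143), (.hz 14 95, 10880), (.hz 15 159, 17471), (.hz 16 127, 304698)])
(.haz 2 75 19 25
(.haz 8 127 9 25
(.haz 2 75 41 50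
(.haz 8 127 2 5
(.haz 7 79 9 50
(.ask 75
(.mark 127 [7, 8, 9]
(.lp [[3, 7], [1, 6, 9], [0, 2, 4, 5, 8]] [(.mj 2 3, 4), (.mj 5 7, 13), (.mj 7 8, 8), (.hz 19 75, 556), (.hz 21 79, 1710), (.hz 16 55, 1712), (.hz 14 95, 245), (.hz 21 591, 2272), (.hz 20 127, 7189), (.hz 15 191, 2043), (.hz 21 607, 9126), (.hz 20 639, 71895)]))
(.ask 79
(.mark 127 [7, 8, 9]
(.lp [[3, 7], [1, 6, 9], [0, 2, 4, 5, 8]] [(.mj 2 3, 4), (.mj 5 7, 9), (.mj 7 8, 6), (.hz 12 79, 198), (.hz 21 79, 1404), (.hz 16 55, 1356), (.hz 14 95, 201), (.hz 21 591, 1209), (.hz 20 127, 5759), (.hz 15 191, 1923), (.hz 21 607, 5904), (.hz 20 639, 47300)]))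
(.haz 8 63 12 25
(.lp [[1, 6], [3, 7], [0, 2, 4, 5, 8]] [(.mj 1 2, 159), (.mj 2 3, 35), (.mj 5 7, 4), (.mj 7 8, 23), (.hz 16 55, 2822), (.hz 22 63, 8095), (.hz 14 95, 9992), (.hz 12 207, 1160), (.hz 22 127, 20816)])
(.lp [[1, 6], [3, 7], [0, 2, 4, 5, 8]] [(.mj 1 2, 1237), (.mj 2 3, 297), (.mj 7 8, 42), (.hz 21 79, 3725), (.hz 22 55, 13777), (.hz 14 95, 421), (.hz 21 95, 7364), (.hz 20 127, 189372)]))))
(.lp [[1, 6], [3, 7], [0, 2, 4, 5, 8]] [(.mj 2 3, 429), (.mj 7 6, 114), (.mj 7 8, 247), (.hz 21 15, 85059), (.hz 15 143, 353405), (.hz 16 55, 54130), (.hz 14 95, 61861), (.hz 15 159, 216069), (.hz 20 127, 1353921)]))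
(.lp [[1, 6], [3, 7], [0, 2, 4, 5, 8]] [(.mj 1 2, 92), (.mj 2 3, 49), (.mj 7 6, 1), (.hz 15 143, 10802), (.hz 20 55, 11903), (.hz 20 63, 16422), (.hz 15 159, 15090), (.hz 18 127, 450)]))
(.lp [[1, 6], [3, 7], [0, 2, 4, 5, 8]] [(.mj 2 3, 15), (.mj 7 8, 2), (.hz 19 11, 640), (.hz 17 75, 511), (.hz 12 79, 3), (.hz 15 143, 1412), (.hz 16 55, 7555), (.hz 15 159, 1871), (.hz 18 127, 1792)]))
(.lp [[1, 6], [3, 7], [0, 2, 4, 5, 8]] [(.mj 1 2, 40), (.mj 2 3, 21), (.mj 7 6, 1), (.hz 15 143, 4549), (.hz 18 55, 987), (.hz 18 63, 1332), (.hz 15 159, 6203)]))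
(.lp [[1, 6], [3, 7], [0, 2, 4, 5, 8]] [(.mj 2 3, 9), (.mj 3 4, 5), (.hz 17 11, 406)])))
(.haz 5 95 3 5
(.haz 6 159 3 25
(.haz 8 127 13 25
(.haz 8 127 3 5
(.haz 6 319 3 25
(.ask 311
(.mark 319 [6, 7, 9]
(.spn
(.lp [[1, 6], [3, 7], [0, 2, 4, 5, 8, 9]] [(.mj 3 4, 1240), (.mj 6 7, 88), (.mj 8 6, 1390), (.rw 7, 1), (.hz 12 143, 73956), (.hz 15 143, 1138898), (.hz 14 159, 197053), (.hz 17 159, 1108403), (.hz 17 191, 2006957)])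
(.lp [[1, 6], [3, 7], [0, 2, 4, 5, 8, 9]] [(.mj 2 3, 794), (.mj 3 4, 2393), (.mj 7 6, 997), (.mj 8 7, 1394), (.rw 7, 1), (.hz 12 79, 68437), (.hz 16 95, 802579), (.hz 17 159, 1476917), (.hz 17 191, 2137389), (.hz 20 319, 318713), (.hz 20 831, 498482)])
(.lp [[1, 6], [3, 7], [0, 2, 4, 5, 8, 9]] [(.mj 2 3, 5), (.mj 3 4, 14), (.mj 9 6, 5), (.mj 9 7, 4), (.hz 12 79, 387), (.hz 12 143, 482), (.hz 15 143, 4839), (.hz 16 95, 4532), (.hz 14 159, 1236), (.hz 17 159, 4243), (.hz 17 191, 7179), (.hz 20 319, 1800)])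
.fin))
(.ask 319
(.mark 319 [6, 7, 9]
(.spn
(.lp [[1, 6], [3, 7], [0, 2, 4, 5, 8, 9]] [(.mj 1 2, 1701), (.mj 3 4, 1127), (.mj 8 6, 1197), (.rw 7, 1), (.hz 12 143, 64741), (.hz 15 143, 917527), (.hz 14 159, 172913), (.hz 17 159, 950843), (.hz 17 191, 1751496)])
(.lp [[1, 6], [3, 7], [0, 2, 4, 5, 8, 9]] [(.mj 8 7, 580), (.rw 7, 1), (.hz 17 159, 989278), (.hz 17 191, 1272571)])
(.lp [[1, 6], [3, 7], [0, 2, 4, 5, 8, 9]] [(.mj 3 4, 23), (.mj 9 6, 13), (.mj 9 7, 5), (.hz 8 75, 122), (.hz 12 79, 582), (.hz 12 143, 1306), (.hz 15 143, 9784), (.hz 14 159, 172), (.hz 17 159, 28249), (.hz 20 319, 8074), (.hz 16 223, 162354), (.hz 19 255, 123108)])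
.fin))
(.lp [[1, 6], [3, 7], [0, 2, 4, 5, 8]] [(.mj 1 2, 2), (.mj 8 6, 2), (.mj 8 7, 1), (.hz 15 143, 1025), (.hz 17 159, 2028), (.hz 17 191, 3128)])))
(.lp [[1, 6], [3, 7], [0, 2, 4, 5, 8]] [(.mj 3 4, 37), (.mj 8 7, 11), (.hz 20 11, 1446), (.hz 20 15, 4054), (.hz 20 31, 2871), (.hz 12 143, 1362), (.hz 15 143, 7474), (.hz 20 63, 1527), (.hz 14 159, 2278), (.hz 17 159, 11850), (.hz 16 223, 48920)]))
(.lp [[1, 6], [3, 7], [0, 2, 4, 5, 8]] [(.mj 1 2, 2), (.mj 3 4, 6), (.mj 8 6, 7), (.mj 8 7, 4), (.hz 12 143, 120), (.hz 15 143, 6803), (.hz 19 63, 16069), (.hz 17 159, 7012), (.hz 17 191, 9718)]))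
(.lp [[1, 6], [3, 7], [0, 2, 4, 5, 8]] [(.mj 3 4, 3), (.mj 8 6, 3), (.mj 8 7, 2), (.hz 12 143, 81), (.hz 15 143, 2650), (.hz 18 55, 7), (.hz 18 63, 1192), (.hz 17 159, 2623), (.hz 17 191, 3948)]))
(.lp [[1, 6], [3, 7], [0, 2, 4, 5, 8]] [(.mj 3 4, 476), (.mj 8 7, 142), (.hz 17 11, 18401), (.hz 17 15, 51579), (.hz 17 31, 58613), (.hz 12 143, 16587), (.hz 15 143, 97725), (.hz 14 159, 30214), (.hz 15 159, 436191), (.hz 16 223, 639657)]))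
(.lp [[1, 6], [3, 7], [0, 2, 4, 5, 8]] [(.mj 3 4, 16), (.mj 8 6, 17), (.mj 8 7, 12), (.hz 16 31, 40586), (.hz 12 143, 104), (.hz 15 143, 17580), (.hz 14 95, 6016), (.hz 14 159, 6749), (.hz 15 159, 37072), (.hz 15 191, 62714)]))
.fin))
(.ask 63
(.mark 63 [6, 7, 8]
(.spn
(.lp [[1, 6], [3, 7], [0, 2, 4, 5, 8]] [(.mj 2 3, 10017), (.mj 6 8, 781), (.rw 6, 1)])
(.lp [[1, 6], [3, 7], [0, 2, 4, 5, 8]] [(.mj 1 2, 19), (.mj 2 3, 11), (.mj 7 8, 1)])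
(.ask 319
(.mark 319 [6, 7, 9]
(.spn
(.lp [[1, 6], [3, 7], [0, 2, 4, 5, 8, 9]] [(.mj 8 6, 2464), (.rw 7, 4)])
(.lp [[1, 6], [3, 7], [0, 2, 4, 5, 8, 9]] [(.mj 8 7, 501), (.rw 7, 1), (.hz 15 143, 661364), (.hz 15 159, 1500639), (.hz 15 191, 2642018)])
(.maj 6 7
(.ask 75
(.mark 127 [7, 8, 10]
(.cut 7 [(0, 1), (1, 1), (2, 1), (3, 1), (5, 1), (9, 1), (7, 1), (11, 1), (13, 1), (15, 1), (23, 1), (75, 1), (31, 1), (55, 1), (79, 1), (1099, 1), (63, 1), (95, 1), (127, 1)]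
(.cut 6 [(0, 1), (1, 1), (2, 1), (3, 1), (5, 1), (9, 1), (7, 1), (11, 1), (13, 1), (15, 1), (23, 1), (31, 1), (55, 1), (63, 1), (319, 1)]
(.lp [[3, 7], [1, 6, 10], [0, 2, 4, 5, 8, 9]] [(.mj 1 2, 88749), (.mj 3 4, 3908), (.mj 9 6, 9107), (.hz 15 143, 450413), (.hz 8 1099, 1927433), (.hz 15 159, 225206), (.hz 12 1103, 2712799), (.hz 15 191, 35628830), (.hz 14 1119, 5666487), (.hz 12 1231, 1513607), (.hz 15 447, 48886783), (.rw 8, 6), (.rw 9, 16)]))))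
(.cut 6 [(0, 1), (1, 1), (2, 1), (3, 1), (5, 1), (9, 1), (7, 1), (11, 1), (13, 1), (15, 1), (23, 1), (31, 1), (55, 1), (63, 1), (319, 1)]
(.cut 7 [(0, 1), (1, 1), (2, 1), (3, 1), (5, 1), (9, 1), (7, 1), (11, 1), (13, 1), (15, 1), (23, 1), (75, 1), (31, 1), (55, 1), (79, 2), (63, 1), (95, 2), (127, 1)]
(.cut 7 [(0, 1), (1, 1), (2, 1), (3, 1), (5, 1), (9, 1), (7, 1), (11, 1), (13, 1), (15, 1), (23, 1), (75, 1), (31, 1), (55, 1), (79, 2), (63, 1), (95, 1)]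
(.lp [[1, 6], [3, 7], [0, 2, 4, 5, 8, 9]] [(.mj 1 2, 84666), (.mj 3 4, 3528), (.mj 9 6, 7822), (.hz 12 79, 198375), (.hz 15 159, 10535856), (.hz 12 207, 590810), (.hz 15 191, 31226073), (.hz 15 447, 29822378), (.rw 8, 13), (.rw 9, 3), (.rw 10, 2)])))))
(.ask 831
(.mark 831 [6, 7, 10]
(.spn
(.con 6 7)
(.lp [[1, 6], [3, 7], [0, 2, 4, 5, 8, 9, 10]] [(.mj 9 7, 371), (.rw 8, 1)])
(.cut 7 [(0, 1), (1, 1), (2, 1), (3, 1), (5, 1), (9, 1), (7, 1), (11, 1), (13, 1), (15, 1), (23, 1), (31, 1), (55, 1), (63, 1), (319, 1)]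
(.lp [[1, 6], [3, 7], [0, 2, 4, 5, 8, 9, 10]] [(.mj 10 7, 260), (.hz 15 143, 342642), (.hz 15 159, 777457), (.hz 15 191, 1368788), (.hz 15 447, 2025822), (.hz 15 959, 1038747), (.rw 9, 1)]))
.fin))
(.lp [[1, 6], [3, 7], [0, 2, 4, 5, 8, 9]] [(.mj 9 7, 1), (.rw 7, 1)])))
.fin))
(.lp [[1, 6], [3, 7], [0, 2, 4, 5, 8]] [(.mj 8 7, 1), (.rw 6, 1)]))
.fin))
(.lp [[1, 6], [3, 7], [0, 2, 4, 5]] [(.mj 2 3, 1)])))
(.lp [[1, 6], [3, 7], [0, 2, 4, 5]] [(.mj 1 2, 36), (.mj 3 4, 1), (.hz 15 11, 2733)]))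
(.lp [[1, 6], [3, 7], [0, 2, 4, 5]] [(.mj 1 2, 181), (.mj 2 3, 97), (.hz 14 23, 5738), (.hz 14 31, 3877)]))
(.lp [[1, 6], [3, 7], [0, 2, 4, 5]] [(.mj 2 3, 1), (.hz 13 23, 21), (.hz 13 31, 23)]))
(.lp [[1, 6], [3, 7], [0, 2, 4, 5]] [(.mj 2 3, 10), (.mj 6 5, 3), (.mj 6 7, 1), (.hz 11 55, 211)])
(.lp [[1, 6], [3, 7], [0, 2, 4, 5]] [(.mj 1 2, 12), (.mj 2 3, 8), (.mj 7 5, 2), (.hz 11 55, 179)])
.fin))
(.con 6 4)
(.lp [[1, 6], [3, 7], [0, 2, 4, 5]] [(.mj 2 3, 1), (.mj 7 4, 1), (.hz 12 15, 42), (.hz 11 23, 4)])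
.fin))

theorem run60 : run P3488 (leaf3 218 625) (cutRow P3488) [] t60 s60 = true := by
  decide +kernel

theorem bad60 : Bad P3488 s60 :=
  run_sound (leaf3_sound P3488 rfl rfl) (cutRow_sound P3488) (
    fun _ h => absurd h List.not_mem_nil) t60 s60 run60

/-- the state above piece 83 of the tree -/
def s83 : St := ⟨[0, 0, 1, 3, 5, 5, 11, 21, 75], [31, 15, 7, 3, 2, 1, 0], [0, 1, 2, 3, 4, 6],
  [],
  [⟨true, 2, 3, 3, 10⟩, ⟨true, 1, 5, 2, 5⟩, ⟨true, 2, 3, 23, 50⟩, ⟨true, 1, 5, 12, 25⟩, ⟨true, 2, 11, 12, 25⟩, ⟨true, 4, 79, 11, 50⟩, ⟨true, 3, 151, 6, 25⟩],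
  [.spn 0 0 651200, .spn 1 1 302400, .spn 3 2 302400, .spn 7 3 140426, .spn 15 4 140426, .spn 31 6 140426]⟩

/-- piece 83 of the tree -/
noncomputable def t83 : WN.Tree :=
(.mark 95 [5, 7, 8]
(.spn
(.haz 7 351 3 25
(.haz 7 95 8 25
(.lp [[5], [0, 2, 4, 7], [1, 3, 6, 8]] [(.mj 4 6, 9810), (.mj 5 7, 9810), (.mj 6 5, 9810), (.rw 5, 1), (.rw 6, 3), (.hz 8 95, 1961991), (.hz 8 127, 4904978), (.hz 8 351, 6131222)])
(.haz 7 351 1 5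
(.haz 7 63 9 50
(.haz 5 159 7 50
(.haz 7 351 6 25
(.ask 37
(.mark 127 [7, 8, 9]
(.lp [[5, 9], [0, 2, 4, 7], [1, 3, 6, 8]] [(.mj 3 4, 4), (.mj 4 6, 39), (.mj 5 7, 35), (.mj 5 8, 14), (.mj 6 5, 50), (.hz 8 21, 401), (.hz 8 23, 1795), (.hz 8 31, 1962), (.hz 11 159, 8260), (.hz 12 351, 32115)]))
(.ask 39
(.mark 127 [7, 8, 9]
(.lp [[5, 9], [0, 2, 4, 7], [1, 3, 6, 8]] [(.mj 3 4, 6), (.mj 4 6, 59), (.mj 5 7, 53), (.mj 5 8, 21), (.mj 6 5, 75), (.hz 8 21, 599), (.hz 8 23, 2679), (.hz 8 31, 2826), (.hz 11 159, 12813), (.hz 12 351, 48681)]))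
(.ask 47
(.mark 127 [7, 8, 9]
(.lp [[5, 9], [0, 2, 4, 7], [1, 3, 6, 8]] [(.mj 3 4, 1), (.mj 4 6, 17), (.mj 5 7, 15), (.mj 5 8, 6), (.mj 6 5, 21), (.hz 8 21, 182), (.hz 8 23, 814), (.hz 8 31, 1021), (.hz 11 159, 3139), (.hz 10 575, 1744), (.hz 12 351, 13634)]))
(.lp [[5], [0, 2, 4, 7], [1, 3, 6, 8]] [(.mj 3 4, 72), (.mj 4 6, 65), (.mj 5 7, 15), (.mj 5 8, 3), (.mj 6 5, 19), (.hz 10 63, 11234), (.hz 12 351, 12486), (.hz 11 479, 3695)]))))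
(.lp [[5], [0, 2, 4, 7], [1, 3, 6, 8]] [(.mj 3 4, 4), (.mj 4 6, 31), (.mj 5 8, 8), (.mj 6 5, 24), (.hz 12 21, 653), (.hz 12 23, 2817), (.hz 12 31, 7663), (.hz 10 63, 6073), (.hz 12 95, 8377), (.hz 9 351, 39182), (.hz 11 479, 5948)]))
(.lp [[5], [0, 2, 4, 7], [1, 3, 6, 8]] [(.mj 4 6, 6), (.mj 5 7, 17), (.mj 5 8, 8), (.hz 11 5, 162), (.hz 11 7, 513), (.hz 11 21, 188), (.hz 11 15, 920), (.hz 11 23, 815), (.hz 11 31, 5549), (.hz 8 31, 1515), (.hz 10 63, 3523), (.hz 9 351, 84157)]))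
(.lp [[5], [0, 2, 4, 7], [1, 3, 6, 8]] [(.mj 4 6, 517), (.mj 5 8, 181), (.mj 6 5, 565), (.hz 10 21, 6716), (.hz 10 23, 28338), (.hz 10 31, 164180), (.hz 9 351, 679141)]))
(.lp [[5], [0, 2, 4, 7], [1, 3, 6, 8]] [(.mj 4 6, 46), (.mj 5 8, 16), (.mj 6 5, 45), (.hz 9 21, 5888), (.hz 9 23, 25026), (.hz 9 31, 60724), (.hz 9 95, 66978), (.hz 7 351, 12125)])))
(.lp [[5], [0, 2, 4, 7], [1, 3, 6, 8]] [(.mj 4 6, 2), (.mj 5 8, 1), (.mj 6 5, 2), (.hz 7 21, 55), (.hz 7 23, 229), (.hz 7 31, 538), (.hz 7 95, 569)]))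
(.haz 5 223 1 25
(.haz 5 23 7 50
(.lp [[5], [0, 2, 4, 7], [1, 3, 6, 8]] [(.mj 3 4, 12618), (.mj 4 6, 10778), (.mj 7 5, 12418), (.rw 5, 1), (.hz 8 23, 1834018), (.hz 8 31, 1032169), (.hz 8 151, 682810), (.hz 4 331, 170853), (.hz 8 95, 4639168), (.hz 5 335, 1040651), (.hz 8 351, 7433221)])
(.haz 4 39 13 50
(.haz 4 47 17 50
(.haz 4 37 6 25
(.haz 6 47 7 25
(.haz 6 47 17 50
(.ask 37
(.mark 63 [6, 7, 9]
(.cut 5 [(0, 1), (1, 1), (2, 1), (3, 1), (5, 1), (7, 1), (11, 1), (21, 1), (15, 1), (23, 1), (75, 1), (149, 1), (31, 1), (79, 1), (331, 1), (95, 1)]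
(.lp [[5, 9], [0, 2, 4, 7], [1, 3, 6, 8]] [(.mj 3 4, 546460), (.mj 4 6, 373422), (.mj 7 5, 22451), (.hz 11 37, 27295917), (.hz 11 549, 5499531), (.hz 13 47, 11426362), (.hz 9 551, 48951213), (.hz 4 331, 2995743), (.hz 3 181, 6109701), (.hz 13 559, 75471352), (.rw 7, 49)])))
(.haz 4 39 3 10
(.ask 39
(.mark 63 [6, 7, 9]
(.cut 5 [(0, 1), (1, 1), (2, 1), (3, 1), (5, 1), (7, 1), (11, 1), (21, 1), (15, 1), (23, 1), (75, 1), (31, 1), (79, 1), (331, 1), (95, 1)]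
(.lp [[5, 9], [0, 2, 4, 7], [1, 3, 6, 8]] [(.mj 3 4, 40754), (.mj 4 6, 27990), (.mj 7 5, 1741), (.hz 14 39, 6382984), (.hz 13 47, 785557), (.hz 14 551, 12325519), (.hz 4 331, 292177), (.hz 13 559, 5522997), (.rw 7, 4)])))
(.haz 4 47 2 5
(.haz 7 63 11 50
(.ask 47
(.haz 5 159 1 10
(.mark 111 [4, 8, 9]
(.cut 5 [(0, 1), (1, 1), (2, 1), (3, 1), (5, 1), (7, 1), (11, 1), (21, 1), (15, 1), (23, 1), (75, 1), (149, 1), (31, 1), (79, 1), (151, 1), (331, 1), (95, 1), (159, 1), (335, 1)]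
(.cut 5 [(0, 1), (1, 1), (2, 1), (3, 1), (5, 1), (7, 1), (11, 1), (21, 1), (15, 1), (23, 1), (75, 1), (149, 1), (31, 1), (79, 1), (151, 1), (331, 1), (95, 1), (159, 2), (335, 1)]
(.lp [[5, 9], [0, 2, 4, 7], [1, 3, 6, 8]] [(.mj 3 4, 97538), (.mj 4 6, 70224), (.mj 7 5, 7441), (.hz 13 47, 7096303), (.hz 15 559, 32612384), (.hz 13 559, 6639626), (.hz 13 575, 33133), (.hz 16 575, 10709398), (.hz 17 223, 35573088), (.rw 7, 1), (.rw 8, 5)]))))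
(.mark 127 [7, 8, 9]
(.cut 5 [(0, 1), (1, 1), (2, 1), (3, 1), (5, 1), (7, 1), (11, 1), (21, 1), (15, 1), (23, 1), (75, 1), (149, 1), (31, 1), (79, 1), (151, 1), (331, 1), (95, 1), (159, 1)]
(.lp [[5, 9], [0, 2, 4, 7], [1, 3, 6, 8]] [(.mj 3 4, 130477), (.mj 4 6, 88304), (.hz 17 15, 7703169), (.hz 15 47, 37635320), (.hz 13 47, 5703492), (.hz 16 63, 9692575), (.hz 13 559, 10908473), (.hz 16 575, 3134934), (.rw 7, 4)]))))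
(.lp [[5], [0, 2, 4, 7], [1, 3, 6, 8]] [(.mj 3 4, 64), (.mj 4 6, 43), (.mj 7 5, 1), (.hz 13 47, 1063), (.hz 16 63, 6599)]))
(.lp [[5], [0, 2, 4, 7], [1, 3, 6, 8]] [(.mj 3 4, 6), (.mj 4 6, 9), (.mj 7 5, 2), (.hz 16 31, 864), (.hz 13 47, 1435), (.hz 13 63, 84)]))
(.lp [[5], [0, 2, 4, 7], [1, 3, 6, 8]] [(.mj 3 4, 7), (.mj 4 6, 10), (.mj 7 5, 3), (.hz 11 37, 186), (.hz 15 15, 7714), (.hz 14 39, 2176), (.hz 10 47, 525), (.hz 13 47, 1321), (.hz 13 63, 540), (.hz 7 223, 48)])))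
(.lp [[5], [0, 2, 4, 7], [1, 3, 6, 8]] [(.mj 4 6, 4), (.mj 7 5, 1), (.hz 14 7, 2288), (.hz 8 7, 150), (.hz 14 37, 168), (.hz 9 39, 252), (.hz 3 149, 103), (.hz 10 47, 84), (.hz 13 47, 555), (.hz 13 63, 143)])))
(.cut 5 [(0, 1), (1, 1), (2, 1), (3, 1), (5, 1), (7, 1), (11, 1), (21, 1), (15, 1), (23, 1), (75, 1), (31, 1), (79, 1), (331, 1), (95, 1)]
(.lp [[5], [0, 2, 4, 7], [1, 3, 6, 8]] [(.mj 3 4, 6808), (.mj 7 5, 1753), (.hz 11 37, 371313), (.hz 13 15, 723894), (.hz 9 39, 52530), (.hz 10 47, 628362), (.hz 12 47, 751786), (.hz 4 331, 531691), (.hz 12 63, 678396), (.hz 7 223, 102116), (.hz 10 367, 110316), (.rw 7, 1)])))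
(.lp [[5], [0, 2, 4, 7], [1, 3, 6, 8]] [(.mj 3 4, 1), (.hz 8 7, 44), (.hz 12 11, 25), (.hz 11 37, 40), (.hz 12 15, 122), (.hz 10 47, 72), (.hz 7 223, 283)]))
(.lp [[5], [0, 2, 4, 7], [1, 3, 6, 8]] [(.mj 4 6, 11), (.mj 7 5, 10), (.mj 7 8, 13), (.hz 11 5, 8134), (.hz 8 5, 1176), (.hz 8 7, 1476), (.hz 9 39, 5769)]))
(.cut 5 [(0, 1), (1, 1), (2, 1), (3, 1), (5, 1), (7, 1), (11, 1), (21, 1), (15, 1), (23, 1), (75, 1), (31, 1), (331, 1)]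
(.lp [[5], [0, 2, 4, 7], [1, 3, 6, 8]] [(.mj 4 6, 3364), (.hz 10 5, 25914), (.hz 8 5, 25914), (.hz 10 7, 167841), (.hz 8 7, 413649), (.hz 10 15, 381740), (.hz 9 39, 64), (.hz 9 47, 302917), (.hz 3 181, 83679), (.rw 7, 1)])))
(.lp [[5], [0, 2, 4, 7], [1, 3, 6, 8]] [(.mj 4 6, 2), (.mj 7 8, 1), (.hz 8 5, 16), (.hz 9 7, 495), (.hz 8 7, 521), (.hz 3 53, 68), (.hz 3 149, 68)])))
(.cut 5 [(0, 1), (1, 1), (2, 1), (3, 1), (5, 1), (7, 1), (11, 1), (21, 1), (15, 1), (23, 1), (75, 1), (31, 1), (331, 1)]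
(.lp [[5], [0, 2, 4, 7], [1, 3, 6, 8]] [(.mj 3 4, 2826), (.mj 4 6, 2418), (.hz 7 5, 43547), (.hz 7 7, 132455), (.hz 7 15, 225068), (.hz 7 79, 54340), (.hz 4 331, 258388), (.hz 7 95, 226592), (.rw 7, 2)])))
(.haz 5 159 1 25
(.haz 7 127 7 50
(.haz 5 31 2 25
(.haz 5 31 3 25
(.lp [[5], [0, 2, 4, 7], [1, 3, 6, 8]] [(.mj 3 4, 32008), (.mj 4 6, 36373), (.mj 8 5, 36373), (.mj 8 7, 4365), (.rw 4, 6), (.rw 5, 2), (.hz 10 31, 11345381), (.hz 10 95, 32088018), (.hz 10 159, 32153489), (.hz 8 127, 16913317), (.hz 10 351, 14549090)])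
(.maj 5 7
(.cut 5 [(0, 1), (1, 1), (2, 1), (3, 1), (5, 1), (7, 1), (11, 1), (21, 1), (15, 1), (23, 1), (75, 1), (31, 1), (79, 1), (331, 1), (95, 1)]
(.lp [[5], [0, 2, 4, 7], [1, 3, 6, 8]] [(.mj 3 4, 6308), (.mj 4 6, 17741), (.mj 8 7, 7988), (.hz 10 5, 307042), (.hz 10 7, 962995), (.hz 10 15, 1708396), (.hz 10 31, 2667729), (.hz 9 159, 8256524), (.hz 8 127, 9535367), (.hz 9 351, 7616278), (.hz 8 383, 691647), (.rw 7, 4)]))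
(.cut 5 [(0, 1), (1, 1), (2, 1), (3, 1), (5, 1), (7, 1), (11, 1), (21, 1), (15, 1), (23, 1), (75, 1), (31, 1), (331, 1)]
(.cut 7 [(0, 1), (1, 1), (2, 1), (3, 1), (5, 1), (7, 1), (11, 1), (21, 1), (15, 1), (23, 1), (75, 1), (31, 1), (79, 1), (331, 1), (95, 1), (335, 1)]
(.lp [[5], [0, 2, 4, 7], [1, 3, 6, 8]] [(.mj 3 4, 10492), (.mj 4 6, 30048), (.mj 8 7, 14288), (.hz 10 5, 524593), (.hz 10 7, 1645315), (.hz 10 15, 2918862), (.hz 10 23, 81290), (.hz 10 31, 4601520), (.hz 9 95, 6218202), (.hz 9 159, 12417925), (.hz 8 127, 12229843), (.hz 9 351, 8656219), (.rw 7, 4), (.rw 8, 3)])))))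
(.cut 5 [(0, 1), (1, 1), (2, 1), (3, 1), (5, 1), (7, 1), (11, 1), (21, 1), (15, 1), (23, 1), (75, 1), (31, 1), (331, 1)]
(.lp [[5], [0, 2, 4, 7], [1, 3, 6, 8]] [(.mj 3 4, 1107), (.mj 4 6, 3359), (.mj 8 7, 1535), (.hz 9 5, 54396), (.hz 9 7, 167918), (.hz 9 15, 291312), (.hz 9 31, 437981), (.hz 4 331, 43684), (.hz 7 159, 979068), (.rw 7, 1)])))
(.lp [[5], [0, 2, 4, 7], [1, 3, 6, 8]] [(.mj 4 6, 26), (.mj 8 5, 17), (.hz 8 21, 225), (.hz 8 23, 937), (.hz 8 31, 2012), (.hz 7 159, 8754), (.hz 8 127, 19048), (.hz 7 223, 61517)]))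
(.lp [[5], [0, 2, 4, 7], [1, 3, 6, 8]] [(.mj 3 4, 35), (.mj 4 6, 46), (.mj 8 7, 13), (.hz 7 5, 865), (.hz 7 7, 2630), (.hz 7 15, 4468)]))
.fin))

theorem run83 : run P3488 (leaf3 218 625) (cutRow P3488) [] t83 s83 = true := by
  decide +kernel

theorem bad83 : Bad P3488 s83 :=
  run_sound (leaf3_sound P3488 rfl rfl) (cutRow_sound P3488) (
    fun _ h => absurd h List.not_mem_nil) t83 s83 run83

/-- the state above piece 246 of the tree -/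
def s246 : St := ⟨[0, 0, 1, 3, 5, 15, 31, 31, 63, 127], [319, 127, 95, 63, 47, 31, 23, 21, 15, 11, 7, 5, 3, 2, 1, 0], [0, 1, 2, 3, 4, 5, 6, 8],
  [(4, 5)],
  [⟨true, 2, 3, 3, 10⟩, ⟨true, 1, 5, 2, 5⟩, ⟨true, 2, 3, 23, 50⟩, ⟨true, 1, 5, 12, 25⟩, ⟨true, 1, 21, 27, 50⟩, ⟨true, 4, 15, 9, 40⟩, ⟨true, 3, 23, 11, 20⟩, ⟨true, 4, 47, 7, 20⟩, ⟨true, 4, 47, 17, 40⟩, ⟨true, 4, 47, 9, 20⟩, ⟨true, 4, 47, 19, 40⟩, ⟨true, 5, 31, 3, 10⟩, ⟨true, 4, 47, 3, 5⟩, ⟨true, 4, 47, 5, 8⟩, ⟨true, 6, 159, 1, 10⟩, ⟨true, 6, 319, 1, 8⟩, ⟨true, 6, 319, 1, 5⟩, ⟨true, 5, 159, 17, 40⟩, ⟨true, 7, 895, 1, 20⟩, ⟨true, 5, 159, 19, 40⟩, ⟨true, 6, 191, 7, 20⟩, ⟨true, 5, 223, 13, 20⟩, ⟨false, 7, 127, 1, 8⟩, ⟨true, 7, 895, 2, 25⟩],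
  [.spn 0 0 651200, .spn 1 1 302400, .spn 3 2 302400, .spn 7 3 302400, .spn 15 4 302400, .spn 31 5 140426, .spn 63 6 140426, .spn 127 8 140426]⟩

/-- piece 246 of the tree -/
noncomputable def t246 : WN.Tree :=
(.haz 8 639 3 10
(.ask 383
(.mark 383 [7, 9, 10]
(.spn
(.haz 9 1407 9 50
(.lp [[7], [0, 2, 4, 6, 9], [1, 3, 5, 8, 10]] [(.mj 0 1, 174), (.mj 7 9, 37), (.mj 7 10, 24), (.hz 22 31, 19457), (.hz 22 63, 152677), (.hz 22 95, 22237), (.hz 23 895, 13914), (.hz 25 1407, 35024)])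
(.lp [[7], [0, 2, 4, 6, 9], [1, 3, 5, 8, 10]] [(.mj 0 1, 285), (.mj 7 10, 1), (.hz 22 31, 3962), (.hz 22 95, 4528), (.hz 22 127, 2509), (.hz 25 127, 646), (.hz 25 383, 490)]))
(.haz 6 447 29 50
(.ask 639
(.mark 895 [7, 10, 11]
(.spn
(.haz 10 895 8 25
(.lp [[7], [1, 3, 5, 8, 10], [0, 2, 4, 6, 9, 11]] [(.mj 7 10, 2851), (.mj 8 9, 2717), (.mj 9 7, 2851), (.rw 9, 1), (.hz 26 895, 2297723), (.hz 24 2687, 640111), (.hz 26 1023, 2637078), (.hz 23 2943, 4270877), (.hz 26 2943, 5915608)])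
(.lp [[7], [1, 3, 5, 8, 10], [0, 2, 4, 6, 9, 11]] [(.mj 0 1, 13272), (.mj 8 9, 3259), (.mj 9 7, 1764), (.rw 9, 2), (.hz 26 383, 2073735), (.hz 26 895, 1430302), (.hz 23 1919, 1631338), (.hz 23 2943, 7377327)]))
(.haz 10 2943 13 50
(.haz 8 2687 9 25
(.maj 7 11
(.cut 7 [(0, 1), (1, 1), (2, 1), (3, 1), (5, 1), (7, 1), (11, 1), (21, 1), (15, 1), (23, 1), (31, 1), (47, 1), (63, 1), (95, 1), (127, 1), (319, 1), (383, 1), (639, 1), (895, 1)]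
(.cut 7 [(0, 1), (1, 1), (2, 1), (3, 1), (5, 1), (7, 1), (11, 1), (21, 1), (15, 1), (23, 1), (31, 1), (47, 1), (63, 1), (95, 1), (127, 1), (319, 1), (383, 1), (639, 1), (895, 1), (1407, 1)]
(.lp [[7], [1, 3, 5, 8, 10], [0, 2, 4, 6, 9, 11]] [(.mj 0 1, 5475542), (.mj 9 10, 2966), (.mj 10 7, 51991), (.hz 19 159, 12796037), (.hz 21 223, 18701900), (.hz 27 2687, 25327237), (.hz 23 2943, 390722328), (.rw 10, 84), (.rw 11, 4)])))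
(.ask 1407
(.mark 1919 [7, 11, 12]
(.cut 7 [(0, 1), (1, 1), (2, 1), (3, 1), (5, 1), (7, 1), (11, 1), (21, 1), (15, 1), (23, 1), (31, 1), (47, 1), (63, 1), (95, 1), (127, 1), (319, 1), (383, 1), (639, 1), (895, 1)]
(.lp [[7], [0, 2, 4, 6, 9, 11], [1, 3, 5, 8, 10, 12]] [(.mj 0 1, 55965), (.mj 8 9, 37), (.mj 9 10, 80), (.mj 10 11, 241), (.mj 11 7, 554), (.hz 19 159, 158262), (.hz 21 223, 231306), (.hz 23 895, 291862), (.hz 27 2815, 528799), (.hz 23 2943, 222448), (.hz 23 6015, 2369330), (.rw 10, 1)])))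
(.cut 7 [(0, 1), (1, 1), (2, 1), (3, 1), (5, 1), (7, 1), (11, 1), (21, 1), (15, 1), (23, 1), (31, 1), (47, 1), (63, 1), (95, 1), (127, 1), (319, 1), (383, 1), (639, 1), (895, 1)]
(.lp [[7], [1, 3, 5, 8, 10], [0, 2, 4, 6, 9, 11]] [(.mj 0 1, 74377), (.mj 8 9, 322), (.mj 10 11, 28), (.mj 11 7, 714), (.hz 19 159, 210329), (.hz 21 223, 307404), (.hz 23 895, 579812), (.hz 23 1919, 1529830), (.rw 10, 1)]))))
(.lp [[7], [1, 3, 5, 8, 10], [0, 2, 4, 6, 9, 11]] [(.mj 8 9, 1), (.mj 10 7, 2), (.mj 10 11, 2), (.hz 22 127, 3801), (.hz 27 127, 2956), (.hz 27 639, 2017), (.hz 23 895, 4422), (.hz 24 2687, 11582), (.hz 23 1919, 1740), (.hz 23 2943, 23109)]))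
(.lp [[7], [1, 3, 5, 8, 10], [0, 2, 4, 6, 9, 11]] [(.mj 8 9, 1), (.mj 10 7, 5), (.mj 10 11, 6), (.hz 26 383, 2683), (.hz 26 895, 4944)]))
(.haz 10 895 11 50
(.cut 7 [(0, 1), (1, 1), (2, 1), (3, 1), (5, 1), (7, 1), (11, 1), (21, 1), (15, 1), (23, 1), (31, 1), (47, 1), (63, 1), (95, 1), (127, 1), (319, 1), (383, 1)]
(.lp [[7], [1, 3, 5, 8, 10], [0, 2, 4, 6, 9, 11]] [(.mj 8 9, 626), (.mj 11 7, 413), (.mj 11 10, 413), (.hz 26 895, 230630), (.hz 26 1023, 2035495), (.hz 23 2943, 441573), (.rw 10, 1)]))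
(.lp [[7], [1, 3, 5, 8, 10], [0, 2, 4, 6, 9, 11]] [(.mj 0 1, 10), (.mj 8 9, 3), (.mj 11 7, 2), (.hz 26 383, 1155), (.hz 23 895, 8911), (.hz 26 895, 619), (.hz 23 2943, 7584)]))
.fin))
(.haz 7 1407 1 25
(.haz 9 1407 1 5
(.haz 9 1407 3 10
(.haz 9 1407 17 50
(.ask 895
(.mark 895 [7, 10, 11]
(.spn
(.haz 11 1919 9 25
(.ask 1407
(.mark 1919 [7, 11, 12]
(.lp [[7], [0, 2, 4, 6, 9, 11], [1, 3, 5, 8, 10, 12]] [(.mj 0 1, 373), (.mj 7 10, 6), (.mj 7 11, 14), (.mj 9 7, 20), (.hz 22 127, 7814), (.hz 23 1919, 29422), (.hz 30 1919, 39438), (.hz 26 5503, 49635), (.hz 29 5503, 7124), (.hz 30 6015, 45757)]))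
(.lp [[7], [1, 3, 5, 8, 10], [0, 2, 4, 6, 9, 11]] [(.mj 0 1, 4581), (.mj 7 10, 75), (.mj 7 11, 168), (.mj 9 7, 239), (.hz 22 127, 96142), (.hz 23 1919, 394079), (.hz 30 1919, 520233)]))
(.lp [[7], [1, 3, 5, 8, 10], [0, 2, 4, 6, 9, 11]] [(.mj 0 1, 154), (.mj 7 10, 4), (.mj 9 7, 6), (.hz 30 895, 8076), (.hz 23 1919, 14044)]))
(.cut 7 [(0, 1), (1, 1), (2, 1), (3, 1), (5, 1), (7, 1), (11, 1), (21, 1), (15, 1), (23, 1), (31, 1), (47, 1), (63, 1), (95, 1), (127, 1), (319, 1), (383, 1), (639, 1), (895, 1)]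
(.lp [[7], [1, 3, 5, 8, 10], [0, 2, 4, 6, 9, 11]] [(.mj 0 1, 115491), (.mj 9 10, 26), (.mj 10 7, 819), (.hz 22 95, 291444), (.hz 19 159, 345920), (.hz 21 223, 348644), (.hz 23 895, 244079), (.hz 23 2943, 1229161), (.rw 10, 1)]))
(.maj 7 10
(.cut 7 [(0, 1), (1, 1), (2, 1), (3, 1), (5, 1), (7, 1), (11, 1), (21, 1), (15, 1), (23, 1), (31, 1), (47, 1), (63, 1), (95, 1), (127, 1), (319, 1), (383, 1), (639, 1), (895, 1)]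
(.lp [[7], [1, 3, 5, 8, 10], [0, 2, 4, 6, 9, 11]] [(.mj 0 1, 75998), (.mj 8 9, 1026), (.mj 11 7, 934), (.hz 19 159, 214914), (.hz 21 223, 314105), (.hz 26 1407, 1873560), (.hz 29 1407, 284862), (.hz 23 1919, 7121556), (.rw 10, 2)]))
(.lp [[7], [1, 3, 5, 8, 10], [0, 2, 4, 6, 9, 11]] [(.mj 0 1, 2943759), (.mj 10 7, 25764), (.rw 9, 1), (.hz 19 159, 9778198), (.hz 21 223, 10267108), (.hz 23 895, 83316623), (.hz 26 1407, 25480032), (.hz 23 1919, 11931353), (.hz 23 2943, 38646060)]))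
.fin))
(.spn
(.lp [[7], [0, 2, 4, 6, 9], [1, 3, 5, 8, 10]] [(.mj 7 10, 1), (.mj 9 7, 1)])
(.cut 7 [(0, 1), (1, 1), (2, 1), (3, 1), (5, 1), (7, 1), (11, 1), (21, 1), (15, 1), (23, 1), (31, 1), (47, 1), (63, 1), (95, 1), (127, 1), (319, 1), (383, 1), (639, 1), (895, 1)]
(.lp [[7], [0, 2, 4, 6, 9], [1, 3, 5, 8, 10]] [(.mj 9 10, 12522), (.mj 10 7, 4776), (.rw 10, 13)]))
.fin
.fin))
(.lp [[7], [0, 2, 4, 6, 9], [1, 3, 5, 8, 10]] [(.mj 0 1, 173), (.mj 9 7, 25), (.mj 9 10, 37), (.hz 22 127, 40920), (.hz 29 383, 27158), (.hz 26 1407, 149541)]))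
(.lp [[7], [0, 2, 4, 6, 9], [1, 3, 5, 8, 10]] [(.mj 0 1, 8), (.mj 9 7, 2), (.mj 9 10, 3), (.hz 22 127, 4124), (.hz 28 383, 11533), (.hz 26 1407, 12459)]))
(.lp [[7], [0, 2, 4, 6, 9], [1, 3, 5, 8, 10]] [(.mj 9 7, 4), (.mj 9 10, 5), (.hz 27 127, 9976), (.hz 27 383, 25908)]))
(.lp [[7], [0, 2, 4, 6, 9], [1, 3, 5, 8, 10]] [(.mj 0 1, 3), (.hz 26 31, 12), (.hz 26 95, 12), (.hz 23 895, 22)])))
(.lp [[7], [0, 2, 4, 6, 9], [1, 3, 5, 8, 10]] [(.mj 8 9, 1), (.mj 9 7, 1), (.hz 22 63, 2694), (.hz 20 191, 1244), (.hz 25 319, 1062), (.hz 20 447, 845)]))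
(.ask 639
(.mark 895 [7, 10, 11]
(.cut 7 [(0, 1), (1, 1), (2, 1), (3, 1), (5, 1), (7, 1), (11, 1), (21, 1), (15, 1), (23, 1), (31, 1), (47, 1), (63, 1), (95, 1), (127, 1)]
(.cut 7 [(0, 1), (1, 1), (2, 1), (3, 1), (5, 1), (7, 1), (11, 1), (21, 1), (15, 1), (23, 1), (31, 1), (47, 1), (63, 1), (95, 1), (127, 1), (319, 1), (383, 1), (639, 1), (895, 1)]
(.lp [[7], [1, 3, 5, 8, 10], [0, 2, 4, 6, 9, 11]] [(.mj 0 1, 10612229), (.mj 10 7, 59824), (.rw 8, 14), (.hz 22 95, 26780186), (.hz 19 159, 31785828), (.hz 21 223, 32036110), (.hz 24 639, 56491514), (.hz 23 895, 42984620), (.hz 24 2687, 16591874), (.hz 24 2815, 102939435), (.hz 23 2943, 82959368), (.rw 9, 35), (.rw 10, 51)]))))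
(.lp [[7], [0, 2, 4, 6, 9], [1, 3, 5, 8, 10]] [(.mj 0 1, 843), (.mj 10 9, 1), (.hz 22 31, 7372), (.hz 22 95, 11858), (.hz 19 159, 1265), (.hz 22 127, 6324), (.hz 23 895, 5838)]))
.fin))
(.spn
(.lp [[7], [1, 3, 5, 8], [0, 2, 4, 6, 9]] [(.mj 6 7, 1), (.mj 7 9, 2), (.mj 8 7, 2)])
(.haz 6 447 29 50
(.ask 639
(.mark 639 [7, 8, 10]
(.ask 895
(.mark 895 [7, 10, 11]
(.spn
(.lp [[7], [1, 3, 5, 8, 11], [0, 2, 4, 6, 9, 10]] [(.mj 7 11, 267), (.mj 8 9, 1561), (.mj 9 7, 865), (.rw 9, 1)])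
(.lp [[7], [1, 3, 5, 8, 11], [0, 2, 4, 6, 9, 10]] [(.mj 8 9, 6), (.mj 10 7, 4), (.mj 10 11, 1), (.hz 23 895, 15251), (.hz 23 2943, 7051)])
(.lp [[7], [1, 3, 5, 8, 11], [0, 2, 4, 6, 9, 10]] [(.mj 8 9, 50), (.mj 11 7, 27), (.hz 23 895, 150413)])
.fin))
(.lp [[7], [1, 3, 5, 8], [0, 2, 4, 6, 9, 10]] [(.mj 8 9, 2511), (.rw 8, 2)])))
(.ask 895
(.maj 7 10
(.ask 895
(.mark 895 [7, 10, 11]
(.spn
(.haz 10 2943 7 25
(.lp [[7], [1, 3, 5, 8, 11], [0, 2, 4, 6, 9, 10]] [(.mj 7 10, 23), (.mj 8 9, 25), (.mj 9 7, 33), (.mj 10 11, 12), (.hz 23 2943, 86047), (.hz 26 2943, 34721)])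
(.lp [[7], [1, 3, 5, 8, 11], [0, 2, 4, 6, 9, 10]] [(.mj 8 9, 3), (.mj 9 7, 3), (.mj 10 11, 2), (.hz 26 895, 4416), (.hz 23 2943, 15200)]))
(.con 10 7)
(.con 11 10)
.fin))
(.lp [[7], [1, 3, 5, 8], [0, 2, 4, 6, 9, 10]] [(.mj 7 10, 1), (.mj 9 7, 1)]))
(.lp [[7], [1, 3, 5, 8], [0, 2, 4, 6, 9, 10]] [(.mj 8 9, 50), (.mj 10 7, 27), (.hz 23 895, 150413)]))
(.lp [[7], [1, 3, 5, 8], [0, 2, 4, 6, 9]] [(.mj 9 7, 1)])))
(.lp [[7], [1, 3, 5, 8], [0, 2, 4, 6, 9]] [(.mj 8 9, 277), (.rw 8, 1), (.hz 22 63, 3981837), (.hz 20 191, 1837771), (.hz 25 319, 1568967), (.hz 20 447, 1249232)]))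
.fin
.fin))
(.lp [[7], [1, 3, 5, 8], [0, 2, 4, 6, 9]] [(.mj 8 9, 1), (.hz 22 31, 282), (.hz 22 63, 1119), (.hz 22 95, 323), (.hz 22 127, 1145), (.hz 24 127, 1811)]))

theorem run246 : run P3488 (leaf3 218 625) (cutRow P3488) [] t246 s246 = true := by
  decide +kernel

theorem bad246 : Bad P3488 s246 :=
  run_sound (leaf3_sound P3488 rfl rfl) (cutRow_sound P3488) (
    fun _ h => absurd h List.not_mem_nil) t246 s246 run246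

end Pool.Agent.WN.Data
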