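import Pool.Agent.WN.CutRow
import Pool.Agent.WN.LeafRow
import Pool.Agent.Helper99.WN.ParDef
import Pool.Agent.WN.Data.D8

/-!
# The search tree, part 13
-/

set_option autoImplicit false

namespace Pool.Agent.WN.Data

open Pool.Agent.W3 Pool.Agent.WN Pool.Agent.Helper99.WN

/-- the state above piece 207 of the tree -/
def s207 : St := ⟨[0, 0, 1, 3, 5, 15, 23, 31, 63, 191, 319], [191, 159, 63, 47, 31, 23, 21, 15, 11, 7, 5, 3, 2, 1, 0], [0, 1, 2, 3, 4, 5, 7, 8],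
  [(8, 6), (5, 6), (4, 5)],
  [⟨true, 2, 3, 3, 10⟩, ⟨true, 1, 5, 2, 5⟩, ⟨true, 2, 3, 23, 50⟩, ⟨true, 1, 5, 12, 25⟩, ⟨true, 1, 21, 27, 50⟩, ⟨true, 4, 15, 9, 40⟩, ⟨true, 3, 23, 11, 20⟩, ⟨true, 4, 47, 7, 20⟩, ⟨true, 4, 47, 17, 40⟩, ⟨true, 4, 47, 9, 20⟩, ⟨true, 4, 47, 19, 40⟩, ⟨true, 5, 95, 1, 5⟩, ⟨true, 5, 95, 3, 10⟩, ⟨true, 5, 31, 3, 10⟩, ⟨true, 7, 319, 3, 10⟩, ⟨true, 7, 319, 2, 5⟩, ⟨true, 6, 63, 3, 50⟩, ⟨true, 7, 319, 11, 25⟩, ⟨true, 8, 255, 9, 25⟩],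
  [.spn 0 0 651200, .spn 1 1 302400, .spn 3 2 302400, .spn 7 3 302400, .spn 15 4 302400, .spn 31 5 140426, .spn 63 7 140426, .spn 191 8 140426]⟩

/-- piece 207 of the tree -/
noncomputable def t207 : WN.Tree :=
(.mark 447 [6, 9, 10]
(.spn
(.lp [[6], [0, 2, 4, 7, 9], [1, 3, 5, 8, 10]] [(.mj 3 4, 241), (.mj 6 9, 18), (.mj 6 10, 17), (.mj 7 8, 17), (.hz 16 703, 3984), (.hz 16 1343, 4754)])
(.maj 6 10
(.cut 6 [(0, 1), (1, 1), (2, 1), (3, 1), (5, 1), (7, 1), (11, 1), (21, 1), (15, 1), (23, 1), (31, 1), (47, 1), (63, 1), (159, 1), (191, 1), (319, 1), (447, 1)]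
(.lp [[6], [0, 2, 4, 7, 9], [1, 3, 5, 8, 10]] [(.mj 3 4, 115302), (.mj 7 8, 3043), (.hz 16 1343, 4558704), (.hz 17 1343, 1268277), (.hz 16 1471, 15173501), (.rw 9, 22)]))
(.ask 703
(.mark 959 [6, 10, 11]
(.spn
(.con 6 10)
(.maj 6 11
(.cut 6 [(0, 1), (1, 1), (2, 1), (3, 1), (5, 1), (7, 1), (11, 1), (21, 1), (15, 1), (23, 1), (31, 1), (47, 1), (63, 1), (159, 1), (191, 1), (319, 1), (447, 1), (703, 1), (959, 1)]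
(.lp [[6], [1, 3, 5, 8, 10], [0, 2, 4, 7, 9, 11]] [(.mj 3 4, 10465), (.mj 7 8, 174), (.mj 9 10, 542), (.hz 17 1343, 2107), (.hz 16 2751, 860842), (.hz 16 3007, 1709520), (.rw 10, 2)]))
(.ask 1343
(.mark 1983 [6, 11, 12]
(.cut 6 [(0, 1), (1, 1), (2, 1), (3, 1), (5, 1), (7, 1), (11, 1), (21, 1), (15, 1), (23, 1), (31, 1), (47, 1), (63, 1), (159, 1), (191, 1), (319, 1), (447, 1), (703, 1), (1343, 1), (959, 1), (1471, 1), (2751, 1)]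
(.cut 6 [(0, 1), (1, 1), (2, 1), (3, 1), (5, 1), (7, 1), (11, 1), (21, 1), (15, 1), (23, 1), (31, 1), (47, 1), (63, 1), (159, 1), (191, 1), (319, 1), (447, 1), (703, 1), (1343, 1), (959, 1), (1471, 1)]
(.lp [[6], [0, 2, 4, 7, 9, 11], [1, 3, 5, 8, 10, 12]] [(.mj 9 10, 8401), (.mj 10 11, 15442), (.mj 11 6, 48291), (.hz 17 5439, 329431), (.hz 18 2815, 35353959), (.hz 17 5503, 20558466), (.hz 16 5567, 15496367), (.hz 16 6079, 106239443), (.rw 10, 4), (.rw 11, 160)]))))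
(.ask 1471
(.mark 1983 [6, 11, 12]
(.cut 6 [(0, 1), (1, 1), (2, 1), (3, 1), (5, 1), (7, 1), (11, 1), (21, 1), (15, 1), (23, 1), (31, 1), (47, 1), (63, 1), (159, 1), (191, 1), (319, 1), (447, 1), (703, 1), (1343, 1), (959, 1)]
(.cut 6 [(0, 1), (1, 1), (2, 1), (3, 1), (5, 1), (7, 1), (11, 1), (21, 1), (15, 1), (23, 1), (31, 1), (47, 1), (63, 1), (159, 1), (191, 1), (319, 1), (447, 1), (703, 1), (1343, 1), (959, 1), (1471, 1), (2751, 1), (3007, 1)]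
(.cut 6 [(0, 1), (1, 1), (2, 1), (3, 1), (5, 1), (7, 1), (11, 1), (21, 1), (15, 1), (23, 1), (31, 1), (47, 1), (63, 1), (159, 1), (191, 1), (319, 1), (447, 1), (1343, 1), (1471, 1)]
(.lp [[6], [0, 2, 4, 7, 9, 11], [1, 3, 5, 8, 10, 12]] [(.mj 9 10, 13641), (.mj 10 11, 30957), (.mj 11 6, 114497), (.hz 18 2815, 96686349), (.hz 16 5567, 33888694), (.hz 16 6079, 244271208), (.rw 10, 127), (.rw 11, 9), (.rw 12, 252)])))))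
(.ask 1983
(.mark 1983 [6, 11, 12]
(.cut 6 [(0, 1), (1, 1), (2, 1), (3, 1), (5, 1), (7, 1), (11, 1), (21, 1), (15, 1), (23, 1), (31, 1), (47, 1), (63, 1), (159, 1), (191, 1), (319, 1), (447, 1), (703, 1), (2751, 1)]
(.cut 6 [(0, 1), (1, 1), (2, 1), (3, 1), (5, 1), (7, 1), (11, 1), (21, 1), (15, 1), (23, 1), (31, 1), (47, 1), (63, 1), (159, 1), (191, 1), (319, 1), (447, 1), (703, 1), (1343, 1), (959, 1), (2751, 2), (3007, 1)]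
(.cut 6 [(0, 1), (1, 1), (2, 1), (3, 1), (5, 1), (7, 1), (11, 1), (21, 1), (15, 1), (23, 1), (31, 1), (47, 1), (63, 1), (159, 1), (191, 1), (319, 1), (447, 1)]
(.cut 6 [(0, 1), (1, 1), (2, 1), (3, 1), (5, 1), (7, 1), (11, 1), (21, 1), (15, 1), (23, 1), (31, 1), (47, 1), (63, 1), (159, 1), (191, 1), (319, 1), (447, 1), (703, 1), (1343, 1), (1471, 1)]
(.cut 6 [(0, 1), (1, 1), (2, 1), (3, 1), (5, 1), (7, 1), (11, 1), (21, 1), (15, 1), (23, 1), (31, 1), (47, 1), (63, 1), (159, 1), (191, 1), (319, 1), (447, 1), (703, 1), (959, 1)]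
(.lp [[6], [0, 2, 4, 7, 9, 11], [1, 3, 5, 8, 10, 12]] [(.mj 8 9, 5330), (.mj 10 11, 1118), (.mj 11 6, 18756), (.hz 16 1343, 3912409), (.hz 16 6079, 27685227), (.rw 10, 2), (.rw 11, 1), (.rw 12, 20), (.rw 13, 36), (.rw 14, 4)])))))))
(.lp [[6], [1, 3, 5, 8, 10], [0, 2, 4, 7, 9, 11]] [(.mj 10 11, 9), (.mj 11 6, 5), (.hz 16 2751, 12247), (.hz 16 3007, 40553)])))))
(.cut 10 [(0, 1), (1, 1), (2, 1), (3, 1), (5, 1), (7, 1), (11, 1), (21, 1), (15, 1), (23, 1), (31, 1), (47, 1), (63, 1), (159, 1), (191, 1), (319, 1), (447, 1), (703, 1), (2751, 1)]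
(.cut 6 [(0, 1), (1, 1), (2, 1), (3, 1), (5, 1), (7, 1), (11, 1), (21, 1), (15, 1), (23, 1), (31, 1), (47, 1), (63, 1), (159, 1), (191, 1), (319, 1), (447, 1), (703, 1), (959, 1)]
(.lp [[6], [1, 3, 5, 8, 10], [0, 2, 4, 7, 9, 11]] [(.mj 3 4, 64727), (.mj 7 8, 997), (.mj 8 9, 8014), (.mj 10 6, 189), (.mj 11 10, 5944), (.hz 17 1343, 803732), (.hz 17 1407, 2861271), (.rw 10, 2), (.rw 11, 13)])))
.fin))
(.ask 959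
(.mark 959 [6, 10, 11]
(.spn
(.con 6 10)
(.maj 6 11
(.cut 6 [(0, 1), (1, 1), (2, 1), (3, 1), (5, 1), (7, 1), (11, 1), (21, 1), (15, 1), (23, 1), (31, 1), (47, 1), (63, 1), (159, 1), (191, 1), (319, 1), (447, 1), (703, 1), (959, 1)]
(.lp [[6], [1, 3, 5, 8, 10], [0, 2, 4, 7, 9, 11]] [(.mj 3 4, 67621), (.mj 7 8, 1691), (.mj 9 10, 2885), (.mj 10 6, 52), (.hz 16 3007, 12022579), (.rw 10, 13)]))
(.ask 1343
(.mark 1983 [6, 11, 12]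
(.cut 6 [(0, 1), (1, 1), (2, 1), (3, 1), (5, 1), (7, 1), (11, 1), (21, 1), (15, 1), (23, 1), (31, 1), (47, 1), (63, 1), (159, 1), (191, 1), (319, 1), (447, 1), (703, 1), (1343, 1), (959, 1), (1471, 1)]
(.lp [[6], [0, 2, 4, 7, 9, 11], [1, 3, 5, 8, 10, 12]] [(.mj 7 8, 988), (.mj 10 11, 1004), (.mj 11 6, 5397), (.hz 17 5503, 2115082), (.hz 16 5567, 505775), (.hz 16 6079, 6984601), (.rw 10, 19)])))
(.ask 1471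
(.mark 1983 [6, 11, 12]
(.cut 6 [(0, 1), (1, 1), (2, 1), (3, 1), (5, 1), (7, 1), (11, 1), (21, 1), (15, 1), (23, 1), (31, 1), (47, 1), (63, 1), (159, 1), (191, 1), (319, 1), (447, 1), (703, 1), (1343, 1), (959, 1)]
(.cut 6 [(0, 1), (1, 1), (2, 1), (3, 1), (5, 1), (7, 1), (11, 1), (21, 1), (15, 1), (23, 1), (31, 1), (47, 1), (63, 1), (159, 1), (191, 1), (319, 1), (447, 1), (703, 1), (1343, 1), (959, 1), (1471, 1), (3007, 1)]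
(.cut 6 [(0, 1), (1, 1), (2, 1), (3, 1), (5, 1), (7, 1), (11, 1), (21, 1), (15, 1), (23, 1), (31, 1), (47, 1), (63, 1), (159, 1), (191, 1), (319, 1), (447, 1), (1343, 1), (1471, 1)]
(.lp [[6], [0, 2, 4, 7, 9, 11], [1, 3, 5, 8, 10, 12]] [(.mj 9 10, 1430), (.mj 10 11, 3775), (.mj 11 6, 22738), (.hz 16 5567, 3407692), (.hz 16 6079, 25294734), (.rw 10, 26), (.rw 11, 1), (.rw 12, 54)])))))
(.cut 6 [(0, 1), (1, 1), (2, 1), (3, 1), (5, 1), (7, 1), (11, 1), (21, 1), (15, 1), (23, 1), (31, 1), (47, 1), (63, 1), (159, 1), (191, 1), (319, 1), (447, 1), (1343, 1), (1471, 1)]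
(.cut 6 [(0, 1), (1, 1), (2, 1), (3, 1), (5, 1), (7, 1), (11, 1), (21, 1), (15, 1), (23, 1), (31, 1), (47, 1), (63, 1), (159, 1), (191, 1), (319, 1), (447, 1), (703, 1), (1343, 1), (959, 1)]
(.lp [[6], [1, 3, 5, 8, 10], [0, 2, 4, 7, 9, 11]] [(.mj 10 11, 653), (.mj 11 6, 13511), (.hz 16 1343, 9404215), (.hz 16 1471, 5686538), (.rw 10, 33), (.rw 11, 10)]))))))
(.ask 3007
(.mark 3007 [6, 10, 12]
(.spn
(.con 6 10)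
(.lp [[6], [1, 3, 5, 8, 10], [0, 2, 4, 7, 9, 11, 12]] [(.mj 11 10, 624), (.rw 10, 1), (.hz 16 1343, 456744), (.hz 16 1471, 1698345), (.hz 16 1983, 3592203)])
(.cut 6 [(0, 1), (1, 1), (2, 1), (3, 1), (5, 1), (7, 1), (11, 1), (21, 1), (15, 1), (23, 1), (31, 1), (47, 1), (63, 1), (159, 1), (191, 1), (319, 1), (447, 1), (703, 1), (959, 1), (3007, 1)]
(.cut 10 [(0, 1), (1, 1), (2, 1), (3, 1), (5, 1), (7, 1), (11, 1), (21, 1), (15, 1), (23, 1), (31, 1), (47, 1), (63, 1), (159, 1), (191, 1), (319, 1), (447, 1), (703, 1), (959, 1), (3007, 1)]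
(.lp [[6], [1, 3, 5, 8, 10], [0, 2, 4, 7, 9, 11, 12]] [(.mj 10 6, 1787), (.mj 12 6, 6653), (.mj 12 10, 775), (.hz 16 703, 9684552), (.hz 17 1407, 5139609), (.hz 16 1983, 5420584), (.hz 16 4031, 19046235), (.rw 11, 24), (.rw 12, 2)])))
.fin))
(.lp [[6], [1, 3, 5, 8, 10], [0, 2, 4, 7, 9, 11]] [(.mj 11 10, 1), (.rw 9, 1)]))
.fin))
(.lp [[6], [0, 2, 4, 7, 9], [1, 3, 5, 8, 10]] [(.mj 9 10, 3), (.mj 10 6, 2), (.hz 16 1343, 1951), (.hz 16 1471, 7257)]))))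
(.cut 6 [(0, 1), (1, 1), (2, 1), (3, 1), (5, 1), (7, 1), (11, 1), (21, 1), (15, 1), (23, 1), (31, 1), (47, 1), (63, 1), (159, 1), (191, 1), (319, 1), (447, 1), (703, 2), (1343, 1), (959, 1)]
(.cut 6 [(0, 1), (1, 1), (2, 1), (3, 1), (5, 1), (7, 1), (11, 1), (21, 1), (15, 1), (23, 1), (31, 1), (47, 1), (63, 1), (159, 1), (191, 1), (319, 1), (447, 1)]
(.lp [[6], [0, 2, 4, 7, 9], [1, 3, 5, 8, 10]] [(.mj 3 4, 98685), (.mj 7 8, 23496), (.mj 10 9, 8518), (.hz 16 703, 4872921), (.hz 18 767, 31087316), (.rw 9, 2), (.rw 10, 16)])))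
.fin))

theorem run207 : run P3488 (leaf3 218 625) (cutRow P3488) [] t207 s207 = true := by
  decide +kernel

theorem bad207 : Bad P3488 s207 :=
  run_sound (leaf3_sound P3488 rfl rfl) (cutRow_sound P3488) (
    fun _ h => absurd h List.not_mem_nil) t207 s207 run207

/-- the state above piece 56 of the tree -/
def s56 : St := ⟨[0, 0, 1, 1, 7, 23, 11, 31, 55], [63, 31, 23, 15, 11, 13, 9, 7, 5, 3, 2, 1, 0], [0, 1, 2, 3, 4, 5, 7],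
  [(4, 6), (3, 4)],
  [⟨true, 1, 9, 7, 50⟩, ⟨true, 2, 11, 3, 50⟩, ⟨true, 2, 9, 9, 50⟩, ⟨true, 3, 3, 1, 5⟩, ⟨true, 1, 5, 13, 50⟩, ⟨true, 2, 11, 3, 5⟩, ⟨true, 2, 9, 8, 25⟩, ⟨true, 2, 9, 17, 50⟩, ⟨true, 2, 11, 33, 50⟩, ⟨true, 3, 23, 8, 25⟩, ⟨true, 4, 15, 27, 50⟩, ⟨true, 3, 23, 19, 50⟩, ⟨true, 4, 15, 29, 50⟩, ⟨true, 6, 63, 1, 10⟩, ⟨true, 3, 55, 23, 50⟩, ⟨true, 3, 55, 1, 2⟩, ⟨true, 5, 95, 3, 10⟩, ⟨true, 5, 159, 6, 25⟩, ⟨true, 4, 79, 18, 25⟩, ⟨true, 2, 75, 19, 25⟩, ⟨true, 2, 75, 4, 5⟩, ⟨true, 6, 159, 1, 10⟩],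
  [.spn 0 0 651200, .spn 1 1 140426, .spn 3 2 302400, .spn 7 3 140426, .spn 15 4 302400, .spn 31 5 140426, .spn 63 7 140426]⟩

/-- piece 56 of the tree -/
noncomputable def t56 : WN.Tree :=
(.haz 7 127 13 40
(.ask 159
(.mark 191 [6, 8, 9]
(.spn
(.haz 9 255 13 50
(.haz 9 255 9 25
(.haz 8 191 17 50
(.lp [[1, 6], [3, 7, 9], [0, 2, 4, 5, 8]] [(.mj 5 7, 10), (.mj 6 8, 11), (.mj 7 6, 12), (.hz 15 311, 1903), (.hz 25 191, 1567), (.hz 13 319, 12689), (.hz 21 671, 12064), (.hz 25 703, 5105)])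
(.lp [[1, 6], [3, 7, 9], [0, 2, 4, 5, 8]] [(.mj 5 7, 542534), (.mj 7 6, 300453), (.rw 7, 508), (.hz 25 55, 13819135), (.hz 25 63, 61934571), (.hz 25 191, 41156142), (.hz 13 319, 319231213), (.hz 24 255, 494498232)]))
(.lp [[1, 6], [3, 7, 9], [0, 2, 4, 5, 8]] [(.mj 5 7, 34), (.mj 6 8, 33), (.mj 7 6, 36), (.hz 15 311, 5654), (.hz 24 191, 20421), (.hz 13 319, 37694), (.hz 21 671, 16317), (.hz 23 255, 5514), (.hz 13 447, 3323), (.hz 23 511, 2557)]))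
(.lp [[1, 6], [3, 7, 9], [0, 2, 4, 5, 8]] [(.mj 3 4, 2), (.mj 5 7, 8), (.mj 6 8, 8), (.mj 7 6, 10), (.hz 23 191, 2345), (.hz 13 319, 11858), (.hz 21 671, 9251)]))
(.haz 4 79 4 5
(.haz 4 79 21 25
(.haz 5 95 23 50
(.haz 5 95 12 25
(.ask 311
(.mark 447 [6, 9, 10]
(.lp [[1, 6], [3, 7, 9], [0, 2, 4, 5, 8, 10]] [(.mj 3 4, 169), (.mj 5 7, 34), (.mj 8 6, 62), (.hz 20 75, 14305), (.hz 24 79, 10672), (.hz 26 95, 13357), (.hz 21 159, 89603), (.hz 13 191, 78093), (.hz 21 671, 47714), (.hz 13 703, 163805), (.hz 13 1343, 12395)]))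
(.haz 7 95 8 25
(.ask 75
(.haz 6 447 3 25
(.mark 95 [5, 7, 10]
(.lp [[1, 6, 10], [3, 7, 9], [0, 2, 4, 5, 8]] [(.mj 3 4, 377), (.mj 5 7, 59), (.mj 8 6, 110), (.hz 20 1099, 37723), (.hz 24 1103, 35328), (.hz 26 1119, 45590), (.hz 27 1119, 91944), (.hz 21 671, 197654), (.hz 22 1151, 63781), (.hz 28 447, 118323), (.hz 13 703, 451177), (.hz 26 735, 20689)]))
(.mark 127 [7, 8, 10]
(.lp [[1, 6, 10], [3, 7, 9], [0, 2, 4, 5, 8]] [(.mj 3 4, 25240), (.mj 5 7, 5124), (.mj 8 6, 2956), (.hz 28 11, 1849562), (.hz 28 319, 728892), (.hz 27 1119, 6980175), (.hz 21 671, 7004943), (.hz 22 1151, 1183372), (.hz 13 447, 4733486), (.hz 13 703, 11383095), (.hz 22 1407, 1)])))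
(.lp [[1, 6], [3, 7, 9], [0, 2, 4, 5, 8]] [(.mj 1 2, 235), (.mj 3 4, 23), (.mj 8 6, 13), (.hz 24 79, 5735), (.hz 26 95, 4281), (.hz 27 95, 2788), (.hz 13 191, 19635), (.hz 13 319, 684), (.hz 21 671, 19702), (.hz 13 703, 6840), (.hz 26 735, 8968)]))
(.lp [[1, 6], [3, 7, 9], [0, 2, 4, 5, 8]] [(.mj 3 4, 44), (.mj 8 6, 13), (.hz 20 75, 3253), (.hz 27 31, 2015), (.hz 24 79, 2426), (.hz 26 95, 3513), (.hz 21 159, 7653), (.hz 13 191, 18261), (.hz 13 319, 2086), (.hz 21 671, 13002), (.hz 13 703, 20864), (.hz 26 735, 3375)])))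
(.lp [[1, 6], [3, 7, 9], [0, 2, 4, 5, 8]] [(.mj 3 4, 48), (.mj 5 7, 44), (.mj 8 6, 45), (.hz 20 75, 1432), (.hz 26 31, 18578), (.hz 24 79, 1068), (.hz 25 95, 7876), (.hz 21 159, 83656), (.hz 13 191, 69495), (.hz 13 319, 316), (.hz 21 671, 75505), (.hz 13 703, 3163), (.hz 25 735, 19473)]))
(.lp [[1, 6], [3, 7, 9], [0, 2, 4, 5, 8]] [(.mj 1 2, 241), (.mj 3 4, 721), (.mj 5 7, 545), (.mj 7 8, 15), (.mj 8 6, 816), (.hz 25 31, 104517), (.hz 13 63, 697342), (.hz 21 159, 1199208), (.hz 13 191, 1274382), (.hz 13 319, 33366), (.hz 21 671, 1111262), (.hz 16 735, 1835111)]))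
(.lp [[1, 6], [3, 7, 9], [0, 2, 4, 5, 8]] [(.mj 3 4, 19), (.mj 8 6, 21), (.hz 24 15, 6476), (.hz 23 79, 21989), (.hz 13 63, 17672), (.hz 21 159, 12216), (.hz 13 191, 33208), (.hz 21 671, 23957), (.hz 16 735, 31152)]))
(.lp [[1, 6], [3, 7, 9], [0, 2, 4, 5, 8]] [(.mj 3 4, 5), (.mj 7 8, 1), (.mj 8 6, 9), (.hz 23 15, 16738), (.hz 18 79, 2287), (.hz 13 63, 5361), (.hz 16 95, 1913), (.hz 21 159, 5715), (.hz 13 191, 14432), (.hz 13 319, 1653), (.hz 21 671, 6350)]))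
(.lp [[1, 6], [3, 7, 9], [0, 2, 4, 5, 8]] [(.mj 3 4, 7), (.mj 5 7, 8), (.mj 9 6, 9), (.mj 9 8, 3), (.hz 20 75, 355), (.hz 18 79, 309), (.hz 13 63, 2136), (.hz 21 159, 19512), (.hz 13 319, 32330), (.hz 21 671, 2432), (.hz 22 383, 12768), (.hz 13 703, 10456)])
.fin))
(.haz 4 79 4 5
(.ask 191
(.mark 191 [6, 8, 9]
(.spn
(.haz 7 319 7 25
(.haz 7 319 19 50
(.haz 9 511 7 25
(.haz 8 703 9 50
(.haz 6 703 7 50
(.haz 7 319 23 50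
(.haz 8 703 11 50
(.haz 7 319 1 2
(.ask 703
(.haz 8 191 6 25
(.mark 703 [6, 8, 10]
(.lp [[3, 6], [1, 5, 8], [0, 2, 4, 7, 9, 10]] [(.mj 5 7, 130), (.mj 6 8, 169), (.mj 6 9, 16), (.mj 7 6, 169), (.hz 32 191, 46994), (.hz 32 255, 97184), (.hz 32 703, 97068), (.hz 32 1727, 105634)]))
(.haz 8 127 9 50
(.lp [[3, 6], [1, 5, 8], [0, 2, 4, 7, 9, 10]] [(.mj 5 7, 70), (.mj 6 9, 49), (.mj 7 6, 71), (.hz 32 55, 6557), (.hz 32 63, 32668), (.hz 33 127, 15061), (.hz 32 191, 41763), (.hz 30 703, 25614)])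
(.lp [[3, 6], [1, 5, 8], [0, 2, 4, 7, 9, 10]] [(.mj 2 3, 31), (.mj 5 7, 1), (.mj 6 9, 3), (.hz 33 55, 565), (.hz 33 63, 868), (.hz 32 191, 2297), (.hz 30 703, 1409)])))
(.lp [[1, 6], [3, 7, 9], [0, 2, 4, 5, 8]] [(.mj 3 4, 8), (.mj 5 7, 15), (.mj 6 8, 11), (.mj 7 6, 19), (.hz 13 319, 24116), (.hz 31 319, 14020), (.hz 30 703, 719), (.hz 30 767, 2237)]))
(.lp [[1, 6], [3, 7, 9], [0, 2, 4, 5, 8]] [(.mj 5 7, 7), (.mj 6 8, 35), (.mj 7 6, 43), (.hz 31 63, 298811), (.hz 13 319, 45920), (.hz 29 319, 8575), (.hz 30 703, 10993)]))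
(.lp [[1, 6], [3, 7, 9], [0, 2, 4, 5, 8]] [(.mj 2 3, 43), (.mj 5 7, 1), (.mj 6 9, 4), (.hz 30 55, 814), (.hz 30 63, 1267), (.hz 30 191, 1622), (.hz 27 703, 2093)]))
(.lp [[1, 6], [3, 7, 9], [0, 2, 4, 5, 8]] [(.mj 6 8, 13), (.mj 7 6, 16), (.hz 29 63, 4623), (.hz 13 319, 19678), (.hz 25 319, 3236), (.hz 27 703, 3947)]))
(.lp [[1, 6], [3, 7, 9], [0, 2, 4, 5, 8]] [(.mj 2 3, 13), (.mj 5 7, 2), (.mj 6 8, 13), (.mj 6 9, 8), (.hz 28 15, 750), (.hz 28 31, 1435), (.hz 28 63, 2232), (.hz 28 159, 716), (.hz 28 191, 4063), (.hz 13 319, 149), (.hz 27 703, 8339)]))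
(.lp [[1, 6], [3, 7, 9], [0, 2, 4, 5, 8]] [(.mj 1 2, 187), (.mj 2 3, 104), (.mj 6 9, 7), (.hz 27 55, 1917), (.hz 27 63, 2069), (.hz 27 191, 2262), (.hz 13 319, 168)]))
(.lp [[1, 6], [3, 7, 9], [0, 2, 4, 5, 8]] [(.mj 3 4, 1), (.mj 5 7, 3), (.mj 6 8, 3), (.mj 7 6, 4), (.hz 15 311, 70), (.hz 26 191, 1908), (.hz 13 319, 4639)]))
(.lp [[1, 6], [3, 7, 9], [0, 2, 4, 5, 8]] [(.mj 6 8, 5), (.mj 7 6, 6), (.hz 25 63, 1998), (.hz 13 319, 6113), (.hz 24 319, 3127)]))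
(.lp [[1, 6], [3, 7, 9], [0, 2, 4, 5, 8]] [(.mj 3 4, 3), (.mj 5 7, 1), (.mj 7 6, 5), (.mj 7 8, 4), (.hz 24 63, 2696), (.hz 13 319, 12959)]))
(.maj 6 9
(.cut 6 [(0, 1), (1, 1), (2, 1), (3, 1), (5, 1), (9, 1), (7, 1), (11, 1), (13, 1), (15, 1), (23, 1), (31, 1), (55, 1), (63, 1), (159, 1), (311, 1), (191, 1), (319, 1)]
(.cut 6 [(0, 1), (1, 1), (2, 1), (3, 1), (5, 1), (9, 1), (7, 1), (11, 1), (13, 1), (15, 1), (23, 1), (31, 1), (55, 1), (63, 1), (159, 1), (311, 1), (191, 1)]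
(.lp [[1, 6], [3, 7, 9], [0, 2, 4, 5, 8]] [(.mj 3 4, 102319), (.mj 8 6, 33580), (.hz 20 75, 5601424), (.hz 23 79, 21938911), (.hz 13 63, 15942547), (.hz 21 159, 12188284), (.hz 13 703, 107731193), (.rw 8, 5), (.rw 9, 14)])))
(.lp [[1, 6], [3, 7, 9], [0, 2, 4, 5, 8]] [(.mj 3 4, 22), (.mj 8 9, 2), (.mj 9 6, 9), (.hz 20 75, 1189), (.hz 23 79, 4656), (.hz 13 63, 6582), (.hz 21 159, 2587), (.hz 13 191, 10188), (.hz 13 319, 11309), (.hz 13 447, 23885), (.hz 13 703, 11012)]))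
(.maj 6 8
(.cut 6 [(0, 1), (1, 1), (2, 1), (3, 1), (5, 1), (9, 1), (7, 1), (11, 1), (13, 1), (15, 1), (23, 1), (31, 1), (55, 1), (63, 1), (159, 1), (191, 1)]
(.lp [[1, 6], [3, 7, 9], [0, 2, 4, 5, 8]] [(.mj 1 2, 62829), (.mj 3 4, 13614), (.mj 5 7, 15994), (.mj 9 6, 14011), (.hz 20 75, 9630738), (.hz 23 79, 8269363), (.hz 13 319, 54978622), (.hz 22 383, 25638635), (.rw 8, 26)]))
(.lp [[1, 6], [3, 7, 9], [0, 2, 4, 5, 8]] [(.mj 1 2, 1255717), (.mj 3 4, 139577), (.mj 8 6, 132285), (.rw 7, 8), (.hz 20 75, 185228796), (.hz 23 79, 136862023), (.hz 13 63, 109991593), (.hz 21 159, 76034457), (.hz 13 191, 206695611), (.hz 13 703, 206695611)]))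
.fin))
(.spn
(.lp [[1, 6], [3, 7], [0, 2, 4, 5, 8]] [(.mj 6 8, 2), (.mj 7 6, 3)])
(.lp [[1, 6], [3, 7], [0, 2, 4, 5, 8]] [(.mj 3 4, 52), (.mj 8 6, 19), (.hz 20 75, 2836), (.hz 23 79, 11109), (.hz 13 63, 15705), (.hz 21 159, 6172), (.hz 13 191, 24307), (.hz 13 319, 4909)])
.fin
.fin))
(.lp [[1, 6], [3, 7], [0, 2, 4, 5, 8]] [(.mj 3 4, 8), (.mj 7 6, 39), (.hz 23 15, 106000), (.hz 18 79, 14972), (.hz 16 95, 33139), (.hz 21 159, 860), (.hz 15 311, 16342), (.hz 13 319, 41285)])))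
(.lp [[1, 6], [3, 7], [0, 2, 4, 5, 8]] [(.mj 3 4, 148), (.mj 7 6, 115), (.mj 7 8, 66), (.hz 22 31, 18947), (.hz 22 63, 25930), (.hz 21 159, 3026), (.hz 13 319, 271539)]))

theorem run56 : run P3488 (leaf3 218 625) (cutRow P3488) [] t56 s56 = true := by
  decide +kernel

theorem bad56 : Bad P3488 s56 :=
  run_sound (leaf3_sound P3488 rfl rfl) (cutRow_sound P3488) (
    fun _ h => absurd h List.not_mem_nil) t56 s56 run56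

/-- the state above piece 235 of the tree -/
def s235 : St := ⟨[0, 0, 1, 3, 5, 15, 31, 31, 47, 127, 639, 767], [303, 767, 639, 255, 223, 191, 159, 127, 95, 63, 31, 23, 21, 15, 11, 7, 5, 3, 2, 1, 0], [0, 1, 2, 3, 4, 5, 6, 7, 9, 8],
  [(9, 8), (4, 5)],
  [⟨true, 2, 3, 3, 10⟩, ⟨true, 1, 5, 2, 5⟩, ⟨true, 2, 3, 23, 50⟩, ⟨true, 1, 5, 12, 25⟩, ⟨true, 1, 21, 27, 50⟩, ⟨true, 4, 15, 9, 40⟩, ⟨true, 3, 23, 11, 20⟩, ⟨true, 4, 47, 7, 20⟩, ⟨true, 4, 47, 17, 40⟩, ⟨true, 4, 47, 9, 20⟩, ⟨true, 4, 47, 19, 40⟩, ⟨true, 5, 31, 3, 10⟩, ⟨true, 4, 47, 3, 5⟩, ⟨true, 4, 47, 5, 8⟩, ⟨true, 6, 159, 1, 10⟩, ⟨true, 6, 159, 1, 4⟩, ⟨true, 6, 319, 11, 40⟩, ⟨true, 5, 159, 7, 20⟩, ⟨true, 8, 255, 3, 40⟩, ⟨true, 7, 319, 1, 8⟩, ⟨true, 7, 639, 1, 10⟩, ⟨true, 7, 639, 3, 20⟩, ⟨true, 7, 639, 7, 40⟩, ⟨true, 8, 639, 3, 40⟩, ⟨true, 6, 447, 21, 40⟩, ⟨true,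 7, 639, 9, 40⟩, ⟨true, 6, 319, 9, 20⟩, ⟨true, 6, 447, 13, 20⟩, ⟨true, 8, 255, 3, 20⟩, ⟨true, 6, 319, 1, 2⟩, ⟨true, 11, 1791, 1, 5⟩],
  [.spn 0 0 651200, .spn 1 1 302400, .spn 3 2 302400, .spn 7 3 302400, .spn 15 4 302400, .spn 31 5 140426, .spn 63 6 140426, .spn 127 7 62723, .spn 255 9 302400, .spn 767 8 62723]⟩

/-- piece 235 of the tree -/
noncomputable def t235 : WN.Tree :=
(.haz 11 1791 8 25
(.haz 9 511 16 25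
(.haz 9 511 18 25
(.ask 319
(.mark 1023 [10, 11, 12]
(.spn
(.haz 12 2047 1 10
(.lp [[7, 11], [1, 3, 5, 8, 12], [0, 2, 4, 6, 9, 10]] [(.mj 7 9, 36), (.mj 8 10, 29), (.mj 9 8, 50), (.mj 10 11, 30), (.hz 19 4415, 7785), (.hz 19 4479, 17209), (.hz 27 4543, 6115), (.hz 33 4607, 17811), (.hz 31 1791, 61729), (.hz 28 2815, 200737), (.hz 31 2047, 52065), (.hz 34 2047, 292730), (.hz 34 4095, 1301604)])
(.lp [[7, 11], [1, 3, 5, 8, 12], [0, 2, 4, 6, 9, 10]] [(.mj 7 9, 6), (.mj 10 11, 1), (.hz 34 319, 11983), (.hz 34 511, 13693), (.hz 33 4607, 7407), (.hz 31 1791, 84)]))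
(.haz 10 1023 9 50
(.haz 11 5119 21 50
(.ask 2815
(.mark 3071 [10, 12, 13]
(.spn
(.ask 1663
(.mark 1791 [8, 11, 14]
(.lp [[7, 11, 13], [1, 3, 5, 8, 12], [0, 2, 4, 6, 9, 10, 14]] [(.mj 7 9, 30), (.mj 8 11, 23), (.mj 9 8, 35), (.mj 10 13, 4), (.mj 11 10, 8), (.hz 31 1791, 11505), (.hz 28 18175, 85799), (.hz 31 18175, 82884)]))
(.ask 1791
(.mark 1791 [8, 11, 14]
(.lp [[7, 11, 13], [1, 3, 5, 8, 12], [0, 2, 4, 6, 9, 10, 14]] [(.mj 8 11, 47), (.mj 9 8, 74), (.mj 10 13, 8), (.mj 11 10, 28), (.hz 31 1791, 53338), (.hz 28 18175, 136234), (.hz 31 18175, 129266)]))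
(.lp [[7, 11, 13], [1, 3, 5, 8, 12], [0, 2, 4, 6, 9, 10]] [(.mj 8 11, 5), (.mj 9 8, 8), (.mj 10 13, 1), (.mj 11 10, 3)])))
(.lp [[7, 11, 13], [1, 3, 5, 8, 12], [0, 2, 4, 6, 9, 10]] [(.mj 7 9, 909), (.mj 8 11, 295), (.mj 9 8, 2504), (.mj 12 10, 35), (.rw 11, 2), (.hz 28 1791, 12126450), (.hz 28 11007, 7403039)])
(.lp [[7, 11, 13], [1, 3, 5, 8, 12], [0, 2, 4, 6, 9, 10]] [(.mj 7 9, 4), (.mj 8 11, 12), (.mj 9 8, 13), (.mj 13 10, 8), (.hz 23 1663, 6612), (.hz 34 1023, 17882), (.hz 31 1791, 26666), (.hz 34 3071, 44045), (.hz 34 5119, 43512), (.hz 34 7167, 10218), (.hz 34 11263, 10218)])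
.fin))
(.haz 10 3071 17 50
(.lp [[7, 11], [1, 3, 5, 8, 12], [0, 2, 4, 6, 9, 10]] [(.mj 5 6, 9), (.mj 8 11, 3), (.mj 9 8, 12), (.mj 11 10, 8), (.hz 36 3071, 29090)])
(.lp [[7, 11], [1, 3, 5, 8, 12], [0, 2, 4, 6, 9, 10]] [(.mj 5 6, 19), (.mj 7 9, 1), (.mj 9 8, 14), (.mj 11 10, 6), (.hz 34 1023, 36783), (.hz 36 2815, 9558)])))
(.lp [[7, 11], [1, 3, 5, 8, 12], [0, 2, 4, 6, 9, 10]] [(.mj 9 8, 10), (.mj 11 10, 8), (.hz 35 767, 12612), (.hz 35 1023, 12448), (.hz 28 1791, 59856)]))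
(.lp [[7, 11], [1, 3, 5, 8, 12], [0, 2, 4, 6, 9, 10]] [(.mj 5 6, 561), (.mj 8 11, 109), (.mj 9 8, 257), (.hz 34 639, 36478), (.hz 29 4415, 793491), (.hz 34 767, 70678), (.hz 34 895, 10260), (.hz 19 4479, 183730), (.hz 27 4543, 134926), (.hz 31 1791, 300175), (.hz 25 4991, 56998)]))
(.lp [[7, 11], [1, 3, 5, 8, 12], [0, 2, 4, 6, 9, 10]] [(.mj 7 9, 4), (.mj 9 8, 5), (.mj 12 10, 2), (.mj 12 11, 3), (.hz 28 1791, 13688), (.hz 31 1791, 13139), (.hz 28 2815, 20905)])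
.fin))
(.ask 1663
(.haz 11 1023 3 8
(.maj 10 11
(.mark 1791 [8, 11, 12]
(.lp [[7, 11], [1, 3, 5, 8], [0, 2, 4, 6, 9, 10, 12]] [(.mj 7 9, 327), (.mj 8 10, 616), (.mj 9 8, 914), (.mj 10 11, 763), (.hz 34 1023, 14951198), (.hz 31 1791, 1317056), (.hz 28 2815, 1171956), (.hz 28 5887, 48798)]))
(.haz 11 1791 2 5
(.haz 8 1791 1 5
(.mark 1791 [8, 11, 12]
(.lp [[7, 11], [1, 3, 5, 8], [0, 2, 4, 6, 9, 10, 12]] [(.mj 5 6, 98), (.mj 7 9, 270), (.mj 8 11, 184), (.mj 9 8, 296), (.hz 36 1791, 11680), (.hz 35 1791, 943553), (.hz 36 5887, 1630877), (.hz 35 5887, 3055874)]))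
(.mark 1791 [8, 11, 12]
(.lp [[7, 11], [1, 3, 5, 8], [0, 2, 4, 6, 9, 10, 12]] [(.mj 7 9, 9), (.mj 8 11, 10), (.mj 9 8, 11), (.mj 11 10, 1), (.hz 36 767, 70949), (.hz 28 1791, 6199), (.hz 35 1791, 71180), (.hz 23 5759, 5603), (.hz 35 5887, 166672)])))
(.mark 1791 [8, 11, 12]
(.lp [[7, 11], [1, 3, 5, 8], [0, 2, 4, 6, 9, 10, 12]] [(.mj 7 9, 39), (.mj 9 8, 24), (.mj 11 10, 5), (.hz 35 767, 250223), (.hz 28 1791, 106181), (.hz 35 1791, 119786), (.hz 28 5887, 102269)]))))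
(.mark 1791 [8, 11, 12]
(.lp [[7, 11], [1, 3, 5, 8], [0, 2, 4, 6, 9, 10, 12]] [(.mj 7 9, 100), (.mj 8 10, 9), (.mj 8 11, 17), (.mj 9 8, 68), (.hz 34 767, 269493), (.hz 28 1791, 99594), (.hz 28 5887, 213682), (.hz 31 5887, 57100)])))
(.ask 447
(.mark 1023 [10, 11, 12]
(.spn
(.ask 1919
(.mark 2047 [11, 12, 13]
(.lp [[7, 11], [1, 3, 5, 8, 12], [0, 2, 4, 6, 9, 10, 13]] [(.mj 7 9, 6), (.mj 8 11, 5), (.mj 9 8, 9), (.mj 10 11, 1)]))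
(.haz 11 1023 13 40
(.lp [[7, 11], [1, 3, 5, 8, 12], [0, 2, 4, 6, 9, 10]] [(.mj 7 9, 10), (.mj 8 10, 6), (.mj 9 8, 8), (.mj 10 11, 9), (.hz 27 4543, 7188), (.hz 34 1023, 35333), (.hz 33 4607, 26279), (.hz 31 1791, 12345), (.hz 34 5119, 65827)])
(.lp [[7, 11], [1, 3, 5, 8, 12], [0, 2, 4, 6, 9, 10]] [(.mj 7 9, 10), (.mj 8 10, 12), (.mj 9 8, 18), (.mj 10 11, 2), (.hz 34 767, 20178), (.hz 31 1791, 24765)])))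
(.ask 1791
(.haz 11 1791 2 5
(.mark 2047 [11, 12, 13]
(.lp [[7, 11], [1, 3, 5, 8, 12], [0, 2, 4, 6, 9, 10, 13]] [(.mj 5 6, 536), (.mj 8 11, 60), (.mj 9 8, 191), (.mj 11 10, 20), (.hz 27 4543, 183203), (.hz 28 1791, 90226), (.hz 34 1791, 494797), (.hz 34 9983, 824662)]))
(.lp [[7, 11], [1, 3, 5, 8, 12], [0, 2, 4, 6, 9, 10, 13]] [(.mj 5 6, 6120), (.mj 9 8, 1945), (.mj 11 10, 481), (.hz 34 767, 8129595), (.hz 27 4543, 2092501), (.hz 28 1791, 5345321)]))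
(.lp [[7, 11], [1, 3, 5, 8, 12], [0, 2, 4, 6, 9, 10]] [(.mj 8 11, 19), (.mj 9 8, 30), (.mj 11 10, 5)]))
(.lp [[7, 11], [1, 3, 5, 8, 12], [0, 2, 4, 6, 9, 10]] [(.mj 6 7, 1), (.mj 9 8, 2), (.mj 12 10, 1), (.mj 12 11, 1), (.hz 31 1791, 5239), (.hz 28 2815, 7185)])
.fin))
(.ask 383
(.mark 1023 [10, 11, 12]
(.spn
(.haz 12 2047 3 40
(.lp [[7, 11], [1, 3, 5, 8, 12], [0, 2, 4, 6, 9, 10]] [(.mj 7 9, 286), (.mj 8 10, 210), (.mj 9 8, 377), (.mj 10 11, 223), (.hz 19 4479, 144098), (.hz 33 4607, 92253), (.hz 31 1791, 455991), (.hz 28 2815, 1526362), (.hz 31 2047, 249100), (.hz 34 2047, 528131), (.hz 34 4095, 2075834)])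
(.lp [[7, 11], [1, 3, 5, 8, 12], [0, 2, 4, 6, 9, 10]] [(.mj 7 9, 7), (.mj 10 11, 1), (.hz 34 383, 2147), (.hz 34 511, 5301), (.hz 33 4607, 4953), (.hz 31 1791, 101)]))
(.ask 2815
(.mark 3071 [10, 12, 13]
(.spn
(.ask 1791
(.mark 4095 [12, 13, 14]
(.lp [[7, 11, 13], [1, 3, 5, 8, 12], [0, 2, 4, 6, 9, 10, 14]] [(.mj 5 6, 188570), (.mj 7 9, 3611), (.mj 8 11, 10426), (.mj 9 8, 50178), (.mj 10 13, 1176), (.mj 11 10, 5769), (.rw 11, 1), (.hz 31 1791, 13470379), (.hz 28 18175, 28898989), (.hz 31 18175, 28671820)]))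
(.lp [[7, 11, 13], [1, 3, 5, 8, 12], [0, 2, 4, 6, 9, 10]] [(.mj 8 11, 12), (.mj 9 8, 19), (.mj 10 13, 2), (.mj 11 10, 6)]))
(.lp [[7, 11, 13], [1, 3, 5, 8, 12], [0, 2, 4, 6, 9, 10]] [(.mj 5 6, 26703), (.mj 8 11, 3986), (.mj 9 8, 11092), (.mj 12 10, 1549), (.rw 11, 1), (.hz 28 1791, 14520997), (.hz 31 1791, 16578589), (.hz 28 3839, 18732086)])
(.ask 1791
(.mark 4095 [12, 13, 14]
(.lp [[7, 11, 13], [1, 3, 5, 8, 12], [0, 2, 4, 6, 9, 10, 14]] [(.mj 5 6, 215), (.mj 7 9, 5), (.mj 8 11, 18), (.mj 9 8, 59), (.mj 13 10, 4), (.hz 31 1791, 54964), (.hz 25 4991, 2142), (.hz 31 2047, 20671), (.hz 31 18175, 40926)]))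
(.lp [[7, 11, 13], [1, 3, 5, 8, 12], [0, 2, 4, 6, 9, 10]] [(.mj 8 11, 19), (.mj 9 8, 30), (.mj 13 10, 5)]))
.fin))
(.lp [[7, 11], [1, 3, 5, 8, 12], [0, 2, 4, 6, 9, 10]] [(.mj 5 6, 524), (.mj 7 9, 7), (.mj 8 11, 4), (.mj 9 8, 112), (.mj 11 10, 8), (.hz 19 4479, 110629), (.hz 28 1791, 86046)]))
(.lp [[7, 11], [1, 3, 5, 8, 12], [0, 2, 4, 6, 9, 10]] [(.mj 9 8, 5), (.mj 12 10, 2), (.mj 12 11, 3), (.hz 28 1791, 13730), (.hz 31 1791, 12925), (.hz 28 2815, 21176)])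
.fin))
(.lp [[7, 11], [1, 3, 5, 8], [0, 2, 4, 6, 9, 10]] [(.mj 5 6, 633), (.mj 7 9, 19), (.mj 9 8, 113), (.hz 33 511, 199), (.hz 31 1791, 151)])))))
(.lp [[7, 11], [1, 3, 5, 8], [0, 2, 4, 6, 9, 10]] [(.mj 5 6, 4), (.mj 7 9, 1), (.mj 9 8, 3), (.hz 33 255, 7041), (.hz 32 511, 1899), (.hz 23 1663, 1187)]))
(.lp [[7, 11], [1, 3, 5, 8], [0, 2, 4, 6, 9, 10]] [(.mj 7 9, 2), (.mj 9 8, 5), (.hz 32 255, 12674), (.hz 23 1663, 2625)]))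
(.haz 10 2815 17 50
(.haz 10 1023 8 25
(.lp [[7, 11], [1, 3, 5, 8], [0, 2, 4, 6, 9, 10]] [(.mj 7 9, 345), (.mj 8 10, 194), (.mj 9 8, 289), (.hz 31 767, 422267), (.hz 33 1023, 537430), (.hz 32 2815, 211135)])
(.lp [[7, 11], [1, 3, 5, 8], [0, 2, 4, 6, 9, 10]] [(.mj 5 6, 6), (.mj 7 9, 3), (.mj 9 8, 5), (.hz 33 767, 8667), (.hz 31 767, 9244), (.hz 28 1791, 4809)]))
(.lp [[7, 11], [1, 3, 5, 8], [0, 2, 4, 6, 9, 10]] [(.mj 5 6, 8), (.mj 7 9, 3), (.mj 9 8, 6), (.hz 32 767, 5953), (.hz 31 767, 12679), (.hz 28 1791, 6440)])))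

theorem run235 : run P3488 (leaf3 218 625) (cutRow P3488) [] t235 s235 = true := by
  decide +kernel

theorem bad235 : Bad P3488 s235 :=
  run_sound (leaf3_sound P3488 rfl rfl) (cutRow_sound P3488) (
    fun _ h => absurd h List.not_mem_nil) t235 s235 run235

/-- the state above piece 258 of the tree -/
def s258 : St := ⟨[0, 0, 1, 3, 7, 23, 55, 55], [23, 7, 5, 3, 2, 1, 0], [0, 1, 2, 4, 5],
  [],
  [⟨true, 2, 3, 3, 10⟩, ⟨true, 1, 5, 2, 5⟩, ⟨true, 2, 3, 23, 50⟩, ⟨true, 1, 5, 12, 25⟩],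
  [.spn 0 0 651200, .spn 1 1 302400, .spn 3 2 302400, .spn 7 4 651200, .spn 23 5 651200]⟩

/-- piece 258 of the tree -/
noncomputable def t258 : WN.Tree :=
(.mark 55 [3, 6, 7]
(.spn
(.lp [[7], [1, 3], [0, 2, 4, 5, 6]] [(.rw 4, 2), (.rw 5, 5)])
(.ask 119
(.mark 119 [3, 7, 8]
(.spn
(.lp [[7], [1, 3], [0, 2, 4, 5, 6, 8]] [(.mj 6 3, 274), (.rw 6, 1)])
(.haz 3 503 1 20
(.ask 183
(.mark 247 [3, 8, 9]
(.spn
(.lp [[3], [1, 7, 9], [0, 2, 4, 5, 6, 8]] [(.mj 3 8, 3064), (.mj 6 7, 9191), (.mj 7 3, 3064), (.rw 6, 6), (.rw 7, 11)])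
(.ask 375
(.mark 503 [3, 9, 10]
(.spn
(.lp [[3], [1, 7, 9], [0, 2, 4, 5, 6, 8, 10]] [(.mj 6 7, 2262), (.mj 7 8, 1680), (.mj 8 3, 1508), (.rw 8, 4), (.hz 4 1015, 1090419), (.hz 4 1527, 767332)])
(.cut 3 [(0, 1), (1, 1), (2, 1), (3, 1), (5, 1), (7, 1), (23, 1), (55, 1), (119, 1), (183, 1), (247, 1), (375, 1), (503, 1)]
(.lp [[3], [1, 7, 9], [0, 2, 4, 5, 6, 8, 10]] [(.mj 6 7, 419), (.mj 7 8, 210), (.mj 9 3, 222), (.mj 9 10, 13), (.rw 9, 1)]))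
(.cut 3 [(0, 1), (1, 1), (2, 1), (3, 1), (5, 1), (7, 1)]
(.cut 3 [(0, 1), (1, 1), (2, 1), (3, 1), (5, 1), (7, 1), (23, 1)]
(.cut 3 [(0, 1), (1, 1), (2, 1), (3, 1), (5, 1), (7, 1), (23, 1), (55, 1)]
(.cut 3 [(0, 1), (1, 1), (2, 1), (3, 1), (5, 1), (7, 1), (23, 1), (55, 1), (119, 1)]
(.lp [[3], [1, 7, 9], [0, 2, 4, 5, 6, 8, 10]] [(.mj 6 7, 1110), (.mj 7 8, 740), (.mj 10 3, 2117), (.hz 4 503, 693678), (.hz 4 1527, 98271), (.rw 9, 2), (.rw 10, 1), (.rw 11, 1), (.rw 12, 3)])))))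
.fin))
(.ask 503
(.mark 503 [3, 9, 10]
(.spn
(.lp [[3], [1, 7, 9], [0, 2, 4, 5, 6, 8, 10]] [(.mj 3 10, 515), (.mj 6 7, 3091), (.mj 8 3, 1876), (.rw 8, 4)])
(.lp [[3], [1, 7, 9], [0, 2, 4, 5, 6, 8, 10]] [(.mj 6 7, 8), (.mj 9 3, 5), (.mj 9 10, 1), (.hz 4 503, 5134), (.hz 4 1015, 7858), (.hz 4 1527, 3236)])
(.cut 3 [(0, 1), (1, 1), (2, 1), (3, 1), (5, 1), (7, 1)]
(.cut 3 [(0, 1), (1, 1), (2, 1), (3, 1), (5, 1), (7, 1), (23, 1)]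
(.cut 3 [(0, 1), (1, 1), (2, 1), (3, 1), (5, 1), (7, 1), (23, 1), (55, 1)]
(.cut 3 [(0, 1), (1, 1), (2, 1), (3, 1), (5, 1), (7, 1), (23, 1), (55, 1), (119, 1)]
(.lp [[3], [1, 7, 9], [0, 2, 4, 5, 6, 8, 10]] [(.mj 6 7, 944), (.mj 7 8, 472), (.mj 10 3, 2318), (.hz 4 503, 651924), (.rw 9, 3), (.rw 10, 1), (.rw 11, 1), (.rw 12, 3)])))))
.fin))
(.lp [[3], [1, 7, 9], [0, 2, 4, 5, 6, 8]] [(.mj 6 7, 3), (.mj 7 3, 2), (.hz 4 503, 773), (.hz 4 1015, 2040)])))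
(.cut 3 [(0, 1), (1, 1), (2, 1), (3, 1), (5, 1), (7, 1), (23, 1), (55, 1), (119, 1), (183, 1)]
(.lp [[3], [1, 7, 9], [0, 2, 4, 5, 6, 8]] [(.mj 6 7, 1887), (.mj 9 3, 830), (.mj 9 8, 830), (.rw 6, 1), (.rw 8, 3)]))
.fin))
(.haz 3 503 2 25
(.ask 247
(.mark 247 [3, 8, 9]
(.spn
(.haz 8 247 8 25
(.lp [[3], [1, 7, 9], [0, 2, 4, 5, 6, 8]] [(.mj 3 8, 1070), (.mj 6 7, 989), (.mj 7 3, 1070), (.rw 7, 1), (.hz 6 247, 109094), (.hz 6 759, 160432)])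
(.lp [[3], [1, 7, 9], [0, 2, 4, 5, 6, 8]] [(.mj 6 7, 779), (.mj 7 3, 347), (.rw 7, 1), (.hz 6 119, 34777)]))
(.haz 3 247 2 25
(.maj 3 9
(.ask 375
(.mark 503 [3, 9, 10]
(.cut 3 [(0, 1), (1, 1), (2, 1), (3, 1), (5, 1), (7, 1), (23, 1), (55, 1), (119, 1), (183, 1), (247, 1)]
(.lp [[3], [1, 7, 9], [0, 2, 4, 5, 6, 8, 10]] [(.mj 7 8, 156), (.mj 8 3, 329), (.hz 6 759, 262920), (.hz 5 1527, 35384), (.rw 8, 1)])))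
(.cut 9 [(0, 1), (1, 1), (2, 1), (3, 1), (5, 1), (7, 1), (11, 1), (15, 1), (23, 1), (31, 1), (55, 1), (63, 1), (119, 1), (183, 1), (127, 1), (191, 1), (375, 1), (383, 1)]
(.cut 3 [(0, 1), (1, 1), (2, 1), (3, 1), (5, 1), (7, 1), (23, 1), (55, 1), (119, 1), (183, 1), (247, 1)]
(.cut 3 [(0, 1), (1, 1), (2, 1), (3, 1), (5, 1), (7, 1), (23, 1), (55, 1), (119, 1), (183, 1), (247, 1), (375, 1)]
(.lp [[3], [1, 7, 9], [0, 2, 4, 5, 6, 8]] [(.mj 8 3, 52134), (.hz 6 759, 37961486), (.rw 8, 8), (.rw 9, 104), (.rw 10, 70)])))))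
(.cut 3 [(0, 1), (1, 1), (2, 1), (3, 1), (5, 1), (7, 1)]
(.cut 3 [(0, 1), (1, 1), (2, 1), (3, 1), (5, 1), (7, 1), (23, 1)]
(.cut 3 [(0, 1), (1, 1), (2, 1), (3, 1), (5, 1), (7, 1), (23, 1), (55, 1)]
(.cut 3 [(0, 1), (1, 1), (2, 1), (3, 1), (5, 1), (7, 1), (23, 1), (55, 1), (119, 1)]
(.lp [[3], [1, 7, 9], [0, 2, 4, 5, 6, 8]] [(.mj 6 7, 7284), (.mj 7 8, 3642), (.mj 9 3, 16996), (.rw 7, 1), (.hz 5 503, 3824088), (.rw 8, 22), (.rw 9, 8), (.rw 10, 8), (.rw 11, 21)]))))))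
(.cut 3 [(0, 1), (1, 1), (2, 1), (3, 1), (5, 1)]
(.cut 3 [(0, 1), (1, 1), (2, 1), (3, 1), (5, 1), (7, 1)]
(.cut 3 [(0, 1), (1, 1), (2, 1), (3, 1), (5, 1), (7, 1), (23, 1)]
(.cut 3 [(0, 1), (1, 1), (2, 1), (3, 1), (5, 1), (7, 1), (23, 1), (55, 1)]
(.lp [[3], [1, 7, 9], [0, 2, 4, 5, 6, 8]] [(.hz 6 119, 4558392), (.hz 6 183, 4558392), (.rw 8, 5), (.rw 9, 3), (.rw 10, 3), (.rw 11, 38)]))))))
(.cut 3 [(0, 1), (1, 1), (2, 1), (3, 1), (5, 1), (7, 1)]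
(.cut 3 [(0, 1), (1, 1), (2, 1), (3, 1), (5, 1), (7, 1), (23, 1)]
(.cut 3 [(0, 1), (1, 1), (2, 1), (3, 1), (5, 1), (7, 1), (23, 1), (55, 1), (119, 1)]
(.cut 3 [(0, 1), (1, 1), (2, 1), (3, 1), (5, 1), (7, 1), (23, 1), (55, 1), (183, 1)]
(.lp [[3], [1, 7, 9], [0, 2, 4, 5, 6, 8]] [(.mj 9 3, 34704), (.rw 8, 58), (.rw 9, 22), (.rw 10, 22), (.rw 11, 22)])))))
.fin))
(.spn
(.lp [[7], [1, 3], [0, 2, 4, 5, 6, 8]] [(.mj 3 8, 1), (.mj 7 3, 1)])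
(.ask 375
(.mark 375 [3, 7, 9]
(.ask 503
(.mark 503 [3, 9, 10]
(.spn
(.lp [[3], [1, 7, 10], [0, 2, 4, 5, 6, 8, 9]] [(.mj 3 10, 311), (.mj 7 8, 1866), (.mj 8 3, 933), (.rw 8, 2)])
(.lp [[3], [1, 7, 10], [0, 2, 4, 5, 6, 8, 9]] [(.mj 7 8, 4), (.mj 9 3, 3), (.mj 9 10, 1), (.hz 5 503, 1761), (.hz 5 1015, 1434), (.hz 5 1527, 1112)])
(.lp [[3], [1, 7, 10], [0, 2, 4, 5, 6, 8, 9]] [(.mj 7 8, 6), (.mj 10 3, 11), (.hz 5 503, 11092)])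
.fin))
(.lp [[7], [1, 3], [0, 2, 4, 5, 6, 8, 9]] [(.mj 7 8, 2), (.mj 8 3, 2), (.hz 5 503, 737), (.hz 5 1015, 917)])))
(.ask 503
(.maj 3 9
(.ask 503
(.mark 503 [3, 9, 10]
(.spn
(.haz 10 1015 9 50
(.lp [[3], [1, 7, 10], [0, 2, 4, 5, 6, 8, 9]] [(.mj 3 9, 5), (.mj 8 3, 7), (.mj 9 10, 4), (.hz 6 1015, 544), (.hz 5 1527, 5582)])
(.lp [[3], [1, 7, 10], [0, 2, 4, 5, 6, 8, 9]] [(.mj 3 9, 1), (.mj 8 3, 1), (.hz 6 503, 115)]))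
(.con 9 3)
(.con 10 9)
.fin))
(.lp [[7], [1, 3], [0, 2, 4, 5, 6, 8, 9]] [(.mj 3 9, 1), (.mj 8 3, 1)]))
(.lp [[7], [1, 3], [0, 2, 4, 5, 6, 8, 9]] [(.mj 9 3, 4), (.hz 5 503, 3930)]))
(.lp [[7], [1, 3], [0, 2, 4, 5, 6, 8]] [(.mj 8 3, 1)])))
.fin
.fin))
(.cut 3 [(0, 1), (1, 1), (2, 1), (5, 1)]
(.cut 3 [(0, 1), (1, 1), (2, 1), (3, 1), (5, 1), (7, 1)]
(.cut 3 [(0, 1), (1, 1), (2, 1), (3, 1), (5, 1), (7, 1), (23, 1)]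
(.cut 3 [(0, 1), (1, 1), (2, 1), (3, 1), (5, 1), (7, 1), (23, 1), (55, 1)]
(.lp [[7], [1, 3], [0, 2, 4, 5, 6, 8]] [(.hz 5 119, 4558392), (.hz 5 183, 4558392), (.rw 7, 3), (.rw 8, 5), (.rw 9, 3), (.rw 10, 38)])))))))
(.cut 3 [(0, 1), (1, 1), (2, 1), (5, 1)]
(.lp [[7], [1, 3], [0, 2, 4, 5, 6, 8]] [(.hz 4 3, 99234), (.hz 4 7, 49617), (.rw 7, 1)])))
(.ask 375
(.mark 375 [3, 7, 9]
(.spn
(.lp [[7], [1, 3], [0, 2, 4, 5, 6, 8, 9]] [(.mj 8 3, 149), (.rw 7, 1)])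
(.cut 3 [(0, 1), (1, 1), (2, 1), (3, 1), (5, 1), (7, 1)]
(.cut 3 [(0, 1), (1, 1), (2, 1), (3, 1), (5, 1), (7, 1), (23, 1)]
(.cut 3 [(0, 1), (1, 1), (2, 1), (3, 1), (5, 1), (7, 1), (23, 1), (55, 1)]
(.cut 3 [(0, 1), (1, 1), (2, 1), (3, 1), (5, 1), (7, 1), (23, 1), (55, 1), (119, 1), (183, 1), (375, 1)]
(.lp [[7], [1, 3], [0, 2, 4, 5, 6, 8, 9]] [(.mj 7 9, 1222), (.mj 8 7, 480), (.rw 6, 5), (.rw 7, 8), (.rw 8, 11), (.rw 9, 4), (.rw 10, 3), (.rw 11, 4)])))))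
(.ask 183
(.mark 183 [3, 6, 10]
(.cut 3 [(0, 1), (1, 1), (2, 1), (3, 1), (5, 1), (7, 1)]
(.cut 3 [(0, 1), (1, 1), (2, 1), (3, 1), (5, 1), (7, 1), (23, 1)]
(.cut 3 [(0, 1), (1, 1), (2, 1), (3, 1), (5, 1), (7, 1), (23, 1), (55, 1), (119, 1)]
(.cut 3 [(0, 1), (1, 1), (2, 1), (3, 1), (5, 1), (7, 1), (23, 1), (55, 1), (183, 1)]
(.lp [[3], [1, 7, 10], [0, 2, 4, 5, 6, 8, 9]] [(.mj 9 3, 34704), (.rw 8, 58), (.rw 9, 22), (.rw 10, 22), (.rw 11, 22)]))))))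
(.cut 3 [(0, 1), (1, 1), (2, 1), (3, 1), (5, 1), (7, 1)]
(.cut 3 [(0, 1), (1, 1), (2, 1), (3, 1), (5, 1), (7, 1), (23, 1)]
(.cut 3 [(0, 1), (1, 1), (2, 1), (3, 1), (5, 1), (7, 1), (23, 1), (55, 1), (119, 1)]
(.cut 3 [(0, 1), (1, 1), (2, 1), (3, 1), (5, 1), (7, 1), (23, 1), (55, 1), (183, 1)]
(.lp [[7], [1, 3], [0, 2, 4, 5, 6, 8, 9]] [(.mj 9 3, 34704), (.rw 8, 58), (.rw 9, 22), (.rw 10, 22), (.rw 11, 22)]))))))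
.fin))
(.lp [[7], [1, 3], [0, 2, 4, 5, 6, 8]] [(.mj 8 7, 1), (.rw 6, 1)]))
.fin))
(.lp [[7], [1, 3], [0, 2, 4, 5, 6]] [(.mj 6 7, 1655), (.rw 5, 2)]))
(.con 7 6)
.fin))

theorem run258 : run P3488 (leaf3 218 625) (cutRow P3488) [] t258 s258 = true := by
  decide +kernel

theorem bad258 : Bad P3488 s258 :=
  run_sound (leaf3_sound P3488 rfl rfl) (cutRow_sound P3488) (
    fun _ h => absurd h List.not_mem_nil) t258 s258 run258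

/-- the state above piece 237 of the tree -/
def s237 : St := ⟨[0, 0, 1, 3, 5, 15, 31, 31, 47, 127], [191, 159, 127, 95, 63, 31, 23, 21, 15, 11, 7, 5, 3, 2, 1, 0], [0, 1, 2, 3, 4, 5, 6, 7],
  [(8, 9), (4, 5)],
  [⟨true, 2, 3, 3, 10⟩, ⟨true, 1, 5, 2, 5⟩, ⟨true, 2, 3, 23, 50⟩, ⟨true, 1, 5, 12, 25⟩, ⟨true, 1, 21, 27, 50⟩, ⟨true, 4, 15, 9, 40⟩, ⟨true, 3, 23, 11, 20⟩, ⟨true, 4, 47, 7, 20⟩, ⟨true, 4, 47, 17, 40⟩, ⟨true, 4, 47, 9, 20⟩, ⟨true, 4, 47, 19, 40⟩, ⟨true, 5, 31, 3, 10⟩, ⟨true, 4, 47, 3, 5⟩, ⟨true, 4, 47, 5, 8⟩, ⟨true, 6, 159, 1, 10⟩, ⟨true, 6, 159, 1, 4⟩, ⟨true, 6, 319, 11, 40⟩, ⟨true, 5, 159, 7, 20⟩, ⟨true, 8, 255, 3, 40⟩, ⟨true, 7, 319, 1, 8⟩, ⟨true, 7, 639, 1, 10⟩, ⟨true, 7, 639, 3, 20⟩, ⟨true, 7, 639, 7, 40⟩, ⟨true, 8, 639, 3, 40⟩, ⟨true, 6, 447, 21, 40⟩, ⟨true, 7, 639, 9, 40⟩],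
  [.spn 0 0 651200, .spn 1 1 302400, .spn 3 2 302400, .spn 7 3 302400, .spn 15 4 302400, .spn 31 5 140426, .spn 63 6 140426, .spn 127 7 62723]⟩

/-- piece 237 of the tree -/
noncomputable def t237 : WN.Tree :=
(.ask 223
(.mark 255 [8, 9, 10]
(.spn
(.haz 9 1279 1 5
(.haz 10 511 7 50
(.haz 10 767 9 50
(.haz 10 767 6 25
(.ask 303
(.mark 511 [9, 10, 11]
(.spn
(.ask 639
(.mark 1023 [10, 11, 12]
(.lp [[7, 10], [1, 3, 5, 8, 11], [0, 2, 4, 6, 9, 12]] [(.mj 0 1, 966), (.mj 5 6, 30), (.mj 6 7, 13), (.mj 7 8, 3), (.mj 8 9, 9), (.mj 9 10, 3), (.hz 26 1279, 82379), (.hz 25 4735, 753), (.hz 29 4863, 13787)]))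
(.lp [[7, 10], [0, 2, 4, 6, 9], [1, 3, 5, 8, 11]] [(.mj 0 1, 900), (.mj 5 6, 48), (.mj 6 7, 28), (.mj 7 8, 14), (.mj 8 9, 6), (.hz 29 767, 12000)]))
(.lp [[7, 10], [0, 2, 4, 6, 9], [1, 3, 5, 8, 11]] [(.mj 0 1, 360), (.mj 5 6, 13), (.mj 6 7, 6), (.mj 10 9, 2), (.hz 25 639, 1279), (.hz 23 639, 167), (.hz 19 2367, 19920), (.hz 26 1535, 32039)])
(.lp [[7, 10], [0, 2, 4, 6, 9], [1, 3, 5, 8, 11]] [(.mj 0 1, 262), (.mj 5 6, 6), (.mj 6 7, 3), (.mj 11 9, 2), (.mj 11 10, 1), (.hz 25 639, 332), (.hz 23 639, 639), (.hz 26 1279, 33109)])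
.fin))
(.haz 9 511 9 50
(.ask 319
(.mark 511 [9, 10, 11]
(.spn
(.ask 639
(.mark 1023 [10, 11, 12]
(.spn
(.ask 4735
(.mark 5119 [10, 11, 13]
(.lp [[7, 10], [1, 3, 5, 8, 11], [0, 2, 4, 6, 9, 12, 13]] [(.mj 0 1, 33647), (.mj 5 6, 1147), (.mj 6 7, 420), (.mj 7 8, 125), (.mj 8 9, 228), (.mj 9 10, 67), (.hz 26 1279, 1741329), (.hz 29 4863, 228492), (.hz 25 12927, 64358), (.hz 23 12927, 43071), (.hz 29 3071, 514821), (.hz 29 13055, 47315)]))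
(.lp [[7, 10], [1, 3, 5, 8, 11], [0, 2, 4, 6, 9, 12]] [(.mj 0 1, 3815), (.mj 5 6, 165), (.mj 6 7, 74), (.mj 7 8, 31), (.mj 8 9, 23), (.mj 9 10, 5), (.hz 19 2367, 128544), (.hz 29 767, 50525), (.hz 29 4863, 6053), (.hz 29 3071, 25220)]))
(.lp [[7, 10], [1, 3, 5, 8, 11], [0, 2, 4, 6, 9, 12]] [(.mj 0 1, 874), (.mj 5 6, 21), (.mj 6 7, 9), (.mj 7 8, 2), (.mj 8 9, 7), (.mj 11 10, 4), (.hz 26 1279, 101839), (.hz 25 4735, 1476), (.hz 29 1023, 26661), (.hz 29 4863, 9184), (.hz 29 3071, 5380), (.hz 29 5119, 10535)])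
(.lp [[7, 10], [1, 3, 5, 8, 11], [0, 2, 4, 6, 9, 12]] [(.mj 0 1, 702), (.mj 5 6, 18), (.mj 6 7, 9), (.mj 7 8, 3), (.mj 8 9, 7), (.mj 12 10, 3), (.hz 27 511, 1304), (.hz 26 1279, 113133), (.hz 25 4735, 1126), (.hz 29 1023, 20070), (.hz 29 3071, 4118)])
.fin))
(.lp [[7, 10], [0, 2, 4, 6, 9], [1, 3, 5, 8, 11]] [(.mj 0 1, 665), (.mj 5 6, 35), (.mj 6 7, 20), (.mj 7 8, 10), (.mj 8 9, 4), (.hz 19 2367, 53206), (.hz 29 767, 8448)]))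
(.lp [[7, 10], [0, 2, 4, 6, 9], [1, 3, 5, 8, 11]] [(.mj 0 1, 1505), (.mj 5 6, 52), (.mj 6 7, 19), (.mj 10 9, 6), (.hz 25 639, 2709), (.hz 23 639, 1783), (.hz 19 2367, 52110), (.hz 30 511, 10894)])
(.lp [[7, 10], [0, 2, 4, 6, 9], [1, 3, 5, 8, 11]] [(.mj 0 1, 948), (.mj 5 6, 26), (.mj 6 7, 9), (.mj 11 9, 5), (.mj 11 10, 2), (.hz 25 639, 489), (.hz 23 639, 2265), (.hz 26 1279, 73407)])
.fin))
(.haz 8 639 11 50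
(.ask 639
(.ask 383
(.mark 511 [9, 10, 12]
(.spn
(.mark 1023 [10, 11, 12]
(.spn
(.ask 1247
(.mark 1535 [9, 12, 13]
(.lp [[7, 10, 13], [1, 3, 5, 8, 12], [0, 2, 4, 6, 9, 11]] [(.mj 5 6, 18385), (.mj 6 7, 26491), (.mj 7 8, 23513), (.mj 8 9, 9633), (.mj 9 10, 820), (.rw 10, 1), (.hz 31 639, 4750289), (.hz 25 2687, 2903175), (.hz 31 2687, 6760077), (.hz 30 4607, 454026), (.hz 31 2815, 454026), (.hz 29 2815, 14057535), (.hz 26 9471, 210169710)]))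
(.ask 1279
(.mark 2047 [11, 12, 13]
(.lp [[7, 10, 13], [1, 3, 5, 8, 12], [0, 2, 4, 6, 9, 11]] [(.mj 5 6, 78294), (.mj 6 7, 158668), (.mj 7 8, 151099), (.mj 8 9, 75109), (.mj 9 10, 20895), (.rw 10, 10), (.hz 25 2687, 14879406), (.hz 31 2687, 69019594), (.hz 30 4607, 35613728), (.hz 27 4607, 49626293), (.hz 31 2815, 10035233), (.hz 29 2815, 99007363), (.hz 26 9471, 1264905904)]))
(.lp [[7, 10], [1, 3, 5, 8, 12], [0, 2, 4, 6, 9, 11]] [(.mj 0 1, 3711), (.mj 6 7, 33), (.mj 8 9, 28), (.mj 9 10, 14), (.mj 10 11, 1), (.hz 31 639, 830), (.hz 29 767, 279), (.hz 31 2687, 1391), (.hz 29 2815, 5777)])))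
(.lp [[7, 10], [1, 3, 5, 8, 12], [0, 2, 4, 6, 9, 11]] [(.mj 7 8, 5), (.mj 8 9, 4), (.mj 11 10, 6), (.mj 11 12, 1), (.hz 27 511, 3955), (.hz 29 767, 19098), (.hz 25 2687, 574), (.hz 31 2687, 1734), (.hz 29 1023, 38406), (.hz 30 4607, 12938), (.hz 27 4607, 14060), (.hz 29 5119, 78955)])
(.lp [[7, 10], [1, 3, 5, 8, 12], [0, 2, 4, 6, 9, 11]] [(.mj 7 8, 11), (.mj 12 10, 7), (.mj 12 11, 1), (.hz 31 639, 486), (.hz 27 511, 9572), (.hz 29 767, 281), (.hz 31 2687, 6903), (.hz 29 1023, 47647), (.hz 30 4607, 3780), (.hz 31 2815, 2621), (.hz 29 2815, 45263), (.hz 31 3839, 50898)])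
.fin))
(.mark 895 [7, 11, 12]
(.lp [[7, 10], [1, 3, 5, 8, 12], [0, 2, 4, 6, 9, 11]] [(.mj 5 6, 23), (.mj 6 7, 16), (.mj 7 8, 16), (.mj 10 9, 4), (.hz 31 639, 7670), (.hz 30 511, 4856), (.hz 26 1279, 551), (.hz 25 2687, 69), (.hz 31 2687, 2532)]))
(.mark 639 [7, 8, 11]
(.lp [[7, 10], [1, 3, 5, 8, 12], [0, 2, 4, 6, 9, 11]] [(.mj 5 6, 5), (.mj 6 7, 4), (.mj 7 8, 4), (.mj 12 9, 1), (.hz 31 639, 1491), (.hz 30 511, 1622), (.hz 31 767, 414), (.hz 26 1279, 11277), (.hz 31 2687, 1172)]))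
.fin))
(.mark 639 [7, 8, 11]
(.lp [[7, 10], [1, 3, 5, 8], [0, 2, 4, 6, 9, 11]] [(.mj 5 6, 47), (.mj 6 7, 160), (.mj 7 8, 80), (.mj 8 9, 69), (.hz 26 1279, 955402), (.hz 25 895, 31041), (.hz 25 2687, 31041), (.hz 31 2687, 23044)])))
(.lp [[7, 10], [1, 3, 5, 8], [0, 2, 4, 6, 9]] [(.mj 5 6, 53), (.mj 6 7, 43), (.mj 7 8, 39), (.mj 8 9, 9), (.hz 31 639, 6904), (.hz 29 767, 19160)]))
(.lp [[7, 10], [1, 3, 5, 8], [0, 2, 4, 6, 9]] [(.mj 5 6, 3), (.mj 6 7, 4), (.mj 8 9, 2), (.hz 31 127, 1741), (.hz 25 639, 2179), (.hz 29 767, 4168)])))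
(.lp [[7, 10], [1, 3, 5, 8], [0, 2, 4, 6, 9]] [(.mj 0 1, 279), (.mj 5 6, 17), (.mj 6 7, 9), (.mj 7 8, 6), (.hz 30 127, 1748), (.hz 30 255, 1388)])))
(.lp [[7, 10], [1, 3, 5, 8], [0, 2, 4, 6, 9]] [(.mj 0 1, 1966), (.mj 6 7, 29), (.mj 8 9, 17), (.hz 29 223, 19061), (.hz 29 255, 30683), (.hz 25 639, 1898), (.hz 28 767, 17554)]))
(.lp [[7, 10], [1, 3, 5, 8], [0, 2, 4, 6, 9]] [(.mj 0 1, 529), (.mj 6 7, 7), (.mj 8 9, 5), (.hz 28 223, 2474), (.hz 28 255, 2758), (.hz 25 639, 147), (.hz 26 1279, 49535)]))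
(.lp [[7, 10], [1, 3, 5, 8], [0, 2, 4, 6, 9]] [(.mj 0 1, 297), (.mj 6 7, 4), (.mj 8 9, 3), (.hz 27 223, 1333), (.hz 27 255, 2077), (.hz 25 639, 105)]))
(.lp [[7, 10], [1, 3, 5, 8], [0, 2, 4, 6, 9]] [(.mj 0 1, 100), (.mj 5 6, 6), (.mj 6 7, 3), (.mj 7 8, 2), (.hz 26 127, 5861), (.hz 26 255, 5066), (.hz 23 639, 792)]))
(.con 9 8)
(.lp [[7, 10], [1, 3, 5, 8], [0, 2, 4, 6, 9]] [(.mj 0 1, 445), (.mj 5 6, 30), (.mj 6 7, 4), (.mj 10 8, 6), (.mj 10 9, 3), (.hz 16 319, 616), (.hz 23 639, 3621), (.hz 24 447, 2469)])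
.fin))
(.ask 255
(.mark 255 [8, 9, 10]
(.spn
(.haz 9 1279 7 50
(.haz 9 511 4 25
(.haz 9 255 8 25
(.lp [[7, 10], [1, 3, 5, 8], [0, 2, 4, 6, 9]] [(.mj 0 1, 1038), (.mj 6 7, 11), (.mj 8 9, 10), (.mj 8 10, 3), (.hz 28 255, 3482), (.hz 28 1279, 22149)])
(.haz 9 1279 6 25
(.ask 1279
(.mark 1279 [8, 9, 11]
(.lp [[6, 9], [1, 3, 5, 8], [0, 2, 4, 7, 10, 11]] [(.mj 0 1, 6523), (.mj 6 7, 81), (.mj 8 9, 46), (.mj 8 10, 20), (.hz 28 127, 9931), (.hz 29 1279, 99507), (.hz 29 1535, 14245), (.hz 29 3327, 73599)]))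
(.lp [[7, 10], [1, 3, 5, 8], [0, 2, 4, 6, 9]] [(.mj 0 1, 560), (.mj 6 7, 8), (.mj 8 9, 3), (.hz 28 127, 1367), (.hz 29 1535, 4107)]))
(.lp [[7, 10], [1, 3, 5, 8], [0, 2, 4, 6, 9]] [(.mj 0 1, 404), (.mj 6 7, 5), (.mj 8 10, 3), (.hz 29 127, 2429), (.hz 29 255, 5782), (.hz 26 1279, 3302)])))
(.lp [[7, 10], [1, 3, 5, 8], [0, 2, 4, 6, 9]] [(.mj 0 1, 290), (.mj 6 7, 3), (.mj 8 10, 2), (.hz 27 127, 1675), (.hz 27 255, 3919), (.hz 26 1279, 2238)]))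
(.lp [[7, 10], [1, 3, 5, 8], [0, 2, 4, 6, 9]] [(.mj 0 1, 456), (.mj 6 7, 5), (.mj 8 10, 4), (.hz 26 127, 1303), (.hz 26 255, 3037)]))
(.con 9 8)
(.haz 7 639 9 25
(.cut 8 [(0, 1), (1, 1), (2, 1), (3, 1), (5, 1), (7, 1), (11, 1), (21, 1), (15, 1), (23, 1), (31, 1), (47, 1), (63, 1), (95, 1), (159, 1), (127, 1), (191, 1), (223, 1), (255, 1)]
(.lp [[7, 10], [1, 3, 5, 8], [0, 2, 4, 6, 9]] [(.mj 6 7, 17198), (.mj 10 8, 5540), (.rw 8, 2), (.hz 26 639, 8184814), (.hz 23 639, 1990901), (.hz 18 767, 27416395), (.rw 9, 12)]))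
(.lp [[7, 10], [1, 3, 5, 8], [0, 2, 4, 6, 9]] [(.mj 5 6, 831), (.rw 8, 2), (.hz 26 127, 4877518), (.hz 19 319, 2969675), (.hz 19 383, 15467056), (.hz 25 639, 3093411)]))
.fin))
(.lp [[7], [1, 3, 5, 8], [0, 2, 4, 6, 9]] [(.mj 0 1, 121), (.mj 6 7, 1), (.mj 8 9, 1), (.hz 25 639, 128)])))

theorem run237 : run P3488 (leaf3 218 625) (cutRow P3488) [] t237 s237 = true := by
  decide +kernel

theorem bad237 : Bad P3488 s237 :=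
  run_sound (leaf3_sound P3488 rfl rfl) (cutRow_sound P3488) (
    fun _ h => absurd h List.not_mem_nil) t237 s237 run237

/-- the state above piece 174 of the tree -/
def s174 : St := ⟨[0, 0, 1, 3, 5, 15, 21, 31, 47, 191, 303, 703], [447, 191, 159, 63, 31, 23, 21, 15, 11, 7, 5, 3, 2, 1, 0], [0, 1, 2, 3, 4, 5, 7, 8, 9],
  [(5, 6), (4, 5)],
  [⟨true, 2, 3, 3, 10⟩, ⟨true, 1, 5, 2, 5⟩, ⟨true, 2, 3, 23, 50⟩, ⟨true, 1, 5, 12, 25⟩, ⟨true, 1, 21, 27, 50⟩, ⟨true, 4, 15, 9, 40⟩, ⟨true, 3, 23, 11, 20⟩, ⟨true, 4, 47, 7, 20⟩, ⟨true, 4, 47, 17, 40⟩, ⟨true, 4, 47, 9, 20⟩, ⟨true, 4, 47, 19, 40⟩, ⟨true, 3, 87, 27, 40⟩, ⟨true, 5, 95, 1, 4⟩, ⟨true, 5, 159, 1, 4⟩, ⟨true, 7, 127, 7, 40⟩, ⟨true, 7, 95, 1, 5⟩, ⟨true, 8, 127, 9, 50⟩, ⟨true, 5, 95, 2, 5⟩, ⟨true, 6, 191, 3, 50⟩, ⟨true, 4, 303, 13, 25⟩, ⟨true, 5, 95, 12, 25⟩, ⟨true,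 7, 1343, 9, 40⟩, ⟨true, 7, 127, 17, 40⟩, ⟨true, 9, 1471, 3, 8⟩, ⟨true, 7, 1343, 7, 20⟩, ⟨true, 7, 1343, 2, 5⟩, ⟨true, 8, 703, 3, 10⟩],
  [.spn 0 0 651200, .spn 1 1 302400, .spn 3 2 302400, .spn 7 3 302400, .spn 15 4 302400, .spn 31 5 140426, .spn 63 7 140426, .spn 191 8 140426, .spn 447 9 140426]⟩

/-- piece 174 of the tree -/
noncomputable def t174 : WN.Tree :=
(.mark 959 [6, 10, 11]
(.spn
(.haz 10 959 1 5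
(.ask 85
(.mark 1023 [10, 11, 12]
(.lp [[6, 12], [1, 3, 5, 8, 10], [0, 2, 4, 7, 9, 11]] [(.mj 6 10, 1046), (.mj 7 8, 506), (.mj 8 9, 2360), (.mj 9 6, 1618), (.rw 9, 4), (.hz 23 1471, 2422917), (.hz 27 3007, 11508856)]))
(.ask 87
(.mark 1023 [10, 11, 12]
(.lp [[6, 12], [1, 3, 5, 8, 10], [0, 2, 4, 7, 9, 11]] [(.mj 6 10, 1046), (.mj 7 8, 506), (.mj 8 9, 2360), (.mj 9 6, 1618), (.rw 9, 4), (.hz 23 1471, 2422917), (.hz 27 3007, 11508856)]))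
(.haz 10 3007 1 4
(.lp [[6], [1, 3, 5, 8, 10], [0, 2, 4, 7, 9, 11]] [(.mj 6 10, 5515), (.mj 6 11, 1910), (.mj 7 8, 822), (.mj 8 9, 3836), (.mj 9 6, 6337), (.rw 9, 1), (.hz 23 1471, 3939065), (.hz 18 2751, 2829616), (.hz 27 1023, 82903661), (.hz 28 3007, 114931250)])
(.lp [[6], [1, 3, 5, 8, 10], [0, 2, 4, 7, 9, 11]] [(.mj 0 1, 113), (.mj 6 11, 13), (.mj 9 6, 18), (.hz 28 303, 5505), (.hz 28 319, 36861), (.hz 28 447, 102685), (.hz 28 959, 190450), (.hz 18 2751, 1388), (.hz 27 1023, 313779), (.hz 27 3007, 210666)]))))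
(.lp [[6], [1, 3, 5, 8, 10], [0, 2, 4, 7, 9, 11]] [(.mj 8 9, 59332), (.mj 9 6, 31556), (.rw 9, 41), (.hz 27 303, 21586836), (.hz 27 319, 87426685), (.hz 27 447, 181862666), (.hz 27 959, 140123545), (.hz 18 1471, 35626845), (.hz 18 2751, 81639346)]))
(.haz 6 319 3 40
(.haz 8 2751 7 20
(.haz 10 3007 1 4
(.haz 10 3071 3 8
(.ask 1327
(.mark 1983 [6, 11, 12]
(.spn
(.lp [[6], [0, 2, 4, 7, 9, 11], [1, 3, 5, 8, 10, 12]] [(.mj 6 11, 2143), (.mj 9 10, 5098), (.mj 10 6, 2143), (.rw 9, 3), (.rw 10, 5)])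
(.lp [[6], [0, 2, 4, 7, 9, 11], [1, 3, 5, 8, 10, 12]] [(.mj 7 8, 20), (.mj 10 11, 15), (.mj 11 6, 19), (.hz 27 319, 15885), (.hz 27 447, 7710), (.hz 27 1343, 9400), (.hz 27 959, 8335), (.hz 27 1471, 18496), (.hz 18 2751, 17767), (.hz 28 2751, 1156), (.hz 27 5439, 11852), (.hz 27 1983, 29007), (.hz 27 3007, 84142), (.hz 27 5567, 32809), (.hz 27 6079, 66827)])
(.lp [[6], [0, 2, 4, 7, 9, 11], [1, 3, 5, 8, 10, 12]] [(.mj 7 8, 1977), (.mj 12 6, 1213), (.mj 12 11, 542), (.rw 9, 1), (.hz 27 319, 1569191), (.hz 27 447, 761586), (.hz 27 1343, 928521), (.hz 27 959, 823336), (.hz 27 1471, 1827142), (.hz 18 2751, 1005969), (.hz 28 2751, 946794), (.hz 27 1983, 1373431), (.hz 27 3007, 4420462)])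
.fin))
(.maj 6 11
(.cut 6 [(0, 1), (1, 1), (2, 1), (3, 1), (5, 1), (7, 1), (11, 1), (21, 1), (15, 1), (23, 1), (31, 1), (47, 1), (63, 1), (159, 1), (303, 1), (191, 1), (319, 1), (1327, 1), (447, 1), (703, 1), (1343, 1), (959, 1), (1471, 1)]
(.cut 6 [(0, 1), (1, 1), (2, 1), (3, 1), (5, 1), (7, 1), (11, 1), (21, 1), (15, 1), (23, 1), (31, 1), (47, 1), (63, 1), (159, 1), (303, 1), (191, 1), (319, 1), (1327, 1), (447, 1), (703, 1), (959, 1)]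
(.lp [[6], [1, 3, 5, 8, 10], [0, 2, 4, 7, 9, 11]] [(.mj 0 1, 13646), (.mj 7 8, 11723), (.mj 8 9, 1549), (.mj 10 6, 10716), (.hz 18 2751, 10417146), (.hz 28 2751, 4613997), (.hz 27 3007, 56661888), (.rw 10, 1), (.rw 11, 24)])))
(.haz 11 959 2 5
(.cut 6 [(0, 1), (1, 1), (2, 1), (3, 1), (5, 1), (7, 1), (11, 1), (21, 1), (15, 1), (23, 1), (31, 1), (47, 1), (63, 1), (159, 1), (303, 1), (191, 1), (319, 1), (1327, 1), (447, 1), (703, 1), (959, 1)]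
(.lp [[6], [1, 3, 5, 8, 10], [0, 2, 4, 7, 9, 11]] [(.mj 0 1, 33), (.mj 7 8, 596), (.mj 10 11, 367), (.mj 11 6, 373), (.hz 4 85, 131), (.hz 27 959, 33661), (.hz 31 959, 3410512), (.hz 28 2815, 213023), (.hz 27 3007, 1016012), (.rw 10, 1)]))
(.cut 6 [(0, 1), (1, 1), (2, 1), (3, 1), (5, 1), (7, 1), (11, 1), (21, 1), (15, 1), (23, 1), (31, 1), (47, 1), (63, 1), (159, 1), (303, 1), (191, 1), (319, 1), (1327, 1), (447, 1), (703, 1), (1343, 1), (959, 1), (1471, 1)]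
(.cut 6 [(0, 1), (1, 1), (2, 1), (3, 1), (5, 1), (7, 1), (11, 1), (21, 1), (15, 1), (23, 1), (31, 1), (47, 1), (63, 1), (159, 1), (303, 1), (191, 1), (319, 1), (1327, 1), (447, 1), (703, 1), (959, 1)]
(.lp [[6], [1, 3, 5, 8, 10], [0, 2, 4, 7, 9, 11]] [(.mj 7 8, 13895), (.mj 8 9, 623), (.mj 10 11, 3350), (.mj 11 6, 7912), (.hz 27 319, 11031800), (.hz 27 447, 5354134), (.hz 31 703, 18878775), (.hz 27 1343, 689967), (.hz 27 1471, 1563847), (.hz 28 2815, 7336194), (.rw 10, 2), (.rw 11, 9)]))))))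
(.lp [[6], [1, 3, 5, 8, 10], [0, 2, 4, 7, 9, 11]] [(.mj 7 8, 1988), (.mj 10 6, 1592), (.mj 10 11, 1592), (.rw 9, 1), (.hz 27 319, 1242291), (.hz 27 1343, 597406), (.hz 30 959, 22366814), (.hz 27 1471, 994157), (.hz 27 3007, 13255432)]))
(.lp [[6], [1, 3, 5, 8, 10], [0, 2, 4, 7, 9, 11]] [(.mj 8 9, 552), (.mj 10 11, 464), (.rw 9, 2), (.hz 29 959, 41387181)]))
(.lp [[6], [1, 3, 5, 8, 10], [0, 2, 4, 7, 9, 11]] [(.mj 8 9, 912), (.mj 10 11, 133), (.rw 9, 2), (.hz 28 703, 7897180), (.hz 27 959, 3128947), (.hz 18 2751, 161289), (.hz 26 2751, 13258839), (.hz 27 3007, 675501)]))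
(.lp [[6], [1, 3, 5, 8, 10], [0, 2, 4, 7, 9, 11]] [(.mj 0 1, 516), (.mj 8 9, 5), (.mj 10 11, 2), (.hz 27 21, 3084), (.hz 27 23, 3864), (.hz 27 31, 4685), (.hz 27 63, 1105), (.hz 18 447, 235), (.hz 18 703, 3967), (.hz 18 1471, 9709), (.hz 18 2751, 2171), (.hz 18 3007, 7273)]))
(.haz 10 447 13 40
(.lp [[6], [1, 3, 5, 8, 10], [0, 2, 4, 7, 9, 11]] [(.mj 8 9, 6), (.mj 11 6, 7), (.mj 11 10, 7), (.hz 19 1327, 26), (.hz 18 447, 755), (.hz 27 447, 2729), (.hz 18 703, 7219), (.hz 25 1343, 965), (.hz 18 959, 5772), (.hz 27 959, 10109), (.hz 18 1471, 26356), (.hz 18 1983, 40053)])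
(.maj 6 10
(.cut 6 [(0, 1), (1, 1), (2, 1), (3, 1), (5, 1), (7, 1), (11, 1), (21, 1), (15, 1), (23, 1), (31, 1), (47, 1), (63, 1), (159, 1), (303, 1), (191, 1), (319, 1), (447, 1), (703, 1), (959, 1)]
(.lp [[6], [1, 3, 5, 8, 10], [0, 2, 4, 7, 9, 11]] [(.mj 7 8, 83), (.mj 8 9, 679), (.mj 11 6, 328), (.mj 11 10, 124), (.hz 27 303, 13952), (.hz 27 319, 59733), (.hz 27 447, 116427), (.hz 18 1471, 724555), (.rw 10, 1)]))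
(.ask 2751
(.mark 3007 [6, 10, 12]
(.lp [[6], [1, 3, 5, 8, 10], [0, 2, 4, 7, 9, 11, 12]] [(.mj 7 8, 12), (.mj 8 9, 167), (.mj 10 6, 157), (.mj 11 10, 113), (.hz 27 303, 3674), (.hz 27 319, 15730), (.hz 18 703, 215348), (.hz 18 959, 62531), (.hz 18 1471, 298119), (.hz 23 1471, 122312), (.hz 18 2751, 64807), (.hz 18 1983, 494995), (.hz 18 3007, 135466), (.hz 18 6847, 68944), (.hz 18 7103, 217458)]))
(.ask 3007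
(.mark 3007 [6, 10, 12]
(.spn
(.con 6 10)
(.cut 6 [(0, 1), (1, 1), (2, 1), (3, 1), (5, 1), (7, 1), (11, 1), (21, 1), (15, 1), (23, 1), (31, 1), (47, 1), (63, 1), (159, 1), (303, 1), (191, 1), (319, 1), (1327, 1), (447, 1), (703, 1), (2751, 1)]
(.cut 6 [(0, 1), (1, 1), (2, 1), (3, 1), (5, 1), (7, 1), (11, 1), (21, 1), (15, 1), (23, 1), (31, 1), (47, 1), (63, 1), (159, 1), (303, 1), (191, 1), (319, 1), (1327, 1), (447, 1), (703, 1), (959, 1), (2751, 1), (3007, 1)]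
(.lp [[6], [1, 3, 5, 8, 10], [0, 2, 4, 7, 9, 11, 12]] [(.mj 8 9, 13499), (.mj 10 6, 21901), (.mj 10 12, 12945), (.mj 11 10, 40969), (.rw 10, 9), (.hz 19 1327, 23834560), (.hz 18 703, 17412041), (.hz 22 1407, 33519917), (.rw 11, 4), (.rw 12, 70)])))
(.cut 10 [(0, 1), (1, 1), (2, 1), (3, 1), (5, 1), (7, 1), (11, 1), (21, 1), (15, 1), (23, 1), (31, 1), (47, 1), (63, 1), (159, 1), (303, 1), (191, 1), (319, 1), (447, 1), (703, 1), (959, 1), (2751, 1)]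
(.lp [[6], [1, 3, 5, 8, 10], [0, 2, 4, 7, 9, 11, 12]] [(.mj 8 9, 3950), (.rw 10, 2), (.hz 18 703, 5095568), (.hz 18 959, 1533476), (.hz 18 2751, 1533476), (.hz 18 3007, 3262716), (.rw 11, 3)]))
.fin))
(.lp [[6], [1, 3, 5, 8, 10], [0, 2, 4, 7, 9, 11]] [(.mj 10 6, 2), (.mj 11 10, 3)])))))
.fin))

theorem run174 : run P3488 (leaf3 218 625) (cutRow P3488) [] t174 s174 = true := by
  decide +kernel

theorem bad174 : Bad P3488 s174 :=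
  run_sound (leaf3_sound P3488 rfl rfl) (cutRow_sound P3488) (
    fun _ h => absurd h List.not_mem_nil) t174 s174 run174

end Pool.Agent.WN.Data
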