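import Pool.Agent.WN.CutRow
import Pool.Agent.WN.LeafRow
import Pool.Agent.Helper99.WN.ParDef

/-!
# The search tree, part 0
-/

set_option autoImplicit false

namespace Pool.Agent.WN.Data

open Pool.Agent.W3 Pool.Agent.WN Pool.Agent.Helper99.WN

/-- the state above piece 27 of the tree -/
def s27 : St := ⟨[0, 0, 1, 1, 3, 7, 15, 39], [47, 15, 13, 11, 9, 7, 5, 3, 2, 1, 0], [0, 1, 2, 3, 5, 6],
  [],
  [⟨true, 1, 9, 7, 50⟩, ⟨true, 2, 11, 3, 50⟩, ⟨true, 2, 9, 9, 50⟩, ⟨true, 3, 3, 1, 5⟩, ⟨true, 1, 5, 13, 50⟩, ⟨true, 5, 31, 1, 8⟩, ⟨true, 4, 39, 1, 20⟩, ⟨true, 3, 167, 1, 4⟩, ⟨true, 3, 167, 3, 10⟩],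
  [.spn 0 0 651200, .spn 1 1 140426, .spn 3 2 140426, .spn 7 3 62723, .spn 15 5 140426, .spn 47 6 140426]⟩

/-- piece 27 of the tree -/
noncomputable def t27 : WN.Tree :=
(.haz 3 23 3 10
(.haz 3 167 7 20
(.haz 6 175 3 10
(.ask 79
(.mark 111 [4, 7, 8]
(.spn
(.haz 7 111 3 10
(.lp [[1, 4], [3, 6, 8], [0, 2, 5, 7]] [(.mj 4 7, 2027), (.mj 5 6, 2122), (.mj 6 4, 2122), (.rw 6, 1), (.hz 6 167, 177876), (.hz 12 111, 1044332), (.hz 11 175, 217404), (.hz 12 127, 1899068), (.hz 6 367, 1193728), (.hz 12 367, 3421096)])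
(.haz 8 239 2 5
(.lp [[1, 4], [3, 6, 8], [0, 2, 5, 7]] [(.mj 2 3, 866), (.mj 4 8, 728), (.mj 5 6, 730), (.mj 6 4, 1245), (.hz 12 39, 316891), (.hz 12 47, 971830), (.hz 9 55, 316891), (.hz 6 167, 116749), (.hz 12 111, 666556), (.hz 6 175, 544829), (.hz 13 239, 3004162), (.hz 6 367, 795210)])
(.lp [[1, 4], [3, 6, 8], [0, 2, 5, 7]] [(.mj 2 3, 3), (.mj 5 6, 1), (.mj 6 4, 3), (.hz 12 39, 651), (.hz 12 47, 1459), (.hz 6 167, 278), (.hz 12 111, 5689), (.hz 13 111, 11379), (.hz 6 175, 2473)])))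
(.ask 167
(.mark 239 [4, 8, 9]
(.spn
(.ask 335
(.mark 495 [4, 9, 10]
(.lp [[1, 4], [3, 6, 8, 10], [0, 2, 5, 7, 9]] [(.mj 2 3, 567), (.mj 4 8, 36), (.mj 5 6, 208), (.mj 6 7, 452), (.mj 7 4, 528), (.rw 7, 1), (.hz 10 679, 5106), (.hz 6 679, 105980), (.hz 6 367, 1733371), (.hz 6 687, 978882), (.hz 6 1391, 1353219)]))
(.lp [[1, 4], [3, 6, 8], [0, 2, 5, 7, 9]] [(.mj 2 3, 11065), (.mj 4 8, 928), (.mj 6 7, 5460), (.mj 7 4, 7268), (.rw 7, 14), (.hz 10 679, 313415), (.hz 6 679, 1195537), (.hz 6 367, 23999625), (.hz 6 687, 13552902)]))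
(.maj 4 9
(.cut 4 [(0, 1), (1, 1), (2, 1), (3, 1), (5, 1), (9, 1), (7, 1), (11, 1), (13, 1), (15, 1), (39, 1), (47, 1), (79, 1), (167, 1), (111, 1), (175, 1), (239, 1)]
(.lp [[1, 4], [3, 6, 8], [0, 2, 5, 7, 9]] [(.mj 2 3, 569), (.mj 6 7, 176), (.mj 7 8, 191), (.mj 8 4, 355), (.hz 10 679, 34515), (.hz 6 679, 93696), (.hz 6 687, 831593), (.hz 6 751, 1506102), (.rw 8, 1)]))
(.cut 4 [(0, 1), (1, 1), (2, 1), (3, 1), (5, 1), (9, 1), (7, 1), (11, 1), (13, 1), (15, 1), (39, 1), (47, 1), (79, 1), (167, 1), (111, 1), (175, 1), (239, 1)]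
(.lp [[1, 4], [3, 6, 8], [0, 2, 5, 7, 9]] [(.mj 2 3, 7282), (.mj 6 7, 3381), (.mj 7 8, 1181), (.mj 8 9, 177), (.mj 9 4, 4569), (.hz 6 111, 2459503), (.hz 10 679, 270898), (.hz 6 367, 114408), (.hz 10 695, 1994153), (.hz 6 495, 7588433), (.rw 8, 13)])))
(.cut 4 [(0, 1), (1, 1), (2, 1), (3, 1), (5, 1), (9, 1), (7, 1), (11, 1), (13, 1), (15, 1), (39, 1), (47, 1), (79, 1), (167, 1), (111, 1), (175, 1)]
(.lp [[1, 4], [3, 6, 8], [0, 2, 5, 7, 9]] [(.mj 2 3, 3252), (.mj 5 6, 210), (.mj 6 7, 2950), (.mj 9 4, 2950), (.mj 9 8, 1286), (.hz 6 367, 1584901), (.hz 6 687, 1460426), (.hz 10 695, 657147), (.rw 8, 8)]))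
.fin))
(.haz 3 55 9 20
(.ask 19
(.mark 127 [7, 8, 9]
(.cut 4 [(0, 1), (1, 1), (2, 1), (3, 1), (5, 1), (9, 1), (7, 1), (11, 1), (13, 1), (15, 1), (39, 1), (47, 1), (167, 1)]
(.lp [[1, 4, 9], [3, 6, 8], [0, 2, 5, 7]] [(.mj 2 3, 3199), (.mj 6 7, 609), (.mj 7 4, 485), (.hz 3 531, 1170692), (.hz 12 55, 351064), (.hz 9 535, 975577), (.hz 12 567, 169244), (.rw 7, 1)])))
(.ask 23
(.mark 127 [7, 8, 9]
(.cut 4 [(0, 1), (1, 1), (2, 1), (3, 1), (5, 1), (9, 1), (7, 1), (11, 1), (13, 1), (15, 1), (39, 1), (47, 1), (167, 1)]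
(.lp [[1, 4, 9], [3, 6, 8], [0, 2, 5, 7]] [(.mj 2 3, 2561), (.mj 6 7, 488), (.mj 7 4, 473), (.hz 12 55, 234315), (.hz 9 535, 693441), (.hz 5 543, 16072), (.hz 12 567, 135520), (.rw 7, 1)])))
(.cut 4 [(0, 1), (1, 1), (2, 1), (3, 1), (5, 1), (9, 1), (7, 1), (11, 1), (13, 1), (15, 1), (39, 1), (47, 1), (79, 1), (167, 1), (111, 1)]
(.lp [[1, 4], [3, 6, 8], [0, 2, 5, 7]] [(.mj 2 3, 3041), (.mj 6 7, 579), (.mj 7 4, 507), (.hz 12 55, 469578), (.rw 7, 1)]))))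
(.lp [[1, 4], [3, 6, 8], [0, 2, 5, 7]] [(.mj 2 3, 3320), (.mj 6 4, 1859), (.mj 6 7, 623), (.rw 5, 1), (.hz 12 7, 90655), (.hz 9 23, 2693519), (.hz 12 39, 1577709), (.hz 9 55, 2583536), (.hz 10 183, 1533449)])))
(.cut 4 [(0, 1), (1, 1), (2, 1), (3, 1), (5, 1), (9, 1), (7, 1), (11, 1), (13, 1), (15, 1), (39, 1), (47, 1), (79, 1), (111, 1)]
(.lp [[1, 4], [3, 6, 8], [0, 2, 5, 7]] [(.mj 5 6, 2891), (.mj 8 4, 1713), (.mj 8 7, 1439), (.hz 10 167, 73543), (.hz 11 175, 1119486), (.hz 10 183, 327835), (.hz 11 191, 1621761), (.rw 7, 4)]))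
.fin))
(.ask 111
(.mark 111 [4, 7, 8]
(.spn
(.haz 7 111 1 4
(.lp [[1, 4], [3, 6, 8], [0, 2, 5, 7]] [(.mj 2 3, 16), (.mj 4 7, 22), (.mj 4 8, 9), (.mj 6 4, 26), (.hz 10 167, 675), (.hz 6 167, 2420), (.hz 12 111, 11386), (.hz 12 127, 88729), (.hz 12 367, 110847)])
(.ask 19
(.mark 127 [7, 8, 9]
(.lp [[1, 4, 9], [3, 6, 8], [0, 2, 5, 7]] [(.mj 2 3, 2737), (.mj 6 4, 411), (.rw 6, 1), (.hz 12 39, 665322), (.hz 3 531, 816375), (.hz 12 47, 380184), (.hz 9 535, 872234), (.hz 10 183, 451345), (.hz 9 567, 1118351)]))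
(.haz 8 239 9 20
(.lp [[1, 4], [3, 6, 8], [0, 2, 5, 7]] [(.mj 2 3, 16), (.mj 4 8, 11), (.mj 6 4, 15), (.hz 12 39, 8873), (.hz 12 47, 20180), (.hz 9 55, 2958), (.hz 6 167, 1401), (.hz 12 111, 7211), (.hz 6 175, 10242), (.hz 13 239, 11468)])
(.lp [[1, 4], [3, 6, 8], [0, 2, 5, 7]] [(.mj 2 3, 1), (.mj 6 4, 1), (.hz 12 39, 494), (.hz 12 47, 993), (.hz 12 111, 4148), (.hz 13 111, 830)]))))
(.haz 3 167 2 5
(.ask 167
(.mark 239 [4, 8, 9]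
(.spn
(.ask 679
(.mark 751 [4, 8, 10]
(.lp [[1, 4], [3, 6, 8], [0, 2, 5, 7, 9, 10]] [(.mj 4 8, 3147), (.mj 6 7, 5072), (.mj 7 4, 3313), (.rw 6, 2), (.rw 7, 3), (.hz 6 679, 1681810), (.hz 6 367, 1967047), (.hz 6 687, 7619833), (.hz 6 1703, 262085), (.hz 6 1711, 3692329)]))
(.lp [[1, 4], [3, 6, 8], [0, 2, 5, 7, 9]] [(.mj 2 3, 21538), (.mj 4 8, 1629), (.mj 6 7, 9024), (.mj 7 4, 13289), (.rw 7, 26), (.hz 6 679, 1532698), (.hz 6 367, 30774427), (.hz 6 687, 23545140)]))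
(.maj 4 9
(.cut 4 [(0, 1), (1, 1), (2, 1), (3, 1), (5, 1), (9, 1), (7, 1), (11, 1), (13, 1), (15, 1), (39, 1), (47, 1), (79, 1), (167, 1), (111, 1), (175, 1), (239, 1)]
(.lp [[1, 4], [3, 6, 8], [0, 2, 5, 7, 9]] [(.mj 2 3, 1446), (.mj 6 7, 171), (.mj 7 8, 113), (.mj 8 4, 644), (.hz 12 679, 383675), (.hz 6 679, 119048), (.hz 6 687, 1441156), (.hz 11 687, 332688), (.hz 6 751, 4258561), (.rw 8, 2)]))
(.cut 4 [(0, 1), (1, 1), (2, 1), (3, 1), (5, 1), (9, 1), (7, 1), (11, 1), (13, 1), (15, 1), (39, 1), (47, 1), (79, 1), (167, 1), (111, 1), (175, 1), (239, 1)]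
(.lp [[1, 4], [3, 6, 8], [0, 2, 5, 7, 9]] [(.mj 2 3, 7107), (.mj 6 7, 3072), (.mj 7 8, 1095), (.mj 8 4, 791), (.mj 9 4, 3297), (.hz 12 183, 7561052), (.hz 12 679, 951932), (.hz 12 695, 581650), (.hz 6 495, 4121928), (.rw 8, 13)])))
(.cut 4 [(0, 1), (1, 1), (2, 1), (3, 1), (5, 1), (9, 1), (7, 1), (11, 1), (13, 1), (15, 1), (39, 1), (47, 1), (167, 1), (175, 1)]
(.cut 4 [(0, 1), (1, 1), (2, 1), (3, 1), (5, 1), (9, 1), (7, 1), (11, 1), (13, 1), (15, 1), (39, 1), (47, 1), (79, 1), (111, 1)]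
(.lp [[1, 4], [3, 6, 8], [0, 2, 5, 7, 9]] [(.mj 2 3, 2022), (.mj 6 7, 1789), (.mj 9 4, 1789), (.mj 9 8, 877), (.hz 6 367, 719071), (.hz 6 687, 1019253), (.hz 12 695, 1332479), (.rw 8, 2), (.rw 9, 3)])))
.fin))
(.haz 3 55 9 20
(.ask 19
(.mark 63 [6, 7, 9]
(.cut 4 [(0, 1), (1, 1), (2, 1), (3, 1), (5, 1), (9, 1), (7, 1), (11, 1), (13, 1), (15, 1), (39, 1), (47, 1), (167, 1)]
(.lp [[1, 4, 9], [3, 6, 8], [0, 2, 5, 7]] [(.mj 2 3, 4684), (.mj 6 4, 7), (.mj 6 7, 705), (.mj 7 4, 606), (.hz 3 531, 1737538), (.hz 13 55, 649228), (.hz 9 535, 1447948), (.hz 13 567, 123011), (.hz 6 367, 359518), (.rw 7, 1)])))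
(.ask 23
(.mark 55 [3, 7, 9]
(.cut 4 [(0, 1), (1, 1), (2, 1), (3, 1), (5, 1), (9, 1), (7, 1), (11, 1), (13, 1), (15, 1), (39, 1), (47, 1), (167, 1)]
(.lp [[1, 4, 9], [3, 6, 8], [0, 2, 5, 7]] [(.mj 2 3, 38824), (.mj 6 4, 775), (.mj 6 7, 5930), (.mj 7 4, 5731), (.hz 13 55, 4400453), (.hz 9 535, 10549407), (.hz 5 543, 1040962), (.hz 13 567, 1225898), (.hz 6 367, 3402851), (.rw 7, 13)])))
(.cut 4 [(0, 1), (1, 1), (2, 1), (3, 1), (5, 1), (9, 1), (7, 1), (11, 1), (13, 1), (15, 1), (39, 1), (47, 1)]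
(.cut 4 [(0, 1), (1, 1), (2, 1), (3, 1), (5, 1), (9, 1), (7, 1), (11, 1), (13, 1), (15, 1), (39, 1), (47, 1), (167, 1)]
(.lp [[1, 4], [3, 6, 8], [0, 2, 5, 7]] [(.mj 2 3, 26265), (.mj 6 4, 46), (.mj 6 7, 4015), (.mj 7 4, 3909), (.hz 13 55, 4055158), (.hz 6 367, 2321000), (.rw 7, 2), (.rw 8, 5)])))))
(.lp [[1, 4], [3, 6, 8], [0, 2, 5, 7]] [(.mj 3 5, 2), (.mj 6 4, 1), (.mj 6 7, 1), (.mj 7 4, 2), (.hz 13 39, 2655), (.hz 9 55, 3831), (.hz 12 183, 7363)])))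
(.lp [[1, 4], [3, 6, 8], [0, 2, 5, 7]] [(.mj 3 5, 7), (.mj 6 7, 13), (.mj 7 4, 11), (.hz 12 39, 34306), (.hz 9 55, 11564), (.hz 10 167, 6954), (.hz 6 167, 3228), (.hz 6 111, 6086), (.hz 6 175, 15252), (.hz 6 367, 6406)]))
(.haz 7 111 1 5
(.cut 4 [(0, 1), (1, 1), (2, 1), (3, 1), (5, 1), (9, 1), (7, 1), (11, 1), (13, 1), (15, 1), (39, 1), (47, 1)]
(.lp [[1, 4], [3, 6, 8], [0, 2, 5, 7]] [(.mj 2 3, 59576), (.mj 8 4, 2233), (.mj 8 7, 4951), (.rw 6, 7), (.hz 3 19, 18617361), (.hz 9 23, 9308680), (.hz 9 55, 9308680), (.hz 10 167, 3261435), (.hz 12 111, 38321867), (.hz 10 183, 2348598), (.hz 12 127, 7057950), (.hz 11 191, 26448131), (.rw 7, 15)]))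
(.lp [[1, 4], [3, 6, 8], [0, 2, 5, 7]] [(.mj 2 3, 23), (.mj 8 4, 4), (.hz 3 19, 6779), (.hz 9 23, 6861), (.hz 12 39, 4341), (.hz 12 47, 2218), (.hz 9 55, 1366), (.hz 6 167, 379), (.hz 6 111, 3917), (.hz 6 175, 1767), (.hz 11 175, 416), (.hz 6 239, 4165)]))
.fin))
(.spn
(.lp [[1, 4], [3, 6], [0, 2, 5, 7]] [(.mj 4 7, 2), (.mj 6 4, 3)])
(.cut 4 [(0, 1), (1, 1), (2, 1), (3, 1), (5, 1), (9, 1), (7, 1), (11, 1), (13, 1), (15, 1), (39, 1), (47, 1), (79, 1), (167, 2), (111, 1), (175, 1)]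
(.lp [[1, 4], [3, 6], [0, 2, 5, 7]] [(.mj 6 7, 20050), (.mj 7 4, 9559), (.hz 6 167, 5031154), (.hz 6 175, 16695615), (.rw 7, 8)]))
.fin
.fin)))
(.lp [[1, 4], [3, 6], [0, 2, 5, 7]] [(.mj 2 3, 3), (.mj 6 4, 5), (.mj 6 7, 5), (.hz 11 15, 2377), (.hz 11 47, 4664), (.hz 6 167, 1922), (.hz 6 111, 622), (.hz 6 175, 8359)]))
(.lp [[1, 4], [3, 6], [0, 2, 5, 7]] [(.mj 3 5, 9), (.mj 6 4, 30), (.mj 6 7, 31), (.hz 10 7, 9426), (.hz 9 23, 16521), (.hz 10 39, 7289), (.hz 9 55, 20459), (.hz 8 167, 25938), (.hz 6 167, 10459), (.hz 6 175, 48487)]))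
(.lp [[1, 4], [3, 6], [0, 2, 5, 7]] [(.mj 3 5, 1), (.mj 6 4, 6), (.mj 6 7, 5), (.hz 9 7, 4769), (.hz 3 19, 1215), (.hz 3 23, 8231), (.hz 3 55, 6332), (.hz 8 167, 3251), (.hz 6 167, 1843), (.hz 6 111, 514), (.hz 6 175, 8546)]))

theorem run27 : run P3488 (leaf3 218 625) (cutRow P3488) [] t27 s27 = true := by
  decide +kernel

theorem bad27 : Bad P3488 s27 :=
  run_sound (leaf3_sound P3488 rfl rfl) (cutRow_sound P3488) (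
    fun _ h => absurd h List.not_mem_nil) t27 s27 run27

/-- the state above piece 144 of the tree -/
def s144 : St := ⟨[0, 0, 1, 3, 5, 15, 15, 47, 21, 319], [175, 319, 287, 279, 277, 63, 31, 15, 11, 7, 5, 3, 2, 1, 0], [0, 1, 2, 3, 4, 5, 8, 7],
  [(4, 5)],
  [⟨true, 2, 3, 3, 10⟩, ⟨true, 1, 5, 2, 5⟩, ⟨true, 2, 3, 23, 50⟩, ⟨true, 1, 5, 12, 25⟩, ⟨true, 1, 21, 27, 50⟩, ⟨true, 4, 15, 9, 40⟩, ⟨true, 3, 23, 11, 20⟩, ⟨true, 1, 21, 29, 50⟩, ⟨true, 4, 79, 11, 40⟩, ⟨true, 4, 175, 11, 40⟩, ⟨true, 4, 175, 3, 10⟩, ⟨true, 6, 175, 1, 40⟩, ⟨true, 8, 191, 1, 4⟩, ⟨true, 6, 287, 3, 50⟩, ⟨true, 4, 79, 9, 25⟩, ⟨true, 7, 831, 6, 25⟩],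
  [.spn 0 0 651200, .spn 1 1 302400, .spn 3 2 302400, .spn 7 3 302400, .spn 15 4 140426, .spn 31 5 140426, .spn 63 8 140426, .spn 319 7 140426]⟩

/-- piece 144 of the tree -/
noncomputable def t144 : WN.Tree :=
(.haz 5 351 27 40
(.haz 4 111 19 40
(.ask 191
(.mark 447 [6, 9, 10]
(.spn
(.haz 9 447 2 5
(.lp [[6], [0, 2, 4, 8, 9], [1, 3, 5, 7, 10]] [(.mj 6 9, 5001), (.mj 7 6, 5001), (.mj 8 7, 5001), (.rw 7, 1), (.rw 8, 2), (.hz 18 447, 12877728), (.hz 18 511, 17503708), (.hz 18 1471, 41258741)])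
(.haz 9 1471 9 40
(.haz 9 447 13 40
(.lp [[6], [0, 2, 4, 8, 9], [1, 3, 5, 7, 10]] [(.mj 6 9, 21), (.mj 6 10, 7), (.mj 7 6, 28), (.mj 8 7, 20), (.hz 18 319, 33389), (.hz 20 511, 12099), (.hz 13 1471, 10531), (.hz 20 1471, 29337)])
(.lp [[6], [0, 2, 4, 8, 9], [1, 3, 5, 7, 10]] [(.mj 7 6, 3265), (.mj 8 7, 5992), (.rw 8, 4), (.hz 20 319, 1739820), (.hz 20 447, 1336062), (.hz 13 831, 1142816), (.hz 13 1471, 5498302)]))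
(.lp [[6], [0, 2, 4, 8, 9], [1, 3, 5, 7, 10]] [(.mj 7 6, 749), (.mj 8 7, 1428), (.rw 8, 1), (.hz 19 319, 389280), (.hz 19 447, 219313)])))
(.ask 831
(.mark 959 [6, 10, 11]
(.spn
(.ask 79
(.mark 1023 [10, 11, 12]
(.lp [[6, 12], [1, 3, 5, 7, 10], [0, 2, 4, 8, 9, 11]] [(.mj 6 10, 9414), (.mj 7 9, 34631), (.mj 9 6, 23426), (.rw 8, 13), (.rw 9, 113)]))
(.ask 111
(.mark 1023 [10, 11, 12]
(.lp [[6, 12], [1, 3, 5, 7, 10], [0, 2, 4, 8, 9, 11]] [(.mj 6 10, 9414), (.mj 7 9, 34631), (.mj 9 6, 23426), (.rw 8, 13), (.rw 9, 113)]))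
(.ask 1215
(.mark 1215 [6, 8, 12]
(.lp [[6], [0, 2, 4, 8, 9, 11], [1, 3, 5, 7, 10, 12]] [(.mj 3 4, 203594), (.mj 7 9, 5602), (.mj 8 7, 42128), (.mj 9 6, 55143), (.rw 9, 89), (.hz 17 239, 361971), (.hz 13 1471, 182770898), (.hz 11 5311, 66035979), (.hz 12 5311, 88519484), (.hz 13 2879, 47055911), (.hz 13 5567, 58589871)]))
(.lp [[6], [1, 3, 5, 7, 10], [0, 2, 4, 8, 9, 11]] [(.mj 3 4, 6118), (.mj 6 10, 115), (.mj 8 7, 708), (.mj 9 6, 1454), (.rw 9, 2), (.hz 17 239, 286225), (.hz 13 1471, 3744356), (.hz 13 2879, 1229507)]))))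
(.maj 6 11
(.cut 6 [(0, 1), (1, 1), (2, 1), (3, 1), (5, 1), (7, 1), (11, 1), (21, 1), (15, 1), (23, 1), (277, 1), (31, 1), (47, 1), (279, 1), (63, 1), (175, 1), (287, 1), (191, 1), (319, 1), (447, 1), (831, 1), (959, 1)]
(.lp [[6], [1, 3, 5, 7, 10], [0, 2, 4, 8, 9, 11]] [(.mj 3 4, 1103), (.mj 8 7, 128), (.mj 9 10, 454), (.mj 10 6, 663), (.hz 13 2879, 879779), (.hz 13 3007, 2958575), (.rw 10, 2)]))
(.cut 6 [(0, 1), (1, 1), (2, 1), (3, 1), (5, 1), (7, 1), (11, 1), (21, 1), (15, 1), (23, 1), (277, 1), (31, 1), (47, 1), (279, 1), (63, 1), (175, 1), (287, 1), (191, 1), (319, 1), (447, 1), (831, 1), (959, 1)]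
(.lp [[6], [1, 3, 5, 7, 10], [0, 2, 4, 8, 9, 11]] [(.mj 3 4, 699), (.mj 7 9, 27), (.mj 8 7, 204), (.mj 9 10, 27), (.mj 10 6, 89), (.mj 10 11, 27), (.mj 11 6, 289), (.hz 13 447, 158259), (.hz 15 2943, 321358), (.hz 13 1983, 418803), (.rw 10, 1)])))
(.cut 6 [(0, 1), (1, 1), (2, 1), (3, 1), (5, 1), (7, 1), (11, 1), (21, 1), (15, 1), (23, 1), (277, 1), (31, 1), (47, 1), (279, 1), (63, 1), (175, 1), (287, 1), (191, 1), (319, 1), (447, 1), (831, 1), (959, 1)]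
(.cut 10 [(0, 1), (1, 1), (2, 1), (3, 1), (5, 1), (7, 1), (11, 1), (21, 1), (15, 1), (23, 1), (277, 1), (31, 1), (47, 1), (79, 1), (279, 1), (63, 1), (95, 1), (111, 1), (175, 1), (287, 1), (127, 1), (191, 1), (239, 1), (319, 1), (351, 1), (255, 1), (383, 1), (447, 1), (831, 1), (511, 1), (895, 1), (2879, 1), (2943, 1)]
(.lp [[6], [1, 3, 5, 7, 10], [0, 2, 4, 8, 9, 11]] [(.mj 7 9, 122905), (.mj 8 7, 2381), (.mj 11 6, 99378), (.mj 11 10, 64881), (.hz 12 1279, 381778243), (.hz 13 1471, 13888525), (.rw 10, 318), (.rw 11, 20)])))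
.fin))
(.ask 959
(.mark 959 [6, 10, 11]
(.spn
(.haz 10 447 1 5
(.lp [[6], [1, 3, 5, 7, 10], [0, 2, 4, 8, 9, 11]] [(.mj 3 4, 1895), (.mj 6 10, 2301), (.mj 6 11, 1338), (.mj 8 7, 481), (.mj 9 6, 3181), (.rw 9, 1), (.hz 18 511, 76693970), (.hz 18 3007, 45147978)])
(.haz 11 1983 13 40
(.lp [[6], [1, 3, 5, 7, 10], [0, 2, 4, 8, 9, 11]] [(.mj 3 4, 7), (.mj 6 11, 6), (.mj 9 6, 7), (.hz 18 191, 16600), (.hz 18 447, 53145), (.hz 13 1471, 14085), (.hz 19 1983, 12684)])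
(.lp [[6], [1, 3, 5, 7, 10], [0, 2, 4, 8, 9, 11]] [(.mj 3 4, 5), (.mj 6 10, 4), (.mj 9 6, 5), (.hz 19 959, 5800)])))
(.cut 6 [(0, 1), (1, 1), (2, 1), (3, 1), (5, 1), (7, 1), (11, 1), (21, 1), (15, 1), (23, 1), (277, 1), (31, 1), (47, 1), (279, 1), (63, 1), (175, 1), (287, 1), (191, 1), (319, 1), (447, 1), (831, 1), (959, 1)]
(.lp [[6], [1, 3, 5, 7, 10], [0, 2, 4, 8, 9, 11]] [(.mj 8 7, 24651), (.mj 10 6, 9965), (.mj 10 11, 3053), (.hz 13 3007, 10427949), (.rw 10, 32)]))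
(.cut 6 [(0, 1), (1, 1), (2, 1), (3, 1), (5, 1), (7, 1), (11, 1), (21, 1), (15, 1), (23, 1), (277, 1), (31, 1), (47, 1), (279, 1), (63, 1), (175, 1), (287, 1), (191, 1), (319, 1), (447, 1), (831, 1), (959, 1)]
(.lp [[6], [1, 3, 5, 7, 10], [0, 2, 4, 8, 9, 11]] [(.mj 3 4, 6440), (.mj 8 7, 1634), (.mj 11 6, 2790), (.hz 14 79, 69586), (.hz 17 111, 32962), (.hz 12 1279, 11041850), (.rw 10, 8)]))
.fin))
(.lp [[6], [0, 2, 4, 8, 9], [1, 3, 5, 7, 10]] [(.mj 3 4, 9), (.mj 8 7, 3), (.mj 9 6, 16), (.mj 9 10, 17), (.hz 13 1471, 102360)])))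
(.cut 6 [(0, 1), (1, 1), (2, 1), (3, 1), (5, 1), (7, 1), (11, 1), (21, 1), (15, 1), (23, 1), (277, 1), (31, 1), (47, 1), (279, 1), (63, 1), (175, 1), (287, 1), (191, 1), (319, 1), (447, 1)]
(.lp [[6], [0, 2, 4, 8, 9], [1, 3, 5, 7, 10]] [(.mj 8 7, 712), (.mj 10 6, 410), (.mj 10 9, 327), (.hz 15 831, 241111), (.hz 15 895, 982183), (.rw 9, 1)]))
.fin))
(.haz 8 255 3 5
(.ask 447
(.mark 447 [6, 9, 10]
(.spn
(.haz 9 447 7 20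
(.lp [[6], [0, 2, 4, 8, 9], [1, 3, 5, 7, 10]] [(.mj 6 9, 5), (.mj 6 10, 1), (.mj 7 6, 5), (.mj 8 7, 3), (.hz 19 447, 2846), (.hz 19 511, 4510), (.hz 19 1471, 9694)])
(.haz 9 447 3 10
(.lp [[6], [0, 2, 4, 8, 9], [1, 3, 5, 7, 10]] [(.mj 6 9, 13), (.mj 6 10, 5), (.mj 7 6, 16), (.mj 8 7, 2), (.hz 20 447, 3474), (.hz 20 511, 48572), (.hz 20 1471, 62989)])
(.haz 10 959 9 20
(.ask 831
(.mark 959 [6, 10, 11]
(.lp [[6], [1, 3, 5, 7, 10], [0, 2, 4, 8, 9, 11]] [(.mj 6 10, 5), (.mj 7 6, 7), (.hz 20 319, 6717), (.hz 13 831, 2379), (.hz 21 959, 6015), (.hz 13 2879, 4719), (.hz 15 2879, 1224), (.hz 21 3007, 16123)]))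
(.lp [[6], [0, 2, 4, 8, 9], [1, 3, 5, 7, 10]] [(.mj 6 10, 13), (.mj 7 6, 14), (.mj 8 7, 13), (.hz 20 447, 35354), (.hz 21 959, 29540)]))
(.lp [[6], [0, 2, 4, 8, 9], [1, 3, 5, 7, 10]] [(.mj 7 6, 1), (.hz 20 319, 466), (.hz 20 447, 4879), (.hz 21 447, 2439), (.hz 13 831, 1058)]))))
(.maj 6 10
(.cut 6 [(0, 1), (1, 1), (2, 1), (3, 1), (5, 1), (7, 1), (11, 1), (21, 1), (15, 1), (23, 1), (277, 1), (31, 1), (47, 1), (279, 1), (63, 1), (175, 1), (287, 1), (191, 1), (319, 1), (447, 1)]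
(.lp [[6], [0, 2, 4, 8, 9], [1, 3, 5, 7, 10]] [(.mj 3 4, 5892), (.mj 9 6, 1363), (.hz 14 79, 345185), (.hz 17 111, 163509), (.hz 17 239, 163509), (.hz 18 255, 1205120), (.hz 13 1471, 2209549), (.rw 9, 2)]))
(.cut 6 [(0, 1), (1, 1), (2, 1), (3, 1), (5, 1), (7, 1), (11, 1), (21, 1), (15, 1), (23, 1), (277, 1), (31, 1), (47, 1), (279, 1), (63, 1), (175, 1), (287, 1), (191, 1), (319, 1), (447, 1)]
(.lp [[6], [0, 2, 4, 8, 9], [1, 3, 5, 7, 10]] [(.mj 3 4, 8113), (.mj 9 6, 676), (.mj 9 10, 311), (.mj 10 6, 1304), (.hz 14 79, 439364), (.hz 17 111, 208120), (.hz 17 239, 208120), (.rw 9, 4)])))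
(.ask 1471
(.mark 1471 [6, 9, 11]
(.spn
(.lp [[6], [0, 2, 4, 8, 9], [1, 3, 5, 7, 10, 11]] [(.mj 10 6, 159), (.rw 9, 1)])
(.cut 6 [(0, 1), (1, 1), (2, 1), (3, 1), (5, 1), (7, 1), (11, 1), (21, 1), (15, 1), (23, 1), (277, 1), (31, 1), (47, 1), (279, 1), (63, 1), (175, 1), (287, 1), (191, 1), (319, 1), (447, 1), (1471, 1)]
(.lp [[6], [0, 2, 4, 8, 9], [1, 3, 5, 7, 10, 11]] [(.mj 9 6, 1385), (.mj 9 11, 1385), (.mj 10 9, 3039), (.rw 9, 1), (.rw 10, 6)]))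
(.cut 6 [(0, 1), (1, 1), (2, 1), (3, 1), (5, 1), (7, 1), (11, 1), (21, 1), (15, 1), (23, 1), (277, 1), (31, 1), (47, 1), (279, 1), (63, 1), (175, 1), (287, 1), (191, 1), (319, 1), (447, 1), (831, 1)]
(.cut 9 [(0, 1), (1, 1), (2, 1), (3, 1), (5, 1), (7, 1), (11, 1), (21, 1), (15, 1), (23, 1), (277, 1), (31, 1), (47, 1), (79, 1), (279, 1), (63, 1), (95, 1), (111, 1), (175, 1), (287, 1), (127, 1), (191, 1), (239, 1), (319, 1), (351, 1), (255, 1), (383, 1), (447, 1), (511, 1)]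
(.cut 6 [(0, 1), (1, 1), (2, 1), (3, 1), (5, 1), (7, 1), (11, 1), (21, 1), (15, 1), (23, 1), (277, 1), (31, 1), (47, 1), (279, 1), (63, 1)]
(.cut 6 [(0, 1), (1, 1), (2, 1), (3, 1), (5, 1), (7, 1), (11, 1), (21, 1), (15, 1), (23, 1), (277, 1), (31, 1), (47, 1), (279, 1), (175, 1), (287, 1)]
(.cut 6 [(0, 1), (1, 1), (2, 1), (3, 1), (5, 1), (7, 1), (11, 1), (21, 1), (15, 1), (23, 1), (277, 1), (31, 1), (47, 1), (279, 1), (63, 1), (175, 1), (287, 1), (319, 1)]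
(.cut 6 [(0, 1), (1, 1), (2, 1), (3, 1), (5, 1), (7, 1), (11, 1), (21, 1), (15, 1), (23, 1), (277, 1), (31, 1), (47, 1), (279, 1), (63, 1), (175, 1), (287, 1), (191, 1), (319, 1), (447, 1)]
(.lp [[6], [0, 2, 4, 8, 9], [1, 3, 5, 7, 10, 11]] [(.mj 3 4, 375730), (.mj 8 7, 59158), (.mj 11 6, 188341), (.hz 15 895, 232373134), (.hz 13 1471, 53475792), (.hz 13 1983, 225816921), (.rw 10, 6), (.rw 11, 14), (.rw 12, 111), (.rw 13, 134), (.rw 14, 43), (.rw 15, 218)])))))))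
.fin))
(.lp [[6], [0, 2, 4, 8, 9], [1, 3, 5, 7, 10]] [(.mj 10 9, 1), (.rw 8, 1)]))
.fin))
(.spn
(.lp [[6], [1, 3, 5, 7], [0, 2, 4, 8, 9]] [(.mj 6 9, 2), (.mj 7 6, 3)])
(.cut 6 [(0, 1), (1, 1), (2, 1), (3, 1), (5, 1), (7, 1), (11, 1), (21, 1), (15, 1), (23, 1), (277, 1), (31, 1), (47, 1), (279, 1), (63, 1), (175, 1), (191, 1)]
(.lp [[6], [1, 3, 5, 7], [0, 2, 4, 8, 9]] [(.mj 3 4, 6194), (.mj 9 6, 1496), (.hz 14 79, 345244), (.hz 17 111, 235140), (.hz 16 351, 47655), (.hz 17 239, 91933), (.hz 13 831, 193249), (.rw 9, 2)]))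
.fin
.fin))
(.lp [[6], [1, 3, 5, 7], [0, 2, 4, 8, 9]] [(.mj 7 6, 5), (.mj 7 9, 4), (.mj 8 7, 5), (.hz 18 191, 42254), (.hz 13 831, 5891)])))
(.lp [[6], [1, 3, 5, 7], [0, 2, 4, 8, 9]] [(.mj 4 5, 1), (.mj 7 6, 1), (.mj 8 6, 1), (.mj 8 7, 1), (.hz 17 47, 1105), (.hz 14 111, 1270), (.hz 16 351, 240), (.hz 14 239, 1264)]))
(.cut 6 [(0, 1), (1, 1), (2, 1), (3, 1), (5, 1), (7, 1), (11, 1), (21, 1), (15, 1), (23, 1), (277, 1), (31, 1), (47, 1), (279, 1), (63, 1), (175, 1), (287, 1), (319, 1)]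
(.lp [[6], [1, 3, 5, 7], [0, 2, 4, 8, 9]] [(.mj 5 8, 956), (.mj 7 6, 938), (.mj 8 7, 938), (.hz 16 287, 619602), (.rw 8, 1)])))

theorem run144 : run P3488 (leaf3 218 625) (cutRow P3488) [] t144 s144 = true := by
  decide +kernel

theorem bad144 : Bad P3488 s144 :=
  run_sound (leaf3_sound P3488 rfl rfl) (cutRow_sound P3488) (
    fun _ h => absurd h List.not_mem_nil) t144 s144 run144

/-- the state above piece 114 of the tree -/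
def s114 : St := ⟨[0, 0, 1, 3, 5, 7, 15, 23, 79], [151, 95, 31, 21, 15, 11, 7, 5, 3, 2, 1, 0], [0, 1, 2, 3, 4, 6, 7],
  [],
  [⟨true, 2, 3, 3, 10⟩, ⟨true, 1, 5, 2, 5⟩, ⟨true, 2, 3, 23, 50⟩, ⟨true, 1, 5, 12, 25⟩, ⟨true, 4, 39, 4, 25⟩, ⟨true, 4, 39, 9, 50⟩, ⟨true, 4, 15, 4, 25⟩, ⟨true, 4, 15, 9, 50⟩, ⟨true, 1, 21, 29, 50⟩, ⟨true, 3, 39, 6, 25⟩, ⟨true, 3, 39, 3, 10⟩, ⟨true, 4, 39, 6, 25⟩, ⟨true, 3, 39, 17, 50⟩, ⟨true, 3, 39, 19, 50⟩, ⟨true, 3, 39, 2, 5⟩, ⟨true, 3, 23, 2, 5⟩, ⟨true, 4, 79, 6, 25⟩, ⟨true, 4, 39, 7, 25⟩, ⟨false, 5, 15, 1, 5⟩, ⟨true, 3, 39, 11, 25⟩, ⟨true, 5, 159, 3, 50⟩, ⟨true, 6, 47, 3, 10⟩, ⟨true, 5, 335, 1, 20⟩, ⟨true, 6, 47, 3, 8⟩, ⟨true, 8, 223, 1, 8⟩],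
  [.spn 0 0 651200, .spn 1 1 302400, .spn 3 2 302400, .spn 7 3 140426, .spn 15 4 140426, .spn 31 6 140426, .spn 95 7 140426]⟩

/-- piece 114 of the tree -/
noncomputable def t114 : WN.Tree :=
(.haz 4 47 7 20
(.ask 159
(.mark 223 [5, 8, 9]
(.spn
(.ask 335
(.mark 351 [5, 7, 10]
(.lp [[5], [0, 2, 4, 7, 9], [1, 3, 6, 8, 10]] [(.mj 5 8, 100033), (.mj 6 7, 215634), (.mj 7 5, 112241), (.rw 6, 100), (.rw 7, 145), (.hz 20 671, 130138745), (.hz 22 1359, 38150097), (.hz 24 255, 187561819), (.hz 24 735, 312603032), (.hz 22 1375, 144970368), (.hz 25 1391, 14235111)]))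
(.lp [[5], [1, 3, 6, 8], [0, 2, 4, 7, 9]] [(.mj 3 4, 25201), (.mj 5 8, 4321), (.mj 7 5, 11243), (.rw 6, 5), (.rw 7, 19), (.hz 22 335, 710612), (.hz 22 351, 18488540), (.hz 20 671, 8249531), (.hz 24 735, 13501622)]))
(.ask 335
(.mark 479 [5, 9, 10]
(.spn
(.lp [[5], [0, 2, 4, 7, 9], [1, 3, 6, 8, 10]] [(.mj 3 4, 643), (.mj 5 9, 120), (.mj 7 8, 554), (.mj 8 5, 572), (.rw 8, 1), (.hz 20 671, 345862), (.hz 22 1359, 57592), (.hz 20 735, 744645), (.hz 20 1503, 684031)])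
(.cut 5 [(0, 1), (1, 1), (2, 1), (3, 1), (5, 1), (7, 1), (11, 1), (21, 1), (15, 1), (23, 1), (31, 1), (79, 1), (151, 1), (95, 1), (159, 1), (335, 1), (223, 1), (351, 1), (479, 1)]
(.lp [[5], [0, 2, 4, 7, 9], [1, 3, 6, 8, 10]] [(.mj 6 7, 1117), (.mj 7 8, 650), (.mj 9 5, 650), (.hz 25 1391, 134222), (.hz 20 1503, 631860), (.rw 9, 2)]))
(.cut 5 [(0, 1), (1, 1), (2, 1), (3, 1), (5, 1), (7, 1), (11, 1), (21, 1), (15, 1), (23, 1), (31, 1), (79, 1), (95, 1)]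
(.lp [[5], [0, 2, 4, 7, 9], [1, 3, 6, 8, 10]] [(.mj 3 4, 761), (.mj 6 7, 2214), (.mj 7 8, 2043), (.mj 10 5, 2082), (.hz 22 335, 122717), (.hz 20 671, 1038091), (.hz 20 479, 1929596), (.hz 20 735, 1041101), (.hz 24 735, 327596), (.hz 20 991, 2238368), (.hz 20 1503, 845380), (.rw 9, 4)]))
.fin))
(.ask 39
(.mark 255 [8, 9, 10]
(.cut 5 [(0, 1), (1, 1), (2, 1), (3, 1), (5, 1), (7, 1), (11, 1), (21, 1), (15, 1), (23, 1), (31, 1), (79, 1), (95, 1), (335, 1)]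
(.lp [[5, 10], [1, 3, 6, 8], [0, 2, 4, 7, 9]] [(.mj 3 4, 3145), (.mj 7 8, 1159), (.mj 8 5, 763), (.hz 17 1063, 810977), (.hz 25 1071, 738269), (.hz 25 1135, 184567), (.rw 8, 2)])))
(.ask 351
(.mark 479 [5, 9, 10]
(.cut 5 [(0, 1), (1, 1), (2, 1), (3, 1), (5, 1), (7, 1), (11, 1), (21, 1), (15, 1), (23, 1), (31, 1), (79, 1), (95, 1)]
(.cut 5 [(0, 1), (1, 1), (2, 1), (3, 1), (5, 1), (7, 1), (11, 1), (21, 1), (15, 1), (23, 1), (31, 1), (79, 1), (151, 1), (95, 1), (159, 1), (223, 1)]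
(.cut 5 [(0, 1), (1, 1), (2, 1), (3, 1), (5, 1), (7, 1), (11, 1), (21, 1), (15, 1), (23, 1), (31, 1), (79, 1), (151, 1), (95, 1), (159, 1), (335, 1), (671, 1)]
(.cut 5 [(0, 1), (1, 1), (2, 1), (3, 1), (5, 1), (7, 1), (11, 1), (21, 1), (15, 1), (23, 1), (31, 1), (79, 1), (95, 1), (335, 1)]
(.lp [[5], [0, 2, 4, 7, 9], [1, 3, 6, 8, 10]] [(.mj 3 4, 12198083), (.mj 7 8, 3931701), (.mj 8 5, 3211448), (.hz 25 47, 3106979796), (.hz 25 111, 256853810), (.hz 20 671, 1537074152), (.hz 20 735, 876550405), (.hz 20 1503, 781766470), (.rw 8, 4010), (.rw 9, 1018), (.rw 10, 1228), (.rw 11, 94)]))))))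
(.ask 479
(.mark 479 [5, 9, 10]
(.spn
(.lp [[5], [0, 2, 4, 7, 9], [1, 3, 6, 8, 10]] [(.mj 3 4, 46984), (.mj 5 10, 4029), (.mj 7 8, 6392), (.mj 8 5, 12515), (.rw 8, 14), (.hz 25 47, 7497384), (.hz 25 111, 4685865), (.hz 20 671, 13153655), (.hz 20 735, 21450754)])
(.lp [[5], [0, 2, 4, 7, 9], [1, 3, 6, 8, 10]] [(.mj 3 4, 15), (.mj 9 5, 4), (.mj 9 10, 1), (.hz 25 47, 3804), (.hz 20 159, 2641), (.hz 25 111, 315), (.hz 20 223, 1278), (.hz 20 671, 532), (.hz 25 367, 812), (.hz 20 479, 1379), (.hz 20 735, 656), (.hz 20 1503, 4286)])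
(.cut 5 [(0, 1), (1, 1), (2, 1), (3, 1), (5, 1), (7, 1), (11, 1), (21, 1), (15, 1), (23, 1), (31, 1), (79, 1), (151, 1), (95, 1), (159, 1), (223, 1)]
(.lp [[5], [0, 2, 4, 7, 9], [1, 3, 6, 8, 10]] [(.mj 3 4, 1142), (.mj 7 8, 412), (.mj 10 5, 312), (.hz 25 47, 182225), (.hz 25 111, 113891), (.hz 25 367, 140955), (.rw 9, 1)]))
.fin))
(.lp [[5], [1, 3, 6, 8], [0, 2, 4, 7, 9]] [(.mj 3 4, 22), (.mj 7 5, 5), (.mj 7 8, 1), (.hz 25 47, 5727), (.hz 20 159, 2128), (.hz 25 111, 473), (.hz 25 367, 1222)])))))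
(.cut 5 [(0, 1), (1, 1), (2, 1), (3, 1), (5, 1), (7, 1), (11, 1), (21, 1), (15, 1), (23, 1), (31, 1), (79, 1), (151, 1), (95, 1), (159, 1), (223, 1)]
(.lp [[5], [1, 3, 6, 8], [0, 2, 4, 7, 9]] [(.mj 6 7, 664), (.mj 9 5, 440), (.mj 9 8, 440), (.hz 24 223, 221835), (.hz 25 367, 136264), (.rw 8, 1)]))
.fin))
(.haz 8 223 1 5
(.ask 223
(.mark 223 [5, 8, 9]
(.spn
(.ask 735
(.mark 735 [5, 8, 10]
(.lp [[5], [1, 3, 6, 8], [0, 2, 4, 7, 9, 10]] [(.mj 3 4, 14), (.mj 5 8, 18), (.mj 5 9, 5), (.mj 7 5, 20), (.hz 16 335, 631), (.hz 22 335, 3073), (.hz 26 223, 16960), (.hz 26 255, 84705), (.hz 26 735, 73569), (.hz 26 1759, 58961)]))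
(.lp [[5], [1, 3, 6, 8], [0, 2, 4, 7, 9]] [(.mj 3 4, 10), (.mj 5 8, 18), (.mj 7 5, 31), (.hz 22 335, 9078)]))
(.ask 335
(.mark 479 [5, 9, 10]
(.spn
(.lp [[5], [0, 2, 4, 7, 9], [1, 3, 6, 8, 10]] [(.mj 3 4, 699), (.mj 5 9, 87), (.mj 7 8, 453), (.mj 8 5, 517), (.rw 8, 1), (.hz 22 1359, 199432), (.hz 20 735, 672157), (.hz 25 1391, 72795), (.hz 20 1503, 499646)])
(.maj 5 10
(.cut 5 [(0, 1), (1, 1), (2, 1), (3, 1), (5, 1), (7, 1), (11, 1), (21, 1), (15, 1), (23, 1), (31, 1), (79, 1), (151, 1), (95, 1), (159, 1), (335, 1), (223, 1), (351, 1), (479, 1)]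
(.lp [[5], [0, 2, 4, 7, 9], [1, 3, 6, 8, 10]] [(.mj 3 4, 2502), (.mj 7 8, 635), (.mj 8 9, 229), (.mj 9 5, 1210), (.hz 22 1359, 1796015), (.hz 22 1375, 568715), (.hz 25 1391, 3570800), (.hz 20 1503, 738352), (.rw 9, 4)]))
(.cut 5 [(0, 1), (1, 1), (2, 1), (3, 1), (5, 1), (7, 1), (11, 1), (21, 1), (15, 1), (23, 1), (31, 1), (79, 1), (151, 1), (95, 1), (159, 1), (335, 1), (223, 1), (351, 1), (479, 1)]
(.lp [[5], [0, 2, 4, 7, 9], [1, 3, 6, 8, 10]] [(.mj 3 4, 3328), (.mj 7 8, 2137), (.mj 8 9, 710), (.mj 9 5, 191), (.mj 10 5, 2073), (.hz 20 159, 418670), (.hz 16 1359, 65867), (.hz 25 1391, 1533708), (.hz 20 991, 1723705), (.rw 9, 7)])))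
(.lp [[5], [0, 2, 4, 7, 9], [1, 3, 6, 8, 10]] [(.mj 7 8, 43), (.mj 10 5, 35), (.mj 10 9, 20), (.hz 22 335, 25497), (.hz 20 479, 52049), (.hz 20 735, 43554), (.hz 26 735, 113744), (.hz 20 991, 97372), (.hz 20 1503, 42749)])
.fin))
(.haz 9 511 1 20
(.maj 5 9
(.ask 351
(.mark 479 [5, 9, 10]
(.cut 5 [(0, 1), (1, 1), (2, 1), (3, 1), (5, 1), (7, 1), (11, 1), (21, 1), (15, 1), (23, 1), (31, 1), (79, 1), (151, 1), (95, 1), (159, 1), (223, 1)]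
(.cut 5 [(0, 1), (1, 1), (2, 1), (3, 1), (5, 1), (7, 1), (11, 1), (21, 1), (15, 1), (23, 1), (31, 1), (79, 1), (151, 1), (95, 1), (159, 1), (335, 1), (223, 1)]
(.lp [[5], [0, 2, 4, 7, 9], [1, 3, 6, 8, 10]] [(.mj 3 4, 1330), (.mj 5 9, 112), (.mj 7 8, 854), (.mj 8 5, 927), (.hz 20 735, 1260606), (.hz 20 1503, 257525), (.rw 8, 1), (.rw 9, 1)]))))
(.ask 479
(.mark 479 [5, 9, 10]
(.spn
(.ask 39
(.mark 511 [9, 10, 11]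
(.lp [[5, 11], [0, 2, 4, 7, 9], [1, 3, 6, 8, 10]] [(.mj 3 4, 2622), (.mj 5 10, 109), (.mj 7 8, 347), (.mj 8 5, 489), (.rw 8, 1), (.hz 17 2087, 676087), (.hz 25 2095, 615473), (.hz 25 2159, 153868), (.hz 20 735, 1033129)]))
(.ask 47
(.mark 511 [9, 10, 11]
(.lp [[5, 11], [0, 2, 4, 7, 9], [1, 3, 6, 8, 10]] [(.mj 3 4, 31513), (.mj 5 10, 1901), (.mj 7 8, 1838), (.mj 8 5, 7342), (.rw 8, 13), (.hz 25 2095, 7006354), (.hz 25 2159, 4765455), (.hz 20 735, 16048499), (.hz 25 2415, 6967300), (.hz 27 1535, 4335629)]))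
(.ask 111
(.mark 511 [9, 10, 11]
(.lp [[5, 11], [0, 2, 4, 7, 9], [1, 3, 6, 8, 10]] [(.mj 3 4, 127541), (.mj 5 10, 8112), (.mj 7 8, 7924), (.mj 8 5, 34043), (.rw 8, 62), (.hz 25 2159, 25192966), (.hz 20 735, 72472052), (.hz 25 2415, 28147259), (.hz 27 1535, 18506550)]))
(.lp [[5], [0, 2, 4, 7, 9], [1, 3, 6, 8, 10]] [(.mj 3 4, 3579), (.mj 7 8, 1249), (.mj 8 5, 708), (.rw 8, 2), (.hz 20 735, 957723)]))))
(.con 9 5)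
(.cut 5 [(0, 1), (1, 1), (2, 1), (3, 1), (5, 1), (7, 1), (11, 1), (21, 1), (15, 1), (23, 1), (31, 1), (79, 1), (151, 1), (95, 1), (159, 1), (335, 1), (223, 1), (351, 1), (479, 1)]
(.lp [[5], [0, 2, 4, 7, 9], [1, 3, 6, 8, 10]] [(.mj 3 4, 2443), (.mj 7 8, 571), (.mj 10 5, 1086), (.rw 9, 4)]))
.fin))
(.lp [[5], [1, 3, 6, 8], [0, 2, 4, 7, 9]] [(.mj 5 9, 1), (.mj 8 5, 1)])))
(.cut 5 [(0, 1), (1, 1), (2, 1), (3, 1), (5, 1), (7, 1), (11, 1), (21, 1), (15, 1), (23, 1), (31, 1), (79, 1), (335, 1)]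
(.cut 5 [(0, 1), (1, 1), (2, 1), (3, 1), (5, 1), (7, 1), (11, 1), (21, 1), (15, 1), (23, 1), (31, 1), (79, 1), (95, 1), (335, 1)]
(.cut 5 [(0, 1), (1, 1), (2, 1), (3, 1), (5, 1), (7, 1), (11, 1), (21, 1), (15, 1), (23, 1), (31, 1), (79, 1), (151, 1), (95, 1), (159, 1), (223, 1)]
(.lp [[5], [1, 3, 6, 8], [0, 2, 4, 7, 9]] [(.mj 3 4, 903991), (.mj 7 8, 247810), (.mj 8 9, 34989), (.mj 9 5, 438124), (.hz 20 159, 7656810), (.hz 20 479, 196813472), (.rw 8, 605), (.rw 9, 575), (.rw 10, 102)])))))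
(.cut 5 [(0, 1), (1, 1), (2, 1), (3, 1), (5, 1), (7, 1), (11, 1), (21, 1), (15, 1), (23, 1), (31, 1), (79, 1), (151, 1), (95, 1), (159, 1), (335, 1), (223, 1)]
(.lp [[5], [1, 3, 6, 8], [0, 2, 4, 7, 9]] [(.mj 3 4, 37), (.mj 7 8, 917), (.mj 8 5, 380), (.hz 27 223, 323222), (.hz 27 255, 1004639), (.rw 8, 1)]))))
(.lp [[5], [1, 3, 6, 8], [0, 2, 4, 7, 9]] [(.mj 3 4, 55604), (.mj 9 8, 5232), (.rw 7, 13), (.hz 17 39, 3370369), (.hz 25 47, 5617281), (.hz 20 159, 10517462), (.hz 25 111, 5617281), (.hz 16 335, 2987686), (.hz 22 335, 5044182), (.hz 20 223, 6995926), (.hz 26 223, 92562426), (.hz 25 367, 8338841), (.hz 20 479, 8240737)])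
.fin))
(.spn
(.lp [[5], [0, 2, 4, 7], [1, 3, 6, 8]] [(.mj 5 8, 2), (.mj 7 5, 3)])
(.cut 5 [(0, 1), (1, 1), (2, 1), (3, 1), (5, 1), (7, 1), (11, 1), (21, 1), (15, 1), (23, 1), (31, 1), (79, 1), (151, 1), (95, 1), (159, 1), (223, 1)]
(.lp [[5], [0, 2, 4, 7], [1, 3, 6, 8]] [(.mj 7 8, 1137), (.mj 8 5, 470), (.rw 8, 1)]))
.fin
.fin))
(.lp [[5], [0, 2, 4, 7], [1, 3, 6, 8]] [(.mj 3 4, 144), (.mj 7 5, 31), (.hz 17 39, 8141), (.hz 25 47, 33784), (.hz 26 79, 46529), (.hz 26 95, 50852), (.hz 20 159, 16652), (.hz 22 335, 4797), (.hz 22 351, 18228)])))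
(.lp [[5], [0, 2, 4, 7], [1, 3, 6, 8]] [(.mj 4 6, 18191), (.mj 7 5, 6273), (.rw 6, 1), (.hz 25 15, 5209293), (.hz 19 39, 351530), (.hz 17 47, 715306), (.hz 23 47, 15563621), (.hz 19 55, 2362995), (.hz 17 111, 2802308), (.hz 16 335, 606912), (.hz 22 335, 2022901), (.hz 17 367, 2979467)]))

theorem run114 : run P3488 (leaf3 218 625) (cutRow P3488) [] t114 s114 = true := by
  decide +kernel

theorem bad114 : Bad P3488 s114 :=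
  run_sound (leaf3_sound P3488 rfl rfl) (cutRow_sound P3488) (
    fun _ h => absurd h List.not_mem_nil) t114 s114 run114

/-- the state above piece 166 of the tree -/
def s166 : St := ⟨[0, 0, 1, 3, 5, 15, 21, 31, 47, 159, 303, 671], [959, 447, 191, 63, 31, 23, 21, 15, 11, 7, 5, 3, 2, 1, 0], [0, 1, 2, 3, 4, 5, 7, 8, 9, 10],
  [(5, 6), (4, 5)],
  [⟨true, 2, 3, 3, 10⟩, ⟨true, 1, 5, 2, 5⟩, ⟨true, 2, 3, 23, 50⟩, ⟨true, 1, 5, 12, 25⟩, ⟨true, 1, 21, 27, 50⟩, ⟨true, 4, 15, 9, 40⟩, ⟨true, 3, 23, 11, 20⟩, ⟨true, 4, 47, 7, 20⟩, ⟨true, 4, 47, 17, 40⟩, ⟨true, 4, 47, 9, 20⟩, ⟨true, 4, 47, 19, 40⟩, ⟨true, 3, 87, 27, 40⟩, ⟨true, 5, 95, 1, 4⟩, ⟨true, 5, 159, 1, 4⟩, ⟨true, 7, 127, 7, 40⟩, ⟨true, 7, 95, 1, 5⟩, ⟨true, 8, 127, 7, 40⟩, ⟨true, 4, 303, 1, 2⟩, ⟨true, 6, 447, 1, 20⟩, ⟨true, 6, 703, 1, 20⟩, ⟨true, 8, 127, 3, 10⟩, ⟨true, 6, 63,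 1, 20⟩, ⟨true, 7, 1343, 7, 25⟩, ⟨true, 7, 1343, 21, 50⟩, ⟨true, 9, 1471, 9, 25⟩, ⟨true, 10, 3007, 13, 50⟩, ⟨true, 10, 3007, 19, 50⟩],
  [.spn 0 0 651200, .spn 1 1 302400, .spn 3 2 302400, .spn 7 3 302400, .spn 15 4 302400, .spn 31 5 140426, .spn 63 7 140426, .spn 191 8 140426, .spn 447 9 140426, .spn 959 10 140426]⟩

/-- piece 166 of the tree -/
noncomputable def t166 : WN.Tree :=
(.ask 1327
(.mark 1983 [6, 11, 12]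
(.spn
(.lp [[6], [0, 2, 4, 7, 9, 11], [1, 3, 5, 8, 10, 12]] [(.mj 6 11, 406), (.mj 8 9, 264), (.mj 9 10, 919), (.mj 10 6, 730), (.rw 10, 1), (.hz 13 2719, 336242), (.hz 19 2751, 2540499), (.hz 21 5439, 1752766), (.hz 18 3007, 4022353), (.hz 26 3007, 298051), (.hz 18 5567, 7600020)])
(.ask 2719
(.mark 4031 [6, 12, 13]
(.cut 6 [(0, 1), (1, 1), (2, 1), (3, 1), (5, 1), (7, 1), (11, 1), (21, 1), (15, 1), (23, 1), (31, 1), (47, 1), (63, 1), (159, 1), (303, 1), (191, 1), (319, 1), (671, 1), (1327, 1), (447, 1), (703, 1), (1343, 1), (2719, 1), (5423, 1), (959, 1), (1471, 1), (2751, 1), (10911, 1), (10943, 1)]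
(.cut 6 [(0, 1), (1, 1), (2, 1), (3, 1), (5, 1), (7, 1), (11, 1), (21, 1), (15, 1), (23, 1), (31, 1), (47, 1), (63, 1), (159, 1), (303, 1), (191, 1), (319, 1), (671, 1), (1327, 1), (447, 1), (703, 1), (1343, 1), (2719, 1), (5423, 1), (959, 1), (1471, 1), (2751, 1), (5439, 2), (10911, 2), (1983, 1), (5567, 1), (10943, 1)]
(.cut 6 [(0, 1), (1, 1), (2, 1), (3, 1), (5, 1), (7, 1), (11, 1), (21, 1), (15, 1), (23, 1), (31, 1), (47, 1), (63, 1), (159, 1), (303, 1), (191, 1), (319, 1), (671, 1), (1327, 1), (447, 1), (703, 1), (1343, 1), (2719, 1), (5423, 1), (959, 1), (1471, 1), (2751, 1), (10911, 2), (1983, 1), (10943, 1)]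
(.cut 6 [(0, 1), (1, 1), (2, 1), (3, 1), (5, 1), (7, 1), (11, 1), (21, 1), (15, 1), (23, 1), (31, 1), (47, 1), (63, 1), (159, 1), (303, 1), (191, 1), (319, 1), (671, 1), (1327, 1), (447, 1), (703, 1), (2719, 1), (5423, 1), (959, 1), (2751, 1), (10911, 1), (3007, 1), (10943, 2), (11199, 1)]
(.cut 6 [(0, 1), (1, 1), (2, 1), (3, 1), (5, 1), (7, 1), (11, 1), (21, 1), (15, 1), (23, 1), (31, 1), (47, 1), (63, 1), (159, 1), (303, 1), (191, 1), (319, 1), (671, 1), (1327, 1), (447, 1), (5423, 1)]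
(.cut 6 [(0, 1), (1, 1), (2, 1), (3, 1), (5, 1), (7, 1), (11, 1), (21, 1), (15, 1), (23, 1), (31, 1), (47, 1), (63, 1), (159, 1), (303, 1), (191, 1), (319, 1), (671, 1), (1327, 1), (447, 1), (703, 1), (1343, 1), (5423, 1), (959, 1), (1471, 1)]
(.lp [[6], [1, 3, 5, 8, 10, 12], [0, 2, 4, 7, 9, 11, 13]] [(.mj 7 8, 217092), (.mj 8 9, 127166), (.mj 10 11, 21930), (.mj 11 6, 137622), (.hz 21 319, 115093559), (.hz 21 1343, 19872038), (.hz 17 5423, 1667430172), (.hz 23 5439, 4384027), (.hz 12 2783, 307281930), (.hz 23 5503, 68233134), (.hz 19 10943, 3227082), (.hz 18 6079, 1074257894), (.rw 11, 4), (.rw 12, 2), (.rw 13, 1), (.rw 14, 3), (.rw 15, 296), (.rw 16, 77)]))))))))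
(.cut 6 [(0, 1), (1, 1), (2, 1), (3, 1), (5, 1), (7, 1), (11, 1), (21, 1), (15, 1), (23, 1), (31, 1), (47, 1), (63, 1), (159, 1), (303, 1), (191, 1), (319, 1), (1327, 1), (447, 1), (1343, 1), (5423, 1), (1471, 1)]
(.cut 6 [(0, 1), (1, 1), (2, 1), (3, 1), (5, 1), (7, 1), (11, 1), (21, 1), (15, 1), (23, 1), (31, 1), (47, 1), (63, 1), (159, 1), (303, 1), (191, 1), (671, 1), (1327, 1), (5423, 1)]
(.cut 6 [(0, 1), (1, 1), (2, 1), (3, 1), (5, 1), (7, 1), (11, 1), (21, 1), (15, 1), (23, 1), (31, 1), (47, 1), (63, 1), (159, 1), (303, 1), (191, 1), (319, 1), (671, 1), (1327, 1), (447, 1), (703, 1), (2719, 1), (5423, 1), (959, 1)]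
(.cut 6 [(0, 1), (1, 1), (2, 1), (3, 1), (5, 1), (7, 1), (11, 1), (21, 1), (15, 1), (23, 1), (31, 1), (47, 1), (63, 1), (159, 1), (303, 1), (191, 1), (671, 1), (1327, 1), (703, 1), (2719, 1), (5423, 1), (2751, 1)]
(.lp [[6], [0, 2, 4, 7, 9, 11], [1, 3, 5, 8, 10, 12]] [(.mj 7 8, 809582), (.mj 8 9, 422041), (.mj 10 11, 132856), (.mj 11 6, 490858), (.hz 17 5423, 6816166767), (.hz 23 5439, 49490916), (.hz 20 2815, 486590140), (.hz 23 5503, 23267985), (.hz 18 5567, 796926513), (.hz 24 5567, 18669433), (.hz 18 6079, 3604742108), (.rw 11, 382), (.rw 12, 755), (.rw 13, 385), (.rw 14, 40)]))))))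
(.lp [[6], [0, 2, 4, 7, 9, 11], [1, 3, 5, 8, 10, 12]] [(.mj 8 9, 1616), (.mj 9 10, 11543), (.mj 12 6, 9007), (.mj 12 11, 6096), (.rw 8, 4), (.hz 21 1343, 26958512), (.hz 13 2719, 7285245), (.hz 18 1471, 88369563), (.hz 19 2751, 55044073), (.hz 21 5439, 3837686), (.hz 18 1983, 23792090), (.hz 18 3007, 103802561), (.hz 26 3007, 8962001), (.hz 18 5567, 15614462), (.hz 18 4031, 227023707)])
.fin))
(.ask 1343
(.mark 1983 [6, 11, 12]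
(.spn
(.lp [[6], [0, 2, 4, 7, 9, 11], [1, 3, 5, 8, 10, 12]] [(.mj 6 11, 421), (.mj 8 9, 276), (.mj 9 10, 964), (.mj 10 6, 760), (.rw 10, 1), (.hz 13 2719, 351499), (.hz 19 2751, 2655767), (.hz 21 5439, 1811864), (.hz 18 3007, 4199913), (.hz 26 3007, 312823), (.hz 18 5567, 7959966)])
(.cut 6 [(0, 1), (1, 1), (2, 1), (3, 1), (5, 1), (7, 1), (11, 1), (21, 1), (15, 1), (23, 1), (31, 1), (47, 1), (63, 1), (159, 1), (303, 1), (191, 1), (319, 1), (671, 1), (1327, 1), (447, 1), (703, 1), (1343, 1), (959, 1), (1471, 1), (1983, 1)]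
(.lp [[6], [0, 2, 4, 7, 9, 11], [1, 3, 5, 8, 10, 12]] [(.mj 7 8, 3075), (.mj 8 9, 3327), (.mj 9 10, 379), (.mj 10 6, 100), (.mj 11 6, 2345), (.rw 11, 8)]))
(.lp [[6], [0, 2, 4, 7, 9, 11], [1, 3, 5, 8, 10, 12]] [(.mj 8 9, 1595), (.mj 9 10, 11413), (.mj 12 6, 8849), (.mj 12 11, 5982), (.rw 8, 4), (.hz 21 1343, 26654775), (.hz 13 2719, 7157295), (.hz 18 1471, 87373918), (.hz 19 2751, 54077344), (.hz 21 5439, 3426879), (.hz 18 1983, 23539720), (.hz 18 3007, 101900740), (.hz 26 3007, 8855614), (.hz 18 5567, 15174742), (.hz 18 4031, 222865371)])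
.fin))
(.haz 11 1983 3 25
(.haz 11 1983 7 50
(.ask 1471
(.mark 1983 [6, 11, 12]
(.spn
(.lp [[6], [0, 2, 4, 7, 9, 11], [1, 3, 5, 8, 10, 12]] [(.mj 6 11, 541), (.mj 8 9, 339), (.mj 9 10, 1181), (.mj 10 6, 957), (.rw 10, 1), (.hz 13 2719, 436176), (.hz 19 2751, 3295555), (.hz 18 3007, 5239919), (.hz 26 3007, 381052), (.hz 18 5567, 9303778), (.hz 28 6079, 1392766)])
(.cut 6 [(0, 1), (1, 1), (2, 1), (3, 1), (5, 1), (7, 1), (11, 1), (21, 1), (15, 1), (23, 1), (31, 1), (47, 1), (63, 1), (159, 1), (303, 1), (191, 1), (319, 1), (671, 1), (1327, 1), (447, 1), (703, 1), (1343, 1), (959, 1), (1471, 1)]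
(.lp [[6], [0, 2, 4, 7, 9, 11], [1, 3, 5, 8, 10, 12]] [(.mj 7 8, 5167), (.mj 8 9, 8334), (.mj 9 10, 2296), (.mj 11 6, 5667), (.hz 18 5567, 204644), (.hz 18 6079, 34272828), (.rw 11, 19)]))
(.cut 6 [(0, 1), (1, 1), (2, 1), (3, 1), (5, 1), (7, 1), (11, 1), (21, 1), (15, 1), (23, 1), (31, 1), (47, 1), (63, 1), (159, 1), (303, 1), (191, 1), (319, 1), (671, 1), (1327, 1), (447, 1), (703, 1), (1343, 1), (959, 1), (1471, 1), (1983, 1), (5567, 1)]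
(.lp [[6], [0, 2, 4, 7, 9, 11], [1, 3, 5, 8, 10, 12]] [(.mj 8 9, 8240), (.mj 9 10, 62652), (.mj 12 6, 43981), (.mj 12 11, 30368), (.rw 8, 21), (.hz 21 1343, 146324920), (.hz 13 2719, 30224530), (.hz 18 1471, 364733763), (.hz 19 2751, 228363115), (.hz 18 3007, 431876183), (.hz 26 3007, 47812961), (.hz 18 5567, 182350368), (.hz 18 4031, 1197074710), (.rw 11, 22)]))
.fin))
(.ask 1983
(.mark 1983 [6, 11, 12]
(.spn
(.haz 11 6079 11 50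
(.lp [[6], [0, 2, 4, 7, 9, 11], [1, 3, 5, 8, 10, 12]] [(.mj 6 11, 111), (.mj 6 12, 62), (.mj 7 8, 76), (.mj 8 9, 34), (.mj 10 6, 152), (.hz 13 2719, 40940), (.hz 19 2751, 425342), (.hz 18 3007, 215917), (.hz 28 2047, 285866), (.hz 29 6079, 389917)])
(.lp [[6], [0, 2, 4, 7, 9, 11], [1, 3, 5, 8, 10, 12]] [(.mj 7 8, 1479), (.mj 8 9, 405), (.mj 9 10, 9820), (.mj 10 6, 4387), (.rw 10, 13), (.hz 29 671, 574279), (.hz 29 703, 2025832), (.hz 29 959, 5277459), (.hz 19 2751, 6942926), (.hz 28 2047, 6305615)]))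
(.cut 6 [(0, 1), (1, 1), (2, 1), (3, 1), (5, 1), (7, 1), (11, 1), (21, 1), (15, 1), (23, 1), (31, 1), (47, 1), (63, 1), (159, 1), (303, 1), (191, 1), (319, 1), (671, 1), (1327, 1), (447, 1), (703, 1), (1343, 1), (959, 1), (1471, 1)]
(.lp [[6], [0, 2, 4, 7, 9, 11], [1, 3, 5, 8, 10, 12]] [(.mj 7 8, 889), (.mj 8 9, 850), (.mj 11 6, 632), (.mj 11 12, 10), (.hz 12 2783, 361209), (.hz 18 6079, 3017650), (.rw 11, 2)]))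
(.cut 6 [(0, 1), (1, 1), (2, 1), (3, 1), (5, 1), (7, 1), (11, 1), (21, 1), (15, 1), (23, 1), (31, 1), (47, 1), (63, 1), (159, 1), (303, 1), (191, 1), (671, 1), (1327, 1), (703, 1)]
(.cut 6 [(0, 1), (1, 1), (2, 1), (3, 1), (5, 1), (7, 1), (11, 1), (21, 1), (15, 1), (23, 1), (31, 1), (47, 1), (63, 1), (159, 1), (303, 1), (191, 1), (319, 1), (671, 1), (1327, 1), (447, 1), (703, 1), (1343, 1), (959, 1), (1471, 1), (1983, 1)]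
(.lp [[6], [0, 2, 4, 7, 9, 11], [1, 3, 5, 8, 10, 12]] [(.mj 7 8, 6279), (.mj 8 9, 4926), (.mj 9 10, 547), (.mj 12 6, 4164), (.rw 11, 6), (.rw 12, 8)])))
.fin))
(.cut 6 [(0, 1), (1, 1), (2, 1), (3, 1), (5, 1), (7, 1), (11, 1), (21, 1), (15, 1), (23, 1), (31, 1), (47, 1), (63, 1), (159, 1), (303, 1), (191, 1), (319, 1), (671, 1), (1327, 1), (447, 1), (703, 1), (1343, 1), (2719, 2), (1471, 1), (2751, 1)]
(.cut 6 [(0, 1), (1, 1), (2, 1), (3, 1), (5, 1), (7, 1), (11, 1), (21, 1), (15, 1), (23, 1), (31, 1), (47, 1), (63, 1), (159, 1), (303, 1), (191, 1), (319, 1), (1327, 1), (447, 1), (1343, 1), (1471, 1)]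
(.lp [[6], [1, 3, 5, 8, 10], [0, 2, 4, 7, 9, 11]] [(.mj 7 8, 8960), (.mj 8 9, 175723), (.mj 9 10, 22899), (.mj 10 6, 94251), (.hz 19 2751, 1202779626), (.hz 18 3007, 888471443), (.rw 10, 80), (.rw 11, 32)])))))
(.cut 6 [(0, 1), (1, 1), (2, 1), (3, 1), (5, 1), (7, 1), (11, 1), (21, 1), (15, 1), (23, 1), (31, 1), (47, 1), (63, 1), (159, 1), (303, 1), (191, 1), (319, 1), (671, 1), (1327, 1), (447, 1), (703, 1), (959, 1)]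
(.cut 6 [(0, 1), (1, 1), (2, 1), (3, 1), (5, 1), (7, 1), (11, 1), (21, 1), (15, 1), (23, 1), (31, 1), (47, 1), (63, 1), (159, 1), (303, 1), (191, 1), (319, 1), (671, 1), (1327, 1), (447, 1), (703, 1), (2719, 1), (959, 1), (2751, 1), (3007, 1)]
(.lp [[6], [1, 3, 5, 8, 10], [0, 2, 4, 7, 9, 11]] [(.mj 7 8, 1002640), (.mj 8 9, 86794), (.mj 9 10, 203105), (.mj 10 6, 503727), (.hz 28 671, 226413340), (.hz 28 703, 616600851), (.hz 27 1983, 336982762), (.rw 10, 1153), (.rw 11, 73)]))))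
(.cut 6 [(0, 1), (1, 1), (2, 1), (3, 1), (5, 1), (7, 1), (11, 1), (21, 1), (15, 1), (23, 1), (31, 1), (47, 1), (63, 1), (159, 1), (303, 1), (191, 1), (319, 1), (671, 1), (1327, 1), (447, 1), (703, 1), (1343, 1), (959, 1)]
(.lp [[6], [1, 3, 5, 8, 10], [0, 2, 4, 7, 9, 11]] [(.mj 7 8, 3206), (.mj 8 9, 427), (.mj 9 10, 711), (.mj 10 6, 1718), (.hz 27 671, 2844812), (.hz 27 703, 1075955), (.rw 10, 4)])))))

theorem run166 : run P3488 (leaf3 218 625) (cutRow P3488) [] t166 s166 = true := by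
  decide +kernel

theorem bad166 : Bad P3488 s166 :=
  run_sound (leaf3_sound P3488 rfl rfl) (cutRow_sound P3488) (
    fun _ h => absurd h List.not_mem_nil) t166 s166 run166

/-- the state above piece 65 of the tree -/
def s65 : St := ⟨[0, 0, 1, 1, 3, 5, 19], [39, 37, 23, 7, 3, 2, 1, 0], [0, 1, 2, 4, 5],
  [],
  [⟨true, 1, 9, 7, 50⟩, ⟨true, 2, 11, 3, 50⟩, ⟨true, 2, 9, 9, 50⟩, ⟨false, 3, 3, 1, 5⟩, ⟨true, 2, 3, 1, 4⟩, ⟨true, 1, 9, 3, 10⟩, ⟨true, 2, 9, 3, 10⟩, ⟨true, 1, 9, 7, 20⟩, ⟨true, 1, 5, 7, 20⟩, ⟨true, 3, 37, 1, 20⟩, ⟨false, 3, 3, 3, 20⟩, ⟨true, 1, 9, 2, 5⟩, ⟨true, 3, 87, 1, 20⟩, ⟨true, 3, 119, 3, 40⟩],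
  [.spn 0 0 651200, .spn 1 1 140426, .spn 3 2 140426, .spn 7 4 140426, .spn 23 5 140426]⟩

/-- piece 65 of the tree -/
noncomputable def t65 : WN.Tree :=
(.haz 5 87 7 20
(.ask 55
(.mark 55 [3, 6, 7]
(.spn
(.haz 6 183 3 20
(.ask 183
(.mark 183 [3, 6, 8]
(.ask 439
(.haz 6 55 1 5
(.mark 439 [3, 6, 9]
(.lp [[3], [1, 4, 6], [0, 2, 5, 7, 8, 9]] [(.mj 3 6, 40), (.mj 3 7, 15), (.mj 4 5, 2), (.mj 5 3, 57), (.hz 16 55, 982), (.hz 16 63, 137103), (.hz 16 183, 56983), (.hz 16 191, 8887), (.hz 16 439, 35545), (.hz 16 951, 44431)]))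
(.lp [[3], [1, 4, 6], [0, 2, 5, 7, 8, 9]] [(.mj 3 7, 3), (.mj 4 5, 3), (.mj 5 3, 4), (.hz 16 19, 1143), (.hz 16 23, 2850), (.hz 16 55, 4178), (.hz 12 87, 1171), (.hz 15 183, 1466)]))
(.lp [[3], [1, 4, 6], [0, 2, 5, 7, 8]] [(.mj 3 6, 11), (.mj 5 3, 20), (.hz 15 191, 18581)])))
(.lp [[3], [1, 4, 6], [0, 2, 5, 7]] [(.mj 3 6, 10), (.mj 5 3, 18)]))
(.lp [[3], [1, 4, 6], [0, 2, 5, 7]] [(.mj 3 7, 5), (.mj 4 5, 4), (.mj 5 3, 6), (.hz 15 19, 399), (.hz 15 23, 1069), (.hz 15 55, 1256), (.hz 13 119, 843)]))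
(.haz 6 183 1 5
(.haz 6 183 3 10
(.ask 83
(.mark 119 [3, 7, 8]
(.spn
(.lp [[3], [0, 2, 5, 7], [1, 4, 6, 8]] [(.mj 3 7, 668), (.mj 5 6, 1183), (.mj 6 3, 877), (.rw 6, 1), (.hz 9 183, 246667), (.hz 16 183, 309069), (.hz 13 375, 623085)])
(.ask 183
(.mark 247 [3, 8, 9]
(.cut 3 [(0, 1), (1, 1), (2, 1), (3, 1), (5, 1), (7, 1), (19, 1), (37, 1), (23, 1), (39, 1), (55, 1), (183, 1)]
(.cut 3 [(0, 1), (1, 1), (2, 1), (3, 1), (5, 1), (7, 1), (19, 1), (37, 1), (23, 1), (39, 1), (83, 1), (55, 1), (87, 1), (119, 1)]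
(.lp [[3], [1, 4, 6, 8], [0, 2, 5, 7, 9]] [(.mj 0 1, 52496), (.mj 6 7, 6788), (.mj 7 3, 22247), (.hz 13 375, 11217967), (.hz 13 759, 889434), (.rw 7, 49), (.rw 8, 13)]))))
(.ask 247
(.mark 247 [3, 8, 9]
(.spn
(.lp [[3], [1, 4, 6, 8], [0, 2, 5, 7, 9]] [(.mj 0 1, 1977), (.mj 3 9, 227), (.mj 7 3, 939), (.rw 7, 2), (.hz 12 343, 337490), (.hz 13 375, 1839846)])
(.lp [[3], [1, 4, 6, 8], [0, 2, 5, 7, 9]] [(.mj 5 6, 7), (.mj 8 3, 5), (.mj 8 9, 1), (.hz 13 119, 4808), (.hz 13 247, 1253), (.hz 13 375, 5528), (.hz 13 759, 4272)])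
(.lp [[3], [1, 4, 6, 8], [0, 2, 5, 7, 9]] [(.mj 0 1, 22), (.mj 9 3, 12), (.hz 4 339, 1159), (.hz 13 119, 10919), (.hz 12 343, 14122), (.hz 14 343, 186), (.hz 13 247, 9620), (.hz 13 375, 2389)])
.fin))
(.lp [[3], [0, 2, 5, 7], [1, 4, 6, 8]] [(.mj 2 4, 2), (.mj 5 6, 2), (.mj 7 3, 3), (.hz 13 119, 1942), (.hz 13 375, 4087)])))
(.lp [[3], [0, 2, 5, 7], [1, 4, 6, 8]] [(.mj 5 6, 2), (.mj 8 3, 2), (.mj 8 7, 1), (.hz 13 119, 1519), (.hz 9 183, 1977), (.hz 16 183, 1176), (.hz 13 247, 2300), (.hz 13 375, 1450)])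
.fin))
(.ask 87
(.mark 119 [3, 7, 8]
(.spn
(.lp [[3], [0, 2, 5, 7], [1, 4, 6, 8]] [(.mj 3 7, 1313), (.mj 5 6, 2503), (.mj 6 3, 1751), (.rw 6, 2), (.hz 9 183, 492366), (.hz 16 183, 657121), (.hz 13 375, 1087682)])
(.ask 183
(.mark 247 [3, 8, 9]
(.spn
(.lp [[3], [1, 4, 6, 8], [0, 2, 5, 7, 9]] [(.mj 0 1, 39), (.mj 6 7, 119), (.mj 7 3, 459), (.rw 7, 1), (.hz 12 343, 453152), (.hz 13 375, 683517), (.hz 13 759, 310202)])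
(.cut 3 [(0, 1), (1, 1), (2, 1), (3, 1), (5, 1), (7, 1), (19, 1), (37, 1), (23, 1), (39, 1), (83, 1), (55, 1), (87, 1), (119, 1), (183, 1), (247, 1)]
(.lp [[3], [1, 4, 6, 8], [0, 2, 5, 7, 9]] [(.mj 0 1, 748), (.mj 5 6, 53), (.mj 6 7, 54), (.mj 7 3, 114), (.mj 8 3, 199), (.mj 8 9, 10), (.rw 8, 1)]))
(.cut 3 [(0, 1), (1, 1), (2, 1), (3, 1), (5, 1), (7, 1), (19, 1), (37, 1), (23, 1), (39, 1), (83, 1), (55, 1), (87, 1), (119, 1)]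
(.lp [[3], [1, 4, 6, 8], [0, 2, 5, 7, 9]] [(.mj 0 1, 1177), (.mj 5 6, 97), (.mj 6 7, 232), (.mj 9 3, 558), (.mj 9 8, 39), (.rw 8, 2)]))
.fin))
(.ask 247
(.mark 247 [3, 8, 9]
(.spn
(.lp [[3], [1, 4, 6, 8], [0, 2, 5, 7, 9]] [(.mj 0 1, 1040), (.mj 3 9, 108), (.mj 7 3, 482), (.rw 7, 1), (.hz 12 343, 160513), (.hz 13 375, 870476)])
(.lp [[3], [1, 4, 6, 8], [0, 2, 5, 7, 9]] [(.mj 5 6, 10), (.mj 8 3, 6), (.mj 8 9, 1), (.hz 13 119, 6389), (.hz 13 247, 1665), (.hz 13 375, 6014), (.hz 13 759, 5149)])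
(.lp [[3], [1, 4, 6, 8], [0, 2, 5, 7, 9]] [(.mj 0 1, 22), (.mj 9 3, 12), (.hz 13 119, 10919), (.hz 12 343, 10639), (.hz 14 343, 21), (.hz 13 247, 9620), (.hz 13 375, 1291)])
.fin))
(.lp [[3], [0, 2, 5, 7], [1, 4, 6, 8]] [(.mj 0 1, 1), (.mj 7 3, 2), (.mj 7 8, 2), (.hz 13 375, 4825)])))
(.lp [[3], [0, 2, 5, 7], [1, 4, 6, 8]] [(.mj 5 6, 4), (.mj 8 3, 4), (.mj 8 7, 2), (.hz 13 119, 2844), (.hz 9 183, 3525), (.hz 16 183, 2183), (.hz 13 247, 4106), (.hz 13 375, 2228)])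
.fin))
(.ask 119
(.mark 119 [3, 7, 8]
(.spn
(.haz 8 247 7 20
(.ask 183
(.mark 247 [3, 8, 9]
(.lp [[3], [1, 4, 6, 8], [0, 2, 5, 7, 9]] [(.mj 2 4, 1), (.mj 3 7, 20), (.mj 3 8, 45), (.mj 6 3, 62), (.hz 13 247, 15458), (.hz 17 247, 43068), (.hz 9 695, 50075), (.hz 16 695, 29562), (.hz 17 759, 47364)]))
(.lp [[3], [0, 2, 5, 7], [1, 4, 6, 8]] [(.mj 3 7, 9), (.mj 3 8, 14), (.mj 5 6, 12), (.mj 6 3, 19), (.hz 13 247, 1239), (.hz 17 247, 15299)]))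
(.lp [[3], [0, 2, 5, 7], [1, 4, 6, 8]] [(.mj 3 7, 4), (.mj 5 6, 3), (.mj 6 3, 4), (.hz 17 119, 2004)]))
(.ask 183
(.mark 247 [3, 8, 9]
(.spn
(.lp [[3], [1, 4, 6, 8], [0, 2, 5, 7, 9]] [(.mj 6 7, 73), (.mj 7 3, 323), (.rw 7, 1), (.hz 13 375, 454387), (.hz 13 759, 215808)])
(.cut 3 [(0, 1), (1, 1), (2, 1), (3, 1), (5, 1), (7, 1), (19, 1), (37, 1), (23, 1), (39, 1), (83, 1), (55, 1), (87, 1), (119, 1), (183, 1), (247, 1)]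
(.lp [[3], [1, 4, 6, 8], [0, 2, 5, 7, 9]] [(.mj 7 3, 274), (.mj 7 8, 57), (.mj 8 3, 736), (.mj 8 9, 22), (.rw 8, 4)]))
(.cut 3 [(0, 1), (1, 1), (2, 1), (3, 1), (5, 1), (7, 1), (19, 1), (37, 1), (23, 1), (39, 1), (83, 1), (55, 1), (87, 1), (119, 1)]
(.lp [[3], [1, 4, 6, 8], [0, 2, 5, 7, 9]] [(.mj 6 7, 71), (.mj 9 3, 277), (.mj 9 8, 38), (.rw 8, 1)]))
.fin))
(.ask 247
(.mark 247 [3, 8, 9]
(.spn
(.lp [[3], [1, 4, 6, 8], [0, 2, 5, 7, 9]] [(.mj 3 9, 67), (.mj 7 3, 389), (.rw 7, 1), (.hz 13 375, 576480)])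
(.lp [[3], [1, 4, 6, 8], [0, 2, 5, 7, 9]] [(.mj 0 1, 111), (.mj 7 8, 10), (.mj 8 3, 65), (.hz 13 119, 56294), (.hz 13 247, 49599), (.hz 13 375, 15497), (.hz 13 759, 25474)])
(.lp [[3], [1, 4, 6, 8], [0, 2, 5, 7, 9]] [(.mj 9 3, 14), (.hz 13 119, 13758), (.hz 13 247, 12734), (.hz 13 375, 3197)])
.fin))
(.lp [[3], [0, 2, 5, 7], [1, 4, 6, 8]] [(.mj 0 1, 22), (.mj 7 3, 35), (.mj 7 8, 42), (.hz 13 375, 88067)])))
(.cut 3 [(0, 1), (1, 1), (2, 1), (3, 1), (5, 1), (7, 1), (37, 1), (39, 1)]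
(.cut 3 [(0, 1), (1, 1), (2, 1), (3, 1), (5, 1), (7, 1), (19, 1), (37, 1), (23, 1), (39, 1), (83, 1), (55, 1), (87, 1), (119, 1)]
(.lp [[3], [0, 2, 5, 7], [1, 4, 6, 8]] [(.mj 0 1, 50510), (.mj 8 3, 17569), (.rw 6, 1), (.hz 16 183, 1372548), (.hz 16 191, 18357830), (.rw 7, 32), (.rw 8, 28)])))
.fin))
(.spn
(.lp [[3], [1, 4, 6], [0, 2, 5, 7]] [(.mj 3 7, 1), (.mj 6 3, 1)])
(.cut 3 [(0, 1), (1, 1), (2, 1), (3, 1), (5, 1), (7, 1), (19, 1), (37, 1), (23, 1), (39, 1), (83, 1), (55, 1), (87, 1), (119, 1)]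
(.lp [[3], [1, 4, 6], [0, 2, 5, 7]] [(.mj 6 7, 1645), (.mj 7 3, 592), (.rw 7, 2)]))
.fin
.fin))))
(.lp [[3], [1, 4, 6], [0, 2, 5, 7]] [(.mj 6 3, 6), (.mj 6 7, 7), (.hz 16 19, 812), (.hz 16 23, 2339), (.hz 16 55, 5006), (.hz 12 87, 279), (.hz 9 183, 10824)]))
(.lp [[3], [1, 4, 6], [0, 2, 5, 7]] [(.mj 4 5, 214), (.mj 6 7, 357), (.rw 5, 1), (.hz 15 55, 2545178)]))
(.ask 183
(.mark 183 [3, 6, 8]
(.spn
(.lp [[3], [1, 4, 6], [0, 2, 5, 7, 8]] [(.mj 7 3, 149), (.rw 6, 1)])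
(.lp [[3], [1, 4, 6], [0, 2, 5, 7, 8]] [(.mj 7 6, 611), (.rw 6, 1), (.hz 13 119, 928198)])
(.ask 83
(.mark 247 [3, 8, 9]
(.cut 3 [(0, 1), (1, 1), (2, 1), (3, 1), (5, 1), (7, 1), (19, 1), (37, 1), (23, 1), (39, 1)]
(.cut 3 [(0, 1), (1, 1), (2, 1), (3, 1), (5, 1), (7, 1), (19, 1), (37, 1), (23, 1), (39, 1), (83, 1), (55, 1), (87, 1), (119, 1), (183, 1), (247, 1)]
(.cut 6 [(0, 1), (1, 1), (2, 1), (3, 1), (5, 1), (9, 1), (7, 1), (11, 1), (13, 1), (19, 1), (37, 1), (15, 1), (23, 1), (27, 1), (39, 1), (45, 1), (31, 1), (47, 1), (55, 1), (63, 2), (183, 1), (191, 1)]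
(.lp [[3], [1, 4, 6, 9], [0, 2, 5, 7, 8]] [(.mj 4 5, 2072), (.mj 8 3, 2666), (.mj 8 6, 751), (.hz 6 91, 1575616), (.hz 4 595, 212234), (.hz 13 119, 355536), (.hz 14 599, 227394), (.hz 14 607, 1791281), (.hz 13 247, 348635), (.rw 7, 3), (.rw 8, 6), (.rw 9, 1)])))))
(.cut 3 [(0, 1), (1, 1), (2, 1), (3, 1), (5, 1), (7, 1), (19, 1), (37, 1), (23, 1), (39, 1), (55, 1)]
(.cut 3 [(0, 1), (1, 1), (2, 1), (3, 1), (5, 1), (19, 1), (83, 1)]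
(.cut 6 [(0, 1), (1, 1), (2, 1), (3, 1), (5, 1), (9, 1), (7, 1), (11, 1), (13, 1), (19, 1), (37, 1), (15, 1), (23, 1), (27, 1), (39, 1), (45, 1), (31, 1), (47, 1), (55, 1), (63, 1)]
(.lp [[3], [1, 4, 6], [0, 2, 5, 7, 8]] [(.mj 4 5, 17588), (.mj 8 3, 94703), (.mj 8 6, 7308), (.hz 14 87, 1516166), (.hz 14 95, 41092252), (.hz 9 183, 10784132), (.hz 13 247, 28163866), (.rw 7, 202), (.rw 8, 104), (.rw 9, 14)])))))
.fin))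
(.lp [[3], [1, 4, 6], [0, 2, 5, 7]] [(.mj 7 6, 1), (.rw 5, 1)]))
.fin))
(.spn
(.lp [[3], [0, 2, 5], [1, 4, 6]] [(.mj 3 6, 2), (.mj 5 3, 3)])
(.lp [[3], [0, 2, 5], [1, 4, 6]] [(.mj 5 6, 9), (.mj 6 3, 5), (.hz 13 119, 3581)])
.fin
.fin))
(.lp [[3], [0, 2, 5], [1, 4, 6]] [(.mj 4 5, 3), (.mj 5 3, 16), (.mj 5 6, 17), (.hz 14 23, 4951), (.hz 12 87, 16882)]))

theorem run65 : run P3488 (leaf3 218 625) (cutRow P3488) [] t65 s65 = true := by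
  decide +kernel

theorem bad65 : Bad P3488 s65 :=
  run_sound (leaf3_sound P3488 rfl rfl) (cutRow_sound P3488) (
    fun _ h => absurd h List.not_mem_nil) t65 s65 run65

end Pool.Agent.WN.Data
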