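import Pool.Agent.WN.CutRow
import Pool.Agent.WN.LeafRow
import Pool.Agent.Helper99.WN.ParDef
import Pool.Agent.WN.Data.D0

/-!
# The search tree, part 5
-/

set_option autoImplicit false

namespace Pool.Agent.WN.Data

open Pool.Agent.W3 Pool.Agent.WN Pool.Agent.Helper99.WN

/-- the state above piece 91 of the tree -/
def s91 : St := ⟨[0, 0, 1, 3, 5, 5, 11, 31, 95], [95, 79, 75, 31, 23, 21, 15, 7, 3, 2, 1, 0], [0, 1, 2, 3, 4, 6, 7],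
  [],
  [⟨true, 2, 3, 3, 10⟩, ⟨true, 1, 5, 2, 5⟩, ⟨true, 2, 3, 23, 50⟩, ⟨true, 1, 5, 12, 25⟩, ⟨true, 2, 11, 12, 25⟩, ⟨true, 4, 79, 11, 50⟩, ⟨true, 5, 31, 1, 50⟩, ⟨true, 3, 39, 7, 25⟩, ⟨true, 5, 31, 1, 25⟩, ⟨true, 4, 47, 17, 50⟩, ⟨true, 3, 39, 2, 5⟩, ⟨true, 3, 39, 23, 50⟩, ⟨true, 5, 159, 3, 50⟩, ⟨true, 1, 37, 27, 50⟩, ⟨true, 3, 55, 16, 25⟩, ⟨true, 6, 159, 11, 50⟩, ⟨true, 1, 37, 29, 50⟩, ⟨true, 3, 39, 12, 25⟩, ⟨true, 1, 53, 7, 10⟩, ⟨true, 6, 47, 11, 50⟩, ⟨true, 6, 191, 3, 10⟩],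
  [.spn 0 0 651200, .spn 1 1 302400, .spn 3 2 302400, .spn 7 3 140426, .spn 15 4 140426, .spn 31 6 140426, .spn 95 7 140426]⟩

/-- piece 91 of the tree -/
noncomputable def t91 : WN.Tree :=
(.ask 159
(.mark 223 [5, 8, 9]
(.spn
(.haz 8 735 13 50
(.haz 8 223 8 25
(.lp [[5], [1, 3, 6, 8], [0, 2, 4, 7, 9]] [(.mj 5 8, 2990), (.mj 5 9, 312), (.mj 6 7, 2292), (.mj 7 5, 2990), (.rw 7, 1), (.hz 22 223, 758420), (.hz 12 671, 723760), (.hz 22 255, 1195884), (.hz 22 735, 2860637)])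
(.lp [[5], [1, 3, 6, 8], [0, 2, 4, 7, 9]] [(.mj 5 9, 23), (.mj 6 7, 36), (.mj 7 5, 38), (.hz 22 95, 19164), (.hz 22 223, 28463), (.hz 8 351, 15278), (.hz 12 671, 18136), (.hz 21 735, 11873)]))
(.lp [[5], [1, 3, 6, 8], [0, 2, 4, 7, 9]] [(.mj 6 7, 6231), (.mj 7 5, 3206), (.rw 7, 4), (.hz 21 95, 760551), (.hz 21 223, 562381), (.hz 8 351, 1282374), (.hz 12 671, 3205723)]))
(.haz 6 671 17 50
(.haz 6 671 2 5
(.haz 6 671 11 25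
(.ask 351
(.mark 479 [5, 9, 10]
(.spn
(.lp [[5], [0, 2, 4, 7, 9], [1, 3, 6, 8, 10]] [(.mj 0 1, 14990), (.mj 5 9, 49), (.mj 7 8, 1109), (.mj 8 5, 6537), (.rw 8, 14), (.hz 12 671, 2796647), (.hz 12 735, 10566427), (.hz 12 1503, 4656418)])
(.cut 5 [(0, 1), (1, 1), (2, 1), (3, 1), (5, 1), (7, 1), (11, 1), (21, 1), (15, 1), (23, 1), (75, 1), (31, 1), (79, 1), (95, 1), (159, 1), (223, 1), (351, 1), (479, 1)]
(.cut 5 [(0, 1), (1, 1), (2, 1), (3, 1), (5, 1), (7, 1), (11, 1), (21, 1), (15, 1), (23, 1), (75, 1), (31, 1), (79, 1), (95, 1), (159, 1), (223, 1), (671, 1), (735, 1)]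
(.cut 5 [(0, 1), (1, 1), (2, 1), (3, 1), (5, 1), (7, 1), (11, 1), (21, 1), (15, 1), (23, 1), (75, 1), (31, 1), (79, 1), (95, 1), (159, 1), (223, 1), (671, 2), (735, 1)]
(.lp [[5], [0, 2, 4, 7, 9], [1, 3, 6, 8, 10]] [(.mj 0 1, 13019120), (.mj 7 8, 94278), (.mj 8 9, 728463), (.mj 9 5, 2472573), (.mj 9 10, 12490), (.hz 16 37, 55272827), (.hz 18 53, 228987425), (.hz 23 703, 1183407151), (.hz 8 1375, 482944100), (.hz 12 1503, 1920663277), (.rw 9, 6377), (.rw 10, 19), (.rw 11, 160)]))))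
(.cut 5 [(0, 1), (1, 1), (2, 1), (3, 1), (5, 1), (7, 1), (11, 1), (21, 1), (15, 1), (23, 1), (75, 1), (31, 1), (79, 1), (95, 1), (159, 1), (223, 1)]
(.lp [[5], [0, 2, 4, 7, 9], [1, 3, 6, 8, 10]] [(.mj 0 1, 9002), (.mj 7 8, 1259), (.mj 10 5, 4034), (.mj 10 9, 845), (.hz 23 671, 95970), (.hz 23 703, 1073306), (.hz 12 735, 527007), (.hz 12 1503, 120288), (.rw 9, 13)]))
.fin))
(.ask 479
(.mark 479 [5, 9, 10]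
(.spn
(.ask 37
(.mark 63 [6, 7, 11]
(.lp [[5, 11], [0, 2, 4, 7, 9], [1, 3, 6, 8, 10]] [(.mj 0 1, 4956), (.mj 5 10, 17), (.mj 8 5, 559), (.rw 8, 1), (.hz 16 2085, 36801), (.hz 17 2087, 137341), (.hz 18 2101, 188066), (.hz 19 2095, 117447), (.hz 14 2103, 226949), (.hz 19 2111, 285548), (.hz 12 671, 156342), (.hz 23 671, 48376), (.hz 12 735, 785383)]))
(.ask 53
(.mark 63 [6, 7, 11]
(.lp [[5, 11], [0, 2, 4, 7, 9], [1, 3, 6, 8, 10]] [(.mj 0 1, 137842), (.mj 5 10, 553), (.mj 8 5, 16067), (.rw 8, 29), (.hz 18 2101, 6235056), (.hz 14 2103, 6767194), (.hz 19 2111, 8273246), (.hz 12 671, 4611983), (.hz 23 671, 1317304), (.hz 12 735, 22785440)]))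
(.haz 10 991 17 50
(.lp [[5], [0, 2, 4, 7, 9], [1, 3, 6, 8, 10]] [(.mj 0 1, 149813), (.mj 5 9, 1666), (.mj 5 10, 5904), (.mj 8 5, 30751), (.rw 8, 49), (.hz 12 671, 10201133), (.hz 23 671, 1876707), (.hz 12 735, 42282940), (.hz 24 991, 6389123)])
(.lp [[5], [0, 2, 4, 7, 9], [1, 3, 6, 8, 10]] [(.mj 0 1, 12), (.mj 5 9, 5), (.mj 8 5, 6), (.hz 24 479, 2867)]))))
(.ask 37
(.mark 63 [6, 7, 11]
(.cut 5 [(0, 1), (1, 1), (2, 1), (3, 1), (5, 1), (7, 1), (11, 1), (21, 1), (15, 1), (23, 1), (75, 1), (31, 1), (79, 1), (95, 1), (159, 1), (223, 1), (351, 1), (479, 1), (1503, 2)]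
(.lp [[5, 11], [0, 2, 4, 7, 9], [1, 3, 6, 8, 10]] [(.mj 0 1, 22318), (.mj 6 7, 1918), (.mj 8 9, 391), (.mj 9 5, 3638), (.mj 9 10, 73), (.hz 16 2085, 160486), (.hz 17 2087, 489381), (.hz 18 2101, 745244), (.hz 14 2103, 778573), (.hz 12 1503, 2081616), (.rw 9, 10)])))
(.cut 5 [(0, 1), (1, 1), (2, 1), (3, 1), (5, 1), (7, 1), (11, 1), (21, 1), (15, 1), (23, 1), (75, 1), (31, 1), (79, 1), (95, 1), (159, 1), (223, 1), (671, 2), (735, 1)]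
(.cut 5 [(0, 1), (1, 1), (2, 1), (3, 1), (5, 1), (7, 1), (11, 1), (21, 1), (15, 1), (23, 1), (75, 1), (31, 1), (79, 1), (95, 1), (159, 1), (223, 1), (351, 1), (479, 1)]
(.cut 5 [(0, 1), (1, 1), (2, 1), (3, 1), (5, 1), (7, 1), (11, 1), (21, 1), (15, 1), (23, 1), (75, 1), (31, 1), (159, 1), (671, 1)]
(.lp [[5], [0, 2, 4, 7, 9], [1, 3, 6, 8, 10]] [(.mj 0 1, 2693332), (.mj 6 7, 247237), (.mj 8 9, 55899), (.mj 9 5, 587806), (.mj 9 10, 4728), (.hz 18 53, 88596445), (.hz 12 1503, 338084083), (.rw 9, 33), (.rw 10, 1572), (.rw 11, 73)])))))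
(.cut 5 [(0, 1), (1, 1), (2, 1), (3, 1), (5, 1), (7, 1), (11, 1), (21, 1), (15, 1), (23, 1), (75, 1), (31, 1), (79, 1), (95, 1), (159, 1), (223, 1), (351, 1), (479, 1)]
(.lp [[5], [0, 2, 4, 7, 9], [1, 3, 6, 8, 10]] [(.mj 0 1, 824), (.mj 6 7, 38), (.mj 10 5, 311), (.hz 23 703, 94216), (.hz 12 479, 9970), (.rw 9, 1)]))
.fin))
(.lp [[5], [1, 3, 6, 8], [0, 2, 4, 7, 9]] [(.mj 0 1, 8), (.mj 8 5, 12), (.mj 8 9, 13), (.hz 12 671, 9717), (.hz 12 735, 34074)])))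
(.cut 5 [(0, 1), (1, 1), (2, 1), (3, 1), (5, 1), (7, 1), (11, 1), (21, 1), (15, 1), (23, 1), (75, 1), (31, 1), (79, 1), (95, 1), (159, 1), (223, 1)]
(.lp [[5], [1, 3, 6, 8], [0, 2, 4, 7, 9]] [(.mj 6 7, 899), (.mj 8 5, 2336), (.mj 8 9, 1850), (.hz 23 31, 1151450), (.hz 23 159, 1108548), (.hz 12 223, 385736), (.hz 12 671, 774287), (.hz 22 671, 8070378), (.hz 12 735, 3814247), (.rw 8, 2)])))
(.lp [[5], [1, 3, 6, 8], [0, 2, 4, 7, 9]] [(.mj 3 4, 2), (.mj 6 7, 2), (.mj 8 5, 5), (.mj 8 9, 4), (.hz 22 31, 14091), (.hz 19 63, 947), (.hz 22 159, 11382), (.hz 12 223, 1480), (.hz 12 671, 2455), (.hz 21 671, 1800), (.hz 12 735, 8351)]))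
(.lp [[5], [1, 3, 6, 8], [0, 2, 4, 7, 9]] [(.mj 3 4, 1), (.mj 6 7, 4), (.mj 8 5, 3), (.hz 21 31, 841), (.hz 19 63, 599), (.hz 12 159, 1732), (.hz 12 223, 337), (.hz 12 671, 337)]))
(.haz 8 223 6 25
(.cut 5 [(0, 1), (1, 1), (2, 1), (3, 1), (5, 1), (7, 1), (11, 1), (21, 1), (15, 1), (23, 1), (75, 1), (31, 1), (79, 1), (95, 1), (159, 1), (223, 1)]
(.lp [[5], [1, 3, 6, 8], [0, 2, 4, 7, 9]] [(.mj 6 7, 1052), (.mj 9 5, 645), (.mj 9 8, 645), (.hz 21 223, 311377), (.hz 21 255, 1059970), (.rw 8, 2)]))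
(.lp [[5], [1, 3, 6, 8], [0, 2, 4, 7, 9]] [(.mj 6 7, 3), (.mj 9 5, 2), (.hz 21 95, 901), (.hz 12 159, 1578), (.hz 12 223, 351), (.hz 21 223, 388), (.hz 8 351, 773), (.hz 12 671, 253), (.hz 12 479, 991)]))
.fin))
(.ask 223
(.mark 223 [5, 8, 9]
(.spn
(.haz 9 479 8 25
(.haz 8 735 1 5
(.ask 735
(.mark 735 [5, 8, 10]
(.lp [[5], [1, 3, 6, 8], [0, 2, 4, 7, 9, 10]] [(.mj 5 8, 56), (.mj 5 9, 28), (.mj 7 5, 80), (.hz 8 351, 14821), (.hz 12 479, 7719), (.hz 22 735, 284715), (.hz 22 767, 175429), (.hz 22 1759, 175429)]))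
(.lp [[5], [1, 3, 6, 8], [0, 2, 4, 7, 9]] [(.mj 5 8, 2), (.mj 7 5, 3)]))
(.lp [[5], [1, 3, 6, 8], [0, 2, 4, 7, 9]] [(.mj 5 9, 5), (.mj 7 5, 6), (.hz 22 95, 10154), (.hz 22 223, 7731), (.hz 21 479, 5337)]))
(.lp [[5], [1, 3, 6, 8], [0, 2, 4, 7, 9]] [(.mj 5 8, 15), (.mj 7 5, 17), (.hz 21 223, 10262)]))
(.haz 5 31 1 10
(.lp [[5], [1, 3, 6, 8], [0, 2, 4, 7, 9]] [(.mj 0 1, 115), (.mj 7 8, 1), (.mj 8 5, 28), (.hz 16 37, 488), (.hz 18 53, 2020), (.hz 21 31, 18434), (.hz 21 95, 46338), (.hz 21 159, 11834), (.hz 21 223, 43060), (.hz 21 351, 1742)])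
(.maj 5 9
(.ask 37
(.mark 63 [6, 7, 10]
(.cut 5 [(0, 1), (1, 1), (2, 1), (3, 1), (5, 1), (7, 1), (11, 1), (21, 1), (15, 1), (23, 1), (75, 1), (31, 1), (79, 1), (95, 1), (159, 1), (223, 1)]
(.lp [[5, 10], [1, 3, 6, 8], [0, 2, 4, 7, 9]] [(.mj 0 1, 123189), (.mj 7 8, 6666), (.mj 8 5, 15285), (.hz 21 21, 996452), (.hz 16 1061, 695446), (.hz 17 1063, 3204265), (.hz 18 1077, 4481115), (.hz 19 1071, 2785405), (.hz 14 1079, 5283323), (.hz 19 1087, 6715198), (.hz 12 735, 17360331), (.rw 8, 31)])))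
(.cut 5 [(0, 1), (1, 1), (2, 1), (3, 1), (5, 1), (7, 1), (11, 1), (21, 1), (15, 1), (23, 1), (75, 1), (31, 1), (79, 1), (95, 1), (159, 1), (223, 1)]
(.lp [[5], [1, 3, 6, 8], [0, 2, 4, 7, 9]] [(.mj 0 1, 225975), (.mj 7 8, 629), (.mj 8 5, 8599), (.hz 21 7, 1346542), (.hz 21 21, 10010146), (.hz 21 23, 5589422), (.hz 17 39, 2235769), (.hz 12 735, 9109568), (.rw 8, 14)])))
(.cut 5 [(0, 1), (1, 1), (2, 1), (3, 1), (5, 1), (7, 1), (11, 1), (21, 1), (15, 1), (23, 1), (75, 1), (31, 1)]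
(.cut 5 [(0, 1), (1, 1), (2, 1), (3, 1), (5, 1), (7, 1), (11, 1), (21, 1), (15, 1), (23, 1), (75, 1), (31, 1), (79, 1), (95, 1), (159, 1)]
(.cut 5 [(0, 1), (1, 1), (2, 1), (3, 1), (5, 1), (7, 1), (11, 1), (21, 1), (15, 1), (23, 1), (75, 1), (31, 1), (79, 1), (95, 1), (159, 1), (223, 1)]
(.lp [[5], [1, 3, 6, 8], [0, 2, 4, 7, 9]] [(.mj 0 1, 15974), (.mj 8 9, 207), (.mj 9 5, 2574), (.hz 21 21, 125555), (.hz 16 37, 72874), (.hz 18 53, 140481), (.hz 12 159, 72869), (.hz 12 479, 1003685), (.rw 8, 3), (.rw 9, 2), (.rw 10, 1)]))))))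
(.ask 735
(.mark 735 [5, 8, 10]
(.spn
(.lp [[5], [1, 3, 6, 8], [0, 2, 4, 7, 9, 10]] [(.mj 9 5, 136), (.rw 8, 1)])
(.cut 5 [(0, 1), (1, 1), (2, 1), (3, 1), (5, 1), (7, 1), (11, 1), (21, 1), (15, 1), (23, 1), (75, 1), (31, 1), (79, 1), (95, 1), (159, 1), (223, 1), (735, 1)]
(.lp [[5], [1, 3, 6, 8], [0, 2, 4, 7, 9, 10]] [(.mj 8 5, 932), (.mj 8 10, 932), (.mj 9 8, 1992), (.rw 8, 1), (.rw 9, 5)]))
(.cut 5 [(0, 1), (1, 1), (2, 1), (3, 1), (5, 1), (7, 1), (11, 1), (21, 1), (15, 1), (23, 1), (75, 1), (31, 1), (79, 1), (95, 1), (159, 1), (223, 1)]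
(.lp [[5], [1, 3, 6, 8], [0, 2, 4, 7, 9, 10]] [(.mj 0 1, 11846), (.mj 10 5, 2029), (.hz 16 37, 50294), (.hz 18 53, 208360), (.hz 12 159, 508282), (.rw 9, 5)]))
.fin))
(.lp [[5], [1, 3, 6, 8], [0, 2, 4, 7, 9]] [(.mj 9 8, 1), (.rw 7, 1)]))
.fin))
(.spn
(.lp [[5], [0, 2, 4, 7], [1, 3, 6, 8]] [(.mj 5 8, 1), (.mj 7 5, 1)])
(.cut 5 [(0, 1), (1, 1), (2, 1), (3, 1), (5, 1), (7, 1), (11, 1), (21, 1), (15, 1), (23, 1), (75, 1), (31, 1), (79, 1), (95, 1), (159, 1), (223, 1)]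
(.lp [[5], [0, 2, 4, 7], [1, 3, 6, 8]] [(.mj 7 8, 3775), (.mj 8 5, 1473), (.rw 8, 4)]))
.fin
.fin)))

theorem run91 : run P3488 (leaf3 218 625) (cutRow P3488) [] t91 s91 = true := by
  decide +kernel

theorem bad91 : Bad P3488 s91 :=
  run_sound (leaf3_sound P3488 rfl rfl) (cutRow_sound P3488) (
    fun _ h => absurd h List.not_mem_nil) t91 s91 run91

/-- the state above piece 213 of the tree -/
def s213 : St := ⟨[0, 0, 1, 3, 5, 15, 23, 47, 47, 95, 255], [319, 431, 303, 255, 191, 175, 127, 87, 63, 31, 23, 21, 15, 11, 7, 5, 3, 2, 1, 0], [0, 1, 2, 3, 4, 5, 6, 7, 8],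
  [(5, 6), (4, 5)],
  [⟨true, 2, 3, 3, 10⟩, ⟨true, 1, 5, 2, 5⟩, ⟨true, 2, 3, 23, 50⟩, ⟨true, 1, 5, 12, 25⟩, ⟨true, 1, 21, 27, 50⟩, ⟨true, 4, 15, 9, 40⟩, ⟨true, 3, 23, 11, 20⟩, ⟨true, 4, 47, 7, 20⟩, ⟨true, 4, 47, 17, 40⟩, ⟨true, 4, 47, 9, 20⟩, ⟨true, 4, 47, 19, 40⟩, ⟨true, 5, 95, 1, 5⟩, ⟨true, 5, 95, 3, 10⟩, ⟨true, 5, 31, 3, 10⟩, ⟨true, 5, 95, 11, 25⟩, ⟨true, 6, 63, 3, 20⟩, ⟨true, 8, 255, 1, 50⟩, ⟨true, 6, 319, 13, 40⟩, ⟨true, 7, 639, 9, 50⟩, ⟨true, 7, 639, 13, 50⟩, ⟨true, 8, 191, 2, 25⟩, ⟨true, 9, 1279, 1, 10⟩, ⟨true, 8, 1279, 3, 25⟩, ⟨true, 7, 895, 8, 25⟩, ⟨true, 7, 319, 9, 40⟩, ⟨true, 9, 383, 1, 10⟩, ⟨true, 9, 1279, 7, 50⟩, ⟨true, 8, 1279, 7, 50⟩, ⟨true, 7, 895, 9, 25⟩, ⟨true, 8, 1279, 4, 25⟩, ⟨false, 9, 255, 8, 25⟩, ⟨true, 10, 511, 1, 25⟩],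
  [.spn 0 0 651200, .spn 1 1 302400, .spn 3 2 302400, .spn 7 3 302400, .spn 15 4 302400, .spn 31 5 302400, .spn 63 6 140426, .spn 127 7 140426, .spn 255 8 62723]⟩

/-- piece 213 of the tree -/
noncomputable def t213 : WN.Tree :=
(.haz 9 383 1 8
(.haz 8 1279 7 40
(.ask 383
(.mark 511 [9, 10, 11]
(.spn
(.haz 10 2559 9 50
(.haz 9 1279 11 50
(.ask 1279
(.mark 1279 [8, 9, 12]
(.lp [[8, 11], [0, 2, 4, 6, 9], [1, 3, 5, 7, 10, 12]] [(.mj 7 8, 17), (.mj 8 9, 14), (.mj 9 10, 8), (.mj 9 11, 1), (.hz 35 1279, 5912), (.hz 32 2431, 86714), (.hz 35 1535, 2384), (.hz 34 2559, 23481), (.hz 33 5375, 2979), (.hz 35 5375, 8114)]))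
(.lp [[8, 11], [0, 2, 4, 6, 9], [1, 3, 5, 7, 10]] [(.mj 7 8, 7), (.mj 8 9, 5), (.mj 9 10, 2), (.hz 32 383, 12023), (.hz 35 1279, 1714), (.hz 32 2431, 28800), (.hz 34 2559, 5406)]))
(.lp [[8, 11], [0, 2, 4, 6, 9], [1, 3, 5, 7, 10]] [(.mj 3 4, 42), (.mj 7 8, 18), (.mj 9 10, 13), (.hz 35 127, 3126), (.hz 35 255, 9217), (.hz 33 1279, 13017), (.hz 32 2431, 110723), (.hz 34 2559, 31061)]))
(.lp [[8, 11], [0, 2, 4, 6, 9], [1, 3, 5, 7, 10]] [(.mj 3 4, 5), (.mj 7 8, 2), (.hz 30 255, 1824), (.hz 34 255, 912), (.hz 34 511, 733)]))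
(.ask 1279
(.mark 1535 [9, 11, 12]
(.spn
(.haz 12 3583 8 25
(.ask 2431
(.mark 3583 [9, 12, 13]
(.lp [[8, 11, 13], [0, 2, 4, 6, 9], [1, 3, 5, 7, 10, 12]] [(.mj 7 8, 18), (.mj 8 10, 8), (.mj 9 11, 1), (.mj 9 12, 15), (.mj 10 9, 23), (.hz 32 2431, 211420), (.hz 32 2559, 220435), (.hz 33 5375, 911), (.hz 32 10623, 107220), (.hz 34 3583, 73413), (.hz 32 10751, 641835), (.hz 34 11775, 223639)]))
(.maj 11 12
(.lp [[8, 11], [0, 2, 4, 6, 9], [1, 3, 5, 7, 10, 12]] [(.mj 6 7, 113), (.mj 7 8, 23), (.mj 8 10, 15), (.mj 9 11, 51), (.mj 10 9, 136), (.mj 11 12, 51), (.hz 32 2431, 473661), (.hz 32 2559, 3000731), (.hz 33 5375, 11368), (.hz 26 5375, 83946), (.hz 34 3583, 294697), (.hz 26 5631, 400651)])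
(.ask 2559
(.mark 3583 [9, 12, 13]
(.lp [[8, 11, 13], [0, 2, 4, 6, 9], [1, 3, 5, 7, 10, 12]] [(.mj 6 7, 8185), (.mj 8 10, 139), (.mj 9 12, 1205), (.mj 10 9, 5024), (.mj 12 11, 322), (.rw 10, 2), (.hz 32 2431, 3797143), (.hz 32 2559, 126683549), (.hz 26 5375, 1228629), (.hz 34 3583, 6129106), (.hz 32 10751, 72998912), (.hz 31 10751, 303302), (.hz 34 11775, 16805206)]))
(.lp [[8, 11], [0, 2, 4, 6, 9], [1, 3, 5, 7, 10, 12]] [(.mj 6 7, 27), (.mj 8 10, 2), (.mj 9 12, 13), (.mj 10 9, 26), (.mj 12 11, 6), (.hz 32 2431, 69260), (.hz 26 5375, 656), (.hz 26 3583, 135962), (.hz 34 3583, 118902)]))))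
(.lp [[8, 11], [0, 2, 4, 6, 9], [1, 3, 5, 7, 10, 12]] [(.mj 6 7, 27), (.mj 7 8, 11), (.mj 8 10, 6), (.mj 9 11, 14), (.mj 10 9, 32), (.hz 34 1279, 24853), (.hz 32 2431, 188527), (.hz 34 1535, 102517), (.hz 26 3583, 126153)]))
(.lp [[8, 11], [0, 2, 4, 6, 9], [1, 3, 5, 7, 10, 12]] [(.mj 6 7, 4), (.mj 7 8, 4), (.mj 11 9, 5), (.mj 11 12, 1), (.hz 32 383, 29867), (.hz 32 511, 59058), (.hz 26 1279, 2192), (.hz 32 2431, 202), (.hz 26 1535, 11344), (.hz 33 5375, 4964), (.hz 26 5375, 3764), (.hz 26 5631, 18723)])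
(.lp [[8, 11], [0, 2, 4, 6, 9], [1, 3, 5, 7, 10, 12]] [(.mj 6 7, 4), (.mj 7 8, 5), (.mj 8 10, 3), (.mj 12 9, 7), (.hz 32 383, 39008), (.hz 32 511, 67604), (.hz 26 1279, 8425), (.hz 32 2431, 26437), (.hz 26 1535, 16126), (.hz 32 2559, 100786)])
.fin))
(.haz 9 255 9 50
(.lp [[8, 11], [0, 2, 4, 6, 9], [1, 3, 5, 7, 10]] [(.mj 6 7, 22), (.mj 7 8, 12), (.mj 10 9, 19), (.hz 34 511, 55745), (.hz 24 2431, 6822), (.hz 32 2431, 144814)])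
(.lp [[8, 11], [0, 2, 4, 6, 9], [1, 3, 5, 7, 10]] [(.mj 6 7, 5), (.mj 7 8, 3), (.hz 34 95, 584), (.hz 34 127, 1341), (.hz 34 255, 2361), (.hz 32 383, 7207), (.hz 32 511, 14754), (.hz 24 2431, 1475)])))
(.lp [[8, 11], [0, 2, 4, 6, 9], [1, 3, 5, 7, 10]] [(.mj 7 8, 9), (.mj 11 9, 8), (.mj 11 10, 4), (.hz 32 383, 70468), (.hz 32 511, 67424), (.hz 33 1279, 5733), (.hz 26 1279, 8823), (.hz 32 2431, 16314)])
.fin))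
(.haz 9 1279 7 40
(.ask 447
(.mark 511 [9, 10, 11]
(.spn
(.haz 10 2559 1 5
(.ask 1279
(.ask 607
(.mark 2047 [11, 12, 13]
(.lp [[8, 11], [0, 2, 4, 6, 9, 13], [1, 3, 5, 7, 10, 12]] [(.mj 3 4, 31), (.mj 6 7, 16), (.mj 7 8, 4), (.mj 8 9, 3), (.mj 9 10, 1), (.hz 35 2559, 41153), (.hz 34 5375, 3886)]))
(.ask 639
(.mark 2047 [11, 12, 13]
(.lp [[8, 11], [0, 2, 4, 6, 9, 13], [1, 3, 5, 7, 10, 12]] [(.mj 6 7, 23), (.mj 7 8, 9), (.mj 8 9, 16), (.mj 9 10, 3), (.hz 34 1279, 12324), (.hz 19 8831, 3474), (.hz 35 2559, 82831), (.hz 34 5375, 11997)]))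
(.mark 1279 [8, 9, 12]
(.lp [[8, 11], [0, 2, 4, 6, 9], [1, 3, 5, 7, 10, 12]] [(.mj 6 7, 54), (.mj 7 8, 62), (.mj 8 9, 57), (.mj 9 10, 24), (.hz 33 1279, 18573), (.hz 34 1279, 33609), (.hz 35 2559, 556402), (.hz 34 5375, 40738)]))))
(.lp [[8, 11], [0, 2, 4, 6, 9], [1, 3, 5, 7, 10]] [(.mj 3 4, 78), (.mj 6 7, 59), (.mj 7 8, 44), (.mj 8 9, 31), (.mj 9 10, 14), (.hz 30 127, 13180), (.hz 34 1279, 11946), (.hz 35 2559, 322229)]))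
(.lp [[8, 11], [0, 2, 4, 6, 9], [1, 3, 5, 7, 10]] [(.mj 3 4, 15), (.mj 6 7, 15), (.mj 7 8, 10), (.mj 8 9, 8), (.hz 30 127, 2566), (.hz 35 255, 45178), (.hz 35 511, 33802)]))
(.lp [[8, 11], [0, 2, 4, 6, 9], [1, 3, 5, 7, 10]] [(.mj 6 7, 24), (.mj 8 10, 2), (.mj 10 9, 14), (.hz 34 1279, 9746), (.hz 34 1535, 32831)])
(.lp [[8, 11], [0, 2, 4, 6, 9], [1, 3, 5, 7, 10]] [(.mj 3 4, 5), (.mj 6 7, 8), (.mj 7 8, 1), (.mj 11 9, 4), (.mj 11 10, 1), (.hz 19 639, 1170), (.hz 34 1279, 2449)])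
.fin))
(.haz 8 767 1 4
(.haz 7 895 3 5
(.maj 9 10
(.ask 511
(.mark 511 [9, 10, 11]
(.spn
(.haz 10 2559 3 20
(.haz 10 511 7 20
(.lp [[8, 11], [0, 2, 4, 6, 9], [1, 3, 5, 7, 10]] [(.mj 7 8, 202), (.mj 8 9, 208), (.mj 9 10, 185), (.hz 38 511, 525954), (.hz 34 1279, 94460), (.hz 38 1023, 110008), (.hz 38 2559, 809159)])
(.haz 10 1023 1 5
(.haz 11 1535 1 5
(.ask 607
(.mark 1023 [10, 11, 12]
(.spn
(.haz 12 1791 3 20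
(.haz 10 2559 1 4
(.ask 2559
(.mark 2559 [9, 10, 13]
(.lp [[7, 10], [0, 2, 4, 6, 9, 12], [1, 3, 5, 8, 11, 13]] [(.mj 3 4, 134), (.mj 7 8, 88), (.mj 8 9, 39), (.mj 9 10, 42), (.mj 10 11, 10), (.hz 38 255, 46219), (.hz 42 2559, 929058), (.hz 35 4863, 1112733), (.hz 41 2047, 13651), (.hz 42 10751, 917907)]))
(.lp [[8, 11], [1, 3, 5, 7, 10], [0, 2, 4, 6, 9, 12]] [(.mj 3 4, 32), (.mj 7 8, 30), (.mj 8 9, 13), (.mj 9 10, 7), (.mj 10 11, 2), (.hz 38 255, 24820), (.hz 40 1535, 34761), (.hz 35 4863, 364564)]))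
(.lp [[8, 11], [1, 3, 5, 7, 10], [0, 2, 4, 6, 9, 12]] [(.mj 3 4, 4), (.mj 7 8, 5), (.mj 8 9, 2), (.mj 10 11, 1), (.hz 42 255, 27361), (.hz 42 511, 28133), (.hz 19 4735, 489), (.hz 32 2559, 24518), (.hz 35 4863, 82822)]))
(.lp [[8, 11], [1, 3, 5, 7, 10], [0, 2, 4, 6, 9, 12]] [(.mj 6 7, 70), (.mj 7 8, 66), (.mj 8 9, 38), (.hz 41 607, 11005), (.hz 38 255, 70563), (.hz 41 639, 35805), (.hz 41 767, 13325), (.hz 35 4863, 817161)]))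
(.lp [[8, 11], [1, 3, 5, 7, 10], [0, 2, 4, 6, 9, 12]] [(.mj 3 4, 125), (.mj 7 8, 46), (.mj 9 11, 8), (.mj 11 10, 10), (.hz 38 255, 28529), (.hz 39 1023, 33804), (.hz 37 2559, 46045), (.hz 35 1791, 420887), (.hz 35 4863, 931530), (.hz 39 5119, 480554)])
(.lp [[8, 11], [1, 3, 5, 7, 10], [0, 2, 4, 6, 9, 12]] [(.mj 3 4, 914), (.mj 7 8, 142), (.mj 12 10, 87), (.mj 12 11, 63), (.hz 34 1279, 65501), (.hz 34 1535, 22832), (.hz 37 2559, 747685)])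
.fin))
(.haz 9 255 1 4
(.haz 8 639 1 5
(.ask 1279
(.ask 639
(.mark 1791 [8, 12, 13]
(.lp [[8, 11], [0, 2, 4, 6, 9, 13], [1, 3, 5, 7, 10, 12]] [(.mj 6 7, 38), (.mj 7 8, 26), (.mj 8 9, 24), (.mj 9 10, 2), (.hz 38 255, 7631), (.hz 41 511, 72509), (.hz 41 1279, 128474), (.hz 42 8831, 185907), (.hz 40 1535, 28550), (.hz 41 5375, 171299)]))
(.mark 1279 [8, 9, 12]
(.lp [[8, 11], [0, 2, 4, 6, 9], [1, 3, 5, 7, 10, 12]] [(.mj 6 7, 46), (.mj 7 8, 22), (.mj 8 9, 23), (.mj 9 10, 2), (.hz 38 255, 4333), (.hz 41 1279, 123374), (.hz 40 1535, 27416), (.hz 41 5375, 164498)])))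
(.lp [[8, 11], [0, 2, 4, 6, 9], [1, 3, 5, 7, 10]] [(.mj 6 7, 9), (.mj 7 8, 14), (.mj 8 9, 7), (.hz 42 639, 90000), (.hz 38 511, 9701)]))
(.lp [[8, 11], [0, 2, 4, 6, 9], [1, 3, 5, 7, 10]] [(.mj 6 7, 1), (.mj 8 9, 2), (.hz 42 127, 18423), (.hz 38 255, 1906), (.hz 41 511, 11010), (.hz 41 1279, 12710)]))
(.lp [[8, 11], [0, 2, 4, 6, 9], [1, 3, 5, 7, 10]] [(.mj 6 7, 259), (.mj 7 8, 82), (.hz 41 127, 993805), (.hz 41 255, 842066), (.hz 38 255, 168413)])))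
(.lp [[8, 11], [0, 2, 4, 6, 9], [1, 3, 5, 7, 10]] [(.mj 7 8, 52), (.mj 8 9, 39), (.hz 38 255, 55727), (.hz 38 511, 102624), (.hz 40 511, 410495), (.hz 34 1279, 28276)]))
(.lp [[8, 11], [0, 2, 4, 6, 9], [1, 3, 5, 7, 10]] [(.mj 7 8, 10), (.mj 8 9, 7), (.mj 9 11, 3), (.hz 30 255, 2771), (.hz 39 255, 47106), (.hz 39 511, 64261), (.hz 34 1279, 5038), (.hz 37 2559, 17797)])))
(.lp [[8, 11], [0, 2, 4, 6, 9], [1, 3, 5, 7, 10]] [(.mj 7 8, 16), (.mj 8 9, 12), (.mj 9 11, 6), (.hz 30 255, 3330), (.hz 37 255, 18871), (.hz 37 511, 26390), (.hz 34 1279, 8914)]))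
(.con 10 9)
(.lp [[8, 11], [0, 2, 4, 6, 9], [1, 3, 5, 7, 10]] [(.mj 3 4, 8), (.mj 6 7, 13), (.mj 11 9, 4), (.hz 19 639, 1791), (.hz 32 511, 28386), (.hz 34 1279, 2714), (.hz 36 895, 20667)])
.fin))
(.lp [[8], [0, 2, 4, 6, 9], [1, 3, 5, 7, 10]] [(.mj 3 4, 51), (.mj 7 8, 6), (.mj 9 10, 4)]))
(.lp [[8], [0, 2, 4, 6, 9], [1, 3, 5, 7, 10]] [(.mj 3 4, 139), (.mj 6 7, 146), (.mj 10 9, 46), (.hz 32 511, 516985), (.hz 34 1279, 28122), (.hz 36 895, 202352)]))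
(.lp [[8], [0, 2, 4, 6, 9], [1, 3, 5, 7, 10]] [(.mj 3 4, 433), (.mj 7 8, 63), (.mj 8 10, 23), (.hz 36 383, 1132449), (.hz 34 1279, 31001)]))
(.lp [[8], [0, 2, 4, 6, 9], [1, 3, 5, 7, 10]] [(.mj 3 4, 138), (.mj 6 7, 46), (.hz 35 255, 80361), (.hz 35 639, 117430)])))
(.lp [[8], [0, 2, 4, 6, 9], [1, 3, 5, 7, 10]] [(.mj 6 7, 29), (.mj 7 8, 6), (.mj 8 10, 5), (.hz 34 95, 3549), (.hz 34 127, 13869), (.hz 26 1279, 5618)])))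
(.lp [[8], [0, 2, 4, 6, 9], [1, 3, 5, 7, 10]] [(.mj 3 4, 87), (.mj 6 7, 26), (.mj 8 10, 1), (.hz 33 127, 8429), (.hz 32 383, 3343), (.hz 26 1279, 792)]))
(.lp [[8], [0, 2, 4, 6, 9], [1, 3, 5, 7, 10]] [(.mj 0 1, 209), (.mj 7 8, 4), (.mj 8 10, 4), (.hz 32 95, 13281), (.hz 32 127, 36243), (.hz 25 383, 23676), (.hz 26 1279, 4079)]))

theorem run213 : run P3488 (leaf3 218 625) (cutRow P3488) [] t213 s213 = true := by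
  decide +kernel

theorem bad213 : Bad P3488 s213 :=
  run_sound (leaf3_sound P3488 rfl rfl) (cutRow_sound P3488) (
    fun _ h => absurd h List.not_mem_nil) t213 s213 run213

/-- the state above piece 38 of the tree -/
def s38 : St := ⟨[0, 0, 1, 1, 7, 7, 11, 23, 55], [75, 63, 39, 31, 15, 13, 9, 7, 5, 3, 2, 1, 0], [0, 1, 2, 3, 4, 5, 6],
  [(3, 4)],
  [⟨true, 1, 9, 7, 50⟩, ⟨true, 2, 11, 3, 50⟩, ⟨true, 2, 9, 9, 50⟩, ⟨true, 3, 3, 1, 5⟩, ⟨true, 1, 5, 13, 50⟩, ⟨true, 2, 11, 3, 5⟩, ⟨true, 2, 9, 8, 25⟩, ⟨true, 2, 9, 17, 50⟩, ⟨true, 2, 11, 33, 50⟩, ⟨true, 4, 47, 4, 25⟩, ⟨true, 4, 79, 1, 5⟩, ⟨true, 5, 159, 7, 50⟩, ⟨true, 4, 79, 3, 10⟩, ⟨true, 3, 23, 7, 25⟩, ⟨true, 3, 23, 3, 10⟩, ⟨true, 6, 63, 2, 25⟩, ⟨true, 5, 95, 4, 25⟩, ⟨true, 6, 47, 3, 20⟩, ⟨true, 7, 319, 3, 25⟩, ⟨true, 6, 47, 9, 50⟩, ⟨true, 7, 95, 3, 25⟩, ⟨true,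 6, 319, 1, 5⟩],
  [.spn 0 0 651200, .spn 1 1 140426, .spn 3 2 302400, .spn 7 3 62723, .spn 15 4 140426, .spn 31 5 62723, .spn 63 6 62723]⟩

/-- piece 38 of the tree -/
noncomputable def t38 : WN.Tree :=
(.haz 4 79 9 25
(.haz 3 151 8 25
(.ask 79
(.mark 127 [7, 8, 9]
(.spn
(.haz 7 319 1 5
(.haz 6 159 1 5
(.haz 8 639 4 25
(.haz 7 319 11 50
(.ask 311
(.mark 319 [6, 7, 10]
(.lp [[1, 4, 7], [3, 6, 9], [0, 2, 5, 8, 10]] [(.mj 3 4, 26), (.mj 4 5, 166), (.mj 5 6, 255), (.mj 6 7, 230), (.mj 7 8, 71), (.hz 23 151, 1237), (.hz 25 159, 196499), (.hz 22 591, 4527), (.hz 27 319, 129173), (.hz 20 607, 48718), (.hz 14 1335, 102049), (.hz 26 639, 243993), (.hz 27 1343, 149228)]))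
(.ask 319
(.mark 383 [7, 9, 10]
(.lp [[1, 4, 7], [3, 6, 9], [0, 2, 5, 8, 10]] [(.mj 4 5, 25), (.mj 5 6, 38), (.mj 6 7, 36), (.mj 7 8, 10), (.hz 23 151, 572), (.hz 25 159, 31087), (.hz 22 591, 463), (.hz 27 319, 17926), (.hz 20 607, 6631), (.hz 26 639, 32547), (.hz 27 1343, 17600)]))
(.lp [[1, 5, 8], [3, 6, 9], [0, 2, 4, 7]] [(.mj 4 5, 50), (.mj 5 6, 76), (.mj 6 7, 73), (.mj 7 8, 22), (.hz 23 151, 1061), (.hz 25 159, 57668), (.hz 22 591, 999), (.hz 27 319, 40206), (.hz 20 607, 14316), (.hz 26 639, 76047)])))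
(.lp [[1, 5, 8], [3, 6, 9], [0, 2, 4, 7]] [(.mj 3 4, 3), (.mj 4 5, 20), (.mj 5 6, 23), (.mj 7 8, 16), (.hz 27 23, 931), (.hz 27 31, 3999), (.hz 27 55, 1171), (.hz 27 63, 9665), (.hz 21 319, 84959), (.hz 24 319, 20857), (.hz 20 607, 6933)]))
(.lp [[1, 5, 8], [3, 6, 9], [0, 2, 4, 7]] [(.mj 4 5, 1), (.mj 5 6, 4), (.mj 6 7, 3), (.hz 26 55, 420), (.hz 23 151, 30), (.hz 26 63, 2038), (.hz 25 159, 1631), (.hz 26 127, 1595)]))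
(.lp [[1, 5, 8], [3, 6, 9], [0, 2, 4, 7]] [(.mj 3 4, 1), (.mj 4 5, 2), (.mj 6 7, 4), (.mj 7 8, 1), (.hz 25 15, 7212), (.hz 25 31, 5113), (.hz 21 319, 672), (.hz 24 319, 31795)]))
(.lp [[1, 5, 8], [3, 6, 9], [0, 2, 4, 7]] [(.mj 3 4, 1), (.mj 4 5, 4), (.mj 5 6, 4), (.mj 7 8, 2), (.hz 24 23, 1548), (.hz 24 31, 6744), (.hz 24 55, 1548), (.hz 24 63, 9884), (.hz 21 319, 13298), (.hz 16 607, 1291), (.hz 20 607, 702)]))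
(.haz 7 63 11 50
(.lp [[1, 5, 8], [3, 6, 9], [0, 2, 4, 7]] [(.mj 4 5, 47), (.mj 5 6, 56), (.mj 6 8, 36), (.mj 8 7, 75), (.hz 24 63, 12742), (.hz 22 591, 14316), (.hz 14 311, 19094), (.hz 24 127, 92652), (.hz 24 319, 28917), (.hz 16 607, 69674), (.hz 20 607, 112298), (.hz 24 639, 129165)])
(.haz 9 127 17 50
(.lp [[1, 5, 8], [3, 6, 9], [0, 2, 4, 7]] [(.mj 3 4, 72), (.mj 4 5, 7295), (.mj 5 6, 4256), (.mj 6 8, 798), (.rw 7, 2), (.hz 24 23, 187332), (.hz 24 31, 748893), (.hz 20 95, 1410392), (.hz 23 183, 374202), (.hz 25 127, 5533713), (.hz 19 191, 2990847), (.hz 18 319, 1197448)])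
(.lp [[1, 5, 8], [3, 6, 9], [0, 2, 4, 7]] [(.mj 3 4, 4), (.mj 4 5, 153), (.mj 5 6, 62), (.mj 6 8, 19), (.mj 8 7, 17), (.hz 24 23, 3307), (.hz 24 31, 13535), (.hz 25 79, 5735), (.hz 24 55, 206), (.hz 25 95, 6827), (.hz 19 191, 15076), (.hz 18 319, 29238), (.hz 16 607, 96896), (.hz 20 607, 13819), (.hz 20 639, 57790)])))
(.lp [[1, 5, 8], [3, 6, 9], [0, 2, 4, 7]] [(.mj 3 4, 5), (.mj 4 5, 22), (.mj 5 6, 32), (.mj 9 7, 31), (.mj 9 8, 12), (.hz 22 79, 2780), (.hz 20 95, 28412), (.hz 11 159, 3530), (.hz 14 311, 9934), (.hz 20 127, 47550), (.hz 21 319, 144724), (.hz 18 319, 50792), (.hz 18 383, 130199)])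
.fin))
(.haz 6 159 1 5
(.haz 7 55 11 40
(.lp [[3, 6], [1, 5, 8], [0, 2, 4, 7]] [(.mj 3 4, 15), (.mj 4 5, 123), (.mj 5 6, 125), (.mj 6 7, 121), (.hz 25 55, 8306), (.hz 25 63, 35239), (.hz 20 95, 32050), (.hz 24 159, 58462), (.hz 25 311, 11337), (.hz 25 319, 64242)])
(.ask 111
(.mark 127 [7, 8, 9]
(.spn
(.ask 151
(.mark 255 [8, 9, 10]
(.lp [[1, 5, 8], [3, 6, 9], [0, 2, 4, 7, 10]] [(.mj 3 4, 3), (.mj 4 5, 11), (.mj 5 6, 4), (.mj 6 7, 6), (.mj 7 8, 1), (.hz 25 23, 120), (.hz 18 319, 7716), (.hz 11 1183, 1311)]))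
(.ask 159
(.mark 255 [8, 9, 10]
(.lp [[1, 5, 8], [3, 6, 9], [0, 2, 4, 7, 10]] [(.mj 3 4, 5), (.mj 4 5, 29), (.mj 5 6, 11), (.mj 6 7, 18), (.mj 7 8, 3), (.hz 14 311, 1064), (.hz 18 319, 28357), (.hz 11 1183, 3993)]))
(.lp [[1, 5, 8], [3, 6, 9], [0, 2, 4, 7]] [(.mj 3 4, 8), (.mj 4 5, 41), (.mj 5 6, 25), (.mj 6 7, 16), (.mj 7 8, 5), (.hz 21 319, 43589), (.hz 18 319, 16732)])))
(.lp [[1, 5, 8], [3, 6, 9], [0, 2, 4, 7]] [(.mj 3 4, 1), (.mj 4 5, 10), (.mj 8 7, 4), (.hz 25 23, 76), (.hz 11 159, 1489), (.hz 20 127, 1272), (.hz 18 319, 544), (.hz 16 223, 5146)])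
(.lp [[1, 5, 8], [3, 6, 9], [0, 2, 4, 7]] [(.mj 4 5, 29), (.mj 9 7, 18), (.mj 9 8, 3)])
.fin))
(.haz 7 311 3 25
(.haz 3 151 9 25
(.ask 95
(.mark 127 [7, 8, 9]
(.spn
(.haz 8 639 3 20
(.haz 7 319 7 40
(.haz 8 639 9 40
(.haz 7 319 9 40
(.haz 6 159 11 40
(.haz 6 319 11 40
(.ask 151
(.mark 191 [6, 8, 10]
(.lp [[1, 5, 8], [3, 6, 9], [0, 2, 4, 7, 10]] [(.mj 3 4, 3980), (.mj 4 5, 15406), (.mj 5 6, 15436), (.mj 6 7, 8878), (.mj 7 8, 3446), (.hz 25 23, 11848), (.hz 32 159, 792637), (.hz 26 311, 1688553), (.hz 27 1175, 709112), (.hz 33 319, 2737652), (.hz 31 319, 4493201), (.hz 20 607, 2178773), (.hz 32 1183, 5461897), (.hz 30 639, 5060753)]))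
(.ask 183
(.mark 191 [6, 8, 10]
(.lp [[1, 5, 8], [3, 6, 9], [0, 2, 4, 7, 10]] [(.mj 3 4, 59), (.mj 4 5, 234), (.mj 5 6, 229), (.mj 6 7, 134), (.mj 7 8, 51), (.hz 26 311, 25483), (.hz 32 191, 7532), (.hz 33 319, 40072), (.hz 31 319, 67693), (.hz 20 607, 44132), (.hz 30 639, 74075)]))
(.ask 159
(.mark 191 [6, 8, 10]
(.lp [[1, 5, 8], [3, 6, 9], [0, 2, 4, 7, 10]] [(.mj 3 4, 48), (.mj 4 5, 186), (.mj 5 6, 186), (.mj 6 7, 107), (.mj 7 8, 42), (.hz 32 159, 7805), (.hz 26 311, 20008), (.hz 33 319, 33092), (.hz 31 319, 53061), (.hz 20 607, 27622), (.hz 32 1183, 61246), (.hz 20 639, 1), (.hz 30 639, 61172)]))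
(.ask 311
(.mark 319 [6, 7, 10]
(.lp [[1, 4, 7], [3, 6, 9], [0, 2, 5, 8, 10]] [(.mj 3 4, 4), (.mj 4 5, 16), (.mj 5 6, 15), (.mj 6 7, 9), (.mj 7 8, 2), (.hz 32 191, 1081), (.hz 33 319, 473), (.hz 31 319, 4203), (.hz 20 607, 2848), (.hz 26 1335, 2643), (.hz 30 639, 3108), (.hz 31 1343, 5371)]))
(.lp [[1, 5, 8], [3, 6, 9], [0, 2, 4, 7]] [(.mj 4 5, 26), (.mj 5 6, 26), (.mj 6 7, 18), (.mj 7 8, 7), (.hz 32 191, 1063), (.hz 33 319, 5289), (.hz 31 319, 10430), (.hz 20 607, 5220), (.hz 30 639, 9777)])))))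
(.lp [[1, 5, 8], [3, 6, 9], [0, 2, 4, 7]] [(.mj 4 5, 2), (.mj 6 7, 10), (.mj 7 8, 5), (.hz 33 31, 2964), (.hz 33 63, 6528), (.hz 26 311, 212), (.hz 21 319, 47006), (.hz 31 319, 6708)]))
(.lp [[1, 5, 8], [3, 6, 9], [0, 2, 4, 7]] [(.mj 4 5, 15), (.mj 6 7, 43), (.mj 7 8, 10), (.hz 32 31, 19213), (.hz 24 159, 45541), (.hz 26 311, 8095), (.hz 21 319, 10884), (.hz 31 319, 34865), (.hz 20 607, 10350), (.hz 30 639, 14473)]))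
(.lp [[1, 5, 8], [3, 6, 9], [0, 2, 4, 7]] [(.mj 3 4, 10), (.mj 4 5, 73), (.mj 5 6, 79), (.mj 7 8, 45), (.hz 31 23, 3770), (.hz 31 31, 16598), (.hz 31 55, 4247), (.hz 31 63, 26943), (.hz 21 319, 284873), (.hz 20 607, 24574), (.hz 30 639, 66969)]))
(.lp [[1, 5, 8], [3, 6, 9], [0, 2, 4, 7]] [(.mj 4 5, 68), (.mj 5 6, 94), (.mj 6 7, 57), (.hz 25 23, 1283), (.hz 25 55, 143), (.hz 30 55, 4825), (.hz 30 63, 19556), (.hz 24 159, 150496), (.hz 26 311, 8514), (.hz 30 127, 7516), (.hz 29 319, 30155), (.hz 20 607, 24051)]))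
(.lp [[1, 5, 8], [3, 6, 9], [0, 2, 4, 7]] [(.mj 3 4, 1), (.mj 4 5, 7), (.mj 5 6, 6), (.mj 7 8, 2), (.hz 29 23, 266), (.hz 29 31, 1166), (.hz 29 55, 191), (.hz 29 63, 1347), (.hz 21 319, 18303), (.hz 20 607, 1806)]))
(.lp [[1, 5, 8], [3, 6, 9], [0, 2, 4, 7]] [(.mj 4 5, 7), (.mj 5 6, 10), (.mj 6 7, 6), (.hz 25 23, 134), (.hz 28 55, 962), (.hz 28 63, 5159), (.hz 24 159, 15761), (.hz 26 311, 890), (.hz 28 127, 1679), (.hz 20 607, 2686)]))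
(.haz 7 95 1 5
(.lp [[1, 5, 8], [3, 6, 9], [0, 2, 4, 7]] [(.mj 3 4, 1), (.mj 4 5, 17), (.mj 5 6, 8), (.mj 6 8, 6), (.mj 8 7, 17), (.hz 28 95, 45513), (.hz 26 311, 2733), (.hz 28 127, 189110), (.hz 18 319, 15087), (.hz 28 607, 79119), (.hz 16 735, 40158)])
(.haz 5 95 3 8
(.lp [[1, 5, 8], [3, 6, 9], [0, 2, 4, 7]] [(.mj 4 5, 11508), (.mj 5 6, 3418), (.rw 7, 1), (.hz 28 23, 2342804), (.hz 28 31, 9175984), (.hz 26 311, 44824), (.hz 20 127, 3163448), (.hz 24 191, 134472), (.hz 29 223, 1110338), (.hz 29 607, 11080158)])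
(.lp [[1, 5, 8], [3, 6, 9], [0, 2, 4, 7]] [(.mj 3 4, 1), (.mj 5 6, 2), (.hz 29 23, 322), (.hz 28 23, 393), (.hz 29 31, 3498), (.hz 28 31, 4297), (.hz 20 95, 662)])))
(.lp [[1, 5, 8], [3, 6, 9], [0, 2, 4, 7]] [(.mj 4 5, 15), (.mj 5 6, 24), (.mj 9 7, 14), (.mj 9 8, 7), (.hz 27 151, 1537), (.hz 24 159, 89162), (.hz 26 311, 8321), (.hz 20 127, 22803), (.hz 21 319, 92964), (.hz 18 319, 7844), (.hz 20 607, 1984), (.hz 27 439, 12931), (.hz 18 383, 64768)])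
.fin))
(.haz 7 63 3 10
(.lp [[3, 6], [1, 5, 8], [0, 2, 4, 7]] [(.mj 2 3, 4), (.mj 4 5, 17), (.mj 5 6, 8), (.mj 6 7, 14), (.hz 25 23, 84), (.hz 28 63, 24452), (.hz 14 311, 5910), (.hz 26 311, 3198), (.hz 28 319, 30393)])
(.haz 7 63 1 4
(.lp [[3, 6], [1, 5, 8], [0, 2, 4, 7]] [(.mj 3 4, 7), (.mj 4 5, 25), (.mj 5 6, 12), (.mj 6 7, 9), (.hz 25 23, 187), (.hz 28 31, 7917), (.hz 29 63, 32156), (.hz 29 319, 65741)])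
(.lp [[3, 6], [1, 5, 8], [0, 2, 4, 7]] [(.mj 3 4, 2), (.mj 4 5, 16), (.mj 5 6, 5), (.mj 6 8, 2), (.hz 29 23, 4260), (.hz 29 31, 35210), (.hz 26 311, 735), (.hz 18 319, 2198)]))))
(.lp [[3, 6], [1, 5, 8], [0, 2, 4, 7]] [(.mj 3 4, 4), (.mj 4 5, 2), (.mj 5 6, 1), (.hz 27 23, 873), (.hz 25 23, 138), (.hz 23 151, 126), (.hz 20 95, 320)]))
(.lp [[3, 6], [1, 5, 8], [0, 2, 4, 7]] [(.mj 3 4, 7), (.mj 4 5, 17), (.mj 5 6, 15), (.mj 6 8, 5), (.hz 26 23, 6433), (.hz 20 95, 5691), (.hz 18 319, 11678)]))))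
(.lp [[3, 6], [1, 5, 8], [0, 2, 4, 7]] [(.mj 3 4, 7), (.mj 4 5, 122), (.mj 6 7, 88), (.mj 6 8, 12), (.hz 24 31, 272912), (.hz 11 159, 25602), (.hz 18 319, 118955)])))
(.lp [[3, 6], [1, 5, 8], [0, 2, 4, 7]] [(.mj 3 4, 8), (.mj 4 5, 1), (.hz 23 7, 1234), (.hz 22 79, 155), (.hz 14 151, 276)]))
(.lp [[3, 6], [1, 5, 8], [0, 2, 4, 7]] [(.mj 2 3, 2), (.mj 4 5, 8), (.mj 5 6, 8), (.mj 6 8, 1), (.hz 22 7, 1047), (.hz 22 15, 3310), (.hz 12 79, 8162), (.hz 20 95, 3564), (.hz 18 319, 1443)]))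

theorem run38 : run P3488 (leaf3 218 625) (cutRow P3488) [] t38 s38 = true := by
  decide +kernel

theorem bad38 : Bad P3488 s38 :=
  run_sound (leaf3_sound P3488 rfl rfl) (cutRow_sound P3488) (
    fun _ h => absurd h List.not_mem_nil) t38 s38 run38

/-- the state above piece 67 of the tree -/
def s67 : St := ⟨[0, 0, 1, 1, 3, 5, 23], [37, 23, 19, 7, 3, 2, 1, 0], [0, 1, 2, 4, 5],
  [],
  [⟨true, 1, 9, 7, 50⟩, ⟨true, 2, 11, 3, 50⟩, ⟨true, 2, 9, 9, 50⟩, ⟨false, 3, 3, 1, 5⟩, ⟨true, 2, 3, 1, 4⟩, ⟨true, 1, 9, 3, 10⟩, ⟨true, 2, 9, 3, 10⟩, ⟨true, 1, 9, 7, 20⟩, ⟨true, 1, 5, 7, 20⟩, ⟨true, 3, 37, 1, 20⟩, ⟨true, 2, 11, 2, 5⟩, ⟨true, 4, 39, 7, 20⟩, ⟨true, 3, 87, 1, 20⟩, ⟨true, 2, 9, 7, 20⟩, ⟨true, 2, 11, 19, 40⟩, ⟨true, 1, 9, 2, 5⟩, ⟨true, 4, 11, 1, 4⟩, ⟨true, 5, 87, 9, 40⟩, ⟨true, 3, 119, 3, 40⟩],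
  [.spn 0 0 651200, .spn 1 1 140426, .spn 3 2 140426, .spn 7 4 140426, .spn 23 5 140426]⟩

/-- piece 67 of the tree -/
noncomputable def t67 : WN.Tree :=
(.ask 39
(.mark 55 [3, 6, 7]
(.spn
(.haz 6 55 2 5
(.lp [[3], [1, 4, 6], [0, 2, 5, 7]] [(.mj 3 6, 2075), (.mj 4 5, 2075), (.mj 5 3, 2075), (.rw 5, 1), (.hz 19 55, 985388), (.hz 19 63, 1296563), (.hz 19 183, 3371065)])
(.lp [[3], [1, 4, 6], [0, 2, 5, 7]] [(.mj 4 5, 1336), (.mj 5 3, 744), (.rw 5, 1), (.hz 19 23, 620916), (.hz 19 55, 488067), (.hz 12 87, 116195), (.hz 9 167, 683764)]))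
(.haz 6 183 7 20
(.ask 87
(.mark 119 [3, 7, 8]
(.spn
(.haz 8 127 3 8
(.lp [[3], [0, 2, 5, 7], [1, 4, 6, 8]] [(.mj 5 6, 5402), (.mj 6 3, 14482), (.rw 6, 41), (.hz 9 167, 7274138), (.hz 9 183, 15827765), (.hz 20 127, 25962985), (.hz 18 247, 2665604)])
(.lp [[3], [0, 2, 5, 7], [1, 4, 6, 8]] [(.mj 3 7, 16739), (.mj 6 3, 48759), (.rw 6, 61), (.hz 20 87, 7610736), (.hz 20 119, 33858984), (.hz 12 343, 14254431), (.hz 18 247, 41469720)]))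
(.maj 3 8
(.cut 3 [(0, 1), (1, 1), (2, 1), (3, 1), (5, 1), (7, 1), (19, 1), (37, 1), (23, 1), (39, 1), (55, 1), (87, 1), (119, 1)]
(.lp [[3], [0, 2, 5, 7], [1, 4, 6, 8]] [(.mj 4 5, 736), (.mj 5 6, 241), (.mj 7 3, 372), (.hz 12 343, 231512), (.hz 17 343, 19554), (.hz 18 375, 480339), (.rw 7, 1)]))
(.cut 3 [(0, 1), (1, 1), (2, 1), (3, 1), (5, 1), (7, 1), (19, 1), (37, 1), (23, 1), (39, 1), (55, 1), (87, 1), (119, 1)]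
(.lp [[3], [0, 2, 5, 7], [1, 4, 6, 8]] [(.mj 4 5, 3129), (.mj 5 6, 1484), (.mj 7 8, 571), (.mj 8 3, 4254), (.hz 9 37, 525764), (.hz 17 351, 430612), (.hz 18 247, 1664808), (.rw 7, 13)])))
(.cut 3 [(0, 1), (1, 1), (2, 1), (3, 1), (5, 1), (7, 1), (19, 1), (37, 1), (23, 1), (39, 1), (55, 1), (87, 1), (119, 1)]
(.lp [[3], [0, 2, 5, 7], [1, 4, 6, 8]] [(.mj 4 5, 3246), (.mj 5 6, 9597), (.mj 8 3, 5734), (.mj 8 7, 3092), (.hz 19 183, 749035), (.hz 19 191, 1133978), (.rw 7, 19)]))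
.fin))
(.ask 119
(.mark 119 [3, 7, 8]
(.spn
(.haz 7 375 1 8
(.maj 7 8
(.lp [[3], [0, 2, 5, 7], [1, 4, 6, 8]] [(.mj 3 7, 2526), (.mj 4 5, 1412), (.mj 6 3, 4628), (.mj 7 8, 2039), (.rw 6, 1), (.hz 9 167, 1843508), (.hz 18 247, 2019315), (.hz 18 375, 2517373), (.hz 20 375, 2762692)])
(.lp [[3], [0, 2, 5, 7], [1, 4, 6, 8]] [(.mj 3 8, 11), (.mj 4 5, 1), (.mj 6 3, 18), (.mj 8 7, 10), (.hz 9 167, 9361), (.hz 9 183, 23301), (.hz 18 247, 13132), (.hz 20 375, 23810)]))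
(.lp [[3], [0, 2, 5, 7], [1, 4, 6, 8]] [(.mj 3 8, 7), (.mj 6 3, 7), (.hz 20 39, 1745), (.hz 20 55, 4175), (.hz 20 119, 6951)]))
(.lp [[3], [0, 2, 5, 7], [1, 4, 6, 8]] [(.mj 4 5, 11), (.mj 7 3, 7), (.mj 7 8, 1), (.hz 18 119, 4376), (.hz 18 247, 6264), (.hz 18 375, 2950)])
(.cut 3 [(0, 1), (1, 1), (2, 1), (3, 1), (5, 1), (7, 1), (19, 1), (37, 1), (23, 1), (39, 1), (55, 1), (87, 1), (119, 1)]
(.lp [[3], [0, 2, 5, 7], [1, 4, 6, 8]] [(.mj 4 5, 186), (.mj 8 3, 4169), (.hz 11 175, 817141), (.hz 18 119, 178539), (.hz 18 247, 1304396), (.rw 7, 14)]))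
.fin))
(.lp [[3], [1, 4, 6], [0, 2, 5, 7]] [(.mj 6 3, 1), (.mj 6 7, 1), (.hz 18 247, 1231)])))
(.lp [[3], [1, 4, 6], [0, 2, 5, 7]] [(.mj 4 5, 1), (.mj 6 3, 5), (.mj 6 7, 5), (.hz 19 23, 1101), (.hz 19 55, 2349), (.hz 9 167, 4402), (.hz 9 183, 8950)]))
(.cut 3 [(0, 1), (1, 1), (2, 1), (3, 1), (5, 1), (7, 1), (19, 1), (37, 1), (23, 1)]
(.lp [[3], [1, 4, 6], [0, 2, 5, 7]] [(.mj 4 5, 781), (.mj 7 3, 481), (.mj 7 6, 374), (.hz 12 87, 27967), (.hz 17 87, 33859), (.rw 6, 1)]))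
.fin))
(.ask 55
(.mark 55 [3, 6, 7]
(.spn
(.haz 6 183 3 20
(.ask 183
(.haz 6 55 11 40
(.mark 183 [3, 6, 8]
(.lp [[3], [1, 4, 6], [0, 2, 5, 7, 8]] [(.mj 3 6, 7), (.mj 3 7, 1), (.mj 4 5, 5), (.mj 5 3, 7), (.hz 20 55, 415), (.hz 20 63, 800), (.hz 20 183, 798), (.hz 20 439, 963)]))
(.haz 7 119 9 20
(.lp [[3], [1, 4, 6], [0, 2, 5, 7, 8]] [(.mj 3 7, 10), (.mj 4 5, 9), (.mj 5 3, 12), (.hz 20 23, 1122), (.hz 20 55, 424), (.hz 12 87, 1893), (.hz 21 119, 4397)])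
(.lp [[3], [1, 4, 6], [0, 2, 5, 7, 8]] [(.mj 4 5, 2), (.mj 5 3, 2), (.hz 20 23, 168), (.hz 20 55, 442), (.hz 21 55, 884)])))
(.lp [[3], [1, 4, 6], [0, 2, 5, 7]] [(.mj 3 6, 10), (.mj 5 3, 18)]))
(.lp [[3], [1, 4, 6], [0, 2, 5, 7]] [(.mj 3 7, 4), (.mj 4 5, 4), (.mj 5 3, 5), (.hz 19 23, 909), (.hz 19 55, 1201)]))
(.ask 87
(.mark 119 [3, 7, 8]
(.spn
(.haz 7 127 3 10
(.lp [[3], [0, 2, 5, 7], [1, 4, 6, 8]] [(.mj 3 7, 954), (.mj 6 3, 16116), (.rw 6, 50), (.hz 12 343, 2982299), (.hz 19 127, 48864302), (.hz 18 375, 2783479), (.hz 19 383, 1133274)])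
(.lp [[3], [0, 2, 5, 7], [1, 4, 6, 8]] [(.mj 5 6, 1474), (.mj 6 3, 740), (.rw 6, 1), (.hz 19 55, 517411), (.hz 19 119, 414603), (.hz 9 183, 208131), (.hz 18 375, 555335)]))
(.maj 3 8
(.cut 3 [(0, 1), (1, 1), (2, 1), (3, 1), (5, 1), (7, 1), (19, 1), (37, 1), (23, 1), (39, 1), (55, 1), (87, 1), (119, 1)]
(.lp [[3], [0, 2, 5, 7], [1, 4, 6, 8]] [(.mj 6 7, 1760), (.mj 7 3, 2398), (.hz 12 343, 1603520), (.hz 17 343, 60998), (.hz 18 375, 2822304), (.rw 7, 8)]))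
(.cut 3 [(0, 1), (1, 1), (2, 1), (3, 1), (5, 1), (7, 1), (19, 1), (37, 1), (23, 1), (39, 1), (55, 1), (87, 1), (119, 1)]
(.lp [[3], [0, 2, 5, 7], [1, 4, 6, 8]] [(.mj 6 7, 46), (.mj 7 3, 190), (.mj 7 8, 46), (.mj 8 3, 422), (.hz 17 351, 94723), (.hz 18 247, 133480), (.rw 7, 2)])))
(.cut 3 [(0, 1), (1, 1), (2, 1), (3, 1), (5, 1), (7, 1), (19, 1), (37, 1), (23, 1), (39, 1), (55, 1), (87, 1), (119, 1)]
(.cut 7 [(0, 1), (1, 1), (2, 1), (3, 1), (5, 1), (9, 1), (7, 1), (11, 1), (13, 1), (19, 1), (37, 1), (15, 1), (23, 1), (27, 1), (39, 1), (45, 1), (31, 1), (47, 1), (55, 1), (87, 1), (63, 1), (95, 1), (343, 1), (351, 1)]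
(.lp [[3], [0, 2, 5, 7], [1, 4, 6, 8]] [(.mj 5 6, 20459), (.mj 8 3, 17669), (.mj 8 7, 10541), (.hz 9 183, 1279236), (.hz 18 247, 6666645), (.rw 7, 59), (.rw 8, 4)])))
.fin))
(.haz 6 183 11 40
(.haz 6 183 3 8
(.ask 119
(.mark 119 [3, 7, 8]
(.spn
(.haz 8 247 13 40
(.ask 183
(.mark 247 [3, 8, 9]
(.lp [[3], [1, 4, 6, 8], [0, 2, 5, 7, 9]] [(.mj 3 7, 6), (.mj 3 8, 12), (.mj 6 3, 16), (.hz 9 183, 5083), (.hz 20 183, 7481), (.hz 21 247, 3564), (.hz 9 695, 8293), (.hz 21 759, 5964)]))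
(.lp [[3], [0, 2, 5, 7], [1, 4, 6, 8]] [(.mj 3 7, 12), (.mj 3 8, 24), (.mj 6 3, 31), (.hz 18 247, 7529), (.hz 21 247, 10941)]))
(.lp [[3], [0, 2, 5, 7], [1, 4, 6, 8]] [(.mj 3 7, 6), (.mj 6 3, 7), (.hz 21 119, 1498)]))
(.maj 3 8
(.cut 3 [(0, 1), (1, 1), (2, 1), (3, 1), (5, 1), (7, 1), (19, 1), (37, 1), (23, 1), (39, 1), (55, 1), (87, 1), (119, 1)]
(.lp [[3], [0, 2, 5, 7], [1, 4, 6, 8]] [(.mj 6 7, 274), (.mj 7 3, 307), (.hz 18 375, 313071), (.rw 7, 1)]))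
(.cut 3 [(0, 1), (1, 1), (2, 1), (3, 1), (5, 1), (7, 1)]
(.cut 3 [(0, 1), (1, 1), (2, 1), (3, 1), (5, 1), (7, 1), (19, 1), (37, 1), (23, 1), (39, 1), (55, 1)]
(.lp [[3], [0, 2, 5, 7], [1, 4, 6, 8]] [(.mj 7 8, 187), (.mj 8 3, 8528), (.hz 18 119, 1878863), (.hz 9 183, 2541408), (.hz 20 183, 858772), (.hz 18 247, 3064830), (.hz 18 375, 230390), (.rw 7, 12), (.rw 8, 10)]))))
(.cut 3 [(0, 1), (1, 1), (2, 1), (3, 1), (5, 1), (7, 1), (19, 1), (37, 1), (23, 1), (39, 1), (55, 1), (87, 1), (119, 1)]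
(.lp [[3], [0, 2, 5, 7], [1, 4, 6, 8]] [(.mj 8 3, 6242), (.hz 18 247, 1679323), (.rw 7, 22)]))
.fin))
(.spn
(.lp [[3], [1, 4, 6], [0, 2, 5, 7]] [(.mj 3 7, 1), (.mj 6 3, 1)])
(.lp [[3], [1, 4, 6], [0, 2, 5, 7]] [(.mj 6 7, 26), (.mj 7 3, 14), (.hz 18 247, 18881)])
.fin
.fin))
(.lp [[3], [1, 4, 6], [0, 2, 5, 7]] [(.mj 5 6, 1), (.mj 6 3, 17), (.mj 6 7, 21), (.hz 20 55, 24432), (.hz 9 183, 32970)]))
(.lp [[3], [1, 4, 6], [0, 2, 5, 7]] [(.mj 6 3, 1), (.mj 6 7, 1), (.hz 19 55, 220), (.hz 9 183, 1395)])))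
(.haz 5 87 2 5
(.haz 5 87 21 40
(.cut 3 [(0, 1), (1, 1), (2, 1), (3, 1), (5, 1), (7, 1), (19, 1), (37, 1), (23, 1), (39, 1), (55, 1)]
(.lp [[3], [1, 4, 6], [0, 2, 5, 7]] [(.mj 4 5, 81626), (.mj 7 3, 29915), (.mj 7 6, 12289), (.rw 5, 4), (.hz 20 87, 2622951), (.hz 20 95, 14608323), (.rw 6, 108)]))
(.lp [[3], [1, 4, 6], [0, 2, 5, 7]] [(.mj 7 6, 223), (.rw 5, 2), (.hz 9 37, 103398), (.hz 20 23, 561306), (.hz 9 39, 419036), (.hz 9 55, 898997), (.hz 12 87, 125162), (.hz 19 87, 3846314)]))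
(.lp [[3], [1, 4, 6], [0, 2, 5, 7]] [(.mj 7 6, 236), (.rw 5, 1), (.hz 19 23, 1905010), (.hz 17 87, 223720)]))
.fin))
(.spn
(.lp [[3], [0, 2, 5], [1, 4, 6]] [(.mj 3 6, 2), (.mj 5 3, 3)])
(.ask 87
(.mark 87 [3, 5, 7]
(.ask 119
(.mark 119 [3, 7, 8]
(.spn
(.lp [[3], [0, 2, 5, 8], [1, 4, 6, 7]] [(.mj 3 8, 219), (.mj 5 6, 1297), (.mj 6 3, 683), (.rw 6, 1)])
(.lp [[3], [0, 2, 5, 8], [1, 4, 6, 7]] [(.mj 5 6, 4), (.mj 7 3, 3), (.mj 7 8, 1), (.hz 18 119, 1776), (.hz 18 247, 1425), (.hz 18 375, 1152)])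
(.cut 3 [(0, 1), (1, 1), (2, 1), (3, 1), (5, 1), (7, 1), (19, 1), (37, 1), (23, 1), (39, 1), (55, 1), (87, 1), (119, 1)]
(.cut 7 [(0, 1), (1, 1), (2, 1), (3, 1), (5, 1), (9, 1), (7, 1), (11, 1), (13, 1), (19, 1), (37, 1), (15, 1), (23, 1), (27, 1), (39, 1), (45, 1), (31, 1), (47, 1), (55, 1), (63, 1)]
(.lp [[3], [0, 2, 5, 8], [1, 4, 6, 7]] [(.mj 5 6, 6186), (.mj 8 3, 3630), (.rw 7, 13), (.rw 8, 1)])))
.fin))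
(.lp [[3], [0, 2, 5], [1, 4, 6, 7]] [(.mj 5 6, 3), (.mj 6 3, 2), (.hz 12 87, 1574)])))
(.ask 119
(.ask 119
(.mark 119 [3, 7, 8]
(.spn
(.haz 8 247 7 40
(.lp [[3], [0, 2, 5, 7], [1, 4, 6, 8]] [(.mj 3 7, 39), (.mj 5 6, 41), (.mj 6 3, 60), (.mj 7 8, 32), (.hz 19 247, 8406), (.hz 18 375, 39157)])
(.lp [[3], [0, 2, 5, 7], [1, 4, 6, 8]] [(.mj 3 7, 2), (.mj 5 6, 1), (.mj 6 3, 2), (.hz 19 119, 382)]))
(.cut 3 [(0, 1), (1, 1), (2, 1), (3, 1), (5, 1), (7, 1), (19, 1), (37, 1), (23, 1), (39, 1), (55, 1), (87, 1), (119, 1)]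
(.lp [[3], [0, 2, 5, 7], [1, 4, 6, 8]] [(.mj 5 6, 3287), (.mj 7 3, 1174), (.rw 7, 4)]))
(.con 8 7)
.fin))
(.spn
(.lp [[3], [1, 4, 6], [0, 2, 5, 7]] [(.mj 3 7, 1), (.mj 6 3, 1)])
(.cut 3 [(0, 1), (1, 1), (2, 1), (3, 1), (5, 1), (7, 1), (19, 1), (37, 1), (23, 1), (39, 1), (55, 1), (87, 1), (119, 1)]
(.lp [[3], [1, 4, 6], [0, 2, 5, 7]] [(.mj 5 6, 3287), (.mj 7 3, 1174), (.rw 7, 4)]))
.fin
.fin))
(.lp [[3], [0, 2, 5], [1, 4, 6]] [(.mj 6 3, 1)])))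
.fin
.fin)))

theorem run67 : run P3488 (leaf3 218 625) (cutRow P3488) [] t67 s67 = true := by
  decide +kernel

theorem bad67 : Bad P3488 s67 :=
  run_sound (leaf3_sound P3488 rfl rfl) (cutRow_sound P3488) (
    fun _ h => absurd h List.not_mem_nil) t67 s67 run67

/-- the state above piece 183 of the tree -/
def s183 : St := ⟨[0, 0, 1, 3, 5, 15, 21, 47, 47, 95, 255], [255, 191, 175, 127, 87, 85, 63, 31, 23, 21, 15, 11, 7, 5, 3, 2, 1, 0], [0, 1, 2, 3, 4, 5, 6, 7, 8],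
  [(5, 6), (4, 5)],
  [⟨true, 2, 3, 3, 10⟩, ⟨true, 1, 5, 2, 5⟩, ⟨true, 2, 3, 23, 50⟩, ⟨true, 1, 5, 12, 25⟩, ⟨true, 1, 21, 27, 50⟩, ⟨true, 4, 15, 9, 40⟩, ⟨true, 3, 23, 11, 20⟩, ⟨true, 4, 47, 7, 20⟩, ⟨true, 4, 47, 17, 40⟩, ⟨true, 4, 47, 9, 20⟩, ⟨true, 4, 47, 19, 40⟩, ⟨true, 3, 87, 27, 40⟩, ⟨true, 5, 95, 1, 4⟩, ⟨true, 7, 383, 1, 20⟩, ⟨true, 6, 191, 11, 40⟩, ⟨true, 8, 255, 3, 40⟩, ⟨true, 7, 303, 3, 40⟩, ⟨true, 8, 191, 1, 8⟩, ⟨true, 7, 319, 11, 50⟩, ⟨true, 9, 1279, 2, 25⟩],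
  [.spn 0 0 651200, .spn 1 1 302400, .spn 3 2 302400, .spn 7 3 302400, .spn 15 4 302400, .spn 31 5 302400, .spn 63 6 140426, .spn 127 7 140426, .spn 255 8 62723]⟩

/-- piece 183 of the tree -/
noncomputable def t183 : WN.Tree :=
(.haz 8 639 9 50
(.haz 7 319 13 50
(.haz 8 1279 9 50
(.haz 9 1535 1 10
(.ask 303
(.mark 511 [9, 10, 11]
(.spn
(.haz 11 1535 1 10
(.lp [[8, 11], [0, 2, 4, 6, 9], [1, 3, 5, 7, 10]] [(.mj 3 4, 42626), (.mj 7 8, 1721), (.mj 9 10, 1425), (.rw 4, 50), (.hz 20 639, 387192), (.hz 22 1279, 1535562), (.hz 24 1535, 26710623)])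
(.lp [[8, 11], [0, 2, 4, 6, 9], [1, 3, 5, 7, 10]] [(.mj 3 4, 4582), (.mj 6 7, 947), (.mj 7 8, 466), (.mj 9 10, 145), (.rw 4, 1), (.hz 24 303, 565777), (.hz 24 319, 1235370)]))
(.haz 11 895 1 10
(.ask 1279
(.mark 1535 [9, 11, 12]
(.spn
(.haz 11 1535 3 20
(.haz 11 1535 1 5
(.ask 607
(.mark 767 [8, 10, 13]
(.lp [[8, 11], [0, 2, 4, 6, 9, 13], [1, 3, 5, 7, 10, 12]] [(.mj 3 4, 35645), (.mj 7 8, 6052), (.mj 8 10, 5464), (.mj 9 12, 3713), (.mj 10 9, 8568), (.rw 4, 116), (.rw 10, 4), (.hz 20 8831, 9081570), (.hz 20 8959, 16773183), (.hz 22 5375, 4880231), (.hz 24 9087, 56589222), (.hz 26 2047, 624117238), (.hz 24 9215, 312058619), (.hz 26 5631, 226956349)]))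
(.ask 639
(.mark 767 [8, 10, 13]
(.lp [[8, 11], [0, 2, 4, 6, 9, 13], [1, 3, 5, 7, 10, 12]] [(.mj 4 5, 1701), (.mj 6 7, 2664), (.mj 7 8, 3370), (.mj 8 10, 1363), (.mj 9 12, 733), (.mj 10 9, 2359), (.rw 10, 2), (.hz 20 8831, 4453576), (.hz 20 8959, 4811621), (.hz 22 5375, 1218027), (.hz 24 9087, 21719000), (.hz 26 2047, 194117178), (.hz 26 5631, 44802523)]))
(.lp [[8, 11], [0, 2, 4, 6, 9], [1, 3, 5, 7, 10, 12]] [(.mj 4 5, 122), (.mj 7 8, 4), (.mj 8 10, 7), (.mj 9 12, 8), (.mj 10 9, 25), (.hz 21 2367, 9474), (.hz 20 767, 35916), (.hz 24 895, 110587), (.hz 22 5375, 13995), (.hz 26 2047, 1091598), (.hz 26 5631, 506397)])))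
(.lp [[8, 11], [0, 2, 4, 6, 9], [1, 3, 5, 7, 10, 12]] [(.mj 3 4, 3415), (.mj 6 7, 406), (.mj 8 10, 380), (.mj 9 12, 700), (.mj 10 9, 1375), (.rw 4, 11), (.hz 26 383, 9297262), (.hz 26 511, 3981522), (.hz 24 895, 6100791), (.hz 26 1535, 22971749), (.hz 19 5375, 317440), (.hz 25 2047, 15856638), (.hz 25 5631, 10704388)]))
(.lp [[8, 11], [0, 2, 4, 6, 9], [1, 3, 5, 7, 10, 12]] [(.mj 3 4, 12412), (.mj 6 7, 5275), (.mj 7 8, 800), (.mj 8 10, 431), (.mj 9 12, 2103), (.mj 10 9, 3431), (.rw 4, 16), (.hz 25 319, 2875318), (.hz 25 383, 6851701), (.hz 24 895, 15226856), (.hz 24 1023, 90453403), (.hz 25 1535, 13057287), (.hz 23 5631, 6999470), (.hz 24 6143, 64275604)]))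
(.lp [[8, 11], [0, 2, 4, 6, 9], [1, 3, 5, 7, 10, 12]] [(.mj 3 4, 19855), (.mj 6 7, 2104), (.mj 7 8, 656), (.mj 8 10, 135), (.mj 11 9, 54), (.rw 4, 33), (.rw 10, 2), (.hz 20 767, 1276445), (.hz 22 5375, 998054), (.hz 19 5375, 63678)])
(.haz 9 127 3 20
(.lp [[8, 11], [0, 2, 4, 6, 9], [1, 3, 5, 7, 10, 12]] [(.mj 4 5, 25), (.mj 7 8, 72), (.mj 8 10, 111), (.mj 12 9, 258), (.rw 4, 1), (.hz 25 127, 4655), (.hz 25 255, 112972), (.hz 25 383, 347168), (.hz 25 511, 914650), (.hz 25 1279, 685799), (.hz 25 2431, 571405), (.hz 25 1535, 1521063)])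
(.lp [[8, 11], [0, 2, 4, 6, 9], [1, 3, 5, 7, 10, 12]] [(.mj 4 5, 80), (.mj 6 7, 123), (.mj 7 8, 26), (.mj 8 10, 32), (.hz 25 95, 47126), (.hz 25 127, 150913), (.hz 21 2367, 152868), (.hz 19 1279, 70592)]))
.fin))
(.lp [[8, 11], [0, 2, 4, 6, 9], [1, 3, 5, 7, 10]] [(.mj 3 4, 512007), (.mj 6 7, 287334), (.mj 7 8, 151317), (.mj 10 9, 46978), (.rw 4, 32), (.hz 10 2351, 29799505), (.hz 20 639, 103952284), (.hz 21 2367, 171057300), (.hz 20 767, 156831696), (.hz 24 895, 208464415), (.hz 21 2431, 27914610), (.hz 24 1023, 880835555)]))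
(.lp [[8, 11], [0, 2, 4, 6, 9], [1, 3, 5, 7, 10]] [(.mj 3 4, 50), (.mj 6 7, 20), (.mj 7 8, 5), (.hz 24 303, 7405), (.hz 24 319, 2113), (.hz 24 383, 12025), (.hz 20 639, 71), (.hz 21 2367, 9036)]))
(.lp [[8, 11], [0, 2, 4, 6, 9], [1, 3, 5, 7, 10]] [(.mj 3 4, 689), (.mj 7 8, 195), (.mj 11 9, 205), (.mj 11 10, 177), (.rw 4, 2), (.hz 20 639, 182569), (.hz 20 767, 191098), (.hz 22 1279, 141370), (.hz 19 1279, 635256)])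
.fin))
(.ask 431
(.mark 511 [9, 10, 11]
(.lp [[8, 11], [0, 2, 4, 6, 9], [1, 3, 5, 7, 10]] [(.mj 3 4, 3489), (.mj 6 7, 1126), (.mj 7 8, 240), (.mj 8 10, 24), (.rw 4, 1)]))
(.haz 8 767 1 5
(.ask 319
(.mark 511 [9, 10, 11]
(.spn
(.ask 2367
(.mark 2559 [9, 10, 12]
(.lp [[7, 10], [0, 2, 4, 6, 9], [1, 3, 5, 8, 11, 12]] [(.mj 3 4, 834), (.mj 6 7, 263), (.mj 7 8, 134), (.mj 9 10, 17), (.hz 20 639, 50627), (.hz 21 2367, 115125), (.hz 24 767, 329329), (.hz 22 1279, 34215)]))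
(.lp [[8, 11], [0, 2, 4, 6, 9], [1, 3, 5, 7, 10]] [(.mj 3 4, 468), (.mj 6 7, 107), (.mj 7 8, 90), (.mj 9 10, 19), (.hz 20 639, 65951), (.hz 22 1279, 24452)]))
(.ask 1279
(.mark 1535 [9, 11, 12]
(.spn
(.haz 7 383 27 50
(.ask 2367
(.mark 2559 [9, 10, 13]
(.lp [[8, 11, 13], [0, 2, 4, 6, 9], [1, 3, 5, 7, 10, 12]] [(.mj 3 4, 312), (.mj 6 7, 129), (.mj 7 8, 37), (.mj 8 10, 1), (.mj 10 9, 1), (.hz 25 383, 837), (.hz 20 639, 10057), (.hz 24 767, 56501), (.hz 25 2431, 46831), (.hz 21 10559, 59180), (.hz 22 5375, 5742)]))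
(.lp [[8, 11], [0, 2, 4, 6, 9], [1, 3, 5, 7, 10, 12]] [(.mj 3 4, 39), (.mj 6 7, 17), (.mj 7 8, 4), (.hz 25 383, 2275), (.hz 20 639, 1652), (.hz 25 2431, 4693)]))
(.lp [[8, 11], [0, 2, 4, 6, 9], [1, 3, 5, 7, 10, 12]] [(.mj 3 4, 160102), (.mj 6 7, 19565), (.mj 7 8, 45037), (.mj 10 9, 1492), (.rw 10, 2), (.hz 25 127, 14601761), (.hz 25 383, 11730862), (.hz 20 639, 24521021), (.hz 22 1279, 4868887), (.hz 14 2495, 6086109)]))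
(.lp [[8, 11], [0, 2, 4, 6, 9], [1, 3, 5, 7, 10, 12]] [(.mj 3 4, 19544), (.mj 6 7, 9908), (.mj 7 8, 8193), (.mj 11 12, 106), (.rw 10, 4), (.hz 20 639, 6037000), (.hz 24 767, 36217037), (.hz 24 1791, 36217037), (.hz 22 5375, 3596582), (.hz 19 5375, 361646), (.hz 23 3583, 65715644), (.hz 23 5631, 4287893)])
(.haz 9 1279 7 50
(.lp [[8, 11], [0, 2, 4, 6, 9], [1, 3, 5, 7, 10, 12]] [(.mj 3 4, 1049), (.mj 6 7, 513), (.mj 7 8, 395), (.mj 8 10, 134), (.mj 12 9, 128), (.hz 20 639, 282749), (.hz 21 2367, 144848), (.hz 24 767, 1748518), (.hz 25 1279, 224568), (.hz 25 1535, 311785)])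
(.lp [[8, 11], [0, 2, 4, 6, 9], [1, 3, 5, 7, 10, 12]] [(.mj 4 5, 13), (.mj 6 7, 20), (.mj 7 8, 8), (.mj 8 10, 7), (.hz 25 95, 3446), (.hz 25 127, 6487), (.hz 25 255, 4849), (.hz 21 2367, 17880), (.hz 19 1279, 15950)]))
.fin))
(.lp [[8, 11], [0, 2, 4, 6, 9], [1, 3, 5, 7, 10]] [(.mj 3 4, 96), (.mj 6 7, 42), (.mj 7 8, 21), (.mj 8 10, 2), (.mj 10 9, 3), (.hz 20 639, 11568), (.hz 21 2367, 17112), (.hz 24 767, 75901), (.hz 21 2431, 2168)]))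
(.lp [[8, 11], [0, 2, 4, 6, 9], [1, 3, 5, 7, 10]] [(.mj 3 4, 32), (.mj 6 7, 16), (.mj 7 8, 15), (.mj 11 9, 5), (.mj 11 10, 5), (.hz 20 639, 11176), (.hz 21 2367, 3956), (.hz 24 767, 70815), (.hz 22 1279, 6064), (.hz 19 1279, 16541)])
.fin))
(.ask 383
(.mark 511 [9, 10, 11]
(.spn
(.lp [[8, 11], [0, 2, 4, 6, 9], [1, 3, 5, 7, 10]] [(.mj 3 4, 188), (.mj 7 8, 25), (.mj 9 10, 14), (.mj 9 11, 8)])
(.ask 1279
(.mark 1535 [9, 11, 12]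
(.spn
(.haz 11 1535 7 25
(.lp [[8, 11], [0, 2, 4, 6, 9], [1, 3, 5, 7, 10, 12]] [(.mj 3 4, 676), (.mj 6 7, 173), (.mj 7 8, 74), (.mj 8 10, 6), (.mj 9 11, 14), (.mj 9 12, 9), (.hz 25 1535, 3506), (.hz 22 5375, 11606), (.hz 25 2047, 115232), (.hz 25 5631, 166632)])
(.lp [[8, 11], [0, 2, 4, 6, 9], [1, 3, 5, 7, 10, 12]] [(.mj 3 4, 61), (.mj 6 7, 24), (.mj 7 8, 6), (.hz 25 383, 6279), (.hz 19 5375, 128)]))
(.ask 2431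
(.mark 3583 [9, 12, 13]
(.lp [[8, 11, 13], [0, 2, 4, 6, 9], [1, 3, 5, 7, 10, 12]] [(.mj 3 4, 462541), (.mj 6 7, 148900), (.mj 7 8, 79523), (.mj 8 10, 5491), (.mj 11 9, 3441), (.mj 11 12, 8164), (.rw 10, 1), (.hz 20 639, 3208874), (.hz 24 767, 466707541), (.hz 22 5375, 11453826), (.hz 19 5375, 31801548), (.hz 23 3583, 162249504), (.hz 23 5631, 420437822), (.hz 23 11775, 405623760)]))
(.lp [[8, 11], [0, 2, 4, 6, 9], [1, 3, 5, 7, 10, 12]] [(.mj 3 4, 1314), (.mj 6 7, 506), (.mj 7 8, 129), (.mj 8 10, 3), (.mj 10 11, 18), (.mj 11 12, 2), (.hz 24 767, 248941), (.hz 23 1535, 17656), (.hz 22 5375, 8925), (.hz 19 5375, 7762)]))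
(.haz 11 511 8 25
(.lp [[8, 11], [0, 2, 4, 6, 9], [1, 3, 5, 7, 10, 12]] [(.mj 3 4, 131), (.mj 6 7, 33), (.mj 7 8, 8), (.mj 8 10, 4), (.mj 12 11, 10), (.hz 25 511, 15245), (.hz 24 767, 62302), (.hz 19 1279, 9289), (.hz 25 1023, 102418), (.hz 25 1535, 63479), (.hz 23 3583, 403788)])
(.lp [[8, 11], [0, 2, 4, 6, 9], [1, 3, 5, 7, 10, 12]] [(.mj 3 4, 190), (.mj 6 7, 75), (.mj 7 8, 19), (.hz 25 383, 20109), (.hz 19 1279, 392)]))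
.fin))
(.lp [[8, 11], [0, 2, 4, 6, 9], [1, 3, 5, 7, 10]] [(.mj 3 4, 106), (.mj 6 7, 36), (.mj 7 8, 17), (.mj 8 10, 1), (.hz 20 639, 10305), (.hz 24 767, 12443), (.hz 21 2431, 1244)]))
(.lp [[8, 11], [0, 2, 4, 6, 9], [1, 3, 5, 7, 10]] [(.mj 3 4, 13), (.mj 7 8, 3), (.mj 11 10, 1), (.hz 20 639, 2523), (.hz 22 1279, 716), (.hz 19 1279, 2265)])
.fin))
(.lp [[8], [0, 2, 4, 6, 9], [1, 3, 5, 7, 10]] [(.mj 3 4, 10), (.mj 6 7, 4), (.mj 7 8, 1)])))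
(.lp [[8], [0, 2, 4, 6, 9], [1, 3, 5, 7, 10]] [(.mj 3 4, 42), (.mj 6 7, 9), (.mj 8 10, 2), (.hz 24 63, 29127), (.hz 24 127, 3144), (.hz 24 255, 14339), (.hz 20 639, 1434), (.hz 19 1279, 4716)]))))
(.lp [[8], [0, 2, 4, 6, 9], [1, 3, 5, 7, 10]] [(.mj 6 7, 11), (.mj 7 8, 11), (.mj 8 10, 6), (.hz 23 95, 9804), (.hz 23 127, 14960), (.hz 23 255, 20536), (.hz 20 639, 5737), (.hz 19 1279, 13508)]))
(.lp [[8], [0, 2, 4, 6, 9], [1, 3, 5, 7, 10]] [(.mj 3 4, 79), (.mj 6 7, 12), (.mj 8 10, 5), (.hz 22 47, 2584), (.hz 22 63, 2983), (.hz 22 175, 1290), (.hz 22 127, 30), (.hz 22 255, 3572), (.hz 20 639, 3572), (.hz 19 1279, 11748)]))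
(.lp [[8], [0, 2, 4, 6, 9], [1, 3, 5, 7, 10]] [(.mj 3 4, 12869), (.mj 7 8, 4279), (.rw 4, 8), (.rw 8, 1), (.hz 21 63, 1985260), (.hz 18 319, 794191), (.hz 20 639, 2950244)]))
(.lp [[8], [0, 2, 4, 6, 9], [1, 3, 5, 7, 10]] [(.mj 3 4, 177105), (.mj 6 7, 34622), (.mj 8 10, 7241), (.rw 4, 41), (.hz 20 47, 4327706), (.hz 20 63, 7219164), (.hz 20 127, 1574186), (.hz 17 767, 27213410), (.hz 19 1279, 16110821)]))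

theorem run183 : run P3488 (leaf3 218 625) (cutRow P3488) [] t183 s183 = true := by
  decide +kernel

theorem bad183 : Bad P3488 s183 :=
  run_sound (leaf3_sound P3488 rfl rfl) (cutRow_sound P3488) (
    fun _ h => absurd h List.not_mem_nil) t183 s183 run183

end Pool.Agent.WN.Data
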