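import Pool.Agent.WN.CutRow
import Pool.Agent.WN.LeafRow
import Pool.Agent.Helper99.WN.ParDef
import Pool.Agent.WN.Data.D5

/-!
# The search tree, part 10
-/

set_option autoImplicit false

namespace Pool.Agent.WN.Data

open Pool.Agent.W3 Pool.Agent.WN Pool.Agent.Helper99.WN

/-- the state above piece 197 of the tree -/
def s197 : St := ⟨[0, 0, 1, 3, 5, 15, 23, 31, 47, 159, 319], [671, 447, 303, 191, 63, 31, 23, 21, 15, 11, 7, 5, 3, 2, 1, 0], [0, 1, 2, 3, 4, 5, 7, 8, 9],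
  [(5, 6), (4, 5)],
  [⟨true, 2, 3, 3, 10⟩, ⟨true, 1, 5, 2, 5⟩, ⟨true, 2, 3, 23, 50⟩, ⟨true, 1, 5, 12, 25⟩, ⟨true, 1, 21, 27, 50⟩, ⟨true, 4, 15, 9, 40⟩, ⟨true, 3, 23, 11, 20⟩, ⟨true, 4, 47, 7, 20⟩, ⟨true, 4, 47, 17, 40⟩, ⟨true, 4, 47, 9, 20⟩, ⟨true, 4, 47, 19, 40⟩, ⟨true, 5, 95, 1, 5⟩, ⟨true, 5, 95, 3, 10⟩, ⟨true, 5, 31, 3, 10⟩, ⟨true, 3, 87, 29, 40⟩, ⟨true, 6, 447, 1, 40⟩, ⟨true, 8, 703, 13, 50⟩, ⟨true, 6, 959, 3, 50⟩, ⟨true, 8, 127, 7, 25⟩, ⟨true, 9, 1471, 3, 10⟩, ⟨true, 5, 95, 21, 50⟩],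
  [.spn 0 0 651200, .spn 1 1 302400, .spn 3 2 302400, .spn 7 3 302400, .spn 15 4 302400, .spn 31 5 140426, .spn 63 7 140426, .spn 191 8 140426, .spn 447 9 140426]⟩

/-- piece 197 of the tree -/
noncomputable def t197 : WN.Tree :=
(.ask 703
(.mark 959 [6, 10, 11]
(.spn
(.haz 10 959 7 25
(.lp [[6], [1, 3, 5, 8, 10], [0, 2, 4, 7, 9, 11]] [(.mj 6 10, 1659), (.mj 8 9, 1659), (.mj 9 6, 1659), (.rw 9, 1), (.hz 21 959, 1837712), (.hz 21 1023, 3317169), (.hz 21 3007, 4395249)])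
(.lp [[6], [1, 3, 5, 8, 10], [0, 2, 4, 7, 9, 11]] [(.mj 8 9, 1426), (.mj 9 6, 855), (.rw 9, 1), (.hz 21 319, 465141), (.hz 21 447, 1209094), (.hz 21 959, 878059), (.hz 17 3007, 2509731)]))
(.maj 6 11
(.ask 1343
(.mark 1983 [6, 11, 12]
(.cut 6 [(0, 1), (1, 1), (2, 1), (3, 1), (5, 1), (7, 1), (11, 1), (21, 1), (15, 1), (23, 1), (31, 1), (47, 1), (63, 1), (159, 1), (303, 1), (191, 1), (319, 1), (671, 1), (447, 1), (703, 1), (959, 1)]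
(.lp [[6], [0, 2, 4, 7, 9, 11], [1, 3, 5, 8, 10, 12]] [(.mj 0 1, 2374), (.mj 6 11, 101), (.mj 8 9, 359), (.mj 9 10, 544), (.mj 10 6, 560), (.hz 14 87, 10573), (.hz 17 3007, 2863227), (.hz 17 6079, 703435), (.rw 10, 1)])))
(.ask 1471
(.mark 1983 [6, 11, 12]
(.cut 6 [(0, 1), (1, 1), (2, 1), (3, 1), (5, 1), (7, 1), (11, 1), (21, 1), (15, 1), (23, 1), (31, 1), (47, 1), (63, 1), (159, 1), (303, 1), (191, 1), (319, 1), (671, 1), (447, 1), (703, 1), (959, 1)]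
(.lp [[6], [0, 2, 4, 7, 9, 11], [1, 3, 5, 8, 10, 12]] [(.mj 0 1, 64719), (.mj 6 11, 2261), (.mj 8 9, 9524), (.mj 9 10, 14390), (.mj 10 6, 14508), (.hz 14 87, 288239), (.hz 17 3007, 75747381), (.hz 17 6079, 16558587), (.rw 10, 28)])))
(.haz 11 2047 6 25
(.cut 6 [(0, 1), (1, 1), (2, 1), (3, 1), (5, 1), (7, 1), (11, 1), (21, 1), (15, 1), (23, 1), (31, 1), (47, 1), (63, 1), (159, 1), (303, 1), (191, 1), (319, 1), (671, 1), (447, 1), (703, 1), (959, 1)]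
(.cut 6 [(0, 1), (1, 1), (2, 1), (3, 1), (5, 1), (7, 1), (11, 1), (21, 1), (15, 1), (23, 1), (31, 1), (47, 1), (63, 1), (159, 1), (303, 1), (191, 1), (319, 1), (671, 1), (447, 1), (703, 1), (1343, 1), (959, 1)]
(.cut 6 [(0, 1), (1, 1), (2, 1), (3, 1), (5, 1), (7, 1), (11, 1), (21, 1), (15, 1), (23, 1), (31, 1), (47, 1), (63, 1), (159, 1), (303, 1), (191, 1), (319, 1), (671, 1), (447, 1), (703, 1), (1343, 1), (959, 1), (1471, 1)]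
(.lp [[6], [1, 3, 5, 8, 10], [0, 2, 4, 7, 9, 11]] [(.mj 0 1, 359884), (.mj 8 9, 5569), (.mj 10 6, 20715), (.hz 14 87, 1602811), (.hz 17 3007, 6551295), (.hz 21 2047, 264663712), (.rw 10, 26), (.rw 11, 6), (.rw 12, 22)]))))
(.ask 87
(.mark 767 [8, 11, 12]
(.cut 6 [(0, 1), (1, 1), (2, 1), (3, 1), (5, 1), (7, 1), (11, 1), (21, 1), (15, 1), (23, 1), (31, 1), (47, 1), (63, 1), (159, 1), (303, 1), (191, 1), (319, 1), (671, 1), (447, 1), (703, 1), (959, 1)]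
(.lp [[6, 12], [1, 3, 5, 8, 10], [0, 2, 4, 7, 9, 11]] [(.mj 0 1, 11098), (.mj 7 8, 555), (.mj 10 6, 511), (.hz 14 4183, 74684), (.hz 20 4191, 229727), (.hz 18 4223, 1499937), (.hz 21 703, 354426), (.hz 20 4319, 71809), (.hz 18 4351, 137008), (.hz 21 959, 45674), (.hz 20 4831, 56146), (.hz 17 3007, 2114852), (.rw 10, 1)])))
(.cut 6 [(0, 1), (1, 1), (2, 1), (3, 1), (5, 1), (7, 1), (11, 1), (21, 1), (15, 1), (23, 1), (31, 1), (47, 1), (63, 1), (159, 1), (303, 1), (191, 1), (319, 1), (671, 1), (447, 1), (703, 1), (959, 1)]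
(.lp [[6], [1, 3, 5, 8, 10], [0, 2, 4, 7, 9, 11]] [(.mj 0 1, 325849), (.mj 7 8, 1978), (.mj 9 10, 3243), (.mj 10 6, 12450), (.hz 20 95, 1941630), (.hz 21 703, 6020452), (.hz 17 3007, 54200132), (.rw 10, 22)]))))))
(.ask 87
(.mark 1023 [10, 11, 12]
(.cut 6 [(0, 1), (1, 1), (2, 1), (3, 1), (5, 1), (7, 1), (11, 1), (21, 1), (15, 1), (23, 1), (31, 1), (47, 1), (63, 1), (159, 1), (303, 1), (191, 1), (319, 1), (447, 1)]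
(.lp [[6, 12], [1, 3, 5, 8, 10], [0, 2, 4, 7, 9, 11]] [(.mj 0 1, 72933), (.mj 7 8, 2310), (.mj 8 9, 2651), (.mj 9 10, 67), (.mj 10 11, 293), (.mj 11 6, 4284), (.hz 14 4183, 456300), (.hz 20 4191, 1289098), (.hz 18 4223, 7316284), (.hz 20 4319, 209782), (.hz 17 959, 983582), (.hz 17 1983, 5878479), (.rw 10, 10)])))
(.cut 6 [(0, 1), (1, 1), (2, 1), (3, 1), (5, 1), (7, 1), (11, 1), (21, 1), (15, 1), (23, 1), (31, 1), (47, 1), (63, 1), (159, 1), (303, 1), (191, 1), (319, 1)]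
(.cut 6 [(0, 1), (1, 1), (2, 1), (3, 1), (5, 1), (7, 1), (11, 1), (21, 1), (15, 1), (23, 1), (31, 1), (47, 1), (63, 1), (159, 1), (303, 1), (191, 1), (319, 1), (671, 1), (447, 1), (703, 1), (959, 1)]
(.cut 6 [(0, 1), (1, 1), (2, 1), (3, 1), (5, 1), (7, 1), (11, 1), (21, 1), (15, 1), (23, 1), (31, 1), (47, 1), (63, 1), (303, 1), (319, 1), (1343, 1)]
(.lp [[6], [1, 3, 5, 8, 10], [0, 2, 4, 7, 9, 11]] [(.mj 0 1, 487720), (.mj 7 8, 7190), (.mj 8 9, 10914), (.mj 9 10, 93), (.mj 10 11, 1904), (.mj 11 6, 22892), (.hz 20 95, 2906172), (.hz 20 223, 402870), (.hz 17 959, 9878500), (.hz 17 1983, 29352109), (.rw 10, 24), (.rw 11, 19), (.rw 12, 4)]))))))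
(.cut 6 [(0, 1), (1, 1), (2, 1), (3, 1), (5, 1), (7, 1), (11, 1), (21, 1), (15, 1), (23, 1), (31, 1), (47, 1), (63, 1), (159, 1), (303, 1), (191, 1)]
(.cut 6 [(0, 1), (1, 1), (2, 1), (3, 1), (5, 1), (7, 1), (11, 1), (21, 1), (15, 1), (23, 1), (31, 1), (47, 1), (63, 1), (159, 1), (303, 1), (191, 1), (319, 1), (671, 1), (447, 1), (703, 1), (1343, 1), (959, 1)]
(.cut 6 [(0, 1), (1, 1), (2, 1), (3, 1), (5, 1), (7, 1), (11, 1), (21, 1), (15, 1), (23, 1), (31, 1), (47, 1), (63, 1), (159, 1), (303, 1), (191, 1), (319, 1), (447, 1)]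
(.lp [[6], [1, 3, 5, 8, 10], [0, 2, 4, 7, 9, 11]] [(.mj 7 8, 9175), (.mj 8 9, 20281), (.mj 11 6, 14407), (.mj 11 10, 7248), (.hz 19 1471, 18345896), (.hz 17 3007, 11428998), (.rw 10, 9), (.rw 11, 1), (.rw 12, 26)]))))
.fin))
(.ask 959
(.mark 959 [6, 10, 11]
(.spn
(.haz 11 1983 17 50
(.haz 10 959 13 50
(.lp [[6], [1, 3, 5, 8, 10], [0, 2, 4, 7, 9, 11]] [(.mj 6 10, 7), (.mj 6 11, 3), (.mj 8 9, 2), (.mj 9 6, 8), (.hz 22 959, 593), (.hz 22 1023, 11167), (.hz 22 3007, 10898)])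
(.haz 10 3007 1 5
(.ask 1343
(.mark 1983 [6, 11, 12]
(.lp [[6], [0, 2, 4, 7, 9, 11], [1, 3, 5, 8, 10, 12]] [(.mj 6 11, 19), (.mj 8 9, 16), (.mj 9 6, 26), (.hz 22 319, 6994), (.hz 22 447, 17918), (.hz 17 1983, 6576), (.hz 23 3007, 125646), (.hz 17 6079, 38917), (.hz 21 6079, 51752)]))
(.ask 1471
(.mark 1983 [6, 11, 12]
(.lp [[6], [0, 2, 4, 7, 9, 11], [1, 3, 5, 8, 10, 12]] [(.mj 6 11, 4), (.mj 8 9, 3), (.mj 9 6, 5), (.hz 22 447, 5294), (.hz 23 3007, 28837), (.hz 21 6079, 9612)]))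
(.lp [[6], [1, 3, 5, 8, 10], [0, 2, 4, 7, 9, 11]] [(.mj 6 11, 4), (.mj 8 9, 4), (.mj 9 6, 5), (.hz 22 959, 8339), (.hz 23 3007, 63924)])))
(.lp [[6], [1, 3, 5, 8, 10], [0, 2, 4, 7, 9, 11]] [(.mj 6 11, 12), (.mj 8 9, 9), (.mj 9 6, 14), (.hz 23 319, 37493), (.hz 23 447, 92252), (.hz 23 959, 33920), (.hz 17 1983, 14513), (.hz 21 1983, 20480)])))
(.lp [[6], [1, 3, 5, 8, 10], [0, 2, 4, 7, 9, 11]] [(.mj 6 10, 10), (.mj 8 9, 8), (.mj 9 6, 10), (.hz 21 959, 9004)]))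
(.maj 6 11
(.cut 6 [(0, 1), (1, 1), (2, 1), (3, 1), (5, 1), (7, 1), (11, 1), (21, 1), (15, 1), (23, 1), (31, 1), (47, 1), (63, 1), (159, 1), (303, 1), (191, 1), (319, 1), (671, 1), (447, 1), (703, 1), (959, 1)]
(.lp [[6], [1, 3, 5, 8, 10], [0, 2, 4, 7, 9, 11]] [(.mj 0 1, 16078), (.mj 7 8, 2356), (.mj 10 6, 1861), (.hz 14 87, 71608), (.hz 17 3007, 7053342), (.rw 10, 4)]))
(.cut 6 [(0, 1), (1, 1), (2, 1), (3, 1), (5, 1), (7, 1), (11, 1), (21, 1), (15, 1), (23, 1), (31, 1), (47, 1), (63, 1), (159, 1), (303, 1), (191, 1), (671, 1), (703, 1)]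
(.cut 6 [(0, 1), (1, 1), (2, 1), (3, 1), (5, 1), (7, 1), (11, 1), (21, 1), (15, 1), (23, 1), (31, 1), (47, 1), (63, 1), (159, 1), (303, 1), (191, 1), (319, 1), (671, 1), (447, 1), (703, 1), (959, 1)]
(.lp [[6], [1, 3, 5, 8, 10], [0, 2, 4, 7, 9, 11]] [(.mj 0 1, 22166), (.mj 7 8, 1494), (.mj 10 6, 578), (.mj 10 11, 340), (.mj 11 6, 1247), (.hz 14 87, 98720), (.rw 10, 3), (.rw 11, 2)]))))
(.ask 3007
(.mark 3007 [6, 10, 12]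
(.spn
(.lp [[6], [1, 3, 5, 8, 10], [0, 2, 4, 7, 9, 11, 12]] [(.mj 11 6, 130), (.rw 10, 1)])
(.lp [[6], [1, 3, 5, 8, 10], [0, 2, 4, 7, 9, 11, 12]] [(.mj 11 10, 14793), (.rw 10, 23), (.hz 17 1983, 155406764)])
(.cut 6 [(0, 1), (1, 1), (2, 1), (3, 1), (5, 1), (7, 1), (11, 1), (21, 1), (15, 1), (23, 1), (31, 1), (47, 1), (63, 1), (159, 1), (303, 1), (191, 1), (319, 1), (671, 1), (447, 1), (703, 1), (959, 1)]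
(.cut 10 [(0, 1), (1, 1), (2, 1), (3, 1), (5, 1), (7, 1), (11, 1), (21, 1), (15, 1), (23, 1), (31, 1), (47, 1), (87, 1), (63, 1), (95, 1), (159, 1), (303, 1), (127, 1), (191, 1), (223, 1), (319, 1), (671, 1), (255, 1), (383, 1), (447, 1), (703, 1), (735, 1), (511, 1), (767, 1), (959, 1), (1023, 1)]
(.lp [[6], [1, 3, 5, 8, 10], [0, 2, 4, 7, 9, 11, 12]] [(.mj 0 1, 730280), (.mj 8 9, 6957), (.mj 12 6, 51877), (.hz 14 87, 3252437), (.hz 17 959, 89651189), (.hz 15 1471, 41746554), (.hz 19 1471, 11866810), (.hz 17 1983, 39556032), (.hz 17 4031, 104317405), (.rw 11, 94), (.rw 12, 4)])))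
.fin))
(.lp [[6], [1, 3, 5, 8, 10], [0, 2, 4, 7, 9, 11]] [(.mj 11 10, 1), (.rw 9, 1)]))
.fin))
(.spn
(.lp [[6], [0, 2, 4, 7, 9], [1, 3, 5, 8, 10]] [(.mj 6 10, 2), (.mj 9 6, 3)])
(.lp [[6], [0, 2, 4, 7, 9], [1, 3, 5, 8, 10]] [(.mj 9 10, 7), (.mj 10 6, 4), (.hz 17 1983, 20493)])
.fin
.fin)))

theorem run197 : run P3488 (leaf3 218 625) (cutRow P3488) [] t197 s197 = true := by
  decide +kernel

theorem bad197 : Bad P3488 s197 :=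
  run_sound (leaf3_sound P3488 rfl rfl) (cutRow_sound P3488) (
    fun _ h => absurd h List.not_mem_nil) t197 s197 run197

/-- the state above piece 134 of the tree -/
def s134 : St := ⟨[0, 0, 1, 3, 5, 11, 15, 21, 79, 223], [335, 223, 159, 151, 149, 95, 31, 15, 11, 7, 5, 3, 2, 1, 0], [0, 1, 2, 3, 4, 6, 7, 8],
  [],
  [⟨true, 2, 3, 3, 10⟩, ⟨true, 1, 5, 2, 5⟩, ⟨true, 2, 3, 23, 50⟩, ⟨true, 1, 5, 12, 25⟩, ⟨true, 1, 21, 27, 50⟩, ⟨true, 4, 15, 9, 40⟩, ⟨true, 3, 23, 11, 20⟩, ⟨true, 4, 79, 7, 25⟩, ⟨true, 6, 63, 6, 25⟩, ⟨true, 4, 15, 17, 50⟩, ⟨true, 3, 151, 29, 50⟩, ⟨true, 5, 351, 1, 25⟩, ⟨true, 4, 335, 9, 25⟩, ⟨true, 7, 63, 1, 5⟩, ⟨true, 7, 351, 7, 25⟩, ⟨true, 5, 335, 1, 25⟩, ⟨true, 5, 479, 3, 50⟩, ⟨true, 4, 335, 2, 5⟩, ⟨true, 4, 335, 9, 20⟩],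
  [.spn 0 0 651200, .spn 1 1 302400, .spn 3 2 302400, .spn 7 3 302400, .spn 15 4 140426, .spn 31 6 140426, .spn 95 7 140426, .spn 223 8 140426]⟩

/-- piece 134 of the tree -/
noncomputable def t134 : WN.Tree :=
(.ask 351
(.mark 479 [5, 9, 10]
(.spn
(.haz 9 479 3 10
(.lp [[5], [0, 2, 4, 7, 9], [1, 3, 6, 8, 10]] [(.mj 5 9, 3280), (.mj 5 10, 192), (.mj 7 8, 2795), (.mj 8 5, 3280), (.rw 8, 1), (.hz 19 479, 4741414), (.hz 11 1375, 3481853), (.hz 19 511, 5740812), (.hz 19 1503, 14433398)])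
(.lp [[5], [0, 2, 4, 7, 9], [1, 3, 6, 8, 10]] [(.mj 7 8, 1223), (.mj 8 5, 675), (.rw 8, 1), (.hz 19 223, 1506323), (.hz 19 479, 1099229), (.hz 16 1503, 1207887)]))
(.ask 735
(.mark 991 [5, 10, 11]
(.spn
(.ask 1375
(.mark 1375 [5, 7, 12]
(.lp [[5], [0, 2, 4, 7, 9, 11], [1, 3, 6, 8, 10, 12]] [(.mj 3 4, 8443), (.mj 8 9, 140), (.mj 9 5, 6633), (.rw 9, 14), (.hz 16 1503, 25133750), (.hz 11 5471, 13063611), (.hz 14 5471, 1797759), (.hz 16 3039, 7218305), (.hz 16 5599, 7047078)]))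
(.lp [[5], [1, 3, 6, 8, 10], [0, 2, 4, 7, 9, 11]] [(.mj 3 4, 2499), (.mj 5 10, 75), (.mj 9 5, 1095), (.rw 9, 2), (.hz 16 1503, 3408251), (.hz 16 3039, 1107934)]))
(.maj 5 11
(.cut 5 [(0, 1), (1, 1), (2, 1), (3, 1), (5, 1), (7, 1), (11, 1), (21, 1), (15, 1), (23, 1), (149, 1), (31, 1), (79, 1), (151, 1), (95, 1), (159, 1), (335, 1), (223, 1), (351, 1), (479, 1), (735, 1), (991, 1)]
(.lp [[5], [1, 3, 6, 8, 10], [0, 2, 4, 7, 9, 11]] [(.mj 3 4, 4171), (.mj 8 9, 873), (.mj 9 10, 2409), (.mj 10 5, 2810), (.hz 16 3039, 12738406), (.rw 10, 8)]))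
(.cut 5 [(0, 1), (1, 1), (2, 1), (3, 1), (5, 1), (7, 1), (11, 1), (21, 1), (15, 1), (23, 1), (149, 1), (31, 1), (79, 1), (151, 1), (95, 1), (159, 1), (335, 1), (223, 1), (351, 1), (479, 1), (735, 1), (991, 1)]
(.lp [[5], [1, 3, 6, 8, 10], [0, 2, 4, 7, 9, 11]] [(.mj 3 4, 2638), (.mj 7 8, 406), (.mj 8 9, 113), (.mj 9 10, 502), (.mj 10 5, 556), (.mj 10 11, 166), (.mj 11 5, 907), (.hz 16 479, 1274127), (.rw 10, 4)])))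
(.cut 5 [(0, 1), (1, 1), (2, 1), (3, 1), (5, 1), (7, 1), (11, 1), (21, 1), (15, 1), (23, 1), (149, 1), (31, 1), (79, 1), (151, 1), (95, 1), (159, 1), (335, 1), (223, 1), (351, 1), (479, 1), (735, 1), (1375, 2), (991, 1), (1503, 2), (2015, 1)]
(.cut 5 [(0, 1), (1, 1), (2, 1), (3, 1), (5, 1), (7, 1), (11, 1), (21, 1), (15, 1), (23, 1), (149, 1), (31, 1), (79, 1), (151, 1), (95, 1), (159, 1), (335, 1), (223, 1), (351, 1), (479, 1)]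
(.lp [[5], [1, 3, 6, 8, 10], [0, 2, 4, 7, 9, 11]] [(.mj 3 4, 54951), (.mj 7 8, 16299), (.mj 8 9, 14267), (.mj 11 5, 33749), (.mj 11 10, 5831), (.hz 11 1375, 64302), (.hz 16 1503, 13785967), (.rw 10, 1), (.rw 11, 98)])))
.fin))
(.ask 991
(.mark 991 [5, 10, 11]
(.spn
(.haz 11 2015 7 20
(.haz 11 2015 1 2
(.lp [[5], [1, 3, 6, 8, 10], [0, 2, 4, 7, 9, 11]] [(.mj 5 10, 32), (.mj 5 11, 796), (.mj 7 8, 1182), (.mj 9 5, 1402), (.rw 9, 1), (.hz 16 1503, 5264516), (.hz 20 2015, 35810193)])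
(.lp [[5], [1, 3, 6, 8, 10], [0, 2, 4, 7, 9, 11]] [(.mj 3 4, 7), (.mj 5 10, 5), (.mj 9 5, 7), (.hz 11 1375, 4610), (.hz 20 991, 189981), (.hz 16 1503, 13160), (.hz 19 2015, 11832)]))
(.lp [[5], [1, 3, 6, 8, 10], [0, 2, 4, 7, 9, 11]] [(.mj 3 4, 6), (.mj 5 10, 6), (.mj 9 5, 7), (.hz 19 991, 15329)]))
(.cut 5 [(0, 1), (1, 1), (2, 1), (3, 1), (5, 1), (7, 1), (11, 1), (21, 1), (15, 1), (23, 1), (149, 1), (31, 1), (79, 1), (151, 1), (95, 1), (159, 1), (335, 1), (223, 1), (351, 1), (479, 1)]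
(.cut 5 [(0, 1), (1, 1), (2, 1), (3, 1), (5, 1), (7, 1), (11, 1), (21, 1), (15, 1), (23, 1), (149, 1), (31, 1), (79, 1), (151, 1), (95, 1), (159, 1), (223, 1), (735, 1)]
(.lp [[5], [1, 3, 6, 8, 10], [0, 2, 4, 7, 9, 11]] [(.mj 3 4, 4148), (.mj 7 8, 2342), (.mj 10 5, 2447), (.mj 10 11, 36), (.hz 16 3039, 2484386), (.rw 10, 2), (.rw 11, 5)])))
(.cut 5 [(0, 1), (1, 1), (2, 1), (3, 1), (5, 1), (7, 1), (11, 1), (21, 1), (15, 1), (23, 1), (149, 1), (31, 1), (79, 1), (151, 1), (95, 1), (159, 1), (335, 1), (223, 1), (351, 1), (479, 1), (735, 1), (991, 1)]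
(.lp [[5], [1, 3, 6, 8, 10], [0, 2, 4, 7, 9, 11]] [(.mj 3 4, 10127), (.mj 7 8, 2570), (.mj 11 5, 4702), (.hz 14 1407, 2087987), (.rw 10, 14)]))
.fin))
(.lp [[5], [0, 2, 4, 7, 9], [1, 3, 6, 8, 10]] [(.mj 7 8, 1), (.mj 9 5, 10), (.mj 9 10, 11), (.hz 16 1503, 67946)])))
(.haz 9 479 1 4
(.cut 5 [(0, 1), (1, 1), (2, 1), (3, 1), (5, 1), (7, 1), (11, 1), (21, 1), (15, 1), (23, 1), (149, 1), (31, 1), (79, 1), (151, 1), (95, 1), (159, 1), (223, 1)]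
(.lp [[5], [0, 2, 4, 7, 9], [1, 3, 6, 8, 10]] [(.mj 7 8, 509), (.mj 10 5, 353), (.mj 10 9, 353), (.hz 19 479, 2013076), (.hz 19 511, 14495300), (.hz 16 1503, 150159), (.rw 9, 1)]))
(.lp [[5], [0, 2, 4, 7, 9], [1, 3, 6, 8, 10]] [(.mj 7 8, 6), (.mj 10 5, 4), (.hz 19 223, 20819), (.hz 16 479, 7259), (.hz 19 479, 7197), (.hz 16 991, 5024), (.hz 16 1503, 6341)]))
.fin))
(.haz 8 767 3 10
(.ask 479
(.mark 479 [5, 9, 10]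
(.spn
(.haz 9 1503 1 10
(.haz 9 1503 3 20
(.ask 1503
(.mark 1503 [5, 9, 11]
(.ask 3551
(.haz 9 479 1 4
(.mark 3551 [5, 9, 12]
(.lp [[5], [0, 2, 4, 7, 9], [1, 3, 6, 8, 10, 11, 12]] [(.mj 5 9, 10), (.mj 5 10, 3), (.mj 8 5, 14), (.hz 22 511, 177842), (.hz 22 1503, 74834), (.hz 22 1535, 17925), (.hz 22 3551, 53774), (.hz 22 7647, 71698)]))
(.ask 735
(.mark 4063 [5, 12, 13]
(.lp [[5], [0, 2, 4, 7, 9, 13], [1, 3, 6, 8, 10, 11, 12]] [(.mj 5 9, 7), (.mj 5 10, 29), (.mj 7 8, 30), (.mj 8 5, 43), (.hz 22 223, 301394), (.hz 21 1503, 71297), (.hz 16 9183, 55919)]))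
(.lp [[5], [0, 2, 4, 7, 9], [1, 3, 6, 8, 10, 11, 12]] [(.mj 5 10, 5), (.mj 7 8, 6), (.mj 8 5, 6), (.hz 22 479, 75517), (.hz 21 1503, 12326)])))
(.lp [[5], [0, 2, 4, 7, 9], [1, 3, 6, 8, 10, 11]] [(.mj 5 9, 7), (.mj 8 5, 13), (.hz 21 1535, 50511)])))
(.lp [[5], [0, 2, 4, 7, 9], [1, 3, 6, 8, 10]] [(.mj 5 9, 3), (.mj 8 5, 5)]))
(.lp [[5], [0, 2, 4, 7, 9], [1, 3, 6, 8, 10]] [(.mj 5 10, 2), (.mj 7 8, 3), (.mj 8 5, 3), (.hz 21 223, 3255), (.hz 21 479, 4223), (.hz 20 1503, 11624)]))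
(.lp [[5], [0, 2, 4, 7, 9], [1, 3, 6, 8, 10]] [(.mj 5 10, 4), (.mj 7 8, 4), (.mj 8 5, 5), (.hz 20 223, 8970), (.hz 20 479, 11264)]))
(.maj 5 10
(.haz 5 95 1 10
(.lp [[5], [0, 2, 4, 7, 9], [1, 3, 6, 8, 10]] [(.mj 3 4, 7), (.mj 9 5, 4), (.hz 20 95, 4067), (.hz 20 223, 13670), (.hz 20 351, 2485), (.hz 20 479, 11341), (.hz 20 735, 645), (.hz 20 1503, 6453)])
(.cut 5 [(0, 1), (1, 1), (2, 1), (3, 1), (5, 1), (7, 1), (11, 1), (21, 1), (15, 1), (23, 1), (149, 1), (31, 1), (79, 1), (151, 1), (95, 1), (159, 1), (335, 1), (223, 1), (351, 1), (479, 1)]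
(.lp [[5], [0, 2, 4, 7, 9], [1, 3, 6, 8, 10]] [(.mj 3 4, 347609), (.mj 9 5, 60196), (.hz 20 11, 9629659), (.hz 20 15, 25144110), (.hz 20 79, 33246873), (.hz 18 367, 26323025), (.hz 16 1503, 139993544), (.rw 9, 127)])))
(.cut 5 [(0, 1), (1, 1), (2, 1), (3, 1), (5, 1), (7, 1), (11, 1), (21, 1), (15, 1), (23, 1), (149, 1), (31, 1), (79, 1), (151, 1), (95, 1), (159, 1), (335, 1), (351, 1)]
(.cut 5 [(0, 1), (1, 1), (2, 1), (3, 1), (5, 1), (7, 1), (11, 1), (21, 1), (15, 1), (23, 1), (149, 1), (31, 1), (79, 1), (151, 1), (95, 1), (159, 1), (335, 1), (223, 1), (351, 1), (479, 1)]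
(.lp [[5], [0, 2, 4, 7, 9], [1, 3, 6, 8, 10]] [(.mj 3 4, 18790), (.mj 9 5, 970), (.mj 9 10, 922), (.mj 10 5, 6749), (.hz 16 991, 3163820), (.rw 9, 14), (.rw 10, 5)]))))
(.ask 1503
(.mark 1503 [5, 9, 11]
(.spn
(.lp [[5], [0, 2, 4, 7, 9], [1, 3, 6, 8, 10, 11]] [(.mj 10 5, 141), (.rw 9, 1)])
(.cut 5 [(0, 1), (1, 1), (2, 1), (3, 1), (5, 1), (7, 1), (11, 1), (21, 1), (15, 1), (23, 1), (149, 1), (31, 1), (79, 1), (151, 1), (95, 1), (159, 1), (335, 1), (223, 1), (351, 1), (479, 1), (1503, 1)]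
(.lp [[5], [0, 2, 4, 7, 9], [1, 3, 6, 8, 10, 11]] [(.mj 9 5, 1662), (.mj 9 11, 1662), (.mj 10 9, 3615), (.rw 9, 1), (.rw 10, 7)]))
(.cut 5 [(0, 1), (1, 1), (2, 1), (3, 1), (5, 1), (7, 1), (11, 1), (21, 1), (15, 1), (23, 1), (149, 1), (31, 1), (79, 1), (151, 1), (95, 1), (159, 1), (335, 1), (223, 1), (351, 1), (479, 1)]
(.lp [[5], [0, 2, 4, 7, 9], [1, 3, 6, 8, 10, 11]] [(.mj 3 4, 20904), (.mj 7 8, 3533), (.mj 11 5, 9257), (.hz 19 767, 29291897), (.hz 16 1503, 2618591), (.rw 10, 25)]))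
.fin))
(.lp [[5], [0, 2, 4, 7, 9], [1, 3, 6, 8, 10]] [(.mj 10 9, 1), (.rw 8, 1)]))
.fin))
(.spn
(.lp [[5], [1, 3, 6, 8], [0, 2, 4, 7, 9]] [(.mj 5 9, 2), (.mj 8 5, 3)])
(.haz 5 95 1 10
(.lp [[5], [1, 3, 6, 8], [0, 2, 4, 7, 9]] [(.mj 3 4, 7), (.mj 9 5, 4), (.hz 20 95, 4067), (.hz 20 223, 13670), (.hz 20 351, 2485), (.hz 20 479, 11341), (.hz 20 735, 645)])
(.cut 5 [(0, 1), (1, 1), (2, 1), (3, 1), (5, 1), (7, 1), (11, 1), (21, 1), (15, 1), (23, 1), (149, 1), (31, 1), (79, 1), (151, 1), (95, 1), (159, 1), (335, 1), (223, 1), (351, 1), (479, 1)]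
(.lp [[5], [1, 3, 6, 8], [0, 2, 4, 7, 9]] [(.mj 3 4, 52107), (.mj 9 5, 4131), (.hz 20 11, 1977650), (.hz 20 15, 5163863), (.hz 20 79, 12909657), (.rw 9, 13)])))
.fin
.fin))
(.cut 5 [(0, 1), (1, 1), (2, 1), (3, 1), (5, 1), (7, 1), (11, 1), (21, 1), (15, 1), (23, 1), (149, 1), (31, 1), (79, 1), (151, 1), (95, 1), (159, 1), (335, 1), (223, 1)]
(.lp [[5], [1, 3, 6, 8], [0, 2, 4, 7, 9]] [(.mj 3 4, 290), (.mj 8 5, 608), (.mj 8 9, 401), (.hz 19 127, 2694697), (.hz 19 223, 1051668), (.hz 19 255, 3571710), (.rw 8, 1)]))))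

theorem run134 : run P3488 (leaf3 218 625) (cutRow P3488) [] t134 s134 = true := by
  decide +kernel

theorem bad134 : Bad P3488 s134 :=
  run_sound (leaf3_sound P3488 rfl rfl) (cutRow_sound P3488) (
    fun _ h => absurd h List.not_mem_nil) t134 s134 run134

/-- the state above piece 79 of the tree -/
def s79 : St := ⟨[0, 0, 1, 2, 5, 3], [7, 3, 5, 2, 1, 0], [0, 1, 2, 4],
  [],
  [⟨true, 2, 3, 3, 10⟩, ⟨true, 2, 3, 2, 5⟩, ⟨true, 2, 3, 9, 20⟩],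
  [.spn 0 0 651200, .spn 1 1 302400, .spn 3 2 140426, .spn 7 4 140426]⟩

/-- piece 79 of the tree -/
noncomputable def t79 : WN.Tree :=
(.haz 3 55 3 50
(.ask 21
(.mark 23 [3, 5, 6]
(.spn
(.haz 5 23 7 50
(.lp [[5], [1, 3], [0, 2, 4, 6]] [(.mj 0 1, 407468), (.mj 3 5, 57322), (.mj 3 6, 23228), (.rw 1, 304), (.hz 2 35, 734798), (.hz 4 23, 837328), (.hz 4 31, 4619711), (.hz 4 87, 6195742)])
(.lp [[5], [1, 3], [0, 2, 4, 6]] [(.mj 0 1, 812), (.rw 1, 1), (.hz 4 3, 5919), (.hz 4 7, 4235), (.hz 4 23, 2277)]))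
(.haz 5 31 11 50
(.haz 5 7 7 25
(.lp [[5], [1, 3], [0, 2, 4, 6]] [(.mj 0 1, 82514), (.mj 4 5, 89822), (.rw 1, 224), (.hz 5 7, 3118837), (.hz 2 11, 3395373), (.hz 5 15, 22621961)])
(.haz 3 119 1 10
(.haz 5 15 9 50
(.haz 2 35 27 50
(.haz 6 31 13 50
(.haz 3 119 3 25
(.haz 5 31 7 25
(.ask 10
(.mark 31 [5, 6, 7]
(.lp [[5], [1, 3, 7], [0, 2, 4, 6]] [(.mj 0 1, 400), (.mj 4 5, 1090), (.mj 5 3, 78), (.mj 5 6, 218), (.rw 1, 2), (.hz 2 139, 23534), (.hz 11 31, 118666), (.hz 7 143, 244079), (.hz 11 159, 128432), (.hz 9 159, 54488)]))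
(.ask 11
(.mark 31 [5, 6, 7]
(.lp [[5], [1, 3, 7], [0, 2, 4, 6]] [(.mj 0 1, 19117), (.mj 4 5, 16830), (.mj 5 6, 3366), (.rw 1, 40), (.hz 2 139, 620316), (.hz 11 31, 2393728), (.hz 9 31, 17692), (.hz 7 143, 3946692), (.hz 11 159, 1394322), (.hz 9 159, 799417)]))
(.haz 3 87 4 25
(.ask 15
(.mark 31 [5, 6, 7]
(.lp [[5], [1, 3, 7], [0, 2, 4, 6]] [(.mj 1 2, 46), (.mj 4 5, 35), (.mj 5 3, 14), (.mj 5 6, 4), (.hz 7 15, 818), (.hz 11 31, 3666), (.hz 7 143, 4635), (.hz 12 87, 2308), (.hz 9 159, 793)]))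
(.lp [[5], [1, 3], [0, 2, 4, 6]] [(.mj 1 2, 12), (.mj 4 5, 7), (.mj 5 3, 3), (.hz 8 35, 38), (.hz 11 31, 1004), (.hz 12 87, 390)]))
(.lp [[5], [1, 3], [0, 2, 4, 6]] [(.mj 1 2, 14), (.mj 4 5, 7), (.hz 12 7, 659), (.hz 8 35, 22), (.hz 7 15, 571), (.hz 12 23, 168), (.hz 8 43, 33)]))))
(.lp [[5], [1, 3], [0, 2, 4, 6]] [(.mj 1 2, 3377), (.rw 1, 2), (.rw 4, 6), (.hz 8 35, 24439), (.hz 11 23, 1093101), (.hz 4 31, 59987)]))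
(.lp [[5], [1, 3], [0, 2, 4, 6]] [(.mj 1 2, 85), (.mj 4 5, 40), (.hz 10 2, 1239), (.hz 10 3, 2957), (.hz 5 3, 974), (.hz 10 7, 150), (.hz 7 15, 4980), (.hz 10 23, 1033)]))
(.lp [[5], [1, 3], [0, 2, 4, 6]] [(.mj 4 5, 7), (.mj 5 3, 4), (.hz 5 7, 506), (.hz 9 21, 65), (.hz 7 15, 394), (.hz 9 23, 378), (.hz 4 31, 845)]))
(.lp [[5], [1, 3], [0, 2, 4, 6]] [(.mj 0 1, 19099), (.rw 1, 14), (.hz 8 3, 238734), (.hz 5 3, 477468)]))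
(.lp [[5], [1, 3], [0, 2, 4, 6]] [(.mj 0 1, 1080), (.mj 5 3, 138), (.rw 1, 2), (.hz 7 3, 16946), (.hz 7 7, 20665)]))
(.lp [[5], [1, 3], [0, 2, 4, 6]] [(.mj 1 2, 5), (.mj 4 5, 2), (.hz 6 2, 181), (.hz 6 3, 437), (.hz 5 3, 70), (.hz 6 7, 306), (.hz 6 23, 161), (.hz 3 55, 252)])))
(.lp [[5], [1, 3], [0, 2, 4, 6]] [(.mj 1 2, 525), (.rw 4, 1), (.hz 4 23, 89446)]))
(.haz 5 23 4 25
(.cut 3 [(0, 1), (1, 1), (2, 1), (3, 1), (5, 1), (7, 1), (21, 1), (85, 1)]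
(.lp [[5], [1, 3], [0, 2, 4, 6]] [(.mj 0 1, 67039), (.mj 6 5, 18070), (.rw 1, 85), (.hz 2 35, 646596), (.hz 4 23, 1508724), (.hz 4 31, 8563806), (.rw 5, 5)]))
(.lp [[5], [1, 3], [0, 2, 4, 6]] [(.mj 0 1, 496), (.mj 6 3, 66), (.rw 1, 1), (.hz 4 3, 16754), (.hz 4 7, 12110), (.hz 4 23, 6582)]))
.fin))
(.ask 23
(.mark 23 [3, 5, 6]
(.spn
(.ask 87
(.maj 5 6
(.cut 5 [(0, 1), (1, 1), (2, 1), (3, 1), (5, 1), (10, 1), (7, 1), (21, 1), (23, 1)]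
(.lp [[5], [1, 3], [0, 2, 4, 6, 7]] [(.mj 0 1, 183919), (.rw 1, 115), (.rw 4, 29), (.rw 5, 23)]))
(.mark 87 [3, 5, 7]
(.cut 5 [(0, 1), (1, 1), (2, 1), (3, 1), (5, 1), (10, 1), (7, 1), (21, 1), (23, 1)]
(.cut 5 [(0, 1), (1, 1), (2, 1), (3, 1), (5, 1), (10, 1), (7, 1), (21, 1), (23, 1), (87, 1)]
(.lp [[5], [1, 3], [0, 2, 4, 6, 7]] [(.mj 0 1, 726915), (.mj 3 5, 12679), (.mj 3 6, 72692), (.mj 6 5, 60013), (.rw 1, 454), (.rw 5, 110), (.rw 6, 8)])))))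
(.lp [[5], [1, 3], [0, 2, 4, 6]] [(.mj 0 1, 2115), (.mj 3 5, 114), (.mj 3 6, 17), (.rw 1, 1), (.hz 3 55, 45830)]))
(.haz 6 55 6 25
(.haz 5 15 9 50
(.haz 6 55 19 50
(.maj 3 6
(.lp [[5], [1, 3], [0, 2, 4, 6]] [(.mj 0 1, 57), (.mj 3 6, 11), (.mj 4 5, 4), (.hz 5 15, 1713), (.hz 6 55, 1246)])
(.haz 5 15 1 5
(.haz 6 31 2 5
(.haz 5 11 9 50
(.haz 5 15 11 50
(.haz 5 87 3 10
(.ask 10
(.mark 31 [5, 6, 7]
(.lp [[5], [1, 3, 7], [0, 2, 4, 6]] [(.mj 0 1, 3152), (.mj 4 5, 7320), (.mj 5 6, 3927), (.rw 1, 4), (.hz 2 139, 64627), (.hz 9 139, 588407), (.hz 8 31, 333855), (.hz 10 143, 1659705), (.hz 3 55, 222426), (.hz 8 159, 9817525)]))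
(.haz 6 31 11 25
(.haz 4 15 12 25
(.haz 4 15 14 25
(.ask 11
(.mark 31 [5, 6, 7]
(.lp [[5], [1, 3, 7], [0, 2, 4, 6]] [(.mj 0 1, 2), (.mj 4 5, 23), (.mj 5 6, 13), (.hz 9 11, 800), (.hz 14 15, 617), (.hz 10 15, 510), (.hz 2 139, 886), (.hz 9 139, 855), (.hz 12 31, 524), (.hz 10 143, 3897), (.hz 12 159, 6066)]))
(.ask 15
(.mark 31 [5, 6, 7]
(.lp [[5], [1, 3, 7], [0, 2, 4, 6]] [(.mj 4 5, 14), (.mj 5 6, 8), (.hz 14 15, 93), (.hz 10 15, 785), (.hz 12 31, 578), (.hz 10 143, 1733), (.hz 12 159, 3124)]))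
(.ask 31
(.mark 31 [5, 6, 7]
(.lp [[5], [1, 3, 7], [0, 2, 4, 6]] [(.mj 4 5, 82), (.mj 5 6, 46), (.mj 6 3, 2), (.hz 10 15, 6967), (.hz 12 31, 6390), (.hz 12 159, 11411)]))
(.lp [[5], [1, 3], [0, 2, 4, 6]] [(.mj 4 5, 12), (.mj 5 6, 7)]))))
(.lp [[5], [1, 3], [0, 2, 4, 6]] [(.mj 0 1, 7), (.mj 4 5, 2), (.hz 14 7, 324), (.hz 10 15, 315)]))
(.lp [[5], [1, 3], [0, 2, 4, 6]] [(.mj 0 1, 3), (.mj 4 5, 1), (.hz 13 7, 156), (.hz 10 15, 147)]))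
(.lp [[5], [1, 3], [0, 2, 4, 6]] [(.mj 4 5, 76), (.mj 6 3, 13), (.hz 9 11, 3870), (.hz 10 15, 11545), (.hz 12 23, 5587), (.hz 10 31, 1430)])))
(.lp [[5], [1, 3], [0, 2, 4, 6]] [(.mj 0 1, 108), (.mj 4 5, 19), (.mj 5 6, 50), (.hz 10 15, 2764), (.hz 11 23, 12520), (.hz 8 31, 62601)]))
(.lp [[5], [1, 3], [0, 2, 4, 6]] [(.mj 0 1, 11), (.mj 5 6, 4), (.hz 10 7, 317), (.hz 9 11, 95), (.hz 7 15, 1925), (.hz 8 31, 4814)]))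
(.lp [[5], [1, 3], [0, 2, 4, 6]] [(.mj 0 1, 39), (.mj 5 6, 13), (.hz 9 3, 1262), (.hz 7 15, 17789), (.hz 8 31, 16170)]))
(.lp [[5], [1, 3], [0, 2, 4, 6]] [(.mj 0 1, 26), (.mj 4 5, 30), (.mj 6 3, 4), (.hz 7 15, 64082), (.hz 8 23, 12131), (.hz 7 31, 4041)]))
(.cut 3 [(0, 1), (1, 1), (2, 1), (3, 1), (5, 1), (7, 1), (21, 1), (35, 2), (23, 1), (39, 1)]
(.lp [[5], [1, 3], [0, 2, 4, 6]] [(.mj 1 2, 5558), (.mj 5 6, 15933), (.mj 6 3, 12589), (.rw 4, 3), (.hz 7 3, 3231352), (.hz 7 7, 17696503), (.hz 7 11, 984066), (.hz 5 15, 2399911), (.hz 6 63, 1165342), (.rw 5, 10)]))))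
(.lp [[5], [1, 3], [0, 2, 4, 6]] [(.mj 0 1, 194), (.mj 4 5, 75), (.hz 5 15, 19009), (.hz 6 23, 3658)]))
(.cut 3 [(0, 1), (1, 1), (2, 1), (3, 1), (5, 1), (7, 1), (21, 1), (23, 1)]
(.lp [[5], [1, 3], [0, 2, 4, 6]] [(.mj 1 2, 2132), (.mj 5 3, 3590), (.mj 5 6, 3799), (.rw 4, 12), (.hz 5 7, 1351330), (.hz 5 11, 234815), (.rw 5, 8)])))
(.lp [[5], [1, 3], [0, 2, 4, 6]] [(.mj 0 1, 21), (.mj 4 5, 2), (.hz 4 23, 376), (.hz 3 55, 864)]))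
(.ask 87
(.mark 87 [3, 5, 7]
(.spn
(.lp [[5], [1, 3], [0, 2, 4, 6, 7]] [(.mj 6 3, 8919), (.rw 5, 14)])
(.lp [[5], [1, 3], [0, 2, 4, 6, 7]] [(.mj 6 5, 3207), (.rw 1, 12), (.rw 4, 1), (.rw 5, 6), (.hz 3 55, 1407331), (.hz 3 119, 80175)])
(.ask 215
(.mark 215 [3, 5, 8]
(.spn
(.lp [[5], [1, 3], [0, 2, 4, 6, 7, 8]] [(.mj 7 3, 319), (.rw 6, 1)])
(.lp [[5], [1, 3], [0, 2, 4, 6, 7, 8]] [(.mj 7 5, 422), (.rw 6, 1)])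
(.maj 3 5
(.cut 3 [(0, 1), (1, 1), (2, 1), (3, 1), (5, 1), (7, 1), (21, 1)]
(.cut 5 [(0, 1), (1, 1), (2, 1), (3, 1), (5, 1), (10, 1), (7, 1), (21, 1)]
(.cut 3 [(0, 1), (1, 1), (2, 1), (3, 1), (5, 1), (7, 1), (21, 1), (23, 1)]
(.cut 5 [(0, 1), (1, 1), (2, 1), (3, 1), (5, 1), (10, 1), (7, 1), (21, 1), (23, 1)]
(.cut 3 [(0, 1), (1, 1), (2, 1), (3, 1), (5, 1), (7, 1), (21, 1), (23, 1), (87, 1)]
(.cut 5 [(0, 1), (1, 1), (2, 1), (3, 1), (5, 1), (10, 1), (7, 1), (11, 1), (21, 1), (15, 1)]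
(.lp [[5], [1, 3], [0, 2, 4, 6, 7, 8]] [(.mj 1 2, 3506), (.mj 8 3, 1775), (.rw 1, 12), (.rw 6, 3), (.hz 2 35, 240380), (.hz 2 43, 395362), (.rw 7, 4), (.rw 8, 1), (.rw 9, 7), (.rw 10, 3), (.rw 11, 4), (.rw 12, 2)])))))))
(.cut 3 [(0, 1), (1, 1), (2, 1), (3, 1), (5, 1), (7, 1), (21, 1)]
(.cut 5 [(0, 1), (1, 1), (2, 1), (3, 1), (5, 1), (7, 1), (21, 1)]
(.cut 3 [(0, 1), (1, 1), (2, 1), (3, 1), (5, 1), (7, 1), (21, 1), (23, 1)]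
(.cut 5 [(0, 1), (1, 1), (2, 1), (3, 1), (5, 1), (7, 1), (21, 1), (23, 1)]
(.lp [[5], [1, 3], [0, 2, 4, 6, 7, 8]] [(.mj 1 2, 226), (.mj 8 5, 7194), (.rw 1, 45), (.rw 5, 4), (.hz 2 11, 4862), (.hz 2 35, 679306), (.hz 2 43, 201327), (.rw 7, 4), (.rw 8, 8), (.rw 9, 4), (.rw 10, 8)]))))))
.fin))
(.lp [[5], [1, 3], [0, 2, 4, 6, 7]] [(.mj 7 5, 1), (.rw 5, 1)]))
.fin))
(.lp [[5], [1, 3], [0, 2, 4, 6]] [(.mj 6 5, 1), (.rw 4, 1)]))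
.fin))
(.lp [[5], [1, 3], [0, 2, 4]] [(.mj 0 1, 7), (.mj 4 5, 1)])))
(.cut 3 [(0, 1), (1, 1), (2, 1), (3, 1), (5, 1), (7, 1), (21, 1)]
(.lp [[5], [1, 3], [0, 2, 4]] [(.mj 1 2, 2890), (.mj 4 5, 996), (.hz 3 2, 16849), (.hz 3 3, 34773), (.hz 3 7, 15415), (.hz 2 35, 54843), (.hz 3 23, 81132), (.hz 2 43, 17854), (.rw 4, 1)])))

theorem run79 : run P3488 (leaf3 218 625) (cutRow P3488) [] t79 s79 = true := by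
  decide +kernel

theorem bad79 : Bad P3488 s79 :=
  run_sound (leaf3_sound P3488 rfl rfl) (cutRow_sound P3488) (
    fun _ h => absurd h List.not_mem_nil) t79 s79 run79

/-- the state above piece 117 of the tree -/
def s117 : St := ⟨[0, 0, 1, 3, 5, 7, 15, 31], [47, 39, 31, 23, 21, 15, 11, 7, 5, 3, 2, 1, 0], [0, 1, 2, 3, 4, 5],
  [],
  [⟨true, 2, 3, 3, 10⟩, ⟨true, 1, 5, 2, 5⟩, ⟨true, 2, 3, 23, 50⟩, ⟨true, 1, 5, 12, 25⟩, ⟨true, 4, 39, 4, 25⟩, ⟨true, 4, 39, 9, 50⟩, ⟨true, 4, 15, 4, 25⟩, ⟨true, 4, 15, 9, 50⟩, ⟨true, 1, 21, 29, 50⟩, ⟨true, 3, 39, 6, 25⟩, ⟨true, 3, 39, 3, 10⟩, ⟨true, 4, 39, 6, 25⟩, ⟨true, 3, 39, 17, 50⟩, ⟨true, 3, 39, 19, 50⟩, ⟨true, 3, 39, 2, 5⟩, ⟨true, 3, 23, 2, 5⟩, ⟨true, 4, 79, 6, 25⟩, ⟨true, 6, 47, 2, 25⟩, ⟨true, 5, 159, 3, 50⟩, ⟨true, 5, 159, 1, 10⟩, ⟨true, 6, 159, 2, 25⟩, ⟨true, 6,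 47, 1, 10⟩, ⟨true, 6, 47, 3, 25⟩, ⟨true, 6, 159, 7, 50⟩, ⟨true, 6, 47, 7, 50⟩, ⟨true, 5, 159, 1, 5⟩],
  [.spn 0 0 651200, .spn 1 1 302400, .spn 3 2 302400, .spn 7 3 140426, .spn 15 4 140426, .spn 31 5 62723]⟩

/-- piece 117 of the tree -/
noncomputable def t117 : WN.Tree :=
(.maj 6 7
(.haz 6 159 1 5
(.haz 5 159 6 25
(.haz 6 159 6 25
(.ask 55
(.mark 63 [6, 7, 8]
(.spn
(.haz 6 159 13 50
(.ask 79
(.mark 127 [7, 8, 9]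
(.spn
(.ask 159
(.mark 255 [8, 9, 10]
(.lp [[5, 8], [1, 3, 6, 9], [0, 2, 4, 7, 10]] [(.mj 3 4, 18), (.mj 4 5, 7), (.mj 5 6, 11), (.mj 6 7, 1), (.hz 29 159, 1426), (.hz 16 591, 1019), (.hz 29 1183, 1493)]))
(.haz 9 95 3 10
(.lp [[5, 8], [0, 2, 4, 7], [1, 3, 6, 9]] [(.mj 3 4, 160), (.mj 4 5, 54), (.mj 5 6, 111), (.mj 6 7, 11), (.hz 30 95, 37255), (.hz 16 591, 3302), (.hz 29 191, 25091), (.hz 30 223, 125454)])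
(.lp [[5, 8], [0, 2, 4, 7], [1, 3, 6, 9]] [(.mj 3 4, 98), (.mj 4 5, 56), (.mj 5 6, 49), (.mj 6 7, 12), (.hz 30 79, 11682), (.hz 30 95, 2839)])))
(.lp [[5, 8], [0, 2, 4, 7], [1, 3, 6, 9]] [(.mj 3 4, 14), (.mj 4 5, 6), (.mj 5 6, 9), (.mj 8 7, 1), (.hz 29 159, 1536), (.hz 16 591, 813), (.hz 29 191, 347)])
(.lp [[5, 8], [0, 2, 4, 7], [1, 3, 6, 9]] [(.mj 3 4, 18), (.mj 4 5, 9), (.mj 5 6, 13), (.mj 9 7, 2), (.mj 9 8, 1), (.hz 29 159, 2399), (.hz 16 591, 1067), (.hz 29 191, 838)])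
.fin))
(.ask 159
(.mark 159 [5, 6, 9]
(.lp [[5, 8], [1, 3, 6], [0, 2, 4, 7, 9]] [(.mj 3 4, 21), (.mj 4 5, 18), (.mj 5 6, 15), (.mj 6 7, 4), (.hz 29 159, 1369), (.hz 29 671, 1673)]))
(.lp [[5, 8], [1, 3, 6], [0, 2, 4, 7]] [(.mj 3 4, 24), (.mj 4 5, 22), (.mj 5 6, 17), (.mj 6 7, 5), (.hz 29 159, 1310)])))
(.lp [[5, 8], [1, 3, 6], [0, 2, 4, 7]] [(.mj 3 4, 93), (.mj 4 5, 45), (.mj 6 7, 34), (.hz 29 15, 5117), (.hz 29 31, 10881), (.hz 27 159, 11361), (.hz 28 159, 9149)]))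
(.con 7 6)
(.lp [[5, 8], [1, 3, 6], [0, 2, 4, 7]] [(.mj 3 4, 8), (.mj 4 5, 1), (.mj 8 6, 4), (.mj 8 7, 1), (.hz 16 79, 560), (.hz 28 159, 389)])
.fin))
(.haz 5 159 7 25
(.ask 63
(.mark 63 [6, 7, 8]
(.spn
(.ask 79
(.mark 127 [7, 8, 9]
(.spn
(.haz 7 319 9 50
(.haz 9 255 1 20
(.ask 159
(.mark 255 [8, 9, 10]
(.spn
(.haz 8 639 7 25
(.haz 7 319 13 50
(.ask 319
(.mark 511 [9, 10, 11]
(.lp [[5, 8, 11], [1, 3, 6, 9], [0, 2, 4, 7, 10]] [(.mj 3 4, 4), (.mj 4 5, 490), (.mj 5 6, 637), (.mj 6 7, 472), (.mj 7 8, 223), (.hz 33 319, 77888), (.hz 28 1183, 153040), (.hz 32 639, 432118), (.hz 33 2367, 144298), (.hz 31 1279, 255501), (.hz 31 2559, 68793)]))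
(.haz 8 639 19 50
(.lp [[5, 8], [1, 3, 6, 9], [0, 2, 4, 7, 10]] [(.mj 3 4, 5), (.mj 4 5, 126), (.mj 5 6, 202), (.mj 6 7, 157), (.mj 7 8, 87), (.hz 33 319, 9875), (.hz 28 1183, 39576), (.hz 34 639, 100903), (.hz 31 1279, 121482), (.hz 34 1791, 23574)])
(.lp [[5, 8], [1, 3, 6, 9], [0, 2, 4, 7, 10]] [(.mj 4 5, 7), (.mj 5 6, 6), (.mj 6 7, 4), (.hz 34 127, 1839), (.hz 29 1183, 268), (.hz 28 1183, 1609)])))
(.lp [[5, 8], [1, 3, 6, 9], [0, 2, 4, 7, 10]] [(.mj 3 4, 15), (.mj 4 5, 11), (.mj 5 6, 25), (.mj 7 8, 22), (.mj 8 9, 1), (.hz 33 31, 2801), (.hz 33 63, 6781), (.hz 24 319, 1211), (.hz 28 1183, 806), (.hz 32 639, 60366)]))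
(.lp [[5, 8], [1, 3, 6, 9], [0, 2, 4, 7, 10]] [(.mj 4 5, 47), (.mj 5 6, 42), (.mj 6 7, 31), (.hz 32 63, 14032), (.hz 28 159, 698), (.hz 32 127, 12869), (.hz 30 319, 6070), (.hz 28 1183, 9823), (.hz 31 1279, 8306)]))
(.ask 319
(.mark 447 [6, 10, 11]
(.lp [[5, 8, 11], [1, 3, 6, 9], [0, 2, 4, 7, 10]] [(.mj 4 5, 1297), (.mj 5 6, 1362), (.mj 6 7, 925), (.mj 9 8, 320), (.hz 24 319, 48332), (.hz 30 319, 708029), (.hz 28 1183, 426223), (.hz 28 447, 193881), (.hz 31 1279, 375233), (.hz 28 1471, 911855)]))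
(.lp [[5, 8], [1, 3, 6, 9], [0, 2, 4, 7, 10]] [(.mj 4 5, 23), (.mj 5 6, 24), (.mj 6 7, 15), (.mj 9 8, 5), (.mj 9 10, 1), (.hz 30 319, 4433), (.hz 28 1183, 9157), (.hz 30 383, 5510)]))
(.ask 319
(.mark 383 [7, 9, 11]
(.lp [[5, 8, 11], [1, 3, 6, 9], [0, 2, 4, 7, 10]] [(.mj 4 5, 371), (.mj 5 6, 390), (.mj 6 7, 264), (.mj 10 8, 92), (.hz 28 159, 21898), (.hz 30 319, 133057), (.hz 29 1183, 3597), (.hz 28 1183, 91671), (.hz 28 447, 238972), (.hz 30 2367, 79786), (.hz 31 511, 930222), (.hz 31 1279, 101665), (.hz 30 2431, 2255), (.hz 28 2495, 5538), (.hz 31 1535, 1), (.hz 31 2559, 251136)]))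
(.lp [[5, 8], [1, 3, 6, 9], [0, 2, 4, 7, 10]] [(.mj 4 5, 29), (.mj 5 6, 31), (.mj 6 7, 21), (.mj 10 8, 7), (.hz 28 159, 197), (.hz 30 319, 6909), (.hz 28 1183, 8915), (.hz 30 383, 7404)]))
.fin))
(.haz 5 607 7 20
(.ask 591
(.mark 591 [4, 5, 10]
(.ask 1615
(.mark 1631 [5, 7, 11]
(.lp [[5, 8], [0, 2, 4, 7], [1, 3, 6, 9, 10, 11]] [(.mj 3 4, 110), (.mj 4 5, 120), (.mj 5 6, 66), (.mj 6 7, 18), (.hz 28 191, 5730), (.hz 24 319, 2345), (.hz 30 319, 5425), (.hz 32 607, 30900), (.hz 16 1615, 6239), (.hz 32 1631, 40124), (.hz 16 3663, 16479), (.hz 32 3679, 58853)]))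
(.mark 607 [5, 7, 10]
(.lp [[5, 8], [0, 2, 4, 7], [1, 3, 6, 9, 10]] [(.mj 3 4, 79), (.mj 4 5, 70), (.mj 5 6, 42), (.mj 6 7, 10), (.hz 28 191, 3703), (.hz 24 319, 894), (.hz 30 319, 3071), (.hz 32 607, 12749), (.hz 32 1631, 19442)]))))
(.lp [[5, 8], [0, 2, 4, 7], [1, 3, 6, 9]] [(.mj 3 4, 242), (.mj 4 5, 294), (.mj 5 6, 155), (.mj 6 7, 45), (.hz 28 191, 13382), (.hz 24 319, 6691), (.hz 30 319, 13520), (.hz 32 607, 86276)]))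
(.lp [[5, 8], [0, 2, 4, 7], [1, 3, 6, 9]] [(.mj 3 4, 3), (.mj 4 5, 1), (.mj 5 6, 7), (.mj 6 7, 2), (.hz 32 31, 3483), (.hz 32 95, 764)])))
(.lp [[5, 8], [0, 2, 4, 7], [1, 3, 6, 9]] [(.mj 3 4, 38), (.mj 4 5, 5), (.mj 5 6, 5), (.hz 31 79, 2484), (.hz 31 111, 3064), (.hz 31 127, 2963), (.hz 30 319, 2009)]))
(.lp [[5, 8], [0, 2, 4, 7], [1, 3, 6, 9]] [(.mj 3 4, 7), (.mj 4 5, 16), (.mj 5 6, 17), (.mj 7 8, 8), (.hz 30 31, 1963), (.hz 30 63, 2882), (.hz 24 319, 3213)]))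
(.haz 5 607 9 25
(.haz 7 127 9 50
(.ask 591
(.mark 607 [5, 7, 10]
(.lp [[5, 8], [0, 2, 4, 7], [1, 3, 6, 9, 10]] [(.mj 0 1, 32922), (.mj 4 5, 23722), (.mj 8 7, 6225), (.rw 7, 1), (.hz 29 159, 3734886), (.hz 31 127, 2622166), (.hz 29 223, 4829995), (.hz 30 607, 10941617), (.hz 16 1615, 4519716), (.hz 31 639, 7987268), (.hz 30 1631, 14434855), (.hz 31 1663, 13511787)]))
(.lp [[5, 8], [0, 2, 4, 7], [1, 3, 6, 9]] [(.mj 4 5, 22549), (.mj 5 6, 1699), (.mj 8 7, 5917), (.rw 7, 1), (.hz 29 159, 3550114), (.hz 31 127, 4067643), (.hz 29 223, 2032588), (.hz 30 607, 11393916), (.hz 31 639, 7913795)]))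
(.lp [[5, 8], [0, 2, 4, 7], [1, 3, 6, 9]] [(.mj 0 1, 137113), (.mj 4 5, 21818), (.mj 6 8, 848), (.rw 7, 1), (.hz 31 31, 1375133), (.hz 31 95, 1744241), (.hz 16 591, 459540), (.hz 28 191, 2120985), (.hz 30 607, 10966726)]))
(.lp [[5, 8], [0, 2, 4, 7], [1, 3, 6, 9]] [(.mj 5 6, 4), (.mj 8 7, 2), (.hz 30 31, 1972), (.hz 30 95, 444), (.hz 29 159, 1644), (.hz 28 159, 1313), (.hz 28 191, 2314)]))
(.haz 8 191 6 25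
(.lp [[5, 8], [0, 2, 4, 7], [1, 3, 6, 9]] [(.mj 4 5, 14), (.mj 5 6, 15), (.mj 9 7, 6), (.mj 9 8, 7), (.hz 29 159, 2932), (.hz 28 159, 5129), (.hz 28 191, 3515), (.hz 30 191, 15709), (.hz 24 319, 2732), (.hz 28 447, 28432)])
(.lp [[5, 8], [0, 2, 4, 7], [1, 3, 6, 9]] [(.mj 4 5, 5), (.mj 5 6, 5), (.mj 9 7, 3), (.mj 9 8, 1), (.hz 30 63, 1390), (.hz 29 159, 159), (.hz 28 159, 2149), (.hz 28 191, 2179)]))
.fin))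
(.haz 7 127 6 25
(.ask 159
(.mark 159 [5, 6, 9]
(.ask 671
(.mark 703 [6, 8, 10]
(.lp [[5, 8], [1, 3, 6], [0, 2, 4, 7, 9, 10]] [(.mj 3 4, 145), (.mj 4 5, 79), (.mj 5 6, 61), (.mj 6 7, 8), (.hz 28 159, 9188), (.hz 28 671, 9836), (.hz 28 1695, 17448)]))
(.lp [[5, 8], [1, 3, 6], [0, 2, 4, 7, 9]] [(.mj 3 4, 255), (.mj 4 5, 140), (.mj 5 6, 109), (.mj 6 7, 17), (.hz 28 159, 16955), (.hz 30 127, 1714), (.hz 28 191, 484), (.hz 24 319, 1469), (.hz 28 671, 22309), (.hz 30 383, 12242)])))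
(.lp [[5, 8], [1, 3, 6], [0, 2, 4, 7]] [(.mj 3 4, 33), (.mj 4 5, 18), (.mj 5 6, 14), (.mj 6 7, 2), (.hz 28 159, 2103)]))
(.lp [[5, 8], [1, 3, 6], [0, 2, 4, 7]] [(.mj 3 4, 68), (.mj 4 5, 35), (.mj 5 6, 29), (.hz 30 31, 2715), (.hz 28 159, 6478)])))
(.con 7 6)
(.lp [[5, 8], [1, 3, 6], [0, 2, 4, 7]] [(.mj 3 4, 2), (.mj 8 6, 1), (.hz 16 79, 165), (.hz 24 63, 299), (.hz 29 159, 9), (.hz 28 159, 221)])
.fin))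
(.spn
(.ask 159
(.mark 159 [5, 6, 8]
(.lp [[5], [1, 3, 6], [0, 2, 4, 7, 8]] [(.mj 4 5, 229), (.mj 5 6, 195), (.mj 6 7, 93), (.hz 28 159, 38220), (.hz 28 415, 43732)]))
(.lp [[5], [1, 3, 6], [0, 2, 4, 7]] [(.mj 4 5, 5), (.mj 5 6, 4), (.mj 6 7, 2), (.hz 28 159, 603)]))
(.con 7 6)
.fin
.fin))
(.lp [[5], [1, 3, 6], [0, 2, 4, 7]] [(.mj 4 5, 21), (.mj 5 6, 80), (.mj 6 7, 47), (.hz 29 31, 35224), (.hz 27 159, 28008), (.hz 28 159, 18030)])))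
(.lp [[5], [1, 3, 6], [0, 2, 4, 7]] [(.mj 3 4, 45), (.mj 4 5, 18), (.mj 6 7, 7), (.hz 28 15, 4032), (.hz 28 31, 2641), (.hz 27 159, 4294)]))
(.lp [[5], [1, 3, 6], [0, 2, 4, 7]] [(.mj 5 6, 5), (.mj 6 7, 3), (.hz 27 15, 563), (.hz 27 23, 650), (.hz 27 31, 1399), (.hz 25 159, 9019), (.hz 26 159, 5626)]))
(.lp [[5], [1, 3, 6], [0, 2, 4, 7]] [(.mj 3 4, 8), (.mj 4 5, 2), (.mj 6 7, 1), (.hz 26 15, 5201), (.hz 25 159, 2700)]))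
(.lp [[5], [1, 3, 6], [0, 2, 4, 7]] [(.mj 3 4, 239), (.mj 5 7, 7), (.mj 7 6, 83), (.hz 16 79, 16678), (.hz 24 63, 11500), (.hz 23 159, 1248), (.hz 11 111, 26685)]))

theorem run117 : run P3488 (leaf3 218 625) (cutRow P3488) [] t117 s117 = true := by
  decide +kernel

theorem bad117 : Bad P3488 s117 :=
  run_sound (leaf3_sound P3488 rfl rfl) (cutRow_sound P3488) (
    fun _ h => absurd h List.not_mem_nil) t117 s117 run117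

/-- the state above piece 162 of the tree -/
def s162 : St := ⟨[0, 0, 1, 3, 5, 15, 15, 23, 63], [151, 63, 31, 21, 47, 15, 11, 7, 5, 3, 2, 1, 0], [0, 1, 2, 3, 4, 5, 7],
  [(4, 5)],
  [⟨true, 2, 3, 3, 10⟩, ⟨true, 1, 5, 2, 5⟩, ⟨true, 2, 3, 23, 50⟩, ⟨true, 1, 5, 12, 25⟩, ⟨true, 1, 21, 27, 50⟩, ⟨true, 4, 15, 9, 40⟩, ⟨true, 3, 23, 11, 20⟩, ⟨true, 1, 21, 29, 50⟩, ⟨true, 1, 21, 3, 5⟩, ⟨true, 1, 21, 31, 50⟩, ⟨true, 5, 159, 1, 5⟩, ⟨true, 4, 79, 7, 20⟩, ⟨true, 7, 127, 1, 10⟩, ⟨true, 4, 79, 3, 8⟩, ⟨true, 6, 191, 1, 10⟩, ⟨true, 7, 319, 4, 25⟩, ⟨true, 6, 319, 2, 25⟩],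
  [.spn 0 0 651200, .spn 1 1 302400, .spn 3 2 302400, .spn 7 3 302400, .spn 15 4 140426, .spn 31 5 140426, .spn 63 7 140426]⟩

/-- piece 162 of the tree -/
noncomputable def t162 : WN.Tree :=
(.haz 5 95 21 50
(.haz 4 79 11 25
(.haz 4 111 31 50
(.ask 159
(.mark 191 [6, 8, 9]
(.spn
(.haz 8 191 19 50
(.lp [[6], [1, 3, 5, 8], [0, 2, 4, 7, 9]] [(.mj 3 4, 3632), (.mj 5 7, 2274), (.mj 6 8, 3472), (.mj 7 6, 3824), (.rw 6, 1), (.hz 18 79, 194546), (.hz 19 111, 69033), (.hz 20 191, 512054), (.hz 20 255, 669275), (.hz 20 703, 1735777)])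
(.lp [[6], [1, 3, 5, 8], [0, 2, 4, 7, 9]] [(.mj 3 4, 10), (.mj 7 6, 3), (.hz 18 79, 465), (.hz 20 63, 427), (.hz 19 111, 165), (.hz 20 191, 329), (.hz 16 319, 1072), (.hz 14 703, 3151)]))
(.ask 319
(.mark 447 [6, 9, 10]
(.spn
(.ask 79
(.mark 511 [9, 10, 11]
(.lp [[6, 11], [0, 2, 4, 7, 9], [1, 3, 5, 8, 10]] [(.mj 3 4, 1407), (.mj 7 8, 496), (.mj 8 6, 551), (.rw 8, 1), (.hz 18 2127, 70435), (.hz 19 2159, 39443), (.hz 14 703, 2697493)]))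
(.lp [[6], [0, 2, 4, 7, 9], [1, 3, 5, 8, 10]] [(.mj 3 4, 7946), (.mj 7 8, 2595), (.mj 8 6, 2972), (.rw 8, 3), (.hz 19 111, 290410), (.hz 14 703, 21909797), (.hz 14 1471, 6954607)]))
(.lp [[6], [0, 2, 4, 7, 9], [1, 3, 5, 8, 10]] [(.mj 3 4, 27), (.mj 7 8, 5), (.mj 9 6, 10), (.hz 18 79, 1407), (.hz 19 111, 500), (.hz 14 191, 23007), (.hz 16 319, 7211), (.hz 14 447, 23529), (.hz 14 703, 11332), (.hz 16 1343, 3278), (.hz 14 1471, 4664)])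
(.lp [[6], [0, 2, 4, 7, 9], [1, 3, 5, 8, 10]] [(.mj 3 4, 13), (.mj 7 8, 3), (.mj 10 6, 5), (.hz 18 79, 680), (.hz 19 111, 241), (.hz 14 191, 11125), (.hz 16 319, 3005), (.hz 14 447, 18133), (.hz 14 703, 22144), (.hz 14 959, 5101), (.hz 14 1471, 5101)])
.fin))
(.ask 447
(.mark 447 [6, 9, 10]
(.spn
(.lp [[6], [0, 2, 4, 7, 9], [1, 3, 5, 8, 10]] [(.mj 3 4, 8252), (.mj 6 10, 777), (.mj 7 8, 486), (.mj 8 6, 2607), (.rw 8, 1), (.hz 18 79, 442054), (.hz 19 111, 156858), (.hz 14 703, 20822479)])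
(.lp [[6], [0, 2, 4, 7, 9], [1, 3, 5, 8, 10]] [(.mj 3 4, 3), (.mj 9 6, 1), (.hz 18 79, 172), (.hz 19 111, 48), (.hz 14 191, 2460), (.hz 14 447, 2171), (.hz 14 1471, 2439)])
(.lp [[6], [0, 2, 4, 7, 9], [1, 3, 5, 8, 10]] [(.mj 3 4, 8), (.mj 10 6, 2), (.hz 18 79, 433), (.hz 19 111, 154), (.hz 14 191, 7089), (.hz 14 447, 6197)])
.fin))
(.lp [[6], [1, 3, 5, 8], [0, 2, 4, 7, 9]] [(.mj 3 4, 12), (.mj 7 6, 2), (.mj 8 6, 1), (.hz 18 79, 727), (.hz 19 111, 203), (.hz 14 191, 2906)])))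
(.lp [[6], [1, 3, 5, 8], [0, 2, 4, 7, 9]] [(.mj 3 4, 13), (.mj 9 6, 5), (.mj 9 8, 2), (.hz 18 79, 783), (.hz 19 111, 219), (.hz 14 191, 11227), (.hz 16 319, 3693), (.hz 15 319, 973), (.hz 14 703, 5191)])
.fin))
(.ask 191
(.mark 191 [6, 8, 9]
(.spn
(.haz 8 191 3 10
(.ask 79
(.mark 127 [7, 8, 10]
(.lp [[6, 10], [1, 3, 5, 8], [0, 2, 4, 7, 9]] [(.mj 3 4, 62), (.mj 6 8, 27), (.mj 6 9, 3), (.mj 7 6, 35), (.hz 18 1103, 3058), (.hz 20 191, 23573), (.hz 19 1135, 1747), (.hz 20 255, 39459), (.hz 12 1151, 1712), (.hz 20 703, 54456)]))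
(.lp [[6], [1, 3, 5, 8], [0, 2, 4, 7, 9]] [(.mj 3 4, 311), (.mj 6 8, 107), (.mj 6 9, 3), (.mj 7 6, 139), (.hz 19 111, 11370), (.hz 20 191, 119034), (.hz 20 255, 122009), (.hz 20 703, 188107)]))
(.haz 9 447 7 25
(.ask 319
(.haz 9 447 19 50
(.ask 79
(.mark 511 [9, 10, 11]
(.lp [[6, 11], [0, 2, 4, 7, 9], [1, 3, 5, 8, 10]] [(.mj 3 4, 19), (.mj 6 9, 3), (.mj 7 6, 8), (.hz 20 63, 4802), (.hz 18 2127, 1189), (.hz 20 191, 591), (.hz 16 319, 1587), (.hz 19 2159, 378), (.hz 22 447, 787), (.hz 16 1343, 4461), (.hz 22 1471, 2153)]))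
(.mark 447 [6, 9, 10]
(.lp [[6], [0, 2, 4, 7, 9], [1, 3, 5, 8, 10]] [(.mj 3 4, 201), (.mj 6 9, 23), (.mj 7 6, 72), (.hz 20 63, 44240), (.hz 19 111, 6388), (.hz 20 191, 5239), (.hz 16 319, 10182), (.hz 22 447, 5800), (.hz 16 1343, 37289), (.hz 22 1471, 15871)])))
(.mark 319 [6, 7, 10]
(.lp [[6], [0, 2, 4, 7, 9], [1, 3, 5, 8, 10]] [(.mj 3 4, 3), (.mj 5 7, 7), (.mj 7 6, 6), (.hz 20 63, 4977), (.hz 20 191, 10203), (.hz 22 191, 1961), (.hz 16 319, 1839), (.hz 16 1343, 1999)])))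
(.lp [[6], [1, 3, 5, 8], [0, 2, 4, 7, 9]] [(.mj 3 4, 55), (.mj 6 9, 4), (.mj 7 6, 16), (.hz 18 79, 2949), (.hz 19 111, 1046), (.hz 20 191, 12611), (.hz 14 447, 4681), (.hz 21 447, 4108)]))
(.lp [[6], [1, 3, 5, 8], [0, 2, 4, 7, 9]] [(.mj 3 4, 2), (.mj 5 7, 4), (.mj 7 6, 4), (.hz 20 63, 3599), (.hz 20 191, 5731), (.hz 21 191, 2292), (.hz 16 319, 1330)])))
(.haz 8 703 2 5
(.ask 319
(.mark 447 [6, 9, 10]
(.spn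
(.haz 9 1471 1 5
(.maj 9 10
(.lp [[6], [0, 2, 4, 7, 9], [1, 3, 5, 8, 10]] [(.mj 3 4, 4106), (.mj 6 9, 4828), (.mj 7 8, 2562), (.mj 8 6, 7555), (.mj 9 10, 2606), (.hz 14 703, 21599902), (.hz 16 1343, 5306753), (.hz 14 1471, 30131765), (.hz 21 1471, 33192432)])
(.lp [[6], [0, 2, 4, 7, 9], [1, 3, 5, 8, 10]] [(.mj 3 4, 12), (.mj 6 10, 12), (.mj 7 8, 10), (.mj 8 6, 25), (.mj 10 9, 12), (.hz 14 703, 132516), (.hz 14 959, 133624), (.hz 14 1471, 18996), (.hz 21 1471, 101702)]))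
(.lp [[6], [0, 2, 4, 7, 9], [1, 3, 5, 8, 10]] [(.mj 3 4, 1), (.mj 6 10, 3), (.mj 7 8, 5), (.mj 8 6, 5), (.hz 21 191, 17687), (.hz 21 447, 24164), (.hz 14 703, 8598), (.hz 14 1471, 14809)]))
(.lp [[6], [0, 2, 4, 7, 9], [1, 3, 5, 8, 10]] [(.mj 3 4, 130), (.mj 7 8, 16), (.mj 9 6, 41), (.hz 18 79, 6951), (.hz 19 111, 2467), (.hz 14 191, 113713), (.hz 16 319, 26808), (.hz 14 447, 108258), (.hz 20 703, 7338), (.hz 16 1343, 14285), (.hz 15 1343, 7080), (.hz 14 1471, 140302)])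
(.lp [[6], [0, 2, 4, 7, 9], [1, 3, 5, 8, 10]] [(.mj 3 4, 13), (.mj 7 8, 3), (.mj 10 6, 5), (.hz 18 79, 713), (.hz 19 111, 253), (.hz 14 191, 11658), (.hz 16 319, 3808), (.hz 14 447, 14628), (.hz 14 703, 8556), (.hz 20 703, 3946), (.hz 14 959, 21547), (.hz 14 1471, 1819)])
.fin))
(.ask 447
(.mark 447 [6, 9, 10]
(.spn
(.haz 10 959 8 25
(.lp [[6], [0, 2, 4, 7, 9], [1, 3, 5, 8, 10]] [(.mj 3 4, 4389), (.mj 6 10, 437), (.mj 8 6, 1618), (.rw 8, 1), (.hz 18 79, 151129), (.hz 19 111, 53627), (.hz 14 703, 8616057), (.hz 21 959, 742965)])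
(.lp [[6], [0, 2, 4, 7, 9], [1, 3, 5, 8, 10]] [(.mj 3 4, 7), (.mj 6 9, 4), (.mj 8 6, 6), (.hz 21 447, 5464), (.hz 14 703, 28110)]))
(.lp [[6], [0, 2, 4, 7, 9], [1, 3, 5, 8, 10]] [(.mj 3 4, 3), (.mj 9 6, 1), (.hz 18 79, 156), (.hz 19 111, 55), (.hz 14 191, 2558), (.hz 14 447, 2237), (.hz 14 1471, 1249)])
(.lp [[6], [0, 2, 4, 7, 9], [1, 3, 5, 8, 10]] [(.mj 3 4, 8), (.mj 10 6, 2), (.hz 18 79, 433), (.hz 19 111, 154), (.hz 14 191, 7089), (.hz 14 447, 6197)])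
.fin))
(.lp [[6], [1, 3, 5, 8], [0, 2, 4, 7, 9]] [(.mj 3 4, 8), (.mj 8 6, 3), (.hz 18 79, 291), (.hz 19 111, 103), (.hz 14 191, 10208), (.hz 14 703, 7509)])))
(.lp [[6], [1, 3, 5, 8], [0, 2, 4, 7, 9]] [(.mj 3 4, 111), (.mj 8 6, 34), (.hz 18 79, 4766), (.hz 20 63, 55530), (.hz 19 111, 1691), (.hz 14 191, 100087), (.hz 20 191, 11485), (.hz 14 703, 57424)]))
(.lp [[6], [1, 3, 5, 8], [0, 2, 4, 7, 9]] [(.mj 3 4, 89095), (.mj 9 6, 13934), (.rw 7, 8), (.hz 18 79, 4772527), (.hz 19 111, 1693477), (.hz 14 191, 78071017), (.hz 16 319, 4876960), (.hz 15 319, 9106365)])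
.fin))
(.spn
(.lp [[6], [0, 2, 4, 7], [1, 3, 5, 8]] [(.mj 5 7, 1), (.mj 6 8, 8), (.mj 7 6, 13)])
(.ask 319
(.mark 319 [6, 7, 9]
(.ask 447
(.mark 447 [6, 9, 10]
(.spn
(.lp [[6], [0, 2, 4, 7, 10], [1, 3, 5, 8, 9]] [(.mj 6 10, 4048), (.mj 7 8, 15743), (.mj 8 6, 9424), (.rw 8, 8), (.hz 14 959, 48448819)])
(.lp [[6], [0, 2, 4, 7, 10], [1, 3, 5, 8, 9]] [(.mj 7 8, 3), (.mj 9 6, 2), (.hz 16 319, 4073), (.hz 14 447, 3708), (.hz 14 1471, 8419)])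
(.lp [[6], [0, 2, 4, 7, 10], [1, 3, 5, 8, 9]] [(.mj 3 4, 21), (.mj 7 8, 4), (.mj 10 6, 8), (.hz 18 79, 1124), (.hz 19 111, 399), (.hz 14 191, 18385), (.hz 14 447, 32474), (.hz 16 831, 7969)])
.fin))
(.lp [[6], [0, 2, 4, 7], [1, 3, 5, 8, 9]] [(.mj 7 8, 3), (.mj 8 6, 2), (.hz 16 319, 2704)])))
(.ask 447
(.maj 6 9
(.ask 447
(.mark 447 [6, 9, 10]
(.spn
(.haz 9 1471 13 50
(.ask 1471
(.mark 1471 [6, 9, 11]
(.lp [[6], [0, 2, 4, 7, 9], [1, 3, 5, 8, 10, 11]] [(.mj 3 4, 16), (.mj 6 9, 12), (.mj 7 8, 1), (.mj 8 6, 19), (.mj 9 10, 5), (.hz 14 1471, 48542), (.hz 20 1471, 4716), (.hz 20 3519, 6373)]))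
(.lp [[6], [0, 2, 4, 7, 9], [1, 3, 5, 8, 10]] [(.mj 6 9, 3), (.mj 8 6, 4), (.mj 9 10, 1)]))
(.lp [[6], [0, 2, 4, 7, 9], [1, 3, 5, 8, 10]] [(.mj 3 4, 2), (.mj 8 6, 2), (.mj 9 10, 1), (.hz 20 447, 694), (.hz 14 1471, 10794)]))
(.con 9 6)
(.con 10 9)
.fin))
(.lp [[6], [1, 3, 5, 8], [0, 2, 4, 7, 9]] [(.mj 6 9, 1), (.mj 8 6, 1)]))
(.lp [[6], [1, 3, 5, 8], [0, 2, 4, 7, 9]] [(.mj 3 4, 8), (.mj 9 6, 2), (.hz 18 79, 433), (.hz 19 111, 154), (.hz 14 191, 7089), (.hz 14 447, 6197)]))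
(.lp [[6], [0, 2, 4, 7], [1, 3, 5, 8]] [(.mj 8 6, 1)])))
.fin
.fin)))
(.lp [[6], [0, 2, 4, 7], [1, 3, 5, 8]] [(.mj 3 4, 5), (.mj 7 6, 3), (.hz 19 47, 801), (.hz 18 79, 1014), (.hz 18 111, 1177)]))
(.lp [[6], [0, 2, 4, 7], [1, 3, 5, 8]] [(.mj 0 1, 24), (.mj 7 6, 1), (.hz 18 15, 853), (.hz 13 79, 1684), (.hz 13 111, 1053)]))
(.lp [[6], [0, 2, 4, 7], [1, 3, 5, 8]] [(.mj 3 4, 158), (.mj 7 6, 58), (.hz 17 31, 6927), (.hz 13 79, 18551), (.hz 13 111, 18551), (.hz 14 191, 32196), (.hz 16 319, 31730)]))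

theorem run162 : run P3488 (leaf3 218 625) (cutRow P3488) [] t162 s162 = true := by
  decide +kernel

theorem bad162 : Bad P3488 s162 :=
  run_sound (leaf3_sound P3488 rfl rfl) (cutRow_sound P3488) (
    fun _ h => absurd h List.not_mem_nil) t162 s162 run162

end Pool.Agent.WN.Data
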