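import Pool.Agent.WN.CutRow
import Pool.Agent.WN.LeafRow
import Pool.Agent.Helper99.WN.ParDef
import Pool.Agent.WN.Data.D10

/-!
# The search tree, part 15
-/

set_option autoImplicit false

namespace Pool.Agent.WN.Data

open Pool.Agent.W3 Pool.Agent.WN Pool.Agent.Helper99.WN

/-- the state above piece 220 of the tree -/
def s220 : St := ⟨[0, 0, 1, 3, 5, 15, 23, 47, 47, 127, 191], [639, 255, 175, 127, 95, 87, 63, 31, 23, 21, 15, 11, 7, 5, 3, 2, 1, 0], [0, 1, 2, 3, 4, 5, 6, 7, 9],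
  [(5, 6), (4, 5)],
  [⟨true, 2, 3, 3, 10⟩, ⟨true, 1, 5, 2, 5⟩, ⟨true, 2, 3, 23, 50⟩, ⟨true, 1, 5, 12, 25⟩, ⟨true, 1, 21, 27, 50⟩, ⟨true, 4, 15, 9, 40⟩, ⟨true, 3, 23, 11, 20⟩, ⟨true, 4, 47, 7, 20⟩, ⟨true, 4, 47, 17, 40⟩, ⟨true, 4, 47, 9, 20⟩, ⟨true, 4, 47, 19, 40⟩, ⟨true, 5, 95, 1, 5⟩, ⟨true, 5, 95, 3, 10⟩, ⟨true, 5, 31, 3, 10⟩, ⟨true, 5, 95, 11, 25⟩, ⟨true, 6, 63, 3, 20⟩, ⟨true, 8, 255, 1, 50⟩, ⟨true, 6, 319, 13, 40⟩, ⟨true, 6, 191, 13, 40⟩, ⟨true, 7, 383, 3, 40⟩, ⟨true, 8, 191, 1, 20⟩, ⟨true, 6, 319, 17, 40⟩, ⟨true, 6, 319, 19, 40⟩, ⟨true, 7, 639, 7, 40⟩, ⟨true, 7, 319, 7, 40⟩],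
  [.spn 0 0 651200, .spn 1 1 302400, .spn 3 2 302400, .spn 7 3 302400, .spn 15 4 302400, .spn 31 5 302400, .spn 63 6 140426, .spn 127 7 140426, .spn 255 9 140426]⟩

/-- piece 220 of the tree -/
noncomputable def t220 : WN.Tree :=
(.ask 767
(.mark 767 [8, 10, 11]
(.spn
(.haz 11 1791 3 10
(.haz 7 383 17 50
(.haz 10 767 13 50
(.lp [[8], [1, 3, 5, 7, 10], [0, 2, 4, 6, 9, 11]] [(.mj 7 9, 30), (.mj 8 10, 121), (.mj 8 11, 50), (.mj 9 8, 145), (.hz 27 767, 13377), (.hz 27 1023, 208691), (.hz 27 2815, 196097)])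
(.haz 11 1791 11 25
(.haz 10 1023 7 50
(.ask 1215
(.mark 1791 [8, 11, 12]
(.lp [[8], [0, 2, 4, 6, 9, 11], [1, 3, 5, 7, 10, 12]] [(.mj 6 7, 3), (.mj 8 11, 25), (.mj 9 8, 35), (.hz 27 191, 12226), (.hz 20 5311, 83500), (.hz 29 1023, 29209), (.hz 28 1791, 33628), (.hz 20 5375, 229608), (.hz 28 5887, 117958)]))
(.ask 1279
(.mark 1791 [8, 11, 12]
(.lp [[8], [0, 2, 4, 6, 9, 11], [1, 3, 5, 7, 10, 12]] [(.mj 6 7, 2), (.mj 8 11, 43), (.mj 9 8, 56), (.hz 27 255, 28478), (.hz 29 1023, 63846), (.hz 28 1791, 100425), (.hz 20 5375, 331703), (.hz 28 5887, 107140)]))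
(.lp [[8], [1, 3, 5, 7, 10], [0, 2, 4, 6, 9, 11]] [(.mj 3 4, 15), (.mj 8 11, 36), (.mj 9 8, 44), (.hz 27 767, 29258), (.hz 29 1023, 49803), (.hz 28 1791, 125371)])))
(.lp [[8], [1, 3, 5, 7, 10], [0, 2, 4, 6, 9, 11]] [(.mj 8 11, 9), (.mj 9 8, 13), (.hz 29 191, 1783), (.hz 29 255, 4373), (.hz 20 1215, 14529), (.hz 29 767, 1356), (.hz 20 1279, 45233), (.hz 28 1791, 30472)]))
(.lp [[8], [1, 3, 5, 7, 10], [0, 2, 4, 6, 9, 11]] [(.mj 6 7, 3), (.mj 9 8, 8), (.hz 27 255, 1076), (.hz 20 1215, 15117), (.hz 27 767, 10565), (.hz 28 767, 21130), (.hz 20 1279, 39986)])))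
(.lp [[8], [1, 3, 5, 7, 10], [0, 2, 4, 6, 9, 11]] [(.mj 3 4, 20), (.mj 7 8, 26), (.mj 7 9, 8), (.mj 9 8, 10), (.hz 26 127, 33935), (.hz 18 1215, 16784)]))
(.lp [[8], [1, 3, 5, 7, 10], [0, 2, 4, 6, 9, 11]] [(.mj 8 10, 11), (.mj 9 8, 17), (.hz 20 1215, 22458), (.hz 25 767, 64959), (.hz 20 1279, 72409)]))
(.maj 8 11
(.cut 8 [(0, 1), (1, 1), (2, 1), (3, 1), (5, 1), (7, 1), (11, 1), (21, 1), (15, 1), (23, 1), (31, 1), (47, 1), (87, 1), (63, 1), (95, 1), (175, 1), (127, 1), (191, 1), (255, 1), (639, 1), (767, 1)]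
(.lp [[8], [1, 3, 5, 7, 10], [0, 2, 4, 6, 9, 11]] [(.mj 6 7, 96133), (.mj 10 8, 39707), (.mj 10 11, 5885), (.hz 20 2815, 401539507), (.rw 10, 97)]))
(.ask 2815
(.ask 1215
(.mark 3839 [8, 12, 13]
(.cut 8 [(0, 1), (1, 1), (2, 1), (3, 1), (5, 1), (7, 1), (11, 1), (21, 1), (15, 1), (23, 1), (31, 1), (47, 1), (87, 1), (63, 1), (95, 1), (175, 1), (127, 1), (191, 1), (255, 1), (639, 1), (1215, 1), (767, 1)]
(.lp [[8], [1, 3, 5, 7, 10, 13], [0, 2, 4, 6, 9, 11, 12]] [(.mj 6 7, 726), (.mj 10 11, 205), (.mj 11 8, 348), (.rw 10, 1)])))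
(.maj 8 12
(.mark 2815 [8, 10, 12]
(.cut 8 [(0, 1), (1, 1), (2, 1), (3, 1), (5, 1), (7, 1), (11, 1), (21, 1), (15, 1), (23, 1), (31, 1), (47, 1), (87, 1), (63, 1), (95, 1), (175, 1), (127, 1), (191, 1), (255, 1), (639, 1), (767, 1), (2815, 1)]
(.lp [[8], [1, 3, 5, 7, 10], [0, 2, 4, 6, 9, 11, 12]] [(.mj 6 7, 13252), (.mj 10 11, 691), (.mj 11 8, 5012), (.hz 20 6911, 39797972), (.rw 10, 16)])))
(.cut 8 [(0, 1), (1, 1), (2, 1), (3, 1), (5, 1), (7, 1), (11, 1), (21, 1), (15, 1), (23, 1), (31, 1), (47, 1), (87, 1), (63, 1), (95, 1), (175, 1), (127, 1), (191, 1), (255, 1), (639, 1), (767, 1)]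
(.lp [[8], [1, 3, 5, 7, 10], [0, 2, 4, 6, 9, 11, 12]] [(.mj 6 7, 16121), (.mj 10 11, 2463), (.mj 12 8, 6659), (.rw 10, 22)]))))
(.cut 8 [(0, 1), (1, 1), (2, 1), (3, 1), (5, 1), (7, 1), (11, 1), (21, 1), (15, 1), (23, 1), (31, 1), (47, 1), (87, 1), (63, 1), (95, 1), (175, 1), (127, 1), (191, 1), (255, 1), (639, 1), (767, 1)]
(.cut 8 [(0, 1), (1, 1), (2, 1), (3, 1), (5, 1), (7, 1), (11, 1), (21, 1), (15, 1), (23, 1), (31, 1), (47, 1), (87, 1), (63, 1), (95, 1), (175, 1), (127, 1), (191, 1), (255, 1), (639, 1), (1215, 1), (767, 1), (2815, 1)]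
(.lp [[8], [1, 3, 5, 7, 10], [0, 2, 4, 6, 9, 11]] [(.mj 6 7, 160731), (.mj 10 11, 8992), (.mj 11 8, 61005), (.rw 10, 134), (.rw 11, 62)])))))
(.ask 2815
(.mark 2815 [8, 10, 12]
(.spn
(.lp [[8], [1, 3, 5, 7, 10], [0, 2, 4, 6, 9, 11, 12]] [(.mj 11 8, 226), (.rw 10, 1)])
(.cut 8 [(0, 1), (1, 1), (2, 1), (3, 1), (5, 1), (7, 1), (11, 1), (21, 1), (15, 1), (23, 1), (31, 1), (47, 1), (87, 1), (63, 1), (95, 1), (175, 1), (127, 1), (191, 1), (255, 1), (639, 1), (1215, 2), (767, 1), (1279, 1), (2815, 1)]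
(.lp [[8], [1, 3, 5, 7, 10], [0, 2, 4, 6, 9, 11, 12]] [(.mj 3 4, 3385), (.mj 10 12, 2371), (.mj 11 10, 9035), (.rw 9, 2), (.rw 10, 12), (.hz 10 303, 82400), (.hz 10 431, 82400), (.hz 20 1215, 12756055), (.hz 20 1279, 71997183), (.hz 20 1791, 58296746), (.rw 11, 7)]))
(.maj 8 10
(.cut 8 [(0, 1), (1, 1), (2, 1), (3, 1), (5, 1), (7, 1), (11, 1), (21, 1), (15, 1), (23, 1), (31, 1), (47, 1), (87, 1), (63, 1), (95, 1), (175, 1), (127, 1), (191, 1), (255, 1), (639, 1), (767, 1)]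
(.cut 10 [(0, 1), (1, 1), (2, 1), (3, 1), (5, 1), (7, 1), (11, 1), (21, 1), (15, 1), (23, 1), (31, 1), (47, 1), (87, 1), (63, 1), (95, 1), (175, 1), (303, 1), (127, 1), (191, 1), (319, 1), (431, 1), (255, 1), (383, 1), (447, 1), (639, 1), (511, 1), (895, 1)]
(.lp [[8], [1, 3, 5, 7, 10], [0, 2, 4, 6, 9, 11, 12]] [(.mj 3 4, 14181), (.mj 6 7, 486), (.mj 12 8, 7304), (.hz 20 1215, 24873851), (.hz 20 1279, 12436926), (.hz 22 1471, 14374331), (.hz 20 1791, 79314217), (.rw 11, 21), (.rw 12, 1)])))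
(.haz 10 1023 4 25
(.cut 8 [(0, 1), (1, 1), (2, 1), (3, 1), (5, 1), (7, 1), (11, 1), (21, 1), (15, 1), (23, 1), (31, 1), (47, 1), (87, 1), (63, 1), (95, 1), (175, 1), (127, 1), (191, 1), (255, 1), (639, 1), (1215, 2), (767, 1), (1279, 2), (1791, 1)]
(.cut 10 [(0, 1), (1, 1), (2, 1), (3, 1), (5, 1), (7, 1), (11, 1), (21, 1), (15, 1), (23, 1), (31, 1), (47, 1), (87, 1), (63, 1), (95, 1), (175, 1), (127, 1), (191, 1), (255, 1), (639, 1), (767, 1), (2815, 1)]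
(.cut 8 [(0, 1), (1, 1), (2, 1), (3, 1), (5, 1), (7, 1), (11, 1), (21, 1), (15, 1), (23, 1), (31, 1), (47, 1), (87, 1), (63, 1), (95, 1), (175, 1), (127, 1), (191, 1), (255, 1), (639, 1), (1215, 2), (767, 1), (1279, 1), (1791, 2), (2815, 1), (3839, 1)]
(.cut 8 [(0, 1), (1, 1), (2, 1), (3, 1), (5, 1), (7, 1), (11, 1), (21, 1), (15, 1), (23, 1), (31, 1), (47, 1), (87, 1), (63, 1), (95, 1), (175, 1), (127, 1), (191, 1), (639, 1)]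
(.cut 8 [(0, 1), (1, 1), (2, 1), (3, 1), (5, 1), (7, 1), (11, 1), (21, 1), (15, 1), (23, 1), (31, 1), (47, 1), (87, 1), (63, 1), (95, 1), (175, 1), (127, 1), (191, 1), (255, 1), (639, 1), (1215, 1), (767, 1), (1279, 2), (1791, 2), (2815, 1), (3839, 1)]
(.cut 8 [(0, 1), (1, 1), (2, 1), (3, 1), (5, 1), (7, 1), (11, 1), (21, 1), (15, 1), (23, 1), (31, 1), (47, 1), (87, 1), (63, 1), (95, 1), (175, 1), (127, 1), (191, 1), (255, 1)]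
(.cut 8 [(0, 1), (1, 1), (2, 1), (3, 1), (5, 1), (7, 1), (11, 1), (21, 1), (15, 1), (23, 1), (31, 1), (47, 1), (87, 1), (63, 1), (95, 1), (175, 1), (127, 1), (191, 1), (255, 1), (639, 1), (1215, 1), (767, 1), (1279, 1)]
(.lp [[8], [1, 3, 5, 7, 10], [0, 2, 4, 6, 9, 11, 12]] [(.mj 3 4, 12269789), (.mj 12 8, 2509725), (.mj 12 10, 3392684), (.rw 10, 238), (.hz 10 303, 298680363), (.hz 10 431, 298680363), (.hz 22 1471, 3169563061), (.hz 25 1023, 40293832656), (.hz 25 3071, 50574230665), (.rw 11, 2084), (.rw 12, 6298), (.rw 13, 1462), (.rw 14, 2928), (.rw 15, 717), (.rw 16, 4652), (.rw 17, 314)]))))))))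
(.cut 8 [(0, 1), (1, 1), (2, 1), (3, 1), (5, 1), (7, 1), (11, 1), (21, 1), (15, 1), (23, 1), (31, 1), (47, 1), (87, 1), (63, 1), (95, 1), (175, 1), (127, 1), (191, 1), (255, 1), (639, 1), (767, 1), (2815, 1)]
(.lp [[8], [1, 3, 5, 7, 10], [0, 2, 4, 6, 9, 11, 12]] [(.mj 3 4, 88615), (.mj 6 7, 5950), (.mj 10 8, 15088), (.mj 12 8, 5220), (.hz 10 303, 2376999), (.hz 25 191, 5742600), (.hz 10 431, 419914), (.hz 25 255, 3120978), (.hz 25 447, 37862899), (.hz 25 511, 62054363), (.hz 25 1023, 46589568), (.rw 11, 53)]))))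
.fin))
(.lp [[8], [1, 3, 5, 7, 10], [0, 2, 4, 6, 9, 11]] [(.mj 11 10, 1), (.rw 9, 1)]))
.fin))
(.spn
(.lp [[8], [0, 2, 4, 6, 9], [1, 3, 5, 7, 10]] [(.mj 8 10, 2), (.mj 9 8, 3)])
(.lp [[8], [0, 2, 4, 6, 9], [1, 3, 5, 7, 10]] [(.mj 9 10, 7), (.mj 10 8, 4), (.hz 20 1215, 13212), (.hz 20 1279, 40224)])
.fin
.fin))

theorem run220 : run P3488 (leaf3 218 625) (cutRow P3488) [] t220 s220 = true := by
  decide +kernel

theorem bad220 : Bad P3488 s220 :=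
  run_sound (leaf3_sound P3488 rfl rfl) (cutRow_sound P3488) (
    fun _ h => absurd h List.not_mem_nil) t220 s220 run220

/-- the state above piece 196 of the tree -/
def s196 : St := ⟨[0, 0, 1, 3, 5, 15, 23, 31, 47, 159, 303], [671, 447, 191, 63, 31, 23, 21, 15, 11, 7, 5, 3, 2, 1, 0], [0, 1, 2, 3, 4, 5, 7, 8, 9],
  [(5, 6), (4, 5)],
  [⟨true, 2, 3, 3, 10⟩, ⟨true, 1, 5, 2, 5⟩, ⟨true, 2, 3, 23, 50⟩, ⟨true, 1, 5, 12, 25⟩, ⟨true, 1, 21, 27, 50⟩, ⟨true, 4, 15, 9, 40⟩, ⟨true, 3, 23, 11, 20⟩, ⟨true, 4, 47, 7, 20⟩, ⟨true, 4, 47, 17, 40⟩, ⟨true, 4, 47, 9, 20⟩, ⟨true, 4, 47, 19, 40⟩, ⟨true, 5, 95, 1, 5⟩, ⟨true, 5, 95, 3, 10⟩, ⟨true, 5, 31, 3, 10⟩, ⟨true, 3, 87, 29, 40⟩, ⟨true, 6, 447, 1, 40⟩, ⟨true, 8, 703, 13, 50⟩, ⟨true, 6, 1983, 2, 25⟩, ⟨true, 5, 95, 19, 50⟩, ⟨false, 6, 31, 7, 50⟩],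
  [.spn 0 0 651200, .spn 1 1 302400, .spn 3 2 302400, .spn 7 3 302400, .spn 15 4 302400, .spn 31 5 140426, .spn 63 7 140426, .spn 191 8 140426, .spn 447 9 140426]⟩

/-- piece 196 of the tree -/
noncomputable def t196 : WN.Tree :=
(.haz 6 319 3 40
(.haz 9 1471 7 20
(.haz 7 95 13 40
(.haz 8 127 11 40
(.ask 703
(.mark 959 [6, 10, 11]
(.spn
(.haz 10 3007 3 20
(.lp [[6], [1, 3, 5, 8, 10], [0, 2, 4, 7, 9, 11]] [(.mj 6 10, 4452), (.mj 7 8, 2555), (.mj 8 9, 9774), (.mj 9 6, 7780), (.rw 9, 8), (.hz 10 1327, 127119), (.hz 20 1343, 4754254), (.hz 20 1471, 10618700), (.hz 21 1471, 3594969), (.hz 20 3007, 16630157), (.hz 24 3007, 14747653)])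
(.lp [[6], [1, 3, 5, 8, 10], [0, 2, 4, 7, 9, 11]] [(.mj 8 9, 1165), (.mj 9 6, 671), (.rw 9, 1), (.hz 24 303, 111447), (.hz 24 319, 443166), (.hz 24 447, 1034028), (.hz 24 959, 558934)]))
(.haz 6 703 3 40
(.maj 6 11
(.ask 87
(.mark 767 [8, 11, 12]
(.cut 6 [(0, 1), (1, 1), (2, 1), (3, 1), (5, 1), (7, 1), (11, 1), (21, 1), (15, 1), (23, 1), (31, 1), (47, 1), (63, 1), (159, 1), (303, 1), (191, 1), (319, 1), (671, 1), (1327, 1), (447, 1), (703, 1), (1343, 1), (959, 1)]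
(.cut 6 [(0, 1), (1, 1), (2, 1), (3, 1), (5, 1), (7, 1), (11, 1), (21, 1), (15, 1), (23, 1), (31, 1), (47, 1), (63, 1), (159, 1), (303, 1), (191, 1), (319, 1), (671, 1), (1327, 1), (447, 1), (703, 1), (959, 1)]
(.lp [[6, 12], [1, 3, 5, 8, 10], [0, 2, 4, 7, 9, 11]] [(.mj 0 1, 1454646), (.mj 8 9, 2732), (.mj 10 6, 57513), (.hz 14 4183, 8684592), (.hz 18 4191, 25475848), (.hz 10 1327, 7530250), (.hz 22 4223, 46124069), (.hz 23 4223, 29872022), (.hz 24 703, 98463036), (.hz 18 4319, 1129561), (.hz 23 4351, 89079525), (.hz 20 1471, 6026396), (.hz 24 2751, 29198872), (.hz 23 2815, 154758118), (.hz 23 4863, 109698350), (.hz 20 3007, 50196887), (.rw 10, 8), (.rw 11, 58)]))))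
(.cut 6 [(0, 1), (1, 1), (2, 1), (3, 1), (5, 1), (7, 1), (11, 1), (21, 1), (15, 1), (23, 1), (31, 1), (47, 1), (63, 1), (159, 1), (303, 1), (191, 1), (319, 1), (671, 1), (1327, 1), (447, 1), (703, 1), (1343, 1), (959, 1)]
(.cut 6 [(0, 1), (1, 1), (2, 1), (3, 1), (5, 1), (7, 1), (11, 1), (21, 1), (15, 1), (23, 1), (31, 1), (47, 1), (63, 1), (159, 1), (303, 1), (191, 1), (319, 1), (671, 1), (1327, 1), (447, 1), (703, 1), (959, 1)]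
(.lp [[6], [1, 3, 5, 8, 10], [0, 2, 4, 7, 9, 11]] [(.mj 0 1, 138740), (.mj 8 9, 637), (.mj 10 6, 4945), (.hz 18 95, 814269), (.hz 22 95, 189792), (.hz 10 1327, 409863), (.hz 20 447, 670120), (.hz 24 703, 4472978), (.hz 20 959, 1322200), (.hz 24 2751, 5616157), (.hz 23 2815, 11431966), (.hz 20 3007, 6176794), (.rw 10, 1), (.rw 11, 4)]))))
(.lp [[6], [1, 3, 5, 8, 10], [0, 2, 4, 7, 9, 11]] [(.mj 0 1, 4125), (.mj 8 9, 72), (.mj 9 10, 16), (.mj 10 11, 28), (.mj 11 6, 253), (.hz 14 87, 24429), (.hz 18 95, 27750), (.hz 22 95, 8489), (.hz 20 319, 65823), (.hz 20 447, 164513), (.hz 24 703, 274782), (.hz 20 1343, 117782), (.hz 20 959, 247963), (.hz 20 1471, 299287), (.hz 24 2751, 58718), (.hz 17 1983, 884453), (.hz 20 3007, 160494)]))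
(.lp [[6], [1, 3, 5, 8, 10], [0, 2, 4, 7, 9, 11]] [(.mj 0 1, 51), (.mj 8 9, 1), (.hz 24 23, 368), (.hz 24 31, 217), (.hz 24 63, 170), (.hz 24 159, 235), (.hz 24 191, 207), (.hz 20 959, 1429), (.hz 17 1983, 865), (.hz 20 3007, 1377)]))
(.lp [[6], [1, 3, 5, 8, 10], [0, 2, 4, 7, 9, 11]] [(.mj 0 1, 219), (.mj 8 9, 26), (.mj 11 6, 24), (.mj 11 10, 10), (.hz 19 23, 1023), (.hz 14 87, 91), (.hz 18 95, 694), (.hz 20 319, 2133), (.hz 18 223, 503), (.hz 20 447, 2985), (.hz 20 1343, 27594), (.hz 22 1407, 34861), (.hz 20 959, 77681), (.hz 20 1471, 15107), (.hz 21 1471, 29552), (.hz 17 1983, 177002), (.hz 20 3007, 56783)])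
.fin))
(.ask 959
(.mark 959 [6, 10, 11]
(.spn
(.haz 10 3007 3 20
(.haz 10 3007 1 5
(.ask 3007
(.mark 3007 [6, 10, 12]
(.lp [[6], [1, 3, 5, 8, 10], [0, 2, 4, 7, 9, 11, 12]] [(.mj 0 1, 57), (.mj 6 10, 19), (.mj 6 11, 9), (.mj 8 9, 7), (.mj 9 6, 28), (.hz 10 1327, 72), (.hz 20 1343, 14746), (.hz 20 1471, 20391), (.hz 25 3007, 288644), (.hz 25 3071, 171972), (.hz 25 7103, 171972)]))
(.lp [[6], [1, 3, 5, 8, 10], [0, 2, 4, 7, 9, 11]] [(.mj 6 10, 3), (.mj 9 6, 5)]))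
(.lp [[6], [1, 3, 5, 8, 10], [0, 2, 4, 7, 9, 11]] [(.mj 0 1, 9), (.mj 6 11, 5), (.mj 8 9, 5), (.mj 9 6, 7), (.hz 25 303, 4333), (.hz 25 319, 16369), (.hz 25 447, 38698), (.hz 20 1343, 2644), (.hz 25 959, 59386), (.hz 20 1471, 7042), (.hz 24 3007, 21879)]))
(.lp [[6], [1, 3, 5, 8, 10], [0, 2, 4, 7, 9, 11]] [(.mj 6 11, 16), (.mj 8 9, 13), (.mj 9 6, 18), (.hz 24 303, 3028), (.hz 24 319, 10830), (.hz 24 447, 24596), (.hz 20 1343, 6854), (.hz 24 959, 36749), (.hz 20 1471, 18604)]))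
(.ask 87
(.mark 1023 [10, 11, 12]
(.lp [[6, 12], [1, 3, 5, 8, 10], [0, 2, 4, 7, 9, 11]] [(.mj 0 1, 15327), (.mj 10 6, 731), (.mj 10 11, 10), (.hz 14 4183, 89817), (.hz 18 4191, 255761), (.hz 22 4191, 1078), (.hz 22 4223, 399946), (.hz 23 4223, 328821), (.hz 20 447, 536252), (.hz 20 1343, 413473), (.hz 23 4351, 491508), (.hz 20 959, 2324628), (.hz 20 3007, 370920)]))
(.lp [[6], [1, 3, 5, 8, 10], [0, 2, 4, 7, 9, 11]] [(.mj 0 1, 657), (.mj 10 6, 26), (.mj 10 11, 1), (.hz 18 95, 3855), (.hz 22 95, 899), (.hz 20 319, 9448), (.hz 20 447, 22577), (.hz 20 1343, 3842), (.hz 20 959, 39685), (.hz 20 1471, 3811), (.hz 20 3007, 35856)]))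
(.maj 6 10
(.cut 6 [(0, 1), (1, 1), (2, 1), (3, 1), (5, 1), (7, 1), (11, 1), (21, 1), (15, 1), (23, 1), (31, 1), (47, 1), (63, 1), (159, 1), (303, 1), (191, 1), (319, 1), (671, 1), (447, 1), (703, 1), (959, 1)]
(.lp [[6], [1, 3, 5, 8, 10], [0, 2, 4, 7, 9, 11]] [(.mj 0 1, 18272), (.mj 8 9, 1282), (.mj 11 6, 1462), (.hz 14 87, 81379), (.hz 20 1343, 1174496), (.hz 20 1471, 3363584), (.rw 10, 4)]))
(.ask 87
(.mark 1023 [10, 11, 12]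
(.cut 6 [(0, 1), (1, 1), (2, 1), (3, 1), (5, 1), (7, 1), (11, 1), (21, 1), (15, 1), (23, 1), (31, 1), (47, 1), (63, 1), (159, 1), (303, 1), (191, 1), (319, 1), (1327, 1), (447, 1)]
(.lp [[6, 12], [1, 3, 5, 8, 10], [0, 2, 4, 7, 9, 11]] [(.mj 0 1, 989527), (.mj 8 9, 10615), (.mj 10 6, 37719), (.mj 11 6, 14137), (.hz 14 4183, 5678916), (.hz 18 4191, 15338841), (.hz 22 4191, 547361), (.hz 22 4223, 18658300), (.hz 23 4223, 22228152), (.hz 20 447, 72683047), (.hz 20 959, 125454528), (.rw 10, 19)])))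
(.cut 6 [(0, 1), (1, 1), (2, 1), (3, 1), (5, 1), (7, 1), (11, 1), (21, 1), (15, 1), (23, 1), (31, 1), (47, 1), (63, 1), (159, 1), (303, 1), (191, 1), (319, 1), (671, 1), (1327, 1), (447, 1), (703, 1), (1343, 1), (959, 1)]
(.cut 6 [(0, 1), (1, 1), (2, 1), (3, 1), (5, 1), (7, 1), (11, 1), (21, 1), (15, 1), (23, 1), (31, 1), (47, 1), (63, 1), (159, 1), (303, 1), (191, 1), (319, 1), (1327, 1), (447, 1)]
(.lp [[6], [1, 3, 5, 8, 10], [0, 2, 4, 7, 9, 11]] [(.mj 0 1, 785775), (.mj 8 9, 8555), (.mj 10 6, 27063), (.mj 11 6, 5328), (.hz 18 95, 4611733), (.hz 22 95, 1074915), (.hz 20 319, 10429913), (.hz 20 447, 11645962), (.hz 20 959, 64502097), (.hz 20 3007, 19637744), (.rw 10, 6), (.rw 11, 11)])))))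
.fin))
(.lp [[6], [0, 2, 4, 7, 9], [1, 3, 5, 8, 10]] [(.mj 7 8, 62), (.mj 8 9, 25), (.mj 9 6, 81), (.mj 9 10, 64), (.hz 20 1343, 148596), (.hz 20 1471, 368528)])))
(.lp [[6], [0, 2, 4, 7, 9], [1, 3, 5, 8, 10]] [(.mj 3 4, 43), (.mj 8 9, 3), (.hz 23 47, 1201), (.hz 23 63, 4017), (.hz 22 95, 786), (.hz 20 319, 834), (.hz 10 1327, 834), (.hz 20 959, 7209)]))
(.lp [[6], [0, 2, 4, 7, 9], [1, 3, 5, 8, 10]] [(.mj 0 1, 262), (.mj 9 6, 8), (.hz 19 23, 1215), (.hz 19 31, 1154), (.hz 22 31, 3579), (.hz 20 319, 1559), (.hz 20 447, 8617), (.hz 20 1343, 3245), (.hz 20 959, 7728), (.hz 20 1471, 8203)]))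
(.lp [[6], [0, 2, 4, 7, 9], [1, 3, 5, 8, 10]] [(.mj 7 8, 2034), (.mj 9 10, 397), (.rw 8, 4), (.hz 21 447, 11803298), (.hz 20 1343, 2873989), (.hz 20 1471, 991937)]))
(.cut 6 [(0, 1), (1, 1), (2, 1), (3, 1), (5, 1), (7, 1), (11, 1), (21, 1), (15, 1), (23, 1), (31, 1), (47, 1), (63, 1), (159, 1), (303, 1), (191, 1), (319, 1), (1327, 1), (447, 1)]
(.lp [[6], [0, 2, 4, 7, 9], [1, 3, 5, 8, 10]] [(.mj 0 1, 40173), (.mj 5 7, 502), (.mj 8 9, 798), (.hz 20 23, 292356), (.hz 20 31, 172559), (.hz 20 63, 213656), (.hz 20 319, 774414), (.hz 10 1327, 23912), (.rw 9, 1)])))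

theorem run196 : run P3488 (leaf3 218 625) (cutRow P3488) [] t196 s196 = true := by
  decide +kernel

theorem bad196 : Bad P3488 s196 :=
  run_sound (leaf3_sound P3488 rfl rfl) (cutRow_sound P3488) (
    fun _ h => absurd h List.not_mem_nil) t196 s196 run196

/-- the state above piece 242 of the tree -/
def s242 : St := ⟨[0, 0, 1, 3, 5, 15, 31, 31, 63, 95, 319, 607], [383, 127, 63, 47, 31, 23, 21, 15, 11, 7, 5, 3, 2, 1, 0], [0, 1, 2, 3, 4, 5, 6, 8, 9],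
  [(4, 5)],
  [⟨true, 2, 3, 3, 10⟩, ⟨true, 1, 5, 2, 5⟩, ⟨true, 2, 3, 23, 50⟩, ⟨true, 1, 5, 12, 25⟩, ⟨true, 1, 21, 27, 50⟩, ⟨true, 4, 15, 9, 40⟩, ⟨true, 3, 23, 11, 20⟩, ⟨true, 4, 47, 7, 20⟩, ⟨true, 4, 47, 17, 40⟩, ⟨true, 4, 47, 9, 20⟩, ⟨true, 4, 47, 19, 40⟩, ⟨true, 5, 31, 3, 10⟩, ⟨true, 4, 47, 3, 5⟩, ⟨true, 4, 47, 5, 8⟩, ⟨true, 6, 159, 1, 10⟩, ⟨true, 6, 319, 1, 8⟩, ⟨true, 6, 319, 1, 5⟩, ⟨true, 7, 95, 1, 20⟩, ⟨true, 9, 1535, 1, 10⟩, ⟨true, 9, 1535, 3, 10⟩, ⟨true, 6, 159, 1, 4⟩],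
  [.spn 0 0 651200, .spn 1 1 302400, .spn 3 2 302400, .spn 7 3 302400, .spn 15 4 302400, .spn 31 5 140426, .spn 63 6 140426, .spn 127 8 140426, .spn 383 9 140426]⟩

/-- piece 242 of the tree -/
noncomputable def t242 : WN.Tree :=
(.mark 895 [7, 10, 11]
(.spn
(.haz 11 1023 13 40
(.lp [[7], [1, 3, 5, 8, 10], [0, 2, 4, 6, 9, 11]] [(.mj 7 10, 3439), (.mj 8 9, 9334), (.mj 9 7, 3547), (.rw 8, 5), (.rw 9, 11), (.hz 16 1343, 942590), (.hz 17 1407, 7204084), (.hz 21 1023, 23627290)])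
(.lp [[7], [1, 3, 5, 8, 10], [0, 2, 4, 6, 9, 11]] [(.mj 7 10, 425), (.mj 8 9, 392), (.mj 9 7, 438), (.hz 21 607, 1924), (.hz 16 1343, 116464), (.hz 17 2655, 206481), (.hz 21 895, 458097), (.hz 17 1407, 890118), (.hz 17 2687, 943831)]))
(.haz 6 159 13 40
(.haz 11 2047 3 40
(.maj 7 11
(.ask 1343
(.mark 1919 [7, 11, 12]
(.cut 7 [(0, 1), (1, 1), (2, 1), (3, 1), (5, 1), (7, 1), (11, 1), (21, 1), (15, 1), (23, 1), (31, 1), (47, 1), (63, 1), (95, 1), (127, 1), (319, 1), (607, 1), (383, 1), (639, 1), (1343, 1), (895, 1), (1407, 1)]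
(.lp [[7], [0, 2, 4, 6, 9, 11], [1, 3, 5, 8, 10, 12]] [(.mj 7 11, 1529), (.mj 8 9, 6216), (.mj 9 10, 9169), (.mj 10 7, 7083), (.hz 17 2655, 7813538), (.hz 17 2687, 36006248), (.hz 17 2943, 54456903), (.hz 17 5503, 29881465), (.rw 10, 13)])))
(.haz 7 3967 1 10
(.ask 1407
(.mark 1919 [7, 11, 12]
(.spn
(.lp [[7], [0, 2, 4, 6, 9, 11], [1, 3, 5, 8, 10, 12]] [(.mj 8 9, 2570), (.mj 9 10, 2391), (.mj 10 7, 2048), (.rw 10, 4), (.hz 17 2655, 3043041), (.hz 17 2687, 14022904), (.hz 17 2943, 6488122), (.hz 17 5503, 15070479), (.hz 23 3967, 25997093)])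
(.con 11 7)
(.cut 7 [(0, 1), (1, 1), (2, 1), (3, 1), (5, 1), (7, 1), (11, 1), (21, 1), (15, 1), (23, 1), (31, 1), (47, 1), (63, 1), (95, 1), (127, 1), (319, 1), (607, 1), (383, 1), (639, 1), (1343, 1), (895, 1), (1407, 1), (1919, 1)]
(.lp [[7], [0, 2, 4, 6, 9, 11], [1, 3, 5, 8, 10, 12]] [(.mj 7 11, 592), (.mj 9 10, 1983), (.mj 12 7, 592), (.rw 9, 1), (.rw 11, 4)]))
.fin))
(.ask 1919
(.mark 1919 [7, 11, 12]
(.spn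
(.haz 12 3967 7 20
(.haz 12 3967 1 2
(.lp [[7], [0, 2, 4, 6, 9, 11], [1, 3, 5, 8, 10, 12]] [(.mj 7 11, 121), (.mj 7 12, 4344), (.mj 8 9, 8362), (.mj 9 10, 2043), (.mj 10 7, 7442), (.rw 10, 4), (.hz 17 2655, 9937798), (.hz 17 2687, 45795234), (.hz 17 2943, 66083065), (.hz 25 3967, 316727699)])
(.lp [[7], [0, 2, 4, 6, 9, 11], [1, 3, 5, 8, 10, 12]] [(.mj 7 11, 3), (.mj 10 7, 4), (.hz 25 1919, 183999), (.hz 23 3967, 85790), (.hz 24 3967, 9946)]))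
(.lp [[7], [0, 2, 4, 6, 9, 11], [1, 3, 5, 8, 10, 12]] [(.mj 7 11, 4), (.mj 9 10, 3), (.mj 10 7, 4), (.hz 24 1919, 16448)]))
(.con 11 7)
(.cut 7 [(0, 1), (1, 1), (2, 1), (3, 1), (5, 1), (7, 1), (11, 1), (21, 1), (15, 1), (23, 1), (31, 1), (47, 1), (63, 1), (95, 1), (127, 1), (319, 1), (607, 1), (383, 1), (639, 1), (1343, 1), (895, 1), (1407, 1), (1919, 1)]
(.lp [[7], [0, 2, 4, 6, 9, 11], [1, 3, 5, 8, 10, 12]] [(.mj 12 7, 1136), (.rw 11, 4)]))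
.fin))
(.lp [[7], [1, 3, 5, 8, 10], [0, 2, 4, 6, 9, 11]] [(.mj 7 11, 1), (.mj 10 7, 1)])))
(.cut 7 [(0, 1), (1, 1), (2, 1), (3, 1), (5, 1), (7, 1), (11, 1), (21, 1), (15, 1), (23, 1), (31, 1), (47, 1), (63, 1), (95, 1), (127, 1), (319, 1), (607, 1), (383, 1), (639, 1), (895, 1)]
(.lp [[7], [1, 3, 5, 8, 10], [0, 2, 4, 6, 9, 11]] [(.mj 9 10, 551), (.hz 23 1343, 1339803), (.hz 23 1407, 1617006), (.hz 23 1919, 14592073), (.rw 10, 2)]))))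
(.ask 1343
(.mark 1919 [7, 11, 12]
(.cut 7 [(0, 1), (1, 1), (2, 1), (3, 1), (5, 1), (7, 1), (11, 1), (21, 1), (15, 1), (23, 1), (31, 1), (47, 1), (63, 1), (95, 1), (127, 1), (319, 1), (607, 1), (383, 1), (639, 1)]
(.cut 7 [(0, 1), (1, 1), (2, 1), (3, 1), (5, 1), (7, 1), (11, 1), (21, 1), (15, 1), (23, 1), (31, 1), (47, 1), (63, 1), (95, 1), (127, 1), (319, 1), (607, 1), (383, 1), (639, 1), (1343, 1), (2655, 1), (895, 1), (1407, 1), (2687, 1), (2943, 1)]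
(.cut 7 [(0, 1), (1, 1), (2, 1), (3, 1), (5, 1), (7, 1), (11, 1), (21, 1), (15, 1), (23, 1), (31, 1), (47, 1), (63, 1), (95, 1), (127, 1), (319, 1), (607, 1), (383, 1), (639, 1), (1343, 1), (895, 1), (1407, 1)]
(.lp [[7], [0, 2, 4, 6, 9, 11], [1, 3, 5, 8, 10, 12]] [(.mj 8 9, 40604), (.mj 9 10, 28407), (.mj 10 7, 2088), (.mj 11 7, 22748), (.rw 10, 57), (.rw 11, 1), (.rw 12, 21)])))))
(.ask 1407
(.mark 1919 [7, 11, 12]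
(.cut 7 [(0, 1), (1, 1), (2, 1), (3, 1), (5, 1), (7, 1), (11, 1), (21, 1), (15, 1), (23, 1), (31, 1), (47, 1), (63, 1), (95, 1), (127, 1), (319, 1), (607, 1), (383, 1), (639, 1), (1343, 1), (2655, 1), (895, 1)]
(.cut 7 [(0, 1), (1, 1), (2, 1), (3, 1), (5, 1), (7, 1), (11, 1), (21, 1), (15, 1), (23, 1), (31, 1), (47, 1), (63, 1), (95, 1), (127, 1), (319, 1), (607, 1), (383, 1), (639, 1), (2655, 2), (895, 1), (2687, 1)]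
(.cut 7 [(0, 1), (1, 1), (2, 1), (3, 1), (5, 1), (7, 1), (11, 1), (21, 1), (15, 1), (23, 1), (31, 1), (47, 1), (63, 1), (95, 1), (127, 1), (319, 1), (383, 1), (1343, 1), (1407, 1)]
(.lp [[7], [0, 2, 4, 6, 9, 11], [1, 3, 5, 8, 10, 12]] [(.mj 8 9, 8207), (.mj 9 10, 5101), (.mj 10 7, 107), (.mj 11 7, 4771), (.hz 17 5503, 6573221), (.hz 17 6015, 25412447), (.rw 10, 2), (.rw 11, 2), (.rw 12, 11)])))))
(.ask 1919
(.mark 1919 [7, 11, 12]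
(.cut 7 [(0, 1), (1, 1), (2, 1), (3, 1), (5, 1), (7, 1), (11, 1), (21, 1), (15, 1), (23, 1), (31, 1), (47, 1), (95, 1)]
(.cut 11 [(0, 1), (1, 1), (2, 1), (3, 1), (5, 1), (7, 1), (11, 1), (21, 1), (15, 1), (23, 1), (31, 1), (47, 1), (63, 1), (95, 1), (127, 1), (319, 1), (607, 1), (383, 1), (639, 1), (1343, 1), (895, 1), (1407, 1)]
(.cut 7 [(0, 1), (1, 1), (2, 1), (3, 1), (5, 1), (7, 1), (11, 1), (21, 1), (15, 1), (23, 1), (31, 1), (47, 1), (63, 1), (95, 1), (127, 1), (319, 1), (607, 1), (383, 1), (639, 1), (895, 1)]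
(.cut 7 [(0, 1), (1, 1), (2, 1), (3, 1), (5, 1), (7, 1), (11, 1), (21, 1), (15, 1), (23, 1), (31, 1), (47, 1), (63, 1), (95, 1), (127, 1), (319, 1), (607, 1), (383, 1), (639, 1), (1343, 1), (2655, 1), (895, 1), (1407, 1), (2687, 1), (2943, 1)]
(.cut 7 [(0, 1), (1, 1), (2, 1), (3, 1), (5, 1), (7, 1), (11, 1), (21, 1), (15, 1), (23, 1), (31, 1), (47, 1), (63, 1), (95, 1), (127, 1), (319, 1), (383, 1), (1343, 1), (1407, 1)]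
(.lp [[7], [0, 2, 4, 6, 9, 11], [1, 3, 5, 8, 10, 12]] [(.mj 5 6, 204847), (.mj 8 9, 41180), (.mj 11 7, 282683), (.hz 17 6015, 1180612664), (.rw 10, 200), (.rw 11, 13), (.rw 12, 99), (.rw 13, 25), (.rw 14, 626)])))))))
(.lp [[7], [1, 3, 5, 8, 10], [0, 2, 4, 6, 9, 11]] [(.mj 8 9, 3), (.mj 11 7, 2), (.hz 17 607, 2702), (.hz 17 639, 9749), (.hz 17 2655, 513), (.hz 17 895, 3858), (.hz 17 2687, 2515), (.hz 17 1919, 4061), (.hz 17 2943, 2648)])))))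
(.cut 7 [(0, 1), (1, 1), (2, 1), (3, 1), (5, 1), (7, 1), (11, 1), (21, 1), (15, 1), (23, 1), (31, 1), (47, 1), (63, 1), (95, 1), (127, 1), (319, 1), (607, 1), (383, 1), (639, 1), (895, 1)]
(.lp [[7], [1, 3, 5, 8, 10], [0, 2, 4, 6, 9, 11]] [(.mj 9 10, 3661), (.mj 10 7, 1614), (.hz 22 607, 219582), (.hz 22 639, 798540), (.hz 22 735, 726813), (.hz 22 767, 2357591), (.hz 22 895, 1766013), (.hz 22 1023, 4542227), (.rw 10, 4)])))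
(.cut 7 [(0, 1), (1, 1), (2, 1), (3, 1), (5, 1), (7, 1), (11, 1), (21, 1), (15, 1), (23, 1), (31, 1), (47, 1), (63, 1), (95, 1), (127, 1), (319, 1), (607, 1), (383, 1), (639, 1), (2655, 1), (895, 1)]
(.lp [[7], [1, 3, 5, 8, 10], [0, 2, 4, 6, 9, 11]] [(.mj 3 4, 514), (.mj 6 8, 168), (.mj 9 10, 1424), (.mj 10 7, 1321), (.hz 21 31, 605757), (.hz 20 159, 4846058), (.hz 20 191, 3876846), (.hz 17 607, 1020223), (.hz 16 1343, 1506670), (.hz 11 2655, 2215580), (.hz 17 2655, 990199), (.rw 10, 2)])))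
(.cut 7 [(0, 1), (1, 1), (2, 1), (3, 1), (5, 1), (7, 1), (11, 1), (21, 1), (15, 1), (23, 1), (31, 1), (47, 1), (63, 1), (95, 1), (127, 1), (319, 1), (607, 1), (383, 1), (639, 1), (1343, 2), (2655, 1), (895, 1), (1407, 2), (2687, 1), (1919, 1)]
(.cut 7 [(0, 1), (1, 1), (2, 1), (3, 1), (5, 1), (7, 1), (11, 1), (21, 1), (15, 1), (23, 1), (31, 1), (47, 1), (63, 1), (95, 1), (127, 1), (319, 1), (383, 1)]
(.lp [[7], [1, 3, 5, 8, 10], [0, 2, 4, 6, 9, 11]] [(.mj 8 9, 7170), (.mj 11 7, 4758), (.mj 11 10, 4758), (.hz 20 1471, 5991836), (.rw 10, 1), (.rw 11, 10)])))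
.fin))

theorem run242 : run P3488 (leaf3 218 625) (cutRow P3488) [] t242 s242 = true := by
  decide +kernel

theorem bad242 : Bad P3488 s242 :=
  run_sound (leaf3_sound P3488 rfl rfl) (cutRow_sound P3488) (
    fun _ h => absurd h List.not_mem_nil) t242 s242 run242

/-- the state above piece 171 of the tree -/
def s171 : St := ⟨[0, 0, 1, 3, 5, 15, 21, 31, 47, 159, 447], [703, 671, 447, 319, 303, 191, 63, 31, 23, 21, 15, 11, 7, 5, 3, 2, 1, 0], [0, 1, 2, 3, 4, 5, 7, 8, 9],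
  [(5, 6), (4, 5)],
  [⟨true, 2, 3, 3, 10⟩, ⟨true, 1, 5, 2, 5⟩, ⟨true, 2, 3, 23, 50⟩, ⟨true, 1, 5, 12, 25⟩, ⟨true, 1, 21, 27, 50⟩, ⟨true, 4, 15, 9, 40⟩, ⟨true, 3, 23, 11, 20⟩, ⟨true, 4, 47, 7, 20⟩, ⟨true, 4, 47, 17, 40⟩, ⟨true, 4, 47, 9, 20⟩, ⟨true, 4, 47, 19, 40⟩, ⟨true, 3, 87, 27, 40⟩, ⟨true, 5, 95, 1, 4⟩, ⟨true, 5, 159, 1, 4⟩, ⟨true, 7, 127, 7, 40⟩, ⟨true, 7, 95, 1, 5⟩, ⟨true, 8, 127, 7, 40⟩, ⟨true, 4, 303, 1, 2⟩, ⟨true, 6, 447, 1, 20⟩, ⟨true, 8, 127, 7, 25⟩, ⟨true, 8, 767, 3, 8⟩, ⟨true, 7, 383, 7, 10⟩],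
  [.spn 0 0 651200, .spn 1 1 302400, .spn 3 2 302400, .spn 7 3 302400, .spn 15 4 302400, .spn 31 5 140426, .spn 63 7 140426, .spn 191 8 140426, .spn 447 9 140426]⟩

/-- piece 171 of the tree -/
noncomputable def t171 : WN.Tree :=
(.haz 9 1471 1 5
(.haz 9 1471 11 40
(.haz 9 1471 13 40
(.ask 959
(.mark 959 [6, 10, 11]
(.spn
(.haz 10 3007 1 8
(.ask 3007
(.haz 11 1983 1 2
(.mark 3007 [6, 10, 12]
(.lp [[6], [1, 3, 5, 8, 10], [0, 2, 4, 7, 9, 11, 12]] [(.mj 3 4, 335), (.mj 6 10, 29), (.mj 6 11, 31), (.mj 9 6, 15), (.hz 21 383, 30957), (.hz 18 1471, 18823), (.hz 24 1471, 35827), (.hz 26 1983, 1690020), (.hz 25 3071, 18406), (.hz 25 7103, 165650)]))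
(.mark 3007 [6, 10, 12]
(.lp [[6], [1, 3, 5, 8, 10], [0, 2, 4, 7, 9, 11, 12]] [(.mj 3 4, 269), (.mj 6 10, 27), (.mj 9 6, 1), (.hz 21 383, 24954), (.hz 26 959, 479452), (.hz 18 1471, 915), (.hz 25 3007, 136986), (.hz 25 7103, 156556)])))
(.lp [[6], [1, 3, 5, 8, 10], [0, 2, 4, 7, 9, 11]] [(.mj 6 10, 5), (.mj 9 6, 8)]))
(.lp [[6], [1, 3, 5, 8, 10], [0, 2, 4, 7, 9, 11]] [(.mj 3 4, 4730), (.mj 8 9, 701), (.rw 9, 1), (.hz 21 383, 376409), (.hz 25 447, 1684269)]))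
(.haz 10 3071 7 20
(.ask 1471
(.mark 1983 [6, 11, 12]
(.spn
(.haz 12 4031 1 5
(.lp [[6], [0, 2, 4, 7, 9, 11], [1, 3, 5, 8, 10, 12]] [(.mj 6 11, 3585), (.mj 9 10, 15020), (.mj 10 6, 29496), (.rw 10, 68), (.hz 18 3007, 296685607), (.hz 18 5567, 198942476), (.hz 26 4031, 70804012)])
(.lp [[6], [0, 2, 4, 7, 9, 11], [1, 3, 5, 8, 10, 12]] [(.mj 6 11, 3), (.mj 9 10, 2), (.mj 10 6, 3), (.hz 26 1471, 6207), (.hz 26 1983, 38301)]))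
(.cut 6 [(0, 1), (1, 1), (2, 1), (3, 1), (5, 1), (7, 1), (11, 1), (21, 1), (15, 1), (23, 1), (31, 1), (47, 1), (63, 1), (159, 1), (303, 1), (191, 1), (319, 1), (671, 1), (447, 1), (703, 1), (959, 1), (1471, 1), (1983, 1), (3007, 1)]
(.cut 6 [(0, 1), (1, 1), (2, 1), (3, 1), (5, 1), (7, 1), (11, 1), (21, 1), (15, 1), (23, 1), (31, 1), (47, 1), (63, 1), (159, 1), (303, 1), (191, 1), (319, 1), (447, 1)]
(.cut 6 [(0, 1), (1, 1), (2, 1), (3, 1), (5, 1), (7, 1), (11, 1), (21, 1), (15, 1), (23, 1), (31, 1), (47, 1), (63, 1), (159, 1), (303, 1), (191, 1), (319, 1), (671, 1), (447, 1), (703, 1), (959, 1), (1471, 1), (1983, 1)]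
(.lp [[6], [0, 2, 4, 7, 9, 11], [1, 3, 5, 8, 10, 12]] [(.mj 9 10, 848), (.mj 10 11, 2875), (.mj 11 6, 19430), (.hz 18 5567, 3259238), (.hz 24 5567, 676359), (.hz 18 6079, 99561998), (.rw 11, 1), (.rw 12, 40), (.rw 13, 27)]))))
(.cut 6 [(0, 1), (1, 1), (2, 1), (3, 1), (5, 1), (7, 1), (11, 1), (21, 1), (15, 1), (23, 1), (31, 1), (47, 1), (63, 1), (159, 1), (303, 1), (191, 1), (319, 1), (447, 1)]
(.cut 6 [(0, 1), (1, 1), (2, 1), (3, 1), (5, 1), (7, 1), (11, 1), (21, 1), (15, 1), (23, 1), (31, 1), (47, 1), (63, 1), (159, 1), (303, 1), (191, 1), (319, 1), (671, 1), (447, 1), (703, 1), (959, 1), (1471, 1), (5567, 1)]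
(.cut 6 [(0, 1), (1, 1), (2, 1), (3, 1), (5, 1), (7, 1), (11, 1), (21, 1), (15, 1), (23, 1), (31, 1), (47, 1), (63, 1), (159, 1), (303, 1), (191, 1), (671, 1), (703, 1)]
(.lp [[6], [0, 2, 4, 7, 9, 11], [1, 3, 5, 8, 10, 12]] [(.mj 9 10, 22568), (.mj 12 6, 249736), (.hz 18 1471, 93700123), (.hz 18 1983, 883943877), (.hz 18 3007, 1058784489), (.hz 18 5567, 4483093), (.hz 25 3071, 1397626999), (.hz 18 4031, 89661852), (.rw 11, 368), (.rw 12, 2), (.rw 13, 351)]))))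
.fin))
(.ask 1983
(.mark 1983 [6, 11, 12]
(.spn
(.haz 12 4031 13 40
(.ask 3007
(.mark 4031 [6, 12, 13]
(.lp [[6], [1, 3, 5, 8, 10, 12], [0, 2, 4, 7, 9, 11, 13]] [(.mj 6 11, 15), (.mj 6 12, 172), (.mj 10 6, 576), (.rw 10, 1), (.hz 18 3007, 5509091), (.hz 26 4031, 307233), (.hz 18 11199, 1794578), (.hz 26 12223, 711503)]))
(.lp [[6], [0, 2, 4, 7, 9, 11], [1, 3, 5, 8, 10, 12]] [(.mj 6 11, 11), (.mj 6 12, 20), (.mj 10 6, 26), (.hz 18 3007, 113902), (.hz 26 4031, 79515)]))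
(.lp [[6], [0, 2, 4, 7, 9, 11], [1, 3, 5, 8, 10, 12]] [(.mj 6 11, 1), (.mj 10 6, 1), (.hz 26 1983, 2023)]))
(.cut 6 [(0, 1), (1, 1), (2, 1), (3, 1), (5, 1), (7, 1), (11, 1), (21, 1), (15, 1), (23, 1), (31, 1), (47, 1), (63, 1), (159, 1), (303, 1), (191, 1), (319, 1), (671, 1), (447, 1), (703, 1), (959, 1), (1471, 1)]
(.lp [[6], [0, 2, 4, 7, 9, 11], [1, 3, 5, 8, 10, 12]] [(.mj 10 11, 827), (.mj 11 6, 5360), (.mj 11 12, 42), (.hz 18 6079, 20337711), (.rw 11, 19)]))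
(.cut 6 [(0, 1), (1, 1), (2, 1), (3, 1), (5, 1), (7, 1), (11, 1), (21, 1), (15, 1), (23, 1), (31, 1), (47, 1), (63, 1), (159, 1), (303, 1), (191, 1), (319, 1), (447, 1), (1471, 1)]
(.cut 6 [(0, 1), (1, 1), (2, 1), (3, 1), (5, 1), (7, 1), (11, 1), (21, 1), (15, 1), (23, 1), (31, 1), (47, 1), (63, 1), (159, 1), (303, 1), (191, 1), (319, 1), (671, 1), (447, 1), (703, 1), (959, 1)]
(.lp [[6], [0, 2, 4, 7, 9, 11], [1, 3, 5, 8, 10, 12]] [(.mj 12 6, 1100), (.rw 11, 2), (.rw 12, 2)])))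
.fin))
(.spn
(.lp [[6], [1, 3, 5, 8, 10], [0, 2, 4, 7, 9, 11]] [(.mj 6 11, 1), (.mj 10 6, 1)])
(.cut 6 [(0, 1), (1, 1), (2, 1), (3, 1), (5, 1), (7, 1), (11, 1), (21, 1), (15, 1), (23, 1), (31, 1), (47, 1), (63, 1), (159, 1), (303, 1), (191, 1), (319, 1), (671, 1), (447, 1), (703, 1), (959, 1), (1471, 1)]
(.lp [[6], [1, 3, 5, 8, 10], [0, 2, 4, 7, 9, 11]] [(.mj 10 11, 627), (.mj 11 6, 4061), (.rw 11, 14)]))
.fin
.fin)))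
(.lp [[6], [1, 3, 5, 8, 10], [0, 2, 4, 7, 9, 11]] [(.mj 10 6, 19), (.mj 10 11, 23), (.hz 25 447, 29355), (.hz 25 959, 68764), (.hz 18 1471, 9119), (.hz 18 3007, 312508)]))
(.haz 9 1471 19 40
(.cut 6 [(0, 1), (1, 1), (2, 1), (3, 1), (5, 1), (7, 1), (11, 1), (21, 1), (15, 1), (23, 1), (31, 1), (47, 1), (63, 1), (159, 1), (303, 1), (191, 1), (319, 1), (447, 1)]
(.lp [[6], [1, 3, 5, 8, 10], [0, 2, 4, 7, 9, 11]] [(.mj 8 9, 52552), (.mj 11 6, 19631), (.mj 11 10, 9277), (.rw 9, 2), (.hz 25 1471, 14304454), (.hz 25 1535, 89934292), (.rw 10, 76)]))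
(.lp [[6], [1, 3, 5, 8, 10], [0, 2, 4, 7, 9, 11]] [(.mj 0 1, 2667), (.mj 11 10, 476), (.rw 9, 2), (.hz 25 447, 4825426), (.hz 24 1471, 4167513)]))
.fin))
(.spn
(.lp [[6], [0, 2, 4, 7, 9], [1, 3, 5, 8, 10]] [(.mj 6 10, 2), (.mj 9 6, 3)])
(.ask 1471
(.mark 1471 [6, 9, 11]
(.ask 1983
(.mark 1983 [6, 11, 12]
(.spn
(.lp [[6], [0, 2, 4, 7, 9, 12], [1, 3, 5, 8, 10, 11]] [(.mj 6 12, 195), (.mj 9 10, 1148), (.mj 10 6, 610), (.rw 10, 1)])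
(.lp [[6], [0, 2, 4, 7, 9, 12], [1, 3, 5, 8, 10, 11]] [(.mj 9 10, 7), (.mj 11 6, 5), (.mj 11 12, 1), (.hz 18 1471, 45854), (.hz 18 1983, 11808), (.hz 18 6079, 36527)])
(.cut 6 [(0, 1), (1, 1), (2, 1), (3, 1), (5, 1), (7, 1), (11, 1), (21, 1), (15, 1), (23, 1), (31, 1), (47, 1), (63, 1), (159, 1), (303, 1), (191, 1), (319, 1), (671, 1), (447, 1), (703, 1), (959, 1), (1471, 1), (1983, 1)]
(.lp [[6], [0, 2, 4, 7, 9, 12], [1, 3, 5, 8, 10, 11]] [(.mj 9 10, 1476), (.mj 12 6, 534), (.rw 11, 2)]))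
.fin))
(.lp [[6], [0, 2, 4, 7, 9], [1, 3, 5, 8, 10, 11]] [(.mj 9 10, 3), (.mj 10 6, 2), (.hz 18 1471, 12279)])))
(.ask 1983
(.maj 6 11
(.ask 1983
(.mark 1983 [6, 11, 12]
(.spn
(.haz 11 6079 11 40
(.lp [[6], [0, 2, 4, 7, 9, 11], [1, 3, 5, 8, 10, 12]] [(.mj 6 11, 35), (.mj 6 12, 20), (.mj 9 10, 29), (.mj 10 6, 46), (.hz 25 6079, 99852)])
(.lp [[6], [0, 2, 4, 7, 9, 11], [1, 3, 5, 8, 10, 12]] [(.mj 9 10, 1), (.mj 10 6, 2), (.mj 11 12, 2), (.hz 25 1983, 3473)]))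
(.con 11 6)
(.con 12 11)
.fin))
(.lp [[6], [1, 3, 5, 8, 10], [0, 2, 4, 7, 9, 11]] [(.mj 6 11, 1), (.mj 10 6, 1)]))
(.cut 6 [(0, 1), (1, 1), (2, 1), (3, 1), (5, 1), (7, 1), (11, 1), (21, 1), (15, 1), (23, 1), (31, 1), (47, 1), (63, 1), (159, 1), (303, 1), (191, 1), (319, 1), (671, 1), (447, 1), (703, 1), (959, 1), (1471, 1)]
(.lp [[6], [1, 3, 5, 8, 10], [0, 2, 4, 7, 9, 11]] [(.mj 9 10, 1476), (.mj 11 6, 534), (.rw 10, 2)])))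
(.lp [[6], [0, 2, 4, 7, 9], [1, 3, 5, 8, 10]] [(.mj 10 6, 1)])))
.fin
.fin))
(.lp [[6], [0, 2, 4, 7, 9], [1, 3, 5, 8, 10]] [(.mj 3 4, 13), (.mj 9 6, 9), (.mj 9 10, 13), (.hz 24 447, 14010), (.hz 18 1471, 76720)]))
(.lp [[6], [0, 2, 4, 7, 9], [1, 3, 5, 8, 10]] [(.mj 3 4, 8), (.mj 9 6, 4), (.mj 9 10, 5), (.hz 23 447, 6131), (.hz 18 1471, 33050)]))
(.lp [[6], [0, 2, 4, 7, 9], [1, 3, 5, 8, 10]] [(.mj 9 6, 567), (.mj 9 10, 1052), (.rw 8, 1), (.hz 22 447, 17148299)]))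

theorem run171 : run P3488 (leaf3 218 625) (cutRow P3488) [] t171 s171 = true := by
  decide +kernel

theorem bad171 : Bad P3488 s171 :=
  run_sound (leaf3_sound P3488 rfl rfl) (cutRow_sound P3488) (
    fun _ h => absurd h List.not_mem_nil) t171 s171 run171

/-- the state above piece 9 of the tree -/
def s9 : St := ⟨[0, 0, 1, 1, 2, 7, 13, 39], [47, 15, 7, 5, 9, 3, 1, 0], [0, 1, 2, 3, 5, 6],
  [],
  [⟨true, 1, 9, 7, 50⟩, ⟨true, 2, 11, 3, 50⟩, ⟨true, 2, 9, 9, 50⟩, ⟨true, 3, 3, 1, 5⟩],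
  [.spn 0 0 651200, .spn 1 1 140426, .spn 3 2 140426, .spn 7 3 62723, .spn 15 5 140426, .spn 47 6 140426]⟩

/-- piece 9 of the tree -/
noncomputable def t9 : WN.Tree :=
(.haz 4 175 1 20
(.haz 4 7 1 8
(.lp [[1, 4], [3, 6], [0, 2, 5, 7]] [(.mj 1 2, 342), (.mj 2 3, 8), (.mj 6 4, 188), (.hz 5 7, 30578), (.hz 5 15, 103150), (.hz 5 39, 34947), (.hz 5 47, 153597), (.hz 5 79, 7817), (.hz 3 167, 28580), (.hz 5 167, 44022), (.hz 5 175, 205435)])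
(.haz 3 167 13 50
(.haz 3 167 8 25
(.haz 4 239 1 10
(.haz 7 111 1 5
(.maj 4 7
(.ask 77
(.mark 111 [4, 7, 8]
(.lp [[1, 4], [3, 6, 8], [0, 2, 5, 7]] [(.mj 1 2, 93), (.mj 2 3, 20), (.mj 4 7, 28), (.mj 6 4, 24), (.hz 5 2, 3036), (.hz 5 3, 6506), (.hz 5 7, 4990), (.hz 7 167, 1527), (.hz 9 111, 45030), (.hz 9 127, 62197), (.hz 9 367, 114655)]))
(.haz 4 167 2 25
(.haz 7 47 21 50
(.cut 4 [(0, 1), (1, 1), (2, 1), (3, 1), (5, 1), (9, 1), (7, 1), (11, 1), (13, 1), (15, 1), (39, 1), (77, 1), (47, 1)]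
(.lp [[1, 4], [3, 6], [0, 2, 5, 7]] [(.mj 1 2, 1919), (.mj 2 3, 379), (.mj 4 7, 1215), (.mj 5 6, 731), (.mj 6 4, 1150), (.hz 5 2, 58841), (.hz 5 3, 126088), (.hz 5 7, 73775), (.hz 11 47, 33121), (.hz 10 167, 86256), (.hz 11 63, 426585), (.hz 11 111, 319057), (.rw 6, 1)]))
(.haz 6 175 19 50
(.ask 79
(.mark 111 [4, 7, 8]
(.spn
(.ask 18
(.mark 127 [7, 8, 9]
(.lp [[1, 4, 9], [3, 6, 8], [0, 2, 5, 7]] [(.mj 2 3, 500), (.mj 4 7, 174), (.mj 5 6, 280), (.mj 6 4, 416), (.rw 6, 1), (.hz 11 39, 14035), (.hz 12 175, 28320)]))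
(.lp [[1, 4], [3, 6, 8], [0, 2, 5, 7]] [(.mj 1 2, 565), (.mj 2 3, 137), (.mj 4 7, 71), (.mj 6 4, 47), (.hz 5 3, 64139), (.hz 5 7, 75467), (.hz 11 39, 6311), (.hz 10 167, 3511), (.hz 10 175, 16386), (.hz 12 175, 8859), (.hz 9 367, 290918), (.hz 8 495, 76722)]))
(.con 7 4)
(.lp [[1, 4], [3, 6, 8], [0, 2, 5, 7]] [(.mj 1 2, 54), (.mj 2 3, 12), (.mj 4 7, 8), (.mj 8 4, 8), (.hz 5 2, 1840), (.hz 5 3, 3943), (.hz 5 7, 2682), (.hz 3 23, 5364), (.hz 7 167, 1562), (.hz 10 167, 620), (.hz 10 175, 2894), (.hz 12 175, 1814), (.hz 8 239, 30576), (.hz 9 367, 35324), (.hz 8 495, 19808)])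
.fin))
(.ask 111
(.mark 111 [4, 7, 8]
(.spn
(.ask 167
(.mark 239 [4, 8, 9]
(.lp [[1, 4], [3, 6, 8], [0, 2, 5, 7, 9]] [(.mj 2 3, 10), (.mj 4 7, 10), (.mj 4 8, 6), (.mj 6 4, 14), (.hz 10 167, 801), (.hz 7 679, 484), (.hz 10 679, 1039), (.hz 9 127, 37847), (.hz 9 367, 50018), (.hz 10 687, 10724), (.hz 8 751, 7593)]))
(.lp [[1, 4], [3, 6, 8], [0, 2, 5, 7]] [(.mj 2 3, 15), (.mj 4 7, 8), (.mj 4 8, 4), (.mj 6 4, 7), (.hz 5 2, 461), (.hz 5 3, 988), (.hz 5 7, 3711), (.hz 10 175, 4697), (.hz 12 175, 274), (.hz 9 367, 38130)]))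
(.con 7 4)
(.cut 4 [(0, 1), (1, 1), (2, 1), (3, 1), (5, 1), (9, 1), (7, 1), (11, 1), (13, 1), (15, 1), (39, 1), (77, 1), (47, 1), (79, 1), (111, 1)]
(.lp [[1, 4], [3, 6, 8], [0, 2, 5, 7]] [(.mj 1 2, 9879), (.mj 2 3, 1647), (.mj 8 4, 547), (.rw 6, 1), (.hz 5 2, 255753), (.hz 5 3, 548043), (.hz 7 167, 117968), (.hz 10 167, 41032), (.hz 9 111, 4009529), (.rw 7, 3)]))
.fin))
(.lp [[1, 4], [3, 6], [0, 2, 5, 7]] [(.mj 4 7, 2), (.mj 6 4, 3)])))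
(.lp [[1, 4], [3, 6], [0, 2, 5, 7]] [(.mj 1 2, 9), (.mj 6 4, 5), (.hz 12 15, 87), (.hz 11 39, 74), (.hz 12 47, 1307), (.hz 11 47, 1245), (.hz 10 167, 774), (.hz 9 111, 426), (.hz 10 175, 1758), (.hz 8 239, 2129)])))
(.lp [[1, 4], [3, 6], [0, 2, 5, 7]] [(.mj 1 2, 15), (.mj 4 7, 2), (.hz 10 2, 164), (.hz 10 3, 930), (.hz 10 7, 26), (.hz 7 167, 87), (.hz 9 111, 4691)])))
(.haz 4 7 1 10
(.lp [[1, 4], [3, 6], [0, 2, 5, 7]] [(.mj 1 2, 2787), (.mj 6 7, 316), (.mj 7 4, 1663), (.hz 10 7, 193530), (.hz 10 15, 602092), (.hz 10 39, 215033), (.hz 10 47, 907917), (.hz 10 79, 1056051), (.hz 7 167, 24533), (.hz 10 167, 177880), (.hz 10 111, 2182186), (.hz 10 175, 790577)])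
(.ask 77
(.mark 111 [4, 7, 8]
(.cut 4 [(0, 1), (1, 1), (2, 1), (3, 1), (5, 1), (9, 1), (7, 1), (11, 1), (13, 1), (15, 1), (39, 1), (77, 1), (47, 1), (333, 1)]
(.lp [[1, 4], [3, 6, 8], [0, 2, 5, 7]] [(.mj 1 2, 13729), (.mj 2 3, 1507), (.mj 6 7, 2819), (.mj 7 4, 1547), (.hz 10 2, 360616), (.hz 10 3, 1412130), (.hz 7 167, 67862), (.hz 8 239, 7498687), (.rw 6, 1)])))
(.haz 4 15 3 25
(.lp [[1, 4], [3, 6], [0, 2, 5, 7]] [(.mj 1 2, 37), (.mj 6 7, 6), (.mj 7 4, 23), (.hz 10 2, 52), (.hz 10 3, 109), (.hz 11 15, 3996), (.hz 11 47, 6501), (.hz 11 79, 5632), (.hz 7 167, 1229), (.hz 11 111, 11827), (.hz 11 175, 8811)])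
(.ask 79
(.mark 111 [4, 7, 8]
(.cut 4 [(0, 1), (1, 1), (2, 1), (3, 1), (5, 1), (9, 1), (7, 1), (11, 1), (13, 1), (15, 1), (39, 1), (77, 1), (47, 1)]
(.lp [[1, 4], [3, 6, 8], [0, 2, 5, 7]] [(.mj 1 2, 176281), (.mj 6 7, 20571), (.mj 7 4, 15186), (.hz 10 2, 3984937), (.hz 10 3, 8412644), (.hz 10 7, 2453817), (.hz 11 11, 5454130), (.hz 7 167, 271325), (.hz 8 239, 44981075), (.hz 9 367, 9243761), (.hz 8 495, 46218806), (.rw 6, 14)])))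
(.ask 111
(.mark 111 [4, 7, 8]
(.spn
(.con 4 7)
(.ask 167
(.mark 239 [4, 8, 9]
(.spn
(.lp [[1, 4], [3, 6, 8], [0, 2, 5, 7, 9]] [(.mj 1 2, 20637), (.mj 2 3, 5125), (.mj 6 7, 3184), (.mj 7 4, 802), (.rw 7, 4), (.hz 10 2, 638284), (.hz 10 3, 1347488), (.hz 10 7, 1580253), (.hz 7 679, 429160), (.hz 9 367, 910851), (.hz 4 687, 5680963), (.hz 8 495, 4554254)])
(.cut 4 [(0, 1), (1, 1), (2, 1), (3, 1), (5, 1), (9, 1), (7, 1), (11, 1), (13, 1), (15, 1), (39, 1), (77, 1), (47, 1), (79, 1), (167, 1), (111, 1), (175, 1), (239, 1)]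
(.lp [[1, 4], [3, 6, 8], [0, 2, 5, 7, 9]] [(.mj 1 2, 10234), (.mj 2 3, 1706), (.mj 6 7, 1521), (.mj 7 4, 757), (.mj 7 8, 289), (.mj 8 4, 1338), (.hz 10 2, 212420), (.hz 10 3, 448442), (.hz 7 679, 134629), (.hz 8 239, 1979007), (.hz 4 687, 1555133), (.rw 8, 4)]))
(.lp [[1, 4], [3, 6, 8], [0, 2, 5, 7, 9]] [(.mj 1 2, 6), (.mj 2 3, 1), (.mj 6 7, 11), (.mj 9 4, 11), (.mj 9 8, 6), (.hz 10 2, 159), (.hz 10 3, 337), (.hz 10 7, 88), (.hz 3 55, 885), (.hz 8 239, 66850), (.hz 9 367, 49149), (.hz 8 495, 167296), (.hz 8 751, 55870)])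
.fin))
(.cut 4 [(0, 1), (1, 1), (2, 1), (3, 1), (5, 1), (9, 1), (7, 1), (11, 1), (13, 1), (15, 1), (39, 1), (77, 1), (47, 1)]
(.lp [[1, 4], [3, 6, 8], [0, 2, 5, 7]] [(.mj 1 2, 13045), (.mj 2 3, 3240), (.mj 6 7, 1452), (.mj 7 4, 463), (.hz 10 2, 403457), (.hz 10 3, 851743), (.hz 10 7, 998873), (.hz 4 175, 1329231), (.rw 7, 1)])))
(.lp [[1, 4], [3, 6, 8], [0, 2, 5, 7]] [(.mj 1 2, 31613), (.mj 3 5, 72), (.rw 6, 2), (.hz 10 2, 683649), (.hz 10 3, 1443258), (.hz 10 7, 26052), (.hz 11 11, 935701), (.hz 3 23, 592899), (.hz 3 55, 449166), (.hz 7 167, 89833), (.hz 9 111, 8105191)])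
.fin))
(.lp [[1, 4], [3, 6], [0, 2, 5, 7]] [(.mj 1 2, 15), (.mj 2 3, 13), (.mj 6 7, 16), (.mj 7 4, 5), (.hz 10 2, 876), (.hz 10 3, 1850), (.hz 10 7, 4223), (.hz 8 239, 54580)])))))))
(.lp [[1, 4], [3, 6], [0, 2, 5, 7]] [(.mj 1 2, 474), (.mj 2 3, 112), (.mj 6 4, 15), (.hz 5 2, 17405), (.hz 5 3, 37296), (.hz 5 7, 49685), (.hz 9 39, 50358), (.hz 9 47, 70716), (.hz 4 175, 7897)]))
(.cut 4 [(0, 1), (1, 1), (2, 1), (3, 1), (5, 1), (9, 1), (7, 1), (11, 1), (13, 1), (15, 1), (39, 1), (77, 1), (47, 1)]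
(.cut 4 [(0, 1), (1, 1), (2, 1), (3, 1), (5, 1), (9, 1), (7, 1), (11, 1), (13, 1), (15, 1), (39, 1), (77, 1), (47, 1), (79, 1)]
(.lp [[1, 4], [3, 6], [0, 2, 5, 7]] [(.mj 1 2, 1515677), (.mj 6 7, 102112), (.hz 8 2, 37715291), (.hz 8 3, 79621169), (.hz 8 7, 20927901), (.hz 8 11, 126183256), (.hz 8 15, 28376711), (.hz 8 39, 23253223), (.hz 8 47, 57366593), (.hz 8 79, 33743160), (.hz 7 167, 5134090), (.hz 8 111, 324544963), (.hz 7 183, 8222187), (.rw 6, 124), (.rw 7, 90)]))))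
(.lp [[1, 4], [3, 6], [0, 2, 5, 7]] [(.mj 3 5, 19), (.mj 6 7, 17), (.hz 5 2, 1140), (.hz 5 3, 7030), (.hz 7 5, 939), (.hz 7 7, 4591), (.hz 5 7, 6320), (.hz 7 39, 2802), (.hz 6 167, 2901), (.hz 4 175, 26420)]))
(.lp [[1, 4], [3, 6], [0, 2, 5, 7]] [(.mj 3 5, 1), (.mj 6 7, 1), (.hz 5 2, 69), (.hz 5 3, 424), (.hz 6 5, 26), (.hz 6 7, 121), (.hz 5 7, 273), (.hz 6 39, 67), (.hz 3 167, 1407)])))
(.lp [[1, 4], [3, 6], [0, 2, 5, 7]] [(.mj 1 2, 8), (.mj 6 7, 1), (.hz 4 2, 108), (.hz 4 3, 453), (.hz 4 11, 121)]))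

theorem run9 : run P3488 (leaf3 218 625) (cutRow P3488) [] t9 s9 = true := by
  decide +kernel

theorem bad9 : Bad P3488 s9 :=
  run_sound (leaf3_sound P3488 rfl rfl) (cutRow_sound P3488) (
    fun _ h => absurd h List.not_mem_nil) t9 s9 run9

/-- the state above piece 49 of the tree -/
def s49 : St := ⟨[0, 0, 1, 1, 7, 7, 11, 23], [151, 31, 15, 13, 9, 7, 5, 3, 2, 1, 0], [0, 1, 2, 3, 4, 7],
  [(3, 4)],
  [⟨true, 1, 9, 7, 50⟩, ⟨true, 2, 11, 3, 50⟩, ⟨true, 2, 9, 9, 50⟩, ⟨true, 3, 3, 1, 5⟩, ⟨true, 1, 5, 13, 50⟩, ⟨true, 2, 11, 3, 5⟩, ⟨true, 2, 9, 8, 25⟩, ⟨true, 2, 9, 17, 50⟩, ⟨true, 2, 11, 33, 50⟩, ⟨true, 4, 47, 4, 25⟩, ⟨true, 4, 39, 1, 4⟩, ⟨true, 4, 39, 7, 20⟩, ⟨false, 5, 15, 1, 5⟩, ⟨true, 3, 39, 1, 4⟩, ⟨true, 4, 79, 3, 10⟩],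
  [.spn 0 0 651200, .spn 1 1 140426, .spn 3 2 302400, .spn 7 3 62723, .spn 15 4 140426, .spn 31 7 140426]⟩

/-- piece 49 of the tree -/
noncomputable def t49 : WN.Tree :=
(.haz 6 159 3 40
(.ask 159
(.mark 159 [5, 6, 8]
(.spn
(.haz 6 31 7 40
(.lp [[1, 5], [3, 6], [0, 2, 4, 7, 8]] [(.mj 3 4, 4), (.mj 5 6, 12), (.mj 5 8, 5), (.mj 7 5, 12), (.hz 16 31, 227), (.hz 16 63, 7875), (.hz 16 159, 501), (.hz 16 415, 5275)])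
(.haz 5 23 7 40
(.lp [[1, 5], [3, 6], [0, 2, 4, 7, 8]] [(.mj 3 4, 17), (.mj 5 8, 1), (.mj 7 5, 14), (.hz 16 11, 658), (.hz 16 15, 1895), (.hz 17 23, 2204), (.hz 17 31, 1422), (.hz 17 151, 376), (.hz 17 95, 7633), (.hz 15 415, 690)])
(.haz 4 39 17 40
(.haz 5 95 1 8
(.haz 6 415 3 20
(.ask 415
(.mark 415 [5, 6, 9]
(.lp [[1, 5], [3, 6], [0, 2, 4, 7, 8, 9]] [(.mj 3 4, 36), (.mj 5 6, 33), (.mj 5 8, 22), (.mj 7 5, 56), (.hz 16 11, 1053), (.hz 16 15, 3030), (.hz 19 95, 141922), (.hz 20 415, 36751), (.hz 20 447, 14480), (.hz 20 927, 14480)]))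
(.lp [[1, 5], [3, 6], [0, 2, 4, 7, 8]] [(.mj 3 4, 2), (.mj 5 6, 3), (.mj 7 5, 3), (.hz 17 23, 629)]))
(.lp [[1, 5], [3, 6], [0, 2, 4, 7, 8]] [(.mj 3 4, 169), (.mj 5 8, 164), (.mj 7 5, 235), (.hz 20 11, 21864), (.hz 20 15, 62162), (.hz 20 31, 33418), (.hz 19 95, 729319), (.hz 20 159, 85404), (.hz 15 415, 92052)]))
(.lp [[1, 5], [3, 6], [0, 2, 4, 7, 8]] [(.mj 3 4, 9), (.mj 5 6, 13), (.mj 5 8, 10), (.hz 19 7, 3035), (.hz 19 15, 8558), (.hz 16 15, 31), (.hz 19 31, 25145), (.hz 16 31, 401), (.hz 15 191, 2619), (.hz 15 415, 8428)]))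
(.lp [[1, 5], [3, 6], [0, 2, 4, 7, 8]] [(.hz 18 7, 68), (.hz 17 7, 36), (.hz 16 11, 1), (.hz 12 15, 471), (.hz 16 15, 59), (.hz 16 31, 32)]))))
(.haz 5 23 3 20
(.lp [[1, 5], [3, 6], [0, 2, 4, 7, 8]] [(.mj 6 5, 3783), (.mj 7 6, 1952), (.rw 6, 1), (.hz 16 23, 403776), (.hz 16 31, 1551765), (.hz 16 151, 273142), (.hz 16 95, 3884546), (.hz 16 159, 1406695), (.hz 16 415, 1654935)])
(.haz 5 23 1 8
(.lp [[1, 5], [3, 6], [0, 2, 4, 7, 8]] [(.mj 6 5, 143), (.mj 6 8, 86), (.mj 7 6, 180), (.hz 17 95, 737735), (.hz 17 415, 498828)])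
(.haz 8 191 17 50
(.haz 3 183 29 50
(.haz 5 415 2 25
(.haz 6 191 6 25
(.ask 415
(.ask 75
(.mark 223 [5, 8, 10]
(.spn
(.lp [[1, 5], [3, 6, 10], [0, 2, 4, 7, 8, 9]] [(.mj 5 8, 578), (.mj 6 5, 578), (.mj 7 6, 1157), (.rw 6, 1), (.rw 7, 1)])
(.mark 479 [5, 9, 10]
(.cut 5 [(0, 1), (1, 1), (2, 1), (3, 1), (5, 1), (9, 1), (7, 1), (11, 1), (13, 1), (15, 1), (23, 1), (75, 1), (31, 1), (151, 1), (1099, 1), (159, 1)]
(.cut 5 [(0, 1), (1, 1), (2, 1), (3, 1), (5, 1), (9, 1), (7, 1), (11, 1), (13, 1), (15, 1), (23, 1), (75, 1), (31, 1), (79, 1), (151, 1), (1099, 1), (159, 1)]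
(.cut 5 [(0, 1), (1, 1), (2, 1), (3, 1), (5, 1), (9, 1), (7, 1), (11, 1), (13, 1), (15, 1), (23, 1), (75, 1), (31, 1), (79, 1), (151, 1), (1099, 1), (95, 1), (159, 1), (223, 1)]
(.lp [[1, 5], [3, 6, 10], [0, 2, 4, 7, 8, 9]] [(.mj 6 8, 8720), (.mj 7 6, 9897), (.mj 8 5, 7354), (.hz 8 1099, 1408132), (.hz 14 1103, 560515), (.hz 11 1135, 5525284), (.hz 20 927, 2728539), (.hz 20 1503, 8706688), (.rw 8, 12), (.rw 9, 4), (.rw 10, 1)])))))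
(.mark 479 [5, 9, 10]
(.lp [[1, 5], [3, 6, 10], [0, 2, 4, 7, 8, 9]] [(.mj 7 6, 876), (.mj 10 5, 438), (.mj 10 8, 438), (.rw 6, 1)]))
.fin))
(.maj 5 8
(.mark 415 [5, 6, 9]
(.cut 5 [(0, 1), (1, 1), (2, 1), (3, 1), (5, 1), (9, 1), (7, 1), (11, 1), (13, 1), (15, 1), (23, 1), (75, 1), (31, 1), (151, 1), (159, 1)]
(.cut 5 [(0, 1), (1, 1), (2, 1), (3, 1), (5, 1), (9, 1), (7, 1), (11, 1), (13, 1), (15, 1), (23, 1), (75, 1), (31, 1), (79, 1), (151, 1), (159, 1)]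
(.lp [[1, 5], [3, 6], [0, 2, 4, 7, 8, 9]] [(.mj 5 8, 928), (.mj 6 5, 7845), (.mj 6 8, 4532), (.mj 7 6, 12837), (.hz 18 255, 3844699), (.hz 20 927, 10435108), (.rw 7, 11), (.rw 8, 2)]))))
(.maj 5 9
(.mark 415 [5, 6, 9]
(.cut 5 [(0, 1), (1, 1), (2, 1), (3, 1), (5, 1), (9, 1), (7, 1), (11, 1), (13, 1), (15, 1), (23, 1), (75, 1), (31, 1), (151, 1), (159, 1), (415, 1)]
(.lp [[1, 5], [3, 6], [0, 2, 4, 7, 8, 9]] [(.mj 6 8, 747), (.mj 7 6, 1607), (.mj 8 5, 960), (.hz 20 415, 692323), (.hz 20 927, 241014), (.rw 7, 2)])))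
(.mark 415 [5, 6, 9]
(.cut 5 [(0, 1), (1, 1), (2, 1), (3, 1), (5, 1), (9, 1), (7, 1), (11, 1), (13, 1), (15, 1), (23, 1), (75, 1), (31, 1), (151, 1), (159, 1), (415, 1)]
(.lp [[1, 5], [3, 6], [0, 2, 4, 7, 8, 9]] [(.mj 6 8, 8183), (.mj 7 6, 14852), (.mj 9 5, 9076), (.hz 11 111, 5687094), (.hz 20 415, 3909447), (.hz 21 447, 11345466), (.rw 7, 22)]))))))
(.cut 5 [(0, 1), (1, 1), (2, 1), (3, 1), (5, 1), (9, 1), (7, 1), (11, 1), (13, 1), (15, 1), (23, 1), (75, 1), (31, 1), (151, 1), (159, 1), (415, 1)]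
(.lp [[1, 5], [3, 6], [0, 2, 4, 7, 8]] [(.mj 6 5, 3821), (.mj 7 6, 9106), (.hz 8 75, 341163), (.rw 7, 7)])))
(.lp [[1, 5], [3, 6], [0, 2, 4, 7, 8]] [(.mj 6 8, 587), (.rw 6, 1), (.hz 21 159, 895382), (.hz 18 191, 316017), (.hz 20 415, 116759)]))
(.cut 5 [(0, 1), (1, 1), (2, 1), (3, 1), (5, 1), (9, 1), (7, 1), (11, 1), (13, 1), (15, 1), (23, 1), (75, 1), (31, 1), (151, 1), (159, 1)]
(.lp [[1, 5], [3, 6], [0, 2, 4, 7, 8]] [(.mj 2 3, 7732), (.mj 6 8, 3625), (.mj 7 6, 3775), (.hz 20 7, 400269), (.hz 20 15, 261719), (.hz 20 23, 435075), (.hz 20 31, 757385), (.hz 20 151, 472908), (.hz 20 159, 482380), (.hz 18 191, 1156622), (.rw 7, 4)])))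
(.lp [[1, 5], [3, 6], [0, 2, 4, 7, 8]] [(.mj 7 6, 1), (.hz 17 7, 124), (.hz 17 23, 2261), (.hz 11 47, 347), (.hz 13 55, 740), (.hz 19 151, 425)]))
(.cut 5 [(0, 1), (1, 1), (2, 1), (3, 1), (5, 1), (9, 1), (7, 1), (11, 1), (13, 1), (15, 1), (23, 1), (75, 1), (31, 1), (151, 1), (159, 1)]
(.lp [[1, 5], [3, 6], [0, 2, 4, 7, 8]] [(.mj 2 3, 2665), (.mj 6 5, 2728), (.mj 7 6, 3504), (.hz 8 75, 171975), (.hz 18 159, 521350), (.hz 18 191, 654519), (.rw 7, 4)])))))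
(.haz 6 31 7 40
(.cut 5 [(0, 1), (1, 1), (2, 1), (3, 1), (5, 1), (9, 1), (7, 1), (11, 1), (13, 1), (15, 1), (23, 1), (75, 1), (31, 1), (151, 1), (159, 1)]
(.lp [[1, 5], [3, 6], [0, 2, 4, 7, 8]] [(.mj 8 6, 10949), (.rw 6, 4), (.hz 8 75, 476182), (.hz 16 31, 4316848), (.hz 16 63, 2984766), (.hz 16 159, 3818884), (.hz 16 191, 8725119), (.rw 7, 12)]))
(.ask 415
(.mark 415 [5, 6, 9]
(.spn
(.lp [[1, 5], [3, 6], [0, 2, 4, 7, 8, 9]] [(.mj 8 5, 279), (.rw 7, 1)])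
(.lp [[1, 5], [3, 6], [0, 2, 4, 7, 8, 9]] [(.mj 8 6, 2464), (.rw 7, 4)])
(.maj 5 6
(.cut 5 [(0, 1), (1, 1), (2, 1), (3, 1), (5, 1), (9, 1), (7, 1), (11, 1), (13, 1), (15, 1), (23, 1), (31, 1), (151, 1), (159, 1), (415, 1)]
(.lp [[1, 5], [3, 6], [0, 2, 4, 7, 8, 9]] [(.mj 3 4, 15379), (.rw 7, 5), (.hz 15 159, 2338085), (.hz 15 415, 1748298), (.rw 8, 22)]))
(.haz 4 39 9 20
(.cut 5 [(0, 1), (1, 1), (2, 1), (3, 1), (5, 1), (9, 1), (7, 1), (11, 1), (13, 1), (15, 1), (23, 1), (75, 1), (31, 1)]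
(.cut 5 [(0, 1), (1, 1), (2, 1), (3, 1), (5, 1), (9, 1), (7, 1), (11, 1), (13, 1), (15, 1), (23, 1), (75, 1), (31, 1), (151, 1), (159, 1)]
(.cut 5 [(0, 1), (1, 1), (2, 1), (3, 1), (5, 1), (9, 1), (7, 1), (11, 1), (13, 1), (15, 1), (23, 1), (75, 1), (31, 1), (79, 2), (151, 1), (95, 1), (159, 1), (223, 1), (415, 1)]
(.cut 6 [(0, 1), (1, 1), (2, 1), (3, 1), (5, 1), (9, 1), (7, 1), (11, 1), (13, 1), (15, 1), (23, 1), (31, 1), (151, 1), (159, 1), (415, 1)]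
(.lp [[1, 5], [3, 6], [0, 2, 4, 7, 8, 9]] [(.mj 3 4, 1034828), (.mj 9 6, 407616), (.rw 7, 86), (.hz 17 39, 233685987), (.hz 8 75, 41128569), (.hz 17 111, 319264775), (.hz 15 191, 484955597), (.hz 15 447, 610516904), (.rw 8, 299), (.rw 9, 97), (.rw 10, 120), (.rw 11, 870)])))))
(.lp [[1, 5], [3, 6], [0, 2, 4, 7, 8, 9]] [(.rw 7, 2), (.hz 17 7, 2122968), (.hz 12 7, 2142629), (.hz 12 15, 4703143), (.hz 16 15, 530250), (.hz 11 39, 1175786), (.hz 15 159, 635560), (.hz 15 415, 687092)])))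
.fin))
(.lp [[1, 5], [3, 6], [0, 2, 4, 7, 8]] [(.mj 8 6, 1), (.rw 6, 1)])))
.fin))
(.lp [[1, 5], [3, 6], [0, 2, 4, 7]] [(.mj 3 4, 6), (.mj 7 5, 17), (.mj 7 6, 25), (.hz 15 191, 28427)]))
(.lp [[1, 5], [3, 6], [0, 2, 4, 7]] [(.mj 1 2, 54), (.mj 3 4, 2), (.hz 12 7, 440), (.hz 15 11, 993), (.hz 11 39, 169)]))

theorem run49 : run P3488 (leaf3 218 625) (cutRow P3488) [] t49 s49 = true := by
  decide +kernel

theorem bad49 : Bad P3488 s49 :=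
  run_sound (leaf3_sound P3488 rfl rfl) (cutRow_sound P3488) (
    fun _ h => absurd h List.not_mem_nil) t49 s49 run49

end Pool.Agent.WN.Data
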