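import Pool.Agent.WN.CutRow
import Pool.Agent.WN.LeafRow
import Pool.Agent.Helper99.WN.ParDef
import Pool.Agent.WN.Data.D15

/-!
# The search tree, part 20
-/

set_option autoImplicit false

namespace Pool.Agent.WN.Data

open Pool.Agent.W3 Pool.Agent.WN Pool.Agent.Helper99.WN

/-- the state above piece 2 of the tree -/
def s2 : St := ⟨[0, 0, 0, 1, 2], [1, 0], [0, 1],
  [(3, 2)],
  [⟨true, 2, 1, 3, 50⟩, ⟨true, 1, 9, 11, 50⟩, ⟨true, 1, 4, 1, 5⟩, ⟨true, 3, 7, 1, 5⟩],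
  [.spn 0 0 424061, .spn 1 1 140426]⟩

/-- piece 2 of the tree -/
noncomputable def t2 : WN.Tree :=
(.mark 3 [2, 3, 4]
(.spn
(.con 2 3)
(.haz 3 5 3 10
(.haz 1 4 9 40
(.ask 9
(.mark 11 [2, 4, 5]
(.spn
(.haz 5 27 11 40
(.haz 2 19 1 10
(.ask 4
(.mark 5 [1, 3, 6]
(.lp [[1, 4], [2, 6], [0, 3, 5]] [(.mj 0 1, 994), (.mj 1 3, 497), (.mj 2 4, 19), (.mj 2 5, 234), (.mj 3 2, 351), (.hz 5 68, 37133), (.hz 7 19, 240825), (.hz 5 69, 10967), (.hz 4 69, 93177), (.hz 6 27, 23127)]))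
(.ask 5
(.mark 15 [4, 5, 6]
(.spn
(.lp [[1, 4], [2, 6], [0, 3, 5]] [(.mj 0 1, 3366), (.mj 1 3, 1683), (.mj 2 4, 1530), (.mj 3 2, 5565), (.mj 4 5, 2091), (.rw 3, 12), (.rw 4, 1), (.hz 6 27, 95638)])
(.lp [[1, 4], [2, 6], [0, 3, 5]] [(.mj 0 1, 9610), (.mj 1 3, 6350), (.mj 2 5, 5007), (.mj 3 2, 7511), (.mj 5 4, 1867), (.hz 7 19, 4333315), (.hz 5 69, 114047), (.hz 4 69, 938503), (.hz 7 27, 1207138), (.hz 6 27, 469442)])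
(.lp [[1, 4], [2, 6], [0, 3, 5]] [(.mj 0 1, 295), (.mj 1 3, 147), (.mj 3 2, 569), (.mj 6 4, 69), (.mj 6 5, 216), (.rw 3, 1), (.hz 7 19, 190595), (.hz 6 27, 24518)])
.fin))
(.lp [[2], [1, 4], [0, 3, 5]] [(.mj 0 1, 82), (.mj 1 3, 41), (.mj 2 5, 16), (.mj 3 2, 24), (.hz 7 19, 18095), (.hz 6 27, 1508)])))
(.lp [[2], [1, 4], [0, 3, 5]] [(.mj 0 1, 17), (.mj 1 3, 8), (.mj 2 4, 2), (.mj 2 5, 6), (.hz 7 0, 839), (.hz 7 1, 932), (.hz 0 19, 432), (.hz 0 41, 124), (.hz 6 27, 690)]))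
(.lp [[2], [1, 4], [0, 3, 5]] [(.mj 0 1, 39), (.mj 1 3, 18), (.mj 2 4, 24), (.mj 3 2, 44), (.hz 6 9, 562), (.hz 6 11, 1832), (.hz 0 19, 5445)]))
(.haz 1 4 11 40
(.haz 5 11 9 20
(.cut 2 [(0, 1), (1, 1), (2, 1), (3, 1), (9, 1), (18, 1), (19, 1)]
(.cut 2 [(0, 1), (1, 1), (2, 1), (3, 1), (9, 1)]
(.lp [[2], [1, 4], [0, 3, 5]] [(.mj 0 1, 23889), (.mj 4 2, 6469), (.mj 4 5, 12363), (.hz 6 4, 449388), (.hz 6 5, 299680), (.hz 4 5, 548930), (.hz 7 11, 1013849), (.hz 6 13, 948415), (.hz 0 41, 419835), (.hz 7 15, 5589756), (.rw 4, 1), (.rw 5, 5)])))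
(.maj 2 5
(.cut 2 [(0, 1), (1, 1), (2, 1), (3, 1), (9, 1), (18, 1), (11, 1), (19, 1)]
(.lp [[2], [1, 4], [0, 3, 5]] [(.mj 0 1, 229987), (.mj 1 3, 36506), (.mj 4 2, 41340), (.mj 4 5, 23867), (.hz 6 4, 6816304), (.hz 6 5, 1348280), (.hz 7 9, 2615856), (.hz 7 11, 671418), (.hz 0 41, 1411761), (.hz 0 43, 5692173), (.rw 4, 25)]))
(.cut 2 [(0, 1), (1, 1), (2, 1), (3, 1), (9, 1), (18, 1), (11, 1), (19, 1)]
(.lp [[2], [1, 4], [0, 3, 5]] [(.mj 0 1, 113521), (.mj 1 3, 17118), (.mj 4 5, 18175), (.mj 5 2, 23464), (.hz 6 4, 3364525), (.hz 6 5, 665511), (.hz 7 9, 1228538), (.hz 0 19, 2642376), (.hz 6 13, 102421), (.hz 0 41, 419319), (.hz 0 27, 186220), (.hz 0 43, 1939534), (.rw 4, 13)]))))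
(.lp [[2], [1, 4], [0, 3, 5]] [(.mj 1 3, 2), (.mj 4 2, 6), (.mj 4 5, 4), (.hz 6 0, 264), (.hz 5 4, 216), (.hz 5 5, 167), (.hz 4 5, 146), (.hz 0 11, 125), (.hz 0 19, 195), (.hz 1 41, 113), (.hz 0 41, 228), (.hz 0 43, 913)]))
(.haz 3 5 2 5
(.haz 1 4 11 40
(.ask 4
(.mark 7 [3, 4, 6]
(.lp [[1, 4], [2, 6], [0, 3, 5]] [(.mj 0 1, 345), (.mj 1 3, 259), (.mj 5 2, 24), (.hz 7 4, 3770), (.hz 6 5, 18213), (.hz 7 68, 7333), (.hz 0 19, 2527), (.hz 6 69, 141838), (.hz 0 41, 2790), (.hz 0 27, 1779)]))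
(.ask 5
(.mark 7 [3, 4, 6]
(.cut 2 [(0, 1), (1, 1), (2, 1), (3, 1), (9, 1), (11, 1)]
(.lp [[1, 4], [2, 6], [0, 3, 5]] [(.mj 0 1, 5755), (.mj 1 3, 5505), (.mj 5 2, 867), (.mj 5 4, 344), (.hz 0 19, 6889), (.hz 6 69, 2271692), (.hz 6 71, 643682), (.hz 0 27, 58998), (.rw 4, 2)])))
(.cut 2 [(0, 1), (1, 1), (2, 1), (3, 1), (9, 1), (11, 1), (41, 1)]
(.lp [[2], [1, 4], [0, 3, 5]] [(.mj 0 1, 11986), (.mj 1 3, 9464), (.mj 5 2, 981), (.hz 6 5, 613121), (.hz 6 7, 801773), (.hz 0 19, 189324), (.hz 0 27, 8489), (.rw 4, 1)]))))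
(.cut 2 [(0, 1), (1, 1), (2, 1), (3, 1)]
(.lp [[2], [1, 4], [0, 3, 5]] [(.mj 1 3, 6487), (.mj 5 2, 4091), (.hz 7 0, 129664), (.hz 5 4, 105848), (.hz 0 3, 33866), (.hz 6 5, 476317), (.hz 0 9, 97782), (.hz 0 19, 17842), (.hz 0 41, 17842), (.hz 0 27, 297366), (.rw 4, 4)])))
(.lp [[2], [1, 4], [0, 3, 5]] [(.mj 0 1, 5), (.mj 5 2, 3), (.mj 5 4, 1), (.hz 6 1, 1246), (.hz 5 4, 191), (.hz 5 5, 7), (.hz 4 5, 356), (.hz 0 11, 82), (.hz 0 19, 279), (.hz 0 41, 34)]))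
.fin))
(.ask 11
(.mark 11 [2, 4, 5]
(.spn
(.haz 5 27 13 40
(.haz 2 3 3 20
(.lp [[2], [1, 4], [0, 3, 5]] [(.mj 0 1, 14), (.mj 1 3, 5), (.mj 2 5, 6), (.mj 3 2, 14), (.hz 7 3, 861), (.hz 7 19, 3456), (.hz 6 27, 602)])
(.lp [[2], [1, 4], [0, 3, 5]] [(.mj 0 1, 12), (.mj 2 5, 4), (.hz 7 0, 114), (.hz 7 1, 549), (.hz 5 4, 174), (.hz 0 19, 350), (.hz 6 27, 373)]))
(.lp [[2], [1, 4], [0, 3, 5]] [(.mj 0 1, 9), (.mj 1 3, 3), (.mj 2 4, 5), (.mj 3 2, 10), (.hz 6 11, 401), (.hz 0 19, 1193)]))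
(.lp [[2], [1, 4], [0, 3, 5]] [(.mj 0 1, 30), (.mj 1 3, 2), (.mj 4 2, 8), (.mj 4 5, 4), (.hz 5 4, 897), (.hz 5 5, 222), (.hz 0 19, 369), (.hz 5 13, 128), (.hz 0 43, 839)])
(.ask 43
(.mark 43 [2, 4, 6]
(.spn
(.lp [[2], [1, 4], [0, 3, 5, 6]] [(.mj 5 2, 213), (.rw 4, 1)])
(.lp [[2], [1, 4], [0, 3, 5, 6]] [(.mj 0 1, 11769), (.mj 1 3, 883), (.rw 3, 1), (.rw 4, 5), (.hz 5 4, 367781), (.hz 0 3, 86077), (.hz 0 11, 68095), (.hz 0 19, 334150), (.hz 0 27, 306631)])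
(.maj 2 4
(.cut 2 [(0, 1), (1, 1), (2, 1), (3, 1), (9, 1), (11, 1), (43, 1)]
(.cut 4 [(0, 1), (1, 1), (2, 1), (4, 1), (3, 1), (5, 1), (6, 1), (9, 1), (7, 1), (11, 1), (13, 1), (15, 1)]
(.lp [[2], [1, 4], [0, 3, 5, 6]] [(.mj 0 1, 242), (.mj 6 2, 1970), (.hz 0 19, 327230), (.hz 0 27, 495650), (.hz 0 59, 307597), (.rw 5, 6), (.rw 6, 1)])))
(.cut 2 [(0, 1), (1, 1), (2, 1), (3, 1), (9, 1)]
(.cut 2 [(0, 1), (1, 1), (2, 1), (3, 1), (9, 1), (11, 1)]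
(.cut 4 [(0, 1), (1, 1), (2, 1), (3, 1), (9, 1), (11, 1)]
(.lp [[2], [1, 4], [0, 3, 5, 6]] [(.mj 0 1, 18142), (.mj 4 2, 6433), (.hz 0 19, 374674), (.hz 0 107, 241254), (.rw 5, 15), (.rw 6, 4), (.rw 7, 3)])))))
.fin))
(.lp [[2], [1, 4], [0, 3, 5]] [(.mj 5 4, 1), (.rw 3, 1)]))
.fin))
(.lp [[2], [0, 3], [1, 4]] [(.mj 0 1, 5), (.mj 1 3, 1), (.mj 3 2, 2), (.hz 5 4, 163), (.hz 0 19, 175)])))
(.lp [[2], [0, 3], [1, 4]] [(.mj 1 3, 50), (.mj 3 2, 37), (.hz 5 0, 1721), (.hz 2 4, 11468), (.hz 2 5, 9174), (.hz 4 5, 765), (.hz 0 9, 1093)]))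
(.lp [[2], [0, 3], [1, 4]] [(.mj 0 1, 8), (.mj 3 2, 4), (.hz 4 1, 789), (.hz 2 4, 2369), (.hz 2 5, 431), (.hz 0 9, 59), (.hz 0 19, 247)]))
(.lp [[2], [0, 3], [1, 4]] [(.mj 0 1, 11), (.mj 3 2, 5), (.mj 4 3, 6), (.hz 2 4, 2459), (.hz 2 5, 1436), (.hz 1 9, 84), (.hz 0 9, 140), (.hz 3 7, 4210), (.hz 0 19, 273)])
.fin))

theorem run2 : run P3488 (leaf3 218 625) (cutRow P3488) [] t2 s2 = true := by
  decide +kernel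

theorem bad2 : Bad P3488 s2 :=
  run_sound (leaf3_sound P3488 rfl rfl) (cutRow_sound P3488) (
    fun _ h => absurd h List.not_mem_nil) t2 s2 run2

/-- the state above piece 57 of the tree -/
def s57 : St := ⟨[0, 0, 1, 1, 7, 23, 11, 55, 63, 319], [127, 95, 79, 75, 63, 55, 31, 23, 15, 11, 13, 9, 7, 5, 3, 2, 1, 0], [0, 1, 2, 3, 4, 5, 6],
  [(8, 7), (4, 6), (3, 4)],
  [⟨true, 1, 9, 7, 50⟩, ⟨true, 2, 11, 3, 50⟩, ⟨true, 2, 9, 9, 50⟩, ⟨true, 3, 3, 1, 5⟩, ⟨true, 1, 5, 13, 50⟩, ⟨true, 2, 11, 3, 5⟩, ⟨true, 2, 9, 8, 25⟩, ⟨true, 2, 9, 17, 50⟩, ⟨true, 2, 11, 33, 50⟩, ⟨true, 3, 23, 8, 25⟩, ⟨true, 4, 15, 27, 50⟩, ⟨true, 3, 23, 19, 50⟩, ⟨true, 4, 15, 29, 50⟩, ⟨true, 6, 63, 1, 10⟩, ⟨true, 3, 55, 23, 50⟩, ⟨true, 3, 55, 1, 2⟩, ⟨true, 5, 95, 3, 10⟩, ⟨true, 8, 191, 13, 50⟩, ⟨true, 8, 191, 9, 25⟩, ⟨true, 6, 319, 11, 50⟩, ⟨true,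 6, 319, 7, 25⟩, ⟨true, 6, 191, 11, 50⟩, ⟨true, 7, 127, 9, 50⟩, ⟨true, 6, 191, 3, 10⟩, ⟨true, 6, 191, 8, 25⟩, ⟨true, 7, 319, 3, 20⟩],
  [.spn 0 0 651200, .spn 1 1 140426, .spn 3 2 302400, .spn 7 3 140426, .spn 15 4 302400, .spn 31 5 302400, .spn 63 6 140426]⟩

/-- piece 57 of the tree -/
noncomputable def t57 : WN.Tree :=
(.spn
(.con 7 8)
(.mark 319 [6, 7, 9]
(.ask 383
(.mark 383 [7, 9, 10]
(.spn
(.ask 183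
(.mark 511 [9, 10, 11]
(.lp [[1, 6, 10], [3, 8, 9], [0, 2, 4, 5, 7, 11]] [(.mj 2 3, 2629), (.mj 3 4, 1566), (.mj 6 8, 59), (.mj 8 7, 4), (.hz 18 2239, 48265), (.hz 25 831, 11698)]))
(.ask 191
(.mark 511 [9, 10, 11]
(.spn
(.lp [[1, 6, 10], [3, 8, 9], [0, 2, 4, 5, 7, 11]] [(.mj 3 4, 26), (.mj 6 8, 7), (.mj 9 10, 2), (.hz 18 2239, 11451), (.hz 22 895, 2891), (.hz 22 1407, 2142)])
(.ask 1407
(.mark 1535 [9, 11, 12]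
(.spn
(.haz 11 5631 4 25
(.ask 831
(.mark 2047 [11, 12, 13]
(.lp [[1, 7, 11], [3, 6, 10, 12], [0, 2, 4, 5, 8, 9, 13]] [(.mj 6 8, 54), (.mj 7 10, 15), (.mj 8 7, 19), (.mj 9 11, 3), (.mj 9 12, 3), (.hz 18 2239, 52792), (.hz 22 9087, 20111), (.hz 26 5631, 46135), (.hz 26 6143, 37246)]))
(.ask 895
(.mark 2047 [11, 12, 13]
(.spn
(.lp [[1, 7, 11], [3, 6, 10, 12], [0, 2, 4, 5, 8, 9, 13]] [(.mj 3 4, 22260), (.mj 6 8, 23822), (.mj 7 10, 2316), (.mj 9 11, 2531), (.mj 9 12, 1879), (.mj 11 12, 334), (.rw 11, 1), (.hz 18 2239, 35676027), (.hz 22 9087, 3241918), (.hz 22 5503, 2009947), (.hz 26 5631, 35285448)])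
(.haz 10 895 21 50
(.lp [[1, 7, 11], [3, 6, 10, 12], [0, 2, 4, 5, 8, 9, 13]] [(.mj 2 3, 1535), (.mj 6 8, 575), (.mj 7 10, 116), (.mj 8 7, 242), (.mj 9 11, 24), (.mj 9 12, 14), (.hz 18 2239, 505155), (.hz 27 895, 37025), (.hz 27 9087, 98788), (.hz 26 5631, 293667), (.hz 26 6143, 239360)])
(.lp [[1, 7, 11], [3, 6, 10, 12], [0, 2, 4, 5, 8, 9, 13]] [(.mj 6 8, 12727), (.mj 7 10, 122), (.mj 8 7, 1748), (.mj 9 11, 193), (.rw 10, 1), (.hz 27 383, 2156325), (.hz 18 2239, 15463366), (.hz 22 9087, 3049094), (.hz 26 5631, 1127413)]))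
(.ask 9087
(.mark 10239 [11, 12, 14]
(.lp [[1, 7, 11], [3, 6, 10, 12], [0, 2, 4, 5, 8, 9, 13, 14]] [(.mj 3 4, 7160), (.mj 6 8, 6129), (.mj 7 10, 909), (.mj 13 11, 572), (.mj 13 12, 400), (.rw 10, 1), (.hz 18 2239, 9245889), (.hz 22 5503, 219343), (.hz 26 5631, 7700885), (.hz 22 25471, 911241)]))
(.lp [[1, 7, 11], [3, 6, 10, 12], [0, 2, 4, 5, 8, 9, 13]] [(.mj 3 4, 398), (.mj 6 8, 255), (.mj 7 10, 56), (.mj 13 11, 32), (.mj 13 12, 18), (.hz 18 2239, 387268), (.hz 26 5631, 387598)]))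
.fin))
(.lp [[3, 8, 9], [1, 6, 10, 12], [0, 2, 4, 5, 7, 11]] [(.mj 2 3, 2696), (.mj 6 8, 678), (.mj 7 10, 146), (.mj 8 7, 407), (.mj 9 12, 10), (.hz 18 2239, 392085), (.hz 22 5503, 11289), (.hz 26 5631, 112893)])))
(.lp [[3, 8, 9], [1, 6, 10, 12], [0, 2, 4, 5, 7, 11]] [(.mj 2 3, 217), (.mj 6 8, 105), (.mj 7 10, 5), (.mj 8 7, 20), (.mj 9 12, 7), (.hz 26 255, 41343), (.hz 18 2239, 62519), (.hz 26 1535, 32980)]))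
(.haz 9 1407 3 25
(.lp [[3, 8, 9], [1, 6, 10, 12], [0, 2, 4, 5, 7, 11]] [(.mj 3 4, 902), (.mj 6 8, 18), (.mj 7 10, 20), (.mj 11 9, 27), (.mj 11 12, 30), (.hz 22 895, 77016), (.hz 22 5503, 38271), (.hz 26 5503, 118166), (.hz 26 3583, 367616), (.hz 26 5631, 558593)])
(.cut 9 [(0, 1), (1, 1), (2, 1), (3, 1), (5, 1), (9, 1), (7, 1), (11, 1), (13, 1), (15, 1), (23, 1), (75, 1), (31, 1), (55, 1), (79, 1), (63, 1), (95, 1), (183, 1), (127, 1), (191, 1), (319, 1), (255, 1), (383, 1), (447, 1), (2239, 1), (511, 1), (1407, 1), (2303, 1), (1535, 1)]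
(.lp [[3, 8, 9], [1, 6, 10, 12], [0, 2, 4, 5, 7, 11]] [(.mj 6 8, 143316), (.mj 7 10, 101073), (.mj 8 7, 192572), (.mj 11 12, 32776), (.rw 10, 2), (.hz 26 319, 7370745), (.hz 26 383, 173902394), (.hz 22 5503, 18306656), (.rw 11, 19)])))
(.haz 10 895 17 50
(.haz 7 895 6 25
(.haz 10 895 11 25
(.haz 11 1023 1 10
(.haz 10 895 12 25
(.ask 2239
(.mark 2559 [9, 10, 13]
(.lp [[3, 8, 9], [1, 6, 10, 12], [0, 2, 4, 5, 7, 11, 13]] [(.mj 2 3, 4664), (.mj 6 8, 903), (.mj 7 10, 151), (.mj 8 7, 520), (.hz 18 2239, 346798), (.hz 27 895, 215755), (.hz 30 895, 240993), (.hz 18 10431, 566151), (.hz 29 1023, 697812)]))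
(.haz 11 511 11 50
(.lp [[3, 8, 9], [1, 6, 10, 12], [0, 2, 4, 5, 7, 11]] [(.mj 2 3, 434), (.mj 6 8, 136), (.mj 7 10, 57), (.mj 8 7, 87), (.mj 12 11, 30), (.hz 31 511, 81052), (.hz 27 895, 71213), (.hz 30 895, 112573), (.hz 31 1023, 168207), (.hz 31 1535, 69348), (.hz 27 1919, 89715), (.hz 31 2047, 203899)])
(.lp [[3, 8, 9], [1, 6, 10, 12], [0, 2, 4, 5, 7, 11]] [(.mj 2 3, 333), (.mj 6 8, 43), (.mj 8 7, 21), (.hz 31 255, 8222), (.hz 18 2239, 4403), (.hz 25 831, 1638)])))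
(.lp [[3, 8, 9], [1, 6, 10, 12], [0, 2, 4, 5, 7, 11]] [(.mj 2 3, 1475), (.mj 6 8, 319), (.mj 8 7, 154), (.mj 12 9, 8), (.hz 30 383, 78830), (.hz 18 2239, 214582), (.hz 27 895, 151866), (.hz 28 895, 20970), (.hz 29 1023, 420768), (.hz 27 1919, 45619), (.hz 29 2047, 218474)]))
(.lp [[3, 8, 9], [1, 6, 10, 12], [0, 2, 4, 5, 7, 11]] [(.mj 2 3, 199), (.mj 6 8, 26), (.mj 8 7, 12), (.hz 29 191, 17447), (.hz 29 255, 484), (.hz 18 2239, 10982), (.hz 20 831, 39)]))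
(.lp [[3, 8, 9], [1, 6, 10, 12], [0, 2, 4, 5, 7, 11]] [(.mj 2 3, 502), (.mj 6 8, 109), (.mj 8 7, 53), (.mj 12 9, 3), (.hz 28 383, 26689), (.hz 18 2239, 72947), (.hz 27 895, 48819), (.hz 26 895, 4060), (.hz 27 1919, 15869)]))
(.lp [[3, 8, 9], [1, 6, 10, 12], [0, 2, 4, 5, 7, 11]] [(.mj 2 3, 33), (.mj 6 8, 26), (.mj 7 10, 9), (.hz 27 127, 21283), (.hz 27 383, 2822), (.hz 18 2239, 19282), (.hz 22 895, 6098), (.hz 26 895, 7041)]))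
(.lp [[3, 8, 9], [1, 6, 10, 12], [0, 2, 4, 5, 7, 11]] [(.mj 3 4, 9), (.mj 6 8, 4), (.hz 26 383, 1082), (.hz 18 2239, 5458), (.hz 22 895, 1633)]))
.fin))
(.lp [[1, 6, 10], [3, 8, 9], [0, 2, 4, 5, 7, 11]] [(.mj 2 3, 469), (.mj 6 8, 107), (.mj 7 10, 5), (.mj 8 7, 49), (.hz 18 2239, 73165), (.hz 18 2303, 8419), (.hz 22 895, 21389)]))
(.lp [[1, 6, 10], [3, 8, 9], [0, 2, 4, 5, 7, 11]] [(.mj 3 4, 81), (.mj 11 9, 4), (.mj 11 10, 6), (.hz 18 191, 1502), (.hz 22 895, 6470), (.hz 22 1407, 5198)])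
.fin))
(.lp [[1, 7], [3, 6, 10], [0, 2, 4, 5, 8, 9]] [(.mj 2 3, 67), (.mj 6 8, 9), (.mj 8 7, 4), (.hz 25 319, 234)])))
(.lp [[1, 7], [3, 6, 10], [0, 2, 4, 5, 8, 9]] [(.mj 6 8, 1), (.mj 9 7, 1), (.hz 25 319, 1395), (.hz 22 383, 363), (.hz 22 895, 147), (.hz 22 1407, 677)])
(.lp [[1, 7], [3, 6, 10], [0, 2, 4, 5, 8, 9]] [(.mj 5 6, 3), (.mj 6 8, 2), (.mj 10 7, 3), (.hz 22 127, 949), (.hz 25 319, 1817), (.hz 22 383, 1630), (.hz 25 831, 1141)])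
.fin))
(.lp [[1, 7], [3, 6], [0, 2, 4, 5, 8, 9]] [(.mj 6 8, 11), (.mj 8 7, 6), (.hz 25 319, 4762), (.hz 22 895, 2850)])))
.fin
.fin)

theorem run57 : run P3488 (leaf3 218 625) (cutRow P3488) [] t57 s57 = true := by
  decide +kernel

theorem bad57 : Bad P3488 s57 :=
  run_sound (leaf3_sound P3488 rfl rfl) (cutRow_sound P3488) (
    fun _ h => absurd h List.not_mem_nil) t57 s57 run57

/-- the state above piece 211 of the tree -/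
def s211 : St := ⟨[0, 0, 1, 3, 5, 15, 23, 47, 47, 95, 175], [639, 607, 255, 127, 87, 63, 31, 23, 21, 15, 11, 7, 5, 3, 2, 1, 0], [0, 1, 2, 3, 4, 5, 6, 7, 9],
  [(5, 6), (4, 5)],
  [⟨true, 2, 3, 3, 10⟩, ⟨true, 1, 5, 2, 5⟩, ⟨true, 2, 3, 23, 50⟩, ⟨true, 1, 5, 12, 25⟩, ⟨true, 1, 21, 27, 50⟩, ⟨true, 4, 15, 9, 40⟩, ⟨true, 3, 23, 11, 20⟩, ⟨true, 4, 47, 7, 20⟩, ⟨true, 4, 47, 17, 40⟩, ⟨true, 4, 47, 9, 20⟩, ⟨true, 4, 47, 19, 40⟩, ⟨true, 5, 95, 1, 5⟩, ⟨true, 5, 95, 3, 10⟩, ⟨true, 5, 31, 3, 10⟩, ⟨true, 5, 95, 11, 25⟩, ⟨true, 6, 63, 3, 20⟩, ⟨true, 8, 255, 1, 50⟩, ⟨true, 6, 319, 13, 40⟩, ⟨true, 7, 639, 9, 50⟩, ⟨true, 7, 639, 13, 50⟩, ⟨true, 7, 319, 1, 5⟩, ⟨true, 6, 1215, 8, 25⟩, ⟨true, 8, 1215, 3, 50⟩, ⟨true, 9, 383, 6, 25⟩, ⟨true, 6, 319, 21, 50⟩, ⟨true, 8, 639, 1, 10⟩, ⟨true, 10, 767, 2, 25⟩],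
  [.spn 0 0 651200, .spn 1 1 302400, .spn 3 2 302400, .spn 7 3 302400, .spn 15 4 302400, .spn 31 5 302400, .spn 63 6 140426, .spn 127 7 140426, .spn 255 9 140426]⟩

/-- piece 211 of the tree -/
noncomputable def t211 : WN.Tree :=
(.haz 8 1279 1 10
(.ask 767
(.mark 767 [8, 10, 11]
(.spn
(.haz 11 2047 3 10
(.haz 7 895 11 20
(.haz 10 2815 3 20
(.ask 2815
(.haz 7 895 13 20
(.ask 303
(.mark 1023 [10, 11, 13]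
(.spn
(.mark 2815 [8, 10, 12]
(.lp [[8, 13], [1, 3, 5, 7, 10], [0, 2, 4, 6, 9, 11, 12]] [(.mj 8 10, 4459), (.mj 9 8, 5665), (.mj 10 11, 2719), (.rw 10, 1), (.hz 31 895, 1848763), (.hz 25 2815, 27032044), (.hz 30 2815, 10186122), (.hz 30 6911, 11983673)]))
(.mark 3071 [10, 12, 13]
(.spn
(.lp [[8, 13], [1, 3, 5, 7, 10], [0, 2, 4, 6, 9, 11, 12]] [(.mj 8 11, 968), (.mj 9 8, 1924), (.mj 10 12, 566), (.mj 11 10, 1713), (.rw 11, 1), (.hz 30 2815, 3199479), (.hz 31 9087, 2118853), (.hz 26 9215, 56824337), (.hz 30 11263, 46945886)])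
(.lp [[8, 13], [1, 3, 5, 7, 10], [0, 2, 4, 6, 9, 11, 12]] [(.mj 6 7, 4), (.mj 7 9, 8), (.mj 8 11, 10), (.mj 9 8, 19), (.mj 12 10, 13), (.hz 10 1199, 506), (.hz 22 1215, 18942), (.hz 27 1279, 218638), (.hz 25 1791, 43192), (.hz 30 2815, 83514), (.hz 30 3071, 226517)])
(.lp [[8, 13], [1, 3, 5, 7, 10], [0, 2, 4, 6, 9, 11, 12]] [(.mj 6 7, 14), (.mj 7 9, 24), (.mj 8 11, 17), (.mj 9 8, 43), (.mj 13 10, 21), (.hz 10 1199, 1111), (.hz 22 1215, 41553), (.hz 27 1279, 436105), (.hz 25 1791, 354218), (.hz 30 2815, 133245), (.hz 30 3071, 265797), (.hz 30 6911, 57434)])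
.fin))
(.lp [[8, 13], [1, 3, 5, 7, 10], [0, 2, 4, 6, 9, 11, 12]] [(.mj 4 5, 33), (.mj 9 8, 1032), (.mj 13 10, 493), (.mj 13 11, 421), (.rw 9, 1), (.hz 10 1199, 25173), (.hz 22 1215, 1003506), (.hz 27 1279, 12812870), (.hz 25 1791, 1819582), (.hz 30 2815, 3177267), (.hz 30 6911, 1326113)])
.fin))
(.ask 431
(.mark 1023 [10, 11, 13]
(.lp [[8, 13], [1, 3, 5, 7, 10], [0, 2, 4, 6, 9, 11, 12]] [(.mj 3 4, 39), (.mj 6 7, 14), (.mj 9 8, 2), (.hz 10 1199, 864), (.hz 10 1455, 847), (.hz 10 8623, 1140), (.hz 30 2815, 1468), (.hz 30 3071, 6451)]))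
(.haz 10 255 1 4
(.mark 2815 [8, 10, 12]
(.lp [[8], [1, 3, 5, 7, 10], [0, 2, 4, 6, 9, 11, 12]] [(.mj 3 4, 14), (.mj 6 7, 1), (.mj 7 9, 2), (.mj 8 10, 11), (.mj 9 8, 11), (.hz 10 1199, 296), (.hz 32 255, 23719), (.hz 32 511, 254268), (.hz 32 767, 81466), (.hz 31 895, 1377), (.hz 32 1023, 36208), (.hz 32 2815, 108622), (.hz 32 6911, 144829)]))
(.haz 10 767 1 5
(.ask 319
(.mark 3071 [10, 12, 13]
(.lp [[8, 13], [1, 3, 5, 7, 10], [0, 2, 4, 6, 9, 11, 12]] [(.mj 3 4, 471), (.mj 6 7, 125), (.mj 8 10, 59), (.mj 8 11, 22), (.mj 9 8, 110), (.hz 32 175, 95054), (.hz 32 255, 36791), (.hz 24 8511, 13623), (.hz 20 8511, 490816), (.hz 33 767, 86033), (.hz 20 8575, 456496), (.hz 23 8575, 40757), (.hz 33 1023, 2070954), (.hz 33 2815, 928133), (.hz 31 9087, 155030), (.hz 33 9215, 2469412), (.hz 33 6911, 631190)]))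
(.mark 2815 [8, 10, 12]
(.lp [[8], [1, 3, 5, 7, 10], [0, 2, 4, 6, 9, 11, 12]] [(.mj 3 4, 211), (.mj 6 7, 43), (.mj 8 10, 13), (.mj 8 11, 3), (.mj 9 8, 32), (.hz 32 175, 51630), (.hz 32 191, 37566), (.hz 10 1455, 7460), (.hz 33 767, 49261), (.hz 27 1279, 128404), (.hz 33 1023, 172877), (.hz 33 2815, 165599), (.hz 33 6911, 139942)])))
(.lp [[8], [1, 3, 5, 7, 10], [0, 2, 4, 6, 9, 11, 12]] [(.mj 3 4, 355), (.mj 6 7, 46), (.mj 8 11, 14), (.mj 9 8, 60), (.hz 33 175, 93705), (.hz 33 191, 157503), (.hz 24 319, 17561), (.hz 33 255, 140473), (.hz 10 1455, 14808), (.hz 33 767, 191494), (.hz 27 1279, 359144), (.hz 30 2815, 68266)])))))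
(.lp [[8], [1, 3, 5, 7, 10], [0, 2, 4, 6, 9, 11, 12]] [(.mj 3 4, 4), (.mj 6 7, 22), (.mj 7 9, 14), (.mj 9 8, 22), (.hz 31 639, 66794), (.hz 27 1279, 318481), (.hz 29 895, 50673)]))
(.lp [[8], [1, 3, 5, 7, 10], [0, 2, 4, 6, 9, 11]] [(.mj 3 4, 25), (.mj 6 7, 6), (.mj 8 10, 11), (.mj 9 8, 23), (.hz 10 1199, 960), (.hz 22 1215, 15091), (.hz 27 1279, 19231), (.hz 30 3071, 98438)]))
(.lp [[8], [1, 3, 5, 7, 10], [0, 2, 4, 6, 9, 11]] [(.mj 3 4, 115), (.mj 6 7, 7), (.mj 8 11, 22), (.mj 9 8, 49), (.hz 30 175, 11138), (.hz 10 303, 3079), (.hz 30 191, 27413), (.hz 10 431, 2658), (.hz 30 255, 24550), (.hz 30 767, 67135), (.hz 27 1279, 404443), (.hz 26 2815, 85077)]))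
(.lp [[8], [1, 3, 5, 7, 10], [0, 2, 4, 6, 9, 11]] [(.mj 6 7, 1833), (.mj 7 9, 1961), (.mj 9 8, 2117), (.mj 9 10, 284), (.rw 9, 1), (.hz 29 639, 4773893), (.hz 27 1279, 30926487)]))
(.lp [[8], [1, 3, 5, 7, 10], [0, 2, 4, 6, 9, 11]] [(.mj 3 4, 33), (.mj 6 7, 7), (.mj 8 10, 16), (.mj 9 8, 31), (.hz 10 1199, 1264), (.hz 22 1215, 19539), (.hz 28 767, 105704), (.hz 27 1279, 273499), (.hz 26 2815, 34356)]))
(.maj 8 11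
(.cut 8 [(0, 1), (1, 1), (2, 1), (3, 1), (5, 1), (7, 1), (11, 1), (21, 1), (15, 1), (23, 1), (31, 1), (47, 1), (87, 1), (63, 1), (95, 1), (175, 1), (127, 1), (191, 1), (607, 1), (255, 1), (639, 1), (767, 1)]
(.lp [[8], [1, 3, 5, 7, 10], [0, 2, 4, 6, 9, 11]] [(.mj 3 4, 58379), (.mj 6 7, 160790), (.mj 10 8, 70146), (.hz 10 303, 2420112), (.hz 24 319, 3790794), (.hz 25 2815, 1338335075), (.rw 10, 160)]))
(.lp [[8], [1, 3, 5, 7, 10], [0, 2, 4, 6, 9, 11]] [(.mj 3 4, 74), (.mj 6 7, 55), (.mj 10 11, 10), (.mj 11 8, 46), (.hz 10 303, 3051), (.hz 24 319, 4779), (.hz 10 1199, 1640), (.hz 25 639, 50687), (.hz 25 767, 419172), (.hz 27 1279, 738094), (.hz 25 1791, 452314), (.hz 25 2815, 189563)]))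
(.haz 10 255 1 5
(.lp [[8], [1, 3, 5, 7, 10], [0, 2, 4, 6, 9, 11]] [(.mj 3 4, 4657), (.mj 6 7, 514), (.rw 9, 1), (.hz 10 303, 193050), (.hz 24 319, 302388), (.hz 10 431, 24041), (.hz 10 1199, 108546), (.hz 28 255, 5567047), (.hz 25 639, 3207443), (.hz 22 1215, 178895), (.hz 25 767, 11902157), (.hz 28 767, 17117046), (.hz 27 1279, 3343634)])
(.lp [[8], [1, 3, 5, 7, 10], [0, 2, 4, 6, 9, 11]] [(.mj 3 4, 66), (.mj 6 7, 6), (.mj 11 8, 14), (.hz 28 175, 18852), (.hz 10 303, 2749), (.hz 28 191, 34911), (.hz 24 319, 4305), (.hz 10 431, 1637), (.hz 28 255, 22168), (.hz 25 639, 45668), (.hz 25 767, 103296), (.hz 27 1279, 103745), (.hz 26 1023, 53881)]))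
.fin))
(.spn
(.lp [[8], [0, 2, 4, 6, 9], [1, 3, 5, 7, 10]] [(.mj 7 8, 1), (.mj 8 10, 3), (.mj 9 8, 4)])
(.lp [[8], [0, 2, 4, 6, 9], [1, 3, 5, 7, 10]] [(.mj 9 10, 3), (.mj 10 8, 2), (.hz 27 1279, 48280)])
.fin
.fin))
(.lp [[8], [0, 2, 4, 6, 9], [1, 3, 5, 7, 10]] [(.mj 3 4, 13), (.mj 6 7, 5), (.hz 27 47, 2203), (.hz 27 63, 2774), (.hz 27 127, 1699), (.hz 10 1199, 337), (.hz 22 1215, 1777), (.hz 25 767, 7383), (.hz 22 1279, 1477)]))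

theorem run211 : run P3488 (leaf3 218 625) (cutRow P3488) [] t211 s211 = true := by
  decide +kernel

theorem bad211 : Bad P3488 s211 :=
  run_sound (leaf3_sound P3488 rfl rfl) (cutRow_sound P3488) (
    fun _ h => absurd h List.not_mem_nil) t211 s211 run211

/-- the state above piece 112 of the tree -/
def s112 : St := ⟨[0, 0, 1, 3, 5, 7, 15, 21, 79], [95, 31, 15, 11, 7, 5, 3, 2, 1, 0], [0, 1, 2, 3, 4, 6, 5],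
  [],
  [⟨true, 2, 3, 3, 10⟩, ⟨true, 1, 5, 2, 5⟩, ⟨true, 2, 3, 23, 50⟩, ⟨true, 1, 5, 12, 25⟩, ⟨true, 4, 39, 4, 25⟩, ⟨true, 4, 39, 9, 50⟩, ⟨true, 4, 15, 4, 25⟩, ⟨true, 4, 15, 9, 50⟩, ⟨true, 1, 21, 29, 50⟩, ⟨true, 4, 39, 9, 40⟩, ⟨true, 3, 151, 7, 20⟩, ⟨false, 5, 15, 1, 5⟩, ⟨true, 3, 23, 19, 40⟩, ⟨true, 6, 47, 3, 10⟩],
  [.spn 0 0 651200, .spn 1 1 302400, .spn 3 2 302400, .spn 7 3 140426, .spn 15 4 140426, .spn 31 6 140426, .spn 95 5 62723]⟩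

/-- piece 112 of the tree -/
noncomputable def t112 : WN.Tree :=
(.haz 5 151 2 25
(.haz 3 39 23 50
(.haz 4 39 13 50
(.haz 5 351 1 8
(.haz 6 159 7 20
(.haz 5 335 1 10
(.haz 7 351 1 10
(.haz 7 351 7 40
(.ask 39
(.mark 127 [7, 8, 9]
(.spn
(.lp [[5, 9], [0, 2, 4, 7], [1, 3, 6, 8]] [(.mj 3 4, 85327), (.mj 4 6, 170655), (.mj 5 7, 499402), (.mj 6 5, 700179), (.mj 7 8, 325163), (.rw 6, 325), (.rw 7, 39), (.hz 14 151, 133324085), (.hz 19 335, 277848631), (.hz 17 351, 486770595), (.hz 21 351, 148260064)])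
(.haz 7 127 1 5
(.lp [[5, 9], [0, 2, 4, 7], [1, 3, 6, 8]] [(.mj 4 6, 15), (.mj 5 8, 14), (.mj 6 5, 20), (.mj 8 7, 22), (.hz 8 149, 64), (.hz 14 151, 5267), (.hz 15 551, 237), (.hz 16 551, 283), (.hz 14 159, 4757), (.hz 18 159, 1007), (.hz 13 559, 12056), (.hz 12 567, 1864), (.hz 22 127, 187863), (.hz 13 575, 49169), (.hz 21 351, 5707), (.hz 22 639, 522499)])
(.lp [[5, 9], [0, 2, 4, 7], [1, 3, 6, 8]] [(.mj 3 4, 1), (.mj 4 6, 7), (.mj 5 8, 5), (.mj 6 5, 8), (.hz 22 21, 1033), (.hz 22 23, 3977), (.hz 22 31, 10915), (.hz 14 151, 826), (.hz 15 551, 38), (.hz 22 95, 13787), (.hz 13 559, 4825), (.hz 21 351, 2036)]))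
(.lp [[5, 9], [0, 2, 4, 7], [1, 3, 6, 8]] [(.mj 3 4, 74), (.mj 4 6, 355), (.mj 6 5, 886), (.mj 9 7, 439), (.mj 9 8, 293), (.rw 6, 1), (.hz 8 149, 2916), (.hz 14 151, 242006), (.hz 14 159, 756981), (.hz 14 223, 8146), (.hz 21 351, 258504)])
.fin))
(.haz 6 159 17 40
(.haz 7 127 7 40
(.ask 55
(.mark 127 [7, 8, 9]
(.spn
(.lp [[5, 9], [0, 2, 4, 7], [1, 3, 6, 8]] [(.mj 3 4, 106), (.mj 4 6, 48), (.mj 6 5, 1), (.mj 7 8, 10), (.hz 19 335, 534), (.hz 17 351, 4209), (.hz 23 639, 26306)])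
(.lp [[5, 9], [0, 2, 4, 7], [1, 3, 6, 8]] [(.mj 3 4, 18), (.mj 4 6, 32), (.mj 5 8, 18), (.mj 6 5, 25), (.mj 8 7, 30), (.hz 22 159, 767), (.hz 23 127, 40572), (.hz 13 575, 49908), (.hz 21 351, 7690), (.hz 23 639, 79635)])
(.lp [[5, 9], [0, 2, 4, 7], [1, 3, 6, 8]] [(.mj 3 4, 7), (.mj 4 6, 5), (.mj 6 5, 3), (.mj 9 7, 3), (.mj 9 8, 2), (.hz 19 335, 1339), (.hz 23 127, 2481), (.hz 14 223, 2838), (.hz 17 351, 3731), (.hz 21 351, 1671), (.hz 23 639, 4044)])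
.fin))
(.haz 8 255 1 5
(.ask 47
(.mark 127 [7, 8, 9]
(.spn
(.lp [[5, 9], [0, 2, 4, 7], [1, 3, 6, 8]] [(.mj 3 4, 759), (.mj 4 6, 3306), (.mj 5 7, 7965), (.mj 6 5, 8810), (.mj 7 8, 4300), (.rw 7, 1), (.hz 22 159, 139608), (.hz 19 335, 3495971), (.hz 17 351, 9934162), (.hz 21 351, 2364533), (.hz 23 639, 4808293), (.hz 24 767, 70577532)])
(.lp [[5, 9], [0, 2, 4, 7], [1, 3, 6, 8]] [(.mj 4 6, 13), (.mj 5 8, 9), (.mj 6 5, 13), (.mj 8 7, 16), (.hz 8 149, 40), (.hz 14 151, 3382), (.hz 22 159, 586), (.hz 13 559, 8852), (.hz 23 127, 18009), (.hz 13 575, 23999), (.hz 21 351, 3689), (.hz 23 639, 39361)])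
(.lp [[5, 9], [0, 2, 4, 7], [1, 3, 6, 8]] [(.mj 4 6, 4), (.mj 6 5, 3), (.mj 9 7, 6), (.mj 9 8, 4), (.hz 11 15, 9416), (.hz 14 151, 914), (.hz 14 159, 3794), (.hz 19 335, 5297), (.hz 23 127, 1161), (.hz 14 223, 3312), (.hz 17 351, 5844), (.hz 21 351, 3347)])
.fin))
(.haz 5 159 3 20
(.haz 8 127 13 40
(.ask 149
(.mark 223 [5, 8, 9]
(.lp [[5], [1, 3, 6, 8], [0, 2, 4, 7, 9]] [(.mj 3 4, 521), (.mj 4 6, 265), (.mj 5 8, 148), (.mj 6 5, 228), (.hz 23 127, 70658), (.hz 26 127, 615), (.hz 21 351, 13873), (.hz 25 671, 669823), (.hz 25 735, 72236), (.hz 26 767, 111132)]))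
(.maj 7 8
(.lp [[5], [0, 2, 4, 7], [1, 3, 6, 8]] [(.mj 3 4, 35), (.mj 4 6, 49), (.mj 5 7, 67), (.mj 6 5, 86), (.mj 7 8, 55), (.hz 25 159, 58789), (.hz 26 127, 50380), (.hz 17 351, 25162), (.hz 21 351, 19978)])
(.lp [[5], [0, 2, 4, 7], [1, 3, 6, 8]] [(.mj 4 6, 29817), (.mj 5 8, 49155), (.mj 6 5, 77525), (.mj 8 7, 65764), (.hz 14 151, 18376758), (.hz 25 159, 25295796), (.hz 23 127, 83384712), (.hz 26 127, 113062), (.hz 21 351, 21505197)])))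
(.lp [[5], [0, 2, 4, 7], [1, 3, 6, 8]] [(.mj 3 4, 21), (.mj 4 6, 8), (.mj 5 7, 88), (.mj 6 5, 195), (.hz 26 79, 11719), (.hz 26 95, 31338), (.hz 25 159, 244393), (.hz 21 351, 26082)]))
(.lp [[5], [0, 2, 4, 7], [1, 3, 6, 8]] [(.mj 4 6, 21), (.mj 5 7, 29), (.mj 5 8, 10), (.hz 25 31, 31186), (.hz 14 159, 2808), (.hz 22 159, 1062), (.hz 12 183, 3561), (.hz 17 351, 3875), (.hz 21 351, 12995)])))
(.lp [[5], [0, 2, 4, 7], [1, 3, 6, 8]] [(.mj 4 6, 1), (.mj 5 7, 3), (.mj 6 5, 4), (.hz 24 79, 1613), (.hz 24 95, 4239), (.hz 23 127, 1662), (.hz 21 351, 853)])))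
(.lp [[5], [0, 2, 4, 7], [1, 3, 6, 8]] [(.mj 4 6, 12), (.mj 5 8, 4), (.mj 6 5, 11), (.hz 23 21, 184), (.hz 23 23, 687), (.hz 23 31, 1601), (.hz 14 151, 1438), (.hz 23 95, 1934), (.hz 14 159, 3944), (.hz 17 351, 12174), (.hz 21 351, 1672)]))
(.lp [[5], [0, 2, 4, 7], [1, 3, 6, 8]] [(.mj 3 4, 9), (.mj 5 7, 17), (.mj 6 5, 28), (.hz 22 15, 2585), (.hz 22 31, 4047), (.hz 14 151, 8086), (.hz 14 159, 11168), (.hz 18 159, 5750), (.hz 21 351, 5117)])))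
(.lp [[5], [0, 2, 4, 7], [1, 3, 6, 8]] [(.mj 4 6, 62), (.mj 5 8, 21), (.mj 6 5, 57), (.hz 21 21, 929), (.hz 21 23, 3471), (.hz 21 31, 8083), (.hz 14 151, 7260), (.hz 21 95, 9767), (.hz 14 159, 19917), (.hz 17 351, 62189), (.hz 20 351, 36949)]))
(.lp [[5], [0, 2, 4, 7], [1, 3, 6, 8]] [(.mj 4 6, 3), (.mj 5 8, 1), (.mj 6 5, 3), (.hz 20 21, 181), (.hz 20 23, 743), (.hz 20 31, 1730), (.hz 20 95, 1772), (.hz 17 351, 2830)]))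
(.lp [[5], [0, 2, 4, 7], [1, 3, 6, 8]] [(.mj 3 4, 461), (.mj 4 6, 1674), (.mj 5 7, 549), (.rw 6, 2), (.hz 19 7, 155255), (.hz 19 15, 729143), (.hz 19 79, 2017788), (.hz 14 151, 29319), (.hz 18 159, 36437), (.hz 17 351, 4078213)]))
(.lp [[5], [0, 2, 4, 7], [1, 3, 6, 8]] [(.mj 3 4, 6), (.mj 6 5, 1), (.hz 11 15, 2885), (.hz 18 15, 844), (.hz 16 39, 260), (.hz 18 31, 649), (.hz 14 151, 938), (.hz 14 159, 274)]))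
(.lp [[5], [0, 2, 4, 7], [1, 3, 6, 8]] [(.mj 5 7, 107), (.mj 5 8, 167), (.rw 6, 1), (.hz 14 151, 14544), (.hz 17 95, 1986359), (.hz 14 159, 41988)]))
(.lp [[5], [0, 2, 4, 7], [1, 3, 6, 8]] [(.mj 0 1, 260), (.mj 4 6, 37), (.mj 5 8, 1), (.mj 6 5, 15), (.hz 16 7, 6553), (.hz 11 7, 16383), (.hz 9 39, 3809), (.hz 8 149, 2365), (.hz 9 47, 1838), (.hz 13 47, 18386), (.hz 14 151, 1895), (.hz 14 159, 5878)]))
(.lp [[5], [0, 2, 4, 7], [1, 3, 6, 8]] [(.mj 3 4, 1), (.hz 15 7, 63), (.hz 11 7, 454), (.hz 9 39, 37), (.hz 14 151, 10)]))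
(.lp [[5], [0, 2, 4, 7], [1, 3, 6, 8]] [(.mj 5 7, 55), (.mj 5 8, 55), (.hz 14 7, 24122)]))

theorem run112 : run P3488 (leaf3 218 625) (cutRow P3488) [] t112 s112 = true := by
  decide +kernel

theorem bad112 : Bad P3488 s112 :=
  run_sound (leaf3_sound P3488 rfl rfl) (cutRow_sound P3488) (
    fun _ h => absurd h List.not_mem_nil) t112 s112 run112

/-- the state above piece 176 of the tree -/
def s176 : St := ⟨[0, 0, 1, 3, 5, 15, 21, 31, 47, 191, 447], [703, 447, 319, 303, 191, 159, 63, 31, 23, 21, 15, 11, 7, 5, 3, 2, 1, 0], [0, 1, 2, 3, 4, 5, 7, 8, 9],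
  [(5, 6), (4, 5)],
  [⟨true, 2, 3, 3, 10⟩, ⟨true, 1, 5, 2, 5⟩, ⟨true, 2, 3, 23, 50⟩, ⟨true, 1, 5, 12, 25⟩, ⟨true, 1, 21, 27, 50⟩, ⟨true, 4, 15, 9, 40⟩, ⟨true, 3, 23, 11, 20⟩, ⟨true, 4, 47, 7, 20⟩, ⟨true, 4, 47, 17, 40⟩, ⟨true, 4, 47, 9, 20⟩, ⟨true, 4, 47, 19, 40⟩, ⟨true, 3, 87, 27, 40⟩, ⟨true, 5, 95, 1, 4⟩, ⟨true, 5, 159, 1, 4⟩, ⟨true, 7, 127, 7, 40⟩, ⟨true, 7, 95, 1, 5⟩, ⟨true, 8, 127, 9, 50⟩, ⟨true, 5, 95, 2, 5⟩, ⟨true, 6, 191, 3, 50⟩, ⟨true, 4, 303, 13, 25⟩, ⟨true, 5, 95, 12, 25⟩, ⟨true, 8, 767, 7, 25⟩, ⟨true, 9, 1471, 13, 50⟩],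
  [.spn 0 0 651200, .spn 1 1 302400, .spn 3 2 302400, .spn 7 3 302400, .spn 15 4 302400, .spn 31 5 140426, .spn 63 7 140426, .spn 191 8 140426, .spn 447 9 140426]⟩

/-- piece 176 of the tree -/
noncomputable def t176 : WN.Tree :=
(.haz 6 1983 2 25
(.ask 959
(.mark 959 [6, 10, 11]
(.spn
(.haz 10 959 17 50
(.lp [[6], [1, 3, 5, 8, 10], [0, 2, 4, 7, 9, 11]] [(.mj 6 10, 6), (.mj 6 11, 3), (.mj 8 9, 1), (.mj 9 6, 7), (.hz 24 959, 189), (.hz 24 1023, 5706), (.hz 24 3007, 7271)])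
(.haz 11 1983 9 25
(.ask 1471
(.mark 1983 [6, 11, 12]
(.lp [[6], [0, 2, 4, 7, 9, 11], [1, 3, 5, 8, 10, 12]] [(.mj 6 11, 7), (.mj 9 6, 8), (.hz 24 447, 3116), (.hz 18 1471, 3870), (.hz 25 1983, 9291), (.hz 18 5567, 8634), (.hz 22 5567, 158), (.hz 25 6079, 25063)]))
(.lp [[6], [1, 3, 5, 8, 10], [0, 2, 4, 7, 9, 11]] [(.mj 6 10, 16), (.mj 6 11, 34), (.mj 9 6, 47), (.hz 23 1983, 82219), (.hz 25 1983, 117965)]))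
(.lp [[6], [1, 3, 5, 8, 10], [0, 2, 4, 7, 9, 11]] [(.mj 6 10, 1), (.mj 9 6, 2), (.hz 24 959, 1798), (.hz 25 959, 4994), (.hz 18 1471, 3099)])))
(.haz 11 2047 1 25
(.ask 1471
(.mark 1983 [6, 11, 12]
(.spn
(.lp [[6], [0, 2, 4, 7, 9, 11], [1, 3, 5, 8, 10, 12]] [(.mj 0 1, 1670), (.mj 6 11, 208), (.mj 9 10, 584), (.mj 10 6, 1030), (.rw 10, 2), (.hz 18 3007, 3133128), (.hz 23 6079, 4990441)])
(.cut 6 [(0, 1), (1, 1), (2, 1), (3, 1), (5, 1), (7, 1), (11, 1), (21, 1), (15, 1), (23, 1), (31, 1), (47, 1), (63, 1), (159, 1), (303, 1), (191, 1), (319, 1), (447, 1), (703, 1), (959, 1), (1471, 1), (1983, 1)]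
(.lp [[6], [0, 2, 4, 7, 9, 11], [1, 3, 5, 8, 10, 12]] [(.mj 0 1, 22430), (.mj 10 11, 1165), (.mj 11 6, 8464), (.hz 23 1983, 3711349), (.hz 18 5567, 748366), (.hz 22 5567, 743008), (.hz 23 6079, 31529550), (.rw 11, 28)]))
(.cut 6 [(0, 1), (1, 1), (2, 1), (3, 1), (5, 1), (7, 1), (11, 1), (21, 1), (15, 1), (23, 1), (31, 1), (47, 1), (63, 1), (159, 1), (303, 1), (191, 1)]
(.cut 6 [(0, 1), (1, 1), (2, 1), (3, 1), (5, 1), (7, 1), (11, 1), (21, 1), (15, 1), (23, 1), (31, 1), (47, 1), (63, 1), (159, 1), (303, 1), (191, 1), (319, 1), (447, 1), (703, 1)]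
(.lp [[6], [0, 2, 4, 7, 9, 11], [1, 3, 5, 8, 10, 12]] [(.mj 0 1, 24782), (.mj 9 10, 1046), (.mj 12 6, 10166), (.mj 12 11, 605), (.hz 23 1983, 31889095), (.hz 18 3007, 10717682), (.hz 18 5567, 2348018), (.rw 11, 13), (.rw 12, 13)])))
.fin))
(.maj 6 11
(.ask 1983
(.mark 1983 [6, 11, 12]
(.spn
(.haz 12 4031 8 25
(.ask 3007
(.mark 4031 [6, 12, 13]
(.lp [[6], [1, 3, 5, 8, 10, 12], [0, 2, 4, 7, 9, 11, 13]] [(.mj 0 1, 1195), (.mj 6 11, 25), (.mj 6 12, 219), (.mj 10 6, 644), (.rw 10, 1), (.hz 18 3007, 1914874), (.hz 25 4031, 595219), (.hz 18 11199, 730952), (.hz 25 12223, 1299246)]))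
(.lp [[6], [0, 2, 4, 7, 9, 11], [1, 3, 5, 8, 10, 12]] [(.mj 0 1, 17), (.mj 6 11, 10), (.mj 6 12, 19), (.mj 10 6, 25), (.hz 23 4031, 70211), (.hz 25 4031, 103832)]))
(.lp [[6], [0, 2, 4, 7, 9, 11], [1, 3, 5, 8, 10, 12]] [(.mj 6 11, 1), (.mj 10 6, 1), (.hz 25 1983, 3140)]))
(.con 11 6)
(.cut 6 [(0, 1), (1, 1), (2, 1), (3, 1), (5, 1), (7, 1), (11, 1), (21, 1), (15, 1), (23, 1), (31, 1), (47, 1), (63, 1), (159, 1), (303, 1), (191, 1), (319, 1), (447, 1), (703, 1), (959, 1), (1471, 1), (1983, 1)]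
(.lp [[6], [0, 2, 4, 7, 9, 11], [1, 3, 5, 8, 10, 12]] [(.mj 0 1, 3007), (.mj 12 6, 1068), (.rw 11, 4)]))
.fin))
(.lp [[6], [1, 3, 5, 8, 10], [0, 2, 4, 7, 9, 11]] [(.mj 6 11, 1), (.mj 10 6, 1)]))
(.cut 6 [(0, 1), (1, 1), (2, 1), (3, 1), (5, 1), (7, 1), (11, 1), (21, 1), (15, 1), (23, 1), (31, 1), (47, 1), (63, 1), (159, 1), (303, 1), (191, 1)]
(.cut 6 [(0, 1), (1, 1), (2, 1), (3, 1), (5, 1), (7, 1), (11, 1), (21, 1), (15, 1), (23, 1), (31, 1), (47, 1), (63, 1), (159, 1), (303, 1), (191, 1), (319, 1), (703, 1)]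
(.cut 6 [(0, 1), (1, 1), (2, 1), (3, 1), (5, 1), (7, 1), (11, 1), (21, 1), (15, 1), (23, 1), (31, 1), (47, 1), (63, 1), (159, 1), (303, 1), (191, 1), (319, 1), (447, 1)]
(.cut 6 [(0, 1), (1, 1), (2, 1), (3, 1), (5, 1), (7, 1), (11, 1), (21, 1), (15, 1), (23, 1), (31, 1), (47, 1), (63, 1), (159, 1), (303, 1), (191, 1), (319, 1), (447, 1), (1471, 1)]
(.cut 6 [(0, 1), (1, 1), (2, 1), (3, 1), (5, 1), (7, 1), (11, 1), (21, 1), (15, 1), (23, 1), (31, 1), (47, 1), (63, 1), (159, 1), (303, 1), (191, 1), (319, 1), (447, 1), (703, 1), (959, 1)]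
(.lp [[6], [1, 3, 5, 8, 10], [0, 2, 4, 7, 9, 11]] [(.mj 0 1, 25044), (.mj 10 11, 546), (.mj 11 6, 9408), (.hz 23 1983, 17184614), (.rw 10, 13), (.rw 11, 5), (.rw 12, 6), (.rw 13, 2), (.rw 14, 2)]))))))))
(.cut 6 [(0, 1), (1, 1), (2, 1), (3, 1), (5, 1), (7, 1), (11, 1), (21, 1), (15, 1), (23, 1), (31, 1), (47, 1), (63, 1), (159, 1), (303, 1), (191, 1), (319, 1), (447, 1), (703, 1), (959, 1)]
(.lp [[6], [1, 3, 5, 8, 10], [0, 2, 4, 7, 9, 11]] [(.mj 0 1, 74), (.mj 9 10, 1762), (.mj 10 6, 701), (.hz 24 959, 1142201), (.hz 24 1023, 3979356), (.rw 10, 2)])))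
(.ask 3007
(.mark 3007 [6, 10, 12]
(.spn
(.lp [[6], [1, 3, 5, 8, 10], [0, 2, 4, 7, 9, 11, 12]] [(.mj 11 6, 129), (.rw 10, 1)])
(.lp [[6], [1, 3, 5, 8, 10], [0, 2, 4, 7, 9, 11, 12]] [(.mj 10 6, 27), (.mj 10 12, 19), (.mj 11 10, 31), (.hz 23 1983, 427094), (.hz 18 7103, 114010)])
(.cut 6 [(0, 1), (1, 1), (2, 1), (3, 1), (5, 1), (7, 1), (11, 1), (21, 1), (15, 1), (23, 1), (31, 1), (47, 1), (63, 1), (159, 1), (303, 1), (191, 1), (319, 1), (447, 1), (703, 1), (959, 1)]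
(.lp [[6], [1, 3, 5, 8, 10], [0, 2, 4, 7, 9, 11, 12]] [(.mj 0 1, 19240), (.mj 12 6, 7114), (.mj 12 10, 173), (.hz 18 703, 4149309), (.hz 22 1471, 140777), (.hz 22 1535, 4438965), (.rw 11, 22)]))
.fin))
(.lp [[6], [1, 3, 5, 8, 10], [0, 2, 4, 7, 9, 11]] [(.mj 11 10, 1), (.rw 9, 1)]))
.fin))
(.spn
(.lp [[6], [0, 2, 4, 7, 9], [1, 3, 5, 8, 10]] [(.mj 6 10, 1), (.mj 9 6, 1)])
(.cut 6 [(0, 1), (1, 1), (2, 1), (3, 1), (5, 1), (7, 1), (11, 1), (21, 1), (15, 1), (23, 1), (31, 1), (47, 1), (63, 1), (159, 1), (303, 1), (191, 1), (319, 1), (447, 1), (703, 1), (959, 1), (1471, 1)]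
(.lp [[6], [0, 2, 4, 7, 9], [1, 3, 5, 8, 10]] [(.mj 9 10, 6621), (.mj 10 6, 3242), (.hz 23 1983, 21489898), (.rw 10, 2)]))
.fin
.fin))
(.cut 6 [(0, 1), (1, 1), (2, 1), (3, 1), (5, 1), (7, 1), (11, 1), (21, 1), (15, 1), (23, 1), (31, 1), (47, 1), (63, 1), (159, 1), (303, 1), (191, 1), (319, 1), (447, 1), (703, 1)]
(.lp [[6], [0, 2, 4, 7, 9], [1, 3, 5, 8, 10]] [(.mj 0 1, 3598), (.hz 23 959, 25901259), (.hz 23 1471, 16849930), (.hz 23 1983, 4476), (.rw 9, 13)])))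

theorem run176 : run P3488 (leaf3 218 625) (cutRow P3488) [] t176 s176 = true := by
  decide +kernel

theorem bad176 : Bad P3488 s176 :=
  run_sound (leaf3_sound P3488 rfl rfl) (cutRow_sound P3488) (
    fun _ h => absurd h List.not_mem_nil) t176 s176 run176

/-- the state above piece 133 of the tree -/
def s133 : St := ⟨[0, 0, 1, 3, 5, 11, 15, 21, 79, 159], [335, 223, 151, 149, 95, 31, 15, 11, 7, 5, 3, 2, 1, 0], [0, 1, 2, 3, 4, 6, 7, 8],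
  [],
  [⟨true, 2, 3, 3, 10⟩, ⟨true, 1, 5, 2, 5⟩, ⟨true, 2, 3, 23, 50⟩, ⟨true, 1, 5, 12, 25⟩, ⟨true, 1, 21, 27, 50⟩, ⟨true, 4, 15, 9, 40⟩, ⟨true, 3, 23, 11, 20⟩, ⟨true, 4, 79, 7, 25⟩, ⟨true, 6, 63, 6, 25⟩, ⟨true, 4, 15, 17, 50⟩, ⟨true, 3, 151, 29, 50⟩, ⟨true, 5, 351, 1, 25⟩, ⟨true, 4, 335, 9, 25⟩, ⟨true, 7, 63, 1, 5⟩, ⟨true, 7, 351, 7, 25⟩, ⟨true, 5, 335, 1, 25⟩, ⟨true, 5, 479, 3, 50⟩, ⟨true, 4, 335, 2, 5⟩, ⟨true, 5, 335, 3, 50⟩],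
  [.spn 0 0 651200, .spn 1 1 302400, .spn 3 2 302400, .spn 7 3 302400, .spn 15 4 140426, .spn 31 6 140426, .spn 95 7 140426, .spn 223 8 140426]⟩

/-- piece 133 of the tree -/
noncomputable def t133 : WN.Tree :=
(.haz 8 767 9 25
(.ask 351
(.mark 479 [5, 9, 10]
(.spn
(.ask 43
(.mark 511 [9, 10, 11]
(.lp [[5, 11], [0, 2, 4, 7, 9], [1, 3, 6, 8, 10]] [(.mj 5 9, 894), (.mj 6 7, 2658), (.mj 7 8, 4876), (.mj 8 5, 2665), (.rw 7, 1), (.rw 8, 10)]))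
(.ask 47
(.mark 511 [9, 10, 11]
(.lp [[5, 11], [0, 2, 4, 7, 9], [1, 3, 6, 8, 10]] [(.mj 5 9, 894), (.mj 6 7, 2658), (.mj 7 8, 4876), (.mj 8 5, 2665), (.rw 7, 1), (.rw 8, 10)]))
(.ask 111
(.mark 511 [9, 10, 11]
(.lp [[5, 11], [0, 2, 4, 7, 9], [1, 3, 6, 8, 10]] [(.mj 5 9, 894), (.mj 6 7, 2658), (.mj 7 8, 4876), (.mj 8 5, 2665), (.rw 7, 1), (.rw 8, 10)]))
(.ask 367
(.mark 511 [9, 10, 11]
(.lp [[5, 11], [0, 2, 4, 7, 9], [1, 3, 6, 8, 10]] [(.mj 6 7, 15), (.mj 7 8, 11), (.mj 8 5, 1)]))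
(.ask 63
(.mark 511 [9, 10, 11]
(.lp [[5, 11], [0, 2, 4, 7, 9], [1, 3, 6, 8, 10]] [(.mj 3 4, 2693), (.mj 5 9, 68), (.mj 7 5, 362), (.mj 7 8, 1080), (.mj 8 5, 560), (.rw 8, 2)]))
(.haz 5 223 3 25
(.lp [[5], [0, 2, 4, 7, 9], [1, 3, 6, 8, 10]] [(.mj 3 4, 7271), (.mj 5 9, 667), (.mj 7 8, 4480), (.mj 8 5, 3956), (.rw 8, 4), (.hz 20 735, 9854736), (.hz 20 1503, 6161957)])
(.lp [[5], [0, 2, 4, 7, 9], [1, 3, 6, 8, 10]] [(.mj 3 4, 5221), (.mj 5 9, 266), (.mj 7 8, 2377), (.rw 8, 1), (.hz 20 95, 1969449), (.hz 20 159, 326179), (.hz 20 223, 488936), (.hz 18 1375, 1435314), (.hz 16 991, 151407)])))))))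
(.maj 5 10
(.cut 5 [(0, 1), (1, 1), (2, 1), (3, 1), (5, 1), (7, 1), (11, 1), (21, 1), (15, 1), (23, 1), (149, 1), (31, 1), (79, 1), (151, 1), (95, 1), (159, 1), (335, 1), (223, 1), (351, 1), (479, 1)]
(.lp [[5], [0, 2, 4, 7, 9], [1, 3, 6, 8, 10]] [(.mj 6 7, 1627), (.mj 7 8, 619), (.mj 9 5, 900), (.hz 18 1375, 817019), (.hz 14 1375, 126668), (.hz 16 1503, 2672139), (.rw 9, 2)]))
(.cut 5 [(0, 1), (1, 1), (2, 1), (3, 1), (5, 1), (7, 1), (11, 1), (21, 1), (15, 1), (23, 1), (149, 1), (31, 1), (79, 1), (151, 1), (95, 1), (159, 1), (335, 1), (223, 1), (351, 1), (479, 1)]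
(.lp [[5], [0, 2, 4, 7, 9], [1, 3, 6, 8, 10]] [(.mj 3 4, 10612), (.mj 6 7, 7959), (.mj 7 8, 7381), (.mj 9 10, 1100), (.mj 10 5, 10544), (.hz 16 479, 1783831), (.hz 16 991, 8637762), (.rw 9, 26)])))
(.ask 43
(.mark 511 [9, 10, 11]
(.cut 5 [(0, 1), (1, 1), (2, 1), (3, 1), (5, 1), (7, 1), (11, 1), (21, 1), (15, 1), (23, 1), (149, 1), (31, 1), (79, 1), (151, 1), (95, 1), (159, 1), (223, 1)]
(.lp [[5, 11], [0, 2, 4, 7, 9], [1, 3, 6, 8, 10]] [(.mj 3 4, 1047), (.mj 6 7, 1749), (.mj 7 8, 2016), (.mj 10 5, 1475), (.mj 10 9, 150), (.hz 2 2091, 21148), (.hz 9 2095, 249520), (.hz 13 2111, 12268632), (.hz 9 2159, 84487), (.hz 13 2175, 9205735), (.hz 19 767, 1967841), (.rw 9, 4)])))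
(.cut 5 [(0, 1), (1, 1), (2, 1), (3, 1), (5, 1), (7, 1), (11, 1), (21, 1), (15, 1), (23, 1), (149, 1), (31, 1), (79, 1), (151, 1), (95, 1), (159, 1), (335, 1), (223, 1), (351, 1), (479, 1)]
(.lp [[5], [0, 2, 4, 7, 9], [1, 3, 6, 8, 10]] [(.mj 3 4, 95379), (.mj 6 7, 111225), (.mj 7 8, 139716), (.mj 10 5, 121489), (.mj 10 9, 10273), (.hz 9 47, 3318362), (.hz 9 111, 2370259), (.hz 8 703, 56142721), (.hz 19 767, 287162081), (.rw 9, 323)])))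
.fin))
(.ask 479
(.mark 479 [5, 9, 10]
(.spn
(.haz 10 991 17 50
(.haz 5 95 7 50
(.lp [[5], [0, 2, 4, 7, 9], [1, 3, 6, 8, 10]] [(.mj 3 4, 6), (.mj 5 10, 9), (.mj 6 7, 17), (.mj 7 8, 6), (.mj 8 5, 21), (.hz 21 95, 831), (.hz 21 223, 7241), (.hz 21 735, 29374), (.hz 20 991, 10094)])
(.haz 10 991 23 50
(.haz 5 735 2 25
(.haz 5 735 1 10
(.lp [[5], [0, 2, 4, 7, 9], [1, 3, 6, 8, 10]] [(.mj 3 4, 488), (.mj 5 9, 284), (.mj 5 10, 3213), (.mj 6 7, 4981), (.mj 7 8, 1627), (.mj 8 5, 5531), (.rw 8, 1), (.hz 24 735, 43869300), (.hz 22 991, 3741528)])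
(.lp [[5], [0, 2, 4, 7, 9], [1, 3, 6, 8, 10]] [(.mj 3 4, 8), (.mj 5 10, 2), (.hz 24 11, 520), (.hz 24 15, 1358), (.hz 24 31, 293), (.hz 24 79, 3395), (.hz 24 95, 6224), (.hz 22 991, 2318)]))
(.lp [[5], [0, 2, 4, 7, 9], [1, 3, 6, 8, 10]] [(.mj 3 4, 10), (.mj 5 10, 1), (.mj 7 8, 1), (.hz 23 11, 253), (.hz 23 15, 792), (.hz 23 79, 1586), (.hz 22 991, 1324)]))
(.lp [[5], [0, 2, 4, 7, 9], [1, 3, 6, 8, 10]] [(.mj 5 9, 47), (.mj 7 8, 22), (.mj 8 5, 64), (.hz 22 479, 40816), (.hz 16 991, 72915), (.hz 20 991, 27195)])))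
(.lp [[5], [0, 2, 4, 7, 9], [1, 3, 6, 8, 10]] [(.mj 3 4, 1), (.mj 5 9, 2), (.mj 8 5, 3), (.hz 20 479, 1695), (.hz 16 991, 4609)]))
(.cut 5 [(0, 1), (1, 1), (2, 1), (3, 1), (5, 1), (7, 1), (11, 1), (21, 1), (15, 1), (23, 1), (149, 1), (31, 1), (79, 1), (151, 1), (95, 1), (159, 1), (335, 1), (223, 1), (351, 1), (479, 1)]
(.lp [[5], [0, 2, 4, 7, 9], [1, 3, 6, 8, 10]] [(.mj 6 7, 1879), (.mj 9 5, 887), (.mj 9 10, 250), (.hz 16 1503, 755388), (.rw 9, 2)]))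
(.ask 1503
(.mark 1503 [5, 9, 11]
(.spn
(.lp [[5], [0, 2, 4, 7, 9], [1, 3, 6, 8, 10, 11]] [(.mj 10 5, 141), (.rw 9, 1)])
(.lp [[5], [0, 2, 4, 7, 9], [1, 3, 6, 8, 10, 11]] [(.mj 10 9, 2431), (.rw 9, 4), (.hz 16 991, 16159167)])
(.cut 5 [(0, 1), (1, 1), (2, 1), (3, 1), (5, 1), (7, 1), (11, 1), (21, 1), (15, 1), (23, 1), (149, 1), (31, 1), (79, 1), (151, 1), (95, 1), (159, 1), (335, 1), (223, 1), (351, 1), (479, 1)]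
(.lp [[5], [0, 2, 4, 7, 9], [1, 3, 6, 8, 10, 11]] [(.mj 3 4, 4404), (.mj 7 8, 1272), (.mj 11 5, 2307), (.hz 18 335, 287561), (.hz 18 351, 1667198), (.hz 8 703, 1481764), (.hz 19 767, 2422001), (.rw 10, 5)]))
.fin))
(.lp [[5], [0, 2, 4, 7, 9], [1, 3, 6, 8, 10]] [(.mj 10 9, 1), (.rw 8, 1)]))
.fin))
(.cut 5 [(0, 1), (1, 1), (2, 1), (3, 1), (5, 1), (7, 1), (11, 1), (21, 1), (15, 1), (23, 1), (149, 1), (31, 1), (79, 1), (151, 1), (95, 1), (159, 1), (335, 1), (223, 1), (351, 1)]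
(.lp [[5], [1, 3, 6, 8], [0, 2, 4, 7, 9]] [(.mj 6 7, 2423), (.mj 7 8, 422), (.mj 8 5, 1373), (.hz 16 991, 2574761), (.rw 8, 1)]))))
(.cut 5 [(0, 1), (1, 1), (2, 1), (3, 1), (5, 1), (7, 1), (11, 1), (21, 1), (15, 1), (23, 1), (149, 1), (31, 1), (79, 1), (151, 1), (95, 1), (159, 1), (335, 1), (223, 1)]
(.lp [[5], [1, 3, 6, 8], [0, 2, 4, 7, 9]] [(.mj 3 4, 26950), (.mj 8 5, 8218), (.mj 8 9, 3052), (.rw 7, 19), (.hz 19 95, 1092795), (.hz 19 111, 893268), (.hz 19 127, 16112759), (.hz 19 223, 28139797), (.hz 19 255, 23745118), (.rw 8, 21)])))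

theorem run133 : run P3488 (leaf3 218 625) (cutRow P3488) [] t133 s133 = true := by
  decide +kernel

theorem bad133 : Bad P3488 s133 :=
  run_sound (leaf3_sound P3488 rfl rfl) (cutRow_sound P3488) (
    fun _ h => absurd h List.not_mem_nil) t133 s133 run133

/-- the state above piece 262 of the tree -/
def s262 : St := ⟨[0, 0, 1, 5, 7, 7, 23, 55], [39, 23, 7, 5, 3, 2, 1, 0], [0, 1, 2, 4, 5],
  [(6, 3)],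
  [⟨true, 2, 3, 3, 10⟩, ⟨true, 1, 5, 2, 5⟩, ⟨true, 2, 3, 23, 50⟩, ⟨true, 1, 5, 12, 25⟩, ⟨true, 4, 15, 1, 25⟩, ⟨true, 5, 87, 3, 10⟩, ⟨true, 6, 55, 7, 25⟩, ⟨true, 3, 119, 3, 50⟩],
  [.spn 0 0 651200, .spn 1 1 302400, .spn 3 2 651200, .spn 7 4 424061, .spn 23 5 140426]⟩

/-- piece 262 of the tree -/
noncomputable def t262 : WN.Tree :=
(.mark 55 [3, 6, 7]
(.spn
(.con 3 6)
(.haz 5 87 2 5
(.ask 87
(.mark 119 [3, 7, 8]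
(.spn
(.lp [[3], [1, 5, 7], [0, 2, 4, 6, 8]] [(.mj 1 2, 749), (.mj 3 7, 38), (.mj 3 8, 38), (.mj 5 6, 1), (.hz 6 183, 300), (.hz 7 247, 2777), (.hz 7 375, 1543)])
(.maj 3 8
(.cut 3 [(0, 1), (1, 1), (2, 1), (3, 1), (5, 1), (7, 1), (23, 1), (39, 1), (55, 1), (87, 1), (119, 1)]
(.lp [[3], [1, 5, 7], [0, 2, 4, 6, 8]] [(.mj 1 2, 58068), (.mj 4 5, 2325), (.hz 8 343, 871889), (.hz 7 375, 1743778), (.rw 7, 8)]))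
(.ask 183
(.mark 247 [3, 8, 9]
(.spn
(.con 3 8)
(.maj 3 9
(.cut 3 [(0, 1), (1, 1), (2, 1), (3, 1), (5, 1), (7, 1), (23, 1), (39, 1), (55, 1), (87, 1), (119, 1), (183, 1), (247, 1)]
(.lp [[3], [1, 5, 7, 9], [0, 2, 4, 6, 8]] [(.mj 1 2, 51140), (.mj 4 5, 3616), (.mj 6 7, 603), (.mj 7 8, 2411), (.hz 7 759, 2259988), (.rw 8, 7)]))
(.ask 343
(.mark 503 [3, 9, 10]
(.cut 3 [(0, 1), (1, 1), (2, 1), (3, 1), (5, 1), (7, 1), (23, 1), (39, 1), (55, 1), (87, 1), (119, 1)]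
(.cut 3 [(0, 1), (1, 1), (2, 1), (3, 1), (5, 1), (7, 1), (23, 1), (39, 1), (55, 1), (87, 1), (119, 1), (183, 1), (343, 1), (247, 1), (375, 1)]
(.lp [[3], [1, 5, 7, 9], [0, 2, 4, 6, 8, 10]] [(.mj 4 5, 6141), (.mj 6 7, 260), (.mj 7 8, 2526), (.mj 8 9, 1166), (.mj 9 3, 3542), (.hz 8 1367, 952426), (.hz 8 1375, 5580058), (.hz 7 1399, 289142), (.hz 7 1527, 1769670), (.rw 8, 7), (.rw 9, 6)]))))
(.cut 3 [(0, 1), (1, 1), (2, 1), (3, 1), (5, 1), (7, 1), (23, 1), (39, 1), (55, 1), (87, 1), (119, 1), (183, 1), (247, 1)]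
(.cut 3 [(0, 1), (1, 1), (2, 1), (3, 1), (5, 1), (7, 1), (23, 1), (87, 1), (343, 1)]
(.lp [[3], [1, 5, 7, 9], [0, 2, 4, 6, 8]] [(.mj 4 5, 7411), (.mj 7 8, 1378), (.mj 8 3, 380), (.mj 8 9, 54), (.mj 9 3, 2989), (.hz 7 503, 831577), (.rw 8, 4), (.rw 9, 7)])))))
(.cut 3 [(0, 1), (1, 1), (2, 1), (3, 1), (5, 1), (7, 1), (23, 1), (39, 1), (55, 1), (87, 1), (119, 1)]
(.cut 8 [(0, 1), (1, 1), (2, 1), (3, 1), (5, 1), (7, 1), (23, 1), (39, 1), (55, 1), (87, 1), (119, 1), (183, 1), (695, 1)]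
(.lp [[3], [1, 5, 7, 9], [0, 2, 4, 6, 8]] [(.mj 6 7, 6187), (.mj 8 3, 4122), (.mj 9 8, 3988), (.hz 8 343, 126158), (.hz 7 375, 462581), (.hz 7 759, 2567049), (.rw 8, 8), (.rw 9, 1)])))
.fin))
(.ask 247
(.mark 247 [3, 8, 9]
(.spn
(.con 3 8)
(.haz 9 503 1 10
(.maj 3 9
(.cut 3 [(0, 1), (1, 1), (2, 1), (3, 1), (5, 1), (7, 1), (23, 1), (39, 1), (55, 1), (87, 1), (119, 1), (183, 1), (247, 1)]
(.lp [[3], [1, 5, 7, 9], [0, 2, 4, 6, 8]] [(.mj 1 2, 70412), (.mj 7 8, 1600), (.hz 7 759, 2222605), (.rw 8, 10)]))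
(.cut 3 [(0, 1), (1, 1), (2, 1), (3, 1)]
(.cut 3 [(0, 1), (1, 1), (2, 1), (3, 1), (5, 1), (7, 1), (23, 1), (39, 1), (55, 1), (87, 1), (119, 1), (183, 1), (247, 1)]
(.lp [[3], [1, 5, 7, 9], [0, 2, 4, 6, 8]] [(.mj 7 8, 1055), (.mj 8 9, 910), (.mj 9 3, 11128), (.hz 8 351, 7587147), (.hz 7 247, 451616), (.hz 7 503, 2845180), (.rw 8, 6), (.rw 9, 29)]))))
(.lp [[3], [1, 5, 7, 9], [0, 2, 4, 6, 8]] [(.mj 7 8, 116), (.mj 8 3, 65), (.hz 9 247, 61990), (.hz 7 375, 86972), (.hz 7 759, 12118)]))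
(.ask 343
(.mark 375 [3, 7, 10]
(.cut 3 [(0, 1), (1, 1), (2, 1), (3, 1), (5, 1), (7, 1), (23, 1), (39, 1), (55, 1), (87, 1), (119, 1), (183, 1), (343, 1), (247, 1), (375, 1)]
(.lp [[3], [1, 5, 7, 9], [0, 2, 4, 6, 8, 10]] [(.mj 8 3, 617), (.mj 9 3, 1667), (.hz 8 351, 1736545), (.hz 7 503, 142865), (.rw 8, 8)])))
(.cut 3 [(0, 1), (1, 1), (2, 1), (3, 1), (5, 1), (7, 1), (23, 1), (39, 1), (55, 1), (87, 1), (119, 1), (183, 1), (247, 1)]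
(.cut 3 [(0, 1), (1, 1), (2, 1), (3, 1), (5, 1), (7, 1), (23, 1), (87, 1), (343, 1)]
(.cut 8 [(0, 1), (1, 1), (2, 1), (3, 1), (5, 1), (7, 1), (23, 1), (39, 1), (55, 1), (87, 1), (119, 1), (183, 1), (247, 1)]
(.lp [[3], [1, 5, 7, 9], [0, 2, 4, 6, 8]] [(.mj 4 5, 7426), (.mj 9 3, 3057), (.mj 9 8, 1114), (.hz 7 503, 2504788), (.rw 8, 3), (.rw 9, 7), (.rw 10, 1)])))))
.fin))
(.lp [[3], [1, 5, 7], [0, 2, 4, 6, 8]] [(.mj 7 8, 7), (.mj 8 3, 4), (.hz 7 375, 4433)]))))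
(.cut 3 [(0, 1), (1, 1), (2, 1), (3, 1), (5, 1), (7, 1), (23, 1), (39, 1), (55, 1), (87, 1), (119, 1)]
(.lp [[3], [1, 5, 7], [0, 2, 4, 6, 8]] [(.mj 1 2, 14453), (.mj 5 6, 1927), (.mj 8 7, 767), (.hz 6 183, 105314), (.hz 6 191, 351046), (.hz 7 247, 41791), (.rw 7, 2)]))
.fin))
(.ask 119
(.mark 119 [3, 7, 8]
(.spn
(.lp [[3], [1, 5, 7], [0, 2, 4, 6, 8]] [(.mj 1 2, 13013), (.mj 3 8, 212), (.mj 4 5, 1965), (.rw 6, 1), (.hz 7 247, 254307)])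
(.cut 3 [(0, 1), (1, 1), (2, 1), (3, 1), (5, 1), (7, 1), (23, 1), (39, 1), (55, 1), (87, 1), (119, 1)]
(.lp [[3], [1, 5, 7], [0, 2, 4, 6, 8]] [(.mj 4 5, 1076), (.mj 7 8, 72), (.rw 2, 5), (.rw 7, 1)]))
(.ask 375
(.mark 375 [3, 7, 9]
(.spn
(.lp [[3], [1, 5, 7], [0, 2, 4, 6, 8, 9]] [(.mj 8 3, 176), (.rw 7, 1)])
(.cut 3 [(0, 1), (1, 1), (2, 1), (3, 1), (5, 1), (7, 1), (23, 1), (39, 1), (55, 1), (87, 1), (119, 1), (375, 1)]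
(.lp [[3], [1, 5, 7], [0, 2, 4, 6, 8, 9]] [(.mj 7 3, 1328), (.mj 7 9, 1328), (.mj 8 7, 2872), (.rw 7, 1), (.rw 8, 6)]))
(.ask 887
(.mark 887 [3, 7, 10]
(.spn
(.lp [[3], [1, 5, 7], [0, 2, 4, 6, 8, 9, 10]] [(.mj 9 3, 76), (.rw 8, 1)])
(.lp [[3], [1, 5, 7], [0, 2, 4, 6, 8, 9, 10]] [(.mj 9 7, 1180), (.rw 8, 2)])
(.cut 3 [(0, 1), (1, 1), (2, 1), (3, 1), (5, 1), (7, 1), (23, 1), (39, 1), (55, 1), (87, 1), (119, 1), (375, 1), (887, 1)]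
(.lp [[3], [1, 5, 7], [0, 2, 4, 6, 8, 9, 10]] [(.mj 4 5, 624), (.mj 10 3, 278), (.hz 7 119, 9034), (.hz 7 375, 3309), (.rw 9, 1)]))
.fin))
(.lp [[3], [1, 5, 7], [0, 2, 4, 6, 8, 9]] [(.mj 9 7, 1), (.rw 7, 1)]))
.fin))
(.lp [[3], [1, 5, 7], [0, 2, 4, 6, 8]] [(.mj 8 7, 1), (.rw 6, 1)]))
.fin))
(.lp [[3], [1, 5, 7], [0, 2, 4, 6]] [(.mj 1 2, 5), (.mj 4 5, 1), (.hz 8 95, 376), (.hz 7 119, 37), (.hz 7 247, 87)])))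
(.cut 3 [(0, 1), (1, 1), (2, 1), (3, 1), (5, 1), (7, 1), (23, 1)]
(.lp [[3], [1, 5, 7], [0, 2, 4, 6]] [(.mj 1 2, 23266), (.mj 5 6, 3290), (.hz 8 23, 1762540), (.hz 6 63, 443212), (.rw 6, 1)])))
(.lp [[3], [1, 5, 7], [0, 2, 4, 6]] [(.mj 4 5, 161), (.mj 7 6, 134), (.rw 2, 1), (.hz 6 55, 26644), (.hz 7 119, 58969), (.hz 6 183, 1667), (.hz 7 247, 13892)])
.fin))

theorem run262 : run P3488 (leaf3 218 625) (cutRow P3488) [] t262 s262 = true := by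
  decide +kernel

theorem bad262 : Bad P3488 s262 :=
  run_sound (leaf3_sound P3488 rfl rfl) (cutRow_sound P3488) (
    fun _ h => absurd h List.not_mem_nil) t262 s262 run262

end Pool.Agent.WN.Data
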