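import Pool.Agent.WN.CutRow
import Pool.Agent.WN.LeafRow
import Pool.Agent.Helper99.WN.ParDef
import Pool.Agent.WN.Data.D13

/-!
# The search tree, part 18
-/

set_option autoImplicit false

namespace Pool.Agent.WN.Data

open Pool.Agent.W3 Pool.Agent.WN Pool.Agent.Helper99.WN

/-- the state above piece 150 of the tree -/
def s150 : St := ⟨[0, 0, 1, 3, 5, 15, 15, 47, 23, 287, 175], [447, 319, 279, 63, 31, 21, 15, 11, 7, 5, 3, 2, 1, 0], [0, 1, 2, 3, 4, 5, 8, 7, 9],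
  [(4, 5)],
  [⟨true, 2, 3, 3, 10⟩, ⟨true, 1, 5, 2, 5⟩, ⟨true, 2, 3, 23, 50⟩, ⟨true, 1, 5, 12, 25⟩, ⟨true, 1, 21, 27, 50⟩, ⟨true, 4, 15, 9, 40⟩, ⟨true, 3, 23, 11, 20⟩, ⟨true, 1, 21, 29, 50⟩, ⟨true, 8, 95, 7, 40⟩, ⟨true, 4, 79, 13, 40⟩, ⟨true, 8, 95, 1, 4⟩, ⟨true, 7, 383, 3, 10⟩, ⟨true, 6, 191, 3, 40⟩],
  [.spn 0 0 651200, .spn 1 1 302400, .spn 3 2 302400, .spn 7 3 302400, .spn 15 4 140426, .spn 31 5 140426, .spn 63 8 140426, .spn 319 7 140426, .spn 447 9 140426]⟩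

/-- piece 150 of the tree -/
noncomputable def t150 : WN.Tree :=
(.haz 4 1199 17 40
(.haz 10 959 1 8
(.maj 6 10
(.ask 799
(.mark 959 [6, 10, 11]
(.cut 6 [(0, 1), (1, 1), (2, 1), (3, 1), (5, 1), (7, 1), (11, 1), (21, 1), (15, 1), (23, 1), (31, 1), (47, 1), (279, 1), (63, 1), (175, 1), (287, 1), (191, 1), (319, 1), (447, 1)]
(.lp [[6], [1, 3, 5, 7, 10], [0, 2, 4, 8, 9, 11]] [(.mj 5 8, 652), (.mj 6 10, 150), (.mj 7 9, 360), (.mj 8 7, 417), (.mj 9 6, 705), (.hz 13 1199, 25413), (.hz 12 1215, 886069), (.hz 12 1471, 1903679), (.hz 12 3007, 650462), (.hz 14 3007, 1624725), (.rw 9, 1)])))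
(.ask 831
(.mark 959 [6, 10, 11]
(.cut 6 [(0, 1), (1, 1), (2, 1), (3, 1), (5, 1), (7, 1), (11, 1), (21, 1), (15, 1), (23, 1), (31, 1), (47, 1), (279, 1), (63, 1), (175, 1), (287, 1), (191, 1), (319, 1), (447, 1)]
(.lp [[6], [1, 3, 5, 7, 10], [0, 2, 4, 8, 9, 11]] [(.mj 5 8, 7329), (.mj 6 10, 1090), (.mj 7 9, 3837), (.mj 8 7, 4639), (.mj 9 6, 7223), (.hz 13 1199, 274730), (.hz 12 1215, 9578923), (.hz 12 1471, 20565793), (.hz 12 3007, 4461115), (.hz 14 3007, 10725818), (.rw 9, 13)])))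
(.haz 10 447 1 4
(.cut 6 [(0, 1), (1, 1), (2, 1), (3, 1), (5, 1), (7, 1), (11, 1), (21, 1), (15, 1), (23, 1), (31, 1), (47, 1), (279, 1), (63, 1), (175, 1), (287, 1), (191, 1), (319, 1), (447, 1)]
(.cut 6 [(0, 1), (1, 1), (2, 1), (3, 1), (5, 1), (7, 1), (11, 1), (21, 1), (15, 1), (23, 1), (31, 1), (47, 1), (279, 1), (63, 1), (175, 1), (287, 1), (191, 1), (319, 1), (799, 1), (447, 1), (831, 1)]
(.lp [[6], [0, 2, 4, 8, 9], [1, 3, 5, 7, 10]] [(.mj 5 8, 31368), (.mj 8 7, 18259), (.mj 9 6, 18259), (.hz 12 1215, 17751788), (.hz 15 511, 1181111669), (.rw 9, 37), (.rw 10, 18)])))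
(.cut 6 [(0, 1), (1, 1), (2, 1), (3, 1), (5, 1), (7, 1), (11, 1), (21, 1), (15, 1), (23, 1), (31, 1), (47, 1), (279, 1), (63, 1), (175, 1), (287, 1), (191, 1), (319, 1), (447, 1)]
(.lp [[6], [0, 2, 4, 8, 9], [1, 3, 5, 7, 10]] [(.mj 5 8, 2101), (.mj 8 7, 102), (.mj 9 6, 886), (.hz 15 175, 816096), (.hz 15 191, 2968311), (.hz 15 447, 1035947), (.hz 12 1215, 404885), (.hz 12 1471, 2618452), (.rw 9, 2)])))))
(.ask 799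
(.mark 959 [6, 10, 11]
(.cut 6 [(0, 1), (1, 1), (2, 1), (3, 1), (5, 1), (7, 1), (11, 1), (21, 1), (15, 1), (23, 1), (31, 1), (47, 1), (279, 1), (63, 1), (175, 1), (287, 1), (191, 1), (319, 1), (447, 1)]
(.lp [[6], [1, 3, 5, 7, 10], [0, 2, 4, 8, 9, 11]] [(.mj 5 8, 3007), (.mj 8 7, 867), (.mj 9 10, 1360), (.mj 10 6, 2057), (.hz 12 447, 101341), (.hz 13 1263, 204782), (.hz 12 1471, 3033100), (.hz 12 3007, 7171681), (.rw 9, 5)])))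
(.ask 831
(.mark 959 [6, 10, 11]
(.spn
(.con 6 10)
(.ask 1199
(.mark 1983 [6, 11, 12]
(.cut 6 [(0, 1), (1, 1), (2, 1), (3, 1), (5, 1), (7, 1), (11, 1), (21, 1), (15, 1), (23, 1), (31, 1), (47, 1), (279, 1), (63, 1), (175, 1), (287, 1), (191, 1), (319, 1), (799, 1), (1199, 1), (447, 1), (1215, 1), (5295, 1), (1471, 1), (5311, 1), (5567, 1)]
(.cut 6 [(0, 1), (1, 1), (2, 1), (3, 1), (5, 1), (7, 1), (11, 1), (21, 1), (15, 1), (23, 1), (31, 1), (47, 1), (279, 1), (63, 1), (175, 1), (191, 1), (1199, 1), (1215, 1), (5295, 1), (5311, 1)]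
(.cut 6 [(0, 1), (1, 1), (2, 1), (3, 1), (5, 1), (7, 1), (11, 1), (21, 1), (15, 1), (23, 1), (31, 1), (47, 1), (279, 1), (63, 1), (175, 1), (287, 1), (191, 1)]
(.cut 6 [(0, 1), (1, 1), (2, 1), (3, 1), (5, 1), (7, 1), (11, 1), (21, 1), (15, 1), (23, 1), (31, 1), (47, 1), (279, 1), (63, 1), (175, 1), (287, 1), (191, 1), (319, 1), (447, 1)]
(.lp [[6], [0, 2, 4, 8, 9, 11], [1, 3, 5, 7, 10, 12]] [(.mj 5 8, 43126), (.mj 7 9, 2949), (.mj 8 7, 27966), (.mj 9 10, 6337), (.mj 10 6, 30981), (.hz 12 447, 7333050), (.hz 13 1263, 3173757), (.hz 13 5295, 26309), (.hz 12 959, 10571801), (.hz 12 5311, 1066411), (.hz 12 3007, 87708635), (.rw 10, 1), (.rw 11, 1), (.rw 12, 39), (.rw 13, 38)]))))))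
(.cut 6 [(0, 1), (1, 1), (2, 1), (3, 1), (5, 1), (7, 1), (11, 1), (21, 1), (15, 1), (23, 1), (31, 1), (47, 1), (279, 1), (63, 1), (175, 1), (191, 1)]
(.cut 6 [(0, 1), (1, 1), (2, 1), (3, 1), (5, 1), (7, 1), (11, 1), (21, 1), (15, 1), (23, 1), (31, 1), (47, 1), (279, 1), (63, 1), (287, 1), (319, 1)]
(.cut 6 [(0, 1), (1, 1), (2, 1), (3, 1), (5, 1), (7, 1), (11, 1), (21, 1), (15, 1), (23, 1), (31, 1), (47, 1), (279, 1), (63, 1), (175, 1), (287, 1), (191, 1), (319, 1), (1199, 1), (447, 1)]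
(.cut 6 [(0, 1), (1, 1), (2, 1), (3, 1), (5, 1), (7, 1), (11, 1), (21, 1), (15, 1), (23, 1), (31, 1), (47, 1), (279, 1), (63, 1), (175, 1), (287, 1), (191, 1), (319, 1), (799, 1), (1199, 1), (447, 1), (831, 1), (1215, 1), (959, 1)]
(.cut 6 [(0, 1), (1, 1), (2, 1), (3, 1), (5, 1), (7, 1), (11, 1), (21, 1), (15, 1), (23, 1), (31, 1), (47, 1), (279, 1), (63, 1), (287, 1), (319, 1), (799, 1), (831, 1)]
(.lp [[6], [1, 3, 5, 7, 10], [0, 2, 4, 8, 9, 11]] [(.mj 5 8, 1585430), (.mj 7 9, 20572), (.mj 8 7, 932452), (.mj 9 10, 327066), (.mj 10 6, 1051102), (.hz 12 3007, 2088229745), (.rw 10, 1468), (.rw 11, 497), (.rw 12, 716), (.rw 13, 130), (.rw 14, 330)])))))))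
(.lp [[6], [1, 3, 5, 7, 10], [0, 2, 4, 8, 9, 11]] [(.mj 7 9, 12), (.mj 8 7, 1), (.mj 10 6, 12), (.mj 11 10, 9), (.hz 12 191, 1117), (.hz 13 1199, 375), (.hz 12 1215, 11969), (.hz 12 959, 42191), (.hz 14 959, 35105), (.hz 12 1471, 28370), (.hz 12 3007, 61296)])
.fin))
(.ask 959
(.mark 959 [6, 10, 11]
(.cut 6 [(0, 1), (1, 1), (2, 1), (3, 1), (5, 1), (7, 1), (11, 1), (21, 1), (15, 1), (23, 1), (31, 1), (47, 1), (279, 1), (63, 1), (175, 1), (287, 1), (191, 1)]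
(.cut 6 [(0, 1), (1, 1), (2, 1), (3, 1), (5, 1), (7, 1), (11, 1), (21, 1), (15, 1), (23, 1), (31, 1), (47, 1), (279, 1), (63, 1), (175, 1), (287, 1), (191, 1), (319, 1), (1199, 1), (447, 1), (1215, 1), (1471, 1)]
(.cut 6 [(0, 1), (1, 1), (2, 1), (3, 1), (5, 1), (7, 1), (11, 1), (21, 1), (15, 1), (23, 1), (31, 1), (47, 1), (279, 1), (63, 1), (287, 1), (319, 1)]
(.cut 6 [(0, 1), (1, 1), (2, 1), (3, 1), (5, 1), (7, 1), (11, 1), (21, 1), (15, 1), (23, 1), (31, 1), (47, 1), (279, 1), (63, 1), (175, 1), (287, 1), (191, 1), (319, 1), (799, 1), (447, 1)]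
(.cut 6 [(0, 1), (1, 1), (2, 1), (3, 1), (5, 1), (7, 1), (11, 1), (21, 1), (15, 1), (23, 1), (31, 1), (47, 1), (279, 1), (63, 1), (287, 1), (319, 1), (799, 1), (831, 1)]
(.lp [[6], [1, 3, 5, 7, 10], [0, 2, 4, 8, 9, 11]] [(.mj 5 8, 921025), (.mj 8 7, 931792), (.mj 10 6, 677336), (.hz 13 1263, 28747567), (.hz 12 3007, 963931478), (.rw 9, 68), (.rw 10, 41), (.rw 11, 1227), (.rw 12, 189), (.rw 13, 520)])))))))
(.lp [[6], [0, 2, 4, 8, 9], [1, 3, 5, 7, 10]] [(.mj 9 10, 3), (.mj 10 6, 2), (.hz 12 1215, 4351), (.hz 12 1471, 10856)])))))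
(.cut 6 [(0, 1), (1, 1), (2, 1), (3, 1), (5, 1), (7, 1), (11, 1), (21, 1), (15, 1), (23, 1), (31, 1), (47, 1), (279, 1), (63, 1), (175, 1), (287, 1), (191, 1), (319, 1), (447, 1)]
(.lp [[6], [0, 2, 4, 8, 9], [1, 3, 5, 7, 10]] [(.mj 5 8, 8460), (.mj 8 7, 778), (.mj 9 6, 3742), (.hz 14 175, 11652167), (.hz 14 191, 2638112), (.hz 9 239, 335436), (.hz 10 1279, 14560785), (.rw 9, 8)])))
(.lp [[6], [0, 2, 4, 8, 9], [1, 3, 5, 7, 10]] [(.mj 0 1, 28), (.mj 5 8, 1), (.hz 13 15, 192)]))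

theorem run150 : run P3488 (leaf3 218 625) (cutRow P3488) [] t150 s150 = true := by
  decide +kernel

theorem bad150 : Bad P3488 s150 :=
  run_sound (leaf3_sound P3488 rfl rfl) (cutRow_sound P3488) (
    fun _ h => absurd h List.not_mem_nil) t150 s150 run150

/-- the state above piece 132 of the tree -/
def s132 : St := ⟨[0, 0, 1, 3, 5, 11, 15, 21, 79, 151], [335, 223, 149, 95, 31, 15, 11, 7, 5, 3, 2, 1, 0], [0, 1, 2, 3, 4, 6, 7, 8],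
  [],
  [⟨true, 2, 3, 3, 10⟩, ⟨true, 1, 5, 2, 5⟩, ⟨true, 2, 3, 23, 50⟩, ⟨true, 1, 5, 12, 25⟩, ⟨true, 1, 21, 27, 50⟩, ⟨true, 4, 15, 9, 40⟩, ⟨true, 3, 23, 11, 20⟩, ⟨true, 4, 79, 7, 25⟩, ⟨true, 6, 63, 6, 25⟩, ⟨true, 4, 15, 17, 50⟩, ⟨true, 3, 151, 29, 50⟩, ⟨true, 5, 351, 1, 25⟩, ⟨true, 4, 335, 9, 25⟩, ⟨true, 7, 63, 1, 5⟩, ⟨true, 7, 351, 7, 25⟩, ⟨true, 8, 767, 11, 40⟩, ⟨true, 5, 335, 1, 25⟩, ⟨true, 5, 351, 3, 50⟩, ⟨true, 5, 335, 3, 50⟩],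
  [.spn 0 0 651200, .spn 1 1 302400, .spn 3 2 302400, .spn 7 3 302400, .spn 15 4 140426, .spn 31 6 140426, .spn 95 7 140426, .spn 223 8 140426]⟩

/-- piece 132 of the tree -/
noncomputable def t132 : WN.Tree :=
(.haz 4 47 2 5
(.haz 6 671 3 10
(.haz 6 671 9 20
(.haz 8 735 13 40
(.ask 351
(.mark 479 [5, 9, 10]
(.spn
(.haz 9 479 1 4
(.lp [[5], [0, 2, 4, 7, 9], [1, 3, 6, 8, 10]] [(.mj 5 9, 4076), (.mj 5 10, 701), (.mj 7 8, 2956), (.mj 8 5, 4076), (.rw 8, 1), (.hz 23 479, 11699343), (.hz 17 1375, 1658919), (.hz 23 511, 42034236), (.hz 23 1503, 52334994)])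
(.lp [[5], [0, 2, 4, 7, 9], [1, 3, 6, 8, 10]] [(.mj 3 4, 837), (.mj 7 8, 2839), (.mj 8 5, 1663), (.rw 8, 2), (.hz 23 151, 861287), (.hz 23 159, 3570149), (.hz 23 223, 8914702), (.hz 23 479, 5115451), (.hz 17 1375, 2889074), (.hz 17 991, 1419645)]))
(.maj 5 10
(.cut 5 [(0, 1), (1, 1), (2, 1), (3, 1), (5, 1), (7, 1), (11, 1), (21, 1), (15, 1), (23, 1), (149, 1), (31, 1), (79, 1), (151, 1), (95, 1), (159, 1), (335, 1), (663, 1), (223, 1), (351, 1), (479, 1)]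
(.cut 5 [(0, 1), (1, 1), (2, 1), (3, 1), (5, 1), (7, 1), (11, 1), (21, 1), (15, 1), (23, 1), (149, 1), (31, 1), (79, 1), (151, 1), (95, 1), (159, 1), (335, 1), (663, 1), (223, 1), (351, 1), (671, 1), (479, 1), (735, 1)]
(.lp [[5], [0, 2, 4, 7, 9], [1, 3, 6, 8, 10]] [(.mj 3 4, 84535), (.mj 7 8, 16935), (.mj 9 5, 32947), (.hz 2 43, 567730), (.hz 19 47, 30515480), (.hz 19 111, 16322234), (.hz 18 335, 3133839), (.hz 10 663, 1682178), (.hz 17 351, 16484605), (.hz 21 703, 5962351), (.hz 17 1375, 7942566), (.hz 14 1375, 2881285), (.hz 17 1503, 62853845), (.rw 9, 33), (.rw 10, 2)])))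
(.cut 5 [(0, 1), (1, 1), (2, 1), (3, 1), (5, 1), (7, 1), (11, 1), (21, 1), (15, 1), (23, 1), (149, 1), (31, 1), (79, 1), (151, 1), (95, 1), (159, 1), (335, 1), (663, 1), (223, 1), (351, 1), (479, 1)]
(.cut 5 [(0, 1), (1, 1), (2, 1), (3, 1), (5, 1), (7, 1), (11, 1), (21, 1), (15, 1), (23, 1), (149, 1), (31, 1), (79, 1), (151, 1), (95, 1), (159, 1), (335, 1), (663, 1), (671, 1)]
(.lp [[5], [0, 2, 4, 7, 9], [1, 3, 6, 8, 10]] [(.mj 3 4, 263173), (.mj 7 8, 65820), (.mj 9 10, 12884), (.mj 10 5, 102309), (.hz 2 43, 2158922), (.hz 19 47, 116042070), (.hz 13 63, 145727251), (.hz 19 111, 62069014), (.hz 18 335, 12238309), (.hz 10 663, 9282160), (.hz 17 351, 19127869), (.hz 17 479, 40609680), (.hz 17 991, 101533700), (.rw 9, 107), (.rw 10, 22)]))))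
(.ask 663
(.mark 991 [5, 10, 11]
(.cut 5 [(0, 1), (1, 1), (2, 1), (3, 1), (5, 1), (7, 1), (11, 1), (21, 1), (15, 1), (23, 1), (149, 1), (31, 1), (79, 1), (151, 1), (95, 1), (159, 1), (335, 1), (663, 1), (223, 1), (351, 1), (671, 1), (2711, 1), (479, 1), (735, 1), (991, 1)]
(.lp [[5], [1, 3, 6, 8, 10], [0, 2, 4, 7, 9, 11]] [(.mj 3 4, 1711), (.mj 7 8, 892), (.mj 10 5, 851), (.mj 10 9, 79), (.hz 2 43, 11493), (.hz 19 47, 617735), (.hz 19 111, 330417), (.hz 18 335, 29952), (.hz 10 2711, 265859), (.hz 21 703, 1388920), (.hz 21 2719, 404), (.rw 9, 2)])))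
(.cut 5 [(0, 1), (1, 1), (2, 1), (3, 1), (5, 1), (7, 1), (11, 1), (21, 1), (15, 1), (23, 1), (149, 1), (31, 1), (79, 1), (151, 1), (95, 1), (159, 1), (335, 1), (663, 1), (223, 1), (351, 1), (479, 1)]
(.lp [[5], [0, 2, 4, 7, 9], [1, 3, 6, 8, 10]] [(.mj 3 4, 291), (.mj 7 8, 604), (.mj 10 5, 419), (.mj 10 9, 240), (.hz 2 43, 1951), (.hz 19 47, 104892), (.hz 19 111, 56105), (.hz 18 335, 99002), (.hz 21 703, 920105), (.hz 22 735, 106613), (.hz 22 767, 1231939), (.rw 9, 1)])))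
.fin))
(.ask 479
(.mark 479 [5, 9, 10]
(.spn
(.haz 10 991 13 40
(.haz 10 991 9 20
(.haz 5 223 1 8
(.lp [[5], [0, 2, 4, 7, 9], [1, 3, 6, 8, 10]] [(.mj 3 4, 1), (.mj 5 10, 4), (.mj 6 7, 7), (.mj 7 8, 2), (.mj 8 5, 8), (.hz 2 43, 7), (.hz 19 47, 608), (.hz 25 223, 12663), (.hz 21 671, 245), (.hz 25 735, 77968), (.hz 24 991, 12747)])
(.lp [[5], [0, 2, 4, 7, 9], [1, 3, 6, 8, 10]] [(.mj 3 4, 116), (.mj 5 10, 35), (.mj 8 5, 4), (.hz 25 11, 8976), (.hz 25 15, 23722), (.hz 25 31, 3607), (.hz 25 79, 65428), (.hz 25 95, 100763), (.hz 25 223, 52028), (.hz 17 991, 34083), (.hz 24 991, 102248)]))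
(.lp [[5], [0, 2, 4, 7, 9], [1, 3, 6, 8, 10]] [(.mj 3 4, 18), (.mj 5 9, 10), (.mj 7 8, 5), (.mj 8 5, 19), (.hz 24 479, 25887), (.hz 17 991, 28338), (.hz 23 991, 7173)]))
(.lp [[5], [0, 2, 4, 7, 9], [1, 3, 6, 8, 10]] [(.mj 3 4, 13), (.mj 5 9, 10), (.mj 7 8, 5), (.mj 8 5, 15), (.hz 23 479, 9074)]))
(.lp [[5], [0, 2, 4, 7, 9], [1, 3, 6, 8, 10]] [(.mj 3 4, 74), (.mj 9 5, 27), (.mj 9 10, 5), (.hz 2 43, 563), (.hz 19 47, 30219), (.hz 13 63, 25827), (.hz 19 111, 20205), (.hz 19 367, 12123), (.hz 17 479, 23067), (.hz 17 991, 23345), (.hz 17 1503, 29126)])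
(.ask 1503
(.mark 1503 [5, 9, 11]
(.spn
(.lp [[5], [0, 2, 4, 7, 9], [1, 3, 6, 8, 10, 11]] [(.mj 10 5, 141), (.rw 9, 1)])
(.lp [[5], [0, 2, 4, 7, 9], [1, 3, 6, 8, 10, 11]] [(.mj 3 4, 5350), (.rw 8, 1), (.rw 9, 3), (.hz 2 43, 35929), (.hz 19 47, 1931181), (.hz 19 111, 1032957), (.hz 17 351, 59245), (.hz 19 367, 1032957), (.hz 17 479, 2047480), (.hz 17 991, 6539572)])
(.cut 5 [(0, 1), (1, 1), (2, 1), (3, 1), (5, 1), (7, 1), (11, 1), (21, 1), (15, 1), (23, 1), (149, 1), (31, 1), (79, 1), (151, 1), (95, 1), (159, 1), (335, 1), (663, 1), (223, 1), (351, 1), (479, 1)]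
(.cut 5 [(0, 1), (1, 1), (2, 1), (3, 1), (5, 1), (7, 1), (11, 1), (21, 1), (15, 1), (23, 1), (149, 1), (31, 1), (79, 1), (151, 1), (159, 1), (335, 1), (663, 1), (671, 1)]
(.cut 9 [(0, 1), (1, 1), (2, 1), (3, 1), (5, 1), (7, 1), (11, 1), (21, 1), (15, 1), (23, 1), (43, 1), (149, 1), (31, 1), (47, 1), (79, 1), (151, 1), (63, 1), (95, 1), (111, 1), (159, 1), (335, 1), (127, 1), (191, 1), (223, 1), (351, 1), (367, 1), (255, 1), (383, 1), (479, 1), (511, 1)]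
(.lp [[5], [0, 2, 4, 7, 9], [1, 3, 6, 8, 10, 11]] [(.mj 3 4, 5698062), (.mj 7 8, 878144), (.mj 11 5, 3108995), (.hz 18 335, 198516551), (.hz 10 663, 838033670), (.hz 17 351, 1623566535), (.hz 21 703, 3987366271), (.hz 17 479, 706657345), (.hz 22 767, 2283168308), (.hz 17 2015, 4256882399), (.rw 10, 6724), (.rw 11, 26), (.rw 12, 272)]))))
.fin))
(.lp [[5], [0, 2, 4, 7, 9], [1, 3, 6, 8, 10]] [(.mj 10 9, 1), (.rw 8, 1)]))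
.fin))
(.lp [[5], [1, 3, 6, 8], [0, 2, 4, 7, 9]] [(.mj 3 4, 22), (.mj 6 7, 4), (.mj 7 5, 9), (.mj 8 5, 1), (.hz 2 43, 145), (.hz 19 47, 7815), (.hz 19 111, 7452), (.hz 19 367, 2322), (.hz 17 991, 8192)])))
(.lp [[5], [1, 3, 6, 8], [0, 2, 4, 7, 9]] [(.mj 0 1, 292), (.mj 3 4, 727), (.mj 6 7, 217), (.mj 7 5, 50), (.rw 7, 1), (.hz 2 43, 3532), (.hz 19 47, 235476), (.hz 19 111, 147173), (.hz 22 223, 895346), (.hz 19 367, 147173)]))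
(.lp [[5], [1, 3, 6, 8], [0, 2, 4, 7, 9]] [(.mj 0 1, 677), (.mj 3 4, 1408), (.mj 6 7, 453), (.mj 7 5, 91), (.rw 6, 2), (.hz 2 43, 6330), (.hz 19 47, 445974), (.hz 21 159, 1481842), (.hz 19 111, 359656), (.hz 19 367, 215794)]))
(.lp [[5], [1, 3, 6, 8], [0, 2, 4, 7, 9]] [(.mj 3 4, 4), (.mj 6 7, 1), (.mj 7 5, 3), (.hz 20 31, 3331)]))
(.lp [[5], [1, 3, 6, 8], [0, 2, 4, 7, 9]] [(.mj 0 1, 7924), (.mj 4 6, 611), (.mj 7 8, 501), (.mj 8 5, 821), (.rw 6, 1), (.hz 19 15, 5860010), (.hz 9 47, 440224), (.hz 13 63, 3229532), (.hz 9 111, 283281), (.hz 10 663, 179290), (.hz 13 127, 2873256), (.hz 12 367, 525982)]))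

theorem run132 : run P3488 (leaf3 218 625) (cutRow P3488) [] t132 s132 = true := by
  decide +kernel

theorem bad132 : Bad P3488 s132 :=
  run_sound (leaf3_sound P3488 rfl rfl) (cutRow_sound P3488) (
    fun _ h => absurd h List.not_mem_nil) t132 s132 run132

/-- the state above piece 151 of the tree -/
def s151 : St := ⟨[0, 0, 1, 3, 5, 15, 15, 47, 23, 287], [191, 175, 319, 279, 63, 31, 21, 15, 11, 7, 5, 3, 2, 1, 0], [0, 1, 2, 3, 4, 5, 8, 7],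
  [(4, 5)],
  [⟨true, 2, 3, 3, 10⟩, ⟨true, 1, 5, 2, 5⟩, ⟨true, 2, 3, 23, 50⟩, ⟨true, 1, 5, 12, 25⟩, ⟨true, 1, 21, 27, 50⟩, ⟨true, 4, 15, 9, 40⟩, ⟨true, 3, 23, 11, 20⟩, ⟨true, 1, 21, 29, 50⟩, ⟨true, 8, 95, 7, 40⟩, ⟨true, 4, 79, 13, 40⟩, ⟨true, 8, 95, 1, 4⟩, ⟨true, 7, 383, 3, 10⟩],
  [.spn 0 0 651200, .spn 1 1 302400, .spn 3 2 302400, .spn 7 3 302400, .spn 15 4 140426, .spn 31 5 140426, .spn 63 8 140426, .spn 319 7 140426]⟩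

/-- piece 151 of the tree -/
noncomputable def t151 : WN.Tree :=
(.haz 8 127 19 50
(.ask 447
(.mark 447 [6, 9, 10]
(.spn
(.haz 10 959 7 25
(.haz 6 959 1 10
(.haz 9 1471 4 25
(.ask 1471
(.haz 9 447 11 50
(.mark 1471 [6, 9, 11]
(.lp [[6], [0, 2, 4, 8, 9], [1, 3, 5, 7, 10, 11]] [(.mj 6 9, 13), (.mj 6 10, 5), (.mj 7 6, 17), (.mj 8 7, 2), (.hz 16 447, 518), (.hz 16 511, 18330), (.hz 16 1471, 10965), (.hz 16 3519, 7347)]))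
(.haz 9 1471 1 5
(.ask 799
(.mark 959 [6, 10, 12]
(.lp [[6], [0, 2, 4, 8, 9, 12], [1, 3, 5, 7, 10, 11]] [(.mj 6 10, 5), (.mj 7 6, 7), (.mj 8 7, 5), (.hz 16 287, 1266), (.hz 16 319, 2986), (.hz 14 959, 8591), (.hz 17 1471, 21856), (.hz 14 5055, 34957), (.hz 13 5055, 17034)]))
(.lp [[6], [0, 2, 4, 8, 9], [1, 3, 5, 7, 10, 11]] [(.mj 6 10, 12), (.mj 7 6, 17), (.mj 8 7, 14), (.hz 16 319, 9662), (.hz 16 447, 8340), (.hz 14 959, 46926), (.hz 17 1471, 126259)]))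
(.lp [[6], [0, 2, 4, 8, 9], [1, 3, 5, 7, 10, 11]] [(.mj 6 10, 56), (.mj 7 6, 80), (.mj 8 7, 62), (.hz 17 287, 140662), (.hz 17 319, 327309), (.hz 17 447, 362731), (.hz 14 959, 268245), (.hz 15 1471, 119842)])))
(.lp [[6], [0, 2, 4, 8, 9], [1, 3, 5, 7, 10]] [(.mj 6 9, 5), (.mj 7 6, 9)]))
(.lp [[6], [0, 2, 4, 8, 9], [1, 3, 5, 7, 10]] [(.mj 6 10, 19), (.mj 7 6, 23), (.mj 8 7, 17), (.hz 15 287, 8146), (.hz 15 319, 18470), (.hz 15 447, 7048), (.hz 14 959, 78575), (.hz 13 959, 39984)]))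
(.lp [[6], [0, 2, 4, 8, 9], [1, 3, 5, 7, 10]] [(.mj 3 4, 13), (.mj 6 9, 2), (.mj 6 10, 5), (.hz 14 15, 2650), (.hz 14 31, 1343), (.hz 14 47, 2945), (.hz 14 63, 4764), (.hz 14 175, 3272), (.hz 14 191, 8929), (.hz 14 319, 5072), (.hz 14 447, 15667), (.hz 13 959, 14049)]))
(.lp [[6], [0, 2, 4, 8, 9], [1, 3, 5, 7, 10]] [(.mj 6 9, 8), (.mj 7 6, 9), (.mj 8 7, 5), (.hz 13 447, 9075)]))
(.haz 10 511 8 25
(.maj 6 10
(.cut 6 [(0, 1), (1, 1), (2, 1), (3, 1), (5, 1), (7, 1), (11, 1), (21, 1), (15, 1), (23, 1), (31, 1), (47, 1), (279, 1), (63, 1), (175, 1), (287, 1), (191, 1), (319, 1), (447, 1)]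
(.lp [[6], [0, 2, 4, 8, 9], [1, 3, 5, 7, 10]] [(.mj 5 8, 752), (.mj 9 6, 298), (.mj 9 10, 85), (.hz 13 511, 2628556), (.rw 9, 1)]))
(.cut 6 [(0, 1), (1, 1), (2, 1), (3, 1), (5, 1), (7, 1), (11, 1), (21, 1), (15, 1), (23, 1), (31, 1), (47, 1), (279, 1), (63, 1), (175, 1), (287, 1), (191, 1), (319, 1), (447, 1)]
(.lp [[6], [0, 2, 4, 8, 9], [1, 3, 5, 7, 10]] [(.mj 5 8, 793), (.mj 9 6, 112), (.mj 9 10, 136), (.mj 10 6, 248), (.rw 9, 1)])))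
(.cut 6 [(0, 1), (1, 1), (2, 1), (3, 1), (5, 1), (7, 1), (11, 1), (21, 1), (15, 1), (23, 1), (31, 1), (47, 1), (279, 1), (63, 1), (175, 1), (287, 1), (191, 1), (319, 1), (447, 1)]
(.lp [[6], [0, 2, 4, 8, 9], [1, 3, 5, 7, 10]] [(.mj 5 8, 1027), (.mj 9 6, 432), (.mj 9 10, 10), (.hz 13 447, 223570), (.rw 9, 1)])))
(.ask 1471
(.mark 1471 [6, 9, 11]
(.spn
(.lp [[6], [0, 2, 4, 8, 9], [1, 3, 5, 7, 10, 11]] [(.mj 10 6, 156), (.rw 9, 1)])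
(.cut 6 [(0, 1), (1, 1), (2, 1), (3, 1), (5, 1), (7, 1), (11, 1), (21, 1), (15, 1), (23, 1), (31, 1), (47, 1), (279, 1), (63, 1), (175, 1), (287, 1), (191, 1), (319, 1), (447, 1)]
(.cut 6 [(0, 1), (1, 1), (2, 1), (3, 1), (5, 1), (7, 1), (11, 1), (21, 1), (15, 1), (23, 1), (31, 1), (47, 1), (279, 1), (63, 1), (175, 1), (287, 1), (191, 1), (319, 1), (799, 1), (447, 1), (1471, 1)]
(.lp [[6], [0, 2, 4, 8, 9], [1, 3, 5, 7, 10, 11]] [(.mj 3 4, 27041), (.mj 9 11, 3210), (.mj 10 9, 1223), (.rw 8, 8), (.rw 9, 13), (.rw 10, 20), (.rw 11, 11)])))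
(.ask 799
(.mark 959 [6, 10, 12]
(.cut 6 [(0, 1), (1, 1), (2, 1), (3, 1), (5, 1), (7, 1), (11, 1), (21, 1), (15, 1), (23, 1), (31, 1), (47, 1), (279, 1), (63, 1), (175, 1), (287, 1), (191, 1), (319, 1), (447, 1)]
(.cut 6 [(0, 1), (1, 1), (2, 1), (3, 1), (5, 1), (7, 1), (11, 1), (21, 1), (15, 1), (23, 1), (31, 1), (47, 1), (279, 1), (63, 1), (175, 1), (287, 1), (191, 1), (319, 1), (799, 1), (447, 1), (831, 1), (959, 1)]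
(.cut 6 [(0, 1), (1, 1), (2, 1), (3, 1), (5, 1), (7, 1), (11, 1), (21, 1), (15, 1), (23, 1), (31, 1), (279, 1), (287, 1), (799, 1), (4895, 1)]
(.lp [[6], [0, 2, 4, 8, 9, 12], [1, 3, 5, 7, 10, 11]] [(.mj 3 4, 593916), (.mj 5 8, 135285), (.mj 8 7, 339143), (.mj 11 6, 384893), (.hz 9 111, 27855375), (.hz 11 895, 326455343), (.rw 10, 825), (.rw 11, 319), (.rw 12, 72)])))))
(.ask 831
(.mark 959 [6, 10, 12]
(.cut 6 [(0, 1), (1, 1), (2, 1), (3, 1), (5, 1), (7, 1), (11, 1), (21, 1), (15, 1), (23, 1), (31, 1), (47, 1), (279, 1), (63, 1), (175, 1), (287, 1), (191, 1), (319, 1), (447, 1)]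
(.cut 6 [(0, 1), (1, 1), (2, 1), (3, 1), (5, 1), (7, 1), (11, 1), (21, 1), (15, 1), (23, 1), (31, 1), (47, 1), (279, 1), (63, 1), (175, 1), (287, 1), (191, 1), (319, 1), (799, 1), (447, 1), (1471, 1)]
(.cut 6 [(0, 1), (1, 1), (2, 1), (3, 1), (5, 1), (7, 1), (11, 1), (21, 1), (15, 1), (23, 1), (31, 1), (47, 1), (279, 1), (63, 1), (175, 1), (287, 1), (191, 1), (319, 1), (799, 1), (447, 1), (831, 1), (959, 1)]
(.cut 9 [(0, 1), (1, 1), (2, 1), (3, 1), (5, 1), (7, 1), (11, 1), (21, 1), (15, 1), (23, 1), (31, 1), (47, 1), (79, 1), (279, 1), (63, 1), (95, 1), (111, 1), (175, 1), (287, 1), (127, 1), (191, 1), (239, 1), (319, 1), (351, 1), (255, 1), (383, 1), (447, 1), (511, 1)]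
(.lp [[6], [0, 2, 4, 8, 9, 12], [1, 3, 5, 7, 10, 11]] [(.mj 3 4, 43418), (.mj 8 7, 11587), (.mj 11 6, 21471), (.rw 10, 45), (.rw 11, 8), (.rw 12, 15), (.rw 13, 1)]))))))
(.cut 6 [(0, 1), (1, 1), (2, 1), (3, 1), (5, 1), (7, 1), (11, 1), (21, 1), (15, 1), (23, 1), (31, 1), (47, 1), (279, 1), (63, 1), (175, 1), (287, 1), (191, 1), (319, 1), (447, 1)]
(.cut 9 [(0, 1), (1, 1), (2, 1), (3, 1), (5, 1), (7, 1), (11, 1), (21, 1), (15, 1), (23, 1), (31, 1), (47, 1), (79, 1), (279, 1), (63, 1), (95, 1), (111, 1), (175, 1), (287, 1), (127, 1), (191, 1), (239, 1), (319, 1), (351, 1), (255, 1), (383, 1), (447, 1), (511, 1)]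
(.cut 6 [(0, 1), (1, 1), (2, 1), (3, 1), (5, 1), (7, 1), (11, 1), (21, 1), (15, 1), (23, 1), (31, 1), (47, 1), (279, 1), (63, 1), (175, 1), (287, 1), (191, 1), (319, 1), (799, 1), (447, 1), (1471, 1)]
(.cut 6 [(0, 1), (1, 1), (2, 1), (3, 1), (5, 1), (7, 1), (11, 1), (21, 1), (15, 1), (23, 1), (31, 1), (47, 1), (279, 1), (63, 1), (287, 1), (319, 1), (799, 1), (831, 1)]
(.lp [[6], [0, 2, 4, 8, 9], [1, 3, 5, 7, 10, 11]] [(.mj 8 7, 27053), (.mj 11 6, 17525), (.mj 11 9, 5599), (.rw 10, 23), (.rw 11, 4), (.rw 12, 6), (.rw 13, 33)])))))))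
.fin))
(.lp [[6], [0, 2, 4, 8, 9], [1, 3, 5, 7, 10]] [(.mj 10 9, 1), (.rw 8, 1)]))
.fin))
(.spn
(.lp [[6], [1, 3, 5, 7], [0, 2, 4, 8, 9]] [(.mj 6 9, 2), (.mj 7 6, 3)])
(.lp [[6], [1, 3, 5, 7], [0, 2, 4, 8, 9]] [(.mj 5 8, 87), (.mj 8 7, 4), (.mj 9 6, 24), (.hz 9 79, 3885), (.hz 10 95, 246297), (.hz 9 111, 3885), (.hz 12 127, 15621), (.hz 9 239, 1210), (.hz 12 255, 5695)])
.fin
.fin))
(.lp [[6], [1, 3, 5, 7], [0, 2, 4, 8, 9]] [(.mj 7 6, 5), (.mj 8 7, 3), (.hz 12 31, 744), (.hz 12 63, 4433), (.hz 10 95, 15189), (.hz 10 127, 45751)]))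

theorem run151 : run P3488 (leaf3 218 625) (cutRow P3488) [] t151 s151 = true := by
  decide +kernel

theorem bad151 : Bad P3488 s151 :=
  run_sound (leaf3_sound P3488 rfl rfl) (cutRow_sound P3488) (
    fun _ h => absurd h List.not_mem_nil) t151 s151 run151

/-- the state above piece 113 of the tree -/
def s113 : St := ⟨[0, 0, 1, 3, 5, 7, 15, 21], [79, 31, 15, 11, 7, 5, 3, 2, 1, 0], [0, 1, 2, 3, 4, 6],
  [],
  [⟨true, 2, 3, 3, 10⟩, ⟨true, 1, 5, 2, 5⟩, ⟨true, 2, 3, 23, 50⟩, ⟨true, 1, 5, 12, 25⟩, ⟨true, 4, 39, 4, 25⟩, ⟨true, 4, 39, 9, 50⟩, ⟨true, 4, 15, 4, 25⟩, ⟨true, 4, 15, 9, 50⟩, ⟨true, 1, 21, 29, 50⟩, ⟨true, 4, 39, 9, 40⟩, ⟨true, 3, 151, 7, 20⟩, ⟨false, 5, 15, 1, 5⟩, ⟨true, 3, 23, 19, 40⟩, ⟨true, 6, 47, 3, 10⟩],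
  [.spn 0 0 651200, .spn 1 1 302400, .spn 3 2 302400, .spn 7 3 140426, .spn 15 4 140426, .spn 31 6 140426]⟩

/-- piece 113 of the tree -/
noncomputable def t113 : WN.Tree :=
(.haz 4 111 21 40
(.haz 4 39 11 40
(.ask 95
(.mark 95 [5, 7, 8]
(.spn
(.haz 4 111 31 50
(.haz 5 159 1 10
(.haz 3 151 29 50
(.haz 4 111 17 25
(.haz 4 47 19 50
(.haz 3 151 16 25
(.haz 4 47 2 5
(.haz 7 23 1 5
(.lp [[5], [0, 2, 4, 7], [1, 3, 6, 8]] [(.mj 3 4, 60), (.mj 5 8, 3), (.mj 6 5, 7), (.hz 23 23, 27545), (.hz 15 39, 3013), (.hz 22 47, 27622), (.hz 23 55, 36732), (.hz 23 63, 50363), (.hz 19 111, 4537), (.hz 23 351, 11018)])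
(.haz 8 223 9 25
(.ask 149
(.mark 223 [5, 8, 9]
(.lp [[5], [1, 3, 6, 8], [0, 2, 4, 7, 9]] [(.mj 3 4, 5), (.mj 5 8, 6), (.mj 6 5, 10), (.hz 23 21, 384), (.hz 21 151, 408), (.hz 17 159, 12170), (.hz 19 111, 644), (.hz 24 223, 1552), (.hz 17 671, 28603), (.hz 24 735, 7165)]))
(.haz 5 159 7 50
(.haz 8 223 11 25
(.haz 5 159 4 25
(.lp [[5], [0, 2, 4, 7], [1, 3, 6, 8]] [(.mj 3 4, 104), (.mj 5 8, 88), (.mj 6 5, 144), (.hz 21 151, 2609), (.hz 27 159, 139631), (.hz 19 111, 13832), (.hz 26 223, 61497)])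
(.lp [[5], [0, 2, 4, 7], [1, 3, 6, 8]] [(.mj 3 4, 35), (.mj 5 7, 2), (.mj 5 8, 24), (.hz 27 7, 1919), (.hz 27 15, 8803), (.hz 27 31, 4379), (.hz 25 159, 6899), (.hz 26 223, 17587)]))
(.lp [[5], [0, 2, 4, 7], [1, 3, 6, 8]] [(.mj 3 4, 5), (.mj 5 7, 5), (.mj 6 5, 14), (.hz 26 95, 4523), (.hz 25 159, 7558), (.hz 24 223, 1842)]))
(.lp [[5], [0, 2, 4, 7], [1, 3, 6, 8]] [(.mj 3 4, 26), (.mj 5 7, 4), (.mj 5 8, 19), (.hz 25 7, 760), (.hz 25 15, 3320), (.hz 25 31, 1951), (.hz 17 159, 26122), (.hz 24 223, 14462)])))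
(.lp [[5], [0, 2, 4, 7], [1, 3, 6, 8]] [(.mj 3 4, 29), (.mj 5 7, 2), (.mj 6 5, 17), (.hz 24 95, 4797), (.hz 17 159, 67008), (.hz 19 111, 3125)])))
(.lp [[5], [0, 2, 4, 7], [1, 3, 6, 8]] [(.mj 0 1, 26), (.mj 4 6, 11), (.mj 6 5, 12), (.hz 22 15, 35059), (.hz 8 149, 371), (.hz 20 47, 2606), (.hz 21 151, 2848), (.hz 17 159, 14696)]))
(.lp [[5], [0, 2, 4, 7], [1, 3, 6, 8]] [(.mj 3 4, 26), (.mj 6 5, 8), (.hz 11 15, 805), (.hz 21 23, 4612), (.hz 15 39, 709), (.hz 20 47, 514), (.hz 18 151, 1056), (.hz 17 159, 14798), (.hz 19 111, 2237)]))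
(.lp [[5], [0, 2, 4, 7], [1, 3, 6, 8]] [(.mj 4 6, 4), (.mj 5 8, 1), (.mj 6 5, 3), (.hz 20 15, 1912), (.hz 11 15, 9080), (.hz 8 149, 70), (.hz 18 151, 398), (.hz 19 111, 1523)]))
(.lp [[5], [0, 2, 4, 7], [1, 3, 6, 8]] [(.mj 3 4, 5), (.mj 6 5, 14), (.hz 8 149, 36), (.hz 19 79, 5923), (.hz 18 151, 204), (.hz 17 159, 35965), (.hz 16 111, 2819)]))
(.lp [[5], [0, 2, 4, 7], [1, 3, 6, 8]] [(.mj 3 4, 5), (.mj 6 5, 1), (.hz 11 7, 184), (.hz 11 15, 1008), (.hz 18 23, 412), (.hz 15 39, 143), (.hz 12 151, 191), (.hz 16 111, 247)]))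
(.cut 7 [(0, 1), (1, 1), (2, 1), (3, 1), (5, 1), (7, 1), (11, 1), (21, 1), (15, 1), (23, 1), (39, 1), (31, 1), (47, 1), (79, 1), (95, 1), (111, 1)]
(.lp [[5], [0, 2, 4, 7], [1, 3, 6, 8]] [(.mj 3 4, 156952), (.mj 5 7, 42317), (.mj 5 8, 76129), (.hz 17 7, 10970625), (.hz 17 15, 101231702), (.hz 15 39, 12512553), (.rw 7, 20)])))
(.lp [[5], [0, 2, 4, 7], [1, 3, 6, 8]] [(.mj 3 4, 2), (.hz 11 15, 4799), (.hz 15 39, 189), (.hz 16 79, 577), (.hz 14 111, 344)]))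
(.haz 8 127 17 50
(.cut 5 [(0, 1), (1, 1), (2, 1), (3, 1), (5, 1), (7, 1), (11, 1), (21, 1), (15, 1), (23, 1), (149, 1), (31, 1), (79, 1), (95, 1)]
(.lp [[5], [0, 2, 4, 7], [1, 3, 6, 8]] [(.mj 3 4, 8266), (.mj 7 5, 1449), (.mj 7 8, 1476), (.hz 15 39, 886598), (.hz 15 47, 180669), (.hz 13 47, 68252), (.hz 14 111, 387998), (.hz 16 127, 926976), (.rw 7, 1)]))
(.lp [[5], [0, 2, 4, 7], [1, 3, 6, 8]] [(.mj 3 4, 10), (.mj 7 5, 2), (.hz 15 39, 1153), (.hz 16 95, 374), (.hz 14 111, 286)]))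
(.ask 351
(.mark 351 [5, 7, 9]
(.spn
(.lp [[5], [0, 2, 4, 7], [1, 3, 6, 8, 9]] [(.mj 8 5, 279), (.rw 7, 1)])
(.cut 5 [(0, 1), (1, 1), (2, 1), (3, 1), (5, 1), (7, 1), (11, 1), (21, 1), (15, 1), (23, 1), (149, 1), (31, 1), (79, 1), (95, 1), (351, 1)]
(.lp [[5], [0, 2, 4, 7], [1, 3, 6, 8, 9]] [(.mj 3 4, 2380), (.mj 7 9, 2550), (.mj 8 7, 2867), (.rw 6, 2), (.rw 7, 3), (.hz 8 149, 142055), (.hz 12 183, 32978), (.rw 8, 7)]))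
(.ask 863
(.mark 863 [5, 7, 10]
(.spn
(.lp [[5], [0, 2, 4, 7], [1, 3, 6, 8, 9, 10]] [(.mj 9 5, 150), (.rw 8, 1)])
(.lp [[5], [0, 2, 4, 7], [1, 3, 6, 8, 9, 10]] [(.mj 9 7, 627), (.rw 8, 1)])
(.maj 5 7
(.cut 5 [(0, 1), (1, 1), (2, 1), (3, 1), (5, 1), (7, 1), (11, 1), (21, 1), (15, 1), (23, 1), (31, 1), (79, 1), (95, 1)]
(.cut 5 [(0, 1), (1, 1), (2, 1), (3, 1), (5, 1), (7, 1), (11, 1), (21, 1), (15, 1), (23, 1), (31, 1), (79, 1), (95, 1), (351, 1)]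
(.lp [[5], [0, 2, 4, 7], [1, 3, 6, 8, 9, 10]] [(.mj 10 5, 19908), (.rw 9, 58), (.rw 10, 12)])))
(.ask 149
(.mark 223 [5, 8, 11]
(.cut 5 [(0, 1), (1, 1), (2, 1), (3, 1), (5, 1), (11, 1), (21, 1), (149, 1), (2197, 1)]
(.cut 5 [(0, 1), (1, 1), (2, 1), (3, 1), (5, 1), (7, 1), (11, 1), (21, 1), (15, 1), (23, 1), (149, 1), (31, 1), (79, 1), (2197, 1), (95, 1)]
(.cut 5 [(0, 1), (1, 1), (2, 1), (3, 1), (5, 1), (7, 1), (11, 1), (21, 1), (15, 1), (23, 1), (149, 1), (31, 1), (79, 1), (151, 1), (2197, 1), (95, 1), (159, 1), (223, 1), (351, 1)]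
(.cut 5 [(0, 1), (1, 1), (2, 1), (3, 1), (5, 1), (7, 1), (11, 1), (21, 1), (15, 1), (23, 1), (149, 1), (31, 1), (79, 1), (151, 1), (2197, 1), (95, 1), (159, 1), (2199, 1), (223, 1), (351, 1), (2207, 1), (479, 1), (863, 1), (2271, 1)]
(.cut 7 [(0, 1), (1, 1), (2, 1), (3, 1), (5, 1), (7, 1), (11, 1), (21, 1), (15, 1), (23, 1), (31, 1), (79, 1), (95, 1), (351, 1)]
(.lp [[5], [0, 2, 4, 7, 11], [1, 3, 6, 8, 9, 10]] [(.mj 3 4, 11555), (.mj 10 7, 22), (.rw 8, 21), (.hz 8 2197, 3181270), (.hz 12 183, 8590418), (.hz 12 2199, 1420216), (.rw 9, 19), (.rw 10, 52), (.rw 11, 28), (.rw 12, 19), (.rw 13, 86)])))))))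
(.cut 7 [(0, 1), (1, 1), (2, 1), (3, 1), (5, 1), (7, 1), (11, 1), (21, 1), (15, 1), (23, 1), (31, 1), (79, 1), (95, 1), (351, 1), (863, 1)]
(.cut 5 [(0, 1), (1, 1), (2, 1), (3, 1), (5, 1), (7, 1), (11, 1), (21, 1), (15, 1), (23, 1), (149, 1), (31, 1), (79, 1), (95, 1)]
(.cut 5 [(0, 1), (1, 1), (2, 1), (3, 1), (5, 1), (7, 1), (11, 1), (21, 1), (15, 1), (23, 1), (149, 1), (31, 1), (79, 1), (151, 2), (95, 1), (159, 1), (223, 1), (351, 1)]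
(.lp [[5], [0, 2, 4, 7], [1, 3, 6, 8, 9, 10]] [(.mj 10 7, 29225), (.rw 8, 67), (.hz 12 183, 45537936), (.hz 13 191, 263500515), (.rw 9, 341), (.rw 10, 292), (.rw 11, 85)]))))))
.fin))
(.lp [[5], [0, 2, 4, 7], [1, 3, 6, 8, 9]] [(.mj 9 7, 1), (.rw 7, 1)]))
.fin))
(.lp [[5], [0, 2, 4, 7], [1, 3, 6, 8]] [(.mj 8 7, 1), (.rw 6, 1)]))
.fin))
(.lp [[5], [1, 3, 6], [0, 2, 4, 7]] [(.mj 3 4, 1), (.hz 11 15, 638), (.hz 15 39, 88)]))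
(.lp [[5], [1, 3, 6], [0, 2, 4, 7]] [(.mj 0 1, 739), (.mj 6 5, 19), (.hz 15 7, 15763), (.hz 11 7, 27605), (.hz 11 15, 11452), (.hz 9 39, 6914), (.hz 8 149, 5699), (.hz 12 151, 2878), (.hz 14 111, 5482)]))
(.lp [[5], [1, 3, 6], [0, 2, 4, 7]] [(.mj 3 4, 4), (.hz 11 15, 8107), (.hz 9 39, 326), (.hz 9 47, 655), (.hz 14 79, 1037)]))

theorem run113 : run P3488 (leaf3 218 625) (cutRow P3488) [] t113 s113 = true := by
  decide +kernel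

theorem bad113 : Bad P3488 s113 :=
  run_sound (leaf3_sound P3488 rfl rfl) (cutRow_sound P3488) (
    fun _ h => absurd h List.not_mem_nil) t113 s113 run113

/-- the state above piece 98 of the tree -/
def s98 : St := ⟨[0, 0, 1, 3, 5, 5, 15, 23, 79], [95, 31, 21, 15, 11, 7, 3, 2, 1, 0], [0, 1, 2, 3, 4, 6, 7],
  [],
  [⟨true, 2, 3, 3, 10⟩, ⟨true, 1, 5, 2, 5⟩, ⟨true, 2, 3, 23, 50⟩, ⟨true, 1, 5, 12, 25⟩, ⟨true, 2, 11, 12, 25⟩, ⟨true, 5, 31, 3, 50⟩, ⟨true, 3, 39, 21, 50⟩, ⟨true, 4, 79, 1, 10⟩, ⟨true, 4, 79, 3, 20⟩, ⟨true, 4, 79, 1, 5⟩],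
  [.spn 0 0 651200, .spn 1 1 302400, .spn 3 2 302400, .spn 7 3 140426, .spn 15 4 140426, .spn 31 6 140426, .spn 95 7 140426]⟩

/-- piece 98 of the tree -/
noncomputable def t98 : WN.Tree :=
(.haz 4 47 3 10
(.ask 151
(.mark 223 [5, 8, 9]
(.spn
(.lp [[5], [1, 3, 6, 8], [0, 2, 4, 7, 9]] [(.mj 5 8, 4221), (.mj 6 7, 8803), (.mj 7 5, 4383), (.rw 6, 5), (.rw 7, 7), (.hz 9 335, 505706), (.hz 5 351, 1314836), (.hz 5 671, 8087752)])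
(.ask 335
(.mark 479 [5, 9, 10]
(.cut 5 [(0, 1), (1, 1), (2, 1), (3, 1), (5, 1), (7, 1), (11, 1), (21, 1), (15, 1), (23, 1), (31, 1), (79, 1), (95, 1)]
(.lp [[5], [0, 2, 4, 7, 9], [1, 3, 6, 8, 10]] [(.mj 3 4, 4729), (.mj 7 8, 2497), (.mj 8 5, 2801), (.hz 5 671, 1622578), (.hz 10 367, 4683497), (.hz 9 1359, 951238), (.hz 5 735, 1608151), (.hz 5 1375, 47410), (.hz 10 1391, 249620), (.rw 8, 7)])))
(.cut 5 [(0, 1), (1, 1), (2, 1), (3, 1), (5, 1), (7, 1), (11, 1), (21, 1), (15, 1), (23, 1), (31, 1), (79, 1), (151, 1), (95, 1), (159, 1), (223, 1)]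
(.cut 5 [(0, 1), (1, 1), (2, 1), (3, 1), (5, 1), (7, 1), (11, 1), (21, 1), (15, 1), (23, 1), (31, 1), (79, 1), (95, 1), (335, 1)]
(.lp [[5], [1, 3, 6, 8], [0, 2, 4, 7, 9]] [(.mj 3 4, 6782), (.mj 7 8, 3245), (.mj 8 5, 3699), (.rw 8, 1), (.rw 9, 10)]))))
(.cut 5 [(0, 1), (1, 1), (2, 1), (3, 1), (5, 1), (7, 1), (11, 1), (21, 1), (15, 1), (23, 1), (31, 1), (79, 1), (151, 1), (95, 1), (159, 1), (663, 1), (223, 1), (671, 1)]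
(.lp [[5], [1, 3, 6, 8], [0, 2, 4, 7, 9]] [(.mj 1 2, 2952), (.mj 3 4, 7844), (.mj 4 6, 726), (.mj 6 7, 10368), (.mj 9 5, 5225), (.mj 9 8, 5666), (.rw 6, 12), (.hz 6 39, 175692), (.hz 10 47, 5387875), (.hz 5 159, 8680782), (.hz 10 111, 343071), (.hz 9 335, 3733072), (.hz 5 351, 3791918), (.hz 5 671, 412652), (.hz 5 479, 8894300), (.rw 8, 7)]))
.fin))
(.haz 6 47 7 20
(.haz 7 351 1 4
(.haz 7 351 7 20
(.haz 4 335 3 10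
(.haz 4 335 7 20
(.ask 159
(.mark 223 [5, 8, 9]
(.spn
(.lp [[5], [1, 3, 6, 8], [0, 2, 4, 7, 9]] [(.mj 3 4, 2080), (.mj 5 8, 577), (.mj 7 5, 1132), (.rw 7, 2), (.hz 15 335, 247584), (.hz 5 351, 807384), (.hz 13 351, 311899), (.hz 5 671, 765318)])
(.maj 5 9
(.cut 5 [(0, 1), (1, 1), (2, 1), (3, 1), (5, 1), (7, 1), (11, 1), (21, 1), (15, 1), (23, 1), (31, 1), (79, 1), (151, 1), (95, 1), (159, 1), (335, 1), (223, 1)]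
(.cut 5 [(0, 1), (1, 1), (2, 1), (3, 1), (5, 1), (7, 1), (11, 1), (21, 1), (15, 1), (23, 1), (31, 1), (79, 1), (151, 1), (95, 1), (159, 1), (223, 1)]
(.lp [[5], [1, 3, 6, 8], [0, 2, 4, 7, 9]] [(.mj 3 4, 13486), (.mj 7 8, 11888), (.mj 8 5, 9601), (.hz 5 671, 7890833), (.hz 15 367, 2682805), (.hz 5 735, 15926663), (.rw 8, 1), (.rw 9, 26)])))
(.cut 5 [(0, 1), (1, 1), (2, 1), (3, 1), (5, 1), (7, 1), (11, 1), (21, 1), (15, 1), (23, 1), (31, 1), (79, 1), (151, 1), (95, 1), (159, 1), (223, 1)]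
(.lp [[5], [1, 3, 6, 8], [0, 2, 4, 7, 9]] [(.mj 3 4, 313), (.mj 6 7, 249), (.mj 7 8, 319), (.mj 8 5, 38), (.mj 9 5, 281), (.hz 15 367, 215533), (.hz 5 479, 73034), (.rw 8, 1)])))
(.lp [[5], [1, 3, 6, 8], [0, 2, 4, 7, 9]] [(.mj 6 7, 7), (.mj 9 5, 6), (.mj 9 8, 4), (.hz 5 159, 4990), (.hz 15 335, 973), (.hz 5 223, 1498), (.hz 5 351, 4990), (.hz 13 351, 3367), (.hz 5 671, 483), (.hz 5 479, 9740)])
.fin))
(.ask 223
(.mark 223 [5, 8, 9]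
(.spn
(.haz 8 223 3 10
(.lp [[5], [1, 3, 6, 8], [0, 2, 4, 7, 9]] [(.mj 3 4, 2), (.mj 5 8, 4), (.mj 5 9, 1), (.mj 7 5, 4), (.hz 15 335, 134), (.hz 16 223, 1552), (.hz 16 255, 8875), (.hz 16 735, 10398)])
(.lp [[5], [1, 3, 6, 8], [0, 2, 4, 7, 9]] [(.mj 3 4, 2034), (.mj 7 5, 808), (.rw 7, 2), (.hz 16 79, 360540), (.hz 16 95, 182365), (.hz 10 111, 360540), (.hz 5 351, 595315)]))
(.haz 4 335 9 20
(.maj 5 9
(.cut 5 [(0, 1), (1, 1), (2, 1), (3, 1), (5, 1), (7, 1), (11, 1), (21, 1), (15, 1), (23, 1), (31, 1), (79, 1), (151, 1), (95, 1), (159, 1), (223, 1)]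
(.lp [[5], [1, 3, 6, 8], [0, 2, 4, 7, 9]] [(.mj 3 4, 18058), (.mj 7 8, 12286), (.mj 8 5, 11356), (.hz 16 367, 5638692), (.hz 5 735, 18730851), (.rw 8, 32)]))
(.ask 335
(.mark 479 [5, 9, 10]
(.cut 5 [(0, 1), (1, 1), (2, 1), (3, 1), (5, 1), (7, 1), (11, 1), (21, 1), (15, 1), (23, 1), (31, 1), (79, 1), (151, 1), (95, 1), (159, 1), (335, 1), (223, 1), (351, 1)]
(.lp [[5], [0, 2, 4, 7, 9], [1, 3, 6, 8, 10]] [(.mj 3 4, 521), (.mj 7 8, 232), (.mj 8 9, 77), (.mj 9 5, 291), (.hz 5 351, 39035), (.hz 16 1359, 20671), (.hz 16 1391, 178728), (.rw 8, 1)])))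
(.cut 5 [(0, 1), (1, 1), (2, 1), (3, 1), (5, 1), (7, 1), (11, 1), (21, 1), (15, 1), (23, 1), (31, 1), (79, 1), (151, 1), (95, 1), (159, 1), (223, 1)]
(.lp [[5], [1, 3, 6, 8], [0, 2, 4, 7, 9]] [(.mj 3 4, 9076), (.mj 7 8, 2717), (.mj 8 9, 362), (.mj 9 5, 4628), (.hz 5 159, 1304479), (.hz 16 367, 3579900), (.hz 5 479, 2036403), (.rw 8, 13)]))))
(.cut 5 [(0, 1), (1, 1), (2, 1), (3, 1), (5, 1), (7, 1), (11, 1), (21, 1), (15, 1), (23, 1), (31, 1), (79, 1), (151, 1), (95, 1), (159, 1), (223, 1)]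
(.lp [[5], [1, 3, 6, 8], [0, 2, 4, 7, 9]] [(.mj 4 6, 886), (.mj 7 8, 303), (.mj 8 5, 491), (.hz 16 79, 500837), (.hz 15 335, 331978), (.rw 8, 1)])))
(.cut 5 [(0, 1), (1, 1), (2, 1), (3, 1), (5, 1), (7, 1), (11, 1), (21, 1), (15, 1), (23, 1), (31, 1), (79, 1), (151, 1), (95, 1), (159, 1)]
(.lp [[5], [1, 3, 6, 8], [0, 2, 4, 7, 9]] [(.mj 3 4, 2679), (.mj 9 5, 1141), (.mj 9 8, 559), (.hz 15 335, 259856), (.hz 13 351, 513375), (.hz 15 367, 1715187), (.hz 13 383, 4050348), (.rw 8, 4)]))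
.fin))
(.spn
(.lp [[5], [0, 2, 4, 7], [1, 3, 6, 8]] [(.mj 5 8, 2), (.mj 7 5, 3)])
(.cut 5 [(0, 1), (1, 1), (2, 1), (3, 1), (5, 1), (7, 1), (11, 1), (21, 1), (15, 1), (23, 1), (31, 1), (79, 1), (151, 1), (95, 1), (159, 1), (335, 1), (223, 1), (351, 1)]
(.lp [[5], [0, 2, 4, 7], [1, 3, 6, 8]] [(.mj 7 8, 13439), (.mj 8 5, 6649), (.hz 5 351, 10523342), (.rw 8, 4)]))
.fin
.fin)))
(.lp [[5], [0, 2, 4, 7], [1, 3, 6, 8]] [(.mj 4 6, 1281), (.mj 7 8, 1102), (.rw 6, 4), (.hz 15 79, 4003676), (.hz 10 111, 5605147), (.hz 14 335, 6859070), (.hz 5 351, 964557)]))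
(.lp [[5], [0, 2, 4, 7], [1, 3, 6, 8]] [(.mj 1 2, 2), (.mj 4 6, 9), (.mj 6 5, 2), (.mj 7 5, 1), (.hz 14 15, 4998), (.hz 6 39, 127), (.hz 10 47, 2063), (.hz 11 47, 2928), (.hz 6 55, 127), (.hz 10 111, 1962), (.hz 9 335, 1691), (.hz 6 183, 279)]))
(.lp [[5], [0, 2, 4, 7], [1, 3, 6, 8]] [(.mj 3 4, 161), (.mj 7 5, 208), (.mj 7 8, 226), (.hz 13 31, 59165), (.hz 13 95, 140721), (.hz 5 159, 37743), (.hz 5 351, 260992)]))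
(.lp [[5], [0, 2, 4, 7], [1, 3, 6, 8]] [(.mj 4 6, 421), (.mj 7 8, 200), (.rw 6, 1), (.hz 12 95, 5003858)]))
(.lp [[5], [0, 2, 4, 7], [1, 3, 6, 8]] [(.mj 1 2, 33), (.mj 3 4, 34), (.mj 7 5, 11), (.hz 11 15, 6125), (.hz 10 47, 24646), (.hz 5 95, 2315), (.hz 5 159, 6426), (.hz 5 351, 4529)])))
(.cut 5 [(0, 1), (1, 1), (2, 1), (3, 1), (5, 1), (7, 1), (11, 1), (21, 1), (15, 1), (23, 1), (31, 1), (79, 1), (95, 1)]
(.lp [[5], [0, 2, 4, 7], [1, 3, 6, 8]] [(.mj 4 6, 847), (.mj 6 5, 656), (.mj 7 5, 7255), (.mj 7 8, 5456), (.hz 10 7, 1441857), (.hz 10 15, 4379886), (.hz 9 335, 10384041), (.hz 6 183, 371226), (.hz 5 351, 5965182), (.rw 7, 10)])))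

theorem run98 : run P3488 (leaf3 218 625) (cutRow P3488) [] t98 s98 = true := by
  decide +kernel

theorem bad98 : Bad P3488 s98 :=
  run_sound (leaf3_sound P3488 rfl rfl) (cutRow_sound P3488) (
    fun _ h => absurd h List.not_mem_nil) t98 s98 run98

/-- the state above piece 218 of the tree -/
def s218 : St := ⟨[0, 0, 1, 3, 5, 15, 23, 47, 47, 127, 191, 639], [1279, 1215, 767, 255, 175, 127, 95, 87, 63, 31, 23, 21, 15, 11, 7, 5, 3, 2, 1, 0], [0, 1, 2, 3, 4, 5, 6, 7, 9, 10],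
  [(5, 6), (4, 5)],
  [⟨true, 2, 3, 3, 10⟩, ⟨true, 1, 5, 2, 5⟩, ⟨true, 2, 3, 23, 50⟩, ⟨true, 1, 5, 12, 25⟩, ⟨true, 1, 21, 27, 50⟩, ⟨true, 4, 15, 9, 40⟩, ⟨true, 3, 23, 11, 20⟩, ⟨true, 4, 47, 7, 20⟩, ⟨true, 4, 47, 17, 40⟩, ⟨true, 4, 47, 9, 20⟩, ⟨true, 4, 47, 19, 40⟩, ⟨true, 5, 95, 1, 5⟩, ⟨true, 5, 95, 3, 10⟩, ⟨true, 5, 31, 3, 10⟩, ⟨true, 5, 95, 11, 25⟩, ⟨true, 6, 63, 3, 20⟩, ⟨true, 8, 255, 1, 50⟩, ⟨true, 6, 319, 13, 40⟩, ⟨true, 6, 191, 13, 40⟩, ⟨true, 7, 383, 3, 40⟩, ⟨true, 8, 191, 1, 20⟩, ⟨true, 6, 319, 17, 40⟩, ⟨true, 6, 319, 19, 40⟩, ⟨true, 7, 639, 7, 40⟩, ⟨true, 7, 319, 7, 40⟩, ⟨true, 7, 319, 11, 40⟩, ⟨true, 8, 3839, 3, 40⟩, ⟨true, 10, 2815, 6, 25⟩, ⟨true, 10, 2815, 8, 25⟩],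
  [.spn 0 0 651200, .spn 1 1 302400, .spn 3 2 302400, .spn 7 3 302400, .spn 15 4 302400, .spn 31 5 302400, .spn 63 6 140426, .spn 127 7 140426, .spn 255 9 140426, .spn 767 10 140426]⟩

/-- piece 218 of the tree -/
noncomputable def t218 : WN.Tree :=
(.ask 1791
(.mark 1791 [8, 11, 12]
(.spn
(.haz 11 5887 1 5
(.ask 5887
(.mark 5887 [8, 11, 13]
(.lp [[8], [0, 2, 4, 6, 9, 11], [1, 3, 5, 7, 10, 12, 13]] [(.mj 8 11, 50), (.mj 8 12, 10), (.mj 9 10, 33), (.mj 10 8, 50), (.hz 23 2687, 850), (.hz 20 2815, 50100), (.hz 29 5887, 1256733), (.hz 29 6143, 863063), (.hz 29 14079, 863063)]))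
(.lp [[8], [0, 2, 4, 6, 9, 11], [1, 3, 5, 7, 10, 12]] [(.mj 8 11, 3), (.mj 10 8, 5)]))
(.lp [[8], [0, 2, 4, 6, 9, 11], [1, 3, 5, 7, 10, 12]] [(.mj 6 7, 113), (.mj 9 10, 3604), (.mj 10 8, 1600), (.rw 10, 4), (.hz 29 639, 6179030), (.hz 29 767, 17915995)]))
(.haz 4 303 14 25
(.maj 8 12
(.ask 2687
(.mark 3839 [8, 12, 13]
(.cut 8 [(0, 1), (1, 1), (2, 1), (3, 1), (5, 1), (7, 1), (11, 1), (21, 1), (15, 1), (23, 1), (31, 1), (47, 1), (87, 1), (63, 1), (95, 1), (175, 1), (127, 1), (191, 1), (255, 1), (639, 1), (1215, 1), (767, 1), (1279, 1), (1791, 1)]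
(.lp [[8], [1, 3, 5, 7, 10, 12], [0, 2, 4, 6, 9, 11, 13]] [(.mj 3 4, 4446), (.mj 6 7, 69), (.mj 8 12, 137), (.mj 10 11, 290), (.mj 11 8, 1149), (.hz 29 303, 173145), (.hz 29 431, 142147), (.hz 20 5887, 18338373), (.hz 26 12031, 1612014), (.rw 11, 2)])))
(.ask 2815
(.mark 3839 [8, 12, 13]
(.cut 8 [(0, 1), (1, 1), (2, 1), (3, 1), (5, 1), (7, 1), (11, 1), (21, 1), (15, 1), (23, 1), (31, 1), (47, 1), (87, 1), (63, 1), (95, 1), (175, 1), (127, 1), (191, 1), (255, 1), (639, 1), (1215, 1), (767, 1), (1279, 1), (2687, 1), (1791, 1), (2815, 1)]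
(.lp [[8], [1, 3, 5, 7, 10, 12], [0, 2, 4, 6, 9, 11, 13]] [(.mj 3 4, 22147), (.mj 6 7, 1932), (.mj 8 12, 641), (.mj 10 11, 2360), (.mj 11 8, 6574), (.hz 29 303, 862414), (.hz 20 5887, 111790804), (.hz 26 12031, 7857830), (.rw 11, 13)])))
(.ask 3839
(.mark 3839 [8, 12, 13]
(.spn
(.haz 12 12031 11 50
(.lp [[8], [1, 3, 5, 7, 10, 12], [0, 2, 4, 6, 9, 11, 13]] [(.mj 3 4, 160), (.mj 6 7, 14), (.mj 8 12, 79), (.mj 8 13, 49), (.mj 11 8, 119), (.hz 29 303, 6236), (.hz 20 5887, 621784), (.hz 26 7935, 248288), (.hz 30 12031, 465560)])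
(.ask 5887
(.mark 7935 [8, 13, 14]
(.lp [[8], [0, 2, 4, 6, 9, 11, 13], [1, 3, 5, 7, 10, 12, 14]] [(.mj 3 4, 10), (.mj 6 7, 1), (.mj 8 13, 17), (.mj 10 11, 11), (.mj 11 8, 19), (.hz 29 303, 388), (.hz 30 1791, 68271)]))
(.lp [[8], [1, 3, 5, 7, 10, 12], [0, 2, 4, 6, 9, 11, 13]] [(.mj 10 11, 7200), (.mj 11 8, 2683), (.rw 11, 8), (.hz 30 3839, 4628427)])))
(.con 12 8)
(.cut 8 [(0, 1), (1, 1), (2, 1), (3, 1), (5, 1), (7, 1), (11, 1), (21, 1), (15, 1), (23, 1), (31, 1), (47, 1), (87, 1), (63, 1), (95, 1), (175, 1), (127, 1), (191, 1), (255, 1), (639, 1), (1215, 1), (767, 1), (1279, 1), (2687, 1), (1791, 1), (2815, 1)]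
(.lp [[8], [1, 3, 5, 7, 10, 12], [0, 2, 4, 6, 9, 11, 13]] [(.mj 3 4, 2945), (.mj 13 8, 1089), (.rw 12, 4)]))
.fin))
(.lp [[8], [0, 2, 4, 6, 9, 11], [1, 3, 5, 7, 10, 12]] [(.mj 8 12, 1), (.mj 11 8, 1)]))))
(.cut 8 [(0, 1), (1, 1), (2, 1), (3, 1), (5, 1), (7, 1), (11, 1), (21, 1), (15, 1), (23, 1), (31, 1), (47, 1), (87, 1), (63, 1), (95, 1), (175, 1), (127, 1), (191, 1), (255, 1), (1215, 1)]
(.cut 8 [(0, 1), (1, 1), (2, 1), (3, 1), (5, 1), (7, 1), (11, 1), (21, 1), (15, 1), (23, 1), (31, 1), (47, 1), (87, 1), (63, 1), (95, 1), (175, 1), (127, 1), (191, 1), (639, 1)]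
(.cut 8 [(0, 1), (1, 1), (2, 1), (3, 1), (5, 1), (7, 1), (11, 1), (21, 1), (15, 1), (23, 1), (31, 1), (47, 1), (87, 1), (63, 1), (95, 1), (175, 1), (127, 1), (191, 1), (255, 1), (639, 1), (1215, 1), (767, 1)]
(.cut 8 [(0, 1), (1, 1), (2, 1), (3, 1), (5, 1), (7, 1), (11, 1), (21, 1), (15, 1), (23, 1), (31, 1), (47, 1), (87, 1), (63, 1), (95, 1), (175, 1), (127, 1), (191, 1), (255, 1), (639, 1), (1215, 1), (767, 1), (1279, 1), (2687, 2), (2815, 1)]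
(.cut 8 [(0, 1), (1, 1), (2, 1), (3, 1), (5, 1), (7, 1), (11, 1), (21, 1), (15, 1), (23, 1), (31, 1), (47, 1), (87, 1), (63, 1), (95, 1), (175, 1), (127, 1), (191, 1), (255, 1), (1215, 1), (1279, 1)]
(.cut 8 [(0, 1), (1, 1), (2, 1), (3, 1), (5, 1), (7, 1), (11, 1), (21, 1), (15, 1), (23, 1), (31, 1), (47, 1), (87, 1), (63, 1), (95, 1), (175, 1), (127, 1), (191, 1), (255, 1), (639, 1), (1215, 1), (767, 1), (1279, 1), (2687, 1), (1791, 1)]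
(.cut 8 [(0, 1), (1, 1), (2, 1), (3, 1), (5, 1), (7, 1), (11, 1), (21, 1), (15, 1), (23, 1), (31, 1), (47, 1), (87, 1), (63, 1), (95, 1), (175, 1), (127, 1), (191, 1), (255, 1), (639, 1), (1215, 1), (767, 1), (1279, 1), (1791, 1)]
(.lp [[8], [0, 2, 4, 6, 9, 11], [1, 3, 5, 7, 10, 12]] [(.mj 3 4, 727111), (.mj 6 7, 34469), (.mj 11 12, 20020), (.mj 12 8, 160317), (.hz 29 303, 28314289), (.hz 29 431, 12926210), (.hz 25 2943, 61707754), (.hz 26 3839, 362482553), (.rw 11, 99), (.rw 12, 80), (.rw 13, 43), (.rw 14, 6), (.rw 15, 124), (.rw 16, 22), (.rw 17, 41)])))))))))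
(.lp [[8], [0, 2, 4, 6, 9, 11], [1, 3, 5, 7, 10, 12]] [(.mj 4 5, 63), (.mj 7 9, 4), (.mj 10 11, 1), (.mj 11 8, 3), (.hz 29 47, 14097), (.hz 10 303, 3616), (.hz 10 431, 3616), (.hz 22 447, 1899)]))
(.ask 2687
(.mark 3839 [8, 12, 13]
(.cut 8 [(0, 1), (1, 1), (2, 1), (3, 1), (5, 1), (7, 1), (11, 1), (21, 1), (15, 1), (23, 1), (31, 1), (47, 1), (87, 1), (63, 1), (95, 1), (175, 1), (127, 1), (191, 1), (255, 1), (639, 1), (1215, 1), (767, 1), (1279, 1), (2687, 1), (1791, 1), (2815, 1), (3839, 1)]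
(.cut 11 [(0, 1), (1, 1), (2, 1), (3, 1), (5, 1), (7, 1), (11, 1), (21, 1), (15, 1), (23, 1), (31, 1), (47, 1), (87, 1), (63, 1), (95, 1), (175, 1), (303, 1), (127, 1), (191, 1), (319, 1), (431, 1), (255, 1), (383, 1), (447, 1), (639, 1), (1215, 1), (511, 1), (767, 1), (895, 1), (1279, 1), (1471, 1), (1023, 1), (1535, 1), (1791, 1), (2047, 1)]
(.lp [[8], [1, 3, 5, 7, 10, 12], [0, 2, 4, 6, 9, 11, 13]] [(.mj 3 4, 268645), (.mj 6 7, 21907), (.mj 9 10, 83375), (.mj 12 8, 97982), (.mj 12 11, 4785), (.rw 10, 11), (.hz 10 303, 7206156), (.hz 26 3839, 25440740), (.hz 28 11007, 60761905), (.hz 25 11135, 197126813), (.hz 28 11263, 1200536866), (.rw 11, 335), (.rw 12, 11)]))))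
(.cut 8 [(0, 1), (1, 1), (2, 1), (3, 1), (5, 1), (7, 1), (11, 1), (21, 1), (15, 1), (23, 1), (31, 1), (47, 1), (87, 1), (63, 1), (95, 1), (175, 1), (127, 1), (191, 1), (255, 1), (639, 1), (1215, 1), (767, 1), (1279, 1)]
(.cut 8 [(0, 1), (1, 1), (2, 1), (3, 1), (5, 1), (7, 1), (11, 1), (21, 1), (15, 1), (23, 1), (31, 1), (47, 1), (87, 1), (63, 1), (95, 1), (175, 1), (127, 1), (191, 1), (639, 1), (1215, 1), (2687, 1)]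
(.lp [[8], [0, 2, 4, 6, 9, 11], [1, 3, 5, 7, 10, 12]] [(.mj 3 4, 18701), (.mj 6 7, 29921), (.mj 12 8, 17512), (.mj 12 11, 2601), (.rw 10, 1), (.hz 28 2815, 13636263), (.hz 25 2943, 596707), (.hz 28 3071, 149448641), (.rw 11, 24), (.rw 12, 37)]))))
.fin))
(.spn
(.lp [[8], [1, 3, 5, 7, 10], [0, 2, 4, 6, 9, 11]] [(.mj 8 11, 2), (.mj 10 8, 3)])
(.lp [[8], [1, 3, 5, 7, 10], [0, 2, 4, 6, 9, 11]] [(.mj 10 11, 11), (.mj 11 8, 6), (.hz 26 3839, 66282)])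
.fin
.fin))

theorem run218 : run P3488 (leaf3 218 625) (cutRow P3488) [] t218 s218 = true := by
  decide +kernel

theorem bad218 : Bad P3488 s218 :=
  run_sound (leaf3_sound P3488 rfl rfl) (cutRow_sound P3488) (
    fun _ h => absurd h List.not_mem_nil) t218 s218 run218

/-- the state above piece 209 of the tree -/
def s209 : St := ⟨[0, 0, 1, 3, 5, 15, 23, 47, 47, 87, 255], [319, 431, 303, 255, 191, 175, 127, 63, 31, 23, 21, 15, 11, 7, 5, 3, 2, 1, 0], [0, 1, 2, 3, 4, 5, 6, 7, 8],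
  [(5, 6), (4, 5)],
  [⟨true, 2, 3, 3, 10⟩, ⟨true, 1, 5, 2, 5⟩, ⟨true, 2, 3, 23, 50⟩, ⟨true, 1, 5, 12, 25⟩, ⟨true, 1, 21, 27, 50⟩, ⟨true, 4, 15, 9, 40⟩, ⟨true, 3, 23, 11, 20⟩, ⟨true, 4, 47, 7, 20⟩, ⟨true, 4, 47, 17, 40⟩, ⟨true, 4, 47, 9, 20⟩, ⟨true, 4, 47, 19, 40⟩, ⟨true, 5, 95, 1, 5⟩, ⟨true, 5, 95, 3, 10⟩, ⟨true, 5, 31, 3, 10⟩, ⟨true, 5, 95, 11, 25⟩, ⟨true, 6, 63, 3, 20⟩, ⟨true, 8, 255, 1, 50⟩, ⟨true, 7, 319, 9, 40⟩, ⟨true, 7, 639, 4, 25⟩, ⟨true, 7, 639, 6, 25⟩, ⟨true, 7, 383, 7, 25⟩, ⟨true, 7, 383, 3, 10⟩, ⟨true, 7, 639, 7, 25⟩, ⟨true, 7, 639, 3, 10⟩, ⟨true, 7, 383, 8, 25⟩, ⟨true, 7, 639, 8, 25⟩, ⟨true, 6, 191, 9, 25⟩, ⟨true, 8, 191, 1, 10⟩, ⟨true, 8, 191, 3, 25⟩, ⟨true, 5, 607, 16, 25⟩, ⟨true, 4, 303, 13, 25⟩, ⟨true, 3, 599, 7, 10⟩, ⟨true, 4, 303, 27, 50⟩, ⟨true, 9, 1279, 2, 25⟩, ⟨true, 8, 1279, 4, 25⟩],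
  [.spn 0 0 651200, .spn 1 1 302400, .spn 3 2 302400, .spn 7 3 302400, .spn 15 4 302400, .spn 31 5 302400, .spn 63 6 140426, .spn 127 7 140426, .spn 255 8 62723]⟩

/-- piece 209 of the tree -/
noncomputable def t209 : WN.Tree :=
(.ask 447
(.mark 511 [9, 10, 11]
(.lp [[8, 11], [0, 2, 4, 6, 9], [1, 3, 5, 7, 10]] [(.mj 3 4, 78), (.mj 6 7, 33), (.mj 7 8, 7), (.mj 8 10, 1)]))
(.ask 383
(.mark 511 [9, 10, 11]
(.spn
(.haz 11 1535 17 50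
(.lp [[8, 11], [0, 2, 4, 6, 9], [1, 3, 5, 7, 10]] [(.mj 3 4, 176), (.mj 7 8, 24), (.mj 9 10, 13), (.mj 9 11, 10), (.hz 34 1279, 27618), (.hz 35 1535, 53757)])
(.lp [[8, 11], [0, 2, 4, 6, 9], [1, 3, 5, 7, 10]] [(.mj 3 4, 41), (.mj 7 8, 7), (.mj 9 10, 4), (.hz 35 511, 5092)]))
(.haz 7 2431 23 50
(.haz 8 767 6 25
(.haz 7 895 1 2
(.haz 7 2431 13 25
(.ask 1279
(.mark 1535 [9, 11, 12]
(.spn
(.haz 9 2559 3 25
(.haz 12 2047 1 5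
(.haz 12 2047 3 10
(.haz 12 3583 7 25
(.haz 12 2047 19 50
(.haz 9 2559 7 50
(.haz 12 3583 9 25
(.maj 11 12
(.lp [[8, 11], [0, 2, 4, 6, 9], [1, 3, 5, 7, 10, 12]] [(.mj 7 8, 2057), (.mj 8 10, 1028), (.mj 9 11, 3536), (.mj 10 9, 6153), (.mj 11 12, 5124), (.rw 10, 1), (.hz 38 2431, 1237639), (.hz 44 2559, 24269096), (.hz 36 1791, 14913372), (.hz 43 2047, 49833091), (.hz 45 3583, 20510590)])
(.haz 11 2047 1 5
(.haz 11 1535 11 50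
(.lp [[8, 11], [0, 2, 4, 6, 9], [1, 3, 5, 7, 10, 12]] [(.mj 8 10, 8), (.mj 9 12, 15), (.mj 10 9, 23), (.mj 12 11, 19), (.hz 38 2431, 9105), (.hz 44 2559, 96583), (.hz 47 2047, 226609), (.hz 45 3583, 18097), (.hz 47 5631, 62958)])
(.lp [[8, 11], [0, 2, 4, 6, 9], [1, 3, 5, 7, 10, 12]] [(.mj 6 7, 30), (.mj 7 8, 3), (.mj 9 12, 13), (.mj 10 9, 25), (.hz 47 383, 16167), (.hz 47 511, 6600), (.hz 47 1535, 8553), (.hz 44 2559, 102822), (.hz 43 2047, 167), (.hz 45 3583, 119797)]))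
(.lp [[8, 11], [0, 2, 4, 6, 9], [1, 3, 5, 7, 10, 12]] [(.mj 6 7, 16), (.mj 7 8, 2), (.mj 9 12, 7), (.mj 10 9, 14), (.hz 46 383, 87103), (.hz 46 511, 36240), (.hz 46 1535, 46231), (.hz 44 2559, 55945), (.hz 43 2047, 68), (.hz 45 3583, 65073)])))
(.lp [[8, 11], [0, 2, 4, 6, 9], [1, 3, 5, 7, 10, 12]] [(.mj 6 7, 10), (.mj 7 8, 12), (.mj 8 10, 6), (.mj 9 11, 7), (.mj 10 9, 19), (.hz 45 1279, 16458), (.hz 45 1535, 68533), (.hz 44 2559, 114932), (.hz 42 3583, 37834)]))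
(.lp [[8, 11], [0, 2, 4, 6, 9], [1, 3, 5, 7, 10, 12]] [(.mj 6 7, 4648), (.mj 7 8, 4080), (.mj 8 10, 1134), (.mj 9 11, 724), (.mj 9 12, 2219), (.rw 10, 4), (.hz 44 87, 239065), (.hz 44 95, 815878), (.hz 44 127, 1785423), (.hz 44 255, 1927983), (.hz 44 511, 22033867), (.hz 39 2559, 43613016), (.hz 42 3583, 24832717)]))
(.lp [[8, 11], [0, 2, 4, 6, 9], [1, 3, 5, 7, 10, 12]] [(.mj 6 7, 49), (.mj 7 8, 52), (.mj 8 10, 23), (.mj 9 11, 32), (.mj 10 9, 84), (.hz 43 1279, 37638), (.hz 43 1535, 157471), (.hz 39 2559, 1035131), (.hz 42 3583, 184381)]))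
(.lp [[8, 11], [0, 2, 4, 6, 9], [1, 3, 5, 7, 10, 12]] [(.mj 6 7, 12), (.mj 7 8, 12), (.mj 8 10, 6), (.mj 9 11, 10), (.mj 10 9, 22), (.hz 42 1279, 17933), (.hz 42 1535, 73263), (.hz 39 2559, 254390)]))
(.lp [[8, 11], [0, 2, 4, 6, 9], [1, 3, 5, 7, 10, 12]] [(.mj 6 7, 12), (.mj 7 8, 12), (.mj 8 10, 5), (.mj 9 11, 9), (.mj 10 9, 21), (.hz 41 1279, 45086), (.hz 41 1535, 184997), (.hz 39 2559, 255311)]))
(.lp [[8, 11], [0, 2, 4, 6, 9], [1, 3, 5, 7, 10, 12]] [(.mj 6 7, 3), (.mj 7 8, 4), (.mj 8 10, 2), (.mj 9 11, 3), (.mj 10 9, 7), (.hz 40 1279, 25629), (.hz 40 1535, 103026), (.hz 39 2559, 73371)]))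
(.lp [[8, 11], [0, 2, 4, 6, 9], [1, 3, 5, 7, 10, 12]] [(.mj 6 7, 14659), (.mj 7 8, 14489), (.mj 8 10, 8068), (.mj 9 12, 375), (.rw 10, 4), (.hz 39 87, 1445365), (.hz 39 95, 4894532), (.hz 39 127, 10620746), (.hz 39 255, 11021728), (.hz 33 5375, 16408203), (.hz 33 3583, 21799470)]))
(.haz 8 639 13 50
(.lp [[8, 11], [0, 2, 4, 6, 9], [1, 3, 5, 7, 10, 12]] [(.mj 3 4, 1291), (.mj 6 7, 867), (.mj 7 8, 595), (.mj 11 9, 133), (.mj 11 12, 107), (.hz 39 639, 437965), (.hz 39 767, 229826), (.hz 37 895, 1705799), (.hz 39 1791, 229826), (.hz 34 5375, 353813), (.hz 33 5375, 1165851), (.hz 33 3583, 147330), (.hz 39 5887, 1250334)])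
(.lp [[8, 11], [0, 2, 4, 6, 9], [1, 3, 5, 7, 10, 12]] [(.mj 3 4, 488), (.mj 6 7, 199), (.mj 8 10, 2), (.mj 11 9, 11), (.mj 11 12, 10), (.hz 39 127, 60909), (.hz 36 767, 61779), (.hz 36 1791, 36594), (.hz 34 5375, 33733), (.hz 33 5375, 101161), (.hz 33 3583, 24033), (.hz 36 5887, 225766)]))
(.haz 9 1279 1 10
(.haz 9 2431 2 25
(.haz 9 255 3 25
(.lp [[8, 11], [0, 2, 4, 6, 9], [1, 3, 5, 7, 10, 12]] [(.mj 6 7, 28), (.mj 7 8, 40), (.mj 8 10, 25), (.mj 12 9, 50), (.hz 41 255, 15287), (.hz 41 511, 237412), (.hz 41 1279, 113930), (.hz 40 2431, 147502), (.hz 41 1535, 233306), (.hz 41 2559, 233306)])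
(.lp [[8, 11], [0, 2, 4, 6, 9], [1, 3, 5, 7, 10, 12]] [(.mj 6 7, 64), (.mj 7 8, 57), (.mj 8 10, 31), (.hz 41 87, 6059), (.hz 41 95, 20517), (.hz 41 127, 44521), (.hz 41 255, 28852), (.hz 36 767, 57768), (.hz 39 1279, 174747), (.hz 40 2431, 57768)]))
(.lp [[8, 11], [0, 2, 4, 6, 9], [1, 3, 5, 7, 10, 12]] [(.mj 4 5, 16), (.mj 7 8, 4), (.mj 8 10, 3), (.hz 40 87, 891), (.hz 40 95, 2972), (.hz 40 127, 7126), (.hz 36 767, 6859), (.hz 39 1279, 17782)]))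
(.lp [[8, 11], [0, 2, 4, 6, 9], [1, 3, 5, 7, 10, 12]] [(.mj 4 5, 70), (.mj 7 8, 16), (.mj 8 10, 15), (.hz 39 87, 9795), (.hz 39 95, 32922), (.hz 39 127, 46595), (.hz 39 255, 38341), (.hz 36 767, 17136), (.hz 33 1279, 32902)]))
.fin))
(.haz 9 383 7 50
(.lp [[8, 11], [0, 2, 4, 6, 9], [1, 3, 5, 7, 10]] [(.mj 3 4, 8), (.mj 6 7, 6), (.mj 7 8, 2), (.mj 10 9, 2), (.hz 39 383, 1400), (.hz 39 511, 4714), (.hz 38 2431, 2486), (.hz 39 2431, 1166), (.hz 39 2559, 4714)])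
(.lp [[8, 11], [0, 2, 4, 6, 9], [1, 3, 5, 7, 10]] [(.mj 6 7, 16), (.mj 7 8, 10), (.mj 8 10, 2), (.hz 39 87, 594), (.hz 39 95, 2027), (.hz 39 127, 5995), (.hz 36 767, 16151), (.hz 38 2431, 4340)])))
(.lp [[8, 11], [0, 2, 4, 6, 9], [1, 3, 5, 7, 10]] [(.mj 3 4, 117), (.mj 7 8, 34), (.hz 38 127, 29003), (.hz 38 383, 19597), (.hz 25 639, 8998), (.hz 36 767, 37490)]))
(.lp [[8, 11], [0, 2, 4, 6, 9], [1, 3, 5, 7, 10]] [(.mj 3 4, 43), (.mj 7 8, 13), (.hz 37 127, 133947), (.hz 37 383, 93400), (.hz 25 639, 3318), (.hz 36 767, 13823)]))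
(.lp [[8, 11], [0, 2, 4, 6, 9], [1, 3, 5, 7, 10]] [(.mj 3 4, 158), (.mj 6 7, 53), (.mj 8 10, 4), (.hz 36 127, 30648), (.hz 28 767, 4745), (.hz 33 1279, 8991)]))
(.lp [[8, 11], [0, 2, 4, 6, 9], [1, 3, 5, 7, 10]] [(.mj 3 4, 15), (.mj 7 8, 4), (.hz 35 127, 1645), (.hz 35 383, 1351)]))
(.cut 9 [(0, 1), (1, 1), (2, 1), (3, 1), (5, 1), (7, 1), (11, 1), (21, 1), (15, 1), (23, 1), (31, 1), (47, 1), (87, 1), (63, 1), (95, 1), (175, 1), (303, 1), (127, 1), (191, 1), (319, 1), (431, 1), (255, 1), (383, 1), (447, 1), (511, 1)]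
(.lp [[8, 11], [0, 2, 4, 6, 9], [1, 3, 5, 7, 10]] [(.mj 3 4, 118218), (.mj 7 8, 29784), (.mj 11 10, 10576), (.hz 28 767, 30492078), (.hz 34 1279, 17769600), (.rw 10, 13)]))
.fin))
(.lp [[8], [0, 2, 4, 6, 9], [1, 3, 5, 7, 10]] [(.mj 3 4, 78), (.mj 6 7, 33), (.mj 7 8, 7), (.mj 8 10, 1)])))

theorem run209 : run P3488 (leaf3 218 625) (cutRow P3488) [] t209 s209 = true := by
  decide +kernel

theorem bad209 : Bad P3488 s209 :=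
  run_sound (leaf3_sound P3488 rfl rfl) (cutRow_sound P3488) (
    fun _ h => absurd h List.not_mem_nil) t209 s209 run209

end Pool.Agent.WN.Data
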