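import Pool.Agent.WN.CutRow
import Pool.Agent.WN.LeafRow
import Pool.Agent.Helper99.WN.ParDef

/-!
# The search tree, part 4
-/

set_option autoImplicit false

namespace Pool.Agent.WN.Data

open Pool.Agent.W3 Pool.Agent.WN Pool.Agent.Helper99.WN

/-- the state above piece 233 of the tree -/
def s233 : St := ⟨[0, 0, 1, 3, 5, 15, 23, 23], [21, 15, 11, 7, 5, 3, 2, 1, 0], [0, 1, 2, 3, 4],
  [(5, 6), (4, 5)],
  [⟨true, 2, 3, 3, 10⟩, ⟨true, 1, 5, 2, 5⟩, ⟨true, 2, 3, 23, 50⟩, ⟨true, 1, 5, 12, 25⟩, ⟨true, 1, 21, 27, 50⟩, ⟨true, 4, 15, 9, 40⟩, ⟨true, 3, 23, 11, 20⟩, ⟨true, 4, 47, 7, 20⟩, ⟨true, 4, 47, 17, 40⟩, ⟨true, 4, 47, 9, 20⟩, ⟨true, 4, 47, 19, 40⟩, ⟨true, 5, 95, 1, 5⟩, ⟨true, 5, 95, 3, 10⟩],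
  [.spn 0 0 651200, .spn 1 1 302400, .spn 3 2 302400, .spn 7 3 302400, .spn 15 4 302400]⟩

/-- piece 233 of the tree -/
noncomputable def t233 : WN.Tree :=
(.mark 31 [5, 6, 7]
(.spn
(.ask 47
(.mark 63 [6, 7, 8]
(.spn
(.ask 303
(.mark 319 [6, 7, 9]
(.cut 7 [(0, 1), (1, 1), (2, 1), (3, 1), (5, 1), (7, 1), (11, 1), (21, 1), (15, 1), (23, 1), (31, 1), (47, 1), (63, 1), (303, 1), (815, 1)]
(.lp [[7], [0, 2, 4, 6], [1, 3, 5, 8, 9]] [(.mj 3 4, 9938), (.mj 6 8, 3183), (.hz 10 303, 485414), (.hz 10 815, 255596), (.rw 7, 2)])))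
(.lp [[7], [0, 2, 4, 6], [1, 3, 5, 8]] [(.mj 3 4, 4), (.mj 6 8, 1)]))
(.con 7 6)
(.haz 8 127 19 50
(.haz 7 127 1 10
(.haz 5 159 1 2
(.ask 303
(.mark 319 [6, 7, 9]
(.spn
(.haz 6 831 6 25
(.haz 6 159 7 50
(.haz 6 159 4 25
(.haz 6 191 1 5
(.haz 9 447 13 50
(.maj 7 9
(.cut 7 [(0, 1), (1, 1), (2, 1), (3, 1), (5, 1), (7, 1), (11, 1), (21, 1), (15, 1), (23, 1), (31, 1), (47, 1), (87, 1), (63, 1), (95, 1), (303, 1), (127, 1), (319, 1)]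
(.lp [[7], [0, 2, 4, 6], [1, 3, 5, 8, 9]] [(.mj 3 4, 3782), (.mj 6 7, 16911), (.mj 7 9, 11651), (.mj 8 6, 48380), (.rw 4, 64), (.hz 18 159, 33464008), (.hz 19 191, 130417958), (.hz 20 447, 5073294), (.hz 16 831, 13398413), (.rw 8, 9)]))
(.lp [[7], [0, 2, 4, 6], [1, 3, 5, 8, 9]] [(.mj 3 4, 120), (.mj 8 6, 275), (.mj 9 7, 84), (.rw 4, 1), (.hz 15 159, 51910), (.hz 18 159, 289934), (.hz 19 191, 1362991), (.hz 14 383, 241341)]))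
(.lp [[7], [0, 2, 4, 6], [1, 3, 5, 8, 9]] [(.mj 4 5, 288), (.mj 6 7, 565), (.mj 8 6, 1831), (.rw 4, 1), (.hz 18 159, 1134657), (.hz 20 303, 23426), (.hz 19 191, 10111026), (.hz 20 319, 263676)]))
(.lp [[7], [0, 2, 4, 6], [1, 3, 5, 8, 9]] [(.mj 4 5, 2731), (.mj 6 7, 545), (.rw 4, 1), (.rw 7, 4), (.hz 19 31, 928957), (.hz 19 63, 20959250), (.hz 18 159, 54484), (.hz 18 191, 3591662)]))
(.lp [[7], [0, 2, 4, 6], [1, 3, 5, 8, 9]] [(.mj 4 5, 1723), (.mj 6 7, 1683), (.rw 4, 8), (.rw 7, 8), (.hz 18 31, 10514625), (.hz 17 159, 4838413), (.hz 17 191, 3519310), (.hz 16 831, 100964), (.hz 14 895, 2524095)]))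
(.lp [[7], [0, 2, 4, 6], [1, 3, 5, 8, 9]] [(.mj 6 7, 45), (.mj 8 7, 89), (.rw 7, 1), (.hz 17 31, 354299), (.hz 15 159, 62002), (.hz 14 127, 3965780), (.hz 16 831, 2675), (.hz 14 895, 66871)]))
(.lp [[7], [0, 2, 4, 6], [1, 3, 5, 8, 9]] [(.mj 4 5, 603), (.rw 7, 1), (.hz 16 319, 941665)]))
(.con 7 6)
(.cut 6 [(0, 1), (1, 1), (2, 1), (3, 1), (5, 1), (7, 1), (11, 1), (21, 1), (15, 1), (23, 1), (31, 1), (47, 1), (63, 1), (303, 1), (319, 1), (815, 1)]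
(.cut 7 [(0, 1), (1, 1), (2, 1), (3, 1), (5, 1), (7, 1), (11, 1), (21, 1), (15, 1), (23, 1), (31, 1), (47, 1), (63, 1), (303, 1), (815, 1)]
(.lp [[7], [0, 2, 4, 6], [1, 3, 5, 8, 9]] [(.mj 3 4, 6896), (.mj 6 7, 1339), (.mj 9 6, 8699), (.mj 9 7, 8898), (.rw 4, 47), (.hz 12 95, 3869066), (.hz 14 127, 53053881), (.hz 14 383, 62663055), (.rw 8, 5), (.rw 9, 4)])))
.fin))
(.ask 319
(.mark 319 [6, 7, 9]
(.spn
(.ask 831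
(.haz 7 1855 1 10
(.maj 7 10
(.ask 87
(.mark 895 [7, 10, 11]
(.lp [[7], [0, 2, 4, 6, 11], [1, 3, 5, 8, 9, 10]] [(.mj 6 7, 3656), (.mj 7 10, 3290), (.mj 8 6, 8023), (.rw 7, 7), (.hz 14 127, 12979007), (.hz 14 2175, 64101180), (.hz 14 2431, 26731583), (.hz 16 1855, 4341026)]))
(.haz 9 383 7 25
(.maj 7 9
(.mark 831 [6, 7, 10]
(.cut 7 [(0, 1), (1, 1), (2, 1), (3, 1), (5, 1), (7, 1), (11, 1), (21, 1), (15, 1), (23, 1), (31, 1), (47, 1), (63, 1), (303, 1), (319, 1)]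
(.lp [[7], [0, 2, 4, 6], [1, 3, 5, 8, 9, 10]] [(.mj 6 7, 10247), (.mj 7 9, 8384), (.mj 8 6, 13826), (.hz 6 215, 45178), (.hz 17 383, 8756847), (.hz 17 511, 3982502), (.hz 16 1855, 22125013), (.rw 8, 11)])))
(.ask 95
(.mark 895 [7, 10, 11]
(.lp [[7], [0, 2, 4, 6, 11], [1, 3, 5, 8, 9, 10]] [(.mj 6 9, 468), (.mj 7 10, 542), (.mj 8 6, 1429), (.mj 9 7, 1064), (.rw 7, 1), (.hz 14 127, 8732930), (.hz 14 2175, 9604018), (.hz 14 2431, 9481370), (.hz 16 1855, 637950)]))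
(.ask 127
(.mark 895 [7, 10, 11]
(.lp [[7], [0, 2, 4, 6, 11], [1, 3, 5, 8, 9, 10]] [(.mj 6 9, 18), (.mj 7 10, 5), (.mj 8 6, 25), (.mj 9 7, 26), (.hz 14 127, 149808), (.hz 14 383, 62609), (.hz 14 2175, 62609), (.hz 14 895, 20484), (.hz 14 2431, 139132), (.hz 16 1855, 40732)]))
(.haz 7 319 3 25
(.lp [[7], [0, 2, 4, 6], [1, 3, 5, 8, 9, 10]] [(.mj 6 9, 36), (.mj 8 6, 50), (.mj 9 7, 47), (.hz 18 383, 164260), (.hz 18 831, 41571)])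
(.lp [[7], [0, 2, 4, 6], [1, 3, 5, 8, 9, 10]] [(.mj 0 1, 180), (.mj 4 5, 80), (.mj 8 6, 33), (.hz 18 23, 6525), (.hz 18 31, 11745), (.hz 18 63, 6247), (.hz 14 127, 62392)])))))
(.mark 831 [6, 7, 10]
(.lp [[7], [0, 2, 4, 6], [1, 3, 5, 8, 9, 10]] [(.mj 6 7, 4), (.mj 8 6, 6), (.hz 14 127, 25014), (.hz 17 319, 1917), (.hz 17 383, 356), (.hz 16 1855, 8899)]))))
(.mark 831 [6, 7, 10]
(.tr 9 10 7
(.cut 9 [(0, 1), (1, 1), (2, 1), (3, 1), (5, 1), (7, 1), (11, 1), (21, 1), (15, 1), (23, 1), (31, 1), (47, 1), (87, 1), (63, 1), (95, 1), (303, 1), (127, 1), (319, 1)]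
(.lp [[7], [0, 2, 4, 6], [1, 3, 5, 8, 9, 10]] [(.mj 6 9, 11623), (.mj 8 6, 17560), (.mj 10 7, 15600), (.hz 14 127, 107312775), (.hz 14 383, 44849152), (.hz 14 895, 103586002), (.hz 16 1855, 47219696), (.rw 8, 1)])))))
(.cut 7 [(0, 1), (1, 1), (2, 1), (3, 1), (5, 1), (7, 1), (11, 1), (21, 1), (15, 1), (23, 1), (31, 1), (47, 1), (63, 1), (303, 1), (319, 1)]
(.lp [[7], [0, 2, 4, 6], [1, 3, 5, 8, 9, 10]] [(.mj 4 5, 2194), (.mj 6 9, 647), (.mj 8 6, 1770), (.hz 16 23, 427839), (.hz 16 31, 1010175), (.hz 16 63, 895456), (.hz 14 127, 1148167), (.hz 16 319, 767991), (.rw 8, 1)])))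
(.lp [[7], [0, 2, 4, 6], [1, 3, 5, 8, 9]] [(.mj 6 7, 11), (.mj 8 6, 20), (.hz 14 127, 89192), (.hz 14 383, 12851)]))
(.con 7 6)
(.ask 831
(.mark 831 [6, 7, 10]
(.spn
(.lp [[7], [0, 2, 4, 6], [1, 3, 5, 8, 9, 10]] [(.mj 4 5, 14245), (.mj 9 6, 1827), (.rw 4, 3), (.rw 7, 4), (.rw 8, 8), (.hz 15 159, 14837982)])
(.con 7 6)
(.cut 6 [(0, 1), (1, 1), (2, 1), (3, 1), (5, 1), (7, 1), (11, 1), (21, 1), (15, 1), (23, 1), (31, 1), (47, 1), (63, 1), (303, 1), (319, 1)]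
(.cut 7 [(0, 1), (1, 1), (2, 1), (3, 1), (5, 1), (7, 1), (11, 1), (21, 1), (15, 1), (23, 1), (31, 1), (47, 1), (87, 2), (63, 1), (95, 2), (303, 1), (127, 1)]
(.lp [[7], [0, 2, 4, 6], [1, 3, 5, 8, 9, 10]] [(.mj 4 5, 36061), (.mj 10 6, 4623), (.rw 4, 8), (.rw 8, 10), (.hz 15 159, 37563857), (.hz 14 127, 27348926), (.hz 15 223, 8138083), (.hz 14 383, 51430830), (.hz 14 895, 46287747), (.rw 9, 38), (.rw 10, 5)])))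
.fin))
(.lp [[7], [0, 2, 4, 6], [1, 3, 5, 8, 9]] [(.rw 7, 1)]))
.fin))
(.lp [[7], [0, 2, 4, 6], [1, 3, 5, 8]] [(.mj 6 7, 2), (.mj 8 6, 3)])))
(.lp [[7], [0, 2, 4, 6], [1, 3, 5, 8]] [(.mj 3 4, 4), (.hz 15 15, 4643), (.hz 15 31, 3095)]))
(.haz 6 63 6 25
(.cut 7 [(0, 1), (1, 1), (2, 1), (3, 1), (5, 1), (7, 1), (11, 1), (21, 1), (15, 1), (23, 1), (31, 1), (47, 1), (303, 1)]
(.lp [[7], [0, 2, 4, 6], [1, 3, 5, 8]] [(.mj 4 5, 9426), (.mj 8 6, 6176), (.hz 14 23, 1493063), (.hz 14 31, 3525288), (.hz 15 63, 1655334), (.hz 15 191, 6382731), (.rw 7, 1)]))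
(.ask 303
(.mark 319 [6, 7, 9]
(.lp [[7], [0, 2, 4, 6], [1, 3, 5, 8, 9]] [(.mj 4 5, 980), (.rw 4, 1), (.hz 15 31, 242568), (.hz 14 31, 606419), (.hz 15 63, 367527), (.hz 14 63, 918817)]))
(.ask 319
(.mark 319 [6, 7, 9]
(.spn
(.cut 7 [(0, 1), (1, 1), (2, 1), (3, 1), (5, 1), (7, 1), (11, 1), (21, 1), (15, 1), (23, 1), (31, 1), (47, 1), (63, 1), (303, 1), (319, 1)]
(.lp [[7], [0, 2, 4, 6], [1, 3, 5, 8, 9]] [(.mj 4 5, 5785), (.mj 6 9, 3272), (.mj 8 6, 5328), (.hz 14 23, 1267068), (.hz 14 31, 2996795), (.hz 14 87, 648408), (.hz 15 63, 1396503), (.hz 14 63, 8152939), (.hz 12 223, 423363), (.rw 8, 5)]))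
(.con 7 6)
(.cut 6 [(0, 1), (1, 1), (2, 1), (3, 1), (5, 1), (7, 1), (11, 1), (21, 1), (15, 1), (23, 1), (31, 1), (47, 1), (63, 1), (303, 1), (319, 1)]
(.lp [[7], [0, 2, 4, 6], [1, 3, 5, 8, 9]] [(.mj 4 5, 65692), (.mj 9 6, 17755), (.rw 4, 25), (.hz 14 23, 4438647), (.hz 15 31, 7812019), (.hz 14 31, 29517004), (.hz 14 63, 15535265), (.rw 8, 11)]))
.fin))
(.lp [[7], [0, 2, 4, 6], [1, 3, 5, 8]] [(.mj 6 7, 2), (.mj 8 6, 3)])))))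
(.lp [[7], [0, 2, 4, 6], [1, 3, 5, 8]] [(.mj 3 4, 4), (.hz 13 47, 141), (.hz 13 63, 165)]))
.fin))
(.ask 63
(.mark 63 [6, 7, 8]
(.spn
(.lp [[7], [0, 2, 4, 6], [1, 3, 5, 8]] [(.mj 3 4, 4), (.mj 6 8, 1)])
(.con 7 6)
(.ask 319
(.mark 319 [6, 7, 9]
(.spn
(.lp [[7], [0, 2, 4, 6], [1, 3, 5, 8, 9]] [(.mj 3 4, 9), (.mj 6 9, 1)])
(.con 7 6)
(.ask 831
(.mark 831 [6, 7, 10]
(.spn
(.lp [[7], [0, 2, 4, 6], [1, 3, 5, 8, 9, 10]] [(.mj 9 6, 485), (.rw 8, 1)])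
(.con 7 6)
(.ask 1855
(.mark 1855 [6, 7, 11]
(.spn
(.lp [[7], [0, 2, 4, 6], [1, 3, 5, 8, 9, 10, 11]] [(.mj 10 6, 224), (.rw 9, 1)])
(.con 7 6)
(.cut 6 [(0, 1), (1, 1), (2, 1), (3, 1), (5, 1), (7, 1), (11, 1), (21, 1), (15, 1), (23, 1), (31, 1), (47, 1), (63, 1)]
(.cut 6 [(0, 1), (1, 1), (2, 1), (3, 1), (5, 1), (7, 1), (11, 1), (21, 1), (15, 1), (23, 1), (31, 1), (47, 1), (63, 1), (319, 1)]
(.cut 7 [(0, 1), (1, 1), (2, 1), (3, 1), (5, 1), (7, 1), (11, 1), (21, 1), (15, 1), (23, 1), (31, 1), (47, 1)]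
(.cut 6 [(0, 1), (1, 1), (2, 1), (3, 1), (5, 1), (7, 1), (11, 1), (21, 1), (15, 1), (23, 1), (31, 1), (47, 1), (63, 1), (319, 1), (831, 1)]
(.cut 7 [(0, 1), (1, 1), (2, 1), (3, 1), (5, 1), (7, 1), (11, 1), (21, 1), (15, 1), (23, 1), (31, 1), (47, 1), (63, 1)]
(.cut 7 [(0, 1), (1, 1), (2, 1), (3, 1), (5, 1), (7, 1), (11, 1), (21, 1), (15, 1), (23, 1), (31, 1), (47, 1), (63, 1), (319, 1)]
(.cut 7 [(0, 1), (1, 1), (2, 1), (3, 1), (5, 1), (7, 1), (11, 1), (21, 1), (15, 1), (23, 1), (31, 1), (47, 1), (87, 2), (63, 1), (95, 2), (127, 1), (319, 1), (831, 1)]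
(.lp [[7], [0, 2, 4, 6], [1, 3, 5, 8, 9, 10, 11]] [(.mj 0 1, 159972), (.mj 11 6, 15655), (.rw 9, 11), (.hz 6 215, 10413567), (.hz 12 223, 79252894), (.rw 10, 28), (.rw 11, 48), (.rw 12, 16), (.rw 13, 20), (.rw 14, 11), (.rw 15, 3), (.rw 16, 18)]))))))))
.fin))
(.lp [[7], [0, 2, 4, 6], [1, 3, 5, 8, 9, 10]] [(.rw 8, 1)]))
.fin))
(.lp [[7], [0, 2, 4, 6], [1, 3, 5, 8, 9]] [(.rw 7, 1)]))
.fin))
(.lp [[7], [0, 2, 4, 6], [1, 3, 5, 8]] [(.rw 6, 1)]))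
.fin))
(.lp [[7], [1, 3, 5], [0, 2, 4, 6]] [(.mj 3 4, 1)])))
(.con 6 5)
(.con 7 6)
.fin))

theorem run233 : run P3488 (leaf3 218 625) (cutRow P3488) [] t233 s233 = true := by
  decide +kernel

theorem bad233 : Bad P3488 s233 :=
  run_sound (leaf3_sound P3488 rfl rfl) (cutRow_sound P3488) (
    fun _ h => absurd h List.not_mem_nil) t233 s233 run233

/-- the state above piece 111 of the tree -/
def s111 : St := ⟨[0, 0, 1, 3, 5, 7, 15, 21, 79], [95, 31, 15, 11, 7, 5, 3, 2, 1, 0], [0, 1, 2, 3, 4, 6, 7],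
  [],
  [⟨true, 2, 3, 3, 10⟩, ⟨true, 1, 5, 2, 5⟩, ⟨true, 2, 3, 23, 50⟩, ⟨true, 1, 5, 12, 25⟩, ⟨true, 4, 39, 4, 25⟩, ⟨true, 4, 39, 9, 50⟩, ⟨true, 4, 15, 4, 25⟩, ⟨true, 4, 15, 9, 50⟩, ⟨true, 1, 21, 29, 50⟩, ⟨true, 4, 39, 9, 40⟩, ⟨true, 3, 151, 7, 20⟩, ⟨false, 5, 15, 1, 5⟩, ⟨true, 3, 23, 19, 40⟩, ⟨true, 6, 47, 3, 10⟩, ⟨false, 5, 79, 3, 20⟩, ⟨true, 8, 223, 9, 40⟩, ⟨true, 5, 335, 1, 20⟩],
  [.spn 0 0 651200, .spn 1 1 302400, .spn 3 2 302400, .spn 7 3 140426, .spn 15 4 140426, .spn 31 6 140426, .spn 95 7 140426]⟩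

/-- piece 111 of the tree -/
noncomputable def t111 : WN.Tree :=
(.ask 149
(.mark 223 [5, 8, 9]
(.spn
(.lp [[5], [1, 3, 6, 8], [0, 2, 4, 7, 9]] [(.mj 3 4, 117), (.mj 5 8, 906), (.mj 6 7, 1621), (.mj 7 5, 871), (.rw 6, 1), (.rw 7, 1), (.hz 14 7, 5660), (.hz 14 15, 10432), (.hz 14 79, 12272), (.hz 16 335, 136016), (.hz 15 255, 258431), (.hz 15 735, 679142)])
(.haz 4 47 3 10
(.haz 5 79 1 10
(.lp [[5], [1, 3, 6, 8], [0, 2, 4, 7, 9]] [(.mj 3 4, 78), (.mj 4 6, 1), (.mj 7 8, 48), (.mj 8 5, 40), (.hz 9 39, 3877), (.hz 17 47, 19383), (.hz 14 79, 3081), (.hz 18 95, 6274), (.hz 18 335, 38919), (.hz 18 223, 103345), (.hz 18 351, 181162), (.hz 18 735, 284790)])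
(.cut 5 [(0, 1), (1, 1), (2, 1), (3, 1), (5, 1), (7, 1), (11, 1), (21, 1), (15, 1), (23, 1), (149, 1), (31, 1), (79, 1), (661, 1), (95, 1), (335, 2), (351, 1)]
(.cut 5 [(0, 1), (1, 1), (2, 1), (3, 1), (5, 1), (7, 1), (11, 1), (21, 1), (15, 1), (23, 1), (149, 1), (31, 1), (79, 1), (95, 1)]
(.cut 5 [(0, 1), (1, 1), (2, 1), (3, 1), (5, 1), (7, 1), (11, 1), (21, 1), (15, 1), (23, 1), (149, 1), (31, 1), (79, 1), (151, 1), (95, 1), (159, 1), (223, 1)]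
(.lp [[5], [1, 3, 6, 8], [0, 2, 4, 7, 9]] [(.mj 3 4, 1105305), (.mj 4 6, 179481), (.mj 7 8, 482465), (.mj 8 5, 81050), (.hz 18 7, 104941271), (.hz 18 15, 142370087), (.hz 17 47, 132576520), (.hz 18 79, 40349765), (.hz 8 661, 9404992), (.hz 16 335, 46481378), (.rw 8, 94), (.rw 9, 190), (.rw 10, 314)])))))
(.lp [[5], [1, 3, 6, 8], [0, 2, 4, 7, 9]] [(.mj 4 6, 8), (.hz 17 5, 272), (.hz 17 7, 1189), (.hz 14 7, 594), (.hz 17 15, 2524), (.hz 14 15, 656), (.hz 13 47, 4039)]))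
(.lp [[5], [1, 3, 6, 8], [0, 2, 4, 7, 9]] [(.mj 3 4, 214), (.mj 4 6, 33), (.mj 9 5, 64), (.mj 9 8, 84), (.hz 14 15, 11410), (.hz 9 39, 19626), (.hz 7 335, 1939), (.hz 16 335, 82329), (.hz 15 223, 42409), (.hz 9 367, 85453), (.hz 16 479, 522649), (.hz 15 735, 4810), (.hz 16 991, 192396)])
.fin))
(.haz 4 39 11 40
(.haz 6 47 2 5
(.ask 151
(.mark 223 [5, 8, 9]
(.spn
(.lp [[5], [1, 3, 6, 8], [0, 2, 4, 7, 9]] [(.mj 3 4, 891), (.mj 4 6, 158), (.mj 5 8, 3496), (.mj 6 7, 6328), (.mj 7 5, 3414), (.rw 6, 4), (.rw 7, 4), (.hz 14 15, 64173), (.hz 17 39, 59506), (.hz 16 335, 533405), (.hz 15 255, 1013469), (.hz 15 735, 2567261)])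
(.ask 335
(.mark 479 [5, 9, 10]
(.cut 5 [(0, 1), (1, 1), (2, 1), (3, 1), (5, 1), (7, 1), (11, 1), (21, 1), (15, 1), (23, 1), (149, 1), (31, 1), (79, 1), (95, 1)]
(.cut 5 [(0, 1), (1, 1), (2, 1), (3, 1), (5, 1), (7, 1), (11, 1), (21, 1), (15, 1), (23, 1), (149, 1), (31, 1), (79, 1), (151, 1), (95, 1), (159, 1), (223, 1)]
(.lp [[5], [0, 2, 4, 7, 9], [1, 3, 6, 8, 10]] [(.mj 3 4, 9821), (.mj 4 6, 1080), (.mj 7 8, 3948), (.mj 8 5, 2877), (.hz 17 39, 1057879), (.hz 17 47, 218830), (.hz 7 1359, 100358), (.hz 16 1359, 1150177), (.hz 17 1391, 1819937), (.hz 16 991, 3566760), (.rw 8, 3), (.rw 9, 2)]))))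
(.haz 5 31 1 10
(.lp [[5], [1, 3, 6, 8], [0, 2, 4, 7, 9]] [(.mj 3 4, 9), (.mj 7 8, 4), (.mj 8 5, 7), (.hz 19 31, 6448), (.hz 19 95, 3061), (.hz 19 159, 13026), (.hz 19 223, 10840), (.hz 19 351, 15999)])
(.cut 5 [(0, 1), (1, 1), (2, 1), (3, 1), (5, 1), (7, 1), (11, 1), (21, 1), (15, 1), (23, 1), (149, 1), (31, 1), (79, 1), (151, 1), (95, 1), (159, 1), (335, 1), (223, 1)]
(.lp [[5], [1, 3, 6, 8], [0, 2, 4, 7, 9]] [(.mj 3 4, 2271), (.mj 7 8, 902), (.mj 8 5, 71), (.hz 19 15, 751643), (.hz 17 39, 163995), (.rw 8, 1)]))))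
(.lp [[5], [1, 3, 6, 8], [0, 2, 4, 7, 9]] [(.mj 3 4, 5458), (.mj 4 6, 2126), (.mj 9 5, 594), (.mj 9 8, 594), (.rw 6, 1), (.hz 14 15, 102862), (.hz 17 39, 484281), (.hz 17 47, 17274), (.hz 18 47, 1987665), (.hz 16 335, 690965), (.hz 17 367, 649229), (.hz 16 479, 4097520), (.hz 15 735, 86655), (.hz 16 991, 3466201)])
.fin))
(.haz 4 335 3 10
(.haz 4 335 7 20
(.ask 159
(.mark 223 [5, 8, 9]
(.spn
(.lp [[5], [1, 3, 6, 8], [0, 2, 4, 7, 9]] [(.mj 3 4, 484), (.mj 5 8, 3482), (.mj 6 7, 3337), (.mj 7 5, 3410), (.rw 7, 2), (.hz 14 15, 32110), (.hz 17 39, 29775), (.hz 14 79, 37777), (.hz 16 335, 532855), (.hz 15 223, 997569), (.hz 15 255, 1012425), (.hz 15 735, 2284754)])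
(.haz 5 31 1 10
(.lp [[5], [1, 3, 6, 8], [0, 2, 4, 7, 9]] [(.mj 3 4, 70), (.mj 7 8, 49), (.mj 8 5, 64), (.hz 21 31, 53133), (.hz 21 95, 25225), (.hz 21 159, 107339), (.hz 20 335, 3840), (.hz 16 335, 19830), (.hz 21 223, 89330), (.hz 21 351, 177839), (.hz 21 671, 61302), (.hz 21 735, 167369)])
(.ask 335
(.mark 479 [5, 9, 10]
(.cut 5 [(0, 1), (1, 1), (2, 1), (3, 1), (5, 1), (7, 1), (11, 1), (21, 1), (15, 1), (23, 1), (149, 1), (31, 1), (79, 1), (95, 1), (335, 1)]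
(.cut 5 [(0, 1), (1, 1), (2, 1), (3, 1), (5, 1), (7, 1), (11, 1), (21, 1), (15, 1), (23, 1), (149, 1), (31, 1), (79, 1), (151, 1), (95, 1), (159, 1), (223, 1)]
(.lp [[5], [0, 2, 4, 7, 9], [1, 3, 6, 8, 10]] [(.mj 3 4, 17740), (.mj 4 6, 3021), (.mj 7 8, 5422), (.mj 8 5, 2054), (.hz 21 15, 2485950), (.hz 17 39, 1211886), (.hz 20 1359, 650373), (.hz 16 1359, 182110), (.hz 16 1375, 4540718), (.rw 8, 4), (.rw 9, 3)]))))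
(.cut 5 [(0, 1), (1, 1), (2, 1), (3, 1), (5, 1), (7, 1), (11, 1), (21, 1), (15, 1), (23, 1), (149, 1), (31, 1), (79, 1), (95, 1), (335, 1)]
(.cut 5 [(0, 1), (1, 1), (2, 1), (3, 1), (5, 1), (7, 1), (11, 1), (21, 1), (15, 1), (23, 1), (149, 1), (31, 1), (79, 1), (151, 1), (95, 1), (159, 1), (223, 1)]
(.lp [[5], [1, 3, 6, 8], [0, 2, 4, 7, 9]] [(.mj 3 4, 29714), (.mj 7 8, 8824), (.hz 21 15, 9644343), (.hz 17 39, 2104220), (.hz 15 735, 1481947), (.rw 8, 6), (.rw 9, 5)])))))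
(.cut 5 [(0, 1), (1, 1), (2, 1), (3, 1), (5, 1), (7, 1), (11, 1), (21, 1), (15, 1), (23, 1), (149, 1), (31, 1), (79, 1), (95, 1)]
(.lp [[5], [1, 3, 6, 8], [0, 2, 4, 7, 9]] [(.mj 3 4, 55), (.mj 6 7, 1263), (.mj 9 5, 976), (.mj 9 8, 961), (.hz 16 335, 48680), (.hz 15 223, 349844), (.rw 8, 2)]))
.fin))
(.ask 223
(.mark 223 [5, 8, 9]
(.spn
(.lp [[5], [1, 3, 6, 8], [0, 2, 4, 7, 9]] [(.mj 3 4, 96), (.mj 5 8, 130), (.mj 5 9, 48), (.mj 7 5, 148), (.hz 20 335, 4431), (.hz 16 335, 23066), (.hz 15 223, 15397), (.hz 15 255, 66331), (.hz 15 735, 92089)])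
(.haz 4 335 2 5
(.haz 5 735 1 20
(.ask 335
(.mark 479 [5, 9, 10]
(.spn
(.lp [[5], [0, 2, 4, 7, 9], [1, 3, 6, 8, 10]] [(.mj 3 4, 691), (.mj 5 9, 70), (.mj 7 8, 419), (.mj 8 5, 489), (.rw 8, 1), (.hz 21 1359, 29709), (.hz 16 1359, 159218), (.hz 22 735, 1722907), (.hz 16 1375, 1297598)])
(.cut 5 [(0, 1), (1, 1), (2, 1), (3, 1), (5, 1), (7, 1), (11, 1), (21, 1), (15, 1), (23, 1), (149, 1), (31, 1), (79, 1), (151, 1), (95, 1), (159, 1), (335, 1), (223, 1), (351, 1), (479, 1)]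
(.lp [[5], [0, 2, 4, 7, 9], [1, 3, 6, 8, 10]] [(.mj 3 4, 13053), (.mj 7 8, 5890), (.mj 8 9, 2437), (.mj 9 5, 7623), (.hz 21 1359, 2707531), (.hz 16 1375, 1481965), (.hz 21 1391, 17567296), (.hz 16 1503, 15294606), (.rw 9, 25)]))
(.cut 5 [(0, 1), (1, 1), (2, 1), (3, 1), (5, 1), (7, 1), (11, 1), (21, 1), (15, 1), (23, 1), (149, 1), (31, 1), (79, 1), (151, 1), (95, 1), (159, 1), (335, 1), (223, 1), (351, 1), (1359, 1), (479, 1), (1375, 1)]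
(.lp [[5], [0, 2, 4, 7, 9], [1, 3, 6, 8, 10]] [(.mj 7 8, 7211), (.mj 10 5, 5441), (.mj 10 9, 3410), (.hz 16 335, 4269542), (.hz 16 351, 16828487), (.hz 16 1359, 515820), (.hz 16 479, 666612), (.hz 22 735, 15620634), (.hz 15 735, 2212328), (.hz 16 991, 40742736), (.rw 9, 2)]))
.fin))
(.haz 5 95 1 10
(.lp [[5], [1, 3, 6, 8], [0, 2, 4, 7, 9]] [(.mj 3 4, 23), (.mj 7 8, 10), (.mj 8 5, 18), (.hz 23 95, 23507), (.hz 23 223, 73132), (.hz 23 351, 41443), (.hz 23 735, 31110)])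
(.cut 5 [(0, 1), (1, 1), (2, 1), (3, 1), (5, 1), (7, 1), (11, 1), (21, 1), (15, 1), (23, 1), (149, 1), (31, 1), (79, 1), (95, 1), (335, 1)]
(.lp [[5], [1, 3, 6, 8], [0, 2, 4, 7, 9]] [(.mj 3 4, 64094), (.mj 7 8, 16853), (.hz 23 7, 2591279), (.hz 23 15, 9534394), (.hz 17 39, 2419041), (.hz 23 79, 10593771), (.hz 16 335, 4403277), (.hz 16 351, 11612700), (.rw 8, 16)]))))
(.cut 5 [(0, 1), (1, 1), (2, 1), (3, 1), (5, 1), (7, 1), (11, 1), (21, 1), (15, 1), (23, 1), (149, 1), (31, 1), (79, 1)]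
(.lp [[5], [1, 3, 6, 8], [0, 2, 4, 7, 9]] [(.mj 3 4, 108), (.mj 4 6, 44), (.mj 7 8, 12), (.hz 22 7, 258285), (.hz 22 79, 17365), (.rw 8, 1)])))
(.lp [[5], [1, 3, 6, 8], [0, 2, 4, 7, 9]] [(.mj 4 6, 10), (.mj 7 8, 4), (.mj 8 5, 5), (.hz 14 7, 96), (.hz 17 39, 200), (.hz 18 47, 3337), (.hz 21 79, 29312), (.hz 12 55, 706), (.hz 18 63, 20145), (.hz 20 335, 4975), (.hz 16 335, 1562), (.hz 12 183, 351), (.hz 18 191, 16396), (.hz 16 351, 6128)]))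
(.lp [[5], [1, 3, 6, 8], [0, 2, 4, 7, 9]] [(.mj 3 4, 71286), (.mj 9 8, 10757), (.rw 7, 13), (.hz 17 39, 7722712), (.hz 17 47, 1411786), (.hz 14 79, 3694098), (.hz 20 335, 5128083), (.hz 16 335, 4370000), (.hz 15 223, 15664980), (.hz 16 351, 17143847), (.hz 16 479, 80926328), (.hz 15 735, 939062), (.hz 16 991, 37562480)])
.fin))
(.spn
(.lp [[5], [0, 2, 4, 7], [1, 3, 6, 8]] [(.mj 5 8, 2), (.mj 6 5, 1), (.mj 7 5, 2)])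
(.cut 5 [(0, 1), (1, 1), (2, 1), (3, 1), (5, 1), (7, 1), (11, 1), (21, 1), (15, 1), (23, 1), (149, 1), (31, 1), (79, 1), (151, 1), (95, 1), (159, 1), (223, 1)]
(.lp [[5], [0, 2, 4, 7], [1, 3, 6, 8]] [(.mj 7 8, 1066), (.mj 8 5, 431), (.rw 8, 1)]))
.fin
.fin)))
(.lp [[5], [0, 2, 4, 7], [1, 3, 6, 8]] [(.mj 4 6, 1324), (.rw 6, 1), (.hz 14 7, 26367), (.hz 20 15, 179159), (.hz 18 47, 1040137), (.hz 20 79, 942200), (.hz 12 55, 79100), (.hz 18 63, 755849), (.hz 17 111, 283791), (.hz 19 335, 1513089)]))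
(.lp [[5], [0, 2, 4, 7], [1, 3, 6, 8]] [(.mj 4 6, 1), (.hz 19 7, 188), (.hz 14 7, 76), (.hz 19 15, 309), (.hz 14 15, 52), (.hz 17 47, 6), (.hz 18 47, 989)])))
(.cut 5 [(0, 1), (1, 1), (2, 1), (3, 1), (5, 1), (7, 1), (11, 1), (21, 1), (15, 1), (23, 1), (149, 1), (31, 1), (79, 1), (95, 1), (335, 1)]
(.lp [[5], [0, 2, 4, 7], [1, 3, 6, 8]] [(.mj 3 4, 8258), (.mj 7 5, 841), (.hz 14 15, 757892), (.hz 18 15, 5787527), (.hz 17 39, 696393), (.hz 13 47, 798570), (.rw 7, 1)])))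
(.lp [[5], [0, 2, 4, 7], [1, 3, 6, 8]] [(.mj 0 1, 13), (.mj 4 6, 1), (.hz 17 7, 269), (.hz 14 7, 201), (.hz 14 15, 79), (.hz 9 39, 76), (.hz 13 47, 485)])))

theorem run111 : run P3488 (leaf3 218 625) (cutRow P3488) [] t111 s111 = true := by
  decide +kernel

theorem bad111 : Bad P3488 s111 :=
  run_sound (leaf3_sound P3488 rfl rfl) (cutRow_sound P3488) (
    fun _ h => absurd h List.not_mem_nil) t111 s111 run111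

/-- the state above piece 73 of the tree -/
def s73 : St := ⟨[0, 0, 1, 1, 7, 7], [5, 3, 2, 1, 0], [0, 1, 2],
  [],
  [⟨true, 1, 9, 7, 50⟩, ⟨true, 2, 11, 3, 50⟩, ⟨true, 2, 9, 9, 50⟩, ⟨false, 3, 3, 1, 5⟩, ⟨true, 2, 3, 1, 4⟩, ⟨true, 1, 9, 3, 10⟩, ⟨true, 2, 9, 3, 10⟩, ⟨true, 1, 9, 7, 20⟩, ⟨true, 1, 5, 7, 20⟩, ⟨true, 2, 9, 7, 20⟩, ⟨true, 2, 11, 27, 40⟩, ⟨true, 2, 11, 3, 4⟩],
  [.spn 0 0 651200, .spn 1 1 140426, .spn 3 2 302400]⟩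

/-- piece 73 of the tree -/
noncomputable def t73 : WN.Tree :=
(.mark 7 [3, 4, 5]
(.spn
(.haz 5 23 9 40
(.haz 5 23 3 10
(.ask 9
(.mark 15 [4, 5, 6]
(.lp [[1, 5], [3, 6], [0, 2, 4]] [(.mj 1 2, 13), (.mj 3 4, 3), (.mj 3 5, 3), (.mj 4 5, 2), (.hz 3 3, 3466), (.hz 9 73, 660), (.hz 13 23, 1151), (.hz 13 31, 688)]))
(.lp [[3], [1, 5], [0, 2, 4]] [(.mj 1 2, 190), (.mj 3 4, 33), (.mj 3 5, 61), (.hz 3 3, 46452), (.hz 13 23, 17469)]))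
(.lp [[3], [1, 5], [0, 2, 4]] [(.mj 1 2, 4), (.mj 3 4, 13), (.hz 3 1, 961), (.hz 3 3, 9499), (.hz 13 7, 2935), (.hz 12 23, 599)]))
(.lp [[3], [1, 5], [0, 2, 4]] [(.mj 1 2, 7), (.mj 3 4, 25), (.hz 3 1, 1760), (.hz 3 3, 15486), (.hz 12 7, 1153)]))
(.haz 3 55 3 40
(.ask 23
(.mark 23 [3, 5, 6]
(.spn
(.lp [[3], [1, 5], [0, 2, 4, 6]] [(.mj 4 3, 1180), (.rw 4, 2)])
(.haz 4 15 19 40
(.haz 3 87 1 20
(.ask 39
(.mark 55 [3, 6, 7]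
(.spn
(.lp [[3], [1, 5, 7], [0, 2, 4, 6]] [(.mj 3 6, 37605), (.mj 4 5, 89432), (.mj 5 3, 39584), (.rw 4, 53), (.rw 5, 67), (.hz 14 87, 3711044), (.hz 12 183, 15852115)])
(.haz 4 167 3 8
(.ask 87
(.mark 119 [3, 7, 8]
(.spn
(.lp [[3], [1, 5, 7], [0, 2, 4, 6, 8]] [(.mj 4 5, 620), (.mj 5 6, 612), (.mj 6 3, 507), (.rw 6, 1), (.hz 12 183, 355892), (.hz 12 375, 114940)])
(.cut 3 [(0, 1), (1, 1), (2, 1), (3, 1), (5, 1), (7, 1), (23, 1), (39, 1), (55, 1)]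
(.lp [[3], [1, 5, 7], [0, 2, 4, 6, 8]] [(.mj 4 5, 2270), (.mj 5 6, 1349), (.mj 7 3, 1402), (.hz 12 55, 78852), (.hz 14 343, 99503), (.hz 12 375, 287871), (.rw 7, 4)]))
(.cut 3 [(0, 1), (1, 1), (2, 1), (3, 1), (5, 1), (7, 1), (23, 1), (39, 1), (55, 1), (87, 1), (119, 1)]
(.lp [[3], [1, 5, 7], [0, 2, 4, 6, 8]] [(.mj 4 5, 1564), (.mj 5 6, 1614), (.mj 8 3, 1198), (.mj 8 7, 139), (.hz 12 183, 31202), (.rw 7, 4)]))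
.fin))
(.ask 119
(.mark 119 [3, 7, 8]
(.spn
(.lp [[3], [1, 5, 7], [0, 2, 4, 6, 8]] [(.mj 3 8, 309), (.mj 4 5, 851), (.mj 6 3, 754), (.rw 6, 1), (.hz 12 183, 627720)])
(.lp [[3], [1, 5, 7], [0, 2, 4, 6, 8]] [(.mj 4 5, 8), (.mj 7 3, 5), (.mj 7 8, 1), (.hz 12 55, 1775), (.hz 12 119, 524), (.hz 12 375, 1099)])
(.cut 3 [(0, 1), (1, 1), (2, 1), (3, 1), (5, 1), (7, 1), (23, 1), (39, 1), (55, 1)]
(.cut 7 [(0, 1), (1, 1), (2, 1), (3, 1), (5, 1), (9, 1), (7, 1), (11, 1), (13, 1), (15, 1), (23, 1), (39, 1), (31, 1), (55, 1), (87, 1), (95, 1)]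
(.lp [[3], [1, 5, 7], [0, 2, 4, 6, 8]] [(.mj 4 5, 20946), (.mj 8 3, 153214), (.hz 12 55, 38508404), (.hz 15 167, 5446523), (.hz 12 119, 4013760), (.hz 12 247, 38589445), (.rw 7, 300), (.rw 8, 13)])))
.fin))
(.lp [[3], [1, 5, 7], [0, 2, 4, 6]] [(.mj 4 5, 3), (.mj 5 3, 2), (.hz 12 55, 316), (.hz 12 183, 655)])))
(.lp [[3], [1, 5, 7], [0, 2, 4, 6]] [(.mj 4 5, 527), (.rw 3, 1), (.hz 15 7, 527192)]))
(.cut 3 [(0, 1), (1, 1), (2, 1), (3, 1), (5, 1), (7, 1), (23, 1), (39, 1), (55, 1)]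
(.lp [[3], [1, 5, 7], [0, 2, 4, 6]] [(.mj 4 5, 1187), (.mj 7 3, 726), (.mj 7 6, 726), (.rw 6, 2)]))
.fin))
(.ask 55
(.mark 55 [3, 6, 7]
(.spn
(.haz 6 55 11 40
(.lp [[3], [1, 5, 7], [0, 2, 4, 6]] [(.mj 3 6, 4), (.mj 3 7, 1), (.mj 4 5, 2), (.mj 5 3, 4), (.hz 15 55, 134), (.hz 15 63, 180), (.hz 15 183, 496)])
(.lp [[3], [1, 5, 7], [0, 2, 4, 6]] [(.mj 4 5, 1997), (.mj 5 3, 926), (.rw 5, 2), (.hz 15 23, 54261)]))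
(.ask 87
(.mark 119 [3, 7, 8]
(.spn
(.haz 8 127 7 20
(.lp [[3], [1, 5, 7], [0, 2, 4, 6, 8]] [(.mj 5 6, 2355), (.mj 6 3, 5023), (.rw 6, 14), (.hz 12 183, 2208274), (.hz 15 127, 2352245)])
(.lp [[3], [1, 5, 7], [0, 2, 4, 6, 8]] [(.mj 3 7, 1114), (.mj 6 3, 28599), (.rw 6, 61), (.hz 15 119, 1839421), (.hz 12 183, 14096097), (.hz 14 343, 7970823), (.hz 12 247, 1)]))
(.maj 3 8
(.cut 3 [(0, 1), (1, 1), (2, 1), (3, 1), (5, 1), (7, 1), (23, 1), (39, 1), (55, 1), (87, 1), (119, 1)]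
(.lp [[3], [1, 5, 7], [0, 2, 4, 6, 8]] [(.mj 4 5, 587), (.mj 6 7, 119), (.mj 7 3, 1230), (.hz 14 343, 529934), (.hz 12 375, 162831), (.rw 7, 4)]))
(.cut 3 [(0, 1), (1, 1), (2, 1), (3, 1), (5, 1), (7, 1), (23, 1), (39, 1), (55, 1), (87, 1), (119, 1)]
(.lp [[3], [1, 5, 7], [0, 2, 4, 6, 8]] [(.mj 5 6, 30), (.mj 6 7, 40), (.mj 7 8, 31), (.mj 8 3, 349), (.hz 12 55, 25678), (.hz 12 119, 12126), (.hz 12 247, 57437), (.rw 7, 1)])))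
(.ask 183
(.mark 183 [3, 6, 9]
(.cut 3 [(0, 1), (1, 1), (2, 1), (3, 1), (5, 1), (7, 1), (23, 1), (39, 1), (55, 1), (183, 1)]
(.lp [[3], [1, 5, 7, 9], [0, 2, 4, 6, 8]] [(.mj 5 6, 188), (.mj 8 3, 1321), (.hz 12 55, 109026), (.hz 12 183, 64438), (.hz 12 247, 33384), (.hz 12 375, 2329), (.rw 7, 4)])))
(.lp [[3], [1, 5, 7], [0, 2, 4, 6, 8]] [(.mj 5 6, 4), (.mj 8 3, 3), (.mj 8 7, 1), (.hz 12 119, 1233), (.hz 12 183, 622), (.hz 12 247, 1575), (.hz 12 375, 998)]))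
.fin))
(.ask 119
(.mark 119 [3, 7, 8]
(.spn
(.haz 8 247 13 40
(.lp [[3], [1, 5, 7], [0, 2, 4, 6, 8]] [(.mj 3 7, 316), (.mj 3 8, 914), (.mj 4 5, 1044), (.mj 6 3, 1606), (.rw 6, 1), (.hz 12 183, 529528), (.hz 15 247, 258601)])
(.lp [[3], [1, 5, 7], [0, 2, 4, 6, 8]] [(.mj 3 7, 5), (.mj 4 5, 1), (.mj 6 3, 6), (.hz 15 119, 835)]))
(.lp [[3], [1, 5, 7], [0, 2, 4, 6, 8]] [(.mj 4 5, 29), (.mj 7 3, 17), (.mj 7 8, 1), (.hz 12 55, 6895), (.hz 12 119, 2036), (.hz 12 183, 331), (.hz 12 375, 2975)])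
(.cut 3 [(0, 1), (1, 1), (2, 1), (3, 1), (5, 1), (7, 1), (23, 1), (39, 1), (55, 1), (87, 1), (119, 1)]
(.lp [[3], [1, 5, 7], [0, 2, 4, 6, 8]] [(.mj 8 3, 3654), (.hz 12 247, 634425), (.rw 7, 13)]))
.fin))
(.cut 3 [(0, 1), (1, 1), (2, 1), (3, 1), (5, 1), (7, 1), (23, 1), (39, 1), (55, 1), (87, 1), (183, 1)]
(.lp [[3], [1, 5, 7], [0, 2, 4, 6]] [(.mj 4 5, 32293), (.mj 6 3, 24959), (.hz 12 55, 8533980), (.hz 12 183, 3849919), (.rw 6, 4)]))))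
(.maj 3 6
(.cut 3 [(0, 1), (1, 1), (2, 1), (3, 1), (5, 1), (7, 1), (23, 1)]
(.lp [[3], [1, 5, 7], [0, 2, 4, 6]] [(.mj 4 5, 16006), (.rw 5, 5), (.rw 6, 23)]))
(.cut 3 [(0, 1), (1, 1), (2, 1), (3, 1), (5, 1), (7, 1), (23, 1), (39, 1), (55, 1)]
(.cut 6 [(0, 1), (1, 1), (2, 1), (3, 1), (5, 1), (7, 1), (23, 1), (39, 1), (55, 1)]
(.lp [[3], [1, 5, 7], [0, 2, 4, 6]] [(.mj 4 5, 81761), (.mj 6 3, 46331), (.mj 7 6, 46331), (.hz 12 55, 6813440), (.hz 12 119, 21913495), (.rw 6, 106), (.rw 7, 40)]))))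
.fin))
(.spn
(.lp [[3], [1, 5], [0, 2, 4, 6]] [(.mj 3 6, 2), (.mj 5 3, 3)])
(.ask 87
(.mark 87 [3, 5, 7]
(.ask 119
(.mark 119 [3, 7, 8]
(.spn
(.lp [[3], [1, 5, 8], [0, 2, 4, 6, 7]] [(.mj 3 8, 368), (.mj 5 6, 1466), (.mj 6 3, 857), (.rw 6, 1), (.hz 12 247, 309121)])
(.lp [[3], [1, 5, 8], [0, 2, 4, 6, 7]] [(.mj 5 6, 5), (.mj 7 3, 4), (.mj 7 8, 1), (.hz 12 119, 1418), (.hz 12 247, 1148), (.hz 12 375, 956)])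
(.cut 3 [(0, 1), (1, 1), (2, 1), (3, 1), (5, 1), (7, 1), (23, 1), (39, 1), (55, 1), (87, 1), (119, 1)]
(.cut 7 [(0, 1), (1, 1), (2, 1), (3, 1), (5, 1), (9, 1), (7, 1), (11, 1), (13, 1), (15, 1), (23, 1), (39, 1), (31, 1), (47, 1), (55, 1), (87, 1), (63, 1)]
(.lp [[3], [1, 5, 8], [0, 2, 4, 6, 7]] [(.mj 5 6, 2652), (.mj 8 3, 20583), (.hz 12 247, 2920090), (.rw 7, 73), (.rw 8, 1)])))
.fin))
(.lp [[3], [1, 5], [0, 2, 4, 6, 7]] [(.mj 5 6, 3), (.mj 6 3, 2), (.hz 14 87, 1045), (.hz 12 247, 179)])))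
(.ask 119
(.maj 3 7
(.ask 119
(.mark 119 [3, 7, 8]
(.spn
(.haz 8 247 7 40
(.lp [[3], [1, 5, 8], [0, 2, 4, 6, 7]] [(.mj 3 7, 132), (.mj 6 3, 203), (.mj 7 8, 109), (.hz 15 247, 18601), (.hz 12 375, 86915)])
(.lp [[3], [1, 5, 8], [0, 2, 4, 6, 7]] [(.mj 3 7, 1), (.mj 6 3, 1), (.hz 15 119, 170)]))
(.con 7 3)
(.con 8 7)
.fin))
(.lp [[3], [1, 5], [0, 2, 4, 6, 7]] [(.mj 3 7, 1), (.mj 6 3, 1)]))
(.cut 3 [(0, 1), (1, 1), (2, 1)]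
(.cut 3 [(0, 1), (1, 1), (2, 1), (3, 1), (5, 1)]
(.cut 3 [(0, 1), (1, 1), (2, 1), (3, 1), (5, 1), (7, 1), (23, 1)]
(.cut 3 [(0, 1), (1, 1), (2, 1), (3, 1), (5, 1), (7, 1), (39, 1)]
(.cut 3 [(0, 1), (1, 1), (2, 1), (3, 1), (5, 1), (7, 1), (23, 1), (39, 1), (55, 1), (87, 1)]
(.lp [[3], [1, 5], [0, 2, 4, 6, 7]] [(.mj 7 3, 4570), (.rw 6, 4), (.rw 7, 3), (.rw 8, 3), (.rw 9, 3), (.rw 10, 3)])))))))
(.lp [[3], [1, 5], [0, 2, 4, 6]] [(.mj 6 3, 1)])))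
.fin
.fin)))
(.cut 3 [(0, 1), (1, 1), (2, 1)]
(.lp [[3], [1, 5], [0, 2, 4, 6]] [(.hz 14 1, 49617), (.hz 14 3, 49617), (.rw 5, 1)])))
(.lp [[3], [1, 5], [0, 2, 4, 6]] [(.mj 4 5, 2761), (.rw 3, 4), (.hz 13 7, 435986)]))
(.ask 87
(.mark 87 [3, 5, 7]
(.spn
(.lp [[3], [1, 5], [0, 2, 4, 6, 7]] [(.mj 6 3, 274), (.rw 5, 1)])
(.lp [[3], [1, 5], [0, 2, 4, 6, 7]] [(.mj 6 5, 1186), (.rw 5, 2), (.hz 12 55, 560998)])
(.ask 215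
(.mark 215 [3, 5, 8]
(.spn
(.lp [[3], [1, 5], [0, 2, 4, 6, 7, 8]] [(.mj 7 3, 149), (.rw 6, 1)])
(.lp [[3], [1, 5], [0, 2, 4, 6, 7, 8]] [(.mj 7 5, 627), (.rw 6, 1)])
(.maj 3 5
(.cut 5 [(0, 1), (1, 1), (2, 1), (3, 1), (5, 1), (9, 1), (7, 1), (11, 1), (13, 1)]
(.cut 3 [(0, 1), (1, 1), (2, 1), (3, 1), (5, 1), (7, 1), (23, 1)]
(.cut 3 [(0, 1), (1, 1), (2, 1), (3, 1), (5, 1), (7, 1), (23, 1), (87, 1)]
(.cut 5 [(0, 1), (1, 1), (2, 1), (3, 1), (5, 1), (9, 1), (7, 1), (11, 1), (13, 1), (15, 1), (23, 1), (31, 1)]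
(.lp [[3], [1, 5], [0, 2, 4, 6, 7, 8]] [(.mj 8 3, 3318), (.hz 12 55, 1209619), (.hz 12 119, 864013), (.rw 7, 1), (.rw 8, 1), (.rw 9, 11), (.rw 10, 1)])))))
(.cut 3 [(0, 1), (1, 1), (2, 1), (3, 1), (5, 1), (7, 1)]
(.cut 3 [(0, 1), (1, 1), (2, 1), (3, 1), (5, 1), (7, 1), (23, 1)]
(.cut 3 [(0, 1), (1, 1), (2, 1), (3, 1), (5, 1), (7, 1), (23, 1), (39, 1), (55, 1), (87, 1)]
(.cut 5 [(0, 1), (1, 1), (2, 1), (3, 1), (5, 1), (7, 1), (23, 1), (87, 1)]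
(.lp [[3], [1, 5], [0, 2, 4, 6, 7, 8]] [(.mj 8 5, 1423), (.rw 6, 4), (.hz 12 55, 817436), (.hz 12 119, 474996), (.hz 12 247, 378064), (.rw 7, 15), (.rw 8, 3), (.rw 9, 5), (.rw 10, 22)]))))))
.fin))
(.lp [[3], [1, 5], [0, 2, 4, 6, 7]] [(.mj 7 5, 1), (.rw 5, 1)]))
.fin))
(.lp [[3], [1, 5], [0, 2, 4, 6]] [(.mj 6 5, 1), (.rw 4, 1)]))
.fin))
(.lp [[3], [1, 5], [0, 2, 4]] [(.mj 4 5, 427), (.rw 3, 1), (.hz 12 55, 140713)]))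
(.cut 3 [(0, 1), (2, 1)]
(.cut 3 [(0, 1), (1, 1), (2, 1), (3, 1), (5, 1), (7, 1)]
(.lp [[3], [1, 5], [0, 2, 4]] [(.hz 12 23, 5307841), (.hz 12 39, 5307841), (.rw 4, 5), (.rw 5, 80)]))))
(.con 5 4)
.fin))

theorem run73 : run P3488 (leaf3 218 625) (cutRow P3488) [] t73 s73 = true := by
  decide +kernel

theorem bad73 : Bad P3488 s73 :=
  run_sound (leaf3_sound P3488 rfl rfl) (cutRow_sound P3488) (
    fun _ h => absurd h List.not_mem_nil) t73 s73 run73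

/-- the state above piece 19 of the tree -/
def s19 : St := ⟨[0, 0, 1, 1, 3, 5, 15], [27, 19, 15, 11, 13, 9, 7, 3, 2, 1, 0], [0, 1, 2, 3, 4],
  [],
  [⟨true, 1, 9, 7, 50⟩, ⟨true, 2, 11, 3, 50⟩, ⟨true, 2, 9, 9, 50⟩, ⟨true, 3, 3, 1, 5⟩, ⟨true, 1, 5, 13, 50⟩, ⟨true, 4, 39, 1, 10⟩, ⟨true, 2, 19, 13, 50⟩, ⟨true, 4, 39, 4, 25⟩, ⟨true, 2, 19, 17, 50⟩, ⟨true, 4, 39, 1, 5⟩, ⟨true, 5, 79, 2, 25⟩, ⟨true, 5, 79, 3, 25⟩, ⟨true, 3, 19, 11, 50⟩, ⟨true, 5, 79, 7, 50⟩, ⟨true, 4, 79, 6, 25⟩],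
  [.spn 0 0 651200, .spn 1 1 140426, .spn 3 2 140426, .spn 7 3 62723, .spn 15 4 62723]⟩

/-- piece 19 of the tree -/
noncomputable def t19 : WN.Tree :=
(.haz 4 79 11 40
(.ask 23
(.mark 31 [5, 6, 7]
(.spn
(.haz 3 39 7 25
(.haz 4 39 7 25
(.haz 4 79 3 10
(.haz 6 191 2 25
(.haz 5 151 3 25
(.haz 5 79 9 50
(.haz 3 151 17 50
(.ask 37
(.mark 63 [6, 7, 8]
(.spn
(.haz 6 159 1 5
(.ask 79
(.mark 127 [7, 8, 9]
(.spn
(.ask 151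
(.mark 255 [8, 9, 10]
(.lp [[3, 6, 9], [0, 2, 5, 8], [1, 4, 7, 10]] [(.mj 1 2, 1956), (.mj 3 4, 21100), (.mj 4 5, 21575), (.mj 5 6, 16603), (.mj 6 7, 4207), (.rw 7, 1), (.hz 17 295, 27573), (.hz 21 591, 3041057), (.hz 20 1175, 2933087), (.hz 23 1183, 85232984)]))
(.ask 159
(.mark 255 [8, 9, 10]
(.lp [[3, 6, 9], [0, 2, 5, 8], [1, 4, 7, 10]] [(.mj 1 2, 90942), (.mj 2 3, 112640), (.mj 3 4, 60443), (.mj 4 5, 20214), (.mj 5 6, 3778), (.mj 6 7, 4997), (.rw 7, 1), (.hz 21 79, 2420020), (.hz 16 295, 5236989), (.hz 17 295, 7002866), (.hz 23 159, 7048732), (.hz 21 591, 2021360), (.hz 20 1183, 2735373), (.hz 23 1183, 10862444)]))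
(.lp [[1, 4, 7], [3, 6, 9], [0, 2, 5, 8]] [(.mj 1 2, 33), (.mj 2 3, 64), (.mj 3 4, 42), (.mj 4 5, 35), (.mj 5 6, 13), (.mj 6 7, 7), (.hz 21 79, 4281), (.hz 16 295, 661), (.hz 17 295, 5272), (.hz 21 591, 1972)])))
(.ask 151
(.mark 255 [8, 9, 10]
(.lp [[3, 6, 9], [0, 2, 5, 8], [1, 4, 7, 10]] [(.mj 1 2, 2), (.mj 3 4, 17), (.mj 4 5, 18), (.mj 5 6, 14), (.mj 8 7, 3), (.hz 20 151, 1208), (.hz 17 295, 23), (.hz 23 159, 49397), (.hz 21 591, 2508), (.hz 23 1183, 37117)]))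
(.lp [[1, 4, 7], [3, 6, 9], [0, 2, 5, 8]] [(.mj 1 2, 3657), (.mj 2 3, 12664), (.mj 3 4, 4210), (.mj 4 5, 7399), (.mj 5 6, 1742), (.mj 8 7, 2117), (.rw 7, 1), (.hz 16 295, 653054), (.hz 23 159, 14258286), (.hz 21 591, 1986872), (.hz 22 183, 808192), (.hz 21 223, 2874654), (.hz 21 607, 466490)]))
(.ask 151
(.mark 191 [6, 8, 10]
(.lp [[3, 6, 9], [0, 2, 5, 8], [1, 4, 7, 10]] [(.mj 1 2, 5), (.mj 3 4, 8), (.mj 4 5, 6), (.mj 5 6, 6), (.mj 9 7, 1), (.hz 20 151, 340), (.hz 17 295, 69), (.hz 23 159, 15626), (.hz 18 591, 447), (.hz 21 591, 578), (.hz 23 1183, 20029)]))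
(.lp [[1, 4, 7], [3, 6, 9], [0, 2, 5, 8]] [(.mj 1 2, 87), (.mj 2 3, 117), (.mj 3 4, 64), (.mj 4 5, 25), (.mj 5 6, 5), (.mj 9 7, 5), (.hz 21 79, 2886), (.hz 16 295, 5193), (.hz 17 295, 7624), (.hz 23 159, 39599), (.hz 21 591, 2491), (.hz 22 183, 2522), (.hz 21 223, 5465)]))
.fin))
(.lp [[3, 6], [1, 4, 7], [0, 2, 5, 8]] [(.mj 1 2, 115), (.mj 2 3, 141), (.mj 3 4, 118), (.mj 4 5, 33), (.mj 5 6, 15), (.mj 6 7, 2), (.hz 4 293, 22), (.hz 20 151, 5489), (.hz 16 295, 914), (.hz 17 295, 19826), (.hz 20 159, 1652), (.hz 23 159, 41324)]))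
(.lp [[3, 6], [1, 4, 7], [0, 2, 5, 8]] [(.mj 1 2, 4), (.mj 2 3, 5), (.mj 3 4, 6), (.mj 4 5, 3), (.mj 6 7, 1), (.hz 23 15, 3468), (.hz 23 31, 3794), (.hz 20 151, 850), (.hz 17 295, 640), (.hz 20 159, 598)]))
(.haz 6 31 3 10
(.lp [[3, 6], [1, 4, 7], [0, 2, 5, 8]] [(.mj 1 2, 50), (.mj 2 3, 25), (.mj 3 4, 27), (.mj 5 7, 3), (.mj 7 6, 7), (.hz 23 31, 2851), (.hz 21 79, 531), (.hz 17 295, 4219), (.hz 23 63, 16891), (.hz 23 159, 5286), (.hz 23 319, 7800)])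
(.lp [[3, 6], [1, 4, 7], [0, 2, 5, 8]] [(.mj 1 2, 137), (.mj 2 3, 151), (.mj 3 4, 123), (.mj 4 5, 20), (.mj 7 6, 1), (.hz 23 15, 16411), (.hz 17 39, 1410), (.hz 20 151, 5593), (.hz 17 295, 20352), (.hz 21 95, 503)]))
(.lp [[3, 6], [1, 4, 7], [0, 2, 5, 8]] [(.mj 1 2, 702), (.mj 2 3, 321), (.mj 3 4, 284), (.mj 8 6, 57), (.mj 8 7, 55), (.hz 21 79, 8070), (.hz 20 151, 17316), (.hz 16 295, 23536), (.hz 17 295, 9548), (.hz 21 95, 14375), (.hz 20 159, 50950), (.hz 19 191, 304900)])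
.fin))
(.haz 5 159 1 5
(.ask 39
(.mark 63 [6, 7, 8]
(.spn
(.ask 79
(.mark 127 [7, 8, 9]
(.spn
(.haz 6 159 1 4
(.ask 151
(.mark 191 [6, 8, 10]
(.lp [[3, 6, 9], [0, 2, 5, 8], [1, 4, 7, 10]] [(.mj 2 3, 25), (.mj 3 4, 47), (.mj 4 5, 42), (.mj 5 6, 25), (.mj 6 7, 4), (.hz 21 79, 343), (.hz 17 295, 2973), (.hz 24 159, 52219), (.hz 21 591, 6827), (.hz 23 1183, 7143), (.hz 24 1183, 115367)]))
(.lp [[1, 4, 7], [3, 6, 9], [0, 2, 5, 8]] [(.mj 2 3, 91), (.mj 3 4, 57), (.mj 4 5, 50), (.mj 5 6, 11), (.mj 6 7, 5), (.hz 21 79, 5114), (.hz 16 295, 2078), (.hz 17 295, 6731), (.hz 23 159, 26728), (.hz 24 159, 39194), (.hz 21 591, 4970)]))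
(.lp [[1, 4, 7], [3, 6, 9], [0, 2, 5, 8]] [(.mj 2 3, 23), (.mj 3 4, 18), (.mj 4 5, 13), (.mj 6 7, 2), (.hz 24 15, 6699), (.hz 24 31, 10586), (.hz 21 79, 878), (.hz 17 295, 2458), (.hz 23 159, 12870), (.hz 21 591, 1396)]))
(.haz 7 95 1 4
(.lp [[1, 4, 7], [3, 6, 9], [0, 2, 5, 8]] [(.mj 2 3, 30), (.mj 3 4, 27), (.mj 4 5, 49), (.mj 5 6, 11), (.mj 8 7, 18), (.mj 8 9, 4), (.hz 20 151, 3994), (.hz 24 95, 63585), (.hz 23 159, 59870), (.hz 21 591, 10449), (.hz 24 127, 194980), (.hz 24 607, 123380)])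
(.lp [[1, 4, 7], [3, 6, 9], [0, 2, 5, 8]] [(.mj 2 3, 323), (.mj 3 4, 183), (.mj 4 5, 164), (.mj 5 6, 22), (.mj 8 9, 7), (.hz 24 23, 64035), (.hz 24 31, 64641), (.hz 16 295, 10343), (.hz 17 295, 18252), (.hz 21 591, 34834), (.hz 21 607, 17214)]))
(.haz 7 95 1 5
(.lp [[1, 4, 7], [3, 6, 9], [0, 2, 5, 8]] [(.mj 2 3, 116), (.mj 3 4, 100), (.mj 4 5, 149), (.mj 5 6, 46), (.mj 9 7, 49), (.hz 21 79, 21775), (.hz 20 151, 12254), (.hz 17 295, 4229), (.hz 24 95, 289598), (.hz 23 159, 169065), (.hz 21 591, 9854), (.hz 24 127, 538488)])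
(.lp [[1, 4, 7], [3, 6, 9], [0, 2, 5, 8]] [(.mj 2 3, 30), (.mj 3 4, 13), (.mj 4 5, 15), (.mj 5 6, 1), (.hz 24 23, 10930), (.hz 24 31, 294), (.hz 21 79, 2070), (.hz 16 295, 1557), (.hz 17 295, 520), (.hz 21 591, 1711)]))
.fin))
(.lp [[3, 6], [1, 4, 7], [0, 2, 5, 8]] [(.mj 2 3, 98), (.mj 3 4, 79), (.mj 4 5, 42), (.mj 5 6, 8), (.hz 17 39, 5742), (.hz 21 79, 2308), (.hz 22 151, 65), (.hz 17 295, 8037)]))
(.ask 79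
(.mark 111 [4, 8, 9]
(.lp [[1, 4, 7], [3, 6, 9], [0, 2, 5, 8]] [(.mj 2 3, 78), (.mj 3 4, 64), (.mj 4 5, 38), (.mj 7 6, 7), (.hz 18 79, 6780), (.hz 21 79, 8373), (.hz 20 151, 1664), (.hz 17 295, 9791), (.hz 21 95, 1108), (.hz 23 159, 19182), (.hz 17 303, 2076), (.hz 21 591, 183), (.hz 18 367, 32339)]))
(.lp [[3, 6], [1, 4, 7], [0, 2, 5, 8]] [(.mj 2 3, 33), (.mj 3 4, 27), (.mj 4 5, 14), (.mj 7 6, 2), (.hz 17 39, 1950), (.hz 21 79, 1141), (.hz 17 295, 2749), (.hz 21 95, 1041)]))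
(.lp [[3, 6], [1, 4, 7], [0, 2, 5, 8]] [(.mj 3 4, 58), (.mj 4 5, 60), (.mj 8 6, 34), (.mj 8 7, 19), (.hz 18 79, 6684), (.hz 21 79, 12292), (.hz 21 95, 12029), (.hz 23 159, 157261), (.hz 19 191, 140652)])
.fin))
(.ask 79
(.mark 79 [4, 5, 8]
(.lp [[2, 5], [1, 4, 7], [0, 3, 6, 8]] [(.mj 1 2, 7), (.mj 2 3, 113), (.mj 3 4, 60), (.mj 4 5, 28), (.hz 17 47, 4447), (.hz 18 79, 7353), (.hz 21 79, 2302), (.hz 22 151, 1976), (.hz 20 151, 496), (.hz 21 335, 2808)]))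
(.lp [[3, 6], [0, 2, 5], [1, 4, 7]] [(.mj 1 2, 2), (.mj 2 3, 31), (.mj 3 4, 18), (.mj 4 5, 9), (.hz 17 47, 1193), (.hz 21 79, 486), (.hz 22 151, 411), (.hz 20 151, 371)])))
(.lp [[3, 6], [0, 2, 5], [1, 4, 7]] [(.mj 2 3, 470), (.mj 3 4, 377), (.mj 5 6, 107), (.hz 23 7, 142621), (.hz 23 13, 82736), (.hz 23 15, 178983), (.hz 17 39, 37531), (.hz 18 79, 120213), (.hz 22 151, 295), (.hz 20 159, 4915), (.hz 19 191, 61442)])))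
(.lp [[3, 6], [0, 2, 5], [1, 4, 7]] [(.mj 1 2, 2), (.mj 3 4, 26), (.mj 4 5, 12), (.hz 22 7, 1743), (.hz 22 23, 477), (.hz 16 39, 2018), (.hz 17 39, 2619), (.hz 21 79, 1230)]))
(.lp [[3, 6], [0, 2, 5], [1, 4, 7]] [(.mj 2 3, 52), (.mj 3 4, 42), (.mj 5 6, 12), (.hz 21 5, 571), (.hz 21 7, 1116), (.hz 21 13, 471), (.hz 21 15, 1982), (.hz 17 39, 4233), (.hz 18 79, 13315)]))
(.lp [[3, 6], [0, 2, 5], [1, 4, 7]] [(.mj 2 3, 13), (.mj 3 4, 11), (.mj 5 6, 3), (.hz 20 5, 1566), (.hz 18 79, 3365)]))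
(.lp [[3, 6], [0, 2, 5], [1, 4, 7]] [(.mj 2 3, 3), (.mj 3 4, 36), (.mj 4 5, 25), (.mj 5 7, 6), (.hz 19 15, 5030), (.hz 19 31, 4953)]))
(.lp [[3, 6], [0, 2, 5], [1, 4, 7]] [(.mj 1 2, 52), (.mj 4 5, 4), (.mj 5 6, 10), (.hz 18 7, 5708), (.hz 18 15, 15424), (.hz 15 79, 2741), (.hz 13 79, 398)]))
(.lp [[3, 6], [0, 2, 5], [1, 4, 7]] [(.mj 2 3, 66), (.mj 4 5, 41), (.mj 5 6, 7), (.hz 17 7, 6935), (.hz 16 39, 6604), (.hz 15 79, 1871), (.hz 13 79, 4087)]))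
(.lp [[3, 6], [0, 2, 5], [1, 4, 7]] [(.mj 3 4, 7), (.mj 4 5, 4), (.hz 16 7, 1157), (.hz 3 39, 4095), (.hz 9 39, 3694)]))
(.haz 5 15 1 5
(.lp [[3, 6], [0, 2, 5], [1, 4, 7]] [(.mj 2 3, 9), (.mj 6 5, 6), (.mj 6 7, 2), (.hz 16 15, 7098), (.hz 16 31, 14550), (.hz 15 79, 88), (.hz 12 151, 1192), (.hz 16 159, 34036)])
(.haz 3 23 9 25
(.haz 5 23 4 25
(.lp [[3, 6], [0, 2, 5], [1, 4, 7]] [(.mj 2 3, 16), (.mj 6 5, 10), (.mj 6 7, 2), (.hz 18 31, 6725), (.hz 15 79, 170), (.hz 13 79, 1009), (.hz 17 151, 2163), (.hz 18 151, 1590), (.hz 18 159, 7339)])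
(.lp [[3, 6], [0, 2, 5], [1, 4, 7]] [(.mj 2 3, 15), (.mj 3 4, 3), (.mj 6 7, 1), (.hz 18 5, 206), (.hz 18 7, 657), (.hz 17 23, 871), (.hz 15 79, 18), (.hz 17 55, 29), (.hz 17 151, 502)]))
(.lp [[3, 6], [0, 2, 5], [1, 4, 7]] [(.mj 3 4, 1), (.hz 16 5, 57), (.hz 17 7, 154), (.hz 16 7, 413), (.hz 16 13, 128), (.hz 9 39, 475), (.hz 12 151, 1)])))
(.haz 5 23 4 25
(.lp [[3, 6], [0, 2, 5], [1, 4, 7]] [(.mj 2 3, 6), (.mj 3 4, 5), (.mj 7 5, 7), (.mj 7 6, 1), (.hz 16 23, 1362), (.hz 16 31, 3824), (.hz 15 79, 693), (.hz 13 79, 1179), (.hz 16 95, 5115)])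
(.lp [[3, 6], [0, 2, 5], [1, 4, 7]] [(.mj 2 3, 32), (.mj 3 4, 27), (.mj 7 5, 8), (.mj 7 6, 4), (.hz 16 5, 780), (.hz 16 7, 615), (.hz 9 39, 18384), (.hz 9 47, 17163), (.hz 15 79, 2053), (.hz 13 79, 1576), (.hz 13 95, 4757)]))
.fin))
(.haz 3 39 7 25
(.haz 5 15 13 50
(.lp [[1, 4], [3, 6], [0, 2, 5]] [(.mj 1 2, 50), (.mj 2 3, 122), (.mj 3 4, 44), (.mj 4 5, 39), (.hz 16 39, 8995), (.hz 17 79, 3642)])
(.lp [[1, 4], [3, 6], [0, 2, 5]] [(.mj 1 2, 50), (.mj 2 3, 67), (.mj 3 4, 25), (.mj 4 6, 1), (.hz 17 7, 1703), (.hz 13 79, 833), (.hz 16 55, 1181)]))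
(.lp [[1, 4], [3, 6], [0, 2, 5]] [(.mj 3 4, 3), (.mj 4 5, 4), (.hz 16 7, 1380), (.hz 3 39, 6635)])))
(.lp [[1, 4], [3, 6], [0, 2, 5]] [(.mj 1 2, 210), (.mj 4 6, 35), (.hz 15 7, 4696), (.hz 15 15, 12177), (.hz 3 39, 2860), (.hz 13 79, 6518)]))

theorem run19 : run P3488 (leaf3 218 625) (cutRow P3488) [] t19 s19 = true := by
  decide +kernel

theorem bad19 : Bad P3488 s19 :=
  run_sound (leaf3_sound P3488 rfl rfl) (cutRow_sound P3488) (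
    fun _ h => absurd h List.not_mem_nil) t19 s19 run19

/-- the state above piece 216 of the tree -/
def s216 : St := ⟨[0, 0, 1, 3, 5, 15, 23, 47, 47, 127, 175, 639], [1199, 767, 255, 127, 95, 87, 63, 31, 23, 21, 15, 11, 7, 5, 3, 2, 1, 0], [0, 1, 2, 3, 4, 5, 6, 7, 9, 10],
  [(5, 6), (4, 5)],
  [⟨true, 2, 3, 3, 10⟩, ⟨true, 1, 5, 2, 5⟩, ⟨true, 2, 3, 23, 50⟩, ⟨true, 1, 5, 12, 25⟩, ⟨true, 1, 21, 27, 50⟩, ⟨true, 4, 15, 9, 40⟩, ⟨true, 3, 23, 11, 20⟩, ⟨true, 4, 47, 7, 20⟩, ⟨true, 4, 47, 17, 40⟩, ⟨true, 4, 47, 9, 20⟩, ⟨true, 4, 47, 19, 40⟩, ⟨true, 5, 95, 1, 5⟩, ⟨true, 5, 95, 3, 10⟩, ⟨true, 5, 31, 3, 10⟩, ⟨true, 5, 95, 11, 25⟩, ⟨true, 6, 63, 3, 20⟩, ⟨true, 8, 255, 1, 50⟩, ⟨true, 6, 319, 13, 40⟩, ⟨true, 6, 191, 13, 40⟩, ⟨true, 7, 383, 3, 40⟩, ⟨true, 8, 191, 1, 20⟩, ⟨true, 6, 319, 17, 40⟩, ⟨true, 6, 319, 19, 40⟩, ⟨true,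 9, 1279, 9, 25⟩, ⟨true, 8, 127, 3, 50⟩, ⟨true, 7, 383, 7, 25⟩, ⟨true, 11, 1791, 7, 40⟩],
  [.spn 0 0 651200, .spn 1 1 302400, .spn 3 2 302400, .spn 7 3 302400, .spn 15 4 302400, .spn 31 5 302400, .spn 63 6 140426, .spn 127 7 140426, .spn 255 9 140426, .spn 767 10 140426]⟩

/-- piece 216 of the tree -/
noncomputable def t216 : WN.Tree :=
(.ask 1215
(.mark 1791 [8, 11, 12]
(.spn
(.lp [[8], [0, 2, 4, 6, 9, 11], [1, 3, 5, 7, 10, 12]] [(.mj 8 11, 1810), (.mj 9 10, 3880), (.mj 10 8, 1925), (.rw 9, 2), (.rw 10, 3), (.hz 24 2687, 649771), (.hz 24 2815, 1756789), (.hz 26 5887, 6701670)])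
(.maj 8 12
(.cut 8 [(0, 1), (1, 1), (2, 1), (3, 1), (5, 1), (7, 1), (11, 1), (21, 1), (15, 1), (23, 1), (31, 1), (47, 1), (87, 1), (63, 1), (95, 1), (175, 1), (127, 1), (191, 1), (1199, 1), (255, 1), (639, 1), (1215, 1), (767, 1), (1279, 1), (1791, 1)]
(.lp [[8], [0, 2, 4, 6, 9, 11], [1, 3, 5, 7, 10, 12]] [(.mj 6 7, 22842), (.mj 10 11, 24759), (.mj 11 8, 17803), (.hz 24 5375, 113904753), (.hz 25 2943, 16153570), (.hz 24 5887, 151246124), (.rw 11, 50)]))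
(.cut 8 [(0, 1), (1, 1), (2, 1), (3, 1), (5, 1), (7, 1), (11, 1), (21, 1), (15, 1), (23, 1), (31, 1), (47, 1), (87, 1), (63, 1), (95, 1), (175, 1), (127, 1), (191, 1), (1199, 1), (255, 1), (639, 1), (1215, 1), (767, 1), (1279, 1)]
(.lp [[8], [0, 2, 4, 6, 9, 11], [1, 3, 5, 7, 10, 12]] [(.mj 6 7, 2395), (.mj 9 10, 2146), (.mj 10 11, 2941), (.mj 12 8, 2941), (.hz 24 2815, 6983982), (.hz 24 5375, 7545328), (.hz 25 2943, 943582), (.hz 24 3839, 8933560), (.rw 11, 7)])))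
(.lp [[8], [0, 2, 4, 6, 9, 11], [1, 3, 5, 7, 10, 12]] [(.mj 0 1, 22088), (.mj 6 7, 1428), (.mj 7 9, 287), (.mj 9 10, 725), (.mj 12 8, 779), (.mj 12 11, 875), (.rw 9, 1), (.hz 25 383, 1868344), (.hz 24 1279, 5470157), (.hz 24 2687, 2209056), (.hz 24 5375, 4621616), (.hz 25 2943, 8200692), (.hz 26 2047, 1221190)])
.fin))
(.haz 8 1791 3 40
(.ask 1279
(.mark 1791 [8, 11, 12]
(.spn
(.lp [[8], [0, 2, 4, 6, 9, 11], [1, 3, 5, 7, 10, 12]] [(.mj 8 11, 1902), (.mj 9 10, 3794), (.mj 10 8, 2044), (.rw 9, 2), (.rw 10, 3), (.hz 24 2687, 799663), (.hz 24 2815, 2162051), (.hz 25 2943, 785123), (.hz 27 5887, 16359086), (.hz 26 5887, 6328523)])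
(.maj 8 12
(.cut 8 [(0, 1), (1, 1), (2, 1), (3, 1), (5, 1), (7, 1), (11, 1), (21, 1), (15, 1), (23, 1), (31, 1), (47, 1), (87, 1), (63, 1), (95, 1), (175, 1), (127, 1), (191, 1), (1199, 1), (255, 1), (639, 1), (1215, 1), (767, 1), (1279, 1), (1791, 1)]
(.cut 8 [(0, 1), (1, 1), (2, 1), (3, 1), (5, 1), (7, 1), (11, 1), (21, 1), (15, 1), (23, 1), (31, 1), (47, 1), (87, 1), (63, 1), (95, 1), (175, 1), (127, 1), (191, 1), (1199, 1), (255, 1), (639, 1), (1215, 1), (767, 1), (1279, 1), (2687, 1), (1791, 1)]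
(.lp [[8], [0, 2, 4, 6, 9, 11], [1, 3, 5, 7, 10, 12]] [(.mj 6 7, 13181), (.mj 10 11, 13261), (.mj 11 8, 9851), (.hz 24 5375, 25577313), (.hz 25 2943, 5830627), (.hz 27 5887, 123218696), (.rw 11, 26), (.rw 12, 2)])))
(.cut 8 [(0, 1), (1, 1), (2, 1), (3, 1), (5, 1), (7, 1), (11, 1), (21, 1), (15, 1), (23, 1), (31, 1), (47, 1), (87, 1), (63, 1), (95, 1), (175, 1), (127, 1), (191, 1), (1199, 1), (255, 1), (639, 1), (767, 1), (2687, 2), (2815, 1)]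
(.cut 8 [(0, 1), (1, 1), (2, 1), (3, 1), (5, 1), (7, 1), (11, 1), (21, 1), (15, 1), (23, 1), (31, 1), (47, 1), (87, 1), (63, 1), (95, 1), (175, 1), (127, 1), (191, 1), (1199, 1), (255, 1), (639, 1), (1215, 1), (767, 1), (1279, 1), (1791, 1)]
(.lp [[8], [0, 2, 4, 6, 9, 11], [1, 3, 5, 7, 10, 12]] [(.mj 6 7, 9237), (.mj 9 10, 7910), (.mj 10 11, 9752), (.mj 12 8, 9752), (.hz 25 2943, 32065279), (.hz 27 3839, 19313620), (.rw 11, 1), (.rw 12, 30)]))))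
(.lp [[8], [0, 2, 4, 6, 9, 11], [1, 3, 5, 7, 10, 12]] [(.mj 9 10, 8), (.mj 12 8, 8), (.mj 12 11, 6), (.hz 24 1279, 4383), (.hz 24 2687, 9981), (.hz 27 1791, 46473), (.hz 26 1791, 19336), (.hz 24 2815, 26985), (.hz 25 2943, 11003), (.hz 27 3839, 101719), (.hz 27 5887, 30802)])
.fin))
(.ask 1791
(.mark 1791 [8, 11, 12]
(.spn
(.ask 5887
(.mark 5887 [8, 11, 13]
(.lp [[8], [0, 2, 4, 6, 9, 11], [1, 3, 5, 7, 10, 12, 13]] [(.mj 6 7, 11), (.mj 8 11, 46), (.mj 8 12, 13), (.mj 9 10, 20), (.mj 10 8, 49), (.hz 24 2687, 16514), (.hz 26 1791, 32424), (.hz 26 2047, 109596), (.hz 26 5887, 133934), (.hz 26 14079, 102770)]))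
(.lp [[8], [0, 2, 4, 6, 9, 11], [1, 3, 5, 7, 10, 12]] [(.mj 8 11, 4), (.mj 10 8, 7)]))
(.haz 7 383 7 20
(.maj 8 12
(.ask 2687
(.mark 3839 [8, 12, 13]
(.cut 8 [(0, 1), (1, 1), (2, 1), (3, 1), (5, 1), (7, 1), (11, 1), (21, 1), (15, 1), (23, 1), (31, 1), (47, 1), (87, 1), (63, 1), (95, 1), (175, 1), (127, 1), (191, 1), (1199, 1), (255, 1), (639, 1), (1215, 1), (767, 1), (1279, 1), (2687, 1), (1791, 1), (2815, 1), (10879, 2), (11007, 1)]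
(.cut 8 [(0, 1), (1, 1), (2, 1), (3, 1), (5, 1), (7, 1), (11, 1), (21, 1), (15, 1), (23, 1), (31, 1), (47, 1), (87, 1), (63, 1), (95, 1), (175, 1), (127, 1), (191, 1), (1199, 1), (255, 1), (639, 1), (1215, 1), (767, 1), (1279, 1), (1791, 1)]
(.lp [[8], [1, 3, 5, 7, 10, 12], [0, 2, 4, 6, 9, 11, 13]] [(.mj 6 7, 2992), (.mj 8 12, 1055), (.mj 10 11, 5161), (.mj 11 8, 6303), (.hz 27 5887, 54342164), (.hz 28 11135, 1079089), (.hz 27 12031, 15482595), (.rw 11, 1), (.rw 12, 13)]))))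
(.ask 2815
(.mark 3839 [8, 12, 13]
(.cut 8 [(0, 1), (1, 1), (2, 1), (3, 1), (5, 1), (7, 1), (11, 1), (21, 1), (15, 1), (23, 1), (31, 1), (47, 1), (87, 1), (63, 1), (95, 1), (175, 1), (127, 1), (191, 1), (1199, 1), (255, 1), (639, 1), (1215, 1), (767, 1), (1279, 1), (2687, 1), (1791, 1)]
(.lp [[8], [1, 3, 5, 7, 10, 12], [0, 2, 4, 6, 9, 11, 13]] [(.mj 6 7, 516), (.mj 8 12, 67), (.mj 10 11, 428), (.mj 11 8, 415), (.hz 27 5887, 3709436), (.hz 27 12031, 1060765), (.rw 11, 1)])))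
(.ask 3839
(.mark 3839 [8, 12, 13]
(.spn
(.haz 13 7935 13 40
(.lp [[8], [1, 3, 5, 7, 10, 12], [0, 2, 4, 6, 9, 11, 13]] [(.mj 6 7, 1131), (.mj 8 12, 164), (.mj 8 13, 448), (.mj 10 11, 251), (.mj 11 8, 928), (.rw 11, 1), (.hz 27 5887, 8168468), (.hz 29 7935, 3322694)])
(.lp [[8], [1, 3, 5, 7, 10, 12], [0, 2, 4, 6, 9, 11, 13]] [(.mj 6 7, 2), (.mj 8 12, 4), (.mj 10 11, 1), (.mj 11 8, 4), (.hz 29 3839, 16888)]))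
(.con 12 8)
(.lp [[8], [1, 3, 5, 7, 10, 12], [0, 2, 4, 6, 9, 11, 13]] [(.mj 6 7, 11), (.mj 10 11, 3), (.mj 13 8, 8), (.hz 27 1791, 65825), (.hz 27 3839, 75349), (.hz 27 5887, 17850), (.hz 26 5887, 3614), (.hz 27 7935, 48183)])
.fin))
(.lp [[8], [0, 2, 4, 6, 9, 11], [1, 3, 5, 7, 10, 12]] [(.mj 8 12, 1), (.mj 11 8, 1)]))))
(.ask 2687
(.mark 3839 [8, 12, 13]
(.cut 8 [(0, 1), (1, 1), (2, 1), (3, 1), (5, 1), (7, 1), (11, 1), (21, 1), (15, 1), (23, 1), (31, 1), (47, 1), (87, 1), (63, 1), (95, 1), (175, 1), (127, 1), (191, 1), (1199, 1), (255, 1), (639, 1), (1215, 1), (767, 1), (1279, 1), (2687, 1), (1791, 1)]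
(.cut 8 [(0, 1), (1, 1), (2, 1), (3, 1), (5, 1), (7, 1), (11, 1), (21, 1), (15, 1), (23, 1), (31, 1), (47, 1), (87, 1), (63, 1), (95, 1), (175, 1), (127, 1), (191, 1), (1199, 1), (255, 1), (639, 1), (1215, 1), (767, 1), (1279, 1), (2687, 1), (1791, 1), (2815, 1), (5887, 1)]
(.cut 8 [(0, 1), (1, 1), (2, 1), (3, 1), (5, 1), (7, 1), (11, 1), (21, 1), (15, 1), (23, 1), (31, 1), (47, 1), (87, 1), (63, 1), (95, 1), (175, 1), (127, 1), (191, 1), (255, 1), (639, 1), (767, 1), (2687, 1), (2815, 1)]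
(.cut 13 [(0, 1), (1, 1), (2, 1), (3, 1), (5, 1), (7, 1), (11, 1), (21, 1), (15, 1), (23, 1), (31, 1), (47, 1), (87, 1), (63, 1), (95, 1), (175, 1), (303, 1), (127, 1), (191, 1), (319, 1), (431, 1), (1199, 1), (255, 1), (383, 1), (447, 1), (639, 1), (1215, 1), (1455, 1), (511, 1), (767, 1), (895, 1), (1279, 1), (1471, 1), (2687, 1), (1023, 1), (1535, 1), (1791, 1), (2815, 1), (2943, 1), (2047, 1), (3071, 1), (5887, 1), (6143, 1)]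
(.lp [[8], [1, 3, 5, 7, 10, 12], [0, 2, 4, 6, 9, 11, 13]] [(.mj 10 11, 51758), (.mj 11 12, 93775), (.mj 12 8, 479407), (.hz 27 3839, 182404137), (.hz 28 11135, 930542259), (.hz 27 7935, 107815670), (.hz 27 12031, 2385317925), (.rw 11, 854), (.rw 12, 18), (.rw 13, 778), (.rw 14, 8)]))))))
(.cut 8 [(0, 1), (1, 1), (2, 1), (3, 1), (5, 1), (7, 1), (11, 1), (21, 1), (15, 1), (23, 1), (31, 1), (47, 1), (87, 1), (63, 1), (95, 1), (175, 1), (127, 1), (191, 1), (1199, 1), (255, 1), (639, 1), (1215, 1), (767, 1), (1279, 1), (2687, 1), (1791, 1)]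
(.lp [[8], [0, 2, 4, 6, 9, 11], [1, 3, 5, 7, 10, 12]] [(.mj 6 7, 1276), (.mj 10 11, 383), (.mj 11 12, 58), (.mj 12 8, 625), (.hz 27 1791, 417236), (.hz 27 3839, 1718861), (.rw 11, 2)]))))
(.lp [[8], [0, 2, 4, 6, 9, 11], [1, 3, 5, 7, 10, 12]] [(.mj 3 4, 3), (.mj 7 9, 10), (.mj 10 11, 1), (.mj 11 8, 8), (.hz 28 127, 14493), (.hz 25 383, 9594), (.hz 24 639, 8126), (.hz 24 2687, 846), (.hz 27 1791, 31608), (.hz 27 3839, 13032), (.hz 27 5887, 18019)]))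
(.lp [[8], [0, 2, 4, 6, 9, 11], [1, 3, 5, 7, 10, 12]] [(.mj 9 10, 1888), (.rw 10, 1), (.hz 27 1791, 12390098), (.hz 26 1791, 3629224)])
.fin))
(.spn
(.lp [[8], [1, 3, 5, 7, 10], [0, 2, 4, 6, 9, 11]] [(.mj 8 11, 2), (.mj 10 8, 3)])
(.lp [[8], [1, 3, 5, 7, 10], [0, 2, 4, 6, 9, 11]] [(.mj 10 11, 76), (.mj 11 8, 41), (.hz 27 3839, 495938)])
.fin
.fin)))
(.cut 8 [(0, 1), (1, 1), (2, 1), (3, 1), (5, 1), (7, 1), (11, 1), (21, 1), (15, 1), (23, 1), (31, 1), (47, 1), (87, 1), (63, 1), (95, 1), (175, 1), (127, 1), (191, 1), (255, 1), (639, 1), (767, 1)]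
(.cut 8 [(0, 1), (1, 1), (2, 1), (3, 1), (5, 1), (7, 1), (11, 1), (21, 1), (15, 1), (23, 1), (31, 1), (47, 1), (87, 1), (95, 1), (175, 1), (1199, 1)]
(.cut 8 [(0, 1), (1, 1), (2, 1), (3, 1), (5, 1), (7, 1), (11, 1), (21, 1), (15, 1), (23, 1), (31, 1), (47, 1), (87, 1), (63, 1), (95, 1), (175, 1), (127, 1), (1199, 1)]
(.cut 8 [(0, 1), (1, 1), (2, 1), (3, 1), (5, 1), (7, 1), (11, 1), (21, 1), (15, 1), (23, 1), (31, 1), (47, 1), (87, 1), (63, 1), (95, 1), (175, 1), (191, 1), (1199, 1)]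
(.cut 8 [(0, 1), (1, 1), (2, 1), (3, 1), (5, 1), (7, 1), (11, 1), (21, 1), (15, 1), (23, 1), (31, 1), (47, 1), (87, 1), (63, 1), (95, 1), (175, 1), (127, 1), (191, 1), (1199, 1), (255, 1), (1215, 1)]
(.lp [[8], [1, 3, 5, 7, 10], [0, 2, 4, 6, 9, 11]] [(.mj 3 4, 66769), (.mj 7 9, 24001), (.hz 27 639, 2100636701), (.hz 27 767, 3287032894), (.hz 27 1279, 4941527303), (.rw 10, 101), (.rw 11, 243), (.rw 12, 279), (.rw 13, 122), (.rw 14, 2757)]))))))))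

theorem run216 : run P3488 (leaf3 218 625) (cutRow P3488) [] t216 s216 = true := by
  decide +kernel

theorem bad216 : Bad P3488 s216 :=
  run_sound (leaf3_sound P3488 rfl rfl) (cutRow_sound P3488) (
    fun _ h => absurd h List.not_mem_nil) t216 s216 run216

end Pool.Agent.WN.Data
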