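import Pool.Agent.WN.CutRow
import Pool.Agent.WN.LeafRow
import Pool.Agent.Helper99.WN.ParDef
import Pool.Agent.WN.Data.D4

/-!
# The search tree, part 9
-/

set_option autoImplicit false

namespace Pool.Agent.WN.Data

open Pool.Agent.W3 Pool.Agent.WN Pool.Agent.Helper99.WN

/-- the state above piece 259 of the tree -/
def s259 : St := ⟨[0, 0, 1, 3, 7, 23, 23], [7, 5, 3, 2, 1, 0], [0, 1, 2, 4],
  [],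
  [⟨true, 2, 3, 3, 10⟩, ⟨true, 1, 5, 2, 5⟩, ⟨true, 2, 3, 23, 50⟩, ⟨true, 1, 5, 12, 25⟩],
  [.spn 0 0 651200, .spn 1 1 302400, .spn 3 2 302400, .spn 7 4 651200]⟩

/-- piece 259 of the tree -/
noncomputable def t259 : WN.Tree :=
(.mark 23 [3, 5, 6]
(.spn
(.lp [[6], [1, 3], [0, 2, 4, 5]] [(.mj 0 1, 333661), (.rw 4, 23)])
(.haz 3 55 3 50
(.ask 55
(.mark 55 [3, 6, 7]
(.spn
(.lp [[6], [1, 3], [0, 2, 4, 5, 7]] [(.mj 5 3, 1180), (.rw 5, 2)])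
(.ask 87
(.mark 119 [3, 7, 8]
(.spn
(.ask 183
(.mark 183 [3, 6, 9]
(.lp [[3], [1, 6, 8], [0, 2, 4, 5, 7, 9]] [(.mj 3 7, 3745), (.mj 5 6, 9361), (.mj 6 3, 4238), (.rw 5, 5), (.rw 6, 7), (.hz 4 183, 149393), (.hz 4 375, 1320304), (.hz 4 695, 158929)]))
(.lp [[3], [1, 6, 8], [0, 2, 4, 5, 7]] [(.mj 3 7, 431), (.mj 5 6, 1294), (.mj 6 3, 863), (.rw 6, 1)]))
(.ask 183
(.mark 247 [3, 8, 9]
(.spn
(.haz 9 503 17 50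
(.lp [[3], [1, 6, 8], [0, 2, 4, 5, 7, 9]] [(.mj 3 8, 167), (.mj 3 9, 759), (.mj 5 6, 1328), (.mj 6 7, 556), (.mj 7 3, 1387), (.rw 7, 1), (.hz 4 375, 627295), (.hz 4 695, 45219), (.hz 5 503, 195927)])
(.lp [[3], [1, 6, 8], [0, 2, 4, 5, 7, 9]] [(.mj 3 8, 4), (.mj 5 6, 5), (.mj 6 7, 2), (.mj 7 3, 6), (.hz 5 183, 249), (.hz 5 247, 816), (.hz 4 375, 2814)]))
(.cut 3 [(0, 1), (1, 1), (2, 1), (3, 1), (5, 1), (7, 1), (23, 1), (55, 1), (87, 1), (119, 1), (183, 1)]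
(.lp [[3], [1, 6, 8], [0, 2, 4, 5, 7, 9]] [(.mj 5 6, 2097), (.mj 6 7, 1157), (.mj 8 3, 1245), (.mj 8 9, 45), (.hz 4 375, 13792), (.hz 4 695, 26613), (.hz 4 759, 215614), (.rw 8, 4)]))
(.cut 3 [(0, 1), (1, 1), (2, 1), (3, 1), (5, 1), (7, 1), (23, 1), (55, 1)]
(.cut 3 [(0, 1), (1, 1), (2, 1), (3, 1), (5, 1), (7, 1), (23, 1), (55, 1), (87, 1), (119, 1)]
(.lp [[3], [1, 6, 8], [0, 2, 4, 5, 7, 9]] [(.mj 5 6, 2272), (.mj 6 7, 1930), (.mj 9 3, 1556), (.hz 4 375, 77369), (.hz 4 695, 57569), (.hz 4 503, 291273), (.rw 8, 3), (.rw 9, 2)])))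
.fin))
(.ask 247
(.mark 247 [3, 8, 9]
(.spn
(.lp [[3], [1, 6, 8], [0, 2, 4, 5, 7, 9]] [(.mj 3 9, 286), (.mj 5 6, 895), (.mj 7 3, 744), (.rw 7, 1), (.hz 4 375, 512960)])
(.lp [[3], [1, 6, 8], [0, 2, 4, 5, 7, 9]] [(.mj 5 6, 6), (.mj 8 3, 4), (.mj 8 9, 1), (.hz 4 119, 1116), (.hz 4 247, 310), (.hz 4 375, 1035), (.hz 4 759, 899)])
(.cut 3 [(0, 1), (1, 1), (2, 1), (3, 1), (5, 1), (7, 1), (23, 1), (55, 1), (87, 1), (119, 1), (183, 1), (247, 1)]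
(.lp [[3], [1, 6, 8], [0, 2, 4, 5, 7, 9]] [(.mj 5 6, 3914), (.mj 9 3, 12177), (.rw 8, 43)]))
.fin))
(.lp [[3], [1, 6, 8], [0, 2, 4, 5, 7]] [(.mj 5 6, 3), (.mj 6 3, 2), (.hz 4 119, 239), (.hz 4 375, 477)])))
(.cut 3 [(0, 1), (1, 1), (2, 1), (3, 1), (5, 1), (7, 1), (23, 1), (55, 1), (87, 1), (119, 1)]
(.lp [[3], [1, 6, 8], [0, 2, 4, 5, 7]] [(.mj 5 6, 1187), (.mj 8 3, 726), (.mj 8 7, 726), (.rw 7, 2)]))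
.fin))
(.haz 6 183 3 10
(.haz 3 87 3 50
(.ask 119
(.mark 119 [3, 7, 8]
(.spn
(.haz 7 119 9 25
(.lp [[3], [1, 6, 8], [0, 2, 4, 5, 7]] [(.mj 3 7, 6), (.mj 3 8, 1), (.mj 5 6, 3), (.mj 6 3, 6), (.hz 7 119, 400), (.hz 7 375, 1060)])
(.haz 7 63 13 50
(.lp [[3], [1, 6, 8], [0, 2, 4, 5, 7]] [(.mj 5 6, 279323), (.mj 6 3, 117402), (.rw 6, 293), (.hz 7 55, 12773922), (.hz 8 63, 4402557)])
(.lp [[3], [1, 6, 8], [0, 2, 4, 5, 7]] [(.mj 5 6, 1063), (.mj 6 3, 496), (.rw 6, 1), (.hz 8 55, 22920)])))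
(.ask 183
(.mark 247 [3, 8, 9]
(.spn
(.haz 8 127 11 50
(.lp [[3], [1, 6, 8], [0, 2, 4, 5, 7, 9]] [(.mj 3 8, 377), (.mj 7 3, 6946), (.rw 7, 22), (.hz 7 127, 3615415), (.hz 4 695, 930755), (.hz 4 759, 12450), (.hz 7 767, 56592)])
(.lp [[3], [1, 6, 8], [0, 2, 4, 5, 7, 9]] [(.mj 6 7, 5653), (.mj 7 3, 2892), (.rw 7, 4), (.hz 7 119, 452069), (.hz 4 375, 397794), (.hz 4 695, 1111438)]))
(.maj 3 9
(.cut 3 [(0, 1), (1, 1), (2, 1), (3, 1), (5, 1), (7, 1), (23, 1), (55, 1), (87, 1), (119, 1), (183, 1), (247, 1)]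
(.lp [[3], [1, 6, 8], [0, 2, 4, 5, 7, 9]] [(.mj 5 6, 374), (.mj 8 3, 309), (.hz 4 695, 39435), (.hz 5 695, 54166), (.hz 4 759, 227353), (.rw 8, 1)]))
(.cut 3 [(0, 1), (1, 1), (2, 1), (3, 1), (5, 1), (7, 1), (23, 1), (55, 1), (87, 1), (119, 1), (183, 1), (247, 1)]
(.lp [[3], [1, 6, 8], [0, 2, 4, 5, 7, 9]] [(.mj 7 8, 262), (.mj 8 3, 948), (.mj 8 9, 262), (.mj 9 3, 2938), (.hz 5 703, 1243871), (.hz 4 503, 490653), (.rw 8, 13)])))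
(.ask 375
(.mark 375 [3, 7, 10]
(.cut 3 [(0, 1), (1, 1), (2, 1), (3, 1), (5, 1), (7, 1), (23, 1), (55, 1), (87, 1), (119, 1), (183, 1), (375, 1)]
(.lp [[3], [1, 6, 8, 10], [0, 2, 4, 5, 7, 9]] [(.mj 6 7, 1019), (.mj 9 3, 3851), (.mj 9 8, 284), (.hz 4 375, 282041), (.rw 8, 13)])))
(.cut 3 [(0, 1), (1, 1), (2, 1), (3, 1), (5, 1), (7, 1), (23, 1), (55, 1), (87, 1), (119, 1), (183, 1), (247, 1), (375, 1), (695, 1)]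
(.lp [[3], [1, 6, 8], [0, 2, 4, 5, 7, 9]] [(.mj 6 7, 3482), (.mj 9 3, 2224), (.mj 9 8, 940), (.hz 4 183, 603893), (.hz 4 375, 425002), (.hz 4 503, 807767), (.rw 8, 1)])))
.fin))
(.ask 247
(.mark 247 [3, 8, 9]
(.spn
(.haz 9 503 8 25
(.lp [[3], [1, 6, 8], [0, 2, 4, 5, 7, 9]] [(.mj 3 8, 3015), (.mj 3 9, 8529), (.mj 5 6, 11777), (.mj 7 3, 15851), (.rw 7, 13), (.hz 4 375, 4438541), (.hz 7 503, 3876742)])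
(.lp [[3], [1, 6, 8], [0, 2, 4, 5, 7, 9]] [(.mj 3 8, 1), (.mj 7 3, 1), (.hz 7 247, 249)]))
(.cut 3 [(0, 1), (1, 1), (2, 1), (3, 1), (5, 1), (7, 1), (23, 1), (55, 1), (87, 1), (119, 1), (183, 1), (247, 1)]
(.lp [[3], [1, 6, 8], [0, 2, 4, 5, 7, 9]] [(.mj 5 6, 689), (.mj 8 3, 276), (.mj 8 9, 29), (.hz 4 759, 32404), (.rw 8, 1)]))
(.cut 3 [(0, 1), (1, 1), (2, 1), (3, 1), (5, 1), (7, 1), (23, 1), (55, 1), (87, 1), (119, 1), (183, 1), (247, 1)]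
(.lp [[3], [1, 6, 8], [0, 2, 4, 5, 7, 9]] [(.mj 9 3, 4570), (.rw 8, 16)]))
.fin))
(.cut 3 [(0, 1), (1, 1), (2, 1), (3, 1), (5, 1), (7, 1), (23, 1), (55, 1), (87, 1), (119, 1), (183, 1)]
(.lp [[3], [1, 6, 8], [0, 2, 4, 5, 7]] [(.mj 5 6, 1686), (.mj 7 3, 951), (.hz 4 375, 228231), (.rw 7, 2)]))))
(.cut 3 [(0, 1), (1, 1), (2, 1), (3, 1), (5, 1), (7, 1), (23, 1), (55, 1), (87, 1), (119, 1)]
(.lp [[3], [1, 6, 8], [0, 2, 4, 5, 7]] [(.mj 5 6, 14735), (.mj 8 3, 6245), (.mj 8 7, 3482), (.rw 6, 1), (.hz 5 183, 1726780), (.hz 5 191, 9606215), (.rw 7, 21)]))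
.fin))
(.spn
(.lp [[6], [1, 3], [0, 2, 4, 5, 7]] [(.mj 3 7, 2), (.mj 6 3, 3)])
(.ask 183
(.mark 183 [3, 6, 8]
(.ask 247
(.mark 247 [3, 8, 9]
(.spn
(.lp [[3], [1, 6, 9], [0, 2, 4, 5, 7, 8]] [(.mj 3 9, 651), (.mj 6 7, 2726), (.mj 7 3, 1560), (.rw 7, 2), (.hz 4 439, 491809)])
(.lp [[3], [1, 6, 9], [0, 2, 4, 5, 7, 8]] [(.mj 6 7, 7), (.mj 8 3, 5), (.mj 8 9, 1), (.hz 4 183, 1381), (.hz 4 247, 384), (.hz 4 439, 183), (.hz 4 759, 1197)])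
(.cut 3 [(0, 1), (1, 1), (2, 1), (3, 1), (5, 1), (7, 1), (23, 1), (55, 1), (87, 1), (119, 1), (183, 1), (247, 1)]
(.lp [[3], [1, 6, 9], [0, 2, 4, 5, 7, 8]] [(.mj 9 3, 4570), (.rw 8, 16)]))
.fin))
(.lp [[6], [1, 3], [0, 2, 4, 5, 7, 8]] [(.mj 6 7, 3), (.mj 7 3, 2), (.hz 4 183, 442)])))
(.ask 247
(.maj 3 8
(.ask 247
(.mark 247 [3, 8, 9]
(.spn
(.haz 8 759 13 50
(.lp [[3], [1, 6, 9], [0, 2, 4, 5, 7, 8]] [(.mj 3 8, 96), (.mj 7 3, 125), (.mj 8 9, 53), (.hz 4 759, 33477), (.hz 7 759, 10698)])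
(.lp [[3], [1, 6, 9], [0, 2, 4, 5, 7, 8]] [(.mj 3 9, 2), (.mj 7 3, 2), (.hz 7 247, 238)]))
(.con 8 3)
(.con 9 8)
.fin))
(.lp [[6], [1, 3], [0, 2, 4, 5, 7, 8]] [(.mj 3 8, 1), (.mj 7 3, 1)]))
(.cut 3 [(0, 1), (1, 1), (2, 1), (3, 1), (5, 1), (7, 1), (23, 1), (55, 1), (87, 1)]
(.cut 3 [(0, 1), (1, 1), (2, 1), (3, 1), (5, 1), (7, 1), (23, 1), (55, 1), (87, 1), (119, 1), (183, 1)]
(.lp [[6], [1, 3], [0, 2, 4, 5, 7, 8]] [(.mj 8 3, 4570), (.rw 7, 13), (.rw 8, 3)]))))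
(.lp [[6], [1, 3], [0, 2, 4, 5, 7]] [(.mj 7 3, 1)])))
.fin
.fin))
(.cut 3 [(0, 1), (1, 1), (2, 1), (3, 1), (5, 1), (7, 1), (23, 1), (55, 1)]
(.lp [[6], [1, 3], [0, 2, 4, 5, 7]] [(.hz 6 23, 56143), (.rw 6, 1)])))
(.lp [[6], [1, 3], [0, 2, 4, 5, 7]] [(.mj 5 6, 1), (.mj 6 3, 11), (.mj 6 7, 13), (.hz 5 55, 4563), (.hz 4 183, 2179)])))
(.ask 183
(.mark 183 [3, 6, 8]
(.spn
(.lp [[6], [1, 3], [0, 2, 4, 5, 7, 8]] [(.mj 7 3, 274), (.rw 6, 1)])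
(.lp [[6], [1, 3], [0, 2, 4, 5, 7, 8]] [(.mj 7 6, 1286), (.rw 6, 2), (.hz 4 119, 478778)])
(.ask 439
(.mark 439 [3, 6, 9]
(.spn
(.lp [[6], [1, 3], [0, 2, 4, 5, 7, 8, 9]] [(.mj 8 3, 149), (.rw 7, 1)])
(.lp [[6], [1, 3], [0, 2, 4, 5, 7, 8, 9]] [(.mj 8 6, 627), (.rw 7, 1)])
(.maj 3 6
(.cut 3 [(0, 1), (1, 1), (2, 1), (3, 1), (5, 1), (7, 1), (23, 1), (55, 1), (183, 1), (439, 1)]
(.lp [[6], [1, 3], [0, 2, 4, 5, 7, 8, 9]] [(.mj 9 3, 4570), (.rw 8, 16)]))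
(.cut 3 [(0, 1), (1, 1), (2, 1), (3, 1), (5, 1), (7, 1), (23, 1), (55, 1), (183, 1), (439, 1)]
(.cut 3 [(0, 1), (1, 1), (2, 1), (3, 1), (5, 1), (7, 1), (23, 1), (55, 1), (87, 2), (119, 1)]
(.cut 6 [(0, 1), (1, 1), (2, 1), (3, 1), (5, 1), (7, 1), (23, 1), (55, 1), (183, 1)]
(.lp [[6], [1, 3], [0, 2, 4, 5, 7, 8, 9]] [(.mj 9 6, 6865), (.rw 7, 8), (.hz 4 119, 3315591), (.hz 4 247, 1551979), (.hz 4 503, 1458860), (.rw 8, 31), (.rw 9, 14), (.rw 10, 55)])))))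
.fin))
(.lp [[6], [1, 3], [0, 2, 4, 5, 7, 8]] [(.mj 8 6, 1), (.rw 6, 1)]))
.fin))
(.lp [[6], [1, 3], [0, 2, 4, 5, 7]] [(.mj 7 6, 1), (.rw 5, 1)]))
.fin))
(.lp [[6], [1, 3], [0, 2, 4, 5]] [(.mj 5 6, 381), (.rw 4, 1), (.hz 4 119, 96687)]))
(.cut 3 [(0, 1), (1, 1), (2, 1), (5, 1)]
(.lp [[6], [1, 3], [0, 2, 4, 5]] [(.hz 4 3, 82429), (.hz 4 7, 41215), (.rw 5, 2)])))
(.con 6 5)
.fin))

theorem run259 : run P3488 (leaf3 218 625) (cutRow P3488) [] t259 s259 = true := by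
  decide +kernel

theorem bad259 : Bad P3488 s259 :=
  run_sound (leaf3_sound P3488 rfl rfl) (cutRow_sound P3488) (
    fun _ h => absurd h List.not_mem_nil) t259 s259 run259

/-- the state above piece 160 of the tree -/
def s160 : St := ⟨[0, 0, 1, 3, 5, 15, 15, 21, 63, 111], [79, 63, 31, 47, 15, 11, 7, 5, 3, 2, 1, 0], [0, 1, 2, 3, 4, 5, 6],
  [(4, 5)],
  [⟨true, 2, 3, 3, 10⟩, ⟨true, 1, 5, 2, 5⟩, ⟨true, 2, 3, 23, 50⟩, ⟨true, 1, 5, 12, 25⟩, ⟨true, 1, 21, 27, 50⟩, ⟨true, 4, 15, 9, 40⟩, ⟨true, 3, 23, 11, 20⟩, ⟨true, 1, 21, 29, 50⟩, ⟨true, 1, 21, 3, 5⟩, ⟨true, 1, 21, 31, 50⟩, ⟨true, 4, 79, 7, 25⟩, ⟨true, 4, 79, 8, 25⟩, ⟨true, 4, 79, 17, 50⟩, ⟨true, 3, 151, 3, 5⟩, ⟨true, 3, 151, 31, 50⟩, ⟨true, 5, 159, 9, 50⟩, ⟨true, 7, 127, 2, 25⟩, ⟨true, 5, 159, 7, 25⟩, ⟨true, 7, 319, 1, 10⟩, ⟨false, 7, 31, 8, 25⟩,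 ⟨false, 7, 31, 7, 25⟩, ⟨false, 7, 23, 13, 50⟩, ⟨true, 6, 319, 4, 25⟩, ⟨true, 1, 149, 17, 25⟩, ⟨true, 3, 151, 18, 25⟩, ⟨true, 7, 127, 7, 50⟩, ⟨true, 5, 159, 9, 25⟩, ⟨true, 5, 159, 2, 5⟩],
  [.spn 0 0 651200, .spn 1 1 302400, .spn 3 2 302400, .spn 7 3 302400, .spn 15 4 140426, .spn 31 5 140426, .spn 63 6 62723]⟩

/-- piece 160 of the tree -/
noncomputable def t160 : WN.Tree :=
(.mark 127 [7, 8, 9]
(.spn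
(.haz 7 319 3 20
(.haz 8 639 3 20
(.haz 6 319 1 4
(.haz 9 511 1 10
(.haz 7 63 1 5
(.haz 9 511 3 20
(.ask 149
(.mark 255 [8, 9, 10]
(.spn
(.haz 8 639 3 10
(.haz 6 1183 3 20
(.ask 623
(.mark 639 [7, 8, 11]
(.lp [[5, 8], [0, 2, 4, 7, 10], [1, 3, 6, 9, 11]] [(.mj 5 6, 178), (.mj 6 7, 182), (.mj 7 8, 162), (.mj 8 9, 32), (.hz 23 1173, 414), (.hz 24 1175, 2529), (.hz 32 319, 279603), (.hz 35 1183, 119550), (.hz 32 639, 19703), (.hz 34 639, 577948), (.hz 12 2671, 26677), (.hz 34 2687, 585736)]))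
(.ask 319
(.mark 511 [9, 10, 11]
(.lp [[6, 9], [0, 2, 4, 7, 10], [1, 3, 5, 8, 11]] [(.mj 5 6, 23), (.mj 6 7, 34), (.mj 7 8, 26), (.mj 8 9, 13), (.hz 32 639, 36800), (.hz 34 639, 77776), (.hz 30 2367, 2839), (.hz 32 2367, 69112)]))
(.lp [[6, 9], [1, 3, 5, 8], [0, 2, 4, 7, 10]] [(.mj 5 6, 11), (.mj 6 7, 7), (.mj 7 8, 4), (.mj 8 9, 1), (.hz 21 21, 23), (.hz 24 1175, 210), (.hz 32 127, 4894), (.hz 35 1183, 13848), (.hz 32 639, 11885), (.hz 34 639, 12636)])))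
(.lp [[6, 9], [1, 3, 5, 8], [0, 2, 4, 7, 10]] [(.mj 6 7, 1), (.mj 7 8, 1), (.hz 35 15, 685), (.hz 30 319, 3537), (.hz 32 319, 909)]))
(.lp [[6, 9], [1, 3, 5, 8], [0, 2, 4, 7, 10]] [(.mj 5 6, 128), (.mj 6 7, 123), (.mj 8 9, 62), (.hz 34 63, 136923), (.hz 34 127, 213454), (.hz 32 639, 550616)]))
(.haz 10 255 3 20
(.ask 319
(.mark 447 [6, 10, 11]
(.lp [[6, 9], [0, 2, 4, 7, 10], [1, 3, 5, 8, 11]] [(.mj 4 5, 3), (.mj 5 6, 17), (.mj 6 7, 18), (.mj 7 9, 7), (.mj 9 8, 7), (.hz 21 21, 3), (.hz 24 151, 27), (.hz 32 319, 89408), (.hz 27 1183, 833), (.hz 34 255, 16165), (.hz 32 383, 45224), (.hz 29 639, 11344), (.hz 34 511, 44490), (.hz 29 767, 4914), (.hz 30 2495, 24570)]))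
(.lp [[6, 9], [1, 3, 5, 8], [0, 2, 4, 7, 10]] [(.mj 5 6, 4671), (.mj 6 7, 2336), (.mj 9 8, 35), (.rw 8, 1), (.hz 32 319, 230681), (.hz 34 255, 10648105), (.hz 32 383, 19064388)]))
(.lp [[6, 9], [1, 3, 5, 8], [0, 2, 4, 7, 10]] [(.mj 5 6, 20), (.mj 6 7, 2), (.mj 9 8, 6), (.hz 34 149, 286), (.hz 34 151, 1480), (.hz 34 159, 4315), (.hz 34 191, 9080), (.hz 30 319, 34501), (.hz 30 447, 62617), (.hz 29 767, 3953)]))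
(.lp [[6, 9], [1, 3, 5, 8], [0, 2, 4, 7, 10]] [(.mj 4 5, 4), (.mj 5 6, 8), (.mj 6 7, 11), (.mj 10 8, 6), (.mj 10 9, 4), (.hz 21 21, 14), (.hz 21 23, 148), (.hz 30 319, 4786), (.hz 32 319, 37391), (.hz 32 383, 39117), (.hz 32 639, 18840), (.hz 29 639, 14041)])
.fin))
(.ask 151
(.mark 255 [8, 9, 10]
(.spn
(.haz 8 639 11 40
(.haz 6 1183 1 8
(.ask 319
(.mark 511 [9, 10, 11]
(.spn
(.ask 623
(.mark 639 [7, 8, 12]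
(.lp [[6, 9, 12], [0, 2, 4, 7, 10], [1, 3, 5, 8, 11]] [(.mj 4 5, 5), (.mj 5 6, 14), (.mj 6 7, 21), (.mj 7 8, 14), (.mj 8 9, 6), (.hz 21 23, 72), (.hz 27 1183, 1207), (.hz 34 639, 7733), (.hz 32 2367, 46625), (.hz 12 4719, 1233), (.hz 34 4735, 13595)]))
(.lp [[6, 9], [0, 2, 4, 7, 10], [1, 3, 5, 8, 11]] [(.mj 5 6, 30), (.mj 6 7, 43), (.mj 7 8, 33), (.mj 8 9, 17), (.hz 32 639, 55533), (.hz 34 639, 24761), (.hz 30 2367, 3496), (.hz 32 2367, 89718)]))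
(.lp [[6, 9], [0, 2, 4, 7, 10], [1, 3, 5, 8, 11]] [(.mj 5 6, 14), (.mj 6 7, 21), (.mj 7 8, 15), (.mj 10 9, 7), (.hz 12 623, 2267), (.hz 32 639, 35348), (.hz 34 639, 20399), (.hz 32 2367, 46087), (.hz 32 895, 143750)])
(.lp [[6, 9], [0, 2, 4, 7, 10], [1, 3, 5, 8, 11]] [(.mj 5 6, 10), (.mj 6 7, 14), (.mj 7 8, 10), (.mj 11 9, 5), (.hz 32 319, 9458), (.hz 12 623, 1431), (.hz 32 639, 27605), (.hz 34 639, 12397), (.hz 32 2367, 24444), (.hz 33 511, 21631), (.hz 32 895, 24938)])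
.fin))
(.lp [[6, 9], [1, 3, 5, 8], [0, 2, 4, 7, 10]] [(.mj 4 5, 11), (.mj 5 6, 50), (.mj 6 7, 30), (.mj 7 8, 12), (.hz 21 23, 199), (.hz 24 1175, 726), (.hz 32 127, 67019), (.hz 35 1183, 148262), (.hz 34 639, 8824)]))
(.lp [[6, 9], [1, 3, 5, 8], [0, 2, 4, 7, 10]] [(.mj 6 7, 1), (.mj 7 8, 1), (.hz 35 15, 1903), (.hz 30 319, 4372)]))
(.lp [[6, 9], [1, 3, 5, 8], [0, 2, 4, 7, 10]] [(.mj 5 6, 2), (.mj 6 7, 2), (.mj 8 9, 1), (.hz 34 63, 558), (.hz 34 127, 877), (.hz 32 639, 9062)]))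
(.haz 10 255 1 8
(.ask 319
(.mark 447 [6, 10, 11]
(.lp [[6, 9], [0, 2, 4, 7, 10], [1, 3, 5, 8, 11]] [(.mj 4 5, 7), (.mj 5 6, 51), (.mj 6 7, 53), (.mj 7 9, 21), (.mj 9 8, 20), (.hz 24 151, 88), (.hz 32 319, 271321), (.hz 27 1183, 2523), (.hz 34 255, 122382), (.hz 32 383, 126035), (.hz 29 639, 33877), (.hz 34 511, 333202), (.hz 29 767, 14466), (.hz 30 2495, 72328)]))
(.lp [[6, 9], [1, 3, 5, 8], [0, 2, 4, 7, 10]] [(.mj 5 6, 6141), (.mj 6 7, 3070), (.mj 9 8, 80), (.rw 8, 1), (.hz 32 319, 523982), (.hz 34 255, 33443804), (.hz 32 383, 23745755)]))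
(.lp [[6, 9], [1, 3, 5, 8], [0, 2, 4, 7, 10]] [(.mj 5 6, 12), (.mj 6 7, 1), (.mj 9 8, 4), (.hz 34 151, 2250), (.hz 34 159, 6622), (.hz 34 191, 13869), (.hz 30 319, 21215), (.hz 30 447, 40046), (.hz 29 767, 2162)]))
(.lp [[6, 9], [1, 3, 5, 8], [0, 2, 4, 7, 10]] [(.mj 4 5, 4), (.mj 5 6, 8), (.mj 6 7, 11), (.mj 10 8, 6), (.mj 10 9, 4), (.hz 21 23, 158), (.hz 30 319, 5027), (.hz 32 319, 37634), (.hz 32 383, 39711), (.hz 32 639, 19080), (.hz 29 639, 14076)])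
.fin))
(.ask 159
(.mark 255 [8, 9, 10]
(.spn
(.haz 6 159 9 40
(.ask 319
(.mark 319 [6, 7, 11]
(.lp [[6, 9], [0, 2, 4, 7, 10], [1, 3, 5, 8, 11]] [(.mj 0 1, 243), (.mj 5 6, 15), (.mj 6 7, 22), (.mj 7 8, 4), (.hz 34 159, 2327), (.hz 32 319, 37849), (.hz 27 1183, 7059), (.hz 34 1183, 3731), (.hz 29 639, 5676), (.hz 32 2367, 38488)]))
(.lp [[6, 9], [1, 3, 5, 8], [0, 2, 4, 7, 10]] [(.mj 0 1, 20), (.mj 5 6, 5), (.mj 6 7, 3), (.mj 7 8, 1), (.hz 34 159, 782), (.hz 34 1183, 1384), (.hz 29 639, 1300)]))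
(.lp [[6, 9], [1, 3, 5, 8], [0, 2, 4, 7, 10]] [(.mj 0 1, 2097), (.mj 6 7, 236), (.mj 7 8, 46), (.mj 8 9, 12), (.hz 34 31, 33475), (.hz 30 319, 89137), (.hz 32 319, 559036), (.hz 27 1183, 145617), (.hz 32 639, 139064), (.hz 29 639, 68503)]))
(.ask 319
(.mark 447 [6, 10, 11]
(.lp [[6, 9], [0, 2, 4, 7, 10], [1, 3, 5, 8, 11]] [(.mj 0 1, 612), (.mj 5 6, 16), (.mj 6 7, 34), (.mj 9 8, 5), (.hz 20 31, 10054), (.hz 32 319, 152474), (.hz 27 1183, 14604), (.hz 32 2431, 90), (.hz 30 1471, 164729), (.hz 33 2559, 150)]))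
(.lp [[6, 9], [1, 3, 5, 8], [0, 2, 4, 7, 10]] [(.mj 0 1, 594), (.mj 5 6, 21), (.mj 6 7, 26), (.mj 9 8, 7), (.hz 20 31, 14857), (.hz 32 319, 46903), (.hz 32 383, 83979)]))
(.lp [[6, 9], [1, 3, 5, 8], [0, 2, 4, 7, 10]] [(.mj 0 1, 50), (.mj 5 6, 7), (.mj 6 7, 10), (.mj 10 8, 5), (.mj 10 9, 3), (.hz 20 31, 1262), (.hz 30 319, 7046), (.hz 32 319, 34495), (.hz 32 383, 39614), (.hz 32 639, 17803), (.hz 29 639, 12571)])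
.fin))
(.lp [[6, 9], [0, 2, 4, 7], [1, 3, 5, 8]] [(.mj 0 1, 723), (.mj 5 6, 41), (.mj 6 7, 62), (.mj 7 8, 17), (.hz 30 319, 57224), (.hz 32 319, 107790), (.hz 29 639, 25396)]))))
(.lp [[6, 9], [0, 2, 4, 7], [1, 3, 5, 8]] [(.mj 5 6, 45), (.mj 6 7, 39), (.mj 7 8, 26), (.hz 33 111, 5937), (.hz 33 127, 16690), (.hz 30 319, 42364), (.hz 32 319, 67778), (.hz 29 639, 39214)]))
(.lp [[6, 9], [0, 2, 4, 7], [1, 3, 5, 8]] [(.mj 0 1, 8717), (.mj 5 6, 548), (.mj 7 8, 511), (.hz 32 21, 532800), (.hz 32 23, 902427), (.hz 32 31, 1068088), (.hz 32 63, 1275165), (.hz 30 319, 1908829), (.hz 29 639, 765771)]))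
(.lp [[6, 9], [0, 2, 4, 7], [1, 3, 5, 8]] [(.mj 5 6, 31), (.mj 6 7, 27), (.mj 7 8, 19), (.hz 31 111, 8112), (.hz 31 127, 22196), (.hz 30 319, 36243), (.hz 28 319, 11943), (.hz 29 639, 28592)]))
(.lp [[6, 9], [0, 2, 4, 7], [1, 3, 5, 8]] [(.mj 5 6, 7), (.mj 6 7, 33), (.mj 7 8, 26), (.hz 30 47, 27905), (.hz 30 63, 137701), (.hz 22 319, 24641), (.hz 28 319, 14277), (.hz 12 623, 2334), (.hz 29 639, 38906)]))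
(.lp [[6, 9], [0, 2, 4, 7], [1, 3, 5, 8]] [(.mj 0 1, 4), (.mj 5 6, 9), (.mj 6 7, 8), (.mj 7 9, 4), (.hz 23 149, 27), (.hz 29 63, 3138), (.hz 29 127, 4598), (.hz 28 319, 3494)]))
(.lp [[6, 9], [0, 2, 4, 7], [1, 3, 5, 8]] [(.mj 0 1, 46), (.mj 7 8, 1), (.hz 28 21, 608), (.hz 28 23, 857), (.hz 28 31, 1659), (.hz 22 319, 487), (.hz 18 319, 553)]))
(.haz 7 63 4 25
(.haz 7 31 9 50
(.lp [[6, 9], [0, 2, 4, 7], [1, 3, 5, 8]] [(.mj 0 1, 21), (.mj 6 8, 1), (.mj 8 7, 6), (.hz 23 149, 144), (.hz 29 31, 441), (.hz 29 63, 892), (.hz 29 95, 892), (.hz 29 127, 2882), (.hz 29 319, 250), (.hz 12 623, 525), (.hz 29 639, 2916)])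
(.ask 319
(.mark 383 [7, 9, 10]
(.lp [[6, 9], [0, 2, 4, 7], [1, 3, 5, 8, 10]] [(.mj 0 1, 289), (.mj 6 8, 10), (.mj 8 7, 20), (.hz 29 21, 1396), (.hz 29 23, 1491), (.hz 28 63, 3550), (.hz 28 127, 16146), (.hz 28 319, 8665), (.hz 28 639, 27334), (.hz 28 1343, 1916)]))
(.lp [[6, 9], [0, 2, 4, 7], [1, 3, 5, 8]] [(.mj 0 1, 236), (.mj 8 7, 8), (.hz 29 21, 1180), (.hz 29 23, 1377), (.hz 29 31, 375), (.hz 28 127, 11707)])))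
(.lp [[6, 9], [0, 2, 4, 7], [1, 3, 5, 8]] [(.mj 0 1, 145), (.mj 6 8, 2), (.mj 8 7, 1), (.hz 28 21, 1507), (.hz 28 23, 2005), (.hz 28 31, 1301), (.hz 28 63, 463), (.hz 18 319, 3422), (.hz 27 223, 4861)]))
(.lp [[6, 9], [0, 2, 4, 7], [1, 3, 5, 8]] [(.mj 0 1, 14), (.mj 4 5, 10), (.mj 9 7, 6), (.mj 9 8, 1), (.hz 23 149, 178), (.hz 24 151, 448), (.hz 27 159, 6505), (.hz 25 127, 2354), (.hz 22 319, 1300), (.hz 18 319, 7301), (.hz 25 383, 5290)])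
.fin))

theorem run160 : run P3488 (leaf3 218 625) (cutRow P3488) [] t160 s160 = true := by
  decide +kernel

theorem bad160 : Bad P3488 s160 :=
  run_sound (leaf3_sound P3488 rfl rfl) (cutRow_sound P3488) (
    fun _ h => absurd h List.not_mem_nil) t160 s160 run160

/-- the state above piece 42 of the tree -/
def s42 : St := ⟨[0, 0, 1, 1, 7, 7, 11, 23, 63, 159], [79, 75, 191, 151, 63, 47, 55, 39, 31, 15, 13, 9, 7, 5, 3, 2, 1, 0], [0, 1, 2, 3, 4, 5, 7, 6],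
  [(3, 4)],
  [⟨true, 1, 9, 7, 50⟩, ⟨true, 2, 11, 3, 50⟩, ⟨true, 2, 9, 9, 50⟩, ⟨true, 3, 3, 1, 5⟩, ⟨true, 1, 5, 13, 50⟩, ⟨true, 2, 11, 3, 5⟩, ⟨true, 2, 9, 8, 25⟩, ⟨true, 2, 9, 17, 50⟩, ⟨true, 2, 11, 33, 50⟩, ⟨true, 4, 47, 4, 25⟩, ⟨true, 4, 79, 1, 5⟩, ⟨true, 5, 159, 7, 50⟩, ⟨true, 4, 79, 3, 10⟩, ⟨true, 3, 23, 7, 25⟩, ⟨true, 3, 23, 3, 10⟩, ⟨true, 6, 63, 2, 25⟩, ⟨true, 5, 95, 4, 25⟩, ⟨true, 4, 79, 9, 25⟩, ⟨false, 6, 15, 11, 50⟩, ⟨false, 6, 15, 1, 5⟩, ⟨true, 6, 63, 1, 10⟩, ⟨true, 2, 75, 18, 25⟩, ⟨true, 2, 75, 19, 25⟩, ⟨true, 4, 79, 21, 50⟩, ⟨true, 4, 79, 23, 50⟩, ⟨true, 7, 95, 1, 5⟩, ⟨true, 4, 79, 12, 25⟩, ⟨true, 7, 95, 11, 50⟩, ⟨true, 7, 319, 6, 25⟩, ⟨true, 8, 767, 1, 8⟩, ⟨true, 5, 79, 1, 5⟩, ⟨true, 5, 95, 3, 10⟩, ⟨true, 8, 703, 3, 20⟩, ⟨true, 6, 703, 3, 20⟩, ⟨true, 6, 447, 3, 20⟩],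
  [.spn 0 0 651200, .spn 1 1 140426, .spn 3 2 302400, .spn 7 3 62723, .spn 15 4 140426, .spn 31 5 62723, .spn 63 7 62723, .spn 191 6 62723]⟩

/-- piece 42 of the tree -/
noncomputable def t42 : WN.Tree :=
(.haz 4 111 5 8
(.ask 111
(.mark 255 [8, 9, 10]
(.spn
(.haz 9 1279 1 8
(.haz 9 255 13 40
(.lp [[1, 5, 8], [3, 6, 10], [0, 2, 4, 7, 9]] [(.mj 6 8, 120), (.mj 7 6, 107), (.mj 8 9, 116), (.hz 11 671, 4681), (.hz 35 1135, 35425), (.hz 37 255, 270610), (.hz 27 1151, 78463), (.hz 32 703, 117815), (.hz 37 511, 62923), (.hz 37 1279, 464251), (.hz 32 1791, 64706)])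
(.ask 671
(.mark 767 [8, 10, 11]
(.lp [[1, 5, 8], [3, 6, 10], [0, 2, 4, 7, 9, 11]] [(.mj 6 8, 26), (.mj 7 6, 34), (.mj 8 9, 7), (.hz 37 159, 13425), (.hz 34 447, 20135), (.hz 32 703, 12846), (.hz 36 1279, 94001), (.hz 32 2751, 81832)]))
(.lp [[1, 5, 8], [3, 6, 10], [0, 2, 4, 7, 9]] [(.mj 4 5, 17), (.mj 6 8, 11), (.mj 7 6, 12), (.mj 8 9, 5), (.hz 37 191, 7465), (.hz 37 223, 6652), (.hz 32 703, 23108), (.hz 36 1279, 98691)])))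
(.lp [[1, 5, 8], [3, 6, 10], [0, 2, 4, 7, 9]] [(.mj 4 5, 4), (.mj 6 8, 2), (.mj 7 6, 2), (.mj 8 9, 1), (.hz 36 159, 7789)]))
(.haz 8 127 7 40
(.haz 8 703 9 40
(.ask 319
(.mark 447 [6, 9, 11]
(.lp [[3, 6, 10], [1, 5, 8, 11], [0, 2, 4, 7, 9]] [(.mj 5 7, 8), (.mj 6 9, 5), (.mj 7 6, 8), (.mj 9 8, 7), (.hz 35 1135, 5048), (.hz 36 1151, 17570), (.hz 37 703, 4539), (.hz 20 2367, 44539), (.hz 28 2367, 1385), (.hz 37 767, 16686), (.hz 36 1279, 34825), (.hz 34 2495, 33371)]))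
(.lp [[1, 5, 8], [3, 6, 10], [0, 2, 4, 7, 9]] [(.mj 5 7, 25), (.mj 6 9, 11), (.mj 7 6, 21), (.mj 9 8, 17), (.hz 36 127, 22065), (.hz 35 1135, 13297), (.hz 36 1151, 24213), (.hz 34 447, 64236), (.hz 37 703, 13474), (.hz 36 1279, 50499)]))
(.lp [[1, 5, 8], [3, 6, 10], [0, 2, 4, 7, 9]] [(.mj 5 7, 9), (.mj 6 9, 9), (.mj 7 6, 14), (.hz 37 63, 6435), (.hz 36 127, 3531), (.hz 37 191, 10556), (.hz 36 1151, 9782), (.hz 32 703, 22848)]))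
(.lp [[1, 5, 8], [3, 6, 10], [0, 2, 4, 7, 9]] [(.mj 5 7, 13), (.mj 6 9, 16), (.mj 7 6, 29), (.hz 36 63, 28059), (.hz 34 447, 47885), (.hz 32 703, 40016)]))
(.lp [[1, 5, 8], [3, 6, 10], [0, 2, 4, 7, 9]] [(.mj 5 7, 7), (.mj 7 6, 13), (.mj 10 8, 7), (.mj 10 9, 4), (.hz 20 319, 61989), (.hz 28 319, 1290), (.hz 34 447, 29019), (.hz 33 703, 23842), (.hz 32 703, 24294)])
.fin))
(.ask 95
(.mark 255 [8, 9, 10]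
(.spn
(.haz 9 1279 1 5
(.haz 8 703 3 10
(.ask 671
(.mark 703 [6, 8, 11]
(.lp [[1, 5, 8], [3, 6, 10], [0, 2, 4, 7, 9, 11]] [(.mj 5 7, 10), (.mj 6 8, 13), (.mj 7 6, 14), (.mj 8 9, 3), (.hz 28 319, 2904), (.hz 33 703, 3138), (.hz 37 703, 39719), (.hz 11 2719, 1652), (.hz 36 1279, 13270), (.hz 33 2751, 7605), (.hz 37 2751, 64537)]))
(.lp [[1, 5, 8], [3, 6, 10], [0, 2, 4, 7, 9]] [(.mj 6 8, 5), (.mj 7 6, 6), (.mj 8 9, 3), (.hz 31 1119, 5568), (.hz 33 703, 7577), (.hz 37 703, 19359), (.hz 36 1279, 125774)]))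
(.lp [[1, 5, 8], [3, 6, 10], [0, 2, 4, 7, 9]] [(.mj 7 6, 5), (.mj 8 9, 4), (.hz 37 63, 7914), (.hz 37 191, 17805), (.hz 33 703, 16696), (.hz 36 1279, 44340)]))
(.lp [[1, 5, 8], [3, 6, 10], [0, 2, 4, 7, 9]] [(.mj 6 8, 4), (.mj 7 6, 5), (.hz 36 159, 7826), (.hz 36 191, 30465), (.hz 36 223, 3613), (.hz 36 255, 22408)]))
(.haz 9 447 3 8
(.ask 319
(.mark 447 [6, 9, 11]
(.lp [[3, 6, 10], [1, 5, 8, 11], [0, 2, 4, 7, 9]] [(.mj 5 7, 62), (.mj 6 9, 66), (.mj 7 6, 98), (.mj 9 8, 47), (.hz 36 447, 297644), (.hz 20 2367, 478444), (.hz 28 2367, 62421), (.hz 32 767, 257974), (.hz 34 2495, 257974), (.hz 36 2495, 548612)]))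
(.lp [[1, 5, 8], [3, 6, 10], [0, 2, 4, 7, 9]] [(.mj 5 7, 30), (.mj 6 9, 20), (.mj 7 6, 33), (.mj 9 8, 15), (.hz 27 1119, 6404), (.hz 34 447, 89867), (.hz 36 447, 122108)]))
(.lp [[1, 5, 8], [3, 6, 10], [0, 2, 4, 7, 9]] [(.mj 5 7, 19), (.mj 7 6, 17), (.mj 9 8, 13), (.hz 36 191, 66169), (.hz 20 319, 83787), (.hz 27 1119, 726), (.hz 27 1151, 2375), (.hz 34 447, 48053)]))
(.lp [[1, 5, 8], [3, 6, 10], [0, 2, 4, 7, 9]] [(.mj 5 7, 3), (.mj 7 6, 5), (.mj 10 8, 3), (.mj 10 9, 2), (.hz 20 319, 23746), (.hz 28 319, 560), (.hz 34 447, 11325), (.hz 33 703, 8646), (.hz 32 703, 10964)])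
.fin))
(.haz 9 255 1 5
(.haz 9 447 7 40
(.haz 9 447 9 40
(.ask 223
(.mark 255 [8, 9, 10]
(.spn
(.haz 9 255 11 40
(.ask 319
(.mark 447 [6, 9, 11]
(.lp [[3, 6, 10], [1, 5, 8, 11], [0, 2, 4, 7, 9]] [(.mj 6 8, 10), (.mj 7 6, 12), (.mj 8 9, 12), (.hz 39 255, 29850), (.hz 38 447, 10056), (.hz 20 2367, 34141), (.hz 31 1247, 35550), (.hz 39 1279, 47592), (.hz 34 2495, 1816), (.hz 38 2495, 42)]))
(.lp [[1, 5, 8], [3, 6, 10], [0, 2, 4, 7, 9]] [(.mj 6 8, 11), (.mj 7 6, 13), (.mj 8 9, 13), (.hz 39 255, 32826), (.hz 38 447, 11376), (.hz 31 1247, 39027), (.hz 39 1279, 52394)]))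
(.lp [[1, 5, 8], [3, 6, 10], [0, 2, 4, 7, 9]] [(.mj 5 7, 31), (.mj 6 8, 43), (.mj 7 6, 64), (.mj 8 9, 2), (.hz 39 159, 4814), (.hz 39 191, 42351), (.hz 20 319, 112934), (.hz 38 447, 43467), (.hz 36 1279, 234741)]))
(.lp [[1, 5, 8], [3, 6, 10], [0, 2, 4, 7, 9]] [(.mj 5 7, 48), (.mj 6 9, 1), (.mj 9 8, 19), (.hz 28 319, 14118), (.hz 28 383, 36303), (.hz 32 703, 2170), (.hz 32 767, 9639), (.hz 36 1279, 246015)])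
(.lp [[1, 5, 8], [3, 6, 10], [0, 2, 4, 7, 9]] [(.mj 5 7, 15), (.mj 7 6, 1), (.mj 10 8, 6), (.hz 28 319, 5866), (.hz 28 383, 1302), (.hz 34 447, 17114), (.hz 32 703, 13174), (.hz 36 1279, 80432)])
.fin))
(.haz 8 127 4 25
(.haz 8 127 1 5
(.haz 9 255 1 4
(.ask 127
(.mark 255 [8, 9, 10]
(.spn
(.ask 319
(.mark 511 [9, 10, 11]
(.lp [[3, 6, 10], [1, 5, 8, 11], [0, 2, 4, 7, 9]] [(.mj 6 8, 16), (.mj 7 6, 17), (.mj 8 9, 18), (.hz 41 255, 344375), (.hz 27 1151, 4790), (.hz 38 447, 17533), (.hz 20 2367, 29258), (.hz 28 2367, 1795), (.hz 41 1279, 723068)]))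
(.lp [[1, 5, 8], [3, 6, 10], [0, 2, 4, 7, 9]] [(.mj 6 8, 49), (.mj 7 6, 59), (.mj 8 9, 58), (.hz 41 255, 1417829), (.hz 38 447, 49699), (.hz 41 1279, 868169)]))
(.ask 319
(.mark 447 [6, 9, 11]
(.lp [[3, 6, 10], [1, 5, 8, 11], [0, 2, 4, 7, 9]] [(.mj 5 7, 39), (.mj 6 9, 23), (.mj 7 6, 33), (.mj 9 8, 33), (.hz 40 255, 754539), (.hz 40 1151, 539095), (.hz 32 703, 45704), (.hz 20 2367, 182075), (.hz 28 2367, 5655), (.hz 40 1279, 467566), (.hz 38 2495, 37634), (.hz 41 2559, 1)]))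
(.lp [[1, 5, 8], [3, 6, 10], [0, 2, 4, 7, 9]] [(.mj 3 4, 193), (.mj 5 7, 16), (.mj 7 6, 58), (.mj 9 8, 10), (.hz 40 127, 177248), (.hz 40 1151, 137992), (.hz 34 447, 45244), (.hz 40 1279, 88626), (.hz 28 1407, 40011)]))
(.lp [[1, 5, 8], [3, 6, 10], [0, 2, 4, 7, 9]] [(.mj 7 6, 3), (.mj 10 8, 3), (.mj 10 9, 4), (.hz 40 127, 37590), (.hz 28 319, 1927), (.hz 40 255, 60740), (.hz 41 255, 102241), (.hz 38 447, 7692)])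
.fin))
(.ask 255
(.mark 255 [8, 9, 10]
(.spn
(.ask 319
(.mark 511 [9, 10, 11]
(.lp [[3, 6, 10], [1, 5, 8, 11], [0, 2, 4, 7, 9]] [(.mj 6 8, 22), (.mj 7 6, 24), (.mj 8 9, 25), (.hz 41 255, 569075), (.hz 38 447, 16349), (.hz 20 2367, 54777), (.hz 28 2367, 782), (.hz 41 1279, 650838), (.hz 38 2495, 4466)]))
(.lp [[1, 5, 8], [3, 6, 10], [0, 2, 4, 7, 9]] [(.mj 6 8, 49), (.mj 7 6, 59), (.mj 8 9, 58), (.hz 41 255, 1417829), (.hz 38 447, 49699), (.hz 41 1279, 898534)]))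
(.lp [[1, 5, 8], [3, 6, 10], [0, 2, 4, 7, 9]] [(.mj 5 7, 35), (.mj 6 9, 4), (.mj 7 6, 3), (.mj 9 8, 23), (.hz 40 127, 46723), (.hz 40 255, 438130), (.hz 32 703, 28664), (.hz 40 1279, 454763)])
(.lp [[1, 5, 8], [3, 6, 10], [0, 2, 4, 7, 9]] [(.mj 7 6, 903), (.rw 8, 1), (.hz 40 127, 14103590), (.hz 40 255, 25540319), (.hz 41 255, 35028189)])
.fin))
(.spn
(.ask 319
(.mark 447 [6, 9, 10]
(.lp [[3, 6], [1, 5, 8, 10], [0, 2, 4, 7, 9]] [(.mj 6 8, 38), (.mj 7 6, 46), (.mj 8 9, 45), (.hz 41 255, 1110748), (.hz 38 447, 37521), (.hz 20 1343, 130675), (.hz 34 1471, 10336)]))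
(.lp [[3, 6], [1, 5, 8], [0, 2, 4, 7, 9]] [(.mj 3 4, 684), (.mj 5 7, 43), (.mj 6 8, 45), (.mj 7 6, 214), (.mj 8 9, 12), (.hz 38 447, 45461)]))
(.lp [[3, 6], [1, 5, 8], [0, 2, 4, 7, 9]] [(.mj 5 7, 18), (.mj 6 9, 2), (.mj 7 6, 1), (.mj 9 8, 9), (.hz 28 319, 5425), (.hz 40 255, 125366), (.hz 32 703, 4415)])
.fin
.fin)))
(.lp [[3, 6], [1, 5, 8], [0, 2, 4, 7, 9]] [(.mj 6 8, 21), (.mj 7 6, 34), (.hz 41 159, 57300), (.hz 40 127, 316093), (.hz 41 191, 227836), (.hz 41 223, 11207), (.hz 38 447, 21785)]))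
(.lp [[3, 6], [1, 5, 8], [0, 2, 4, 7, 9]] [(.mj 3 4, 906), (.mj 5 7, 31), (.mj 7 6, 264), (.hz 40 63, 560157), (.hz 39 127, 185127)]))
(.lp [[3, 6], [1, 5, 8], [0, 2, 4, 7, 9]] [(.mj 3 4, 214), (.mj 5 7, 18), (.mj 6 9, 3), (.mj 7 6, 76), (.hz 39 63, 33173), (.hz 34 447, 66342), (.hz 33 703, 11682), (.hz 32 703, 8131)])))
(.lp [[3, 6], [1, 5, 8], [0, 2, 4, 7, 9]] [(.mj 6 8, 7), (.mj 7 6, 15), (.hz 38 159, 2176), (.hz 38 191, 8558), (.hz 20 319, 12485), (.hz 36 255, 2570), (.hz 34 447, 23205), (.hz 37 447, 7105)]))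
(.lp [[3, 6], [1, 5, 8], [0, 2, 4, 7, 9]] [(.mj 6 8, 7), (.mj 7 6, 13), (.hz 37 159, 1853), (.hz 37 191, 5916), (.hz 20 319, 5952), (.hz 36 255, 1545), (.hz 34 447, 21740), (.hz 32 703, 13504)]))
(.lp [[3, 6], [1, 5, 8], [0, 2, 4, 7, 9]] [(.mj 6 8, 16), (.mj 7 6, 31), (.hz 36 159, 36215), (.hz 36 191, 115751), (.hz 20 319, 8685), (.hz 34 447, 55928), (.hz 33 703, 1019), (.hz 32 703, 32620)]))))
(.lp [[3, 6], [1, 5, 8], [0, 2, 4, 7, 9]] [(.mj 4 5, 6), (.mj 5 7, 7), (.mj 7 6, 7), (.hz 35 47, 28274), (.hz 26 111, 5355)]))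

theorem run42 : run P3488 (leaf3 218 625) (cutRow P3488) [] t42 s42 = true := by
  decide +kernel

theorem bad42 : Bad P3488 s42 :=
  run_sound (leaf3_sound P3488 rfl rfl) (cutRow_sound P3488) (
    fun _ h => absurd h List.not_mem_nil) t42 s42 run42

/-- the state above piece 86 of the tree -/
def s86 : St := ⟨[0, 0, 1, 3, 5, 5, 11, 23, 79], [159, 151, 95, 75, 31, 21, 15, 7, 3, 2, 1, 0], [0, 1, 2, 3, 4, 6, 7],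
  [],
  [⟨true, 2, 3, 3, 10⟩, ⟨true, 1, 5, 2, 5⟩, ⟨true, 2, 3, 23, 50⟩, ⟨true, 1, 5, 12, 25⟩, ⟨true, 2, 11, 12, 25⟩, ⟨true, 4, 79, 11, 50⟩, ⟨true, 5, 31, 1, 50⟩, ⟨true, 3, 39, 7, 25⟩, ⟨true, 5, 31, 1, 25⟩, ⟨false, 5, 23, 3, 25⟩, ⟨true, 4, 39, 13, 50⟩, ⟨true, 6, 47, 13, 50⟩, ⟨true, 6, 47, 3, 10⟩, ⟨true, 6, 159, 3, 10⟩, ⟨true, 4, 47, 9, 25⟩, ⟨true, 5, 479, 3, 50⟩],
  [.spn 0 0 651200, .spn 1 1 302400, .spn 3 2 302400, .spn 7 3 140426, .spn 15 4 140426, .spn 31 6 140426, .spn 95 7 140426]⟩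

/-- piece 86 of the tree -/
noncomputable def t86 : WN.Tree :=
(.haz 7 383 7 20
(.ask 223
(.mark 223 [5, 8, 9]
(.spn
(.haz 8 735 3 20
(.ask 735
(.ask 37
(.mark 767 [8, 10, 11]
(.lp [[5, 11], [1, 3, 6, 8], [0, 2, 4, 7, 9, 10]] [(.mj 3 4, 151), (.mj 4 6, 59), (.mj 5 8, 59), (.mj 5 9, 28), (.mj 7 5, 41), (.hz 9 23, 23158), (.hz 3 2085, 4020), (.hz 10 2087, 22575), (.hz 14 2095, 36944), (.hz 12 2095, 33895), (.hz 12 2111, 2861), (.hz 8 351, 24727), (.hz 17 735, 96495), (.hz 17 767, 11793), (.hz 17 1759, 53429)]))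
(.ask 39
(.mark 767 [8, 10, 11]
(.lp [[5, 11], [1, 3, 6, 8], [0, 2, 4, 7, 9, 10]] [(.mj 3 4, 233), (.mj 4 6, 93), (.mj 5 8, 87), (.mj 5 9, 41), (.mj 7 5, 61), (.hz 9 23, 32546), (.hz 10 2087, 22834), (.hz 14 2095, 57995), (.hz 12 2095, 48646), (.hz 12 2111, 1399), (.hz 8 351, 35241), (.hz 17 735, 141292), (.hz 17 767, 18200), (.hz 17 1759, 78575)]))
(.haz 8 735 1 5
(.mark 735 [5, 8, 10]
(.lp [[5], [1, 3, 6, 8], [0, 2, 4, 7, 9, 10]] [(.mj 3 4, 12), (.mj 5 8, 33), (.mj 5 9, 16), (.mj 7 5, 33), (.hz 9 23, 11518), (.hz 8 351, 4532), (.hz 15 479, 4532), (.hz 18 735, 199464), (.hz 18 767, 119097), (.hz 18 1759, 119097)]))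
(.lp [[5], [1, 3, 6, 8], [0, 2, 4, 7, 9, 10]] [(.mj 3 4, 21), (.mj 4 6, 4), (.mj 5 9, 6), (.mj 7 5, 8), (.hz 14 47, 3706), (.hz 18 79, 10847), (.hz 18 95, 19531), (.hz 18 223, 25738), (.hz 17 735, 9092)]))))
(.lp [[5], [1, 3, 6, 8], [0, 2, 4, 7, 9]] [(.mj 5 8, 3), (.mj 7 5, 5)]))
(.lp [[5], [1, 3, 6, 8], [0, 2, 4, 7, 9]] [(.mj 3 4, 3), (.mj 5 9, 7), (.mj 6 7, 4), (.mj 7 5, 8), (.hz 17 79, 2128), (.hz 17 95, 4739), (.hz 14 111, 709), (.hz 17 223, 6548)]))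
(.haz 8 735 1 5
(.ask 335
(.mark 479 [5, 9, 10]
(.spn
(.lp [[5], [0, 2, 4, 7, 9], [1, 3, 6, 8, 10]] [(.mj 4 6, 1329), (.mj 5 9, 308), (.mj 8 5, 748), (.rw 8, 1), (.hz 8 735, 1539488), (.hz 17 735, 626875), (.hz 15 1503, 1152211)])
(.ask 37
(.mark 511 [9, 10, 11]
(.cut 5 [(0, 1), (1, 1), (2, 1), (3, 1), (5, 1), (7, 1), (11, 1), (21, 1), (15, 1), (23, 1), (75, 1), (31, 1), (79, 1), (95, 1)]
(.lp [[5, 11], [0, 2, 4, 7, 9], [1, 3, 6, 8, 10]] [(.mj 0 1, 42334), (.mj 3 4, 49737), (.mj 4 6, 25674), (.mj 8 9, 809), (.mj 9 5, 9231), (.hz 3 2085, 1681428), (.hz 10 2087, 7406584), (.hz 14 2095, 3276210), (.hz 12 2095, 24244122), (.hz 14 1391, 2711706), (.hz 16 1407, 13887542), (.hz 15 1503, 3906278), (.rw 9, 31)])))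
(.cut 5 [(0, 1), (1, 1), (2, 1), (3, 1), (5, 1), (7, 1), (11, 1), (21, 1), (15, 1), (23, 1), (75, 1), (31, 1), (79, 1), (151, 1), (95, 1), (159, 1), (223, 1), (735, 1)]
(.cut 5 [(0, 1), (1, 1), (2, 1), (3, 1), (5, 1), (7, 1), (11, 1), (21, 1), (15, 1), (23, 1), (75, 1), (31, 1), (79, 1), (95, 1)]
(.cut 5 [(0, 1), (1, 1), (2, 1), (3, 1), (5, 1), (7, 1), (11, 1), (21, 1), (15, 1), (23, 1), (75, 1), (31, 1), (79, 1), (151, 1), (159, 1), (335, 1)]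
(.cut 5 [(0, 1), (1, 1), (2, 1), (3, 1), (5, 1), (7, 1), (11, 1), (21, 1), (15, 1), (23, 1), (75, 1), (31, 1), (79, 1), (95, 1), (335, 1), (351, 1)]
(.cut 5 [(0, 1), (1, 1), (2, 1), (3, 1), (5, 1), (7, 1), (11, 1), (21, 1), (15, 1), (23, 1), (75, 1), (31, 1), (79, 1), (151, 1), (95, 1), (159, 1), (335, 1), (223, 1), (351, 1), (1359, 1), (479, 1)]
(.cut 5 [(0, 1), (1, 1), (2, 1), (3, 1), (5, 1), (7, 1), (11, 1), (21, 1), (15, 1), (23, 1), (75, 1), (31, 1), (79, 1), (151, 1), (95, 1), (159, 1), (335, 1), (223, 1), (351, 1), (479, 1)]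
(.lp [[5], [0, 2, 4, 7, 9], [1, 3, 6, 8, 10]] [(.mj 0 1, 531704), (.mj 3 4, 132926), (.mj 4 6, 35217), (.mj 8 9, 18352), (.mj 9 5, 122905), (.hz 14 1391, 53347580), (.hz 16 1407, 123851469), (.hz 15 1503, 74350463), (.rw 9, 6), (.rw 10, 221), (.rw 11, 66), (.rw 12, 28), (.rw 13, 5), (.rw 14, 58)]))))))))
(.lp [[5], [0, 2, 4, 7, 9], [1, 3, 6, 8, 10]] [(.mj 7 8, 17), (.mj 10 5, 14), (.mj 10 9, 9), (.hz 15 479, 28486), (.hz 8 735, 41127), (.hz 17 735, 57473), (.hz 15 991, 46667), (.hz 15 1503, 27964)])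
.fin))
(.ask 351
(.mark 479 [5, 9, 10]
(.spn
(.lp [[5], [0, 2, 4, 7, 9], [1, 3, 6, 8, 10]] [(.mj 4 6, 16828), (.mj 5 9, 2943), (.mj 8 5, 8489), (.rw 8, 14), (.hz 8 735, 18775517), (.hz 17 735, 8123990), (.hz 15 1503, 9941581)])
(.ask 37
(.mark 511 [9, 10, 11]
(.cut 5 [(0, 1), (1, 1), (2, 1), (3, 1), (5, 1), (7, 1), (11, 1), (21, 1), (15, 1), (23, 1), (75, 1), (31, 1), (79, 1), (95, 1)]
(.lp [[5, 11], [0, 2, 4, 7, 9], [1, 3, 6, 8, 10]] [(.mj 0 1, 123157), (.mj 3 4, 57678), (.mj 4 6, 25427), (.mj 8 9, 3601), (.mj 9 5, 23424), (.hz 3 2085, 2639917), (.hz 7 2087, 834813), (.hz 10 2087, 8453602), (.hz 12 2095, 25020377), (.hz 12 2239, 1948200), (.hz 8 1375, 5898039), (.hz 16 1407, 25244431), (.hz 15 1503, 11862278), (.rw 9, 73)])))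
(.cut 5 [(0, 1), (1, 1), (2, 1), (3, 1), (5, 1), (7, 1), (11, 1), (21, 1), (15, 1), (23, 1), (75, 1), (31, 1), (79, 1), (151, 1), (95, 1), (159, 1), (335, 1), (223, 1), (351, 1), (479, 1)]
(.lp [[5], [0, 2, 4, 7, 9], [1, 3, 6, 8, 10]] [(.mj 0 1, 13792), (.mj 3 4, 3448), (.mj 4 6, 989), (.mj 8 9, 524), (.mj 9 5, 3211), (.hz 8 1375, 869823), (.hz 16 1407, 3209906), (.hz 15 1503, 1726550), (.rw 9, 10)])))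
(.lp [[5], [0, 2, 4, 7, 9], [1, 3, 6, 8, 10]] [(.mj 7 8, 44), (.mj 10 5, 36), (.mj 10 9, 22), (.hz 15 479, 74772), (.hz 8 735, 102814), (.hz 17 735, 149672), (.hz 15 991, 116733), (.hz 15 1503, 60118)])
.fin))
(.ask 479
(.mark 479 [5, 9, 10]
(.spn
(.haz 9 1503 1 5
(.ask 1503
(.mark 1503 [5, 9, 11]
(.lp [[5], [0, 2, 4, 7, 9], [1, 3, 6, 8, 10, 11]] [(.mj 4 6, 17), (.mj 5 9, 15), (.mj 5 10, 7), (.mj 8 5, 21), (.hz 8 735, 27921), (.hz 17 735, 5688), (.hz 18 1503, 147615), (.hz 18 1535, 16491), (.hz 18 3551, 98948)]))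
(.lp [[5], [0, 2, 4, 7, 9], [1, 3, 6, 8, 10]] [(.mj 5 9, 2), (.mj 8 5, 3)]))
(.lp [[5], [0, 2, 4, 7, 9], [1, 3, 6, 8, 10]] [(.mj 4 6, 318), (.mj 7 8, 3274), (.mj 8 5, 1393), (.rw 8, 4), (.hz 18 223, 5963822)]))
(.cut 5 [(0, 1), (1, 1), (2, 1), (3, 1), (5, 1), (7, 1), (11, 1), (21, 1), (15, 1), (23, 1), (75, 1), (31, 1), (79, 1), (151, 1), (95, 1), (159, 1), (335, 1), (223, 1), (351, 1), (479, 1)]
(.lp [[5], [0, 2, 4, 7, 9], [1, 3, 6, 8, 10]] [(.mj 0 1, 320), (.mj 3 4, 493), (.mj 9 5, 285), (.hz 15 1503, 177225), (.rw 9, 1)]))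
(.cut 5 [(0, 1), (1, 1), (2, 1), (3, 1), (5, 1), (7, 1), (11, 1), (21, 1), (15, 1), (23, 1), (75, 1), (31, 1), (79, 1), (151, 1), (95, 1), (159, 1), (335, 1), (223, 1), (351, 1), (479, 1)]
(.lp [[5], [0, 2, 4, 7, 9], [1, 3, 6, 8, 10]] [(.mj 0 1, 3667), (.mj 3 4, 330), (.mj 10 5, 1412), (.hz 17 735, 193095), (.rw 9, 5)]))
.fin))
(.spn
(.lp [[5], [1, 3, 6, 8], [0, 2, 4, 7, 9]] [(.mj 5 9, 2), (.mj 7 5, 1), (.mj 8 5, 2)])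
(.cut 5 [(0, 1), (1, 1), (2, 1), (3, 1), (5, 1), (7, 1), (11, 1), (21, 1), (15, 1), (23, 1), (75, 1), (31, 1), (79, 1), (95, 1), (335, 1)]
(.cut 5 [(0, 1), (1, 1), (2, 1), (3, 1), (5, 1), (7, 1), (11, 1), (21, 1), (15, 1), (23, 1), (75, 1), (31, 1), (79, 1), (151, 1), (95, 1), (159, 1), (335, 1), (223, 1), (351, 1)]
(.lp [[5], [1, 3, 6, 8], [0, 2, 4, 7, 9]] [(.mj 0 1, 4767), (.mj 3 4, 5863), (.mj 9 5, 3733), (.rw 9, 8), (.rw 10, 5)])))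
.fin
.fin))))
(.lp [[5], [1, 3, 6, 8], [0, 2, 4, 7, 9]] [(.mj 3 4, 188), (.mj 4 6, 4), (.mj 8 5, 45), (.mj 8 9, 394), (.rw 7, 1), (.hz 17 79, 44010), (.hz 17 223, 7724407)]))
(.ask 735
(.mark 735 [5, 8, 10]
(.spn
(.lp [[5], [1, 3, 6, 8], [0, 2, 4, 7, 9, 10]] [(.mj 9 5, 131), (.rw 8, 1)])
(.cut 5 [(0, 1), (1, 1), (2, 1), (3, 1), (5, 1), (7, 1), (11, 1), (21, 1), (15, 1), (23, 1), (75, 1), (31, 1), (79, 1), (95, 1)]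
(.lp [[5], [1, 3, 6, 8], [0, 2, 4, 7, 9, 10]] [(.mj 3 4, 4113), (.mj 9 8, 1643), (.rw 7, 1), (.rw 8, 4), (.hz 14 367, 1926480), (.hz 15 479, 5156515), (.rw 9, 6)]))
(.cut 5 [(0, 1), (1, 1), (2, 1), (3, 1), (5, 1), (7, 1), (11, 1), (21, 1), (15, 1), (23, 1), (75, 1), (31, 1), (79, 1), (151, 1), (95, 1), (159, 1), (335, 2), (223, 1), (351, 2), (479, 1)]
(.cut 5 [(0, 1), (1, 1), (2, 1), (3, 1), (5, 1), (7, 1), (11, 1), (21, 1), (15, 1), (23, 1), (75, 1), (31, 1), (79, 1), (95, 1)]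
(.cut 8 [(0, 1), (1, 1), (2, 1), (3, 1), (5, 1), (7, 1), (11, 1), (21, 1), (37, 1), (15, 1), (23, 1), (39, 1), (53, 1), (75, 1), (31, 1), (47, 1), (55, 1), (79, 1), (151, 1), (63, 1), (95, 1), (111, 1), (159, 1), (183, 1), (127, 1), (191, 1), (223, 1), (255, 1)]
(.cut 5 [(0, 1), (1, 1), (2, 1), (3, 1), (5, 1), (7, 1), (11, 1), (21, 1), (15, 1), (23, 1), (75, 1), (31, 1), (79, 1), (151, 1), (95, 1), (159, 1), (223, 1)]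
(.lp [[5], [1, 3, 6, 8], [0, 2, 4, 7, 9, 10]] [(.mj 3 4, 10810), (.mj 10 5, 16183), (.mj 10 8, 4777), (.hz 14 367, 17820942), (.hz 16 383, 50816528), (.hz 8 735, 5503445), (.hz 15 991, 4021541), (.rw 9, 2), (.rw 10, 15), (.rw 11, 7), (.rw 12, 39)])))))
.fin))
(.lp [[5], [1, 3, 6, 8], [0, 2, 4, 7, 9]] [(.mj 9 8, 1), (.rw 7, 1)]))
.fin))
(.spn
(.lp [[5], [0, 2, 4, 7], [1, 3, 6, 8]] [(.mj 5 8, 2), (.mj 7 5, 3)])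
(.lp [[5], [0, 2, 4, 7], [1, 3, 6, 8]] [(.mj 7 8, 11), (.mj 8 5, 6), (.hz 15 479, 11789)])
.fin
.fin))
(.lp [[5], [0, 2, 4, 7], [1, 3, 6, 8]] [(.mj 4 6, 3), (.mj 7 5, 4), (.mj 7 8, 4), (.hz 9 23, 626), (.hz 16 63, 1699), (.hz 16 95, 5084), (.hz 8 351, 12341)]))

theorem run86 : run P3488 (leaf3 218 625) (cutRow P3488) [] t86 s86 = true := by
  decide +kernel

theorem bad86 : Bad P3488 s86 :=
  run_sound (leaf3_sound P3488 rfl rfl) (cutRow_sound P3488) (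
    fun _ h => absurd h List.not_mem_nil) t86 s86 run86

/-- the state above piece 11 of the tree -/
def s11 : St := ⟨[0, 0, 1, 1, 2, 7, 11, 39], [15, 13, 7, 5, 9, 3, 1, 0], [0, 1, 2, 3, 5],
  [],
  [⟨true, 1, 9, 7, 50⟩, ⟨true, 2, 11, 3, 50⟩, ⟨true, 2, 9, 9, 50⟩, ⟨true, 3, 3, 1, 5⟩, ⟨true, 4, 39, 1, 20⟩, ⟨true, 5, 79, 2, 5⟩, ⟨true, 2, 75, 1, 2⟩],
  [.spn 0 0 651200, .spn 1 1 140426, .spn 3 2 140426, .spn 7 3 62723, .spn 15 5 140426]⟩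

/-- piece 11 of the tree -/
noncomputable def t11 : WN.Tree :=
(.mark 47 [4, 6, 7]
(.spn
(.haz 7 111 1 4
(.haz 4 79 1 10
(.haz 7 111 3 10
(.haz 3 167 1 4
(.haz 7 111 7 20
(.haz 5 79 9 20
(.ask 75
(.mark 111 [4, 7, 8]
(.lp [[1, 4], [3, 6, 8], [0, 2, 5, 7]] [(.mj 2 3, 12), (.mj 3 5, 6), (.mj 4 6, 2), (.mj 4 7, 11), (.mj 5 4, 17), (.hz 6 75, 5953), (.hz 8 79, 15089), (.hz 12 79, 926), (.hz 10 167, 270), (.hz 11 111, 4151), (.hz 8 335, 35432), (.hz 11 367, 12888)]))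
(.ask 79
(.mark 111 [4, 7, 8]
(.lp [[1, 4], [3, 6, 8], [0, 2, 5, 7]] [(.mj 2 3, 17), (.mj 3 5, 8), (.mj 4 6, 3), (.mj 4 7, 16), (.mj 5 4, 24), (.hz 8 79, 22504), (.hz 12 79, 2099), (.hz 10 167, 362), (.hz 11 111, 6209), (.hz 8 335, 27081), (.hz 11 367, 15813)]))
(.ask 111
(.mark 111 [4, 7, 8]
(.lp [[1, 4], [3, 6, 8], [0, 2, 5, 7]] [(.mj 2 3, 10), (.mj 3 5, 5), (.mj 4 6, 2), (.mj 4 7, 10), (.mj 5 4, 15), (.hz 8 79, 15353), (.hz 10 167, 227), (.hz 11 111, 5041), (.hz 11 367, 6621)]))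
(.lp [[1, 4], [3, 6], [0, 2, 5, 7]] [(.mj 4 7, 2), (.mj 5 4, 3)]))))
(.lp [[1, 4], [3, 6], [0, 2, 5, 7]] [(.mj 2 3, 2), (.mj 4 6, 5), (.mj 5 4, 8), (.hz 12 7, 983), (.hz 12 15, 2905), (.hz 8 79, 9164), (.hz 5 79, 10156), (.hz 11 111, 2236)]))
(.lp [[1, 4], [3, 6], [0, 2, 5, 7]] [(.mj 2 3, 47), (.mj 3 5, 20), (.mj 4 6, 19), (.mj 5 4, 47), (.hz 11 39, 3812), (.hz 11 47, 14765), (.hz 8 79, 103515), (.hz 9 111, 16383)]))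
(.lp [[1, 4], [3, 6], [0, 2, 5, 7]] [(.mj 0 1, 37), (.mj 3 5, 10), (.mj 4 7, 15), (.mj 5 4, 16), (.hz 10 3, 9330), (.hz 10 7, 16827), (.hz 3 19, 10829), (.hz 8 79, 19197), (.hz 5 79, 702), (.hz 3 167, 8730), (.hz 9 111, 20069)]))
(.lp [[1, 4], [3, 6], [0, 2, 5, 7]] [(.mj 2 3, 5), (.mj 3 5, 2), (.mj 4 6, 2), (.mj 5 4, 5), (.hz 9 39, 818), (.hz 9 47, 3123), (.hz 8 79, 11111), (.hz 7 111, 4701)]))
(.lp [[1, 4], [3, 6], [0, 2, 5, 7]] [(.mj 2 3, 4), (.mj 3 5, 1), (.mj 4 6, 6), (.mj 4 7, 8), (.hz 8 2, 506), (.hz 8 3, 1068), (.hz 8 7, 2802), (.hz 8 15, 8722), (.hz 5 79, 4695), (.hz 7 111, 40597)]))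
(.lp [[1, 4], [3, 6], [0, 2, 5, 7]] [(.mj 2 3, 59), (.mj 3 5, 26), (.mj 4 6, 36), (.mj 5 4, 65), (.hz 7 39, 24338), (.hz 7 47, 91708), (.hz 4 111, 63371)]))
(.haz 5 23 2 5
(.ask 167
(.maj 4 8
(.haz 4 7 1 10
(.mark 167 [3, 4, 8]
(.lp [[1, 4], [3, 6], [0, 2, 5, 7, 8]] [(.mj 2 3, 54), (.mj 6 4, 36), (.mj 6 7, 13), (.hz 8 15, 37546), (.hz 8 47, 19190), (.hz 8 79, 29230), (.hz 3 167, 16424), (.hz 8 167, 12556), (.hz 8 175, 63706), (.hz 3 423, 7653), (.hz 8 423, 6753), (.hz 8 431, 38267)]))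
(.mark 175 [4, 6, 8]
(.cut 4 [(0, 1), (1, 1), (2, 1), (3, 1), (5, 1), (9, 1), (7, 1), (11, 1), (13, 1), (15, 1), (39, 1), (47, 1), (167, 1), (175, 1)]
(.lp [[1, 4], [3, 6], [0, 2, 5, 7, 8]] [(.mj 2 3, 2443), (.mj 3 5, 463), (.mj 6 7, 562), (.hz 8 2, 77909), (.hz 8 3, 164475), (.hz 8 7, 260659), (.hz 3 167, 392207), (.hz 4 167, 150956), (.hz 4 175, 225551), (.hz 3 423, 141146), (.hz 4 431, 705731), (.rw 6, 1)]))))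
(.mark 175 [4, 6, 8]
(.cut 4 [(0, 1), (1, 1), (2, 1), (3, 1), (5, 1), (9, 1), (7, 1), (11, 1), (13, 1), (15, 1), (39, 1), (47, 1), (167, 1), (175, 1)]
(.tr 7 8 4
(.cut 7 [(0, 1), (1, 1), (2, 1), (3, 1), (5, 1), (9, 1), (7, 1), (11, 1), (13, 1), (15, 1), (39, 1), (75, 1), (47, 1), (79, 1)]
(.lp [[1, 4], [3, 6], [0, 2, 5, 7, 8]] [(.mj 2 3, 23981), (.mj 6 4, 334), (.mj 6 7, 8683), (.mj 8 4, 11657), (.hz 3 183, 37463626), (.hz 3 423, 6202072), (.hz 4 239, 12936087), (.rw 6, 34), (.rw 7, 2)]))))))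
(.cut 4 [(0, 1), (1, 1), (2, 1), (3, 1), (5, 1), (9, 1), (7, 1), (11, 1), (13, 1), (15, 1), (39, 1), (47, 1), (167, 1)]
(.lp [[1, 4], [3, 6], [0, 2, 5, 7]] [(.mj 2 3, 1127), (.mj 6 4, 563), (.mj 6 7, 203), (.hz 4 167, 80229), (.hz 4 175, 254059), (.rw 6, 1)])))
(.lp [[1, 4], [3, 6], [0, 2, 5, 7]] [(.mj 0 1, 6), (.mj 2 3, 31), (.mj 6 4, 11), (.hz 7 7, 10689), (.hz 3 19, 26114), (.hz 3 23, 6623), (.hz 4 39, 1289), (.hz 4 47, 3100), (.hz 4 167, 1357), (.hz 4 111, 1998), (.hz 4 175, 4691)]))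
(.haz 5 23 2 5
(.haz 7 111 2 5
(.ask 167
(.mark 175 [4, 6, 8]
(.spn
(.haz 6 175 3 20
(.lp [[1, 4], [3, 6], [0, 2, 5, 7, 8]] [(.mj 3 5, 1882), (.mj 4 6, 3369), (.mj 4 8, 1408), (.mj 7 4, 3492), (.rw 6, 1), (.hz 6 75, 230183), (.hz 5 79, 537093), (.hz 9 175, 352044), (.hz 4 423, 378496), (.hz 9 191, 4634672), (.hz 9 431, 3374035)])
(.lp [[1, 4], [3, 6], [0, 2, 5, 7, 8]] [(.mj 3 5, 1283), (.mj 7 4, 669), (.rw 6, 1), (.hz 9 11, 65411), (.hz 9 15, 185971), (.hz 9 47, 142641), (.hz 9 175, 91664), (.hz 4 423, 538750)]))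
(.maj 4 8
(.cut 4 [(0, 1), (1, 1), (2, 1), (3, 1), (5, 1), (9, 1), (7, 1), (11, 1), (13, 1), (15, 1), (39, 1), (47, 1), (167, 1), (175, 1)]
(.lp [[1, 4], [3, 6], [0, 2, 5, 7, 8]] [(.mj 7 6, 2062), (.rw 6, 2), (.rw 7, 4)]))
(.cut 4 [(0, 1), (1, 1), (2, 1), (3, 1), (5, 1), (9, 1), (7, 1), (11, 1), (13, 1), (15, 1), (39, 1), (47, 1)]
(.cut 4 [(0, 1), (1, 1), (2, 1), (3, 1), (5, 1), (9, 1), (7, 1), (11, 1), (13, 1), (15, 1), (39, 1), (75, 1), (47, 1), (79, 1), (167, 1), (175, 1)]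
(.cut 4 [(0, 1), (1, 1), (2, 1), (3, 1), (5, 1), (9, 1), (7, 1), (11, 1), (13, 1), (15, 1), (39, 1), (47, 1), (167, 1), (175, 1)]
(.lp [[1, 4], [3, 6], [0, 2, 5, 7, 8]] [(.mj 3 5, 917), (.mj 6 4, 1239), (.mj 6 8, 3349), (.mj 7 6, 5900), (.mj 8 4, 2596), (.hz 6 91, 1199956), (.rw 7, 1), (.rw 8, 1), (.rw 9, 9)])))))
(.cut 4 [(0, 1), (1, 1), (2, 1), (3, 1), (5, 1), (9, 1), (7, 1), (11, 1), (13, 1), (15, 1), (39, 1), (47, 1), (167, 1), (175, 1)]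
(.lp [[1, 4], [3, 6], [0, 2, 5, 7, 8]] [(.mj 3 5, 2628), (.mj 8 4, 1400), (.mj 8 6, 1125), (.hz 6 75, 516758), (.hz 5 79, 1205768), (.hz 4 167, 48715), (.hz 6 91, 5426006), (.hz 5 95, 9941931), (.hz 8 111, 1498268), (.hz 8 127, 13807985), (.rw 7, 4)]))
.fin))
(.ask 175
(.mark 175 [4, 6, 8]
(.spn
(.haz 6 431 1 10
(.haz 6 431 3 20
(.ask 431
(.mark 431 [4, 6, 9]
(.lp [[1, 4], [3, 6], [0, 2, 5, 7, 8, 9]] [(.mj 2 3, 12), (.mj 3 5, 15), (.mj 4 6, 29), (.mj 4 8, 15), (.mj 7 4, 39), (.hz 5 79, 7504), (.hz 4 111, 46940), (.hz 10 431, 27317), (.hz 10 447, 12470), (.hz 10 943, 12470)]))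
(.lp [[1, 4], [3, 6], [0, 2, 5, 7, 8]] [(.mj 4 6, 2), (.mj 7 4, 3)]))
(.lp [[1, 4], [3, 6], [0, 2, 5, 7, 8]] [(.mj 3 5, 3), (.mj 4 8, 3), (.mj 7 4, 4), (.hz 10 11, 418), (.hz 10 15, 1188), (.hz 10 47, 1160), (.hz 4 111, 5794), (.hz 10 175, 1809), (.hz 9 431, 7400)]))
(.lp [[1, 4], [3, 6], [0, 2, 5, 7, 8]] [(.mj 3 5, 4), (.mj 4 8, 5), (.mj 7 4, 6), (.hz 9 11, 1135), (.hz 9 15, 3154), (.hz 9 47, 3851), (.hz 9 175, 4626)]))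
(.ask 431
(.mark 431 [4, 6, 9]
(.cut 4 [(0, 1), (1, 1), (2, 1), (3, 1), (5, 1), (9, 1), (7, 1), (11, 1), (13, 1), (15, 1), (39, 1), (47, 1), (167, 1), (175, 1)]
(.lp [[1, 4], [3, 6], [0, 2, 5, 7, 8, 9]] [(.mj 6 4, 42925), (.mj 6 8, 40779), (.mj 7 6, 97098), (.rw 6, 25), (.hz 4 943, 18779697), (.rw 7, 146)])))
(.cut 4 [(0, 1), (1, 1), (2, 1), (3, 1), (5, 1), (9, 1), (7, 1), (11, 1), (13, 1), (15, 1), (39, 1), (47, 1), (167, 1), (175, 1), (431, 1)]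
(.lp [[1, 4], [3, 6], [0, 2, 5, 7, 8]] [(.mj 6 4, 374), (.mj 7 6, 849), (.rw 7, 1)])))
(.ask 431
(.mark 431 [4, 6, 9]
(.spn
(.lp [[1, 4], [3, 6], [0, 2, 5, 7, 8, 9]] [(.mj 8 4, 146), (.rw 7, 1)])
(.lp [[1, 4], [3, 6], [0, 2, 5, 7, 8, 9]] [(.mj 8 6, 2464), (.rw 7, 4)])
(.maj 4 6
(.cut 4 [(0, 1), (1, 1), (2, 1), (3, 1), (5, 1), (9, 1), (7, 1), (11, 1), (13, 1), (15, 1), (39, 1), (47, 1), (167, 1), (175, 1)]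
(.lp [[1, 4], [3, 6], [0, 2, 5, 7, 8, 9]] [(.mj 2 3, 3043), (.mj 3 5, 11834), (.mj 9 4, 3043), (.rw 7, 2), (.hz 5 79, 3803684), (.hz 8 111, 5071579), (.rw 8, 22)]))
(.cut 4 [(0, 1), (1, 1), (2, 1), (3, 1), (5, 1), (9, 1), (7, 1), (11, 1), (13, 1), (15, 1), (39, 1), (75, 1), (47, 1), (79, 2), (167, 1), (111, 1), (175, 1)]
(.cut 4 [(0, 1), (1, 1), (2, 1), (3, 1), (5, 1), (9, 1), (7, 1), (11, 1), (13, 1), (15, 1), (39, 1), (75, 1), (47, 1), (79, 2), (167, 1), (111, 2), (175, 1), (239, 1), (431, 1)]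
(.cut 6 [(0, 1), (1, 1), (2, 1), (3, 1), (5, 1), (9, 1), (7, 1), (11, 1), (13, 1), (15, 1), (39, 1), (47, 1), (167, 1), (175, 1), (431, 1)]
(.cut 4 [(0, 1), (1, 1), (2, 1), (3, 1), (5, 1), (9, 1), (7, 1), (11, 1), (13, 1), (15, 1), (39, 1), (75, 2), (47, 1), (79, 1), (167, 1), (111, 2), (175, 1), (239, 2), (431, 1), (495, 1)]
(.lp [[1, 4], [3, 6], [0, 2, 5, 7, 8, 9]] [(.mj 3 5, 785066), (.mj 9 6, 639274), (.rw 7, 210), (.hz 6 75, 1908310177), (.hz 4 111, 1488966517), (.hz 4 239, 2796888391), (.hz 4 495, 2131648618), (.rw 8, 447), (.rw 9, 588), (.rw 10, 2275), (.rw 11, 226)]))))))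
.fin))
(.lp [[1, 4], [3, 6], [0, 2, 5, 7, 8]] [(.mj 8 6, 1), (.rw 6, 1)]))
.fin))
(.lp [[1, 4], [3, 6], [0, 2, 5, 7]] [(.mj 7 4, 1), (.mj 7 6, 1), (.hz 4 111, 2588)])))
(.lp [[1, 4], [3, 6], [0, 2, 5, 7]] [(.mj 2 3, 2), (.mj 7 4, 11), (.mj 7 6, 12), (.hz 8 39, 5652), (.hz 8 47, 22783)]))
(.lp [[1, 4], [3, 6], [0, 2, 5, 7]] [(.mj 0 1, 1), (.mj 2 3, 7), (.mj 7 4, 3), (.hz 7 7, 3038), (.hz 3 19, 6151), (.hz 3 23, 1615), (.hz 4 39, 420), (.hz 4 47, 867), (.hz 5 79, 130), (.hz 4 167, 150), (.hz 4 111, 3654)]))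
.fin))

theorem run11 : run P3488 (leaf3 218 625) (cutRow P3488) [] t11 s11 = true := by
  decide +kernel

theorem bad11 : Bad P3488 s11 :=
  run_sound (leaf3_sound P3488 rfl rfl) (cutRow_sound P3488) (
    fun _ h => absurd h List.not_mem_nil) t11 s11 run11

end Pool.Agent.WN.Data
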