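import Pool.Agent.WN.CutRow
import Pool.Agent.WN.LeafRow
import Pool.Agent.Helper99.WN.ParDef
import Pool.Agent.WN.Data.D9

/-!
# The search tree, part 14
-/

set_option autoImplicit false

namespace Pool.Agent.WN.Data

open Pool.Agent.W3 Pool.Agent.WN Pool.Agent.Helper99.WN

/-- the state above piece 64 of the tree -/
def s64 : St := ⟨[0, 0, 1, 1, 2, 5], [7, 3, 1, 0], [0, 1, 2, 4],
  [],
  [⟨true, 1, 9, 7, 50⟩, ⟨true, 2, 11, 3, 50⟩, ⟨true, 2, 9, 9, 50⟩, ⟨false, 3, 3, 1, 5⟩, ⟨true, 2, 3, 1, 4⟩, ⟨true, 1, 9, 3, 10⟩, ⟨true, 2, 9, 3, 10⟩, ⟨true, 2, 9, 17, 50⟩],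
  [.spn 0 0 651200, .spn 1 1 140426, .spn 3 2 140426, .spn 7 4 140426]⟩

/-- piece 64 of the tree -/
noncomputable def t64 : WN.Tree :=
(.haz 3 37 2 25
(.haz 2 9 19 50
(.haz 1 9 17 50
(.haz 4 11 11 50
(.haz 3 39 1 10
(.ask 18
(.mark 23 [3, 5, 6]
(.spn
(.haz 5 23 17 50
(.lp [[3], [0, 2, 5], [1, 4, 6]] [(.mj 0 1, 1271), (.mj 1 2, 272), (.mj 2 4, 2162), (.mj 3 5, 2639), (.mj 4 3, 2639), (.rw 3, 1), (.hz 3 1, 56480), (.hz 10 9, 3402), (.hz 8 37, 85060), (.hz 13 23, 85754), (.hz 10 45, 28081), (.hz 13 31, 103848), (.hz 13 87, 329823)])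
(.lp [[3], [0, 2, 5], [1, 4, 6]] [(.mj 0 1, 22), (.mj 1 2, 1), (.mj 4 3, 9), (.hz 13 5, 184), (.hz 10 9, 86), (.hz 13 7, 241), (.hz 10 13, 190), (.hz 8 37, 230), (.hz 13 23, 252), (.hz 12 39, 2299)]))
(.haz 3 7 7 50
(.lp [[3], [0, 2, 5], [1, 4, 6]] [(.mj 0 1, 57), (.mj 1 2, 16), (.mj 4 5, 23), (.mj 5 3, 26), (.hz 10 9, 434), (.hz 9 9, 178), (.hz 13 7, 306), (.hz 11 11, 690), (.hz 8 37, 1164), (.hz 13 23, 1365), (.hz 13 39, 2966), (.hz 13 87, 4555)])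
(.ask 9
(.mark 31 [5, 6, 7]
(.lp [[3, 7], [0, 2, 5], [1, 4, 6]] [(.mj 0 1, 100), (.mj 1 2, 26), (.mj 4 5, 35), (.hz 13 1, 821), (.hz 13 3, 794), (.hz 8 37, 1416), (.hz 12 39, 14013), (.hz 11 139, 273)]))
(.lp [[3], [0, 2, 5], [1, 4, 6]] [(.mj 0 1, 84), (.mj 1 2, 24), (.mj 4 5, 27), (.mj 5 3, 4), (.hz 13 3, 741), (.hz 13 5, 608), (.hz 13 7, 612), (.hz 8 37, 1363), (.hz 12 39, 16617)])))
(.lp [[3], [0, 2, 5], [1, 4, 6]] [(.mj 0 1, 6826), (.mj 1 2, 2550), (.mj 6 3, 1452), (.mj 6 5, 798), (.rw 3, 1), (.hz 10 9, 40704), (.hz 9 9, 44875), (.hz 11 11, 77985), (.hz 10 13, 35327), (.hz 8 37, 179793), (.hz 11 15, 49066), (.hz 10 45, 152367)])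
.fin))
(.haz 4 39 7 25
(.ask 19
(.mark 23 [3, 5, 6]
(.spn
(.haz 5 23 8 25
(.lp [[3], [0, 2, 5], [1, 4, 6]] [(.mj 0 1, 2047), (.mj 1 2, 60), (.mj 2 4, 7078), (.mj 3 5, 7741), (.mj 4 3, 8029), (.rw 3, 1), (.rw 4, 1), (.hz 10 9, 15233), (.hz 10 13, 10806), (.hz 8 37, 200721), (.hz 14 23, 603773), (.hz 14 31, 802886), (.hz 14 87, 1741654)])
(.lp [[3], [0, 2, 5], [1, 4, 6]] [(.mj 0 1, 45), (.mj 1 2, 7), (.mj 4 3, 14), (.hz 14 5, 564), (.hz 10 9, 335), (.hz 14 7, 715), (.hz 10 13, 102), (.hz 8 37, 353), (.hz 14 23, 510), (.hz 12 39, 3532)]))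
(.haz 3 5 4 25
(.lp [[3], [0, 2, 5], [1, 4, 6]] [(.mj 0 1, 17), (.mj 1 2, 2), (.mj 4 5, 7), (.mj 5 3, 9), (.hz 10 9, 130), (.hz 14 7, 256), (.hz 14 37, 615), (.hz 14 23, 1748), (.hz 14 39, 826), (.hz 4 83, 1933), (.hz 10 45, 394), (.hz 14 87, 3340)])
(.haz 3 23 3 25
(.ask 37
(.mark 55 [3, 6, 7]
(.spn
(.lp [[3], [1, 4, 6], [0, 2, 5, 7]] [(.mj 0 1, 2243), (.mj 3 6, 139), (.mj 4 5, 1334), (.mj 5 3, 1180), (.rw 5, 1), (.hz 14 5, 4912), (.hz 10 9, 16690), (.hz 10 13, 10622), (.hz 8 165, 103797), (.hz 15 87, 628240), (.hz 10 173, 66786), (.hz 15 183, 240425)])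
(.lp [[3], [1, 4, 6], [0, 2, 5, 7]] [(.mj 0 1, 14), (.mj 4 5, 6), (.mj 5 6, 1), (.mj 6 3, 8), (.hz 10 9, 103), (.hz 10 13, 73), (.hz 8 37, 409), (.hz 15 23, 1263), (.hz 12 39, 1790), (.hz 8 165, 936), (.hz 15 55, 3150), (.hz 15 87, 1381), (.hz 10 173, 1092)])
(.lp [[3], [1, 4, 6], [0, 2, 5, 7]] [(.mj 0 1, 7816), (.mj 1 2, 599), (.mj 4 5, 4252), (.mj 7 3, 4062), (.mj 7 6, 861), (.rw 3, 1), (.rw 4, 1), (.hz 10 9, 73878), (.hz 11 11, 120052), (.hz 10 13, 29835), (.hz 8 37, 308308), (.hz 15 23, 266811), (.hz 12 39, 3679716), (.hz 8 165, 73180), (.hz 15 55, 800348), (.hz 15 87, 1778315), (.hz 10 173, 107618)])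
.fin))
(.lp [[3], [0, 2, 5], [1, 4, 6]] [(.mj 0 1, 88), (.mj 4 5, 36), (.mj 5 3, 27), (.hz 14 1, 425), (.hz 14 5, 850), (.hz 10 9, 425), (.hz 15 23, 5488), (.hz 15 55, 8263), (.hz 15 87, 5077)]))
(.lp [[3], [0, 2, 5], [1, 4, 6]] [(.mj 0 1, 104), (.mj 1 2, 32), (.mj 4 5, 25), (.hz 15 1, 1605), (.hz 15 3, 469), (.hz 15 7, 1445), (.hz 8 37, 2210), (.hz 12 39, 7270), (.hz 10 45, 1410)])))
(.lp [[3], [0, 2, 5], [1, 4, 6]] [(.mj 0 1, 16), (.mj 1 2, 2), (.mj 2 4, 11), (.mj 6 3, 10), (.mj 6 5, 8), (.hz 10 9, 249), (.hz 11 11, 997), (.hz 10 13, 91), (.hz 8 37, 2107), (.hz 11 15, 542), (.hz 13 39, 767), (.hz 10 45, 2163), (.hz 13 47, 6361)])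
.fin))
(.haz 4 39 19 50
(.ask 23
(.mark 23 [3, 5, 6]
(.spn
(.haz 5 23 7 25
(.lp [[3], [0, 2, 5], [1, 4, 6]] [(.mj 0 1, 35), (.mj 2 4, 7), (.mj 3 5, 37), (.mj 4 3, 35), (.hz 10 9, 193), (.hz 10 13, 193), (.hz 8 37, 872), (.hz 15 23, 4692), (.hz 15 31, 4465), (.hz 15 87, 5597)])
(.haz 3 37 4 25
(.lp [[3], [0, 2, 5], [1, 4, 6]] [(.mj 0 1, 72224), (.mj 1 2, 8388), (.mj 4 3, 20117), (.rw 4, 4), (.hz 15 5, 803024), (.hz 10 9, 537380), (.hz 15 7, 684309), (.hz 10 13, 251291), (.hz 16 37, 502920), (.hz 16 39, 2011680)])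
(.lp [[3], [0, 2, 5], [1, 4, 6]] [(.mj 0 1, 9778), (.mj 4 3, 1194), (.rw 4, 1), (.hz 16 1, 77765), (.hz 16 5, 152599), (.hz 15 5, 180064), (.hz 15 7, 178975), (.hz 8 37, 29853), (.hz 12 39, 298535)])))
(.haz 3 23 1 10
(.haz 3 5 7 50
(.lp [[3], [0, 2, 5], [1, 4, 6]] [(.mj 0 1, 23), (.mj 1 2, 7), (.mj 4 5, 10), (.mj 5 3, 22), (.hz 16 5, 204), (.hz 16 7, 791), (.hz 16 37, 238), (.hz 16 23, 2230), (.hz 16 39, 1177), (.hz 16 87, 1610)])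
(.ask 37
(.mark 55 [3, 6, 7]
(.spn
(.lp [[3], [1, 4, 6], [0, 2, 5, 7]] [(.mj 0 1, 1895), (.mj 3 6, 120), (.mj 4 5, 989), (.mj 5 3, 872), (.rw 5, 1), (.hz 16 5, 5574), (.hz 10 9, 14099), (.hz 8 165, 102575), (.hz 15 87, 742002), (.hz 12 167, 308723), (.hz 10 173, 90176)])
(.lp [[3], [1, 4, 6], [0, 2, 5, 7]] [(.mj 0 1, 48), (.mj 1 2, 5), (.mj 4 5, 14), (.mj 5 6, 4), (.mj 6 3, 24), (.hz 10 9, 357), (.hz 8 37, 1035), (.hz 15 23, 12580), (.hz 12 39, 9643), (.hz 8 165, 3420), (.hz 12 55, 19750), (.hz 15 87, 4938), (.hz 10 173, 4158), (.hz 14 175, 4447)])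
(.lp [[3], [1, 4, 6], [0, 2, 5, 7]] [(.mj 0 1, 15), (.mj 4 5, 15), (.mj 7 3, 16), (.mj 7 6, 7), (.hz 10 9, 112), (.hz 10 13, 79), (.hz 8 37, 1153), (.hz 15 23, 3348), (.hz 12 39, 13021), (.hz 12 55, 8398), (.hz 15 87, 14514), (.hz 12 167, 1661)])
.fin))
(.lp [[3], [0, 2, 5], [1, 4, 6]] [(.mj 0 1, 76), (.mj 4 5, 19), (.mj 5 3, 5), (.hz 16 1, 437), (.hz 16 5, 508), (.hz 11 11, 1080), (.hz 15 23, 1858), (.hz 12 39, 9936)])))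
(.lp [[3], [0, 2, 5], [1, 4, 6]] [(.mj 0 1, 134), (.mj 1 2, 67), (.mj 4 5, 10), (.hz 15 1, 4733), (.hz 15 3, 920), (.hz 9 9, 196), (.hz 11 11, 466), (.hz 8 37, 1423), (.hz 12 39, 4907)]))
(.ask 9
(.mark 11 [2, 4, 7]
(.cut 3 [(0, 1), (1, 1), (2, 1), (3, 1), (5, 1), (18, 1), (7, 1), (19, 1), (37, 2), (23, 1), (39, 2), (55, 2)]
(.lp [[3, 7], [0, 2, 5], [1, 4, 6]] [(.mj 0 1, 44458), (.mj 1 2, 24395), (.mj 6 3, 5783), (.mj 6 5, 324), (.rw 4, 1), (.hz 9 9, 215711), (.hz 9 137, 407159), (.hz 14 39, 142493), (.hz 11 139, 328995), (.hz 10 45, 227012), (.hz 10 141, 292576), (.hz 14 47, 803860), (.hz 11 143, 961910), (.rw 5, 8)])))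
(.lp [[3], [0, 2, 5], [1, 4, 6]] [(.mj 0 1, 92), (.mj 1 2, 41), (.mj 6 3, 13), (.mj 6 5, 5), (.hz 9 11, 427), (.hz 11 11, 810), (.hz 8 37, 2148), (.hz 11 15, 984), (.hz 14 39, 361), (.hz 10 45, 2218), (.hz 14 47, 2843)]))
.fin))
(.spn
(.lp [[3], [1, 4], [0, 2, 5]] [(.mj 0 1, 1), (.mj 3 5, 2), (.mj 4 3, 2), (.hz 3 3, 946), (.hz 14 39, 9)])
(.lp [[3], [1, 4], [0, 2, 5]] [(.mj 4 5, 197), (.mj 5 3, 106), (.hz 12 39, 168222)])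
.fin
.fin))
(.lp [[3], [1, 4], [0, 2, 5]] [(.mj 0 1, 697), (.mj 4 3, 710), (.mj 4 5, 628), (.hz 14 7, 43729), (.hz 9 11, 1294), (.hz 8 37, 25727), (.hz 12 39, 549733)])))
(.lp [[3], [1, 4], [0, 2, 5]] [(.mj 0 1, 1111), (.mj 4 3, 740), (.mj 4 5, 802), (.rw 3, 1), (.hz 13 7, 226319), (.hz 11 11, 17800), (.hz 12 39, 736447)])))
(.lp [[3], [1, 4], [0, 2, 5]] [(.mj 0 1, 98), (.mj 1 2, 45), (.mj 4 5, 9), (.hz 12 1, 3704), (.hz 12 3, 536), (.hz 11 11, 373), (.hz 8 37, 1668), (.hz 8 39, 541), (.hz 10 45, 666)]))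
(.lp [[3], [1, 4], [0, 2, 5]] [(.mj 0 1, 13), (.mj 4 3, 13), (.mj 4 5, 10), (.hz 3 3, 68), (.hz 11 3, 818), (.hz 9 9, 7), (.hz 8 37, 812), (.hz 8 39, 3174)]))
(.lp [[3], [1, 4], [0, 2, 5]] [(.mj 1 2, 14), (.hz 10 0, 93), (.hz 10 1, 174), (.hz 3 1, 1081), (.hz 9 9, 174)]))
(.lp [[3], [1, 4], [0, 2, 5]] [(.mj 0 1, 87), (.mj 4 3, 13), (.hz 9 1, 1223), (.hz 3 1, 7858), (.hz 7 9, 326), (.hz 7 11, 243), (.hz 8 37, 709), (.hz 8 39, 1299)]))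
(.cut 3 [(0, 1), (1, 1), (2, 1), (3, 1), (5, 1), (18, 1), (7, 1)]
(.lp [[3], [1, 4], [0, 2, 5]] [(.mj 0 1, 37421), (.mj 1 2, 19714), (.mj 4 5, 3286), (.hz 8 1, 627577), (.hz 7 9, 164287), (.rw 4, 1)])))

theorem run64 : run P3488 (leaf3 218 625) (cutRow P3488) [] t64 s64 = true := by
  decide +kernel

theorem bad64 : Bad P3488 s64 :=
  run_sound (leaf3_sound P3488 rfl rfl) (cutRow_sound P3488) (
    fun _ h => absurd h List.not_mem_nil) t64 s64 run64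

/-- the state above piece 4 of the tree -/
def s4 : St := ⟨[0, 0, 1, 1, 2, 9, 7, 71], [79, 15, 7, 5, 3, 1, 0], [0, 1, 2, 3, 6, 7],
  [(3, 4)],
  [⟨true, 1, 9, 7, 50⟩, ⟨true, 2, 11, 3, 50⟩, ⟨true, 2, 9, 9, 50⟩, ⟨true, 3, 3, 1, 5⟩, ⟨true, 2, 41, 6, 25⟩, ⟨true, 2, 43, 2, 5⟩, ⟨true, 6, 23, 7, 25⟩, ⟨true, 1, 41, 3, 10⟩, ⟨true, 6, 63, 19, 50⟩],
  [.spn 0 0 651200, .spn 1 1 140426, .spn 3 2 140426, .spn 7 3 62723, .spn 15 6 140426, .spn 79 7 140426]⟩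

/-- piece 4 of the tree -/
noncomputable def t4 : WN.Tree :=
(.haz 6 23 2 5
(.haz 4 111 1 25
(.haz 7 111 21 50
(.ask 199
(.mark 207 [4, 5, 8]
(.spn
(.haz 5 79 4 25
(.lp [[1, 4], [3, 5], [0, 2, 6, 7, 8]] [(.mj 3 6, 1142), (.mj 4 5, 1575), (.mj 4 8, 433), (.mj 7 4, 1575), (.rw 6, 1), (.hz 12 79, 101966), (.hz 12 95, 2536507), (.hz 12 207, 223353), (.hz 12 463, 1102199)])
(.haz 8 239 19 50
(.lp [[1, 4], [3, 5], [0, 2, 6, 7, 8]] [(.mj 2 3, 7), (.mj 3 6, 17), (.mj 4 8, 17), (.mj 7 4, 22), (.hz 12 9, 462), (.hz 12 11, 1473), (.hz 12 13, 1216), (.hz 12 15, 5200), (.hz 12 79, 5695), (.hz 10 111, 29762), (.hz 13 239, 8605)])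
(.lp [[1, 4], [3, 5], [0, 2, 6, 7, 8]] [(.mj 3 6, 8), (.mj 4 5, 10), (.mj 7 4, 11), (.hz 12 9, 6), (.hz 12 11, 21), (.hz 12 13, 17), (.hz 12 15, 73), (.hz 13 199, 132), (.hz 13 207, 2051)])))
(.haz 4 71 2 25
(.lp [[1, 4], [3, 5], [0, 2, 6, 7, 8]] [(.mj 7 5, 17419), (.rw 6, 28), (.hz 12 111, 52540650)])
(.haz 5 15 11 50
(.cut 4 [(0, 1), (1, 1), (2, 1), (3, 1), (5, 1), (9, 1), (7, 1), (11, 1), (13, 1), (41, 1), (15, 1), (45, 1), (71, 1), (79, 1)]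
(.lp [[1, 4], [3, 5], [0, 2, 6, 7, 8]] [(.mj 2 3, 7212), (.mj 3 6, 14695), (.mj 7 5, 29284), (.rw 6, 16), (.hz 12 2, 359758), (.hz 12 3, 750800), (.hz 12 7, 254131), (.hz 13 15, 4828765), (.hz 3 23, 14796730), (.hz 9 23, 3201346), (.hz 13 31, 6725786), (.hz 13 95, 9478470), (.hz 10 111, 19145789), (.rw 7, 13)]))
(.cut 4 [(0, 1), (1, 1), (2, 1), (3, 1), (5, 1), (9, 1), (7, 1), (11, 1), (13, 1), (41, 1), (15, 1), (45, 1), (71, 1), (79, 1), (199, 1), (207, 1)]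
(.lp [[1, 4], [3, 5], [0, 2, 6, 7, 8]] [(.mj 2 3, 249595), (.mj 3 6, 120954), (.mj 5 8, 58427), (.mj 7 5, 87061), (.rw 6, 47), (.hz 12 2, 4116213), (.hz 12 3, 8590357), (.hz 12 7, 13453558), (.hz 13 13, 7364187), (.hz 7 41, 21867702), (.rw 7, 181)]))))
(.haz 4 7 1 10
(.lp [[1, 4], [3, 5], [0, 2, 6, 7, 8]] [(.mj 1 2, 4), (.mj 2 3, 23), (.mj 3 6, 14), (.mj 8 4, 23), (.hz 12 7, 308), (.hz 12 15, 16745), (.hz 12 71, 9259), (.hz 7 45, 1963), (.hz 12 47, 51085), (.hz 12 79, 13477), (.hz 12 199, 4343), (.hz 9 63, 77833), (.hz 11 111, 1024), (.hz 12 207, 19800), (.hz 12 455, 90), (.hz 11 127, 941), (.hz 12 239, 52123)])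
(.haz 6 23 1 2
(.haz 4 7 2 25
(.lp [[1, 4], [3, 5], [0, 2, 6, 7, 8]] [(.mj 1 2, 1), (.mj 2 3, 78), (.mj 3 6, 95), (.mj 8 5, 12), (.hz 12 2, 4539), (.hz 12 3, 9582), (.hz 13 23, 136108), (.hz 14 71, 590), (.hz 14 47, 23719), (.hz 14 199, 4154), (.hz 13 63, 188599), (.hz 11 111, 1425), (.hz 14 455, 4945), (.hz 11 127, 3451), (.hz 14 239, 13210)])
(.cut 4 [(0, 1), (1, 1), (2, 1), (3, 1), (5, 1), (9, 1), (7, 1), (11, 1), (13, 1), (41, 1), (15, 1), (45, 1), (71, 1), (79, 1)]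
(.cut 4 [(0, 1), (1, 1), (2, 1), (3, 1), (5, 1), (9, 1), (7, 1), (11, 1), (13, 1), (41, 1), (15, 1), (45, 1), (71, 1), (79, 1), (199, 1), (207, 1)]
(.lp [[1, 4], [3, 5], [0, 2, 6, 7, 8]] [(.mj 1 2, 25565), (.mj 2 3, 60492), (.mj 3 6, 65000), (.mj 8 5, 6597), (.hz 14 2, 1461998), (.hz 14 3, 2646258), (.hz 3 19, 9311960), (.hz 7 41, 1687656), (.hz 13 23, 94525461), (.hz 13 31, 13674843), (.hz 13 63, 8937193), (.hz 11 111, 579263), (.rw 7, 6), (.rw 8, 7)]))))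
(.lp [[1, 4], [3, 5], [0, 2, 6, 7, 8]] [(.mj 2 3, 7), (.mj 8 5, 1), (.hz 12 2, 208), (.hz 12 3, 439), (.hz 12 7, 2174), (.hz 13 7, 13300), (.hz 11 111, 29)])))
.fin))
(.ask 207
(.mark 207 [4, 5, 8]
(.spn
(.haz 5 463 2 25
(.haz 5 463 3 25
(.haz 4 15 1 10
(.lp [[1, 4], [3, 5], [0, 2, 6, 7, 8]] [(.mj 2 3, 11), (.mj 3 6, 5), (.mj 4 5, 11), (.mj 4 8, 10), (.mj 7 4, 20), (.hz 7 41, 551), (.hz 7 45, 626), (.hz 14 47, 34367), (.hz 14 111, 47463), (.hz 13 463, 13539)])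
(.lp [[1, 4], [3, 5], [0, 2, 6, 7, 8]] [(.mj 2 3, 2), (.mj 3 6, 3), (.mj 4 5, 3), (.mj 4 8, 2), (.hz 14 2, 256), (.hz 14 3, 540), (.hz 14 7, 2823), (.hz 10 111, 315), (.hz 13 463, 3002)]))
(.lp [[1, 4], [3, 5], [0, 2, 6, 7, 8]] [(.mj 2 3, 2), (.mj 3 6, 8), (.mj 4 8, 8), (.mj 7 4, 10), (.hz 13 9, 226), (.hz 13 11, 707), (.hz 13 13, 549), (.hz 13 15, 2307), (.hz 13 79, 2823), (.hz 13 207, 3410), (.hz 12 463, 7931)]))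
(.lp [[1, 4], [3, 5], [0, 2, 6, 7, 8]] [(.mj 3 6, 3), (.mj 4 8, 4), (.mj 7 4, 5), (.hz 12 9, 391), (.hz 12 11, 119), (.hz 12 15, 1030), (.hz 12 79, 1238), (.hz 12 207, 1463)]))
(.haz 4 15 2 25
(.lp [[1, 4], [3, 5], [0, 2, 6, 7, 8]] [(.mj 7 5, 2480), (.rw 6, 4), (.hz 12 47, 3032292), (.hz 12 111, 4711039)])
(.cut 4 [(0, 1), (1, 1), (2, 1), (3, 1), (5, 1), (9, 1), (7, 1), (11, 1), (13, 1), (41, 1), (15, 1), (45, 1), (71, 1), (79, 1), (199, 1), (207, 1)]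
(.lp [[1, 4], [3, 5], [0, 2, 6, 7, 8]] [(.mj 1 2, 7444), (.mj 2 3, 22331), (.mj 3 6, 6007), (.mj 5 8, 2429), (.mj 7 5, 1880), (.rw 6, 3), (.hz 12 2, 346766), (.hz 12 3, 378811), (.hz 12 7, 901118), (.hz 3 19, 7932111), (.rw 7, 7)])))
(.haz 4 7 1 10
(.lp [[1, 4], [3, 5], [0, 2, 6, 7, 8]] [(.mj 1 2, 9), (.mj 2 3, 39), (.mj 3 6, 23), (.mj 8 4, 39), (.hz 12 7, 648), (.hz 12 15, 28933), (.hz 12 71, 15259), (.hz 7 45, 2240), (.hz 12 47, 72209), (.hz 12 79, 23260), (.hz 12 199, 7262), (.hz 9 63, 58239), (.hz 12 111, 33863), (.hz 12 207, 33914)])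
(.ask 463
(.mark 463 [4, 5, 9]
(.spn
(.lp [[1, 4], [3, 5], [0, 2, 6, 7, 8, 9]] [(.mj 8 4, 146), (.rw 7, 1)])
(.lp [[1, 4], [3, 5], [0, 2, 6, 7, 8, 9]] [(.mj 8 5, 578), (.rw 7, 1)])
(.maj 4 5
(.cut 4 [(0, 1), (1, 1), (2, 1), (3, 1), (5, 1), (9, 1), (7, 1), (11, 1), (13, 1), (15, 1), (71, 1), (79, 1)]
(.cut 4 [(0, 1), (1, 1), (2, 1), (3, 1), (5, 1), (9, 1), (7, 1), (11, 1), (13, 1), (15, 1), (71, 1), (79, 1), (199, 1), (207, 1)]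
(.cut 5 [(0, 1), (1, 1), (2, 1), (3, 1), (5, 1), (9, 1), (18, 1), (7, 1), (11, 1), (13, 1), (19, 1), (15, 1), (23, 1), (71, 1), (87, 1), (199, 1), (215, 1)]
(.lp [[1, 4], [3, 5], [0, 2, 6, 7, 8, 9]] [(.mj 3 6, 19319), (.mj 9 4, 8698), (.rw 7, 5), (.hz 11 111, 1122739), (.rw 8, 48), (.rw 9, 14), (.rw 10, 5)]))))
(.haz 4 71 3 50
(.cut 5 [(0, 1), (1, 1), (2, 1), (3, 1), (5, 1), (9, 1), (7, 1), (11, 1), (13, 1), (15, 1), (71, 1), (79, 1), (199, 1), (207, 1)]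
(.lp [[1, 4], [3, 5], [0, 2, 6, 7, 8, 9]] [(.mj 3 6, 18449), (.rw 7, 7), (.hz 13 71, 2208052), (.hz 13 79, 876957), (.hz 13 199, 876957), (.hz 13 111, 932933), (.hz 13 207, 1865865), (.hz 13 239, 2977445), (.hz 13 463, 1984963), (.rw 8, 18)]))
(.haz 5 15 3 25
(.lp [[1, 4], [3, 5], [0, 2, 6, 7, 8, 9]] [(.mj 3 6, 2), (.mj 9 5, 8), (.hz 13 2, 47), (.hz 13 3, 256), (.hz 14 15, 1531), (.hz 14 31, 5187), (.hz 14 79, 1669), (.hz 14 95, 2980), (.hz 10 111, 4409), (.hz 14 207, 2565), (.hz 14 223, 3177), (.hz 10 239, 9013), (.hz 14 463, 3177), (.hz 10 495, 14776)])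
(.cut 4 [(0, 1), (1, 1), (2, 1), (3, 1), (5, 1), (9, 1), (7, 1), (11, 1), (13, 1), (41, 1), (15, 1), (45, 1), (71, 1), (79, 1)]
(.cut 4 [(0, 1), (1, 1), (2, 1), (3, 1), (5, 1), (9, 1), (7, 1), (11, 1), (13, 1), (41, 1), (15, 1), (43, 1), (45, 1), (71, 1), (47, 1), (79, 1), (199, 1), (111, 1), (207, 1)]
(.cut 5 [(0, 1), (1, 1), (2, 1), (3, 1), (5, 1), (9, 1), (7, 1), (11, 1), (13, 1), (15, 1), (71, 1), (79, 1), (199, 1), (207, 1)]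
(.lp [[1, 4], [3, 5], [0, 2, 6, 7, 8, 9]] [(.mj 2 3, 4623), (.mj 3 6, 37752), (.mj 9 5, 9617), (.hz 13 2, 171784), (.hz 13 3, 1719871), (.hz 14 9, 1369796), (.hz 14 13, 3057716), (.hz 9 63, 45897153), (.hz 10 239, 20034947), (.hz 10 495, 19233549), (.rw 8, 27), (.rw 9, 4), (.rw 10, 23)])))))))
.fin))
(.lp [[1, 4], [3, 5], [0, 2, 6, 7, 8]] [(.mj 8 5, 1), (.rw 6, 1)])))
.fin))
(.lp [[1, 4], [3, 5], [0, 2, 6, 7]] [(.mj 7 4, 1), (.mj 7 5, 1), (.hz 10 111, 2122)])))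
(.lp [[1, 4], [3, 5], [0, 2, 6, 7]] [(.mj 2 3, 7), (.mj 3 6, 2), (.mj 7 4, 12), (.mj 7 5, 12), (.hz 11 71, 638), (.hz 11 79, 2587)]))
(.cut 4 [(0, 1), (1, 1), (2, 1), (3, 1), (5, 1), (9, 1), (7, 1), (11, 1), (13, 1), (41, 1), (15, 1), (45, 1), (71, 1), (79, 1)]
(.lp [[1, 4], [3, 5], [0, 2, 6, 7]] [(.mj 1 2, 1865), (.mj 2 3, 3455), (.mj 3 6, 2830), (.hz 10 2, 71469), (.hz 10 3, 145915), (.hz 10 7, 64565), (.hz 7 41, 222791), (.hz 9 23, 1324076), (.hz 10 47, 97421), (.hz 10 111, 109629), (.rw 6, 1)])))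
(.lp [[1, 4], [3, 5], [0, 2, 6, 7]] [(.mj 0 1, 1), (.mj 2 3, 9), (.mj 7 4, 6), (.mj 7 5, 2), (.hz 9 7, 7842), (.hz 3 19, 8497), (.hz 3 23, 968), (.hz 6 23, 1117), (.hz 3 87, 5461)]))

theorem run4 : run P3488 (leaf3 218 625) (cutRow P3488) [] t4 s4 = true := by
  decide +kernel

theorem bad4 : Bad P3488 s4 :=
  run_sound (leaf3_sound P3488 rfl rfl) (cutRow_sound P3488) (
    fun _ h => absurd h List.not_mem_nil) t4 s4 run4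

/-- the state above piece 62 of the tree -/
def s62 : St := ⟨[0, 0, 1, 1, 5], [3, 2, 1, 0], [0, 1, 2],
  [],
  [⟨true, 1, 9, 7, 50⟩, ⟨true, 2, 11, 3, 50⟩, ⟨true, 2, 9, 9, 50⟩, ⟨true, 3, 3, 1, 5⟩, ⟨true, 1, 5, 13, 50⟩, ⟨true, 2, 11, 3, 5⟩, ⟨true, 2, 9, 8, 25⟩, ⟨true, 2, 9, 17, 50⟩],
  [.spn 0 0 651200, .spn 1 1 140426, .spn 3 2 302400]⟩

/-- piece 62 of the tree -/
noncomputable def t62 : WN.Tree :=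
(.mark 5 [1, 3, 4]
(.ask 7
(.mark 7 [3, 4, 5]
(.spn
(.haz 5 23 3 10
(.ask 9
(.mark 15 [4, 5, 6]
(.lp [[1, 5], [3, 6], [0, 2, 4]] [(.mj 1 2, 14), (.mj 2 3, 3), (.mj 3 5, 2), (.hz 7 73, 146), (.hz 5 75, 2479)]))
(.ask 13
(.mark 15 [4, 5, 6]
(.lp [[1, 5], [3, 6], [0, 2, 4]] [(.mj 1 2, 6), (.mj 3 5, 1)]))
(.ask 11
(.mark 15 [4, 5, 6]
(.spn
(.lp [[1, 5], [3, 6], [0, 2, 4]] [(.mj 1 2, 14), (.mj 2 3, 1), (.mj 4 5, 2), (.mj 4 6, 2), (.hz 5 11, 2344)])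
(.ask 39
(.mark 47 [4, 6, 7]
(.spn
(.ask 75
(.mark 79 [4, 5, 8]
(.lp [[2, 4], [1, 5, 7], [0, 3, 6, 8]] [(.mj 1 2, 350), (.mj 2 3, 34), (.mj 3 5, 25), (.mj 4 6, 60), (.mj 4 7, 32), (.hz 5 11, 5428), (.hz 5 75, 113662), (.hz 3 167, 2665)]))
(.lp [[3, 6], [0, 2, 4], [1, 5, 7]] [(.mj 1 2, 134), (.mj 3 5, 5), (.mj 4 6, 26), (.mj 4 7, 13), (.hz 3 167, 339)]))
(.ask 75
(.mark 111 [4, 7, 8]
(.spn
(.haz 7 111 7 25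
(.lp [[2, 4], [1, 5, 7], [0, 3, 6, 8]] [(.mj 1 2, 19682), (.mj 2 3, 3687), (.mj 3 5, 1406), (.mj 4 7, 1828), (.mj 5 6, 1724), (.rw 6, 1), (.hz 5 11, 2768567), (.hz 3 167, 86717), (.hz 9 111, 544803), (.hz 9 367, 1645378)])
(.lp [[2, 4], [1, 5, 7], [0, 3, 6, 8]] [(.mj 1 2, 17), (.mj 2 3, 9), (.mj 3 5, 2), (.hz 3 23, 4242), (.hz 9 39, 239), (.hz 9 47, 103), (.hz 5 331, 514)]))
(.ask 167
(.mark 239 [4, 8, 9]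
(.spn
(.lp [[2, 4], [0, 3, 6, 8], [1, 5, 7, 9]] [(.mj 1 2, 38753), (.mj 2 3, 21481), (.mj 3 5, 4483), (.mj 6 7, 3805), (.rw 6, 1), (.rw 7, 3), (.hz 3 23, 10001428), (.hz 5 331, 1184908), (.hz 3 679, 4072040)])
(.ask 331
(.mark 495 [4, 9, 10]
(.cut 4 [(0, 1), (1, 1), (2, 1), (3, 1), (5, 1), (9, 1), (7, 1), (11, 1), (13, 1), (15, 1), (39, 1), (75, 1), (47, 1), (331, 1), (1355, 1)]
(.cut 4 [(0, 1), (1, 1), (2, 1), (3, 1), (5, 1), (9, 1), (7, 1), (11, 1), (13, 1), (15, 1), (39, 1), (75, 1), (47, 1), (79, 1), (167, 1), (331, 1), (111, 1), (175, 1), (1355, 1)]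
(.lp [[2, 4], [1, 5, 7, 9], [0, 3, 6, 8, 10]] [(.mj 1 2, 224408), (.mj 2 3, 122315), (.mj 6 7, 26062), (.mj 8 4, 2578), (.rw 7, 28), (.hz 3 23, 13833477), (.hz 3 55, 80502585), (.hz 3 679, 36469453), (.hz 5 1355, 43174517), (.hz 3 695, 46053766), (.hz 8 1375, 27088642), (.rw 8, 27), (.rw 9, 17)]))))
(.cut 4 [(0, 1), (1, 1), (2, 1), (3, 1), (5, 1), (9, 1), (7, 1), (11, 1), (13, 1), (15, 1), (39, 1), (75, 1), (47, 1), (331, 1)]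
(.cut 4 [(0, 1), (1, 1), (2, 1), (3, 1), (5, 1), (9, 1), (7, 1), (11, 1), (13, 1), (15, 1), (39, 1), (75, 1), (47, 1), (79, 1), (331, 1), (111, 1)]
(.cut 4 [(0, 1), (1, 1), (2, 1), (3, 1), (5, 1), (9, 1), (7, 1), (11, 1), (13, 1), (15, 1), (39, 1), (75, 1), (47, 1), (79, 1), (167, 1), (331, 1), (111, 1), (175, 1), (239, 1)]
(.lp [[2, 4], [0, 3, 6, 8], [1, 5, 7, 9]] [(.mj 1 2, 726206), (.mj 2 3, 320387), (.mj 5 6, 13591), (.mj 6 7, 110514), (.mj 7 4, 36022), (.mj 7 8, 7067), (.rw 6, 18), (.hz 3 23, 14989624), (.hz 3 55, 238181666), (.hz 3 679, 98509768), (.hz 3 695, 41147727), (.rw 8, 89), (.rw 9, 39), (.rw 10, 14)])))))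
(.ask 331
(.mark 495 [4, 9, 10]
(.cut 4 [(0, 1), (1, 1), (2, 1), (3, 1), (5, 1), (9, 1), (7, 1), (11, 1), (13, 1), (15, 1), (39, 1), (75, 1), (47, 1), (79, 1), (167, 1), (331, 1), (111, 1), (175, 1), (335, 1), (1355, 1), (239, 1), (367, 1), (495, 1)]
(.lp [[2, 4], [1, 5, 7, 9], [0, 3, 6, 8, 10]] [(.mj 1 2, 798), (.mj 2 3, 2393), (.mj 3 5, 105), (.mj 6 7, 1197), (.mj 9 4, 770), (.mj 9 8, 314), (.rw 5, 1), (.hz 3 23, 997081), (.hz 3 55, 537899), (.hz 5 1355, 1501142), (.rw 8, 2)])))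
(.cut 4 [(0, 1), (1, 1), (2, 1), (3, 1), (5, 1), (9, 1), (7, 1), (11, 1), (13, 1), (15, 1), (39, 1), (75, 1), (47, 1), (331, 1)]
(.cut 4 [(0, 1), (1, 1), (2, 1), (3, 1), (5, 1), (9, 1), (7, 1), (11, 1), (13, 1), (15, 1), (39, 1), (75, 1), (47, 1), (79, 1), (167, 1), (331, 1), (111, 1), (175, 1)]
(.lp [[2, 4], [0, 3, 6, 8], [1, 5, 7, 9]] [(.mj 1 2, 29380), (.mj 2 3, 11425), (.mj 5 6, 18455), (.mj 6 7, 19540), (.mj 9 4, 14644), (.mj 9 8, 1691), (.hz 3 55, 9181196), (.hz 8 95, 2623885), (.hz 3 695, 6725736), (.rw 8, 21), (.rw 9, 19)]))))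
.fin))
(.lp [[2, 4], [1, 5, 7], [0, 3, 6, 8]] [(.mj 1 2, 58), (.mj 2 3, 34), (.mj 3 5, 7), (.mj 6 4, 1), (.mj 6 7, 3), (.hz 3 23, 15739), (.hz 5 331, 1592)]))
(.ask 167
(.mark 175 [4, 6, 9]
(.cut 4 [(0, 1), (1, 1), (2, 1), (3, 1), (5, 1), (9, 1), (7, 1), (11, 1), (13, 1), (15, 1), (39, 1), (75, 1), (47, 1), (331, 1)]
(.cut 4 [(0, 1), (1, 1), (2, 1), (3, 1), (5, 1), (9, 1), (7, 1), (11, 1), (13, 1), (15, 1), (39, 1), (75, 1), (47, 1), (79, 1), (167, 1), (331, 1), (111, 1), (175, 1)]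
(.lp [[2, 4], [0, 3, 6, 8], [1, 5, 7, 9]] [(.mj 1 2, 24310), (.mj 2 3, 34233), (.mj 3 5, 3002), (.mj 5 6, 7588), (.mj 8 4, 4015), (.mj 8 7, 6806), (.rw 5, 21), (.hz 3 23, 14783709), (.hz 3 55, 5552788), (.hz 3 679, 7824657), (.rw 7, 5), (.rw 8, 7)]))))
(.lp [[2, 4], [1, 5, 7], [0, 3, 6, 8]] [(.mj 1 2, 10589), (.mj 2 3, 6713), (.mj 3 5, 1266), (.mj 8 4, 14), (.mj 8 7, 320), (.rw 5, 1), (.hz 3 23, 3133828), (.hz 3 55, 122027), (.hz 3 183, 1288931)]))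
.fin))
(.cut 4 [(0, 1), (1, 1), (2, 1), (3, 1), (5, 1), (9, 1), (7, 1), (11, 1), (13, 1), (15, 1), (39, 1), (75, 1), (47, 1)]
(.lp [[3, 6], [0, 2, 4], [1, 5, 7]] [(.mj 1 2, 456428), (.mj 2 3, 146709), (.mj 3 5, 32602), (.mj 5 6, 10373), (.mj 6 7, 25078), (.hz 3 167, 34482889), (.hz 3 183, 67479334), (.rw 6, 59)])))
(.haz 6 47 7 25
(.cut 4 [(0, 1), (1, 1), (2, 1), (3, 1), (5, 1), (9, 1), (7, 1), (11, 1), (13, 1), (15, 1), (39, 1), (75, 1), (47, 1)]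
(.lp [[3, 6], [0, 2, 4], [1, 5, 7]] [(.mj 1 2, 9938), (.mj 3 5, 1817), (.mj 7 6, 3476), (.hz 3 23, 400725), (.hz 5 75, 3059479), (.hz 9 47, 1001812), (.hz 9 63, 3632943), (.hz 3 183, 1536900), (.rw 6, 2)]))
(.haz 5 23 11 25
(.ask 75
(.ask 167
(.mark 175 [4, 6, 9]
(.spn
(.mark 111 [4, 7, 8]
(.lp [[2, 4], [0, 3, 6, 8], [1, 5, 7, 9]] [(.mj 1 2, 51), (.mj 2 3, 3), (.mj 3 5, 11), (.mj 4 6, 5), (.mj 4 9, 3), (.hz 9 11, 2527)]))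
(.mark 79 [4, 5, 8]
(.cut 4 [(0, 1), (1, 1), (2, 1), (3, 1), (5, 1), (9, 1), (7, 1), (11, 1), (13, 1), (15, 1), (39, 1), (75, 1), (47, 1), (167, 1), (331, 1), (175, 1)]
(.lp [[2, 4], [0, 3, 6, 8], [1, 5, 7, 9]] [(.mj 1 2, 6603), (.mj 2 3, 1177), (.mj 3 5, 738), (.mj 6 9, 397), (.mj 7 6, 800), (.hz 9 11, 142095), (.hz 5 331, 985409), (.rw 7, 1)])))
(.mark 111 [4, 7, 8]
(.cut 4 [(0, 1), (1, 1), (2, 1), (3, 1), (5, 1), (9, 1), (7, 1), (11, 1), (13, 1), (15, 1), (39, 1), (75, 1), (47, 1), (331, 1)]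
(.lp [[2, 4], [0, 3, 6, 8], [1, 5, 7, 9]] [(.mj 1 2, 11399), (.mj 3 5, 4008), (.mj 9 6, 1302), (.hz 9 11, 631944), (.hz 10 23, 103308), (.hz 10 95, 661846), (.rw 7, 1)])))
.fin))
(.mark 79 [4, 5, 8]
(.cut 4 [(0, 1), (1, 1), (2, 1), (3, 1), (5, 1), (9, 1), (7, 1), (11, 1), (39, 1), (75, 1), (167, 1), (331, 1)]
(.lp [[2, 4], [1, 5, 7], [0, 3, 6, 8]] [(.mj 1 2, 2910640), (.mj 2 3, 1072019), (.mj 3 5, 286657), (.hz 9 11, 16672985), (.hz 5 75, 348853340), (.hz 5 331, 127945631), (.hz 10 95, 86454986), (.hz 3 183, 27546123), (.rw 6, 337)]))))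
(.cut 4 [(0, 1), (1, 1), (2, 1), (3, 1), (5, 1), (9, 1), (7, 1), (11, 1), (13, 1), (15, 1), (39, 1), (75, 1), (47, 1)]
(.lp [[3, 6], [0, 2, 4], [1, 5, 7]] [(.mj 1 2, 6763), (.mj 3 5, 41), (.hz 9 15, 172136), (.hz 3 55, 65493), (.hz 10 95, 70999), (.hz 3 183, 354993), (.rw 6, 1)])))
(.lp [[3, 6], [0, 2, 4], [1, 5, 7]] [(.mj 1 2, 14), (.mj 2 3, 5), (.hz 10 7, 298), (.hz 9 11, 170), (.hz 3 23, 3193)])))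
.fin))
(.lp [[1, 5], [3, 6], [0, 2, 4]] [(.mj 1 2, 5), (.mj 2 3, 2), (.hz 3 23, 1789), (.hz 5 75, 331)]))
(.lp [[1, 5], [3, 6], [0, 2, 4]] [(.mj 1 2, 10), (.mj 2 3, 6), (.mj 6 5, 2), (.hz 5 11, 430), (.hz 3 23, 1975), (.hz 8 23, 485), (.hz 3 39, 1940)])
.fin))
(.lp [[3], [1, 5], [0, 2, 4]] [(.mj 1 2, 14), (.mj 3 5, 1)]))))
(.lp [[3], [1, 5], [0, 2, 4]] [(.mj 1 2, 8), (.mj 2 3, 3), (.hz 7 9, 33), (.hz 8 7, 418), (.hz 5 11, 369), (.hz 3 23, 1700)]))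
(.lp [[3], [1, 5], [0, 2, 4]] [(.mj 1 2, 1), (.mj 4 3, 1), (.hz 3 7, 461), (.hz 3 23, 271), (.hz 3 39, 330)])
(.lp [[3], [1, 5], [0, 2, 4]] [(.mj 1 2, 3), (.mj 5 3, 4), (.hz 3 3, 607), (.hz 3 7, 2226)])
.fin))
(.lp [[1], [3], [0, 2, 4]] [(.mj 1 2, 2), (.mj 2 3, 1), (.hz 7 9, 5), (.hz 5 11, 50), (.hz 3 23, 203)])))

theorem run62 : run P3488 (leaf3 218 625) (cutRow P3488) [] t62 s62 = true := by
  decide +kernel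

theorem bad62 : Bad P3488 s62 :=
  run_sound (leaf3_sound P3488 rfl rfl) (cutRow_sound P3488) (
    fun _ h => absurd h List.not_mem_nil) t62 s62 run62

/-- the state above piece 159 of the tree -/
def s159 : St := ⟨[0, 0, 1, 3, 5, 15, 15, 21, 63], [95, 111, 79, 63, 31, 47, 15, 11, 7, 5, 3, 2, 1, 0], [0, 1, 2, 3, 4, 5, 6],
  [(4, 5)],
  [⟨true, 2, 3, 3, 10⟩, ⟨true, 1, 5, 2, 5⟩, ⟨true, 2, 3, 23, 50⟩, ⟨true, 1, 5, 12, 25⟩, ⟨true, 1, 21, 27, 50⟩, ⟨true, 4, 15, 9, 40⟩, ⟨true, 3, 23, 11, 20⟩, ⟨true, 1, 21, 29, 50⟩, ⟨true, 1, 21, 3, 5⟩, ⟨true, 1, 21, 31, 50⟩, ⟨true, 4, 79, 7, 25⟩, ⟨true, 4, 79, 8, 25⟩, ⟨true, 4, 79, 17, 50⟩, ⟨true, 3, 151, 3, 5⟩, ⟨true, 3, 151, 31, 50⟩, ⟨true, 5, 159, 9, 50⟩, ⟨true, 7, 127, 2, 25⟩, ⟨true, 5, 159, 7, 25⟩, ⟨true, 7, 319, 1, 10⟩, ⟨false, 7, 31, 8, 25⟩, ⟨false, 7, 31,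 7, 25⟩, ⟨false, 7, 23, 13, 50⟩, ⟨true, 6, 319, 4, 25⟩, ⟨true, 1, 149, 17, 25⟩, ⟨true, 3, 151, 18, 25⟩, ⟨true, 7, 127, 7, 50⟩, ⟨true, 5, 159, 9, 25⟩, ⟨true, 5, 159, 2, 5⟩, ⟨false, 7, 31, 6, 25⟩],
  [.spn 0 0 651200, .spn 1 1 302400, .spn 3 2 302400, .spn 7 3 302400, .spn 15 4 140426, .spn 31 5 140426, .spn 63 6 62723]⟩

/-- piece 159 of the tree -/
noncomputable def t159 : WN.Tree :=
(.ask 127
(.mark 127 [7, 8, 9]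
(.spn
(.haz 8 127 19 50
(.lp [[6, 9], [0, 2, 4, 7], [1, 3, 5, 8]] [(.mj 5 6, 3), (.mj 6 7, 4), (.mj 7 8, 4), (.hz 29 127, 1278), (.hz 29 255, 733), (.hz 29 639, 1876)])
(.haz 8 639 2 25
(.haz 8 639 3 20
(.haz 8 639 1 5
(.haz 8 127 7 20
(.lp [[6, 9], [0, 2, 4, 7], [1, 3, 5, 8]] [(.mj 5 6, 38), (.mj 6 7, 46), (.mj 7 8, 46), (.mj 7 9, 1), (.hz 33 127, 34807), (.hz 33 255, 20257), (.hz 33 639, 55844)])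
(.haz 7 319 9 50
(.haz 5 159 23 50
(.haz 6 319 9 25
(.haz 8 639 6 25
(.ask 149
(.mark 255 [8, 9, 10]
(.spn
(.ask 639
(.mark 639 [7, 8, 11]
(.lp [[5, 8], [0, 2, 4, 7, 10], [1, 3, 6, 9, 11]] [(.mj 5 6, 17), (.mj 6 7, 23), (.mj 7 8, 19), (.mj 8 9, 6), (.hz 36 319, 3604), (.hz 37 639, 14781), (.hz 37 2687, 17981)]))
(.lp [[6, 9], [1, 3, 5, 8], [0, 2, 4, 7, 10]] [(.mj 5 6, 17), (.mj 6 7, 18), (.mj 7 8, 7), (.mj 8 9, 5), (.hz 33 63, 6340), (.hz 33 127, 5844)]))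
(.ask 319
(.mark 511 [9, 10, 11]
(.lp [[6, 9], [0, 2, 4, 7, 10], [1, 3, 5, 8, 11]] [(.mj 5 6, 33), (.mj 6 7, 33), (.mj 7 9, 13), (.mj 9 8, 15), (.hz 34 319, 17886), (.hz 37 639, 14800), (.hz 37 767, 15309), (.hz 34 2431, 4393), (.hz 36 2495, 6522)]))
(.lp [[6, 9], [1, 3, 5, 8], [0, 2, 4, 7, 10]] [(.mj 5 6, 34), (.mj 6 7, 5), (.mj 7 9, 10), (.mj 9 8, 14), (.hz 28 21, 563), (.hz 28 23, 2429), (.hz 28 31, 12377), (.hz 34 383, 16244), (.hz 37 639, 12717)]))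
(.lp [[6, 9], [1, 3, 5, 8], [0, 2, 4, 7, 10]] [(.mj 5 6, 3), (.mj 6 7, 4), (.mj 10 8, 3), (.mj 10 9, 2), (.hz 28 21, 17), (.hz 28 23, 377), (.hz 34 319, 1725), (.hz 25 639, 664), (.hz 37 639, 5222)])
.fin))
(.haz 8 255 6 25
(.haz 9 255 8 25
(.maj 8 9
(.ask 639
(.ask 319
(.mark 895 [7, 10, 11]
(.lp [[4, 7], [0, 2, 5, 8, 11], [1, 3, 6, 9, 10]] [(.mj 5 6, 65), (.mj 6 7, 66), (.mj 7 8, 42), (.mj 8 9, 15), (.hz 34 319, 8826), (.hz 38 255, 2942), (.hz 39 255, 24903), (.hz 37 639, 32801), (.hz 36 2367, 2942), (.hz 34 2367, 11410), (.hz 37 1663, 39289)]))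
(.mark 639 [7, 8, 10]
(.lp [[5, 8], [0, 2, 4, 7], [1, 3, 6, 9, 10]] [(.mj 5 6, 41), (.mj 6 7, 37), (.mj 7 8, 21), (.mj 7 9, 4), (.mj 8 9, 2), (.hz 34 319, 4447), (.hz 37 639, 20652), (.hz 37 1663, 19797)])))
(.lp [[6, 9], [0, 2, 4, 7], [1, 3, 5, 8]] [(.mj 5 6, 44), (.mj 6 7, 42), (.mj 7 8, 19), (.mj 8 9, 5), (.hz 33 63, 8058), (.hz 34 319, 7339), (.hz 37 639, 6331)]))
(.lp [[6, 9], [0, 2, 4, 7], [1, 3, 5, 8]] [(.mj 5 6, 100), (.mj 6 7, 122), (.mj 7 9, 54), (.mj 9 8, 73), (.hz 36 319, 854), (.hz 34 319, 46730), (.hz 38 255, 170832), (.hz 37 639, 70260)]))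
(.lp [[6, 9], [0, 2, 4, 7], [1, 3, 5, 8]] [(.mj 5 6, 1866), (.mj 6 7, 1558), (.mj 7 8, 1042), (.hz 39 127, 523486), (.hz 36 319, 228880), (.hz 34 319, 272632), (.hz 37 639, 989955)]))
(.lp [[6, 9], [0, 2, 4, 7], [1, 3, 5, 8]] [(.mj 0 1, 43), (.mj 5 6, 53), (.mj 6 7, 49), (.mj 7 9, 19), (.hz 38 63, 15396), (.hz 38 127, 23795), (.hz 34 319, 8593), (.hz 37 639, 24512)])))
(.lp [[6, 9], [0, 2, 4, 7], [1, 3, 5, 8]] [(.mj 0 1, 128), (.mj 5 6, 412), (.mj 6 7, 373), (.mj 7 9, 155), (.hz 37 63, 119729), (.hz 37 127, 187037), (.hz 34 319, 65218), (.hz 32 639, 1004745)]))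
(.lp [[6, 9], [0, 2, 4, 7], [1, 3, 5, 8]] [(.mj 0 1, 686), (.mj 6 7, 386), (.mj 7 8, 20), (.mj 7 9, 13), (.hz 36 63, 261503), (.hz 33 63, 215347), (.hz 34 319, 67542), (.hz 32 639, 179947)]))
(.lp [[6, 9], [0, 2, 4, 7], [1, 3, 5, 8]] [(.mj 5 6, 12), (.mj 7 9, 2), (.hz 28 21, 161), (.hz 28 23, 696), (.hz 35 31, 2956), (.hz 28 31, 5300), (.hz 33 127, 2941), (.hz 32 639, 12637)]))
(.lp [[6, 9], [0, 2, 4, 7], [1, 3, 5, 8]] [(.mj 5 6, 18), (.mj 7 8, 8), (.mj 7 9, 5), (.hz 34 21, 173), (.hz 34 23, 730), (.hz 34 31, 1756), (.hz 34 63, 4197), (.hz 33 63, 6977), (.hz 32 639, 70994)])))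
(.lp [[6, 9], [0, 2, 4, 7], [1, 3, 5, 8]] [(.mj 0 1, 6), (.mj 5 6, 20), (.mj 6 7, 19), (.mj 7 9, 8), (.hz 32 63, 32216), (.hz 32 127, 45439), (.hz 18 319, 16307), (.hz 31 639, 12897)]))
(.lp [[6, 9], [0, 2, 4, 7], [1, 3, 5, 8]] [(.mj 0 1, 2), (.mj 5 6, 8), (.mj 6 7, 7), (.mj 7 9, 3), (.hz 31 63, 2928), (.hz 31 127, 4079), (.hz 18 319, 6072), (.hz 30 639, 4025)]))
(.lp [[6, 9], [0, 2, 4, 7], [1, 3, 5, 8]] [(.mj 5 6, 4), (.mj 6 7, 4), (.mj 7 9, 2), (.hz 30 63, 1447), (.hz 30 127, 1792)])))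
(.haz 7 63 4 25
(.haz 7 31 9 50
(.lp [[6, 9], [0, 2, 4, 7], [1, 3, 5, 8]] [(.mj 0 1, 21), (.mj 6 8, 1), (.mj 8 7, 6), (.hz 23 149, 144), (.hz 30 31, 441), (.hz 30 63, 892), (.hz 30 95, 892), (.hz 30 127, 2882), (.hz 30 319, 250)])
(.ask 319
(.mark 383 [7, 9, 10]
(.lp [[6, 9], [0, 2, 4, 7], [1, 3, 5, 8, 10]] [(.mj 0 1, 858), (.mj 6 8, 32), (.mj 8 7, 94), (.hz 30 21, 3808), (.hz 24 151, 6796), (.hz 29 63, 22007), (.hz 29 127, 91327), (.hz 29 319, 27034), (.hz 29 639, 100150), (.hz 29 1343, 5642)]))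
(.lp [[6, 9], [0, 2, 4, 7], [1, 3, 5, 8]] [(.mj 0 1, 236), (.mj 8 7, 8), (.hz 30 21, 1180), (.hz 30 23, 1377), (.hz 30 31, 375), (.hz 29 127, 11707)])))
(.lp [[6, 9], [0, 2, 4, 7], [1, 3, 5, 8]] [(.mj 0 1, 145), (.mj 6 8, 2), (.mj 8 7, 1), (.hz 29 21, 1507), (.hz 29 23, 2005), (.hz 29 31, 1301), (.hz 29 63, 463), (.hz 18 319, 3422), (.hz 27 223, 4861)]))
(.lp [[6, 9], [0, 2, 4, 7], [1, 3, 5, 8]] [(.mj 0 1, 185069), (.mj 9 7, 16544), (.rw 7, 1), (.hz 23 149, 1958280), (.hz 24 151, 3691783), (.hz 27 159, 22453807), (.hz 25 127, 10850494), (.hz 22 319, 4504240), (.hz 18 319, 14476222), (.hz 25 383, 10753765)])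
.fin))
(.spn
(.ask 319
(.mark 319 [6, 7, 9]
(.lp [[6], [0, 2, 4, 7], [1, 3, 5, 8, 9]] [(.mj 5 6, 10), (.mj 6 7, 10), (.mj 7 8, 7), (.hz 22 319, 1954), (.hz 18 319, 7116), (.hz 18 831, 7906)]))
(.lp [[6], [0, 2, 4, 7], [1, 3, 5, 8]] [(.mj 5 6, 3), (.mj 6 7, 3), (.mj 7 8, 2)]))
(.haz 7 63 4 25
(.haz 7 31 9 50
(.lp [[6], [0, 2, 4, 7], [1, 3, 5, 8]] [(.mj 0 1, 21), (.mj 6 8, 1), (.mj 8 7, 6), (.hz 23 149, 144), (.hz 30 31, 441), (.hz 30 63, 892), (.hz 30 95, 892), (.hz 30 127, 2882), (.hz 30 319, 250)])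
(.ask 319
(.mark 319 [6, 7, 9]
(.ask 383
(.mark 383 [7, 9, 10]
(.spn
(.ask 149
(.mark 511 [9, 10, 11]
(.spn
(.haz 9 1407 3 10
(.lp [[6, 10], [0, 2, 4, 7, 11], [1, 3, 5, 8, 9]] [(.mj 6 8, 21), (.mj 7 9, 19), (.mj 8 7, 28), (.mj 9 10, 12), (.hz 29 1407, 38500), (.hz 31 1407, 61249)])
(.lp [[6, 10], [0, 2, 4, 7, 11], [1, 3, 5, 8, 9]] [(.mj 6 8, 3), (.mj 8 7, 3), (.mj 9 10, 2), (.hz 31 319, 48), (.hz 31 383, 9459), (.hz 29 1407, 7467)]))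
(.haz 9 383 11 50
(.lp [[6, 10], [0, 2, 4, 7, 11], [1, 3, 5, 8, 9]] [(.mj 0 1, 1024), (.mj 6 8, 17), (.mj 7 10, 62), (.mj 8 7, 179), (.mj 10 9, 50), (.hz 30 21, 4359), (.hz 29 63, 38922), (.hz 24 2199, 6336), (.hz 29 319, 8921), (.hz 29 831, 32522), (.hz 29 895, 234973), (.hz 31 1407, 50893)])
(.lp [[6, 10], [0, 2, 4, 7, 11], [1, 3, 5, 8, 9]] [(.mj 0 1, 795), (.mj 8 7, 41), (.hz 30 21, 6080), (.hz 29 127, 58436), (.hz 29 319, 568), (.hz 31 319, 3078), (.hz 27 2207, 33621)]))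
(.lp [[6, 10], [0, 2, 4, 7, 11], [1, 3, 5, 8, 9]] [(.mj 0 1, 5), (.mj 6 8, 1), (.mj 8 7, 5), (.mj 11 9, 2), (.mj 11 10, 2), (.hz 23 2197, 29), (.hz 29 319, 3717), (.hz 29 895, 5053), (.hz 29 1407, 6031)])
.fin))
(.lp [[6, 10], [0, 2, 4, 7], [1, 3, 5, 8, 9]] [(.mj 0 1, 218), (.mj 6 8, 3), (.mj 8 7, 4), (.hz 30 23, 2367), (.hz 30 31, 788), (.hz 29 127, 3750), (.hz 29 319, 2094)]))
(.lp [[6, 10], [0, 2, 4, 7], [1, 3, 5, 8, 9]] [(.mj 0 1, 23), (.mj 6 8, 1), (.mj 9 7, 3), (.hz 30 21, 102), (.hz 24 151, 182), (.hz 29 63, 590), (.hz 29 127, 2629), (.hz 29 319, 1393), (.hz 29 383, 3737)])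
(.lp [[6, 10], [0, 2, 4, 7], [1, 3, 5, 8, 9]] [(.mj 0 1, 10), (.mj 10 7, 1), (.hz 30 21, 44), (.hz 24 151, 79), (.hz 29 63, 256), (.hz 29 127, 1141), (.hz 29 319, 387), (.hz 29 383, 1509), (.hz 29 831, 406)])
.fin))
(.lp [[6], [0, 2, 4, 7], [1, 3, 5, 8, 9]] [(.mj 6 8, 5), (.mj 8 7, 3), (.hz 29 319, 3047), (.hz 29 831, 3531)])))
(.lp [[6], [0, 2, 4, 7], [1, 3, 5, 8]] [(.mj 0 1, 236), (.mj 8 7, 8), (.hz 30 21, 1180), (.hz 30 23, 1377), (.hz 30 31, 375), (.hz 29 127, 11707)])))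
(.lp [[6], [0, 2, 4, 7], [1, 3, 5, 8]] [(.mj 0 1, 145), (.mj 6 8, 2), (.mj 8 7, 1), (.hz 29 21, 1507), (.hz 29 23, 2005), (.hz 29 31, 1301), (.hz 29 63, 463), (.hz 18 319, 3422), (.hz 27 223, 4861)]))
.fin
.fin))

theorem run159 : run P3488 (leaf3 218 625) (cutRow P3488) [] t159 s159 = true := by
  decide +kernel

theorem bad159 : Bad P3488 s159 :=
  run_sound (leaf3_sound P3488 rfl rfl) (cutRow_sound P3488) (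
    fun _ h => absurd h List.not_mem_nil) t159 s159 run159

/-- the state above piece 77 of the tree -/
def s77 : St := ⟨[0, 0, 1, 1, 5], [9, 5, 1, 0], [0, 2, 3],
  [(4, 1)],
  [⟨true, 1, 21, 1, 40⟩, ⟨true, 1, 21, 1, 20⟩, ⟨true, 3, 21, 1, 4⟩, ⟨true, 0, 2, 5, 8⟩, ⟨true, 0, 2, 3, 4⟩, ⟨true, 3, 3, 9, 40⟩, ⟨true, 0, 2, 33, 40⟩],
  [.spn 0 0 651200, .spn 1 2 424061, .spn 5 3 140426]⟩

/-- piece 77 of the tree -/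
noncomputable def t77 : WN.Tree :=
(.haz 1 29 3 40
(.ask 13
(.mark 13 [1, 4, 5]
(.spn
(.con 1 4)
(.haz 1 45 1 20
(.ask 21
(.mark 29 [1, 5, 6]
(.spn
(.haz 5 93 1 5
(.haz 1 45 3 40
(.maj 5 6
(.haz 5 93 3 10
(.lp [[1], [3, 5], [0, 2, 4, 6]] [(.mj 1 5, 76), (.mj 3 4, 37), (.mj 4 1, 104), (.mj 5 6, 36), (.hz 10 45, 5173), (.hz 1 85, 7835), (.hz 2 85, 1800), (.hz 7 93, 8464), (.hz 11 93, 19090)])
(.lp [[1], [3, 5], [0, 2, 4, 6]] [(.mj 4 1, 6), (.mj 5 6, 4), (.hz 11 13, 447), (.hz 11 29, 1126), (.hz 10 45, 412), (.hz 7 93, 1215)]))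
(.lp [[1], [3, 5], [0, 2, 4, 6]] [(.mj 1 6, 22), (.mj 3 4, 11), (.mj 4 1, 41), (.mj 6 5, 22), (.hz 10 45, 4981), (.hz 1 85, 394), (.hz 7 61, 5180), (.hz 7 93, 304), (.hz 9 93, 14018)]))
(.lp [[1], [3, 5], [0, 2, 4, 6]] [(.mj 1 5, 20), (.mj 1 6, 11), (.mj 3 4, 5), (.hz 10 0, 214), (.hz 10 1, 231), (.hz 10 5, 250), (.hz 10 9, 250), (.hz 10 13, 3534), (.hz 8 45, 5538), (.hz 1 85, 101), (.hz 9 93, 16917)]))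
(.lp [[1], [3, 5], [0, 2, 4, 6]] [(.mj 1 6, 2), (.mj 3 4, 3), (.mj 4 1, 3), (.hz 9 13, 925), (.hz 9 29, 1162), (.hz 7 93, 178)]))
(.haz 3 85 7 20
(.maj 1 6
(.cut 1 [(0, 1), (1, 1), (5, 1), (9, 1), (13, 1), (21, 1), (29, 1)]
(.lp [[1], [3, 5], [0, 2, 4, 6]] [(.mj 2 3, 6297), (.mj 5 1, 4846), (.hz 1 85, 442383), (.hz 9 85, 161697), (.hz 7 93, 1340354), (.rw 5, 14)]))
(.haz 3 85 17 40
(.ask 45
(.mark 61 [1, 6, 7]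
(.cut 1 [(0, 1), (1, 1), (5, 1), (9, 1), (13, 1), (21, 1), (29, 1)]
(.cut 1 [(0, 1), (1, 1), (5, 1), (9, 1), (13, 1), (21, 1), (29, 1), (45, 1), (85, 2), (93, 1)]
(.cut 1 [(0, 1), (1, 1), (5, 1), (9, 1), (13, 1), (45, 1)]
(.lp [[1], [3, 5, 7], [0, 2, 4, 6]] [(.mj 2 3, 52703), (.mj 4 5, 4068), (.mj 5 6, 33249), (.mj 6 1, 95035), (.hz 10 87, 4387259), (.hz 8 173, 3536806), (.hz 7 189, 10979784), (.rw 5, 152), (.rw 6, 6), (.rw 7, 154)])))))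
(.ask 61
(.mark 61 [1, 6, 7]
(.cut 1 [(0, 1), (1, 1), (5, 1), (9, 1), (13, 1), (21, 1), (29, 1)]
(.lp [[1], [3, 5, 7], [0, 2, 4, 6]] [(.mj 5 6, 277), (.mj 6 1, 1517), (.hz 7 29, 74606), (.hz 10 87, 4836), (.hz 7 61, 40637), (.hz 7 189, 118538), (.rw 5, 4)])))
(.lp [[1], [3, 5], [0, 2, 4, 6]] [(.mj 5 6, 3), (.mj 6 1, 2), (.hz 7 93, 872)])))
(.cut 1 [(0, 1), (1, 1), (5, 1), (9, 1), (13, 1), (21, 1), (29, 1)]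
(.lp [[1], [3, 5], [0, 2, 4, 6]] [(.mj 3 4, 236), (.mj 5 6, 581), (.mj 6 1, 660), (.hz 10 5, 24037), (.hz 10 21, 18660), (.hz 7 29, 36156), (.hz 1 85, 21183), (.hz 9 85, 67197), (.hz 7 93, 84664), (.rw 5, 1)]))))
(.lp [[1], [3, 5], [0, 2, 4, 6]] [(.mj 3 4, 2), (.mj 5 1, 6), (.mj 5 6, 5), (.hz 5 3, 46), (.hz 9 5, 508), (.hz 5 7, 189), (.hz 9 21, 355), (.hz 7 29, 283), (.hz 1 85, 859), (.hz 2 85, 3738), (.hz 7 93, 1634)]))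
(.haz 5 29 11 40
(.cut 1 [(0, 1), (1, 1), (5, 1), (9, 1), (13, 1), (21, 1), (29, 1)]
(.lp [[1], [3, 5], [0, 2, 4, 6]] [(.mj 3 4, 492), (.mj 6 1, 301), (.mj 6 5, 301), (.hz 9 29, 12380), (.hz 9 31, 66604), (.hz 7 61, 17080), (.rw 5, 1)]))
(.cut 1 [(0, 1), (1, 1), (5, 1), (9, 1), (13, 1), (21, 1), (29, 1)]
(.lp [[1], [3, 5], [0, 2, 4, 6]] [(.mj 3 4, 1424), (.mj 6 1, 810), (.mj 6 5, 181), (.hz 9 13, 24766), (.hz 7 29, 119391), (.hz 7 61, 33764), (.hz 7 93, 7157), (.rw 5, 1)])))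
.fin))
(.ask 29
(.mark 29 [1, 5, 6]
(.spn
(.haz 6 61 13 40
(.haz 5 93 9 40
(.lp [[1], [3, 5], [0, 2, 4, 6]] [(.mj 1 5, 474), (.mj 1 6, 296), (.mj 2 3, 35), (.mj 4 1, 700), (.hz 8 45, 42287), (.hz 7 61, 24789), (.hz 10 93, 45309)])
(.lp [[1], [3, 5], [0, 2, 4, 6]] [(.mj 1 6, 6), (.mj 2 3, 2), (.mj 4 1, 7), (.hz 10 13, 157), (.hz 10 29, 139), (.hz 8 45, 1071), (.hz 9 61, 504)]))
(.lp [[1], [3, 5], [0, 2, 4, 6]] [(.mj 1 5, 4), (.mj 2 3, 1), (.mj 4 1, 5), (.hz 9 29, 222), (.hz 7 61, 393)]))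
(.cut 1 [(0, 1), (1, 1), (5, 1), (9, 1), (13, 1), (21, 1), (29, 1)]
(.lp [[1], [3, 5], [0, 2, 4, 6]] [(.mj 2 3, 929), (.mj 5 1, 372), (.mj 5 6, 34), (.hz 7 93, 17742), (.rw 5, 1)]))
(.ask 93
(.mark 93 [1, 5, 7]
(.spn
(.lp [[1], [3, 5], [0, 2, 4, 6, 7]] [(.mj 6 1, 129), (.rw 5, 1)])
(.lp [[1], [3, 5], [0, 2, 4, 6, 7]] [(.mj 5 1, 6), (.mj 5 7, 4), (.mj 6 5, 7), (.hz 7 61, 2725), (.hz 7 221, 1324)])
(.cut 1 [(0, 1), (1, 1), (5, 1), (9, 1), (13, 1), (21, 1), (29, 1)]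
(.lp [[1], [3, 5], [0, 2, 4, 6, 7]] [(.mj 2 3, 804), (.mj 7 1, 2323), (.hz 7 29, 83763), (.hz 7 61, 55842), (.rw 6, 7)]))
.fin))
(.lp [[1], [3, 5], [0, 2, 4, 6]] [(.mj 6 5, 1), (.rw 4, 1)]))
.fin))
(.spn
(.lp [[1], [3, 5], [0, 2, 4]] [(.mj 1 5, 1), (.mj 4 1, 1)])
(.lp [[1], [3, 5], [0, 2, 4]] [(.mj 2 3, 26), (.mj 4 5, 2), (.mj 5 1, 15), (.hz 7 29, 2180), (.hz 7 61, 1889)])
.fin
.fin)))
(.cut 1 [(0, 1), (1, 1), (9, 1)]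
(.lp [[1], [3, 5], [0, 2, 4]] [(.hz 8 1, 59708), (.rw 4, 1)])))
(.ask 21
(.mark 29 [1, 5, 6]
(.cut 1 [(0, 1), (1, 1), (5, 1), (9, 1), (13, 1), (21, 1), (29, 1)]
(.cut 4 [(0, 1), (1, 1), (5, 1), (9, 1), (13, 1)]
(.lp [[1], [3, 5], [0, 2, 4, 6]] [(.mj 2 3, 11928), (.mj 5 1, 4107), (.mj 5 4, 2403), (.rw 3, 1), (.hz 2 85, 1064978), (.hz 2 87, 6335254), (.hz 7 61, 376838), (.rw 4, 15), (.rw 5, 3)]))))
(.lp [[1], [3, 5], [0, 2, 4]] [(.mj 2 3, 12031), (.mj 5 1, 1439), (.mj 5 4, 298), (.rw 3, 1), (.hz 6 2, 54353), (.hz 5 3, 541851), (.hz 5 7, 98308), (.hz 2 23, 1047584)]))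
.fin))
(.spn
(.con 1 4)
(.haz 2 3 21 40
(.ask 21
(.mark 21 [1, 3, 5]
(.ask 29
(.mark 29 [1, 5, 6]
(.spn
(.haz 6 61 3 10
(.lp [[1], [3, 6], [0, 2, 4, 5]] [(.mj 1 6, 827), (.mj 3 4, 2461), (.mj 4 1, 1648), (.rw 4, 1), (.hz 7 61, 140776), (.hz 9 61, 206818)])
(.lp [[1], [3, 6], [0, 2, 4, 5]] [(.mj 1 5, 2), (.mj 3 4, 3), (.mj 4 1, 3), (.hz 9 29, 495)]))
(.lp [[1], [3, 6], [0, 2, 4, 5]] [(.mj 3 4, 6), (.mj 5 1, 4), (.mj 5 6, 1), (.hz 7 29, 545), (.hz 7 61, 436), (.hz 7 93, 386)])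
(.ask 93
(.mark 93 [1, 5, 7]
(.spn
(.lp [[1], [3, 6, 7], [0, 2, 4, 5]] [(.mj 6 1, 129), (.rw 5, 1)])
(.lp [[1], [3, 6, 7], [0, 2, 4, 5]] [(.mj 3 4, 7), (.mj 5 1, 4), (.hz 7 29, 564), (.hz 7 61, 491), (.hz 7 93, 158), (.hz 7 221, 267)])
(.cut 1 [(0, 1)]
(.cut 1 [(0, 1), (1, 1), (5, 1), (9, 1), (13, 1), (21, 1), (29, 1)]
(.lp [[1], [3, 6, 7], [0, 2, 4, 5]] [(.mj 3 4, 326), (.mj 7 1, 1085), (.hz 7 125, 9045), (.rw 6, 1), (.rw 7, 3)])))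
.fin))
(.lp [[1], [3, 6], [0, 2, 4, 5]] [(.mj 6 5, 43), (.rw 4, 1)]))
.fin))
(.lp [[1], [3], [0, 2, 4, 5]] [(.mj 3 4, 3), (.mj 4 1, 2), (.hz 7 29, 118), (.hz 7 61, 164)])))
(.ask 29
(.ask 29
(.mark 29 [1, 5, 6]
(.spn
(.haz 5 93 1 4
(.ask 93
(.mark 93 [1, 5, 7]
(.lp [[1], [3, 5], [0, 2, 4, 6, 7]] [(.mj 1 5, 9), (.mj 4 1, 12), (.mj 5 6, 4), (.hz 7 93, 726), (.hz 9 93, 2921), (.hz 9 221, 3894)]))
(.lp [[1], [3, 6], [0, 2, 4, 5]] [(.mj 1 5, 2), (.mj 4 1, 3)]))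
(.lp [[1], [3, 6], [0, 2, 4, 5]] [(.mj 4 1, 3), (.mj 5 6, 2), (.hz 9 29, 1418), (.hz 7 93, 516)]))
(.ask 61
(.mark 61 [1, 6, 7]
(.spn
(.lp [[1], [3, 6], [0, 2, 4, 5, 7]] [(.mj 5 1, 129), (.rw 5, 1)])
(.cut 1 [(0, 1), (1, 1), (5, 1), (9, 1), (13, 1), (21, 1), (29, 1), (61, 1)]
(.lp [[1], [3, 6], [0, 2, 4, 5, 7]] [(.mj 5 6, 391), (.mj 6 1, 2346), (.mj 6 7, 13), (.hz 7 189, 113775), (.rw 6, 8)]))
(.cut 1 [(0, 1), (1, 1), (5, 1), (9, 1), (13, 1), (21, 1), (29, 1), (61, 1)]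
(.lp [[1], [3, 6], [0, 2, 4, 5, 7]] [(.mj 7 1, 261), (.hz 7 125, 17805), (.rw 6, 1)]))
.fin))
(.lp [[1], [3, 6], [0, 2, 4, 5]] [(.mj 5 6, 813), (.rw 4, 1)]))
(.con 6 5)
.fin))
(.spn
(.lp [[1], [3], [0, 2, 4, 5]] [(.mj 1 5, 1), (.mj 4 1, 1)])
(.ask 61
(.maj 1 6
(.ask 61
(.mark 61 [1, 6, 7]
(.spn
(.lp [[1], [3, 7], [0, 2, 4, 5, 6]] [(.rw 4, 1), (.rw 5, 3)])
(.con 6 1)
(.con 7 6)
.fin))
(.lp [[1], [3], [0, 2, 4, 5, 6]] [(.mj 1 6, 1), (.mj 5 1, 1)]))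
(.cut 1 [(0, 1), (1, 1), (5, 1), (9, 1), (13, 1), (21, 1), (29, 1)]
(.lp [[1], [3], [0, 2, 4, 5, 6]] [(.mj 6 1, 1100), (.rw 5, 4)])))
(.lp [[1], [3], [0, 2, 4, 5]] [(.mj 5 1, 1)]))
.fin
.fin))
(.lp [[1], [3], [0, 2, 4]] [(.mj 4 1, 1)])))
(.lp [[1], [3], [0, 2, 4]] [(.mj 2 3, 1), (.mj 4 1, 3), (.hz 8 1, 92), (.hz 7 29, 211)]))
.fin
.fin))
(.cut 1 [(0, 1), (1, 1), (9, 1)]
(.cut 1 [(0, 1), (1, 1), (5, 1)]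
(.lp [[1], [3], [0, 2, 4]] [(.mj 2 3, 755), (.hz 7 9, 2569164), (.hz 7 13, 3812308), (.hz 7 21, 3112088), (.rw 3, 28), (.rw 4, 124)]))))

theorem run77 : run P3488 (leaf3 218 625) (cutRow P3488) [] t77 s77 = true := by
  decide +kernel

theorem bad77 : Bad P3488 s77 :=
  run_sound (leaf3_sound P3488 rfl rfl) (cutRow_sound P3488) (
    fun _ h => absurd h List.not_mem_nil) t77 s77 run77

/-- the state above piece 0 of the tree -/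
def s0 : St := ⟨[0, 0, 0, 1, 3, 9], [11, 3, 2, 1, 0], [0, 1, 3, 4],
  [(3, 2)],
  [⟨true, 2, 1, 3, 50⟩, ⟨true, 1, 9, 11, 50⟩, ⟨true, 1, 4, 1, 5⟩, ⟨true, 3, 7, 1, 5⟩, ⟨true, 1, 5, 3, 10⟩],
  [.spn 0 0 424061, .spn 1 1 140426, .spn 3 3 140426, .spn 11 4 140426]⟩

/-- piece 0 of the tree -/
noncomputable def t0 : WN.Tree :=
(.haz 4 43 7 20
(.ask 19
(.mark 27 [2, 5, 6]
(.spn
(.haz 5 27 7 25
(.lp [[2], [0, 3, 5], [1, 4, 6]] [(.mj 2 5, 19), (.mj 2 6, 4), (.mj 3 4, 14), (.mj 4 2, 20), (.hz 0 41, 250), (.hz 6 27, 389), (.hz 5 43, 322), (.hz 0 83, 875), (.hz 6 31, 2003), (.hz 6 91, 4234)])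
(.lp [[2], [0, 3, 5], [1, 4, 6]] [(.mj 0 1, 138), (.mj 3 4, 2543), (.mj 4 2, 1426), (.rw 4, 2), (.hz 6 9, 41209), (.hz 6 11, 131873), (.hz 0 41, 17828), (.hz 6 27, 102013), (.hz 0 43, 71312), (.hz 0 83, 291936)]))
(.haz 1 4 13 50
(.haz 1 4 7 25
(.ask 41
(.mark 59 [2, 6, 7]
(.spn
(.lp [[2], [1, 4, 6], [0, 3, 5, 7]] [(.mj 0 1, 578), (.mj 2 6, 97), (.mj 4 5, 391), (.mj 5 2, 500), (.rw 5, 1), (.hz 0 83, 45872), (.hz 0 169, 15134), (.hz 0 91, 127443), (.hz 0 171, 122739)])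
(.ask 83
(.mark 123 [2, 7, 8]
(.cut 2 [(0, 1), (1, 1), (2, 1), (3, 1), (9, 1), (11, 1), (19, 1), (41, 1), (27, 1), (43, 1), (83, 1), (59, 1), (91, 1), (339, 1)]
(.cut 2 [(0, 1), (1, 1), (2, 1), (3, 1), (9, 1), (11, 1), (19, 1), (41, 1), (43, 1)]
(.cut 2 [(0, 1), (1, 1), (2, 1), (3, 1), (9, 1), (11, 1), (19, 1), (41, 1), (27, 1), (43, 1), (83, 1), (169, 2), (171, 1)]
(.cut 2 [(0, 1), (1, 1), (2, 1), (3, 1), (9, 1), (11, 1), (19, 1), (27, 1)]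
(.lp [[2], [0, 3, 5, 7], [1, 4, 6, 8]] [(.mj 0 1, 18008), (.mj 4 5, 16110), (.mj 5 6, 9759), (.mj 6 2, 16136), (.hz 0 169, 5482), (.hz 0 171, 2957086), (.hz 0 339, 35347), (.hz 0 187, 2509251), (.hz 0 347, 536097), (.rw 6, 1), (.rw 7, 5), (.rw 8, 4), (.rw 9, 40)]))))))
(.cut 2 [(0, 1), (1, 1), (2, 1), (3, 1), (9, 1), (11, 1), (19, 1), (41, 1), (27, 1), (43, 1), (83, 1)]
(.lp [[2], [1, 4, 6], [0, 3, 5, 7]] [(.mj 4 5, 1230), (.mj 5 6, 2321), (.mj 6 2, 8289), (.hz 0 169, 19405), (.hz 0 171, 82770), (.hz 4 173, 1156559), (.hz 0 187, 1450735), (.rw 6, 28)])))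
(.cut 2 [(0, 1), (1, 1), (2, 1), (3, 1), (9, 1), (11, 1), (19, 1), (41, 1), (27, 1)]
(.lp [[2], [1, 4, 6], [0, 3, 5, 7]] [(.mj 0 1, 422), (.mj 4 5, 840), (.mj 7 2, 661), (.mj 7 6, 439), (.hz 0 83, 4414), (.hz 0 91, 54991), (.rw 6, 2)]))
.fin))
(.maj 2 6
(.haz 6 31 11 50
(.cut 2 [(0, 1), (1, 1), (2, 1), (3, 1), (9, 1), (11, 1), (19, 1), (41, 1), (27, 1)]
(.lp [[2], [0, 3, 5], [1, 4, 6]] [(.mj 0 1, 8119), (.mj 4 5, 3148), (.mj 5 2, 4105), (.hz 0 83, 539833), (.hz 8 31, 1283678), (.hz 0 91, 372843), (.rw 5, 13)]))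
(.cut 2 [(0, 1), (1, 1), (2, 1), (3, 1), (9, 1), (11, 1), (19, 1), (41, 1), (27, 1)]
(.lp [[2], [0, 3, 5], [1, 4, 6]] [(.mj 0 1, 72), (.mj 4 5, 821), (.mj 5 2, 326), (.hz 8 19, 8517), (.hz 8 27, 23981), (.hz 0 83, 9874), (.hz 0 91, 28483), (.rw 5, 1)])))
(.cut 2 [(0, 1), (1, 1), (2, 1), (3, 1), (9, 1), (11, 1), (41, 1)]
(.cut 2 [(0, 1), (1, 1), (2, 1), (3, 1), (9, 1), (11, 1), (19, 1), (27, 1), (83, 1)]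
(.lp [[2], [0, 3, 5], [1, 4, 6]] [(.mj 0 1, 328278), (.mj 4 5, 61115), (.mj 5 6, 4623), (.mj 6 2, 145587), (.hz 0 41, 2001928), (.hz 0 83, 398638), (.hz 0 59, 14870278), (.rw 5, 410), (.rw 6, 15)])))))
(.cut 2 [(0, 1), (1, 1), (2, 1), (3, 1), (9, 1), (11, 1), (19, 1), (27, 1)]
(.lp [[2], [0, 3, 5], [1, 4, 6]] [(.mj 1 3, 67), (.mj 4 5, 451), (.mj 5 2, 465), (.hz 7 0, 37634), (.hz 6 4, 18617), (.hz 4 5, 3340), (.hz 1 41, 8410), (.hz 4 45, 56863), (.hz 0 91, 16976), (.rw 5, 1)])))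
(.lp [[2], [0, 3, 5], [1, 4, 6]] [(.mj 1 3, 3), (.mj 4 5, 16), (.mj 5 2, 19), (.hz 6 0, 714), (.hz 2 4, 5948), (.hz 0 3, 84), (.hz 4 5, 1983), (.hz 0 19, 512), (.hz 1 41, 120), (.hz 0 41, 1482), (.hz 0 27, 1399), (.hz 0 83, 544), (.hz 4 45, 14779), (.hz 0 91, 1640)]))
(.cut 2 [(0, 1), (1, 1), (2, 1), (3, 1), (9, 1), (11, 1), (19, 1), (27, 1)]
(.lp [[2], [0, 3, 5], [1, 4, 6]] [(.mj 3 4, 2363), (.mj 6 2, 1350), (.mj 6 5, 1172), (.hz 1 41, 10111), (.hz 5 43, 119885), (.hz 4 45, 312156), (.hz 5 47, 412695), (.rw 5, 4)]))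
.fin))
(.ask 27
(.mark 27 [2, 5, 6]
(.spn
(.haz 5 27 1 5
(.lp [[2], [0, 3, 5], [1, 4, 6]] [(.mj 0 1, 12), (.mj 2 5, 38), (.mj 2 6, 22), (.mj 4 2, 48), (.hz 0 41, 831), (.hz 6 27, 623), (.hz 6 31, 39223), (.hz 6 91, 48039)])
(.haz 6 59 17 50
(.lp [[2], [0, 3, 5], [1, 4, 6]] [(.mj 0 1, 7), (.mj 2 6, 8), (.mj 4 2, 10), (.hz 6 9, 1332), (.hz 6 11, 2887), (.hz 0 41, 123), (.hz 6 27, 2017), (.hz 0 43, 836), (.hz 7 59, 936)])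
(.lp [[2], [0, 3, 5], [1, 4, 6]] [(.mj 0 1, 1), (.mj 4 2, 1), (.hz 6 9, 163), (.hz 6 11, 343), (.hz 6 27, 989), (.hz 7 27, 99)])))
(.haz 1 4 13 50
(.haz 1 4 7 25
(.haz 5 95 8 25
(.maj 2 6
(.haz 2 91 2 25
(.cut 2 [(0, 1), (1, 1), (2, 1), (3, 1), (9, 1), (11, 1), (19, 1), (27, 1)]
(.lp [[2], [0, 3, 5], [1, 4, 6]] [(.mj 4 5, 2769), (.mj 5 2, 3590), (.hz 9 91, 1923003), (.rw 5, 10)]))
(.cut 2 [(0, 1), (1, 1), (2, 1), (3, 1), (9, 1), (11, 1), (19, 1), (27, 1)]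
(.lp [[2], [0, 3, 5], [1, 4, 6]] [(.mj 4 5, 191), (.hz 9 9, 24896), (.hz 9 11, 120025), (.hz 0 91, 68350), (.rw 5, 1)])))
(.ask 41
(.mark 59 [2, 6, 7]
(.cut 2 [(0, 1), (1, 1), (2, 1), (3, 1), (9, 1), (11, 1), (19, 1), (41, 1), (43, 1)]
(.cut 2 [(0, 1), (1, 1), (2, 1), (3, 1), (9, 1), (11, 1), (19, 1), (27, 1)]
(.lp [[2], [1, 4, 6], [0, 3, 5, 7]] [(.mj 4 5, 473), (.mj 5 6, 1156), (.mj 6 2, 5677), (.hz 0 169, 15669), (.hz 5 171, 26861), (.hz 4 173, 1084194), (.hz 5 175, 452083), (.hz 0 187, 812715), (.rw 5, 6), (.rw 6, 14)]))))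
(.ask 43
(.mark 59 [2, 6, 7]
(.cut 2 [(0, 1), (1, 1), (2, 1), (3, 1), (9, 1), (11, 1), (19, 1), (41, 1)]
(.cut 2 [(0, 1), (1, 1), (2, 1), (3, 1), (9, 1), (11, 1), (19, 1), (41, 1), (27, 1), (43, 1)]
(.lp [[2], [1, 4, 6], [0, 3, 5, 7]] [(.mj 4 5, 219), (.mj 5 6, 1317), (.mj 6 2, 8081), (.hz 0 41, 104699), (.hz 5 171, 80071), (.hz 0 187, 1313090), (.rw 5, 23), (.rw 6, 5)]))))
(.cut 2 [(0, 1), (1, 1), (2, 1), (3, 1), (9, 1), (11, 1), (19, 1), (41, 1), (27, 1)]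
(.cut 2 [(0, 1), (1, 1), (2, 1), (3, 1), (9, 1), (11, 1), (41, 1), (43, 1)]
(.lp [[2], [0, 3, 5], [1, 4, 6]] [(.mj 0 1, 8252), (.mj 6 2, 11147), (.hz 0 41, 417350), (.hz 0 43, 614169), (.rw 5, 5), (.rw 6, 30)]))))))
(.lp [[2], [0, 3, 5], [1, 4, 6]] [(.mj 5 2, 48), (.mj 5 6, 56), (.hz 8 9, 1297), (.hz 8 11, 4518), (.hz 0 41, 221), (.hz 8 27, 9419), (.hz 0 43, 578), (.hz 0 91, 20411)]))
(.cut 2 [(0, 1), (1, 1), (2, 1), (3, 1), (9, 1), (11, 1), (19, 1), (27, 1)]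
(.lp [[2], [0, 3, 5], [1, 4, 6]] [(.mj 1 3, 7800), (.mj 4 5, 1192), (.mj 5 2, 6786), (.hz 7 0, 447820), (.hz 6 4, 223910), (.hz 0 41, 25508), (.hz 0 91, 405511), (.rw 5, 14)])))
(.cut 2 [(0, 1), (1, 1), (2, 1), (3, 1), (9, 1), (11, 1), (19, 1), (27, 1)]
(.lp [[2], [0, 3, 5], [1, 4, 6]] [(.mj 1 3, 807), (.mj 4 5, 113), (.mj 5 2, 642), (.hz 6 0, 23882), (.hz 2 4, 199014), (.hz 4 5, 66338), (.hz 0 41, 8337), (.hz 0 91, 36598), (.rw 5, 1)])))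
(.ask 41
(.maj 2 7
(.mark 59 [2, 6, 7]
(.cut 2 [(0, 1), (1, 1), (2, 1), (3, 1), (9, 1), (11, 1), (19, 1), (41, 1), (27, 1), (43, 1), (59, 1)]
(.lp [[2], [1, 4, 6], [0, 3, 5, 7]] [(.mj 0 1, 39454), (.mj 6 2, 32577), (.rw 4, 1), (.hz 0 41, 965587), (.hz 0 43, 1420948), (.hz 0 169, 2039452), (.hz 0 171, 1414016), (.hz 4 173, 27203954), (.rw 5, 106)])))
(.mark 59 [2, 6, 7]
(.tr 5 7 2
(.cut 5 [(0, 1), (1, 1), (2, 1), (3, 1), (9, 1), (11, 1), (19, 1), (27, 1)]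
(.cut 2 [(0, 1), (1, 1), (2, 1), (3, 1), (9, 1), (11, 1), (19, 1), (41, 1), (27, 1), (43, 1), (59, 1)]
(.lp [[2], [1, 4, 6], [0, 3, 5, 7]] [(.mj 6 5, 406), (.mj 7 2, 7813), (.hz 0 19, 497672), (.hz 1 169, 4062), (.hz 5 171, 54545), (.hz 4 173, 1357581), (.hz 5 175, 1501773), (.hz 0 123, 1968026), (.rw 5, 1), (.rw 6, 23)]))))))
(.cut 2 [(0, 1), (1, 1), (2, 1), (3, 1), (9, 1), (11, 1), (19, 1), (41, 1), (27, 1)]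
(.lp [[2], [0, 3, 5], [1, 4, 6]] [(.mj 0 1, 36926), (.mj 6 2, 13101), (.mj 6 5, 2183), (.rw 4, 1), (.hz 5 43, 602062), (.hz 5 47, 5390250), (.rw 5, 46)])))
.fin))
(.spn
(.lp [[2], [1, 4], [0, 3, 5]] [(.mj 2 5, 1), (.mj 4 2, 1)])
(.lp [[2], [1, 4], [0, 3, 5]] [(.mj 4 5, 5), (.mj 5 2, 3), (.hz 0 41, 227), (.hz 0 43, 921)])
.fin
.fin)))
(.lp [[2], [1, 4], [0, 3, 5]] [(.mj 4 2, 14), (.mj 4 5, 14), (.hz 5 3, 968), (.hz 5 11, 2022), (.hz 0 19, 142), (.hz 0 41, 953), (.hz 0 43, 2839)]))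

theorem run0 : run P3488 (leaf3 218 625) (cutRow P3488) [] t0 s0 = true := by
  decide +kernel

theorem bad0 : Bad P3488 s0 :=
  run_sound (leaf3_sound P3488 rfl rfl) (cutRow_sound P3488) (
    fun _ h => absurd h List.not_mem_nil) t0 s0 run0

end Pool.Agent.WN.Data
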