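import Pool.Agent.WN.CutRow
import Pool.Agent.WN.LeafRow
import Pool.Agent.Helper99.WN.ParDef
import Pool.Agent.WN.Data.D14

/-!
# The search tree, part 19
-/

set_option autoImplicit false

namespace Pool.Agent.WN.Data

open Pool.Agent.W3 Pool.Agent.WN Pool.Agent.Helper99.WN

/-- the state above piece 26 of the tree -/
def s26 : St := ⟨[0, 0, 1, 1, 3, 7, 13], [15, 11, 9, 7, 5, 3, 2, 1, 0], [0, 1, 2, 3, 4],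
  [],
  [⟨true, 1, 9, 7, 50⟩, ⟨true, 2, 11, 3, 50⟩, ⟨true, 2, 9, 9, 50⟩, ⟨true, 3, 3, 1, 5⟩, ⟨true, 1, 5, 13, 50⟩, ⟨true, 5, 31, 1, 8⟩],
  [.spn 0 0 651200, .spn 1 1 140426, .spn 3 2 140426, .spn 7 3 62723, .spn 15 4 62723]⟩

/-- piece 26 of the tree -/
noncomputable def t26 : WN.Tree :=
(.haz 5 79 3 20
(.haz 4 39 4 25
(.ask 39
(.haz 4 79 7 50
(.haz 4 79 1 5
(.haz 5 15 3 10
(.haz 4 39 6 25
(.haz 6 175 1 5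
(.haz 4 79 13 50
(.maj 5 6
(.ask 77
(.mark 79 [4, 5, 8]
(.ask 333
(.mark 367 [4, 7, 9]
(.lp [[1, 4], [2, 5, 7], [0, 3, 6, 8, 9]] [(.mj 2 3, 265), (.mj 3 4, 223), (.mj 4 5, 129), (.mj 5 6, 21), (.hz 10 15, 13188), (.hz 11 39, 12692), (.hz 13 79, 483), (.hz 10 79, 59856), (.hz 11 167, 16700), (.hz 13 111, 105), (.hz 10 335, 95935), (.hz 4 845, 6647), (.hz 10 847, 112538)]))
(.mark 39 [3, 4, 7]
(.lp [[1, 4], [3, 6, 8], [0, 2, 5, 7]] [(.mj 2 3, 284), (.mj 3 4, 239), (.mj 4 5, 138), (.mj 5 6, 23), (.hz 10 15, 14148), (.hz 11 39, 13616), (.hz 13 79, 724), (.hz 10 79, 64453), (.hz 11 167, 17916), (.hz 10 335, 103484)]))))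
(.ask 79
(.mark 111 [4, 7, 8]
(.lp [[1, 4], [3, 6, 8], [0, 2, 5, 7]] [(.mj 2 3, 38), (.mj 3 4, 32), (.mj 4 5, 18), (.mj 5 6, 3), (.hz 10 15, 646), (.hz 11 39, 1772), (.hz 10 31, 597), (.hz 10 79, 8453), (.hz 3 167, 1194), (.hz 11 167, 2395), (.hz 10 335, 11223)]))
(.mark 39 [3, 4, 7]
(.lp [[1, 4], [3, 6], [0, 2, 5, 7]] [(.mj 2 3, 127), (.mj 3 4, 105), (.mj 4 5, 58), (.mj 5 6, 10), (.hz 11 39, 5771), (.hz 10 31, 2993), (.hz 10 79, 28180), (.hz 3 167, 5986), (.hz 11 167, 7908)]))))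
(.mark 47 [4, 6, 7]
(.lp [[1, 4], [3, 6], [0, 2, 5, 7]] [(.mj 1 2, 11), (.mj 2 3, 68), (.mj 3 4, 63), (.mj 4 6, 22), (.mj 6 5, 26), (.hz 3 19, 4460), (.hz 11 39, 6925), (.hz 10 31, 25669), (.hz 10 79, 11150), (.hz 11 167, 4783), (.hz 12 175, 38393)])))
(.mark 39 [3, 4, 7]
(.lp [[1, 4], [3, 6], [0, 2, 5, 7]] [(.mj 1 2, 2), (.mj 2 3, 9), (.mj 4 5, 30), (.mj 4 6, 12), (.hz 13 3, 647), (.hz 13 7, 1281), (.hz 13 11, 402), (.hz 13 15, 2778), (.hz 10 79, 27007), (.hz 3 167, 4356), (.hz 12 175, 21780)])))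
(.mark 39 [3, 4, 7]
(.lp [[1, 4], [3, 6], [0, 2, 5, 7]] [(.mj 2 3, 37), (.mj 3 4, 29), (.mj 4 5, 16), (.hz 12 13, 3339), (.hz 12 15, 6072), (.hz 11 39, 1626), (.hz 10 31, 530), (.hz 10 79, 10826), (.hz 3 167, 1060), (.hz 11 167, 2195)])))
(.mark 39 [3, 4, 7]
(.lp [[1, 4], [3, 6], [0, 2, 5, 7]] [(.mj 1 2, 1), (.mj 2 3, 4), (.mj 4 5, 4), (.hz 11 3, 211), (.hz 11 7, 439), (.hz 4 77, 15), (.hz 10 31, 880), (.hz 10 79, 3369), (.hz 3 167, 1760)])))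
(.ask 19
(.mark 63 [6, 7, 8]
(.lp [[3, 6], [1, 4, 8], [0, 2, 5, 7]] [(.mj 2 3, 12), (.mj 3 4, 4), (.hz 10 7, 1422), (.hz 10 15, 180), (.hz 3 275, 9408), (.hz 9 79, 2495), (.hz 3 279, 2637), (.hz 7 167, 216), (.hz 9 111, 1681), (.hz 7 175, 336), (.hz 3 311, 1681)]))
(.haz 3 23 13 40
(.ask 23
(.mark 31 [5, 6, 8]
(.spn
(.mark 63 [6, 7, 8]
(.spn
(.haz 6 31 13 40
(.lp [[3, 6], [1, 4, 8], [0, 2, 5, 7]] [(.mj 2 3, 15), (.mj 3 4, 11), (.mj 5 6, 8), (.hz 10 7, 2587), (.hz 10 15, 4932), (.hz 12 31, 2149), (.hz 11 279, 829), (.hz 7 167, 1039), (.hz 5 287, 690), (.hz 12 287, 2922)])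
(.ask 167
(.mark 183 [3, 8, 9]
(.lp [[3, 6], [1, 4, 8], [0, 2, 5, 7, 9]] [(.mj 2 3, 123588), (.mj 3 4, 81086), (.rw 6, 2), (.hz 10 7, 10306746), (.hz 12 13, 435078), (.hz 10 15, 35230952), (.hz 12 15, 6946120), (.hz 12 31, 535595), (.hz 6 79, 570765), (.hz 7 167, 12480458), (.hz 5 287, 21423781), (.hz 7 679, 2853824)]))
(.lp [[3, 6], [1, 4, 8], [0, 2, 5, 7]] [(.mj 2 3, 11), (.mj 3 4, 6), (.hz 12 13, 21), (.hz 10 15, 4575), (.hz 12 15, 541), (.hz 6 79, 561)])))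
(.ask 167
(.mark 191 [6, 8, 9]
(.lp [[3, 6], [1, 4, 8], [0, 2, 5, 7, 9]] [(.mj 2 3, 12), (.mj 3 4, 27), (.mj 7 6, 31), (.mj 7 8, 22), (.hz 10 7, 17410), (.hz 9 79, 18022), (.hz 6 79, 1500), (.hz 6 95, 7590), (.hz 5 287, 37113)]))
(.lp [[3, 6], [1, 4, 8], [0, 2, 5, 7]] [(.mj 2 3, 39), (.mj 3 4, 25), (.mj 7 6, 9), (.mj 7 8, 1), (.hz 10 15, 18609), (.hz 9 79, 23363), (.hz 6 79, 5540), (.hz 6 95, 11603), (.hz 5 287, 6315), (.hz 11 183, 603)]))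
(.haz 6 47 11 40
(.lp [[3, 6], [1, 4, 8], [0, 2, 5, 7]] [(.mj 2 3, 3), (.mj 3 4, 3), (.mj 5 8, 1), (.mj 8 6, 2), (.hz 10 7, 712), (.hz 10 15, 400), (.hz 12 47, 138), (.hz 9 79, 2022), (.hz 7 167, 290), (.hz 12 63, 910), (.hz 12 175, 647), (.hz 12 191, 554), (.hz 12 319, 410), (.hz 9 239, 9807)])
(.lp [[3, 6], [1, 4, 8], [0, 2, 5, 7]] [(.mj 2 3, 34354), (.mj 3 4, 23745), (.rw 5, 2), (.rw 6, 1), (.hz 10 7, 3663585), (.hz 12 13, 131499), (.hz 10 15, 8610666), (.hz 12 15, 1845623), (.hz 7 167, 3070433)]))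
.fin))
(.mark 39 [3, 4, 7]
(.lp [[3, 6], [1, 4, 8], [0, 2, 5, 7]] [(.mj 1 2, 13581), (.mj 2 3, 413777), (.mj 3 4, 123450), (.mj 6 5, 106220), (.rw 5, 40), (.hz 6 79, 14146524), (.hz 11 279, 22668997), (.hz 3 167, 56586096), (.hz 7 167, 37285844), (.hz 6 95, 98107349), (.hz 5 287, 485496860), (.hz 11 183, 49053675)]))
(.mark 47 [4, 6, 7]
(.lp [[3, 6], [1, 4, 8], [0, 2, 5, 7]] [(.mj 1 2, 9), (.mj 2 3, 23), (.mj 3 4, 23), (.mj 8 5, 11), (.mj 8 6, 4), (.hz 9 79, 16870), (.hz 6 79, 4266), (.hz 7 167, 4993), (.hz 6 95, 21894), (.hz 5 287, 25875), (.hz 7 175, 3189), (.hz 11 183, 1706)]))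
.fin))
(.mark 47 [4, 6, 7]
(.lp [[1, 4], [3, 6], [0, 2, 5, 7]] [(.mj 2 3, 41), (.mj 3 4, 15), (.mj 4 6, 4), (.hz 10 7, 7543), (.hz 9 79, 2616), (.hz 6 79, 592)])))
(.mark 39 [3, 4, 7]
(.lp [[1, 4], [3, 6], [0, 2, 5, 7]] [(.mj 3 4, 5), (.hz 11 5, 82), (.hz 11 7, 416), (.hz 10 7, 1023), (.hz 3 19, 111), (.hz 10 15, 144), (.hz 7 39, 302), (.hz 7 167, 360)])))))
(.lp [[1, 4], [3, 6], [0, 2, 5, 7]] [(.mj 2 3, 2), (.mj 4 5, 12), (.mj 4 6, 8), (.hz 9 3, 2665), (.hz 9 7, 4665), (.hz 9 11, 2866), (.hz 9 15, 12439), (.hz 6 79, 6708)]))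
(.lp [[1, 4], [3, 6], [0, 2, 5, 7]] [(.mj 1 2, 7), (.mj 4 5, 1), (.hz 8 3, 88), (.hz 8 7, 48), (.hz 8 11, 147), (.hz 8 15, 118), (.hz 3 39, 71), (.hz 6 79, 389)]))
(.haz 6 47 4 25
(.haz 5 79 13 50
(.ask 19
(.mark 31 [5, 6, 7]
(.lp [[3, 6], [0, 2, 5], [1, 4, 7]] [(.mj 1 2, 9), (.mj 2 3, 42), (.mj 3 4, 25), (.mj 4 5, 14), (.mj 4 6, 3), (.hz 3 19, 1201), (.hz 3 147, 24892), (.hz 9 79, 2042)]))
(.haz 3 23 8 25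
(.lp [[1, 4], [3, 6], [0, 2, 5]] [(.mj 1 2, 31), (.mj 2 3, 555), (.mj 3 4, 207), (.mj 4 5, 91), (.hz 10 23, 37202), (.hz 8 47, 7720), (.hz 9 79, 7523)])
(.lp [[1, 4], [3, 6], [0, 2, 5]] [(.mj 2 3, 1), (.mj 3 4, 7), (.mj 4 5, 2), (.hz 10 5, 251), (.hz 10 7, 872)])))
(.lp [[1, 4], [3, 6], [0, 2, 5]] [(.mj 2 3, 19), (.mj 3 4, 13), (.mj 4 6, 5), (.hz 9 15, 1181), (.hz 6 79, 1840)]))
(.lp [[1, 4], [3, 6], [0, 2, 5]] [(.mj 2 3, 44), (.mj 3 4, 35), (.mj 4 5, 19), (.hz 8 13, 736), (.hz 8 15, 2231), (.hz 7 39, 1709), (.hz 6 79, 5981)])))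
(.lp [[1, 4], [3, 6], [0, 2, 5]] [(.mj 2 3, 6), (.mj 4 5, 4), (.mj 4 6, 1), (.hz 7 3, 237), (.hz 7 7, 390), (.hz 3 39, 2235), (.hz 6 79, 1543)]))
(.lp [[1, 4], [3, 6], [0, 2, 5]] [(.mj 2 3, 114), (.mj 3 4, 42), (.mj 4 6, 1), (.hz 6 7, 6088), (.hz 3 19, 59349), (.hz 6 15, 493), (.hz 5 31, 9855)]))

theorem run26 : run P3488 (leaf3 218 625) (cutRow P3488) [] t26 s26 = true := by
  decide +kernel

theorem bad26 : Bad P3488 s26 :=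
  run_sound (leaf3_sound P3488 rfl rfl) (cutRow_sound P3488) (
    fun _ h => absurd h List.not_mem_nil) t26 s26 run26

/-- the state above piece 82 of the tree -/
def s82 : St := ⟨[0, 0, 1, 3, 5, 5, 11, 21], [79, 75, 31, 15, 7, 3, 2, 1, 0], [0, 1, 2, 3, 4, 6],
  [],
  [⟨true, 2, 3, 3, 10⟩, ⟨true, 1, 5, 2, 5⟩, ⟨true, 2, 3, 23, 50⟩, ⟨true, 1, 5, 12, 25⟩, ⟨true, 2, 11, 12, 25⟩, ⟨true, 4, 79, 11, 50⟩, ⟨true, 3, 151, 6, 25⟩, ⟨true, 5, 79, 1, 25⟩, ⟨true, 6, 191, 7, 50⟩, ⟨true, 5, 95, 3, 50⟩, ⟨true, 6, 191, 1, 4⟩, ⟨true, 3, 39, 2, 5⟩],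
  [.spn 0 0 651200, .spn 1 1 302400, .spn 3 2 302400, .spn 7 3 140426, .spn 15 4 140426, .spn 31 6 140426]⟩

/-- piece 82 of the tree -/
noncomputable def t82 : WN.Tree :=
(.haz 4 47 3 10
(.ask 95
(.mark 95 [5, 7, 8]
(.spn
(.haz 5 351 1 10
(.haz 7 351 1 20
(.haz 8 255 1 4
(.haz 5 159 1 10
(.haz 8 223 17 50
(.haz 4 111 3 5
(.haz 5 351 7 50
(.haz 4 39 7 25
(.ask 149
(.mark 223 [5, 8, 9]
(.lp [[5], [1, 3, 6, 8], [0, 2, 4, 7, 9]] [(.mj 1 2, 46), (.mj 3 4, 324), (.mj 4 6, 160), (.mj 5 8, 210), (.mj 6 5, 326), (.hz 20 39, 24766), (.hz 3 149, 118), (.hz 16 159, 486208), (.hz 6 663, 11064), (.hz 17 223, 32035), (.hz 16 671, 1155980), (.hz 17 735, 131048)]))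
(.ask 151
(.mark 223 [5, 8, 9]
(.lp [[5], [1, 3, 6, 8], [0, 2, 4, 7, 9]] [(.mj 3 4, 210), (.mj 4 6, 80), (.mj 5 8, 145), (.mj 6 5, 233), (.hz 16 159, 427423), (.hz 18 111, 74828), (.hz 6 663, 12176), (.hz 17 223, 22101), (.hz 14 351, 5182), (.hz 16 671, 734698), (.hz 17 735, 88791)]))
(.haz 7 383 3 25
(.haz 8 223 23 50
(.ask 159
(.mark 223 [5, 8, 9]
(.lp [[5], [1, 3, 6, 8], [0, 2, 4, 7, 9]] [(.mj 3 4, 56), (.mj 4 6, 20), (.mj 5 8, 37), (.mj 6 5, 61), (.hz 16 159, 28316), (.hz 18 111, 21904), (.hz 22 223, 4508), (.hz 19 351, 1718), (.hz 16 671, 189559), (.hz 21 383, 28630), (.hz 10 703, 178936), (.hz 22 735, 20321)]))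
(.ask 223
(.mark 223 [5, 8, 9]
(.lp [[5], [1, 3, 6, 8], [0, 2, 4, 7, 9]] [(.mj 4 6, 2), (.mj 5 7, 2), (.mj 5 8, 12), (.mj 6 5, 20), (.hz 16 159, 20206), (.hz 22 223, 2881), (.hz 22 735, 4509)]))
(.lp [[5], [0, 2, 4, 7], [1, 3, 6, 8]] [(.mj 4 6, 1), (.mj 5 8, 4), (.mj 6 5, 7)])))
(.haz 7 127 11 50
(.lp [[5], [0, 2, 4, 7], [1, 3, 6, 8]] [(.mj 4 6, 20), (.mj 5 7, 188), (.mj 6 5, 246), (.hz 22 95, 55507), (.hz 23 127, 112772), (.hz 17 223, 37594)])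
(.lp [[5], [0, 2, 4, 7], [1, 3, 6, 8]] [(.mj 3 4, 1), (.mj 6 5, 3), (.hz 23 95, 807), (.hz 22 95, 807), (.hz 16 159, 9193)])))
(.lp [[5], [0, 2, 4, 7], [1, 3, 6, 8]] [(.mj 4 6, 3), (.mj 5 8, 2), (.mj 6 5, 3), (.hz 21 31, 1000), (.hz 21 95, 274), (.hz 16 159, 2827), (.hz 17 223, 710)]))))
(.lp [[5], [0, 2, 4, 7], [1, 3, 6, 8]] [(.mj 4 6, 1), (.mj 5 8, 4), (.mj 6 5, 8), (.hz 20 7, 1196), (.hz 11 39, 279), (.hz 3 149, 238), (.hz 16 159, 21456), (.hz 18 111, 5616), (.hz 17 223, 1347)]))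
(.lp [[5], [0, 2, 4, 7], [1, 3, 6, 8]] [(.mj 3 4, 12), (.mj 5 7, 3), (.mj 5 8, 11), (.hz 19 5, 137), (.hz 19 7, 432), (.hz 19 15, 776), (.hz 19 79, 1176), (.hz 19 95, 2087), (.hz 16 159, 7124), (.hz 17 223, 4713)]))
(.lp [[5], [0, 2, 4, 7], [1, 3, 6, 8]] [(.mj 3 4, 2216), (.mj 4 6, 2009), (.mj 6 5, 2146), (.rw 6, 1), (.hz 18 79, 3565950), (.hz 16 159, 6310839)]))
(.lp [[5], [0, 2, 4, 7], [1, 3, 6, 8]] [(.mj 3 4, 1), (.mj 5 7, 8), (.mj 6 5, 15), (.hz 17 95, 2386), (.hz 16 159, 41262), (.hz 14 351, 4040)]))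
(.lp [[5], [0, 2, 4, 7], [1, 3, 6, 8]] [(.mj 3 4, 6), (.mj 5 7, 31), (.mj 5 8, 29), (.hz 16 5, 1619), (.hz 16 7, 5038), (.hz 16 21, 1011), (.hz 16 15, 23525), (.hz 16 23, 4354), (.hz 16 31, 40198), (.hz 9 223, 7298), (.hz 14 351, 42790)]))
(.lp [[5], [0, 2, 4, 7], [1, 3, 6, 8]] [(.mj 5 7, 4), (.mj 6 5, 7), (.hz 15 95, 13179), (.hz 9 223, 3437), (.hz 14 351, 2169)]))
(.lp [[5], [0, 2, 4, 7], [1, 3, 6, 8]] [(.mj 4 6, 4), (.mj 5 8, 3), (.mj 6 5, 4), (.hz 14 21, 133), (.hz 14 23, 539), (.hz 14 31, 1232), (.hz 14 95, 1260)]))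
(.lp [[5], [0, 2, 4, 7], [1, 3, 6, 8]] [(.mj 5 7, 187), (.mj 5 8, 366), (.rw 6, 2), (.hz 13 95, 3656092), (.hz 9 223, 46873)]))
(.haz 4 111 3 5
(.haz 5 23 1 10
(.lp [[5], [0, 2, 4, 7], [1, 3, 6, 8]] [(.mj 3 4, 8), (.mj 7 5, 5), (.mj 7 8, 1), (.hz 14 23, 5371), (.hz 14 31, 2745), (.hz 14 151, 2844), (.hz 14 95, 3050), (.hz 14 159, 1867), (.hz 14 351, 8669)])
(.haz 5 31 1 10
(.lp [[5], [0, 2, 4, 7], [1, 3, 6, 8]] [(.mj 3 4, 37), (.mj 7 5, 14), (.mj 7 8, 6), (.hz 14 5, 412), (.hz 14 7, 3814), (.hz 15 31, 30938), (.hz 15 159, 41836), (.hz 13 111, 10067), (.hz 15 351, 34900)])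
(.cut 5 [(0, 1), (1, 1), (2, 1), (3, 1), (5, 1), (7, 1), (11, 1), (21, 1), (15, 1), (23, 1), (75, 1), (31, 1), (79, 1), (95, 1)]
(.lp [[5], [0, 2, 4, 7], [1, 3, 6, 8]] [(.mj 3 4, 4368), (.mj 7 8, 826), (.hz 14 5, 113732), (.hz 14 7, 353834), (.hz 15 15, 643371), (.hz 13 111, 2690417), (.hz 9 223, 134749), (.rw 7, 2)]))))
(.lp [[5], [0, 2, 4, 7], [1, 3, 6, 8]] [(.mj 3 4, 5), (.mj 7 5, 3), (.hz 12 47, 6704), (.hz 13 79, 10383), (.hz 12 111, 3448)]))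
(.ask 351
(.mark 351 [5, 7, 9]
(.spn
(.lp [[5], [0, 2, 4, 7], [1, 3, 6, 8, 9]] [(.mj 8 5, 256), (.rw 7, 1)])
(.cut 5 [(0, 1), (1, 1), (2, 1), (3, 1), (5, 1), (7, 1), (11, 1), (21, 1), (15, 1), (23, 1), (75, 1), (31, 1), (79, 1), (95, 1), (351, 1)]
(.lp [[5], [0, 2, 4, 7], [1, 3, 6, 8, 9]] [(.mj 7 5, 1923), (.mj 7 9, 1923), (.mj 8 7, 4037), (.rw 7, 1), (.hz 3 181, 45086), (.rw 8, 7)]))
(.ask 863
(.mark 863 [5, 7, 10]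
(.spn
(.lp [[5], [0, 2, 4, 7], [1, 3, 6, 8, 9, 10]] [(.mj 9 5, 143), (.rw 8, 1)])
(.lp [[5], [0, 2, 4, 7], [1, 3, 6, 8, 9, 10]] [(.mj 9 7, 552), (.rw 8, 1)])
(.maj 5 7
(.cut 5 [(0, 1), (1, 1), (2, 1), (3, 1), (5, 1), (7, 1), (11, 1), (21, 1), (15, 1), (23, 1), (75, 1), (31, 1), (79, 1), (95, 1), (351, 1)]
(.lp [[5], [0, 2, 4, 7], [1, 3, 6, 8, 9, 10]] [(.mj 10 5, 1136), (.rw 9, 4)]))
(.cut 5 [(0, 1), (1, 1), (2, 1), (3, 1), (5, 1), (7, 1), (11, 1), (21, 1), (15, 1), (23, 1), (75, 1), (31, 1), (79, 1), (95, 1), (351, 1)]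
(.cut 7 [(0, 1), (1, 1), (2, 1), (3, 1), (5, 1), (7, 1), (11, 1), (21, 1), (15, 1), (23, 1), (75, 1), (31, 1), (79, 1)]
(.cut 5 [(0, 1), (1, 1), (2, 1), (3, 1), (5, 1), (7, 1), (11, 1), (21, 1), (15, 1), (23, 1), (75, 1), (149, 1), (31, 1), (79, 1), (151, 1), (95, 1), (351, 1), (863, 1)]
(.cut 7 [(0, 1), (1, 1), (2, 1), (3, 1), (5, 1), (7, 1), (11, 1), (21, 1), (15, 1), (23, 1), (75, 1), (31, 1), (79, 1), (95, 1)]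
(.cut 7 [(0, 1), (1, 1), (2, 1), (3, 1), (5, 1), (7, 1), (11, 1), (21, 1), (15, 1), (23, 1), (75, 1), (31, 1), (79, 1), (95, 1), (351, 1)]
(.lp [[5], [0, 2, 4, 7], [1, 3, 6, 8, 9, 10]] [(.mj 4 6, 20660), (.mj 10 7, 4867), (.rw 8, 7), (.hz 3 181, 125011), (.hz 9 95, 6318837), (.hz 10 191, 10459291), (.rw 9, 11), (.rw 10, 8), (.rw 11, 3), (.rw 12, 15), (.rw 13, 10)])))))))
.fin))
(.lp [[5], [0, 2, 4, 7], [1, 3, 6, 8, 9]] [(.mj 9 7, 1), (.rw 7, 1)]))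
.fin))
(.lp [[5], [0, 2, 4, 7], [1, 3, 6, 8]] [(.mj 8 7, 1), (.rw 6, 1)]))
.fin))
(.spn
(.lp [[5], [1, 3, 6], [0, 2, 4, 7]] [(.mj 4 5, 1), (.mj 5 7, 3), (.mj 6 5, 4)])
(.lp [[5], [1, 3, 6], [0, 2, 4, 7]] [(.mj 1 2, 3), (.mj 3 4, 10), (.mj 7 5, 3), (.hz 11 39, 1575), (.hz 12 47, 7500), (.hz 12 111, 375), (.hz 9 223, 2037)])
.fin
.fin))
(.lp [[5], [1, 3, 6], [0, 2, 4, 7]] [(.mj 4 5, 2), (.hz 12 5, 50), (.hz 12 15, 1950), (.hz 3 149, 14), (.hz 6 151, 364)]))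

theorem run82 : run P3488 (leaf3 218 625) (cutRow P3488) [] t82 s82 = true := by
  decide +kernel

theorem bad82 : Bad P3488 s82 :=
  run_sound (leaf3_sound P3488 rfl rfl) (cutRow_sound P3488) (
    fun _ h => absurd h List.not_mem_nil) t82 s82 run82

/-- the state above piece 221 of the tree -/
def s221 : St := ⟨[0, 0, 1, 3, 5, 15, 23, 47, 47, 127, 255], [639, 255, 191, 175, 127, 95, 87, 63, 31, 23, 21, 15, 11, 7, 5, 3, 2, 1, 0], [0, 1, 2, 3, 4, 5, 6, 7, 9],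
  [(5, 6), (4, 5)],
  [⟨true, 2, 3, 3, 10⟩, ⟨true, 1, 5, 2, 5⟩, ⟨true, 2, 3, 23, 50⟩, ⟨true, 1, 5, 12, 25⟩, ⟨true, 1, 21, 27, 50⟩, ⟨true, 4, 15, 9, 40⟩, ⟨true, 3, 23, 11, 20⟩, ⟨true, 4, 47, 7, 20⟩, ⟨true, 4, 47, 17, 40⟩, ⟨true, 4, 47, 9, 20⟩, ⟨true, 4, 47, 19, 40⟩, ⟨true, 5, 95, 1, 5⟩, ⟨true, 5, 95, 3, 10⟩, ⟨true, 5, 31, 3, 10⟩, ⟨true, 5, 95, 11, 25⟩, ⟨true, 6, 63, 3, 20⟩, ⟨true, 8, 255, 1, 50⟩, ⟨true, 6, 319, 13, 40⟩, ⟨true, 6, 191, 13, 40⟩, ⟨true, 7, 383, 3, 40⟩, ⟨true, 8, 191, 1, 20⟩, ⟨true, 6, 319, 17, 40⟩, ⟨true, 6, 319, 19, 40⟩, ⟨true, 7, 639, 7, 40⟩, ⟨true, 7, 319, 7, 40⟩, ⟨true, 8, 255, 3, 40⟩, ⟨true, 9, 1279, 11, 40⟩],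
  [.spn 0 0 651200, .spn 1 1 302400, .spn 3 2 302400, .spn 7 3 302400, .spn 15 4 302400, .spn 31 5 302400, .spn 63 6 140426, .spn 127 7 140426, .spn 255 9 140426]⟩

/-- piece 221 of the tree -/
noncomputable def t221 : WN.Tree :=
(.haz 7 319 1 4
(.ask 767
(.mark 767 [8, 10, 11]
(.spn
(.ask 2815
(.haz 10 6911 2 25
(.haz 10 6911 7 50
(.haz 10 6911 9 50
(.haz 10 2815 13 50
(.mark 2815 [8, 10, 12]
(.lp [[8], [1, 3, 5, 7, 10], [0, 2, 4, 6, 9, 11, 12]] [(.mj 3 4, 53), (.mj 8 10, 30), (.mj 8 11, 12), (.mj 9 8, 51), (.hz 25 1279, 36883), (.hz 31 2815, 38315), (.hz 31 3071, 27457), (.hz 31 6911, 27457)]))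
(.haz 11 1791 12 25
(.haz 10 1023 1 5
(.lp [[8], [1, 3, 5, 7, 10], [0, 2, 4, 6, 9, 11, 12]] [(.mj 3 4, 112), (.mj 8 11, 76), (.mj 9 8, 101), (.hz 31 255, 48068), (.hz 31 767, 15053), (.hz 33 1023, 1016555), (.hz 32 1791, 225608)])
(.lp [[8], [1, 3, 5, 7, 10], [0, 2, 4, 6, 9, 11, 12]] [(.mj 3 4, 26), (.mj 8 11, 14), (.mj 9 8, 22), (.hz 33 255, 70542), (.hz 33 767, 28154), (.hz 25 1279, 29889), (.hz 32 1791, 42196)]))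
(.lp [[8], [1, 3, 5, 7, 10], [0, 2, 4, 6, 9, 11, 12]] [(.mj 3 4, 14), (.mj 9 8, 8), (.hz 31 255, 1069), (.hz 31 767, 9344), (.hz 32 767, 18688), (.hz 25 1279, 14369)])))
(.mark 2815 [8, 10, 12]
(.lp [[8], [1, 3, 5, 7, 10], [0, 2, 4, 6, 9, 11, 12]] [(.mj 3 4, 181), (.mj 8 11, 77), (.mj 9 8, 139), (.hz 30 255, 38204), (.hz 30 767, 84180), (.hz 25 1279, 204555), (.hz 25 1791, 18818), (.hz 25 3839, 134418), (.hz 29 6911, 107534)])))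
(.mark 2815 [8, 10, 12]
(.lp [[8], [1, 3, 5, 7, 10], [0, 2, 4, 6, 9, 11, 12]] [(.mj 3 4, 8), (.mj 8 11, 4), (.mj 9 8, 7), (.hz 29 255, 1912), (.hz 29 767, 4072), (.hz 25 1279, 9769), (.hz 25 1791, 553), (.hz 28 6911, 11058)])))
(.lp [[8], [1, 3, 5, 7, 10], [0, 2, 4, 6, 9, 11, 12]] [(.mj 3 4, 9), (.mj 8 11, 5), (.mj 9 8, 8), (.hz 28 255, 6044), (.hz 28 767, 9477)]))
(.lp [[8], [1, 3, 5, 7, 10], [0, 2, 4, 6, 9, 11]] [(.mj 3 4, 7), (.mj 8 10, 2), (.mj 9 8, 5), (.hz 25 1279, 8379), (.hz 25 1791, 2628)]))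
(.haz 4 303 14 25
(.haz 8 191 3 25
(.lp [[8], [1, 3, 5, 7, 10], [0, 2, 4, 6, 9, 11]] [(.mj 3 4, 81), (.mj 9 10, 17), (.mj 10 8, 53), (.hz 29 191, 18337), (.hz 29 255, 75847), (.hz 29 767, 141199), (.hz 29 1279, 72322), (.hz 29 2815, 96275)])
(.haz 6 319 1 2
(.haz 8 255 1 10
(.maj 8 11
(.ask 1279
(.mark 1791 [8, 11, 12]
(.spn
(.ask 303
(.mark 2047 [11, 12, 13]
(.lp [[8, 13], [0, 2, 4, 6, 9, 11], [1, 3, 5, 7, 10, 12]] [(.mj 3 4, 2562), (.mj 8 11, 52), (.mj 9 10, 395), (.mj 10 8, 813), (.rw 10, 2), (.hz 28 8495, 120589), (.hz 28 8623, 106119), (.hz 31 2815, 5357148)]))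
(.lp [[8], [0, 2, 4, 6, 9, 11], [1, 3, 5, 7, 10, 12]] [(.mj 3 4, 31740), (.mj 8 11, 2314), (.mj 9 10, 8075), (.mj 10 8, 10315), (.rw 10, 13), (.hz 29 175, 1898303), (.hz 29 191, 258860), (.hz 31 2815, 120942144), (.hz 31 5375, 117719517)]))
(.con 11 8)
(.lp [[8], [0, 2, 4, 6, 9, 11], [1, 3, 5, 7, 10, 12]] [(.mj 3 4, 18), (.mj 9 10, 1), (.mj 12 8, 6), (.hz 29 175, 439), (.hz 28 303, 689), (.hz 31 255, 19315), (.hz 31 767, 38686), (.hz 31 1279, 27857), (.hz 31 1791, 43932), (.hz 31 2815, 31730)])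
.fin))
(.ask 1791
(.mark 1791 [8, 11, 12]
(.spn
(.haz 11 5887 3 25
(.maj 11 12
(.lp [[8], [0, 2, 4, 6, 9, 11], [1, 3, 5, 7, 10, 12]] [(.mj 3 4, 96), (.mj 8 11, 32), (.mj 9 10, 2), (.mj 10 8, 56), (.mj 11 12, 22), (.hz 29 175, 2372), (.hz 28 303, 3728), (.hz 31 2815, 562917), (.hz 31 5887, 808626), (.hz 32 5887, 93977)])
(.lp [[8], [0, 2, 4, 6, 9, 11], [1, 3, 5, 7, 10, 12]] [(.mj 3 4, 45), (.mj 8 12, 14), (.mj 9 10, 1), (.mj 10 8, 26), (.mj 12 11, 10), (.hz 29 175, 1115), (.hz 28 303, 1753), (.hz 31 2815, 443976), (.hz 31 3839, 377243), (.hz 32 5887, 69110)]))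
(.lp [[8], [0, 2, 4, 6, 9, 11], [1, 3, 5, 7, 10, 12]] [(.mj 3 4, 1), (.mj 8 12, 6), (.mj 9 10, 5), (.mj 10 8, 7), (.hz 32 767, 12995), (.hz 32 1791, 16499)]))
(.con 11 8)
(.lp [[8], [0, 2, 4, 6, 9, 11], [1, 3, 5, 7, 10, 12]] [(.mj 3 4, 4), (.mj 12 8, 1), (.hz 29 175, 112), (.hz 28 303, 176), (.hz 30 319, 1597), (.hz 31 255, 3148), (.hz 31 767, 7001), (.hz 31 1279, 2101), (.hz 31 1791, 6965), (.hz 31 2815, 1053)])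
.fin))
(.lp [[8], [1, 3, 5, 7, 10], [0, 2, 4, 6, 9, 11]] [(.mj 8 11, 1), (.mj 10 8, 1)])))
(.lp [[8], [1, 3, 5, 7, 10], [0, 2, 4, 6, 9, 11]] [(.mj 3 4, 73), (.mj 9 10, 5), (.mj 10 11, 3), (.mj 11 8, 24), (.hz 29 175, 1797), (.hz 28 303, 2824), (.hz 31 255, 79127), (.hz 31 767, 158489), (.hz 31 1279, 114125), (.hz 31 1791, 179978), (.hz 31 2815, 50663)]))
(.cut 8 [(0, 1), (1, 1), (2, 1), (3, 1), (5, 1), (7, 1), (11, 1), (21, 1), (15, 1), (23, 1), (31, 1), (47, 1), (87, 1), (63, 1), (95, 1), (175, 1), (127, 1), (191, 1), (255, 1), (639, 1), (767, 1)]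
(.lp [[8], [1, 3, 5, 7, 10], [0, 2, 4, 6, 9, 11]] [(.mj 3 4, 481380), (.mj 9 10, 18239), (.hz 31 47, 60239511), (.hz 31 63, 7481058), (.hz 31 175, 66932791), (.hz 31 191, 116848192), (.hz 30 319, 307495242), (.hz 31 255, 61499048), (.hz 25 1279, 30209012), (.rw 10, 8)])))
(.lp [[8], [1, 3, 5, 7, 10], [0, 2, 4, 6, 9, 11]] [(.mj 6 7, 5), (.mj 9 10, 1), (.hz 29 47, 327), (.hz 30 63, 79802), (.hz 29 63, 3985), (.hz 22 319, 699), (.hz 25 767, 699), (.hz 25 1279, 1862)])))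
(.lp [[8], [1, 3, 5, 7, 10], [0, 2, 4, 6, 9, 11]] [(.mj 4 5, 18), (.mj 10 8, 1), (.hz 28 47, 4098), (.hz 10 303, 1051), (.hz 10 431, 1051), (.hz 22 447, 552)]))
(.haz 8 63 1 10
(.lp [[8], [1, 3, 5, 7, 10], [0, 2, 4, 6, 9, 11]] [(.mj 3 4, 7), (.mj 11 8, 4), (.hz 28 63, 2024), (.hz 28 127, 6297), (.hz 28 191, 2249), (.hz 28 255, 9495), (.hz 28 639, 6996), (.hz 28 767, 18324), (.hz 28 1279, 11487), (.hz 26 1279, 767), (.hz 28 1791, 29716)])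
(.lp [[8], [1, 3, 5, 7, 10], [0, 2, 4, 6, 9, 11]] [(.mj 3 4, 3173456), (.mj 6 7, 324709), (.mj 11 10, 7813), (.rw 9, 31), (.hz 28 47, 685439410), (.hz 22 319, 45128477), (.hz 25 767, 153001531), (.hz 25 1279, 17091791), (.hz 26 1279, 68134446), (.hz 25 1791, 34916088)]))
.fin))
(.spn
(.lp [[8], [0, 2, 4, 6, 9], [1, 3, 5, 7, 10]] [(.mj 8 10, 2), (.mj 9 8, 3)])
(.haz 8 1279 1 10
(.lp [[8], [0, 2, 4, 6, 9], [1, 3, 5, 7, 10]] [(.mj 9 10, 235), (.mj 10 8, 126), (.hz 28 1279, 2631412)])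
(.cut 8 [(0, 1), (1, 1), (2, 1), (3, 1), (5, 1), (7, 1), (11, 1), (21, 1), (15, 1), (23, 1), (31, 1), (47, 1), (87, 1), (63, 1), (95, 1), (175, 1), (127, 1), (191, 1), (255, 1), (639, 1), (767, 1)]
(.lp [[8], [0, 2, 4, 6, 9], [1, 3, 5, 7, 10]] [(.mj 3 4, 18991), (.mj 9 10, 2509), (.hz 28 47, 2538189), (.hz 28 63, 2113611), (.hz 28 175, 2820210), (.hz 28 191, 5482024), (.hz 28 255, 2885276), (.rw 10, 2)])))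
.fin
.fin))
(.lp [[8], [0, 2, 4, 6, 9], [1, 3, 5, 7, 10]] [(.mj 3 4, 107), (.mj 7 9, 32), (.mj 9 8, 75), (.hz 27 63, 1002183), (.hz 22 319, 8490), (.hz 24 319, 81860), (.hz 24 383, 76894)]))

theorem run221 : run P3488 (leaf3 218 625) (cutRow P3488) [] t221 s221 = true := by
  decide +kernel

theorem bad221 : Bad P3488 s221 :=
  run_sound (leaf3_sound P3488 rfl rfl) (cutRow_sound P3488) (
    fun _ h => absurd h List.not_mem_nil) t221 s221 run221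

/-- the state above piece 8 of the tree -/
def s8 : St := ⟨[0, 0, 1, 1, 2, 7, 13, 39, 167], [47, 15, 7, 5, 9, 3, 1, 0], [0, 1, 2, 3, 5, 7],
  [],
  [⟨true, 1, 9, 7, 50⟩, ⟨true, 2, 11, 3, 50⟩, ⟨true, 2, 9, 9, 50⟩, ⟨true, 3, 3, 1, 5⟩, ⟨true, 5, 23, 9, 25⟩, ⟨true, 4, 175, 1, 25⟩, ⟨true, 6, 175, 1, 20⟩],
  [.spn 0 0 651200, .spn 1 1 140426, .spn 3 2 140426, .spn 7 3 62723, .spn 15 5 140426, .spn 47 7 140426]⟩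

/-- piece 8 of the tree -/
noncomputable def t8 : WN.Tree :=
(.mark 175 [4, 6, 8]
(.spn
(.haz 6 175 3 20
(.lp [[1, 4], [3, 6], [0, 2, 5, 7, 8]] [(.mj 3 5, 5793), (.mj 4 6, 8435), (.mj 4 8, 2642), (.mj 7 4, 8435), (.rw 6, 4), (.hz 7 175, 1916927), (.hz 7 191, 10886977), (.hz 5 431, 1105394), (.hz 7 431, 7370240)])
(.lp [[1, 4], [3, 6], [0, 2, 5, 7, 8]] [(.mj 3 5, 1171), (.mj 7 4, 562), (.rw 6, 1), (.hz 7 13, 37876), (.hz 7 15, 158186), (.hz 7 47, 113759), (.hz 7 175, 61491)]))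
(.haz 4 7 1 10
(.lp [[1, 4], [3, 6], [0, 2, 5, 7, 8]] [(.mj 1 2, 32), (.mj 3 5, 89), (.mj 6 4, 105), (.mj 7 6, 73), (.hz 7 7, 2223), (.hz 7 15, 6916), (.hz 7 39, 58134), (.hz 7 47, 35169), (.hz 7 79, 90902), (.hz 7 167, 27484), (.hz 7 111, 216627), (.hz 7 175, 69615), (.hz 7 423, 30538), (.hz 7 431, 111281)])
(.haz 4 47 1 10
(.lp [[1, 4], [3, 6], [0, 2, 5, 7, 8]] [(.mj 3 5, 4150), (.mj 6 4, 4708), (.mj 6 8, 558), (.mj 7 6, 4708), (.rw 6, 1), (.hz 8 47, 3458006), (.hz 8 111, 20865002), (.hz 8 175, 5571232), (.hz 8 431, 11718798)])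
(.haz 5 23 9 20
(.ask 77
(.mark 239 [4, 8, 9]
(.spn
(.lp [[1, 4], [3, 6, 9], [0, 2, 5, 7, 8]] [(.mj 4 8, 290), (.mj 6 4, 290), (.mj 7 6, 597), (.rw 6, 1), (.rw 7, 1)])
(.ask 423
(.mark 495 [4, 9, 10]
(.cut 4 [(0, 1), (1, 1), (2, 1), (3, 1), (5, 1), (9, 1), (7, 1), (11, 1), (13, 1), (15, 1), (39, 1), (77, 1), (47, 1), (79, 1), (167, 1), (589, 1), (111, 1), (175, 1), (423, 1), (239, 1), (431, 1)]
(.lp [[1, 4], [3, 6, 9], [0, 2, 5, 7, 8, 10]] [(.mj 1 2, 18085), (.mj 3 5, 696), (.mj 6 8, 3556), (.mj 7 6, 2195), (.mj 8 4, 2896), (.hz 7 2, 415715), (.hz 7 3, 877621), (.hz 8 11, 1390850), (.hz 9 23, 134960), (.hz 5 1455, 3249525), (.rw 8, 7)])))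
(.ask 431
(.mark 495 [4, 9, 10]
(.cut 4 [(0, 1), (1, 1), (2, 1), (3, 1), (5, 1), (9, 1), (7, 1), (11, 1), (13, 1), (15, 1), (39, 1), (77, 1), (47, 1), (167, 1), (589, 1), (175, 1)]
(.cut 4 [(0, 1), (1, 1), (2, 1), (3, 1), (5, 1), (9, 1), (7, 1), (11, 1), (13, 1), (15, 1), (39, 1), (77, 1), (47, 1), (79, 1), (167, 1), (589, 1), (111, 1), (175, 1), (239, 1)]
(.lp [[1, 4], [3, 6, 9], [0, 2, 5, 7, 8, 10]] [(.mj 1 2, 129287), (.mj 3 5, 4661), (.mj 6 8, 25894), (.mj 7 6, 15270), (.mj 8 4, 20421), (.hz 7 2, 2970853), (.hz 7 3, 6271801), (.hz 7 7, 87385), (.hz 8 11, 9939521), (.hz 9 23, 873853), (.hz 5 1455, 21854278), (.rw 8, 39), (.rw 9, 11)]))))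
(.cut 4 [(0, 1), (1, 1), (2, 1), (3, 1), (5, 1), (9, 1), (7, 1), (11, 1), (13, 1), (15, 1), (39, 1), (77, 1), (47, 1), (79, 1), (167, 1), (111, 1), (175, 1), (423, 1), (239, 1), (431, 1)]
(.lp [[1, 4], [3, 6, 9], [0, 2, 5, 7, 8]] [(.mj 1 2, 1268), (.mj 3 5, 23), (.mj 6 8, 70), (.mj 7 6, 692), (.mj 8 4, 330), (.hz 7 2, 28786), (.hz 7 3, 60770), (.hz 7 7, 8240), (.hz 8 11, 96309), (.hz 0 589, 66974), (.rw 8, 1)]))))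
(.lp [[1, 4], [3, 6, 9], [0, 2, 5, 7, 8]] [(.mj 7 6, 1045), (.mj 9 4, 507), (.mj 9 8, 507), (.rw 6, 1)])
.fin))
(.maj 4 8
(.cut 4 [(0, 1), (1, 1), (2, 1), (3, 1), (5, 1), (9, 1), (7, 1), (11, 1), (13, 1), (15, 1), (39, 1), (77, 1), (47, 1), (167, 1), (175, 1)]
(.lp [[1, 4], [3, 6], [0, 2, 5, 7, 8]] [(.mj 7 6, 1216), (.rw 6, 1), (.rw 7, 2)]))
(.cut 4 [(0, 1), (1, 1), (2, 1), (3, 1), (5, 1), (9, 1), (7, 1), (11, 1), (13, 1), (15, 1), (39, 1), (77, 1), (47, 1), (167, 1), (175, 1)]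
(.lp [[1, 4], [3, 6], [0, 2, 5, 7, 8]] [(.mj 3 5, 344), (.mj 6 4, 306), (.mj 6 8, 1324), (.mj 7 6, 2358), (.mj 8 4, 1067), (.hz 7 2, 7575), (.hz 7 3, 15991), (.hz 7 7, 25343), (.hz 8 11, 25343), (.hz 9 31, 71468), (.hz 9 95, 155661), (.rw 7, 4)]))))
(.lp [[1, 4], [3, 6], [0, 2, 5, 7, 8]] [(.mj 2 3, 2), (.mj 7 6, 1), (.hz 7 2, 73), (.hz 7 3, 154), (.hz 7 7, 671), (.hz 9 7, 426), (.hz 8 47, 181)]))))
(.haz 4 7 1 10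
(.lp [[1, 4], [3, 6], [0, 2, 5, 7, 8]] [(.mj 1 2, 3), (.mj 3 5, 4), (.mj 8 4, 5), (.mj 8 6, 2), (.hz 7 7, 216), (.hz 7 15, 671), (.hz 7 39, 2592), (.hz 7 47, 2057), (.hz 7 79, 8818), (.hz 7 167, 1312), (.hz 4 95, 3991), (.hz 7 111, 775), (.hz 7 175, 3804), (.hz 6 175, 543), (.hz 7 423, 446)])
(.maj 4 6
(.cut 4 [(0, 1), (1, 1), (2, 1), (3, 1), (5, 1), (9, 1), (7, 1), (11, 1), (13, 1), (15, 1), (39, 1), (47, 1), (167, 1), (175, 1)]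
(.lp [[1, 4], [3, 6], [0, 2, 5, 7, 8]] [(.mj 1 2, 1069), (.mj 2 3, 178), (.mj 3 5, 678), (.mj 4 6, 146), (.mj 8 4, 290), (.hz 7 2, 30520), (.hz 7 3, 95782), (.hz 6 175, 37827), (.hz 6 191, 1448655), (.hz 6 431, 77646), (.rw 7, 1)]))
(.haz 4 47 1 10
(.cut 4 [(0, 1), (1, 1), (2, 1), (3, 1), (5, 1), (9, 1), (7, 1), (11, 1), (13, 1), (15, 1), (39, 1), (77, 1), (47, 1), (79, 2), (167, 1), (111, 1), (175, 1), (239, 1)]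
(.cut 6 [(0, 1), (1, 1), (2, 1), (3, 1), (5, 1), (9, 1), (7, 1), (11, 1), (13, 1), (15, 1), (39, 1), (47, 1), (167, 1), (175, 1), (423, 1)]
(.cut 4 [(0, 1), (1, 1), (2, 1), (3, 1), (5, 1), (9, 1), (7, 1), (11, 1), (13, 1), (15, 1), (39, 1), (77, 1), (47, 1), (167, 1), (175, 1)]
(.lp [[1, 4], [3, 6], [0, 2, 5, 7, 8]] [(.mj 1 2, 1356980), (.mj 2 3, 226163), (.mj 3 5, 751086), (.mj 6 4, 467147), (.mj 8 6, 284700), (.hz 7 2, 38737886), (.hz 7 3, 121571025), (.hz 8 47, 546322952), (.hz 4 95, 111381228), (.hz 8 175, 881270530), (.hz 6 175, 67693256), (.hz 6 191, 300178104), (.hz 8 431, 317650561), (.rw 7, 16), (.rw 8, 58), (.rw 9, 440)]))))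
(.ask 18
(.mark 191 [6, 8, 9]
(.cut 4 [(0, 1), (1, 1), (2, 1), (3, 1), (5, 1), (9, 1), (7, 1), (11, 1), (13, 1), (15, 1), (39, 1), (77, 1), (47, 1)]
(.cut 6 [(0, 1), (1, 1), (2, 1), (3, 1), (5, 1), (9, 1), (7, 1), (11, 1), (13, 1), (15, 1), (39, 1), (47, 1), (167, 1), (175, 1), (423, 1)]
(.lp [[3, 6], [1, 4, 9], [0, 2, 5, 7, 8]] [(.mj 1 2, 6274), (.mj 3 5, 6424), (.mj 8 6, 2521), (.hz 7 2, 741919), (.hz 8 11, 2349126), (.hz 4 31, 38795), (.hz 4 535, 2413325), (.hz 4 95, 1250768), (.rw 7, 2), (.rw 8, 1)]))))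
(.cut 4 [(0, 1), (1, 1), (2, 1), (3, 1), (5, 1), (9, 1), (7, 1), (11, 1), (13, 1), (15, 1), (39, 1), (77, 1), (47, 1), (79, 2), (167, 1), (111, 1), (175, 1), (239, 1)]
(.cut 6 [(0, 1), (1, 1), (2, 1), (3, 1), (5, 1), (9, 1), (7, 1), (11, 1), (13, 1), (15, 1), (39, 1), (47, 1), (167, 1), (175, 1), (423, 1)]
(.cut 4 [(0, 1), (1, 1), (2, 1), (3, 1), (5, 1), (9, 1), (7, 1), (11, 1), (13, 1), (15, 1), (39, 1), (77, 1), (47, 1), (167, 1), (175, 1)]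
(.lp [[1, 4], [3, 6], [0, 2, 5, 7, 8]] [(.mj 1 2, 418488), (.mj 3 5, 292495), (.mj 8 6, 91528), (.hz 7 3, 54072481), (.hz 7 7, 12351210), (.hz 8 11, 60080534), (.hz 8 15, 77072325), (.hz 4 23, 18667646), (.hz 4 95, 46814301), (.hz 5 239, 141175567), (.rw 7, 5), (.rw 8, 47), (.rw 9, 151)]))))))))
.fin))

theorem run8 : run P3488 (leaf3 218 625) (cutRow P3488) [] t8 s8 = true := by
  decide +kernel

theorem bad8 : Bad P3488 s8 :=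
  run_sound (leaf3_sound P3488 rfl rfl) (cutRow_sound P3488) (
    fun _ h => absurd h List.not_mem_nil) t8 s8 run8

/-- the state above piece 84 of the tree -/
def s84 : St := ⟨[0, 0, 1, 3, 5, 5, 11, 23, 75], [159, 151, 95, 31, 21, 15, 7, 3, 2, 1, 0], [0, 1, 2, 3, 4, 6, 7],
  [],
  [⟨true, 2, 3, 3, 10⟩, ⟨true, 1, 5, 2, 5⟩, ⟨true, 2, 3, 23, 50⟩, ⟨true, 1, 5, 12, 25⟩, ⟨true, 2, 11, 12, 25⟩, ⟨true, 4, 79, 11, 50⟩, ⟨true, 5, 31, 1, 50⟩, ⟨true, 3, 39, 7, 25⟩, ⟨true, 5, 31, 1, 25⟩, ⟨false, 5, 23, 3, 25⟩, ⟨true, 4, 39, 13, 50⟩, ⟨true, 6, 47, 13, 50⟩, ⟨true, 6, 47, 3, 10⟩, ⟨true, 4, 39, 8, 25⟩, ⟨true, 4, 47, 2, 5⟩, ⟨true, 6, 47, 17, 50⟩, ⟨true, 5, 351, 3, 50⟩, ⟨true, 4, 39, 17, 50⟩, ⟨true, 7, 351, 17, 50⟩, ⟨true, 4, 47, 11, 25⟩],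
  [.spn 0 0 651200, .spn 1 1 302400, .spn 3 2 302400, .spn 7 3 140426, .spn 15 4 140426, .spn 31 6 140426, .spn 95 7 140426]⟩

/-- piece 84 of the tree -/
noncomputable def t84 : WN.Tree :=
(.ask 223
(.mark 223 [5, 8, 9]
(.spn
(.ask 37
(.mark 47 [4, 6, 10]
(.lp [[5, 10], [1, 3, 6, 8], [0, 2, 4, 7, 9]] [(.mj 3 4, 11089), (.mj 4 6, 5516), (.mj 5 8, 404), (.mj 7 5, 518), (.rw 7, 2), (.hz 3 1061, 281362), (.hz 17 1063, 1930184), (.hz 19 1071, 119582), (.hz 15 1071, 988122), (.hz 15 1087, 29307), (.hz 16 351, 272208), (.hz 18 351, 146417)]))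
(.ask 39
(.mark 111 [4, 8, 10]
(.lp [[5, 10], [1, 3, 6, 8], [0, 2, 4, 7, 9]] [(.mj 3 4, 10106), (.mj 4 6, 4874), (.mj 5 8, 391), (.mj 7 5, 285), (.rw 7, 2), (.hz 9 23, 187586), (.hz 17 1063, 1484222), (.hz 19 1071, 193633), (.hz 15 1071, 770675), (.hz 16 351, 99829), (.hz 18 351, 141897)]))
(.ask 47
(.mark 255 [8, 9, 10]
(.spn
(.lp [[5, 10], [1, 3, 6, 8], [0, 2, 4, 7, 9]] [(.mj 5 8, 469), (.mj 7 5, 938), (.mj 8 9, 469), (.rw 7, 2)])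
(.haz 8 223 6 25
(.lp [[5, 10], [1, 3, 6, 8], [0, 2, 4, 7, 9]] [(.mj 3 4, 2), (.mj 4 6, 1), (.mj 5 8, 1), (.mj 5 9, 1), (.mj 7 5, 2), (.mj 9 8, 1), (.hz 15 47, 188), (.hz 19 1071, 236), (.hz 20 223, 173), (.hz 19 1135, 6), (.hz 20 255, 5189), (.hz 20 735, 2254)])
(.lp [[5, 10], [1, 3, 6, 8], [0, 2, 4, 7, 9]] [(.mj 3 4, 9352), (.mj 4 6, 1589), (.mj 7 5, 1118), (.rw 7, 4), (.hz 20 75, 146798), (.hz 20 79, 560152), (.hz 20 95, 601333), (.hz 19 1071, 1381718), (.hz 16 351, 229062), (.hz 19 367, 825876), (.hz 19 1135, 585182)]))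
(.lp [[5, 10], [1, 3, 6, 8], [0, 2, 4, 7, 9]] [(.mj 7 5, 456), (.mj 10 8, 251), (.mj 10 9, 251), (.rw 7, 1)])
.fin))
(.lp [[5], [1, 3, 6, 8], [0, 2, 4, 7, 9]] [(.mj 3 4, 12351), (.mj 4 6, 6444), (.mj 5 8, 367), (.mj 7 5, 491), (.rw 7, 2), (.hz 16 351, 278581), (.hz 18 351, 133202)]))))
(.haz 5 7 1 10
(.lp [[5], [1, 3, 6, 8], [0, 2, 4, 7, 9]] [(.mj 4 6, 5), (.mj 8 5, 8), (.hz 20 7, 821), (.hz 20 15, 1118), (.hz 20 23, 1323), (.hz 20 31, 2301), (.hz 20 79, 7535), (.hz 20 151, 1059), (.hz 20 95, 7620), (.hz 20 159, 3734), (.hz 20 335, 1375), (.hz 20 223, 12616), (.hz 20 351, 1402), (.hz 20 735, 14018)])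
(.haz 5 95 1 10
(.lp [[5], [1, 3, 6, 8], [0, 2, 4, 7, 9]] [(.mj 3 4, 82), (.mj 4 6, 133), (.mj 8 5, 116), (.hz 21 95, 314776), (.hz 21 223, 372572), (.hz 21 351, 163787), (.hz 21 735, 209259)])
(.haz 7 63 8 25
(.ask 37
(.mark 63 [6, 7, 10]
(.cut 5 [(0, 1), (1, 1), (2, 1), (3, 1), (5, 1), (7, 1), (11, 1), (21, 1), (15, 1), (23, 1), (75, 1), (31, 1), (79, 1), (151, 1), (331, 1), (95, 1), (159, 1), (223, 1)]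
(.lp [[5, 10], [1, 3, 6, 8], [0, 2, 4, 7, 9]] [(.mj 3 4, 24572), (.mj 4 6, 15639), (.mj 8 5, 8), (.hz 20 5, 16090), (.hz 3 1061, 713300), (.hz 17 1063, 3089496), (.hz 22 63, 2565856), (.hz 19 1071, 2349691), (.hz 15 1071, 3081205), (.hz 15 1087, 194342), (.hz 22 1087, 5684549), (.hz 22 1151, 1235455), (.hz 8 735, 5818), (.rw 8, 1)])))
(.ask 39
(.mark 127 [7, 8, 10]
(.cut 5 [(0, 1), (1, 1), (2, 1), (3, 1), (5, 1), (7, 1), (11, 1), (21, 1), (15, 1), (23, 1), (75, 1), (31, 1), (79, 1), (151, 1), (331, 1), (95, 1), (159, 1), (223, 1)]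
(.lp [[5, 10], [1, 3, 6, 8], [0, 2, 4, 7, 9]] [(.mj 3 4, 28137), (.mj 4 6, 17914), (.hz 17 1063, 2348100), (.hz 22 63, 2892712), (.hz 19 1071, 3064137), (.hz 15 1071, 3300547), (.hz 15 1087, 183085), (.hz 22 1087, 6821350), (.hz 22 1151, 1339362), (.hz 8 735, 57), (.rw 8, 1)])))
(.ask 47
(.maj 5 9
(.mark 255 [8, 9, 10]
(.cut 5 [(0, 1), (1, 1), (2, 1), (3, 1), (5, 1), (7, 1), (11, 1), (21, 1), (15, 1), (23, 1), (75, 1), (31, 1), (79, 1), (151, 1), (331, 1), (95, 1), (159, 1), (223, 1)]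
(.lp [[5, 10], [1, 3, 6, 8], [0, 2, 4, 7, 9]] [(.mj 0 1, 282453), (.mj 3 4, 45547), (.mj 8 5, 7218), (.hz 21 79, 28753701), (.hz 15 1071, 4692864), (.hz 15 1087, 5002305), (.hz 22 1151, 4942112), (.hz 15 1215, 3009792), (.hz 8 735, 16194701), (.rw 8, 14)])))
(.mark 255 [8, 9, 10]
(.cut 5 [(0, 1), (1, 1), (2, 1), (3, 1), (5, 1), (7, 1), (11, 1), (21, 1), (15, 1), (23, 1), (75, 1), (31, 1), (79, 1), (151, 1), (331, 1), (95, 1), (159, 1), (335, 1), (223, 1), (351, 1)]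
(.cut 5 [(0, 1), (1, 1), (2, 1), (3, 1), (5, 1), (7, 1), (11, 1), (21, 1), (15, 1), (23, 1), (75, 1), (31, 1), (79, 1), (151, 1), (331, 1), (95, 1), (159, 1), (223, 1)]
(.lp [[5, 10], [1, 3, 6, 8], [0, 2, 4, 7, 9]] [(.mj 0 1, 264224), (.mj 3 4, 39410), (.mj 6 7, 321), (.mj 8 5, 2130), (.mj 8 9, 1983), (.mj 9 5, 6895), (.hz 21 15, 5621989), (.hz 15 47, 104544), (.hz 15 1071, 729325), (.hz 15 1087, 1771455), (.rw 8, 1), (.rw 9, 13)])))))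
(.lp [[5], [1, 3, 6, 8], [0, 2, 4, 7, 9]] [(.mj 0 1, 26), (.mj 3 4, 28), (.mj 4 6, 14), (.hz 21 31, 1099), (.hz 22 63, 3840), (.hz 21 95, 1082), (.hz 16 351, 204)]))))
(.cut 5 [(0, 1), (1, 1), (2, 1), (3, 1), (5, 1), (7, 1), (11, 1), (21, 1), (15, 1), (23, 1), (75, 1), (31, 1), (79, 1), (151, 1), (331, 1), (95, 1)]
(.lp [[5], [1, 3, 6, 8], [0, 2, 4, 7, 9]] [(.mj 4 6, 5632), (.mj 8 5, 648), (.hz 20 5, 94865), (.hz 20 7, 295137), (.hz 21 21, 105406), (.hz 21 23, 609120), (.hz 21 31, 3331221), (.hz 22 31, 2588437), (.hz 15 47, 274056), (.hz 22 55, 184582), (.hz 16 351, 518545), (.rw 8, 2)])))))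
(.ask 735
(.mark 735 [5, 8, 10]
(.spn
(.lp [[5], [1, 3, 6, 8], [0, 2, 4, 7, 9, 10]] [(.mj 9 5, 131), (.rw 8, 1)])
(.lp [[5], [1, 3, 6, 8], [0, 2, 4, 7, 9, 10]] [(.mj 3 4, 29070), (.mj 9 8, 8023), (.rw 7, 3), (.rw 8, 14), (.hz 3 37, 417847), (.hz 17 39, 1499334), (.hz 19 47, 5469999), (.hz 16 351, 9654313), (.hz 16 479, 28432246), (.hz 16 991, 5665544), (.hz 8 1759, 11331089)])
(.haz 8 223 9 50
(.lp [[5], [1, 3, 6, 8], [0, 2, 4, 7, 9, 10]] [(.mj 3 4, 6507), (.mj 10 8, 1796), (.rw 8, 2), (.hz 3 37, 93536), (.hz 17 39, 335629), (.hz 19 47, 1224472), (.hz 8 159, 2070548), (.hz 8 223, 1539807), (.hz 20 223, 2069913), (.hz 16 351, 2161140), (.hz 16 479, 3232605), (.hz 8 735, 2274578), (.hz 20 735, 1788300)])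
(.cut 5 [(0, 1), (1, 1), (2, 1), (3, 1), (5, 1), (7, 1), (11, 1), (21, 1), (15, 1), (23, 1), (75, 1), (31, 1), (79, 1), (331, 1), (95, 1)]
(.lp [[5], [1, 3, 6, 8], [0, 2, 4, 7, 9, 10]] [(.mj 3 4, 3829), (.mj 10 5, 553), (.mj 10 8, 48), (.hz 3 37, 46756), (.hz 17 39, 167771), (.hz 20 75, 91778), (.hz 19 47, 1032533), (.hz 20 79, 120705), (.hz 20 95, 155095), (.hz 19 367, 249317), (.hz 18 383, 698155), (.hz 8 735, 876796), (.rw 9, 1)])))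
.fin))
(.lp [[5], [1, 3, 6, 8], [0, 2, 4, 7, 9]] [(.mj 9 8, 1), (.rw 7, 1)]))
.fin))
(.spn
(.lp [[5], [0, 2, 4, 7], [1, 3, 6, 8]] [(.mj 5 8, 2), (.mj 7 5, 3)])
(.lp [[5], [0, 2, 4, 7], [1, 3, 6, 8]] [(.mj 7 8, 5), (.mj 8 5, 3), (.hz 16 351, 5576)])
.fin
.fin))

theorem run84 : run P3488 (leaf3 218 625) (cutRow P3488) [] t84 s84 = true := by
  decide +kernel

theorem bad84 : Bad P3488 s84 :=
  run_sound (leaf3_sound P3488 rfl rfl) (cutRow_sound P3488) (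
    fun _ h => absurd h List.not_mem_nil) t84 s84 run84

/-- the state above piece 28 of the tree -/
def s28 : St := ⟨[0, 0, 1, 1, 3, 7, 15, 39], [47, 15, 13, 11, 9, 7, 5, 3, 2, 1, 0], [0, 1, 2, 3, 5, 7],
  [],
  [⟨true, 1, 9, 7, 50⟩, ⟨true, 2, 11, 3, 50⟩, ⟨true, 2, 9, 9, 50⟩, ⟨true, 3, 3, 1, 5⟩, ⟨true, 1, 5, 13, 50⟩, ⟨true, 5, 31, 1, 8⟩, ⟨true, 4, 39, 1, 20⟩],
  [.spn 0 0 651200, .spn 1 1 140426, .spn 3 2 140426, .spn 7 3 62723, .spn 15 5 140426, .spn 47 7 140426]⟩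

/-- piece 28 of the tree -/
noncomputable def t28 : WN.Tree :=
(.haz 5 95 9 40
(.haz 2 27 27 40
(.haz 4 7 1 8
(.lp [[1, 4], [3, 6], [0, 2, 5, 7]] [(.mj 3 5, 12), (.mj 7 4, 101), (.hz 9 7, 27392), (.hz 9 15, 75133), (.hz 9 39, 28916), (.hz 9 47, 86167), (.hz 9 79, 95719), (.hz 9 167, 637), (.hz 7 95, 28968), (.hz 9 111, 5094)])
(.haz 5 23 3 8
(.haz 5 79 3 8
(.haz 7 111 19 40
(.ask 167
(.mark 175 [4, 6, 8]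
(.spn
(.haz 6 175 1 5
(.lp [[1, 4], [3, 6], [0, 2, 5, 7, 8]] [(.mj 3 5, 1287), (.mj 4 6, 1925), (.mj 4 8, 623), (.mj 7 4, 2045), (.rw 6, 1), (.hz 11 79, 199085), (.hz 13 175, 945652), (.hz 6 423, 250871), (.hz 13 191, 8670577), (.hz 13 431, 6662152)])
(.lp [[1, 4], [3, 6], [0, 2, 5, 7, 8]] [(.mj 3 5, 1345), (.mj 7 4, 687), (.rw 6, 1), (.hz 13 15, 772508), (.hz 13 47, 368321), (.hz 6 111, 1025562), (.hz 13 175, 375868), (.hz 6 423, 515646)]))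
(.maj 4 8
(.cut 4 [(0, 1), (1, 1), (2, 1), (3, 1), (5, 1), (9, 1), (7, 1), (11, 1), (13, 1), (15, 1), (39, 1), (47, 1), (167, 1), (175, 1)]
(.lp [[1, 4], [3, 6], [0, 2, 5, 7, 8]] [(.mj 3 5, 42672), (.mj 6 4, 29426), (.mj 7 6, 77972), (.rw 6, 40), (.hz 6 423, 19651625), (.hz 6 431, 52970733), (.rw 7, 140)]))
(.ask 79
(.mark 239 [4, 8, 9]
(.cut 4 [(0, 1), (1, 1), (2, 1), (3, 1), (5, 1), (9, 1), (7, 1), (11, 1), (13, 1), (15, 1), (39, 1), (47, 1), (79, 1)]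
(.cut 4 [(0, 1), (1, 1), (2, 1), (3, 1), (5, 1), (9, 1), (7, 1), (11, 1), (13, 1), (15, 1), (39, 1), (47, 1), (79, 1), (167, 1), (111, 1), (175, 1)]
(.lp [[1, 4], [3, 6, 9], [0, 2, 5, 7, 8]] [(.mj 3 5, 2477), (.mj 6 8, 1561), (.mj 7 6, 3102), (.mj 8 4, 2601), (.rw 7, 3), (.rw 8, 5)]))))
(.cut 4 [(0, 1), (1, 1), (2, 1), (3, 1), (5, 1), (9, 1), (7, 1), (11, 1), (13, 1), (15, 1), (39, 1), (47, 1), (167, 1), (175, 1)]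
(.cut 4 [(0, 1), (1, 1), (2, 1), (3, 1), (5, 1), (9, 1), (7, 1), (11, 1), (13, 1), (15, 1), (39, 1), (47, 1), (79, 1), (111, 1)]
(.cut 4 [(0, 1), (1, 1), (2, 1), (3, 1), (5, 1), (9, 1), (7, 1), (11, 1), (13, 1), (15, 1), (79, 1)]
(.lp [[1, 4], [3, 6], [0, 2, 5, 7, 8]] [(.mj 3 5, 78696), (.mj 6 8, 350), (.mj 7 6, 32641), (.mj 8 4, 42013), (.hz 6 111, 8799677), (.hz 6 239, 27428623), (.rw 7, 66), (.rw 8, 2), (.rw 9, 49)]))))))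
(.cut 4 [(0, 1), (1, 1), (2, 1), (3, 1), (5, 1), (9, 1), (7, 1), (11, 1), (13, 1), (15, 1), (39, 1), (47, 1), (167, 1), (175, 1)]
(.lp [[1, 4], [3, 6], [0, 2, 5, 7, 8]] [(.mj 3 5, 705), (.mj 8 4, 373), (.mj 8 6, 267), (.hz 11 79, 176267), (.hz 10 95, 1167819), (.hz 12 111, 42937), (.hz 12 127, 284320), (.rw 7, 1)]))
.fin))
(.ask 175
(.mark 175 [4, 6, 8]
(.spn
(.haz 6 431 1 10
(.haz 6 175 3 20
(.lp [[1, 4], [3, 6], [0, 2, 5, 7, 8]] [(.mj 3 5, 21), (.mj 4 6, 116), (.mj 4 8, 67), (.mj 7 4, 133), (.hz 11 79, 3210), (.hz 14 175, 3587), (.hz 14 191, 145935), (.hz 14 431, 119087)])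
(.lp [[1, 4], [3, 6], [0, 2, 5, 7, 8]] [(.mj 3 5, 3), (.mj 4 8, 3), (.mj 7 4, 4), (.hz 14 15, 1027), (.hz 14 47, 1272), (.hz 14 175, 1560), (.hz 13 431, 5951)]))
(.lp [[1, 4], [3, 6], [0, 2, 5, 7, 8]] [(.mj 3 5, 7), (.mj 4 8, 9), (.mj 7 4, 10), (.hz 13 15, 5216), (.hz 13 47, 6294), (.hz 13 175, 7492)]))
(.ask 431
(.maj 4 8
(.mark 431 [4, 6, 9]
(.cut 4 [(0, 1), (1, 1), (2, 1), (3, 1), (5, 1), (9, 1), (7, 1), (11, 1), (13, 1), (15, 1), (39, 1), (47, 1), (167, 1), (175, 1)]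
(.lp [[1, 4], [3, 6], [0, 2, 5, 7, 8, 9]] [(.mj 4 8, 10), (.mj 6 4, 466), (.mj 6 8, 336), (.mj 7 6, 810), (.hz 6 431, 845781), (.hz 6 943, 204033), (.rw 7, 1)])))
(.mark 431 [4, 6, 9]
(.cut 4 [(0, 1), (1, 1), (2, 1), (3, 1), (5, 1), (9, 1), (7, 1), (11, 1), (13, 1), (15, 1), (39, 1), (47, 1), (167, 1), (175, 1), (431, 1)]
(.lp [[1, 4], [3, 6], [0, 2, 5, 7, 8, 9]] [(.mj 6 4, 276), (.mj 6 8, 1320), (.mj 7 6, 2292), (.mj 8 4, 1044), (.rw 7, 4)]))))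
(.cut 4 [(0, 1), (1, 1), (2, 1), (3, 1), (5, 1), (9, 1), (7, 1), (11, 1), (13, 1), (15, 1), (39, 1), (47, 1), (167, 1), (175, 1), (431, 1)]
(.lp [[1, 4], [3, 6], [0, 2, 5, 7, 8]] [(.mj 6 4, 726), (.mj 7 6, 1796), (.rw 7, 2)])))
(.ask 431
(.mark 431 [4, 6, 9]
(.spn
(.lp [[1, 4], [3, 6], [0, 2, 5, 7, 8, 9]] [(.mj 8 4, 167), (.rw 7, 1)])
(.lp [[1, 4], [3, 6], [0, 2, 5, 7, 8, 9]] [(.mj 8 6, 583), (.rw 7, 1), (.hz 6 111, 1573344), (.hz 6 239, 1905584)])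
(.maj 4 6
(.cut 4 [(0, 1), (1, 1), (2, 1), (3, 1), (5, 1), (9, 1), (7, 1), (11, 1), (13, 1), (15, 1), (39, 1), (47, 1), (167, 1), (175, 1)]
(.cut 6 [(0, 1), (1, 1), (2, 1), (3, 1), (5, 1), (9, 1), (7, 1), (11, 1), (13, 1), (19, 1), (15, 1), (23, 1), (27, 1), (39, 1), (31, 1), (47, 1), (55, 1), (167, 1), (63, 2), (175, 1), (183, 1), (191, 1)]
(.lp [[1, 4], [3, 6], [0, 2, 5, 7, 8, 9]] [(.mj 3 5, 5365), (.mj 9 4, 4101), (.rw 7, 1), (.hz 11 79, 829643), (.rw 8, 20), (.rw 9, 2)])))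
(.cut 4 [(0, 1), (1, 1), (2, 1), (3, 1), (5, 1), (9, 1), (7, 1), (11, 1), (13, 1), (15, 1), (39, 1), (47, 1), (79, 2), (167, 1), (111, 1), (175, 1)]
(.cut 4 [(0, 1), (1, 1), (2, 1), (3, 1), (5, 1), (9, 1), (7, 1), (11, 1), (13, 1), (15, 1), (39, 1), (47, 1), (167, 1), (175, 1), (431, 1)]
(.cut 6 [(0, 1), (1, 1), (2, 1), (3, 1), (5, 1), (9, 1), (7, 1), (11, 1), (13, 1), (15, 1), (39, 1), (47, 1), (167, 1), (175, 1), (431, 1)]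
(.lp [[1, 4], [3, 6], [0, 2, 5, 7, 8, 9]] [(.mj 3 5, 22944), (.mj 9 4, 8281), (.mj 9 6, 8281), (.rw 7, 1), (.hz 10 95, 48011848), (.hz 12 127, 12292395), (.hz 6 495, 44827161), (.rw 8, 2), (.rw 9, 33), (.rw 10, 19)])))))
.fin))
(.lp [[1, 4], [3, 6], [0, 2, 5, 7, 8]] [(.mj 8 6, 1), (.rw 6, 1)]))
.fin))
(.lp [[1, 4], [3, 6], [0, 2, 5, 7]] [(.mj 7 4, 1), (.mj 7 6, 1), (.hz 6 111, 2851)])))
(.cut 4 [(0, 1), (1, 1), (2, 1), (3, 1), (5, 1), (9, 1), (7, 1), (11, 1), (13, 1), (15, 1), (39, 1), (47, 1)]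
(.lp [[1, 4], [3, 6], [0, 2, 5, 7]] [(.mj 3 5, 38971), (.mj 7 4, 47190), (.mj 7 6, 52410), (.hz 12 39, 733860), (.hz 12 47, 12633546), (.hz 6 111, 118924890), (.rw 6, 13)])))
(.lp [[1, 4], [3, 6], [0, 2, 5, 7]] [(.mj 2 3, 4), (.hz 9 7, 717), (.hz 11 7, 743), (.hz 3 19, 1897), (.hz 10 23, 19)]))
(.lp [[1, 4], [3, 6], [0, 2, 5, 7]] [(.mj 2 3, 4), (.hz 9 7, 733), (.hz 10 7, 759), (.hz 3 19, 1906)])))
(.cut 4 [(0, 1), (1, 1), (2, 1), (3, 1), (5, 1), (9, 1), (7, 1), (11, 1), (13, 1), (15, 1)]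
(.lp [[1, 4], [3, 6], [0, 2, 5, 7]] [(.mj 2 3, 1695), (.mj 3 5, 1340), (.mj 7 4, 1353), (.hz 8 11, 196134), (.hz 6 167, 23441), (.hz 7 95, 334286), (.rw 6, 2)])))
(.lp [[1, 4], [3, 6], [0, 2, 5, 7]] [(.mj 7 4, 4), (.mj 7 6, 4), (.hz 7 7, 257), (.hz 7 15, 411)]))

theorem run28 : run P3488 (leaf3 218 625) (cutRow P3488) [] t28 s28 = true := by
  decide +kernel

theorem bad28 : Bad P3488 s28 :=
  run_sound (leaf3_sound P3488 rfl rfl) (cutRow_sound P3488) (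
    fun _ h => absurd h List.not_mem_nil) t28 s28 run28

/-- the state above piece 195 of the tree -/
def s195 : St := ⟨[0, 0, 1, 3, 5, 15, 21, 21], [15, 11, 7, 5, 3, 2, 1, 0], [0, 1, 2, 3, 4],
  [(4, 5)],
  [⟨true, 2, 3, 3, 10⟩, ⟨true, 1, 5, 2, 5⟩, ⟨true, 2, 3, 23, 50⟩, ⟨true, 1, 5, 12, 25⟩, ⟨true, 1, 21, 27, 50⟩, ⟨true, 4, 15, 9, 40⟩, ⟨true, 3, 23, 11, 20⟩, ⟨true, 4, 47, 7, 20⟩, ⟨true, 4, 47, 17, 40⟩, ⟨true, 4, 47, 9, 20⟩, ⟨true, 4, 47, 19, 40⟩],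
  [.spn 0 0 651200, .spn 1 1 302400, .spn 3 2 302400, .spn 7 3 302400, .spn 15 4 302400]⟩

/-- piece 195 of the tree -/
noncomputable def t195 : WN.Tree :=
(.mark 31 [5, 6, 7]
(.spn
(.haz 1 85 16 25
(.haz 1 149 16 25
(.ask 47
(.mark 63 [6, 7, 8]
(.spn
(.lp [[7], [0, 2, 4, 6], [1, 3, 5, 8]] [(.mj 3 4, 7249), (.mj 6 8, 1294), (.rw 4, 4)])
(.con 7 6)
(.haz 6 159 3 50
(.haz 6 447 1 10
(.haz 8 127 11 25
(.haz 8 127 13 25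
(.ask 303
(.mark 319 [6, 7, 9]
(.spn
(.haz 7 383 3 25
(.lp [[7], [0, 2, 4, 6], [1, 3, 5, 8, 9]] [(.mj 3 4, 16344), (.mj 6 7, 1703), (.mj 8 6, 1703), (.rw 4, 28), (.rw 7, 1), (.hz 17 383, 11441090)])
(.lp [[7], [0, 2, 4, 6], [1, 3, 5, 8, 9]] [(.mj 4 5, 1248), (.mj 8 6, 1233), (.rw 4, 2), (.hz 17 31, 364801), (.hz 17 63, 293177), (.hz 13 159, 409504), (.hz 17 319, 155945)]))
(.con 7 6)
(.lp [[7], [0, 2, 4, 6], [1, 3, 5, 8, 9]] [(.mj 3 4, 415), (.mj 9 6, 98), (.mj 9 7, 67), (.rw 4, 1), (.hz 13 159, 181960), (.hz 16 127, 14424), (.hz 13 191, 57679)])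
.fin))
(.ask 319
(.mark 319 [6, 7, 9]
(.spn
(.haz 6 191 4 25
(.haz 6 159 7 50
(.haz 9 447 8 25
(.haz 6 191 1 5
(.haz 9 447 21 50
(.cut 7 [(0, 1), (1, 1), (2, 1), (3, 1), (5, 1), (7, 1), (11, 1), (21, 1), (15, 1), (23, 1), (85, 1), (31, 1), (47, 1), (87, 1), (63, 1), (95, 1), (303, 1), (127, 1)]
(.lp [[7], [0, 2, 4, 6], [1, 3, 5, 8, 9]] [(.mj 3 4, 412314), (.mj 6 9, 306769), (.mj 8 6, 410306), (.hz 18 159, 160641798), (.hz 20 191, 2412973675), (.hz 21 447, 182481697), (.rw 8, 4)]))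
(.lp [[7], [0, 2, 4, 6], [1, 3, 5, 8, 9]] [(.mj 3 4, 3), (.mj 8 6, 1), (.hz 20 191, 20276), (.hz 21 319, 355)]))
(.lp [[7], [0, 2, 4, 6], [1, 3, 5, 8, 9]] [(.mj 6 7, 76), (.mj 6 9, 480), (.rw 7, 1), (.hz 20 63, 6033191), (.hz 18 159, 38537), (.hz 17 191, 985202), (.hz 19 447, 599551)]))
(.lp [[7], [0, 2, 4, 6], [1, 3, 5, 8, 9]] [(.mj 3 4, 4), (.mj 8 6, 1), (.hz 17 191, 4347), (.hz 19 319, 718)]))
(.lp [[7], [0, 2, 4, 6], [1, 3, 5, 8, 9]] [(.mj 3 4, 628), (.mj 6 9, 546), (.rw 7, 4), (.hz 18 31, 1956206), (.hz 13 159, 2001570), (.hz 17 191, 3612862)]))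
(.lp [[7], [0, 2, 4, 6], [1, 3, 5, 8, 9]] [(.mj 4 5, 423), (.rw 7, 1), (.hz 17 63, 761828), (.hz 13 159, 18138), (.hz 13 191, 358326)]))
(.con 7 6)
(.ask 831
(.mark 831 [6, 7, 10]
(.spn
(.lp [[7], [0, 2, 4, 6], [1, 3, 5, 8, 9, 10]] [(.mj 4 5, 5564), (.mj 9 6, 12287), (.rw 4, 3), (.rw 7, 1), (.rw 8, 19), (.hz 13 159, 5795544)])
(.con 7 6)
(.cut 6 [(0, 1), (1, 1), (2, 1), (3, 1), (5, 1), (7, 1), (11, 1), (21, 1), (15, 1), (23, 1), (31, 1), (47, 1), (63, 1), (303, 1), (319, 1)]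
(.cut 7 [(0, 1), (1, 1), (2, 1), (3, 1), (5, 1), (7, 1), (11, 1), (21, 1), (15, 1), (23, 1), (85, 1), (31, 1), (47, 1), (87, 1), (63, 1), (95, 2), (303, 1), (127, 1)]
(.lp [[7], [0, 2, 4, 6], [1, 3, 5, 8, 9, 10]] [(.mj 4 5, 8991), (.mj 10 6, 9444), (.rw 4, 305), (.rw 8, 26), (.hz 13 159, 27544694), (.hz 13 191, 18179203), (.hz 16 255, 53965173), (.rw 9, 65), (.rw 10, 1)])))
.fin))
(.lp [[7], [0, 2, 4, 6], [1, 3, 5, 8, 9]] [(.rw 7, 1)]))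
.fin))
(.lp [[7], [0, 2, 4, 6], [1, 3, 5, 8]] [(.mj 6 7, 2), (.mj 8 6, 3)])))
(.lp [[7], [0, 2, 4, 6], [1, 3, 5, 8]] [(.mj 3 4, 36847), (.mj 8 6, 1770), (.rw 4, 28), (.hz 16 63, 3949204), (.hz 13 159, 9704633), (.hz 13 191, 619445)]))
(.lp [[7], [0, 2, 4, 6], [1, 3, 5, 8]] [(.mj 3 4, 2191), (.mj 8 6, 103), (.rw 4, 2), (.hz 15 63, 221703), (.hz 13 159, 563645), (.hz 13 191, 35977)]))
(.cut 6 [(0, 1), (1, 1), (2, 1), (3, 1), (5, 1), (7, 1), (11, 1), (21, 1), (15, 1), (23, 1), (31, 1), (47, 1), (63, 1), (303, 1)]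
(.cut 7 [(0, 1), (1, 1), (2, 1), (3, 1), (5, 1), (7, 1), (11, 1), (21, 1), (15, 1), (23, 1), (31, 1), (47, 1), (63, 1), (303, 1)]
(.lp [[7], [0, 2, 4, 6], [1, 3, 5, 8]] [(.mj 4 5, 3475), (.mj 6 7, 6877), (.rw 4, 53), (.hz 14 31, 6501940), (.hz 14 63, 6017726), (.hz 13 159, 1614048), (.hz 14 319, 23710395), (.rw 7, 12), (.rw 8, 4)]))))
(.cut 7 [(0, 1), (1, 1), (2, 1), (3, 1), (5, 1), (7, 1), (11, 1), (21, 1), (15, 1), (23, 1), (31, 1), (47, 1), (63, 1), (303, 1)]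
(.lp [[7], [0, 2, 4, 6], [1, 3, 5, 8]] [(.mj 6 7, 1523), (.rw 4, 10), (.hz 13 31, 532893), (.rw 7, 1)])))
.fin))
(.ask 63
(.mark 63 [6, 7, 8]
(.spn
(.lp [[7], [0, 2, 4, 6], [1, 3, 5, 8]] [(.mj 3 4, 4), (.mj 6 8, 1)])
(.con 7 6)
(.ask 319
(.mark 319 [6, 7, 9]
(.spn
(.lp [[7], [0, 2, 4, 6], [1, 3, 5, 8, 9]] [(.mj 3 4, 7), (.mj 6 9, 1)])
(.con 7 6)
(.ask 831
(.mark 831 [6, 7, 10]
(.spn
(.lp [[7], [0, 2, 4, 6], [1, 3, 5, 8, 9, 10]] [(.mj 9 6, 627), (.rw 8, 1)])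
(.con 7 6)
(.ask 1855
(.mark 1855 [6, 7, 11]
(.spn
(.lp [[7], [0, 2, 4, 6], [1, 3, 5, 8, 9, 10, 11]] [(.mj 10 6, 213), (.rw 9, 1)])
(.con 7 6)
(.cut 7 [(0, 1), (1, 1), (2, 1), (3, 1), (5, 1), (7, 1), (11, 1), (21, 1), (15, 1), (23, 1), (31, 1), (47, 1)]
(.cut 6 [(0, 1), (1, 1), (2, 1), (3, 1), (5, 1), (7, 1), (11, 1), (21, 1), (15, 1), (23, 1), (31, 1), (47, 1)]
(.cut 7 [(0, 1), (1, 1), (2, 1), (3, 1), (5, 1), (7, 1), (11, 1), (21, 1), (15, 1), (23, 1), (31, 1), (47, 1), (63, 1)]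
(.cut 6 [(0, 1), (1, 1), (2, 1), (3, 1), (5, 1), (7, 1), (11, 1), (21, 1), (15, 1), (23, 1), (31, 1), (47, 1), (63, 1)]
(.cut 7 [(0, 1), (1, 1), (2, 1), (3, 1), (5, 1), (7, 1), (11, 1), (21, 1), (15, 1), (23, 1), (31, 1), (47, 1), (63, 1), (319, 1)]
(.cut 6 [(0, 1), (1, 1), (2, 1), (3, 1), (5, 1), (7, 1), (11, 1), (21, 1), (15, 1), (23, 1), (31, 1), (47, 1), (63, 1), (319, 1)]
(.cut 7 [(0, 1), (1, 1), (2, 1), (3, 1), (5, 1), (7, 1), (11, 1), (21, 1), (15, 1), (23, 1), (31, 1), (47, 1), (63, 1), (319, 1), (831, 1)]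
(.cut 6 [(0, 1), (1, 1), (2, 1), (3, 1), (5, 1), (7, 1), (11, 1), (21, 1), (15, 1), (23, 1), (31, 1), (47, 1), (63, 1), (319, 1), (831, 1)]
(.lp [[7], [0, 2, 4, 6], [1, 3, 5, 8, 9, 10, 11]] [(.mj 11 6, 13440), (.rw 9, 10), (.hz 11 213, 819019), (.hz 6 215, 3286995), (.rw 10, 20), (.rw 11, 24), (.rw 12, 10), (.rw 13, 31), (.rw 14, 10), (.rw 15, 18), (.rw 16, 10), (.rw 17, 18)])))))))))
.fin))
(.lp [[7], [0, 2, 4, 6], [1, 3, 5, 8, 9, 10]] [(.rw 8, 1)]))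
.fin))
(.lp [[7], [0, 2, 4, 6], [1, 3, 5, 8, 9]] [(.rw 7, 1)]))
.fin))
(.lp [[7], [0, 2, 4, 6], [1, 3, 5, 8]] [(.rw 6, 1)]))
.fin))
(.lp [[7], [1, 3, 5], [0, 2, 4, 6]] [(.mj 3 4, 1)])))
(.lp [[7], [1, 3, 5], [0, 2, 4, 6]] [(.mj 3 4, 956), (.rw 4, 1), (.hz 12 21, 169563), (.hz 11 85, 132203), (.hz 4 149, 78342)]))
(.lp [[7], [1, 3, 5], [0, 2, 4, 6]] [(.mj 3 4, 956), (.rw 4, 1), (.hz 11 21, 169563), (.hz 4 85, 78342), (.hz 4 149, 78342)]))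
(.lp [[7], [1, 3, 5], [0, 2, 4, 6]] [(.mj 3 4, 543), (.mj 6 5, 194), (.rw 4, 1)])
(.con 7 6)
.fin))

theorem run195 : run P3488 (leaf3 218 625) (cutRow P3488) [] t195 s195 = true := by
  decide +kernel

theorem bad195 : Bad P3488 s195 :=
  run_sound (leaf3_sound P3488 rfl rfl) (cutRow_sound P3488) (
    fun _ h => absurd h List.not_mem_nil) t195 s195 run195

end Pool.Agent.WN.Data
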