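import Pool.Agent.WN.CutRow
import Pool.Agent.WN.LeafRow
import Pool.Agent.Helper99.WN.ParDef
import Pool.Agent.WN.Data.D4
import Pool.Agent.WN.Data.D10
import Pool.Agent.WN.Data.D15
import Pool.Agent.WN.Data.D17
import Pool.Agent.WN.Data.D18
import Pool.Agent.WN.Data.D19
import Pool.Agent.WN.Data.D20

/-!
# The search tree, part 25
-/

set_option autoImplicit false

namespace Pool.Agent.WN.Data

open Pool.Agent.W3 Pool.Agent.WN Pool.Agent.Helper99.WN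

/-- the state above piece 10 of the tree -/
def s10 : St := ⟨[0, 0, 1, 1, 2, 7, 13, 39], [15, 7, 5, 9, 3, 1, 0], [0, 1, 2, 3, 5],
  [],
  [⟨true, 1, 9, 7, 50⟩, ⟨true, 2, 11, 3, 50⟩, ⟨true, 2, 9, 9, 50⟩, ⟨true, 3, 3, 1, 5⟩],
  [.spn 0 0 651200, .spn 1 1 140426, .spn 3 2 140426, .spn 7 3 62723, .spn 15 5 140426]⟩

/-- piece 10 of the tree -/
noncomputable def t10 : WN.Tree :=
(.mark 47 [4, 6, 7]
(.spn
(.haz 4 111 3 25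
(.haz 7 111 6 25
(.haz 7 63 1 5
(.haz 7 63 3 10
(.haz 7 111 8 25
(.haz 4 79 3 25
(.haz 5 79 7 25
(.haz 5 79 9 25
(.haz 5 79 21 50
(.haz 6 63 4 25
(.maj 6 7
(.ask 18
(.mark 63 [6, 7, 8]
(.lp [[3, 6], [1, 4, 8], [0, 2, 5, 7]] [(.mj 1 2, 312), (.mj 3 5, 13), (.mj 4 6, 1306), (.mj 5 4, 1741), (.mj 6 7, 1501), (.rw 5, 1), (.hz 3 275, 192651), (.hz 12 79, 46374), (.hz 3 279, 869579), (.hz 7 63, 3065956), (.hz 8 111, 457219), (.hz 7 319, 4401079)]))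
(.ask 19
(.mark 63 [6, 7, 8]
(.lp [[3, 6], [1, 4, 8], [0, 2, 5, 7]] [(.mj 1 2, 318), (.mj 3 5, 13), (.mj 4 6, 1332), (.mj 5 4, 1784), (.mj 6 7, 1530), (.rw 5, 1), (.hz 3 275, 188525), (.hz 12 79, 47277), (.hz 3 279, 902804), (.hz 7 63, 3113109), (.hz 8 111, 466122), (.hz 7 319, 4539056)]))
(.ask 27
(.mark 63 [6, 7, 8]
(.lp [[3, 6], [1, 4, 8], [0, 2, 5, 7]] [(.mj 1 2, 2), (.mj 2 3, 12), (.mj 4 6, 12), (.mj 5 4, 12), (.mj 6 7, 17), (.hz 12 79, 271), (.hz 3 167, 3436), (.hz 7 63, 39685), (.hz 8 111, 4065), (.hz 7 319, 19273)]))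
(.ask 23
(.mark 63 [6, 7, 8]
(.lp [[3, 6], [1, 4, 8], [0, 2, 5, 7]] [(.mj 1 2, 495), (.mj 3 5, 21), (.mj 4 6, 2073), (.mj 5 4, 2479), (.mj 6 7, 2383), (.rw 5, 1), (.hz 12 79, 73604), (.hz 3 279, 24731), (.hz 7 63, 5293346), (.hz 8 111, 725694), (.hz 3 311, 4337444), (.hz 7 319, 12434878)]))
(.ask 55
(.mark 63 [6, 7, 8]
(.lp [[3, 6], [1, 4, 8], [0, 2, 5, 7]] [(.mj 1 2, 4), (.mj 3 5, 3), (.mj 4 6, 14), (.mj 5 4, 14), (.mj 6 7, 15), (.hz 12 79, 570), (.hz 7 63, 39676), (.hz 8 111, 4988), (.hz 3 311, 26761), (.hz 7 319, 62449)]))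
(.lp [[1, 4], [3, 6], [0, 2, 5, 7]] [(.mj 1 2, 11), (.mj 4 6, 25), (.mj 5 4, 34), (.mj 6 7, 32), (.hz 9 79, 8614), (.hz 12 79, 418), (.hz 3 167, 266), (.hz 7 63, 91956), (.hz 8 111, 8667)]))))))
(.ask 77
(.mark 111 [4, 7, 8]
(.lp [[1, 4], [3, 6, 8], [0, 2, 5, 7]] [(.mj 1 2, 220), (.mj 3 5, 32), (.mj 4 7, 193), (.mj 5 4, 307), (.mj 7 6, 65), (.hz 12 79, 2920), (.hz 13 63, 131079), (.hz 7 63, 2425), (.hz 8 111, 50390), (.hz 9 335, 209053), (.hz 8 367, 159279)]))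
(.ask 79
(.mark 111 [4, 7, 8]
(.lp [[1, 4], [3, 6, 8], [0, 2, 5, 7]] [(.mj 4 7, 6), (.mj 5 4, 9), (.mj 7 6, 2), (.hz 9 79, 3677), (.hz 12 79, 267), (.hz 13 63, 900), (.hz 8 111, 1596), (.hz 9 335, 2673), (.hz 8 367, 4466)]))
(.ask 111
(.mark 111 [4, 7, 8]
(.lp [[1, 4], [3, 6, 8], [0, 2, 5, 7]] [(.mj 4 7, 12), (.mj 5 4, 18), (.mj 7 6, 4), (.hz 9 79, 7738), (.hz 13 63, 1800), (.hz 8 111, 4112), (.hz 8 367, 6047)]))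
(.lp [[1, 4], [3, 6], [0, 2, 5, 7]] [(.mj 4 7, 4), (.mj 5 4, 6)])))))
(.lp [[1, 4], [3, 6], [0, 2, 5, 7]] [(.mj 4 7, 10), (.mj 5 4, 14), (.hz 13 13, 506), (.hz 13 15, 1259), (.hz 13 47, 1153), (.hz 9 79, 6038), (.hz 7 63, 753), (.hz 8 111, 5164)]))
(.lp [[1, 4], [3, 6], [0, 2, 5, 7]] [(.mj 2 3, 1), (.mj 4 6, 4), (.mj 5 4, 5), (.hz 12 7, 235), (.hz 12 15, 688), (.hz 9 79, 1237), (.hz 11 79, 1369), (.hz 8 111, 1238)]))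
(.lp [[1, 4], [3, 6], [0, 2, 5, 7]] [(.mj 2 3, 1), (.mj 4 6, 4), (.mj 5 4, 5), (.hz 11 7, 425), (.hz 11 15, 1225), (.hz 9 79, 1163), (.hz 10 79, 1046)]))
(.lp [[1, 4], [3, 6], [0, 2, 5, 7]] [(.mj 5 4, 1), (.mj 5 6, 1), (.hz 10 7, 90), (.hz 10 15, 253), (.hz 9 79, 680)]))
(.haz 6 47 8 25
(.lp [[1, 4], [3, 6], [0, 2, 5, 7]] [(.mj 3 5, 2), (.mj 4 6, 7), (.mj 4 7, 3), (.hz 9 2, 134), (.hz 9 3, 287), (.hz 9 7, 461), (.hz 9 11, 461), (.hz 9 15, 2828), (.hz 10 47, 151), (.hz 3 167, 1914), (.hz 10 63, 1330), (.hz 10 175, 4041)])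
(.lp [[1, 4], [3, 6], [0, 2, 5, 7]] [(.mj 1 2, 5), (.mj 2 3, 11), (.mj 4 6, 4), (.mj 4 7, 18), (.hz 9 2, 387), (.hz 9 3, 827), (.hz 9 7, 2769), (.hz 9 15, 6910), (.hz 10 15, 2987), (.hz 4 111, 5077), (.hz 8 111, 10929)])))
(.lp [[1, 4], [3, 6], [0, 2, 5, 7]] [(.mj 2 3, 3), (.mj 4 6, 15), (.mj 5 4, 29), (.hz 8 39, 1845), (.hz 8 47, 7159), (.hz 7 63, 112), (.hz 4 111, 14431), (.hz 5 111, 5291)]))
(.lp [[1, 4], [3, 6], [0, 2, 5, 7]] [(.mj 2 3, 4), (.mj 4 6, 18), (.mj 5 4, 35), (.hz 7 39, 5514), (.hz 7 47, 21053), (.hz 4 111, 14991), (.hz 5 111, 6456)]))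
(.lp [[1, 4], [3, 6], [0, 2, 5, 7]] [(.mj 2 3, 1), (.mj 4 6, 6), (.mj 5 4, 10), (.hz 6 39, 2785), (.hz 6 47, 10366), (.hz 4 111, 799), (.hz 5 111, 1928)]))
(.lp [[1, 4], [3, 6], [0, 2, 5, 7]] [(.mj 2 3, 1), (.mj 4 6, 5), (.mj 5 4, 9), (.hz 5 39, 547), (.hz 5 47, 2056), (.hz 4 111, 4415)]))
(.lp [[1, 4], [3, 6], [0, 2, 5, 7]] [(.mj 4 6, 7424), (.mj 4 7, 11137), (.rw 5, 65), (.hz 4 47, 32481697)]))
(.ref 0)
(.haz 5 23 9 25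
(.haz 4 175 1 25
(.haz 6 175 1 20
(.ask 167
(.ref 1)
(.ask 175
(.mark 175 [4, 6, 8]
(.spn
(.haz 6 175 9 50
(.lp [[1, 4], [3, 6], [0, 2, 5, 7, 8]] [(.mj 3 5, 1), (.mj 4 6, 4), (.mj 4 8, 2), (.mj 7 4, 4), (.hz 7 175, 108), (.hz 7 191, 2016), (.hz 7 431, 1553)])
(.haz 8 239 21 50
(.lp [[1, 4], [3, 6], [0, 2, 5, 7, 8]] [(.mj 3 5, 43), (.mj 4 8, 64), (.mj 7 4, 69), (.hz 7 13, 1880), (.hz 7 15, 7933), (.hz 7 47, 10508), (.hz 6 191, 78155), (.hz 8 239, 26645), (.hz 6 431, 2961)])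
(.lp [[1, 4], [3, 6], [0, 2, 5, 7, 8]] [(.mj 3 5, 1), (.mj 7 4, 1), (.hz 7 13, 29), (.hz 7 15, 122), (.hz 7 47, 136), (.hz 7 175, 316), (.hz 8 175, 316)])))
(.haz 4 15 1 10
(.lp [[1, 4], [3, 6], [0, 2, 5, 7, 8]] [(.mj 6 4, 10), (.mj 6 8, 6), (.mj 7 6, 12), (.hz 7 79, 18292), (.hz 7 111, 38771), (.hz 7 431, 33457)])
(.haz 4 431 3 50
(.ask 431
(.haz 4 47 2 25
(.maj 4 8
(.mark 431 [4, 6, 9]
(.cut 4 [(0, 1), (1, 1), (2, 1), (3, 1), (5, 1), (9, 1), (7, 1), (11, 1), (13, 1), (15, 1), (39, 1), (77, 1), (47, 1), (167, 1), (175, 1)]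
(.lp [[1, 4], [3, 6], [0, 2, 5, 7, 8, 9]] [(.mj 1 2, 2119), (.mj 4 8, 18), (.mj 6 4, 548), (.mj 6 8, 284), (.mj 7 6, 684), (.hz 7 2, 43974), (.hz 7 3, 92834), (.hz 7 11, 147123), (.hz 9 431, 692142), (.hz 9 943, 191844), (.rw 7, 1)])))
(.lp [[1, 4], [3, 6], [0, 2, 5, 7, 8, 9]] [(.mj 6 8, 27), (.mj 7 6, 41), (.mj 8 4, 37), (.hz 9 111, 101886), (.hz 9 239, 32372), (.hz 9 431, 44326)]))
(.cut 4 [(0, 1), (1, 1), (2, 1), (3, 1), (5, 1), (9, 1), (7, 1), (11, 1), (13, 1), (15, 1), (39, 1), (77, 1), (47, 1), (167, 1), (175, 1)]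
(.lp [[1, 4], [3, 6], [0, 2, 5, 7, 8, 9]] [(.mj 1 2, 31240), (.mj 6 8, 7334), (.mj 7 6, 10038), (.hz 9 2, 417401), (.hz 9 3, 871097), (.hz 9 7, 515343), (.hz 9 11, 1364246), (.hz 9 15, 1180026), (.hz 9 39, 1227006), (.hz 9 47, 4270309), (.hz 8 431, 1514961), (.rw 7, 16)])))
(.cut 4 [(0, 1), (1, 1), (2, 1), (3, 1), (5, 1), (9, 1), (7, 1), (11, 1), (13, 1), (15, 1), (39, 1), (77, 1), (47, 1), (167, 1), (175, 1), (431, 1)]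
(.lp [[1, 4], [3, 6], [0, 2, 5, 7, 8]] [(.mj 1 2, 1915), (.mj 3 5, 31), (.mj 6 4, 481), (.mj 7 6, 1004), (.hz 7 2, 43179), (.hz 7 3, 91156), (.hz 7 7, 11469), (.hz 7 11, 144463), (.rw 7, 1)])))
(.lp [[1, 4], [3, 6], [0, 2, 5, 7, 8]] [(.mj 1 2, 29), (.mj 6 8, 1), (.hz 8 2, 144), (.hz 8 3, 296), (.hz 8 7, 69), (.hz 8 11, 459), (.hz 8 15, 68), (.hz 8 39, 234), (.hz 8 175, 176), (.hz 5 431, 1938)])))
(.haz 4 15 1 10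
(.lp [[1, 4], [3, 6], [0, 2, 5, 7, 8]] [(.mj 1 2, 5), (.mj 8 4, 7), (.hz 7 15, 5238), (.hz 7 47, 6496), (.hz 7 79, 5874), (.hz 4 95, 1658), (.hz 7 111, 5056), (.hz 7 175, 9912), (.hz 6 191, 7668)])
(.ask 431
(.mark 431 [4, 6, 9]
(.spn
(.lp [[1, 4], [3, 6], [0, 2, 5, 7, 8, 9]] [(.mj 8 4, 146), (.rw 7, 1)])
(.lp [[1, 4], [3, 6], [0, 2, 5, 7, 8, 9]] [(.mj 8 6, 8919), (.rw 7, 14)])
(.maj 4 6
(.cut 4 [(0, 1), (1, 1), (2, 1), (3, 1), (5, 1), (9, 1), (7, 1), (11, 1), (13, 1), (15, 1), (39, 1), (47, 1), (167, 1), (175, 1), (431, 1)]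
(.lp [[1, 4], [3, 6], [0, 2, 5, 7, 8, 9]] [(.mj 1 2, 16943), (.mj 3 5, 8472), (.mj 9 4, 8472), (.rw 7, 1), (.hz 6 175, 557345), (.hz 6 431, 586679), (.rw 8, 31)]))
(.haz 6 15 4 25
(.lp [[1, 4], [3, 6], [0, 2, 5, 7, 8, 9]] [(.mj 3 5, 71), (.mj 9 6, 1853), (.rw 7, 1), (.hz 7 2, 8785), (.hz 7 3, 18545), (.hz 7 11, 29391), (.hz 8 15, 509780), (.hz 3 23, 264515), (.hz 8 47, 663256), (.hz 5 175, 482226), (.hz 8 175, 971685), (.hz 5 431, 533699), (.hz 8 431, 1182183)])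
(.cut 4 [(0, 1), (1, 1), (2, 1), (3, 1), (5, 1), (9, 1), (7, 1), (11, 1), (13, 1), (15, 1), (39, 1), (77, 1), (47, 1), (167, 1), (175, 1), (431, 1)]
(.cut 6 [(0, 1), (1, 1), (2, 1), (3, 1), (5, 1), (9, 1), (7, 1), (11, 1), (13, 1), (15, 1), (39, 1), (47, 1), (167, 1), (175, 1), (431, 1)]
(.cut 4 [(0, 1), (1, 1), (2, 1), (3, 1), (5, 1), (9, 1), (7, 1), (11, 1), (13, 1), (15, 1), (39, 1), (77, 1), (47, 1), (79, 1), (167, 1), (111, 1), (175, 1), (239, 1), (431, 1), (495, 1)]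
(.lp [[1, 4], [3, 6], [0, 2, 5, 7, 8, 9]] [(.mj 3 5, 200953), (.mj 9 6, 62419), (.rw 7, 46), (.hz 8 13, 24793782), (.hz 7 15, 11019459), (.hz 4 95, 77788867), (.hz 5 239, 233950985), (.hz 5 495, 197352381), (.rw 8, 228), (.rw 9, 308), (.rw 10, 71)]))))))
.fin))
(.lp [[1, 4], [3, 6], [0, 2, 5, 7, 8]] [(.mj 8 6, 1), (.rw 6, 1)])))
.fin))
(.lp [[1, 4], [3, 6], [0, 2, 5, 7]] [(.mj 7 4, 1), (.mj 7 6, 1), (.hz 5 239, 2282)])))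
(.cut 4 [(0, 1), (1, 1), (2, 1), (3, 1), (5, 1), (9, 1), (7, 1), (11, 1), (13, 1), (15, 1), (77, 1)]
(.cut 4 [(0, 1), (1, 1), (2, 1), (3, 1), (5, 1), (9, 1), (7, 1), (11, 1), (13, 1), (15, 1), (39, 1), (77, 1), (47, 1), (79, 1), (111, 1)]
(.cut 4 [(0, 1), (1, 1), (2, 1), (3, 1), (5, 1), (9, 1), (7, 1), (11, 1), (13, 1), (15, 1), (39, 1), (77, 1), (47, 1)]
(.cut 4 [(0, 1), (1, 1), (2, 1), (3, 1), (5, 1), (9, 1), (7, 1), (11, 1), (13, 1), (15, 1), (77, 1), (79, 1)]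
(.lp [[1, 4], [3, 6], [0, 2, 5, 7]] [(.mj 3 5, 238149), (.mj 7 4, 93930), (.hz 6 13, 29692601), (.hz 6 15, 41481512), (.hz 4 31, 7908235), (.hz 4 95, 19507331), (.rw 6, 87), (.rw 7, 22), (.rw 8, 63), (.rw 9, 51)]))))))
(.lp [[1, 4], [3, 6], [0, 2, 5, 7]] [(.mj 1 2, 4), (.mj 3 5, 1), (.hz 5 2, 52), (.hz 5 3, 105), (.hz 5 11, 161), (.hz 5 15, 55), (.hz 4 23, 197)]))
(.cut 4 [(0, 1), (1, 1), (2, 1), (3, 1), (5, 1), (9, 1), (7, 1), (11, 1), (13, 1), (15, 1), (77, 1)]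
(.lp [[1, 4], [3, 6], [0, 2, 5, 7]] [(.mj 1 2, 48339), (.mj 7 4, 29029), (.mj 7 6, 11305), (.hz 4 7, 4475848), (.hz 3 23, 10070658), (.rw 6, 19)])))
.fin))

theorem run10 : run P3488 (leaf3 218 625) (cutRow P3488) [s9, s8] t10 s10 = true := by
  decide +kernel

theorem bad10 : Bad P3488 s10 :=
  run_sound (leaf3_sound P3488 rfl rfl) (cutRow_sound P3488) (
    List.forall_mem_cons.2 ⟨bad9, List.forall_mem_cons.2 ⟨bad8, fun _ h => absurd h List.not_mem_nil⟩⟩) t10 s10 run10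

/-- the state above piece 201 of the tree -/
def s201 : St := ⟨[0, 0, 1, 3, 5, 15, 23, 31, 47, 159, 319], [303, 191, 63, 31, 23, 21, 15, 11, 7, 5, 3, 2, 1, 0], [0, 1, 2, 3, 4, 5, 7, 8],
  [(5, 6), (4, 5)],
  [⟨true, 2, 3, 3, 10⟩, ⟨true, 1, 5, 2, 5⟩, ⟨true, 2, 3, 23, 50⟩, ⟨true, 1, 5, 12, 25⟩, ⟨true, 1, 21, 27, 50⟩, ⟨true, 4, 15, 9, 40⟩, ⟨true, 3, 23, 11, 20⟩, ⟨true, 4, 47, 7, 20⟩, ⟨true, 4, 47, 17, 40⟩, ⟨true, 4, 47, 9, 20⟩, ⟨true, 4, 47, 19, 40⟩, ⟨true, 5, 95, 1, 5⟩, ⟨true, 5, 95, 3, 10⟩, ⟨true, 5, 31, 3, 10⟩, ⟨true, 3, 87, 29, 40⟩, ⟨true, 6, 447, 1, 40⟩, ⟨true, 8, 703, 13, 50⟩, ⟨true, 6, 959, 3, 50⟩, ⟨true, 8, 127, 7, 25⟩],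
  [.spn 0 0 651200, .spn 1 1 302400, .spn 3 2 302400, .spn 7 3 302400, .spn 15 4 302400, .spn 31 5 140426, .spn 63 7 140426, .spn 191 8 140426]⟩

/-- piece 201 of the tree -/
noncomputable def t201 : WN.Tree :=
(.mark 447 [6, 9, 10]
(.spn
(.haz 9 1471 3 25
(.haz 6 703 1 10
(.haz 6 1471 3 25
(.haz 9 447 3 10
(.lp [[6], [0, 2, 4, 7, 9], [1, 3, 5, 8, 10]] [(.mj 3 4, 9338), (.mj 6 9, 4555), (.mj 7 8, 6739), (.mj 8 6, 4555), (.rw 8, 1), (.hz 22 447, 5382509), (.hz 20 703, 12969379), (.hz 21 1471, 4549106), (.hz 22 1471, 17366315)])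
(.maj 9 10
(.lp [[6], [0, 2, 4, 7, 9], [1, 3, 5, 8, 10]] [(.mj 3 4, 2639), (.mj 7 8, 535), (.mj 8 6, 30), (.mj 9 10, 157), (.hz 22 191, 454180), (.hz 22 447, 857193), (.hz 20 703, 485720), (.hz 21 1471, 1186871)])
(.ask 671
(.mark 703 [6, 8, 11]
(.lp [[6], [1, 3, 5, 8, 10], [0, 2, 4, 7, 9, 11]] [(.mj 3 4, 555), (.mj 7 8, 2839), (.mj 8 6, 1936), (.mj 10 9, 758), (.rw 8, 1), (.hz 22 159, 843851), (.hz 22 191, 232364), (.hz 20 703, 8592699), (.hz 20 959, 7575320), (.hz 21 1471, 2859043), (.hz 20 2751, 8179361)]))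
(.lp [[6], [0, 2, 4, 7, 9], [1, 3, 5, 8, 10]] [(.mj 7 8, 3837), (.mj 8 6, 2670), (.mj 10 9, 788), (.rw 8, 1), (.hz 22 191, 3218858), (.hz 20 703, 10825233), (.hz 20 959, 7875032), (.hz 21 1471, 4047178)]))))
(.lp [[6], [0, 2, 4, 7, 9], [1, 3, 5, 8, 10]] [(.mj 6 9, 273), (.mj 7 8, 724), (.rw 8, 2), (.hz 21 23, 21216), (.hz 21 31, 50630), (.hz 21 63, 84055), (.hz 21 159, 57534), (.hz 21 191, 160897), (.hz 21 447, 3013418), (.hz 20 703, 9482), (.hz 19 1471, 415662)]))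
(.lp [[6], [0, 2, 4, 7, 9], [1, 3, 5, 8, 10]] [(.mj 5 7, 1), (.mj 6 9, 6), (.mj 6 10, 2), (.mj 7 8, 6), (.hz 20 23, 1463), (.hz 20 31, 3455), (.hz 20 63, 5668), (.hz 20 159, 2819), (.hz 20 191, 10033), (.hz 16 703, 1110), (.hz 19 1471, 12295)]))
(.lp [[6], [0, 2, 4, 7, 9], [1, 3, 5, 8, 10]] [(.mj 7 8, 26), (.mj 8 6, 16), (.hz 19 159, 3765), (.hz 19 191, 10135), (.hz 19 447, 5391)]))
(.haz 9 1471 3 10
(.haz 5 95 21 50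
(.ask 671
(.mark 959 [6, 10, 11]
(.spn
(.haz 10 959 13 40
(.lp [[6], [1, 3, 5, 8, 10], [0, 2, 4, 7, 9, 11]] [(.mj 6 10, 1421), (.mj 8 9, 1421), (.mj 9 6, 1421), (.rw 9, 1), (.hz 21 959, 813378), (.hz 21 1023, 1776662), (.hz 21 3007, 2553952)])
(.lp [[6], [1, 3, 5, 8, 10], [0, 2, 4, 7, 9, 11]] [(.mj 8 9, 2419), (.mj 9 6, 1541), (.rw 9, 2), (.hz 21 319, 534488), (.hz 21 447, 1438846), (.hz 21 959, 1063306), (.hz 17 1983, 1589767), (.hz 17 3007, 5485014)]))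
(.haz 10 3007 7 20
(.maj 6 11
(.ask 1343
(.mark 1983 [6, 11, 12]
(.cut 6 [(0, 1), (1, 1), (2, 1), (3, 1), (5, 1), (7, 1), (11, 1), (21, 1), (15, 1), (23, 1), (31, 1), (47, 1), (63, 1), (159, 1), (303, 1), (191, 1), (319, 1), (671, 1), (447, 1), (703, 1), (959, 1)]
(.lp [[6], [0, 2, 4, 7, 9, 11], [1, 3, 5, 8, 10, 12]] [(.mj 6 11, 394), (.mj 8 9, 732), (.mj 9 10, 1468), (.mj 10 6, 1126), (.hz 17 3007, 5367580), (.hz 21 3007, 443611), (.hz 17 6079, 2413057), (.rw 10, 2)])))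
(.ask 1471
(.mark 1983 [6, 11, 12]
(.cut 6 [(0, 1), (1, 1), (2, 1), (3, 1), (5, 1), (7, 1), (11, 1), (21, 1), (15, 1), (23, 1), (31, 1), (47, 1), (63, 1), (159, 1), (303, 1), (191, 1), (319, 1), (671, 1), (447, 1), (703, 1), (959, 1)]
(.lp [[6], [0, 2, 4, 7, 9, 11], [1, 3, 5, 8, 10, 12]] [(.mj 6 11, 1492), (.mj 8 9, 3013), (.mj 9 10, 6106), (.mj 10 6, 4505), (.hz 17 3007, 21832575), (.hz 21 3007, 1941793), (.hz 17 6079, 8662032), (.rw 10, 8)])))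
(.ask 1983
(.mark 1983 [6, 11, 12]
(.spn
(.haz 12 4031 3 8
(.ask 2719
(.mark 4031 [6, 12, 13]
(.lp [[6], [1, 3, 5, 8, 10, 12], [0, 2, 4, 7, 9, 11, 13]] [(.mj 6 12, 1472), (.mj 8 9, 2156), (.mj 9 10, 668), (.mj 10 6, 2285), (.rw 10, 1), (.hz 13 2719, 240720), (.hz 17 3007, 10138123), (.hz 21 3007, 1109738), (.hz 16 10943, 382683), (.hz 22 4031, 10851271), (.hz 17 11199, 16154978), (.hz 22 12223, 47716846)]))
(.ask 6079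
(.haz 11 6079 1 5
(.mark 6079 [6, 11, 13]
(.lp [[6], [0, 2, 4, 7, 9, 11], [1, 3, 5, 8, 10, 12, 13]] [(.mj 0 1, 4), (.mj 6 11, 8), (.mj 6 12, 4), (.mj 8 9, 3), (.mj 9 10, 4), (.mj 10 6, 11), (.hz 17 3007, 23272), (.hz 23 6079, 228312), (.hz 23 6143, 137135), (.hz 23 14271, 137135)]))
(.lp [[6], [0, 2, 4, 7, 9, 11], [1, 3, 5, 8, 10, 12, 13]] [(.mj 0 1, 17), (.mj 6 12, 6), (.mj 9 10, 4), (.mj 10 6, 7), (.hz 14 87, 76), (.hz 23 703, 43160), (.hz 23 959, 85600), (.hz 23 1983, 33059), (.hz 22 4031, 125223)]))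
(.lp [[6], [0, 2, 4, 7, 9, 11], [1, 3, 5, 8, 10, 12]] [(.mj 6 11, 2), (.mj 10 6, 3)])))
(.lp [[6], [0, 2, 4, 7, 9, 11], [1, 3, 5, 8, 10, 12]] [(.mj 6 11, 4), (.mj 9 10, 3), (.mj 10 6, 4), (.hz 22 1983, 45063)]))
(.con 11 6)
(.cut 6 [(0, 1), (1, 1), (2, 1), (3, 1), (5, 1), (7, 1), (11, 1), (21, 1), (15, 1), (23, 1), (31, 1), (47, 1), (63, 1), (159, 1), (303, 1), (191, 1), (319, 1), (671, 1), (447, 1), (703, 1), (1343, 1), (959, 1), (1471, 1), (1983, 1)]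
(.lp [[6], [0, 2, 4, 7, 9, 11], [1, 3, 5, 8, 10, 12]] [(.mj 0 1, 2767), (.mj 8 9, 62), (.mj 9 10, 1), (.mj 12 6, 307), (.hz 13 2719, 27898), (.rw 11, 1)]))
.fin))
(.lp [[6], [1, 3, 5, 8, 10], [0, 2, 4, 7, 9, 11]] [(.mj 6 11, 1), (.mj 10 6, 1)]))))
(.ask 1343
(.mark 1983 [6, 11, 12]
(.cut 6 [(0, 1), (1, 1), (2, 1), (3, 1), (5, 1), (7, 1), (11, 1), (21, 1), (15, 1), (23, 1), (31, 1), (47, 1), (63, 1), (159, 1), (303, 1), (191, 1), (319, 1), (671, 1), (447, 1), (703, 1), (959, 1)]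
(.cut 6 [(0, 1), (1, 1), (2, 1), (3, 1), (5, 1), (7, 1), (11, 1), (21, 1), (15, 1), (23, 1), (31, 1), (47, 1), (63, 1), (159, 1), (303, 1), (191, 1), (319, 1), (671, 1), (447, 1), (703, 1), (1343, 1), (2719, 1), (959, 1), (1471, 1), (2751, 1), (3007, 1)]
(.lp [[6], [0, 2, 4, 7, 9, 11], [1, 3, 5, 8, 10, 12]] [(.mj 0 1, 220767), (.mj 7 8, 42555), (.mj 8 9, 36113), (.mj 9 10, 14476), (.mj 10 11, 22815), (.mj 11 6, 54605), (.hz 14 87, 983226), (.hz 20 2783, 1429149), (.hz 17 3007, 70883665), (.hz 17 6079, 210708644), (.rw 10, 146), (.rw 11, 7)]))))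
(.ask 1471
(.mark 1983 [6, 11, 12]
(.cut 6 [(0, 1), (1, 1), (2, 1), (3, 1), (5, 1), (7, 1), (11, 1), (21, 1), (15, 1), (23, 1), (31, 1), (47, 1), (63, 1), (159, 1), (303, 1), (191, 1), (319, 1), (1343, 1)]
(.cut 6 [(0, 1), (1, 1), (2, 1), (3, 1), (5, 1), (7, 1), (11, 1), (21, 1), (15, 1), (23, 1), (31, 1), (47, 1), (63, 1), (159, 1), (303, 1), (191, 1), (319, 1), (447, 1)]
(.cut 6 [(0, 1), (1, 1), (2, 1), (3, 1), (5, 1), (7, 1), (11, 1), (21, 1), (15, 1), (23, 1), (31, 1), (47, 1), (63, 1), (159, 1), (303, 1), (191, 1), (319, 1), (671, 1), (447, 1), (703, 1), (1343, 1), (959, 1), (1471, 1)]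
(.lp [[6], [0, 2, 4, 7, 9, 11], [1, 3, 5, 8, 10, 12]] [(.mj 0 1, 15836), (.mj 8 9, 2653), (.mj 9 10, 1362), (.mj 10 11, 114), (.mj 11 6, 2296), (.hz 14 87, 70528), (.hz 17 6079, 5578854), (.rw 10, 1), (.rw 11, 4), (.rw 12, 2)])))))
(.ask 87
(.mark 1023 [10, 11, 12]
(.cut 6 [(0, 1), (1, 1), (2, 1), (3, 1), (5, 1), (7, 1), (11, 1), (21, 1), (15, 1), (23, 1), (31, 1), (47, 1), (63, 1), (303, 1), (319, 1)]
(.cut 6 [(0, 1), (1, 1), (2, 1), (3, 1), (5, 1), (7, 1), (11, 1), (21, 1), (15, 1), (23, 1), (31, 1), (47, 1), (63, 1), (159, 1), (303, 1), (191, 1), (319, 1), (447, 1), (1343, 1)]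
(.lp [[6, 12], [1, 3, 5, 8, 10], [0, 2, 4, 7, 9, 11]] [(.mj 0 1, 562664), (.mj 8 9, 23185), (.mj 9 10, 6476), (.mj 11 6, 34588), (.hz 14 4183, 3059135), (.hz 20 4191, 6997142), (.hz 18 4223, 22490872), (.hz 17 959, 7502133), (.hz 20 2783, 7653080), (.hz 17 1983, 56056136), (.rw 10, 4), (.rw 11, 75)]))))
(.cut 6 [(0, 1), (1, 1), (2, 1), (3, 1), (5, 1), (7, 1), (11, 1), (21, 1), (15, 1), (23, 1), (31, 1), (47, 1), (63, 1), (159, 1), (303, 1), (191, 1), (319, 1), (671, 1), (447, 1), (703, 1), (959, 1)]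
(.cut 11 [(0, 1), (1, 1), (2, 1), (3, 1), (5, 1), (7, 1), (11, 1), (21, 1), (15, 1), (23, 1), (31, 1), (47, 1), (63, 1), (159, 1), (303, 1), (191, 1), (319, 1), (671, 1), (447, 1), (703, 1), (1343, 1), (959, 1), (1471, 1)]
(.cut 6 [(0, 1), (1, 1), (2, 1), (3, 1), (5, 1), (7, 1), (11, 1), (21, 1), (15, 1), (23, 1), (31, 1), (47, 1), (63, 1), (159, 1), (303, 1), (191, 1), (319, 1), (1343, 1)]
(.cut 6 [(0, 1), (1, 1), (2, 1), (3, 1), (5, 1), (7, 1), (11, 1), (21, 1), (15, 1), (23, 1), (31, 1), (47, 1), (63, 1), (159, 1), (303, 1), (191, 1), (319, 1), (447, 1), (1343, 1), (1471, 1)]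
(.lp [[6], [1, 3, 5, 8, 10], [0, 2, 4, 7, 9, 11]] [(.mj 0 1, 381913), (.mj 8 9, 12149), (.mj 10 6, 1398), (.mj 11 6, 13879), (.hz 20 95, 2275702), (.hz 20 2783, 3875113), (.rw 10, 10), (.rw 11, 1), (.rw 12, 16), (.rw 13, 15)])))))))))
(.lp [[6], [1, 3, 5, 8, 10], [0, 2, 4, 7, 9, 11]] [(.mj 8 9, 405), (.mj 10 11, 219), (.rw 9, 1), (.hz 21 959, 6043144), (.hz 17 3007, 2694387)]))
(.cut 6 [(0, 1), (1, 1), (2, 1), (3, 1), (5, 1), (7, 1), (11, 1), (21, 1), (15, 1), (23, 1), (31, 1), (47, 1), (63, 1), (159, 1), (303, 1), (191, 1), (319, 1), (671, 1), (447, 1), (703, 1), (959, 1)]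
(.lp [[6], [1, 3, 5, 8, 10], [0, 2, 4, 7, 9, 11]] [(.mj 7 8, 661), (.mj 8 9, 1044), (.mj 11 6, 772), (.mj 11 10, 304), (.hz 19 1471, 709270), (.rw 10, 2)]))
.fin))
(.ref 0))
(.lp [[6], [0, 2, 4, 7, 9], [1, 3, 5, 8, 10]] [(.mj 3 4, 86), (.mj 5 7, 11), (.mj 7 8, 3), (.mj 8 9, 9), (.hz 20 31, 7152), (.hz 12 95, 10076), (.hz 18 127, 1745), (.hz 13 671, 12808)]))
(.lp [[6], [0, 2, 4, 7, 9], [1, 3, 5, 8, 10]] [(.mj 7 8, 1517), (.mj 9 10, 671), (.rw 8, 4), (.hz 19 447, 20536943)]))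
(.ask 671
(.mark 959 [6, 10, 11]
(.cut 6 [(0, 1), (1, 1), (2, 1), (3, 1), (5, 1), (7, 1), (11, 1), (21, 1), (15, 1), (23, 1), (31, 1), (47, 1), (63, 1), (159, 1), (303, 1), (191, 1), (319, 1), (671, 1), (447, 1), (703, 1), (959, 1)]
(.lp [[6], [1, 3, 5, 8, 10], [0, 2, 4, 7, 9, 11]] [(.mj 7 8, 9048), (.mj 10 6, 5636), (.mj 10 9, 4497), (.hz 13 671, 2137219), (.hz 16 703, 2154996), (.hz 17 959, 13323153), (.hz 16 2751, 749430), (.hz 17 3007, 12490492), (.rw 9, 11)])))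
(.cut 6 [(0, 1), (1, 1), (2, 1), (3, 1), (5, 1), (7, 1), (11, 1), (21, 1), (15, 1), (23, 1), (31, 1), (47, 1), (63, 1), (159, 1), (303, 1), (191, 1), (319, 1), (447, 1)]
(.lp [[6], [0, 2, 4, 7, 9], [1, 3, 5, 8, 10]] [(.mj 7 8, 3298), (.mj 10 6, 2054), (.mj 10 9, 1556), (.hz 16 703, 766559), (.hz 12 735, 1928082), (.hz 17 959, 4082192), (.rw 9, 4)])))
.fin))

theorem run201 : run P3488 (leaf3 218 625) (cutRow P3488) [s197] t201 s201 = true := by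
  decide +kernel

theorem bad201 : Bad P3488 s201 :=
  run_sound (leaf3_sound P3488 rfl rfl) (cutRow_sound P3488) (
    List.forall_mem_cons.2 ⟨bad197, fun _ h => absurd h List.not_mem_nil⟩) t201 s201 run201

/-- the state above piece 187 of the tree -/
def s187 : St := ⟨[0, 0, 1, 3, 5, 15, 21, 47, 47, 127, 255], [303, 255, 191, 175, 127, 95, 87, 85, 63, 31, 23, 21, 15, 11, 7, 5, 3, 2, 1, 0], [0, 1, 2, 3, 4, 5, 6, 7, 8],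
  [(5, 6), (4, 5)],
  [⟨true, 2, 3, 3, 10⟩, ⟨true, 1, 5, 2, 5⟩, ⟨true, 2, 3, 23, 50⟩, ⟨true, 1, 5, 12, 25⟩, ⟨true, 1, 21, 27, 50⟩, ⟨true, 4, 15, 9, 40⟩, ⟨true, 3, 23, 11, 20⟩, ⟨true, 4, 47, 7, 20⟩, ⟨true, 4, 47, 17, 40⟩, ⟨true, 4, 47, 9, 20⟩, ⟨true, 4, 47, 19, 40⟩, ⟨true, 3, 87, 27, 40⟩, ⟨true, 5, 95, 1, 4⟩, ⟨true, 7, 383, 1, 20⟩, ⟨true, 6, 191, 11, 40⟩, ⟨true, 8, 255, 3, 40⟩, ⟨true, 7, 303, 3, 40⟩, ⟨true, 6, 319, 7, 20⟩, ⟨true, 8, 191, 1, 10⟩, ⟨true, 6, 319, 2, 5⟩, ⟨true, 8, 639, 1, 8⟩, ⟨true, 7, 319, 1, 5⟩, ⟨true, 7, 639, 3, 20⟩, ⟨true, 6, 191, 2, 5⟩, ⟨true, 7, 639, 9, 40⟩, ⟨true, 7, 639, 11, 40⟩, ⟨true, 6, 191, 17, 40⟩, ⟨true, 8, 255, 1, 8⟩],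
  [.spn 0 0 651200, .spn 1 1 302400, .spn 3 2 302400, .spn 7 3 302400, .spn 15 4 302400, .spn 31 5 302400, .spn 63 6 140426, .spn 127 7 140426, .spn 255 8 62723]⟩

/-- piece 187 of the tree -/
noncomputable def t187 : WN.Tree :=
(.haz 9 1535 1 10
(.ask 431
(.mark 511 [9, 10, 11]
(.spn
(.haz 9 1279 9 40
(.ask 639
(.mark 1023 [10, 11, 12]
(.spn
(.ask 1279
(.mark 2047 [11, 12, 13]
(.lp [[8, 11], [0, 2, 4, 6, 9, 12], [1, 3, 5, 7, 10, 13]] [(.mj 4 5, 43), (.mj 6 7, 10), (.mj 7 8, 12), (.mj 8 9, 22), (.mj 9 10, 5), (.hz 29 1279, 14685), (.hz 25 4735, 4301), (.hz 29 9471, 16205)]))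
(.lp [[8, 11], [1, 3, 5, 7, 10], [0, 2, 4, 6, 9, 12]] [(.mj 4 5, 29), (.mj 7 8, 11), (.mj 8 9, 12), (.mj 9 10, 4), (.hz 20 4735, 44308)]))
(.lp [[8, 11], [1, 3, 5, 7, 10], [0, 2, 4, 6, 9, 12]] [(.mj 6 7, 29), (.mj 7 8, 14), (.mj 8 9, 21), (.mj 11 10, 4), (.hz 27 1279, 8147), (.hz 29 1279, 26300), (.hz 25 4735, 4921), (.hz 20 1791, 66984)])
(.lp [[8, 11], [1, 3, 5, 7, 10], [0, 2, 4, 6, 9, 12]] [(.mj 6 7, 9), (.mj 7 8, 5), (.mj 8 9, 9), (.mj 12 10, 2), (.mj 12 11, 1), (.hz 29 1279, 11210), (.hz 25 4735, 187), (.hz 29 1535, 4523)])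
.fin))
(.ask 1279
(.mark 1279 [8, 9, 12]
(.lp [[8, 11], [0, 2, 4, 6, 9], [1, 3, 5, 7, 10, 12]] [(.mj 6 7, 188), (.mj 7 8, 160), (.mj 8 9, 176), (.mj 9 10, 42), (.hz 29 1279, 131010), (.hz 29 5375, 129496)]))
(.lp [[8, 11], [0, 2, 4, 6, 9], [1, 3, 5, 7, 10]] [(.mj 6 7, 19), (.mj 7 8, 22), (.mj 8 9, 18), (.mj 9 10, 6)])))
(.lp [[8, 11], [0, 2, 4, 6, 9], [1, 3, 5, 7, 10]] [(.mj 6 7, 23), (.mj 7 8, 27), (.mj 9 10, 20), (.hz 29 127, 13956), (.hz 29 255, 18676), (.hz 27 1279, 165414)]))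
(.ask 639
(.mark 1023 [10, 11, 12]
(.cut 9 [(0, 1), (1, 1), (2, 1), (3, 1), (5, 1), (7, 1), (11, 1), (21, 1), (15, 1), (23, 1), (85, 1), (31, 1), (47, 1), (87, 1), (63, 1), (95, 1), (175, 1), (303, 1), (127, 1), (191, 1), (319, 1), (431, 1), (255, 1), (383, 1), (447, 1), (511, 1)]
(.lp [[8, 11], [1, 3, 5, 7, 10], [0, 2, 4, 6, 9, 12]] [(.mj 3 4, 5315), (.mj 6 7, 7496), (.mj 8 10, 177), (.mj 10 9, 2002), (.hz 25 4735, 1050889), (.hz 28 1535, 1873542), (.hz 25 4991, 4270957), (.rw 10, 1)])))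
(.lp [[8, 11], [0, 2, 4, 6, 9], [1, 3, 5, 7, 10]] [(.mj 6 7, 45), (.mj 7 8, 5), (.mj 8 10, 6), (.mj 10 9, 13), (.hz 25 895, 27505), (.hz 28 1535, 27541)]))
(.lp [[8, 11], [0, 2, 4, 6, 9], [1, 3, 5, 7, 10]] [(.mj 6 7, 17), (.mj 7 8, 1), (.mj 11 9, 9), (.mj 11 10, 4), (.hz 25 639, 3520), (.hz 27 1279, 15014)])
.fin))
(.ask 319
(.mark 511 [9, 10, 11]
(.spn
(.haz 8 255 7 40
(.haz 9 1279 1 4
(.haz 10 2559 1 5
(.ask 1279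
(.mark 1279 [8, 9, 12]
(.lp [[8, 11], [0, 2, 4, 6, 9], [1, 3, 5, 7, 10, 12]] [(.mj 4 5, 35), (.mj 7 8, 21), (.mj 8 9, 25), (.mj 9 10, 8), (.hz 25 639, 148), (.hz 30 1279, 170195), (.hz 31 2559, 274587), (.hz 30 5375, 181923)]))
(.lp [[8, 11], [0, 2, 4, 6, 9], [1, 3, 5, 7, 10]] [(.mj 4 5, 10), (.mj 7 8, 18), (.mj 8 9, 13), (.mj 9 10, 5), (.hz 20 639, 23407), (.hz 30 1279, 50602)]))
(.lp [[8, 11], [0, 2, 4, 6, 9], [1, 3, 5, 7, 10]] [(.mj 4 5, 3), (.mj 7 8, 2), (.mj 8 9, 2), (.hz 31 255, 11169), (.hz 20 639, 198), (.hz 31 511, 8794)]))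
(.lp [[8, 11], [0, 2, 4, 6, 9], [1, 3, 5, 7, 10]] [(.mj 6 7, 40), (.mj 7 8, 84), (.mj 9 10, 60), (.hz 30 127, 374822), (.hz 30 255, 595695), (.hz 29 1279, 90591)]))
(.lp [[8, 11], [0, 2, 4, 6, 9], [1, 3, 5, 7, 10]] [(.mj 3 4, 246), (.mj 6 7, 38), (.mj 9 10, 4), (.hz 29 63, 16185), (.hz 29 127, 884), (.hz 19 2367, 22161), (.hz 27 1279, 11913)]))
(.haz 10 767 7 20
(.haz 9 383 1 5
(.ask 639
(.mark 895 [7, 11, 12]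
(.lp [[8, 11], [1, 3, 5, 7, 10], [0, 2, 4, 6, 9, 12]] [(.mj 4 5, 289), (.mj 6 7, 12), (.mj 8 10, 47), (.mj 10 9, 64), (.hz 21 2367, 288944), (.hz 30 511, 886640), (.hz 30 2431, 1126809), (.hz 25 4735, 45406), (.hz 30 1535, 542737), (.hz 29 4863, 260043), (.hz 25 2943, 286614), (.hz 25 4991, 13117)]))
(.lp [[8, 11], [0, 2, 4, 6, 9], [1, 3, 5, 7, 10]] [(.mj 4 5, 70), (.mj 6 7, 10), (.mj 7 8, 8), (.mj 8 10, 15), (.mj 10 9, 15), (.hz 21 2367, 163813), (.hz 30 511, 261432), (.hz 29 767, 34416), (.hz 30 2431, 121511)]))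
(.lp [[8, 11], [0, 2, 4, 6, 9], [1, 3, 5, 7, 10]] [(.mj 4 5, 407), (.mj 6 7, 1), (.mj 8 10, 46), (.hz 30 127, 524903), (.hz 30 383, 192174), (.hz 21 2367, 896346), (.hz 29 767, 107909)]))
(.lp [[8, 11], [0, 2, 4, 6, 9], [1, 3, 5, 7, 10]] [(.mj 4 5, 29), (.mj 7 8, 2), (.mj 10 9, 7), (.hz 29 255, 19896), (.hz 20 639, 21992), (.hz 21 2367, 16111), (.hz 20 767, 57552), (.hz 28 1535, 13780)]))
(.lp [[8, 11], [0, 2, 4, 6, 9], [1, 3, 5, 7, 10]] [(.mj 4 5, 98), (.mj 7 8, 22), (.mj 11 9, 29), (.mj 11 10, 19), (.hz 25 639, 7423), (.hz 20 639, 132142), (.hz 20 767, 249979), (.hz 27 1279, 246960), (.hz 28 1535, 863806)])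
.fin))
(.haz 9 1279 2 25
(.haz 9 1279 7 50
(.haz 9 383 1 10
(.haz 9 383 3 25
(.haz 9 383 7 50
(.haz 8 1279 9 50
(.ask 383
(.mark 511 [9, 10, 11]
(.spn
(.haz 10 2559 3 20
(.ask 639
(.mark 1023 [10, 11, 12]
(.lp [[8, 11], [1, 3, 5, 7, 10], [0, 2, 4, 6, 9, 12]] [(.mj 3 4, 247), (.mj 7 8, 66), (.mj 8 9, 17), (.mj 9 10, 33), (.hz 34 1279, 14857), (.hz 33 2431, 59404), (.hz 20 4735, 424136), (.hz 35 2559, 212294)]))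
(.ask 895
(.mark 1023 [10, 11, 12]
(.lp [[8, 11], [1, 3, 5, 7, 10], [0, 2, 4, 6, 9, 12]] [(.mj 7 8, 165), (.mj 8 9, 27), (.mj 8 10, 60), (.mj 9 10, 43)]))
(.haz 8 767 9 40
(.haz 9 1279 11 40
(.ask 1279
(.mark 1279 [8, 9, 12]
(.lp [[8, 11], [0, 2, 4, 6, 9], [1, 3, 5, 7, 10, 12]] [(.mj 7 8, 28), (.mj 8 9, 20), (.mj 9 10, 10), (.hz 36 767, 3192), (.hz 37 1279, 10642), (.hz 33 2431, 21309), (.hz 35 2559, 66336), (.hz 36 1791, 3486), (.hz 34 5375, 2789), (.hz 37 5375, 14462)]))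
(.lp [[8, 11], [0, 2, 4, 6, 9], [1, 3, 5, 7, 10]] [(.mj 4 5, 87), (.mj 7 8, 18), (.mj 8 9, 22), (.mj 9 10, 4), (.hz 36 767, 4157), (.hz 37 1279, 7608)]))
(.lp [[8, 11], [0, 2, 4, 6, 9], [1, 3, 5, 7, 10]] [(.mj 3 4, 104), (.mj 7 8, 53), (.mj 9 10, 34), (.hz 37 255, 40846), (.hz 34 1279, 34364), (.hz 35 2559, 200936)]))
(.lp [[8, 11], [0, 2, 4, 6, 9], [1, 3, 5, 7, 10]] [(.mj 3 4, 28), (.mj 9 10, 1), (.hz 36 127, 1254), (.hz 36 255, 2451), (.hz 34 1279, 514), (.hz 33 2431, 2498), (.hz 35 2559, 6516)]))))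
(.lp [[8, 11], [0, 2, 4, 6, 9], [1, 3, 5, 7, 10]] [(.mj 7 8, 10), (.mj 8 9, 8), (.mj 9 11, 2), (.hz 35 255, 12270), (.hz 35 511, 13430)]))
(.ask 1279
(.mark 1535 [9, 11, 12]
(.spn
(.haz 10 767 9 20
(.haz 8 767 1 5
(.haz 7 2431 2 5
(.haz 12 3583 7 20
(.ask 639
(.mark 767 [8, 10, 13]
(.lp [[8, 11], [0, 2, 4, 6, 9, 13], [1, 3, 5, 7, 10, 12]] [(.mj 4 5, 25996), (.mj 7 8, 5959), (.mj 8 10, 5337), (.mj 9 11, 590), (.mj 9 12, 2828), (.mj 10 9, 7477), (.rw 10, 1), (.hz 33 2431, 7821725), (.hz 25 8831, 4170715), (.hz 20 8831, 34468118), (.hz 33 2559, 27331720), (.hz 36 8959, 96684262), (.hz 35 8959, 19778556), (.hz 30 5375, 1039506), (.hz 38 3583, 37761701)]))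
(.ask 767
(.mark 1023 [10, 11, 13]
(.lp [[8, 11], [0, 2, 4, 6, 9, 13], [1, 3, 5, 7, 10, 12]] [(.mj 4 5, 122), (.mj 7 8, 16), (.mj 8 10, 21), (.mj 10 9, 12), (.hz 33 383, 9002), (.hz 35 767, 25158), (.hz 37 2431, 47319), (.hz 33 2559, 33800), (.hz 36 8959, 46916), (.hz 35 8959, 50006)]))
(.lp [[8, 11], [0, 2, 4, 6, 9], [1, 3, 5, 7, 10, 12]] [(.mj 6 7, 21), (.mj 7 8, 20), (.mj 8 10, 12), (.mj 10 9, 4)])))
(.lp [[8, 11], [0, 2, 4, 6, 9], [1, 3, 5, 7, 10, 12]] [(.mj 4 5, 2364), (.mj 7 8, 84), (.mj 8 10, 185), (.mj 9 11, 304), (.mj 10 9, 926), (.hz 33 383, 318417), (.hz 38 1279, 922275), (.hz 33 2431, 543851), (.hz 38 1535, 3344299), (.hz 33 2559, 4144005)]))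
(.lp [[8, 11], [0, 2, 4, 6, 9], [1, 3, 5, 7, 10, 12]] [(.mj 3 4, 7), (.mj 7 8, 1), (.hz 37 127, 3115), (.hz 37 383, 6651)]))
(.lp [[8, 11], [0, 2, 4, 6, 9], [1, 3, 5, 7, 10, 12]] [(.mj 3 4, 18), (.mj 8 10, 5), (.mj 10 9, 1), (.hz 36 127, 16776), (.hz 36 255, 64095), (.hz 35 767, 11807)]))
(.lp [[8, 11], [0, 2, 4, 6, 9], [1, 3, 5, 7, 10, 12]] [(.mj 4 5, 256), (.mj 7 8, 19), (.mj 9 12, 4), (.mj 10 9, 80), (.hz 35 255, 117299), (.hz 33 383, 45620), (.hz 33 511, 117367), (.hz 33 2431, 57603), (.hz 33 2559, 174218), (.hz 30 5375, 2735), (.hz 25 2943, 48562)]))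
(.lp [[8, 11], [0, 2, 4, 6, 9], [1, 3, 5, 7, 10, 12]] [(.mj 4 5, 10), (.mj 7 8, 3), (.mj 11 9, 5), (.mj 11 12, 1), (.hz 33 383, 3377), (.hz 33 511, 8662), (.hz 30 1279, 1857), (.hz 30 1535, 10375), (.hz 33 2559, 44), (.hz 34 5375, 3829), (.hz 30 5375, 3506), (.hz 30 5631, 17531)])
(.lp [[8, 11], [0, 2, 4, 6, 9], [1, 3, 5, 7, 10, 12]] [(.mj 4 5, 3), (.mj 7 8, 1), (.mj 8 10, 1), (.mj 12 9, 2), (.hz 33 383, 1240), (.hz 33 511, 2928), (.hz 30 1279, 2187), (.hz 33 2431, 1088), (.hz 30 1535, 4377), (.hz 33 2559, 4377)])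
.fin))
(.lp [[8, 11], [0, 2, 4, 6, 9], [1, 3, 5, 7, 10]] [(.mj 4 5, 88), (.mj 10 9, 22), (.hz 33 383, 7457), (.hz 25 639, 966), (.hz 20 639, 2540), (.hz 33 511, 50966), (.hz 21 2431, 60466), (.hz 33 2431, 27094), (.hz 25 2943, 64673)]))
(.lp [[8, 11], [0, 2, 4, 6, 9], [1, 3, 5, 7, 10]] [(.mj 7 8, 6), (.mj 11 9, 5), (.mj 11 10, 3), (.hz 33 383, 6463), (.hz 33 511, 7170), (.hz 34 1279, 3141), (.hz 30 1279, 5486), (.hz 33 2431, 1692)])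
.fin))
(.ref 0))
(.lp [[8], [0, 2, 4, 6, 9], [1, 3, 5, 7, 10]] [(.mj 3 4, 29), (.mj 6 7, 7), (.hz 34 127, 1579), (.hz 34 191, 607)]))
(.lp [[8], [0, 2, 4, 6, 9], [1, 3, 5, 7, 10]] [(.mj 4 5, 42), (.mj 7 8, 8), (.mj 8 10, 8), (.hz 33 127, 12128), (.hz 32 383, 17512), (.hz 30 1279, 7669)]))
(.lp [[8], [0, 2, 4, 6, 9], [1, 3, 5, 7, 10]] [(.mj 4 5, 10), (.mj 7 8, 2), (.mj 8 10, 2), (.hz 32 127, 5518), (.hz 31 383, 10117), (.hz 30 1279, 1752)]))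
(.lp [[8], [0, 2, 4, 6, 9], [1, 3, 5, 7, 10]] [(.mj 4 5, 17), (.mj 7 8, 4), (.mj 8 10, 3), (.hz 31 127, 21633), (.hz 20 639, 23643), (.hz 30 1279, 3092)]))
(.lp [[8], [0, 2, 4, 6, 9], [1, 3, 5, 7, 10]] [(.mj 4 5, 98), (.mj 7 8, 20), (.mj 8 10, 21), (.hz 30 127, 11629), (.hz 30 255, 13686), (.hz 20 639, 43824), (.hz 29 1279, 38734)]))
(.lp [[8], [0, 2, 4, 6, 9], [1, 3, 5, 7, 10]] [(.mj 4 5, 37), (.mj 7 8, 8), (.mj 8 10, 8), (.hz 29 127, 9331), (.hz 29 255, 9801)]))))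
(.lp [[8], [0, 2, 4, 6, 9], [1, 3, 5, 7, 10]] [(.mj 4 5, 34), (.mj 7 8, 7), (.mj 8 10, 8), (.hz 28 127, 19943), (.hz 28 255, 22874), (.hz 20 639, 15330)]))

theorem run187 : run P3488 (leaf3 218 625) (cutRow P3488) [s186] t187 s187 = true := by
  decide +kernel

theorem bad187 : Bad P3488 s187 :=
  run_sound (leaf3_sound P3488 rfl rfl) (cutRow_sound P3488) (
    List.forall_mem_cons.2 ⟨bad186, fun _ h => absurd h List.not_mem_nil⟩) t187 s187 run187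

/-- the state above piece 210 of the tree -/
def s210 : St := ⟨[0, 0, 1, 3, 5, 15, 23, 47, 47, 87, 255], [255, 191, 175, 127, 63, 31, 23, 21, 15, 11, 7, 5, 3, 2, 1, 0], [0, 1, 2, 3, 4, 5, 6, 7, 8],
  [(5, 6), (4, 5)],
  [⟨true, 2, 3, 3, 10⟩, ⟨true, 1, 5, 2, 5⟩, ⟨true, 2, 3, 23, 50⟩, ⟨true, 1, 5, 12, 25⟩, ⟨true, 1, 21, 27, 50⟩, ⟨true, 4, 15, 9, 40⟩, ⟨true, 3, 23, 11, 20⟩, ⟨true, 4, 47, 7, 20⟩, ⟨true, 4, 47, 17, 40⟩, ⟨true, 4, 47, 9, 20⟩, ⟨true, 4, 47, 19, 40⟩, ⟨true, 5, 95, 1, 5⟩, ⟨true, 5, 95, 3, 10⟩, ⟨true, 5, 31, 3, 10⟩, ⟨true, 5, 95, 11, 25⟩, ⟨true, 6, 63, 3, 20⟩, ⟨true, 8, 255, 1, 50⟩, ⟨true, 7, 319, 9, 40⟩, ⟨true, 7, 639, 4, 25⟩, ⟨true, 7, 639, 6, 25⟩, ⟨true, 7, 383, 7, 25⟩, ⟨true, 7, 383, 3, 10⟩, ⟨true, 7, 639, 7, 25⟩, ⟨true, 7, 639, 3, 10⟩, ⟨true, 7, 383, 8, 25⟩, ⟨true, 7, 639, 8, 25⟩, ⟨true, 6, 191, 9,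 25⟩, ⟨true, 8, 191, 1, 10⟩, ⟨true, 8, 191, 3, 25⟩, ⟨true, 5, 607, 16, 25⟩, ⟨true, 4, 303, 13, 25⟩, ⟨true, 3, 599, 7, 10⟩],
  [.spn 0 0 651200, .spn 1 1 302400, .spn 3 2 302400, .spn 7 3 302400, .spn 15 4 302400, .spn 31 5 302400, .spn 63 6 140426, .spn 127 7 140426, .spn 255 8 62723]⟩

/-- piece 210 of the tree -/
noncomputable def t210 : WN.Tree :=
(.haz 4 303 27 50
(.ask 303
(.mark 511 [9, 10, 11]
(.spn
(.haz 9 2559 7 50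
(.haz 11 2047 2 25
(.haz 9 2559 11 50
(.haz 10 511 11 25
(.lp [[8, 11], [0, 2, 4, 6, 9], [1, 3, 5, 7, 10]] [(.mj 3 4, 458), (.mj 7 8, 1362), (.mj 8 9, 2095), (.mj 9 10, 2095), (.rw 4, 4), (.hz 17 2367, 161691), (.hz 36 511, 5619584), (.hz 24 2431, 2636866), (.hz 26 2495, 2638376), (.hz 36 1023, 2409703), (.hz 35 2559, 327013), (.hz 36 2559, 15558301)])
(.haz 10 767 3 10
(.lp [[8, 11], [0, 2, 4, 6, 9], [1, 3, 5, 7, 10]] [(.mj 3 4, 1011), (.mj 6 7, 1640), (.mj 7 8, 2713), (.mj 8 9, 2161), (.mj 9 10, 251), (.hz 36 255, 2942438), (.hz 36 511, 2510580), (.hz 37 767, 6213368), (.hz 35 2559, 2226596), (.hz 37 3071, 4656984)])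
(.lp [[8, 11], [0, 2, 4, 6, 9], [1, 3, 5, 7, 10]] [(.mj 3 4, 872), (.mj 6 7, 1848), (.mj 7 8, 2216), (.mj 8 9, 2020), (.rw 4, 1), (.hz 37 255, 5806529), (.hz 36 511, 2482046)])))
(.lp [[8, 11], [0, 2, 4, 6, 9], [1, 3, 5, 7, 10]] [(.mj 3 4, 3256), (.mj 7 8, 1909), (.mj 9 10, 7973), (.rw 4, 69), (.rw 9, 14), (.hz 35 127, 4002782), (.hz 35 255, 4584421), (.hz 35 383, 1830949), (.hz 35 511, 53074466)]))
(.lp [[8, 11], [0, 2, 4, 6, 9], [1, 3, 5, 7, 10]] [(.mj 3 4, 54), (.mj 6 7, 12), (.mj 7 8, 7), (.mj 9 10, 3), (.hz 34 303, 9512), (.hz 28 1279, 543)]))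
(.lp [[8, 11], [0, 2, 4, 6, 9], [1, 3, 5, 7, 10]] [(.mj 4 5, 3), (.mj 7 8, 1), (.mj 9 10, 1), (.hz 33 87, 104), (.hz 33 95, 354), (.hz 33 127, 559), (.hz 33 255, 710), (.hz 33 511, 630), (.hz 28 1279, 2030)]))
(.haz 9 2431 3 25
(.haz 9 255 9 50
(.lp [[8, 11], [0, 2, 4, 6, 9], [1, 3, 5, 7, 10]] [(.mj 4 5, 5390), (.mj 6 7, 3010), (.mj 8 10, 962), (.mj 10 9, 4358), (.rw 4, 1), (.hz 29 607, 295509), (.hz 34 255, 1758192), (.hz 17 2367, 2174174), (.hz 34 511, 8353629), (.hz 34 1279, 1081904), (.hz 24 2431, 7713251), (.hz 33 2431, 9080582), (.hz 34 2559, 16179449)])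
(.ask 1279
(.mark 1535 [9, 11, 12]
(.spn
(.haz 12 3583 13 50
(.ask 599
(.mark 2047 [11, 12, 13]
(.lp [[8, 11], [0, 2, 4, 6, 9, 13], [1, 3, 5, 7, 10, 12]] [(.mj 4 5, 394), (.mj 7 8, 78), (.mj 8 10, 72), (.mj 9 12, 71), (.mj 10 9, 121), (.hz 34 87, 8303), (.hz 34 95, 47982), (.hz 33 2431, 326112), (.hz 33 2559, 1222428), (.hz 28 8959, 503803), (.hz 28 5375, 30029), (.hz 35 3583, 427206)]))
(.lp [[8, 11], [0, 2, 4, 6, 9], [1, 3, 5, 7, 10, 12]] [(.mj 4 5, 3435), (.mj 8 10, 224), (.mj 9 12, 424), (.mj 10 9, 719), (.hz 34 95, 247734), (.hz 34 127, 186050), (.hz 24 2431, 1113324), (.hz 33 2431, 1290552), (.hz 33 2559, 7125307), (.hz 28 5375, 411269), (.hz 35 3583, 2557969)]))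
(.lp [[8, 11], [0, 2, 4, 6, 9], [1, 3, 5, 7, 10, 12]] [(.mj 4 5, 15), (.mj 7 8, 1), (.mj 8 10, 1), (.mj 10 9, 2), (.hz 34 87, 310), (.hz 34 95, 1074), (.hz 34 127, 1214), (.hz 34 255, 592), (.hz 35 1279, 1464), (.hz 35 1535, 3465)]))
(.lp [[8, 11], [0, 2, 4, 6, 9], [1, 3, 5, 7, 10, 12]] [(.mj 4 5, 4479), (.mj 6 7, 946), (.mj 8 10, 43), (.mj 11 9, 62), (.rw 10, 1), (.hz 34 87, 101957), (.hz 34 95, 353742), (.hz 34 127, 446838), (.hz 34 255, 72386), (.hz 24 895, 1775353), (.hz 28 5375, 1391670)])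
(.haz 9 1535 7 50
(.cut 9 [(0, 1), (1, 1), (2, 1), (3, 1), (5, 1), (7, 1), (11, 1), (21, 1), (15, 1), (23, 1), (31, 1), (47, 1), (87, 1), (63, 1), (95, 1), (175, 1), (303, 1), (127, 1), (191, 1), (319, 1), (431, 1), (2351, 1), (255, 1), (383, 1), (447, 1), (2367, 1), (2479, 1), (511, 1), (1279, 1), (2495, 1), (1535, 1)]
(.lp [[8, 11], [0, 2, 4, 6, 9], [1, 3, 5, 7, 10, 12]] [(.mj 4 5, 476611), (.mj 8 10, 90948), (.mj 12 9, 90948), (.rw 9, 1), (.hz 34 87, 8248974), (.hz 34 95, 28619915), (.hz 34 127, 27446662), (.hz 24 2431, 167804278), (.hz 33 2431, 65859235), (.hz 35 1535, 463626925), (.hz 33 2559, 567850593), (.rw 11, 33)]))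
(.lp [[8, 11], [0, 2, 4, 6, 9], [1, 3, 5, 7, 10, 12]] [(.mj 4 5, 19), (.mj 6 7, 8), (.mj 8 10, 3), (.hz 35 87, 616), (.hz 35 95, 2104), (.hz 35 127, 3255), (.hz 35 255, 1673), (.hz 35 383, 4015), (.hz 24 2431, 23229)]))
.fin))
(.lp [[8, 11], [0, 2, 4, 6, 9], [1, 3, 5, 7, 10]] [(.mj 3 4, 2), (.mj 6 7, 22), (.mj 7 8, 6), (.mj 8 10, 2), (.hz 34 87, 574), (.hz 34 95, 2136), (.hz 34 127, 4904), (.hz 32 2351, 598), (.hz 34 255, 2738), (.hz 17 2367, 9615), (.hz 24 895, 3624), (.hz 24 2431, 24757)])))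
(.lp [[8, 11], [0, 2, 4, 6, 9], [1, 3, 5, 7, 10]] [(.mj 4 5, 8), (.mj 6 7, 4), (.mj 8 10, 1), (.hz 33 87, 528), (.hz 33 95, 1789), (.hz 33 127, 4350), (.hz 33 383, 1945), (.hz 24 2431, 9796)]))
(.haz 10 767 3 10
(.lp [[8, 11], [0, 2, 4, 6, 9], [1, 3, 5, 7, 10]] [(.mj 3 4, 4338), (.mj 7 8, 736), (.mj 11 9, 330), (.mj 11 10, 827), (.rw 4, 8), (.hz 28 767, 761122), (.hz 33 767, 5599576), (.hz 28 1279, 1604464)])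
(.lp [[8, 11], [0, 2, 4, 6, 9], [1, 3, 5, 7, 10]] [(.mj 4 5, 770), (.mj 7 8, 701), (.mj 11 9, 1301), (.mj 11 10, 436), (.rw 4, 4), (.hz 33 255, 2487120)]))
.fin))
(.ask 431
(.mark 511 [9, 10, 11]
(.lp [[8, 11], [0, 2, 4, 6, 9], [1, 3, 5, 7, 10]] [(.mj 3 4, 176), (.mj 6 7, 75), (.mj 7 8, 16), (.mj 8 10, 2), (.hz 32 2479, 2600)]))
(.haz 9 1279 2 25
(.haz 8 1279 4 25
(.ask 319
(.mark 511 [9, 10, 11]
(.spn
(.ask 1279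
(.haz 9 5375 4 25
(.haz 10 511 21 50
(.mark 1279 [8, 9, 12]
(.lp [[8, 11], [0, 2, 4, 6, 9], [1, 3, 5, 7, 10, 12]] [(.mj 3 4, 2), (.mj 6 7, 4), (.mj 7 8, 15), (.mj 8 9, 14), (.mj 9 10, 9), (.hz 25 639, 1038), (.hz 15 2367, 273), (.hz 26 2495, 7418), (.hz 36 1023, 8156), (.hz 36 2559, 31763), (.hz 34 5375, 5452), (.hz 35 5375, 26895)]))
(.haz 10 2559 7 25
(.mark 1535 [9, 11, 12]
(.lp [[8, 11], [0, 2, 4, 6, 9], [1, 3, 5, 7, 10, 12]] [(.mj 3 4, 16), (.mj 6 7, 19), (.mj 7 8, 40), (.mj 8 9, 37), (.mj 9 10, 15), (.mj 9 11, 2), (.hz 36 255, 6602), (.hz 37 2559, 105250), (.hz 35 5375, 72493), (.hz 35 5631, 26247)]))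
(.lp [[8, 11], [0, 2, 4, 6, 9], [1, 3, 5, 7, 10, 12]] [(.mj 3 4, 11), (.mj 6 7, 19), (.mj 7 8, 24), (.mj 8 9, 20), (.hz 37 255, 23557), (.hz 37 511, 19043)])))
(.lp [[8, 11], [0, 2, 4, 6, 9], [1, 3, 5, 7, 10, 12]] [(.mj 6 7, 4), (.mj 7 8, 6), (.mj 9 10, 4), (.hz 35 87, 653), (.hz 35 95, 2246), (.hz 35 127, 4959), (.hz 35 255, 6595), (.hz 34 1279, 10354)]))
(.lp [[8, 11], [0, 2, 4, 6, 9], [1, 3, 5, 7, 10]] [(.mj 3 4, 8111), (.mj 6 7, 3881), (.mj 7 8, 6804), (.mj 8 9, 4087), (.mj 9 10, 1715), (.rw 9, 1)]))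
(.haz 9 255 7 50
(.ask 1279
(.mark 1535 [9, 11, 12]
(.spn
(.haz 12 1535 11 25
(.haz 11 511 6 25
(.ask 5375
(.mark 5375 [8, 9, 13]
(.lp [[8, 11], [0, 2, 4, 6, 9], [1, 3, 5, 7, 10, 12, 13]] [(.mj 6 7, 4), (.mj 7 8, 5), (.mj 8 10, 19), (.mj 9 11, 44), (.mj 9 12, 18), (.mj 10 9, 49), (.hz 37 1023, 600404), (.hz 37 1535, 19165), (.hz 36 2047, 320), (.hz 37 5631, 465942), (.hz 34 13567, 73650), (.hz 37 13823, 305545)]))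
(.lp [[8, 11], [0, 2, 4, 6, 9], [1, 3, 5, 7, 10, 12]] [(.mj 6 7, 1693), (.mj 7 8, 1491), (.mj 8 9, 389), (.mj 9 12, 107), (.mj 10 9, 1102), (.rw 10, 2), (.hz 37 511, 2851892), (.hz 37 1023, 27204173), (.hz 37 5631, 1219890)]))
(.lp [[8, 11], [0, 2, 4, 6, 9], [1, 3, 5, 7, 10, 12]] [(.mj 6 7, 78), (.mj 7 8, 12), (.mj 8 10, 1), (.mj 9 12, 34), (.mj 10 9, 68), (.hz 37 319, 24373), (.hz 37 383, 91590), (.hz 17 2367, 21700), (.hz 35 2559, 363734), (.hz 35 5375, 667), (.hz 36 3583, 357919)]))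
(.lp [[8, 11], [0, 2, 4, 6, 9], [1, 3, 5, 7, 10, 12]] [(.mj 6 7, 3630), (.mj 7 8, 5139), (.mj 8 10, 1336), (.mj 10 9, 5139), (.rw 10, 2), (.hz 36 1279, 4730292), (.hz 36 1535, 13646975), (.hz 35 2559, 48433049)]))
(.lp [[8, 11], [0, 2, 4, 6, 9], [1, 3, 5, 7, 10, 12]] [(.mj 6 7, 1446), (.mj 7 8, 1427), (.mj 11 9, 1427), (.rw 10, 1), (.hz 35 255, 399399), (.hz 35 511, 4791589), (.hz 35 1279, 464418), (.hz 35 1535, 4245170), (.hz 35 2559, 3578907), (.hz 34 5375, 3014244), (.hz 35 5375, 820416), (.hz 35 5631, 4137748)])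
(.lp [[8, 11], [0, 2, 4, 6, 9], [1, 3, 5, 7, 10, 12]] [(.mj 4 5, 3575), (.mj 6 7, 219), (.mj 7 8, 1426), (.mj 8 10, 1207), (.mj 12 9, 3043), (.rw 4, 1), (.hz 29 607, 195975), (.hz 35 255, 620952), (.hz 35 511, 6724426), (.hz 35 1279, 3107290), (.hz 24 2431, 2799088), (.hz 35 1535, 7075281), (.hz 35 2559, 14905341)])
.fin))
(.lp [[8, 11], [0, 2, 4, 6, 9], [1, 3, 5, 7, 10]] [(.mj 3 4, 82), (.mj 6 7, 87), (.mj 7 8, 33), (.mj 10 9, 40), (.hz 17 2367, 45529), (.hz 35 511, 118444), (.hz 24 2431, 83859), (.hz 35 2559, 192768)]))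
(.lp [[8, 11], [0, 2, 4, 6, 9], [1, 3, 5, 7, 10]] [(.mj 4 5, 30), (.mj 6 7, 26), (.mj 7 8, 11), (.mj 8 10, 11), (.hz 35 87, 1615), (.hz 35 95, 5510), (.hz 35 127, 9849), (.hz 35 255, 7524), (.hz 17 2367, 702), (.hz 33 1279, 25459), (.hz 24 2431, 38638)]))
(.ask 2367
(.mark 2559 [9, 10, 12]
(.lp [[7, 10], [0, 2, 4, 6, 9], [1, 3, 5, 8, 11, 12]] [(.mj 3 4, 96), (.mj 6 7, 68), (.mj 7 8, 143), (.mj 11 9, 95), (.mj 11 10, 64), (.hz 25 639, 52902), (.hz 28 767, 501211), (.hz 34 1279, 140614), (.hz 33 1279, 251983), (.hz 33 1535, 1001907), (.hz 33 3583, 224276)]))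
(.cut 9 [(0, 1), (1, 1), (2, 1), (3, 1), (5, 1), (7, 1), (11, 1), (21, 1), (15, 1), (23, 1), (31, 1), (47, 1), (87, 1), (63, 1), (95, 1), (175, 1), (303, 1), (127, 1), (191, 1), (319, 1), (431, 1), (255, 1), (383, 1), (447, 1), (2367, 1), (511, 1), (2495, 1)]
(.lp [[8, 11], [0, 2, 4, 6, 9], [1, 3, 5, 7, 10]] [(.mj 3 4, 27401), (.mj 6 7, 8528), (.mj 7 8, 8748), (.mj 11 9, 2233), (.mj 11 10, 2592), (.hz 28 767, 18140132), (.hz 34 1279, 7904195), (.hz 33 1279, 6248994), (.hz 33 1535, 24573460), (.rw 10, 1)])))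
.fin))
(.ref 0))
(.lp [[8], [0, 2, 4, 6, 9], [1, 3, 5, 7, 10]] [(.mj 3 4, 23), (.mj 6 7, 6), (.mj 8 10, 1), (.hz 34 63, 3359), (.hz 34 127, 1007), (.hz 33 1279, 2375)]))
(.lp [[8], [0, 2, 4, 6, 9], [1, 3, 5, 7, 10]] [(.mj 0 1, 636), (.mj 7 8, 13), (.mj 8 10, 14), (.hz 33 87, 7888), (.hz 33 95, 13364), (.hz 33 127, 16219), (.hz 33 255, 14361), (.hz 28 767, 14276)]))))
(.lp [[8], [0, 2, 4, 6, 9], [1, 3, 5, 7, 10]] [(.mj 3 4, 489), (.mj 7 8, 65), (.rw 4, 8), (.hz 32 47, 501545), (.hz 30 303, 156311), (.hz 30 431, 171994), (.hz 25 639, 8612), (.hz 28 767, 71767)]))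

theorem run210 : run P3488 (leaf3 218 625) (cutRow P3488) [s209] t210 s210 = true := by
  decide +kernel

theorem bad210 : Bad P3488 s210 :=
  run_sound (leaf3_sound P3488 rfl rfl) (cutRow_sound P3488) (
    List.forall_mem_cons.2 ⟨bad209, fun _ h => absurd h List.not_mem_nil⟩) t210 s210 run210

/-- the state above piece 217 of the tree -/
def s217 : St := ⟨[0, 0, 1, 3, 5, 15, 23, 47, 47, 127, 175, 639], [255, 127, 95, 87, 63, 31, 23, 21, 15, 11, 7, 5, 3, 2, 1, 0], [0, 1, 2, 3, 4, 5, 6, 7, 9],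
  [(5, 6), (4, 5)],
  [⟨true, 2, 3, 3, 10⟩, ⟨true, 1, 5, 2, 5⟩, ⟨true, 2, 3, 23, 50⟩, ⟨true, 1, 5, 12, 25⟩, ⟨true, 1, 21, 27, 50⟩, ⟨true, 4, 15, 9, 40⟩, ⟨true, 3, 23, 11, 20⟩, ⟨true, 4, 47, 7, 20⟩, ⟨true, 4, 47, 17, 40⟩, ⟨true, 4, 47, 9, 20⟩, ⟨true, 4, 47, 19, 40⟩, ⟨true, 5, 95, 1, 5⟩, ⟨true, 5, 95, 3, 10⟩, ⟨true, 5, 31, 3, 10⟩, ⟨true, 5, 95, 11, 25⟩, ⟨true, 6, 63, 3, 20⟩, ⟨true, 8, 255, 1, 50⟩, ⟨true, 6, 319, 13, 40⟩, ⟨true, 6, 191, 13, 40⟩, ⟨true, 7, 383, 3, 40⟩, ⟨true, 8, 191, 1, 20⟩, ⟨true, 6, 319, 17, 40⟩, ⟨true, 6, 319, 19, 40⟩, ⟨true, 9, 1279, 9, 25⟩, ⟨true, 8, 127, 3, 50⟩],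
  [.spn 0 0 651200, .spn 1 1 302400, .spn 3 2 302400, .spn 7 3 302400, .spn 15 4 302400, .spn 31 5 302400, .spn 63 6 140426, .spn 127 7 140426, .spn 255 9 140426]⟩

/-- piece 217 of the tree -/
noncomputable def t217 : WN.Tree :=
(.mark 767 [8, 10, 11]
(.spn
(.haz 10 2815 4 25
(.haz 8 2815 7 50
(.haz 10 2815 11 50
(.haz 8 1279 3 25
(.ask 2687
(.mark 2815 [8, 10, 12]
(.lp [[8], [1, 3, 5, 7, 10], [0, 2, 4, 6, 9, 11, 12]] [(.mj 0 1, 338), (.mj 7 9, 33), (.mj 8 10, 25), (.mj 8 11, 6), (.mj 9 8, 35), (.hz 20 1215, 17400), (.hz 28 1279, 99045), (.hz 26 2815, 6384), (.hz 27 2815, 30367), (.hz 24 6783, 6232), (.hz 26 6911, 10030), (.hz 27 6911, 38518)]))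
(.ask 2815
(.mark 2815 [8, 10, 12]
(.ask 6911
(.mark 6911 [8, 10, 13]
(.lp [[8], [1, 3, 5, 7, 10], [0, 2, 4, 6, 9, 11, 12, 13]] [(.mj 0 1, 125), (.mj 7 9, 12), (.mj 8 10, 9), (.mj 8 11, 2), (.mj 9 8, 13), (.hz 20 1215, 6103), (.hz 28 1279, 36370), (.hz 27 2815, 9987), (.hz 27 3071, 2581), (.hz 27 6911, 8573), (.hz 27 15103, 10991)]))
(.lp [[8], [1, 3, 5, 7, 10], [0, 2, 4, 6, 9, 11, 12]] [(.mj 0 1, 112), (.mj 7 9, 10), (.mj 8 10, 6), (.mj 9 8, 9), (.hz 20 1215, 1382), (.hz 28 1279, 30049), (.hz 27 2815, 2311), (.hz 27 3071, 6473), (.hz 27 6911, 2963)])))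
(.lp [[8], [1, 3, 5, 7, 10], [0, 2, 4, 6, 9, 11]] [(.mj 0 1, 48), (.mj 7 9, 4), (.mj 8 10, 3), (.mj 9 8, 4), (.hz 28 1279, 12446)])))
(.lp [[8], [1, 3, 5, 7, 10], [0, 2, 4, 6, 9, 11]] [(.mj 0 1, 143), (.mj 7 9, 8), (.mj 8 10, 13), (.mj 8 11, 6), (.hz 28 47, 364), (.hz 28 63, 3511), (.hz 28 175, 413), (.hz 28 127, 9821), (.hz 28 191, 4459), (.hz 28 255, 37368), (.hz 24 1279, 11275), (.hz 24 2687, 2317), (.hz 27 2815, 27029)]))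
(.ask 303
(.mark 1023 [10, 11, 12]
(.lp [[8, 12], [1, 3, 5, 7, 10], [0, 2, 4, 6, 9, 11]] [(.mj 0 1, 136), (.mj 7 9, 12), (.mj 8 11, 6), (.mj 9 8, 8), (.hz 27 175, 186), (.hz 27 191, 2068), (.hz 27 255, 7578), (.hz 27 767, 9299), (.hz 25 2815, 20888)]))
(.ask 319
(.mark 1023 [10, 11, 12]
(.lp [[8, 12], [1, 3, 5, 7, 10], [0, 2, 4, 6, 9, 11]] [(.mj 0 1, 24866), (.mj 7 9, 2409), (.mj 8 11, 878), (.mj 9 8, 1477), (.rw 9, 1), (.hz 27 175, 26428), (.hz 27 191, 346972), (.hz 27 255, 1304826), (.hz 27 767, 1490450), (.hz 25 2815, 3137841)]))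
(.haz 8 2815 11 50
(.lp [[8], [1, 3, 5, 7, 10], [0, 2, 4, 6, 9, 11]] [(.mj 0 1, 1365), (.mj 7 9, 130), (.mj 8 11, 34), (.mj 9 8, 90), (.hz 27 175, 1537), (.hz 27 191, 15586), (.hz 27 255, 65386), (.hz 20 1215, 148716), (.hz 27 767, 81370), (.hz 24 1279, 79100), (.hz 28 2815, 99632), (.hz 25 2815, 122863)])
(.lp [[8], [1, 3, 5, 7, 10], [0, 2, 4, 6, 9, 11]] [(.mj 0 1, 337), (.mj 7 9, 10), (.mj 8 11, 30), (.mj 9 8, 22), (.hz 27 175, 379), (.hz 27 191, 3849), (.hz 27 255, 16146), (.hz 20 1215, 36724), (.hz 28 767, 41259), (.hz 27 767, 41259), (.hz 24 1279, 19533), (.hz 26 2815, 4415), (.hz 25 2815, 108059)])))))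
(.lp [[8], [1, 3, 5, 7, 10], [0, 2, 4, 6, 9, 11]] [(.mj 8 10, 136), (.mj 8 11, 145), (.rw 9, 1), (.hz 26 767, 1810376), (.hz 24 1279, 178767), (.hz 24 2687, 52165), (.hz 25 2815, 858887)]))
(.lp [[8], [1, 3, 5, 7, 10], [0, 2, 4, 6, 9, 11]] [(.mj 7 9, 26), (.mj 8 11, 12), (.mj 9 8, 25), (.hz 25 175, 3272), (.hz 25 191, 11940), (.hz 25 255, 29890), (.hz 20 1215, 23480), (.hz 25 767, 35619), (.hz 24 1279, 21784), (.hz 24 2687, 24640)]))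
(.haz 7 383 7 25
(.ask 1199
(.mark 1791 [8, 11, 12]
(.spn
(.lp [[8], [0, 2, 4, 6, 9, 11], [1, 3, 5, 7, 10, 12]] [(.mj 8 11, 1370), (.mj 9 10, 3451), (.mj 10 8, 1472), (.rw 9, 2), (.rw 10, 3), (.hz 24 2687, 576129), (.hz 24 2815, 1557683), (.hz 25 2943, 565654)])
(.ask 2687
(.mark 3839 [8, 12, 13]
(.cut 8 [(0, 1), (1, 1), (2, 1), (3, 1), (5, 1), (7, 1), (11, 1), (21, 1), (15, 1), (23, 1), (31, 1), (47, 1), (87, 1), (63, 1), (95, 1), (175, 1), (127, 1), (191, 1), (255, 1), (639, 1), (767, 1)]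
(.cut 8 [(0, 1), (1, 1), (2, 1), (3, 1), (5, 1), (7, 1), (11, 1), (21, 1), (15, 1), (23, 1), (31, 1), (47, 1), (87, 1), (63, 1), (95, 1), (175, 1), (127, 1), (191, 1), (1199, 1), (255, 1), (639, 1), (1215, 1), (5295, 1), (767, 1), (1279, 1), (2687, 1), (5311, 1), (1791, 1), (5375, 1)]
(.lp [[8], [1, 3, 5, 7, 10, 12], [0, 2, 4, 6, 9, 11, 13]] [(.mj 0 1, 170104), (.mj 6 7, 17763), (.mj 7 9, 2208), (.mj 9 10, 3958), (.mj 10 11, 14258), (.mj 11 8, 11019), (.hz 25 383, 14388503), (.hz 24 5375, 68093670), (.hz 24 10879, 2935858), (.hz 24 5887, 13604423), (.hz 25 11135, 41088661), (.rw 11, 24), (.rw 12, 5)]))))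
(.maj 8 12
(.cut 8 [(0, 1), (1, 1), (2, 1), (3, 1), (5, 1), (7, 1), (11, 1), (21, 1), (15, 1), (23, 1), (31, 1), (47, 1), (87, 1), (63, 1), (95, 1), (175, 1), (127, 1), (191, 1), (1199, 1), (255, 1), (639, 1), (1215, 1), (767, 1), (1279, 1), (2687, 1), (1791, 1)]
(.lp [[8], [0, 2, 4, 6, 9, 11], [1, 3, 5, 7, 10, 12]] [(.mj 6 7, 8186), (.mj 10 11, 9158), (.mj 11 8, 6497), (.hz 24 5375, 44086496), (.hz 24 5887, 54955838), (.rw 11, 19)]))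
(.cut 8 [(0, 1), (1, 1), (2, 1), (3, 1), (5, 1), (7, 1), (11, 1), (21, 1), (15, 1), (23, 1), (31, 1), (47, 1), (87, 1), (63, 1), (95, 1), (175, 1), (127, 1), (191, 1), (1199, 1), (255, 1), (639, 1), (1215, 1), (767, 1), (1279, 1), (2687, 1)]
(.lp [[8], [0, 2, 4, 6, 9, 11], [1, 3, 5, 7, 10, 12]] [(.mj 6 7, 1273), (.mj 10 11, 369), (.mj 12 8, 615), (.hz 24 2687, 81990), (.hz 24 3839, 1866544), (.rw 11, 2)]))))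
(.lp [[8], [0, 2, 4, 6, 9, 11], [1, 3, 5, 7, 10, 12]] [(.mj 0 1, 111778), (.mj 7 9, 932), (.mj 12 8, 377), (.mj 12 11, 1054), (.rw 9, 1), (.hz 25 383, 1737081), (.hz 20 1215, 8762825), (.hz 24 2687, 2438000), (.hz 24 5375, 5622544), (.hz 25 2943, 8481885)])
.fin))
(.haz 11 1791 7 40
(.ref 0)
(.cut 8 [(0, 1), (1, 1), (2, 1), (3, 1), (5, 1), (7, 1), (11, 1), (21, 1), (15, 1), (23, 1), (31, 1), (47, 1), (87, 1), (63, 1), (95, 1), (175, 1), (127, 1), (191, 1), (255, 1), (639, 1), (767, 1)]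
(.lp [[8], [1, 3, 5, 7, 10], [0, 2, 4, 6, 9, 11]] [(.mj 0 1, 117821), (.mj 6 7, 16666), (.mj 10 8, 4812), (.hz 25 383, 9966055), (.hz 26 639, 5484580), (.hz 26 767, 5136626), (.hz 24 1279, 18747843), (.hz 25 895, 15450635), (.rw 10, 4)]))))
(.cut 8 [(0, 1), (1, 1), (2, 1), (3, 1), (5, 1), (7, 1), (11, 1), (21, 1), (15, 1), (23, 1), (31, 1), (47, 1), (87, 1), (63, 1), (95, 1), (175, 1), (127, 1), (191, 1), (255, 1), (639, 1), (767, 1)]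
(.lp [[8], [1, 3, 5, 7, 10], [0, 2, 4, 6, 9, 11]] [(.mj 7 9, 723), (.mj 9 8, 455), (.mj 10 8, 240), (.hz 25 47, 69718), (.hz 25 63, 222323), (.hz 25 303, 58322), (.hz 25 127, 494736), (.hz 24 2687, 28118), (.rw 10, 1)])))
(.haz 9 1279 1 2
(.ask 2687
(.mark 2815 [8, 10, 12]
(.cut 8 [(0, 1), (1, 1), (2, 1), (3, 1), (5, 1), (7, 1), (11, 1), (21, 1), (15, 1), (23, 1), (31, 1), (47, 1), (87, 1), (63, 1), (95, 1), (127, 1)]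
(.cut 8 [(0, 1), (1, 1), (2, 1), (3, 1), (5, 1), (7, 1), (11, 1), (21, 1), (15, 1), (23, 1), (31, 1), (47, 1), (87, 1), (63, 1), (95, 1), (175, 1), (127, 1), (191, 1), (255, 1)]
(.cut 8 [(0, 1), (1, 1), (2, 1), (3, 1), (5, 1), (7, 1), (11, 1), (21, 1), (15, 1), (23, 1), (31, 1), (47, 1), (87, 1), (63, 1), (95, 1), (175, 1), (127, 1), (191, 1), (255, 1), (639, 1), (767, 1)]
(.lp [[8], [1, 3, 5, 7, 10], [0, 2, 4, 6, 9, 11, 12]] [(.mj 0 1, 2244126), (.mj 7 9, 761367), (.mj 11 8, 481433), (.mj 11 10, 364348), (.hz 20 1215, 841547074), (.hz 25 1279, 3366188295), (.hz 22 1471, 622193703), (.hz 25 1535, 7462478772), (.hz 24 1791, 1755400472), (.hz 24 6783, 438668672), (.rw 10, 40), (.rw 11, 622), (.rw 12, 150)])))))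
(.ask 2815
(.mark 2815 [8, 10, 12]
(.spn
(.lp [[8], [1, 3, 5, 7, 10], [0, 2, 4, 6, 9, 11, 12]] [(.mj 0 1, 31158), (.mj 7 9, 6238), (.mj 11 8, 3125), (.mj 11 10, 1499), (.rw 10, 7), (.hz 20 1215, 11684250), (.hz 24 1279, 2195170), (.hz 25 1279, 40151488), (.hz 22 1471, 4587275), (.hz 24 1791, 18943868)])
(.cut 8 [(0, 1), (1, 1), (2, 1), (3, 1), (5, 1), (7, 1), (11, 1), (21, 1), (15, 1), (23, 1), (31, 1), (47, 1), (87, 1), (63, 1), (95, 1), (175, 1), (127, 1), (191, 1), (1199, 2), (255, 1), (639, 1), (1215, 2), (767, 1), (1279, 1), (2687, 1), (1791, 1), (2815, 1)]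
(.cut 8 [(0, 1), (1, 1), (2, 1), (3, 1), (5, 1), (7, 1), (11, 1), (21, 1), (15, 1), (23, 1), (31, 1), (47, 1), (87, 1), (63, 1), (95, 1), (175, 1), (127, 1), (191, 1), (255, 1), (639, 1), (767, 1), (2687, 1)]
(.lp [[8], [1, 3, 5, 7, 10], [0, 2, 4, 6, 9, 11, 12]] [(.mj 7 9, 29675), (.mj 10 8, 16807), (.mj 11 10, 20575), (.rw 10, 8), (.hz 10 1455, 5628968), (.hz 22 1471, 25852559), (.hz 25 1535, 1179394331), (.hz 24 6911, 16298017), (.rw 11, 2), (.rw 12, 47)])))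
(.cut 8 [(0, 1), (1, 1), (2, 1), (3, 1), (5, 1), (7, 1), (11, 1), (21, 1), (15, 1), (23, 1), (31, 1), (47, 1), (87, 1), (63, 1), (95, 1), (175, 1), (127, 1), (191, 1), (255, 1)]
(.cut 8 [(0, 1), (1, 1), (2, 1), (3, 1), (5, 1), (7, 1), (11, 1), (21, 1), (15, 1), (23, 1), (31, 1), (47, 1), (87, 1), (63, 1), (95, 1), (175, 1), (127, 1), (191, 1), (255, 1), (639, 1), (767, 1), (2687, 1), (2815, 1)]
(.lp [[8], [1, 3, 5, 7, 10], [0, 2, 4, 6, 9, 11, 12]] [(.mj 0 1, 146918), (.mj 7 9, 69064), (.mj 12 8, 36429), (.mj 12 10, 28764), (.hz 18 1215, 4238010), (.hz 10 1455, 9938332), (.hz 25 1279, 389896943), (.hz 24 2687, 5931627), (.hz 22 1471, 46512807), (.hz 25 1535, 2509350247), (.rw 11, 60), (.rw 12, 46)])))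
.fin))
(.lp [[8], [1, 3, 5, 7, 10], [0, 2, 4, 6, 9, 11]] [(.mj 11 8, 1), (.mj 11 10, 1), (.hz 24 1279, 2507), (.hz 24 1791, 4295)])))
(.cut 8 [(0, 1), (1, 1), (2, 1), (3, 1), (5, 1), (7, 1), (11, 1), (21, 1), (15, 1), (23, 1), (31, 1), (47, 1), (87, 1), (63, 1), (95, 1), (175, 1), (127, 1), (191, 1), (255, 1), (639, 1), (767, 1)]
(.lp [[8], [1, 3, 5, 7, 10], [0, 2, 4, 6, 9, 11]] [(.mj 7 9, 1119), (.mj 11 8, 1486), (.mj 11 10, 1130), (.hz 25 255, 32157529), (.hz 24 1279, 2057363), (.hz 23 1279, 2833788), (.hz 24 1791, 6436702), (.rw 10, 2)])))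
.fin))

theorem run217 : run P3488 (leaf3 218 625) (cutRow P3488) [s216] t217 s217 = true := by
  decide +kernel

theorem bad217 : Bad P3488 s217 :=
  run_sound (leaf3_sound P3488 rfl rfl) (cutRow_sound P3488) (
    List.forall_mem_cons.2 ⟨bad216, fun _ h => absurd h List.not_mem_nil⟩) t217 s217 run217

end Pool.Agent.WN.Data
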