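import Pool.Agent.WN.CutRow
import Pool.Agent.WN.LeafRow
import Pool.Agent.Helper99.WN.ParDef

/-!
# The search tree, part 1
-/

set_option autoImplicit false

namespace Pool.Agent.WN.Data

open Pool.Agent.W3 Pool.Agent.WN Pool.Agent.Helper99.WN

/-- the state above piece 51 of the tree -/
def s51 : St := ⟨[0, 0, 1, 1, 7, 7, 11, 31, 39], [63, 31, 23, 15, 13, 9, 7, 5, 3, 2, 1, 0], [0, 1, 2, 3, 4, 5, 7],
  [(3, 4)],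
  [⟨true, 1, 9, 7, 50⟩, ⟨true, 2, 11, 3, 50⟩, ⟨true, 2, 9, 9, 50⟩, ⟨true, 3, 3, 1, 5⟩, ⟨true, 1, 5, 13, 50⟩, ⟨true, 2, 11, 3, 5⟩, ⟨true, 2, 9, 8, 25⟩, ⟨true, 2, 9, 17, 50⟩, ⟨true, 2, 11, 33, 50⟩, ⟨true, 4, 47, 4, 25⟩, ⟨true, 3, 39, 13, 50⟩, ⟨true, 3, 39, 3, 10⟩, ⟨true, 5, 79, 7, 50⟩, ⟨true, 3, 39, 8, 25⟩, ⟨true, 4, 79, 7, 25⟩, ⟨true, 4, 79, 2, 5⟩, ⟨true, 3, 55, 2, 5⟩, ⟨true, 6, 159, 2, 25⟩, ⟨true, 5, 79, 1, 5⟩, ⟨true, 3, 55, 23, 50⟩, ⟨true, 3, 55, 1, 2⟩, ⟨true, 2, 75, 18, 25⟩],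
  [.spn 0 0 651200, .spn 1 1 140426, .spn 3 2 302400, .spn 7 3 62723, .spn 15 4 140426, .spn 31 5 62723, .spn 63 7 140426]⟩

/-- piece 51 of the tree -/
noncomputable def t51 : WN.Tree :=
(.haz 3 55 3 5
(.haz 3 39 9 25
(.haz 6 319 2 25
(.haz 5 95 6 25
(.haz 3 55 16 25
(.haz 2 75 39 50
(.ask 159
(.mark 191 [6, 8, 9]
(.spn
(.haz 5 79 6 25
(.haz 3 55 17 25
(.haz 7 319 9 25
(.haz 7 319 11 25
(.haz 9 447 17 50
(.ask 75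
(.mark 255 [8, 9, 10]
(.lp [[1, 5, 8], [3, 6, 10], [0, 2, 4, 7, 9]] [(.mj 2 3, 216), (.mj 4 5, 185), (.mj 5 7, 77), (.mj 6 9, 19), (.hz 28 1103, 162742), (.hz 29 311, 16645), (.hz 24 319, 109999), (.hz 25 1119, 15974), (.hz 32 447, 21229)]))
(.ask 79
(.mark 255 [8, 9, 10]
(.lp [[1, 5, 8], [3, 6, 10], [0, 2, 4, 7, 9]] [(.mj 2 3, 1270), (.mj 4 5, 928), (.mj 5 7, 365), (.mj 6 8, 13), (.mj 6 9, 111), (.hz 28 1103, 741686), (.hz 29 311, 101149), (.hz 24 319, 573270), (.hz 25 1119, 100100), (.hz 32 447, 132804)]))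
(.ask 95
(.mark 255 [8, 9, 10]
(.spn
(.lp [[1, 5, 8], [3, 6, 10], [0, 2, 4, 7, 9]] [(.mj 2 3, 2881), (.mj 4 5, 13156), (.mj 5 7, 4557), (.mj 6 8, 2270), (.mj 7 6, 9600), (.mj 8 9, 4146), (.rw 7, 15), (.rw 8, 4), (.hz 17 671, 4432483), (.hz 32 447, 1418889)])
(.haz 8 127 4 25
(.ask 1119
(.mark 1279 [8, 9, 11]
(.lp [[1, 5, 8], [3, 6, 10, 11], [0, 2, 4, 7, 9]] [(.mj 4 5, 85), (.mj 5 7, 58), (.mj 6 9, 45), (.mj 7 6, 50), (.mj 9 8, 32), (.hz 29 311, 2032), (.hz 33 127, 216959), (.hz 31 319, 19275), (.hz 25 1119, 57846), (.hz 33 255, 115357), (.hz 32 447, 50933), (.hz 25 3167, 44438), (.hz 31 1407, 452075), (.hz 33 3199, 514655), (.hz 31 3455, 421409)]))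
(.lp [[1, 5, 8], [3, 6, 10], [0, 2, 4, 7, 9]] [(.mj 2 3, 77), (.mj 4 5, 772), (.mj 5 7, 389), (.mj 6 9, 103), (.mj 7 6, 134), (.hz 33 127, 762670), (.hz 32 447, 115687)]))
(.lp [[1, 5, 8], [3, 6, 10], [0, 2, 4, 7, 9]] [(.mj 2 3, 152), (.mj 4 5, 33), (.mj 5 7, 16), (.mj 6 9, 16), (.hz 33 39, 2603), (.hz 33 55, 11115), (.hz 23 295, 2902), (.hz 33 63, 23105), (.hz 24 319, 13161), (.hz 32 447, 17987)]))
(.lp [[1, 5, 8], [3, 6, 10], [0, 2, 4, 7, 9]] [(.mj 4 5, 746), (.mj 5 7, 245), (.mj 7 6, 710), (.mj 10 8, 45), (.mj 10 9, 301), (.rw 7, 1), (.hz 29 311, 31520), (.hz 24 319, 1644297), (.hz 17 671, 314839), (.hz 32 447, 366435)])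
.fin))
(.lp [[3, 6], [1, 5, 8], [0, 2, 4, 7, 9]] [(.mj 2 3, 199), (.mj 4 5, 165), (.mj 5 7, 67), (.mj 6 9, 17), (.hz 29 311, 15401), (.hz 24 319, 101917), (.hz 17 671, 613), (.hz 32 447, 19326)]))))
(.lp [[3, 6], [1, 5, 8], [0, 2, 4, 7, 9]] [(.mj 2 3, 19), (.mj 4 5, 42), (.mj 5 7, 9), (.mj 7 6, 10), (.hz 28 79, 19852), (.hz 32 159, 2525), (.hz 32 191, 4678), (.hz 24 319, 45328)]))
(.lp [[3, 6], [1, 5, 8], [0, 2, 4, 7, 9]] [(.mj 2 3, 6), (.mj 4 5, 11), (.mj 7 6, 3), (.hz 31 31, 2456), (.hz 28 79, 7104), (.hz 31 63, 1927), (.hz 25 95, 127)]))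
(.lp [[3, 6], [1, 5, 8], [0, 2, 4, 7, 9]] [(.mj 2 3, 1), (.mj 4 5, 3), (.mj 7 6, 1), (.hz 30 31, 599), (.hz 28 79, 1744), (.hz 30 63, 450)]))
(.lp [[3, 6], [1, 5, 8], [0, 2, 4, 7, 9]] [(.mj 4 5, 4), (.hz 29 23, 1207), (.hz 27 75, 68), (.hz 28 79, 1733), (.hz 29 55, 112), (.hz 26 311, 970), (.hz 24 319, 995)]))
(.lp [[3, 6], [1, 5, 8], [0, 2, 4, 7, 9]] [(.mj 2 3, 67331), (.mj 5 7, 12089), (.rw 7, 4), (.hz 28 7, 880175), (.hz 28 15, 10887504), (.hz 23 295, 3834721), (.hz 25 95, 9887253), (.hz 26 311, 5689334), (.hz 24 319, 13510701), (.hz 17 671, 6156443)]))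
(.haz 9 191 23 50
(.lp [[3, 6], [1, 5, 8], [0, 2, 4, 7, 9]] [(.mj 4 5, 27099), (.mj 8 6, 11640), (.mj 8 9, 14097), (.rw 7, 1), (.hz 27 75, 325563), (.hz 18 79, 50136769), (.hz 25 95, 7759262), (.hz 26 311, 121513), (.hz 17 191, 4776703), (.hz 28 191, 10077856), (.hz 24 319, 6055407), (.hz 25 223, 7759262), (.hz 17 671, 14831074), (.hz 17 703, 65299406)])
(.lp [[3, 6], [1, 5, 8], [0, 2, 4, 7, 9]] [(.mj 4 5, 179), (.mj 5 7, 22), (.mj 8 6, 52), (.mj 8 9, 24), (.hz 27 75, 2149), (.hz 18 79, 330890), (.hz 25 95, 51209), (.hz 28 159, 10444), (.hz 24 319, 83940), (.hz 25 223, 15475), (.hz 17 671, 33998), (.hz 17 703, 150961)]))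
(.haz 7 319 8 25
(.haz 6 31 3 25
(.lp [[3, 6], [1, 5, 8], [0, 2, 4, 7, 9]] [(.mj 1 2, 29), (.mj 4 5, 97), (.mj 5 7, 80), (.mj 9 6, 100), (.hz 27 75, 356), (.hz 29 31, 1007), (.hz 23 295, 105), (.hz 29 63, 102480), (.hz 29 159, 76293), (.hz 26 311, 11453), (.hz 29 191, 91593), (.hz 29 319, 215878), (.hz 28 319, 21399), (.hz 29 671, 5484), (.hz 29 447, 224022)])
(.ask 75
(.haz 7 95 13 25
(.ask 671
(.mark 767 [8, 10, 11]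
(.lp [[1, 5, 8], [3, 6, 10], [0, 2, 4, 7, 9, 11]] [(.mj 4 5, 31), (.mj 5 7, 22), (.hz 29 11, 1580), (.hz 30 95, 1273), (.hz 15 1103, 10139), (.hz 18 1103, 77128), (.hz 24 319, 8227), (.hz 30 1119, 20285), (.hz 17 671, 2702)]))
(.ask 703
(.mark 703 [6, 8, 11]
(.spn
(.mark 127 [7, 8, 10]
(.lp [[1, 5, 8], [3, 6, 10], [0, 2, 4, 7, 9, 11]] [(.mj 1 2, 6282), (.mj 4 5, 4855), (.mj 5 7, 4534), (.mj 9 6, 957), (.rw 8, 2), (.hz 27 1099, 223968), (.hz 15 1103, 8457888), (.hz 18 1103, 14531966), (.hz 26 311, 100282), (.hz 24 319, 3034354), (.hz 30 1119, 6066314), (.hz 30 1151, 475144), (.hz 17 447, 4133552), (.hz 25 1247, 1504908)]))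
(.mark 767 [8, 10, 11]
(.lp [[1, 5, 8], [3, 6, 10], [0, 2, 4, 7, 9, 11]] [(.mj 4 5, 4345), (.mj 5 7, 1487), (.mj 8 6, 68), (.rw 8, 1), (.hz 29 11, 38720), (.hz 27 1099, 64103), (.hz 30 95, 1213625), (.hz 18 1103, 14759529), (.hz 24 319, 5406765), (.hz 25 1119, 1363919), (.hz 17 447, 2708933), (.hz 25 1247, 1538436)]))
(.maj 6 8
(.mark 127 [7, 8, 10]
(.cut 6 [(0, 1), (1, 1), (2, 1), (3, 1), (5, 1), (9, 1), (7, 1), (11, 1), (13, 1), (15, 1), (23, 1), (39, 1), (31, 1), (47, 1), (55, 1), (63, 1), (159, 1), (191, 1), (671, 1), (703, 1)]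
(.cut 8 [(0, 1), (1, 1), (2, 1), (3, 1), (5, 1), (9, 1), (7, 1), (11, 1), (13, 1), (15, 1), (23, 1), (39, 1), (75, 1), (31, 1), (47, 1), (55, 1), (79, 1), (1099, 1), (63, 1), (95, 1), (111, 1), (159, 1), (1103, 1), (127, 1), (191, 1), (223, 1), (671, 1), (1119, 1), (255, 1), (735, 1), (1247, 1), (1759, 1)]
(.lp [[1, 5, 8], [3, 6, 10], [0, 2, 4, 7, 9, 11]] [(.mj 1 2, 27030), (.mj 4 5, 1602), (.mj 5 7, 5108), (.mj 11 6, 2372), (.rw 8, 1), (.hz 23 295, 97092), (.hz 27 1099, 483413), (.hz 15 1103, 16668846), (.hz 18 1103, 9279119), (.hz 26 311, 296944), (.hz 24 319, 6666615), (.hz 28 319, 624943), (.hz 30 1119, 7949434), (.rw 9, 10), (.rw 10, 1)]))))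
(.mark 767 [8, 10, 11]
(.lp [[1, 5, 8], [3, 6, 10], [0, 2, 4, 7, 9, 11]] [(.mj 1 2, 1218), (.mj 4 5, 100), (.mj 8 6, 103), (.mj 11 6, 37), (.hz 23 295, 606), (.hz 27 1099, 17738), (.hz 15 1103, 319033), (.hz 18 1103, 501301), (.hz 26 311, 12401), (.hz 17 191, 314176), (.hz 24 319, 293792), (.hz 25 1119, 156795), (.hz 30 1119, 30613), (.hz 17 447, 82905), (.hz 17 703, 270719), (.hz 17 959, 77994), (.hz 17 2751, 77994)])))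
.fin))
(.mark 79 [4, 5, 10]
(.lp [[1, 5, 8], [3, 6, 10], [0, 2, 4, 7, 9]] [(.mj 4 5, 3), (.mj 9 8, 1), (.hz 29 31, 2682), (.hz 27 1099, 77), (.hz 15 1103, 7409)]))))
(.mark 255 [8, 9, 10]
(.lp [[1, 5, 8], [3, 6, 10], [0, 2, 4, 7, 9]] [(.mj 4 5, 328), (.mj 5 7, 36), (.mj 9 6, 55), (.hz 29 11, 37219), (.hz 30 31, 150381), (.hz 18 1103, 1859457), (.hz 24 319, 341623), (.hz 25 1119, 7401), (.hz 17 447, 117897)])))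
(.lp [[3, 6], [1, 5, 8], [0, 2, 4, 7, 9]] [(.mj 1 2, 348), (.mj 4 5, 4), (.hz 29 15, 8289), (.hz 18 79, 10365), (.hz 26 55, 776), (.hz 23 295, 659), (.hz 26 311, 408), (.hz 24 319, 377)])))
(.lp [[3, 6], [1, 5, 8], [0, 2, 4, 7, 9]] [(.mj 2 3, 2), (.mj 4 5, 8), (.mj 9 6, 3), (.hz 28 31, 1831), (.hz 18 79, 5390), (.hz 28 63, 1367), (.hz 25 95, 4014)]))
.fin))
(.ask 191
(.mark 191 [6, 8, 9]
(.spn
(.haz 6 63 4 25
(.lp [[3, 6], [1, 5, 8], [0, 2, 4, 7, 9]] [(.mj 2 3, 166), (.mj 4 5, 49), (.mj 6 9, 1), (.hz 23 295, 5602), (.hz 28 63, 37630), (.hz 26 311, 11989), (.hz 28 319, 35934)])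
(.lp [[3, 6], [1, 5, 8], [0, 2, 4, 7, 9]] [(.mj 2 3, 9), (.mj 4 5, 14), (.mj 6 9, 3), (.hz 27 75, 27), (.hz 28 31, 4838), (.hz 18 79, 25450), (.hz 24 319, 9441)]))
(.lp [[3, 6], [1, 5, 8], [0, 2, 4, 7, 9]] [(.mj 4 5, 10), (.mj 8 6, 3), (.mj 8 9, 1), (.hz 27 75, 124), (.hz 18 79, 19069), (.hz 25 95, 2951), (.hz 25 223, 1234), (.hz 17 703, 7017)])
(.ask 703
(.mark 703 [6, 8, 10]
(.spn
(.lp [[3, 6], [1, 5, 8], [0, 2, 4, 7, 9, 10]] [(.mj 9 6, 268), (.rw 8, 1)])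
(.lp [[3, 6], [1, 5, 8], [0, 2, 4, 7, 9, 10]] [(.mj 4 5, 7060), (.rw 7, 1), (.rw 8, 4), (.hz 27 75, 75913), (.hz 18 79, 11690508), (.hz 25 95, 2687012), (.hz 25 223, 931479)])
(.ask 75
(.mark 255 [8, 9, 11]
(.lp [[1, 5, 8], [3, 6, 11], [0, 2, 4, 7, 9, 10]] [(.mj 1 2, 60), (.mj 4 5, 7), (.mj 10 6, 6), (.hz 27 75, 942), (.hz 15 2127, 1939), (.hz 18 2127, 28163), (.hz 26 311, 302), (.hz 17 191, 13966), (.hz 25 2143, 4286), (.hz 17 703, 3796)]))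
(.lp [[3, 6], [1, 5, 8], [0, 2, 4, 7, 9, 10]] [(.mj 1 2, 150), (.mj 4 5, 7), (.mj 10 6, 11), (.hz 15 79, 9306), (.hz 18 79, 28648), (.hz 23 295, 360), (.hz 17 159, 2023), (.hz 26 311, 1229), (.hz 17 191, 16367), (.hz 24 319, 24777), (.hz 17 447, 10706), (.hz 17 703, 10706)]))
.fin))
(.lp [[3, 6], [1, 5, 8], [0, 2, 4, 7, 9]] [(.mj 9 8, 1), (.rw 7, 1)]))
.fin))
(.lp [[3, 6], [1, 5, 8], [0, 2, 4, 7]] [(.mj 4 5, 2), (.mj 5 6, 1), (.hz 27 75, 6), (.hz 18 79, 947), (.hz 25 95, 147)])))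
(.lp [[3, 6], [1, 5, 8], [0, 2, 4, 7]] [(.mj 2 3, 17), (.mj 4 5, 4), (.hz 27 11, 870), (.hz 23 39, 724), (.hz 21 75, 915), (.hz 18 79, 8789), (.hz 26 55, 233), (.hz 26 311, 647)]))
(.lp [[3, 6], [1, 5, 8], [0, 2, 4, 7]] [(.mj 2 3, 2), (.mj 4 5, 7), (.hz 26 23, 1989), (.hz 21 75, 161), (.hz 18 79, 15912), (.hz 22 55, 138), (.hz 22 311, 7621)]))
(.lp [[3, 6], [1, 5, 8], [0, 2, 4, 7]] [(.mj 2 3, 20), (.mj 5 7, 4), (.hz 25 7, 797), (.hz 25 23, 1132), (.hz 25 31, 1173), (.hz 18 79, 6750), (.hz 23 295, 89), (.hz 17 159, 2175)]))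
(.lp [[3, 6], [1, 5, 8], [0, 2, 4, 7]] [(.mj 1 2, 60), (.mj 4 5, 1), (.hz 24 11, 1657), (.hz 23 39, 184), (.hz 21 75, 100), (.hz 22 311, 500)]))
(.lp [[3, 6], [1, 5, 8], [0, 2, 4, 7]] [(.mj 4 5, 4), (.mj 5 7, 1), (.hz 23 7, 640), (.hz 21 75, 185), (.hz 18 79, 10960), (.hz 22 55, 637), (.hz 13 295, 202), (.hz 17 159, 532), (.hz 22 311, 2929)]))
(.lp [[3, 6], [1, 5, 8], [0, 2, 4, 7]] [(.mj 2 3, 1), (.mj 4 5, 3), (.hz 22 23, 3588), (.hz 21 75, 56), (.hz 18 79, 6070), (.hz 20 55, 935), (.hz 20 311, 7101)]))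

theorem run51 : run P3488 (leaf3 218 625) (cutRow P3488) [] t51 s51 = true := by
  decide +kernel

theorem bad51 : Bad P3488 s51 :=
  run_sound (leaf3_sound P3488 rfl rfl) (cutRow_sound P3488) (
    fun _ h => absurd h List.not_mem_nil) t51 s51 run51

/-- the state above piece 110 of the tree -/
def s110 : St := ⟨[0, 0, 1, 3, 5, 7, 11], [21, 15, 7, 5, 3, 2, 1, 0], [0, 1, 2, 3, 4],
  [],
  [⟨true, 2, 3, 3, 10⟩, ⟨true, 1, 5, 2, 5⟩, ⟨true, 2, 3, 23, 50⟩, ⟨true, 1, 5, 12, 25⟩, ⟨true, 4, 39, 4, 25⟩, ⟨true, 1, 21, 27, 50⟩, ⟨true, 4, 39, 11, 50⟩, ⟨true, 3, 39, 13, 50⟩, ⟨true, 4, 39, 6, 25⟩, ⟨true, 4, 79, 7, 25⟩, ⟨true, 4, 39, 13, 50⟩, ⟨true, 6, 47, 1, 50⟩],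
  [.spn 0 0 651200, .spn 1 1 302400, .spn 3 2 302400, .spn 7 3 140426, .spn 15 4 140426]⟩

/-- piece 110 of the tree -/
noncomputable def t110 : WN.Tree :=
(.ask 23
(.mark 31 [5, 6, 7]
(.spn
(.ask 39
(.mark 63 [6, 7, 8]
(.lp [[5, 8], [1, 3, 6], [0, 2, 4, 7]] [(.mj 0 1, 145), (.mj 3 4, 29), (.mj 4 5, 4), (.mj 5 6, 1), (.hz 10 39, 992), (.hz 10 295, 1098)]))
(.ask 55
(.mark 63 [6, 7, 8]
(.lp [[5, 8], [1, 3, 6], [0, 2, 4, 7]] [(.mj 0 1, 54), (.mj 3 4, 11), (.mj 4 5, 1), (.mj 4 6, 1)]))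
(.ask 47
(.mark 63 [6, 7, 8]
(.spn
(.haz 5 159 4 25
(.haz 5 79 13 50
(.lp [[5, 8], [1, 3, 6], [0, 2, 4, 7]] [(.mj 0 1, 636), (.mj 3 4, 119), (.mj 4 5, 31), (.hz 13 79, 2778), (.hz 13 95, 1900), (.hz 12 159, 11076), (.hz 10 303, 1900)])
(.lp [[5, 8], [1, 3, 6], [0, 2, 4, 7]] [(.mj 0 1, 101), (.mj 3 4, 20), (.mj 5 6, 4), (.mj 6 7, 1), (.hz 13 15, 885), (.hz 12 159, 2032)]))
(.lp [[5, 8], [1, 3, 6], [0, 2, 4, 7]] [(.mj 0 1, 49), (.mj 3 4, 10), (.mj 5 6, 2), (.mj 5 7, 1), (.hz 12 15, 843)]))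
(.haz 5 31 3 10
(.lp [[5, 8], [1, 3, 6], [0, 2, 4, 7]] [(.mj 0 1, 175), (.mj 3 4, 31), (.mj 4 5, 8), (.hz 12 95, 5222), (.hz 12 159, 5223), (.hz 10 303, 433)])
(.lp [[5, 8], [1, 3, 6], [0, 2, 4, 7]] [(.mj 0 1, 56060), (.mj 3 4, 11475), (.mj 7 6, 781), (.rw 6, 1), (.hz 12 15, 1567431), (.hz 11 47, 27145), (.hz 10 303, 190122), (.hz 11 303, 78140)]))
(.haz 5 79 1 5
(.haz 7 63 6 25
(.lp [[5, 8], [1, 3, 6], [0, 2, 4, 7]] [(.mj 0 1, 138), (.mj 3 4, 23), (.mj 4 5, 15), (.mj 8 6, 4), (.mj 8 7, 10), (.hz 12 79, 16294), (.hz 13 63, 8125), (.hz 12 95, 38044), (.hz 13 127, 22947)])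
(.lp [[5, 8], [1, 3, 6], [0, 2, 4, 7]] [(.mj 0 1, 17), (.mj 3 4, 6), (.mj 4 5, 4), (.mj 8 6, 2), (.hz 13 31, 520), (.hz 12 79, 5304), (.hz 12 95, 4389)]))
(.lp [[5, 8], [1, 3, 6], [0, 2, 4, 7]] [(.mj 0 1, 54), (.mj 3 4, 11), (.mj 8 6, 2), (.mj 8 7, 1), (.hz 12 15, 4677)]))
.fin))
(.lp [[5], [1, 3, 6], [0, 2, 4, 7]] [(.mj 0 1, 54), (.mj 3 4, 11), (.mj 4 5, 1), (.mj 4 6, 1)]))))
(.cut 5 [(0, 1), (1, 1), (2, 1), (3, 1), (5, 1), (7, 1), (11, 1), (21, 1), (15, 1), (23, 1), (75, 1), (31, 1), (79, 1)]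
(.lp [[5], [1, 3, 6], [0, 2, 4, 7]] [(.mj 0 1, 243477), (.mj 3 4, 44851), (.mj 6 5, 5783), (.hz 7 39, 115052), (.hz 10 39, 2131255), (.hz 10 47, 284481), (.rw 6, 1)]))
(.lp [[5], [1, 3, 6], [0, 2, 4, 7]] [(.mj 0 1, 250), (.mj 3 4, 54), (.mj 7 5, 8), (.mj 7 6, 3), (.hz 7 39, 11), (.hz 10 39, 2709), (.hz 10 47, 562)])
.fin))
(.haz 4 47 21 50
(.haz 6 47 1 25
(.haz 4 39 7 25
(.haz 6 47 3 50
(.ask 31
(.mark 31 [5, 6, 7]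
(.spn
(.haz 6 47 2 25
(.haz 6 159 3 50
(.haz 6 47 1 10
(.haz 6 159 1 10
(.ask 39
(.mark 63 [6, 7, 8]
(.spn
(.lp [[5, 8], [1, 3, 6], [0, 2, 4, 7]] [(.mj 0 1, 1797), (.mj 3 4, 284), (.mj 4 5, 35), (.mj 5 7, 3), (.mj 6 7, 16), (.hz 14 39, 22210), (.hz 14 295, 7463), (.hz 19 159, 3148), (.hz 18 303, 24015)])
(.ask 295
(.mark 303 [4, 6, 9]
(.lp [[4, 7], [1, 3, 6], [0, 2, 5, 8, 9]] [(.mj 0 1, 347), (.mj 3 4, 74), (.mj 4 5, 7), (.mj 5 7, 3), (.mj 7 6, 4), (.hz 14 39, 671), (.hz 14 295, 6169), (.hz 19 159, 3154), (.hz 12 111, 1114), (.hz 14 807, 1062), (.hz 12 367, 2335), (.hz 12 815, 3710)]))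
(.lp [[5, 8], [1, 3, 6], [0, 2, 4, 7]] [(.mj 0 1, 322162), (.mj 3 4, 69035), (.mj 4 5, 6545), (.mj 5 7, 543), (.mj 7 6, 639), (.rw 6, 2), (.hz 19 159, 542652), (.hz 12 111, 1187523), (.hz 12 303, 4894423), (.hz 18 303, 439397), (.hz 18 319, 1797534)]))
(.lp [[5, 8], [1, 3, 6], [0, 2, 4, 7]] [(.mj 0 1, 226), (.mj 3 4, 48), (.mj 4 5, 6), (.mj 8 6, 4), (.mj 8 7, 3), (.hz 14 39, 5603), (.hz 18 47, 3766), (.hz 19 159, 4913), (.hz 18 303, 426), (.hz 18 191, 17366)])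
.fin))
(.ask 47
(.mark 63 [6, 7, 8]
(.spn
(.maj 7 8
(.lp [[5, 8], [1, 3, 6], [0, 2, 4, 7]] [(.mj 0 1, 18025), (.mj 4 5, 433), (.mj 5 7, 169), (.mj 6 7, 552), (.mj 7 8, 198), (.hz 19 159, 168619), (.hz 18 303, 1477863), (.hz 18 319, 680900)])
(.lp [[5, 8], [1, 3, 6], [0, 2, 4, 7]] [(.mj 0 1, 289), (.mj 4 5, 7), (.mj 6 8, 4), (.mj 8 7, 10), (.hz 19 159, 10231), (.hz 18 303, 20785)]))
(.ask 159
(.mark 191 [6, 8, 9]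
(.spn
(.haz 9 447 3 10
(.haz 5 159 13 50
(.haz 4 47 13 25
(.haz 8 191 6 25
(.ask 303
(.mark 447 [6, 9, 10]
(.lp [[3, 6], [1, 5, 8, 10], [0, 2, 4, 7, 9]] [(.mj 3 4, 121), (.mj 4 5, 92), (.mj 5 7, 71), (.mj 6 8, 130), (.mj 6 9, 152), (.mj 7 6, 304), (.hz 21 671, 12060), (.hz 22 1327, 4602), (.hz 18 1327, 349741), (.hz 23 255, 245825), (.hz 23 703, 263444), (.hz 18 1343, 1673615), (.hz 20 1471, 995812)]))
(.lp [[5, 8], [1, 3, 6], [0, 2, 4, 7, 9]] [(.mj 0 1, 291543), (.mj 3 4, 62473), (.mj 4 5, 6160), (.mj 5 7, 955), (.mj 6 8, 2250), (.mj 7 6, 2653), (.rw 7, 1), (.hz 22 111, 1564695), (.hz 23 191, 2758526), (.hz 21 671, 734760), (.hz 22 367, 2772578), (.hz 23 703, 2362054)]))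
(.lp [[5, 8], [1, 3, 6], [0, 2, 4, 7, 9]] [(.mj 0 1, 1620), (.mj 3 4, 347), (.mj 4 5, 42), (.mj 5 7, 14), (.mj 6 9, 5), (.mj 7 6, 21), (.hz 23 47, 16656), (.hz 23 63, 505), (.hz 22 111, 10450), (.hz 18 303, 10534), (.hz 23 191, 1694), (.hz 18 319, 42136), (.hz 19 671, 10351), (.hz 20 447, 20388)]))
(.lp [[5, 8], [1, 3, 6], [0, 2, 4, 7, 9]] [(.mj 0 1, 188), (.mj 4 5, 13), (.hz 22 15, 3495), (.hz 22 47, 1919), (.hz 18 47, 5521)]))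
(.lp [[5, 8], [1, 3, 6], [0, 2, 4, 7, 9]] [(.mj 0 1, 6768), (.mj 3 4, 941), (.mj 5 7, 80), (.hz 21 15, 21633), (.hz 12 303, 2454), (.hz 18 303, 42786), (.hz 18 319, 50051), (.hz 19 671, 72651)]))
(.lp [[5, 8], [1, 3, 6], [0, 2, 4, 7, 9]] [(.mj 0 1, 6048), (.mj 3 4, 1296), (.mj 4 5, 426), (.mj 5 7, 163), (.mj 6 8, 179), (.mj 7 6, 365), (.hz 20 159, 162612), (.hz 18 303, 419933), (.hz 20 191, 557364), (.hz 18 319, 1475691)]))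
(.haz 5 159 13 50
(.ask 671
(.mark 671 [5, 6, 10]
(.lp [[5, 8], [1, 3, 6], [0, 2, 4, 7, 9, 10]] [(.mj 0 1, 846), (.mj 3 4, 181), (.mj 4 5, 75), (.mj 8 6, 40), (.mj 8 9, 11), (.hz 18 47, 52744), (.hz 18 63, 67192), (.hz 18 191, 74658), (.hz 18 319, 7925), (.hz 20 671, 5574), (.hz 19 671, 34365), (.hz 18 703, 183813), (.hz 20 1695, 2553), (.hz 19 1695, 22523), (.hz 18 1727, 127628)]))
(.lp [[5, 8], [1, 3, 6], [0, 2, 4, 7, 9]] [(.mj 0 1, 130), (.mj 3 4, 28), (.mj 4 5, 12), (.mj 8 6, 7), (.mj 8 9, 1), (.hz 18 47, 8075), (.hz 18 63, 10287), (.hz 18 191, 11430), (.hz 18 319, 1214), (.hz 19 671, 2021), (.hz 18 703, 22134)]))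
(.lp [[5, 8], [1, 3, 6], [0, 2, 4, 7, 9]] [(.mj 0 1, 324), (.mj 3 4, 65), (.mj 5 7, 10), (.mj 8 6, 14), (.hz 20 15, 2898), (.hz 18 47, 7060), (.hz 18 63, 21180), (.hz 19 159, 16859), (.hz 18 191, 29123), (.hz 19 671, 7943)]))
(.haz 4 47 13 25
(.haz 8 191 1 5
(.lp [[5, 8], [1, 3, 6], [0, 2, 4, 7, 9]] [(.mj 0 1, 7638), (.mj 3 4, 2020), (.mj 5 7, 138), (.mj 9 6, 389), (.mj 9 8, 314), (.hz 19 159, 452727), (.hz 20 111, 157379), (.hz 20 303, 148513), (.hz 18 303, 489040), (.hz 18 191, 802222), (.hz 21 191, 2055904), (.hz 18 319, 1857971), (.hz 18 447, 3799165)])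
(.lp [[5, 8], [1, 3, 6], [0, 2, 4, 7, 9]] [(.mj 0 1, 172), (.mj 3 4, 46), (.mj 4 5, 2), (.mj 9 6, 5), (.hz 21 47, 15201), (.hz 21 63, 2089), (.hz 19 159, 5179), (.hz 20 111, 3553), (.hz 18 303, 2532), (.hz 18 191, 10445)]))
(.lp [[5, 8], [1, 3, 6], [0, 2, 4, 7, 9]] [(.mj 0 1, 188), (.mj 4 5, 13), (.hz 20 15, 3495), (.hz 20 47, 1919), (.hz 18 47, 5521)]))
.fin))
(.lp [[5, 8], [1, 3, 6], [0, 2, 4, 7]] [(.mj 0 1, 842), (.mj 3 4, 122), (.mj 4 5, 24), (.mj 5 7, 4), (.hz 18 47, 15201), (.hz 18 63, 4074), (.hz 12 303, 815)]))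
(.ask 159
(.mark 159 [5, 6, 9]
(.cut 7 [(0, 1), (1, 1), (2, 1), (3, 1), (5, 1), (7, 1), (11, 1), (21, 1), (15, 1), (23, 1), (39, 1), (75, 1), (31, 1), (47, 1), (55, 1), (79, 1), (95, 2), (111, 1), (303, 1), (367, 1)]
(.lp [[5, 8], [1, 3, 6], [0, 2, 4, 7, 9]] [(.mj 0 1, 216878), (.mj 4 5, 9041), (.mj 8 7, 7723), (.hz 18 47, 7774257), (.hz 19 159, 4031185), (.hz 18 303, 7816553), (.hz 18 191, 20255337), (.hz 18 319, 4824826), (.hz 19 671, 3356401), (.rw 7, 2)])))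
(.lp [[5, 8], [1, 3, 6], [0, 2, 4, 7]] [(.mj 0 1, 272), (.mj 3 4, 33), (.mj 4 5, 9), (.mj 8 7, 2), (.hz 18 47, 7329)]))
.fin))
(.lp [[5], [1, 3, 6], [0, 2, 4, 7]] [(.mj 0 1, 108), (.mj 3 4, 18), (.mj 4 5, 2), (.mj 5 7, 1), (.hz 19 159, 880)])))
(.lp [[5], [1, 3, 6], [0, 2, 4, 7]] [(.mj 3 4, 20), (.mj 4 5, 16), (.mj 5 7, 8), (.hz 19 11, 2173), (.hz 19 15, 5674), (.hz 19 31, 5009), (.hz 18 47, 6926), (.hz 17 159, 1609)]))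
(.lp [[5], [1, 3, 6], [0, 2, 4, 7]] [(.mj 3 4, 444), (.mj 4 5, 359), (.mj 5 7, 179), (.hz 18 11, 47651), (.hz 18 15, 248379), (.hz 16 47, 107501), (.hz 17 159, 35843)]))
(.lp [[5], [1, 3, 6], [0, 2, 4, 7]] [(.mj 3 4, 13), (.mj 4 5, 10), (.mj 5 7, 5), (.hz 17 11, 266), (.hz 17 15, 683), (.hz 14 39, 51), (.hz 17 31, 584), (.hz 16 47, 1719)]))
(.lp [[5], [1, 3, 6], [0, 2, 4, 7]] [(.mj 3 4, 158), (.mj 4 5, 130), (.mj 5 7, 69), (.hz 16 11, 6773), (.hz 16 15, 34420), (.hz 15 47, 19116)]))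
(.ask 39
(.mark 63 [6, 7, 8]
(.lp [[5, 8], [1, 3, 6], [0, 2, 4, 7]] [(.mj 0 1, 66), (.mj 3 4, 9), (.mj 6 5, 1), (.mj 6 7, 1), (.hz 14 39, 834), (.hz 14 295, 213)]))
(.lp [[5], [1, 3, 6], [0, 2, 4, 7]] [(.mj 0 1, 86), (.mj 3 4, 8), (.mj 6 5, 2), (.mj 6 7, 2), (.hz 15 47, 228)]))
(.ask 39
(.mark 47 [4, 6, 8]
(.lp [[5, 8], [1, 3, 6], [0, 2, 4, 7]] [(.mj 0 1, 165), (.mj 3 4, 35), (.mj 7 5, 2), (.hz 14 39, 2998), (.hz 14 295, 751), (.hz 12 111, 342), (.hz 12 303, 697)]))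
(.lp [[5], [1, 3, 6], [0, 2, 4, 7]] [(.mj 0 1, 560), (.mj 3 4, 120), (.mj 7 5, 8), (.hz 12 47, 5165), (.hz 15 47, 689), (.hz 15 63, 1574)]))
.fin))
(.spn
(.lp [[5], [0, 2, 4], [1, 3, 6]] [(.mj 0 1, 767), (.mj 3 4, 164), (.mj 4 5, 145), (.mj 5 6, 72), (.hz 15 47, 16930)])
(.lp [[5], [0, 2, 4], [1, 3, 6]] [(.mj 0 1, 19), (.mj 3 4, 1), (.mj 6 5, 1), (.hz 7 39, 56), (.hz 7 55, 12)])
.fin
.fin))
(.lp [[5], [0, 2, 4], [1, 3, 6]] [(.mj 3 4, 19), (.mj 4 5, 4), (.hz 15 11, 219), (.hz 15 15, 560), (.hz 14 39, 1147), (.hz 12 47, 716), (.hz 13 47, 689)]))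
(.lp [[5], [0, 2, 4], [1, 3, 6]] [(.mj 0 1, 154), (.mj 4 5, 16), (.hz 14 7, 4120), (.hz 7 39, 622), (.hz 10 39, 439), (.hz 13 47, 2814)]))
(.lp [[5], [0, 2, 4], [1, 3, 6]] [(.mj 3 4, 24), (.mj 4 5, 5), (.hz 13 11, 534), (.hz 13 15, 1357), (.hz 10 39, 740), (.hz 12 47, 832), (.hz 11 47, 448)]))
(.lp [[5], [0, 2, 4], [1, 3, 6]] [(.mj 0 1, 86), (.mj 3 4, 6), (.mj 3 5, 2), (.mj 4 5, 4), (.hz 12 15, 553)])))

theorem run110 : run P3488 (leaf3 218 625) (cutRow P3488) [] t110 s110 = true := by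
  decide +kernel

theorem bad110 : Bad P3488 s110 :=
  run_sound (leaf3_sound P3488 rfl rfl) (cutRow_sound P3488) (
    fun _ h => absurd h List.not_mem_nil) t110 s110 run110

/-- the state above piece 227 of the tree -/
def s227 : St := ⟨[0, 0, 1, 3, 5, 15, 23, 47, 63, 127, 175], [255, 127, 95, 87, 63, 47, 31, 23, 21, 15, 11, 7, 5, 3, 2, 1, 0], [0, 1, 2, 3, 4, 5, 6, 7, 9],
  [(5, 6), (4, 5)],
  [⟨true, 2, 3, 3, 10⟩, ⟨true, 1, 5, 2, 5⟩, ⟨true, 2, 3, 23, 50⟩, ⟨true, 1, 5, 12, 25⟩, ⟨true, 1, 21, 27, 50⟩, ⟨true, 4, 15, 9, 40⟩, ⟨true, 3, 23, 11, 20⟩, ⟨true, 4, 47, 7, 20⟩, ⟨true, 4, 47, 17, 40⟩, ⟨true, 4, 47, 9, 20⟩, ⟨true, 4, 47, 19, 40⟩, ⟨true, 5, 95, 1, 5⟩, ⟨true, 5, 95, 3, 10⟩, ⟨true, 5, 31, 3, 10⟩, ⟨true, 5, 95, 11, 25⟩, ⟨true, 6, 63, 3, 20⟩, ⟨true, 7, 319, 1, 10⟩, ⟨true, 7, 319, 7, 40⟩, ⟨true, 7, 63, 1, 5⟩, ⟨true, 6,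 319, 11, 40⟩, ⟨true, 4, 175, 14, 25⟩, ⟨true, 8, 1279, 3, 50⟩, ⟨true, 6, 319, 9, 25⟩, ⟨true, 10, 255, 7, 50⟩],
  [.spn 0 0 651200, .spn 1 1 302400, .spn 3 2 302400, .spn 7 3 302400, .spn 15 4 302400, .spn 31 5 302400, .spn 63 6 140426, .spn 127 7 140426, .spn 255 9 140426]⟩

/-- piece 227 of the tree -/
noncomputable def t227 : WN.Tree :=
(.haz 6 319 21 50
(.haz 7 319 3 10
(.haz 7 639 3 10
(.haz 8 639 3 50
(.haz 8 639 2 25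
(.ask 639
(.mark 767 [8, 10, 11]
(.spn
(.haz 11 1023 11 50
(.haz 8 2687 3 25
(.haz 10 767 6 25
(.ask 2687
(.mark 2815 [8, 10, 12]
(.lp [[8], [1, 3, 5, 7, 10], [0, 2, 4, 6, 9, 11, 12]] [(.mj 7 9, 137), (.mj 8 10, 159), (.mj 9 8, 159), (.hz 31 767, 121286), (.hz 31 1023, 377738), (.hz 31 2815, 280873), (.hz 26 6783, 13333), (.hz 30 6783, 110301), (.hz 31 6911, 503360)]))
(.ask 2815
(.mark 2815 [8, 10, 12]
(.lp [[8], [1, 3, 5, 7, 10], [0, 2, 4, 6, 9, 11, 12]] [(.mj 7 9, 20), (.mj 8 10, 26), (.mj 8 11, 2), (.mj 9 8, 26), (.hz 31 767, 17894), (.hz 31 1023, 63443), (.hz 31 2815, 56450), (.hz 31 6911, 65442)]))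
(.lp [[8], [1, 3, 5, 7, 10], [0, 2, 4, 6, 9, 11]] [(.mj 7 9, 3), (.mj 8 10, 4), (.mj 9 8, 4), (.hz 31 767, 2837), (.hz 31 1023, 10106), (.hz 31 2815, 6570)])))
(.lp [[8], [1, 3, 5, 7, 10], [0, 2, 4, 6, 9, 11]] [(.mj 3 4, 830), (.mj 6 7, 93), (.mj 9 8, 40), (.hz 31 175, 40040), (.hz 31 191, 55531), (.hz 24 319, 24578), (.hz 31 255, 43783), (.hz 24 447, 4968), (.hz 23 511, 49860), (.hz 31 767, 28326), (.hz 30 2687, 50582)]))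
(.lp [[8], [1, 3, 5, 7, 10], [0, 2, 4, 6, 9, 11]] [(.mj 3 4, 29), (.mj 6 7, 8), (.mj 7 9, 4), (.mj 8 10, 7), (.mj 8 11, 4), (.hz 30 63, 3921), (.hz 30 127, 13930), (.hz 20 1199, 789), (.hz 30 639, 3238), (.hz 23 767, 742), (.hz 28 2687, 11658), (.hz 23 2815, 16025)]))
(.lp [[8], [1, 3, 5, 7, 10], [0, 2, 4, 6, 9, 11]] [(.mj 3 4, 4), (.mj 7 9, 1), (.mj 8 10, 7), (.mj 9 8, 9), (.hz 20 1199, 132), (.hz 29 639, 2123), (.hz 23 511, 19447), (.hz 29 767, 5780), (.hz 23 2815, 8974)]))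
(.haz 10 2815 3 10
(.haz 6 319 23 50
(.haz 6 319 12 25
(.haz 4 1199 3 5
(.haz 7 2687 17 50
(.haz 7 319 8 25
(.ask 1199
(.mark 1791 [8, 11, 12]
(.spn
(.lp [[8], [0, 2, 4, 6, 9, 11], [1, 3, 5, 7, 10, 12]] [(.mj 3 4, 21279), (.mj 6 7, 7344), (.mj 8 11, 3292), (.mj 9 10, 6126), (.mj 10 8, 4012), (.rw 9, 4), (.rw 10, 4), (.hz 34 319, 3694336), (.hz 33 2687, 396107), (.hz 28 2687, 2708191), (.hz 28 2815, 12278286), (.hz 28 5887, 49485549)])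
(.ask 5295
(.mark 5311 [6, 8, 13]
(.cut 8 [(0, 1), (1, 1), (2, 1), (3, 1), (5, 1), (7, 1), (11, 1), (21, 1), (15, 1), (23, 1), (31, 1), (47, 1), (87, 1), (63, 1), (95, 1), (175, 1), (127, 1), (191, 1), (1199, 1), (255, 1), (639, 1), (1215, 1), (5295, 1), (767, 1), (1279, 1), (13487, 1), (1791, 1)]
(.lp [[8], [0, 2, 4, 6, 9, 11], [1, 3, 5, 7, 10, 12, 13]] [(.mj 3 4, 162665), (.mj 6 7, 60470), (.mj 7 9, 381), (.mj 10 11, 7099), (.mj 11 8, 6630), (.hz 31 319, 516627), (.hz 34 319, 30497477), (.hz 34 383, 7461703), (.hz 32 5295, 40737047), (.hz 34 895, 3824694), (.hz 33 2687, 1908331), (.hz 31 5567, 6312820), (.hz 15 13503, 1229938), (.hz 28 5887, 23782467), (.rw 11, 11)])))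
(.cut 8 [(0, 1), (1, 1), (2, 1), (3, 1), (5, 1), (7, 1), (11, 1), (21, 1), (15, 1), (23, 1), (31, 1), (47, 1), (87, 1), (63, 1), (95, 1), (175, 1), (127, 1), (191, 1), (1199, 1), (255, 1), (639, 1), (1215, 1), (5295, 1), (767, 1), (1279, 1), (1791, 1)]
(.lp [[8], [0, 2, 4, 6, 9, 11], [1, 3, 5, 7, 10, 12]] [(.mj 3 4, 16762), (.mj 6 7, 5994), (.mj 10 11, 674), (.mj 11 8, 650), (.hz 31 319, 100319), (.hz 34 319, 2984882), (.hz 34 383, 747915), (.hz 34 895, 434418), (.hz 33 2687, 181255), (.hz 33 2943, 1864), (.hz 31 5567, 168278), (.rw 11, 1)])))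
(.lp [[8], [0, 2, 4, 6, 9, 11], [1, 3, 5, 7, 10, 12]] [(.mj 3 4, 50), (.mj 6 7, 36), (.mj 7 9, 2), (.mj 12 8, 8), (.mj 12 11, 6), (.hz 34 319, 23929), (.hz 34 383, 4451), (.hz 21 1279, 12558), (.hz 34 895, 1721), (.hz 33 2687, 3750), (.hz 28 2687, 15591), (.hz 28 1791, 18759), (.hz 28 2815, 59144), (.hz 29 2815, 32769), (.hz 28 5887, 21570)])
.fin))
(.lp [[8], [1, 3, 5, 7, 10], [0, 2, 4, 6, 9, 11]] [(.mj 3 4, 601), (.mj 6 7, 181), (.mj 10 8, 18), (.mj 10 11, 5), (.hz 31 319, 10375), (.hz 34 319, 84148), (.hz 34 383, 23757), (.hz 28 639, 3014), (.hz 28 767, 29098), (.hz 33 2687, 5911), (.hz 28 2687, 20550), (.hz 28 1791, 3226), (.hz 28 2815, 77253), (.hz 28 3839, 1)]))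
(.lp [[8], [1, 3, 5, 7, 10], [0, 2, 4, 6, 9, 11]] [(.mj 3 4, 10), (.mj 10 8, 1), (.hz 34 47, 580), (.hz 34 63, 1203), (.hz 31 319, 831), (.hz 25 319, 1587), (.hz 32 1199, 844), (.hz 25 383, 2819), (.hz 28 639, 536), (.hz 28 767, 1808), (.hz 33 2687, 107), (.hz 28 2687, 662), (.hz 28 2815, 2452)]))
(.lp [[8], [1, 3, 5, 7, 10], [0, 2, 4, 6, 9, 11]] [(.mj 7 9, 2279), (.rw 9, 4), (.hz 33 639, 7698438), (.hz 28 767, 7785358), (.hz 25 895, 11343729), (.hz 26 2687, 30807124)]))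
(.lp [[8], [1, 3, 5, 7, 10], [0, 2, 4, 6, 9, 11]] [(.mj 6 7, 7), (.mj 7 9, 2), (.hz 32 47, 11010), (.hz 20 175, 249), (.hz 25 319, 12407), (.hz 20 1199, 1260), (.hz 28 639, 1706)]))
(.lp [[8], [1, 3, 5, 7, 10], [0, 2, 4, 6, 9, 11]] [(.mj 3 4, 372), (.mj 6 7, 230), (.mj 10 8, 57), (.hz 31 63, 67461), (.hz 30 319, 24077), (.hz 25 319, 280782), (.hz 25 383, 153716), (.hz 28 639, 32291), (.hz 28 767, 101932), (.hz 26 2687, 24418), (.hz 28 2687, 38284), (.hz 28 1791, 5939), (.hz 28 2815, 141792)]))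
(.lp [[8], [1, 3, 5, 7, 10], [0, 2, 4, 6, 9, 11]] [(.mj 6 7, 26), (.mj 10 8, 10), (.hz 30 63, 7126), (.hz 24 319, 4273), (.hz 25 319, 33969), (.hz 25 383, 24901), (.hz 28 639, 6041), (.hz 28 767, 17392), (.hz 28 2687, 6566), (.hz 28 1791, 1676), (.hz 28 2815, 4494)]))
(.lp [[8], [1, 3, 5, 7, 10], [0, 2, 4, 6, 9, 11]] [(.mj 3 4, 4235), (.mj 6 7, 1081), (.mj 10 8, 247), (.mj 10 11, 377), (.rw 9, 1), (.hz 29 175, 357680), (.hz 25 319, 1239474), (.hz 23 511, 262343), (.hz 29 767, 10914186), (.hz 28 2687, 1517101), (.hz 28 2815, 3077164)]))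
(.haz 10 767 1 5
(.haz 10 767 13 50
(.haz 8 639 1 10
(.lp [[8], [1, 3, 5, 7, 10], [0, 2, 4, 6, 9, 11]] [(.mj 3 4, 9), (.mj 6 7, 1), (.mj 7 9, 18), (.mj 11 8, 24), (.mj 11 10, 25), (.hz 24 319, 272), (.hz 20 1199, 294), (.hz 31 639, 86910), (.hz 24 447, 110), (.hz 31 767, 109688), (.hz 30 767, 44307), (.hz 31 1791, 1016148)])
(.lp [[8], [1, 3, 5, 7, 10], [0, 2, 4, 6, 9, 11]] [(.mj 3 4, 10), (.mj 6 7, 2), (.mj 7 9, 1), (.mj 11 10, 2), (.hz 31 63, 2451), (.hz 31 127, 1906), (.hz 20 1199, 301), (.hz 28 639, 1032), (.hz 23 511, 4084), (.hz 30 767, 2597), (.hz 28 1791, 12212)]))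
(.lp [[8], [1, 3, 5, 7, 10], [0, 2, 4, 6, 9, 11]] [(.mj 3 4, 77), (.mj 6 7, 9), (.mj 11 8, 4), (.hz 30 175, 1898), (.hz 30 191, 2702), (.hz 24 319, 2268), (.hz 30 255, 2384), (.hz 28 639, 4931), (.hz 24 447, 532), (.hz 23 511, 4633), (.hz 28 767, 4728), (.hz 30 767, 670), (.hz 28 2687, 2467), (.hz 28 1791, 14095)]))
(.lp [[8], [1, 3, 5, 7, 10], [0, 2, 4, 6, 9, 11]] [(.mj 3 4, 18), (.mj 6 7, 2), (.mj 11 8, 1), (.hz 29 175, 4329), (.hz 29 191, 6104), (.hz 24 319, 541), (.hz 29 255, 5065), (.hz 28 639, 1177), (.hz 24 447, 66), (.hz 28 767, 1313), (.hz 29 767, 2522)]))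
.fin))
(.haz 10 255 9 50
(.haz 7 319 8 25
(.ask 767
(.mark 767 [8, 10, 11]
(.spn
(.ask 319
(.mark 1023 [10, 11, 12]
(.lp [[8, 12], [1, 3, 5, 7, 10], [0, 2, 4, 6, 9, 11]] [(.mj 3 4, 192), (.mj 6 7, 63), (.mj 9 8, 4), (.hz 30 319, 25879), (.hz 20 1199, 6109), (.hz 29 255, 1679), (.hz 30 4415, 29278), (.hz 29 511, 8126), (.hz 30 4479, 14499)]))
(.haz 10 255 6 25
(.lp [[8], [1, 3, 5, 7, 10], [0, 2, 4, 6, 9, 11]] [(.mj 3 4, 230), (.mj 6 7, 38), (.mj 7 9, 13), (.mj 8 10, 64), (.mj 9 8, 41), (.hz 20 1199, 7354), (.hz 31 255, 37408), (.hz 30 383, 13027), (.hz 31 511, 124108), (.hz 31 767, 88423), (.hz 31 2815, 116346)])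
(.lp [[8], [1, 3, 5, 7, 10], [0, 2, 4, 6, 9, 11]] [(.mj 3 4, 44), (.mj 6 7, 11), (.mj 9 8, 1), (.hz 31 175, 1409), (.hz 30 319, 3201), (.hz 30 383, 1465), (.hz 29 511, 1094)])))
(.lp [[8], [1, 3, 5, 7, 10], [0, 2, 4, 6, 9, 11]] [(.mj 3 4, 309), (.mj 6 7, 104), (.mj 10 8, 10), (.mj 10 11, 1), (.hz 24 319, 1739), (.hz 30 319, 50360), (.hz 20 1199, 9873), (.hz 30 383, 13390), (.hz 28 767, 10934), (.hz 30 895, 2523), (.hz 28 1791, 2922), (.hz 28 2815, 21689)])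
(.lp [[8], [1, 3, 5, 7, 10], [0, 2, 4, 6, 9, 11]] [(.mj 3 4, 38200), (.mj 6 7, 11123), (.rw 9, 1), (.hz 24 319, 418302), (.hz 30 319, 5114302), (.hz 20 1199, 1221231), (.hz 29 255, 902559), (.hz 30 383, 1805118), (.hz 28 639, 281484), (.hz 28 767, 2819733), (.hz 29 767, 1409867)])
.fin))
(.lp [[8], [0, 2, 4, 6, 9], [1, 3, 5, 7, 10]] [(.mj 3 4, 49), (.mj 6 7, 29), (.mj 9 8, 5), (.hz 30 319, 20313), (.hz 30 383, 10437), (.hz 29 511, 13123)]))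
(.lp [[8], [0, 2, 4, 6, 9], [1, 3, 5, 7, 10]] [(.mj 3 4, 113), (.mj 9 8, 14), (.hz 30 63, 29057), (.hz 24 319, 4308), (.hz 25 319, 41637), (.hz 20 1199, 9925), (.hz 29 255, 2727), (.hz 25 383, 82984), (.hz 29 511, 16648)]))
(.cut 8 [(0, 1), (1, 1), (2, 1), (3, 1), (5, 1), (7, 1), (11, 1), (21, 1), (15, 1), (23, 1), (31, 1), (47, 1), (87, 1), (63, 1), (95, 1), (175, 1), (127, 1), (191, 1), (1199, 1), (255, 1), (639, 1)]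
(.lp [[8], [0, 2, 4, 6, 9], [1, 3, 5, 7, 10]] [(.mj 3 4, 4319426), (.mj 6 7, 421704), (.mj 9 8, 166108), (.hz 29 175, 103964737), (.hz 29 191, 125727724), (.hz 24 319, 127844089), (.hz 29 255, 71782605), (.hz 24 447, 41417766), (.hz 23 511, 126344383), (.rw 9, 49)]))))
(.lp [[8], [0, 2, 4, 6, 9], [1, 3, 5, 7, 10]] [(.mj 3 4, 475), (.mj 6 7, 163), (.mj 7 9, 20), (.hz 28 63, 12359), (.hz 28 127, 14879), (.hz 25 319, 180177), (.hz 20 1199, 14879), (.hz 27 639, 10354)]))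
(.lp [[8], [0, 2, 4, 6, 9], [1, 3, 5, 7, 10]] [(.mj 3 4, 408), (.mj 6 7, 141), (.mj 7 9, 19), (.hz 27 63, 5297), (.hz 27 127, 6416), (.hz 25 319, 155149), (.hz 20 1199, 12831)]))
(.lp [[8], [0, 2, 4, 6, 9], [1, 3, 5, 7, 10]] [(.mj 3 4, 12), (.mj 9 8, 1), (.hz 26 47, 2033), (.hz 26 63, 2287), (.hz 24 319, 507), (.hz 25 319, 1180), (.hz 25 383, 2856)]))
(.lp [[8], [0, 2, 4, 6, 9], [1, 3, 5, 7, 10]] [(.mj 3 4, 916), (.mj 9 8, 82), (.hz 25 47, 155524), (.hz 25 63, 174965), (.hz 24 319, 39838), (.hz 18 319, 194921), (.hz 18 383, 606924), (.hz 23 511, 96435)]))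
(.lp [[8], [0, 2, 4, 6, 9], [1, 3, 5, 7, 10]] [(.mj 0 1, 707), (.mj 6 7, 12), (.mj 9 8, 17), (.hz 24 63, 14267), (.hz 22 319, 17037), (.hz 18 319, 36504), (.hz 18 383, 84548), (.hz 23 767, 70), (.hz 21 1279, 19692), (.hz 21 1791, 1172)]))

theorem run227 : run P3488 (leaf3 218 625) (cutRow P3488) [] t227 s227 = true := by
  decide +kernel

theorem bad227 : Bad P3488 s227 :=
  run_sound (leaf3_sound P3488 rfl rfl) (cutRow_sound P3488) (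
    fun _ h => absurd h List.not_mem_nil) t227 s227 run227

/-- the state above piece 142 of the tree -/
def s142 : St := ⟨[0, 0, 1, 3, 5, 15, 15, 47, 21, 279], [319, 277, 63, 31, 15, 11, 7, 5, 3, 2, 1, 0], [0, 1, 2, 3, 4, 5, 8, 7],
  [(4, 5)],
  [⟨true, 2, 3, 3, 10⟩, ⟨true, 1, 5, 2, 5⟩, ⟨true, 2, 3, 23, 50⟩, ⟨true, 1, 5, 12, 25⟩, ⟨true, 1, 21, 27, 50⟩, ⟨true, 4, 15, 9, 40⟩, ⟨true, 3, 23, 11, 20⟩, ⟨true, 1, 21, 29, 50⟩, ⟨true, 4, 79, 11, 40⟩, ⟨true, 4, 175, 11, 40⟩, ⟨true, 4, 175, 3, 10⟩, ⟨true, 6, 175, 1, 40⟩, ⟨true, 8, 191, 1, 4⟩, ⟨true, 6, 287, 3, 40⟩, ⟨true, 5, 95, 3, 8⟩],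
  [.spn 0 0 651200, .spn 1 1 302400, .spn 3 2 302400, .spn 7 3 302400, .spn 15 4 140426, .spn 31 5 140426, .spn 63 8 140426, .spn 319 7 140426]⟩

/-- piece 142 of the tree -/
noncomputable def t142 : WN.Tree :=
(.haz 4 79 13 40
(.haz 6 47 7 40
(.lp [[6], [1, 3, 5, 7], [0, 2, 4, 8, 9]] [(.mj 3 4, 6), (.mj 5 8, 4), (.mj 7 6, 10), (.mj 8 7, 7), (.hz 16 63, 966), (.hz 16 175, 1126), (.hz 16 191, 5207), (.hz 16 319, 6194), (.hz 13 799, 5752), (.hz 16 831, 5295)])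
(.haz 6 47 3 20
(.lp [[6], [1, 3, 5, 7], [0, 2, 4, 8, 9]] [(.mj 3 4, 19), (.mj 5 8, 5), (.mj 7 6, 22), (.mj 8 7, 17), (.hz 17 63, 5467), (.hz 17 175, 5255), (.hz 17 191, 24594), (.hz 17 319, 26393), (.hz 13 799, 12673), (.hz 17 831, 30839), (.hz 14 863, 3168)])
(.haz 5 79 7 20
(.haz 7 831 3 10
(.haz 7 831 2 5
(.haz 7 127 13 40
(.haz 4 175 7 20
(.haz 6 175 3 40
(.ask 175
(.mark 447 [6, 9, 10]
(.spn
(.ask 79
(.mark 511 [9, 10, 11]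
(.lp [[6, 11], [0, 2, 4, 8, 9], [1, 3, 5, 7, 10]] [(.mj 5 8, 2845), (.mj 6 9, 1055), (.mj 7 6, 3053), (.mj 8 7, 5120), (.rw 7, 1), (.rw 8, 10)]))
(.ask 111
(.mark 511 [9, 10, 11]
(.lp [[6, 11], [0, 2, 4, 8, 9], [1, 3, 5, 7, 10]] [(.mj 3 4, 689), (.mj 5 8, 71), (.mj 6 9, 71), (.mj 7 6, 325), (.mj 8 7, 576), (.rw 8, 1), (.hz 17 47, 68115)]))
(.lp [[6], [0, 2, 4, 8, 9], [1, 3, 5, 7, 10]] [(.mj 3 4, 2595), (.mj 6 9, 270), (.mj 7 6, 1209), (.mj 8 7, 1802), (.rw 8, 1), (.hz 21 127, 356475), (.hz 13 799, 681522), (.hz 23 1199, 154168), (.hz 23 1215, 1193763), (.hz 13 831, 1302761)])))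
(.ask 79
(.mark 127 [7, 8, 11]
(.cut 6 [(0, 1), (1, 1), (2, 1), (3, 1), (5, 1), (7, 1), (11, 1), (21, 1), (15, 1), (23, 1), (277, 1), (31, 1), (47, 1), (279, 1), (63, 1), (175, 1), (287, 1), (791, 1), (191, 1), (319, 1), (799, 1), (447, 1), (831, 1)]
(.cut 6 [(0, 1), (1, 1), (2, 1), (3, 1), (5, 1), (7, 1), (11, 1), (21, 1), (15, 1), (23, 1), (277, 1), (31, 1), (47, 1), (279, 1), (63, 1), (175, 1), (287, 1), (791, 1), (191, 1), (319, 1), (447, 1)]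
(.lp [[6, 11], [0, 2, 4, 8, 9], [1, 3, 5, 7, 10]] [(.mj 3 4, 45216), (.mj 7 9, 1927), (.mj 8 7, 19129), (.mj 9 6, 12097), (.hz 17 15, 605165), (.hz 15 2127, 2592286), (.hz 14 2143, 35114466), (.hz 15 2159, 6115595), (.hz 22 1199, 3122478), (.hz 23 1199, 657470), (.hz 21 2175, 47726880), (.hz 13 447, 9543439), (.hz 23 1215, 12836474), (.hz 12 2303, 233908015), (.hz 13 1471, 14508543), (.rw 9, 1), (.rw 10, 12)]))))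
(.ask 95
(.mark 255 [8, 10, 11]
(.lp [[6, 11], [0, 2, 4, 8, 9], [1, 3, 5, 7, 10]] [(.mj 3 4, 13), (.mj 8 7, 6), (.mj 9 6, 2), (.hz 18 79, 362), (.hz 14 95, 5159), (.hz 23 175, 68), (.hz 21 127, 3828), (.hz 13 799, 566), (.hz 22 1199, 566), (.hz 21 2175, 3878)]))
(.cut 6 [(0, 1), (1, 1), (2, 1), (3, 1), (5, 1), (7, 1), (11, 1), (21, 1), (15, 1), (23, 1), (277, 1), (31, 1), (47, 1), (279, 1), (63, 1), (175, 1), (287, 1), (791, 1), (191, 1), (319, 1), (799, 1), (447, 1), (831, 1)]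
(.cut 6 [(0, 1), (1, 1), (2, 1), (3, 1), (5, 1), (7, 1), (11, 1), (21, 1), (15, 1), (23, 1), (277, 1), (31, 1), (47, 1), (279, 1), (63, 1), (175, 1), (791, 1), (191, 1)]
(.cut 6 [(0, 1), (1, 1), (2, 1), (3, 1), (5, 1), (7, 1), (11, 1), (21, 1), (15, 1), (23, 1), (277, 1), (31, 1), (47, 1), (279, 1), (63, 1), (175, 1), (287, 1), (791, 1), (191, 1)]
(.cut 6 [(0, 1), (1, 1), (2, 1), (3, 1), (5, 1), (7, 1), (11, 1), (21, 1), (15, 1), (23, 1), (277, 1), (31, 1), (47, 1), (279, 1), (63, 1), (175, 1), (287, 1), (791, 1), (191, 1), (319, 1)]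
(.lp [[6], [0, 2, 4, 8, 9], [1, 3, 5, 7, 10]] [(.mj 3 4, 383156), (.mj 4 5, 159483), (.mj 8 7, 50625), (.mj 9 6, 53473), (.mj 9 10, 5500), (.hz 17 47, 3813926), (.hz 23 175, 11641839), (.hz 21 127, 43828989), (.hz 23 1199, 216062), (.hz 23 1215, 6287671), (.hz 13 1471, 76936565), (.rw 9, 1), (.rw 10, 10), (.rw 11, 17), (.rw 12, 14)])))))))
(.lp [[6], [0, 2, 4, 8, 9], [1, 3, 5, 7, 10]] [(.mj 3 4, 24), (.mj 8 7, 22), (.mj 10 6, 22), (.mj 10 9, 5), (.hz 17 47, 249), (.hz 15 79, 945), (.hz 13 287, 2714), (.hz 15 111, 619), (.hz 23 175, 5131), (.hz 23 191, 21570), (.hz 13 319, 3604), (.hz 13 799, 8622), (.hz 23 1199, 65), (.hz 13 447, 13324), (.hz 23 1215, 2558), (.hz 13 831, 23272), (.hz 20 831, 38210), (.hz 13 959, 48511)])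
.fin))
(.ask 191
(.mark 447 [6, 9, 10]
(.spn
(.haz 9 1471 9 40
(.lp [[6], [0, 2, 4, 8, 9], [1, 3, 5, 7, 10]] [(.mj 3 4, 63), (.mj 6 9, 61), (.mj 6 10, 28), (.mj 7 6, 92), (.mj 8 7, 64), (.hz 17 15, 1659), (.hz 17 47, 3159), (.hz 15 79, 1580), (.hz 13 799, 34751), (.hz 23 1215, 35162), (.hz 13 831, 77604), (.hz 24 1471, 103296)])
(.lp [[6], [0, 2, 4, 8, 9], [1, 3, 5, 7, 10]] [(.mj 3 4, 1194), (.mj 7 6, 985), (.mj 8 7, 1905), (.rw 8, 1), (.hz 17 15, 65808), (.hz 17 47, 77422), (.hz 24 279, 15029), (.hz 24 287, 138153), (.hz 24 319, 446348), (.hz 13 799, 362063), (.hz 24 447, 368469), (.hz 23 1215, 2045589), (.hz 13 831, 723537)]))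
(.cut 6 [(0, 1), (1, 1), (2, 1), (3, 1), (5, 1), (7, 1), (11, 1), (21, 1), (15, 1), (23, 1), (277, 1), (31, 1), (47, 1), (279, 1), (63, 1), (175, 1), (287, 1), (791, 1), (191, 1), (319, 1), (799, 1), (447, 1), (831, 1)]
(.cut 6 [(0, 1), (1, 1), (2, 1), (3, 1), (5, 1), (7, 1), (11, 1), (21, 1), (15, 1), (23, 1), (277, 1), (31, 1), (47, 1), (279, 1), (63, 1), (175, 1), (287, 1), (791, 1), (191, 1), (319, 1), (799, 1)]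
(.lp [[6], [0, 2, 4, 8, 9], [1, 3, 5, 7, 10]] [(.mj 3 4, 100156), (.mj 8 7, 28236), (.mj 9 6, 34511), (.hz 17 15, 1454765), (.hz 17 47, 3243680), (.hz 15 79, 3178391), (.hz 13 287, 10110086), (.hz 15 111, 1174756), (.hz 23 175, 4988313), (.hz 23 191, 26695112), (.hz 13 319, 8819492), (.hz 13 447, 7763567), (.hz 23 1215, 4207512), (.hz 13 1471, 38475348), (.rw 9, 2), (.rw 10, 10)])))
(.lp [[6], [0, 2, 4, 8, 9], [1, 3, 5, 7, 10]] [(.mj 3 4, 17), (.mj 8 7, 16), (.mj 10 6, 16), (.mj 10 9, 4), (.hz 17 47, 180), (.hz 15 79, 681), (.hz 13 287, 1956), (.hz 15 111, 446), (.hz 23 175, 3703), (.hz 23 191, 15566), (.hz 13 319, 2596), (.hz 13 799, 6193), (.hz 13 447, 9610), (.hz 23 1215, 1812), (.hz 13 831, 16713), (.hz 20 831, 27571), (.hz 13 959, 34833)])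
.fin))
(.ask 447
(.mark 447 [6, 9, 10]
(.spn
(.haz 10 959 7 20
(.ask 79
(.mark 511 [9, 10, 11]
(.lp [[6, 11], [0, 2, 4, 8, 9], [1, 3, 5, 7, 10]] [(.mj 3 4, 136), (.mj 6 10, 29), (.mj 7 6, 46), (.mj 8 7, 11), (.hz 17 15, 3144), (.hz 17 47, 9256), (.hz 15 2127, 3633), (.hz 14 2143, 14287), (.hz 13 799, 37195), (.hz 13 831, 69587), (.hz 22 2287, 9556), (.hz 24 959, 85366)]))
(.lp [[6], [0, 2, 4, 8, 9], [1, 3, 5, 7, 10]] [(.mj 3 4, 102), (.mj 6 10, 19), (.mj 7 6, 27), (.mj 8 7, 15), (.hz 17 47, 15604), (.hz 14 95, 2787), (.hz 13 799, 22809), (.hz 22 239, 953), (.hz 13 831, 38424), (.hz 24 959, 56448)]))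
(.lp [[6], [0, 2, 4, 8, 9], [1, 3, 5, 7, 10]] [(.mj 3 4, 33), (.mj 7 6, 3), (.mj 8 7, 4), (.hz 17 15, 2078), (.hz 17 47, 3986), (.hz 13 799, 6702), (.hz 24 447, 7473), (.hz 13 831, 9558)]))
(.lp [[6], [0, 2, 4, 8, 9], [1, 3, 5, 7, 10]] [(.mj 3 4, 27), (.mj 9 6, 10), (.mj 9 10, 2), (.hz 17 47, 281), (.hz 15 79, 1068), (.hz 13 287, 3066), (.hz 15 111, 700), (.hz 13 319, 4071), (.hz 13 799, 2137), (.hz 22 239, 1485), (.hz 13 447, 4907), (.hz 13 831, 2160), (.hz 13 1471, 12580)])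
(.maj 6 9
(.cut 6 [(0, 1), (1, 1), (2, 1), (3, 1), (5, 1), (7, 1), (11, 1), (21, 1), (15, 1), (23, 1), (277, 1), (31, 1), (47, 1), (279, 1), (63, 1), (175, 1), (287, 1), (191, 1), (319, 1), (447, 1)]
(.lp [[6], [0, 2, 4, 8, 9], [1, 3, 5, 7, 10]] [(.mj 3 4, 2107), (.mj 8 7, 2402), (.mj 10 6, 1479), (.hz 15 79, 61148), (.hz 15 111, 61148), (.hz 13 799, 714564), (.hz 13 831, 1728093), (.hz 20 831, 4013266), (.hz 13 959, 6688777), (.rw 9, 4)]))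
(.cut 6 [(0, 1), (1, 1), (2, 1), (3, 1), (5, 1), (7, 1), (11, 1), (21, 1), (15, 1), (23, 1), (277, 1), (31, 1), (47, 1), (279, 1), (63, 1), (175, 1), (287, 1), (791, 1), (191, 1), (319, 1), (799, 1), (447, 1)]
(.cut 9 [(0, 1), (1, 1), (2, 1), (3, 1), (5, 1), (7, 1), (11, 1), (21, 1), (15, 1), (23, 1), (277, 1), (31, 1), (47, 1), (279, 1), (63, 1), (175, 1), (287, 1), (191, 1), (319, 1), (447, 1)]
(.lp [[6], [0, 2, 4, 8, 9], [1, 3, 5, 7, 10]] [(.mj 3 4, 67272), (.mj 8 7, 3336), (.mj 9 6, 19227), (.hz 15 79, 2405996), (.hz 13 287, 8282804), (.hz 15 111, 2405996), (.hz 23 191, 4545382), (.hz 13 319, 9703921), (.hz 13 447, 6612772), (.hz 13 1471, 5664481), (.rw 9, 14), (.rw 10, 7)]))))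
.fin))
(.lp [[6], [1, 3, 5, 7], [0, 2, 4, 8, 9]] [(.mj 3 4, 9), (.mj 7 6, 1), (.mj 8 7, 1), (.hz 17 15, 596), (.hz 17 47, 1189)]))))
(.cut 6 [(0, 1), (1, 1), (2, 1), (3, 1), (5, 1), (7, 1), (11, 1), (21, 1), (15, 1), (23, 1), (277, 1), (31, 1), (47, 1), (279, 1), (63, 1), (287, 1), (791, 1), (319, 1), (799, 1)]
(.lp [[6], [1, 3, 5, 7], [0, 2, 4, 8, 9]] [(.mj 3 4, 9449), (.mj 4 5, 947), (.mj 5 8, 1722), (.mj 8 7, 6352), (.hz 23 15, 939263), (.hz 23 47, 49533), (.hz 21 127, 2673893), (.hz 13 447, 1364923), (.rw 8, 1)])))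
(.lp [[6], [1, 3, 5, 7], [0, 2, 4, 8, 9]] [(.mj 4 5, 4), (.hz 22 7, 342), (.hz 22 15, 546), (.hz 17 15, 384), (.hz 18 79, 591)]))
(.cut 6 [(0, 1), (1, 1), (2, 1), (3, 1), (5, 1), (7, 1), (11, 1), (21, 1), (15, 1), (23, 1), (277, 1), (31, 1), (47, 1), (279, 1), (63, 1), (287, 1), (791, 1), (319, 1), (799, 1)]
(.lp [[6], [1, 3, 5, 7], [0, 2, 4, 8, 9]] [(.mj 3 4, 6500), (.mj 7 6, 3222), (.hz 17 15, 14636), (.hz 17 47, 339518), (.hz 21 47, 421468), (.hz 21 63, 1902151), (.hz 13 287, 1394140), (.hz 13 799, 1623549), (.hz 15 239, 377901), (.hz 13 831, 1817758), (.rw 8, 1)])))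
(.lp [[6], [1, 3, 5, 7], [0, 2, 4, 8, 9]] [(.mj 3 4, 1706), (.mj 5 8, 1769), (.rw 7, 4), (.hz 17 15, 14846), (.hz 17 47, 118771), (.hz 20 47, 475084), (.hz 15 79, 59385), (.hz 20 319, 29901508), (.hz 13 799, 1882086)]))
(.lp [[6], [1, 3, 5, 7], [0, 2, 4, 8, 9]] [(.mj 3 4, 1762), (.mj 7 6, 81), (.rw 7, 1), (.hz 17 15, 76372), (.hz 17 47, 145732), (.hz 19 47, 316667), (.hz 19 63, 254471), (.hz 19 319, 4031413)]))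
(.lp [[6], [1, 3, 5, 7], [0, 2, 4, 8, 9]] [(.mj 3 4, 10), (.mj 7 6, 1), (.hz 18 15, 2984), (.hz 17 15, 2403), (.hz 14 95, 3876)]))))
(.lp [[6], [1, 3, 5, 7], [0, 2, 4, 8, 9]] [(.mj 0 1, 55592), (.mj 4 5, 417), (.mj 7 6, 84), (.rw 6, 1), (.hz 15 7, 876617), (.hz 8 79, 236914), (.hz 14 95, 743049), (.hz 13 287, 134075), (.hz 10 175, 521351), (.hz 6 791, 231606), (.hz 13 319, 36544)]))

theorem run142 : run P3488 (leaf3 218 625) (cutRow P3488) [] t142 s142 = true := by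
  decide +kernel

theorem bad142 : Bad P3488 s142 :=
  run_sound (leaf3_sound P3488 rfl rfl) (cutRow_sound P3488) (
    fun _ h => absurd h List.not_mem_nil) t142 s142 run142

/-- the state above piece 90 of the tree -/
def s90 : St := ⟨[0, 0, 1, 3, 5, 5, 11, 31, 75], [95, 31, 23, 21, 15, 7, 3, 2, 1, 0], [0, 1, 2, 3, 4, 6, 7],
  [],
  [⟨true, 2, 3, 3, 10⟩, ⟨true, 1, 5, 2, 5⟩, ⟨true, 2, 3, 23, 50⟩, ⟨true, 1, 5, 12, 25⟩, ⟨true, 2, 11, 12, 25⟩, ⟨true, 4, 79, 11, 50⟩, ⟨true, 5, 31, 1, 50⟩, ⟨true, 3, 39, 7, 25⟩, ⟨true, 5, 31, 1, 25⟩, ⟨true, 4, 47, 17, 50⟩, ⟨true, 3, 39, 2, 5⟩, ⟨true, 3, 39, 23, 50⟩, ⟨true, 5, 159, 3, 50⟩, ⟨true, 1, 37, 27, 50⟩, ⟨true, 3, 55, 16, 25⟩],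
  [.spn 0 0 651200, .spn 1 1 302400, .spn 3 2 302400, .spn 7 3 140426, .spn 15 4 140426, .spn 31 6 140426, .spn 95 7 140426]⟩

/-- piece 90 of the tree -/
noncomputable def t90 : WN.Tree :=
(.haz 5 7 7 50
(.lp [[5], [0, 2, 4, 7], [1, 3, 6, 8]] [(.mj 0 1, 13), (.mj 6 7, 1), (.mj 7 5, 8), (.hz 15 7, 187), (.hz 15 15, 406), (.hz 15 23, 218), (.hz 15 31, 725), (.hz 15 79, 663), (.hz 4 331, 166), (.hz 15 95, 1612), (.hz 15 159, 394), (.hz 15 335, 907)])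
(.haz 1 53 17 25
(.haz 6 47 6 25
(.haz 3 39 1 2
(.haz 3 55 19 25
(.haz 1 37 29 50
(.haz 3 55 41 50
(.ask 159
(.mark 223 [5, 8, 9]
(.spn
(.ask 37
(.mark 255 [8, 9, 10]
(.lp [[5, 10], [1, 3, 6, 8], [0, 2, 4, 7, 9]] [(.mj 0 1, 2506), (.mj 5 8, 44), (.mj 6 7, 362), (.mj 7 5, 452), (.rw 7, 1), (.hz 20 1061, 27812), (.hz 18 1063, 970267), (.hz 16 1077, 21472), (.hz 17 1071, 126003), (.hz 21 1079, 31932), (.hz 8 351, 471833)]))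
(.ask 53
(.mark 255 [8, 9, 10]
(.lp [[5, 10], [1, 3, 6, 8], [0, 2, 4, 7, 9]] [(.mj 0 1, 35748), (.mj 5 8, 598), (.mj 6 7, 5019), (.mj 7 5, 5911), (.rw 7, 13), (.hz 16 1077, 688456), (.hz 21 1079, 757214), (.hz 17 1087, 3829262), (.hz 8 351, 5887217)]))
(.ask 39
(.mark 255 [8, 9, 10]
(.lp [[5, 10], [1, 3, 6, 8], [0, 2, 4, 7, 9]] [(.mj 0 1, 2840), (.mj 5 8, 46), (.mj 6 7, 391), (.mj 7 5, 443), (.rw 7, 1), (.hz 18 1063, 141549), (.hz 21 1079, 30278), (.hz 8 351, 425163)]))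
(.ask 55
(.mark 255 [8, 9, 10]
(.lp [[5, 10], [1, 3, 6, 8], [0, 2, 4, 7, 9]] [(.mj 0 1, 12965), (.mj 5 8, 204), (.mj 6 7, 1746), (.mj 7 5, 1881), (.rw 7, 4), (.hz 21 1079, 156383), (.hz 17 1087, 1054141), (.hz 8 351, 1718056)]))
(.ask 47
(.mark 255 [8, 9, 10]
(.lp [[5, 10], [1, 3, 6, 8], [0, 2, 4, 7, 9]] [(.mj 0 1, 19027), (.mj 5 8, 224), (.mj 6 5, 1003), (.mj 6 7, 2114), (.mj 7 5, 1175), (.rw 7, 4)]))
(.ask 63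
(.mark 255 [8, 9, 10]
(.lp [[5, 10], [1, 3, 6, 8], [0, 2, 4, 7, 9]] [(.mj 0 1, 19430), (.mj 5 8, 229), (.mj 6 5, 1249), (.mj 6 7, 2159), (.mj 7 5, 1200), (.rw 7, 5)]))
(.lp [[5], [1, 3, 6, 8], [0, 2, 4, 7, 9]] [(.mj 0 1, 41208), (.mj 6 7, 3383), (.mj 7 5, 2697), (.rw 7, 1), (.hz 12 671, 693155), (.hz 12 479, 1716984)])))))))
(.haz 5 159 2 25
(.ask 671
(.mark 671 [5, 6, 10]
(.cut 5 [(0, 1), (1, 1), (2, 1), (3, 1), (5, 1), (7, 1), (11, 1), (21, 1), (15, 1), (23, 1), (75, 1), (31, 1), (79, 1), (331, 1), (95, 1), (159, 1), (223, 1), (671, 1)]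
(.lp [[5], [1, 3, 6, 8], [0, 2, 4, 7, 9, 10]] [(.mj 0 1, 31327), (.mj 6 7, 645), (.mj 8 5, 3787), (.mj 8 9, 148), (.hz 20 37, 184244), (.hz 18 39, 5662175), (.hz 16 53, 314299), (.hz 21 55, 235379), (.hz 22 159, 1111764), (.hz 22 223, 3817989), (.hz 22 671, 902546), (.hz 22 735, 1446582), (.hz 22 1695, 1080375), (.hz 17 1727, 4070935), (.rw 8, 2)])))
(.lp [[5], [1, 3, 6, 8], [0, 2, 4, 7, 9]] [(.mj 0 1, 404), (.mj 8 5, 50), (.mj 8 9, 5), (.hz 20 37, 2379), (.hz 18 39, 73103), (.hz 16 53, 4058), (.hz 21 55, 3039), (.hz 22 159, 5978), (.hz 22 223, 55013), (.hz 22 671, 12547), (.hz 22 479, 44873), (.hz 22 735, 57339)]))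
(.lp [[5], [1, 3, 6, 8], [0, 2, 4, 7, 9]] [(.mj 0 1, 56), (.mj 6 7, 2), (.mj 8 9, 1), (.hz 22 5, 566), (.hz 22 7, 106), (.hz 22 21, 615), (.hz 22 23, 898), (.hz 18 39, 2604), (.hz 22 31, 809), (.hz 17 47, 227), (.hz 12 159, 289), (.hz 12 671, 734)]))
(.ask 331
(.mark 351 [5, 7, 10]
(.cut 5 [(0, 1), (1, 1), (2, 1), (3, 1), (5, 1), (7, 1), (11, 1), (21, 1), (15, 1), (23, 1), (75, 1), (31, 1), (79, 1), (331, 1), (95, 1), (159, 1), (335, 1), (1355, 1), (351, 1)]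
(.lp [[5], [0, 2, 4, 7, 9], [1, 3, 6, 8, 10]] [(.mj 0 1, 58552), (.mj 6 7, 5280), (.mj 9 5, 7374), (.hz 20 37, 348523), (.hz 18 39, 11152975), (.hz 16 53, 594539), (.hz 17 47, 605780), (.hz 21 55, 456036), (.hz 4 1355, 1623203), (.hz 12 671, 597460), (.hz 12 479, 3593547), (.hz 8 1375, 1943572), (.hz 9 1391, 738329), (.rw 8, 13)])))
(.ask 37
(.mark 191 [6, 9, 10]
(.cut 5 [(0, 1), (1, 1), (2, 1), (3, 1), (5, 1), (7, 1), (11, 1), (21, 1), (15, 1), (23, 1), (75, 1), (31, 1), (79, 1), (331, 1), (95, 1)]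
(.lp [[5, 10], [1, 3, 6, 8], [0, 2, 4, 7, 9]] [(.mj 0 1, 27750), (.mj 6 7, 2281), (.mj 9 5, 3742), (.hz 20 1061, 158574), (.hz 21 55, 83872), (.hz 18 1063, 8979614), (.hz 16 1077, 541017), (.hz 12 159, 257769), (.hz 17 1071, 1219344), (.hz 21 1079, 521605), (.hz 17 1087, 2807983), (.hz 12 223, 180241), (.hz 9 367, 308176), (.hz 12 479, 1066122), (.rw 8, 7)])))
(.cut 5 [(0, 1), (1, 1), (2, 1), (3, 1), (5, 1), (7, 1), (11, 1), (21, 1), (15, 1), (23, 1), (75, 1), (31, 1), (79, 1), (331, 1), (95, 1), (159, 1)]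
(.cut 5 [(0, 1), (1, 1), (2, 1), (3, 1), (5, 1), (7, 1), (11, 1), (21, 1), (15, 1), (23, 1), (75, 1), (31, 1), (79, 1), (331, 1), (159, 1), (335, 1)]
(.lp [[5], [1, 3, 6, 8], [0, 2, 4, 7, 9]] [(.mj 0 1, 368361), (.mj 6 7, 31665), (.mj 9 5, 47959), (.hz 18 39, 18236766), (.hz 16 53, 7307717), (.hz 21 55, 4900724), (.hz 12 159, 1832768), (.hz 12 671, 378798), (.hz 12 479, 15537773), (.rw 8, 81), (.rw 9, 8)])))))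
.fin))
(.ask 223
(.mark 223 [5, 8, 9]
(.spn
(.haz 9 479 17 50
(.haz 5 79 1 10
(.lp [[5], [1, 3, 6, 8], [0, 2, 4, 7, 9]] [(.mj 0 1, 51165), (.mj 5 8, 1742), (.mj 5 9, 7293), (.mj 7 5, 15015), (.rw 7, 1), (.hz 20 37, 241801), (.hz 18 39, 1148846), (.hz 16 53, 412484), (.hz 23 79, 8160563), (.hz 21 55, 155686), (.hz 23 335, 9195426), (.hz 23 351, 37407951), (.hz 22 479, 5102462)])
(.haz 9 479 23 50
(.lp [[5], [1, 3, 6, 8], [0, 2, 4, 7, 9]] [(.mj 0 1, 277), (.mj 5 8, 1), (.mj 5 9, 15), (.mj 6 7, 2), (.hz 23 5, 16164), (.hz 23 7, 9212), (.hz 23 15, 11642), (.hz 8 351, 23086), (.hz 24 479, 9798)])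
(.lp [[5], [1, 3, 6, 8], [0, 2, 4, 7, 9]] [(.mj 5 8, 2), (.hz 23 5, 122), (.hz 23 7, 395), (.hz 23 15, 3809), (.hz 24 223, 978), (.hz 12 479, 1330), (.hz 22 479, 604)])))
(.lp [[5], [1, 3, 6, 8], [0, 2, 4, 7, 9]] [(.mj 0 1, 8), (.mj 5 8, 6), (.mj 7 5, 8), (.hz 22 223, 2363)]))
(.cut 5 [(0, 1), (1, 1), (2, 1), (3, 1), (5, 1), (7, 1), (11, 1), (21, 1), (15, 1), (23, 1), (75, 1), (31, 1), (79, 1), (331, 1), (95, 1), (159, 1), (223, 1)]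
(.lp [[5], [1, 3, 6, 8], [0, 2, 4, 7, 9]] [(.mj 0 1, 10874), (.mj 8 5, 1122), (.mj 8 9, 90), (.hz 20 37, 64544), (.hz 18 39, 2046007), (.hz 16 53, 110104), (.hz 21 55, 83980), (.hz 4 331, 60164), (.hz 17 63, 85554), (.hz 12 159, 75395), (.hz 12 223, 22624), (.hz 12 735, 487098), (.rw 8, 1)]))
(.ask 735
(.mark 735 [5, 8, 10]
(.spn
(.lp [[5], [1, 3, 6, 8], [0, 2, 4, 7, 9, 10]] [(.mj 9 5, 136), (.rw 8, 1)])
(.lp [[5], [1, 3, 6, 8], [0, 2, 4, 7, 9, 10]] [(.mj 0 1, 97022), (.rw 7, 5), (.rw 8, 14), (.hz 20 37, 591146), (.hz 18 39, 20348382), (.hz 16 53, 1008425), (.hz 17 47, 2988284), (.hz 21 55, 808413), (.hz 12 159, 587802), (.hz 12 223, 4435528), (.hz 12 479, 14162806)])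
(.cut 5 [(0, 1), (1, 1), (2, 1), (3, 1), (5, 1), (7, 1), (11, 1), (21, 1), (15, 1), (23, 1), (75, 1), (31, 1), (79, 1), (331, 1), (95, 1), (159, 1)]
(.cut 8 [(0, 1), (1, 1), (2, 1), (3, 1), (5, 1), (7, 1), (11, 1), (21, 1), (37, 1), (15, 1), (23, 1), (39, 1), (53, 1), (75, 1), (31, 1), (47, 1), (55, 1), (79, 1), (63, 1), (95, 1), (111, 1), (159, 1), (127, 1), (191, 1)]
(.cut 5 [(0, 1), (1, 1), (2, 1), (3, 1), (5, 1), (7, 1), (11, 1), (21, 1), (15, 1), (23, 1), (75, 1), (31, 1), (79, 1), (331, 1), (95, 1), (159, 1), (335, 1), (223, 1)]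
(.cut 8 [(0, 1), (1, 1), (2, 1), (3, 1), (5, 1), (7, 1), (11, 1), (21, 1), (37, 1), (15, 1), (23, 1), (39, 1), (53, 1), (75, 1), (31, 1), (47, 1), (55, 1), (79, 1), (63, 1), (95, 1), (111, 1), (159, 1), (127, 1), (191, 1), (223, 1)]
(.lp [[5], [1, 3, 6, 8], [0, 2, 4, 7, 9, 10]] [(.mj 0 1, 1352927), (.mj 10 5, 171282), (.hz 20 37, 7957035), (.hz 18 39, 244534742), (.hz 16 53, 13573766), (.hz 21 55, 10165394), (.hz 4 331, 36861357), (.hz 9 367, 23724214), (.hz 12 479, 42886886), (.hz 12 735, 47282566), (.hz 12 991, 160577253), (.rw 9, 321), (.rw 10, 8), (.rw 11, 12), (.rw 12, 19)])))))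
.fin))
(.lp [[5], [1, 3, 6, 8], [0, 2, 4, 7, 9]] [(.mj 9 8, 1), (.rw 7, 1)]))
.fin))
(.lp [[5], [0, 2, 4, 7], [1, 3, 6, 8]] [(.mj 0 1, 46), (.mj 7 5, 20), (.mj 7 8, 16), (.hz 20 37, 196), (.hz 16 53, 334), (.hz 17 191, 1464), (.hz 12 479, 32932)])))
(.lp [[5], [0, 2, 4, 7], [1, 3, 6, 8]] [(.mj 0 1, 132), (.mj 4 6, 22), (.mj 7 5, 83), (.hz 21 23, 25215), (.hz 18 39, 359020), (.hz 17 47, 18560), (.hz 19 55, 26826), (.hz 17 63, 32676), (.hz 12 159, 201), (.hz 5 335, 1205), (.hz 8 351, 70290)]))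
(.lp [[5], [0, 2, 4, 7], [1, 3, 6, 8]] [(.mj 3 4, 4), (.hz 20 5, 659), (.hz 15 5, 473), (.hz 18 39, 14732), (.hz 16 53, 1069), (.hz 17 47, 157), (.hz 4 331, 157)]))
(.lp [[5], [0, 2, 4, 7], [1, 3, 6, 8]] [(.mj 4 6, 5), (.mj 7 5, 8), (.hz 19 23, 4740), (.hz 18 39, 31335), (.hz 17 47, 2526), (.hz 14 55, 2546), (.hz 17 63, 3173)]))
(.lp [[5], [0, 2, 4, 7], [1, 3, 6, 8]] [(.mj 3 4, 18), (.mj 6 7, 5), (.mj 7 5, 4), (.hz 15 5, 82), (.hz 18 7, 82695), (.hz 15 7, 1481), (.hz 11 39, 1310), (.hz 17 47, 1887), (.hz 4 331, 982), (.hz 17 63, 1521), (.hz 12 159, 1601)]))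
(.cut 5 [(0, 1), (1, 1), (2, 1), (3, 1), (5, 1), (7, 1), (11, 1), (21, 1), (15, 1), (23, 1), (75, 1), (31, 1)]
(.lp [[5], [0, 2, 4, 7], [1, 3, 6, 8]] [(.mj 6 7, 907), (.mj 7 5, 871), (.hz 17 11, 15362), (.hz 17 15, 397649), (.hz 9 47, 32058), (.hz 4 331, 217854), (.hz 12 159, 115195), (.rw 7, 1)])))
(.lp [[5], [0, 2, 4, 7], [1, 3, 6, 8]] [(.mj 4 6, 1), (.hz 15 5, 189), (.hz 16 21, 776), (.hz 13 37, 149), (.hz 13 53, 105), (.hz 14 55, 8)])))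

theorem run90 : run P3488 (leaf3 218 625) (cutRow P3488) [] t90 s90 = true := by
  decide +kernel

theorem bad90 : Bad P3488 s90 :=
  run_sound (leaf3_sound P3488 rfl rfl) (cutRow_sound P3488) (
    fun _ h => absurd h List.not_mem_nil) t90 s90 run90

end Pool.Agent.WN.Data
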