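import Pool.Agent.WN.CutRow
import Pool.Agent.WN.LeafRow
import Pool.Agent.Helper99.WN.ParDef
import Pool.Agent.WN.Data.D1

/-!
# The search tree, part 6
-/

set_option autoImplicit false

namespace Pool.Agent.WN.Data

open Pool.Agent.W3 Pool.Agent.WN Pool.Agent.Helper99.WN

/-- the state above piece 37 of the tree -/
def s37 : St := ⟨[0, 0, 1, 1, 7, 7, 11, 23, 39], [63, 31, 15, 13, 9, 7, 5, 3, 2, 1, 0], [0, 1, 2, 3, 4, 5, 7],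
  [(3, 4)],
  [⟨true, 1, 9, 7, 50⟩, ⟨true, 2, 11, 3, 50⟩, ⟨true, 2, 9, 9, 50⟩, ⟨true, 3, 3, 1, 5⟩, ⟨true, 1, 5, 13, 50⟩, ⟨true, 2, 11, 3, 5⟩, ⟨true, 2, 9, 8, 25⟩, ⟨true, 2, 9, 17, 50⟩, ⟨true, 2, 11, 33, 50⟩, ⟨true, 4, 47, 4, 25⟩, ⟨true, 4, 79, 1, 5⟩, ⟨true, 5, 159, 7, 50⟩, ⟨true, 4, 79, 3, 10⟩, ⟨false, 6, 31, 3, 10⟩, ⟨true, 6, 159, 2, 25⟩, ⟨true, 5, 79, 7, 50⟩, ⟨true, 6, 159, 3, 25⟩, ⟨true, 5, 79, 9, 50⟩, ⟨true, 4, 79, 19, 50⟩, ⟨true, 4, 295, 3, 20⟩, ⟨true, 4, 39, 7, 20⟩, ⟨true, 7, 319, 1, 4⟩, ⟨true, 7, 311, 3, 20⟩, ⟨false, 6, 31, 1, 5⟩],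
  [.spn 0 0 651200, .spn 1 1 140426, .spn 3 2 302400, .spn 7 3 62723, .spn 15 4 140426, .spn 31 5 62723, .spn 63 7 62723]⟩

/-- piece 37 of the tree -/
noncomputable def t37 : WN.Tree :=
(.haz 7 63 17 40
(.haz 5 159 9 40
(.ask 151
(.mark 191 [6, 8, 9]
(.spn
(.ask 75
(.mark 255 [8, 9, 10]
(.lp [[1, 5, 8], [3, 6, 10], [0, 2, 4, 7, 9]] [(.mj 3 4, 37), (.mj 4 5, 39), (.mj 5 7, 24), (.mj 7 6, 1), (.hz 23 11, 31450), (.hz 23 31, 77578), (.hz 17 1103, 9298), (.hz 24 319, 3191), (.hz 17 1119, 3834), (.hz 25 671, 478), (.hz 16 671, 6924), (.hz 24 1151, 17661)]))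
(.ask 79
(.mark 255 [8, 9, 10]
(.lp [[1, 5, 8], [3, 6, 10], [0, 2, 4, 7, 9]] [(.mj 3 4, 6492), (.mj 4 5, 7019), (.mj 5 7, 4337), (.rw 7, 1), (.hz 23 15, 7054899), (.hz 23 31, 13020692), (.hz 17 1103, 1610090), (.hz 24 319, 589352), (.hz 25 671, 108385), (.hz 16 671, 836126), (.hz 24 1151, 333135)]))
(.lp [[3, 6], [1, 5, 8], [0, 2, 4, 7, 9]] [(.mj 3 4, 14), (.mj 4 5, 13), (.mj 5 7, 8), (.mj 7 6, 2), (.hz 23 31, 31680), (.hz 24 319, 1034), (.hz 25 671, 107), (.hz 16 671, 3314)])))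
(.lp [[3, 6], [1, 5, 8], [0, 2, 4, 7, 9]] [(.mj 3 4, 15), (.mj 4 5, 14), (.mj 8 6, 6), (.mj 8 9, 3), (.hz 23 11, 3423), (.hz 23 15, 4058), (.hz 23 31, 5181), (.hz 17 79, 2634), (.hz 17 95, 1084), (.hz 20 303, 429), (.hz 25 223, 2461), (.hz 25 671, 3043), (.hz 16 671, 5029), (.hz 16 703, 22944)])
(.lp [[3, 6], [1, 5, 8], [0, 2, 4, 7, 9]] [(.mj 3 4, 38), (.mj 4 5, 8), (.mj 9 6, 7), (.mj 9 8, 3), (.hz 23 11, 5971), (.hz 23 15, 17416), (.hz 23 31, 9361), (.hz 20 295, 11492), (.hz 17 95, 157), (.hz 20 303, 3359), (.hz 16 191, 7621), (.hz 24 319, 8161), (.hz 25 671, 2997), (.hz 16 447, 48783)])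
.fin))
(.ask 183
(.mark 191 [6, 8, 9]
(.lp [[3, 6], [1, 5, 8], [0, 2, 4, 7, 9]] [(.mj 3 4, 5), (.mj 4 5, 3), (.hz 23 11, 1393), (.hz 23 15, 4064), (.hz 23 31, 9111), (.hz 20 295, 952), (.hz 24 319, 302)]))
(.ask 159
(.mark 191 [6, 8, 9]
(.spn
(.haz 6 319 3 20
(.haz 9 511 1 4
(.ask 75
(.mark 255 [8, 9, 10]
(.spn
(.haz 8 703 9 40
(.lp [[1, 5, 8], [3, 6, 10], [0, 2, 4, 7, 9]] [(.mj 3 4, 1941), (.mj 4 5, 5869), (.mj 5 7, 8521), (.mj 6 8, 16487), (.mj 7 6, 22056), (.mj 8 9, 9901), (.rw 7, 1), (.rw 8, 2), (.hz 23 11, 133146), (.hz 17 1103, 172596), (.hz 26 319, 13477319), (.hz 16 671, 9046454), (.hz 16 703, 21398074), (.hz 28 703, 16744400)])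
(.lp [[1, 5, 8], [3, 6, 10], [0, 2, 4, 7, 9]] [(.mj 3 4, 2679), (.mj 4 5, 6888), (.mj 5 7, 957), (.mj 7 6, 6283), (.mj 8 9, 3385), (.rw 7, 7), (.rw 8, 1), (.hz 28 63, 766227), (.hz 28 191, 2697357), (.hz 16 671, 2311670)]))
(.haz 7 95 17 40
(.haz 8 703 1 10
(.haz 9 447 2 5
(.lp [[1, 5, 8], [3, 6, 10], [0, 2, 4, 7, 9]] [(.mj 3 4, 40), (.mj 4 5, 95), (.mj 5 7, 54), (.mj 6 9, 27), (.mj 7 6, 58), (.mj 9 8, 1), (.hz 8 1099, 2166), (.hz 18 1103, 4188), (.hz 17 1103, 32312), (.hz 26 319, 196775), (.hz 17 1119, 12685), (.hz 28 1119, 32051), (.hz 30 447, 406505)])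
(.lp [[1, 5, 8], [3, 6, 10], [0, 2, 4, 7, 9]] [(.mj 3 4, 7), (.mj 4 5, 15), (.mj 5 7, 17), (.mj 7 6, 13), (.mj 9 8, 5), (.hz 8 1099, 441), (.hz 18 1103, 1782), (.hz 17 1103, 4620), (.hz 30 191, 65773), (.hz 26 319, 51782), (.hz 28 1119, 10739), (.hz 26 447, 19026)]))
(.lp [[1, 5, 8], [3, 6, 10], [0, 2, 4, 7, 9]] [(.mj 5 7, 11), (.mj 6 9, 8), (.mj 7 6, 11), (.hz 29 39, 2260), (.hz 29 47, 8538), (.hz 29 55, 11020), (.hz 29 63, 18087), (.hz 29 191, 32642), (.hz 28 1119, 2480)]))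
(.lp [[1, 5, 8], [3, 6, 10], [0, 2, 4, 7, 9]] [(.mj 4 5, 44), (.mj 9 8, 6), (.hz 23 11, 14339), (.hz 23 31, 172203), (.hz 28 31, 28045), (.hz 17 1103, 5869), (.hz 26 319, 40659), (.hz 16 671, 888)]))
(.lp [[1, 5, 8], [3, 6, 10], [0, 2, 4, 7, 9]] [(.mj 3 4, 3), (.mj 4 5, 10), (.mj 5 7, 6), (.mj 7 6, 10), (.mj 10 8, 7), (.mj 10 9, 9), (.hz 23 11, 2817), (.hz 23 15, 8215), (.hz 23 31, 11844), (.hz 26 319, 48724), (.hz 16 671, 7068), (.hz 26 447, 18259), (.hz 16 703, 21767)])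
.fin))
(.ask 79
(.mark 255 [8, 9, 10]
(.spn
(.haz 8 703 1 4
(.lp [[1, 5, 8], [3, 6, 10], [0, 2, 4, 7, 9]] [(.mj 3 4, 892), (.mj 4 5, 2790), (.mj 5 7, 4074), (.mj 6 8, 7330), (.mj 7 6, 9887), (.mj 8 9, 4261), (.rw 7, 1), (.rw 8, 1), (.hz 23 15, 334394), (.hz 26 319, 6464941), (.hz 16 671, 4092829), (.hz 16 703, 8600408), (.hz 28 703, 74446423)])
(.lp [[1, 5, 8], [3, 6, 10], [0, 2, 4, 7, 9]] [(.mj 3 4, 3117), (.mj 4 5, 6043), (.mj 5 7, 955), (.mj 7 6, 5229), (.mj 8 9, 3073), (.rw 7, 5), (.rw 8, 1), (.hz 23 15, 1168972), (.hz 28 63, 9460743), (.hz 28 191, 25278862), (.hz 16 671, 1978234), (.hz 16 703, 2507603)]))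
(.haz 7 95 17 40
(.haz 9 447 7 20
(.lp [[1, 5, 8], [3, 6, 10], [0, 2, 4, 7, 9]] [(.mj 3 4, 74), (.mj 4 5, 143), (.mj 5 7, 84), (.mj 6 9, 31), (.mj 7 6, 72), (.hz 23 15, 16212), (.hz 18 1103, 2441), (.hz 17 1103, 40930), (.hz 26 319, 225466), (.hz 17 1119, 10666), (.hz 28 1119, 46895), (.hz 29 447, 117140)])
(.lp [[1, 5, 8], [3, 6, 10], [0, 2, 4, 7, 9]] [(.mj 3 4, 9), (.mj 4 5, 6), (.mj 5 7, 4), (.mj 9 8, 2), (.hz 23 31, 44586), (.hz 29 159, 3194), (.hz 18 1103, 2531), (.hz 17 1103, 328), (.hz 29 191, 8117), (.hz 26 319, 4511), (.hz 28 1119, 1913), (.hz 26 447, 4293)]))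
(.lp [[1, 5, 8], [3, 6, 10], [0, 2, 4, 7, 9]] [(.mj 3 4, 1), (.mj 4 5, 4), (.hz 23 15, 749), (.hz 23 31, 12182), (.hz 28 31, 1645), (.hz 17 1103, 1079), (.hz 26 319, 1539), (.hz 16 671, 614)]))
(.lp [[1, 5, 8], [3, 6, 10], [0, 2, 4, 7, 9]] [(.mj 3 4, 20), (.mj 4 5, 29), (.mj 5 7, 18), (.mj 7 6, 4), (.mj 10 8, 10), (.mj 10 9, 14), (.hz 23 15, 51281), (.hz 23 31, 54877), (.hz 26 319, 37530), (.hz 16 671, 15770), (.hz 26 447, 19647), (.hz 16 703, 30927)])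
.fin))
(.ask 95
(.mark 255 [8, 9, 10]
(.spn
(.lp [[1, 5, 8], [3, 6, 10], [0, 2, 4, 7, 9]] [(.mj 3 4, 3124), (.mj 4 5, 3036), (.mj 5 7, 1702), (.mj 7 6, 652), (.mj 8 9, 398), (.rw 7, 1), (.hz 23 31, 6544952), (.hz 24 319, 215000), (.hz 17 1119, 82038), (.hz 25 671, 711), (.hz 16 671, 1004515)])
(.haz 9 447 13 40
(.lp [[1, 5, 8], [3, 6, 10], [0, 2, 4, 7, 9]] [(.mj 3 4, 188), (.mj 4 5, 196), (.mj 5 7, 141), (.mj 6 9, 40), (.mj 7 6, 13), (.mj 9 8, 9), (.hz 23 31, 571548), (.hz 24 319, 31515), (.hz 16 671, 26020), (.hz 24 383, 286), (.hz 24 1151, 64634), (.hz 28 447, 74594)])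
(.lp [[1, 5, 8], [3, 6, 10], [0, 2, 4, 7, 9]] [(.mj 3 4, 2), (.mj 4 5, 2), (.mj 5 7, 1), (.hz 23 31, 6565), (.hz 28 159, 228), (.hz 28 191, 458)]))
(.lp [[1, 5, 8], [3, 6, 10], [0, 2, 4, 7, 9]] [(.mj 3 4, 3093), (.mj 4 5, 2422), (.mj 5 7, 1615), (.mj 10 8, 577), (.mj 10 9, 928), (.rw 7, 1), (.hz 23 31, 13237543), (.hz 24 319, 245436), (.hz 16 671, 1874553), (.hz 16 703, 1060334)])
.fin))
(.lp [[3, 6], [1, 5, 8], [0, 2, 4, 7, 9]] [(.mj 3 4, 57), (.mj 4 5, 86), (.mj 5 7, 64), (.mj 6 9, 5), (.mj 7 6, 33), (.hz 26 319, 90881), (.hz 16 671, 16132)]))))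
(.lp [[3, 6], [1, 5, 8], [0, 2, 4, 7, 9]] [(.mj 3 4, 8), (.mj 4 5, 7), (.mj 7 6, 1), (.hz 23 11, 2187), (.hz 23 15, 6378), (.hz 23 31, 23587), (.hz 27 159, 17306), (.hz 27 191, 26346), (.hz 26 319, 12188)]))
(.lp [[3, 6], [1, 5, 8], [0, 2, 4, 7, 9]] [(.mj 3 4, 20555), (.mj 4 5, 24049), (.mj 5 7, 13071), (.mj 6 9, 2952), (.rw 7, 1), (.hz 26 11, 2330451), (.hz 26 15, 6184101), (.hz 26 31, 7780464), (.hz 17 79, 834307), (.hz 24 319, 1834971), (.hz 16 671, 5496064), (.hz 16 447, 4725832)]))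
(.lp [[3, 6], [1, 5, 8], [0, 2, 4, 7, 9]] [(.mj 3 4, 54), (.mj 4 5, 58), (.mj 8 6, 35), (.mj 8 9, 14), (.hz 23 11, 10061), (.hz 18 79, 121), (.hz 17 79, 12788), (.hz 17 95, 6898), (.hz 16 159, 239), (.hz 16 191, 35727), (.hz 25 671, 11902), (.hz 16 671, 24878), (.hz 16 447, 2849), (.hz 16 703, 112676)])
(.haz 6 47 1 8
(.lp [[3, 6], [1, 5, 8], [0, 2, 4, 7, 9]] [(.mj 3 4, 20), (.mj 4 5, 12), (.mj 5 7, 9), (.mj 9 6, 20), (.hz 8 75, 76), (.hz 26 47, 20983), (.hz 18 79, 550), (.hz 20 295, 2644), (.hz 26 63, 29550), (.hz 16 159, 11627), (.hz 26 303, 44865), (.hz 26 191, 78320), (.hz 26 319, 16833), (.hz 24 319, 5339), (.hz 18 367, 9838), (.hz 26 447, 184282)])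
(.lp [[3, 6], [1, 5, 8], [0, 2, 4, 7, 9]] [(.mj 3 4, 27), (.mj 4 5, 19), (.mj 5 7, 10), (.hz 26 11, 5321), (.hz 26 15, 29145), (.hz 17 79, 2278), (.hz 20 295, 5972), (.hz 16 159, 5602), (.hz 24 319, 3591), (.hz 16 447, 3862)]))
.fin))
(.ask 191
(.mark 191 [6, 8, 9]
(.spn
(.ask 75
(.mark 79 [4, 5, 10]
(.lp [[1, 5, 8], [3, 6, 10], [0, 2, 4, 7, 9]] [(.mj 3 4, 111), (.mj 4 5, 101), (.mj 6 9, 33), (.mj 7 6, 21), (.hz 23 11, 10005), (.hz 23 31, 392388), (.hz 8 1099, 2895), (.hz 18 1103, 19854), (.hz 17 1103, 26054), (.hz 17 1119, 21038), (.hz 16 447, 95292)]))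
(.ask 79
(.mark 79 [4, 5, 10]
(.lp [[1, 5, 8], [3, 6, 10], [0, 2, 4, 7, 9]] [(.mj 3 4, 14), (.mj 4 5, 11), (.mj 6 9, 3), (.mj 7 6, 2), (.hz 23 31, 43942), (.hz 18 1103, 2052), (.hz 17 1103, 2184), (.hz 17 1119, 1881)]))
(.lp [[3, 6], [1, 5, 8], [0, 2, 4, 7, 9]] [(.mj 3 4, 49), (.mj 4 5, 36), (.mj 6 9, 11), (.mj 7 6, 8), (.hz 23 31, 145340), (.hz 20 295, 118), (.hz 20 303, 433)])))
(.lp [[3, 6], [1, 5, 8], [0, 2, 4, 7, 9]] [(.mj 3 4, 3), (.mj 4 5, 3), (.mj 8 6, 2), (.hz 23 11, 605), (.hz 23 15, 87), (.hz 17 79, 745), (.hz 17 95, 397), (.hz 16 191, 2039), (.hz 16 703, 3511)])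
(.lp [[3, 6], [1, 5, 8], [0, 2, 4, 7, 9]] [(.mj 3 4, 11), (.mj 4 5, 7), (.mj 9 6, 6), (.hz 23 11, 1251), (.hz 18 79, 39), (.hz 17 79, 1539), (.hz 20 295, 2308), (.hz 16 159, 840), (.hz 16 191, 10796), (.hz 24 319, 1015)])
.fin))
(.lp [[3, 6], [1, 5, 8], [0, 2, 4, 7]] [(.mj 3 4, 18), (.mj 4 5, 19), (.mj 5 6, 11), (.mj 7 6, 3), (.hz 23 11, 2041), (.hz 23 15, 5951), (.hz 23 31, 1106)])))))
(.lp [[3, 6], [1, 5, 8], [0, 2, 4, 7]] [(.mj 5 7, 1), (.hz 25 7, 36), (.hz 23 11, 184), (.hz 25 15, 94), (.hz 23 15, 831), (.hz 25 23, 13), (.hz 25 31, 242), (.hz 23 31, 1877), (.hz 16 159, 568), (.hz 24 319, 9)]))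
(.lp [[3, 6], [1, 5, 8], [0, 2, 4, 7]] [(.mj 3 4, 19), (.mj 4 5, 35), (.hz 23 11, 8877), (.hz 23 15, 25090), (.hz 23 31, 68617), (.hz 24 31, 8577), (.hz 17 79, 356), (.hz 24 63, 5859), (.hz 21 319, 61517), (.hz 16 447, 16287)]))

theorem run37 : run P3488 (leaf3 218 625) (cutRow P3488) [] t37 s37 = true := by
  decide +kernel

theorem bad37 : Bad P3488 s37 :=
  run_sound (leaf3_sound P3488 rfl rfl) (cutRow_sound P3488) (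
    fun _ h => absurd h List.not_mem_nil) t37 s37 run37

/-- the state above piece 153 of the tree -/
def s153 : St := ⟨[0, 0, 1, 3, 5, 15, 15, 47, 23, 319], [191, 175, 319, 287, 279, 63, 31, 21, 15, 11, 7, 5, 3, 2, 1, 0], [0, 1, 2, 3, 4, 5, 8, 7],
  [(4, 5)],
  [⟨true, 2, 3, 3, 10⟩, ⟨true, 1, 5, 2, 5⟩, ⟨true, 2, 3, 23, 50⟩, ⟨true, 1, 5, 12, 25⟩, ⟨true, 1, 21, 27, 50⟩, ⟨true, 4, 15, 9, 40⟩, ⟨true, 3, 23, 11, 20⟩, ⟨true, 1, 21, 29, 50⟩, ⟨true, 8, 95, 7, 40⟩, ⟨true, 4, 79, 13, 40⟩, ⟨true, 8, 95, 1, 4⟩, ⟨true, 6, 191, 1, 20⟩, ⟨true, 6, 831, 1, 20⟩, ⟨true, 6, 959, 3, 40⟩, ⟨true, 8, 127, 17, 40⟩],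
  [.spn 0 0 651200, .spn 1 1 302400, .spn 3 2 302400, .spn 7 3 302400, .spn 15 4 140426, .spn 31 5 140426, .spn 63 8 140426, .spn 319 7 140426]⟩

/-- piece 153 of the tree -/
noncomputable def t153 : WN.Tree :=
(.haz 7 831 11 40
(.haz 6 447 3 40
(.haz 5 351 31 50
(.haz 5 351 37 50
(.haz 5 351 4 5
(.ask 447
(.mark 447 [6, 9, 10]
(.spn
(.haz 9 447 3 10
(.lp [[6], [0, 2, 4, 8, 9], [1, 3, 5, 7, 10]] [(.mj 0 1, 291), (.mj 6 9, 15), (.mj 6 10, 3), (.mj 7 6, 11), (.hz 19 351, 16549), (.hz 20 447, 17293), (.hz 20 511, 18685), (.hz 20 1471, 56963)])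
(.haz 10 959 17 40
(.ask 831
(.mark 959 [6, 10, 11]
(.lp [[6], [1, 3, 5, 7, 10], [0, 2, 4, 8, 9, 11]] [(.mj 0 1, 25), (.mj 6 10, 1), (.mj 7 6, 1), (.hz 20 319, 2525), (.hz 19 351, 527), (.hz 21 959, 697), (.hz 15 2879, 186), (.hz 21 3007, 1675)]))
(.lp [[6], [0, 2, 4, 8, 9], [1, 3, 5, 7, 10]] [(.mj 0 1, 254), (.mj 6 10, 10), (.mj 7 6, 8), (.hz 19 351, 11372), (.hz 20 447, 27134), (.hz 21 959, 11172)]))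
(.lp [[6], [0, 2, 4, 8, 9], [1, 3, 5, 7, 10]] [(.mj 0 1, 76), (.mj 7 6, 1), (.hz 20 319, 3852), (.hz 19 351, 3550), (.hz 20 447, 9365), (.hz 21 447, 2341)])))
(.maj 6 10
(.haz 4 79 2 5
(.ask 831
(.mark 959 [6, 10, 11]
(.spn
(.lp [[6], [1, 3, 5, 7, 10], [0, 2, 4, 8, 9, 11]] [(.mj 3 4, 18728), (.mj 6 10, 59), (.mj 9 6, 7956), (.rw 9, 14), (.hz 16 1471, 24088714), (.hz 13 3007, 9674460)])
(.con 10 6)
(.cut 6 [(0, 1), (1, 1), (2, 1), (3, 1), (5, 1), (7, 1), (11, 1), (21, 1), (15, 1), (23, 1), (31, 1), (47, 1), (279, 1), (63, 1), (175, 1), (287, 1), (191, 1), (319, 1), (447, 1), (831, 1), (959, 1)]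
(.lp [[6], [1, 3, 5, 7, 10], [0, 2, 4, 8, 9, 11]] [(.mj 3 4, 894), (.mj 6 10, 22), (.mj 7 9, 42), (.mj 11 6, 380), (.hz 16 1471, 454555), (.rw 10, 1)]))
.fin))
(.ask 959
(.mark 959 [6, 10, 11]
(.spn
(.haz 11 1983 3 10
(.ask 1471
(.mark 1983 [6, 11, 12]
(.lp [[6], [0, 2, 4, 8, 9, 11], [1, 3, 5, 7, 10, 12]] [(.mj 3 4, 1718), (.mj 6 10, 55), (.mj 6 11, 298), (.mj 9 6, 957), (.rw 9, 1), (.hz 16 1471, 1999338), (.hz 21 1983, 1543194), (.hz 16 5567, 917996), (.hz 21 6079, 3070690)]))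
(.lp [[6], [1, 3, 5, 7, 10], [0, 2, 4, 8, 9, 11]] [(.mj 3 4, 51), (.mj 6 10, 26), (.mj 6 11, 48), (.mj 9 6, 67), (.hz 16 1471, 84885), (.hz 21 1983, 469428)]))
(.lp [[6], [1, 3, 5, 7, 10], [0, 2, 4, 8, 9, 11]] [(.mj 3 4, 8), (.mj 6 10, 7), (.mj 9 6, 9), (.hz 21 959, 35067)]))
(.con 10 6)
(.cut 6 [(0, 1), (1, 1), (2, 1), (3, 1), (5, 1), (7, 1), (11, 1), (21, 1), (15, 1), (23, 1), (31, 1), (47, 1), (279, 1), (63, 1), (175, 1), (287, 1), (191, 1), (319, 1), (447, 1), (831, 1), (959, 1)]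
(.cut 10 [(0, 1), (1, 1), (2, 1), (3, 1), (5, 1), (7, 1), (11, 1), (21, 1), (15, 1), (23, 1), (31, 1), (47, 1), (79, 1), (279, 1), (63, 1), (95, 1), (111, 1), (175, 1), (287, 1), (127, 1), (191, 1), (239, 1), (319, 1), (351, 1), (255, 1), (383, 1), (447, 1), (831, 1), (511, 1), (895, 1)]
(.lp [[6], [1, 3, 5, 7, 10], [0, 2, 4, 8, 9, 11]] [(.mj 3 4, 41112), (.mj 11 6, 15769), (.rw 9, 1), (.rw 10, 52), (.rw 11, 1)])))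
.fin))
(.lp [[6], [0, 2, 4, 8, 9], [1, 3, 5, 7, 10]] [(.mj 6 10, 1), (.mj 9 6, 1)])))
(.lp [[6], [0, 2, 4, 8, 9], [1, 3, 5, 7, 10]] [(.mj 0 1, 1), (.hz 20 15, 87), (.hz 9 79, 2), (.hz 9 111, 2), (.hz 9 239, 2)]))
(.ask 831
(.mark 959 [6, 10, 11]
(.spn
(.con 6 10)
(.maj 6 11
(.cut 6 [(0, 1), (1, 1), (2, 1), (3, 1), (5, 1), (7, 1), (11, 1), (21, 1), (15, 1), (23, 1), (31, 1), (47, 1), (279, 1), (63, 1), (175, 1), (287, 1), (191, 1), (319, 1), (447, 1), (831, 1), (959, 1)]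
(.lp [[6], [1, 3, 5, 7, 10], [0, 2, 4, 8, 9, 11]] [(.mj 3 4, 4355), (.mj 9 10, 2188), (.mj 10 6, 2456), (.hz 12 2879, 8060419), (.hz 15 2879, 65511), (.hz 13 3007, 12819737), (.rw 10, 7)]))
(.cut 6 [(0, 1), (1, 1), (2, 1), (3, 1), (5, 1), (7, 1), (11, 1), (21, 1), (15, 1), (23, 1), (31, 1), (47, 1), (279, 1), (63, 1), (175, 1), (287, 1), (191, 1), (319, 1), (447, 1), (831, 1), (959, 1)]
(.lp [[6], [1, 3, 5, 7, 10], [0, 2, 4, 8, 9, 11]] [(.mj 3 4, 3264), (.mj 7 9, 22), (.mj 9 10, 290), (.mj 10 6, 738), (.mj 11 6, 620), (.hz 13 959, 847396), (.rw 10, 4)])))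
(.cut 6 [(0, 1), (1, 1), (2, 1), (3, 1), (5, 1), (7, 1), (11, 1), (21, 1), (15, 1), (23, 1), (31, 1), (47, 1), (279, 1), (63, 1), (175, 1), (287, 1), (191, 1), (319, 1), (447, 1), (831, 1), (959, 1)]
(.lp [[6], [1, 3, 5, 7, 10], [0, 2, 4, 8, 9, 11]] [(.mj 3 4, 1551), (.mj 7 9, 89), (.mj 10 6, 126), (.mj 11 6, 543), (.mj 11 10, 129), (.rw 10, 2)]))
.fin))
(.ask 959
(.mark 959 [6, 10, 11]
(.spn
(.con 6 10)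
(.haz 10 3007 2 5
(.maj 6 11
(.cut 6 [(0, 1), (1, 1), (2, 1), (3, 1), (5, 1), (7, 1), (11, 1), (21, 1), (15, 1), (23, 1), (31, 1), (47, 1), (279, 1), (63, 1), (175, 1), (287, 1), (191, 1), (319, 1), (447, 1), (831, 1), (959, 1)]
(.lp [[6], [1, 3, 5, 7, 10], [0, 2, 4, 8, 9, 11]] [(.mj 3 4, 4481), (.mj 9 10, 2220), (.mj 10 6, 2515), (.hz 13 3007, 12110910), (.rw 10, 7)]))
(.lp [[6], [1, 3, 5, 7, 10], [0, 2, 4, 8, 9, 11]] [(.mj 3 4, 262), (.mj 9 10, 22), (.mj 10 11, 14), (.mj 11 6, 160), (.hz 16 447, 265911), (.hz 13 959, 340653), (.hz 16 1471, 186141), (.hz 13 1983, 297666), (.hz 13 3007, 87006)]))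
(.cut 6 [(0, 1), (1, 1), (2, 1), (3, 1), (5, 1), (7, 1), (11, 1), (21, 1), (15, 1), (23, 1), (31, 1), (47, 1), (279, 1), (63, 1), (175, 1), (287, 1), (191, 1), (319, 1), (447, 1), (831, 1), (959, 1)]
(.lp [[6], [1, 3, 5, 7, 10], [0, 2, 4, 8, 9, 11]] [(.mj 3 4, 14539), (.mj 9 10, 1466), (.mj 10 6, 6524), (.mj 10 11, 771), (.hz 20 959, 14400699), (.hz 13 3007, 12281468), (.rw 10, 16)])))
(.cut 6 [(0, 1), (1, 1), (2, 1), (3, 1), (5, 1), (7, 1), (11, 1), (21, 1), (15, 1), (23, 1), (31, 1), (47, 1), (279, 1), (63, 1), (175, 1), (287, 1), (191, 1), (319, 1), (447, 1), (831, 1), (959, 1)]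
(.lp [[6], [1, 3, 5, 7, 10], [0, 2, 4, 8, 9, 11]] [(.mj 3 4, 12368), (.mj 10 6, 265), (.mj 11 6, 4479), (.mj 11 10, 442), (.rw 10, 14)]))
.fin))
(.lp [[6], [0, 2, 4, 8, 9], [1, 3, 5, 7, 10]] [(.mj 9 10, 13), (.mj 10 6, 7), (.hz 16 1471, 49913)]))))
(.haz 7 831 9 20
(.haz 7 831 11 20
(.ask 1471
(.mark 1471 [6, 9, 11]
(.spn
(.lp [[6], [0, 2, 4, 8, 9], [1, 3, 5, 7, 10, 11]] [(.mj 10 6, 156), (.rw 9, 1)])
(.lp [[6], [0, 2, 4, 8, 9], [1, 3, 5, 7, 10, 11]] [(.mj 9 6, 63), (.mj 9 11, 41), (.mj 10 9, 76), (.hz 13 959, 408535), (.hz 16 3519, 209733)])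
(.cut 6 [(0, 1), (1, 1), (2, 1), (3, 1), (5, 1), (7, 1), (11, 1), (21, 1), (15, 1), (23, 1), (31, 1), (47, 1), (279, 1), (63, 1), (175, 1), (287, 1), (191, 1), (319, 1), (447, 1)]
(.cut 9 [(0, 1), (1, 1), (2, 1), (3, 1), (5, 1), (7, 1), (11, 1), (21, 1), (15, 1), (23, 1), (31, 1), (47, 1), (79, 1), (279, 1), (63, 1), (95, 1), (111, 1), (175, 1), (287, 1), (127, 1), (191, 1), (239, 1), (319, 1), (351, 1), (255, 1), (383, 1), (447, 1), (511, 1)]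
(.lp [[6], [0, 2, 4, 8, 9], [1, 3, 5, 7, 10, 11]] [(.mj 8 7, 59129), (.mj 11 6, 45458), (.mj 11 9, 13169), (.hz 21 831, 18124650), (.hz 21 895, 135516101), (.hz 16 1471, 5370168), (.hz 13 1983, 70016115), (.rw 10, 155), (.rw 11, 13)])))
.fin))
(.lp [[6], [0, 2, 4, 8, 9], [1, 3, 5, 7, 10]] [(.mj 10 9, 1), (.rw 8, 1)]))
(.lp [[6], [0, 2, 4, 8, 9], [1, 3, 5, 7, 10]] [(.mj 3 4, 1802), (.mj 10 6, 36), (.rw 8, 1), (.hz 21 319, 3276427), (.hz 16 447, 1649282), (.hz 20 831, 2570737)]))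
(.lp [[6], [0, 2, 4, 8, 9], [1, 3, 5, 7, 10]] [(.mj 3 4, 1315), (.mj 10 9, 161), (.rw 8, 1), (.hz 20 319, 2922656), (.hz 15 831, 1248026)]))
.fin))
(.spn
(.lp [[6], [1, 3, 5, 7], [0, 2, 4, 8, 9]] [(.mj 6 9, 2), (.mj 7 6, 3)])
(.haz 6 47 1 10
(.lp [[6], [1, 3, 5, 7], [0, 2, 4, 8, 9]] [(.mj 3 4, 158), (.mj 9 6, 85), (.hz 20 63, 87457), (.hz 20 191, 53446), (.hz 20 319, 272086), (.hz 20 447, 230517), (.hz 20 831, 12588)])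
(.haz 8 255 19 25
(.haz 4 79 23 50
(.ask 79
(.mark 95 [5, 8, 10]
(.cut 6 [(0, 1), (1, 1), (2, 1), (3, 1), (5, 1), (7, 1), (11, 1), (21, 1), (15, 1), (23, 1), (31, 1), (47, 1), (279, 1), (63, 1), (175, 1), (287, 1), (191, 1), (319, 1), (447, 1)]
(.lp [[6, 10], [1, 3, 5, 7], [0, 2, 4, 8, 9]] [(.mj 3 4, 122251), (.mj 9 6, 418), (.hz 20 15, 5118139), (.hz 20 47, 44252583), (.hz 22 1103, 3647216), (.hz 10 1119, 199645139), (.hz 21 255, 12774789), (.hz 19 1375, 136898584), (.rw 9, 8)])))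
(.cut 6 [(0, 1), (1, 1), (2, 1), (3, 1), (5, 1), (7, 1), (11, 1), (21, 1), (15, 1), (23, 1), (31, 1), (47, 1), (279, 1), (63, 1), (175, 1), (287, 1), (191, 1), (319, 1), (447, 1)]
(.lp [[6], [1, 3, 5, 7], [0, 2, 4, 8, 9]] [(.mj 3 4, 17961), (.mj 9 6, 310), (.hz 20 47, 6991732), (.hz 10 95, 7301492), (.hz 21 255, 1504550), (.rw 9, 1)])))
(.lp [[6], [1, 3, 5, 7], [0, 2, 4, 8, 9]] [(.mj 0 1, 2), (.hz 22 15, 19), (.hz 20 15, 4), (.hz 20 47, 23), (.hz 9 79, 8), (.hz 9 111, 2), (.hz 19 351, 39), (.hz 9 239, 5)]))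
(.lp [[6], [1, 3, 5, 7], [0, 2, 4, 8, 9]] [(.mj 3 4, 5), (.mj 7 9, 1), (.hz 20 15, 733), (.hz 20 47, 12686), (.hz 10 95, 1221), (.hz 14 127, 3012), (.hz 21 191, 9600), (.hz 12 831, 2380)])))
.fin
.fin))
(.lp [[6], [1, 3, 5, 7], [0, 2, 4, 8, 9]] [(.mj 0 1, 71), (.mj 7 6, 7), (.hz 19 287, 61105), (.hz 18 351, 5096), (.hz 16 447, 4458)]))
(.lp [[6], [1, 3, 5, 7], [0, 2, 4, 8, 9]] [(.mj 5 8, 4), (.mj 7 6, 5), (.hz 18 287, 5285), (.hz 17 351, 3367)]))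
(.lp [[6], [1, 3, 5, 7], [0, 2, 4, 8, 9]] [(.mj 5 8, 5), (.mj 7 6, 4), (.mj 8 7, 1), (.hz 17 287, 2559)]))
(.cut 6 [(0, 1), (1, 1), (2, 1), (3, 1), (5, 1), (7, 1), (11, 1), (21, 1), (15, 1), (23, 1), (31, 1), (279, 1), (287, 1)]
(.cut 6 [(0, 1), (1, 1), (2, 1), (3, 1), (5, 1), (7, 1), (11, 1), (21, 1), (15, 1), (23, 1), (31, 1), (47, 1), (279, 1), (63, 1), (175, 1), (287, 1), (191, 1), (319, 1)]
(.lp [[6], [1, 3, 5, 7], [0, 2, 4, 8, 9]] [(.mj 3 4, 1145), (.hz 16 319, 17901650), (.hz 16 447, 11537516), (.rw 8, 3), (.rw 9, 28)]))))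
(.lp [[6], [1, 3, 5, 7], [0, 2, 4, 8, 9]] [(.mj 0 1, 25), (.mj 7 6, 4), (.mj 7 9, 5), (.hz 15 319, 3222), (.hz 12 831, 16812)]))

theorem run153 : run P3488 (leaf3 218 625) (cutRow P3488) [] t153 s153 = true := by
  decide +kernel

theorem bad153 : Bad P3488 s153 :=
  run_sound (leaf3_sound P3488 rfl rfl) (cutRow_sound P3488) (
    fun _ h => absurd h List.not_mem_nil) t153 s153 run153

/-- the state above piece 6 of the tree -/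
def s6 : St := ⟨[0, 0, 1, 1, 2, 5, 15], [15, 11, 13, 7, 9, 3, 1, 0], [0, 1, 2, 3, 4],
  [],
  [⟨true, 1, 9, 7, 50⟩, ⟨true, 2, 11, 3, 50⟩, ⟨true, 2, 9, 9, 50⟩, ⟨true, 3, 3, 1, 5⟩],
  [.spn 0 0 651200, .spn 1 1 140426, .spn 3 2 140426, .spn 7 3 62723, .spn 15 4 62723]⟩

/-- piece 6 of the tree -/
noncomputable def t6 : WN.Tree :=
(.haz 5 79 1 20
(.haz 5 79 1 10
(.haz 4 79 3 20
(.ask 18
(.mark 31 [5, 6, 7]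
(.spn
(.haz 5 15 1 4
(.ask 79
(.mark 95 [5, 7, 8]
(.lp [[2, 5], [1, 4, 7], [0, 3, 6, 8]] [(.mj 2 3, 9), (.mj 3 4, 14), (.mj 4 5, 14), (.mj 5 6, 3), (.hz 7 15, 8987), (.hz 7 79, 12288), (.hz 7 159, 8987), (.hz 7 335, 22743)]))
(.lp [[3, 6], [0, 2, 5], [1, 4, 7]] [(.mj 2 3, 17), (.mj 3 4, 28), (.mj 4 5, 28), (.mj 5 6, 7), (.hz 7 15, 17812), (.hz 7 79, 31752), (.hz 7 159, 17812)]))
(.haz 6 31 9 20
(.lp [[3, 6], [0, 2, 5], [1, 4, 7]] [(.mj 0 1, 7), (.mj 2 3, 14), (.mj 3 4, 12), (.mj 5 6, 20), (.hz 7 5, 3888), (.hz 7 7, 11470), (.hz 7 13, 6231), (.hz 7 15, 25252), (.hz 3 147, 11442), (.hz 8 31, 12626), (.hz 3 151, 21802), (.hz 8 159, 12112)])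
(.lp [[3, 6], [0, 2, 5], [1, 4, 7]] [(.mj 0 1, 16), (.mj 2 3, 76), (.mj 3 4, 25), (.hz 7 5, 8575), (.hz 7 7, 25297), (.hz 7 13, 4208), (.hz 7 15, 35944), (.hz 8 15, 7189), (.hz 3 147, 9862), (.hz 3 151, 63457)])))
(.haz 5 15 1 4
(.lp [[3, 6], [0, 2, 5], [1, 4, 7]] [(.mj 0 1, 24), (.mj 2 3, 19), (.mj 4 6, 1), (.mj 6 5, 24), (.hz 7 15, 34433), (.hz 3 147, 14757), (.hz 7 31, 109857), (.hz 7 79, 2198), (.hz 3 151, 44271), (.hz 7 159, 136092)])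
(.haz 5 15 1 5
(.lp [[3, 6], [0, 2, 5], [1, 4, 7]] [(.mj 0 1, 14541), (.mj 2 3, 15192), (.mj 4 6, 1224), (.mj 6 5, 6532), (.rw 5, 1), (.hz 7 5, 1356422), (.hz 7 7, 1492064), (.hz 8 15, 4849209), (.hz 3 147, 16989479), (.hz 8 31, 21016064), (.hz 8 79, 2295181), (.hz 3 151, 12850637), (.hz 8 159, 40827135)])
(.lp [[3, 6], [0, 2, 5], [1, 4, 7]] [(.mj 0 1, 5), (.mj 2 3, 16), (.mj 3 4, 6), (.mj 4 6, 4), (.hz 8 5, 1732), (.hz 8 7, 4838), (.hz 8 13, 1372), (.hz 8 15, 4597), (.hz 3 147, 19202), (.hz 5 79, 3717), (.hz 3 55, 277)])))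
(.haz 6 31 9 20
(.lp [[3, 6], [0, 2, 5], [1, 4, 7]] [(.mj 0 1, 4), (.mj 1 2, 5), (.mj 2 3, 10), (.mj 3 4, 31), (.mj 7 5, 29), (.mj 7 6, 18), (.hz 3 39, 3911), (.hz 7 31, 13528), (.hz 6 79, 3384), (.hz 5 79, 30669), (.hz 5 95, 149871), (.hz 7 159, 3456), (.hz 5 223, 69110)])
(.lp [[3, 6], [0, 2, 5], [1, 4, 7]] [(.mj 1 2, 2), (.mj 2 3, 24), (.mj 3 4, 29), (.mj 7 5, 27), (.mj 7 6, 1), (.hz 7 15, 5863), (.hz 3 39, 2991), (.hz 5 79, 13952), (.hz 5 95, 89860)]))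
.fin))
(.haz 4 79 1 5
(.ask 19
(.mark 31 [5, 6, 7]
(.spn
(.haz 5 15 1 4
(.ask 79
(.mark 95 [5, 7, 8]
(.lp [[2, 5], [1, 4, 7], [0, 3, 6, 8]] [(.mj 2 3, 3), (.mj 3 4, 5), (.mj 4 5, 5), (.mj 5 6, 1), (.hz 8 15, 3187), (.hz 8 79, 4460), (.hz 8 159, 3285), (.hz 8 335, 7529)]))
(.lp [[3, 6], [0, 2, 5], [1, 4, 7]] [(.mj 2 3, 16), (.mj 3 4, 26), (.mj 4 5, 26), (.mj 5 6, 6), (.hz 8 15, 16616), (.hz 8 31, 1517), (.hz 8 79, 28413), (.hz 8 159, 15966)]))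
(.haz 7 95 3 20
(.lp [[3, 6], [0, 2, 5], [1, 4, 7]] [(.mj 2 3, 492), (.mj 3 4, 247), (.mj 5 6, 96), (.hz 8 5, 60710), (.hz 8 7, 202367), (.hz 8 13, 39104), (.hz 8 15, 196431), (.hz 3 147, 513841), (.hz 7 79, 307353), (.hz 9 95, 113613)])
(.lp [[3, 6], [0, 2, 5], [1, 4, 7]] [(.mj 1 2, 12), (.mj 2 3, 61), (.mj 3 4, 27), (.mj 5 6, 9), (.hz 8 5, 5436), (.hz 8 7, 23226), (.hz 8 15, 16885), (.hz 9 23, 1587), (.hz 3 147, 57122), (.hz 7 79, 22514)])))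
(.haz 5 23 1 5
(.lp [[3, 6], [0, 2, 5], [1, 4, 7]] [(.mj 2 3, 95650), (.mj 3 4, 12598), (.mj 6 5, 53803), (.rw 5, 13), (.hz 8 23, 19684862), (.hz 3 147, 77258618), (.hz 8 31, 246816376), (.hz 5 79, 29890505), (.hz 3 151, 74304103), (.hz 8 151, 60528272), (.hz 2 155, 2933676), (.hz 8 159, 255563814)])
(.lp [[3, 6], [0, 2, 5], [1, 4, 7]] [(.mj 2 3, 10714), (.mj 3 4, 2643), (.mj 4 6, 30), (.rw 5, 1), (.hz 8 5, 723911), (.hz 8 7, 2352712), (.hz 8 23, 138036), (.hz 3 147, 11028950), (.hz 5 79, 28575), (.hz 3 55, 3380036), (.hz 3 151, 3380036)]))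
(.haz 5 23 3 20
(.lp [[3, 6], [0, 2, 5], [1, 4, 7]] [(.mj 1 2, 1), (.mj 2 3, 3), (.mj 3 4, 8), (.mj 7 5, 7), (.mj 7 6, 3), (.hz 8 23, 2745), (.hz 3 39, 1319), (.hz 8 31, 3673), (.hz 7 79, 10217), (.hz 5 79, 6057), (.hz 8 151, 523), (.hz 8 95, 9954)])
(.lp [[3, 6], [0, 2, 5], [1, 4, 7]] [(.mj 2 3, 2), (.mj 3 4, 2), (.mj 7 6, 1), (.hz 8 5, 573), (.hz 3 19, 831), (.hz 7 79, 1397), (.hz 5 79, 1064)]))
.fin))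
(.haz 4 39 1 5
(.haz 3 39 3 10
(.haz 3 23 9 25
(.haz 5 79 9 50
(.haz 4 39 13 50
(.haz 3 39 9 25
(.ask 23
(.mark 31 [5, 6, 7]
(.spn
(.haz 6 31 21 50
(.lp [[3, 6], [0, 2, 5], [1, 4, 7]] [(.mj 2 3, 4), (.mj 3 4, 17), (.mj 4 5, 22), (.mj 5 6, 20), (.hz 14 31, 3268), (.hz 10 151, 2078), (.hz 14 63, 2419), (.hz 14 159, 6569), (.hz 11 223, 468)])
(.haz 4 39 7 25
(.haz 3 37 1 5
(.ask 79
(.ask 37
(.mark 111 [4, 8, 9]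
(.lp [[1, 4, 7], [3, 6, 8], [0, 2, 5, 9]] [(.mj 1 2, 21), (.mj 2 3, 44), (.mj 3 4, 35), (.mj 4 5, 13), (.hz 14 15, 992), (.hz 15 39, 2445), (.hz 16 549, 3476), (.hz 14 31, 27), (.hz 11 79, 856), (.hz 10 151, 412), (.hz 15 551, 4829), (.hz 11 335, 1295)]))
(.mark 79 [4, 5, 8]
(.lp [[2, 5], [1, 4, 7], [0, 3, 6, 8]] [(.mj 2 3, 498), (.mj 3 4, 402), (.mj 4 5, 251), (.hz 14 15, 12162), (.hz 13 39, 10606), (.hz 15 39, 40189), (.hz 14 31, 4521), (.hz 11 79, 20597), (.hz 11 335, 25118)])))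
(.lp [[3, 6], [0, 2, 5], [1, 4, 7]] [(.mj 1 2, 19), (.mj 2 3, 47), (.mj 3 4, 41), (.mj 4 5, 18), (.hz 16 37, 4219), (.hz 13 39, 950), (.hz 15 39, 4053), (.hz 14 31, 1181), (.hz 11 79, 579)]))
(.lp [[3, 6], [0, 2, 5], [1, 4, 7]] [(.mj 1 2, 24), (.mj 2 3, 10), (.mj 3 4, 14), (.hz 16 5, 4469), (.hz 14 15, 30), (.hz 13 39, 1274), (.hz 15 39, 1433)]))
(.lp [[3, 6], [0, 2, 5], [1, 4, 7]] [(.mj 2 3, 25), (.mj 4 5, 15), (.hz 15 7, 2929), (.hz 14 15, 535), (.hz 13 39, 2051), (.hz 11 79, 1488)])))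
(.ask 79
(.mark 95 [5, 7, 8]
(.spn
(.ask 37
(.mark 127 [7, 8, 9]
(.spn
(.lp [[1, 4, 7], [3, 6, 8], [0, 2, 5, 9]] [(.mj 2 3, 1483), (.mj 3 4, 891), (.mj 5 7, 698), (.mj 6 5, 1726), (.mj 7 8, 698), (.rw 6, 2), (.hz 10 151, 57251), (.hz 11 335, 159030)])
(.haz 7 95 7 25
(.lp [[1, 4, 7], [3, 6, 8], [0, 2, 5, 9]] [(.mj 1 2, 499), (.mj 2 3, 1414), (.mj 6 5, 485), (.mj 8 7, 506), (.rw 6, 1), (.hz 11 79, 43545), (.hz 10 151, 164419), (.hz 13 551, 155914), (.hz 14 95, 365729), (.hz 7 335, 57522), (.hz 10 567, 155914), (.hz 14 127, 2366780)])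
(.lp [[1, 4, 7], [3, 6, 8], [0, 2, 5, 9]] [(.mj 1 2, 2068), (.mj 2 3, 4586), (.mj 3 4, 1202), (.mj 6 5, 1002), (.rw 6, 1), (.hz 14 23, 317309), (.hz 11 79, 726), (.hz 13 551, 287238)]))
(.lp [[1, 4, 7], [3, 6, 8], [0, 2, 5, 9]] [(.mj 2 3, 687), (.mj 3 4, 536), (.mj 6 5, 889), (.mj 9 7, 327), (.mj 9 8, 373), (.rw 6, 1), (.hz 10 151, 11070), (.hz 11 335, 95732), (.hz 11 223, 90974)])
.fin))
(.lp [[2, 5], [1, 4, 7], [0, 3, 6, 8]] [(.mj 1 2, 115), (.mj 2 3, 11545), (.mj 3 4, 3780), (.mj 6 5, 1852), (.rw 5, 1), (.hz 13 39, 829811), (.hz 12 39, 176650), (.hz 12 47, 883307), (.hz 10 151, 840387)]))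
(.lp [[2, 5], [1, 4, 7], [0, 3, 6, 8]] [(.mj 2 3, 13), (.mj 3 4, 10), (.mj 6 7, 5), (.mj 7 5, 16), (.hz 11 79, 1772), (.hz 10 151, 237), (.hz 11 95, 10300), (.hz 11 335, 3435), (.hz 11 223, 9714), (.hz 12 367, 7124)])
(.ask 37
(.mark 63 [6, 7, 9]
(.lp [[1, 4, 7], [3, 6, 8], [0, 2, 5, 9]] [(.mj 1 2, 56), (.mj 2 3, 90), (.mj 3 4, 86), (.mj 8 5, 40), (.mj 8 7, 1), (.hz 12 39, 12003), (.hz 12 47, 32285), (.hz 11 79, 16279), (.hz 11 95, 708)]))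
(.lp [[2, 5], [1, 4, 7], [0, 3, 6, 8]] [(.mj 1 2, 929), (.mj 2 3, 13904), (.mj 3 4, 6067), (.mj 8 5, 2647), (.rw 5, 1), (.hz 13 39, 906948), (.hz 12 39, 352679), (.hz 12 47, 1076086), (.hz 11 79, 505564), (.hz 10 151, 828706), (.hz 12 111, 926427)]))
.fin))
(.lp [[3, 6], [0, 2, 5], [1, 4, 7]] [(.mj 1 2, 700), (.mj 2 3, 1047), (.mj 3 4, 889), (.mj 6 5, 337), (.hz 12 39, 67343), (.hz 12 47, 13155), (.hz 10 151, 13203), (.hz 11 95, 102795)]))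
(.lp [[3, 6], [0, 2, 5], [1, 4, 7]] [(.mj 1 2, 20), (.mj 2 3, 16), (.mj 3 4, 25), (.mj 7 5, 5), (.mj 7 6, 4), (.hz 12 39, 1831), (.hz 12 47, 849), (.hz 7 79, 6314), (.hz 11 79, 2086), (.hz 12 111, 3642)])
.fin))
(.lp [[1, 4], [3, 6], [0, 2, 5]] [(.mj 1 2, 55), (.mj 2 3, 157), (.mj 3 4, 56), (.mj 4 5, 60), (.hz 13 39, 7567), (.hz 11 79, 8618), (.hz 10 55, 5246)]))
(.lp [[1, 4], [3, 6], [0, 2, 5]] [(.mj 1 2, 9), (.mj 2 3, 15), (.mj 3 4, 39), (.mj 4 5, 20), (.hz 13 7, 4697), (.hz 9 39, 9325), (.hz 12 39, 1962), (.hz 11 79, 2049)]))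
(.lp [[1, 4], [3, 6], [0, 2, 5]] [(.mj 2 3, 165), (.mj 4 5, 107), (.mj 4 6, 21), (.hz 12 7, 10407), (.hz 9 39, 41294), (.hz 11 79, 14612)]))
(.lp [[1, 4], [3, 6], [0, 2, 5]] [(.mj 2 3, 16), (.mj 3 4, 4), (.hz 11 5, 110), (.hz 11 7, 302), (.hz 10 23, 1661), (.hz 8 39, 2098), (.hz 5 79, 23)]))
(.lp [[1, 4], [3, 6], [0, 2, 5]] [(.mj 3 4, 35), (.mj 4 5, 21), (.hz 10 7, 5496), (.hz 10 19, 502), (.hz 10 23, 418), (.hz 9 39, 9629), (.hz 8 39, 17537), (.hz 5 79, 10446)]))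
(.lp [[1, 4], [3, 6], [0, 2, 5]] [(.mj 2 3, 3), (.mj 3 4, 16), (.mj 4 5, 11), (.hz 9 7, 6766), (.hz 3 39, 11524), (.hz 8 39, 8119)]))
(.lp [[1, 4], [3, 6], [0, 2, 5]] [(.mj 1 2, 46), (.mj 2 3, 29), (.mj 4 5, 6), (.hz 8 7, 19583), (.hz 3 39, 18091), (.hz 5 79, 3133)])))
(.lp [[1, 4], [3, 6], [0, 2, 5]] [(.mj 2 3, 16), (.mj 4 5, 112), (.mj 4 6, 97), (.hz 7 3, 36922), (.hz 7 7, 46152), (.hz 7 11, 31354), (.hz 7 15, 126429), (.hz 5 79, 146969)])))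
(.lp [[1, 4], [3, 6], [0, 2, 5]] [(.mj 1 2, 6), (.mj 4 6, 1), (.hz 6 2, 100), (.hz 6 3, 217), (.hz 6 7, 122), (.hz 6 11, 354), (.hz 6 15, 294), (.hz 3 39, 178), (.hz 5 79, 930)]))
(.lp [[1, 4], [3, 6], [0, 2, 5]] [(.mj 2 3, 2), (.mj 3 4, 2), (.mj 4 6, 1), (.hz 5 5, 131), (.hz 5 7, 407), (.hz 5 13, 121), (.hz 5 15, 512), (.hz 4 79, 439)]))
(.lp [[1, 4], [3, 6], [0, 2, 5]] [(.mj 2 3, 4), (.mj 3 4, 4), (.mj 4 6, 2), (.hz 4 5, 627)]))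

theorem run6 : run P3488 (leaf3 218 625) (cutRow P3488) [] t6 s6 = true := by
  decide +kernel

theorem bad6 : Bad P3488 s6 :=
  run_sound (leaf3_sound P3488 rfl rfl) (cutRow_sound P3488) (
    fun _ h => absurd h List.not_mem_nil) t6 s6 run6

/-- the state above piece 147 of the tree -/
def s147 : St := ⟨[0, 0, 1, 3, 5, 15, 15, 47, 21, 277], [63, 31, 15, 11, 7, 5, 3, 2, 1, 0], [0, 1, 2, 3, 4, 5, 8],
  [(4, 5)],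
  [⟨true, 2, 3, 3, 10⟩, ⟨true, 1, 5, 2, 5⟩, ⟨true, 2, 3, 23, 50⟩, ⟨true, 1, 5, 12, 25⟩, ⟨true, 1, 21, 27, 50⟩, ⟨true, 4, 15, 9, 40⟩, ⟨true, 3, 23, 11, 20⟩, ⟨true, 1, 21, 29, 50⟩, ⟨true, 4, 79, 11, 40⟩, ⟨true, 4, 175, 11, 40⟩, ⟨true, 4, 175, 3, 10⟩, ⟨true, 6, 175, 1, 40⟩, ⟨true, 8, 191, 1, 4⟩],
  [.spn 0 0 651200, .spn 1 1 302400, .spn 3 2 302400, .spn 7 3 302400, .spn 15 4 140426, .spn 31 5 140426, .spn 63 8 140426]⟩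

/-- piece 147 of the tree -/
noncomputable def t147 : WN.Tree :=
(.mark 319 [6, 7, 9]
(.spn
(.haz 6 831 3 25
(.haz 7 831 1 5
(.haz 6 191 7 50
(.ask 175
(.mark 191 [6, 8, 10]
(.lp [[6], [0, 2, 4, 8, 9], [1, 3, 5, 7, 10]] [(.mj 5 8, 13), (.mj 6 7, 9), (.mj 8 6, 12), (.hz 15 191, 3080), (.hz 10 1199, 3214), (.hz 15 447, 1050), (.hz 15 1215, 4871), (.hz 12 1215, 13121), (.hz 13 831, 5535), (.hz 14 831, 63471)]))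
(.lp [[6], [1, 3, 5, 7], [0, 2, 4, 8, 9]] [(.mj 5 8, 59), (.mj 6 7, 38), (.mj 8 6, 52), (.hz 15 191, 14800), (.hz 12 191, 67022), (.hz 13 831, 26772), (.hz 14 831, 227746)]))
(.lp [[6], [1, 3, 5, 7], [0, 2, 4, 8, 9]] [(.mj 5 8, 2), (.mj 6 7, 2), (.hz 15 15, 125), (.hz 15 31, 246), (.hz 15 47, 114), (.hz 15 63, 434), (.hz 12 191, 3841), (.hz 13 831, 966), (.hz 14 831, 12603)]))
(.lp [[6], [1, 3, 5, 7], [0, 2, 4, 8, 9]] [(.mj 3 4, 1), (.mj 5 8, 11), (.mj 8 6, 8), (.hz 14 47, 5679), (.hz 14 63, 16532), (.hz 14 319, 11179)]))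
(.lp [[6], [1, 3, 5, 7], [0, 2, 4, 8, 9]] [(.mj 3 4, 44), (.mj 5 8, 338), (.mj 6 7, 165), (.rw 7, 1), (.hz 13 15, 18173), (.hz 13 31, 30233), (.hz 13 47, 20651), (.hz 13 63, 57823), (.hz 13 319, 1128301)]))
(.haz 7 831 8 25
(.ask 175
(.mark 447 [6, 9, 10]
(.spn
(.ask 79
(.mark 511 [9, 10, 11]
(.lp [[6, 11], [0, 2, 4, 8, 9], [1, 3, 5, 7, 10]] [(.mj 3 4, 3386), (.mj 6 9, 928), (.mj 7 6, 2903), (.mj 8 7, 4155), (.rw 7, 1), (.rw 8, 9)]))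
(.ask 95
(.mark 511 [9, 10, 11]
(.lp [[6, 11], [0, 2, 4, 8, 9], [1, 3, 5, 7, 10]] [(.mj 3 4, 695), (.mj 6 9, 59), (.mj 7 6, 264), (.mj 8 6, 40), (.mj 8 7, 465), (.rw 8, 1)]))
(.ask 111
(.mark 511 [9, 10, 11]
(.lp [[6, 11], [0, 2, 4, 8, 9], [1, 3, 5, 7, 10]] [(.mj 3 4, 2008), (.mj 4 5, 698), (.mj 6 9, 179), (.mj 7 6, 724), (.mj 8 7, 1001), (.rw 8, 2)]))
(.ask 127
(.mark 511 [9, 10, 11]
(.lp [[6, 11], [0, 2, 4, 8, 9], [1, 3, 5, 7, 10]] [(.mj 3 4, 717), (.mj 6 9, 61), (.mj 7 6, 276), (.mj 8 6, 52), (.mj 8 7, 479), (.rw 8, 1)]))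
(.lp [[6], [0, 2, 4, 8, 9], [1, 3, 5, 7, 10]] [(.mj 3 4, 37682), (.mj 7 6, 7808), (.mj 8 7, 17943), (.rw 8, 7), (.hz 10 1199, 3640565)])))))
(.haz 6 63 3 25
(.lp [[6], [0, 2, 4, 8, 9], [1, 3, 5, 7, 10]] [(.mj 5 8, 14), (.mj 8 7, 9), (.mj 9 6, 13), (.hz 14 191, 17476), (.hz 14 319, 16507), (.hz 10 1199, 4175), (.hz 14 447, 14749), (.hz 14 1215, 12304), (.hz 14 831, 10506)])
(.haz 6 191 1 10
(.lp [[6], [0, 2, 4, 8, 9], [1, 3, 5, 7, 10]] [(.mj 3 4, 1496), (.mj 8 7, 683), (.mj 9 6, 119), (.mj 9 10, 2), (.hz 14 15, 97147), (.hz 14 31, 18113), (.hz 14 47, 110394), (.hz 14 63, 146031), (.hz 15 191, 2395031), (.hz 10 1199, 330082), (.hz 15 447, 338417), (.hz 15 1215, 591920), (.hz 15 959, 624896), (.hz 15 1471, 557680)])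
(.cut 6 [(0, 1), (1, 1), (2, 1), (3, 1), (5, 1), (7, 1), (11, 1), (21, 1), (15, 1), (23, 1), (277, 1), (31, 1), (47, 1), (279, 1), (789, 1), (63, 1), (175, 1), (287, 1), (791, 1), (191, 1), (319, 1), (447, 1)]
(.cut 6 [(0, 1), (1, 1), (2, 1), (3, 1), (5, 1), (7, 1), (11, 1), (21, 1), (15, 1), (23, 1), (277, 1), (31, 1), (47, 1), (279, 1), (789, 1), (63, 1), (287, 1), (791, 1), (319, 1), (799, 1), (831, 1)]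
(.lp [[6], [0, 2, 4, 8, 9], [1, 3, 5, 7, 10]] [(.mj 3 4, 1321043), (.mj 4 5, 200981), (.mj 5 8, 68780), (.mj 8 7, 463351), (.mj 9 10, 57372), (.hz 15 15, 248671724), (.hz 15 31, 108282946), (.hz 15 47, 136731598), (.hz 15 63, 342023541), (.hz 10 1199, 107157293), (.hz 11 1199, 46651700), (.hz 11 1215, 303607195), (.hz 11 1471, 239050621), (.rw 9, 164), (.rw 10, 40)])))))
(.haz 6 287 2 25
(.lp [[6], [0, 2, 4, 8, 9], [1, 3, 5, 7, 10]] [(.mj 3 4, 5684), (.mj 4 5, 101), (.mj 5 8, 1347), (.mj 8 7, 10003), (.mj 10 6, 9267), (.mj 10 9, 3073), (.rw 6, 1), (.hz 8 79, 237629), (.hz 14 287, 2096910), (.hz 8 111, 180180), (.hz 14 319, 1477287), (.hz 14 799, 6784463), (.hz 14 447, 26667605), (.hz 14 831, 18341332), (.hz 13 831, 4349194), (.hz 14 959, 38371334), (.hz 14 1471, 22314012)])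
(.lp [[6], [0, 2, 4, 8, 9], [1, 3, 5, 7, 10]] [(.mj 3 4, 54), (.mj 4 5, 12), (.mj 8 7, 23), (.mj 10 9, 2), (.hz 14 15, 6021), (.hz 14 31, 6974), (.hz 11 175, 3584), (.hz 11 191, 13580), (.hz 11 1215, 3624), (.hz 11 959, 16569)]))
.fin))
(.haz 6 287 2 25
(.haz 6 63 3 20
(.lp [[6], [1, 3, 5, 7], [0, 2, 4, 8, 9]] [(.mj 3 4, 25), (.mj 7 6, 22), (.mj 8 7, 15), (.hz 15 63, 7363), (.hz 15 191, 25537), (.hz 15 319, 25230), (.hz 14 799, 19049), (.hz 15 831, 26911)])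
(.haz 7 127 3 10
(.haz 4 79 7 20
(.ask 191
(.mark 447 [6, 9, 10]
(.spn
(.ask 79
(.mark 511 [9, 10, 11]
(.lp [[6, 11], [0, 2, 4, 8, 9], [1, 3, 5, 7, 10]] [(.mj 3 4, 1091), (.mj 6 9, 61), (.mj 7 6, 300), (.mj 8 6, 5), (.mj 8 7, 672), (.rw 8, 1), (.hz 15 15, 65794), (.hz 15 47, 77405)]))
(.lp [[6], [0, 2, 4, 8, 9], [1, 3, 5, 7, 10]] [(.mj 3 4, 10331), (.mj 7 6, 3049), (.mj 8 7, 4950), (.rw 8, 4), (.hz 15 47, 1085165), (.hz 15 63, 191500), (.hz 14 799, 4010394), (.hz 14 831, 6833357), (.hz 14 1471, 6180458)]))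
(.ask 79
(.mark 511 [9, 10, 11]
(.lp [[6, 11], [0, 2, 4, 8, 9], [1, 3, 5, 7, 10]] [(.mj 3 4, 29), (.mj 8 7, 11), (.mj 9 6, 3), (.hz 15 15, 2386), (.hz 14 799, 1296), (.hz 17 2159, 6059), (.hz 16 2175, 72197), (.hz 14 447, 11487), (.hz 14 1471, 12312)]))
(.lp [[6], [0, 2, 4, 8, 9], [1, 3, 5, 7, 10]] [(.mj 3 4, 263), (.mj 8 7, 99), (.mj 9 6, 79), (.hz 15 47, 3530), (.hz 14 287, 35664), (.hz 17 111, 58389), (.hz 16 127, 392785), (.hz 14 319, 38305), (.hz 14 799, 26672), (.hz 14 447, 81333), (.hz 11 1215, 19093), (.hz 14 831, 10901), (.hz 14 1471, 136257)]))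
(.lp [[6], [0, 2, 4, 8, 9], [1, 3, 5, 7, 10]] [(.mj 3 4, 22), (.mj 8 7, 14), (.mj 10 6, 15), (.mj 10 9, 2), (.hz 15 47, 254), (.hz 17 79, 1654), (.hz 14 287, 3866), (.hz 17 111, 1037), (.hz 14 319, 5104), (.hz 14 799, 9646), (.hz 14 447, 40644), (.hz 14 831, 22346), (.hz 13 831, 3903), (.hz 14 959, 45534), (.hz 14 1471, 25248)])
.fin))
(.ask 447
(.mark 447 [6, 9, 10]
(.spn
(.haz 9 1471 1 10
(.ask 79
(.mark 511 [9, 10, 11]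
(.lp [[6, 11], [0, 2, 4, 8, 9], [1, 3, 5, 7, 10]] [(.mj 3 4, 173), (.mj 6 10, 22), (.mj 7 6, 41), (.mj 8 7, 10), (.hz 15 15, 5834), (.hz 15 47, 10392), (.hz 17 2127, 5966), (.hz 14 799, 74763), (.hz 17 2159, 3362), (.hz 14 831, 130444), (.hz 17 2287, 21432), (.hz 12 2303, 489694), (.hz 18 1471, 127987)]))
(.lp [[6], [0, 2, 4, 8, 9], [1, 3, 5, 7, 10]] [(.mj 3 4, 77294), (.mj 6 10, 8666), (.mj 7 6, 12842), (.mj 8 7, 9495), (.rw 8, 1), (.hz 15 31, 1445226), (.hz 15 47, 13177058), (.hz 14 799, 27034222), (.hz 14 831, 41924482), (.hz 18 1471, 51455018)]))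
(.lp [[6], [0, 2, 4, 8, 9], [1, 3, 5, 7, 10]] [(.mj 3 4, 3), (.mj 6 10, 11), (.mj 7 6, 14), (.mj 8 7, 12), (.hz 18 277, 798), (.hz 18 279, 4079), (.hz 18 287, 12737), (.hz 18 319, 27370), (.hz 18 447, 33204)]))
(.lp [[6], [0, 2, 4, 8, 9], [1, 3, 5, 7, 10]] [(.mj 3 4, 16), (.mj 8 7, 1), (.mj 9 6, 6), (.mj 9 10, 1), (.hz 15 47, 186), (.hz 17 79, 1206), (.hz 14 287, 2817), (.hz 17 111, 756), (.hz 14 319, 3719), (.hz 17 239, 865), (.hz 14 447, 4471), (.hz 14 1471, 11161)])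
(.ask 1471
(.mark 1471 [6, 9, 11]
(.spn
(.lp [[6], [0, 2, 4, 8, 9], [1, 3, 5, 7, 10, 11]] [(.mj 10 6, 159), (.rw 9, 1)])
(.lp [[6], [0, 2, 4, 8, 9], [1, 3, 5, 7, 10, 11]] [(.mj 3 4, 12791), (.mj 8 7, 163), (.rw 8, 2), (.rw 9, 6), (.hz 17 79, 1096228), (.hz 14 287, 2357487), (.hz 17 111, 712548), (.hz 14 319, 3182093), (.hz 17 239, 686201), (.hz 14 447, 3887268)])
(.lp [[6], [0, 2, 4, 8, 9], [1, 3, 5, 7, 10, 11]] [(.mj 3 4, 6), (.mj 8 7, 2), (.mj 11 6, 3), (.hz 17 79, 388), (.hz 14 287, 1097), (.hz 17 111, 388), (.hz 14 319, 1412), (.hz 14 799, 1905), (.hz 14 447, 7431), (.hz 14 831, 3605), (.hz 14 959, 3530), (.hz 14 1471, 3530)])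
.fin))
(.lp [[6], [0, 2, 4, 8, 9], [1, 3, 5, 7, 10]] [(.mj 10 9, 1), (.rw 8, 1)]))
.fin))
(.lp [[6], [1, 3, 5, 7], [0, 2, 4, 8, 9]] [(.mj 3 4, 8), (.mj 7 6, 1), (.mj 8 7, 1), (.hz 15 15, 505), (.hz 15 47, 1006)])))
(.lp [[6], [1, 3, 5, 7], [0, 2, 4, 8, 9]] [(.mj 4 5, 3), (.mj 8 7, 1), (.hz 17 5, 68), (.hz 17 7, 78), (.hz 17 15, 1208), (.hz 15 15, 755), (.hz 8 79, 94), (.hz 6 791, 191)]))
(.lp [[6], [1, 3, 5, 7], [0, 2, 4, 8, 9]] [(.mj 3 4, 7), (.mj 7 6, 1), (.hz 15 15, 420), (.hz 15 47, 712), (.hz 15 63, 1487), (.hz 16 63, 7990), (.hz 10 239, 2764)])))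
(.cut 6 [(0, 1), (1, 1), (2, 1), (3, 1), (5, 1), (7, 1), (11, 1), (21, 1), (15, 1), (23, 1), (277, 1), (31, 1), (47, 1), (279, 1), (789, 1), (63, 1), (175, 1), (791, 1)]
(.cut 6 [(0, 1), (1, 1), (2, 1), (3, 1), (5, 1), (7, 1), (11, 1), (21, 1), (15, 1), (23, 1), (277, 1), (31, 1), (47, 1), (279, 1), (789, 1), (63, 1), (175, 1), (287, 1), (791, 1), (191, 1), (319, 1)]
(.lp [[6], [1, 3, 5, 7], [0, 2, 4, 8, 9]] [(.mj 3 4, 104941), (.mj 8 7, 41594), (.hz 14 15, 13441449), (.hz 14 31, 1769020), (.hz 7 789, 790582), (.hz 14 287, 55170317), (.hz 6 791, 14014864), (.rw 8, 53), (.rw 9, 7)])))))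
(.lp [[6], [1, 3, 5, 7], [0, 2, 4, 8, 9]] [(.mj 5 8, 410), (.mj 7 9, 68), (.rw 7, 1), (.hz 13 319, 1344964)]))
(.haz 6 175 1 10
(.cut 6 [(0, 1), (1, 1), (2, 1), (3, 1), (5, 1), (7, 1), (11, 1), (21, 1), (15, 1), (23, 1), (277, 1), (31, 1), (47, 1), (279, 1), (789, 1), (63, 1), (791, 1)]
(.lp [[6], [1, 3, 5, 7], [0, 2, 4, 8, 9]] [(.mj 3 4, 35049), (.mj 4 5, 623), (.mj 9 6, 13372), (.mj 9 7, 9344), (.rw 6, 4), (.hz 8 79, 1465261), (.hz 8 111, 1111022), (.hz 10 175, 7300101), (.hz 13 175, 4856964), (.hz 13 191, 23618618), (.hz 12 191, 40187080), (.hz 13 447, 94179712), (.rw 8, 10)]))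
(.lp [[6], [1, 3, 5, 7], [0, 2, 4, 8, 9]] [(.mj 3 4, 20), (.mj 4 5, 2), (.mj 9 7, 8), (.hz 13 15, 9839), (.hz 10 175, 3733), (.hz 11 175, 1809), (.hz 12 191, 23843)]))
.fin))

theorem run147 : run P3488 (leaf3 218 625) (cutRow P3488) [] t147 s147 = true := by
  decide +kernel

theorem bad147 : Bad P3488 s147 :=
  run_sound (leaf3_sound P3488 rfl rfl) (cutRow_sound P3488) (
    fun _ h => absurd h List.not_mem_nil) t147 s147 run147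

/-- the state above piece 30 of the tree -/
def s30 : St := ⟨[0, 0, 1, 1, 3, 7, 39, 47], [47, 39, 15, 13, 11, 9, 7, 5, 3, 2, 1, 0], [0, 1, 2, 3, 5, 4],
  [],
  [⟨true, 1, 9, 7, 50⟩, ⟨true, 2, 11, 3, 50⟩, ⟨true, 2, 9, 9, 50⟩, ⟨true, 3, 3, 1, 5⟩, ⟨true, 1, 5, 13, 50⟩, ⟨true, 5, 31, 1, 8⟩, ⟨true, 4, 39, 1, 20⟩, ⟨true, 5, 31, 16, 25⟩],
  [.spn 0 0 651200, .spn 1 1 140426, .spn 3 2 140426, .spn 7 3 62723, .spn 15 5 302400, .spn 47 4 62723]⟩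

/-- piece 30 of the tree -/
noncomputable def t30 : WN.Tree :=
(.haz 7 111 13 50
(.haz 4 175 7 50
(.haz 4 111 7 50
(.haz 7 111 9 25
(.ask 19
(.mark 63 [6, 7, 8]
(.spn
(.haz 7 63 3 8
(.lp [[3, 7], [1, 4, 8], [0, 2, 5, 6]] [(.mj 3 5, 9), (.mj 4 6, 13), (.mj 5 4, 18), (.mj 6 7, 19), (.hz 3 275, 3412), (.hz 3 279, 8531), (.hz 2 283, 2844), (.hz 12 63, 53631), (.hz 7 287, 13472), (.hz 11 111, 3674), (.hz 12 319, 99920)])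
(.lp [[3, 7], [1, 4, 8], [0, 2, 5, 6]] [(.mj 3 5, 6), (.mj 4 6, 4), (.mj 5 4, 6), (.mj 6 7, 1), (.hz 12 47, 4774), (.hz 11 111, 1136)]))
(.haz 6 191 1 8
(.haz 6 191 3 20
(.ask 175
(.mark 191 [6, 8, 9]
(.spn
(.ask 103
(.mark 255 [8, 9, 10]
(.lp [[1, 4, 8], [3, 7, 9], [0, 2, 5, 6, 10]] [(.mj 3 5, 27), (.mj 4 7, 20), (.mj 5 4, 31), (.mj 6 9, 4), (.mj 7 6, 6), (.hz 11 111, 529), (.hz 10 1135, 3072), (.hz 11 1135, 9624)]))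
(.ask 111
(.mark 239 [4, 9, 10]
(.lp [[1, 4, 8], [3, 7, 9], [0, 2, 5, 6, 10]] [(.mj 4 7, 32), (.mj 5 4, 50), (.mj 6 9, 5), (.mj 7 6, 17), (.hz 11 111, 5227), (.hz 10 1135, 3348), (.hz 11 1135, 11035)]))
(.lp [[1, 4, 8], [3, 7, 9], [0, 2, 5, 6]] [(.mj 4 7, 6), (.mj 5 4, 9), (.mj 6 9, 1), (.mj 7 6, 3)])))
(.lp [[1, 4, 8], [3, 7, 9], [0, 2, 5, 6]] [(.mj 3 5, 418), (.mj 4 7, 134), (.mj 5 4, 1241), (.mj 8 6, 41), (.rw 7, 1), (.hz 10 111, 298452), (.hz 13 191, 580909), (.hz 9 687, 207626)])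
(.ask 103
(.mark 127 [7, 8, 10]
(.lp [[1, 4, 8], [3, 7, 9], [0, 2, 5, 6, 10]] [(.mj 3 5, 19), (.mj 4 7, 23), (.mj 5 4, 25), (.mj 9 6, 4), (.hz 3 1127, 3999), (.hz 6 1127, 293), (.hz 13 191, 6997), (.hz 11 1135, 15118), (.hz 13 703, 7730)]))
(.lp [[1, 4, 8], [3, 7, 9], [0, 2, 5, 6]] [(.mj 4 7, 62), (.mj 5 4, 69), (.mj 9 6, 23), (.hz 11 111, 30039), (.hz 13 191, 44940), (.hz 13 703, 2735)]))
.fin))
(.haz 6 191 3 10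
(.lp [[3, 7], [1, 4, 8], [0, 2, 5, 6]] [(.mj 4 7, 6), (.mj 5 4, 18), (.mj 7 6, 13), (.hz 14 191, 30707)])
(.lp [[3, 7], [1, 4, 8], [0, 2, 5, 6]] [(.mj 3 5, 5), (.mj 5 4, 9), (.hz 14 47, 2091), (.hz 10 111, 1462), (.hz 14 175, 4450)])))
(.lp [[3, 7], [1, 4, 8], [0, 2, 5, 6]] [(.mj 4 7, 19), (.mj 5 4, 28), (.hz 13 39, 1837), (.hz 13 47, 3539), (.hz 13 55, 20), (.hz 11 111, 6651)]))
(.lp [[3, 7], [1, 4, 8], [0, 2, 5, 6]] [(.mj 4 7, 2), (.mj 5 4, 3), (.hz 12 39, 503), (.hz 12 47, 975), (.hz 12 55, 3), (.hz 11 111, 733)]))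
(.lp [[3, 7], [1, 4, 8], [0, 2, 5, 6]] [(.mj 3 5, 6), (.mj 5 4, 8), (.mj 8 6, 3), (.mj 8 7, 5), (.hz 10 111, 934), (.hz 11 111, 2515), (.hz 9 175, 1612)])
.fin))
(.haz 6 191 4 25
(.ask 23
(.mark 63 [6, 7, 8]
(.spn
(.haz 8 127 2 25
(.lp [[3, 7], [1, 4, 8], [0, 2, 5, 6]] [(.mj 3 5, 115), (.mj 4 6, 80), (.mj 5 4, 150), (.mj 6 7, 90), (.hz 3 279, 5974), (.hz 7 287, 3211), (.hz 11 111, 22031), (.hz 9 175, 30274), (.hz 11 127, 13131), (.hz 13 127, 40527), (.hz 13 255, 164133)])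
(.lp [[3, 7], [1, 4, 8], [0, 2, 5, 6]] [(.mj 3 5, 6), (.mj 6 7, 1), (.hz 13 23, 348), (.hz 13 31, 1284), (.hz 11 111, 10)]))
(.ask 175
(.mark 191 [6, 8, 9]
(.spn
(.ask 103
(.mark 255 [8, 9, 10]
(.lp [[1, 4, 8], [3, 7, 9], [0, 2, 5, 6, 10]] [(.mj 3 5, 34), (.mj 4 7, 24), (.mj 5 4, 37), (.mj 6 9, 4), (.mj 7 6, 6), (.hz 11 111, 910), (.hz 10 1135, 3669), (.hz 11 1135, 11324)]))
(.ask 111
(.mark 111 [4, 7, 10]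
(.lp [[1, 4, 8], [3, 7, 9], [0, 2, 5, 6, 10]] [(.mj 4 7, 23), (.mj 5 4, 37), (.mj 6 9, 5), (.mj 7 6, 15), (.hz 11 111, 2600), (.hz 10 1135, 2857), (.hz 11 1135, 8204), (.hz 12 447, 38513)]))
(.lp [[1, 4, 8], [3, 7, 9], [0, 2, 5, 6]] [(.mj 4 7, 6), (.mj 5 4, 10), (.mj 6 9, 1), (.mj 7 6, 3)])))
(.lp [[1, 4, 8], [3, 7, 9], [0, 2, 5, 6]] [(.mj 3 5, 44), (.mj 4 7, 45), (.mj 5 4, 61), (.mj 8 6, 13), (.hz 10 111, 6970), (.hz 11 111, 19200), (.hz 12 191, 11657), (.hz 12 447, 26865), (.hz 12 703, 22173)])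
(.ask 103
(.mark 255 [8, 9, 10]
(.lp [[1, 4, 8], [3, 7, 9], [0, 2, 5, 6, 10]] [(.mj 3 5, 7), (.mj 4 7, 13), (.mj 5 4, 17), (.mj 9 6, 5), (.hz 3 1127, 4244), (.hz 6 1127, 1528), (.hz 12 191, 11737), (.hz 11 1135, 8976), (.hz 12 703, 2240)]))
(.lp [[1, 4, 8], [3, 7, 9], [0, 2, 5, 6]] [(.mj 4 7, 41), (.mj 5 4, 54), (.mj 9 6, 22), (.hz 11 111, 18710), (.hz 12 191, 42733), (.hz 12 703, 1812)]))
.fin))
(.haz 6 191 3 10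
(.lp [[3, 7], [1, 4, 8], [0, 2, 5, 6]] [(.mj 4 7, 6), (.mj 5 4, 18), (.mj 7 6, 13), (.hz 13 191, 30707)])
(.lp [[3, 7], [1, 4, 8], [0, 2, 5, 6]] [(.mj 3 5, 5), (.mj 5 4, 8), (.hz 13 47, 3088), (.hz 13 175, 4412), (.hz 12 191, 2377)])))
(.lp [[3, 7], [1, 4, 8], [0, 2, 5, 6]] [(.mj 3 5, 2), (.mj 5 4, 3), (.mj 8 6, 1), (.mj 8 7, 2), (.hz 10 111, 317), (.hz 11 111, 756), (.hz 9 175, 519)])
.fin))
(.maj 6 7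
(.haz 7 63 3 10
(.ask 55
(.mark 63 [6, 7, 8]
(.lp [[3, 7], [1, 4, 8], [0, 2, 5, 6]] [(.mj 3 5, 5), (.mj 6 7, 1)]))
(.ask 27
(.mark 63 [6, 7, 8]
(.lp [[3, 7], [1, 4, 8], [0, 2, 5, 6]] [(.mj 2 3, 49930), (.mj 3 5, 96958), (.mj 4 6, 35344), (.mj 5 4, 51231), (.mj 6 7, 56561), (.hz 13 63, 111049352), (.hz 7 287, 17553340), (.hz 11 111, 9719559), (.hz 13 319, 212103163)]))
(.ask 31
(.mark 63 [6, 7, 8]
(.lp [[3, 7], [1, 4, 8], [0, 2, 5, 6]] [(.mj 3 5, 17), (.mj 4 6, 9), (.mj 5 4, 13), (.mj 6 7, 14), (.hz 13 63, 27420), (.hz 7 287, 3915), (.hz 11 111, 2398), (.hz 13 319, 47306)]))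
(.ask 63
(.mark 63 [6, 7, 8]
(.lp [[3, 7], [1, 4, 8], [0, 2, 5, 6]] [(.mj 3 5, 8), (.mj 4 6, 2), (.mj 5 4, 3), (.mj 6 7, 4), (.hz 13 63, 6097), (.hz 11 111, 540), (.hz 13 319, 8710)]))
(.lp [[1, 4], [3, 7], [0, 2, 5, 6]] [(.mj 3 5, 7), (.mj 6 7, 1)])))))
(.lp [[1, 4], [3, 7], [0, 2, 5, 6]] [(.mj 4 6, 15), (.mj 5 4, 26), (.hz 13 47, 14322), (.hz 10 111, 213), (.hz 11 111, 4142)]))
(.haz 4 111 9 50
(.haz 6 47 8 25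
(.lp [[1, 4], [3, 7], [0, 2, 5, 6]] [(.mj 3 5, 6), (.mj 4 7, 9), (.mj 5 4, 14), (.mj 7 6, 11), (.hz 14 63, 10359), (.hz 13 111, 784), (.hz 14 175, 2998)])
(.haz 5 31 7 10
(.haz 4 175 9 50
(.haz 7 111 11 25
(.haz 7 63 9 25
(.ask 103
(.mark 111 [4, 7, 8]
(.lp [[1, 4], [3, 7], [0, 2, 5, 6, 8]] [(.mj 3 5, 498), (.mj 4 7, 390), (.mj 5 4, 607), (.mj 7 6, 11), (.hz 17 111, 55178), (.hz 6 359, 31346), (.hz 13 367, 23098), (.hz 17 367, 165549)]))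
(.ask 111
(.mark 111 [4, 7, 8]
(.ask 367
(.mark 367 [4, 7, 9]
(.lp [[1, 4], [3, 7], [0, 2, 5, 6, 8, 9]] [(.mj 3 5, 1), (.mj 4 7, 28), (.mj 5 4, 45), (.mj 7 6, 7), (.hz 17 111, 4454), (.hz 17 127, 1908), (.hz 17 367, 7953), (.hz 17 879, 4335)]))
(.lp [[1, 4], [3, 7], [0, 2, 5, 6, 8]] [(.mj 3 5, 1), (.mj 4 7, 28), (.mj 5 4, 45), (.mj 7 6, 7), (.hz 17 111, 4454), (.hz 17 127, 1908), (.hz 17 367, 7953)])))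
(.lp [[1, 4], [3, 7], [0, 2, 5, 6]] [(.mj 3 5, 1), (.mj 4 7, 18), (.mj 5 4, 29), (.mj 7 6, 4), (.hz 17 111, 2612)])))
(.lp [[1, 4], [3, 7], [0, 2, 5, 6]] [(.mj 3 5, 1), (.mj 5 4, 10), (.mj 7 6, 5), (.hz 18 47, 2357), (.hz 13 111, 2868)]))
(.haz 6 63 6 25
(.lp [[1, 4], [3, 7], [0, 2, 5, 6]] [(.mj 3 5, 6), (.mj 5 4, 20), (.mj 7 6, 26), (.hz 17 47, 8189), (.hz 18 63, 30376)])
(.lp [[1, 4], [3, 7], [0, 2, 5, 6]] [(.mj 5 4, 8), (.hz 18 39, 292), (.hz 18 47, 2644), (.hz 17 47, 2709), (.hz 13 111, 180)])))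
(.lp [[1, 4], [3, 7], [0, 2, 5, 6]] [(.mj 3 5, 4), (.mj 4 7, 8), (.mj 7 6, 3), (.hz 16 11, 414), (.hz 16 15, 1167), (.hz 16 39, 197), (.hz 16 47, 1126), (.hz 13 111, 1437), (.hz 11 111, 2866)]))
(.lp [[1, 4], [3, 7], [0, 2, 5, 6]] [(.mj 5 4, 1), (.hz 15 15, 930), (.hz 14 39, 40), (.hz 7 31, 28)])))
(.lp [[1, 4], [3, 7], [0, 2, 5, 6]] [(.mj 3 5, 5), (.mj 4 7, 7), (.mj 7 6, 2), (.hz 13 11, 403), (.hz 13 15, 1138), (.hz 13 47, 984), (.hz 10 111, 1235), (.hz 11 111, 2504)]))))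
(.lp [[1, 4], [3, 7], [0, 2, 5, 6]] [(.mj 3 5, 1), (.mj 4 7, 93), (.mj 5 4, 137), (.hz 12 39, 7130), (.hz 12 47, 13771), (.hz 11 111, 32348)])))
(.haz 4 111 1 5
(.haz 6 175 17 50
(.haz 4 111 11 50
(.ask 175
(.maj 6 7
(.mark 175 [4, 6, 8]
(.lp [[1, 4], [3, 7, 8], [0, 2, 5, 6]] [(.mj 3 5, 371), (.mj 4 6, 88), (.mj 5 4, 251), (.mj 6 7, 9), (.hz 11 47, 39292), (.hz 14 111, 35486), (.hz 13 175, 7979), (.hz 13 431, 12090)]))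
(.lp [[1, 4], [3, 7, 8], [0, 2, 5, 6]] [(.mj 3 5, 2), (.mj 5 4, 13), (.mj 7 6, 5), (.hz 11 47, 2933), (.hz 14 111, 3292)]))
(.lp [[1, 4], [3, 7], [0, 2, 5, 6]] [(.mj 3 5, 23), (.mj 4 6, 1), (.mj 5 4, 13), (.hz 14 111, 3072), (.hz 11 111, 1581)]))
(.lp [[1, 4], [3, 7], [0, 2, 5, 6]] [(.mj 3 5, 8), (.mj 4 6, 32), (.mj 5 4, 22), (.hz 14 47, 5249), (.hz 11 47, 7489), (.hz 12 111, 6857), (.hz 13 175, 4426)]))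
(.lp [[1, 4], [3, 7], [0, 2, 5, 6]] [(.mj 3 5, 28), (.mj 5 4, 51), (.hz 13 47, 7852), (.hz 11 47, 16983), (.hz 12 111, 31985)]))
(.lp [[1, 4], [3, 7], [0, 2, 5, 6]] [(.mj 3 5, 8), (.mj 4 6, 31), (.mj 5 4, 22), (.hz 12 47, 60829), (.hz 11 47, 12166), (.hz 10 111, 648), (.hz 8 111, 4241)])))
(.lp [[1, 4], [3, 7], [0, 2, 5, 6]] [(.mj 3 5, 4), (.mj 4 6, 5), (.mj 4 7, 10), (.hz 10 3, 197), (.hz 10 7, 328), (.hz 10 11, 328), (.hz 10 15, 961), (.hz 10 47, 1314), (.hz 6 103, 65), (.hz 8 111, 2418)]))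
(.lp [[1, 4], [3, 7], [0, 2, 5, 6]] [(.mj 3 5, 4), (.mj 4 6, 5), (.mj 4 7, 10), (.hz 9 3, 197), (.hz 9 7, 328), (.hz 9 11, 328), (.hz 9 15, 961), (.hz 9 47, 1314), (.hz 6 103, 65), (.hz 8 111, 2418)]))
(.haz 4 111 4 25
(.haz 7 111 7 50
(.lp [[1, 4], [3, 7], [0, 2, 5, 6]] [(.mj 3 5, 59), (.mj 4 6, 14), (.mj 5 4, 40), (.hz 8 47, 4405), (.hz 9 111, 11322), (.hz 10 111, 1968)])
(.lp [[1, 4], [3, 7], [0, 2, 5, 6]] [(.mj 3 5, 8), (.mj 4 6, 2), (.mj 5 4, 6), (.hz 10 47, 564), (.hz 9 111, 1445)]))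
(.lp [[1, 4], [3, 7], [0, 2, 5, 6]] [(.mj 3 5, 1), (.mj 4 6, 2), (.hz 9 3, 66), (.hz 9 7, 112), (.hz 9 11, 112), (.hz 9 15, 333), (.hz 9 47, 695), (.hz 8 47, 347)])))

theorem run30 : run P3488 (leaf3 218 625) (cutRow P3488) [] t30 s30 = true := by
  decide +kernel

theorem bad30 : Bad P3488 s30 :=
  run_sound (leaf3_sound P3488 rfl rfl) (cutRow_sound P3488) (
    fun _ h => absurd h List.not_mem_nil) t30 s30 run30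

end Pool.Agent.WN.Data
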