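import Pool.Agent.WN.CutRow
import Pool.Agent.WN.LeafRow
import Pool.Agent.Helper99.WN.ParDef
import Pool.Agent.WN.Data.D6

/-!
# The search tree, part 11
-/

set_option autoImplicit false

namespace Pool.Agent.WN.Data

open Pool.Agent.W3 Pool.Agent.WN Pool.Agent.Helper99.WN

/-- the state above piece 129 of the tree -/
def s129 : St := ⟨[0, 0, 1, 3, 5, 11, 15, 21], [47, 43, 31, 15, 11, 7, 5, 3, 2, 1, 0], [0, 1, 2, 3, 4, 5],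
  [],
  [⟨true, 2, 3, 3, 10⟩, ⟨true, 1, 5, 2, 5⟩, ⟨true, 2, 3, 23, 50⟩, ⟨true, 1, 5, 12, 25⟩, ⟨true, 1, 21, 27, 50⟩, ⟨true, 4, 15, 9, 40⟩, ⟨true, 3, 23, 11, 20⟩, ⟨true, 4, 79, 7, 25⟩, ⟨true, 4, 79, 8, 25⟩, ⟨true, 7, 95, 9, 50⟩, ⟨true, 4, 79, 17, 50⟩, ⟨true, 4, 79, 9, 25⟩, ⟨true, 5, 95, 9, 50⟩, ⟨true, 5, 95, 13, 50⟩, ⟨true, 3, 151, 29, 50⟩, ⟨true, 5, 159, 6, 25⟩, ⟨true, 7, 127, 11, 50⟩],
  [.spn 0 0 651200, .spn 1 1 302400, .spn 3 2 302400, .spn 7 3 302400, .spn 15 4 140426, .spn 31 5 140426]⟩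

/-- piece 129 of the tree -/
noncomputable def t129 : WN.Tree :=
(.haz 3 151 3 5
(.haz 4 79 19 50
(.haz 4 111 21 50
(.ask 63
(.mark 63 [6, 7, 8]
(.spn
(.haz 5 159 8 25
(.haz 7 319 1 10
(.haz 7 31 13 50
(.lp [[6], [0, 2, 4, 7], [1, 3, 5, 8]] [(.mj 0 1, 116), (.mj 4 5, 19), (.mj 5 6, 43), (.mj 6 7, 65), (.hz 4 149, 460), (.hz 22 31, 2870), (.hz 22 63, 9659), (.hz 22 95, 10853), (.hz 22 319, 13053)])
(.haz 7 63 11 50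
(.lp [[6], [0, 2, 4, 7], [1, 3, 5, 8]] [(.mj 0 1, 167), (.mj 5 6, 9), (.mj 6 7, 18), (.hz 22 21, 841), (.hz 22 23, 588), (.hz 17 151, 3025), (.hz 23 63, 2848), (.hz 9 95, 1543), (.hz 23 319, 3651)])
(.lp [[6], [0, 2, 4, 7], [1, 3, 5, 8]] [(.mj 0 1, 128), (.mj 5 6, 1), (.hz 23 21, 722), (.hz 23 23, 1043), (.hz 23 31, 851), (.hz 13 95, 1272), (.hz 9 95, 119)])))
(.lp [[6], [0, 2, 4, 7], [1, 3, 5, 8]] [(.mj 0 1, 39), (.mj 5 6, 1), (.hz 21 21, 990), (.hz 21 23, 1367), (.hz 21 31, 1062)]))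
(.lp [[6], [0, 2, 4, 7], [1, 3, 5, 8]] [(.mj 0 1, 10), (.mj 4 5, 5), (.mj 5 6, 13), (.mj 6 7, 13), (.hz 4 149, 41), (.hz 20 31, 4970), (.hz 9 95, 2259), (.hz 15 159, 5048)]))
(.haz 5 95 2 5
(.haz 4 79 21 50
(.haz 5 79 1 4
(.haz 6 319 1 20
(.haz 7 319 1 5
(.haz 6 319 1 10
(.haz 6 63 3 20
(.maj 6 8
(.haz 8 191 3 20
(.ask 149
(.mark 191 [6, 8, 9]
(.lp [[6], [1, 3, 5, 8], [0, 2, 4, 7, 9]] [(.mj 3 4, 300), (.mj 6 8, 68), (.mj 7 6, 154), (.hz 21 79, 10100), (.hz 26 319, 110784), (.hz 24 319, 59331), (.hz 26 703, 41854), (.hz 27 703, 106310)]))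
(.ask 151
(.mark 191 [6, 8, 9]
(.lp [[6], [1, 3, 5, 8], [0, 2, 4, 7, 9]] [(.mj 0 1, 378), (.mj 3 4, 113), (.mj 6 8, 5), (.mj 7 6, 17), (.hz 21 79, 1607), (.hz 26 63, 1130), (.hz 26 319, 11653), (.hz 24 319, 3652), (.hz 26 703, 2843), (.hz 27 703, 7588)]))
(.ask 79
(.mark 95 [5, 7, 9]
(.lp [[6, 9], [0, 2, 4, 7], [1, 3, 5, 8]] [(.mj 0 1, 1814), (.mj 3 4, 332), (.mj 5 7, 35), (.mj 7 6, 17), (.hz 21 79, 2551), (.hz 22 591, 23708), (.hz 26 191, 12679), (.hz 26 319, 12679), (.hz 20 607, 17075), (.hz 9 607, 11720)]))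
(.lp [[6], [0, 2, 4, 7], [1, 3, 5, 8]] [(.mj 0 1, 214), (.mj 3 4, 44), (.mj 5 7, 2), (.mj 7 6, 2), (.hz 20 95, 2450), (.hz 19 111, 96), (.hz 26 191, 1003), (.hz 26 319, 1003)]))))
(.haz 4 111 11 20
(.haz 6 191 1 5
(.lp [[6], [0, 2, 4, 7], [1, 3, 5, 8]] [(.mj 0 1, 71), (.mj 3 4, 13), (.mj 5 7, 37), (.mj 7 6, 22), (.hz 27 63, 9935), (.hz 29 191, 93592), (.hz 26 319, 10811)])
(.ask 149
(.mark 191 [6, 8, 9]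
(.lp [[6], [1, 3, 5, 8], [0, 2, 4, 7, 9]] [(.mj 3 4, 4), (.mj 5 7, 1), (.mj 7 6, 2), (.hz 29 47, 683), (.hz 21 79, 93), (.hz 27 63, 893), (.hz 27 191, 684)]))
(.lp [[6], [0, 2, 4, 7], [1, 3, 5, 8]] [(.mj 0 1, 1155), (.mj 3 4, 265), (.mj 7 6, 2), (.hz 29 15, 22415), (.hz 29 47, 4714), (.hz 21 79, 518), (.hz 27 63, 768), (.hz 26 191, 786), (.hz 26 319, 904)])))
(.lp [[6], [0, 2, 4, 7], [1, 3, 5, 8]] [(.mj 5 7, 2), (.mj 7 6, 3), (.hz 28 47, 2643), (.hz 21 79, 319), (.hz 19 111, 687)])))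
(.ask 149
(.mark 159 [5, 6, 9]
(.lp [[6], [1, 3, 5, 8], [0, 2, 4, 7, 9]] [(.mj 0 1, 186), (.mj 3 4, 71), (.mj 7 8, 7), (.mj 8 6, 28), (.hz 4 661, 719), (.hz 26 63, 15422), (.hz 17 663, 5468), (.hz 26 191, 41875), (.hz 26 319, 9232), (.hz 15 671, 9156), (.hz 26 703, 76298)]))
(.lp [[6], [0, 2, 4, 7], [1, 3, 5, 8]] [(.mj 0 1, 1258), (.mj 3 4, 302), (.mj 7 8, 2), (.mj 8 6, 24), (.hz 21 79, 3438), (.hz 22 79, 10394), (.hz 26 63, 10346), (.hz 9 95, 4178), (.hz 26 191, 22384), (.hz 26 319, 2999)])))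
(.ask 149
(.mark 191 [6, 8, 9]
(.spn
(.lp [[6], [1, 3, 5, 8], [0, 2, 4, 7, 9]] [(.mj 3 4, 3), (.mj 6 8, 1), (.hz 26 15, 269), (.hz 26 31, 80), (.hz 26 47, 424), (.hz 26 63, 947), (.hz 25 319, 603), (.hz 24 319, 1978)])
(.haz 9 191 3 20
(.ask 319
(.mark 447 [6, 9, 10]
(.spn
(.ask 79
(.mark 511 [9, 10, 11]
(.lp [[6, 11], [0, 2, 4, 7, 9], [1, 3, 5, 8, 10]] [(.mj 3 4, 1372), (.mj 6 9, 17), (.mj 7 8, 660), (.mj 8 6, 407), (.rw 8, 1), (.hz 26 15, 25305), (.hz 26 47, 135804), (.hz 21 2127, 32351), (.hz 9 2143, 104322), (.hz 25 959, 1458845), (.hz 27 1471, 32378)]))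
(.lp [[6], [0, 2, 4, 7, 9], [1, 3, 5, 8, 10]] [(.mj 0 1, 43522), (.mj 3 4, 15233), (.mj 6 10, 357), (.mj 7 8, 958), (.mj 8 6, 1511), (.rw 8, 1), (.hz 26 47, 777170), (.hz 4 661, 142925), (.hz 27 255, 34964), (.hz 25 1343, 1962628), (.hz 25 959, 13466462), (.hz 27 1471, 1070182)]))
(.lp [[6], [0, 2, 4, 7, 9], [1, 3, 5, 8, 10]] [(.mj 3 4, 25), (.mj 7 8, 5), (.mj 9 6, 8), (.hz 26 47, 1502), (.hz 21 79, 869), (.hz 9 95, 1487), (.hz 25 319, 19555), (.hz 25 447, 29435), (.hz 25 1343, 7980), (.hz 25 959, 20206), (.hz 25 1471, 30818)])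
(.lp [[6], [0, 2, 4, 7, 9], [1, 3, 5, 8, 10]] [(.mj 0 1, 19), (.mj 3 4, 13), (.mj 7 8, 2), (.mj 10 6, 3), (.hz 26 47, 487), (.hz 21 79, 364), (.hz 20 95, 367), (.hz 9 95, 652), (.hz 25 319, 8185), (.hz 27 255, 10566), (.hz 25 447, 14753), (.hz 27 447, 801), (.hz 25 1343, 122), (.hz 25 959, 17244)])
.fin))
(.ask 79
(.mark 79 [4, 5, 10]
(.lp [[6, 10], [1, 3, 5, 8], [0, 2, 4, 7, 9]] [(.mj 0 1, 450), (.mj 3 4, 148), (.mj 7 8, 1), (.mj 8 6, 13), (.hz 26 47, 5827), (.hz 4 661, 1522), (.hz 21 1103, 3083), (.hz 27 191, 4776), (.hz 20 1119, 47320), (.hz 9 1119, 4410), (.hz 27 255, 81842), (.hz 16 1151, 16735), (.hz 25 447, 76634), (.hz 27 1279, 23469)]))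
(.lp [[6], [1, 3, 5, 8], [0, 2, 4, 7, 9]] [(.mj 0 1, 423), (.mj 3 4, 133), (.mj 7 8, 2), (.hz 26 31, 1975), (.hz 26 47, 8243), (.hz 4 661, 1431), (.hz 26 63, 3567), (.hz 9 95, 1906), (.hz 27 191, 7018), (.hz 25 447, 4504), (.hz 27 447, 702), (.hz 25 959, 14036)])))
(.lp [[6], [1, 3, 5, 8], [0, 2, 4, 7, 9]] [(.mj 0 1, 178), (.mj 3 4, 41), (.hz 26 15, 869), (.hz 27 149, 1303), (.hz 26 47, 191), (.hz 21 79, 76), (.hz 27 151, 191)]))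
(.lp [[6], [1, 3, 5, 8], [0, 2, 4, 7, 9]] [(.mj 3 4, 7), (.mj 9 6, 1), (.mj 9 8, 2), (.hz 26 15, 523), (.hz 26 47, 825), (.hz 26 63, 1006), (.hz 9 95, 67), (.hz 25 319, 5261), (.hz 24 319, 2832)])
.fin))
(.lp [[6], [0, 2, 4, 7], [1, 3, 5, 8]] [(.mj 0 1, 84), (.mj 3 4, 19), (.hz 26 15, 403), (.hz 26 47, 63), (.hz 21 79, 25), (.hz 17 151, 254)])))
(.ask 149
(.mark 159 [5, 6, 9]
(.lp [[6], [1, 3, 5, 8], [0, 2, 4, 7, 9]] [(.mj 0 1, 333), (.mj 3 4, 97), (.mj 7 8, 4), (.hz 25 15, 6325), (.hz 25 47, 4944), (.hz 4 661, 1266), (.hz 25 63, 2527), (.hz 17 663, 8866), (.hz 16 127, 1040), (.hz 23 319, 5144)]))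
(.lp [[6], [0, 2, 4, 7], [1, 3, 5, 8]] [(.mj 0 1, 26), (.mj 3 4, 6), (.hz 25 15, 252), (.hz 25 47, 41), (.hz 21 79, 8), (.hz 17 151, 82)])))
(.lp [[6], [0, 2, 4, 7], [1, 3, 5, 8]] [(.mj 0 1, 2), (.hz 24 21, 120), (.hz 24 23, 172), (.hz 24 31, 139), (.hz 24 63, 1), (.hz 20 95, 197)]))
(.lp [[6], [0, 2, 4, 7], [1, 3, 5, 8]] [(.mj 0 1, 127), (.mj 3 4, 73), (.mj 7 8, 9), (.hz 23 15, 3657), (.hz 23 47, 4474), (.hz 23 63, 2962), (.hz 16 127, 1849)]))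
(.lp [[6], [0, 2, 4, 7], [1, 3, 5, 8]] [(.mj 3 4, 24), (.mj 7 6, 10), (.hz 22 15, 30149), (.hz 21 79, 1774), (.hz 20 95, 35672)]))
(.lp [[6], [0, 2, 4, 7], [1, 3, 5, 8]] [(.mj 0 1, 9), (.mj 7 6, 2), (.hz 21 15, 685), (.hz 4 149, 92), (.hz 18 79, 513), (.hz 17 151, 2930), (.hz 20 95, 404), (.hz 19 111, 321)]))
(.lp [[6], [0, 2, 4, 7], [1, 3, 5, 8]] [(.mj 3 4, 7), (.mj 5 7, 21), (.mj 7 6, 15), (.hz 20 31, 44517), (.hz 13 95, 3012), (.hz 9 95, 3649)]))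
(.ask 319
(.mark 319 [6, 7, 9]
(.spn
(.lp [[6], [0, 2, 4, 7], [1, 3, 5, 8, 9]] [(.mj 8 6, 7740), (.rw 7, 13)])
(.lp [[6], [0, 2, 4, 7], [1, 3, 5, 8, 9]] [(.mj 0 1, 17206), (.mj 7 9, 430), (.mj 8 7, 2601), (.rw 7, 1), (.hz 4 149, 99111), (.hz 17 151, 1635332), (.hz 13 95, 181236), (.hz 9 95, 455118), (.hz 16 127, 1019319), (.hz 16 383, 391038)])
(.haz 7 63 4 25
(.lp [[6], [0, 2, 4, 7], [1, 3, 5, 8, 9]] [(.mj 0 1, 42480), (.mj 9 7, 6033), (.rw 7, 1), (.hz 4 149, 244702), (.hz 17 151, 4037591), (.hz 20 63, 2551897), (.hz 13 95, 233584), (.hz 9 95, 1055857), (.hz 20 319, 3037973)])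
(.lp [[6], [0, 2, 4, 7], [1, 3, 5, 8, 9]] [(.mj 0 1, 2), (.hz 20 21, 23), (.hz 20 23, 32), (.hz 20 31, 26), (.hz 13 95, 22), (.hz 9 95, 2)]))
.fin))
(.lp [[6], [0, 2, 4, 7], [1, 3, 5, 8]] [(.mj 8 7, 1), (.rw 6, 1)]))
.fin))
(.spn
(.lp [[6], [1, 3, 5], [0, 2, 4, 7]] [(.mj 4 5, 6), (.mj 5 6, 25), (.mj 6 7, 16), (.hz 4 149, 10), (.hz 17 151, 545), (.hz 15 159, 874), (.hz 16 127, 5764)])
(.haz 6 191 7 50
(.lp [[6], [1, 3, 5], [0, 2, 4, 7]] [(.mj 5 7, 7), (.mj 7 6, 4), (.hz 20 191, 1602)])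
(.lp [[6], [1, 3, 5], [0, 2, 4, 7]] [(.mj 3 4, 1), (.hz 20 15, 35), (.hz 20 47, 55), (.hz 20 63, 51)]))
.fin
.fin))
(.lp [[6], [1, 3, 5], [0, 2, 4, 7]] [(.mj 4 5, 8081), (.rw 5, 13), (.hz 19 47, 2886151)]))
(.lp [[6], [1, 3, 5], [0, 2, 4, 7]] [(.mj 4 5, 125), (.mj 5 6, 121), (.hz 18 5, 1148), (.hz 18 15, 28481), (.hz 4 149, 672), (.hz 11 79, 50449), (.hz 17 151, 78258), (.hz 9 95, 21144)]))
(.lp [[6], [1, 3, 5], [0, 2, 4, 7]] [(.mj 4 5, 49), (.mj 5 7, 288), (.hz 17 7, 74897), (.hz 17 23, 444261), (.hz 11 79, 24197), (.hz 14 151, 35392), (.hz 9 95, 50326)]))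

theorem run129 : run P3488 (leaf3 218 625) (cutRow P3488) [] t129 s129 = true := by
  decide +kernel

theorem bad129 : Bad P3488 s129 :=
  run_sound (leaf3_sound P3488 rfl rfl) (cutRow_sound P3488) (
    fun _ h => absurd h List.not_mem_nil) t129 s129 run129

/-- the state above piece 264 of the tree -/
def s264 : St := ⟨[0, 0, 1, 5, 7, 23, 55, 55], [23, 7, 5, 3, 2, 1, 0], [0, 1, 2, 4, 5],
  [],
  [⟨true, 2, 3, 3, 10⟩, ⟨true, 1, 5, 2, 5⟩, ⟨true, 2, 3, 23, 50⟩, ⟨true, 1, 5, 12, 25⟩, ⟨true, 4, 15, 1, 25⟩],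
  [.spn 0 0 651200, .spn 1 1 302400, .spn 3 2 651200, .spn 7 4 651200, .spn 23 5 651200]⟩

/-- piece 264 of the tree -/
noncomputable def t264 : WN.Tree :=
(.mark 55 [3, 6, 7]
(.spn
(.lp [[3], [1, 7], [0, 2, 4, 5, 6]] [(.rw 2, 4), (.rw 5, 1)])
(.ask 119
(.mark 119 [3, 7, 8]
(.spn
(.lp [[3], [1, 7], [0, 2, 4, 5, 6, 8]] [(.mj 6 3, 381), (.rw 6, 1)])
(.haz 3 503 1 25
(.haz 3 503 3 50
(.ask 183
(.mark 247 [3, 8, 9]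
(.spn
(.lp [[3], [1, 7, 9], [0, 2, 4, 5, 6, 8]] [(.mj 3 8, 1472), (.mj 6 7, 4417), (.rw 2, 18), (.rw 6, 3), (.rw 7, 5)])
(.maj 3 9
(.haz 8 759 2 5
(.ask 375
(.mark 503 [3, 9, 10]
(.cut 3 [(0, 1), (1, 1), (2, 1), (3, 1), (5, 1), (7, 1), (23, 1), (55, 1), (119, 1), (183, 1), (247, 1)]
(.lp [[3], [1, 7, 9], [0, 2, 4, 5, 6, 8, 10]] [(.mj 6 7, 189194), (.mj 7 8, 162484), (.rw 2, 1619), (.hz 7 759, 18874028), (.hz 6 1015, 60733026), (.hz 6 1527, 10748791), (.rw 8, 298)])))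
(.ask 503
(.mark 503 [3, 9, 10]
(.spn
(.lp [[3], [1, 7, 9], [0, 2, 4, 5, 6, 8, 10]] [(.mj 3 10, 647), (.mj 6 7, 3880), (.mj 8 3, 2388), (.rw 8, 5)])
(.con 9 3)
(.cut 3 [(0, 1), (1, 1), (2, 1), (3, 1), (5, 1), (7, 1), (23, 1), (55, 1), (119, 1), (183, 1), (247, 1), (375, 1), (503, 1)]
(.lp [[3], [1, 7, 9], [0, 2, 4, 5, 6, 8, 10]] [(.mj 6 7, 803), (.mj 10 3, 535), (.rw 9, 2)]))
.fin))
(.lp [[3], [1, 7, 9], [0, 2, 4, 5, 6, 8]] [(.mj 3 9, 1), (.mj 8 3, 1)])))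
(.cut 3 [(0, 1), (1, 1), (2, 1), (3, 1), (5, 1), (7, 1), (23, 1), (55, 1), (119, 1), (183, 1)]
(.lp [[3], [1, 7, 9], [0, 2, 4, 5, 6, 8]] [(.mj 6 7, 756), (.mj 7 8, 349), (.rw 2, 6), (.hz 7 119, 57866), (.hz 7 247, 117875), (.rw 8, 1)])))
(.cut 3 [(0, 1), (1, 1), (2, 1), (3, 1), (5, 1), (7, 1)]
(.cut 3 [(0, 1), (1, 1), (2, 1), (3, 1), (5, 1), (7, 1), (23, 1)]
(.cut 3 [(0, 1), (1, 1), (2, 1), (3, 1), (5, 1), (7, 1), (23, 1), (55, 1)]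
(.cut 3 [(0, 1), (1, 1), (2, 1), (3, 1), (5, 1), (7, 1), (23, 1), (55, 1), (119, 1), (183, 1)]
(.lp [[3], [1, 7, 9], [0, 2, 4, 5, 6, 8]] [(.mj 6 7, 9250), (.mj 7 8, 6167), (.mj 9 3, 14389), (.hz 6 503, 1927146), (.rw 8, 12), (.rw 9, 5), (.rw 10, 5), (.rw 11, 21)]))))))
(.cut 3 [(0, 1), (1, 1), (2, 1), (3, 1), (5, 1), (7, 1), (23, 1), (55, 1), (119, 1)]
(.lp [[3], [1, 7, 9], [0, 2, 4, 5, 6, 8]] [(.mj 6 7, 2641), (.mj 9 3, 1148), (.mj 9 8, 1148), (.rw 6, 1), (.rw 8, 4)]))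
.fin))
(.ask 247
(.mark 247 [3, 8, 9]
(.spn
(.haz 8 247 3 10
(.lp [[3], [1, 7, 9], [0, 2, 4, 5, 6, 8]] [(.mj 3 8, 75), (.mj 3 9, 23), (.mj 6 7, 26), (.rw 2, 1), (.hz 7 247, 6969), (.hz 7 759, 41252)])
(.lp [[3], [1, 7, 9], [0, 2, 4, 5, 6, 8]] [(.mj 6 7, 936), (.mj 7 3, 423), (.rw 7, 1), (.hz 7 119, 103213)]))
(.haz 3 759 1 20
(.maj 3 9
(.ask 375
(.mark 503 [3, 9, 10]
(.cut 3 [(0, 1), (1, 1), (2, 1), (3, 1), (5, 1), (7, 1), (23, 1), (55, 1), (119, 1), (183, 1), (247, 1)]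
(.lp [[3], [1, 7, 9], [0, 2, 4, 5, 6, 8, 10]] [(.mj 7 8, 478), (.mj 8 3, 1399), (.hz 7 759, 956183), (.hz 6 1015, 179685), (.hz 6 1527, 40642), (.rw 8, 4)])))
(.ask 503
(.mark 503 [3, 9, 10]
(.spn
(.lp [[3], [1, 7, 9], [0, 2, 4, 5, 6, 8, 10]] [(.mj 3 10, 252), (.mj 6 7, 1577), (.mj 8 3, 957), (.rw 8, 2), (.hz 6 1015, 459730)])
(.con 9 3)
(.cut 3 [(0, 1), (1, 1), (2, 1), (3, 1), (5, 1), (7, 1), (23, 1), (55, 1), (119, 1), (183, 1), (247, 1), (375, 1), (503, 1)]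
(.lp [[3], [1, 7, 9], [0, 2, 4, 5, 6, 8, 10]] [(.mj 10 3, 278), (.rw 9, 1)]))
.fin))
(.lp [[3], [1, 7, 9], [0, 2, 4, 5, 6, 8]] [(.mj 3 9, 1), (.mj 8 3, 1)])))
(.cut 3 [(0, 1), (1, 1), (2, 1), (3, 1), (5, 1)]
(.cut 3 [(0, 1), (1, 1), (2, 1), (3, 1), (5, 1), (7, 1)]
(.cut 3 [(0, 1), (1, 1), (2, 1), (3, 1), (5, 1), (7, 1), (23, 1)]
(.cut 3 [(0, 1), (1, 1), (2, 1), (3, 1), (5, 1), (7, 1), (23, 1), (55, 1), (119, 1)]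
(.cut 3 [(0, 1), (1, 1), (2, 1), (3, 1), (5, 1), (7, 1), (23, 1), (55, 1), (183, 1)]
(.cut 3 [(0, 1), (1, 1), (2, 1), (3, 1), (5, 1), (7, 1), (23, 1), (55, 1), (119, 1), (183, 1), (247, 1)]
(.lp [[3], [1, 7, 9], [0, 2, 4, 5, 6, 8]] [(.mj 7 8, 2474), (.mj 8 9, 2474), (.mj 9 3, 36289), (.hz 6 503, 3092789), (.rw 8, 28), (.rw 9, 21), (.rw 10, 21), (.rw 11, 21), (.rw 12, 21), (.rw 13, 8)]))))))))
(.cut 3 [(0, 1), (1, 1), (2, 1), (3, 1), (5, 1)]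
(.lp [[3], [1, 7, 9], [0, 2, 4, 5, 6, 8]] [(.hz 7 7, 309487), (.rw 8, 2)])))
(.ask 375
(.mark 375 [3, 7, 10]
(.cut 3 [(0, 1), (1, 1), (2, 1), (3, 1), (5, 1), (7, 1), (23, 1), (55, 1), (119, 1), (183, 1)]
(.cut 3 [(0, 1), (1, 1), (2, 1), (3, 1), (5, 1), (7, 1), (23, 1), (55, 1), (119, 1), (183, 1), (375, 1)]
(.cut 8 [(0, 1), (1, 1), (2, 1), (3, 1), (5, 1), (7, 1), (13, 1), (15, 1), (23, 1), (31, 1), (55, 1), (63, 1), (119, 1), (183, 1), (127, 1), (191, 1)]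
(.lp [[3], [1, 7, 9], [0, 2, 4, 5, 6, 8, 10]] [(.mj 6 7, 39540), (.mj 9 3, 33297), (.mj 9 8, 13527), (.rw 7, 4), (.rw 8, 111), (.rw 9, 21), (.rw 10, 12)])))))
(.cut 3 [(0, 1), (1, 1), (2, 1), (3, 1), (5, 1), (7, 1), (23, 1), (55, 1), (119, 1), (183, 1), (375, 1)]
(.lp [[3], [1, 7, 9], [0, 2, 4, 5, 6, 8]] [(.mj 6 7, 714), (.mj 9 3, 300), (.mj 9 8, 63), (.rw 8, 1)])))
.fin))
(.spn
(.lp [[3], [1, 7], [0, 2, 4, 5, 6, 8]] [(.mj 3 8, 1), (.mj 7 3, 1)])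
(.ask 375
(.mark 375 [3, 7, 9]
(.ask 503
(.mark 503 [3, 9, 10]
(.spn
(.lp [[3], [1, 7, 10], [0, 2, 4, 5, 6, 8, 9]] [(.mj 3 10, 363), (.mj 7 8, 2180), (.mj 8 3, 1090), (.rw 8, 2)])
(.lp [[3], [1, 7, 10], [0, 2, 4, 5, 6, 8, 9]] [(.mj 7 8, 4), (.mj 9 3, 3), (.mj 9 10, 1), (.hz 6 503, 1110), (.hz 6 1015, 930), (.hz 6 1527, 739)])
(.cut 3 [(0, 1), (1, 1), (2, 1), (3, 1), (5, 1), (7, 1), (23, 1), (55, 1), (119, 1), (183, 1), (247, 1)]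
(.lp [[3], [1, 7, 10], [0, 2, 4, 5, 6, 8, 9]] [(.mj 7 8, 290), (.mj 10 3, 1031), (.rw 9, 4)]))
.fin))
(.lp [[3], [1, 7], [0, 2, 4, 5, 6, 8, 9]] [(.mj 7 8, 3), (.mj 8 3, 2), (.hz 6 503, 359), (.hz 6 1015, 451)])))
(.ask 503
(.maj 3 9
(.ask 503
(.mark 503 [3, 9, 10]
(.spn
(.haz 10 1015 1 5
(.lp [[3], [1, 7, 10], [0, 2, 4, 5, 6, 8, 9]] [(.mj 3 9, 20), (.mj 8 3, 30), (.mj 9 10, 17), (.hz 7 1015, 22241), (.hz 6 1527, 12249)])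
(.lp [[3], [1, 7, 10], [0, 2, 4, 5, 6, 8, 9]] [(.mj 3 9, 1), (.mj 8 3, 1), (.hz 7 503, 1394)]))
(.con 9 3)
(.con 10 9)
.fin))
(.lp [[3], [1, 7], [0, 2, 4, 5, 6, 8, 9]] [(.mj 3 9, 1), (.mj 8 3, 1)]))
(.cut 3 [(0, 1), (1, 1), (2, 1), (3, 1), (5, 1)]
(.cut 3 [(0, 1), (1, 1), (2, 1), (3, 1), (5, 1), (7, 1)]
(.cut 3 [(0, 1), (1, 1), (2, 1), (3, 1), (5, 1), (7, 1), (23, 1)]
(.cut 3 [(0, 1), (1, 1), (2, 1), (3, 1), (5, 1), (7, 1), (23, 1), (55, 1)]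
(.lp [[3], [1, 7], [0, 2, 4, 5, 6, 8, 9]] [(.mj 9 3, 12539), (.hz 6 503, 2661506), (.rw 8, 9), (.rw 9, 7), (.rw 10, 7), (.rw 11, 7)]))))))
(.lp [[3], [1, 7], [0, 2, 4, 5, 6, 8]] [(.mj 8 3, 1)])))
.fin
.fin)))
(.cut 3 [(0, 1), (1, 1), (2, 1), (3, 1)]
(.lp [[3], [1, 7], [0, 2, 4, 5, 6, 8]] [(.hz 6 5, 41215), (.hz 6 7, 82429), (.rw 7, 2)])))
(.cut 3 [(0, 1), (1, 1), (2, 1), (3, 1)]
(.lp [[3], [1, 7], [0, 2, 4, 5, 6, 8]] [(.hz 5 5, 50007), (.hz 5 7, 100013), (.rw 7, 1)])))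
(.ask 375
(.mark 375 [3, 7, 9]
(.spn
(.lp [[3], [1, 7], [0, 2, 4, 5, 6, 8, 9]] [(.mj 8 3, 176), (.rw 7, 1)])
(.cut 3 [(0, 1), (1, 1), (2, 1), (3, 1), (5, 1), (7, 1), (23, 1), (55, 1), (119, 1), (375, 1)]
(.lp [[3], [1, 7], [0, 2, 4, 5, 6, 8, 9]] [(.mj 7 3, 1110), (.mj 7 9, 1110), (.mj 8 7, 2289), (.rw 7, 1), (.rw 8, 4)]))
(.ask 887
(.mark 887 [3, 7, 10]
(.spn
(.lp [[3], [1, 7], [0, 2, 4, 5, 6, 8, 9, 10]] [(.mj 9 3, 76), (.rw 8, 1)])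
(.lp [[3], [1, 7], [0, 2, 4, 5, 6, 8, 9, 10]] [(.mj 9 7, 627), (.rw 8, 1)])
(.cut 3 [(0, 1), (1, 1), (2, 1), (3, 1), (5, 1), (7, 1), (23, 1), (55, 1)]
(.cut 3 [(0, 1), (1, 1), (2, 1), (3, 1), (5, 1), (7, 1), (23, 1), (55, 1), (119, 1)]
(.cut 7 [(0, 1), (1, 1), (2, 1), (3, 1), (5, 1), (7, 1), (13, 1), (15, 1), (23, 1), (31, 1), (55, 1), (63, 1)]
(.cut 3 [(0, 1), (1, 1), (2, 1), (3, 1), (5, 1), (7, 1), (23, 1), (55, 1), (119, 1), (183, 1), (375, 1)]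
(.cut 3 [(0, 1), (1, 1), (2, 1), (3, 1), (5, 1), (7, 1), (23, 1), (55, 1), (119, 1), (183, 2), (247, 1)]
(.cut 7 [(0, 1), (1, 1), (2, 1), (3, 1), (5, 1), (7, 1), (13, 1), (15, 1), (23, 1), (31, 1), (55, 1), (63, 1), (119, 1), (127, 1)]
(.cut 3 [(0, 1), (1, 1), (2, 1), (3, 1), (5, 1), (7, 1), (23, 1), (55, 1), (119, 1), (375, 1), (887, 1)]
(.cut 7 [(0, 1), (1, 1), (2, 1), (3, 1), (5, 1), (7, 1), (13, 1), (15, 1), (23, 1), (31, 1), (55, 1), (63, 1), (119, 1), (375, 1)]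
(.cut 7 [(0, 1), (1, 1), (2, 1), (3, 1), (5, 1), (7, 1), (13, 1), (15, 1), (23, 1), (31, 1), (55, 1), (63, 1), (119, 1), (127, 1), (375, 1), (383, 1)]
(.lp [[3], [1, 7], [0, 2, 4, 5, 6, 8, 9, 10]] [(.mj 1 2, 21692508), (.mj 10 3, 2892334), (.mj 10 7, 1084625), (.rw 9, 3445), (.rw 10, 7260), (.rw 11, 622), (.rw 12, 678), (.rw 13, 367), (.rw 14, 1411), (.rw 15, 2712), (.rw 16, 381), (.rw 17, 297)]))))))))))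
.fin))
(.lp [[3], [1, 7], [0, 2, 4, 5, 6, 8, 9]] [(.mj 9 7, 1), (.rw 7, 1)]))
.fin))
(.lp [[3], [1, 7], [0, 2, 4, 5, 6, 8]] [(.mj 8 7, 1), (.rw 6, 1)]))
.fin))
(.lp [[3], [1, 7], [0, 2, 4, 5, 6]] [(.mj 6 7, 883), (.rw 5, 1)]))
(.con 7 6)
.fin))

theorem run264 : run P3488 (leaf3 218 625) (cutRow P3488) [] t264 s264 = true := by
  decide +kernel

theorem bad264 : Bad P3488 s264 :=
  run_sound (leaf3_sound P3488 rfl rfl) (cutRow_sound P3488) (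
    fun _ h => absurd h List.not_mem_nil) t264 s264 run264

/-- the state above piece 107 of the tree -/
def s107 : St := ⟨[0, 0, 1, 3, 5, 7, 11, 21], [79, 75, 31, 15, 7, 5, 3, 2, 1, 0], [0, 1, 2, 3, 4, 6],
  [],
  [⟨true, 2, 3, 3, 10⟩, ⟨true, 1, 5, 2, 5⟩, ⟨true, 2, 3, 23, 50⟩, ⟨true, 1, 5, 12, 25⟩, ⟨true, 4, 39, 4, 25⟩, ⟨true, 1, 21, 27, 50⟩, ⟨true, 4, 39, 11, 50⟩, ⟨true, 3, 39, 13, 50⟩, ⟨true, 4, 39, 6, 25⟩, ⟨true, 4, 79, 7, 25⟩, ⟨true, 4, 39, 7, 25⟩, ⟨true, 4, 15, 3, 10⟩, ⟨true, 3, 151, 11, 50⟩, ⟨true, 3, 151, 17, 50⟩, ⟨true, 3, 151, 2, 5⟩, ⟨true, 7, 63, 7, 50⟩, ⟨true, 6, 63, 3, 10⟩, ⟨true, 6, 159, 7, 25⟩, ⟨true, 4, 39, 3, 10⟩],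
  [.spn 0 0 651200, .spn 1 1 302400, .spn 3 2 302400, .spn 7 3 140426, .spn 15 4 140426, .spn 31 6 140426]⟩

/-- piece 107 of the tree -/
noncomputable def t107 : WN.Tree :=
(.haz 4 47 7 20
(.haz 3 151 1 2
(.ask 95
(.mark 95 [5, 7, 8]
(.spn
(.haz 5 351 1 10
(.haz 4 111 11 20
(.ask 351
(.haz 7 95 3 20
(.maj 7 9
(.ask 39
(.mark 127 [7, 8, 10]
(.spn
(.mark 351 [5, 7, 9]
(.lp [[5, 10], [0, 2, 4, 7], [1, 3, 6, 8, 9]] [(.mj 5 7, 64), (.mj 6 5, 78), (.mj 7 8, 40), (.hz 18 39, 11997), (.hz 21 351, 63234), (.hz 23 351, 27160), (.hz 23 1151, 86375), (.hz 23 863, 31953)]))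
(.mark 383 [7, 9, 10]
(.lp [[5, 10], [0, 2, 4, 7], [1, 3, 6, 8, 9]] [(.mj 0 1, 3), (.mj 3 4, 1), (.mj 5 8, 15), (.mj 6 5, 23), (.mj 7 9, 5), (.mj 8 7, 24), (.hz 5 149, 11), (.hz 7 1063, 140), (.hz 15 63, 16844), (.hz 19 1071, 1612), (.hz 23 127, 20762), (.hz 15 1087, 24837), (.hz 23 351, 11675), (.hz 22 1135, 9863), (.hz 23 1151, 116197)]))
(.mark 351 [5, 7, 9]
(.lp [[5, 10], [0, 2, 4, 7], [1, 3, 6, 8, 9]] [(.mj 6 5, 5), (.mj 10 7, 4), (.mj 10 8, 2), (.hz 18 39, 1038), (.hz 15 63, 3081), (.hz 21 351, 2545), (.hz 23 351, 3571), (.hz 23 863, 1970)]))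
.fin))
(.ask 55
(.mark 383 [7, 9, 10]
(.lp [[5, 10], [0, 2, 4, 7], [1, 3, 6, 8, 9]] [(.mj 0 1, 752), (.mj 3 4, 209), (.mj 5 8, 1), (.mj 7 9, 5), (.hz 5 149, 2973), (.hz 15 63, 672), (.hz 23 863, 1803)]))
(.haz 7 95 1 5
(.maj 7 8
(.ask 47
(.mark 383 [7, 9, 10]
(.lp [[5, 10], [0, 2, 4, 7], [1, 3, 6, 8, 9]] [(.mj 5 7, 9), (.mj 5 8, 2), (.mj 6 5, 11), (.mj 7 8, 3), (.hz 18 39, 2949), (.hz 15 63, 1558), (.hz 24 351, 22880), (.hz 24 1151, 26286), (.hz 24 863, 18286)]))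
(.ask 63
(.mark 127 [7, 8, 10]
(.lp [[5, 10], [0, 2, 4, 7], [1, 3, 6, 8, 9]] [(.mj 0 1, 65), (.mj 3 4, 21), (.mj 7 8, 1), (.hz 5 149, 219), (.hz 15 63, 931), (.hz 24 1151, 10131)]))
(.haz 7 95 1 4
(.mark 351 [5, 7, 9]
(.lp [[5], [0, 2, 4, 7], [1, 3, 6, 8, 9]] [(.mj 0 1, 12), (.mj 4 6, 3), (.mj 5 7, 11), (.mj 6 5, 10), (.mj 7 8, 1), (.hz 5 149, 48), (.hz 25 95, 15879), (.hz 25 127, 37067), (.hz 25 351, 20034), (.hz 25 863, 26713)]))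
(.haz 8 127 2 5
(.mark 351 [5, 7, 9]
(.lp [[5], [0, 2, 4, 7], [1, 3, 6, 8, 9]] [(.mj 3 4, 36), (.mj 4 6, 70), (.mj 5 7, 92), (.mj 6 5, 109), (.mj 7 8, 59), (.hz 25 31, 37160), (.hz 24 127, 258481), (.hz 26 127, 368203), (.hz 24 351, 147281), (.hz 24 863, 184101)]))
(.lp [[5], [0, 2, 4, 7], [1, 3, 6, 8, 9]] [(.mj 3 4, 5), (.mj 4 6, 1), (.mj 6 5, 8), (.hz 25 31, 5204), (.hz 25 95, 27947), (.hz 26 95, 22358), (.hz 24 127, 39883)])))))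
(.lp [[5], [0, 2, 4, 7], [1, 3, 6, 8, 9]] [(.mj 4 6, 34), (.mj 5 8, 39), (.mj 6 5, 61), (.mj 8 7, 72), (.hz 18 39, 18548), (.hz 15 63, 34445), (.hz 24 95, 36555), (.hz 24 127, 533405), (.hz 24 351, 145474)]))
(.lp [[5], [0, 2, 4, 7], [1, 3, 6, 8, 9]] [(.mj 0 1, 1286), (.mj 3 4, 146), (.mj 5 8, 12), (.mj 6 5, 33), (.hz 24 21, 57721), (.hz 24 23, 44356), (.hz 24 31, 56251), (.hz 15 63, 8573), (.hz 24 95, 31251), (.hz 23 351, 11433)]))))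
(.lp [[5], [0, 2, 4, 7], [1, 3, 6, 8, 9]] [(.mj 4 6, 7), (.mj 5 8, 10), (.mj 6 5, 21), (.mj 9 7, 21), (.hz 15 63, 15325), (.hz 23 95, 1886), (.hz 22 111, 2142), (.hz 23 127, 36243), (.hz 23 351, 24550), (.hz 21 479, 93572)]))
(.lp [[5], [0, 2, 4, 7], [1, 3, 6, 8, 9]] [(.mj 0 1, 583), (.mj 3 4, 44), (.mj 5 8, 10), (.mj 6 5, 26), (.hz 23 21, 6893), (.hz 23 23, 7341), (.hz 7 39, 1696), (.hz 23 31, 8343), (.hz 15 63, 6512), (.hz 23 95, 5114), (.hz 21 351, 2271), (.hz 15 383, 3605), (.hz 21 863, 2524), (.hz 15 895, 3605)]))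
(.lp [[5], [0, 2, 4, 7], [1, 3, 6, 8]] [(.mj 3 4, 1), (.mj 4 6, 1), (.mj 5 7, 13), (.mj 6 5, 24), (.hz 15 63, 11443), (.hz 15 127, 2582)]))
(.lp [[5], [0, 2, 4, 7], [1, 3, 6, 8]] [(.mj 3 4, 33), (.mj 4 6, 17), (.mj 6 5, 10), (.hz 18 39, 13690), (.hz 19 47, 2094), (.hz 22 79, 6118), (.hz 15 63, 3137)]))
(.lp [[5], [0, 2, 4, 7], [1, 3, 6, 8]] [(.mj 0 1, 7), (.mj 5 7, 7), (.mj 5 8, 7), (.hz 21 7, 1093), (.hz 21 15, 1788), (.hz 21 23, 1733), (.hz 5 149, 9), (.hz 21 31, 3899), (.hz 21 79, 2560), (.hz 15 63, 17), (.hz 21 95, 7189)]))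
(.haz 5 31 3 20
(.lp [[5], [0, 2, 4, 7], [1, 3, 6, 8]] [(.mj 3 4, 4), (.mj 7 5, 3), (.hz 21 31, 1818), (.hz 21 95, 982), (.hz 21 159, 1722), (.hz 21 351, 2109)])
(.haz 5 95 3 20
(.lp [[5], [0, 2, 4, 7], [1, 3, 6, 8]] [(.mj 3 4, 8), (.mj 7 5, 5), (.mj 7 8, 1), (.hz 22 95, 4239), (.hz 22 223, 4846), (.hz 22 351, 3383)])
(.haz 8 127 7 20
(.haz 4 47 2 5
(.haz 5 95 1 10
(.ask 351
(.ask 149
(.mark 479 [5, 9, 10]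
(.lp [[5], [0, 2, 4, 7, 10], [1, 3, 6, 8, 9]] [(.mj 3 4, 14), (.mj 7 5, 4), (.mj 7 8, 4), (.hz 18 39, 2575), (.hz 24 47, 6438), (.hz 22 79, 1060), (.hz 25 223, 1001), (.hz 25 351, 19999), (.hz 25 1247, 21468), (.hz 25 863, 6026)]))
(.mark 351 [5, 7, 9]
(.lp [[5], [0, 2, 4, 7], [1, 3, 6, 8, 9]] [(.mj 0 1, 721), (.mj 3 4, 168), (.mj 7 5, 5), (.hz 21 15, 2605), (.hz 18 39, 41782), (.hz 24 47, 7240), (.hz 25 95, 4022), (.hz 25 223, 1422), (.hz 25 351, 4469), (.hz 25 863, 3449)])))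
(.lp [[5], [0, 2, 4, 7], [1, 3, 6, 8]] [(.mj 0 1, 4651), (.mj 3 4, 2603), (.mj 7 5, 199), (.mj 7 8, 9), (.hz 18 39, 533468), (.hz 24 47, 849211), (.hz 22 79, 105673), (.hz 25 223, 1206176)]))
(.cut 5 [(0, 1), (1, 1), (2, 1), (3, 1), (5, 1), (7, 1), (11, 1), (21, 1), (15, 1), (23, 1), (75, 1), (149, 1), (31, 1), (79, 1), (151, 1), (95, 1), (159, 1)]
(.lp [[5], [0, 2, 4, 7], [1, 3, 6, 8]] [(.mj 0 1, 14909), (.mj 3 4, 11615), (.mj 7 8, 1643), (.hz 25 15, 973636), (.hz 18 39, 2979812), (.hz 24 47, 1515190), (.hz 25 79, 1735601), (.hz 15 63, 47995), (.hz 25 95, 323529), (.hz 23 127, 1885417), (.rw 7, 1)])))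
(.lp [[5], [0, 2, 4, 7], [1, 3, 6, 8]] [(.mj 3 4, 1), (.hz 21 7, 43), (.hz 24 15, 22170), (.hz 21 15, 1472), (.hz 18 39, 85), (.hz 19 47, 3010), (.hz 22 79, 3010), (.hz 20 151, 128)]))
(.cut 5 [(0, 1), (1, 1), (2, 1), (3, 1), (5, 1), (7, 1), (11, 1), (21, 1), (15, 1), (23, 1), (75, 1), (149, 1), (31, 1), (79, 1), (151, 1), (95, 1), (159, 1)]
(.lp [[5], [0, 2, 4, 7], [1, 3, 6, 8]] [(.mj 0 1, 10718), (.mj 3 4, 8574), (.mj 7 5, 875), (.hz 18 39, 3449265), (.hz 22 79, 384842), (.hz 15 63, 73498), (.hz 23 95, 704736), (.hz 23 127, 368050), (.rw 7, 1)])))))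
(.ask 351
(.mark 351 [5, 7, 9]
(.spn
(.lp [[5], [0, 2, 4, 7], [1, 3, 6, 8, 9]] [(.mj 8 5, 339), (.rw 7, 1)])
(.cut 5 [(0, 1), (1, 1), (2, 1), (3, 1), (5, 1), (7, 1), (11, 1), (21, 1), (15, 1), (23, 1), (75, 1), (149, 1), (31, 1), (79, 1), (151, 1), (95, 1), (159, 1), (351, 1)]
(.cut 5 [(0, 1), (1, 1), (2, 1), (3, 1), (5, 1), (7, 1), (11, 1), (21, 1), (15, 1), (23, 1), (75, 1), (149, 1), (31, 1), (79, 1), (95, 1), (351, 1)]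
(.lp [[5], [0, 2, 4, 7], [1, 3, 6, 8, 9]] [(.mj 0 1, 249988), (.mj 3 4, 11904), (.mj 7 5, 5339), (.mj 7 9, 42539), (.mj 8 7, 69552), (.rw 6, 32), (.rw 7, 48), (.hz 5 149, 4660167), (.hz 20 183, 249249133), (.rw 8, 5), (.rw 9, 116)])))
(.ask 863
(.mark 863 [5, 7, 10]
(.spn
(.lp [[5], [0, 2, 4, 7], [1, 3, 6, 8, 9, 10]] [(.mj 9 5, 166), (.rw 8, 1)])
(.lp [[5], [0, 2, 4, 7], [1, 3, 6, 8, 9, 10]] [(.mj 9 7, 552), (.rw 8, 1)])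
(.maj 5 7
(.cut 5 [(0, 1), (1, 1), (2, 1), (3, 1), (5, 1), (7, 1), (11, 1), (21, 1), (15, 1), (23, 1), (75, 1), (31, 1), (79, 1), (95, 1)]
(.lp [[5], [0, 2, 4, 7], [1, 3, 6, 8, 9, 10]] [(.mj 10 5, 985), (.hz 15 63, 716116), (.hz 15 127, 1333974), (.hz 15 383, 566591), (.rw 9, 4)]))
(.cut 5 [(0, 1), (1, 1), (2, 1), (3, 1), (5, 1), (7, 1), (11, 1), (21, 1), (15, 1), (23, 1), (75, 1), (149, 1), (31, 1), (79, 1), (95, 1)]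
(.cut 7 [(0, 1), (1, 1), (2, 1), (3, 1), (5, 1), (7, 1), (11, 1), (21, 1), (15, 1), (23, 1), (75, 1), (31, 1), (79, 1), (95, 1)]
(.cut 5 [(0, 1), (1, 1), (2, 1), (3, 1), (5, 1), (7, 1), (11, 1), (21, 1), (15, 1), (23, 1), (75, 1), (149, 1), (31, 1), (79, 1), (151, 2), (95, 1), (159, 1), (223, 1), (351, 1)]
(.cut 7 [(0, 1), (1, 1), (2, 1), (3, 1), (5, 1), (7, 1), (11, 1), (21, 1), (15, 1), (23, 1), (75, 1), (31, 1), (79, 1), (95, 1), (351, 1)]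
(.lp [[5], [0, 2, 4, 7], [1, 3, 6, 8, 9, 10]] [(.mj 0 1, 44504), (.mj 3 4, 2632), (.mj 10 7, 5131), (.rw 8, 1), (.hz 7 39, 129372), (.hz 5 149, 480099), (.hz 20 151, 8130478), (.hz 20 183, 17462854), (.hz 15 127, 4156127), (.hz 15 383, 4858238), (.rw 9, 7), (.rw 10, 5), (.rw 11, 1), (.rw 12, 8)]))))))
.fin))
(.lp [[5], [0, 2, 4, 7], [1, 3, 6, 8, 9]] [(.mj 9 7, 1), (.rw 7, 1)]))
.fin))
(.lp [[5], [0, 2, 4, 7], [1, 3, 6, 8]] [(.mj 8 7, 1), (.rw 6, 1)]))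
.fin))
(.spn
(.lp [[5], [1, 3, 6], [0, 2, 4, 7]] [(.mj 4 5, 1), (.mj 5 7, 3), (.mj 6 5, 4)])
(.lp [[5], [1, 3, 6], [0, 2, 4, 7]] [(.mj 3 4, 12), (.mj 4 6, 2), (.mj 7 5, 2), (.hz 18 39, 4988), (.hz 19 47, 435), (.hz 19 111, 13)])
.fin
.fin))
(.lp [[5], [1, 3, 6], [0, 2, 4, 7]] [(.mj 3 4, 7), (.mj 4 6, 2), (.mj 6 5, 2), (.hz 20 23, 13146), (.hz 7 39, 10), (.hz 18 39, 1199), (.hz 19 47, 958), (.hz 14 151, 1780)]))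
(.lp [[5], [1, 3, 6], [0, 2, 4, 7]] [(.mj 4 6, 2), (.mj 6 5, 2), (.hz 19 5, 64), (.hz 19 15, 1258), (.hz 18 39, 344), (.hz 5 149, 2), (.hz 11 47, 1946), (.hz 14 151, 1652)]))

theorem run107 : run P3488 (leaf3 218 625) (cutRow P3488) [] t107 s107 = true := by
  decide +kernel

theorem bad107 : Bad P3488 s107 :=
  run_sound (leaf3_sound P3488 rfl rfl) (cutRow_sound P3488) (
    fun _ h => absurd h List.not_mem_nil) t107 s107 run107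

/-- the state above piece 181 of the tree -/
def s181 : St := ⟨[0, 0, 1, 3, 5, 15, 21, 31, 63], [63, 47, 31, 23, 21, 15, 11, 7, 5, 3, 2, 1, 0], [0, 1, 2, 3, 4, 5, 7],
  [(5, 6), (4, 5)],
  [⟨true, 2, 3, 3, 10⟩, ⟨true, 1, 5, 2, 5⟩, ⟨true, 2, 3, 23, 50⟩, ⟨true, 1, 5, 12, 25⟩, ⟨true, 1, 21, 27, 50⟩, ⟨true, 4, 15, 9, 40⟩, ⟨true, 3, 23, 11, 20⟩, ⟨true, 4, 47, 7, 20⟩, ⟨true, 4, 47, 17, 40⟩, ⟨true, 4, 47, 9, 20⟩, ⟨true, 4, 47, 19, 40⟩, ⟨true, 3, 87, 27, 40⟩, ⟨true, 5, 95, 1, 4⟩, ⟨true, 5, 159, 1, 4⟩],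
  [.spn 0 0 651200, .spn 1 1 302400, .spn 3 2 302400, .spn 7 3 302400, .spn 15 4 302400, .spn 31 5 140426, .spn 63 7 140426]⟩

/-- piece 181 of the tree -/
noncomputable def t181 : WN.Tree :=
(.haz 6 319 1 20
(.ask 159
(.mark 191 [6, 8, 9]
(.cut 6 [(0, 1), (1, 1), (2, 1), (3, 1), (5, 1), (7, 1), (11, 1), (21, 1), (15, 1), (23, 1), (31, 1), (47, 1), (63, 1)]
(.lp [[6], [1, 3, 5, 8], [0, 2, 4, 7, 9]] [(.mj 3 4, 6124255), (.mj 7 8, 759156), (.hz 14 319, 534245920), (.rw 7, 1040)])))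
(.ask 191
(.mark 191 [6, 8, 9]
(.spn
(.lp [[6], [1, 3, 5, 8], [0, 2, 4, 7, 9]] [(.mj 3 4, 32), (.mj 6 8, 4), (.mj 6 9, 4), (.mj 7 8, 2)])
(.haz 8 767 2 5
(.ask 319
(.mark 447 [6, 9, 10]
(.spn
(.lp [[6], [0, 2, 4, 7, 9], [1, 3, 5, 8, 10]] [(.mj 3 4, 44), (.mj 6 9, 4), (.mj 6 10, 4), (.mj 7 8, 3)])
(.haz 7 1343 7 20
(.haz 7 1343 9 20
(.haz 10 959 3 20
(.haz 9 1535 11 20
(.ask 1343
(.maj 6 11
(.mark 1471 [6, 9, 11]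
(.cut 6 [(0, 1), (1, 1), (2, 1), (3, 1), (5, 1), (7, 1), (11, 1), (21, 1), (15, 1), (23, 1), (31, 1), (47, 1), (63, 1), (159, 1), (191, 1), (319, 1), (447, 1)]
(.cut 6 [(0, 1), (1, 1), (2, 1), (3, 1), (5, 1), (7, 1), (11, 1), (21, 1), (15, 1), (23, 1), (31, 1), (47, 1), (63, 1), (159, 1), (191, 1), (319, 1), (447, 1), (703, 1), (1343, 1), (1471, 1)]
(.cut 6 [(0, 1), (1, 1), (2, 1), (3, 1), (5, 1), (7, 1), (11, 1), (21, 1), (15, 1), (23, 1), (31, 1), (47, 1), (63, 1), (319, 1), (1343, 1)]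
(.lp [[6], [0, 2, 4, 7, 9], [1, 3, 5, 8, 10, 11]] [(.mj 3 4, 902061), (.mj 7 8, 26215), (.mj 9 10, 9412), (.hz 14 3391, 112708276), (.hz 17 3391, 548682), (.hz 14 3519, 10973650), (.rw 9, 7), (.rw 10, 4), (.rw 11, 192)])))))
(.ask 703
(.mark 1983 [6, 11, 12]
(.cut 6 [(0, 1), (1, 1), (2, 1), (3, 1), (5, 1), (7, 1), (11, 1), (21, 1), (15, 1), (23, 1), (31, 1), (47, 1), (63, 1), (159, 1), (191, 1), (319, 1), (447, 1), (1343, 1)]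
(.cut 6 [(0, 1), (1, 1), (2, 1), (3, 1), (5, 1), (7, 1), (11, 1), (21, 1), (15, 1), (23, 1), (31, 1), (47, 1), (63, 1), (159, 1), (191, 1), (703, 1)]
(.lp [[6], [0, 2, 4, 7, 9, 12], [1, 3, 5, 8, 10, 11]] [(.mj 3 4, 1874523), (.mj 9 10, 71388), (.mj 11 6, 278907), (.hz 14 1343, 335985025), (.hz 17 3391, 6458682), (.hz 19 1535, 1994561677), (.hz 17 3455, 1071583687), (.hz 14 5055, 831850691), (.hz 18 5055, 62303861), (.hz 14 6079, 1690871531), (.rw 9, 689), (.rw 10, 547)]))))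
(.ask 959
(.mark 1983 [6, 11, 12]
(.cut 6 [(0, 1), (1, 1), (2, 1), (3, 1), (5, 1), (7, 1), (11, 1), (21, 1), (15, 1), (23, 1), (31, 1), (47, 1), (63, 1), (159, 1), (191, 1), (319, 1), (447, 1), (1343, 1), (1471, 1)]
(.cut 6 [(0, 1), (1, 1), (2, 1), (3, 1), (5, 1), (7, 1), (11, 1), (21, 1), (15, 1), (23, 1), (31, 1), (47, 1), (63, 1), (159, 1), (191, 1), (319, 1), (703, 1), (1343, 1), (3391, 1)]
(.cut 6 [(0, 1), (1, 1), (2, 1), (3, 1), (5, 1), (7, 1), (11, 1), (21, 1), (15, 1), (23, 1), (31, 1), (47, 1), (63, 1), (159, 1), (191, 1), (703, 1)]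
(.lp [[6], [0, 2, 4, 7, 9, 12], [1, 3, 5, 8, 10, 11]] [(.mj 7 8, 17516), (.mj 11 6, 101311), (.hz 18 1023, 40023490), (.hz 19 1535, 33597682), (.hz 17 3455, 44885355), (.hz 14 1983, 325397144), (.hz 14 5055, 189957469), (.hz 18 5055, 27068939), (.hz 14 6079, 541378786), (.rw 9, 100), (.rw 10, 4), (.rw 11, 202)])))))
(.lp [[6], [0, 2, 4, 7, 9], [1, 3, 5, 8, 10, 11]] [(.mj 3 4, 26), (.mj 9 10, 4), (.hz 14 1343, 5371), (.hz 14 1471, 22013)]))))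
(.cut 6 [(0, 1), (1, 1), (2, 1), (3, 1), (5, 1), (7, 1), (11, 1), (21, 1), (15, 1), (23, 1), (31, 1), (47, 1), (63, 1), (159, 1), (191, 1), (319, 1), (447, 1)]
(.cut 6 [(0, 1), (1, 1), (2, 1), (3, 1), (5, 1), (7, 1), (11, 1), (21, 1), (15, 1), (23, 1), (31, 1), (47, 1), (63, 1), (319, 1), (1343, 1)]
(.lp [[6], [0, 2, 4, 7, 9], [1, 3, 5, 8, 10]] [(.mj 3 4, 130443), (.mj 9 10, 2556), (.hz 14 1343, 51906), (.rw 9, 3), (.rw 10, 26)]))))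
(.cut 6 [(0, 1), (1, 1), (2, 1), (3, 1), (5, 1), (7, 1), (11, 1), (21, 1), (15, 1), (23, 1), (31, 1), (47, 1), (63, 1), (159, 1), (191, 1), (319, 1), (447, 1)]
(.lp [[6], [0, 2, 4, 7, 9], [1, 3, 5, 8, 10]] [(.mj 3 4, 4643), (.mj 9 10, 263), (.hz 19 447, 280379), (.hz 17 1343, 24242), (.hz 19 511, 1194728), (.hz 17 1407, 16857), (.rw 9, 1)])))
(.cut 6 [(0, 1), (1, 1), (2, 1), (3, 1), (5, 1), (7, 1), (11, 1), (21, 1), (15, 1), (23, 1), (31, 1), (47, 1), (63, 1), (319, 1)]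
(.lp [[6], [0, 2, 4, 7, 9], [1, 3, 5, 8, 10]] [(.mj 3 4, 6300), (.hz 18 319, 283448), (.hz 17 1407, 246146), (.hz 14 959, 886505), (.rw 9, 1)])))
(.lp [[6], [0, 2, 4, 7, 9], [1, 3, 5, 8, 10]] [(.mj 3 4, 118), (.mj 7 8, 12), (.mj 9 10, 11), (.hz 17 63, 10733), (.hz 17 319, 9330), (.hz 14 447, 11896), (.hz 14 1343, 14257), (.hz 16 1343, 14530), (.hz 14 959, 12522), (.hz 14 1471, 51935)]))
(.lp [[6], [0, 2, 4, 7, 9], [1, 3, 5, 8, 10]] [(.mj 3 4, 9), (.mj 7 8, 2), (.hz 16 63, 784), (.hz 14 319, 1496)]))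
(.cut 6 [(0, 1), (1, 1), (2, 1), (3, 1), (5, 1), (7, 1), (11, 1), (21, 1), (15, 1), (23, 1), (31, 1), (47, 1), (63, 1), (159, 1), (191, 1)]
(.cut 6 [(0, 1), (1, 1), (2, 1), (3, 1), (5, 1), (7, 1), (11, 1), (21, 1), (15, 1), (23, 1), (31, 1), (47, 1), (63, 1), (159, 1), (191, 1), (319, 1), (447, 1)]
(.cut 9 [(0, 1), (1, 1), (2, 1), (3, 1), (5, 1), (7, 1), (11, 1), (21, 1), (15, 1), (23, 1), (85, 1), (31, 1), (47, 1), (87, 1), (63, 1), (95, 1), (159, 1), (127, 1), (191, 1), (223, 1), (319, 1), (255, 1), (383, 1), (1343, 1), (1407, 1)]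
(.lp [[6], [0, 2, 4, 7, 9], [1, 3, 5, 8, 10]] [(.mj 3 4, 51973), (.mj 7 8, 10442), (.mj 10 9, 3960), (.rw 9, 8), (.rw 10, 3), (.rw 11, 1)]))))
.fin))
(.ask 447
(.mark 447 [6, 9, 10]
(.spn
(.lp [[6], [0, 2, 4, 7, 9], [1, 3, 5, 8, 10]] [(.mj 3 4, 22), (.mj 6 9, 2), (.mj 6 10, 2), (.mj 7 8, 1)])
(.cut 6 [(0, 1), (1, 1), (2, 1), (3, 1), (5, 1), (7, 1), (11, 1), (21, 1), (15, 1), (23, 1), (31, 1), (47, 1), (63, 1), (159, 1), (191, 1), (319, 1), (447, 1)]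
(.lp [[6], [0, 2, 4, 7, 9], [1, 3, 5, 8, 10]] [(.mj 3 4, 4999), (.mj 9 10, 45), (.rw 9, 1)]))
(.ask 1471
(.mark 1471 [6, 9, 11]
(.spn
(.lp [[6], [0, 2, 4, 7, 9], [1, 3, 5, 8, 10, 11]] [(.mj 10 6, 196), (.rw 9, 1)])
(.cut 6 [(0, 1), (1, 1), (2, 1), (3, 1), (5, 1), (7, 1), (11, 1), (21, 1), (15, 1), (23, 1), (31, 1), (47, 1), (63, 1), (159, 1), (191, 1), (319, 1), (447, 1), (1471, 1)]
(.lp [[6], [0, 2, 4, 7, 9], [1, 3, 5, 8, 10, 11]] [(.mj 3 4, 4023), (.mj 9 6, 1), (.mj 9 11, 285), (.mj 10 9, 424), (.rw 10, 1)]))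
(.ask 3519
(.mark 3519 [6, 9, 12]
(.spn
(.lp [[6], [0, 2, 4, 7, 9], [1, 3, 5, 8, 10, 11, 12]] [(.mj 11 6, 82), (.rw 10, 1)])
(.lp [[6], [0, 2, 4, 7, 9], [1, 3, 5, 8, 10, 11, 12]] [(.mj 11 9, 2350), (.rw 10, 4)])
(.cut 6 [(0, 1), (1, 1), (2, 1), (3, 1), (5, 1), (7, 1), (11, 1), (21, 1), (15, 1), (23, 1), (47, 1)]
(.cut 6 [(0, 1), (1, 1), (2, 1), (3, 1), (5, 1), (7, 1), (11, 1), (21, 1), (15, 1), (23, 1), (31, 1), (47, 1), (63, 1)]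
(.cut 9 [(0, 1), (1, 1), (2, 1), (3, 1), (5, 1), (7, 1), (11, 1), (21, 1), (15, 1), (23, 1), (85, 1), (31, 1), (47, 1), (87, 1), (63, 1), (95, 1), (159, 1), (127, 1), (191, 1), (223, 1), (319, 1), (255, 1), (383, 1), (447, 1), (511, 1)]
(.cut 6 [(0, 1), (1, 1), (2, 1), (3, 1), (5, 1), (7, 1), (11, 1), (21, 1), (15, 1), (23, 1), (31, 1), (47, 1), (63, 1), (159, 1), (191, 1), (319, 1), (447, 1)]
(.lp [[6], [0, 2, 4, 7, 9], [1, 3, 5, 8, 10, 11, 12]] [(.mj 3 4, 173847), (.mj 12 6, 33373), (.hz 15 767, 88294730), (.hz 14 959, 3842659), (.hz 14 1983, 90441301), (.hz 14 3519, 38587712), (.rw 11, 67), (.rw 12, 14), (.rw 13, 1), (.rw 14, 60)])))))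
.fin))
(.lp [[6], [0, 2, 4, 7, 9], [1, 3, 5, 8, 10, 11]] [(.mj 11 9, 1), (.rw 9, 1)]))
.fin))
(.lp [[6], [0, 2, 4, 7, 9], [1, 3, 5, 8, 10]] [(.mj 10 9, 1), (.rw 8, 1)]))
.fin))
(.lp [[6], [1, 3, 5, 8], [0, 2, 4, 7, 9]] [(.mj 3 4, 7), (.mj 8 9, 1), (.hz 14 447, 230), (.hz 14 959, 3469)])))
(.cut 6 [(0, 1), (1, 1), (2, 1), (3, 1), (5, 1), (7, 1), (11, 1), (21, 1), (15, 1), (23, 1), (31, 1), (47, 1), (63, 1), (159, 1), (191, 1)]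
(.lp [[6], [1, 3, 5, 8], [0, 2, 4, 7, 9]] [(.mj 3 4, 18712), (.hz 15 63, 2411381), (.hz 15 127, 5500187), (.rw 8, 4)])))
(.cut 6 [(0, 1), (1, 1), (2, 1), (3, 1), (5, 1), (7, 1), (11, 1), (21, 1), (15, 1), (23, 1), (47, 1)]
(.cut 8 [(0, 1), (1, 1), (2, 1), (3, 1), (5, 1), (7, 1), (11, 1), (21, 1), (15, 1), (23, 1), (85, 1), (31, 1), (47, 1), (87, 1), (63, 1), (95, 1), (159, 1), (127, 1)]
(.cut 6 [(0, 1), (1, 1), (2, 1), (3, 1), (5, 1), (7, 1), (11, 1), (21, 1), (15, 1), (23, 1), (31, 1), (47, 1), (63, 1)]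
(.lp [[6], [1, 3, 5, 8], [0, 2, 4, 7, 9]] [(.mj 3 4, 85135), (.mj 9 8, 5065), (.hz 14 319, 1946098), (.rw 8, 6), (.rw 9, 3), (.rw 10, 10)]))))
.fin))
(.lp [[7], [0, 2, 4, 6], [1, 3, 5, 8]] [(.mj 3 4, 98), (.mj 7 8, 31), (.hz 14 319, 35165)])))
(.cut 6 [(0, 1), (1, 1), (2, 1), (3, 1), (5, 1), (7, 1), (11, 1), (21, 1), (15, 1), (23, 1), (31, 1), (47, 1), (63, 1)]
(.lp [[7], [0, 2, 4, 6], [1, 3, 5, 8]] [(.mj 7 8, 1), (.hz 14 31, 905488), (.hz 14 63, 516575), (.rw 7, 2)])))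

theorem run181 : run P3488 (leaf3 218 625) (cutRow P3488) [] t181 s181 = true := by
  decide +kernel

theorem bad181 : Bad P3488 s181 :=
  run_sound (leaf3_sound P3488 rfl rfl) (cutRow_sound P3488) (
    fun _ h => absurd h List.not_mem_nil) t181 s181 run181

/-- the state above piece 24 of the tree -/
def s24 : St := ⟨[0, 0, 1, 1, 3, 7, 13, 39], [47, 15, 11, 9, 7, 5, 3, 2, 1, 0], [0, 1, 2, 3, 5, 7],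
  [],
  [⟨true, 1, 9, 7, 50⟩, ⟨true, 2, 11, 3, 50⟩, ⟨true, 2, 9, 9, 50⟩, ⟨true, 3, 3, 1, 5⟩, ⟨true, 1, 5, 13, 50⟩, ⟨true, 5, 31, 1, 8⟩],
  [.spn 0 0 651200, .spn 1 1 140426, .spn 3 2 140426, .spn 7 3 62723, .spn 15 5 140426, .spn 47 7 140426]⟩

/-- piece 24 of the tree -/
noncomputable def t24 : WN.Tree :=
(.haz 4 7 4 25
(.lp [[1, 4], [3, 6], [0, 2, 5, 7]] [(.mj 1 2, 5), (.mj 3 5, 1), (.mj 7 4, 7), (.hz 6 7, 433), (.hz 6 15, 1273), (.hz 6 39, 607), (.hz 6 47, 1840), (.hz 6 79, 1673)])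
(.haz 5 23 19 50
(.haz 2 19 9 20
(.haz 4 15 3 20
(.lp [[1, 4], [3, 6], [0, 2, 5, 7]] [(.mj 1 2, 38), (.mj 3 5, 20), (.mj 7 4, 33), (.mj 7 6, 2), (.hz 9 15, 5557), (.hz 9 47, 17248), (.hz 9 79, 18582), (.hz 7 95, 7939), (.hz 9 111, 3295), (.hz 9 175, 7266)])
(.haz 2 19 1 2
(.haz 2 19 14 25
(.haz 4 79 1 25
(.haz 2 27 7 10
(.haz 4 79 2 25
(.haz 2 27 39 50
(.ask 167
(.mark 175 [4, 6, 8]
(.spn
(.haz 6 431 3 20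
(.lp [[1, 4], [3, 6], [0, 2, 5, 7, 8]] [(.mj 1 2, 39), (.mj 3 5, 72), (.mj 4 6, 101), (.mj 4 8, 55), (.mj 7 4, 133), (.hz 11 19, 460), (.hz 3 19, 2321), (.hz 15 27, 634), (.hz 14 79, 61561), (.hz 7 95, 36859), (.hz 14 111, 18691), (.hz 14 239, 2103), (.hz 16 431, 117255), (.hz 14 495, 10739)])
(.lp [[1, 4], [3, 6], [0, 2, 5, 7, 8]] [(.mj 3 5, 5191), (.mj 7 4, 2255), (.rw 6, 4), (.hz 16 13, 165834), (.hz 9 15, 144276), (.hz 16 15, 651728), (.hz 16 47, 509235), (.hz 14 79, 563836), (.hz 16 175, 275262)]))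
(.haz 4 47 1 10
(.maj 4 8
(.cut 4 [(0, 1), (1, 1), (2, 1), (3, 1), (5, 1), (9, 1), (7, 1), (11, 1), (13, 1), (15, 1), (39, 1), (77, 1), (47, 1), (167, 1), (175, 1)]
(.lp [[1, 4], [3, 6], [0, 2, 5, 7, 8]] [(.mj 1 2, 37246), (.mj 3 5, 14089), (.mj 6 4, 17804), (.mj 7 6, 10346), (.hz 11 19, 716296), (.hz 3 19, 846401), (.hz 7 23, 575811), (.hz 15 27, 526765), (.hz 16 47, 12037880), (.hz 16 175, 14754145), (.hz 16 431, 35891482), (.rw 7, 13)]))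
(.lp [[1, 4], [3, 6], [0, 2, 5, 7, 8]] [(.mj 1 2, 16), (.mj 3 5, 29), (.mj 6 8, 12), (.mj 7 6, 31), (.mj 8 4, 44), (.hz 11 19, 176), (.hz 3 19, 1237), (.hz 15 27, 301), (.hz 16 47, 24981), (.hz 14 79, 24867), (.hz 16 111, 144469), (.hz 16 175, 40916), (.hz 16 239, 95926), (.hz 16 431, 76965)]))
(.maj 4 8
(.cut 4 [(0, 1), (1, 1), (2, 1), (3, 1), (5, 1), (9, 1), (7, 1), (11, 1), (13, 1), (15, 1), (39, 1), (77, 1), (47, 1), (79, 2), (167, 1), (111, 1), (175, 1)]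
(.cut 4 [(0, 1), (1, 1), (2, 1), (3, 1), (5, 1), (9, 1), (7, 1), (11, 1), (13, 1), (15, 1), (39, 1), (77, 1), (47, 1), (79, 1), (167, 1), (175, 1)]
(.lp [[1, 4], [3, 6], [0, 2, 5, 7, 8]] [(.mj 1 2, 254336), (.mj 3 5, 8521), (.mj 7 6, 66405), (.rw 6, 77), (.hz 16 3, 12024244), (.hz 16 7, 585843), (.hz 16 11, 19372394), (.hz 7 23, 532585), (.rw 7, 51), (.rw 8, 62)])))
(.cut 4 [(0, 1), (1, 1), (2, 1), (3, 1), (5, 1), (9, 1), (7, 1), (11, 1), (13, 1), (15, 1), (39, 1), (77, 1), (47, 1)]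
(.cut 4 [(0, 1), (1, 1), (2, 1), (3, 1), (5, 1), (9, 1), (7, 1), (11, 1), (13, 1), (15, 1), (39, 1), (77, 1), (47, 1), (79, 1), (167, 1), (175, 1)]
(.cut 4 [(0, 1), (1, 1), (2, 1), (3, 1), (5, 1), (9, 1), (7, 1), (11, 1), (13, 1), (15, 1), (39, 1), (77, 1), (47, 1), (167, 1), (175, 1)]
(.lp [[1, 4], [3, 6], [0, 2, 5, 7, 8]] [(.mj 1 2, 52639), (.mj 3 5, 3227), (.mj 6 8, 6945), (.mj 7 6, 8710), (.mj 8 4, 8096), (.hz 16 3, 2435612), (.hz 16 7, 268590), (.hz 16 11, 3738881), (.hz 15 27, 42729), (.hz 14 79, 1193834), (.rw 7, 3), (.rw 8, 5), (.rw 9, 14)]))))))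
(.haz 4 47 1 10
(.cut 4 [(0, 1), (1, 1), (2, 1), (3, 1), (5, 1), (9, 1), (7, 1), (11, 1), (13, 1), (15, 1), (39, 1), (77, 1), (47, 1), (167, 1), (175, 1)]
(.lp [[1, 4], [3, 6], [0, 2, 5, 7, 8]] [(.mj 1 2, 1357868), (.mj 3 5, 270360), (.mj 8 4, 464068), (.mj 8 6, 22382), (.hz 11 19, 16108149), (.hz 3 19, 98129608), (.hz 7 23, 2079041), (.hz 15 27, 25028553), (.hz 16 47, 414733805), (.hz 14 79, 67708198), (.hz 16 111, 500300504), (.hz 16 175, 654176867), (.rw 7, 146)]))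
(.cut 4 [(0, 1), (1, 1), (2, 1), (3, 1), (5, 1), (9, 1), (7, 1), (11, 1), (13, 1), (15, 1), (39, 1), (77, 1), (47, 1), (167, 1), (175, 1)]
(.lp [[1, 4], [3, 6], [0, 2, 5, 7, 8]] [(.mj 1 2, 6388), (.mj 3 5, 3179), (.mj 8 6, 767), (.hz 16 3, 491104), (.hz 16 7, 45821), (.hz 16 11, 791224), (.hz 16 15, 835765), (.hz 7 23, 142960), (.hz 7 95, 63443), (.hz 14 111, 149822), (.rw 7, 1)])))
.fin))
(.ask 175
(.mark 175 [4, 6, 8]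
(.spn
(.haz 6 431 1 10
(.haz 6 431 3 20
(.lp [[1, 4], [3, 6], [0, 2, 5, 7, 8]] [(.mj 1 2, 38), (.mj 3 5, 19), (.mj 4 6, 108), (.mj 4 8, 79), (.mj 7 4, 174), (.hz 14 79, 60061), (.hz 14 111, 138157), (.hz 17 431, 133410)])
(.lp [[1, 4], [3, 6], [0, 2, 5, 7, 8]] [(.mj 3 5, 4), (.mj 4 8, 4), (.mj 7 4, 5), (.hz 17 13, 343), (.hz 17 15, 1282), (.hz 17 47, 1335), (.hz 14 79, 1274), (.hz 14 111, 3567), (.hz 17 175, 2087), (.hz 16 431, 8349)]))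
(.lp [[1, 4], [3, 6], [0, 2, 5, 7, 8]] [(.mj 3 5, 4), (.mj 4 8, 5), (.mj 7 4, 5), (.hz 16 13, 734), (.hz 9 15, 225), (.hz 16 15, 3094), (.hz 16 47, 3627), (.hz 16 175, 4219)]))
(.maj 4 8
(.ask 77
(.mark 239 [4, 8, 9]
(.lp [[1, 4], [3, 6, 9], [0, 2, 5, 7, 8]] [(.mj 4 8, 507), (.mj 6 4, 507), (.mj 7 6, 1045), (.rw 6, 1)]))
(.cut 4 [(0, 1), (1, 1), (2, 1), (3, 1), (5, 1), (9, 1), (7, 1), (11, 1), (13, 1), (15, 1), (39, 1), (77, 1), (47, 1), (167, 1), (175, 1)]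
(.lp [[1, 4], [3, 6], [0, 2, 5, 7, 8]] [(.mj 7 6, 6408), (.rw 6, 6), (.rw 7, 10)])))
(.cut 4 [(0, 1), (1, 1), (2, 1), (3, 1), (5, 1), (9, 1), (7, 1), (11, 1), (13, 1), (15, 1), (39, 1), (77, 1), (47, 1), (79, 1)]
(.cut 4 [(0, 1), (1, 1), (2, 1), (3, 1), (5, 1), (9, 1), (7, 1), (11, 1), (13, 1), (15, 1), (39, 1), (77, 1), (167, 1)]
(.cut 4 [(0, 1), (1, 1), (2, 1), (3, 1), (5, 1), (9, 1), (7, 1), (11, 1), (13, 1), (15, 1), (39, 1), (77, 1), (47, 1), (79, 2), (167, 1), (111, 1)]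
(.cut 4 [(0, 1), (1, 1), (2, 1), (3, 1), (5, 1), (9, 1), (7, 1), (11, 1), (13, 1), (15, 1), (39, 1), (77, 1), (47, 1), (167, 1), (175, 1)]
(.lp [[1, 4], [3, 6], [0, 2, 5, 7, 8]] [(.mj 1 2, 496538), (.mj 6 8, 34260), (.mj 7 6, 21622), (.mj 8 4, 111682), (.rw 6, 5), (.hz 11 19, 6789552), (.hz 3 19, 29837698), (.hz 7 23, 2459983), (.hz 15 27, 8628863), (.hz 7 95, 12951099), (.hz 14 239, 32633416), (.rw 7, 36), (.rw 8, 46), (.rw 9, 14), (.rw 10, 95)]))))))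
(.ask 431
(.mark 431 [4, 6, 9]
(.spn
(.lp [[1, 4], [3, 6], [0, 2, 5, 7, 8, 9]] [(.mj 8 4, 167), (.rw 7, 1)])
(.lp [[1, 4], [3, 6], [0, 2, 5, 7, 8, 9]] [(.mj 8 6, 399), (.rw 7, 1), (.hz 14 79, 303875), (.hz 14 111, 655879), (.hz 14 239, 1136167)])
(.maj 4 6
(.cut 4 [(0, 1), (1, 1), (2, 1), (3, 1), (5, 1), (9, 1), (7, 1), (11, 1), (13, 1), (15, 1), (39, 1), (47, 1), (167, 1), (175, 1), (431, 1)]
(.lp [[1, 4], [3, 6], [0, 2, 5, 7, 8, 9]] [(.mj 1 2, 12946), (.mj 3 5, 8403), (.mj 9 4, 5029), (.rw 7, 1), (.hz 11 19, 175901), (.hz 15 27, 94716), (.hz 14 79, 1644884), (.rw 8, 19)]))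
(.cut 4 [(0, 1), (1, 1), (2, 1), (3, 1), (5, 1), (9, 1), (7, 1), (11, 1), (13, 1), (15, 1), (39, 1), (77, 1), (47, 1), (79, 2), (111, 1)]
(.cut 4 [(0, 1), (1, 1), (2, 1), (3, 1), (5, 1), (9, 1), (7, 1), (11, 1), (13, 1), (15, 1), (39, 1), (77, 1), (47, 1), (79, 1), (167, 1), (111, 1), (175, 1), (239, 1)]
(.cut 6 [(0, 1), (1, 1), (2, 1), (3, 1), (5, 1), (9, 1), (7, 1), (11, 1), (13, 1), (15, 1), (39, 1), (47, 1), (167, 1), (175, 1), (431, 1)]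
(.lp [[1, 4], [3, 6], [0, 2, 5, 7, 8, 9]] [(.mj 1 2, 13644), (.mj 3 5, 9829), (.mj 9 6, 14995), (.rw 7, 4), (.hz 11 19, 308493), (.hz 7 23, 298085), (.hz 15 27, 166112), (.hz 14 79, 11467004), (.hz 14 111, 30481391), (.hz 14 239, 51919415), (.hz 14 495, 44591214), (.rw 8, 2), (.rw 9, 14), (.rw 10, 64)])))))
.fin))
(.lp [[1, 4], [3, 6], [0, 2, 5, 7, 8]] [(.mj 8 6, 1), (.rw 6, 1)]))
.fin))
(.lp [[1, 4], [3, 6], [0, 2, 5, 7]] [(.mj 7 4, 1), (.mj 7 6, 1), (.hz 14 79, 407), (.hz 14 111, 878)])))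
(.lp [[1, 4], [3, 6], [0, 2, 5, 7]] [(.mj 1 2, 1), (.mj 3 5, 1), (.hz 9 3, 71), (.hz 9 7, 28), (.hz 15 11, 946), (.hz 9 11, 2289), (.hz 7 23, 50)]))
(.cut 4 [(0, 1), (1, 1), (2, 1), (3, 1), (5, 1), (9, 1), (7, 1), (11, 1), (13, 1), (15, 1), (39, 1), (77, 1), (47, 1)]
(.lp [[1, 4], [3, 6], [0, 2, 5, 7]] [(.mj 1 2, 31759), (.mj 3 5, 6908), (.hz 14 3, 711754), (.hz 14 7, 266508), (.hz 14 11, 1129522), (.hz 14 15, 503150), (.hz 14 79, 2230094), (.rw 6, 4)])))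
(.lp [[1, 4], [3, 6], [0, 2, 5, 7]] [(.mj 1 2, 1), (.mj 3 5, 1), (.hz 9 3, 71), (.hz 9 7, 28), (.hz 13 11, 2207), (.hz 9 11, 1028), (.hz 7 23, 50)]))
(.lp [[1, 4], [3, 6], [0, 2, 5, 7]] [(.mj 1 2, 4), (.mj 3 5, 1), (.hz 12 3, 95), (.hz 12 11, 146), (.hz 12 15, 75), (.hz 7 23, 51)]))
(.lp [[1, 4], [3, 6], [0, 2, 5, 7]] [(.mj 1 2, 2), (.mj 2 3, 24), (.mj 7 6, 1), (.hz 11 3, 2772), (.hz 9 3, 2851), (.hz 10 19, 2478)]))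
(.lp [[1, 4], [3, 6], [0, 2, 5, 7]] [(.mj 2 3, 1), (.hz 10 3, 1073), (.hz 9 3, 88), (.hz 8 19, 8)])))
(.lp [[1, 4], [3, 6], [0, 2, 5, 7]] [(.mj 2 3, 1), (.hz 8 3, 111), (.hz 6 3, 70)]))
(.lp [[1, 4], [3, 6], [0, 2, 5, 7]] [(.mj 1 2, 6), (.mj 2 3, 7), (.mj 7 6, 1), (.hz 6 3, 302), (.hz 6 7, 767), (.hz 7 7, 493)])))

theorem run24 : run P3488 (leaf3 218 625) (cutRow P3488) [] t24 s24 = true := by
  decide +kernel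

theorem bad24 : Bad P3488 s24 :=
  run_sound (leaf3_sound P3488 rfl rfl) (cutRow_sound P3488) (
    fun _ h => absurd h List.not_mem_nil) t24 s24 run24

/-- the state above piece 13 of the tree -/
def s13 : St := ⟨[0, 0, 1, 1, 2, 7, 15, 39], [47, 15, 11, 13, 7, 5, 9, 3, 1, 0], [0, 1, 2, 3, 5, 7],
  [],
  [⟨true, 1, 9, 7, 50⟩, ⟨true, 2, 11, 3, 50⟩, ⟨true, 2, 9, 9, 50⟩, ⟨true, 3, 3, 1, 5⟩, ⟨true, 4, 39, 1, 20⟩, ⟨true, 5, 95, 3, 20⟩],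
  [.spn 0 0 651200, .spn 1 1 140426, .spn 3 2 140426, .spn 7 3 62723, .spn 15 5 140426, .spn 47 7 140426]⟩

/-- piece 13 of the tree -/
noncomputable def t13 : WN.Tree :=
(.haz 5 95 8 25
(.haz 7 127 1 2
(.ask 167
(.mark 175 [4, 6, 8]
(.spn
(.haz 6 47 13 50
(.lp [[1, 4], [3, 6], [0, 2, 5, 7, 8]] [(.mj 3 5, 550), (.mj 4 6, 683), (.mj 4 8, 58), (.mj 7 4, 683), (.rw 6, 1), (.hz 8 47, 27849), (.hz 8 63, 432748), (.hz 8 175, 65483), (.hz 4 423, 142038), (.hz 8 431, 169023)])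
(.cut 6 [(0, 1), (1, 1), (2, 1), (3, 1), (5, 1), (9, 1), (18, 1), (7, 1), (11, 1), (13, 1), (19, 1), (15, 1), (23, 1), (27, 1), (39, 1), (31, 2), (47, 1), (55, 1), (167, 1), (63, 1), (175, 1), (183, 1), (423, 1), (439, 1)]
(.lp [[1, 4], [3, 6], [0, 2, 5, 7, 8]] [(.mj 3 5, 201746), (.mj 4 6, 31085), (.mj 7 4, 110371), (.rw 6, 185), (.hz 8 15, 9394093), (.hz 8 47, 2012192), (.hz 4 111, 147321945), (.hz 4 423, 77762257), (.hz 4 431, 4579620), (.rw 7, 6)])))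
(.maj 4 8
(.cut 4 [(0, 1), (1, 1), (2, 1), (3, 1), (5, 1), (9, 1), (7, 1), (11, 1), (13, 1), (15, 1), (39, 1), (47, 1), (167, 1), (175, 1)]
(.lp [[1, 4], [3, 6], [0, 2, 5, 7, 8]] [(.mj 7 6, 9550), (.rw 6, 8), (.rw 7, 16)]))
(.cut 4 [(0, 1), (1, 1), (2, 1), (3, 1), (5, 1), (9, 1), (7, 1), (11, 1), (13, 1), (15, 1), (39, 1), (47, 1), (167, 1), (175, 1)]
(.lp [[1, 4], [3, 6], [0, 2, 5, 7, 8]] [(.mj 3 5, 138), (.mj 6 4, 105), (.mj 6 8, 245), (.mj 7 6, 487), (.mj 8 4, 213), (.rw 7, 1)])))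
(.haz 6 47 3 10
(.lp [[1, 4], [3, 6], [0, 2, 5, 7, 8]] [(.mj 3 5, 4), (.mj 8 4, 5), (.mj 8 6, 5), (.hz 4 39, 1107), (.hz 4 47, 944), (.hz 8 47, 3271), (.hz 4 167, 427), (.hz 4 111, 13830), (.hz 4 175, 2473), (.hz 8 175, 6520), (.hz 3 423, 989), (.hz 4 239, 15738)])
(.cut 4 [(0, 1), (1, 1), (2, 1), (3, 1), (5, 1), (9, 1), (7, 1), (11, 1), (13, 1), (15, 1), (39, 1), (47, 1)]
(.lp [[1, 4], [3, 6], [0, 2, 5, 7, 8]] [(.mj 3 5, 5936), (.mj 8 4, 3220), (.mj 8 6, 1666), (.hz 8 15, 947345), (.hz 6 95, 3631892), (.hz 4 111, 830426), (.hz 4 423, 1246663), (.hz 7 127, 73722276), (.rw 7, 8)])))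
.fin))
(.ask 175
(.mark 175 [4, 6, 8]
(.spn
(.haz 6 47 11 50
(.lp [[1, 4], [3, 6], [0, 2, 5, 7, 8]] [(.mj 3 5, 1), (.mj 4 6, 4), (.mj 4 8, 2), (.mj 7 4, 4), (.hz 8 47, 40), (.hz 8 63, 1580), (.hz 8 175, 91), (.hz 8 431, 1122)])
(.haz 8 239 11 25
(.ask 79
(.mark 239 [4, 8, 9]
(.lp [[1, 4], [3, 6, 9], [0, 2, 5, 7, 8]] [(.mj 3 5, 3), (.mj 4 8, 4), (.mj 7 4, 5), (.hz 8 15, 846), (.hz 4 111, 3220), (.hz 9 239, 2185), (.hz 4 623, 9757), (.hz 9 751, 3111)]))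
(.lp [[1, 4], [3, 6], [0, 2, 5, 7, 8]] [(.mj 3 5, 5), (.mj 4 8, 6), (.mj 7 4, 6), (.hz 8 47, 1474), (.hz 4 111, 4718), (.hz 9 239, 4530)]))
(.lp [[1, 4], [3, 6], [0, 2, 5, 7, 8]] [(.mj 3 5, 6), (.mj 4 6, 7), (.mj 7 4, 7), (.hz 8 15, 2), (.hz 9 175, 2944)])))
(.maj 4 8
(.cut 4 [(0, 1), (1, 1), (2, 1), (3, 1), (5, 1), (9, 1), (7, 1), (11, 1), (13, 1), (15, 1), (39, 1), (47, 1), (167, 1), (175, 1)]
(.lp [[1, 4], [3, 6], [0, 2, 5, 7, 8]] [(.mj 7 6, 9550), (.rw 6, 8), (.rw 7, 16)]))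
(.cut 4 [(0, 1), (1, 1), (2, 1), (3, 1), (5, 1), (9, 1), (7, 1), (11, 1), (13, 1), (15, 1), (39, 1), (47, 1), (167, 1), (175, 1)]
(.lp [[1, 4], [3, 6], [0, 2, 5, 7, 8]] [(.mj 6 4, 806), (.mj 6 8, 2629), (.mj 7 6, 4565), (.mj 8 4, 1822), (.rw 7, 8)])))
(.haz 6 47 4 25
(.cut 4 [(0, 1), (1, 1), (2, 1), (3, 1), (5, 1), (9, 1), (7, 1), (11, 1), (13, 1), (15, 1), (39, 1), (47, 1), (167, 1), (175, 1)]
(.lp [[1, 4], [3, 6], [0, 2, 5, 7, 8]] [(.mj 3 5, 65806), (.mj 8 4, 51360), (.mj 8 6, 80641), (.hz 8 47, 22432953), (.hz 8 63, 60418347), (.hz 8 175, 28224270), (.hz 8 191, 175429568), (.rw 7, 176)]))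
(.ask 79
(.mark 239 [4, 8, 9]
(.cut 4 [(0, 1), (1, 1), (2, 1), (3, 1), (5, 1), (9, 1), (7, 1), (11, 1), (13, 1), (15, 1), (39, 1), (47, 1), (167, 1), (175, 1)]
(.cut 4 [(0, 1), (1, 1), (2, 1), (3, 1), (5, 1), (9, 1), (7, 1), (11, 1), (13, 1), (15, 1), (39, 1), (47, 1), (79, 1), (167, 1), (111, 1), (175, 1), (239, 1)]
(.lp [[1, 4], [3, 6, 9], [0, 2, 5, 7, 8]] [(.mj 3 5, 128851), (.mj 8 4, 54463), (.mj 8 6, 7118), (.hz 8 15, 12842270), (.hz 7 127, 683055962), (.hz 6 607, 68561009), (.hz 4 431, 8771125), (.hz 7 639, 1021180340), (.rw 7, 52), (.rw 8, 109)]))))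
(.cut 4 [(0, 1), (1, 1), (2, 1), (3, 1), (5, 1), (9, 1), (7, 1), (11, 1), (13, 1), (15, 1), (39, 1), (47, 1), (167, 1)]
(.cut 4 [(0, 1), (1, 1), (2, 1), (3, 1), (5, 1), (9, 1), (7, 1), (11, 1), (13, 1), (15, 1), (79, 1)]
(.cut 4 [(0, 1), (1, 1), (2, 1), (3, 1), (5, 1), (9, 1), (7, 1), (11, 1), (13, 1), (15, 1), (39, 1), (47, 1), (79, 1), (167, 1), (175, 1)]
(.lp [[1, 4], [3, 6], [0, 2, 5, 7, 8]] [(.mj 3 5, 30096), (.mj 8 4, 11873), (.mj 8 6, 648), (.hz 8 47, 3660368), (.hz 7 127, 192530435), (.hz 4 431, 5671758), (.rw 7, 1), (.rw 8, 19), (.rw 9, 10)]))))))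
.fin))
(.lp [[1, 4], [3, 6], [0, 2, 5, 7]] [(.mj 7 4, 1), (.mj 7 6, 1), (.hz 4 111, 3383)])))
(.cut 4 [(0, 1), (1, 1), (2, 1), (3, 1), (5, 1), (9, 1), (7, 1), (11, 1), (13, 1), (15, 1), (39, 1), (47, 1)]
(.lp [[1, 4], [3, 6], [0, 2, 5, 7]] [(.mj 3 5, 5346), (.mj 7 4, 5346), (.mj 7 6, 5776), (.hz 7 47, 26729418), (.hz 7 63, 13364709), (.hz 4 111, 11594503), (.rw 6, 4)])))
(.cut 4 [(0, 1), (1, 1), (2, 1), (3, 1), (5, 1), (9, 1), (7, 1), (11, 1), (13, 1), (15, 1), (39, 1)]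
(.lp [[1, 4], [3, 6], [0, 2, 5, 7]] [(.mj 2 3, 143), (.mj 7 4, 527), (.mj 7 6, 404), (.hz 6 7, 95150), (.hz 6 31, 238500), (.rw 6, 1)])))

theorem run13 : run P3488 (leaf3 218 625) (cutRow P3488) [] t13 s13 = true := by
  decide +kernel

theorem bad13 : Bad P3488 s13 :=
  run_sound (leaf3_sound P3488 rfl rfl) (cutRow_sound P3488) (
    fun _ h => absurd h List.not_mem_nil) t13 s13 run13

end Pool.Agent.WN.Data
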