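import Pool.Agent.WN.CutRow
import Pool.Agent.WN.LeafRow
import Pool.Agent.Helper99.WN.ParDef
import Pool.Agent.WN.Data.D11

/-!
# The search tree, part 16
-/

set_option autoImplicit false

namespace Pool.Agent.WN.Data

open Pool.Agent.W3 Pool.Agent.WN Pool.Agent.Helper99.WN

/-- the state above piece 240 of the tree -/
def s240 : St := ⟨[0, 0, 1, 3, 5, 15, 31, 31, 63, 95, 319, 895], [895, 639, 607, 383, 127, 63, 47, 31, 23, 21, 15, 11, 7, 5, 3, 2, 1, 0], [0, 1, 2, 3, 4, 5, 6, 8, 9, 10],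
  [(4, 5)],
  [⟨true, 2, 3, 3, 10⟩, ⟨true, 1, 5, 2, 5⟩, ⟨true, 2, 3, 23, 50⟩, ⟨true, 1, 5, 12, 25⟩, ⟨true, 1, 21, 27, 50⟩, ⟨true, 4, 15, 9, 40⟩, ⟨true, 3, 23, 11, 20⟩, ⟨true, 4, 47, 7, 20⟩, ⟨true, 4, 47, 17, 40⟩, ⟨true, 4, 47, 9, 20⟩, ⟨true, 4, 47, 19, 40⟩, ⟨true, 5, 31, 3, 10⟩, ⟨true, 4, 47, 3, 5⟩, ⟨true, 4, 47, 5, 8⟩, ⟨true, 6, 159, 1, 10⟩, ⟨true, 6, 319, 1, 8⟩, ⟨true, 6, 319, 1, 5⟩, ⟨true, 7, 95, 1, 20⟩, ⟨true, 9, 1535, 1, 10⟩, ⟨true, 9, 1535, 3, 10⟩, ⟨true, 6, 159, 1, 4⟩, ⟨true, 9, 1407, 7, 20⟩, ⟨true, 5, 159, 2, 5⟩],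
  [.spn 0 0 651200, .spn 1 1 302400, .spn 3 2 302400, .spn 7 3 302400, .spn 15 4 302400, .spn 31 5 140426, .spn 63 6 140426, .spn 127 8 140426, .spn 383 9 140426, .spn 895 10 140426]⟩

/-- piece 240 of the tree -/
noncomputable def t240 : WN.Tree :=
(.haz 10 2943 3 10
(.ask 1343
(.mark 1919 [7, 11, 12]
(.spn
(.lp [[7], [0, 2, 4, 6, 9, 11], [1, 3, 5, 8, 10, 12]] [(.mj 7 11, 2553), (.mj 9 10, 4799), (.mj 10 7, 3363), (.rw 10, 4), (.hz 17 2943, 7252121), (.hz 23 2943, 9224015), (.hz 17 5503, 40932267)])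
(.haz 6 5439 9 20
(.haz 9 5503 11 20
(.haz 11 6015 1 2
(.maj 7 12
(.cut 7 [(0, 1), (1, 1), (2, 1), (3, 1), (5, 1), (7, 1), (11, 1), (21, 1), (15, 1), (23, 1), (31, 1), (47, 1), (63, 1), (95, 1), (127, 1), (319, 1), (607, 1), (383, 1), (639, 1), (1343, 1), (895, 1), (1407, 1), (1919, 1), (2943, 1)]
(.cut 12 [(0, 1), (1, 1), (2, 1), (3, 1), (5, 1), (7, 1), (11, 1), (21, 1), (15, 1), (23, 1), (31, 1), (47, 1), (63, 1), (95, 1), (159, 1), (127, 1), (191, 1), (223, 1), (319, 1), (607, 1), (255, 1), (383, 1), (447, 1), (639, 1), (735, 1), (511, 1), (767, 1), (895, 1), (1023, 1), (2943, 1), (3071, 1)]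
(.cut 7 [(0, 1), (1, 1), (2, 1), (3, 1), (5, 1), (7, 1), (11, 1), (21, 1), (15, 1), (23, 1), (31, 1), (47, 1), (63, 1), (95, 1), (127, 1), (319, 1), (607, 1), (383, 1), (639, 1), (1343, 1), (895, 1), (1407, 1), (1919, 1)]
(.lp [[7], [0, 2, 4, 6, 9, 11], [1, 3, 5, 8, 10, 12]] [(.mj 10 11, 18174), (.mj 11 7, 54684), (.hz 24 5439, 12835158), (.hz 17 5503, 536039520), (.hz 25 5503, 7637598), (.hz 17 6015, 1216769660), (.rw 11, 3), (.rw 12, 4), (.rw 13, 181)]))))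
(.cut 7 [(0, 1), (1, 1), (2, 1), (3, 1), (5, 1), (7, 1), (11, 1), (21, 1), (15, 1), (23, 1), (31, 1), (47, 1), (63, 1), (95, 1), (127, 1), (319, 1), (607, 1), (383, 1), (639, 1), (1343, 1), (895, 1), (1407, 1), (1919, 1)]
(.lp [[7], [0, 2, 4, 6, 9, 11], [1, 3, 5, 8, 10, 12]] [(.mj 0 1, 107209), (.mj 9 10, 333), (.mj 10 11, 805), (.mj 11 7, 1044), (.mj 12 7, 1042), (.hz 24 5567, 700808), (.rw 11, 7)])))
(.cut 7 [(0, 1), (1, 1), (2, 1), (3, 1), (5, 1), (7, 1), (11, 1), (21, 1), (15, 1), (23, 1), (31, 1), (47, 1), (63, 1), (95, 1), (127, 1), (319, 1), (607, 1), (383, 1), (639, 1), (1343, 1), (895, 1), (1407, 1), (5439, 2), (1919, 1), (5503, 1)]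
(.cut 7 [(0, 1), (1, 1), (2, 1), (3, 1), (5, 1), (7, 1), (11, 1), (21, 1), (15, 1), (23, 1), (31, 1), (47, 1), (63, 1), (95, 1), (127, 1), (319, 1), (607, 1), (383, 1), (639, 1), (1343, 1), (895, 1), (1407, 1), (1919, 1)]
(.lp [[7], [0, 2, 4, 6, 9, 11], [1, 3, 5, 8, 10, 12]] [(.mj 0 1, 513646), (.mj 10 11, 1998), (.mj 11 7, 9442), (.hz 26 1919, 66124153), (.hz 17 5503, 30591707), (.hz 23 3071, 12758239), (.hz 17 6015, 57216584), (.rw 11, 1), (.rw 12, 24)]))))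
(.cut 7 [(0, 1), (1, 1), (2, 1), (3, 1), (5, 1), (7, 1), (11, 1), (21, 1), (15, 1), (23, 1), (31, 1), (47, 1), (63, 1), (95, 1), (127, 1), (319, 1), (607, 1), (383, 1), (639, 1), (1343, 1), (895, 1), (1407, 1), (1919, 1)]
(.lp [[7], [0, 2, 4, 6, 9, 11], [1, 3, 5, 8, 10, 12]] [(.mj 9 10, 8714), (.mj 10 11, 5541), (.mj 11 7, 5541), (.hz 25 1407, 15310509), (.hz 17 5503, 39509737), (.rw 11, 14)])))
(.cut 7 [(0, 1), (1, 1), (2, 1), (3, 1), (5, 1), (7, 1), (11, 1), (21, 1), (15, 1), (23, 1), (31, 1), (47, 1), (63, 1), (95, 1), (127, 1), (319, 1), (607, 1), (383, 1), (639, 1), (1343, 1), (895, 1), (1407, 1), (1919, 1)]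
(.lp [[7], [0, 2, 4, 6, 9, 11], [1, 3, 5, 8, 10, 12]] [(.mj 6 8, 864), (.mj 10 11, 163), (.mj 11 7, 410), (.hz 24 319, 463395), (.hz 16 5439, 193285), (.rw 11, 1)])))
(.lp [[7], [0, 2, 4, 6, 9, 11], [1, 3, 5, 8, 10, 12]] [(.mj 9 10, 9), (.mj 12 7, 7), (.mj 12 11, 4), (.hz 17 1407, 68145), (.hz 17 1919, 18067), (.hz 17 2943, 54997), (.hz 23 2943, 25655), (.hz 17 5503, 22460), (.hz 17 3967, 124695)])
.fin))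
(.ask 1407
(.mark 1919 [7, 11, 12]
(.spn
(.ask 2943
(.mark 2943 [7, 10, 13]
(.lp [[7], [1, 3, 5, 8, 10, 12], [0, 2, 4, 6, 9, 11, 13]] [(.mj 7 11, 2223), (.mj 9 10, 4623), (.mj 10 7, 3062), (.rw 10, 4), (.hz 17 2943, 6273179), (.hz 23 2943, 7778355), (.hz 17 5503, 32569141), (.hz 17 11135, 6603346)]))
(.lp [[7], [0, 2, 4, 6, 9, 11], [1, 3, 5, 8, 10, 12]] [(.mj 7 11, 328), (.mj 9 10, 1004), (.mj 10 7, 599), (.rw 10, 1)]))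
(.maj 7 12
(.cut 7 [(0, 1), (1, 1), (2, 1), (3, 1), (5, 1), (7, 1), (11, 1), (21, 1), (15, 1), (23, 1), (31, 1), (47, 1), (63, 1), (95, 1), (127, 1), (319, 1), (607, 1), (383, 1), (639, 1), (1343, 1), (895, 1), (1407, 1), (1919, 1)]
(.lp [[7], [0, 2, 4, 6, 9, 11], [1, 3, 5, 8, 10, 12]] [(.mj 10 11, 4734), (.mj 11 7, 6831), (.hz 17 5503, 49161376), (.hz 21 5503, 846400), (.hz 17 6015, 146542544), (.rw 11, 23)]))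
(.cut 7 [(0, 1), (1, 1), (2, 1), (3, 1), (5, 1), (7, 1), (11, 1), (21, 1), (15, 1), (23, 1), (31, 1), (47, 1), (63, 1), (95, 1), (127, 1), (319, 1), (607, 1), (383, 1), (639, 1), (1343, 1), (895, 1), (1407, 1), (1919, 1)]
(.lp [[7], [0, 2, 4, 6, 9, 11], [1, 3, 5, 8, 10, 12]] [(.mj 9 10, 399), (.mj 10 11, 397), (.mj 11 7, 524), (.mj 11 12, 15), (.mj 12 7, 527), (.rw 11, 4)])))
(.lp [[7], [0, 2, 4, 6, 9, 11], [1, 3, 5, 8, 10, 12]] [(.mj 9 10, 45), (.mj 12 7, 35), (.mj 12 11, 19), (.hz 17 1407, 354226), (.hz 17 1919, 93917), (.hz 17 2943, 271299), (.hz 23 2943, 132884), (.hz 17 5503, 35859), (.hz 17 3967, 615632)])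
.fin))
(.ask 1919
(.mark 1919 [7, 11, 12]
(.spn
(.haz 11 6015 1 10
(.haz 7 6015 1 10
(.haz 11 6143 3 20
(.ask 6015
(.haz 11 6015 1 5
(.mark 6015 [7, 11, 13]
(.lp [[7], [0, 2, 4, 6, 9, 11], [1, 3, 5, 8, 10, 12, 13]] [(.mj 7 11, 16), (.mj 7 12, 8), (.mj 9 10, 2), (.mj 10 7, 22), (.hz 17 2943, 38322), (.hz 27 6015, 374276), (.hz 27 6143, 238919), (.hz 27 14207, 238919)]))
(.lp [[7], [0, 2, 4, 6, 9, 11], [1, 3, 5, 8, 10, 12, 13]] [(.mj 7 12, 5), (.mj 9 10, 4), (.mj 10 7, 6), (.hz 27 895, 62059), (.hz 27 1919, 89102), (.hz 24 6015, 60620)]))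
(.lp [[7], [0, 2, 4, 6, 9, 11], [1, 3, 5, 8, 10, 12]] [(.mj 7 11, 2), (.mj 10 7, 3)]))
(.lp [[7], [0, 2, 4, 6, 9, 11], [1, 3, 5, 8, 10, 12]] [(.mj 9 10, 1814), (.mj 10 7, 726), (.rw 10, 2), (.hz 26 895, 1775367)]))
(.lp [[7], [0, 2, 4, 6, 9, 11], [1, 3, 5, 8, 10, 12]] [(.mj 9 10, 1052), (.rw 10, 4), (.hz 25 1919, 33522158)]))
(.lp [[7], [0, 2, 4, 6, 9, 11], [1, 3, 5, 8, 10, 12]] [(.mj 9 10, 970), (.mj 10 7, 396), (.rw 10, 1), (.hz 24 895, 1856759)]))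
(.maj 7 12
(.cut 7 [(0, 1), (1, 1), (2, 1), (3, 1), (5, 1), (7, 1), (11, 1), (21, 1), (15, 1), (23, 1), (31, 1), (47, 1), (63, 1), (95, 1), (127, 1), (319, 1), (607, 1), (383, 1), (639, 1), (1343, 1), (895, 1), (1407, 1), (1919, 1)]
(.lp [[7], [0, 2, 4, 6, 9, 11], [1, 3, 5, 8, 10, 12]] [(.mj 10 11, 12544), (.mj 11 7, 17470), (.hz 17 6015, 343464968), (.rw 11, 59)]))
(.cut 7 [(0, 1), (1, 1), (2, 1), (3, 1), (5, 1), (7, 1), (11, 1), (21, 1), (15, 1), (23, 1), (31, 1), (47, 1), (63, 1), (95, 1), (127, 1), (319, 1), (607, 1), (383, 1), (639, 1), (1343, 1), (895, 1), (1407, 1), (1919, 1)]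
(.lp [[7], [0, 2, 4, 6, 9, 11], [1, 3, 5, 8, 10, 12]] [(.mj 11 7, 86), (.mj 12 7, 5207), (.rw 11, 19)])))
(.cut 7 [(0, 1), (1, 1), (2, 1), (3, 1), (5, 1), (7, 1), (11, 1), (21, 1), (15, 1), (23, 1), (31, 1), (47, 1), (63, 1), (95, 1), (127, 1), (319, 1), (607, 1), (383, 1), (639, 1), (1343, 1), (895, 1)]
(.lp [[7], [0, 2, 4, 6, 9, 11], [1, 3, 5, 8, 10, 12]] [(.mj 9 10, 5928), (.mj 12 7, 13995), (.mj 12 11, 181), (.rw 10, 1), (.hz 23 2943, 12417501), (.hz 23 3071, 173121563), (.rw 11, 56)]))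
.fin))
(.spn
(.lp [[7], [1, 3, 5, 8, 10], [0, 2, 4, 6, 9, 11]] [(.mj 7 11, 1), (.mj 10 7, 1)])
(.cut 7 [(0, 1), (1, 1), (2, 1), (3, 1), (5, 1), (7, 1), (11, 1), (21, 1), (15, 1), (23, 1), (31, 1), (47, 1), (63, 1), (95, 1), (127, 1), (319, 1), (607, 1), (383, 1), (639, 1), (1343, 1), (895, 1), (1407, 1), (1919, 1)]
(.lp [[7], [1, 3, 5, 8, 10], [0, 2, 4, 6, 9, 11]] [(.mj 10 11, 1555), (.mj 11 7, 568), (.rw 11, 2)]))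
.fin
.fin))))
(.lp [[7], [1, 3, 5, 8, 10], [0, 2, 4, 6, 9, 11]] [(.mj 8 9, 1), (.mj 10 7, 11), (.mj 10 11, 13), (.hz 23 319, 11201), (.hz 23 383, 34316), (.hz 23 895, 71352), (.hz 17 1407, 601), (.hz 17 2943, 156722)]))

theorem run240 : run P3488 (leaf3 218 625) (cutRow P3488) [] t240 s240 = true := by
  decide +kernel

theorem bad240 : Bad P3488 s240 :=
  run_sound (leaf3_sound P3488 rfl rfl) (cutRow_sound P3488) (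
    fun _ h => absurd h List.not_mem_nil) t240 s240 run240

/-- the state above piece 119 of the tree -/
def s119 : St := ⟨[0, 0, 1, 3, 5, 7, 15, 31, 95], [159, 95, 79, 31, 23, 21, 15, 11, 7, 5, 3, 2, 1, 0], [0, 1, 2, 3, 4, 6, 7],
  [],
  [⟨true, 2, 3, 3, 10⟩, ⟨true, 1, 5, 2, 5⟩, ⟨true, 2, 3, 23, 50⟩, ⟨true, 1, 5, 12, 25⟩, ⟨true, 4, 39, 4, 25⟩, ⟨true, 4, 39, 9, 50⟩, ⟨true, 4, 15, 4, 25⟩, ⟨true, 4, 15, 9, 50⟩, ⟨true, 1, 21, 29, 50⟩, ⟨true, 3, 39, 6, 25⟩, ⟨true, 3, 39, 3, 10⟩, ⟨true, 4, 39, 6, 25⟩, ⟨true, 3, 39, 17, 50⟩, ⟨true, 3, 39, 19, 50⟩, ⟨true, 3, 39, 2, 5⟩, ⟨true, 3, 23, 2, 5⟩, ⟨true, 4, 79, 6, 25⟩, ⟨true, 4, 39, 7, 25⟩, ⟨true, 3, 55, 3, 5⟩, ⟨true, 5, 159, 1, 20⟩, ⟨true, 3, 55, 7, 10⟩, ⟨false, 5, 15, 7, 40⟩, ⟨true, 3, 39, 9, 20⟩, ⟨true, 6, 159, 1, 5⟩, ⟨true, 6, 159, 11, 40⟩, ⟨true, 6, 159, 13, 40⟩,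 ⟨true, 6, 63, 7, 20⟩],
  [.spn 0 0 651200, .spn 1 1 302400, .spn 3 2 302400, .spn 7 3 140426, .spn 15 4 140426, .spn 31 6 140426, .spn 95 7 140426]⟩

/-- piece 119 of the tree -/
noncomputable def t119 : WN.Tree :=
(.ask 223
(.mark 223 [5, 8, 9]
(.spn
(.haz 9 479 13 40
(.haz 8 255 9 40
(.haz 8 735 11 40
(.lp [[5], [1, 3, 6, 8], [0, 2, 4, 7, 9]] [(.mj 5 8, 14), (.mj 5 9, 7), (.mj 6 7, 1), (.mj 7 5, 18), (.hz 28 255, 7166), (.hz 29 735, 8837)])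
(.ask 351
(.mark 479 [5, 9, 10]
(.lp [[5], [0, 2, 4, 7, 9], [1, 3, 6, 8, 10]] [(.mj 5 9, 4), (.mj 7 5, 5), (.hz 29 95, 1019), (.hz 28 255, 1132), (.hz 27 479, 1348), (.hz 27 1503, 3251)]))
(.lp [[5], [1, 3, 6, 8], [0, 2, 4, 7, 9]] [(.mj 5 9, 17), (.mj 7 5, 19), (.hz 29 223, 5783), (.hz 28 255, 5822), (.hz 27 479, 10002)])))
(.lp [[5], [1, 3, 6, 8], [0, 2, 4, 7, 9]] [(.mj 5 9, 65), (.mj 7 5, 79), (.hz 28 95, 14241), (.hz 28 223, 9329), (.hz 19 479, 74140), (.hz 27 479, 37701)]))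
(.lp [[5], [1, 3, 6, 8], [0, 2, 4, 7, 9]] [(.mj 5 8, 8), (.mj 7 5, 10), (.hz 27 223, 3548), (.hz 19 479, 11347)]))
(.haz 5 479 3 40
(.ask 351
(.mark 479 [5, 9, 10]
(.spn
(.lp [[5], [0, 2, 4, 7, 9], [1, 3, 6, 8, 10]] [(.mj 0 1, 184385), (.mj 5 9, 498), (.mj 8 5, 4919), (.rw 8, 8), (.hz 20 55, 4877908), (.hz 19 735, 11116267), (.hz 27 991, 950437), (.hz 27 1503, 3487911)])
(.maj 5 10
(.cut 5 [(0, 1), (1, 1), (2, 1), (3, 1), (5, 1), (7, 1), (11, 1), (21, 1), (15, 1), (23, 1), (31, 1), (79, 1), (95, 1)]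
(.cut 5 [(0, 1), (1, 1), (2, 1), (3, 1), (5, 1), (7, 1), (11, 1), (21, 1), (15, 1), (23, 1), (31, 1), (79, 1), (95, 1), (159, 1), (223, 1), (351, 1), (479, 1), (735, 1)]
(.cut 10 [(0, 1), (1, 1), (2, 1), (3, 1), (5, 1), (7, 1), (11, 1), (21, 1), (15, 1), (23, 1), (39, 1), (31, 1), (47, 1), (55, 1), (79, 1), (63, 1), (95, 1), (111, 1), (159, 1), (127, 1), (191, 1), (223, 1), (351, 1), (255, 1), (735, 1), (767, 1)]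
(.cut 5 [(0, 1), (1, 1), (2, 1), (3, 1), (5, 1), (7, 1), (11, 1), (21, 1), (15, 1), (23, 1), (31, 1), (79, 1), (95, 1), (159, 1), (223, 1), (351, 1), (479, 1)]
(.lp [[5], [0, 2, 4, 7, 9], [1, 3, 6, 8, 10]] [(.mj 0 1, 2173761), (.mj 8 9, 40505), (.mj 9 5, 76719), (.hz 20 55, 57506916), (.hz 27 1503, 265312370), (.rw 9, 2), (.rw 10, 4), (.rw 11, 8), (.rw 12, 218)])))))
(.cut 5 [(0, 1), (1, 1), (2, 1), (3, 1), (5, 1), (7, 1), (11, 1), (21, 1), (15, 1), (23, 1), (31, 1), (79, 1), (95, 1), (159, 1), (223, 1), (351, 1), (479, 1)]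
(.lp [[5], [0, 2, 4, 7, 9], [1, 3, 6, 8, 10]] [(.mj 0 1, 4329), (.mj 8 9, 37), (.mj 9 5, 155), (.mj 10 5, 150), (.hz 27 479, 150179), (.hz 27 991, 15379), (.rw 9, 1)])))
(.cut 5 [(0, 1), (1, 1), (2, 1), (3, 1), (5, 1), (7, 1), (11, 1), (21, 1), (15, 1), (23, 1), (31, 1), (79, 1), (95, 1), (159, 1), (223, 1), (351, 1), (479, 1)]
(.lp [[5], [0, 2, 4, 7, 9], [1, 3, 6, 8, 10]] [(.mj 0 1, 11110), (.mj 10 5, 333), (.mj 10 9, 52), (.hz 20 55, 258655), (.hz 19 735, 69091), (.rw 9, 1)]))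
.fin))
(.ask 479
(.mark 479 [5, 9, 10]
(.spn
(.ask 39
(.mark 255 [8, 9, 11]
(.lp [[5, 11], [0, 2, 4, 7, 9], [1, 3, 6, 8, 10]] [(.mj 0 1, 103733), (.mj 8 5, 1768), (.rw 8, 4), (.hz 22 2087, 20967), (.hz 20 2103, 3150191), (.hz 26 2111, 2056971), (.hz 19 735, 5256737)]))
(.ask 55
(.mark 63 [6, 7, 11]
(.lp [[5, 11], [0, 2, 4, 7, 9], [1, 3, 6, 8, 10]] [(.mj 0 1, 22560), (.mj 5 10, 11), (.mj 8 5, 472), (.rw 8, 1), (.hz 20 2103, 637124), (.hz 26 2111, 792520), (.hz 19 735, 1297521), (.hz 27 991, 82717)]))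
(.lp [[5], [0, 2, 4, 7, 9], [1, 3, 6, 8, 10]] [(.mj 0 1, 51944), (.mj 5 10, 7), (.mj 8 5, 943), (.rw 8, 2), (.hz 19 735, 2733538), (.hz 27 991, 54283)])))
(.ask 735
(.mark 991 [5, 10, 11]
(.cut 5 [(0, 1), (1, 1), (2, 1), (3, 1), (5, 1), (7, 1), (11, 1), (21, 1), (15, 1), (23, 1), (31, 1), (79, 1), (95, 1), (159, 1), (223, 1), (351, 1), (479, 1)]
(.lp [[5], [1, 3, 6, 8, 10], [0, 2, 4, 7, 9, 11]] [(.mj 0 1, 260158), (.mj 8 9, 3051), (.mj 9 5, 18464), (.hz 27 479, 3290312), (.hz 27 1503, 11250577), (.hz 27 3039, 267871), (.rw 9, 55)])))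
(.maj 5 10
(.cut 5 [(0, 1), (1, 1), (2, 1), (3, 1), (5, 1), (7, 1), (11, 1), (21, 1), (15, 1), (23, 1), (31, 1), (79, 1), (95, 1), (159, 1), (223, 1), (351, 1), (479, 1)]
(.lp [[5], [0, 2, 4, 7, 9], [1, 3, 6, 8, 10]] [(.mj 0 1, 3147), (.mj 8 9, 294), (.mj 9 5, 315), (.hz 27 1503, 835282), (.rw 9, 1)]))
(.lp [[5], [0, 2, 4, 7, 9], [1, 3, 6, 8, 10]] [(.mj 0 1, 61), (.mj 10 5, 2), (.hz 20 55, 1617), (.hz 27 479, 4189), (.hz 27 991, 3868), (.hz 27 1503, 43)])))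
(.cut 5 [(0, 1), (1, 1), (2, 1), (3, 1), (5, 1), (7, 1), (11, 1), (21, 1), (15, 1), (23, 1), (31, 1), (79, 1), (95, 1), (159, 1), (223, 1), (351, 1), (479, 1)]
(.lp [[5], [0, 2, 4, 7, 9], [1, 3, 6, 8, 10]] [(.mj 0 1, 54825), (.mj 10 5, 3768), (.mj 10 9, 169), (.rw 9, 13)]))
.fin))
(.spn
(.lp [[5], [1, 3, 6, 8], [0, 2, 4, 7, 9]] [(.mj 5 9, 1), (.mj 8 5, 1)])
(.cut 5 [(0, 1), (1, 1), (2, 1), (3, 1), (5, 1), (7, 1), (11, 1), (21, 1), (15, 1), (23, 1), (31, 1), (79, 1), (95, 1), (159, 1), (223, 1), (351, 1), (479, 1)]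
(.lp [[5], [1, 3, 6, 8], [0, 2, 4, 7, 9]] [(.mj 8 9, 734), (.mj 9 5, 281), (.rw 9, 1)]))
.fin
.fin)))
(.cut 5 [(0, 1), (1, 1), (2, 1), (3, 1), (5, 1), (7, 1), (11, 1), (21, 1), (15, 1), (23, 1), (31, 1), (79, 1), (95, 1), (159, 1), (223, 1)]
(.lp [[5], [1, 3, 6, 8], [0, 2, 4, 7, 9]] [(.mj 0 1, 72044), (.mj 8 9, 249), (.hz 27 23, 405656), (.hz 27 223, 5386962), (.hz 27 351, 2985233), (.hz 27 479, 417016), (.rw 8, 13)])))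
(.ask 735
(.mark 735 [5, 8, 10]
(.spn
(.lp [[5], [1, 3, 6, 8], [0, 2, 4, 7, 9, 10]] [(.mj 9 5, 150), (.rw 8, 1)])
(.cut 5 [(0, 1), (1, 1), (2, 1), (3, 1), (5, 1), (7, 1), (11, 1), (21, 1), (15, 1), (23, 1), (31, 1), (79, 1), (95, 1), (159, 1), (223, 1), (735, 1)]
(.lp [[5], [1, 3, 6, 8], [0, 2, 4, 7, 9, 10]] [(.mj 8 5, 1731), (.mj 8 10, 1731), (.mj 9 8, 3728), (.rw 8, 1), (.rw 9, 7)]))
(.ask 351
(.mark 351 [5, 7, 11]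
(.cut 5 [(0, 1), (1, 1), (2, 1), (3, 1), (5, 1), (7, 1), (11, 1), (21, 1), (15, 1), (23, 1), (31, 1), (79, 1), (95, 1), (159, 1), (223, 1), (735, 1)]
(.cut 5 [(0, 1), (1, 1), (2, 1), (3, 1), (5, 1), (7, 1), (11, 1), (21, 1), (15, 1), (23, 1), (31, 1), (79, 1), (95, 1), (159, 1), (351, 1)]
(.lp [[5], [1, 3, 6, 8, 11], [0, 2, 4, 7, 9, 10]] [(.mj 0 1, 377), (.mj 10 5, 8306), (.hz 19 159, 50510), (.rw 9, 5), (.rw 10, 24)]))))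
(.cut 5 [(0, 1), (1, 1), (2, 1), (3, 1), (5, 1), (7, 1), (11, 1), (21, 1), (15, 1), (23, 1), (31, 1), (79, 1), (95, 1), (159, 1), (223, 1), (351, 1)]
(.cut 8 [(0, 1), (1, 1), (2, 1), (3, 1), (5, 1), (7, 1), (11, 1), (21, 1), (15, 1), (23, 1), (39, 1), (31, 1), (47, 1), (55, 1), (79, 1), (63, 1), (95, 1), (111, 1), (159, 1), (127, 1), (191, 1), (223, 1), (255, 1)]
(.lp [[5], [1, 3, 6, 8], [0, 2, 4, 7, 9, 10]] [(.mj 6 7, 13013), (.mj 10 5, 7038), (.mj 10 8, 1934), (.rw 9, 25), (.rw 10, 1)]))))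
.fin))
(.lp [[5], [1, 3, 6, 8], [0, 2, 4, 7, 9]] [(.mj 9 8, 1), (.rw 7, 1)]))
.fin))
(.spn
(.lp [[5], [0, 2, 4, 7], [1, 3, 6, 8]] [(.mj 5 8, 1), (.mj 7 5, 1)])
(.ask 39
(.mark 63 [6, 7, 9]
(.cut 5 [(0, 1), (1, 1), (2, 1), (3, 1), (5, 1), (7, 1), (11, 1), (21, 1), (15, 1), (23, 1), (31, 1), (79, 1), (95, 1), (159, 1)]
(.lp [[5, 9], [0, 2, 4, 7], [1, 3, 6, 8]] [(.mj 0 1, 223581), (.mj 8 5, 4108), (.hz 20 567, 6654189), (.hz 26 575, 2851795), (.hz 19 479, 1847917), (.rw 8, 8)])))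
(.ask 55
(.mark 63 [6, 7, 9]
(.cut 5 [(0, 1), (1, 1), (2, 1), (3, 1), (5, 1), (7, 1), (11, 1), (21, 1), (15, 1), (23, 1), (31, 1), (79, 1), (95, 1)]
(.cut 5 [(0, 1), (1, 1), (2, 1), (3, 1), (5, 1), (7, 1), (11, 1), (21, 1), (15, 1), (23, 1), (31, 1), (79, 1), (95, 1), (159, 1), (223, 1)]
(.lp [[5, 9], [0, 2, 4, 7], [1, 3, 6, 8]] [(.mj 0 1, 943459), (.mj 8 5, 19295), (.hz 20 567, 26644050), (.hz 26 575, 33142599), (.rw 8, 5), (.rw 9, 39)]))))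
(.cut 5 [(0, 1), (1, 1), (2, 1), (3, 1), (5, 1), (7, 1), (11, 1), (21, 1), (15, 1), (23, 1), (31, 1), (159, 1)]
(.lp [[5], [0, 2, 4, 7], [1, 3, 6, 8]] [(.mj 0 1, 223581), (.mj 8 5, 4108), (.hz 19 479, 1847917), (.rw 8, 8)]))))
.fin
.fin))

theorem run119 : run P3488 (leaf3 218 625) (cutRow P3488) [] t119 s119 = true := by
  decide +kernel

theorem bad119 : Bad P3488 s119 :=
  run_sound (leaf3_sound P3488 rfl rfl) (cutRow_sound P3488) (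
    fun _ h => absurd h List.not_mem_nil) t119 s119 run119

/-- the state above piece 15 of the tree -/
def s15 : St := ⟨[0, 0, 1, 1, 2, 7, 39], [15, 11, 13, 7, 5, 9, 3, 1, 0], [0, 1, 2, 3, 5],
  [],
  [⟨true, 1, 9, 7, 50⟩, ⟨true, 2, 11, 3, 50⟩, ⟨true, 2, 9, 9, 50⟩, ⟨true, 3, 3, 1, 5⟩, ⟨true, 4, 39, 1, 20⟩],
  [.spn 0 0 651200, .spn 1 1 140426, .spn 3 2 140426, .spn 7 3 62723, .spn 15 5 302400]⟩

/-- piece 15 of the tree -/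
noncomputable def t15 : WN.Tree :=
(.mark 39 [3, 4, 6]
(.ask 47
(.mark 47 [4, 6, 7]
(.spn
(.haz 7 111 6 25
(.haz 4 175 3 25
(.haz 4 111 3 25
(.haz 7 111 17 50
(.haz 7 63 17 50
(.maj 6 7
(.lp [[1, 4], [3, 7], [0, 2, 5, 6]] [(.mj 3 5, 202), (.mj 4 6, 410), (.mj 5 4, 606), (.mj 6 7, 519), (.hz 9 63, 222940), (.hz 7 111, 436), (.hz 8 111, 56385), (.hz 6 175, 73373)])
(.ask 103
(.mark 111 [4, 7, 8]
(.lp [[1, 4], [3, 7], [0, 2, 5, 6, 8]] [(.mj 3 5, 22), (.mj 4 7, 13), (.mj 5 4, 19), (.hz 7 111, 1117), (.hz 8 111, 981), (.hz 7 367, 3825), (.hz 8 367, 2712)]))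
(.ask 111
(.mark 111 [4, 7, 8]
(.ask 367
(.mark 367 [4, 7, 9]
(.lp [[1, 4], [3, 7], [0, 2, 5, 6, 8, 9]] [(.mj 4 7, 14), (.mj 5 4, 22), (.mj 7 6, 4), (.hz 8 111, 1117), (.hz 8 127, 429), (.hz 6 239, 811), (.hz 8 367, 1619), (.hz 8 879, 2453)]))
(.lp [[1, 4], [3, 7], [0, 2, 5, 6, 8]] [(.mj 4 7, 13), (.mj 5 4, 20), (.mj 7 6, 4), (.hz 8 111, 922), (.hz 8 127, 812), (.hz 8 367, 1397)])))
(.lp [[1, 4], [3, 7], [0, 2, 5, 6]] [(.mj 4 7, 4), (.mj 5 4, 6), (.mj 7 6, 1)]))))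
(.lp [[1, 4], [3, 7], [0, 2, 5, 6]] [(.mj 4 6, 10), (.mj 5 4, 16), (.hz 9 47, 1925), (.hz 7 111, 422), (.hz 8 111, 1393)]))
(.haz 6 63 3 10
(.lp [[1, 4], [3, 7], [0, 2, 5, 6]] [(.mj 3 5, 19), (.mj 4 6, 10), (.mj 5 4, 16), (.hz 8 47, 2197), (.hz 9 63, 10383), (.hz 5 111, 2733)])
(.lp [[1, 4], [3, 7], [0, 2, 5, 6]] [(.mj 3 5, 1), (.mj 5 4, 1), (.hz 9 47, 892), (.hz 8 47, 189), (.hz 7 111, 169)])))
(.lp [[1, 4], [3, 7], [0, 2, 5, 6]] [(.mj 3 5, 3), (.mj 4 6, 4), (.mj 4 7, 7), (.hz 7 2, 146), (.hz 7 3, 311), (.hz 7 7, 499), (.hz 7 11, 499), (.hz 7 15, 1427), (.hz 7 47, 1863), (.hz 4 103, 113), (.hz 5 111, 3579)]))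
(.lp [[1, 4], [3, 7], [0, 2, 5, 6]] [(.mj 3 5, 3), (.mj 4 6, 4), (.mj 4 7, 7), (.hz 6 2, 146), (.hz 6 3, 311), (.hz 6 7, 499), (.hz 6 11, 499), (.hz 6 15, 1427), (.hz 6 47, 1863), (.hz 4 103, 113), (.hz 5 111, 3579)]))
(.haz 7 111 3 25
(.lp [[1, 4], [3, 7], [0, 2, 5, 6]] [(.mj 4 6, 13), (.mj 5 4, 19), (.hz 5 47, 4087), (.hz 4 103, 535), (.hz 6 111, 3528)])
(.lp [[1, 4], [3, 7], [0, 2, 5, 6]] [(.mj 4 6, 2), (.mj 5 4, 3), (.hz 6 47, 568)])))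
(.maj 4 7
(.cut 4 [(0, 1), (1, 1), (2, 1), (3, 1), (5, 1), (9, 1), (7, 1), (11, 1), (13, 1), (15, 1), (39, 1), (47, 1)]
(.lp [[1, 4], [3, 7], [0, 2, 5, 6]] [(.mj 3 5, 1059), (.mj 6 4, 454), (.mj 6 7, 72), (.hz 4 175, 642613), (.rw 6, 1)]))
(.ask 103
(.mark 111 [4, 7, 8]
(.cut 4 [(0, 1), (1, 1), (2, 1), (3, 1), (5, 1), (9, 1), (7, 1), (11, 1), (13, 1), (15, 1), (39, 1), (47, 1), (103, 1), (359, 1)]
(.cut 4 [(0, 1), (1, 1), (2, 1), (3, 1), (5, 1), (9, 1), (7, 1), (11, 1), (13, 1), (15, 1), (39, 1)]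
(.cut 4 [(0, 1), (1, 1), (2, 1), (3, 1), (5, 1), (9, 1), (7, 1), (11, 1), (13, 1), (15, 1), (39, 1), (47, 1), (175, 1)]
(.lp [[1, 4], [3, 7], [0, 2, 5, 6, 8]] [(.mj 3 5, 667460), (.mj 6 7, 159700), (.mj 7 4, 311731), (.hz 4 103, 18387903), (.hz 3 359, 211500947), (.hz 4 359, 248233634), (.hz 4 367, 118664590), (.rw 6, 382), (.rw 7, 456), (.rw 8, 19)])))))
(.ask 111
(.mark 111 [4, 7, 8]
(.spn
(.con 4 7)
(.maj 4 8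
(.cut 4 [(0, 1), (1, 1), (2, 1), (3, 1), (5, 1), (9, 1), (7, 1), (11, 1), (13, 1), (15, 1), (39, 1), (47, 1), (103, 1), (111, 1)]
(.lp [[1, 4], [3, 7], [0, 2, 5, 6, 8]] [(.mj 3 5, 670), (.mj 6 7, 310), (.mj 7 4, 378), (.hz 4 367, 792842), (.rw 7, 1)]))
(.cut 4 [(0, 1), (1, 1), (2, 1), (3, 1), (5, 1), (9, 1), (7, 1), (11, 1), (13, 1), (15, 1), (39, 1), (47, 1), (103, 1)]
(.lp [[1, 4], [3, 7], [0, 2, 5, 6, 8]] [(.mj 3 5, 5500), (.mj 6 7, 871), (.mj 8 4, 2371), (.hz 4 103, 120478), (.rw 7, 7)])))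
(.cut 4 [(0, 1), (1, 1), (2, 1), (3, 1), (5, 1), (9, 1), (7, 1), (11, 1), (13, 1), (15, 1), (39, 1), (47, 1), (103, 1), (111, 1)]
(.lp [[1, 4], [3, 7], [0, 2, 5, 6, 8]] [(.mj 3 5, 3747), (.mj 8 4, 1615), (.mj 8 7, 593), (.hz 4 103, 82077), (.rw 7, 5)]))
.fin))
(.cut 4 [(0, 1), (1, 1), (2, 1), (3, 1), (5, 1), (9, 1), (7, 1), (11, 1), (13, 1), (15, 1), (39, 1), (47, 1), (175, 1)]
(.lp [[1, 4], [3, 7], [0, 2, 5, 6]] [(.mj 3 5, 36917), (.mj 6 7, 122695), (.mj 7 4, 77977), (.hz 4 175, 167212268), (.rw 6, 49)])))))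
(.ask 175
(.mark 175 [4, 6, 8]
(.spn
(.lp [[1, 4], [3, 7, 8], [0, 2, 5, 6]] [(.mj 7 4, 281), (.rw 6, 1)])
(.ask 431
(.maj 4 8
(.mark 431 [4, 6, 9]
(.cut 4 [(0, 1), (1, 1), (2, 1), (3, 1), (5, 1), (9, 1), (7, 1), (11, 1), (13, 1), (15, 1), (39, 1), (47, 1), (175, 1)]
(.lp [[1, 4], [2, 5, 6], [0, 3, 7, 8, 9]] [(.mj 4 8, 18), (.mj 6 4, 828), (.mj 6 8, 592), (.mj 7 6, 1479), (.hz 4 431, 1213992), (.hz 4 943, 284703), (.rw 7, 2)])))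
(.mark 431 [4, 6, 9]
(.cut 4 [(0, 1), (1, 1), (2, 1), (3, 1), (5, 1), (9, 1), (7, 1), (11, 1), (13, 1), (15, 1), (39, 1), (47, 1), (103, 1), (111, 1), (175, 1), (431, 1)]
(.cut 4 [(0, 1), (1, 1), (2, 1), (3, 1), (5, 1), (9, 1), (7, 1), (11, 1), (13, 1), (15, 1), (39, 1), (47, 1), (175, 1)]
(.lp [[1, 4], [2, 5, 6], [0, 3, 7, 8, 9]] [(.mj 6 4, 2501), (.mj 6 8, 9558), (.mj 7 6, 17069), (.mj 8 4, 7058), (.rw 7, 2), (.rw 8, 29)])))))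
(.cut 4 [(0, 1), (1, 1), (2, 1), (3, 1), (5, 1), (9, 1), (7, 1), (11, 1), (13, 1), (15, 1), (39, 1), (47, 1), (175, 1), (431, 1)]
(.lp [[1, 4], [3, 7, 8], [0, 2, 5, 6]] [(.mj 6 4, 341), (.mj 7 6, 876), (.rw 7, 1)])))
(.ask 431
(.mark 431 [4, 6, 9]
(.spn
(.lp [[1, 4], [2, 5, 6], [0, 3, 7, 8, 9]] [(.mj 8 4, 151), (.rw 7, 1)])
(.lp [[1, 4], [2, 5, 6], [0, 3, 7, 8, 9]] [(.mj 8 6, 995), (.rw 7, 2), (.hz 4 103, 392655), (.hz 4 111, 1787612), (.hz 4 239, 2601564)])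
(.haz 6 191 9 50
(.cut 4 [(0, 1), (1, 1), (2, 1), (5, 1), (9, 1), (13, 1)]
(.cut 4 [(0, 1), (1, 1), (2, 1), (3, 1), (5, 1), (9, 1), (13, 1)]
(.cut 4 [(0, 1), (1, 1), (2, 1), (3, 1), (5, 1), (9, 1), (7, 1), (11, 1), (13, 1)]
(.cut 4 [(0, 1), (1, 1), (2, 1), (3, 1), (5, 1), (9, 1), (7, 1), (11, 1), (13, 1), (15, 1), (39, 1)]
(.cut 4 [(0, 1), (1, 1), (2, 1), (3, 1), (5, 1), (9, 1), (7, 1), (11, 1), (13, 1), (15, 1), (39, 1), (47, 1)]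
(.lp [[1, 4], [2, 5, 6], [0, 3, 7, 8, 9]] [(.mj 9 4, 848620), (.mj 9 6, 96682), (.hz 3 119, 611985777), (.hz 5 191, 359230675), (.hz 5 447, 722684453), (.hz 4 943, 664691243), (.rw 8, 705), (.rw 9, 235), (.rw 10, 235), (.rw 11, 534), (.rw 12, 617)]))))))
(.cut 4 [(0, 1), (1, 1), (2, 1), (5, 1), (9, 1), (13, 1)]
(.cut 4 [(0, 1), (1, 1), (2, 1), (3, 1), (5, 1), (9, 1), (11, 1), (13, 1)]
(.cut 4 [(0, 1), (1, 1), (2, 1), (3, 1), (5, 1), (9, 1), (7, 1), (13, 1)]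
(.cut 4 [(0, 1), (1, 1), (2, 1), (3, 1), (5, 1), (9, 1), (7, 1), (11, 1), (13, 1), (15, 1), (39, 1)]
(.cut 4 [(0, 1), (1, 1), (2, 1), (3, 1), (5, 1), (9, 1), (7, 1), (11, 1), (13, 1), (15, 1), (39, 1), (47, 1)]
(.cut 4 [(0, 1), (1, 1), (2, 1), (3, 1), (5, 1), (9, 1), (7, 1), (11, 1), (13, 1), (15, 1), (39, 1), (47, 1), (175, 1)]
(.cut 6 [(0, 1), (1, 1), (2, 1), (3, 1), (5, 1), (9, 1), (18, 1), (7, 1), (11, 1), (13, 1), (19, 1), (15, 1), (23, 1), (27, 1), (39, 1), (31, 1), (47, 1), (55, 1), (63, 1), (175, 1), (191, 1)]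
(.lp [[1, 4], [2, 5, 6], [0, 3, 7, 8, 9]] [(.mj 9 4, 52392), (.hz 5 55, 3403275), (.hz 5 63, 5239180), (.hz 4 239, 24127802), (.hz 4 495, 43307941), (.rw 8, 40), (.rw 9, 13), (.rw 10, 13), (.rw 11, 23), (.rw 12, 27), (.rw 13, 61), (.rw 14, 6)])))))))))
.fin))
(.lp [[1, 4], [3, 7, 8], [0, 2, 5, 6]] [(.mj 8 6, 1), (.rw 6, 1)]))
.fin))
(.lp [[1, 4], [3, 7], [0, 2, 5, 6]] [(.mj 7 6, 177), (.rw 5, 1)]))
.fin))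
(.spn
(.lp [[3], [1, 4], [0, 2, 5, 6]] [(.mj 4 6, 2), (.mj 5 4, 3)])
(.cut 4 [(0, 1), (1, 1), (2, 1), (3, 1), (5, 1), (9, 1), (7, 1), (11, 1), (13, 1), (15, 1), (39, 1)]
(.lp [[3], [1, 4], [0, 2, 5, 6]] [(.mj 3 5, 1812), (.mj 6 4, 827), (.hz 4 103, 438535), (.rw 6, 1)]))
.fin
.fin)))

theorem run15 : run P3488 (leaf3 218 625) (cutRow P3488) [] t15 s15 = true := by
  decide +kernel

theorem bad15 : Bad P3488 s15 :=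
  run_sound (leaf3_sound P3488 rfl rfl) (cutRow_sound P3488) (
    fun _ h => absurd h List.not_mem_nil) t15 s15 run15

/-- the state above piece 243 of the tree -/
def s243 : St := ⟨[0, 0, 1, 3, 5, 15, 31, 31, 63, 95, 383], [639, 607, 383, 319, 127, 63, 47, 31, 23, 21, 15, 11, 7, 5, 3, 2, 1, 0], [0, 1, 2, 3, 4, 5, 6, 8, 9],
  [(4, 5)],
  [⟨true, 2, 3, 3, 10⟩, ⟨true, 1, 5, 2, 5⟩, ⟨true, 2, 3, 23, 50⟩, ⟨true, 1, 5, 12, 25⟩, ⟨true, 1, 21, 27, 50⟩, ⟨true, 4, 15, 9, 40⟩, ⟨true, 3, 23, 11, 20⟩, ⟨true, 4, 47, 7, 20⟩, ⟨true, 4, 47, 17, 40⟩, ⟨true, 4, 47, 9, 20⟩, ⟨true, 4, 47, 19, 40⟩, ⟨true, 5, 31, 3, 10⟩, ⟨true, 4, 47, 3, 5⟩, ⟨true, 4, 47, 5, 8⟩, ⟨true, 6, 159, 1, 10⟩, ⟨true, 6, 319, 1, 8⟩, ⟨true, 6, 319, 1, 5⟩, ⟨true, 8, 191, 1, 4⟩, ⟨true, 7, 383, 1, 20⟩, ⟨true, 8, 767, 2, 5⟩, ⟨true, 9, 1407, 9, 40⟩, ⟨true, 10,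 895, 1, 10⟩, ⟨true, 6, 159, 3, 10⟩, ⟨true, 6, 191, 2, 5⟩, ⟨true, 6, 447, 5, 8⟩, ⟨true, 7, 1919, 3, 40⟩, ⟨true, 8, 255, 9, 20⟩],
  [.spn 0 0 651200, .spn 1 1 302400, .spn 3 2 302400, .spn 7 3 302400, .spn 15 4 302400, .spn 31 5 140426, .spn 63 6 140426, .spn 127 8 140426, .spn 383 9 140426]⟩

/-- piece 243 of the tree -/
noncomputable def t243 : WN.Tree :=
(.ask 895
(.mark 895 [7, 10, 11]
(.spn
(.haz 10 895 8 25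
(.lp [[7], [1, 3, 5, 8, 10], [0, 2, 4, 6, 9, 11]] [(.mj 7 10, 10), (.mj 7 11, 2), (.mj 8 9, 6), (.mj 9 7, 10), (.hz 27 895, 6974), (.hz 27 1023, 9500), (.hz 27 2943, 22940)])
(.haz 11 1919 23 50
(.lp [[7], [1, 3, 5, 8, 10], [0, 2, 4, 6, 9, 11]] [(.mj 3 4, 356), (.mj 5 6, 18), (.mj 7 10, 6), (.mj 7 11, 29), (.mj 9 7, 29), (.hz 27 383, 34847), (.hz 24 447, 38689), (.hz 18 1407, 33094), (.hz 28 1919, 42280)])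
(.lp [[7], [1, 3, 5, 8, 10], [0, 2, 4, 6, 9, 11]] [(.mj 3 4, 31), (.mj 5 6, 1), (.mj 9 7, 1), (.hz 27 383, 1650), (.hz 24 447, 3422), (.hz 27 895, 5199), (.hz 28 895, 2600), (.hz 18 1407, 885)])))
(.haz 5 159 23 50
(.ask 1407
(.mark 1919 [7, 11, 12]
(.spn
(.haz 11 2047 8 25
(.lp [[7], [0, 2, 4, 6, 9, 11], [1, 3, 5, 8, 10, 12]] [(.mj 7 11, 236), (.mj 10 7, 3977), (.rw 10, 13), (.hz 18 5503, 5450701), (.hz 28 2047, 37724274), (.hz 25 6015, 5205174)])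
(.lp [[7], [0, 2, 4, 6, 9, 11], [1, 3, 5, 8, 10, 12]] [(.mj 9 10, 5287), (.mj 10 7, 2556), (.rw 10, 4), (.hz 28 895, 5607631), (.hz 28 1919, 4560298), (.hz 18 2943, 5511040), (.hz 25 6015, 15276898)]))
(.ask 5503
(.mark 6015 [7, 11, 13]
(.cut 7 [(0, 1), (1, 1), (2, 1), (3, 1), (5, 1), (7, 1), (11, 1), (21, 1), (15, 1), (23, 1), (31, 1), (47, 1), (63, 1), (95, 1), (127, 1), (319, 1), (607, 1), (383, 1), (639, 1), (895, 1), (1407, 1), (1919, 1), (5503, 1), (6015, 1)]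
(.lp [[7], [0, 2, 4, 6, 9, 11], [1, 3, 5, 8, 10, 12, 13]] [(.mj 5 6, 11635), (.mj 11 7, 10159), (.hz 25 1919, 11543582), (.hz 20 5503, 873349), (.hz 25 6015, 22620908), (.hz 18 13695, 11589418), (.hz 20 13695, 2142959), (.hz 25 14207, 28572791), (.rw 11, 31)])))
(.cut 7 [(0, 1), (1, 1), (2, 1), (3, 1), (5, 1), (7, 1), (11, 1), (21, 1), (15, 1), (23, 1), (31, 1), (47, 1), (63, 1), (95, 1), (127, 1), (319, 1), (607, 1), (383, 1), (639, 1), (895, 1), (1407, 1), (1919, 1)]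
(.lp [[7], [0, 2, 4, 6, 9, 11], [1, 3, 5, 8, 10, 12]] [(.mj 5 6, 1776), (.mj 11 7, 1310), (.hz 25 1919, 1338801), (.hz 20 5631, 774293), (.hz 25 6015, 2153284), (.rw 11, 4)])))
(.cut 7 [(0, 1), (1, 1), (2, 1), (3, 1), (5, 1), (7, 1), (11, 1), (21, 1), (15, 1), (23, 1), (31, 1), (47, 1), (63, 1), (95, 1), (127, 1), (319, 1), (607, 1), (383, 1), (639, 1), (895, 1), (1407, 1), (1919, 1)]
(.lp [[7], [0, 2, 4, 6, 9, 11], [1, 3, 5, 8, 10, 12]] [(.mj 9 10, 1603), (.mj 12 7, 2313), (.mj 12 11, 686), (.hz 21 2943, 6159122), (.hz 25 3967, 11331402), (.rw 11, 8)]))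
.fin))
(.maj 7 11
(.ask 1919
(.mark 1919 [7, 11, 12]
(.spn
(.haz 11 6015 9 50
(.lp [[7], [0, 2, 4, 6, 9, 11], [1, 3, 5, 8, 10, 12]] [(.mj 5 6, 165104), (.mj 7 11, 127574), (.mj 7 12, 93871), (.mj 10 7, 200803), (.rw 10, 41), (.hz 18 2943, 371832267), (.hz 25 3967, 378841188), (.hz 28 6015, 374377837)])
(.lp [[7], [0, 2, 4, 6, 9, 11], [1, 3, 5, 8, 10, 12]] [(.mj 5 6, 10), (.mj 7 12, 12), (.mj 10 7, 12), (.hz 28 895, 8564), (.hz 28 1919, 15893)]))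
(.con 11 7)
(.cut 7 [(0, 1), (1, 1), (2, 1), (3, 1), (5, 1), (7, 1), (11, 1), (21, 1), (15, 1), (23, 1), (31, 1), (47, 1), (63, 1), (95, 1), (127, 1), (319, 1), (607, 1), (383, 1), (639, 1), (895, 1), (1407, 1), (1919, 1)]
(.lp [[7], [0, 2, 4, 6, 9, 11], [1, 3, 5, 8, 10, 12]] [(.mj 12 7, 3566), (.rw 11, 13)]))
.fin))
(.lp [[7], [1, 3, 5, 8, 10], [0, 2, 4, 6, 9, 11]] [(.mj 7 11, 1), (.mj 10 7, 1)]))
(.cut 11 [(0, 1), (1, 1), (2, 1), (3, 1), (5, 1), (7, 1), (11, 1), (21, 1), (15, 1), (23, 1), (31, 1), (47, 1), (63, 1), (95, 1), (127, 1), (319, 1), (607, 1), (383, 1), (639, 1), (1407, 1)]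
(.cut 7 [(0, 1), (1, 1), (2, 1), (3, 1), (5, 1), (7, 1), (11, 1), (21, 1), (15, 1), (23, 1), (31, 1), (47, 1), (63, 1), (95, 1), (127, 1), (319, 1)]
(.cut 7 [(0, 1), (1, 1), (2, 1), (3, 1), (5, 1), (7, 1), (11, 1), (21, 1), (15, 1), (23, 1), (31, 1), (47, 1), (63, 1), (95, 1), (127, 1), (319, 1), (607, 1), (383, 1)]
(.cut 7 [(0, 1), (1, 1), (2, 1), (3, 1), (5, 1), (7, 1), (11, 1), (21, 1), (15, 1), (23, 1), (31, 1), (47, 1), (63, 1), (95, 1), (127, 1), (319, 1), (607, 1), (383, 1), (639, 1), (1407, 1)]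
(.lp [[7], [1, 3, 5, 8, 10], [0, 2, 4, 6, 9, 11]] [(.mj 5 6, 56320), (.mj 11 7, 19498), (.hz 25 1919, 8189932), (.rw 10, 1), (.rw 11, 34), (.rw 12, 9), (.rw 13, 26)])))))))
(.lp [[7], [1, 3, 5, 8, 10], [0, 2, 4, 6, 9, 11]] [(.mj 3 4, 2), (.hz 27 31, 39)]))
(.ask 1407
(.mark 1407 [7, 9, 12]
(.cut 7 [(0, 1), (1, 1), (2, 1), (3, 1), (5, 1), (7, 1), (11, 1), (21, 1), (15, 1), (23, 1), (31, 1), (47, 1), (63, 1), (95, 1), (127, 1), (319, 1), (607, 1), (383, 1), (639, 1), (895, 1)]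
(.lp [[7], [0, 2, 4, 6, 9, 11], [1, 3, 5, 8, 10, 12]] [(.mj 5 6, 71868), (.mj 11 7, 27177), (.mj 11 10, 5077), (.rw 9, 1), (.hz 20 1535, 75010022), (.hz 21 2943, 15288670), (.hz 18 5503, 31423176), (.hz 20 5503, 8376405), (.hz 25 6015, 60723165), (.rw 10, 88)])))
(.cut 7 [(0, 1), (1, 1), (2, 1), (3, 1), (5, 1), (7, 1), (11, 1), (21, 1), (15, 1), (23, 1), (31, 1), (47, 1), (63, 1), (95, 1), (127, 1), (319, 1), (383, 1)]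
(.lp [[7], [1, 3, 5, 8, 10], [0, 2, 4, 6, 9, 11]] [(.mj 5 6, 857), (.mj 11 7, 339), (.mj 11 10, 48), (.hz 20 1535, 878695), (.hz 18 2943, 144520), (.rw 10, 1)])))
.fin))
(.spn
(.lp [[7], [0, 2, 4, 6, 9], [1, 3, 5, 8, 10]] [(.mj 7 10, 2), (.mj 9 7, 3)])
(.ask 1407
(.mark 1407 [7, 9, 11]
(.ask 1919
(.mark 1919 [7, 11, 12]
(.spn
(.lp [[7], [0, 2, 4, 6, 9, 12], [1, 3, 5, 8, 10, 11]] [(.mj 7 12, 204), (.mj 9 10, 1214), (.mj 10 7, 628), (.rw 10, 1)])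
(.lp [[7], [0, 2, 4, 6, 9, 12], [1, 3, 5, 8, 10, 11]] [(.mj 9 10, 3), (.mj 11 7, 2), (.hz 25 1919, 9440), (.hz 25 3967, 7612), (.hz 25 6015, 6164)])
(.cut 7 [(0, 1), (1, 1), (2, 1), (3, 1), (5, 1), (7, 1), (11, 1), (21, 1), (15, 1), (23, 1), (31, 1), (47, 1), (63, 1), (95, 1), (127, 1), (319, 1), (607, 1), (383, 1), (639, 1), (895, 1), (1407, 1), (1919, 1)]
(.lp [[7], [0, 2, 4, 6, 9, 12], [1, 3, 5, 8, 10, 11]] [(.mj 9 10, 957), (.mj 12 7, 552), (.rw 11, 2)]))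
.fin))
(.lp [[7], [0, 2, 4, 6, 9], [1, 3, 5, 8, 10, 11]] [(.mj 9 10, 3), (.mj 10 7, 2), (.hz 18 1407, 8773)])))
(.ask 1919
(.haz 5 159 9 20
(.ask 1919
(.mark 1919 [7, 11, 12]
(.spn
(.haz 12 3967 1 4
(.lp [[7], [0, 2, 4, 6, 9, 11], [1, 3, 5, 8, 10, 12]] [(.mj 7 11, 13), (.mj 10 7, 21), (.mj 11 12, 11), (.hz 28 3967, 210414), (.hz 25 6015, 105848)])
(.lp [[7], [0, 2, 4, 6, 9, 11], [1, 3, 5, 8, 10, 12]] [(.mj 7 11, 1), (.mj 10 7, 1), (.hz 28 1919, 19142)]))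
(.cut 7 [(0, 1), (1, 1), (2, 1), (3, 1), (5, 1), (7, 1), (11, 1), (21, 1), (15, 1), (23, 1), (31, 1), (47, 1), (63, 1), (95, 1)]
(.cut 7 [(0, 1), (1, 1), (2, 1), (3, 1), (5, 1), (7, 1), (11, 1), (21, 1), (15, 1), (23, 1), (31, 1), (47, 1), (63, 1), (95, 1), (127, 1), (319, 1)]
(.cut 7 [(0, 1), (1, 1), (2, 1), (3, 1), (5, 1), (7, 1), (11, 1), (21, 1), (15, 1), (23, 1), (31, 1), (47, 1), (63, 1), (95, 1), (127, 1), (319, 1), (607, 1), (383, 1), (639, 1), (895, 1), (1407, 1), (1919, 1)]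
(.lp [[7], [0, 2, 4, 6, 9, 11], [1, 3, 5, 8, 10, 12]] [(.mj 11 7, 8024), (.rw 11, 13), (.rw 12, 2), (.rw 13, 14)]))))
(.con 12 11)
.fin))
(.spn
(.lp [[7], [1, 3, 5, 8, 10], [0, 2, 4, 6, 9, 11]] [(.mj 7 11, 1), (.mj 10 7, 1)])
(.cut 7 [(0, 1), (1, 1), (2, 1), (3, 1), (5, 1), (7, 1), (11, 1), (21, 1), (15, 1), (23, 1), (31, 1), (47, 1), (63, 1), (95, 1), (127, 1), (319, 1), (607, 1), (383, 1), (639, 1), (895, 1), (1407, 1), (1919, 1)]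
(.lp [[7], [1, 3, 5, 8, 10], [0, 2, 4, 6, 9, 11]] [(.rw 10, 5), (.rw 11, 29)]))
.fin
.fin))
(.lp [[7], [1, 3, 5, 8, 10], [0, 2, 4, 6, 9, 11]] [(.mj 3 4, 1), (.hz 27 31, 50)]))
(.lp [[7], [0, 2, 4, 6, 9], [1, 3, 5, 8, 10]] [(.mj 10 7, 1)])))
.fin
.fin))

theorem run243 : run P3488 (leaf3 218 625) (cutRow P3488) [] t243 s243 = true := by
  decide +kernel

theorem bad243 : Bad P3488 s243 :=
  run_sound (leaf3_sound P3488 rfl rfl) (cutRow_sound P3488) (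
    fun _ h => absurd h List.not_mem_nil) t243 s243 run243

/-- the state above piece 21 of the tree -/
def s21 : St := ⟨[0, 0, 1, 1, 3, 7, 9, 39], [47, 15, 7, 5, 3, 2, 1, 0], [0, 1, 2, 3, 5, 7],
  [],
  [⟨true, 1, 9, 7, 50⟩, ⟨true, 2, 11, 3, 50⟩, ⟨true, 2, 9, 9, 50⟩, ⟨true, 3, 3, 1, 5⟩, ⟨true, 1, 5, 13, 50⟩, ⟨true, 5, 23, 3, 10⟩],
  [.spn 0 0 651200, .spn 1 1 140426, .spn 3 2 140426, .spn 7 3 62723, .spn 15 5 140426, .spn 47 7 140426]⟩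

/-- piece 21 of the tree -/
noncomputable def t21 : WN.Tree :=
(.haz 4 7 3 20
(.lp [[1, 4], [3, 6], [0, 2, 5, 7]] [(.mj 1 2, 4), (.mj 2 3, 19), (.mj 3 5, 12), (.mj 7 4, 19), (.hz 6 7, 117), (.hz 6 15, 6423), (.hz 6 39, 3570), (.hz 4 77, 421), (.hz 6 47, 6249), (.hz 6 79, 13716), (.hz 6 167, 38), (.hz 6 111, 250)])
(.haz 5 23 21 50
(.haz 5 23 12 25
(.haz 2 19 12 25
(.haz 3 19 11 50
(.haz 2 19 27 50
(.haz 6 31 1 25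
(.haz 7 55 8 25
(.ask 167
(.mark 175 [4, 6, 8]
(.spn
(.ask 19
(.mark 191 [6, 8, 9]
(.lp [[3, 6], [1, 4, 9], [0, 2, 5, 7, 8]] [(.mj 2 3, 2451), (.mj 3 5, 2773), (.mj 4 6, 304), (.mj 7 4, 209), (.mj 7 6, 89), (.rw 6, 1), (.hz 6 3, 38725), (.hz 10 19, 4545), (.hz 11 531, 56217), (.hz 8 535, 648683)]))
(.ask 23
(.mark 191 [6, 8, 9]
(.lp [[3, 6], [1, 4, 9], [0, 2, 5, 7, 8]] [(.mj 2 3, 2107), (.mj 3 5, 2535), (.mj 4 6, 140), (.mj 7 4, 104), (.mj 7 6, 216), (.rw 6, 1), (.hz 6 7, 95461), (.hz 8 535, 701825), (.hz 8 543, 11142)]))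
(.cut 6 [(0, 1), (1, 1), (2, 1), (3, 1), (5, 1), (9, 1), (7, 1), (11, 1), (13, 1), (19, 1), (15, 1), (23, 1), (39, 1), (47, 1), (55, 1), (167, 1), (175, 1), (183, 1), (423, 1)]
(.lp [[1, 4], [3, 6], [0, 2, 5, 7, 8]] [(.mj 2 3, 433985), (.mj 3 5, 350234), (.mj 4 6, 28129), (.mj 4 8, 14693), (.mj 7 4, 54311), (.rw 6, 13), (.hz 8 23, 13118272), (.hz 8 31, 15131887), (.hz 12 31, 8870040), (.rw 7, 39)]))))
(.haz 4 47 2 25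
(.lp [[1, 4], [3, 6], [0, 2, 5, 7, 8]] [(.mj 7 6, 12720), (.rw 6, 20), (.hz 14 111, 36293090)])
(.cut 4 [(0, 1), (1, 1), (2, 1), (3, 1), (5, 1), (9, 1), (7, 1), (11, 1), (13, 1), (73, 1), (15, 1), (39, 1), (77, 1), (47, 1), (167, 1), (175, 1)]
(.lp [[1, 4], [3, 6], [0, 2, 5, 7, 8]] [(.mj 1 2, 5274), (.mj 2 3, 15821), (.mj 3 5, 8522), (.mj 6 8, 1419), (.mj 7 6, 1198), (.rw 6, 1), (.hz 14 3, 528840), (.hz 14 7, 375370), (.hz 10 19, 114048), (.hz 8 23, 771236), (.rw 7, 4)])))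
(.ask 19
(.mark 191 [6, 8, 9]
(.lp [[3, 6], [1, 4, 9], [0, 2, 5, 7, 8]] [(.mj 2 3, 36), (.mj 3 5, 29), (.mj 8 4, 2), (.mj 8 6, 1), (.hz 11 19, 550), (.hz 10 19, 1206), (.hz 8 23, 1997), (.hz 8 535, 3811), (.hz 13 567, 1872)]))
(.ask 23
(.mark 63 [6, 7, 9]
(.lp [[3, 6], [1, 4, 9], [0, 2, 5, 7, 8]] [(.mj 2 3, 36), (.mj 3 5, 29), (.mj 8 4, 2), (.mj 8 6, 1), (.hz 8 23, 3432), (.hz 8 535, 2701), (.hz 13 567, 485)]))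
(.lp [[1, 4], [3, 6], [0, 2, 5, 7, 8]] [(.mj 2 3, 243), (.mj 3 5, 196), (.mj 8 4, 14), (.mj 8 6, 8), (.hz 8 23, 21045), (.hz 12 31, 35109), (.hz 13 55, 3753), (.hz 12 63, 16029), (.hz 13 63, 2248)])))
.fin))
(.ask 175
(.mark 175 [4, 6, 8]
(.spn
(.haz 8 239 9 25
(.haz 6 175 3 25
(.lp [[1, 4], [3, 6], [0, 2, 5, 7, 8]] [(.mj 2 3, 20), (.mj 3 5, 22), (.mj 4 6, 65), (.mj 4 8, 41), (.mj 7 4, 76), (.hz 10 19, 622), (.hz 15 175, 749), (.hz 15 191, 100378), (.hz 15 431, 63939)])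
(.lp [[1, 4], [3, 6], [0, 2, 5, 7, 8]] [(.mj 2 3, 1), (.mj 3 5, 4), (.mj 4 8, 5), (.mj 7 4, 6), (.hz 15 9, 136), (.hz 15 11, 427), (.hz 15 13, 321), (.hz 15 15, 1349), (.hz 12 31, 2845), (.hz 15 47, 1661), (.hz 12 63, 4818), (.hz 14 239, 4924)]))
(.lp [[1, 4], [3, 6], [0, 2, 5, 7, 8]] [(.mj 2 3, 1), (.mj 3 5, 4), (.mj 4 6, 5), (.mj 7 4, 6), (.hz 14 175, 2132)]))
(.ask 431
(.mark 431 [4, 6, 9]
(.cut 4 [(0, 1), (1, 1), (2, 1), (3, 1), (5, 1), (9, 1), (7, 1), (11, 1), (13, 1), (73, 1), (15, 1), (39, 1), (77, 1), (47, 1), (167, 1)]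
(.cut 4 [(0, 1), (1, 1), (2, 1), (3, 1), (5, 1), (9, 1), (7, 1), (11, 1), (13, 1), (73, 1), (15, 1), (39, 1), (77, 1), (47, 1), (167, 1), (175, 1)]
(.cut 4 [(0, 1), (1, 1), (2, 1), (3, 1), (5, 1), (9, 1), (7, 1), (11, 1), (13, 1), (73, 1), (15, 1), (39, 1), (77, 1), (47, 1), (167, 1), (175, 1), (431, 1)]
(.lp [[1, 4], [3, 6], [0, 2, 5, 7, 8, 9]] [(.mj 2 3, 1300150), (.mj 3 5, 157765), (.mj 6 4, 99819), (.mj 6 8, 25187), (.rw 6, 279), (.hz 10 19, 74975717), (.hz 10 23, 28562178), (.hz 10 55, 25642495), (.rw 7, 57), (.rw 8, 132), (.rw 9, 62)])))))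
(.cut 4 [(0, 1), (1, 1), (2, 1), (3, 1), (5, 1), (9, 1), (7, 1), (11, 1), (13, 1), (73, 1), (15, 1), (39, 1), (75, 1), (77, 1), (47, 1), (79, 1), (167, 1), (111, 1), (175, 1)]
(.lp [[1, 4], [3, 6], [0, 2, 5, 7, 8]] [(.mj 2 3, 17474), (.mj 3 5, 2132), (.mj 6 4, 2714), (.mj 6 8, 24), (.hz 10 19, 999210), (.hz 10 23, 422319), (.hz 12 31, 2450031), (.hz 10 55, 373318), (.rw 7, 1)])))
(.ask 431
(.mark 431 [4, 6, 9]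
(.spn
(.lp [[1, 4], [3, 6], [0, 2, 5, 7, 8, 9]] [(.mj 8 4, 167), (.rw 7, 1)])
(.lp [[1, 4], [3, 6], [0, 2, 5, 7, 8, 9]] [(.mj 8 6, 578), (.rw 7, 1)])
(.maj 4 6
(.cut 4 [(0, 1), (1, 1), (2, 1), (3, 1), (5, 1), (9, 1), (7, 1), (11, 1), (13, 1), (15, 1), (39, 1), (47, 1), (167, 1), (175, 1), (431, 1)]
(.lp [[1, 4], [3, 6], [0, 2, 5, 7, 8, 9]] [(.mj 2 3, 3099), (.mj 3 5, 3443), (.mj 9 4, 2066), (.hz 12 31, 2259792), (.hz 12 63, 3528683), (.hz 12 191, 6383875), (.hz 12 447, 8371616), (.hz 12 959, 206610), (.rw 8, 10)]))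
(.ask 943
(.mark 943 [4, 6, 10]
(.spn
(.con 4 6)
(.lp [[1, 4], [3, 6], [0, 2, 5, 7, 8, 9, 10]] [(.mj 9 6, 236), (.rw 8, 1)])
(.cut 4 [(0, 1), (1, 1), (2, 1), (3, 1), (5, 1), (9, 1), (7, 1), (11, 1), (13, 1), (73, 1), (15, 1), (39, 1), (75, 1), (77, 1), (47, 1), (79, 2), (167, 1), (111, 1), (175, 1), (239, 1)]
(.cut 6 [(0, 1), (1, 1), (2, 1), (3, 1), (5, 1), (9, 1), (7, 1), (11, 1), (13, 1), (15, 1), (39, 1), (47, 1), (167, 1), (175, 1)]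
(.cut 4 [(0, 1), (1, 1), (2, 1), (3, 1), (5, 1), (9, 1), (7, 1), (11, 1), (13, 1), (73, 1), (15, 1), (39, 1), (75, 2), (77, 1), (47, 1), (79, 1), (167, 1), (111, 1), (175, 1), (239, 1)]
(.cut 6 [(0, 1), (1, 1), (2, 1), (3, 1), (5, 1), (9, 1), (7, 1), (11, 1), (13, 1), (15, 1), (39, 1), (47, 1), (167, 1), (175, 1), (431, 1)]
(.lp [[1, 4], [3, 6], [0, 2, 5, 7, 8, 9, 10]] [(.mj 1 2, 3703), (.mj 2 3, 11110), (.mj 3 5, 43822), (.mj 10 6, 22614), (.rw 8, 3), (.hz 11 19, 857289), (.hz 8 23, 8571711), (.hz 8 31, 976349), (.hz 12 31, 18560286), (.hz 12 63, 32515854), (.rw 9, 1), (.rw 10, 53), (.rw 11, 8), (.rw 12, 17)])))))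
.fin))
(.lp [[1, 4], [3, 6], [0, 2, 5, 7, 8, 9]] [(.mj 9 6, 1), (.rw 7, 1)])))
.fin))
(.lp [[1, 4], [3, 6], [0, 2, 5, 7, 8]] [(.mj 8 6, 1), (.rw 6, 1)]))
.fin))
(.lp [[1, 4], [3, 6], [0, 2, 5, 7]] [(.mj 2 3, 26), (.mj 3 5, 7), (.mj 7 4, 2), (.hz 6 7, 1156), (.hz 10 19, 1191)])))
(.cut 4 [(0, 1), (1, 1), (2, 1), (3, 1), (5, 1), (9, 1), (7, 1), (11, 1), (13, 1), (73, 1), (15, 1), (39, 1), (75, 1), (77, 1), (47, 1), (79, 1)]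
(.lp [[1, 4], [3, 6], [0, 2, 5, 7]] [(.mj 2 3, 11825), (.mj 3 5, 4036), (.mj 7 4, 1380), (.hz 6 7, 463265), (.hz 10 19, 581580), (.hz 13 39, 1278605), (.hz 12 31, 1939571), (.rw 6, 1)])))
(.cut 4 [(0, 1), (1, 1), (2, 1), (3, 1), (5, 1), (9, 1), (7, 1), (11, 1), (13, 1), (73, 1), (15, 1), (39, 1), (77, 1), (47, 1)]
(.lp [[1, 4], [3, 6], [0, 2, 5, 7]] [(.mj 2 3, 3198), (.mj 3 5, 15373), (.mj 7 4, 2096), (.hz 12 9, 434370), (.hz 11 19, 236047), (.hz 12 13, 124415), (.hz 12 15, 1700835), (.hz 8 23, 3462821), (.rw 6, 1)])))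
(.lp [[1, 4], [3, 6], [0, 2, 5, 7]] [(.mj 2 3, 4), (.hz 11 3, 193), (.hz 6 3, 378), (.hz 9 19, 16), (.hz 10 19, 50), (.hz 2 73, 23)]))
(.lp [[1, 4], [3, 6], [0, 2, 5, 7]] [(.mj 3 5, 8), (.hz 10 1, 55), (.hz 10 3, 456), (.hz 6 3, 412), (.hz 3 19, 2158), (.hz 8 23, 1065), (.hz 4 77, 158)]))
(.lp [[1, 4], [3, 6], [0, 2, 5, 7]] [(.mj 2 3, 1), (.hz 9 3, 95), (.hz 6 3, 92), (.hz 3 19, 168)]))
(.lp [[1, 4], [3, 6], [0, 2, 5, 7]] [(.mj 2 3, 18), (.mj 7 4, 2), (.hz 6 3, 22), (.hz 6 7, 1871), (.hz 8 7, 2378), (.hz 3 19, 6118), (.hz 7 23, 310)]))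
(.lp [[1, 4], [3, 6], [0, 2, 5, 7]] [(.mj 2 3, 1), (.hz 6 3, 16), (.hz 6 7, 113), (.hz 7 7, 57), (.hz 3 19, 186)])))

theorem run21 : run P3488 (leaf3 218 625) (cutRow P3488) [] t21 s21 = true := by
  decide +kernel

theorem bad21 : Bad P3488 s21 :=
  run_sound (leaf3_sound P3488 rfl rfl) (cutRow_sound P3488) (
    fun _ h => absurd h List.not_mem_nil) t21 s21 run21

/-- the state above piece 130 of the tree -/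
def s130 : St := ⟨[0, 0, 1, 3, 5, 11, 15, 21, 43], [31, 15, 11, 7, 5, 3, 2, 1, 0], [0, 1, 2, 3, 4, 5],
  [],
  [⟨true, 2, 3, 3, 10⟩, ⟨true, 1, 5, 2, 5⟩, ⟨true, 2, 3, 23, 50⟩, ⟨true, 1, 5, 12, 25⟩, ⟨true, 1, 21, 27, 50⟩, ⟨true, 4, 15, 9, 40⟩, ⟨true, 3, 23, 11, 20⟩, ⟨true, 4, 79, 7, 25⟩, ⟨true, 4, 79, 8, 25⟩, ⟨true, 7, 95, 9, 50⟩, ⟨true, 4, 79, 17, 50⟩, ⟨true, 4, 79, 9, 25⟩, ⟨true, 5, 95, 9, 50⟩, ⟨true, 5, 95, 13, 50⟩],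
  [.spn 0 0 651200, .spn 1 1 302400, .spn 3 2 302400, .spn 7 3 302400, .spn 15 4 140426, .spn 31 5 140426]⟩

/-- piece 130 of the tree -/
noncomputable def t130 : WN.Tree :=
(.mark 63 [6, 7, 8]
(.spn
(.haz 7 63 13 50
(.haz 7 31 3 10
(.lp [[6], [0, 2, 4, 7], [1, 3, 5, 8]] [(.mj 0 1, 33), (.mj 4 5, 3), (.mj 5 6, 6), (.mj 6 7, 13), (.hz 4 149, 155), (.hz 15 31, 2513), (.hz 6 151, 342), (.hz 15 63, 11234), (.hz 15 95, 7294), (.hz 5 303, 1090), (.hz 15 319, 20213)])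
(.lp [[6], [0, 2, 4, 7], [1, 3, 5, 8]] [(.mj 0 1, 76), (.mj 5 6, 8), (.mj 6 7, 10), (.hz 15 21, 2052), (.hz 15 23, 2308), (.hz 14 63, 1130), (.hz 14 127, 1636), (.hz 14 319, 3163)]))
(.lp [[6], [0, 2, 4, 7], [1, 3, 5, 8]] [(.mj 0 1, 76), (.mj 5 6, 4), (.mj 6 7, 3), (.hz 14 21, 445), (.hz 14 23, 654), (.hz 14 31, 543), (.hz 13 95, 84), (.hz 9 95, 623)]))
(.haz 6 319 3 50
(.haz 5 79 1 5
(.haz 6 47 11 50
(.lp [[6], [0, 2, 4, 7], [1, 3, 5, 8]] [(.mj 0 1, 46), (.mj 4 5, 17), (.mj 5 7, 46), (.mj 7 6, 45), (.hz 4 149, 182), (.hz 16 47, 5223), (.hz 2 299, 756), (.hz 16 63, 7224), (.hz 16 303, 5052), (.hz 16 191, 10204), (.hz 16 319, 14034)])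
(.haz 7 95 6 25
(.haz 4 79 2 5
(.haz 7 95 7 25
(.ask 149
(.mark 191 [6, 8, 9]
(.spn
(.haz 8 191 3 10
(.lp [[6], [1, 3, 5, 8], [0, 2, 4, 7, 9]] [(.mj 5 7, 7714), (.mj 6 8, 8776), (.mj 6 9, 1061), (.mj 7 6, 8776), (.rw 6, 2), (.hz 20 191, 5038228), (.hz 20 255, 18648092), (.hz 20 703, 31420799), (.hz 14 959, 1164309)])
(.ask 79
(.mark 255 [8, 9, 10]
(.lp [[6, 10], [1, 3, 5, 8], [0, 2, 4, 7, 9]] [(.mj 0 1, 7770), (.mj 4 5, 1051), (.mj 5 7, 3371), (.mj 7 6, 926), (.rw 7, 1), (.hz 4 661, 26251), (.hz 20 63, 1615504), (.hz 18 1103, 735617), (.hz 20 191, 950296), (.hz 19 1119, 1530204)]))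
(.ask 95
(.mark 255 [8, 9, 10]
(.lp [[6, 10], [1, 3, 5, 8], [0, 2, 4, 7, 9]] [(.mj 0 1, 8316), (.mj 4 5, 1125), (.mj 5 7, 3607), (.mj 7 6, 1035), (.rw 7, 1), (.hz 4 661, 28094), (.hz 20 63, 1728892), (.hz 20 191, 1016996), (.hz 19 1119, 2168555)]))
(.ask 223
(.mark 255 [8, 9, 10]
(.lp [[6, 10], [1, 3, 5, 8], [0, 2, 4, 7, 9]] [(.mj 4 5, 12), (.mj 5 7, 10), (.mj 6 8, 1), (.mj 7 6, 1)]))
(.haz 6 319 4 25
(.ask 661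
(.mark 703 [6, 8, 10]
(.lp [[6], [1, 3, 5, 8], [0, 2, 4, 7, 9, 10]] [(.mj 3 4, 3), (.mj 4 5, 6), (.mj 5 7, 6), (.mj 6 8, 1), (.mj 7 6, 4), (.hz 20 63, 1570), (.hz 20 191, 2503), (.hz 21 319, 4124)]))
(.lp [[6], [1, 3, 5, 8], [0, 2, 4, 7, 9]] [(.mj 0 1, 533), (.mj 3 4, 162), (.mj 4 5, 21), (.mj 5 7, 6), (.mj 7 6, 14), (.hz 20 63, 3171), (.hz 20 191, 4970), (.hz 21 319, 12079)]))
(.lp [[6], [1, 3, 5, 8], [0, 2, 4, 7, 9]] [(.mj 0 1, 20), (.mj 3 4, 8), (.mj 4 5, 4), (.mj 5 7, 6), (.mj 6 8, 2), (.hz 21 47, 726), (.hz 21 63, 4156), (.hz 20 63, 4240)]))))))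
(.haz 6 47 9 50
(.lp [[6], [1, 3, 5, 8], [0, 2, 4, 7, 9]] [(.mj 4 5, 25), (.mj 5 7, 22), (.mj 8 6, 15), (.hz 20 47, 3858), (.hz 18 79, 10534), (.hz 20 63, 1873), (.hz 19 95, 12942), (.hz 20 303, 1281), (.hz 20 191, 5510), (.hz 20 319, 159), (.hz 20 703, 883)])
(.haz 9 223 9 50
(.haz 6 47 4 25
(.lp [[6], [1, 3, 5, 8], [0, 2, 4, 7, 9]] [(.mj 4 5, 36), (.mj 5 7, 31), (.mj 8 6, 21), (.hz 22 47, 10800), (.hz 18 79, 15322), (.hz 22 63, 4879), (.hz 19 95, 18824), (.hz 22 303, 3471), (.hz 22 191, 21693), (.hz 21 223, 5889), (.hz 21 255, 13047)])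
(.haz 5 79 17 50
(.haz 6 319 3 25
(.haz 3 663 3 5
(.haz 7 95 8 25
(.ask 79
(.mark 127 [7, 8, 10]
(.lp [[6, 10], [1, 3, 5, 8], [0, 2, 4, 7, 9]] [(.mj 0 1, 181), (.mj 3 4, 6), (.mj 4 5, 24), (.mj 5 7, 44), (.hz 4 661, 907), (.hz 26 95, 9857), (.hz 23 1103, 3055), (.hz 25 663, 18176), (.hz 24 319, 1329), (.hz 21 223, 2635), (.hz 26 1119, 31291)]))
(.ask 95
(.mark 223 [5, 9, 10]
(.lp [[6, 10], [1, 3, 5, 8], [0, 2, 4, 7, 9]] [(.mj 0 1, 2976), (.mj 3 4, 845), (.mj 4 5, 161), (.mj 5 7, 101), (.mj 7 8, 10), (.mj 8 6, 44), (.hz 4 661, 11511), (.hz 26 95, 103722), (.hz 25 663, 89920), (.hz 24 319, 24452), (.hz 21 255, 7320), (.hz 23 735, 19867)]))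
(.lp [[6], [1, 3, 5, 8], [0, 2, 4, 7, 9]] [(.mj 0 1, 435), (.mj 3 4, 154), (.mj 4 5, 33), (.mj 8 6, 8), (.hz 4 661, 1530), (.hz 25 663, 3791), (.hz 26 127, 7074), (.hz 24 319, 2627), (.hz 21 223, 2091), (.hz 21 255, 4769)])))
(.lp [[6], [1, 3, 5, 8], [0, 2, 4, 7, 9]] [(.mj 0 1, 33), (.mj 8 6, 1), (.hz 26 21, 442), (.hz 26 23, 117), (.hz 26 31, 2261), (.hz 23 79, 485), (.hz 19 95, 1108), (.hz 25 663, 3595), (.hz 19 127, 664), (.hz 24 319, 802), (.hz 21 223, 221)]))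
(.lp [[6], [1, 3, 5, 8], [0, 2, 4, 7, 9]] [(.mj 3 4, 10), (.mj 4 5, 6), (.hz 22 15, 546), (.hz 25 23, 4954), (.hz 18 79, 97), (.hz 23 79, 375), (.hz 25 151, 443)]))
(.lp [[6], [1, 3, 5, 8], [0, 2, 4, 7, 9]] [(.mj 0 1, 1154), (.mj 3 4, 376), (.mj 4 5, 65), (.hz 24 15, 10658), (.hz 24 31, 1504), (.hz 23 79, 3709), (.hz 4 661, 4178), (.hz 24 63, 3745), (.hz 19 95, 3745), (.hz 6 663, 4681), (.hz 14 319, 1766)]))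
(.lp [[6], [1, 3, 5, 8], [0, 2, 4, 7, 9]] [(.mj 0 1, 425), (.mj 3 4, 135), (.mj 8 6, 4), (.hz 23 15, 3389), (.hz 22 15, 6166), (.hz 4 661, 1434), (.hz 13 95, 901), (.hz 19 95, 3219), (.hz 14 319, 1971), (.hz 13 223, 1519), (.hz 21 223, 1269), (.hz 21 255, 2363)])))
(.lp [[6], [1, 3, 5, 8], [0, 2, 4, 7, 9]] [(.mj 0 1, 360), (.mj 3 4, 68), (.mj 5 7, 4), (.mj 8 6, 2), (.hz 20 15, 361), (.hz 21 149, 1211), (.hz 15 79, 3276), (.hz 21 151, 835), (.hz 21 159, 1954), (.hz 14 319, 2201)])))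
(.ask 79
(.mark 255 [8, 9, 10]
(.lp [[6, 10], [1, 3, 5, 8], [0, 2, 4, 7, 9]] [(.mj 0 1, 11370), (.mj 4 5, 498), (.mj 5 7, 4090), (.mj 9 6, 306), (.mj 9 8, 742), (.rw 6, 1), (.hz 4 661, 38413), (.hz 19 95, 2172114), (.hz 18 1103, 1399499), (.hz 14 319, 733140), (.hz 19 1119, 1709471), (.hz 19 383, 1671445)]))
(.lp [[6], [1, 3, 5, 8], [0, 2, 4, 7, 9]] [(.mj 0 1, 16985), (.mj 3 4, 9393), (.mj 4 5, 3353), (.mj 5 7, 2769), (.mj 9 6, 1733), (.mj 9 8, 1265), (.rw 6, 1), (.hz 19 95, 2100064), (.hz 19 127, 350516), (.hz 14 319, 2367364), (.hz 19 383, 5545688)]))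
.fin))
(.lp [[6], [0, 2, 4, 7], [1, 3, 5, 8]] [(.mj 0 1, 3083794), (.mj 3 4, 660112), (.mj 5 7, 55425), (.mj 7 6, 20324), (.hz 16 15, 4250574), (.hz 16 47, 115895), (.hz 18 79, 39698759), (.hz 19 95, 27528433), (.hz 14 319, 11983470)]))
(.lp [[6], [0, 2, 4, 7], [1, 3, 5, 8]] [(.mj 0 1, 58), (.mj 7 6, 3), (.hz 19 21, 742), (.hz 19 23, 1243), (.hz 19 31, 3209), (.hz 13 95, 751), (.hz 17 95, 1298), (.hz 14 319, 2527)]))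
(.lp [[6], [0, 2, 4, 7], [1, 3, 5, 8]] [(.mj 0 1, 1312), (.mj 4 5, 107), (.hz 18 5, 103137), (.hz 18 7, 43492), (.hz 18 15, 304816), (.hz 16 15, 17686), (.hz 11 79, 13399), (.hz 6 151, 16748)]))
(.lp [[6], [0, 2, 4, 7], [1, 3, 5, 8]] [(.mj 0 1, 26), (.mj 7 6, 1), (.hz 17 21, 323), (.hz 17 23, 524), (.hz 17 31, 1138), (.hz 13 95, 323), (.hz 9 95, 218)])))
(.lp [[6], [0, 2, 4, 7], [1, 3, 5, 8]] [(.mj 3 4, 4), (.mj 7 6, 2), (.hz 15 15, 4057), (.hz 11 79, 557), (.hz 2 299, 124), (.hz 13 95, 694)]))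
(.lp [[6], [0, 2, 4, 7], [1, 3, 5, 8]] [(.mj 0 1, 545), (.mj 3 4, 155), (.mj 4 5, 9), (.hz 14 15, 1928), (.hz 4 149, 2140), (.hz 11 79, 108), (.hz 9 95, 603)]))
(.ask 149
(.mark 159 [5, 6, 9]
(.cut 6 [(0, 1), (1, 1), (2, 1), (3, 1), (5, 1), (7, 1), (11, 1), (21, 1), (15, 1), (23, 1), (43, 1), (149, 1), (31, 1), (47, 1), (151, 1), (299, 1), (661, 1), (63, 1), (159, 1), (663, 1), (191, 1), (671, 2), (703, 1)]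
(.lp [[6], [1, 3, 5, 8], [0, 2, 4, 7, 9]] [(.mj 0 1, 64041), (.mj 8 7, 9657), (.hz 6 151, 4441516), (.hz 4 661, 413577), (.hz 13 95, 947699), (.hz 9 95, 1299484), (.hz 9 127, 6154453), (.hz 9 383, 641634), (.hz 13 735, 1833239), (.rw 7, 1)])))
(.lp [[6], [0, 2, 4, 7], [1, 3, 5, 8]] [(.mj 0 1, 15), (.mj 8 7, 2), (.hz 11 79, 10), (.hz 6 151, 266), (.hz 13 95, 197), (.hz 9 95, 330), (.hz 9 127, 1294)]))
.fin))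

theorem run130 : run P3488 (leaf3 218 625) (cutRow P3488) [] t130 s130 = true := by
  decide +kernel

theorem bad130 : Bad P3488 s130 :=
  run_sound (leaf3_sound P3488 rfl rfl) (cutRow_sound P3488) (
    fun _ h => absurd h List.not_mem_nil) t130 s130 run130

end Pool.Agent.WN.Data
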