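import Pool.Agent.WN.CutRow
import Pool.Agent.WN.LeafRow
import Pool.Agent.Helper99.WN.ParDef
import Pool.Agent.WN.Data.D16

/-!
# The search tree, part 21
-/

set_option autoImplicit false

namespace Pool.Agent.WN.Data

open Pool.Agent.W3 Pool.Agent.WN Pool.Agent.Helper99.WN

/-- the state above piece 169 of the tree -/
def s169 : St := ⟨[0, 0, 1, 3, 5, 15, 21, 31, 47, 159, 319, 703], [671, 447, 303, 191, 63, 31, 23, 21, 15, 11, 7, 5, 3, 2, 1, 0], [0, 1, 2, 3, 4, 5, 7, 8, 9],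
  [(5, 6), (4, 5)],
  [⟨true, 2, 3, 3, 10⟩, ⟨true, 1, 5, 2, 5⟩, ⟨true, 2, 3, 23, 50⟩, ⟨true, 1, 5, 12, 25⟩, ⟨true, 1, 21, 27, 50⟩, ⟨true, 4, 15, 9, 40⟩, ⟨true, 3, 23, 11, 20⟩, ⟨true, 4, 47, 7, 20⟩, ⟨true, 4, 47, 17, 40⟩, ⟨true, 4, 47, 9, 20⟩, ⟨true, 4, 47, 19, 40⟩, ⟨true, 3, 87, 27, 40⟩, ⟨true, 5, 95, 1, 4⟩, ⟨true, 5, 159, 1, 4⟩, ⟨true, 7, 127, 7, 40⟩, ⟨true, 7, 95, 1, 5⟩, ⟨true, 8, 127, 7, 40⟩, ⟨true, 4, 303, 1, 2⟩, ⟨true, 6, 447, 1, 20⟩, ⟨true, 8, 127, 7, 25⟩, ⟨true, 9, 1471, 7, 25⟩],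
  [.spn 0 0 651200, .spn 1 1 302400, .spn 3 2 302400, .spn 7 3 302400, .spn 15 4 302400, .spn 31 5 140426, .spn 63 7 140426, .spn 191 8 140426, .spn 447 9 140426]⟩

/-- piece 169 of the tree -/
noncomputable def t169 : WN.Tree :=
(.mark 959 [6, 10, 11]
(.spn
(.haz 10 959 8 25
(.lp [[6], [1, 3, 5, 8, 10], [0, 2, 4, 7, 9, 11]] [(.mj 6 10, 1528), (.mj 8 9, 1528), (.mj 9 6, 1528), (.rw 9, 1), (.hz 21 959, 1530594), (.hz 21 1023, 3055077), (.hz 21 3007, 4047977)])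
(.lp [[6], [1, 3, 5, 8, 10], [0, 2, 4, 7, 9, 11]] [(.mj 8 9, 16074), (.mj 9 6, 9290), (.rw 9, 14), (.hz 21 319, 5224515), (.hz 21 447, 12607860), (.hz 21 959, 9828853), (.hz 18 1471, 23794287), (.hz 18 3007, 73821047)]))
(.haz 11 1983 1 25
(.haz 11 959 3 25
(.ask 1343
(.mark 1983 [6, 11, 12]
(.spn
(.lp [[6], [0, 2, 4, 7, 9, 11], [1, 3, 5, 8, 10, 12]] [(.mj 6 11, 2851), (.mj 8 9, 998), (.mj 9 10, 6343), (.mj 10 6, 3849), (.rw 9, 2), (.rw 10, 6), (.hz 18 3007, 26210287), (.hz 18 5567, 69868005), (.hz 22 6079, 15322798)])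
(.cut 6 [(0, 1), (1, 1), (2, 1), (3, 1), (5, 1), (7, 1), (11, 1), (21, 1), (15, 1), (23, 1), (31, 1), (47, 1), (63, 1), (159, 1), (303, 1), (191, 1), (319, 1), (671, 1), (447, 1), (703, 1), (959, 1)]
(.cut 6 [(0, 1), (1, 1), (2, 1), (3, 1), (5, 1), (7, 1), (11, 1), (21, 1), (15, 1), (23, 1), (31, 1), (47, 1), (63, 1), (159, 1), (303, 1), (191, 1), (319, 1), (671, 1), (447, 1), (703, 1), (1343, 1), (959, 1), (1471, 1), (1983, 1)]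
(.lp [[6], [0, 2, 4, 7, 9, 11], [1, 3, 5, 8, 10, 12]] [(.mj 7 8, 5858), (.mj 8 9, 5885), (.mj 11 6, 4191), (.hz 18 5567, 886157), (.hz 18 6079, 27270015), (.rw 11, 10), (.rw 12, 4)])))
(.cut 6 [(0, 1), (1, 1), (2, 1), (3, 1), (5, 1), (7, 1), (11, 1), (21, 1), (15, 1), (23, 1), (31, 1), (47, 1), (63, 1), (159, 1), (303, 1), (191, 1), (319, 1), (671, 1), (447, 1), (703, 1), (959, 1)]
(.lp [[6], [0, 2, 4, 7, 9, 11], [1, 3, 5, 8, 10, 12]] [(.mj 9 10, 2394), (.mj 12 6, 1570), (.mj 12 11, 1570), (.rw 11, 4)]))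
.fin))
(.ask 1471
(.mark 1983 [6, 11, 12]
(.spn
(.lp [[6], [0, 2, 4, 7, 9, 11], [1, 3, 5, 8, 10, 12]] [(.mj 6 11, 520), (.mj 8 9, 1308), (.mj 9 10, 2208), (.mj 10 6, 2509), (.rw 10, 5), (.hz 18 3007, 34324805), (.hz 18 5567, 21722112), (.hz 22 6079, 2547587)])
(.cut 6 [(0, 1), (1, 1), (2, 1), (3, 1), (5, 1), (7, 1), (11, 1), (21, 1), (15, 1), (23, 1), (31, 1), (47, 1), (63, 1), (159, 1), (303, 1), (191, 1), (319, 1), (671, 1), (447, 1), (703, 1), (1343, 1), (959, 1), (1471, 1)]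
(.lp [[6], [0, 2, 4, 7, 9, 11], [1, 3, 5, 8, 10, 12]] [(.mj 0 1, 4319), (.mj 8 9, 700), (.mj 9 10, 548), (.mj 10 11, 390), (.mj 11 6, 2112), (.hz 18 5567, 1108348), (.hz 18 6079, 12937126), (.rw 11, 7)]))
(.cut 6 [(0, 1), (1, 1), (2, 1), (3, 1), (5, 1), (7, 1), (11, 1), (21, 1), (15, 1), (23, 1), (31, 1), (47, 1), (63, 1), (159, 1), (303, 1), (191, 1), (319, 1), (671, 1), (447, 1), (703, 1), (959, 1)]
(.lp [[6], [0, 2, 4, 7, 9, 11], [1, 3, 5, 8, 10, 12]] [(.mj 9 10, 2472), (.mj 12 6, 1539), (.mj 12 11, 1539), (.rw 11, 4)]))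
.fin))
(.ask 1983
(.mark 1983 [6, 11, 12]
(.spn
(.haz 11 6079 11 50
(.lp [[6], [0, 2, 4, 7, 9, 11], [1, 3, 5, 8, 10, 12]] [(.mj 6 11, 125), (.mj 6 12, 70), (.mj 7 8, 5), (.mj 8 9, 12), (.mj 9 10, 16), (.mj 10 6, 164), (.hz 22 1023, 915706), (.hz 18 3007, 253834), (.hz 23 6079, 421422), (.hz 18 8127, 1)])
(.lp [[6], [0, 2, 4, 7, 9, 11], [1, 3, 5, 8, 10, 12]] [(.mj 6 12, 7), (.mj 9 10, 5), (.mj 10 6, 8), (.hz 23 703, 3648), (.hz 23 959, 9481), (.hz 22 1023, 26150), (.hz 23 1983, 13800), (.hz 22 6079, 40577)]))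
(.cut 6 [(0, 1), (1, 1), (2, 1), (3, 1), (5, 1), (7, 1), (11, 1), (21, 1), (15, 1), (23, 1), (31, 1), (47, 1), (63, 1), (159, 1), (303, 1), (191, 1), (319, 1), (671, 1), (447, 1), (703, 1), (1343, 1), (959, 1), (1471, 1), (1983, 1)]
(.lp [[6], [0, 2, 4, 7, 9, 11], [1, 3, 5, 8, 10, 12]] [(.mj 8 9, 5677), (.mj 11 6, 2262), (.mj 11 12, 792), (.hz 18 6079, 10422486), (.rw 11, 8)]))
(.cut 6 [(0, 1), (1, 1), (2, 1), (3, 1), (5, 1), (7, 1), (11, 1), (21, 1), (15, 1), (23, 1), (31, 1), (47, 1), (63, 1), (159, 1), (303, 1), (191, 1), (319, 1), (671, 1), (447, 1), (703, 1), (1343, 1), (959, 1), (1471, 1), (1983, 1)]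
(.lp [[6], [0, 2, 4, 7, 9, 11], [1, 3, 5, 8, 10, 12]] [(.mj 8 9, 79), (.mj 9 10, 64), (.mj 12 6, 265), (.rw 11, 1)]))
.fin))
(.spn
(.lp [[6], [1, 3, 5, 8, 10], [0, 2, 4, 7, 9, 11]] [(.mj 6 11, 1), (.mj 10 6, 1)])
(.lp [[6], [1, 3, 5, 8, 10], [0, 2, 4, 7, 9, 11]] [(.mj 10 11, 8), (.mj 11 6, 5), (.hz 18 3007, 153547)])
.fin
.fin))))
(.cut 6 [(0, 1), (1, 1), (2, 1), (3, 1), (5, 1), (7, 1), (11, 1), (21, 1), (15, 1), (23, 1), (31, 1), (47, 1), (63, 1), (159, 1), (303, 1), (191, 1), (319, 1), (671, 1), (447, 1), (703, 1), (1343, 1)]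
(.cut 6 [(0, 1), (1, 1), (2, 1), (3, 1), (5, 1), (7, 1), (11, 1), (21, 1), (15, 1), (23, 1), (31, 1), (47, 1), (63, 1), (159, 1), (303, 1), (191, 1), (319, 1), (671, 1), (447, 1), (703, 1), (959, 1)]
(.cut 6 [(0, 1), (1, 1), (2, 1), (3, 1), (5, 1), (7, 1), (11, 1), (21, 1), (15, 1), (23, 1), (31, 1), (47, 1), (63, 1), (159, 1), (303, 1), (191, 1), (319, 1), (671, 1), (447, 1), (703, 1), (959, 1), (2751, 1), (3007, 1)]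
(.cut 6 [(0, 1), (1, 1), (2, 1), (3, 1), (5, 1), (7, 1), (11, 1), (21, 1), (15, 1), (23, 1), (31, 1), (47, 1), (63, 1), (159, 1), (303, 1), (191, 1), (671, 1), (703, 1), (2751, 1)]
(.lp [[6], [1, 3, 5, 8, 10], [0, 2, 4, 7, 9, 11]] [(.mj 7 8, 292659), (.mj 10 6, 123345), (.hz 22 703, 286994966), (.rw 10, 105), (.rw 11, 86), (.rw 12, 13), (.rw 13, 113)]))))))
(.cut 6 [(0, 1), (1, 1), (2, 1), (3, 1), (5, 1), (7, 1), (11, 1), (21, 1), (15, 1), (23, 1), (31, 1), (47, 1), (63, 1), (159, 1), (303, 1), (191, 1), (319, 1), (671, 1), (447, 1), (703, 1), (959, 1)]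
(.lp [[6], [1, 3, 5, 8, 10], [0, 2, 4, 7, 9, 11]] [(.mj 7 8, 1276), (.mj 9 10, 535), (.mj 10 6, 780), (.hz 21 703, 2629392), (.rw 10, 2)])))
(.cut 6 [(0, 1), (1, 1), (2, 1), (3, 1), (5, 1), (7, 1), (11, 1), (21, 1), (15, 1), (23, 1), (31, 1), (47, 1), (63, 1), (159, 1), (303, 1), (191, 1), (319, 1), (447, 1)]
(.lp [[6], [1, 3, 5, 8, 10], [0, 2, 4, 7, 9, 11]] [(.mj 7 8, 630), (.mj 8 9, 2690), (.mj 11 6, 1821), (.mj 11 10, 1191), (.hz 15 1407, 6858692), (.hz 18 1471, 61664), (.hz 20 1471, 1285329), (.hz 18 3007, 5565429), (.rw 10, 4)]))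
.fin))

theorem run169 : run P3488 (leaf3 218 625) (cutRow P3488) [] t169 s169 = true := by
  decide +kernel

theorem bad169 : Bad P3488 s169 :=
  run_sound (leaf3_sound P3488 rfl rfl) (cutRow_sound P3488) (
    fun _ h => absurd h List.not_mem_nil) t169 s169 run169

/-- the state above piece 12 of the tree -/
def s12 : St := ⟨[0, 0, 1, 1, 2, 7, 15, 39], [79, 47, 15, 11, 13, 7, 5, 9, 3, 1, 0], [0, 1, 2, 3, 5, 6],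
  [],
  [⟨true, 1, 9, 7, 50⟩, ⟨true, 2, 11, 3, 50⟩, ⟨true, 2, 9, 9, 50⟩, ⟨true, 3, 3, 1, 5⟩, ⟨true, 4, 39, 1, 20⟩, ⟨true, 5, 95, 3, 20⟩, ⟨true, 3, 167, 3, 10⟩],
  [.spn 0 0 651200, .spn 1 1 140426, .spn 3 2 140426, .spn 7 3 62723, .spn 15 5 140426, .spn 47 6 140426]⟩

/-- piece 12 of the tree -/
noncomputable def t12 : WN.Tree :=
(.haz 3 167 7 20
(.haz 6 175 3 10
(.ask 111
(.mark 111 [4, 7, 8]
(.spn
(.haz 7 111 1 4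
(.lp [[1, 4], [3, 6, 8], [0, 2, 5, 7]] [(.mj 2 3, 8), (.mj 4 7, 12), (.mj 4 8, 5), (.mj 6 4, 14), (.hz 7 167, 323), (.hz 4 167, 1253), (.hz 9 111, 5468), (.hz 9 127, 46119), (.hz 9 367, 58449)])
(.haz 8 239 2 5
(.lp [[1, 4], [3, 6, 8], [0, 2, 5, 7]] [(.mj 2 3, 22), (.mj 4 8, 24), (.mj 6 4, 29), (.hz 9 39, 15650), (.hz 9 47, 40303), (.hz 4 167, 2746), (.hz 9 111, 21592), (.hz 4 175, 22278), (.hz 10 239, 98280)])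
(.lp [[1, 4], [3, 6, 8], [0, 2, 5, 7]] [(.mj 2 3, 1), (.mj 6 4, 1), (.hz 9 39, 464), (.hz 9 47, 1019), (.hz 9 111, 3765), (.hz 10 111, 3012)])))
(.maj 4 8
(.haz 3 167 2 5
(.ask 167
(.mark 239 [4, 8, 9]
(.cut 4 [(0, 1), (1, 1), (2, 1), (3, 1), (5, 1), (9, 1), (7, 1), (11, 1), (13, 1), (15, 1), (39, 1), (47, 1), (79, 1), (167, 1), (111, 1), (175, 1)]
(.lp [[1, 4], [3, 6, 8], [0, 2, 5, 7, 9]] [(.mj 2 3, 89447), (.mj 4 8, 2681), (.mj 6 7, 39391), (.mj 7 4, 51918), (.mj 7 8, 412), (.hz 9 679, 11744033), (.hz 4 367, 132573510), (.hz 9 695, 84447539), (.rw 7, 122)])))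
(.ask 175
(.mark 239 [4, 8, 9]
(.cut 4 [(0, 1), (1, 1), (2, 1), (3, 1), (5, 1), (9, 1), (7, 1), (11, 1), (13, 1), (15, 1), (39, 1), (47, 1), (79, 1), (167, 1), (111, 1), (175, 1)]
(.lp [[1, 4], [3, 6, 8], [0, 2, 5, 7, 9]] [(.mj 2 3, 743), (.mj 4 8, 44), (.mj 6 7, 320), (.mj 7 4, 450), (.hz 4 367, 1103077), (.hz 4 687, 192620), (.rw 7, 1)])))
(.ask 239
(.mark 239 [4, 8, 9]
(.spn
(.haz 9 495 7 20
(.lp [[1, 4], [3, 6, 8], [0, 2, 5, 7, 9]] [(.mj 2 3, 8835), (.mj 4 8, 520), (.mj 4 9, 1564), (.mj 6 7, 1336), (.mj 7 4, 5344), (.rw 7, 8), (.hz 4 367, 13112861), (.hz 10 495, 3078232)])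
(.lp [[1, 4], [3, 6, 8], [0, 2, 5, 7, 9]] [(.mj 4 8, 4), (.mj 6 7, 3), (.mj 7 4, 4), (.hz 10 239, 4419)]))
(.con 8 4)
(.cut 4 [(0, 1), (1, 1), (2, 1), (3, 1), (5, 1), (9, 1), (7, 1), (11, 1), (13, 1), (15, 1), (39, 1), (47, 1), (79, 1), (167, 1), (111, 1)]
(.lp [[1, 4], [3, 6, 8], [0, 2, 5, 7, 9]] [(.mj 2 3, 16254), (.mj 6 7, 5070), (.mj 9 4, 6844), (.rw 7, 1), (.rw 8, 28)]))
.fin))
(.lp [[1, 4], [3, 6, 8], [0, 2, 5, 7]] [(.mj 4 8, 1), (.mj 7 4, 1)]))))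
(.lp [[1, 4], [3, 6, 8], [0, 2, 5, 7]] [(.mj 3 5, 11), (.mj 6 7, 17), (.mj 7 4, 15), (.hz 9 39, 47139), (.hz 3 55, 32408), (.hz 7 167, 9357), (.hz 4 167, 4762), (.hz 4 111, 8528), (.hz 4 175, 21613), (.hz 4 367, 8977)]))
(.ask 167
(.mark 239 [4, 8, 9]
(.spn
(.con 4 8)
(.ask 679
(.mark 687 [4, 6, 10]
(.cut 4 [(0, 1), (1, 1), (2, 1), (3, 1), (5, 1), (9, 1), (7, 1), (13, 1), (39, 1), (167, 1), (679, 1)]
(.cut 4 [(0, 1), (1, 1), (2, 1), (3, 1), (5, 1), (9, 1), (7, 1), (11, 1), (13, 1), (15, 1), (39, 1), (47, 1), (79, 1), (167, 1), (111, 1), (175, 1), (239, 1)]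
(.lp [[1, 4], [3, 6, 8], [0, 2, 5, 7, 9, 10]] [(.mj 2 3, 94633), (.mj 6 7, 29971), (.mj 7 8, 16733), (.mj 8 4, 50580), (.hz 7 679, 3314863), (.hz 4 679, 1835447), (.hz 4 687, 15845996), (.hz 7 1703, 1943280), (.hz 4 751, 79031871), (.hz 4 1711, 13475999), (.hz 8 1711, 11064462), (.hz 7 1719, 18136749), (.hz 4 1775, 110644619), (.rw 8, 74), (.rw 9, 90)]))))
(.cut 4 [(0, 1), (1, 1), (2, 1), (3, 1), (5, 1), (9, 1), (7, 1), (11, 1), (13, 1), (15, 1), (39, 1), (47, 1), (79, 1), (167, 1), (111, 1), (175, 1), (679, 1), (239, 1)]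
(.lp [[1, 4], [3, 6, 8], [0, 2, 5, 7, 9]] [(.mj 2 3, 614), (.mj 6 7, 159), (.mj 7 8, 84), (.mj 8 4, 311), (.hz 4 167, 40643), (.hz 4 751, 375825), (.rw 8, 1)])))
(.cut 8 [(0, 1), (1, 1), (2, 1), (3, 1), (5, 1), (9, 1), (7, 1), (11, 1), (13, 1), (15, 1), (39, 1), (47, 1), (79, 1), (167, 1), (111, 1), (175, 1), (679, 1), (687, 1)]
(.cut 4 [(0, 1), (1, 1), (2, 1), (3, 1), (5, 1), (9, 1), (7, 1), (11, 1), (13, 1), (15, 1), (39, 1), (47, 1), (79, 1), (167, 1), (111, 1), (175, 1)]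
(.lp [[1, 4], [3, 6, 8], [0, 2, 5, 7, 9]] [(.mj 2 3, 2474), (.mj 6 7, 6980), (.mj 9 4, 5119), (.mj 9 8, 4078), (.rw 8, 1), (.rw 9, 14)])))
.fin))
(.cut 4 [(0, 1), (1, 1), (2, 1), (3, 1), (5, 1), (9, 1), (7, 1), (13, 1), (39, 1), (167, 1)]
(.cut 4 [(0, 1), (1, 1), (2, 1), (3, 1), (5, 1), (9, 1), (7, 1), (11, 1), (13, 1), (15, 1), (39, 1), (47, 1), (79, 1), (167, 1), (111, 1)]
(.lp [[1, 4], [3, 6, 8], [0, 2, 5, 7]] [(.mj 2 3, 3853), (.mj 6 7, 638), (.mj 7 4, 58), (.mj 7 8, 116), (.mj 8 4, 1681), (.hz 4 239, 1382970), (.rw 7, 3), (.rw 8, 2)])))))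
(.ask 167
(.mark 239 [4, 8, 9]
(.cut 4 [(0, 1), (1, 1), (2, 1), (3, 1), (5, 1), (9, 1), (7, 1), (11, 1), (13, 1), (15, 1), (39, 1), (47, 1), (79, 1), (167, 1), (111, 1), (175, 1), (239, 1)]
(.cut 7 [(0, 1), (1, 1), (2, 1), (3, 1), (5, 1), (9, 1), (18, 1), (7, 1), (11, 1), (13, 1), (19, 1), (15, 1), (23, 1), (27, 1), (39, 1), (31, 1), (47, 1), (55, 1), (79, 1), (63, 1), (95, 1), (111, 1), (127, 1)]
(.lp [[1, 4], [3, 6, 8], [0, 2, 5, 7, 9]] [(.mj 2 3, 1318672), (.mj 8 4, 543827), (.mj 8 7, 42464), (.rw 6, 119), (.hz 7 167, 86197597), (.hz 7 183, 24162652), (.hz 8 687, 213225634), (.hz 7 695, 395570784), (.hz 8 703, 2675807252), (.rw 7, 2075), (.rw 8, 112)]))))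
(.cut 4 [(0, 1), (1, 1), (2, 1), (3, 1), (5, 1), (9, 1), (7, 1), (11, 1), (13, 1), (15, 1), (39, 1), (47, 1), (167, 1)]
(.lp [[1, 4], [3, 6, 8], [0, 2, 5, 7]] [(.mj 2 3, 16626), (.mj 8 4, 5875), (.mj 8 7, 437), (.rw 6, 1), (.hz 4 111, 1504020), (.hz 8 175, 2005822), (.hz 8 191, 14495857), (.rw 7, 18)])))
.fin))
(.spn
(.lp [[1, 4], [3, 6], [0, 2, 5, 7]] [(.mj 4 7, 2), (.mj 6 4, 3)])
(.cut 4 [(0, 1), (1, 1), (2, 1), (3, 1), (5, 1), (9, 1), (7, 1), (11, 1), (13, 1), (15, 1), (39, 1), (47, 1), (79, 1), (167, 1), (111, 1)]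
(.lp [[1, 4], [3, 6], [0, 2, 5, 7]] [(.mj 6 7, 2473), (.mj 7 4, 1188), (.hz 4 167, 859053), (.hz 4 175, 1998716), (.rw 7, 1)]))
.fin
.fin))
(.lp [[1, 4], [3, 6], [0, 2, 5, 7]] [(.mj 6 4, 1), (.mj 6 7, 1), (.hz 8 47, 1436), (.hz 4 167, 444), (.hz 4 175, 1861)]))
(.lp [[1, 4], [3, 6], [0, 2, 5, 7]] [(.mj 3 5, 8), (.mj 6 4, 25), (.mj 6 7, 24), (.hz 7 7, 2427), (.hz 7 39, 14089), (.hz 3 55, 62953), (.hz 6 167, 28098), (.hz 4 167, 9233), (.hz 4 175, 41560)]))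

theorem run12 : run P3488 (leaf3 218 625) (cutRow P3488) [] t12 s12 = true := by
  decide +kernel

theorem bad12 : Bad P3488 s12 :=
  run_sound (leaf3_sound P3488 rfl rfl) (cutRow_sound P3488) (
    fun _ h => absurd h List.not_mem_nil) t12 s12 run12

/-- the state above piece 184 of the tree -/
def s184 : St := ⟨[0, 0, 1, 3, 5, 15, 21, 47, 47, 127, 175, 639], [767, 255, 127, 95, 87, 85, 63, 31, 23, 21, 15, 11, 7, 5, 3, 2, 1, 0], [0, 1, 2, 3, 4, 5, 6, 7, 9, 10],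
  [(5, 6), (4, 5)],
  [⟨true, 2, 3, 3, 10⟩, ⟨true, 1, 5, 2, 5⟩, ⟨true, 2, 3, 23, 50⟩, ⟨true, 1, 5, 12, 25⟩, ⟨true, 1, 21, 27, 50⟩, ⟨true, 4, 15, 9, 40⟩, ⟨true, 3, 23, 11, 20⟩, ⟨true, 4, 47, 7, 20⟩, ⟨true, 4, 47, 17, 40⟩, ⟨true, 4, 47, 9, 20⟩, ⟨true, 4, 47, 19, 40⟩, ⟨true, 3, 87, 27, 40⟩, ⟨true, 5, 95, 1, 4⟩, ⟨true, 7, 383, 1, 20⟩, ⟨true, 6, 191, 11, 40⟩, ⟨true, 8, 255, 3, 40⟩, ⟨true, 7, 303, 3, 40⟩, ⟨true, 6, 319, 7, 20⟩, ⟨true, 7, 319, 7, 40⟩, ⟨true, 6, 319, 17, 40⟩, ⟨true, 6, 319, 23, 50⟩, ⟨true, 9, 383, 13, 50⟩, ⟨true, 9, 1279, 8, 25⟩],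
  [.spn 0 0 651200, .spn 1 1 302400, .spn 3 2 302400, .spn 7 3 302400, .spn 15 4 302400, .spn 31 5 302400, .spn 63 6 140426, .spn 127 7 140426, .spn 255 9 140426, .spn 767 10 140426]⟩

/-- piece 184 of the tree -/
noncomputable def t184 : WN.Tree :=
(.haz 7 319 13 50
(.haz 7 319 3 10
(.haz 9 383 9 25
(.haz 8 127 7 50
(.lp [[8], [1, 3, 5, 7, 10], [0, 2, 4, 6, 9, 11]] [(.mj 6 7, 3), (.mj 7 9, 1), (.mj 10 8, 4), (.hz 26 127, 688), (.hz 26 255, 4064), (.hz 26 639, 1424), (.hz 26 767, 3278), (.hz 26 1279, 2769), (.hz 26 2687, 2395), (.hz 26 2815, 943), (.hz 24 2943, 18702)])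
(.ask 1199
(.mark 1791 [8, 11, 12]
(.spn
(.lp [[8], [0, 2, 4, 6, 9, 11], [1, 3, 5, 7, 10, 12]] [(.mj 8 11, 1576), (.mj 9 10, 3057), (.mj 10 8, 1576), (.rw 9, 2), (.rw 10, 2), (.hz 15 2815, 3486340), (.hz 15 5375, 20545173)])
(.ask 303
(.mark 2047 [11, 12, 13]
(.cut 8 [(0, 1), (1, 1), (2, 1), (3, 1), (5, 1), (7, 1), (11, 1), (21, 1), (15, 1), (23, 1), (85, 1), (31, 1), (47, 1), (87, 1), (63, 1), (95, 1), (175, 1), (127, 1), (191, 1), (1199, 1), (255, 1), (639, 1), (1215, 1), (5295, 2), (767, 1), (1279, 1), (5311, 2), (5375, 1)]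
(.cut 8 [(0, 1), (1, 1), (2, 1), (3, 1), (5, 1), (7, 1), (11, 1), (21, 1), (15, 1), (23, 1), (85, 1), (31, 1), (47, 1), (87, 1), (63, 1), (95, 1), (175, 1), (127, 1), (191, 1), (255, 1), (639, 1), (767, 1)]
(.lp [[8, 13], [0, 2, 4, 6, 9, 11], [1, 3, 5, 7, 10, 12]] [(.mj 3 4, 53785), (.mj 6 7, 30260), (.mj 7 9, 574), (.mj 10 11, 8180), (.mj 11 8, 8145), (.hz 24 319, 46081379), (.hz 10 8495, 4207219), (.hz 24 8511, 66447860), (.hz 10 5295, 569913), (.hz 24 8575, 13900242), (.hz 10 5551, 644755), (.hz 15 5375, 17185024), (.hz 24 2943, 32958975), (.hz 15 5887, 15518858), (.rw 11, 1), (.rw 12, 15)]))))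
(.cut 8 [(0, 1), (1, 1), (2, 1), (3, 1), (5, 1), (7, 1), (11, 1), (21, 1), (15, 1), (23, 1), (85, 1), (31, 1), (47, 1), (87, 1), (63, 1), (95, 1), (175, 1), (127, 1), (191, 1), (1199, 1), (255, 1), (639, 1), (1215, 1), (767, 1), (1279, 1)]
(.lp [[8], [0, 2, 4, 6, 9, 11], [1, 3, 5, 7, 10, 12]] [(.mj 3 4, 4562), (.mj 6 7, 2058), (.mj 7 9, 145), (.mj 10 11, 324), (.mj 11 8, 600), (.hz 20 319, 45851), (.hz 24 319, 3712164), (.hz 10 5295, 86926), (.hz 10 5551, 126147), (.hz 15 2815, 626319), (.hz 15 5375, 329912), (.hz 24 2943, 1126769), (.hz 20 5567, 205719), (.hz 15 3839, 1), (.hz 15 5887, 2303241), (.rw 11, 1)])))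
(.lp [[8], [0, 2, 4, 6, 9, 11], [1, 3, 5, 7, 10, 12]] [(.mj 4 5, 579), (.mj 6 7, 547), (.mj 7 9, 777), (.mj 9 10, 1327), (.mj 12 8, 818), (.mj 12 11, 517), (.rw 9, 1), (.hz 20 319, 35601), (.hz 24 319, 813372), (.hz 25 383, 1123165), (.hz 25 511, 7008), (.hz 15 1279, 7131726), (.hz 15 2815, 4641359), (.hz 15 5375, 4967871), (.hz 15 3839, 9148867)])
.fin))
(.haz 7 319 8 25
(.haz 7 2687 8 25
(.haz 8 255 1 10
(.haz 8 127 3 25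
(.lp [[8], [1, 3, 5, 7, 10], [0, 2, 4, 6, 9, 11]] [(.mj 3 4, 67), (.mj 6 7, 75), (.mj 7 9, 18), (.mj 10 8, 86), (.hz 30 127, 32212), (.hz 30 255, 193889), (.hz 30 639, 66926), (.hz 30 767, 155649), (.hz 30 1279, 125419), (.hz 28 2687, 21309), (.hz 30 2687, 60050), (.hz 30 2815, 220897)])
(.ask 303
(.mark 1023 [10, 11, 12]
(.lp [[8, 12], [1, 3, 5, 7, 10], [0, 2, 4, 6, 9, 11]] [(.mj 3 4, 1408), (.mj 6 7, 498), (.mj 7 9, 44), (.mj 10 8, 20), (.hz 30 47, 74871), (.hz 27 319, 186851), (.hz 10 4399, 23097), (.hz 27 4415, 473472), (.hz 10 1455, 24029), (.hz 25 4479, 64644), (.hz 28 2687, 5003), (.hz 25 4607, 13665), (.hz 29 1791, 34162), (.hz 29 2815, 162176)]))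
(.ask 319
(.mark 1023 [10, 11, 12]
(.lp [[8, 12], [1, 3, 5, 7, 10], [0, 2, 4, 6, 9, 11]] [(.mj 3 4, 73), (.mj 6 7, 25), (.mj 7 9, 3), (.mj 10 8, 1), (.hz 30 63, 6242), (.hz 29 255, 8843), (.hz 27 4415, 23264), (.hz 10 1455, 4921), (.hz 29 767, 1146), (.hz 25 4479, 3530), (.hz 20 1471, 34), (.hz 29 2815, 1715), (.hz 27 2943, 1569)]))
(.lp [[8], [1, 3, 5, 7, 10], [0, 2, 4, 6, 9, 11]] [(.mj 3 4, 13819), (.mj 6 7, 2282), (.rw 4, 7), (.hz 30 127, 1083849)]))))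
(.lp [[8], [1, 3, 5, 7, 10], [0, 2, 4, 6, 9, 11]] [(.mj 3 4, 121), (.mj 6 7, 43), (.mj 7 9, 4), (.hz 29 47, 20457), (.hz 29 63, 2631), (.hz 29 175, 697), (.hz 29 127, 2800), (.hz 27 319, 26107), (.hz 25 383, 4750)]))
(.lp [[8], [1, 3, 5, 7, 10], [0, 2, 4, 6, 9, 11]] [(.mj 4 5, 4), (.mj 7 9, 7), (.hz 28 63, 1639), (.hz 26 63, 820), (.hz 28 127, 4829), (.hz 26 127, 955), (.hz 25 383, 8105)]))
(.lp [[8], [1, 3, 5, 7, 10], [0, 2, 4, 6, 9, 11]] [(.mj 3 4, 651), (.mj 7 9, 89), (.mj 10 8, 21), (.hz 26 47, 31633), (.hz 27 63, 212498), (.hz 26 63, 39344), (.hz 27 303, 74383), (.hz 24 319, 248590), (.hz 24 383, 41662), (.hz 25 383, 119033), (.hz 10 1455, 9374), (.hz 15 767, 21025), (.hz 20 1471, 2536), (.hz 15 2815, 42260)]))))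
(.lp [[8], [1, 3, 5, 7, 10], [0, 2, 4, 6, 9, 11]] [(.mj 4 5, 10), (.mj 6 7, 31), (.mj 10 8, 7), (.hz 25 127, 21640), (.hz 24 319, 113284), (.hz 21 383, 4077), (.hz 15 767, 4835), (.hz 15 1279, 18254), (.hz 15 2815, 16246)]))
(.cut 8 [(0, 1), (1, 1), (2, 1), (3, 1), (5, 1), (7, 1), (11, 1), (21, 1), (15, 1), (23, 1), (85, 1), (31, 1), (47, 1), (87, 1), (63, 1), (95, 1), (175, 1), (127, 1), (191, 1), (1199, 2), (255, 1), (639, 1), (1215, 1), (767, 1), (1279, 1)]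
(.cut 8 [(0, 1), (1, 1), (2, 1), (3, 1), (5, 1), (7, 1), (11, 1), (21, 1), (15, 1), (23, 1), (85, 1), (31, 1), (47, 1), (87, 1), (63, 1), (95, 1), (175, 1), (127, 1), (191, 1), (255, 1), (639, 1)]
(.lp [[8], [1, 3, 5, 7, 10], [0, 2, 4, 6, 9, 11]] [(.mj 3 4, 2593), (.mj 7 9, 14524), (.mj 10 8, 9541), (.mj 10 11, 369), (.hz 24 47, 658574), (.hz 24 63, 41269207), (.hz 20 319, 1418475), (.hz 23 319, 6241883), (.hz 10 1199, 1222671), (.hz 23 383, 916778), (.hz 21 383, 11742974), (.hz 10 1455, 1279718), (.hz 15 2815, 19192355), (.rw 10, 1), (.rw 11, 5)]))))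
(.lp [[8], [1, 3, 5, 7, 10], [0, 2, 4, 6, 9, 11]] [(.mj 3 4, 1), (.mj 7 9, 13), (.mj 10 8, 8), (.hz 23 63, 6746), (.hz 20 319, 1756), (.hz 18 319, 6318), (.hz 10 1199, 1362), (.hz 18 383, 4376), (.hz 21 383, 10371), (.hz 15 767, 8648), (.hz 15 1279, 3554), (.hz 15 2815, 14098)]))

theorem run184 : run P3488 (leaf3 218 625) (cutRow P3488) [] t184 s184 = true := by
  decide +kernel

theorem bad184 : Bad P3488 s184 :=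
  run_sound (leaf3_sound P3488 rfl rfl) (cutRow_sound P3488) (
    fun _ h => absurd h List.not_mem_nil) t184 s184 run184

/-- the state above piece 100 of the tree -/
def s100 : St := ⟨[0, 0, 1, 3, 5, 5, 15, 31, 79, 159], [95, 31, 23, 21, 15, 11, 7, 3, 2, 1, 0], [0, 1, 2, 3, 4, 6, 7],
  [(8, 5)],
  [⟨true, 2, 3, 3, 10⟩, ⟨true, 1, 5, 2, 5⟩, ⟨true, 2, 3, 23, 50⟩, ⟨true, 1, 5, 12, 25⟩, ⟨true, 2, 11, 12, 25⟩, ⟨true, 5, 31, 3, 50⟩, ⟨true, 3, 39, 21, 50⟩, ⟨true, 4, 79, 1, 10⟩, ⟨true, 4, 79, 3, 20⟩, ⟨true, 4, 79, 1, 5⟩, ⟨true, 6, 159, 3, 20⟩, ⟨true, 6, 159, 1, 5⟩, ⟨true, 6, 159, 1, 4⟩, ⟨true, 7, 351, 17, 50⟩],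
  [.spn 0 0 651200, .spn 1 1 302400, .spn 3 2 302400, .spn 7 3 140426, .spn 15 4 140426, .spn 31 6 140426, .spn 95 7 140426]⟩

/-- piece 100 of the tree -/
noncomputable def t100 : WN.Tree :=
(.mark 223 [5, 8, 9]
(.spn
(.con 5 8)
(.maj 5 9
(.ask 335
(.mark 479 [5, 9, 10]
(.cut 5 [(0, 1), (1, 1), (2, 1), (3, 1), (5, 1), (7, 1), (11, 1), (21, 1), (15, 1), (23, 1), (31, 1), (79, 1), (95, 1), (159, 1), (223, 1)]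
(.lp [[5], [0, 2, 4, 7, 9], [1, 3, 6, 8, 10]] [(.mj 5 9, 67), (.mj 6 7, 34), (.mj 7 8, 293), (.mj 8 5, 453), (.mj 8 9, 8), (.hz 5 671, 183869), (.hz 5 735, 568339), (.hz 5 1375, 159303), (.rw 8, 1)])))
(.ask 351
(.mark 479 [5, 9, 10]
(.cut 5 [(0, 1), (1, 1), (2, 1), (3, 1), (5, 1), (7, 1), (11, 1), (21, 1), (15, 1), (23, 1), (31, 1), (79, 1), (95, 1), (159, 1), (223, 1)]
(.lp [[5], [0, 2, 4, 7, 9], [1, 3, 6, 8, 10]] [(.mj 5 9, 228), (.mj 6 7, 139), (.mj 7 8, 1136), (.mj 8 5, 1829), (.hz 5 671, 759094), (.hz 5 735, 2344891), (.hz 5 1375, 555153), (.rw 8, 4)])))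
(.haz 9 255 11 50
(.cut 5 [(0, 1), (1, 1), (2, 1), (3, 1), (5, 1), (7, 1), (11, 1), (21, 1), (15, 1), (23, 1), (31, 1), (79, 1), (95, 1), (159, 1), (335, 1), (223, 1), (351, 1)]
(.lp [[5], [1, 3, 6, 8], [0, 2, 4, 7, 9]] [(.mj 8 5, 560), (.hz 14 255, 1740862), (.rw 8, 2)]))
(.cut 5 [(0, 1), (1, 1), (2, 1), (3, 1), (5, 1), (7, 1), (11, 1), (21, 1), (15, 1), (23, 1), (31, 1), (79, 1), (95, 1), (159, 1), (223, 1)]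
(.lp [[5], [1, 3, 6, 8], [0, 2, 4, 7, 9]] [(.mj 7 8, 3215), (.mj 8 5, 1307), (.hz 14 159, 158135), (.hz 14 223, 481805), (.hz 5 671, 168278), (.rw 8, 4)])))))
(.ask 335
(.mark 479 [5, 9, 10]
(.spn
(.con 5 9)
(.ask 671
(.mark 991 [5, 10, 11]
(.cut 5 [(0, 1), (1, 1), (2, 1), (3, 1), (5, 1), (7, 1), (11, 1), (21, 1), (15, 1), (23, 1), (31, 1), (79, 1), (95, 1), (159, 1), (335, 1), (351, 1), (1359, 2), (1375, 1)]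
(.cut 5 [(0, 1), (1, 1), (2, 1), (3, 1), (5, 1), (7, 1), (11, 1), (21, 1), (15, 1), (23, 1), (31, 1), (79, 1), (95, 1), (159, 1), (335, 1), (223, 1), (351, 1)]
(.lp [[5], [1, 3, 6, 8, 10], [0, 2, 4, 7, 9, 11]] [(.mj 7 8, 4357), (.mj 8 9, 3763), (.mj 9 5, 6638), (.hz 12 703, 12576754), (.hz 5 1375, 5107468), (.hz 5 2719, 74280), (.hz 5 1503, 5171651), (.hz 5 2783, 733048), (.rw 9, 1), (.rw 10, 19)]))))
(.cut 5 [(0, 1), (1, 1), (2, 1), (3, 1), (5, 1), (7, 1), (11, 1), (21, 1), (15, 1), (23, 1), (31, 1), (79, 1), (95, 1), (159, 1), (335, 1), (223, 1), (351, 1), (671, 1), (479, 1)]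
(.lp [[5], [0, 2, 4, 7, 9], [1, 3, 6, 8, 10]] [(.mj 7 8, 3364), (.mj 8 9, 5377), (.mj 9 5, 17309), (.hz 9 1391, 33278334), (.hz 5 1503, 13715433), (.rw 9, 59)])))
(.lp [[5], [0, 2, 4, 7, 9], [1, 3, 6, 8, 10]] [(.mj 7 8, 16), (.mj 9 5, 15), (.mj 10 9, 12), (.hz 5 351, 19067), (.hz 5 671, 5383), (.hz 12 671, 1428), (.hz 5 479, 5071), (.hz 5 735, 16875), (.hz 5 1375, 10954), (.hz 5 1503, 12179)])
.fin))
(.haz 8 735 9 25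
(.ask 351
(.mark 479 [5, 9, 10]
(.spn
(.con 5 9)
(.ask 671
(.mark 991 [5, 10, 11]
(.cut 5 [(0, 1), (1, 1), (2, 1), (3, 1), (5, 1), (7, 1), (11, 1), (21, 1), (15, 1), (23, 1), (31, 1), (79, 1), (95, 1), (159, 1), (335, 1), (223, 1), (351, 1), (671, 1)]
(.lp [[5], [1, 3, 6, 8, 10], [0, 2, 4, 7, 9, 11]] [(.mj 7 8, 1397), (.mj 8 9, 1176), (.mj 9 5, 2221), (.hz 5 1375, 1132753), (.hz 12 2751, 4920476), (.hz 5 1503, 1786767), (.hz 14 2815, 279344), (.hz 5 2015, 139672), (.rw 9, 7)])))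
(.cut 5 [(0, 1), (1, 1), (2, 1), (3, 1), (5, 1), (7, 1), (11, 1), (21, 1), (15, 1), (23, 1), (31, 1), (79, 1), (95, 1), (159, 1), (335, 1), (223, 1), (351, 1), (671, 1), (479, 1)]
(.lp [[5], [0, 2, 4, 7, 9], [1, 3, 6, 8, 10]] [(.mj 7 8, 485), (.mj 8 9, 1039), (.mj 9 5, 4067), (.hz 5 1375, 352273), (.hz 5 1503, 3101183), (.rw 9, 14)])))
(.lp [[5], [0, 2, 4, 7, 9], [1, 3, 6, 8, 10]] [(.mj 7 8, 10), (.mj 9 5, 9), (.mj 10 9, 6), (.hz 5 351, 11255), (.hz 5 671, 2584), (.hz 12 671, 7814), (.hz 5 479, 2994), (.hz 5 735, 8099), (.hz 14 735, 5193), (.hz 5 1375, 2994), (.hz 5 991, 17594), (.hz 5 1503, 6369)])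
.fin))
(.ask 479
(.mark 479 [5, 9, 10]
(.cut 5 [(0, 1), (1, 1), (2, 1), (3, 1), (5, 1), (11, 1)]
(.cut 5 [(0, 1), (1, 1), (2, 1), (3, 1), (5, 1), (7, 1), (11, 1)]
(.cut 5 [(0, 1), (1, 1), (2, 1), (3, 1), (5, 1), (7, 1), (11, 1), (21, 1), (15, 1), (23, 1), (31, 1), (79, 1), (95, 1)]
(.cut 5 [(0, 1), (1, 1), (2, 1), (3, 1), (5, 1), (7, 1), (11, 1), (21, 1), (15, 1), (23, 1), (31, 1), (79, 1), (95, 1), (159, 1), (335, 1), (223, 1), (351, 1), (671, 1)]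
(.cut 5 [(0, 1), (1, 1), (2, 1), (3, 1), (5, 1), (7, 1), (11, 1), (21, 1), (15, 1), (23, 1), (31, 1), (79, 1), (95, 1), (159, 1), (335, 1), (223, 1), (351, 1), (671, 2), (735, 1)]
(.cut 5 [(0, 1), (1, 1), (2, 1), (3, 1), (5, 1), (7, 1), (11, 1), (21, 1), (15, 1), (23, 1), (31, 1), (79, 1), (95, 1), (335, 1), (351, 1)]
(.lp [[5], [0, 2, 4, 7, 9], [1, 3, 6, 8, 10]] [(.mj 6 7, 81207), (.mj 8 9, 3705), (.mj 9 5, 204671), (.hz 5 351, 15499727), (.hz 5 1503, 114310894), (.rw 8, 144), (.rw 9, 50), (.rw 10, 216), (.rw 11, 33), (.rw 12, 11), (.rw 13, 236)]))))))))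
(.lp [[5], [1, 3, 6, 8], [0, 2, 4, 7, 9]] [(.mj 8 9, 8), (.mj 9 5, 5), (.hz 5 671, 4243), (.hz 5 735, 13737)])))
(.lp [[5], [1, 3, 6, 8], [0, 2, 4, 7, 9]] [(.mj 8 9, 1), (.mj 9 5, 1), (.hz 14 95, 459), (.hz 14 223, 800), (.hz 5 351, 335), (.hz 5 671, 613), (.hz 5 479, 481), (.hz 5 735, 1404)]))))
(.cut 5 [(0, 1), (1, 1), (2, 1), (3, 1), (5, 1), (7, 1), (11, 1), (21, 1), (15, 1), (23, 1), (31, 1), (79, 1), (95, 1), (159, 1), (223, 1)]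
(.cut 8 [(0, 1), (1, 1), (2, 1), (3, 1), (5, 1), (7, 1), (11, 1), (21, 1), (15, 1), (23, 1), (31, 1), (79, 1), (95, 1), (159, 1), (223, 1), (671, 1)]
(.lp [[5], [1, 3, 6, 8], [0, 2, 4, 7, 9]] [(.mj 6 7, 4840), (.mj 8 5, 710), (.mj 9 5, 2013), (.mj 9 8, 2722), (.hz 9 367, 13820684), (.hz 13 383, 4289802), (.rw 8, 9), (.rw 9, 1)])))
.fin))

theorem run100 : run P3488 (leaf3 218 625) (cutRow P3488) [] t100 s100 = true := by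
  decide +kernel

theorem bad100 : Bad P3488 s100 :=
  run_sound (leaf3_sound P3488 rfl rfl) (cutRow_sound P3488) (
    fun _ h => absurd h List.not_mem_nil) t100 s100 run100

/-- the state above piece 31 of the tree -/
def s31 : St := ⟨[0, 0, 1, 1, 3, 7], [39, 15, 13, 11, 9, 7, 5, 3, 2, 1, 0], [0, 1, 2, 3, 5],
  [],
  [⟨true, 1, 9, 7, 50⟩, ⟨true, 2, 11, 3, 50⟩, ⟨true, 2, 9, 9, 50⟩, ⟨true, 3, 3, 1, 5⟩, ⟨true, 1, 5, 13, 50⟩, ⟨true, 5, 31, 1, 8⟩, ⟨true, 4, 39, 1, 20⟩, ⟨true, 5, 31, 16, 25⟩],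
  [.spn 0 0 651200, .spn 1 1 140426, .spn 3 2 140426, .spn 7 3 62723, .spn 15 5 302400]⟩

/-- piece 31 of the tree -/
noncomputable def t31 : WN.Tree :=
(.ask 47
(.haz 3 23 7 25
(.haz 3 23 8 25
(.haz 3 55 33 50
(.haz 3 23 9 25
(.ask 47
(.mark 47 [4, 6, 7]
(.spn
(.haz 4 175 3 25
(.haz 6 63 13 50
(.ask 175
(.haz 6 175 3 10
(.ask 19
(.mark 191 [6, 8, 9]
(.lp [[3, 6], [1, 4, 9], [0, 2, 5, 7, 8]] [(.mj 2 3, 204), (.mj 4 6, 31), (.mj 5 4, 54), (.mj 6 7, 12), (.hz 3 531, 63782), (.hz 11 535, 17717), (.hz 12 175, 8237), (.hz 14 175, 15007), (.hz 10 567, 10810), (.hz 14 431, 21439)]))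
(.ask 27
(.mark 63 [6, 7, 9]
(.lp [[3, 6], [1, 4, 9], [0, 2, 5, 7, 8]] [(.mj 2 3, 1)]))
(.haz 7 127 7 50
(.haz 4 175 9 50
(.haz 6 175 9 25
(.mark 175 [4, 6, 8]
(.ask 431
(.mark 431 [4, 6, 9]
(.lp [[1, 4], [3, 6], [0, 2, 5, 7, 8, 9]] [(.mj 2 3, 7), (.mj 4 6, 454), (.mj 5 4, 730), (.mj 6 7, 116), (.hz 17 175, 53489), (.hz 17 191, 31767), (.hz 16 239, 6582), (.hz 17 431, 79875), (.hz 17 943, 124805)]))
(.lp [[1, 4], [3, 6], [0, 2, 5, 7, 8]] [(.mj 2 3, 3), (.mj 4 6, 171), (.mj 5 4, 275), (.mj 6 7, 43), (.hz 17 175, 18552), (.hz 17 191, 17988), (.hz 17 431, 28987)])))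
(.lp [[1, 4], [3, 6], [0, 2, 5, 7, 8]] [(.mj 2 3, 8), (.mj 5 4, 31), (.mj 6 7, 16), (.hz 17 47, 7035), (.hz 16 175, 7370)]))
(.mark 175 [4, 6, 8]
(.lp [[1, 4], [3, 6], [0, 2, 5, 7, 8]] [(.mj 4 6, 5), (.mj 6 7, 2), (.hz 16 7, 206), (.hz 16 15, 582), (.hz 16 39, 169), (.hz 16 47, 710), (.hz 12 175, 1364), (.hz 14 175, 2484), (.hz 14 431, 3549)])))
(.lp [[1, 4], [3, 6], [0, 2, 5, 7, 8]] [(.mj 4 6, 2), (.mj 5 4, 3), (.hz 15 47, 211), (.hz 14 175, 1510)]))))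
(.lp [[1, 4], [3, 6], [0, 2, 5, 7, 8]] [(.mj 2 3, 9), (.mj 5 4, 41), (.mj 6 7, 23), (.hz 14 47, 22317), (.hz 12 175, 21392)]))
(.lp [[1, 4], [3, 7], [0, 2, 5, 6]] [(.mj 4 6, 23), (.mj 5 4, 37), (.mj 6 7, 5)]))
(.lp [[1, 4], [3, 7], [0, 2, 5, 6]] [(.mj 2 3, 1), (.mj 5 4, 4), (.mj 6 7, 2), (.hz 13 47, 411), (.hz 12 175, 1968)]))
(.lp [[1, 4], [3, 7], [0, 2, 5, 6]] [(.mj 2 3, 12), (.mj 4 6, 7), (.mj 6 7, 6), (.hz 12 3, 500), (.hz 12 7, 819), (.hz 12 39, 930), (.hz 12 47, 1943), (.hz 6 175, 6994)]))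
(.ask 19
(.mark 63 [6, 7, 8]
(.lp [[3, 7], [1, 4, 8], [0, 2, 5, 6]] [(.mj 2 3, 79), (.mj 6 4, 3), (.hz 11 23, 6932), (.hz 3 275, 32163), (.hz 11 279, 2002), (.hz 10 311, 2008)]))
(.ask 111
(.mark 111 [4, 7, 8]
(.spn
(.lp [[1, 4], [3, 7], [0, 2, 5, 6, 8]] [(.mj 6 4, 368), (.rw 6, 1)])
(.ask 23
(.mark 63 [6, 7, 9]
(.cut 4 [(0, 1), (1, 1), (2, 1), (3, 1), (5, 1), (9, 1), (7, 1), (11, 1), (13, 1), (15, 1), (39, 1), (47, 1)]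
(.lp [[3, 7], [1, 4, 9], [0, 2, 5, 6, 8]] [(.mj 2 3, 9971), (.mj 6 4, 342), (.mj 6 7, 61), (.mj 7 4, 606), (.hz 11 535, 940201), (.hz 10 567, 410269), (.hz 6 367, 208471), (.rw 7, 2)])))
(.cut 4 [(0, 1), (1, 1), (2, 1), (3, 1), (5, 1), (9, 1), (7, 1), (11, 1), (13, 1), (15, 1), (39, 1), (47, 1), (111, 1)]
(.lp [[1, 4], [3, 7], [0, 2, 5, 6, 8]] [(.mj 2 3, 1030605), (.mj 6 4, 18228), (.mj 6 7, 3234), (.mj 7 4, 32340), (.hz 10 55, 49365732), (.hz 6 367, 11116983), (.rw 7, 19)])))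
(.ask 23
(.mark 63 [6, 7, 9]
(.cut 4 [(0, 1), (1, 1), (2, 1), (3, 1), (5, 1), (9, 1), (7, 1), (11, 1), (13, 1), (15, 1), (39, 1), (47, 1)]
(.lp [[3, 7], [1, 4, 9], [0, 2, 5, 6, 8]] [(.mj 2 3, 5685), (.mj 8 4, 523), (.hz 11 535, 536033), (.hz 10 567, 233905), (.rw 7, 1)])))
(.cut 4 [(0, 1), (1, 1), (2, 1), (3, 1), (5, 1), (9, 1), (7, 1), (11, 1), (13, 1), (15, 1), (39, 1), (47, 1), (111, 1)]
(.lp [[1, 4], [3, 7], [0, 2, 5, 6, 8]] [(.mj 2 3, 36410), (.mj 8 4, 1729), (.hz 10 55, 1744048), (.rw 7, 1)])))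
.fin))
(.lp [[1, 4], [3, 7], [0, 2, 5, 6]] [(.mj 2 3, 954), (.mj 6 7, 780), (.rw 5, 1)])))
(.con 7 6)
.fin))
(.spn
(.lp [[3], [1, 4], [0, 2, 5, 6]] [(.mj 4 6, 2), (.mj 5 4, 3)])
(.ask 111
(.haz 6 63 41 50
(.ask 19
(.mark 23 [3, 5, 8]
(.ask 55
(.mark 55 [3, 8, 9]
(.lp [[1, 4, 8], [3, 6, 7], [0, 2, 5, 9]] [(.mj 2 3, 28), (.mj 6 4, 1), (.hz 3 275, 11550), (.hz 11 279, 3208), (.hz 12 63, 1400), (.hz 10 311, 1400), (.hz 10 567, 1400)]))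
(.lp [[3], [1, 4, 8], [0, 2, 5, 6, 7]] [(.mj 2 3, 24), (.mj 6 4, 1), (.hz 3 275, 10036), (.hz 11 279, 2788), (.hz 12 63, 1107), (.hz 10 311, 1216)])))
(.ask 111
(.mark 111 [4, 7, 8]
(.spn
(.lp [[1, 4], [3, 8], [0, 2, 5, 6, 7]] [(.rw 5, 1), (.rw 6, 3)])
(.ask 23
(.mark 127 [7, 8, 9]
(.lp [[3, 8], [1, 4, 9], [0, 2, 5, 6, 7]] [(.mj 2 3, 25), (.mj 7 4, 1), (.hz 11 535, 2856), (.hz 12 63, 2094), (.hz 7 543, 1457), (.hz 10 567, 1246)]))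
(.lp [[1, 4], [3, 8], [0, 2, 5, 6, 7]] [(.mj 2 3, 125), (.mj 7 4, 5), (.hz 10 55, 6130), (.hz 12 63, 667)]))
(.con 8 7)
.fin))
(.spn
(.lp [[3], [1, 4], [0, 2, 5, 6, 7]] [(.mj 6 4, 1), (.rw 6, 1)])
(.ask 23
(.mark 23 [3, 5, 8]
(.cut 4 [(0, 1), (1, 1), (2, 1), (3, 1), (5, 1), (9, 1), (7, 1), (11, 1), (13, 1), (15, 1), (39, 1), (47, 1), (111, 1)]
(.lp [[3], [1, 4, 8], [0, 2, 5, 6, 7]] [(.mj 2 3, 17684), (.mj 7 4, 1007), (.hz 10 55, 821766), (.hz 11 279, 1883214), (.hz 7 287, 539135), (.hz 12 319, 224173), (.rw 7, 1)])))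
(.lp [[3], [1, 4], [0, 2, 5, 6, 7]] [(.mj 2 3, 125), (.mj 7 4, 5), (.hz 10 55, 6130), (.hz 12 63, 667)]))
.fin
.fin)))
(.lp [[3], [1, 4], [0, 2, 5, 6, 7]] [(.mj 2 3, 3), (.mj 6 4, 2), (.hz 12 47, 542)]))
(.lp [[3], [1, 4], [0, 2, 5, 6]] [(.mj 6 4, 1)]))
.fin
.fin))
(.lp [[3], [1, 4], [0, 2, 5, 6]] [(.mj 5 4, 4), (.hz 11 7, 1491), (.hz 9 23, 745), (.hz 10 55, 493)]))
(.lp [[3], [1, 4], [0, 2, 5, 6]] [(.mj 3 5, 5), (.mj 5 4, 3), (.hz 10 39, 594)]))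
(.lp [[3], [1, 4], [0, 2, 5, 6]] [(.mj 3 5, 1), (.mj 5 4, 1), (.hz 9 7, 425), (.hz 8 23, 372)]))
(.lp [[3], [1, 4], [0, 2, 5, 6]] [(.mj 3 4, 4), (.mj 3 5, 2), (.mj 5 4, 2), (.hz 8 7, 1532), (.hz 3 23, 4103)]))
(.lp [[3], [1, 4], [0, 2, 5]] [(.mj 5 4, 1)]))

theorem run31 : run P3488 (leaf3 218 625) (cutRow P3488) [] t31 s31 = true := by
  decide +kernel

theorem bad31 : Bad P3488 s31 :=
  run_sound (leaf3_sound P3488 rfl rfl) (cutRow_sound P3488) (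
    fun _ h => absurd h List.not_mem_nil) t31 s31 run31

/-- the state above piece 52 of the tree -/
def s52 : St := ⟨[0, 0, 1, 1, 7, 7, 11, 31, 55, 159], [191, 63, 47, 39, 31, 23, 15, 13, 9, 7, 5, 3, 2, 1, 0], [0, 1, 2, 3, 4, 5, 7, 8],
  [(3, 4)],
  [⟨true, 1, 9, 7, 50⟩, ⟨true, 2, 11, 3, 50⟩, ⟨true, 2, 9, 9, 50⟩, ⟨true, 3, 3, 1, 5⟩, ⟨true, 1, 5, 13, 50⟩, ⟨true, 2, 11, 3, 5⟩, ⟨true, 2, 9, 8, 25⟩, ⟨true, 2, 9, 17, 50⟩, ⟨true, 2, 11, 33, 50⟩, ⟨true, 4, 47, 4, 25⟩, ⟨true, 3, 39, 13, 50⟩, ⟨true, 3, 39, 3, 10⟩, ⟨true, 5, 79, 7, 50⟩, ⟨true, 3, 39, 8, 25⟩, ⟨true, 4, 79, 7, 25⟩, ⟨true, 4, 79, 2, 5⟩, ⟨true, 3, 55, 2, 5⟩, ⟨true, 6, 159, 2, 25⟩, ⟨true, 5, 79, 1, 5⟩, ⟨true, 3, 55, 23, 50⟩, ⟨true, 3, 55, 1, 2⟩, ⟨true, 2, 75, 18, 25⟩, ⟨true, 3, 55, 13, 25⟩, ⟨true, 2, 75, 19, 25⟩, ⟨true, 7, 63, 4, 25⟩, ⟨true, 4, 79, 12, 25⟩,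 ⟨false, 6, 31, 9, 50⟩, ⟨true, 6, 319, 2, 25⟩, ⟨true, 6, 319, 1, 10⟩, ⟨true, 3, 311, 27, 50⟩, ⟨true, 7, 319, 3, 10⟩, ⟨true, 7, 319, 19, 50⟩, ⟨true, 4, 79, 13, 25⟩, ⟨true, 7, 95, 17, 50⟩],
  [.spn 0 0 651200, .spn 1 1 140426, .spn 3 2 302400, .spn 7 3 62723, .spn 15 4 140426, .spn 31 5 62723, .spn 63 7 140426, .spn 191 8 140426]⟩

/-- piece 52 of the tree -/
noncomputable def t52 : WN.Tree :=
(.haz 6 63 1 10
(.haz 9 447 1 20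
(.haz 9 447 1 10
(.ask 311
(.mark 447 [6, 9, 10]
(.spn
(.ask 671
(.mark 703 [6, 8, 11]
(.lp [[3, 6], [1, 5, 8, 10], [0, 2, 4, 7, 9, 11]] [(.mj 6 9, 1446), (.mj 7 8, 4241), (.mj 8 6, 3291), (.mj 8 9, 966), (.rw 8, 2), (.hz 17 671, 1587327), (.hz 34 703, 18388817), (.hz 28 1343, 26085562), (.hz 17 2719, 1435524), (.hz 36 1471, 10209735), (.hz 34 2751, 5916991), (.hz 18 2783, 13261245)]))
(.lp [[3, 6], [1, 5, 8, 10], [0, 2, 4, 7, 9]] [(.mj 4 5, 1512), (.mj 6 9, 113), (.mj 7 8, 25), (.mj 8 6, 767), (.rw 8, 1), (.hz 34 703, 7199034), (.hz 28 1343, 3980310), (.hz 36 1471, 795705)]))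
(.ask 75
(.mark 383 [7, 10, 11]
(.lp [[3, 6, 11], [1, 5, 8, 10], [0, 2, 4, 7, 9]] [(.mj 1 2, 2283), (.mj 7 8, 60), (.mj 8 9, 83), (.mj 9 6, 344), (.hz 23 2123, 61424), (.hz 34 63, 692719), (.hz 32 2127, 96036), (.hz 18 2127, 285873), (.hz 34 191, 928225), (.hz 28 319, 1638427), (.hz 33 2143, 57149), (.hz 17 671, 182592), (.hz 29 1335, 20198), (.hz 28 447, 856971), (.hz 34 703, 835222), (.hz 28 1343, 238451), (.hz 31 1343, 30497), (.hz 31 2431, 44080), (.hz 28 1471, 2426827), (.hz 36 2559, 2204024)]))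
(.lp [[3, 6], [1, 5, 8, 10], [0, 2, 4, 7, 9]] [(.mj 1 2, 428), (.mj 7 8, 5), (.mj 8 9, 5), (.mj 9 6, 31), (.hz 32 79, 6214), (.hz 18 79, 31070), (.hz 34 63, 38540), (.hz 17 159, 6754), (.hz 34 191, 61584), (.hz 28 319, 86465), (.hz 17 671, 4263), (.hz 29 1335, 2215), (.hz 28 447, 137583), (.hz 34 703, 50225), (.hz 28 1343, 77424), (.hz 31 1343, 3631), (.hz 28 1471, 218722)]))
(.lp [[3, 6], [1, 5, 8, 10], [0, 2, 4, 7, 9]] [(.mj 7 8, 6), (.mj 10 6, 6), (.mj 10 9, 4), (.hz 28 319, 43604), (.hz 17 671, 5806), (.hz 28 447, 20222), (.hz 36 447, 12516), (.hz 34 703, 41170), (.hz 28 1343, 5586), (.hz 18 735, 24430)])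
.fin))
(.ask 319
(.mark 447 [6, 9, 10]
(.spn
(.ask 671
(.mark 703 [6, 8, 11]
(.lp [[3, 6], [1, 5, 8, 10], [0, 2, 4, 7, 9, 11]] [(.mj 6 9, 659), (.mj 7 8, 2039), (.mj 8 6, 1549), (.mj 8 9, 471), (.rw 8, 1), (.hz 17 671, 760100), (.hz 34 703, 8802159), (.hz 28 1343, 12508275), (.hz 17 2719, 678064), (.hz 36 1471, 4409706), (.hz 34 2751, 2751855), (.hz 18 2783, 6304680)]))
(.lp [[3, 6], [1, 5, 8, 10], [0, 2, 4, 7, 9]] [(.mj 4 5, 1532), (.mj 6 9, 112), (.mj 7 8, 25), (.mj 8 6, 774), (.rw 8, 1), (.hz 34 703, 7283246), (.hz 28 1343, 4029277), (.hz 36 1471, 751309)]))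
(.ask 75
(.mark 511 [9, 10, 11]
(.lp [[3, 6, 11], [1, 5, 8, 10], [0, 2, 4, 7, 9]] [(.mj 1 2, 162), (.mj 7 8, 1), (.mj 8 9, 4), (.mj 9 6, 22), (.hz 23 2123, 4346), (.hz 34 63, 7496), (.hz 32 2127, 6795), (.hz 18 2127, 20225), (.hz 34 191, 144084), (.hz 28 319, 124013), (.hz 33 2143, 4044), (.hz 17 671, 11006), (.hz 28 447, 12617), (.hz 28 1343, 3248), (.hz 31 1343, 1764), (.hz 28 1471, 143352)]))
(.lp [[3, 6], [1, 5, 8, 10], [0, 2, 4, 7, 9]] [(.mj 1 2, 158), (.mj 8 9, 1), (.mj 9 6, 10), (.hz 32 79, 2295), (.hz 18 79, 11477), (.hz 34 63, 14236), (.hz 17 159, 2495), (.hz 34 191, 22749), (.hz 28 319, 17302), (.hz 17 671, 592), (.hz 28 447, 44501), (.hz 34 703, 7416), (.hz 28 1343, 21172), (.hz 31 1343, 922), (.hz 28 1471, 55665)]))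
(.lp [[3, 6], [1, 5, 8, 10], [0, 2, 4, 7, 9]] [(.mj 7 8, 6), (.mj 10 6, 6), (.mj 10 9, 4), (.hz 28 319, 44828), (.hz 17 671, 5952), (.hz 28 447, 20792), (.hz 36 447, 12891), (.hz 34 703, 42208), (.hz 28 1343, 5667), (.hz 18 735, 25046)])
.fin))
(.ask 447
(.mark 447 [6, 9, 10]
(.spn
(.haz 9 1471 1 5
(.ask 671
(.mark 671 [5, 6, 11]
(.lp [[3, 6], [1, 5, 8, 10], [0, 2, 4, 7, 9, 11]] [(.mj 1 2, 70), (.mj 4 5, 47), (.mj 6 9, 47), (.mj 6 10, 31), (.mj 8 6, 78), (.hz 23 75, 1728), (.hz 17 671, 20937), (.hz 34 703, 275071), (.hz 17 2719, 58132), (.hz 28 959, 165847), (.hz 37 1471, 893993), (.hz 18 2783, 921502), (.hz 28 3007, 1)]))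
(.lp [[3, 6], [1, 5, 8, 10], [0, 2, 4, 7, 9]] [(.mj 4 5, 18), (.mj 6 9, 8), (.mj 6 10, 5), (.mj 8 6, 17), (.hz 34 63, 28326), (.hz 34 703, 93360), (.hz 37 1471, 146664)]))
(.lp [[3, 6], [1, 5, 8, 10], [0, 2, 4, 7, 9]] [(.mj 1 2, 1), (.mj 4 5, 3), (.mj 6 10, 3), (.mj 8 6, 4), (.hz 37 159, 5615), (.hz 37 191, 10558), (.hz 17 671, 1065), (.hz 37 447, 29316), (.hz 34 703, 22492), (.hz 36 1471, 21136)]))
(.lp [[3, 6], [1, 5, 8, 10], [0, 2, 4, 7, 9]] [(.mj 1 2, 560), (.mj 4 5, 13), (.mj 8 9, 26), (.mj 9 6, 106), (.hz 23 75, 13870), (.hz 34 63, 244744), (.hz 34 191, 299831), (.hz 28 319, 177414), (.hz 17 671, 56356), (.hz 28 447, 434037), (.hz 34 703, 285078), (.hz 28 1471, 482264)])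
(.lp [[3, 6], [1, 5, 8, 10], [0, 2, 4, 7, 9]] [(.mj 1 2, 106), (.mj 10 6, 16), (.hz 23 75, 2637), (.hz 34 63, 40245), (.hz 17 159, 7161), (.hz 34 191, 37159), (.hz 28 319, 30065), (.hz 17 671, 6850), (.hz 28 447, 88758), (.hz 36 447, 3171), (.hz 34 703, 19721), (.hz 18 735, 60893), (.hz 36 511, 123413)])
.fin))
(.lp [[3, 6], [1, 5, 8], [0, 2, 4, 7, 9]] [(.mj 4 5, 94), (.mj 8 6, 118), (.mj 8 9, 126), (.hz 34 703, 2493914)]))))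
(.lp [[3, 6], [1, 5, 8], [0, 2, 4, 7, 9]] [(.mj 4 5, 31), (.mj 7 8, 4), (.mj 8 6, 19), (.hz 34 63, 77328), (.hz 36 159, 13351), (.hz 34 191, 29272), (.hz 36 191, 4421), (.hz 28 319, 26249), (.hz 18 223, 13351), (.hz 17 671, 5224), (.hz 34 703, 59366)]))
(.lp [[3, 6], [1, 5, 8], [0, 2, 4, 7, 9]] [(.mj 4 5, 1), (.mj 7 8, 6), (.mj 8 6, 4), (.hz 34 63, 2996), (.hz 35 159, 1479), (.hz 35 191, 4611), (.hz 28 319, 36152), (.hz 18 223, 1479)]))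
(.lp [[3, 6], [1, 5, 8], [0, 2, 4, 7, 9]] [(.mj 1 2, 273), (.mj 4 5, 2), (.mj 7 8, 1), (.hz 34 11, 19197), (.hz 23 75, 410), (.hz 29 311, 469), (.hz 17 191, 1068), (.hz 28 319, 7356)]))

theorem run52 : run P3488 (leaf3 218 625) (cutRow P3488) [] t52 s52 = true := by
  decide +kernel

theorem bad52 : Bad P3488 s52 :=
  run_sound (leaf3_sound P3488 rfl rfl) (cutRow_sound P3488) (
    fun _ h => absurd h List.not_mem_nil) t52 s52 run52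

/-- the state above piece 115 of the tree -/
def s115 : St := ⟨[0, 0, 1, 3, 5, 7, 15, 23, 79], [95, 31, 21, 15, 11, 7, 5, 3, 2, 1, 0], [0, 1, 2, 3, 4, 6, 5],
  [],
  [⟨true, 2, 3, 3, 10⟩, ⟨true, 1, 5, 2, 5⟩, ⟨true, 2, 3, 23, 50⟩, ⟨true, 1, 5, 12, 25⟩, ⟨true, 4, 39, 4, 25⟩, ⟨true, 4, 39, 9, 50⟩, ⟨true, 4, 15, 4, 25⟩, ⟨true, 4, 15, 9, 50⟩, ⟨true, 1, 21, 29, 50⟩, ⟨true, 3, 39, 6, 25⟩, ⟨true, 3, 39, 3, 10⟩, ⟨true, 4, 39, 6, 25⟩, ⟨true, 3, 39, 17, 50⟩, ⟨true, 3, 39, 19, 50⟩, ⟨true, 3, 39, 2, 5⟩, ⟨true, 3, 23, 2, 5⟩, ⟨true, 4, 79, 6, 25⟩, ⟨true, 4, 39, 7, 25⟩, ⟨false, 5, 15, 1, 5⟩, ⟨true, 3, 39, 11, 25⟩, ⟨true, 5, 159, 3, 50⟩, ⟨true, 6, 47, 3, 10⟩],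
  [.spn 0 0 651200, .spn 1 1 302400, .spn 3 2 302400, .spn 7 3 140426, .spn 15 4 140426, .spn 31 6 140426, .spn 95 5 62723]⟩

/-- piece 115 of the tree -/
noncomputable def t115 : WN.Tree :=
(.haz 5 223 3 25
(.haz 7 351 2 25
(.haz 7 351 3 20
(.haz 5 151 1 10
(.haz 5 335 1 10
(.haz 5 351 3 20
(.ask 39
(.mark 127 [7, 8, 9]
(.spn
(.lp [[5, 9], [0, 2, 4, 7], [1, 3, 6, 8]] [(.mj 3 4, 16), (.mj 4 6, 50), (.mj 5 7, 111), (.mj 6 5, 139), (.mj 7 8, 66), (.hz 25 151, 47301), (.hz 25 159, 55838), (.hz 26 335, 55242), (.hz 27 351, 66604), (.hz 24 351, 66048)])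
(.ask 335
(.mark 383 [7, 9, 10]
(.lp [[5, 9], [0, 2, 4, 7], [1, 3, 6, 8, 10]] [(.mj 3 4, 28), (.mj 4 6, 1525), (.mj 6 5, 979), (.mj 8 7, 722), (.rw 6, 2), (.hz 25 151, 572735), (.hz 25 159, 1376593), (.hz 27 1375, 78460), (.hz 24 1375, 27961)]))
(.ask 367
(.mark 383 [7, 9, 10]
(.lp [[5, 9], [0, 2, 4, 7], [1, 3, 6, 8, 10]] [(.mj 4 5, 5), (.mj 4 6, 1), (.mj 5 7, 3), (.mj 6 5, 1), (.mj 8 7, 1)]))
(.ask 351
(.mark 383 [7, 9, 10]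
(.spn
(.lp [[5, 9], [0, 2, 4, 7], [1, 3, 6, 8, 10]] [(.mj 3 4, 836), (.mj 4 6, 2456), (.mj 5 8, 2635), (.mj 6 5, 5103), (.mj 7 10, 686), (.mj 8 7, 3158), (.hz 25 151, 2985685), (.hz 17 551, 83668), (.hz 25 159, 9329727), (.hz 22 223, 2666650), (.hz 24 1375, 1579035), (.hz 24 895, 4839469)])
(.lp [[5, 9], [0, 2, 4, 7], [1, 3, 6, 8, 10]] [(.mj 3 4, 124), (.mj 4 6, 721), (.mj 6 5, 734), (.mj 9 7, 451), (.mj 9 10, 184), (.rw 6, 1), (.hz 17 39, 4956), (.hz 25 151, 421866), (.hz 25 159, 1337744), (.hz 24 351, 78691), (.hz 24 1375, 532271)])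
(.lp [[5, 9], [0, 2, 4, 7], [1, 3, 6, 8, 10]] [(.mj 3 4, 1), (.mj 4 6, 2), (.mj 5 8, 3), (.mj 6 5, 5), (.mj 10 7, 3), (.hz 25 151, 2977), (.hz 17 551, 37), (.hz 25 159, 9303), (.hz 22 223, 2807), (.hz 24 351, 4117), (.hz 24 383, 8571)])
.fin))
(.lp [[5, 9], [0, 2, 4, 7], [1, 3, 6, 8]] [(.mj 3 4, 1), (.mj 4 6, 7), (.mj 5 7, 3), (.mj 6 5, 7), (.mj 8 7, 2), (.hz 25 151, 3022), (.hz 25 159, 9376), (.hz 24 383, 3477)]))))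
(.lp [[5, 9], [0, 2, 4, 7], [1, 3, 6, 8]] [(.mj 4 6, 244), (.mj 6 5, 810), (.mj 9 7, 363), (.mj 9 8, 287), (.rw 6, 1), (.hz 25 151, 490630), (.hz 25 159, 871594), (.hz 22 223, 235049), (.hz 24 351, 457119)])
.fin))
(.haz 7 351 1 5
(.haz 5 31 3 20
(.haz 7 31 3 10
(.lp [[5], [0, 2, 4, 7], [1, 3, 6, 8]] [(.mj 4 6, 33), (.mj 5 7, 42), (.mj 5 8, 8), (.mj 6 5, 45), (.hz 25 151, 7083), (.hz 30 63, 41774), (.hz 30 95, 10999), (.hz 29 159, 5313), (.hz 26 335, 12654), (.hz 30 351, 61879)])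
(.haz 8 255 3 10
(.ask 335
(.mark 351 [5, 7, 9]
(.lp [[5], [0, 2, 4, 7], [1, 3, 6, 8, 9]] [(.mj 3 4, 107), (.mj 4 6, 1236), (.mj 5 7, 738), (.mj 5 8, 61), (.mj 6 5, 1148), (.hz 30 23, 63232), (.hz 30 31, 118390), (.hz 25 151, 314734), (.hz 29 159, 466308), (.hz 27 351, 156758), (.hz 28 351, 1200192), (.hz 27 863, 369534), (.hz 28 863, 2214134)]))
(.ask 351
(.ask 151
(.mark 479 [5, 9, 10]
(.lp [[5], [0, 2, 4, 7, 10], [1, 3, 6, 8, 9]] [(.mj 4 6, 21), (.mj 5 7, 71), (.mj 5 8, 67), (.mj 6 5, 174), (.hz 29 159, 66814), (.hz 15 1175, 6267), (.hz 25 1175, 100699), (.hz 28 351, 461918), (.hz 29 1183, 175874), (.hz 29 1247, 56961), (.hz 31 1279, 98736)]))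
(.mark 351 [5, 7, 9]
(.ask 863
(.mark 863 [5, 7, 10]
(.lp [[5], [0, 2, 4, 7], [1, 3, 6, 8, 9, 10]] [(.mj 4 6, 82), (.mj 5 7, 70), (.mj 5 8, 17), (.mj 6 5, 111), (.hz 30 31, 3743), (.hz 29 159, 67331), (.hz 28 351, 162411), (.hz 28 383, 33129), (.hz 28 863, 132516), (.hz 28 1887, 165645)]))
(.lp [[5], [0, 2, 4, 7], [1, 3, 6, 8, 9]] [(.mj 4 6, 12), (.mj 5 7, 7), (.mj 6 5, 11), (.hz 30 31, 1870), (.hz 29 159, 5271), (.hz 28 351, 6404), (.hz 28 383, 9247), (.hz 28 863, 8005)]))))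
(.lp [[5], [0, 2, 4, 7], [1, 3, 6, 8]] [(.mj 3 4, 1), (.mj 4 6, 5), (.mj 5 7, 3), (.mj 6 5, 5), (.hz 30 23, 194), (.hz 30 31, 380), (.hz 25 151, 1607), (.hz 29 159, 2315), (.hz 28 351, 2685)])))
(.lp [[5], [0, 2, 4, 7], [1, 3, 6, 8]] [(.mj 5 7, 6), (.mj 6 5, 13), (.hz 31 79, 3080), (.hz 25 151, 1646), (.hz 31 95, 7832), (.hz 29 159, 14067), (.hz 26 335, 17), (.hz 28 351, 14834)])))
(.lp [[5], [0, 2, 4, 7], [1, 3, 6, 8]] [(.mj 3 4, 19), (.mj 4 6, 69), (.mj 5 7, 191), (.mj 5 8, 100), (.hz 29 15, 38970), (.hz 29 23, 29306), (.hz 29 31, 149688), (.hz 25 151, 11576), (.hz 25 159, 164112), (.hz 26 335, 2765), (.hz 28 351, 791374)]))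
(.lp [[5], [0, 2, 4, 7], [1, 3, 6, 8]] [(.mj 0 1, 44), (.mj 4 6, 83), (.mj 5 8, 26), (.mj 6 5, 77), (.hz 28 23, 38775), (.hz 28 31, 86946), (.hz 25 151, 19257), (.hz 28 95, 108613), (.hz 25 159, 62585), (.hz 27 351, 34386), (.hz 24 351, 22083)])))
(.lp [[5], [0, 2, 4, 7], [1, 3, 6, 8]] [(.mj 0 1, 157272), (.mj 5 7, 28049), (.mj 5 8, 18964), (.rw 6, 94), (.hz 27 7, 1045691), (.hz 27 23, 3506139), (.hz 27 31, 4124869), (.hz 27 95, 82414891), (.hz 26 335, 6584598), (.hz 22 223, 3011155), (.hz 24 351, 32654734)]))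
(.lp [[5], [0, 2, 4, 7], [1, 3, 6, 8]] [(.mj 3 4, 5), (.mj 4 6, 8), (.mj 5 7, 9), (.mj 5 8, 6), (.hz 26 7, 2629), (.hz 26 15, 9679), (.hz 25 151, 834), (.hz 16 335, 174), (.hz 24 351, 10204)]))
(.lp [[5], [0, 2, 4, 7], [1, 3, 6, 8]] [(.mj 3 4, 12), (.mj 4 6, 11), (.mj 5 7, 14), (.mj 5 8, 9), (.hz 25 7, 10416), (.hz 25 23, 13593), (.hz 20 159, 5593), (.hz 24 351, 15659)]))
(.lp [[5], [0, 2, 4, 7], [1, 3, 6, 8]] [(.mj 0 1, 20), (.mj 4 6, 40), (.mj 5 8, 17), (.mj 6 5, 38), (.hz 24 23, 5206), (.hz 24 31, 12093), (.hz 24 95, 10001), (.hz 22 223, 16266), (.hz 23 351, 12923), (.hz 22 479, 12979)]))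
(.lp [[5], [0, 2, 4, 7], [1, 3, 6, 8]] [(.mj 4 6, 2), (.mj 5 8, 1), (.mj 6 5, 2), (.hz 23 23, 201), (.hz 23 31, 461), (.hz 23 95, 466)]))
(.lp [[5], [0, 2, 4, 7], [1, 3, 6, 8]] [(.mj 5 7, 231), (.mj 5 8, 341), (.rw 6, 2), (.hz 22 95, 1350435), (.hz 20 159, 52176)]))

theorem run115 : run P3488 (leaf3 218 625) (cutRow P3488) [] t115 s115 = true := by
  decide +kernel

theorem bad115 : Bad P3488 s115 :=
  run_sound (leaf3_sound P3488 rfl rfl) (cutRow_sound P3488) (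
    fun _ h => absurd h List.not_mem_nil) t115 s115 run115

/-- the state above piece 102 of the tree -/
def s102 : St := ⟨[0, 0, 1, 3, 5, 5, 15, 31, 95, 159], [95, 79, 31, 23, 21, 15, 11, 7, 3, 2, 1, 0], [0, 1, 2, 3, 4, 6, 7],
  [],
  [⟨true, 2, 3, 3, 10⟩, ⟨true, 1, 5, 2, 5⟩, ⟨true, 2, 3, 23, 50⟩, ⟨true, 1, 5, 12, 25⟩, ⟨true, 2, 11, 12, 25⟩, ⟨true, 5, 31, 3, 50⟩, ⟨true, 3, 39, 21, 50⟩, ⟨true, 4, 79, 1, 10⟩, ⟨true, 4, 79, 3, 20⟩, ⟨true, 4, 79, 1, 5⟩, ⟨true, 6, 159, 3, 20⟩, ⟨true, 6, 159, 1, 5⟩, ⟨true, 6, 159, 1, 4⟩],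
  [.spn 0 0 651200, .spn 1 1 302400, .spn 3 2 302400, .spn 7 3 140426, .spn 15 4 140426, .spn 31 6 140426, .spn 95 7 140426]⟩

/-- piece 102 of the tree -/
noncomputable def t102 : WN.Tree :=
(.mark 223 [5, 8, 9]
(.spn
(.haz 8 735 1 5
(.haz 8 223 17 50
(.lp [[5], [1, 3, 6, 8], [0, 2, 4, 7, 9]] [(.mj 5 8, 88), (.mj 5 9, 2), (.mj 6 7, 74), (.mj 7 5, 88), (.hz 14 223, 12559), (.hz 5 671, 24129), (.hz 14 255, 15476), (.hz 14 735, 36247)])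
(.lp [[5], [1, 3, 6, 8], [0, 2, 4, 7, 9]] [(.mj 3 4, 246), (.mj 6 7, 1377), (.mj 7 5, 729), (.rw 7, 1), (.hz 14 95, 163123), (.hz 14 223, 129631), (.hz 5 351, 127645), (.hz 5 671, 740086)]))
(.lp [[5], [1, 3, 6, 8], [0, 2, 4, 7, 9]] [(.mj 3 4, 129), (.mj 6 7, 1357), (.mj 7 5, 699), (.rw 7, 1), (.hz 13 95, 1448473), (.hz 13 223, 804707)]))
(.maj 5 9
(.ask 351
(.mark 479 [5, 9, 10]
(.cut 5 [(0, 1), (1, 1), (2, 1), (3, 1), (5, 1), (7, 1), (11, 1), (21, 1), (15, 1), (23, 1), (31, 1), (79, 1), (95, 1), (159, 1), (223, 1), (351, 1)]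
(.lp [[5], [0, 2, 4, 7, 9], [1, 3, 6, 8, 10]] [(.mj 5 9, 427), (.mj 7 8, 3239), (.mj 8 5, 6405), (.hz 5 671, 2795852), (.hz 5 735, 9191095), (.hz 5 1375, 1485402), (.rw 8, 16)])))
(.ask 479
(.mark 479 [5, 9, 10]
(.spn
(.haz 10 991 17 50
(.lp [[5], [0, 2, 4, 7, 9], [1, 3, 6, 8, 10]] [(.mj 3 4, 334), (.mj 5 9, 75), (.mj 5 10, 275), (.mj 8 5, 699), (.rw 8, 1), (.hz 5 671, 299679), (.hz 5 735, 920632), (.hz 13 991, 272044)])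
(.lp [[5], [0, 2, 4, 7, 9], [1, 3, 6, 8, 10]] [(.mj 5 9, 1), (.mj 8 5, 1), (.hz 13 479, 505)]))
(.con 9 5)
(.cut 5 [(0, 1), (1, 1), (2, 1), (3, 1), (5, 1), (7, 1), (11, 1), (21, 1), (15, 1), (23, 1), (31, 1), (79, 1), (95, 1), (159, 1), (223, 1)]
(.lp [[5], [0, 2, 4, 7, 9], [1, 3, 6, 8, 10]] [(.mj 7 8, 178), (.mj 10 5, 1273), (.hz 5 159, 395047), (.rw 9, 4)]))
.fin))
(.lp [[5], [1, 3, 6, 8], [0, 2, 4, 7, 9]] [(.mj 5 9, 1), (.mj 8 5, 1)])))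
(.haz 8 767 8 25
(.ask 351
(.mark 479 [5, 9, 10]
(.spn
(.con 5 9)
(.ask 671
(.mark 991 [5, 10, 11]
(.cut 5 [(0, 1), (1, 1), (2, 1), (3, 1), (5, 1), (7, 1), (11, 1), (21, 1), (15, 1), (23, 1), (31, 1), (79, 1), (95, 1), (159, 1), (223, 1), (671, 1), (2719, 1)]
(.cut 5 [(0, 1), (1, 1), (2, 1), (3, 1), (5, 1), (7, 1), (11, 1), (21, 1), (15, 1), (23, 1), (31, 1), (79, 1), (95, 1), (159, 1), (223, 1), (351, 1), (479, 1), (1375, 2), (1503, 1)]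
(.cut 5 [(0, 1), (1, 1), (2, 1), (3, 1), (11, 1)]
(.cut 5 [(0, 1), (1, 1), (2, 1), (3, 1), (5, 1), (11, 1)]
(.cut 5 [(0, 1), (1, 1), (2, 1), (3, 1), (5, 1), (7, 1), (11, 1), (21, 1), (15, 1), (23, 1), (31, 1), (79, 1), (95, 1), (159, 1), (223, 1)]
(.cut 5 [(0, 1), (1, 1), (2, 1), (3, 1), (5, 1), (7, 1), (11, 1), (21, 1), (15, 1), (23, 1), (31, 1), (79, 1), (95, 1), (159, 1), (351, 1), (671, 1)]
(.lp [[5], [1, 3, 6, 8, 10], [0, 2, 4, 7, 9, 11]] [(.mj 3 4, 14361), (.mj 7 8, 420), (.mj 8 9, 11450), (.mj 9 5, 48272), (.mj 9 10, 6332), (.hz 5 1375, 5889872), (.hz 12 2751, 66012997), (.hz 5 1503, 49011271), (.rw 9, 3), (.rw 10, 2), (.rw 11, 22), (.rw 12, 7), (.rw 13, 93), (.rw 14, 27)]))))))))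
(.cut 5 [(0, 1), (1, 1), (2, 1), (3, 1), (5, 1), (7, 1), (11, 1), (21, 1), (15, 1), (23, 1), (31, 1), (79, 1), (95, 1), (159, 1), (223, 1), (351, 1), (671, 1), (479, 1)]
(.lp [[5], [0, 2, 4, 7, 9], [1, 3, 6, 8, 10]] [(.mj 7 8, 1922), (.mj 8 9, 4777), (.mj 9 5, 19669), (.mj 9 10, 185), (.hz 5 1375, 1454802), (.hz 5 1503, 13053660), (.rw 9, 67)])))
(.cut 5 [(0, 1), (1, 1), (2, 1), (3, 1), (5, 1), (7, 1), (11, 1), (21, 1), (15, 1), (23, 1), (31, 1), (79, 1), (95, 1), (159, 1), (223, 1), (351, 1)]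
(.lp [[5], [0, 2, 4, 7, 9], [1, 3, 6, 8, 10]] [(.mj 3 4, 5124), (.mj 7 8, 2440), (.mj 10 5, 6425), (.mj 10 9, 1026), (.hz 12 703, 9894003), (.rw 9, 23)]))
.fin))
(.ask 479
(.mark 479 [5, 9, 10]
(.cut 5 [(0, 1), (1, 1), (2, 1), (3, 1), (5, 1), (7, 1), (11, 1), (21, 1), (15, 1), (23, 1), (31, 1), (79, 1), (95, 1), (159, 1), (351, 1), (671, 1)]
(.cut 5 [(0, 1), (1, 1), (2, 1), (3, 1), (5, 1), (7, 1), (11, 1), (15, 1), (79, 1)]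
(.cut 5 [(0, 1), (1, 1), (2, 1), (3, 1), (5, 1), (7, 1), (11, 1), (21, 1), (15, 1), (23, 1), (31, 1), (79, 1), (95, 1), (351, 1)]
(.lp [[5], [0, 2, 4, 7, 9], [1, 3, 6, 8, 10]] [(.mj 3 4, 24556), (.mj 6 7, 286), (.mj 9 5, 8883), (.hz 5 351, 2440243), (.hz 5 671, 867352), (.hz 5 1503, 4108505), (.rw 8, 1), (.rw 9, 16), (.rw 10, 12)])))))
(.lp [[5], [1, 3, 6, 8], [0, 2, 4, 7, 9]] [(.mj 8 9, 3), (.mj 9 5, 2), (.hz 5 671, 1487), (.hz 5 735, 4809)])))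
(.lp [[5], [1, 3, 6, 8], [0, 2, 4, 7, 9]] [(.mj 3 4, 1), (.mj 6 7, 1), (.mj 8 5, 4), (.mj 8 9, 3), (.hz 13 95, 1719), (.hz 13 223, 3332), (.hz 5 671, 2901), (.hz 5 735, 6469)])))
(.ask 351
(.mark 351 [5, 7, 10]
(.cut 5 [(0, 1), (1, 1), (2, 1), (3, 1), (5, 1), (7, 1), (11, 1), (21, 1), (15, 1), (23, 1), (31, 1), (79, 1), (95, 1), (159, 1), (351, 1)]
(.cut 5 [(0, 1), (1, 1), (2, 1), (3, 1), (5, 1), (7, 1), (11, 1), (21, 1), (15, 1), (23, 1), (31, 1), (79, 1), (95, 1), (159, 1), (223, 1)]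
(.cut 8 [(0, 1), (1, 1), (2, 1), (3, 1), (5, 1), (7, 1), (11, 1), (21, 1), (37, 1), (15, 1), (23, 1), (39, 1), (53, 1), (31, 1), (47, 1), (55, 1), (79, 1), (63, 1), (95, 1), (111, 1), (159, 1), (127, 1), (191, 1), (671, 1), (703, 1)]
(.lp [[5], [0, 2, 4, 7, 9], [1, 3, 6, 8, 10]] [(.mj 6 7, 9020), (.mj 9 5, 7310), (.mj 9 8, 4655), (.hz 5 351, 1222473), (.rw 8, 18), (.rw 9, 4), (.rw 10, 1)])))))
(.lp [[5], [1, 3, 6, 8], [0, 2, 4, 7, 9]] [(.mj 6 7, 7), (.mj 9 5, 5), (.mj 9 8, 2), (.hz 5 159, 3226), (.hz 5 223, 991), (.hz 5 351, 1730), (.hz 5 671, 408), (.hz 5 479, 4945)]))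
.fin))

theorem run102 : run P3488 (leaf3 218 625) (cutRow P3488) [] t102 s102 = true := by
  decide +kernel

theorem bad102 : Bad P3488 s102 :=
  run_sound (leaf3_sound P3488 rfl rfl) (cutRow_sound P3488) (
    fun _ h => absurd h List.not_mem_nil) t102 s102 run102

end Pool.Agent.WN.Data
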