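import Pool.Agent.WN.CutRow
import Pool.Agent.WN.LeafRow
import Pool.Agent.Helper99.WN.ParDef
import Pool.Agent.WN.Data.D17

/-!
# The search tree, part 22
-/

set_option autoImplicit false

namespace Pool.Agent.WN.Data

open Pool.Agent.W3 Pool.Agent.WN Pool.Agent.Helper99.WN

/-- the state above piece 170 of the tree -/
def s170 : St := ⟨[0, 0, 1, 3, 5, 15, 21, 31, 47, 159, 319, 671], [447, 303, 191, 63, 31, 23, 21, 15, 11, 7, 5, 3, 2, 1, 0], [0, 1, 2, 3, 4, 5, 7, 8, 9],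
  [(5, 6), (4, 5)],
  [⟨true, 2, 3, 3, 10⟩, ⟨true, 1, 5, 2, 5⟩, ⟨true, 2, 3, 23, 50⟩, ⟨true, 1, 5, 12, 25⟩, ⟨true, 1, 21, 27, 50⟩, ⟨true, 4, 15, 9, 40⟩, ⟨true, 3, 23, 11, 20⟩, ⟨true, 4, 47, 7, 20⟩, ⟨true, 4, 47, 17, 40⟩, ⟨true, 4, 47, 9, 20⟩, ⟨true, 4, 47, 19, 40⟩, ⟨true, 3, 87, 27, 40⟩, ⟨true, 5, 95, 1, 4⟩, ⟨true, 5, 159, 1, 4⟩, ⟨true, 7, 127, 7, 40⟩, ⟨true, 7, 95, 1, 5⟩, ⟨true, 8, 127, 7, 40⟩, ⟨true, 4, 303, 1, 2⟩, ⟨true, 6, 447, 1, 20⟩, ⟨true, 8, 127, 7, 25⟩],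
  [.spn 0 0 651200, .spn 1 1 302400, .spn 3 2 302400, .spn 7 3 302400, .spn 15 4 302400, .spn 31 5 140426, .spn 63 7 140426, .spn 191 8 140426, .spn 447 9 140426]⟩

/-- piece 170 of the tree -/
noncomputable def t170 : WN.Tree :=
(.mark 959 [6, 10, 11]
(.spn
(.haz 10 959 17 50
(.lp [[6], [1, 3, 5, 8, 10], [0, 2, 4, 7, 9, 11]] [(.mj 6 10, 1224), (.mj 8 9, 1224), (.mj 9 6, 1224), (.rw 9, 1), (.hz 20 959, 533894), (.hz 20 1023, 1223825), (.hz 20 3007, 1759249)])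
(.lp [[6], [1, 3, 5, 8, 10], [0, 2, 4, 7, 9, 11]] [(.mj 8 9, 5005), (.mj 9 6, 3068), (.rw 9, 4), (.hz 20 319, 871264), (.hz 20 447, 2135965), (.hz 20 959, 1909388), (.hz 18 1471, 7881026), (.hz 18 3007, 29267902)]))
(.ask 1343
(.mark 1983 [6, 11, 12]
(.spn
(.lp [[6], [0, 2, 4, 7, 9, 11], [1, 3, 5, 8, 10, 12]] [(.mj 6 11, 152), (.mj 7 8, 295), (.mj 8 9, 485), (.mj 9 10, 543), (.mj 10 6, 637), (.rw 10, 1), (.hz 18 3007, 9218700), (.hz 18 5567, 7005321)])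
(.cut 6 [(0, 1), (1, 1), (2, 1), (3, 1), (5, 1), (7, 1), (11, 1), (21, 1), (15, 1), (23, 1), (31, 1), (47, 1), (63, 1), (159, 1), (303, 1), (191, 1), (319, 1), (671, 1), (447, 1), (703, 1), (1343, 1), (959, 1), (1471, 1), (1983, 1)]
(.lp [[6], [0, 2, 4, 7, 9, 11], [1, 3, 5, 8, 10, 12]] [(.mj 7 8, 34889), (.mj 8 9, 38587), (.mj 9 10, 6241), (.mj 10 6, 2757), (.mj 11 6, 25578), (.rw 11, 94)]))
(.cut 6 [(0, 1), (1, 1), (2, 1), (3, 1), (5, 1), (7, 1), (11, 1), (21, 1), (15, 1), (23, 1), (31, 1), (47, 1), (63, 1), (159, 1), (303, 1), (191, 1), (319, 1), (447, 1)]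
(.lp [[6], [0, 2, 4, 7, 9, 11], [1, 3, 5, 8, 10, 12]] [(.mj 7 8, 10877), (.mj 8 9, 9930), (.mj 9 10, 1797), (.mj 12 6, 8864), (.hz 18 1471, 7129887), (.hz 18 1983, 34829446), (.hz 18 3007, 54886737), (.hz 18 5567, 10007216), (.hz 18 4031, 51313853), (.rw 11, 22)]))
.fin))
(.haz 11 1983 1 10
(.ask 1471
(.mark 1983 [6, 11, 12]
(.spn
(.lp [[6], [0, 2, 4, 7, 9, 11], [1, 3, 5, 8, 10, 12]] [(.mj 6 11, 269), (.mj 8 9, 960), (.mj 9 10, 1340), (.mj 10 6, 1102), (.rw 10, 2), (.hz 18 3007, 16080254), (.hz 18 5567, 10359443), (.hz 20 6079, 3298844)])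
(.cut 6 [(0, 1), (1, 1), (2, 1), (3, 1), (5, 1), (7, 1), (11, 1), (21, 1), (15, 1), (23, 1), (31, 1), (47, 1), (63, 1), (159, 1), (303, 1), (191, 1), (319, 1), (671, 1), (447, 1), (703, 1), (1343, 1), (959, 1), (1471, 1), (1983, 1)]
(.lp [[6], [0, 2, 4, 7, 9, 11], [1, 3, 5, 8, 10, 12]] [(.mj 8 9, 4142), (.mj 9 10, 2473), (.mj 11 6, 2343), (.hz 18 5567, 2584114), (.hz 18 6079, 13020866), (.rw 11, 8)]))
(.cut 6 [(0, 1), (1, 1), (2, 1), (3, 1), (5, 1), (7, 1), (11, 1), (21, 1), (15, 1), (23, 1), (31, 1), (47, 1), (63, 1), (159, 1), (303, 1), (191, 1), (319, 1), (671, 1), (447, 1), (703, 1), (1343, 1), (2719, 2), (959, 1), (1471, 1), (2751, 2), (1983, 1), (3007, 2), (4031, 1)]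
(.cut 6 [(0, 1), (1, 1), (2, 1), (3, 1), (5, 1), (7, 1), (11, 1), (21, 1), (15, 1), (23, 1), (31, 1), (47, 1), (63, 1), (159, 1), (303, 1), (191, 1), (319, 1), (671, 1), (447, 1), (703, 1), (959, 1)]
(.lp [[6], [0, 2, 4, 7, 9, 11], [1, 3, 5, 8, 10, 12]] [(.mj 8 9, 48), (.mj 9 10, 8605), (.mj 12 6, 5364), (.mj 12 11, 5334), (.rw 11, 1), (.rw 12, 14)])))
.fin))
(.ask 1983
(.mark 1983 [6, 11, 12]
(.spn
(.haz 11 6079 11 50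
(.lp [[6], [0, 2, 4, 7, 9, 11], [1, 3, 5, 8, 10, 12]] [(.mj 6 11, 47), (.mj 6 12, 26), (.mj 8 9, 17), (.mj 9 10, 29), (.mj 10 6, 64), (.hz 18 3007, 450535), (.hz 20 2047, 127648), (.hz 21 6079, 161480)])
(.lp [[6], [0, 2, 4, 7, 9, 11], [1, 3, 5, 8, 10, 12]] [(.mj 6 12, 29), (.mj 7 8, 3), (.mj 9 10, 20), (.mj 10 6, 33), (.hz 21 671, 4278), (.hz 21 703, 16416), (.hz 21 959, 35787), (.hz 21 1983, 57804), (.hz 18 3007, 170177), (.hz 20 6079, 451594)]))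
(.cut 6 [(0, 1), (1, 1), (2, 1), (3, 1), (5, 1), (7, 1), (11, 1), (21, 1), (15, 1), (23, 1), (31, 1), (47, 1), (63, 1), (159, 1), (303, 1), (191, 1), (319, 1), (447, 1), (1343, 1), (1471, 1)]
(.lp [[6], [0, 2, 4, 7, 9, 11], [1, 3, 5, 8, 10, 12]] [(.mj 8 9, 4592), (.mj 11 6, 6015), (.mj 11 12, 490), (.hz 18 3007, 15045867), (.hz 18 6079, 37636555), (.rw 11, 19)]))
(.cut 6 [(0, 1), (1, 1), (2, 1), (3, 1), (5, 1), (7, 1), (11, 1), (21, 1), (15, 1), (23, 1), (31, 1), (47, 1), (63, 1), (159, 1), (303, 1), (191, 1), (319, 1), (671, 1), (447, 1), (703, 1), (959, 1)]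
(.lp [[6], [0, 2, 4, 7, 9, 11], [1, 3, 5, 8, 10, 12]] [(.mj 7 8, 26355), (.mj 8 9, 28599), (.mj 9 10, 14137), (.mj 12 6, 23077), (.mj 12 11, 568), (.rw 10, 1), (.hz 12 2783, 43785163), (.hz 20 1983, 16743914), (.rw 11, 88)]))
.fin))
(.cut 6 [(0, 1), (1, 1), (2, 1), (3, 1), (5, 1), (7, 1), (11, 1), (21, 1), (15, 1), (23, 1), (31, 1), (47, 1), (63, 1), (159, 1), (303, 1), (191, 1), (319, 1), (447, 1), (1343, 1), (1471, 1)]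
(.lp [[6], [1, 3, 5, 8, 10], [0, 2, 4, 7, 9, 11]] [(.mj 7 8, 23), (.mj 8 9, 1496), (.mj 9 10, 206), (.mj 10 6, 794), (.hz 18 3007, 16959294), (.rw 10, 1)]))))
(.cut 6 [(0, 1), (1, 1), (2, 1), (3, 1), (5, 1), (7, 1), (11, 1), (21, 1), (15, 1), (23, 1), (31, 1), (47, 1), (63, 1), (159, 1), (303, 1), (191, 1), (319, 1), (671, 1), (447, 1), (703, 1), (959, 1)]
(.lp [[6], [1, 3, 5, 8, 10], [0, 2, 4, 7, 9, 11]] [(.mj 7 8, 20587), (.mj 9 10, 6404), (.mj 10 6, 14275), (.hz 20 671, 71453129), (.hz 20 703, 3074464), (.rw 10, 37)]))))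
(.cut 6 [(0, 1), (1, 1), (2, 1), (3, 1), (5, 1), (7, 1), (11, 1), (21, 1), (15, 1), (23, 1), (31, 1), (47, 1), (63, 1), (159, 1), (303, 1), (191, 1), (319, 1), (671, 1), (447, 1), (703, 1), (959, 1)]
(.lp [[6], [1, 3, 5, 8, 10], [0, 2, 4, 7, 9, 11]] [(.mj 7 8, 6006), (.mj 8 9, 9406), (.mj 11 6, 6963), (.mj 11 10, 3221), (.rw 10, 20)]))
.fin))

theorem run170 : run P3488 (leaf3 218 625) (cutRow P3488) [] t170 s170 = true := by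
  decide +kernel

theorem bad170 : Bad P3488 s170 :=
  run_sound (leaf3_sound P3488 rfl rfl) (cutRow_sound P3488) (
    fun _ h => absurd h List.not_mem_nil) t170 s170 run170

end Pool.Agent.WN.Data
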