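import Pool.Agent.WN.CutRow
import Pool.Agent.WN.LeafRow
import Pool.Agent.Helper99.WN.ParDef
import Pool.Agent.WN.Data.D0
import Pool.Agent.WN.Data.D7
import Pool.Agent.WN.Data.D9
import Pool.Agent.WN.Data.D15
import Pool.Agent.WN.Data.D16
import Pool.Agent.WN.Data.D17
import Pool.Agent.WN.Data.D19
import Pool.Agent.WN.Data.D21
import Pool.Agent.WN.Data.D22

/-!
# The search tree, part 27
-/

set_option autoImplicit false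

namespace Pool.Agent.WN.Data

open Pool.Agent.W3 Pool.Agent.WN Pool.Agent.Helper99.WN

/-- the state above piece 29 of the tree -/
def s29 : St := ⟨[0, 0, 1, 1, 3, 7, 15], [15, 13, 11, 9, 7, 5, 3, 2, 1, 0], [0, 1, 2, 3, 5],
  [],
  [⟨true, 1, 9, 7, 50⟩, ⟨true, 2, 11, 3, 50⟩, ⟨true, 2, 9, 9, 50⟩, ⟨true, 3, 3, 1, 5⟩, ⟨true, 1, 5, 13, 50⟩, ⟨true, 5, 31, 1, 8⟩, ⟨true, 4, 39, 1, 20⟩],
  [.spn 0 0 651200, .spn 1 1 140426, .spn 3 2 140426, .spn 7 3 62723, .spn 15 5 140426]⟩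

/-- piece 29 of the tree -/
noncomputable def t29 : WN.Tree :=
(.ask 39
(.mark 47 [4, 6, 7]
(.spn
(.haz 4 111 1 10
(.haz 4 79 3 40
(.haz 6 175 1 5
(.haz 6 175 7 25
(.haz 5 79 6 25
(.haz 4 79 3 25
(.haz 7 63 13 50
(.haz 4 167 3 25
(.maj 6 7
(.ask 19
(.mark 63 [6, 7, 8]
(.lp [[3, 6], [1, 4, 8], [0, 2, 5, 7]] [(.mj 3 5, 6), (.mj 4 6, 27), (.mj 5 4, 28), (.mj 6 7, 17), (.hz 11 79, 313), (.hz 3 167, 1338), (.hz 14 167, 2519), (.hz 13 63, 5296), (.hz 10 175, 9578), (.hz 13 319, 10670)]))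
(.ask 27
(.mark 63 [6, 7, 8]
(.lp [[3, 6], [1, 4, 8], [0, 2, 5, 7]] [(.mj 4 6, 4), (.mj 5 4, 4), (.mj 6 7, 3), (.hz 3 167, 683), (.hz 14 167, 311), (.hz 13 63, 964), (.hz 10 175, 1334), (.hz 13 319, 1474)]))
(.ask 23
(.mark 63 [6, 7, 8]
(.lp [[3, 6], [1, 4, 8], [0, 2, 5, 7]] [(.mj 3 5, 3), (.mj 4 6, 13), (.mj 5 4, 13), (.mj 6 7, 8), (.hz 11 79, 174), (.hz 3 167, 371), (.hz 14 167, 1235), (.hz 13 63, 2411), (.hz 10 175, 4602), (.hz 13 319, 5138)]))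
(.ask 55
(.mark 63 [6, 7, 8]
(.lp [[3, 6], [1, 4, 8], [0, 2, 5, 7]] [(.mj 3 5, 28), (.mj 4 6, 67), (.mj 5 4, 63), (.mj 6 7, 34), (.hz 12 79, 455), (.hz 14 167, 3599), (.hz 13 63, 10907), (.hz 10 175, 25283), (.hz 13 319, 23820)]))
(.ask 31
(.mark 63 [6, 7, 8]
(.lp [[3, 6], [1, 4, 8], [0, 2, 5, 7]] [(.mj 4 6, 4), (.mj 5 4, 4), (.mj 6 7, 3), (.hz 3 167, 683), (.hz 14 167, 311), (.hz 13 63, 964), (.hz 10 175, 1334), (.hz 13 319, 1488)]))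
(.ask 63
(.mark 63 [6, 7, 8]
(.lp [[3, 6], [1, 4, 8], [0, 2, 5, 7]] [(.mj 4 6, 17), (.mj 5 4, 17), (.mj 6 7, 13), (.hz 12 79, 800), (.hz 3 167, 2857), (.hz 14 167, 1425), (.hz 13 63, 4415), (.hz 10 175, 5776), (.hz 13 319, 5967)]))
(.lp [[1, 4], [3, 6], [0, 2, 5, 7]] [(.mj 4 6, 4), (.mj 5 4, 4), (.mj 6 7, 3), (.hz 3 167, 683), (.hz 14 167, 311), (.hz 13 63, 964), (.hz 10 175, 1334)])))))))
(.haz 6 63 11 50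
(.lp [[1, 4], [3, 6], [0, 2, 5, 7]] [(.mj 3 5, 43), (.mj 4 7, 66), (.mj 5 4, 110), (.mj 7 6, 95), (.hz 12 79, 32513), (.hz 14 167, 386), (.hz 15 63, 60607), (.hz 10 175, 31496)])
(.lp [[1, 4], [3, 6], [0, 2, 5, 7]] [(.mj 4 7, 25), (.mj 5 4, 49), (.hz 15 15, 1874), (.hz 15 47, 5115), (.hz 12 79, 19002), (.hz 14 167, 590), (.hz 13 63, 135), (.hz 10 175, 11910)])))
(.lp [[1, 4], [3, 6], [0, 2, 5, 7]] [(.mj 3 5, 15), (.mj 4 6, 35), (.mj 4 7, 21), (.hz 14 3, 4147), (.hz 14 7, 9951), (.hz 12 79, 1525), (.hz 3 167, 11793), (.hz 6 167, 10209), (.hz 10 175, 22345)]))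
(.lp [[1, 4], [3, 6], [0, 2, 5, 7]] [(.mj 4 6, 14), (.mj 5 4, 26), (.hz 13 39, 715), (.hz 13 47, 1931), (.hz 12 79, 11739), (.hz 10 175, 4869)]))
(.lp [[1, 4], [3, 6], [0, 2, 5, 7]] [(.mj 3 5, 2), (.mj 4 6, 5), (.mj 4 7, 2), (.hz 12 3, 195), (.hz 12 7, 319), (.hz 12 11, 319), (.hz 12 15, 2396), (.hz 8 79, 811), (.hz 11 79, 59), (.hz 3 167, 651), (.hz 10 175, 2826)]))
(.lp [[1, 4], [3, 6], [0, 2, 5, 7]] [(.mj 4 6, 1), (.mj 5 4, 3), (.mj 5 6, 2), (.hz 11 7, 385), (.hz 11 15, 347), (.hz 8 79, 981), (.hz 10 175, 230)]))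
(.haz 7 63 7 25
(.haz 4 79 3 25
(.haz 7 111 9 25
(.ask 79
(.mark 111 [4, 7, 8]
(.lp [[1, 4], [3, 6, 8], [0, 2, 5, 7]] [(.mj 2 3, 8), (.mj 4 7, 38), (.mj 5 4, 59), (.hz 10 15, 3900), (.hz 10 47, 669), (.hz 12 79, 10604), (.hz 11 63, 108), (.hz 13 111, 8915), (.hz 12 335, 21176), (.hz 13 367, 25939)]))
(.ask 111
(.mark 111 [4, 7, 8]
(.lp [[1, 4], [3, 6, 8], [0, 2, 5, 7]] [(.mj 4 7, 2), (.mj 5 4, 3), (.hz 10 47, 304), (.hz 12 79, 506), (.hz 11 63, 36), (.hz 13 111, 618), (.hz 13 367, 965)]))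
(.lp [[1, 4], [3, 6], [0, 2, 5, 7]] [(.mj 4 7, 2), (.mj 5 4, 3)])))
(.lp [[1, 4], [3, 6], [0, 2, 5, 7]] [(.mj 5 4, 2), (.hz 10 15, 38), (.hz 13 39, 83), (.hz 10 47, 650), (.hz 13 47, 650), (.hz 12 79, 946), (.hz 11 63, 74)]))
(.lp [[1, 4], [3, 6], [0, 2, 5, 7]] [(.mj 4 6, 3), (.mj 4 7, 5), (.hz 12 3, 198), (.hz 12 7, 751), (.hz 12 11, 324), (.hz 12 15, 3122), (.hz 10 15, 548), (.hz 10 47, 1137), (.hz 8 79, 1310), (.hz 9 175, 17986)]))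
(.lp [[1, 4], [3, 6], [0, 2, 5, 7]] [(.mj 2 3, 2), (.mj 5 4, 4), (.hz 10 15, 150), (.hz 11 39, 234), (.hz 10 47, 1222), (.hz 11 47, 1222), (.hz 8 79, 1279)])))
(.haz 7 111 7 25
(.ask 79
(.mark 111 [4, 7, 8]
(.lp [[1, 4], [3, 6, 8], [0, 2, 5, 7]] [(.mj 2 3, 14), (.mj 4 7, 67), (.mj 5 4, 103), (.hz 9 15, 53643), (.hz 6 167, 202), (.hz 7 111, 54644), (.hz 10 111, 17273), (.hz 8 335, 24356), (.hz 7 367, 44918), (.hz 10 367, 45008)]))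
(.ask 111
(.mark 111 [4, 7, 8]
(.lp [[1, 4], [3, 6, 8], [0, 2, 5, 7]] [(.mj 4 7, 2), (.mj 5 4, 3), (.hz 9 47, 2191), (.hz 6 167, 52), (.hz 7 111, 1399), (.hz 10 111, 726), (.hz 10 367, 1008)]))
(.lp [[1, 4], [3, 6], [0, 2, 5, 7]] [(.mj 4 7, 2), (.mj 5 4, 3)])))
(.lp [[1, 4], [3, 6], [0, 2, 5, 7]] [(.mj 5 4, 1), (.hz 9 15, 598), (.hz 10 39, 50), (.hz 9 47, 1631), (.hz 10 47, 326)])))
(.lp [[1, 4], [3, 6], [0, 2, 5, 7]] [(.mj 4 6, 2), (.mj 4 7, 2), (.hz 8 3, 129), (.hz 8 7, 157), (.hz 8 15, 346)]))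
(.lp [[1, 4], [3, 6], [0, 2, 5, 7]] [(.mj 4 6, 14), (.mj 4 7, 14), (.hz 7 3, 1416), (.hz 7 7, 2281), (.hz 7 11, 2281), (.hz 7 15, 6484), (.hz 7 39, 2534), (.hz 7 47, 10020), (.hz 6 167, 81), (.hz 6 111, 228)]))
(.haz 3 167 1 4
(.haz 3 167 3 10
(.ref 0)
(.lp [[1, 4], [3, 6], [0, 2, 5, 7]] [(.mj 3 5, 1), (.mj 6 4, 4), (.mj 6 7, 4), (.hz 8 7, 2383), (.hz 3 19, 607), (.hz 3 23, 4112), (.hz 8 39, 1648), (.hz 3 55, 5655), (.hz 7 167, 8049), (.hz 6 167, 1332), (.hz 6 175, 6175)]))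
(.lp [[1, 4], [3, 6], [0, 2, 5, 7]] [(.mj 3 5, 2), (.mj 6 4, 4), (.mj 6 7, 3), (.hz 3 3, 471), (.hz 7 7, 6311), (.hz 3 23, 3956), (.hz 7 39, 3122), (.hz 3 167, 4761), (.hz 6 167, 1236)]))
(.ref 1)
.fin))
(.haz 3 23 11 40
(.haz 3 23 13 40
(.haz 3 55 21 40
(.ask 47
(.mark 47 [4, 6, 7]
(.spn
(.ask 19
(.mark 63 [6, 7, 8]
(.lp [[3, 6], [1, 4, 8], [0, 2, 5, 7]] [(.mj 2 3, 85), (.mj 4 7, 6), (.mj 5 4, 14), (.hz 8 23, 2882), (.hz 3 275, 28700), (.hz 8 279, 2637), (.hz 6 111, 12158), (.hz 9 311, 4935)]))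
(.haz 4 111 7 50
(.ask 27
(.mark 63 [6, 7, 8]
(.lp [[3, 6], [1, 4, 8], [0, 2, 5, 7]] [(.mj 2 3, 1)]))
(.haz 6 175 2 25
(.ask 23
(.mark 63 [6, 7, 8]
(.lp [[3, 6], [1, 4, 8], [0, 2, 5, 7]] [(.mj 2 3, 147), (.mj 4 7, 14), (.mj 5 4, 38), (.hz 9 55, 6735), (.hz 8 279, 7572), (.hz 10 111, 13577), (.hz 11 175, 6852), (.hz 9 311, 4177)]))
(.haz 3 55 3 5
(.haz 6 175 3 25
(.lp [[1, 4], [3, 6], [0, 2, 5, 7]] [(.mj 2 3, 339), (.mj 4 7, 32), (.mj 5 4, 93), (.hz 12 55, 172946), (.hz 10 111, 32669), (.hz 13 175, 15231)])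
(.lp [[1, 4], [3, 6], [0, 2, 5, 7]] [(.mj 2 3, 2), (.mj 4 7, 10), (.mj 5 4, 16), (.hz 13 15, 2047), (.hz 13 47, 2188), (.hz 10 111, 3178), (.hz 11 175, 4670)]))
(.lp [[1, 4], [3, 6], [0, 2, 5, 7]] [(.mj 2 3, 30), (.mj 5 4, 13), (.hz 12 39, 12967), (.hz 9 55, 3550), (.hz 10 111, 4796), (.hz 11 175, 1243)])))
(.lp [[1, 4], [3, 6], [0, 2, 5, 7]] [(.mj 2 3, 2), (.mj 4 7, 16), (.mj 5 4, 24), (.hz 11 15, 2991), (.hz 11 47, 3079), (.hz 10 111, 4579)])))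
(.lp [[1, 4], [3, 6], [0, 2, 5, 7]] [(.mj 2 3, 12), (.mj 4 7, 1), (.hz 10 7, 163), (.hz 8 23, 577), (.hz 10 39, 229)])))
(.lp [[1, 4], [3, 6], [0, 2, 5, 7]] [(.mj 2 3, 19), (.mj 6 4, 3), (.mj 6 7, 1), (.hz 3 19, 6588), (.hz 8 23, 760), (.hz 9 55, 471), (.hz 6 111, 734), (.hz 6 175, 1968)])
(.ask 175
(.mark 175 [4, 6, 8]
(.spn
(.lp [[1, 4], [3, 6], [0, 2, 5, 7, 8]] [(.mj 7 4, 368), (.rw 6, 1)])
(.lp [[1, 4], [3, 6], [0, 2, 5, 7, 8]] [(.mj 2 3, 20123), (.mj 6 4, 1934), (.rw 6, 1), (.hz 3 19, 6965647), (.hz 8 23, 803729), (.hz 9 55, 497546), (.hz 6 111, 1692858), (.hz 6 175, 631424), (.hz 6 431, 664656)])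
(.haz 4 47 1 10
(.lp [[1, 4], [3, 6], [0, 2, 5, 7, 8]] [(.mj 2 3, 38), (.mj 8 4, 16), (.hz 3 19, 3711), (.hz 8 23, 428), (.hz 10 47, 24561), (.hz 9 55, 265), (.hz 10 111, 10996), (.hz 10 175, 10996)])
(.ask 431
(.mark 431 [4, 6, 9]
(.spn
(.lp [[1, 4], [3, 6], [0, 2, 5, 7, 8, 9]] [(.mj 8 4, 173), (.rw 7, 1)])
(.lp [[1, 4], [3, 6], [0, 2, 5, 7, 8, 9]] [(.mj 8 6, 591), (.rw 7, 1)])
(.cut 4 [(0, 1), (1, 1), (2, 1), (3, 1), (5, 1), (9, 1), (7, 1), (13, 1), (39, 1)]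
(.cut 6 [(0, 1), (1, 1), (2, 1), (3, 1), (5, 1), (9, 1), (7, 1), (11, 1), (13, 1), (19, 1), (15, 1), (23, 1), (27, 1), (39, 1), (55, 1)]
(.cut 6 [(0, 1), (1, 1), (2, 1), (3, 1), (5, 1), (9, 1), (7, 1), (11, 1), (13, 1), (19, 1), (15, 1), (23, 1), (27, 1), (39, 1), (31, 1), (55, 1)]
(.cut 4 [(0, 1), (1, 1), (2, 1), (3, 1), (5, 1), (9, 1), (7, 1), (11, 1), (13, 1), (15, 1), (39, 1), (47, 1)]
(.cut 4 [(0, 1), (1, 1), (2, 1), (3, 1), (5, 1), (9, 1), (7, 1), (11, 1), (13, 1), (15, 1), (39, 1), (47, 1), (79, 1), (175, 1)]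
(.lp [[1, 4], [3, 6], [0, 2, 5, 7, 8, 9]] [(.mj 2 3, 251185), (.mj 9 4, 109418), (.hz 6 431, 27197903), (.rw 8, 179), (.rw 9, 1), (.rw 10, 8), (.rw 11, 102), (.rw 12, 19)]))))))
.fin))
(.lp [[1, 4], [3, 6], [0, 2, 5, 7, 8]] [(.mj 8 6, 1), (.rw 6, 1)])))
.fin))
(.lp [[1, 4], [3, 6], [0, 2, 5, 7]] [(.mj 7 6, 1), (.rw 5, 1)]))
.fin))
(.lp [[1, 4], [3, 6], [0, 2, 5]] [(.mj 2 3, 40), (.mj 5 4, 10), (.hz 3 19, 9414), (.hz 8 23, 1086), (.hz 9 55, 1554), (.hz 6 111, 7206)]))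
(.lp [[1, 4], [3, 6], [0, 2, 5]] [(.mj 2 3, 14), (.mj 5 4, 6), (.hz 3 19, 1406), (.hz 8 23, 2277), (.hz 9 39, 687)]))
(.lp [[1, 4], [3, 6], [0, 2, 5]] [(.mj 3 5, 1), (.mj 5 4, 1), (.hz 8 7, 215), (.hz 7 23, 191)]))
(.lp [[1, 4], [3, 6], [0, 2, 5]] [(.mj 3 4, 1), (.hz 7 7, 169), (.hz 3 23, 744)])))

theorem run29 : run P3488 (leaf3 218 625) (cutRow P3488) [s27, s28] t29 s29 = true := by
  decide +kernel

theorem bad29 : Bad P3488 s29 :=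
  run_sound (leaf3_sound P3488 rfl rfl) (cutRow_sound P3488) (
    List.forall_mem_cons.2 ⟨bad27, List.forall_mem_cons.2 ⟨bad28, fun _ h => absurd h List.not_mem_nil⟩⟩) t29 s29 run29

/-- the state above piece 245 of the tree -/
def s245 : St := ⟨[0, 0, 1, 3, 5, 15, 31, 31, 63, 95, 319], [127, 63, 47, 31, 23, 21, 15, 11, 7, 5, 3, 2, 1, 0], [0, 1, 2, 3, 4, 5, 6, 8],
  [(4, 5)],
  [⟨true, 2, 3, 3, 10⟩, ⟨true, 1, 5, 2, 5⟩, ⟨true, 2, 3, 23, 50⟩, ⟨true, 1, 5, 12, 25⟩, ⟨true, 1, 21, 27, 50⟩, ⟨true, 4, 15, 9, 40⟩, ⟨true, 3, 23, 11, 20⟩, ⟨true, 4, 47, 7, 20⟩, ⟨true, 4, 47, 17, 40⟩, ⟨true, 4, 47, 9, 20⟩, ⟨true, 4, 47, 19, 40⟩, ⟨true, 5, 31, 3, 10⟩, ⟨true, 4, 47, 3, 5⟩, ⟨true, 4, 47, 5, 8⟩, ⟨true, 6, 159, 1, 10⟩, ⟨true, 6, 319, 1, 8⟩, ⟨true, 6, 319, 1, 5⟩],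
  [.spn 0 0 651200, .spn 1 1 302400, .spn 3 2 302400, .spn 7 3 302400, .spn 15 4 302400, .spn 31 5 140426, .spn 63 6 140426, .spn 127 8 140426]⟩

/-- piece 245 of the tree -/
noncomputable def t245 : WN.Tree :=
(.mark 383 [7, 9, 10]
(.spn
(.haz 9 1407 1 10
(.haz 7 639 3 40
(.haz 9 1407 1 8
(.haz 7 639 1 8
(.haz 9 1407 1 5
(.haz 7 1407 3 20
(.haz 9 383 9 40
(.maj 9 10
(.haz 10 511 13 40
(.lp [[7], [0, 2, 4, 6, 9], [1, 3, 5, 8, 10]] [(.mj 3 4, 2989), (.mj 6 8, 60503), (.mj 7 9, 144084), (.mj 8 7, 159716), (.mj 9 10, 99398), (.rw 7, 7), (.rw 8, 6), (.hz 11 607, 28768959), (.hz 20 639, 512403194), (.hz 24 511, 271792634), (.hz 23 1407, 114816891)])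
(.lp [[7], [0, 2, 4, 6, 9], [1, 3, 5, 8, 10]] [(.mj 6 8, 32), (.mj 7 9, 46), (.mj 8 7, 53), (.hz 24 319, 4512), (.hz 24 383, 16723), (.hz 23 511, 42974), (.hz 22 1407, 18830), (.hz 23 1407, 36234)]))
(.lp [[7], [0, 2, 4, 6, 9], [1, 3, 5, 8, 10]] [(.mj 6 8, 8), (.mj 7 10, 12), (.mj 8 7, 20), (.mj 10 9, 16), (.hz 11 607, 6759), (.hz 20 639, 133139), (.hz 23 511, 41050), (.hz 22 1407, 650), (.hz 23 1407, 12496)]))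
(.lp [[7], [0, 2, 4, 6, 9], [1, 3, 5, 8, 10]] [(.mj 6 8, 15), (.mj 7 10, 5), (.mj 8 7, 14), (.hz 23 95, 2245), (.hz 23 127, 4878), (.hz 23 383, 6951), (.hz 20 639, 46814), (.hz 22 1407, 17379), (.hz 21 1407, 42475)]))
(.lp [[7], [0, 2, 4, 6, 9], [1, 3, 5, 8, 10]] [(.mj 6 8, 9), (.mj 7 9, 28), (.mj 7 10, 15), (.hz 22 31, 6115), (.hz 22 63, 10591), (.hz 22 95, 7194), (.hz 22 127, 20924), (.hz 22 383, 35882), (.hz 20 639, 2473), (.hz 21 1407, 309806)]))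
(.lp [[7], [0, 2, 4, 6, 9], [1, 3, 5, 8, 10]] [(.mj 6 8, 260), (.mj 7 10, 110), (.mj 8 7, 247), (.hz 21 95, 303300), (.hz 21 127, 651449), (.hz 21 383, 916403), (.hz 20 639, 797909), (.hz 19 1407, 685768), (.hz 20 1919, 741773)]))
(.lp [[7], [0, 2, 4, 6, 9], [1, 3, 5, 8, 10]] [(.mj 6 8, 2281), (.mj 7 9, 12165), (.mj 7 10, 8166), (.rw 8, 1), (.hz 20 31, 6321157), (.hz 20 63, 16258921), (.hz 20 95, 7224179), (.hz 20 127, 60670896), (.hz 18 639, 8119763), (.hz 19 1407, 92490723)]))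
(.lp [[7], [0, 2, 4, 6, 9], [1, 3, 5, 8, 10]] [(.mj 6 8, 2), (.mj 7 10, 1), (.mj 8 7, 2), (.hz 19 95, 1448), (.hz 19 127, 3906), (.hz 19 383, 4186), (.hz 17 1407, 3759)]))
(.lp [[7], [0, 2, 4, 6, 9], [1, 3, 5, 8, 10]] [(.mj 6 8, 2), (.mj 7 9, 10), (.mj 7 10, 10), (.hz 18 31, 2646), (.hz 18 63, 6754), (.hz 17 1407, 11783)]))
(.lp [[7], [0, 2, 4, 6, 9], [1, 3, 5, 8, 10]] [(.mj 6 8, 4), (.mj 7 10, 2), (.mj 8 7, 4), (.hz 17 95, 2413), (.hz 17 127, 6433), (.hz 17 383, 6795)]))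
(.haz 7 95 1 20
(.haz 9 1535 1 10
(.haz 9 1535 3 10
(.haz 6 159 1 4
(.ask 607
(.ref 0)
(.ask 639
(.ref 1)
(.haz 9 1407 7 20
(.haz 5 159 2 5
(.ask 895
(.mark 895 [7, 10, 11]
(.spn
(.haz 10 2943 3 20
(.haz 10 2943 1 5
(.haz 10 383 3 10
(.lp [[7], [1, 3, 5, 8, 10], [0, 2, 4, 6, 9, 11]] [(.mj 7 10, 5), (.mj 7 11, 1), (.mj 8 9, 2), (.mj 9 7, 5), (.hz 25 511, 29423), (.hz 25 895, 7052), (.hz 25 2943, 31294)])
(.haz 10 2943 1 4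
(.ask 1343
(.mark 1407 [7, 9, 12]
(.lp [[7], [0, 2, 4, 6, 9, 11], [1, 3, 5, 8, 10, 12]] [(.mj 7 10, 133), (.mj 7 11, 57), (.mj 8 9, 114), (.mj 9 7, 172), (.hz 25 319, 41456), (.hz 17 1407, 331127), (.hz 17 1919, 8819), (.hz 26 2943, 2546982), (.hz 17 5503, 498452), (.hz 21 5503, 8819)]))
(.lp [[7], [1, 3, 5, 8, 10], [0, 2, 4, 6, 9, 11]] [(.mj 7 10, 2851), (.mj 7 11, 1490), (.mj 8 9, 2815), (.mj 9 7, 4029), (.hz 25 383, 3660303), (.hz 17 1407, 7870869), (.hz 26 2943, 58673388)]))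
(.lp [[7], [1, 3, 5, 8, 10], [0, 2, 4, 6, 9, 11]] [(.mj 7 11, 223), (.mj 8 9, 229), (.mj 9 7, 307), (.hz 26 319, 772543), (.hz 26 383, 2088015), (.hz 26 895, 3236851), (.hz 17 1407, 633661), (.hz 24 2943, 3341265)])))
(.lp [[7], [1, 3, 5, 8, 10], [0, 2, 4, 6, 9, 11]] [(.mj 7 11, 3), (.mj 8 9, 3), (.mj 9 7, 4), (.hz 24 319, 8930), (.hz 24 383, 25222), (.hz 24 895, 35067), (.hz 23 2943, 12092)]))
(.lp [[7], [1, 3, 5, 8, 10], [0, 2, 4, 6, 9, 11]] [(.mj 5 6, 1), (.mj 7 11, 10), (.mj 8 9, 9), (.mj 9 7, 12), (.hz 23 319, 6008), (.hz 23 383, 16662), (.hz 23 895, 22503)]))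
(.ref 2)
(.ask 2943
(.mark 2943 [7, 10, 12]
(.spn
(.lp [[7], [1, 3, 5, 8, 10], [0, 2, 4, 6, 9, 11, 12]] [(.mj 11 7, 141), (.rw 10, 1)])
(.cut 7 [(0, 1), (1, 1), (2, 1), (3, 1), (5, 1), (7, 1), (11, 1), (21, 1), (15, 1), (23, 1), (31, 1), (47, 1), (63, 1), (95, 1), (127, 1), (319, 1), (607, 1), (383, 1), (639, 1), (1343, 2), (895, 1), (1407, 1), (2943, 1)]
(.lp [[7], [1, 3, 5, 8, 10], [0, 2, 4, 6, 9, 11, 12]] [(.mj 8 9, 15606), (.mj 10 12, 35056), (.mj 11 10, 162474), (.rw 9, 27), (.rw 10, 197), (.hz 20 191, 1), (.hz 17 1407, 1282682183), (.hz 17 1919, 1308238190), (.rw 11, 127)]))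
(.cut 7 [(0, 1), (1, 1), (2, 1), (3, 1), (5, 1), (7, 1), (11, 1), (21, 1), (15, 1), (23, 1), (31, 1), (47, 1), (63, 1), (95, 1), (127, 1), (319, 1), (607, 1), (383, 1), (639, 1), (895, 1)]
(.cut 10 [(0, 1), (1, 1), (2, 1), (3, 1), (5, 1), (7, 1), (11, 1), (21, 1), (15, 1), (23, 1), (31, 1), (47, 1), (63, 1), (95, 1), (159, 1), (127, 1), (191, 1), (223, 1), (319, 1), (607, 1), (255, 1), (383, 1), (447, 1), (639, 1), (735, 1), (511, 1), (767, 1), (895, 1), (1023, 1)]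
(.lp [[7], [1, 3, 5, 8, 10], [0, 2, 4, 6, 9, 11, 12]] [(.mj 8 9, 31680), (.mj 12 7, 51627), (.mj 12 10, 16437), (.hz 17 607, 28136730), (.hz 20 1471, 613182399), (.hz 21 1535, 331993708), (.hz 17 2943, 47118210), (.hz 17 3967, 146977321), (.rw 11, 161), (.rw 12, 22)])))
.fin))
(.lp [[7], [1, 3, 5, 8, 10], [0, 2, 4, 6, 9, 11]] [(.mj 11 10, 1), (.rw 9, 1)]))
.fin))
(.spn
(.lp [[7], [0, 2, 4, 6, 9], [1, 3, 5, 8, 10]] [(.mj 7 10, 2), (.mj 9 7, 3)])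
(.cut 7 [(0, 1), (1, 1), (2, 1), (3, 1), (5, 1), (7, 1), (11, 1), (21, 1), (15, 1), (23, 1), (31, 1), (47, 1), (63, 1), (95, 1), (127, 1), (319, 1), (607, 1), (383, 1), (639, 1), (1343, 2), (895, 1), (1407, 1)]
(.lp [[7], [0, 2, 4, 6, 9], [1, 3, 5, 8, 10]] [(.mj 9 10, 4955), (.mj 10 7, 2389), (.hz 17 1407, 21251284), (.rw 10, 2)]))
.fin
.fin))
(.lp [[7], [0, 2, 4, 6, 9], [1, 3, 5, 8, 10]] [(.mj 3 4, 1), (.hz 22 31, 209)]))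
(.lp [[7], [0, 2, 4, 6, 9], [1, 3, 5, 8, 10]] [(.mj 8 9, 1), (.mj 9 7, 8), (.mj 9 10, 9), (.hz 21 383, 19780), (.hz 17 1407, 66877)]))))
(.cut 7 [(0, 1), (1, 1), (2, 1), (3, 1), (5, 1), (7, 1), (11, 1), (21, 1), (15, 1), (23, 1), (31, 1), (47, 1), (63, 1), (95, 1), (127, 1), (319, 1), (383, 1)]
(.lp [[7], [0, 2, 4, 6, 9], [1, 3, 5, 8, 10]] [(.mj 6 8, 505), (.mj 8 7, 121), (.mj 9 7, 573), (.mj 9 10, 103), (.hz 20 31, 1993861), (.hz 11 159, 75525), (.rw 9, 1)])))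
(.lp [[7], [0, 2, 4, 6, 9], [1, 3, 5, 8, 10]] [(.mj 6 8, 1795), (.mj 9 10, 607), (.rw 8, 4), (.hz 19 383, 19074588), (.hz 17 1407, 6448219)]))
(.lp [[7], [0, 2, 4, 6, 9], [1, 3, 5, 8, 10]] [(.mj 9 7, 1), (.mj 9 10, 1), (.hz 18 95, 456), (.hz 18 127, 1217), (.hz 18 383, 2025)]))
(.cut 7 [(0, 1), (1, 1), (2, 1), (3, 1), (5, 1), (7, 1), (11, 1), (21, 1), (15, 1), (23, 1), (31, 1), (47, 1), (63, 1), (95, 1), (127, 1)]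
(.lp [[7], [0, 2, 4, 6, 9], [1, 3, 5, 8, 10]] [(.mj 5 6, 46), (.hz 17 31, 728121), (.hz 16 447, 808091), (.rw 9, 1)])))
(.haz 8 639 1 5
(.haz 9 383 9 40
(.ask 1343
(.mark 1407 [7, 9, 11]
(.cut 7 [(0, 1), (1, 1), (2, 1), (3, 1), (5, 1), (7, 1), (11, 1), (21, 1), (15, 1), (23, 1), (31, 1), (47, 1), (63, 1), (95, 1), (127, 1)]
(.lp [[7], [0, 2, 4, 6, 9], [1, 3, 5, 8, 10, 11]] [(.mj 6 8, 5685), (.mj 10 7, 3918), (.mj 10 9, 3918), (.hz 18 383, 1105910), (.hz 11 735, 3172468), (.hz 18 511, 13310717), (.rw 9, 8)])))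
(.ask 1407
(.mark 1407 [7, 9, 11]
(.spn
(.lp [[7], [0, 2, 4, 6, 9], [1, 3, 5, 8, 10, 11]] [(.mj 6 8, 1043), (.mj 7 9, 1091), (.mj 10 7, 1091), (.rw 9, 1), (.hz 18 383, 294285), (.hz 18 1407, 674007), (.hz 18 3455, 869687)])
(.cut 7 [(0, 1), (1, 1), (2, 1), (3, 1), (5, 1), (7, 1), (11, 1), (21, 1), (15, 1), (23, 1), (31, 1), (47, 1), (63, 1), (95, 1), (127, 1), (319, 1), (607, 1), (383, 1), (639, 1), (895, 1)]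
(.cut 7 [(0, 1), (1, 1), (2, 1), (3, 1), (5, 1), (7, 1), (11, 1), (21, 1), (15, 1), (23, 1), (31, 1), (47, 1), (63, 1), (95, 1), (127, 1), (319, 1), (383, 1), (1343, 1), (1407, 1)]
(.lp [[7], [0, 2, 4, 6, 9], [1, 3, 5, 8, 10, 11]] [(.mj 6 8, 211570), (.mj 9 7, 178242), (.mj 9 11, 62086), (.mj 10 9, 309675), (.rw 9, 109), (.hz 11 735, 239046741), (.rw 10, 82), (.rw 11, 549)])))
(.cut 7 [(0, 1), (1, 1), (2, 1), (3, 1), (5, 1), (7, 1), (11, 1), (21, 1), (15, 1), (23, 1), (31, 1), (47, 1), (63, 1), (95, 1), (127, 1)]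
(.lp [[7], [0, 2, 4, 6, 9], [1, 3, 5, 8, 10, 11]] [(.mj 6 8, 2297), (.mj 11 9, 1152), (.rw 9, 2), (.hz 18 383, 2250115), (.hz 11 735, 1099916), (.hz 18 1407, 3133692), (.rw 10, 3)]))
.fin))
(.lp [[7], [0, 2, 4, 6, 9], [1, 3, 5, 8, 10]] [(.mj 10 7, 3), (.mj 10 9, 5), (.hz 16 447, 20368), (.hz 18 511, 9053), (.hz 18 1535, 8245)])))
(.haz 7 383 1 10
(.lp [[7], [0, 2, 4, 6, 9], [1, 3, 5, 8, 10]] [(.mj 6 8, 14), (.mj 10 7, 11), (.hz 18 95, 1642), (.hz 18 127, 4674), (.hz 19 383, 53662), (.hz 18 383, 358), (.hz 19 895, 75073), (.hz 19 1407, 42242)])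
(.lp [[7], [0, 2, 4, 6, 9], [1, 3, 5, 8, 10]] [(.mj 0 1, 31), (.hz 19 31, 237), (.hz 19 95, 440), (.hz 18 95, 110), (.hz 11 159, 200), (.hz 19 127, 355), (.hz 18 127, 89), (.hz 18 383, 50)])))
(.lp [[7], [0, 2, 4, 6, 9], [1, 3, 5, 8, 10]] [(.mj 10 7, 1), (.mj 10 9, 1), (.hz 17 63, 4011)]))
.fin))

theorem run245 : run P3488 (leaf3 218 625) (cutRow P3488) [s242, s241, s240] t245 s245 = true := by
  decide +kernel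

theorem bad245 : Bad P3488 s245 :=
  run_sound (leaf3_sound P3488 rfl rfl) (cutRow_sound P3488) (
    List.forall_mem_cons.2 ⟨bad242, List.forall_mem_cons.2 ⟨bad241, List.forall_mem_cons.2 ⟨bad240, fun _ h => absurd h List.not_mem_nil⟩⟩⟩) t245 s245 run245

/-- the state above piece 101 of the tree -/
def s101 : St := ⟨[0, 0, 1, 3, 5, 5, 15, 31, 79], [95, 31, 23, 21, 15, 11, 7, 3, 2, 1, 0], [0, 1, 2, 3, 4, 6, 7],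
  [],
  [⟨true, 2, 3, 3, 10⟩, ⟨true, 1, 5, 2, 5⟩, ⟨true, 2, 3, 23, 50⟩, ⟨true, 1, 5, 12, 25⟩, ⟨true, 2, 11, 12, 25⟩, ⟨true, 5, 31, 3, 50⟩, ⟨true, 3, 39, 21, 50⟩, ⟨true, 4, 79, 1, 10⟩, ⟨true, 4, 79, 3, 20⟩, ⟨true, 4, 79, 1, 5⟩, ⟨true, 6, 159, 3, 20⟩, ⟨true, 6, 159, 1, 5⟩, ⟨true, 6, 159, 1, 4⟩],
  [.spn 0 0 651200, .spn 1 1 302400, .spn 3 2 302400, .spn 7 3 140426, .spn 15 4 140426, .spn 31 6 140426, .spn 95 7 140426]⟩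

/-- piece 101 of the tree -/
noncomputable def t101 : WN.Tree :=
(.maj 5 8
(.haz 8 95 7 25
(.ask 159
(.mark 223 [5, 8, 9]
(.cut 5 [(0, 1), (1, 1), (2, 1), (3, 1), (5, 1), (7, 1), (11, 1), (21, 1), (15, 1), (23, 1), (31, 1), (79, 1), (95, 1)]
(.lp [[5], [1, 3, 6, 8], [0, 2, 4, 7, 9]] [(.mj 5 8, 1324), (.mj 6 7, 1349), (.mj 7 5, 1324), (.hz 13 127, 1103699), (.hz 13 223, 421433), (.hz 5 671, 316765), (.hz 13 735, 1059551), (.rw 7, 1)])))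
(.ask 223
(.mark 223 [5, 8, 9]
(.lp [[5], [1, 3, 6, 8], [0, 2, 4, 7, 9]] [(.mj 5 8, 6), (.mj 6 7, 1), (.mj 7 5, 4), (.hz 13 95, 1403), (.hz 13 127, 1898), (.hz 13 223, 2376), (.hz 5 351, 777), (.hz 13 735, 3300)]))
(.lp [[5], [0, 2, 4, 7], [1, 3, 6, 8]] [(.mj 5 8, 1), (.mj 7 5, 1)])))
(.haz 4 335 12 25
(.haz 7 383 14 25
(.ask 159
(.mark 223 [5, 8, 9]
(.spn
(.haz 8 735 1 5
(.lp [[5], [1, 3, 6, 8], [0, 2, 4, 7, 9]] [(.mj 5 8, 31706), (.mj 6 7, 94625), (.mj 7 5, 64706), (.rw 7, 64), (.hz 13 79, 4950135), (.hz 13 95, 12534769), (.hz 5 351, 19503979), (.hz 5 671, 45138902), (.hz 16 735, 126824466)])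
(.lp [[5], [1, 3, 6, 8], [0, 2, 4, 7, 9]] [(.mj 6 7, 2401), (.mj 7 5, 1228), (.rw 7, 2), (.hz 16 79, 861881), (.hz 16 95, 2628738), (.hz 16 223, 1460410)]))
(.con 8 5)
(.cut 5 [(0, 1), (1, 1), (2, 1), (3, 1), (5, 1), (7, 1), (11, 1), (21, 1), (15, 1), (23, 1), (31, 1), (79, 1), (95, 1), (159, 1), (223, 1)]
(.lp [[5], [1, 3, 6, 8], [0, 2, 4, 7, 9]] [(.mj 5 8, 98), (.mj 6 7, 489), (.mj 9 5, 265), (.hz 13 79, 24541), (.hz 13 95, 78258), (.rw 8, 1)]))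
.fin))
(.ask 223
(.mark 223 [5, 8, 9]
(.spn
(.haz 8 735 7 50
(.ask 735
(.haz 8 735 1 5
(.mark 735 [5, 8, 10]
(.lp [[5], [1, 3, 6, 8], [0, 2, 4, 7, 9, 10]] [(.mj 5 8, 12), (.mj 5 9, 6), (.mj 7 5, 17), (.hz 14 335, 161), (.hz 5 351, 6098), (.hz 17 735, 58860), (.hz 17 767, 34109), (.hz 17 1759, 34109)]))
(.lp [[5], [1, 3, 6, 8], [0, 2, 4, 7, 9, 10]] [(.mj 5 9, 6), (.mj 7 5, 8), (.hz 17 79, 4109), (.hz 17 95, 9021), (.hz 17 223, 22184), (.hz 5 351, 4681), (.hz 16 735, 3226)]))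
(.lp [[5], [1, 3, 6, 8], [0, 2, 4, 7, 9]] [(.mj 5 8, 2), (.mj 7 5, 3)]))
(.lp [[5], [1, 3, 6, 8], [0, 2, 4, 7, 9]] [(.mj 5 9, 11), (.mj 6 7, 9), (.mj 7 5, 12), (.hz 16 79, 842), (.hz 16 95, 2234), (.hz 16 223, 3181), (.hz 5 351, 3729)]))
(.con 8 5)
(.cut 5 [(0, 1), (1, 1), (2, 1), (3, 1), (5, 1), (7, 1), (11, 1), (21, 1), (15, 1), (23, 1), (31, 1), (79, 1), (95, 1), (159, 1), (223, 1)]
(.lp [[5], [1, 3, 6, 8], [0, 2, 4, 7, 9]] [(.mj 6 7, 1221), (.mj 9 5, 1247), (.hz 14 335, 124433), (.hz 5 351, 2430593), (.hz 15 383, 4942635), (.rw 8, 4)]))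
.fin))
(.lp [[5], [0, 2, 4, 7], [1, 3, 6, 8]] [(.mj 5 8, 1), (.mj 7 5, 1)])))
(.cut 5 [(0, 1), (1, 1), (2, 1), (3, 1), (5, 1), (7, 1), (11, 1), (21, 1), (15, 1), (23, 1), (31, 1), (79, 1), (95, 1)]
(.lp [[5], [0, 2, 4, 7], [1, 3, 6, 8]] [(.mj 6 7, 1255), (.mj 7 5, 5122), (.hz 13 79, 217928), (.hz 15 95, 2668841), (.hz 13 95, 2406882), (.hz 15 127, 5577802), (.hz 5 351, 2182992), (.rw 7, 10)])))
(.cut 5 [(0, 1), (1, 1), (2, 1), (3, 1), (5, 1), (7, 1), (11, 1), (21, 1), (15, 1), (23, 1), (31, 1), (79, 1), (95, 1)]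
(.lp [[5], [0, 2, 4, 7], [1, 3, 6, 8]] [(.mj 4 6, 1072), (.mj 6 7, 945), (.mj 7 5, 945), (.hz 14 79, 572030), (.hz 13 79, 359350), (.rw 7, 1)]))))
(.haz 7 351 17 50
(.ask 159
(.ref 0)
(.ask 223
(.mark 223 [5, 8, 9]
(.spn
(.con 5 8)
(.haz 3 55 17 25
(.maj 5 9
(.ask 335
(.mark 479 [5, 9, 10]
(.cut 5 [(0, 1), (1, 1), (2, 1), (3, 1), (5, 1), (7, 1), (11, 1), (21, 1), (15, 1), (23, 1), (31, 1), (79, 1), (95, 1), (159, 1), (223, 1)]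
(.lp [[5], [0, 2, 4, 7, 9], [1, 3, 6, 8, 10]] [(.mj 5 9, 434), (.mj 7 8, 1836), (.mj 8 5, 3310), (.mj 8 9, 10), (.hz 5 735, 3931630), (.hz 5 1375, 943001), (.rw 8, 7)])))
(.ask 351
(.mark 479 [5, 9, 10]
(.cut 5 [(0, 1), (1, 1), (2, 1), (3, 1), (5, 1), (7, 1), (11, 1), (21, 1), (15, 1), (23, 1), (31, 1), (79, 1), (95, 1), (159, 1), (335, 1), (223, 1), (351, 1), (1375, 1)]
(.cut 5 [(0, 1), (1, 1), (2, 1), (3, 1), (5, 1), (7, 1), (11, 1), (21, 1), (15, 1), (23, 1), (31, 1), (79, 1), (95, 1), (159, 1), (223, 1)]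
(.lp [[5], [0, 2, 4, 7, 9], [1, 3, 6, 8, 10]] [(.mj 5 9, 673), (.mj 7 8, 3216), (.mj 8 5, 5788), (.hz 5 735, 6970761), (.hz 5 1375, 1586003), (.rw 8, 1), (.rw 9, 13)]))))
(.ask 479
(.mark 479 [5, 9, 10]
(.spn
(.ask 735
(.haz 10 991 3 10
(.mark 991 [5, 10, 11]
(.lp [[5], [1, 3, 6, 8, 10], [0, 2, 4, 7, 9, 11]] [(.mj 5 9, 45), (.mj 5 10, 264), (.mj 8 5, 716), (.rw 8, 1), (.hz 5 735, 755704), (.hz 15 991, 755516), (.hz 5 2783, 292832), (.hz 15 3039, 1452035)]))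
(.lp [[5], [1, 3, 6, 8, 10], [0, 2, 4, 7, 9, 11]] [(.mj 5 9, 4), (.mj 7 8, 3), (.mj 8 5, 4), (.hz 15 479, 9546)]))
(.lp [[5], [0, 2, 4, 7, 9], [1, 3, 6, 8, 10]] [(.mj 5 9, 515), (.mj 7 8, 3218), (.mj 8 5, 1456), (.rw 8, 4)]))
(.con 9 5)
(.cut 5 [(0, 1), (1, 1), (2, 1), (3, 1), (5, 1), (7, 1), (11, 1), (21, 1), (15, 1), (23, 1), (31, 1), (79, 1), (95, 1), (159, 1), (335, 1), (223, 1), (351, 1), (479, 1)]
(.lp [[5], [0, 2, 4, 7, 9], [1, 3, 6, 8, 10]] [(.mj 10 5, 1100), (.rw 9, 4)]))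
.fin))
(.lp [[5], [1, 3, 6, 8], [0, 2, 4, 7, 9]] [(.mj 5 9, 1), (.mj 8 5, 1)]))))
(.ask 335
(.mark 479 [5, 9, 10]
(.cut 5 [(0, 1), (1, 1), (2, 1), (3, 1), (5, 1), (7, 1), (11, 1), (21, 1), (15, 1), (23, 1), (31, 1), (79, 1), (95, 1), (159, 1), (223, 1)]
(.cut 5 [(0, 1), (1, 1), (2, 1), (3, 1), (5, 1), (7, 1), (11, 1), (21, 1), (15, 1), (23, 1), (31, 1), (79, 1), (95, 1), (159, 1), (335, 1), (223, 1), (735, 1)]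
(.cut 5 [(0, 1), (1, 1), (2, 1), (3, 1), (5, 1), (7, 1), (11, 1), (15, 1), (79, 1), (335, 1)]
(.cut 5 [(0, 1), (1, 1), (2, 1), (3, 1), (5, 1), (7, 1), (11, 1), (21, 1), (15, 1), (23, 1), (31, 1), (79, 1), (95, 1), (335, 1), (351, 1)]
(.lp [[5], [0, 2, 4, 7, 9], [1, 3, 6, 8, 10]] [(.mj 7 8, 8662), (.mj 8 9, 17503), (.mj 9 5, 100025), (.hz 9 1359, 196821), (.hz 13 1375, 101884), (.hz 9 1391, 270051870), (.hz 13 1407, 41287865), (.hz 5 1503, 43756364), (.rw 8, 114), (.rw 9, 5), (.rw 10, 114), (.rw 11, 120)]))))))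
(.ask 351
(.mark 479 [5, 9, 10]
(.cut 5 [(0, 1), (1, 1), (2, 1), (3, 1), (5, 1), (7, 1), (11, 1), (21, 1), (15, 1), (23, 1), (31, 1), (79, 1), (95, 1), (159, 1), (335, 1), (223, 1), (351, 1), (735, 1)]
(.cut 5 [(0, 1), (1, 1), (2, 1), (3, 1), (5, 1), (7, 1), (11, 1), (21, 1), (15, 1), (23, 1), (31, 1), (79, 1), (95, 1), (159, 1), (335, 1), (351, 1)]
(.cut 5 [(0, 1), (1, 1), (2, 1), (3, 1), (5, 1), (7, 1), (11, 1), (21, 1), (15, 1), (23, 1), (31, 1), (79, 1), (95, 1), (159, 1), (223, 1)]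
(.lp [[5], [0, 2, 4, 7, 9], [1, 3, 6, 8, 10]] [(.mj 7 8, 498), (.mj 8 9, 3701), (.mj 9 5, 25550), (.hz 5 1375, 603577), (.hz 13 1375, 561975), (.hz 5 1503, 20127305), (.rw 8, 1), (.rw 9, 31), (.rw 10, 58)])))))
(.ask 479
(.mark 479 [5, 9, 10]
(.cut 5 [(0, 1), (1, 1), (2, 1), (3, 1), (5, 1), (7, 1), (11, 1), (21, 1), (15, 1), (23, 1), (31, 1), (79, 1), (95, 1), (159, 1), (335, 1), (223, 1), (351, 1), (735, 1)]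
(.cut 5 [(0, 1), (1, 1), (2, 1), (3, 1), (5, 1), (7, 1), (11, 1), (21, 1), (15, 1), (23, 1), (31, 1), (79, 1), (95, 1), (159, 1), (335, 1), (351, 1)]
(.cut 5 [(0, 1), (1, 1), (2, 1), (3, 1), (5, 1), (7, 1), (11, 1), (21, 1), (15, 1), (23, 1), (31, 1), (79, 1), (95, 1), (159, 1), (335, 1), (223, 1), (351, 1)]
(.lp [[5], [0, 2, 4, 7, 9], [1, 3, 6, 8, 10]] [(.mj 8 9, 2949), (.mj 9 5, 21666), (.hz 5 1503, 9129665), (.rw 8, 1), (.rw 9, 65), (.rw 10, 10)])))))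
(.cut 5 [(0, 1), (1, 1), (2, 1), (3, 1), (5, 1), (7, 1), (11, 1), (21, 1), (15, 1), (23, 1), (31, 1), (79, 1), (95, 1), (159, 1), (335, 1), (351, 1)]
(.cut 5 [(0, 1), (1, 1), (2, 1), (3, 1), (5, 1), (7, 1), (11, 1), (21, 1), (15, 1), (23, 1), (31, 1), (79, 1), (95, 1), (159, 1), (335, 1), (223, 1), (351, 1)]
(.lp [[5], [1, 3, 6, 8], [0, 2, 4, 7, 9]] [(.mj 8 9, 445), (.mj 9 5, 2802), (.rw 8, 8), (.rw 9, 2)])))))))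
(.lp [[5], [1, 3, 6, 8], [0, 2, 4, 7, 9]] [(.mj 7 8, 1), (.mj 8 5, 3), (.hz 14 23, 1267), (.hz 6 39, 264), (.hz 6 55, 356), (.hz 5 95, 560), (.hz 9 335, 1515)]))
(.ask 735
(.mark 735 [5, 8, 10]
(.spn
(.con 5 8)
(.lp [[5], [1, 3, 6, 8], [0, 2, 4, 7, 9, 10]] [(.mj 9 8, 8339), (.rw 8, 13), (.hz 5 351, 10424000), (.hz 5 479, 18186554)])
(.cut 5 [(0, 1), (1, 1), (2, 1), (3, 1), (5, 1), (7, 1), (11, 1), (21, 1), (15, 1), (23, 1), (31, 1), (79, 1), (95, 1)]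
(.cut 8 [(0, 1), (1, 1), (2, 1), (3, 1), (5, 1), (7, 1), (11, 1), (21, 1), (15, 1), (23, 1), (31, 1), (79, 1), (95, 1), (159, 1), (223, 1), (735, 1)]
(.lp [[5], [1, 3, 6, 8], [0, 2, 4, 7, 9, 10]] [(.mj 6 7, 314397), (.mj 10 5, 1376549), (.mj 10 8, 231403), (.hz 5 223, 123554703), (.hz 9 367, 2404548410), (.hz 5 479, 1171282342), (.hz 5 735, 395757784), (.hz 5 991, 1808613681), (.rw 9, 3750), (.rw 10, 626)])))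
.fin))
(.lp [[5], [1, 3, 6, 8], [0, 2, 4, 7, 9]] [(.mj 9 8, 1), (.rw 7, 1)]))
.fin))
(.lp [[5], [0, 2, 4, 7], [1, 3, 6, 8]] [(.mj 7 8, 7), (.mj 8 5, 4), (.hz 5 351, 6597)])))
(.lp [[5], [0, 2, 4, 7], [1, 3, 6, 8]] [(.mj 7 8, 4), (.mj 8 5, 4), (.hz 13 31, 457), (.hz 13 95, 930), (.hz 5 159, 597), (.hz 5 223, 1121), (.hz 5 351, 3756)])))

theorem run101 : run P3488 (leaf3 218 625) (cutRow P3488) [s100] t101 s101 = true := by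
  decide +kernel

theorem bad101 : Bad P3488 s101 :=
  run_sound (leaf3_sound P3488 rfl rfl) (cutRow_sound P3488) (
    List.forall_mem_cons.2 ⟨bad100, fun _ h => absurd h List.not_mem_nil⟩) t101 s101 run101

/-- the state above piece 157 of the tree -/
def s157 : St := ⟨[0, 0, 1, 3, 5, 15, 15, 47, 23, 279], [63, 31, 21, 15, 11, 7, 5, 3, 2, 1, 0], [0, 1, 2, 3, 4, 5, 8],
  [(4, 5)],
  [⟨true, 2, 3, 3, 10⟩, ⟨true, 1, 5, 2, 5⟩, ⟨true, 2, 3, 23, 50⟩, ⟨true, 1, 5, 12, 25⟩, ⟨true, 1, 21, 27, 50⟩, ⟨true, 4, 15, 9, 40⟩, ⟨true, 3, 23, 11, 20⟩, ⟨true, 1, 21, 29, 50⟩, ⟨true, 8, 95, 7, 40⟩, ⟨true, 4, 79, 13, 40⟩],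
  [.spn 0 0 651200, .spn 1 1 302400, .spn 3 2 302400, .spn 7 3 302400, .spn 15 4 140426, .spn 31 5 140426, .spn 63 8 140426]⟩

/-- piece 157 of the tree -/
noncomputable def t157 : WN.Tree :=
(.mark 319 [6, 7, 9]
(.spn
(.haz 7 319 3 10
(.lp [[6], [1, 3, 5, 7], [0, 2, 4, 8, 9]] [(.mj 5 8, 26978), (.mj 6 7, 26978), (.mj 8 6, 26978), (.rw 6, 4), (.rw 7, 5), (.hz 10 319, 23268206), (.hz 10 383, 40466445), (.hz 10 831, 74188482)])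
(.haz 6 287 1 8
(.lp [[6], [1, 3, 5, 7], [0, 2, 4, 8, 9]] [(.mj 3 4, 1843), (.mj 5 8, 8350), (.mj 8 6, 7100), (.rw 7, 2), (.hz 10 47, 2610225), (.hz 10 63, 7769259), (.hz 10 319, 4975801), (.hz 11 799, 22656416), (.hz 11 447, 13312150)])
(.lp [[6], [1, 3, 5, 7], [0, 2, 4, 8, 9]] [(.mj 3 4, 4), (.hz 11 15, 2021), (.hz 11 31, 738), (.hz 10 47, 951), (.hz 10 63, 1466), (.hz 10 319, 1253)])))
(.haz 7 831 13 40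
(.haz 4 79 3 8
(.haz 8 95 1 4
(.ask 175
(.mark 447 [6, 9, 10]
(.spn
(.haz 6 1471 1 10
(.haz 9 383 1 5
(.ask 79
(.mark 511 [9, 10, 11]
(.lp [[6, 11], [0, 2, 4, 8, 9], [1, 3, 5, 7, 10]] [(.mj 5 8, 3191), (.mj 6 9, 1083), (.mj 7 6, 3259), (.mj 8 7, 5336), (.rw 7, 1), (.rw 8, 11)]))
(.ask 111
(.mark 511 [9, 10, 11]
(.lp [[6, 11], [0, 2, 4, 8, 9], [1, 3, 5, 7, 10]] [(.mj 5 8, 3191), (.mj 6 9, 1083), (.mj 7 6, 3259), (.mj 8 7, 5336), (.rw 7, 1), (.rw 8, 11)]))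
(.ask 239
(.mark 511 [9, 10, 11]
(.lp [[6, 11], [0, 2, 4, 8, 9], [1, 3, 5, 7, 10]] [(.mj 5 8, 14), (.mj 7 6, 1), (.mj 8 7, 10)]))
(.ask 95
(.mark 511 [9, 10, 11]
(.lp [[6, 11], [0, 2, 4, 8, 9], [1, 3, 5, 7, 10]] [(.mj 3 4, 6290), (.mj 6 9, 676), (.mj 7 6, 2655), (.mj 8 7, 4352), (.rw 7, 1), (.rw 8, 8)]))
(.ask 127
(.mark 511 [9, 10, 11]
(.lp [[6, 11], [0, 2, 4, 8, 9], [1, 3, 5, 7, 10]] [(.mj 3 4, 2786), (.mj 6 9, 330), (.mj 7 6, 1264), (.mj 8 7, 2019), (.rw 8, 4)]))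
(.lp [[6], [0, 2, 4, 8, 9], [1, 3, 5, 7, 10]] [(.mj 3 4, 2537), (.mj 5 8, 2231), (.mj 6 9, 465), (.mj 7 6, 1240), (.mj 8 7, 3370), (.rw 8, 1), (.hz 14 383, 15971723), (.hz 13 1471, 7031036)]))))))
(.lp [[6], [0, 2, 4, 8, 9], [1, 3, 5, 7, 10]] [(.mj 3 4, 579), (.mj 7 6, 1063), (.mj 8 7, 1533), (.rw 8, 1), (.hz 14 279, 303072), (.hz 14 287, 1512756), (.hz 14 319, 7939649), (.hz 13 1471, 7840589)]))
(.lp [[6], [0, 2, 4, 8, 9], [1, 3, 5, 7, 10]] [(.mj 6 9, 99), (.mj 8 7, 284), (.rw 8, 1), (.hz 13 15, 25511), (.hz 13 31, 48754), (.hz 13 47, 28345), (.hz 13 63, 85666), (.hz 13 287, 74580), (.hz 13 319, 178051), (.hz 13 447, 3282454)]))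
(.haz 7 127 11 40
(.haz 6 63 1 10
(.haz 10 191 2 5
(.lp [[6], [0, 2, 4, 8, 9], [1, 3, 5, 7, 10]] [(.mj 5 8, 2641), (.mj 7 9, 1522), (.mj 8 7, 4163), (.mj 9 6, 4163), (.rw 8, 1), (.hz 14 191, 23394135), (.hz 15 191, 11613814), (.hz 14 319, 7336437), (.hz 14 447, 16852585), (.hz 15 447, 13412215), (.hz 14 1215, 11447308), (.hz 14 831, 15773340), (.hz 14 1471, 18211626)])
(.ask 1199
(.mark 1215 [6, 8, 11]
(.lp [[6], [0, 2, 4, 8, 9], [1, 3, 5, 7, 10, 11]] [(.mj 5 8, 179), (.mj 8 7, 80), (.mj 9 6, 139), (.hz 15 175, 30169), (.hz 14 191, 382615), (.hz 14 319, 496256), (.hz 14 447, 356738), (.hz 14 1215, 291231), (.hz 14 831, 385865), (.hz 5 3247, 10586), (.hz 14 1471, 606606), (.hz 14 3263, 611139), (.hz 12 3327, 2144785)]))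
(.lp [[6], [0, 2, 4, 8, 9], [1, 3, 5, 7, 10]] [(.mj 3 4, 351), (.mj 8 7, 89), (.mj 9 6, 149), (.hz 11 79, 58829), (.hz 11 111, 58829), (.hz 14 191, 447443), (.hz 14 319, 339898), (.hz 14 447, 413863), (.hz 14 1215, 425861), (.hz 14 831, 197434), (.hz 12 1279, 1265905), (.hz 14 1471, 145584)])))
(.ask 79
(.mark 383 [7, 9, 11]
(.cut 6 [(0, 1), (1, 1), (2, 1), (3, 1), (5, 1), (7, 1), (11, 1), (21, 1), (15, 1), (23, 1), (31, 1), (47, 1), (279, 1), (63, 1), (175, 1), (287, 1), (791, 1), (191, 1), (319, 1), (447, 1)]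
(.lp [[6, 11], [0, 2, 4, 8, 9], [1, 3, 5, 7, 10]] [(.mj 3 4, 2939), (.mj 5 8, 2915), (.mj 8 7, 3267), (.hz 14 15, 546296), (.hz 14 31, 1869901), (.hz 11 2127, 2972174), (.hz 12 2143, 18111321), (.hz 11 2159, 3593684), (.hz 13 2175, 5897755), (.hz 13 2431, 919934), (.rw 9, 1)])))
(.ask 95
(.mark 511 [9, 10, 11]
(.lp [[6, 11], [0, 2, 4, 8, 9], [1, 3, 5, 7, 10]] [(.mj 3 4, 20), (.mj 5 8, 4), (.mj 8 7, 11), (.hz 14 31, 6732), (.hz 13 127, 2152), (.hz 5 1199, 420), (.hz 13 2175, 10342), (.hz 11 1263, 3781)]))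
(.ask 111
(.mark 383 [7, 9, 11]
(.cut 6 [(0, 1), (1, 1), (2, 1), (3, 1), (5, 1), (7, 1), (11, 1), (21, 1), (15, 1), (23, 1), (31, 1), (47, 1), (279, 1), (63, 1), (175, 1), (287, 1), (791, 1), (191, 1), (319, 1), (799, 1), (447, 1), (831, 1)]
(.cut 6 [(0, 1), (1, 1), (2, 1), (3, 1), (5, 1), (7, 1), (11, 1), (21, 1), (15, 1), (23, 1), (31, 1), (47, 1), (279, 1), (63, 1), (175, 1), (287, 1), (791, 1), (191, 1), (319, 1), (447, 1)]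
(.lp [[6, 11], [0, 2, 4, 8, 9], [1, 3, 5, 7, 10]] [(.mj 3 4, 50633), (.mj 5 8, 34247), (.mj 8 7, 48199), (.hz 14 47, 8403913), (.hz 14 63, 55015363), (.hz 13 127, 8304398), (.hz 11 2159, 69600462), (.hz 13 2175, 66434415), (.hz 13 2431, 14333746), (.rw 9, 2), (.rw 10, 9)]))))
(.cut 6 [(0, 1), (1, 1), (2, 1), (3, 1), (5, 1), (7, 1), (11, 1), (21, 1), (15, 1), (23, 1), (31, 1), (47, 1), (279, 1), (63, 1), (175, 1), (287, 1), (791, 1), (191, 1), (319, 1), (447, 1)]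
(.lp [[6], [0, 2, 4, 8, 9], [1, 3, 5, 7, 10]] [(.mj 3 4, 8446), (.mj 5 8, 4457), (.mj 8 7, 6786), (.mj 9 6, 45), (.mj 9 10, 45), (.hz 14 63, 9091301), (.hz 13 127, 3374646), (.hz 11 1263, 1695376), (.rw 9, 1)]))))))
(.lp [[6], [0, 2, 4, 8, 9], [1, 3, 5, 7, 10]] [(.mj 5 8, 14), (.mj 7 6, 2), (.mj 9 6, 5), (.hz 13 47, 240), (.hz 11 79, 2154), (.hz 13 63, 5298), (.hz 12 95, 71742), (.hz 12 127, 10638), (.hz 5 1199, 1772)]))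
(.haz 6 319 3 40
(.ask 791
(.mark 831 [6, 7, 11]
(.lp [[6], [1, 3, 5, 7, 10], [0, 2, 4, 8, 9, 11]] [(.mj 3 4, 4256), (.mj 4 5, 297), (.mj 8 7, 3956), (.mj 10 6, 3255), (.mj 10 9, 1010), (.rw 6, 1), (.hz 11 79, 1039748), (.hz 12 95, 3292535), (.hz 11 111, 420632), (.hz 12 127, 530180), (.hz 13 447, 6113304), (.hz 13 831, 4304605), (.hz 10 831, 68326), (.hz 13 959, 7891034), (.hz 13 1471, 5507905), (.hz 13 2879, 5600650), (.hz 10 2879, 591167), (.hz 13 3007, 7882223)]))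
(.cut 6 [(0, 1), (1, 1), (2, 1), (3, 1), (5, 1), (7, 1), (11, 1), (21, 1), (15, 1), (23, 1), (31, 1), (47, 1), (279, 1), (63, 1), (175, 1), (287, 1), (791, 1), (191, 1), (319, 1), (447, 1)]
(.lp [[6], [0, 2, 4, 8, 9], [1, 3, 5, 7, 10]] [(.mj 5 8, 1342), (.mj 8 7, 3229), (.mj 10 6, 2489), (.mj 10 9, 1146), (.hz 13 319, 907051), (.hz 13 447, 2823636), (.hz 13 831, 641314), (.hz 10 831, 546247), (.rw 9, 4)])))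
(.cut 6 [(0, 1), (1, 1), (2, 1), (3, 1), (5, 1), (7, 1), (11, 1), (21, 1), (15, 1), (23, 1), (31, 1), (47, 1), (279, 1), (63, 1), (287, 1), (791, 1), (319, 1)]
(.lp [[6], [0, 2, 4, 8, 9], [1, 3, 5, 7, 10]] [(.mj 3 4, 2782), (.mj 8 7, 2091), (.mj 10 9, 473), (.hz 13 15, 151106), (.hz 13 31, 401713), (.hz 13 47, 163358), (.hz 13 287, 134399), (.hz 6 791, 105039), (.hz 10 831, 164840), (.rw 9, 1)])))
.fin))
(.ref 0))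
(.cut 6 [(0, 1), (1, 1), (2, 1), (3, 1), (5, 1), (7, 1), (11, 1), (21, 1), (15, 1), (23, 1), (31, 1), (279, 1), (287, 1), (791, 1)]
(.lp [[6], [1, 3, 5, 7], [0, 2, 4, 8, 9]] [(.mj 0 1, 45066), (.mj 7 6, 1728), (.mj 8 7, 1463), (.hz 12 23, 1327902), (.hz 12 31, 14076959), (.hz 8 95, 883530), (.hz 6 791, 1281118), (.hz 8 127, 377954), (.rw 8, 1)])))
(.lp [[6], [1, 3, 5, 7], [0, 2, 4, 8, 9]] [(.mj 0 1, 8), (.hz 11 7, 407)]))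
(.lp [[6], [1, 3, 5, 7], [0, 2, 4, 8, 9]] [(.mj 5 8, 952), (.mj 7 9, 216), (.rw 7, 2), (.hz 10 319, 1830665)]))
(.haz 7 319 13 40
(.ask 79
(.mark 383 [7, 9, 10]
(.lp [[6, 10], [1, 3, 5, 7], [0, 2, 4, 8, 9]] [(.mj 0 1, 29765), (.mj 5 8, 6073), (.mj 9 6, 786), (.mj 9 7, 2549), (.rw 6, 1), (.hz 9 79, 197745), (.hz 8 95, 1931350), (.hz 9 111, 197745), (.hz 8 127, 705229), (.hz 10 319, 726362), (.hz 8 1119, 1454232), (.hz 10 383, 5720272), (.hz 8 1151, 4501826), (.hz 10 1407, 13851771)]))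
(.cut 6 [(0, 1), (1, 1), (2, 1), (3, 1), (5, 1), (7, 1), (11, 1), (21, 1), (15, 1), (23, 1), (31, 1), (47, 1), (279, 1), (63, 1), (287, 1), (791, 1), (319, 1)]
(.cut 6 [(0, 1), (1, 1), (2, 1), (3, 1), (5, 1), (7, 1), (11, 1), (21, 1), (15, 1), (23, 1), (31, 1), (47, 1), (279, 1), (63, 1), (287, 1), (791, 1), (319, 1), (799, 1)]
(.lp [[6], [1, 3, 5, 7], [0, 2, 4, 8, 9]] [(.mj 3 4, 892538), (.mj 4 5, 396683), (.mj 5 8, 1436022), (.mj 9 6, 1020183), (.mj 9 7, 1336550), (.hz 8 95, 572550634), (.hz 9 111, 152099925), (.hz 6 791, 11536398), (.hz 8 127, 1264602236), (.hz 10 319, 478048812), (.hz 10 383, 3933529942), (.rw 8, 202), (.rw 9, 202)]))))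
(.cut 6 [(0, 1), (1, 1), (2, 1), (3, 1), (5, 1), (7, 1), (11, 1), (21, 1), (15, 1), (23, 1), (31, 1), (47, 1), (279, 1), (63, 1), (287, 1), (791, 1), (319, 1)]
(.lp [[6], [1, 3, 5, 7], [0, 2, 4, 8, 9]] [(.mj 3 4, 6571), (.mj 4 5, 1173), (.mj 5 8, 6237), (.mj 9 6, 5282), (.hz 10 47, 600351), (.hz 9 79, 259120), (.hz 10 63, 1605988), (.hz 9 111, 295471), (.hz 8 127, 4262716), (.hz 10 319, 1199400), (.hz 9 239, 280267), (.hz 8 255, 700778), (.rw 8, 4)])))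
.fin))

theorem run157 : run P3488 (leaf3 218 625) (cutRow P3488) [s149] t157 s157 = true := by
  decide +kernel

theorem bad157 : Bad P3488 s157 :=
  run_sound (leaf3_sound P3488 rfl rfl) (cutRow_sound P3488) (
    List.forall_mem_cons.2 ⟨bad149, fun _ h => absurd h List.not_mem_nil⟩) t157 s157 run157

/-- the state above piece 87 of the tree -/
def s87 : St := ⟨[0, 0, 1, 3, 5, 5, 11, 23, 79], [95, 75, 31, 21, 15, 7, 3, 2, 1, 0], [0, 1, 2, 3, 4, 6, 7],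
  [],
  [⟨true, 2, 3, 3, 10⟩, ⟨true, 1, 5, 2, 5⟩, ⟨true, 2, 3, 23, 50⟩, ⟨true, 1, 5, 12, 25⟩, ⟨true, 2, 11, 12, 25⟩, ⟨true, 4, 79, 11, 50⟩, ⟨true, 5, 31, 1, 50⟩, ⟨true, 3, 39, 7, 25⟩, ⟨true, 5, 31, 1, 25⟩, ⟨false, 5, 23, 3, 25⟩, ⟨true, 4, 39, 13, 50⟩, ⟨true, 6, 47, 13, 50⟩, ⟨true, 6, 47, 3, 10⟩, ⟨true, 6, 159, 3, 10⟩],
  [.spn 0 0 651200, .spn 1 1 302400, .spn 3 2 302400, .spn 7 3 140426, .spn 15 4 140426, .spn 31 6 140426, .spn 95 7 140426]⟩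

/-- piece 87 of the tree -/
noncomputable def t87 : WN.Tree :=
(.haz 4 47 9 25
(.haz 5 479 3 50
(.ask 151
(.mark 223 [5, 8, 9]
(.spn
(.haz 8 223 7 20
(.lp [[5], [1, 3, 6, 8], [0, 2, 4, 7, 9]] [(.mj 5 8, 1062), (.mj 6 7, 1062), (.mj 7 5, 1062), (.rw 7, 1), (.hz 16 223, 428232), (.hz 16 255, 995889), (.hz 16 735, 1527030)])
(.lp [[5], [1, 3, 6, 8], [0, 2, 4, 7, 9]] [(.mj 3 4, 743), (.mj 4 6, 269), (.mj 6 7, 2094), (.mj 7 5, 1412), (.rw 7, 2), (.hz 16 79, 384496), (.hz 16 95, 977995), (.hz 16 223, 873498), (.hz 8 351, 1058736), (.hz 8 671, 4642055)]))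
(.ask 335
(.mark 479 [5, 9, 10]
(.spn
(.lp [[5], [0, 2, 4, 7, 9], [1, 3, 6, 8, 10]] [(.mj 3 4, 1186), (.mj 5 9, 237), (.mj 7 8, 1041), (.mj 8 5, 1041), (.rw 8, 2), (.hz 8 671, 2168193), (.hz 8 735, 3154288), (.hz 15 1503, 1582869)])
(.cut 5 [(0, 1), (1, 1), (2, 1), (3, 1), (5, 1), (7, 1), (11, 1), (21, 1), (15, 1), (23, 1), (75, 1), (31, 1), (79, 1), (151, 1), (95, 1), (159, 1), (335, 1), (223, 1), (351, 1), (479, 1)]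
(.lp [[5], [0, 2, 4, 7, 9], [1, 3, 6, 8, 10]] [(.mj 3 4, 4680), (.mj 6 7, 5179), (.mj 7 8, 5550), (.mj 8 5, 463), (.mj 8 9, 137), (.mj 9 5, 5086), (.hz 14 1391, 3698237), (.rw 9, 19)]))
(.cut 5 [(0, 1), (1, 1), (2, 1), (3, 1), (5, 1), (7, 1), (11, 1), (21, 1), (15, 1), (23, 1), (75, 1), (31, 1), (79, 1), (151, 1), (95, 1), (159, 1), (335, 1), (223, 1), (351, 1), (479, 1)]
(.lp [[5], [0, 2, 4, 7, 9], [1, 3, 6, 8, 10]] [(.mj 3 4, 124), (.mj 4 6, 3), (.mj 7 8, 568), (.mj 10 5, 391), (.mj 10 9, 334), (.hz 9 5, 186), (.hz 9 7, 582), (.hz 14 47, 2526), (.rw 9, 1)]))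
.fin))
(.maj 5 9
(.ask 351
(.mark 479 [5, 9, 10]
(.cut 5 [(0, 1), (1, 1), (2, 1), (3, 1), (5, 1), (7, 1), (11, 1), (21, 1), (15, 1), (23, 1), (75, 1), (31, 1), (79, 1), (151, 1), (95, 1), (159, 1), (223, 1)]
(.lp [[5], [0, 2, 4, 7, 9], [1, 3, 6, 8, 10]] [(.mj 3 4, 8878), (.mj 4 6, 1093), (.mj 5 9, 710), (.mj 7 8, 4949), (.mj 8 5, 3532), (.hz 9 5, 69612), (.hz 10 39, 369480), (.hz 14 47, 874021), (.hz 8 671, 7954460), (.hz 8 735, 9015481), (.hz 15 1503, 2407483), (.rw 8, 7)])))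
(.ask 479
(.mark 479 [5, 9, 10]
(.spn
(.haz 10 991 7 20
(.lp [[5], [0, 2, 4, 7, 9], [1, 3, 6, 8, 10]] [(.mj 3 4, 126851), (.mj 5 10, 27637), (.mj 7 8, 23447), (.mj 8 5, 77039), (.rw 8, 119), (.hz 8 671, 218024675), (.hz 8 735, 94074883), (.hz 15 991, 101911610), (.hz 16 991, 84638456)])
(.lp [[5], [0, 2, 4, 7, 9], [1, 3, 6, 8, 10]] [(.mj 5 9, 5), (.mj 7 8, 4), (.mj 8 5, 5), (.hz 16 479, 8697)]))
(.con 9 5)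
(.cut 5 [(0, 1), (1, 1), (2, 1), (3, 1), (5, 1), (7, 1), (11, 1), (21, 1), (15, 1), (23, 1), (75, 1), (31, 1), (79, 1), (151, 1), (95, 1), (159, 1), (335, 1), (223, 1), (351, 1), (479, 1)]
(.lp [[5], [0, 2, 4, 7, 9], [1, 3, 6, 8, 10]] [(.mj 3 4, 1984), (.mj 7 8, 960), (.mj 10 5, 1035), (.rw 9, 4)]))
.fin))
(.lp [[5], [1, 3, 6, 8], [0, 2, 4, 7, 9]] [(.mj 5 9, 2), (.mj 7 5, 1), (.mj 8 5, 2)])))
(.cut 5 [(0, 1), (1, 1), (2, 1), (3, 1), (5, 1), (7, 1), (11, 1), (21, 1), (15, 1), (23, 1), (75, 1), (31, 1), (79, 1), (95, 1)]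
(.cut 5 [(0, 1), (1, 1), (2, 1), (3, 1), (5, 1), (7, 1), (11, 1), (21, 1), (15, 1), (23, 1), (75, 1), (31, 1), (79, 1), (151, 1), (95, 1), (159, 1), (335, 1), (223, 1)]
(.lp [[5], [1, 3, 6, 8], [0, 2, 4, 7, 9]] [(.mj 3 4, 34398), (.mj 7 8, 16112), (.mj 8 5, 5903), (.mj 9 5, 11807), (.rw 8, 29), (.rw 9, 33)])))))
(.cut 5 [(0, 1), (1, 1), (2, 1), (3, 1), (5, 1), (7, 1), (11, 1), (21, 1), (15, 1), (23, 1), (75, 1), (31, 1), (79, 1), (151, 1), (95, 1), (159, 1), (223, 1)]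
(.lp [[5], [1, 3, 6, 8], [0, 2, 4, 7, 9]] [(.mj 3 4, 655), (.mj 4 6, 285), (.mj 6 7, 845), (.mj 9 5, 703), (.mj 9 8, 644), (.hz 9 5, 6332), (.hz 10 39, 33606), (.hz 14 47, 79496), (.hz 14 111, 152551), (.hz 14 367, 112413), (.rw 8, 2)]))
.fin))
(.ask 159
(.mark 223 [5, 8, 9]
(.spn
(.ask 37
(.mark 255 [8, 9, 10]
(.lp [[5, 10], [1, 3, 6, 8], [0, 2, 4, 7, 9]] [(.mj 5 8, 162), (.mj 6 7, 906), (.mj 7 5, 544), (.mj 7 8, 382), (.rw 7, 2)]))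
(.haz 8 127 13 40
(.lp [[5], [1, 3, 6, 8], [0, 2, 4, 7, 9]] [(.mj 3 4, 23498), (.mj 4 6, 10443), (.mj 5 8, 1325), (.mj 7 5, 13569), (.mj 7 8, 1801), (.rw 7, 41), (.hz 16 127, 31809425), (.hz 8 671, 16323636), (.hz 8 735, 452162), (.hz 16 767, 869542)])
(.lp [[5], [1, 3, 6, 8], [0, 2, 4, 7, 9]] [(.mj 3 4, 3129), (.mj 4 6, 1082), (.mj 5 8, 3384), (.mj 6 7, 13990), (.mj 7 5, 9604), (.rw 7, 13), (.hz 16 79, 832495), (.hz 16 95, 2239430), (.hz 8 671, 20855529), (.hz 15 479, 3601391)])))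
(.haz 8 735 1 4
(.ask 335
(.mark 479 [5, 9, 10]
(.spn
(.lp [[5], [0, 2, 4, 7, 9], [1, 3, 6, 8, 10]] [(.mj 3 4, 550), (.mj 5 9, 151), (.mj 7 8, 505), (.mj 8 5, 505), (.rw 8, 1), (.hz 8 671, 681591), (.hz 8 735, 1438628), (.hz 16 735, 310288), (.hz 15 1503, 759979)])
(.cut 5 [(0, 1), (1, 1), (2, 1), (3, 1), (5, 1), (7, 1), (11, 1), (21, 1), (15, 1), (23, 1), (75, 1), (31, 1), (79, 1), (95, 1)]
(.cut 5 [(0, 1), (1, 1), (2, 1), (3, 1), (5, 1), (7, 1), (11, 1), (21, 1), (15, 1), (23, 1), (75, 1), (31, 1), (79, 1), (151, 1), (95, 1), (159, 1), (335, 1), (223, 1)]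
(.lp [[5], [0, 2, 4, 7, 9], [1, 3, 6, 8, 10]] [(.mj 3 4, 142052), (.mj 6 7, 27426), (.mj 7 8, 89735), (.mj 8 9, 25922), (.mj 9 5, 99909), (.hz 5 1359, 4046656), (.hz 14 1391, 75193544), (.hz 15 991, 11533322), (.hz 15 1503, 102407049), (.rw 9, 184), (.rw 10, 159)])))
(.cut 5 [(0, 1), (1, 1), (2, 1), (3, 1), (5, 1), (7, 1), (11, 1), (21, 1), (15, 1), (23, 1), (75, 1), (31, 1), (79, 1), (151, 1), (95, 1), (159, 1), (335, 1), (223, 1), (351, 1), (479, 1)]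
(.lp [[5], [0, 2, 4, 7, 9], [1, 3, 6, 8, 10]] [(.mj 7 8, 551), (.mj 10 5, 347), (.mj 10 9, 347), (.rw 9, 1)]))
.fin))
(.maj 5 9
(.ask 351
(.mark 479 [5, 9, 10]
(.cut 5 [(0, 1), (1, 1), (2, 1), (3, 1), (5, 1), (7, 1), (11, 1), (21, 1), (15, 1), (23, 1), (75, 1), (31, 1), (79, 1), (151, 1), (95, 1), (159, 1), (223, 1)]
(.cut 5 [(0, 1), (1, 1), (2, 1), (3, 1), (5, 1), (7, 1), (11, 1), (21, 1), (15, 1), (23, 1), (75, 1), (31, 1), (79, 1), (151, 1), (95, 1), (159, 1), (335, 1), (223, 1)]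
(.lp [[5], [0, 2, 4, 7, 9], [1, 3, 6, 8, 10]] [(.mj 3 4, 97933), (.mj 5 9, 8894), (.mj 7 8, 67374), (.mj 8 5, 68827), (.hz 8 671, 115225807), (.hz 8 735, 233858001), (.hz 15 1503, 21710387), (.rw 8, 95), (.rw 9, 64)]))))
(.ask 479
(.mark 479 [5, 9, 10]
(.spn
(.haz 10 991 13 40
(.haz 9 1503 9 40
(.lp [[5], [0, 2, 4, 7, 9], [1, 3, 6, 8, 10]] [(.mj 3 4, 15), (.mj 5 9, 26), (.mj 5 10, 15), (.mj 7 8, 11), (.mj 8 5, 36), (.hz 8 671, 26052), (.hz 8 735, 50906), (.hz 15 991, 5990), (.hz 18 1503, 43288)])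
(.lp [[5], [0, 2, 4, 7, 9], [1, 3, 6, 8, 10]] [(.mj 3 4, 5), (.mj 5 10, 20), (.mj 7 8, 15), (.mj 8 5, 22), (.hz 18 159, 4597), (.hz 18 223, 12857), (.hz 8 671, 9727), (.hz 18 479, 5866), (.hz 15 991, 11391), (.hz 17 991, 29448)]))
(.lp [[5], [0, 2, 4, 7, 9], [1, 3, 6, 8, 10]] [(.mj 5 9, 4), (.mj 7 8, 3), (.mj 8 5, 4), (.hz 17 479, 3169)]))
(.con 9 5)
(.cut 5 [(0, 1), (1, 1), (2, 1), (3, 1), (5, 1), (7, 1), (11, 1), (21, 1), (15, 1), (23, 1), (75, 1), (31, 1), (79, 1), (151, 1), (95, 1), (159, 1), (335, 1), (223, 1), (351, 1), (479, 1)]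
(.lp [[5], [0, 2, 4, 7, 9], [1, 3, 6, 8, 10]] [(.mj 3 4, 2306), (.mj 7 8, 878), (.mj 10 5, 1098), (.rw 9, 4)]))
.fin))
(.lp [[5], [1, 3, 6, 8], [0, 2, 4, 7, 9]] [(.mj 5 9, 2), (.mj 7 5, 1), (.mj 8 5, 2)])))
(.cut 5 [(0, 1), (1, 1), (2, 1), (3, 1), (5, 1), (7, 1), (11, 1), (21, 1), (15, 1), (23, 1), (75, 1), (31, 1), (79, 1), (151, 1), (95, 1), (159, 1), (223, 1)]
(.cut 5 [(0, 1), (1, 1), (2, 1), (3, 1), (5, 1), (7, 1), (11, 1), (21, 1), (15, 1), (23, 1), (75, 1), (31, 1), (79, 1), (95, 1), (335, 1)]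
(.lp [[5], [1, 3, 6, 8], [0, 2, 4, 7, 9]] [(.mj 3 4, 30433), (.mj 7 8, 10062), (.mj 9 5, 14492), (.hz 15 479, 7335895), (.rw 8, 4), (.rw 9, 43)])))))
(.lp [[5], [1, 3, 6, 8], [0, 2, 4, 7, 9]] [(.mj 6 7, 193), (.mj 8 9, 193), (.rw 7, 1), (.hz 16 223, 8204377)]))
(.cut 5 [(0, 1), (1, 1), (2, 1), (3, 1), (5, 1), (7, 1), (11, 1), (21, 1), (15, 1), (23, 1), (75, 1), (31, 1), (79, 1), (95, 1)]
(.cut 5 [(0, 1), (1, 1), (2, 1), (3, 1), (5, 1), (7, 1), (11, 1), (21, 1), (15, 1), (23, 1), (75, 1), (31, 1), (79, 1), (151, 1), (95, 1), (159, 1), (223, 1)]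
(.lp [[5], [1, 3, 6, 8], [0, 2, 4, 7, 9]] [(.mj 6 7, 4959), (.mj 9 5, 3157), (.mj 9 8, 3157), (.hz 8 159, 1140346), (.hz 14 367, 1317295), (.rw 8, 6), (.rw 9, 2)])))
.fin))
(.ref 0)))
(.cut 5 [(0, 1), (1, 1), (2, 1), (3, 1), (5, 1), (7, 1), (11, 1), (21, 1), (75, 1)]
(.lp [[5], [0, 2, 4, 7], [1, 3, 6, 8]] [(.mj 0 1, 32741), (.mj 3 4, 6318), (.hz 15 5, 176175), (.hz 15 7, 104378), (.hz 15 21, 19399), (.hz 15 15, 518210), (.hz 15 79, 149072), (.hz 15 95, 2701), (.hz 8 159, 39513), (.rw 7, 4)])))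
(.lp [[5], [0, 2, 4, 7], [1, 3, 6, 8]] [(.mj 4 6, 1), (.hz 9 5, 11), (.hz 14 7, 93), (.hz 9 7, 146), (.hz 9 21, 12), (.hz 14 15, 155), (.hz 10 39, 44), (.hz 12 47, 559)]))

theorem run87 : run P3488 (leaf3 218 625) (cutRow P3488) [s86] t87 s87 = true := by
  decide +kernel

theorem bad87 : Bad P3488 s87 :=
  run_sound (leaf3_sound P3488 rfl rfl) (cutRow_sound P3488) (
    List.forall_mem_cons.2 ⟨bad86, fun _ h => absurd h List.not_mem_nil⟩) t87 s87 run87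

end Pool.Agent.WN.Data
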