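import Pool.Agent.WN.CutRow
import Pool.Agent.WN.LeafRow
import Pool.Agent.Helper99.WN.ParDef
import Pool.Agent.WN.Data.D3
import Pool.Agent.WN.Data.D12
import Pool.Agent.WN.Data.D19
import Pool.Agent.WN.Data.D20
import Pool.Agent.WN.Data.D21

/-!
# The search tree, part 24
-/

set_option autoImplicit false

namespace Pool.Agent.WN.Data

open Pool.Agent.W3 Pool.Agent.WN Pool.Agent.Helper99.WN

/-- the state above piece 265 of the tree -/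
def s265 : St := ⟨[0, 0, 1, 5, 7, 7], [5, 3, 2, 1, 0], [0, 1, 2],
  [],
  [⟨true, 2, 3, 3, 10⟩, ⟨true, 1, 5, 2, 5⟩, ⟨true, 2, 3, 23, 50⟩, ⟨true, 1, 5, 12, 25⟩, ⟨true, 4, 15, 1, 25⟩],
  [.spn 0 0 651200, .spn 1 1 302400, .spn 3 2 651200]⟩

/-- piece 265 of the tree -/
noncomputable def t265 : WN.Tree :=
(.mark 7 [3, 4, 5]
(.spn
(.lp [[5], [1, 4], [0, 2, 3]] [(.mj 1 2, 5), (.mj 3 4, 1), (.mj 3 5, 1)])
(.ask 23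
(.mark 23 [3, 5, 6]
(.spn
(.lp [[3], [1, 5], [0, 2, 4, 6]] [(.rw 2, 4), (.rw 4, 1)])
(.haz 5 87 3 10
(.haz 6 55 7 25
(.maj 3 6
(.cut 3 [(0, 1), (1, 1), (2, 1), (3, 1), (5, 1), (7, 1), (23, 1)]
(.lp [[3], [1, 5], [0, 2, 4, 6]] [(.mj 1 2, 11684), (.mj 3 6, 1113), (.mj 4 5, 1602), (.hz 6 55, 166917), (.rw 5, 1)]))
(.ask 39
(.mark 55 [3, 6, 7]
(.spn
(.con 3 6)
(.haz 3 183 1 25
(.haz 3 183 3 50
(.ask 87
(.mark 119 [3, 7, 8]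
(.spn
(.lp [[3], [1, 5, 7], [0, 2, 4, 6, 8]] [(.mj 1 2, 126), (.mj 3 7, 5), (.mj 3 8, 6), (.mj 4 5, 11), (.mj 5 6, 6), (.hz 8 183, 1759)])
(.cut 3 [(0, 1), (1, 1), (2, 1), (3, 1), (5, 1), (7, 1), (23, 1), (87, 1)]
(.lp [[3], [1, 5, 7], [0, 2, 4, 6, 8]] [(.mj 4 5, 9174), (.mj 5 6, 4587), (.mj 7 8, 976), (.rw 2, 37), (.hz 8 183, 792982), (.rw 7, 5)]))
(.cut 3 [(0, 1), (1, 1), (2, 1), (3, 1), (5, 1), (7, 1), (23, 1), (39, 1)]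
(.cut 3 [(0, 1), (1, 1), (2, 1), (3, 1), (5, 1), (7, 1), (23, 1), (39, 1), (55, 1), (87, 1), (119, 1)]
(.lp [[3], [1, 5, 7], [0, 2, 4, 6, 8]] [(.mj 1 2, 14080), (.mj 4 5, 1788), (.mj 5 6, 1788), (.mj 8 7, 149), (.rw 7, 1), (.rw 8, 1)])))
.fin))
(.ask 119
(.mark 119 [3, 7, 8]
(.spn
(.lp [[3], [1, 5, 7], [0, 2, 4, 6, 8]] [(.mj 1 2, 14084), (.mj 3 8, 313), (.mj 4 5, 1878), (.rw 6, 1)])
(.lp [[3], [1, 5, 7], [0, 2, 4, 6, 8]] [(.mj 4 5, 255), (.mj 5 6, 7), (.mj 7 8, 56), (.rw 2, 1), (.hz 5 95, 74515), (.hz 8 183, 53999)])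
(.maj 3 7
(.cut 3 [(0, 1), (1, 1), (2, 1), (3, 1), (5, 1), (7, 1), (23, 1), (39, 1), (55, 1), (87, 1), (119, 1)]
(.cut 7 [(0, 1), (1, 1), (2, 1), (3, 1), (5, 1), (7, 1), (13, 1), (15, 1), (23, 1), (39, 1), (31, 1), (87, 1), (95, 1)]
(.lp [[3], [1, 5, 7], [0, 2, 4, 6, 8]] [(.mj 1 2, 315777), (.mj 4 5, 20223), (.hz 8 183, 8088183), (.hz 8 247, 6105564), (.rw 7, 44), (.rw 8, 9)])))
(.cut 7 [(0, 1), (1, 1), (2, 1), (3, 1), (5, 1), (7, 1), (23, 1), (39, 1), (55, 1), (87, 1), (119, 1)]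
(.cut 3 [(0, 1), (1, 1), (2, 1), (3, 1), (5, 1), (7, 1), (23, 1), (39, 1), (55, 1), (87, 1), (119, 1)]
(.lp [[3], [1, 5, 7], [0, 2, 4, 6, 8]] [(.mj 4 5, 12908), (.mj 7 3, 4303), (.hz 8 183, 1029869), (.hz 8 247, 65736), (.rw 7, 3), (.rw 8, 14)]))))
.fin))
(.lp [[3], [1, 5, 7], [0, 2, 4, 6]] [(.mj 1 2, 5), (.mj 4 5, 1), (.hz 5 95, 309)])))
(.cut 3 [(0, 1), (1, 1), (2, 1), (3, 1)]
(.lp [[3], [1, 5, 7], [0, 2, 4, 6]] [(.hz 8 5, 41215), (.hz 8 7, 82429), (.rw 6, 2)])))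
(.cut 3 [(0, 1), (1, 1), (2, 1), (3, 1)]
(.lp [[3], [1, 5, 7], [0, 2, 4, 6]] [(.hz 7 5, 50007), (.hz 7 7, 100013), (.rw 6, 1)])))
(.lp [[3], [1, 5, 7], [0, 2, 4, 6]] [(.mj 4 5, 211), (.mj 7 6, 101), (.rw 2, 1), (.hz 5 87, 24775)])
.fin))
(.haz 3 119 3 50
(.ask 55
(.ref 0)
(.spn
(.con 3 6)
(.ask 87
(.mark 87 [3, 5, 7]
(.ask 119
(.mark 119 [3, 7, 8]
(.spn
(.lp [[3], [1, 5, 8], [0, 2, 4, 6, 7]] [(.mj 3 8, 313), (.mj 5 6, 1878), (.rw 2, 9), (.rw 6, 1)])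
(.lp [[3], [1, 5, 8], [0, 2, 4, 6, 7]] [(.mj 1 2, 41), (.mj 5 6, 5), (.mj 7 8, 1), (.hz 7 119, 460), (.hz 7 247, 635), (.hz 7 375, 367)])
(.ask 375
(.mark 375 [3, 7, 9]
(.spn
(.lp [[3], [1, 5, 8, 9], [0, 2, 4, 6, 7]] [(.mj 8 3, 176), (.rw 7, 1)])
(.lp [[3], [1, 5, 8, 9], [0, 2, 4, 6, 7]] [(.mj 5 6, 835), (.mj 7 9, 80), (.rw 2, 4), (.hz 7 119, 80486), (.hz 7 247, 143566), (.hz 7 887, 48279)])
(.maj 3 7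
(.cut 3 [(0, 1), (1, 1), (2, 1), (3, 1), (5, 1), (7, 1), (23, 1), (39, 1), (55, 1), (87, 1), (119, 1)]
(.cut 7 [(0, 1), (1, 1), (2, 1), (3, 1), (5, 1), (7, 1), (13, 1), (15, 1), (23, 1), (39, 1), (31, 1), (47, 1), (55, 1), (87, 1), (63, 1), (119, 1)]
(.lp [[3], [1, 5, 8, 9], [0, 2, 4, 6, 7]] [(.mj 9 3, 4575), (.hz 7 247, 2789709), (.hz 7 503, 1200900), (.rw 8, 15), (.rw 9, 1)])))
(.cut 3 [(0, 1), (1, 1), (2, 1), (3, 1), (5, 1), (7, 1), (23, 1), (39, 1), (55, 1), (87, 1)]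
(.cut 3 [(0, 1), (1, 1), (2, 1), (3, 1), (5, 1), (7, 1), (23, 1), (39, 1), (55, 1), (87, 1), (119, 1), (375, 1)]
(.cut 7 [(0, 1), (1, 1), (2, 1), (3, 1), (5, 1), (7, 1), (23, 1), (39, 1), (55, 1), (87, 1), (119, 1), (375, 1)]
(.lp [[3], [1, 5, 8, 9], [0, 2, 4, 6, 7]] [(.mj 5 6, 6590), (.mj 7 3, 2319), (.rw 8, 6), (.rw 9, 3), (.rw 10, 1)])))))
.fin))
(.lp [[3], [1, 5, 8], [0, 2, 4, 6, 7]] [(.mj 8 7, 43), (.rw 6, 1)]))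
.fin))
(.lp [[3], [1, 5], [0, 2, 4, 6, 7]] [(.mj 5 6, 170), (.rw 2, 1)])))
(.ask 119
(.ask 119
(.mark 119 [3, 7, 8]
(.spn
(.lp [[3], [1, 5, 8], [0, 2, 4, 6, 7]] [(.mj 1 2, 94), (.mj 3 7, 5), (.mj 7 8, 4), (.hz 7 375, 1862)])
(.ask 247
(.mark 247 [3, 8, 9]
(.spn
(.lp [[3], [1, 5, 8], [0, 2, 4, 6, 7, 9]] [(.mj 7 3, 176), (.rw 7, 1)])
(.maj 3 9
(.cut 3 [(0, 1), (1, 1), (2, 1), (3, 1), (5, 1), (7, 1), (23, 1), (39, 1), (55, 1), (87, 1), (119, 1), (247, 1)]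
(.lp [[3], [1, 5, 8], [0, 2, 4, 6, 7, 9]] [(.mj 7 8, 187), (.mj 8 3, 325), (.hz 7 759, 175520), (.rw 8, 1)]))
(.cut 3 [(0, 1), (1, 1), (2, 1), (3, 1), (5, 1), (7, 1), (23, 1), (39, 1), (55, 1), (87, 1), (119, 1)]
(.lp [[3], [1, 5, 8], [0, 2, 4, 6, 7, 9]] [(.mj 9 3, 26489), (.rw 7, 2), (.hz 7 503, 5960123), (.rw 8, 88)])))
(.ask 759
(.mark 759 [3, 8, 10]
(.spn
(.lp [[3], [1, 5, 8], [0, 2, 4, 6, 7, 9, 10]] [(.mj 9 3, 76), (.rw 8, 1)])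
(.lp [[3], [1, 5, 8], [0, 2, 4, 6, 7, 9, 10]] [(.mj 9 8, 623), (.rw 8, 1), (.hz 7 375, 397648), (.hz 7 503, 572148)])
(.cut 3 [(0, 1), (1, 1), (2, 1), (3, 1), (5, 1), (7, 1), (23, 1), (39, 1), (55, 1), (87, 1), (119, 1), (247, 1)]
(.lp [[3], [1, 5, 8], [0, 2, 4, 6, 7, 9, 10]] [(.mj 10 3, 304), (.mj 10 8, 14), (.hz 7 247, 27102), (.rw 9, 1)]))
.fin))
(.lp [[3], [1, 5, 8], [0, 2, 4, 6, 7, 9]] [(.mj 9 8, 1), (.rw 7, 1)]))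
.fin))
(.lp [[3], [1, 5, 8], [0, 2, 4, 6, 7]] [(.mj 7 8, 1020), (.rw 6, 1)]))
(.con 8 7)
.fin))
(.spn
(.lp [[3], [1, 5], [0, 2, 4, 6, 7]] [(.mj 3 7, 2), (.mj 6 3, 3)])
(.ask 247
(.ask 247
(.mark 247 [3, 8, 9]
(.spn
(.lp [[3], [1, 5, 9], [0, 2, 4, 6, 7, 8]] [(.mj 7 3, 176), (.rw 7, 1)])
(.ask 503
(.mark 503 [3, 9, 10]
(.spn
(.lp [[3], [1, 5, 9], [0, 2, 4, 6, 7, 8, 10]] [(.mj 8 3, 76), (.rw 8, 1)])
(.cut 3 [(0, 1), (1, 1), (2, 1), (3, 1), (5, 1), (7, 1), (23, 1), (39, 1), (55, 1), (87, 1), (119, 1), (247, 1), (503, 1)]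
(.lp [[3], [1, 5, 9], [0, 2, 4, 6, 7, 8, 10]] [(.mj 8 9, 88), (.mj 9 3, 559), (.mj 9 10, 8), (.hz 7 1527, 68297), (.rw 9, 2)]))
(.cut 3 [(0, 1), (1, 1), (2, 1), (3, 1), (5, 1), (7, 1), (23, 1), (39, 1), (55, 1), (87, 1), (119, 1), (247, 1), (503, 1)]
(.lp [[3], [1, 5, 9], [0, 2, 4, 6, 7, 8, 10]] [(.mj 10 3, 278), (.rw 9, 1)]))
.fin))
(.lp [[3], [1, 5, 9], [0, 2, 4, 6, 7, 8]] [(.mj 8 9, 1130), (.rw 7, 1)]))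
(.con 9 8)
.fin))
(.spn
(.lp [[3], [1, 5], [0, 2, 4, 6, 7, 8]] [(.mj 7 3, 1), (.rw 7, 1)])
(.ask 503
(.maj 3 9
(.ask 503
(.mark 503 [3, 9, 10]
(.spn
(.lp [[3], [1, 5, 10], [0, 2, 4, 6, 7, 8, 9]] [(.rw 7, 1), (.rw 8, 3)])
(.con 9 3)
(.con 10 9)
.fin))
(.lp [[3], [1, 5], [0, 2, 4, 6, 7, 8, 9]] [(.mj 3 9, 1), (.mj 8 3, 1)]))
(.cut 3 [(0, 1), (1, 1), (2, 1), (3, 1), (5, 1), (7, 1), (23, 1), (39, 1), (55, 1), (87, 1), (119, 1), (247, 1)]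
(.lp [[3], [1, 5], [0, 2, 4, 6, 7, 8, 9]] [(.mj 9 3, 278), (.rw 8, 1)])))
(.lp [[3], [1, 5], [0, 2, 4, 6, 7, 8]] [(.mj 8 3, 1)]))
.fin
.fin))
(.lp [[3], [1, 5], [0, 2, 4, 6, 7]] [(.rw 6, 1)]))
.fin
.fin))
(.lp [[3], [1, 5], [0, 2, 4, 6]] [(.mj 6 3, 1)])))
.fin
.fin))
(.cut 3 [(0, 1), (1, 1), (2, 1), (3, 1)]
(.lp [[3], [1, 5], [0, 2, 4, 6]] [(.hz 7 5, 41215), (.hz 7 7, 82429), (.rw 5, 2)])))))
(.cut 3 [(0, 1), (1, 1), (2, 1), (3, 1), (5, 1), (7, 1), (23, 1)]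
(.lp [[3], [1, 5], [0, 2, 4, 6]] [(.mj 4 5, 3435), (.rw 2, 11), (.hz 6 23, 149776), (.hz 5 95, 1004749), (.rw 5, 1)])))
(.lp [[3], [1, 5], [0, 2, 4, 6]] [(.mj 5 6, 1755), (.rw 2, 10), (.hz 5 7, 230314), (.hz 5 23, 329020)]))
(.ask 87
(.mark 87 [3, 5, 7]
(.spn
(.lp [[3], [1, 5], [0, 2, 4, 6, 7]] [(.rw 2, 4), (.rw 5, 1)])
(.cut 3 [(0, 1), (1, 1), (2, 1), (3, 1), (5, 1), (7, 1), (23, 1), (87, 1)]
(.lp [[3], [1, 5], [0, 2, 4, 6, 7]] [(.mj 5 7, 433), (.mj 6 5, 649), (.rw 2, 4), (.rw 6, 1)]))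
(.ask 215
(.mark 215 [3, 5, 8]
(.spn
(.lp [[3], [1, 5], [0, 2, 4, 6, 7, 8]] [(.mj 7 3, 381), (.rw 6, 1)])
(.lp [[3], [1, 5], [0, 2, 4, 6, 7, 8]] [(.mj 7 5, 627), (.rw 6, 1)])
(.maj 3 5
(.haz 5 479 2 25
(.cut 3 [(0, 1), (1, 1), (2, 1), (3, 1), (5, 1), (7, 1), (23, 1), (87, 1), (215, 1)]
(.lp [[3], [1, 5], [0, 2, 4, 6, 7, 8]] [(.mj 1 2, 10334), (.hz 5 479, 688963), (.rw 7, 2)]))
(.cut 5 [(0, 1), (1, 1), (2, 1), (3, 1), (5, 1), (7, 1), (13, 1), (23, 1)]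
(.cut 3 [(0, 1), (1, 1), (2, 1), (3, 1), (5, 1), (7, 1), (23, 1), (87, 1)]
(.cut 5 [(0, 1), (1, 1), (2, 1), (3, 1), (5, 1), (7, 1), (13, 1), (15, 1), (23, 1), (31, 1), (87, 1)]
(.lp [[3], [1, 5], [0, 2, 4, 6, 7, 8]] [(.mj 1 2, 181864), (.hz 5 87, 2072624), (.hz 5 215, 1592214), (.rw 7, 23), (.rw 8, 32), (.rw 9, 13)])))))
(.ask 471
(.mark 471 [3, 5, 9]
(.spn
(.con 3 5)
(.lp [[3], [1, 5], [0, 2, 4, 6, 7, 8, 9]] [(.mj 8 5, 213), (.rw 7, 1)])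
(.cut 3 [(0, 1), (1, 1), (2, 1), (3, 1)]
(.cut 5 [(0, 1), (1, 1), (2, 1), (3, 1), (5, 1), (7, 1)]
(.cut 3 [(0, 1), (1, 1), (2, 1), (3, 1), (5, 1), (7, 1), (23, 1)]
(.cut 5 [(0, 1), (1, 1), (2, 1), (3, 1), (5, 1), (7, 1), (23, 1)]
(.cut 5 [(0, 1), (1, 1), (2, 1), (3, 1), (5, 1), (7, 1), (23, 1), (87, 1)]
(.cut 3 [(0, 1), (1, 1), (2, 1), (3, 1), (5, 1), (7, 1), (23, 1), (39, 2), (55, 1), (87, 1)]
(.cut 5 [(0, 1), (1, 1), (2, 1), (3, 1), (5, 1), (7, 1), (23, 1), (87, 1), (215, 1)]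
(.cut 3 [(0, 1), (1, 1), (2, 1), (3, 1), (5, 1), (7, 1), (23, 1), (39, 1), (87, 1), (215, 1)]
(.lp [[3], [1, 5], [0, 2, 4, 6, 7, 8, 9]] [(.mj 9 5, 6080), (.rw 7, 6), (.rw 8, 6), (.rw 9, 5), (.rw 10, 15), (.rw 11, 20), (.rw 12, 15), (.rw 13, 3), (.rw 14, 10), (.rw 15, 10)])))))))))
.fin))
(.lp [[3], [1, 5], [0, 2, 4, 6, 7, 8]] [(.mj 8 5, 1), (.rw 6, 1)])))
.fin))
(.lp [[3], [1, 5], [0, 2, 4, 6, 7]] [(.mj 7 5, 1), (.rw 5, 1)]))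
.fin))
(.lp [[3], [1, 5], [0, 2, 4, 6]] [(.mj 6 5, 1), (.rw 4, 1)]))
.fin))
(.lp [[5], [1, 4], [0, 2, 3]] [(.mj 1 2, 5), (.mj 4 5, 1)]))
(.con 5 4)
.fin))

theorem run265 : run P3488 (leaf3 218 625) (cutRow P3488) [s262] t265 s265 = true := by
  decide +kernel

theorem bad265 : Bad P3488 s265 :=
  run_sound (leaf3_sound P3488 rfl rfl) (cutRow_sound P3488) (
    List.forall_mem_cons.2 ⟨bad262, fun _ h => absurd h List.not_mem_nil⟩) t265 s265 run265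

/-- the state above piece 177 of the tree -/
def s177 : St := ⟨[0, 0, 1, 3, 5, 15, 21, 31, 47, 191, 447], [319, 303, 191, 159, 63, 31, 23, 21, 15, 11, 7, 5, 3, 2, 1, 0], [0, 1, 2, 3, 4, 5, 7, 8],
  [(5, 6), (4, 5)],
  [⟨true, 2, 3, 3, 10⟩, ⟨true, 1, 5, 2, 5⟩, ⟨true, 2, 3, 23, 50⟩, ⟨true, 1, 5, 12, 25⟩, ⟨true, 1, 21, 27, 50⟩, ⟨true, 4, 15, 9, 40⟩, ⟨true, 3, 23, 11, 20⟩, ⟨true, 4, 47, 7, 20⟩, ⟨true, 4, 47, 17, 40⟩, ⟨true, 4, 47, 9, 20⟩, ⟨true, 4, 47, 19, 40⟩, ⟨true, 3, 87, 27, 40⟩, ⟨true, 5, 95, 1, 4⟩, ⟨true, 5, 159, 1, 4⟩, ⟨true, 7, 127, 7, 40⟩, ⟨true, 7, 95, 1, 5⟩, ⟨true, 8, 127, 9, 50⟩, ⟨true, 5, 95, 2, 5⟩, ⟨true, 6, 191, 3, 50⟩, ⟨true, 4, 303, 13, 25⟩, ⟨true, 5, 95, 12, 25⟩, ⟨true, 8, 767, 7, 25⟩],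
  [.spn 0 0 651200, .spn 1 1 302400, .spn 3 2 302400, .spn 7 3 302400, .spn 15 4 302400, .spn 31 5 140426, .spn 63 7 140426, .spn 191 8 140426]⟩

/-- piece 177 of the tree -/
noncomputable def t177 : WN.Tree :=
(.mark 447 [6, 9, 10]
(.spn
(.haz 9 1471 4 25
(.haz 9 1471 11 50
(.ask 1471
(.haz 9 447 7 25
(.mark 1471 [6, 9, 11]
(.lp [[6], [0, 2, 4, 7, 9], [1, 3, 5, 8, 10, 11]] [(.mj 6 9, 13), (.mj 7 8, 11), (.mj 8 6, 13), (.hz 24 447, 7127), (.hz 24 511, 11986), (.hz 24 1471, 9898), (.hz 24 3519, 13747)]))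
(.haz 9 1471 6 25
(.ask 703
(.mark 703 [6, 8, 12]
(.ask 4799
(.mark 6079 [6, 11, 13]
(.lp [[6], [1, 3, 5, 8, 10, 11], [0, 2, 4, 7, 9, 12, 13]] [(.mj 6 9, 2321), (.mj 6 10, 1251), (.mj 7 8, 3023), (.mj 8 6, 4345), (.hz 24 191, 923666), (.hz 25 1471, 6318492), (.hz 18 4799, 2833894), (.hz 18 5055, 1061257), (.hz 25 3519, 1), (.hz 18 12991, 1406275), (.hz 18 6079, 1)]))
(.mark 1983 [6, 11, 12]
(.lp [[6], [0, 2, 4, 7, 9, 12], [1, 3, 5, 8, 10, 11]] [(.mj 6 9, 111), (.mj 6 10, 53), (.mj 7 8, 166), (.mj 8 6, 195), (.hz 24 447, 86949), (.hz 25 1471, 342204), (.hz 18 4799, 86387), (.hz 18 5055, 58077), (.hz 18 4031, 1)]))))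
(.lp [[6], [0, 2, 4, 7, 9], [1, 3, 5, 8, 10, 11]] [(.mj 6 10, 3), (.mj 7 8, 6), (.mj 8 6, 5), (.hz 24 447, 7118), (.hz 25 1471, 4915)]))
(.lp [[6], [0, 2, 4, 7, 9], [1, 3, 5, 8, 10, 11]] [(.mj 6 10, 23), (.mj 7 8, 40), (.mj 8 6, 39), (.hz 25 191, 25279), (.hz 25 447, 32357), (.hz 18 703, 11222), (.hz 23 1471, 18678)])))
(.lp [[6], [0, 2, 4, 7, 9], [1, 3, 5, 8, 10]] [(.mj 3 4, 33), (.mj 6 9, 3), (.mj 7 8, 5), (.hz 23 1535, 1887)]))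
(.lp [[6], [0, 2, 4, 7, 9], [1, 3, 5, 8, 10]] [(.mj 6 10, 31), (.mj 7 8, 51), (.mj 8 6, 50), (.hz 23 191, 16033), (.hz 23 447, 20285), (.hz 18 703, 14471), (.hz 22 1471, 50326)]))
(.lp [[6], [0, 2, 4, 7, 9], [1, 3, 5, 8, 10]] [(.mj 6 10, 30), (.mj 7 8, 41), (.mj 8 6, 42), (.hz 22 191, 25459), (.hz 22 447, 31154), (.hz 18 703, 12049)]))
(.haz 9 1471 13 50
(.ask 703
(.mark 959 [6, 10, 11]
(.spn
(.haz 10 3007 3 20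
(.haz 6 1471 1 10
(.ask 85
(.mark 1023 [10, 11, 12]
(.lp [[6, 12], [1, 3, 5, 8, 10], [0, 2, 4, 7, 9, 11]] [(.mj 6 10, 59), (.mj 8 9, 298), (.mj 9 6, 665), (.rw 9, 2), (.hz 24 1471, 2768799), (.hz 23 3007, 162871)]))
(.haz 10 3007 1 4
(.lp [[6], [1, 3, 5, 8, 10], [0, 2, 4, 7, 9, 11]] [(.mj 6 10, 13), (.mj 6 11, 6), (.mj 8 9, 8), (.mj 9 6, 17), (.hz 24 1471, 58434), (.hz 22 1471, 331), (.hz 18 2751, 6713), (.hz 25 3007, 264361)])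
(.lp [[6], [1, 3, 5, 8, 10], [0, 2, 4, 7, 9, 11]] [(.mj 6 11, 6), (.mj 8 9, 8), (.mj 9 6, 9), (.hz 25 447, 68008), (.hz 25 959, 101175), (.hz 24 1471, 24616), (.hz 18 2751, 10255), (.hz 23 3007, 19581)])))
(.lp [[6], [1, 3, 5, 8, 10], [0, 2, 4, 7, 9, 11]] [(.mj 6 10, 590), (.mj 6 11, 94), (.mj 8 9, 675), (.rw 9, 5), (.hz 24 447, 33660366), (.hz 18 1471, 6058866), (.hz 18 2751, 1105105), (.hz 23 3007, 1934931)]))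
(.lp [[6], [1, 3, 5, 8, 10], [0, 2, 4, 7, 9, 11]] [(.mj 6 11, 2), (.mj 8 9, 2), (.mj 9 6, 3), (.hz 23 447, 4539), (.hz 23 959, 5726)]))
(.ask 1471
(.mark 1983 [6, 11, 12]
(.spn
(.lp [[6], [0, 2, 4, 7, 9, 11], [1, 3, 5, 8, 10, 12]] [(.mj 6 11, 117), (.mj 9 10, 426), (.mj 10 6, 881), (.rw 10, 2), (.hz 18 2751, 941709), (.hz 18 3007, 3314922), (.hz 18 5567, 2279440)])
(.ask 2751
(.mark 4031 [6, 12, 13]
(.cut 6 [(0, 1), (1, 1), (2, 1), (3, 1), (5, 1), (7, 1), (11, 1), (21, 1), (15, 1), (23, 1), (31, 1), (47, 1), (63, 1), (159, 1), (303, 1), (191, 1), (319, 1), (447, 1), (703, 1), (959, 1), (1471, 1), (2751, 1), (1983, 1), (3007, 1)]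
(.lp [[6], [1, 3, 5, 8, 10, 12], [0, 2, 4, 7, 9, 11, 13]] [(.mj 0 1, 6160), (.mj 10 11, 677), (.mj 11 6, 2605), (.mj 11 12, 313), (.hz 18 5567, 812304), (.hz 21 11007, 2047349), (.hz 18 6079, 7233303), (.rw 11, 8)])))
(.cut 6 [(0, 1), (1, 1), (2, 1), (3, 1), (5, 1), (7, 1), (11, 1), (21, 1), (15, 1), (23, 1), (31, 1), (47, 1), (63, 1), (159, 1), (303, 1), (191, 1), (319, 1), (447, 1), (703, 1), (959, 1), (1471, 1), (2751, 1), (1983, 1), (3007, 1)]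
(.cut 6 [(0, 1), (1, 1), (2, 1), (3, 1), (5, 1), (7, 1), (11, 1), (21, 1), (15, 1), (23, 1), (31, 1), (47, 1), (63, 1), (159, 1), (303, 1), (191, 1), (319, 1), (447, 1), (703, 1), (959, 1), (1471, 1), (1983, 1)]
(.cut 6 [(0, 1), (1, 1), (2, 1), (3, 1), (5, 1), (7, 1), (11, 1), (21, 1), (15, 1), (23, 1), (31, 1), (47, 1), (63, 1), (159, 1), (303, 1), (191, 1), (703, 1), (2751, 1)]
(.lp [[6], [0, 2, 4, 7, 9, 11], [1, 3, 5, 8, 10, 12]] [(.mj 0 1, 66944), (.mj 9 10, 1811), (.mj 10 11, 5264), (.mj 11 6, 26453), (.hz 18 5567, 4337977), (.hz 22 5567, 481538), (.hz 18 6079, 51902177), (.rw 11, 1), (.rw 12, 50), (.rw 13, 35)])))))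
(.cut 6 [(0, 1), (1, 1), (2, 1), (3, 1), (5, 1), (7, 1), (11, 1), (21, 1), (15, 1), (23, 1), (31, 1), (47, 1), (63, 1), (159, 1), (303, 1), (191, 1), (319, 1), (447, 1), (703, 1), (959, 1), (1471, 1)]
(.lp [[6], [0, 2, 4, 7, 9, 11], [1, 3, 5, 8, 10, 12]] [(.mj 0 1, 2792), (.mj 8 9, 26), (.mj 9 10, 356), (.mj 12 6, 1198), (.mj 12 11, 200), (.hz 21 2815, 1040573), (.rw 11, 4)]))
.fin))
(.ask 1983
(.mark 1983 [6, 11, 12]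
(.spn
(.haz 12 4031 7 20
(.lp [[6], [0, 2, 4, 7, 9, 11], [1, 3, 5, 8, 10, 12]] [(.mj 6 11, 1796), (.mj 6 12, 6696), (.mj 10 6, 19620), (.rw 10, 31), (.hz 18 2751, 23478019), (.hz 21 2815, 15473749), (.hz 18 3007, 66350923), (.hz 23 4031, 46810212)])
(.lp [[6], [0, 2, 4, 7, 9, 11], [1, 3, 5, 8, 10, 12]] [(.mj 6 11, 6), (.mj 10 6, 6), (.hz 23 1983, 23255)]))
(.cut 6 [(0, 1), (1, 1), (2, 1), (3, 1), (5, 1), (7, 1), (11, 1), (21, 1), (15, 1), (23, 1), (31, 1), (47, 1), (63, 1), (159, 1), (303, 1), (191, 1), (319, 1), (447, 1), (703, 1), (959, 1), (1471, 1), (2751, 1), (1983, 1), (3007, 1)]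
(.cut 6 [(0, 1), (1, 1), (2, 1), (3, 1), (5, 1), (7, 1), (11, 1), (21, 1), (15, 1), (23, 1), (31, 1), (47, 1), (63, 1), (159, 1), (303, 1), (191, 1), (319, 1), (447, 1), (1471, 1)]
(.cut 6 [(0, 1), (1, 1), (2, 1), (3, 1), (5, 1), (7, 1), (11, 1), (21, 1), (15, 1), (23, 1), (31, 1), (47, 1), (63, 1), (159, 1), (303, 1), (191, 1), (319, 1), (447, 1), (703, 1), (959, 1), (2751, 1)]
(.cut 6 [(0, 1), (1, 1), (2, 1), (3, 1), (5, 1), (7, 1), (11, 1), (21, 1), (15, 1), (23, 1), (31, 1), (47, 1), (63, 1), (159, 1), (303, 1), (191, 1), (319, 1), (447, 1), (703, 1), (959, 1)]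
(.lp [[6], [0, 2, 4, 7, 9, 11], [1, 3, 5, 8, 10, 12]] [(.mj 0 1, 257211), (.mj 8 9, 26096), (.mj 10 11, 9899), (.mj 11 6, 104714), (.mj 11 12, 745), (.hz 18 6079, 156360858), (.rw 11, 6), (.rw 12, 292), (.rw 13, 7), (.rw 14, 39)])))))
(.cut 6 [(0, 1), (1, 1), (2, 1), (3, 1), (5, 1), (7, 1), (11, 1), (21, 1), (15, 1), (23, 1), (31, 1), (47, 1), (63, 1), (159, 1), (303, 1), (191, 1), (319, 1), (447, 1), (703, 1), (959, 1)]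
(.lp [[6], [0, 2, 4, 7, 9, 11], [1, 3, 5, 8, 10, 12]] [(.mj 0 1, 61252), (.mj 8 9, 999), (.mj 12 6, 23580), (.hz 18 703, 6115551), (.hz 18 959, 14912874), (.hz 21 2815, 18625159), (.hz 18 1983, 14912874), (.rw 11, 64)]))
.fin))
(.lp [[6], [1, 3, 5, 8, 10], [0, 2, 4, 7, 9, 11]] [(.mj 10 6, 7), (.mj 10 11, 8), (.hz 18 2751, 15371), (.hz 18 3007, 53883)])))
(.cut 6 [(0, 1), (1, 1), (2, 1), (3, 1), (5, 1), (7, 1), (11, 1), (21, 1), (15, 1), (23, 1), (31, 1), (47, 1), (63, 1), (159, 1), (303, 1), (191, 1), (319, 1), (447, 1)]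
(.cut 6 [(0, 1), (1, 1), (2, 1), (3, 1), (5, 1), (7, 1), (11, 1), (21, 1), (15, 1), (23, 1), (31, 1), (47, 1), (63, 1), (159, 1), (303, 1), (191, 1), (319, 1), (447, 1), (703, 1), (959, 1)]
(.lp [[6], [1, 3, 5, 8, 10], [0, 2, 4, 7, 9, 11]] [(.mj 8 9, 3587), (.mj 11 6, 1875), (.mj 11 10, 1454), (.hz 22 1471, 849419), (.hz 22 1535, 3580798), (.hz 18 1983, 2665643), (.rw 10, 4), (.rw 11, 2)])))
.fin))
(.ref 0))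
(.lp [[6], [0, 2, 4, 7, 9], [1, 3, 5, 8, 10]] [(.mj 9 6, 1), (.mj 9 10, 1), (.hz 22 191, 293), (.hz 22 447, 586), (.hz 18 1471, 2200)]))
(.ask 1471
(.mark 1471 [6, 9, 11]
(.spn
(.lp [[6], [0, 2, 4, 7, 9], [1, 3, 5, 8, 10, 11]] [(.mj 10 6, 232), (.rw 9, 1)])
(.cut 6 [(0, 1), (1, 1), (2, 1), (3, 1), (5, 1), (7, 1), (11, 1), (21, 1), (15, 1), (23, 1), (31, 1), (47, 1), (63, 1), (159, 1), (303, 1), (191, 1), (319, 1), (447, 1)]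
(.cut 6 [(0, 1), (1, 1), (2, 1), (3, 1), (5, 1), (7, 1), (11, 1), (21, 1), (15, 1), (23, 1), (31, 1), (47, 1), (63, 1), (159, 1), (303, 1), (191, 1), (319, 1), (447, 1), (703, 1), (1471, 1)]
(.cut 6 [(0, 1), (1, 1), (2, 1), (3, 1), (5, 1), (7, 1), (11, 1), (21, 1), (15, 1), (23, 1), (31, 1), (47, 1), (63, 1), (159, 1), (303, 1), (191, 1), (319, 1), (447, 1), (703, 2), (959, 1), (1471, 1)]
(.lp [[6], [0, 2, 4, 7, 9], [1, 3, 5, 8, 10, 11]] [(.mj 7 8, 77938), (.mj 9 6, 39945), (.mj 9 11, 4688), (.mj 10 9, 57586), (.rw 9, 41), (.hz 18 959, 64495202), (.rw 10, 99), (.rw 11, 11), (.rw 12, 28)]))))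
(.maj 6 9
(.cut 6 [(0, 1), (1, 1), (2, 1), (3, 1), (5, 1), (7, 1), (11, 1), (21, 1), (15, 1), (23, 1), (31, 1), (47, 1), (63, 1), (159, 1), (303, 1), (191, 1), (319, 1), (447, 1)]
(.cut 9 [(0, 1), (1, 1), (2, 1), (3, 1), (5, 1), (7, 1), (11, 1), (21, 1), (15, 1), (23, 1), (85, 1), (31, 1), (47, 1), (87, 1), (63, 1), (95, 1), (159, 1), (303, 1), (127, 1), (191, 1), (223, 1), (319, 1), (255, 2), (383, 1), (447, 1), (511, 1)]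
(.lp [[6], [0, 2, 4, 7, 9], [1, 3, 5, 8, 10, 11]] [(.mj 0 1, 572), (.mj 7 8, 8135), (.mj 11 6, 5782), (.rw 9, 1), (.hz 18 703, 8566095), (.hz 21 767, 48087340), (.rw 10, 22), (.rw 11, 2)])))
(.cut 6 [(0, 1), (1, 1), (2, 1), (3, 1), (5, 1), (7, 1), (11, 1), (21, 1), (15, 1), (23, 1), (31, 1), (47, 1), (63, 1), (159, 1), (303, 1), (191, 1), (319, 1), (447, 1), (703, 2), (959, 1)]
(.cut 6 [(0, 1), (1, 1), (2, 1), (3, 1), (5, 1), (7, 1), (11, 1), (21, 1), (15, 1), (23, 1), (31, 1), (47, 1), (63, 1), (159, 1), (303, 1), (191, 1), (319, 1), (447, 1), (1471, 1)]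
(.cut 9 [(0, 1), (1, 1), (2, 1), (3, 1), (5, 1), (7, 1), (11, 1), (21, 1), (15, 1), (23, 1), (31, 1), (47, 1), (63, 1), (159, 1), (303, 1), (191, 1), (319, 1), (447, 1), (1471, 1)]
(.lp [[6], [0, 2, 4, 7, 9], [1, 3, 5, 8, 10, 11]] [(.mj 7 8, 21617), (.mj 9 6, 8974), (.mj 11 6, 805), (.mj 11 9, 9779), (.hz 21 767, 42004280), (.hz 18 1983, 28254228), (.rw 10, 4), (.rw 11, 29), (.rw 12, 14)])))))
.fin))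
(.lp [[6], [0, 2, 4, 7, 9], [1, 3, 5, 8, 10]] [(.mj 10 9, 1), (.rw 8, 1)]))
.fin))

theorem run177 : run P3488 (leaf3 218 625) (cutRow P3488) [s176] t177 s177 = true := by
  decide +kernel

theorem bad177 : Bad P3488 s177 :=
  run_sound (leaf3_sound P3488 rfl rfl) (cutRow_sound P3488) (
    List.forall_mem_cons.2 ⟨bad176, fun _ h => absurd h List.not_mem_nil⟩) t177 s177 run177

/-- the state above piece 204 of the tree -/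
def s204 : St := ⟨[0, 0, 1, 3, 5, 15, 23, 31, 47, 191], [303, 191, 159, 63, 31, 23, 21, 15, 11, 7, 5, 3, 2, 1, 0], [0, 1, 2, 3, 4, 5, 7, 8],
  [(5, 6), (4, 5)],
  [⟨true, 2, 3, 3, 10⟩, ⟨true, 1, 5, 2, 5⟩, ⟨true, 2, 3, 23, 50⟩, ⟨true, 1, 5, 12, 25⟩, ⟨true, 1, 21, 27, 50⟩, ⟨true, 4, 15, 9, 40⟩, ⟨true, 3, 23, 11, 20⟩, ⟨true, 4, 47, 7, 20⟩, ⟨true, 4, 47, 17, 40⟩, ⟨true, 4, 47, 9, 20⟩, ⟨true, 4, 47, 19, 40⟩, ⟨true, 5, 95, 1, 5⟩, ⟨true, 5, 95, 3, 10⟩, ⟨true, 5, 31, 3, 10⟩, ⟨true, 3, 87, 29, 40⟩, ⟨true, 6, 447, 1, 40⟩, ⟨true, 7, 319, 11, 40⟩, ⟨true, 7, 127, 13, 40⟩, ⟨true, 6, 703, 3, 40⟩],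
  [.spn 0 0 651200, .spn 1 1 302400, .spn 3 2 302400, .spn 7 3 302400, .spn 15 4 302400, .spn 31 5 140426, .spn 63 7 140426, .spn 191 8 140426]⟩

/-- piece 204 of the tree -/
noncomputable def t204 : WN.Tree :=
(.ask 319
(.mark 447 [6, 9, 10]
(.spn
(.haz 9 447 7 20
(.lp [[6], [0, 2, 4, 7, 9], [1, 3, 5, 8, 10]] [(.mj 6 9, 8186), (.mj 7 8, 8849), (.mj 8 6, 8849), (.rw 7, 1), (.rw 8, 1), (.hz 19 447, 5282329), (.hz 18 703, 3180252), (.hz 19 1471, 15603974)])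
(.haz 6 1471 1 10
(.lp [[6], [0, 2, 4, 7, 9], [1, 3, 5, 8, 10]] [(.mj 0 1, 27586), (.mj 7 8, 27425), (.mj 8 6, 17366), (.rw 8, 10), (.hz 19 191, 14778082), (.hz 19 447, 12002793), (.hz 18 703, 6240744), (.hz 20 1471, 81808316)])
(.lp [[6], [0, 2, 4, 7, 9], [1, 3, 5, 8, 10]] [(.mj 0 1, 102), (.mj 6 9, 1), (.hz 20 23, 2911), (.hz 20 31, 1571), (.hz 20 63, 82), (.hz 20 159, 1746), (.hz 20 191, 2830), (.hz 19 191, 1028)])))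
(.haz 6 63 1 10
(.ask 703
(.mark 959 [6, 10, 11]
(.spn
(.ask 87
(.mark 1023 [10, 11, 12]
(.lp [[6, 12], [1, 3, 5, 8, 10], [0, 2, 4, 7, 9, 11]] [(.mj 0 1, 5794), (.mj 6 10, 45), (.mj 8 9, 321), (.mj 9 6, 450), (.rw 9, 1), (.hz 14 4183, 26739), (.hz 12 4191, 291316), (.hz 19 1343, 1375287), (.hz 19 1471, 1456675)]))
(.lp [[6], [1, 3, 5, 8, 10], [0, 2, 4, 7, 9, 11]] [(.mj 0 1, 67112), (.mj 8 9, 1992), (.mj 9 6, 4573), (.rw 9, 5), (.hz 19 63, 3226523), (.hz 19 1343, 11472081), (.hz 19 1471, 39275945), (.hz 19 2751, 16770540)]))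
(.lp [[6], [1, 3, 5, 8, 10], [0, 2, 4, 7, 9, 11]] [(.mj 0 1, 154), (.mj 8 9, 1), (.mj 9 10, 1), (.mj 10 6, 13), (.hz 14 87, 687), (.hz 19 63, 8325), (.hz 19 191, 15361), (.hz 19 319, 14521), (.hz 19 447, 30146), (.hz 19 703, 21865), (.hz 19 1343, 2772), (.hz 19 959, 51839), (.hz 19 1471, 7698), (.hz 19 2751, 18343)])
(.lp [[6], [1, 3, 5, 8, 10], [0, 2, 4, 7, 9, 11]] [(.mj 0 1, 57), (.mj 8 9, 1), (.mj 11 6, 5), (.hz 14 87, 254), (.hz 19 63, 3077), (.hz 19 191, 5677), (.hz 19 319, 5367), (.hz 19 447, 11142), (.hz 19 703, 11595), (.hz 19 1343, 6071), (.hz 19 959, 20400), (.hz 19 1471, 19384)])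
.fin))
(.ask 959
(.mark 959 [6, 10, 11]
(.spn
(.haz 11 1983 11 40
(.lp [[6], [1, 3, 5, 8, 10], [0, 2, 4, 7, 9, 11]] [(.mj 0 1, 118234), (.mj 6 10, 2076), (.mj 6 11, 5667), (.mj 9 6, 12582), (.rw 9, 1), (.hz 14 87, 526576), (.hz 19 63, 6377417), (.hz 19 319, 11123100), (.hz 19 1343, 15097522), (.hz 19 1471, 78166005), (.hz 20 1983, 13265794)])
(.lp [[6], [1, 3, 5, 8, 10], [0, 2, 4, 7, 9, 11]] [(.mj 0 1, 18), (.mj 6 10, 4), (.mj 9 6, 5), (.hz 20 959, 4544)]))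
(.lp [[6], [1, 3, 5, 8, 10], [0, 2, 4, 7, 9, 11]] [(.mj 0 1, 42), (.mj 7 8, 3), (.mj 10 6, 5), (.hz 14 87, 187), (.hz 19 63, 2263), (.hz 19 191, 4175), (.hz 19 319, 12632), (.hz 19 447, 12747), (.hz 19 703, 3809), (.hz 19 1343, 2300), (.hz 19 959, 18395), (.hz 19 1471, 2044), (.hz 19 3007, 20439)])
(.lp [[6], [1, 3, 5, 8, 10], [0, 2, 4, 7, 9, 11]] [(.mj 0 1, 12), (.mj 11 6, 1), (.hz 14 87, 54), (.hz 19 63, 652), (.hz 19 191, 1202), (.hz 19 319, 1137), (.hz 19 447, 2360), (.hz 19 703, 1097), (.hz 19 959, 3840), (.hz 19 1471, 1079)])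
.fin))
(.lp [[6], [0, 2, 4, 7, 9], [1, 3, 5, 8, 10]] [(.mj 0 1, 26), (.mj 7 8, 3), (.mj 9 6, 4), (.hz 14 87, 113), (.hz 19 319, 11373), (.hz 19 447, 7811), (.hz 19 1343, 6703), (.hz 19 1471, 21339)])))
(.haz 6 191 1 8
(.lp [[6], [0, 2, 4, 7, 9], [1, 3, 5, 8, 10]] [(.mj 0 1, 127), (.mj 8 9, 1), (.hz 19 23, 3618), (.hz 19 31, 4290), (.hz 19 63, 24585), (.hz 20 191, 27405), (.hz 20 447, 29038), (.hz 20 703, 5921), (.hz 16 1343, 726), (.hz 20 1471, 29038)])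
(.ask 703
(.mark 959 [6, 10, 11]
(.spn
(.lp [[6], [1, 3, 5, 8, 10], [0, 2, 4, 7, 9, 11]] [(.mj 0 1, 303141), (.mj 8 9, 4724), (.rw 9, 4), (.hz 19 23, 8669350), (.hz 19 31, 4680697), (.hz 19 63, 7246644), (.hz 20 159, 6686709), (.hz 18 2751, 6012274), (.hz 18 1983, 5262127)])
(.lp [[6], [1, 3, 5, 8, 10], [0, 2, 4, 7, 9, 11]] [(.mj 0 1, 2686), (.mj 8 9, 28), (.mj 10 6, 28), (.mj 10 11, 1), (.hz 19 23, 71595), (.hz 19 31, 29140), (.hz 20 159, 41628), (.hz 20 191, 1206), (.hz 18 703, 40208), (.hz 18 959, 54510), (.hz 18 2751, 11508), (.hz 18 1983, 57160), (.hz 18 3007, 43335)])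
(.cut 6 [(0, 1), (1, 1), (2, 1), (3, 1), (5, 1), (7, 1), (11, 1), (21, 1), (15, 1), (23, 1), (31, 1), (47, 1), (63, 1), (159, 1), (303, 1), (191, 1)]
(.lp [[6], [1, 3, 5, 8, 10], [0, 2, 4, 7, 9, 11]] [(.mj 0 1, 1731226), (.mj 8 9, 25937), (.mj 11 6, 18999), (.hz 19 23, 46086694), (.hz 19 31, 18647795), (.hz 20 159, 26639707), (.hz 18 703, 26912697), (.hz 18 959, 17298744), (.hz 15 1471, 31713937), (.hz 18 2751, 1997367), (.hz 18 1983, 26631558), (.rw 10, 19)]))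
.fin))
(.ask 959
(.mark 959 [6, 10, 11]
(.spn
(.lp [[6], [1, 3, 5, 8, 10], [0, 2, 4, 7, 9, 11]] [(.mj 0 1, 513), (.mj 6 11, 2), (.mj 8 9, 2), (.hz 19 23, 14490), (.hz 19 31, 7479), (.hz 19 63, 2436), (.hz 20 159, 10684), (.hz 20 191, 8628), (.hz 18 1983, 8240)])
(.lp [[6], [1, 3, 5, 8, 10], [0, 2, 4, 7, 9, 11]] [(.mj 0 1, 309), (.mj 10 6, 3), (.mj 10 11, 1), (.hz 19 23, 8223), (.hz 19 31, 3327), (.hz 20 159, 4753), (.hz 18 959, 4878), (.hz 18 1983, 7541), (.hz 18 3007, 6366)])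
(.cut 6 [(0, 1), (1, 1), (2, 1), (3, 1), (5, 1), (7, 1), (11, 1), (21, 1), (15, 1), (23, 1), (31, 1), (47, 1), (63, 1), (159, 1), (303, 1), (191, 1), (319, 1), (447, 1), (703, 1), (959, 1)]
(.cut 10 [(0, 1), (1, 1), (2, 1), (3, 1), (5, 1), (7, 1), (11, 1), (21, 1), (15, 1), (23, 1), (31, 1), (47, 1), (87, 1), (63, 1), (95, 1), (159, 1), (303, 1), (127, 1), (191, 1), (223, 1), (255, 1), (703, 1), (767, 1)]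
(.lp [[6], [1, 3, 5, 8, 10], [0, 2, 4, 7, 9, 11]] [(.mj 0 1, 15866241), (.mj 11 6, 503604), (.hz 19 23, 349990604), (.hz 18 703, 214085409), (.hz 17 1407, 183782440), (.hz 18 1983, 686109824), (.rw 10, 1136), (.rw 11, 89)])))
.fin))
(.lp [[6], [0, 2, 4, 7, 9], [1, 3, 5, 8, 10]] [(.mj 0 1, 6), (.hz 19 23, 180), (.hz 19 31, 92), (.hz 20 159, 131), (.hz 20 191, 133)])))))
(.maj 6 9
(.cut 6 [(0, 1), (1, 1), (2, 1), (3, 1), (5, 1), (7, 1), (11, 1), (21, 1), (15, 1), (23, 1), (31, 1), (47, 1), (63, 1), (159, 1), (303, 1), (191, 1), (319, 1), (447, 1)]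
(.lp [[6], [0, 2, 4, 7, 9], [1, 3, 5, 8, 10]] [(.mj 7 8, 864), (.mj 10 6, 538), (.mj 10 9, 403), (.hz 18 703, 646719), (.rw 9, 1)]))
(.cut 6 [(0, 1), (1, 1), (2, 1), (3, 1), (5, 1), (7, 1), (11, 1), (21, 1), (15, 1), (23, 1), (31, 1), (47, 1), (63, 1), (159, 1), (303, 1), (191, 1), (319, 1), (447, 1)]
(.cut 9 [(0, 1), (1, 1), (2, 1), (3, 1), (5, 1), (7, 1), (11, 1), (21, 1), (15, 1), (23, 1), (31, 1), (47, 1), (63, 1), (159, 1), (303, 1), (191, 1), (319, 1), (1343, 1)]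
(.lp [[6], [0, 2, 4, 7, 9], [1, 3, 5, 8, 10]] [(.mj 7 8, 20976), (.mj 9 6, 5771), (.mj 10 6, 7296), (.mj 10 9, 13067), (.rw 9, 30), (.rw 10, 4)]))))
.fin))
(.ask 447
(.ref 0)
(.spn
(.lp [[6], [1, 3, 5, 8], [0, 2, 4, 7, 9]] [(.mj 6 9, 2), (.mj 7 6, 1), (.mj 8 6, 2)])
(.ask 703
(.mark 703 [6, 8, 10]
(.ask 959
(.mark 959 [6, 10, 11]
(.spn
(.lp [[6], [1, 3, 5, 8, 11], [0, 2, 4, 7, 9, 10]] [(.mj 6 11, 5301), (.mj 8 9, 31389), (.mj 9 6, 16408), (.rw 9, 22)])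
(.lp [[6], [1, 3, 5, 8, 11], [0, 2, 4, 7, 9, 10]] [(.mj 8 9, 6), (.mj 10 6, 5), (.mj 10 11, 1), (.hz 18 703, 10158), (.hz 18 959, 3283), (.hz 18 3007, 8389)])
(.cut 6 [(0, 1), (1, 1), (2, 1), (3, 1), (5, 1), (7, 1), (11, 1), (21, 1), (15, 1), (23, 1), (31, 1), (47, 1), (63, 1), (159, 1), (303, 1), (191, 1), (319, 1), (447, 1), (703, 1), (959, 1)]
(.cut 10 [(0, 1), (1, 1), (2, 1), (3, 1), (5, 1), (7, 1), (11, 1), (21, 1), (15, 1), (23, 1), (31, 1), (47, 1), (87, 1), (63, 1), (95, 1), (159, 1), (303, 1), (127, 1), (191, 1), (223, 1), (319, 1), (255, 1), (383, 1), (447, 1), (511, 1)]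
(.lp [[6], [1, 3, 5, 8, 11], [0, 2, 4, 7, 9, 10]] [(.mj 8 9, 99661), (.mj 11 6, 58051), (.rw 10, 183), (.rw 11, 14)])))
.fin))
(.lp [[6], [1, 3, 5, 8], [0, 2, 4, 7, 9, 10]] [(.mj 8 9, 1), (.mj 9 6, 1), (.hz 18 703, 1633)])))
(.ask 959
(.haz 7 383 3 5
(.haz 5 223 7 10
(.ask 959
(.mark 959 [6, 10, 11]
(.spn
(.haz 10 3007 7 20
(.lp [[6], [1, 3, 5, 8, 11], [0, 2, 4, 7, 9, 10]] [(.mj 6 10, 16), (.mj 6 11, 8), (.mj 8 9, 16), (.mj 9 6, 22), (.hz 21 3007, 48360)])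
(.lp [[6], [1, 3, 5, 8, 11], [0, 2, 4, 7, 9, 10]] [(.mj 8 9, 4), (.mj 9 6, 4), (.mj 10 11, 3), (.hz 21 959, 7962), (.hz 18 3007, 14313)]))
(.ask 87
(.mark 95 [5, 7, 12]
(.cut 6 [(0, 1), (1, 1), (2, 1), (3, 1), (5, 1), (7, 1), (11, 1), (21, 1), (15, 1), (23, 1), (31, 1), (47, 1), (63, 1), (159, 1), (303, 1), (191, 1), (703, 1)]
(.cut 6 [(0, 1), (1, 1), (2, 1), (3, 1), (5, 1), (7, 1), (11, 1), (21, 1), (15, 1), (23, 1), (31, 1), (47, 1), (63, 1), (159, 1), (303, 1), (191, 1), (319, 1), (447, 1)]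
(.lp [[6, 12], [1, 3, 5, 8, 11], [0, 2, 4, 7, 9, 10]] [(.mj 0 1, 164058), (.mj 10 6, 7151), (.hz 14 4183, 852258), (.hz 12 4191, 12504483), (.hz 17 4223, 4705207), (.rw 10, 9), (.rw 11, 8)]))))
(.cut 6 [(0, 1), (1, 1), (2, 1), (3, 1), (5, 1), (7, 1), (11, 1), (21, 1), (15, 1), (23, 1), (31, 1), (47, 1), (63, 1), (159, 1), (303, 1), (191, 1), (319, 1), (447, 1), (703, 1), (959, 1)]
(.lp [[6], [1, 3, 5, 8, 11], [0, 2, 4, 7, 9, 10]] [(.mj 0 1, 369743), (.mj 10 6, 17065), (.rw 10, 41)])))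
(.con 11 10)
.fin))
(.spn
(.lp [[6], [1, 3, 5, 8], [0, 2, 4, 7, 9, 10]] [(.mj 6 10, 1), (.mj 9 6, 1)])
(.ask 87
(.mark 95 [5, 7, 11]
(.cut 6 [(0, 1), (1, 1), (2, 1), (3, 1), (5, 1), (7, 1), (11, 1), (21, 1), (15, 1), (23, 1), (31, 1), (47, 1), (63, 1), (159, 1), (303, 1), (191, 1), (319, 1), (447, 1), (703, 1), (959, 1)]
(.lp [[6, 11], [1, 3, 5, 8], [0, 2, 4, 7, 9, 10]] [(.mj 0 1, 9602), (.mj 10 6, 419), (.hz 14 2135, 49881), (.hz 12 2143, 731858), (.hz 17 2175, 275385), (.rw 10, 1)])))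
(.cut 6 [(0, 1), (1, 1), (2, 1), (3, 1), (5, 1), (7, 1), (11, 1), (21, 1), (15, 1), (23, 1), (31, 1), (47, 1), (63, 1), (159, 1), (303, 1), (191, 1), (319, 1), (447, 1), (703, 1), (959, 1)]
(.lp [[6], [1, 3, 5, 8], [0, 2, 4, 7, 9, 10]] [(.mj 0 1, 369743), (.mj 10 6, 17065), (.rw 10, 41)])))
.fin
.fin))
(.lp [[6], [1, 3, 5, 8], [0, 2, 4, 7, 9, 10]] [(.mj 3 4, 11), (.mj 7 8, 1), (.hz 20 159, 3994), (.hz 12 223, 1236)]))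
(.lp [[6], [1, 3, 5, 8], [0, 2, 4, 7, 9, 10]] [(.mj 7 8, 1), (.mj 9 6, 1), (.hz 19 319, 11953)]))
(.lp [[6], [1, 3, 5, 8], [0, 2, 4, 7, 9]] [(.mj 9 6, 1)])))
.fin
.fin)))

theorem run204 : run P3488 (leaf3 218 625) (cutRow P3488) [s203] t204 s204 = true := by
  decide +kernel

theorem bad204 : Bad P3488 s204 :=
  run_sound (leaf3_sound P3488 rfl rfl) (cutRow_sound P3488) (
    List.forall_mem_cons.2 ⟨bad203, fun _ h => absurd h List.not_mem_nil⟩) t204 s204 run204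

/-- the state above piece 40 of the tree -/
def s40 : St := ⟨[0, 0, 1, 1, 7, 7, 11, 23, 47], [63, 55, 39, 31, 15, 13, 9, 7, 5, 3, 2, 1, 0], [0, 1, 2, 3, 4, 5, 7],
  [(3, 4)],
  [⟨true, 1, 9, 7, 50⟩, ⟨true, 2, 11, 3, 50⟩, ⟨true, 2, 9, 9, 50⟩, ⟨true, 3, 3, 1, 5⟩, ⟨true, 1, 5, 13, 50⟩, ⟨true, 2, 11, 3, 5⟩, ⟨true, 2, 9, 8, 25⟩, ⟨true, 2, 9, 17, 50⟩, ⟨true, 2, 11, 33, 50⟩, ⟨true, 4, 47, 4, 25⟩, ⟨true, 4, 79, 1, 5⟩, ⟨true, 5, 159, 7, 50⟩, ⟨true, 4, 79, 3, 10⟩, ⟨true, 3, 23, 7, 25⟩, ⟨true, 3, 23, 3, 10⟩, ⟨true, 6, 63, 2, 25⟩, ⟨true, 5, 95, 4, 25⟩, ⟨true, 4, 79, 9, 25⟩, ⟨true, 4, 303, 13, 50⟩, ⟨true, 6, 159, 3, 25⟩, ⟨true, 4, 303, 8, 25⟩, ⟨true, 6, 47, 7, 50⟩],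
  [.spn 0 0 651200, .spn 1 1 140426, .spn 3 2 302400, .spn 7 3 62723, .spn 15 4 140426, .spn 31 5 62723, .spn 63 7 62723]⟩

/-- piece 40 of the tree -/
noncomputable def t40 : WN.Tree :=
(.haz 4 79 21 50
(.ask 151
(.mark 191 [6, 8, 9]
(.spn
(.haz 8 703 1 5
(.ask 75
(.mark 255 [8, 9, 10]
(.spn
(.haz 8 703 8 25
(.lp [[1, 5, 8], [3, 6, 10], [0, 2, 4, 7, 9]] [(.mj 3 4, 3245), (.mj 4 5, 3282), (.mj 5 7, 5463), (.mj 6 8, 9541), (.mj 7 6, 13818), (.mj 8 9, 5274), (.rw 7, 2), (.hz 8 1099, 9374), (.hz 21 303, 3020258), (.hz 22 1103, 76333), (.hz 21 319, 2515195), (.hz 19 671, 5409093), (.hz 14 695, 4778000), (.hz 21 703, 4446293), (.hz 24 703, 19081128)])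
(.lp [[1, 5, 8], [3, 6, 10], [0, 2, 4, 7, 9]] [(.mj 4 5, 7), (.mj 5 7, 2), (.mj 7 6, 10), (.mj 8 9, 8), (.hz 24 63, 5204), (.hz 21 303, 3573), (.hz 24 191, 15057), (.hz 21 319, 1448), (.hz 21 703, 13707)]))
(.haz 8 255 6 25
(.lp [[1, 5, 8], [3, 6, 10], [0, 2, 4, 7, 9]] [(.mj 3 4, 5), (.mj 5 7, 4), (.mj 6 9, 7), (.mj 7 6, 13), (.mj 9 8, 9), (.hz 8 1099, 18), (.hz 21 303, 4180), (.hz 22 1103, 143), (.hz 21 319, 9371), (.hz 16 1119, 526), (.hz 22 1135, 202), (.hz 24 255, 47698), (.hz 23 703, 78048)])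
(.lp [[1, 5, 8], [3, 6, 10], [0, 2, 4, 7, 9]] [(.mj 4 5, 10), (.mj 5 7, 49), (.mj 6 9, 27), (.mj 7 6, 47), (.hz 24 47, 10451), (.hz 24 63, 41832), (.hz 21 303, 7928), (.hz 24 191, 61894), (.hz 23 703, 308085)]))
(.lp [[1, 5, 8], [3, 6, 10], [0, 2, 4, 7, 9]] [(.mj 3 4, 4), (.mj 4 5, 2), (.mj 5 7, 3), (.mj 7 6, 9), (.mj 10 8, 4), (.mj 10 9, 3), (.hz 21 303, 2800), (.hz 21 319, 9585), (.hz 19 671, 3025), (.hz 21 447, 3183), (.hz 21 703, 1119), (.hz 23 703, 68880)])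
.fin))
(.haz 5 79 1 4
(.ask 79
(.mark 255 [8, 9, 10]
(.spn
(.haz 9 447 1 4
(.lp [[1, 5, 8], [3, 6, 10], [0, 2, 4, 7, 9]] [(.mj 3 4, 22), (.mj 4 5, 50), (.mj 5 7, 29), (.mj 6 8, 38), (.mj 7 6, 77), (.mj 8 9, 41), (.hz 21 303, 23753), (.hz 24 1103, 231346), (.hz 21 319, 27783), (.hz 19 671, 29308), (.hz 25 447, 478417), (.hz 21 703, 57220)])
(.lp [[1, 5, 8], [3, 6, 10], [0, 2, 4, 7, 9]] [(.mj 4 5, 35), (.mj 5 7, 16), (.mj 6 8, 53), (.mj 7 6, 64), (.mj 8 9, 15), (.hz 25 151, 20617), (.hz 25 159, 103086), (.hz 25 183, 66869), (.hz 25 191, 235357), (.hz 23 703, 525056)]))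
(.haz 8 703 1 4
(.lp [[1, 5, 8], [3, 6, 10], [0, 2, 4, 7, 9]] [(.mj 3 4, 58), (.mj 4 5, 27), (.mj 5 7, 113), (.mj 6 9, 90), (.mj 7 6, 197), (.mj 9 8, 120), (.hz 21 303, 63412), (.hz 22 1103, 317), (.hz 24 1103, 90246), (.hz 21 319, 221721), (.hz 24 1119, 101190), (.hz 21 447, 7554), (.hz 25 703, 1265208), (.hz 25 767, 2085693)])
(.lp [[1, 5, 8], [3, 6, 10], [0, 2, 4, 7, 9]] [(.mj 4 5, 56), (.mj 5 7, 78), (.mj 6 9, 41), (.mj 7 6, 74), (.mj 9 8, 11), (.hz 25 63, 182370), (.hz 21 303, 23556), (.hz 24 1103, 266658), (.hz 25 191, 434467), (.hz 21 319, 51200), (.hz 24 1119, 78460), (.hz 23 703, 454978)]))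
(.lp [[1, 5, 8], [3, 6, 10], [0, 2, 4, 7, 9]] [(.mj 3 4, 3), (.mj 4 5, 1), (.mj 5 7, 2), (.mj 7 6, 6), (.mj 10 8, 3), (.mj 10 9, 2), (.hz 21 303, 1910), (.hz 21 319, 6525), (.hz 19 671, 2062), (.hz 21 447, 2232), (.hz 21 703, 831), (.hz 23 703, 46612)])
.fin))
(.ask 95
(.mark 255 [8, 9, 10]
(.spn
(.haz 8 703 3 10
(.lp [[1, 5, 8], [3, 6, 10], [0, 2, 4, 7, 9]] [(.mj 3 4, 212), (.mj 4 5, 171), (.mj 5 7, 213), (.mj 6 8, 231), (.mj 7 6, 389), (.mj 8 9, 97), (.hz 21 303, 85607), (.hz 21 319, 155455), (.hz 24 1119, 554419), (.hz 19 671, 128225), (.hz 21 703, 113037), (.hz 25 703, 1155042)])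
(.lp [[1, 5, 8], [3, 6, 10], [0, 2, 4, 7, 9]] [(.mj 3 4, 1), (.mj 4 5, 11), (.mj 5 7, 3), (.mj 7 6, 13), (.mj 8 9, 9), (.hz 25 63, 9086), (.hz 21 303, 5225), (.hz 25 191, 40439), (.hz 21 319, 6418), (.hz 19 671, 2102), (.hz 21 703, 15537)]))
(.haz 10 255 1 10
(.lp [[1, 5, 8], [3, 6, 10], [0, 2, 4, 7, 9]] [(.mj 3 4, 14), (.mj 4 5, 17), (.mj 5 7, 41), (.mj 6 9, 27), (.mj 7 6, 60), (.mj 9 8, 29), (.hz 21 303, 19265), (.hz 21 319, 59565), (.hz 24 1119, 56290), (.hz 25 255, 23317), (.hz 21 447, 49924), (.hz 23 703, 303899), (.hz 25 511, 775601), (.hz 23 767, 93243), (.hz 25 767, 135464)])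
(.lp [[1, 5, 8], [3, 6, 10], [0, 2, 4, 7, 9]] [(.mj 3 4, 21), (.mj 4 5, 88), (.mj 5 7, 80), (.mj 7 6, 14), (.mj 9 8, 8), (.hz 25 95, 86923), (.hz 21 303, 17276), (.hz 25 127, 71463), (.hz 23 767, 40460)]))
(.lp [[1, 5, 8], [3, 6, 10], [0, 2, 4, 7, 9]] [(.mj 3 4, 2), (.mj 4 5, 1), (.mj 5 7, 2), (.mj 7 6, 4), (.mj 10 8, 2), (.mj 10 9, 1), (.hz 21 303, 1518), (.hz 21 319, 3278), (.hz 19 671, 1320), (.hz 22 367, 749), (.hz 21 447, 2687), (.hz 21 703, 1320), (.hz 23 703, 31702)])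
.fin))
(.lp [[3, 6], [1, 5, 8], [0, 2, 4, 7, 9]] [(.mj 3 4, 15), (.mj 4 5, 28), (.mj 5 7, 15), (.mj 7 6, 7), (.hz 21 303, 5843), (.hz 21 319, 5103), (.hz 19 671, 209)])))
(.lp [[3, 6], [1, 5, 8], [0, 2, 4, 7, 9]] [(.mj 3 4, 1104), (.mj 5 7, 3003), (.mj 6 9, 1097), (.mj 7 6, 5581), (.rw 7, 1), (.hz 24 15, 13529971), (.hz 21 47, 1244365), (.hz 22 79, 29151), (.hz 21 303, 1446937), (.hz 21 319, 5164407), (.hz 19 671, 1031438), (.hz 23 703, 12341803)])))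
(.lp [[3, 6], [1, 5, 8], [0, 2, 4, 7, 9]] [(.mj 3 4, 3385), (.mj 4 5, 301), (.mj 5 7, 195), (.mj 6 9, 12), (.mj 7 6, 1705), (.hz 8 75, 14117), (.hz 23 47, 2429455), (.hz 22 79, 92770), (.hz 23 63, 1821946), (.hz 21 303, 234383), (.hz 23 191, 2614711), (.hz 21 319, 1092465), (.hz 21 703, 9860)]))
(.lp [[3, 6], [1, 5, 8], [0, 2, 4, 7, 9]] [(.mj 3 4, 36), (.mj 4 5, 46), (.mj 5 7, 15), (.mj 8 6, 48), (.hz 8 75, 150), (.hz 21 47, 14196), (.hz 22 79, 988), (.hz 21 63, 15253), (.hz 19 159, 19970), (.hz 21 303, 1530), (.hz 21 191, 31694), (.hz 11 671, 8460), (.hz 19 671, 20380), (.hz 21 703, 47954)])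
(.lp [[3, 6], [1, 5, 8], [0, 2, 4, 7, 9]] [(.mj 3 4, 11), (.mj 4 5, 13), (.mj 5 7, 9), (.mj 9 6, 17), (.hz 8 75, 44), (.hz 21 47, 4019), (.hz 22 79, 288), (.hz 21 63, 4352), (.hz 19 159, 10709), (.hz 21 303, 2676), (.hz 21 191, 10636), (.hz 21 319, 8347)])
.fin))
(.haz 4 303 11 25
(.ask 183
(.mark 191 [6, 8, 9]
(.spn
(.haz 9 447 3 10
(.ask 75
(.mark 255 [8, 9, 10]
(.lp [[1, 5, 8], [3, 6, 10], [0, 2, 4, 7, 9]] [(.mj 4 5, 23), (.mj 6 9, 10), (.mj 7 6, 17), (.hz 21 47, 282), (.hz 8 1099, 31), (.hz 21 303, 10365), (.hz 22 1103, 251), (.hz 21 319, 20781), (.hz 16 1119, 45046), (.hz 24 447, 55657)]))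
(.ask 79
(.mark 255 [8, 9, 10]
(.lp [[1, 5, 8], [3, 6, 10], [0, 2, 4, 7, 9]] [(.mj 4 5, 16), (.mj 6 9, 7), (.mj 7 6, 12), (.hz 21 47, 292), (.hz 21 303, 7142), (.hz 22 1103, 101), (.hz 21 319, 14481), (.hz 16 1119, 29912), (.hz 24 447, 38711)]))
(.ask 95
(.mark 255 [8, 9, 10]
(.lp [[1, 5, 8], [3, 6, 10], [0, 2, 4, 7, 9]] [(.mj 3 4, 116), (.mj 4 5, 79), (.mj 5 7, 14), (.mj 7 6, 80), (.hz 21 47, 32900), (.hz 21 319, 53801), (.hz 16 1119, 19689), (.hz 21 447, 540), (.hz 21 703, 540), (.hz 16 1247, 1080)]))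
(.lp [[3, 6], [1, 5, 8], [0, 2, 4, 7, 9]] [(.mj 3 4, 29), (.mj 4 5, 50), (.mj 5 7, 26), (.mj 7 6, 13), (.hz 21 303, 10392), (.hz 21 319, 9380)]))))
(.lp [[3, 6], [1, 5, 8], [0, 2, 4, 7, 9]] [(.mj 4 5, 31), (.mj 5 7, 9), (.mj 6 8, 1), (.mj 7 6, 22), (.hz 21 47, 9794), (.hz 21 303, 6614), (.hz 24 183, 7128), (.hz 24 191, 33654), (.hz 21 319, 23658)]))
(.lp [[3, 6], [1, 5, 8], [0, 2, 4, 7, 9]] [(.mj 3 4, 2), (.mj 4 5, 3), (.mj 8 6, 3), (.hz 8 75, 8), (.hz 21 47, 956), (.hz 22 79, 53), (.hz 21 63, 975), (.hz 21 191, 1783), (.hz 21 703, 967)])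
(.lp [[3, 6], [1, 5, 8], [0, 2, 4, 7, 9]] [(.mj 3 4, 2), (.mj 4 5, 2), (.mj 9 6, 2), (.hz 8 75, 7), (.hz 21 47, 497), (.hz 22 79, 41), (.hz 21 63, 559), (.hz 21 191, 1115)])
.fin))
(.ask 159
(.mark 191 [6, 8, 9]
(.spn
(.haz 8 703 3 25
(.ref 0)
(.lp [[3, 6], [1, 5, 8], [0, 2, 4, 7, 9]] [(.mj 5 7, 33), (.mj 6 9, 9), (.mj 7 6, 26), (.hz 24 47, 6416), (.hz 24 63, 16176), (.hz 21 303, 3763), (.hz 24 191, 22371), (.hz 21 319, 12820), (.hz 21 703, 14368)]))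
(.lp [[3, 6], [1, 5, 8], [0, 2, 4, 7, 9]] [(.mj 4 5, 9), (.mj 5 7, 5), (.mj 8 6, 8), (.hz 21 47, 2945), (.hz 21 63, 2353), (.hz 19 159, 4905), (.hz 21 303, 695), (.hz 21 191, 4665), (.hz 21 319, 346), (.hz 11 671, 549), (.hz 19 671, 2751), (.hz 21 703, 6387)])
(.lp [[3, 6], [1, 5, 8], [0, 2, 4, 7, 9]] [(.mj 4 5, 6), (.mj 5 7, 6), (.mj 9 6, 7), (.hz 21 47, 1933), (.hz 21 63, 1544), (.hz 19 159, 6230), (.hz 21 303, 1281), (.hz 21 191, 3999), (.hz 21 319, 3285), (.hz 21 447, 2121), (.hz 21 703, 260)])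
.fin))
(.ask 191
(.mark 191 [6, 8, 9]
(.spn
(.haz 9 447 8 25
(.haz 9 447 11 25
(.haz 6 191 7 25
(.lp [[3, 6], [1, 5, 8], [0, 2, 4, 7, 9]] [(.mj 4 5, 5), (.mj 6 9, 4), (.mj 7 6, 12), (.hz 21 303, 4633), (.hz 26 191, 7712), (.hz 21 319, 10328), (.hz 26 447, 4190), (.hz 25 447, 9262)])
(.lp [[3, 6], [1, 5, 8], [0, 2, 4, 7, 9]] [(.mj 4 5, 35), (.mj 6 9, 22), (.mj 7 6, 31), (.hz 21 47, 2393), (.hz 26 159, 14913), (.hz 21 303, 14673), (.hz 21 319, 31990), (.hz 25 447, 49137)]))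
(.lp [[3, 6], [1, 5, 8], [0, 2, 4, 7, 9]] [(.mj 4 5, 353), (.mj 5 7, 94), (.mj 6 8, 4), (.mj 7 6, 242), (.hz 21 47, 112739), (.hz 21 303, 75358), (.hz 25 191, 154965), (.hz 21 319, 269435), (.hz 24 447, 5068)]))
(.lp [[3, 6], [1, 5, 8], [0, 2, 4, 7, 9]] [(.mj 4 5, 29), (.mj 5 7, 8), (.mj 6 8, 1), (.mj 7 6, 21), (.hz 21 47, 9363), (.hz 21 303, 6355), (.hz 24 191, 12870), (.hz 21 319, 22736)]))
(.lp [[3, 6], [1, 5, 8], [0, 2, 4, 7, 9]] [(.mj 4 5, 1), (.mj 8 6, 1), (.hz 21 47, 381), (.hz 21 63, 304), (.hz 21 191, 406), (.hz 21 703, 626)])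
(.lp [[3, 6], [1, 5, 8], [0, 2, 4, 7, 9]] [(.mj 3 4, 1), (.mj 4 5, 1), (.mj 9 6, 1), (.hz 8 75, 4), (.hz 21 47, 252), (.hz 22 79, 26), (.hz 21 63, 302), (.hz 21 191, 635)])
.fin))
(.lp [[3, 6], [1, 5, 8], [0, 2, 4, 7]] [(.mj 4 5, 4), (.mj 5 7, 1), (.mj 7 6, 3), (.hz 21 47, 1000), (.hz 21 63, 209), (.hz 21 303, 663), (.hz 21 319, 2194)]))))
(.lp [[3, 6], [1, 5, 8], [0, 2, 4, 7]] [(.mj 4 5, 1), (.mj 7 6, 1), (.hz 23 15, 442), (.hz 23 39, 151), (.hz 21 47, 354), (.hz 22 79, 156), (.hz 22 111, 334), (.hz 20 303, 10), (.hz 21 303, 321), (.hz 14 183, 25), (.hz 22 367, 458)])))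
(.lp [[3, 6], [1, 5, 8], [0, 2, 4, 7]] [(.mj 4 5, 2), (.mj 7 6, 2), (.hz 22 7, 117), (.hz 22 15, 292), (.hz 21 47, 467), (.hz 17 79, 530), (.hz 21 63, 690), (.hz 20 303, 259), (.hz 21 303, 274), (.hz 21 191, 5), (.hz 21 319, 970)]))

theorem run40 : run P3488 (leaf3 218 625) (cutRow P3488) [s39] t40 s40 = true := by
  decide +kernel

theorem bad40 : Bad P3488 s40 :=
  run_sound (leaf3_sound P3488 rfl rfl) (cutRow_sound P3488) (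
    List.forall_mem_cons.2 ⟨bad39, fun _ h => absurd h List.not_mem_nil⟩) t40 s40 run40

/-- the state above piece 103 of the tree -/
def s103 : St := ⟨[0, 0, 1, 3, 5, 5, 15, 31], [79, 31, 23, 21, 15, 11, 7, 3, 2, 1, 0], [0, 1, 2, 3, 4, 6],
  [],
  [⟨true, 2, 3, 3, 10⟩, ⟨true, 1, 5, 2, 5⟩, ⟨true, 2, 3, 23, 50⟩, ⟨true, 1, 5, 12, 25⟩, ⟨true, 2, 11, 12, 25⟩, ⟨true, 5, 31, 3, 50⟩, ⟨true, 3, 39, 21, 50⟩, ⟨true, 4, 79, 1, 10⟩, ⟨true, 4, 79, 3, 20⟩, ⟨true, 4, 79, 1, 5⟩, ⟨true, 6, 159, 3, 20⟩, ⟨true, 6, 159, 1, 5⟩, ⟨true, 6, 159, 1, 4⟩],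
  [.spn 0 0 651200, .spn 1 1 302400, .spn 3 2 302400, .spn 7 3 140426, .spn 15 4 140426, .spn 31 6 140426]⟩

/-- piece 103 of the tree -/
noncomputable def t103 : WN.Tree :=
(.ask 95
(.mark 95 [5, 7, 8]
(.spn
(.haz 8 223 7 25
(.haz 7 351 7 50
(.haz 7 351 1 5
(.ask 351
(.haz 7 127 9 50
(.haz 7 95 13 50
(.mark 351 [5, 7, 9]
(.lp [[5], [0, 2, 4, 7], [1, 3, 6, 8, 9]] [(.mj 4 6, 3), (.mj 5 7, 25), (.mj 5 8, 8), (.mj 6 5, 33), (.hz 17 95, 263), (.hz 17 127, 7986), (.hz 17 351, 5609), (.hz 17 863, 4314)]))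
(.ask 159
(.mark 479 [5, 9, 10]
(.lp [[5], [0, 2, 4, 7, 10], [1, 3, 6, 8, 9]] [(.mj 5 8, 5), (.mj 6 5, 7), (.hz 17 31, 488), (.hz 17 95, 412), (.hz 16 127, 773), (.hz 5 1183, 2324), (.hz 15 383, 6043), (.hz 13 1247, 5285), (.hz 15 863, 6043)]))
(.lp [[5], [0, 2, 4, 7], [1, 3, 6, 8, 9]] [(.mj 5 8, 6), (.mj 6 5, 8), (.hz 17 95, 1942), (.hz 16 127, 1434), (.hz 15 351, 17057)])))
(.lp [[5], [0, 2, 4, 7], [1, 3, 6, 8, 9]] [(.mj 5 8, 3), (.mj 6 5, 5), (.hz 16 31, 301), (.hz 16 95, 665), (.hz 5 159, 1157), (.hz 15 351, 8228)]))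
(.lp [[5], [0, 2, 4, 7], [1, 3, 6, 8]] [(.mj 5 7, 2), (.mj 6 5, 3), (.hz 15 383, 7778)]))
(.lp [[5], [0, 2, 4, 7], [1, 3, 6, 8]] [(.mj 5 8, 117), (.mj 6 5, 175), (.hz 15 31, 111209), (.hz 15 95, 250884), (.hz 5 159, 42935), (.hz 14 351, 33509)]))
(.lp [[5], [0, 2, 4, 7], [1, 3, 6, 8]] [(.mj 5 8, 14), (.mj 6 5, 19), (.hz 14 31, 1236), (.hz 14 95, 1313), (.hz 5 159, 4505), (.hz 13 223, 7987)]))
(.lp [[5], [0, 2, 4, 7], [1, 3, 6, 8]] [(.mj 5 7, 12), (.mj 6 5, 17), (.hz 13 95, 4938), (.hz 5 159, 4688)]))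
(.ask 159
(.ref 0)
(.ask 223
(.mark 223 [5, 8, 9]
(.spn
(.haz 8 255 3 20
(.haz 8 223 1 4
(.lp [[5], [1, 3, 6, 8], [0, 2, 4, 7, 9]] [(.mj 3 4, 1), (.mj 5 8, 4), (.mj 5 9, 2), (.mj 7 5, 5), (.hz 14 223, 324), (.hz 14 255, 19871), (.hz 14 735, 26224)])
(.haz 9 479 3 10
(.lp [[5], [1, 3, 6, 8], [0, 2, 4, 7, 9]] [(.mj 3 4, 36), (.mj 5 9, 41), (.mj 7 5, 42), (.hz 14 95, 92477), (.hz 14 223, 76624), (.hz 13 255, 34269), (.hz 15 479, 95296)])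
(.lp [[5], [1, 3, 6, 8], [0, 2, 4, 7, 9]] [(.mj 3 4, 1), (.mj 7 5, 1), (.hz 14 95, 1432), (.hz 14 223, 4217), (.hz 15 223, 1687)])))
(.lp [[5], [1, 3, 6, 8], [0, 2, 4, 7, 9]] [(.mj 3 4, 1), (.mj 5 9, 10), (.mj 6 7, 8), (.mj 7 5, 11), (.hz 13 95, 5448), (.hz 13 223, 7140)]))
(.haz 8 767 3 10
(.ask 351
(.mark 479 [5, 9, 10]
(.spn
(.lp [[5], [0, 2, 4, 7, 9], [1, 3, 6, 8, 10]] [(.mj 5 9, 189), (.mj 7 8, 599), (.mj 8 5, 972), (.rw 8, 2), (.hz 5 735, 1085246), (.hz 5 1375, 927625)])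
(.cut 5 [(0, 1), (1, 1), (2, 1), (3, 1), (5, 1), (7, 1), (11, 1), (21, 1), (15, 1), (23, 1), (31, 1), (79, 1), (95, 1), (159, 1), (223, 1), (351, 1), (479, 1)]
(.lp [[5], [0, 2, 4, 7, 9], [1, 3, 6, 8, 10]] [(.mj 7 8, 1410), (.mj 8 9, 3619), (.mj 9 5, 18954), (.hz 5 1375, 892600), (.hz 5 1503, 9117185), (.rw 9, 67)]))
(.cut 5 [(0, 1), (1, 1), (2, 1), (3, 1), (5, 1), (7, 1), (11, 1), (21, 1), (15, 1), (23, 1), (31, 1), (79, 1), (95, 1), (159, 1), (223, 1), (351, 1), (479, 1), (735, 2), (991, 1)]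
(.cut 5 [(0, 1), (1, 1), (2, 1), (3, 1), (5, 1), (7, 1), (11, 1), (21, 1), (15, 1), (23, 1), (31, 1), (79, 1), (95, 1), (159, 1), (223, 1), (351, 1), (1375, 1)]
(.lp [[5], [0, 2, 4, 7, 9], [1, 3, 6, 8, 10]] [(.mj 7 8, 108165), (.mj 10 5, 75607), (.mj 10 9, 45015), (.hz 5 735, 146583429), (.hz 5 1375, 105560563), (.hz 13 767, 1352874204), (.hz 5 1503, 66797024), (.rw 9, 4), (.rw 10, 43)])))
.fin))
(.ask 479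
(.mark 479 [5, 9, 10]
(.spn
(.haz 10 991 3 10
(.ask 735
(.mark 991 [5, 10, 11]
(.lp [[5], [1, 3, 6, 8, 10], [0, 2, 4, 7, 9, 11]] [(.mj 5 9, 68), (.mj 5 10, 471), (.mj 8 5, 1308), (.rw 8, 2), (.hz 5 735, 1411204), (.hz 14 991, 1189672), (.hz 5 2783, 522628), (.hz 14 3039, 2443903)]))
(.lp [[5], [0, 2, 4, 7, 9], [1, 3, 6, 8, 10]] [(.mj 5 9, 13), (.mj 5 10, 24), (.mj 8 5, 31), (.hz 5 735, 17107), (.hz 14 991, 119904)]))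
(.lp [[5], [0, 2, 4, 7, 9], [1, 3, 6, 8, 10]] [(.mj 5 9, 1), (.mj 8 5, 1), (.hz 14 479, 3063)]))
(.cut 5 [(0, 1), (1, 1), (2, 1), (3, 1), (5, 1), (7, 1), (11, 1), (21, 1), (15, 1), (23, 1), (31, 1), (79, 1), (95, 1), (159, 1), (223, 1), (351, 1), (479, 1)]
(.lp [[5], [0, 2, 4, 7, 9], [1, 3, 6, 8, 10]] [(.mj 8 9, 446), (.mj 9 5, 2819), (.hz 5 351, 40529), (.hz 5 1503, 1303663), (.rw 9, 10)]))
(.cut 5 [(0, 1), (1, 1), (2, 1), (3, 1), (5, 1), (7, 1), (11, 1), (21, 1), (15, 1), (23, 1), (31, 1), (79, 1), (95, 1), (159, 1), (223, 1), (351, 1), (479, 1)]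
(.lp [[5], [0, 2, 4, 7, 9], [1, 3, 6, 8, 10]] [(.mj 10 5, 1037), (.rw 9, 4)]))
.fin))
(.spn
(.lp [[5], [1, 3, 6, 8], [0, 2, 4, 7, 9]] [(.mj 5 9, 1), (.mj 8 5, 1)])
(.cut 5 [(0, 1), (1, 1), (2, 1), (3, 1), (5, 1), (7, 1), (11, 1), (21, 1), (15, 1), (23, 1), (31, 1), (79, 1), (95, 1), (159, 1), (223, 1), (351, 1), (479, 1), (735, 1)]
(.lp [[5], [1, 3, 6, 8], [0, 2, 4, 7, 9]] [(.mj 8 9, 2383), (.mj 9 5, 1123), (.hz 5 735, 2619441), (.rw 9, 1)]))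
.fin
.fin)))
(.lp [[5], [1, 3, 6, 8], [0, 2, 4, 7, 9]] [(.mj 8 5, 4), (.mj 8 9, 4), (.hz 13 95, 3608), (.hz 13 223, 7623), (.hz 5 351, 213), (.hz 5 735, 6692)]))
(.ask 735
(.mark 735 [5, 8, 10]
(.spn
(.lp [[5], [1, 3, 6, 8], [0, 2, 4, 7, 9, 10]] [(.mj 9 5, 85), (.rw 8, 1)])
(.cut 5 [(0, 1), (1, 1), (2, 1), (3, 1), (5, 1), (7, 1), (11, 1), (21, 1), (15, 1), (23, 1), (31, 1), (79, 1), (95, 1), (159, 1), (223, 1), (735, 1)]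
(.lp [[5], [1, 3, 6, 8], [0, 2, 4, 7, 9, 10]] [(.mj 8 5, 1313), (.mj 8 10, 1313), (.mj 9 8, 2788), (.rw 8, 1), (.rw 9, 6)]))
(.cut 5 [(0, 1), (1, 1), (2, 1), (3, 1), (5, 1), (7, 1), (11, 1), (21, 1), (15, 1), (23, 1), (31, 1), (79, 1), (95, 1), (159, 1)]
(.cut 5 [(0, 1), (1, 1), (2, 1), (3, 1), (5, 1), (7, 1), (11, 1), (21, 1), (15, 1), (23, 1), (31, 1), (79, 1), (95, 1), (159, 1), (223, 1)]
(.cut 8 [(0, 1), (1, 1), (2, 1), (3, 1), (5, 1), (7, 1), (11, 1), (21, 1), (37, 1), (15, 1), (23, 1), (39, 1), (53, 1), (31, 1), (47, 1), (55, 1), (79, 1), (63, 1), (95, 1), (111, 1), (159, 1), (127, 1), (191, 1), (223, 1)]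
(.lp [[5], [1, 3, 6, 8], [0, 2, 4, 7, 9, 10]] [(.mj 10 5, 14152), (.mj 10 8, 749), (.hz 5 159, 3590088), (.hz 5 991, 5306039), (.rw 9, 35), (.rw 10, 9), (.rw 11, 1)]))))
.fin))
(.lp [[5], [1, 3, 6, 8], [0, 2, 4, 7, 9]] [(.mj 9 8, 1), (.rw 7, 1)]))
.fin))
(.spn
(.lp [[5], [0, 2, 4, 7], [1, 3, 6, 8]] [(.mj 5 8, 1), (.mj 7 5, 1)])
(.cut 5 [(0, 1), (1, 1), (2, 1), (3, 1), (5, 1), (7, 1), (11, 1), (21, 1), (15, 1), (23, 1), (31, 1), (79, 1), (95, 1), (159, 1), (223, 1)]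
(.lp [[5], [0, 2, 4, 7], [1, 3, 6, 8]] [(.mj 7 8, 1849), (.mj 8 5, 699), (.rw 8, 2)]))
.fin
.fin)))
(.ask 351
(.mark 351 [5, 7, 9]
(.spn
(.lp [[5], [0, 2, 4, 7], [1, 3, 6, 8, 9]] [(.mj 8 5, 213), (.rw 7, 1)])
(.cut 5 [(0, 1), (1, 1), (2, 1), (3, 1), (5, 1), (7, 1), (11, 1), (21, 1), (15, 1), (23, 1), (31, 1), (79, 1), (95, 1), (351, 1)]
(.lp [[5], [0, 2, 4, 7], [1, 3, 6, 8, 9]] [(.mj 7 5, 2087), (.mj 7 9, 2087), (.mj 8 7, 4569), (.rw 7, 1), (.rw 8, 8)]))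
(.ask 863
(.mark 863 [5, 7, 10]
(.spn
(.lp [[5], [0, 2, 4, 7], [1, 3, 6, 8, 9, 10]] [(.mj 9 5, 129), (.rw 8, 1)])
(.lp [[5], [0, 2, 4, 7], [1, 3, 6, 8, 9, 10]] [(.mj 9 7, 603), (.rw 8, 1)])
(.cut 5 [(0, 1), (1, 1), (2, 1), (3, 1), (5, 1), (7, 1), (11, 1), (21, 1), (15, 1), (23, 1), (31, 1), (79, 1), (95, 1)]
(.cut 7 [(0, 1), (1, 1), (2, 1), (3, 1), (5, 1), (7, 1), (11, 1), (21, 1), (37, 1), (15, 1), (23, 1), (39, 1), (53, 1), (31, 1), (47, 1), (55, 1), (79, 1), (63, 1), (95, 1), (111, 1), (127, 1), (351, 1), (383, 1)]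
(.cut 5 [(0, 1), (1, 1), (2, 1), (3, 1), (5, 1), (7, 1), (11, 1), (21, 1), (15, 1), (23, 1), (31, 1), (79, 1), (95, 1), (351, 1)]
(.lp [[5], [0, 2, 4, 7], [1, 3, 6, 8, 9, 10]] [(.mj 10 5, 9851), (.mj 10 7, 696), (.hz 12 191, 23764388), (.hz 5 351, 2029685), (.hz 5 479, 3790119), (.hz 5 991, 3581191), (.rw 9, 10), (.rw 10, 2), (.rw 11, 18)]))))
.fin))
(.lp [[5], [0, 2, 4, 7], [1, 3, 6, 8, 9]] [(.mj 9 7, 1), (.rw 7, 1)]))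
.fin))
(.lp [[5], [0, 2, 4, 7], [1, 3, 6, 8]] [(.mj 8 7, 1), (.rw 6, 1)]))
.fin))
(.spn
(.lp [[5], [1, 3, 6], [0, 2, 4, 7]] [(.mj 4 5, 1), (.mj 5 7, 2), (.mj 6 5, 2)])
(.ask 159
(.mark 159 [5, 6, 8]
(.ask 223
(.mark 223 [5, 8, 9]
(.spn
(.lp [[5], [1, 3, 6, 9], [0, 2, 4, 7, 8]] [(.mj 5 9, 228), (.mj 6 7, 1331), (.mj 7 5, 749), (.rw 7, 1)])
(.lp [[5], [1, 3, 6, 9], [0, 2, 4, 7, 8]] [(.mj 6 7, 4), (.mj 8 5, 3), (.mj 8 9, 1), (.hz 5 159, 2049), (.hz 5 223, 629)])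
(.cut 5 [(0, 1), (1, 1), (2, 1), (3, 1), (5, 1), (7, 1), (11, 1), (21, 1), (15, 1), (23, 1), (31, 1), (79, 1), (95, 1), (159, 1), (223, 1)]
(.lp [[5], [1, 3, 6, 9], [0, 2, 4, 7, 8]] [(.mj 6 7, 963), (.mj 9 5, 377), (.rw 8, 1)]))
.fin))
(.lp [[5], [1, 3, 6], [0, 2, 4, 7, 8]] [(.mj 6 7, 1136), (.rw 6, 1)])))
(.ask 223
(.ask 223
(.mark 223 [5, 8, 9]
(.spn
(.haz 9 479 1 5
(.lp [[5], [1, 3, 6, 9], [0, 2, 4, 7, 8]] [(.mj 5 8, 100), (.mj 6 7, 114), (.mj 7 5, 164), (.mj 8 9, 92), (.hz 13 479, 286425), (.hz 5 735, 133079)])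
(.lp [[5], [1, 3, 6, 9], [0, 2, 4, 7, 8]] [(.mj 5 8, 3), (.mj 6 7, 2), (.mj 7 5, 3), (.hz 13 223, 7684)]))
(.cut 5 [(0, 1), (1, 1), (2, 1), (3, 1), (5, 1), (7, 1), (11, 1), (21, 1), (15, 1), (23, 1), (31, 1), (79, 1), (95, 1), (159, 1), (223, 1)]
(.lp [[5], [1, 3, 6, 9], [0, 2, 4, 7, 8]] [(.mj 6 7, 963), (.mj 8 5, 377), (.rw 8, 1)]))
(.con 9 8)
.fin))
(.spn
(.lp [[5], [1, 3, 6], [0, 2, 4, 7, 8]] [(.mj 5 8, 1), (.mj 7 5, 1)])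
(.cut 5 [(0, 1), (1, 1), (2, 1), (3, 1), (5, 1), (7, 1), (11, 1), (21, 1), (15, 1), (23, 1), (31, 1), (79, 1), (95, 1), (159, 1), (223, 1)]
(.lp [[5], [1, 3, 6], [0, 2, 4, 7, 8]] [(.mj 6 7, 963), (.mj 8 5, 377), (.rw 8, 1)]))
.fin
.fin))
(.lp [[5], [1, 3, 6], [0, 2, 4, 7]] [(.mj 7 5, 1)])))
.fin
.fin))

theorem run103 : run P3488 (leaf3 218 625) (cutRow P3488) [s102] t103 s103 = true := by
  decide +kernel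

theorem bad103 : Bad P3488 s103 :=
  run_sound (leaf3_sound P3488 rfl rfl) (cutRow_sound P3488) (
    List.forall_mem_cons.2 ⟨bad102, fun _ h => absurd h List.not_mem_nil⟩) t103 s103 run103

end Pool.Agent.WN.Data
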