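import Pool.Agent.WN.CutRow
import Pool.Agent.WN.LeafRow
import Pool.Agent.Helper99.WN.ParDef
import Pool.Agent.WN.Data.D0
import Pool.Agent.WN.Data.D8
import Pool.Agent.WN.Data.D10
import Pool.Agent.WN.Data.D13
import Pool.Agent.WN.Data.D18
import Pool.Agent.WN.Data.D19
import Pool.Agent.WN.Data.D24

/-!
# The search tree, part 29
-/

set_option autoImplicit false

namespace Pool.Agent.WN.Data

open Pool.Agent.W3 Pool.Agent.WN Pool.Agent.Helper99.WN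

/-- the state above piece 128 of the tree -/
def s128 : St := ⟨[0, 0, 1, 3, 5, 11, 15, 21, 47, 149], [63, 43, 31, 15, 11, 7, 5, 3, 2, 1, 0], [0, 1, 2, 3, 4, 5, 7],
  [],
  [⟨true, 2, 3, 3, 10⟩, ⟨true, 1, 5, 2, 5⟩, ⟨true, 2, 3, 23, 50⟩, ⟨true, 1, 5, 12, 25⟩, ⟨true, 1, 21, 27, 50⟩, ⟨true, 4, 15, 9, 40⟩, ⟨true, 3, 23, 11, 20⟩, ⟨true, 4, 79, 7, 25⟩, ⟨true, 4, 79, 8, 25⟩, ⟨true, 7, 95, 9, 50⟩, ⟨true, 4, 79, 17, 50⟩, ⟨true, 4, 79, 9, 25⟩, ⟨true, 5, 95, 9, 50⟩, ⟨true, 5, 95, 13, 50⟩, ⟨true, 3, 151, 29, 50⟩, ⟨true, 5, 159, 6, 25⟩, ⟨true, 7, 127, 11, 50⟩, ⟨true, 5, 79, 11, 50⟩, ⟨false, 6, 47, 11, 50⟩, ⟨true, 4, 303, 8, 25⟩, ⟨true, 4, 303, 9, 25⟩, ⟨true, 4, 303, 19, 50⟩, ⟨true, 4, 303, 2, 5⟩, ⟨true, 4, 79, 19, 50⟩],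
  [.spn 0 0 651200, .spn 1 1 302400, .spn 3 2 302400, .spn 7 3 302400, .spn 15 4 140426, .spn 31 5 140426, .spn 63 7 140426]⟩

/-- piece 128 of the tree -/
noncomputable def t128 : WN.Tree :=
(.mark 191 [6, 8, 9]
(.spn
(.haz 8 127 4 25
(.haz 6 703 3 25
(.haz 7 95 7 25
(.haz 8 703 6 25
(.ask 79
(.mark 255 [8, 9, 10]
(.lp [[6, 10], [1, 3, 5, 8], [0, 2, 4, 7, 9]] [(.mj 0 1, 15350), (.mj 4 5, 435), (.mj 5 7, 9901), (.mj 6 8, 5870), (.mj 7 6, 5130), (.rw 6, 2), (.rw 7, 4), (.hz 4 661, 51857), (.hz 23 1103, 143397), (.hz 26 1119, 4347297), (.hz 24 1151, 3880251), (.hz 27 703, 8862940)]))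
(.haz 8 191 3 10
(.lp [[6], [1, 3, 5, 8], [0, 2, 4, 7, 9]] [(.mj 4 5, 174), (.mj 5 7, 7003), (.mj 6 8, 7003), (.mj 7 6, 6470), (.rw 6, 1), (.hz 18 47, 69124), (.hz 26 95, 666551), (.hz 24 127, 1333102), (.hz 28 191, 6029966), (.hz 28 255, 8798051), (.hz 25 703, 1784500), (.hz 28 703, 21884388)])
(.lp [[6], [1, 3, 5, 8], [0, 2, 4, 7, 9]] [(.mj 0 1, 206), (.mj 4 5, 24), (.mj 5 7, 284), (.mj 6 8, 121), (.mj 6 9, 14), (.mj 7 6, 205), (.hz 28 47, 40719), (.hz 28 63, 145353), (.hz 26 95, 24617), (.hz 24 127, 153651), (.hz 25 703, 116500), (.hz 27 703, 169447)])))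
(.lp [[6], [1, 3, 5, 8], [0, 2, 4, 7, 9]] [(.mj 4 5, 1), (.mj 5 7, 16), (.mj 7 6, 10), (.hz 27 47, 1972), (.hz 27 63, 5450), (.hz 24 127, 7608), (.hz 27 191, 4359), (.hz 25 703, 10878)]))
(.lp [[6], [1, 3, 5, 8], [0, 2, 4, 7, 9]] [(.mj 0 1, 188), (.mj 6 8, 2), (.mj 7 6, 8), (.hz 26 21, 2413), (.hz 26 23, 3767), (.hz 26 31, 6986), (.hz 13 95, 3448), (.hz 14 663, 172), (.hz 24 127, 13021), (.hz 25 703, 2863)]))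
(.lp [[6], [1, 3, 5, 8], [0, 2, 4, 7, 9]] [(.mj 3 4, 77), (.mj 5 7, 421), (.mj 6 8, 202), (.rw 7, 1), (.hz 25 15, 23009), (.hz 25 31, 35753), (.hz 25 47, 35349), (.hz 25 63, 80799), (.hz 25 191, 1431067)]))
(.lp [[6], [1, 3, 5, 8], [0, 2, 4, 7, 9]] [(.mj 3 4, 19), (.mj 5 7, 58), (.mj 7 6, 49), (.hz 24 47, 9184), (.hz 24 63, 37236)]))
(.haz 6 63 9 50
(.lp [[6], [1, 3, 5, 8], [0, 2, 4, 7, 9]] [(.mj 3 4, 27), (.mj 4 5, 34), (.mj 5 7, 14), (.mj 7 8, 5), (.mj 8 6, 36), (.hz 23 79, 778), (.hz 24 63, 9710), (.hz 22 303, 3513), (.hz 24 191, 20224), (.hz 24 319, 7834), (.hz 15 671, 13641), (.hz 24 703, 37889)])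
(.haz 5 79 8 25
(.haz 6 47 4 25
(.lp [[6], [1, 3, 5, 8], [0, 2, 4, 7, 9]] [(.mj 3 4, 126), (.mj 4 5, 189), (.mj 5 7, 85), (.mj 7 8, 15), (.mj 8 6, 188), (.hz 26 47, 62599), (.hz 23 79, 3714), (.hz 26 63, 55321), (.hz 26 303, 15673), (.hz 26 191, 219918), (.hz 26 319, 15208), (.hz 15 671, 65137), (.hz 26 703, 407105)])
(.haz 7 95 13 50
(.haz 8 111 1 5
(.haz 6 959 2 25
(.haz 7 95 3 10
(.haz 6 671 2 25
(.haz 5 79 9 25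
(.haz 6 319 2 25
(.haz 5 671 2 5
(.ask 303
(.mark 447 [6, 9, 10]
(.spn
(.ask 79
(.mark 511 [9, 10, 11]
(.lp [[6, 11], [0, 2, 4, 7, 9], [1, 3, 5, 8, 10]] [(.mj 6 9, 453), (.mj 7 8, 2090), (.mj 8 6, 1289), (.mj 8 9, 836), (.rw 8, 4)]))
(.ask 95
(.mark 511 [9, 10, 11]
(.lp [[6, 11], [0, 2, 4, 7, 9], [1, 3, 5, 8, 10]] [(.mj 6 9, 453), (.mj 7 8, 2090), (.mj 8 6, 1289), (.mj 8 9, 836), (.rw 8, 4)]))
(.lp [[6], [0, 2, 4, 7, 9], [1, 3, 5, 8, 10]] [(.mj 3 4, 153), (.mj 4 5, 534), (.mj 5 7, 216), (.mj 6 9, 39), (.mj 8 6, 65), (.hz 24 63, 10147), (.hz 31 671, 45030), (.hz 31 703, 80943), (.hz 33 1343, 293124)])))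
(.ask 79
(.mark 383 [7, 10, 11]
(.lp [[6, 11], [0, 2, 4, 7, 9], [1, 3, 5, 8, 10]] [(.mj 0 1, 63), (.mj 4 5, 116), (.mj 5 7, 101), (.mj 9 6, 8), (.hz 32 79, 16582), (.hz 32 2127, 7037), (.hz 30 2143, 196041), (.hz 31 671, 36469), (.hz 28 2159, 104269), (.hz 30 2175, 12750), (.hz 31 703, 12627), (.hz 33 1343, 25858), (.hz 33 1471, 16199)]))
(.ask 95
(.mark 127 [7, 8, 11]
(.cut 6 [(0, 1), (1, 1), (2, 1), (3, 1), (5, 1), (7, 1), (11, 1), (21, 1), (15, 1), (23, 1), (43, 1), (149, 1), (31, 1), (47, 1), (151, 1), (661, 1), (63, 1), (159, 1), (303, 1), (663, 1), (191, 1), (319, 1), (671, 1), (1327, 2), (447, 1), (703, 1), (1343, 1)]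
(.lp [[6, 11], [0, 2, 4, 7, 9], [1, 3, 5, 8, 10]] [(.mj 0 1, 6849385), (.mj 4 5, 10825241), (.mj 5 7, 13018297), (.mj 7 8, 1734771), (.mj 9 6, 2420311), (.hz 30 2143, 21090589495), (.hz 31 671, 5648221722), (.hz 30 2175, 9873249351), (.hz 28 2175, 27364951483), (.hz 31 703, 3656557858), (.hz 33 1343, 9329206219), (.hz 28 2303, 36090989390), (.hz 29 959, 4847348631), (.hz 33 1471, 10329852718), (.rw 9, 575)])))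
(.lp [[6], [0, 2, 4, 7, 9], [1, 3, 5, 8, 10]] [(.mj 0 1, 247), (.mj 3 4, 180), (.mj 4 5, 118), (.mj 5 7, 25), (.mj 9 6, 17), (.hz 28 111, 100668), (.hz 30 127, 21602), (.hz 33 319, 7319), (.hz 31 671, 9076), (.hz 33 447, 17348), (.hz 31 703, 5315), (.hz 33 1343, 21562), (.hz 33 1471, 35490)])))
(.lp [[6], [0, 2, 4, 7, 9], [1, 3, 5, 8, 10]] [(.mj 3 4, 12), (.mj 4 5, 125), (.mj 5 7, 58), (.mj 10 6, 23), (.mj 10 9, 10), (.hz 32 79, 31807), (.hz 32 95, 1107), (.hz 30 95, 58570), (.hz 30 127, 7914), (.hz 33 319, 25986), (.hz 31 671, 18317), (.hz 31 703, 80248), (.hz 33 1343, 31218), (.hz 28 767, 675047), (.hz 33 1471, 17277)])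
.fin))
(.ref 0))
(.lp [[6], [1, 3, 5, 8], [0, 2, 4, 7, 9]] [(.mj 4 5, 162), (.mj 5 7, 883), (.rw 6, 1), (.hz 26 15, 13583), (.hz 34 31, 298634), (.hz 32 79, 20254), (.hz 30 95, 497723), (.hz 34 159, 4259356)]))
(.lp [[6], [1, 3, 5, 8], [0, 2, 4, 7, 9]] [(.mj 0 1, 861), (.mj 3 4, 300), (.mj 4 5, 76), (.hz 33 15, 7317), (.hz 33 31, 2818), (.hz 32 79, 11571), (.hz 4 661, 3044), (.hz 33 63, 1740), (.hz 30 95, 4349), (.hz 28 111, 8698), (.hz 14 663, 870)]))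
(.lp [[6], [1, 3, 5, 8], [0, 2, 4, 7, 9]] [(.mj 0 1, 58), (.mj 5 7, 39), (.mj 8 6, 14), (.hz 32 15, 15204), (.hz 26 15, 2667), (.hz 25 79, 10701), (.hz 25 95, 5012), (.hz 30 95, 45931), (.hz 28 111, 34377), (.hz 30 127, 17543), (.hz 28 127, 17423), (.hz 31 671, 9086), (.hz 31 703, 17503)]))
(.lp [[6], [1, 3, 5, 8], [0, 2, 4, 7, 9]] [(.mj 0 1, 20445), (.mj 3 4, 7126), (.mj 4 5, 1805), (.hz 31 15, 196942), (.hz 31 31, 68603), (.hz 25 79, 241747), (.hz 4 661, 72235), (.hz 30 95, 100887), (.hz 28 111, 403550), (.hz 14 663, 20177)]))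
(.lp [[6], [1, 3, 5, 8], [0, 2, 4, 7, 9]] [(.mj 0 1, 19), (.hz 30 21, 601), (.hz 30 23, 413), (.hz 24 31, 115), (.hz 30 31, 2321), (.hz 25 79, 324), (.hz 27 95, 130), (.hz 28 111, 2594), (.hz 14 663, 130)]))
(.cut 6 [(0, 1), (1, 1), (2, 1), (3, 1), (5, 1), (7, 1), (11, 1), (21, 1), (15, 1), (23, 1), (43, 1), (149, 1), (31, 1), (47, 1), (151, 1), (661, 1), (63, 1), (159, 1), (303, 1), (663, 1), (191, 1)]
(.lp [[6], [1, 3, 5, 8], [0, 2, 4, 7, 9]] [(.mj 0 1, 11168541), (.mj 3 4, 3898995), (.mj 4 5, 876084), (.mj 7 8, 44737), (.hz 29 15, 120904937), (.hz 29 31, 29863650), (.hz 25 79, 83786781), (.hz 4 661, 40580381), (.hz 27 95, 15973394), (.hz 14 663, 18173535), (.hz 29 671, 35330738), (.hz 29 703, 60222848), (.rw 8, 50)])))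
(.cut 6 [(0, 1), (1, 1), (2, 1), (3, 1), (5, 1), (7, 1), (11, 1), (21, 1), (15, 1), (23, 1), (43, 1), (149, 1), (31, 1), (47, 1), (151, 1), (661, 1), (63, 1), (159, 1), (663, 1), (191, 1)]
(.lp [[6], [1, 3, 5, 8], [0, 2, 4, 7, 9]] [(.mj 3 4, 4068), (.mj 8 6, 750), (.hz 26 47, 834663), (.hz 28 47, 13706095), (.hz 23 79, 143678), (.hz 24 63, 380710), (.hz 27 95, 148188), (.rw 8, 1)])))
(.lp [[6], [1, 3, 5, 8], [0, 2, 4, 7, 9]] [(.mj 0 1, 1), (.hz 27 21, 7), (.hz 27 23, 5), (.hz 24 31, 8), (.hz 27 31, 25), (.hz 25 79, 9), (.hz 9 95, 7), (.hz 14 663, 7)])))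
(.lp [[6], [1, 3, 5, 8], [0, 2, 4, 7, 9]] [(.mj 3 4, 9), (.mj 8 6, 1), (.hz 25 15, 2345), (.hz 24 15, 555), (.hz 24 31, 419), (.hz 17 79, 447), (.hz 13 95, 22)])))
(.haz 6 159 4 25
(.lp [[6], [1, 3, 5, 8], [0, 2, 4, 7, 9]] [(.mj 5 7, 11168), (.mj 9 6, 3618), (.mj 9 8, 3618), (.rw 6, 13), (.hz 24 159, 5223950), (.hz 24 671, 9571920), (.hz 24 447, 21433721)])
(.haz 8 191 3 10
(.cut 6 [(0, 1), (1, 1), (2, 1), (3, 1), (5, 1), (7, 1), (11, 1), (21, 1), (15, 1), (23, 1), (43, 1), (149, 1), (31, 1), (47, 1), (151, 1), (661, 1), (63, 1), (159, 1), (663, 1), (191, 1)]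
(.lp [[6], [1, 3, 5, 8], [0, 2, 4, 7, 9]] [(.mj 3 4, 4324), (.mj 4 5, 1798), (.mj 5 7, 1374), (.mj 9 6, 865), (.mj 9 8, 2149), (.hz 24 15, 403823), (.hz 24 31, 289022), (.hz 16 127, 1167764), (.hz 25 191, 3009331), (.hz 25 255, 21570575), (.rw 8, 1)]))
(.cut 6 [(0, 1), (1, 1), (2, 1), (3, 1), (5, 1), (7, 1), (11, 1), (21, 1), (15, 1), (23, 1), (43, 1), (149, 1), (31, 1), (47, 1), (151, 1), (661, 1), (63, 1), (159, 1), (663, 1), (191, 1)]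
(.lp [[6], [1, 3, 5, 8], [0, 2, 4, 7, 9]] [(.mj 3 4, 1964), (.mj 4 5, 809), (.mj 5 7, 1763), (.mj 9 6, 1194), (.mj 9 8, 140), (.hz 24 15, 117462), (.hz 25 47, 714020), (.hz 25 63, 1867313), (.hz 16 127, 739014), (.hz 25 191, 1257124), (.hz 22 367, 678709), (.rw 8, 1)]))))
.fin))

theorem run128 : run P3488 (leaf3 218 625) (cutRow P3488) [s127] t128 s128 = true := by
  decide +kernel

theorem bad128 : Bad P3488 s128 :=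
  run_sound (leaf3_sound P3488 rfl rfl) (cutRow_sound P3488) (
    List.forall_mem_cons.2 ⟨bad127, fun _ h => absurd h List.not_mem_nil⟩) t128 s128 run128

/-- the state above piece 85 of the tree -/
def s85 : St := ⟨[0, 0, 1, 3, 5, 5, 11, 23, 75], [95, 31, 21, 15, 7, 3, 2, 1, 0], [0, 1, 2, 3, 4, 6, 7],
  [],
  [⟨true, 2, 3, 3, 10⟩, ⟨true, 1, 5, 2, 5⟩, ⟨true, 2, 3, 23, 50⟩, ⟨true, 1, 5, 12, 25⟩, ⟨true, 2, 11, 12, 25⟩, ⟨true, 4, 79, 11, 50⟩, ⟨true, 5, 31, 1, 50⟩, ⟨true, 3, 39, 7, 25⟩, ⟨true, 5, 31, 1, 25⟩, ⟨false, 5, 23, 3, 25⟩, ⟨true, 4, 39, 13, 50⟩, ⟨true, 6, 47, 13, 50⟩, ⟨true, 6, 47, 3, 10⟩],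
  [.spn 0 0 651200, .spn 1 1 302400, .spn 3 2 302400, .spn 7 3 140426, .spn 15 4 140426, .spn 31 6 140426, .spn 95 7 140426]⟩

/-- piece 85 of the tree -/
noncomputable def t85 : WN.Tree :=
(.haz 4 39 8 25
(.haz 4 47 2 5
(.haz 6 47 17 50
(.haz 5 351 3 50
(.haz 4 39 17 50
(.haz 7 351 17 50
(.ask 151
(.mark 223 [5, 8, 9]
(.spn
(.haz 9 479 6 25
(.lp [[5], [1, 3, 6, 8], [0, 2, 4, 7, 9]] [(.mj 3 4, 66410), (.mj 4 6, 76201), (.mj 5 8, 45138), (.mj 6 7, 110635), (.mj 7 5, 67194), (.rw 7, 94), (.hz 9 5, 1447496), (.hz 9 7, 4539875), (.hz 15 47, 10422749), (.hz 16 351, 28557463), (.hz 18 351, 11954848), (.hz 8 671, 198435393), (.hz 19 479, 51908435)])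
(.lp [[5], [1, 3, 6, 8], [0, 2, 4, 7, 9]] [(.mj 5 8, 7), (.mj 6 7, 6), (.mj 7 5, 7), (.hz 19 151, 134), (.hz 19 159, 477), (.hz 19 223, 5082)]))
(.ask 37
(.mark 255 [8, 9, 10]
(.lp [[5, 10], [1, 3, 6, 8], [0, 2, 4, 7, 9]] [(.mj 3 4, 28), (.mj 4 6, 22), (.hz 9 5, 208), (.hz 17 39, 1292), (.hz 3 1061, 529), (.hz 17 1063, 1828), (.hz 15 1071, 5425), (.hz 16 351, 757)]))
(.ask 39
(.mark 255 [8, 9, 10]
(.lp [[5, 10], [1, 3, 6, 8], [0, 2, 4, 7, 9]] [(.mj 3 4, 5), (.mj 4 6, 4), (.hz 9 7, 42), (.hz 17 39, 258), (.hz 15 47, 167), (.hz 17 1063, 178), (.hz 15 1071, 861)]))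
(.ask 47
(.ask 331
(.mark 511 [9, 10, 11]
(.lp [[5, 10], [0, 2, 4, 7, 9], [1, 3, 6, 8, 11]] [(.mj 3 4, 38), (.mj 4 6, 27), (.mj 8 5, 2), (.hz 17 39, 3120), (.hz 15 47, 3238), (.hz 15 1071, 3075), (.hz 16 991, 3327)]))
(.mark 63 [6, 7, 10]
(.cut 5 [(0, 1), (1, 1), (2, 1), (3, 1), (5, 1), (7, 1), (11, 1), (21, 1), (15, 1), (23, 1), (75, 1), (31, 1), (79, 1), (331, 1), (95, 1)]
(.lp [[5, 10], [1, 3, 6, 8], [0, 2, 4, 7, 9]] [(.mj 3 4, 12854), (.mj 4 6, 11189), (.mj 8 5, 1613), (.hz 15 47, 148102), (.hz 14 1071, 1264818), (.hz 15 1071, 2006455), (.hz 15 1087, 773928), (.hz 8 671, 3024941), (.hz 8 735, 1721568), (.rw 8, 4)]))))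
(.cut 5 [(0, 1), (1, 1), (2, 1), (3, 1), (5, 1), (7, 1), (11, 1), (21, 1), (15, 1), (23, 1), (75, 1), (31, 1), (79, 1), (151, 1), (331, 1), (95, 1), (159, 1), (663, 1), (671, 1)]
(.cut 5 [(0, 1), (1, 1), (2, 1), (3, 1), (5, 1), (7, 1), (11, 1), (21, 1), (15, 1), (23, 1), (75, 1), (31, 1), (79, 1), (331, 1), (95, 1), (335, 1), (351, 1)]
(.cut 5 [(0, 1), (1, 1), (2, 1), (3, 1), (5, 1), (7, 1), (11, 1), (21, 1), (15, 1), (23, 1), (75, 1), (31, 1), (79, 1), (331, 1), (95, 1)]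
(.lp [[5], [1, 3, 6, 8], [0, 2, 4, 7, 9]] [(.mj 0 1, 249782), (.mj 3 4, 162071), (.mj 4 6, 92844), (.mj 7 8, 5504), (.mj 8 5, 20555), (.hz 15 47, 7406543), (.hz 15 63, 2546899), (.hz 8 671, 48220235), (.hz 8 735, 23302624), (.rw 8, 6), (.rw 9, 4), (.rw 10, 15)])))))))
(.lp [[5], [1, 3, 6, 8], [0, 2, 4, 7, 9]] [(.mj 3 4, 313), (.mj 4 6, 170), (.mj 9 5, 40), (.mj 9 8, 21), (.hz 9 5, 2017), (.hz 3 37, 4123), (.hz 17 39, 30204), (.hz 15 47, 20732), (.hz 8 159, 32889), (.hz 16 351, 37099), (.hz 18 351, 4471), (.hz 8 671, 45316), (.hz 16 479, 72032), (.hz 8 735, 13878)])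
.fin))
(.haz 4 47 11 25
(.ask 159
(.mark 223 [5, 8, 9]
(.spn
(.haz 9 255 3 10
(.lp [[5], [1, 3, 6, 8], [0, 2, 4, 7, 9]] [(.mj 3 4, 1183), (.mj 4 6, 3689), (.mj 5 8, 3697), (.mj 6 7, 10794), (.mj 7 5, 5175), (.rw 7, 13), (.hz 9 5, 59126), (.hz 9 7, 185441), (.hz 9 23, 557736), (.hz 15 47, 425739), (.hz 16 351, 2314580), (.hz 18 351, 799978), (.hz 20 255, 33515609), (.hz 16 479, 582285), (.hz 20 511, 9704748)])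
(.lp [[5], [1, 3, 6, 8], [0, 2, 4, 7, 9]] [(.mj 5 8, 28), (.mj 6 7, 24), (.mj 7 5, 28), (.hz 20 159, 4783), (.hz 20 223, 50267)]))
(.haz 5 7 1 10
(.lp [[5], [1, 3, 6, 8], [0, 2, 4, 7, 9]] [(.mj 3 4, 19), (.mj 4 6, 10), (.mj 7 8, 8), (.mj 8 5, 20), (.hz 20 23, 13152), (.hz 20 31, 6722), (.hz 20 79, 11101), (.hz 20 151, 6722), (.hz 4 331, 233), (.hz 20 95, 13559), (.hz 20 159, 14938), (.hz 20 335, 8618), (.hz 20 223, 31663), (.hz 20 351, 36129), (.hz 20 671, 16598), (.hz 20 735, 53623)])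
(.ask 37
(.mark 255 [8, 9, 10]
(.cut 5 [(0, 1), (1, 1), (2, 1), (3, 1), (5, 1), (7, 1), (11, 1), (21, 1), (15, 1), (23, 1), (75, 1), (31, 1), (79, 1), (331, 1), (95, 1)]
(.lp [[5, 10], [1, 3, 6, 8], [0, 2, 4, 7, 9]] [(.mj 3 4, 208354), (.mj 4 6, 144620), (.hz 20 5, 3810890), (.hz 17 39, 2316426), (.hz 3 1061, 3483026), (.hz 17 1063, 25474101), (.hz 15 1071, 29842368), (.hz 8 671, 12181290), (.rw 8, 14)])))
(.ask 53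
(.mark 127 [7, 8, 10]
(.lp [[5, 10], [1, 3, 6, 8], [0, 2, 4, 7, 9]] [(.mj 0 1, 2), (.mj 3 4, 11), (.mj 4 6, 7)]))
(.haz 5 159 2 25
(.ask 39
(.mark 255 [8, 9, 10]
(.lp [[5, 10], [1, 3, 6, 8], [0, 2, 4, 7, 9]] [(.mj 3 4, 547), (.mj 4 6, 392), (.mj 8 5, 4), (.hz 20 7, 22562), (.hz 17 1063, 52738), (.hz 21 159, 71398), (.hz 15 1071, 80174), (.hz 21 479, 41614)]))
(.maj 5 9
(.ask 47
(.mark 191 [6, 9, 10]
(.cut 5 [(0, 1), (1, 1), (2, 1), (3, 1), (5, 1), (7, 1), (11, 1), (21, 1), (15, 1), (23, 1), (75, 1), (31, 1), (79, 1), (151, 1), (331, 1), (95, 1), (159, 1), (223, 1)]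
(.lp [[5, 10], [1, 3, 6, 8], [0, 2, 4, 7, 9]] [(.mj 0 1, 143005), (.mj 3 4, 29321), (.mj 4 6, 5690), (.mj 8 5, 8647), (.hz 19 47, 739608), (.hz 21 159, 3929986), (.hz 19 1071, 977410), (.hz 15 1071, 1533959), (.hz 15 1087, 2193596), (.hz 21 671, 5267027), (.hz 15 703, 4420539), (.hz 15 1215, 807714), (.hz 21 735, 9579132), (.rw 8, 8)])))
(.cut 5 [(0, 1), (1, 1), (2, 1), (3, 1), (5, 1), (7, 1), (11, 1), (21, 1), (15, 1), (23, 1), (75, 1), (31, 1), (79, 1), (151, 1), (331, 1), (95, 1), (159, 1), (223, 1)]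
(.lp [[5], [1, 3, 6, 8], [0, 2, 4, 7, 9]] [(.mj 0 1, 226565), (.mj 3 4, 68707), (.mj 4 6, 15214), (.mj 7 8, 7080), (.mj 8 5, 14485), (.hz 15 63, 1121667), (.hz 21 159, 10672787), (.hz 21 671, 5102753), (.hz 21 735, 24555488), (.rw 8, 13)])))
(.lp [[5], [1, 3, 6, 8], [0, 2, 4, 7, 9]] [(.mj 0 1, 4332), (.mj 3 4, 862), (.mj 7 8, 32), (.mj 8 9, 33), (.mj 9 5, 308), (.hz 19 47, 67057), (.hz 15 47, 19475), (.hz 21 159, 140501), (.hz 21 223, 272390), (.hz 16 351, 204193), (.hz 21 671, 45139), (.hz 21 479, 415694), (.hz 21 735, 118183)])))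
(.lp [[5], [1, 3, 6, 8], [0, 2, 4, 7, 9]] [(.mj 0 1, 346), (.mj 3 4, 73), (.hz 21 7, 4796), (.hz 21 15, 2377), (.hz 17 39, 2303), (.hz 8 159, 1136), (.hz 16 351, 1076), (.hz 8 671, 856)])))))
(.ask 331
(.mark 479 [5, 9, 10]
(.cut 5 [(0, 1), (1, 1), (2, 1), (3, 1), (5, 1), (7, 1), (11, 1), (21, 1), (15, 1), (23, 1), (75, 1), (31, 1), (79, 1), (151, 1), (331, 1), (95, 1), (159, 1), (335, 1), (1355, 1), (223, 1), (351, 1), (479, 1)]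
(.lp [[5], [0, 2, 4, 7, 9], [1, 3, 6, 8, 10]] [(.mj 6 7, 2224), (.mj 9 5, 1377), (.mj 9 8, 1478), (.hz 4 331, 695233), (.hz 18 351, 438703), (.hz 19 367, 2096501), (.hz 16 479, 677443), (.hz 18 1407, 779570), (.rw 8, 4)])))
(.cut 5 [(0, 1), (1, 1), (2, 1), (3, 1), (5, 1), (7, 1), (11, 1), (21, 1), (15, 1), (23, 1), (75, 1), (31, 1), (79, 1), (151, 1), (331, 1), (95, 1), (159, 1), (223, 1), (671, 1)]
(.cut 5 [(0, 1), (1, 1), (2, 1), (3, 1), (5, 1), (7, 1), (11, 1), (21, 1), (15, 1), (23, 1), (75, 1), (31, 1), (79, 1), (331, 1), (95, 1)]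
(.lp [[5], [1, 3, 6, 8], [0, 2, 4, 7, 9]] [(.mj 4 6, 1552), (.mj 6 7, 5656), (.mj 9 5, 3890), (.mj 9 8, 2338), (.hz 8 159, 1074186), (.hz 19 111, 1593903), (.hz 18 351, 513636), (.hz 8 671, 1267464), (.hz 19 367, 206884), (.rw 8, 1), (.rw 9, 8)]))))
.fin))
(.ref 0))
(.lp [[5], [0, 2, 4, 7], [1, 3, 6, 8]] [(.mj 3 4, 1980), (.mj 4 6, 20624), (.rw 5, 1), (.hz 9 5, 220200), (.hz 9 7, 2660710), (.hz 9 21, 137753), (.hz 19 15, 5796818), (.hz 14 47, 9658136), (.hz 15 47, 1998336)])))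
(.lp [[5], [0, 2, 4, 7], [1, 3, 6, 8]] [(.mj 4 6, 496), (.mj 7 8, 91), (.rw 6, 1), (.hz 18 95, 419155), (.hz 16 351, 251142)]))
(.lp [[5], [0, 2, 4, 7], [1, 3, 6, 8]] [(.mj 4 6, 5), (.mj 7 5, 1), (.hz 9 5, 36), (.hz 17 7, 556), (.hz 9 7, 455), (.hz 9 21, 41), (.hz 13 39, 682), (.hz 15 47, 665), (.hz 15 63, 79)]))
(.lp [[5], [0, 2, 4, 7], [1, 3, 6, 8]] [(.mj 0 1, 127), (.mj 3 4, 29), (.hz 16 5, 727), (.hz 16 21, 6), (.hz 16 15, 292), (.hz 13 39, 3128), (.hz 16 79, 70), (.hz 16 95, 141), (.hz 8 159, 955)]))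
(.lp [[5], [0, 2, 4, 7], [1, 3, 6, 8]] [(.mj 3 4, 66), (.mj 7 5, 10), (.hz 9 5, 473), (.hz 15 15, 5793), (.hz 13 39, 18675), (.hz 12 47, 11698), (.hz 4 331, 2762), (.hz 12 63, 8552), (.hz 8 159, 4593), (.hz 8 351, 8586)]))
(.lp [[5], [0, 2, 4, 7], [1, 3, 6, 8]] [(.mj 3 4, 29), (.mj 4 6, 37), (.mj 7 5, 1), (.hz 9 5, 643), (.hz 9 7, 3128), (.hz 14 15, 29852), (.hz 13 39, 6871), (.hz 13 47, 364), (.hz 12 47, 19771), (.hz 8 159, 239), (.hz 8 351, 718)]))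
(.lp [[5], [0, 2, 4, 7], [1, 3, 6, 8]] [(.mj 4 6, 6), (.mj 7 5, 1), (.hz 9 5, 53), (.hz 13 7, 1290), (.hz 9 7, 771), (.hz 9 21, 60), (.hz 10 39, 361), (.hz 12 47, 3627)]))

theorem run85 : run P3488 (leaf3 218 625) (cutRow P3488) [s84] t85 s85 = true := by
  decide +kernel

theorem bad85 : Bad P3488 s85 :=
  run_sound (leaf3_sound P3488 rfl rfl) (cutRow_sound P3488) (
    List.forall_mem_cons.2 ⟨bad84, fun _ h => absurd h List.not_mem_nil⟩) t85 s85 run85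

/-- the state above piece 145 of the tree -/
def s145 : St := ⟨[0, 0, 1, 3, 5, 15, 15, 47, 21, 319], [319, 287, 279, 277, 63, 31, 15, 11, 7, 5, 3, 2, 1, 0], [0, 1, 2, 3, 4, 5, 8, 7],
  [(4, 5)],
  [⟨true, 2, 3, 3, 10⟩, ⟨true, 1, 5, 2, 5⟩, ⟨true, 2, 3, 23, 50⟩, ⟨true, 1, 5, 12, 25⟩, ⟨true, 1, 21, 27, 50⟩, ⟨true, 4, 15, 9, 40⟩, ⟨true, 3, 23, 11, 20⟩, ⟨true, 1, 21, 29, 50⟩, ⟨true, 4, 79, 11, 40⟩, ⟨true, 4, 175, 11, 40⟩, ⟨true, 4, 175, 3, 10⟩, ⟨true, 6, 175, 1, 40⟩, ⟨true, 8, 191, 1, 4⟩, ⟨true, 6, 287, 3, 50⟩, ⟨true, 4, 79, 9, 25⟩],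
  [.spn 0 0 651200, .spn 1 1 302400, .spn 3 2 302400, .spn 7 3 302400, .spn 15 4 140426, .spn 31 5 140426, .spn 63 8 140426, .spn 319 7 140426]⟩

/-- piece 145 of the tree -/
noncomputable def t145 : WN.Tree :=
(.haz 7 831 6 25
(.ask 175
(.mark 447 [6, 9, 10]
(.spn
(.haz 9 1471 9 50
(.haz 9 447 9 25
(.lp [[6], [0, 2, 4, 8, 9], [1, 3, 5, 7, 10]] [(.mj 6 9, 2633), (.mj 7 6, 2937), (.mj 8 7, 2937), (.rw 8, 1), (.hz 17 447, 1037683), (.hz 13 831, 1027921), (.hz 15 831, 373428), (.hz 17 1471, 4672989)])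
(.lp [[6], [0, 2, 4, 8, 9], [1, 3, 5, 7, 10]] [(.mj 7 6, 1790), (.mj 8 7, 3147), (.rw 8, 2), (.hz 17 319, 1576068), (.hz 17 447, 1393321), (.hz 13 831, 626432), (.hz 13 1471, 3616125)]))
(.lp [[6], [0, 2, 4, 8, 9], [1, 3, 5, 7, 10]] [(.mj 7 6, 753), (.mj 8 7, 1331), (.rw 8, 1), (.hz 16 319, 301649), (.hz 16 447, 187166)]))
(.haz 5 351 33 50
(.ask 831
(.mark 959 [6, 10, 11]
(.spn
(.haz 10 3007 11 50
(.maj 10 11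
(.cut 10 [(0, 1), (1, 1), (2, 1), (3, 1), (5, 1), (7, 1), (11, 1), (21, 1), (15, 1), (23, 1), (277, 1), (31, 1), (47, 1), (79, 1), (279, 1), (63, 1), (95, 1), (111, 1), (175, 1), (287, 1), (127, 1), (191, 1), (239, 1), (319, 1), (351, 1), (255, 1), (383, 1), (447, 1), (831, 1), (895, 1), (959, 1)]
(.lp [[6], [1, 3, 5, 7, 10], [0, 2, 4, 8, 9, 11]] [(.mj 6 10, 33935), (.mj 7 9, 16855), (.mj 8 7, 6720), (.mj 9 6, 45355), (.mj 10 11, 17833), (.hz 11 1199, 5970740), (.hz 11 1215, 13147811), (.hz 13 1471, 51682093), (.hz 13 2879, 42247078), (.hz 13 3007, 91393975), (.hz 17 3007, 43691460), (.rw 10, 2)]))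
(.lp [[6], [1, 3, 5, 7, 10], [0, 2, 4, 8, 9, 11]] [(.mj 6 11, 81), (.mj 7 9, 62), (.mj 8 7, 48), (.mj 9 6, 154), (.mj 11 10, 87), (.hz 11 1199, 49878), (.hz 11 1215, 189536), (.hz 14 1263, 25678), (.hz 13 1471, 433410), (.hz 13 2879, 45363), (.hz 13 1983, 443347), (.hz 17 3007, 146792)]))
(.lp [[6], [1, 3, 5, 7, 10], [0, 2, 4, 8, 9, 11]] [(.mj 3 4, 101), (.mj 7 9, 1672), (.mj 9 6, 924), (.rw 9, 1), (.hz 17 175, 67465), (.hz 17 191, 268908), (.hz 17 447, 612607), (.hz 17 959, 480579), (.hz 13 1471, 1155268), (.hz 13 2879, 2891810)]))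
(.maj 6 11
(.cut 6 [(0, 1), (1, 1), (2, 1), (3, 1), (5, 1), (7, 1), (11, 1), (21, 1), (15, 1), (23, 1), (277, 1), (31, 1), (47, 1), (279, 1), (63, 1), (175, 1), (287, 1), (191, 1), (319, 1), (447, 1), (831, 1), (959, 1)]
(.lp [[6], [1, 3, 5, 7, 10], [0, 2, 4, 8, 9, 11]] [(.mj 3 4, 235), (.mj 7 9, 93), (.mj 9 10, 905), (.mj 10 6, 1343), (.hz 14 1263, 329433), (.hz 13 2879, 1973640), (.hz 13 3007, 6428662), (.rw 10, 4)]))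
(.ask 1199
(.mark 1983 [6, 11, 12]
(.cut 6 [(0, 1), (1, 1), (2, 1), (3, 1), (5, 1), (7, 1), (11, 1), (21, 1), (15, 1), (23, 1), (277, 1), (31, 1), (47, 1), (279, 1), (63, 1), (175, 1), (287, 1), (191, 1), (319, 1), (1199, 1), (447, 1), (831, 1), (1215, 1), (959, 1), (1471, 1)]
(.lp [[6], [0, 2, 4, 8, 9, 11], [1, 3, 5, 7, 10, 12]] [(.mj 3 4, 2385), (.mj 7 9, 1479), (.mj 9 10, 2969), (.mj 10 11, 1748), (.mj 11 6, 4473), (.hz 14 5359, 1256168), (.rw 10, 16)])))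
(.cut 6 [(0, 1), (1, 1), (2, 1), (3, 1), (5, 1), (7, 1), (11, 1), (21, 1), (15, 1), (23, 1), (277, 1), (31, 1), (47, 1), (279, 1), (63, 1), (175, 1), (287, 1), (191, 1), (319, 1), (1199, 1), (447, 1), (831, 1), (959, 1)]
(.lp [[6], [1, 3, 5, 7, 10], [0, 2, 4, 8, 9, 11]] [(.mj 3 4, 2556), (.mj 7 9, 151), (.mj 8 7, 1023), (.mj 9 10, 74), (.mj 10 11, 184), (.mj 11 6, 1522), (.hz 13 1471, 1083654), (.hz 15 2943, 2087171), (.hz 13 1983, 2877770), (.rw 10, 4)]))))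
(.cut 6 [(0, 1), (1, 1), (2, 1), (3, 1), (5, 1), (7, 1), (11, 1), (21, 1), (15, 1), (23, 1), (277, 1), (31, 1), (47, 1), (279, 1), (63, 1), (175, 1), (287, 1), (191, 1), (319, 1), (447, 1), (831, 1)]
(.cut 10 [(0, 1), (1, 1), (2, 1), (3, 1), (5, 1), (7, 1), (11, 1), (21, 1), (15, 1), (23, 1), (277, 1), (31, 1), (47, 1), (79, 1), (279, 1), (63, 1), (95, 1), (111, 1), (175, 1), (287, 1), (127, 1), (191, 1), (239, 1), (319, 1), (351, 1), (255, 1), (383, 1), (447, 1), (831, 1), (511, 1), (895, 1), (2879, 1), (2943, 1)]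
(.cut 6 [(0, 1), (1, 1), (2, 1), (3, 1), (5, 1), (7, 1), (11, 1), (21, 1), (15, 1), (23, 1), (277, 1), (31, 1), (47, 1), (279, 1), (63, 1), (175, 1), (287, 1), (191, 1), (319, 1), (1199, 1), (447, 1), (831, 1), (1215, 1), (959, 1)]
(.cut 6 [(0, 1), (1, 1), (2, 1), (3, 1), (5, 1), (7, 1), (11, 1), (21, 1), (15, 1), (23, 1), (277, 1), (31, 1), (47, 1), (279, 1), (63, 1), (175, 1), (287, 1), (191, 1), (319, 1), (447, 1), (831, 1), (959, 1)]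
(.lp [[6], [1, 3, 5, 7, 10], [0, 2, 4, 8, 9, 11]] [(.mj 7 9, 306697), (.mj 8 7, 76827), (.mj 11 6, 263995), (.mj 11 10, 128830), (.hz 14 1263, 60965390), (.hz 13 1471, 82255542), (.hz 13 1983, 503388415), (.rw 10, 738), (.rw 11, 52), (.rw 12, 15), (.rw 13, 94)])))))
.fin))
(.ask 959
(.mark 959 [6, 10, 11]
(.spn
(.haz 11 1983 17 50
(.haz 11 1983 12 25
(.lp [[6], [1, 3, 5, 7, 10], [0, 2, 4, 8, 9, 11]] [(.mj 6 10, 280), (.mj 6 11, 6324), (.mj 8 7, 8840), (.mj 9 6, 11114), (.rw 9, 7), (.hz 13 1471, 43328306), (.hz 18 1983, 23607479)])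
(.lp [[6], [1, 3, 5, 7, 10], [0, 2, 4, 8, 9, 11]] [(.mj 3 4, 1), (.mj 6 10, 3), (.mj 9 6, 4), (.hz 11 1199, 519), (.hz 18 959, 8770), (.hz 13 1471, 10072), (.hz 17 1983, 2649)]))
(.lp [[6], [1, 3, 5, 7, 10], [0, 2, 4, 8, 9, 11]] [(.mj 3 4, 4), (.mj 6 10, 6), (.mj 9 6, 7), (.hz 17 959, 6154)]))
(.cut 6 [(0, 1), (1, 1), (2, 1), (3, 1), (5, 1), (7, 1), (11, 1), (21, 1), (15, 1), (23, 1), (277, 1), (31, 1), (47, 1), (279, 1), (63, 1), (175, 1), (287, 1), (191, 1), (319, 1), (1199, 2), (447, 1), (831, 1), (1215, 1), (959, 1), (1471, 1)]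
(.cut 6 [(0, 1), (1, 1), (2, 1), (3, 1), (5, 1), (7, 1), (11, 1), (21, 1), (15, 1), (23, 1), (277, 1), (31, 1), (47, 1), (279, 1), (63, 1), (287, 1), (319, 1), (831, 1)]
(.lp [[6], [1, 3, 5, 7, 10], [0, 2, 4, 8, 9, 11]] [(.mj 3 4, 39152), (.mj 8 7, 47664), (.mj 10 6, 34442), (.mj 10 11, 3814), (.hz 13 1471, 15961594), (.hz 13 3007, 45194114), (.rw 10, 4), (.rw 11, 89)])))
(.ask 1199
(.mark 1471 [6, 9, 12]
(.cut 6 [(0, 1), (1, 1), (2, 1), (3, 1), (5, 1), (7, 1), (11, 1), (21, 1), (15, 1), (23, 1), (277, 1), (31, 1), (47, 1), (279, 1), (63, 1), (175, 1), (287, 1), (191, 1), (319, 1), (1199, 1), (447, 1), (831, 1), (1215, 1), (959, 1)]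
(.cut 10 [(0, 1), (1, 1), (2, 1), (3, 1), (5, 1), (7, 1), (11, 1), (21, 1), (15, 1), (23, 1), (277, 1), (31, 1), (47, 1), (79, 1), (279, 1), (63, 1), (95, 1), (111, 1), (175, 1), (287, 1), (127, 1), (191, 1), (239, 1), (319, 1), (351, 1), (255, 1), (383, 1), (447, 1), (831, 1), (511, 1), (895, 1)]
(.lp [[6], [0, 2, 4, 8, 9, 11], [1, 3, 5, 7, 10, 12]] [(.mj 3 4, 8305), (.mj 11 6, 69290), (.hz 10 5295, 3140190), (.hz 11 5295, 960563), (.hz 13 1471, 6816878), (.hz 12 5311, 60469072), (.hz 14 5359, 19187711), (.hz 13 1983, 100991981), (.hz 13 5567, 86611949), (.rw 10, 235), (.rw 11, 4)]))))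
(.cut 6 [(0, 1), (1, 1), (2, 1), (3, 1), (5, 1), (7, 1), (11, 1), (21, 1), (15, 1), (23, 1), (277, 1), (31, 1), (47, 1), (279, 1), (63, 1), (175, 1), (287, 1), (191, 1), (319, 1), (447, 1), (831, 1), (959, 1)]
(.cut 6 [(0, 1), (1, 1), (2, 1), (3, 1), (5, 1), (7, 1), (11, 1), (21, 1), (15, 1), (23, 1), (277, 1), (47, 1), (279, 1), (175, 1), (1199, 1)]
(.cut 10 [(0, 1), (1, 1), (2, 1), (3, 1), (5, 1), (7, 1), (11, 1), (21, 1), (15, 1), (23, 1), (277, 1), (31, 1), (47, 1), (79, 1), (279, 1), (63, 1), (95, 1), (111, 1), (175, 1), (287, 1), (127, 1), (191, 1), (239, 1), (319, 1), (351, 1), (255, 1), (383, 1), (447, 1), (831, 1), (511, 1), (895, 1)]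
(.lp [[6], [1, 3, 5, 7, 10], [0, 2, 4, 8, 9, 11]] [(.mj 3 4, 329080), (.mj 8 7, 107327), (.mj 11 6, 180216), (.hz 13 287, 26191194), (.hz 14 1263, 62543713), (.hz 12 1279, 1038535329), (.hz 13 1983, 253342985), (.rw 10, 426), (.rw 11, 91), (.rw 12, 11)])))))
.fin))
(.lp [[6], [0, 2, 4, 8, 9], [1, 3, 5, 7, 10]] [(.mj 8 7, 1), (.mj 9 6, 8), (.mj 9 10, 8), (.hz 13 1471, 52929)])))
(.lp [[6], [0, 2, 4, 8, 9], [1, 3, 5, 7, 10]] [(.mj 5 8, 19), (.mj 8 7, 19), (.mj 9 6, 21), (.hz 16 287, 10280), (.hz 11 175, 4498), (.hz 13 319, 7327), (.hz 10 1199, 272), (.hz 11 1199, 1636), (.hz 13 447, 25721), (.hz 11 1215, 24628)]))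
(.cut 6 [(0, 1), (1, 1), (2, 1), (3, 1), (5, 1), (7, 1), (11, 1), (21, 1), (15, 1), (23, 1), (277, 1), (31, 1), (47, 1), (279, 1), (63, 1), (175, 1), (287, 1), (191, 1), (319, 1), (447, 1)]
(.lp [[6], [0, 2, 4, 8, 9], [1, 3, 5, 7, 10]] [(.mj 8 7, 2858), (.mj 10 6, 1731), (.mj 10 9, 1399), (.hz 15 831, 967535), (.rw 9, 4)]))
.fin))
(.ref 0))
(.lp [[6], [1, 3, 5, 7], [0, 2, 4, 8, 9]] [(.mj 3 4, 1), (.mj 7 6, 4), (.mj 7 9, 4), (.hz 15 47, 543), (.hz 15 63, 1593), (.hz 15 319, 3350), (.hz 13 831, 5793)]))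

theorem run145 : run P3488 (leaf3 218 625) (cutRow P3488) [s144] t145 s145 = true := by
  decide +kernel

theorem bad145 : Bad P3488 s145 :=
  run_sound (leaf3_sound P3488 rfl rfl) (cutRow_sound P3488) (
    List.forall_mem_cons.2 ⟨bad144, fun _ h => absurd h List.not_mem_nil⟩) t145 s145 run145

/-- the state above piece 236 of the tree -/
def s236 : St := ⟨[0, 0, 1, 3, 5, 15, 31, 31, 47, 127], [223, 191, 159, 127, 95, 63, 31, 23, 21, 15, 11, 7, 5, 3, 2, 1, 0], [0, 1, 2, 3, 4, 5, 6, 7],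
  [(9, 8), (4, 5)],
  [⟨true, 2, 3, 3, 10⟩, ⟨true, 1, 5, 2, 5⟩, ⟨true, 2, 3, 23, 50⟩, ⟨true, 1, 5, 12, 25⟩, ⟨true, 1, 21, 27, 50⟩, ⟨true, 4, 15, 9, 40⟩, ⟨true, 3, 23, 11, 20⟩, ⟨true, 4, 47, 7, 20⟩, ⟨true, 4, 47, 17, 40⟩, ⟨true, 4, 47, 9, 20⟩, ⟨true, 4, 47, 19, 40⟩, ⟨true, 5, 31, 3, 10⟩, ⟨true, 4, 47, 3, 5⟩, ⟨true, 4, 47, 5, 8⟩, ⟨true, 6, 159, 1, 10⟩, ⟨true, 6, 159, 1, 4⟩, ⟨true, 6, 319, 11, 40⟩, ⟨true, 5, 159, 7, 20⟩, ⟨true, 8, 255, 3, 40⟩, ⟨true, 7, 319, 1, 8⟩, ⟨true, 7, 639, 1, 10⟩, ⟨true, 7, 639, 3, 20⟩, ⟨true, 7, 639, 7, 40⟩, ⟨true, 8, 639, 3, 40⟩, ⟨true, 6, 447, 21, 40⟩, ⟨true, 7, 639, 9, 40⟩, ⟨true, 6, 319, 9, 20⟩, ⟨true, 6, 447, 13, 20⟩, ⟨true, 8, 255, 3, 20⟩, ⟨true, 6, 319, 1, 2⟩],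
  [.spn 0 0 651200, .spn 1 1 302400, .spn 3 2 302400, .spn 7 3 302400, .spn 15 4 302400, .spn 31 5 140426, .spn 63 6 140426, .spn 127 7 62723]⟩

/-- piece 236 of the tree -/
noncomputable def t236 : WN.Tree :=
(.ask 255
(.mark 255 [8, 9, 10]
(.spn
(.con 8 9)
(.ask 639
(.mark 767 [8, 10, 11]
(.spn
(.haz 11 1791 11 50
(.haz 9 1279 3 10
(.haz 11 1791 17 50
(.ask 1279
(.mark 1791 [8, 11, 12]
(.lp [[5, 8], [1, 3, 7, 10, 12], [0, 2, 4, 6, 9, 11]] [(.mj 5 6, 48), (.mj 7 9, 1), (.mj 8 10, 4), (.mj 8 11, 20), (.mj 9 8, 40), (.hz 28 1279, 74358), (.hz 25 2687, 334), (.hz 32 1791, 27779), (.hz 28 5375, 117759), (.hz 31 5375, 13883), (.hz 32 5887, 53560)]))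
(.ask 1791
(.mark 1791 [8, 11, 12]
(.lp [[5, 8], [1, 3, 7, 10, 12], [0, 2, 4, 6, 9, 11]] [(.mj 5 6, 48), (.mj 7 9, 1), (.mj 8 10, 5), (.mj 8 11, 20), (.mj 9 8, 40), (.hz 28 1279, 84179), (.hz 25 2687, 338), (.hz 32 1791, 31440), (.hz 32 5887, 37995)]))
(.lp [[7, 10], [1, 3, 5, 8], [0, 2, 4, 6, 9, 11]] [(.mj 8 11, 2), (.mj 9 8, 3)])))
(.lp [[7, 10], [1, 3, 5, 8], [0, 2, 4, 6, 9, 11]] [(.mj 5 6, 421), (.mj 8 10, 89), (.mj 9 8, 274), (.hz 32 639, 47541), (.hz 32 767, 189257), (.hz 28 1279, 1184240), (.hz 30 1791, 122790)]))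
(.lp [[7, 10], [1, 3, 5, 8], [0, 2, 4, 6, 9, 11]] [(.mj 5 6, 2), (.mj 9 8, 3), (.mj 9 10, 2), (.hz 31 127, 4266), (.hz 31 255, 12556), (.hz 28 1279, 15186)]))
(.lp [[7, 10], [1, 3, 5, 8], [0, 2, 4, 6, 9, 11]] [(.mj 5 6, 11), (.mj 8 10, 3), (.mj 9 8, 8), (.hz 30 639, 1337), (.hz 30 767, 5163), (.hz 28 1279, 33837)]))
(.lp [[7, 10], [1, 3, 5, 8], [0, 2, 4, 6, 9, 11]] [(.mj 5 6, 31), (.mj 6 7, 2), (.mj 10 8, 12), (.hz 13 303, 2584), (.hz 29 319, 56857), (.hz 28 255, 23491), (.hz 28 767, 41015), (.hz 28 1279, 1272), (.hz 25 2687, 4318), (.hz 23 2687, 7197), (.hz 28 2815, 41649)])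
(.lp [[7, 10], [1, 3, 5, 8], [0, 2, 4, 6, 9, 11]] [(.mj 5 6, 15), (.mj 7 9, 1), (.mj 11 8, 6), (.hz 13 303, 1242), (.hz 29 319, 27323), (.hz 28 255, 7424), (.hz 25 639, 494), (.hz 27 447, 2197), (.hz 28 767, 20420), (.hz 28 1279, 11319), (.hz 23 2687, 2517)])
.fin))
(.ask 767
(.mark 767 [8, 10, 11]
(.spn
(.ask 303
(.mark 1023 [10, 11, 12]
(.lp [[7, 10], [1, 3, 5, 8, 12], [0, 2, 4, 6, 9, 11]] [(.mj 6 7, 88), (.mj 8 11, 13), (.mj 9 8, 48), (.hz 13 4399, 2500), (.hz 28 255, 127381), (.hz 19 4415, 172503), (.hz 28 1279, 207057), (.hz 25 4991, 94722)]))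
(.ask 319
(.mark 1023 [10, 11, 12]
(.lp [[7, 10], [1, 3, 5, 8, 12], [0, 2, 4, 6, 9, 11]] [(.mj 6 7, 106), (.mj 8 11, 15), (.mj 9 8, 58), (.hz 28 255, 155405), (.hz 19 4415, 169454), (.hz 28 1279, 249968), (.hz 25 4991, 113108)]))
(.ask 447
(.mark 1023 [10, 11, 12]
(.lp [[7, 10], [1, 3, 5, 8, 12], [0, 2, 4, 6, 9, 11]] [(.mj 6 7, 1)]))
(.lp [[7, 10], [1, 3, 5, 8], [0, 2, 4, 6, 9, 11]] [(.mj 5 6, 100), (.mj 7 9, 2), (.mj 8 11, 2), (.mj 9 8, 23), (.hz 28 255, 9283), (.hz 28 1279, 56910)]))))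
(.lp [[7, 10], [1, 3, 5, 8], [0, 2, 4, 6, 9, 11]] [(.mj 6 7, 1), (.mj 10 8, 1), (.hz 28 255, 3809), (.hz 28 767, 2319), (.hz 28 2815, 1019)])
(.lp [[7, 10], [1, 3, 5, 8], [0, 2, 4, 6, 9, 11]] [(.mj 5 6, 1), (.mj 6 7, 1), (.mj 11 8, 1), (.hz 13 303, 105), (.hz 29 319, 2310), (.hz 28 255, 2412), (.hz 28 767, 2554)])
.fin))
(.lp [[7, 10], [1, 3, 5, 8], [0, 2, 4, 6, 9]] [(.mj 5 6, 10), (.mj 6 7, 4), (.mj 9 8, 8), (.hz 28 255, 20202), (.hz 28 1279, 21542)])))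
(.lp [[7, 10], [1, 3, 5, 8], [0, 2, 4, 6, 9]] [(.mj 6 7, 3579), (.mj 9 8, 970), (.rw 8, 1), (.hz 28 255, 9737600), (.hz 25 639, 1549691), (.hz 28 1279, 1940483)])
.fin))
(.spn
(.con 8 9)
(.ask 639
(.mark 639 [7, 8, 10]
(.ask 767
(.mark 767 [8, 10, 11]
(.spn
(.haz 11 1791 1 5
(.ask 303
(.mark 1023 [10, 11, 12]
(.spn
(.haz 10 2815 7 20
(.ask 2815
(.mark 2815 [8, 10, 13]
(.lp [[7, 11, 13], [1, 3, 5, 8, 12], [0, 2, 4, 6, 9, 10]] [(.mj 7 9, 20), (.mj 8 10, 17), (.mj 8 11, 4), (.mj 9 8, 25), (.mj 10 11, 5), (.hz 31 2815, 41503), (.hz 31 11007, 45151)]))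
(.lp [[7, 11], [1, 3, 5, 8, 12], [0, 2, 4, 6, 9, 10]] [(.mj 7 9, 2), (.mj 8 10, 2), (.mj 9 8, 3), (.mj 10 11, 1)]))
(.lp [[7, 11], [1, 3, 5, 8, 12], [0, 2, 4, 6, 9, 10]] [(.mj 7 9, 24), (.mj 9 8, 22), (.mj 10 11, 17), (.hz 31 767, 64608), (.hz 28 2815, 127395)]))
(.haz 10 2815 3 20
(.haz 10 1023 1 5
(.ask 2815
(.mark 3071 [10, 12, 13]
(.spn
(.ask 1663
(.mark 1791 [8, 11, 14]
(.lp [[7, 11, 13], [1, 3, 5, 8, 12], [0, 2, 4, 6, 9, 10, 14]] [(.mj 7 9, 11), (.mj 8 11, 16), (.mj 9 8, 26), (.mj 10 13, 6), (.mj 11 10, 13), (.hz 23 18047, 6964), (.hz 32 5119, 2123785), (.hz 28 18175, 83153), (.hz 30 18175, 303079), (.hz 31 11007, 9057)]))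
(.ask 1791
(.mark 1791 [8, 11, 14]
(.lp [[7, 11, 13], [1, 3, 5, 8, 12], [0, 2, 4, 6, 9, 10, 14]] [(.mj 7 9, 2), (.mj 8 11, 15), (.mj 9 8, 25), (.mj 10 13, 6), (.mj 11 10, 15), (.hz 32 5119, 2271346), (.hz 28 18175, 76229), (.hz 30 18175, 252832), (.hz 31 11007, 10119)]))
(.lp [[7, 11, 13], [1, 3, 5, 8, 12], [0, 2, 4, 6, 9, 10]] [(.mj 8 11, 5), (.mj 9 8, 8), (.mj 10 13, 1), (.mj 11 10, 3)])))
(.lp [[7, 11, 13], [1, 3, 5, 8, 12], [0, 2, 4, 6, 9, 10]] [(.mj 7 9, 194), (.mj 8 11, 131), (.mj 9 8, 1370), (.mj 12 10, 70), (.rw 11, 1), (.hz 23 1663, 741561), (.hz 28 1791, 5394122), (.hz 28 11007, 4093400), (.hz 31 11007, 190845)])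
(.lp [[7, 11, 13], [1, 3, 5, 8, 12], [0, 2, 4, 6, 9, 10]] [(.mj 7 9, 1), (.mj 8 11, 6), (.mj 9 8, 9), (.mj 13 10, 7), (.hz 23 1663, 4635), (.hz 32 1023, 74283), (.hz 28 1791, 23788), (.hz 31 2815, 35303), (.hz 32 3071, 294564), (.hz 32 5119, 113696)])
.fin))
(.lp [[7, 11], [1, 3, 5, 8, 12], [0, 2, 4, 6, 9, 10]] [(.mj 5 6, 80), (.mj 7 9, 2), (.mj 8 11, 21), (.mj 9 8, 82), (.mj 11 10, 48), (.hz 32 1023, 2440440)]))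
(.lp [[7, 11], [1, 3, 5, 8, 12], [0, 2, 4, 6, 9, 10]] [(.mj 5 6, 14388), (.mj 8 11, 2638), (.mj 9 8, 6736), (.hz 13 4399, 970437), (.hz 32 639, 9553121), (.hz 29 4415, 20088111), (.hz 19 4415, 6113678), (.hz 32 767, 34125379), (.hz 32 895, 1897345), (.hz 27 4543, 6897520), (.hz 31 2815, 9067130), (.hz 25 4991, 1054081)]))
(.lp [[7, 11], [1, 3, 5, 8, 12], [0, 2, 4, 6, 9, 10]] [(.mj 5 6, 164), (.mj 8 11, 43), (.mj 9 8, 91), (.hz 13 4399, 8342), (.hz 31 639, 41094), (.hz 29 4415, 225246), (.hz 31 767, 81231), (.hz 27 4543, 26952), (.hz 30 1791, 591773)]))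
(.lp [[7, 11], [1, 3, 5, 8, 12], [0, 2, 4, 6, 9, 10]] [(.mj 7 9, 2), (.mj 9 8, 3), (.mj 12 10, 1), (.mj 12 11, 2), (.hz 28 1791, 9737), (.hz 30 1791, 37001), (.hz 28 2815, 11472)])
.fin))
(.ref 0))
(.lp [[7, 11], [1, 3, 5, 8], [0, 2, 4, 6, 9, 10]] [(.mj 7 9, 14), (.mj 8 10, 4), (.mj 9 8, 10), (.hz 30 767, 86540), (.hz 28 1791, 27626)]))
(.lp [[7, 11], [1, 3, 5, 8], [0, 2, 4, 6, 9, 10]] [(.mj 5 6, 2), (.mj 7 9, 1), (.mj 10 8, 2), (.hz 28 255, 2741), (.hz 28 767, 8344), (.hz 28 1791, 3518), (.hz 28 2815, 3518)])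
(.lp [[7, 11], [1, 3, 5, 8], [0, 2, 4, 6, 9, 10]] [(.mj 5 6, 7), (.mj 7 9, 1), (.mj 11 8, 3), (.hz 13 303, 557), (.hz 29 319, 12264), (.hz 28 255, 3332), (.hz 27 447, 986), (.hz 28 767, 9816), (.hz 23 1663, 2176)])
.fin))
(.lp [[7], [1, 3, 5, 8], [0, 2, 4, 6, 9, 10]] [(.mj 7 9, 13), (.mj 9 8, 7), (.hz 28 767, 12883), (.hz 28 1791, 24823)])))
(.ask 767
(.ask 767
(.mark 767 [8, 10, 11]
(.spn
(.haz 10 2815 11 50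
(.haz 10 2815 17 50
(.ask 2815
(.mark 2815 [8, 10, 12]
(.ask 6911
(.mark 6911 [8, 10, 13]
(.lp [[7, 10], [1, 3, 5, 8], [0, 2, 4, 6, 9, 11, 12, 13]] [(.mj 5 6, 86), (.mj 7 9, 2), (.mj 8 10, 36), (.mj 9 8, 72), (.mj 10 11, 10), (.hz 28 2815, 1727), (.hz 31 2815, 18767), (.hz 28 3839, 32782), (.hz 31 6911, 25455), (.hz 31 15103, 38567)]))
(.lp [[7, 10], [1, 3, 5, 8], [0, 2, 4, 6, 9, 11, 12]] [(.mj 5 6, 62), (.mj 7 9, 2), (.mj 8 10, 26), (.mj 9 8, 52), (.mj 10 11, 7), (.hz 31 2815, 10719), (.hz 31 3071, 11369), (.hz 31 6911, 16240)])))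
(.lp [[7, 11], [1, 3, 5, 8], [0, 2, 4, 6, 9, 10]] [(.mj 6 7, 1), (.mj 8 10, 10), (.mj 9 8, 16), (.mj 10 11, 2)]))
(.lp [[7, 11], [1, 3, 5, 8], [0, 2, 4, 6, 9, 10]] [(.mj 5 6, 24), (.mj 6 7, 2), (.mj 9 8, 19), (.mj 10 11, 8), (.hz 31 767, 13213), (.hz 28 2815, 75077)]))
(.lp [[7, 11], [1, 3, 5, 8], [0, 2, 4, 6, 9, 10]] [(.mj 5 6, 4), (.mj 9 8, 3), (.mj 10 11, 1), (.hz 30 767, 1848), (.hz 28 2815, 10499)]))
(.lp [[7, 11], [1, 3, 5, 8], [0, 2, 4, 6, 9, 10]] [(.mj 5 6, 2), (.mj 10 8, 1), (.hz 13 303, 167), (.hz 29 319, 3676), (.hz 28 255, 1519), (.hz 28 767, 2652)])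
(.con 11 10)
.fin))
(.spn
(.lp [[7], [1, 3, 5, 8], [0, 2, 4, 6, 9, 10]] [(.mj 8 10, 2), (.mj 9 8, 3)])
(.lp [[7], [1, 3, 5, 8], [0, 2, 4, 6, 9, 10]] [(.mj 5 6, 2), (.mj 10 8, 1), (.hz 13 303, 167), (.hz 29 319, 3676), (.hz 28 255, 1519), (.hz 28 767, 2652)])
.fin
.fin))
(.lp [[7], [1, 3, 5, 8], [0, 2, 4, 6, 9]] [(.mj 9 8, 1)])))
.fin
.fin))

theorem run236 : run P3488 (leaf3 218 625) (cutRow P3488) [s235] t236 s236 = true := by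
  decide +kernel

theorem bad236 : Bad P3488 s236 :=
  run_sound (leaf3_sound P3488 rfl rfl) (cutRow_sound P3488) (
    List.forall_mem_cons.2 ⟨bad235, fun _ h => absurd h List.not_mem_nil⟩) t236 s236 run236

/-- the state above piece 163 of the tree -/
def s163 : St := ⟨[0, 0, 1, 3, 5, 15, 15], [21, 47, 15, 11, 7, 5, 3, 2, 1, 0], [0, 1, 2, 3, 4],
  [(4, 5)],
  [⟨true, 2, 3, 3, 10⟩, ⟨true, 1, 5, 2, 5⟩, ⟨true, 2, 3, 23, 50⟩, ⟨true, 1, 5, 12, 25⟩, ⟨true, 1, 21, 27, 50⟩, ⟨true, 4, 15, 9, 40⟩, ⟨true, 3, 23, 11, 20⟩, ⟨true, 1, 21, 29, 50⟩, ⟨true, 1, 21, 3, 5⟩, ⟨true, 1, 21, 31, 50⟩],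
  [.spn 0 0 651200, .spn 1 1 302400, .spn 3 2 302400, .spn 7 3 302400, .spn 15 4 140426]⟩

/-- piece 163 of the tree -/
noncomputable def t163 : WN.Tree :=
(.ask 23
(.mark 31 [5, 6, 7]
(.spn
(.haz 5 159 1 5
(.haz 4 79 7 20
(.haz 7 127 1 10
(.haz 4 79 3 8
(.ask 63
(.mark 63 [6, 7, 8]
(.spn
(.haz 7 63 7 40
(.haz 7 31 9 40
(.lp [[6], [0, 2, 4, 7], [1, 3, 5, 8]] [(.mj 0 1, 1821), (.mj 5 6, 70), (.mj 6 7, 185), (.hz 6 151, 19079), (.hz 15 63, 31387), (.hz 15 95, 17215), (.hz 15 319, 40500)])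
(.haz 6 63 11 40
(.lp [[6], [0, 2, 4, 7], [1, 3, 5, 8]] [(.mj 0 1, 173), (.mj 5 6, 2), (.hz 15 23, 1442), (.hz 15 31, 1042), (.hz 16 63, 1481), (.hz 14 127, 378)])
(.lp [[6], [0, 2, 4, 7], [1, 3, 5, 8]] [(.mj 0 1, 1455), (.mj 6 7, 38), (.mj 6 8, 23), (.hz 15 23, 10294), (.hz 16 31, 8259), (.hz 15 31, 7079), (.hz 14 319, 18083)])))
(.lp [[6], [0, 2, 4, 7], [1, 3, 5, 8]] [(.mj 0 1, 45906), (.rw 6, 1), (.hz 14 23, 340654), (.hz 14 31, 186660)]))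
(.haz 6 191 1 10
(.haz 7 319 4 25
(.haz 6 319 2 25
(.ask 151
(.mark 191 [6, 8, 9]
(.spn
(.haz 8 191 2 5
(.lp [[6], [1, 3, 5, 8], [0, 2, 4, 7, 9]] [(.mj 3 4, 124), (.mj 6 8, 52), (.mj 7 6, 74), (.hz 13 79, 14057), (.hz 13 111, 14057), (.hz 17 191, 61366), (.hz 17 255, 170451), (.hz 17 703, 287247)])
(.lp [[6], [1, 3, 5, 8], [0, 2, 4, 7, 9]] [(.mj 3 4, 9), (.mj 5 7, 1), (.mj 7 6, 4), (.hz 13 79, 1053), (.hz 17 63, 6117), (.hz 13 111, 1053), (.hz 17 191, 6482), (.hz 16 319, 1361), (.hz 14 703, 5893)]))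
(.haz 6 31 1 10
(.haz 4 79 11 25
(.haz 4 111 16 25
(.ask 319
(.mark 447 [6, 9, 10]
(.lp [[6], [0, 2, 4, 7, 9], [1, 3, 5, 8, 10]] [(.mj 3 4, 422), (.mj 7 8, 147), (.mj 8 6, 182), (.hz 18 79, 22749), (.hz 17 159, 166271), (.hz 19 111, 15640), (.hz 14 191, 165749), (.hz 17 319, 393554), (.hz 17 671, 275741), (.hz 14 703, 599311), (.hz 17 1343, 48945)]))
(.ask 447
(.mark 447 [6, 9, 10]
(.spn
(.lp [[6], [0, 2, 4, 7, 9], [1, 3, 5, 8, 10]] [(.mj 3 4, 16886), (.mj 6 10, 1299), (.mj 7 8, 985), (.mj 8 6, 5281), (.rw 8, 1), (.hz 18 79, 909907), (.hz 17 159, 6650533), (.hz 19 111, 625561)])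
(.lp [[6], [0, 2, 4, 7, 9], [1, 3, 5, 8, 10]] [(.mj 3 4, 7), (.mj 9 6, 2), (.hz 18 79, 351), (.hz 17 159, 2563), (.hz 19 111, 241), (.hz 14 191, 3393), (.hz 17 319, 607), (.hz 14 447, 4445)])
(.lp [[6], [0, 2, 4, 7, 9], [1, 3, 5, 8, 10]] [(.mj 3 4, 7), (.mj 10 6, 2), (.hz 17 31, 116), (.hz 18 79, 364), (.hz 17 159, 2711), (.hz 19 111, 250), (.hz 14 191, 3707), (.hz 17 319, 695), (.hz 14 447, 4891)])
.fin))
(.lp [[6], [1, 3, 5, 8], [0, 2, 4, 7, 9]] [(.mj 3 4, 3), (.mj 7 6, 1), (.hz 18 79, 157), (.hz 19 111, 108)])))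
(.lp [[6], [1, 3, 5, 8], [0, 2, 4, 7, 9]] [(.mj 3 4, 1), (.mj 8 6, 1), (.hz 19 47, 492), (.hz 18 79, 287), (.hz 17 159, 724), (.hz 18 111, 338), (.hz 14 191, 596)]))
(.lp [[6], [1, 3, 5, 8], [0, 2, 4, 7, 9]] [(.mj 0 1, 15505), (.mj 8 6, 1663), (.rw 6, 1), (.hz 18 15, 1189913), (.hz 13 79, 2909479), (.hz 17 159, 2291394), (.hz 13 111, 1818425), (.hz 6 663, 470282), (.hz 14 191, 2805569)]))
(.ask 319
(.mark 447 [6, 9, 10]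
(.lp [[6], [0, 2, 4, 7, 9], [1, 3, 5, 8, 10]] [(.mj 3 4, 4), (.mj 7 8, 1), (.hz 17 15, 1555), (.hz 14 191, 473), (.hz 16 319, 969), (.hz 14 1471, 518)]))
(.lp [[6], [1, 3, 5, 8], [0, 2, 4, 7, 9]] [(.mj 3 4, 36), (.mj 7 8, 1), (.hz 17 15, 10105), (.hz 14 191, 16824)])))
(.lp [[6], [1, 3, 5, 8], [0, 2, 4, 7, 9]] [(.mj 3 4, 9), (.mj 9 6, 4), (.mj 9 8, 2), (.hz 13 79, 1809), (.hz 13 111, 1131), (.hz 14 191, 7966), (.hz 16 319, 2927), (.hz 15 319, 599), (.hz 14 703, 4124)])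
.fin))
(.ref 0))
(.lp [[6], [0, 2, 4, 7], [1, 3, 5, 8]] [(.mj 3 4, 56), (.mj 7 8, 11), (.hz 16 15, 3197), (.hz 16 47, 3475), (.hz 16 63, 3615), (.hz 14 191, 8556)]))
(.lp [[6], [0, 2, 4, 7], [1, 3, 5, 8]] [(.mj 0 1, 3255), (.mj 7 8, 255), (.rw 6, 1), (.hz 15 23, 29773), (.hz 15 63, 744318)]))
(.cut 6 [(0, 1), (1, 1), (2, 1), (3, 1), (5, 1), (7, 1), (11, 1), (21, 1), (15, 1), (23, 1), (31, 1), (47, 1), (151, 1), (63, 1)]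
(.lp [[6], [0, 2, 4, 7], [1, 3, 5, 8]] [(.mj 3 4, 33236), (.mj 7 8, 4982), (.hz 14 15, 4349935), (.hz 14 47, 4833261), (.hz 14 63, 3532122), (.hz 14 159, 4617499), (.hz 14 191, 11832380), (.rw 7, 8)])))
(.ask 319
(.mark 319 [6, 7, 9]
(.spn
(.lp [[6], [0, 2, 4, 7], [1, 3, 5, 8, 9]] [(.mj 8 6, 624), (.rw 7, 1)])
(.ask 151
(.mark 159 [5, 6, 10]
(.cut 6 [(0, 1), (1, 1), (2, 1), (3, 1), (5, 1), (7, 1), (11, 1), (21, 1), (15, 1), (23, 1), (31, 1), (151, 1), (1175, 1)]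
(.lp [[6], [0, 2, 4, 7, 10], [1, 3, 5, 8, 9]] [(.mj 0 1, 267846), (.mj 8 7, 18246), (.rw 7, 14), (.hz 6 1175, 6062504), (.hz 12 127, 70210814), (.hz 10 1183, 40057627), (.rw 8, 10)])))
(.cut 6 [(0, 1), (1, 1), (2, 1), (3, 1), (5, 1), (7, 1), (11, 1), (21, 1), (15, 1), (23, 1), (31, 1), (151, 1)]
(.lp [[6], [0, 2, 4, 7], [1, 3, 5, 8, 9]] [(.mj 0 1, 60144), (.mj 8 7, 2974), (.rw 7, 2), (.hz 12 127, 9857187), (.rw 8, 2)])))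
(.haz 7 63 1 8
(.haz 7 31 3 20
(.lp [[6], [0, 2, 4, 7], [1, 3, 5, 8, 9]] [(.mj 0 1, 100068), (.mj 9 7, 14897), (.rw 7, 1), (.hz 15 31, 2759223), (.hz 15 63, 6005368), (.hz 15 95, 9419800), (.hz 15 127, 3179108), (.hz 15 319, 7065138), (.hz 10 223, 58045349)])
(.lp [[6], [0, 2, 4, 7], [1, 3, 5, 8, 9]] [(.mj 0 1, 22), (.hz 15 23, 322), (.hz 15 31, 174)]))
(.lp [[6], [0, 2, 4, 7], [1, 3, 5, 8, 9]] [(.mj 0 1, 2), (.hz 14 23, 72), (.hz 14 31, 38)]))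
.fin))
(.lp [[6], [0, 2, 4, 7], [1, 3, 5, 8]] [(.mj 8 7, 1), (.rw 6, 1)]))
.fin))
(.spn
(.lp [[6], [1, 3, 5], [0, 2, 4, 7]] [(.mj 0 1, 45), (.mj 5 6, 29), (.mj 6 7, 19), (.hz 6 151, 562), (.hz 10 159, 4095), (.hz 12 127, 33688)])
(.cut 6 [(0, 1), (1, 1), (2, 1), (3, 1), (5, 1), (7, 1), (11, 1), (21, 1), (15, 1), (23, 1), (31, 1), (47, 1), (151, 1), (63, 1)]
(.lp [[6], [1, 3, 5], [0, 2, 4, 7]] [(.mj 3 4, 1090), (.mj 5 7, 2066), (.mj 7 6, 1299), (.hz 13 79, 230436), (.hz 13 111, 144023), (.rw 7, 1)]))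
.fin
.fin))
(.lp [[6], [1, 3, 5], [0, 2, 4, 7]] [(.mj 0 1, 8), (.hz 13 7, 407)]))
(.lp [[6], [1, 3, 5], [0, 2, 4, 7]] [(.mj 0 1, 1), (.hz 12 23, 34), (.hz 12 31, 18)]))
(.lp [[6], [1, 3, 5], [0, 2, 4, 7]] [(.mj 0 1, 1), (.hz 11 7, 20)]))
(.lp [[6], [1, 3, 5], [0, 2, 4, 7]] [(.mj 5 6, 1), (.mj 5 7, 1), (.hz 10 15, 681), (.hz 10 31, 1226)]))
(.con 6 5)
(.cut 6 [(0, 1), (1, 1), (2, 1), (3, 1), (5, 1), (7, 1), (11, 1), (21, 1), (15, 1), (23, 1), (31, 1), (151, 1)]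
(.lp [[6], [1, 3, 5], [0, 2, 4, 7]] [(.mj 3 4, 9321), (.mj 5 6, 3212), (.mj 7 5, 3073), (.mj 7 6, 1330), (.hz 5 79, 414655), (.hz 5 111, 511381), (.rw 6, 2)]))
.fin))
(.ask 31
(.mark 31 [5, 6, 7]
(.spn
(.lp [[6], [1, 3, 5], [0, 2, 4, 7]] [(.mj 0 1, 2725), (.mj 5 7, 65)])
(.con 6 5)
(.ask 159
(.mark 159 [5, 6, 8]
(.spn
(.haz 6 31 3 20
(.ask 415
(.mark 415 [5, 6, 9]
(.lp [[6], [1, 3, 5], [0, 2, 4, 7, 8, 9]] [(.mj 5 6, 27), (.mj 5 8, 14), (.mj 7 5, 36), (.hz 10 63, 31229), (.hz 10 191, 1139), (.hz 10 415, 16586), (.hz 10 927, 7592)]))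
(.lp [[6], [1, 3, 5], [0, 2, 4, 7, 8]] [(.mj 5 6, 3), (.mj 7 5, 5), (.hz 10 63, 4753), (.hz 10 191, 838)]))
(.haz 5 223 9 40
(.haz 4 111 11 20
(.haz 5 95 7 40
(.ask 79
(.mark 223 [5, 8, 9]
(.cut 6 [(0, 1), (1, 1), (2, 1), (3, 1), (5, 1), (7, 1), (11, 1), (21, 1), (15, 1), (23, 1), (31, 1), (47, 1), (63, 1), (159, 1)]
(.lp [[5], [1, 3, 6, 9], [0, 2, 4, 7, 8]] [(.mj 3 4, 37144), (.mj 5 8, 2576), (.mj 7 5, 10594), (.hz 10 15, 3061280), (.hz 13 95, 1343259), (.hz 5 591, 277215), (.hz 13 607, 2667325), (.hz 11 735, 2452582), (.rw 7, 1)])))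
(.lp [[6], [1, 3, 5], [0, 2, 4, 7, 8]] [(.mj 3 4, 17449), (.mj 7 5, 3593), (.rw 6, 1), (.hz 10 31, 1118555), (.hz 12 111, 2025730)]))
(.lp [[6], [1, 3, 5], [0, 2, 4, 7, 8]] [(.mj 3 4, 4177), (.rw 6, 1), (.hz 10 15, 240269), (.hz 13 31, 338561), (.hz 12 111, 436852)]))
(.lp [[6], [1, 3, 5], [0, 2, 4, 7, 8]] [(.mj 7 5, 2), (.hz 12 15, 654), (.hz 10 15, 560)]))
(.lp [[6], [1, 3, 5], [0, 2, 4, 7, 8]] [(.mj 3 4, 1169), (.mj 5 8, 195), (.rw 6, 1), (.hz 10 15, 64536), (.hz 11 79, 21294), (.hz 11 159, 244237), (.hz 5 111, 27477)])))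
(.con 6 5)
(.haz 6 31 3 20
(.lp [[6], [1, 3, 5], [0, 2, 4, 7, 8]] [(.mj 3 4, 145), (.mj 5 6, 91), (.mj 8 5, 45), (.mj 8 6, 12), (.hz 10 31, 21305), (.hz 10 63, 25065), (.hz 10 159, 25065), (.hz 10 415, 25576)])
(.cut 5 [(0, 1), (1, 1), (2, 1), (3, 1), (5, 1), (7, 1), (11, 1), (21, 1), (15, 1), (23, 1), (31, 1)]
(.lp [[6], [1, 3, 5], [0, 2, 4, 7, 8]] [(.mj 3 4, 8062), (.mj 8 5, 1443), (.hz 10 15, 599879), (.hz 5 111, 331222), (.rw 7, 1)])))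
.fin))
(.lp [[6], [1, 3, 5], [0, 2, 4, 7]] [(.rw 5, 1)]))
.fin))
(.lp [[6], [0, 2, 4], [1, 3, 5]] [(.mj 0 1, 1)])))

theorem run163 : run P3488 (leaf3 218 625) (cutRow P3488) [s162] t163 s163 = true := by
  decide +kernel

theorem bad163 : Bad P3488 s163 :=
  run_sound (leaf3_sound P3488 rfl rfl) (cutRow_sound P3488) (
    List.forall_mem_cons.2 ⟨bad162, fun _ h => absurd h List.not_mem_nil⟩) t163 s163 run163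

/-- the state above piece 99 of the tree -/
def s99 : St := ⟨[0, 0, 1, 3, 5, 5, 15, 23, 79], [31, 21, 15, 11, 7, 3, 2, 1, 0], [0, 1, 2, 3, 4, 6],
  [],
  [⟨true, 2, 3, 3, 10⟩, ⟨true, 1, 5, 2, 5⟩, ⟨true, 2, 3, 23, 50⟩, ⟨true, 1, 5, 12, 25⟩, ⟨true, 2, 11, 12, 25⟩, ⟨true, 5, 31, 3, 50⟩, ⟨true, 3, 39, 21, 50⟩, ⟨true, 4, 79, 1, 10⟩, ⟨true, 4, 79, 3, 20⟩, ⟨true, 4, 79, 1, 5⟩],
  [.spn 0 0 651200, .spn 1 1 302400, .spn 3 2 302400, .spn 7 3 140426, .spn 15 4 140426, .spn 31 6 140426]⟩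

/-- piece 99 of the tree -/
noncomputable def t99 : WN.Tree :=
(.mark 95 [5, 7, 8]
(.spn
(.haz 4 39 1 4
(.haz 5 351 3 25
(.haz 8 223 9 50
(.haz 5 223 3 25
(.haz 8 223 8 25
(.haz 5 335 2 25
(.haz 7 31 3 10
(.lp [[5], [0, 2, 4, 7], [1, 3, 6, 8]] [(.mj 4 6, 4237), (.mj 5 7, 5418), (.mj 5 8, 665), (.mj 6 5, 5418), (.rw 6, 1), (.hz 16 63, 8223557), (.hz 16 95, 1891455), (.hz 15 335, 805666), (.hz 16 351, 7556566)])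
(.haz 5 159 1 10
(.haz 7 351 1 5
(.haz 5 159 3 25
(.ask 151
(.mark 223 [5, 8, 9]
(.lp [[5], [1, 3, 6, 8], [0, 2, 4, 7, 9]] [(.mj 3 4, 11), (.mj 4 6, 5), (.mj 5 7, 1), (.mj 5 8, 9), (.mj 6 5, 14), (.hz 16 23, 1040), (.hz 19 159, 6894), (.hz 14 223, 1636), (.hz 18 351, 5524), (.hz 19 671, 16031), (.hz 14 735, 10146)]))
(.maj 7 8
(.haz 8 127 3 10
(.lp [[5], [0, 2, 4, 7], [1, 3, 6, 8]] [(.mj 4 6, 8), (.mj 5 7, 19), (.mj 6 5, 23), (.mj 7 8, 15), (.hz 16 31, 369), (.hz 19 159, 9220), (.hz 20 127, 57582), (.hz 14 223, 1091), (.hz 11 351, 2314), (.hz 18 351, 39071)])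
(.lp [[5], [0, 2, 4, 7], [1, 3, 6, 8]] [(.mj 5 7, 2), (.mj 6 5, 4), (.hz 20 79, 966), (.hz 20 95, 3129), (.hz 19 159, 3656), (.hz 15 335, 11), (.hz 14 223, 872)]))
(.lp [[5], [0, 2, 4, 7], [1, 3, 6, 8]] [(.mj 4 6, 46), (.mj 5 8, 46), (.mj 6 5, 107), (.mj 8 7, 47), (.hz 19 159, 106190), (.hz 13 223, 66200), (.hz 11 351, 10774), (.hz 18 351, 156213)])))
(.lp [[5], [0, 2, 4, 7], [1, 3, 6, 8]] [(.mj 4 6, 3), (.mj 5 7, 9), (.mj 5 8, 5), (.hz 19 5, 179), (.hz 19 7, 562), (.hz 19 21, 204), (.hz 19 15, 997), (.hz 19 23, 870), (.hz 19 31, 5935), (.hz 16 31, 564), (.hz 17 159, 8320), (.hz 14 223, 319), (.hz 18 351, 37330)]))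
(.lp [[5], [0, 2, 4, 7], [1, 3, 6, 8]] [(.mj 4 6, 49), (.mj 5 8, 22), (.mj 6 5, 48), (.hz 18 23, 25988), (.hz 18 31, 52066), (.hz 18 95, 42893), (.hz 17 159, 51613), (.hz 14 223, 14668), (.hz 11 351, 16910)]))
(.lp [[5], [0, 2, 4, 7], [1, 3, 6, 8]] [(.mj 3 4, 3), (.mj 5 7, 1), (.mj 5 8, 5), (.hz 17 5, 238), (.hz 17 7, 742), (.hz 17 15, 3659), (.hz 17 31, 4125), (.hz 16 31, 1817), (.hz 5 159, 833), (.hz 14 223, 3970), (.hz 11 351, 234)])))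
(.lp [[5], [0, 2, 4, 7], [1, 3, 6, 8]] [(.mj 3 4, 3), (.mj 4 6, 3), (.mj 5 7, 5), (.mj 5 8, 5), (.hz 15 5, 167), (.hz 15 7, 516), (.hz 15 15, 2732), (.hz 5 159, 242), (.hz 14 223, 654), (.hz 11 351, 1735)]))
(.lp [[5], [0, 2, 4, 7], [1, 3, 6, 8]] [(.mj 3 4, 1), (.mj 5 7, 15), (.mj 6 5, 28), (.hz 14 79, 2848), (.hz 14 95, 9179), (.hz 5 159, 668), (.hz 13 223, 23209), (.hz 12 223, 3487)]))
(.lp [[5], [0, 2, 4, 7], [1, 3, 6, 8]] [(.mj 5 7, 72), (.mj 5 8, 153), (.rw 6, 1), (.hz 13 95, 625062), (.hz 5 159, 16190), (.hz 12 223, 68673), (.hz 11 351, 19135)]))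
(.lp [[5], [0, 2, 4, 7], [1, 3, 6, 8]] [(.mj 5 7, 2), (.mj 6 5, 3), (.hz 12 79, 135), (.hz 12 95, 410), (.hz 5 159, 1275)]))
(.lp [[5], [0, 2, 4, 7], [1, 3, 6, 8]] [(.mj 5 7, 457), (.mj 5 8, 664), (.rw 6, 4), (.hz 11 95, 2671548), (.hz 5 159, 103219), (.hz 5 351, 41527)]))
(.lp [[5], [0, 2, 4, 7], [1, 3, 6, 8]] [(.mj 4 6, 1020), (.mj 5 8, 271), (.mj 6 5, 1366), (.rw 6, 1), (.hz 10 7, 1432591), (.hz 6 39, 4697), (.hz 5 159, 757320), (.hz 5 351, 97784)]))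
(.ref 0)
(.haz 6 47 2 5
(.haz 4 39 1 4
(.ask 335
(.mark 351 [5, 7, 9]
(.spn
(.lp [[5], [0, 2, 4, 7], [1, 3, 6, 8, 9]] [(.mj 3 4, 489), (.mj 4 6, 978), (.mj 5 7, 115), (.mj 8 5, 663), (.mj 8 7, 129), (.rw 7, 1), (.hz 3 37, 3622), (.hz 11 39, 438280), (.hz 5 159, 509443), (.hz 10 191, 5967311), (.hz 5 863, 197549)])
(.cut 5 [(0, 1), (1, 1), (2, 1), (3, 1), (5, 1), (7, 1), (11, 1), (21, 1), (15, 1), (23, 1), (31, 1), (79, 1), (95, 1), (335, 1), (351, 1)]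
(.lp [[5], [0, 2, 4, 7], [1, 3, 6, 8, 9]] [(.mj 4 6, 782), (.mj 7 5, 268), (.mj 7 9, 285), (.mj 8 5, 506), (.mj 8 7, 884), (.hz 6 183, 56267), (.rw 8, 2)]))
(.cut 5 [(0, 1), (1, 1), (2, 1), (3, 1), (5, 1), (7, 1), (11, 1), (21, 1), (15, 1), (23, 1), (31, 1), (79, 1), (95, 1), (335, 1), (351, 1)]
(.lp [[5], [0, 2, 4, 7], [1, 3, 6, 8, 9]] [(.mj 4 6, 2250), (.mj 9 5, 1406), (.mj 9 7, 1406), (.hz 6 183, 182748), (.hz 10 191, 4711505), (.rw 8, 4)]))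
.fin))
(.ask 351
(.mark 351 [5, 7, 9]
(.spn
(.haz 7 351 1 8
(.lp [[5], [0, 2, 4, 7], [1, 3, 6, 8, 9]] [(.mj 3 4, 7), (.mj 4 6, 14), (.mj 5 7, 29), (.mj 5 9, 18), (.mj 8 5, 34), (.hz 3 37, 92), (.hz 11 39, 11164), (.hz 5 159, 7443), (.hz 12 351, 3190), (.hz 12 383, 94117), (.hz 12 863, 106768)])
(.lp [[5], [0, 2, 4, 7], [1, 3, 6, 8, 9]] [(.mj 4 6, 800), (.mj 8 5, 402), (.rw 7, 1), (.hz 12 23, 131887), (.hz 12 31, 315586), (.hz 12 95, 168312)]))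
(.cut 5 [(0, 1), (1, 1), (2, 1), (3, 1), (5, 1), (7, 1), (11, 1), (21, 1), (15, 1), (23, 1), (31, 1), (79, 1), (151, 1), (95, 1), (159, 1), (335, 1), (223, 1), (351, 1)]
(.cut 5 [(0, 1), (1, 1), (2, 1), (3, 1), (5, 1), (7, 1), (11, 1), (21, 1), (15, 1), (23, 1), (31, 1), (79, 1), (95, 1), (335, 1)]
(.lp [[5], [0, 2, 4, 7], [1, 3, 6, 8, 9]] [(.mj 4 6, 695907), (.mj 7 5, 378521), (.mj 8 7, 552808), (.rw 7, 303), (.hz 6 183, 24020536), (.hz 5 223, 262426046), (.hz 5 863, 48505417), (.rw 8, 109), (.rw 9, 1099)])))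
(.ask 151
(.mark 159 [5, 6, 10]
(.cut 5 [(0, 1), (1, 1), (2, 1), (3, 1), (5, 1), (7, 1), (11, 1), (21, 1), (15, 1), (23, 1), (31, 1), (79, 1), (151, 1), (95, 1), (159, 1), (335, 1), (351, 1)]
(.lp [[5], [0, 2, 4, 7, 10], [1, 3, 6, 8, 9]] [(.mj 3 4, 27453), (.mj 4 6, 48668), (.mj 9 5, 29895), (.mj 9 7, 8681), (.rw 7, 1), (.hz 5 1183, 6500126), (.hz 10 1215, 164423343), (.rw 8, 97)])))
(.cut 5 [(0, 1), (1, 1), (2, 1), (3, 1), (5, 1), (7, 1), (11, 1), (21, 1), (15, 1), (23, 1), (31, 1), (79, 1), (151, 1), (95, 1), (159, 2), (335, 1), (223, 1), (351, 1)]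
(.cut 5 [(0, 1), (1, 1), (2, 1), (3, 1), (5, 1), (7, 1), (11, 1), (21, 1), (15, 1), (23, 1), (31, 1), (79, 1), (95, 1), (335, 1), (351, 1)]
(.cut 7 [(0, 1), (1, 1), (2, 1), (3, 1), (5, 1), (7, 1), (11, 1), (21, 1), (37, 1), (15, 1), (23, 1), (39, 1), (53, 1), (31, 1), (47, 1), (55, 1), (79, 1), (63, 1), (95, 1), (111, 1), (335, 1), (127, 1), (367, 1)]
(.cut 5 [(0, 1), (1, 1), (2, 1), (3, 1), (5, 1), (7, 1), (11, 1), (21, 1), (15, 1), (23, 1), (31, 1), (79, 1), (151, 1), (335, 1)]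
(.cut 5 [(0, 1), (1, 1), (2, 1), (3, 1), (5, 1), (7, 1), (11, 1), (21, 1), (15, 1), (23, 1), (31, 1), (79, 1), (151, 1), (95, 1)]
(.lp [[5], [0, 2, 4, 7], [1, 3, 6, 8, 9]] [(.mj 4 6, 404775), (.mj 9 5, 536936), (.mj 9 7, 177964), (.rw 7, 22), (.hz 10 191, 2140547255), (.hz 5 479, 156010997), (.rw 8, 47), (.rw 9, 398), (.rw 10, 224), (.rw 11, 343), (.rw 12, 961)])))))))
.fin))
(.lp [[5], [0, 2, 4, 7], [1, 3, 6, 8]] [(.mj 8 5, 1), (.mj 8 7, 1), (.hz 5 159, 475), (.hz 5 223, 846)])))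
(.lp [[5], [0, 2, 4, 7], [1, 3, 6, 8]] [(.mj 4 6, 9), (.mj 8 5, 5), (.hz 11 7, 8110), (.hz 6 39, 386), (.hz 5 31, 863), (.hz 10 47, 13709), (.hz 5 95, 810), (.hz 5 223, 532), (.hz 5 351, 70)]))
(.cut 5 [(0, 1), (1, 1), (2, 1), (3, 1), (5, 1), (7, 1), (11, 1), (21, 1), (15, 1), (23, 1), (31, 1)]
(.lp [[5], [0, 2, 4, 7], [1, 3, 6, 8]] [(.mj 8 5, 2045), (.mj 8 7, 1423), (.hz 10 15, 2905283), (.hz 5 159, 825577), (.hz 5 351, 133186), (.rw 7, 2)])))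
.fin))

theorem run99 : run P3488 (leaf3 218 625) (cutRow P3488) [s98] t99 s99 = true := by
  decide +kernel

theorem bad99 : Bad P3488 s99 :=
  run_sound (leaf3_sound P3488 rfl rfl) (cutRow_sound P3488) (
    List.forall_mem_cons.2 ⟨bad98, fun _ h => absurd h List.not_mem_nil⟩) t99 s99 run99

end Pool.Agent.WN.Data
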