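import Pool.Agent.WN.CutRow
import Pool.Agent.WN.LeafRow
import Pool.Agent.Helper99.WN.ParDef
import Pool.Agent.WN.Data.D4
import Pool.Agent.WN.Data.D5
import Pool.Agent.WN.Data.D9
import Pool.Agent.WN.Data.D14
import Pool.Agent.WN.Data.D20
import Pool.Agent.WN.Data.D21

/-!
# The search tree, part 26
-/

set_option autoImplicit false

namespace Pool.Agent.WN.Data

open Pool.Agent.W3 Pool.Agent.WN Pool.Agent.Helper99.WN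

/-- the state above piece 20 of the tree -/
def s20 : St := ⟨[0, 0, 1, 1, 3, 5], [13, 9, 7, 3, 2, 1, 0], [0, 1, 2, 3],
  [],
  [⟨true, 1, 9, 7, 50⟩, ⟨true, 2, 11, 3, 50⟩, ⟨true, 2, 9, 9, 50⟩, ⟨true, 3, 3, 1, 5⟩, ⟨true, 1, 5, 13, 50⟩, ⟨true, 4, 39, 1, 10⟩, ⟨true, 2, 19, 13, 50⟩, ⟨true, 4, 39, 4, 25⟩, ⟨true, 2, 19, 17, 50⟩],
  [.spn 0 0 651200, .spn 1 1 140426, .spn 3 2 140426, .spn 7 3 62723]⟩

/-- piece 20 of the tree -/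
noncomputable def t20 : WN.Tree :=
(.ask 11
(.mark 15 [4, 5, 6]
(.spn
(.haz 5 79 3 25
(.haz 4 39 11 50
(.haz 4 79 6 25
(.haz 5 15 13 50
(.ask 19
(.mark 31 [5, 6, 7]
(.lp [[3, 6], [0, 2, 5], [1, 4, 7]] [(.mj 2 3, 11), (.mj 3 4, 10), (.mj 4 5, 10), (.hz 4 37, 50), (.hz 12 15, 558), (.hz 10 39, 402), (.hz 3 147, 3945), (.hz 11 79, 87), (.hz 12 79, 1555), (.hz 12 159, 56)]))
(.ask 27
(.mark 31 [5, 6, 7]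
(.lp [[3, 6], [0, 2, 5], [1, 4, 7]] [(.mj 2 3, 8), (.mj 3 4, 1), (.mj 3 5, 3), (.mj 4 5, 2)]))
(.ask 37
(.mark 47 [4, 6, 7]
(.lp [[1, 4], [3, 6], [0, 2, 5, 7]] [(.mj 2 3, 15), (.mj 3 4, 14), (.mj 4 5, 11), (.hz 12 15, 556), (.hz 10 39, 106), (.hz 4 165, 153), (.hz 12 31, 385), (.hz 11 79, 872), (.hz 12 79, 1399), (.hz 10 167, 1314)]))
(.ask 39
(.mark 39 [3, 4, 7]
(.lp [[1, 4], [3, 6], [0, 2, 5, 7]] [(.mj 2 3, 15), (.mj 3 4, 13), (.mj 4 5, 8), (.hz 10 39, 355), (.hz 12 31, 183), (.hz 11 79, 1144), (.hz 12 79, 1143), (.hz 3 167, 699), (.hz 10 167, 763)]))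
(.lp [[1, 4], [3, 6], [0, 2, 5]] [(.mj 1 2, 1), (.mj 2 3, 5), (.mj 3 4, 4), (.mj 4 5, 2), (.hz 3 19, 30), (.hz 10 39, 122), (.hz 11 79, 312), (.hz 12 79, 249)])))))
(.lp [[1, 4], [3, 6], [0, 2, 5]] [(.mj 2 3, 70), (.mj 3 4, 48), (.hz 12 5, 698), (.hz 12 7, 1625), (.hz 12 13, 455), (.hz 12 15, 2062), (.hz 3 23, 9398), (.hz 10 39, 2397), (.hz 11 79, 8167)]))
(.lp [[1, 4], [3, 6], [0, 2, 5]] [(.mj 2 3, 12), (.mj 4 5, 7), (.hz 11 3, 203), (.hz 11 7, 748), (.hz 3 19, 4802), (.hz 11 15, 579), (.hz 3 39, 5615), (.hz 9 79, 1916)]))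
(.lp [[1, 4], [3, 6], [0, 2, 5]] [(.mj 2 3, 5), (.mj 4 5, 3), (.hz 10 3, 79), (.hz 10 7, 172), (.hz 3 19, 812), (.hz 3 39, 2661), (.hz 9 79, 868)]))
(.lp [[1, 4], [3, 6], [0, 2, 5]] [(.mj 2 3, 4), (.mj 3 4, 2), (.hz 9 5, 94), (.hz 9 7, 172), (.hz 3 19, 1163), (.hz 9 15, 120)]))
(.haz 4 75 1 10
(.haz 3 19 6 25
(.ask 37
(.mark 39 [3, 4, 7]
(.lp [[1, 4], [3, 6], [0, 2, 5, 7]] [(.mj 1 2, 14), (.mj 2 3, 11), (.mj 3 5, 2), (.mj 5 4, 6), (.hz 8 19, 84), (.hz 10 19, 940), (.hz 10 23, 1008), (.hz 3 39, 561), (.hz 7 39, 9), (.hz 9 75, 1096), (.hz 9 79, 4019), (.hz 3 167, 3083)]))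
(.ask 45
(.mark 47 [4, 6, 7]
(.lp [[1, 4], [3, 6], [0, 2, 5, 7]] [(.mj 1 2, 5), (.mj 2 3, 6), (.mj 3 5, 1), (.mj 5 4, 3), (.hz 10 19, 586), (.hz 10 23, 344), (.hz 9 75, 742), (.hz 9 79, 413), (.hz 7 111, 724)]))
(.ask 39
(.mark 47 [4, 6, 7]
(.spn
(.haz 4 75 7 50
(.ask 19
(.mark 23 [3, 5, 8]
(.lp [[3, 6], [1, 4, 8], [0, 2, 5, 7]] [(.mj 1 2, 7814), (.mj 2 3, 5985), (.mj 3 5, 3041), (.mj 5 4, 4188), (.rw 5, 1), (.hz 7 39, 180369), (.hz 11 75, 339551), (.hz 10 275, 672401), (.hz 11 79, 950181), (.hz 10 279, 748718), (.hz 7 167, 10313)]))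
(.ask 23
(.mark 23 [3, 5, 8]
(.lp [[3, 6], [1, 4, 8], [0, 2, 5, 7]] [(.mj 1 2, 5776), (.mj 2 3, 4407), (.mj 3 5, 2238), (.mj 5 4, 3121), (.rw 5, 1), (.hz 7 39, 144614), (.hz 11 75, 254481), (.hz 11 79, 705450), (.hz 10 279, 562947), (.hz 8 91, 5166)]))
(.lp [[1, 4], [3, 6], [0, 2, 5, 7]] [(.mj 1 2, 15), (.mj 2 3, 30), (.mj 3 5, 16), (.mj 5 4, 5), (.hz 7 167, 35)])))
(.lp [[1, 4], [3, 6], [0, 2, 5, 7]] [(.mj 1 2, 6), (.mj 2 3, 4), (.mj 3 5, 2), (.mj 5 6, 1), (.hz 11 3, 279), (.hz 10 23, 124), (.hz 9 75, 1141), (.hz 9 79, 1010), (.hz 7 167, 225)]))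
(.lp [[1, 4], [3, 6], [0, 2, 5, 7]] [(.mj 1 2, 8), (.mj 2 3, 6), (.mj 6 4, 3), (.hz 8 19, 52), (.hz 10 19, 536), (.hz 10 23, 594), (.hz 7 39, 133), (.hz 7 47, 1491), (.hz 3 167, 1884), (.hz 7 167, 636), (.hz 10 183, 1412)])
(.lp [[1, 4], [3, 6], [0, 2, 5, 7]] [(.mj 1 2, 20), (.mj 2 3, 28), (.mj 3 5, 10), (.mj 7 4, 13), (.hz 10 19, 2598), (.hz 10 23, 1824), (.hz 7 39, 3397), (.hz 9 75, 3290), (.hz 7 47, 984), (.hz 9 79, 8724), (.hz 10 55, 3775)])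
.fin))
(.lp [[1, 4], [3, 6], [0, 2, 5]] [(.mj 1 2, 11), (.mj 2 3, 8), (.mj 5 4, 5), (.hz 10 19, 724), (.hz 10 23, 1193), (.hz 9 75, 916), (.hz 9 79, 1979)]))))
(.lp [[1, 4], [3, 6], [0, 2, 5]] [(.mj 1 2, 25), (.mj 3 5, 8), (.mj 5 4, 17), (.hz 10 3, 1903), (.hz 8 19, 322), (.hz 3 19, 6934), (.hz 3 23, 13463), (.hz 7 39, 1047), (.hz 9 75, 3852), (.hz 9 79, 11760)]))
(.lp [[1, 4], [3, 6], [0, 2, 5]] [(.mj 1 2, 13), (.mj 2 3, 10), (.mj 3 5, 5), (.mj 5 6, 3), (.hz 9 3, 3113), (.hz 3 19, 2413), (.hz 7 39, 639)]))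
(.lp [[1, 4], [3, 6], [0, 2, 5]] [(.mj 1 2, 8), (.mj 2 3, 14), (.mj 6 4, 6), (.mj 6 5, 3), (.hz 3 19, 6898), (.hz 3 23, 4831), (.hz 3 39, 6552), (.hz 7 39, 968), (.hz 7 47, 3572)])
.fin))
(.haz 4 39 1 5
(.ask 15
(.mark 15 [4, 5, 6]
(.spn
(.haz 5 79 2 25
(.haz 5 79 3 25
(.haz 3 19 11 50
(.haz 5 79 7 50
(.haz 4 79 6 25
(.ask 19
(.mark 31 [5, 6, 7]
(.spn
(.haz 3 39 7 25
(.haz 4 39 13 50
(.haz 3 39 17 50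
(.haz 5 79 9 50
(.haz 3 23 19 50
(.haz 5 15 6 25
(.ask 37
(.mark 47 [4, 6, 8]
(.lp [[3, 6], [1, 4, 7], [0, 2, 5, 8]] [(.mj 2 3, 42), (.mj 3 4, 24), (.mj 4 5, 26), (.hz 20 15, 4314), (.hz 16 39, 516), (.hz 12 147, 937), (.hz 4 293, 298), (.hz 14 79, 103), (.hz 20 79, 5136), (.hz 19 151, 1356), (.hz 17 295, 239), (.hz 16 295, 1509)]))
(.lp [[3, 6], [0, 2, 5], [1, 4, 7]] [(.mj 2 3, 165), (.mj 3 4, 53), (.mj 4 5, 58), (.hz 19 23, 2408), (.hz 17 39, 5039), (.hz 16 39, 827), (.hz 12 147, 4972), (.hz 20 79, 11623), (.hz 19 151, 4788)]))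
(.lp [[3, 6], [0, 2, 5], [1, 4, 7]] [(.mj 2 3, 17), (.mj 3 4, 4), (.hz 20 5, 242), (.hz 20 7, 1005), (.hz 12 147, 401), (.hz 14 79, 541), (.hz 19 55, 252), (.hz 19 151, 969)]))
(.lp [[3, 6], [0, 2, 5], [1, 4, 7]] [(.mj 3 4, 73), (.mj 4 5, 42), (.hz 19 7, 5260), (.hz 19 23, 2291), (.hz 17 39, 3497), (.hz 16 39, 2785), (.hz 12 147, 148), (.hz 18 79, 4186)]))
(.lp [[3, 6], [0, 2, 5], [1, 4, 7]] [(.mj 2 3, 23), (.mj 3 4, 6), (.mj 5 6, 1), (.hz 18 5, 166), (.hz 18 7, 536), (.hz 12 19, 625), (.hz 18 13, 18), (.hz 18 15, 121), (.hz 12 147, 1294), (.hz 14 79, 354)]))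
(.lp [[3, 6], [0, 2, 5], [1, 4, 7]] [(.mj 2 3, 3), (.mj 3 4, 13), (.mj 4 5, 9), (.hz 17 7, 1067), (.hz 15 39, 1535), (.hz 16 39, 542), (.hz 13 79, 1192)]))
(.lp [[3, 6], [0, 2, 5], [1, 4, 7]] [(.mj 2 3, 50), (.mj 4 5, 31), (.mj 5 6, 6), (.hz 16 3, 268), (.hz 16 7, 2421), (.hz 15 39, 4839), (.hz 12 147, 2589), (.hz 14 79, 2634), (.hz 13 79, 3115)]))
(.lp [[3, 6], [0, 2, 5], [1, 4, 7]] [(.mj 2 3, 2), (.mj 3 4, 10), (.mj 4 5, 7), (.hz 15 7, 1786), (.hz 3 39, 7523), (.hz 9 39, 4111)]))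
(.haz 5 15 11 50
(.lp [[3, 6], [0, 2, 5], [1, 4, 7]] [(.mj 2 3, 15), (.mj 3 4, 4), (.mj 6 5, 9), (.hz 4 37, 41), (.hz 15 15, 1031), (.hz 9 39, 3613), (.hz 12 147, 798), (.hz 15 31, 2559), (.hz 12 151, 1535), (.hz 15 159, 4242)])
(.lp [[3, 6], [0, 2, 5], [1, 4, 7]] [(.mj 2 3, 46), (.mj 3 4, 11), (.mj 6 5, 1), (.hz 15 5, 310), (.hz 15 7, 1016), (.hz 12 19, 955), (.hz 12 147, 2845), (.hz 14 79, 702), (.hz 12 55, 501), (.hz 12 151, 351)]))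
(.lp [[3, 6], [0, 2, 5], [1, 4, 7]] [(.mj 2 3, 15), (.mj 3 4, 17), (.mj 7 5, 12), (.mj 7 6, 4), (.hz 4 37, 253), (.hz 3 39, 2612), (.hz 9 39, 19864), (.hz 14 79, 2194), (.hz 13 79, 1924), (.hz 12 55, 1939), (.hz 13 95, 5907)])
.fin))
(.ask 27
(.mark 31 [5, 6, 7]
(.spn
(.haz 5 15 1 4
(.lp [[3, 6], [0, 2, 5], [1, 4, 7]] [(.mj 2 3, 11), (.mj 3 4, 5), (.mj 4 5, 9), (.hz 15 15, 7411), (.hz 15 79, 16210)])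
(.lp [[3, 6], [0, 2, 5], [1, 4, 7]] [(.mj 1 2, 7), (.mj 2 3, 9), (.mj 3 4, 3), (.mj 5 6, 1), (.hz 15 7, 4641), (.hz 13 79, 137)]))
(.lp [[3, 6], [0, 2, 5], [1, 4, 7]] [(.mj 1 2, 1), (.mj 2 3, 3), (.mj 6 5, 1), (.hz 3 39, 1452), (.hz 13 79, 10), (.hz 12 55, 200)])
(.lp [[3, 6], [0, 2, 5], [1, 4, 7]] [(.mj 1 2, 3), (.mj 2 3, 9), (.mj 3 4, 1), (.mj 7 5, 4), (.mj 7 6, 1), (.hz 3 39, 3895), (.hz 14 79, 18)])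
.fin))
(.ref 0)))
(.lp [[1, 4], [3, 6], [0, 2, 5]] [(.mj 2 3, 244), (.mj 4 5, 1269), (.mj 4 6, 1005), (.hz 14 3, 57807), (.hz 14 7, 104966), (.hz 14 11, 64842), (.hz 14 15, 289264), (.hz 13 79, 315341)]))
(.lp [[1, 4], [3, 6], [0, 2, 5]] [(.mj 2 3, 604), (.mj 3 4, 494), (.mj 4 6, 181), (.hz 13 5, 6494), (.hz 13 7, 14789), (.hz 13 13, 5263), (.hz 13 15, 22200), (.hz 9 39, 247219), (.hz 11 79, 67960)]))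
(.lp [[1, 4], [3, 6], [0, 2, 5]] [(.mj 1 2, 2), (.mj 3 4, 60), (.mj 4 5, 31), (.hz 12 3, 5022), (.hz 3 19, 23900), (.hz 3 39, 27195), (.hz 9 39, 29897), (.hz 11 79, 6181)]))
(.lp [[1, 4], [3, 6], [0, 2, 5]] [(.mj 2 3, 28), (.mj 3 4, 23), (.mj 4 6, 9), (.hz 11 5, 607), (.hz 11 7, 1376), (.hz 11 13, 490), (.hz 11 15, 2047), (.hz 9 39, 11644), (.hz 10 79, 3338)]))
(.lp [[1, 4], [3, 6], [0, 2, 5]] [(.mj 2 3, 12), (.mj 3 4, 10), (.mj 4 6, 4), (.hz 10 5, 476), (.hz 10 7, 368), (.hz 10 15, 836), (.hz 9 39, 4949)]))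
(.haz 4 15 4 25
(.lp [[1, 4], [3, 6], [0, 2, 5]] [(.mj 1 2, 13), (.mj 2 3, 1), (.mj 5 4, 6), (.hz 8 19, 110), (.hz 10 15, 936), (.hz 3 39, 1380), (.hz 10 79, 1173)])
(.lp [[1, 4], [3, 6], [0, 2, 5]] [(.mj 1 2, 96), (.mj 2 3, 23), (.hz 10 3, 2497), (.hz 10 7, 1357), (.hz 10 11, 779)]))
(.ask 19
(.mark 31 [5, 6, 7]
(.lp [[3, 6], [0, 2, 5], [1, 4, 7]] [(.mj 1 2, 5600), (.mj 2 3, 7133), (.mj 6 4, 822), (.rw 4, 1), (.hz 3 19, 5541430), (.hz 3 39, 3252639), (.hz 9 39, 136105), (.hz 9 47, 1541601)]))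
(.lp [[1, 4], [3, 6], [0, 2, 5]] [(.mj 1 2, 25), (.mj 2 3, 16), (.mj 6 4, 8), (.hz 3 19, 5124), (.hz 3 23, 8041), (.hz 3 39, 7883), (.hz 9 39, 4020), (.hz 9 47, 15077)]))
.fin))
(.spn
(.ask 37
(.mark 39 [3, 4, 6]
(.lp [[3], [1, 4], [0, 2, 5, 6]] [(.mj 1 2, 209), (.mj 2 3, 332), (.mj 3 4, 348), (.mj 4 5, 108), (.hz 9 39, 165484), (.hz 4 101, 1487), (.hz 3 103, 29950), (.hz 9 103, 217469)]))
(.ask 39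
(.mark 39 [3, 4, 6]
(.lp [[3], [1, 4], [0, 2, 5, 6]] [(.mj 2 3, 25), (.mj 3 4, 21), (.mj 4 5, 12), (.hz 3 39, 2264), (.hz 9 39, 8312), (.hz 9 103, 10390)]))
(.lp [[3], [1, 4], [0, 2, 5]] [(.mj 2 3, 16), (.mj 3 4, 13), (.mj 4 5, 8)])))
(.lp [[3], [1, 4], [0, 2, 5]] [(.mj 1 2, 5), (.mj 5 4, 2), (.hz 8 19, 38), (.hz 9 39, 111), (.hz 8 27, 56)])
.fin
.fin))
(.lp [[3], [1, 4], [0, 2, 5]] [(.mj 1 2, 27), (.mj 2 3, 11), (.hz 9 3, 3916), (.hz 9 7, 2995), (.hz 3 19, 921), (.hz 3 39, 6450)])))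

theorem run20 : run P3488 (leaf3 218 625) (cutRow P3488) [s19] t20 s20 = true := by
  decide +kernel

theorem bad20 : Bad P3488 s20 :=
  run_sound (leaf3_sound P3488 rfl rfl) (cutRow_sound P3488) (
    List.forall_mem_cons.2 ⟨bad19, fun _ h => absurd h List.not_mem_nil⟩) t20 s20 run20

/-- the state above piece 75 of the tree -/
def s75 : St := ⟨[0, 0, 1, 1, 2], [1, 0], [0, 1],
  [],
  [⟨true, 1, 9, 7, 50⟩, ⟨true, 2, 11, 3, 50⟩, ⟨true, 2, 9, 9, 50⟩, ⟨false, 3, 3, 1, 5⟩, ⟨true, 2, 3, 1, 4⟩, ⟨true, 1, 9, 3, 10⟩, ⟨true, 2, 9, 3, 10⟩],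
  [.spn 0 0 651200, .spn 1 1 140426]⟩

/-- piece 75 of the tree -/
noncomputable def t75 : WN.Tree :=
(.mark 3 [2, 3, 4]
(.spn
(.haz 2 9 17 50
(.ask 5
(.mark 7 [3, 4, 5]
(.spn
(.haz 5 23 6 25
(.haz 3 39 4 25
(.haz 4 39 9 50
(.haz 4 7 11 50
(.lp [[3], [1, 4], [0, 2, 5]] [(.mj 1 2, 17), (.mj 3 4, 41), (.mj 3 5, 17), (.hz 3 1, 4133), (.hz 3 3, 23494), (.hz 11 7, 159), (.hz 11 15, 1136), (.hz 9 39, 15), (.hz 11 39, 3342)])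
(.ask 9
(.mark 15 [4, 5, 6]
(.lp [[1, 4], [3, 6], [0, 2, 5]] [(.mj 1 2, 5), (.mj 3 5, 4), (.hz 3 1, 86), (.hz 11 2, 54), (.hz 3 3, 3613), (.hz 11 3, 218), (.hz 11 7, 258), (.hz 7 73, 104), (.hz 10 39, 284)]))
(.lp [[3], [1, 4], [0, 2, 5]] [(.mj 1 2, 61), (.mj 3 5, 4), (.hz 11 2, 364), (.hz 3 3, 15007), (.hz 11 3, 1216), (.hz 11 7, 950), (.hz 9 39, 2945), (.hz 10 39, 283)])))
(.lp [[3], [1, 4], [0, 2, 5]] [(.mj 1 2, 7), (.mj 3 5, 1), (.hz 3 1, 475), (.hz 10 2, 46), (.hz 3 3, 1513), (.hz 10 3, 151), (.hz 10 7, 109), (.hz 8 23, 177), (.hz 9 39, 371)]))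
(.lp [[3], [1, 4], [0, 2, 5]] [(.mj 0 1, 2), (.mj 3 4, 4), (.mj 3 5, 6), (.hz 9 1, 127), (.hz 9 3, 230), (.hz 9 5, 151), (.hz 9 7, 454), (.hz 4 19, 727), (.hz 8 23, 1264)]))
(.lp [[3], [1, 4], [0, 2, 5]] [(.mj 1 2, 6), (.mj 3 4, 17), (.hz 3 1, 1271), (.hz 3 3, 11640), (.hz 8 5, 144), (.hz 8 7, 1405)]))
(.ref 0)
(.haz 4 11 3 20
(.haz 2 9 2 5
(.ask 37
(.mark 39 [3, 4, 6]
(.lp [[3], [1, 4], [0, 2, 5, 6]] [(.mj 1 2, 109), (.mj 5 3, 3), (.mj 5 4, 64), (.hz 3 3, 12255), (.hz 9 9, 20977), (.hz 8 11, 6255), (.hz 4 19, 7675), (.hz 8 15, 17983)]))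
(.ask 39
(.mark 39 [3, 4, 6]
(.spn
(.haz 4 7 1 5
(.lp [[3], [1, 4], [0, 2, 5, 6]] [(.mj 1 2, 3), (.mj 3 4, 3), (.mj 5 3, 1), (.hz 3 3, 388), (.hz 9 9, 459), (.hz 10 7, 464), (.hz 8 11, 95), (.hz 10 15, 870), (.hz 10 39, 1076), (.hz 10 103, 1345)])
(.lp [[3], [1, 4], [0, 2, 5, 6]] [(.mj 1 2, 8265), (.rw 4, 2), (.hz 10 2, 424377), (.hz 3 3, 1174793), (.hz 10 3, 1248546), (.hz 9 9, 848754), (.hz 10 7, 693637), (.hz 9 11, 184384)]))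
(.haz 3 39 1 10
(.haz 3 7 3 20
(.lp [[3], [1, 4], [0, 2, 5, 6]] [(.mj 1 2, 2055), (.mj 4 3, 2118), (.mj 5 4, 2118), (.rw 4, 1), (.hz 11 7, 226605), (.hz 11 23, 972116), (.hz 11 39, 417664), (.hz 11 103, 264765)])
(.lp [[3], [1, 4], [0, 2, 5, 6]] [(.mj 1 2, 410437), (.mj 5 4, 217929), (.rw 4, 85), (.hz 11 3, 11111521), (.hz 9 9, 62547110), (.hz 8 11, 20430861), (.hz 8 15, 25625588), (.hz 10 39, 20664624), (.hz 10 55, 83365758)]))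
(.lp [[3], [1, 4], [0, 2, 5, 6]] [(.mj 1 2, 89414), (.mj 4 6, 9366), (.mj 5 4, 54740), (.rw 4, 8), (.hz 10 1, 74967), (.hz 10 3, 5380924), (.hz 9 9, 15859617), (.hz 9 11, 519437), (.hz 8 11, 5131886), (.hz 8 15, 16475455)]))
(.ask 103
(.mark 103 [3, 4, 7]
(.spn
(.lp [[3], [1, 4], [0, 2, 5, 6, 7]] [(.mj 1 2, 2396), (.rw 4, 1), (.rw 5, 3)])
(.lp [[3], [1, 4], [0, 2, 5, 6, 7]] [(.mj 1 2, 8694), (.mj 6 4, 2723), (.rw 4, 1), (.rw 5, 4), (.hz 9 9, 2487618), (.hz 9 11, 65464)])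
(.maj 3 4
(.cut 3 [(0, 1), (1, 1), (2, 1), (3, 1), (5, 1), (7, 1)]
(.lp [[3], [1, 4], [0, 2, 5, 6, 7]] [(.mj 0 1, 722), (.mj 1 2, 4330), (.mj 7 3, 295), (.rw 5, 1), (.hz 9 9, 133464), (.hz 8 11, 27613), (.hz 4 19, 451017), (.hz 8 15, 466989), (.hz 8 47, 295002), (.rw 6, 5)]))
(.cut 4 [(0, 1), (1, 1), (2, 1), (3, 1), (5, 1), (7, 1), (37, 1)]
(.cut 4 [(0, 1), (1, 1), (2, 1), (3, 1), (5, 1), (7, 1), (37, 1), (39, 1)]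
(.lp [[3], [1, 4], [0, 2, 5, 6, 7]] [(.mj 1 2, 11459), (.mj 7 4, 4464), (.rw 5, 1), (.hz 9 9, 2914456), (.hz 9 11, 642788), (.hz 8 11, 418499), (.hz 8 15, 1474082), (.rw 6, 5), (.rw 7, 4)]))))
.fin))
(.lp [[3], [1, 4], [0, 2, 5, 6]] [(.mj 6 4, 1), (.rw 4, 1)]))
.fin))
(.lp [[3], [1, 4], [0, 2, 5]] [(.mj 1 2, 3), (.mj 5 3, 2), (.mj 5 4, 4), (.hz 9 9, 426), (.hz 8 11, 568), (.hz 8 15, 1651)])))
(.lp [[3], [1, 4], [0, 2, 5]] [(.mj 5 3, 8), (.mj 5 4, 12), (.hz 9 1, 5487), (.hz 3 1, 1329), (.hz 7 9, 310), (.hz 7 11, 349), (.hz 8 11, 1868), (.hz 4 19, 3026), (.hz 8 15, 4495)]))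
(.cut 3 [(0, 1), (1, 1), (2, 1), (3, 1), (5, 1), (18, 1), (7, 1)]
(.lp [[3], [1, 4], [0, 2, 5]] [(.mj 1 2, 7444), (.mj 5 3, 693), (.hz 8 2, 168662), (.hz 3 3, 731183), (.hz 8 3, 381455), (.hz 7 9, 154123), (.rw 4, 1)])))
.fin))
(.ask 7
(.mark 7 [3, 4, 5]
(.spn
(.haz 5 23 3 10
(.haz 3 23 3 20
(.haz 5 23 2 5
(.ask 9
(.mark 15 [4, 5, 6]
(.lp [[1, 4], [3, 6], [0, 2, 5]] [(.mj 0 1, 472), (.mj 3 5, 175), (.hz 3 1, 29910), (.hz 3 3, 139701), (.hz 4 19, 3116), (.hz 5 73, 71258), (.hz 9 23, 26011), (.hz 10 23, 131138)]))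
(.ask 13
(.mark 15 [4, 5, 6]
(.spn
(.haz 5 15 7 20
(.lp [[1, 4], [3, 6], [0, 2, 5]] [(.mj 0 1, 2), (.mj 3 4, 3), (.mj 4 5, 4), (.hz 3 1, 739), (.hz 3 3, 1160), (.hz 11 15, 960), (.hz 10 23, 1118), (.hz 5 77, 746), (.hz 11 79, 1304)])
(.lp [[1, 4], [3, 6], [0, 2, 5]] [(.mj 3 4, 3), (.mj 4 5, 1), (.hz 3 1, 1796), (.hz 11 7, 402), (.hz 10 23, 1171)]))
(.ask 39
(.mark 47 [4, 6, 7]
(.spn
(.ask 18
(.mark 63 [6, 7, 8]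
(.lp [[3, 6], [1, 4, 8], [0, 2, 5, 7]] [(.mj 0 1, 2127), (.mj 3 5, 2041), (.mj 5 4, 378), (.rw 5, 1), (.hz 3 1, 659221), (.hz 3 3, 871697), (.hz 4 275, 553891), (.hz 10 279, 3232543)]))
(.ask 19
(.mark 63 [6, 7, 8]
(.lp [[3, 6], [1, 4, 8], [0, 2, 5, 7]] [(.mj 0 1, 3551), (.mj 3 5, 2509), (.mj 5 4, 418), (.rw 5, 1), (.hz 3 1, 916583), (.hz 3 3, 964824), (.hz 4 275, 783920), (.hz 9 279, 104523), (.hz 10 279, 3762815)]))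
(.lp [[1, 4], [3, 6], [0, 2, 5, 7]] [(.mj 3 5, 71), (.mj 5 4, 28), (.hz 3 1, 14503), (.hz 3 3, 38676), (.hz 9 23, 13071), (.hz 10 23, 53179)])))
(.haz 4 7 3 20
(.lp [[1, 4], [3, 6], [0, 2, 5, 7]] [(.mj 3 5, 3), (.mj 6 4, 4), (.hz 3 1, 2053), (.hz 11 15, 1288), (.hz 10 23, 1027), (.hz 11 39, 699), (.hz 11 47, 1380), (.hz 11 167, 376)])
(.lp [[1, 4], [3, 6], [0, 2, 5, 7]] [(.mj 3 5, 2), (.hz 3 1, 313), (.hz 11 2, 28), (.hz 3 3, 1196), (.hz 11 3, 149), (.hz 11 7, 9), (.hz 9 23, 189), (.hz 10 23, 1514)]))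
(.haz 4 11 3 20
(.lp [[1, 4], [3, 6], [0, 2, 5, 7]] [(.mj 3 5, 8), (.mj 7 4, 6), (.hz 3 1, 2139), (.hz 3 3, 955), (.hz 11 11, 674), (.hz 4 19, 1866), (.hz 11 15, 983), (.hz 10 23, 5734), (.hz 11 47, 2495), (.hz 11 79, 3090), (.hz 10 95, 12814), (.hz 11 111, 595), (.hz 11 175, 595)])
(.lp [[1, 4], [3, 6], [0, 2, 5, 7]] [(.mj 3 5, 16), (.hz 3 1, 2521), (.hz 11 2, 209), (.hz 3 3, 9458), (.hz 11 3, 1159), (.hz 9 23, 1624), (.hz 10 23, 12192), (.hz 9 55, 126)]))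
.fin))
(.lp [[1, 4], [3, 6], [0, 2, 5]] [(.mj 0 1, 8), (.mj 3 4, 4), (.mj 3 5, 1), (.hz 3 1, 926), (.hz 3 3, 7596), (.hz 9 23, 2029), (.hz 5 77, 1168)]))
(.lp [[1, 4], [3, 6], [0, 2, 5]] [(.mj 0 1, 23), (.mj 6 5, 13), (.hz 3 1, 7266), (.hz 4 19, 2316), (.hz 9 23, 323), (.hz 10 23, 16155), (.hz 9 55, 10915)])
.fin))
(.lp [[3], [1, 4], [0, 2, 5]] [(.mj 0 1, 3), (.mj 3 5, 1), (.hz 3 3, 1113), (.hz 4 19, 42), (.hz 9 23, 183), (.hz 10 23, 760)])))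
(.lp [[3], [1, 4], [0, 2, 5]] [(.mj 3 4, 1), (.hz 3 1, 161), (.hz 3 3, 854), (.hz 10 7, 634), (.hz 9 23, 167), (.hz 8 23, 192)]))
(.lp [[3], [1, 4], [0, 2, 5]] [(.mj 0 1, 4), (.mj 3 5, 1), (.hz 9 1, 65), (.hz 9 3, 13), (.hz 9 5, 77), (.hz 9 7, 105), (.hz 8 23, 421)]))
(.lp [[3], [1, 4], [0, 2, 5]] [(.mj 3 4, 4), (.hz 3 1, 597), (.hz 3 3, 2505), (.hz 8 7, 912)]))
(.haz 3 3 3 20
(.lp [[3], [1, 4], [0, 2, 5]] [(.mj 0 1, 3), (.mj 4 3, 2), (.hz 8 3, 121), (.hz 8 7, 142), (.hz 8 19, 44), (.hz 8 39, 217)])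
(.cut 3 [(0, 1), (1, 1), (2, 1), (3, 1), (5, 1), (18, 1), (7, 1)]
(.lp [[3], [1, 4], [0, 2, 5]] [(.mj 0 1, 9922), (.mj 4 5, 1946), (.hz 8 1, 364792), (.rw 4, 1)])))
(.ask 39
(.mark 39 [3, 4, 6]
(.spn
(.lp [[3], [1, 4], [0, 2, 5, 6]] [(.mj 5 3, 1180), (.rw 4, 2)])
(.ask 103
(.mark 103 [3, 4, 7]
(.cut 3 [(0, 1), (1, 1), (2, 1), (3, 1), (5, 1), (18, 1), (7, 1), (39, 1), (103, 1)]
(.lp [[3], [1, 4], [0, 2, 5, 6, 7]] [(.mj 0 1, 1753901), (.mj 4 3, 326309), (.mj 4 6, 326309), (.mj 5 4, 726776), (.rw 3, 175), (.rw 4, 1012), (.hz 5 9, 74825103), (.hz 5 13, 52377572), (.rw 5, 1156)])))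
(.cut 3 [(0, 1), (1, 1), (2, 1), (3, 1), (5, 1), (18, 1), (7, 1), (39, 1), (103, 1)]
(.lp [[3], [1, 4], [0, 2, 5, 6]] [(.mj 0 1, 1646), (.mj 4 3, 125), (.mj 4 6, 235), (.mj 5 4, 406), (.rw 3, 1), (.rw 5, 1)])))
(.ask 103
(.mark 103 [3, 4, 7]
(.spn
(.lp [[3], [1, 4], [0, 2, 5, 6, 7]] [(.mj 6 3, 274), (.rw 5, 1)])
(.lp [[3], [1, 4], [0, 2, 5, 6, 7]] [(.mj 6 4, 627), (.rw 5, 1)])
(.ask 231
(.mark 231 [3, 4, 8]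
(.spn
(.lp [[3], [1, 4], [0, 2, 5, 6, 7, 8]] [(.mj 7 3, 149), (.rw 6, 1)])
(.lp [[3], [1, 4], [0, 2, 5, 6, 7, 8]] [(.mj 7 4, 213), (.rw 6, 1)])
(.maj 3 4
(.cut 3 [(0, 1), (1, 1), (2, 1), (3, 1), (5, 1), (7, 1)]
(.cut 3 [(0, 1), (1, 1), (2, 1), (3, 1), (5, 1), (7, 1), (39, 1)]
(.cut 3 [(0, 1), (1, 1), (2, 1), (3, 1), (5, 1), (7, 1), (39, 1), (103, 1)]
(.lp [[3], [1, 4], [0, 2, 5, 6, 7, 8]] [(.mj 8 3, 4570), (.rw 7, 10), (.rw 8, 3), (.rw 9, 3)]))))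
(.cut 3 [(0, 1), (1, 1), (2, 1), (3, 1), (5, 1), (18, 1), (7, 1)]
(.cut 4 [(0, 1), (1, 1), (2, 1), (3, 1), (5, 1), (7, 1)]
(.cut 4 [(0, 1), (1, 1), (2, 1), (3, 1), (5, 1), (7, 1), (39, 1)]
(.cut 3 [(0, 1), (1, 1), (2, 1), (3, 1), (5, 1), (18, 1), (7, 1), (39, 1)]
(.cut 4 [(0, 1), (1, 1), (2, 1), (3, 1), (5, 1), (7, 1), (39, 1), (103, 1)]
(.cut 3 [(0, 1), (1, 1), (2, 1), (3, 1), (5, 1), (18, 1), (7, 1), (19, 1), (23, 1), (39, 1), (103, 1)]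
(.lp [[3], [1, 4], [0, 2, 5, 6, 7, 8]] [(.mj 0 1, 14584), (.rw 6, 2), (.hz 5 9, 729211), (.rw 7, 4), (.rw 8, 3), (.rw 9, 6), (.rw 10, 1), (.rw 11, 4), (.rw 12, 3)]))))))))
.fin))
(.lp [[3], [1, 4], [0, 2, 5, 6, 7]] [(.mj 7 4, 1), (.rw 5, 1)]))
.fin))
(.lp [[3], [1, 4], [0, 2, 5, 6]] [(.mj 6 4, 1), (.rw 4, 1)]))
.fin))
(.lp [[3], [1, 4], [0, 2, 5]] [(.mj 5 4, 1), (.rw 3, 1)]))
.fin))
(.lp [[3], [0, 2], [1, 4]] [(.mj 0 1, 1), (.hz 3 1, 183)])))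
(.lp [[3], [0, 2], [1, 4]] [(.mj 0 1, 20), (.hz 7 1, 451), (.hz 3 1, 2415), (.hz 3 3, 1610), (.hz 6 9, 805)]))
(.con 3 2)
(.lp [[3], [0, 2], [1, 4]] [(.mj 0 1, 1), (.mj 4 2, 1), (.hz 3 1, 81), (.hz 4 3, 249), (.hz 6 9, 58), (.hz 6 11, 55)])
.fin))

theorem run75 : run P3488 (leaf3 218 625) (cutRow P3488) [s64] t75 s75 = true := by
  decide +kernel

theorem bad75 : Bad P3488 s75 :=
  run_sound (leaf3_sound P3488 rfl rfl) (cutRow_sound P3488) (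
    List.forall_mem_cons.2 ⟨bad64, fun _ h => absurd h List.not_mem_nil⟩) t75 s75 run75

/-- the state above piece 43 of the tree -/
def s43 : St := ⟨[0, 0, 1, 1, 7, 7, 11, 23, 63, 159], [151, 63, 47, 55, 39, 31, 15, 13, 9, 7, 5, 3, 2, 1, 0], [0, 1, 2, 3, 4, 5, 7],
  [(3, 4)],
  [⟨true, 1, 9, 7, 50⟩, ⟨true, 2, 11, 3, 50⟩, ⟨true, 2, 9, 9, 50⟩, ⟨true, 3, 3, 1, 5⟩, ⟨true, 1, 5, 13, 50⟩, ⟨true, 2, 11, 3, 5⟩, ⟨true, 2, 9, 8, 25⟩, ⟨true, 2, 9, 17, 50⟩, ⟨true, 2, 11, 33, 50⟩, ⟨true, 4, 47, 4, 25⟩, ⟨true, 4, 79, 1, 5⟩, ⟨true, 5, 159, 7, 50⟩, ⟨true, 4, 79, 3, 10⟩, ⟨true, 3, 23, 7, 25⟩, ⟨true, 3, 23, 3, 10⟩, ⟨true, 6, 63, 2, 25⟩, ⟨true, 5, 95, 4, 25⟩, ⟨true, 4, 79, 9, 25⟩, ⟨false, 6, 15, 11, 50⟩, ⟨false, 6, 15, 1, 5⟩, ⟨true, 6, 63, 1, 10⟩, ⟨true, 2, 75, 18, 25⟩, ⟨true, 2, 75, 19, 25⟩, ⟨true, 4, 79, 21,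 50⟩, ⟨true, 4, 79, 23, 50⟩, ⟨true, 7, 95, 1, 5⟩, ⟨true, 4, 79, 12, 25⟩, ⟨true, 7, 95, 11, 50⟩, ⟨true, 7, 319, 6, 25⟩],
  [.spn 0 0 651200, .spn 1 1 140426, .spn 3 2 302400, .spn 7 3 62723, .spn 15 4 140426, .spn 31 5 62723, .spn 63 7 62723]⟩

/-- piece 43 of the tree -/
noncomputable def t43 : WN.Tree :=
(.mark 191 [6, 8, 9]
(.spn
(.haz 8 767 1 8
(.ask 75
(.mark 255 [8, 9, 10]
(.spn
(.haz 8 703 9 40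
(.haz 8 703 3 10
(.ask 671
(.mark 703 [6, 8, 11]
(.lp [[1, 5, 8], [3, 6, 10], [0, 2, 4, 7, 9, 11]] [(.mj 5 7, 30), (.mj 6 8, 45), (.mj 6 9, 3), (.mj 7 6, 47), (.mj 8 9, 9), (.hz 28 319, 5896), (.hz 31 703, 171371), (.hz 11 2719, 7141), (.hz 20 2751, 40222), (.hz 31 2751, 221164)]))
(.lp [[1, 5, 8], [3, 6, 10], [0, 2, 4, 7, 9]] [(.mj 5 7, 7), (.mj 6 8, 59), (.mj 6 9, 17), (.mj 7 6, 75), (.mj 8 9, 16), (.hz 20 319, 43491), (.hz 20 703, 15148), (.hz 31 703, 325933)]))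
(.lp [[1, 5, 8], [3, 6, 10], [0, 2, 4, 7, 9]] [(.mj 4 5, 7), (.mj 7 6, 22), (.mj 8 9, 20), (.hz 31 63, 34096), (.hz 31 191, 82149), (.hz 20 703, 169648)]))
(.lp [[1, 5, 8], [3, 6, 10], [0, 2, 4, 7, 9]] [(.mj 7 6, 2), (.mj 8 9, 2), (.hz 30 63, 795), (.hz 30 191, 1679), (.hz 20 703, 14068)]))
(.haz 8 703 1 5
(.haz 8 255 9 40
(.haz 6 319 3 20
(.lp [[1, 5, 8], [3, 6, 10], [0, 2, 4, 7, 9]] [(.mj 5 7, 72), (.mj 6 9, 41), (.mj 7 6, 73), (.mj 9 8, 57), (.hz 22 1099, 1201), (.hz 26 1103, 17261), (.hz 32 319, 162923), (.hz 27 1119, 45938), (.hz 26 1135, 6151), (.hz 31 255, 94604), (.hz 27 1151, 63747), (.hz 32 447, 44687), (.hz 30 703, 400908), (.hz 31 1279, 458022)])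
(.lp [[1, 5, 8], [3, 6, 10], [0, 2, 4, 7, 9]] [(.mj 5 7, 2), (.mj 6 9, 4), (.mj 9 8, 5), (.hz 32 11, 469), (.hz 32 31, 5749), (.hz 32 47, 4839), (.hz 32 63, 401), (.hz 26 1103, 1890), (.hz 20 319, 20250), (.hz 27 1119, 261), (.hz 31 255, 11680), (.hz 30 703, 38773)]))
(.lp [[1, 5, 8], [3, 6, 10], [0, 2, 4, 7, 9]] [(.mj 5 7, 14), (.mj 6 9, 9), (.mj 7 6, 15), (.hz 31 63, 7672), (.hz 31 191, 11300), (.hz 30 703, 90861)]))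
(.lp [[1, 5, 8], [3, 6, 10], [0, 2, 4, 7, 9]] [(.mj 5 7, 17), (.mj 6 9, 16), (.mj 7 6, 20), (.mj 9 8, 1), (.hz 30 63, 79023), (.hz 30 191, 119117), (.hz 29 767, 97866)]))
(.lp [[1, 5, 8], [3, 6, 10], [0, 2, 4, 7, 9]] [(.mj 5 7, 6), (.mj 7 6, 15), (.mj 10 8, 10), (.mj 10 9, 8), (.hz 20 319, 73014), (.hz 20 447, 64040), (.hz 20 703, 118062), (.hz 29 767, 498507)])
.fin))
(.haz 5 79 1 5
(.haz 5 95 3 10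
(.haz 8 703 3 20
(.haz 6 703 3 20
(.haz 6 447 3 20
(.ask 79
(.mark 255 [8, 9, 10]
(.spn
(.haz 8 703 3 10
(.ask 671
(.mark 703 [6, 8, 11]
(.lp [[1, 5, 8], [3, 6, 10], [0, 2, 4, 7, 9, 11]] [(.mj 5 7, 12), (.mj 6 8, 18), (.mj 7 6, 19), (.mj 8 9, 5), (.hz 28 319, 2662), (.hz 33 703, 5385), (.hz 35 703, 59150), (.hz 11 2719, 2752), (.hz 33 2751, 9193), (.hz 35 2751, 86215)]))
(.lp [[1, 5, 8], [3, 6, 10], [0, 2, 4, 7, 9]] [(.mj 6 8, 7), (.mj 7 6, 9), (.mj 8 9, 4), (.hz 33 703, 12450), (.hz 35 703, 28148)]))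
(.lp [[1, 5, 8], [3, 6, 10], [0, 2, 4, 7, 9]] [(.mj 4 5, 1), (.mj 7 6, 5), (.mj 8 9, 4), (.hz 35 63, 7569), (.hz 35 191, 17712), (.hz 33 703, 16432)]))
(.haz 8 703 9 40
(.haz 9 1279 13 40
(.ask 319
(.mark 447 [6, 9, 11]
(.lp [[3, 6, 10], [1, 5, 8, 11], [0, 2, 4, 7, 9]] [(.mj 5 7, 24), (.mj 6 9, 26), (.mj 7 6, 42), (.mj 9 8, 28), (.hz 35 703, 20670), (.hz 20 2367, 243888), (.hz 28 2367, 458), (.hz 35 767, 76757), (.hz 36 1279, 21388), (.hz 34 2495, 153514)]))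
(.lp [[1, 5, 8], [3, 6, 10], [0, 2, 4, 7, 9]] [(.mj 5 7, 81), (.mj 6 9, 36), (.mj 7 6, 76), (.mj 9 8, 49), (.hz 26 1103, 14564), (.hz 27 1119, 33100), (.hz 27 1151, 34665), (.hz 34 447, 302112), (.hz 35 703, 44168), (.hz 36 1279, 154699), (.hz 35 1791, 442339)]))
(.lp [[1, 5, 8], [3, 6, 10], [0, 2, 4, 7, 9]] [(.mj 5 7, 4), (.mj 7 6, 5), (.mj 9 8, 4), (.hz 36 159, 179), (.hz 36 191, 4214), (.hz 20 319, 19467), (.hz 36 255, 2277), (.hz 34 447, 15219)]))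
(.lp [[1, 5, 8], [3, 6, 10], [0, 2, 4, 7, 9]] [(.mj 5 7, 6), (.mj 6 9, 4), (.mj 7 6, 6), (.hz 35 63, 3243), (.hz 35 191, 4791), (.hz 32 703, 10144)]))
(.lp [[1, 5, 8], [3, 6, 10], [0, 2, 4, 7, 9]] [(.mj 5 7, 8), (.mj 7 6, 17), (.mj 10 8, 10), (.mj 10 9, 7), (.hz 20 319, 84697), (.hz 34 447, 23354), (.hz 33 703, 19735), (.hz 32 703, 36403)])
.fin))
(.ref 0))
(.lp [[3, 6], [1, 5, 8], [0, 2, 4, 7, 9]] [(.mj 5 7, 11676), (.mj 6 8, 49390), (.mj 6 9, 32416), (.rw 7, 4), (.hz 34 15, 13042017), (.hz 34 31, 15343549), (.hz 34 47, 15343549), (.hz 34 63, 43216296), (.hz 34 159, 6154806), (.hz 34 191, 88944157), (.hz 32 703, 180350313)]))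
(.lp [[3, 6], [1, 5, 8], [0, 2, 4, 7, 9]] [(.mj 5 7, 11676), (.mj 6 8, 49390), (.mj 6 9, 32416), (.rw 7, 4), (.hz 33 15, 13042017), (.hz 33 31, 15343549), (.hz 33 47, 15343549), (.hz 33 63, 43216296), (.hz 33 159, 6154806), (.hz 33 191, 88944157), (.hz 32 703, 180350313)]))
(.lp [[3, 6], [1, 5, 8], [0, 2, 4, 7, 9]] [(.mj 3 4, 42), (.mj 5 7, 151), (.mj 6 9, 44), (.mj 7 6, 127), (.hz 32 63, 104116), (.hz 32 191, 125874), (.hz 20 319, 222693), (.hz 20 703, 354214), (.hz 29 767, 273405)]))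
(.lp [[3, 6], [1, 5, 8], [0, 2, 4, 7, 9]] [(.mj 5 7, 66), (.mj 6 9, 3), (.mj 7 6, 35), (.hz 19 15, 2639), (.hz 31 31, 93526), (.hz 30 95, 100398), (.hz 27 95, 17580), (.hz 26 111, 1100), (.hz 20 319, 79509)]))
(.lp [[3, 6], [1, 5, 8], [0, 2, 4, 7, 9]] [(.mj 5 7, 70), (.mj 6 9, 2), (.mj 7 6, 24), (.hz 30 15, 254542), (.hz 19 15, 80940), (.hz 16 95, 49130), (.hz 27 95, 18926), (.hz 20 319, 54542), (.hz 20 703, 1241), (.hz 29 767, 12408)])))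
(.lp [[3, 6], [1, 5, 8], [0, 2, 4, 7, 9]] [(.mj 3 4, 2), (.mj 5 7, 7), (.mj 6 9, 2), (.mj 7 6, 6), (.hz 29 63, 12298), (.hz 29 191, 14841), (.hz 20 319, 10590), (.hz 20 703, 15383)]))
(.haz 6 159 1 10
(.ask 319
(.mark 447 [6, 9, 10]
(.spn
(.haz 9 1471 1 5
(.maj 9 10
(.lp [[3, 6], [1, 5, 8, 10], [0, 2, 4, 7, 9]] [(.mj 3 4, 284), (.mj 6 9, 219), (.mj 7 8, 114), (.mj 8 6, 400), (.mj 9 10, 127), (.hz 29 671, 510875), (.hz 20 703, 2519014), (.hz 20 1343, 1178994), (.hz 16 735, 3194), (.hz 20 1471, 2677117), (.hz 30 1471, 2933378)])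
(.lp [[3, 6], [1, 5, 8, 10], [0, 2, 4, 7, 9]] [(.mj 3 4, 40), (.mj 6 10, 24), (.mj 7 8, 15), (.mj 8 6, 55), (.mj 10 9, 23), (.hz 29 671, 135637), (.hz 20 703, 482205), (.hz 20 1343, 50949), (.hz 16 735, 34028), (.hz 20 959, 478634), (.hz 30 1471, 437939)]))
(.lp [[3, 6], [1, 5, 8, 10], [0, 2, 4, 7, 9]] [(.mj 3 4, 4), (.mj 6 10, 7), (.mj 7 8, 11), (.mj 8 6, 13), (.hz 30 159, 21108), (.hz 30 191, 77076), (.hz 29 671, 10945), (.hz 30 447, 108608), (.hz 20 703, 50816), (.hz 20 1343, 74117)]))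
(.lp [[3, 6], [1, 5, 8, 10], [0, 2, 4, 7, 9]] [(.mj 3 4, 54), (.mj 5 7, 5), (.mj 7 8, 4), (.mj 8 9, 1), (.mj 9 6, 35), (.hz 20 63, 45077), (.hz 29 159, 46062), (.hz 20 191, 106066), (.hz 20 319, 69246), (.hz 29 671, 2982), (.hz 20 447, 172882), (.hz 20 703, 13169), (.hz 20 1343, 61275), (.hz 28 1343, 9366), (.hz 20 1471, 234157)])
(.lp [[3, 6], [1, 5, 8, 10], [0, 2, 4, 7, 9]] [(.mj 3 4, 62), (.mj 5 7, 7), (.mj 7 8, 15), (.mj 10 6, 46), (.mj 10 9, 1), (.hz 20 63, 51352), (.hz 29 159, 56166), (.hz 20 191, 122987), (.hz 20 319, 145580), (.hz 29 671, 42099), (.hz 20 447, 225428), (.hz 20 703, 194974)])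
.fin))
(.ask 447
(.mark 447 [6, 9, 10]
(.spn
(.haz 9 1471 1 10
(.maj 9 10
(.lp [[3, 6], [1, 5, 8, 10], [0, 2, 4, 7, 9]] [(.mj 3 4, 8346), (.mj 4 5, 349), (.mj 6 9, 721), (.mj 8 6, 4319), (.mj 9 10, 886), (.rw 8, 1), (.hz 22 75, 68846), (.hz 26 79, 434111), (.hz 29 159, 2799306), (.hz 29 671, 3811165), (.hz 20 703, 35311181), (.hz 20 1471, 18708864), (.hz 30 1471, 3559187)])
(.lp [[3, 6], [1, 5, 8, 10], [0, 2, 4, 7, 9]] [(.mj 3 4, 682378), (.mj 4 5, 25701), (.mj 6 10, 101529), (.mj 8 6, 368793), (.mj 10 9, 49700), (.rw 8, 82), (.hz 22 75, 5072584), (.hz 26 79, 31985463), (.hz 29 159, 248397726), (.hz 29 671, 434518400), (.hz 20 703, 3475287188), (.hz 20 959, 1049909221), (.hz 30 1471, 913757257)]))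
(.lp [[3, 6], [1, 5, 8, 10], [0, 2, 4, 7, 9]] [(.mj 3 4, 1), (.mj 4 5, 4), (.mj 6 10, 4), (.mj 8 6, 5), (.hz 30 159, 4465), (.hz 30 191, 11902), (.hz 30 447, 18414)]))
(.lp [[3, 6], [1, 5, 8, 10], [0, 2, 4, 7, 9]] [(.mj 3 4, 14), (.mj 5 7, 1), (.mj 9 6, 7), (.hz 22 75, 113), (.hz 26 79, 707), (.hz 20 63, 4475), (.hz 29 159, 6835), (.hz 26 111, 651), (.hz 20 191, 20949), (.hz 20 319, 6779), (.hz 20 447, 30808), (.hz 20 703, 686), (.hz 20 1471, 6859)])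
(.lp [[3, 6], [1, 5, 8, 10], [0, 2, 4, 7, 9]] [(.mj 3 4, 2), (.mj 10 6, 1), (.hz 22 75, 20), (.hz 26 79, 124), (.hz 20 63, 787), (.hz 29 159, 814), (.hz 26 111, 114), (.hz 20 191, 3457), (.hz 20 319, 1192), (.hz 11 671, 24), (.hz 29 671, 915), (.hz 20 447, 5166)])
.fin))
(.lp [[3, 6], [1, 5, 8], [0, 2, 4, 7, 9]] [(.mj 3 4, 19), (.mj 4 5, 1), (.mj 8 6, 9), (.mj 8 9, 1), (.hz 22 75, 156), (.hz 26 79, 979), (.hz 29 159, 6309), (.hz 26 111, 666), (.hz 20 191, 27445), (.hz 29 671, 7486), (.hz 20 703, 46077)])))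
(.lp [[3, 6], [1, 5, 8], [0, 2, 4, 7, 9]] [(.mj 1 2, 1616), (.mj 3 4, 44), (.mj 4 5, 7), (.mj 7 8, 1), (.hz 29 11, 121310), (.hz 29 15, 252), (.hz 29 31, 133), (.hz 20 319, 3659)]))
(.ask 319
(.mark 319 [6, 7, 10]
(.lp [[3, 6], [1, 5, 8, 10], [0, 2, 4, 7, 9]] [(.mj 3 4, 790), (.mj 5 7, 191), (.mj 9 6, 464), (.mj 9 8, 73), (.hz 22 75, 6515), (.hz 26 79, 41084), (.hz 20 63, 260218), (.hz 26 111, 37826), (.hz 20 191, 2081110), (.hz 20 319, 985354), (.hz 28 319, 124916), (.hz 20 447, 3017501), (.hz 20 703, 669202), (.hz 20 1343, 811906), (.hz 28 1343, 124106), (.hz 20 1471, 3102640)]))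
(.lp [[3, 6], [1, 5, 8], [0, 2, 4, 7, 9]] [(.mj 3 4, 34), (.mj 5 7, 5), (.mj 9 6, 15), (.mj 9 8, 1), (.hz 22 75, 468), (.hz 26 79, 2951), (.hz 20 63, 4726), (.hz 27 95, 3809), (.hz 26 111, 2717), (.hz 20 191, 46450), (.hz 20 319, 18572), (.hz 20 447, 80214)]))
.fin))

theorem run43 : run P3488 (leaf3 218 625) (cutRow P3488) [s42] t43 s43 = true := by
  decide +kernel

theorem bad43 : Bad P3488 s43 :=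
  run_sound (leaf3_sound P3488 rfl rfl) (cutRow_sound P3488) (
    List.forall_mem_cons.2 ⟨bad42, fun _ h => absurd h List.not_mem_nil⟩) t43 s43 run43

/-- the state above piece 47 of the tree -/
def s47 : St := ⟨[0, 0, 1, 1, 7, 7, 11, 23, 55], [39, 31, 15, 13, 9, 7, 5, 3, 2, 1, 0], [0, 1, 2, 3, 4, 5],
  [(3, 4)],
  [⟨true, 1, 9, 7, 50⟩, ⟨true, 2, 11, 3, 50⟩, ⟨true, 2, 9, 9, 50⟩, ⟨true, 3, 3, 1, 5⟩, ⟨true, 1, 5, 13, 50⟩, ⟨true, 2, 11, 3, 5⟩, ⟨true, 2, 9, 8, 25⟩, ⟨true, 2, 9, 17, 50⟩, ⟨true, 2, 11, 33, 50⟩, ⟨true, 4, 47, 4, 25⟩, ⟨true, 4, 79, 1, 5⟩, ⟨true, 5, 159, 7, 50⟩, ⟨true, 4, 79, 3, 10⟩, ⟨true, 3, 23, 7, 25⟩, ⟨true, 3, 23, 3, 10⟩, ⟨true, 6, 63, 2, 25⟩, ⟨true, 5, 95, 4, 25⟩],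
  [.spn 0 0 651200, .spn 1 1 140426, .spn 3 2 302400, .spn 7 3 62723, .spn 15 4 140426, .spn 31 5 62723]⟩

/-- piece 47 of the tree -/
noncomputable def t47 : WN.Tree :=
(.mark 63 [6, 7, 8]
(.spn
(.haz 6 47 3 20
(.haz 7 319 3 25
(.haz 6 47 9 50
(.haz 7 95 3 25
(.haz 6 319 1 5
(.ask 75
(.mark 127 [7, 8, 9]
(.spn
(.haz 7 319 9 50
(.haz 8 639 4 25
(.haz 6 159 11 50
(.haz 7 319 11 50
(.ask 311
(.mark 319 [6, 7, 10]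
(.lp [[1, 4, 7], [3, 6, 9], [0, 2, 5, 8, 10]] [(.mj 3 4, 10), (.mj 4 5, 57), (.mj 5 6, 94), (.mj 6 7, 85), (.mj 7 8, 28), (.hz 14 151, 664), (.hz 8 587, 101), (.hz 24 159, 5464), (.hz 12 591, 5734), (.hz 25 319, 47035), (.hz 20 607, 21455), (.hz 14 1335, 37475), (.hz 23 639, 98946), (.hz 25 1343, 54919)]))
(.ask 319
(.mark 383 [7, 9, 10]
(.lp [[1, 4, 7], [3, 6, 9], [0, 2, 5, 8, 10]] [(.mj 2 3, 1), (.mj 4 5, 8), (.mj 5 6, 13), (.mj 6 7, 13), (.mj 7 8, 4), (.hz 14 151, 483), (.hz 24 159, 796), (.hz 12 591, 458), (.hz 25 319, 6289), (.hz 20 607, 2784), (.hz 23 639, 12624), (.hz 25 1343, 6285)]))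
(.lp [[1, 5, 8], [3, 6, 9], [0, 2, 4, 7]] [(.mj 4 5, 14), (.mj 5 6, 23), (.mj 6 7, 22), (.mj 7 8, 7), (.hz 14 151, 686), (.hz 8 587, 19), (.hz 24 159, 1309), (.hz 12 591, 1093), (.hz 25 319, 12109), (.hz 20 607, 5191), (.hz 23 639, 25312)])))
(.lp [[1, 5, 8], [3, 6, 9], [0, 2, 4, 7]] [(.mj 3 4, 2), (.mj 4 5, 16), (.mj 5 6, 15), (.mj 7 8, 9), (.hz 25 23, 622), (.hz 25 31, 2679), (.hz 25 55, 650), (.hz 25 63, 4770), (.hz 21 319, 53168), (.hz 22 319, 572), (.hz 16 607, 5392), (.hz 20 607, 3818)]))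
(.lp [[1, 5, 8], [3, 6, 9], [0, 2, 4, 7]] [(.mj 3 4, 5), (.mj 4 5, 14), (.mj 6 7, 26), (.mj 7 8, 7), (.hz 24 15, 4585), (.hz 24 31, 2971), (.hz 8 587, 1046), (.hz 21 319, 12559), (.hz 22 319, 19647), (.hz 23 639, 12915)]))
(.lp [[1, 5, 8], [3, 6, 9], [0, 2, 4, 7]] [(.mj 4 5, 2), (.mj 5 6, 5), (.mj 6 7, 4), (.hz 23 55, 620), (.hz 14 151, 59), (.hz 23 63, 2893), (.hz 23 127, 2523)]))
(.lp [[1, 5, 8], [3, 6, 9], [0, 2, 4, 7]] [(.mj 3 4, 1), (.mj 4 5, 5), (.mj 5 6, 7), (.mj 7 8, 4), (.hz 22 23, 233), (.hz 22 31, 1498), (.hz 22 55, 305), (.hz 22 63, 1477), (.hz 21 319, 22180)]))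
(.haz 7 63 1 5
(.ask 311
(.mark 383 [7, 9, 10]
(.spn
(.haz 9 127 11 50
(.lp [[1, 4, 7], [3, 6, 9], [0, 2, 5, 8, 10]] [(.mj 4 5, 15230), (.mj 5 6, 19311), (.mj 6 8, 10229), (.mj 8 7, 22036), (.rw 8, 13), (.hz 8 75, 154830), (.hz 22 63, 40455516), (.hz 12 591, 7122177), (.hz 23 127, 16103605), (.hz 22 319, 86950789), (.hz 20 607, 37107573), (.hz 14 1335, 5240052), (.hz 22 639, 673689825), (.hz 22 1343, 14075091)])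
(.lp [[1, 4, 7], [3, 6, 9], [0, 2, 5, 8, 10]] [(.mj 4 5, 21), (.mj 5 6, 3), (.mj 6 8, 1), (.mj 7 10, 2), (.mj 8 7, 16), (.hz 23 75, 591), (.hz 23 79, 2335), (.hz 22 63, 57022), (.hz 23 95, 4073), (.hz 22 127, 89834), (.hz 22 319, 5777), (.hz 20 607, 14148), (.hz 14 1335, 2542), (.hz 22 1343, 5825)]))
(.lp [[1, 4, 7], [3, 6, 9], [0, 2, 5, 8, 10]] [(.mj 2 3, 409), (.mj 4 5, 2625), (.mj 5 6, 1948), (.mj 9 7, 2278), (.rw 7, 1), (.rw 8, 1), (.hz 14 151, 48633), (.hz 22 63, 7070581), (.hz 20 95, 2070940), (.hz 12 591, 340428), (.hz 22 127, 29169951), (.hz 22 319, 11153499), (.hz 14 1335, 1304421), (.hz 22 383, 30188126), (.hz 22 1343, 14952725)])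
(.lp [[1, 4, 7], [3, 6, 9], [0, 2, 5, 8, 10]] [(.mj 2 3, 2), (.mj 3 4, 1), (.mj 4 5, 2), (.mj 5 6, 5), (.mj 6 8, 3), (.mj 10 7, 6), (.hz 22 63, 5546), (.hz 12 591, 1847), (.hz 22 127, 71428), (.hz 22 319, 58475), (.hz 20 607, 10543), (.hz 14 1335, 2577), (.hz 22 383, 84339), (.hz 22 639, 49654), (.hz 22 1343, 7641)])
.fin))
(.lp [[1, 5, 8], [3, 6, 9], [0, 2, 4, 7]] [(.mj 2 3, 59), (.mj 4 5, 22), (.mj 5 6, 2), (.mj 6 8, 14), (.mj 8 7, 36), (.hz 14 151, 6998), (.hz 22 63, 73475), (.hz 12 591, 7322), (.hz 22 127, 383043), (.hz 22 319, 90258), (.hz 16 607, 36919), (.hz 20 607, 44418), (.hz 14 439, 235), (.hz 22 639, 643813)]))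
(.lp [[1, 5, 8], [3, 6, 9], [0, 2, 4, 7]] [(.mj 3 4, 3), (.mj 4 5, 75), (.mj 5 6, 50), (.mj 6 8, 24), (.hz 22 23, 23620), (.hz 8 75, 184), (.hz 22 31, 96131), (.hz 22 55, 17776), (.hz 22 63, 104283), (.hz 20 95, 12543), (.hz 12 591, 8462), (.hz 18 319, 35551), (.hz 16 607, 52238)]))
(.lp [[1, 5, 8], [3, 6, 9], [0, 2, 4, 7]] [(.mj 2 3, 28), (.mj 3 4, 32), (.mj 4 5, 84), (.mj 5 6, 129), (.mj 9 7, 125), (.mj 9 8, 50), (.hz 20 95, 122916), (.hz 11 159, 12950), (.hz 12 591, 23518), (.hz 14 311, 40907), (.hz 20 127, 191997), (.hz 21 319, 606082), (.hz 18 319, 205811), (.hz 18 383, 528765)])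
.fin))
(.ref 0))
(.lp [[3, 6], [1, 5, 8], [0, 2, 4, 7]] [(.mj 4 5, 2), (.mj 6 7, 11), (.mj 6 8, 8), (.hz 21 11, 3471), (.hz 21 15, 10125), (.hz 21 31, 16127), (.hz 21 47, 10471), (.hz 21 63, 42247), (.hz 18 319, 23538)]))
(.lp [[3, 6], [1, 5, 8], [0, 2, 4, 7]] [(.mj 3 4, 2), (.mj 4 5, 14), (.mj 5 6, 14), (.mj 6 8, 5), (.hz 20 23, 1878), (.hz 20 31, 6916), (.hz 19 191, 4174), (.hz 18 319, 8208)]))
(.lp [[3, 6], [1, 5, 8], [0, 2, 4, 7]] [(.mj 4 5, 1), (.mj 6 7, 7), (.mj 6 8, 5), (.hz 19 11, 219), (.hz 19 15, 1898), (.hz 19 47, 2893), (.hz 18 319, 15188)]))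
(.lp [[3, 6], [1, 5, 8], [0, 2, 4, 7]] [(.mj 4 5, 33), (.mj 5 6, 31), (.mj 6 8, 16), (.hz 18 23, 2407), (.hz 18 31, 9155), (.hz 18 55, 2306), (.hz 18 63, 9615), (.hz 17 191, 13461)]))
(.lp [[3, 6], [1, 5, 8], [0, 2, 4, 7]] [(.mj 3 4, 42), (.mj 6 8, 1), (.hz 17 11, 1671), (.hz 17 15, 7945), (.hz 17 47, 11816), (.hz 11 159, 574)]))
(.ask 151
(.mark 191 [6, 8, 9]
(.lp [[3, 6], [1, 5, 8], [0, 2, 4, 7, 9]] [(.mj 3 4, 54), (.mj 5 7, 3), (.mj 7 6, 29), (.mj 7 8, 4), (.hz 8 75, 175), (.hz 12 79, 8043), (.hz 12 111, 7052), (.hz 15 319, 39962), (.hz 16 223, 84)]))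
(.ask 183
(.mark 191 [6, 8, 9]
(.lp [[3, 6], [1, 5, 8], [0, 2, 4, 7, 9]] [(.mj 3 4, 47), (.mj 4 5, 1), (.mj 7 6, 26), (.mj 7 8, 2), (.hz 8 75, 57), (.hz 12 79, 2630), (.hz 15 63, 8348), (.hz 15 319, 30021)]))
(.haz 4 79 2 5
(.haz 7 319 7 50
(.haz 6 31 11 50
(.lp [[3, 6], [1, 5, 8], [0, 2, 4, 7]] [(.mj 3 4, 25), (.mj 5 7, 2), (.mj 7 6, 15), (.hz 19 31, 1189), (.hz 19 63, 3904), (.hz 19 159, 513), (.hz 19 319, 2045)])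
(.haz 4 79 12 25
(.haz 6 63 9 50
(.haz 4 111 3 5
(.haz 6 159 7 50
(.ask 159
(.mark 191 [6, 8, 9]
(.spn
(.lp [[3, 6], [1, 5, 8], [0, 2, 4, 7, 9]] [(.mj 3 4, 138), (.mj 5 7, 10), (.mj 6 9, 10), (.mj 7 6, 68), (.hz 8 75, 633), (.hz 20 79, 7275), (.hz 21 63, 4649), (.hz 22 111, 25514), (.hz 21 319, 34064), (.hz 18 319, 5301), (.hz 23 671, 854)])
(.lp [[3, 6], [1, 5, 8], [0, 2, 4, 7, 9]] [(.mj 3 4, 13), (.mj 7 8, 1), (.mj 8 6, 6), (.hz 8 75, 58), (.hz 20 79, 667), (.hz 21 63, 1013), (.hz 23 159, 894), (.hz 22 111, 2339), (.hz 21 191, 1892), (.hz 21 319, 625), (.hz 23 671, 1040)])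
(.lp [[3, 6], [1, 5, 8], [0, 2, 4, 7, 9]] [(.mj 3 4, 9), (.mj 5 7, 1), (.mj 9 6, 5), (.hz 8 75, 42), (.hz 20 79, 482), (.hz 21 63, 732), (.hz 23 159, 1290), (.hz 22 111, 1690), (.hz 21 191, 3467), (.hz 21 319, 2671), (.hz 18 319, 930)])
.fin))
(.ask 191
(.mark 191 [6, 8, 9]
(.spn
(.lp [[3, 6], [1, 5, 8], [0, 2, 4, 7, 9]] [(.mj 3 4, 21), (.mj 6 9, 2), (.mj 7 6, 12), (.hz 19 11, 16), (.hz 20 79, 157), (.hz 21 63, 1507), (.hz 22 111, 843), (.hz 21 319, 6594)])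
(.lp [[3, 6], [1, 5, 8], [0, 2, 4, 7, 9]] [(.mj 3 4, 4), (.mj 7 6, 1), (.mj 8 6, 1), (.hz 19 11, 21), (.hz 20 79, 200), (.hz 21 63, 455), (.hz 21 191, 615), (.hz 21 319, 471)])
(.lp [[3, 6], [1, 5, 8], [0, 2, 4, 7, 9]] [(.mj 3 4, 2), (.mj 9 6, 1), (.hz 19 11, 7), (.hz 20 79, 71), (.hz 21 63, 161), (.hz 21 191, 607), (.hz 21 319, 328)])
.fin))
(.lp [[3, 6], [1, 5, 8], [0, 2, 4, 7]] [(.mj 3 4, 2), (.mj 7 6, 1), (.hz 19 11, 7), (.hz 19 15, 22), (.hz 21 319, 485)])))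
(.lp [[3, 6], [1, 5, 8], [0, 2, 4, 7]] [(.mj 3 4, 40), (.mj 5 7, 4), (.mj 7 6, 8), (.hz 23 11, 461), (.hz 23 15, 2777), (.hz 20 79, 2647), (.hz 21 191, 1166), (.hz 21 319, 3166), (.hz 18 319, 4166)]))
(.lp [[3, 6], [1, 5, 8], [0, 2, 4, 7]] [(.mj 3 4, 7), (.mj 5 7, 4), (.mj 7 6, 8), (.hz 22 47, 31893), (.hz 20 79, 2041), (.hz 20 111, 4782), (.hz 21 191, 1068), (.hz 21 319, 1876)]))
(.lp [[3, 6], [1, 5, 8], [0, 2, 4, 7]] [(.mj 3 4, 64), (.mj 5 7, 1), (.hz 21 11, 1042), (.hz 21 15, 3006), (.hz 21 31, 1788), (.hz 21 47, 4708), (.hz 21 63, 4165), (.hz 11 159, 516), (.hz 15 191, 550), (.hz 18 319, 7740)]))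
(.lp [[3, 6], [1, 5, 8], [0, 2, 4, 7]] [(.mj 3 4, 18), (.mj 4 5, 12), (.mj 7 6, 4), (.hz 19 11, 380), (.hz 20 15, 6038), (.hz 19 15, 2747), (.hz 17 79, 4518), (.hz 15 191, 336), (.hz 15 319, 3128), (.hz 18 319, 1991)])))
(.lp [[3, 6], [1, 5, 8], [0, 2, 4, 7]] [(.mj 3 4, 1), (.mj 7 6, 2), (.mj 7 8, 2), (.hz 18 23, 26), (.hz 18 31, 281), (.hz 18 63, 782)]))
(.lp [[3, 6], [1, 5, 8], [0, 2, 4, 7]] [(.mj 3 4, 2), (.mj 4 5, 1), (.mj 7 6, 3), (.hz 17 15, 7302), (.hz 12 79, 3051), (.hz 15 63, 1585), (.hz 15 319, 2762)]))))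
(.haz 6 31 9 40
(.lp [[3, 6], [1, 5, 8], [0, 2, 4, 7]] [(.mj 3 4, 3), (.mj 4 5, 1), (.mj 8 6, 4), (.hz 17 31, 686), (.hz 17 63, 2308), (.hz 17 159, 866)])
(.haz 7 63 3 20
(.haz 6 31 7 40
(.lp [[3, 6], [1, 5, 8], [0, 2, 4, 7]] [(.mj 3 4, 25), (.mj 4 5, 1), (.mj 8 6, 15), (.hz 19 31, 1441), (.hz 19 63, 5220), (.hz 18 63, 229), (.hz 19 159, 3187), (.hz 18 319, 5213)])
(.lp [[3, 6], [1, 5, 8], [0, 2, 4, 7]] [(.mj 3 4, 120), (.mj 4 5, 35), (.mj 8 6, 8), (.mj 8 7, 22), (.hz 19 11, 3225), (.hz 19 15, 9284), (.hz 19 31, 7656), (.hz 11 159, 9845), (.hz 18 127, 80843), (.hz 18 319, 38461)]))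
(.lp [[3, 6], [1, 5, 8], [0, 2, 4, 7]] [(.mj 3 4, 19), (.mj 4 5, 34), (.hz 17 11, 1136), (.hz 17 15, 3361), (.hz 17 31, 5377), (.hz 18 31, 10754), (.hz 15 63, 9559)])))
.fin))

theorem run47 : run P3488 (leaf3 218 625) (cutRow P3488) [s38] t47 s47 = true := by
  decide +kernel

theorem bad47 : Bad P3488 s47 :=
  run_sound (leaf3_sound P3488 rfl rfl) (cutRow_sound P3488) (
    List.forall_mem_cons.2 ⟨bad38, fun _ h => absurd h List.not_mem_nil⟩) t47 s47 run47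

/-- the state above piece 58 of the tree -/
def s58 : St := ⟨[0, 0, 1, 1, 7, 23, 11, 55, 63], [75, 63, 55, 31, 23, 15, 11, 13, 9, 7, 5, 3, 2, 1, 0], [0, 1, 2, 3, 4, 5, 6],
  [(4, 6), (3, 4)],
  [⟨true, 1, 9, 7, 50⟩, ⟨true, 2, 11, 3, 50⟩, ⟨true, 2, 9, 9, 50⟩, ⟨true, 3, 3, 1, 5⟩, ⟨true, 1, 5, 13, 50⟩, ⟨true, 2, 11, 3, 5⟩, ⟨true, 2, 9, 8, 25⟩, ⟨true, 2, 9, 17, 50⟩, ⟨true, 2, 11, 33, 50⟩, ⟨true, 3, 23, 8, 25⟩, ⟨true, 4, 15, 27, 50⟩, ⟨true, 3, 23, 19, 50⟩, ⟨true, 4, 15, 29, 50⟩, ⟨true, 6, 63, 1, 10⟩, ⟨true, 3, 55, 23, 50⟩, ⟨true, 3, 55, 1, 2⟩, ⟨true, 5, 95, 3, 10⟩, ⟨true, 8, 191, 13, 50⟩, ⟨true, 8, 191, 9, 25⟩],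
  [.spn 0 0 651200, .spn 1 1 140426, .spn 3 2 302400, .spn 7 3 140426, .spn 15 4 302400, .spn 31 5 302400, .spn 63 6 140426]⟩

/-- piece 58 of the tree -/
noncomputable def t58 : WN.Tree :=
(.haz 6 319 11 50
(.haz 6 319 7 25
(.haz 6 191 11 50
(.haz 7 127 9 50
(.maj 7 8
(.lp [[1, 6], [3, 8], [0, 2, 4, 5, 7]] [(.mj 2 3, 228), (.mj 3 4, 148), (.mj 7 8, 2), (.hz 20 319, 1791)])
(.ask 79
(.mark 127 [7, 8, 9]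
(.spn
(.con 7 8)
(.ask 319
(.mark 383 [7, 9, 10]
(.lp [[1, 7], [3, 6, 9], [0, 2, 4, 5, 8, 10]] [(.mj 2 3, 2310), (.mj 3 4, 1335), (.mj 6 8, 142), (.mj 8 7, 38), (.hz 18 191, 54218), (.hz 22 639, 42804), (.hz 22 1407, 17076)]))
(.ask 383
(.mark 383 [7, 9, 10]
(.spn
(.lp [[1, 7], [3, 6, 9], [0, 2, 4, 5, 8, 10]] [(.mj 2 3, 540), (.mj 3 4, 321), (.mj 6 8, 8), (.mj 7 10, 6), (.mj 8 7, 13)])
(.lp [[1, 7], [3, 6, 9], [0, 2, 4, 5, 8, 10]] [(.mj 5 6, 6559), (.mj 9 7, 2886), (.rw 8, 2)])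
(.lp [[1, 7], [3, 6, 9], [0, 2, 4, 5, 8, 10]] [(.mj 5 6, 1), (.mj 10 7, 1), (.hz 22 127, 450), (.hz 22 383, 549)])
.fin))
(.lp [[3, 8], [1, 6, 9], [0, 2, 4, 5, 7]] [(.mj 5 6, 10), (.mj 6 7, 4), (.mj 6 8, 1), (.mj 8 7, 3)])))
(.lp [[3, 8], [1, 6, 9], [0, 2, 4, 5, 7]] [(.mj 5 6, 4133), (.mj 8 7, 1977), (.mj 9 8, 1977), (.rw 6, 4)])
.fin))
(.ask 95
(.mark 127 [7, 8, 9]
(.spn
(.con 7 8)
(.ask 319
(.mark 383 [7, 9, 10]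
(.spn
(.ask 183
(.mark 511 [9, 10, 11]
(.lp [[1, 6, 9], [3, 8, 10], [0, 2, 4, 5, 7, 11]] [(.mj 2 3, 241), (.mj 3 4, 147), (.mj 6 8, 5), (.mj 7 10, 1), (.mj 8 7, 1), (.hz 18 191, 9), (.hz 18 2239, 3640)]))
(.ask 191
(.mark 191 [6, 8, 11]
(.lp [[1, 6, 9], [3, 8, 10], [0, 2, 4, 5, 7, 11]] [(.mj 2 3, 102), (.mj 3 4, 29), (.mj 6 8, 13), (.mj 8 7, 5), (.hz 18 191, 2703), (.hz 22 639, 4103), (.hz 18 2239, 6612), (.hz 22 1407, 993)]))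
(.lp [[1, 7], [3, 6, 9], [0, 2, 4, 5, 8, 10]] [(.mj 2 3, 79), (.mj 6 8, 12), (.mj 7 10, 1), (.mj 8 7, 6)])))
(.lp [[1, 7], [3, 6, 9], [0, 2, 4, 5, 8, 10]] [(.mj 2 3, 126), (.mj 3 4, 69), (.mj 6 8, 5), (.mj 9 7, 2), (.hz 21 191, 441), (.hz 18 191, 2640), (.hz 22 383, 882), (.hz 22 639, 218), (.hz 20 1343, 182), (.hz 22 1407, 1715)])
(.lp [[1, 7], [3, 6, 9], [0, 2, 4, 5, 8, 10]] [(.mj 2 3, 158), (.mj 3 4, 85), (.mj 6 8, 8), (.mj 10 7, 5), (.hz 22 127, 1345), (.hz 18 191, 3065), (.hz 22 383, 4049), (.hz 22 639, 3658), (.hz 22 895, 1092), (.hz 22 1407, 1092)])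
.fin))
(.ask 383
(.mark 383 [7, 9, 10]
(.spn
(.lp [[1, 7], [3, 6, 9], [0, 2, 4, 5, 8, 10]] [(.mj 2 3, 4207), (.mj 3 4, 2651), (.mj 6 8, 37), (.mj 7 10, 16), (.mj 8 7, 27)])
(.lp [[1, 7], [3, 6, 9], [0, 2, 4, 5, 8, 10]] [(.mj 3 4, 1605), (.mj 5 6, 4622), (.mj 6 8, 414), (.mj 9 7, 1026), (.rw 8, 1), (.hz 21 191, 729398)])
(.lp [[1, 7], [3, 6, 9], [0, 2, 4, 5, 8, 10]] [(.mj 5 6, 1), (.mj 10 7, 1), (.hz 22 127, 450), (.hz 22 383, 549)])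
.fin))
(.lp [[3, 8], [1, 6, 9], [0, 2, 4, 5, 7]] [(.mj 5 6, 8), (.mj 6 7, 3), (.mj 6 8, 1), (.mj 8 7, 2)])))
(.lp [[3, 8], [1, 6, 9], [0, 2, 4, 5, 7]] [(.mj 3 4, 758), (.mj 5 6, 1723), (.mj 9 7, 405), (.mj 9 8, 657), (.rw 6, 1), (.hz 18 191, 421122), (.hz 20 319, 226651)])
.fin))
(.haz 6 191 3 10
(.haz 6 191 8 25
(.haz 7 319 3 20
(.ask 319
(.ask 127
(.mark 127 [7, 8, 10]
(.spn
(.con 7 8)
(.mark 383 [7, 9, 10]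
(.spn
(.ask 183
(.mark 255 [8, 10, 11]
(.lp [[1, 6, 10], [3, 8, 9], [0, 2, 4, 5, 7, 11]] [(.mj 2 3, 15680), (.mj 3 4, 9227), (.mj 6 8, 373), (.mj 7 9, 3), (.mj 8 7, 45), (.hz 18 2239, 288249), (.hz 25 831, 71315), (.hz 18 1279, 5415), (.hz 18 2303, 5415), (.hz 22 895, 2707)]))
(.ask 191
(.mark 511 [9, 10, 11]
(.spn
(.haz 10 2559 4 25
(.ask 831
(.mark 1023 [10, 11, 12]
(.lp [[1, 7, 11], [3, 6, 10], [0, 2, 4, 5, 8, 9, 12]] [(.mj 2 3, 500), (.mj 6 8, 115), (.mj 7 9, 4), (.mj 8 7, 51), (.mj 9 10, 17), (.hz 18 191, 29304), (.hz 22 1151, 36405), (.hz 18 2239, 54586), (.hz 18 1279, 18822), (.hz 18 2303, 5667), (.hz 22 1407, 2846), (.hz 26 2559, 148755), (.hz 22 4991, 3840)]))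
(.ask 959
(.mark 1023 [10, 11, 12]
(.lp [[1, 7, 11], [3, 6, 10], [0, 2, 4, 5, 8, 9, 12]] [(.mj 2 3, 40), (.mj 6 8, 11), (.mj 7 10, 3), (.mj 8 7, 8), (.mj 9 10, 1), (.hz 22 1151, 3753), (.hz 18 2239, 5764)]))
(.ask 895
(.mark 1023 [10, 11, 12]
(.spn
(.ask 2239
(.mark 3071 [10, 12, 13]
(.lp [[1, 6, 10], [3, 8, 9, 12], [0, 2, 4, 5, 7, 11, 13]] [(.mj 2 3, 3837), (.mj 6 8, 658), (.mj 7 9, 11), (.mj 8 7, 310), (.mj 9 10, 31), (.mj 10 11, 3), (.hz 22 1151, 155620), (.hz 18 2239, 532753), (.hz 22 1407, 65211), (.hz 18 10431, 71675), (.hz 26 2559, 81321), (.hz 22 4991, 63867), (.hz 26 10751, 437533)]))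
(.lp [[1, 7, 11], [3, 6, 10], [0, 2, 4, 5, 8, 9, 12]] [(.mj 2 3, 5587), (.mj 6 8, 672), (.mj 7 9, 32), (.mj 8 7, 496), (.mj 10 12, 25), (.hz 22 1151, 121580), (.hz 18 2239, 51645), (.hz 18 2303, 165793), (.hz 22 1407, 226729), (.hz 26 2559, 365557), (.hz 22 4991, 77248)]))
(.ask 2239
(.mark 3071 [10, 12, 13]
(.lp [[1, 6, 10], [3, 8, 9, 12], [0, 2, 4, 5, 7, 11, 13]] [(.mj 2 3, 218460), (.mj 6 8, 38370), (.mj 8 7, 19157), (.mj 9 10, 1124), (.mj 11 10, 960), (.mj 11 12, 666), (.rw 10, 1), (.hz 22 1151, 10191786), (.hz 18 2239, 24910606), (.hz 22 1407, 4664636), (.hz 18 10431, 11988366), (.hz 26 2559, 3289198), (.hz 22 1919, 4134403), (.hz 22 4991, 5440378), (.hz 26 10751, 13800860), (.hz 26 7167, 27481581)]))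
(.lp [[1, 7, 11], [3, 6, 10], [0, 2, 4, 5, 8, 9, 12]] [(.mj 2 3, 5587), (.mj 6 8, 672), (.mj 7 9, 32), (.mj 8 7, 496), (.mj 11 12, 25), (.hz 22 1151, 121580), (.hz 18 2239, 51645), (.hz 18 2303, 165793), (.hz 22 1407, 226729), (.hz 26 2559, 365557), (.hz 22 4991, 77248)]))
(.haz 10 895 3 25
(.lp [[1, 7, 11], [3, 6, 10], [0, 2, 4, 5, 8, 9, 12]] [(.mj 2 3, 138), (.mj 6 8, 35), (.mj 7 9, 12), (.mj 8 7, 31), (.mj 12 10, 14), (.hz 22 1151, 23170), (.hz 18 2239, 20210), (.hz 18 2303, 355), (.hz 27 895, 48110), (.hz 22 1407, 14532), (.hz 27 1023, 84581), (.hz 26 2559, 112079)])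
(.lp [[1, 7, 11], [3, 6, 10], [0, 2, 4, 5, 8, 9, 12]] [(.mj 3 4, 3), (.mj 6 8, 17), (.mj 7 9, 11), (.mj 8 7, 16), (.hz 27 127, 16528), (.hz 27 383, 18241), (.hz 18 2239, 4839)]))
.fin))
(.lp [[1, 6, 10], [3, 8, 9], [0, 2, 4, 5, 7, 11]] [(.mj 2 3, 142), (.mj 6 8, 29), (.mj 7 10, 4), (.mj 8 7, 18), (.mj 9 10, 1), (.hz 22 1151, 9477), (.hz 24 2239, 1261), (.hz 18 2239, 18362), (.hz 22 1407, 1718)]))))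
(.cut 10 [(0, 1), (1, 1), (2, 1), (3, 1), (5, 1), (9, 1), (7, 1), (11, 1), (13, 1), (15, 1), (23, 1), (75, 1), (31, 1), (55, 1), (79, 1), (63, 1), (95, 1), (183, 1), (127, 1), (191, 1), (319, 1), (255, 1), (383, 1), (447, 1), (831, 1), (2239, 1), (511, 1), (959, 1), (2495, 1)]
(.lp [[1, 6, 10], [3, 8, 9], [0, 2, 4, 5, 7, 11]] [(.mj 6 8, 30843), (.mj 7 9, 20020), (.mj 8 7, 28313), (.mj 9 11, 296), (.hz 26 127, 29296832), (.hz 26 383, 33418973), (.hz 18 2239, 6871094), (.hz 22 895, 449729), (.hz 26 2559, 19612538), (.rw 10, 4)])))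
(.ask 2239
(.mark 2559 [9, 10, 12]
(.lp [[1, 6, 10], [3, 8, 9], [0, 2, 4, 5, 7, 11, 12]] [(.mj 2 3, 1494), (.mj 6 8, 200), (.mj 8 7, 116), (.mj 10 9, 7), (.hz 24 191, 29465), (.hz 18 191, 41788), (.hz 22 1151, 57303), (.hz 18 2239, 78844), (.hz 22 895, 11638), (.hz 22 1407, 8621), (.hz 18 6335, 50014), (.hz 24 3007, 27101)]))
(.lp [[1, 6, 10], [3, 8, 9], [0, 2, 4, 5, 7, 11]] [(.mj 2 3, 599), (.mj 6 8, 82), (.mj 8 7, 50), (.mj 10 9, 3), (.hz 18 191, 13035), (.hz 22 1151, 33295), (.hz 18 2239, 14287), (.hz 18 2303, 6126), (.hz 22 895, 8495), (.hz 22 1407, 3063)]))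
(.lp [[1, 6, 10], [3, 8, 9], [0, 2, 4, 5, 7, 11]] [(.mj 2 3, 156), (.mj 6 8, 23), (.mj 8 7, 71), (.mj 11 9, 31), (.mj 11 10, 26), (.hz 22 1151, 66829), (.hz 25 831, 25212), (.hz 22 895, 36951), (.hz 22 1407, 28566)])
.fin))
(.lp [[1, 7], [3, 6, 10], [0, 2, 4, 5, 8, 9]] [(.mj 2 3, 67), (.mj 6 8, 9), (.mj 8 7, 4), (.hz 25 319, 234)])))
(.lp [[1, 7], [3, 6, 10], [0, 2, 4, 5, 8, 9]] [(.mj 2 3, 40), (.mj 3 4, 20), (.mj 6 8, 2), (.mj 9 7, 3), (.hz 22 127, 906), (.hz 25 319, 2201), (.hz 22 383, 1679), (.hz 22 1151, 1679), (.hz 18 1279, 2611)])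
(.lp [[1, 7], [3, 6, 10], [0, 2, 4, 5, 8, 9]] [(.mj 2 3, 143), (.mj 3 4, 72), (.mj 6 8, 2), (.mj 10 7, 8), (.mj 10 9, 1), (.hz 22 127, 3261), (.hz 25 319, 2121), (.hz 22 383, 4529), (.hz 20 831, 3339), (.hz 25 831, 3825), (.hz 22 895, 6928)])
.fin))
(.lp [[1, 7], [3, 6, 10], [0, 2, 4, 5, 8, 9]] [(.mj 3 4, 2155), (.mj 5 6, 4993), (.mj 10 8, 115), (.rw 7, 1), (.hz 24 191, 1291734), (.hz 18 191, 48908), (.hz 20 319, 1395303)])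
.fin))
(.ref 0))
(.lp [[1, 6], [3, 8], [0, 2, 4, 5, 7]] [(.mj 2 3, 89419), (.mj 3 4, 56295), (.mj 6 8, 617), (.hz 24 191, 262120)]))
(.lp [[1, 6], [3, 8], [0, 2, 4, 5, 7]] [(.mj 2 3, 19), (.mj 6 8, 3), (.hz 25 55, 856), (.hz 25 63, 697), (.hz 18 191, 1202)]))
(.lp [[1, 6], [3, 8], [0, 2, 4, 5, 7]] [(.mj 3 4, 23), (.mj 6 8, 5), (.hz 24 63, 5433), (.hz 18 191, 2117)]))
(.lp [[1, 6], [3, 8], [0, 2, 4, 5, 7]] [(.mj 3 4, 17), (.mj 6 8, 4), (.hz 23 63, 10503), (.hz 18 191, 1593)])))))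
(.lp [[1, 6], [3, 8], [0, 2, 4, 5, 7]] [(.mj 2 3, 46), (.mj 6 8, 7), (.hz 22 55, 850), (.hz 22 63, 690), (.hz 18 191, 2978)]))
(.lp [[1, 6], [3, 8], [0, 2, 4, 5, 7]] [(.mj 2 3, 54), (.mj 3 4, 41), (.mj 6 8, 3), (.hz 21 31, 606), (.hz 21 63, 451), (.hz 18 191, 1095)]))
(.lp [[1, 6], [3, 8], [0, 2, 4, 5, 7]] [(.mj 2 3, 501), (.mj 3 4, 333), (.mj 6 8, 14), (.hz 20 63, 4917), (.hz 18 191, 5971)]))
(.lp [[1, 6], [3, 8], [0, 2, 4, 5, 7]] [(.mj 2 3, 54), (.mj 3 4, 41), (.mj 6 8, 3), (.hz 19 31, 606), (.hz 19 63, 451), (.hz 18 191, 1095)]))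

theorem run58 : run P3488 (leaf3 218 625) (cutRow P3488) [s57] t58 s58 = true := by
  decide +kernel

theorem bad58 : Bad P3488 s58 :=
  run_sound (leaf3_sound P3488 rfl rfl) (cutRow_sound P3488) (
    List.forall_mem_cons.2 ⟨bad57, fun _ h => absurd h List.not_mem_nil⟩) t58 s58 run58

end Pool.Agent.WN.Data
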