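import Pool.Agent.WN.CutRow
import Pool.Agent.WN.LeafRow
import Pool.Agent.Helper99.WN.ParDef
import Pool.Agent.WN.Data.D0
import Pool.Agent.WN.Data.D8
import Pool.Agent.WN.Data.D13
import Pool.Agent.WN.Data.D15
import Pool.Agent.WN.Data.D17
import Pool.Agent.WN.Data.D19
import Pool.Agent.WN.Data.D21
import Pool.Agent.WN.Data.D26

/-!
# The search tree, part 31
-/

set_option autoImplicit false

namespace Pool.Agent.WN.Data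

open Pool.Agent.W3 Pool.Agent.WN Pool.Agent.Helper99.WN

/-- the state above piece 96 of the tree -/
def s96 : St := ⟨[0, 0, 1, 3, 5, 5, 11, 21], [15, 7, 3, 2, 1, 0], [0, 1, 2, 3, 4],
  [],
  [⟨true, 2, 3, 3, 10⟩, ⟨true, 1, 5, 2, 5⟩, ⟨true, 2, 3, 23, 50⟩, ⟨true, 1, 5, 12, 25⟩, ⟨true, 2, 11, 12, 25⟩, ⟨true, 4, 79, 11, 50⟩],
  [.spn 0 0 651200, .spn 1 1 302400, .spn 3 2 302400, .spn 7 3 140426, .spn 15 4 140426]⟩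

/-- piece 96 of the tree -/
noncomputable def t96 : WN.Tree :=
(.mark 31 [5, 6, 7]
(.spn
(.haz 5 151 3 25
(.haz 6 31 7 25
(.lp [[5], [1, 3, 6], [0, 2, 4, 7]] [(.mj 1 2, 170), (.mj 3 4, 40), (.mj 4 5, 100), (.mj 5 6, 138), (.hz 4 75, 1929), (.hz 7 31, 17388), (.hz 6 151, 15208), (.hz 7 63, 17456), (.hz 7 159, 48373)])
(.ask 75
(.mark 79 [4, 5, 8]
(.lp [[5], [0, 2, 4, 7], [1, 3, 6, 8]] [(.mj 1 2, 18908), (.mj 4 5, 2322), (.rw 5, 1), (.hz 7 11, 1019386), (.hz 7 31, 1234263), (.hz 6 151, 3079899)]))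
(.lp [[5], [1, 3, 6], [0, 2, 4, 7]] [(.mj 1 2, 4580), (.mj 4 5, 653), (.hz 7 15, 284660), (.hz 7 31, 204053), (.hz 6 151, 739288)])))
(.lp [[5], [1, 3, 6], [0, 2, 4, 7]] [(.mj 3 4, 1984), (.mj 5 6, 982), (.rw 5, 1), (.hz 6 5, 27074), (.hz 6 7, 259337), (.hz 5 79, 66493)]))
(.haz 3 151 6 25
(.ask 75
(.ref 0)
(.haz 5 79 1 25
(.haz 6 191 7 50
(.haz 5 95 3 50
(.haz 6 191 1 4
(.haz 3 39 2 5
(.ask 79
(.mark 95 [5, 7, 8]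
(.spn
(.haz 5 351 3 25
(.haz 7 351 1 5
(.haz 5 151 2 25
(.haz 5 159 3 25
(.haz 7 351 11 50
(.haz 5 159 7 50
(.maj 7 8
(.haz 8 127 9 25
(.lp [[5], [0, 2, 4, 7], [1, 3, 6, 8]] [(.mj 1 2, 1896), (.mj 4 6, 3251), (.mj 5 7, 5371), (.mj 6 5, 6635), (.mj 7 8, 3745), (.rw 6, 1), (.hz 14 151, 1184811), (.hz 17 159, 1224226), (.hz 18 127, 7192141), (.hz 16 351, 1544203)])
(.lp [[5], [0, 2, 4, 7], [1, 3, 6, 8]] [(.mj 3 4, 8), (.mj 4 6, 35), (.mj 5 7, 25), (.mj 6 5, 37), (.hz 3 149, 215), (.hz 18 79, 475), (.hz 14 151, 7835), (.hz 18 95, 6121), (.hz 17 159, 7916), (.hz 12 351, 7344), (.hz 16 351, 7041)]))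
(.lp [[5], [0, 2, 4, 7], [1, 3, 6, 8]] [(.mj 3 4, 22), (.mj 4 6, 35), (.mj 5 8, 20), (.mj 6 5, 52), (.mj 8 7, 20), (.hz 3 149, 555), (.hz 14 151, 20243), (.hz 17 159, 20066), (.hz 17 223, 14774), (.hz 12 351, 5448), (.hz 16 351, 7523)]))
(.lp [[5], [0, 2, 4, 7], [1, 3, 6, 8]] [(.mj 3 4, 23), (.mj 4 6, 29), (.mj 5 7, 37), (.mj 5 8, 17), (.hz 17 5, 546), (.hz 17 7, 1728), (.hz 17 15, 3102), (.hz 17 31, 11734), (.hz 15 159, 13915), (.hz 12 351, 3540), (.hz 16 351, 17051)]))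
(.lp [[5], [0, 2, 4, 7], [1, 3, 6, 8]] [(.mj 3 4, 4), (.mj 4 6, 14), (.mj 5 8, 4), (.mj 6 5, 12), (.hz 16 21, 133), (.hz 16 23, 448), (.hz 16 31, 1309), (.hz 14 151, 2342), (.hz 16 95, 1741), (.hz 15 159, 4042), (.hz 12 351, 4486), (.hz 13 351, 13225)]))
(.lp [[5], [0, 2, 4, 7], [1, 3, 6, 8]] [(.mj 3 4, 5), (.mj 4 6, 7), (.mj 5 7, 9), (.mj 5 8, 4), (.hz 15 5, 266), (.hz 15 7, 834), (.hz 15 15, 1479), (.hz 15 31, 5518), (.hz 14 151, 572), (.hz 14 159, 2823), (.hz 12 351, 728), (.hz 13 351, 42169)]))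
(.lp [[5], [0, 2, 4, 7], [1, 3, 6, 8]] [(.mj 3 4, 4), (.mj 4 6, 3), (.mj 5 7, 2), (.mj 5 8, 1), (.hz 14 5, 101), (.hz 14 7, 907), (.hz 13 351, 9956)]))
(.lp [[5], [0, 2, 4, 7], [1, 3, 6, 8]] [(.mj 4 6, 2957), (.mj 6 5, 1984), (.rw 6, 1), (.hz 13 21, 259426), (.hz 13 23, 1102561), (.hz 13 31, 2675333), (.hz 13 95, 1545744), (.hz 9 223, 506808), (.hz 12 351, 1191958)]))
(.lp [[5], [0, 2, 4, 7], [1, 3, 6, 8]] [(.mj 4 6, 225), (.mj 5 7, 60), (.rw 6, 1), (.hz 12 95, 720591), (.hz 9 223, 15101), (.hz 9 351, 64656)]))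
(.haz 5 15 3 25
(.lp [[5], [0, 2, 4, 7], [1, 3, 6, 8]] [(.mj 3 4, 56), (.mj 4 6, 29), (.mj 7 5, 46), (.hz 12 31, 22166), (.hz 12 79, 13283), (.hz 12 95, 16978), (.hz 12 159, 19611), (.hz 5 335, 869), (.hz 12 335, 8057), (.hz 12 351, 26474)])
(.haz 4 39 3 10
(.haz 6 47 17 50
(.ask 37
(.mark 63 [6, 7, 9]
(.cut 5 [(0, 1), (1, 1), (2, 1), (3, 1), (5, 1), (7, 1), (11, 1), (21, 1), (15, 1), (23, 1), (75, 1), (31, 1), (79, 1), (95, 1)]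
(.lp [[5, 9], [0, 2, 4, 7], [1, 3, 6, 8]] [(.mj 3 4, 10266), (.mj 4 6, 7095), (.mj 7 5, 704), (.hz 13 39, 152647), (.hz 3 549, 281258), (.hz 13 551, 7655919), (.hz 14 559, 1589648), (.hz 14 575, 296313), (.rw 7, 2)])))
(.ask 39
(.mark 63 [6, 7, 9]
(.cut 5 [(0, 1), (1, 1), (2, 1), (3, 1), (5, 1), (7, 1), (11, 1), (21, 1), (15, 1), (23, 1), (75, 1), (31, 1), (79, 1), (95, 1)]
(.lp [[5, 9], [0, 2, 4, 7], [1, 3, 6, 8]] [(.mj 3 4, 9594), (.mj 4 6, 6631), (.mj 7 5, 640), (.hz 13 39, 171875), (.hz 13 551, 5434722), (.hz 14 559, 1401024), (.hz 14 575, 262976), (.rw 7, 2)])))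
(.ask 47
(.haz 5 31 1 10
(.mark 63 [6, 7, 9]
(.lp [[5, 9], [0, 2, 4, 7], [1, 3, 6, 8]] [(.mj 3 4, 36), (.mj 4 6, 26), (.hz 12 15, 2215), (.hz 15 159, 16087), (.hz 14 559, 4817), (.hz 14 575, 754), (.hz 15 223, 3771), (.hz 15 351, 13585)]))
(.mark 63 [6, 7, 9]
(.cut 5 [(0, 1), (1, 1), (2, 1), (3, 1), (5, 1), (7, 1), (11, 1), (21, 1), (15, 1), (23, 1), (75, 1), (31, 1), (79, 1), (95, 1)]
(.lp [[5, 9], [0, 2, 4, 7], [1, 3, 6, 8]] [(.mj 3 4, 11481), (.mj 4 6, 8183), (.hz 15 15, 1423762), (.hz 14 559, 1456768), (.hz 14 575, 298015), (.hz 9 223, 150536), (.hz 13 623, 129951), (.rw 7, 2)]))))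
(.cut 5 [(0, 1), (1, 1), (2, 1), (3, 1), (5, 1), (7, 1), (11, 1), (21, 1), (15, 1), (23, 1), (75, 1), (31, 1), (79, 1), (95, 1)]
(.lp [[5], [0, 2, 4, 7], [1, 3, 6, 8]] [(.mj 3 4, 19443), (.mj 4 6, 10591), (.mj 7 5, 1191), (.mj 7 8, 1084), (.hz 9 223, 97197), (.rw 7, 4)])))))
(.lp [[5], [0, 2, 4, 7], [1, 3, 6, 8]] [(.mj 3 4, 2), (.hz 12 5, 2), (.hz 3 37, 34), (.hz 12 15, 225), (.hz 14 15, 157), (.hz 13 39, 743)]))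
(.lp [[5], [0, 2, 4, 7], [1, 3, 6, 8]] [(.mj 4 6, 5), (.mj 7 8, 1), (.hz 12 5, 64), (.hz 13 7, 3762), (.hz 12 7, 714), (.hz 12 15, 940), (.hz 3 53, 134), (.hz 3 149, 134), (.hz 7 79, 927)])))
(.haz 7 95 7 25
(.cut 5 [(0, 1), (1, 1), (2, 1), (3, 1), (5, 1), (7, 1), (11, 1), (21, 1), (15, 1), (23, 1), (75, 1), (31, 1), (79, 1), (95, 1)]
(.lp [[5], [0, 2, 4, 7], [1, 3, 6, 8]] [(.mj 4 6, 640), (.mj 8 5, 466), (.mj 8 7, 466), (.hz 3 181, 12590), (.hz 12 95, 155635), (.hz 11 183, 23074), (.hz 12 127, 869952), (.rw 7, 1)]))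
(.cut 5 [(0, 1), (1, 1), (2, 1), (3, 1), (5, 1), (7, 1), (11, 1), (21, 1), (15, 1), (23, 1), (75, 1), (31, 1), (79, 1), (95, 1)]
(.lp [[5], [0, 2, 4, 7], [1, 3, 6, 8]] [(.mj 3 4, 1062), (.mj 4 6, 6725), (.mj 8 5, 3831), (.mj 8 7, 1329), (.hz 12 21, 49987), (.hz 12 23, 219386), (.hz 12 31, 739052), (.hz 3 181, 166038), (.hz 11 183, 3786276), (.hz 10 191, 25382850), (.hz 9 351, 211324), (.rw 7, 7)])))
.fin))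
(.ref 1))
(.cut 5 [(0, 1), (1, 1), (2, 1), (3, 1), (5, 1), (7, 1), (11, 1), (75, 1)]
(.cut 5 [(0, 1), (1, 1), (2, 1), (3, 1), (5, 1), (7, 1), (11, 1), (15, 1), (75, 1)]
(.lp [[5], [1, 3, 6], [0, 2, 4, 7]] [(.mj 1 2, 4160849), (.mj 4 5, 243345), (.mj 4 6, 103375), (.mj 6 5, 389828), (.hz 11 7, 1356798541), (.hz 5 111, 35165653), (.rw 6, 712), (.rw 7, 87)]))))
(.lp [[5], [1, 3, 6], [0, 2, 4, 7]] [(.mj 3 4, 419), (.mj 6 7, 149), (.rw 5, 1), (.hz 10 31, 3661945)]))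
(.cut 5 [(0, 1), (1, 1), (2, 1), (3, 1), (5, 1), (7, 1), (11, 1), (15, 1), (75, 1)]
(.lp [[5], [1, 3, 6], [0, 2, 4, 7]] [(.mj 3 4, 45), (.mj 4 6, 37), (.hz 9 21, 244037), (.hz 9 23, 716853), (.hz 3 149, 627), (.hz 9 31, 1166474), (.hz 9 79, 1679113), (.rw 6, 13)])))
(.lp [[5], [1, 3, 6], [0, 2, 4, 7]] [(.mj 6 5, 1), (.mj 6 7, 1), (.hz 8 15, 85), (.hz 8 31, 122)]))
(.cut 5 [(0, 1), (1, 1), (2, 1), (3, 1), (5, 1), (7, 1), (11, 1), (15, 1), (75, 1)]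
(.lp [[5], [1, 3, 6], [0, 2, 4, 7]] [(.hz 7 5, 50007), (.hz 7 7, 100013), (.hz 7 15, 100013), (.hz 7 79, 100013), (.rw 6, 1)]))))
(.lp [[5], [1, 3, 6], [0, 2, 4, 7]] [(.mj 1 2, 1), (.hz 6 3, 32), (.hz 6 7, 1), (.hz 6 23, 17)]))
(.haz 5 23 3 25
(.lp [[5], [1, 3, 6], [0, 2, 4, 7]] [(.mj 3 4, 13), (.mj 7 5, 12), (.mj 7 6, 9), (.hz 6 23, 3588), (.hz 4 75, 305), (.hz 6 31, 1924), (.hz 5 79, 1524), (.hz 6 151, 1364), (.hz 6 95, 14853)])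
(.haz 5 23 3 50
(.lp [[5], [1, 3, 6], [0, 2, 4, 7]] [(.mj 3 4, 17), (.mj 7 6, 9), (.hz 6 5, 270), (.hz 6 7, 2582), (.hz 7 23, 1760), (.hz 4 75, 15), (.hz 5 79, 850), (.hz 7 151, 1297), (.hz 7 95, 4324)])
(.lp [[5], [1, 3, 6], [0, 2, 4, 7]] [(.mj 3 4, 8), (.mj 7 6, 4), (.hz 7 5, 62), (.hz 7 7, 538), (.hz 4 75, 29), (.hz 5 79, 308)])))
.fin))

theorem run96 : run P3488 (leaf3 218 625) (cutRow P3488) [s83, s82] t96 s96 = true := by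
  decide +kernel

theorem bad96 : Bad P3488 s96 :=
  run_sound (leaf3_sound P3488 rfl rfl) (cutRow_sound P3488) (
    List.forall_mem_cons.2 ⟨bad83, List.forall_mem_cons.2 ⟨bad82, fun _ h => absurd h List.not_mem_nil⟩⟩) t96 s96 run96

/-- the state above piece 53 of the tree -/
def s53 : St := ⟨[0, 0, 1, 1, 7, 7, 11, 31, 55, 159], [63, 47, 39, 31, 23, 15, 13, 9, 7, 5, 3, 2, 1, 0], [0, 1, 2, 3, 4, 5, 7],
  [(3, 4)],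
  [⟨true, 1, 9, 7, 50⟩, ⟨true, 2, 11, 3, 50⟩, ⟨true, 2, 9, 9, 50⟩, ⟨true, 3, 3, 1, 5⟩, ⟨true, 1, 5, 13, 50⟩, ⟨true, 2, 11, 3, 5⟩, ⟨true, 2, 9, 8, 25⟩, ⟨true, 2, 9, 17, 50⟩, ⟨true, 2, 11, 33, 50⟩, ⟨true, 4, 47, 4, 25⟩, ⟨true, 3, 39, 13, 50⟩, ⟨true, 3, 39, 3, 10⟩, ⟨true, 5, 79, 7, 50⟩, ⟨true, 3, 39, 8, 25⟩, ⟨true, 4, 79, 7, 25⟩, ⟨true, 4, 79, 2, 5⟩, ⟨true, 3, 55, 2, 5⟩, ⟨true, 6, 159, 2, 25⟩, ⟨true, 5, 79, 1, 5⟩, ⟨true, 3, 55, 23, 50⟩, ⟨true, 3, 55, 1, 2⟩, ⟨true, 2, 75, 18, 25⟩, ⟨true, 3, 55, 13, 25⟩, ⟨true, 2, 75, 19, 25⟩, ⟨true, 7, 63, 4, 25⟩, ⟨true, 4, 79, 12, 25⟩, ⟨false, 6, 31, 9, 50⟩, ⟨true, 6, 319, 2, 25⟩, ⟨true, 6, 319, 1, 10⟩, ⟨true, 3, 311, 27, 50⟩, ⟨true, 7, 319, 3, 10⟩, ⟨true, 7, 319, 19, 50⟩, ⟨true, 4, 79, 13, 25⟩, ⟨true, 7, 95, 17, 50⟩],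
  [.spn 0 0 651200, .spn 1 1 140426, .spn 3 2 302400, .spn 7 3 62723, .spn 15 4 140426, .spn 31 5 62723, .spn 63 7 140426]⟩

/-- piece 53 of the tree -/
noncomputable def t53 : WN.Tree :=
(.mark 191 [6, 8, 9]
(.spn
(.haz 8 703 7 50
(.haz 8 703 9 50
(.haz 8 703 1 5
(.haz 8 255 7 50
(.haz 8 255 4 25
(.haz 3 311 3 5
(.haz 6 319 3 25
(.haz 6 319 7 50
(.haz 7 319 9 20
(.haz 6 703 3 20
(.haz 8 255 1 5
(.maj 8 9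
(.ask 75
(.mark 255 [8, 9, 10]
(.lp [[1, 5, 8], [3, 6, 10], [0, 2, 4, 7, 9]] [(.mj 5 7, 890), (.mj 6 8, 2723), (.mj 7 6, 3114), (.mj 8 9, 1510), (.rw 7, 1), (.hz 39 311, 99108), (.hz 42 319, 209229), (.hz 17 671, 1381370), (.hz 43 703, 2783497), (.hz 36 703, 17015696), (.hz 44 1279, 21675278)]))
(.haz 9 447 13 40
(.ask 79
(.mark 255 [8, 9, 10]
(.lp [[1, 5, 8], [3, 6, 10], [0, 2, 4, 7, 9]] [(.mj 6 8, 893), (.mj 7 6, 1381), (.mj 8 9, 833), (.rw 7, 1), (.hz 39 311, 146974), (.hz 42 319, 310278), (.hz 17 671, 612405), (.hz 45 447, 697812), (.hz 43 703, 1447503), (.hz 44 1279, 8313864)]))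
(.ask 95
(.mark 255 [8, 9, 10]
(.lp [[1, 5, 8], [3, 6, 10], [0, 2, 4, 7, 9]] [(.mj 5 7, 4), (.mj 6 8, 20), (.mj 7 6, 28), (.mj 8 9, 17), (.hz 39 311, 5509), (.hz 41 319, 6847), (.hz 42 319, 6304), (.hz 17 671, 12591), (.hz 45 447, 15770), (.hz 43 703, 53946), (.hz 44 1279, 130897)]))
(.ask 111
(.mark 255 [8, 9, 10]
(.lp [[1, 5, 8], [3, 6, 10], [0, 2, 4, 7, 9]] [(.mj 5 7, 4), (.mj 6 8, 18), (.mj 7 6, 26), (.mj 8 9, 15), (.hz 39 311, 5280), (.hz 41 319, 7630), (.hz 42 319, 5212), (.hz 17 671, 11546), (.hz 45 447, 13927), (.hz 43 703, 49468), (.hz 44 1279, 116903)]))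
(.ask 127
(.mark 255 [8, 9, 10]
(.lp [[1, 5, 8], [3, 6, 10], [0, 2, 4, 7, 9]] [(.mj 1 2, 513), (.mj 6 8, 10), (.mj 7 6, 27), (.mj 8 9, 8), (.hz 39 311, 17073), (.hz 41 319, 9997), (.hz 42 319, 4503), (.hz 17 671, 1648), (.hz 45 447, 7859), (.hz 43 703, 23338), (.hz 44 1279, 74914)]))
(.ask 311
(.mark 447 [6, 9, 10]
(.lp [[3, 6], [1, 5, 8, 10], [0, 2, 4, 7, 9]] [(.mj 6 8, 22), (.mj 6 9, 60), (.mj 7 6, 90), (.hz 39 311, 48295), (.hz 41 319, 14720), (.hz 42 319, 25361), (.hz 44 255, 112455), (.hz 45 447, 50666), (.hz 41 1343, 83760), (.hz 45 1471, 105895)]))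
(.ask 671
(.mark 703 [6, 8, 10]
(.lp [[3, 6], [1, 5, 8], [0, 2, 4, 7, 9, 10]] [(.mj 1 2, 1601), (.mj 5 7, 14), (.mj 6 8, 34), (.mj 7 6, 112), (.mj 8 9, 22), (.hz 41 319, 68973), (.hz 42 319, 1218), (.hz 45 447, 20054), (.hz 43 703, 104451), (.hz 17 1695, 16440), (.hz 36 1727, 258892)]))
(.lp [[3, 6], [1, 5, 8], [0, 2, 4, 7, 9]] [(.mj 1 2, 562), (.mj 6 8, 117), (.mj 7 6, 281), (.mj 8 9, 114), (.hz 41 319, 207367), (.hz 45 447, 91145), (.hz 43 703, 609789)])))))))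
(.lp [[3, 6], [1, 5, 8], [0, 2, 4, 7, 9]] [(.mj 1 2, 34), (.mj 4 5, 3), (.mj 6 8, 26), (.mj 7 6, 47), (.hz 45 159, 6642), (.hz 45 191, 19993), (.hz 41 319, 45859), (.hz 36 703, 160172)])))
(.lp [[3, 6], [1, 5, 8], [0, 2, 4, 7, 9]] [(.mj 5 7, 100), (.mj 6 9, 194), (.mj 7 6, 295), (.mj 9 8, 255), (.hz 39 311, 49607), (.hz 41 319, 174302), (.hz 17 671, 1753), (.hz 44 255, 6447523), (.hz 36 703, 1768165)]))
(.lp [[3, 6], [1, 5, 8], [0, 2, 4, 7, 9]] [(.mj 6 9, 7), (.mj 7 6, 12), (.hz 44 55, 6218), (.hz 44 63, 14735), (.hz 44 191, 45652), (.hz 41 319, 9048), (.hz 43 703, 1192), (.hz 36 703, 61086)]))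
(.lp [[3, 6], [1, 5, 8], [0, 2, 4, 7, 9]] [(.mj 2 3, 5834), (.mj 6 8, 4026), (.mj 6 9, 2712), (.rw 7, 4), (.hz 43 15, 126758), (.hz 43 31, 792557), (.hz 43 47, 792557), (.hz 43 63, 2752891), (.hz 43 159, 932420), (.hz 43 191, 14107927), (.hz 41 319, 358006), (.hz 36 703, 49912957)]))
(.lp [[3, 6], [1, 5, 8], [0, 2, 4, 7, 9]] [(.mj 1 2, 41), (.mj 4 5, 13), (.mj 6 8, 32), (.mj 7 6, 47), (.hz 42 31, 19740), (.hz 42 63, 38351), (.hz 41 319, 23696), (.hz 31 319, 11593), (.hz 36 703, 199864)]))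
(.lp [[3, 6], [1, 5, 8], [0, 2, 4, 7, 9]] [(.mj 2 3, 39), (.mj 5 7, 11), (.mj 6 8, 44), (.mj 6 9, 24), (.hz 41 11, 98), (.hz 41 15, 2546), (.hz 41 31, 5017), (.hz 41 47, 4759), (.hz 41 63, 39373), (.hz 40 319, 42865), (.hz 36 703, 491827)]))
(.lp [[3, 6], [1, 5, 8], [0, 2, 4, 7, 9]] [(.mj 5 7, 2), (.mj 6 8, 5), (.mj 6 9, 3), (.hz 40 11, 300), (.hz 40 15, 841), (.hz 40 31, 1256), (.hz 40 47, 1256), (.hz 40 63, 8695), (.hz 28 319, 11629), (.hz 17 671, 233), (.hz 36 703, 55385)]))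
(.lp [[3, 6], [1, 5, 8], [0, 2, 4, 7, 9]] [(.mj 4 5, 1), (.mj 6 8, 29), (.mj 7 6, 14), (.hz 39 23, 51754), (.hz 23 75, 190), (.hz 32 79, 1108), (.hz 39 55, 69959), (.hz 29 311, 11568), (.hz 28 319, 41864), (.hz 31 319, 10631), (.hz 17 671, 2316), (.hz 36 703, 183291)]))
(.lp [[3, 6], [1, 5, 8], [0, 2, 4, 7, 9]] [(.mj 6 9, 2), (.mj 7 6, 3), (.hz 38 55, 345), (.hz 38 63, 1674), (.hz 38 191, 2625), (.hz 17 671, 152), (.hz 37 255, 2263), (.hz 36 703, 17760)]))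
(.lp [[3, 6], [1, 5, 8], [0, 2, 4, 7, 9]] [(.mj 2 3, 12), (.mj 6 9, 1), (.hz 37 55, 411), (.hz 37 63, 542), (.hz 37 191, 663), (.hz 17 671, 1014), (.hz 36 703, 7341)]))
(.lp [[3, 6], [1, 5, 8], [0, 2, 4, 7, 9]] [(.mj 6 9, 17), (.mj 7 6, 29), (.hz 36 55, 15270), (.hz 36 63, 46888), (.hz 36 191, 114794), (.hz 28 319, 112757), (.hz 17 671, 3025), (.hz 35 703, 15721)]))
(.lp [[3, 6], [1, 5, 8], [0, 2, 4, 7, 9]] [(.mj 6 9, 16), (.mj 7 6, 26), (.hz 35 55, 1371), (.hz 35 63, 4227), (.hz 35 191, 10138), (.hz 28 319, 101270), (.hz 17 671, 2564), (.hz 34 703, 14663)]))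
(.lp [[3, 6], [1, 5, 8], [0, 2, 4, 7, 9]] [(.mj 1 2, 213), (.mj 2 3, 117), (.mj 6 9, 5), (.hz 34 55, 4049), (.hz 34 63, 3707), (.hz 34 191, 4011), (.hz 28 319, 5757), (.hz 17 671, 8603)]))
(.ref 0)
(.haz 6 159 1 10
(.haz 6 31 3 25
(.lp [[3, 6], [1, 5, 8], [0, 2, 4, 7, 9]] [(.mj 1 2, 123), (.mj 5 7, 5), (.mj 9 6, 71), (.mj 9 8, 2), (.hz 35 31, 24424), (.hz 35 63, 62646), (.hz 35 159, 22427), (.hz 29 311, 3843), (.hz 35 191, 68824), (.hz 35 319, 63562), (.hz 31 319, 9122), (.hz 35 447, 135947)])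
(.haz 8 63 3 10
(.lp [[3, 6], [1, 5, 8], [0, 2, 4, 7, 9]] [(.mj 5 7, 5), (.mj 9 6, 6), (.mj 9 8, 7), (.hz 35 11, 56), (.hz 35 15, 157), (.hz 35 31, 235), (.hz 36 63, 7818), (.hz 34 159, 11262), (.hz 32 111, 398), (.hz 34 191, 14583), (.hz 36 191, 26726), (.hz 28 319, 45068), (.hz 28 447, 92006)])
(.ask 75
(.maj 6 8
(.mark 79 [4, 5, 10]
(.cut 6 [(0, 1), (1, 1), (2, 1), (3, 1), (5, 1), (9, 1), (7, 1), (11, 1), (13, 1), (15, 1), (23, 1), (39, 1), (31, 1), (47, 1), (55, 1), (63, 1), (159, 1), (191, 1)]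
(.lp [[1, 5, 8], [3, 6, 10], [0, 2, 4, 7, 9]] [(.mj 1 2, 680833), (.mj 5 7, 21625), (.mj 9 6, 51890), (.hz 23 1099, 20005804), (.hz 32 1103, 44545187), (.hz 18 1103, 38233692), (.hz 29 311, 3843086), (.hz 28 319, 219248824), (.hz 31 319, 9129151), (.hz 18 1119, 217969291), (.hz 33 1119, 41440702), (.hz 28 447, 556731723), (.hz 18 1247, 639976091), (.hz 28 959, 1), (.rw 8, 85)])))
(.haz 8 191 6 25
(.mark 255 [8, 9, 10]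
(.lp [[1, 5, 8], [3, 6, 10], [0, 2, 4, 7, 9]] [(.mj 1 2, 242), (.mj 5 7, 8), (.mj 8 6, 41), (.mj 9 8, 17), (.hz 23 1099, 6580), (.hz 34 159, 69524), (.hz 32 1103, 10769), (.hz 18 1103, 28636), (.hz 29 311, 1367), (.hz 34 191, 273139), (.hz 37 191, 17495), (.hz 28 319, 139565), (.hz 18 1119, 126051), (.hz 34 671, 10597), (.hz 28 447, 24703), (.hz 37 1279, 212191)]))
(.mark 255 [8, 9, 10]
(.lp [[1, 5, 8], [3, 6, 10], [0, 2, 4, 7, 9]] [(.mj 1 2, 473), (.mj 8 6, 60), (.mj 9 8, 5), (.hz 37 55, 4966), (.hz 23 1099, 12619), (.hz 37 63, 6488), (.hz 34 159, 68161), (.hz 32 1103, 18918), (.hz 18 1103, 62091), (.hz 34 191, 304736), (.hz 37 191, 716), (.hz 28 319, 149833), (.hz 18 1119, 162495), (.hz 34 671, 41240), (.hz 34 703, 141729)]))))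
(.lp [[3, 6], [1, 5, 8], [0, 2, 4, 7, 9]] [(.mj 1 2, 481), (.mj 4 5, 1), (.hz 35 15, 11432), (.hz 32 79, 393), (.hz 36 55, 3965), (.hz 36 63, 1034), (.hz 28 319, 2268), (.hz 34 671, 2134)]))))
(.lp [[3, 6], [1, 5, 8], [0, 2, 4, 7, 9]] [(.mj 1 2, 160), (.mj 9 8, 1), (.hz 34 11, 11070), (.hz 23 75, 313), (.hz 17 159, 76), (.hz 29 311, 302), (.hz 28 319, 3139), (.hz 31 319, 279), (.hz 17 671, 242)]))
.fin))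

theorem run53 : run P3488 (leaf3 218 625) (cutRow P3488) [s52] t53 s53 = true := by
  decide +kernel

theorem bad53 : Bad P3488 s53 :=
  run_sound (leaf3_sound P3488 rfl rfl) (cutRow_sound P3488) (
    List.forall_mem_cons.2 ⟨bad52, fun _ h => absurd h List.not_mem_nil⟩) t53 s53 run53

/-- the state above piece 116 of the tree -/
def s116 : St := ⟨[0, 0, 1, 3, 5, 7, 15, 23, 79], [31, 21, 15, 11, 7, 5, 3, 2, 1, 0], [0, 1, 2, 3, 4, 6],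
  [],
  [⟨true, 2, 3, 3, 10⟩, ⟨true, 1, 5, 2, 5⟩, ⟨true, 2, 3, 23, 50⟩, ⟨true, 1, 5, 12, 25⟩, ⟨true, 4, 39, 4, 25⟩, ⟨true, 4, 39, 9, 50⟩, ⟨true, 4, 15, 4, 25⟩, ⟨true, 4, 15, 9, 50⟩, ⟨true, 1, 21, 29, 50⟩, ⟨true, 3, 39, 6, 25⟩, ⟨true, 3, 39, 3, 10⟩, ⟨true, 4, 39, 6, 25⟩, ⟨true, 3, 39, 17, 50⟩, ⟨true, 3, 39, 19, 50⟩, ⟨true, 3, 39, 2, 5⟩, ⟨true, 3, 23, 2, 5⟩, ⟨true, 4, 79, 6, 25⟩, ⟨true, 4, 39, 7, 25⟩, ⟨false, 5, 15, 1, 5⟩, ⟨true, 3, 39, 11, 25⟩, ⟨true, 5, 159, 3, 50⟩, ⟨true, 6, 47, 3, 10⟩],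
  [.spn 0 0 651200, .spn 1 1 302400, .spn 3 2 302400, .spn 7 3 140426, .spn 15 4 140426, .spn 31 6 140426]⟩

/-- piece 116 of the tree -/
noncomputable def t116 : WN.Tree :=
(.mark 95 [5, 7, 8]
(.spn
(.ref 0)
(.haz 5 335 1 20
(.haz 6 47 3 8
(.haz 8 223 1 8
(.ask 151
(.mark 223 [5, 8, 9]
(.spn
(.lp [[5], [1, 3, 6, 8], [0, 2, 4, 7, 9]] [(.mj 5 8, 1878), (.mj 6 7, 3600), (.mj 7 5, 1993), (.rw 6, 2), (.rw 7, 2), (.hz 22 335, 360248), (.hz 22 351, 1008693), (.hz 20 671, 2716983), (.hz 17 367, 139631), (.hz 24 735, 6454019)])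
(.haz 4 335 3 10
(.haz 4 335 7 20
(.haz 4 335 2 5
(.maj 5 9
(.haz 5 31 1 10
(.lp [[5], [1, 3, 6, 8], [0, 2, 4, 7, 9]] [(.mj 3 4, 35), (.mj 7 8, 27), (.mj 8 5, 34), (.hz 28 31, 26623), (.hz 28 95, 12639), (.hz 28 159, 48942), (.hz 27 335, 4662), (.hz 22 335, 10965), (.hz 28 223, 41801), (.hz 28 351, 100734), (.hz 28 671, 73742), (.hz 28 735, 92077)])
(.cut 5 [(0, 1), (1, 1), (2, 1), (3, 1), (5, 1), (7, 1), (11, 1), (21, 1), (15, 1), (23, 1), (31, 1), (79, 1), (151, 1), (95, 1), (159, 1), (223, 1)]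
(.lp [[5], [1, 3, 6, 8], [0, 2, 4, 7, 9]] [(.mj 3 4, 78903), (.mj 7 8, 51425), (.mj 8 5, 12040), (.hz 28 15, 24615439), (.hz 17 39, 8439579), (.hz 20 671, 20990408), (.hz 20 735, 16506921), (.rw 8, 61)])))
(.cut 5 [(0, 1), (1, 1), (2, 1), (3, 1), (5, 1), (7, 1), (11, 1), (21, 1), (15, 1), (23, 1), (31, 1), (79, 1), (151, 1), (95, 1), (159, 1), (223, 1)]
(.lp [[5], [1, 3, 6, 8], [0, 2, 4, 7, 9]] [(.mj 3 4, 63127), (.mj 7 8, 27528), (.mj 9 5, 34433), (.hz 27 335, 10789398), (.hz 27 367, 64246294), (.hz 20 479, 21384236), (.rw 8, 92)])))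
(.cut 5 [(0, 1), (1, 1), (2, 1), (3, 1), (5, 1), (7, 1), (11, 1), (21, 1), (15, 1), (23, 1), (31, 1), (79, 1), (151, 1), (95, 1), (159, 1), (223, 1)]
(.lp [[5], [1, 3, 6, 8], [0, 2, 4, 7, 9]] [(.mj 3 4, 28814), (.mj 4 6, 9333), (.mj 7 8, 16043), (.mj 8 5, 13320), (.hz 17 39, 2042237), (.hz 17 47, 3403728), (.hz 27 79, 36056974), (.hz 17 111, 2873064), (.hz 26 335, 8323953), (.hz 20 671, 2143827), (.hz 23 703, 18635973), (.rw 8, 26)])))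
(.lp [[5], [1, 3, 6, 8], [0, 2, 4, 7, 9]] [(.mj 4 6, 362), (.mj 7 8, 231), (.rw 6, 1), (.hz 26 79, 969253), (.hz 17 111, 549243), (.hz 25 335, 1612378), (.hz 22 335, 93973), (.hz 22 351, 368663)]))
(.lp [[5], [1, 3, 6, 8], [0, 2, 4, 7, 9]] [(.mj 4 6, 5), (.mj 7 5, 2), (.hz 25 7, 950), (.hz 25 15, 1665), (.hz 19 39, 263), (.hz 17 39, 192), (.hz 17 47, 452), (.hz 23 47, 4517), (.hz 17 111, 684), (.hz 22 335, 300), (.hz 15 663, 43)]))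
(.lp [[5], [1, 3, 6, 8], [0, 2, 4, 7, 9]] [(.mj 3 4, 243), (.mj 4 6, 25), (.mj 9 5, 82), (.mj 9 8, 87), (.hz 17 39, 41879), (.hz 17 47, 8427), (.hz 20 159, 22812), (.hz 17 111, 2717), (.hz 16 335, 4458), (.hz 22 335, 100448), (.hz 20 223, 21036), (.hz 24 223, 210926), (.hz 20 671, 19734), (.hz 17 367, 149630), (.hz 20 479, 183873)])
.fin))
(.ref 1))
(.lp [[5], [0, 2, 4, 7], [1, 3, 6, 8]] [(.mj 3 4, 28), (.mj 7 5, 6), (.hz 17 39, 5232), (.hz 17 47, 2308), (.hz 24 79, 5307), (.hz 24 95, 5781), (.hz 20 159, 1708), (.hz 17 111, 204)]))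
(.cut 5 [(0, 1), (1, 1), (2, 1), (3, 1), (5, 1), (7, 1), (11, 1), (21, 1), (15, 1), (23, 1), (31, 1), (79, 1), (151, 1), (95, 1), (159, 1), (335, 1)]
(.cut 5 [(0, 1), (1, 1), (2, 1), (3, 1), (5, 1), (7, 1), (11, 1), (21, 1), (15, 1), (23, 1), (31, 1), (79, 1)]
(.lp [[5], [0, 2, 4, 7], [1, 3, 6, 8]] [(.mj 3 4, 24717), (.mj 7 5, 6177), (.hz 23 15, 8389872), (.hz 17 39, 4959742), (.hz 17 47, 494897), (.hz 21 47, 2847691), (.hz 22 335, 892478), (.hz 22 351, 3132714), (.rw 7, 1), (.rw 8, 2)]))))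
(.cut 5 [(0, 1), (1, 1), (2, 1), (3, 1), (5, 1), (7, 1), (11, 1), (21, 1), (15, 1), (79, 1)]
(.lp [[5], [0, 2, 4, 7], [1, 3, 6, 8]] [(.hz 22 7, 210111), (.hz 22 15, 51890), (.rw 7, 1)])))
(.haz 7 351 3 40
(.haz 7 351 1 8
(.haz 6 159 9 20
(.haz 7 31 13 40
(.lp [[5], [0, 2, 4, 7], [1, 3, 6, 8]] [(.mj 0 1, 20), (.mj 4 6, 2), (.mj 8 5, 1), (.mj 8 7, 5), (.hz 19 39, 404), (.hz 25 31, 355), (.hz 17 47, 1209), (.hz 21 47, 1595), (.hz 19 55, 926), (.hz 25 63, 4775), (.hz 25 95, 1117), (.hz 17 111, 361), (.hz 24 191, 9010)])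
(.ask 335
(.mark 351 [5, 7, 9]
(.spn
(.lp [[5], [0, 2, 4, 7], [1, 3, 6, 8, 9]] [(.mj 3 4, 60), (.mj 4 6, 1219), (.mj 5 7, 656), (.mj 8 5, 886), (.rw 7, 1), (.hz 25 23, 15784), (.hz 20 159, 189381), (.hz 24 159, 86937), (.hz 23 351, 689725), (.hz 23 863, 1229590)])
(.cut 5 [(0, 1), (1, 1), (2, 1), (3, 1), (5, 1), (7, 1), (11, 1), (21, 1), (15, 1), (23, 1), (31, 1), (79, 1), (95, 1)]
(.lp [[5], [0, 2, 4, 7], [1, 3, 6, 8, 9]] [(.mj 4 6, 18500), (.mj 7 5, 8885), (.mj 8 5, 2678), (.mj 8 7, 11563), (.rw 7, 2), (.hz 19 183, 4203572), (.hz 24 191, 15868221), (.rw 8, 26)]))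
(.cut 5 [(0, 1), (1, 1), (2, 1), (3, 1), (5, 1), (7, 1), (11, 1), (21, 1), (15, 1), (23, 1), (31, 1), (79, 1), (95, 1)]
(.lp [[5], [0, 2, 4, 7], [1, 3, 6, 8, 9]] [(.mj 3 4, 146), (.mj 4 6, 1086), (.mj 9 5, 637), (.mj 9 7, 538), (.hz 25 23, 5405), (.hz 19 39, 18122), (.hz 21 47, 261768), (.hz 24 159, 95020), (.hz 19 183, 74089), (.hz 23 351, 665141), (.rw 8, 1)]))
.fin))
(.ask 351
(.mark 351 [5, 7, 9]
(.spn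
(.lp [[5], [0, 2, 4, 7], [1, 3, 6, 8, 9]] [(.mj 3 4, 1), (.mj 4 6, 14), (.mj 5 7, 28), (.mj 5 9, 16), (.mj 8 5, 32), (.hz 25 23, 274), (.hz 20 159, 6819), (.hz 24 159, 327), (.hz 23 351, 5215), (.hz 23 383, 86468), (.hz 23 863, 99507)])
(.ask 151
(.mark 159 [5, 6, 10]
(.cut 5 [(0, 1), (1, 1), (2, 1), (3, 1), (5, 1), (7, 1), (11, 1), (21, 1), (15, 1), (23, 1), (31, 1)]
(.cut 5 [(0, 1), (1, 1), (2, 1), (3, 1), (5, 1), (7, 1), (11, 1), (21, 1), (15, 1), (23, 1), (31, 1), (79, 1), (151, 1), (95, 1), (159, 1)]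
(.cut 5 [(0, 1), (1, 1), (2, 1), (3, 1), (5, 1), (7, 1), (11, 1), (21, 1), (15, 1), (23, 1), (31, 1), (79, 1), (151, 1), (95, 1), (159, 1), (335, 1), (1175, 2), (351, 1), (1183, 1)]
(.lp [[5], [0, 2, 4, 7, 10], [1, 3, 6, 8, 9]] [(.mj 4 6, 23326), (.mj 7 5, 11313), (.mj 7 9, 160), (.mj 8 5, 1124), (.mj 8 7, 15890), (.rw 7, 7), (.hz 24 1183, 15260519), (.hz 19 1207, 6851096), (.rw 8, 19), (.rw 9, 13), (.rw 10, 10)])))))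
(.cut 5 [(0, 1), (1, 1), (2, 1), (3, 1), (5, 1), (7, 1), (11, 1), (21, 1), (15, 1), (23, 1), (31, 1), (79, 1), (95, 1)]
(.cut 5 [(0, 1), (1, 1), (2, 1), (3, 1), (5, 1), (7, 1), (11, 1), (21, 1), (15, 1), (23, 1), (31, 1), (79, 1), (151, 1), (335, 1)]
(.cut 5 [(0, 1), (1, 1), (2, 1), (3, 1), (5, 1), (7, 1), (11, 1), (21, 1), (15, 1), (23, 1), (31, 1), (79, 1), (151, 1), (95, 1), (335, 1), (351, 1)]
(.lp [[5], [0, 2, 4, 7], [1, 3, 6, 8, 9]] [(.mj 0 1, 1323225), (.mj 3 4, 84264), (.mj 7 5, 31560), (.mj 7 9, 4713), (.mj 8 7, 50955), (.rw 7, 14), (.hz 19 39, 6361657), (.hz 19 55, 29049), (.hz 24 191, 23359403), (.rw 8, 28), (.rw 9, 22), (.rw 10, 33)])))))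
(.cut 5 [(0, 1), (1, 1), (2, 1), (3, 1), (5, 1), (7, 1), (11, 1), (21, 1), (15, 1), (23, 1), (31, 1), (79, 1), (95, 1), (335, 1)]
(.lp [[5], [0, 2, 4, 7], [1, 3, 6, 8, 9]] [(.mj 4 6, 1341), (.mj 9 5, 795), (.mj 9 7, 685), (.hz 15 151, 137489), (.hz 24 159, 145128), (.hz 19 183, 305091), (.hz 24 191, 1073334), (.hz 23 351, 1057266), (.rw 8, 2)]))
.fin))
(.lp [[5], [0, 2, 4, 7], [1, 3, 6, 8]] [(.mj 8 5, 1), (.mj 8 7, 1), (.hz 20 159, 474), (.hz 20 223, 912)]))))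
(.lp [[5], [0, 2, 4, 7], [1, 3, 6, 8]] [(.mj 3 4, 23), (.mj 8 5, 102), (.mj 8 7, 104), (.hz 24 15, 22861), (.hz 24 31, 45475), (.hz 21 47, 32005), (.hz 21 63, 79508), (.hz 20 159, 103373), (.hz 21 191, 584973), (.hz 23 351, 101052)]))
(.lp [[5], [0, 2, 4, 7], [1, 3, 6, 8]] [(.mj 0 1, 242), (.mj 3 4, 17), (.mj 8 5, 4), (.hz 23 23, 5126), (.hz 19 39, 1289), (.hz 23 31, 3640), (.hz 21 47, 3072), (.hz 21 63, 1621), (.hz 23 95, 1941)]))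
(.lp [[5], [0, 2, 4, 7], [1, 3, 6, 8]] [(.mj 0 1, 24), (.mj 8 5, 1), (.hz 22 23, 184), (.hz 19 39, 472), (.hz 22 31, 127), (.hz 21 47, 504), (.hz 19 55, 18), (.hz 21 63, 406), (.hz 22 95, 66)]))
.fin))

theorem run116 : run P3488 (leaf3 218 625) (cutRow P3488) [s115, s114] t116 s116 = true := by
  decide +kernel

theorem bad116 : Bad P3488 s116 :=
  run_sound (leaf3_sound P3488 rfl rfl) (cutRow_sound P3488) (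
    List.forall_mem_cons.2 ⟨bad115, List.forall_mem_cons.2 ⟨bad114, fun _ h => absurd h List.not_mem_nil⟩⟩) t116 s116 run116

/-- the state above piece 208 of the tree -/
def s208 : St := ⟨[0, 0, 1, 3, 5, 15, 23, 31, 63], [63, 47, 31, 23, 21, 15, 11, 7, 5, 3, 2, 1, 0], [0, 1, 2, 3, 4, 5, 7],
  [(5, 6), (4, 5)],
  [⟨true, 2, 3, 3, 10⟩, ⟨true, 1, 5, 2, 5⟩, ⟨true, 2, 3, 23, 50⟩, ⟨true, 1, 5, 12, 25⟩, ⟨true, 1, 21, 27, 50⟩, ⟨true, 4, 15, 9, 40⟩, ⟨true, 3, 23, 11, 20⟩, ⟨true, 4, 47, 7, 20⟩, ⟨true, 4, 47, 17, 40⟩, ⟨true, 4, 47, 9, 20⟩, ⟨true, 4, 47, 19, 40⟩, ⟨true, 5, 95, 1, 5⟩, ⟨true, 5, 95, 3, 10⟩, ⟨true, 5, 31, 3, 10⟩],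
  [.spn 0 0 651200, .spn 1 1 302400, .spn 3 2 302400, .spn 7 3 302400, .spn 15 4 302400, .spn 31 5 140426, .spn 63 7 140426]⟩

/-- piece 208 of the tree -/
noncomputable def t208 : WN.Tree :=
(.haz 7 319 3 10
(.haz 7 319 2 5
(.maj 6 8
(.cut 6 [(0, 1), (1, 1), (2, 1), (3, 1), (5, 1), (7, 1), (11, 1), (21, 1), (15, 1), (23, 1), (31, 1), (47, 1), (63, 1)]
(.lp [[7], [0, 2, 4, 6], [1, 3, 5, 8]] [(.mj 3 4, 6154), (.mj 6 8, 231), (.hz 15 319, 663172), (.rw 7, 1)]))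
(.ask 159
(.mark 191 [6, 8, 9]
(.spn
(.con 6 8)
(.ask 319
(.mark 447 [6, 9, 10]
(.cut 6 [(0, 1), (1, 1), (2, 1), (3, 1), (5, 1), (7, 1), (11, 1), (21, 1), (15, 1), (23, 1), (31, 1), (47, 1), (63, 1)]
(.cut 6 [(0, 1), (1, 1), (2, 1), (3, 1), (5, 1), (7, 1), (11, 1), (21, 1), (15, 1), (23, 1), (31, 1), (47, 1), (63, 1), (159, 1), (191, 1)]
(.lp [[6], [0, 2, 4, 7, 9], [1, 3, 5, 8, 10]] [(.mj 3 4, 22487), (.mj 7 8, 2215), (.rw 8, 3), (.rw 9, 1)]))))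
(.ask 447
(.mark 447 [6, 9, 10]
(.spn
(.lp [[6], [0, 2, 4, 7, 9], [1, 3, 5, 8, 10]] [(.mj 3 4, 86), (.mj 6 9, 4), (.mj 6 10, 6)])
(.cut 6 [(0, 1), (1, 1), (2, 1), (3, 1), (5, 1), (7, 1), (11, 1), (21, 1), (15, 1), (23, 1), (31, 1), (47, 1), (63, 1)]
(.lp [[6], [0, 2, 4, 7, 9], [1, 3, 5, 8, 10]] [(.mj 3 4, 7296), (.mj 7 8, 381), (.mj 9 10, 105), (.rw 9, 1)]))
(.ask 1471
(.mark 1471 [6, 9, 11]
(.spn
(.lp [[6], [0, 2, 4, 7, 9], [1, 3, 5, 8, 10, 11]] [(.mj 10 6, 206), (.rw 9, 1)])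
(.cut 6 [(0, 1), (1, 1), (2, 1), (3, 1), (5, 1), (7, 1), (11, 1), (21, 1), (15, 1), (23, 1), (31, 1), (47, 1), (63, 1), (159, 1), (191, 1), (319, 1), (447, 1), (1471, 1)]
(.lp [[6], [0, 2, 4, 7, 9], [1, 3, 5, 8, 10, 11]] [(.mj 3 4, 4574), (.mj 9 11, 278), (.mj 10 9, 321), (.rw 10, 1)]))
(.ask 3519
(.mark 3519 [6, 9, 12]
(.spn
(.lp [[6], [0, 2, 4, 7, 9], [1, 3, 5, 8, 10, 11, 12]] [(.mj 11 6, 84), (.rw 10, 1)])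
(.lp [[6], [0, 2, 4, 7, 9], [1, 3, 5, 8, 10, 11, 12]] [(.mj 11 9, 566), (.rw 10, 1)])
(.cut 6 [(0, 1), (1, 1), (2, 1), (3, 1), (5, 1), (7, 1), (11, 1), (21, 1), (15, 1), (23, 1), (31, 1), (47, 1), (63, 1)]
(.cut 6 [(0, 1), (1, 1), (2, 1), (3, 1), (5, 1), (7, 1), (11, 1), (21, 1), (15, 1), (23, 1), (31, 1), (47, 1), (63, 1), (159, 1), (191, 1), (319, 1), (671, 1), (447, 1), (703, 1)]
(.cut 6 [(0, 1), (1, 1), (2, 1), (3, 1), (5, 1), (7, 1), (11, 1), (21, 1), (15, 1), (23, 1), (31, 1), (47, 1), (63, 1), (159, 1), (191, 1), (319, 1), (447, 1)]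
(.cut 6 [(0, 1), (1, 1), (2, 1), (3, 1), (5, 1), (7, 1), (11, 1), (21, 1), (15, 1), (23, 1), (31, 1), (47, 1), (63, 1), (159, 1), (191, 1), (319, 1), (671, 1), (447, 1), (703, 2), (959, 1), (1471, 1)]
(.cut 9 [(0, 1), (1, 1), (2, 1), (3, 1), (5, 1), (7, 1), (11, 1), (21, 1), (15, 1), (23, 1), (31, 1), (47, 1), (87, 1), (63, 1), (95, 1), (159, 1), (127, 1), (191, 1), (223, 1), (319, 1), (255, 1), (383, 1), (447, 1), (511, 1)]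
(.cut 6 [(0, 1), (1, 1), (2, 1), (3, 1), (5, 1), (7, 1), (11, 1), (21, 1), (15, 1), (23, 1), (31, 1), (47, 1), (63, 1), (159, 1), (191, 1), (319, 1), (447, 1), (1471, 1)]
(.lp [[6], [0, 2, 4, 7, 9], [1, 3, 5, 8, 10, 11, 12]] [(.mj 3 4, 198355), (.mj 12 6, 27088), (.rw 11, 58), (.rw 12, 6), (.rw 13, 60), (.rw 14, 1), (.rw 15, 5), (.rw 16, 16)])))))))
.fin))
(.lp [[6], [0, 2, 4, 7, 9], [1, 3, 5, 8, 10, 11]] [(.mj 11 9, 1), (.rw 9, 1)]))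
.fin))
(.lp [[6], [0, 2, 4, 7, 9], [1, 3, 5, 8, 10]] [(.mj 10 9, 1), (.rw 8, 1)]))
.fin))
(.lp [[6], [1, 3, 5, 8], [0, 2, 4, 7, 9]] [(.mj 3 4, 10), (.mj 8 9, 1)])))
(.lp [[6], [1, 3, 5, 8], [0, 2, 4, 7, 9]] [(.mj 3 4, 8), (.mj 5 7, 1), (.mj 9 8, 1), (.hz 15 319, 1592)])
.fin))
(.haz 6 63 3 50
(.ask 191
(.mark 191 [6, 8, 9]
(.spn
(.con 6 8)
(.haz 7 319 11 25
(.haz 8 255 9 25
(.ask 319
(.ref 0)
(.ask 447
(.mark 447 [6, 9, 10]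
(.spn
(.lp [[6], [0, 2, 4, 7, 9], [1, 3, 5, 8, 10]] [(.mj 3 4, 133), (.mj 6 9, 9), (.mj 6 10, 10), (.mj 7 8, 2)])
(.cut 6 [(0, 1), (1, 1), (2, 1), (3, 1), (5, 1), (7, 1), (11, 1), (21, 1), (15, 1), (23, 1), (31, 1), (47, 1), (63, 1), (159, 1), (191, 1), (319, 1), (447, 1)]
(.lp [[6], [0, 2, 4, 7, 9], [1, 3, 5, 8, 10]] [(.mj 3 4, 10370), (.mj 9 10, 93), (.hz 16 1471, 4775), (.rw 9, 2)]))
(.ask 1471
(.mark 1471 [6, 9, 11]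
(.spn
(.lp [[6], [0, 2, 4, 7, 9], [1, 3, 5, 8, 10, 11]] [(.mj 10 6, 206), (.rw 9, 1)])
(.cut 6 [(0, 1), (1, 1), (2, 1), (3, 1), (5, 1), (7, 1), (11, 1), (21, 1), (15, 1), (23, 1), (31, 1), (47, 1), (63, 1), (159, 1), (191, 1), (319, 1), (447, 1), (1471, 1)]
(.lp [[6], [0, 2, 4, 7, 9], [1, 3, 5, 8, 10, 11]] [(.mj 9 6, 2135), (.mj 9 11, 2135), (.mj 10 9, 4691), (.rw 9, 1), (.rw 10, 8)]))
(.maj 6 9
(.cut 6 [(0, 1), (1, 1), (2, 1), (3, 1), (5, 1), (7, 1), (11, 1), (21, 1), (15, 1), (23, 1), (31, 1), (47, 1), (63, 1), (159, 1), (191, 1), (319, 1), (447, 1), (1471, 1)]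
(.cut 9 [(0, 1), (1, 1), (2, 1), (3, 1), (5, 1), (7, 1), (11, 1), (21, 1), (15, 1), (23, 1), (31, 1), (47, 1), (87, 1), (63, 1), (95, 1), (159, 1), (127, 1), (191, 1), (223, 1), (319, 1), (255, 1), (383, 1), (447, 1), (511, 1)]
(.lp [[6], [0, 2, 4, 7, 9], [1, 3, 5, 8, 10, 11]] [(.mj 7 8, 1552), (.mj 11 6, 2815), (.hz 16 703, 2814020), (.hz 16 959, 7824199), (.hz 16 1983, 6479220), (.rw 10, 9), (.rw 11, 1)])))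
(.ask 3519
(.mark 3519 [6, 9, 12]
(.spn
(.con 6 9)
(.lp [[6], [0, 2, 4, 7, 9], [1, 3, 5, 8, 10, 11, 12]] [(.mj 11 9, 2350), (.rw 10, 4)])
(.cut 6 [(0, 1), (1, 1), (2, 1), (3, 1), (5, 1), (7, 1), (11, 1), (21, 1), (15, 1), (23, 1), (31, 1), (47, 1), (63, 1), (159, 1), (191, 1), (319, 1), (447, 1), (703, 2), (959, 1)]
(.cut 9 [(0, 1), (1, 1), (2, 1), (3, 1), (5, 1), (7, 1), (11, 1), (21, 1), (15, 1), (23, 1), (31, 1), (47, 1), (63, 1), (159, 1), (191, 1), (319, 1), (447, 1)]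
(.cut 6 [(0, 1), (1, 1), (2, 1), (3, 1), (5, 1), (7, 1), (11, 1), (21, 1), (15, 1), (23, 1), (31, 1), (47, 1), (63, 1), (159, 1), (191, 1), (319, 1), (447, 1), (1471, 1)]
(.cut 9 [(0, 1), (1, 1), (2, 1), (3, 1), (5, 1), (7, 1), (11, 1), (21, 1), (15, 1), (23, 1), (31, 1), (47, 1), (63, 1), (159, 1), (191, 1), (319, 1), (447, 1), (1471, 1)]
(.lp [[6], [0, 2, 4, 7, 9], [1, 3, 5, 8, 10, 11, 12]] [(.mj 12 9, 3702), (.rw 10, 16), (.hz 18 767, 54549402), (.rw 11, 18), (.rw 12, 14), (.rw 13, 79), (.rw 14, 53)])))))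
.fin))
(.lp [[6], [0, 2, 4, 7, 9], [1, 3, 5, 8, 10, 11]] [(.mj 11 9, 1), (.rw 9, 1)])))
.fin))
(.lp [[6], [0, 2, 4, 7, 9], [1, 3, 5, 8, 10]] [(.mj 10 9, 1), (.rw 8, 1)]))
.fin))
(.lp [[6], [1, 3, 5, 8], [0, 2, 4, 7, 9]] [(.mj 3 4, 17), (.mj 8 9, 2), (.hz 16 191, 361), (.hz 16 703, 2697)])))
(.lp [[6], [1, 3, 5, 8], [0, 2, 4, 7, 9]] [(.mj 3 4, 15), (.mj 8 9, 2), (.hz 18 63, 952), (.hz 18 191, 1273), (.hz 16 319, 43), (.hz 16 703, 1677)]))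
(.lp [[6], [1, 3, 5, 8], [0, 2, 4, 7, 9]] [(.mj 3 4, 1123), (.mj 7 8, 193), (.hz 17 63, 61319), (.hz 16 191, 42184), (.hz 16 319, 65145)]))
(.lp [[6], [1, 3, 5, 8], [0, 2, 4, 7, 9]] [(.mj 3 4, 25), (.mj 9 8, 1), (.hz 16 63, 709), (.hz 16 191, 1228), (.hz 16 319, 301), (.hz 15 319, 3045), (.hz 16 447, 803)])
.fin))
(.spn
(.con 6 8)
(.cut 6 [(0, 1), (1, 1), (2, 1), (3, 1), (5, 1), (7, 1), (11, 1), (21, 1), (15, 1), (23, 1), (31, 1), (47, 1), (63, 1), (159, 1), (191, 1), (319, 1)]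
(.lp [[7], [0, 2, 4, 6], [1, 3, 5, 8]] [(.mj 3 4, 20711), (.mj 7 8, 6183), (.hz 16 319, 1141750), (.rw 8, 2)]))
.fin
.fin))
(.cut 6 [(0, 1), (1, 1), (2, 1), (3, 1), (5, 1), (7, 1), (11, 1), (21, 1), (15, 1), (23, 1), (31, 1), (47, 1), (63, 1)]
(.lp [[7], [0, 2, 4, 6], [1, 3, 5, 8]] [(.mj 7 8, 2), (.hz 16 31, 1279687), (.hz 16 63, 729221), (.rw 7, 7)])))))
(.cut 6 [(0, 1), (1, 1), (2, 1), (3, 1), (5, 1), (7, 1), (11, 1), (21, 1), (15, 1), (23, 1), (31, 1), (47, 1), (63, 1)]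
(.lp [[7], [0, 2, 4, 6], [1, 3, 5, 8]] [(.mj 3 4, 14368), (.mj 7 8, 2748), (.hz 15 63, 4242533), (.rw 7, 1)])))
(.lp [[7], [0, 2, 4, 6], [1, 3, 5, 8]] [(.mj 3 4, 6), (.mj 7 8, 1), (.hz 14 63, 737)]))

theorem run208 : run P3488 (leaf3 218 625) (cutRow P3488) [s207] t208 s208 = true := by
  decide +kernel

theorem bad208 : Bad P3488 s208 :=
  run_sound (leaf3_sound P3488 rfl rfl) (cutRow_sound P3488) (
    List.forall_mem_cons.2 ⟨bad207, fun _ h => absurd h List.not_mem_nil⟩) t208 s208 run208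

/-- the state above piece 34 of the tree -/
def s34 : St := ⟨[0, 0, 1, 1, 3, 7, 11], [9, 7, 5, 3, 2, 1, 0], [0, 1, 2, 3],
  [],
  [⟨true, 1, 9, 7, 50⟩, ⟨true, 2, 11, 3, 50⟩, ⟨true, 2, 9, 9, 50⟩, ⟨true, 3, 3, 1, 5⟩, ⟨true, 1, 5, 13, 50⟩],
  [.spn 0 0 651200, .spn 1 1 140426, .spn 3 2 140426, .spn 7 3 62723]⟩

/-- piece 34 of the tree -/
noncomputable def t34 : WN.Tree :=
(.mark 15 [4, 5, 6]
(.spn
(.haz 4 79 7 50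
(.haz 4 39 1 5
(.haz 5 15 9 25
(.lp [[1, 4], [3, 6], [0, 2, 5]] [(.mj 2 3, 77), (.mj 3 4, 73), (.mj 4 5, 58), (.hz 7 15, 7484), (.hz 6 39, 27308), (.hz 7 79, 10698)])
(.ask 39
(.mark 39 [3, 4, 7]
(.lp [[1, 4], [3, 6], [0, 2, 5, 7]] [(.mj 2 3, 496), (.mj 3 4, 310), (.hz 7 7, 19898), (.hz 7 15, 28901), (.hz 3 23, 90185), (.hz 6 39, 92927), (.hz 5 79, 29187), (.hz 6 167, 116158)]))
(.lp [[1, 4], [3, 6], [0, 2, 5]] [(.mj 2 3, 10), (.mj 3 4, 5), (.mj 4 5, 1), (.hz 3 19, 2888), (.hz 7 15, 508)])))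
(.lp [[1, 4], [3, 6], [0, 2, 5]] [(.mj 2 3, 9), (.mj 4 5, 5), (.hz 6 3, 1099), (.hz 6 7, 2594), (.hz 3 19, 1786), (.hz 3 39, 3490), (.hz 5 79, 275)]))
(.lp [[1, 4], [3, 6], [0, 2, 5]] [(.mj 2 3, 4), (.mj 4 5, 3), (.mj 4 6, 1), (.hz 5 3, 87), (.hz 5 7, 144), (.hz 3 39, 1623)]))
(.haz 5 23 8 25
(.ask 39
(.mark 47 [4, 6, 7]
(.spn
(.haz 4 111 1 10
(.haz 7 111 13 50
(.haz 4 79 1 10
(.haz 5 79 9 25
(.haz 5 79 21 50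
(.haz 3 167 6 25
(.haz 5 79 23 50
(.haz 6 191 2 25
(.haz 4 79 7 50
(.haz 7 111 17 50
(.ask 75
(.mark 111 [4, 7, 8]
(.lp [[1, 4], [3, 6, 8], [0, 2, 5, 7]] [(.mj 2 3, 35), (.mj 3 5, 14), (.mj 4 7, 23), (.mj 5 4, 36), (.hz 3 19, 7527), (.hz 14 79, 5793), (.hz 12 79, 185), (.hz 11 167, 345), (.hz 2 331, 643), (.hz 15 111, 2784), (.hz 14 335, 13787), (.hz 15 367, 10267)]))
(.ask 79
(.mark 111 [4, 7, 8]
(.lp [[1, 4], [3, 6, 8], [0, 2, 5, 7]] [(.mj 2 3, 17), (.mj 3 5, 8), (.mj 4 6, 1), (.mj 4 7, 14), (.mj 5 4, 22), (.hz 14 79, 4014), (.hz 12 79, 254), (.hz 11 167, 11), (.hz 15 111, 2093), (.hz 14 335, 4950), (.hz 15 367, 5659)]))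
(.ask 111
(.mark 111 [4, 7, 8]
(.lp [[1, 4], [3, 6, 8], [0, 2, 5, 7]] [(.mj 2 3, 37), (.mj 3 5, 18), (.mj 4 6, 4), (.mj 4 7, 31), (.mj 5 4, 49), (.hz 14 79, 10554), (.hz 11 167, 25), (.hz 15 111, 6308), (.hz 15 367, 8406)]))
(.lp [[1, 4], [3, 6], [0, 2, 5, 7]] [(.mj 4 7, 2), (.mj 5 4, 3)]))))
(.lp [[1, 4], [3, 6], [0, 2, 5, 7]] [(.mj 2 3, 20), (.mj 3 5, 9), (.mj 4 6, 6), (.mj 5 4, 19), (.hz 15 39, 559), (.hz 15 47, 2207), (.hz 14 79, 8078), (.hz 7 111, 1061)]))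
(.lp [[1, 4], [3, 6], [0, 2, 5, 7]] [(.mj 2 3, 28), (.mj 3 5, 12), (.mj 4 6, 10), (.mj 4 7, 20), (.hz 14 3, 721), (.hz 14 7, 1199), (.hz 14 15, 4009), (.hz 8 79, 19407), (.hz 12 79, 487), (.hz 7 111, 7221)]))
(.lp [[1, 4], [3, 6], [0, 2, 5, 7]] [(.mj 2 3, 1), (.mj 4 7, 5), (.mj 5 4, 8), (.hz 13 11, 355), (.hz 13 15, 542), (.hz 13 47, 708), (.hz 8 79, 11991), (.hz 7 111, 1453)]))
(.lp [[1, 4], [3, 6], [0, 2, 5, 7]] [(.mj 2 3, 10), (.mj 4 6, 23), (.mj 5 4, 37), (.hz 12 7, 1701), (.hz 12 15, 5088), (.hz 8 79, 40761), (.hz 10 79, 4122), (.hz 7 111, 3941)]))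
(.lp [[1, 4], [3, 6], [0, 2, 5, 7]] [(.mj 3 5, 2), (.mj 4 7, 1), (.mj 5 4, 2), (.hz 11 3, 186), (.hz 11 7, 251), (.hz 3 19, 801), (.hz 3 23, 950), (.hz 5 23, 150), (.hz 11 39, 47), (.hz 8 79, 2238), (.hz 3 167, 681), (.hz 7 111, 284)]))
(.lp [[1, 4], [3, 6], [0, 2, 5, 7]] [(.mj 2 3, 1), (.mj 4 6, 3), (.mj 5 4, 5), (.hz 10 7, 224), (.hz 10 15, 662), (.hz 8 79, 5328), (.hz 9 79, 1156), (.hz 7 111, 553)]))
(.lp [[1, 4], [3, 6], [0, 2, 5, 7]] [(.mj 2 3, 8), (.mj 5 4, 4), (.hz 9 7, 498), (.hz 3 19, 5412), (.hz 9 15, 406), (.hz 3 23, 1455), (.hz 8 79, 3695)]))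
(.lp [[1, 4], [3, 6], [0, 2, 5, 7]] [(.mj 2 3, 16), (.mj 3 5, 5), (.mj 4 6, 1), (.mj 4 7, 6), (.hz 8 3, 1408), (.hz 8 7, 2269), (.hz 8 15, 1655), (.hz 3 167, 2455), (.hz 7 111, 1879)]))
(.lp [[1, 4], [3, 6], [0, 2, 5, 7]] [(.mj 2 3, 127), (.mj 3 5, 59), (.mj 4 6, 60), (.mj 5 4, 132), (.hz 7 39, 3706), (.hz 7 47, 14309), (.hz 6 111, 243362)]))
(.lp [[1, 4], [3, 6], [0, 2, 5, 7]] [(.mj 2 3, 496), (.mj 4 6, 291), (.mj 4 7, 493), (.rw 5, 1), (.hz 6 3, 51590), (.hz 6 7, 83117), (.hz 6 39, 92352), (.hz 6 47, 1659902)]))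
(.haz 4 39 7 50
(.lp [[1, 4], [3, 6], [0, 2, 5, 7]] [(.mj 2 3, 22), (.mj 3 5, 1), (.mj 6 4, 12), (.mj 6 7, 5), (.hz 3 19, 2492), (.hz 3 23, 3737), (.hz 6 47, 2717), (.hz 3 167, 8665), (.hz 6 167, 919), (.hz 6 111, 2818), (.hz 6 175, 4268)])
(.ask 19
(.mark 63 [6, 7, 8]
(.cut 4 [(0, 1), (1, 1), (2, 1), (3, 1), (5, 1), (9, 1), (7, 1), (11, 1), (13, 1), (15, 1), (39, 1), (47, 1)]
(.lp [[3, 6], [1, 4, 8], [0, 2, 5, 7]] [(.mj 2 3, 29337), (.mj 3 5, 14717), (.mj 6 7, 2097), (.hz 6 3, 315617), (.hz 3 275, 21136425), (.hz 3 279, 724796), (.hz 5 279, 2742644), (.hz 3 167, 142073), (.rw 6, 4)])))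
(.ask 23
(.haz 7 63 6 25
(.mark 55 [3, 7, 8]
(.cut 4 [(0, 1), (1, 1), (2, 1), (3, 1), (5, 1), (9, 1), (7, 1), (11, 1), (13, 1), (15, 1), (39, 1), (47, 1), (167, 2), (175, 2)]
(.lp [[3, 6], [1, 4, 8], [0, 2, 5, 7]] [(.mj 2 3, 92857), (.mj 3 5, 13167), (.mj 6 7, 28219), (.hz 6 7, 2281979), (.hz 3 279, 20232139), (.hz 5 279, 2681392), (.hz 3 167, 22261279), (.hz 7 63, 18714038), (.hz 3 311, 101596672), (.hz 7 319, 75490477), (.rw 6, 22)])))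
(.lp [[3, 6], [1, 4, 8], [0, 2, 5, 7]] [(.mj 2 3, 1), (.hz 6 7, 24), (.hz 3 19, 184), (.hz 6 39, 29), (.hz 7 39, 57), (.hz 7 47, 58)]))
(.cut 4 [(0, 1), (1, 1), (2, 1), (3, 1), (5, 1), (9, 1), (7, 1), (11, 1), (13, 1), (15, 1), (39, 1), (47, 1)]
(.lp [[1, 4], [3, 6], [0, 2, 5, 7]] [(.mj 2 3, 6455), (.mj 3 5, 3227), (.mj 6 4, 375), (.mj 6 7, 375), (.rw 6, 1)])))))
(.ref 0)
.fin))
(.ask 47
(.mark 47 [4, 6, 7]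
(.spn
(.haz 4 15 7 40
(.haz 7 111 7 20
(.lp [[1, 4], [3, 6], [0, 2, 5, 7]] [(.mj 2 3, 22), (.mj 3 5, 8), (.mj 4 7, 10), (.mj 5 4, 23), (.hz 6 15, 1862), (.hz 6 79, 8885), (.hz 7 111, 6810)])
(.lp [[1, 4], [3, 6], [0, 2, 5, 7]] [(.mj 2 3, 7), (.mj 3 5, 2), (.mj 5 4, 5), (.hz 6 15, 661), (.hz 7 47, 818), (.hz 6 79, 2564)]))
(.lp [[1, 4], [3, 6], [0, 2, 5, 7]] [(.mj 2 3, 5093), (.mj 4 7, 847), (.hz 6 3, 5825), (.hz 6 7, 298970), (.hz 3 19, 2398022), (.hz 3 23, 79067)]))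
(.lp [[1, 4], [3, 6], [0, 2, 5, 7]] [(.mj 2 3, 14), (.mj 6 4, 4), (.mj 6 7, 2), (.hz 3 19, 8549), (.hz 3 23, 4535), (.hz 3 55, 2708)])
(.ask 175
(.mark 175 [4, 6, 8]
(.spn
(.lp [[1, 4], [3, 6], [0, 2, 5, 7, 8]] [(.mj 7 4, 368), (.rw 6, 1)])
(.lp [[1, 4], [3, 6], [0, 2, 5, 7, 8]] [(.mj 2 3, 19298), (.rw 5, 2), (.rw 6, 7), (.hz 3 19, 11699704), (.hz 3 23, 6206367), (.hz 3 55, 3705743)])
(.ask 431
(.mark 431 [4, 6, 9]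
(.spn
(.lp [[1, 4], [3, 6], [0, 2, 5, 7, 8, 9]] [(.mj 8 4, 173), (.rw 7, 1)])
(.lp [[1, 4], [3, 6], [0, 2, 5, 7, 8, 9]] [(.mj 8 6, 627), (.rw 7, 1)])
(.cut 4 [(0, 1), (1, 1), (2, 1), (3, 1), (5, 1), (9, 1), (7, 1), (11, 1), (13, 1), (15, 1), (39, 1), (47, 1)]
(.cut 4 [(0, 1), (1, 1), (2, 1), (3, 1), (5, 1), (9, 1), (7, 1), (11, 1), (13, 1), (15, 1), (39, 1), (47, 1), (175, 1)]
(.cut 6 [(0, 1), (1, 1), (2, 1), (3, 1), (5, 1), (9, 1), (7, 1), (13, 1), (19, 1), (23, 1), (39, 1), (55, 1)]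
(.lp [[1, 4], [3, 6], [0, 2, 5, 7, 8, 9]] [(.mj 2 3, 19974), (.mj 9 4, 8761), (.rw 8, 23), (.rw 9, 5), (.rw 10, 1)]))))
.fin))
(.lp [[1, 4], [3, 6], [0, 2, 5, 7, 8]] [(.mj 8 6, 1), (.rw 6, 1)]))
.fin))
(.lp [[1, 4], [3, 6], [0, 2, 5, 7]] [(.mj 7 6, 1), (.rw 5, 1)]))
.fin))
(.lp [[1, 4], [3, 6], [0, 2, 5]] [(.mj 2 3, 40), (.mj 3 5, 8), (.mj 5 4, 12), (.hz 3 19, 24146), (.hz 3 23, 4782)])))
(.cut 4 [(0, 1), (1, 1), (2, 1), (3, 1), (5, 1), (9, 1), (7, 1), (11, 1), (13, 1), (15, 1)]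
(.lp [[1, 4], [3, 6], [0, 2, 5]] [(.mj 2 3, 10904), (.mj 5 4, 5045), (.hz 5 7, 1202680), (.hz 3 19, 8132769), (.hz 3 23, 3033510), (.rw 5, 1)])))
(.cut 4 [(0, 1), (1, 1), (2, 1), (3, 1), (5, 1), (9, 1), (7, 1), (11, 1), (13, 1), (15, 1)]
(.lp [[1, 4], [3, 6], [0, 2, 5]] [(.mj 2 3, 5906), (.mj 6 4, 2282), (.mj 6 5, 2731), (.hz 3 19, 1845521), (.hz 3 23, 2768281), (.hz 3 39, 1925761), (.rw 5, 1)]))
.fin))

theorem run34 : run P3488 (leaf3 218 625) (cutRow P3488) [s22] t34 s34 = true := by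
  decide +kernel

theorem bad34 : Bad P3488 s34 :=
  run_sound (leaf3_sound P3488 rfl rfl) (cutRow_sound P3488) (
    List.forall_mem_cons.2 ⟨bad22, fun _ h => absurd h List.not_mem_nil⟩) t34 s34 run34

/-- the state above piece 172 of the tree -/
def s172 : St := ⟨[0, 0, 1, 3, 5, 15, 21, 31, 47, 159, 447], [447, 319, 303, 191, 63, 31, 23, 21, 15, 11, 7, 5, 3, 2, 1, 0], [0, 1, 2, 3, 4, 5, 7, 8, 9],
  [(5, 6), (4, 5)],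
  [⟨true, 2, 3, 3, 10⟩, ⟨true, 1, 5, 2, 5⟩, ⟨true, 2, 3, 23, 50⟩, ⟨true, 1, 5, 12, 25⟩, ⟨true, 1, 21, 27, 50⟩, ⟨true, 4, 15, 9, 40⟩, ⟨true, 3, 23, 11, 20⟩, ⟨true, 4, 47, 7, 20⟩, ⟨true, 4, 47, 17, 40⟩, ⟨true, 4, 47, 9, 20⟩, ⟨true, 4, 47, 19, 40⟩, ⟨true, 3, 87, 27, 40⟩, ⟨true, 5, 95, 1, 4⟩, ⟨true, 5, 159, 1, 4⟩, ⟨true, 7, 127, 7, 40⟩, ⟨true, 7, 95, 1, 5⟩, ⟨true, 8, 127, 7, 40⟩, ⟨true, 4, 303, 1, 2⟩, ⟨true, 6, 447, 1, 20⟩, ⟨true, 8, 127, 7, 25⟩, ⟨true, 8, 767, 3, 8⟩],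
  [.spn 0 0 651200, .spn 1 1 302400, .spn 3 2 302400, .spn 7 3 302400, .spn 15 4 302400, .spn 31 5 140426, .spn 63 7 140426, .spn 191 8 140426, .spn 447 9 140426]⟩

/-- piece 172 of the tree -/
noncomputable def t172 : WN.Tree :=
(.haz 7 383 7 10
(.ask 671
(.mark 959 [6, 10, 11]
(.spn
(.lp [[6], [1, 3, 5, 8, 10], [0, 2, 4, 7, 9, 11]] [(.mj 3 4, 30131), (.mj 5 7, 281), (.mj 6 10, 1024), (.mj 9 10, 877), (.rw 9, 4), (.hz 18 1471, 8633506), (.hz 18 3007, 20551911)])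
(.ask 1471
(.mark 1983 [6, 11, 12]
(.spn
(.maj 11 12
(.lp [[6], [0, 2, 4, 7, 9, 11], [1, 3, 5, 8, 10, 12]] [(.mj 5 7, 17133), (.mj 10 6, 31222), (.mj 11 12, 4068), (.rw 10, 70), (.hz 18 3007, 665197022), (.hz 18 5567, 142043882), (.hz 18 6079, 88488362)])
(.lp [[6], [0, 2, 4, 7, 9, 11], [1, 3, 5, 8, 10, 12]] [(.mj 5 7, 11388), (.mj 9 10, 9319), (.mj 10 6, 8938), (.mj 12 11, 1439), (.rw 10, 19), (.hz 18 3007, 166216204), (.hz 18 5567, 73121131), (.hz 18 4031, 31299150)]))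
(.cut 6 [(0, 1), (1, 1), (2, 1), (3, 1), (5, 1), (7, 1), (11, 1), (21, 1), (15, 1), (23, 1), (31, 1), (47, 1), (63, 1), (159, 1), (303, 1), (191, 1), (319, 1), (671, 1), (447, 1), (703, 1), (959, 1), (1471, 1), (1983, 1)]
(.lp [[6], [0, 2, 4, 7, 9, 11], [1, 3, 5, 8, 10, 12]] [(.mj 5 7, 24012), (.mj 9 10, 3616), (.mj 11 6, 9359), (.mj 11 12, 598), (.rw 10, 1), (.rw 11, 37)]))
(.cut 6 [(0, 1), (1, 1), (2, 1), (3, 1), (5, 1), (7, 1), (11, 1), (21, 1), (15, 1), (23, 1), (31, 1), (47, 1), (63, 1), (159, 1), (303, 1), (191, 1), (319, 1), (671, 1), (447, 1), (703, 1), (959, 1), (1471, 1), (1983, 1)]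
(.lp [[6], [0, 2, 4, 7, 9, 11], [1, 3, 5, 8, 10, 12]] [(.mj 5 7, 1026), (.mj 9 10, 451), (.mj 12 6, 532), (.mj 12 11, 50), (.rw 11, 2)]))
.fin))
(.ask 1983
(.mark 1983 [6, 11, 12]
(.spn
(.haz 12 4031 7 20
(.lp [[6], [0, 2, 4, 7, 9, 11], [1, 3, 5, 8, 10, 12]] [(.mj 5 7, 1354), (.mj 6 11, 230), (.mj 6 12, 1026), (.mj 8 9, 601), (.mj 10 6, 1612), (.rw 10, 1), (.hz 18 3007, 26180582), (.hz 22 4031, 8241717)])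
(.lp [[6], [0, 2, 4, 7, 9, 11], [1, 3, 5, 8, 10, 12]] [(.mj 5 7, 4), (.mj 6 11, 4), (.mj 10 6, 5), (.hz 22 1983, 19238)]))
(.cut 6 [(0, 1), (1, 1), (2, 1), (3, 1), (5, 1), (7, 1), (11, 1), (21, 1), (15, 1), (23, 1), (31, 1), (47, 1), (63, 1), (159, 1), (303, 1), (191, 1), (319, 1), (671, 1), (447, 1), (703, 1), (2719, 1), (959, 1), (1471, 1), (2751, 1), (1983, 1), (3007, 1)]
(.cut 6 [(0, 1), (1, 1), (2, 1), (3, 1), (5, 1), (7, 1), (11, 1), (21, 1), (15, 1), (23, 1), (31, 1), (47, 1), (63, 1), (159, 1), (303, 1), (191, 1), (319, 1), (447, 1), (1471, 1)]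
(.lp [[6], [0, 2, 4, 7, 9, 11], [1, 3, 5, 8, 10, 12]] [(.mj 5 7, 11598), (.mj 8 9, 156), (.mj 11 6, 3642), (.rw 10, 1), (.rw 11, 1), (.rw 12, 15)])))
(.cut 6 [(0, 1), (1, 1), (2, 1), (3, 1), (5, 1), (7, 1), (11, 1), (21, 1), (15, 1), (23, 1), (31, 1), (47, 1), (63, 1), (159, 1), (303, 1), (191, 1), (319, 1), (447, 1), (1471, 1)]
(.cut 6 [(0, 1), (1, 1), (2, 1), (3, 1), (5, 1), (7, 1), (11, 1), (21, 1), (15, 1), (23, 1), (31, 1), (47, 1), (63, 1), (159, 1), (303, 1), (191, 1), (319, 1), (671, 1), (447, 1), (703, 1), (959, 1)]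
(.lp [[6], [0, 2, 4, 7, 9, 11], [1, 3, 5, 8, 10, 12]] [(.mj 5 7, 1613), (.mj 12 6, 2690), (.rw 11, 8), (.rw 12, 2)])))
.fin))
(.lp [[6], [1, 3, 5, 8, 10], [0, 2, 4, 7, 9, 11]] [(.mj 5 7, 3), (.mj 10 6, 5), (.mj 10 11, 5), (.hz 18 3007, 158585)])))
(.cut 6 [(0, 1), (1, 1), (2, 1), (3, 1), (5, 1), (7, 1), (11, 1), (21, 1), (15, 1), (23, 1), (31, 1), (47, 1), (63, 1), (159, 1), (303, 1), (191, 1), (319, 1), (671, 1), (447, 1), (703, 1), (959, 1)]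
(.lp [[6], [1, 3, 5, 8, 10], [0, 2, 4, 7, 9, 11]] [(.mj 8 9, 539), (.mj 11 6, 342), (.mj 11 10, 342), (.rw 10, 1)]))
.fin))
(.ask 703
(.mark 959 [6, 10, 11]
(.spn
(.haz 10 959 3 8
(.lp [[6], [1, 3, 5, 8, 10], [0, 2, 4, 7, 9, 11]] [(.mj 3 4, 13790), (.mj 6 10, 1352), (.mj 8 9, 121), (.rw 9, 1), (.hz 21 383, 1277391), (.hz 22 959, 3618474), (.hz 22 3007, 11198782)])
(.lp [[6], [1, 3, 5, 8, 10], [0, 2, 4, 7, 9, 11]] [(.mj 3 4, 6242), (.mj 6 10, 219), (.mj 8 9, 514), (.rw 9, 1), (.hz 21 383, 378676), (.hz 22 447, 1813913)]))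
(.ask 1471
(.mark 1983 [6, 11, 12]
(.spn
(.ask 2751
(.mark 4031 [6, 12, 13]
(.lp [[6], [1, 3, 5, 8, 10, 12], [0, 2, 4, 7, 9, 11, 13]] [(.mj 6 12, 1050), (.mj 8 9, 6088), (.mj 9 10, 6029), (.mj 10 6, 10863), (.rw 10, 23), (.hz 18 3007, 175489021), (.hz 18 5567, 59217553), (.hz 18 11199, 129983010)]))
(.lp [[6], [0, 2, 4, 7, 9, 11], [1, 3, 5, 8, 10, 12]] [(.mj 9 10, 893), (.mj 10 6, 4311), (.rw 10, 11), (.hz 18 3007, 76841244), (.hz 18 5567, 24496770)]))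
(.cut 6 [(0, 1), (1, 1), (2, 1), (3, 1), (5, 1), (7, 1), (11, 1), (21, 1), (15, 1), (23, 1), (31, 1), (47, 1), (63, 1), (159, 1), (303, 1), (191, 1), (319, 1), (671, 1), (447, 1), (703, 1), (959, 1), (1471, 1)]
(.lp [[6], [0, 2, 4, 7, 9, 11], [1, 3, 5, 8, 10, 12]] [(.mj 8 9, 8450), (.mj 9 10, 6132), (.mj 10 11, 4690), (.mj 11 6, 27781), (.mj 11 12, 469), (.hz 18 5567, 11859563), (.hz 18 6079, 147377514), (.rw 11, 95)]))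
(.cut 6 [(0, 1), (1, 1), (2, 1), (3, 1), (5, 1), (7, 1), (11, 1), (21, 1), (15, 1), (23, 1), (31, 1), (47, 1), (63, 1), (159, 1), (303, 1), (191, 1), (319, 1), (447, 1), (1471, 1)]
(.cut 6 [(0, 1), (1, 1), (2, 1), (3, 1), (5, 1), (7, 1), (11, 1), (21, 1), (15, 1), (23, 1), (31, 1), (47, 1), (63, 1), (159, 1), (303, 1), (191, 1), (319, 1), (671, 1), (447, 1), (703, 1), (959, 1), (1471, 1), (5567, 1)]
(.cut 6 [(0, 1), (1, 1), (2, 1), (3, 1), (5, 1), (7, 1), (11, 1), (21, 1), (15, 1), (23, 1), (31, 1), (47, 1), (63, 1), (159, 1), (303, 1), (191, 1), (319, 1), (671, 1), (447, 1), (703, 1), (959, 1)]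
(.lp [[6], [0, 2, 4, 7, 9, 11], [1, 3, 5, 8, 10, 12]] [(.mj 8 9, 6885), (.mj 9 10, 12055), (.mj 12 6, 30531), (.mj 12 11, 3646), (.rw 11, 64), (.rw 12, 2), (.rw 13, 42)]))))
.fin))
(.ask 1983
(.mark 1983 [6, 11, 12]
(.spn
(.haz 12 4031 7 20
(.lp [[6], [0, 2, 4, 7, 9, 11], [1, 3, 5, 8, 10, 12]] [(.mj 6 11, 881), (.mj 6 12, 3602), (.mj 8 9, 4281), (.mj 10 6, 6015), (.rw 10, 4), (.hz 18 3007, 87277424), (.hz 22 4031, 28182415)])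
(.lp [[6], [0, 2, 4, 7, 9, 11], [1, 3, 5, 8, 10, 12]] [(.mj 6 11, 1), (.mj 10 6, 1), (.hz 22 1983, 4195)]))
(.cut 6 [(0, 1), (1, 1), (2, 1), (3, 1), (5, 1), (7, 1), (11, 1), (21, 1), (15, 1), (23, 1), (31, 1), (47, 1), (63, 1), (159, 1), (303, 1), (191, 1), (319, 1), (671, 1), (447, 1), (703, 1), (959, 1), (1471, 1), (2751, 1), (1983, 1), (3007, 1)]
(.cut 6 [(0, 1), (1, 1), (2, 1), (3, 1), (5, 1), (7, 1), (11, 1), (21, 1), (15, 1), (23, 1), (31, 1), (47, 1), (63, 1), (159, 1), (303, 1), (191, 1), (319, 1), (447, 1), (1471, 1)]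
(.lp [[6], [0, 2, 4, 7, 9, 11], [1, 3, 5, 8, 10, 12]] [(.mj 8 9, 5346), (.mj 11 6, 4662), (.rw 10, 1), (.rw 11, 1), (.rw 12, 18)])))
(.cut 6 [(0, 1), (1, 1), (2, 1), (3, 1), (5, 1), (7, 1), (11, 1), (21, 1), (15, 1), (23, 1), (31, 1), (47, 1), (63, 1), (159, 1), (303, 1), (191, 1), (319, 1), (671, 1), (447, 1), (703, 1), (959, 1), (1471, 1), (1983, 1)]
(.lp [[6], [0, 2, 4, 7, 9, 11], [1, 3, 5, 8, 10, 12]] [(.mj 8 9, 48), (.mj 12 6, 263), (.rw 11, 1)]))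
.fin))
(.lp [[6], [1, 3, 5, 8, 10], [0, 2, 4, 7, 9, 11]] [(.mj 10 6, 5), (.mj 10 11, 6), (.hz 18 3007, 151740)])))
(.cut 6 [(0, 1), (1, 1), (2, 1), (3, 1), (5, 1), (7, 1), (11, 1), (21, 1), (15, 1), (23, 1), (31, 1), (47, 1), (63, 1), (159, 1), (303, 1), (191, 1), (319, 1), (447, 1)]
(.lp [[6], [1, 3, 5, 8, 10], [0, 2, 4, 7, 9, 11]] [(.mj 8 9, 3484), (.mj 11 6, 2229), (.mj 11 10, 2108), (.hz 18 1471, 3158770), (.hz 18 3007, 8277627), (.rw 10, 5)]))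
.fin))
(.ref 0)))
(.lp [[6], [0, 2, 4, 7, 9], [1, 3, 5, 8, 10]] [(.mj 3 4, 134155), (.mj 7 8, 31759), (.mj 8 9, 11331), (.rw 8, 1), (.hz 21 319, 78239208), (.hz 18 959, 47163728)]))

theorem run172 : run P3488 (leaf3 218 625) (cutRow P3488) [s171] t172 s172 = true := by
  decide +kernel

theorem bad172 : Bad P3488 s172 :=
  run_sound (leaf3_sound P3488 rfl rfl) (cutRow_sound P3488) (
    List.forall_mem_cons.2 ⟨bad171, fun _ h => absurd h List.not_mem_nil⟩) t172 s172 run172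

end Pool.Agent.WN.Data
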