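import Pool.Agent.WN.CutRow
import Pool.Agent.WN.LeafRow
import Pool.Agent.Helper99.WN.ParDef
import Pool.Agent.WN.Data.D7
import Pool.Agent.WN.Data.D10
import Pool.Agent.WN.Data.D11
import Pool.Agent.WN.Data.D12
import Pool.Agent.WN.Data.D14
import Pool.Agent.WN.Data.D16
import Pool.Agent.WN.Data.D21
import Pool.Agent.WN.Data.D27

/-!
# The search tree, part 32
-/

set_option autoImplicit false

namespace Pool.Agent.WN.Data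

open Pool.Agent.W3 Pool.Agent.WN Pool.Agent.Helper99.WN

/-- the state above piece 244 of the tree -/
def s244 : St := ⟨[0, 0, 1, 3, 5, 15, 31, 31, 63, 95, 383], [383, 319, 127, 63, 47, 31, 23, 21, 15, 11, 7, 5, 3, 2, 1, 0], [0, 1, 2, 3, 4, 5, 6, 8, 9],
  [(4, 5)],
  [⟨true, 2, 3, 3, 10⟩, ⟨true, 1, 5, 2, 5⟩, ⟨true, 2, 3, 23, 50⟩, ⟨true, 1, 5, 12, 25⟩, ⟨true, 1, 21, 27, 50⟩, ⟨true, 4, 15, 9, 40⟩, ⟨true, 3, 23, 11, 20⟩, ⟨true, 4, 47, 7, 20⟩, ⟨true, 4, 47, 17, 40⟩, ⟨true, 4, 47, 9, 20⟩, ⟨true, 4, 47, 19, 40⟩, ⟨true, 5, 31, 3, 10⟩, ⟨true, 4, 47, 3, 5⟩, ⟨true, 4, 47, 5, 8⟩, ⟨true, 6, 159, 1, 10⟩, ⟨true, 6, 319, 1, 8⟩, ⟨true, 6, 319, 1, 5⟩, ⟨true, 8, 191, 1, 4⟩, ⟨true, 7, 383, 1, 20⟩, ⟨true, 8, 767, 2, 5⟩],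
  [.spn 0 0 651200, .spn 1 1 302400, .spn 3 2 302400, .spn 7 3 302400, .spn 15 4 302400, .spn 31 5 140426, .spn 63 6 140426, .spn 127 8 140426, .spn 383 9 140426]⟩

/-- piece 244 of the tree -/
noncomputable def t244 : WN.Tree :=
(.haz 9 1407 9 40
(.haz 10 895 1 10
(.haz 6 159 3 10
(.haz 6 191 2 5
(.haz 6 447 5 8
(.ask 607
(.mark 895 [7, 10, 11]
(.spn
(.lp [[7], [1, 3, 5, 8, 10], [0, 2, 4, 6, 9, 11]] [(.mj 3 4, 31646), (.mj 5 6, 459), (.mj 7 10, 1209), (.mj 9 7, 846), (.rw 9, 1), (.hz 24 447, 3439753), (.hz 18 1407, 978600), (.hz 20 1407, 584266), (.hz 21 2943, 8310637)])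
(.ask 1407
(.mark 1919 [7, 11, 12]
(.spn
(.lp [[7], [0, 2, 4, 6, 9, 11], [1, 3, 5, 8, 10, 12]] [(.mj 5 6, 6250), (.mj 9 10, 2600), (.mj 10 7, 3543), (.rw 10, 8), (.hz 18 2943, 66611731), (.hz 18 5503, 20611203)])
(.cut 7 [(0, 1), (1, 1), (2, 1), (3, 1), (5, 1), (7, 1), (11, 1), (21, 1), (15, 1), (23, 1), (31, 1), (47, 1), (63, 1), (95, 1), (127, 1), (319, 1), (607, 1), (383, 1), (639, 1), (2655, 1), (895, 1), (1407, 1), (2687, 1), (1919, 1), (2943, 1)]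
(.cut 7 [(0, 1), (1, 1), (2, 1), (3, 1), (5, 1), (7, 1), (11, 1), (21, 1), (15, 1), (23, 1), (31, 1), (47, 1), (63, 1), (95, 1), (127, 1), (319, 1), (383, 1), (1407, 1)]
(.lp [[7], [0, 2, 4, 6, 9, 11], [1, 3, 5, 8, 10, 12]] [(.mj 5 6, 121023), (.mj 11 7, 46044), (.mj 11 12, 12034), (.rw 10, 6), (.hz 20 5503, 11746799), (.rw 11, 8), (.rw 12, 148)])))
(.cut 7 [(0, 1), (1, 1), (2, 1), (3, 1), (5, 1), (7, 1), (11, 1), (21, 1), (15, 1), (23, 1), (31, 1), (47, 1), (63, 1), (95, 1), (127, 1), (319, 1), (607, 1), (383, 1), (639, 1), (895, 1), (1407, 1), (1919, 1)]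
(.lp [[7], [0, 2, 4, 6, 9, 11], [1, 3, 5, 8, 10, 12]] [(.mj 5 6, 549), (.mj 9 10, 238), (.mj 12 7, 296), (.mj 12 11, 26), (.rw 11, 1)]))
.fin))
(.ask 1919
(.mark 1919 [7, 11, 12]
(.spn
(.lp [[7], [0, 2, 4, 6, 9, 11], [1, 3, 5, 8, 10, 12]] [(.mj 5 6, 2489), (.mj 7 12, 388), (.mj 10 7, 1234), (.rw 10, 2), (.hz 18 2943, 26532737)])
(.lp [[7], [0, 2, 4, 6, 9, 11], [1, 3, 5, 8, 10, 12]] [(.mj 5 6, 13), (.mj 11 7, 3), (.mj 11 12, 1), (.hz 22 159, 5608), (.hz 23 191, 13085), (.hz 24 447, 5234), (.hz 18 895, 18112), (.hz 18 1407, 207), (.hz 18 1919, 5923), (.hz 18 2943, 28349), (.hz 18 6015, 24755)])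
(.cut 7 [(0, 1), (1, 1), (2, 1), (3, 1), (5, 1), (7, 1), (11, 1), (21, 1), (15, 1), (23, 1), (31, 1), (47, 1), (63, 1), (95, 1), (127, 1), (319, 1), (607, 1), (383, 1), (639, 1), (895, 1), (1407, 1), (1919, 1)]
(.lp [[7], [0, 2, 4, 6, 9, 11], [1, 3, 5, 8, 10, 12]] [(.mj 5 6, 939), (.mj 12 7, 1363), (.rw 11, 5)]))
.fin))
(.lp [[7], [1, 3, 5, 8, 10], [0, 2, 4, 6, 9, 11]] [(.mj 3 4, 13), (.mj 5 6, 19), (.mj 9 7, 4), (.hz 22 159, 5704), (.hz 23 191, 22183), (.hz 24 447, 8873), (.hz 18 895, 10426)])))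
(.lp [[7], [1, 3, 5, 8, 10], [0, 2, 4, 6, 9, 11]] [(.mj 3 4, 34), (.mj 5 6, 15), (.mj 11 7, 6), (.mj 11 10, 4), (.hz 23 191, 23342), (.hz 24 447, 9337), (.hz 18 895, 29546), (.hz 18 1407, 22868), (.hz 20 1407, 3042), (.hz 18 1919, 57716), (.hz 18 2943, 40659)])
.fin))
(.haz 7 1919 3 40
(.haz 8 255 9 20
(.ask 639
(.mark 895 [7, 10, 11]
(.spn
(.lp [[7], [1, 3, 5, 8, 10], [0, 2, 4, 6, 9, 11]] [(.mj 3 4, 52597), (.mj 5 6, 762), (.mj 7 10, 1730), (.mj 9 7, 1118), (.rw 9, 2), (.hz 24 447, 5717113), (.hz 18 1407, 1292178), (.hz 20 1407, 982072), (.hz 18 2943, 9599433), (.hz 21 2943, 10921778)])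
(.haz 5 159 9 20
(.ask 1407
(.mark 1919 [7, 11, 12]
(.spn
(.lp [[7], [0, 2, 4, 6, 9, 11], [1, 3, 5, 8, 10, 12]] [(.mj 5 6, 1576), (.mj 9 10, 522), (.mj 10 7, 837), (.rw 10, 2), (.hz 18 2943, 8472341), (.hz 25 3967, 2625492), (.hz 25 6015, 2092623)])
(.cut 7 [(0, 1), (1, 1), (2, 1), (3, 1), (5, 1), (7, 1), (11, 1), (21, 1), (15, 1), (23, 1), (31, 1), (47, 1), (63, 1), (95, 1), (127, 1), (319, 1), (383, 1)]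
(.lp [[7], [0, 2, 4, 6, 9, 11], [1, 3, 5, 8, 10, 12]] [(.mj 5 6, 3220), (.mj 9 10, 504), (.mj 11 7, 1419), (.hz 25 1919, 2273422), (.hz 18 5503, 1640806), (.hz 20 5503, 155967), (.hz 25 3967, 693674), (.hz 25 6015, 3105192), (.rw 11, 4)]))
(.cut 7 [(0, 1), (1, 1), (2, 1), (3, 1), (5, 1), (7, 1), (11, 1), (21, 1), (15, 1), (23, 1), (31, 1), (47, 1), (63, 1), (95, 1), (127, 1), (319, 1), (383, 1)]
(.lp [[7], [0, 2, 4, 6, 9, 11], [1, 3, 5, 8, 10, 12]] [(.mj 5 6, 5746), (.mj 9 10, 1402), (.mj 12 7, 2777), (.hz 25 1919, 5855887), (.hz 18 2943, 13681889), (.hz 25 3967, 1563580), (.hz 25 6015, 1387532), (.rw 11, 7)]))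
.fin))
(.ask 1919
(.mark 1919 [7, 11, 12]
(.spn
(.lp [[7], [0, 2, 4, 6, 9, 11], [1, 3, 5, 8, 10, 12]] [(.mj 5 6, 5689), (.mj 7 12, 808), (.mj 10 7, 2740), (.rw 10, 5), (.hz 18 2943, 12963737), (.hz 25 3967, 17841943)])
(.lp [[7], [0, 2, 4, 6, 9, 11], [1, 3, 5, 8, 10, 12]] [(.mj 8 9, 8), (.mj 11 7, 5), (.mj 11 12, 1), (.hz 25 1919, 22856), (.hz 18 2943, 3029), (.hz 25 3967, 31217), (.hz 25 6015, 14780)])
(.cut 7 [(0, 1), (1, 1), (2, 1), (3, 1), (5, 1), (7, 1), (11, 1), (21, 1), (15, 1), (23, 1), (31, 1), (47, 1), (63, 1), (95, 1), (127, 1), (319, 1), (607, 1), (383, 1), (639, 1), (895, 1), (1407, 1), (1919, 1)]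
(.cut 11 [(0, 1), (1, 1), (2, 1), (3, 1), (5, 1), (7, 1), (11, 1), (21, 1), (15, 1), (23, 1), (31, 1), (47, 1), (63, 1), (95, 1), (159, 1), (127, 1), (191, 1), (223, 1), (319, 1), (607, 1), (255, 1), (383, 1), (447, 1), (735, 1), (511, 1), (1407, 1), (1535, 1)]
(.lp [[7], [0, 2, 4, 6, 9, 11], [1, 3, 5, 8, 10, 12]] [(.mj 5 6, 19687), (.mj 12 7, 8673), (.rw 11, 32), (.rw 12, 1)])))
.fin))
(.lp [[7], [1, 3, 5, 8, 10], [0, 2, 4, 6, 9, 11]] [(.mj 5 6, 1), (.mj 10 7, 2), (.mj 10 11, 2), (.hz 20 1535, 594), (.hz 25 3967, 23404)])))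
(.lp [[7], [1, 3, 5, 8, 10], [0, 2, 4, 6, 9, 11]] [(.mj 3 4, 1), (.hz 27 31, 50)]))
(.lp [[7], [1, 3, 5, 8, 10], [0, 2, 4, 6, 9, 11]] [(.mj 8 9, 102), (.mj 11 7, 79), (.mj 11 10, 44), (.hz 18 1407, 280098), (.hz 20 1407, 58397), (.hz 25 1919, 602401), (.hz 18 2943, 905138)])
.fin))
(.ref 0))
(.lp [[7], [0, 2, 4, 6, 9], [1, 3, 5, 8, 10]] [(.mj 3 4, 8), (.hz 22 159, 140), (.hz 26 127, 440), (.hz 26 255, 364), (.hz 24 447, 909)]))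
(.cut 7 [(0, 1), (1, 1), (2, 1), (3, 1), (5, 1), (7, 1), (11, 1), (21, 1), (15, 1), (23, 1), (31, 1), (47, 1), (63, 1), (95, 1), (127, 1), (319, 1), (383, 1)]
(.lp [[7], [0, 2, 4, 6, 9], [1, 3, 5, 8, 10]] [(.mj 5 6, 44), (.hz 25 607, 394702), (.hz 25 639, 976119), (.hz 25 895, 1476407), (.hz 25 1407, 1476407), (.rw 9, 2)]))))
(.lp [[7], [0, 2, 4, 6, 9], [1, 3, 5, 8, 10]] [(.mj 8 9, 2), (.mj 9 7, 3), (.hz 23 191, 11943), (.hz 24 319, 13917), (.hz 23 447, 12493)]))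
(.lp [[7], [0, 2, 4, 6, 9], [1, 3, 5, 8, 10]] [(.mj 3 4, 229), (.mj 6 8, 25), (.mj 9 7, 37), (.hz 23 63, 419024), (.hz 22 159, 59757), (.hz 22 191, 147373), (.hz 22 447, 85984)]))
(.lp [[7], [0, 2, 4, 6, 9], [1, 3, 5, 8, 10]] [(.mj 3 4, 4), (.mj 9 7, 14), (.mj 9 10, 4), (.hz 22 31, 20960), (.hz 14 159, 19055), (.hz 18 383, 20058), (.hz 18 895, 19938), (.hz 18 1407, 32270)]))
(.cut 7 [(0, 1), (1, 1), (2, 1), (3, 1), (5, 1), (7, 1), (11, 1), (21, 1), (15, 1), (23, 1), (31, 1), (47, 1), (63, 1), (95, 1), (127, 1), (319, 1), (383, 1)]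
(.cut 7 [(0, 1), (1, 1), (2, 1), (3, 1), (5, 1), (7, 1), (11, 1), (21, 1), (15, 1), (23, 1), (31, 1), (47, 1), (63, 1), (95, 1), (127, 1), (319, 1), (383, 1), (1407, 1)]
(.lp [[7], [0, 2, 4, 6, 9], [1, 3, 5, 8, 10]] [(.mj 5 6, 937), (.mj 8 9, 8083), (.mj 9 7, 3627), (.hz 21 383, 21072797), (.rw 9, 5), (.rw 10, 3)]))))
(.lp [[7], [0, 2, 4, 6, 9], [1, 3, 5, 8, 10]] [(.mj 9 7, 122), (.mj 9 10, 377), (.rw 8, 1), (.hz 20 383, 1166298), (.hz 18 1407, 1768419)]))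

theorem run244 : run P3488 (leaf3 218 625) (cutRow P3488) [s243] t244 s244 = true := by
  decide +kernel

theorem bad244 : Bad P3488 s244 :=
  run_sound (leaf3_sound P3488 rfl rfl) (cutRow_sound P3488) (
    List.forall_mem_cons.2 ⟨bad243, fun _ h => absurd h List.not_mem_nil⟩) t244 s244 run244

/-- the state above piece 14 of the tree -/
def s14 : St := ⟨[0, 0, 1, 1, 2, 7, 15, 39], [15, 11, 13, 7, 5, 9, 3, 1, 0], [0, 1, 2, 3, 5],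
  [],
  [⟨true, 1, 9, 7, 50⟩, ⟨true, 2, 11, 3, 50⟩, ⟨true, 2, 9, 9, 50⟩, ⟨true, 3, 3, 1, 5⟩, ⟨true, 4, 39, 1, 20⟩, ⟨true, 5, 95, 3, 20⟩],
  [.spn 0 0 651200, .spn 1 1 140426, .spn 3 2 140426, .spn 7 3 62723, .spn 15 5 140426]⟩

/-- piece 14 of the tree -/
noncomputable def t14 : WN.Tree :=
(.mark 47 [4, 6, 7]
(.spn
(.haz 4 79 1 20
(.haz 4 111 1 10
(.haz 7 111 1 4
(.haz 4 79 1 10
(.haz 6 175 3 20
(.haz 4 79 1 8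
(.haz 6 175 1 5
(.haz 7 111 13 40
(.haz 5 79 7 20
(.ask 79
(.mark 111 [4, 7, 8]
(.lp [[1, 4], [3, 6, 8], [0, 2, 5, 7]] [(.mj 2 3, 8), (.mj 4 6, 285), (.mj 4 7, 871), (.mj 5 4, 1340), (.hz 11 79, 1004142), (.hz 4 167, 5489), (.hz 13 111, 255294), (.hz 11 335, 1165641), (.hz 14 335, 107528), (.hz 13 367, 367388)]))
(.ask 111
(.mark 111 [4, 7, 8]
(.lp [[1, 4], [3, 6, 8], [0, 2, 5, 7]] [(.mj 4 6, 7), (.mj 4 7, 22), (.mj 5 4, 34), (.hz 11 79, 22375), (.hz 4 167, 139), (.hz 13 111, 5876), (.hz 13 367, 6566)]))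
(.lp [[1, 4], [3, 6], [0, 2, 5, 7]] [(.mj 4 7, 2), (.mj 5 4, 3)])))
(.lp [[1, 4], [3, 6], [0, 2, 5, 7]] [(.mj 2 3, 1), (.mj 5 4, 6), (.mj 5 6, 6), (.hz 14 7, 700), (.hz 14 15, 2013), (.hz 11 79, 12520)]))
(.lp [[1, 4], [3, 6], [0, 2, 5, 7]] [(.mj 2 3, 7), (.mj 4 6, 28), (.mj 5 4, 56), (.hz 13 39, 2245), (.hz 13 47, 8630), (.hz 11 79, 89316), (.hz 8 111, 62087)]))
(.lp [[1, 4], [3, 6], [0, 2, 5, 7]] [(.mj 2 3, 3), (.mj 4 7, 14), (.mj 5 4, 23), (.hz 12 15, 8418), (.hz 12 47, 24353), (.hz 11 79, 28717), (.hz 4 167, 232), (.hz 10 175, 8352)]))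
(.lp [[1, 4], [3, 6], [0, 2, 5, 7]] [(.mj 4 6, 1365), (.mj 4 7, 1260), (.rw 5, 1), (.hz 11 2, 73418), (.hz 11 3, 157324), (.hz 11 7, 590840), (.hz 11 11, 253217), (.hz 11 15, 3678401), (.hz 9 79, 2269521), (.hz 8 111, 2073196), (.hz 10 175, 931019)]))
(.lp [[1, 4], [3, 6], [0, 2, 5, 7]] [(.mj 4 7, 12), (.mj 5 4, 17), (.hz 10 15, 2087), (.hz 10 47, 2493), (.hz 9 79, 16529), (.hz 4 167, 472), (.hz 8 111, 35380)]))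
(.lp [[1, 4], [3, 6], [0, 2, 5, 7]] [(.mj 2 3, 5), (.mj 4 6, 14), (.mj 4 7, 33), (.mj 5 6, 15), (.hz 9 2, 1633), (.hz 9 3, 3447), (.hz 9 7, 12291), (.hz 9 11, 3410), (.hz 9 15, 32776), (.hz 6 79, 20375), (.hz 8 111, 128208)]))
(.lp [[1, 4], [3, 6], [0, 2, 5, 7]] [(.mj 2 3, 8), (.mj 4 6, 48), (.mj 5 4, 78), (.hz 8 39, 29274), (.hz 8 47, 110308), (.hz 7 111, 85743)]))
(.lp [[1, 4], [3, 6], [0, 2, 5, 7]] [(.mj 4 6, 119), (.mj 4 7, 164), (.rw 5, 1), (.hz 7 47, 1447474), (.hz 6 79, 31382), (.hz 4 167, 16143)]))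
(.lp [[1, 4], [3, 6], [0, 2, 5, 7]] [(.mj 4 6, 1), (.mj 4 7, 1), (.hz 6 2, 25), (.hz 6 3, 367)]))
(.haz 3 167 3 10
(.ask 79
(.mark 111 [4, 7, 8]
(.spn
(.haz 7 111 3 10
(.lp [[1, 4], [3, 6, 8], [0, 2, 5, 7]] [(.mj 4 7, 3395), (.mj 5 6, 3395), (.mj 6 4, 3395), (.rw 6, 2), (.hz 7 111, 2100964), (.hz 7 127, 3607716), (.hz 4 367, 2122186), (.hz 7 367, 5729902)])
(.lp [[1, 4], [3, 6, 8], [0, 2, 5, 7]] [(.mj 2 3, 4492), (.mj 5 6, 72781), (.mj 6 4, 41520), (.rw 6, 49), (.hz 7 39, 9244625), (.hz 7 47, 35698701), (.hz 4 167, 3892474), (.hz 7 111, 26137868), (.hz 4 175, 18164877), (.hz 4 367, 69191858)]))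
(.ask 167
(.mark 239 [4, 8, 9]
(.spn
(.lp [[1, 4], [3, 6, 8], [0, 2, 5, 7, 9]] [(.mj 2 3, 4519), (.mj 4 8, 700), (.mj 5 6, 1367), (.mj 6 7, 3786), (.mj 7 4, 4327), (.rw 7, 8), (.hz 4 679, 1014049), (.hz 4 367, 14573518), (.hz 4 687, 8820767)])
(.ask 335
(.mark 495 [4, 9, 10]
(.cut 4 [(0, 1), (1, 1), (2, 1), (3, 1), (5, 1), (9, 1), (7, 1), (11, 1), (13, 1), (15, 1), (39, 1), (47, 1), (79, 1), (167, 1), (175, 1)]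
(.cut 4 [(0, 1), (1, 1), (2, 1), (3, 1), (5, 1), (9, 1), (7, 1), (11, 1), (13, 1), (15, 1), (39, 1), (47, 1), (79, 1), (167, 1), (111, 1), (175, 1), (335, 1), (239, 1), (367, 1)]
(.lp [[1, 4], [3, 6, 8, 10], [0, 2, 5, 7, 9]] [(.mj 2 3, 4358), (.mj 6 7, 1604), (.mj 7 4, 662), (.mj 7 8, 420), (.mj 8 4, 1683), (.hz 6 679, 463282), (.hz 4 687, 223931), (.hz 6 695, 2353693), (.hz 5 1375, 459970), (.hz 4 751, 3113382), (.rw 8, 5), (.rw 9, 2)]))))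
(.cut 4 [(0, 1), (1, 1), (2, 1), (3, 1), (5, 1), (9, 1), (7, 1), (11, 1), (13, 1), (15, 1), (39, 1), (47, 1), (79, 1), (167, 1), (111, 1), (175, 1), (239, 1)]
(.cut 4 [(0, 1), (1, 1), (2, 1), (3, 1), (5, 1), (9, 1), (7, 1), (11, 1), (13, 1), (15, 1), (39, 1), (47, 1), (79, 1), (111, 1), (335, 1), (367, 1)]
(.cut 4 [(0, 1), (1, 1), (2, 1), (3, 1), (5, 1), (9, 1), (7, 1), (11, 1), (13, 1), (15, 1), (39, 1), (79, 1), (335, 1)]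
(.lp [[1, 4], [3, 6, 8], [0, 2, 5, 7, 9]] [(.mj 2 3, 34255), (.mj 6 7, 13760), (.mj 7 8, 7221), (.mj 8 4, 20162), (.mj 8 9, 193), (.hz 6 679, 3880723), (.hz 4 687, 7500144), (.hz 6 695, 15015611), (.hz 4 751, 34551833), (.rw 8, 34), (.rw 9, 1), (.rw 10, 27)])))))
(.cut 4 [(0, 1), (1, 1), (2, 1), (3, 1), (5, 1), (9, 1), (7, 1), (11, 1), (13, 1), (15, 1), (39, 1), (47, 1), (79, 1), (167, 1), (111, 1), (175, 1), (239, 1)]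
(.lp [[1, 4], [3, 6, 8], [0, 2, 5, 7, 9]] [(.mj 5 6, 271), (.mj 6 7, 901), (.mj 9 4, 602), (.mj 9 8, 441), (.rw 8, 2)]))
.fin))
(.maj 4 8
(.ask 175
(.mark 239 [4, 8, 9]
(.cut 4 [(0, 1), (1, 1), (2, 1), (3, 1), (5, 1), (9, 1), (7, 1), (11, 1), (13, 1), (15, 1), (39, 1), (47, 1), (79, 1), (167, 1), (111, 1), (175, 1)]
(.lp [[1, 4], [3, 6, 8], [0, 2, 5, 7, 9]] [(.mj 2 3, 762), (.mj 5 6, 71), (.mj 6 7, 297), (.mj 7 4, 452), (.hz 4 367, 1859695), (.hz 4 687, 110157), (.rw 7, 1)])))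
(.ask 239
(.mark 239 [4, 8, 9]
(.spn
(.haz 9 495 7 20
(.lp [[1, 4], [3, 6, 8], [0, 2, 5, 7, 9]] [(.mj 2 3, 32964), (.mj 4 9, 4221), (.mj 5 6, 2262), (.mj 6 7, 4686), (.mj 7 4, 18744), (.rw 7, 32), (.hz 4 367, 78115138), (.hz 7 495, 7914352)])
(.lp [[1, 4], [3, 6, 8], [0, 2, 5, 7, 9]] [(.mj 2 3, 4), (.mj 4 8, 6), (.mj 6 7, 2), (.mj 7 4, 7), (.hz 7 239, 7134)]))
(.con 8 4)
(.cut 4 [(0, 1), (1, 1), (2, 1), (3, 1), (5, 1), (9, 1), (7, 1), (11, 1), (13, 1), (15, 1), (39, 1), (47, 1), (79, 1), (167, 1), (111, 1), (175, 1), (239, 1)]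
(.lp [[1, 4], [3, 6, 8], [0, 2, 5, 7, 9]] [(.mj 2 3, 706), (.mj 6 7, 135), (.mj 9 4, 314), (.rw 8, 1)]))
.fin))
(.lp [[1, 4], [3, 6, 8], [0, 2, 5, 7]] [(.mj 4 8, 1), (.mj 7 4, 1)])))
(.cut 4 [(0, 1), (1, 1), (2, 1), (3, 1), (5, 1), (9, 1), (7, 1), (11, 1), (13, 1), (15, 1), (39, 1), (47, 1), (79, 1), (167, 1), (111, 1)]
(.lp [[1, 4], [3, 6, 8], [0, 2, 5, 7]] [(.mj 2 3, 851), (.mj 6 7, 139), (.mj 7 4, 97), (.mj 8 4, 285), (.hz 4 111, 69971), (.hz 5 351, 4001), (.hz 4 239, 215729), (.rw 7, 1)]))))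
(.maj 4 7
(.cut 4 [(0, 1), (1, 1), (2, 1), (3, 1), (5, 1), (9, 1), (7, 1), (11, 1), (13, 1), (15, 1), (39, 1), (47, 1), (79, 1), (111, 1)]
(.lp [[1, 4], [3, 6, 8], [0, 2, 5, 7]] [(.mj 5 6, 768), (.mj 8 4, 455), (.mj 8 7, 368), (.hz 6 167, 5864), (.hz 4 167, 146129), (.hz 4 175, 658944), (.rw 7, 1)]))
(.cut 4 [(0, 1), (1, 1), (2, 1), (3, 1), (5, 1), (9, 1), (7, 1), (11, 1), (13, 1), (15, 1), (39, 1), (47, 1)]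
(.cut 4 [(0, 1), (1, 1), (2, 1), (3, 1), (5, 1), (9, 1), (7, 1), (11, 1), (13, 1), (15, 1), (39, 1), (47, 1), (79, 1), (111, 1)]
(.cut 7 [(0, 1), (1, 1), (2, 1), (3, 1), (5, 1), (9, 1), (7, 1), (11, 1), (13, 1), (15, 1), (39, 1), (47, 1), (79, 1), (335, 1)]
(.lp [[1, 4], [3, 6, 8], [0, 2, 5, 7]] [(.mj 5 6, 21676), (.mj 7 4, 1435), (.mj 8 4, 11410), (.mj 8 7, 12845), (.hz 6 183, 3694817), (.rw 7, 26), (.rw 8, 9), (.rw 9, 4)])))))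
.fin))
(.ref 0))
(.lp [[1, 4], [3, 6], [0, 2, 5, 7]] [(.mj 3 5, 4), (.mj 6 4, 15), (.mj 6 7, 15), (.hz 6 7, 8798), (.hz 3 19, 2320), (.hz 3 23, 14792), (.hz 6 39, 6127), (.hz 3 55, 20339), (.hz 3 167, 26473), (.hz 4 167, 5745), (.hz 4 175, 25839)]))
(.ref 1)
.fin))

theorem run14 : run P3488 (leaf3 218 625) (cutRow P3488) [s12, s13] t14 s14 = true := by
  decide +kernel

theorem bad14 : Bad P3488 s14 :=
  run_sound (leaf3_sound P3488 rfl rfl) (cutRow_sound P3488) (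
    List.forall_mem_cons.2 ⟨bad12, List.forall_mem_cons.2 ⟨bad13, fun _ h => absurd h List.not_mem_nil⟩⟩) t14 s14 run14

/-- the state above piece 71 of the tree -/
def s71 : St := ⟨[0, 0, 1, 1, 3, 7], [7, 5, 3, 2, 1, 0], [0, 1, 2, 4],
  [],
  [⟨true, 1, 9, 7, 50⟩, ⟨true, 2, 11, 3, 50⟩, ⟨true, 2, 9, 9, 50⟩, ⟨false, 3, 3, 1, 5⟩, ⟨true, 2, 3, 1, 4⟩, ⟨true, 1, 9, 3, 10⟩, ⟨true, 2, 9, 3, 10⟩, ⟨true, 1, 9, 7, 20⟩, ⟨true, 1, 5, 7, 20⟩, ⟨true, 1, 9, 19, 50⟩],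
  [.spn 0 0 651200, .spn 1 1 140426, .spn 3 2 140426, .spn 7 4 140426]⟩

/-- piece 71 of the tree -/
noncomputable def t71 : WN.Tree :=
(.haz 3 39 3 50
(.haz 1 13 23 40
(.haz 1 9 17 40
(.haz 1 13 27 40
(.ask 19
(.mark 23 [3, 5, 6]
(.spn
(.haz 3 39 1 10
(.haz 5 23 7 20
(.lp [[3], [0, 2, 5], [1, 4, 6]] [(.mj 0 1, 128), (.mj 2 4, 60), (.mj 3 5, 72), (.mj 4 3, 95), (.hz 12 9, 1063), (.hz 13 13, 670), (.hz 15 23, 5561), (.hz 14 39, 17885), (.hz 4 83, 47), (.hz 15 87, 16362), (.hz 14 119, 11434)])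
(.haz 3 39 3 20
(.haz 6 31 1 4
(.ask 9
(.mark 31 [5, 6, 7]
(.lp [[3, 7], [0, 2, 5], [1, 4, 6]] [(.mj 0 1, 63088), (.mj 4 3, 14358), (.rw 4, 14), (.hz 15 7, 515234), (.hz 12 137, 490150), (.hz 15 23, 370183), (.hz 16 39, 637117), (.hz 13 141, 473506), (.hz 17 159, 7403652)]))
(.ask 39
(.mark 39 [3, 4, 7]
(.lp [[3], [1, 4, 6], [0, 2, 5, 7]] [(.mj 0 1, 31898), (.mj 4 3, 6090), (.rw 4, 2), (.hz 15 7, 108188), (.hz 13 13, 323267), (.hz 15 23, 265407), (.hz 16 39, 485321), (.hz 17 31, 3508622), (.hz 16 167, 570966)]))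
(.lp [[3], [0, 2, 5], [1, 4, 6]] [(.mj 0 1, 15474), (.mj 4 3, 2906), (.rw 4, 1), (.hz 13 13, 159858), (.hz 15 23, 170509), (.hz 16 39, 188069), (.hz 17 31, 1660619)])))
(.lp [[3], [0, 2, 5], [1, 4, 6]] [(.mj 0 1, 3), (.mj 4 3, 2), (.hz 15 7, 33), (.hz 17 19, 118), (.hz 15 23, 290), (.hz 17 23, 1448), (.hz 16 39, 394)]))
(.lp [[3], [0, 2, 5], [1, 4, 6]] [(.mj 0 1, 26), (.hz 16 1, 237), (.hz 16 5, 384), (.hz 12 9, 105), (.hz 16 7, 347), (.hz 15 7, 347), (.hz 15 23, 210)])))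
(.lp [[3], [0, 2, 5], [1, 4, 6]] [(.mj 0 1, 29), (.mj 3 5, 1), (.mj 4 5, 2), (.hz 14 1, 783), (.hz 14 5, 870), (.hz 14 7, 300), (.hz 10 39, 193)]))
(.ask 39
(.mark 55 [3, 6, 7]
(.spn
(.ask 9
(.mark 63 [6, 7, 8]
(.lp [[3, 8], [1, 4, 6], [0, 2, 5, 7]] [(.mj 0 1, 40257), (.mj 4 3, 5534), (.mj 4 5, 4792), (.mj 5 3, 4313), (.rw 5, 19), (.hz 12 265, 288980), (.hz 13 269, 332327), (.hz 10 119, 599060)]))
(.haz 3 23 1 8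
(.lp [[3], [1, 4, 6], [0, 2, 5, 7]] [(.mj 0 1, 17503), (.mj 4 5, 3143), (.mj 5 3, 4498), (.rw 5, 4), (.hz 13 13, 180817), (.hz 14 87, 7258501), (.hz 14 183, 2233382)])
(.lp [[3], [1, 4, 6], [0, 2, 5, 7]] [(.mj 0 1, 15280), (.mj 4 5, 1888), (.rw 5, 1), (.hz 14 3, 220098), (.hz 14 5, 1056248), (.hz 14 7, 402433), (.hz 10 167, 214441), (.hz 10 119, 103551)])))
(.ask 9
(.mark 63 [6, 7, 8]
(.cut 3 [(0, 1), (1, 1), (2, 1), (3, 1), (5, 1), (7, 1)]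
(.cut 3 [(0, 1), (1, 1), (2, 1), (3, 1), (5, 1), (7, 1), (19, 1), (23, 1), (83, 1), (87, 1)]
(.lp [[3, 8], [1, 4, 6], [0, 2, 5, 7]] [(.mj 0 1, 902029), (.mj 4 5, 64635), (.mj 6 3, 215634), (.hz 12 265, 6097639), (.hz 10 39, 10111402), (.hz 13 269, 7678508), (.hz 10 55, 14110167), (.hz 10 183, 7429295), (.rw 6, 305), (.rw 7, 3)]))))
(.cut 3 [(0, 1), (1, 1), (2, 1), (3, 1), (5, 1), (7, 1), (19, 1), (23, 1), (39, 1), (55, 1)]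
(.lp [[3], [1, 4, 6], [0, 2, 5, 7]] [(.mj 0 1, 7078), (.mj 4 5, 580), (.mj 5 3, 359), (.mj 6 3, 1011), (.hz 13 13, 73116), (.hz 10 39, 6406), (.hz 10 183, 122876), (.rw 6, 2)])))
(.cut 3 [(0, 1), (1, 1), (2, 1), (3, 1), (5, 1), (7, 1), (39, 1)]
(.cut 3 [(0, 1), (1, 1), (2, 1), (3, 1), (5, 1), (7, 1), (19, 1), (23, 1)]
(.lp [[3], [1, 4, 6], [0, 2, 5, 7]] [(.mj 0 1, 6090), (.mj 4 5, 718), (.mj 7 3, 1231), (.hz 12 9, 50684), (.hz 13 13, 31912), (.hz 10 39, 4595), (.hz 6 91, 15795), (.hz 10 119, 90619), (.rw 6, 1), (.rw 7, 1)])))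
.fin))
(.ask 55
(.mark 55 [3, 6, 7]
(.spn
(.haz 6 183 1 10
(.haz 6 183 1 5
(.ask 183
(.mark 183 [3, 6, 8]
(.lp [[3], [1, 4, 6], [0, 2, 5, 7, 8]] [(.mj 0 1, 36), (.mj 3 6, 26), (.mj 3 7, 13), (.mj 4 5, 1), (.mj 5 3, 42), (.hz 10 119, 6006), (.hz 15 183, 46848), (.hz 15 191, 25895), (.hz 15 439, 25895)]))
(.lp [[3], [1, 4, 6], [0, 2, 5, 7]] [(.mj 3 6, 5), (.mj 5 3, 9)]))
(.lp [[3], [1, 4, 6], [0, 2, 5, 7]] [(.mj 0 1, 102), (.mj 3 7, 59), (.mj 5 3, 87), (.hz 15 19, 11132), (.hz 15 23, 38584), (.hz 15 55, 59017), (.hz 10 119, 18510), (.hz 14 183, 55360)]))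
(.lp [[3], [1, 4, 6], [0, 2, 5, 7]] [(.mj 0 1, 8), (.mj 3 7, 6), (.mj 5 3, 8), (.hz 14 19, 531), (.hz 14 23, 1677), (.hz 14 55, 2951)]))
(.lp [[3], [1, 4, 6], [0, 2, 5, 7]] [(.mj 0 1, 226), (.mj 6 3, 44), (.mj 6 7, 2), (.hz 12 9, 1880), (.hz 13 13, 1184), (.hz 10 39, 964), (.hz 10 55, 7928), (.hz 10 119, 6209), (.hz 10 183, 5311)])
(.ask 9
(.mark 31 [5, 6, 8]
(.cut 3 [(0, 1), (1, 1), (2, 1), (3, 1), (5, 1), (7, 1)]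
(.cut 3 [(0, 1), (1, 1), (2, 1), (3, 1), (5, 1), (7, 1), (19, 1), (23, 1), (39, 1)]
(.lp [[3, 8], [1, 4, 6], [0, 2, 5, 7]] [(.mj 0 1, 73684), (.mj 4 5, 9148), (.mj 7 3, 17507), (.hz 12 265, 528935), (.hz 13 269, 608275), (.hz 6 91, 316605), (.rw 6, 25), (.rw 7, 15)]))))
(.cut 3 [(0, 1), (1, 1), (2, 1), (3, 1), (5, 1), (7, 1), (19, 1), (23, 1), (39, 1), (55, 1)]
(.cut 3 [(0, 1), (1, 1), (2, 1), (3, 1), (5, 1), (7, 1), (19, 1), (83, 1)]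
(.cut 6 [(0, 1), (1, 1), (2, 1), (3, 1), (5, 1), (9, 1), (7, 1), (11, 1), (13, 1), (19, 1), (15, 1), (23, 1), (27, 1), (39, 1), (31, 1), (47, 1)]
(.lp [[3], [1, 4, 6], [0, 2, 5, 7]] [(.mj 0 1, 4751353), (.mj 4 5, 673679), (.mj 7 3, 1074858), (.hz 13 13, 49084227), (.hz 10 119, 165035672), (.rw 6, 2045), (.rw 7, 213), (.rw 8, 63)])))))
.fin))
(.cut 3 [(0, 1), (1, 1), (2, 1), (3, 1), (5, 1), (7, 1), (39, 1)]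
(.lp [[3], [0, 2, 5], [1, 4, 6]] [(.mj 0 1, 9381), (.mj 5 3, 2015), (.hz 12 9, 68647), (.hz 13 13, 43222), (.hz 10 119, 406169), (.rw 5, 1)]))))
(.ask 9
(.mark 31 [5, 6, 7]
(.cut 3 [(0, 1), (1, 1), (2, 1), (3, 1), (5, 1), (7, 1), (19, 1), (83, 1)]
(.cut 5 [(0, 1), (1, 1), (2, 1), (3, 1), (5, 1), (9, 1), (7, 1), (11, 1), (13, 1), (19, 1), (137, 1), (15, 1), (27, 1), (83, 1), (139, 1), (141, 1), (91, 1)]
(.cut 3 [(0, 1), (1, 1), (2, 1), (3, 1), (5, 1), (7, 1)]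
(.cut 3 [(0, 1), (1, 1), (2, 1), (3, 1), (5, 1), (7, 1), (19, 1), (23, 1)]
(.cut 5 [(0, 1), (1, 1), (2, 1), (3, 1), (5, 1), (9, 1), (7, 1), (11, 1), (13, 1), (19, 1), (137, 1), (15, 1), (27, 1), (83, 1), (139, 1), (141, 1), (91, 1), (155, 1)]
(.lp [[3, 7], [0, 2, 5], [1, 4, 6]] [(.mj 0 1, 192504), (.mj 6 3, 38778), (.mj 6 5, 18334), (.hz 12 9, 694963), (.hz 6 9, 4716535), (.hz 13 13, 3270162), (.hz 12 137, 446031), (.hz 10 119, 1143335), (.rw 5, 2), (.rw 6, 3), (.rw 7, 36), (.rw 8, 2), (.rw 9, 3)])))))))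
(.cut 3 [(0, 1), (1, 1), (2, 1), (3, 1), (5, 1), (7, 1), (19, 1), (23, 1), (39, 2), (55, 1)]
(.cut 3 [(0, 1), (1, 1), (2, 1), (3, 1), (5, 1), (7, 1)]
(.lp [[3], [0, 2, 5], [1, 4, 6]] [(.mj 0 1, 148675), (.mj 6 3, 30542), (.mj 6 5, 13698), (.hz 13 13, 1535901), (.hz 10 39, 288409), (.hz 10 55, 1473620), (.rw 5, 4), (.rw 6, 33)]))))
.fin))
(.ref 0))
(.lp [[3], [1, 4], [0, 2, 5]] [(.mj 0 1, 5), (.mj 4 3, 2), (.hz 13 5, 113), (.hz 12 9, 92), (.hz 11 13, 89)]))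
(.lp [[3], [1, 4], [0, 2, 5]] [(.mj 4 3, 3), (.mj 4 5, 1), (.hz 12 1, 193), (.hz 9 9, 125), (.hz 11 13, 98), (.hz 10 39, 205)]))
(.lp [[3], [1, 4], [0, 2, 5]] [(.mj 2 4, 4), (.mj 4 3, 6), (.hz 11 5, 395), (.hz 9 9, 127), (.hz 9 13, 213)]))
(.lp [[3], [1, 4], [0, 2, 5]] [(.mj 0 1, 16), (.mj 4 5, 1), (.hz 10 1, 81), (.hz 10 5, 87)]))

theorem run71 : run P3488 (leaf3 218 625) (cutRow P3488) [s70] t71 s71 = true := by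
  decide +kernel

theorem bad71 : Bad P3488 s71 :=
  run_sound (leaf3_sound P3488 rfl rfl) (cutRow_sound P3488) (
    List.forall_mem_cons.2 ⟨bad70, fun _ h => absurd h List.not_mem_nil⟩) t71 s71 run71

/-- the state above piece 118 of the tree -/
def s118 : St := ⟨[0, 0, 1, 3, 5, 7, 15, 31], [39, 31, 23, 21, 15, 11, 7, 5, 3, 2, 1, 0], [0, 1, 2, 3, 4, 5],
  [],
  [⟨true, 2, 3, 3, 10⟩, ⟨true, 1, 5, 2, 5⟩, ⟨true, 2, 3, 23, 50⟩, ⟨true, 1, 5, 12, 25⟩, ⟨true, 4, 39, 4, 25⟩, ⟨true, 4, 39, 9, 50⟩, ⟨true, 4, 15, 4, 25⟩, ⟨true, 4, 15, 9, 50⟩, ⟨true, 1, 21, 29, 50⟩, ⟨true, 3, 39, 6, 25⟩, ⟨true, 3, 39, 3, 10⟩, ⟨true, 4, 39, 6, 25⟩, ⟨true, 3, 39, 17, 50⟩, ⟨true, 3, 39, 19, 50⟩, ⟨true, 3, 39, 2, 5⟩, ⟨true, 3, 23, 2, 5⟩, ⟨true, 4, 79, 6, 25⟩, ⟨true, 6, 47, 2, 25⟩, ⟨true, 5, 159, 3, 50⟩, ⟨true, 5, 159, 1, 10⟩],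
  [.spn 0 0 651200, .spn 1 1 302400, .spn 3 2 302400, .spn 7 3 140426, .spn 15 4 140426, .spn 31 5 62723]⟩

/-- piece 118 of the tree -/
noncomputable def t118 : WN.Tree :=
(.haz 6 159 2 25
(.haz 6 47 1 10
(.haz 6 47 3 25
(.haz 6 159 7 50
(.haz 6 47 7 50
(.haz 5 159 1 5
(.ask 47
(.mark 63 [6, 7, 8]
(.spn
(.haz 7 319 7 50
(.haz 7 319 1 5
(.haz 6 47 1 5
(.haz 6 159 11 50
(.haz 7 319 6 25
(.ask 159
(.ask 79
(.mark 255 [8, 9, 10]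
(.lp [[5, 8], [1, 3, 6, 10], [0, 2, 4, 7, 9]] [(.mj 4 5, 90), (.mj 5 6, 71), (.mj 6 7, 42), (.hz 28 47, 65236), (.hz 29 159, 1652), (.hz 30 319, 37529), (.hz 25 671, 19937), (.hz 29 671, 11419)]))
(.haz 6 159 13 50
(.mark 159 [5, 6, 9]
(.lp [[5, 8], [1, 3, 6], [0, 2, 4, 7, 9]] [(.mj 4 5, 83), (.mj 5 6, 64), (.mj 6 7, 33), (.hz 25 159, 4600), (.hz 31 159, 5483), (.hz 28 303, 114965), (.hz 30 319, 25916), (.hz 31 671, 7145), (.hz 25 735, 1)]))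
(.lp [[5, 8], [1, 3, 6], [0, 2, 4, 7, 9]] [(.mj 4 5, 12), (.mj 6 7, 11), (.hz 31 31, 3300), (.hz 25 159, 15812), (.hz 29 159, 1044), (.hz 28 303, 12154), (.hz 30 319, 8607)])))
(.lp [[5, 8], [1, 3, 6], [0, 2, 4, 7]] [(.mj 4 5, 75), (.mj 5 6, 57), (.mj 6 7, 29), (.hz 29 159, 4206), (.hz 28 303, 53839), (.hz 28 319, 41726), (.hz 30 319, 23330)]))
(.lp [[5, 8], [1, 3, 6], [0, 2, 4, 7]] [(.mj 4 5, 7), (.mj 5 6, 5), (.hz 30 31, 940), (.hz 28 47, 2605), (.hz 30 63, 1039), (.hz 29 159, 551), (.hz 28 303, 10389)]))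
(.lp [[5, 8], [1, 3, 6], [0, 2, 4, 7]] [(.mj 4 5, 5), (.mj 6 7, 4), (.hz 29 15, 269), (.hz 29 31, 741), (.hz 25 159, 6287), (.hz 23 159, 141), (.hz 28 303, 6983), (.hz 27 319, 16133)]))
(.lp [[5, 8], [1, 3, 6], [0, 2, 4, 7]] [(.mj 4 5, 104), (.mj 6 7, 97), (.mj 6 8, 19), (.hz 28 15, 225563), (.hz 25 159, 113044), (.hz 24 303, 20860), (.hz 27 319, 466434)]))
(.lp [[5, 8], [1, 3, 6], [0, 2, 4, 7]] [(.mj 4 5, 15), (.mj 5 6, 11), (.mj 6 8, 1), (.hz 27 31, 11578), (.hz 27 63, 14640), (.hz 23 159, 1250), (.hz 24 303, 2419), (.hz 26 319, 587)]))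
(.lp [[5, 8], [1, 3, 6], [0, 2, 4, 7]] [(.mj 4 5, 3), (.mj 5 6, 2), (.hz 26 31, 236), (.hz 26 63, 253), (.hz 24 303, 420)]))
(.haz 4 303 7 20
(.haz 7 319 8 25
(.haz 7 319 21 50
(.ask 159
(.mark 191 [6, 8, 9]
(.spn
(.haz 8 703 3 25
(.haz 8 703 1 5
(.ask 79
(.mark 255 [8, 9, 10]
(.spn
(.lp [[5, 8], [1, 3, 6, 10], [0, 2, 4, 7, 9]] [(.mj 3 4, 15), (.mj 4 5, 6), (.mj 5 7, 13), (.mj 6 8, 34), (.mj 7 6, 48), (.mj 8 9, 21), (.hz 24 303, 5652), (.hz 24 319, 13859), (.hz 23 671, 5779), (.hz 23 703, 17448), (.hz 30 703, 175852)])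
(.ask 303
(.mark 511 [9, 10, 11]
(.lp [[5, 8, 11], [1, 3, 6, 10], [0, 2, 4, 7, 9]] [(.mj 3 4, 21), (.mj 4 5, 1), (.mj 5 7, 5), (.mj 6 9, 11), (.mj 7 6, 23), (.mj 9 8, 11), (.hz 24 303, 5583), (.hz 16 1103, 1255), (.hz 24 319, 9464), (.hz 23 671, 205), (.hz 11 1135, 1842), (.hz 26 2351, 4329), (.hz 30 703, 67837), (.hz 24 2367, 17237), (.hz 26 2415, 856), (.hz 30 767, 152689), (.hz 23 2495, 15269)]))
(.lp [[5, 8], [1, 3, 6, 10], [0, 2, 4, 7, 9]] [(.mj 3 4, 7145), (.mj 5 7, 196), (.mj 6 9, 660), (.mj 7 6, 3401), (.mj 9 8, 820), (.rw 7, 1), (.hz 16 1103, 427312), (.hz 24 319, 2700018), (.hz 23 671, 152371), (.hz 11 1135, 1111012), (.hz 23 447, 294395), (.hz 30 703, 5364573), (.hz 30 767, 6691195)]))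
(.lp [[5, 8], [1, 3, 6, 10], [0, 2, 4, 7, 9]] [(.mj 3 4, 180), (.mj 5 7, 135), (.mj 7 6, 1055), (.mj 10 8, 442), (.mj 10 9, 378), (.rw 7, 1), (.hz 24 303, 225521), (.hz 24 319, 995899), (.hz 23 671, 132249), (.hz 23 447, 85492), (.hz 30 703, 5386299)])
.fin))
(.haz 4 47 1 2
(.lp [[5, 8], [1, 3, 6], [0, 2, 4, 7, 9]] [(.mj 3 4, 15378), (.mj 4 5, 1991), (.mj 7 6, 2441), (.rw 7, 1), (.hz 31 47, 16894251), (.hz 31 111, 2624013), (.hz 31 303, 5612823), (.hz 24 303, 244089), (.hz 24 319, 1603664)])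
(.lp [[5, 8], [1, 3, 6], [0, 2, 4, 7, 9]] [(.mj 4 5, 5), (.mj 7 6, 3), (.hz 31 15, 16248), (.hz 31 47, 935), (.hz 24 47, 185), (.hz 24 63, 867), (.hz 26 303, 404), (.hz 24 303, 289), (.hz 24 319, 1155)])))
(.lp [[5, 8], [1, 3, 6], [0, 2, 4, 7, 9]] [(.mj 3 4, 36), (.mj 4 5, 4), (.mj 6 9, 13), (.mj 7 6, 29), (.hz 30 47, 26574), (.hz 30 63, 15041), (.hz 24 303, 2853), (.hz 30 191, 67527), (.hz 24 319, 17773), (.hz 23 671, 514), (.hz 29 703, 21120)]))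
(.lp [[5, 8], [1, 3, 6], [0, 2, 4, 7, 9]] [(.mj 3 4, 15), (.mj 4 5, 1), (.mj 6 9, 6), (.mj 7 6, 12), (.hz 29 47, 2230), (.hz 29 63, 1426), (.hz 24 303, 1237), (.hz 29 191, 5524), (.hz 24 319, 7619), (.hz 23 671, 192)]))
(.lp [[5, 8], [1, 3, 6], [0, 2, 4, 7, 9]] [(.mj 3 4, 8), (.mj 4 5, 7), (.mj 8 6, 9), (.mj 8 9, 1), (.hz 24 47, 1350), (.hz 24 63, 3112), (.hz 23 159, 933), (.hz 23 191, 3771), (.hz 25 671, 11490), (.hz 23 671, 1228), (.hz 23 703, 5729)])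
(.lp [[5, 8], [1, 3, 6], [0, 2, 4, 7, 9]] [(.mj 3 4, 3), (.mj 4 5, 3), (.mj 5 7, 2), (.mj 9 6, 5), (.hz 24 47, 642), (.hz 24 63, 1377), (.hz 23 159, 1103), (.hz 24 303, 499), (.hz 23 191, 2060), (.hz 24 319, 1998), (.hz 28 319, 21), (.hz 23 447, 149)])
.fin))
(.ask 79
(.mark 111 [4, 8, 9]
(.lp [[5, 8], [0, 2, 4, 7], [1, 3, 6, 9]] [(.mj 3 4, 146), (.mj 4 5, 49), (.mj 7 6, 79), (.hz 24 47, 9491), (.hz 24 63, 28272), (.hz 23 159, 1040), (.hz 26 303, 19312), (.hz 24 303, 4853), (.hz 16 591, 8709), (.hz 24 319, 31500)]))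
(.lp [[5, 8], [1, 3, 6], [0, 2, 4, 7]] [(.mj 3 4, 42), (.mj 4 5, 19), (.mj 5 7, 4), (.mj 7 6, 17), (.hz 24 47, 1299), (.hz 24 63, 5722), (.hz 26 303, 4083), (.hz 24 303, 1676), (.hz 24 319, 6703)])))
(.lp [[5, 8], [1, 3, 6], [0, 2, 4, 7]] [(.mj 3 4, 13), (.mj 4 5, 12), (.mj 7 6, 14), (.hz 28 31, 1601), (.hz 24 47, 2289), (.hz 24 63, 3114), (.hz 28 63, 1155), (.hz 24 303, 1782), (.hz 24 319, 5692)]))
(.lp [[5, 8], [1, 3, 6], [0, 2, 4, 7]] [(.mj 3 4, 1), (.mj 7 6, 2), (.mj 7 8, 1), (.hz 27 31, 425), (.hz 24 47, 72), (.hz 27 63, 1133), (.hz 24 303, 396), (.hz 24 319, 1466)]))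
(.lp [[5, 8], [1, 3, 6], [0, 2, 4, 7]] [(.mj 0 1, 20), (.mj 4 5, 1), (.hz 26 15, 300), (.hz 26 47, 305), (.hz 24 47, 39)]))
(.lp [[5, 8], [1, 3, 6], [0, 2, 4, 7]] [(.mj 4 5, 5), (.mj 8 6, 4), (.mj 8 7, 2), (.hz 24 47, 880), (.hz 24 63, 888), (.hz 25 159, 6450), (.hz 23 159, 727), (.hz 24 303, 246), (.hz 23 191, 2660)])
.fin))
(.ref 0))
(.lp [[5], [1, 3, 6], [0, 2, 4, 7]] [(.mj 3 4, 10), (.mj 5 6, 30), (.mj 5 7, 21), (.hz 25 15, 26687), (.hz 25 23, 12508), (.hz 25 31, 33626), (.hz 23 159, 7057)]))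
(.lp [[5], [1, 3, 6], [0, 2, 4, 7]] [(.mj 3 4, 3884), (.mj 4 5, 3091), (.mj 5 7, 1450), (.hz 24 15, 444548), (.hz 22 47, 783646), (.hz 23 159, 253734)]))
(.lp [[5], [1, 3, 6], [0, 2, 4, 7]] [(.mj 3 4, 188), (.mj 4 5, 147), (.mj 5 7, 75), (.hz 23 15, 10406), (.hz 23 31, 9467), (.hz 22 47, 18344), (.hz 20 159, 26192)]))
(.lp [[5], [1, 3, 6], [0, 2, 4, 7]] [(.mj 3 4, 105), (.mj 4 5, 84), (.mj 5 7, 41), (.hz 22 15, 23386), (.hz 21 47, 52549), (.hz 20 159, 14522)]))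
(.lp [[5], [1, 3, 6], [0, 2, 4, 7]] [(.mj 3 4, 14), (.mj 4 5, 11), (.mj 5 7, 5), (.hz 21 15, 7677), (.hz 17 47, 2815), (.hz 20 159, 1916)]))
(.lp [[5], [1, 3, 6], [0, 2, 4, 7]] [(.mj 3 4, 5), (.mj 4 5, 4), (.mj 5 7, 2), (.hz 20 15, 542), (.hz 20 31, 479), (.hz 17 47, 501)]))

theorem run118 : run P3488 (leaf3 218 625) (cutRow P3488) [s117] t118 s118 = true := by
  decide +kernel

theorem bad118 : Bad P3488 s118 :=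
  run_sound (leaf3_sound P3488 rfl rfl) (cutRow_sound P3488) (
    List.forall_mem_cons.2 ⟨bad117, fun _ h => absurd h List.not_mem_nil⟩) t118 s118 run118

/-- the state above piece 199 of the tree -/
def s199 : St := ⟨[0, 0, 1, 3, 5, 15, 23, 31, 47, 159, 447], [447, 319, 303, 191, 63, 31, 23, 21, 15, 11, 7, 5, 3, 2, 1, 0], [0, 1, 2, 3, 4, 5, 7, 8, 9],
  [(10, 6), (5, 6), (4, 5)],
  [⟨true, 2, 3, 3, 10⟩, ⟨true, 1, 5, 2, 5⟩, ⟨true, 2, 3, 23, 50⟩, ⟨true, 1, 5, 12, 25⟩, ⟨true, 1, 21, 27, 50⟩, ⟨true, 4, 15, 9, 40⟩, ⟨true, 3, 23, 11, 20⟩, ⟨true, 4, 47, 7, 20⟩, ⟨true, 4, 47, 17, 40⟩, ⟨true, 4, 47, 9, 20⟩, ⟨true, 4, 47, 19, 40⟩, ⟨true, 5, 95, 1, 5⟩, ⟨true, 5, 95, 3, 10⟩, ⟨true, 5, 31, 3, 10⟩, ⟨true, 3, 87, 29, 40⟩, ⟨true, 6, 447, 1, 40⟩, ⟨true, 8, 703, 13, 50⟩, ⟨true, 6, 959, 3, 50⟩, ⟨true, 8, 127, 7, 25⟩, ⟨true,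 6, 703, 3, 50⟩, ⟨true, 8, 703, 21, 50⟩, ⟨true, 7, 127, 9, 20⟩, ⟨true, 6, 1471, 1, 20⟩],
  [.spn 0 0 651200, .spn 1 1 302400, .spn 3 2 302400, .spn 7 3 302400, .spn 15 4 302400, .spn 31 5 140426, .spn 63 7 140426, .spn 191 8 140426, .spn 447 9 140426]⟩

/-- piece 199 of the tree -/
noncomputable def t199 : WN.Tree :=
(.ask 671
(.mark 959 [6, 10, 11]
(.spn
(.con 6 10)
(.ask 1471
(.mark 1983 [6, 11, 12]
(.spn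
(.lp [[6], [0, 2, 4, 7, 9, 11], [1, 3, 5, 8, 10, 12]] [(.mj 0 1, 10039), (.mj 5 7, 903), (.mj 9 10, 605), (.mj 10 6, 1739), (.rw 10, 4), (.hz 19 2751, 4167444), (.hz 17 3007, 8686049), (.hz 17 6079, 3686038)])
(.cut 6 [(0, 1), (1, 1), (2, 1), (3, 1), (5, 1), (7, 1), (11, 1), (21, 1), (15, 1), (23, 1), (31, 1), (47, 1), (63, 1), (159, 1), (303, 1), (191, 1), (319, 1), (671, 1), (447, 1), (703, 1), (959, 1)]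
(.lp [[6], [0, 2, 4, 7, 9, 11], [1, 3, 5, 8, 10, 12]] [(.mj 5 7, 5776), (.mj 9 10, 1237), (.mj 11 6, 2565), (.hz 19 703, 972116), (.hz 17 1983, 1412421), (.hz 22 5567, 2372224), (.hz 17 6079, 5464345), (.rw 11, 8)]))
(.cut 6 [(0, 1), (1, 1), (2, 1), (3, 1), (5, 1), (7, 1), (11, 1), (21, 1), (15, 1), (23, 1), (31, 1), (47, 1), (63, 1), (159, 1), (303, 1), (191, 1), (319, 1), (671, 1), (447, 1), (703, 1), (959, 1)]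
(.lp [[6], [0, 2, 4, 7, 9, 11], [1, 3, 5, 8, 10, 12]] [(.mj 0 1, 8394), (.mj 5 7, 2470), (.mj 9 10, 956), (.mj 12 6, 2088), (.mj 12 11, 107), (.rw 11, 7)]))
.fin))
(.ask 1983
(.mark 1983 [6, 11, 12]
(.spn
(.haz 12 4031 7 20
(.lp [[6], [0, 2, 4, 7, 9, 11], [1, 3, 5, 8, 10, 12]] [(.mj 5 7, 1625), (.mj 6 11, 277), (.mj 6 12, 1235), (.mj 8 9, 567), (.mj 10 6, 1896), (.rw 10, 1), (.hz 19 2751, 4988196), (.hz 17 3007, 6893984), (.hz 23 4031, 9922400)])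
(.lp [[6], [0, 2, 4, 7, 9, 11], [1, 3, 5, 8, 10, 12]] [(.mj 5 7, 4), (.mj 6 11, 4), (.mj 10 6, 5), (.hz 23 1983, 20152)]))
(.lp [[6], [0, 2, 4, 7, 9, 11], [1, 3, 5, 8, 10, 12]] [(.mj 8 9, 41), (.mj 11 6, 26), (.mj 11 12, 6), (.hz 19 703, 73872), (.hz 17 959, 22226), (.hz 19 2751, 31970), (.hz 17 1983, 23644), (.hz 17 3007, 13578), (.hz 17 6079, 86796)])
(.cut 6 [(0, 1), (1, 1), (2, 1), (3, 1), (5, 1), (7, 1), (11, 1), (21, 1), (15, 1), (23, 1), (31, 1), (47, 1), (63, 1), (159, 1), (303, 1), (191, 1), (319, 1), (671, 1), (447, 1), (703, 1), (959, 1), (1471, 1), (1983, 1)]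
(.lp [[6], [0, 2, 4, 7, 9, 11], [1, 3, 5, 8, 10, 12]] [(.mj 0 1, 2152), (.mj 5 7, 202), (.mj 12 6, 285), (.rw 11, 1)]))
.fin))
(.lp [[6], [1, 3, 5, 8, 10], [0, 2, 4, 7, 9, 11]] [(.mj 5 7, 4), (.mj 8 9, 4), (.mj 10 6, 5), (.hz 19 703, 11211), (.hz 17 959, 3309), (.hz 19 2751, 8428), (.hz 17 3007, 11358)])))
(.cut 6 [(0, 1), (1, 1), (2, 1), (3, 1), (5, 1), (7, 1), (11, 1), (21, 1), (15, 1), (23, 1), (31, 1), (47, 1), (63, 1), (159, 1), (303, 1), (191, 1), (319, 1), (447, 1)]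
(.cut 10 [(0, 1), (1, 1), (2, 1), (3, 1), (5, 1), (7, 1), (11, 1), (21, 1), (15, 1), (23, 1), (31, 1), (47, 1), (63, 1), (159, 1), (303, 1), (191, 1), (319, 1), (671, 1), (447, 1), (703, 1), (2719, 1), (2751, 1)]
(.lp [[6], [1, 3, 5, 8, 10], [0, 2, 4, 7, 9, 11]] [(.mj 8 9, 5464), (.mj 11 6, 3469), (.mj 11 10, 3286), (.hz 22 1471, 4796866), (.rw 10, 8), (.rw 11, 1)])))
.fin))
(.ask 703
(.mark 959 [6, 10, 11]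
(.spn
(.con 6 10)
(.ask 1471
(.mark 1983 [6, 11, 12]
(.spn
(.lp [[6], [0, 2, 4, 7, 9, 11], [1, 3, 5, 8, 10, 12]] [(.mj 0 1, 35924), (.mj 9 10, 725), (.mj 10 6, 4391), (.rw 10, 10), (.hz 19 2751, 6808307), (.hz 20 2751, 2013), (.hz 17 3007, 21572124), (.hz 17 6079, 8376304)])
(.cut 6 [(0, 1), (1, 1), (2, 1), (3, 1), (5, 1), (7, 1), (11, 1), (21, 1), (15, 1), (23, 1), (31, 1), (47, 1), (63, 1), (159, 1), (303, 1), (191, 1), (319, 1), (671, 1), (447, 1), (703, 1), (959, 1)]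
(.cut 6 [(0, 1), (1, 1), (2, 1), (3, 1), (5, 1), (7, 1), (11, 1), (21, 1), (15, 1), (23, 1), (31, 1), (47, 1), (63, 1), (159, 1), (303, 1), (191, 1), (319, 1), (671, 1), (447, 1), (703, 1), (959, 1), (1471, 1), (2751, 1), (1983, 1)]
(.cut 6 [(0, 1), (1, 1), (2, 1), (3, 1), (5, 1), (7, 1), (11, 1), (21, 1), (15, 1), (23, 1), (31, 1), (47, 1), (63, 1), (159, 1), (303, 1), (191, 1), (319, 1), (671, 1), (447, 1), (703, 1), (959, 1), (1471, 1), (2751, 2), (3007, 1)]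
(.cut 6 [(0, 1), (1, 1), (2, 1), (3, 1), (5, 1), (7, 1), (11, 1), (21, 1), (15, 1), (23, 1), (31, 1), (47, 1), (63, 1), (159, 1), (303, 1), (191, 1), (319, 1), (447, 1), (1471, 1)]
(.lp [[6], [0, 2, 4, 7, 9, 11], [1, 3, 5, 8, 10, 12]] [(.mj 0 1, 395801), (.mj 8 9, 17838), (.mj 9 10, 11230), (.mj 10 11, 9558), (.mj 11 6, 54517), (.hz 22 5567, 23094663), (.hz 17 6079, 110809874), (.rw 11, 64), (.rw 12, 6), (.rw 13, 1), (.rw 14, 100)])))))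
(.cut 6 [(0, 1), (1, 1), (2, 1), (3, 1), (5, 1), (7, 1), (11, 1), (21, 1), (15, 1), (23, 1), (31, 1), (47, 1), (63, 1), (159, 1), (303, 1), (191, 1), (319, 1), (447, 1), (1471, 1)]
(.cut 6 [(0, 1), (1, 1), (2, 1), (3, 1), (5, 1), (7, 1), (11, 1), (21, 1), (15, 1), (23, 1), (31, 1), (47, 1), (63, 1), (159, 1), (303, 1), (191, 1), (319, 1), (671, 1), (447, 1), (703, 1), (959, 1), (1471, 1), (2751, 1), (5567, 1)]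
(.cut 6 [(0, 1), (1, 1), (2, 1), (3, 1), (5, 1), (7, 1), (11, 1), (21, 1), (15, 1), (23, 1), (31, 1), (47, 1), (63, 1), (159, 1), (303, 1), (191, 1), (319, 1), (671, 1), (447, 1), (703, 1), (959, 1)]
(.lp [[6], [0, 2, 4, 7, 9, 11], [1, 3, 5, 8, 10, 12]] [(.mj 0 1, 185448), (.mj 8 9, 6180), (.mj 9 10, 8685), (.mj 12 6, 25235), (.mj 12 11, 3134), (.rw 11, 42), (.rw 12, 1), (.rw 13, 40)]))))
.fin))
(.ask 1983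
(.mark 1983 [6, 11, 12]
(.spn
(.haz 12 4031 13 40
(.lp [[6], [0, 2, 4, 7, 9, 11], [1, 3, 5, 8, 10, 12]] [(.mj 0 1, 7758), (.mj 6 11, 625), (.mj 6 12, 2189), (.mj 8 9, 2210), (.mj 10 6, 3602), (.rw 10, 2), (.hz 19 2751, 6644349), (.hz 17 3007, 12659022), (.hz 23 4031, 8726940)])
(.lp [[6], [0, 2, 4, 7, 9, 11], [1, 3, 5, 8, 10, 12]] [(.mj 6 11, 2), (.mj 10 6, 2), (.hz 23 1983, 3785)]))
(.cut 6 [(0, 1), (1, 1), (2, 1), (3, 1), (5, 1), (7, 1), (11, 1), (21, 1), (15, 1), (23, 1), (31, 1), (47, 1), (63, 1), (159, 1), (303, 1), (191, 1), (319, 1), (671, 1), (447, 1), (703, 1), (959, 1), (1471, 1), (2751, 1), (1983, 1), (3007, 1)]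
(.lp [[6], [0, 2, 4, 7, 9, 11], [1, 3, 5, 8, 10, 12]] [(.mj 8 9, 30251), (.mj 11 6, 17655), (.mj 11 12, 3714), (.hz 19 703, 54306459), (.hz 17 959, 16339012), (.hz 19 2751, 8826330), (.hz 17 1983, 7096707), (.hz 17 6079, 57492317), (.rw 11, 4)]))
(.cut 6 [(0, 1), (1, 1), (2, 1), (3, 1), (5, 1), (7, 1), (11, 1), (21, 1), (15, 1), (23, 1), (31, 1), (47, 1), (63, 1), (159, 1), (303, 1), (191, 1), (319, 1), (671, 1), (447, 1), (703, 1), (959, 1), (1471, 1), (1983, 1)]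
(.lp [[6], [0, 2, 4, 7, 9, 11], [1, 3, 5, 8, 10, 12]] [(.mj 0 1, 25420), (.mj 8 9, 850), (.mj 12 6, 2864), (.rw 11, 10)]))
.fin))
(.lp [[6], [1, 3, 5, 8, 10], [0, 2, 4, 7, 9, 11]] [(.mj 8 9, 3), (.mj 10 6, 5), (.mj 10 11, 3), (.hz 19 703, 5431), (.hz 19 2751, 8199), (.hz 17 3007, 27030)])))
(.cut 6 [(0, 1), (1, 1), (2, 1), (3, 1), (5, 1), (7, 1), (11, 1), (21, 1), (15, 1), (23, 1), (31, 1), (47, 1), (63, 1), (159, 1), (303, 1), (191, 1), (319, 1), (671, 1), (447, 1), (703, 1), (959, 1)]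
(.lp [[6], [1, 3, 5, 8, 10], [0, 2, 4, 7, 9, 11]] [(.mj 8 9, 580), (.mj 11 6, 350), (.mj 11 10, 350), (.rw 10, 1)]))
.fin))
(.ref 0)))

theorem run199 : run P3488 (leaf3 218 625) (cutRow P3488) [s198] t199 s199 = true := by
  decide +kernel

theorem bad199 : Bad P3488 s199 :=
  run_sound (leaf3_sound P3488 rfl rfl) (cutRow_sound P3488) (
    List.forall_mem_cons.2 ⟨bad198, fun _ h => absurd h List.not_mem_nil⟩) t199 s199 run199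

/-- the state above piece 1 of the tree -/
def s1 : St := ⟨[0, 0, 0, 1, 3], [2, 1, 0], [0, 1],
  [(3, 2)],
  [⟨true, 2, 1, 3, 50⟩, ⟨true, 1, 9, 11, 50⟩, ⟨true, 1, 4, 1, 5⟩, ⟨true, 3, 7, 1, 5⟩],
  [.spn 0 0 424061, .spn 1 1 140426]⟩

/-- piece 1 of the tree -/
noncomputable def t1 : WN.Tree :=
(.mark 3 [2, 3, 4]
(.spn
(.con 2 3)
(.haz 1 5 3 10
(.ask 9
(.mark 11 [2, 4, 5]
(.spn
(.haz 4 43 3 20
(.haz 2 19 1 10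
(.haz 4 43 1 4
(.haz 2 43 3 20
(.ask 41
(.mark 43 [2, 4, 6]
(.lp [[2], [1, 4], [0, 3, 5, 6]] [(.mj 1 3, 192), (.mj 2 4, 178), (.mj 3 2, 205), (.hz 6 19, 28799), (.hz 3 23, 15371), (.hz 8 43, 3710), (.hz 7 43, 90162), (.hz 0 105, 1807), (.hz 8 107, 7218), (.hz 7 107, 138840)]))
(.ask 43
(.mark 43 [2, 4, 6]
(.lp [[2], [1, 4], [0, 3, 5, 6]] [(.mj 1 3, 865), (.mj 2 4, 1250), (.mj 2 5, 419), (.mj 3 2, 1874), (.hz 6 19, 360461), (.hz 8 43, 7092), (.hz 7 43, 913252), (.hz 7 107, 781000)]))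
(.lp [[2], [1, 4], [0, 3, 5]] [(.mj 1 3, 2), (.mj 2 4, 3), (.mj 3 2, 5), (.hz 6 19, 963), (.hz 7 43, 321), (.hz 7 47, 567)])))
(.lp [[2], [1, 4], [0, 3, 5]] [(.mj 2 4, 3881), (.mj 2 5, 2754), (.mj 3 2, 2341), (.rw 3, 8), (.hz 8 9, 86071), (.hz 8 11, 1698016), (.hz 6 19, 539077), (.hz 7 43, 4577621)]))
(.ask 19
(.mark 27 [2, 5, 6]
(.lp [[2], [0, 3, 5], [1, 4, 6]] [(.mj 2 5, 149), (.mj 3 2, 233), (.hz 7 3, 82333), (.hz 6 19, 51328), (.hz 0 41, 1085), (.hz 5 43, 13256), (.hz 6 83, 69305)]))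
(.lp [[2], [1, 4], [0, 3, 5]] [(.mj 1 3, 22), (.mj 2 5, 9), (.mj 3 2, 17), (.hz 7 11, 13136), (.hz 0 41, 847), (.hz 5 43, 1335)])))
(.lp [[2], [1, 4], [0, 3, 5]] [(.mj 1 3, 4), (.mj 2 4, 13), (.mj 2 5, 8), (.mj 3 4, 1), (.hz 6 0, 642), (.hz 6 1, 783), (.hz 6 2, 714), (.hz 6 3, 4136), (.hz 0 19, 542), (.hz 5 43, 2819)]))
(.lp [[2], [1, 4], [0, 3, 5]] [(.mj 1 3, 12), (.mj 2 5, 6), (.mj 3 2, 11), (.hz 5 3, 756), (.hz 5 11, 831), (.hz 0 41, 451)]))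
(.ref 0)
(.haz 3 19 1 4
(.haz 3 19 2 5
(.ask 19
(.maj 2 6
(.mark 27 [2, 5, 6]
(.cut 2 [(0, 1), (1, 1), (2, 1), (3, 1), (9, 1), (11, 1), (19, 1), (27, 1)]
(.lp [[2], [0, 3, 5], [1, 4, 6]] [(.mj 1 3, 3425), (.mj 5 2, 1713), (.mj 5 4, 919), (.hz 0 19, 97807), (.hz 0 27, 14821), (.hz 0 83, 42813), (.hz 6 83, 284776), (.hz 0 91, 474627), (.rw 4, 4)])))
(.mark 27 [2, 5, 6]
(.tr 4 6 2
(.cut 4 [(0, 1), (1, 1), (2, 1), (3, 1), (9, 1), (11, 1), (41, 1)]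
(.cut 2 [(0, 1), (1, 1), (2, 1), (3, 1), (9, 1), (11, 1), (19, 1), (27, 1)]
(.lp [[2], [0, 3, 5], [1, 4, 6]] [(.mj 1 3, 8460), (.mj 5 4, 3395), (.mj 6 2, 4241), (.hz 0 41, 9136), (.hz 6 23, 4631020), (.hz 6 83, 528770), (.hz 0 59, 477126), (.rw 4, 1), (.rw 5, 13)]))))))
(.cut 2 [(0, 1), (1, 1), (2, 1), (3, 1), (9, 1), (11, 1), (19, 1)]
(.lp [[2], [1, 4], [0, 3, 5]] [(.mj 1 3, 3425), (.mj 5 2, 1713), (.mj 5 4, 919), (.hz 0 19, 97807), (.hz 0 27, 14821), (.rw 4, 4)])))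
(.lp [[2], [1, 4], [0, 3, 5]] [(.mj 0 1, 1), (.mj 5 2, 8), (.mj 5 4, 8), (.hz 6 1, 1164), (.hz 6 3, 3185), (.hz 0 9, 99), (.hz 3 7, 2973), (.hz 0 19, 790), (.hz 5 19, 3697)]))
(.lp [[2], [1, 4], [0, 3, 5]] [(.mj 5 2, 1), (.mj 5 4, 1), (.hz 5 1, 352), (.hz 4 5, 22), (.hz 0 19, 82)]))
.fin))
(.haz 1 4 1 4
(.haz 1 5 7 20
(.ask 11
(.mark 11 [2, 4, 5]
(.spn
(.haz 5 27 3 10
(.haz 1 4 7 25
(.haz 5 27 2 5
(.ask 4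
(.mark 15 [4, 5, 6]
(.lp [[1, 4], [2, 6], [0, 3, 5]] [(.mj 0 1, 94), (.mj 2 4, 1), (.mj 2 5, 16), (.mj 3 2, 24), (.hz 8 68, 7364), (.hz 0 19, 2522), (.hz 6 69, 7364), (.hz 9 27, 10037)]))
(.haz 2 3 7 50
(.ask 19
(.mark 27 [2, 5, 6]
(.lp [[2], [0, 3, 5], [1, 4, 6]] [(.mj 0 1, 3), (.mj 2 5, 4), (.mj 3 2, 8), (.hz 10 3, 187), (.hz 10 19, 171), (.hz 9 27, 1205), (.hz 10 83, 349), (.hz 9 91, 3494)]))
(.lp [[2], [1, 4], [0, 3, 5]] [(.mj 2 4, 51), (.mj 2 5, 143), (.mj 3 2, 214), (.hz 10 19, 9802), (.hz 9 27, 108582)]))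
(.lp [[2], [1, 4], [0, 3, 5]] [(.mj 0 1, 13), (.mj 2 4, 1), (.mj 2 5, 4), (.hz 10 1, 275), (.hz 8 4, 288), (.hz 0 19, 151), (.hz 9 27, 2876)])))
(.lp [[2], [1, 4], [0, 3, 5]] [(.mj 0 1, 7), (.mj 2 4, 15), (.mj 3 2, 25), (.hz 9 11, 8791), (.hz 0 19, 1645), (.hz 7 27, 2804)]))
(.lp [[2], [1, 4], [0, 3, 5]] [(.mj 1 3, 11), (.mj 2 5, 6), (.mj 3 2, 20), (.hz 8 0, 1726), (.hz 5 4, 7679), (.hz 6 5, 1097), (.hz 0 19, 816), (.hz 7 27, 1764)]))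
(.lp [[2], [1, 4], [0, 3, 5]] [(.mj 0 1, 4), (.mj 2 4, 13), (.mj 3 2, 19), (.hz 7 11, 3082), (.hz 0 19, 1221)]))
(.maj 2 5
(.cut 2 [(0, 1), (1, 1), (2, 1), (3, 1), (9, 1), (11, 1)]
(.lp [[2], [1, 4], [0, 3, 5]] [(.mj 0 1, 1872), (.mj 4 2, 562), (.hz 5 4, 116712), (.hz 6 5, 16673), (.hz 6 13, 16673), (.hz 0 43, 78006), (.rw 4, 1)]))
(.cut 2 [(0, 1), (1, 1), (2, 1), (3, 1), (9, 1), (11, 1)]
(.lp [[2], [1, 4], [0, 3, 5]] [(.mj 0 1, 257701), (.mj 4 5, 22527), (.mj 5 2, 108428), (.hz 0 19, 2172621), (.hz 0 27, 3397609), (.rw 4, 271)])))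
(.ask 43
(.mark 43 [2, 4, 6]
(.spn
(.lp [[2], [1, 4], [0, 3, 5, 6]] [(.mj 5 2, 213), (.rw 4, 1)])
(.cut 2 [(0, 1), (1, 1), (2, 1), (3, 1), (9, 1), (11, 1), (43, 1)]
(.lp [[2], [1, 4], [0, 3, 5, 6]] [(.mj 4 2, 1316), (.mj 4 6, 1316), (.mj 5 4, 2895), (.rw 4, 1), (.rw 5, 5)]))
(.maj 2 4
(.cut 2 [(0, 1), (1, 1), (2, 1), (3, 1), (9, 1), (11, 1), (43, 1)]
(.cut 4 [(0, 1), (1, 1), (2, 1), (4, 1), (3, 1), (5, 1), (6, 1), (9, 1), (7, 1), (11, 1), (13, 1), (15, 1)]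
(.lp [[2], [1, 4], [0, 3, 5, 6]] [(.mj 6 2, 1950), (.hz 0 19, 207454), (.hz 0 27, 454081), (.hz 0 59, 324093), (.rw 5, 6), (.rw 6, 1)])))
(.ask 107
(.mark 107 [2, 4, 7]
(.spn
(.con 2 4)
(.lp [[2], [1, 4], [0, 3, 5, 6, 7]] [(.mj 6 4, 1180), (.rw 5, 2)])
(.cut 2 [(0, 1), (1, 1), (2, 1), (3, 1), (9, 1), (11, 1), (19, 2), (27, 1), (43, 1), (107, 1)]
(.cut 2 [(0, 1), (1, 1), (9, 1)]
(.cut 4 [(0, 1), (1, 1), (2, 1), (3, 1), (9, 1), (11, 1), (43, 1)]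
(.lp [[2], [1, 4], [0, 3, 5, 6, 7]] [(.mj 0 1, 57592), (.rw 5, 19), (.hz 0 19, 71581), (.hz 0 27, 3124056), (.hz 0 43, 932765), (.rw 6, 22), (.rw 7, 72), (.rw 8, 75)]))))
.fin))
(.lp [[2], [1, 4], [0, 3, 5, 6]] [(.mj 6 4, 1), (.rw 4, 1)])))
.fin))
(.lp [[2], [1, 4], [0, 3, 5]] [(.mj 5 4, 1), (.rw 3, 1)]))
.fin))
(.spn
(.lp [[2], [0, 3], [1, 4]] [(.mj 2 4, 2), (.mj 3 2, 3)])
(.lp [[2], [0, 3], [1, 4]] [(.mj 0 1, 7), (.mj 4 2, 1), (.hz 5 4, 1190), (.hz 6 5, 296), (.hz 0 19, 18), (.hz 6 13, 44)])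
.fin
.fin))
(.lp [[2], [0, 3], [1, 4]] [(.mj 1 3, 1), (.mj 3 2, 1), (.hz 6 1, 123), (.hz 5 4, 78), (.hz 4 5, 183)]))
(.lp [[2], [0, 3], [1, 4]] [(.mj 1 3, 1), (.mj 3 2, 2), (.hz 5 0, 1463), (.hz 2 4, 975), (.hz 4 5, 418)])))
(.lp [[2], [0, 3], [1, 4]] [(.mj 1 3, 22), (.mj 3 2, 15), (.hz 4 1, 2336), (.hz 2 4, 645), (.hz 2 5, 3787), (.hz 0 9, 542)]))
(.haz 3 3 1 4
(.lp [[2], [0, 3], [1, 4]] [(.mj 0 1, 86074), (.mj 4 3, 20367), (.rw 2, 22), (.hz 2 4, 19769579), (.hz 4 3, 18441276), (.hz 2 5, 8744663), (.hz 0 9, 509183), (.hz 0 11, 1527549)])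
(.lp [[2], [0, 3], [1, 4]] [(.mj 0 1, 536794), (.mj 3 2, 132215), (.rw 2, 5), (.hz 4 1, 47928055), (.hz 2 4, 137173399), (.hz 2 5, 33053831), (.hz 0 19, 3305383)]))
.fin))

theorem run1 : run P3488 (leaf3 218 625) (cutRow P3488) [s0] t1 s1 = true := by
  decide +kernel

theorem bad1 : Bad P3488 s1 :=
  run_sound (leaf3_sound P3488 rfl rfl) (cutRow_sound P3488) (
    List.forall_mem_cons.2 ⟨bad0, fun _ h => absurd h List.not_mem_nil⟩) t1 s1 run1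

/-- the state above piece 185 of the tree -/
def s185 : St := ⟨[0, 0, 1, 3, 5, 15, 21, 47, 47, 127, 175, 639], [255, 127, 95, 87, 85, 63, 31, 23, 21, 15, 11, 7, 5, 3, 2, 1, 0], [0, 1, 2, 3, 4, 5, 6, 7, 9],
  [(5, 6), (4, 5)],
  [⟨true, 2, 3, 3, 10⟩, ⟨true, 1, 5, 2, 5⟩, ⟨true, 2, 3, 23, 50⟩, ⟨true, 1, 5, 12, 25⟩, ⟨true, 1, 21, 27, 50⟩, ⟨true, 4, 15, 9, 40⟩, ⟨true, 3, 23, 11, 20⟩, ⟨true, 4, 47, 7, 20⟩, ⟨true, 4, 47, 17, 40⟩, ⟨true, 4, 47, 9, 20⟩, ⟨true, 4, 47, 19, 40⟩, ⟨true, 3, 87, 27, 40⟩, ⟨true, 5, 95, 1, 4⟩, ⟨true, 7, 383, 1, 20⟩, ⟨true, 6, 191, 11, 40⟩, ⟨true, 8, 255, 3, 40⟩, ⟨true, 7, 303, 3, 40⟩, ⟨true, 6, 319, 7, 20⟩, ⟨true, 7, 319, 7, 40⟩, ⟨true, 6, 319, 17, 40⟩, ⟨true, 6, 319, 23, 50⟩, ⟨true, 9, 383, 13, 50⟩, ⟨true, 9, 1279, 8, 25⟩],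
  [.spn 0 0 651200, .spn 1 1 302400, .spn 3 2 302400, .spn 7 3 302400, .spn 15 4 302400, .spn 31 5 302400, .spn 63 6 140426, .spn 127 7 140426, .spn 255 9 140426]⟩

/-- piece 185 of the tree -/
noncomputable def t185 : WN.Tree :=
(.mark 767 [8, 10, 11]
(.spn
(.haz 7 319 13 50
(.haz 10 2815 4 25
(.haz 8 1279 3 25
(.haz 11 1791 8 25
(.haz 7 319 3 10
(.haz 8 2815 4 25
(.haz 8 1215 1 10
(.haz 10 2815 1 5
(.haz 10 2815 11 50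
(.haz 8 1279 7 50
(.maj 10 11
(.ask 2687
(.mark 2815 [8, 10, 12]
(.lp [[8], [1, 3, 5, 7, 10], [0, 2, 4, 6, 9, 11, 12]] [(.mj 4 5, 7), (.mj 7 9, 17), (.mj 8 10, 13), (.mj 9 8, 17), (.mj 10 11, 1), (.hz 27 319, 2227), (.hz 29 1215, 36973), (.hz 32 1279, 15573), (.hz 22 1279, 2806), (.hz 28 2815, 14846), (.hz 31 2815, 9988), (.hz 28 6911, 21144), (.hz 31 6911, 20625)]))
(.lp [[8], [1, 3, 5, 7, 10], [0, 2, 4, 6, 9, 11]] [(.mj 4 5, 14), (.mj 7 9, 4), (.mj 8 10, 26), (.mj 9 8, 63), (.mj 10 11, 27), (.hz 10 1199, 1152), (.hz 29 1215, 207738), (.hz 32 1279, 99318), (.hz 26 1791, 66704), (.hz 28 2815, 236267)]))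
(.lp [[8], [1, 3, 5, 7, 10], [0, 2, 4, 6, 9, 11]] [(.mj 4 5, 43), (.mj 7 9, 51), (.mj 8 11, 30), (.mj 9 8, 74), (.mj 11 10, 33), (.hz 10 1199, 839), (.hz 29 1215, 334740), (.hz 32 1279, 143625), (.hz 32 1791, 118068), (.hz 28 2815, 57545), (.hz 31 2815, 54022)]))
(.lp [[8], [1, 3, 5, 7, 10], [0, 2, 4, 6, 9, 11]] [(.mj 3 4, 615), (.mj 7 9, 2105), (.mj 8 10, 7231), (.mj 8 11, 3533), (.rw 9, 1), (.hz 32 47, 335529), (.hz 32 63, 958356), (.hz 32 175, 390150), (.hz 32 127, 1973420), (.hz 32 191, 1568030), (.hz 32 255, 14295362), (.hz 25 1279, 18051258), (.hz 31 2815, 15758867)]))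
(.lp [[8], [1, 3, 5, 7, 10], [0, 2, 4, 6, 9, 11]] [(.mj 3 4, 6), (.mj 7 9, 54), (.mj 8 11, 17), (.mj 9 8, 52), (.hz 31 175, 3643), (.hz 31 191, 12081), (.hz 31 255, 30065), (.hz 29 1215, 94776), (.hz 31 767, 40615), (.hz 25 1279, 92086), (.hz 28 2815, 101171), (.hz 30 2815, 315973)]))
(.lp [[8], [1, 3, 5, 7, 10], [0, 2, 4, 6, 9, 11]] [(.mj 3 4, 1), (.mj 7 9, 6), (.mj 8 11, 2), (.mj 9 8, 6), (.hz 30 175, 4219), (.hz 30 191, 13911), (.hz 10 431, 13), (.hz 30 255, 34278), (.hz 29 1215, 10942), (.hz 30 767, 45842), (.hz 25 1279, 10715), (.hz 28 2815, 11423), (.hz 24 2815, 7550)]))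
(.lp [[8], [1, 3, 5, 7, 10], [0, 2, 4, 6, 9, 11]] [(.mj 3 4, 15), (.mj 6 7, 10), (.mj 7 9, 7), (.mj 8 10, 7), (.mj 8 11, 4), (.hz 29 47, 5378), (.hz 29 63, 39976), (.hz 29 191, 7555), (.hz 25 1279, 20787), (.hz 28 2815, 8162), (.hz 24 2815, 33598)]))
(.lp [[8], [1, 3, 5, 7, 10], [0, 2, 4, 6, 9, 11]] [(.mj 8 10, 310), (.mj 8 11, 836), (.mj 9 8, 310), (.rw 9, 2), (.hz 28 639, 258361), (.hz 28 767, 8102047), (.hz 25 1279, 880777), (.hz 26 1791, 3849913), (.hz 15 2815, 204295)]))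
(.lp [[8], [1, 3, 5, 7, 10], [0, 2, 4, 6, 9, 11]] [(.mj 3 4, 9621), (.mj 7 9, 7285), (.mj 8 10, 1522), (.mj 8 11, 5296), (.mj 9 8, 12610), (.rw 9, 1), (.hz 27 63, 25884028), (.hz 20 319, 10335), (.hz 23 319, 4104803), (.hz 10 1199, 1823729), (.hz 25 1279, 39781108), (.hz 26 1791, 23250919), (.hz 15 2815, 3032571)]))
(.lp [[8], [1, 3, 5, 7, 10], [0, 2, 4, 6, 9, 11]] [(.mj 6 7, 4), (.mj 7 9, 3), (.mj 8 10, 113), (.mj 9 8, 213), (.hz 26 639, 116730), (.hz 26 767, 301853), (.hz 25 1279, 1162096), (.hz 24 2815, 290273)]))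
(.lp [[8], [1, 3, 5, 7, 10], [0, 2, 4, 6, 9, 11]] [(.mj 3 4, 13), (.mj 7 9, 8), (.mj 8 10, 35), (.mj 8 11, 19), (.hz 25 47, 3809), (.hz 25 63, 9694), (.hz 25 175, 4328), (.hz 25 127, 22371), (.hz 25 191, 15935), (.hz 25 255, 104019), (.hz 15 1279, 38038), (.hz 22 1279, 4578), (.hz 24 2815, 157565)]))
(.lp [[8], [1, 3, 5, 7, 10], [0, 2, 4, 6, 9, 11]] [(.mj 3 4, 2), (.mj 6 7, 1), (.mj 7 9, 13), (.mj 8 11, 6), (.mj 9 8, 13), (.hz 24 175, 1732), (.hz 24 191, 6730), (.hz 24 255, 14381), (.hz 24 767, 18372), (.hz 15 1279, 19909), (.hz 15 2815, 14909)]))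
(.lp [[8], [1, 3, 5, 7, 10], [0, 2, 4, 6, 9, 11]] [(.mj 3 4, 40141), (.mj 7 9, 3915), (.mj 8 11, 545), (.mj 9 8, 8227), (.rw 4, 21), (.rw 9, 4), (.hz 23 63, 4174413), (.hz 20 319, 1318405), (.hz 18 319, 3795688), (.hz 10 1199, 1353187), (.hz 15 1279, 19135874), (.hz 15 2815, 2636515)]))
(.ref 0)
(.haz 10 767 11 50
(.ask 2687
(.mark 2815 [8, 10, 12]
(.cut 8 [(0, 1), (1, 1), (2, 1), (3, 1), (5, 1), (7, 1), (11, 1), (21, 1), (15, 1), (23, 1), (85, 1), (31, 1), (47, 1), (87, 1), (63, 1), (95, 1), (175, 1), (127, 1), (191, 1), (255, 1), (639, 1), (767, 1)]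
(.lp [[8], [1, 3, 5, 7, 10], [0, 2, 4, 6, 9, 11, 12]] [(.mj 4 5, 101), (.mj 7 9, 2864), (.mj 11 8, 1961), (.mj 11 10, 1896), (.hz 18 383, 17164), (.hz 14 1215, 51796), (.hz 10 1455, 154572), (.hz 23 767, 711088), (.hz 15 1279, 1365891), (.hz 20 1471, 4466), (.hz 23 1023, 10652311), (.hz 15 6911, 1138487), (.rw 10, 4)])))
(.ask 2815
(.mark 2815 [8, 10, 12]
(.spn
(.lp [[8], [1, 3, 5, 7, 10], [0, 2, 4, 6, 9, 11, 12]] [(.mj 7 9, 1169), (.mj 8 10, 1192), (.mj 11 8, 1192), (.rw 10, 1), (.hz 23 767, 524343), (.hz 23 2815, 1196577), (.hz 23 6911, 1534073)])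
(.cut 8 [(0, 1), (1, 1), (2, 1), (3, 1), (5, 1), (7, 1), (11, 1), (21, 1), (15, 1), (23, 1), (85, 1), (31, 1), (47, 1), (87, 1), (63, 1), (95, 1), (175, 1), (127, 1), (191, 1), (1199, 2), (255, 1), (639, 1), (1215, 2), (767, 1), (1279, 1), (2687, 1), (1791, 1), (2815, 1)]
(.cut 8 [(0, 1), (1, 1), (2, 1), (3, 1), (5, 1), (7, 1), (11, 1), (21, 1), (15, 1), (23, 1), (85, 1), (31, 1), (47, 1), (87, 1), (63, 1), (95, 1), (175, 1), (127, 1), (191, 1), (255, 1), (639, 1), (767, 1)]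
(.lp [[8], [1, 3, 5, 7, 10], [0, 2, 4, 6, 9, 11, 12]] [(.mj 3 4, 95896), (.mj 6 7, 1195), (.mj 7 9, 13622), (.mj 10 8, 16459), (.mj 11 10, 21160), (.rw 4, 48), (.rw 10, 12), (.hz 10 303, 969790), (.hz 20 319, 3929760), (.hz 10 431, 576682), (.hz 20 447, 2813206), (.hz 10 1455, 3502426), (.hz 20 1471, 11335748), (.hz 15 1791, 72480904), (.hz 15 6911, 16378294), (.rw 11, 4), (.rw 12, 36)])))
(.lp [[8], [1, 3, 5, 7, 10], [0, 2, 4, 6, 9, 11, 12]] [(.mj 7 9, 1663), (.rw 10, 1), (.hz 15 767, 3188254), (.hz 23 767, 991492), (.hz 15 2815, 5751206), (.hz 23 2815, 2459785)])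
.fin))
(.lp [[8], [1, 3, 5, 7, 10], [0, 2, 4, 6, 9, 11]] [(.mj 11 8, 1), (.mj 11 10, 1), (.hz 15 1279, 2740), (.hz 15 1791, 4131)])))
(.cut 8 [(0, 1), (1, 1), (2, 1), (3, 1), (5, 1), (7, 1), (11, 1), (21, 1), (15, 1), (23, 1), (85, 1), (31, 1), (47, 1), (87, 1), (63, 1), (95, 1), (175, 1), (127, 1), (191, 1), (255, 1)]
(.lp [[8], [1, 3, 5, 7, 10], [0, 2, 4, 6, 9, 11]] [(.mj 3 4, 510988), (.mj 6 7, 16662), (.mj 11 8, 37500), (.mj 11 10, 601), (.rw 4, 280), (.hz 23 175, 3347499), (.hz 10 303, 3542752), (.hz 23 191, 16749123), (.hz 20 319, 19586017), (.hz 23 255, 12919941), (.hz 20 447, 8757883), (.hz 10 1455, 1996264), (.hz 23 767, 1219306), (.hz 20 1471, 4479895), (.hz 15 1791, 88288550), (.hz 15 2815, 10316873), (.rw 10, 32)])))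
.fin))

theorem run185 : run P3488 (leaf3 218 625) (cutRow P3488) [s184] t185 s185 = true := by
  decide +kernel

theorem bad185 : Bad P3488 s185 :=
  run_sound (leaf3_sound P3488 rfl rfl) (cutRow_sound P3488) (
    List.forall_mem_cons.2 ⟨bad184, fun _ h => absurd h List.not_mem_nil⟩) t185 s185 run185

end Pool.Agent.WN.Data
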