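import Pool.Agent.WN.CutRow
import Pool.Agent.WN.LeafRow
import Pool.Agent.Helper99.WN.ParDef
import Pool.Agent.WN.Data.D3
import Pool.Agent.WN.Data.D8
import Pool.Agent.WN.Data.D13
import Pool.Agent.WN.Data.D20
import Pool.Agent.WN.Data.D25
import Pool.Agent.WN.Data.D27
import Pool.Agent.WN.Data.D29
import Pool.Agent.WN.Data.D31
import Pool.Agent.WN.Data.D32

/-!
# The search tree, part 34
-/

set_option autoImplicit false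

namespace Pool.Agent.WN.Data

open Pool.Agent.W3 Pool.Agent.WN Pool.Agent.Helper99.WN

/-- the state above piece 54 of the tree -/
def s54 : St := ⟨[0, 0, 1, 1, 7, 7, 11, 31], [39, 31, 23, 15, 13, 9, 7, 5, 3, 2, 1, 0], [0, 1, 2, 3, 4, 5],
  [(3, 4)],
  [⟨true, 1, 9, 7, 50⟩, ⟨true, 2, 11, 3, 50⟩, ⟨true, 2, 9, 9, 50⟩, ⟨true, 3, 3, 1, 5⟩, ⟨true, 1, 5, 13, 50⟩, ⟨true, 2, 11, 3, 5⟩, ⟨true, 2, 9, 8, 25⟩, ⟨true, 2, 9, 17, 50⟩, ⟨true, 2, 11, 33, 50⟩, ⟨true, 4, 47, 4, 25⟩, ⟨true, 3, 39, 13, 50⟩, ⟨true, 3, 39, 3, 10⟩, ⟨true, 5, 79, 7, 50⟩, ⟨true, 3, 39, 8, 25⟩, ⟨true, 4, 79, 7, 25⟩, ⟨true, 4, 79, 2, 5⟩, ⟨true, 3, 55, 2, 5⟩, ⟨true, 6, 159, 2, 25⟩, ⟨true, 5, 79, 1, 5⟩, ⟨true, 3, 55, 23, 50⟩, ⟨true, 3, 55, 1, 2⟩, ⟨true, 2, 75, 18, 25⟩, ⟨true, 3, 55, 13, 25⟩],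
  [.spn 0 0 651200, .spn 1 1 140426, .spn 3 2 302400, .spn 7 3 62723, .spn 15 4 140426, .spn 31 5 62723]⟩

/-- piece 54 of the tree -/
noncomputable def t54 : WN.Tree :=
(.haz 2 75 19 25
(.haz 7 63 4 25
(.ask 47
(.mark 63 [6, 7, 8]
(.spn
(.lp [[3, 6], [1, 5, 8], [0, 2, 4, 7]] [(.mj 2 3, 22), (.mj 4 5, 4), (.mj 6 7, 3), (.mj 6 8, 2)])
(.ask 159
(.mark 191 [6, 8, 9]
(.lp [[3, 6], [1, 5, 8], [0, 2, 4, 7, 9]] [(.mj 1 2, 42), (.mj 2 3, 13), (.mj 4 5, 1), (.hz 23 75, 645), (.hz 15 79, 577), (.hz 18 79, 1414), (.hz 17 159, 125), (.hz 17 671, 136)]))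
(.ask 191
(.mark 191 [6, 8, 9]
(.spn
(.lp [[3, 6], [1, 5, 8], [0, 2, 4, 7, 9]] [(.mj 1 2, 26129), (.mj 2 3, 15967), (.mj 4 5, 3350), (.mj 6 9, 472), (.rw 7, 1)])
(.lp [[3, 6], [1, 5, 8], [0, 2, 4, 7, 9]] [(.mj 1 2, 53), (.mj 2 3, 35), (.mj 4 5, 10), (.mj 8 9, 1), (.hz 18 79, 24941), (.hz 17 703, 3873)])
(.ask 75
(.mark 255 [8, 9, 10]
(.cut 8 [(0, 1), (1, 1), (2, 1), (3, 1), (5, 1), (9, 1), (7, 1), (11, 1), (13, 1), (15, 1), (23, 1), (39, 1), (75, 1), (31, 1), (55, 1), (79, 1), (1099, 1), (95, 1), (159, 1), (1103, 1), (223, 1), (1119, 1), (1247, 1)]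
(.cut 6 [(0, 1), (1, 1), (2, 1), (3, 1), (5, 1), (9, 1), (7, 1), (11, 1), (13, 1), (15, 1), (23, 1), (39, 1), (31, 1), (47, 1), (55, 1), (63, 1), (159, 1), (191, 1)]
(.lp [[1, 5, 8], [3, 6, 10], [0, 2, 4, 7, 9]] [(.mj 1 2, 228379), (.mj 2 3, 90919), (.mj 4 5, 21011), (.hz 23 1099, 3258252), (.hz 18 1103, 107535964), (.hz 18 1119, 95151218), (.hz 17 447, 6216986), (.hz 18 1247, 118458024), (.rw 8, 4), (.rw 9, 8)]))))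
(.lp [[3, 6], [1, 5, 8], [0, 2, 4, 7, 9]] [(.mj 1 2, 50), (.mj 2 3, 12), (.hz 15 79, 1200), (.hz 18 79, 104), (.hz 17 159, 261)]))
.fin))
(.lp [[3, 6], [1, 5, 8], [0, 2, 4, 7]] [(.mj 2 3, 27), (.mj 4 5, 7), (.mj 5 7, 1), (.mj 7 8, 3)])))
(.lp [[3, 6], [1, 5, 8], [0, 2, 4, 7]] [(.mj 1 2, 23), (.mj 2 3, 15), (.mj 4 5, 3), (.mj 8 7, 1)])
.fin))
(.haz 4 79 12 25
(.ask 55
(.mark 63 [6, 7, 8]
(.spn
(.haz 8 191 8 25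
(.haz 7 63 17 50
(.lp [[3, 6], [1, 5, 8], [0, 2, 4, 7]] [(.mj 2 3, 206), (.mj 4 5, 34), (.mj 6 7, 28), (.mj 6 8, 27), (.hz 27 63, 492), (.hz 22 311, 17059), (.hz 27 319, 24969)])
(.haz 8 191 19 50
(.ask 75
(.mark 95 [5, 7, 9]
(.lp [[1, 5, 8], [3, 6, 9], [0, 2, 4, 7]] [(.mj 2 3, 35), (.mj 4 5, 88), (.mj 5 6, 44), (.mj 6 7, 9), (.mj 6 8, 27), (.hz 27 31, 10333), (.hz 18 591, 65890), (.hz 28 191, 16917), (.hz 18 607, 253779)]))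
(.ask 79
(.mark 95 [5, 7, 9]
(.lp [[1, 5, 8], [3, 6, 9], [0, 2, 4, 7]] [(.mj 2 3, 35), (.mj 4 5, 88), (.mj 5 6, 44), (.mj 6 7, 9), (.mj 6 8, 27), (.hz 27 31, 10333), (.hz 18 591, 323605), (.hz 28 191, 16917), (.hz 18 607, 11511)]))
(.ask 95
(.mark 127 [7, 8, 9]
(.spn
(.haz 8 127 17 50
(.lp [[1, 5, 8], [3, 6, 9], [0, 2, 4, 7]] [(.mj 2 3, 78), (.mj 5 6, 3), (.mj 6 7, 14), (.mj 7 8, 27), (.hz 27 31, 79), (.hz 22 311, 4564), (.hz 29 127, 24600), (.hz 28 191, 6053), (.hz 18 607, 18435), (.hz 29 639, 5422)])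
(.lp [[1, 5, 8], [3, 6, 9], [0, 2, 4, 7]] [(.mj 2 3, 14), (.mj 4 5, 4), (.mj 6 7, 2), (.hz 27 31, 3), (.hz 29 55, 607), (.hz 29 63, 984), (.hz 28 191, 818)]))
(.ask 159
(.mark 191 [6, 8, 10]
(.lp [[1, 5, 8], [3, 6, 9], [0, 2, 4, 7, 10]] [(.mj 2 3, 147), (.mj 4 5, 29), (.mj 6 8, 23), (.mj 8 7, 5), (.hz 27 31, 2574), (.hz 22 55, 9792), (.hz 28 191, 3430), (.hz 24 319, 4595), (.hz 18 607, 13036), (.hz 17 1183, 2023), (.hz 24 639, 16295), (.hz 28 1215, 14318)]))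
(.lp [[1, 5, 8], [3, 6, 9], [0, 2, 4, 7]] [(.mj 2 3, 14), (.mj 4 5, 22), (.mj 5 6, 16), (.mj 6 8, 12), (.mj 8 7, 1), (.hz 27 63, 3959), (.hz 28 191, 5401), (.hz 18 223, 3834)]))
(.lp [[1, 5, 8], [3, 6, 9], [0, 2, 4, 7]] [(.mj 2 3, 21), (.mj 4 5, 1), (.mj 9 7, 2), (.mj 9 8, 5), (.hz 27 31, 201), (.hz 22 55, 1379), (.hz 24 127, 14812), (.hz 28 191, 3131), (.hz 28 255, 15353), (.hz 24 639, 4071), (.hz 28 767, 4187)])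
.fin))
(.lp [[3, 6], [1, 5, 8], [0, 2, 4, 7]] [(.mj 2 3, 35), (.mj 4 5, 88), (.mj 5 6, 44), (.mj 6 7, 9), (.mj 6 8, 27), (.hz 27 31, 10333), (.hz 28 191, 16917)]))))
(.lp [[3, 6], [1, 5, 8], [0, 2, 4, 7]] [(.mj 2 3, 29), (.mj 4 5, 8), (.mj 6 7, 4), (.hz 28 55, 1292), (.hz 27 63, 270), (.hz 28 63, 2222), (.hz 26 191, 3413)])))
(.lp [[3, 6], [1, 5, 8], [0, 2, 4, 7]] [(.mj 2 3, 23), (.mj 4 5, 5), (.mj 6 7, 4), (.hz 26 55, 1925), (.hz 26 63, 2411), (.hz 17 159, 228), (.hz 24 319, 3290)]))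
(.haz 6 31 9 50
(.lp [[3, 6], [1, 5, 8], [0, 2, 4, 7]] [(.mj 2 3, 10), (.mj 5 7, 1), (.mj 7 6, 22), (.hz 26 31, 5155), (.hz 26 63, 11925), (.hz 26 159, 253), (.hz 22 311, 3365), (.hz 26 319, 9347)])
(.haz 6 319 2 25
(.haz 6 319 1 10
(.haz 3 311 27 50
(.haz 7 319 3 10
(.haz 7 319 19 50
(.haz 4 79 13 25
(.haz 7 95 17 50
(.ask 159
(.ref 0)
(.ask 191
(.mark 191 [6, 8, 9]
(.spn
(.ask 75
(.mark 255 [8, 9, 10]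
(.lp [[1, 5, 8], [3, 6, 10], [0, 2, 4, 7, 9]] [(.mj 2 3, 13890), (.mj 4 5, 13755), (.mj 6 9, 549), (.rw 7, 1), (.hz 18 1103, 68045901), (.hz 29 311, 400425), (.hz 28 319, 14408279), (.hz 18 1119, 40358983)]))
(.haz 8 191 11 40
(.lp [[3, 6], [1, 5, 8], [0, 2, 4, 7, 9]] [(.mj 4 5, 1), (.mj 6 8, 4), (.mj 6 9, 2), (.mj 7 6, 4), (.hz 26 31, 879), (.hz 34 255, 3828), (.hz 34 703, 4784)])
(.haz 9 447 3 8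
(.ask 79
(.mark 255 [8, 9, 10]
(.lp [[1, 5, 8], [3, 6, 10], [0, 2, 4, 7, 9]] [(.mj 2 3, 4), (.mj 4 5, 20), (.mj 6 9, 4), (.hz 26 31, 2983), (.hz 18 1103, 62521), (.hz 34 191, 447), (.hz 28 319, 18108), (.hz 18 1119, 48527), (.hz 35 447, 22763)]))
(.haz 9 447 1 2
(.lp [[3, 6], [1, 5, 8], [0, 2, 4, 7, 9]] [(.mj 4 5, 57), (.mj 6 8, 1), (.mj 6 9, 23), (.hz 26 31, 18275), (.hz 34 63, 2987), (.hz 28 319, 55539), (.hz 36 447, 531652)])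
(.lp [[3, 6], [1, 5, 8], [0, 2, 4, 7, 9]] [(.mj 4 5, 11), (.hz 26 31, 2475), (.hz 34 191, 3042), (.hz 36 191, 76048), (.hz 28 319, 18250)])))
(.lp [[3, 6], [1, 5, 8], [0, 2, 4, 7, 9]] [(.mj 4 5, 3), (.mj 7 6, 2), (.hz 26 31, 333), (.hz 34 55, 43), (.hz 34 191, 1628), (.hz 35 191, 8138), (.hz 28 319, 9161)]))))
(.ask 75
(.mark 255 [8, 9, 10]
(.lp [[1, 5, 8], [3, 6, 10], [0, 2, 4, 7, 9]] [(.mj 4 5, 25), (.mj 8 6, 4), (.mj 8 9, 1), (.hz 18 79, 88721), (.hz 23 1099, 683), (.hz 18 1103, 33528), (.hz 18 1119, 2830), (.hz 17 703, 6601)]))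
(.lp [[3, 6], [1, 5, 8], [0, 2, 4, 7, 9]] [(.mj 1 2, 1929), (.mj 4 5, 438), (.mj 8 6, 194), (.mj 8 9, 5), (.hz 18 79, 1205414), (.hz 29 311, 4626), (.hz 28 319, 400626), (.hz 28 447, 723249), (.hz 17 703, 496300)]))
(.ask 703
(.mark 703 [6, 8, 10]
(.spn
(.lp [[3, 6], [1, 5, 8], [0, 2, 4, 7, 9, 10]] [(.mj 9 6, 268), (.rw 8, 1)])
(.lp [[3, 6], [1, 5, 8], [0, 2, 4, 7, 9, 10]] [(.mj 9 8, 631), (.rw 8, 1), (.hz 28 319, 4648410), (.hz 28 447, 10032575)])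
(.ask 75
(.mark 79 [4, 5, 11]
(.lp [[1, 5, 8], [3, 6, 11], [0, 2, 4, 7, 9, 10]] [(.mj 1 2, 101), (.mj 4 5, 11), (.mj 10 6, 12), (.hz 23 2123, 3101), (.hz 32 2127, 3966), (.hz 18 2127, 51870), (.hz 29 311, 588), (.hz 17 191, 27017), (.hz 28 319, 61219), (.hz 18 2143, 70946), (.hz 33 2143, 980), (.hz 28 447, 23625), (.hz 17 703, 11813)]))
(.lp [[3, 6], [1, 5, 8], [0, 2, 4, 7, 9, 10]] [(.mj 1 2, 275), (.mj 4 5, 19), (.mj 10 6, 19), (.hz 32 79, 3420), (.hz 18 79, 63586), (.hz 33 95, 1276), (.hz 29 311, 1144), (.hz 17 191, 28241), (.hz 28 319, 68438), (.hz 31 319, 963), (.hz 28 447, 84058), (.hz 17 703, 17964)]))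
.fin))
(.lp [[3, 6], [1, 5, 8], [0, 2, 4, 7, 9]] [(.mj 9 8, 1), (.rw 7, 1)]))
.fin))
(.lp [[3, 6], [1, 5, 8], [0, 2, 4, 7]] [(.mj 4 5, 403), (.mj 7 8, 49), (.hz 26 11, 6656), (.hz 23 75, 1202), (.hz 26 31, 71519), (.hz 18 79, 878610), (.hz 28 319, 578974)])))
(.lp [[3, 6], [1, 5, 8], [0, 2, 4, 7]] [(.mj 2 3, 1210), (.mj 4 5, 7146), (.hz 23 75, 168258), (.hz 26 31, 741106), (.hz 33 31, 786542), (.hz 18 79, 15755605), (.hz 17 159, 98774)]))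
(.lp [[3, 6], [1, 5, 8], [0, 2, 4, 7]] [(.mj 2 3, 8), (.mj 4 5, 20), (.hz 26 11, 91), (.hz 32 15, 5494), (.hz 26 15, 1823), (.hz 18 79, 27468)]))
(.lp [[3, 6], [1, 5, 8], [0, 2, 4, 7]] [(.mj 4 5, 12), (.mj 7 6, 17), (.mj 7 8, 18), (.hz 26 31, 2002), (.hz 31 31, 4320), (.hz 31 63, 9279), (.hz 28 319, 117671)]))
(.lp [[3, 6], [1, 5, 8], [0, 2, 4, 7]] [(.mj 4 5, 2), (.mj 7 6, 4), (.mj 7 8, 4), (.hz 26 31, 305), (.hz 30 31, 4173), (.hz 30 63, 9391), (.hz 28 319, 25051)]))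
(.lp [[3, 6], [1, 5, 8], [0, 2, 4, 7]] [(.mj 4 5, 13), (.mj 7 8, 3), (.hz 26 11, 258), (.hz 26 15, 89), (.hz 29 23, 1822), (.hz 18 79, 26899), (.hz 22 311, 2682), (.hz 28 319, 13715)]))
(.lp [[3, 6], [1, 5, 8], [0, 2, 4, 7]] [(.mj 1 2, 503), (.mj 4 5, 4), (.mj 7 8, 2), (.hz 28 11, 35451), (.hz 23 75, 757), (.hz 22 311, 1753), (.hz 17 191, 1973), (.hz 27 319, 5712)]))
(.lp [[3, 6], [1, 5, 8], [0, 2, 4, 7]] [(.mj 1 2, 76), (.mj 3 4, 2), (.hz 27 11, 2216), (.hz 23 75, 20), (.hz 17 191, 119)])))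
(.haz 7 63 7 25
(.haz 6 63 7 50
(.lp [[3, 6], [1, 5, 8], [0, 2, 4, 7]] [(.mj 4 5, 12), (.mj 8 6, 12), (.mj 8 7, 10), (.hz 22 55, 1728), (.hz 27 63, 7372), (.hz 26 63, 10566), (.hz 17 159, 8429), (.hz 27 191, 14237)])
(.lp [[3, 6], [1, 5, 8], [0, 2, 4, 7]] [(.mj 4 5, 12), (.mj 8 7, 8), (.hz 27 11, 319), (.hz 27 15, 398), (.hz 27 31, 1285), (.hz 18 79, 21643), (.hz 22 55, 393), (.hz 26 63, 6800), (.hz 17 159, 4431), (.hz 17 191, 14502)]))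
(.lp [[3, 6], [1, 5, 8], [0, 2, 4, 7]] [(.mj 4 5, 38), (.mj 8 6, 10), (.hz 23 75, 686), (.hz 26 31, 6138), (.hz 18 79, 104888), (.hz 18 95, 37849), (.hz 17 159, 2724), (.hz 24 127, 5867), (.hz 17 191, 3791)]))
.fin))
(.haz 6 47 1 10
(.haz 6 15 3 25
(.lp [[1, 5], [3, 6], [0, 2, 4, 7]] [(.mj 1 2, 56), (.mj 2 3, 33), (.mj 4 5, 5), (.hz 27 15, 1059), (.hz 27 47, 3113)])
(.lp [[1, 5], [3, 6], [0, 2, 4, 7]] [(.mj 1 2, 6898), (.mj 4 5, 45), (.hz 27 11, 198472), (.hz 23 75, 9182), (.hz 26 47, 68244)]))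
(.lp [[1, 5], [3, 6], [0, 2, 4, 7]] [(.mj 1 2, 127), (.mj 4 5, 1), (.hz 26 11, 8686), (.hz 23 75, 315), (.hz 18 79, 3044)])))
(.lp [[1, 5], [3, 6], [0, 2, 4, 7]] [(.mj 2 3, 28), (.mj 4 5, 20), (.hz 25 15, 3559), (.hz 18 79, 37260), (.hz 22 55, 1947)])))
(.lp [[1, 5], [3, 6], [0, 2, 4, 7]] [(.mj 2 3, 11), (.mj 4 5, 38), (.mj 5 6, 10), (.hz 24 31, 5229), (.hz 18 79, 95832), (.hz 22 55, 462), (.hz 17 159, 2702)]))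
(.lp [[1, 5], [3, 6], [0, 2, 4, 7]] [(.mj 2 3, 35), (.mj 4 5, 11), (.hz 23 11, 4164), (.hz 21 75, 2460), (.hz 18 79, 30890), (.hz 22 55, 3089)]))

theorem run54 : run P3488 (leaf3 218 625) (cutRow P3488) [s53] t54 s54 = true := by
  decide +kernel

theorem bad54 : Bad P3488 s54 :=
  run_sound (leaf3_sound P3488 rfl rfl) (cutRow_sound P3488) (
    List.forall_mem_cons.2 ⟨bad53, fun _ h => absurd h List.not_mem_nil⟩) t54 s54 run54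

/-- the state above piece 88 of the tree -/
def s88 : St := ⟨[0, 0, 1, 3, 5, 5, 11, 23], [31, 21, 15, 7, 3, 2, 1, 0], [0, 1, 2, 3, 4, 6],
  [],
  [⟨true, 2, 3, 3, 10⟩, ⟨true, 1, 5, 2, 5⟩, ⟨true, 2, 3, 23, 50⟩, ⟨true, 1, 5, 12, 25⟩, ⟨true, 2, 11, 12, 25⟩, ⟨true, 4, 79, 11, 50⟩, ⟨true, 5, 31, 1, 50⟩, ⟨true, 3, 39, 7, 25⟩, ⟨true, 5, 31, 1, 25⟩, ⟨false, 5, 23, 3, 25⟩, ⟨true, 4, 39, 13, 50⟩, ⟨true, 6, 47, 13, 50⟩],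
  [.spn 0 0 651200, .spn 1 1 302400, .spn 3 2 302400, .spn 7 3 140426, .spn 15 4 140426, .spn 31 6 140426]⟩

/-- piece 88 of the tree -/
noncomputable def t88 : WN.Tree :=
(.haz 6 47 3 10
(.ask 75
(.mark 95 [5, 7, 8]
(.spn
(.ask 37
(.mark 127 [7, 8, 9]
(.lp [[5, 9], [0, 2, 4, 7], [1, 3, 6, 8]] [(.mj 3 4, 3361), (.mj 4 6, 2726), (.mj 5 7, 273), (.rw 6, 1), (.hz 9 7, 179567), (.hz 3 549, 111711), (.hz 10 551, 501566), (.hz 8 159, 16008), (.hz 12 559, 2112382)]))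
(.ask 53
(.mark 127 [7, 8, 9]
(.lp [[5, 9], [0, 2, 4, 7], [1, 3, 6, 8]] [(.mj 3 4, 17), (.mj 4 6, 13), (.mj 5 7, 1), (.hz 9 21, 479)]))
(.ask 39
(.mark 127 [7, 8, 9]
(.lp [[5, 9], [0, 2, 4, 7], [1, 3, 6, 8]] [(.mj 3 4, 4562), (.mj 4 6, 3700), (.mj 5 7, 369), (.rw 6, 1), (.hz 9 7, 231139), (.hz 10 551, 172604), (.hz 12 559, 4002786)]))
(.ask 55
(.mark 127 [7, 8, 9]
(.lp [[5, 9], [0, 2, 4, 7], [1, 3, 6, 8]] [(.mj 3 4, 67), (.mj 4 6, 52), (.mj 5 7, 5), (.hz 9 23, 3876)]))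
(.haz 7 95 8 25
(.lp [[5], [0, 2, 4, 7], [1, 3, 6, 8]] [(.mj 3 4, 11), (.mj 4 6, 35), (.mj 5 7, 39), (.hz 9 7, 8972), (.hz 9 23, 7607), (.hz 13 95, 7784), (.hz 13 127, 8757), (.hz 13 351, 24324)])
(.ask 47
(.mark 127 [7, 8, 9]
(.lp [[5, 9], [0, 2, 4, 7], [1, 3, 6, 8]] [(.mj 3 4, 1103), (.mj 4 6, 1317), (.rw 6, 1), (.hz 9 7, 117686), (.hz 9 23, 170529), (.hz 13 31, 159923), (.hz 13 95, 111856), (.hz 12 559, 674033)]))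
(.ask 151
(.mark 223 [5, 8, 9]
(.lp [[5], [1, 3, 6, 8], [0, 2, 4, 7, 9]] [(.mj 3 4, 73), (.mj 4 6, 51), (.mj 5 7, 2), (.mj 5 8, 2), (.hz 9 23, 7678), (.hz 8 159, 12898), (.hz 8 351, 4377), (.hz 8 671, 22798)]))
(.lp [[5], [0, 2, 4, 7], [1, 3, 6, 8]] [(.mj 4 6, 6436), (.rw 6, 1), (.hz 9 23, 2846953), (.hz 13 31, 1969603), (.hz 13 95, 1061442), (.hz 8 159, 1396979), (.hz 8 351, 2653604)]))))))))
(.ref 0)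
(.haz 7 95 13 50
(.lp [[5], [0, 2, 4, 7], [1, 3, 6, 8]] [(.mj 3 4, 6), (.mj 4 6, 49), (.mj 8 5, 5), (.mj 8 7, 37), (.hz 9 5, 828), (.hz 9 7, 2598), (.hz 9 21, 614), (.hz 9 23, 2669), (.hz 12 47, 35374), (.hz 12 63, 59265), (.hz 13 95, 5868), (.hz 13 127, 47979), (.hz 8 351, 2954)])
(.lp [[5], [0, 2, 4, 7], [1, 3, 6, 8]] [(.mj 4 6, 10), (.mj 8 5, 3), (.hz 9 5, 50), (.hz 9 7, 155), (.hz 9 21, 56), (.hz 9 23, 459), (.hz 13 23, 369), (.hz 13 31, 868), (.hz 12 47, 11630), (.hz 13 95, 602), (.hz 8 159, 1190), (.hz 8 351, 1238)]))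
.fin))
(.haz 6 159 3 10
(.ask 79
(.mark 95 [5, 7, 8]
(.spn
(.ask 37
(.mark 127 [7, 8, 9]
(.lp [[5, 9], [0, 2, 4, 7], [1, 3, 6, 8]] [(.mj 3 4, 13089), (.mj 4 6, 10871), (.mj 5 7, 992), (.rw 6, 4), (.hz 9 7, 675604), (.hz 3 549, 433815), (.hz 10 551, 1924057), (.hz 13 159, 83194), (.hz 12 559, 8602673)]))
(.ask 53
(.mark 127 [7, 8, 9]
(.lp [[5, 9], [0, 2, 4, 7], [1, 3, 6, 8]] [(.mj 3 4, 39), (.mj 4 6, 30), (.mj 5 7, 2), (.hz 9 21, 1045)]))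
(.ask 39
(.mark 127 [7, 8, 9]
(.lp [[5, 9], [0, 2, 4, 7], [1, 3, 6, 8]] [(.mj 3 4, 3655), (.mj 4 6, 2987), (.mj 5 7, 249), (.rw 6, 1), (.hz 9 7, 167001), (.hz 10 551, 416051), (.hz 13 159, 4524), (.hz 12 559, 2182746)]))
(.ask 55
(.mark 127 [7, 8, 9]
(.lp [[5, 9], [0, 2, 4, 7], [1, 3, 6, 8]] [(.mj 3 4, 10692), (.mj 4 6, 8352), (.mj 5 7, 669), (.rw 6, 1), (.hz 9 23, 576593)]))
(.haz 7 351 3 25
(.haz 7 95 13 50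
(.lp [[5], [0, 2, 4, 7], [1, 3, 6, 8]] [(.mj 3 4, 11), (.mj 4 6, 24), (.mj 5 7, 26), (.mj 5 8, 4), (.hz 9 7, 6797), (.hz 9 23, 4650), (.hz 15 95, 1215), (.hz 13 159, 3905), (.hz 15 127, 3129), (.hz 8 351, 4673), (.hz 15 351, 8795)])
(.lp [[5], [0, 2, 4, 7], [1, 3, 6, 8]] [(.mj 4 6, 40), (.mj 5 8, 13), (.hz 9 7, 5560), (.hz 9 23, 16028), (.hz 15 23, 3019), (.hz 15 31, 5791), (.hz 15 95, 6067), (.hz 8 159, 12065), (.hz 8 351, 17428), (.hz 14 351, 9148)]))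
(.lp [[5], [0, 2, 4, 7], [1, 3, 6, 8]] [(.mj 4 6, 2), (.mj 5 8, 1), (.hz 9 7, 460), (.hz 9 23, 878), (.hz 14 23, 359), (.hz 14 31, 691), (.hz 14 95, 664)]))))))
(.ref 1)
(.maj 5 7
(.cut 5 [(0, 1), (1, 1), (2, 1), (3, 1), (5, 1), (7, 1), (11, 1), (21, 1), (15, 1), (23, 1), (75, 1), (31, 1), (79, 1), (95, 1)]
(.lp [[5], [0, 2, 4, 7], [1, 3, 6, 8]] [(.mj 3 4, 411), (.mj 4 6, 989), (.mj 8 5, 533), (.mj 8 7, 268), (.hz 9 5, 3871), (.hz 10 39, 49685), (.hz 10 47, 4504), (.hz 8 159, 481503), (.hz 13 159, 261364), (.hz 8 223, 1318273), (.rw 7, 1)]))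
(.cut 5 [(0, 1), (1, 1), (2, 1), (3, 1), (5, 1), (7, 1), (11, 1), (21, 1), (15, 1), (23, 1), (75, 1), (31, 1), (79, 1), (95, 1)]
(.lp [[5], [0, 2, 4, 7], [1, 3, 6, 8]] [(.mj 3 4, 3783), (.mj 4 6, 13730), (.mj 7 5, 5041), (.mj 8 7, 5635), (.hz 9 5, 101476), (.hz 9 7, 318266), (.hz 9 23, 149699), (.hz 12 47, 4140539), (.hz 13 159, 3521734), (.hz 7 183, 508811), (.hz 12 191, 10884900), (.rw 7, 13)])))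
.fin))
(.ask 95
(.mark 95 [5, 7, 8]
(.spn
(.haz 4 47 2 5
(.haz 8 223 7 20
(.haz 5 159 1 10
(.haz 8 223 9 20
(.ask 37
(.mark 127 [7, 8, 9]
(.lp [[5, 9], [0, 2, 4, 7], [1, 3, 6, 8]] [(.mj 3 4, 27), (.mj 5 7, 2), (.mj 5 8, 15), (.hz 9 7, 5278), (.hz 9 23, 4411), (.hz 3 549, 807), (.hz 16 159, 49256), (.hz 17 223, 14352)]))
(.haz 7 95 1 4
(.lp [[5], [0, 2, 4, 7], [1, 3, 6, 8]] [(.mj 3 4, 7), (.mj 5 7, 19), (.mj 5 8, 10), (.hz 9 7, 7910), (.hz 9 21, 350), (.hz 9 23, 1321), (.hz 18 127, 67299), (.hz 18 351, 90239)])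
(.lp [[5], [0, 2, 4, 7], [1, 3, 6, 8]] [(.mj 3 4, 46), (.mj 5 7, 6), (.mj 5 8, 45), (.hz 9 7, 21245), (.hz 18 23, 6207), (.hz 18 31, 28166), (.hz 16 159, 92420), (.hz 17 223, 43613)])))
(.lp [[5], [0, 2, 4, 7], [1, 3, 6, 8]] [(.mj 3 4, 1), (.mj 5 7, 9), (.hz 9 5, 104), (.hz 9 7, 4873), (.hz 9 21, 77), (.hz 17 95, 7295), (.hz 16 159, 20494), (.hz 15 223, 4566)]))
(.lp [[5], [0, 2, 4, 7], [1, 3, 6, 8]] [(.mj 3 4, 13), (.mj 5 7, 2), (.mj 5 8, 8), (.hz 16 5, 597), (.hz 16 7, 1858), (.hz 16 15, 9411), (.hz 8 159, 5523), (.hz 15 223, 8384)]))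
(.lp [[5], [0, 2, 4, 7], [1, 3, 6, 8]] [(.mj 5 7, 28), (.hz 9 5, 279), (.hz 9 7, 11947), (.hz 9 21, 317), (.hz 15 95, 16152), (.hz 8 159, 18440)]))
(.lp [[5], [0, 2, 4, 7], [1, 3, 6, 8]] [(.mj 3 4, 10), (.mj 4 6, 7), (.mj 5 8, 2), (.hz 9 5, 196), (.hz 9 7, 2300), (.hz 14 15, 16296), (.hz 10 39, 1897)]))
(.haz 5 31 1 10
(.lp [[5], [0, 2, 4, 7], [1, 3, 6, 8]] [(.mj 3 4, 1490), (.mj 7 5, 885), (.mj 7 8, 161), (.hz 14 31, 1448380), (.hz 14 95, 574754), (.hz 14 159, 1392393), (.hz 14 351, 1489095)])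
(.ask 37
(.mark 127 [7, 8, 9]
(.cut 5 [(0, 1), (1, 1), (2, 1), (3, 1), (5, 1), (7, 1), (11, 1), (21, 1), (15, 1), (23, 1), (75, 1), (31, 1), (79, 1), (95, 1)]
(.lp [[5, 9], [0, 2, 4, 7], [1, 3, 6, 8]] [(.mj 3 4, 3288), (.mj 7 8, 558), (.hz 14 15, 667638), (.hz 3 549, 65106), (.hz 10 551, 617885), (.hz 10 559, 377096), (.hz 8 351, 39297), (.rw 7, 1)])))
(.ask 39
(.mark 127 [7, 8, 9]
(.cut 5 [(0, 1), (1, 1), (2, 1), (3, 1), (5, 1), (7, 1), (11, 1), (21, 1), (15, 1), (23, 1), (75, 1), (31, 1), (79, 1), (95, 1)]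
(.lp [[5, 9], [0, 2, 4, 7], [1, 3, 6, 8]] [(.mj 3 4, 3323), (.mj 7 8, 564), (.hz 14 15, 680149), (.hz 10 551, 487286), (.hz 10 559, 383429), (.hz 8 351, 40346), (.rw 7, 1)])))
(.haz 5 95 1 10
(.lp [[5], [0, 2, 4, 7], [1, 3, 6, 8]] [(.mj 3 4, 6), (.mj 7 8, 1), (.hz 14 15, 3276), (.hz 15 95, 2116), (.hz 15 223, 7577), (.hz 15 351, 4027)])
(.cut 5 [(0, 1), (1, 1), (2, 1), (3, 1), (5, 1), (7, 1), (11, 1), (15, 1), (75, 1), (79, 1)]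
(.cut 5 [(0, 1), (1, 1), (2, 1), (3, 1), (5, 1), (7, 1), (11, 1), (21, 1), (15, 1), (23, 1), (75, 1), (31, 1), (79, 1), (95, 1)]
(.lp [[5], [0, 2, 4, 7], [1, 3, 6, 8]] [(.mj 3 4, 14990), (.mj 7 8, 2633), (.hz 14 15, 3418366), (.hz 15 79, 3038547), (.hz 8 351, 766926), (.rw 7, 2), (.rw 8, 5)])))))))
(.ask 351
(.mark 351 [5, 7, 9]
(.spn
(.lp [[5], [0, 2, 4, 7], [1, 3, 6, 8, 9]] [(.mj 8 5, 256), (.rw 7, 1)])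
(.cut 5 [(0, 1), (1, 1), (2, 1), (3, 1), (5, 1), (7, 1), (11, 1), (21, 1), (15, 1), (23, 1), (75, 1), (31, 1), (79, 1), (95, 1), (351, 1)]
(.lp [[5], [0, 2, 4, 7], [1, 3, 6, 8, 9]] [(.mj 7 5, 1491), (.mj 7 9, 1491), (.mj 8 7, 3156), (.rw 7, 1), (.rw 8, 5)]))
(.ask 863
(.mark 863 [5, 7, 10]
(.spn
(.lp [[5], [0, 2, 4, 7], [1, 3, 6, 8, 9, 10]] [(.mj 9 5, 143), (.rw 8, 1)])
(.lp [[5], [0, 2, 4, 7], [1, 3, 6, 8, 9, 10]] [(.mj 9 7, 2216), (.rw 8, 4)])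
(.maj 5 7
(.cut 5 [(0, 1), (1, 1), (2, 1), (3, 1), (5, 1), (7, 1), (11, 1), (21, 1), (15, 1), (23, 1), (75, 1), (31, 1), (79, 1), (95, 1)]
(.cut 5 [(0, 1), (1, 1), (2, 1), (3, 1), (5, 1), (7, 1), (11, 1), (21, 1), (15, 1), (23, 1), (75, 1), (31, 1), (79, 1), (95, 1), (351, 1)]
(.cut 7 [(0, 1), (1, 1), (2, 1), (3, 1), (5, 1), (7, 1), (11, 1), (21, 1), (37, 1), (15, 1), (23, 1), (39, 1), (53, 1), (75, 1), (31, 1), (47, 1), (55, 1), (79, 1), (63, 1), (95, 1), (111, 1), (127, 1)]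
(.lp [[5], [0, 2, 4, 7], [1, 3, 6, 8, 9, 10]] [(.mj 4 6, 3262), (.mj 10 5, 2854), (.rw 8, 1), (.rw 9, 13), (.rw 10, 3), (.rw 11, 2)]))))
(.cut 5 [(0, 1), (1, 1), (2, 1), (3, 1), (5, 1), (7, 1), (11, 1), (21, 1), (15, 1), (23, 1), (75, 1), (31, 1), (79, 1), (95, 1)]
(.cut 5 [(0, 1), (1, 1), (2, 1), (3, 1), (5, 1), (7, 1), (11, 1), (21, 1), (15, 1), (23, 1), (75, 1), (31, 1), (79, 1), (151, 1), (95, 1), (159, 1), (351, 1)]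
(.cut 7 [(0, 1), (1, 1), (2, 1), (3, 1), (5, 1), (7, 1), (11, 1), (21, 1), (15, 1), (23, 1), (75, 1), (31, 1), (79, 1), (95, 1)]
(.cut 7 [(0, 1), (1, 1), (2, 1), (3, 1), (5, 1), (7, 1), (11, 1), (21, 1), (15, 1), (23, 1), (75, 1), (31, 1), (79, 1), (95, 1), (351, 1)]
(.lp [[5], [0, 2, 4, 7], [1, 3, 6, 8, 9, 10]] [(.mj 4 6, 3658), (.mj 10 7, 1724), (.rw 8, 1), (.hz 7 183, 251142), (.rw 9, 4), (.rw 10, 1), (.rw 11, 5), (.rw 12, 2)]))))))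
.fin))
(.lp [[5], [0, 2, 4, 7], [1, 3, 6, 8, 9]] [(.mj 9 7, 1), (.rw 7, 1)]))
.fin))
(.lp [[5], [0, 2, 4, 7], [1, 3, 6, 8]] [(.mj 8 7, 1), (.rw 6, 1)]))
.fin))
(.spn
(.lp [[5], [1, 3, 6], [0, 2, 4, 7]] [(.mj 4 5, 1), (.mj 5 7, 3), (.mj 6 5, 4)])
(.lp [[5], [1, 3, 6], [0, 2, 4, 7]] [(.mj 3 4, 47), (.mj 7 5, 8), (.hz 9 5, 318), (.hz 10 39, 6272), (.hz 10 47, 2013), (.hz 8 159, 5829), (.hz 10 111, 18)])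
.fin
.fin)))
(.lp [[5], [1, 3, 6], [0, 2, 4, 7]] [(.mj 3 4, 4), (.hz 9 5, 42), (.hz 9 7, 261), (.hz 13 15, 1049), (.hz 10 39, 446), (.hz 13 31, 509)])))
(.lp [[5], [1, 3, 6], [0, 2, 4, 7]] [(.mj 3 4, 89), (.hz 9 5, 886), (.hz 9 7, 6494), (.hz 12 11, 5569), (.hz 12 15, 38088), (.hz 10 39, 10382), (.hz 11 47, 2606), (.hz 8 159, 10023)]))

theorem run88 : run P3488 (leaf3 218 625) (cutRow P3488) [s85, s87] t88 s88 = true := by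
  decide +kernel

theorem bad88 : Bad P3488 s88 :=
  run_sound (leaf3_sound P3488 rfl rfl) (cutRow_sound P3488) (
    List.forall_mem_cons.2 ⟨bad85, List.forall_mem_cons.2 ⟨bad87, fun _ h => absurd h List.not_mem_nil⟩⟩) t88 s88 run88

/-- the state above piece 239 of the tree -/
def s239 : St := ⟨[0, 0, 1, 3, 5, 15, 31, 31, 47], [95, 63, 31, 23, 21, 15, 11, 7, 5, 3, 2, 1, 0], [0, 1, 2, 3, 4, 5, 6],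
  [(4, 5)],
  [⟨true, 2, 3, 3, 10⟩, ⟨true, 1, 5, 2, 5⟩, ⟨true, 2, 3, 23, 50⟩, ⟨true, 1, 5, 12, 25⟩, ⟨true, 1, 21, 27, 50⟩, ⟨true, 4, 15, 9, 40⟩, ⟨true, 3, 23, 11, 20⟩, ⟨true, 4, 47, 7, 20⟩, ⟨true, 4, 47, 17, 40⟩, ⟨true, 4, 47, 9, 20⟩, ⟨true, 4, 47, 19, 40⟩, ⟨true, 5, 31, 3, 10⟩, ⟨true, 4, 47, 3, 5⟩, ⟨true, 4, 47, 5, 8⟩, ⟨true, 6, 159, 1, 10⟩, ⟨true, 6, 159, 1, 4⟩, ⟨true, 6, 319, 11, 40⟩],
  [.spn 0 0 651200, .spn 1 1 302400, .spn 3 2 302400, .spn 7 3 302400, .spn 15 4 302400, .spn 31 5 140426, .spn 63 6 140426]⟩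

/-- piece 239 of the tree -/
noncomputable def t239 : WN.Tree :=
(.haz 5 159 7 20
(.ask 127
(.mark 127 [7, 8, 9]
(.spn
(.haz 8 255 3 40
(.haz 7 319 1 8
(.ask 159
(.ref 0)
(.haz 7 639 1 10
(.haz 7 639 3 20
(.haz 7 639 7 40
(.ask 191
(.mark 255 [8, 9, 10]
(.spn
(.haz 10 767 13 50
(.lp [[7, 10], [1, 3, 5, 8], [0, 2, 4, 6, 9]] [(.mj 0 1, 1315), (.mj 6 7, 15), (.mj 8 9, 10), (.mj 8 10, 6), (.hz 22 639, 5213), (.hz 23 767, 16909), (.hz 18 1279, 13162)])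
(.lp [[7, 10], [1, 3, 5, 8], [0, 2, 4, 6, 9]] [(.mj 0 1, 420), (.mj 6 7, 6), (.mj 8 9, 4), (.hz 23 255, 2444), (.hz 22 639, 181)]))
(.ref 1)
(.cut 8 [(0, 1), (1, 1), (2, 1), (3, 1), (5, 1), (7, 1), (11, 1), (21, 1), (15, 1), (23, 1), (31, 1), (47, 1), (63, 1), (95, 1), (159, 1), (127, 1), (191, 1), (223, 1), (255, 1)]
(.lp [[7, 10], [1, 3, 5, 8], [0, 2, 4, 6, 9]] [(.mj 0 1, 121988), (.mj 6 7, 2605), (.mj 10 9, 996), (.hz 19 383, 3785618), (.hz 22 639, 585075), (.hz 18 767, 866113), (.rw 9, 1)]))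
.fin))
(.haz 8 639 3 40
(.haz 6 447 21 40
(.haz 7 639 9 40
(.maj 8 9
(.ref 2)
(.haz 6 319 9 20
(.haz 6 447 13 20
(.haz 8 255 3 20
(.haz 6 319 1 2
(.ask 223
(.mark 255 [8, 9, 10]
(.spn
(.con 8 9)
(.haz 8 639 3 25
(.ask 639
(.mark 767 [8, 10, 11]
(.spn
(.haz 11 1791 3 10
(.lp [[7, 10], [1, 3, 5, 8], [0, 2, 4, 6, 9, 11]] [(.mj 0 1, 255), (.mj 5 6, 94), (.mj 7 9, 2), (.mj 8 11, 14), (.mj 9 8, 40), (.hz 29 319, 95518), (.hz 28 255, 5302), (.hz 27 447, 14695), (.hz 28 1279, 155870), (.hz 31 1791, 148841)])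
(.lp [[7, 10], [1, 3, 5, 8], [0, 2, 4, 6, 9, 11]] [(.mj 0 1, 75), (.mj 5 6, 23), (.mj 7 9, 1), (.mj 9 8, 7), (.hz 29 319, 28178), (.hz 31 639, 3270), (.hz 27 447, 4335), (.hz 31 767, 14958), (.hz 28 1279, 33631)]))
(.lp [[7, 10], [1, 3, 5, 8], [0, 2, 4, 6, 9, 11]] [(.mj 0 1, 47), (.mj 5 6, 13), (.mj 10 8, 4), (.mj 10 11, 1), (.hz 29 319, 17294), (.hz 28 255, 2974), (.hz 30 639, 1573), (.hz 27 447, 2661), (.hz 28 767, 8941), (.hz 30 2687, 2656)])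
(.lp [[7, 10], [1, 3, 5, 8], [0, 2, 4, 6, 9, 11]] [(.mj 5 6, 9), (.mj 7 9, 1), (.mj 11 8, 4), (.hz 13 303, 776), (.hz 29 319, 17080), (.hz 28 255, 4641), (.hz 30 639, 3667), (.hz 27 447, 1374), (.hz 28 767, 10700), (.hz 28 2815, 193)])
.fin))
(.ask 767
(.mark 767 [8, 10, 11]
(.spn
(.lp [[7, 10], [1, 3, 5, 8], [0, 2, 4, 6, 9, 11]] [(.mj 0 1, 351), (.mj 5 6, 181), (.mj 6 7, 10), (.mj 8 11, 22), (.mj 9 8, 87), (.hz 29 319, 131489), (.hz 28 255, 104341), (.hz 28 1279, 340690)])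
(.lp [[7, 10], [1, 3, 5, 8], [0, 2, 4, 6, 9, 11]] [(.mj 0 1, 23), (.mj 5 6, 6), (.mj 6 7, 1), (.mj 10 8, 2), (.hz 29 319, 8528), (.hz 28 255, 3774), (.hz 28 767, 6447)])
(.lp [[7, 10], [1, 3, 5, 8], [0, 2, 4, 6, 9, 11]] [(.mj 5 6, 2), (.mj 11 8, 1), (.hz 13 303, 167), (.hz 29 319, 3676), (.hz 28 255, 1519), (.hz 28 767, 2652)])
.fin))
(.lp [[7, 10], [1, 3, 5, 8], [0, 2, 4, 6, 9]] [(.mj 0 1, 44), (.mj 5 6, 13), (.mj 7 8, 1), (.mj 9 8, 3), (.hz 29 319, 16595), (.hz 27 447, 3108)])))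
(.lp [[7, 10], [1, 3, 5, 8], [0, 2, 4, 6, 9]] [(.mj 5 6, 33), (.mj 7 9, 1), (.hz 30 47, 1706), (.hz 30 63, 11295), (.hz 23 639, 3505), (.hz 27 447, 5640)]))
(.lp [[7, 10], [1, 3, 5, 8], [0, 2, 4, 6, 9]] [(.mj 0 1, 103), (.mj 5 6, 13), (.mj 9 8, 3), (.mj 10 9, 1), (.hz 29 319, 13727), (.hz 28 255, 195), (.hz 27 447, 3624)])
.fin))
(.ref 3))
(.lp [[7], [1, 3, 5, 8], [0, 2, 4, 6, 9]] [(.mj 5 6, 7), (.mj 6 7, 16), (.mj 9 8, 19), (.hz 29 63, 172937), (.hz 26 319, 13624), (.hz 28 255, 52919)]))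
(.lp [[7], [1, 3, 5, 8], [0, 2, 4, 6, 9]] [(.mj 5 6, 1441), (.mj 7 9, 28), (.hz 28 47, 94228), (.hz 28 63, 280467), (.hz 28 127, 22727), (.hz 28 191, 499571), (.hz 23 639, 18251)]))
(.lp [[7], [1, 3, 5, 8], [0, 2, 4, 6, 9]] [(.mj 5 6, 7), (.mj 6 7, 5), (.mj 7 9, 6), (.mj 9 8, 9), (.hz 13 303, 561), (.hz 27 191, 23673), (.hz 26 319, 1371), (.hz 23 639, 4002), (.hz 24 447, 8840)]))
(.lp [[7], [1, 3, 5, 8], [0, 2, 4, 6, 9]] [(.mj 0 1, 588), (.mj 5 6, 11), (.mj 6 7, 13), (.hz 26 63, 6155), (.hz 19 319, 19179)])))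
(.lp [[7], [1, 3, 5, 8], [0, 2, 4, 6, 9]] [(.mj 0 1, 5035), (.mj 5 6, 78), (.mj 7 9, 41), (.hz 25 95, 15138), (.hz 25 127, 33716), (.hz 23 639, 27076)]))
(.lp [[7], [1, 3, 5, 8], [0, 2, 4, 6, 9]] [(.mj 0 1, 660), (.mj 5 6, 14), (.mj 6 7, 9), (.hz 24 63, 2640), (.hz 24 191, 2727)]))
(.lp [[7], [1, 3, 5, 8], [0, 2, 4, 6, 9]] [(.mj 5 6, 18), (.mj 6 7, 4), (.mj 7 9, 3), (.hz 23 47, 743), (.hz 23 63, 3178)])))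
(.lp [[7], [1, 3, 5, 8], [0, 2, 4, 6, 9]] [(.mj 0 1, 164), (.mj 7 9, 2), (.hz 22 63, 412), (.hz 22 95, 1130), (.hz 22 127, 739), (.hz 19 319, 3696)]))
(.lp [[7], [1, 3, 5, 8], [0, 2, 4, 6, 9]] [(.mj 0 1, 92), (.mj 7 9, 1), (.hz 21 63, 494), (.hz 21 95, 1269), (.hz 21 127, 805), (.hz 19 319, 2012)]))
(.lp [[7], [1, 3, 5, 8], [0, 2, 4, 6, 9]] [(.mj 7 8, 4), (.mj 7 9, 4), (.hz 20 31, 5140), (.hz 20 127, 4718)])))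
(.lp [[7], [1, 3, 5, 8], [0, 2, 4, 6, 9]] [(.mj 0 1, 149), (.mj 5 6, 2), (.mj 7 9, 1), (.hz 19 31, 2794), (.hz 19 63, 2243), (.hz 18 255, 728)]))
(.lp [[7], [1, 3, 5, 8], [0, 2, 4, 6, 9]] [(.mj 3 4, 161), (.mj 6 7, 9), (.mj 7 9, 10), (.hz 18 47, 5357), (.hz 18 63, 4535), (.hz 18 127, 3645)]))
(.haz 9 511 3 8
(.cut 7 [(0, 1), (1, 1), (2, 1), (3, 1), (5, 1), (7, 1), (11, 1), (21, 1), (15, 1), (23, 1), (31, 1), (47, 1), (63, 1), (95, 1), (303, 1), (127, 1)]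
(.lp [[7], [1, 3, 5, 8], [0, 2, 4, 6, 9]] [(.mj 0 1, 201539), (.mj 5 6, 252), (.mj 8 7, 3161), (.mj 8 9, 1833), (.hz 17 159, 1359301), (.hz 17 223, 954402), (.hz 16 447, 11591), (.hz 18 511, 10838746), (.rw 8, 1)]))
(.lp [[7], [1, 3, 5, 8], [0, 2, 4, 6, 9]] [(.mj 0 1, 363), (.mj 5 6, 1), (.mj 8 7, 5), (.hz 17 159, 2448), (.hz 18 127, 6934), (.hz 17 223, 834)]))
(.haz 6 159 3 10
(.ask 639
(.mark 639 [7, 8, 10]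
(.spn
(.lp [[7], [1, 3, 5, 8], [0, 2, 4, 6, 9, 10]] [(.mj 9 7, 1083), (.rw 8, 2)])
(.cut 7 [(0, 1), (1, 1), (2, 1), (3, 1), (5, 1), (7, 1), (11, 1), (21, 1), (15, 1), (23, 1), (31, 1), (47, 1), (63, 1), (95, 1), (303, 1), (127, 1)]
(.cut 7 [(0, 1), (1, 1), (2, 1), (3, 1), (5, 1), (7, 1), (11, 1), (21, 1), (15, 1), (23, 1), (31, 1), (47, 1), (63, 1), (95, 1), (303, 1), (127, 1), (319, 1), (383, 1), (639, 1)]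
(.lp [[7], [1, 3, 5, 8], [0, 2, 4, 6, 9, 10]] [(.mj 0 1, 11420282), (.mj 5 6, 47927), (.mj 8 7, 71061), (.rw 7, 11), (.rw 8, 132), (.hz 17 159, 77025287), (.rw 9, 100), (.rw 10, 44)])))
(.ask 1663
(.mark 1663 [7, 8, 11]
(.spn
(.lp [[7], [1, 3, 5, 8], [0, 2, 4, 6, 9, 10, 11]] [(.mj 10 7, 249), (.rw 9, 1)])
(.lp [[7], [1, 3, 5, 8], [0, 2, 4, 6, 9, 10, 11]] [(.mj 10 8, 631), (.rw 9, 1)])
(.maj 7 8
(.ask 159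
(.mark 191 [6, 8, 12]
(.cut 7 [(0, 1), (1, 1), (2, 1), (3, 1), (5, 1), (7, 1), (11, 1), (21, 1), (15, 1), (23, 1), (31, 1), (47, 1), (63, 1), (95, 1), (127, 1), (639, 1), (1663, 1)]
(.lp [[7, 12], [1, 3, 5, 8], [0, 2, 4, 6, 9, 10, 11]] [(.mj 0 1, 39656), (.mj 5 6, 2087), (.mj 11 7, 400), (.hz 18 4255, 2642510), (.hz 18 447, 409691), (.hz 18 4287, 1210371), (.rw 10, 1)])))
(.cut 7 [(0, 1), (1, 1), (2, 1), (3, 1), (5, 1), (7, 1), (11, 1), (21, 1), (15, 1), (23, 1), (31, 1), (47, 1), (63, 1), (95, 1), (127, 1)]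
(.cut 8 [(0, 1), (1, 1), (2, 1), (3, 1), (5, 1), (7, 1), (11, 1), (21, 1), (15, 1), (23, 1), (31, 1), (47, 1), (63, 1), (95, 1), (159, 1), (127, 1), (223, 1)]
(.cut 7 [(0, 1), (1, 1), (2, 1), (3, 1), (5, 1), (7, 1), (11, 1), (21, 1), (15, 1), (23, 1), (31, 1), (47, 1), (63, 1), (95, 1), (127, 1), (639, 1)]
(.cut 8 [(0, 1), (1, 1), (2, 1), (3, 1), (5, 1), (7, 1), (11, 1), (21, 1), (15, 1), (23, 1), (31, 1), (47, 1), (63, 1), (95, 1), (159, 1), (127, 1), (191, 2), (223, 1), (255, 1), (639, 1), (1663, 1)]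
(.lp [[7], [1, 3, 5, 8], [0, 2, 4, 6, 9, 10, 11]] [(.mj 0 1, 817783), (.mj 5 6, 91911), (.mj 11 7, 16842), (.rw 9, 12), (.hz 18 447, 208225047), (.rw 10, 40), (.rw 11, 14), (.rw 12, 66), (.rw 13, 22)]))))))
(.ask 3711
(.mark 3711 [7, 8, 12]
(.spn
(.con 7 8)
(.lp [[7], [1, 3, 5, 8], [0, 2, 4, 6, 9, 10, 11, 12]] [(.mj 11 8, 241), (.rw 10, 1)])
(.cut 7 [(0, 1), (1, 1), (2, 1), (3, 1), (5, 1), (7, 1), (11, 1), (21, 1), (15, 1), (23, 1), (31, 1), (47, 1), (63, 1), (95, 1), (303, 1), (127, 1)]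
(.cut 8 [(0, 1), (1, 1), (2, 1), (3, 1), (5, 1), (7, 1), (11, 1), (21, 1), (15, 1), (23, 1), (31, 1), (47, 1), (63, 1), (95, 1), (127, 1)]
(.cut 7 [(0, 1), (1, 1), (2, 1), (3, 1), (5, 1), (7, 1), (11, 1), (21, 1), (15, 1), (23, 1), (31, 1), (47, 1), (63, 1), (95, 1), (303, 1), (127, 1), (319, 1), (383, 1)]
(.cut 8 [(0, 1), (1, 1), (2, 1), (3, 1), (5, 1), (7, 1), (11, 1), (21, 1), (15, 1), (23, 1), (31, 1), (47, 1), (63, 1), (95, 1), (127, 1), (639, 1)]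
(.cut 7 [(0, 1), (1, 1), (2, 1), (3, 1), (5, 1), (7, 1), (11, 1), (21, 1), (15, 1), (23, 1), (31, 1), (47, 1), (63, 1), (95, 1), (303, 1), (127, 1), (639, 1)]
(.cut 8 [(0, 1), (1, 1), (2, 1), (3, 1), (5, 1), (7, 1), (11, 1), (21, 1), (15, 1), (23, 1), (31, 1), (47, 1), (63, 1), (95, 1), (127, 1), (639, 1), (1663, 1)]
(.lp [[7], [1, 3, 5, 8], [0, 2, 4, 6, 9, 10, 11, 12]] [(.mj 0 1, 909956), (.mj 5 6, 47892), (.mj 12 8, 2513), (.rw 10, 8), (.hz 18 159, 36276091), (.hz 18 447, 35197630), (.rw 11, 10), (.rw 12, 8), (.rw 13, 9), (.rw 14, 29), (.rw 15, 8), (.rw 16, 9)])))))))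
.fin))
(.lp [[7], [1, 3, 5, 8], [0, 2, 4, 6, 9, 10, 11]] [(.mj 11 8, 1), (.rw 9, 1)])))
.fin))
(.lp [[7], [1, 3, 5, 8], [0, 2, 4, 6, 9, 10]] [(.mj 10 8, 1), (.rw 8, 1)]))
.fin))
(.lp [[7], [1, 3, 5, 8], [0, 2, 4, 6, 9]] [(.mj 9 8, 1), (.rw 7, 1)]))
(.lp [[7], [1, 3, 5, 8], [0, 2, 4, 6, 9]] [(.mj 9 7, 386), (.rw 7, 2), (.hz 18 31, 7466895), (.hz 17 159, 44966), (.hz 15 159, 14870838), (.hz 15 191, 12076534), (.hz 16 319, 1068805)]))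
.fin))
(.spn
(.haz 8 255 1 5
(.lp [[7], [0, 2, 4, 6], [1, 3, 5, 8]] [(.mj 0 1, 15), (.mj 5 6, 1), (.mj 6 7, 3), (.mj 7 8, 2), (.hz 18 255, 11621)])
(.lp [[7], [0, 2, 4, 6], [1, 3, 5, 8]] [(.mj 6 7, 1), (.hz 18 47, 312), (.hz 18 63, 951), (.hz 18 127, 1750)]))
(.lp [[7], [0, 2, 4, 6], [1, 3, 5, 8]] [(.mj 0 1, 58), (.mj 8 7, 1), (.hz 17 159, 388), (.hz 17 223, 273)])
.fin
.fin))
(.lp [[7], [0, 2, 4, 6], [1, 3, 5, 8]] [(.mj 3 4, 7), (.mj 5 6, 8), (.mj 6 7, 10), (.hz 17 31, 8518), (.hz 11 159, 13173), (.hz 13 303, 5875)]))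

theorem run239 : run P3488 (leaf3 218 625) (cutRow P3488) [s238, s234, s237, s236] t239 s239 = true := by
  decide +kernel

theorem bad239 : Bad P3488 s239 :=
  run_sound (leaf3_sound P3488 rfl rfl) (cutRow_sound P3488) (
    List.forall_mem_cons.2 ⟨bad238, List.forall_mem_cons.2 ⟨bad234, List.forall_mem_cons.2 ⟨bad237, List.forall_mem_cons.2 ⟨bad236, fun _ h => absurd h List.not_mem_nil⟩⟩⟩⟩) t239 s239 run239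

/-- the state above piece 188 of the tree -/
def s188 : St := ⟨[0, 0, 1, 3, 5, 15, 21, 47, 47, 127], [175, 127, 95, 87, 85, 63, 31, 23, 21, 15, 11, 7, 5, 3, 2, 1, 0], [0, 1, 2, 3, 4, 5, 6, 7],
  [(5, 6), (4, 5)],
  [⟨true, 2, 3, 3, 10⟩, ⟨true, 1, 5, 2, 5⟩, ⟨true, 2, 3, 23, 50⟩, ⟨true, 1, 5, 12, 25⟩, ⟨true, 1, 21, 27, 50⟩, ⟨true, 4, 15, 9, 40⟩, ⟨true, 3, 23, 11, 20⟩, ⟨true, 4, 47, 7, 20⟩, ⟨true, 4, 47, 17, 40⟩, ⟨true, 4, 47, 9, 20⟩, ⟨true, 4, 47, 19, 40⟩, ⟨true, 3, 87, 27, 40⟩, ⟨true, 5, 95, 1, 4⟩, ⟨true, 7, 383, 1, 20⟩, ⟨true, 6, 191, 11, 40⟩, ⟨true, 8, 255, 3, 40⟩, ⟨true, 7, 303, 3, 40⟩, ⟨true, 6, 319, 7, 20⟩],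
  [.spn 0 0 651200, .spn 1 1 302400, .spn 3 2 302400, .spn 7 3 302400, .spn 15 4 302400, .spn 31 5 302400, .spn 63 6 140426, .spn 127 7 140426]⟩

/-- piece 188 of the tree -/
noncomputable def t188 : WN.Tree :=
(.haz 8 191 1 10
(.haz 6 319 2 5
(.haz 8 639 1 8
(.haz 7 319 1 5
(.haz 7 639 3 20
(.haz 6 191 2 5
(.haz 7 639 9 40
(.haz 7 639 11 40
(.haz 6 191 17 40
(.ask 191
(.mark 255 [8, 9, 10]
(.spn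
(.haz 9 1279 6 25
(.ask 303
(.mark 511 [9, 10, 11]
(.lp [[8, 11], [0, 2, 4, 6, 9], [1, 3, 5, 7, 10]] [(.mj 4 5, 21), (.mj 6 7, 6), (.mj 7 8, 6), (.mj 8 9, 13), (.mj 8 10, 1), (.hz 18 1215, 3067), (.hz 21 2367, 70792), (.hz 27 1279, 29671)]))
(.ask 431
(.mark 511 [9, 10, 11]
(.lp [[8, 11], [0, 2, 4, 6, 9], [1, 3, 5, 7, 10]] [(.mj 6 7, 9), (.mj 7 8, 5), (.mj 8 9, 8), (.hz 18 1215, 1499), (.hz 27 1279, 17008)]))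
(.ask 319
(.mark 511 [9, 10, 11]
(.lp [[8, 11], [0, 2, 4, 6, 9], [1, 3, 5, 7, 10]] [(.mj 4 5, 100), (.mj 7 8, 13), (.mj 8 9, 34), (.mj 8 10, 3), (.hz 25 639, 1102), (.hz 18 1215, 19819), (.hz 21 2367, 73529), (.hz 27 1279, 75964)]))
(.ask 383
(.mark 511 [9, 10, 11]
(.spn
(.haz 8 255 6 25
(.ask 639
(.mark 639 [7, 8, 12]
(.lp [[8, 11], [1, 3, 5, 7, 10], [0, 2, 4, 6, 9, 12]] [(.mj 6 7, 37), (.mj 7 8, 35), (.mj 8 9, 26), (.mj 9 10, 2), (.hz 28 767, 23057), (.hz 28 1279, 34239), (.hz 27 1279, 47312), (.hz 25 4735, 3241), (.hz 20 4735, 132748)]))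
(.lp [[8, 11], [0, 2, 4, 6, 9], [1, 3, 5, 7, 10]] [(.mj 4 5, 30), (.mj 7 8, 5), (.mj 8 9, 6), (.hz 28 255, 2968), (.hz 28 767, 1199), (.hz 28 1279, 8572), (.hz 27 1279, 9700)]))
(.lp [[8, 11], [0, 2, 4, 6, 9], [1, 3, 5, 7, 10]] [(.mj 6 7, 23), (.mj 8 9, 19), (.hz 28 127, 22748), (.hz 28 255, 3156), (.hz 25 639, 5869), (.hz 18 1215, 37113), (.hz 27 1279, 31060)]))
(.haz 8 639 1 5
(.lp [[8, 11], [0, 2, 4, 6, 9], [1, 3, 5, 7, 10]] [(.mj 6 7, 6601), (.mj 7 8, 6229), (.mj 8 10, 1908), (.mj 10 9, 3192), (.rw 9, 1), (.hz 25 639, 1145441), (.hz 28 639, 40552694), (.hz 28 767, 56652670), (.hz 27 1279, 3577684)])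
(.lp [[8, 11], [0, 2, 4, 6, 9], [1, 3, 5, 7, 10]] [(.mj 6 7, 4), (.mj 8 9, 3), (.hz 28 127, 18951), (.hz 25 639, 1018), (.hz 20 639, 256), (.hz 27 1279, 4850)]))
(.lp [[8, 11], [0, 2, 4, 6, 9], [1, 3, 5, 7, 10]] [(.mj 4 5, 37), (.mj 7 8, 8), (.mj 11 9, 9), (.mj 11 10, 2), (.hz 25 639, 2821), (.hz 20 639, 47134), (.hz 18 1215, 33018), (.hz 20 767, 92153), (.hz 18 1279, 15607), (.hz 27 1279, 17004)])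
.fin))
(.lp [[8], [0, 2, 4, 6, 9], [1, 3, 5, 7, 10]] [(.mj 4 5, 228), (.mj 6 7, 41), (.mj 7 8, 39), (.mj 8 9, 79), (.hz 25 639, 24364), (.hz 18 1215, 259281), (.hz 27 1279, 130335)])))))
(.lp [[8], [0, 2, 4, 6, 9], [1, 3, 5, 7, 10]] [(.mj 4 5, 16395), (.mj 7 8, 1319), (.rw 8, 2), (.hz 27 127, 2681402), (.hz 27 255, 2039240), (.hz 20 639, 2885307), (.hz 18 1215, 19806192)]))
(.haz 7 319 7 25
(.haz 8 191 4 25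
(.lp [[8], [0, 2, 4, 6, 9], [1, 3, 5, 7, 10]] [(.mj 3 4, 786), (.mj 6 7, 87), (.mj 7 9, 7), (.mj 9 8, 275), (.hz 10 303, 21078), (.hz 28 191, 125235), (.hz 28 255, 488166), (.hz 20 639, 542627), (.hz 26 1215, 45287), (.hz 28 1215, 130370), (.hz 28 1279, 452864)])
(.haz 7 319 8 25
(.haz 6 319 11 25
(.haz 7 319 17 50
(.haz 8 255 3 25
(.haz 8 127 7 50
(.ask 303
(.mark 447 [6, 10, 11]
(.lp [[8, 11], [0, 2, 4, 6, 9], [1, 3, 5, 7, 10]] [(.mj 3 4, 383), (.mj 6 7, 94), (.mj 9 8, 55), (.hz 31 319, 44083), (.hz 10 2351, 21523), (.hz 33 255, 38773), (.hz 33 639, 19559), (.hz 26 1215, 7925), (.hz 30 2367, 39113), (.hz 31 2367, 16297), (.hz 33 1279, 45302)]))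
(.lp [[8], [0, 2, 4, 6, 9], [1, 3, 5, 7, 10]] [(.mj 3 4, 515), (.mj 6 7, 124), (.mj 7 9, 1), (.mj 9 8, 48), (.hz 28 175, 20320), (.hz 30 319, 32790), (.hz 31 319, 37413), (.hz 33 255, 28281), (.hz 33 639, 616), (.hz 26 1215, 6950), (.hz 18 1215, 57163), (.hz 33 1279, 39713)]))
(.lp [[8], [0, 2, 4, 6, 9], [1, 3, 5, 7, 10]] [(.mj 3 4, 872), (.mj 6 7, 245), (.hz 33 47, 28332), (.hz 33 63, 9308), (.hz 31 319, 60529)]))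
(.lp [[8], [0, 2, 4, 6, 9], [1, 3, 5, 7, 10]] [(.mj 3 4, 7), (.mj 6 7, 2), (.hz 32 47, 449), (.hz 32 63, 148), (.hz 31 319, 481)]))
(.lp [[8], [0, 2, 4, 6, 9], [1, 3, 5, 7, 10]] [(.mj 3 4, 283), (.hz 28 47, 14698), (.hz 31 63, 23311), (.hz 28 63, 29124), (.hz 28 175, 17497)]))
(.lp [[8], [0, 2, 4, 6, 9], [1, 3, 5, 7, 10]] [(.mj 4 5, 1), (.mj 6 7, 1), (.hz 30 63, 762), (.hz 28 63, 271), (.hz 29 319, 807)]))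
(.lp [[8], [0, 2, 4, 6, 9], [1, 3, 5, 7, 10]] [(.mj 3 4, 19), (.hz 28 47, 997), (.hz 29 63, 3098), (.hz 28 63, 1911), (.hz 28 175, 1187)])))
(.lp [[8], [0, 2, 4, 6, 9], [1, 3, 5, 7, 10]] [(.mj 3 4, 134), (.mj 7 9, 1), (.mj 9 8, 29), (.hz 27 63, 14916), (.hz 10 303, 4710), (.hz 19 319, 96668), (.hz 21 319, 15013), (.hz 10 431, 4710), (.hz 20 639, 2980), (.hz 26 1215, 2483), (.hz 18 1215, 33964), (.hz 20 767, 93351), (.hz 18 1279, 192661)]))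
(.lp [[8], [0, 2, 4, 6, 9], [1, 3, 5, 7, 10]] [(.mj 6 7, 5), (.mj 10 8, 4), (.mj 10 9, 2), (.hz 18 191, 16393), (.hz 18 255, 8310), (.hz 25 639, 1730), (.hz 20 639, 15609), (.hz 18 1215, 3159), (.hz 20 767, 44232)])
.fin))
(.haz 8 255 1 8
(.ask 255
(.mark 255 [8, 9, 10]
(.spn
(.ask 303
(.mark 511 [9, 10, 11]
(.spn
(.haz 9 1279 3 20
(.haz 8 1279 7 40
(.haz 9 1279 9 40
(.ask 1279
(.mark 1279 [8, 9, 12]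
(.lp [[8, 11], [0, 2, 4, 6, 9], [1, 3, 5, 7, 10, 12]] [(.mj 4 5, 112), (.mj 7 8, 72), (.mj 8 9, 84), (.mj 9 10, 30), (.hz 29 1279, 6208), (.hz 30 1279, 59540), (.hz 30 5375, 61882)]))
(.lp [[8, 11], [0, 2, 4, 6, 9], [1, 3, 5, 7, 10]] [(.mj 4 5, 16), (.mj 7 8, 16), (.mj 8 9, 15), (.mj 9 10, 6), (.hz 25 639, 1165), (.hz 30 1279, 7039)]))
(.lp [[8, 11], [0, 2, 4, 6, 9], [1, 3, 5, 7, 10]] [(.mj 6 7, 2), (.mj 7 8, 7), (.mj 9 10, 5), (.hz 30 127, 3098), (.hz 30 255, 5186), (.hz 29 1279, 7641)]))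
(.lp [[8, 11], [0, 2, 4, 6, 9], [1, 3, 5, 7, 10]] [(.mj 4 5, 14), (.mj 6 7, 1), (.mj 8 9, 15), (.mj 9 10, 9), (.hz 29 63, 2412), (.hz 29 127, 6676), (.hz 29 191, 1703), (.hz 29 255, 11658), (.hz 27 1279, 104448), (.hz 28 1279, 22413)]))
(.lp [[8, 11], [0, 2, 4, 6, 9], [1, 3, 5, 7, 10]] [(.mj 4 5, 3), (.mj 7 8, 1), (.mj 9 10, 1), (.hz 28 127, 3166), (.hz 28 255, 99), (.hz 27 1279, 6282)]))
(.haz 7 895 17 40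
(.haz 9 1279 3 40
(.haz 9 1279 1 10
(.haz 9 255 1 5
(.lp [[8, 11], [0, 2, 4, 6, 9], [1, 3, 5, 7, 10]] [(.mj 4 5, 70), (.mj 8 10, 8), (.mj 10 9, 20), (.hz 31 255, 59127), (.hz 20 639, 29564), (.hz 21 2367, 188575), (.hz 31 511, 352360), (.hz 31 1279, 69557), (.hz 21 2431, 17169), (.hz 31 2559, 85844)])
(.lp [[8, 11], [0, 2, 4, 6, 9], [1, 3, 5, 7, 10]] [(.mj 4 5, 108), (.mj 6 7, 32), (.mj 8 10, 13), (.mj 10 9, 12), (.hz 31 127, 116488), (.hz 31 255, 18169), (.hz 21 2367, 660426), (.hz 30 1279, 60987), (.hz 28 895, 26612)]))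
(.lp [[8, 11], [0, 2, 4, 6, 9], [1, 3, 5, 7, 10]] [(.mj 4 5, 10), (.mj 8 10, 1), (.hz 30 127, 7727)]))
(.lp [[8, 11], [0, 2, 4, 6, 9], [1, 3, 5, 7, 10]] [(.mj 4 5, 7), (.mj 8 10, 1), (.hz 29 127, 1390)]))
(.lp [[8, 11], [0, 2, 4, 6, 9], [1, 3, 5, 7, 10]] [(.mj 7 8, 7), (.mj 10 9, 5), (.hz 28 127, 5504), (.hz 28 383, 1732), (.hz 25 639, 4990), (.hz 20 639, 27791), (.hz 21 2367, 4647), (.hz 20 767, 54716)]))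
(.lp [[8, 11], [0, 2, 4, 6, 9], [1, 3, 5, 7, 10]] [(.mj 4 5, 49), (.mj 7 8, 11), (.mj 11 9, 17), (.mj 11 10, 13), (.hz 25 639, 3617), (.hz 20 639, 68638), (.hz 20 767, 125712), (.hz 27 1279, 86052)])
.fin))
(.ref 0))
(.haz 8 255 7 40
(.lp [[8], [0, 2, 4, 6, 9], [1, 3, 5, 7, 10]] [(.mj 3 4, 6), (.mj 9 8, 2), (.hz 10 303, 166), (.hz 10 431, 137), (.hz 28 255, 2107), (.hz 20 639, 929), (.hz 28 767, 627), (.hz 28 1279, 627)])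
(.lp [[8], [0, 2, 4, 6, 9], [1, 3, 5, 7, 10]] [(.mj 3 4, 133), (.mj 9 8, 38), (.hz 28 47, 6), (.hz 28 175, 2053), (.hz 10 303, 3553), (.hz 27 255, 216829), (.hz 20 639, 104789), (.hz 27 1279, 139390)]))
(.ask 639
(.mark 639 [7, 8, 11]
(.lp [[8], [1, 3, 5, 7, 10], [0, 2, 4, 6, 9, 11]] [(.mj 3 4, 261), (.mj 6 7, 122), (.mj 10 8, 140), (.hz 10 303, 7011), (.hz 27 255, 1145056), (.hz 25 639, 5111), (.hz 20 639, 401629), (.hz 20 767, 820980), (.hz 25 2687, 28187), (.hz 20 2687, 306499), (.hz 20 2815, 1127479)]))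
(.lp [[8], [0, 2, 4, 6, 9], [1, 3, 5, 7, 10]] [(.mj 6 7, 8654), (.mj 10 8, 3768), (.rw 8, 1), (.hz 27 255, 51769027), (.hz 20 767, 22076344)]))
.fin))
(.spn
(.lp [[8], [1, 3, 5, 7], [0, 2, 4, 6, 9]] [(.mj 4 5, 4), (.mj 7 8, 3), (.mj 8 9, 2), (.hz 20 639, 7993)])
(.ask 303
(.mark 319 [6, 7, 10]
(.lp [[7], [0, 2, 4, 6, 9], [1, 3, 5, 8, 10]] [(.mj 3 4, 59), (.mj 9 8, 11), (.hz 10 303, 4455), (.hz 27 255, 12998), (.hz 20 639, 27170), (.hz 26 447, 6989), (.hz 19 1343, 27698), (.hz 21 1343, 8465)]))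
(.lp [[8], [1, 3, 5, 7], [0, 2, 4, 6, 9]] [(.mj 3 4, 780), (.mj 9 8, 145), (.hz 19 319, 80765), (.hz 10 431, 58460), (.hz 20 639, 501394), (.hz 26 447, 147055)]))
.fin
.fin))
(.lp [[8], [1, 3, 5, 7], [0, 2, 4, 6, 9]] [(.mj 3 4, 66), (.mj 6 7, 17), (.hz 27 47, 12947), (.hz 27 63, 14582), (.hz 18 191, 20178)])))
(.lp [[8], [1, 3, 5, 7], [0, 2, 4, 6, 9]] [(.mj 4 5, 2), (.hz 26 63, 262), (.hz 18 191, 522), (.hz 21 319, 522)]))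
(.lp [[8], [1, 3, 5, 7], [0, 2, 4, 6, 9]] [(.mj 4 5, 3), (.mj 7 8, 226), (.mj 7 9, 181), (.hz 25 63, 57980), (.hz 25 127, 107903), (.hz 10 431, 9079), (.hz 20 639, 1156972)]))
(.lp [[8], [1, 3, 5, 7], [0, 2, 4, 6, 9]] [(.mj 3 4, 986), (.mj 7 8, 702), (.mj 7 9, 508), (.rw 4, 1), (.hz 24 63, 208321), (.hz 24 127, 307000), (.hz 20 639, 3398523)]))
(.lp [[8], [1, 3, 5, 7], [0, 2, 4, 6, 9]] [(.mj 4 5, 2), (.hz 23 63, 2040), (.hz 18 191, 495), (.hz 21 319, 495)]))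
(.lp [[8], [1, 3, 5, 7], [0, 2, 4, 6, 9]] [(.mj 3 4, 1696), (.rw 4, 1), (.rw 7, 1), (.hz 22 127, 1766821)]))
(.lp [[8], [1, 3, 5, 7], [0, 2, 4, 6, 9]] [(.mj 3 4, 18), (.mj 7 8, 8), (.mj 7 9, 2), (.hz 21 63, 36230), (.hz 10 303, 404), (.hz 19 319, 13990), (.hz 10 431, 1701), (.hz 20 639, 26053)]))
(.lp [[8], [1, 3, 5, 7], [0, 2, 4, 6, 9]] [(.mj 3 4, 66), (.mj 6 7, 17), (.hz 20 47, 12947), (.hz 20 63, 14582), (.hz 18 191, 20178)]))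
(.lp [[8], [1, 3, 5, 7], [0, 2, 4, 6, 9]] [(.mj 4 5, 24), (.mj 7 8, 1), (.hz 19 63, 27258), (.hz 18 191, 9717), (.hz 17 319, 472)]))
(.lp [[8], [1, 3, 5, 7], [0, 2, 4, 6, 9]] [(.mj 3 4, 191), (.mj 6 7, 53), (.hz 18 47, 29327), (.hz 18 63, 33012), (.hz 16 303, 841), (.hz 15 255, 15648)]))

theorem run188 : run P3488 (leaf3 218 625) (cutRow P3488) [s187] t188 s188 = true := by
  decide +kernel

theorem bad188 : Bad P3488 s188 :=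
  run_sound (leaf3_sound P3488 rfl rfl) (cutRow_sound P3488) (
    List.forall_mem_cons.2 ⟨bad187, fun _ h => absurd h List.not_mem_nil⟩) t188 s188 run188

/-- the state above piece 3 of the tree -/
def s3 : St := ⟨[0, 0, 0, 1], [1, 0], [0, 1],
  [],
  [⟨true, 2, 1, 3, 50⟩],
  [.spn 0 0 424061, .spn 1 1 140426]⟩

/-- piece 3 of the tree -/
noncomputable def t3 : WN.Tree :=
(.haz 1 9 11 50
(.maj 2 3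
(.haz 1 4 1 4
(.haz 3 3 3 10
(.ask 2
(.mark 3 [2, 3, 4]
(.lp [[2], [0, 3], [1, 4]] [(.mj 0 1, 25), (.mj 1 2, 23), (.mj 2 3, 22), (.hz 2 4, 1928), (.hz 3 3, 796), (.hz 1 9, 138), (.hz 3 7, 1453), (.hz 0 19, 175), (.hz 3 19, 4194)]))
(.ask 3
(.mark 3 [2, 3, 4]
(.spn
(.ask 19
(.mark 19 [2, 3, 5]
(.lp [[2], [0, 3], [1, 4, 5]] [(.mj 0 1, 11), (.mj 1 2, 13), (.mj 2 3, 13), (.hz 3 3, 981), (.hz 3 7, 1039), (.hz 3 19, 1402), (.hz 3 51, 752)]))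
(.lp [[2], [0, 3], [1, 4]] [(.mj 0 1, 11), (.mj 1 2, 13), (.mj 2 3, 13), (.hz 3 3, 981), (.hz 3 7, 1039), (.hz 3 19, 1402)]))
(.con 3 2)
(.lp [[2], [0, 3], [1, 4]] [(.mj 0 1, 3351), (.mj 2 3, 1083), (.rw 2, 1), (.hz 2 4, 944818), (.hz 3 3, 299192), (.hz 2 5, 409421), (.hz 3 19, 135424)])
.fin))
(.lp [[1], [2], [0, 3]] [(.mj 0 1, 1), (.mj 1 2, 4), (.mj 2 3, 3), (.hz 1 9, 6), (.hz 3 7, 449)])))
(.ask 2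
(.mark 3 [2, 3, 4]
(.lp [[2], [0, 3], [1, 4]] [(.mj 0 1, 4), (.mj 1 2, 2), (.hz 3 1, 197), (.hz 2 4, 844), (.hz 3 3, 120), (.hz 0 9, 27)]))
(.ask 3
(.mark 3 [2, 3, 4]
(.spn
(.haz 2 9 4 25
(.haz 3 19 1 5
(.ask 19
(.ask 9
(.mark 9 [1, 2, 6]
(.ask 73
(.mark 91 [2, 5, 7]
(.lp [[2], [1, 4, 5], [0, 3, 6, 7]] [(.mj 0 1, 124), (.mj 1 2, 119), (.mj 2 3, 76), (.mj 2 4, 22), (.hz 4 9, 116), (.hz 5 19, 35164), (.hz 4 73, 4432), (.hz 4 75, 1890), (.hz 5 51, 8788), (.hz 4 201, 3129)]))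
(.mark 27 [2, 5, 6]
(.lp [[2], [0, 3, 6], [1, 4, 5]] [(.mj 0 1, 3136), (.mj 1 2, 3020), (.mj 2 3, 1957), (.mj 2 4, 544), (.hz 4 9, 2791), (.hz 5 19, 917640), (.hz 4 73, 114240), (.hz 4 75, 54412), (.hz 5 51, 217237)]))))
(.lp [[2], [0, 3], [1, 4, 5]] [(.mj 0 1, 9), (.mj 1 2, 7), (.mj 2 4, 4), (.hz 3 3, 1161), (.hz 5 19, 1608)]))
(.lp [[2], [0, 3], [1, 4]] [(.mj 0 1, 13), (.mj 1 2, 11), (.mj 2 3, 5), (.hz 3 1, 346), (.hz 4 9, 274), (.hz 5 23, 940)]))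
(.lp [[2], [0, 3], [1, 4]] [(.mj 0 1, 40), (.mj 1 2, 11), (.hz 5 1, 2525), (.hz 2 4, 11388), (.hz 4 9, 270)]))
(.lp [[2], [0, 3], [1, 4]] [(.mj 0 1, 55), (.hz 4 1, 890), (.hz 3 1, 2224), (.hz 2 4, 12011)]))
(.con 3 2)
(.cut 2 [(0, 1), (1, 1), (2, 1), (3, 1)]
(.lp [[2], [0, 3], [1, 4]] [(.mj 0 1, 7143), (.mj 4 2, 1638), (.hz 3 1, 246343), (.hz 2 4, 2416865), (.hz 0 9, 46065), (.hz 2 13, 1279594), (.rw 3, 1)]))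
.fin))
(.lp [[1], [2], [0, 3]] [(.mj 0 1, 1), (.mj 1 2, 1), (.hz 3 1, 65), (.hz 3 3, 77)]))))
(.haz 3 3 3 10
(.haz 2 9 3 20
(.ask 9
(.mark 9 [1, 2, 4]
(.lp [[1], [2], [0, 3, 4]] [(.mj 1 2, 14), (.mj 2 3, 10), (.hz 2 0, 3430), (.hz 0 3, 100), (.hz 3 3, 1127), (.hz 4 9, 370), (.hz 4 25, 435)]))
(.lp [[1], [2], [0, 3]] [(.mj 1 2, 4), (.mj 2 3, 1), (.hz 2 0, 1261), (.hz 4 9, 40), (.hz 4 11, 126)]))
(.lp [[1], [2], [0, 3]] [(.mj 2 3, 1), (.hz 2 0, 198), (.hz 4 0, 27), (.hz 4 1, 32), (.hz 0 3, 5), (.hz 3 3, 129)]))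
(.lp [[1], [2], [0, 3]] [(.mj 1 2, 25), (.hz 2 0, 7497), (.hz 3 1, 1723), (.hz 0 3, 392), (.hz 0 9, 312)])))
(.haz 1 4 1 5
(.haz 3 7 1 5
(.ask 2
(.ref 0)
(.ask 3
(.ref 1)
(.spn
(.con 2 3)
(.haz 3 5 13 40
(.ask 9
(.mark 9 [1, 2, 4]
(.ask 11
(.mark 11 [2, 4, 5]
(.spn
(.haz 5 27 3 10
(.haz 5 27 2 5
(.lp [[2], [1, 5], [0, 3, 4]] [(.mj 1 3, 15), (.mj 2 4, 3), (.mj 2 5, 10), (.mj 3 2, 15), (.hz 0 25, 406), (.hz 6 27, 5538)])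
(.lp [[2], [1, 5], [0, 3, 4]] [(.mj 1 3, 12), (.mj 2 4, 5), (.mj 3 2, 10), (.hz 6 11, 3461), (.hz 0 25, 467), (.hz 5 27, 868)]))
(.lp [[2], [1, 5], [0, 3, 4]] [(.mj 1 3, 6), (.mj 2 4, 3), (.mj 3 2, 5), (.hz 5 11, 833), (.hz 0 25, 228)]))
(.lp [[2], [1, 5], [0, 3, 4]] [(.mj 1 3, 21), (.mj 4 2, 13), (.mj 4 5, 3), (.hz 0 9, 822), (.hz 0 11, 327), (.hz 0 25, 156), (.hz 0 43, 891)])
(.ask 43
(.mark 43 [2, 4, 6]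
(.spn
(.lp [[2], [0, 3, 4], [1, 5, 6]] [(.mj 5 2, 213), (.rw 4, 1)])
(.cut 2 [(0, 1), (1, 1), (2, 1), (3, 1)]
(.lp [[2], [0, 3, 4], [1, 5, 6]] [(.mj 1 3, 1315), (.mj 4 2, 599), (.mj 4 6, 79), (.hz 0 25, 34679), (.hz 0 43, 17486), (.hz 0 107, 33596), (.rw 5, 1)]))
(.maj 2 4
(.cut 2 [(0, 1), (1, 1), (2, 1), (3, 1), (9, 1), (11, 1), (43, 1)]
(.cut 4 [(0, 1), (1, 1), (2, 1), (4, 1), (3, 1), (5, 1), (6, 1), (9, 1), (7, 1), (11, 1), (13, 1), (15, 1)]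
(.lp [[2], [0, 3, 4], [1, 5, 6]] [(.mj 6 2, 2277), (.hz 0 25, 121126), (.hz 0 27, 492237), (.hz 0 59, 386304), (.rw 5, 7), (.rw 6, 1)])))
(.cut 2 [(0, 1), (1, 1), (2, 1), (3, 1), (9, 1), (11, 1), (43, 1)]
(.cut 4 [(0, 1), (1, 1), (2, 1), (3, 1)]
(.lp [[2], [0, 3, 4], [1, 5, 6]] [(.mj 1 3, 60973), (.mj 4 2, 15332), (.mj 6 2, 4992), (.rw 5, 73), (.rw 6, 8)]))))
.fin))
(.lp [[2], [1, 5], [0, 3, 4]] [(.mj 5 4, 43), (.rw 3, 1)]))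
.fin))
(.lp [[1], [2], [0, 3, 4]] [(.mj 1 3, 9), (.mj 3 2, 5), (.hz 0 9, 213), (.hz 0 25, 136)])))
(.ask 11
(.haz 1 4 1 4
(.haz 1 5 7 20
(.ask 11
(.mark 11 [2, 4, 5]
(.spn
(.haz 4 43 1 4
(.ask 43
(.haz 5 15 3 10
(.mark 43 [2, 4, 6]
(.lp [[2], [1, 4], [0, 3, 5, 6]] [(.mj 1 3, 12), (.mj 2 4, 52), (.mj 3 2, 66), (.mj 4 5, 29), (.hz 8 15, 19319), (.hz 7 43, 18111), (.hz 7 107, 24149)]))
(.mark 43 [2, 4, 6]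
(.lp [[2], [1, 4], [0, 3, 5, 6]] [(.mj 2 4, 23), (.mj 3 2, 31), (.mj 4 5, 1), (.hz 8 11, 2181), (.hz 7 43, 8178), (.hz 7 107, 10904)])))
(.lp [[2], [1, 5], [0, 3, 4]] [(.mj 2 4, 4), (.mj 3 2, 6), (.mj 4 5, 1)]))
(.lp [[2], [1, 5], [0, 3, 4]] [(.mj 3 2, 3), (.mj 4 5, 2), (.hz 7 11, 1116), (.hz 0 43, 288)]))
(.ask 27
(.mark 27 [2, 5, 6]
(.spn
(.lp [[2], [1, 5], [0, 3, 4, 6]] [(.mj 4 2, 213), (.rw 4, 1)])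
(.maj 2 6
(.cut 2 [(0, 1), (1, 1), (2, 1), (3, 1), (9, 1), (11, 1), (27, 1)]
(.lp [[2], [1, 5], [0, 3, 4, 6]] [(.mj 4 5, 193), (.mj 5 2, 348), (.hz 0 91, 60247), (.rw 5, 1)]))
(.ask 43
(.mark 59 [2, 6, 7]
(.cut 2 [(0, 1), (1, 1), (2, 1), (3, 1), (9, 1), (11, 1)]
(.cut 2 [(0, 1), (1, 1), (2, 1), (3, 1), (9, 1), (11, 1), (27, 1), (43, 1)]
(.lp [[2], [1, 5, 7], [0, 3, 4, 6]] [(.mj 4 5, 1112), (.mj 5 6, 2864), (.mj 6 2, 13845), (.hz 0 171, 133125), (.hz 0 187, 961455), (.rw 5, 39), (.rw 6, 10)]))))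
(.ask 59
(.mark 59 [2, 6, 7]
(.cut 2 [(0, 1), (1, 1), (2, 1), (3, 1), (9, 1), (11, 1), (27, 1)]
(.cut 2 [(0, 1), (1, 1), (2, 1), (3, 1), (9, 1), (11, 1), (43, 1)]
(.lp [[2], [1, 5, 7], [0, 3, 4, 6]] [(.mj 5 6, 4206), (.mj 6 2, 25235), (.hz 0 187, 1752448), (.rw 5, 15), (.rw 6, 74)]))))
(.cut 2 [(0, 1), (1, 1), (2, 1), (3, 1), (9, 1), (11, 1), (27, 1), (91, 1)]
(.cut 2 [(0, 1), (1, 1), (2, 1), (3, 1), (9, 1), (11, 1)]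
(.cut 2 [(0, 1), (1, 1), (2, 1), (3, 1), (9, 1), (11, 1), (27, 1)]
(.cut 2 [(0, 1), (1, 1), (2, 1), (3, 1), (9, 1), (11, 1), (43, 1)]
(.lp [[2], [1, 5], [0, 3, 4, 6]] [(.mj 5 6, 7436), (.mj 6 2, 52050), (.rw 5, 3), (.rw 6, 125), (.rw 7, 26), (.rw 8, 29)]))))))))
(.ask 91
(.mark 91 [2, 5, 7]
(.spn
(.lp [[2], [1, 5], [0, 3, 4, 6, 7]] [(.mj 6 2, 129), (.rw 5, 1)])
(.lp [[2], [1, 5], [0, 3, 4, 6, 7]] [(.mj 6 5, 1070), (.rw 5, 2), (.hz 0 43, 213459), (.hz 0 59, 312468)])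
(.cut 2 [(0, 1), (1, 1), (2, 1), (3, 1), (9, 1), (11, 1), (27, 1)]
(.cut 5 [(0, 1), (1, 1), (2, 1), (4, 1), (3, 1), (5, 1), (6, 1), (9, 1), (7, 1), (11, 1), (13, 1), (15, 1)]
(.lp [[2], [1, 5], [0, 3, 4, 6, 7]] [(.mj 7 2, 17884), (.mj 7 5, 865), (.hz 0 27, 540846), (.hz 0 59, 567016), (.rw 6, 56), (.rw 7, 1)])))
.fin))
(.lp [[2], [1, 5], [0, 3, 4, 6]] [(.mj 6 5, 1), (.rw 4, 1)]))
.fin))
(.lp [[2], [1, 5], [0, 3, 4]] [(.mj 4 5, 820), (.rw 3, 1)]))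
(.con 5 4)
.fin))
(.spn
(.lp [[1], [2], [0, 3, 4]] [(.mj 2 4, 2), (.mj 3 2, 3)])
(.ask 27
(.ask 27
(.mark 27 [2, 5, 6]
(.spn
(.lp [[2], [1, 6], [0, 3, 4, 5]] [(.mj 4 2, 213), (.rw 4, 1)])
(.ask 59
(.mark 59 [2, 6, 7]
(.spn
(.lp [[2], [1, 6], [0, 3, 4, 5, 7]] [(.mj 5 2, 129), (.rw 5, 1)])
(.cut 2 [(0, 1), (1, 1), (2, 1), (3, 1), (9, 1), (11, 1), (27, 1), (59, 1)]
(.lp [[2], [1, 6], [0, 3, 4, 5, 7]] [(.mj 5 6, 97), (.mj 6 2, 583), (.mj 6 7, 10), (.hz 0 187, 24125), (.rw 6, 2)]))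
(.cut 2 [(0, 1), (1, 1), (2, 1), (3, 1), (9, 1), (11, 1), (27, 1), (59, 1)]
(.lp [[2], [1, 6], [0, 3, 4, 5, 7]] [(.mj 7 2, 1100), (.rw 6, 4)]))
.fin))
(.lp [[2], [1, 6], [0, 3, 4, 5]] [(.mj 5 6, 813), (.rw 4, 1)]))
(.con 6 5)
.fin))
(.spn
(.lp [[1], [2], [0, 3, 4, 5]] [(.mj 4 2, 1), (.rw 4, 1)])
(.ask 59
(.maj 2 6
(.ask 59
(.mark 59 [2, 6, 7]
(.spn
(.lp [[2], [1, 7], [0, 3, 4, 5, 6]] [(.rw 4, 1), (.rw 5, 3)])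
(.con 6 2)
(.con 7 6)
.fin))
(.lp [[1], [2], [0, 3, 4, 5, 6]] [(.mj 2 6, 1), (.mj 5 2, 1)]))
(.cut 2 [(0, 1), (1, 1), (2, 1), (3, 1), (9, 1), (11, 1), (27, 1)]
(.lp [[1], [2], [0, 3, 4, 5, 6]] [(.mj 6 2, 1100), (.rw 5, 4)])))
(.lp [[1], [2], [0, 3, 4, 5]] [(.mj 5 2, 1)]))
.fin
.fin))
(.lp [[1], [2], [0, 3, 4]] [(.rw 3, 1)]))
.fin
.fin))
(.lp [[1], [2], [0, 3, 4]] [(.mj 1 3, 1), (.mj 3 2, 1), (.hz 6 1, 146), (.hz 5 4, 115), (.hz 5 5, 560)]))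
(.lp [[1], [2], [0, 3, 4]] [(.mj 1 3, 3), (.mj 3 2, 5), (.hz 5 0, 3433), (.hz 2 4, 2368), (.hz 2 5, 1894)]))
(.lp [[1], [2], [0, 3]] [(.mj 3 2, 1)])))
(.lp [[1], [2], [0, 3]] [(.mj 3 2, 1), (.hz 4 1, 56), (.hz 2 4, 122)]))
.fin
.fin)))
(.lp [[1], [2], [0, 3]] [(.mj 0 1, 8), (.mj 3 2, 2), (.hz 3 1, 547), (.hz 2 4, 1982), (.hz 2 5, 491)]))
(.cut 2 [(0, 1), (1, 1)]
(.lp [[1], [2], [0, 3]] [(.mj 1 3, 1632), (.mj 3 2, 1632), (.hz 2 0, 408067), (.rw 2, 2)]))))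
(.lp [[1], [2], [0, 3]] [(.mj 1 2, 888), (.mj 1 3, 1538), (.rw 1, 4), (.hz 1 1, 100875), (.hz 0 3, 11096), (.hz 0 9, 49537)]))

theorem run3 : run P3488 (leaf3 218 625) (cutRow P3488) [s2, s1] t3 s3 = true := by
  decide +kernel

theorem bad3 : Bad P3488 s3 :=
  run_sound (leaf3_sound P3488 rfl rfl) (cutRow_sound P3488) (
    List.forall_mem_cons.2 ⟨bad2, List.forall_mem_cons.2 ⟨bad1, fun _ h => absurd h List.not_mem_nil⟩⟩) t3 s3 run3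

end Pool.Agent.WN.Data
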