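import Pool.Agent.WN.CutRow
import Pool.Agent.WN.LeafRow
import Pool.Agent.Helper99.WN.ParDef
import Pool.Agent.WN.Data.D0
import Pool.Agent.WN.Data.D2
import Pool.Agent.WN.Data.D4
import Pool.Agent.WN.Data.D5
import Pool.Agent.WN.Data.D10
import Pool.Agent.WN.Data.D17
import Pool.Agent.WN.Data.D18

/-!
# The search tree, part 23
-/

set_option autoImplicit false

namespace Pool.Agent.WN.Data

open Pool.Agent.W3 Pool.Agent.WN Pool.Agent.Helper99.WN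

/-- the state above piece 214 of the tree -/
def s214 : St := ⟨[0, 0, 1, 3, 5, 15, 23, 47, 47, 95, 255], [255, 191, 175, 127, 87, 63, 31, 23, 21, 15, 11, 7, 5, 3, 2, 1, 0], [0, 1, 2, 3, 4, 5, 6, 7, 8],
  [(5, 6), (4, 5)],
  [⟨true, 2, 3, 3, 10⟩, ⟨true, 1, 5, 2, 5⟩, ⟨true, 2, 3, 23, 50⟩, ⟨true, 1, 5, 12, 25⟩, ⟨true, 1, 21, 27, 50⟩, ⟨true, 4, 15, 9, 40⟩, ⟨true, 3, 23, 11, 20⟩, ⟨true, 4, 47, 7, 20⟩, ⟨true, 4, 47, 17, 40⟩, ⟨true, 4, 47, 9, 20⟩, ⟨true, 4, 47, 19, 40⟩, ⟨true, 5, 95, 1, 5⟩, ⟨true, 5, 95, 3, 10⟩, ⟨true, 5, 31, 3, 10⟩, ⟨true, 5, 95, 11, 25⟩, ⟨true, 6, 63, 3, 20⟩, ⟨true, 8, 255, 1, 50⟩, ⟨true, 6, 319, 13, 40⟩, ⟨true, 7, 639, 9, 50⟩, ⟨true, 7, 639, 13, 50⟩, ⟨true, 8, 191, 2, 25⟩, ⟨true, 9, 1279, 1, 10⟩, ⟨true, 8, 1279, 3, 25⟩],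
  [.spn 0 0 651200, .spn 1 1 302400, .spn 3 2 302400, .spn 7 3 302400, .spn 15 4 302400, .spn 31 5 302400, .spn 63 6 140426, .spn 127 7 140426, .spn 255 8 62723]⟩

/-- piece 214 of the tree -/
noncomputable def t214 : WN.Tree :=
(.haz 7 895 8 25
(.haz 7 319 9 40
(.haz 9 383 1 10
(.haz 9 1279 7 50
(.haz 8 1279 7 50
(.haz 7 895 9 25
(.haz 8 1279 4 25
(.ask 303
(.mark 511 [9, 10, 11]
(.spn
(.ask 1279
(.haz 9 255 1 5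
(.ask 607
(.mark 1791 [8, 12, 13]
(.lp [[8, 11], [0, 2, 4, 6, 9, 13], [1, 3, 5, 7, 10, 12]] [(.mj 4 5, 607), (.mj 6 7, 162), (.mj 7 8, 426), (.mj 8 9, 602), (.mj 9 10, 170), (.hz 14 8799, 62299), (.hz 30 511, 441118), (.hz 30 1279, 3765282), (.hz 19 8831, 136014), (.hz 30 2559, 1730519), (.hz 20 8959, 910699), (.hz 30 5375, 3461774)]))
(.mark 1279 [8, 9, 12]
(.lp [[8, 11], [0, 2, 4, 6, 9], [1, 3, 5, 7, 10, 12]] [(.mj 0 1, 1429), (.mj 7 8, 81), (.mj 8 9, 113), (.mj 9 10, 32), (.hz 30 255, 210291), (.hz 30 1279, 539284), (.hz 30 2559, 525693), (.hz 30 5375, 649933)])))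
(.lp [[8, 11], [0, 2, 4, 6, 9], [1, 3, 5, 7, 10, 12]] [(.mj 6 7, 3), (.mj 7 8, 5), (.mj 9 10, 4), (.hz 30 95, 9191), (.hz 30 127, 21386), (.hz 30 255, 30566), (.hz 29 1279, 9228)]))
(.lp [[8, 11], [0, 2, 4, 6, 9], [1, 3, 5, 7, 10]] [(.mj 7 8, 29329), (.mj 8 9, 19552), (.mj 9 10, 8185), (.rw 9, 4), (.hz 26 1279, 5472665)]))
(.haz 9 127 11 50
(.lp [[8, 11], [0, 2, 4, 6, 9], [1, 3, 5, 7, 10]] [(.mj 4 5, 8), (.mj 8 10, 1), (.mj 10 9, 5), (.hz 30 127, 605), (.hz 30 255, 1986), (.hz 30 383, 1986), (.hz 17 2367, 26), (.hz 24 2367, 403), (.hz 30 511, 8721), (.hz 30 1279, 1166), (.hz 30 2431, 4095)])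
(.ask 1279
(.mark 1535 [9, 11, 12]
(.spn
(.haz 9 255 1 5
(.lp [[8, 11], [0, 2, 4, 6, 9], [1, 3, 5, 7, 10, 12]] [(.mj 0 1, 376), (.mj 8 10, 4), (.mj 9 12, 2), (.mj 10 9, 14), (.hz 30 95, 1768), (.hz 31 255, 42571), (.hz 24 2367, 7231), (.hz 31 511, 214628), (.hz 31 1279, 33452), (.hz 24 2431, 6543), (.hz 25 2431, 79634), (.hz 31 2559, 610963)])
(.lp [[8, 11], [0, 2, 4, 6, 9], [1, 3, 5, 7, 10, 12]] [(.mj 0 1, 682179), (.mj 8 10, 6291), (.mj 9 12, 3632), (.mj 10 9, 11061), (.rw 10, 1), (.hz 31 95, 49249755), (.hz 31 127, 40806940), (.hz 24 2367, 12277238), (.hz 26 1279, 4675015), (.hz 25 2431, 48393725), (.hz 26 3583, 54834453)]))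
(.lp [[8, 11], [0, 2, 4, 6, 9], [1, 3, 5, 7, 10, 12]] [(.mj 4 5, 4901), (.mj 6 7, 916), (.mj 11 9, 226), (.rw 10, 1), (.hz 30 95, 349510), (.hz 30 127, 431786), (.hz 25 511, 3105002), (.hz 28 895, 1208988), (.hz 29 5375, 1398747), (.hz 26 5375, 130116)])
(.lp [[8, 11], [0, 2, 4, 6, 9], [1, 3, 5, 7, 10, 12]] [(.mj 0 1, 250), (.mj 8 10, 3), (.mj 12 9, 5), (.hz 30 95, 1703), (.hz 30 127, 1246), (.hz 25 383, 2307), (.hz 24 2367, 4435), (.hz 26 1279, 6109), (.hz 25 2431, 21396), (.hz 26 1535, 17846)])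
.fin))
(.lp [[8, 11], [0, 2, 4, 6, 9], [1, 3, 5, 7, 10]] [(.mj 0 1, 608), (.mj 6 7, 74), (.mj 7 8, 8), (.mj 10 9, 33), (.hz 30 95, 6777), (.hz 30 127, 9245), (.hz 10 2351, 268), (.hz 24 2367, 100910), (.hz 24 2431, 81), (.hz 25 2431, 483396), (.hz 26 1535, 66936), (.hz 28 2943, 377564)])))
(.lp [[8, 11], [0, 2, 4, 6, 9], [1, 3, 5, 7, 10]] [(.mj 4 5, 12), (.mj 7 8, 3), (.mj 11 9, 7), (.mj 11 10, 2), (.hz 14 607, 1063), (.hz 25 383, 21879), (.hz 19 639, 1249), (.hz 25 511, 46733), (.hz 29 1279, 8340), (.hz 26 1279, 5411), (.hz 26 1535, 21135)])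
.fin))
(.ask 431
(.mark 511 [9, 10, 11]
(.spn
(.haz 10 2559 13 50
(.haz 9 255 13 50
(.lp [[8, 11], [0, 2, 4, 6, 9], [1, 3, 5, 7, 10]] [(.mj 6 7, 20), (.mj 7 8, 12), (.mj 8 9, 20), (.mj 9 10, 4), (.hz 31 1279, 16425), (.hz 30 2559, 10023)])
(.haz 10 511 19 50
(.ask 607
(.mark 1023 [10, 11, 12]
(.lp [[8, 11], [1, 3, 5, 7, 10], [0, 2, 4, 6, 9, 12]] [(.mj 3 4, 4), (.mj 6 7, 14), (.mj 7 8, 8), (.mj 8 9, 13), (.mj 9 10, 12), (.hz 31 95, 627), (.hz 31 127, 1839), (.hz 10 2479, 155), (.hz 32 511, 14831), (.hz 32 2559, 38398), (.hz 32 5119, 8076)]))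
(.lp [[8, 11], [0, 2, 4, 6, 9], [1, 3, 5, 7, 10]] [(.mj 3 4, 1), (.mj 7 8, 26), (.mj 9 10, 42), (.hz 31 127, 15981), (.hz 31 255, 24099), (.hz 10 2479, 3714), (.hz 32 511, 63641), (.hz 17 2495, 37142), (.hz 32 2559, 103732)]))
(.lp [[8, 11], [0, 2, 4, 6, 9], [1, 3, 5, 7, 10]] [(.mj 6 7, 15), (.mj 7 8, 16), (.hz 31 95, 2382), (.hz 31 127, 5783), (.hz 31 255, 13377), (.hz 32 255, 13377), (.hz 32 511, 8708)])))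
(.lp [[8, 11], [0, 2, 4, 6, 9], [1, 3, 5, 7, 10]] [(.mj 3 4, 6), (.mj 6 7, 14), (.mj 7 8, 10), (.mj 8 9, 11), (.hz 30 255, 4062), (.hz 19 639, 1344), (.hz 30 511, 3898), (.hz 26 1279, 6287)]))
(.haz 9 255 4 25
(.lp [[8, 11], [0, 2, 4, 6, 9], [1, 3, 5, 7, 10]] [(.mj 6 7, 12), (.mj 8 10, 1), (.mj 10 9, 7), (.hz 30 255, 6752), (.hz 30 511, 25095), (.hz 30 1279, 2150)])
(.lp [[8, 11], [0, 2, 4, 6, 9], [1, 3, 5, 7, 10]] [(.mj 6 7, 6), (.mj 7 8, 1), (.mj 8 10, 1), (.hz 30 95, 1236), (.hz 30 127, 4721), (.hz 26 1279, 1194)]))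
(.lp [[8, 11], [0, 2, 4, 6, 9], [1, 3, 5, 7, 10]] [(.mj 3 4, 7), (.mj 6 7, 11), (.mj 7 8, 1), (.mj 11 9, 5), (.mj 11 10, 1), (.hz 19 639, 1561), (.hz 26 1279, 3269)])
.fin))
(.haz 9 255 8 25
(.lp [[8], [0, 2, 4, 6, 9], [1, 3, 5, 7, 10]] [(.mj 6 7, 13), (.mj 7 8, 24), (.mj 8 9, 31), (.hz 30 255, 31048), (.hz 30 511, 30884), (.hz 30 1279, 35516)])
(.haz 10 511 1 25
(.ask 319
(.mark 511 [9, 10, 11]
(.spn
(.haz 10 511 9 25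
(.ask 1279
(.mark 1279 [8, 9, 12]
(.lp [[8, 11], [0, 2, 4, 6, 9], [1, 3, 5, 7, 10, 12]] [(.mj 6 7, 6), (.mj 7 8, 17), (.mj 8 9, 17), (.mj 9 10, 10), (.hz 30 95, 279), (.hz 19 639, 930), (.hz 17 2367, 535), (.hz 26 1279, 1876), (.hz 25 2431, 40474), (.hz 17 2495, 3141), (.hz 32 1023, 17958), (.hz 32 2559, 76888), (.hz 29 5375, 7608), (.hz 26 5375, 14923)]))
(.lp [[8, 11], [0, 2, 4, 6, 9], [1, 3, 5, 7, 10]] [(.mj 3 4, 5), (.mj 6 7, 4), (.mj 7 8, 11), (.mj 8 9, 9), (.mj 9 10, 5), (.hz 30 127, 925), (.hz 26 1279, 3030), (.hz 32 2559, 30816)]))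
(.lp [[8, 11], [0, 2, 4, 6, 9], [1, 3, 5, 7, 10]] [(.mj 6 7, 26), (.mj 7 8, 39), (.mj 8 9, 35), (.hz 32 255, 34782), (.hz 32 511, 37500), (.hz 26 1279, 20222), (.hz 25 2431, 133117)]))
(.haz 9 127 13 50
(.lp [[8, 11], [0, 2, 4, 6, 9], [1, 3, 5, 7, 10]] [(.mj 0 1, 7), (.mj 6 7, 2), (.mj 7 8, 3), (.mj 8 10, 2), (.mj 10 9, 5), (.hz 32 127, 80), (.hz 32 255, 859), (.hz 32 383, 3950), (.hz 17 2367, 1331), (.hz 32 511, 7741), (.hz 32 1279, 2120), (.hz 32 2431, 3594)])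
(.haz 9 383 1 5
(.lp [[8, 11], [0, 2, 4, 6, 9], [1, 3, 5, 7, 10]] [(.mj 6 7, 110), (.mj 7 8, 39), (.mj 8 10, 39), (.mj 10 9, 101), (.hz 33 383, 522577), (.hz 17 2367, 19787), (.hz 24 2367, 53726), (.hz 33 511, 2033343), (.hz 26 1279, 68287), (.hz 33 2431, 2062370), (.hz 28 2943, 688638)])
(.ask 1279
(.mark 1535 [9, 11, 12]
(.spn
(.haz 12 3583 3 10
(.haz 9 383 4 25
(.lp [[8, 11], [0, 2, 4, 6, 9], [1, 3, 5, 7, 10, 12]] [(.mj 0 1, 265678), (.mj 7 8, 4669), (.mj 8 10, 4891), (.mj 9 12, 3732), (.mj 10 9, 9288), (.rw 10, 1), (.hz 33 95, 19180568), (.hz 33 127, 15892471), (.hz 35 383, 11951469), (.hz 35 2431, 15093479), (.hz 35 2559, 87905975), (.hz 26 5375, 2730122), (.hz 34 3583, 106831944)])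
(.lp [[8, 11], [0, 2, 4, 6, 9], [1, 3, 5, 7, 10, 12]] [(.mj 0 1, 1043), (.mj 8 10, 10), (.mj 9 12, 1), (.mj 10 9, 1), (.hz 35 95, 18027), (.hz 35 127, 36235), (.hz 24 2367, 20453), (.hz 25 2431, 3216), (.hz 26 5375, 8325)]))
(.lp [[8, 11], [0, 2, 4, 6, 9], [1, 3, 5, 7, 10, 12]] [(.mj 0 1, 1074), (.mj 7 8, 7), (.mj 8 9, 8), (.mj 8 10, 4), (.mj 10 9, 8), (.hz 33 95, 77520), (.hz 33 127, 64231), (.hz 34 1279, 43465), (.hz 25 2431, 47801), (.hz 34 1535, 77969), (.hz 26 5375, 4595)]))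
(.lp [[8, 11], [0, 2, 4, 6, 9], [1, 3, 5, 7, 10, 12]] [(.mj 0 1, 73082), (.mj 6 7, 498), (.mj 11 9, 344), (.rw 10, 1), (.hz 33 95, 5614627), (.hz 33 127, 5159279), (.hz 25 511, 6360152), (.hz 28 895, 657429), (.hz 26 1535, 1861331), (.hz 29 5375, 2124474), (.hz 26 5375, 197625), (.hz 26 3583, 2819237)])
(.lp [[8, 11], [0, 2, 4, 6, 9], [1, 3, 5, 7, 10, 12]] [(.mj 0 1, 456), (.mj 7 8, 2), (.mj 8 10, 6), (.mj 12 9, 10), (.hz 33 95, 31846), (.hz 33 127, 24768), (.hz 25 383, 16451), (.hz 26 1279, 12555), (.hz 25 2431, 122427), (.hz 26 1535, 35362), (.hz 28 2943, 91794)])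
.fin))
(.lp [[8, 11], [0, 2, 4, 6, 9], [1, 3, 5, 7, 10]] [(.mj 0 1, 510), (.mj 6 7, 33), (.mj 7 8, 8), (.mj 8 10, 4), (.mj 10 9, 12), (.hz 33 95, 58893), (.hz 33 127, 81943), (.hz 24 2367, 40668), (.hz 24 2431, 1623), (.hz 25 2431, 154518), (.hz 26 1535, 21273), (.hz 28 2943, 120164)]))))
(.lp [[8, 11], [0, 2, 4, 6, 9], [1, 3, 5, 7, 10]] [(.mj 6 7, 5), (.mj 7 8, 11), (.mj 11 9, 10), (.mj 11 10, 4), (.hz 30 95, 250), (.hz 25 383, 59967), (.hz 19 639, 833), (.hz 25 511, 74468), (.hz 29 1279, 18111), (.hz 26 1279, 9481), (.hz 25 2431, 6441), (.hz 26 1535, 36747)])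
.fin))
(.ref 0))
(.lp [[8], [0, 2, 4, 6, 9], [1, 3, 5, 7, 10]] [(.mj 3 4, 5), (.mj 6 7, 8), (.mj 7 8, 89), (.mj 8 9, 50), (.hz 30 127, 794), (.hz 31 255, 49634), (.hz 25 383, 366987), (.hz 26 1279, 28857)])))))
(.lp [[8], [0, 2, 4, 6, 9], [1, 3, 5, 7, 10]] [(.mj 6 7, 2), (.mj 8 9, 4), (.mj 8 10, 3), (.hz 29 47, 481), (.hz 29 63, 1439), (.hz 29 127, 2962), (.hz 29 255, 4684), (.hz 25 383, 76), (.hz 26 1279, 5314)]))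
(.lp [[8], [0, 2, 4, 6, 9], [1, 3, 5, 7, 10]] [(.mj 3 4, 3), (.mj 7 8, 10), (.mj 8 9, 7), (.hz 28 303, 895), (.hz 28 127, 9212), (.hz 28 319, 2977), (.hz 28 383, 1152), (.hz 25 383, 24344), (.hz 19 639, 3537), (.hz 26 1279, 4113)]))
(.lp [[8], [0, 2, 4, 6, 9], [1, 3, 5, 7, 10]] [(.mj 6 7, 2), (.mj 8 9, 4), (.mj 8 10, 3), (.hz 27 47, 267), (.hz 27 63, 791), (.hz 27 175, 6), (.hz 27 127, 1613), (.hz 27 191, 76), (.hz 27 255, 2542), (.hz 26 1279, 5781)]))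
(.lp [[8], [0, 2, 4, 6, 9], [1, 3, 5, 7, 10]] [(.mj 0 1, 3203), (.mj 7 8, 58), (.mj 8 10, 62), (.hz 26 95, 32884), (.hz 26 127, 41416), (.hz 26 255, 42493), (.hz 25 383, 146177), (.hz 21 1279, 334653)]))
(.lp [[8], [0, 2, 4, 6, 9], [1, 3, 5, 7, 10]] [(.mj 0 1, 351), (.mj 7 8, 8), (.mj 8 10, 7), (.hz 25 95, 17990), (.hz 25 127, 44595), (.hz 20 767, 15982), (.hz 21 1279, 36354)]))
(.lp [[8], [0, 2, 4, 6, 9], [1, 3, 5, 7, 10]] [(.mj 3 4, 44), (.mj 7 8, 31), (.mj 8 9, 12), (.hz 24 63, 18379), (.hz 17 319, 4188), (.hz 10 431, 5048), (.hz 19 639, 6164), (.hz 21 1279, 34244)]))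
(.lp [[8], [0, 2, 4, 6, 9], [1, 3, 5, 7, 10]] [(.mj 3 4, 4), (.mj 7 8, 9), (.mj 8 9, 6), (.hz 23 303, 872), (.hz 23 127, 9492), (.hz 23 319, 2570), (.hz 19 639, 3565)]))

theorem run214 : run P3488 (leaf3 218 625) (cutRow P3488) [s213] t214 s214 = true := by
  decide +kernel

theorem bad214 : Bad P3488 s214 :=
  run_sound (leaf3_sound P3488 rfl rfl) (cutRow_sound P3488) (
    List.forall_mem_cons.2 ⟨bad213, fun _ h => absurd h List.not_mem_nil⟩) t214 s214 run214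

/-- the state above piece 74 of the tree -/
def s74 : St := ⟨[0, 0, 1, 1], [3, 2, 1, 0], [0, 1, 2],
  [],
  [⟨true, 1, 9, 7, 50⟩, ⟨true, 2, 11, 3, 50⟩, ⟨true, 2, 9, 9, 50⟩, ⟨false, 3, 3, 1, 5⟩, ⟨true, 2, 3, 1, 4⟩, ⟨true, 1, 9, 3, 10⟩, ⟨true, 2, 9, 3, 10⟩, ⟨true, 1, 9, 7, 20⟩, ⟨true, 1, 5, 7, 20⟩, ⟨true, 2, 9, 7, 20⟩],
  [.spn 0 0 651200, .spn 1 1 140426, .spn 3 2 302400]⟩

/-- piece 74 of the tree -/
noncomputable def t74 : WN.Tree :=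
(.haz 2 11 27 40
(.haz 2 11 3 4
(.ask 5
(.mark 5 [1, 3, 4]
(.ask 7
(.mark 7 [3, 4, 5]
(.spn
(.lp [[3], [1, 5], [0, 2, 4]] [(.mj 1 2, 6), (.mj 3 5, 1), (.hz 3 1, 75), (.hz 3 3, 827), (.hz 9 9, 188)])
(.lp [[3], [1, 5], [0, 2, 4]] [(.mj 1 2, 5), (.mj 4 3, 1), (.mj 4 5, 1), (.hz 9 9, 153), (.hz 11 11, 716)])
(.ask 9
(.mark 15 [4, 5, 6]
(.cut 3 [(0, 1), (1, 1), (2, 1), (3, 1), (5, 1), (7, 1)]
(.cut 4 [(0, 1), (1, 1), (2, 1), (3, 1), (5, 1), (9, 1), (7, 1), (11, 1), (73, 1), (75, 1)]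
(.lp [[1, 5], [3, 6], [0, 2, 4]] [(.mj 1 2, 29389), (.hz 11 11, 194368), (.hz 9 73, 1457764), (.hz 11 75, 10009977), (.rw 4, 2), (.rw 5, 4)]))))
(.ask 11
(.ask 39
(.mark 39 [3, 4, 7]
(.spn
(.lp [[3, 6], [0, 2, 4], [1, 5, 7]] [(.mj 1 2, 1885), (.mj 3 7, 179), (.mj 5 3, 808), (.rw 4, 1)])
(.lp [[3, 6], [0, 2, 4], [1, 5, 7]] [(.mj 1 2, 6498), (.rw 4, 1), (.hz 11 11, 1353677)])
(.haz 6 47 9 50
(.mark 15 [4, 5, 6]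
(.cut 4 [(0, 1), (1, 1), (2, 1), (3, 1), (5, 1), (9, 1), (7, 1), (11, 1), (13, 1), (15, 1), (75, 1)]
(.cut 3 [(0, 1), (1, 1), (2, 1), (3, 1), (5, 1), (7, 1), (21, 1), (23, 2), (39, 1)]
(.lp [[3, 6], [0, 2, 4], [1, 5, 7]] [(.mj 1 2, 13745915), (.mj 7 3, 1400047), (.hz 11 75, 3897857730), (.hz 12 47, 304611082), (.rw 5, 1909), (.rw 6, 5077)]))))
(.mark 15 [4, 5, 6]
(.cut 3 [(0, 1), (1, 1), (2, 1), (3, 1), (5, 1), (7, 1), (21, 1), (23, 1)]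
(.cut 4 [(0, 1), (1, 1), (2, 1), (3, 1), (5, 1), (9, 1), (7, 1), (11, 1), (13, 1), (15, 1), (39, 1), (75, 1)]
(.lp [[3, 6], [0, 2, 4], [1, 5, 7]] [(.mj 1 2, 168405), (.hz 12 11, 2816991), (.hz 11 75, 19975029), (.rw 5, 3), (.rw 6, 23)])))))
.fin))
(.lp [[1, 5], [3, 6], [0, 2, 4]] [(.mj 1 2, 70), (.mj 5 4, 18), (.rw 3, 1)]))
(.cut 3 [(0, 1), (2, 1)]
(.cut 4 [(0, 1), (1, 1), (2, 1), (3, 1), (9, 1), (11, 1)]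
(.lp [[3], [1, 5], [0, 2, 4]] [(.mj 1 2, 28194), (.rw 4, 2), (.rw 5, 4)])))))
.fin))
(.lp [[1], [3], [0, 2, 4]] [(.mj 1 2, 1), (.hz 3 1, 11), (.hz 3 3, 117), (.hz 9 9, 27)])))
(.ask 7
(.ask 7
(.ref 0)
(.spn
(.lp [[1], [3], [0, 2, 4]] [(.mj 1 2, 1), (.mj 3 4, 2), (.hz 3 1, 220), (.hz 3 3, 1501)])
(.ask 23
(.haz 3 55 3 40
(.ask 23
(.mark 23 [3, 5, 6]
(.spn
(.lp [[3], [1, 6], [0, 2, 4, 5]] [(.mj 4 3, 1180), (.rw 4, 2)])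
(.ask 55
(.mark 55 [3, 6, 7]
(.spn
(.lp [[3], [1, 6], [0, 2, 4, 5, 7]] [(.mj 5 3, 274), (.rw 5, 1)])
(.maj 3 7
(.cut 3 [(0, 1), (1, 1), (2, 1), (3, 1), (5, 1), (7, 1), (23, 1), (55, 1)]
(.lp [[3], [1, 6], [0, 2, 4, 5, 7]] [(.mj 5 6, 487), (.mj 6 3, 773), (.hz 12 183, 152042), (.rw 6, 2)]))
(.haz 6 183 3 10
(.haz 7 119 7 20
(.ask 87
(.mark 119 [3, 7, 8]
(.spn
(.con 3 7)
(.ask 183
(.mark 247 [3, 8, 9]
(.cut 3 [(0, 1), (1, 1), (2, 1), (3, 1), (5, 1), (7, 1), (23, 1), (55, 1), (87, 1), (119, 1)]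
(.lp [[3], [1, 6, 8], [0, 2, 4, 5, 7, 9]] [(.mj 5 6, 9528), (.mj 6 7, 8014), (.mj 7 3, 6592), (.hz 12 375, 1847998), (.hz 12 695, 509142), (.rw 7, 19)])))
(.ask 247
(.mark 247 [3, 8, 9]
(.spn
(.lp [[3], [1, 6, 8], [0, 2, 4, 5, 7, 9]] [(.mj 3 9, 515), (.mj 5 6, 3091), (.mj 7 3, 1876), (.rw 7, 4)])
(.lp [[3], [1, 6, 8], [0, 2, 4, 5, 7, 9]] [(.mj 5 6, 6), (.mj 8 3, 4), (.mj 8 9, 1), (.hz 12 119, 1503), (.hz 12 247, 388), (.hz 12 759, 811)])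
(.lp [[3], [1, 6, 8], [0, 2, 4, 5, 7, 9]] [(.mj 5 6, 4), (.mj 9 3, 7), (.hz 12 55, 725), (.hz 12 119, 2208), (.hz 12 183, 214), (.hz 12 247, 976)])
.fin))
(.lp [[3], [1, 6, 8], [0, 2, 4, 5, 7]] [(.mj 5 6, 3), (.mj 6 3, 2), (.hz 12 119, 489)])))
(.lp [[3], [1, 6, 8], [0, 2, 4, 5, 7]] [(.mj 5 6, 5), (.mj 7 3, 3), (.mj 8 3, 2), (.mj 8 7, 3), (.hz 12 119, 1518), (.hz 12 183, 763), (.hz 13 183, 618), (.hz 12 375, 1786)])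
.fin))
(.haz 6 191 7 20
(.ask 119
(.mark 119 [3, 7, 8]
(.spn
(.con 3 7)
(.ask 183
(.mark 247 [3, 8, 9]
(.spn
(.lp [[3], [1, 6, 8], [0, 2, 4, 5, 7, 9]] [(.mj 6 7, 78), (.mj 7 3, 326), (.rw 7, 1), (.hz 12 375, 172431), (.hz 12 695, 79504)])
(.lp [[3], [1, 6, 8], [0, 2, 4, 5, 7, 9]] [(.mj 5 6, 5), (.mj 8 3, 22), (.hz 12 55, 2833), (.hz 12 119, 5699), (.hz 12 183, 837), (.hz 12 247, 3062), (.hz 12 375, 183), (.hz 12 695, 2449), (.hz 15 703, 8164)])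
(.lp [[3], [1, 6, 8], [0, 2, 4, 5, 7, 9]] [(.mj 6 7, 1), (.mj 9 3, 8), (.hz 12 55, 1100), (.hz 12 119, 1660), (.hz 12 183, 560), (.hz 12 247, 1107), (.hz 12 375, 744), (.hz 14 375, 260), (.hz 12 695, 10), (.hz 12 503, 1861)])
.fin))
(.ask 247
(.mark 247 [3, 8, 9]
(.spn
(.lp [[3], [1, 6, 8], [0, 2, 4, 5, 7, 9]] [(.mj 3 9, 277), (.mj 5 6, 1391), (.mj 7 3, 900), (.rw 7, 2), (.hz 12 375, 577341)])
(.lp [[3], [1, 6, 8], [0, 2, 4, 5, 7, 9]] [(.mj 5 6, 13), (.mj 8 3, 8), (.hz 12 119, 3764), (.hz 12 247, 970), (.hz 12 375, 157), (.hz 12 759, 1451)])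
(.lp [[3], [1, 6, 8], [0, 2, 4, 5, 7, 9]] [(.mj 9 3, 4), (.hz 12 55, 588), (.hz 12 119, 903), (.hz 12 183, 174), (.hz 12 247, 564), (.hz 12 375, 376)])
.fin))
(.lp [[3], [1, 6, 8], [0, 2, 4, 5, 7]] [(.mj 5 6, 4), (.mj 7 3, 3), (.hz 12 119, 1167), (.hz 12 375, 385)])))
(.lp [[3], [1, 6, 8], [0, 2, 4, 5, 7]] [(.mj 5 6, 1544), (.rw 6, 1), (.hz 12 119, 507737), (.hz 14 119, 339890)])
.fin))
(.spn
(.con 3 7)
(.ask 183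
(.mark 183 [3, 6, 8]
(.ask 247
(.mark 247 [3, 8, 9]
(.spn
(.lp [[3], [1, 6, 9], [0, 2, 4, 5, 7, 8]] [(.mj 3 9, 311), (.mj 6 7, 1866), (.mj 7 3, 933), (.rw 7, 2)])
(.lp [[3], [1, 6, 9], [0, 2, 4, 5, 7, 8]] [(.mj 6 7, 4), (.mj 8 3, 3), (.mj 8 9, 1), (.hz 12 183, 962), (.hz 12 247, 248), (.hz 12 759, 727)])
(.lp [[3], [1, 6, 9], [0, 2, 4, 5, 7, 8]] [(.mj 6 7, 1), (.mj 9 3, 10), (.hz 12 55, 1344), (.hz 12 119, 2028), (.hz 12 183, 589), (.hz 12 247, 1328)])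
.fin))
(.lp [[3], [1, 6], [0, 2, 4, 5, 7, 8]] [(.mj 6 7, 1), (.mj 7 3, 1), (.hz 12 183, 250)])))
(.ask 247
(.ask 247
(.mark 247 [3, 8, 9]
(.spn
(.haz 9 503 7 40
(.lp [[3], [1, 6, 9], [0, 2, 4, 5, 7, 8]] [(.mj 3 8, 6), (.mj 7 3, 9), (.mj 8 9, 5), (.hz 16 503, 808), (.hz 12 759, 4217)])
(.lp [[3], [1, 6, 9], [0, 2, 4, 5, 7, 8]] [(.mj 3 8, 1), (.mj 7 3, 1), (.hz 16 247, 139)]))
(.lp [[3], [1, 6, 9], [0, 2, 4, 5, 7, 8]] [(.mj 8 3, 4), (.hz 12 55, 586), (.hz 12 119, 885), (.hz 12 183, 173), (.hz 12 247, 558)])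
(.con 9 8)
.fin))
(.spn
(.lp [[3], [1, 6], [0, 2, 4, 5, 7, 8]] [(.mj 3 8, 1), (.mj 7 3, 1)])
(.lp [[3], [1, 6], [0, 2, 4, 5, 7, 8]] [(.mj 8 3, 4), (.hz 12 55, 586), (.hz 12 119, 885), (.hz 12 183, 173), (.hz 12 247, 558)])
.fin
.fin))
(.lp [[3], [1, 6], [0, 2, 4, 5, 7]] [(.mj 7 3, 1)])))
.fin
.fin))
(.lp [[3], [1, 6], [0, 2, 4, 5, 7]] [(.mj 6 7, 10), (.mj 7 3, 8), (.hz 15 55, 1676), (.hz 12 119, 1042), (.hz 12 183, 2090)])))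
(.lp [[3], [1, 6], [0, 2, 4, 5, 7]] [(.mj 5 6, 31), (.mj 7 3, 20), (.hz 14 55, 2566), (.hz 12 119, 9028)]))
(.lp [[3], [1, 6], [0, 2, 4, 5, 7]] [(.mj 6 7, 8), (.mj 7 3, 7), (.hz 13 23, 1516), (.hz 13 55, 1658), (.hz 12 119, 1185), (.hz 12 183, 1740)])))
(.ask 183
(.mark 183 [3, 6, 8]
(.spn
(.lp [[3], [1, 6], [0, 2, 4, 5, 7, 8]] [(.mj 7 3, 149), (.rw 6, 1)])
(.lp [[3], [1, 6], [0, 2, 4, 5, 7, 8]] [(.mj 7 6, 496), (.rw 6, 1), (.hz 12 119, 284862)])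
(.cut 3 [(0, 1), (1, 1), (2, 1), (3, 1), (5, 1)]
(.cut 3 [(0, 1), (1, 1), (2, 1), (3, 1), (5, 1), (7, 1)]
(.cut 3 [(0, 1), (1, 1), (2, 1), (3, 1), (5, 1), (7, 1), (23, 1)]
(.cut 6 [(0, 1), (1, 1), (2, 1), (3, 1), (5, 1), (9, 1), (7, 1), (11, 1), (13, 1), (15, 1), (23, 1), (31, 1)]
(.cut 3 [(0, 1), (1, 1), (2, 1), (3, 1), (5, 1), (7, 1), (23, 1), (55, 1)]
(.cut 6 [(0, 1), (1, 1), (2, 1), (3, 1), (5, 1), (9, 1), (7, 1), (11, 1), (13, 1), (15, 1), (23, 1), (31, 1), (55, 1)]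
(.lp [[3], [1, 6], [0, 2, 4, 5, 7, 8]] [(.mj 8 3, 53880), (.mj 8 6, 3100), (.hz 12 55, 1194320), (.hz 12 183, 742879), (.hz 12 247, 8400244), (.rw 7, 54), (.rw 8, 20), (.rw 9, 59), (.rw 10, 1), (.rw 11, 24), (.rw 12, 10)])))))))
.fin))
(.lp [[3], [1, 6], [0, 2, 4, 5, 7]] [(.mj 7 6, 1), (.rw 5, 1)]))
.fin))
(.lp [[3], [1, 6], [0, 2, 4, 5]] [(.mj 5 6, 308), (.rw 4, 1), (.hz 12 119, 106487)]))
(.con 6 5)
.fin))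
(.spn
(.lp [[1], [3], [0, 2, 4, 5]] [(.mj 4 3, 1), (.rw 4, 1)])
(.ask 55
(.haz 4 15 33 40
(.ask 55
(.mark 55 [3, 6, 7]
(.spn
(.lp [[3], [1, 7], [0, 2, 4, 5, 6]] [(.rw 4, 1), (.rw 5, 3)])
(.ask 119
(.mark 119 [3, 7, 8]
(.spn
(.lp [[3], [1, 7], [0, 2, 4, 5, 6, 8]] [(.mj 6 3, 149), (.rw 6, 1)])
(.maj 3 8
(.cut 3 [(0, 1), (1, 1), (2, 1), (3, 1), (5, 1), (7, 1), (23, 1), (55, 1), (119, 1)]
(.lp [[3], [1, 7], [0, 2, 4, 5, 6, 8]] [(.mj 6 7, 261), (.mj 7 3, 372), (.hz 12 375, 81660), (.rw 7, 1)]))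
(.lp [[3], [1, 7], [0, 2, 4, 5, 6, 8]] [(.mj 6 7, 2), (.mj 7 8, 2), (.mj 8 3, 19), (.hz 12 55, 2555), (.hz 12 119, 755), (.hz 12 183, 1314), (.hz 12 247, 1776), (.hz 12 375, 530)]))
(.cut 3 [(0, 1), (1, 1), (2, 1), (3, 1), (5, 1), (7, 1), (23, 1), (55, 1), (119, 1)]
(.cut 7 [(0, 1), (1, 1), (2, 1), (3, 1), (5, 1), (9, 1), (7, 1), (11, 1), (13, 1), (15, 1), (23, 1), (31, 1), (55, 1), (63, 1)]
(.lp [[3], [1, 7], [0, 2, 4, 5, 6, 8]] [(.mj 8 3, 11280), (.hz 12 247, 783322), (.rw 7, 40), (.rw 8, 1)])))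
.fin))
(.lp [[3], [1, 7], [0, 2, 4, 5, 6]] [(.mj 6 7, 895), (.rw 5, 1)]))
(.con 7 6)
.fin))
(.spn
(.lp [[1], [3], [0, 2, 4, 5, 6]] [(.mj 5 3, 1), (.rw 5, 1)])
(.ask 119
(.maj 3 7
(.ask 119
(.mark 119 [3, 7, 8]
(.spn
(.lp [[3], [1, 8], [0, 2, 4, 5, 6, 7]] [(.rw 5, 1), (.rw 6, 3)])
(.con 7 3)
(.con 8 7)
.fin))
(.lp [[1], [3], [0, 2, 4, 5, 6, 7]] [(.mj 3 7, 1), (.mj 6 3, 1)]))
(.cut 3 [(0, 1), (1, 1), (2, 1), (3, 1), (5, 1), (7, 1), (23, 1), (55, 1)]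
(.lp [[1], [3], [0, 2, 4, 5, 6, 7]] [(.mj 7 3, 4570), (.rw 6, 16)])))
(.lp [[1], [3], [0, 2, 4, 5, 6]] [(.rw 5, 1)]))
.fin
.fin))
(.lp [[1], [3], [0, 2, 4, 5, 6]] [(.mj 5 3, 2), (.hz 13 7, 164), (.hz 12 55, 79)]))
(.lp [[1], [3], [0, 2, 4, 5]] [(.mj 5 3, 1)]))
.fin
.fin))
(.cut 3 [(0, 1), (2, 1)]
(.cut 3 [(0, 1), (1, 1), (2, 1), (3, 1), (5, 1), (7, 1)]
(.lp [[1], [3], [0, 2, 4, 5]] [(.hz 12 23, 5307841), (.rw 4, 5), (.rw 5, 80)]))))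
(.lp [[1], [3], [0, 2, 4]] [(.rw 3, 1)]))
.fin
.fin))
(.lp [[1], [3], [0, 2]] [(.mj 2 3, 1)])))
(.lp [[1], [3], [0, 2]] [(.mj 1 2, 1), (.hz 3 1, 37), (.hz 11 3, 2619), (.hz 3 3, 2095), (.hz 9 9, 15)]))
(.lp [[1], [3], [0, 2]] [(.mj 1 2, 1), (.hz 3 1, 37), (.hz 10 3, 105), (.hz 3 3, 838), (.hz 9 9, 15)]))

theorem run74 : run P3488 (leaf3 218 625) (cutRow P3488) [s73] t74 s74 = true := by
  decide +kernel

theorem bad74 : Bad P3488 s74 :=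
  run_sound (leaf3_sound P3488 rfl rfl) (cutRow_sound P3488) (
    List.forall_mem_cons.2 ⟨bad73, fun _ h => absurd h List.not_mem_nil⟩) t74 s74 run74

/-- the state above piece 168 of the tree -/
def s168 : St := ⟨[0, 0, 1, 3, 5, 15, 21, 31, 47, 159, 303], [447, 191, 63, 31, 23, 21, 15, 11, 7, 5, 3, 2, 1, 0], [0, 1, 2, 3, 4, 5, 7, 8, 9],
  [(5, 6), (4, 5)],
  [⟨true, 2, 3, 3, 10⟩, ⟨true, 1, 5, 2, 5⟩, ⟨true, 2, 3, 23, 50⟩, ⟨true, 1, 5, 12, 25⟩, ⟨true, 1, 21, 27, 50⟩, ⟨true, 4, 15, 9, 40⟩, ⟨true, 3, 23, 11, 20⟩, ⟨true, 4, 47, 7, 20⟩, ⟨true, 4, 47, 17, 40⟩, ⟨true, 4, 47, 9, 20⟩, ⟨true, 4, 47, 19, 40⟩, ⟨true, 3, 87, 27, 40⟩, ⟨true, 5, 95, 1, 4⟩, ⟨true, 5, 159, 1, 4⟩, ⟨true, 7, 127, 7, 40⟩, ⟨true, 7, 95, 1, 5⟩, ⟨true, 8, 127, 7, 40⟩, ⟨true, 4, 303, 1, 2⟩, ⟨true, 6, 447, 1, 20⟩],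
  [.spn 0 0 651200, .spn 1 1 302400, .spn 3 2 302400, .spn 7 3 302400, .spn 15 4 302400, .spn 31 5 140426, .spn 63 7 140426, .spn 191 8 140426, .spn 447 9 140426]⟩

/-- piece 168 of the tree -/
noncomputable def t168 : WN.Tree :=
(.haz 6 703 1 20
(.haz 8 127 3 10
(.haz 6 63 1 20
(.haz 7 1343 7 25
(.haz 7 1343 21 50
(.haz 9 1471 9 25
(.ask 671
(.mark 959 [6, 10, 11]
(.spn
(.haz 10 3007 4 25
(.lp [[6], [1, 3, 5, 8, 10], [0, 2, 4, 7, 9, 11]] [(.mj 6 10, 2203), (.mj 8 9, 3198), (.mj 9 6, 2586), (.rw 9, 2), (.hz 17 1327, 1197457), (.hz 21 1343, 1939451), (.hz 23 1343, 238371), (.hz 18 1471, 5333490), (.hz 24 1471, 1849303), (.hz 19 2751, 14635227), (.hz 25 3007, 6332901)])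
(.lp [[6], [1, 3, 5, 8, 10], [0, 2, 4, 7, 9, 11]] [(.mj 8 9, 955), (.mj 9 6, 578), (.rw 9, 1), (.hz 25 303, 77337), (.hz 25 319, 308612), (.hz 25 447, 723146), (.hz 25 959, 446252)]))
(.haz 10 3007 13 50
(.haz 10 3007 19 50
(.ref 0)
(.lp [[6], [1, 3, 5, 8, 10], [0, 2, 4, 7, 9, 11]] [(.mj 8 9, 405), (.mj 10 11, 238), (.rw 9, 1), (.hz 26 959, 2264579), (.hz 19 2751, 4653190), (.hz 18 3007, 2789370)]))
(.lp [[6], [1, 3, 5, 8, 10], [0, 2, 4, 7, 9, 11]] [(.mj 8 9, 304), (.mj 10 11, 257), (.rw 9, 1), (.hz 25 959, 2488431)]))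
(.ask 1327
(.mark 1471 [6, 9, 12]
(.cut 6 [(0, 1), (1, 1), (2, 1), (3, 1), (5, 1), (7, 1), (11, 1), (21, 1), (15, 1), (23, 1), (31, 1), (47, 1), (63, 1), (159, 1), (303, 1), (191, 1), (319, 1), (671, 1), (1327, 1), (447, 1), (703, 1), (1343, 1), (2719, 1), (5423, 1), (959, 1), (1471, 1), (2751, 1)]
(.cut 6 [(0, 1), (1, 1), (2, 1), (3, 1), (5, 1), (7, 1), (11, 1), (21, 1), (15, 1), (23, 1), (31, 1), (47, 1), (63, 1), (159, 1), (303, 1), (191, 1), (319, 1), (671, 1), (1327, 1), (447, 1), (703, 1), (1343, 1), (5423, 1), (1471, 1)]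
(.lp [[6], [0, 2, 4, 7, 9, 11], [1, 3, 5, 8, 10, 12]] [(.mj 8 9, 6071), (.mj 11 6, 4003), (.mj 11 10, 3989), (.hz 17 1327, 50087954), (.hz 23 1343, 12016), (.hz 23 1407, 4311589), (.hz 18 1471, 7533422), (.hz 24 1471, 4830806), (.hz 19 2751, 10717229), (.rw 10, 1), (.rw 11, 9)]))))
(.cut 6 [(0, 1), (1, 1), (2, 1), (3, 1), (5, 1), (7, 1), (11, 1), (21, 1), (15, 1), (23, 1), (31, 1), (47, 1), (63, 1), (159, 1), (303, 1), (191, 1), (319, 1), (671, 1), (1327, 1), (447, 1), (703, 1), (959, 1)]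
(.lp [[6], [1, 3, 5, 8, 10], [0, 2, 4, 7, 9, 11]] [(.mj 8 9, 743), (.mj 11 6, 499), (.mj 11 10, 427), (.hz 19 703, 996319), (.hz 23 1343, 51863), (.hz 23 1407, 334605), (.hz 24 1471, 499899), (.rw 10, 1)])))
.fin))
(.ask 703
(.ref 1)
(.ask 959
(.mark 959 [6, 10, 11]
(.spn
(.haz 10 3007 4 25
(.ask 3007
(.mark 3007 [6, 10, 12]
(.ask 7103
(.maj 10 12
(.mark 7103 [6, 10, 13]
(.ask 15295
(.mark 15295 [6, 10, 14]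
(.lp [[6], [1, 3, 5, 8, 10], [0, 2, 4, 7, 9, 11, 12, 13, 14]] [(.mj 6 10, 56), (.mj 6 11, 19), (.mj 9 6, 80), (.mj 10 12, 4), (.hz 17 1327, 187), (.hz 21 1343, 1082), (.hz 24 1471, 174), (.hz 25 3007, 119421), (.hz 25 3071, 308491), (.hz 25 7103, 72866), (.hz 25 7167, 16523), (.hz 25 15295, 86745), (.hz 25 31679, 103268)]))
(.lp [[6], [1, 3, 5, 8, 10], [0, 2, 4, 7, 9, 11, 12, 13]] [(.mj 6 10, 7), (.mj 9 6, 11), (.mj 10 12, 2), (.hz 25 3071, 48973), (.hz 25 7103, 3307), (.hz 25 7167, 8817), (.hz 25 15295, 3937)])))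
(.mark 7103 [6, 10, 13]
(.lp [[6], [1, 3, 5, 8, 10], [0, 2, 4, 7, 9, 11, 12, 13]] [(.mj 6 10, 53), (.mj 6 11, 32), (.mj 7 8, 11), (.mj 8 9, 34), (.mj 9 6, 93), (.mj 12 10, 13), (.hz 17 1327, 20757), (.hz 21 1343, 120389), (.hz 18 1471, 333622), (.hz 25 3007, 204099), (.hz 25 3071, 275933), (.hz 25 7103, 81614), (.hz 25 15295, 97159)])))
(.lp [[6], [1, 3, 5, 8, 10], [0, 2, 4, 7, 9, 11, 12]] [(.mj 6 10, 5), (.mj 9 6, 8), (.hz 25 3071, 55881)])))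
(.lp [[6], [1, 3, 5, 8, 10], [0, 2, 4, 7, 9, 11]] [(.mj 6 10, 5), (.mj 9 6, 8)]))
(.cut 10 [(0, 1), (1, 1), (2, 1), (3, 1), (5, 1), (7, 1), (11, 1), (21, 1), (15, 1), (23, 1), (85, 1), (31, 1), (47, 1), (87, 1), (63, 1), (95, 1), (159, 1), (303, 1), (127, 1), (191, 1), (223, 1), (319, 1), (671, 1), (255, 1), (447, 1), (703, 1), (735, 1), (767, 1), (959, 1)]
(.lp [[6], [1, 3, 5, 8, 10], [0, 2, 4, 7, 9, 11]] [(.mj 6 11, 23347), (.mj 8 9, 17644), (.mj 9 6, 25656), (.hz 25 303, 3446127), (.hz 25 319, 12973397), (.hz 25 447, 30793007), (.hz 21 1343, 16344075), (.hz 25 959, 43192131), (.hz 18 1471, 26921693), (.rw 10, 1)])))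
(.ask 1327
(.mark 1983 [6, 11, 12]
(.spn
(.lp [[6], [0, 2, 4, 7, 9, 11], [1, 3, 5, 8, 10, 12]] [(.mj 6 11, 832), (.mj 7 8, 4107), (.mj 10 6, 1886), (.rw 9, 1), (.rw 10, 4)])
(.cut 6 [(0, 1), (1, 1), (2, 1), (3, 1), (5, 1), (7, 1), (11, 1), (21, 1), (15, 1), (23, 1), (31, 1), (47, 1), (63, 1), (159, 1), (303, 1), (191, 1), (319, 1), (671, 1), (1327, 1), (447, 1), (703, 1), (1343, 1), (959, 1), (1471, 1), (1983, 1)]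
(.lp [[6], [0, 2, 4, 7, 9, 11], [1, 3, 5, 8, 10, 12]] [(.mj 7 8, 2862), (.mj 10 6, 2), (.mj 10 11, 636), (.mj 11 6, 1302), (.hz 17 5423, 15900391), (.hz 23 5439, 400765), (.rw 11, 4)]))
(.lp [[6], [0, 2, 4, 7, 9, 11], [1, 3, 5, 8, 10, 12]] [(.mj 7 8, 4441), (.mj 12 6, 2742), (.mj 12 11, 939), (.rw 9, 1), (.hz 21 319, 6866317), (.hz 18 447, 3137130), (.hz 21 1343, 3867589), (.hz 18 959, 3302242), (.hz 18 1471, 7373389), (.hz 21 5439, 2185690), (.hz 18 1983, 7888404), (.hz 18 3007, 17346855), (.hz 18 5567, 4108726)])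
.fin))
(.maj 6 11
(.cut 6 [(0, 1), (1, 1), (2, 1), (3, 1), (5, 1), (7, 1), (11, 1), (21, 1), (15, 1), (23, 1), (31, 1), (47, 1), (63, 1), (159, 1), (303, 1), (191, 1), (319, 1), (671, 1), (1327, 1), (447, 1), (703, 1), (959, 1)]
(.lp [[6], [1, 3, 5, 8, 10], [0, 2, 4, 7, 9, 11]] [(.mj 7 8, 4204), (.mj 10 6, 1862), (.mj 10 11, 357), (.hz 18 3007, 19657287), (.rw 10, 4)]))
(.cut 6 [(0, 1), (1, 1), (2, 1), (3, 1), (5, 1), (7, 1), (11, 1), (21, 1), (15, 1), (23, 1), (31, 1), (47, 1), (63, 1), (159, 1), (303, 1), (191, 1), (319, 1), (671, 1), (1327, 1), (447, 1), (703, 1), (1343, 2), (1471, 1)]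
(.cut 6 [(0, 1), (1, 1), (2, 1), (3, 1), (5, 1), (7, 1), (11, 1), (21, 1), (15, 1), (23, 1), (31, 1), (47, 1), (63, 1), (159, 1), (303, 1), (191, 1), (319, 1), (671, 1), (1327, 1), (703, 1)]
(.cut 6 [(0, 1), (1, 1), (2, 1), (3, 1), (5, 1), (7, 1), (11, 1), (21, 1), (15, 1), (23, 1), (31, 1), (47, 1), (63, 1), (159, 1), (303, 1), (191, 1), (319, 1), (671, 1), (1327, 1), (447, 1), (703, 1), (1343, 1), (959, 1)]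
(.lp [[6], [1, 3, 5, 8, 10], [0, 2, 4, 7, 9, 11]] [(.mj 7 8, 21035), (.mj 10 11, 4186), (.mj 11 6, 9995), (.hz 21 1343, 30052896), (.hz 18 1471, 26324855), (.hz 18 1983, 3096859), (.hz 18 3007, 18890778), (.rw 10, 3), (.rw 11, 12), (.rw 12, 8)]))))))
(.ask 3007
(.mark 3007 [6, 10, 12]
(.spn
(.lp [[6], [1, 3, 5, 8, 10], [0, 2, 4, 7, 9, 11, 12]] [(.mj 11 6, 84), (.rw 10, 1)])
(.lp [[6], [1, 3, 5, 8, 10], [0, 2, 4, 7, 9, 11, 12]] [(.mj 11 10, 639680), (.rw 10, 994), (.hz 21 1343, 1493990542), (.hz 18 1471, 4897276632), (.hz 18 1983, 11173074443)])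
(.haz 10 959 7 50
(.cut 6 [(0, 1), (1, 1), (2, 1), (3, 1), (5, 1), (7, 1), (11, 1), (21, 1), (15, 1), (23, 1), (31, 1), (47, 1), (63, 1), (159, 1), (303, 1), (191, 1), (319, 1), (671, 1), (1327, 1), (447, 1), (703, 1), (959, 1), (3007, 1)]
(.lp [[6], [1, 3, 5, 8, 10], [0, 2, 4, 7, 9, 11, 12]] [(.mj 8 9, 5408), (.mj 12 10, 10807), (.rw 10, 5), (.hz 17 1327, 86988184), (.hz 23 1407, 8908078), (.hz 25 959, 22483756), (.hz 25 1023, 34364207), (.hz 25 3007, 17799500), (.hz 25 3071, 60655473), (.rw 11, 24)]))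
(.cut 6 [(0, 1), (1, 1), (2, 1), (3, 1), (5, 1), (7, 1), (11, 1), (21, 1), (15, 1), (23, 1), (31, 1), (47, 1), (63, 1), (159, 1), (303, 1), (191, 1), (319, 1), (1327, 1), (447, 1)]
(.cut 10 [(0, 1), (1, 1), (2, 1), (3, 1), (5, 1), (7, 1), (11, 1), (21, 1), (15, 1), (23, 1), (85, 1), (31, 1), (47, 1), (87, 1), (63, 1), (95, 1), (159, 1), (303, 1), (127, 1), (191, 1), (223, 1), (319, 1), (671, 1), (255, 1), (383, 2), (447, 1), (703, 1), (735, 1), (511, 1), (767, 1), (959, 1), (1023, 1)]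
(.cut 10 [(0, 1), (1, 1), (2, 1), (3, 1), (5, 1), (7, 1), (11, 1), (21, 1), (15, 1), (23, 1), (85, 1), (31, 1), (47, 1), (87, 1), (63, 1), (95, 1), (159, 1), (303, 1), (127, 1), (191, 1), (223, 1), (319, 1), (671, 1), (255, 1), (383, 1), (447, 1), (703, 1), (735, 1), (511, 1), (767, 1), (959, 1), (1023, 1)]
(.cut 6 [(0, 1), (1, 1), (2, 1), (3, 1), (5, 1), (7, 1), (11, 1), (21, 1), (15, 1), (23, 1), (31, 1), (47, 1), (63, 1), (159, 1), (303, 1), (191, 1), (319, 1), (671, 1), (1327, 1), (447, 1), (703, 1), (1343, 1), (959, 1)]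
(.lp [[6], [1, 3, 5, 8, 10], [0, 2, 4, 7, 9, 11, 12]] [(.mj 0 1, 22445), (.mj 8 9, 119964), (.mj 12 6, 73861), (.mj 12 10, 6687), (.hz 25 303, 25036621), (.hz 25 319, 30072907), (.hz 24 1535, 441729622), (.hz 18 3007, 322096424), (.hz 18 4031, 406427949), (.rw 11, 124), (.rw 12, 3), (.rw 13, 6), (.rw 14, 64)]))))))
.fin))
(.lp [[6], [1, 3, 5, 8, 10], [0, 2, 4, 7, 9, 11]] [(.mj 11 10, 1), (.rw 9, 1)]))
.fin))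
(.spn
(.lp [[6], [0, 2, 4, 7, 9], [1, 3, 5, 8, 10]] [(.mj 6 10, 2), (.mj 9 6, 3)])
(.lp [[6], [0, 2, 4, 7, 9], [1, 3, 5, 8, 10]] [(.mj 9 10, 12), (.mj 10 6, 7), (.hz 21 1343, 22161), (.hz 18 1471, 75135)])
.fin
.fin))))
(.lp [[6], [0, 2, 4, 7, 9], [1, 3, 5, 8, 10]] [(.mj 7 8, 973), (.mj 9 10, 241), (.rw 8, 2), (.hz 24 447, 4459644), (.hz 21 1343, 2834537), (.hz 18 1471, 1225800)]))
(.lp [[6], [0, 2, 4, 7, 9], [1, 3, 5, 8, 10]] [(.mj 3 4, 2733), (.mj 7 8, 3070), (.rw 7, 2), (.hz 23 31, 71759), (.hz 23 63, 294461), (.hz 20 127, 4907680), (.hz 23 319, 1019908)]))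
(.lp [[6], [0, 2, 4, 7, 9], [1, 3, 5, 8, 10]] [(.mj 3 4, 1324), (.mj 7 8, 1159), (.rw 7, 1), (.hz 22 31, 65662), (.hz 22 63, 229818), (.hz 20 127, 1915149), (.hz 22 319, 949248)]))
(.lp [[6], [0, 2, 4, 7, 9], [1, 3, 5, 8, 10]] [(.mj 0 1, 512), (.mj 5 7, 7), (.mj 8 9, 11), (.hz 21 21, 6090), (.hz 21 23, 7826), (.hz 21 31, 5133), (.hz 21 63, 7472), (.hz 18 447, 1753), (.hz 19 703, 37763), (.hz 18 1471, 10118)]))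
(.lp [[6], [0, 2, 4, 7, 9], [1, 3, 5, 8, 10]] [(.mj 3 4, 46), (.mj 8 9, 4), (.hz 20 63, 29051), (.hz 15 127, 2122), (.hz 16 127, 2744), (.hz 17 1327, 54816), (.hz 19 703, 19229)]))
(.lp [[6], [0, 2, 4, 7, 9], [1, 3, 5, 8, 10]] [(.mj 0 1, 364), (.mj 5 7, 5), (.mj 8 9, 8), (.hz 19 21, 4332), (.hz 19 23, 5566), (.hz 19 31, 3539), (.hz 19 63, 4043), (.hz 19 159, 194), (.hz 19 191, 1334), (.hz 18 959, 25971), (.hz 18 1471, 6043)]))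

theorem run168 : run P3488 (leaf3 218 625) (cutRow P3488) [s166, s167] t168 s168 = true := by
  decide +kernel

theorem bad168 : Bad P3488 s168 :=
  run_sound (leaf3_sound P3488 rfl rfl) (cutRow_sound P3488) (
    List.forall_mem_cons.2 ⟨bad166, List.forall_mem_cons.2 ⟨bad167, fun _ h => absurd h List.not_mem_nil⟩⟩) t168 s168 run168

/-- the state above piece 135 of the tree -/
def s135 : St := ⟨[0, 0, 1, 3, 5, 11, 15, 21, 79], [159, 151, 149, 95, 31, 15, 11, 7, 5, 3, 2, 1, 0], [0, 1, 2, 3, 4, 6, 7],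
  [],
  [⟨true, 2, 3, 3, 10⟩, ⟨true, 1, 5, 2, 5⟩, ⟨true, 2, 3, 23, 50⟩, ⟨true, 1, 5, 12, 25⟩, ⟨true, 1, 21, 27, 50⟩, ⟨true, 4, 15, 9, 40⟩, ⟨true, 3, 23, 11, 20⟩, ⟨true, 4, 79, 7, 25⟩, ⟨true, 6, 63, 6, 25⟩, ⟨true, 4, 15, 17, 50⟩, ⟨true, 3, 151, 29, 50⟩, ⟨true, 5, 351, 1, 25⟩, ⟨true, 4, 335, 9, 25⟩, ⟨true, 7, 63, 1, 5⟩, ⟨true, 7, 351, 7, 25⟩, ⟨true, 5, 335, 1, 25⟩, ⟨true, 5, 479, 3, 50⟩, ⟨true, 4, 335, 2, 5⟩],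
  [.spn 0 0 651200, .spn 1 1 302400, .spn 3 2 302400, .spn 7 3 302400, .spn 15 4 140426, .spn 31 6 140426, .spn 95 7 140426]⟩

/-- piece 135 of the tree -/
noncomputable def t135 : WN.Tree :=
(.haz 4 335 9 20
(.ask 223
(.mark 223 [5, 8, 9]
(.spn
(.haz 8 735 1 10
(.haz 8 735 3 20
(.haz 5 351 1 10
(.haz 8 735 1 5
(.ask 735
(.haz 8 223 1 4
(.mark 735 [5, 8, 10]
(.lp [[5], [1, 3, 6, 8], [0, 2, 4, 7, 9, 10]] [(.mj 5 8, 14), (.mj 6 7, 12), (.mj 7 5, 14), (.hz 23 223, 35203), (.hz 23 255, 69710), (.hz 23 735, 46937), (.hz 23 1759, 62583)]))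
(.haz 5 351 3 20
(.ask 335
(.mark 991 [5, 10, 11]
(.lp [[5], [1, 3, 6, 8, 11], [0, 2, 4, 7, 9, 10]] [(.mj 5 8, 32), (.mj 5 9, 11), (.mj 6 7, 46), (.mj 7 5, 50), (.hz 23 79, 10859), (.hz 18 2383, 2355), (.hz 22 735, 253982), (.hz 24 2399, 81538), (.hz 24 2527, 24572), (.hz 22 1759, 12585)]))
(.ask 351
(.mark 991 [5, 10, 11]
(.lp [[5], [1, 3, 6, 8, 11], [0, 2, 4, 7, 9, 10]] [(.mj 5 8, 13), (.mj 5 9, 5), (.mj 6 7, 20), (.mj 7 5, 21), (.hz 23 95, 7240), (.hz 23 223, 2600), (.hz 22 735, 104349), (.hz 24 2399, 23224), (.hz 24 2527, 9751), (.hz 22 1759, 5522)]))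
(.lp [[5], [1, 3, 6, 8], [0, 2, 4, 7, 9, 10]] [(.mj 5 9, 5), (.mj 6 7, 11), (.mj 7 5, 9), (.hz 23 223, 60090), (.hz 22 735, 32104)])))
(.mark 735 [5, 8, 10]
(.lp [[5], [1, 3, 6, 8], [0, 2, 4, 7, 9, 10]] [(.mj 5 8, 40), (.mj 5 9, 19), (.mj 6 7, 18), (.hz 24 11, 1985), (.hz 24 15, 5313), (.hz 24 31, 10221), (.hz 24 79, 6251), (.hz 24 95, 67061), (.hz 23 95, 34316), (.hz 21 351, 77629), (.hz 22 735, 224619), (.hz 22 767, 23335), (.hz 22 1759, 140012)]))))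
(.lp [[5], [1, 3, 6, 8], [0, 2, 4, 7, 9]] [(.mj 0 1, 217), (.mj 5 8, 18), (.mj 6 7, 34), (.mj 7 5, 31), (.hz 21 351, 81393), (.hz 22 767, 51920)]))
(.lp [[5], [1, 3, 6, 8], [0, 2, 4, 7, 9]] [(.mj 5 9, 10), (.mj 6 7, 18), (.mj 7 5, 19), (.hz 22 79, 12926), (.hz 22 95, 32297), (.hz 22 223, 43823), (.hz 21 351, 28510), (.hz 20 735, 14691)]))
(.lp [[5], [1, 3, 6, 8], [0, 2, 4, 7, 9]] [(.mj 5 8, 3), (.mj 5 9, 2), (.hz 21 11, 296), (.hz 21 15, 773), (.hz 21 31, 7590), (.hz 21 79, 858), (.hz 20 735, 5961)]))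
(.lp [[5], [1, 3, 6, 8], [0, 2, 4, 7, 9]] [(.mj 3 4, 2), (.mj 5 9, 6), (.mj 6 7, 10), (.mj 7 5, 11), (.hz 20 79, 1890), (.hz 20 95, 5400), (.hz 20 223, 5950), (.hz 19 735, 17105)]))
(.lp [[5], [1, 3, 6, 8], [0, 2, 4, 7, 9]] [(.mj 5 9, 2), (.mj 6 7, 3), (.mj 7 5, 3), (.hz 19 79, 1041), (.hz 19 95, 2953), (.hz 19 223, 3194)]))
(.ask 335
(.mark 479 [5, 9, 10]
(.spn
(.haz 9 479 13 40
(.lp [[5], [0, 2, 4, 7, 9], [1, 3, 6, 8, 10]] [(.mj 5 9, 2009), (.mj 7 8, 1839), (.mj 8 5, 2009), (.rw 8, 1), (.hz 15 1359, 530521), (.hz 19 479, 750985), (.hz 11 1375, 2015979), (.hz 19 511, 878896), (.hz 19 1503, 2228629)])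
(.lp [[5], [0, 2, 4, 7, 9], [1, 3, 6, 8, 10]] [(.mj 7 8, 1556), (.mj 8 5, 903), (.rw 8, 1), (.hz 19 223, 515590), (.hz 19 479, 429402), (.hz 16 1503, 1923367)]))
(.ask 735
(.mark 991 [5, 10, 11]
(.spn
(.haz 11 1023 13 40
(.lp [[5], [1, 3, 6, 8, 10], [0, 2, 4, 7, 9, 11]] [(.mj 7 8, 352), (.mj 8 9, 2140), (.mj 9 5, 5044), (.rw 9, 14), (.hz 18 1359, 37392), (.hz 15 1359, 2401761), (.hz 11 1375, 11153362), (.hz 16 1503, 15953375), (.hz 19 1023, 10103239)])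
(.lp [[5], [1, 3, 6, 8, 10], [0, 2, 4, 7, 9, 11]] [(.mj 3 4, 6), (.mj 5 10, 8), (.mj 9 5, 10), (.hz 15 1359, 1828), (.hz 19 735, 3684), (.hz 19 991, 12139), (.hz 16 1503, 25035), (.hz 16 3039, 1268)]))
(.maj 5 11
(.cut 5 [(0, 1), (1, 1), (2, 1), (3, 1), (5, 1), (7, 1), (11, 1), (21, 1), (15, 1), (23, 1), (149, 1), (31, 1), (79, 1), (151, 1), (95, 1), (159, 1), (335, 1), (223, 1), (351, 1), (479, 1), (735, 1), (991, 1)]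
(.lp [[5], [1, 3, 6, 8, 10], [0, 2, 4, 7, 9, 11]] [(.mj 3 4, 91), (.mj 8 9, 412), (.mj 9 10, 706), (.mj 10 5, 652), (.hz 16 3039, 4121868), (.rw 10, 2)]))
(.cut 5 [(0, 1), (1, 1), (2, 1), (3, 1), (5, 1), (7, 1), (11, 1), (21, 1), (15, 1), (23, 1), (149, 1), (31, 1), (79, 1), (151, 1), (95, 1), (159, 1), (335, 1), (223, 1), (351, 1), (479, 1), (735, 1), (991, 1)]
(.lp [[5], [1, 3, 6, 8, 10], [0, 2, 4, 7, 9, 11]] [(.mj 7 8, 450), (.mj 8 9, 903), (.mj 9 10, 513), (.mj 10 5, 341), (.mj 10 11, 266), (.mj 11 5, 3963), (.hz 16 479, 2622804), (.hz 18 1391, 893566), (.hz 16 2015, 5367885), (.rw 10, 13)])))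
(.cut 5 [(0, 1), (1, 1), (2, 1), (3, 1), (5, 1), (7, 1), (11, 1), (21, 1), (15, 1), (23, 1), (149, 1), (31, 1), (79, 1), (151, 1), (95, 1), (159, 1), (335, 1), (223, 1), (351, 1), (1359, 2), (479, 1), (735, 1), (1375, 2), (991, 1), (1503, 2), (2015, 1)]
(.cut 5 [(0, 1), (1, 1), (2, 1), (3, 1), (5, 1), (7, 1), (11, 1), (21, 1), (15, 1), (23, 1), (149, 1), (31, 1), (79, 1), (151, 1), (95, 1), (159, 1), (335, 1), (223, 1), (351, 1), (479, 1)]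
(.cut 5 [(0, 1), (1, 1), (2, 1), (3, 1), (5, 1), (7, 1), (11, 1), (21, 1), (15, 1), (23, 1), (149, 1), (31, 1), (79, 1), (151, 1), (95, 1), (159, 1), (335, 1), (223, 1), (351, 1), (1359, 1), (479, 1), (735, 1), (991, 1)]
(.cut 10 [(0, 1), (1, 1), (2, 1), (3, 1), (5, 1), (7, 1), (11, 1), (21, 1), (15, 1), (23, 1), (43, 1), (149, 1), (31, 1), (47, 1), (79, 1), (151, 1), (63, 1), (95, 1), (111, 1), (159, 1), (335, 1), (127, 1), (191, 1), (223, 1), (351, 1), (367, 1), (255, 1), (383, 1), (479, 1), (735, 1), (511, 1), (767, 1), (991, 1), (2783, 1), (2815, 1)]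
(.lp [[5], [1, 3, 6, 8, 10], [0, 2, 4, 7, 9, 11]] [(.mj 7 8, 20954), (.mj 8 9, 95316), (.mj 11 5, 76422), (.mj 11 10, 43270), (.hz 18 1359, 12176621), (.hz 15 1359, 5894263), (.hz 16 1503, 38645777), (.rw 10, 9), (.rw 11, 218), (.rw 12, 28), (.rw 13, 13)])))))
.fin))
(.ask 991
(.mark 991 [5, 10, 11]
(.spn
(.haz 11 2015 3 8
(.lp [[5], [1, 3, 6, 8, 10], [0, 2, 4, 7, 9, 11]] [(.mj 5 10, 6066), (.mj 5 11, 30889), (.mj 7 8, 34088), (.mj 9 5, 50592), (.rw 9, 29), (.hz 16 1503, 189547236), (.hz 19 2015, 387870765)])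
(.lp [[5], [1, 3, 6, 8, 10], [0, 2, 4, 7, 9, 11]] [(.mj 5 10, 8), (.mj 9 5, 9), (.hz 19 991, 60726)]))
(.cut 5 [(0, 1), (1, 1), (2, 1), (3, 1), (5, 1), (7, 1), (11, 1), (21, 1), (15, 1), (23, 1), (149, 1), (31, 1), (79, 1), (151, 1), (95, 1), (159, 1), (335, 1), (223, 1), (351, 1), (1359, 1), (479, 1), (735, 1), (1375, 2), (991, 1), (1503, 1)]
(.cut 5 [(0, 1), (1, 1), (2, 1), (3, 1), (5, 1), (7, 1), (11, 1), (21, 1), (15, 1), (23, 1), (149, 1), (31, 1), (79, 1), (151, 1), (159, 1)]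
(.cut 5 [(0, 1), (1, 1), (2, 1), (3, 1), (5, 1), (7, 1), (11, 1), (21, 1), (15, 1), (23, 1), (149, 1), (31, 1), (79, 1), (151, 1), (95, 1), (159, 1)]
(.cut 5 [(0, 1), (1, 1), (2, 1), (3, 1), (5, 1), (7, 1), (11, 1), (21, 1), (15, 1), (23, 1), (149, 1), (31, 1), (79, 1), (151, 1), (95, 1), (159, 1), (223, 1)]
(.cut 5 [(0, 1), (1, 1), (2, 1), (3, 1), (5, 1), (7, 1), (11, 1), (21, 1), (15, 1), (23, 1), (149, 1), (31, 1), (79, 1), (151, 1), (95, 1), (159, 1), (223, 1), (735, 1)]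
(.lp [[5], [1, 3, 6, 8, 10], [0, 2, 4, 7, 9, 11]] [(.mj 7 8, 9580), (.mj 10 5, 9598), (.mj 10 11, 983), (.hz 16 1503, 4286872), (.hz 16 3039, 12491125), (.rw 10, 1), (.rw 11, 10), (.rw 12, 2), (.rw 13, 3), (.rw 14, 13)]))))))
(.cut 5 [(0, 1), (1, 1), (2, 1), (3, 1), (5, 1), (7, 1), (11, 1), (21, 1), (15, 1), (23, 1), (149, 1), (31, 1), (79, 1), (151, 1), (95, 1), (159, 1), (335, 1), (223, 1), (351, 1), (479, 1)]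
(.cut 5 [(0, 1), (1, 1), (2, 1), (3, 1), (5, 1), (7, 1), (11, 1), (21, 1), (15, 1), (23, 1), (149, 1), (31, 1), (79, 1), (151, 1), (95, 1), (159, 1), (335, 1), (223, 1), (351, 1), (1359, 1), (479, 1), (735, 1), (1375, 1)]
(.cut 5 [(0, 1), (1, 1), (2, 1), (3, 1), (5, 1), (7, 1), (11, 1), (21, 1), (15, 1), (23, 1), (149, 1), (31, 1), (79, 1), (151, 1), (95, 1), (159, 1), (223, 1), (735, 1)]
(.lp [[5], [1, 3, 6, 8, 10], [0, 2, 4, 7, 9, 11]] [(.mj 7 8, 1674), (.mj 11 5, 19637), (.hz 18 1359, 173987), (.hz 14 1375, 1347159), (.hz 18 1391, 6277150), (.hz 14 1407, 14065740), (.rw 10, 25), (.rw 11, 1), (.rw 12, 44)]))))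
.fin))
(.lp [[5], [0, 2, 4, 7, 9], [1, 3, 6, 8, 10]] [(.mj 9 5, 4), (.mj 9 10, 4), (.hz 16 1503, 27706)])))
(.cut 5 [(0, 1), (1, 1), (2, 1), (3, 1), (5, 1), (7, 1), (11, 1), (21, 1), (15, 1), (23, 1), (149, 1), (31, 1), (79, 1), (151, 1), (95, 1), (159, 1), (335, 1), (223, 1), (351, 1), (479, 1)]
(.lp [[5], [0, 2, 4, 7, 9], [1, 3, 6, 8, 10]] [(.mj 7 8, 592), (.mj 10 5, 361), (.mj 10 9, 361), (.hz 15 335, 31383), (.rw 9, 1)]))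
.fin))
(.ref 0))
(.ask 735
(.mark 735 [5, 8, 10]
(.spn
(.lp [[5], [1, 3, 6, 8], [0, 2, 4, 7, 9, 10]] [(.mj 9 5, 298), (.rw 8, 1)])
(.cut 5 [(0, 1), (1, 1), (2, 1), (3, 1), (5, 1), (7, 1), (11, 1), (21, 1), (15, 1), (23, 1), (149, 1), (31, 1), (79, 1), (151, 1), (95, 1), (159, 1)]
(.lp [[5], [1, 3, 6, 8], [0, 2, 4, 7, 9, 10]] [(.mj 6 7, 22753), (.mj 9 8, 9090), (.rw 7, 7), (.rw 8, 19), (.hz 18 367, 1684184), (.hz 16 479, 22004126), (.rw 9, 22)]))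
(.maj 5 8
(.cut 5 [(0, 1), (1, 1), (2, 1), (3, 1), (5, 1), (7, 1), (11, 1), (21, 1), (15, 1), (23, 1), (149, 1), (31, 1), (79, 1), (151, 1), (95, 1), (159, 1), (223, 1)]
(.lp [[5], [1, 3, 6, 8], [0, 2, 4, 7, 9, 10]] [(.mj 6 7, 17105), (.mj 10 5, 2035), (.rw 8, 4), (.hz 18 335, 706567), (.hz 14 351, 4562405), (.rw 9, 22)]))
(.cut 5 [(0, 1), (1, 1), (2, 1), (3, 1), (5, 1), (7, 1), (11, 1), (21, 1), (15, 1), (23, 1), (149, 1), (31, 1), (79, 1), (151, 1), (95, 1), (159, 1), (223, 1)]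
(.cut 8 [(0, 1), (1, 1), (2, 1), (3, 1), (5, 1), (7, 1), (11, 1), (21, 1), (15, 1), (23, 1), (149, 1), (31, 1), (79, 1), (151, 1), (95, 1), (159, 1), (223, 1)]
(.lp [[5], [1, 3, 6, 8], [0, 2, 4, 7, 9, 10]] [(.mj 6 7, 21591), (.mj 10 5, 8026), (.mj 10 8, 8026), (.rw 8, 2), (.hz 18 367, 6054560), (.hz 14 383, 29493341), (.rw 9, 28), (.rw 10, 14)]))))
.fin))
(.lp [[5], [1, 3, 6, 8], [0, 2, 4, 7, 9]] [(.mj 9 8, 1), (.rw 7, 1)]))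
.fin))
(.spn
(.lp [[5], [0, 2, 4, 7], [1, 3, 6, 8]] [(.mj 5 8, 3), (.mj 6 5, 1), (.mj 7 5, 4)])
(.cut 5 [(0, 1), (1, 1), (2, 1), (3, 1), (5, 1), (7, 1), (11, 1), (21, 1), (15, 1), (23, 1), (149, 1), (31, 1), (79, 1), (151, 1), (95, 1), (159, 1), (223, 1)]
(.lp [[5], [0, 2, 4, 7], [1, 3, 6, 8]] [(.mj 7 8, 5414), (.mj 8 5, 2189), (.rw 8, 5)]))
.fin
.fin))
(.lp [[5], [0, 2, 4, 7], [1, 3, 6, 8]] [(.mj 0 1, 332), (.mj 4 6, 12), (.mj 6 7, 16), (.mj 7 8, 7), (.hz 18 79, 18438), (.hz 8 63, 6232), (.hz 17 335, 44977), (.hz 15 335, 2115), (.hz 11 351, 7401)]))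

theorem run135 : run P3488 (leaf3 218 625) (cutRow P3488) [s134] t135 s135 = true := by
  decide +kernel

theorem bad135 : Bad P3488 s135 :=
  run_sound (leaf3_sound P3488 rfl rfl) (cutRow_sound P3488) (
    List.forall_mem_cons.2 ⟨bad134, fun _ h => absurd h List.not_mem_nil⟩) t135 s135 run135

/-- the state above piece 69 of the tree -/
def s69 : St := ⟨[0, 0, 1, 1, 3, 5, 19], [7, 3, 2, 1, 0], [0, 1, 2, 4],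
  [],
  [⟨true, 1, 9, 7, 50⟩, ⟨true, 2, 11, 3, 50⟩, ⟨true, 2, 9, 9, 50⟩, ⟨false, 3, 3, 1, 5⟩, ⟨true, 2, 3, 1, 4⟩, ⟨true, 1, 9, 3, 10⟩, ⟨true, 2, 9, 3, 10⟩, ⟨true, 1, 9, 7, 20⟩, ⟨true, 1, 5, 7, 20⟩, ⟨true, 3, 37, 1, 20⟩],
  [.spn 0 0 651200, .spn 1 1 140426, .spn 3 2 140426, .spn 7 4 140426]⟩

/-- piece 69 of the tree -/
noncomputable def t69 : WN.Tree :=
(.mark 23 [3, 5, 6]
(.spn
(.haz 5 87 1 10
(.haz 3 39 1 10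
(.haz 6 27 4 25
(.haz 5 23 11 50
(.haz 3 39 7 50
(.haz 5 23 6 25
(.haz 6 31 17 50
(.maj 5 6
(.lp [[3], [0, 2, 5], [1, 4, 6]] [(.mj 2 4, 9211), (.mj 3 5, 20264), (.mj 4 3, 23027), (.mj 5 6, 13677), (.rw 3, 1), (.rw 4, 1), (.hz 8 37, 143919), (.hz 9 37, 719593), (.hz 14 39, 1151349), (.hz 4 83, 173588), (.hz 16 31, 3932230), (.hz 15 87, 3546156)])
(.lp [[3], [0, 2, 5], [1, 4, 6]] [(.mj 2 4, 4), (.mj 3 6, 5), (.mj 4 3, 9), (.mj 6 5, 7), (.hz 8 37, 64), (.hz 9 37, 678), (.hz 14 39, 829), (.hz 15 31, 3543), (.hz 16 31, 10), (.hz 15 87, 1102)]))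
(.lp [[3], [0, 2, 5], [1, 4, 6]] [(.mj 2 4, 156), (.mj 3 5, 181), (.mj 4 3, 220), (.hz 16 19, 1460), (.hz 9 37, 8469), (.hz 16 23, 7500), (.hz 14 39, 3629), (.hz 12 27, 12712), (.hz 15 31, 19841), (.hz 15 87, 31625)]))
(.lp [[3], [0, 2, 5], [1, 4, 6]] [(.mj 2 4, 21), (.mj 3 6, 10), (.mj 4 3, 22), (.hz 15 5, 615), (.hz 15 7, 1530), (.hz 15 23, 2389), (.hz 14 39, 1385), (.hz 12 27, 3000), (.hz 13 87, 1145)]))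
(.lp [[3], [0, 2, 5], [1, 4, 6]] [(.mj 2 4, 6), (.mj 3 5, 12), (.mj 3 6, 4), (.hz 14 1, 112), (.hz 14 3, 241), (.hz 14 5, 130), (.hz 14 7, 883), (.hz 13 23, 183), (.hz 11 39, 2030), (.hz 12 27, 311), (.hz 13 87, 1432)]))
(.lp [[3], [0, 2, 5], [1, 4, 6]] [(.mj 2 4, 91), (.mj 3 6, 50), (.mj 4 3, 97), (.hz 13 5, 1332), (.hz 13 7, 3590), (.hz 13 23, 5149), (.hz 11 39, 30534), (.hz 12 27, 13180), (.hz 10 87, 28279)]))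
(.lp [[3], [0, 2, 5], [1, 4, 6]] [(.mj 2 4, 15), (.mj 3 5, 61), (.mj 4 3, 115), (.hz 12 19, 13258), (.hz 9 37, 3645), (.hz 11 39, 64156), (.hz 10 87, 28589), (.hz 11 119, 21358)]))
(.lp [[3], [0, 2, 5], [1, 4, 6]] [(.mj 2 4, 1), (.mj 3 5, 6), (.mj 3 6, 4), (.hz 11 1, 302), (.hz 11 3, 988), (.hz 11 5, 336), (.hz 11 7, 2789), (.hz 9 37, 41), (.hz 9 39, 976), (.hz 10 87, 4927)]))
(.lp [[3], [0, 2, 5], [1, 4, 6]] [(.mj 2 4, 2), (.mj 3 6, 1), (.mj 4 3, 2), (.hz 10 5, 146), (.hz 10 7, 453), (.hz 10 23, 478)]))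
(.haz 3 3 3 20
(.lp [[3], [0, 2, 5], [1, 4, 6]] [(.mj 4 5, 2), (.mj 5 3, 6), (.hz 10 3, 326), (.hz 10 7, 600), (.hz 10 19, 275), (.hz 8 37, 88), (.hz 10 23, 811), (.hz 10 39, 838), (.hz 10 83, 564), (.hz 10 87, 573), (.hz 6 91, 1366)])
(.haz 1 9 2 5
(.ask 37
(.ref 0)
(.haz 3 87 1 20
(.haz 3 119 3 40
(.ask 39
(.mark 55 [3, 6, 7]
(.spn
(.haz 6 55 3 10
(.lp [[3], [1, 4, 6], [0, 2, 5, 7]] [(.mj 3 6, 1667), (.mj 4 5, 1492), (.mj 5 3, 1667), (.rw 5, 1), (.hz 14 55, 531441), (.hz 9 167, 438754), (.hz 14 63, 937837), (.hz 14 183, 1354653)])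
(.lp [[3], [1, 4, 6], [0, 2, 5, 7]] [(.mj 4 5, 1351), (.mj 5 3, 816), (.rw 5, 1), (.hz 14 19, 119252), (.hz 14 23, 315725), (.hz 14 55, 240431), (.hz 12 87, 234594), (.hz 9 167, 695496)]))
(.haz 6 183 11 40
(.ask 83
(.mark 119 [3, 7, 8]
(.spn
(.lp [[3], [0, 2, 5, 7], [1, 4, 6, 8]] [(.mj 3 7, 6768), (.mj 4 5, 2612), (.mj 5 6, 13489), (.mj 6 3, 10389), (.rw 6, 13), (.hz 9 167, 2522824), (.hz 9 183, 5771060), (.hz 14 183, 733366), (.hz 13 375, 6967188)])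
(.maj 3 8
(.cut 3 [(0, 1), (1, 1), (2, 1), (3, 1), (5, 1), (7, 1), (19, 1), (37, 1), (23, 1), (39, 1), (83, 1), (55, 1), (87, 1), (119, 1)]
(.lp [[3], [0, 2, 5, 7], [1, 4, 6, 8]] [(.mj 4 5, 25), (.mj 5 6, 314), (.mj 6 7, 509), (.mj 7 3, 314), (.hz 13 375, 568606), (.rw 7, 1)]))
(.cut 3 [(0, 1), (1, 1), (2, 1), (3, 1), (5, 1), (7, 1), (19, 1), (37, 1), (23, 1), (39, 1), (83, 1), (55, 1), (87, 1), (119, 1)]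
(.lp [[3], [0, 2, 5, 7], [1, 4, 6, 8]] [(.mj 4 5, 728), (.mj 5 6, 791), (.mj 6 7, 175), (.mj 8 3, 623), (.hz 6 347, 96606), (.hz 13 247, 315363), (.rw 7, 2)])))
(.lp [[3], [0, 2, 5, 7], [1, 4, 6, 8]] [(.mj 4 5, 6), (.mj 5 6, 14), (.mj 8 3, 14), (.mj 8 7, 5), (.hz 9 37, 575), (.hz 9 167, 6362), (.hz 13 119, 11270), (.hz 9 183, 15363), (.hz 14 183, 1625), (.hz 13 247, 13524), (.hz 13 375, 8608)])
.fin))
(.ask 87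
(.mark 119 [3, 7, 8]
(.spn
(.haz 8 247 1 4
(.lp [[3], [0, 2, 5, 7], [1, 4, 6, 8]] [(.mj 3 7, 409), (.mj 4 5, 264), (.mj 5 6, 1025), (.mj 6 3, 760), (.rw 6, 1), (.hz 9 167, 218816), (.hz 9 183, 465680), (.hz 14 183, 77434), (.hz 15 247, 1469227), (.hz 13 375, 434411)])
(.lp [[3], [0, 2, 5, 7], [1, 4, 6, 8]] [(.mj 3 7, 4), (.mj 5 6, 3), (.mj 6 3, 4), (.hz 15 87, 1657), (.hz 15 119, 8835)]))
(.maj 3 8
(.cut 3 [(0, 1), (1, 1), (2, 1), (3, 1), (5, 1), (7, 1), (19, 1), (37, 1), (23, 1), (39, 1), (83, 1), (55, 1), (87, 1), (119, 1)]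
(.lp [[3], [0, 2, 5, 7], [1, 4, 6, 8]] [(.mj 4 5, 406), (.mj 5 6, 272), (.mj 6 7, 264), (.mj 7 3, 352), (.hz 12 343, 349062), (.hz 13 375, 438051), (.rw 7, 1)]))
(.cut 3 [(0, 1), (1, 1), (2, 1), (3, 1), (5, 1), (7, 1), (19, 1), (37, 1), (23, 1), (39, 1), (83, 1), (55, 1), (87, 1), (119, 1)]
(.lp [[3], [0, 2, 5, 7], [1, 4, 6, 8]] [(.mj 4 5, 844), (.mj 5 6, 590), (.mj 7 3, 96), (.mj 7 8, 14), (.mj 8 3, 492), (.hz 13 247, 168681), (.rw 7, 2)])))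
(.lp [[3], [0, 2, 5, 7], [1, 4, 6, 8]] [(.mj 4 5, 20), (.mj 5 6, 48), (.mj 8 3, 46), (.mj 8 7, 17), (.hz 9 37, 1961), (.hz 9 167, 21331), (.hz 13 119, 38769), (.hz 9 183, 51319), (.hz 14 183, 5567), (.hz 13 247, 44952), (.hz 13 375, 24443)])
.fin))
(.ask 119
(.mark 119 [3, 7, 8]
(.spn
(.haz 7 375 7 40
(.ask 375
(.mark 375 [3, 7, 9]
(.lp [[3], [0, 2, 5, 7], [1, 4, 6, 8, 9]] [(.mj 3 7, 80), (.mj 3 8, 41), (.mj 5 6, 17), (.mj 6 3, 111), (.hz 9 167, 25152), (.hz 9 183, 35744), (.hz 15 375, 35252), (.hz 15 383, 20012), (.hz 15 887, 20012)]))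
(.lp [[3], [0, 2, 5, 7], [1, 4, 6, 8]] [(.mj 3 7, 2), (.mj 6 3, 3)]))
(.lp [[3], [0, 2, 5, 7], [1, 4, 6, 8]] [(.mj 3 8, 35), (.mj 5 6, 25), (.mj 6 3, 37), (.hz 15 39, 2411), (.hz 15 55, 6286), (.hz 9 167, 5150), (.hz 15 119, 8142), (.hz 13 247, 7484)]))
(.cut 3 [(0, 1), (1, 1), (2, 1), (3, 1), (5, 1), (7, 1), (19, 1), (37, 1), (23, 1), (39, 1), (83, 1), (55, 1), (87, 1), (119, 1)]
(.lp [[3], [0, 2, 5, 7], [1, 4, 6, 8]] [(.mj 4 5, 1455), (.mj 7 3, 602), (.mj 7 8, 190), (.hz 13 375, 162724), (.rw 7, 2)]))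
(.cut 3 [(0, 1), (1, 1), (2, 1), (3, 1), (5, 1), (7, 1), (19, 1), (37, 1), (23, 1), (39, 1), (83, 1), (55, 1), (87, 1), (119, 1)]
(.cut 3 [(0, 1), (1, 1), (2, 1), (3, 1), (5, 1), (7, 1), (37, 1), (39, 1), (167, 1)]
(.cut 7 [(0, 1), (1, 1), (2, 1), (3, 1), (5, 1), (9, 1), (7, 1), (11, 1), (13, 1), (19, 1), (37, 1), (15, 1), (23, 1), (27, 1), (39, 1), (45, 1), (83, 1), (31, 1), (47, 1), (55, 1), (87, 1), (91, 1), (63, 1), (95, 1), (119, 1), (127, 1)]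
(.lp [[3], [0, 2, 5, 7], [1, 4, 6, 8]] [(.mj 4 5, 170169), (.mj 5 6, 145113), (.mj 8 3, 419298), (.hz 9 183, 10643710), (.hz 13 247, 141063167), (.rw 7, 1435), (.rw 8, 40), (.rw 9, 26)]))))
.fin))
(.lp [[3], [1, 4, 6], [0, 2, 5, 7]] [(.mj 4 5, 11), (.mj 5 6, 5), (.mj 6 3, 18), (.mj 6 7, 17), (.hz 6 91, 75), (.hz 13 247, 26667)]))))
(.lp [[3], [1, 4, 6], [0, 2, 5, 7]] [(.mj 4 5, 341), (.mj 6 7, 288), (.rw 5, 1), (.hz 14 55, 367941)]))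
(.cut 3 [(0, 1), (1, 1), (2, 1), (3, 1), (5, 1), (7, 1), (19, 1), (23, 1)]
(.cut 3 [(0, 1), (1, 1), (2, 1), (3, 1), (5, 1), (7, 1), (19, 1), (37, 1), (23, 1), (39, 1), (55, 1)]
(.lp [[3], [1, 4, 6], [0, 2, 5, 7]] [(.mj 4 5, 9943), (.mj 7 3, 6204), (.mj 7 6, 6204), (.hz 9 37, 347009), (.hz 6 91, 1661823), (.rw 6, 12), (.rw 7, 4)])))
.fin))
(.ref 1))
(.cut 3 [(0, 1), (1, 1), (2, 1), (5, 1), (37, 1)]
(.cut 3 [(0, 1), (1, 1), (2, 1), (3, 1), (5, 1), (7, 1), (37, 1)]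
(.cut 3 [(0, 1), (1, 1), (2, 1), (3, 1), (5, 1), (7, 1), (19, 1), (23, 1)]
(.lp [[3], [0, 2, 5], [1, 4, 6]] [(.mj 2 4, 276), (.mj 4 5, 270), (.hz 13 37, 447681), (.hz 13 39, 1682716), (.hz 13 83, 1067880), (.hz 13 55, 2496955), (.hz 13 87, 2496955), (.rw 5, 2), (.rw 6, 2), (.rw 7, 21)])))))
(.cut 3 [(0, 1), (1, 1), (2, 1), (5, 1), (37, 1)]
(.lp [[3], [0, 2, 5], [1, 4, 6]] [(.hz 12 1, 49617), (.hz 12 3, 49617), (.rw 5, 1)]))))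
(.lp [[3], [0, 2, 5], [1, 4, 6]] [(.mj 1 2, 22), (.hz 11 1, 3681), (.hz 10 1, 476), (.hz 6 9, 1360)])))
(.haz 4 39 1 4
(.haz 5 23 1 4
(.cut 3 [(0, 1), (1, 1), (2, 1), (3, 1), (5, 1), (7, 1)]
(.lp [[3], [0, 2, 5], [1, 4, 6]] [(.mj 2 4, 14916), (.mj 6 3, 9968), (.mj 6 5, 9968), (.hz 11 23, 6215191), (.hz 7 45, 510097), (.hz 11 31, 39828291), (.hz 10 47, 2224035), (.hz 11 87, 103480), (.hz 9 119, 413918), (.rw 5, 22)]))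
(.ask 37
(.mark 55 [3, 6, 7]
(.cut 3 [(0, 1), (1, 1), (2, 1), (3, 1), (5, 1), (7, 1), (37, 1), (39, 1)]
(.cut 3 [(0, 1), (1, 1), (2, 1), (3, 1), (5, 1), (7, 1), (19, 1), (37, 1), (23, 1), (39, 1), (165, 1), (55, 1)]
(.lp [[3], [1, 4, 6], [0, 2, 5, 7]] [(.mj 2 4, 12325), (.mj 6 3, 7140), (.mj 6 5, 1102), (.hz 11 5, 2317037), (.hz 11 7, 1012724), (.hz 7 13, 88326), (.hz 11 23, 2190997), (.hz 10 175, 7162124), (.rw 5, 11), (.rw 6, 4)]))))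
(.cut 3 [(0, 1), (1, 1), (2, 1), (3, 1), (5, 1), (7, 1)]
(.cut 3 [(0, 1), (1, 1), (2, 1), (3, 1), (5, 1), (7, 1), (19, 1), (37, 1), (23, 1)]
(.lp [[3], [0, 2, 5], [1, 4, 6]] [(.mj 2 4, 1717), (.mj 6 3, 973), (.mj 6 5, 496), (.hz 11 7, 301849), (.hz 10 39, 135740), (.hz 10 47, 2132312), (.rw 5, 1), (.rw 6, 1)])))))
(.lp [[3], [0, 2, 5], [1, 4, 6]] [(.mj 6 3, 657), (.mj 6 5, 738), (.rw 3, 1), (.hz 3 3, 81231), (.hz 10 3, 934161)]))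
.fin))

theorem run69 : run P3488 (leaf3 218 625) (cutRow P3488) [s66, s65] t69 s69 = true := by
  decide +kernel

theorem bad69 : Bad P3488 s69 :=
  run_sound (leaf3_sound P3488 rfl rfl) (cutRow_sound P3488) (
    List.forall_mem_cons.2 ⟨bad66, List.forall_mem_cons.2 ⟨bad65, fun _ h => absurd h List.not_mem_nil⟩⟩) t69 s69 run69

end Pool.Agent.WN.Data
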