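import Pool.Agent.WN.CutRow
import Pool.Agent.WN.LeafRow
import Pool.Agent.Helper99.WN.ParDef
import Pool.Agent.WN.Data.D5
import Pool.Agent.WN.Data.D9
import Pool.Agent.WN.Data.D11
import Pool.Agent.WN.Data.D14
import Pool.Agent.WN.Data.D16
import Pool.Agent.WN.Data.D17
import Pool.Agent.WN.Data.D18
import Pool.Agent.WN.Data.D23

/-!
# The search tree, part 28
-/

set_option autoImplicit false

namespace Pool.Agent.WN.Data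

open Pool.Agent.W3 Pool.Agent.WN Pool.Agent.Helper99.WN

/-- the state above piece 120 of the tree -/
def s120 : St := ⟨[0, 0, 1, 3, 5, 7, 15, 31, 95], [79, 31, 23, 21, 15, 11, 7, 5, 3, 2, 1, 0], [0, 1, 2, 3, 4, 6],
  [],
  [⟨true, 2, 3, 3, 10⟩, ⟨true, 1, 5, 2, 5⟩, ⟨true, 2, 3, 23, 50⟩, ⟨true, 1, 5, 12, 25⟩, ⟨true, 4, 39, 4, 25⟩, ⟨true, 4, 39, 9, 50⟩, ⟨true, 4, 15, 4, 25⟩, ⟨true, 4, 15, 9, 50⟩, ⟨true, 1, 21, 29, 50⟩, ⟨true, 3, 39, 6, 25⟩, ⟨true, 3, 39, 3, 10⟩, ⟨true, 4, 39, 6, 25⟩, ⟨true, 3, 39, 17, 50⟩, ⟨true, 3, 39, 19, 50⟩, ⟨true, 3, 39, 2, 5⟩, ⟨true, 3, 23, 2, 5⟩, ⟨true, 4, 79, 6, 25⟩, ⟨true, 4, 39, 7, 25⟩, ⟨true, 3, 55, 3, 5⟩, ⟨true, 5, 159, 1, 20⟩, ⟨true, 3, 55, 7, 10⟩, ⟨false, 5, 15, 7, 40⟩, ⟨true, 3, 39, 9, 20⟩, ⟨true, 6, 159, 1, 5⟩, ⟨true, 6, 159, 11, 40⟩, ⟨true, 6, 159, 13, 40⟩],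
  [.spn 0 0 651200, .spn 1 1 302400, .spn 3 2 302400, .spn 7 3 140426, .spn 15 4 140426, .spn 31 6 140426]⟩

/-- piece 120 of the tree -/
noncomputable def t120 : WN.Tree :=
(.mark 95 [5, 7, 8]
(.spn
(.haz 7 95 13 40
(.lp [[5], [0, 2, 4, 7], [1, 3, 6, 8]] [(.mj 0 1, 42), (.mj 5 7, 8), (.mj 5 8, 3), (.mj 6 5, 10), (.hz 26 95, 325), (.hz 26 127, 2213), (.hz 26 351, 2809)])
(.haz 6 63 9 20
(.haz 5 159 1 10
(.haz 7 351 7 40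
(.ask 351
(.haz 9 383 11 40
(.maj 7 9
(.ask 39
(.mark 383 [7, 9, 10]
(.lp [[5, 10], [0, 2, 4, 7], [1, 3, 6, 8, 9]] [(.mj 0 1, 31107), (.mj 5 7, 1147), (.mj 5 8, 244), (.mj 6 5, 1370), (.mj 7 9, 71), (.hz 22 1063, 20754), (.hz 28 159, 621082), (.hz 25 159, 91568), (.hz 20 1079, 988057), (.hz 27 1087, 645275), (.hz 29 351, 194505), (.hz 29 863, 323039), (.hz 29 1407, 13325), (.hz 30 1407, 205066)]))
(.haz 7 95 1 4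
(.mark 351 [5, 7, 9]
(.lp [[5], [0, 2, 4, 7], [1, 3, 6, 8, 9]] [(.mj 0 1, 120), (.mj 5 7, 19), (.mj 5 8, 5), (.mj 6 5, 25), (.hz 31 95, 8345), (.hz 31 127, 66181), (.hz 31 351, 47999), (.hz 31 863, 41078)]))
(.haz 8 223 19 40
(.lp [[5], [0, 2, 4, 7], [1, 3, 6, 8, 9]] [(.mj 0 1, 975), (.mj 5 8, 35), (.mj 6 5, 57), (.hz 31 31, 78228), (.hz 20 55, 22903), (.hz 31 95, 16861), (.hz 28 159, 32199), (.hz 32 223, 12612)])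
(.lp [[5], [0, 2, 4, 7], [1, 3, 6, 8, 9]] [(.mj 0 1, 28), (.mj 6 5, 3), (.hz 31 31, 1641), (.hz 31 95, 7989), (.hz 32 95, 799), (.hz 28 159, 3412)]))))
(.lp [[5], [0, 2, 4, 7], [1, 3, 6, 8, 9]] [(.mj 0 1, 202), (.mj 5 8, 4), (.mj 6 5, 13), (.mj 9 7, 7), (.hz 20 55, 5208), (.hz 28 159, 27024), (.hz 27 191, 10597), (.hz 29 351, 3510), (.hz 28 479, 27013)]))
(.mark 351 [5, 7, 9]
(.lp [[5], [0, 2, 4, 7], [1, 3, 6, 8, 9]] [(.mj 0 1, 328), (.mj 5 7, 19), (.mj 5 8, 2), (.mj 6 5, 41), (.hz 20 55, 939), (.hz 28 159, 43919), (.hz 30 351, 4141), (.hz 29 383, 4144), (.hz 29 863, 4161)])))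
(.lp [[5], [0, 2, 4, 7], [1, 3, 6, 8]] [(.mj 0 1, 11), (.mj 5 7, 1), (.mj 6 5, 2), (.hz 28 159, 1520), (.hz 29 383, 183)]))
(.lp [[5], [0, 2, 4, 7], [1, 3, 6, 8]] [(.mj 0 1, 1831), (.mj 5 8, 65), (.mj 6 5, 102), (.hz 29 31, 13037), (.hz 20 55, 45050), (.hz 29 95, 14186), (.hz 28 159, 57235)]))
(.lp [[5], [0, 2, 4, 7], [1, 3, 6, 8]] [(.mj 0 1, 84381), (.rw 6, 2), (.hz 28 7, 240343), (.hz 28 23, 2300426), (.hz 26 31, 343347)]))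
(.lp [[5], [0, 2, 4, 7], [1, 3, 6, 8]] [(.mj 3 4, 1), (.mj 6 5, 2), (.hz 27 31, 1425), (.hz 26 31, 599), (.hz 19 159, 578)])))
(.haz 6 63 7 20
(.ask 159
(.mark 223 [5, 8, 9]
(.spn
(.haz 8 127 1 4
(.haz 9 255 11 40
(.haz 8 223 11 40
(.lp [[5], [1, 3, 6, 8], [0, 2, 4, 7, 9]] [(.mj 5 8, 3731), (.mj 5 9, 321), (.mj 6 7, 3410), (.mj 7 5, 3731), (.rw 7, 2), (.hz 27 127, 10882499), (.hz 29 223, 661448), (.hz 28 255, 1233657), (.hz 29 735, 2051156)])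
(.lp [[5], [1, 3, 6, 8], [0, 2, 4, 7, 9]] [(.mj 6 7, 1066), (.mj 7 5, 491), (.rw 7, 1), (.hz 29 95, 143357), (.hz 27 127, 1073865), (.hz 29 223, 83106), (.hz 28 255, 571918)]))
(.lp [[5], [1, 3, 6, 8], [0, 2, 4, 7, 9]] [(.mj 5 8, 5), (.mj 6 7, 4), (.mj 7 5, 5), (.hz 28 159, 208), (.hz 27 127, 16005), (.hz 28 223, 1785)]))
(.lp [[5], [1, 3, 6, 8], [0, 2, 4, 7, 9]] [(.mj 6 7, 3015), (.mj 7 5, 1723), (.rw 7, 2), (.hz 27 95, 7920381), (.hz 19 671, 3488960), (.hz 19 479, 1296768)]))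
(.haz 5 223 3 40
(.haz 8 767 8 25
(.haz 6 671 19 50
(.ask 351
(.mark 479 [5, 9, 10]
(.spn
(.lp [[5], [0, 2, 4, 7, 9], [1, 3, 6, 8, 10]] [(.mj 7 8, 10074), (.mj 8 5, 44358), (.rw 8, 100), (.hz 19 671, 48954992), (.hz 29 671, 83281), (.hz 27 735, 84310081), (.hz 27 1503, 36693176)])
(.maj 5 10
(.cut 5 [(0, 1), (1, 1), (2, 1), (3, 1), (5, 1), (7, 1), (11, 1), (21, 1), (15, 1), (23, 1), (31, 1), (79, 1), (95, 1), (159, 1), (223, 1), (351, 1), (479, 1)]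
(.lp [[5], [0, 2, 4, 7, 9], [1, 3, 6, 8, 10]] [(.mj 0 1, 2364), (.mj 7 8, 472), (.mj 8 9, 859), (.mj 9 5, 641), (.hz 27 1503, 2366984), (.rw 9, 2)]))
(.cut 5 [(0, 1), (1, 1), (2, 1), (3, 1), (5, 1), (7, 1), (11, 1), (21, 1), (15, 1), (23, 1), (31, 1), (79, 1), (95, 1), (159, 1), (223, 1)]
(.lp [[5], [0, 2, 4, 7, 9], [1, 3, 6, 8, 10]] [(.mj 6 7, 1834), (.mj 7 8, 2130), (.mj 8 9, 490), (.mj 9 10, 259), (.mj 10 5, 13455), (.rw 8, 1), (.hz 27 223, 5658034), (.hz 19 671, 361508), (.hz 27 991, 14506324), (.hz 27 1503, 1107137), (.rw 9, 38)])))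
(.cut 5 [(0, 1), (1, 1), (2, 1), (3, 1), (5, 1), (7, 1), (11, 1), (21, 1), (15, 1), (23, 1), (31, 1), (79, 1), (95, 1), (159, 1), (223, 1), (351, 1), (671, 2), (479, 1), (735, 2), (991, 1)]
(.cut 5 [(0, 1), (1, 1), (2, 1), (3, 1), (5, 1), (7, 1), (11, 1), (21, 1), (15, 1), (23, 1), (31, 1), (79, 1), (95, 1), (159, 1), (223, 1)]
(.lp [[5], [0, 2, 4, 7, 9], [1, 3, 6, 8, 10]] [(.mj 7 8, 10619), (.mj 10 5, 6353), (.mj 10 9, 5151), (.hz 19 671, 296832), (.hz 29 671, 340332), (.hz 27 735, 11433403), (.hz 28 767, 41682892), (.hz 27 1503, 5555273), (.rw 9, 1), (.rw 10, 14)])))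
.fin))
(.ask 479
(.mark 479 [5, 9, 10]
(.spn
(.haz 10 991 9 25
(.ask 671
(.mark 991 [5, 10, 11]
(.lp [[5], [1, 3, 6, 8, 10], [0, 2, 4, 7, 9, 11]] [(.mj 5 10, 1266), (.mj 6 7, 1358), (.mj 8 5, 2035), (.rw 8, 1), (.hz 19 671, 1339931), (.hz 27 735, 2262147), (.hz 30 991, 1049961), (.hz 27 2783, 2841020), (.hz 30 3039, 3150275)]))
(.lp [[5], [0, 2, 4, 7, 9], [1, 3, 6, 8, 10]] [(.mj 5 9, 2197), (.mj 5 10, 9093), (.mj 8 5, 23632), (.rw 8, 31), (.hz 27 735, 45973089), (.hz 30 991, 17718795)]))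
(.lp [[5], [0, 2, 4, 7, 9], [1, 3, 6, 8, 10]] [(.mj 5 9, 8), (.mj 8 5, 9), (.hz 30 479, 8731)]))
(.maj 5 10
(.cut 5 [(0, 1), (1, 1), (2, 1), (3, 1), (5, 1), (7, 1), (11, 1), (21, 1), (15, 1), (23, 1), (31, 1), (79, 1), (95, 1), (159, 1), (223, 1), (351, 1), (479, 1)]
(.lp [[5], [0, 2, 4, 7, 9], [1, 3, 6, 8, 10]] [(.mj 6 7, 684), (.mj 9 5, 289), (.hz 27 1503, 780359), (.rw 9, 1)]))
(.lp [[5], [0, 2, 4, 7, 9], [1, 3, 6, 8, 10]] [(.mj 6 7, 179), (.mj 9 10, 43), (.mj 10 5, 291), (.hz 27 223, 329161), (.hz 27 479, 246609), (.hz 27 735, 347937), (.hz 27 991, 313592), (.hz 27 1503, 139427)]))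
(.cut 5 [(0, 1), (1, 1), (2, 1), (3, 1), (5, 1), (7, 1), (11, 1), (21, 1), (15, 1), (23, 1), (31, 1), (79, 1), (95, 1), (159, 1), (223, 1), (351, 1)]
(.lp [[5], [0, 2, 4, 7, 9], [1, 3, 6, 8, 10]] [(.mj 10 5, 3673), (.hz 29 703, 1067742), (.hz 28 767, 4067705), (.rw 9, 13)]))
.fin))
(.lp [[5], [1, 3, 6, 8], [0, 2, 4, 7, 9]] [(.mj 6 7, 1), (.mj 8 5, 5), (.mj 8 9, 5), (.hz 27 735, 20451)])))
(.lp [[5], [1, 3, 6, 8], [0, 2, 4, 7, 9]] [(.mj 3 4, 2), (.mj 6 7, 8), (.mj 8 5, 6), (.hz 29 31, 1474), (.hz 26 63, 2479), (.hz 19 159, 7007), (.hz 27 223, 2036), (.hz 19 671, 2005), (.hz 25 671, 143)]))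
(.lp [[5], [1, 3, 6, 8], [0, 2, 4, 7, 9]] [(.mj 8 5, 1), (.mj 8 9, 1), (.hz 28 95, 483), (.hz 28 223, 932), (.hz 27 735, 2919)]))
(.cut 5 [(0, 1), (1, 1), (2, 1), (3, 1), (5, 1), (7, 1), (11, 1), (21, 1), (15, 1), (23, 1), (31, 1), (79, 1), (95, 1), (159, 1), (223, 1)]
(.lp [[5], [1, 3, 6, 8], [0, 2, 4, 7, 9]] [(.mj 0 1, 229), (.hz 27 95, 10247730), (.hz 27 159, 6577612), (.rw 8, 35)])))
(.haz 8 223 9 40
(.cut 5 [(0, 1), (1, 1), (2, 1), (3, 1), (5, 1), (7, 1), (11, 1), (21, 1), (15, 1), (23, 1), (31, 1), (79, 1), (95, 1), (159, 1), (223, 1)]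
(.lp [[5], [1, 3, 6, 8], [0, 2, 4, 7, 9]] [(.mj 6 7, 602), (.mj 9 5, 388), (.mj 9 8, 388), (.hz 27 223, 109162), (.hz 27 255, 621962), (.rw 8, 1)]))
(.lp [[5], [1, 3, 6, 8], [0, 2, 4, 7, 9]] [(.mj 6 7, 11), (.mj 9 5, 7), (.hz 27 95, 1783), (.hz 19 159, 12074), (.hz 19 223, 2992), (.hz 27 223, 683), (.hz 19 671, 1909), (.hz 19 479, 10869)]))
.fin))
(.ref 0))
(.lp [[5], [0, 2, 4, 7], [1, 3, 6, 8]] [(.mj 3 4, 6), (.mj 6 7, 14), (.mj 7 5, 11), (.hz 26 31, 6201), (.hz 19 159, 10355), (.hz 25 159, 120), (.hz 19 223, 4820)]))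
(.haz 6 159 11 20
(.ask 159
(.mark 223 [5, 8, 9]
(.cut 5 [(0, 1), (1, 1), (2, 1), (3, 1), (5, 1), (7, 1), (11, 1), (21, 1), (15, 1), (23, 1), (31, 1)]
(.cut 5 [(0, 1), (1, 1), (2, 1), (3, 1), (5, 1), (7, 1), (11, 1), (21, 1), (15, 1), (23, 1), (31, 1), (79, 1), (95, 1), (159, 1), (223, 1)]
(.lp [[5], [1, 3, 6, 8], [0, 2, 4, 7, 9]] [(.mj 0 1, 3930740), (.mj 8 5, 72563), (.mj 8 7, 8613), (.rw 6, 26), (.hz 20 55, 103987843), (.hz 26 159, 22066283), (.hz 26 191, 5564321), (.hz 26 703, 72562831), (.rw 7, 67), (.rw 8, 134)]))))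
(.cut 5 [(0, 1), (1, 1), (2, 1), (3, 1), (5, 1), (7, 1), (11, 1), (21, 1), (15, 1), (23, 1), (31, 1)]
(.lp [[5], [0, 2, 4, 7], [1, 3, 6, 8]] [(.mj 0 1, 483846), (.mj 8 5, 12440), (.mj 8 7, 2868), (.rw 6, 1), (.hz 20 55, 12800170), (.hz 26 191, 13511635), (.rw 7, 25)])))
(.cut 5 [(0, 1), (1, 1), (2, 1), (3, 1), (5, 1), (7, 1), (11, 1), (21, 1), (15, 1), (23, 1), (31, 1)]
(.lp [[5], [0, 2, 4, 7], [1, 3, 6, 8]] [(.mj 8 5, 564), (.mj 8 7, 1223), (.rw 6, 3), (.hz 26 31, 2993708), (.hz 25 159, 1298010), (.hz 17 111, 373550), (.hz 25 191, 1177012), (.rw 7, 4)])))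
.fin))

theorem run120 : run P3488 (leaf3 218 625) (cutRow P3488) [s119] t120 s120 = true := by
  decide +kernel

theorem bad120 : Bad P3488 s120 :=
  run_sound (leaf3_sound P3488 rfl rfl) (cutRow_sound P3488) (
    List.forall_mem_cons.2 ⟨bad119, fun _ h => absurd h List.not_mem_nil⟩) t120 s120 run120

/-- the state above piece 146 of the tree -/
def s146 : St := ⟨[0, 0, 1, 3, 5, 15, 15, 47, 21, 287], [279, 277, 63, 31, 15, 11, 7, 5, 3, 2, 1, 0], [0, 1, 2, 3, 4, 5, 8],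
  [(4, 5)],
  [⟨true, 2, 3, 3, 10⟩, ⟨true, 1, 5, 2, 5⟩, ⟨true, 2, 3, 23, 50⟩, ⟨true, 1, 5, 12, 25⟩, ⟨true, 1, 21, 27, 50⟩, ⟨true, 4, 15, 9, 40⟩, ⟨true, 3, 23, 11, 20⟩, ⟨true, 1, 21, 29, 50⟩, ⟨true, 4, 79, 11, 40⟩, ⟨true, 4, 175, 11, 40⟩, ⟨true, 4, 175, 3, 10⟩, ⟨true, 6, 175, 1, 40⟩, ⟨true, 8, 191, 1, 4⟩, ⟨true, 6, 287, 3, 50⟩, ⟨true, 4, 79, 9, 25⟩],
  [.spn 0 0 651200, .spn 1 1 302400, .spn 3 2 302400, .spn 7 3 302400, .spn 15 4 140426, .spn 31 5 140426, .spn 63 8 140426]⟩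

/-- piece 146 of the tree -/
noncomputable def t146 : WN.Tree :=
(.mark 319 [6, 7, 9]
(.spn
(.haz 7 831 11 50
(.ask 799
(.mark 831 [6, 7, 10]
(.lp [[6], [1, 3, 5, 7], [0, 2, 4, 8, 9, 10]] [(.mj 5 8, 1680), (.mj 6 7, 1274), (.mj 8 6, 1463), (.rw 6, 1), (.hz 11 175, 160300), (.hz 11 191, 448839), (.hz 13 799, 160886), (.hz 14 239, 108310), (.hz 15 831, 377766), (.hz 13 1823, 385931), (.hz 15 1855, 891767)]))
(.ask 831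
(.ask 175
(.mark 959 [6, 10, 11]
(.lp [[6], [1, 3, 5, 7, 11], [0, 2, 4, 8, 9, 10]] [(.mj 5 8, 50), (.mj 6 7, 44), (.mj 8 6, 52), (.hz 10 175, 408), (.hz 12 191, 89779), (.hz 13 799, 3802), (.hz 11 2223, 21650), (.hz 13 447, 15523), (.hz 15 831, 17963), (.hz 14 2287, 62157), (.hz 15 1855, 23029)]))
(.mark 831 [6, 7, 10]
(.lp [[6], [1, 3, 5, 7], [0, 2, 4, 8, 9, 10]] [(.mj 5 8, 19), (.mj 6 7, 16), (.mj 8 6, 19), (.hz 11 175, 1256), (.hz 11 191, 5518), (.hz 12 191, 27891), (.hz 13 831, 525), (.hz 15 831, 6417), (.hz 15 1855, 8226)])))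
(.lp [[6], [1, 3, 5, 7], [0, 2, 4, 8, 9]] [(.mj 5 8, 3568), (.mj 6 7, 2865), (.mj 8 6, 3416), (.rw 6, 2), (.hz 10 175, 18125), (.hz 11 175, 333492), (.hz 11 191, 1267270)])))
(.lp [[6], [1, 3, 5, 7], [0, 2, 4, 8, 9]] [(.mj 3 4, 385), (.mj 5 8, 3159), (.mj 8 6, 2219), (.rw 7, 1), (.hz 15 47, 155816), (.hz 15 63, 455542), (.hz 15 319, 255923)]))
(.haz 6 47 4 25
(.lp [[6], [1, 3, 5, 7], [0, 2, 4, 8, 9]] [(.mj 3 4, 22), (.mj 5 8, 15), (.mj 7 6, 35), (.mj 8 7, 26), (.hz 15 63, 5319), (.hz 15 175, 6598), (.hz 15 191, 30002), (.hz 15 319, 37431), (.hz 13 799, 15084), (.hz 15 831, 30808)])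
(.haz 5 79 8 25
(.ask 175
(.mark 447 [6, 9, 10]
(.spn
(.ask 79
(.mark 511 [9, 10, 11]
(.lp [[6, 11], [0, 2, 4, 8, 9], [1, 3, 5, 7, 10]] [(.mj 5 8, 3597), (.mj 6 9, 1151), (.mj 7 6, 3549), (.mj 8 7, 5804), (.rw 7, 1), (.rw 8, 12)]))
(.ask 111
(.mark 511 [9, 10, 11]
(.lp [[6, 11], [0, 2, 4, 8, 9], [1, 3, 5, 7, 10]] [(.mj 5 8, 3597), (.mj 6 9, 1151), (.mj 7 6, 3549), (.mj 8 7, 5804), (.rw 7, 1), (.rw 8, 12)]))
(.ask 239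
(.mark 511 [9, 10, 11]
(.lp [[6, 11], [0, 2, 4, 8, 9], [1, 3, 5, 7, 10]] [(.mj 5 8, 3), (.mj 8 7, 2)]))
(.ask 95
(.mark 511 [9, 10, 11]
(.lp [[6, 11], [0, 2, 4, 8, 9], [1, 3, 5, 7, 10]] [(.mj 3 4, 6880), (.mj 6 9, 698), (.mj 7 6, 2714), (.mj 8 7, 4523), (.rw 7, 1), (.rw 8, 8)]))
(.ask 127
(.mark 511 [9, 10, 11]
(.lp [[6, 11], [0, 2, 4, 8, 9], [1, 3, 5, 7, 10]] [(.mj 3 4, 7139), (.mj 6 9, 800), (.mj 7 6, 3037), (.mj 8 7, 4917), (.rw 7, 1), (.rw 8, 9)]))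
(.ask 1199
(.mark 1471 [6, 9, 11]
(.lp [[6], [0, 2, 4, 8, 9], [1, 3, 5, 7, 10, 11]] [(.mj 3 4, 1828), (.mj 5 8, 2250), (.mj 6 9, 638), (.mj 7 6, 1640), (.mj 8 7, 3306), (.rw 8, 1), (.hz 13 799, 979637), (.hz 13 831, 860836), (.hz 13 1471, 1351929), (.hz 13 3519, 1850735)]))
(.lp [[6], [0, 2, 4, 8, 9], [1, 3, 5, 7, 10]] [(.mj 3 4, 9391), (.mj 7 6, 1568), (.mj 8 7, 3538), (.rw 8, 1), (.hz 13 799, 850243), (.hz 13 831, 904514), (.hz 14 1263, 892664), (.hz 13 1471, 660593)])))))))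
(.haz 6 287 2 25
(.haz 6 47 1 10
(.lp [[6], [0, 2, 4, 8, 9], [1, 3, 5, 7, 10]] [(.mj 5 8, 170), (.mj 8 7, 84), (.mj 9 6, 137), (.hz 18 175, 87402), (.hz 18 191, 341839), (.hz 18 319, 496615), (.hz 18 1199, 78358), (.hz 18 447, 379120), (.hz 18 1215, 106641), (.hz 12 1215, 94008), (.hz 18 831, 350291), (.hz 14 1263, 39513), (.hz 18 1471, 607712)])
(.haz 10 191 11 25
(.lp [[6], [0, 2, 4, 8, 9], [1, 3, 5, 7, 10]] [(.mj 3 4, 101383), (.mj 9 6, 8702), (.mj 9 10, 67645), (.rw 8, 49), (.hz 18 15, 14735966), (.hz 18 47, 36839915), (.hz 17 287, 8008677), (.hz 19 191, 23682802), (.hz 17 319, 696407), (.hz 17 799, 5394700), (.hz 19 255, 266289205), (.hz 17 447, 215156145), (.hz 19 447, 201616052), (.hz 17 1471, 375657297)])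
(.haz 7 111 8 25
(.haz 4 1199 2 5
(.haz 8 95 17 50
(.haz 4 1199 23 50
(.haz 7 127 19 50
(.haz 6 63 2 25
(.maj 6 10
(.cut 6 [(0, 1), (1, 1), (2, 1), (3, 1), (5, 1), (7, 1), (11, 1), (21, 1), (15, 1), (23, 1), (277, 1), (31, 1), (47, 1), (279, 1), (63, 1), (175, 1), (287, 1), (191, 1), (319, 1), (447, 1)]
(.lp [[6], [0, 2, 4, 8, 9], [1, 3, 5, 7, 10]] [(.mj 5 8, 29462), (.mj 8 7, 16815), (.mj 9 6, 5248), (.hz 18 15, 3995609), (.hz 18 47, 264502), (.hz 22 95, 4042616), (.hz 20 111, 4696947), (.hz 24 127, 5733951), (.hz 23 1199, 177130), (.hz 25 1215, 10332546), (.hz 17 1471, 29747735), (.rw 9, 13)]))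
(.cut 6 [(0, 1), (1, 1), (2, 1), (3, 1), (5, 1), (7, 1), (11, 1), (21, 1), (15, 1), (23, 1), (277, 1), (31, 1), (47, 1), (279, 1), (63, 1), (175, 1), (287, 1), (191, 1), (319, 1), (799, 1), (447, 1)]
(.lp [[6], [0, 2, 4, 8, 9], [1, 3, 5, 7, 10]] [(.mj 3 4, 8730), (.mj 5 8, 5157), (.mj 8 7, 6865), (.mj 9 10, 531), (.mj 10 6, 4778), (.hz 18 15, 1432950), (.hz 22 95, 165960), (.hz 17 287, 4065946), (.hz 20 111, 1791188), (.hz 24 127, 902675), (.hz 25 191, 6879647), (.hz 17 319, 2072626), (.hz 17 799, 2818314), (.hz 23 1199, 267329), (.hz 17 447, 4571335), (.hz 17 831, 1579688), (.hz 17 959, 7802947), (.rw 9, 2)])))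
(.lp [[6], [0, 2, 4, 8, 9], [1, 3, 5, 7, 10]] [(.mj 3 4, 7), (.mj 8 7, 3), (.hz 25 15, 485), (.hz 25 31, 147), (.hz 25 47, 292), (.hz 17 287, 314), (.hz 14 111, 40), (.hz 20 111, 631), (.hz 24 127, 1364), (.hz 17 799, 341), (.hz 23 1199, 140), (.hz 17 447, 778)]))
(.lp [[6], [0, 2, 4, 8, 9], [1, 3, 5, 7, 10]] [(.mj 3 4, 13), (.hz 18 15, 1633), (.hz 18 47, 6719), (.hz 24 47, 192), (.hz 24 63, 2466), (.hz 20 111, 1376), (.hz 20 127, 1506), (.hz 17 799, 2960), (.hz 23 1199, 747), (.hz 11 1199, 2), (.hz 20 383, 30)]))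
(.lp [[6], [0, 2, 4, 8, 9], [1, 3, 5, 7, 10]] [(.mj 5 8, 7), (.mj 8 7, 11), (.hz 18 15, 4682), (.hz 23 47, 2825), (.hz 18 47, 7754), (.hz 22 95, 1277), (.hz 23 175, 1382), (.hz 19 175, 6760), (.hz 14 239, 10849)]))
(.lp [[6], [0, 2, 4, 8, 9], [1, 3, 5, 7, 10]] [(.mj 8 7, 26), (.mj 9 10, 3), (.hz 18 15, 27914), (.hz 22 31, 10031), (.hz 16 79, 4816), (.hz 17 287, 5045), (.hz 20 111, 15173), (.hz 20 127, 15007), (.hz 17 799, 13811), (.hz 17 831, 6685), (.hz 17 1471, 33489)]))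
(.lp [[6], [0, 2, 4, 8, 9], [1, 3, 5, 7, 10]] [(.mj 4 5, 3), (.mj 8 7, 1), (.hz 21 15, 4978), (.hz 18 15, 1449), (.hz 21 47, 824), (.hz 14 79, 193), (.hz 19 175, 390), (.hz 14 239, 309)]))
(.lp [[6], [0, 2, 4, 8, 9], [1, 3, 5, 7, 10]] [(.mj 3 4, 13), (.hz 18 15, 1615), (.hz 18 47, 9288), (.hz 20 47, 3258), (.hz 17 287, 1036), (.hz 17 799, 2019), (.hz 17 447, 1112), (.hz 17 831, 1082), (.hz 17 1471, 6785)]))))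
(.cut 6 [(0, 1), (1, 1), (2, 1), (3, 1), (5, 1), (7, 1), (11, 1), (21, 1), (15, 1), (23, 1), (277, 1), (31, 1), (47, 1), (279, 1), (63, 1), (175, 1), (287, 1), (191, 1), (319, 1), (799, 1), (447, 1), (831, 1)]
(.cut 6 [(0, 1), (1, 1), (2, 1), (3, 1), (5, 1), (7, 1), (11, 1), (21, 1), (15, 1), (23, 1), (277, 1), (31, 1), (47, 1), (279, 1), (63, 1), (287, 1), (319, 1)]
(.lp [[6], [0, 2, 4, 8, 9], [1, 3, 5, 7, 10]] [(.mj 3 4, 2780434), (.mj 5 8, 715181), (.mj 8 7, 1578751), (.hz 17 15, 474984406), (.hz 17 31, 283437151), (.hz 17 287, 603121963), (.hz 10 1199, 333009345), (.hz 11 1199, 4680202), (.hz 13 1471, 313342508), (.rw 9, 22), (.rw 10, 1713)]))))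
(.maj 6 9
(.cut 6 [(0, 1), (1, 1), (2, 1), (3, 1), (5, 1), (7, 1), (11, 1), (21, 1), (15, 1), (23, 1), (277, 1), (31, 1), (47, 1), (279, 1), (63, 1), (175, 1), (287, 1), (191, 1), (319, 1), (447, 1)]
(.lp [[6], [0, 2, 4, 8, 9], [1, 3, 5, 7, 10]] [(.mj 8 7, 2556), (.mj 10 6, 967), (.mj 10 9, 812), (.rw 7, 1), (.hz 13 799, 453282), (.hz 13 831, 906564), (.rw 9, 4)]))
(.cut 6 [(0, 1), (1, 1), (2, 1), (3, 1), (5, 1), (7, 1), (11, 1), (21, 1), (15, 1), (23, 1), (277, 1), (31, 1), (47, 1), (279, 1), (63, 1), (175, 1), (287, 1), (191, 1), (319, 1), (447, 1)]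
(.cut 9 [(0, 1), (1, 1), (2, 1), (3, 1), (5, 1), (7, 1), (11, 1), (21, 1), (15, 1), (23, 1), (277, 1), (31, 1), (47, 1), (279, 1), (63, 1), (175, 1), (287, 1), (191, 1), (319, 1), (1199, 1), (1215, 1)]
(.lp [[6], [0, 2, 4, 8, 9], [1, 3, 5, 7, 10]] [(.mj 8 7, 30145), (.mj 10 6, 18885), (.mj 10 9, 18885), (.hz 13 447, 9284880), (.hz 16 863, 14969426), (.rw 9, 44), (.rw 10, 5)]))))
.fin))
(.ref 0))
(.lp [[6], [1, 3, 5, 7], [0, 2, 4, 8, 9]] [(.mj 3 4, 2), (.hz 16 15, 288), (.hz 15 15, 344), (.hz 13 287, 13), (.hz 13 319, 47), (.hz 13 447, 180)])))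
(.cut 6 [(0, 1), (1, 1), (2, 1), (3, 1), (5, 1), (7, 1), (11, 1), (21, 1), (15, 1), (23, 1), (277, 1), (31, 1), (47, 1), (279, 1), (63, 1), (287, 1)]
(.lp [[6], [1, 3, 5, 7], [0, 2, 4, 8, 9]] [(.mj 5 8, 42869), (.mj 9 6, 29323), (.mj 9 7, 23354), (.hz 10 175, 4892400), (.hz 11 175, 3978149), (.hz 12 191, 101158976), (.hz 13 799, 6512180), (.hz 14 239, 13608547), (.hz 13 447, 44668106), (.rw 8, 40)]))
.fin))

theorem run146 : run P3488 (leaf3 218 625) (cutRow P3488) [s143] t146 s146 = true := by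
  decide +kernel

theorem bad146 : Bad P3488 s146 :=
  run_sound (leaf3_sound P3488 rfl rfl) (cutRow_sound P3488) (
    List.forall_mem_cons.2 ⟨bad143, fun _ h => absurd h List.not_mem_nil⟩) t146 s146 run146

/-- the state above piece 161 of the tree -/
def s161 : St := ⟨[0, 0, 1, 3, 5, 15, 15, 21, 63], [63, 31, 47, 15, 11, 7, 5, 3, 2, 1, 0], [0, 1, 2, 3, 4, 5, 6],
  [(4, 5)],
  [⟨true, 2, 3, 3, 10⟩, ⟨true, 1, 5, 2, 5⟩, ⟨true, 2, 3, 23, 50⟩, ⟨true, 1, 5, 12, 25⟩, ⟨true, 1, 21, 27, 50⟩, ⟨true, 4, 15, 9, 40⟩, ⟨true, 3, 23, 11, 20⟩, ⟨true, 1, 21, 29, 50⟩, ⟨true, 1, 21, 3, 5⟩, ⟨true, 1, 21, 31, 50⟩, ⟨true, 4, 79, 7, 25⟩, ⟨true, 4, 79, 8, 25⟩, ⟨true, 4, 79, 17, 50⟩, ⟨true, 3, 151, 3, 5⟩, ⟨true, 3, 151, 31, 50⟩, ⟨true, 5, 159, 9, 50⟩, ⟨true, 7, 127, 2, 25⟩],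
  [.spn 0 0 651200, .spn 1 1 302400, .spn 3 2 302400, .spn 7 3 302400, .spn 15 4 140426, .spn 31 5 140426, .spn 63 6 62723]⟩

/-- piece 161 of the tree -/
noncomputable def t161 : WN.Tree :=
(.haz 5 159 7 25
(.haz 7 319 1 10
(.haz 7 31 8 25
(.lp [[6], [0, 2, 4, 7], [1, 3, 5, 8]] [(.mj 0 1, 2), (.mj 4 5, 1), (.mj 5 6, 2), (.mj 6 7, 3), (.hz 19 31, 327), (.hz 12 79, 23), (.hz 19 63, 785), (.hz 19 95, 1167), (.hz 19 319, 1154)])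
(.haz 7 31 7 25
(.lp [[6], [0, 2, 4, 7], [1, 3, 5, 8]] [(.mj 0 1, 19), (.mj 4 5, 7), (.mj 5 6, 14), (.mj 6 7, 22), (.hz 20 31, 2645), (.hz 12 79, 85), (.hz 20 63, 5603), (.hz 20 95, 7134), (.hz 20 319, 7782)])
(.haz 7 23 13 50
(.lp [[6], [0, 2, 4, 7], [1, 3, 5, 8]] [(.mj 0 1, 96), (.mj 4 5, 32), (.mj 5 6, 63), (.mj 6 7, 103), (.hz 21 23, 1619), (.hz 21 31, 5427), (.hz 12 79, 313), (.hz 21 63, 13285), (.hz 21 95, 15612), (.hz 21 319, 17952)])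
(.haz 6 319 4 25
(.haz 1 149 17 25
(.haz 3 151 18 25
(.ask 79
(.mark 127 [7, 8, 9]
(.spn
(.ask 319
(.haz 8 127 21 50
(.mark 319 [6, 7, 10]
(.lp [[6, 9], [0, 2, 4, 7], [1, 3, 5, 8, 10]] [(.mj 5 6, 15), (.mj 6 7, 14), (.mj 7 8, 11), (.hz 12 79, 509), (.hz 12 623, 1314), (.hz 25 255, 2945), (.hz 16 639, 4730), (.hz 25 639, 10631), (.hz 22 1343, 2179), (.hz 18 1343, 21582)]))
(.haz 7 95 9 50
(.mark 319 [6, 7, 10]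
(.lp [[6, 9], [0, 2, 4, 7], [1, 3, 5, 8, 10]] [(.mj 0 1, 183), (.mj 5 6, 142), (.mj 6 7, 123), (.hz 23 149, 1232), (.hz 25 63, 20707), (.hz 26 95, 13087), (.hz 25 127, 26890), (.hz 26 607, 50132), (.hz 26 383, 17603), (.hz 18 1343, 195587)]))
(.lp [[6, 9], [0, 2, 4, 7], [1, 3, 5, 8, 10]] [(.mj 0 1, 197), (.mj 5 6, 5), (.mj 7 8, 4), (.hz 26 21, 1102), (.hz 26 23, 1646), (.hz 26 31, 4263), (.hz 25 63, 1577)])))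
(.lp [[6, 9], [0, 2, 4, 7], [1, 3, 5, 8]] [(.mj 5 6, 5526), (.mj 6 7, 3684), (.mj 7 8, 1616), (.rw 7, 1), (.hz 18 319, 1571483)]))
(.haz 7 95 4 25
(.haz 7 63 7 50
(.haz 7 31 9 50
(.lp [[6, 9], [0, 2, 4, 7], [1, 3, 5, 8]] [(.mj 0 1, 34), (.mj 6 8, 1), (.mj 8 7, 10), (.hz 23 149, 226), (.hz 27 31, 694), (.hz 27 63, 1403), (.hz 27 95, 1566), (.hz 12 591, 400), (.hz 27 127, 4682), (.hz 27 319, 473), (.hz 27 607, 3473), (.hz 12 623, 869), (.hz 27 639, 4829), (.hz 17 735, 8085)])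
(.ask 319
(.mark 383 [7, 9, 10]
(.spn
(.lp [[6, 9], [0, 2, 4, 7], [1, 3, 5, 8, 10]] [(.mj 0 1, 602), (.mj 5 6, 7), (.mj 6 8, 12), (.mj 7 10, 7), (.mj 8 7, 22), (.hz 27 21, 3129), (.hz 27 23, 4030), (.hz 27 31, 2214), (.hz 25 95, 5788), (.hz 25 127, 4490), (.hz 26 319, 2993), (.hz 25 607, 10302), (.hz 25 639, 57658)])
(.lp [[6, 9], [0, 2, 4, 7], [1, 3, 5, 8, 10]] [(.mj 0 1, 129), (.mj 5 6, 2), (.mj 6 8, 3), (.mj 9 7, 5), (.hz 27 21, 672), (.hz 27 23, 866), (.hz 27 31, 476), (.hz 25 95, 1964), (.hz 25 127, 3972), (.hz 26 319, 1771), (.hz 25 383, 6528), (.hz 26 1343, 879)])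
(.lp [[6, 9], [0, 2, 4, 7], [1, 3, 5, 8, 10]] [(.mj 0 1, 84), (.mj 5 6, 1), (.mj 6 8, 2), (.mj 10 7, 4), (.hz 27 21, 432), (.hz 27 23, 538), (.hz 27 31, 245), (.hz 26 63, 106), (.hz 25 95, 1155), (.hz 25 127, 2929), (.hz 26 319, 1453), (.hz 25 607, 1875), (.hz 25 383, 5131)])
.fin))
(.lp [[6, 9], [0, 2, 4, 7], [1, 3, 5, 8]] [(.mj 0 1, 204), (.mj 8 7, 7), (.hz 27 21, 1020), (.hz 27 23, 1189), (.hz 27 31, 319), (.hz 25 95, 1448), (.hz 25 127, 9036)])))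
(.lp [[6, 9], [0, 2, 4, 7], [1, 3, 5, 8]] [(.mj 0 1, 76), (.mj 6 8, 1), (.hz 26 21, 393), (.hz 26 23, 533), (.hz 26 31, 620), (.hz 18 319, 1722)]))
(.lp [[6, 9], [0, 2, 4, 7], [1, 3, 5, 8]] [(.mj 0 1, 152), (.mj 6 8, 2), (.hz 25 21, 1606), (.hz 25 23, 2196), (.hz 25 31, 2614), (.hz 18 319, 3631)]))
(.lp [[6, 9], [0, 2, 4, 7], [1, 3, 5, 8]] [(.mj 5 6, 217), (.mj 9 7, 164), (.mj 9 8, 88), (.hz 12 79, 5353), (.hz 16 127, 265255), (.hz 22 319, 90911), (.hz 18 319, 297764), (.hz 18 383, 1050833), (.hz 16 639, 166217)])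
.fin))
(.haz 7 127 7 50
(.haz 5 159 9 25
(.haz 5 159 2 5
(.ask 111
(.ref 0)
(.haz 7 31 6 25
(.lp [[6], [0, 2, 4, 7], [1, 3, 5, 8]] [(.mj 5 6, 59), (.mj 6 7, 99), (.hz 28 31, 19943), (.hz 28 63, 26241), (.hz 28 95, 35478), (.hz 28 319, 34528)])
(.ask 95
(.mark 127 [7, 8, 9]
(.spn
(.haz 8 127 9 25
(.lp [[6, 9], [0, 2, 4, 7], [1, 3, 5, 8]] [(.mj 5 6, 26), (.mj 6 7, 26), (.mj 7 8, 22), (.hz 29 127, 8980), (.hz 22 319, 2845), (.hz 18 319, 22629), (.hz 29 639, 25143)])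
(.haz 8 639 13 50
(.lp [[6, 9], [0, 2, 4, 7], [1, 3, 5, 8]] [(.mj 5 6, 3032), (.mj 6 7, 2949), (.mj 7 8, 1358), (.mj 7 9, 299), (.hz 29 63, 553152), (.hz 18 319, 2579668), (.hz 25 639, 761405), (.hz 30 639, 1076252)])
(.lp [[6, 9], [0, 2, 4, 7], [1, 3, 5, 8]] [(.mj 5 6, 7), (.mj 6 7, 5), (.hz 30 63, 880), (.hz 30 127, 791), (.hz 18 319, 4253), (.hz 25 639, 2270)])))
(.haz 7 31 1 5
(.lp [[6, 9], [0, 2, 4, 7], [1, 3, 5, 8]] [(.mj 6 8, 1), (.mj 8 7, 6), (.hz 29 31, 7651), (.hz 29 63, 9564), (.hz 29 95, 9564), (.hz 29 127, 29374), (.hz 29 319, 1798), (.hz 29 607, 6292)])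
(.haz 7 95 1 10
(.haz 7 95 7 50
(.haz 5 159 12 25
(.haz 7 31 9 50
(.lp [[6, 9], [0, 2, 4, 7], [1, 3, 5, 8]] [(.mj 0 1, 24), (.mj 6 8, 1), (.mj 8 7, 14), (.hz 33 31, 1443), (.hz 33 63, 2120), (.hz 33 95, 2120), (.hz 33 127, 6614), (.hz 33 319, 465), (.hz 33 607, 1759)])
(.ask 319
(.mark 383 [7, 9, 10]
(.spn
(.haz 7 63 4 25
(.lp [[6, 9], [0, 2, 4, 7], [1, 3, 5, 8, 10]] [(.mj 0 1, 2248), (.mj 6 8, 41), (.mj 7 10, 10), (.mj 8 7, 227), (.hz 33 21, 9971), (.hz 24 151, 17797), (.hz 34 63, 57628), (.hz 31 95, 28144), (.hz 34 127, 192825), (.hz 34 319, 24986), (.hz 31 607, 82669), (.hz 34 639, 142412), (.hz 32 735, 178965)])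
(.lp [[6, 9], [0, 2, 4, 7], [1, 3, 5, 8, 10]] [(.mj 0 1, 141452), (.mj 6 8, 1691), (.mj 7 10, 47), (.mj 8 7, 3199), (.rw 8, 2), (.hz 34 21, 1419177), (.hz 34 23, 1737133), (.hz 34 31, 512687), (.hz 31 95, 235462), (.hz 32 159, 404995), (.hz 31 607, 2316499), (.hz 18 1343, 2653029), (.hz 32 735, 7319698)]))
(.lp [[6, 9], [0, 2, 4, 7], [1, 3, 5, 8, 10]] [(.mj 0 1, 71), (.mj 5 6, 2), (.mj 9 7, 6), (.mj 9 10, 1), (.hz 33 21, 338), (.hz 24 151, 764), (.hz 31 95, 1461), (.hz 32 159, 1060), (.hz 25 127, 2980), (.hz 18 319, 2944), (.hz 25 383, 4149), (.hz 22 1343, 2978), (.hz 18 1343, 7345), (.hz 25 1407, 6837)])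
(.lp [[6, 9], [0, 2, 4, 7], [1, 3, 5, 8, 10]] [(.mj 0 1, 63), (.mj 5 6, 3), (.mj 6 8, 4), (.mj 10 7, 8), (.hz 33 21, 297), (.hz 24 151, 671), (.hz 31 95, 1540), (.hz 32 159, 931), (.hz 25 127, 2833), (.hz 18 319, 12256), (.hz 31 607, 1291), (.hz 25 383, 4795), (.hz 25 639, 4795)])
.fin))
(.lp [[6, 9], [0, 2, 4, 7], [1, 3, 5, 8]] [(.mj 0 1, 346), (.mj 8 7, 11), (.hz 33 21, 1731), (.hz 33 23, 2031), (.hz 33 31, 589), (.hz 31 95, 1117), (.hz 25 127, 7132), (.hz 31 607, 5742), (.hz 32 735, 15922)])))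
(.lp [[6, 9], [0, 2, 4, 7], [1, 3, 5, 8]] [(.mj 5 6, 6), (.mj 8 7, 2), (.hz 29 21, 138), (.hz 29 23, 586), (.hz 32 31, 2718), (.hz 29 31, 7653), (.hz 31 95, 1295), (.hz 27 159, 3848), (.hz 25 127, 1044), (.hz 31 607, 956), (.hz 27 735, 14291)]))
(.lp [[6, 9], [0, 2, 4, 7], [1, 3, 5, 8]] [(.mj 0 1, 77), (.mj 5 6, 2), (.mj 6 8, 2), (.hz 31 21, 412), (.hz 31 23, 597), (.hz 31 31, 1019), (.hz 30 95, 3935), (.hz 18 319, 3607)]))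
(.lp [[6, 9], [0, 2, 4, 7], [1, 3, 5, 8]] [(.mj 0 1, 31), (.mj 5 6, 1), (.mj 6 8, 1), (.hz 30 21, 806), (.hz 30 23, 1153), (.hz 30 31, 1897), (.hz 18 319, 1362)])))
(.lp [[6, 9], [0, 2, 4, 7], [1, 3, 5, 8]] [(.mj 5 6, 6), (.mj 9 7, 5), (.mj 9 8, 3), (.hz 25 127, 3897), (.hz 22 319, 3188), (.hz 18 319, 8634), (.hz 25 383, 6104), (.hz 25 639, 2134)])
.fin))
(.ref 1))))
(.lp [[6], [0, 2, 4, 7], [1, 3, 5, 8]] [(.mj 5 6, 35), (.mj 6 7, 19), (.hz 21 21, 2), (.hz 21 23, 7), (.hz 27 31, 58034), (.hz 20 31, 3512), (.hz 26 159, 5944), (.hz 12 111, 529), (.hz 25 127, 6134), (.hz 18 319, 16510)]))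
(.lp [[6], [0, 2, 4, 7], [1, 3, 5, 8]] [(.mj 3 4, 2), (.mj 5 6, 5), (.hz 21 21, 11), (.hz 21 23, 46), (.hz 26 31, 1755), (.hz 20 31, 1442)]))
(.lp [[6], [0, 2, 4, 7], [1, 3, 5, 8]] [(.mj 0 1, 176), (.mj 5 6, 5), (.mj 6 8, 5), (.hz 25 21, 945), (.hz 25 23, 1382), (.hz 25 31, 1227), (.hz 25 63, 1047), (.hz 16 127, 1801), (.hz 18 319, 8724)])))
(.lp [[6], [0, 2, 4, 7], [1, 3, 5, 8]] [(.hz 21 21, 1), (.hz 24 23, 377), (.hz 21 23, 185), (.hz 12 79, 3), (.hz 14 151, 1)]))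
(.lp [[6], [0, 2, 4, 7], [1, 3, 5, 8]] [(.hz 23 5, 1), (.hz 23 21, 11), (.hz 21 21, 6)]))
(.lp [[6], [0, 2, 4, 7], [1, 3, 5, 8]] [(.mj 0 1, 5), (.mj 6 7, 6), (.mj 6 8, 5), (.hz 22 15, 593), (.hz 22 31, 1275), (.hz 22 47, 706), (.hz 22 63, 2359), (.hz 18 319, 14271)])))))
(.lp [[6], [0, 2, 4, 7], [1, 3, 5, 8]] [(.mj 0 1, 35), (.mj 5 6, 1), (.mj 6 8, 1), (.hz 18 21, 904), (.hz 18 23, 1289), (.hz 18 31, 1098), (.hz 18 63, 886)]))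
(.lp [[6], [0, 2, 4, 7], [1, 3, 5, 8]] [(.mj 5 6, 4), (.mj 6 7, 3), (.hz 17 15, 328), (.hz 17 31, 1008), (.hz 15 159, 527)]))

theorem run161 : run P3488 (leaf3 218 625) (cutRow P3488) [s160, s159] t161 s161 = true := by
  decide +kernel

theorem bad161 : Bad P3488 s161 :=
  run_sound (leaf3_sound P3488 rfl rfl) (cutRow_sound P3488) (
    List.forall_mem_cons.2 ⟨bad160, List.forall_mem_cons.2 ⟨bad159, fun _ h => absurd h List.not_mem_nil⟩⟩) t161 s161 run161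

/-- the state above piece 108 of the tree -/
def s108 : St := ⟨[0, 0, 1, 3, 5, 7, 11, 21], [75, 31, 15, 7, 5, 3, 2, 1, 0], [0, 1, 2, 3, 4, 6],
  [],
  [⟨true, 2, 3, 3, 10⟩, ⟨true, 1, 5, 2, 5⟩, ⟨true, 2, 3, 23, 50⟩, ⟨true, 1, 5, 12, 25⟩, ⟨true, 4, 39, 4, 25⟩, ⟨true, 1, 21, 27, 50⟩, ⟨true, 4, 39, 11, 50⟩, ⟨true, 3, 39, 13, 50⟩, ⟨true, 4, 39, 6, 25⟩, ⟨true, 4, 79, 7, 25⟩, ⟨true, 4, 39, 7, 25⟩, ⟨true, 4, 15, 3, 10⟩, ⟨true, 3, 151, 11, 50⟩, ⟨true, 3, 151, 17, 50⟩, ⟨true, 3, 151, 2, 5⟩, ⟨true, 7, 63, 7, 50⟩, ⟨true, 6, 63, 3, 10⟩, ⟨true, 6, 159, 7, 25⟩],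
  [.spn 0 0 651200, .spn 1 1 302400, .spn 3 2 302400, .spn 7 3 140426, .spn 15 4 140426, .spn 31 6 140426]⟩

/-- piece 108 of the tree -/
noncomputable def t108 : WN.Tree :=
(.haz 4 39 3 10
(.ask 79
(.mark 95 [5, 7, 8]
(.spn
(.haz 6 47 3 10
(.haz 7 95 1 5
(.haz 8 127 1 4
(.haz 6 47 7 20
(.haz 5 159 3 20
(.ask 39
(.mark 127 [7, 8, 9]
(.lp [[5, 9], [0, 2, 4, 7], [1, 3, 6, 8]] [(.mj 0 1, 57), (.mj 3 4, 59), (.mj 4 6, 52), (.mj 5 7, 19), (.mj 5 8, 8), (.mj 6 5, 28), (.hz 18 551, 19532), (.hz 23 159, 13858), (.hz 22 559, 20611), (.hz 15 575, 4945), (.hz 20 351, 84088), (.hz 20 639, 30643), (.hz 21 639, 49877)]))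
(.ask 55
(.mark 127 [7, 8, 9]
(.lp [[5, 9], [0, 2, 4, 7], [1, 3, 6, 8]] [(.mj 0 1, 248), (.mj 3 4, 112), (.mj 4 6, 50), (.mj 5 7, 5), (.mj 6 5, 8), (.hz 5 149, 731), (.hz 23 159, 6839), (.hz 20 351, 15068)]))
(.haz 8 127 7 20
(.maj 7 8
(.lp [[5], [0, 2, 4, 7], [1, 3, 6, 8]] [(.mj 3 4, 4445), (.mj 4 6, 12235), (.mj 5 7, 19754), (.mj 6 5, 24808), (.mj 7 8, 14047), (.rw 6, 1), (.hz 18 39, 2350588), (.hz 5 149, 46743), (.hz 14 151, 3692728), (.hz 23 159, 14570706), (.hz 24 127, 30741484), (.hz 20 351, 56793042)])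
(.lp [[5], [0, 2, 4, 7], [1, 3, 6, 8]] [(.mj 4 6, 28), (.mj 5 8, 16), (.mj 6 5, 31), (.mj 8 7, 33), (.hz 5 149, 111), (.hz 22 47, 4914), (.hz 14 151, 8715), (.hz 15 63, 9828), (.hz 20 95, 18575), (.hz 23 159, 23460), (.hz 20 127, 223465), (.hz 24 127, 1244), (.hz 20 351, 56538)]))
(.lp [[5], [0, 2, 4, 7], [1, 3, 6, 8]] [(.mj 3 4, 239), (.mj 4 6, 716), (.mj 5 7, 457), (.mj 6 5, 640), (.hz 18 39, 126349), (.hz 5 149, 466), (.hz 14 151, 36778), (.hz 24 95, 162808), (.hz 23 159, 347877), (.hz 20 127, 94846), (.hz 21 127, 895038), (.hz 20 351, 1313886)]))))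
(.lp [[5], [0, 2, 4, 7], [1, 3, 6, 8]] [(.mj 0 1, 7), (.mj 4 6, 5), (.mj 5 7, 7), (.mj 5 8, 1), (.hz 23 7, 531), (.hz 23 15, 895), (.hz 23 23, 885), (.hz 23 31, 2095), (.hz 20 95, 5591), (.hz 17 159, 295), (.hz 21 127, 7950), (.hz 20 351, 23311)]))
(.lp [[5], [0, 2, 4, 7], [1, 3, 6, 8]] [(.mj 0 1, 7), (.mj 5 7, 11), (.mj 6 5, 13), (.hz 22 15, 4567), (.hz 18 39, 2568), (.hz 19 47, 221), (.hz 15 63, 1003), (.hz 17 159, 2123), (.hz 20 127, 21812), (.hz 21 127, 11721), (.hz 20 351, 31321)]))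
(.lp [[5], [0, 2, 4, 7], [1, 3, 6, 8]] [(.mj 4 6, 4), (.mj 5 7, 7), (.mj 6 5, 9), (.hz 21 79, 4576), (.hz 21 95, 12570), (.hz 20 127, 29265), (.hz 20 351, 20289)]))
(.lp [[5], [0, 2, 4, 7], [1, 3, 6, 8]] [(.mj 0 1, 97), (.mj 3 4, 8), (.mj 6 5, 4), (.hz 20 21, 4734), (.hz 20 23, 4889), (.hz 7 39, 283), (.hz 20 31, 5539), (.hz 15 63, 903), (.hz 20 95, 3077)]))
(.lp [[5], [0, 2, 4, 7], [1, 3, 6, 8]] [(.mj 5 7, 8), (.mj 6 5, 10), (.hz 19 15, 8754), (.hz 18 39, 2112), (.hz 11 47, 1012), (.hz 15 63, 2482), (.hz 17 159, 1971)]))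
(.haz 6 47 3 10
(.haz 5 79 4 25
(.lp [[5], [0, 2, 4, 7], [1, 3, 6, 8]] [(.mj 0 1, 25), (.mj 3 4, 20), (.mj 4 6, 13), (.mj 6 7, 14), (.mj 7 5, 24), (.mj 7 8, 1), (.hz 18 39, 1047), (.hz 20 79, 5742), (.hz 20 95, 10981), (.hz 20 335, 4649), (.hz 20 223, 18486), (.hz 20 351, 15449)])
(.haz 4 39 8 25
(.haz 1 149 3 5
(.haz 6 47 9 25
(.haz 4 39 17 50
(.ask 149
(.mark 223 [5, 8, 9]
(.spn
(.haz 8 735 4 25
(.lp [[5], [1, 3, 6, 8], [0, 2, 4, 7, 9]] [(.mj 3 4, 123564), (.mj 4 6, 55717), (.mj 5 8, 18712), (.mj 7 5, 13774), (.rw 6, 14), (.hz 20 15, 3934200), (.hz 24 39, 6479523), (.hz 23 47, 10279299), (.hz 25 735, 23389460)])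
(.lp [[5], [1, 3, 6, 8], [0, 2, 4, 7, 9]] [(.mj 3 4, 1), (.mj 6 7, 8), (.mj 7 5, 6), (.hz 25 79, 1093), (.hz 25 95, 2666), (.hz 25 223, 1765)]))
(.haz 5 159 2 25
(.ask 335
(.mark 479 [5, 9, 10]
(.lp [[5], [0, 2, 4, 7, 9], [1, 3, 6, 8, 10]] [(.mj 0 1, 295), (.mj 3 4, 260), (.mj 4 6, 149), (.mj 7 8, 8), (.mj 8 5, 32), (.hz 24 39, 14319), (.hz 23 47, 38245), (.hz 23 63, 5124), (.hz 25 159, 22620), (.hz 25 223, 16338), (.hz 25 671, 50928), (.hz 25 479, 11035), (.hz 25 735, 46127), (.hz 25 1503, 33017)]))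
(.ask 351
(.mark 479 [5, 9, 10]
(.cut 5 [(0, 1), (1, 1), (2, 1), (3, 1), (5, 1), (7, 1), (11, 1), (21, 1), (15, 1), (23, 1), (75, 1), (149, 1), (31, 1), (79, 1), (151, 1), (661, 1), (95, 1), (159, 1), (663, 1), (223, 1), (671, 1)]
(.lp [[5], [0, 2, 4, 7, 9], [1, 3, 6, 8, 10]] [(.mj 0 1, 21978), (.mj 3 4, 34246), (.mj 4 6, 4498), (.mj 7 8, 10512), (.mj 8 5, 8295), (.hz 24 39, 2846084), (.hz 24 47, 335127), (.hz 25 159, 6299531), (.hz 25 223, 3937165), (.hz 25 671, 12869800), (.hz 25 479, 7595842), (.hz 25 735, 3168256), (.hz 25 1503, 14442221), (.rw 8, 4)])))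
(.haz 9 159 4 25
(.cut 5 [(0, 1), (1, 1), (2, 1), (3, 1), (5, 1), (7, 1), (11, 1), (21, 1), (15, 1), (23, 1), (75, 1), (149, 1), (31, 1), (79, 1), (151, 1), (661, 1), (159, 1), (335, 1)]
(.cut 5 [(0, 1), (1, 1), (2, 1), (3, 1), (5, 1), (7, 1), (11, 1), (21, 1), (15, 1), (23, 1), (75, 1), (149, 1), (31, 1), (79, 1), (151, 1), (661, 1), (95, 1), (159, 1), (335, 1), (223, 1), (351, 1)]
(.lp [[5], [1, 3, 6, 8], [0, 2, 4, 7, 9]] [(.mj 0 1, 777292), (.mj 3 4, 258389), (.mj 4 6, 10281), (.mj 7 8, 8690), (.mj 8 5, 15563), (.hz 24 39, 16613991), (.hz 24 47, 2112884), (.hz 22 661, 32285666), (.hz 26 159, 7279954), (.hz 26 191, 19280134), (.hz 26 223, 3838420), (.hz 26 255, 33692243), (.rw 8, 3), (.rw 9, 23)])))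
(.lp [[5], [1, 3, 6, 8], [0, 2, 4, 7, 9]] [(.mj 0 1, 4649), (.mj 3 4, 1068), (.mj 7 8, 6), (.mj 8 5, 40), (.hz 24 39, 54719), (.hz 26 149, 28045), (.hz 24 47, 7173), (.hz 23 47, 9257), (.hz 26 151, 7214), (.hz 25 159, 10704), (.hz 24 111, 7968), (.hz 25 223, 28956), (.hz 25 671, 39953), (.hz 23 703, 39276), (.hz 25 479, 7969), (.hz 25 735, 10367)]))))
(.lp [[5], [1, 3, 6, 8], [0, 2, 4, 7, 9]] [(.mj 0 1, 61), (.mj 3 4, 21), (.mj 4 6, 5), (.hz 25 7, 29), (.hz 25 15, 420), (.hz 24 39, 1075), (.hz 25 31, 165), (.hz 23 47, 1038), (.hz 22 661, 1948), (.hz 15 63, 229), (.hz 14 663, 573)]))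
(.lp [[5], [1, 3, 6, 8], [0, 2, 4, 7, 9]] [(.mj 3 4, 37167), (.mj 4 6, 16520), (.mj 9 5, 4544), (.mj 9 8, 4544), (.rw 6, 4), (.hz 20 15, 6728), (.hz 24 39, 2738086), (.hz 24 47, 361427), (.hz 23 47, 3303987), (.hz 15 63, 2581624)])
.fin))
(.lp [[5], [0, 2, 4, 7], [1, 3, 6, 8]] [(.mj 0 1, 413), (.mj 3 4, 97), (.mj 4 6, 4), (.hz 20 15, 1720), (.hz 24 39, 4699), (.hz 23 47, 819)]))
(.lp [[5], [0, 2, 4, 7], [1, 3, 6, 8]] [(.mj 0 1, 140), (.mj 4 6, 7), (.hz 24 7, 3119), (.hz 20 7, 2127), (.hz 20 15, 1645), (.hz 21 39, 2142), (.hz 22 149, 10708), (.hz 23 47, 1380)]))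
(.lp [[5], [0, 2, 4, 7], [1, 3, 6, 8]] [(.mj 0 1, 1204), (.mj 3 4, 659), (.mj 7 5, 25), (.hz 20 15, 33364), (.hz 23 15, 63034), (.hz 21 39, 83627), (.hz 19 47, 36057), (.hz 15 63, 23928)]))
(.lp [[5], [0, 2, 4, 7], [1, 3, 6, 8]] [(.mj 3 4, 14), (.mj 4 6, 6), (.hz 22 5, 2826), (.hz 22 21, 1870), (.hz 21 39, 2158), (.hz 5 149, 362), (.hz 19 47, 3158)]))
(.lp [[5], [0, 2, 4, 7], [1, 3, 6, 8]] [(.mj 0 1, 7), (.hz 21 5, 52), (.hz 21 7, 181), (.hz 20 7, 82), (.hz 20 15, 54), (.hz 18 39, 134), (.hz 5 149, 27)])))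
(.lp [[5], [0, 2, 4, 7], [1, 3, 6, 8]] [(.mj 3 4, 18), (.mj 7 5, 5), (.hz 19 15, 6669), (.hz 18 39, 9250), (.hz 11 47, 3253), (.hz 16 63, 6879), (.hz 15 63, 835)]))
(.haz 6 47 3 10
(.ask 39
(.mark 127 [7, 8, 9]
(.lp [[5, 9], [0, 2, 4, 7], [1, 3, 6, 8]] [(.mj 0 1, 36), (.mj 3 4, 31), (.mj 4 6, 29), (.mj 8 5, 4), (.mj 8 7, 6), (.hz 18 39, 13136), (.hz 19 47, 15723), (.hz 15 63, 242), (.hz 17 159, 1080), (.hz 19 559, 29312), (.hz 15 127, 4327), (.hz 16 575, 1208), (.hz 15 575, 4027), (.hz 15 639, 9156)]))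
(.ask 149
(.mark 223 [5, 8, 9]
(.cut 5 [(0, 1), (1, 1), (2, 1), (3, 1), (5, 1), (7, 1), (11, 1), (21, 1), (15, 1), (23, 1), (75, 1), (149, 1), (31, 1), (79, 1), (151, 1), (661, 1), (95, 1), (159, 1), (223, 1)]
(.lp [[5], [1, 3, 6, 8], [0, 2, 4, 7, 9]] [(.mj 3 4, 2610), (.mj 4 6, 5649), (.mj 8 5, 1376), (.mj 8 7, 1785), (.hz 19 47, 4195062), (.hz 5 661, 26801), (.hz 15 63, 1032649), (.hz 17 159, 355976), (.hz 15 127, 1444230), (.rw 7, 1)])))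
(.cut 5 [(0, 1), (1, 1), (2, 1), (3, 1), (5, 1), (7, 1), (11, 1), (21, 1), (15, 1), (23, 1), (75, 1), (149, 1), (31, 1), (79, 1), (95, 1)]
(.lp [[5], [0, 2, 4, 7], [1, 3, 6, 8]] [(.mj 0 1, 8500), (.mj 3 4, 3201), (.mj 4 6, 5051), (.mj 8 5, 1425), (.mj 8 7, 2056), (.hz 19 47, 3908455), (.hz 16 63, 291988), (.hz 15 63, 839679), (.hz 17 159, 518484), (.hz 15 127, 1947706), (.rw 7, 1)]))))
(.lp [[5], [0, 2, 4, 7], [1, 3, 6, 8]] [(.mj 8 5, 1), (.mj 8 7, 1), (.hz 19 15, 966), (.hz 18 39, 178), (.hz 11 47, 312), (.hz 16 63, 1472), (.hz 17 159, 217)]))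
.fin))
(.ref 0))
(.lp [[5], [1, 3, 6], [0, 2, 4, 7]] [(.mj 0 1, 142), (.mj 6 5, 11), (.hz 18 5, 3072), (.hz 18 7, 7778), (.hz 7 39, 729), (.hz 10 39, 1979), (.hz 5 149, 440), (.hz 11 47, 8014), (.hz 15 63, 2612)]))

theorem run108 : run P3488 (leaf3 218 625) (cutRow P3488) [s107] t108 s108 = true := by
  decide +kernel

theorem bad108 : Bad P3488 s108 :=
  run_sound (leaf3_sound P3488 rfl rfl) (cutRow_sound P3488) (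
    List.forall_mem_cons.2 ⟨bad107, fun _ h => absurd h List.not_mem_nil⟩) t108 s108 run108

/-- the state above piece 219 of the tree -/
def s219 : St := ⟨[0, 0, 1, 3, 5, 15, 23, 47, 47, 127, 191, 639], [767, 255, 175, 127, 95, 87, 63, 31, 23, 21, 15, 11, 7, 5, 3, 2, 1, 0], [0, 1, 2, 3, 4, 5, 6, 7, 9, 10],
  [(5, 6), (4, 5)],
  [⟨true, 2, 3, 3, 10⟩, ⟨true, 1, 5, 2, 5⟩, ⟨true, 2, 3, 23, 50⟩, ⟨true, 1, 5, 12, 25⟩, ⟨true, 1, 21, 27, 50⟩, ⟨true, 4, 15, 9, 40⟩, ⟨true, 3, 23, 11, 20⟩, ⟨true, 4, 47, 7, 20⟩, ⟨true, 4, 47, 17, 40⟩, ⟨true, 4, 47, 9, 20⟩, ⟨true, 4, 47, 19, 40⟩, ⟨true, 5, 95, 1, 5⟩, ⟨true, 5, 95, 3, 10⟩, ⟨true, 5, 31, 3, 10⟩, ⟨true, 5, 95, 11, 25⟩, ⟨true, 6, 63, 3, 20⟩, ⟨true, 8, 255, 1, 50⟩, ⟨true, 6, 319, 13, 40⟩, ⟨true, 6, 191, 13, 40⟩, ⟨true, 7, 383, 3, 40⟩, ⟨true, 8, 191, 1, 20⟩, ⟨true, 6, 319, 17, 40⟩,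 ⟨true, 6, 319, 19, 40⟩, ⟨true, 7, 639, 7, 40⟩, ⟨true, 7, 319, 7, 40⟩],
  [.spn 0 0 651200, .spn 1 1 302400, .spn 3 2 302400, .spn 7 3 302400, .spn 15 4 302400, .spn 31 5 302400, .spn 63 6 140426, .spn 127 7 140426, .spn 255 9 140426, .spn 767 10 140426]⟩

/-- piece 219 of the tree -/
noncomputable def t219 : WN.Tree :=
(.haz 7 319 11 40
(.haz 8 3839 3 40
(.ask 1215
(.mark 1791 [8, 11, 12]
(.spn
(.ask 2687
(.mark 2815 [8, 10, 13]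
(.lp [[8], [1, 3, 5, 7, 10, 12], [0, 2, 4, 6, 9, 11, 13]] [(.mj 8 11, 41601), (.mj 9 10, 93710), (.mj 10 8, 44199), (.rw 9, 50), (.rw 10, 72), (.hz 20 5311, 209852349), (.hz 20 5375, 864182418), (.hz 23 10879, 6263296), (.hz 26 3839, 82552096), (.hz 20 11007, 412913559)]))
(.lp [[8], [0, 2, 4, 6, 9, 11], [1, 3, 5, 7, 10, 12]] [(.mj 6 7, 9460), (.mj 8 11, 1998), (.mj 10 8, 4451), (.rw 9, 2), (.rw 10, 8), (.hz 20 5311, 21198310), (.hz 20 2815, 41020791), (.hz 20 5375, 47778848)]))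
(.haz 8 255 3 40
(.maj 8 12
(.cut 8 [(0, 1), (1, 1), (2, 1), (3, 1), (5, 1), (7, 1), (11, 1), (21, 1), (15, 1), (23, 1), (31, 1), (47, 1), (87, 1), (63, 1), (95, 1), (175, 1), (127, 1), (191, 1), (255, 1), (639, 1), (1215, 1), (767, 1), (1279, 1), (2687, 1), (1791, 1), (2815, 1)]
(.cut 8 [(0, 1), (1, 1), (2, 1), (3, 1), (5, 1), (7, 1), (11, 1), (21, 1), (15, 1), (23, 1), (31, 1), (47, 1), (87, 1), (63, 1), (95, 1), (175, 1), (127, 1), (191, 1), (255, 1), (639, 1), (1215, 1), (767, 1), (1279, 1), (1791, 1)]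
(.lp [[8], [0, 2, 4, 6, 9, 11], [1, 3, 5, 7, 10, 12]] [(.mj 6 7, 6584), (.mj 10 11, 7447), (.mj 11 8, 5232), (.hz 27 5375, 35033532), (.hz 27 5887, 50552891), (.rw 11, 1), (.rw 12, 14)])))
(.cut 8 [(0, 1), (1, 1), (2, 1), (3, 1), (5, 1), (7, 1), (11, 1), (21, 1), (15, 1), (23, 1), (31, 1), (47, 1), (87, 1), (63, 1), (95, 1), (175, 1), (127, 1), (191, 1), (255, 1), (639, 1), (1215, 1), (767, 1), (1279, 1), (2687, 2), (1791, 1), (2815, 1)]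
(.cut 8 [(0, 1), (1, 1), (2, 1), (3, 1), (5, 1), (7, 1), (11, 1), (21, 1), (15, 1), (23, 1), (31, 1), (47, 1), (87, 1), (63, 1), (95, 1), (175, 1), (127, 1), (191, 1), (255, 1), (639, 1), (1215, 1), (767, 1), (1279, 1), (1791, 1)]
(.lp [[8], [0, 2, 4, 6, 9, 11], [1, 3, 5, 7, 10, 12]] [(.mj 6 7, 51463), (.mj 9 10, 67652), (.mj 10 11, 76070), (.mj 12 8, 76070), (.hz 27 255, 58243394), (.hz 27 767, 21239221), (.hz 27 2815, 141944889), (.hz 25 2943, 33990196), (.hz 26 3839, 96915057), (.rw 11, 13), (.rw 12, 177)]))))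
(.lp [[8], [0, 2, 4, 6, 9, 11], [1, 3, 5, 7, 10, 12]] [(.mj 3 4, 182), (.mj 6 7, 45), (.hz 27 47, 6693), (.hz 27 63, 2902), (.hz 25 319, 13704)]))
(.cut 8 [(0, 1), (1, 1), (2, 1), (3, 1), (5, 1), (7, 1), (11, 1), (21, 1), (15, 1), (23, 1), (31, 1), (47, 1), (87, 1), (63, 1), (95, 1), (175, 1), (127, 1), (191, 1), (255, 1), (639, 1), (1215, 1), (767, 1), (5311, 1)]
(.lp [[8], [0, 2, 4, 6, 9, 11], [1, 3, 5, 7, 10, 12]] [(.mj 9 10, 7552), (.mj 12 8, 2581), (.mj 12 11, 2492), (.rw 9, 6), (.hz 20 1215, 16643634), (.hz 20 1279, 9232239), (.hz 23 2687, 214016), (.hz 20 5311, 21580350), (.hz 20 2815, 12611105), (.hz 22 5567, 17597679), (.hz 26 3839, 36701524), (.rw 11, 5)]))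
.fin))
(.haz 10 2815 6 25
(.haz 10 2815 8 25
(.ask 1279
(.mark 1791 [8, 11, 12]
(.spn
(.haz 12 2047 7 20
(.lp [[8], [0, 2, 4, 6, 9, 11], [1, 3, 5, 7, 10, 12]] [(.mj 8 11, 1123), (.mj 9 10, 3540), (.mj 10 8, 1156), (.rw 9, 2), (.rw 10, 5), (.hz 23 2687, 77829), (.hz 20 2815, 4586135), (.hz 29 2047, 31903886)])
(.lp [[8], [0, 2, 4, 6, 9, 11], [1, 3, 5, 7, 10, 12]] [(.mj 8 11, 6), (.mj 9 10, 5), (.mj 10 8, 6), (.hz 29 1279, 3144), (.hz 29 1791, 26637)]))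
(.haz 7 383 3 8
(.haz 11 5887 3 10
(.maj 8 12
(.ask 2687
(.mark 3839 [8, 12, 13]
(.cut 8 [(0, 1), (1, 1), (2, 1), (3, 1), (5, 1), (7, 1), (11, 1), (21, 1), (15, 1), (23, 1), (31, 1), (47, 1), (87, 1), (63, 1), (95, 1), (175, 1), (127, 1), (191, 1), (255, 1), (639, 1), (1215, 1), (767, 1), (1279, 1), (2687, 1), (1791, 1), (2815, 1)]
(.lp [[8], [1, 3, 5, 7, 10, 12], [0, 2, 4, 6, 9, 11, 13]] [(.mj 6 7, 2894), (.mj 8 12, 864), (.mj 9 10, 2151), (.mj 10 11, 5266), (.mj 11 8, 4588), (.hz 20 5375, 45681129), (.hz 20 5887, 80245959), (.hz 26 12031, 13471749), (.rw 11, 10)])))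
(.ask 2815
(.mark 3839 [8, 12, 13]
(.cut 8 [(0, 1), (1, 1), (2, 1), (3, 1), (5, 1), (7, 1), (11, 1), (21, 1), (15, 1), (23, 1), (31, 1), (47, 1), (87, 1), (63, 1), (95, 1), (175, 1), (127, 1), (191, 1), (255, 1), (639, 1), (1215, 1), (767, 1), (1279, 1), (2687, 1), (1791, 1)]
(.lp [[8], [1, 3, 5, 7, 10, 12], [0, 2, 4, 6, 9, 11, 13]] [(.mj 6 7, 2273), (.mj 8 12, 271), (.mj 10 11, 1735), (.mj 11 8, 1725), (.hz 20 5375, 16281427), (.hz 20 5887, 33321898), (.hz 26 12031, 4226679), (.rw 11, 4)])))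
(.ask 3839
(.mark 3839 [8, 12, 13]
(.spn
(.haz 13 7935 7 20
(.lp [[8], [1, 3, 5, 7, 10, 12], [0, 2, 4, 6, 9, 11, 13]] [(.mj 6 7, 14570), (.mj 8 13, 2790), (.mj 10 11, 2267), (.mj 11 8, 8396), (.rw 11, 14), (.hz 20 5375, 100650205), (.hz 20 5887, 99427539), (.hz 26 7935, 48629257), (.hz 31 7935, 38455772)])
(.lp [[8], [1, 3, 5, 7, 10, 12], [0, 2, 4, 6, 9, 11, 13]] [(.mj 6 7, 7), (.mj 8 12, 10), (.mj 10 11, 3), (.mj 11 8, 11), (.hz 31 3839, 88286)]))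
(.con 12 8)
(.cut 8 [(0, 1), (1, 1), (2, 1), (3, 1), (5, 1), (7, 1), (11, 1), (21, 1), (15, 1), (23, 1), (31, 1), (47, 1), (87, 1), (63, 1), (95, 1), (175, 1), (127, 1), (191, 1), (255, 1), (639, 1), (1215, 1), (767, 1), (1279, 1), (2687, 1), (1791, 1), (2815, 1), (3839, 1)]
(.lp [[8], [1, 3, 5, 7, 10, 12], [0, 2, 4, 6, 9, 11, 13]] [(.mj 3 4, 1254), (.mj 6 7, 293), (.mj 13 8, 557), (.rw 12, 2)]))
.fin))
(.lp [[8], [0, 2, 4, 6, 9, 11], [1, 3, 5, 7, 10, 12]] [(.mj 8 12, 1), (.mj 11 8, 1)]))))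
(.ask 2687
(.mark 3839 [8, 12, 13]
(.cut 8 [(0, 1), (1, 1), (2, 1), (3, 1), (5, 1), (7, 1), (11, 1), (21, 1), (15, 1), (23, 1), (31, 1), (47, 1), (87, 1), (63, 1), (95, 1), (175, 1), (127, 1), (191, 1), (255, 1), (639, 1), (767, 1), (2687, 1), (2815, 1)]
(.lp [[8], [1, 3, 5, 7, 10, 12], [0, 2, 4, 6, 9, 11, 13]] [(.mj 3 4, 4188), (.mj 6 7, 444), (.mj 9 10, 1518), (.mj 10 11, 665), (.mj 12 8, 1676), (.hz 10 303, 145888), (.hz 22 319, 164602), (.hz 23 10879, 88744), (.hz 26 3839, 5710794), (.hz 20 11007, 6083311), (.hz 28 11007, 766660), (.hz 26 7935, 2357643), (.hz 26 12031, 9558639), (.rw 11, 4)])))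
(.cut 8 [(0, 1), (1, 1), (2, 1), (3, 1), (5, 1), (7, 1), (11, 1), (21, 1), (15, 1), (23, 1), (31, 1), (47, 1), (87, 1), (63, 1), (95, 1), (175, 1), (127, 1), (191, 1), (255, 1), (639, 1), (1215, 1), (767, 1), (1279, 1), (2687, 1), (1791, 1)]
(.lp [[8], [0, 2, 4, 6, 9, 11], [1, 3, 5, 7, 10, 12]] [(.mj 6 7, 665), (.mj 10 11, 190), (.mj 12 8, 311), (.hz 26 3839, 934459), (.rw 11, 1)]))))
(.lp [[8], [0, 2, 4, 6, 9, 11], [1, 3, 5, 7, 10, 12]] [(.mj 9 10, 281), (.mj 11 12, 286), (.rw 10, 1), (.hz 30 1791, 19719354)]))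
(.cut 8 [(0, 1), (1, 1), (2, 1), (3, 1), (5, 1), (7, 1), (11, 1), (21, 1), (15, 1), (23, 1), (31, 1), (47, 1), (87, 1), (63, 1), (95, 1), (175, 1), (127, 1), (191, 1), (255, 1), (639, 1)]
(.cut 8 [(0, 1), (1, 1), (2, 1), (3, 1), (5, 1), (7, 1), (11, 1), (21, 1), (15, 1), (23, 1), (31, 1), (47, 1), (87, 1), (63, 1), (95, 1), (175, 1), (127, 1), (191, 1), (255, 1), (639, 1), (1215, 1), (767, 1), (1279, 1)]
(.lp [[8], [0, 2, 4, 6, 9, 11], [1, 3, 5, 7, 10, 12]] [(.mj 3 4, 28956), (.mj 7 9, 39914), (.mj 9 10, 7480), (.mj 10 11, 6838), (.mj 11 8, 33628), (.rw 10, 2), (.hz 29 127, 146214674), (.hz 25 383, 13552683), (.rw 11, 28), (.rw 12, 43)]))))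
(.cut 8 [(0, 1), (1, 1), (2, 1), (3, 1), (5, 1), (7, 1), (11, 1), (21, 1), (15, 1), (23, 1), (31, 1), (47, 1), (87, 1), (63, 1), (95, 1), (175, 1), (127, 1), (191, 1), (255, 1), (639, 1), (1215, 1), (767, 1), (1279, 1), (1791, 1)]
(.lp [[8], [0, 2, 4, 6, 9, 11], [1, 3, 5, 7, 10, 12]] [(.mj 9 10, 7391), (.mj 12 8, 4733), (.mj 12 11, 4733), (.hz 25 2943, 4904562), (.rw 11, 13)]))
.fin))
(.ref 0))
(.lp [[8], [1, 3, 5, 7, 10], [0, 2, 4, 6, 9, 11]] [(.mj 3 4, 11015), (.mj 10 8, 6957), (.mj 10 11, 9677), (.rw 9, 13), (.hz 28 255, 7901211), (.hz 28 767, 66806706), (.hz 20 1279, 10607704), (.hz 20 2815, 152242024)]))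
(.lp [[8], [1, 3, 5, 7, 10], [0, 2, 4, 6, 9, 11]] [(.mj 7 9, 674), (.mj 10 11, 310), (.rw 9, 2), (.hz 27 767, 7015633)])))
(.lp [[8], [1, 3, 5, 7, 10], [0, 2, 4, 6, 9, 11]] [(.mj 3 4, 182), (.mj 6 7, 45), (.hz 26 47, 6693), (.hz 26 63, 2902), (.hz 25 319, 13704)]))
(.cut 8 [(0, 1), (1, 1), (2, 1), (3, 1), (5, 1), (7, 1), (11, 1), (21, 1), (15, 1), (23, 1), (31, 1), (47, 1), (87, 1), (63, 1), (95, 1), (175, 1), (127, 1), (191, 1), (255, 1)]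
(.lp [[8], [1, 3, 5, 7, 10], [0, 2, 4, 6, 9, 11]] [(.mj 3 4, 1181), (.mj 7 9, 685), (.mj 9 8, 353), (.mj 10 8, 583), (.mj 10 11, 134), (.hz 25 63, 625203), (.hz 22 319, 58670), (.hz 24 319, 401531), (.hz 24 383, 52670), (.rw 10, 1)])))

theorem run219 : run P3488 (leaf3 218 625) (cutRow P3488) [s218] t219 s219 = true := by
  decide +kernel

theorem bad219 : Bad P3488 s219 :=
  run_sound (leaf3_sound P3488 rfl rfl) (cutRow_sound P3488) (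
    List.forall_mem_cons.2 ⟨bad218, fun _ h => absurd h List.not_mem_nil⟩) t219 s219 run219

/-- the state above piece 68 of the tree -/
def s68 : St := ⟨[0, 0, 1, 1, 3, 5, 23], [23, 19, 7, 3, 2, 1, 0], [0, 1, 2, 4, 5],
  [],
  [⟨true, 1, 9, 7, 50⟩, ⟨true, 2, 11, 3, 50⟩, ⟨true, 2, 9, 9, 50⟩, ⟨false, 3, 3, 1, 5⟩, ⟨true, 2, 3, 1, 4⟩, ⟨true, 1, 9, 3, 10⟩, ⟨true, 2, 9, 3, 10⟩, ⟨true, 1, 9, 7, 20⟩, ⟨true, 1, 5, 7, 20⟩, ⟨true, 3, 37, 1, 20⟩, ⟨true, 2, 11, 2, 5⟩, ⟨true, 4, 39, 7, 20⟩],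
  [.spn 0 0 651200, .spn 1 1 140426, .spn 3 2 140426, .spn 7 4 140426, .spn 23 5 140426]⟩

/-- piece 68 of the tree -/
noncomputable def t68 : WN.Tree :=
(.haz 3 87 1 20
(.haz 2 9 7 20
(.haz 2 11 19 40
(.haz 1 9 2 5
(.haz 4 11 1 4
(.haz 5 87 9 40
(.ask 37
(.mark 55 [3, 6, 7]
(.spn
(.haz 6 183 3 20
(.lp [[3], [1, 4, 6], [0, 2, 5, 7]] [(.mj 3 6, 1168), (.mj 4 5, 1834), (.mj 5 3, 1455), (.rw 5, 1), (.hz 9 165, 145632), (.hz 12 87, 227391), (.hz 17 87, 74321), (.hz 9 167, 735825), (.hz 18 183, 511217)])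
(.lp [[3], [1, 4, 6], [0, 2, 5, 7]] [(.mj 4 5, 8), (.mj 5 3, 5), (.hz 18 23, 909), (.hz 18 55, 551)]))
(.haz 6 183 2 5
(.ask 87
(.mark 119 [3, 7, 8]
(.spn
(.haz 7 375 1 5
(.ask 343
(.mark 375 [3, 7, 9]
(.lp [[3], [0, 2, 5, 7], [1, 4, 6, 8, 9]] [(.mj 3 7, 21), (.mj 3 8, 6), (.mj 4 5, 3), (.mj 5 6, 18), (.mj 6 3, 26), (.hz 8 165, 23), (.hz 9 165, 1116), (.hz 9 167, 5579), (.hz 9 183, 13406), (.hz 18 183, 3864), (.hz 12 343, 5495), (.hz 19 375, 57494), (.hz 12 855, 3200), (.hz 19 887, 64005)]))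
(.lp [[3], [0, 2, 5, 7], [1, 4, 6, 8]] [(.mj 3 7, 1155), (.mj 3 8, 769), (.mj 5 6, 83), (.mj 6 3, 1633), (.hz 9 165, 85793), (.hz 9 167, 433480), (.hz 9 183, 1228429), (.hz 19 375, 5431018)]))
(.lp [[3], [0, 2, 5, 7], [1, 4, 6, 8]] [(.mj 5 6, 1470), (.mj 6 3, 765), (.rw 6, 1), (.hz 19 37, 100075), (.hz 19 39, 420179), (.hz 9 165, 26566), (.hz 19 55, 1006865), (.hz 9 167, 126830), (.hz 19 119, 727402), (.hz 9 183, 334598), (.hz 12 343, 1177691)]))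
(.ask 343
(.mark 375 [3, 7, 9]
(.cut 3 [(0, 1), (1, 1), (2, 1), (3, 1), (5, 1), (7, 1), (19, 1), (23, 1), (87, 1), (343, 1)]
(.cut 3 [(0, 1), (1, 1), (2, 1), (3, 1), (5, 1), (7, 1), (19, 1), (37, 1), (23, 1), (39, 1), (55, 1), (87, 1), (119, 1), (343, 1), (375, 1)]
(.lp [[3], [0, 2, 5, 7], [1, 4, 6, 8, 9]] [(.mj 4 5, 15486), (.mj 5 6, 6134), (.mj 7 3, 8286), (.mj 7 8, 1260), (.hz 12 343, 2786505), (.hz 9 375, 3591882), (.hz 17 863, 3107076), (.rw 7, 20), (.rw 8, 6)]))))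
(.cut 3 [(0, 1), (1, 1), (2, 1), (3, 1), (5, 1), (7, 1), (19, 1), (37, 1), (23, 1), (39, 1), (55, 1), (87, 1), (119, 1), (343, 1)]
(.lp [[3], [0, 2, 5, 7], [1, 4, 6, 8]] [(.mj 4 5, 6988), (.mj 7 3, 2524), (.mj 7 8, 1053), (.rw 6, 1), (.rw 7, 11)])))
(.cut 3 [(0, 1), (1, 1), (2, 1), (3, 1), (5, 1), (7, 1), (19, 1), (37, 1), (23, 1), (39, 1), (165, 2), (55, 1), (87, 1), (167, 1), (119, 1), (343, 1)]
(.cut 3 [(0, 1), (1, 1), (2, 1), (3, 1), (5, 1), (7, 1), (19, 1), (37, 1), (23, 1), (39, 1), (55, 1)]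
(.lp [[3], [0, 2, 5, 7], [1, 4, 6, 8]] [(.mj 4 5, 9434), (.mj 5 6, 11339), (.mj 8 3, 8008), (.mj 8 7, 1385), (.hz 9 165, 51407), (.hz 9 167, 2213378), (.hz 18 183, 1309553), (.hz 12 343, 638154), (.hz 18 191, 13613511), (.hz 9 247, 5476270), (.rw 7, 2), (.rw 8, 24)])))
.fin))
(.ask 119
(.mark 119 [3, 7, 8]
(.spn
(.haz 8 247 13 40
(.lp [[3], [0, 2, 5, 7], [1, 4, 6, 8]] [(.mj 3 7, 3526), (.mj 3 8, 13348), (.mj 4 5, 14448), (.mj 6 3, 22331), (.rw 6, 13), (.hz 9 165, 2655775), (.hz 9 167, 13418655), (.hz 9 183, 24719547), (.hz 19 247, 6611066)])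
(.lp [[3], [0, 2, 5, 7], [1, 4, 6, 8]] [(.mj 3 7, 4), (.mj 6 3, 5), (.hz 19 119, 1100)]))
(.cut 3 [(0, 1), (1, 1), (2, 1), (3, 1), (5, 1), (7, 1), (19, 1), (37, 1), (23, 1), (39, 1), (165, 2), (55, 1), (87, 1), (167, 1), (119, 1), (183, 1)]
(.cut 3 [(0, 1), (1, 1), (2, 1), (3, 1), (5, 1), (7, 1), (19, 1), (37, 1), (23, 1), (39, 1), (165, 1), (87, 1)]
(.lp [[3], [0, 2, 5, 7], [1, 4, 6, 8]] [(.mj 4 5, 8994), (.mj 7 3, 4621), (.mj 7 8, 1200), (.hz 9 37, 887531), (.hz 9 39, 2316472), (.hz 8 165, 224220), (.hz 9 165, 217691), (.hz 9 375, 4247534), (.rw 7, 1), (.rw 8, 5)])))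
(.cut 3 [(0, 1), (1, 1), (2, 1), (3, 1), (5, 1), (7, 1), (19, 1), (37, 1), (23, 1), (39, 1), (87, 1)]
(.cut 3 [(0, 1), (1, 1), (2, 1), (3, 1), (5, 1), (7, 1), (19, 1), (37, 1), (23, 1), (39, 1), (55, 1), (87, 1), (119, 1)]
(.lp [[3], [0, 2, 5, 7], [1, 4, 6, 8]] [(.mj 4 5, 638), (.mj 8 3, 13666), (.hz 15 173, 6452084), (.hz 11 175, 6938865), (.hz 18 191, 46776363), (.rw 7, 40), (.rw 8, 8)])))
.fin))
(.lp [[3], [1, 4, 6], [0, 2, 5, 7]] [(.mj 4 5, 7), (.mj 6 3, 4), (.hz 9 37, 660), (.hz 9 165, 255), (.hz 9 167, 3855), (.hz 17 95, 1302), (.hz 9 183, 5887)])))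
(.lp [[3], [1, 4, 6], [0, 2, 5, 7]] [(.mj 4 5, 2), (.mj 6 3, 6), (.mj 6 7, 6), (.hz 18 23, 5551), (.hz 9 165, 1177), (.hz 18 55, 12234), (.hz 9 167, 5946), (.hz 9 183, 10911)]))
(.cut 3 [(0, 1), (1, 1), (2, 1), (3, 1), (5, 1), (7, 1), (19, 1), (37, 1), (23, 1), (39, 1), (165, 1), (55, 1)]
(.lp [[3], [1, 4, 6], [0, 2, 5, 7]] [(.mj 4 5, 4982), (.mj 7 3, 3857), (.mj 7 6, 2451), (.hz 9 37, 491664), (.hz 9 39, 1992533), (.hz 9 165, 62876), (.hz 9 55, 204631), (.hz 12 87, 1667030), (.hz 17 87, 303112), (.hz 9 119, 4891261), (.rw 6, 1)]))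
.fin))
(.haz 3 119 3 40
(.ref 0)
(.cut 3 [(0, 1), (1, 1), (2, 1)]
(.cut 3 [(0, 1), (1, 1), (2, 1), (3, 1), (5, 1), (7, 1), (19, 1)]
(.cut 3 [(0, 1), (1, 1), (2, 1), (3, 1), (5, 1), (7, 1), (19, 1), (37, 1), (23, 1)]
(.lp [[3], [0, 2, 5], [1, 4, 6]] [(.mj 4 5, 55), (.hz 18 39, 913065), (.hz 18 55, 1084039), (.hz 18 87, 1084039), (.rw 5, 1), (.rw 6, 1), (.rw 7, 9)]))))))
(.lp [[3], [0, 2, 5], [1, 4, 6]] [(.mj 5 3, 2), (.mj 5 6, 2), (.hz 17 5, 30), (.hz 17 7, 98), (.hz 9 37, 10), (.hz 17 23, 187), (.hz 12 87, 1387)]))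
(.cut 3 [(0, 1), (1, 1), (2, 1), (3, 1), (5, 1), (7, 1)]
(.lp [[3], [0, 2, 5], [1, 4, 6]] [(.mj 4 5, 916), (.mj 5 3, 968), (.hz 16 3, 902586), (.hz 13 9, 24394), (.hz 9 37, 14882), (.hz 9 39, 42335), (.rw 5, 1)])))
(.cut 3 [(0, 1), (1, 1), (2, 1), (3, 1), (5, 1), (7, 1)]
(.lp [[3], [0, 2, 5], [1, 4, 6]] [(.mj 1 2, 8080), (.mj 4 3, 910), (.mj 4 5, 192), (.mj 5 3, 1277), (.hz 15 1, 1471365), (.hz 7 9, 228346), (.hz 13 9, 314872), (.hz 14 11, 98549), (.hz 14 27, 21270), (.hz 7 45, 24584), (.hz 12 87, 199587), (.rw 5, 1)])))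
(.cut 3 [(0, 1), (1, 1), (2, 1), (3, 1), (5, 1), (7, 1), (19, 1), (23, 1)]
(.lp [[3], [0, 2, 5], [1, 4, 6]] [(.mj 5 3, 8630), (.mj 5 6, 2257), (.hz 14 3, 1091684), (.hz 13 9, 383865), (.hz 10 11, 8177023), (.hz 8 37, 330378), (.hz 10 27, 3518035), (.hz 12 87, 2325217), (.rw 5, 1)])))
(.lp [[3], [0, 2, 5], [1, 4, 6]] [(.mj 5 3, 17), (.mj 5 6, 8), (.hz 13 1, 2612), (.hz 7 9, 213), (.hz 6 9, 3904), (.hz 10 11, 6184), (.hz 9 37, 1494), (.hz 9 39, 1517), (.hz 10 27, 4058), (.hz 9 55, 126), (.hz 12 87, 7012)]))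
(.cut 3 [(0, 1), (1, 1), (2, 1), (3, 1), (5, 1), (7, 1), (19, 1)]
(.lp [[3], [0, 2, 5], [1, 4, 6]] [(.hz 12 1, 49617), (.hz 12 3, 49617), (.rw 5, 1)])))

theorem run68 : run P3488 (leaf3 218 625) (cutRow P3488) [s67] t68 s68 = true := by
  decide +kernel

theorem bad68 : Bad P3488 s68 :=
  run_sound (leaf3_sound P3488 rfl rfl) (cutRow_sound P3488) (
    List.forall_mem_cons.2 ⟨bad67, fun _ h => absurd h List.not_mem_nil⟩) t68 s68 run68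

end Pool.Agent.WN.Data
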