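import Pool.Agent.WN.CutRow
import Pool.Agent.WN.LeafRow
import Pool.Agent.Helper99.WN.ParDef
import Pool.Agent.WN.Data.D3
import Pool.Agent.WN.Data.D5
import Pool.Agent.WN.Data.D6
import Pool.Agent.WN.Data.D14
import Pool.Agent.WN.Data.D16
import Pool.Agent.WN.Data.D25

/-!
# The search tree, part 30
-/

set_option autoImplicit false

namespace Pool.Agent.WN.Data

open Pool.Agent.W3 Pool.Agent.WN Pool.Agent.Helper99.WN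

/-- the state above piece 35 of the tree -/
def s35 : St := ⟨[0, 0, 1, 1, 3, 7, 9], [7, 5, 3, 2, 1, 0], [0, 1, 2, 3],
  [],
  [⟨true, 1, 9, 7, 50⟩, ⟨true, 2, 11, 3, 50⟩, ⟨true, 2, 9, 9, 50⟩, ⟨true, 3, 3, 1, 5⟩, ⟨true, 1, 5, 13, 50⟩],
  [.spn 0 0 651200, .spn 1 1 140426, .spn 3 2 140426, .spn 7 3 62723]⟩

/-- piece 35 of the tree -/
noncomputable def t35 : WN.Tree :=
(.mark 15 [4, 5, 6]
(.spn
(.haz 4 39 7 40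
(.ask 39
(.haz 5 79 7 40
(.haz 4 39 1 4
(.mark 39 [3, 4, 7]
(.lp [[1, 4], [3, 6], [0, 2, 5, 7]] [(.mj 1 2, 3), (.mj 2 3, 23), (.mj 3 4, 17), (.mj 4 5, 9), (.hz 3 19, 2002), (.hz 3 39, 1708), (.hz 7 39, 6104), (.hz 6 79, 2389), (.hz 7 167, 8139), (.hz 7 111, 10230)]))
(.mark 39 [3, 4, 7]
(.lp [[1, 4], [3, 6], [0, 2, 5, 7]] [(.mj 2 3, 38), (.mj 3 4, 6), (.mj 4 5, 28), (.hz 7 3, 8022), (.hz 7 7, 14707), (.hz 3 39, 14636), (.hz 5 39, 216), (.hz 6 79, 5539), (.hz 5 167, 261)])))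
(.lp [[1, 4], [3, 6], [0, 2, 5, 7]] [(.mj 2 3, 3), (.mj 3 4, 2), (.hz 6 7, 102), (.hz 3 19, 671), (.hz 6 15, 74)]))
(.lp [[1, 4], [3, 6], [0, 2, 5]] [(.mj 2 3, 10), (.mj 3 4, 6), (.mj 4 5, 3), (.hz 3 19, 2364), (.hz 5 39, 122)]))
(.lp [[1, 4], [3, 6], [0, 2, 5]] [(.mj 2 3, 5), (.mj 4 5, 4), (.mj 4 6, 1), (.hz 5 3, 137), (.hz 5 7, 235), (.hz 3 39, 2147)]))
(.haz 5 23 3 10
(.ask 39
(.mark 47 [4, 6, 7]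
(.spn
(.haz 4 111 3 25
(.haz 5 23 2 5
(.haz 7 111 7 25
(.haz 4 79 1 10
(.haz 4 111 9 50
(.haz 4 79 7 50
(.haz 7 111 9 25
(.ask 19
(.mark 63 [6, 7, 8]
(.lp [[3, 6], [1, 4, 8], [0, 2, 5, 7]] [(.mj 2 3, 1208), (.mj 3 5, 687), (.mj 4 7, 226), (.mj 5 4, 359), (.hz 3 275, 767420), (.hz 4 77, 8662), (.hz 11 79, 126218), (.hz 3 279, 155825), (.hz 7 279, 646845), (.hz 10 111, 35595), (.hz 12 111, 146868)]))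
(.ask 27
(.mark 63 [6, 7, 8]
(.lp [[3, 6], [1, 4, 8], [0, 2, 5, 7]] [(.mj 2 3, 37), (.mj 3 5, 26), (.mj 4 7, 3), (.mj 5 4, 4), (.hz 10 111, 1249), (.hz 12 111, 1854)]))
(.haz 6 15 8 25
(.lp [[1, 4], [3, 6], [0, 2, 5, 7]] [(.mj 3 5, 4), (.mj 4 6, 10), (.mj 4 7, 4), (.mj 5 4, 10), (.hz 13 15, 76), (.hz 13 31, 6645), (.hz 13 47, 482), (.hz 3 167, 3866), (.hz 13 175, 5842)])
(.haz 3 23 6 25
(.haz 7 111 2 5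
(.haz 4 79 4 25
(.ask 23
(.mark 23 [3, 5, 8]
(.lp [[3, 6], [1, 4, 8], [0, 2, 5, 7]] [(.mj 2 3, 709), (.mj 3 5, 354), (.mj 4 7, 188), (.mj 5 4, 302), (.hz 13 13, 47), (.hz 4 77, 9962), (.hz 16 79, 272532), (.hz 14 279, 51140), (.hz 7 279, 222363), (.hz 15 111, 610200)]))
(.lp [[1, 4], [3, 6], [0, 2, 5, 7]] [(.mj 2 3, 552), (.mj 3 5, 276), (.mj 4 7, 146), (.mj 5 4, 235), (.hz 4 77, 7797), (.hz 16 79, 212438), (.hz 15 111, 474900), (.hz 10 239, 79)]))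
(.lp [[1, 4], [3, 6], [0, 2, 5, 7]] [(.mj 2 3, 9), (.mj 3 5, 4), (.mj 4 7, 4), (.hz 16 7, 849), (.hz 16 15, 1353), (.hz 13 15, 160), (.hz 7 23, 974), (.hz 11 79, 870), (.hz 3 167, 297), (.hz 15 111, 12854)]))
(.lp [[1, 4], [3, 6], [0, 2, 5, 7]] [(.mj 2 3, 137), (.mj 3 5, 61), (.mj 4 6, 29), (.mj 5 4, 122), (.hz 13 13, 199), (.hz 15 39, 38202), (.hz 15 47, 153790), (.hz 11 79, 2162), (.hz 10 111, 53005), (.hz 12 111, 10191)]))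
(.lp [[1, 4], [3, 6], [0, 2, 5, 7]] [(.mj 3 5, 40), (.mj 5 4, 14), (.hz 14 1, 624), (.hz 14 3, 1274), (.hz 14 5, 822), (.hz 14 7, 3101), (.hz 3 19, 9822), (.hz 3 23, 6904), (.hz 7 23, 24756), (.hz 2 75, 362), (.hz 11 79, 2589)])))))
(.lp [[1, 4], [3, 6], [0, 2, 5, 7]] [(.mj 1 2, 1), (.mj 2 3, 14), (.mj 3 5, 6), (.mj 4 6, 3), (.mj 5 4, 13), (.hz 3 19, 243), (.hz 12 39, 779), (.hz 12 47, 3067), (.hz 11 79, 468), (.hz 10 111, 5165), (.hz 8 111, 1133)]))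
(.lp [[1, 4], [3, 6], [0, 2, 5, 7]] [(.mj 2 3, 16), (.mj 3 5, 5), (.mj 4 6, 1), (.mj 4 7, 8), (.hz 11 3, 324), (.hz 11 7, 539), (.hz 11 15, 948), (.hz 9 79, 8840), (.hz 3 167, 1784), (.hz 8 111, 5588)]))
(.lp [[1, 4], [3, 6], [0, 2, 5, 7]] [(.mj 2 3, 3195), (.mj 4 6, 1233), (.mj 4 7, 4944), (.rw 5, 4), (.hz 10 3, 88419), (.hz 10 7, 152037), (.hz 10 15, 139613), (.hz 10 39, 185411), (.hz 10 47, 1554561), (.hz 9 79, 677219), (.hz 8 111, 3645258)]))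
(.lp [[1, 4], [3, 6], [0, 2, 5, 7]] [(.mj 2 3, 4), (.mj 3 5, 2), (.mj 4 7, 1), (.hz 9 3, 346), (.hz 9 7, 558), (.hz 8 111, 673)]))
(.lp [[1, 4], [3, 6], [0, 2, 5, 7]] [(.mj 2 3, 12), (.mj 3 5, 6), (.mj 4 6, 5), (.mj 5 4, 13), (.hz 8 39, 719), (.hz 8 47, 2791), (.hz 6 111, 10961)]))
(.lp [[1, 4], [3, 6], [0, 2, 5, 7]] [(.mj 2 3, 29), (.mj 5 4, 16), (.hz 7 7, 16412), (.hz 3 19, 22632), (.hz 3 23, 4023), (.hz 5 23, 1969), (.hz 6 111, 6565)]))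
(.lp [[1, 4], [3, 6], [0, 2, 5, 7]] [(.mj 2 3, 1014), (.mj 4 6, 160), (.mj 4 7, 626), (.rw 5, 2), (.hz 6 3, 6418), (.hz 6 7, 41321), (.hz 3 19, 452008), (.hz 6 39, 46955), (.hz 6 47, 1043452)]))
(.haz 7 47 13 25
(.cut 4 [(0, 1), (1, 1), (2, 1), (3, 1), (5, 1), (9, 1), (7, 1), (11, 1), (13, 1), (73, 1), (15, 1), (39, 1), (77, 1), (47, 1)]
(.lp [[1, 4], [3, 6], [0, 2, 5, 7]] [(.mj 2 3, 43086), (.mj 6 7, 12648), (.rw 5, 26), (.hz 3 19, 23779421), (.hz 3 23, 8894805), (.hz 5 23, 2283643), (.hz 6 47, 8976189), (.hz 3 55, 46551524), (.hz 6 63, 9979608), (.rw 6, 10)]))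
(.haz 7 55 9 25
(.ask 167
(.mark 175 [4, 6, 8]
(.cut 4 [(0, 1), (1, 1), (2, 1), (3, 1), (5, 1), (9, 1), (7, 1), (11, 1), (13, 1), (73, 1), (15, 1), (39, 1), (77, 1), (47, 1), (167, 1), (175, 1)]
(.lp [[1, 4], [3, 6], [0, 2, 5, 7, 8]] [(.mj 2 3, 39967), (.mj 3 5, 252), (.mj 6 4, 9728), (.mj 6 7, 8836), (.hz 3 19, 23070384), (.hz 3 23, 9546366), (.hz 6 39, 1730875), (.hz 3 55, 1226486), (.hz 7 55, 4398466), (.hz 3 183, 47542127), (.rw 6, 4)])))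
(.lp [[1, 4], [3, 6], [0, 2, 5, 7]] [(.mj 2 3, 13), (.mj 6 4, 3), (.mj 6 7, 2), (.hz 3 19, 7333), (.hz 3 23, 3034), (.hz 6 47, 731), (.hz 7 55, 691), (.hz 7 63, 62), (.hz 3 183, 12340)]))
(.cut 4 [(0, 1), (1, 1), (2, 1), (3, 1), (5, 1), (9, 1), (7, 1), (11, 1), (13, 1), (73, 1), (15, 1), (39, 1), (77, 1), (47, 1)]
(.lp [[1, 4], [3, 6], [0, 2, 5, 7]] [(.mj 2 3, 16699), (.mj 3 5, 2647), (.mj 6 4, 3210), (.rw 5, 1), (.hz 3 19, 9216291), (.hz 3 23, 4355644), (.hz 7 39, 574919), (.hz 6 47, 865756), (.hz 3 55, 84377), (.hz 3 183, 694378), (.rw 6, 2)]))))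
(.ref 0)
.fin))
(.ask 47
(.mark 47 [4, 6, 7]
(.spn
(.haz 4 15 1 5
(.lp [[1, 4], [3, 6], [0, 2, 5, 7]] [(.mj 2 3, 23), (.mj 3 5, 3), (.mj 4 7, 7), (.mj 5 4, 32), (.hz 6 15, 44672), (.hz 4 77, 1078), (.hz 6 79, 113340)])
(.haz 7 111 8 25
(.lp [[1, 4], [3, 6], [0, 2, 5, 7]] [(.mj 2 3, 70), (.mj 4 7, 24), (.mj 5 4, 15), (.hz 6 7, 38499), (.hz 3 19, 28820), (.hz 7 111, 15683)])
(.lp [[1, 4], [3, 6], [0, 2, 5, 7]] [(.mj 2 3, 1), (.hz 6 3, 45), (.hz 6 7, 574), (.hz 3 19, 365), (.hz 7 47, 87)])))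
(.lp [[1, 4], [3, 6], [0, 2, 5, 7]] [(.mj 2 3, 4521), (.mj 3 5, 293), (.mj 6 4, 543), (.rw 5, 1), (.hz 3 19, 2609762), (.hz 3 23, 1079902), (.hz 3 55, 747141)])
(.ask 175
(.mark 175 [4, 6, 8]
(.spn
(.lp [[1, 4], [3, 6], [0, 2, 5, 7, 8]] [(.mj 7 4, 368), (.rw 6, 1)])
(.lp [[1, 4], [3, 6], [0, 2, 5, 7, 8]] [(.mj 2 3, 9802), (.mj 3 5, 636), (.rw 5, 1), (.rw 6, 4), (.hz 3 19, 5658051), (.hz 3 23, 2341262), (.hz 3 55, 1619827)])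
(.ask 431
(.mark 431 [4, 6, 9]
(.spn
(.lp [[1, 4], [3, 6], [0, 2, 5, 7, 8, 9]] [(.mj 8 4, 173), (.rw 7, 1)])
(.lp [[1, 4], [3, 6], [0, 2, 5, 7, 8, 9]] [(.mj 8 6, 368), (.rw 7, 1)])
(.maj 4 6
(.cut 4 [(0, 1), (1, 1), (2, 1), (3, 1), (5, 1), (9, 1), (7, 1), (11, 1), (13, 1), (15, 1), (39, 1), (47, 1)]
(.cut 4 [(0, 1), (1, 1), (2, 1), (3, 1), (5, 1), (9, 1), (7, 1), (11, 1), (13, 1), (15, 1), (39, 1), (47, 1), (175, 1)]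
(.cut 6 [(0, 1), (1, 1), (2, 1), (3, 1), (5, 1), (7, 1), (19, 1), (23, 1), (39, 1), (55, 1)]
(.lp [[1, 4], [3, 6], [0, 2, 5, 7, 8, 9]] [(.mj 2 3, 5373), (.mj 9 4, 4174), (.rw 8, 11), (.rw 9, 3), (.rw 10, 1)]))))
(.cut 4 [(0, 1), (1, 1), (2, 1), (3, 1), (5, 1), (9, 1), (7, 1), (11, 1), (13, 1), (73, 1), (15, 1), (39, 1), (77, 1), (47, 1), (175, 1)]
(.cut 6 [(0, 1), (1, 1), (2, 1), (3, 1), (5, 1), (9, 1), (7, 1), (11, 1), (13, 1), (15, 1), (39, 1), (47, 1)]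
(.lp [[1, 4], [3, 6], [0, 2, 5, 7, 8, 9]] [(.mj 1 2, 1368), (.mj 2 3, 4103), (.mj 6 4, 597), (.mj 9 4, 203), (.hz 3 19, 2275990), (.hz 3 23, 1571452), (.hz 3 55, 391900), (.rw 8, 1), (.rw 9, 1)]))))
.fin))
(.lp [[1, 4], [3, 6], [0, 2, 5, 7, 8]] [(.mj 8 6, 1), (.rw 6, 1)]))
.fin))
(.lp [[1, 4], [3, 6], [0, 2, 5, 7]] [(.mj 7 6, 1), (.rw 5, 1)]))
.fin))
(.lp [[1, 4], [3, 6], [0, 2, 5]] [(.mj 2 3, 2), (.mj 3 4, 1), (.hz 3 19, 342)])))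
(.lp [[1, 4], [3, 6], [0, 2, 5]] [(.mj 2 3, 17), (.mj 5 4, 9), (.hz 5 7, 5770), (.hz 3 19, 13220), (.hz 3 23, 4873)]))
(.lp [[1, 4], [3, 6], [0, 2, 5]] [(.mj 2 3, 77), (.mj 6 4, 31), (.mj 6 5, 38), (.hz 3 19, 44454), (.hz 3 23, 18395), (.hz 3 39, 25113)])
.fin))

theorem run35 : run P3488 (leaf3 218 625) (cutRow P3488) [s21] t35 s35 = true := by
  decide +kernel

theorem bad35 : Bad P3488 s35 :=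
  run_sound (leaf3_sound P3488 rfl rfl) (cutRow_sound P3488) (
    List.forall_mem_cons.2 ⟨bad21, fun _ h => absurd h List.not_mem_nil⟩) t35 s35 run35

/-- the state above piece 7 of the tree -/
def s7 : St := ⟨[0, 0, 1, 1, 2, 5], [13, 7, 9, 3, 1, 0], [0, 1, 2, 3],
  [],
  [⟨true, 1, 9, 7, 50⟩, ⟨true, 2, 11, 3, 50⟩, ⟨true, 2, 9, 9, 50⟩, ⟨true, 3, 3, 1, 5⟩],
  [.spn 0 0 651200, .spn 1 1 140426, .spn 3 2 140426, .spn 7 3 62723]⟩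

/-- piece 7 of the tree -/
noncomputable def t7 : WN.Tree :=
(.ask 11
(.mark 15 [4, 5, 6]
(.spn
(.haz 3 39 1 4
(.haz 4 79 3 20
(.haz 5 23 1 5
(.haz 5 79 3 20
(.haz 5 7 2 5
(.lp [[1, 4], [3, 6], [0, 2, 5]] [(.mj 0 1, 1), (.mj 2 3, 2), (.mj 3 4, 2), (.mj 4 5, 3), (.hz 8 7, 188), (.hz 3 19, 565), (.hz 8 15, 2828), (.hz 8 23, 1571), (.hz 2 75, 116), (.hz 8 79, 4249)])
(.haz 5 15 1 4
(.ask 37
(.mark 39 [3, 4, 7]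
(.lp [[1, 4], [3, 6], [0, 2, 5, 7]] [(.mj 0 1, 28), (.mj 2 3, 131), (.mj 3 4, 99), (.mj 4 5, 93), (.hz 8 5, 6210), (.hz 3 19, 9217), (.hz 6 23, 39308), (.hz 9 31, 42594), (.hz 5 79, 13298), (.hz 9 79, 202143), (.hz 4 167, 50635)]))
(.lp [[1, 4], [3, 6], [0, 2, 5]] [(.mj 0 1, 26), (.mj 2 3, 43), (.mj 3 4, 32), (.mj 4 5, 39), (.hz 9 15, 20643), (.hz 6 23, 16069), (.hz 4 39, 9035), (.hz 5 79, 4514), (.hz 9 79, 67436)]))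
(.lp [[1, 4], [3, 6], [0, 2, 5]] [(.mj 2 3, 5), (.mj 3 4, 3), (.hz 9 5, 586), (.hz 9 7, 1952), (.hz 9 13, 327), (.hz 9 15, 1678), (.hz 3 23, 1132), (.hz 6 23, 1405), (.hz 5 79, 876)])))
(.lp [[1, 4], [3, 6], [0, 2, 5]] [(.mj 2 3, 5), (.mj 3 4, 3), (.hz 7 5, 106), (.hz 7 7, 335), (.hz 3 19, 43), (.hz 7 13, 45), (.hz 7 15, 205), (.hz 6 23, 1410)]))
(.cut 5 [(0, 1), (1, 1), (2, 1), (3, 1), (5, 1), (9, 1), (18, 1), (7, 1), (11, 1), (13, 1), (19, 1), (15, 1), (27, 1), (75, 1), (91, 1)]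
(.lp [[1, 4], [3, 6], [0, 2, 5]] [(.mj 0 1, 4408), (.mj 2 3, 17403), (.mj 3 4, 9905), (.mj 4 5, 3866), (.hz 6 5, 1665942), (.hz 6 7, 3353322), (.hz 3 19, 2755132), (.hz 3 23, 3100971), (.hz 5 79, 2354779), (.rw 5, 1)])))
(.lp [[1, 4], [3, 6], [0, 2, 5]] [(.mj 2 3, 8), (.mj 4 5, 6), (.mj 4 6, 2), (.hz 5 2, 208), (.hz 5 3, 453), (.hz 5 7, 739), (.hz 4 39, 4277)]))
(.lp [[1, 4], [3, 6], [0, 2, 5]] [(.mj 3 4, 28), (.mj 4 5, 21), (.hz 4 3, 10748), (.hz 4 7, 21496), (.hz 3 19, 2388), (.hz 3 39, 22536)]))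
(.haz 4 79 2 25
(.haz 4 39 1 10
(.haz 3 39 13 50
(.haz 2 19 19 50
(.haz 4 39 7 50
(.haz 4 7 9 50
(.ask 75
(.mark 75 [2, 4, 7]
(.ask 203
(.mark 203 [2, 4, 8]
(.lp [[1, 4], [2, 5], [0, 3, 6, 7, 8]] [(.mj 1 2, 300), (.mj 2 3, 150), (.mj 3 5, 102), (.mj 5 4, 296), (.hz 9 7, 4572), (.hz 9 15, 37551), (.hz 9 39, 7658), (.hz 2 75, 2009), (.hz 9 79, 57925), (.hz 2 203, 10634), (.hz 9 207, 76921), (.hz 2 459, 17843), (.hz 9 463, 99128)]))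
(.mark 79 [4, 5, 7]
(.lp [[1, 4], [2, 5], [0, 3, 6, 7]] [(.mj 1 2, 29), (.mj 2 3, 6), (.mj 3 5, 4), (.mj 5 4, 21), (.hz 9 7, 433), (.hz 9 15, 2204), (.hz 9 39, 273), (.hz 9 47, 222), (.hz 9 79, 3175), (.hz 9 207, 4360)]))))
(.lp [[1, 4], [3, 6], [0, 2, 5]] [(.mj 1 2, 17), (.mj 2 3, 7), (.mj 3 5, 5), (.mj 5 4, 16), (.hz 9 7, 262), (.hz 9 15, 1902), (.hz 9 39, 371), (.hz 9 79, 2955)]))
(.ask 37
(.mark 39 [3, 4, 7]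
(.lp [[1, 4], [3, 6], [0, 2, 5, 7]] [(.mj 1 2, 27), (.mj 2 3, 20), (.mj 3 5, 2), (.mj 5 6, 1), (.hz 9 2, 276), (.hz 9 3, 440), (.hz 9 7, 778), (.hz 3 19, 7040), (.hz 6 39, 110), (.hz 4 79, 892), (.hz 6 167, 773)]))
(.ask 45
(.mark 47 [4, 6, 7]
(.lp [[1, 4], [3, 6], [0, 2, 5, 7]] [(.mj 1 2, 2), (.mj 2 3, 3), (.hz 9 2, 29), (.hz 9 3, 28), (.hz 9 7, 163), (.hz 3 19, 1525), (.hz 6 55, 24), (.hz 8 111, 132)]))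
(.ask 39
(.mark 47 [4, 6, 7]
(.spn
(.haz 6 47 13 50
(.maj 6 7
(.ask 167
(.mark 167 [3, 4, 8]
(.ask 423
(.mark 431 [4, 6, 9]
(.lp [[1, 4], [3, 6], [0, 2, 5, 7, 8, 9]] [(.mj 1 2, 11), (.mj 2 3, 8), (.mj 3 5, 22), (.mj 4 6, 38), (.mj 5 4, 46), (.mj 6 7, 6), (.hz 10 47, 1934), (.hz 8 167, 441), (.hz 10 63, 10230), (.hz 10 175, 5861), (.hz 10 191, 1100), (.hz 10 431, 9685), (.hz 6 935, 2192), (.hz 10 943, 12660)]))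
(.mark 175 [4, 6, 8]
(.lp [[1, 4], [3, 6], [0, 2, 5, 7, 8]] [(.mj 1 2, 17), (.mj 2 3, 13), (.mj 3 5, 15), (.mj 4 6, 38), (.mj 5 4, 51), (.mj 6 7, 11), (.hz 10 47, 1434), (.hz 10 63, 12408), (.hz 8 175, 4119), (.hz 10 175, 7012), (.hz 6 183, 875), (.hz 10 431, 10962)]))))
(.lp [[1, 4], [3, 6], [0, 2, 5, 7]] [(.mj 1 2, 67), (.mj 2 3, 42), (.mj 4 6, 16), (.mj 6 7, 9), (.hz 9 2, 717), (.hz 9 3, 1592), (.hz 9 7, 3793), (.hz 10 47, 1217), (.hz 10 63, 2177), (.hz 8 175, 3714), (.hz 10 175, 3756), (.hz 6 183, 1076)]))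
(.lp [[1, 4], [3, 6], [0, 2, 5, 7]] [(.mj 3 5, 7068), (.mj 4 7, 10241), (.mj 5 4, 17671), (.mj 7 6, 17671), (.rw 5, 7), (.hz 10 47, 596979), (.hz 6 167, 69410), (.hz 10 63, 18775002), (.hz 10 175, 3328462)]))
(.lp [[1, 4], [3, 6], [0, 2, 5, 7]] [(.mj 1 2, 394), (.mj 2 3, 110), (.mj 3 5, 46), (.mj 5 4, 84), (.hz 9 2, 2097), (.hz 9 3, 4655), (.hz 9 7, 1770), (.hz 10 11, 7288), (.hz 10 15, 7232), (.hz 8 39, 3435), (.hz 4 79, 29431)]))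
(.lp [[1, 4], [3, 6], [0, 2, 5, 7]] [(.mj 1 2, 12868), (.mj 2 3, 10546), (.mj 6 4, 5803), (.mj 6 7, 210), (.rw 5, 1), (.hz 9 2, 67372), (.hz 3 19, 6130888), (.hz 3 23, 850916), (.hz 8 39, 103001), (.hz 8 47, 1806710), (.hz 4 79, 917054), (.hz 6 167, 509016), (.hz 8 167, 316417), (.hz 8 175, 1496413)])
(.haz 6 47 13 50
(.lp [[1, 4], [3, 6], [0, 2, 5, 7]] [(.mj 1 2, 11), (.mj 2 3, 15), (.mj 3 5, 11), (.mj 7 4, 14), (.mj 7 6, 6), (.hz 9 2, 97), (.hz 9 7, 23), (.hz 3 19, 8838), (.hz 3 23, 4975), (.hz 8 39, 1517), (.hz 8 47, 2609), (.hz 10 47, 2110), (.hz 4 79, 8476), (.hz 8 111, 7642)])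
(.lp [[1, 4], [3, 6], [0, 2, 5, 7]] [(.mj 1 2, 15), (.mj 2 3, 3), (.mj 3 5, 1), (.mj 7 4, 5), (.hz 9 2, 61), (.hz 9 3, 135), (.hz 10 11, 321), (.hz 10 15, 408), (.hz 8 39, 315), (.hz 7 27, 60), (.hz 8 47, 876)]))
.fin))
(.lp [[1, 4], [3, 6], [0, 2, 5]] [(.mj 1 2, 7), (.mj 2 3, 6), (.hz 9 2, 73), (.hz 9 3, 101), (.hz 9 7, 293), (.hz 3 19, 2493), (.hz 6 55, 100)])))))
(.lp [[1, 4], [3, 6], [0, 2, 5]] [(.mj 1 2, 96), (.mj 2 3, 71), (.mj 3 5, 12), (.hz 8 2, 912), (.hz 8 3, 1351), (.hz 8 7, 1713), (.hz 3 19, 26697), (.hz 6 39, 2279), (.hz 5 39, 4624)]))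
(.lp [[1, 4], [3, 6], [0, 2, 5]] [(.mj 2 3, 24), (.mj 5 4, 13), (.hz 7 1, 263), (.hz 7 3, 614), (.hz 3 19, 16631), (.hz 5 39, 2216), (.hz 2 27, 1708), (.hz 2 75, 147), (.hz 4 79, 4550)]))
(.lp [[1, 4], [3, 6], [0, 2, 5]] [(.mj 1 2, 12), (.mj 3 5, 39), (.mj 5 4, 34), (.hz 6 3, 1509), (.hz 6 7, 1816), (.hz 3 19, 12576), (.hz 6 37, 254), (.hz 3 23, 28840), (.hz 6 39, 469), (.hz 5 39, 14659), (.hz 4 79, 11737)]))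
(.lp [[1, 4], [3, 6], [0, 2, 5]] [(.mj 1 2, 7), (.mj 2 3, 5), (.mj 3 5, 1), (.hz 5 2, 327), (.hz 5 3, 476), (.hz 5 7, 593), (.hz 3 19, 1927), (.hz 3 39, 1605)]))
(.lp [[1, 4], [3, 6], [0, 2, 5]] [(.mj 1 2, 8), (.mj 2 3, 6), (.mj 3 5, 4), (.mj 5 6, 2), (.hz 4 2, 200), (.hz 4 3, 415), (.hz 4 7, 424), (.hz 3 19, 43)]))
(.haz 5 15 3 10
(.lp [[1, 4], [3, 6], [0, 2, 5]] [(.mj 0 1, 7694), (.mj 1 2, 2006), (.mj 2 3, 8977), (.mj 6 4, 2143), (.mj 6 5, 7831), (.rw 2, 1), (.hz 3 19, 4808880), (.hz 4 15, 4157148), (.hz 3 23, 10665995), (.hz 4 31, 15270503)])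
(.cut 4 [(0, 1), (1, 1), (2, 1), (3, 1), (5, 1), (9, 1), (7, 1), (11, 1), (13, 1), (37, 1), (15, 1), (45, 1)]
(.lp [[1, 4], [3, 6], [0, 2, 5]] [(.mj 0 1, 3527), (.mj 2 3, 21076), (.mj 6 4, 7063), (.hz 4 5, 1657581), (.hz 4 7, 2520182), (.hz 3 19, 9865294), (.hz 4 13, 2143781), (.hz 4 15, 691270), (.hz 3 23, 9281974), (.hz 3 55, 2278403), (.rw 5, 5)])))
.fin))
(.ask 15
(.mark 15 [4, 5, 6]
(.spn
(.ref 0)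
(.haz 4 15 3 20
(.lp [[1, 4], [3, 6], [0, 2, 5]] [(.mj 1 2, 13), (.mj 5 4, 7), (.hz 4 15, 1858), (.hz 3 39, 1365), (.hz 4 47, 399), (.hz 4 79, 1721)])
(.lp [[1, 4], [3, 6], [0, 2, 5]] [(.mj 1 2, 11), (.mj 5 6, 2), (.hz 4 2, 171), (.hz 4 3, 371), (.hz 4 7, 209), (.hz 4 11, 607), (.hz 4 15, 505), (.hz 3 39, 305)]))
(.haz 4 15 3 20
(.lp [[1, 4], [3, 6], [0, 2, 5]] [(.mj 1 2, 132276), (.mj 2 3, 220843), (.mj 6 4, 132276), (.rw 4, 55), (.hz 4 15, 100644439), (.hz 3 39, 165344435), (.hz 4 47, 82672217)])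
(.lp [[1, 4], [3, 6], [0, 2, 5]] [(.mj 1 2, 31), (.mj 2 3, 13), (.hz 4 2, 565), (.hz 4 3, 1071), (.hz 4 7, 850), (.hz 3 19, 2682), (.hz 3 39, 7353)]))
.fin))
(.spn
(.haz 5 15 3 10
(.lp [[3], [1, 4], [0, 2, 5]] [(.mj 2 3, 4), (.mj 3 4, 5), (.mj 4 5, 5), (.hz 4 15, 1790), (.hz 4 31, 1242)])
(.lp [[3], [1, 4], [0, 2, 5]] [(.mj 2 3, 4), (.mj 3 4, 4), (.hz 4 5, 265), (.hz 4 7, 909), (.hz 4 13, 250), (.hz 4 15, 1271)]))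
(.lp [[3], [1, 4], [0, 2, 5]] [(.mj 0 1, 2), (.mj 1 2, 18), (.mj 5 4, 8), (.hz 3 3, 846), (.hz 3 19, 179), (.hz 2 27, 703)])
.fin
.fin)))

theorem run7 : run P3488 (leaf3 218 625) (cutRow P3488) [s6] t7 s7 = true := by
  decide +kernel

theorem bad7 : Bad P3488 s7 :=
  run_sound (leaf3_sound P3488 rfl rfl) (cutRow_sound P3488) (
    List.forall_mem_cons.2 ⟨bad6, fun _ h => absurd h List.not_mem_nil⟩) t7 s7 run7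

/-- the state above piece 5 of the tree -/
def s5 : St := ⟨[0, 0, 1, 1, 2, 9], [5, 3, 1, 0], [0, 1, 2],
  [],
  [⟨true, 1, 9, 7, 50⟩, ⟨true, 2, 11, 3, 50⟩, ⟨true, 2, 9, 9, 50⟩, ⟨true, 3, 3, 1, 5⟩],
  [.spn 0 0 651200, .spn 1 1 140426, .spn 3 2 140426]⟩

/-- piece 5 of the tree -/
noncomputable def t5 : WN.Tree :=
(.haz 2 41 6 25
(.haz 2 43 2 5
(.maj 3 4
(.ask 7
(.mark 7 [3, 4, 6]
(.spn
(.mark 15 [4, 5, 6]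
(.spn
(.haz 4 71 4 25
(.haz 6 47 1 5
(.ask 71
(.haz 6 47 7 25
(.mark 71 [3, 4, 7]
(.lp [[1, 4], [3, 5], [0, 2, 6, 7]] [(.mj 0 1, 453), (.mj 1 2, 917), (.mj 2 3, 3085), (.mj 3 4, 2521), (.mj 4 6, 1549), (.hz 3 19, 282843), (.hz 3 71, 423281), (.hz 6 71, 159110), (.hz 8 47, 615421), (.hz 6 199, 189071), (.hz 6 111, 216992)]))
(.lp [[1, 4], [3, 5], [0, 2, 6, 7]] [(.mj 2 3, 6), (.mj 3 4, 4), (.hz 8 7, 319), (.hz 3 19, 2233), (.hz 8 15, 283), (.hz 6 71, 273)]))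
(.lp [[1, 4], [3, 5], [0, 2, 6]] [(.mj 0 1, 5), (.mj 1 2, 2), (.mj 2 3, 21), (.mj 3 4, 11), (.mj 4 6, 6), (.hz 3 19, 8288), (.hz 6 71, 284)]))
(.lp [[1, 4], [3, 5], [0, 2, 6]] [(.mj 2 3, 12), (.mj 3 4, 8), (.hz 7 7, 3369), (.hz 7 15, 2501)]))
(.lp [[1, 4], [3, 5], [0, 2, 6]] [(.mj 2 3, 8), (.mj 4 6, 5), (.hz 6 2, 136), (.hz 6 3, 299), (.hz 6 7, 492), (.hz 3 71, 3195)]))
(.ask 18
(.mark 31 [5, 6, 7]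
(.lp [[3, 5], [0, 2, 6], [1, 4, 7]] [(.mj 0 1, 23), (.mj 1 2, 8), (.mj 2 3, 30), (.mj 5 4, 5), (.mj 5 6, 13), (.hz 3 19, 18445), (.hz 3 71, 8808), (.hz 3 147, 14821)]))
(.lp [[1, 4], [3, 5], [0, 2, 6]] [(.mj 2 3, 144), (.mj 5 4, 60), (.mj 5 6, 71), (.hz 3 19, 101048), (.hz 3 23, 35664), (.hz 3 71, 47035)]))
(.haz 6 23 7 25
(.haz 1 41 3 10
(.haz 6 63 19 50
(.ask 71
(.mark 79 [4, 5, 7]
(.spn
(.haz 4 111 1 8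
(.haz 6 23 2 5
(.haz 7 111 3 10
(.haz 4 47 1 10
(.haz 5 15 7 20
(.lp [[1, 4], [3, 5], [0, 2, 6, 7]] [(.mj 3 6, 253), (.mj 4 5, 1237), (.mj 6 4, 760), (.rw 5, 1), (.hz 13 15, 343465), (.hz 13 31, 971148), (.hz 13 79, 473376), (.hz 3 199, 950526), (.hz 13 207, 541053)])
(.haz 7 111 2 5
(.haz 6 47 7 20
(.haz 5 79 3 10
(.lp [[1, 4], [3, 5], [0, 2, 6, 7]] [(.mj 2 3, 46), (.mj 3 6, 70), (.mj 4 5, 180), (.mj 4 7, 96), (.mj 6 4, 210), (.hz 16 79, 5143), (.hz 3 199, 82988), (.hz 16 95, 299425), (.hz 16 207, 313272)])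
(.haz 4 3 3 20
(.lp [[1, 4], [3, 5], [0, 2, 6, 7]] [(.mj 2 3, 3891), (.mj 3 6, 1804), (.mj 4 7, 2326), (.mj 6 4, 4297), (.hz 17 11, 654133), (.hz 16 13, 419866), (.hz 7 41, 84561), (.hz 17 43, 856892), (.hz 17 47, 2709009), (.hz 16 79, 87214), (.hz 17 199, 104488), (.hz 14 111, 7558558)])
(.ask 18
(.mark 95 [5, 7, 8]
(.lp [[3, 5], [1, 4, 8], [0, 2, 6, 7]] [(.mj 2 3, 130), (.mj 3 6, 84), (.mj 4 7, 17), (.mj 6 4, 17), (.hz 17 2, 2573), (.hz 3 275, 95212), (.hz 12 47, 23161), (.hz 10 279, 117087), (.hz 9 111, 25875), (.hz 14 111, 54968)]))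
(.ask 19
(.mark 95 [5, 7, 8]
(.lp [[3, 5], [1, 4, 8], [0, 2, 6, 7]] [(.mj 2 3, 50), (.mj 3 6, 33), (.mj 4 7, 6), (.mj 6 4, 1), (.hz 17 3, 1945), (.hz 3 275, 24900), (.hz 10 279, 44335), (.hz 9 111, 10079), (.hz 14 111, 18487)]))
(.ask 23
(.mark 95 [5, 7, 8]
(.lp [[3, 5], [1, 4, 8], [0, 2, 6, 7]] [(.mj 2 3, 166), (.mj 3 6, 86), (.mj 4 7, 41), (.mj 6 4, 23), (.hz 17 3, 10471), (.hz 10 23, 3618), (.hz 12 47, 94242), (.hz 16 79, 1543), (.hz 3 279, 24926), (.hz 10 279, 75229), (.hz 14 111, 133736)]))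
(.lp [[1, 4], [3, 5], [0, 2, 6, 7]] [(.mj 2 3, 151), (.mj 3 6, 75), (.mj 4 7, 35), (.mj 6 4, 54), (.hz 7 41, 6244), (.hz 12 47, 118631), (.hz 9 111, 12926), (.hz 14 111, 114351), (.hz 9 239, 634)]))))))
(.lp [[1, 4], [3, 5], [0, 2, 6, 7]] [(.mj 2 3, 4), (.mj 6 4, 3), (.hz 15 7, 365), (.hz 3 19, 2556), (.hz 13 13, 7), (.hz 13 15, 671), (.hz 15 15, 820)]))
(.lp [[1, 4], [3, 5], [0, 2, 6, 7]] [(.mj 2 3, 397), (.mj 3 6, 168), (.mj 4 5, 125), (.mj 6 4, 370), (.hz 14 71, 126103), (.hz 14 79, 496004), (.hz 9 111, 1115036), (.hz 11 111, 109070)])))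
(.lp [[1, 4], [3, 5], [0, 2, 6, 7]] [(.mj 2 3, 13), (.mj 3 6, 3), (.mj 4 7, 5), (.hz 12 2, 528), (.hz 12 3, 1114), (.hz 12 7, 1765), (.hz 12 15, 494), (.hz 3 199, 2217), (.hz 11 111, 7978)]))
(.lp [[1, 4], [3, 5], [0, 2, 6, 7]] [(.mj 2 3, 7), (.mj 3 6, 3), (.mj 4 5, 3), (.mj 6 4, 7), (.hz 11 71, 1122), (.hz 11 79, 4282), (.hz 9 111, 20348)]))
(.lp [[1, 4], [3, 5], [0, 2, 6, 7]] [(.mj 0 1, 1), (.mj 2 3, 12), (.mj 6 4, 6), (.hz 10 7, 6641), (.hz 3 19, 10818), (.hz 3 23, 1252), (.hz 6 23, 318), (.hz 9 111, 7952)]))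
(.lp [[1, 4], [3, 5], [0, 2, 6, 7]] [(.mj 2 3, 1983), (.mj 4 7, 877), (.rw 5, 4), (.hz 9 2, 57247), (.hz 9 7, 179918), (.hz 3 19, 858701), (.hz 9 71, 205621), (.hz 9 79, 5843998)]))
(.haz 4 71 3 25
(.lp [[1, 4], [3, 5], [0, 2, 6, 7]] [(.mj 2 3, 25643), (.mj 5 4, 17096), (.mj 5 7, 6449), (.rw 5, 1), (.hz 9 79, 10199062), (.hz 3 199, 11762070), (.hz 9 199, 2733252), (.hz 9 111, 11112121), (.hz 9 207, 12432713)])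
(.haz 7 87 8 25
(.cut 4 [(0, 1), (1, 1), (2, 1), (3, 1), (5, 1), (9, 1), (7, 1), (11, 1), (13, 1), (41, 1), (15, 1), (45, 1), (71, 1), (79, 1)]
(.lp [[1, 4], [3, 5], [0, 2, 6, 7]] [(.mj 2 3, 11288), (.mj 3 6, 388), (.mj 5 7, 4581), (.hz 9 2, 158483), (.hz 9 3, 79152), (.hz 9 7, 507853), (.hz 3 19, 5707352), (.hz 10 87, 1314171), (.hz 3 199, 3380178), (.hz 10 95, 1931848), (.hz 3 215, 10739282), (.rw 6, 1)]))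
(.lp [[1, 4], [3, 5], [0, 2, 6, 7]] [(.mj 2 3, 6653), (.mj 5 7, 892), (.rw 5, 1), (.hz 9 2, 71558), (.hz 9 7, 224431), (.hz 3 19, 3363219), (.hz 9 71, 362563), (.hz 10 71, 295700)])))
(.ref 0)
.fin))
(.ask 79
(.mark 79 [4, 5, 7]
(.spn
(.haz 4 15 7 40
(.lp [[1, 4], [3, 5], [0, 2, 6, 7]] [(.mj 2 3, 13), (.mj 4 7, 4), (.mj 6 4, 19), (.hz 9 15, 3806), (.hz 7 45, 2690), (.hz 9 47, 8819)])
(.haz 7 111 13 40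
(.lp [[1, 4], [3, 5], [0, 2, 6, 7]] [(.mj 2 3, 14), (.mj 4 7, 5), (.hz 9 2, 128), (.hz 9 3, 203), (.hz 9 7, 1151), (.hz 3 19, 2614), (.hz 10 111, 2062)])
(.lp [[1, 4], [3, 5], [0, 2, 6, 7]] [(.mj 2 3, 4), (.mj 4 5, 1), (.hz 9 2, 39), (.hz 9 3, 86), (.hz 9 7, 364), (.hz 10 79, 397)])))
(.lp [[1, 4], [3, 5], [0, 2, 6, 7]] [(.mj 0 1, 1520), (.mj 2 3, 4049), (.mj 5 4, 367), (.rw 5, 1), (.hz 3 19, 3083484), (.hz 3 23, 1163579), (.hz 3 87, 504217)])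
(.ask 207
(.mark 207 [4, 5, 8]
(.spn
(.lp [[1, 4], [3, 5], [0, 2, 6, 7, 8]] [(.mj 7 4, 281), (.rw 6, 1)])
(.lp [[1, 4], [3, 5], [0, 2, 6, 7, 8]] [(.mj 0 1, 5091), (.mj 2 3, 13558), (.rw 5, 1), (.rw 6, 5), (.hz 3 19, 10324175), (.hz 3 23, 3895915), (.hz 3 87, 1688230)])
(.haz 4 15 3 40
(.ask 463
(.mark 463 [4, 5, 9]
(.spn
(.lp [[1, 4], [3, 5], [0, 2, 6, 7, 8, 9]] [(.mj 8 4, 151), (.rw 7, 1)])
(.lp [[1, 4], [3, 5], [0, 2, 6, 7, 8, 9]] [(.mj 8 5, 368), (.rw 7, 1)])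
(.lp [[1, 4], [3, 5], [0, 2, 6, 7, 8, 9]] [(.mj 2 3, 14), (.mj 9 4, 8), (.hz 9 15, 2381), (.hz 9 79, 1146), (.hz 9 207, 1238), (.hz 9 463, 1339)])
.fin))
(.lp [[1, 4], [3, 5], [0, 2, 6, 7, 8]] [(.mj 8 5, 1), (.rw 6, 1)]))
(.cut 4 [(0, 1), (1, 1), (2, 1), (3, 1), (5, 1), (9, 1), (7, 1), (11, 1), (13, 1), (15, 1), (71, 1), (79, 1)]
(.lp [[1, 4], [3, 5], [0, 2, 6, 7, 8]] [(.mj 2 3, 4651), (.hz 9 2, 26042), (.hz 9 3, 54196), (.hz 9 7, 184199), (.hz 7 41, 787955), (.hz 7 45, 303033), (.rw 7, 2)])))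
.fin))
(.lp [[1, 4], [3, 5], [0, 2, 6, 7]] [(.mj 7 5, 1), (.rw 5, 1)]))
.fin))
(.lp [[1, 4], [3, 5], [0, 2, 6]] [(.mj 0 1, 1), (.mj 2 3, 5), (.mj 3 4, 2), (.hz 3 19, 1957)])))
(.lp [[1, 4], [3, 5], [0, 2, 6]] [(.mj 0 1, 1), (.mj 2 3, 3), (.mj 6 4, 1), (.hz 8 7, 93), (.hz 3 19, 2475), (.hz 8 15, 76), (.hz 3 23, 386)]))
(.lp [[1, 4], [3, 5], [0, 2, 6]] [(.mj 1 2, 8), (.mj 2 3, 17), (.mj 3 6, 6), (.hz 7 0, 996), (.hz 7 1, 981), (.hz 3 19, 7909), (.hz 0 41, 320), (.hz 6 23, 876)]))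
(.lp [[1, 4], [3, 5], [0, 2, 6]] [(.mj 0 1, 1), (.mj 2 3, 4), (.mj 6 4, 2), (.hz 6 7, 480), (.hz 3 19, 3369), (.hz 3 23, 886)]))
.fin))
(.con 4 3)
(.mark 11 [2, 4, 5]
(.lp [[1, 4], [3, 5], [0, 2, 6]] [(.mj 0 1, 2), (.mj 6 3, 2), (.hz 3 3, 769), (.hz 3 7, 769), (.hz 5 43, 193)]))
.fin))
(.lp [[2], [1, 4], [0, 3, 5]] [(.mj 0 1, 3), (.mj 1 2, 2), (.mj 2 3, 7), (.mj 3 4, 2), (.hz 3 19, 4138)]))
(.lp [[2], [1, 4], [0, 3, 5]] [(.mj 0 1, 2), (.mj 4 3, 2), (.hz 3 3, 520), (.hz 3 7, 854)]))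
(.lp [[2], [1, 4], [0, 3, 5]] [(.mj 0 1, 3), (.mj 2 3, 5), (.mj 2 4, 2), (.hz 5 3, 1700), (.hz 5 9, 447), (.hz 3 19, 2713)]))
(.mark 9 [1, 2, 5]
(.lp [[2], [1, 4], [0, 3, 5]] [(.mj 0 1, 4), (.mj 2 3, 5), (.hz 4 1, 200), (.hz 3 3, 682), (.hz 3 7, 307), (.hz 3 19, 1742), (.hz 2 41, 31)])))

theorem run5 : run P3488 (leaf3 218 625) (cutRow P3488) [s4] t5 s5 = true := by
  decide +kernel

theorem bad5 : Bad P3488 s5 :=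
  run_sound (leaf3_sound P3488 rfl rfl) (cutRow_sound P3488) (
    List.forall_mem_cons.2 ⟨bad4, fun _ h => absurd h List.not_mem_nil⟩) t5 s5 run5

/-- the state above piece 92 of the tree -/
def s92 : St := ⟨[0, 0, 1, 3, 5, 5, 11, 31, 95], [79, 75, 31, 23, 21, 15, 7, 3, 2, 1, 0], [0, 1, 2, 3, 4, 6],
  [],
  [⟨true, 2, 3, 3, 10⟩, ⟨true, 1, 5, 2, 5⟩, ⟨true, 2, 3, 23, 50⟩, ⟨true, 1, 5, 12, 25⟩, ⟨true, 2, 11, 12, 25⟩, ⟨true, 4, 79, 11, 50⟩, ⟨true, 5, 31, 1, 50⟩, ⟨true, 3, 39, 7, 25⟩, ⟨true, 5, 31, 1, 25⟩, ⟨true, 4, 47, 17, 50⟩, ⟨true, 3, 39, 2, 5⟩, ⟨true, 3, 39, 23, 50⟩, ⟨true, 5, 159, 3, 50⟩, ⟨true, 1, 37, 27, 50⟩, ⟨true, 3, 55, 16, 25⟩, ⟨true, 6, 159, 11, 50⟩, ⟨true, 1, 37, 29, 50⟩, ⟨true, 3, 39, 12, 25⟩, ⟨true, 1, 53, 7, 10⟩, ⟨true, 6, 47, 11, 50⟩, ⟨true, 6, 191, 3, 10⟩],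
  [.spn 0 0 651200, .spn 1 1 302400, .spn 3 2 302400, .spn 7 3 140426, .spn 15 4 140426, .spn 31 6 140426]⟩

/-- piece 92 of the tree -/
noncomputable def t92 : WN.Tree :=
(.mark 95 [5, 7, 8]
(.spn
(.haz 7 95 17 50
(.lp [[5], [0, 2, 4, 7], [1, 3, 6, 8]] [(.mj 4 6, 3), (.mj 5 7, 9), (.mj 6 5, 7), (.hz 21 95, 1408), (.hz 21 127, 1220), (.hz 21 351, 1748)])
(.haz 3 55 37 50
(.haz 3 39 1 2
(.haz 8 223 17 50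
(.haz 5 159 1 10
(.haz 6 159 23 50
(.haz 5 159 3 25
(.haz 3 55 4 5
(.haz 6 159 1 2
(.ask 351
(.haz 7 863 2 25
(.haz 7 863 3 25
(.haz 7 863 7 50
(.haz 7 895 4 25
(.haz 7 895 9 50
(.ask 37
(.mark 127 [7, 8, 10]
(.spn
(.mark 351 [5, 7, 9]
(.lp [[5, 10], [0, 2, 4, 7], [1, 3, 6, 8, 9]] [(.mj 5 7, 94), (.mj 5 8, 1), (.mj 6 5, 149), (.mj 7 8, 95), (.hz 27 159, 46868), (.hz 9 1071, 4619), (.hz 24 223, 14704), (.hz 24 255, 46617), (.hz 8 863, 93233), (.hz 32 863, 18727)]))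
(.mark 383 [7, 9, 10]
(.spn
(.haz 10 895 1 10
(.lp [[5, 10], [0, 2, 4, 7], [1, 3, 6, 8, 9]] [(.mj 5 8, 53), (.mj 6 5, 80), (.mj 7 9, 6), (.mj 8 7, 31), (.hz 27 159, 53766), (.hz 27 223, 15721), (.hz 24 223, 14094), (.hz 32 863, 1186), (.hz 34 895, 11189), (.hz 35 895, 77058), (.hz 35 1023, 559429)])
(.lp [[5, 10], [0, 2, 4, 7], [1, 3, 6, 8, 9]] [(.mj 5 8, 8), (.mj 6 5, 18), (.mj 7 9, 12), (.mj 8 7, 19), (.hz 35 37, 144), (.hz 35 39, 593), (.hz 35 53, 305), (.hz 35 47, 1381), (.hz 35 55, 1575), (.hz 35 63, 4582), (.hz 27 159, 5123), (.hz 35 111, 11090), (.hz 35 127, 39254), (.hz 35 383, 56934)]))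
(.lp [[5, 10], [0, 2, 4, 7], [1, 3, 6, 8, 9]] [(.mj 4 6, 5), (.mj 5 8, 6), (.mj 6 5, 11), (.mj 9 7, 6), (.hz 27 159, 7485), (.hz 27 223, 6561), (.hz 32 863, 2659), (.hz 34 895, 7128)])
(.lp [[5, 10], [0, 2, 4, 7], [1, 3, 6, 8, 9]] [(.mj 5 8, 744), (.mj 6 5, 1774), (.mj 10 7, 124), (.rw 8, 1), (.hz 27 159, 1195165), (.hz 27 223, 685228), (.hz 24 223, 254031), (.hz 32 863, 24883)])
.fin))
(.lp [[5, 10], [0, 2, 4, 7], [1, 3, 6, 8, 9]] [(.mj 6 5, 648), (.mj 10 7, 189), (.mj 10 8, 345), (.rw 6, 1), (.hz 27 159, 248103), (.hz 29 159, 281874), (.hz 24 223, 140475), (.hz 32 863, 37874)])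
.fin))
(.haz 7 383 3 25
(.haz 7 383 7 50
(.haz 7 383 4 25
(.haz 7 863 4 25
(.haz 7 127 1 5
(.haz 7 351 1 5
(.maj 7 8
(.haz 8 127 9 25
(.mark 351 [5, 7, 9]
(.lp [[5], [0, 2, 4, 7], [1, 3, 6, 8, 9]] [(.mj 4 6, 16), (.mj 5 7, 28), (.mj 6 5, 36), (.mj 7 8, 23), (.hz 27 159, 8139), (.hz 29 159, 23988), (.hz 41 127, 32499), (.hz 24 223, 3811), (.hz 40 351, 5994), (.hz 40 863, 55134)]))
(.mark 351 [5, 7, 9]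
(.lp [[5], [0, 2, 4, 7], [1, 3, 6, 8, 9]] [(.mj 4 6, 1), (.mj 5 7, 13), (.mj 6 5, 21), (.mj 7 8, 1), (.hz 21 95, 456), (.hz 41 95, 6342), (.hz 39 127, 52060), (.hz 24 223, 2132), (.hz 40 863, 26654)])))
(.lp [[5], [0, 2, 4, 7], [1, 3, 6, 8, 9]] [(.mj 4 6, 50), (.mj 5 8, 70), (.mj 6 5, 114), (.mj 8 7, 92), (.hz 27 159, 43426), (.hz 39 127, 925100), (.hz 40 351, 220262)]))
(.mark 351 [5, 7, 9]
(.lp [[5], [0, 2, 4, 7], [1, 3, 6, 8, 9]] [(.mj 4 6, 49), (.mj 5 8, 31), (.mj 6 5, 49), (.hz 40 31, 63744), (.hz 40 95, 75284), (.hz 39 127, 60766), (.hz 24 255, 1669), (.hz 39 383, 66741), (.hz 38 863, 16685)])))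
(.mark 351 [5, 7, 9]
(.lp [[5], [0, 2, 4, 7], [1, 3, 6, 8, 9]] [(.mj 4 6, 600), (.mj 5 8, 325), (.mj 6 5, 551), (.hz 39 31, 631476), (.hz 39 95, 789687), (.hz 27 159, 124040), (.hz 37 383, 175019), (.hz 38 863, 175019)])))
(.mark 351 [5, 7, 9]
(.lp [[5], [0, 2, 4, 7], [1, 3, 6, 8, 9]] [(.mj 4 6, 13), (.mj 5 8, 7), (.mj 6 5, 12), (.hz 38 31, 2659), (.hz 38 95, 3257), (.hz 27 159, 2693), (.hz 37 383, 3277), (.hz 32 863, 1873)])))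
(.mark 351 [5, 7, 9]
(.lp [[5], [0, 2, 4, 7], [1, 3, 6, 8, 9]] [(.mj 4 6, 13), (.mj 5 8, 7), (.mj 6 5, 12), (.hz 37 31, 2659), (.hz 37 95, 3257), (.hz 27 159, 2693), (.hz 36 383, 1873), (.hz 32 863, 1873)])))
(.lp [[5], [0, 2, 4, 7], [1, 3, 6, 8, 9]] [(.mj 4 6, 3), (.mj 5 8, 2), (.mj 6 5, 3), (.hz 36 31, 349), (.hz 36 95, 188), (.hz 27 159, 718), (.hz 24 223, 626)]))
(.mark 351 [5, 7, 9]
(.lp [[5], [0, 2, 4, 7], [1, 3, 6, 8, 9]] [(.mj 4 6, 4), (.mj 5 8, 2), (.mj 6 5, 4), (.hz 35 31, 959), (.hz 35 95, 968), (.hz 32 863, 557)]))))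
(.lp [[5], [0, 2, 4, 7], [1, 3, 6, 8, 9]] [(.mj 4 6, 28), (.mj 5 8, 18), (.mj 6 5, 28), (.hz 34 31, 3115), (.hz 34 95, 1679), (.hz 27 159, 6214), (.hz 24 223, 5597)]))
(.lp [[5], [0, 2, 4, 7], [1, 3, 6, 8, 9]] [(.mj 4 6, 3), (.mj 5 8, 2), (.mj 6 5, 3), (.hz 33 31, 744), (.hz 33 95, 400), (.hz 27 159, 753), (.hz 24 223, 667)]))
(.lp [[5], [0, 2, 4, 7], [1, 3, 6, 8, 9]] [(.mj 4 6, 3), (.mj 5 8, 2), (.mj 6 5, 3), (.hz 32 31, 349), (.hz 32 95, 188), (.hz 27 159, 718), (.hz 24 223, 626)]))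
(.lp [[5], [0, 2, 4, 7], [1, 3, 6, 8, 9]] [(.mj 4 6, 6), (.mj 5 8, 4), (.mj 6 5, 6), (.hz 31 31, 1518), (.hz 31 95, 722), (.hz 24 223, 1203)]))
(.lp [[5], [0, 2, 4, 7], [1, 3, 6, 8, 9]] [(.mj 4 6, 3), (.mj 5 8, 2), (.mj 6 5, 3), (.hz 30 31, 759), (.hz 30 95, 791)]))
(.lp [[5], [0, 2, 4, 7], [1, 3, 6, 8]] [(.mj 4 6, 17), (.mj 5 7, 16), (.mj 5 8, 1), (.mj 6 5, 38), (.hz 27 159, 17411), (.hz 27 223, 6831)]))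
(.lp [[5], [0, 2, 4, 7], [1, 3, 6, 8]] [(.mj 5 7, 74), (.mj 6 5, 122), (.hz 29 31, 811289), (.hz 21 31, 7299), (.hz 27 159, 27488), (.hz 26 159, 19880), (.hz 24 223, 14836)]))
(.lp [[5], [0, 2, 4, 7], [1, 3, 6, 8]] [(.mj 4 6, 1), (.mj 5 8, 4), (.mj 6 5, 22), (.hz 28 23, 54895), (.hz 22 55, 3861), (.hz 27 159, 5635), (.hz 24 223, 1162)]))
(.lp [[5], [0, 2, 4, 7], [1, 3, 6, 8]] [(.mj 5 7, 11), (.mj 5 8, 17), (.hz 27 5, 285), (.hz 27 7, 894), (.hz 27 21, 324), (.hz 27 15, 4333), (.hz 27 23, 1384), (.hz 27 31, 8683), (.hz 25 159, 16896), (.hz 26 159, 1327), (.hz 24 223, 7453)]))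
(.lp [[5], [0, 2, 4, 7], [1, 3, 6, 8]] [(.mj 6 5, 1), (.hz 26 31, 283), (.hz 21 31, 241), (.hz 25 159, 540)]))
(.lp [[5], [0, 2, 4, 7], [1, 3, 6, 8]] [(.mj 5 7, 2), (.mj 5 8, 6), (.hz 25 5, 217), (.hz 25 7, 674), (.hz 25 21, 241), (.hz 25 15, 7717), (.hz 25 23, 1016), (.hz 21 31, 473), (.hz 12 159, 445), (.hz 24 223, 2250)]))
(.lp [[5], [0, 2, 4, 7], [1, 3, 6, 8]] [(.mj 6 5, 4), (.hz 21 31, 123), (.hz 21 95, 1013), (.hz 24 95, 1013), (.hz 12 159, 1295)]))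
(.lp [[5], [0, 2, 4, 7], [1, 3, 6, 8]] [(.mj 3 4, 1), (.mj 6 5, 13), (.hz 23 7, 59657), (.hz 17 39, 3356), (.hz 21 31, 666), (.hz 22 55, 687), (.hz 12 159, 1439)]))
(.lp [[5], [0, 2, 4, 7], [1, 3, 6, 8]] [(.mj 5 8, 1), (.mj 6 5, 6), (.hz 22 23, 1588), (.hz 14 55, 2298)])))
(.ref 0)
(.ask 351
(.mark 351 [5, 7, 9]
(.spn
(.lp [[5], [0, 2, 4, 7], [1, 3, 6, 8, 9]] [(.mj 8 5, 256), (.rw 7, 1)])
(.cut 5 [(0, 1), (1, 1), (2, 1), (3, 1), (5, 1), (7, 1), (11, 1), (21, 1), (15, 1), (23, 1), (75, 1), (31, 1), (79, 1), (95, 1), (351, 1)]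
(.lp [[5], [0, 2, 4, 7], [1, 3, 6, 8, 9]] [(.mj 7 5, 8951), (.mj 7 9, 8951), (.mj 8 7, 19791), (.rw 7, 5), (.rw 8, 32)]))
(.ask 159
(.mark 223 [5, 8, 10]
(.cut 5 [(0, 1), (1, 1), (2, 1), (3, 1), (5, 1), (7, 1), (11, 1), (21, 1), (15, 1), (23, 1), (75, 1), (31, 1), (79, 1), (95, 1), (159, 1), (351, 1)]
(.cut 5 [(0, 1), (1, 1), (2, 1), (3, 1), (5, 1), (7, 1), (11, 1), (21, 1), (15, 1), (23, 1), (75, 1), (31, 1), (79, 1), (95, 1), (159, 1), (223, 1)]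
(.cut 7 [(0, 1), (1, 1), (2, 1), (3, 1), (5, 1), (7, 1), (11, 1), (21, 1), (37, 1), (15, 1), (23, 1), (39, 1), (53, 1), (75, 1), (31, 1), (47, 1), (55, 1), (79, 1), (63, 1), (95, 1), (111, 1), (127, 1)]
(.lp [[5], [0, 2, 4, 7, 10], [1, 3, 6, 8, 9]] [(.mj 0 1, 225713), (.mj 9 5, 42043), (.rw 7, 4), (.hz 16 37, 1029710), (.hz 18 53, 4265943), (.hz 14 55, 1314719), (.hz 12 159, 1986771), (.hz 20 191, 56057362), (.hz 15 1183, 1035941), (.hz 20 1215, 24727068), (.rw 8, 92), (.rw 9, 26), (.rw 10, 7)])))))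
(.cut 5 [(0, 1), (1, 1), (2, 1), (3, 1), (5, 1), (7, 1), (11, 1), (21, 1), (15, 1), (23, 1), (75, 1), (31, 1), (79, 1), (159, 1)]
(.cut 5 [(0, 1), (1, 1), (2, 1), (3, 1), (5, 1), (7, 1), (11, 1), (21, 1), (15, 1), (23, 1), (75, 1), (31, 1), (79, 1), (95, 1), (159, 1)]
(.lp [[5], [0, 2, 4, 7], [1, 3, 6, 8, 9]] [(.mj 0 1, 69792), (.mj 9 5, 7286), (.mj 9 7, 828), (.hz 16 37, 402318), (.hz 17 39, 958120), (.hz 18 53, 1666747), (.hz 14 55, 1232264), (.rw 8, 8), (.rw 9, 5)]))))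
.fin))
(.lp [[5], [0, 2, 4, 7], [1, 3, 6, 8]] [(.mj 8 7, 1), (.rw 6, 1)]))
.fin))

theorem run92 : run P3488 (leaf3 218 625) (cutRow P3488) [s91] t92 s92 = true := by
  decide +kernel

theorem bad92 : Bad P3488 s92 :=
  run_sound (leaf3_sound P3488 rfl rfl) (cutRow_sound P3488) (
    List.forall_mem_cons.2 ⟨bad91, fun _ h => absurd h List.not_mem_nil⟩) t92 s92 run92

/-- the state above piece 48 of the tree -/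
def s48 : St := ⟨[0, 0, 1, 1, 7, 7, 11, 23, 39], [31, 15, 13, 9, 7, 5, 3, 2, 1, 0], [0, 1, 2, 3, 4, 5],
  [(3, 4)],
  [⟨true, 1, 9, 7, 50⟩, ⟨true, 2, 11, 3, 50⟩, ⟨true, 2, 9, 9, 50⟩, ⟨true, 3, 3, 1, 5⟩, ⟨true, 1, 5, 13, 50⟩, ⟨true, 2, 11, 3, 5⟩, ⟨true, 2, 9, 8, 25⟩, ⟨true, 2, 9, 17, 50⟩, ⟨true, 2, 11, 33, 50⟩, ⟨true, 4, 47, 4, 25⟩, ⟨true, 4, 79, 1, 5⟩, ⟨true, 5, 159, 7, 50⟩, ⟨true, 4, 79, 3, 10⟩],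
  [.spn 0 0 651200, .spn 1 1 140426, .spn 3 2 302400, .spn 7 3 62723, .spn 15 4 140426, .spn 31 5 62723]⟩

/-- piece 48 of the tree -/
noncomputable def t48 : WN.Tree :=
(.mark 63 [6, 7, 8]
(.spn
(.haz 7 55 9 25
(.lp [[3, 6], [1, 5, 8], [0, 2, 4, 7]] [(.mj 4 5, 4981), (.mj 5 6, 5167), (.mj 6 7, 5167), (.rw 5, 2), (.hz 13 55, 583719), (.hz 3 295, 349461), (.hz 13 63, 1647574), (.hz 9 303, 757166), (.hz 13 311, 1517620), (.hz 13 127, 1808606), (.hz 13 319, 6588492)])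
(.haz 5 79 9 50
(.haz 6 159 4 25
(.haz 7 311 3 25
(.haz 6 319 4 25
(.haz 7 63 7 25
(.ask 75
(.mark 127 [7, 8, 9]
(.lp [[1, 5, 8], [3, 6, 9], [0, 2, 4, 7]] [(.mj 3 4, 5), (.mj 4 5, 24), (.mj 5 6, 21), (.mj 6 7, 17), (.hz 13 23, 163), (.hz 8 587, 158), (.hz 11 159, 1792), (.hz 15 159, 6162), (.hz 14 591, 6308), (.hz 3 311, 537), (.hz 16 311, 5378), (.hz 17 319, 3097), (.hz 18 319, 24568)]))
(.haz 6 159 7 25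
(.lp [[3, 6], [1, 5, 8], [0, 2, 4, 7]] [(.mj 3 4, 7), (.mj 4 5, 27), (.mj 5 6, 26), (.mj 6 7, 16), (.hz 13 23, 451), (.hz 14 79, 514), (.hz 18 63, 5928), (.hz 19 159, 9160), (.hz 3 311, 1286), (.hz 16 311, 4801), (.hz 17 319, 6230), (.hz 18 319, 20171)])
(.lp [[3, 6], [1, 5, 8], [0, 2, 4, 7]] [(.mj 4 5, 121), (.mj 5 6, 84), (.mj 6 7, 116), (.hz 19 15, 10798), (.hz 19 31, 14997), (.hz 18 63, 49672), (.hz 11 159, 4382), (.hz 15 159, 29366), (.hz 3 311, 70029), (.hz 16 311, 35968), (.hz 17 319, 32576), (.hz 18 319, 147748)])))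
(.lp [[3, 6], [1, 5, 8], [0, 2, 4, 7]] [(.mj 3 4, 2), (.mj 4 5, 39), (.mj 5 6, 26), (.hz 18 23, 2249), (.hz 18 31, 7683), (.hz 18 55, 1308), (.hz 18 63, 8698), (.hz 14 95, 3461), (.hz 15 159, 9191), (.hz 17 319, 20963)]))
(.lp [[3, 6], [1, 5, 8], [0, 2, 4, 7]] [(.mj 4 5, 7), (.mj 6 7, 6), (.hz 17 11, 445), (.hz 17 15, 1272), (.hz 17 31, 1959), (.hz 11 159, 1286), (.hz 16 311, 2285), (.hz 16 319, 7805)]))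
(.lp [[3, 6], [1, 5, 8], [0, 2, 4, 7]] [(.mj 3 4, 2), (.mj 4 5, 22), (.mj 5 6, 16), (.mj 6 8, 1), (.hz 16 23, 6238)]))
(.lp [[3, 6], [1, 5, 8], [0, 2, 4, 7]] [(.mj 4 5, 8), (.mj 6 7, 7), (.mj 6 8, 2), (.hz 15 11, 535), (.hz 15 15, 1529), (.hz 15 31, 2356), (.hz 11 159, 1547)]))
(.lp [[3, 6], [1, 5, 8], [0, 2, 4, 7]] [(.mj 5 6, 4), (.mj 6 7, 3), (.hz 14 7, 197), (.hz 14 15, 580), (.hz 13 23, 55), (.hz 14 79, 51), (.hz 11 159, 853)])))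
(.haz 6 31 3 10
(.lp [[3, 6], [1, 5, 8], [0, 2, 4, 7]] [(.mj 3 4, 14), (.mj 4 5, 24), (.mj 5 7, 15), (.mj 7 6, 29), (.hz 13 31, 3858), (.hz 3 295, 9603), (.hz 13 63, 88799), (.hz 13 159, 20149), (.hz 9 303, 20807), (.hz 3 183, 10071), (.hz 13 319, 150961)])
(.haz 6 159 2 25
(.haz 5 79 7 50
(.haz 6 159 3 25
(.haz 5 79 9 50
(.haz 4 79 19 50
(.haz 4 295 3 20
(.haz 4 39 7 20
(.haz 7 319 1 4
(.haz 7 311 3 20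
(.haz 6 31 1 5
(.maj 6 8
(.ask 151
(.mark 191 [6, 8, 9]
(.spn
(.ask 75
(.mark 95 [5, 7, 10]
(.lp [[1, 5, 8], [3, 6, 10], [0, 2, 4, 7, 9]] [(.mj 3 4, 245), (.mj 4 5, 161), (.mj 5 7, 94), (.mj 7 6, 186), (.hz 20 295, 34495), (.hz 8 1099, 3032), (.hz 23 63, 382289), (.hz 23 159, 165930), (.hz 20 303, 63828), (.hz 17 1103, 57609), (.hz 23 319, 2110130), (.hz 17 1119, 30450)]))
(.haz 5 79 1 4
(.lp [[3, 6], [1, 5, 8], [0, 2, 4, 7, 9]] [(.mj 3 4, 32), (.mj 4 5, 24), (.mj 5 7, 12), (.mj 7 6, 22), (.hz 24 79, 66197), (.hz 20 295, 5256), (.hz 23 63, 25525), (.hz 24 95, 6700), (.hz 23 159, 28582), (.hz 20 303, 4095), (.hz 23 319, 196472)])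
(.lp [[3, 6], [1, 5, 8], [0, 2, 4, 7, 9]] [(.mj 3 4, 10), (.mj 5 7, 4), (.mj 7 6, 9), (.hz 24 7, 1782), (.hz 24 15, 14062), (.hz 18 79, 117), (.hz 17 79, 1006), (.hz 20 295, 1458), (.hz 23 63, 17838), (.hz 23 159, 9356), (.hz 20 303, 1612), (.hz 23 319, 80370)])))
(.con 8 6)
(.lp [[3, 6], [1, 5, 8], [0, 2, 4, 7, 9]] [(.mj 3 4, 7), (.mj 4 5, 11), (.mj 5 7, 6), (.mj 9 6, 10), (.hz 8 75, 142), (.hz 17 79, 2178), (.hz 20 295, 734), (.hz 23 63, 21168), (.hz 17 95, 494), (.hz 23 159, 32544), (.hz 20 303, 1177), (.hz 23 191, 62382), (.hz 23 319, 84271), (.hz 21 319, 358)])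
.fin))
(.ask 183
(.mark 191 [6, 8, 9]
(.lp [[3, 6], [1, 5, 8], [0, 2, 4, 7, 9]] [(.mj 3 4, 18), (.mj 4 5, 7), (.mj 5 7, 1), (.mj 7 6, 14), (.hz 20 295, 3464), (.hz 23 63, 59504), (.hz 20 303, 5503), (.hz 23 319, 134436)]))
(.haz 7 319 9 20
(.ask 295
(.mark 303 [4, 6, 9]
(.lp [[3, 6], [1, 4, 7], [0, 2, 5, 8, 9]] [(.mj 3 4, 358), (.mj 4 5, 10), (.mj 5 7, 32), (.mj 7 6, 215), (.hz 23 31, 167927), (.hz 23 63, 603916), (.hz 23 159, 88492), (.hz 20 807, 87104), (.hz 23 319, 1625128), (.hz 24 319, 138457), (.hz 20 815, 223568), (.hz 23 831, 2653604), (.hz 24 831, 86490)]))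
(.ask 303
(.mark 303 [4, 6, 9]
(.ask 815
(.mark 815 [4, 6, 10]
(.lp [[3, 6], [1, 4, 7], [0, 2, 5, 8, 9, 10]] [(.mj 3 4, 201), (.mj 4 5, 4), (.mj 5 7, 17), (.mj 7 6, 120), (.hz 23 31, 94395), (.hz 23 63, 329866), (.hz 23 159, 47067), (.hz 23 319, 886454), (.hz 24 319, 75172), (.hz 23 831, 1291535), (.hz 24 831, 73562), (.hz 20 1839, 144354), (.hz 23 1855, 1415839)]))
(.lp [[3, 6], [1, 4, 7], [0, 2, 5, 8, 9]] [(.mj 3 4, 65), (.mj 5 7, 5), (.mj 7 6, 38), (.hz 23 31, 30670), (.hz 23 63, 99678), (.hz 23 159, 13203), (.hz 23 319, 266895), (.hz 24 319, 22350), (.hz 23 831, 203452)])))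
(.lp [[3, 6], [1, 5, 8], [0, 2, 4, 7]] [(.mj 3 4, 65), (.mj 5 7, 5), (.mj 7 6, 38), (.hz 23 31, 30670), (.hz 23 63, 99678), (.hz 23 159, 13203), (.hz 23 319, 196608), (.hz 24 319, 15960)])))
(.lp [[3, 6], [1, 5, 8], [0, 2, 4, 7]] [(.mj 3 4, 5), (.mj 4 5, 10), (.mj 7 6, 13), (.hz 24 31, 6082), (.hz 23 63, 44944), (.hz 24 63, 7377), (.hz 17 95, 579), (.hz 24 311, 609), (.hz 23 319, 135367)]))))
(.lp [[3, 6], [1, 5, 8], [0, 2, 4, 7]] [(.mj 3 4, 7), (.mj 4 5, 10), (.mj 5 7, 5), (.mj 7 8, 1), (.mj 8 6, 10), (.hz 8 75, 107), (.hz 17 79, 1635), (.hz 20 295, 891), (.hz 23 63, 34412), (.hz 23 159, 34403), (.hz 23 191, 47294), (.hz 23 319, 22098), (.hz 21 319, 1062), (.hz 17 223, 1668)]))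
(.ref 0))
(.lp [[3, 6], [1, 5, 8], [0, 2, 4, 7]] [(.mj 3 4, 1), (.mj 4 5, 6), (.mj 7 6, 2), (.hz 22 23, 2884), (.hz 8 75, 101), (.hz 13 31, 2783), (.hz 17 79, 1542)]))
(.lp [[3, 6], [1, 5, 8], [0, 2, 4, 7]] [(.mj 4 5, 4), (.mj 7 6, 1), (.hz 21 23, 1269), (.hz 8 75, 60), (.hz 13 31, 2264), (.hz 21 31, 7340), (.hz 17 79, 918), (.hz 21 55, 352), (.hz 21 63, 5343)]))
(.lp [[3, 6], [1, 5, 8], [0, 2, 4, 7]] [(.mj 4 5, 55), (.mj 7 6, 19), (.hz 20 7, 10741), (.hz 8 75, 394), (.hz 18 79, 1529), (.hz 17 79, 11175), (.hz 3 295, 9986), (.hz 19 295, 3525), (.hz 17 95, 6638), (.hz 11 159, 3231)]))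
(.lp [[3, 6], [1, 5, 8], [0, 2, 4, 7]] [(.mj 4 5, 5), (.mj 7 6, 4), (.mj 7 8, 1), (.hz 19 7, 1117), (.hz 13 15, 479), (.hz 3 295, 479)]))
(.lp [[3, 6], [1, 5, 8], [0, 2, 4, 7]] [(.mj 2 3, 2), (.mj 4 5, 7), (.mj 7 6, 3), (.hz 18 7, 257), (.hz 18 15, 685), (.hz 12 79, 2713), (.hz 17 79, 1315), (.hz 17 95, 947)]))
(.lp [[3, 6], [1, 5, 8], [0, 2, 4, 7]] [(.mj 3 4, 1), (.mj 5 7, 5), (.mj 7 6, 5), (.hz 17 7, 292), (.hz 17 15, 1532), (.hz 15 79, 1554), (.hz 15 95, 1649), (.hz 16 159, 2745)]))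
(.lp [[3, 6], [1, 5, 8], [0, 2, 4, 7]] [(.mj 3 4, 171), (.mj 4 5, 161), (.mj 5 7, 92), (.hz 16 11, 12605), (.hz 16 15, 32412), (.hz 16 31, 37797), (.hz 15 79, 9176), (.hz 14 159, 50361), (.hz 9 303, 5204)]))
(.lp [[3, 6], [1, 5, 8], [0, 2, 4, 7]] [(.mj 3 4, 5), (.mj 5 6, 7), (.mj 5 7, 7), (.mj 7 6, 2), (.hz 15 7, 1220), (.hz 13 15, 135), (.hz 14 159, 6275)]))
(.lp [[3, 6], [1, 5, 8], [0, 2, 4, 7]] [(.mj 3 4, 8), (.mj 4 5, 8), (.mj 5 7, 5), (.hz 14 11, 623), (.hz 14 15, 1716), (.hz 14 31, 1803), (.hz 9 303, 232)])))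
(.haz 6 47 9 50
(.lp [[3, 6], [1, 5, 8], [0, 2, 4, 7]] [(.mj 3 4, 8), (.mj 4 5, 21), (.mj 8 6, 22), (.mj 8 7, 13), (.hz 8 75, 26), (.hz 13 47, 6847), (.hz 12 79, 1187), (.hz 3 151, 3461), (.hz 3 295, 3137), (.hz 13 63, 6812), (.hz 11 159, 9997), (.hz 13 303, 840), (.hz 13 191, 32417)])
(.haz 6 63 4 25
(.lp [[3, 6], [1, 5, 8], [0, 2, 4, 7]] [(.mj 4 5, 26), (.mj 8 6, 3), (.mj 8 7, 16), (.hz 13 11, 597), (.hz 13 15, 5174), (.hz 14 63, 11369), (.hz 11 159, 7419), (.hz 14 191, 39946), (.hz 14 319, 15371)])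
(.lp [[3, 6], [1, 5, 8], [0, 2, 4, 7]] [(.mj 4 5, 55), (.mj 8 7, 34), (.hz 14 11, 2795), (.hz 14 15, 7987), (.hz 14 31, 12304), (.hz 11 159, 10173)])))
.fin))

theorem run48 : run P3488 (leaf3 218 625) (cutRow P3488) [s37] t48 s48 = true := by
  decide +kernel

theorem bad48 : Bad P3488 s48 :=
  run_sound (leaf3_sound P3488 rfl rfl) (cutRow_sound P3488) (
    List.forall_mem_cons.2 ⟨bad37, fun _ h => absurd h List.not_mem_nil⟩) t48 s48 run48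

/-- the state above piece 261 of the tree -/
def s261 : St := ⟨[0, 0, 1, 3, 3], [2, 1, 0], [0, 1],
  [],
  [⟨true, 2, 3, 3, 10⟩, ⟨true, 1, 5, 2, 5⟩, ⟨true, 2, 3, 23, 50⟩, ⟨true, 1, 5, 12, 25⟩],
  [.spn 0 0 651200, .spn 1 1 302400]⟩

/-- piece 261 of the tree -/
noncomputable def t261 : WN.Tree :=
(.mark 3 [2, 3, 4]
(.spn
(.ask 5
(.mark 7 [3, 4, 5]
(.spn
(.ref 0)
(.con 4 3)
(.ask 37
(.mark 39 [3, 4, 6]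
(.spn
(.haz 4 39 3 25
(.haz 3 19 7 50
(.haz 4 7 1 5
(.lp [[4], [1, 3], [0, 2, 5, 6]] [(.mj 1 2, 3443), (.mj 3 4, 3673), (.mj 3 6, 231), (.mj 5 3, 3673), (.rw 4, 1), (.hz 6 7, 537895), (.hz 6 15, 4689770), (.hz 6 39, 1210263), (.hz 6 103, 2555000)])
(.haz 2 11 1 2
(.haz 5 23 1 2
(.ask 19
(.maj 4 6
(.mark 55 [3, 6, 7]
(.cut 4 [(0, 1), (1, 1), (2, 1), (3, 1), (5, 1), (7, 1), (11, 2), (37, 1), (15, 2), (39, 1)]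
(.lp [[3], [1, 4, 7], [0, 2, 5, 6]] [(.mj 1 2, 21966), (.mj 3 4, 4110), (.mj 5 3, 14131), (.rw 4, 2), (.hz 6 3, 1427346), (.hz 5 147, 770029), (.hz 5 151, 2234884), (.hz 4 103, 277478), (.hz 7 155, 8563178), (.rw 5, 6)])))
(.mark 23 [3, 5, 7]
(.lp [[3], [1, 4, 7], [0, 2, 5, 6]] [(.mj 1 2, 49), (.mj 3 6, 5), (.mj 5 3, 29), (.mj 6 4, 19), (.hz 7 11, 8663), (.hz 5 19, 884), (.hz 5 147, 2154), (.hz 4 47, 9519), (.hz 5 151, 2275), (.hz 8 151, 728), (.hz 4 103, 1264), (.hz 7 155, 71766)])))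
(.ask 11
(.mark 47 [4, 6, 7]
(.lp [[4], [1, 3, 7], [0, 2, 5, 6]] [(.mj 1 2, 51), (.mj 3 4, 6), (.mj 5 3, 25), (.hz 6 7, 6946), (.hz 5 23, 1608), (.hz 7 27, 2939), (.hz 7 139, 5056), (.hz 4 103, 802)]))
(.lp [[4], [1, 3], [0, 2, 5, 6]] [(.mj 1 2, 60), (.mj 3 4, 8), (.mj 5 3, 28), (.hz 6 7, 10762), (.hz 7 27, 4482), (.hz 4 47, 3498), (.hz 4 103, 978)])))
(.lp [[4], [1, 3], [0, 2, 5, 6]] [(.mj 1 2, 27), (.mj 5 3, 49), (.hz 6 3, 5373), (.hz 6 7, 18590), (.hz 8 7, 57181), (.hz 5 19, 1675), (.hz 5 23, 3059)]))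
(.lp [[4], [1, 3], [0, 2, 5, 6]] [(.mj 5 3, 8), (.hz 7 1, 1800), (.hz 7 3, 8527), (.hz 6 3, 3128), (.hz 2 11, 303), (.hz 5 19, 202), (.hz 4 47, 1009)])))
(.lp [[4], [1, 3], [0, 2, 5, 6]] [(.mj 1 2, 7), (.mj 3 4, 5), (.hz 5 3, 334), (.hz 2 19, 67), (.hz 4 39, 376), (.hz 4 47, 439), (.hz 4 103, 650)]))
(.lp [[4], [1, 3], [0, 2, 5, 6]] [(.mj 1 2, 300), (.mj 5 3, 163), (.hz 4 3, 9181), (.hz 4 7, 6503), (.hz 2 11, 1127), (.hz 4 39, 3459)]))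
(.con 4 3)
(.haz 4 39 4 25
(.cut 3 [(0, 1), (1, 1), (2, 1), (3, 1), (5, 1), (7, 1), (37, 1), (101, 1)]
(.lp [[4], [1, 3], [0, 2, 5, 6]] [(.mj 1 2, 2018), (.mj 3 4, 2015), (.mj 6 3, 2015), (.hz 3 5, 97012), (.hz 3 37, 6388), (.hz 4 39, 111535), (.hz 4 47, 855841), (.hz 4 103, 251921), (.rw 5, 1)]))
(.cut 3 [(0, 1), (1, 1), (2, 1), (3, 1), (5, 1), (7, 1), (37, 1), (101, 1)]
(.lp [[4], [1, 3], [0, 2, 5, 6]] [(.mj 1 2, 6011), (.mj 6 3, 2915), (.hz 4 3, 184866), (.hz 4 7, 133624), (.hz 2 11, 42507), (.hz 4 39, 72622), (.rw 5, 1)])))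
.fin))
(.ask 39
(.mark 39 [3, 4, 6]
(.spn
(.haz 4 39 4 25
(.ask 103
(.maj 4 6
(.haz 6 47 9 25
(.mark 103 [3, 4, 7]
(.lp [[4], [1, 3], [0, 2, 5, 6, 7]] [(.mj 3 4, 14), (.mj 4 6, 10), (.mj 5 3, 16), (.hz 4 47, 3027), (.hz 5 47, 2011), (.hz 4 103, 1183), (.hz 4 231, 1409)]))
(.mark 103 [3, 4, 7]
(.lp [[4], [1, 3], [0, 2, 5, 6, 7]] [(.mj 3 4, 9), (.mj 4 6, 1), (.mj 5 3, 12), (.hz 5 39, 722), (.hz 4 47, 3141), (.hz 4 103, 765), (.hz 4 231, 911)])))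
(.lp [[4], [1, 3], [0, 2, 5, 6, 7]] [(.mj 1 2, 1), (.mj 3 6, 12), (.mj 5 3, 17), (.mj 6 4, 17), (.hz 4 39, 125), (.hz 4 47, 9879), (.hz 4 103, 2673)]))
(.lp [[4], [1, 3], [0, 2, 5, 6]] [(.mj 3 4, 88), (.mj 5 3, 163), (.hz 4 47, 50531)]))
(.haz 4 111 3 50
(.haz 4 111 1 10
(.haz 5 23 21 50
(.haz 3 19 4 25
(.haz 5 23 13 25
(.haz 4 103 2 25
(.haz 3 23 1 5
(.haz 6 55 21 50
(.ask 19
(.mark 55 [3, 6, 7]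
(.lp [[3], [1, 4, 7], [0, 2, 5, 6]] [(.mj 3 6, 39), (.mj 5 3, 71), (.hz 4 3, 355), (.hz 8 19, 4146), (.hz 11 23, 16500), (.hz 9 23, 695), (.hz 2 147, 445), (.hz 8 147, 3562), (.hz 12 55, 1123), (.hz 11 151, 95415), (.hz 12 183, 7877)]))
(.ask 23
(.mark 55 [3, 6, 7]
(.lp [[3], [1, 4, 7], [0, 2, 5, 6]] [(.mj 1 2, 90), (.mj 3 6, 18), (.mj 5 3, 58), (.hz 4 7, 2924), (.hz 11 23, 21211), (.hz 12 55, 456), (.hz 11 151, 53862), (.hz 12 183, 3101)]))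
(.lp [[4], [1, 3], [0, 2, 5, 6]] [(.mj 1 2, 148), (.mj 3 6, 37), (.mj 5 3, 100), (.hz 11 23, 46267), (.hz 4 39, 7110), (.hz 12 55, 4164)])))
(.lp [[4], [1, 3], [0, 2, 5, 6]] [(.mj 5 3, 16), (.hz 4 3, 86), (.hz 8 19, 1298), (.hz 11 23, 17613), (.hz 4 39, 991), (.hz 12 39, 631)]))
(.lp [[4], [1, 3], [0, 2, 5, 6]] [(.mj 3 6, 14), (.hz 11 3, 1995), (.hz 4 3, 399), (.hz 11 7, 14770), (.hz 4 7, 1011), (.hz 8 23, 1675), (.hz 4 39, 1675), (.hz 10 103, 3193)]))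
(.lp [[4], [1, 3], [0, 2, 5, 6]] [(.mj 1 2, 4298), (.mj 3 6, 1088), (.mj 5 3, 3217), (.hz 10 3, 135134), (.hz 10 7, 50757), (.hz 8 19, 160874), (.hz 8 23, 510981), (.hz 10 39, 108797)]))
(.lp [[4], [1, 3], [0, 2, 5, 6]] [(.mj 5 3, 1), (.hz 4 3, 8), (.hz 4 7, 79), (.hz 9 7, 107), (.hz 8 19, 74), (.hz 8 23, 118)]))
(.lp [[4], [1, 3], [0, 2, 5, 6]] [(.mj 1 2, 11), (.hz 8 3, 504), (.hz 4 3, 327), (.hz 4 7, 178)]))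
(.lp [[4], [1, 3], [0, 2, 5, 6]] [(.mj 5 3, 2), (.hz 4 3, 46), (.hz 4 7, 174), (.hz 7 7, 97)]))
(.cut 4 [(0, 1), (1, 1), (2, 1), (3, 1), (5, 1), (7, 1), (37, 1), (39, 1)]
(.lp [[4], [1, 3], [0, 2, 5, 6]] [(.mj 1 2, 9975), (.mj 3 6, 2478), (.mj 5 3, 7180), (.hz 6 3, 897505), (.hz 6 7, 753263), (.hz 6 39, 592994), (.hz 6 103, 265661), (.rw 5, 4)])))
(.cut 4 [(0, 1), (1, 1), (2, 1), (3, 1), (5, 1), (7, 1), (37, 1), (39, 1)]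
(.lp [[4], [1, 3], [0, 2, 5, 6]] [(.mj 1 2, 2612), (.mj 3 6, 652), (.mj 5 3, 1911), (.hz 5 3, 47767), (.hz 5 7, 39972), (.hz 5 39, 31679), (.hz 5 103, 15072), (.rw 5, 1)]))))
(.con 4 3)
(.haz 4 39 1 10
(.haz 4 39 3 25
(.ask 103
(.mark 103 [3, 4, 7]
(.spn
(.lp [[4], [1, 3], [0, 2, 5, 6, 7]] [(.mj 1 2, 3722), (.mj 6 3, 507), (.rw 4, 1), (.rw 5, 2), (.hz 2 19, 27532), (.hz 5 39, 153928)])
(.con 4 3)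
(.cut 3 [(0, 1), (1, 1), (2, 1), (3, 1), (5, 1), (7, 1), (37, 1)]
(.lp [[4], [1, 3], [0, 2, 5, 6, 7]] [(.mj 1 2, 27597), (.rw 5, 8), (.hz 2 11, 204121), (.hz 2 19, 204121), (.hz 5 39, 1141222), (.hz 5 103, 1296843), (.rw 6, 7)]))
.fin))
(.lp [[4], [1, 3], [0, 2, 5, 6]] [(.rw 4, 1)]))
(.cut 3 [(0, 1), (1, 1), (2, 1), (3, 1), (5, 1), (7, 1), (37, 1)]
(.lp [[4], [1, 3], [0, 2, 5, 6]] [(.mj 1 2, 6025), (.mj 6 3, 2283), (.hz 5 3, 154990), (.hz 5 7, 82441), (.hz 2 11, 44391), (.hz 4 47, 2282990), (.rw 5, 2)])))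
(.cut 3 [(0, 1), (1, 1), (2, 1), (3, 1), (5, 1), (7, 1), (37, 1)]
(.lp [[4], [1, 3], [0, 2, 5, 6]] [(.mj 1 2, 4553), (.mj 6 3, 1714), (.hz 4 3, 291480), (.hz 4 7, 153411), (.hz 2 11, 33587), (.rw 5, 1)])))
.fin))
(.lp [[4], [1, 3], [0, 2, 5]] [(.mj 3 4, 7), (.mj 5 3, 12)])))
.fin))
(.ask 7
(.mark 7 [3, 4, 5]
(.spn
(.lp [[4], [1, 3], [0, 2, 5]] [(.mj 0 1, 8), (.mj 3 5, 1)])
(.con 4 3)
(.ask 39
(.mark 39 [3, 4, 6]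
(.spn
(.lp [[4], [1, 3], [0, 2, 5, 6]] [(.mj 0 1, 14), (.mj 3 6, 1)])
(.con 4 3)
(.ask 103
(.mark 103 [3, 4, 7]
(.spn
(.lp [[4], [1, 3], [0, 2, 5, 6, 7]] [(.mj 6 3, 1180), (.rw 5, 2)])
(.con 4 3)
(.ask 231
(.mark 231 [3, 4, 8]
(.spn
(.lp [[4], [1, 3], [0, 2, 5, 6, 7, 8]] [(.mj 7 3, 274), (.rw 6, 1)])
(.con 4 3)
(.cut 4 [(0, 1), (1, 1), (2, 1), (5, 1)]
(.cut 3 [(0, 1), (1, 1), (2, 1), (3, 1), (5, 1), (7, 1), (39, 1)]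
(.cut 4 [(0, 1), (1, 1), (2, 1), (3, 1), (5, 1), (7, 1)]
(.cut 3 [(0, 1), (1, 1), (2, 1), (3, 1), (5, 1), (7, 1), (39, 1), (103, 1)]
(.cut 4 [(0, 1), (1, 1), (2, 1), (3, 1), (5, 1), (7, 1), (11, 1), (15, 1), (39, 1)]
(.cut 4 [(0, 1), (1, 1), (2, 1), (3, 1), (5, 1), (7, 1), (39, 1), (103, 1)]
(.cut 4 [(0, 1), (1, 1), (2, 1), (3, 1), (5, 1), (7, 1), (11, 1), (15, 1), (39, 1), (47, 1), (103, 1), (231, 1)]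
(.lp [[4], [1, 3], [0, 2, 5, 6, 7, 8]] [(.mj 0 1, 653831), (.rw 6, 89), (.hz 2 27, 2585446), (.rw 7, 157), (.rw 8, 193), (.rw 9, 125), (.rw 10, 266), (.rw 11, 83), (.rw 12, 61), (.rw 13, 33)]))))))))
.fin))
(.lp [[4], [1, 3], [0, 2, 5, 6, 7]] [(.rw 5, 1)]))
.fin))
(.lp [[4], [1, 3], [0, 2, 5, 6]] [(.rw 4, 1)]))
.fin))
(.lp [[4], [1, 3], [0, 2, 5]] [(.rw 3, 1)]))
.fin))
(.lp [[4], [0, 2], [1, 3]] [(.mj 0 1, 1)])))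
(.lp [[4], [0, 2], [1, 3]] [(.mj 0 1, 1), (.mj 3 2, 1), (.hz 2 3, 14)])
(.con 4 3)
.fin))

theorem run261 : run P3488 (leaf3 218 625) (cutRow P3488) [s81] t261 s261 = true := by
  decide +kernel

theorem bad261 : Bad P3488 s261 :=
  run_sound (leaf3_sound P3488 rfl rfl) (cutRow_sound P3488) (
    List.forall_mem_cons.2 ⟨bad81, fun _ h => absurd h List.not_mem_nil⟩) t261 s261 run261

end Pool.Agent.WN.Data
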