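import Pool.Agent.WN.CutRow
import Pool.Agent.WN.LeafRow
import Pool.Agent.Helper99.WN.ParDef
import Pool.Agent.WN.Data.D1
import Pool.Agent.WN.Data.D6
import Pool.Agent.WN.Data.D7
import Pool.Agent.WN.Data.D8
import Pool.Agent.WN.Data.D11
import Pool.Agent.WN.Data.D12
import Pool.Agent.WN.Data.D18
import Pool.Agent.WN.Data.D19
import Pool.Agent.WN.Data.D20
import Pool.Agent.WN.Data.D28

/-!
# The search tree, part 33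
-/

set_option autoImplicit false

namespace Pool.Agent.WN.Data

open Pool.Agent.W3 Pool.Agent.WN Pool.Agent.Helper99.WN

/-- the state above piece 25 of the tree -/
def s25 : St := ⟨[0, 0, 1, 1, 3, 7, 13, 39], [15, 11, 9, 7, 5, 3, 2, 1, 0], [0, 1, 2, 3, 5],
  [],
  [⟨true, 1, 9, 7, 50⟩, ⟨true, 2, 11, 3, 50⟩, ⟨true, 2, 9, 9, 50⟩, ⟨true, 3, 3, 1, 5⟩, ⟨true, 1, 5, 13, 50⟩, ⟨true, 5, 31, 1, 8⟩],
  [.spn 0 0 651200, .spn 1 1 140426, .spn 3 2 140426, .spn 7 3 62723, .spn 15 5 140426]⟩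

/-- piece 25 of the tree -/
noncomputable def t25 : WN.Tree :=
(.mark 47 [4, 6, 7]
(.spn
(.haz 4 175 1 10
(.haz 4 111 1 10
(.haz 2 19 21 50
(.haz 7 111 11 50
(.haz 2 19 12 25
(.haz 4 175 7 50
(.haz 4 15 7 50
(.haz 7 111 8 25
(.haz 7 63 6 25
(.haz 7 63 3 10
(.ask 19
(.mark 63 [6, 7, 8]
(.spn
(.lp [[3, 6], [1, 4, 8], [0, 2, 5, 7]] [(.mj 1 2, 14), (.mj 4 6, 1727), (.mj 5 4, 1739), (.mj 6 7, 1736), (.rw 5, 1), (.hz 10 275, 177), (.hz 12 79, 6250), (.hz 3 279, 972), (.hz 3 167, 337), (.hz 10 283, 442), (.hz 15 63, 2797477), (.hz 13 111, 885060), (.hz 3 311, 3251325), (.hz 15 319, 11282353)])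
(.haz 6 63 9 50
(.haz 6 175 7 50
(.haz 6 175 9 50
(.ask 77
(.mark 111 [4, 7, 9]
(.lp [[1, 4, 8], [3, 6, 9], [0, 2, 5, 7]] [(.mj 1 2, 21), (.mj 3 5, 5), (.mj 4 7, 23), (.mj 5 4, 39), (.mj 7 6, 11), (.hz 4 589, 251), (.hz 16 63, 3288), (.hz 18 175, 2260), (.hz 12 591, 13531), (.hz 16 191, 4882), (.hz 12 623, 4882), (.hz 13 623, 18608)]))
(.ask 79
(.mark 111 [4, 7, 9]
(.lp [[1, 4, 8], [3, 6, 9], [0, 2, 5, 7]] [(.mj 3 5, 3), (.mj 4 7, 14), (.mj 5 4, 22), (.mj 7 6, 9), (.hz 16 63, 3795), (.hz 18 175, 1613), (.hz 12 591, 7579), (.hz 16 191, 2494), (.hz 12 623, 2494), (.hz 13 623, 10979)]))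
(.ask 111
(.mark 111 [4, 7, 9]
(.lp [[1, 4, 8], [3, 6, 9], [0, 2, 5, 7]] [(.mj 3 5, 2), (.mj 4 7, 15), (.mj 5 4, 21), (.mj 7 6, 6), (.hz 13 111, 3971), (.hz 16 191, 4084), (.hz 12 623, 4084), (.hz 13 623, 7521)]))
(.lp [[3, 6], [1, 4, 8], [0, 2, 5, 7]] [(.mj 4 7, 2), (.mj 5 4, 3)]))))
(.lp [[3, 6], [1, 4, 8], [0, 2, 5, 7]] [(.mj 3 5, 21), (.mj 4 7, 16), (.mj 5 4, 23), (.hz 18 13, 646), (.hz 18 15, 2727), (.hz 18 47, 3314), (.hz 16 63, 535), (.hz 17 175, 4097)]))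
(.lp [[3, 6], [1, 4, 8], [0, 2, 5, 7]] [(.mj 3 5, 7), (.mj 4 7, 6), (.mj 5 4, 8), (.hz 17 13, 227), (.hz 17 15, 944), (.hz 17 47, 531), (.hz 16 63, 323), (.hz 13 111, 3241)]))
(.lp [[3, 6], [1, 4, 8], [0, 2, 5, 7]] [(.mj 3 5, 90), (.mj 4 7, 77), (.mj 5 4, 100), (.hz 16 13, 2853), (.hz 16 15, 11566), (.hz 16 47, 6864), (.hz 12 79, 2766), (.hz 13 111, 40446)]))
(.lp [[3, 6], [1, 4, 8], [0, 2, 5, 7]] [(.mj 1 2, 767), (.mj 3 5, 32), (.mj 5 4, 1362), (.mj 8 6, 392), (.mj 8 7, 871), (.rw 5, 1), (.hz 12 79, 342383), (.hz 15 63, 1502042), (.hz 13 111, 411929), (.hz 15 319, 502472)])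
.fin))
(.ref 0))
(.lp [[1, 4], [3, 6], [0, 2, 5, 7]] [(.mj 1 2, 2), (.mj 2 3, 1), (.mj 4 6, 7), (.mj 5 4, 16), (.hz 15 39, 2295), (.hz 15 47, 8941), (.hz 12 79, 4292), (.hz 13 111, 2361)]))
(.lp [[1, 4], [3, 6], [0, 2, 5, 7]] [(.mj 1 2, 2), (.mj 4 6, 4), (.mj 5 4, 10), (.hz 14 39, 524), (.hz 14 47, 2006), (.hz 12 79, 2456), (.hz 13 111, 1383)]))
(.haz 6 63 7 25
(.lp [[1, 4], [3, 6], [0, 2, 5, 7]] [(.mj 3 5, 6), (.mj 4 6, 35), (.mj 5 4, 48), (.hz 13 39, 2795), (.hz 13 47, 13229), (.hz 14 63, 20404), (.hz 9 111, 6099)])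
(.lp [[1, 4], [3, 6], [0, 2, 5, 7]] [(.mj 2 3, 2), (.mj 5 4, 4), (.hz 14 13, 86), (.hz 13 39, 236), (.hz 14 47, 1185), (.hz 13 47, 1235), (.hz 12 79, 1147)])))
(.haz 6 175 1 5
(.lp [[1, 4], [3, 6], [0, 2, 5, 7]] [(.mj 1 2, 28), (.mj 3 5, 8), (.mj 4 6, 21), (.mj 4 7, 13), (.hz 12 3, 717), (.hz 12 7, 779), (.hz 12 11, 1192), (.hz 12 15, 5893), (.hz 3 167, 42), (.hz 7 111, 15949), (.hz 13 175, 70570)])
(.lp [[1, 4], [3, 6], [0, 2, 5, 7]] [(.mj 4 7, 1), (.hz 12 3, 13), (.hz 12 7, 52), (.hz 12 11, 22), (.hz 13 13, 140), (.hz 12 15, 263), (.hz 13 15, 1229), (.hz 13 47, 868), (.hz 7 111, 830), (.hz 9 111, 285), (.hz 11 175, 15)])))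
(.lp [[1, 4], [3, 6], [0, 2, 5, 7]] [(.mj 2 3, 585), (.mj 4 6, 399), (.mj 4 7, 881), (.rw 5, 1), (.hz 11 3, 17078), (.hz 11 7, 28398), (.hz 11 15, 30354), (.hz 11 39, 33020), (.hz 11 47, 325382), (.hz 9 111, 300968)]))
(.lp [[1, 4], [3, 6], [0, 2, 5, 7]] [(.mj 1 2, 1), (.mj 2 3, 51), (.mj 5 4, 23), (.hz 10 3, 3770), (.hz 8 19, 1335), (.hz 3 19, 21374), (.hz 3 23, 23214)]))
(.lp [[1, 4], [3, 6], [0, 2, 5, 7]] [(.mj 2 3, 11), (.mj 4 6, 120), (.mj 5 4, 212), (.hz 9 39, 5773), (.hz 9 47, 22065), (.hz 7 111, 246455)]))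
(.lp [[1, 4], [3, 6], [0, 2, 5, 7]] [(.mj 1 2, 313), (.mj 2 3, 3217), (.mj 4 6, 72), (.mj 5 4, 2651), (.rw 5, 2), (.hz 8 3, 122169), (.hz 3 19, 1744224), (.hz 6 175, 497036)]))
(.lp [[1, 4], [3, 6], [0, 2, 5, 7]] [(.mj 1 2, 21), (.mj 4 6, 6), (.mj 4 7, 8), (.hz 7 3, 1788), (.hz 7 7, 1391), (.hz 7 11, 2881), (.hz 7 15, 3555), (.hz 7 39, 1545), (.hz 7 47, 5667)]))
(.lp [[1, 4], [3, 6], [0, 2, 5, 7]] [(.mj 1 2, 21), (.mj 4 6, 6), (.mj 4 7, 8), (.hz 6 3, 1788), (.hz 6 7, 1391), (.hz 6 11, 2881), (.hz 6 15, 3555), (.hz 6 39, 1545), (.hz 6 47, 5667)]))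
(.haz 4 7 3 20
(.lp [[1, 4], [3, 6], [0, 2, 5, 7]] [(.mj 1 2, 9), (.mj 6 4, 5), (.hz 6 7, 344), (.hz 6 15, 1094), (.hz 6 39, 405), (.hz 6 47, 1764), (.hz 6 79, 43), (.hz 3 167, 274), (.hz 6 167, 493), (.hz 6 175, 746)])
(.haz 4 15 7 40
(.lp [[1, 4], [3, 6], [0, 2, 5, 7]] [(.mj 1 2, 21), (.mj 6 4, 12), (.mj 6 7, 1), (.hz 7 15, 1609), (.hz 7 47, 2754), (.hz 7 79, 23), (.hz 3 167, 7808), (.hz 7 175, 4672)])
(.haz 4 175 3 40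
(.haz 4 167 1 20
(.haz 3 167 11 40
(.haz 4 167 1 10
(.haz 4 15 1 8
(.ask 167
(.mark 167 [3, 4, 8]
(.lp [[1, 4], [3, 6], [0, 2, 5, 7, 8]] [(.mj 1 2, 105), (.mj 2 3, 6), (.mj 6 4, 46), (.hz 6 3, 677), (.hz 12 15, 29666), (.hz 12 47, 47080), (.hz 12 79, 3910), (.hz 12 175, 68642), (.hz 10 423, 1525), (.hz 11 423, 22650), (.hz 12 431, 60986)]))
(.lp [[1, 4], [3, 6], [0, 2, 5, 7]] [(.mj 1 2, 4), (.mj 2 3, 24), (.mj 6 4, 15), (.mj 6 7, 2), (.hz 6 3, 79), (.hz 12 15, 18908), (.hz 12 47, 11318), (.hz 12 79, 1044), (.hz 12 175, 21608)]))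
(.cut 4 [(0, 1), (1, 1), (2, 1), (3, 1), (5, 1), (9, 1), (7, 1), (11, 1), (13, 1), (15, 1), (39, 1), (77, 1), (47, 1)]
(.lp [[1, 4], [3, 6], [0, 2, 5, 7]] [(.mj 1 2, 357196), (.mj 3 5, 3899), (.mj 6 4, 22874), (.mj 6 7, 19394), (.hz 12 3, 20896120), (.hz 12 7, 2436865), (.hz 12 11, 34329340), (.hz 10 167, 649366), (.hz 11 167, 11565498), (.hz 11 175, 55988891), (.rw 6, 8)])))
(.lp [[1, 4], [3, 6], [0, 2, 5, 7]] [(.mj 1 2, 271), (.mj 2 3, 10), (.mj 6 7, 23), (.hz 11 3, 37694), (.hz 10 167, 1378), (.hz 9 167, 9303), (.hz 8 175, 13088)]))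
(.lp [[1, 4], [3, 6], [0, 2, 5, 7]] [(.mj 3 5, 1), (.mj 6 7, 1), (.hz 6 3, 54), (.hz 10 5, 32), (.hz 10 7, 152), (.hz 6 7, 210), (.hz 7 11, 47), (.hz 10 39, 79), (.hz 3 167, 1245), (.hz 9 167, 226)]))
(.lp [[1, 4], [3, 6], [0, 2, 5, 7]] [(.mj 1 2, 11), (.mj 2 3, 2), (.mj 3 5, 1), (.mj 6 7, 1), (.hz 9 3, 660), (.hz 3 167, 84)]))
(.lp [[1, 4], [3, 6], [0, 2, 5, 7]] [(.mj 1 2, 22), (.mj 3 5, 1), (.mj 6 7, 1), (.hz 8 3, 424), (.hz 8 11, 353), (.hz 8 15, 145), (.hz 8 47, 252)]))))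
(.ref 1)
.fin))

theorem run25 : run P3488 (leaf3 218 625) (cutRow P3488) [s23, s24] t25 s25 = true := by
  decide +kernel

theorem bad25 : Bad P3488 s25 :=
  run_sound (leaf3_sound P3488 rfl rfl) (cutRow_sound P3488) (
    List.forall_mem_cons.2 ⟨bad23, List.forall_mem_cons.2 ⟨bad24, fun _ h => absurd h List.not_mem_nil⟩⟩) t25 s25 run25

/-- the state above piece 152 of the tree -/
def s152 : St := ⟨[0, 0, 1, 3, 5, 15, 15, 47, 23, 287], [175, 319, 279, 63, 31, 21, 15, 11, 7, 5, 3, 2, 1, 0], [0, 1, 2, 3, 4, 5, 8, 7],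
  [(4, 5)],
  [⟨true, 2, 3, 3, 10⟩, ⟨true, 1, 5, 2, 5⟩, ⟨true, 2, 3, 23, 50⟩, ⟨true, 1, 5, 12, 25⟩, ⟨true, 1, 21, 27, 50⟩, ⟨true, 4, 15, 9, 40⟩, ⟨true, 3, 23, 11, 20⟩, ⟨true, 1, 21, 29, 50⟩, ⟨true, 8, 95, 7, 40⟩, ⟨true, 4, 79, 13, 40⟩, ⟨true, 8, 95, 1, 4⟩, ⟨true, 7, 383, 3, 10⟩],
  [.spn 0 0 651200, .spn 1 1 302400, .spn 3 2 302400, .spn 7 3 302400, .spn 15 4 140426, .spn 31 5 140426, .spn 63 8 140426, .spn 319 7 140426]⟩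

/-- piece 152 of the tree -/
noncomputable def t152 : WN.Tree :=
(.ask 191
(.mark 447 [6, 9, 10]
(.spn
(.haz 6 1471 1 10
(.haz 9 383 9 40
(.ask 79
(.mark 511 [9, 10, 11]
(.lp [[6, 11], [0, 2, 4, 8, 9], [1, 3, 5, 7, 10]] [(.mj 5 8, 1631), (.mj 6 9, 114), (.mj 7 6, 739), (.mj 8 7, 1451), (.rw 8, 2), (.hz 9 2127, 174836), (.hz 10 2143, 9887772), (.hz 9 2159, 138961), (.hz 13 383, 842652), (.hz 10 2175, 15892854), (.hz 11 2431, 8177370), (.hz 13 2431, 1744246), (.hz 13 1535, 115961)]))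
(.ask 95
(.mark 511 [9, 10, 11]
(.lp [[6, 11], [0, 2, 4, 8, 9], [1, 3, 5, 7, 10]] [(.mj 5 8, 6732), (.mj 6 9, 471), (.mj 7 6, 2922), (.mj 8 7, 5988), (.rw 8, 8), (.hz 10 2143, 41060137), (.hz 13 383, 3155208), (.hz 10 2175, 21502549), (.hz 13 1535, 478606)]))
(.ask 351
(.mark 511 [9, 10, 11]
(.lp [[6, 11], [0, 2, 4, 8, 9], [1, 3, 5, 7, 10]] [(.mj 5 8, 9027), (.mj 6 9, 632), (.mj 7 6, 3601), (.mj 8 7, 8029), (.rw 8, 10), (.hz 13 383, 3623712)]))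
(.ask 111
(.mark 511 [9, 10, 11]
(.lp [[6, 11], [0, 2, 4, 8, 9], [1, 3, 5, 7, 10]] [(.mj 5 8, 13333), (.mj 6 9, 933), (.mj 7 6, 6861), (.mj 8 7, 11859), (.rw 8, 19), (.hz 9 2159, 1316933), (.hz 13 383, 8932270), (.hz 10 2175, 117733809), (.hz 11 2431, 45860086), (.hz 13 2431, 8571561), (.hz 13 1535, 947895)]))
(.ask 239
(.mark 511 [9, 10, 11]
(.lp [[6, 11], [0, 2, 4, 8, 9], [1, 3, 5, 7, 10]] [(.mj 5 8, 1684), (.mj 6 9, 118), (.mj 7 6, 401), (.mj 8 7, 1498), (.rw 8, 1)]))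
(.haz 9 447 13 40
(.lp [[6], [0, 2, 4, 8, 9], [1, 3, 5, 7, 10]] [(.mj 6 9, 1919), (.mj 7 6, 1919), (.mj 8 7, 1919), (.rw 8, 1), (.hz 14 447, 601914), (.hz 14 511, 1589114), (.hz 12 1471, 5756790), (.hz 14 1471, 1948913)])
(.ask 127
(.mark 511 [9, 10, 11]
(.lp [[6, 11], [0, 2, 4, 8, 9], [1, 3, 5, 7, 10]] [(.mj 5 8, 256), (.mj 6 9, 78), (.mj 7 6, 329), (.mj 8 7, 518), (.rw 8, 1), (.hz 14 319, 78289)]))
(.lp [[6], [0, 2, 4, 8, 9], [1, 3, 5, 7, 10]] [(.mj 5 8, 23349), (.mj 7 6, 12469), (.mj 8 7, 35040), (.rw 8, 14), (.hz 14 319, 7566916), (.hz 13 383, 15585882), (.hz 14 447, 6068302), (.hz 12 1471, 103899578)]))))))))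
(.lp [[6], [0, 2, 4, 8, 9], [1, 3, 5, 7, 10]] [(.mj 7 6, 951), (.mj 8 7, 1418), (.rw 8, 1), (.hz 13 287, 194873), (.hz 13 319, 935733), (.hz 12 1471, 6691820)]))
(.lp [[6], [0, 2, 4, 8, 9], [1, 3, 5, 7, 10]] [(.mj 6 9, 98), (.mj 8 7, 330), (.rw 8, 1), (.hz 12 15, 24679), (.hz 12 31, 47164), (.hz 12 47, 27421), (.hz 12 63, 82872), (.hz 12 287, 72148), (.hz 12 319, 172245), (.hz 12 447, 3898579)]))
(.haz 6 191 3 40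
(.maj 6 10
(.ask 1215
(.mark 1215 [6, 8, 11]
(.cut 6 [(0, 1), (1, 1), (2, 1), (3, 1), (5, 1), (7, 1), (11, 1), (21, 1), (15, 1), (23, 1), (31, 1), (47, 1), (279, 1), (63, 1), (175, 1), (287, 1), (191, 1), (319, 1), (447, 1)]
(.lp [[6], [0, 2, 4, 8, 9], [1, 3, 5, 7, 10, 11]] [(.mj 5 8, 24210), (.mj 8 7, 7191), (.mj 9 6, 12568), (.hz 12 1215, 13426587), (.hz 10 1279, 87772207), (.hz 12 1471, 34261164), (.hz 12 3263, 7854861), (.hz 10 3327, 164952072), (.rw 9, 28)])))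
(.cut 6 [(0, 1), (1, 1), (2, 1), (3, 1), (5, 1), (7, 1), (11, 1), (21, 1), (15, 1), (23, 1), (31, 1), (47, 1), (279, 1), (63, 1), (175, 1), (287, 1), (191, 1), (319, 1), (447, 1)]
(.lp [[6], [0, 2, 4, 8, 9], [1, 3, 5, 7, 10]] [(.mj 3 4, 4107), (.mj 5 8, 757), (.mj 8 7, 134), (.mj 9 6, 2092), (.hz 12 1215, 1315650), (.hz 12 1471, 6791955), (.rw 9, 4)])))
(.ask 799
(.mark 959 [6, 10, 11]
(.cut 6 [(0, 1), (1, 1), (2, 1), (3, 1), (5, 1), (7, 1), (11, 1), (21, 1), (15, 1), (23, 1), (31, 1), (47, 1), (279, 1), (63, 1), (175, 1), (287, 1), (191, 1), (319, 1), (447, 1)]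
(.lp [[6], [1, 3, 5, 7, 10], [0, 2, 4, 8, 9, 11]] [(.mj 3 4, 235), (.mj 5 8, 445), (.mj 8 7, 93), (.mj 9 10, 288), (.mj 10 6, 420), (.hz 12 1471, 648100), (.hz 12 3007, 1432153), (.rw 9, 1)])))
(.haz 6 31 3 40
(.ask 831
(.mark 959 [6, 10, 11]
(.cut 6 [(0, 1), (1, 1), (2, 1), (3, 1), (5, 1), (7, 1), (11, 1), (21, 1), (15, 1), (23, 1), (31, 1), (47, 1), (279, 1), (63, 1), (175, 1), (287, 1), (191, 1), (319, 1), (799, 1), (447, 1), (831, 1)]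
(.lp [[6], [1, 3, 5, 7, 10], [0, 2, 4, 8, 9, 11]] [(.mj 3 4, 7626), (.mj 8 7, 1601), (.mj 9 10, 900), (.mj 10 6, 4377), (.hz 13 31, 515257), (.hz 13 63, 557035), (.hz 13 287, 1072291), (.hz 13 319, 1393190), (.hz 12 1471, 567789), (.hz 12 3007, 3188819), (.rw 9, 7)])))
(.cut 6 [(0, 1), (1, 1), (2, 1), (3, 1), (5, 1), (7, 1), (11, 1), (21, 1), (15, 1), (23, 1), (31, 1), (47, 1), (279, 1), (63, 1), (175, 1), (287, 1), (191, 1), (319, 1), (799, 1), (831, 1)]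
(.cut 6 [(0, 1), (1, 1), (2, 1), (3, 1), (5, 1), (7, 1), (11, 1), (21, 1), (15, 1), (23, 1), (31, 1), (47, 1), (279, 1), (63, 1), (175, 1), (287, 1), (191, 1), (319, 1), (799, 1), (447, 1)]
(.lp [[6], [0, 2, 4, 8, 9], [1, 3, 5, 7, 10]] [(.mj 3 4, 325968), (.mj 8 7, 89372), (.mj 9 10, 15316), (.mj 10 6, 184892), (.hz 13 31, 22024874), (.hz 13 63, 23810675), (.hz 13 287, 45835549), (.hz 13 319, 25248812), (.hz 13 799, 49551945), (.hz 13 831, 72979200), (.rw 9, 254), (.rw 10, 44)]))))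
(.lp [[6], [0, 2, 4, 8, 9], [1, 3, 5, 7, 10]] [(.mj 3 4, 65), (.mj 8 7, 19), (.hz 13 15, 5445), (.hz 13 31, 1154), (.hz 12 191, 13829), (.hz 12 447, 2555), (.hz 12 1215, 755), (.hz 12 959, 9930)]))))
(.cut 6 [(0, 1), (1, 1), (2, 1), (3, 1), (5, 1), (7, 1), (11, 1), (21, 1), (15, 1), (23, 1), (31, 1), (47, 1), (279, 1), (63, 1), (175, 1), (287, 1), (191, 1), (319, 1), (447, 1)]
(.lp [[6], [0, 2, 4, 8, 9], [1, 3, 5, 7, 10]] [(.mj 3 4, 5399), (.mj 8 7, 1350), (.mj 9 10, 150), (.hz 12 15, 195639), (.hz 12 31, 255770), (.hz 12 47, 211502), (.rw 9, 1)])))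
(.haz 9 447 11 40
(.cut 6 [(0, 1), (1, 1), (2, 1), (3, 1), (5, 1), (7, 1), (11, 1), (21, 1), (15, 1), (23, 1), (31, 1), (47, 1), (279, 1), (63, 1), (175, 1), (287, 1), (191, 1), (319, 1), (447, 1)]
(.lp [[6], [0, 2, 4, 8, 9], [1, 3, 5, 7, 10]] [(.mj 8 7, 12640), (.mj 10 6, 9635), (.mj 10 9, 11317), (.hz 12 447, 8293009), (.rw 9, 22)]))
(.cut 6 [(0, 1), (1, 1), (2, 1), (3, 1), (5, 1), (7, 1), (11, 1), (21, 1), (15, 1), (23, 1), (31, 1), (47, 1), (279, 1), (63, 1), (175, 1), (287, 1), (191, 1), (319, 1), (447, 1)]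
(.cut 6 [(0, 1), (1, 1), (2, 1), (3, 1), (5, 1), (7, 1), (11, 1), (21, 1), (15, 1), (23, 1), (31, 1), (47, 1), (279, 1), (63, 1), (175, 1), (287, 1), (191, 1), (319, 1), (799, 1), (447, 1)]
(.lp [[6], [0, 2, 4, 8, 9], [1, 3, 5, 7, 10]] [(.mj 5 8, 1133), (.mj 8 7, 7191), (.mj 10 6, 4016), (.mj 10 9, 2178), (.hz 12 287, 1530332), (.hz 11 383, 1783683), (.hz 11 895, 40797337), (.rw 9, 8), (.rw 10, 3)]))))
.fin))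
(.ref 0))

theorem run152 : run P3488 (leaf3 218 625) (cutRow P3488) [s151] t152 s152 = true := by
  decide +kernel

theorem bad152 : Bad P3488 s152 :=
  run_sound (leaf3_sound P3488 rfl rfl) (cutRow_sound P3488) (
    List.forall_mem_cons.2 ⟨bad151, fun _ h => absurd h List.not_mem_nil⟩) t152 s152 run152

/-- the state above piece 154 of the tree -/
def s154 : St := ⟨[0, 0, 1, 3, 5, 15, 15, 47, 23, 319], [175, 319, 287, 279, 63, 31, 21, 15, 11, 7, 5, 3, 2, 1, 0], [0, 1, 2, 3, 4, 5, 8, 7],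
  [(4, 5)],
  [⟨true, 2, 3, 3, 10⟩, ⟨true, 1, 5, 2, 5⟩, ⟨true, 2, 3, 23, 50⟩, ⟨true, 1, 5, 12, 25⟩, ⟨true, 1, 21, 27, 50⟩, ⟨true, 4, 15, 9, 40⟩, ⟨true, 3, 23, 11, 20⟩, ⟨true, 1, 21, 29, 50⟩, ⟨true, 8, 95, 7, 40⟩, ⟨true, 4, 79, 13, 40⟩, ⟨true, 8, 95, 1, 4⟩, ⟨true, 6, 191, 1, 20⟩],
  [.spn 0 0 651200, .spn 1 1 302400, .spn 3 2 302400, .spn 7 3 302400, .spn 15 4 140426, .spn 31 5 140426, .spn 63 8 140426, .spn 319 7 140426]⟩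

/-- piece 154 of the tree -/
noncomputable def t154 : WN.Tree :=
(.haz 6 831 1 20
(.haz 6 959 3 40
(.haz 8 127 17 40
(.ask 191
(.mark 447 [6, 9, 10]
(.spn
(.haz 9 447 7 20
(.lp [[6], [0, 2, 4, 8, 9], [1, 3, 5, 7, 10]] [(.mj 6 9, 2745), (.mj 7 6, 2745), (.mj 8 7, 2454), (.rw 8, 1), (.hz 15 447, 1994471), (.hz 11 1215, 3461714), (.hz 15 511, 2316160), (.hz 15 1471, 5575941)])
(.lp [[6], [0, 2, 4, 8, 9], [1, 3, 5, 7, 10]] [(.mj 0 1, 61720), (.mj 5 8, 1382), (.mj 8 7, 51), (.rw 8, 1), (.hz 15 319, 930321), (.hz 15 447, 668699), (.hz 11 1215, 3460637)]))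
(.haz 9 1471 3 8
(.ask 831
(.mark 959 [6, 10, 11]
(.spn
(.haz 10 1023 1 4
(.lp [[6], [1, 3, 5, 7, 10], [0, 2, 4, 8, 9, 11]] [(.mj 6 10, 346), (.mj 9 6, 6051), (.rw 9, 19), (.hz 12 2879, 5844469), (.hz 16 1023, 330774855), (.hz 13 3007, 5267238), (.hz 16 3071, 5411546)])
(.lp [[6], [1, 3, 5, 7, 10], [0, 2, 4, 8, 9, 11]] [(.mj 7 9, 2454), (.mj 9 6, 1311), (.rw 9, 2), (.hz 16 191, 4278595), (.hz 16 447, 11632011), (.hz 11 1215, 910834), (.hz 16 959, 9103143), (.hz 11 1471, 2663847), (.hz 13 3007, 4843369)]))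
(.maj 6 11
(.cut 6 [(0, 1), (1, 1), (2, 1), (3, 1), (5, 1), (7, 1), (11, 1), (21, 1), (15, 1), (23, 1), (31, 1), (47, 1), (279, 1), (63, 1), (175, 1), (287, 1), (191, 1), (319, 1), (447, 1), (831, 1), (959, 1)]
(.lp [[6], [1, 3, 5, 7, 10], [0, 2, 4, 8, 9, 11]] [(.mj 7 9, 137), (.mj 9 10, 519), (.mj 10 6, 605), (.hz 12 2879, 2260923), (.hz 13 3007, 3352930), (.rw 10, 2)]))
(.cut 6 [(0, 1), (1, 1), (2, 1), (3, 1), (5, 1), (7, 1), (11, 1), (21, 1), (15, 1), (23, 1), (31, 1), (279, 1), (287, 1)]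
(.cut 6 [(0, 1), (1, 1), (2, 1), (3, 1), (5, 1), (7, 1), (11, 1), (21, 1), (15, 1), (23, 1), (31, 1), (47, 1), (279, 1), (63, 1), (175, 1), (287, 1), (191, 1)]
(.cut 6 [(0, 1), (1, 1), (2, 1), (3, 1), (5, 1), (7, 1), (11, 1), (21, 1), (15, 1), (23, 1), (31, 1), (47, 1), (279, 1), (63, 1), (287, 1), (319, 1)]
(.cut 6 [(0, 1), (1, 1), (2, 1), (3, 1), (5, 1), (7, 1), (11, 1), (21, 1), (15, 1), (23, 1), (31, 1), (47, 1), (279, 1), (63, 1), (175, 1), (287, 1), (191, 1), (319, 1), (447, 1), (831, 1), (959, 1)]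
(.lp [[6], [1, 3, 5, 7, 10], [0, 2, 4, 8, 9, 11]] [(.mj 7 9, 2984), (.mj 9 10, 7471), (.mj 10 11, 4654), (.mj 11 6, 30611), (.hz 11 1215, 6807977), (.hz 13 959, 28596439), (.hz 13 1983, 70782118), (.rw 10, 26), (.rw 11, 22), (.rw 12, 17), (.rw 13, 19)]))))))
(.cut 6 [(0, 1), (1, 1), (2, 1), (3, 1), (5, 1), (7, 1), (11, 1), (21, 1), (15, 1), (23, 1), (31, 1), (47, 1), (279, 1), (63, 1), (175, 1), (287, 1), (191, 1), (319, 1), (447, 1), (831, 1), (959, 1)]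
(.lp [[6], [1, 3, 5, 7, 10], [0, 2, 4, 8, 9, 11]] [(.mj 7 9, 6932), (.mj 8 7, 1886), (.mj 11 6, 4139), (.mj 11 10, 2443), (.hz 13 959, 786597), (.hz 15 1471, 8041871), (.rw 10, 13)]))
.fin))
(.ask 959
(.mark 959 [6, 10, 11]
(.spn
(.haz 10 3007 1 8
(.haz 10 3007 1 5
(.lp [[6], [1, 3, 5, 7, 10], [0, 2, 4, 8, 9, 11]] [(.mj 6 10, 19), (.mj 6 11, 12), (.mj 9 6, 27), (.hz 11 1215, 31854), (.hz 11 1471, 43323), (.hz 13 1983, 28143), (.hz 17 3007, 378656)])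
(.lp [[6], [1, 3, 5, 7, 10], [0, 2, 4, 8, 9, 11]] [(.mj 6 11, 8), (.mj 9 6, 10), (.hz 17 191, 16563), (.hz 17 447, 52052), (.hz 11 1215, 12908), (.hz 17 959, 78626), (.hz 13 1983, 19416), (.hz 16 3007, 86274)]))
(.lp [[6], [1, 3, 5, 7, 10], [0, 2, 4, 8, 9, 11]] [(.mj 3 4, 5), (.mj 6 11, 4), (.mj 9 6, 5), (.hz 16 191, 6791), (.hz 16 447, 14777), (.hz 16 959, 23903)]))
(.cut 6 [(0, 1), (1, 1), (2, 1), (3, 1), (5, 1), (7, 1), (11, 1), (21, 1), (15, 1), (23, 1), (31, 1), (47, 1), (279, 1), (63, 1), (175, 1), (287, 1), (191, 1), (319, 1), (447, 1), (831, 1), (959, 1)]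
(.lp [[6], [1, 3, 5, 7, 10], [0, 2, 4, 8, 9, 11]] [(.mj 8 7, 712), (.mj 10 6, 294), (.mj 10 11, 85), (.hz 13 3007, 357069), (.rw 10, 1)]))
(.cut 10 [(0, 1), (1, 1), (2, 1), (3, 1), (5, 1), (7, 1), (11, 1), (21, 1), (15, 1), (23, 1), (31, 1), (47, 1), (79, 1), (279, 1), (63, 1), (95, 1), (111, 1), (175, 1), (287, 1), (127, 1), (191, 1), (239, 1), (319, 1), (351, 1), (255, 1), (383, 1), (447, 1), (831, 1), (511, 1), (895, 1), (959, 1)]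
(.cut 6 [(0, 1), (1, 1), (2, 1), (3, 1), (5, 1), (7, 1), (11, 1), (21, 1), (15, 1), (23, 1), (31, 1), (279, 1), (287, 1)]
(.cut 6 [(0, 1), (1, 1), (2, 1), (3, 1), (5, 1), (7, 1), (11, 1), (21, 1), (15, 1), (23, 1), (31, 1), (47, 1), (279, 1), (63, 1), (175, 1), (287, 1), (191, 1), (319, 1), (447, 1), (831, 1), (959, 1)]
(.lp [[6], [1, 3, 5, 7, 10], [0, 2, 4, 8, 9, 11]] [(.mj 11 6, 79956), (.hz 14 1279, 40066389), (.hz 15 1535, 173003581), (.hz 13 1983, 102991133), (.rw 10, 4), (.rw 11, 91), (.rw 12, 184)]))))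
.fin))
(.lp [[6], [0, 2, 4, 8, 9], [1, 3, 5, 7, 10]] [(.mj 0 1, 13), (.mj 9 6, 4), (.mj 9 10, 4), (.hz 13 1983, 28203)])))
(.lp [[6], [0, 2, 4, 8, 9], [1, 3, 5, 7, 10]] [(.mj 0 1, 71), (.mj 9 6, 6), (.mj 9 10, 7), (.hz 15 319, 19824), (.hz 15 447, 39161), (.hz 11 1215, 28955), (.hz 11 1471, 54991)]))
(.ask 831
(.mark 831 [6, 7, 11]
(.cut 6 [(0, 1), (1, 1), (2, 1), (3, 1), (5, 1), (7, 1), (11, 1), (21, 1), (15, 1), (23, 1), (31, 1), (47, 1), (279, 1), (63, 1), (175, 1), (287, 1), (191, 1), (319, 1), (447, 1), (831, 1)]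
(.lp [[6], [1, 3, 5, 7, 10], [0, 2, 4, 8, 9, 11]] [(.mj 8 7, 82832), (.mj 10 6, 48425), (.mj 10 9, 46542), (.hz 12 831, 31777266), (.rw 9, 136)])))
(.lp [[6], [0, 2, 4, 8, 9], [1, 3, 5, 7, 10]] [(.mj 8 7, 7), (.mj 10 6, 5), (.mj 10 9, 2), (.hz 11 191, 15823), (.hz 11 447, 5008), (.hz 11 1215, 1973), (.hz 13 959, 14364)]))
.fin))
(.ref 0))
(.lp [[6], [1, 3, 5, 7], [0, 2, 4, 8, 9]] [(.mj 0 1, 1163), (.mj 5 8, 28), (.mj 7 6, 1), (.hz 14 63, 10589), (.hz 11 191, 29857), (.hz 11 447, 6637), (.hz 12 831, 6637)]))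
(.cut 6 [(0, 1), (1, 1), (2, 1), (3, 1), (5, 1), (7, 1), (11, 1), (21, 1), (15, 1), (23, 1), (31, 1), (279, 1)]
(.cut 6 [(0, 1), (1, 1), (2, 1), (3, 1), (5, 1), (7, 1), (11, 1), (21, 1), (15, 1), (23, 1), (31, 1), (47, 1), (279, 1), (63, 1), (287, 1)]
(.cut 6 [(0, 1), (1, 1), (2, 1), (3, 1), (5, 1), (7, 1), (11, 1), (21, 1), (15, 1), (23, 1), (31, 1), (47, 1), (279, 1), (63, 1), (287, 1), (319, 1)]
(.lp [[6], [1, 3, 5, 7], [0, 2, 4, 8, 9]] [(.mj 8 7, 189), (.hz 13 175, 3856598), (.hz 13 191, 10210705), (.hz 13 447, 18925124), (.hz 13 831, 18925124), (.rw 8, 4), (.rw 9, 3), (.rw 10, 28)])))))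
(.cut 6 [(0, 1), (1, 1), (2, 1), (3, 1), (5, 1), (7, 1), (11, 1), (21, 1), (15, 1), (23, 1), (47, 1), (279, 1)]
(.lp [[6], [1, 3, 5, 7], [0, 2, 4, 8, 9]] [(.hz 12 15, 248086), (.hz 12 31, 198469), (.hz 12 287, 198469), (.rw 8, 1)])))

theorem run154 : run P3488 (leaf3 218 625) (cutRow P3488) [s153] t154 s154 = true := by
  decide +kernel

theorem bad154 : Bad P3488 s154 :=
  run_sound (leaf3_sound P3488 rfl rfl) (cutRow_sound P3488) (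
    List.forall_mem_cons.2 ⟨bad153, fun _ h => absurd h List.not_mem_nil⟩) t154 s154 run154

/-- the state above piece 228 of the tree -/
def s228 : St := ⟨[0, 0, 1, 3, 5, 15, 23, 47, 63, 127], [127, 95, 87, 63, 47, 31, 23, 21, 15, 11, 7, 5, 3, 2, 1, 0], [0, 1, 2, 3, 4, 5, 6, 7],
  [(5, 6), (4, 5)],
  [⟨true, 2, 3, 3, 10⟩, ⟨true, 1, 5, 2, 5⟩, ⟨true, 2, 3, 23, 50⟩, ⟨true, 1, 5, 12, 25⟩, ⟨true, 1, 21, 27, 50⟩, ⟨true, 4, 15, 9, 40⟩, ⟨true, 3, 23, 11, 20⟩, ⟨true, 4, 47, 7, 20⟩, ⟨true, 4, 47, 17, 40⟩, ⟨true, 4, 47, 9, 20⟩, ⟨true, 4, 47, 19, 40⟩, ⟨true, 5, 95, 1, 5⟩, ⟨true, 5, 95, 3, 10⟩, ⟨true, 5, 31, 3, 10⟩, ⟨true, 5, 95, 11, 25⟩, ⟨true, 6, 63, 3, 20⟩, ⟨true, 7, 319, 1, 10⟩, ⟨true, 7, 319, 7, 40⟩, ⟨true, 7, 63, 1, 5⟩],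
  [.spn 0 0 651200, .spn 1 1 302400, .spn 3 2 302400, .spn 7 3 302400, .spn 15 4 302400, .spn 31 5 302400, .spn 63 6 140426, .spn 127 7 140426]⟩

/-- piece 228 of the tree -/
noncomputable def t228 : WN.Tree :=
(.haz 6 319 11 40
(.haz 4 175 14 25
(.ask 175
(.mark 255 [8, 9, 10]
(.spn
(.haz 7 319 6 25
(.haz 6 319 17 50
(.haz 8 1215 1 10
(.haz 9 1279 4 25
(.haz 7 639 13 50
(.haz 6 319 19 50
(.haz 9 1279 11 50
(.haz 8 639 11 50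
(.haz 8 1215 9 50
(.haz 7 639 3 10
(.haz 7 639 8 25
(.haz 10 1023 3 50
(.haz 9 1279 7 25
(.ask 639
(.mark 767 [8, 10, 11]
(.lp [[8], [1, 3, 5, 7, 10], [0, 2, 4, 6, 9, 11]] [(.mj 3 4, 12), (.mj 6 7, 79), (.mj 7 8, 64), (.mj 8 9, 38), (.hz 28 639, 17215), (.hz 29 1215, 25598), (.hz 33 1279, 64694), (.hz 28 2687, 22564)]))
(.lp [[8], [0, 2, 4, 6, 9], [1, 3, 5, 7, 10]] [(.mj 3 4, 14), (.mj 6 7, 77), (.mj 7 8, 63), (.mj 8 9, 37), (.hz 28 639, 17752), (.hz 29 1215, 24605), (.hz 33 1279, 64288)]))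
(.lp [[8], [0, 2, 4, 6, 9], [1, 3, 5, 7, 10]] [(.mj 6 7, 13), (.mj 7 8, 10), (.mj 8 10, 1), (.hz 33 127, 5809), (.hz 33 255, 7179), (.hz 28 639, 3368), (.hz 29 1215, 6386), (.hz 27 1279, 933)]))
(.lp [[8], [0, 2, 4, 6, 9], [1, 3, 5, 7, 10]] [(.mj 3 4, 45), (.mj 6 7, 8), (.mj 7 8, 10), (.mj 8 9, 2), (.hz 32 175, 983), (.hz 32 191, 1395), (.hz 32 255, 2047), (.hz 28 639, 7050), (.hz 27 1279, 1701)]))
(.lp [[8], [0, 2, 4, 6, 9], [1, 3, 5, 7, 10]] [(.mj 6 7, 106), (.mj 7 8, 156), (.mj 8 9, 100), (.hz 31 47, 3806), (.hz 31 63, 2222), (.hz 31 127, 82313), (.hz 30 639, 191898), (.hz 28 639, 52804), (.hz 29 1215, 19315), (.hz 27 1279, 87797)]))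
(.lp [[8], [0, 2, 4, 6, 9], [1, 3, 5, 7, 10]] [(.mj 3 4, 4), (.mj 7 8, 23), (.mj 8 9, 11), (.hz 30 63, 31172), (.hz 30 127, 17206), (.hz 20 1199, 3064), (.hz 25 639, 4395), (.hz 28 639, 8778), (.hz 29 1215, 1298), (.hz 27 1279, 10053)]))
(.lp [[8], [0, 2, 4, 6, 9], [1, 3, 5, 7, 10]] [(.mj 3 4, 40), (.mj 6 7, 27), (.mj 8 9, 22), (.mj 8 10, 7), (.hz 29 63, 14499), (.hz 25 639, 2286), (.hz 23 1215, 53918), (.hz 27 1279, 25769)]))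
(.lp [[8], [0, 2, 4, 6, 9], [1, 3, 5, 7, 10]] [(.mj 3 4, 18), (.mj 6 7, 32), (.mj 8 9, 22), (.hz 28 63, 4504), (.hz 28 127, 8706), (.hz 25 639, 5315), (.hz 23 1215, 50742), (.hz 27 1279, 18989)]))
(.lp [[8], [0, 2, 4, 6, 9], [1, 3, 5, 7, 10]] [(.mj 6 7, 117), (.mj 7 8, 93), (.mj 8 10, 14), (.hz 27 127, 34055), (.hz 27 255, 32054), (.hz 23 1215, 265765), (.hz 24 1279, 32754), (.hz 23 1791, 157483)]))
(.lp [[8], [0, 2, 4, 6, 9], [1, 3, 5, 7, 10]] [(.mj 0 1, 3013), (.mj 6 7, 62), (.mj 7 8, 93), (.hz 26 63, 60749), (.hz 22 319, 35016), (.hz 23 1215, 36139)]))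
(.lp [[8], [0, 2, 4, 6, 9], [1, 3, 5, 7, 10]] [(.mj 3 4, 10539), (.mj 7 8, 18859), (.mj 8 9, 14066), (.hz 25 47, 1030739), (.hz 25 63, 3485104), (.hz 25 127, 6364861), (.hz 20 1199, 660021), (.hz 18 639, 80879443), (.hz 15 1215, 4923097), (.hz 23 1215, 1731242), (.hz 24 1279, 24615483), (.hz 22 1471, 1018378), (.hz 24 1535, 12729721)]))
(.lp [[8], [0, 2, 4, 6, 9], [1, 3, 5, 7, 10]] [(.mj 6 7, 7), (.mj 7 8, 6), (.mj 8 10, 1), (.hz 24 127, 4163), (.hz 24 255, 3770), (.hz 23 1215, 15760)]))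
(.lp [[8], [0, 2, 4, 6, 9], [1, 3, 5, 7, 10]] [(.mj 3 4, 8), (.mj 6 7, 4), (.mj 8 9, 3), (.mj 8 10, 2), (.hz 23 63, 10412), (.hz 18 639, 3431)]))
(.lp [[8], [0, 2, 4, 6, 9], [1, 3, 5, 7, 10]] [(.mj 0 1, 81), (.mj 6 7, 1), (.mj 7 8, 2), (.hz 22 63, 1383), (.hz 19 319, 888)]))
(.lp [[8], [0, 2, 4, 6, 9], [1, 3, 5, 7, 10]] [(.mj 3 4, 67), (.mj 7 8, 9), (.hz 21 47, 4377), (.hz 21 63, 4794), (.hz 19 319, 3776)]))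
(.haz 8 1279 3 50
(.haz 6 319 9 25
(.haz 10 255 7 50
(.ref 0)
(.lp [[8], [0, 2, 4, 6, 9], [1, 3, 5, 7, 10]] [(.mj 3 4, 325), (.mj 6 7, 29), (.mj 9 8, 15), (.hz 23 175, 7248), (.hz 23 191, 9853), (.hz 22 319, 20526), (.hz 23 255, 4164), (.hz 22 447, 6756), (.hz 21 1279, 17565)]))
(.lp [[8], [0, 2, 4, 6, 9], [1, 3, 5, 7, 10]] [(.mj 0 1, 54), (.mj 9 8, 1), (.hz 22 63, 1446), (.hz 19 319, 403), (.hz 18 319, 925)]))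
(.cut 8 [(0, 1), (1, 1), (2, 1), (3, 1), (5, 1), (7, 1), (11, 1), (21, 1), (15, 1), (23, 1), (31, 1), (47, 1), (87, 1), (63, 1), (95, 1), (175, 1), (127, 1), (191, 1), (1199, 1), (255, 1)]
(.lp [[8], [0, 2, 4, 6, 9], [1, 3, 5, 7, 10]] [(.mj 3 4, 97649), (.mj 6 7, 35445), (.mj 7 9, 5244), (.hz 21 63, 2982344), (.hz 21 127, 1769691), (.hz 18 319, 33942621), (.hz 20 1199, 4534681), (.rw 9, 5)])))
(.haz 9 383 11 50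
(.lp [[8], [0, 2, 4, 6, 9], [1, 3, 5, 7, 10]] [(.mj 6 7, 100), (.mj 10 8, 25), (.mj 10 9, 51), (.hz 18 319, 325611), (.hz 18 383, 25265), (.hz 21 383, 54183), (.hz 18 639, 177319), (.hz 18 895, 988652)])
(.lp [[8], [0, 2, 4, 6, 9], [1, 3, 5, 7, 10]] [(.mj 6 7, 77), (.mj 10 8, 35), (.hz 21 127, 31441), (.hz 18 319, 373088), (.hz 18 383, 87557)]))
.fin))
(.haz 8 191 4 25
(.haz 8 639 1 5
(.haz 7 127 3 10
(.haz 8 191 1 5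
(.haz 8 191 11 50
(.haz 8 191 6 25
(.haz 8 127 6 25
(.ask 319
(.haz 7 319 7 25
(.mark 383 [7, 9, 10]
(.lp [[7], [0, 2, 4, 6, 9], [1, 3, 5, 8, 10]] [(.mj 3 4, 72), (.mj 6 7, 18), (.mj 7 8, 5), (.hz 26 191, 223), (.hz 26 255, 3297), (.hz 27 639, 3297), (.hz 28 1343, 9646)]))
(.mark 319 [6, 7, 10]
(.lp [[7], [0, 2, 4, 6, 9], [1, 3, 5, 8, 10]] [(.mj 3 4, 15), (.mj 7 8, 4), (.hz 28 63, 3160), (.hz 26 255, 1471), (.hz 27 639, 3885), (.hz 19 1343, 801), (.hz 18 1343, 946)])))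
(.lp [[8], [1, 3, 5, 7], [0, 2, 4, 6, 9]] [(.mj 3 4, 121), (.mj 6 7, 26), (.mj 7 8, 7), (.hz 26 191, 4656)]))
(.lp [[8], [1, 3, 5, 7], [0, 2, 4, 6, 9]] [(.mj 3 4, 39), (.mj 6 7, 8), (.hz 27 63, 2428), (.hz 26 191, 2798)]))
(.lp [[8], [1, 3, 5, 7], [0, 2, 4, 6, 9]] [(.mj 3 4, 248), (.mj 6 7, 52), (.hz 26 63, 15595), (.hz 25 191, 9097)]))
(.lp [[8], [1, 3, 5, 7], [0, 2, 4, 6, 9]] [(.mj 3 4, 61), (.mj 6 7, 13), (.hz 25 63, 1910), (.hz 24 191, 22728)]))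
(.lp [[8], [1, 3, 5, 7], [0, 2, 4, 6, 9]] [(.mj 3 4, 51), (.mj 6 7, 11), (.hz 24 63, 15559), (.hz 21 191, 3829)]))
(.lp [[8], [1, 3, 5, 7], [0, 2, 4, 6, 9]] [(.mj 3 4, 84), (.mj 7 8, 14), (.hz 23 63, 28266), (.hz 23 127, 4743), (.hz 19 319, 4743), (.hz 22 639, 47427)]))
(.lp [[8], [1, 3, 5, 7], [0, 2, 4, 6, 9]] [(.mj 3 4, 51), (.mj 6 7, 11), (.hz 22 63, 15559), (.hz 21 191, 3829)]))
(.lp [[8], [1, 3, 5, 7], [0, 2, 4, 6, 9]] [(.mj 3 4, 90), (.mj 6 7, 22), (.hz 21 63, 3785), (.hz 18 319, 37431)])))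
(.lp [[8], [1, 3, 5, 7], [0, 2, 4, 6, 9]] [(.mj 6 7, 70), (.hz 20 47, 37703), (.hz 10 175, 20308)]))
(.lp [[8], [1, 3, 5, 7], [0, 2, 4, 6, 9]] [(.mj 0 1, 51), (.mj 6 8, 1), (.hz 19 63, 681), (.hz 18 319, 1502)]))

theorem run228 : run P3488 (leaf3 218 625) (cutRow P3488) [s227] t228 s228 = true := by
  decide +kernel

theorem bad228 : Bad P3488 s228 :=
  run_sound (leaf3_sound P3488 rfl rfl) (cutRow_sound P3488) (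
    List.forall_mem_cons.2 ⟨bad227, fun _ h => absurd h List.not_mem_nil⟩) t228 s228 run228

/-- the state above piece 222 of the tree -/
def s222 : St := ⟨[0, 0, 1, 3, 5, 15, 23, 47, 47, 127, 255], [255, 191, 175, 127, 95, 87, 63, 31, 23, 21, 15, 11, 7, 5, 3, 2, 1, 0], [0, 1, 2, 3, 4, 5, 6, 7, 9],
  [(5, 6), (4, 5)],
  [⟨true, 2, 3, 3, 10⟩, ⟨true, 1, 5, 2, 5⟩, ⟨true, 2, 3, 23, 50⟩, ⟨true, 1, 5, 12, 25⟩, ⟨true, 1, 21, 27, 50⟩, ⟨true, 4, 15, 9, 40⟩, ⟨true, 3, 23, 11, 20⟩, ⟨true, 4, 47, 7, 20⟩, ⟨true, 4, 47, 17, 40⟩, ⟨true, 4, 47, 9, 20⟩, ⟨true, 4, 47, 19, 40⟩, ⟨true, 5, 95, 1, 5⟩, ⟨true, 5, 95, 3, 10⟩, ⟨true, 5, 31, 3, 10⟩, ⟨true, 5, 95, 11, 25⟩, ⟨true, 6, 63, 3, 20⟩, ⟨true, 8, 255, 1, 50⟩, ⟨true, 6, 319, 13, 40⟩, ⟨true, 6, 191, 13, 40⟩, ⟨true, 7, 383, 3, 40⟩, ⟨true, 8, 191, 1, 20⟩, ⟨true, 6, 319, 17, 40⟩, ⟨true,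 6, 319, 19, 40⟩, ⟨true, 7, 639, 7, 40⟩, ⟨true, 7, 319, 7, 40⟩, ⟨true, 8, 255, 3, 40⟩],
  [.spn 0 0 651200, .spn 1 1 302400, .spn 3 2 302400, .spn 7 3 302400, .spn 15 4 302400, .spn 31 5 302400, .spn 63 6 140426, .spn 127 7 140426, .spn 255 9 140426]⟩

/-- piece 222 of the tree -/
noncomputable def t222 : WN.Tree :=
(.haz 9 1279 11 40
(.ask 639
(.mark 767 [8, 10, 11]
(.spn
(.haz 10 2815 1 5
(.haz 10 2815 1 4
(.haz 9 255 2 5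
(.haz 8 1791 3 20
(.ask 2687
(.mark 2815 [8, 10, 12]
(.lp [[8], [1, 3, 5, 7, 10], [0, 2, 4, 6, 9, 11, 12]] [(.mj 7 9, 26), (.mj 8 10, 21), (.mj 8 11, 1), (.mj 9 8, 26), (.hz 25 1279, 18267), (.hz 29 1279, 41828), (.hz 25 2815, 6651), (.hz 28 2815, 211879), (.hz 25 6911, 18630), (.hz 28 6911, 408743)]))
(.ask 2815
(.mark 2815 [8, 10, 12]
(.lp [[8], [1, 3, 5, 7, 10], [0, 2, 4, 6, 9, 11, 12]] [(.mj 3 4, 318), (.mj 7 9, 75), (.mj 8 10, 142), (.mj 8 11, 42), (.mj 9 8, 237), (.hz 10 303, 7735), (.hz 10 431, 7735), (.hz 25 1279, 257894), (.hz 29 1279, 67962), (.hz 28 2815, 2451050), (.hz 28 6911, 2224068)]))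
(.lp [[8], [1, 3, 5, 7, 10], [0, 2, 4, 6, 9, 11]] [(.mj 7 9, 5), (.mj 8 10, 4), (.mj 9 8, 5), (.hz 25 1279, 3788), (.hz 29 1279, 8674)])))
(.lp [[8], [1, 3, 5, 7, 10], [0, 2, 4, 6, 9, 11]] [(.mj 3 4, 6728), (.mj 8 10, 1107), (.mj 8 11, 403), (.rw 9, 1), (.hz 30 47, 515087), (.hz 30 63, 543703), (.hz 30 175, 605984), (.hz 30 191, 1352573), (.hz 30 255, 1591262), (.hz 30 767, 6226677), (.hz 25 2815, 170108), (.hz 28 2815, 24793697)]))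
(.lp [[8], [1, 3, 5, 7, 10], [0, 2, 4, 6, 9, 11]] [(.mj 3 4, 57), (.mj 8 10, 41), (.mj 9 8, 53), (.hz 29 127, 155455), (.hz 29 255, 200147), (.hz 25 1279, 48184), (.hz 26 1279, 30426), (.hz 25 2815, 6488), (.hz 28 2815, 644004)]))
(.lp [[8], [1, 3, 5, 7, 10], [0, 2, 4, 6, 9, 11]] [(.mj 3 4, 7), (.mj 7 9, 10), (.mj 8 11, 4), (.mj 9 8, 10), (.hz 10 303, 168), (.hz 10 431, 168), (.hz 28 255, 75913), (.hz 28 767, 94626), (.hz 25 1279, 7229), (.hz 25 2815, 12138), (.hz 27 2815, 57795)]))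
(.lp [[8], [1, 3, 5, 7, 10], [0, 2, 4, 6, 9, 11]] [(.mj 3 4, 8), (.mj 7 9, 15), (.mj 8 11, 7), (.mj 9 8, 15), (.hz 10 303, 190), (.hz 10 431, 190), (.hz 27 255, 85749), (.hz 27 767, 103565), (.hz 25 1279, 10483), (.hz 25 2815, 16936)]))
(.haz 8 255 1 10
(.haz 10 2815 2 5
(.ask 1279
(.mark 1791 [8, 11, 12]
(.spn
(.ask 2687
(.mark 3839 [8, 12, 13]
(.lp [[8], [1, 3, 5, 7, 10, 12], [0, 2, 4, 6, 9, 11, 13]] [(.mj 3 4, 2344), (.mj 8 12, 55), (.mj 9 10, 299), (.mj 10 8, 784), (.rw 10, 1), (.hz 10 303, 57057), (.hz 10 431, 57057), (.hz 27 2815, 15555338), (.hz 27 5375, 5832584), (.hz 23 10879, 214160), (.hz 27 11007, 12624540)]))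
(.lp [[8], [0, 2, 4, 6, 9, 11], [1, 3, 5, 7, 10, 12]] [(.mj 3 4, 2347), (.mj 9 10, 309), (.mj 10 8, 738), (.rw 10, 1), (.hz 10 303, 57126), (.hz 10 431, 57126), (.hz 27 2815, 16414277), (.hz 27 5375, 6121563)]))
(.lp [[8], [0, 2, 4, 6, 9, 11], [1, 3, 5, 7, 10, 12]] [(.mj 3 4, 8), (.mj 11 8, 2), (.hz 10 303, 497), (.hz 22 319, 501), (.hz 10 431, 23), (.hz 27 255, 5068), (.hz 27 767, 12822), (.hz 27 1279, 4797), (.hz 27 1791, 14207), (.hz 27 2815, 4525), (.hz 27 5375, 5513), (.hz 26 5375, 480), (.hz 27 5887, 19777)])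
(.lp [[8], [0, 2, 4, 6, 9, 11], [1, 3, 5, 7, 10, 12]] [(.mj 3 4, 54), (.mj 9 10, 3), (.mj 12 8, 13), (.hz 10 303, 3963), (.hz 22 319, 5239), (.hz 27 255, 21470), (.hz 27 767, 68608), (.hz 27 1279, 63025), (.hz 23 2687, 1249), (.hz 27 1791, 94400), (.hz 27 2815, 126273), (.hz 28 2815, 3572)])
.fin))
(.ask 1791
(.mark 1791 [8, 11, 12]
(.spn
(.haz 12 3839 13 40
(.ask 2687
(.mark 3839 [8, 12, 13]
(.lp [[8], [1, 3, 5, 7, 10, 12], [0, 2, 4, 6, 9, 11, 13]] [(.mj 3 4, 416), (.mj 8 12, 42), (.mj 10 8, 103), (.hz 10 303, 30519), (.hz 22 319, 40347), (.hz 27 2815, 1211241), (.hz 28 2815, 37790), (.hz 23 10879, 26187), (.hz 29 3839, 69762), (.hz 27 11007, 1593911), (.hz 29 12031, 226538)]))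
(.lp [[8], [0, 2, 4, 6, 9, 11], [1, 3, 5, 7, 10, 12]] [(.mj 3 4, 6471), (.mj 8 11, 427), (.mj 8 12, 1407), (.mj 10 8, 2842), (.rw 10, 1), (.hz 10 303, 157529), (.hz 10 431, 157529), (.hz 27 2815, 49027137), (.hz 29 3839, 5607903)]))
(.lp [[8], [0, 2, 4, 6, 9, 11], [1, 3, 5, 7, 10, 12]] [(.mj 3 4, 4), (.mj 8 11, 3), (.mj 10 8, 4), (.hz 29 1791, 6940)]))
(.lp [[8], [0, 2, 4, 6, 9, 11], [1, 3, 5, 7, 10, 12]] [(.mj 3 4, 16), (.mj 11 8, 4), (.hz 10 303, 984), (.hz 22 319, 963), (.hz 10 431, 59), (.hz 27 255, 10755), (.hz 27 767, 26725), (.hz 27 1279, 8844), (.hz 27 1791, 29028), (.hz 27 2815, 9720), (.hz 27 5887, 2764)])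
(.lp [[8], [0, 2, 4, 6, 9, 11], [1, 3, 5, 7, 10, 12]] [(.mj 3 4, 8), (.mj 12 8, 2), (.hz 10 303, 477), (.hz 22 319, 449), (.hz 10 431, 37), (.hz 27 255, 5660), (.hz 27 767, 13782), (.hz 27 1279, 4539), (.hz 27 1791, 14861), (.hz 27 2815, 2809)])
.fin))
(.lp [[8], [1, 3, 5, 7, 10], [0, 2, 4, 6, 9, 11]] [(.mj 3 4, 5), (.mj 10 8, 3), (.mj 10 11, 2), (.hz 10 303, 111), (.hz 10 431, 111), (.hz 27 767, 2948), (.hz 27 2815, 92336)])))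
(.lp [[8], [1, 3, 5, 7, 10], [0, 2, 4, 6, 9, 11]] [(.mj 3 4, 12), (.mj 10 8, 7), (.mj 10 11, 5), (.hz 10 303, 304), (.hz 10 431, 304), (.hz 27 255, 5697), (.hz 28 255, 42846), (.hz 28 767, 90894), (.hz 27 2815, 188861)]))
(.cut 8 [(0, 1), (1, 1), (2, 1), (3, 1), (5, 1), (7, 1), (11, 1), (21, 1), (15, 1), (23, 1), (31, 1), (47, 1), (87, 1), (63, 1), (95, 1), (175, 1), (127, 1), (191, 1), (255, 1), (639, 1), (767, 1)]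
(.lp [[8], [1, 3, 5, 7, 10], [0, 2, 4, 6, 9, 11]] [(.mj 3 4, 43723), (.mj 9 10, 2211), (.hz 27 47, 5495313), (.hz 27 63, 982240), (.hz 27 175, 6105904), (.hz 27 191, 10745550), (.hz 22 319, 1359396), (.hz 27 255, 5897742), (.rw 10, 2)])))
(.cut 8 [(0, 1), (1, 1), (2, 1), (3, 1), (5, 1), (7, 1), (11, 1), (21, 1), (15, 1), (23, 1), (31, 1), (47, 1), (87, 1), (63, 1), (95, 1), (175, 1), (127, 1), (191, 1), (255, 1)]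
(.lp [[8], [1, 3, 5, 7, 10], [0, 2, 4, 6, 9, 11]] [(.mj 3 4, 748340), (.mj 11 8, 117810), (.mj 11 10, 23826), (.hz 10 303, 37377042), (.hz 22 319, 56712210), (.hz 10 431, 22552734), (.hz 22 447, 62880182), (.hz 25 1279, 17203235), (.hz 26 1279, 36806885), (.hz 25 1791, 325525951), (.hz 25 2815, 13752885), (.rw 10, 104)]))
.fin))
(.ref 0))
(.lp [[8], [0, 2, 4, 6, 9], [1, 3, 5, 7, 10]] [(.mj 9 8, 1), (.mj 9 10, 1), (.hz 26 127, 429), (.hz 26 255, 850), (.hz 25 1279, 2635)]))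

theorem run222 : run P3488 (leaf3 218 625) (cutRow P3488) [s221] t222 s222 = true := by
  decide +kernel

theorem bad222 : Bad P3488 s222 :=
  run_sound (leaf3_sound P3488 rfl rfl) (cutRow_sound P3488) (
    List.forall_mem_cons.2 ⟨bad221, fun _ h => absurd h List.not_mem_nil⟩) t222 s222 run222

/-- the state above piece 212 of the tree -/
def s212 : St := ⟨[0, 0, 1, 3, 5, 15, 23, 47, 47, 95, 175], [607, 255, 127, 87, 63, 31, 23, 21, 15, 11, 7, 5, 3, 2, 1, 0], [0, 1, 2, 3, 4, 5, 6, 7, 9],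
  [(5, 6), (4, 5)],
  [⟨true, 2, 3, 3, 10⟩, ⟨true, 1, 5, 2, 5⟩, ⟨true, 2, 3, 23, 50⟩, ⟨true, 1, 5, 12, 25⟩, ⟨true, 1, 21, 27, 50⟩, ⟨true, 4, 15, 9, 40⟩, ⟨true, 3, 23, 11, 20⟩, ⟨true, 4, 47, 7, 20⟩, ⟨true, 4, 47, 17, 40⟩, ⟨true, 4, 47, 9, 20⟩, ⟨true, 4, 47, 19, 40⟩, ⟨true, 5, 95, 1, 5⟩, ⟨true, 5, 95, 3, 10⟩, ⟨true, 5, 31, 3, 10⟩, ⟨true, 5, 95, 11, 25⟩, ⟨true, 6, 63, 3, 20⟩, ⟨true, 8, 255, 1, 50⟩, ⟨true, 6, 319, 13, 40⟩, ⟨true, 7, 639, 9, 50⟩, ⟨true, 7, 639, 13, 50⟩, ⟨true, 7, 319, 1, 5⟩, ⟨true, 6, 1215, 8, 25⟩, ⟨true, 8, 1215, 3, 50⟩],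
  [.spn 0 0 651200, .spn 1 1 302400, .spn 3 2 302400, .spn 7 3 302400, .spn 15 4 302400, .spn 31 5 302400, .spn 63 6 140426, .spn 127 7 140426, .spn 255 9 140426]⟩

/-- piece 212 of the tree -/
noncomputable def t212 : WN.Tree :=
(.haz 9 383 6 25
(.haz 6 319 21 50
(.haz 8 639 1 10
(.haz 10 767 2 25
(.ask 639
(.mark 767 [8, 10, 11]
(.spn
(.haz 10 767 3 10
(.lp [[8], [1, 3, 5, 7, 10], [0, 2, 4, 6, 9, 11]] [(.mj 7 9, 3889), (.mj 8 10, 4296), (.mj 9 8, 4296), (.rw 9, 1), (.hz 27 767, 12940533), (.hz 25 2687, 10164516), (.hz 27 1023, 26579103), (.hz 27 2815, 33827950)])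
(.ask 303
(.mark 1023 [10, 11, 12]
(.lp [[8, 12], [1, 3, 5, 7, 10], [0, 2, 4, 6, 9, 11]] [(.mj 3 4, 1117), (.mj 6 7, 3989), (.mj 7 9, 5734), (.mj 9 8, 2288), (.rw 9, 4), (.hz 27 175, 94358), (.hz 10 4399, 314510), (.hz 27 255, 8927903), (.hz 24 4415, 96921), (.hz 20 4415, 30459730), (.hz 27 767, 5278869), (.hz 23 4479, 8108412), (.hz 25 2687, 461732)]))
(.ask 319
(.mark 1023 [10, 11, 12]
(.lp [[8, 12], [1, 3, 5, 7, 10], [0, 2, 4, 6, 9, 11]] [(.mj 3 4, 1666), (.mj 6 7, 2073), (.mj 7 9, 2697), (.mj 9 8, 1203), (.rw 9, 2), (.hz 27 175, 182731), (.hz 27 191, 177754), (.hz 27 255, 4453518), (.hz 20 4415, 11026566), (.hz 27 767, 2619717), (.hz 23 4479, 3353382)]))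
(.ask 383
(.mark 1023 [10, 11, 12]
(.lp [[8, 12], [1, 3, 5, 7, 10], [0, 2, 4, 6, 9, 11]] [(.mj 3 4, 10631), (.mj 6 7, 2229), (.mj 7 9, 776), (.mj 9 8, 1501), (.rw 9, 1), (.hz 27 175, 1328941), (.hz 27 191, 1822836), (.hz 27 255, 3763941), (.hz 10 1455, 448538), (.hz 27 767, 2214083), (.hz 23 4479, 35872)]))
(.lp [[8], [1, 3, 5, 7, 10], [0, 2, 4, 6, 9, 11]] [(.mj 3 4, 117), (.mj 6 7, 52), (.mj 7 9, 18), (.mj 9 8, 13), (.hz 10 431, 1674), (.hz 10 1199, 2947), (.hz 27 255, 26565), (.hz 22 1215, 12604), (.hz 27 767, 19954), (.hz 22 1279, 11222), (.hz 25 2687, 39909)])))))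
(.haz 7 319 3 10
(.ask 303
(.ask 1199
(.mark 2047 [11, 12, 13]
(.lp [[8, 12], [0, 2, 4, 6, 9, 11], [1, 3, 5, 7, 10, 13]] [(.mj 3 4, 133), (.mj 6 7, 64), (.mj 7 9, 8), (.mj 10 8, 18), (.hz 27 319, 103778), (.hz 10 4399, 9887), (.hz 24 4415, 4290), (.hz 27 4415, 125326), (.hz 10 9391, 2283), (.hz 25 767, 172372), (.hz 27 4479, 33573), (.hz 23 4479, 33832), (.hz 25 2687, 94769), (.hz 10 9647, 914), (.hz 25 1791, 110830), (.hz 25 2815, 78461)]))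
(.mark 511 [9, 10, 12]
(.lp [[8, 12], [1, 3, 5, 7, 10], [0, 2, 4, 6, 9, 11]] [(.mj 3 4, 345), (.mj 6 7, 136), (.mj 10 8, 40), (.hz 10 303, 9649), (.hz 24 319, 931), (.hz 27 319, 243511), (.hz 10 4399, 13684), (.hz 24 4415, 4439), (.hz 27 4415, 243271), (.hz 25 767, 338137), (.hz 27 4479, 67637), (.hz 23 4479, 25150), (.hz 25 2687, 236531), (.hz 25 1791, 67637), (.hz 25 2815, 67637), (.hz 27 2943, 246466)])))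
(.ask 319
(.mark 511 [9, 10, 12]
(.lp [[8, 12], [1, 3, 5, 7, 10], [0, 2, 4, 6, 9, 11]] [(.mj 3 4, 46), (.mj 6 7, 21), (.mj 7 9, 2), (.mj 10 8, 4), (.hz 27 319, 33029), (.hz 10 1199, 735), (.hz 27 4415, 26080), (.hz 10 1455, 253), (.hz 25 767, 24006), (.hz 23 4479, 4782), (.hz 19 2687, 292), (.hz 25 2687, 14819), (.hz 25 1791, 1321), (.hz 25 2815, 29147)]))
(.lp [[8], [1, 3, 5, 7, 10], [0, 2, 4, 6, 9, 11]] [(.mj 3 4, 158), (.mj 6 7, 62), (.mj 10 8, 13), (.hz 27 319, 76585), (.hz 10 431, 2278), (.hz 10 1199, 3224), (.hz 27 383, 34041), (.hz 23 383, 10385), (.hz 25 767, 66669), (.hz 25 2687, 57257), (.hz 25 1791, 4430), (.hz 25 2815, 14583), (.hz 27 2943, 85232)])))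
(.lp [[8], [1, 3, 5, 7, 10], [0, 2, 4, 6, 9, 11]] [(.mj 3 4, 4), (.mj 7 9, 2), (.mj 10 8, 4), (.hz 27 63, 11774), (.hz 24 319, 290), (.hz 20 319, 18609), (.hz 10 1199, 617), (.hz 20 383, 17922), (.hz 25 639, 14449), (.hz 25 767, 19342), (.hz 25 2687, 9385), (.hz 25 1791, 2921), (.hz 25 2815, 8365)]))
(.maj 8 10
(.cut 8 [(0, 1), (1, 1), (2, 1), (3, 1), (5, 1), (7, 1), (11, 1), (21, 1), (15, 1), (23, 1), (31, 1), (47, 1), (87, 1), (63, 1), (95, 1), (175, 1), (127, 1), (191, 1), (607, 1), (255, 1), (639, 1), (767, 1)]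
(.lp [[8], [1, 3, 5, 7, 10], [0, 2, 4, 6, 9, 11]] [(.mj 4 5, 20), (.mj 6 7, 59), (.mj 7 9, 903), (.mj 11 8, 582), (.mj 11 10, 438), (.hz 20 319, 114930), (.hz 10 1199, 13895), (.hz 20 383, 280939), (.hz 22 1215, 557969), (.hz 26 767, 639056), (.hz 22 1279, 1276047), (.hz 26 1023, 9303674), (.rw 10, 1)]))
(.lp [[8], [1, 3, 5, 7, 10], [0, 2, 4, 6, 9, 11]] [(.mj 7 9, 36), (.mj 10 8, 36), (.mj 11 10, 31), (.hz 10 1199, 910), (.hz 25 639, 212941), (.hz 22 1215, 34024), (.hz 25 767, 131773), (.hz 26 767, 40818), (.hz 22 1279, 53007), (.hz 25 2687, 122703), (.hz 24 1471, 28578), (.hz 23 1535, 236915), (.hz 25 2815, 282751)]))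
.fin))
(.ref 0))
(.lp [[8], [0, 2, 4, 6, 9], [1, 3, 5, 7, 10]] [(.mj 3 4, 198), (.mj 6 7, 8), (.mj 9 8, 34), (.hz 26 175, 10343), (.hz 10 303, 8218), (.hz 26 191, 17046), (.hz 24 319, 12873), (.hz 10 431, 6719), (.hz 26 255, 13236), (.hz 25 639, 42021), (.hz 24 447, 11162), (.hz 22 1215, 12335), (.hz 22 1279, 29774)]))
(.cut 8 [(0, 1), (1, 1), (2, 1), (3, 1), (5, 1), (7, 1), (11, 1), (21, 1), (15, 1), (23, 1), (31, 1), (47, 1), (87, 1), (63, 1), (95, 1), (175, 1), (127, 1), (191, 1), (607, 1), (255, 1)]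
(.lp [[8], [0, 2, 4, 6, 9], [1, 3, 5, 7, 10]] [(.mj 3 4, 8320), (.mj 6 7, 3041), (.mj 7 9, 24), (.hz 25 47, 1345412), (.hz 25 63, 1605620), (.hz 25 127, 660046), (.hz 10 1199, 207962), (.hz 25 639, 4126482), (.hz 22 1215, 572675), (.rw 9, 1)])))
(.lp [[8], [0, 2, 4, 6, 9], [1, 3, 5, 7, 10]] [(.mj 4 5, 224), (.mj 9 8, 13), (.hz 24 63, 47411), (.hz 17 319, 24626), (.hz 20 319, 107115), (.hz 20 383, 92965), (.hz 21 1215, 5121), (.hz 22 1215, 32752), (.hz 22 1279, 11281)]))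
(.cut 8 [(0, 1), (1, 1), (2, 1), (3, 1), (5, 1), (7, 1), (11, 1), (21, 1), (15, 1), (23, 1), (31, 1), (47, 1), (87, 1), (63, 1), (95, 1), (175, 1), (127, 1), (191, 1), (607, 1), (1199, 1), (255, 1), (1215, 1)]
(.lp [[8], [0, 2, 4, 6, 9], [1, 3, 5, 7, 10]] [(.mj 0 1, 30300), (.mj 9 8, 3072), (.mj 9 10, 2045), (.hz 23 127, 8530814), (.hz 20 319, 12924870), (.hz 22 1215, 3908636), (.hz 22 1279, 4617933), (.rw 9, 1)])))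

theorem run212 : run P3488 (leaf3 218 625) (cutRow P3488) [s211] t212 s212 = true := by
  decide +kernel

theorem bad212 : Bad P3488 s212 :=
  run_sound (leaf3_sound P3488 rfl rfl) (cutRow_sound P3488) (
    List.forall_mem_cons.2 ⟨bad211, fun _ h => absurd h List.not_mem_nil⟩) t212 s212 run212

/-- the state above piece 247 of the tree -/
def s247 : St := ⟨[0, 0, 1, 3, 5, 15, 31, 31, 63, 127], [127, 95, 63, 47, 31, 23, 21, 15, 11, 7, 5, 3, 2, 1, 0], [0, 1, 2, 3, 4, 5, 6, 8],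
  [(4, 5)],
  [⟨true, 2, 3, 3, 10⟩, ⟨true, 1, 5, 2, 5⟩, ⟨true, 2, 3, 23, 50⟩, ⟨true, 1, 5, 12, 25⟩, ⟨true, 1, 21, 27, 50⟩, ⟨true, 4, 15, 9, 40⟩, ⟨true, 3, 23, 11, 20⟩, ⟨true, 4, 47, 7, 20⟩, ⟨true, 4, 47, 17, 40⟩, ⟨true, 4, 47, 9, 20⟩, ⟨true, 4, 47, 19, 40⟩, ⟨true, 5, 31, 3, 10⟩, ⟨true, 4, 47, 3, 5⟩, ⟨true, 4, 47, 5, 8⟩, ⟨true, 6, 159, 1, 10⟩, ⟨true, 6, 319, 1, 8⟩, ⟨true, 6, 319, 1, 5⟩, ⟨true, 5, 159, 17, 40⟩, ⟨true, 7, 895, 1, 20⟩, ⟨true, 5, 159, 19, 40⟩, ⟨true, 6, 191, 7, 20⟩, ⟨true, 5, 223, 13, 20⟩, ⟨false, 7, 127, 1, 8⟩],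
  [.spn 0 0 651200, .spn 1 1 302400, .spn 3 2 302400, .spn 7 3 302400, .spn 15 4 302400, .spn 31 5 140426, .spn 63 6 140426, .spn 127 8 140426]⟩

/-- piece 247 of the tree -/
noncomputable def t247 : WN.Tree :=
(.haz 7 895 2 25
(.ask 319
(.mark 383 [7, 9, 10]
(.spn
(.ask 159
(.mark 511 [9, 10, 11]
(.lp [[7, 11], [0, 2, 4, 6, 9], [1, 3, 5, 8, 10]] [(.mj 0 1, 280027), (.mj 7 9, 518), (.mj 8 9, 1148), (.rw 8, 1), (.hz 22 31, 3864006), (.hz 22 95, 4494070), (.hz 22 127, 246259), (.hz 19 2207, 14380)]))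
(.cut 9 [(0, 1), (1, 1), (2, 1), (3, 1), (5, 1), (7, 1), (11, 1), (21, 1), (15, 1), (23, 1), (31, 1), (47, 1), (63, 1), (95, 1), (159, 1), (127, 1), (191, 1), (223, 1), (319, 1), (447, 1), (1343, 1)]
(.lp [[7], [0, 2, 4, 6, 9], [1, 3, 5, 8, 10]] [(.mj 0 1, 1935938), (.mj 7 9, 7031), (.mj 8 9, 5131), (.rw 8, 1), (.hz 22 63, 18790622), (.hz 22 95, 59797430), (.hz 22 127, 11439575), (.rw 9, 2)])))
(.haz 9 383 11 25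
(.ask 639
(.mark 895 [7, 10, 11]
(.spn
(.ask 159
(.mark 1023 [10, 11, 12]
(.lp [[7, 12], [1, 3, 5, 8, 10], [0, 2, 4, 6, 9, 11]] [(.mj 0 1, 55105), (.mj 7 10, 728), (.mj 8 9, 2051), (.mj 9 7, 1609), (.rw 9, 4), (.hz 19 4255, 122075), (.hz 21 4319, 356834), (.hz 24 1407, 616780)]))
(.lp [[7], [1, 3, 5, 8, 10], [0, 2, 4, 6, 9, 11]] [(.mj 0 1, 177302), (.mj 8 9, 1216), (.mj 9 7, 731), (.rw 9, 1), (.hz 22 63, 42529), (.hz 22 95, 4162992), (.hz 22 127, 643318), (.hz 23 1919, 3003534), (.hz 23 2943, 2091900)]))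
(.cut 7 [(0, 1), (1, 1), (2, 1), (3, 1), (5, 1), (7, 1), (11, 1), (21, 1), (15, 1), (23, 1), (31, 1), (47, 1), (63, 1), (95, 1), (127, 1)]
(.cut 7 [(0, 1), (1, 1), (2, 1), (3, 1), (5, 1), (7, 1), (11, 1), (21, 1), (15, 1), (23, 1), (31, 1), (47, 1), (63, 1), (95, 1), (127, 1), (319, 1), (383, 1), (639, 1), (1343, 1), (895, 1), (1407, 1)]
(.cut 7 [(0, 1), (1, 1), (2, 1), (3, 1), (5, 1), (7, 1), (11, 1), (21, 1), (15, 1), (23, 1), (31, 1), (47, 1), (63, 1), (95, 1), (127, 1), (319, 1)]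
(.cut 7 [(0, 1), (1, 1), (2, 1), (3, 1), (5, 1), (7, 1), (11, 1), (21, 1), (15, 1), (23, 1), (31, 1), (47, 1), (63, 1), (95, 1), (127, 1), (319, 1), (383, 1), (1343, 1)]
(.lp [[7], [1, 3, 5, 8, 10], [0, 2, 4, 6, 9, 11]] [(.mj 0 1, 127637841), (.mj 8 9, 562725), (.mj 10 7, 1098812), (.hz 22 95, 322096827), (.hz 19 159, 382301842), (.hz 21 223, 385312092), (.hz 24 383, 284685285), (.hz 24 511, 730591641), (.hz 23 2943, 3198650641), (.rw 10, 1092), (.rw 11, 125), (.rw 12, 244), (.rw 13, 170)])))))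
(.cut 7 [(0, 1), (1, 1), (2, 1), (3, 1), (5, 1), (7, 1), (11, 1), (21, 1), (15, 1), (23, 1), (31, 1), (47, 1), (63, 1), (95, 1), (127, 1), (319, 1)]
(.lp [[7], [1, 3, 5, 8, 10], [0, 2, 4, 6, 9, 11]] [(.mj 0 1, 246967), (.mj 8 9, 1553), (.mj 11 7, 2590), (.hz 22 95, 623226), (.hz 19 159, 739717), (.hz 21 223, 745542), (.hz 24 511, 183642), (.hz 23 895, 5616126), (.hz 24 1407, 769883), (.hz 23 1919, 11704774), (.hz 23 2943, 2081234), (.rw 10, 2)]))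
.fin))
(.ask 895
(.mark 895 [7, 10, 11]
(.spn
(.haz 11 1919 17 50
(.lp [[7], [1, 3, 5, 8, 10], [0, 2, 4, 6, 9, 11]] [(.mj 0 1, 32262), (.mj 7 10, 20), (.mj 7 11, 142), (.mj 9 7, 82), (.hz 22 31, 263514), (.hz 22 95, 441186), (.hz 19 159, 51589), (.hz 22 127, 684446), (.hz 23 1919, 488263), (.hz 25 1919, 210956)])
(.lp [[7], [1, 3, 5, 8, 10], [0, 2, 4, 6, 9, 11]] [(.mj 0 1, 79), (.mj 7 10, 2), (.mj 9 7, 3), (.hz 25 895, 2062), (.hz 23 1919, 10979)]))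
(.lp [[7], [1, 3, 5, 8, 10], [0, 2, 4, 6, 9, 11]] [(.mj 0 1, 108), (.mj 10 7, 1), (.hz 22 95, 272), (.hz 19 159, 322), (.hz 21 223, 325), (.hz 23 895, 2812), (.hz 23 1919, 2025), (.hz 23 2943, 1774)])
(.ask 2943
(.mark 2943 [7, 10, 12]
(.spn
(.lp [[7], [1, 3, 5, 8, 10], [0, 2, 4, 6, 9, 11, 12]] [(.mj 11 7, 143), (.rw 10, 1)])
(.lp [[7], [1, 3, 5, 8, 10], [0, 2, 4, 6, 9, 11, 12]] [(.mj 0 1, 236722), (.rw 9, 1), (.rw 10, 3), (.hz 22 95, 597372), (.hz 19 159, 709030), (.hz 21 223, 714613), (.hz 23 895, 6184899), (.hz 23 1919, 14742695)])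
(.lp [[7], [1, 3, 5, 8, 10], [0, 2, 4, 6, 9, 11, 12]] [(.mj 0 1, 209), (.mj 12 7, 2), (.hz 19 159, 590), (.hz 21 223, 863), (.hz 23 895, 6082), (.hz 23 1919, 842), (.hz 23 2943, 2951)])
.fin))
(.lp [[7], [1, 3, 5, 8, 10], [0, 2, 4, 6, 9, 11]] [(.mj 11 10, 1), (.rw 9, 1)]))
.fin))
(.lp [[7], [0, 2, 4, 6, 9], [1, 3, 5, 8, 10]] [(.mj 0 1, 561), (.mj 8 9, 1), (.hz 22 31, 5120), (.hz 22 95, 8040), (.hz 19 159, 806), (.hz 22 127, 6038), (.hz 23 1919, 5099)])))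
(.lp [[7], [0, 2, 4, 6, 9], [1, 3, 5, 8, 10]] [(.mj 0 1, 212), (.hz 22 31, 1709), (.hz 22 95, 2886), (.hz 19 159, 344), (.hz 22 127, 2682), (.hz 24 127, 858), (.hz 24 383, 550)]))
(.cut 7 [(0, 1), (1, 1), (2, 1), (3, 1), (5, 1), (7, 1), (11, 1), (21, 1), (15, 1), (23, 1), (31, 1), (47, 1), (63, 1), (95, 1), (127, 1)]
(.cut 7 [(0, 1), (1, 1), (2, 1), (3, 1), (5, 1), (7, 1), (11, 1), (21, 1), (15, 1), (23, 1), (31, 1), (47, 1), (63, 1), (95, 1), (127, 1), (319, 1), (383, 1)]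
(.cut 9 [(0, 1), (1, 1), (2, 1), (3, 1), (5, 1), (7, 1), (11, 1), (21, 1), (15, 1), (23, 1), (31, 1), (47, 1), (63, 1), (95, 1), (159, 1), (127, 1), (191, 1), (223, 1), (319, 1), (383, 1), (447, 1), (1343, 1), (1471, 1)]
(.lp [[7], [0, 2, 4, 6, 9], [1, 3, 5, 8, 10]] [(.mj 0 1, 2532255), (.mj 10 9, 15253), (.hz 22 31, 39782098), (.hz 22 95, 46020422), (.hz 19 159, 204535), (.rw 9, 4), (.rw 10, 6), (.rw 11, 4)]))))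
.fin))
(.ref 0))
(.cut 7 [(0, 1), (1, 1), (2, 1), (3, 1), (5, 1), (7, 1), (11, 1), (21, 1), (15, 1), (23, 1), (31, 1), (47, 1), (63, 1), (95, 1), (127, 1)]
(.lp [[7], [1, 3, 5, 8], [0, 2, 4, 6, 9]] [(.mj 0 1, 148232), (.mj 8 9, 511), (.hz 23 31, 588483), (.hz 23 95, 639656), (.hz 23 383, 654361), (.rw 8, 1)])))

theorem run247 : run P3488 (leaf3 218 625) (cutRow P3488) [s246] t247 s247 = true := by
  decide +kernel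

theorem bad247 : Bad P3488 s247 :=
  run_sound (leaf3_sound P3488 rfl rfl) (cutRow_sound P3488) (
    List.forall_mem_cons.2 ⟨bad246, fun _ h => absurd h List.not_mem_nil⟩) t247 s247 run247

/-- the state above piece 257 of the tree -/
def s257 : St := ⟨[0, 0, 1, 3, 7, 7, 23], [39, 23, 7, 5, 3, 2, 1, 0], [0, 1, 2, 4, 5],
  [],
  [⟨true, 2, 3, 3, 10⟩, ⟨true, 1, 5, 2, 5⟩, ⟨true, 2, 3, 23, 50⟩, ⟨true, 1, 5, 12, 25⟩, ⟨true, 3, 55, 3, 50⟩],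
  [.spn 0 0 651200, .spn 1 1 302400, .spn 3 2 302400, .spn 7 4 424061, .spn 23 5 140426]⟩

/-- piece 257 of the tree -/
noncomputable def t257 : WN.Tree :=
(.haz 3 87 3 50
(.ask 55
(.mark 55 [3, 6, 7]
(.spn
(.haz 6 55 8 25
(.lp [[3], [1, 5, 7], [0, 2, 4, 6]] [(.mj 3 6, 6), (.mj 3 7, 1), (.mj 4 5, 4), (.mj 5 3, 6), (.hz 6 55, 391), (.hz 6 63, 411), (.hz 6 183, 991)])
(.haz 7 119 8 25
(.ask 87
(.mark 119 [3, 7, 8]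
(.lp [[3], [1, 5, 7], [0, 2, 4, 6, 8]] [(.mj 0 1, 26), (.mj 3 6, 3), (.mj 3 7, 21), (.mj 4 5, 23), (.mj 5 3, 30), (.hz 6 23, 2311), (.hz 7 119, 3024), (.hz 5 343, 2088), (.hz 7 375, 6133)]))
(.lp [[3], [1, 5, 7], [0, 2, 4, 6]] [(.mj 3 7, 4), (.mj 4 5, 5), (.mj 5 3, 5), (.hz 6 55, 734), (.hz 7 119, 964)]))
(.lp [[3], [1, 5, 7], [0, 2, 4, 6]] [(.mj 4 5, 1), (.mj 5 3, 1), (.hz 6 23, 109), (.hz 6 55, 223), (.hz 7 55, 223)])))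
(.ref 0)
(.ask 183
(.mark 183 [3, 6, 8]
(.spn
(.lp [[3], [1, 4, 6], [0, 2, 5, 7, 8]] [(.mj 4 5, 1907), (.rw 5, 1), (.rw 6, 3)])
(.lp [[3], [1, 4, 6], [0, 2, 5, 7, 8]] [(.mj 4 5, 68604), (.rw 5, 26), (.rw 6, 28), (.hz 4 55, 10035162), (.hz 4 119, 3377405)])
(.maj 3 6
(.cut 3 [(0, 1), (1, 1), (2, 1), (3, 1), (5, 1), (7, 1), (23, 1), (39, 1), (55, 1)]
(.lp [[3], [1, 4, 6], [0, 2, 5, 7, 8]] [(.mj 4 5, 16006), (.rw 6, 5), (.rw 7, 23)]))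
(.cut 3 [(0, 1), (1, 1), (2, 1), (3, 1), (5, 1), (7, 1), (23, 1), (39, 1), (55, 1)]
(.cut 6 [(0, 1), (1, 1), (2, 1), (3, 1), (5, 1), (7, 1), (23, 1), (39, 1), (55, 1)]
(.lp [[3], [1, 4, 6], [0, 2, 5, 7, 8]] [(.mj 4 5, 13941), (.mj 8 3, 2346), (.mj 8 6, 2346), (.rw 6, 4), (.hz 4 55, 2039224), (.hz 4 119, 967081), (.hz 4 247, 1260948), (.rw 7, 5), (.rw 8, 12)]))))
.fin))
(.lp [[3], [1, 5, 7], [0, 2, 4, 6]] [(.mj 4 5, 1), (.mj 7 6, 1), (.rw 5, 1)]))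
.fin))
(.spn
(.lp [[5], [1, 3], [0, 2, 4, 6]] [(.mj 3 6, 2), (.mj 5 3, 3)])
(.ask 87
(.mark 87 [3, 5, 7]
(.ask 119
(.mark 119 [3, 7, 8]
(.spn
(.haz 8 247 3 10
(.lp [[3], [1, 5, 8], [0, 2, 4, 6, 7]] [(.mj 3 7, 4), (.mj 3 8, 10), (.mj 5 6, 12), (.mj 6 3, 14), (.hz 5 215, 1204), (.hz 6 247, 9112)])
(.lp [[3], [1, 5, 8], [0, 2, 4, 6, 7]] [(.mj 3 7, 2), (.mj 5 6, 3), (.mj 6 3, 3), (.hz 6 119, 1700)]))
(.lp [[3], [1, 5, 8], [0, 2, 4, 6, 7]] [(.mj 5 6, 6), (.mj 7 3, 4), (.mj 7 8, 1), (.hz 5 87, 887), (.hz 4 119, 298), (.hz 5 215, 142), (.hz 4 375, 863)])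
(.ask 375
(.mark 375 [3, 7, 9]
(.spn
(.lp [[3], [1, 5, 8, 9], [0, 2, 4, 6, 7]] [(.mj 8 3, 149), (.rw 7, 1)])
(.lp [[3], [1, 5, 8, 9], [0, 2, 4, 6, 7]] [(.mj 5 6, 21), (.mj 7 3, 12), (.mj 7 9, 1), (.hz 5 87, 3061), (.hz 4 119, 1030), (.hz 5 215, 553), (.hz 4 247, 251), (.hz 4 375, 1096), (.hz 4 887, 2067)])
(.cut 3 [(0, 1), (1, 1), (2, 1), (3, 1), (5, 1), (7, 1), (23, 1), (39, 1), (55, 1), (87, 1), (119, 1)]
(.cut 7 [(0, 1), (1, 1), (2, 1), (3, 1), (5, 1), (7, 1), (11, 1), (15, 1), (23, 1), (39, 1), (31, 1), (47, 1), (55, 1), (63, 1)]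
(.lp [[3], [1, 5, 8, 9], [0, 2, 4, 6, 7]] [(.mj 5 6, 7244), (.mj 9 3, 16345), (.hz 4 247, 148450), (.rw 8, 58), (.rw 9, 1)])))
.fin))
(.lp [[3], [1, 5, 8], [0, 2, 4, 6, 7]] [(.mj 8 7, 43), (.rw 6, 1)]))
.fin))
(.lp [[5], [1, 3], [0, 2, 4, 6, 7]] [(.mj 5 6, 3), (.mj 6 3, 2), (.hz 5 87, 253), (.hz 5 215, 124)])))
(.ask 119
(.ask 119
(.mark 119 [3, 7, 8]
(.spn
(.haz 7 375 6 25
(.ask 375
(.mark 375 [3, 7, 9]
(.lp [[3], [1, 5, 7], [0, 2, 4, 6, 8, 9]] [(.mj 3 7, 150), (.mj 6 3, 210), (.mj 7 8, 70), (.hz 4 375, 32309), (.hz 6 375, 25600), (.hz 6 887, 33685)]))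
(.lp [[3], [1, 5, 8], [0, 2, 4, 6, 7]] [(.mj 3 7, 2), (.mj 6 3, 3)]))
(.lp [[3], [1, 5, 8], [0, 2, 4, 6, 7]] [(.mj 6 3, 3), (.mj 7 8, 2), (.hz 6 119, 576), (.hz 4 375, 1050)]))
(.ask 247
(.mark 247 [3, 8, 9]
(.spn
(.lp [[3], [1, 5, 8], [0, 2, 4, 6, 7, 9]] [(.mj 7 3, 149), (.rw 7, 1)])
(.maj 3 9
(.cut 3 [(0, 1), (1, 1), (2, 1), (3, 1), (5, 1), (7, 1), (23, 1), (39, 1), (55, 1), (87, 1), (119, 1), (247, 1)]
(.lp [[3], [1, 5, 8], [0, 2, 4, 6, 7, 9]] [(.mj 7 8, 184), (.mj 8 3, 308), (.hz 4 759, 172519), (.rw 8, 1)]))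
(.cut 3 [(0, 1), (1, 1), (2, 1), (3, 1), (5, 1), (7, 1), (23, 1), (39, 1), (55, 1), (87, 1), (119, 1), (247, 1)]
(.lp [[3], [1, 5, 8], [0, 2, 4, 6, 7, 9]] [(.mj 7 8, 151), (.mj 8 3, 214), (.mj 8 9, 76), (.mj 9 3, 321), (.rw 8, 2)])))
(.cut 3 [(0, 1), (1, 1), (2, 1), (3, 1), (5, 1), (7, 1), (23, 1), (39, 1), (55, 1), (87, 1), (119, 1), (247, 1)]
(.lp [[3], [1, 5, 8], [0, 2, 4, 6, 7, 9]] [(.mj 9 3, 4570), (.rw 8, 16)]))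
.fin))
(.lp [[3], [1, 5, 8], [0, 2, 4, 6, 7]] [(.mj 7 8, 895), (.rw 6, 1)]))
(.con 8 7)
.fin))
(.spn
(.lp [[5], [1, 3], [0, 2, 4, 6, 7]] [(.mj 3 7, 1), (.mj 6 3, 1)])
(.ask 247
(.maj 3 8
(.ask 247
(.mark 247 [3, 8, 9]
(.spn
(.lp [[3], [1, 5, 9], [0, 2, 4, 6, 7, 8]] [(.mj 7 3, 149), (.rw 7, 1)])
(.con 8 3)
(.con 9 8)
.fin))
(.lp [[5], [1, 3], [0, 2, 4, 6, 7, 8]] [(.mj 3 8, 1), (.mj 7 3, 1)]))
(.cut 3 [(0, 1), (1, 1), (2, 1), (3, 1), (5, 1), (7, 1)]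
(.cut 3 [(0, 1), (1, 1), (2, 1), (3, 1), (5, 1), (7, 1), (23, 1)]
(.cut 3 [(0, 1), (1, 1), (2, 1), (3, 1), (5, 1), (7, 1), (39, 1)]
(.cut 3 [(0, 1), (1, 1), (2, 1), (3, 1), (5, 1), (7, 1), (23, 1), (39, 1), (55, 1), (87, 1), (119, 1)]
(.lp [[5], [1, 3], [0, 2, 4, 6, 7, 8]] [(.mj 8 3, 6855), (.rw 7, 7), (.rw 8, 4), (.rw 9, 4), (.rw 10, 9)]))))))
(.lp [[5], [1, 3], [0, 2, 4, 6, 7]] [(.rw 6, 1)]))
.fin
.fin))
(.lp [[5], [1, 3], [0, 2, 4, 6]] [(.mj 6 3, 1)])))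
.fin
.fin))
(.cut 3 [(0, 1), (1, 1), (2, 1), (3, 1), (5, 1)]
(.lp [[5], [1, 3], [0, 2, 4, 6]] [(.hz 5 7, 488670), (.rw 5, 8)])))

theorem run257 : run P3488 (leaf3 218 625) (cutRow P3488) [s256] t257 s257 = true := by
  decide +kernel

theorem bad257 : Bad P3488 s257 :=
  run_sound (leaf3_sound P3488 rfl rfl) (cutRow_sound P3488) (
    List.forall_mem_cons.2 ⟨bad256, fun _ h => absurd h List.not_mem_nil⟩) t257 s257 run257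

end Pool.Agent.WN.Data
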