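import Pool.Agent.WN.CutRow
import Pool.Agent.WN.LeafRow
import Pool.Agent.Helper99.WN.ParDef
import Pool.Agent.WN.Data.D1
import Pool.Agent.WN.Data.D6
import Pool.Agent.WN.Data.D9
import Pool.Agent.WN.Data.D13
import Pool.Agent.WN.Data.D16
import Pool.Agent.WN.Data.D21
import Pool.Agent.WN.Data.D22
import Pool.Agent.WN.Data.D28
import Pool.Agent.WN.Data.D29
import Pool.Agent.WN.Data.D30
import Pool.Agent.WN.Data.D31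
import Pool.Agent.WN.Data.D32
import Pool.Agent.WN.Data.D33

/-!
# The search tree, part 35
-/

set_option autoImplicit false

namespace Pool.Agent.WN.Data

open Pool.Agent.W3 Pool.Agent.WN Pool.Agent.Helper99.WN

/-- the state above piece 260 of the tree -/
def s260 : St := ⟨[0, 0, 1, 3], [5, 3, 2, 1, 0], [0, 1, 2],
  [],
  [⟨true, 2, 3, 3, 10⟩, ⟨true, 1, 5, 2, 5⟩, ⟨true, 2, 3, 23, 50⟩, ⟨true, 1, 5, 12, 25⟩],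
  [.spn 0 0 651200, .spn 1 1 302400, .spn 3 2 302400]⟩

/-- piece 260 of the tree -/
noncomputable def t260 : WN.Tree :=
(.ask 7
(.ask 7
(.mark 7 [3, 4, 5]
(.spn
(.lp [[5], [1, 3], [0, 2, 4]] [(.mj 0 1, 15), (.mj 3 4, 1), (.mj 4 5, 1)])
(.haz 3 55 3 50
(.ask 23
(.mark 23 [3, 5, 6]
(.spn
(.lp [[5], [1, 3], [0, 2, 4, 6]] [(.mj 0 1, 333661), (.rw 4, 23)])
(.ask 39
(.mark 55 [3, 6, 7]
(.spn
(.haz 6 55 13 40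
(.lp [[3], [1, 5, 7], [0, 2, 4, 6]] [(.mj 3 6, 5335), (.mj 4 5, 5335), (.mj 5 3, 5335), (.rw 4, 1), (.rw 5, 2), (.hz 5 55, 256337), (.hz 5 63, 250084), (.hz 5 183, 750253)])
(.lp [[3], [1, 5, 7], [0, 2, 4, 6]] [(.mj 4 5, 2204), (.mj 5 3, 1381), (.rw 5, 1), (.hz 5 23, 81231), (.hz 5 55, 48496)]))
(.ask 87
(.mark 119 [3, 7, 8]
(.spn
(.haz 8 247 11 40
(.haz 3 183 1 10
(.haz 8 247 7 20
(.lp [[3], [1, 5, 7], [0, 2, 4, 6, 8]] [(.mj 3 7, 804), (.mj 3 8, 4235), (.mj 4 5, 7213), (.mj 5 6, 3782), (.mj 6 3, 8017), (.rw 6, 4), (.hz 6 183, 14694501), (.hz 7 247, 2683626), (.hz 4 375, 219372)])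
(.lp [[3], [1, 5, 7], [0, 2, 4, 6, 8]] [(.mj 3 7, 4), (.mj 4 5, 6), (.mj 5 6, 3), (.mj 6 3, 7), (.hz 7 87, 611), (.hz 7 119, 2017), (.hz 6 183, 14024), (.hz 5 247, 590)]))
(.lp [[3], [1, 5, 7], [0, 2, 4, 6, 8]] [(.mj 3 7, 218), (.mj 3 8, 663), (.mj 4 5, 628), (.rw 6, 1), (.hz 6 3, 61708), (.hz 6 7, 99419), (.hz 6 23, 248546), (.hz 6 55, 1426278), (.hz 4 183, 358113), (.hz 5 247, 227329)]))
(.lp [[3], [1, 5, 7], [0, 2, 4, 6, 8]] [(.mj 3 7, 5), (.mj 4 5, 7), (.mj 5 6, 3), (.mj 6 3, 9), (.hz 5 87, 372), (.hz 5 119, 1192), (.hz 4 183, 3440)]))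
(.haz 5 343 11 40
(.maj 3 8
(.cut 3 [(0, 1), (1, 1), (2, 1), (3, 1), (5, 1), (7, 1), (23, 1), (39, 1), (55, 1), (87, 1), (119, 1)]
(.lp [[3], [1, 5, 7], [0, 2, 4, 6, 8]] [(.mj 4 5, 808), (.mj 7 3, 404), (.mj 7 8, 198), (.hz 5 343, 35062), (.hz 4 375, 348353), (.rw 7, 1)]))
(.cut 3 [(0, 1), (1, 1), (2, 1), (3, 1), (5, 1), (7, 1), (23, 1), (39, 1), (55, 1), (87, 1), (119, 1)]
(.lp [[3], [1, 5, 7], [0, 2, 4, 6, 8]] [(.mj 4 5, 6476), (.mj 7 3, 1590), (.mj 7 8, 2262), (.mj 8 3, 1649), (.hz 5 343, 166317), (.hz 5 351, 991251), (.rw 7, 10)])))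
(.cut 3 [(0, 1), (1, 1), (2, 1), (3, 1), (5, 1), (7, 1), (23, 1), (39, 1), (55, 1)]
(.lp [[3], [1, 5, 7], [0, 2, 4, 6, 8]] [(.mj 5 6, 7598), (.mj 6 3, 3191), (.mj 7 3, 3064), (.rw 6, 1), (.hz 5 7, 500327), (.hz 5 23, 166261), (.rw 7, 12)])))
(.maj 3 7
(.cut 3 [(0, 1), (1, 1), (2, 1), (3, 1), (5, 1), (7, 1), (23, 1), (39, 1), (55, 1), (87, 1), (119, 1)]
(.lp [[3], [1, 5, 7], [0, 2, 4, 6, 8]] [(.mj 4 5, 803), (.mj 5 6, 988), (.mj 8 3, 695), (.hz 4 183, 299080), (.hz 4 247, 183364), (.rw 7, 2)]))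
(.ask 343
(.mark 375 [3, 7, 9]
(.cut 3 [(0, 1), (1, 1), (2, 1), (3, 1), (5, 1), (7, 1), (23, 1), (39, 1), (55, 1), (87, 1), (119, 1)]
(.lp [[3], [1, 5, 7], [0, 2, 4, 6, 8, 9]] [(.mj 4 5, 807), (.mj 5 6, 1166), (.mj 7 3, 1018), (.mj 8 7, 480), (.hz 4 119, 179492), (.hz 4 887, 311310), (.rw 7, 2)])))
(.ask 375
(.mark 375 [3, 7, 9]
(.spn
(.con 3 7)
(.cut 3 [(0, 1), (1, 1), (2, 1), (3, 1), (5, 1), (7, 1), (23, 1), (39, 1), (55, 1), (87, 1), (119, 1), (343, 1), (375, 1)]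
(.lp [[3], [1, 5, 7], [0, 2, 4, 6, 8, 9]] [(.mj 5 6, 579), (.mj 7 3, 1765), (.mj 7 9, 1475), (.mj 8 7, 3690), (.rw 7, 1), (.rw 8, 7)]))
(.cut 3 [(0, 1), (1, 1), (2, 1), (3, 1), (5, 1), (7, 1), (23, 1), (39, 1), (55, 1), (87, 1), (119, 1)]
(.lp [[3], [1, 5, 7], [0, 2, 4, 6, 8, 9]] [(.mj 4 5, 4242), (.mj 5 6, 3176), (.mj 9 3, 2772), (.hz 4 119, 308522), (.hz 4 247, 147030), (.rw 8, 8)]))
.fin))
(.lp [[3], [1, 5, 7], [0, 2, 4, 6, 8]] [(.mj 7 3, 2), (.mj 8 7, 3)]))))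
.fin))
(.ask 119
(.mark 119 [3, 7, 8]
(.spn
(.haz 8 247 13 40
(.lp [[3], [1, 5, 7], [0, 2, 4, 6, 8]] [(.mj 3 8, 12004), (.mj 4 5, 34912), (.mj 5 6, 7092), (.mj 6 3, 26006), (.rw 6, 19), (.hz 4 183, 12998966), (.hz 5 247, 3376209)])
(.lp [[3], [1, 5, 7], [0, 2, 4, 6, 8]] [(.mj 3 7, 5), (.mj 4 5, 6), (.mj 5 6, 2), (.mj 6 3, 7), (.hz 5 119, 988)]))
(.lp [[3], [1, 5, 7], [0, 2, 4, 6, 8]] [(.mj 4 5, 19), (.mj 7 3, 12), (.mj 7 8, 2), (.hz 4 55, 2811), (.hz 4 119, 946), (.hz 4 183, 2600), (.hz 4 375, 2554)])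
(.ask 375
(.mark 375 [3, 7, 9]
(.spn
(.lp [[3], [1, 5, 7], [0, 2, 4, 6, 8, 9]] [(.mj 8 3, 149), (.rw 7, 1)])
(.lp [[3], [1, 5, 7], [0, 2, 4, 6, 8, 9]] [(.mj 4 5, 3181), (.rw 6, 1), (.rw 7, 3), (.hz 4 55, 465343), (.hz 4 119, 156615), (.hz 4 183, 748870), (.hz 4 247, 497938)])
(.cut 3 [(0, 1), (1, 1), (2, 1), (3, 1), (5, 1), (7, 1), (23, 1), (39, 1), (55, 1), (87, 1), (119, 1)]
(.cut 7 [(0, 1), (1, 1), (2, 1), (3, 1), (5, 1), (7, 1), (11, 1), (15, 1), (23, 1), (39, 1), (31, 1), (47, 1), (87, 1), (95, 1)]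
(.lp [[3], [1, 5, 7], [0, 2, 4, 6, 8, 9]] [(.mj 4 5, 10371), (.mj 9 3, 6914), (.rw 8, 24), (.rw 9, 2)])))
.fin))
(.lp [[3], [1, 5, 7], [0, 2, 4, 6, 8]] [(.mj 8 7, 1), (.rw 6, 1)]))
.fin))
(.lp [[3], [1, 5, 7], [0, 2, 4, 6]] [(.mj 4 5, 5), (.mj 5 3, 3), (.hz 4 55, 280), (.hz 4 183, 730)])))
(.ask 87
(.mark 87 [3, 5, 8]
(.cut 3 [(0, 1), (1, 1), (2, 1), (3, 1), (5, 1), (7, 1), (23, 1), (39, 1), (55, 1)]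
(.cut 3 [(0, 1), (1, 1), (2, 1), (3, 1), (5, 1), (7, 1), (23, 1), (87, 1)]
(.lp [[3], [1, 5, 7], [0, 2, 4, 6, 8]] [(.mj 4 5, 16478), (.mj 7 3, 7324), (.mj 7 6, 7324), (.rw 4, 7), (.rw 6, 6), (.rw 7, 15)]))))
(.lp [[3], [1, 5, 7], [0, 2, 4, 6]] [(.mj 4 5, 4), (.mj 7 3, 3), (.mj 7 6, 1), (.hz 4 55, 453), (.hz 4 119, 638), (.hz 4 183, 333)]))
.fin))
(.ref 0))
(.ask 87
(.mark 87 [3, 5, 7]
(.spn
(.lp [[5], [1, 3], [0, 2, 4, 6, 7]] [(.mj 6 3, 1180), (.rw 5, 2)])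
(.cut 3 [(0, 1), (1, 1), (2, 1), (3, 1), (5, 1), (7, 1), (23, 1), (87, 1)]
(.lp [[5], [1, 3], [0, 2, 4, 6, 7]] [(.mj 5 3, 9404), (.mj 5 7, 9404), (.mj 6 5, 21799), (.rw 5, 10), (.rw 6, 28)]))
(.ask 215
(.mark 215 [3, 5, 8]
(.spn
(.lp [[5], [1, 3], [0, 2, 4, 6, 7, 8]] [(.mj 7 3, 274), (.rw 6, 1)])
(.lp [[5], [1, 3], [0, 2, 4, 6, 7, 8]] [(.mj 7 5, 627), (.rw 6, 1)])
(.maj 3 5
(.cut 3 [(0, 1), (1, 1), (2, 1), (3, 1), (5, 1), (7, 1), (23, 1), (87, 1), (215, 1)]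
(.cut 5 [(0, 1), (1, 1), (2, 1), (3, 1), (5, 1), (7, 1), (11, 1), (15, 2), (23, 1), (31, 1)]
(.cut 5 [(0, 1), (1, 1), (2, 1), (3, 1), (5, 1), (7, 1), (11, 1), (15, 1), (23, 1), (31, 2), (87, 1), (95, 1)]
(.lp [[5], [1, 3], [0, 2, 4, 6, 7, 8]] [(.mj 8 3, 17743), (.hz 2 11, 142516), (.hz 4 55, 3270544), (.hz 4 119, 6038780), (.hz 4 247, 3419238), (.rw 7, 50), (.rw 8, 2), (.rw 9, 10)]))))
(.ask 471
(.mark 471 [3, 5, 9]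
(.spn
(.con 3 5)
(.lp [[5], [1, 3], [0, 2, 4, 6, 7, 8, 9]] [(.mj 8 5, 213), (.rw 7, 1)])
(.cut 3 [(0, 1), (1, 1), (2, 1), (3, 1), (5, 1), (7, 1)]
(.cut 3 [(0, 1), (1, 1), (2, 1), (3, 1), (5, 1), (7, 1), (23, 1)]
(.cut 3 [(0, 1), (1, 1), (2, 1), (3, 1), (5, 1), (7, 1), (23, 1), (39, 2), (55, 1), (87, 1)]
(.cut 5 [(0, 1), (1, 1), (2, 1), (3, 1), (5, 1), (7, 1), (23, 1), (87, 1)]
(.cut 3 [(0, 1), (1, 1), (2, 1), (3, 1), (5, 1), (7, 1), (23, 1), (39, 1), (55, 2), (87, 1), (119, 1), (215, 1)]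
(.cut 5 [(0, 1), (1, 1), (2, 1), (3, 1), (5, 1), (7, 1), (23, 1), (87, 1), (215, 1)]
(.lp [[5], [1, 3], [0, 2, 4, 6, 7, 8, 9]] [(.mj 9 5, 1698), (.rw 7, 2), (.rw 8, 5), (.rw 9, 2), (.rw 10, 1), (.rw 11, 12), (.rw 12, 3), (.rw 13, 3)])))))))
.fin))
(.lp [[5], [1, 3], [0, 2, 4, 6, 7, 8]] [(.mj 8 5, 1), (.rw 6, 1)])))
.fin))
(.lp [[5], [1, 3], [0, 2, 4, 6, 7]] [(.mj 7 5, 1), (.rw 5, 1)]))
.fin))
(.lp [[5], [1, 3], [0, 2, 4, 6]] [(.mj 6 5, 1), (.rw 4, 1)]))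
.fin))
(.lp [[5], [1, 3], [0, 2, 4]] [(.mj 0 1, 27), (.mj 4 5, 2), (.hz 4 55, 193)]))
(.cut 3 [(0, 1), (1, 1), (2, 1), (5, 1)]
(.lp [[5], [1, 3], [0, 2, 4]] [(.hz 4 3, 82429), (.hz 4 7, 41215), (.rw 4, 2)])))
(.con 5 4)
.fin))
(.spn
(.lp [[], [1, 3], [0, 2, 4]] [(.mj 0 1, 8), (.mj 3 4, 1)])
(.ask 23
(.ask 23
(.ref 1)
(.spn
(.lp [[], [1, 3], [0, 2, 4, 5]] [(.mj 4 3, 440), (.rw 4, 1)])
(.ask 55
(.ask 55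
(.ref 2)
(.spn
(.lp [[], [1, 3], [0, 2, 4, 5, 6]] [(.mj 5 3, 1), (.rw 5, 1)])
(.ask 119
(.haz 3 247 1 20
(.ask 119
(.mark 119 [3, 7, 8]
(.spn
(.lp [[8], [1, 3], [0, 2, 4, 5, 6, 7]] [(.rw 5, 1), (.rw 6, 3)])
(.ask 247
(.mark 247 [3, 8, 9]
(.spn
(.lp [[8], [1, 3], [0, 2, 4, 5, 6, 7, 9]] [(.mj 7 3, 149), (.rw 7, 1)])
(.maj 3 9
(.cut 3 [(0, 1), (1, 1), (2, 1), (3, 1), (5, 1), (7, 1), (23, 1), (55, 1), (119, 1), (247, 1)]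
(.lp [[8], [1, 3], [0, 2, 4, 5, 6, 7, 9]] [(.mj 7 8, 293), (.mj 8 3, 563), (.hz 4 759, 274224), (.rw 8, 2)]))
(.cut 3 [(0, 1), (1, 1), (2, 1), (3, 1), (5, 1), (7, 1), (23, 1), (55, 1), (119, 1), (247, 1)]
(.lp [[8], [1, 3], [0, 2, 4, 5, 6, 7, 9]] [(.mj 7 8, 23), (.mj 8 9, 23), (.mj 9 3, 297), (.hz 4 503, 43444), (.rw 8, 1)])))
(.cut 3 [(0, 1), (1, 1), (2, 1), (3, 1), (5, 1), (7, 1), (23, 1), (55, 1), (119, 1), (247, 1)]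
(.lp [[8], [1, 3], [0, 2, 4, 5, 6, 7, 9]] [(.mj 9 3, 4570), (.rw 8, 16)]))
.fin))
(.lp [[8], [1, 3], [0, 2, 4, 5, 6, 7]] [(.mj 7 8, 895), (.rw 6, 1)]))
(.con 8 7)
.fin))
(.spn
(.lp [[], [1, 3], [0, 2, 4, 5, 6, 7]] [(.mj 6 3, 1), (.rw 6, 1)])
(.ask 247
(.ask 247
(.mark 247 [3, 8, 9]
(.spn
(.lp [[9], [1, 3], [0, 2, 4, 5, 6, 7, 8]] [(.mj 7 3, 149), (.rw 7, 1)])
(.cut 3 [(0, 1), (1, 1), (2, 1), (3, 1), (5, 1), (7, 1), (23, 1), (55, 1), (119, 1), (247, 1)]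
(.lp [[9], [1, 3], [0, 2, 4, 5, 6, 7, 8]] [(.mj 8 3, 4570), (.rw 8, 16)]))
(.con 9 8)
.fin))
(.spn
(.lp [[], [1, 3], [0, 2, 4, 5, 6, 7, 8]] [(.rw 7, 1)])
(.cut 3 [(0, 1), (1, 1), (2, 1), (3, 1), (5, 1), (7, 1)]
(.cut 3 [(0, 1), (1, 1), (2, 1), (3, 1), (5, 1), (7, 1), (23, 1)]
(.cut 3 [(0, 1), (1, 1), (2, 1), (3, 1), (5, 1), (7, 1), (23, 1), (55, 1)]
(.cut 3 [(0, 1), (1, 1), (2, 1), (3, 1), (5, 1), (7, 1), (23, 1), (55, 1), (119, 1)]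
(.lp [[], [1, 3], [0, 2, 4, 5, 6, 7, 8]] [(.rw 7, 3), (.rw 8, 8), (.rw 9, 3), (.rw 10, 3), (.rw 11, 3)])))))
.fin
.fin))
(.lp [[], [1, 3], [0, 2, 4, 5, 6, 7]] [(.rw 6, 1)]))
.fin
.fin))
(.cut 3 [(0, 1), (1, 1), (2, 1), (5, 1)]
(.lp [[], [1, 3], [0, 2, 4, 5, 6, 7]] [(.hz 4 3, 99234), (.hz 4 7, 49617), (.rw 6, 1)])))
(.lp [[], [1, 3], [0, 2, 4, 5, 6]] [(.rw 5, 1)]))
.fin
.fin))
(.lp [[], [1, 3], [0, 2, 4, 5]] [(.mj 5 3, 1)]))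
.fin
.fin))
(.lp [[], [1, 3], [0, 2, 4]] [(.rw 3, 1)]))
.fin
.fin))
(.lp [[], [0, 2], [1, 3]] [(.mj 0 1, 1)]))

theorem run260 : run P3488 (leaf3 218 625) (cutRow P3488) [s257, s259, s258] t260 s260 = true := by
  decide +kernel

theorem bad260 : Bad P3488 s260 :=
  run_sound (leaf3_sound P3488 rfl rfl) (cutRow_sound P3488) (
    List.forall_mem_cons.2 ⟨bad257, List.forall_mem_cons.2 ⟨bad259, List.forall_mem_cons.2 ⟨bad258, fun _ h => absurd h List.not_mem_nil⟩⟩⟩) t260 s260 run260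

/-- the state above piece 173 of the tree -/
def s173 : St := ⟨[0, 0, 1, 3, 5, 15, 21, 31, 47, 159], [303, 191, 63, 31, 23, 21, 15, 11, 7, 5, 3, 2, 1, 0], [0, 1, 2, 3, 4, 5, 7, 8],
  [(5, 6), (4, 5)],
  [⟨true, 2, 3, 3, 10⟩, ⟨true, 1, 5, 2, 5⟩, ⟨true, 2, 3, 23, 50⟩, ⟨true, 1, 5, 12, 25⟩, ⟨true, 1, 21, 27, 50⟩, ⟨true, 4, 15, 9, 40⟩, ⟨true, 3, 23, 11, 20⟩, ⟨true, 4, 47, 7, 20⟩, ⟨true, 4, 47, 17, 40⟩, ⟨true, 4, 47, 9, 20⟩, ⟨true, 4, 47, 19, 40⟩, ⟨true, 3, 87, 27, 40⟩, ⟨true, 5, 95, 1, 4⟩, ⟨true, 5, 159, 1, 4⟩, ⟨true, 7, 127, 7, 40⟩, ⟨true, 7, 95, 1, 5⟩, ⟨true, 8, 127, 7, 40⟩, ⟨true, 4, 303, 1, 2⟩, ⟨true, 6, 447, 1, 20⟩],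
  [.spn 0 0 651200, .spn 1 1 302400, .spn 3 2 302400, .spn 7 3 302400, .spn 15 4 302400, .spn 31 5 140426, .spn 63 7 140426, .spn 191 8 140426]⟩

/-- piece 173 of the tree -/
noncomputable def t173 : WN.Tree :=
(.haz 8 127 7 25
(.ask 319
(.mark 447 [6, 9, 10]
(.spn
(.haz 9 447 8 25
(.lp [[6], [0, 2, 4, 7, 9], [1, 3, 5, 8, 10]] [(.mj 3 4, 15615), (.mj 6 9, 1319), (.mj 6 10, 189), (.mj 7 8, 3698), (.rw 8, 1), (.hz 20 447, 430107), (.hz 20 511, 1193543), (.hz 20 1471, 2361702)])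
(.haz 10 511 17 50
(.lp [[6], [0, 2, 4, 7, 9], [1, 3, 5, 8, 10]] [(.mj 3 4, 4619), (.mj 7 8, 1554), (.rw 8, 1), (.hz 20 159, 1048), (.hz 20 191, 380521), (.hz 20 447, 207537), (.hz 21 511, 798344), (.hz 18 959, 398237)])
(.lp [[6], [0, 2, 4, 7, 9], [1, 3, 5, 8, 10]] [(.mj 3 4, 4), (.mj 7 8, 1), (.hz 20 191, 355), (.hz 20 447, 874), (.hz 21 447, 418)])))
(.ask 671
(.ref 0)
(.haz 9 1471 7 25
(.ask 703
(.ref 1)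
(.ask 959
(.mark 959 [6, 10, 11]
(.spn
(.haz 10 959 3 10
(.lp [[6], [1, 3, 5, 8, 10], [0, 2, 4, 7, 9, 11]] [(.mj 6 10, 4), (.mj 6 11, 1), (.mj 8 9, 2), (.mj 9 6, 4), (.hz 21 959, 5399), (.hz 21 1023, 19076), (.hz 21 3007, 25842)])
(.haz 10 959 13 50
(.lp [[6], [1, 3, 5, 8, 10], [0, 2, 4, 7, 9, 11]] [(.mj 6 10, 9), (.mj 6 11, 4), (.mj 8 9, 1), (.mj 9 6, 11), (.hz 22 959, 786), (.hz 22 1023, 15407), (.hz 22 3007, 15056)])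
(.haz 11 1983 17 50
(.haz 11 1983 12 25
(.ask 1343
(.mark 1983 [6, 11, 12]
(.lp [[6], [0, 2, 4, 7, 9, 11], [1, 3, 5, 8, 10, 12]] [(.mj 6 11, 5), (.mj 8 9, 2), (.mj 9 6, 6), (.hz 22 319, 3068), (.hz 18 1471, 2713), (.hz 24 1983, 5434), (.hz 18 5567, 41629), (.hz 20 5567, 1684), (.hz 24 6079, 25349)]))
(.lp [[6], [1, 3, 5, 8, 10], [0, 2, 4, 7, 9, 11]] [(.mj 6 11, 31), (.mj 8 9, 23), (.mj 9 6, 35), (.hz 22 447, 29999), (.hz 22 959, 3516), (.hz 18 1471, 74413), (.hz 24 1983, 103174)]))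
(.lp [[6], [1, 3, 5, 8, 10], [0, 2, 4, 7, 9, 11]] [(.mj 8 9, 2), (.mj 9 6, 2), (.hz 22 319, 521), (.hz 22 447, 1203), (.hz 22 959, 3736), (.hz 24 959, 7471), (.hz 18 1471, 4857)]))
(.lp [[6], [1, 3, 5, 8, 10], [0, 2, 4, 7, 9, 11]] [(.mj 8 9, 1), (.mj 9 6, 1), (.hz 22 319, 316), (.hz 22 447, 809), (.hz 22 959, 1799), (.hz 23 959, 1799)]))))
(.maj 6 11
(.cut 6 [(0, 1), (1, 1), (2, 1), (3, 1), (5, 1), (7, 1), (11, 1), (21, 1), (15, 1), (23, 1), (31, 1), (47, 1), (63, 1), (159, 1), (303, 1), (191, 1), (319, 1), (671, 1), (447, 1), (703, 1), (959, 1)]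
(.lp [[6], [1, 3, 5, 8, 10], [0, 2, 4, 7, 9, 11]] [(.mj 7 8, 9579), (.mj 10 6, 4045), (.mj 10 11, 664), (.hz 18 3007, 42582383), (.rw 10, 10)]))
(.cut 6 [(0, 1), (1, 1), (2, 1), (3, 1), (5, 1), (7, 1), (11, 1), (21, 1), (15, 1), (23, 1), (31, 1), (47, 1), (63, 1), (159, 1), (303, 1), (191, 1), (319, 1), (671, 1), (447, 1), (703, 1)]
(.cut 6 [(0, 1), (1, 1), (2, 1), (3, 1), (5, 1), (7, 1), (11, 1), (21, 1), (15, 1), (23, 1), (31, 1), (47, 1), (63, 1), (159, 1), (303, 1), (191, 1), (319, 1), (671, 1), (447, 1), (703, 1), (959, 1)]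
(.lp [[6], [1, 3, 5, 8, 10], [0, 2, 4, 7, 9, 11]] [(.mj 7 8, 9816), (.mj 10 6, 1227), (.mj 10 11, 1624), (.mj 11 6, 2918), (.rw 10, 7), (.rw 11, 6)]))))
(.ask 3007
(.mark 3007 [6, 10, 12]
(.spn
(.lp [[6], [1, 3, 5, 8, 10], [0, 2, 4, 7, 9, 11, 12]] [(.mj 11 6, 84), (.rw 10, 1)])
(.cut 6 [(0, 1), (1, 1), (2, 1), (3, 1), (5, 1), (7, 1), (11, 1), (21, 1), (15, 1), (23, 1), (31, 1), (47, 1), (63, 1), (159, 1), (303, 1), (191, 1), (319, 1), (671, 1), (447, 1), (703, 1), (959, 1)]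
(.lp [[6], [1, 3, 5, 8, 10], [0, 2, 4, 7, 9, 11, 12]] [(.mj 8 9, 12166), (.mj 11 10, 6912), (.rw 9, 3), (.rw 10, 13), (.hz 15 1407, 46792873), (.hz 18 1983, 128759885), (.rw 11, 17)]))
(.ask 1343
(.mark 4031 [6, 12, 13]
(.cut 6 [(0, 1), (1, 1), (2, 1), (3, 1), (5, 1), (7, 1), (11, 1), (21, 1), (15, 1), (23, 1), (31, 1), (47, 1), (63, 1), (159, 1), (303, 1), (191, 1), (319, 1), (447, 1), (1343, 1), (1471, 1)]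
(.cut 6 [(0, 1), (1, 1), (2, 1), (3, 1), (5, 1), (7, 1), (11, 1), (21, 1), (15, 1), (23, 1), (31, 1), (47, 1), (63, 1), (159, 1), (303, 1), (191, 1), (319, 1), (671, 1), (447, 1), (703, 1), (1343, 1), (959, 1), (1471, 1), (9535, 1), (1983, 1), (3007, 1), (4031, 1)]
(.cut 10 [(0, 1), (1, 1), (2, 1), (3, 1), (5, 1), (7, 1), (11, 1), (21, 1), (15, 1), (23, 1), (85, 1), (31, 1), (47, 1), (87, 1), (63, 1), (95, 1), (159, 1), (303, 1), (127, 1), (191, 1), (223, 1), (319, 1), (671, 1), (255, 1), (383, 1), (447, 1), (703, 1), (735, 1), (511, 1), (767, 1), (959, 1), (1023, 2), (3007, 1), (3071, 2)]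
(.lp [[6], [1, 3, 5, 8, 10, 13], [0, 2, 4, 7, 9, 11, 12]] [(.mj 7 8, 102868), (.mj 8 9, 128349), (.mj 12 6, 83012), (.rw 10, 7), (.hz 20 1471, 2744069), (.hz 18 3007, 151063043), (.hz 20 9663, 5588684), (.hz 20 9727, 238470106), (.hz 18 10175, 240020050), (.rw 11, 285), (.rw 12, 18), (.rw 13, 5)])))))
(.cut 6 [(0, 1), (1, 1), (2, 1), (3, 1), (5, 1), (7, 1), (11, 1), (21, 1), (15, 1), (23, 1), (31, 1), (47, 1), (63, 1), (159, 1), (303, 1), (191, 1), (319, 1), (447, 1)]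
(.cut 6 [(0, 1), (1, 1), (2, 1), (3, 1), (5, 1), (7, 1), (11, 1), (21, 1), (15, 1), (23, 1), (31, 1), (47, 1), (63, 1), (159, 1), (303, 1), (191, 1), (319, 1), (671, 1), (447, 1), (703, 1), (1343, 1), (959, 1)]
(.lp [[6], [1, 3, 5, 8, 10], [0, 2, 4, 7, 9, 11, 12]] [(.mj 12 6, 1522), (.mj 12 10, 49), (.hz 20 1535, 4147712), (.hz 18 3007, 2283316), (.rw 11, 3), (.rw 12, 2)]))))
.fin))
(.lp [[6], [1, 3, 5, 8, 10], [0, 2, 4, 7, 9, 11]] [(.mj 11 10, 1), (.rw 9, 1)]))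
.fin))
(.spn
(.lp [[6], [0, 2, 4, 7, 9], [1, 3, 5, 8, 10]] [(.mj 6 10, 2), (.mj 9 6, 3)])
(.lp [[6], [0, 2, 4, 7, 9], [1, 3, 5, 8, 10]] [(.mj 9 10, 9), (.mj 10 6, 5), (.hz 18 1471, 70535)])
.fin
.fin)))
(.lp [[6], [0, 2, 4, 7, 9], [1, 3, 5, 8, 10]] [(.mj 7 8, 372), (.mj 9 10, 171), (.rw 8, 1), (.hz 20 447, 2194411)])))
(.haz 9 447 7 25
(.cut 6 [(0, 1), (1, 1), (2, 1), (3, 1), (5, 1), (7, 1), (11, 1), (21, 1), (15, 1), (23, 1), (31, 1), (47, 1), (63, 1), (159, 1), (303, 1), (191, 1), (319, 1), (447, 1)]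
(.lp [[6], [0, 2, 4, 7, 9], [1, 3, 5, 8, 10]] [(.mj 7 8, 719), (.mj 10 6, 535), (.mj 10 9, 535), (.hz 20 447, 474260), (.hz 20 1535, 2319111), (.rw 9, 1)]))
(.cut 6 [(0, 1), (1, 1), (2, 1), (3, 1), (5, 1), (7, 1), (11, 1), (21, 1), (15, 1), (23, 1), (31, 1), (47, 1), (63, 1), (159, 1), (303, 1), (191, 1), (319, 1), (447, 1)]
(.lp [[6], [0, 2, 4, 7, 9], [1, 3, 5, 8, 10]] [(.mj 3 4, 969), (.mj 5 7, 135), (.mj 7 8, 1801), (.mj 10 6, 659), (.mj 10 9, 327), (.hz 20 159, 121803), (.hz 19 127, 432594), (.hz 20 191, 498817), (.hz 19 255, 1099595), (.hz 12 735, 1040283), (.rw 9, 1)])))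
.fin))
(.haz 8 767 3 8
(.ask 447
(.mark 447 [6, 9, 10]
(.spn
(.haz 9 1471 3 20
(.haz 10 959 3 8
(.haz 9 255 7 40
(.lp [[6], [0, 2, 4, 7, 9], [1, 3, 5, 8, 10]] [(.mj 3 4, 58108), (.mj 6 9, 2540), (.mj 6 10, 5793), (.mj 7 8, 3313), (.hz 23 255, 7715049), (.hz 22 959, 32284841), (.hz 21 1471, 3816572)])
(.lp [[6], [0, 2, 4, 7, 9], [1, 3, 5, 8, 10]] [(.mj 3 4, 80), (.mj 6 10, 8), (.mj 7 8, 14), (.hz 23 159, 62), (.hz 23 191, 5450), (.hz 18 959, 9823), (.hz 22 959, 47002)]))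
(.lp [[6], [0, 2, 4, 7, 9], [1, 3, 5, 8, 10]] [(.mj 3 4, 135), (.mj 6 9, 14), (.mj 7 8, 28), (.hz 22 447, 46111), (.hz 21 1471, 18495)]))
(.lp [[6], [0, 2, 4, 7, 9], [1, 3, 5, 8, 10]] [(.mj 3 4, 201), (.mj 6 10, 22), (.mj 7 8, 38), (.hz 21 159, 586), (.hz 21 191, 17992), (.hz 21 447, 27804), (.hz 18 959, 16057)]))
(.ref 2)
(.ask 1471
(.mark 1471 [6, 9, 11]
(.spn
(.lp [[6], [0, 2, 4, 7, 9], [1, 3, 5, 8, 10, 11]] [(.mj 10 6, 232), (.rw 9, 1)])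
(.cut 6 [(0, 1), (1, 1), (2, 1), (3, 1), (5, 1), (7, 1), (11, 1), (21, 1), (15, 1), (23, 1), (31, 1), (47, 1), (63, 1), (159, 1), (303, 1), (191, 1), (319, 1), (447, 1), (1471, 1)]
(.lp [[6], [0, 2, 4, 7, 9], [1, 3, 5, 8, 10, 11]] [(.mj 9 6, 1506), (.mj 9 11, 1506), (.mj 10 9, 3202), (.rw 9, 1), (.rw 10, 6)]))
(.ask 3519
(.mark 3519 [6, 9, 12]
(.spn
(.lp [[6], [0, 2, 4, 7, 9], [1, 3, 5, 8, 10, 11, 12]] [(.mj 11 6, 136), (.rw 10, 1)])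
(.lp [[6], [0, 2, 4, 7, 9], [1, 3, 5, 8, 10, 11, 12]] [(.mj 11 9, 1164), (.rw 10, 2)])
(.cut 6 [(0, 1), (1, 1), (2, 1), (3, 1), (5, 1), (7, 1), (11, 1), (21, 1), (15, 1), (23, 1), (31, 1), (47, 1), (63, 1), (159, 1), (303, 1), (191, 1), (319, 1), (447, 1), (1471, 1), (3519, 1)]
(.cut 9 [(0, 1), (1, 1), (2, 1), (3, 1), (5, 1), (7, 1), (11, 1), (21, 1), (15, 1), (23, 1), (85, 1), (31, 1), (47, 1), (87, 1), (63, 1), (95, 1), (159, 1), (303, 1), (127, 1), (191, 1), (223, 1), (319, 1), (255, 1), (383, 1), (447, 1), (511, 1), (1471, 1), (1535, 1)]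
(.cut 6 [(0, 1), (1, 1), (2, 1), (3, 1), (5, 1), (7, 1), (11, 1), (21, 1), (15, 1), (23, 1), (31, 1), (47, 1), (63, 1), (159, 1), (303, 1), (191, 1), (319, 1), (671, 2), (447, 1), (703, 2), (959, 1), (1471, 1)]
(.cut 9 [(0, 1), (1, 1), (2, 1), (3, 1), (5, 1), (7, 1), (11, 1), (21, 1), (15, 1), (23, 1), (85, 1), (31, 1), (47, 1), (87, 1), (63, 1), (95, 1), (159, 1), (303, 1), (127, 1), (191, 1), (223, 1), (319, 1), (255, 1), (383, 1), (447, 1), (511, 1), (1471, 1), (1535, 2), (3519, 1), (3583, 1)]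
(.lp [[6], [0, 2, 4, 7, 9], [1, 3, 5, 8, 10, 11, 12]] [(.mj 7 8, 423253), (.mj 12 6, 1235028), (.mj 12 9, 259717), (.hz 12 735, 6548594643), (.hz 20 767, 8077574417), (.hz 18 1471, 1791431071), (.hz 18 1983, 4508523427), (.hz 18 4031, 2432143772), (.rw 11, 3404), (.rw 12, 553), (.rw 13, 68), (.rw 14, 56)])))))
.fin))
(.lp [[6], [0, 2, 4, 7, 9], [1, 3, 5, 8, 10, 11]] [(.mj 11 9, 1), (.rw 9, 1)]))
.fin))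
(.lp [[6], [0, 2, 4, 7, 9], [1, 3, 5, 8, 10]] [(.mj 10 9, 1), (.rw 8, 1)]))
.fin))
(.spn
(.lp [[6], [1, 3, 5, 8], [0, 2, 4, 7, 9]] [(.mj 6 9, 2), (.mj 7 6, 1), (.mj 8 6, 2)])
(.cut 6 [(0, 1), (1, 1), (2, 1), (3, 1), (5, 1), (7, 1), (11, 1), (21, 1), (15, 1), (23, 1), (31, 1), (47, 1), (63, 1), (159, 1), (303, 1), (191, 1), (319, 1), (447, 1)]
(.lp [[6], [1, 3, 5, 8], [0, 2, 4, 7, 9]] [(.mj 8 9, 872), (.mj 9 6, 377), (.rw 9, 1)]))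
.fin
.fin))
(.lp [[6], [1, 3, 5, 8], [0, 2, 4, 7, 9]] [(.mj 3 4, 8), (.mj 8 9, 1), (.hz 20 127, 2055), (.hz 20 191, 5179)])))
(.lp [[6], [1, 3, 5, 8], [0, 2, 4, 7, 9]] [(.mj 3 4, 18), (.mj 8 9, 2), (.hz 19 63, 4552), (.hz 15 95, 718), (.hz 16 127, 1075)]))

theorem run173 : run P3488 (leaf3 218 625) (cutRow P3488) [s170, s169, s172] t173 s173 = true := by
  decide +kernel

theorem bad173 : Bad P3488 s173 :=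
  run_sound (leaf3_sound P3488 rfl rfl) (cutRow_sound P3488) (
    List.forall_mem_cons.2 ⟨bad170, List.forall_mem_cons.2 ⟨bad169, List.forall_mem_cons.2 ⟨bad172, fun _ h => absurd h List.not_mem_nil⟩⟩⟩) t173 s173 run173

/-- the state above piece 200 of the tree -/
def s200 : St := ⟨[0, 0, 1, 3, 5, 15, 23, 31, 47, 159, 447], [319, 303, 191, 63, 31, 23, 21, 15, 11, 7, 5, 3, 2, 1, 0], [0, 1, 2, 3, 4, 5, 7, 8],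
  [(5, 6), (4, 5)],
  [⟨true, 2, 3, 3, 10⟩, ⟨true, 1, 5, 2, 5⟩, ⟨true, 2, 3, 23, 50⟩, ⟨true, 1, 5, 12, 25⟩, ⟨true, 1, 21, 27, 50⟩, ⟨true, 4, 15, 9, 40⟩, ⟨true, 3, 23, 11, 20⟩, ⟨true, 4, 47, 7, 20⟩, ⟨true, 4, 47, 17, 40⟩, ⟨true, 4, 47, 9, 20⟩, ⟨true, 4, 47, 19, 40⟩, ⟨true, 5, 95, 1, 5⟩, ⟨true, 5, 95, 3, 10⟩, ⟨true, 5, 31, 3, 10⟩, ⟨true, 3, 87, 29, 40⟩, ⟨true, 6, 447, 1, 40⟩, ⟨true, 8, 703, 13, 50⟩, ⟨true, 6, 959, 3, 50⟩, ⟨true, 8, 127, 7, 25⟩, ⟨true, 6, 703, 3, 50⟩, ⟨true, 8, 703, 21, 50⟩],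
  [.spn 0 0 651200, .spn 1 1 302400, .spn 3 2 302400, .spn 7 3 302400, .spn 15 4 302400, .spn 31 5 140426, .spn 63 7 140426, .spn 191 8 140426]⟩

/-- piece 200 of the tree -/
noncomputable def t200 : WN.Tree :=
(.mark 447 [6, 9, 10]
(.spn
(.haz 9 1471 3 25
(.haz 9 1471 4 25
(.ask 1471
(.haz 9 447 6 25
(.mark 1471 [6, 9, 11]
(.lp [[6], [0, 2, 4, 7, 9], [1, 3, 5, 8, 10, 11]] [(.mj 6 9, 235), (.mj 6 10, 74), (.mj 7 8, 52), (.mj 8 6, 312), (.hz 23 447, 32234), (.hz 23 511, 559191), (.hz 23 1471, 323048), (.hz 23 1535, 1), (.hz 23 3519, 246038)]))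
(.haz 6 3519 4 25
(.haz 10 959 12 25
(.ask 671
(.mark 1983 [6, 11, 12]
(.lp [[6], [0, 2, 4, 7, 9, 12], [1, 3, 5, 8, 10, 11]] [(.mj 3 4, 62), (.mj 6 10, 5), (.mj 7 8, 5), (.hz 19 703, 312), (.hz 19 4799, 6405), (.hz 20 4799, 337), (.hz 22 1535, 1843), (.hz 25 5055, 16208), (.hz 22 3519, 1843)]))
(.ask 703
(.mark 1983 [6, 11, 12]
(.lp [[6], [0, 2, 4, 7, 9, 12], [1, 3, 5, 8, 10, 11]] [(.mj 6 10, 11), (.mj 7 8, 14), (.mj 8 6, 17), (.hz 23 191, 12667), (.hz 19 4799, 14023), (.hz 20 4799, 769), (.hz 22 1535, 4694), (.hz 25 5055, 32931), (.hz 22 3519, 4694)]))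
(.lp [[6], [0, 2, 4, 7, 9], [1, 3, 5, 8, 10, 11]] [(.mj 6 10, 7), (.mj 7 8, 10), (.mj 8 6, 10), (.hz 23 447, 8874), (.hz 25 959, 12956)])))
(.ask 87
(.mark 1535 [9, 11, 12]
(.lp [[7, 9], [0, 2, 4, 6, 12], [1, 3, 5, 8, 10, 11]] [(.mj 3 4, 2), (.hz 23 447, 823), (.hz 25 447, 993), (.hz 22 1471, 203), (.hz 22 3519, 241)]))
(.ask 95
(.mark 1535 [9, 11, 12]
(.lp [[7, 9], [0, 2, 4, 6, 12], [1, 3, 5, 8, 10, 11]] [(.mj 3 4, 2), (.hz 23 447, 823), (.hz 25 447, 993), (.hz 22 1471, 203), (.hz 22 3519, 241)]))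
(.haz 9 511 9 50
(.lp [[6], [0, 2, 4, 7, 9], [1, 3, 5, 8, 10, 11]] [(.mj 3 4, 19), (.mj 8 6, 1), (.hz 23 447, 6270), (.hz 25 447, 6270), (.hz 26 511, 4233)])
(.lp [[6], [0, 2, 4, 7, 9], [1, 3, 5, 8, 10, 11]] [(.mj 3 4, 5), (.mj 7 8, 1), (.hz 26 191, 157), (.hz 26 447, 414), (.hz 25 447, 828)])))))
(.lp [[6], [0, 2, 4, 7, 9], [1, 3, 5, 8, 10, 11]] [(.mj 3 4, 19), (.mj 6 10, 5), (.hz 24 191, 394), (.hz 23 191, 1380), (.hz 24 319, 2497), (.hz 24 447, 6566), (.hz 23 447, 6566), (.hz 19 703, 524), (.hz 22 1471, 9025)])))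
(.lp [[6], [0, 2, 4, 7, 9], [1, 3, 5, 8, 10]] [(.mj 3 4, 118), (.mj 6 9, 8), (.mj 7 8, 23), (.hz 22 1535, 14874)]))
(.lp [[6], [0, 2, 4, 7, 9], [1, 3, 5, 8, 10]] [(.mj 6 10, 13), (.mj 7 8, 22), (.mj 8 6, 23), (.hz 22 159, 5565), (.hz 22 191, 13576), (.hz 22 447, 17088), (.hz 19 703, 11931), (.hz 21 1471, 24853)]))
(.lp [[6], [0, 2, 4, 7, 9], [1, 3, 5, 8, 10]] [(.mj 6 10, 25), (.mj 7 8, 35), (.mj 8 6, 37), (.hz 21 159, 8809), (.hz 21 191, 21101), (.hz 21 447, 26083), (.hz 19 703, 19162)]))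
(.haz 7 127 9 20
(.haz 6 1471 1 20
(.maj 6 10
(.haz 6 1983 1 10
(.haz 8 255 12 25
(.ask 671
(.mark 959 [6, 10, 11]
(.spn
(.haz 10 959 19 50
(.lp [[6], [1, 3, 5, 8, 10], [0, 2, 4, 7, 9, 11]] [(.mj 6 10, 1896), (.mj 8 9, 1896), (.mj 9 6, 1896), (.rw 9, 1), (.hz 25 959, 718046), (.hz 25 1023, 995312), (.hz 25 3007, 2725258)])
(.lp [[6], [1, 3, 5, 8, 10], [0, 2, 4, 7, 9, 11]] [(.mj 3 4, 6169), (.mj 8 9, 1679), (.mj 9 6, 659), (.rw 9, 2), (.hz 25 447, 882280), (.hz 25 959, 656839)]))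
(.con 10 6)
(.cut 6 [(0, 1), (1, 1), (2, 1), (3, 1), (5, 1), (7, 1), (11, 1), (21, 1), (15, 1), (23, 1), (31, 1), (47, 1), (63, 1), (159, 1), (303, 1), (191, 1), (319, 1), (447, 1)]
(.lp [[6], [1, 3, 5, 8, 10], [0, 2, 4, 7, 9, 11]] [(.mj 5 7, 732), (.mj 11 6, 344), (.mj 11 10, 114), (.hz 22 1471, 1931094), (.rw 10, 1)]))
.fin))
(.haz 10 959 4 25
(.ask 703
(.mark 959 [6, 10, 11]
(.spn
(.haz 10 959 9 25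
(.lp [[6], [1, 3, 5, 8, 10], [0, 2, 4, 7, 9, 11]] [(.mj 6 10, 29), (.mj 8 9, 25), (.mj 9 6, 29), (.hz 26 959, 25645), (.hz 19 2751, 26837), (.hz 26 1023, 30053), (.hz 26 3007, 75848)])
(.lp [[6], [1, 3, 5, 8, 10], [0, 2, 4, 7, 9, 11]] [(.mj 8 9, 1232), (.mj 9 6, 631), (.rw 9, 1), (.hz 26 447, 857061), (.hz 26 959, 542801), (.hz 22 1471, 828304)]))
(.con 10 6)
(.cut 6 [(0, 1), (1, 1), (2, 1), (3, 1), (5, 1), (7, 1), (11, 1), (21, 1), (15, 1), (23, 1), (31, 1), (47, 1), (63, 1), (159, 1), (303, 1), (191, 1), (319, 1), (671, 1), (447, 1), (703, 1), (959, 1), (2751, 1)]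
(.lp [[6], [1, 3, 5, 8, 10], [0, 2, 4, 7, 9, 11]] [(.mj 8 9, 5097), (.mj 11 6, 4608), (.mj 11 10, 3677), (.hz 19 703, 9528778), (.hz 24 767, 1482151), (.hz 25 959, 10438510), (.hz 22 1471, 24432289), (.hz 19 2751, 816473), (.hz 23 1983, 131728002), (.rw 10, 1)]))
.fin))
(.ask 959
(.mark 959 [6, 10, 11]
(.spn
(.haz 10 959 13 50
(.lp [[6], [1, 3, 5, 8, 10], [0, 2, 4, 7, 9, 11]] [(.mj 6 10, 766), (.mj 6 11, 367), (.mj 8 9, 87), (.mj 9 6, 975), (.hz 26 959, 46762), (.hz 26 1023, 930842), (.hz 26 3007, 1239138), (.hz 23 4031, 1)])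
(.lp [[6], [1, 3, 5, 8, 10], [0, 2, 4, 7, 9, 11]] [(.mj 6 11, 13), (.mj 8 9, 12), (.mj 9 6, 16), (.hz 26 447, 10332), (.hz 26 959, 14052), (.hz 23 1983, 41756), (.hz 25 3007, 37315)]))
(.con 10 6)
(.cut 6 [(0, 1), (1, 1), (2, 1), (3, 1), (5, 1), (7, 1), (11, 1), (21, 1), (15, 1), (23, 1), (31, 1), (47, 1), (63, 1), (159, 1), (303, 1), (191, 1), (319, 1), (671, 1), (447, 1), (703, 1), (959, 1)]
(.lp [[6], [1, 3, 5, 8, 10], [0, 2, 4, 7, 9, 11]] [(.mj 8 9, 6304), (.rw 9, 2), (.hz 25 959, 6003382), (.rw 10, 9)]))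
.fin))
(.lp [[6], [0, 2, 4, 7, 9], [1, 3, 5, 8, 10]] [(.mj 6 10, 2), (.mj 9 6, 3)])))
(.cut 6 [(0, 1), (1, 1), (2, 1), (3, 1), (5, 1), (7, 1), (11, 1), (21, 1), (15, 1), (23, 1), (31, 1), (47, 1), (63, 1), (159, 1), (303, 1), (191, 1), (319, 1), (447, 1)]
(.lp [[6], [0, 2, 4, 7, 9], [1, 3, 5, 8, 10]] [(.mj 8 9, 18737), (.mj 9 6, 7698), (.hz 25 447, 8705711), (.hz 22 1471, 10103207), (.rw 9, 19)]))))
(.cut 6 [(0, 1), (1, 1), (2, 1), (3, 1), (5, 1), (7, 1), (11, 1), (21, 1), (15, 1), (23, 1), (31, 1), (47, 1), (63, 1), (159, 1), (303, 1), (191, 1), (319, 1), (447, 1)]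
(.lp [[6], [0, 2, 4, 7, 9], [1, 3, 5, 8, 10]] [(.mj 3 4, 7728), (.mj 8 9, 879), (.hz 24 127, 507334), (.hz 24 191, 1432474), (.rw 9, 1)])))
(.cut 6 [(0, 1), (1, 1), (2, 1), (3, 1), (5, 1), (7, 1), (11, 1), (21, 1), (15, 1), (23, 1), (31, 1), (47, 1), (63, 1), (159, 1), (303, 1), (191, 1), (319, 1), (671, 2), (447, 1), (703, 1)]
(.cut 6 [(0, 1), (1, 1), (2, 1), (3, 1), (5, 1), (7, 1), (11, 1), (21, 1), (15, 1), (23, 1), (31, 1), (47, 1), (63, 1), (159, 1), (303, 1), (191, 1), (319, 1), (447, 1)]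
(.lp [[6], [0, 2, 4, 7, 9], [1, 3, 5, 8, 10]] [(.mj 8 9, 2164), (.hz 23 671, 3542313), (.hz 23 703, 1469494), (.hz 23 959, 38273795), (.rw 9, 1), (.rw 10, 7)]))))
(.ref 0))
(.lp [[6], [0, 2, 4, 7, 9], [1, 3, 5, 8, 10]] [(.mj 0 1, 186), (.mj 5 7, 5), (.mj 8 9, 1), (.hz 22 23, 2713), (.hz 22 31, 1648), (.hz 21 127, 1110), (.hz 15 447, 417), (.hz 19 703, 1569)]))
(.cut 6 [(0, 1), (1, 1), (2, 1), (3, 1), (5, 1), (7, 1), (11, 1), (21, 1), (15, 1), (23, 1), (31, 1), (47, 1), (63, 1), (303, 1), (319, 1)]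
(.lp [[6], [0, 2, 4, 7, 9], [1, 3, 5, 8, 10]] [(.mj 3 4, 8027), (.mj 7 8, 1572), (.mj 9 6, 6097), (.mj 9 10, 1161), (.hz 21 63, 8589246), (.hz 13 671, 2842416), (.hz 19 703, 1425027), (.hz 15 1471, 6904617), (.rw 9, 8)])))
(.ask 1471
(.mark 1471 [6, 9, 11]
(.spn
(.lp [[6], [0, 2, 4, 7, 9], [1, 3, 5, 8, 10, 11]] [(.mj 10 6, 244), (.rw 9, 1)])
(.cut 6 [(0, 1), (1, 1), (2, 1), (3, 1), (5, 1), (7, 1), (11, 1), (21, 1), (15, 1), (23, 1), (31, 1), (47, 1), (63, 1), (159, 1), (303, 1), (191, 1), (319, 1), (447, 1), (1471, 1)]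
(.lp [[6], [0, 2, 4, 7, 9], [1, 3, 5, 8, 10, 11]] [(.mj 9 6, 1644), (.mj 9 11, 1644), (.mj 10 9, 3515), (.rw 9, 1), (.rw 10, 6)]))
(.maj 6 9
(.cut 6 [(0, 1), (1, 1), (2, 1), (3, 1), (5, 1), (7, 1), (11, 1), (21, 1), (15, 1), (23, 1), (31, 1), (47, 1), (63, 1), (159, 1), (303, 1), (191, 1), (319, 1), (447, 1), (1471, 1)]
(.lp [[6], [0, 2, 4, 7, 9], [1, 3, 5, 8, 10, 11]] [(.mj 0 1, 263312), (.mj 11 6, 13098), (.rw 9, 1), (.hz 14 87, 1172706), (.hz 13 671, 8923334), (.hz 19 703, 14640397), (.hz 20 703, 2803229), (.hz 17 959, 33506130), (.rw 10, 35)]))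
(.ask 87
(.mark 255 [8, 9, 12]
(.cut 6 [(0, 1), (1, 1), (2, 1), (3, 1), (5, 1), (7, 1), (11, 1), (21, 1), (15, 1), (23, 1), (31, 1), (47, 1), (63, 1), (159, 1), (303, 1), (191, 1), (319, 1), (447, 1), (1471, 1)]
(.cut 9 [(0, 1), (1, 1), (2, 1), (3, 1), (5, 1), (7, 1), (11, 1), (21, 1), (15, 1), (23, 1), (31, 1), (47, 1), (63, 1), (159, 1), (303, 1), (191, 1), (319, 1), (447, 1), (1471, 1)]
(.lp [[7, 9], [0, 2, 4, 6, 12], [1, 3, 5, 8, 10, 11]] [(.mj 0 1, 175079), (.mj 7 8, 23903), (.mj 11 6, 9800), (.mj 11 9, 10394), (.rw 9, 2), (.hz 14 4183, 1403843), (.hz 12 4191, 35465793), (.hz 13 671, 2064617), (.hz 18 4223, 54750658), (.hz 12 735, 49108201), (.hz 12 4319, 19925298), (.hz 20 767, 30164484), (.hz 18 4351, 39358685), (.hz 17 1983, 58542006), (.rw 10, 32), (.rw 11, 22)]))))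
(.cut 6 [(0, 1), (1, 1), (2, 1), (3, 1), (5, 1), (7, 1), (11, 1), (21, 1), (15, 1), (23, 1), (31, 1), (47, 1), (63, 1), (303, 1), (319, 1)]
(.cut 9 [(0, 1), (1, 1), (2, 1), (3, 1), (5, 1), (7, 1), (11, 1), (21, 1), (15, 1), (23, 1), (31, 1), (47, 1), (63, 1), (159, 1), (303, 1), (191, 1), (319, 1), (447, 1), (1471, 1)]
(.cut 6 [(0, 1), (1, 1), (2, 1), (3, 1), (5, 1), (7, 1), (11, 1), (21, 1), (15, 1), (23, 1), (31, 1), (47, 1), (63, 1), (159, 1), (303, 1), (191, 1)]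
(.cut 6 [(0, 1), (1, 1), (2, 1), (3, 1), (5, 1), (7, 1), (11, 1), (21, 1), (15, 1), (23, 1), (31, 1), (47, 1), (63, 1), (159, 1), (303, 1), (191, 1), (319, 1), (671, 2), (447, 1), (703, 2), (959, 1)]
(.cut 6 [(0, 1), (1, 1), (2, 1), (3, 1), (5, 1), (7, 1), (11, 1), (21, 1), (15, 1), (23, 1), (31, 1), (47, 1), (63, 1), (159, 1), (303, 1), (191, 1), (319, 1), (447, 1)]
(.lp [[6], [0, 2, 4, 7, 9], [1, 3, 5, 8, 10, 11]] [(.mj 0 1, 3509307), (.mj 11 6, 105452), (.mj 11 9, 35774), (.rw 9, 16), (.hz 12 95, 114766571), (.hz 13 671, 41383334), (.hz 12 735, 305965121), (.hz 20 767, 164788336), (.hz 17 1983, 293098543), (.rw 10, 30), (.rw 11, 98), (.rw 12, 107), (.rw 13, 22), (.rw 14, 94)]))))))))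
.fin))
(.lp [[6], [0, 2, 4, 7, 9], [1, 3, 5, 8, 10]] [(.mj 10 9, 1), (.rw 8, 1)]))
.fin))

theorem run200 : run P3488 (leaf3 218 625) (cutRow P3488) [s199] t200 s200 = true := by
  decide +kernel

theorem bad200 : Bad P3488 s200 :=
  run_sound (leaf3_sound P3488 rfl rfl) (cutRow_sound P3488) (
    List.forall_mem_cons.2 ⟨bad199, fun _ h => absurd h List.not_mem_nil⟩) t200 s200 run200

/-- the state above piece 148 of the tree -/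
def s148 : St := ⟨[0, 0, 1, 3, 5, 15, 15, 47, 21], [63, 31, 15, 11, 7, 5, 3, 2, 1, 0], [0, 1, 2, 3, 4, 5, 8],
  [(4, 5)],
  [⟨true, 2, 3, 3, 10⟩, ⟨true, 1, 5, 2, 5⟩, ⟨true, 2, 3, 23, 50⟩, ⟨true, 1, 5, 12, 25⟩, ⟨true, 1, 21, 27, 50⟩, ⟨true, 4, 15, 9, 40⟩, ⟨true, 3, 23, 11, 20⟩, ⟨true, 1, 21, 29, 50⟩],
  [.spn 0 0 651200, .spn 1 1 302400, .spn 3 2 302400, .spn 7 3 302400, .spn 15 4 140426, .spn 31 5 140426, .spn 63 8 140426]⟩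

/-- piece 148 of the tree -/
noncomputable def t148 : WN.Tree :=
(.haz 4 79 11 40
(.haz 4 175 11 40
(.haz 4 175 3 10
(.haz 6 175 1 40
(.haz 8 191 1 4
(.ask 277
(.ref 0)
(.ask 279
(.mark 319 [6, 7, 9]
(.spn
(.haz 7 319 11 40
(.lp [[6], [1, 3, 5, 7], [0, 2, 4, 8, 9]] [(.mj 5 8, 7894), (.mj 6 7, 8872), (.mj 6 9, 978), (.mj 8 6, 8872), (.rw 6, 2), (.hz 13 319, 1453793), (.hz 13 383, 3326947), (.hz 13 831, 7271491), (.hz 11 959, 1512734)])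
(.lp [[6], [1, 3, 5, 7], [0, 2, 4, 8, 9]] [(.mj 3 4, 4548), (.mj 5 8, 26977), (.mj 8 6, 20644), (.rw 7, 8), (.hz 13 47, 1823158), (.hz 13 63, 5348742), (.hz 11 175, 1612793), (.hz 11 191, 6128614), (.hz 13 319, 3827671)]))
(.haz 6 287 3 40
(.haz 5 95 3 8
(.ref 1)
(.lp [[6], [1, 3, 5, 7], [0, 2, 4, 8, 9]] [(.mj 3 4, 95188), (.mj 7 6, 65760), (.rw 6, 28), (.hz 14 15, 16544492), (.hz 14 31, 92558651), (.hz 13 287, 9380944), (.hz 10 175, 23278408), (.hz 11 175, 3308898), (.hz 13 319, 50277597), (.hz 13 799, 19522506), (.hz 13 447, 26745550), (.hz 13 831, 48292515)]))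
(.cut 6 [(0, 1), (1, 1), (2, 1), (3, 1), (5, 1), (7, 1), (11, 1), (21, 1), (15, 1), (23, 1), (277, 1), (31, 1), (47, 1), (279, 1), (63, 1), (791, 1)]
(.cut 6 [(0, 1), (1, 1), (2, 1), (3, 1), (5, 1), (7, 1), (11, 1), (21, 1), (15, 1), (23, 1), (277, 1), (31, 1), (47, 1), (279, 1), (63, 1), (287, 1), (791, 1), (319, 1)]
(.lp [[6], [1, 3, 5, 7], [0, 2, 4, 8, 9]] [(.mj 3 4, 15924), (.mj 4 5, 3191), (.mj 8 7, 5580), (.hz 13 15, 871866), (.hz 13 31, 730609), (.hz 13 287, 3346890), (.hz 6 791, 945585), (.hz 10 239, 165283), (.rw 8, 5), (.rw 9, 2)]))))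
(.ask 791
(.mark 831 [6, 7, 10]
(.cut 6 [(0, 1), (1, 1), (2, 1), (3, 1), (5, 1), (7, 1), (11, 1), (21, 1), (15, 1), (23, 1), (277, 1), (31, 1), (47, 1), (279, 1), (63, 1), (791, 1), (1815, 1)]
(.lp [[6], [1, 3, 5, 7], [0, 2, 4, 8, 9, 10]] [(.mj 3 4, 1681), (.mj 4 5, 30), (.mj 5 8, 24540), (.mj 9 6, 16357), (.mj 9 7, 16113), (.rw 6, 10), (.hz 8 79, 70263), (.hz 8 111, 53276), (.hz 11 175, 1440551), (.hz 6 1815, 5831638), (.rw 8, 19)])))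
(.cut 6 [(0, 1), (1, 1), (2, 1), (3, 1), (5, 1), (7, 1), (11, 1), (21, 1), (15, 1), (23, 1), (277, 1), (31, 1), (47, 1), (279, 1), (63, 1), (791, 1)]
(.cut 6 [(0, 1), (1, 1), (2, 1), (3, 1), (5, 1), (7, 1), (11, 1), (21, 1), (15, 1), (23, 1), (277, 1), (31, 1), (47, 1), (279, 1), (63, 1), (287, 1), (791, 1), (319, 1)]
(.lp [[6], [1, 3, 5, 7], [0, 2, 4, 8, 9]] [(.mj 5 8, 44052), (.mj 9 6, 18252), (.mj 9 7, 18113), (.rw 6, 27), (.hz 10 175, 144103), (.hz 12 191, 2651487), (.hz 10 239, 9252455), (.rw 8, 28), (.rw 9, 12)]))))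
.fin))
(.haz 6 287 3 50
(.haz 4 79 9 25
(.ask 287
(.ref 2)
(.ask 319
(.mark 319 [6, 7, 9]
(.spn
(.haz 7 63 7 25
(.lp [[6], [1, 3, 5, 7], [0, 2, 4, 8, 9]] [(.mj 5 8, 15), (.mj 6 7, 38), (.mj 6 9, 2), (.mj 8 6, 30), (.hz 15 63, 5209), (.hz 15 127, 27934), (.hz 15 319, 16859), (.hz 15 831, 28378)])
(.haz 7 831 7 50
(.haz 4 79 2 5
(.haz 7 127 7 50
(.haz 4 111 12 25
(.haz 6 447 3 25
(.haz 7 127 9 50
(.ask 831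
(.haz 7 831 1 5
(.haz 6 447 9 50
(.maj 7 10
(.haz 5 79 13 50
(.haz 6 175 3 25
(.maj 7 9
(.haz 9 383 2 5
(.mark 831 [6, 7, 10]
(.lp [[6], [1, 3, 5, 7], [0, 2, 4, 8, 9, 10]] [(.mj 5 8, 26), (.mj 6 7, 36), (.mj 7 9, 23), (.mj 8 6, 47), (.hz 15 47, 808), (.hz 15 63, 5340), (.hz 25 175, 5922), (.hz 21 127, 13059), (.hz 26 383, 246451), (.hz 22 831, 101182), (.hz 22 1855, 126478)]))
(.mark 831 [6, 7, 10]
(.lp [[6], [1, 3, 5, 7], [0, 2, 4, 8, 9, 10]] [(.mj 5 8, 51), (.mj 6 7, 33), (.mj 7 9, 2), (.mj 8 6, 49), (.hz 15 47, 1458), (.hz 15 63, 7515), (.hz 25 175, 6139), (.hz 21 127, 13389), (.hz 26 319, 67410), (.hz 22 831, 92911), (.hz 22 1855, 116138)])))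
(.lp [[6], [1, 3, 5, 7], [0, 2, 4, 8, 9, 10]] [(.mj 5 8, 49), (.mj 6 9, 38), (.mj 8 6, 76), (.mj 9 7, 54), (.hz 25 175, 22890), (.hz 21 127, 13958), (.hz 25 191, 64093), (.hz 21 383, 63994), (.hz 22 831, 231807)]))
(.mark 831 [6, 7, 10]
(.lp [[6], [1, 3, 5, 7], [0, 2, 4, 8, 9, 10]] [(.mj 3 4, 10), (.mj 6 7, 2), (.mj 6 9, 1), (.hz 25 15, 2382), (.hz 15 47, 859), (.hz 15 63, 1033), (.hz 21 127, 212), (.hz 21 383, 135), (.hz 22 831, 10792), (.hz 22 1855, 6727)])))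
(.lp [[6], [1, 3, 5, 7], [0, 2, 4, 8, 9, 10]] [(.mj 5 6, 1), (.mj 5 8, 5), (.mj 6 9, 4), (.mj 8 6, 14), (.hz 24 15, 1688), (.hz 17 79, 2041), (.hz 23 447, 9669), (.hz 22 831, 21871)]))
(.lp [[6], [1, 3, 5, 7], [0, 2, 4, 8, 9, 10]] [(.mj 5 8, 4), (.mj 6 9, 3), (.mj 8 6, 8), (.mj 10 7, 6), (.hz 15 47, 307), (.hz 15 63, 980), (.hz 19 111, 179), (.hz 21 127, 7363), (.hz 21 383, 7079), (.hz 23 447, 463), (.hz 22 831, 59285), (.hz 23 959, 9788)]))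
(.mark 831 [6, 7, 10]
(.lp [[6], [1, 3, 5, 7], [0, 2, 4, 8, 9, 10]] [(.mj 5 8, 92), (.mj 6 7, 246), (.mj 6 9, 124), (.mj 8 6, 185), (.hz 23 15, 3123), (.hz 23 31, 6306), (.hz 23 47, 3808), (.hz 23 287, 11060), (.hz 21 127, 56189), (.hz 23 319, 106105), (.hz 20 447, 34496), (.hz 22 831, 1416417), (.hz 22 1855, 862391)])))
(.lp [[6], [1, 3, 5, 7], [0, 2, 4, 8, 9, 10]] [(.mj 5 8, 45), (.mj 6 9, 22), (.mj 8 6, 40), (.hz 22 47, 29360), (.hz 22 63, 89547), (.hz 19 111, 1214), (.hz 21 127, 11984), (.hz 22 319, 95769), (.hz 16 831, 13017)]))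
(.lp [[6], [1, 3, 5, 7], [0, 2, 4, 8, 9]] [(.mj 5 8, 57), (.mj 6 7, 24), (.mj 8 6, 50), (.hz 15 47, 3789), (.hz 15 63, 12083), (.hz 21 127, 17201), (.hz 21 383, 8192)]))
(.lp [[6], [1, 3, 5, 7], [0, 2, 4, 8, 9]] [(.mj 5 8, 363), (.mj 6 9, 181), (.mj 8 6, 337), (.hz 21 47, 23443), (.hz 21 63, 166269), (.hz 19 111, 2367), (.hz 18 127, 179332), (.hz 16 831, 106417)]))
(.lp [[6], [1, 3, 5, 7], [0, 2, 4, 8, 9]] [(.mj 3 4, 1), (.mj 6 7, 3), (.mj 6 9, 2), (.hz 20 15, 329), (.hz 20 31, 522), (.hz 20 47, 379), (.hz 15 47, 13), (.hz 20 63, 1023), (.hz 20 287, 778), (.hz 20 319, 2047), (.hz 16 831, 2220)]))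
(.lp [[6], [1, 3, 5, 7], [0, 2, 4, 8, 9]] [(.mj 8 6, 7), (.hz 19 47, 5254), (.hz 15 47, 3571), (.hz 17 79, 6000), (.hz 17 111, 23863), (.hz 10 175, 2165), (.hz 18 127, 2102)]))
(.lp [[6], [1, 3, 5, 7], [0, 2, 4, 8, 9]] [(.mj 3 4, 13), (.mj 5 8, 26), (.mj 6 9, 15), (.mj 8 6, 33), (.hz 18 47, 2250), (.hz 18 63, 13256), (.hz 16 831, 8580)]))
(.lp [[6], [1, 3, 5, 7], [0, 2, 4, 8, 9]] [(.mj 0 1, 1300), (.mj 4 5, 66), (.mj 6 9, 1), (.mj 8 6, 100), (.hz 17 15, 413479), (.hz 15 47, 32629), (.hz 14 79, 54408), (.hz 14 111, 33937), (.hz 11 175, 7794), (.hz 11 191, 24511), (.hz 13 447, 4085), (.hz 16 831, 333)]))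
(.lp [[6], [1, 3, 5, 7], [0, 2, 4, 8, 9]] [(.mj 3 4, 4), (.mj 5 8, 38), (.mj 6 9, 23), (.mj 8 6, 40), (.hz 16 47, 2614), (.hz 16 63, 7705), (.hz 11 175, 3117), (.hz 16 319, 7509), (.hz 13 447, 9476)])))
(.ref 3)
(.ask 831
(.mark 831 [6, 7, 10]
(.spn
(.lp [[6], [1, 3, 5, 7], [0, 2, 4, 8, 9, 10]] [(.mj 9 6, 371), (.rw 8, 1)])
(.lp [[6], [1, 3, 5, 7], [0, 2, 4, 8, 9, 10]] [(.mj 3 4, 76253), (.mj 9 7, 11694), (.rw 7, 16), (.rw 8, 35), (.hz 14 79, 5199436), (.hz 13 287, 6840024), (.hz 14 111, 3327639), (.hz 11 175, 1827230), (.hz 13 319, 9046642), (.hz 13 447, 42399815)])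
(.maj 6 7
(.cut 6 [(0, 1), (1, 1), (2, 1), (3, 1), (5, 1), (7, 1), (11, 1), (21, 1), (15, 1), (23, 1), (277, 1), (31, 1), (47, 1), (279, 1), (63, 1), (287, 1), (319, 1)]
(.lp [[6], [1, 3, 5, 7], [0, 2, 4, 8, 9, 10]] [(.mj 5 8, 15312), (.mj 10 6, 1439), (.rw 8, 4), (.hz 10 175, 1461180), (.hz 11 175, 112398), (.hz 12 191, 27200426), (.rw 9, 19)]))
(.cut 6 [(0, 1), (1, 1), (2, 1), (3, 1), (5, 1), (7, 1), (11, 1), (21, 1), (15, 1), (23, 1), (277, 1), (31, 1), (47, 1), (279, 1), (63, 1), (287, 1), (319, 1)]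
(.cut 7 [(0, 1), (1, 1), (2, 1), (3, 1), (5, 1), (7, 1), (11, 1), (21, 1), (15, 1), (23, 1), (277, 1), (31, 1), (47, 1), (279, 1), (63, 1), (287, 1), (319, 1)]
(.lp [[6], [1, 3, 5, 7], [0, 2, 4, 8, 9, 10]] [(.mj 3 4, 21875), (.mj 10 6, 1063), (.mj 10 7, 1732), (.rw 8, 4), (.hz 14 79, 1491588), (.hz 13 287, 1962232), (.hz 14 111, 954617), (.hz 10 175, 2972152), (.hz 13 319, 2595256), (.hz 14 239, 1002539), (.hz 12 255, 36178380), (.rw 9, 5), (.rw 10, 10)]))))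
.fin))
(.lp [[6], [1, 3, 5, 7], [0, 2, 4, 8, 9]] [(.mj 9 7, 1), (.rw 7, 1)]))
.fin))
(.spn
(.lp [[6], [0, 2, 4, 8], [1, 3, 5, 7]] [(.mj 5 8, 1), (.mj 6 7, 6), (.mj 8 6, 10)])
(.haz 6 63 3 25
(.lp [[6], [0, 2, 4, 8], [1, 3, 5, 7]] [(.mj 7 6, 4), (.mj 8 7, 6), (.hz 15 191, 10518)])
(.haz 7 383 17 25
(.cut 6 [(0, 1), (1, 1), (2, 1), (3, 1), (5, 1), (7, 1), (11, 1), (21, 1), (15, 1), (23, 1), (277, 1), (31, 1), (47, 1), (279, 1), (63, 1), (287, 1), (319, 1)]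
(.lp [[6], [0, 2, 4, 8], [1, 3, 5, 7]] [(.mj 8 7, 6549), (.hz 15 15, 270436), (.hz 15 31, 1525830), (.hz 15 47, 307314), (.hz 15 63, 78784), (.hz 16 383, 2709704), (.rw 8, 4)]))
(.lp [[6], [0, 2, 4, 8], [1, 3, 5, 7]] [(.mj 7 6, 793), (.rw 7, 1), (.hz 16 319, 2740967)])))
.fin
.fin)))
(.lp [[6], [0, 2, 4, 8], [1, 3, 5, 7]] [(.mj 0 1, 40885), (.mj 4 5, 198), (.mj 8 7, 44), (.rw 6, 1), (.hz 14 15, 1340138), (.hz 8 79, 465229), (.hz 8 111, 352756), (.hz 10 175, 1451851), (.hz 11 175, 6827), (.hz 11 191, 25943)]))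
(.cut 6 [(0, 1), (1, 1), (2, 1), (3, 1), (5, 1), (7, 1), (11, 1), (21, 1), (15, 1), (23, 1), (277, 1), (31, 1), (279, 1)]
(.lp [[6], [0, 2, 4, 8], [1, 3, 5, 7]] [(.hz 13 15, 206073), (.hz 13 31, 164858), (.hz 13 287, 206073), (.rw 7, 2)])))))
(.lp [[6], [0, 2, 4, 8], [1, 3, 5, 7]] [(.mj 4 5, 497), (.mj 8 7, 131), (.rw 6, 1), (.hz 12 63, 4662178)]))
(.cut 6 [(0, 1), (1, 1), (2, 1), (3, 1), (5, 1), (7, 1), (11, 1), (21, 1), (15, 1), (23, 1), (277, 1), (31, 1), (279, 1)]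
(.lp [[6], [0, 2, 4, 8], [1, 3, 5, 7]] [(.mj 3 4, 3047), (.mj 4 5, 1409), (.mj 5 8, 384), (.mj 8 7, 506), (.hz 11 15, 384605), (.rw 7, 1)])))
(.lp [[6], [0, 2, 4, 8], [1, 3, 5, 7]] [(.mj 0 1, 4), (.hz 10 5, 131), (.hz 10 7, 77)]))
(.lp [[6], [0, 2, 4, 8], [1, 3, 5, 7]] [(.mj 0 1, 1), (.hz 9 5, 8), (.hz 9 7, 5)]))
(.lp [[6], [0, 2, 4, 8], [1, 3, 5, 7]] [(.mj 0 1, 1), (.hz 8 5, 8), (.hz 8 7, 5)]))

theorem run148 : run P3488 (leaf3 218 625) (cutRow P3488) [s147, s142, s146, s145] t148 s148 = true := by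
  decide +kernel

theorem bad148 : Bad P3488 s148 :=
  run_sound (leaf3_sound P3488 rfl rfl) (cutRow_sound P3488) (
    List.forall_mem_cons.2 ⟨bad147, List.forall_mem_cons.2 ⟨bad142, List.forall_mem_cons.2 ⟨bad146, List.forall_mem_cons.2 ⟨bad145, fun _ h => absurd h List.not_mem_nil⟩⟩⟩⟩) t148 s148 run148

/-- the state above piece 16 of the tree -/
def s16 : St := ⟨[0, 0, 1, 1, 2, 7], [11, 13, 7, 5, 9, 3, 1, 0], [0, 1, 2, 3],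
  [],
  [⟨true, 1, 9, 7, 50⟩, ⟨true, 2, 11, 3, 50⟩, ⟨true, 2, 9, 9, 50⟩, ⟨true, 3, 3, 1, 5⟩, ⟨true, 4, 39, 1, 20⟩],
  [.spn 0 0 651200, .spn 1 1 140426, .spn 3 2 140426, .spn 7 3 62723]⟩

/-- piece 16 of the tree -/
noncomputable def t16 : WN.Tree :=
(.ask 15
(.mark 15 [4, 5, 6]
(.spn
(.haz 6 47 3 10
(.haz 5 15 3 10
(.lp [[1, 4], [3, 6], [0, 2, 5]] [(.mj 0 1, 192), (.mj 2 3, 37), (.mj 4 5, 32), (.mj 4 6, 13), (.hz 6 15, 1949), (.hz 6 79, 24975)])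
(.haz 3 23 3 8
(.lp [[1, 4], [3, 6], [0, 2, 5]] [(.mj 0 1, 664), (.mj 2 3, 573), (.mj 4 6, 31), (.hz 6 7, 59285), (.hz 6 15, 9088), (.hz 7 23, 197615), (.hz 5 47, 21270)])
(.lp [[1, 4], [3, 6], [0, 2, 5]] [(.mj 0 1, 1), (.hz 7 7, 149), (.hz 6 7, 71), (.hz 3 19, 132)])))
(.lp [[1, 4], [3, 6], [0, 2, 5]] [(.mj 0 1, 40), (.mj 2 3, 10), (.mj 4 5, 7), (.hz 5 15, 3626), (.hz 4 39, 46)]))
(.haz 5 95 3 20
(.ask 39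
(.ref 0)
(.haz 3 23 3 10
(.ask 47
(.mark 47 [4, 6, 7]
(.spn
(.haz 7 111 3 10
(.ask 18
(.mark 63 [6, 7, 8]
(.lp [[3, 6], [1, 4, 8], [0, 2, 5, 7]] [(.mj 0 1, 9878), (.mj 2 3, 21540), (.mj 4 7, 2097), (.mj 5 4, 2746), (.rw 5, 1), (.hz 3 275, 6173670), (.hz 6 279, 18179235), (.hz 4 111, 3867414), (.hz 7 111, 2490177)]))
(.ask 19
(.mark 63 [6, 7, 8]
(.lp [[3, 6], [1, 4, 8], [0, 2, 5, 7]] [(.mj 2 3, 7882), (.mj 4 7, 888), (.mj 5 4, 2108), (.rw 5, 1), (.hz 3 275, 3086948), (.hz 6 279, 6462313), (.hz 4 111, 2007786), (.hz 7 111, 1054551)]))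
(.ask 27
(.mark 63 [6, 7, 8]
(.lp [[3, 6], [1, 4, 8], [0, 2, 5, 7]] [(.mj 2 3, 1)]))
(.haz 4 111 3 25
(.haz 7 111 21 50
(.haz 4 79 2 25
(.haz 4 47 13 50
(.lp [[1, 4], [3, 6], [0, 2, 5, 7]] [(.mj 2 3, 11), (.mj 5 4, 12), (.hz 6 23, 448), (.hz 11 47, 2292), (.hz 10 79, 7031)])
(.ask 23
(.mark 63 [6, 7, 8]
(.lp [[3, 6], [1, 4, 8], [0, 2, 5, 7]] [(.mj 2 3, 7652), (.mj 4 6, 486), (.mj 4 7, 2514), (.mj 5 4, 4566), (.rw 5, 1), (.hz 10 79, 2460977), (.hz 6 279, 5136460), (.hz 9 111, 663880)]))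
(.lp [[1, 4], [3, 6], [0, 2, 5, 7]] [(.mj 2 3, 15), (.mj 4 7, 3), (.mj 5 4, 1), (.hz 11 39, 922), (.hz 8 111, 1267), (.hz 9 111, 781)])))
(.lp [[1, 4], [3, 6], [0, 2, 5, 7]] [(.mj 2 3, 5), (.mj 4 7, 1), (.hz 10 7, 662), (.hz 9 111, 266)]))
(.lp [[1, 4], [3, 6], [0, 2, 5, 7]] [(.mj 2 3, 10), (.mj 4 6, 15), (.mj 5 4, 28), (.hz 9 47, 3541), (.hz 8 111, 12877), (.hz 7 111, 10181)]))
(.lp [[1, 4], [3, 6], [0, 2, 5, 7]] [(.mj 2 3, 8), (.mj 4 6, 1), (.mj 4 7, 2), (.hz 8 7, 683), (.hz 8 39, 435), (.hz 7 111, 2643)])))))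
(.lp [[1, 4], [3, 6], [0, 2, 5, 7]] [(.mj 2 3, 20), (.mj 4 6, 54), (.mj 5 4, 82), (.hz 7 47, 46623), (.hz 4 111, 46191)]))
(.ask 18
(.mark 63 [6, 7, 8]
(.lp [[3, 6], [1, 4, 8], [0, 2, 5, 7]] [(.mj 0 1, 51), (.mj 2 3, 97), (.mj 6 4, 4), (.mj 6 7, 5), (.hz 6 23, 12150), (.hz 3 275, 32077), (.hz 6 279, 61238), (.hz 4 111, 8449), (.hz 4 175, 7248)]))
(.cut 4 [(0, 1), (1, 1), (2, 1), (3, 1), (5, 1), (9, 1), (7, 1), (11, 1), (13, 1), (15, 1), (39, 1), (47, 1), (79, 1)]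
(.lp [[1, 4], [3, 6], [0, 2, 5, 7]] [(.mj 2 3, 42807), (.mj 6 4, 7437), (.mj 6 7, 1908), (.hz 3 19, 19851082), (.hz 6 23, 7487725), (.hz 6 55, 5746329), (.hz 4 175, 3779680), (.rw 6, 2)])))
(.ask 175
(.mark 175 [4, 6, 8]
(.spn
(.lp [[1, 4], [3, 6], [0, 2, 5, 7, 8]] [(.mj 7 4, 281), (.rw 6, 1)])
(.cut 4 [(0, 1), (1, 1), (2, 1), (3, 1), (5, 1), (9, 1), (7, 1), (11, 1), (13, 1), (15, 1), (39, 1), (47, 1), (175, 1)]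
(.lp [[1, 4], [3, 6], [0, 2, 5, 7, 8]] [(.mj 6 4, 1358), (.mj 6 8, 1358), (.mj 7 6, 3060), (.rw 6, 1), (.rw 7, 5)]))
(.ask 431
(.mark 431 [4, 6, 9]
(.spn
(.lp [[1, 4], [3, 6], [0, 2, 5, 7, 8, 9]] [(.mj 8 4, 151), (.rw 7, 1)])
(.lp [[1, 4], [3, 6], [0, 2, 5, 7, 8, 9]] [(.mj 8 6, 591), (.rw 7, 1)])
(.cut 4 [(0, 1), (1, 1), (2, 1), (3, 1), (5, 1), (9, 1), (7, 1), (11, 1), (13, 1), (15, 1), (39, 1), (47, 1), (175, 1)]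
(.lp [[1, 4], [3, 6], [0, 2, 5, 7, 8, 9]] [(.mj 2 3, 1842), (.mj 9 4, 697), (.hz 4 47, 175863), (.hz 4 175, 9770), (.rw 8, 2)]))
.fin))
(.lp [[1, 4], [3, 6], [0, 2, 5, 7, 8]] [(.mj 8 6, 1), (.rw 6, 1)]))
.fin))
(.lp [[1, 4], [3, 6], [0, 2, 5, 7]] [(.mj 7 6, 1), (.rw 5, 1)]))
.fin))
(.spn
(.lp [[1, 4], [3, 6], [0, 2, 5]] [(.mj 4 6, 2), (.mj 5 4, 3)])
(.cut 4 [(0, 1), (1, 1), (2, 1), (3, 1), (5, 1), (9, 1), (7, 1), (11, 1), (13, 1), (15, 1), (39, 1), (47, 1)]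
(.lp [[1, 4], [3, 6], [0, 2, 5]] [(.mj 2 3, 1339), (.mj 6 4, 564), (.rw 6, 1)]))
.fin
.fin))
(.lp [[1, 4], [3, 6], [0, 2, 5]] [(.mj 3 4, 1), (.hz 6 7, 618), (.hz 3 23, 505)])))
(.lp [[1, 4], [3, 6], [0, 2, 5]] [(.mj 5 4, 1), (.mj 5 6, 1), (.hz 5 7, 100), (.hz 5 15, 274)]))
(.haz 3 39 13 40
(.ask 18
(.mark 23 [3, 5, 7]
(.lp [[3, 6], [0, 2, 5], [1, 4, 7]] [(.mj 0 1, 23), (.mj 2 3, 34), (.mj 6 5, 8), (.hz 3 19, 14127), (.hz 5 39, 1072), (.hz 4 39, 17), (.hz 3 147, 28253), (.hz 4 47, 4766)]))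
(.lp [[1, 4], [3, 6], [0, 2, 5]] [(.mj 2 3, 12992), (.mj 6 5, 241), (.rw 4, 2), (.hz 3 19, 9101765), (.hz 3 23, 3212387), (.hz 5 39, 435414), (.hz 4 39, 45154), (.hz 4 47, 150513)]))
(.lp [[1, 4], [3, 6], [0, 2, 5]] [(.mj 6 5, 283), (.rw 4, 1), (.hz 5 7, 216186), (.hz 3 19, 270827), (.hz 3 23, 1456287), (.hz 3 39, 1738888)]))
.fin))
(.spn
(.lp [[3], [1, 4], [0, 2, 5]] [(.mj 0 1, 5), (.mj 2 3, 1), (.mj 4 5, 1)])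
(.ask 39
(.ref 1)
(.ask 47
(.haz 3 23 3 10
(.haz 3 55 29 50
(.ask 47
(.mark 47 [4, 6, 7]
(.spn
(.haz 6 175 6 25
(.ask 175
(.haz 7 63 3 10
(.mark 175 [4, 6, 8]
(.ask 431
(.mark 431 [4, 6, 9]
(.lp [[1, 4], [3, 6], [0, 2, 5, 7, 8, 9]] [(.mj 4 6, 351), (.mj 5 4, 500), (.mj 6 7, 154), (.hz 6 55, 3394), (.hz 8 63, 238954), (.hz 7 175, 55683), (.hz 7 191, 23137), (.hz 7 431, 73267), (.hz 7 943, 96403)]))
(.lp [[1, 4], [3, 6], [0, 2, 5, 7, 8]] [(.mj 2 3, 1), (.mj 4 6, 14), (.mj 5 4, 21), (.mj 6 7, 4), (.hz 7 175, 1380), (.hz 7 191, 1919), (.hz 7 431, 1816)])))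
(.mark 175 [4, 6, 8]
(.lp [[1, 4], [3, 6], [0, 2, 5, 7, 8]] [(.mj 2 3, 724), (.mj 4 6, 2800), (.mj 5 4, 3867), (.hz 8 47, 1111927), (.hz 8 63, 462020), (.hz 7 175, 585225), (.hz 7 431, 770033)])))
(.lp [[1, 4], [3, 7], [0, 2, 5, 6]] [(.mj 4 6, 4), (.mj 5 4, 6), (.mj 6 7, 1)]))
(.lp [[1, 4], [3, 7], [0, 2, 5, 6]] [(.mj 2 3, 4), (.mj 5 4, 19), (.mj 6 7, 13), (.hz 7 47, 4101), (.hz 4 175, 15772)]))
(.ask 111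
(.mark 111 [4, 7, 8]
(.spn
(.lp [[1, 4], [3, 7], [0, 2, 5, 6, 8]] [(.mj 6 4, 281), (.rw 6, 1)])
(.maj 4 8
(.cut 4 [(0, 1), (1, 1), (2, 1), (3, 1), (5, 1), (9, 1), (7, 1), (11, 1), (13, 1), (15, 1), (39, 1), (47, 1), (111, 1)]
(.lp [[1, 4], [3, 7], [0, 2, 5, 6, 8]] [(.mj 2 3, 27393), (.mj 6 7, 5767), (.mj 7 4, 12845), (.hz 4 367, 19823898), (.rw 7, 32)]))
(.ask 175
(.mark 239 [4, 8, 9]
(.cut 4 [(0, 1), (1, 1), (2, 1), (3, 1), (5, 1), (9, 1), (7, 1), (11, 1), (13, 1), (15, 1), (39, 1), (47, 1), (175, 1)]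
(.cut 4 [(0, 1), (1, 1), (2, 1), (3, 1), (5, 1), (9, 1), (7, 1), (11, 1), (13, 1), (15, 1), (39, 1), (47, 1), (111, 1), (175, 1)]
(.lp [[1, 4], [3, 7, 9], [0, 2, 5, 6, 8]] [(.mj 2 3, 21435), (.mj 6 7, 794), (.mj 7 8, 1942), (.mj 8 4, 8707), (.hz 4 687, 809886), (.hz 4 751, 7079973), (.rw 7, 22), (.rw 8, 6)]))))
(.cut 4 [(0, 1), (1, 1), (2, 1), (3, 1), (5, 1), (9, 1), (7, 1), (11, 1), (13, 1), (15, 1), (39, 1), (47, 1)]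
(.cut 4 [(0, 1), (1, 1), (2, 1), (3, 1), (5, 1), (9, 1), (7, 1), (11, 1), (13, 1), (15, 1), (39, 1), (47, 1), (111, 1), (175, 1)]
(.lp [[1, 4], [3, 7], [0, 2, 5, 6, 8]] [(.mj 2 3, 181380), (.mj 7 8, 2914), (.mj 8 4, 68870), (.hz 4 175, 40063876), (.rw 7, 116), (.rw 8, 78)])))))
(.ask 367
(.mark 367 [4, 7, 9]
(.spn
(.lp [[1, 4], [3, 7], [0, 2, 5, 6, 8, 9]] [(.mj 8 4, 151), (.rw 7, 1)])
(.lp [[1, 4], [3, 7], [0, 2, 5, 6, 8, 9]] [(.mj 8 7, 5956), (.rw 7, 10), (.hz 4 175, 9991974), (.hz 4 239, 14828131)])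
(.cut 4 [(0, 1), (1, 1), (2, 1), (3, 1), (5, 1), (9, 1), (7, 1), (11, 1), (13, 1), (15, 1), (39, 1), (47, 1), (111, 1)]
(.lp [[1, 4], [3, 7], [0, 2, 5, 6, 8, 9]] [(.mj 2 3, 181380), (.mj 9 4, 68870), (.mj 9 7, 2914), (.hz 4 111, 20031938), (.rw 8, 194)]))
.fin))
(.lp [[1, 4], [3, 7], [0, 2, 5, 6, 8]] [(.mj 8 7, 1), (.rw 6, 1)]))
.fin))
(.lp [[1, 4], [3, 7], [0, 2, 5, 6]] [(.mj 2 3, 1622), (.mj 6 7, 1474), (.rw 5, 2)]))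
(.con 7 6)
.fin))
(.spn
(.lp [[3], [1, 4], [0, 2, 5, 6]] [(.mj 4 6, 2), (.mj 5 4, 3)])
(.ask 111
(.haz 4 3 3 25
(.lp [[3], [1, 4], [0, 2, 5, 6, 7]] [(.mj 2 3, 12), (.mj 6 4, 7), (.hz 7 11, 2038), (.hz 7 15, 1637), (.hz 7 47, 1860)])
(.ask 111
(.mark 111 [4, 7, 8]
(.spn
(.lp [[1, 4], [3, 8], [0, 2, 5, 6, 7]] [(.rw 5, 1), (.rw 6, 3)])
(.ask 239
(.mark 239 [4, 8, 9]
(.spn
(.lp [[1, 4], [3, 8], [0, 2, 5, 6, 7, 9]] [(.mj 7 4, 151), (.rw 7, 1)])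
(.cut 4 [(0, 1), (1, 1), (2, 1), (3, 1), (5, 1), (9, 1), (7, 1), (11, 1), (13, 1), (15, 1), (39, 1), (47, 1)]
(.lp [[1, 4], [3, 8], [0, 2, 5, 6, 7, 9]] [(.mj 2 3, 123179), (.mj 8 4, 42761), (.rw 6, 4), (.hz 4 239, 13964196), (.hz 4 367, 734958), (.hz 4 751, 14699154), (.rw 8, 126)]))
(.cut 4 [(0, 1), (1, 1), (2, 1), (3, 1), (5, 1), (9, 1), (7, 1), (11, 1), (13, 1), (15, 1), (39, 1), (47, 1), (111, 1), (239, 1)]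
(.lp [[1, 4], [3, 8], [0, 2, 5, 6, 7, 9]] [(.mj 2 3, 3380), (.mj 9 4, 1229), (.rw 8, 4)]))
.fin))
(.lp [[1, 4], [3, 8], [0, 2, 5, 6, 7]] [(.mj 7 8, 905), (.rw 6, 1)]))
(.con 8 7)
.fin))
(.spn
(.lp [[3], [1, 4], [0, 2, 5, 6, 7]] [(.mj 6 4, 1), (.rw 6, 1)])
(.ask 239
(.maj 4 8
(.ask 239
(.mark 239 [4, 8, 9]
(.spn
(.lp [[1, 4], [3, 9], [0, 2, 5, 6, 7, 8]] [(.rw 6, 1), (.rw 7, 3)])
(.con 8 4)
(.con 9 8)
.fin))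
(.lp [[3], [1, 4], [0, 2, 5, 6, 7, 8]] [(.mj 4 8, 1013), (.rw 6, 1)]))
(.cut 4 [(0, 1), (1, 1), (2, 1), (3, 1), (5, 1), (9, 1), (7, 1), (11, 1), (13, 1), (15, 1), (39, 1), (47, 1), (111, 1)]
(.lp [[3], [1, 4], [0, 2, 5, 6, 7, 8]] [(.mj 2 3, 3380), (.mj 8 4, 1229), (.rw 7, 4)])))
(.lp [[3], [1, 4], [0, 2, 5, 6, 7]] [(.mj 7 4, 1)]))
.fin
.fin)))
(.lp [[3], [1, 4], [0, 2, 5, 6]] [(.mj 6 4, 1)]))
.fin
.fin))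
(.lp [[3], [1, 4], [0, 2, 5, 6]] [(.mj 3 5, 2), (.mj 5 4, 2), (.hz 6 39, 283)]))
(.lp [[3], [1, 4], [0, 2, 5, 6]] [(.mj 3 4, 1), (.hz 5 7, 618), (.hz 3 23, 505)]))
(.lp [[3], [1, 4], [0, 2, 5]] [(.mj 5 4, 1)])))
.fin
.fin))

theorem run16 : run P3488 (leaf3 218 625) (cutRow P3488) [s14, s15] t16 s16 = true := by
  decide +kernel

theorem bad16 : Bad P3488 s16 :=
  run_sound (leaf3_sound P3488 rfl rfl) (cutRow_sound P3488) (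
    List.forall_mem_cons.2 ⟨bad14, List.forall_mem_cons.2 ⟨bad15, fun _ h => absurd h List.not_mem_nil⟩⟩) t16 s16 run16

end Pool.Agent.WN.Data
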