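import Pool.Agent.WN.CutRow
import Pool.Agent.WN.LeafRow
import Pool.Agent.Helper99.WN.ParDef
import Pool.Agent.WN.Data.D13
import Pool.Agent.WN.Data.D15
import Pool.Agent.WN.Data.D18
import Pool.Agent.WN.Data.D20
import Pool.Agent.WN.Data.D23
import Pool.Agent.WN.Data.D26
import Pool.Agent.WN.Data.D28
import Pool.Agent.WN.Data.D31
import Pool.Agent.WN.Data.D33

/-!
# The search tree, part 38
-/

set_option autoImplicit false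

namespace Pool.Agent.WN.Data

open Pool.Agent.W3 Pool.Agent.WN Pool.Agent.Helper99.WN

/-- the state above piece 122 of the tree -/
def s122 : St := ⟨[0, 0, 1, 3, 5, 7, 15, 23], [21, 15, 11, 7, 5, 3, 2, 1, 0], [0, 1, 2, 3, 4],
  [],
  [⟨true, 2, 3, 3, 10⟩, ⟨true, 1, 5, 2, 5⟩, ⟨true, 2, 3, 23, 50⟩, ⟨true, 1, 5, 12, 25⟩, ⟨true, 4, 39, 4, 25⟩, ⟨true, 4, 39, 9, 50⟩, ⟨true, 4, 15, 4, 25⟩, ⟨true, 4, 15, 9, 50⟩, ⟨true, 1, 21, 29, 50⟩, ⟨true, 3, 39, 6, 25⟩, ⟨true, 3, 39, 3, 10⟩, ⟨true, 4, 39, 6, 25⟩, ⟨true, 3, 39, 17, 50⟩, ⟨true, 3, 39, 19, 50⟩, ⟨true, 3, 39, 2, 5⟩, ⟨true, 3, 23, 2, 5⟩, ⟨true, 4, 79, 6, 25⟩],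
  [.spn 0 0 651200, .spn 1 1 302400, .spn 3 2 302400, .spn 7 3 140426, .spn 15 4 140426]⟩

/-- piece 122 of the tree -/
noncomputable def t122 : WN.Tree :=
(.mark 31 [5, 6, 7]
(.spn
(.haz 5 79 7 50
(.haz 6 159 6 25
(.haz 4 39 7 25
(.ask 79
(.ask 39
(.mark 127 [7, 8, 9]
(.lp [[5, 9], [0, 2, 4, 7], [1, 3, 6, 8]] [(.mj 3 4, 5), (.mj 4 5, 3), (.mj 5 6, 3), (.hz 19 39, 276), (.hz 17 79, 9), (.hz 19 551, 362), (.hz 18 159, 1094), (.hz 16 335, 171), (.hz 17 335, 231)]))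
(.ask 55
(.mark 127 [7, 8, 9]
(.lp [[5, 9], [0, 2, 4, 7], [1, 3, 6, 8]] [(.mj 3 4, 8), (.mj 4 5, 3), (.mj 5 6, 5), (.hz 18 159, 1374), (.hz 16 335, 502)]))
(.haz 5 79 11 50
(.haz 7 63 7 25
(.mark 79 [4, 5, 8]
(.lp [[5], [0, 2, 4, 7], [1, 3, 6, 8]] [(.mj 3 4, 36), (.mj 4 5, 31), (.mj 5 6, 20), (.mj 5 7, 4), (.hz 19 39, 564), (.hz 20 79, 1478), (.hz 21 63, 3342), (.hz 18 159, 7617), (.hz 20 335, 1895)]))
(.mark 79 [4, 5, 8]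
(.lp [[5], [0, 2, 4, 7], [1, 3, 6, 8]] [(.mj 3 4, 26), (.mj 4 5, 21), (.mj 5 6, 13), (.hz 21 31, 767), (.hz 20 79, 1015), (.hz 18 159, 4791), (.hz 20 335, 1341), (.hz 20 223, 1418)])))
(.lp [[5], [0, 2, 4, 7], [1, 3, 6, 8]] [(.mj 3 4, 10), (.mj 5 6, 8), (.hz 20 15, 1064), (.hz 16 79, 861), (.hz 17 79, 193), (.hz 18 159, 2608)]))))
(.lp [[5], [1, 3, 6], [0, 2, 4, 7]] [(.mj 3 4, 117), (.mj 4 5, 77), (.mj 5 6, 49), (.hz 19 39, 5573), (.hz 17 79, 3000), (.hz 18 159, 17439), (.hz 17 223, 5309)]))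
(.lp [[5], [1, 3, 6], [0, 2, 4, 7]] [(.mj 4 5, 177), (.mj 5 6, 98), (.hz 19 7, 19808), (.hz 14 39, 22629), (.hz 19 39, 8240), (.hz 16 79, 9172), (.hz 17 79, 11040), (.hz 18 159, 34335), (.hz 17 223, 8777)]))
(.lp [[5], [1, 3, 6], [0, 2, 4, 7]] [(.mj 3 4, 2), (.mj 4 5, 1), (.hz 18 15, 150), (.hz 11 39, 193), (.hz 18 31, 95), (.hz 17 79, 63)]))
(.lp [[5], [1, 3, 6], [0, 2, 4, 7]] [(.mj 3 4, 8), (.mj 5 6, 6), (.mj 5 7, 2), (.hz 17 7, 244), (.hz 17 15, 445), (.hz 16 79, 604)]))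
(.haz 4 39 7 25
(.haz 5 15 1 5
(.lp [[5], [1, 3, 6], [0, 2, 4, 7]] [(.mj 4 6, 2), (.mj 6 5, 11), (.hz 18 15, 7980), (.hz 18 31, 17919), (.hz 18 79, 1542), (.hz 15 151, 5780), (.hz 18 159, 28898)])
(.haz 3 39 11 25
(.haz 5 159 3 50
(.haz 6 47 3 10
(.ask 79
(.ref 0)
(.ask 95
(.mark 95 [5, 7, 8]
(.spn
(.haz 4 47 9 25
(.haz 4 47 2 5
(.haz 4 39 3 10
(.haz 3 39 23 50
(.haz 7 63 2 25
(.ask 351
(.haz 8 127 3 10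
(.haz 8 223 3 10
(.haz 5 223 3 20
(.haz 7 351 1 10
(.haz 6 159 1 2
(.ask 151
(.mark 479 [5, 9, 10]
(.lp [[5], [0, 2, 4, 7, 10], [1, 3, 6, 8, 9]] [(.mj 3 4, 12), (.mj 5 8, 8), (.mj 6 5, 14), (.hz 23 47, 13302), (.hz 31 159, 3570), (.hz 29 223, 8069), (.hz 31 1183, 33841), (.hz 30 383, 4077), (.hz 29 1247, 26782), (.hz 28 1247, 26311), (.hz 30 863, 4077)]))
(.haz 7 351 3 20
(.ask 159
(.mark 479 [5, 9, 10]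
(.lp [[5], [0, 2, 4, 7, 10], [1, 3, 6, 8, 9]] [(.mj 5 7, 130), (.mj 5 8, 303), (.mj 6 5, 545), (.hz 23 47, 23695), (.hz 31 159, 1718218), (.hz 29 223, 159812), (.hz 32 383, 111887), (.hz 29 1247, 735095), (.hz 28 1247, 867368), (.hz 32 863, 111887)]))
(.ask 223
(.mark 479 [5, 9, 10]
(.lp [[5], [0, 2, 4, 7, 10], [1, 3, 6, 8, 9]] [(.mj 5 7, 35), (.mj 5 8, 58), (.mj 6 5, 118), (.hz 23 47, 5128), (.hz 29 223, 42402), (.hz 32 383, 46409), (.hz 29 1247, 15383), (.hz 28 1247, 159816), (.hz 32 863, 46409)]))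
(.lp [[5], [0, 2, 4, 7], [1, 3, 6, 8, 9]] [(.mj 5 8, 2), (.mj 6 5, 3)])))
(.lp [[5], [0, 2, 4, 7], [1, 3, 6, 8, 9]] [(.mj 5 8, 58), (.mj 6 5, 86), (.hz 32 31, 24129), (.hz 26 63, 61165), (.hz 32 95, 30243), (.hz 30 351, 97790)])))
(.lp [[5], [0, 2, 4, 7], [1, 3, 6, 8, 9]] [(.mj 3 4, 23), (.mj 6 5, 8), (.hz 24 39, 1956), (.hz 31 31, 37760), (.hz 23 47, 21909), (.hz 20 159, 3722)]))
(.lp [[5], [0, 2, 4, 7], [1, 3, 6, 8, 9]] [(.mj 0 1, 62), (.mj 5 8, 9), (.mj 6 5, 13), (.hz 30 23, 3843), (.hz 30 31, 5872), (.hz 26 63, 7676), (.hz 30 95, 3217), (.hz 28 223, 14723)]))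
(.lp [[5], [0, 2, 4, 7], [1, 3, 6, 8, 9]] [(.mj 3 4, 18), (.mj 5 7, 5), (.mj 5 8, 15), (.hz 29 7, 712), (.hz 29 15, 2571), (.hz 24 39, 4282), (.hz 29 31, 2478), (.hz 29 79, 3025), (.hz 29 95, 6473), (.hz 20 159, 426), (.hz 28 223, 29166)]))
(.lp [[5], [0, 2, 4, 7], [1, 3, 6, 8, 9]] [(.mj 5 7, 24), (.mj 6 5, 32), (.hz 26 63, 27300), (.hz 28 95, 24567), (.hz 27 127, 1679), (.hz 26 383, 8397)]))
(.lp [[5], [0, 2, 4, 7], [1, 3, 6, 8, 9]] [(.mj 3 4, 5), (.mj 5 7, 189), (.mj 6 5, 255), (.hz 26 63, 219592), (.hz 27 95, 194565)]))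
(.lp [[5], [0, 2, 4, 7], [1, 3, 6, 8]] [(.mj 5 7, 17), (.mj 6 5, 31), (.hz 26 63, 26207), (.hz 26 127, 5887)]))
(.lp [[5], [0, 2, 4, 7], [1, 3, 6, 8]] [(.mj 0 1, 124), (.mj 5 8, 14), (.mj 6 5, 22), (.hz 26 23, 2697), (.hz 26 31, 7968), (.hz 20 159, 8647)]))
(.lp [[5], [0, 2, 4, 7], [1, 3, 6, 8]] [(.mj 3 4, 11), (.mj 6 5, 4), (.hz 25 7, 617), (.hz 19 39, 775), (.hz 24 39, 2963), (.hz 23 47, 4054)]))
(.lp [[5], [0, 2, 4, 7], [1, 3, 6, 8]] [(.mj 0 1, 224), (.mj 6 5, 8), (.hz 24 7, 8923), (.hz 19 39, 1683), (.hz 17 39, 783), (.hz 23 47, 8806)]))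
(.lp [[5], [0, 2, 4, 7], [1, 3, 6, 8]] [(.mj 0 1, 55), (.mj 4 6, 22), (.mj 6 5, 18), (.hz 23 15, 67876), (.hz 18 15, 8962), (.hz 22 47, 8375), (.hz 15 151, 24379), (.hz 20 159, 3727)]))
(.lp [[5], [0, 2, 4, 7], [1, 3, 6, 8]] [(.mj 4 6, 1), (.mj 6 5, 1), (.hz 22 15, 676), (.hz 18 15, 851), (.hz 17 47, 383), (.hz 15 151, 1009)]))
(.haz 5 95 3 25
(.lp [[5], [0, 2, 4, 7], [1, 3, 6, 8]] [(.mj 3 4, 16), (.mj 7 5, 10), (.mj 7 8, 1), (.hz 22 95, 6812), (.hz 22 223, 7861), (.hz 22 351, 4859)])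
(.cut 5 [(0, 1), (1, 1), (2, 1), (3, 1), (5, 1), (7, 1), (11, 1), (21, 1), (15, 1), (23, 1), (31, 1), (79, 1), (95, 1)]
(.lp [[5], [0, 2, 4, 7], [1, 3, 6, 8]] [(.mj 3 4, 4879), (.mj 7 8, 867), (.hz 22 7, 46692), (.hz 22 15, 278219), (.hz 17 39, 365889), (.hz 22 79, 316158), (.rw 7, 1)])))
(.ask 351
(.mark 351 [5, 7, 9]
(.spn
(.lp [[5], [0, 2, 4, 7], [1, 3, 6, 8, 9]] [(.mj 8 5, 279), (.rw 7, 1)])
(.lp [[5], [0, 2, 4, 7], [1, 3, 6, 8, 9]] [(.mj 8 7, 1286), (.rw 7, 2), (.hz 20 159, 821012), (.hz 20 223, 1386549)])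
(.ask 863
(.mark 863 [5, 7, 10]
(.spn
(.lp [[5], [0, 2, 4, 7], [1, 3, 6, 8, 9, 10]] [(.mj 9 5, 150), (.rw 8, 1)])
(.lp [[5], [0, 2, 4, 7], [1, 3, 6, 8, 9, 10]] [(.mj 9 7, 485), (.rw 8, 1)])
(.maj 5 7
(.cut 5 [(0, 1), (1, 1), (2, 1), (3, 1), (5, 1), (7, 1), (11, 1), (21, 1), (15, 1), (23, 1), (31, 1), (79, 1), (95, 1)]
(.cut 5 [(0, 1), (1, 1), (2, 1), (3, 1), (5, 1), (7, 1), (11, 1), (21, 1), (15, 1), (23, 1), (31, 1), (79, 1), (95, 1), (351, 1)]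
(.lp [[5], [0, 2, 4, 7], [1, 3, 6, 8, 9, 10]] [(.mj 0 1, 3095), (.mj 10 5, 1451), (.hz 15 151, 414496), (.hz 20 159, 828992), (.rw 9, 4), (.rw 10, 1)])))
(.cut 5 [(0, 1), (1, 1), (2, 1), (3, 1), (5, 1), (7, 1), (11, 1), (21, 1), (15, 1), (23, 1), (31, 1), (79, 1), (151, 2), (95, 1), (159, 2), (223, 1)]
(.cut 7 [(0, 1), (1, 1), (2, 1), (3, 1), (5, 1), (7, 1), (11, 1), (21, 1), (15, 1), (23, 1), (31, 1), (79, 1), (95, 1), (351, 1)]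
(.lp [[5], [0, 2, 4, 7], [1, 3, 6, 8, 9, 10]] [(.mj 0 1, 988268), (.mj 10 7, 73845), (.rw 8, 20), (.hz 19 39, 7909097), (.hz 19 55, 7423341), (.hz 20 159, 21906254), (.hz 20 223, 113282079), (.hz 20 479, 83541964), (.hz 20 991, 78529446), (.rw 9, 66), (.rw 10, 295)]))))
.fin))
(.lp [[5], [0, 2, 4, 7], [1, 3, 6, 8, 9]] [(.mj 9 7, 1), (.rw 7, 1)]))
.fin))
(.lp [[5], [0, 2, 4, 7], [1, 3, 6, 8]] [(.mj 8 7, 1), (.rw 6, 1)]))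
.fin))
(.lp [[5], [1, 3, 6], [0, 2, 4, 7]] [(.mj 3 4, 14), (.hz 18 15, 8634), (.hz 17 39, 2016), (.hz 20 159, 1533)])))
(.lp [[5], [1, 3, 6], [0, 2, 4, 7]] [(.mj 3 4, 16), (.mj 6 5, 1), (.hz 18 15, 10303), (.hz 21 15, 8346), (.hz 17 39, 1386), (.hz 20 159, 1183)]))
(.cut 5 [(0, 1), (1, 1), (2, 1), (3, 1), (5, 1), (11, 1), (21, 1)]
(.lp [[5], [1, 3, 6], [0, 2, 4, 7]] [(.hz 20 7, 123644), (.hz 20 15, 82429), (.hz 20 23, 41215), (.rw 6, 2)])))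
(.lp [[5], [1, 3, 6], [0, 2, 4, 7]] [(.mj 3 4, 1), (.hz 19 7, 111), (.hz 18 7, 351), (.hz 17 39, 76)])))
(.lp [[5], [1, 3, 6], [0, 2, 4, 7]] [(.mj 0 1, 26), (.mj 6 5, 1), (.hz 17 7, 420), (.hz 14 39, 940), (.hz 11 39, 105), (.hz 11 47, 236)]))
(.haz 6 47 11 50
(.lp [[5], [1, 3, 6], [0, 2, 4, 7]] [(.mj 3 4, 4), (.mj 7 5, 1), (.mj 7 6, 2), (.hz 11 39, 559), (.hz 11 47, 361), (.hz 17 47, 250), (.hz 16 79, 285), (.hz 17 63, 739)])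
(.lp [[5], [1, 3, 6], [0, 2, 4, 7]] [(.mj 3 4, 8), (.mj 7 5, 3), (.mj 7 6, 2), (.hz 17 15, 247), (.hz 11 39, 1472), (.hz 11 47, 328)]))
.fin))

theorem run122 : run P3488 (leaf3 218 625) (cutRow P3488) [s116] t122 s122 = true := by
  decide +kernel

theorem bad122 : Bad P3488 s122 :=
  run_sound (leaf3_sound P3488 rfl rfl) (cutRow_sound P3488) (
    List.forall_mem_cons.2 ⟨bad116, fun _ h => absurd h List.not_mem_nil⟩) t122 s122 run122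

/-- the state above piece 59 of the tree -/
def s59 : St := ⟨[0, 0, 1, 1, 7, 23, 11], [23, 15, 11, 13, 9, 7, 5, 3, 2, 1, 0], [0, 1, 2, 3, 4],
  [(4, 6), (3, 4)],
  [⟨true, 1, 9, 7, 50⟩, ⟨true, 2, 11, 3, 50⟩, ⟨true, 2, 9, 9, 50⟩, ⟨true, 3, 3, 1, 5⟩, ⟨true, 1, 5, 13, 50⟩, ⟨true, 2, 11, 3, 5⟩, ⟨true, 2, 9, 8, 25⟩, ⟨true, 2, 9, 17, 50⟩, ⟨true, 2, 11, 33, 50⟩, ⟨true, 3, 23, 8, 25⟩, ⟨true, 4, 15, 27, 50⟩, ⟨true, 3, 23, 19, 50⟩, ⟨true, 4, 15, 29, 50⟩, ⟨true, 6, 63, 1, 10⟩],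
  [.spn 0 0 651200, .spn 1 1 140426, .spn 3 2 302400, .spn 7 3 140426, .spn 15 4 302400]⟩

/-- piece 59 of the tree -/
noncomputable def t59 : WN.Tree :=
(.haz 3 55 23 50
(.haz 3 55 1 2
(.haz 5 95 3 10
(.ask 31
(.mark 31 [5, 6, 7]
(.spn
(.haz 5 159 6 25
(.haz 4 79 18 25
(.haz 2 75 19 25
(.haz 2 75 4 5
(.haz 6 159 1 10
(.ask 55
(.mark 63 [6, 7, 8]
(.spn
(.haz 6 159 3 20
(.haz 6 159 9 50
(.haz 8 191 11 50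
(.haz 7 383 3 25
(.haz 6 191 6 25
(.haz 8 191 17 50
(.ask 159
(.mark 191 [6, 8, 9]
(.lp [[1, 6], [3, 7, 9], [0, 2, 4, 5, 8]] [(.mj 5 6, 48012), (.mj 6 7, 4299), (.mj 6 8, 26727), (.rw 6, 4), (.hz 23 159, 6441486), (.hz 27 191, 5176492), (.hz 23 671, 10690861), (.hz 27 703, 12027096)]))
(.ask 191
(.haz 7 127 13 50
(.mark 191 [6, 8, 9]
(.lp [[1, 6], [3, 7, 9], [0, 2, 4, 5, 8]] [(.mj 5 6, 93), (.mj 6 7, 22), (.mj 6 8, 62), (.hz 28 127, 9153), (.hz 27 191, 17474), (.hz 27 703, 19403)]))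
(.mark 191 [6, 8, 9]
(.lp [[1, 6], [3, 7, 9], [0, 2, 4, 5, 8]] [(.mj 2 3, 8), (.mj 5 6, 27), (.mj 6 8, 19), (.hz 28 63, 1531), (.hz 26 191, 5702), (.hz 27 191, 3960), (.hz 27 703, 6001)])))
(.lp [[1, 6], [3, 7], [0, 2, 4, 5, 8]] [(.mj 5 6, 3), (.mj 6 8, 2)])))
(.lp [[1, 6], [3, 7], [0, 2, 4, 5, 8]] [(.mj 2 3, 139), (.mj 6 7, 10), (.hz 27 55, 2962), (.hz 27 63, 4804), (.hz 26 191, 11931), (.hz 24 191, 2118)]))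
(.lp [[1, 6], [3, 7], [0, 2, 4, 5, 8]] [(.mj 3 4, 2077), (.mj 6 8, 238), (.rw 6, 4), (.hz 26 63, 2368539), (.hz 23 159, 189979), (.hz 24 191, 74339)]))
(.lp [[1, 6], [3, 7], [0, 2, 4, 5, 8]] [(.mj 2 3, 12), (.mj 3 4, 19), (.mj 5 6, 5), (.hz 25 31, 564), (.hz 25 63, 477), (.hz 23 159, 925)]))
(.lp [[1, 6], [3, 7], [0, 2, 4, 5, 8]] [(.mj 2 3, 10), (.mj 6 7, 1), (.hz 24 55, 185), (.hz 24 63, 289), (.hz 23 159, 438)]))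
(.lp [[1, 6], [3, 7], [0, 2, 4, 5, 8]] [(.mj 3 4, 7027), (.mj 6 7, 598), (.rw 6, 13), (.hz 23 31, 4391747), (.hz 22 159, 10058827)]))
(.lp [[1, 6], [3, 7], [0, 2, 4, 5, 8]] [(.mj 3 4, 1040), (.mj 6 7, 176), (.rw 6, 1), (.hz 22 11, 23853), (.hz 22 15, 67816), (.hz 22 31, 1091673), (.hz 21 159, 1874589)]))
(.ref 0)
(.lp [[1, 6], [3, 7], [0, 2, 4, 5, 8]] [(.mj 2 3, 23), (.mj 3 4, 97), (.mj 8 6, 36), (.mj 8 7, 13), (.hz 18 79, 3189), (.hz 13 63, 24092), (.hz 17 159, 1650), (.hz 21 159, 67290), (.hz 16 223, 84295)])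
.fin))
(.ask 63
(.mark 63 [6, 7, 8]
(.spn
(.cut 7 [(0, 1), (1, 1), (2, 1), (3, 1), (5, 1), (9, 1), (7, 1), (11, 1), (13, 1), (15, 1), (23, 1), (75, 1), (31, 1), (55, 1), (79, 1), (63, 1), (95, 1)]
(.lp [[1, 6], [3, 7], [0, 2, 4, 5, 8]] [(.mj 2 3, 131630), (.mj 6 8, 5426), (.rw 6, 19), (.hz 21 159, 14268832), (.rw 7, 6)]))
(.haz 6 159 3 25
(.haz 6 319 3 25
(.ask 75
(.mark 95 [5, 7, 9]
(.lp [[3, 7], [1, 6, 9], [0, 2, 4, 5, 8]] [(.mj 1 2, 387), (.mj 2 3, 133), (.mj 7 8, 5), (.hz 20 587, 23533), (.hz 22 159, 5862), (.hz 18 591, 3867), (.hz 22 191, 1088), (.hz 23 319, 5650), (.hz 16 607, 2721)]))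
(.lp [[1, 6], [3, 7], [0, 2, 4, 5, 8]] [(.mj 1 2, 492), (.mj 2 3, 136), (.mj 7 6, 1), (.mj 7 8, 5), (.hz 22 159, 4548), (.hz 23 319, 5003)]))
(.lp [[1, 6], [3, 7], [0, 2, 4, 5, 8]] [(.mj 1 2, 1224), (.mj 7 8, 2), (.hz 23 11, 34518), (.hz 20 75, 10656), (.hz 23 63, 179), (.hz 22 159, 1495), (.hz 13 319, 4281)]))
(.lp [[1, 6], [3, 7], [0, 2, 4, 5, 8]] [(.mj 1 2, 20347), (.mj 7 8, 31), (.hz 22 11, 573432), (.hz 20 75, 178047), (.hz 22 31, 2714), (.hz 21 159, 67853), (.hz 13 319, 69395)]))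
(.ask 319
(.mark 319 [6, 7, 9]
(.spn
(.lp [[1, 6], [3, 7], [0, 2, 4, 5, 8, 9]] [(.mj 8 6, 2464), (.rw 7, 4)])
(.lp [[1, 6], [3, 7], [0, 2, 4, 5, 8, 9]] [(.mj 8 7, 1246), (.rw 7, 2), (.hz 21 159, 2855147), (.hz 13 191, 5594935)])
(.haz 7 63 3 25
(.lp [[1, 6], [3, 7], [0, 2, 4, 5, 8, 9]] [(.mj 3 4, 103031), (.mj 9 6, 18650), (.rw 7, 19), (.hz 20 75, 5303458), (.hz 18 79, 4615973), (.hz 13 63, 34779859), (.hz 22 63, 8549955), (.hz 21 159, 12822147), (.hz 13 191, 29141243), (.hz 13 319, 42778323), (.hz 22 319, 12402104), (.hz 13 447, 45460340)])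
(.lp [[1, 6], [3, 7], [0, 2, 4, 5, 8, 9]] [(.mj 3 4, 96), (.mj 9 6, 37), (.hz 20 75, 4529), (.hz 22 31, 4831), (.hz 18 79, 3942), (.hz 13 63, 28875), (.hz 21 159, 32771), (.hz 13 191, 32084), (.hz 13 319, 32084), (.hz 16 223, 25209)]))
.fin))
(.lp [[1, 6], [3, 7], [0, 2, 4, 5, 8]] [(.mj 8 7, 1), (.rw 6, 1)]))
.fin))
(.lp [[1, 6], [3, 7], [0, 2, 4, 5]] [(.mj 1 2, 19), (.mj 2 3, 11), (.mj 5 7, 1), (.hz 21 159, 2820)])))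
(.lp [[1, 6], [3, 7], [0, 2, 4, 5]] [(.mj 1 2, 36), (.mj 3 4, 1), (.hz 21 11, 2733)]))
(.lp [[1, 6], [3, 7], [0, 2, 4, 5]] [(.mj 2 3, 7), (.mj 3 4, 4), (.hz 20 11, 1400)]))
(.lp [[1, 6], [3, 7], [0, 2, 4, 5]] [(.mj 2 3, 5), (.mj 3 4, 3), (.hz 19 11, 181)]))
(.lp [[1, 6], [3, 7], [0, 2, 4, 5]] [(.mj 2 3, 9), (.mj 3 4, 5), (.hz 18 15, 303)]))
(.lp [[1, 6], [3, 7], [0, 2, 4, 5]] [(.mj 2 3, 5), (.mj 5 7, 1), (.hz 17 23, 219), (.hz 17 31, 236)]))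
(.lp [[1, 6], [3, 7], [0, 2, 4, 5]] [(.mj 2 3, 14), (.mj 6 5, 4), (.mj 6 7, 2), (.hz 15 55, 6075)])
(.lp [[1, 6], [3, 7], [0, 2, 4, 5]] [(.mj 1 2, 38), (.mj 2 3, 15), (.mj 7 5, 2), (.hz 8 75, 248), (.hz 15 55, 8526), (.hz 13 63, 2842)])
.fin))
(.spn
(.ask 55
(.ask 55
(.mark 63 [6, 7, 8]
(.lp [[1, 8], [3, 6], [0, 2, 4, 5, 7]] [(.mj 2 3, 3), (.mj 3 4, 4), (.mj 5 6, 1)]))
(.ask 63
(.mark 63 [6, 7, 8]
(.spn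
(.haz 8 191 13 50
(.haz 8 191 9 25
(.ask 75
(.mark 127 [7, 8, 9]
(.spn
(.lp [[3, 8], [1, 6, 9], [0, 2, 4, 5, 7]] [(.mj 2 3, 53), (.mj 3 4, 48), (.mj 5 6, 3), (.mj 7 8, 1), (.hz 18 191, 839)])
(.ask 319
(.mark 383 [7, 9, 10]
(.spn
(.lp [[1, 7], [3, 6, 9], [0, 2, 4, 5, 8, 10]] [(.mj 2 3, 3521), (.mj 3 4, 2285), (.mj 6 8, 132), (.mj 7 10, 35), (.mj 8 7, 70)])
(.lp [[1, 7], [3, 6, 9], [0, 2, 4, 5, 8, 10]] [(.mj 2 3, 26707), (.mj 3 4, 16664), (.mj 6 8, 522), (.rw 8, 1), (.hz 18 191, 221690)])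
(.lp [[1, 7], [3, 6, 9], [0, 2, 4, 5, 8, 10]] [(.mj 2 3, 71), (.mj 3 4, 34), (.mj 6 8, 9), (.mj 10 7, 2), (.hz 15 183, 8566), (.hz 18 191, 5536), (.hz 18 255, 1311)])
.fin))
(.haz 6 191 8 25
(.lp [[3, 8], [1, 6, 9], [0, 2, 4, 5, 7]] [(.mj 2 3, 89419), (.mj 3 4, 56295), (.mj 6 8, 617), (.hz 19 191, 262120)])
(.lp [[3, 8], [1, 6, 9], [0, 2, 4, 5, 7]] [(.mj 2 3, 55), (.mj 3 4, 47), (.mj 6 8, 1), (.hz 19 63, 2478), (.hz 13 191, 1177)])))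
(.lp [[3, 8], [1, 6, 9], [0, 2, 4, 5, 7]] [(.mj 5 6, 1970), (.mj 9 7, 985), (.mj 9 8, 985), (.rw 6, 2)])
.fin))
(.ref 1))
(.lp [[1, 6], [3, 8], [0, 2, 4, 5, 7]] [(.mj 2 3, 35), (.mj 3 4, 23), (.hz 18 63, 207)]))
(.lp [[1, 6], [3, 8], [0, 2, 4, 5, 7]] [(.mj 2 3, 4), (.mj 3 4, 5), (.mj 5 6, 1), (.hz 17 63, 64)]))
(.lp [[1, 6], [3, 8], [0, 2, 4, 5, 7]] [(.mj 2 3, 24), (.mj 3 4, 24), (.mj 7 6, 3), (.mj 7 8, 1), (.hz 13 63, 1782)])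
(.ask 319
(.mark 319 [6, 7, 9]
(.spn
(.lp [[1, 7], [3, 6], [0, 2, 4, 5, 8, 9]] [(.mj 3 4, 2310), (.mj 6 9, 128), (.mj 8 6, 1118), (.rw 7, 1)])
(.lp [[1, 7], [3, 6], [0, 2, 4, 5, 8, 9]] [(.mj 2 3, 3), (.mj 3 4, 4), (.mj 7 6, 1), (.hz 12 79, 43), (.hz 13 63, 783), (.hz 13 319, 870), (.hz 13 831, 967)])
(.lp [[1, 7], [3, 6], [0, 2, 4, 5, 8, 9]] [(.mj 2 3, 2), (.mj 3 4, 6), (.mj 9 6, 2), (.hz 12 79, 105), (.hz 13 63, 1494), (.hz 13 319, 1660)])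
.fin))
(.lp [[1, 6], [3, 8], [0, 2, 4, 5, 7]] [(.mj 3 4, 431), (.rw 6, 1)]))
.fin))
(.lp [[3], [1, 6], [0, 2, 4, 5, 7]] [(.mj 2 3, 3), (.mj 3 4, 4), (.mj 5 6, 1)])))
(.ask 63
(.haz 6 63 4 25
(.maj 6 7
(.ask 63
(.mark 63 [6, 7, 8]
(.spn
(.haz 7 319 8 25
(.lp [[1, 6], [3, 8], [0, 2, 4, 5, 7]] [(.mj 2 3, 1266), (.mj 6 7, 166), (.mj 7 8, 80), (.hz 17 319, 71860), (.hz 18 319, 58005)])
(.lp [[1, 6], [3, 8], [0, 2, 4, 5, 7]] [(.mj 2 3, 9), (.mj 7 8, 1), (.hz 18 63, 534), (.hz 17 319, 973)]))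
(.con 7 6)
(.con 8 7)
.fin))
(.lp [[3], [1, 6], [0, 2, 4, 5, 7]] [(.mj 5 6, 3), (.mj 6 7, 2)]))
(.lp [[3], [1, 6], [0, 2, 4, 5, 7]] [(.mj 3 4, 7), (.mj 7 6, 4), (.hz 17 63, 1849)]))
(.lp [[3], [1, 6], [0, 2, 4, 5, 7]] [(.mj 3 4, 4), (.hz 17 11, 127), (.hz 17 15, 362), (.hz 17 31, 197)]))
(.lp [[3], [1, 6], [0, 2, 4, 5]] [(.mj 5 6, 1)])))
(.lp [[3], [1, 6], [0, 2, 4, 5]] [(.mj 2 3, 3), (.mj 6 5, 1), (.hz 15 55, 1167)])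
.fin
.fin))
(.lp [[3], [1, 6], [0, 2, 4, 5]] [(.mj 1 2, 12), (.mj 2 3, 4), (.hz 16 23, 456), (.hz 8 75, 91)]))
(.lp [[3], [1, 6], [0, 2, 4, 5]] [(.mj 2 3, 10), (.mj 3 4, 8), (.hz 15 23, 3204)]))
(.lp [[3], [1, 6], [0, 2, 4, 5]] [(.mj 2 3, 10), (.mj 3 4, 8), (.hz 14 23, 130)]))

theorem run59 : run P3488 (leaf3 218 625) (cutRow P3488) [s56, s58] t59 s59 = true := by
  decide +kernel

theorem bad59 : Bad P3488 s59 :=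
  run_sound (leaf3_sound P3488 rfl rfl) (cutRow_sound P3488) (
    List.forall_mem_cons.2 ⟨bad56, List.forall_mem_cons.2 ⟨bad58, fun _ h => absurd h List.not_mem_nil⟩⟩) t59 s59 run59

/-- the state above piece 223 of the tree -/
def s223 : St := ⟨[0, 0, 1, 3, 5, 15, 23, 47, 47, 127, 191], [175, 127, 95, 87, 63, 31, 23, 21, 15, 11, 7, 5, 3, 2, 1, 0], [0, 1, 2, 3, 4, 5, 6, 7],
  [(5, 6), (4, 5)],
  [⟨true, 2, 3, 3, 10⟩, ⟨true, 1, 5, 2, 5⟩, ⟨true, 2, 3, 23, 50⟩, ⟨true, 1, 5, 12, 25⟩, ⟨true, 1, 21, 27, 50⟩, ⟨true, 4, 15, 9, 40⟩, ⟨true, 3, 23, 11, 20⟩, ⟨true, 4, 47, 7, 20⟩, ⟨true, 4, 47, 17, 40⟩, ⟨true, 4, 47, 9, 20⟩, ⟨true, 4, 47, 19, 40⟩, ⟨true, 5, 95, 1, 5⟩, ⟨true, 5, 95, 3, 10⟩, ⟨true, 5, 31, 3, 10⟩, ⟨true, 5, 95, 11, 25⟩, ⟨true, 6, 63, 3, 20⟩, ⟨true, 8, 255, 1, 50⟩, ⟨true, 6, 319, 13, 40⟩, ⟨true, 6, 191,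 13, 40⟩, ⟨true, 7, 383, 3, 40⟩, ⟨true, 8, 191, 1, 20⟩, ⟨true, 6, 319, 17, 40⟩, ⟨true, 6, 319, 19, 40⟩, ⟨true, 7, 639, 7, 40⟩, ⟨true, 7, 319, 7, 40⟩],
  [.spn 0 0 651200, .spn 1 1 302400, .spn 3 2 302400, .spn 7 3 302400, .spn 15 4 302400, .spn 31 5 302400, .spn 63 6 140426, .spn 127 7 140426]⟩

/-- piece 223 of the tree -/
noncomputable def t223 : WN.Tree :=
(.mark 255 [8, 9, 10]
(.spn
(.haz 9 255 13 40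
(.lp [[8], [0, 2, 4, 6, 9], [1, 3, 5, 7, 10]] [(.mj 0 1, 81), (.mj 7 8, 2), (.mj 8 9, 3), (.hz 25 255, 1174), (.hz 20 1215, 1940), (.hz 25 511, 777), (.hz 25 1279, 3069)])
(.haz 9 383 7 40
(.lp [[8], [0, 2, 4, 6, 9], [1, 3, 5, 7, 10]] [(.mj 0 1, 675772), (.mj 7 8, 4004), (.rw 8, 8), (.hz 25 127, 6923754), (.hz 25 255, 4701103), (.hz 26 383, 1689061), (.hz 20 1215, 38023726)])
(.lp [[8], [0, 2, 4, 6, 9], [1, 3, 5, 7, 10]] [(.mj 0 1, 2854), (.mj 7 8, 14), (.hz 26 127, 25242), (.hz 25 255, 15070)])))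
(.ask 639
(.mark 767 [8, 10, 11]
(.spn
(.haz 10 2815 7 40
(.haz 8 1279 1 10
(.haz 8 2815 3 20
(.haz 10 2815 9 40
(.ask 303
(.mark 1023 [10, 11, 12]
(.spn
(.lp [[8, 12], [1, 3, 5, 7, 10], [0, 2, 4, 6, 9, 11]] [(.mj 7 9, 609), (.mj 8 10, 1455), (.mj 9 8, 2484), (.mj 9 10, 161), (.mj 10 11, 1007), (.rw 9, 4), (.hz 28 2815, 2273445)])
(.lp [[8, 12], [1, 3, 5, 7, 10], [0, 2, 4, 6, 9, 11]] [(.mj 0 1, 100), (.mj 7 9, 12), (.mj 8 11, 12), (.mj 9 8, 20), (.mj 11 10, 16), (.hz 20 1215, 36977), (.hz 24 4415, 2151), (.hz 26 1279, 206052), (.hz 28 2815, 24689), (.hz 28 3071, 55787)])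
(.lp [[8, 12], [1, 3, 5, 7, 10], [0, 2, 4, 6, 9, 11]] [(.mj 9 8, 20023), (.mj 12 10, 10122), (.mj 12 11, 10122), (.rw 9, 40)])
.fin))
(.ask 319
(.mark 1023 [10, 11, 12]
(.spn
(.lp [[8, 12], [1, 3, 5, 7, 10], [0, 2, 4, 6, 9, 11]] [(.mj 7 9, 1325), (.mj 8 10, 3839), (.mj 9 8, 6554), (.mj 9 10, 142), (.mj 10 11, 2656), (.rw 9, 11), (.hz 28 2815, 5997922)])
(.lp [[8, 12], [1, 3, 5, 7, 10], [0, 2, 4, 6, 9, 11]] [(.mj 7 9, 12), (.mj 8 11, 12), (.mj 9 8, 22), (.mj 11 10, 17), (.hz 18 1215, 1883), (.hz 20 1215, 37745), (.hz 26 1279, 234029), (.hz 26 1791, 34877), (.hz 28 2815, 25511), (.hz 28 3071, 49327)])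
(.lp [[8, 12], [1, 3, 5, 7, 10], [0, 2, 4, 6, 9, 11]] [(.mj 0 1, 6960), (.mj 7 9, 488), (.mj 9 8, 691), (.mj 12 10, 474), (.mj 12 11, 230), (.rw 9, 1), (.hz 26 1279, 4120819), (.hz 28 2815, 1237942)])
.fin))
(.haz 10 1023 7 40
(.maj 10 11
(.haz 11 1023 13 40
(.lp [[8], [1, 3, 5, 7, 10], [0, 2, 4, 6, 9, 11]] [(.mj 7 9, 23443), (.mj 8 10, 57665), (.mj 9 8, 63382), (.mj 10 11, 39924), (.rw 8, 3), (.rw 9, 4), (.hz 18 1215, 2327829), (.hz 20 1215, 37633234), (.hz 26 1279, 257490545), (.hz 23 2687, 37252), (.hz 30 1023, 223949088), (.hz 28 2815, 90101271)])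
(.lp [[8], [1, 3, 5, 7, 10], [0, 2, 4, 6, 9, 11]] [(.mj 7 9, 70), (.mj 8 10, 100), (.mj 9 8, 116), (.hz 30 639, 18698), (.hz 30 767, 72537), (.hz 29 1023, 200748), (.hz 27 2815, 87055), (.hz 28 2815, 156566)]))
(.lp [[8], [1, 3, 5, 7, 10], [0, 2, 4, 6, 9, 11]] [(.mj 7 9, 10), (.mj 8 11, 14), (.mj 9 8, 24), (.mj 11 10, 20), (.hz 18 1215, 118), (.hz 20 1215, 43694), (.hz 26 1279, 125333), (.hz 29 1023, 124631), (.hz 27 2815, 2078), (.hz 28 2815, 30098)]))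
(.lp [[8], [1, 3, 5, 7, 10], [0, 2, 4, 6, 9, 11]] [(.mj 3 4, 1), (.mj 7 9, 3), (.mj 8 11, 1), (.mj 9 8, 3), (.hz 29 191, 1060), (.hz 29 255, 2656), (.hz 29 767, 2920), (.hz 27 2815, 7212), (.hz 28 2815, 2245)]))))
(.lp [[8], [1, 3, 5, 7, 10], [0, 2, 4, 6, 9, 11]] [(.mj 7 9, 65), (.mj 8 11, 22), (.mj 9 8, 60), (.hz 28 191, 19787), (.hz 28 255, 43211), (.hz 28 767, 58782), (.hz 26 1279, 323632), (.hz 27 2815, 147319), (.hz 25 2815, 46672)]))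
(.lp [[8], [1, 3, 5, 7, 10], [0, 2, 4, 6, 9, 11]] [(.mj 8 10, 3931), (.mj 8 11, 4066), (.rw 9, 28), (.hz 27 767, 120649424), (.hz 26 1279, 22928850), (.hz 20 2815, 3431008), (.hz 25 2815, 14909788)]))
(.lp [[8], [1, 3, 5, 7, 10], [0, 2, 4, 6, 9, 11]] [(.mj 7 9, 1), (.mj 8 10, 4), (.mj 8 11, 2), (.hz 26 47, 906), (.hz 26 63, 2639), (.hz 26 175, 1007), (.hz 26 127, 5289), (.hz 26 191, 4051), (.hz 26 255, 28500), (.hz 20 1215, 237), (.hz 20 1279, 8155), (.hz 25 2815, 10429)]))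
(.cut 10 [(0, 1), (1, 1), (2, 1), (3, 1), (5, 1), (7, 1), (11, 1), (21, 1), (15, 1), (23, 1), (31, 1), (47, 1), (87, 1), (63, 1), (95, 1), (175, 1), (303, 1), (127, 1), (191, 1), (319, 1), (431, 1), (255, 1), (383, 1), (639, 1), (767, 1), (895, 1), (2687, 1), (2943, 1)]
(.cut 10 [(0, 1), (1, 1), (2, 1), (3, 1), (5, 1), (7, 1), (11, 1), (21, 1), (15, 1), (23, 1), (31, 1), (47, 1), (87, 1), (63, 1), (95, 1), (175, 1), (303, 1), (127, 1), (191, 1), (319, 1), (431, 1), (255, 1), (383, 1), (447, 1), (639, 1), (767, 1), (895, 1), (2687, 1), (2943, 1)]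
(.lp [[8], [1, 3, 5, 7, 10], [0, 2, 4, 6, 9, 11]] [(.mj 7 9, 4699018), (.mj 8 11, 2220409), (.mj 9 8, 4423922), (.hz 25 191, 1338742127), (.hz 25 255, 3552421204), (.hz 20 1215, 2437172827), (.hz 25 767, 4061954416), (.hz 20 1279, 5000268813), (.hz 20 2815, 10650009760), (.rw 10, 195), (.rw 11, 116)]))))
(.ref 0)
(.haz 10 767 9 40
(.ask 2687
(.mark 2815 [8, 10, 12]
(.cut 8 [(0, 1), (1, 1), (2, 1), (3, 1), (5, 1), (7, 1), (11, 1), (21, 1), (15, 1), (23, 1), (31, 1), (47, 1), (87, 1), (63, 1), (95, 1), (175, 1), (127, 1), (191, 1), (255, 1), (639, 1), (767, 1)]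
(.lp [[8], [1, 3, 5, 7, 10], [0, 2, 4, 6, 9, 11, 12]] [(.mj 7 9, 1358), (.mj 11 8, 932), (.mj 11 10, 932), (.hz 25 767, 476419), (.hz 22 1471, 57147), (.hz 25 1023, 6782147), (.hz 20 6911, 965380), (.rw 10, 2)])))
(.ask 2815
(.mark 2815 [8, 10, 12]
(.spn
(.lp [[8], [1, 3, 5, 7, 10], [0, 2, 4, 6, 9, 11, 12]] [(.mj 7 9, 1119), (.mj 8 10, 1152), (.mj 11 8, 1152), (.rw 10, 1), (.hz 25 767, 609017), (.hz 25 2815, 1394845), (.hz 25 6911, 1799799)])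
(.cut 8 [(0, 1), (1, 1), (2, 1), (3, 1), (5, 1), (7, 1), (11, 1), (21, 1), (15, 1), (23, 1), (31, 1), (47, 1), (87, 1), (63, 1), (95, 1), (175, 1), (127, 1), (191, 1), (255, 1), (639, 1), (1215, 1), (767, 1), (1279, 1), (2687, 1), (1791, 1), (2815, 1)]
(.cut 8 [(0, 1), (1, 1), (2, 1), (3, 1), (5, 1), (7, 1), (11, 1), (21, 1), (15, 1), (23, 1), (31, 1), (47, 1), (87, 1), (63, 1), (95, 1), (175, 1), (127, 1), (191, 1), (255, 1), (639, 1)]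
(.cut 8 [(0, 1), (1, 1), (2, 1), (3, 1), (5, 1), (7, 1), (11, 1), (21, 1), (15, 1), (23, 1), (31, 1), (47, 1), (87, 1), (63, 1), (95, 1), (175, 1), (127, 1), (191, 1), (255, 1), (639, 1), (767, 1)]
(.lp [[8], [1, 3, 5, 7, 10], [0, 2, 4, 6, 9, 11, 12]] [(.mj 7 9, 37993), (.mj 10 8, 20906), (.mj 11 10, 34016), (.rw 10, 17), (.hz 22 1471, 7691094), (.hz 25 1023, 103106718), (.hz 20 6911, 24363851), (.rw 11, 8), (.rw 12, 45), (.rw 13, 24)]))))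
(.lp [[8], [1, 3, 5, 7, 10], [0, 2, 4, 6, 9, 11, 12]] [(.mj 7 9, 1791), (.rw 10, 1), (.hz 20 767, 6452051), (.hz 25 767, 1183101), (.hz 20 2815, 11331204), (.hz 25 2815, 2867075)])
.fin))
(.lp [[8], [1, 3, 5, 7, 10], [0, 2, 4, 6, 9, 11]] [(.mj 11 8, 1), (.mj 11 10, 1), (.hz 20 1215, 2659), (.hz 20 1279, 8275), (.hz 25 1023, 3821), (.hz 20 1791, 12230)])))
(.haz 8 767 1 10
(.lp [[8], [1, 3, 5, 7, 10], [0, 2, 4, 6, 9, 11]] [(.mj 3 4, 6), (.mj 7 9, 16), (.mj 11 8, 13), (.hz 25 191, 4047), (.hz 25 255, 10784), (.hz 20 1215, 7530), (.hz 26 767, 123178), (.hz 25 767, 1177), (.hz 26 1791, 160901), (.hz 26 2815, 97193)])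
(.lp [[8], [1, 3, 5, 7, 10], [0, 2, 4, 6, 9, 11]] [(.mj 3 4, 1), (.hz 26 47, 131), (.hz 26 63, 16), (.hz 26 175, 146), (.hz 26 191, 333), (.hz 25 191, 83), (.hz 22 319, 33), (.hz 26 255, 258), (.hz 25 255, 68), (.hz 25 767, 41), (.hz 20 2815, 155)])))
.fin))
(.ref 1))
(.ask 639
(.mark 767 [8, 10, 11]
(.cut 9 [(0, 1), (1, 1), (2, 1), (3, 1), (5, 1), (7, 1), (11, 1), (21, 1), (15, 1), (23, 1), (31, 1), (47, 1), (87, 1), (63, 1), (95, 1), (175, 1), (303, 1), (127, 1), (191, 1), (319, 1), (431, 1), (255, 1), (383, 2), (447, 1), (1215, 1), (511, 2), (1471, 1)]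
(.cut 8 [(0, 1), (1, 1), (2, 1), (3, 1), (5, 1), (7, 1), (11, 1), (21, 1), (15, 1), (23, 1), (31, 1), (47, 1), (87, 1), (63, 1), (95, 1), (175, 1), (127, 1), (191, 1), (255, 1), (639, 1), (767, 1)]
(.lp [[8], [1, 3, 5, 7, 10], [0, 2, 4, 6, 9, 11]] [(.mj 0 1, 551868), (.mj 10 8, 3322), (.mj 10 9, 9478), (.hz 20 767, 13151573), (.hz 23 2687, 4441014), (.hz 20 2815, 18594297), (.hz 23 2943, 8556448), (.rw 9, 2), (.rw 10, 15)]))))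
(.lp [[8], [0, 2, 4, 6, 9], [1, 3, 5, 7, 10]] [(.mj 0 1, 349), (.mj 10 8, 1), (.mj 10 9, 4), (.hz 24 319, 6013), (.hz 20 1215, 5312), (.hz 20 767, 20551)]))
.fin))

theorem run223 : run P3488 (leaf3 218 625) (cutRow P3488) [s219, s220] t223 s223 = true := by
  decide +kernel

theorem bad223 : Bad P3488 s223 :=
  run_sound (leaf3_sound P3488 rfl rfl) (cutRow_sound P3488) (
    List.forall_mem_cons.2 ⟨bad219, List.forall_mem_cons.2 ⟨bad220, fun _ h => absurd h List.not_mem_nil⟩⟩) t223 s223 run223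

/-- the state above piece 156 of the tree -/
def s156 : St := ⟨[0, 0, 1, 3, 5, 15, 15, 47, 23, 287], [279, 63, 31, 21, 15, 11, 7, 5, 3, 2, 1, 0], [0, 1, 2, 3, 4, 5, 8],
  [(4, 5)],
  [⟨true, 2, 3, 3, 10⟩, ⟨true, 1, 5, 2, 5⟩, ⟨true, 2, 3, 23, 50⟩, ⟨true, 1, 5, 12, 25⟩, ⟨true, 1, 21, 27, 50⟩, ⟨true, 4, 15, 9, 40⟩, ⟨true, 3, 23, 11, 20⟩, ⟨true, 1, 21, 29, 50⟩, ⟨true, 8, 95, 7, 40⟩, ⟨true, 4, 79, 13, 40⟩, ⟨true, 8, 95, 1, 4⟩],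
  [.spn 0 0 651200, .spn 1 1 302400, .spn 3 2 302400, .spn 7 3 302400, .spn 15 4 140426, .spn 31 5 140426, .spn 63 8 140426]⟩

/-- piece 156 of the tree -/
noncomputable def t156 : WN.Tree :=
(.mark 319 [6, 7, 9]
(.spn
(.haz 7 319 8 25
(.lp [[6], [1, 3, 5, 7], [0, 2, 4, 8, 9]] [(.mj 5 8, 8774), (.mj 6 7, 8774), (.mj 8 6, 8774), (.rw 6, 1), (.rw 7, 2), (.hz 11 319, 3114700), (.hz 11 383, 5264281), (.hz 11 831, 8773802)])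
(.haz 6 447 4 25
(.haz 6 831 7 50
(.ask 79
(.mark 127 [7, 8, 10]
(.lp [[6, 10], [1, 3, 5, 7], [0, 2, 4, 8, 9]] [(.mj 0 1, 259), (.mj 5 8, 32), (.mj 8 6, 5), (.hz 11 63, 5724), (.hz 11 319, 4603), (.hz 10 1119, 33869), (.hz 10 1151, 63444), (.hz 13 831, 7172)]))
(.ask 95
(.mark 127 [7, 8, 10]
(.lp [[6, 10], [1, 3, 5, 7], [0, 2, 4, 8, 9]] [(.mj 0 1, 259), (.mj 5 8, 32), (.mj 8 6, 5), (.hz 11 63, 5724), (.hz 11 319, 4603), (.hz 10 1119, 164096), (.hz 13 831, 7172)]))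
(.haz 6 191 4 25
(.lp [[6], [1, 3, 5, 7], [0, 2, 4, 8, 9]] [(.mj 0 1, 8634982), (.mj 5 8, 1024051), (.mj 8 6, 315584), (.rw 7, 251), (.hz 11 63, 127360730), (.hz 14 191, 268246493), (.hz 11 319, 141930761), (.hz 13 831, 243441107)])
(.lp [[6], [1, 3, 5, 7], [0, 2, 4, 8, 9]] [(.mj 0 1, 21), (.mj 5 8, 4), (.mj 6 7, 1), (.hz 14 47, 215), (.hz 14 63, 1673), (.hz 11 63, 760), (.hz 13 831, 850)]))))
(.lp [[6], [1, 3, 5, 7], [0, 2, 4, 8, 9]] [(.mj 5 8, 985), (.rw 7, 4), (.hz 13 319, 1921653), (.hz 11 319, 320275)]))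
(.lp [[6], [1, 3, 5, 7], [0, 2, 4, 8, 9]] [(.mj 5 8, 1437), (.rw 7, 5), (.hz 12 319, 4904460), (.hz 11 319, 467091)])))
(.haz 7 383 3 10
(.ask 175
(.mark 447 [6, 9, 10]
(.spn
(.ask 79
(.mark 511 [9, 10, 11]
(.lp [[6, 11], [0, 2, 4, 8, 9], [1, 3, 5, 7, 10]] [(.mj 6 9, 217), (.mj 7 6, 649), (.mj 7 9, 432), (.mj 8 7, 1065), (.rw 8, 2)]))
(.ask 111
(.mark 511 [9, 10, 11]
(.lp [[6, 11], [0, 2, 4, 8, 9], [1, 3, 5, 7, 10]] [(.mj 6 9, 217), (.mj 7 6, 649), (.mj 7 9, 432), (.mj 8 7, 1065), (.rw 8, 2)]))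
(.ask 95
(.mark 511 [9, 10, 11]
(.lp [[6, 11], [0, 2, 4, 8, 9], [1, 3, 5, 7, 10]] [(.mj 6 9, 217), (.mj 7 6, 649), (.mj 7 9, 432), (.mj 8 7, 1065), (.rw 8, 2)]))
(.ask 127
(.mark 511 [9, 10, 11]
(.lp [[6, 11], [0, 2, 4, 8, 9], [1, 3, 5, 7, 10]] [(.mj 6 9, 217), (.mj 7 6, 649), (.mj 7 9, 432), (.mj 8 7, 1065), (.rw 8, 2)]))
(.haz 9 447 3 10
(.lp [[6], [0, 2, 4, 8, 9], [1, 3, 5, 7, 10]] [(.mj 6 9, 1523), (.mj 7 6, 1523), (.mj 8 7, 1523), (.rw 8, 1), (.hz 12 447, 2379497), (.hz 12 511, 5044533), (.hz 12 1471, 6662591)])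
(.haz 10 511 1 4
(.lp [[6], [0, 2, 4, 8, 9], [1, 3, 5, 7, 10]] [(.mj 5 8, 1760880), (.mj 7 6, 1110120), (.mj 8 7, 2744612), (.rw 8, 1972), (.hz 12 319, 2201100359), (.hz 12 447, 1475598006), (.hz 13 511, 27890606712)])
(.lp [[6], [0, 2, 4, 8, 9], [1, 3, 5, 7, 10]] [(.mj 5 8, 2), (.mj 7 6, 1), (.mj 8 7, 2), (.hz 12 319, 1978), (.hz 12 447, 3785), (.hz 13 447, 8804)])))))))
(.haz 6 191 3 40
(.ref 0)
(.haz 10 511 9 40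
(.ask 799
(.mark 959 [6, 10, 11]
(.cut 6 [(0, 1), (1, 1), (2, 1), (3, 1), (5, 1), (7, 1), (11, 1), (21, 1), (15, 1), (23, 1), (31, 1), (47, 1), (279, 1), (63, 1), (287, 1), (319, 1), (799, 1), (831, 1)]
(.cut 6 [(0, 1), (1, 1), (2, 1), (3, 1), (5, 1), (7, 1), (11, 1), (21, 1), (15, 1), (23, 1), (31, 1), (47, 1), (279, 1), (63, 1), (175, 1), (287, 1), (191, 1), (319, 1), (799, 1), (1199, 2), (447, 1), (831, 1), (1215, 1), (2847, 1), (1471, 1), (2879, 1)]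
(.cut 11 [(0, 1), (1, 1), (2, 1), (3, 1), (5, 1), (7, 1), (11, 1), (21, 1), (15, 1), (23, 1), (31, 1), (47, 1), (79, 1), (279, 1), (63, 1), (95, 1), (111, 1), (175, 1), (287, 1), (127, 1), (191, 1), (239, 1), (319, 1), (351, 1), (799, 1), (1199, 1), (255, 1), (383, 1), (447, 1), (831, 1), (863, 1), (1215, 1), (1263, 1), (511, 1), (895, 1), (1279, 1), (1471, 1), (1535, 1)]
(.lp [[6], [1, 3, 5, 7, 10], [0, 2, 4, 8, 9, 11]] [(.mj 3 4, 4439212), (.mj 5 8, 3795732), (.mj 8 7, 5053356), (.hz 12 15, 361104478), (.hz 12 31, 379320045), (.hz 12 47, 390383220), (.hz 12 63, 832111637), (.hz 13 511, 4543077338), (.hz 13 3071, 57687886), (.rw 9, 3705), (.rw 10, 74), (.rw 11, 13)])))))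
(.maj 6 10
(.cut 6 [(0, 1), (1, 1), (2, 1), (3, 1), (5, 1), (7, 1), (11, 1), (21, 1), (15, 1), (23, 1), (31, 1), (47, 1), (279, 1), (63, 1), (175, 1), (287, 1), (191, 1), (319, 1), (447, 1)]
(.lp [[6], [0, 2, 4, 8, 9], [1, 3, 5, 7, 10]] [(.mj 5 8, 1067), (.mj 8 7, 538), (.mj 9 10, 74), (.hz 12 15, 41760), (.hz 12 31, 224083), (.hz 12 47, 45146), (.hz 13 511, 2016141), (.rw 9, 1)]))
(.ask 79
(.mark 127 [7, 8, 11]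
(.cut 6 [(0, 1), (1, 1), (2, 1), (3, 1), (5, 1), (7, 1), (11, 1), (21, 1), (15, 1), (23, 1), (31, 1), (47, 1), (279, 1), (63, 1), (175, 1), (287, 1), (191, 1), (319, 1), (799, 1), (1199, 2), (447, 1), (1215, 2), (1471, 2)]
(.lp [[6, 11], [0, 2, 4, 8, 9], [1, 3, 5, 7, 10]] [(.mj 3 4, 5464), (.mj 5 8, 9745), (.mj 8 7, 8554), (.mj 10 6, 871), (.hz 12 15, 672273), (.hz 12 31, 932432), (.hz 9 2127, 1404110), (.hz 10 2143, 76441789), (.hz 10 2175, 15620037), (.hz 13 511, 676380), (.rw 9, 7)])))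
(.ask 95
(.mark 127 [7, 8, 11]
(.cut 6 [(0, 1), (1, 1), (2, 1), (3, 1), (5, 1), (7, 1), (11, 1), (21, 1), (15, 1), (23, 1), (31, 1), (47, 1), (279, 1), (63, 1), (175, 1), (287, 1), (191, 1), (319, 1), (799, 1), (1199, 2), (447, 1), (1215, 2), (1471, 2)]
(.lp [[6, 11], [0, 2, 4, 8, 9], [1, 3, 5, 7, 10]] [(.mj 3 4, 6807), (.mj 5 8, 10127), (.mj 8 7, 8959), (.hz 12 31, 3101743), (.hz 12 175, 637179), (.hz 9 1263, 542769), (.rw 9, 7)])))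
(.cut 6 [(0, 1), (1, 1), (2, 1), (3, 1), (5, 1), (7, 1), (11, 1), (21, 1), (15, 1), (23, 1), (31, 1), (47, 1), (279, 1), (63, 1), (175, 1), (287, 1), (191, 1), (319, 1), (447, 1)]
(.cut 6 [(0, 1), (1, 1), (2, 1), (3, 1), (5, 1), (7, 1), (11, 1), (21, 1), (15, 1), (23, 1), (31, 1), (47, 1), (279, 1), (63, 1), (287, 1), (319, 1), (799, 1), (831, 1)]
(.lp [[6], [0, 2, 4, 8, 9], [1, 3, 5, 7, 10]] [(.mj 3 4, 171762), (.mj 5 8, 703307), (.mj 8 7, 469636), (.mj 9 10, 47984), (.hz 12 47, 75235476), (.hz 12 63, 193548442), (.hz 13 511, 437385322), (.rw 9, 364), (.rw 10, 41)])))))))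
(.lp [[6], [0, 2, 4, 8, 9], [1, 3, 5, 7, 10]] [(.mj 3 4, 708), (.mj 8 7, 71), (.hz 12 15, 22959), (.hz 12 47, 24821), (.hz 12 63, 15945), (.hz 10 95, 57551), (.hz 12 175, 15307), (.hz 13 175, 26370), (.hz 13 191, 42041), (.hz 13 447, 41483)])))
(.ask 799
(.mark 831 [6, 7, 11]
(.cut 6 [(0, 1), (1, 1), (2, 1), (3, 1), (5, 1), (7, 1), (11, 1), (21, 1), (15, 1), (23, 1), (31, 1), (47, 1), (279, 1), (63, 1), (175, 1), (287, 1), (191, 1), (319, 1), (447, 1)]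
(.cut 6 [(0, 1), (1, 1), (2, 1), (3, 1), (5, 1), (7, 1), (11, 1), (21, 1), (15, 1), (23, 1), (31, 1), (47, 1), (279, 1), (63, 1), (175, 1), (287, 1), (191, 1), (799, 1), (1199, 1), (1215, 1)]
(.lp [[6], [1, 3, 5, 7, 10], [0, 2, 4, 8, 9, 11]] [(.mj 5 8, 5141), (.mj 8 7, 6571), (.mj 10 6, 4991), (.mj 10 9, 1208), (.hz 11 383, 874931), (.hz 11 895, 18268328), (.rw 9, 12), (.rw 10, 1)]))))
(.cut 6 [(0, 1), (1, 1), (2, 1), (3, 1), (5, 1), (7, 1), (11, 1), (21, 1), (15, 1), (23, 1), (31, 1), (47, 1), (279, 1), (63, 1), (175, 1), (287, 1), (191, 1), (319, 1), (447, 1)]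
(.cut 6 [(0, 1), (1, 1), (2, 1), (3, 1), (5, 1), (7, 1), (11, 1), (21, 1), (15, 1), (23, 1), (31, 1), (47, 1), (279, 1), (63, 1), (287, 1), (319, 1), (799, 1)]
(.lp [[6], [0, 2, 4, 8, 9], [1, 3, 5, 7, 10]] [(.mj 8 7, 10524), (.mj 10 6, 6465), (.mj 10 9, 6465), (.hz 11 895, 5369257), (.rw 9, 5), (.rw 10, 13)]))))
.fin))
(.ref 1))
(.lp [[6], [1, 3, 5, 7], [0, 2, 4, 8, 9]] [(.mj 5 8, 830), (.mj 7 9, 290), (.rw 7, 2), (.hz 11 319, 6915541)]))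
(.haz 7 319 17 50
(.lp [[6], [1, 3, 5, 7], [0, 2, 4, 8, 9]] [(.mj 0 1, 1309), (.mj 5 8, 175), (.mj 9 6, 29), (.mj 9 7, 70), (.hz 10 95, 490963), (.hz 10 127, 490963), (.hz 11 319, 19489), (.hz 11 383, 99241)])
(.cut 6 [(0, 1), (1, 1), (2, 1), (3, 1), (5, 1), (7, 1), (11, 1), (21, 1), (15, 1), (23, 1), (31, 1), (47, 1), (279, 1), (63, 1), (287, 1), (319, 1)]
(.lp [[6], [1, 3, 5, 7], [0, 2, 4, 8, 9]] [(.mj 0 1, 5490), (.mj 5 8, 1997), (.mj 9 6, 836), (.mj 9 7, 362), (.hz 11 47, 35726), (.hz 11 63, 180823), (.hz 10 95, 1208455), (.hz 10 127, 4889793), (.hz 9 239, 63784), (.rw 8, 1)])))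
.fin))

theorem run156 : run P3488 (leaf3 218 625) (cutRow P3488) [s150, s152] t156 s156 = true := by
  decide +kernel

theorem bad156 : Bad P3488 s156 :=
  run_sound (leaf3_sound P3488 rfl rfl) (cutRow_sound P3488) (
    List.forall_mem_cons.2 ⟨bad150, List.forall_mem_cons.2 ⟨bad152, fun _ h => absurd h List.not_mem_nil⟩⟩) t156 s156 run156

/-- the state above piece 36 of the tree -/
def s36 : St := ⟨[0, 0, 1, 1, 3, 5], [3, 2, 1, 0], [0, 1, 2],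
  [],
  [⟨true, 1, 9, 7, 50⟩, ⟨true, 2, 11, 3, 50⟩, ⟨true, 2, 9, 9, 50⟩, ⟨true, 3, 3, 1, 5⟩, ⟨true, 1, 5, 13, 50⟩],
  [.spn 0 0 651200, .spn 1 1 140426, .spn 3 2 140426]⟩

/-- piece 36 of the tree -/
noncomputable def t36 : WN.Tree :=
(.mark 7 [3, 4, 5]
(.spn
(.haz 4 39 1 10
(.haz 2 19 13 50
(.haz 4 39 4 25
(.ask 9
(.mark 15 [4, 5, 6]
(.spn
(.haz 5 79 3 25
(.haz 4 39 1 5
(.haz 4 79 7 25
(.haz 5 13 17 50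
(.lp [[1, 4], [3, 6], [0, 2, 5]] [(.mj 1 2, 3), (.mj 2 3, 30), (.mj 3 4, 33), (.mj 4 5, 31), (.hz 3 19, 1398), (.hz 11 13, 562), (.hz 2 73, 307), (.hz 11 15, 2219), (.hz 9 39, 4194), (.hz 2 75, 921), (.hz 11 77, 1387), (.hz 11 31, 1229), (.hz 10 79, 872), (.hz 11 79, 4862), (.hz 4 109, 901)])
(.ask 19
(.mark 31 [5, 6, 7]
(.lp [[3, 6], [0, 2, 5], [1, 4, 7]] [(.mj 1 2, 838), (.mj 2 3, 3816), (.mj 3 4, 2797), (.mj 4 5, 2028), (.hz 11 5, 8348), (.hz 3 39, 859859), (.hz 9 39, 1155994), (.hz 3 147, 1848692), (.hz 10 79, 181452), (.hz 8 79, 1053193)]))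
(.ask 27
(.mark 31 [5, 6, 7]
(.lp [[3, 6], [0, 2, 5], [1, 4, 7]] [(.mj 1 2, 1), (.mj 2 3, 10), (.mj 3 4, 2), (.mj 3 5, 3), (.mj 4 5, 4)]))
(.haz 4 39 7 25
(.ask 37
(.mark 47 [4, 6, 7]
(.lp [[1, 4], [3, 6], [0, 2, 5, 7]] [(.mj 1 2, 12), (.mj 2 3, 15), (.mj 3 4, 13), (.mj 4 5, 3), (.hz 11 5, 13), (.hz 3 19, 23), (.hz 12 39, 411), (.hz 10 79, 475), (.hz 12 167, 1976)]))
(.lp [[1, 4], [3, 6], [0, 2, 5]] [(.mj 1 2, 44), (.mj 2 3, 228), (.mj 3 4, 188), (.mj 4 5, 104), (.hz 3 39, 47030), (.hz 12 39, 18834), (.hz 4 77, 115), (.hz 10 79, 16401), (.hz 8 79, 48583)]))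
(.lp [[1, 4], [3, 6], [0, 2, 5]] [(.mj 2 3, 17), (.mj 4 5, 11), (.hz 12 7, 1780), (.hz 3 39, 9679), (.hz 10 79, 311)])))))
(.lp [[1, 4], [3, 6], [0, 2, 5]] [(.mj 1 2, 4), (.mj 2 3, 6), (.mj 4 5, 4), (.hz 10 3, 272), (.hz 10 7, 472), (.hz 3 19, 1344), (.hz 10 15, 520), (.hz 3 39, 2961), (.hz 8 79, 2276)]))
(.lp [[1, 4], [3, 6], [0, 2, 5]] [(.mj 1 2, 3), (.mj 2 3, 4), (.mj 4 5, 2), (.hz 9 3, 987), (.hz 9 7, 1257), (.hz 3 39, 1956)]))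
(.lp [[1, 4], [3, 6], [0, 2, 5]] [(.mj 2 3, 3), (.mj 3 4, 2), (.hz 8 5, 81), (.hz 8 7, 134), (.hz 3 19, 719), (.hz 8 15, 116)]))
(.ask 37
(.mark 47 [4, 6, 7]
(.lp [[1, 4], [3, 6], [0, 2, 5, 7]] [(.mj 1 2, 99), (.mj 2 3, 119), (.mj 3 5, 52), (.mj 5 4, 70), (.hz 6 19, 371), (.hz 3 19, 56165), (.hz 3 23, 48007), (.hz 3 39, 2707), (.hz 7 39, 1534), (.hz 7 167, 3599)]))
(.ask 39
(.mark 47 [4, 6, 7]
(.spn
(.haz 4 15 11 50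
(.ask 19
(.mark 31 [5, 6, 8]
(.lp [[3, 6], [1, 4, 8], [0, 2, 5, 7]] [(.mj 1 2, 63), (.mj 2 3, 70), (.mj 3 5, 32), (.mj 4 7, 8), (.mj 5 4, 42), (.hz 3 19, 52509), (.hz 2 73, 786), (.hz 2 75, 752), (.hz 8 79, 8179), (.hz 3 279, 2621), (.hz 7 167, 2360)]))
(.lp [[1, 4], [3, 6], [0, 2, 5, 7]] [(.mj 1 2, 381), (.mj 2 3, 361), (.mj 3 5, 165), (.mj 4 7, 29), (.mj 5 4, 238), (.hz 3 19, 147856), (.hz 2 73, 9688), (.hz 3 23, 151448), (.hz 7 39, 4922), (.hz 2 75, 3791), (.hz 8 79, 56472), (.hz 7 167, 10974)]))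
(.lp [[1, 4], [3, 6], [0, 2, 5, 7]] [(.mj 1 2, 39), (.mj 2 3, 40), (.mj 3 5, 21), (.mj 4 7, 2), (.hz 8 3, 911), (.hz 8 7, 1370), (.hz 3 19, 9507), (.hz 8 15, 1097), (.hz 7 39, 1427), (.hz 7 167, 833)]))
(.lp [[1, 4], [3, 6], [0, 2, 5, 7]] [(.mj 1 2, 5), (.mj 2 3, 6), (.mj 3 5, 1), (.mj 6 4, 4), (.mj 6 7, 1), (.hz 6 19, 20), (.hz 3 19, 3004), (.hz 3 23, 2567), (.hz 7 39, 299), (.hz 3 167, 253), (.hz 7 167, 614)])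
(.lp [[1, 4], [3, 6], [0, 2, 5, 7]] [(.mj 1 2, 8), (.mj 2 3, 10), (.mj 3 5, 4), (.mj 7 4, 6), (.hz 6 19, 30), (.hz 3 19, 4589), (.hz 3 23, 3922), (.hz 3 39, 963), (.hz 7 39, 1030), (.hz 7 47, 2155)])
.fin))
(.lp [[1, 4], [3, 6], [0, 2, 5]] [(.mj 1 2, 41), (.mj 2 3, 28), (.mj 5 4, 21), (.hz 3 19, 13333), (.hz 2 73, 1032), (.hz 3 23, 21371), (.hz 7 47, 540)])))
(.lp [[1, 4], [3, 6], [0, 2, 5]] [(.mj 1 2, 2), (.mj 2 3, 3), (.mj 6 4, 2), (.mj 6 5, 1), (.hz 3 19, 1549), (.hz 3 23, 1104), (.hz 3 39, 945), (.hz 7 39, 305)])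
.fin))
(.haz 2 19 17 50
(.ask 13
(.mark 15 [4, 5, 6]
(.spn
(.haz 4 39 1 5
(.haz 5 79 3 25
(.haz 4 39 6 25
(.haz 4 39 13 50
(.haz 5 79 9 50
(.haz 3 39 7 25
(.ask 37
(.mark 47 [4, 6, 7]
(.lp [[1, 4], [3, 6], [0, 2, 5, 7]] [(.mj 1 2, 103), (.mj 2 3, 79), (.mj 3 4, 81), (.mj 4 5, 2), (.hz 8 19, 850), (.hz 12 39, 551), (.hz 13 79, 1279), (.hz 12 167, 6850)]))
(.haz 4 79 13 50
(.ask 45
(.mark 47 [4, 6, 7]
(.lp [[1, 4], [3, 6], [0, 2, 5, 7]] [(.mj 1 2, 142), (.mj 2 3, 113), (.mj 3 4, 115), (.mj 4 5, 5), (.hz 8 19, 1172), (.hz 12 39, 1325), (.hz 13 79, 2417)]))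
(.ask 19
(.mark 31 [5, 6, 7]
(.spn
(.ask 39
(.mark 39 [3, 4, 8]
(.lp [[3, 6], [1, 4, 7], [0, 2, 5, 8]] [(.mj 1 2, 18), (.mj 2 3, 17), (.mj 3 4, 16), (.mj 4 5, 4), (.mj 5 6, 1), (.hz 12 39, 431), (.hz 3 147, 4423), (.hz 13 79, 1026), (.hz 12 295, 904)]))
(.lp [[3, 6], [0, 2, 5], [1, 4, 7]] [(.mj 1 2, 16), (.mj 2 3, 20), (.mj 3 4, 15), (.mj 4 5, 4), (.hz 12 39, 340), (.hz 3 147, 9900), (.hz 13 79, 950)]))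
(.lp [[3, 6], [0, 2, 5], [1, 4, 7]] [(.mj 1 2, 28), (.mj 2 3, 30), (.mj 3 4, 23), (.mj 6 5, 5), (.hz 14 39, 1514), (.hz 12 39, 1310), (.hz 3 147, 13855), (.hz 12 47, 1060), (.hz 13 79, 775)])
(.lp [[3, 6], [0, 2, 5], [1, 4, 7]] [(.mj 1 2, 2), (.mj 2 3, 4), (.mj 3 4, 5), (.mj 7 5, 2), (.mj 7 6, 1), (.hz 14 39, 81), (.hz 12 39, 408), (.hz 8 147, 14), (.hz 12 47, 295), (.hz 15 79, 96), (.hz 13 79, 586)])
.fin))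
(.ask 39
(.mark 39 [3, 4, 7]
(.lp [[1, 4], [3, 6], [0, 2, 5, 7]] [(.mj 1 2, 21), (.mj 2 3, 22), (.mj 3 4, 19), (.mj 4 5, 4), (.hz 14 39, 108), (.hz 12 39, 709), (.hz 13 79, 1145), (.hz 12 167, 958)]))
(.lp [[1, 4], [3, 6], [0, 2, 5]] [(.mj 1 2, 35), (.mj 2 3, 38), (.mj 3 4, 32), (.mj 4 5, 6), (.hz 12 39, 1137), (.hz 13 79, 1867)]))))
(.lp [[1, 4], [3, 6], [0, 2, 5]] [(.mj 1 2, 1), (.hz 15 3, 15), (.hz 15 7, 9), (.hz 15 11, 26), (.hz 15 15, 25), (.hz 14 39, 2), (.hz 13 79, 43)])))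
(.lp [[1, 4], [3, 6], [0, 2, 5]] [(.mj 1 2, 29), (.mj 2 3, 26), (.mj 3 4, 62), (.mj 4 5, 28), (.hz 14 7, 7454), (.hz 3 39, 33273), (.hz 12 39, 3079), (.hz 4 77, 849), (.hz 13 79, 4717)]))
(.lp [[1, 4], [3, 6], [0, 2, 5]] [(.mj 1 2, 39), (.mj 2 3, 53), (.mj 3 4, 37), (.hz 13 5, 94), (.hz 13 7, 902), (.hz 3 19, 10178), (.hz 13 15, 118), (.hz 12 39, 1840), (.hz 10 79, 1964)]))
(.lp [[1, 4], [3, 6], [0, 2, 5]] [(.mj 1 2, 15), (.mj 2 3, 7), (.mj 4 5, 4), (.hz 12 3, 316), (.hz 12 7, 858), (.hz 3 39, 4651), (.hz 11 39, 792), (.hz 10 79, 2598)]))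
(.lp [[1, 4], [3, 6], [0, 2, 5]] [(.mj 1 2, 11), (.mj 2 3, 5), (.mj 4 5, 2), (.hz 11 3, 415), (.hz 11 7, 860), (.hz 3 39, 3062), (.hz 9 39, 1814)]))
(.lp [[1, 4], [3, 6], [0, 2, 5]] [(.mj 1 2, 25), (.mj 2 3, 35), (.mj 3 4, 23), (.hz 10 5, 119), (.hz 10 7, 1271), (.hz 3 19, 7649), (.hz 9 39, 11550)]))
(.lp [[1, 4], [3, 6], [0, 2, 5]] [(.mj 1 2, 1), (.hz 9 3, 418), (.hz 3 39, 76), (.hz 7 39, 24)]))
(.lp [[1, 4], [3, 6], [0, 2, 5]] [(.mj 1 2, 5), (.mj 5 4, 2), (.hz 8 19, 43), (.hz 8 27, 64)])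
(.lp [[1, 4], [3, 6], [0, 2, 5]] [(.mj 1 2, 13), (.mj 2 3, 1), (.mj 6 4, 5), (.hz 8 19, 142), (.hz 3 23, 2408), (.hz 3 39, 792), (.hz 8 27, 97)])
.fin))
(.ref 0))
(.lp [[3], [1, 4], [0, 2, 5]] [(.mj 2 3, 22), (.mj 3 4, 13), (.hz 8 1, 234), (.hz 8 3, 423), (.hz 6 19, 362), (.hz 3 19, 6211), (.hz 3 39, 434), (.hz 7 39, 1257)])))
(.lp [[3], [1, 4], [0, 2, 5]] [(.mj 1 2, 12), (.mj 2 3, 9), (.mj 3 5, 2), (.hz 7 3, 376), (.hz 7 7, 430), (.hz 3 19, 2224), (.hz 3 39, 2902), (.hz 5 39, 584)]))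
(.lp [[3], [1, 4], [0, 2, 5]] [(.mj 2 3, 3), (.mj 2 4, 2), (.hz 6 1, 48), (.hz 6 3, 48), (.hz 3 19, 1295)]))
(.lp [[3], [1, 4], [0, 2, 5]] [(.mj 1 2, 11), (.mj 2 3, 8), (.mj 3 5, 2), (.hz 5 3, 854), (.hz 5 7, 942), (.hz 3 19, 2064), (.hz 3 39, 2547)]))
(.lp [[3], [1, 4], [0, 2, 5]] [(.mj 2 4, 22), (.mj 4 3, 138), (.mj 4 5, 6), (.hz 3 3, 37490), (.hz 3 7, 71856), (.hz 3 19, 8171), (.hz 4 37, 2510), (.hz 3 39, 114062)])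
(.lp [[3], [1, 4], [0, 2, 5]] [(.mj 1 2, 5), (.mj 5 3, 7), (.mj 5 4, 2), (.hz 3 3, 758), (.hz 3 7, 3762), (.hz 3 19, 3338), (.hz 3 39, 1636), (.hz 2 27, 603)])
.fin))

theorem run36 : run P3488 (leaf3 218 625) (cutRow P3488) [s20] t36 s36 = true := by
  decide +kernel

theorem bad36 : Bad P3488 s36 :=
  run_sound (leaf3_sound P3488 rfl rfl) (cutRow_sound P3488) (
    List.forall_mem_cons.2 ⟨bad20, fun _ h => absurd h List.not_mem_nil⟩) t36 s36 run36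

/-- the state above piece 136 of the tree -/
def s136 : St := ⟨[0, 0, 1, 3, 5, 11, 15, 21, 79], [151, 149, 95, 31, 15, 11, 7, 5, 3, 2, 1, 0], [0, 1, 2, 3, 4, 6, 7],
  [],
  [⟨true, 2, 3, 3, 10⟩, ⟨true, 1, 5, 2, 5⟩, ⟨true, 2, 3, 23, 50⟩, ⟨true, 1, 5, 12, 25⟩, ⟨true, 1, 21, 27, 50⟩, ⟨true, 4, 15, 9, 40⟩, ⟨true, 3, 23, 11, 20⟩, ⟨true, 4, 79, 7, 25⟩, ⟨true, 6, 63, 6, 25⟩, ⟨true, 4, 15, 17, 50⟩, ⟨true, 3, 151, 29, 50⟩, ⟨true, 5, 351, 1, 25⟩, ⟨true, 4, 335, 9, 25⟩, ⟨true, 7, 63, 1, 5⟩, ⟨true, 7, 351, 7, 25⟩],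
  [.spn 0 0 651200, .spn 1 1 302400, .spn 3 2 302400, .spn 7 3 302400, .spn 15 4 140426, .spn 31 6 140426, .spn 95 7 140426]⟩

/-- piece 136 of the tree -/
noncomputable def t136 : WN.Tree :=
(.haz 5 335 1 25
(.haz 5 479 3 50
(.haz 4 335 2 5
(.ask 159
(.mark 223 [5, 8, 9]
(.spn
(.haz 8 223 8 25
(.lp [[5], [1, 3, 6, 8], [0, 2, 4, 7, 9]] [(.mj 5 8, 5792), (.mj 6 7, 5792), (.mj 7 5, 5792), (.rw 6, 1), (.rw 7, 1), (.hz 18 223, 2108432), (.hz 18 255, 3475437), (.hz 18 735, 6082015)])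
(.ask 43
(.mark 255 [8, 9, 10]
(.lp [[6, 8], [1, 3, 5, 10], [0, 2, 4, 7, 9]] [(.mj 6 7, 1941), (.mj 7 5, 1067), (.rw 7, 1), (.hz 18 79, 176423), (.hz 18 95, 577006), (.hz 13 1087, 2935832), (.hz 18 223, 343456)]))
(.ask 47
(.mark 255 [8, 9, 10]
(.lp [[6, 8], [1, 3, 5, 10], [0, 2, 4, 7, 9]] [(.mj 6 7, 16082), (.mj 7 5, 8937), (.rw 7, 8), (.hz 18 79, 1461744), (.hz 18 95, 4780763), (.hz 18 223, 2845692), (.hz 13 1151, 21628384)]))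
(.ask 63
(.mark 255 [8, 9, 10]
(.lp [[6, 8], [1, 3, 5, 10], [0, 2, 4, 7, 9]] [(.mj 6 7, 5755), (.mj 7 5, 2537), (.rw 7, 1), (.hz 18 79, 523084), (.hz 18 95, 1710791), (.hz 13 1087, 33248401), (.hz 18 223, 1018328)]))
(.ask 191
(.mark 255 [8, 9, 10]
(.lp [[6, 8], [1, 3, 5, 10], [0, 2, 4, 7, 9]] [(.mj 5 8, 14), (.mj 6 7, 85), (.mj 7 5, 20), (.mj 7 8, 43)]))
(.haz 5 159 3 25
(.ask 335
(.mark 479 [5, 9, 10]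
(.lp [[5], [0, 2, 4, 7, 9], [1, 3, 6, 8, 10]] [(.mj 5 8, 379), (.mj 6 7, 3632), (.mj 7 5, 2854), (.rw 7, 1), (.hz 18 79, 310402), (.hz 18 95, 1174245), (.hz 19 671, 2954274), (.hz 15 1359, 748323), (.hz 19 479, 1343894), (.hz 11 1375, 139822), (.hz 19 1503, 3314080)]))
(.lp [[5], [1, 3, 6, 8], [0, 2, 4, 7, 9]] [(.mj 3 4, 2907), (.mj 6 7, 3199), (.mj 7 5, 3213), (.rw 7, 1), (.hz 18 95, 1817001), (.hz 18 223, 857294), (.hz 19 671, 3260108), (.hz 19 479, 1526281)]))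
(.lp [[5], [1, 3, 6, 8], [0, 2, 4, 7, 9]] [(.mj 6 7, 3199), (.rw 7, 2), (.hz 19 15, 488498), (.hz 19 31, 1138056), (.hz 18 79, 262267), (.hz 18 95, 989637), (.hz 18 223, 589070)])))))))
(.haz 5 335 3 50
(.ask 335
(.mark 479 [5, 9, 10]
(.spn
(.haz 9 479 7 25
(.lp [[5], [0, 2, 4, 7, 9], [1, 3, 6, 8, 10]] [(.mj 5 9, 2138), (.mj 5 10, 150), (.mj 7 8, 1758), (.mj 8 5, 2138), (.rw 8, 1), (.hz 18 1359, 239898), (.hz 19 479, 1159582), (.hz 18 1375, 1082677), (.hz 19 511, 2992856), (.hz 19 1503, 4127754)])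
(.lp [[5], [0, 2, 4, 7, 9], [1, 3, 6, 8, 10]] [(.mj 6 7, 692), (.mj 7 8, 3184), (.mj 8 5, 1809), (.rw 8, 2), (.hz 19 159, 542876), (.hz 19 223, 1633322), (.hz 18 1359, 691086), (.hz 19 479, 1119371), (.hz 18 1375, 3208874), (.hz 16 991, 1449777)]))
(.maj 5 10
(.cut 5 [(0, 1), (1, 1), (2, 1), (3, 1), (5, 1), (7, 1), (11, 1), (21, 1), (15, 1), (23, 1), (149, 1), (31, 1), (79, 1), (151, 1), (95, 1), (159, 1), (335, 1), (223, 1), (351, 1), (479, 1)]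
(.lp [[5], [0, 2, 4, 7, 9], [1, 3, 6, 8, 10]] [(.mj 6 7, 21748), (.mj 7 8, 8740), (.mj 8 9, 258), (.mj 9 5, 12251), (.hz 17 1359, 1551368), (.hz 18 1359, 2622876), (.hz 18 1375, 12196515), (.hz 14 1375, 1836925), (.hz 16 1503, 37236474), (.rw 9, 28)]))
(.ask 1359
(.mark 1503 [5, 9, 11]
(.cut 5 [(0, 1), (1, 1), (2, 1), (3, 1), (5, 1), (7, 1), (11, 1), (21, 1), (15, 1), (23, 1), (149, 1), (31, 1), (79, 1), (151, 1), (95, 1), (159, 1), (335, 1), (223, 1), (351, 1), (1359, 1), (479, 1), (1375, 1), (1503, 1)]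
(.cut 5 [(0, 1), (1, 1), (2, 1), (3, 1), (5, 1), (7, 1), (11, 1), (21, 1), (15, 1), (23, 1), (149, 1), (31, 1), (79, 1), (151, 1), (95, 1), (159, 1), (335, 1), (223, 1), (351, 1), (671, 1), (1359, 1), (479, 1), (735, 1), (1375, 1), (3407, 1), (1503, 1), (3423, 1), (3551, 1)]
(.lp [[5], [0, 2, 4, 7, 9], [1, 3, 6, 8, 10, 11]] [(.mj 6 7, 215479), (.mj 7 8, 138613), (.mj 9 10, 11112), (.mj 10 5, 138010), (.hz 16 479, 6802970), (.hz 16 991, 118011780), (.hz 17 3439, 97865975), (.hz 14 3455, 14524446), (.rw 9, 372), (.rw 10, 2)]))))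
(.cut 5 [(0, 1), (1, 1), (2, 1), (3, 1), (5, 1), (7, 1), (11, 1), (21, 1), (15, 1), (23, 1), (149, 1), (31, 1), (79, 1), (151, 1), (95, 1), (159, 1), (335, 1), (223, 1), (351, 1), (1359, 1), (479, 1), (1375, 1)]
(.cut 5 [(0, 1), (1, 1), (2, 1), (3, 1), (5, 1), (7, 1), (11, 1), (21, 1), (15, 1), (23, 1), (149, 1), (31, 1), (79, 1), (151, 1), (95, 1), (159, 1), (335, 1), (223, 1), (351, 1), (479, 1)]
(.cut 5 [(0, 1), (1, 1), (2, 1), (3, 1), (5, 1), (7, 1), (11, 1), (21, 1), (15, 1), (23, 1), (149, 1), (31, 1), (79, 1), (151, 1), (95, 1), (159, 1), (335, 1), (223, 1), (351, 1), (671, 1), (1359, 1), (479, 1), (735, 1)]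
(.cut 5 [(0, 1), (1, 1), (2, 1), (3, 1), (5, 1), (7, 1), (11, 1), (21, 1), (15, 1), (23, 1), (149, 1), (31, 1), (79, 1), (151, 1), (335, 1), (1359, 1)]
(.cut 5 [(0, 1), (1, 1), (2, 1), (3, 1), (5, 1), (7, 1), (11, 1), (21, 1), (15, 1), (23, 1), (149, 1), (31, 1), (79, 1), (151, 1), (95, 1), (335, 1), (1359, 1)]
(.lp [[5], [0, 2, 4, 7, 9], [1, 3, 6, 8, 10]] [(.mj 3 4, 31590), (.mj 6 7, 611667), (.mj 7 8, 388741), (.mj 9 10, 38381), (.mj 10 5, 403770), (.hz 16 991, 339041387), (.rw 9, 18), (.rw 10, 450), (.rw 11, 13), (.rw 12, 11), (.rw 13, 613)]))))))))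
(.cut 5 [(0, 1), (1, 1), (2, 1), (3, 1), (5, 1), (7, 1), (11, 1), (21, 1), (15, 1), (23, 1), (149, 1), (31, 1), (79, 1), (151, 1), (95, 1), (159, 1), (335, 1), (351, 1)]
(.cut 5 [(0, 1), (1, 1), (2, 1), (3, 1), (5, 1), (7, 1), (11, 1), (21, 1), (15, 1), (23, 1), (149, 1), (31, 1), (79, 1), (151, 1), (95, 1), (159, 1), (335, 1), (223, 1), (351, 1)]
(.cut 5 [(0, 1), (1, 1), (2, 1), (3, 1), (5, 1), (7, 1), (11, 1), (21, 1), (15, 1), (23, 1), (149, 1), (31, 1), (79, 1), (151, 1), (95, 1), (159, 1), (335, 1), (223, 1), (351, 1), (1359, 1), (479, 1), (1375, 1)]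
(.cut 5 [(0, 1), (1, 1), (2, 1), (3, 1), (5, 1), (7, 1), (11, 1), (21, 1), (15, 1), (23, 1), (149, 1), (31, 1), (79, 1), (151, 1), (95, 1), (159, 1), (335, 1), (223, 1), (351, 1), (671, 1), (1359, 1), (479, 1)]
(.lp [[5], [0, 2, 4, 7, 9], [1, 3, 6, 8, 10]] [(.mj 6 7, 3202659), (.mj 7 8, 5333225), (.mj 10 5, 3914361), (.mj 10 9, 1779255), (.hz 17 1359, 79155669), (.hz 18 1359, 308736865), (.hz 18 1375, 552446251), (.rw 9, 3145), (.rw 10, 6204), (.rw 11, 436), (.rw 12, 667)])))))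
.fin))
(.ref 0))
(.cut 5 [(0, 1), (1, 1), (2, 1), (3, 1), (5, 1), (7, 1), (11, 1), (21, 1), (15, 1), (23, 1), (149, 1), (31, 1), (79, 1), (151, 1), (95, 1), (159, 1), (223, 1)]
(.lp [[5], [1, 3, 6, 8], [0, 2, 4, 7, 9]] [(.mj 3 4, 39276), (.mj 6 7, 22628), (.mj 7 8, 36228), (.hz 18 11, 852034), (.hz 18 15, 7071027), (.hz 15 335, 10671194), (.hz 16 479, 9169485), (.rw 8, 22)])))
(.cut 5 [(0, 1), (1, 1), (2, 1), (3, 1), (5, 1), (7, 1), (11, 1), (21, 1), (15, 1), (23, 1), (149, 1), (31, 1), (79, 1), (151, 1), (95, 1), (159, 1), (223, 1)]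
(.lp [[5], [1, 3, 6, 8], [0, 2, 4, 7, 9]] [(.mj 6 7, 840), (.mj 9 5, 560), (.mj 9 8, 463), (.hz 17 335, 146011), (.hz 15 335, 12146), (.hz 14 351, 225960), (.rw 8, 1)]))
.fin))
(.ref 1))
(.lp [[5], [0, 2, 4, 7], [1, 3, 6, 8]] [(.mj 0 1, 55755), (.mj 4 6, 1869), (.mj 7 8, 1132), (.rw 6, 1), (.hz 17 15, 12732307), (.hz 9 47, 571525), (.hz 9 111, 304466), (.hz 12 335, 1052776), (.hz 15 335, 339677), (.hz 11 351, 1188870)]))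
(.cut 5 [(0, 1), (1, 1), (2, 1), (3, 1), (5, 1), (7, 1), (11, 1), (21, 1), (23, 1), (149, 1), (151, 1)]
(.lp [[5], [0, 2, 4, 7], [1, 3, 6, 8]] [(.mj 3 4, 2), (.hz 16 15, 100398), (.hz 16 31, 82246), (.hz 16 159, 102808), (.rw 7, 1)])))
(.cut 5 [(0, 1), (1, 1), (2, 1), (3, 1), (5, 1), (7, 1), (11, 1), (21, 1), (23, 1), (149, 1), (151, 1)]
(.lp [[5], [0, 2, 4, 7], [1, 3, 6, 8]] [(.mj 6 7, 659), (.mj 7 8, 368), (.hz 15 11, 9905), (.hz 15 15, 804037), (.hz 8 63, 164268), (.hz 12 335, 28758), (.hz 11 351, 792484), (.rw 7, 2)])))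

theorem run136 : run P3488 (leaf3 218 625) (cutRow P3488) [s133, s135] t136 s136 = true := by
  decide +kernel

theorem bad136 : Bad P3488 s136 :=
  run_sound (leaf3_sound P3488 rfl rfl) (cutRow_sound P3488) (
    List.forall_mem_cons.2 ⟨bad133, List.forall_mem_cons.2 ⟨bad135, fun _ h => absurd h List.not_mem_nil⟩⟩) t136 s136 run136

end Pool.Agent.WN.Data
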