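import Pool.Agent.WN.CutRow
import Pool.Agent.WN.LeafRow
import Pool.Agent.Helper99.WN.ParDef
import Pool.Agent.WN.Data.D23
import Pool.Agent.WN.Data.D24
import Pool.Agent.WN.Data.D25
import Pool.Agent.WN.Data.D26
import Pool.Agent.WN.Data.D27
import Pool.Agent.WN.Data.D28
import Pool.Agent.WN.Data.D31
import Pool.Agent.WN.Data.D33

/-!
# The search tree, part 36
-/

set_option autoImplicit false

namespace Pool.Agent.WN.Data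

open Pool.Agent.W3 Pool.Agent.WN Pool.Agent.Helper99.WN

/-- the state above piece 17 of the tree -/
def s17 : St := ⟨[0, 0, 1, 1, 2, 7, 13], [7, 5, 9, 3, 1, 0], [0, 1, 2, 3],
  [],
  [⟨true, 1, 9, 7, 50⟩, ⟨true, 2, 11, 3, 50⟩, ⟨true, 2, 9, 9, 50⟩, ⟨true, 3, 3, 1, 5⟩],
  [.spn 0 0 651200, .spn 1 1 140426, .spn 3 2 140426, .spn 7 3 62723]⟩

/-- piece 17 of the tree -/
noncomputable def t17 : WN.Tree :=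
(.mark 15 [4, 5, 6]
(.spn
(.haz 5 79 3 20
(.haz 5 79 1 5
(.haz 3 39 1 4
(.haz 3 39 3 10
(.haz 4 79 1 5
(.haz 4 39 1 5
(.haz 5 79 6 25
(.ask 39
(.haz 6 175 4 25
(.haz 6 15 23 50
(.mark 39 [3, 4, 7]
(.lp [[1, 4], [3, 6], [0, 2, 5, 7]] [(.mj 2 3, 6), (.mj 3 4, 7), (.mj 4 6, 7), (.hz 12 15, 662), (.hz 9 47, 1368), (.hz 12 47, 1148), (.hz 7 167, 3644), (.hz 9 167, 2733), (.hz 12 175, 1287)]))
(.maj 5 6
(.haz 2 19 11 25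
(.haz 6 191 6 25
(.haz 3 39 17 50
(.haz 5 79 7 25
(.ask 77
(.mark 111 [4, 7, 8]
(.lp [[1, 4], [3, 6, 8], [0, 2, 5, 7]] [(.mj 2 3, 101), (.mj 3 4, 88), (.mj 4 5, 53), (.mj 5 6, 9), (.hz 12 13, 1299), (.hz 15 39, 340), (.hz 9 39, 26263), (.hz 16 79, 8862), (.hz 9 167, 32829), (.hz 0 333, 36), (.hz 16 335, 15884)]))
(.ask 79
(.mark 111 [4, 7, 8]
(.lp [[1, 4], [3, 6, 8], [0, 2, 5, 7]] [(.mj 2 3, 41), (.mj 3 4, 37), (.mj 4 5, 22), (.mj 4 6, 1), (.mj 5 6, 4), (.hz 9 39, 10333), (.hz 8 79, 2175), (.hz 16 79, 5112), (.hz 15 167, 224), (.hz 9 167, 13868), (.hz 9 175, 1867), (.hz 16 335, 5137)]))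
(.lp [[1, 4], [3, 6], [0, 2, 5, 7]] [(.mj 0 1, 61), (.mj 2 3, 12), (.mj 4 5, 10), (.mj 5 6, 4), (.hz 15 39, 53), (.hz 16 79, 476)])))
(.mark 39 [3, 4, 7]
(.lp [[1, 4], [3, 6], [0, 2, 5, 7]] [(.mj 2 3, 54), (.mj 3 4, 46), (.mj 5 6, 17), (.hz 16 7, 2575), (.hz 16 15, 5995), (.hz 9 39, 13839), (.hz 8 79, 43065), (.hz 9 167, 17299)])))
(.mark 39 [3, 4, 7]
(.lp [[1, 4], [3, 6], [0, 2, 5, 7]] [(.mj 2 3, 6), (.mj 3 4, 13), (.mj 4 5, 8), (.hz 15 5, 248), (.hz 15 7, 504), (.hz 7 39, 2336), (.hz 9 39, 3945), (.hz 10 79, 2021), (.hz 9 167, 4931)])))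
(.mark 39 [3, 4, 7]
(.lp [[1, 4], [3, 6], [0, 2, 5, 7]] [(.mj 2 3, 6), (.mj 3 4, 5), (.mj 4 5, 3), (.hz 14 13, 134), (.hz 14 15, 334), (.hz 7 39, 67), (.hz 9 39, 1510), (.hz 10 79, 778), (.hz 9 167, 1887)])))
(.lp [[1, 4], [3, 6], [0, 2, 5, 7]] [(.mj 0 1, 52), (.mj 2 3, 44), (.hz 13 3, 2191), (.hz 3 19, 21974), (.hz 12 13, 551)]))
(.mark 39 [3, 4, 7]
(.lp [[1, 4], [3, 6], [0, 2, 5, 7]] [(.mj 2 3, 140), (.mj 3 4, 125), (.mj 4 6, 43), (.mj 6 5, 50), (.hz 12 13, 574), (.hz 9 39, 70305), (.hz 9 47, 128738), (.hz 10 79, 12533), (.hz 7 167, 7874), (.hz 9 167, 46917), (.hz 11 175, 14996)]))))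
(.mark 47 [4, 6, 7]
(.lp [[1, 4], [3, 6], [0, 2, 5, 7]] [(.mj 0 1, 13), (.mj 2 3, 3), (.mj 4 5, 2), (.hz 11 13, 306), (.hz 11 15, 327), (.hz 10 79, 565), (.hz 9 167, 57)])))
(.haz 6 47 3 10
(.ask 47
(.mark 47 [4, 6, 7]
(.lp [[1, 4], [3, 6], [0, 2, 5, 7]] [(.mj 2 3, 42), (.mj 3 4, 37), (.mj 4 5, 11), (.mj 4 6, 16), (.hz 11 47, 13933), (.hz 11 63, 959), (.hz 11 175, 10640)]))
(.lp [[1, 4], [3, 6], [0, 2, 5]] [(.mj 2 3, 10), (.mj 3 4, 7), (.mj 4 5, 1), (.mj 4 6, 2), (.hz 11 63, 1336)]))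
(.lp [[1, 4], [3, 6], [0, 2, 5]] [(.mj 2 3, 45), (.mj 3 4, 37), (.mj 4 5, 23), (.hz 11 13, 2592), (.hz 11 15, 6530), (.hz 9 39, 10821), (.hz 10 79, 5771)])))
(.lp [[1, 4], [3, 6], [0, 2, 5]] [(.mj 2 3, 45), (.mj 3 4, 40), (.mj 4 6, 16), (.hz 10 7, 2722), (.hz 10 15, 4350), (.hz 9 39, 14972), (.hz 5 79, 22602)]))
(.lp [[1, 4], [3, 6], [0, 2, 5]] [(.mj 1 2, 2), (.mj 2 3, 70), (.mj 4 5, 56), (.mj 4 6, 12), (.hz 9 2, 7654), (.hz 9 3, 17222), (.hz 9 7, 28825), (.hz 7 39, 13305), (.hz 5 79, 85730)]))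
(.lp [[1, 4], [3, 6], [0, 2, 5]] [(.mj 2 3, 7), (.mj 4 5, 16), (.mj 4 6, 8), (.hz 8 2, 1708), (.hz 8 3, 3844), (.hz 8 7, 6514), (.hz 8 15, 13730), (.hz 7 39, 1011), (.hz 5 79, 30201)]))
(.lp [[1, 4], [3, 6], [0, 2, 5]] [(.mj 0 1, 61), (.mj 4 5, 11), (.hz 7 5, 5403), (.hz 7 7, 1210), (.hz 6 39, 8628), (.hz 5 79, 13587)]))
(.lp [[1, 4], [3, 6], [0, 2, 5]] [(.mj 0 1, 12), (.mj 4 5, 2), (.hz 6 5, 3262), (.hz 6 7, 163), (.hz 3 39, 1454)]))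
(.lp [[1, 4], [3, 6], [0, 2, 5]] [(.mj 2 3, 37), (.mj 3 4, 34), (.mj 4 6, 14), (.hz 5 7, 14053), (.hz 5 15, 17886), (.hz 4 79, 4900)]))
(.lp [[1, 4], [3, 6], [0, 2, 5]] [(.mj 2 3, 19), (.mj 3 4, 17), (.mj 4 6, 8), (.hz 4 7, 1756), (.hz 4 15, 2200)]))
(.ask 39
(.ref 0)
(.haz 3 23 3 10
(.haz 1 77 19 40
(.ask 47
(.mark 47 [4, 6, 7]
(.spn
(.haz 4 111 1 10
(.haz 7 111 13 40
(.ask 18
(.mark 63 [6, 7, 8]
(.lp [[3, 6], [1, 4, 8], [0, 2, 5, 7]] [(.mj 0 1, 10620), (.mj 2 3, 23051), (.mj 4 7, 1986), (.mj 5 4, 2645), (.rw 5, 1), (.hz 3 275, 6637612), (.hz 5 77, 114442), (.hz 4 279, 19353344), (.hz 6 111, 5183337), (.hz 7 111, 651797)]))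
(.ask 19
(.mark 63 [6, 7, 8]
(.lp [[3, 6], [1, 4, 8], [0, 2, 5, 7]] [(.mj 2 3, 31), (.mj 4 7, 4), (.mj 5 4, 8), (.hz 4 23, 4165), (.hz 3 275, 13518), (.hz 4 279, 19253), (.hz 6 111, 10883), (.hz 7 111, 1369)]))
(.ask 27
(.mark 63 [6, 7, 8]
(.lp [[3, 6], [1, 4, 8], [0, 2, 5, 7]] [(.mj 2 3, 1)]))
(.haz 3 55 21 40
(.haz 4 15 7 40
(.lp [[1, 4], [3, 6], [0, 2, 5, 7]] [(.mj 2 3, 29), (.mj 4 7, 8), (.mj 5 4, 41), (.hz 9 15, 9028), (.hz 5 77, 870), (.hz 9 79, 8364), (.hz 7 111, 2613)])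
(.lp [[1, 4], [3, 6], [0, 2, 5, 7]] [(.mj 2 3, 19), (.mj 4 7, 3), (.hz 9 7, 1097), (.hz 8 55, 706), (.hz 6 111, 5248), (.hz 7 111, 1020)]))
(.lp [[1, 4], [3, 6], [0, 2, 5, 7]] [(.mj 2 3, 62), (.mj 5 4, 26), (.hz 4 23, 46417), (.hz 8 39, 3035)])))))
(.lp [[1, 4], [3, 6], [0, 2, 5, 7]] [(.mj 2 3, 3), (.mj 4 6, 6), (.mj 5 4, 10), (.hz 7 47, 1435), (.hz 6 111, 12328)]))
(.lp [[1, 4], [3, 6], [0, 2, 5, 7]] [(.mj 2 3, 3495), (.mj 4 7, 284), (.rw 5, 1), (.hz 6 2, 90048), (.hz 6 3, 190101), (.hz 6 7, 301272), (.hz 6 39, 334746)]))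
(.haz 4 47 1 8
(.lp [[1, 4], [3, 6], [0, 2, 5, 7]] [(.mj 2 3, 10), (.mj 5 6, 1), (.mj 6 4, 6), (.hz 6 47, 12659), (.hz 6 111, 9864), (.hz 6 175, 5425)])
(.lp [[1, 4], [3, 6], [0, 2, 5, 7]] [(.mj 2 3, 49), (.mj 6 7, 4), (.hz 6 2, 1677), (.hz 6 7, 4690), (.hz 3 19, 25155), (.hz 4 23, 1354), (.hz 6 39, 5941)]))
(.ask 175
(.mark 175 [4, 6, 8]
(.spn
(.lp [[1, 4], [3, 6], [0, 2, 5, 7, 8]] [(.mj 7 4, 281), (.rw 6, 1)])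
(.ask 77
(.mark 79 [4, 5, 9]
(.cut 4 [(0, 1), (1, 1), (2, 1), (3, 1), (5, 1), (9, 1), (7, 1), (11, 1), (13, 1), (15, 1), (39, 1), (77, 1), (47, 1), (79, 1), (589, 1)]
(.lp [[1, 4], [3, 6, 9], [0, 2, 5, 7, 8]] [(.mj 2 3, 215253), (.mj 6 4, 22517), (.rw 5, 35), (.rw 6, 83), (.hz 5 589, 13905641), (.rw 7, 185)])))
(.cut 4 [(0, 1), (1, 1), (2, 1), (3, 1), (5, 1), (9, 1), (7, 1), (11, 1), (13, 1), (15, 1), (39, 1), (77, 1), (47, 1), (175, 1)]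
(.lp [[1, 4], [3, 6], [0, 2, 5, 7, 8]] [(.mj 2 3, 2081), (.mj 6 8, 2649), (.mj 7 6, 3450), (.rw 5, 2), (.rw 6, 4), (.rw 7, 8)])))
(.haz 4 47 1 10
(.lp [[1, 4], [3, 6], [0, 2, 5, 7, 8]] [(.mj 2 3, 24895), (.mj 8 4, 12447), (.rw 6, 1), (.hz 6 47, 24203407), (.hz 6 175, 9604527)])
(.ask 431
(.mark 431 [4, 6, 9]
(.spn
(.lp [[1, 4], [3, 6], [0, 2, 5, 7, 8, 9]] [(.mj 8 4, 151), (.rw 7, 1)])
(.lp [[1, 4], [3, 6], [0, 2, 5, 7, 8, 9]] [(.mj 8 6, 507), (.rw 7, 1)])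
(.maj 4 6
(.cut 4 [(0, 1), (1, 1), (2, 1), (3, 1), (5, 1), (9, 1), (7, 1), (11, 1), (13, 1), (15, 1), (39, 1), (47, 1)]
(.cut 4 [(0, 1), (1, 1), (2, 1), (3, 1), (5, 1), (9, 1), (7, 1), (11, 1), (13, 1), (15, 1), (39, 1), (47, 1), (175, 1)]
(.lp [[1, 4], [3, 6], [0, 2, 5, 7, 8, 9]] [(.mj 2 3, 3126), (.mj 9 4, 1524), (.rw 8, 4), (.rw 9, 1)])))
(.cut 4 [(0, 1), (1, 1), (2, 1), (3, 1), (5, 1), (9, 1), (7, 1), (11, 1), (13, 1), (15, 1), (39, 1), (77, 1), (47, 1), (175, 1)]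
(.cut 4 [(0, 1), (1, 1), (2, 1), (3, 1), (5, 1), (9, 1), (7, 1), (11, 1), (13, 1), (15, 1), (39, 1), (77, 1), (47, 1), (79, 1), (175, 1), (431, 1)]
(.cut 6 [(0, 1), (1, 1), (2, 1), (3, 1), (5, 1), (9, 1), (7, 1), (11, 1), (13, 1), (15, 1), (39, 1), (47, 1)]
(.lp [[1, 4], [3, 6], [0, 2, 5, 7, 8, 9]] [(.mj 2 3, 82869), (.mj 6 4, 2569), (.mj 9 4, 590), (.hz 6 2, 1764386), (.hz 3 19, 33523337), (.hz 4 23, 16467604), (.hz 6 39, 5489201), (.rw 8, 6), (.rw 9, 2), (.rw 10, 7)])))))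
.fin))
(.lp [[1, 4], [3, 6], [0, 2, 5, 7, 8]] [(.mj 8 6, 1), (.rw 6, 1)])))
.fin))
(.lp [[1, 4], [3, 6], [0, 2, 5, 7]] [(.mj 7 6, 1), (.rw 5, 1)]))
.fin))
(.spn
(.lp [[1, 4], [3, 6], [0, 2, 5]] [(.mj 4 6, 2), (.mj 5 4, 3)])
(.cut 4 [(0, 1), (1, 1), (2, 1), (3, 1), (5, 1), (9, 1), (7, 1), (11, 1), (13, 1), (15, 1), (39, 1), (77, 1), (47, 1)]
(.lp [[1, 4], [3, 6], [0, 2, 5]] [(.mj 0 1, 2000), (.mj 1 2, 2616), (.mj 2 3, 2333), (.mj 5 6, 1554), (.mj 6 4, 1337), (.hz 3 19, 1249841), (.hz 4 23, 339104), (.hz 4 55, 237373), (.rw 6, 1)]))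
.fin
.fin))
(.lp [[1, 4], [3, 6], [0, 2, 5]] [(.mj 0 1, 85), (.mj 1 2, 80), (.mj 2 3, 99), (.mj 5 4, 11), (.hz 5 5, 2383), (.hz 3 19, 52989), (.hz 4 23, 11098), (.hz 0 77, 545)]))
(.lp [[1, 4], [3, 6], [0, 2, 5]] [(.mj 3 4, 2), (.hz 4 5, 149), (.hz 4 7, 1183), (.hz 3 23, 968)])))
(.haz 4 39 2 25
(.haz 4 7 9 50
(.lp [[1, 4], [3, 6], [0, 2, 5]] [(.mj 1 2, 8), (.mj 6 4, 5), (.hz 5 7, 127), (.hz 5 15, 409), (.hz 3 39, 688), (.hz 5 39, 201), (.hz 5 47, 733)])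
(.haz 5 15 8 25
(.lp [[1, 4], [3, 6], [0, 2, 5]] [(.mj 1 2, 4), (.mj 2 3, 14), (.mj 6 5, 12), (.hz 5 2, 163), (.hz 5 3, 218), (.hz 5 7, 519), (.hz 3 19, 5922), (.hz 6 15, 2861), (.hz 4 39, 1788), (.hz 4 47, 5960)])
(.lp [[1, 4], [3, 6], [0, 2, 5]] [(.mj 2 3, 2), (.hz 5 2, 12), (.hz 5 7, 58), (.hz 6 7, 115), (.hz 3 19, 1062), (.hz 6 15, 18)])))
(.lp [[1, 4], [3, 6], [0, 2, 5]] [(.mj 1 2, 3), (.mj 2 3, 1), (.mj 6 5, 1), (.hz 4 2, 54), (.hz 4 3, 212), (.hz 3 39, 501)]))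
.fin))

theorem run17 : run P3488 (leaf3 218 625) (cutRow P3488) [s10] t17 s17 = true := by
  decide +kernel

theorem bad17 : Bad P3488 s17 :=
  run_sound (leaf3_sound P3488 rfl rfl) (cutRow_sound P3488) (
    List.forall_mem_cons.2 ⟨bad10, fun _ h => absurd h List.not_mem_nil⟩) t17 s17 run17

/-- the state above piece 72 of the tree -/
def s72 : St := ⟨[0, 0, 1, 1, 3, 5], [3, 2, 1, 0], [0, 1, 2],
  [],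
  [⟨true, 1, 9, 7, 50⟩, ⟨true, 2, 11, 3, 50⟩, ⟨true, 2, 9, 9, 50⟩, ⟨false, 3, 3, 1, 5⟩, ⟨true, 2, 3, 1, 4⟩, ⟨true, 1, 9, 3, 10⟩, ⟨true, 2, 9, 3, 10⟩, ⟨true, 1, 9, 7, 20⟩, ⟨true, 1, 5, 7, 20⟩],
  [.spn 0 0 651200, .spn 1 1 140426, .spn 3 2 140426]⟩

/-- piece 72 of the tree -/
noncomputable def t72 : WN.Tree :=
(.mark 7 [3, 4, 5]
(.spn
(.haz 4 39 3 20
(.haz 3 19 3 20
(.haz 4 7 1 4
(.ask 9
(.mark 15 [4, 5, 6]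
(.lp [[1, 4], [3, 6], [0, 2, 5]] [(.mj 1 2, 42), (.mj 3 4, 53), (.mj 3 5, 5), (.hz 3 1, 1926), (.hz 3 3, 19917), (.hz 11 7, 11702), (.hz 7 73, 959), (.hz 6 73, 2555), (.hz 11 39, 37078), (.hz 11 79, 4797)]))
(.lp [[3], [1, 4], [0, 2, 5]] [(.mj 1 2, 57), (.mj 3 4, 88), (.mj 3 5, 18), (.hz 3 3, 55220), (.hz 11 7, 12536), (.hz 10 19, 5698), (.hz 11 39, 69132), (.hz 10 55, 560)]))
(.ask 9
(.mark 15 [4, 5, 6]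
(.lp [[1, 4], [3, 6], [0, 2, 5]] [(.mj 1 2, 1), (.mj 3 5, 1), (.hz 3 1, 21), (.hz 3 3, 849), (.hz 11 3, 630), (.hz 11 7, 774), (.hz 7 73, 61), (.hz 9 39, 153)]))
(.lp [[3], [1, 4], [0, 2, 5]] [(.mj 1 2, 29), (.mj 3 5, 54), (.hz 3 3, 59484), (.hz 11 3, 23939), (.hz 11 7, 39898), (.hz 10 19, 7980), (.hz 9 39, 8611), (.hz 10 55, 1672)])))
(.lp [[3], [1, 4], [0, 2, 5]] [(.mj 1 2, 10), (.mj 3 4, 40), (.mj 3 5, 22), (.hz 10 1, 1352), (.hz 10 3, 5529), (.hz 4 19, 2282), (.hz 9 39, 8367)]))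
(.lp [[3], [1, 4], [0, 2, 5]] [(.mj 1 2, 3), (.mj 3 5, 1), (.hz 3 1, 240), (.hz 3 3, 664), (.hz 9 3, 166), (.hz 9 7, 145)]))
(.haz 3 37 1 20
(.ask 19
(.ref 0)
(.haz 2 11 2 5
(.haz 4 39 7 20
(.ask 23
(.mark 23 [3, 5, 6]
(.spn
(.haz 3 55 1 10
(.haz 5 23 1 5
(.ask 87
(.maj 5 7
(.haz 3 39 7 50
(.maj 5 6
(.haz 6 31 19 50
(.mark 87 [3, 5, 7]
(.lp [[3], [0, 2, 5], [1, 4, 6, 7]] [(.mj 2 4, 21), (.mj 3 5, 53), (.mj 4 3, 67), (.mj 5 6, 34), (.hz 8 37, 408), (.hz 9 37, 2457), (.hz 14 39, 3440), (.hz 13 31, 4912), (.hz 15 31, 6985), (.hz 13 87, 26557), (.hz 13 215, 33197)]))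
(.mark 87 [3, 5, 7]
(.lp [[3], [0, 2, 5], [1, 4, 6, 7]] [(.mj 3 5, 11), (.mj 4 3, 17), (.mj 5 6, 1), (.hz 15 23, 584), (.hz 14 39, 1222), (.hz 13 31, 8966), (.hz 13 87, 5345), (.hz 13 215, 6681)])))
(.lp [[3], [0, 2, 5], [1, 4, 6, 7]] [(.mj 2 4, 15), (.mj 3 6, 23), (.mj 4 3, 37), (.mj 6 5, 31), (.hz 8 37, 118), (.hz 9 37, 3081), (.hz 14 39, 2155), (.hz 13 31, 97203), (.hz 13 87, 25730)]))
(.mark 87 [3, 5, 7]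
(.lp [[3], [0, 2, 5], [1, 4, 6, 7]] [(.mj 3 5, 4), (.mj 3 6, 2), (.hz 14 1, 31), (.hz 14 3, 162), (.hz 14 5, 36), (.hz 14 7, 312), (.hz 13 23, 61), (.hz 13 31, 2941), (.hz 13 87, 3991), (.hz 13 215, 2472)])))
(.lp [[3], [0, 2, 5], [1, 4, 6, 7]] [(.mj 2 4, 2), (.mj 3 6, 4), (.mj 4 3, 8), (.mj 7 5, 8), (.hz 13 23, 526), (.hz 10 27, 2009), (.hz 13 31, 30597), (.hz 13 87, 8850)]))
(.lp [[3], [0, 2, 5], [1, 4, 6]] [(.mj 3 5, 2), (.mj 4 3, 3), (.hz 13 31, 5046)]))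
(.haz 6 55 3 10
(.haz 6 55 17 40
(.haz 3 39 1 8
(.ask 37
(.mark 55 [3, 6, 7]
(.lp [[3], [1, 4, 6], [0, 2, 5, 7]] [(.mj 3 6, 3), (.mj 4 3, 5), (.hz 13 5, 447), (.hz 13 7, 40), (.hz 16 39, 1374), (.hz 15 55, 142), (.hz 16 167, 4357), (.hz 15 183, 660)]))
(.ask 39
(.mark 55 [3, 6, 7]
(.lp [[3], [1, 4, 6], [0, 2, 5, 7]] [(.mj 3 6, 3), (.mj 4 3, 5), (.hz 13 7, 628), (.hz 16 39, 1657), (.hz 15 55, 203), (.hz 16 167, 2771), (.hz 11 167, 64), (.hz 15 183, 641)]))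
(.lp [[3], [0, 2, 5], [1, 4, 6]] [(.mj 3 6, 73), (.mj 4 3, 108), (.hz 13 23, 30368), (.hz 16 39, 59804), (.hz 15 55, 10258)])))
(.lp [[3], [0, 2, 5], [1, 4, 6]] [(.mj 3 6, 1), (.hz 16 1, 37), (.hz 16 3, 509), (.hz 16 5, 55), (.hz 13 5, 87), (.hz 13 7, 375), (.hz 13 23, 145), (.hz 15 55, 139)]))
(.lp [[3], [0, 2, 5], [1, 4, 6]] [(.mj 4 3, 1), (.hz 13 5, 41), (.hz 13 7, 182), (.hz 9 37, 65), (.hz 13 23, 572), (.hz 15 23, 84), (.hz 12 55, 512)]))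
(.lp [[3], [0, 2, 5], [1, 4, 6]] [(.mj 4 3, 1), (.hz 13 5, 67), (.hz 13 7, 217), (.hz 13 23, 649), (.hz 14 23, 324)])))
(.lp [[3], [0, 2, 5], [1, 4, 6]] [(.mj 3 5, 397), (.mj 3 6, 735), (.rw 4, 4), (.hz 9 37, 13044), (.hz 12 23, 2296349), (.hz 9 39, 52861)]))
(.ref 1)
(.ask 87
(.mark 87 [3, 5, 7]
(.spn
(.lp [[3], [0, 2, 5], [1, 4, 6, 7]] [(.mj 6 3, 290), (.rw 5, 1)])
(.cut 3 [(0, 1), (1, 1), (2, 1), (3, 1), (5, 1), (7, 1), (19, 1), (23, 1), (87, 1)]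
(.lp [[3], [0, 2, 5], [1, 4, 6, 7]] [(.mj 5 3, 1386), (.mj 5 7, 1386), (.mj 6 5, 3050), (.rw 5, 1), (.rw 6, 5)]))
(.haz 5 23 3 20
(.cut 3 [(0, 1), (1, 1), (2, 1), (3, 1), (5, 1), (7, 1)]
(.cut 3 [(0, 1), (1, 1), (2, 1), (3, 1), (5, 1), (7, 1), (19, 1), (23, 1)]
(.lp [[3], [0, 2, 5], [1, 4, 6, 7]] [(.mj 0 1, 7371), (.mj 7 5, 5986), (.rw 5, 5), (.hz 12 23, 2793498), (.hz 7 45, 610822), (.hz 12 31, 1521544), (.hz 12 87, 2135246), (.hz 12 95, 4302105), (.rw 6, 5), (.rw 7, 11)])))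
(.ask 215
(.mark 215 [3, 5, 8]
(.spn
(.lp [[3], [0, 2, 5], [1, 4, 6, 7, 8]] [(.mj 7 3, 153), (.rw 6, 1)])
(.lp [[3], [0, 2, 5], [1, 4, 6, 7, 8]] [(.mj 7 5, 1024), (.rw 6, 2)])
(.maj 3 5
(.cut 3 [(0, 1), (1, 1), (2, 1), (3, 1), (5, 1), (7, 1), (19, 1), (23, 1)]
(.lp [[3], [0, 2, 5], [1, 4, 6, 7, 8]] [(.mj 0 1, 89376), (.mj 8 3, 37254), (.hz 12 5, 1044455), (.hz 8 37, 399614), (.hz 9 37, 1164195), (.hz 9 39, 10556091), (.hz 11 39, 1408784), (.hz 9 55, 28175688), (.rw 7, 94)]))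
(.cut 3 [(0, 1), (1, 1), (2, 1), (3, 1), (5, 1), (7, 1)]
(.cut 3 [(0, 1), (1, 1), (2, 1), (3, 1), (5, 1), (7, 1), (37, 2), (39, 1)]
(.cut 3 [(0, 1), (1, 1), (2, 1), (3, 1), (5, 1), (7, 1), (19, 1), (37, 2), (23, 1), (39, 2), (55, 1), (87, 1), (119, 1)]
(.cut 5 [(0, 1), (1, 1), (2, 1), (3, 1), (5, 1), (7, 1), (19, 1), (23, 1), (87, 1), (215, 1)]
(.lp [[3], [0, 2, 5], [1, 4, 6, 7, 8]] [(.mj 0 1, 54465), (.mj 2 4, 294), (.mj 8 5, 9735), (.rw 6, 8), (.hz 7 9, 869235), (.hz 7 13, 869235), (.hz 7 45, 2027760), (.hz 9 55, 12046079), (.hz 9 119, 18997550), (.hz 9 247, 14476425), (.hz 9 503, 620952), (.rw 7, 5), (.rw 8, 9), (.rw 9, 13), (.rw 10, 57)]))))))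
.fin))
(.lp [[3], [0, 2, 5], [1, 4, 6, 7]] [(.mj 7 5, 1), (.rw 5, 1)])))
.fin))
(.lp [[3], [0, 2, 5], [1, 4, 6]] [(.mj 6 5, 1), (.rw 4, 1)]))
.fin))
(.spn
(.lp [[3], [1, 4], [0, 2, 5]] [(.mj 3 5, 2), (.mj 4 3, 3)])
(.cut 3 [(0, 1), (1, 1), (2, 1), (3, 1), (5, 1), (7, 1), (19, 1), (23, 1)]
(.lp [[3], [1, 4], [0, 2, 5]] [(.mj 4 5, 1021), (.mj 5 3, 454), (.rw 5, 1)]))
.fin
.fin))
(.lp [[3], [1, 4], [0, 2, 5]] [(.mj 4 3, 27), (.mj 4 5, 35), (.hz 3 3, 5928), (.hz 11 7, 6158), (.hz 9 37, 3955), (.hz 9 39, 12113)]))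
(.lp [[3], [1, 4], [0, 2, 5]] [(.mj 0 1, 32), (.mj 2 4, 31), (.mj 4 3, 35), (.hz 10 3, 35815), (.hz 3 3, 3519), (.hz 6 11, 12421), (.hz 8 37, 2950), (.hz 9 37, 1087)])))
(.cut 3 [(0, 1), (2, 1)]
(.lp [[3], [1, 4], [0, 2, 5]] [(.mj 1 2, 1516), (.hz 9 1, 1894620), (.hz 6 9, 2284689), (.rw 4, 22)])))
(.haz 4 11 9 50
(.haz 2 9 9 25
(.haz 2 19 19 50
(.ask 37
(.mark 39 [3, 4, 6]
(.lp [[3], [1, 4], [0, 2, 5, 6]] [(.mj 1 2, 65), (.mj 5 3, 3), (.mj 5 4, 37), (.hz 3 3, 6696), (.hz 10 9, 2356), (.hz 9 11, 1735), (.hz 11 19, 332), (.hz 9 15, 3362), (.hz 11 27, 797)]))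
(.ask 39
(.mark 39 [3, 4, 6]
(.spn
(.haz 4 39 4 25
(.lp [[3], [1, 4], [0, 2, 5, 6]] [(.mj 1 2, 7), (.mj 3 4, 10), (.mj 3 6, 4), (.mj 5 3, 9), (.hz 10 9, 118), (.hz 9 11, 237), (.hz 11 19, 59), (.hz 9 15, 883), (.hz 12 39, 333), (.hz 12 103, 1905)])
(.lp [[3], [1, 4], [0, 2, 5, 6]] [(.mj 1 2, 1), (.hz 3 3, 164), (.hz 12 3, 33), (.hz 10 9, 29), (.hz 12 7, 18)]))
(.ask 19
(.mark 55 [3, 6, 7]
(.spn
(.lp [[3], [1, 4, 7], [0, 2, 5, 6]] [(.mj 3 6, 557), (.mj 4 3, 557), (.mj 5 4, 1273), (.rw 4, 1), (.rw 5, 1)])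
(.cut 3 [(0, 1), (1, 1), (2, 1), (3, 1), (5, 1), (7, 1), (19, 1), (23, 1)]
(.lp [[3], [1, 4, 7], [0, 2, 5, 6]] [(.mj 1 2, 11178), (.mj 5 4, 4500), (.mj 6 3, 2184), (.rw 4, 1), (.hz 10 9, 279138), (.hz 10 11, 234098), (.hz 9 11, 196122), (.hz 11 147, 71655), (.hz 9 47, 420122), (.hz 11 155, 365518), (.rw 6, 5)]))
(.lp [[3], [1, 4, 7], [0, 2, 5, 6]] [(.mj 1 2, 1290), (.mj 5 4, 1604), (.mj 7 3, 371), (.mj 7 6, 500), (.rw 4, 1), (.hz 10 9, 53744), (.hz 10 11, 26611), (.hz 9 11, 80876), (.hz 7 13, 30711), (.hz 9 15, 213826)])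
.fin))
(.cut 3 [(0, 1), (1, 1), (2, 1), (3, 1), (5, 1), (7, 1), (19, 1)]
(.lp [[3], [1, 4], [0, 2, 5, 6]] [(.mj 1 2, 6982), (.mj 4 3, 1477), (.mj 5 4, 2095), (.hz 10 9, 289268), (.hz 10 11, 86754), (.hz 9 11, 43640), (.rw 5, 2)])))
(.cut 3 [(0, 1), (1, 1), (2, 1), (3, 1), (5, 1), (7, 1)]
(.cut 3 [(0, 1), (1, 1), (2, 1), (3, 1), (5, 1), (7, 1), (19, 2), (37, 1), (23, 2), (39, 1), (55, 1)]
(.cut 4 [(0, 1), (1, 1), (2, 1), (3, 1), (5, 1), (9, 1), (7, 1), (13, 1), (37, 1), (45, 1)]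
(.lp [[3], [1, 4], [0, 2, 5, 6]] [(.mj 1 2, 365862), (.mj 6 3, 66812), (.mj 6 4, 126008), (.rw 4, 8), (.hz 10 9, 19586755), (.hz 10 11, 1970032), (.hz 11 19, 2912912), (.hz 11 27, 4528778), (.hz 9 47, 43402590), (.rw 5, 157), (.rw 6, 35), (.rw 7, 7)]))))
.fin))
(.lp [[3], [1, 4], [0, 2, 5]] [(.mj 1 2, 2), (.mj 5 3, 1), (.mj 5 4, 2), (.hz 10 9, 56), (.hz 10 11, 13), (.hz 9 11, 99), (.hz 9 15, 320)])))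
(.lp [[3], [1, 4], [0, 2, 5]] [(.mj 5 3, 2), (.mj 5 4, 3), (.hz 11 1, 39), (.hz 3 1, 73), (.hz 11 3, 98), (.hz 10 9, 46), (.hz 10 11, 138), (.hz 9 11, 153), (.hz 4 19, 1340)]))
(.lp [[3], [1, 4], [0, 2, 5]] [(.mj 5 3, 1), (.mj 5 4, 2), (.hz 10 1, 143), (.hz 3 1, 189), (.hz 6 9, 203), (.hz 6 11, 261), (.hz 9 11, 94), (.hz 4 19, 516), (.hz 9 15, 246)]))
(.cut 3 [(0, 1), (1, 1), (2, 1), (3, 1), (5, 1), (7, 1)]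
(.lp [[3], [1, 4], [0, 2, 5]] [(.mj 1 2, 8062), (.mj 5 3, 709), (.hz 3 3, 914884), (.hz 9 3, 190622), (.hz 6 9, 770511), (.rw 4, 1)])))
.fin))

theorem run72 : run P3488 (leaf3 218 625) (cutRow P3488) [s69, s68] t72 s72 = true := by
  decide +kernel

theorem bad72 : Bad P3488 s72 :=
  run_sound (leaf3_sound P3488 rfl rfl) (cutRow_sound P3488) (
    List.forall_mem_cons.2 ⟨bad69, List.forall_mem_cons.2 ⟨bad68, fun _ h => absurd h List.not_mem_nil⟩⟩) t72 s72 run72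

/-- the state above piece 215 of the tree -/
def s215 : St := ⟨[0, 0, 1, 3, 5, 15, 23, 47, 47, 95, 175], [127, 87, 63, 31, 23, 21, 15, 11, 7, 5, 3, 2, 1, 0], [0, 1, 2, 3, 4, 5, 6, 7],
  [(5, 6), (4, 5)],
  [⟨true, 2, 3, 3, 10⟩, ⟨true, 1, 5, 2, 5⟩, ⟨true, 2, 3, 23, 50⟩, ⟨true, 1, 5, 12, 25⟩, ⟨true, 1, 21, 27, 50⟩, ⟨true, 4, 15, 9, 40⟩, ⟨true, 3, 23, 11, 20⟩, ⟨true, 4, 47, 7, 20⟩, ⟨true, 4, 47, 17, 40⟩, ⟨true, 4, 47, 9, 20⟩, ⟨true, 4, 47, 19, 40⟩, ⟨true, 5, 95, 1, 5⟩, ⟨true, 5, 95, 3, 10⟩, ⟨true, 5, 31, 3, 10⟩, ⟨true, 5, 95, 11, 25⟩, ⟨true, 6, 63, 3, 20⟩, ⟨true, 8, 255, 1, 50⟩, ⟨true, 6, 319, 13, 40⟩, ⟨true, 7, 639, 9, 50⟩, ⟨true, 7, 639, 13, 50⟩],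
  [.spn 0 0 651200, .spn 1 1 302400, .spn 3 2 302400, .spn 7 3 302400, .spn 15 4 302400, .spn 31 5 302400, .spn 63 6 140426, .spn 127 7 140426]⟩

/-- piece 215 of the tree -/
noncomputable def t215 : WN.Tree :=
(.mark 255 [8, 9, 10]
(.spn
(.haz 8 1279 1 10
(.haz 9 1279 7 40
(.haz 8 191 7 40
(.ask 303
(.mark 511 [9, 10, 11]
(.lp [[8, 11], [0, 2, 4, 6, 9], [1, 3, 5, 7, 10]] [(.mj 4 5, 212), (.mj 7 8, 28), (.mj 8 9, 100), (.hz 22 191, 13883), (.hz 14 607, 13815), (.hz 21 1279, 148018)]))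
(.ask 431
(.mark 511 [9, 10, 11]
(.lp [[8, 11], [0, 2, 4, 6, 9], [1, 3, 5, 7, 10]] [(.mj 6 7, 6), (.mj 7 8, 3), (.mj 8 9, 5), (.hz 22 1215, 996), (.hz 21 1279, 7100)]))
(.haz 9 383 1 5
(.haz 9 255 9 40
(.ask 319
(.mark 511 [9, 10, 11]
(.lp [[8, 11], [0, 2, 4, 6, 9], [1, 3, 5, 7, 10]] [(.mj 4 5, 91), (.mj 7 8, 19), (.mj 8 9, 47), (.hz 22 191, 338), (.hz 14 607, 5934), (.hz 24 255, 13967), (.hz 22 1215, 8798), (.hz 24 1279, 55948), (.hz 23 2431, 54469)]))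
(.lp [[8], [0, 2, 4, 6, 9], [1, 3, 5, 7, 10]] [(.mj 3 4, 21), (.mj 6 7, 229), (.mj 7 8, 188), (.mj 8 9, 215), (.hz 24 255, 75176), (.hz 23 383, 938135), (.hz 19 639, 4493), (.hz 22 1215, 109268), (.hz 24 1279, 234982)]))
(.lp [[8], [0, 2, 4, 6, 9], [1, 3, 5, 7, 10]] [(.mj 4 5, 6), (.mj 7 8, 1), (.hz 24 95, 722), (.hz 24 127, 1063), (.hz 22 191, 324), (.hz 24 255, 1062), (.hz 23 383, 5213), (.hz 22 1215, 3062)]))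
(.lp [[8], [0, 2, 4, 6, 9], [1, 3, 5, 7, 10]] [(.mj 0 1, 39), (.mj 7 8, 1), (.hz 23 95, 4039), (.hz 23 127, 9253), (.hz 22 191, 292), (.hz 22 1215, 1607), (.hz 22 767, 957)]))))
(.lp [[8], [0, 2, 4, 6, 9], [1, 3, 5, 7, 10]] [(.mj 4 5, 54), (.mj 6 7, 28), (.mj 8 9, 55), (.mj 8 10, 16), (.hz 22 63, 40012), (.hz 19 639, 6197), (.hz 20 1279, 165542), (.hz 21 1279, 81580)]))
(.lp [[8], [0, 2, 4, 6, 9], [1, 3, 5, 7, 10]] [(.mj 4 5, 8), (.mj 7 8, 1), (.hz 21 95, 780), (.hz 21 127, 1055), (.hz 21 255, 960), (.hz 20 1279, 13664)]))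
(.lp [[8], [0, 2, 4, 6, 9], [1, 3, 5, 7, 10]] [(.mj 3 4, 13), (.mj 6 7, 10), (.mj 8 9, 6), (.mj 8 10, 3), (.hz 20 47, 4002), (.hz 20 63, 7988), (.hz 20 127, 11955), (.hz 19 639, 665)]))
(.haz 7 319 1 5
(.haz 6 1215 8 25
(.haz 8 1215 3 50
(.ask 607
(.mark 767 [8, 10, 11]
(.spn
(.haz 10 767 17 50
(.lp [[8], [1, 3, 5, 7, 10], [0, 2, 4, 6, 9, 11]] [(.mj 7 9, 4804), (.mj 8 10, 4804), (.mj 9 8, 4804), (.rw 8, 1), (.rw 9, 1), (.hz 23 767, 2326501), (.hz 23 1023, 5945368), (.hz 23 2815, 8347537)])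
(.haz 10 2815 4 25
(.haz 8 2815 4 25
(.haz 10 767 7 25
(.lp [[8], [1, 3, 5, 7, 10], [0, 2, 4, 6, 9, 11]] [(.mj 3 4, 653), (.mj 6 7, 53), (.mj 7 9, 11615), (.mj 8 10, 11115), (.mj 9 8, 11854), (.rw 8, 1), (.rw 9, 2), (.hz 10 303, 17516), (.hz 10 1199, 130315), (.hz 23 255, 519620), (.hz 22 1215, 4329586), (.hz 26 767, 10927759), (.hz 26 1023, 20743825), (.hz 25 2815, 13462930), (.hz 26 2815, 38623068)])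
(.lp [[8], [1, 3, 5, 7, 10], [0, 2, 4, 6, 9, 11]] [(.mj 3 4, 12834), (.mj 6 7, 3679), (.mj 7 9, 18813), (.mj 9 8, 15123), (.rw 9, 4), (.hz 26 175, 2350247), (.hz 10 303, 344266), (.hz 26 191, 7052762), (.hz 26 255, 19392318), (.hz 22 1215, 6057756), (.hz 26 767, 18009090), (.hz 22 1279, 13232736), (.hz 25 2815, 43185318)]))
(.lp [[8], [1, 3, 5, 7, 10], [0, 2, 4, 6, 9, 11]] [(.mj 7 9, 1943), (.rw 9, 7), (.hz 25 767, 23323335), (.hz 23 767, 1354922), (.hz 16 2815, 3376374)]))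
(.lp [[8], [1, 3, 5, 7, 10], [0, 2, 4, 6, 9, 11]] [(.mj 3 4, 9), (.mj 6 7, 2), (.mj 7 9, 19), (.mj 9 8, 14), (.hz 24 175, 2050), (.hz 10 303, 236), (.hz 24 191, 7132), (.hz 10 431, 147), (.hz 24 255, 17688), (.hz 24 767, 11248)])))
(.haz 9 383 11 50
(.haz 7 319 7 25
(.haz 8 127 7 50
(.lp [[8], [1, 3, 5, 7, 10], [0, 2, 4, 6, 9, 11]] [(.mj 3 4, 6), (.mj 6 7, 9), (.mj 7 9, 4), (.mj 10 8, 9), (.hz 10 303, 168), (.hz 25 127, 692), (.hz 10 1199, 140), (.hz 25 255, 9794), (.hz 25 639, 6114), (.hz 14 2655, 1709), (.hz 25 767, 9560), (.hz 25 1279, 6648), (.hz 25 2687, 10144), (.hz 25 2815, 564), (.hz 24 2943, 30030)])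
(.ask 303
(.mark 895 [7, 11, 12]
(.cut 8 [(0, 1), (1, 1), (2, 1), (3, 1), (5, 1), (7, 1), (11, 1), (21, 1), (15, 1), (23, 1), (31, 1), (47, 1), (87, 1), (63, 1), (95, 1), (175, 1), (127, 1), (191, 1), (607, 1), (1199, 2), (255, 1), (639, 1), (1215, 1), (2655, 1), (767, 1)]
(.lp [[8, 12], [1, 3, 5, 7, 10], [0, 2, 4, 6, 9, 11]] [(.mj 3 4, 46065), (.mj 6 7, 19565), (.mj 10 8, 935), (.hz 25 47, 607983), (.hz 25 63, 818907), (.hz 25 127, 1021029), (.hz 24 319, 10663209), (.hz 10 1199, 810028), (.hz 10 4399, 2274336), (.hz 24 4415, 15374282), (.hz 24 4479, 1680671), (.hz 23 4607, 542760), (.hz 24 2943, 1710763), (.hz 24 4991, 1133547), (.rw 10, 1)])))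
(.lp [[8], [1, 3, 5, 7, 10], [0, 2, 4, 6, 9, 11]] [(.mj 3 4, 162), (.mj 6 7, 68), (.mj 7 9, 1), (.mj 10 8, 2), (.hz 25 63, 6832), (.hz 25 127, 3902), (.hz 24 319, 34917), (.hz 10 431, 3809), (.hz 10 1199, 2190), (.hz 24 383, 767), (.hz 22 1215, 2370), (.hz 22 1279, 1867)])))
(.lp [[8], [1, 3, 5, 7, 10], [0, 2, 4, 6, 9, 11]] [(.mj 3 4, 8), (.mj 7 9, 6), (.mj 10 8, 9), (.mj 10 11, 2), (.hz 24 63, 14686), (.hz 17 319, 1976), (.hz 20 319, 56909), (.hz 10 1199, 1502), (.hz 20 383, 48469), (.hz 23 383, 6616)]))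
(.lp [[8], [1, 3, 5, 7, 10], [0, 2, 4, 6, 9, 11]] [(.mj 9 10, 3), (.mj 10 8, 4), (.hz 23 127, 4095), (.hz 20 319, 7777), (.hz 22 1215, 2852), (.hz 14 2655, 1886), (.hz 22 1279, 5292), (.hz 22 1791, 7528)]))
(.ask 2655
(.mark 2815 [8, 10, 12]
(.cut 8 [(0, 1), (1, 1), (2, 1), (3, 1), (5, 1), (7, 1), (11, 1), (21, 1), (15, 1), (23, 1), (31, 1), (47, 1), (87, 1), (63, 1), (95, 1), (175, 1), (127, 1), (191, 1), (607, 1), (255, 1), (2655, 1), (6751, 1)]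
(.lp [[8], [1, 3, 5, 7, 10], [0, 2, 4, 6, 9, 11, 12]] [(.mj 7 9, 4513), (.mj 11 8, 2518), (.mj 11 10, 2278), (.rw 8, 2), (.hz 10 1199, 39531), (.hz 21 1215, 134266), (.hz 22 1215, 1120411), (.hz 22 1279, 3422208), (.hz 14 6751, 2081161), (.hz 22 1791, 14741883), (.hz 22 3839, 1921907), (.rw 10, 3)])))
(.maj 8 10
(.cut 8 [(0, 1), (1, 1), (2, 1), (3, 1), (5, 1), (7, 1), (11, 1), (21, 1), (15, 1), (23, 1), (31, 1), (47, 1), (87, 1), (63, 1), (95, 1), (175, 1), (127, 1), (191, 1), (607, 1), (255, 1), (2655, 1)]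
(.cut 8 [(0, 1), (1, 1), (2, 1), (3, 1), (5, 1), (7, 1), (11, 1), (21, 1), (15, 1), (23, 1), (31, 1), (47, 1), (87, 1), (63, 1), (95, 1), (175, 1), (127, 1), (191, 1), (607, 1), (255, 1), (639, 1), (2655, 1), (767, 1)]
(.lp [[8], [1, 3, 5, 7, 10], [0, 2, 4, 6, 9, 11]] [(.mj 4 5, 695), (.mj 6 7, 2024), (.mj 7 9, 44633), (.mj 11 8, 19809), (.mj 11 10, 14910), (.rw 8, 18), (.hz 20 319, 3911249), (.hz 10 1199, 472858), (.hz 20 383, 9560832), (.hz 22 1215, 18988650), (.hz 22 1279, 43426058), (.rw 10, 31), (.rw 11, 11)])))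
(.cut 8 [(0, 1), (1, 1), (2, 1), (3, 1), (5, 1), (7, 1), (11, 1), (21, 1), (15, 1), (23, 1), (31, 1), (47, 1), (87, 1), (63, 1), (95, 1), (175, 1), (127, 1), (191, 1), (607, 1), (255, 1), (2655, 1)]
(.cut 10 [(0, 1), (1, 1), (2, 1), (3, 1), (5, 1), (7, 1), (11, 1), (21, 1), (15, 1), (23, 1), (31, 1), (47, 1), (87, 1), (63, 1), (95, 1), (175, 1), (127, 1), (191, 1), (607, 1), (255, 1), (639, 1), (2655, 1), (767, 1), (2687, 1)]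
(.cut 8 [(0, 1), (1, 1), (2, 1), (3, 1), (5, 1), (7, 1), (11, 1), (21, 1), (15, 1), (23, 1), (31, 1), (47, 1), (87, 1), (63, 1), (95, 1), (175, 1), (127, 1), (191, 1), (607, 1), (1199, 2), (255, 1), (639, 1), (1215, 2), (2655, 1), (767, 1), (1279, 2), (1791, 1)]
(.lp [[8], [1, 3, 5, 7, 10], [0, 2, 4, 6, 9, 11]] [(.mj 6 7, 1403), (.mj 7 9, 455506), (.mj 10 8, 34726), (.mj 11 8, 255846), (.mj 11 10, 273639), (.rw 8, 26), (.hz 10 175, 2554248), (.hz 22 1215, 79351961), (.hz 22 1279, 174598712), (.hz 17 1471, 91354075), (.hz 22 1791, 1694681026), (.rw 10, 403), (.rw 11, 103), (.rw 12, 92)]))))))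
.fin))
(.ref 0))
(.lp [[8], [0, 2, 4, 6, 9], [1, 3, 5, 7, 10]] [(.mj 3 4, 8), (.mj 6 7, 3), (.hz 22 47, 275), (.hz 22 63, 258), (.hz 20 319, 11870), (.hz 10 1199, 194)]))
(.lp [[8], [0, 2, 4, 6, 9], [1, 3, 5, 7, 10]] [(.mj 4 5, 1), (.hz 21 31, 178), (.hz 21 63, 110), (.hz 21 191, 66), (.hz 17 319, 16), (.hz 20 319, 465)]))
(.lp [[8], [0, 2, 4, 6, 9], [1, 3, 5, 7, 10]] [(.mj 3 4, 32), (.mj 7 9, 4), (.mj 9 8, 14), (.hz 20 63, 60853), (.hz 10 303, 620), (.hz 17 319, 2929), (.hz 10 431, 620), (.hz 10 1199, 2887)]))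
(.haz 8 191 1 10
(.maj 8 9
(.cut 8 [(0, 1), (1, 1), (2, 1), (3, 1), (5, 1), (7, 1), (11, 1), (21, 1), (15, 1), (23, 1), (31, 1), (47, 1), (87, 1), (63, 1), (95, 1), (175, 1), (127, 1), (191, 1), (255, 1)]
(.lp [[8], [0, 2, 4, 6, 9], [1, 3, 5, 7, 10]] [(.mj 6 7, 931), (.mj 10 8, 572), (.mj 10 9, 424), (.hz 14 607, 109375), (.hz 19 639, 402550), (.hz 20 767, 13329142), (.rw 9, 1)]))
(.lp [[8], [0, 2, 4, 6, 9], [1, 3, 5, 7, 10]] [(.mj 6 7, 285), (.mj 9 8, 277), (.mj 10 9, 232), (.hz 20 191, 948396), (.hz 14 607, 33626), (.hz 20 255, 480784), (.hz 19 639, 123758), (.hz 20 1215, 875949), (.hz 20 767, 2688869), (.hz 20 1279, 1211107)]))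
(.cut 8 [(0, 1), (1, 1), (2, 1), (3, 1), (5, 1), (7, 1), (11, 1), (21, 1), (15, 1), (23, 1), (31, 1), (47, 1), (87, 1), (63, 1), (95, 1), (127, 1), (607, 1)]
(.lp [[8], [0, 2, 4, 6, 9], [1, 3, 5, 7, 10]] [(.mj 3 4, 176293), (.mj 6 7, 127903), (.mj 10 9, 29801), (.hz 20 47, 39969637), (.hz 20 63, 158345844), (.hz 16 255, 40018152), (.hz 19 639, 9803579), (.hz 16 767, 57698549), (.hz 16 1279, 69958014), (.rw 9, 14)])))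
.fin))

theorem run215 : run P3488 (leaf3 218 625) (cutRow P3488) [s212] t215 s215 = true := by
  decide +kernel

theorem bad215 : Bad P3488 s215 :=
  run_sound (leaf3_sound P3488 rfl rfl) (cutRow_sound P3488) (
    List.forall_mem_cons.2 ⟨bad212, fun _ h => absurd h List.not_mem_nil⟩) t215 s215 run215

/-- the state above piece 104 of the tree -/
def s104 : St := ⟨[0, 0, 1, 3, 5, 5, 15, 31], [23, 21, 15, 11, 7, 3, 2, 1, 0], [0, 1, 2, 3, 4],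
  [],
  [⟨true, 2, 3, 3, 10⟩, ⟨true, 1, 5, 2, 5⟩, ⟨true, 2, 3, 23, 50⟩, ⟨true, 1, 5, 12, 25⟩, ⟨true, 2, 11, 12, 25⟩, ⟨true, 5, 31, 3, 50⟩, ⟨true, 3, 39, 21, 50⟩, ⟨true, 4, 79, 1, 10⟩, ⟨true, 4, 79, 3, 20⟩, ⟨true, 4, 79, 1, 5⟩],
  [.spn 0 0 651200, .spn 1 1 302400, .spn 3 2 302400, .spn 7 3 140426, .spn 15 4 140426]⟩

/-- piece 104 of the tree -/
noncomputable def t104 : WN.Tree :=
(.mark 31 [5, 6, 7]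
(.spn
(.haz 6 159 2 25
(.haz 6 31 13 50
(.haz 5 79 9 50
(.maj 6 7
(.ask 159
(.mark 159 [5, 6, 8]
(.lp [[5], [1, 3, 6], [0, 2, 4, 7, 8]] [(.mj 1 2, 174), (.mj 4 5, 37), (.mj 5 6, 53), (.mj 5 7, 2), (.mj 6 7, 4), (.hz 11 31, 2511), (.hz 12 79, 2299), (.hz 11 159, 4737), (.hz 11 415, 5995)]))
(.lp [[5], [1, 3, 6], [0, 2, 4, 7]] [(.mj 1 2, 26), (.mj 4 5, 13), (.mj 5 6, 9), (.mj 6 7, 2), (.hz 12 79, 1175), (.hz 11 159, 290)]))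
(.lp [[5], [1, 3, 6], [0, 2, 4, 7]] [(.mj 1 2, 23), (.mj 4 5, 7), (.mj 5 7, 5), (.mj 7 6, 7), (.hz 12 79, 1230), (.hz 11 63, 2064), (.hz 12 95, 331), (.hz 11 159, 919)]))
(.lp [[5], [1, 3, 6], [0, 2, 4, 7]] [(.mj 1 2, 77), (.mj 3 4, 2), (.mj 5 6, 28), (.mj 5 7, 2), (.hz 12 15, 1756), (.hz 11 31, 2005), (.hz 11 159, 3532)]))
(.haz 6 159 9 50
(.haz 5 79 4 25
(.haz 4 47 21 50
(.haz 7 95 23 50
(.ask 37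
(.mark 47 [4, 6, 8]
(.lp [[5, 8], [1, 3, 6], [0, 2, 4, 7]] [(.mj 1 2, 25), (.mj 3 4, 42), (.mj 4 5, 24), (.mj 5 7, 20), (.hz 11 15, 2891), (.hz 11 31, 647), (.hz 15 95, 3539), (.hz 14 303, 3592)]))
(.ask 39
(.mark 47 [4, 6, 8]
(.lp [[5, 8], [1, 3, 6], [0, 2, 4, 7]] [(.mj 3 4, 29), (.mj 4 5, 15), (.mj 5 7, 11), (.hz 11 15, 1644), (.hz 11 31, 353), (.hz 6 295, 537), (.hz 15 95, 1929), (.hz 14 303, 3504)]))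
(.ask 47
(.mark 63 [6, 7, 8]
(.spn
(.ask 79
(.mark 127 [7, 8, 9]
(.lp [[5, 8], [0, 2, 4, 7], [1, 3, 6, 9]] [(.mj 1 2, 360), (.mj 4 5, 82), (.mj 5 7, 72), (.mj 6 7, 10), (.hz 11 15, 8152), (.hz 11 31, 141), (.hz 15 95, 4721), (.hz 13 591, 11374), (.hz 15 607, 17054)]))
(.lp [[5, 8], [1, 3, 6], [0, 2, 4, 7]] [(.mj 3 4, 11), (.mj 4 5, 10), (.mj 5 7, 7), (.hz 11 31, 830), (.hz 15 95, 1192)]))
(.ask 79
(.mark 95 [5, 7, 9]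
(.lp [[5, 8], [0, 2, 4, 7], [1, 3, 6, 9]] [(.mj 1 2, 110), (.mj 4 5, 24), (.mj 5 7, 22), (.mj 7 6, 6), (.hz 11 15, 1728), (.hz 13 79, 2823), (.hz 12 159, 1417), (.hz 13 591, 3780), (.hz 15 607, 5117)]))
(.lp [[5, 8], [1, 3, 6], [0, 2, 4, 7]] [(.mj 1 2, 48), (.mj 4 5, 8), (.mj 5 7, 10), (.mj 7 6, 2), (.hz 11 31, 963), (.hz 15 95, 1709), (.hz 14 111, 427)]))
(.lp [[5, 8], [1, 3, 6], [0, 2, 4, 7]] [(.mj 1 2, 9), (.mj 4 5, 2), (.mj 8 6, 2), (.mj 8 7, 1), (.hz 13 79, 1048), (.hz 13 95, 129), (.hz 5 159, 272), (.hz 12 159, 539), (.hz 14 111, 528), (.hz 13 223, 2656)])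
.fin))
(.lp [[5], [1, 3, 6], [0, 2, 4, 7]] [(.mj 3 4, 29), (.mj 4 5, 15), (.mj 5 7, 11), (.hz 11 15, 1644), (.hz 11 31, 353), (.hz 15 95, 1929)]))))
(.lp [[5], [1, 3, 6], [0, 2, 4, 7]] [(.mj 1 2, 11), (.mj 4 5, 1), (.hz 11 15, 156), (.hz 11 31, 355), (.hz 15 31, 355), (.hz 13 79, 111)]))
(.lp [[5], [1, 3, 6], [0, 2, 4, 7]] [(.mj 4 5, 1), (.hz 14 15, 111), (.hz 11 15, 82), (.hz 13 79, 123)]))
(.lp [[5], [1, 3, 6], [0, 2, 4, 7]] [(.mj 1 2, 3), (.mj 3 4, 3), (.mj 5 7, 2), (.hz 13 7, 169), (.hz 13 15, 537), (.hz 11 15, 268), (.hz 11 31, 280), (.hz 12 159, 340)]))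
(.lp [[5], [1, 3, 6], [0, 2, 4, 7]] [(.mj 1 2, 64), (.mj 4 5, 12), (.mj 5 7, 13), (.hz 12 15, 1407), (.hz 12 31, 1612), (.hz 5 95, 760), (.hz 10 159, 4587)])))
(.lp [[5], [1, 3, 6], [0, 2, 4, 7]] [(.mj 1 2, 5), (.mj 4 5, 1), (.mj 5 7, 1), (.hz 10 15, 203), (.hz 10 31, 226)]))
(.haz 6 159 3 20
(.haz 6 159 1 5
(.haz 6 159 1 4
(.ask 79
(.mark 95 [5, 7, 8]
(.spn
(.haz 7 351 3 25
(.haz 6 159 9 25
(.haz 7 351 1 5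
(.haz 5 351 4 25
(.haz 5 223 7 50
(.haz 5 159 1 10
(.ask 335
(.mark 351 [5, 7, 9]
(.lp [[5], [0, 2, 4, 7], [1, 3, 6, 8, 9]] [(.mj 4 6, 21), (.mj 5 7, 17), (.mj 5 8, 1), (.mj 6 5, 21), (.hz 18 159, 11803), (.hz 14 159, 1211), (.hz 16 351, 1900), (.hz 15 351, 27942), (.hz 16 863, 4921), (.hz 15 863, 50846)]))
(.ask 351
(.mark 351 [5, 7, 9]
(.ask 863
(.mark 863 [5, 7, 10]
(.lp [[5], [0, 2, 4, 7], [1, 3, 6, 8, 9, 10]] [(.mj 4 6, 166), (.mj 5 7, 134), (.mj 5 8, 9), (.mj 6 5, 166), (.hz 18 159, 93241), (.hz 14 159, 9563), (.hz 16 351, 2828), (.hz 15 351, 240005), (.hz 16 479, 12719), (.hz 15 863, 254380), (.hz 15 1887, 317975)]))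
(.lp [[5], [0, 2, 4, 7], [1, 3, 6, 8, 9]] [(.mj 4 6, 14), (.mj 5 7, 11), (.mj 6 5, 14), (.hz 18 159, 7413), (.hz 14 159, 835), (.hz 17 223, 143), (.hz 15 351, 13656), (.hz 15 383, 7928), (.hz 15 863, 17070)])))
(.lp [[5], [0, 2, 4, 7], [1, 3, 6, 8]] [(.mj 4 6, 5), (.mj 5 7, 4), (.mj 6 5, 5), (.hz 18 159, 2824), (.hz 14 159, 290)])))
(.lp [[5], [0, 2, 4, 7], [1, 3, 6, 8]] [(.mj 4 6, 2), (.mj 5 7, 3), (.mj 5 8, 1), (.hz 18 5, 149), (.hz 18 7, 464), (.hz 18 21, 166), (.hz 18 15, 1973), (.hz 18 23, 700), (.hz 18 31, 653), (.hz 14 159, 173), (.hz 16 351, 786), (.hz 15 351, 8977)]))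
(.lp [[5], [0, 2, 4, 7], [1, 3, 6, 8]] [(.mj 5 7, 154), (.mj 5 8, 124), (.rw 6, 1), (.hz 17 95, 323238), (.hz 5 159, 18379), (.hz 16 351, 15557), (.hz 15 351, 722531)]))
(.haz 7 351 8 25
(.lp [[5], [0, 2, 4, 7], [1, 3, 6, 8]] [(.mj 4 6, 452), (.mj 5 7, 1644), (.mj 5 8, 813), (.mj 6 5, 1265), (.rw 6, 2), (.hz 16 95, 1861598), (.hz 5 159, 196741), (.hz 17 351, 1248501)])
(.haz 8 223 21 50
(.lp [[5], [0, 2, 4, 7], [1, 3, 6, 8]] [(.mj 5 7, 4), (.mj 5 8, 15), (.mj 6 5, 11), (.hz 16 31, 822), (.hz 17 31, 2158), (.hz 16 79, 1496), (.hz 16 95, 5451), (.hz 5 159, 1131), (.hz 18 223, 5026), (.hz 5 351, 164)])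
(.lp [[5], [0, 2, 4, 7], [1, 3, 6, 8]] [(.mj 6 5, 1), (.hz 16 31, 95), (.hz 17 31, 249), (.hz 18 79, 40), (.hz 16 95, 3391), (.hz 17 95, 3391), (.hz 18 95, 1696), (.hz 5 159, 82)]))))
(.lp [[5], [0, 2, 4, 7], [1, 3, 6, 8]] [(.mj 4 6, 8), (.mj 5 8, 3), (.mj 6 5, 7), (.hz 15 31, 9001), (.hz 15 95, 10762), (.hz 5 159, 828), (.hz 5 351, 1373), (.hz 13 351, 1913)]))
(.lp [[5], [0, 2, 4, 7], [1, 3, 6, 8]] [(.mj 5 7, 9), (.mj 6 5, 10), (.hz 14 15, 1374), (.hz 14 31, 2395), (.hz 5 159, 1311), (.hz 12 159, 17024), (.hz 5 351, 104), (.hz 13 351, 4436)]))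
(.lp [[5], [0, 2, 4, 7], [1, 3, 6, 8]] [(.mj 4 6, 2), (.mj 5 8, 1), (.mj 6 5, 2), (.hz 13 31, 470), (.hz 13 95, 504)]))
(.ref 0)
(.haz 7 95 3 10
(.cut 5 [(0, 1), (1, 1), (2, 1), (3, 1), (5, 1), (7, 1), (11, 1), (21, 1), (15, 1), (23, 1), (31, 1)]
(.lp [[5], [0, 2, 4, 7], [1, 3, 6, 8]] [(.mj 4 6, 1216), (.mj 8 5, 787), (.mj 8 7, 787), (.hz 13 95, 542733), (.hz 13 127, 3919144), (.hz 5 351, 40799), (.rw 7, 2)]))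
(.ask 159
(.mark 159 [5, 6, 9]
(.cut 5 [(0, 1), (1, 1), (2, 1), (3, 1), (5, 1), (7, 1), (11, 1), (21, 1), (15, 1), (23, 1), (31, 1), (79, 1), (95, 1), (159, 1)]
(.lp [[5], [1, 3, 6, 8], [0, 2, 4, 7, 9]] [(.mj 4 6, 18683), (.mj 8 5, 9331), (.mj 8 7, 2772), (.hz 13 31, 4632737), (.hz 13 95, 499293), (.hz 5 223, 820968), (.hz 12 703, 46655186), (.rw 7, 22)])))
(.cut 5 [(0, 1), (1, 1), (2, 1), (3, 1), (5, 1), (7, 1), (11, 1), (21, 1), (15, 1), (23, 1), (31, 1), (79, 1), (95, 1), (159, 1)]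
(.lp [[5], [0, 2, 4, 7], [1, 3, 6, 8]] [(.mj 4 6, 941), (.mj 8 5, 441), (.mj 8 7, 133), (.hz 13 95, 213171), (.rw 7, 1)]))))
.fin))
(.ref 1))
(.lp [[5], [1, 3, 6], [0, 2, 4, 7]] [(.mj 6 5, 1), (.mj 6 7, 1), (.hz 12 15, 875), (.hz 12 31, 1788), (.hz 5 159, 469)]))
(.lp [[5], [1, 3, 6], [0, 2, 4, 7]] [(.mj 6 5, 4), (.mj 6 7, 5), (.hz 11 15, 2909), (.hz 11 31, 5782)]))
(.lp [[5], [1, 3, 6], [0, 2, 4, 7]] [(.mj 6 5, 1), (.mj 6 7, 1), (.hz 10 15, 181), (.hz 10 31, 351)]))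
(.ask 159
(.mark 159 [5, 6, 8]
(.spn
(.lp [[5], [1, 3, 6], [0, 2, 4, 7, 8]] [(.mj 7 5, 516), (.rw 6, 1)])
(.maj 5 8
(.cut 5 [(0, 1), (1, 1), (2, 1), (3, 1), (5, 1), (7, 1), (11, 1), (21, 1), (15, 1), (23, 1), (31, 1), (159, 1)]
(.lp [[5], [1, 3, 6], [0, 2, 4, 7, 8]] [(.mj 7 6, 2033), (.rw 6, 2), (.rw 7, 3)]))
(.cut 5 [(0, 1), (1, 1), (2, 1), (3, 1), (5, 1), (7, 1), (11, 1), (21, 1), (15, 1), (23, 1), (31, 1), (159, 1)]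
(.lp [[5], [1, 3, 6], [0, 2, 4, 7, 8]] [(.mj 3 4, 305), (.mj 6 8, 1790), (.mj 7 6, 2847), (.mj 8 5, 1926), (.hz 5 95, 417206), (.rw 7, 5)])))
(.ask 415
(.mark 415 [5, 6, 9]
(.spn
(.lp [[5], [1, 3, 6], [0, 2, 4, 7, 8, 9]] [(.mj 8 5, 199), (.rw 7, 1)])
(.lp [[5], [1, 3, 6], [0, 2, 4, 7, 8, 9]] [(.mj 8 6, 6773), (.rw 7, 11)])
(.maj 5 6
(.cut 5 [(0, 1), (1, 1), (2, 1), (3, 1), (5, 1), (7, 1), (11, 1), (21, 1), (15, 1), (23, 1), (31, 1), (159, 1)]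
(.cut 6 [(0, 1), (1, 1), (2, 1), (3, 1), (5, 1), (7, 1), (11, 1), (21, 1), (37, 1), (15, 1), (23, 1), (39, 1), (53, 1), (31, 1), (47, 2), (55, 1), (63, 1)]
(.lp [[5], [1, 3, 6], [0, 2, 4, 7, 8, 9]] [(.mj 3 4, 4846), (.mj 9 5, 1667), (.rw 7, 1), (.hz 3 37, 25375), (.hz 6 39, 73708), (.hz 9 79, 1781569), (.rw 8, 11), (.rw 9, 1)])))
(.cut 6 [(0, 1), (1, 1), (2, 1), (3, 1), (5, 1), (7, 1), (11, 1), (21, 1), (15, 1), (23, 1), (31, 1)]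
(.cut 5 [(0, 1), (1, 1), (2, 1), (3, 1), (5, 1), (7, 1), (11, 1), (21, 1), (15, 1), (23, 1), (31, 1), (79, 2), (95, 1)]
(.cut 6 [(0, 1), (1, 1), (2, 1), (3, 1), (5, 1), (7, 1), (11, 1), (21, 1), (15, 1), (23, 1), (31, 1), (159, 1)]
(.lp [[5], [1, 3, 6], [0, 2, 4, 7, 8, 9]] [(.mj 3 4, 5595), (.rw 7, 2), (.hz 5 31, 1041712), (.hz 5 159, 200268), (.hz 9 111, 4278462), (.hz 5 415, 376907), (.rw 8, 3), (.rw 9, 1), (.rw 10, 3)])))))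
.fin))
(.lp [[5], [1, 3, 6], [0, 2, 4, 7, 8]] [(.mj 8 6, 1), (.rw 6, 1)]))
.fin))
(.lp [[5], [1, 3, 6], [0, 2, 4, 7]] [(.mj 7 6, 1), (.rw 5, 1)]))
.fin))

theorem run104 : run P3488 (leaf3 218 625) (cutRow P3488) [s101, s103] t104 s104 = true := by
  decide +kernel

theorem bad104 : Bad P3488 s104 :=
  run_sound (leaf3_sound P3488 rfl rfl) (cutRow_sound P3488) (
    List.forall_mem_cons.2 ⟨bad101, List.forall_mem_cons.2 ⟨bad103, fun _ h => absurd h List.not_mem_nil⟩⟩) t104 s104 run104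

/-- the state above piece 44 of the tree -/
def s44 : St := ⟨[0, 0, 1, 1, 7, 7, 11, 23, 63], [151, 63, 47, 55, 39, 31, 15, 13, 9, 7, 5, 3, 2, 1, 0], [0, 1, 2, 3, 4, 5, 7],
  [(3, 4)],
  [⟨true, 1, 9, 7, 50⟩, ⟨true, 2, 11, 3, 50⟩, ⟨true, 2, 9, 9, 50⟩, ⟨true, 3, 3, 1, 5⟩, ⟨true, 1, 5, 13, 50⟩, ⟨true, 2, 11, 3, 5⟩, ⟨true, 2, 9, 8, 25⟩, ⟨true, 2, 9, 17, 50⟩, ⟨true, 2, 11, 33, 50⟩, ⟨true, 4, 47, 4, 25⟩, ⟨true, 4, 79, 1, 5⟩, ⟨true, 5, 159, 7, 50⟩, ⟨true, 4, 79, 3, 10⟩, ⟨true, 3, 23, 7, 25⟩, ⟨true, 3, 23, 3, 10⟩, ⟨true, 6, 63, 2, 25⟩, ⟨true, 5, 95, 4, 25⟩, ⟨true, 4, 79, 9, 25⟩, ⟨false, 6, 15, 11, 50⟩, ⟨false, 6, 15, 1, 5⟩, ⟨true, 6, 63, 1, 10⟩, ⟨true, 2, 75, 18, 25⟩, ⟨true, 2, 75, 19, 25⟩, ⟨true, 4, 79, 21, 50⟩, ⟨true, 4, 79, 23, 50⟩, ⟨true, 7, 95, 1, 5⟩, ⟨true, 4, 79, 12, 25⟩, ⟨true, 7, 95, 11, 50⟩],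
  [.spn 0 0 651200, .spn 1 1 140426, .spn 3 2 302400, .spn 7 3 62723, .spn 15 4 140426, .spn 31 5 62723, .spn 63 7 62723]⟩

/-- piece 44 of the tree -/
noncomputable def t44 : WN.Tree :=
(.haz 7 319 6 25
(.ask 159
(.ref 0)
(.haz 6 63 7 50
(.maj 6 8
(.ask 183
(.mark 191 [6, 8, 9]
(.spn
(.ask 319
(.mark 447 [6, 9, 10]
(.lp [[3, 6], [1, 5, 8, 10], [0, 2, 4, 7, 9]] [(.mj 3 4, 206), (.mj 4 5, 3), (.mj 6 8, 16), (.mj 7 6, 112), (.hz 22 75, 558), (.hz 26 79, 3518), (.hz 29 63, 19554), (.hz 29 319, 42835), (.hz 29 1343, 45404)]))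
(.haz 9 447 9 50
(.lp [[3, 6], [1, 5, 8], [0, 2, 4, 7, 9]] [(.mj 3 4, 324), (.mj 4 5, 6), (.mj 6 8, 26), (.mj 7 6, 175), (.hz 19 11, 4910), (.hz 26 79, 4773), (.hz 29 63, 30234), (.hz 29 319, 72903), (.hz 30 447, 19395)])
(.lp [[3, 6], [1, 5, 8], [0, 2, 4, 7, 9]] [(.mj 3 4, 15), (.mj 6 8, 3), (.mj 7 6, 10), (.hz 30 191, 1656), (.hz 29 319, 5784)])))
(.con 8 6)
(.lp [[3, 6], [1, 5, 8], [0, 2, 4, 7, 9]] [(.mj 3 4, 8), (.mj 4 5, 1), (.mj 9 6, 4), (.mj 9 8, 1), (.hz 19 11, 461), (.hz 26 79, 448), (.hz 29 63, 675), (.hz 27 95, 386), (.hz 29 191, 2118), (.hz 29 319, 2143), (.hz 28 319, 476)])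
.fin))
(.ask 191
(.mark 191 [6, 8, 9]
(.spn
(.haz 8 703 2 25
(.haz 5 79 6 25
(.haz 4 79 1 2
(.haz 5 223 21 40
(.haz 5 223 13 20
(.haz 5 79 13 50
(.haz 4 111 39 50
(.haz 9 511 7 25
(.haz 6 703 4 25
(.ask 75
(.mark 255 [8, 9, 10]
(.spn
(.lp [[1, 5, 8], [3, 6, 10], [0, 2, 4, 7, 9]] [(.mj 4 5, 113), (.mj 7 6, 22), (.mj 8 9, 8), (.hz 22 1099, 2824), (.hz 35 1103, 50832), (.hz 29 319, 40537), (.hz 29 447, 489), (.hz 38 703, 33782), (.hz 34 1247, 64031)])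
(.ask 703
(.mark 767 [8, 10, 11]
(.spn
(.haz 9 447 19 50
(.lp [[1, 5, 8], [3, 6, 10], [0, 2, 4, 7, 9, 11]] [(.mj 4 5, 1341), (.mj 6 9, 199), (.mj 7 6, 337), (.mj 8 11, 14), (.hz 22 1099, 31884), (.hz 35 1103, 573905), (.hz 29 319, 431417), (.hz 39 447, 187694), (.hz 34 1247, 785644), (.hz 30 1791, 883433), (.hz 38 3007, 1)])
(.lp [[1, 5, 8], [3, 6, 10], [0, 2, 4, 7, 9, 11]] [(.mj 4 5, 4), (.mj 7 6, 9), (.mj 8 11, 1), (.mj 9 8, 6), (.hz 39 191, 5936), (.hz 29 319, 13917)]))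
(.lp [[1, 5, 8], [3, 6, 10], [0, 2, 4, 7, 9, 11]] [(.mj 4 5, 2850), (.mj 6 9, 270), (.mj 7 6, 2034), (.mj 10 11, 123), (.rw 9, 1), (.hz 29 319, 2646393), (.hz 29 447, 1021794), (.hz 38 2751, 2155148), (.hz 30 2751, 399260)])
(.haz 9 447 19 50
(.lp [[1, 5, 8], [3, 6, 10], [0, 2, 4, 7, 9, 11]] [(.mj 3 4, 1138), (.mj 4 5, 710), (.mj 6 9, 215), (.mj 7 6, 717), (.mj 11 8, 50), (.hz 22 1099, 26754), (.hz 35 1103, 317412), (.hz 29 319, 542083), (.hz 36 1135, 52059), (.hz 29 447, 88995), (.hz 39 447, 244693), (.hz 34 1247, 459092), (.hz 30 767, 262856)])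
(.lp [[1, 5, 8], [3, 6, 10], [0, 2, 4, 7, 9, 11]] [(.mj 4 5, 2), (.mj 7 6, 4), (.mj 11 8, 3), (.hz 39 191, 3514), (.hz 29 319, 5604), (.hz 29 447, 2922), (.hz 30 703, 4805)]))
.fin))
(.lp [[1, 5, 8], [3, 6, 10], [0, 2, 4, 7, 9]] [(.mj 3 4, 14), (.mj 4 5, 27), (.mj 6 9, 1), (.mj 7 6, 10), (.hz 22 1099, 822), (.hz 35 1103, 11189), (.hz 29 319, 11603), (.hz 35 1119, 1657), (.hz 29 447, 1034), (.hz 34 1247, 15085)]))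
(.lp [[1, 5, 8], [3, 6, 10], [0, 2, 4, 7, 9]] [(.mj 4 5, 1), (.mj 7 6, 4), (.mj 10 8, 2), (.mj 10 9, 2), (.hz 29 319, 3598), (.hz 29 447, 2202), (.hz 38 703, 4209), (.hz 30 703, 5616)])
.fin))
(.haz 6 159 4 25
(.ask 79
(.mark 255 [8, 9, 10]
(.spn
(.lp [[1, 5, 8], [3, 6, 10], [0, 2, 4, 7, 9]] [(.mj 4 5, 44), (.mj 7 6, 8), (.mj 8 9, 3), (.hz 35 1103, 17801), (.hz 29 319, 15539), (.hz 39 447, 153), (.hz 38 703, 12843), (.hz 34 1247, 24933)])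
(.ask 703
(.mark 767 [8, 10, 11]
(.spn
(.haz 9 447 2 5
(.lp [[1, 5, 8], [3, 6, 10], [0, 2, 4, 7, 9, 11]] [(.mj 4 5, 313), (.mj 6 9, 46), (.mj 7 6, 78), (.mj 8 11, 4), (.hz 35 1103, 120549), (.hz 29 319, 83432), (.hz 39 447, 24013), (.hz 40 447, 432462), (.hz 34 1247, 184035), (.hz 30 1791, 238213)])
(.lp [[1, 5, 8], [3, 6, 10], [0, 2, 4, 7, 9, 11]] [(.mj 4 5, 5), (.mj 7 6, 10), (.mj 8 11, 1), (.mj 9 8, 6), (.hz 40 191, 68756), (.hz 39 447, 35412)]))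
(.lp [[1, 5, 8], [3, 6, 10], [0, 2, 4, 7, 9, 11]] [(.mj 4 5, 3021), (.mj 6 9, 296), (.mj 7 6, 2210), (.mj 10 11, 138), (.rw 9, 1), (.hz 29 319, 627349), (.hz 39 447, 6011517), (.hz 38 2751, 2332233), (.hz 30 2751, 447478)])
(.haz 9 447 19 50
(.lp [[1, 5, 8], [3, 6, 10], [0, 2, 4, 7, 9, 11]] [(.mj 3 4, 228), (.mj 4 5, 141), (.mj 6 9, 40), (.mj 7 6, 138), (.mj 11 8, 9), (.hz 35 1103, 47178), (.hz 29 319, 103513), (.hz 35 1119, 8810), (.hz 39 447, 31811), (.hz 40 447, 44930), (.hz 34 1247, 91105), (.hz 30 767, 46979)])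
(.lp [[1, 5, 8], [3, 6, 10], [0, 2, 4, 7, 9, 11]] [(.mj 4 5, 2), (.mj 7 6, 5), (.mj 11 8, 3), (.hz 40 191, 5097), (.hz 39 447, 22452), (.hz 30 703, 6879)]))
.fin))
(.lp [[1, 5, 8], [3, 6, 10], [0, 2, 4, 7, 9]] [(.mj 3 4, 34), (.mj 4 5, 60), (.mj 6 9, 2), (.mj 7 6, 22), (.hz 35 1103, 22423), (.hz 29 319, 1986), (.hz 35 1119, 3267), (.hz 39 447, 44977), (.hz 34 1247, 33604)]))
(.lp [[1, 5, 8], [3, 6, 10], [0, 2, 4, 7, 9]] [(.mj 7 6, 2), (.mj 10 8, 1), (.mj 10 9, 1), (.hz 29 319, 1375), (.hz 39 447, 4495), (.hz 38 703, 2781), (.hz 30 703, 3646)])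
.fin))
(.ask 111
(.mark 255 [8, 9, 10]
(.lp [[1, 5, 8], [3, 6, 10], [0, 2, 4, 7, 9]] [(.mj 3 4, 25), (.mj 4 5, 11), (.mj 7 6, 8), (.hz 29 319, 4562)]))
(.haz 6 63 9 50
(.haz 5 223 7 10
(.ask 319
(.mark 447 [6, 9, 10]
(.lp [[3, 6], [1, 5, 8, 10], [0, 2, 4, 7, 9]] [(.mj 3 4, 1309), (.mj 4 5, 88), (.mj 6 8, 18), (.mj 7 6, 484), (.hz 40 63, 60872), (.hz 40 319, 160147), (.hz 41 223, 126900), (.hz 40 1343, 192524)]))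
(.haz 8 703 6 25
(.ask 95
(.mark 255 [8, 9, 10]
(.lp [[1, 5, 8], [3, 6, 10], [0, 2, 4, 7, 9]] [(.mj 3 4, 607), (.mj 6 8, 25), (.mj 7 6, 205), (.hz 40 319, 72273), (.hz 35 1119, 4611), (.hz 40 447, 1688), (.hz 40 703, 1688), (.hz 42 703, 32057), (.hz 41 1247, 48605)]))
(.haz 9 447 17 50
(.lp [[3, 6], [1, 5, 8], [0, 2, 4, 7, 9]] [(.mj 3 4, 4420), (.mj 6 8, 123), (.mj 7 6, 1420), (.hz 40 319, 461168), (.hz 41 223, 344784), (.hz 43 447, 78221)])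
(.lp [[3, 6], [1, 5, 8], [0, 2, 4, 7, 9]] [(.mj 4 5, 11), (.mj 6 8, 19), (.mj 7 6, 41), (.hz 43 191, 16366), (.hz 40 319, 40806), (.hz 42 703, 24323)])))
(.lp [[3, 6], [1, 5, 8], [0, 2, 4, 7, 9]] [(.mj 3 4, 52), (.mj 7 6, 16), (.hz 35 79, 766), (.hz 42 191, 3393), (.hz 40 319, 4202), (.hz 41 223, 1894)])))
(.lp [[3, 6], [1, 5, 8], [0, 2, 4, 7, 9]] [(.mj 3 4, 21), (.mj 7 6, 19), (.hz 41 159, 44030), (.hz 40 319, 14199), (.hz 34 223, 18894)]))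
(.lp [[3, 6], [1, 5, 8], [0, 2, 4, 7, 9]] [(.mj 3 4, 40), (.mj 4 5, 28), (.hz 40 31, 7630), (.hz 29 319, 2109), (.hz 34 223, 5273)]))))
(.lp [[3, 6], [1, 5, 8], [0, 2, 4, 7, 9]] [(.mj 3 4, 6), (.mj 4 5, 5), (.hz 39 15, 779), (.hz 39 31, 873), (.hz 35 79, 773), (.hz 39 159, 849)])))
(.lp [[3, 6], [1, 5, 8], [0, 2, 4, 7, 9]] [(.mj 3 4, 61), (.mj 4 5, 51), (.hz 38 11, 3505), (.hz 38 15, 5078), (.hz 38 31, 9020), (.hz 35 79, 7975), (.hz 38 159, 8777)]))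
(.lp [[3, 6], [1, 5, 8], [0, 2, 4, 7, 9]] [(.mj 4 5, 53), (.mj 6 8, 110), (.mj 7 6, 219), (.hz 37 191, 189566), (.hz 29 319, 207027), (.hz 30 703, 140577)]))
(.lp [[3, 6], [1, 5, 8], [0, 2, 4, 7, 9]] [(.mj 4 5, 177), (.mj 6 9, 29), (.mj 7 6, 120), (.hz 36 47, 64516), (.hz 29 319, 111965), (.hz 34 223, 70208), (.hz 30 703, 57639)]))
(.lp [[3, 6], [1, 5, 8], [0, 2, 4, 7, 9]] [(.mj 3 4, 20), (.mj 6 9, 4), (.mj 7 6, 22), (.hz 35 15, 7539), (.hz 31 79, 13594), (.hz 29 319, 18172), (.hz 34 223, 12725), (.hz 30 703, 7508)]))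
(.lp [[3, 6], [1, 5, 8], [0, 2, 4, 7, 9]] [(.mj 5 7, 1), (.mj 7 6, 30), (.hz 34 159, 49122), (.hz 29 319, 27771), (.hz 33 223, 21495)]))
(.lp [[3, 6], [1, 5, 8], [0, 2, 4, 7, 9]] [(.mj 6 8, 1), (.mj 7 6, 16), (.hz 31 79, 7280), (.hz 33 159, 10185), (.hz 29 319, 12827), (.hz 28 319, 834), (.hz 31 223, 14250), (.hz 30 703, 907)]))
(.lp [[3, 6], [1, 5, 8], [0, 2, 4, 7, 9]] [(.mj 4 5, 7), (.mj 7 6, 11), (.hz 32 15, 106289), (.hz 26 79, 5878), (.hz 31 79, 993), (.hz 29 63, 3263), (.hz 27 95, 987), (.hz 29 319, 3795)]))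
(.lp [[3, 6], [1, 5, 8], [0, 2, 4, 7, 9]] [(.mj 5 7, 35), (.mj 6 9, 16), (.mj 7 6, 101), (.hz 31 15, 54373), (.hz 29 63, 54338), (.hz 29 319, 57622), (.hz 30 703, 30877)]))
(.lp [[3, 6], [1, 5, 8], [0, 2, 4, 7, 9]] [(.mj 3 4, 82), (.mj 5 7, 1), (.mj 6 9, 18), (.mj 7 6, 55), (.hz 30 63, 12399), (.hz 30 191, 23518), (.hz 29 319, 30992)]))
(.con 8 6)
(.lp [[3, 6], [1, 5, 8], [0, 2, 4, 7, 9]] [(.mj 3 4, 12572), (.mj 4 5, 525), (.mj 9 6, 5070), (.rw 7, 1), (.hz 22 75, 103703), (.hz 26 79, 653905), (.hz 29 63, 1323822), (.hz 29 191, 4834444), (.hz 29 319, 1774616), (.hz 28 319, 1686235)])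
.fin))
(.lp [[3, 6], [1, 5, 8], [0, 2, 4, 7]] [(.mj 6 8, 2), (.mj 7 6, 3)])))
(.lp [[3, 6], [1, 5, 8], [0, 2, 4, 7]] [(.mj 3 4, 2), (.mj 4 5, 2), (.mj 8 6, 2), (.hz 22 75, 14), (.hz 26 79, 88), (.hz 29 63, 1153), (.hz 29 191, 1269)]))
(.lp [[3, 6], [1, 5, 8], [0, 2, 4, 7]] [(.mj 3 4, 235), (.mj 4 5, 188), (.hz 29 11, 6455), (.hz 29 15, 18266), (.hz 29 31, 37075), (.hz 20 63, 224298)])))
(.lp [[3, 6], [1, 5, 8], [0, 2, 4, 7]] [(.mj 7 6, 1), (.mj 7 8, 1), (.hz 28 31, 386), (.hz 28 55, 232), (.hz 28 63, 890), (.hz 20 319, 5952)]))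

theorem run44 : run P3488 (leaf3 218 625) (cutRow P3488) [s43] t44 s44 = true := by
  decide +kernel

theorem bad44 : Bad P3488 s44 :=
  run_sound (leaf3_sound P3488 rfl rfl) (cutRow_sound P3488) (
    List.forall_mem_cons.2 ⟨bad43, fun _ h => absurd h List.not_mem_nil⟩) t44 s44 run44

end Pool.Agent.WN.Data
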