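import Pool.Agent.WN.CutRow
import Pool.Agent.WN.LeafRow
import Pool.Agent.Helper99.WN.ParDef
import Pool.Agent.WN.Data.D12
import Pool.Agent.WN.Data.D24
import Pool.Agent.WN.Data.D25
import Pool.Agent.WN.Data.D28
import Pool.Agent.WN.Data.D32
import Pool.Agent.WN.Data.D33

/-!
# The search tree, part 37
-/

set_option autoImplicit false

namespace Pool.Agent.WN.Data

open Pool.Agent.W3 Pool.Agent.WN Pool.Agent.Helper99.WN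

/-- the state above piece 226 of the tree -/
def s226 : St := ⟨[0, 0, 1, 3, 5, 15, 23, 47, 47, 87], [63, 31, 23, 21, 15, 11, 7, 5, 3, 2, 1, 0], [0, 1, 2, 3, 4, 5, 6],
  [(5, 6), (4, 5)],
  [⟨true, 2, 3, 3, 10⟩, ⟨true, 1, 5, 2, 5⟩, ⟨true, 2, 3, 23, 50⟩, ⟨true, 1, 5, 12, 25⟩, ⟨true, 1, 21, 27, 50⟩, ⟨true, 4, 15, 9, 40⟩, ⟨true, 3, 23, 11, 20⟩, ⟨true, 4, 47, 7, 20⟩, ⟨true, 4, 47, 17, 40⟩, ⟨true, 4, 47, 9, 20⟩, ⟨true, 4, 47, 19, 40⟩, ⟨true, 5, 95, 1, 5⟩, ⟨true, 5, 95, 3, 10⟩, ⟨true, 5, 31, 3, 10⟩, ⟨true, 5, 95, 11, 25⟩, ⟨true, 6, 63, 3, 20⟩, ⟨true, 8, 255, 1, 50⟩],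
  [.spn 0 0 651200, .spn 1 1 302400, .spn 3 2 302400, .spn 7 3 302400, .spn 15 4 302400, .spn 31 5 302400, .spn 63 6 140426]⟩

/-- piece 226 of the tree -/
noncomputable def t226 : WN.Tree :=
(.mark 127 [7, 8, 9]
(.spn
(.haz 7 319 9 40
(.haz 7 639 4 25
(.haz 7 639 6 25
(.haz 7 383 7 25
(.haz 7 383 3 10
(.haz 7 639 7 25
(.haz 7 639 3 10
(.haz 7 383 8 25
(.haz 7 639 8 25
(.haz 6 191 9 25
(.ask 175
(.mark 255 [8, 9, 10]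
(.spn
(.ask 303
(.mark 383 [7, 9, 11]
(.lp [[8, 11], [0, 2, 4, 6, 9], [1, 3, 5, 7, 10]] [(.mj 3 4, 28442), (.mj 6 7, 8028), (.mj 7 8, 2471), (.mj 8 9, 1519), (.rw 4, 35), (.hz 17 2367, 2807971), (.hz 16 1279, 6392686), (.hz 24 2431, 11095240)]))
(.ask 431
(.mark 511 [9, 10, 11]
(.lp [[8, 11], [0, 2, 4, 6, 9], [1, 3, 5, 7, 10]] [(.mj 3 4, 4216), (.mj 6 7, 1961), (.mj 7 8, 522), (.mj 8 9, 196), (.rw 4, 1)]))
(.haz 9 383 7 50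
(.haz 8 191 4 25
(.haz 9 1279 11 50
(.lp [[8], [0, 2, 4, 6, 9], [1, 3, 5, 7, 10]] [(.mj 3 4, 446), (.mj 6 7, 99), (.mj 7 8, 252), (.mj 8 9, 245), (.rw 4, 2), (.hz 27 383, 138556), (.hz 28 1215, 763162), (.hz 29 1279, 214283)])
(.lp [[8], [0, 2, 4, 6, 9], [1, 3, 5, 7, 10]] [(.mj 3 4, 228), (.mj 7 8, 293), (.rw 4, 4), (.hz 29 127, 228512), (.hz 29 255, 269456), (.hz 24 383, 121455), (.hz 27 383, 160902), (.hz 28 1215, 1853081)]))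
(.lp [[8], [0, 2, 4, 6, 9], [1, 3, 5, 7, 10]] [(.mj 3 4, 14052), (.mj 6 7, 7737), (.mj 8 9, 719), (.rw 4, 1), (.hz 28 63, 3209277), (.hz 10 1199, 1), (.hz 24 383, 4035100)]))
(.lp [[8], [0, 2, 4, 6, 9], [1, 3, 5, 7, 10]] [(.mj 4 5, 16), (.mj 7 8, 1), (.hz 27 87, 349), (.hz 27 95, 1191), (.hz 27 127, 2783), (.hz 24 383, 2942)]))))
(.haz 8 255 4 25
(.lp [[8], [0, 2, 4, 6, 9], [1, 3, 5, 7, 10]] [(.mj 3 4, 2717), (.mj 6 7, 508), (.mj 9 8, 322), (.rw 4, 2), (.hz 17 319, 311242), (.hz 27 255, 265040), (.hz 27 767, 170983), (.hz 27 1279, 947371)])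
(.cut 8 [(0, 1), (1, 1), (2, 1), (3, 1), (5, 1), (7, 1), (11, 1), (21, 1), (15, 1), (23, 1), (31, 1), (47, 1), (87, 1), (63, 1), (95, 1), (175, 1), (599, 1), (127, 1), (191, 1), (607, 1), (255, 1)]
(.lp [[8], [0, 2, 4, 6, 9], [1, 3, 5, 7, 10]] [(.mj 3 4, 136799), (.mj 6 7, 30452), (.rw 4, 121), (.hz 27 63, 7586537), (.hz 27 127, 9909920), (.hz 17 319, 11173579), (.hz 16 1279, 9824278), (.rw 9, 2)])))
(.cut 8 [(0, 1), (1, 1), (2, 1), (3, 1), (5, 1), (7, 1), (11, 1), (21, 1), (15, 1), (23, 1), (31, 1), (47, 1), (87, 1), (63, 1), (95, 1), (175, 1), (599, 1), (127, 1), (191, 1), (607, 1), (255, 1)]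
(.lp [[8], [0, 2, 4, 6, 9], [1, 3, 5, 7, 10]] [(.mj 3 4, 7692), (.mj 6 7, 3207), (.mj 10 8, 1118), (.mj 10 9, 700), (.rw 4, 8), (.hz 17 319, 1494599), (.hz 24 383, 1578703), (.rw 9, 1)]))
.fin))
(.ask 191
(.mark 255 [8, 9, 10]
(.spn
(.haz 8 191 3 20
(.ask 303
(.mark 383 [7, 9, 11]
(.lp [[8, 11], [0, 2, 4, 6, 9], [1, 3, 5, 7, 10]] [(.mj 3 4, 74063), (.mj 6 7, 30448), (.mj 7 8, 10339), (.mj 8 9, 7653), (.rw 4, 87), (.rw 8, 1), (.hz 27 1215, 38514909), (.hz 17 2367, 11559392), (.hz 24 2431, 35541897)]))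
(.haz 8 127 1 4
(.lp [[8], [0, 2, 4, 6, 9], [1, 3, 5, 7, 10]] [(.mj 3 4, 1006), (.mj 6 7, 574), (.mj 7 8, 548), (.mj 8 9, 50), (.hz 28 127, 1323578), (.hz 28 255, 1342996), (.hz 28 639, 3986145), (.hz 28 1279, 1995964)])
(.ask 319
(.mark 511 [9, 10, 11]
(.lp [[8, 11], [0, 2, 4, 6, 9], [1, 3, 5, 7, 10]] [(.mj 3 4, 234), (.mj 6 7, 116), (.mj 7 8, 4), (.mj 8 9, 18), (.hz 28 63, 122686), (.hz 28 127, 311011), (.hz 27 1215, 79201), (.hz 17 2367, 60841), (.hz 27 767, 17696), (.hz 27 1279, 17696), (.hz 24 2431, 14157)]))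
(.lp [[8], [0, 2, 4, 6, 9], [1, 3, 5, 7, 10]] [(.mj 3 4, 15), (.mj 6 7, 7), (.mj 8 9, 1), (.hz 28 127, 29316), (.hz 10 431, 390), (.hz 27 1279, 2773)]))))
(.lp [[8], [0, 2, 4, 6, 9], [1, 3, 5, 7, 10]] [(.mj 3 4, 55950), (.mj 6 7, 23259), (.rw 8, 1), (.hz 27 47, 5075237), (.hz 27 63, 6878368), (.hz 24 383, 10267916), (.hz 16 767, 882645), (.hz 16 1279, 7886428)]))
(.haz 8 191 3 20
(.lp [[8], [0, 2, 4, 6, 9], [1, 3, 5, 7, 10]] [(.mj 3 4, 1558), (.mj 6 7, 215), (.mj 9 8, 391), (.rw 4, 1), (.hz 27 191, 378779), (.hz 27 255, 675141), (.hz 26 1215, 29534), (.hz 27 1215, 232412), (.hz 27 767, 241001), (.hz 27 1279, 795095)])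
(.lp [[8], [0, 2, 4, 6, 9], [1, 3, 5, 7, 10]] [(.mj 3 4, 12), (.mj 6 7, 5), (.hz 27 47, 1124), (.hz 27 63, 1365), (.hz 17 319, 313), (.hz 24 383, 2257), (.hz 16 767, 192), (.hz 16 1279, 1490)]))
(.ask 303
(.mark 511 [9, 10, 11]
(.lp [[8, 11], [0, 2, 4, 6, 9], [1, 3, 5, 7, 10]] [(.mj 3 4, 1418), (.mj 6 7, 566), (.mj 10 8, 44), (.mj 10 9, 98), (.rw 4, 2), (.hz 24 383, 968900), (.hz 17 2367, 290940), (.hz 24 2431, 64941)]))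
(.cut 8 [(0, 1), (1, 1), (2, 1), (3, 1), (5, 1), (7, 1), (11, 1), (21, 1), (15, 1), (23, 1), (31, 1), (47, 1), (87, 1), (63, 1), (95, 1), (175, 1), (599, 1), (127, 1), (191, 1), (607, 1), (255, 1)]
(.lp [[8], [0, 2, 4, 6, 9], [1, 3, 5, 7, 10]] [(.mj 3 4, 34408), (.mj 6 7, 20087), (.mj 10 8, 7141), (.mj 10 9, 3080), (.rw 4, 1), (.hz 15 319, 24032), (.hz 17 319, 10405990), (.hz 25 639, 1794828), (.hz 16 767, 16341664), (.rw 9, 3)])))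
.fin))
(.haz 8 191 1 10
(.haz 8 191 3 25
(.haz 5 607 16 25
(.haz 4 303 13 25
(.haz 3 599 7 10
(.ask 255
(.mark 255 [8, 9, 10]
(.spn
(.ref 0)
(.lp [[8], [0, 2, 4, 6, 9], [1, 3, 5, 7, 10]] [(.mj 3 4, 7028), (.mj 9 8, 1402), (.mj 9 10, 334), (.rw 4, 4), (.hz 28 255, 1597214), (.hz 28 767, 1268652), (.hz 28 1279, 2782067)])
(.haz 8 63 7 50
(.lp [[8], [0, 2, 4, 6, 9], [1, 3, 5, 7, 10]] [(.mj 3 4, 24), (.mj 6 7, 10), (.mj 10 8, 13), (.hz 30 303, 971), (.hz 32 127, 2574), (.hz 32 191, 7033), (.hz 32 255, 7202), (.hz 25 639, 3946), (.hz 32 639, 6889), (.hz 32 767, 14091)])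
(.lp [[8], [0, 2, 4, 6, 9], [1, 3, 5, 7, 10]] [(.mj 3 4, 1566), (.mj 6 7, 680), (.mj 10 8, 197), (.hz 32 47, 47639), (.hz 32 63, 50091), (.hz 28 191, 597051), (.hz 28 255, 226413), (.hz 25 639, 79146), (.hz 28 767, 659550)]))
.fin))
(.spn
(.lp [[8], [1, 3, 5, 7], [0, 2, 4, 6, 9]] [(.mj 3 4, 15522), (.mj 6 7, 4815), (.mj 7 8, 6383), (.mj 8 9, 2150), (.rw 4, 8), (.hz 28 767, 8573244)])
(.lp [[8], [1, 3, 5, 7], [0, 2, 4, 6, 9]] [(.mj 3 4, 1515), (.mj 9 8, 269), (.rw 4, 1)])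
.fin
.fin))
(.lp [[8], [1, 3, 5, 7], [0, 2, 4, 6, 9]] [(.mj 3 4, 2239), (.rw 4, 4), (.hz 31 87, 1654301), (.hz 6 599, 321642), (.hz 15 319, 63959), (.hz 17 319, 120811), (.hz 29 607, 51167)]))
(.lp [[8], [1, 3, 5, 7], [0, 2, 4, 6, 9]] [(.mj 3 4, 156), (.mj 7 8, 16), (.rw 4, 2), (.hz 30 47, 230884), (.hz 10 303, 22501), (.hz 10 431, 25204)]))
(.lp [[8], [1, 3, 5, 7], [0, 2, 4, 6, 9]] [(.mj 3 4, 1165), (.rw 4, 1), (.hz 29 31, 158383), (.hz 29 95, 116458)]))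
(.lp [[8], [1, 3, 5, 7], [0, 2, 4, 6, 9]] [(.mj 3 4, 47), (.mj 6 7, 22), (.hz 28 47, 3455), (.hz 28 63, 9104), (.hz 27 191, 50541)]))
(.lp [[8], [1, 3, 5, 7], [0, 2, 4, 6, 9]] [(.mj 3 4, 19), (.mj 6 7, 10), (.hz 27 47, 3537), (.hz 27 63, 3211), (.hz 17 319, 1772), (.hz 24 383, 4400)]))))
(.lp [[8], [1, 3, 5, 7], [0, 2, 4, 6, 9]] [(.mj 3 4, 616), (.mj 6 7, 1100), (.rw 4, 14), (.hz 26 63, 1955871), (.hz 17 319, 1451047)]))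
(.lp [[8], [1, 3, 5, 7], [0, 2, 4, 6, 9]] [(.mj 3 4, 15582), (.mj 7 8, 3064), (.rw 4, 13), (.rw 7, 1), (.hz 25 63, 1541491), (.hz 25 127, 3239165), (.hz 17 319, 239362)]))
(.lp [[8], [1, 3, 5, 7], [0, 2, 4, 6, 9]] [(.mj 3 4, 15582), (.mj 7 8, 3064), (.rw 4, 13), (.rw 7, 1), (.hz 24 63, 1541491), (.hz 24 127, 3239165), (.hz 17 319, 239362)]))
(.lp [[8], [1, 3, 5, 7], [0, 2, 4, 6, 9]] [(.mj 3 4, 11679), (.mj 7 8, 2274), (.rw 4, 10), (.rw 7, 1), (.hz 23 63, 2860113), (.hz 23 127, 6315343), (.hz 17 319, 177647)]))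
(.lp [[8], [1, 3, 5, 7], [0, 2, 4, 6, 9]] [(.mj 3 4, 10371), (.mj 7 8, 2000), (.rw 4, 9), (.rw 7, 1), (.hz 22 63, 1006114), (.hz 22 127, 2344325), (.hz 17 319, 156229)]))
(.lp [[8], [1, 3, 5, 7], [0, 2, 4, 6, 9]] [(.mj 3 4, 11679), (.mj 7 8, 2274), (.rw 4, 10), (.rw 7, 1), (.hz 21 63, 2860113), (.hz 21 127, 6315343), (.hz 17 319, 177647)]))
(.lp [[8], [1, 3, 5, 7], [0, 2, 4, 6, 9]] [(.mj 3 4, 10371), (.mj 7 8, 2000), (.rw 4, 9), (.rw 7, 1), (.hz 20 63, 1006114), (.hz 20 127, 2344325), (.hz 17 319, 156229)]))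
(.lp [[8], [1, 3, 5, 7], [0, 2, 4, 6, 9]] [(.mj 3 4, 8300), (.mj 7 8, 1570), (.rw 4, 7), (.rw 7, 1), (.hz 19 63, 789870), (.hz 19 127, 2081382), (.hz 17 319, 122651)]))
(.lp [[8], [1, 3, 5, 7], [0, 2, 4, 6, 9]] [(.mj 3 4, 1120), (.mj 7 8, 204), (.rw 4, 1), (.hz 18 63, 102649), (.hz 18 127, 380071), (.hz 17 319, 15939)]))
(.cut 8 [(0, 1), (1, 1), (2, 1), (3, 1), (5, 1), (7, 1), (11, 1), (21, 1), (15, 1), (23, 1), (31, 1), (47, 1), (87, 1), (63, 1), (95, 1), (599, 1), (127, 1), (607, 1)]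
(.lp [[8], [1, 3, 5, 7], [0, 2, 4, 6, 9]] [(.mj 3 4, 25494), (.mj 7 8, 6929), (.rw 4, 23), (.hz 17 63, 4111968), (.hz 15 319, 2042604), (.rw 8, 2)])))
(.con 8 7)
(.cut 8 [(0, 1), (1, 1), (2, 1), (3, 1), (5, 1), (7, 1), (11, 1), (21, 1), (15, 1), (23, 1), (31, 1), (47, 1), (87, 1), (63, 1), (95, 1), (599, 1), (127, 1), (607, 1)]
(.lp [[8], [1, 3, 5, 7], [0, 2, 4, 6, 9]] [(.mj 3 4, 8858), (.mj 7 8, 1464), (.mj 9 7, 1464), (.rw 4, 12), (.rw 8, 1)]))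
.fin))

theorem run226 : run P3488 (leaf3 218 625) (cutRow P3488) [s210] t226 s226 = true := by
  decide +kernel

theorem bad226 : Bad P3488 s226 :=
  run_sound (leaf3_sound P3488 rfl rfl) (cutRow_sound P3488) (
    List.forall_mem_cons.2 ⟨bad210, fun _ h => absurd h List.not_mem_nil⟩) t226 s226 run226

/-- the state above piece 178 of the tree -/
def s178 : St := ⟨[0, 0, 1, 3, 5, 15, 21, 31, 47, 191], [303, 191, 159, 63, 31, 23, 21, 15, 11, 7, 5, 3, 2, 1, 0], [0, 1, 2, 3, 4, 5, 7, 8],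
  [(5, 6), (4, 5)],
  [⟨true, 2, 3, 3, 10⟩, ⟨true, 1, 5, 2, 5⟩, ⟨true, 2, 3, 23, 50⟩, ⟨true, 1, 5, 12, 25⟩, ⟨true, 1, 21, 27, 50⟩, ⟨true, 4, 15, 9, 40⟩, ⟨true, 3, 23, 11, 20⟩, ⟨true, 4, 47, 7, 20⟩, ⟨true, 4, 47, 17, 40⟩, ⟨true, 4, 47, 9, 20⟩, ⟨true, 4, 47, 19, 40⟩, ⟨true, 3, 87, 27, 40⟩, ⟨true, 5, 95, 1, 4⟩, ⟨true, 5, 159, 1, 4⟩, ⟨true, 7, 127, 7, 40⟩, ⟨true, 7, 95, 1, 5⟩, ⟨true, 8, 127, 9, 50⟩, ⟨true, 5, 95, 2, 5⟩, ⟨true, 6, 191, 3, 50⟩, ⟨true, 4, 303, 13, 25⟩, ⟨true, 5, 95, 12, 25⟩],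
  [.spn 0 0 651200, .spn 1 1 302400, .spn 3 2 302400, .spn 7 3 302400, .spn 15 4 302400, .spn 31 5 140426, .spn 63 7 140426, .spn 191 8 140426]⟩

/-- piece 178 of the tree -/
noncomputable def t178 : WN.Tree :=
(.haz 8 767 7 25
(.ask 319
(.mark 447 [6, 9, 10]
(.spn
(.haz 9 1471 3 20
(.haz 9 447 7 20
(.lp [[6], [0, 2, 4, 7, 9], [1, 3, 5, 8, 10]] [(.mj 6 9, 6811), (.mj 7 8, 7245), (.mj 8 6, 7245), (.rw 7, 1), (.rw 8, 1), (.hz 23 447, 4014568), (.hz 18 703, 2083020), (.hz 18 1471, 2535850), (.hz 23 1471, 12982647)])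
(.haz 10 511 7 20
(.lp [[6], [0, 2, 4, 7, 9], [1, 3, 5, 8, 10]] [(.mj 7 8, 1426), (.mj 8 6, 785), (.rw 8, 1), (.hz 23 191, 698589), (.hz 23 447, 443893), (.hz 18 703, 225565), (.hz 24 511, 2228447)])
(.lp [[6], [0, 2, 4, 7, 9], [1, 3, 5, 8, 10]] [(.mj 7 8, 13), (.mj 8 6, 9), (.hz 23 191, 8306), (.hz 23 447, 15118), (.hz 24 447, 11230), (.hz 18 703, 2682), (.hz 18 1471, 7172)])))
(.lp [[6], [0, 2, 4, 7, 9], [1, 3, 5, 8, 10]] [(.mj 7 8, 10), (.mj 8 6, 6), (.hz 22 191, 4880), (.hz 22 447, 2638)]))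
(.haz 9 1535 7 20
(.ask 703
(.ref 0)
(.ask 959
(.mark 959 [6, 10, 11]
(.spn
(.haz 11 1983 7 20
(.haz 10 3007 1 5
(.ask 3007
(.mark 3007 [6, 10, 12]
(.lp [[6], [1, 3, 5, 8, 10], [0, 2, 4, 7, 9, 11, 12]] [(.mj 6 10, 13), (.mj 6 11, 7), (.mj 7 8, 2), (.mj 9 6, 19), (.hz 18 1471, 24093), (.hz 24 3007, 184073), (.hz 24 3071, 100714), (.hz 24 7103, 100714)]))
(.lp [[6], [1, 3, 5, 8, 10], [0, 2, 4, 7, 9, 11]] [(.mj 6 10, 2), (.mj 9 6, 3)]))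
(.lp [[6], [1, 3, 5, 8, 10], [0, 2, 4, 7, 9, 11]] [(.mj 6 11, 16), (.mj 9 6, 19), (.hz 24 319, 37142), (.hz 24 447, 66781), (.hz 24 959, 42074), (.hz 18 1471, 32812), (.hz 23 1983, 63413)]))
(.lp [[6], [1, 3, 5, 8, 10], [0, 2, 4, 7, 9, 11]] [(.mj 6 10, 12), (.mj 9 6, 14), (.hz 23 959, 29803)]))
(.cut 6 [(0, 1), (1, 1), (2, 1), (3, 1), (5, 1), (7, 1), (11, 1), (21, 1), (15, 1), (23, 1), (31, 1), (47, 1), (63, 1), (159, 1), (303, 1), (191, 1), (319, 1), (447, 1), (703, 1), (959, 1)]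
(.lp [[6], [1, 3, 5, 8, 10], [0, 2, 4, 7, 9, 11]] [(.mj 7 8, 3743), (.mj 10 6, 1693), (.mj 10 11, 457), (.hz 18 3007, 1927270), (.rw 10, 4)]))
(.ask 3007
(.mark 3007 [6, 10, 12]
(.spn
(.lp [[6], [1, 3, 5, 8, 10], [0, 2, 4, 7, 9, 11, 12]] [(.mj 11 6, 129), (.rw 10, 1)])
(.lp [[6], [1, 3, 5, 8, 10], [0, 2, 4, 7, 9, 11, 12]] [(.mj 11 10, 2422), (.rw 10, 4), (.hz 18 1471, 9341562), (.hz 18 1983, 15124009)])
(.cut 6 [(0, 1), (1, 1), (2, 1), (3, 1), (5, 1), (7, 1), (11, 1), (21, 1), (15, 1), (23, 1), (31, 1), (47, 1), (63, 1), (159, 1), (303, 1), (191, 1), (319, 1), (447, 1), (703, 1)]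
(.cut 6 [(0, 1), (1, 1), (2, 1), (3, 1), (5, 1), (7, 1), (11, 1), (21, 1), (15, 1), (23, 1), (31, 1), (47, 1), (63, 1), (159, 1), (303, 1), (191, 1), (319, 1), (447, 1), (703, 1), (1343, 1), (959, 1), (1471, 1), (1983, 1)]
(.cut 6 [(0, 1), (1, 1), (2, 1), (3, 1), (5, 1), (7, 1), (11, 1), (21, 1), (15, 1), (23, 1), (31, 1), (47, 1), (63, 1), (159, 1), (303, 1), (191, 1), (319, 1), (447, 1), (703, 1), (1343, 1), (959, 1), (1471, 1)]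
(.cut 10 [(0, 1), (1, 1), (2, 1), (3, 1), (5, 1), (7, 1), (11, 1), (21, 1), (15, 1), (23, 1), (85, 1), (31, 1), (47, 1), (87, 1), (63, 1), (95, 1), (159, 1), (303, 1), (127, 1), (191, 1), (223, 1), (319, 1), (255, 1), (383, 1), (447, 1), (703, 1), (511, 1), (767, 1), (959, 1)]
(.cut 6 [(0, 1), (1, 1), (2, 1), (3, 1), (5, 1), (7, 1), (11, 1), (21, 1), (15, 1), (23, 1), (31, 1), (47, 1), (63, 1), (159, 1), (303, 1), (191, 1), (319, 1), (447, 1), (703, 1), (1343, 1), (959, 1)]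
(.lp [[6], [1, 3, 5, 8, 10], [0, 2, 4, 7, 9, 11, 12]] [(.mj 0 1, 357871), (.mj 7 8, 32546), (.mj 12 6, 100568), (.hz 4 85, 1415630), (.hz 15 1407, 466792975), (.hz 22 1535, 132691261), (.hz 18 3007, 62510290), (.hz 18 4031, 237313182), (.rw 11, 277), (.rw 12, 1), (.rw 13, 4), (.rw 14, 13), (.rw 15, 9)]))))))
.fin))
(.lp [[6], [1, 3, 5, 8, 10], [0, 2, 4, 7, 9, 11]] [(.mj 11 10, 1), (.rw 9, 1)]))
.fin))
(.lp [[6], [0, 2, 4, 7, 9], [1, 3, 5, 8, 10]] [(.mj 7 8, 27), (.mj 9 6, 16), (.mj 9 10, 2), (.hz 21 767, 32244), (.hz 18 1471, 67953)])))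
(.lp [[6], [0, 2, 4, 7, 9], [1, 3, 5, 8, 10]] [(.mj 7 8, 1), (.mj 9 6, 4), (.mj 9 10, 4), (.hz 22 191, 3883), (.hz 22 447, 8055), (.hz 18 1471, 15307)]))
(.cut 6 [(0, 1), (1, 1), (2, 1), (3, 1), (5, 1), (7, 1), (11, 1), (21, 1), (15, 1), (23, 1), (31, 1), (47, 1), (63, 1), (159, 1), (303, 1), (191, 1), (319, 1), (447, 1), (703, 2), (959, 1)]
(.cut 6 [(0, 1), (1, 1), (2, 1), (3, 1), (5, 1), (7, 1), (11, 1), (21, 1), (15, 1), (23, 1), (31, 1), (47, 1), (63, 1), (159, 1), (303, 1), (191, 1), (319, 1), (447, 1)]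
(.lp [[6], [0, 2, 4, 7, 9], [1, 3, 5, 8, 10]] [(.mj 7 8, 44518), (.mj 10 6, 27733), (.mj 10 9, 22588), (.hz 18 703, 24650935), (.hz 21 767, 149975029), (.rw 9, 6), (.rw 10, 49)])))
.fin))
(.ask 447
(.ref 1)
(.spn
(.lp [[6], [1, 3, 5, 8], [0, 2, 4, 7, 9]] [(.mj 6 9, 2), (.mj 7 6, 1), (.mj 8 6, 2)])
(.haz 7 383 14 25
(.haz 7 383 18 25
(.ask 703
(.mark 703 [6, 8, 10]
(.ask 959
(.mark 959 [6, 10, 11]
(.spn
(.lp [[6], [1, 3, 5, 8, 11], [0, 2, 4, 7, 9, 10]] [(.mj 6 11, 246), (.mj 8 9, 1459), (.mj 9 6, 763), (.rw 9, 1)])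
(.lp [[6], [1, 3, 5, 8, 11], [0, 2, 4, 7, 9, 10]] [(.mj 8 9, 7), (.mj 10 6, 5), (.mj 10 11, 1), (.hz 18 703, 8600), (.hz 18 959, 2588), (.hz 18 3007, 7162)])
(.cut 6 [(0, 1), (1, 1), (2, 1), (3, 1), (5, 1), (7, 1), (11, 1), (21, 1), (15, 1), (23, 1), (31, 1), (47, 1), (63, 1), (159, 1), (303, 1), (191, 1), (319, 1), (447, 1), (703, 1), (959, 1)]
(.cut 10 [(0, 1), (1, 1), (2, 1), (3, 1), (5, 1), (7, 1), (11, 1), (21, 1), (15, 1), (23, 1), (85, 1), (31, 1), (47, 1), (87, 1), (63, 1), (95, 1), (159, 1), (303, 1), (127, 1), (191, 1), (223, 1), (319, 1), (255, 1), (383, 1), (447, 1), (511, 1)]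
(.lp [[6], [1, 3, 5, 8, 11], [0, 2, 4, 7, 9, 10]] [(.mj 8 9, 27513), (.mj 11 6, 16026), (.rw 10, 52), (.rw 11, 4)])))
.fin))
(.lp [[6], [1, 3, 5, 8], [0, 2, 4, 7, 9, 10]] [(.mj 8 9, 3), (.mj 9 6, 2), (.hz 18 703, 2513)])))
(.ask 959
(.ask 959
(.mark 959 [6, 10, 11]
(.spn
(.haz 10 3007 13 50
(.ask 3007
(.mark 3007 [6, 10, 12]
(.lp [[6], [1, 3, 5, 8, 10], [0, 2, 4, 7, 9, 11, 12]] [(.mj 6 10, 18), (.mj 6 11, 7), (.mj 8 9, 17), (.mj 9 6, 24), (.mj 10 11, 1), (.hz 24 3007, 16216), (.hz 24 7103, 14308)]))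
(.lp [[6], [1, 3, 5, 8, 11], [0, 2, 4, 7, 9, 10]] [(.mj 6 10, 2), (.mj 9 6, 3)]))
(.lp [[6], [1, 3, 5, 8, 11], [0, 2, 4, 7, 9, 10]] [(.mj 6 11, 15), (.mj 8 9, 14), (.mj 9 6, 16), (.hz 24 959, 11946)]))
(.ask 1983
(.mark 1983 [6, 11, 12]
(.spn
(.lp [[6], [1, 3, 5, 8, 11], [0, 2, 4, 7, 9, 10, 12]] [(.mj 10 6, 129), (.rw 10, 1)])
(.cut 6 [(0, 1), (1, 1), (2, 1), (3, 1), (5, 1), (7, 1), (11, 1), (21, 1), (15, 1), (23, 1), (31, 1), (47, 1), (63, 1), (159, 1), (303, 1), (191, 1), (319, 1), (447, 1), (703, 1)]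
(.lp [[6], [1, 3, 5, 8, 11], [0, 2, 4, 7, 9, 10, 12]] [(.mj 8 9, 53728), (.mj 11 6, 19011), (.rw 9, 1), (.hz 18 1983, 15446790), (.rw 11, 62)]))
(.cut 6 [(0, 1), (1, 1), (2, 1), (3, 1), (5, 1), (7, 1), (11, 1), (21, 1), (15, 1), (23, 1), (31, 1), (47, 1), (63, 1), (159, 1), (303, 1), (191, 1), (319, 1), (447, 1), (703, 1)]
(.lp [[6], [1, 3, 5, 8, 11], [0, 2, 4, 7, 9, 10, 12]] [(.mj 8 9, 1666), (.mj 12 6, 627), (.hz 18 1983, 509402), (.hz 18 3007, 509402), (.rw 11, 2)]))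
.fin))
(.lp [[6], [1, 3, 5, 8, 11], [0, 2, 4, 7, 9, 10]] [(.mj 10 11, 813), (.rw 9, 1)]))
(.con 11 10)
.fin))
(.spn
(.lp [[6], [1, 3, 5, 8], [0, 2, 4, 7, 9, 10]] [(.mj 6 10, 1), (.mj 9 6, 1)])
(.ask 1983
(.ask 1983
(.mark 1983 [6, 11, 12]
(.spn
(.lp [[6], [1, 3, 5, 8, 12], [0, 2, 4, 7, 9, 10, 11]] [(.mj 10 6, 129), (.rw 10, 1)])
(.cut 6 [(0, 1), (1, 1), (2, 1), (3, 1), (5, 1), (7, 1), (11, 1), (21, 1), (15, 1), (23, 1), (31, 1), (47, 1), (63, 1), (159, 1), (303, 1), (191, 1), (319, 1), (447, 1), (703, 1)]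
(.lp [[6], [1, 3, 5, 8, 12], [0, 2, 4, 7, 9, 10, 11]] [(.mj 8 9, 1666), (.mj 11 6, 627), (.hz 18 1983, 509402), (.rw 11, 2)]))
(.con 12 11)
.fin))
(.spn
(.lp [[6], [1, 3, 5, 8], [0, 2, 4, 7, 9, 10, 11]] [(.mj 10 6, 1), (.rw 10, 1)])
(.cut 6 [(0, 1), (1, 1), (2, 1), (3, 1), (5, 1), (7, 1), (11, 1), (21, 1), (15, 1), (23, 1), (31, 1), (47, 1), (63, 1), (159, 1), (303, 1), (191, 1), (319, 1), (447, 1), (703, 1), (959, 1), (1983, 1)]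
(.lp [[6], [1, 3, 5, 8], [0, 2, 4, 7, 9, 10, 11]] [(.mj 8 9, 687), (.mj 11 6, 243), (.rw 11, 1)]))
.fin
.fin))
(.lp [[6], [1, 3, 5, 8], [0, 2, 4, 7, 9, 10]] [(.mj 10 6, 1)]))
.fin
.fin))
(.lp [[6], [1, 3, 5, 8], [0, 2, 4, 7, 9]] [(.mj 9 6, 1)])))
(.lp [[6], [1, 3, 5, 8], [0, 2, 4, 7, 9]] [(.mj 8 9, 1), (.mj 9 6, 2), (.hz 23 319, 4224), (.hz 22 383, 3647), (.hz 18 703, 1532)]))
(.lp [[6], [1, 3, 5, 8], [0, 2, 4, 7, 9]] [(.mj 7 8, 2), (.mj 8 9, 3), (.mj 9 6, 3), (.hz 22 319, 4322), (.hz 15 383, 13321), (.hz 18 703, 1968)]))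
.fin
.fin)))
(.lp [[6], [1, 3, 5, 8], [0, 2, 4, 7, 9]] [(.mj 3 4, 19), (.mj 8 9, 3), (.hz 21 63, 2454), (.hz 16 127, 52), (.hz 21 191, 1841), (.hz 18 703, 2482)]))

theorem run178 : run P3488 (leaf3 218 625) (cutRow P3488) [s175, s177] t178 s178 = true := by
  decide +kernel

theorem bad178 : Bad P3488 s178 :=
  run_sound (leaf3_sound P3488 rfl rfl) (cutRow_sound P3488) (
    List.forall_mem_cons.2 ⟨bad175, List.forall_mem_cons.2 ⟨bad177, fun _ h => absurd h List.not_mem_nil⟩⟩) t178 s178 run178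

/-- the state above piece 205 of the tree -/
def s205 : St := ⟨[0, 0, 1, 3, 5, 15, 23, 31, 47, 191], [191, 159, 63, 31, 23, 21, 15, 11, 7, 5, 3, 2, 1, 0], [0, 1, 2, 3, 4, 5, 7, 8],
  [(5, 6), (4, 5)],
  [⟨true, 2, 3, 3, 10⟩, ⟨true, 1, 5, 2, 5⟩, ⟨true, 2, 3, 23, 50⟩, ⟨true, 1, 5, 12, 25⟩, ⟨true, 1, 21, 27, 50⟩, ⟨true, 4, 15, 9, 40⟩, ⟨true, 3, 23, 11, 20⟩, ⟨true, 4, 47, 7, 20⟩, ⟨true, 4, 47, 17, 40⟩, ⟨true, 4, 47, 9, 20⟩, ⟨true, 4, 47, 19, 40⟩, ⟨true, 5, 95, 1, 5⟩, ⟨true, 5, 95, 3, 10⟩, ⟨true, 5, 31, 3, 10⟩, ⟨true, 3, 87, 29, 40⟩, ⟨true, 6, 447, 1, 40⟩, ⟨true, 7, 319, 11, 40⟩],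
  [.spn 0 0 651200, .spn 1 1 302400, .spn 3 2 302400, .spn 7 3 302400, .spn 15 4 302400, .spn 31 5 140426, .spn 63 7 140426, .spn 191 8 140426]⟩

/-- piece 205 of the tree -/
noncomputable def t205 : WN.Tree :=
(.haz 7 127 13 40
(.ask 303
(.mark 447 [6, 9, 10]
(.spn
(.haz 9 447 3 10
(.haz 9 255 3 10
(.lp [[6], [0, 2, 4, 7, 9], [1, 3, 5, 8, 10]] [(.mj 6 9, 49286), (.mj 7 8, 49286), (.mj 8 6, 49286), (.rw 7, 5), (.rw 8, 12), (.hz 19 255, 101212900), (.hz 18 447, 66305451), (.hz 15 1471, 20792650), (.hz 18 1471, 203305913)])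
(.lp [[6], [0, 2, 4, 7, 9], [1, 3, 5, 8, 10]] [(.mj 0 1, 8), (.mj 6 9, 11), (.mj 6 10, 3), (.mj 7 8, 13), (.mj 8 6, 16), (.hz 19 191, 10157), (.hz 18 511, 23673), (.hz 18 1471, 57984)]))
(.lp [[6], [0, 2, 4, 7, 9], [1, 3, 5, 8, 10]] [(.mj 0 1, 9133), (.mj 7 8, 10445), (.mj 8 6, 6453), (.rw 8, 4), (.hz 18 191, 11416398), (.hz 18 447, 7701285)]))
(.haz 6 63 1 10
(.haz 9 1471 17 40
(.ask 703
(.mark 959 [6, 10, 11]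
(.spn
(.lp [[6], [1, 3, 5, 8, 10], [0, 2, 4, 7, 9, 11]] [(.mj 0 1, 59250), (.mj 8 9, 2099), (.mj 9 6, 4650), (.rw 9, 5), (.hz 14 87, 263881), (.hz 18 63, 3195888), (.hz 18 1343, 13171228), (.hz 18 1471, 41127012), (.hz 18 2751, 17691901)])
(.lp [[6], [1, 3, 5, 8, 10], [0, 2, 4, 7, 9, 11]] [(.mj 0 1, 140), (.mj 8 9, 1), (.mj 10 6, 11), (.hz 14 87, 622), (.hz 18 63, 7536), (.hz 18 191, 13904), (.hz 18 319, 13143), (.hz 18 447, 27287), (.hz 18 703, 17033), (.hz 18 1343, 1253), (.hz 18 959, 44169), (.hz 18 2751, 15629)])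
(.lp [[6], [1, 3, 5, 8, 10], [0, 2, 4, 7, 9, 11]] [(.mj 0 1, 33), (.mj 8 9, 1), (.mj 11 6, 3), (.hz 14 87, 148), (.hz 18 63, 1794), (.hz 18 191, 3311), (.hz 18 319, 3129), (.hz 18 447, 6497), (.hz 18 703, 7277), (.hz 18 1343, 4613), (.hz 18 959, 12078), (.hz 18 1471, 12344), (.hz 18 2751, 79), (.hz 18 1983, 793)])
.fin))
(.ask 959
(.mark 959 [6, 10, 11]
(.spn
(.ask 87
(.mark 383 [7, 10, 12]
(.lp [[6, 12], [1, 3, 5, 8, 10], [0, 2, 4, 7, 9, 11]] [(.mj 0 1, 33257), (.mj 6 11, 467), (.mj 9 6, 2069), (.rw 9, 1), (.hz 14 4183, 172765), (.hz 18 319, 6216851), (.hz 12 4191, 2534844), (.hz 17 4223, 953815), (.hz 18 1343, 2053220), (.hz 17 4479, 1541045), (.hz 18 1471, 16594744)]))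
(.lp [[6], [1, 3, 5, 8, 10], [0, 2, 4, 7, 9, 11]] [(.mj 0 1, 106274), (.mj 6 11, 1392), (.mj 9 6, 7175), (.rw 9, 2), (.hz 18 63, 5109308), (.hz 18 191, 5628750), (.hz 18 319, 9083214), (.hz 18 1343, 13498665), (.hz 18 1471, 54648955)]))
(.lp [[6], [1, 3, 5, 8, 10], [0, 2, 4, 7, 9, 11]] [(.mj 0 1, 18), (.mj 7 8, 1), (.mj 10 6, 2), (.hz 14 87, 81), (.hz 18 63, 983), (.hz 18 191, 1813), (.hz 18 319, 4826), (.hz 18 447, 5189), (.hz 18 703, 1654), (.hz 18 1343, 1030), (.hz 18 959, 7603), (.hz 18 1471, 845), (.hz 18 3007, 8448)])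
(.lp [[6], [1, 3, 5, 8, 10], [0, 2, 4, 7, 9, 11]] [(.mj 0 1, 12), (.mj 11 6, 1), (.hz 14 87, 54), (.hz 18 63, 652), (.hz 18 191, 1202), (.hz 18 319, 1137), (.hz 18 447, 2360), (.hz 18 703, 1097), (.hz 18 1343, 321), (.hz 18 959, 3840)])
.fin))
(.lp [[6], [0, 2, 4, 7, 9], [1, 3, 5, 8, 10]] [(.mj 0 1, 14), (.mj 7 8, 1), (.mj 9 6, 2), (.hz 14 87, 62), (.hz 18 319, 6078), (.hz 18 447, 4057), (.hz 18 1343, 4520), (.hz 18 1471, 12738)])))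
(.lp [[6], [0, 2, 4, 7, 9], [1, 3, 5, 8, 10]] [(.mj 0 1, 17), (.mj 7 8, 2), (.mj 9 6, 3), (.mj 9 10, 1), (.hz 14 87, 76), (.hz 19 191, 1333), (.hz 18 319, 8349), (.hz 19 447, 1916), (.hz 18 1343, 10208), (.hz 18 1471, 20486)]))
(.haz 9 511 3 5
(.haz 8 255 13 40
(.haz 6 1983 3 40
(.haz 9 255 2 5
(.ask 703
(.mark 959 [6, 10, 11]
(.cut 6 [(0, 1), (1, 1), (2, 1), (3, 1), (5, 1), (7, 1), (11, 1), (21, 1), (15, 1), (23, 1), (31, 1), (47, 1), (63, 1), (159, 1), (303, 1), (191, 1), (1327, 1)]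
(.cut 6 [(0, 1), (1, 1), (2, 1), (3, 1), (5, 1), (7, 1), (11, 1), (21, 1), (15, 1), (23, 1), (31, 1), (47, 1), (63, 1), (159, 1), (303, 1), (191, 1), (319, 1), (1327, 1), (447, 1)]
(.lp [[6], [1, 3, 5, 8, 10], [0, 2, 4, 7, 9, 11]] [(.mj 0 1, 4290023), (.mj 8 9, 91467), (.hz 18 23, 125290617), (.hz 18 31, 162869354), (.hz 22 255, 212918017), (.hz 19 511, 140753388), (.hz 15 3007, 63616817), (.rw 9, 18), (.rw 10, 29)]))))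
(.ask 959
(.mark 959 [6, 10, 11]
(.spn
(.lp [[6], [1, 3, 5, 8, 10], [0, 2, 4, 7, 9, 11]] [(.mj 0 1, 1004), (.mj 6 11, 5), (.mj 8 9, 3), (.hz 18 23, 28503), (.hz 18 31, 33750), (.hz 18 63, 4680)])
(.lp [[6], [1, 3, 5, 8, 10], [0, 2, 4, 7, 9, 11]] [(.mj 0 1, 580), (.mj 8 9, 2), (.mj 10 6, 1), (.mj 10 11, 3), (.hz 18 23, 16360), (.hz 18 31, 19002), (.hz 20 255, 1141)])
(.cut 6 [(0, 1), (1, 1), (2, 1), (3, 1), (5, 1), (7, 1), (11, 1), (21, 1), (15, 1), (23, 1), (31, 1), (47, 1), (63, 1), (159, 1), (303, 1), (191, 1), (319, 1), (447, 1), (703, 1), (959, 1)]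
(.cut 6 [(0, 1), (1, 1), (2, 1), (3, 1), (5, 1), (7, 1), (11, 1), (21, 1), (15, 1), (23, 1), (31, 1), (47, 1), (63, 1), (159, 1), (303, 1), (191, 1), (319, 1), (1327, 1), (447, 1), (703, 1), (1343, 2), (959, 1), (1471, 2), (1983, 1)]
(.cut 10 [(0, 1), (1, 1), (2, 1), (3, 1), (5, 1), (7, 1), (11, 1), (21, 1), (15, 1), (23, 1), (31, 1), (47, 1), (87, 1), (63, 1), (95, 1), (159, 1), (303, 1), (127, 1), (191, 1), (223, 1), (319, 1), (255, 1), (383, 1), (447, 1), (703, 1), (511, 1), (767, 1), (959, 1), (1023, 1)]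
(.cut 6 [(0, 1), (1, 1), (2, 1), (3, 1), (5, 1), (7, 1), (11, 1), (21, 1), (15, 1), (23, 1), (31, 1), (47, 1), (63, 1), (159, 1), (303, 1), (191, 1), (1327, 1), (703, 1)]
(.cut 6 [(0, 1), (1, 1), (2, 1), (3, 1), (5, 1), (7, 1), (11, 1), (21, 1), (15, 1), (23, 1), (31, 1), (47, 1), (63, 1), (159, 1), (303, 1), (319, 1), (1327, 1)]
(.cut 6 [(0, 1), (1, 1), (2, 1), (3, 1), (5, 1), (7, 1), (11, 1), (21, 1), (15, 1), (23, 1), (31, 1), (47, 1), (63, 1), (159, 1), (303, 1), (191, 1), (319, 1), (1327, 1), (447, 1)]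
(.cut 10 [(0, 1), (1, 1), (2, 1), (3, 1), (5, 1), (7, 1), (11, 1), (21, 1), (15, 1), (23, 1), (31, 1), (47, 1), (87, 1), (63, 1), (95, 1), (159, 1), (303, 1), (127, 1), (191, 1), (223, 1), (319, 1), (255, 1), (383, 1), (447, 1), (703, 1), (767, 1), (959, 1)]
(.lp [[6], [1, 3, 5, 8, 10], [0, 2, 4, 7, 9, 11]] [(.mj 0 1, 29050845), (.mj 11 6, 809246), (.hz 18 23, 640827456), (.hz 10 1327, 300020635), (.hz 17 1407, 669863664), (.hz 19 1535, 5319117750), (.hz 21 1983, 580912394), (.rw 10, 124), (.rw 11, 55), (.rw 12, 36), (.rw 13, 1012), (.rw 14, 494), (.rw 15, 342), (.rw 16, 75)]))))))))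
.fin))
(.lp [[6], [0, 2, 4, 7, 9], [1, 3, 5, 8, 10]] [(.mj 0 1, 156), (.mj 8 6, 1), (.mj 8 9, 1), (.hz 18 23, 4347), (.hz 18 31, 4850), (.hz 20 255, 28)])))
(.lp [[6], [0, 2, 4, 7, 9], [1, 3, 5, 8, 10]] [(.mj 0 1, 11), (.hz 18 23, 303), (.hz 18 31, 321), (.hz 18 63, 224), (.hz 22 191, 1701), (.hz 20 255, 102), (.hz 19 511, 683)]))
(.lp [[6], [0, 2, 4, 7, 9], [1, 3, 5, 8, 10]] [(.mj 0 1, 166), (.mj 8 9, 2), (.hz 21 23, 1157), (.hz 21 31, 593), (.hz 21 159, 641), (.hz 21 191, 19), (.hz 20 255, 1817), (.hz 19 511, 15669)]))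
(.cut 6 [(0, 1), (1, 1), (2, 1), (3, 1), (5, 1), (7, 1), (11, 1), (21, 1), (15, 1), (23, 1), (31, 1), (47, 1), (63, 1), (159, 1), (303, 1), (191, 1), (319, 1), (1327, 1), (447, 1)]
(.lp [[6], [0, 2, 4, 7, 9], [1, 3, 5, 8, 10]] [(.mj 0 1, 113339), (.mj 8 9, 4956), (.hz 18 23, 3486032), (.hz 18 31, 5237592), (.hz 18 63, 7662112), (.hz 20 127, 894434), (.hz 20 191, 1931787), (.hz 10 1327, 375228), (.hz 19 511, 25247128), (.rw 9, 4)])))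
(.cut 6 [(0, 1), (1, 1), (2, 1), (3, 1), (5, 1), (7, 1), (11, 1), (21, 1), (15, 1), (23, 1), (31, 1), (47, 1), (63, 1), (159, 1), (303, 1), (191, 1), (319, 1), (1327, 1), (447, 1)]
(.lp [[6], [0, 2, 4, 7, 9], [1, 3, 5, 8, 10]] [(.mj 0 1, 88435), (.mj 8 9, 1293), (.mj 9 6, 340), (.hz 18 23, 2466685), (.hz 18 31, 2740761), (.hz 19 447, 4461705), (.hz 19 511, 1894447), (.rw 9, 1)]))))
(.haz 6 159 1 8
(.lp [[6], [0, 2, 4, 7, 9], [1, 3, 5, 8, 10]] [(.mj 0 1, 52), (.mj 7 8, 3), (.mj 10 6, 7), (.mj 10 9, 2), (.hz 14 87, 230), (.hz 18 159, 1314), (.hz 18 191, 8665), (.hz 18 447, 39815), (.hz 18 703, 24501), (.hz 18 1471, 19531)])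
(.cut 6 [(0, 1), (1, 1), (2, 1), (3, 1), (5, 1), (7, 1), (11, 1), (21, 1), (15, 1), (23, 1), (31, 1), (47, 1), (63, 1), (159, 1), (303, 1), (191, 1), (319, 1), (1327, 1), (447, 1)]
(.lp [[6], [0, 2, 4, 7, 9], [1, 3, 5, 8, 10]] [(.mj 0 1, 87194), (.mj 10 6, 623), (.mj 10 9, 1006), (.rw 7, 1), (.hz 18 23, 2942846), (.hz 18 31, 1202915), (.hz 18 159, 1374760), (.rw 9, 1)])))
.fin))
(.haz 6 703 3 40
(.ref 0)
(.lp [[6], [1, 3, 5, 8], [0, 2, 4, 7, 9]] [(.mj 0 1, 744), (.mj 8 9, 8), (.hz 18 23, 5167), (.hz 18 31, 2623), (.hz 18 159, 2836), (.hz 18 191, 2814), (.hz 15 447, 2973)])))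
(.cut 6 [(0, 1), (1, 1), (2, 1), (3, 1), (5, 1), (7, 1), (11, 1), (21, 1), (15, 1), (23, 1), (31, 1), (47, 1), (63, 1), (159, 1), (303, 1)]
(.lp [[6], [1, 3, 5, 8], [0, 2, 4, 7, 9]] [(.mj 0 1, 28343), (.mj 7 8, 2563), (.mj 8 6, 3296), (.hz 14 87, 126230), (.hz 17 63, 1058386), (.rw 8, 1)])))

theorem run205 : run P3488 (leaf3 218 625) (cutRow P3488) [s204] t205 s205 = true := by
  decide +kernel

theorem bad205 : Bad P3488 s205 :=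
  run_sound (leaf3_sound P3488 rfl rfl) (cutRow_sound P3488) (
    List.forall_mem_cons.2 ⟨bad204, fun _ h => absurd h List.not_mem_nil⟩) t205 s205 run205

/-- the state above piece 121 of the tree -/
def s121 : St := ⟨[0, 0, 1, 3, 5, 7, 15, 31], [31, 23, 21, 15, 11, 7, 5, 3, 2, 1, 0], [0, 1, 2, 3, 4, 6],
  [],
  [⟨true, 2, 3, 3, 10⟩, ⟨true, 1, 5, 2, 5⟩, ⟨true, 2, 3, 23, 50⟩, ⟨true, 1, 5, 12, 25⟩, ⟨true, 4, 39, 4, 25⟩, ⟨true, 4, 39, 9, 50⟩, ⟨true, 4, 15, 4, 25⟩, ⟨true, 4, 15, 9, 50⟩, ⟨true, 1, 21, 29, 50⟩, ⟨true, 3, 39, 6, 25⟩, ⟨true, 3, 39, 3, 10⟩, ⟨true, 4, 39, 6, 25⟩, ⟨true, 3, 39, 17, 50⟩, ⟨true, 3, 39, 19, 50⟩, ⟨true, 3, 39, 2, 5⟩, ⟨true, 3, 23, 2, 5⟩, ⟨true, 4, 79, 6, 25⟩],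
  [.spn 0 0 651200, .spn 1 1 302400, .spn 3 2 302400, .spn 7 3 140426, .spn 15 4 140426, .spn 31 6 140426]⟩

/-- piece 121 of the tree -/
noncomputable def t121 : WN.Tree :=
(.haz 4 39 7 25
(.haz 3 55 3 5
(.haz 5 159 1 20
(.haz 3 55 7 10
(.haz 5 15 7 40
(.lp [[5], [1, 3, 6], [0, 2, 4, 7]] [(.mj 0 1, 15), (.mj 6 5, 2), (.hz 21 15, 252), (.hz 21 31, 276), (.hz 21 79, 51), (.hz 21 159, 290)])
(.haz 3 39 9 20
(.ask 79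
(.mark 95 [5, 7, 8]
(.spn
(.haz 7 95 13 40
(.lp [[5], [0, 2, 4, 7], [1, 3, 6, 8]] [(.mj 0 1, 14), (.mj 5 7, 1), (.mj 6 5, 1), (.hz 20 55, 374), (.hz 23 95, 109), (.hz 23 127, 147), (.hz 23 351, 299)])
(.lp [[5], [0, 2, 4, 7], [1, 3, 6, 8]] [(.mj 0 1, 1200117), (.mj 6 5, 42321), (.rw 6, 22), (.hz 23 31, 6077724), (.hz 20 55, 28822814), (.hz 23 95, 3806146), (.hz 19 159, 11902796)]))
(.ask 159
(.mark 223 [5, 8, 9]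
(.spn
(.ask 39
(.mark 255 [8, 9, 10]
(.lp [[5, 10], [1, 3, 6, 8], [0, 2, 4, 7, 9]] [(.mj 0 1, 8862), (.mj 5 8, 44), (.mj 6 5, 199), (.mj 6 7, 466), (.mj 7 5, 182), (.rw 7, 1), (.hz 20 1079, 240811)]))
(.ask 47
(.mark 255 [8, 9, 10]
(.lp [[5, 10], [1, 3, 6, 8], [0, 2, 4, 7, 9]] [(.mj 0 1, 11343), (.mj 5 8, 56), (.mj 6 5, 108), (.mj 6 7, 597), (.mj 7 5, 228), (.rw 7, 1)]))
(.ask 111
(.mark 255 [8, 9, 10]
(.lp [[5, 10], [1, 3, 6, 8], [0, 2, 4, 7, 9]] [(.mj 0 1, 23238), (.mj 6 7, 894), (.mj 7 5, 380), (.rw 7, 1)]))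
(.ask 55
(.mark 255 [8, 9, 10]
(.lp [[5, 10], [1, 3, 6, 8], [0, 2, 4, 7, 9]] [(.mj 0 1, 54206), (.mj 5 8, 267), (.mj 6 5, 1800), (.mj 6 7, 2853), (.mj 7 5, 1129), (.rw 7, 8), (.hz 20 1079, 1138791)]))
(.ask 63
(.mark 255 [8, 9, 10]
(.lp [[5, 10], [1, 3, 6, 8], [0, 2, 4, 7, 9]] [(.mj 0 1, 17116), (.mj 5 8, 84), (.mj 6 5, 336), (.mj 6 7, 901), (.mj 7 5, 349), (.rw 7, 2)]))
(.lp [[5], [1, 3, 6, 8], [0, 2, 4, 7, 9]] [(.mj 0 1, 71671), (.mj 6 7, 2795), (.mj 7 5, 980), (.rw 7, 1), (.hz 19 671, 1339320), (.hz 19 479, 2107960)]))))))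
(.maj 5 9
(.cut 5 [(0, 1), (1, 1), (2, 1), (3, 1), (5, 1), (7, 1), (11, 1), (21, 1), (15, 1), (23, 1), (31, 1), (79, 1), (95, 1), (159, 1), (223, 1)]
(.lp [[5], [1, 3, 6, 8], [0, 2, 4, 7, 9]] [(.mj 0 1, 14525), (.mj 6 7, 327), (.mj 8 5, 493), (.hz 20 55, 384247), (.hz 19 671, 497934), (.hz 19 735, 1111947), (.rw 8, 1)]))
(.cut 5 [(0, 1), (1, 1), (2, 1), (3, 1), (5, 1), (7, 1), (11, 1), (21, 1), (15, 1), (23, 1), (31, 1), (79, 1), (95, 1), (159, 1), (223, 1)]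
(.lp [[5], [1, 3, 6, 8], [0, 2, 4, 7, 9]] [(.mj 0 1, 10822), (.mj 6 7, 383), (.mj 8 5, 46), (.mj 8 9, 25), (.mj 9 5, 364), (.hz 20 55, 286295), (.hz 19 479, 348516), (.rw 8, 1)])))
(.cut 5 [(0, 1), (1, 1), (2, 1), (3, 1), (5, 1), (7, 1), (11, 1), (21, 1), (15, 1), (23, 1), (31, 1), (159, 1)]
(.cut 5 [(0, 1), (1, 1), (2, 1), (3, 1), (5, 1), (7, 1), (11, 1), (21, 1), (15, 1), (23, 1), (31, 1), (79, 1), (95, 1), (159, 1)]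
(.cut 5 [(0, 1), (1, 1), (2, 1), (3, 1), (5, 1), (7, 1), (11, 1), (21, 1), (15, 1), (23, 1), (31, 1), (79, 1), (95, 1), (159, 1), (223, 1)]
(.lp [[5], [1, 3, 6, 8], [0, 2, 4, 7, 9]] [(.mj 0 1, 435300), (.mj 6 7, 19150), (.mj 9 5, 17609), (.mj 9 8, 33), (.hz 20 55, 11515884), (.hz 19 479, 21153565), (.rw 8, 22), (.rw 9, 19), (.rw 10, 2)]))))
.fin))
(.ask 223
(.mark 223 [5, 8, 9]
(.spn
(.haz 9 479 7 20
(.haz 5 95 1 10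
(.lp [[5], [1, 3, 6, 8], [0, 2, 4, 7, 9]] [(.mj 0 1, 53409), (.mj 5 8, 974), (.mj 5 9, 3645), (.mj 6 7, 297), (.mj 7 5, 5966), (.rw 7, 1), (.hz 20 55, 695099), (.hz 24 351, 20028467), (.hz 23 479, 5483715)])
(.lp [[5], [1, 3, 6, 8], [0, 2, 4, 7, 9]] [(.mj 0 1, 78), (.mj 5 8, 1), (.mj 5 9, 3), (.hz 24 7, 552), (.hz 24 23, 2596), (.hz 24 31, 4823), (.hz 23 479, 4135)]))
(.lp [[5], [1, 3, 6, 8], [0, 2, 4, 7, 9]] [(.mj 0 1, 78), (.mj 5 8, 9), (.mj 7 5, 13), (.hz 23 223, 8593), (.hz 19 479, 22990)]))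
(.cut 5 [(0, 1), (1, 1), (2, 1), (3, 1), (5, 1), (7, 1), (11, 1), (21, 1), (15, 1), (23, 1), (31, 1), (79, 1), (95, 1), (159, 1), (223, 1)]
(.lp [[5], [1, 3, 6, 8], [0, 2, 4, 7, 9]] [(.mj 0 1, 19534), (.mj 8 5, 568), (.mj 8 9, 142), (.hz 20 55, 516778), (.hz 19 735, 568201), (.rw 8, 1)]))
(.ask 735
(.mark 735 [5, 8, 10]
(.spn
(.lp [[5], [1, 3, 6, 8], [0, 2, 4, 7, 9, 10]] [(.mj 9 5, 150), (.rw 8, 1)])
(.cut 5 [(0, 1), (1, 1), (2, 1), (3, 1), (5, 1), (7, 1), (11, 1), (21, 1), (15, 1), (23, 1), (31, 1), (79, 1), (95, 1), (159, 1), (335, 1), (223, 1), (351, 1), (479, 1), (735, 1)]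
(.lp [[5], [1, 3, 6, 8], [0, 2, 4, 7, 9, 10]] [(.mj 0 1, 68986), (.mj 8 10, 4936), (.mj 9 8, 25111), (.rw 7, 4), (.rw 8, 34), (.hz 20 55, 1825031), (.hz 19 479, 149445979), (.rw 9, 17)]))
(.cut 5 [(0, 1), (1, 1), (2, 1), (3, 1), (5, 1), (7, 1), (11, 1), (21, 1), (15, 1), (23, 1), (31, 1), (79, 1), (95, 1), (159, 1), (223, 1)]
(.cut 5 [(0, 1), (1, 1), (2, 1), (3, 1), (5, 1), (7, 1), (11, 1), (21, 1), (15, 1), (23, 1), (31, 1), (79, 1), (95, 1), (159, 1), (335, 1), (223, 1), (351, 1)]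
(.cut 8 [(0, 1), (1, 1), (2, 1), (3, 1), (5, 1), (7, 1), (11, 1), (21, 1), (15, 1), (23, 1), (39, 1), (31, 1), (47, 1), (55, 1), (79, 1), (63, 1), (95, 1), (111, 1), (159, 1), (127, 1), (191, 1)]
(.lp [[5], [1, 3, 6, 8], [0, 2, 4, 7, 9, 10]] [(.mj 0 1, 2089846), (.mj 6 7, 19153), (.mj 10 5, 166710), (.hz 17 367, 2220859), (.hz 19 479, 675556), (.rw 9, 554), (.rw 10, 22), (.rw 11, 18)]))))
.fin))
(.lp [[5], [1, 3, 6, 8], [0, 2, 4, 7, 9]] [(.mj 9 8, 1), (.rw 7, 1)]))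
.fin))
(.cut 5 [(0, 1), (1, 1), (2, 1), (3, 1), (5, 1), (7, 1), (11, 1), (21, 1), (15, 1), (23, 1), (31, 1), (159, 1)]
(.lp [[5], [0, 2, 4, 7], [1, 3, 6, 8]] [(.mj 0 1, 38384), (.mj 6 7, 295), (.mj 7 5, 1284), (.hz 20 55, 1015437), (.hz 19 479, 2715142), (.rw 7, 1)]))))
(.cut 5 [(0, 1), (1, 1), (2, 1), (3, 1), (5, 1), (7, 1), (11, 1), (21, 1), (15, 1), (23, 1), (31, 1)]
(.cut 5 [(0, 1), (1, 1), (2, 1), (3, 1), (5, 1), (7, 1), (11, 1), (21, 1), (15, 1), (23, 1), (31, 1), (79, 1), (95, 1)]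
(.lp [[5], [0, 2, 4, 7], [1, 3, 6, 8]] [(.mj 0 1, 46724), (.mj 8 5, 1887), (.mj 8 7, 1584), (.hz 20 55, 1236087), (.hz 19 159, 310488), (.rw 7, 2), (.rw 8, 1)])))
.fin))
(.haz 6 159 1 5
(.haz 6 159 11 40
(.haz 6 159 13 40
(.ask 95
(.ref 0)
(.spn
(.lp [[5], [1, 3, 6], [0, 2, 4, 7]] [(.mj 5 7, 2), (.mj 6 5, 3)])
(.haz 5 95 1 8
(.lp [[5], [1, 3, 6], [0, 2, 4, 7]] [(.mj 6 7, 13), (.mj 7 5, 7), (.hz 26 223, 27726)])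
(.ask 159
(.mark 159 [5, 6, 8]
(.ask 223
(.mark 223 [5, 8, 9]
(.spn
(.lp [[5], [1, 3, 6, 9], [0, 2, 4, 7, 8]] [(.mj 5 9, 335), (.mj 6 7, 1956), (.mj 7 5, 1100), (.rw 7, 1)])
(.lp [[5], [1, 3, 6, 9], [0, 2, 4, 7, 8]] [(.mj 6 7, 7), (.mj 8 5, 5), (.mj 8 9, 1), (.hz 19 159, 7095), (.hz 19 223, 2309), (.hz 19 735, 6124)])
(.cut 5 [(0, 1), (1, 1), (2, 1), (3, 1), (5, 1), (7, 1), (11, 1), (21, 1), (15, 1), (23, 1), (31, 1), (79, 1), (95, 1), (159, 1), (223, 1)]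
(.lp [[5], [1, 3, 6, 9], [0, 2, 4, 7, 8]] [(.mj 6 7, 983), (.mj 9 5, 385), (.rw 8, 1)]))
.fin))
(.lp [[5], [1, 3, 6], [0, 2, 4, 7, 8]] [(.mj 6 7, 1136), (.rw 6, 1)])))
(.ask 223
(.maj 5 8
(.ask 223
(.mark 223 [5, 8, 9]
(.spn
(.haz 8 735 11 40
(.lp [[5], [1, 3, 6, 9], [0, 2, 4, 7, 8]] [(.mj 5 8, 172), (.mj 5 9, 98), (.mj 6 7, 186), (.mj 7 5, 245), (.hz 27 735, 96789)])
(.lp [[5], [1, 3, 6, 9], [0, 2, 4, 7, 8]] [(.mj 6 7, 8), (.mj 7 5, 9), (.mj 8 9, 8), (.hz 27 223, 2875)]))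
(.con 8 5)
(.con 9 8)
.fin))
(.lp [[5], [1, 3, 6], [0, 2, 4, 7, 8]] [(.mj 5 8, 1), (.mj 7 5, 1)]))
(.cut 5 [(0, 1), (1, 1), (2, 1), (3, 1), (5, 1), (7, 1), (11, 1), (21, 1), (15, 1), (23, 1), (31, 1), (79, 1), (95, 1), (159, 1)]
(.lp [[5], [1, 3, 6], [0, 2, 4, 7, 8]] [(.mj 6 7, 983), (.mj 8 5, 385), (.rw 7, 1)])))
(.lp [[5], [1, 3, 6], [0, 2, 4, 7]] [(.mj 7 5, 1)]))))
.fin
.fin))
(.lp [[5], [1, 3, 6], [0, 2, 4, 7]] [(.mj 6 5, 44), (.mj 6 7, 63), (.hz 21 15, 3297), (.hz 25 31, 13868), (.hz 19 159, 59627)]))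
(.lp [[5], [1, 3, 6], [0, 2, 4, 7]] [(.mj 6 5, 2), (.mj 6 7, 3), (.hz 21 15, 203), (.hz 24 31, 679), (.hz 19 159, 2834)]))
(.lp [[5], [1, 3, 6], [0, 2, 4, 7]] [(.mj 6 5, 5), (.mj 6 7, 6), (.hz 23 15, 3290), (.hz 23 31, 6456)])))
(.lp [[5], [1, 3, 6], [0, 2, 4, 7]] [(.mj 3 4, 7), (.mj 6 7, 1), (.hz 22 7, 1633), (.hz 21 7, 567), (.hz 14 39, 878)])))
(.lp [[5], [1, 3, 6], [0, 2, 4, 7]] [(.mj 0 1, 91), (.mj 3 4, 9), (.mj 6 5, 4), (.hz 20 23, 3834), (.hz 14 39, 2274), (.hz 18 55, 4094)]))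
(.cut 5 [(0, 1), (1, 1), (2, 1), (3, 1), (5, 1), (7, 1), (11, 1), (21, 1), (15, 1), (23, 1), (31, 1)]
(.lp [[5], [1, 3, 6], [0, 2, 4, 7]] [(.hz 19 7, 210100), (.hz 19 15, 51886), (.rw 6, 1)])))
(.lp [[5], [1, 3, 6], [0, 2, 4, 7]] [(.mj 0 1, 9), (.mj 6 5, 1), (.hz 18 23, 1759), (.hz 14 39, 1408), (.hz 14 55, 1214)]))
(.lp [[5], [1, 3, 6], [0, 2, 4, 7]] [(.mj 0 1, 26), (.mj 6 5, 1), (.hz 17 7, 420), (.hz 14 39, 940), (.hz 11 39, 105), (.hz 11 47, 236)]))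

theorem run121 : run P3488 (leaf3 218 625) (cutRow P3488) [s120] t121 s121 = true := by
  decide +kernel

theorem bad121 : Bad P3488 s121 :=
  run_sound (leaf3_sound P3488 rfl rfl) (cutRow_sound P3488) (
    List.forall_mem_cons.2 ⟨bad120, fun _ h => absurd h List.not_mem_nil⟩) t121 s121 run121

/-- the state above piece 109 of the tree -/
def s109 : St := ⟨[0, 0, 1, 3, 5, 7, 11, 21], [31, 15, 7, 5, 3, 2, 1, 0], [0, 1, 2, 3, 4, 6],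
  [],
  [⟨true, 2, 3, 3, 10⟩, ⟨true, 1, 5, 2, 5⟩, ⟨true, 2, 3, 23, 50⟩, ⟨true, 1, 5, 12, 25⟩, ⟨true, 4, 39, 4, 25⟩, ⟨true, 1, 21, 27, 50⟩, ⟨true, 4, 39, 11, 50⟩, ⟨true, 3, 39, 13, 50⟩, ⟨true, 4, 39, 6, 25⟩, ⟨true, 4, 79, 7, 25⟩],
  [.spn 0 0 651200, .spn 1 1 302400, .spn 3 2 302400, .spn 7 3 140426, .spn 15 4 140426, .spn 31 6 140426]⟩

/-- piece 109 of the tree -/
noncomputable def t109 : WN.Tree :=
(.haz 4 39 7 25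
(.haz 4 15 3 10
(.haz 3 151 11 50
(.haz 3 151 17 50
(.haz 3 151 2 5
(.haz 7 63 7 50
(.haz 6 63 3 10
(.haz 6 159 7 25
(.ask 75
(.mark 95 [5, 7, 8]
(.spn
(.haz 7 351 11 50
(.haz 8 127 11 50
(.haz 7 31 3 10
(.lp [[5], [0, 2, 4, 7], [1, 3, 6, 8]] [(.mj 4 6, 9501), (.mj 5 7, 9501), (.mj 6 5, 9501), (.rw 5, 1), (.rw 6, 4), (.hz 20 63, 16117251), (.hz 20 95, 5047244), (.hz 19 127, 950070), (.hz 20 351, 14844836)])
(.ask 39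
(.mark 127 [7, 8, 9]
(.lp [[5, 9], [0, 2, 4, 7], [1, 3, 6, 8]] [(.mj 3 4, 710), (.mj 4 6, 2242), (.mj 5 7, 823), (.mj 5 8, 141), (.mj 6 5, 1408), (.rw 6, 1), (.hz 20 21, 21764), (.hz 20 23, 96384), (.hz 20 31, 563434), (.hz 10 551, 98770), (.hz 11 559, 614566), (.hz 16 575, 2115719), (.hz 15 575, 406883), (.hz 18 351, 310039), (.hz 19 639, 832298)]))
(.ask 47
(.mark 127 [7, 8, 9]
(.lp [[5, 9], [0, 2, 4, 7], [1, 3, 6, 8]] [(.mj 0 1, 5309), (.mj 4 6, 4725), (.mj 5 7, 3313), (.mj 5 8, 948), (.mj 6 5, 4558), (.rw 6, 1), (.hz 20 21, 288909), (.hz 20 23, 805415), (.hz 20 31, 1647060), (.hz 16 575, 3357598), (.hz 15 575, 678944), (.hz 18 351, 1391130), (.hz 19 639, 1663449)]))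
(.lp [[5], [0, 2, 4, 7], [1, 3, 6, 8]] [(.mj 0 1, 231), (.mj 3 4, 81), (.mj 4 6, 35), (.mj 5 7, 8), (.mj 6 5, 13), (.hz 5 149, 915), (.hz 20 31, 6042), (.hz 15 63, 5827), (.hz 19 127, 2191), (.hz 18 351, 2521)]))))
(.lp [[5], [0, 2, 4, 7], [1, 3, 6, 8]] [(.mj 0 1, 158), (.mj 3 4, 46), (.mj 4 6, 35), (.mj 5 7, 59), (.mj 6 5, 79), (.hz 19 75, 570), (.hz 5 149, 622), (.hz 19 79, 3414), (.hz 15 63, 32977), (.hz 19 95, 7642), (.hz 18 351, 18194)]))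
(.lp [[5], [0, 2, 4, 7], [1, 3, 6, 8]] [(.mj 0 1, 94), (.mj 3 4, 8), (.mj 6 5, 5), (.hz 18 21, 475), (.hz 18 23, 523), (.hz 7 39, 204), (.hz 18 31, 650), (.hz 15 63, 1236), (.hz 18 95, 501)]))
(.haz 5 351 1 25
(.haz 5 79 4 25
(.lp [[5], [0, 2, 4, 7], [1, 3, 6, 8]] [(.mj 0 1, 234), (.mj 3 4, 187), (.mj 4 6, 182), (.mj 6 7, 199), (.mj 7 5, 292), (.mj 7 8, 11), (.hz 10 39, 4171), (.hz 19 79, 82533), (.hz 2 331, 4108), (.hz 19 95, 120906), (.hz 19 335, 69723), (.hz 19 223, 224684), (.hz 19 351, 197322)])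
(.ask 149
(.mark 223 [5, 8, 9]
(.spn
(.haz 8 735 7 50
(.ask 39
(.mark 255 [8, 9, 10]
(.lp [[5, 10], [1, 3, 6, 8], [0, 2, 4, 7, 9]] [(.mj 5 8, 123), (.mj 6 7, 561), (.mj 7 5, 377), (.mj 7 8, 254), (.rw 7, 1)]))
(.lp [[5], [1, 3, 6, 8], [0, 2, 4, 7, 9]] [(.mj 0 1, 173673), (.mj 3 4, 80344), (.mj 4 6, 13112), (.mj 5 8, 10742), (.mj 6 7, 7212), (.rw 6, 11), (.rw 7, 12), (.hz 19 15, 7312988), (.hz 5 661, 191791), (.hz 20 735, 6714015)]))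
(.lp [[5], [1, 3, 6, 8], [0, 2, 4, 7, 9]] [(.mj 3 4, 3), (.mj 4 6, 1), (.mj 6 7, 18), (.mj 7 5, 13), (.hz 20 75, 331), (.hz 20 79, 1214), (.hz 20 95, 2892), (.hz 20 223, 1887)]))
(.haz 9 479 4 25
(.ask 39
(.mark 255 [8, 9, 10]
(.lp [[5, 10], [1, 3, 6, 8], [0, 2, 4, 7, 9]] [(.mj 0 1, 341), (.mj 3 4, 112), (.mj 4 6, 12), (.mj 7 8, 3), (.mj 8 5, 5), (.hz 10 39, 16308), (.hz 10 1063, 2755), (.hz 5 661, 1233), (.hz 14 663, 7528), (.hz 18 351, 850), (.hz 20 511, 4878)]))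
(.haz 4 47 9 25
(.haz 5 159 1 10
(.cut 5 [(0, 1), (1, 1), (2, 1), (3, 1), (5, 1), (7, 1), (11, 1), (21, 1), (15, 1), (23, 1), (75, 1), (149, 1), (31, 1), (79, 1), (151, 1), (331, 1), (661, 1), (95, 1), (159, 1), (223, 1)]
(.lp [[5], [1, 3, 6, 8], [0, 2, 4, 7, 9]] [(.mj 0 1, 113230), (.mj 3 4, 37428), (.mj 4 6, 1710), (.mj 7 8, 4230), (.mj 8 5, 5500), (.hz 19 15, 165712), (.hz 21 47, 4161120), (.hz 5 661, 581643), (.hz 22 159, 18105231), (.hz 14 663, 6401851), (.hz 22 223, 12191189), (.hz 22 671, 12242799), (.hz 22 735, 5170561), (.rw 8, 4)]))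
(.lp [[5], [1, 3, 6, 8], [0, 2, 4, 7, 9]] [(.mj 0 1, 982), (.mj 3 4, 314), (.mj 4 6, 36), (.mj 7 8, 6), (.hz 22 15, 29326), (.hz 21 47, 25552), (.hz 5 661, 3544), (.hz 15 63, 15953), (.hz 14 663, 20971), (.hz 18 351, 15467)]))
(.lp [[5], [1, 3, 6, 8], [0, 2, 4, 7, 9]] [(.mj 0 1, 86), (.mj 3 4, 11), (.mj 4 6, 6), (.mj 7 8, 1), (.hz 21 5, 999), (.hz 21 15, 2657), (.hz 19 15, 3031), (.hz 21 39, 407), (.hz 11 47, 1139), (.hz 14 183, 1627), (.hz 14 663, 1627)])))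
(.cut 5 [(0, 1), (1, 1), (2, 1), (3, 1), (5, 1), (7, 1), (11, 1), (21, 1), (15, 1), (23, 1), (75, 1), (149, 1), (31, 1), (151, 1), (331, 1), (661, 1), (159, 1)]
(.cut 5 [(0, 1), (1, 1), (2, 1), (3, 1), (5, 1), (7, 1), (11, 1), (21, 1), (15, 1), (23, 1), (75, 1), (149, 1), (31, 1), (79, 1), (151, 1), (331, 1), (661, 1), (95, 1), (159, 1)]
(.lp [[5], [1, 3, 6, 8], [0, 2, 4, 7, 9]] [(.mj 0 1, 238761), (.mj 3 4, 52724), (.mj 8 5, 3740), (.hz 19 15, 126779), (.hz 10 39, 5167676), (.hz 20 149, 1674920), (.hz 11 47, 2628439), (.hz 20 151, 448063), (.hz 20 159, 640284), (.hz 20 223, 764493), (.hz 11 367, 722010), (.hz 14 695, 4953047), (.hz 16 703, 5711990), (.rw 8, 2), (.rw 9, 2)]))))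
(.cut 5 [(0, 1), (1, 1), (2, 1), (3, 1), (5, 1), (7, 1), (11, 1), (21, 1), (15, 1), (23, 1), (75, 1), (149, 1), (31, 1), (79, 1), (151, 1), (331, 1), (661, 1), (95, 1), (159, 1), (223, 1)]
(.lp [[5], [1, 3, 6, 8], [0, 2, 4, 7, 9]] [(.mj 0 1, 129386), (.mj 3 4, 54754), (.mj 4 6, 8118), (.mj 9 5, 1086), (.mj 9 8, 3074), (.rw 6, 4), (.hz 19 15, 2139328), (.hz 10 39, 6161248), (.hz 5 661, 489128), (.hz 11 335, 77507), (.hz 18 351, 1717939), (.rw 8, 5)]))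
.fin))
(.cut 5 [(0, 1), (1, 1), (2, 1), (3, 1), (5, 1), (7, 1), (11, 1), (21, 1), (15, 1), (23, 1), (75, 1), (149, 1), (31, 1), (79, 1), (331, 1), (95, 1)]
(.lp [[5], [0, 2, 4, 7], [1, 3, 6, 8]] [(.mj 0 1, 474190), (.mj 3 4, 114574), (.mj 7 5, 1663), (.hz 19 7, 311906), (.hz 19 15, 1993906), (.hz 10 39, 11431825), (.hz 11 47, 1624686), (.hz 19 79, 649874), (.hz 18 351, 1153605), (.rw 7, 1)]))))
(.lp [[5], [0, 2, 4, 7], [1, 3, 6, 8]] [(.mj 0 1, 409), (.mj 3 4, 116), (.mj 4 6, 6), (.hz 18 7, 356), (.hz 18 15, 2755), (.hz 10 39, 11966), (.hz 5 149, 1608), (.hz 11 47, 973)]))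
(.haz 5 79 7 50
(.lp [[5], [0, 2, 4, 7], [1, 3, 6, 8]] [(.mj 3 4, 3), (.mj 4 6, 5), (.mj 8 5, 4), (.mj 8 7, 2), (.hz 10 39, 406), (.hz 11 47, 1251), (.hz 18 79, 1039), (.hz 15 63, 1780), (.hz 18 95, 584), (.hz 17 159, 1334), (.hz 18 335, 193), (.hz 18 223, 2978)])
(.ask 39
(.mark 127 [7, 8, 9]
(.lp [[5, 9], [0, 2, 4, 7], [1, 3, 6, 8]] [(.mj 0 1, 16), (.mj 3 4, 6), (.mj 4 6, 8), (.mj 8 7, 4), (.hz 18 7, 324), (.hz 10 39, 1235), (.hz 5 149, 48), (.hz 16 63, 4798), (.hz 15 63, 398), (.hz 17 159, 849), (.hz 16 575, 4049), (.hz 15 575, 2665)]))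
(.cut 5 [(0, 1), (1, 1), (2, 1), (3, 1), (5, 1), (7, 1), (11, 1), (21, 1), (15, 1), (23, 1), (75, 1), (149, 1), (31, 1), (79, 1), (331, 1), (95, 1)]
(.lp [[5], [0, 2, 4, 7], [1, 3, 6, 8]] [(.mj 0 1, 17382), (.mj 3 4, 5527), (.mj 4 6, 3932), (.mj 8 7, 1629), (.hz 18 15, 385665), (.hz 5 149, 108344), (.hz 16 63, 2121264), (.hz 15 63, 338702), (.hz 17 159, 349774), (.hz 15 127, 719894), (.rw 7, 1)]))))
.fin))
(.ref 0))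
(.lp [[5], [1, 3, 6], [0, 2, 4, 7]] [(.mj 3 4, 432), (.mj 6 7, 62), (.rw 5, 1), (.hz 17 31, 424654)]))
(.lp [[5], [1, 3, 6], [0, 2, 4, 7]] [(.mj 3 4, 1300), (.rw 5, 2), (.hz 16 11, 14861), (.hz 16 15, 43522), (.hz 10 39, 84467), (.hz 16 31, 2135534)]))
(.cut 5 [(0, 1), (1, 1), (2, 1), (3, 1), (5, 1), (7, 1), (11, 1), (21, 1), (15, 1), (23, 1), (75, 1), (149, 1), (31, 1)]
(.lp [[5], [1, 3, 6], [0, 2, 4, 7]] [(.mj 0 1, 332655), (.mj 3 4, 24154), (.mj 6 5, 10663), (.hz 15 21, 1607128), (.hz 15 23, 1352450), (.hz 7 39, 902990), (.hz 15 31, 1291329), (.rw 6, 4)])))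
(.lp [[5], [1, 3, 6], [0, 2, 4, 7]] [(.mj 3 4, 14842), (.rw 4, 13), (.rw 5, 6), (.hz 14 3, 405765), (.hz 14 7, 879157), (.hz 14 23, 29964602), (.hz 7 39, 338137), (.hz 11 47, 5635622), (.hz 13 151, 1127124)]))
(.lp [[5], [1, 3, 6], [0, 2, 4, 7]] [(.mj 3 4, 2), (.mj 6 5, 1), (.hz 13 3, 42), (.hz 13 7, 85), (.hz 13 23, 9), (.hz 7 39, 86), (.hz 10 39, 210), (.hz 11 47, 500)]))
(.lp [[5], [1, 3, 6], [0, 2, 4, 7]] [(.mj 3 4, 1), (.mj 6 5, 1), (.hz 12 3, 51), (.hz 12 23, 24), (.hz 7 39, 13), (.hz 10 39, 125)]))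
(.lp [[5], [1, 3, 6], [0, 2, 4, 7]] [(.mj 0 1, 24106), (.mj 6 5, 1091), (.rw 4, 4), (.hz 11 5, 709724), (.hz 11 7, 281052), (.hz 11 15, 2483078), (.hz 10 39, 109146), (.hz 10 47, 245579)]))
(.lp [[5], [1, 3, 6], [0, 2, 4, 7]] [(.mj 0 1, 49), (.mj 6 5, 4), (.hz 10 5, 431), (.hz 10 7, 1039), (.hz 7 39, 218), (.hz 8 39, 701), (.hz 5 149, 147), (.hz 8 47, 916)]))

theorem run109 : run P3488 (leaf3 218 625) (cutRow P3488) [s108] t109 s109 = true := by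
  decide +kernel

theorem bad109 : Bad P3488 s109 :=
  run_sound (leaf3_sound P3488 rfl rfl) (cutRow_sound P3488) (
    List.forall_mem_cons.2 ⟨bad108, fun _ h => absurd h List.not_mem_nil⟩) t109 s109 run109

/-- the state above piece 155 of the tree -/
def s155 : St := ⟨[0, 0, 1, 3, 5, 15, 15, 47, 23, 319], [319, 287, 279, 63, 31, 21, 15, 11, 7, 5, 3, 2, 1, 0], [0, 1, 2, 3, 4, 5, 8, 7],
  [(4, 5)],
  [⟨true, 2, 3, 3, 10⟩, ⟨true, 1, 5, 2, 5⟩, ⟨true, 2, 3, 23, 50⟩, ⟨true, 1, 5, 12, 25⟩, ⟨true, 1, 21, 27, 50⟩, ⟨true, 4, 15, 9, 40⟩, ⟨true, 3, 23, 11, 20⟩, ⟨true, 1, 21, 29, 50⟩, ⟨true, 8, 95, 7, 40⟩, ⟨true, 4, 79, 13, 40⟩, ⟨true, 8, 95, 1, 4⟩, ⟨true, 6, 191, 1, 20⟩],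
  [.spn 0 0 651200, .spn 1 1 302400, .spn 3 2 302400, .spn 7 3 302400, .spn 15 4 140426, .spn 31 5 140426, .spn 63 8 140426, .spn 319 7 140426]⟩

/-- piece 155 of the tree -/
noncomputable def t155 : WN.Tree :=
(.ask 175
(.mark 447 [6, 9, 10]
(.spn
(.haz 9 447 17 50
(.lp [[6], [0, 2, 4, 8, 9], [1, 3, 5, 7, 10]] [(.mj 0 1, 200), (.mj 5 8, 5), (.mj 6 9, 6), (.mj 7 6, 4), (.hz 12 447, 1677), (.hz 12 511, 1444), (.hz 12 1471, 5287)])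
(.lp [[6], [0, 2, 4, 8, 9], [1, 3, 5, 7, 10]] [(.mj 0 1, 69602), (.mj 5 8, 1550), (.mj 7 6, 72), (.rw 8, 1), (.hz 12 319, 447778), (.hz 12 447, 383373)]))
(.haz 6 319 3 50
(.ask 831
(.mark 959 [6, 10, 11]
(.spn
(.haz 10 1023 6 25
(.lp [[6], [1, 3, 5, 7, 10], [0, 2, 4, 8, 9, 11]] [(.mj 6 10, 17), (.mj 9 6, 314), (.rw 9, 1), (.hz 12 2879, 350452), (.hz 13 1023, 2977334), (.hz 12 3007, 5120), (.hz 13 3071, 42669)])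
(.lp [[6], [1, 3, 5, 7, 10], [0, 2, 4, 8, 9, 11]] [(.mj 0 1, 6719), (.mj 7 9, 2637), (.mj 9 6, 1288), (.rw 9, 2), (.hz 13 175, 138212), (.hz 13 191, 612027), (.hz 13 447, 1860956), (.hz 11 1215, 1699424), (.hz 13 959, 1428391), (.hz 12 1471, 1127249), (.hz 12 2879, 4314512)]))
(.maj 6 11
(.cut 6 [(0, 1), (1, 1), (2, 1), (3, 1), (5, 1), (7, 1), (11, 1), (21, 1), (15, 1), (23, 1), (31, 1), (47, 1), (279, 1), (63, 1), (175, 1), (287, 1), (191, 1), (319, 1), (447, 1), (831, 1), (959, 1)]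
(.lp [[6], [1, 3, 5, 7, 10], [0, 2, 4, 8, 9, 11]] [(.mj 0 1, 9545), (.mj 7 9, 154), (.mj 9 10, 106), (.mj 10 6, 237), (.hz 12 2879, 467649), (.hz 12 3007, 1411730), (.rw 10, 1)]))
(.cut 6 [(0, 1), (1, 1), (2, 1), (3, 1), (5, 1), (7, 1), (11, 1), (21, 1), (15, 1), (23, 1), (31, 1), (47, 1), (279, 1), (63, 1), (175, 1), (287, 1), (191, 1), (319, 1), (447, 1), (831, 1), (2879, 1)]
(.cut 6 [(0, 1), (1, 1), (2, 1), (3, 1), (5, 1), (7, 1), (11, 1), (21, 1), (15, 1), (23, 1), (31, 1), (47, 1), (279, 1), (63, 1), (175, 1), (287, 1), (191, 1), (319, 1), (447, 1), (831, 1), (959, 1)]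
(.lp [[6], [1, 3, 5, 7, 10], [0, 2, 4, 8, 9, 11]] [(.mj 0 1, 406242), (.mj 7 9, 16241), (.mj 9 10, 3427), (.mj 10 11, 2300), (.mj 11 6, 40123), (.hz 12 1471, 9908475), (.hz 12 1983, 61768973), (.rw 10, 3), (.rw 11, 139)]))))
(.cut 6 [(0, 1), (1, 1), (2, 1), (3, 1), (5, 1), (7, 1), (11, 1), (21, 1), (15, 1), (23, 1), (31, 1), (47, 1), (279, 1), (63, 1), (175, 1), (287, 1), (191, 1), (319, 1), (1199, 1), (447, 1), (831, 1), (1215, 1), (959, 1), (1471, 2), (1983, 1)]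
(.cut 6 [(0, 1), (1, 1), (2, 1), (3, 1), (5, 1), (7, 1), (11, 1), (21, 1), (15, 1), (23, 1), (31, 1), (47, 1), (279, 1), (63, 1), (175, 1), (287, 1), (191, 1), (319, 1), (447, 1)]
(.cut 6 [(0, 1), (1, 1), (2, 1), (3, 1), (5, 1), (7, 1), (11, 1), (21, 1), (15, 1), (23, 1), (31, 1), (47, 1), (279, 1), (63, 1), (175, 1), (287, 1), (191, 1), (319, 1), (447, 1), (831, 1), (959, 1)]
(.cut 10 [(0, 1), (1, 1), (2, 1), (3, 1), (5, 1), (7, 1), (11, 1), (21, 1), (15, 1), (23, 1), (31, 1), (47, 1), (79, 1), (279, 1), (63, 1), (95, 1), (111, 1), (175, 1), (287, 1), (127, 1), (191, 1), (239, 1), (319, 1), (351, 1), (255, 1), (383, 1), (447, 1), (831, 1), (511, 1), (895, 1), (959, 1), (2879, 1), (2943, 1)]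
(.lp [[6], [1, 3, 5, 7, 10], [0, 2, 4, 8, 9, 11]] [(.mj 0 1, 558786), (.mj 7 9, 103173), (.mj 11 6, 80240), (.mj 11 10, 44670), (.hz 9 1263, 4987299), (.hz 12 1471, 21351840), (.rw 10, 5), (.rw 11, 234), (.rw 12, 36), (.rw 13, 13)])))))
.fin))
(.ask 959
(.mark 959 [6, 10, 11]
(.spn
(.haz 11 1983 17 50
(.lp [[6], [1, 3, 5, 7, 10], [0, 2, 4, 8, 9, 11]] [(.mj 0 1, 50356), (.mj 6 10, 442), (.mj 6 11, 1771), (.mj 9 6, 2231), (.rw 9, 1), (.hz 12 1471, 8616815), (.hz 13 1983, 3569356)])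
(.lp [[6], [1, 3, 5, 7, 10], [0, 2, 4, 8, 9, 11]] [(.mj 6 10, 9), (.mj 9 6, 10), (.hz 13 959, 9361)]))
(.cut 6 [(0, 1), (1, 1), (2, 1), (3, 1), (5, 1), (7, 1), (11, 1), (21, 1), (15, 1), (23, 1), (31, 1), (47, 1), (279, 1), (63, 1), (175, 1), (287, 1), (191, 1), (319, 1), (447, 1), (831, 1), (959, 1)]
(.lp [[6], [1, 3, 5, 7, 10], [0, 2, 4, 8, 9, 11]] [(.mj 8 7, 7472), (.mj 10 6, 2537), (.mj 10 11, 592), (.rw 9, 1), (.rw 10, 11)]))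
(.maj 6 10
(.cut 6 [(0, 1), (1, 1), (2, 1), (3, 1), (5, 1), (7, 1), (11, 1), (21, 1), (15, 1), (23, 1), (31, 1), (47, 1), (279, 1), (63, 1), (175, 1), (287, 1), (191, 1), (319, 1), (447, 1)]
(.lp [[6], [1, 3, 5, 7, 10], [0, 2, 4, 8, 9, 11]] [(.mj 3 4, 96), (.mj 7 9, 452), (.mj 11 6, 1177), (.hz 5 1199, 70816), (.hz 11 1215, 5014101), (.hz 10 1279, 25294123), (.hz 12 1471, 1633892), (.rw 10, 4)]))
(.cut 6 [(0, 1), (1, 1), (2, 1), (3, 1), (5, 1), (7, 1), (11, 1), (21, 1), (15, 1), (23, 1), (31, 1), (47, 1), (279, 1), (63, 1), (175, 1), (287, 1), (191, 1), (319, 1), (1199, 1), (447, 1), (831, 1), (1215, 2), (1471, 1)]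
(.cut 10 [(0, 1), (1, 1), (2, 1), (3, 1), (5, 1), (7, 1), (11, 1), (21, 1), (15, 1), (23, 1), (31, 1), (47, 1), (279, 1), (63, 1), (175, 1), (287, 1), (191, 1), (319, 1), (447, 1), (831, 1), (959, 1)]
(.cut 6 [(0, 1), (1, 1), (2, 1), (3, 1), (5, 1), (7, 1), (11, 1), (21, 1), (15, 1), (23, 1), (31, 1), (47, 1), (279, 1), (63, 1), (175, 1), (287, 1), (191, 1), (319, 1), (447, 1), (831, 1), (959, 1)]
(.cut 6 [(0, 1), (1, 1), (2, 1), (3, 1), (5, 1), (7, 1), (11, 1), (21, 1), (15, 1), (23, 1), (31, 1), (47, 1), (279, 1), (63, 1), (175, 1), (191, 1), (1199, 1), (1215, 1)]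
(.lp [[6], [1, 3, 5, 7, 10], [0, 2, 4, 8, 9, 11]] [(.mj 0 1, 10827483), (.mj 10 6, 462573), (.mj 11 6, 631816), (.hz 9 1263, 15618037), (.hz 12 1983, 752418747), (.rw 10, 99), (.rw 11, 126), (.rw 12, 4045), (.rw 13, 220)]))))))
.fin))
(.lp [[6], [0, 2, 4, 8, 9], [1, 3, 5, 7, 10]] [(.mj 0 1, 57), (.mj 9 6, 3), (.mj 9 10, 2), (.hz 12 447, 1669), (.hz 12 1471, 19537)])))
(.cut 6 [(0, 1), (1, 1), (2, 1), (3, 1), (5, 1), (7, 1), (11, 1), (21, 1), (15, 1), (23, 1), (31, 1), (47, 1), (279, 1), (63, 1), (175, 1), (287, 1), (191, 1), (319, 1), (447, 1)]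
(.lp [[6], [0, 2, 4, 8, 9], [1, 3, 5, 7, 10]] [(.mj 0 1, 46), (.mj 8 7, 1), (.hz 12 47, 102429), (.hz 12 63, 178575), (.hz 12 319, 250728), (.rw 9, 1)])))
(.cut 6 [(0, 1), (1, 1), (2, 1), (3, 1), (5, 1), (7, 1), (11, 1), (21, 1), (15, 1), (23, 1), (31, 1), (47, 1), (279, 1), (63, 1), (175, 1), (287, 1), (191, 1), (319, 1), (447, 1)]
(.lp [[6], [0, 2, 4, 8, 9], [1, 3, 5, 7, 10]] [(.mj 8 7, 613), (.mj 10 6, 376), (.mj 10 9, 376), (.rw 9, 1)]))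
.fin))
(.ref 0))

theorem run155 : run P3488 (leaf3 218 625) (cutRow P3488) [s154] t155 s155 = true := by
  decide +kernel

theorem bad155 : Bad P3488 s155 :=
  run_sound (leaf3_sound P3488 rfl rfl) (cutRow_sound P3488) (
    List.forall_mem_cons.2 ⟨bad154, fun _ h => absurd h List.not_mem_nil⟩) t155 s155 run155

end Pool.Agent.WN.Data
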