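import Pool.Agent.WN.CutRow
import Pool.Agent.WN.LeafRow
import Pool.Agent.Helper99.WN.ParDef
import Pool.Agent.WN.Data.D3
import Pool.Agent.WN.Data.D6
import Pool.Agent.WN.Data.D18
import Pool.Agent.WN.Data.D21
import Pool.Agent.WN.Data.D27
import Pool.Agent.WN.Data.D32
import Pool.Agent.WN.Data.D34
import Pool.Agent.WN.Data.D36
import Pool.Agent.WN.Data.D37
import Pool.Agent.WN.Data.D38
import Pool.Agent.WN.Data.D39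

/-!
# The search tree, part 41
-/

set_option autoImplicit false

namespace Pool.Agent.WN.Data

open Pool.Agent.W3 Pool.Agent.WN Pool.Agent.Helper99.WN

/-- the state above piece 123 of the tree -/
def s123 : St := ⟨[0, 0, 1, 3, 5, 7, 15], [21, 15, 11, 7, 5, 3, 2, 1, 0], [0, 1, 2, 3, 4],
  [],
  [⟨true, 2, 3, 3, 10⟩, ⟨true, 1, 5, 2, 5⟩, ⟨true, 2, 3, 23, 50⟩, ⟨true, 1, 5, 12, 25⟩, ⟨true, 4, 39, 4, 25⟩, ⟨true, 4, 39, 9, 50⟩, ⟨true, 4, 15, 4, 25⟩, ⟨true, 4, 15, 9, 50⟩, ⟨true, 1, 21, 29, 50⟩],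
  [.spn 0 0 651200, .spn 1 1 302400, .spn 3 2 302400, .spn 7 3 140426, .spn 15 4 140426]⟩

/-- piece 123 of the tree -/
noncomputable def t123 : WN.Tree :=
(.haz 3 39 6 25
(.haz 3 39 3 10
(.haz 4 39 6 25
(.haz 3 39 17 50
(.haz 3 39 19 50
(.haz 3 39 2 5
(.haz 3 23 2 5
(.haz 4 79 6 25
(.ask 23
(.ref 0)
(.ask 31
(.mark 31 [5, 6, 7]
(.spn
(.haz 6 47 2 25
(.haz 5 159 3 50
(.haz 5 159 1 10
(.ask 39
(.mark 63 [6, 7, 8]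
(.spn
(.haz 4 39 13 50
(.haz 5 159 7 50
(.haz 7 319 9 50
(.haz 6 47 9 50
(.haz 7 319 6 25
(.haz 5 159 9 50
(.haz 6 47 1 5
(.ask 159
(.haz 6 159 13 50
(.mark 159 [5, 6, 9]
(.lp [[5, 8], [1, 3, 6], [0, 2, 4, 7, 9]] [(.mj 3 4, 11), (.mj 4 5, 73), (.mj 5 6, 59), (.mj 6 7, 27), (.hz 16 79, 203), (.hz 14 295, 14130), (.hz 27 159, 5362), (.hz 26 303, 85747), (.hz 24 319, 30167), (.hz 27 671, 6672)]))
(.haz 6 191 1 2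
(.mark 159 [5, 6, 9]
(.lp [[5, 8], [1, 3, 6], [0, 2, 4, 7, 9]] [(.mj 3 4, 21), (.mj 4 5, 71), (.mj 6 7, 94), (.hz 27 15, 5514), (.hz 27 31, 29181), (.hz 26 303, 35113), (.hz 14 311, 4869), (.hz 28 191, 767517), (.hz 24 319, 149012), (.hz 25 671, 26109), (.hz 28 703, 229593)]))
(.lp [[5, 8], [1, 3, 6], [0, 2, 4, 7, 9]] [(.mj 3 4, 22), (.mj 4 5, 31), (.mj 6 7, 28), (.hz 27 15, 2405), (.hz 27 31, 3653), (.hz 28 63, 94164), (.hz 25 159, 3003), (.hz 26 303, 15312), (.hz 24 319, 31127)])))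
(.lp [[5, 8], [1, 3, 6], [0, 2, 4, 7]] [(.mj 0 1, 210), (.mj 3 4, 32), (.mj 4 5, 381), (.mj 5 6, 285), (.mj 6 7, 149), (.hz 14 295, 142579), (.hz 26 303, 456402), (.hz 26 191, 167873), (.hz 24 319, 167873)]))
(.lp [[5, 8], [1, 3, 6], [0, 2, 4, 7]] [(.mj 3 4, 2), (.mj 4 5, 4), (.mj 6 7, 4), (.hz 26 15, 8554), (.hz 23 47, 25), (.hz 25 159, 455), (.hz 23 303, 569), (.hz 24 319, 3838)]))
(.lp [[5, 8], [1, 3, 6], [0, 2, 4, 7]] [(.mj 3 4, 2), (.mj 5 6, 7), (.mj 6 7, 5), (.hz 25 7, 245), (.hz 25 15, 461), (.hz 25 23, 34), (.hz 25 31, 915), (.hz 21 159, 1721), (.hz 23 191, 830)]))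
(.lp [[5, 8], [1, 3, 6], [0, 2, 4, 7]] [(.mj 3 4, 4), (.mj 4 5, 10), (.mj 5 6, 8), (.hz 24 31, 1861), (.hz 24 63, 1346), (.hz 23 303, 1366), (.hz 23 191, 930), (.hz 22 319, 17)]))
(.lp [[5, 8], [1, 3, 6], [0, 2, 4, 7]] [(.mj 3 4, 4), (.mj 4 5, 3), (.mj 6 7, 2), (.hz 23 15, 574), (.hz 20 39, 226), (.hz 21 159, 263), (.hz 17 303, 748), (.hz 22 319, 1194)]))
(.lp [[5, 8], [1, 3, 6], [0, 2, 4, 7]] [(.mj 3 4, 3), (.mj 4 5, 9), (.mj 5 6, 7), (.mj 6 8, 1), (.hz 22 31, 778), (.hz 22 63, 747)]))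
(.lp [[5, 8], [1, 3, 6], [0, 2, 4, 7]] [(.mj 5 6, 4), (.mj 6 7, 3), (.hz 21 7, 108), (.hz 21 15, 365), (.hz 21 23, 162), (.hz 21 31, 109), (.hz 19 159, 3619)]))
(.lp [[5, 8], [1, 3, 6], [0, 2, 4, 7]] [(.mj 0 1, 1164), (.mj 4 5, 61), (.hz 20 7, 9209), (.hz 14 39, 40195), (.hz 20 39, 350), (.hz 11 295, 564), (.hz 17 303, 7047)]))
(.haz 4 39 13 50
(.haz 6 159 3 25
(.haz 5 95 1 5
(.haz 4 303 17 50
(.haz 5 159 1 5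
(.ask 79
(.haz 6 31 1 5
(.mark 79 [4, 5, 9]
(.lp [[5, 8], [0, 2, 4, 7], [1, 3, 6, 9]] [(.mj 3 4, 51), (.mj 4 5, 23), (.mj 5 7, 15), (.mj 7 6, 41), (.hz 25 31, 18484), (.hz 20 295, 3280), (.hz 25 63, 156908), (.hz 25 159, 28545), (.hz 23 303, 4644), (.hz 17 303, 17377), (.hz 16 591, 2371), (.hz 25 319, 232198), (.hz 22 607, 44559)]))
(.mark 127 [7, 8, 9]
(.lp [[5, 8], [0, 2, 4, 7], [1, 3, 6, 9]] [(.mj 3 4, 58), (.mj 4 5, 19), (.mj 5 7, 7), (.hz 25 15, 27380), (.hz 20 295, 6768), (.hz 24 159, 6417), (.hz 21 159, 1171), (.hz 23 303, 642), (.hz 22 607, 15146), (.hz 23 367, 54)])))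
(.lp [[5, 8], [1, 3, 6], [0, 2, 4, 7]] [(.mj 3 4, 48), (.mj 4 5, 18), (.mj 5 7, 7), (.mj 7 6, 12), (.hz 20 295, 4856), (.hz 22 95, 36568), (.hz 24 159, 1309), (.hz 21 159, 2402), (.hz 23 303, 660), (.hz 17 303, 3232), (.hz 17 319, 13222)]))
(.lp [[5, 8], [1, 3, 6], [0, 2, 4, 7]] [(.mj 0 1, 11), (.mj 5 7, 8), (.mj 7 6, 6), (.hz 24 7, 4145), (.hz 24 23, 1515), (.hz 24 31, 14345), (.hz 22 95, 20942), (.hz 21 159, 2810), (.hz 17 303, 2302)]))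
(.lp [[5, 8], [1, 3, 6], [0, 2, 4, 7]] [(.mj 0 1, 26), (.mj 4 5, 1), (.hz 23 15, 150), (.hz 14 39, 1596), (.hz 23 47, 147), (.hz 23 295, 10)]))
(.lp [[5, 8], [1, 3, 6], [0, 2, 4, 7]] [(.mj 3 4, 186), (.mj 5 7, 303), (.mj 7 6, 359), (.hz 22 7, 196349), (.hz 22 31, 426245), (.hz 20 295, 18550), (.hz 21 159, 105923), (.hz 20 303, 11668), (.hz 17 303, 134889), (.hz 21 191, 224649), (.hz 17 319, 628671)]))
(.lp [[5, 8], [1, 3, 6], [0, 2, 4, 7]] [(.mj 3 4, 6), (.mj 4 5, 2), (.mj 5 7, 1), (.hz 21 15, 491), (.hz 20 39, 79), (.hz 21 31, 249), (.hz 20 295, 628)]))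
(.lp [[5, 8], [1, 3, 6], [0, 2, 4, 7]] [(.mj 0 1, 96), (.mj 4 5, 5), (.hz 20 7, 761), (.hz 14 39, 3344), (.hz 17 47, 619)]))
(.haz 6 159 9 50
(.lp [[5, 8], [1, 3, 6], [0, 2, 4, 7]] [(.mj 4 5, 24), (.mj 8 6, 19), (.mj 8 7, 10), (.hz 14 39, 42248), (.hz 17 47, 2974), (.hz 20 159, 5486), (.hz 20 191, 314), (.hz 17 319, 5153), (.hz 19 223, 81714)])
(.lp [[5, 8], [1, 3, 6], [0, 2, 4, 7]] [(.mj 3 4, 2), (.mj 4 5, 3), (.mj 8 7, 2), (.hz 20 15, 193), (.hz 20 31, 250), (.hz 19 159, 1956)]))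
.fin))
(.ref 1))
(.lp [[5], [1, 3, 6], [0, 2, 4, 7]] [(.mj 5 6, 2), (.mj 5 7, 2), (.hz 19 7, 771), (.hz 19 15, 347), (.hz 19 31, 1246)]))
(.lp [[5], [1, 3, 6], [0, 2, 4, 7]] [(.mj 5 6, 1), (.mj 5 7, 1), (.hz 18 7, 167)]))
(.cut 6 [(0, 1), (1, 1), (2, 1), (3, 1), (5, 1), (7, 1), (11, 1), (21, 1), (15, 1), (23, 1), (39, 1), (31, 1), (55, 1)]
(.lp [[5], [1, 3, 6], [0, 2, 4, 7]] [(.mj 3 4, 15174), (.mj 4 5, 8945), (.mj 5 7, 3497), (.hz 17 15, 2143092), (.hz 11 39, 1158857), (.rw 6, 2)])))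
(.ref 2)
(.ask 159
(.mark 159 [5, 6, 8]
(.spn
(.lp [[5], [1, 3, 6], [0, 2, 4, 7, 8]] [(.mj 3 4, 5510), (.mj 7 5, 739), (.rw 5, 1), (.rw 6, 4), (.hz 16 79, 384804)])
(.haz 5 31 3 25
(.lp [[5], [1, 3, 6], [0, 2, 4, 7, 8]] [(.mj 3 4, 1636), (.mj 6 5, 1291), (.mj 7 6, 1291), (.rw 6, 1), (.hz 17 31, 511195), (.hz 17 95, 1429139), (.hz 17 159, 255597), (.hz 17 415, 290452)])
(.cut 5 [(0, 1), (1, 1), (2, 1), (3, 1), (5, 1), (7, 1), (11, 1), (21, 1), (15, 1), (23, 1), (31, 1), (159, 1)]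
(.lp [[5], [1, 3, 6], [0, 2, 4, 7, 8]] [(.mj 3 4, 61239), (.mj 6 5, 6454), (.mj 6 8, 21452), (.mj 7 6, 50702), (.rw 6, 5), (.hz 17 7, 3067666), (.hz 17 15, 5531094), (.hz 11 111, 2077082), (.rw 7, 53)])))
(.ask 415
(.mark 415 [5, 6, 9]
(.spn
(.lp [[5], [1, 3, 6], [0, 2, 4, 7, 8, 9]] [(.mj 8 5, 274), (.rw 7, 1)])
(.lp [[5], [1, 3, 6], [0, 2, 4, 7, 8, 9]] [(.mj 8 6, 6773), (.rw 7, 11)])
(.maj 5 6
(.cut 5 [(0, 1), (1, 1), (2, 1), (3, 1), (5, 1), (7, 1), (11, 1), (21, 1), (15, 1), (23, 1), (31, 1)]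
(.cut 5 [(0, 1), (1, 1), (2, 1), (3, 1), (5, 1), (7, 1), (11, 1), (21, 1), (15, 1), (23, 1), (31, 1), (159, 1)]
(.cut 6 [(0, 1), (1, 1), (2, 1), (3, 1), (5, 1), (7, 1), (11, 1), (21, 1), (15, 1), (23, 1), (39, 1), (31, 1), (55, 1)]
(.lp [[5], [1, 3, 6], [0, 2, 4, 7, 8, 9]] [(.mj 3 4, 4989), (.mj 9 5, 1226), (.rw 7, 1), (.hz 14 39, 929135), (.hz 16 79, 348426), (.hz 11 111, 651685), (.rw 8, 6), (.rw 9, 2), (.rw 10, 1)]))))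
(.cut 5 [(0, 1), (1, 1), (2, 1), (3, 1), (5, 1), (7, 1), (11, 1), (21, 1), (15, 1), (23, 1), (31, 1)]
(.cut 6 [(0, 1), (1, 1), (2, 1), (3, 1), (5, 1), (7, 1), (11, 1), (21, 1), (15, 1), (23, 1), (31, 1)]
(.cut 6 [(0, 1), (1, 1), (2, 1), (3, 1), (5, 1), (7, 1), (11, 1), (21, 1), (15, 1), (23, 1), (31, 1), (159, 1)]
(.lp [[5], [1, 3, 6], [0, 2, 4, 7, 8, 9]] [(.mj 3 4, 118733), (.mj 9 6, 22547), (.rw 7, 19), (.hz 11 39, 18789346), (.hz 11 111, 18601452), (.rw 8, 45), (.rw 9, 66), (.rw 10, 33)])))))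
.fin))
(.lp [[5], [1, 3, 6], [0, 2, 4, 7, 8]] [(.mj 8 6, 1), (.rw 6, 1)]))
.fin))
(.lp [[5], [1, 3, 6], [0, 2, 4, 7]] [(.mj 7 6, 1), (.rw 5, 1)]))
.fin))
(.spn
(.haz 6 63 6 25
(.lp [[5], [0, 2, 4], [1, 3, 6]] [(.mj 0 1, 138), (.mj 3 4, 21), (.mj 4 5, 42), (.mj 5 6, 23), (.hz 17 63, 8441)])
(.lp [[5], [0, 2, 4], [1, 3, 6]] [(.mj 3 4, 1), (.mj 4 5, 1), (.hz 17 15, 127), (.hz 17 31, 125)]))
(.haz 5 31 1 5
(.lp [[5], [0, 2, 4], [1, 3, 6]] [(.mj 0 1, 18), (.mj 6 5, 2), (.hz 17 31, 3173), (.hz 17 95, 1713)])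
(.cut 5 [(0, 1), (1, 1), (2, 1), (3, 1), (5, 1), (7, 1), (11, 1), (21, 1), (15, 1), (23, 1), (31, 1)]
(.lp [[5], [0, 2, 4], [1, 3, 6]] [(.mj 0 1, 45363), (.mj 6 5, 270), (.hz 17 23, 2677667), (.hz 14 39, 472529), (.rw 6, 1)])))
.fin
.fin)))
(.lp [[5], [0, 2, 4], [1, 3, 6]] [(.mj 0 1, 9821), (.rw 4, 2), (.hz 16 7, 75779), (.hz 16 15, 391527)]))
(.lp [[5], [0, 2, 4], [1, 3, 6]] [(.mj 3 4, 89), (.mj 4 5, 49), (.hz 15 7, 50667), (.hz 14 39, 30481), (.hz 11 39, 6688)]))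
(.lp [[5], [0, 2, 4], [1, 3, 6]] [(.mj 3 4, 52), (.mj 4 5, 29), (.hz 14 7, 29494), (.hz 13 39, 1811), (.hz 11 39, 3893)]))
(.lp [[5], [0, 2, 4], [1, 3, 6]] [(.mj 3 4, 22), (.mj 4 5, 13), (.hz 13 7, 1249), (.hz 12 39, 790), (.hz 11 39, 1641)]))
(.lp [[5], [0, 2, 4], [1, 3, 6]] [(.mj 3 4, 3), (.mj 4 5, 2), (.hz 12 7, 171), (.hz 10 39, 551), (.hz 11 39, 223)]))
(.lp [[5], [0, 2, 4], [1, 3, 6]] [(.mj 0 1, 137), (.mj 4 5, 8), (.hz 11 7, 2164), (.hz 10 39, 2484)]))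
(.lp [[5], [0, 2, 4], [1, 3, 6]] [(.mj 3 4, 5), (.mj 4 5, 3), (.hz 10 7, 1474), (.hz 9 39, 424), (.hz 5 39, 190)]))
(.lp [[5], [0, 2, 4], [1, 3, 6]] [(.mj 3 4, 2), (.mj 3 5, 2), (.hz 9 7, 248), (.hz 5 39, 156)]))

theorem run123 : run P3488 (leaf3 218 625) (cutRow P3488) [s122, s118, s121] t123 s123 = true := by
  decide +kernel

theorem bad123 : Bad P3488 s123 :=
  run_sound (leaf3_sound P3488 rfl rfl) (cutRow_sound P3488) (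
    List.forall_mem_cons.2 ⟨bad122, List.forall_mem_cons.2 ⟨bad118, List.forall_mem_cons.2 ⟨bad121, fun _ h => absurd h List.not_mem_nil⟩⟩⟩) t123 s123 run123

/-- the state above piece 249 of the tree -/
def s249 : St := ⟨[0, 0, 1, 3, 5, 15, 31, 31, 63], [95, 63, 47, 31, 23, 21, 15, 11, 7, 5, 3, 2, 1, 0], [0, 1, 2, 3, 4, 5, 6],
  [(4, 5)],
  [⟨true, 2, 3, 3, 10⟩, ⟨true, 1, 5, 2, 5⟩, ⟨true, 2, 3, 23, 50⟩, ⟨true, 1, 5, 12, 25⟩, ⟨true, 1, 21, 27, 50⟩, ⟨true, 4, 15, 9, 40⟩, ⟨true, 3, 23, 11, 20⟩, ⟨true, 4, 47, 7, 20⟩, ⟨true, 4, 47, 17, 40⟩, ⟨true, 4, 47, 9, 20⟩, ⟨true, 4, 47, 19, 40⟩, ⟨true, 5, 31, 3, 10⟩, ⟨true, 4, 47, 3, 5⟩, ⟨true, 4, 47, 5, 8⟩, ⟨true, 6, 159, 1, 10⟩, ⟨true, 6, 319, 1, 8⟩, ⟨true, 6, 319, 1, 5⟩],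
  [.spn 0 0 651200, .spn 1 1 302400, .spn 3 2 302400, .spn 7 3 302400, .spn 15 4 302400, .spn 31 5 140426, .spn 63 6 140426]⟩

/-- piece 249 of the tree -/
noncomputable def t249 : WN.Tree :=
(.ask 127
(.mark 127 [7, 8, 9]
(.spn
(.haz 8 639 3 40
(.haz 8 639 1 8
(.haz 7 639 7 50
(.haz 7 319 7 50
(.haz 6 319 8 25
(.haz 8 127 6 25
(.haz 7 319 1 5
(.maj 8 9
(.ask 639
(.ask 319
(.mark 895 [7, 10, 11]
(.lp [[7], [1, 3, 5, 8, 11], [0, 2, 4, 6, 9, 10]] [(.mj 3 4, 206), (.mj 6 7, 13), (.mj 7 8, 21), (.mj 8 9, 2), (.hz 22 127, 4904), (.hz 23 319, 17667), (.hz 22 255, 69), (.hz 22 639, 9195), (.hz 21 2367, 69), (.hz 23 2367, 22221), (.hz 22 1663, 12008)]))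
(.mark 639 [7, 8, 10]
(.lp [[7], [1, 3, 5, 8], [0, 2, 4, 6, 9, 10]] [(.mj 3 4, 226), (.mj 6 7, 12), (.mj 7 8, 17), (.mj 7 9, 3), (.mj 8 9, 1), (.hz 23 319, 7104), (.hz 22 639, 9877), (.hz 22 1663, 9934)])))
(.lp [[7], [1, 3, 5, 8], [0, 2, 4, 6, 9]] [(.mj 3 4, 98), (.mj 6 7, 19), (.mj 7 8, 12), (.mj 8 9, 3), (.hz 23 319, 53341), (.hz 22 639, 2259)]))
(.lp [[7], [1, 3, 5, 8], [0, 2, 4, 6, 9]] [(.mj 3 4, 64), (.mj 6 7, 7), (.mj 7 9, 5), (.mj 9 8, 7), (.hz 22 127, 162), (.hz 23 319, 32817), (.hz 22 255, 11482), (.hz 22 639, 4601)]))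
(.lp [[7], [1, 3, 5, 8], [0, 2, 4, 6, 9]] [(.mj 3 4, 3219), (.mj 7 8, 418), (.mj 7 9, 16), (.hz 23 63, 555914), (.hz 22 127, 170093), (.hz 22 639, 255137)]))
(.haz 9 383 19 50
(.haz 7 319 1 5
(.ask 319
(.haz 9 383 11 25
(.mark 383 [7, 9, 10]
(.lp [[7], [0, 2, 4, 6, 9], [1, 3, 5, 8, 10]] [(.mj 3 4, 1898), (.mj 6 7, 103), (.mj 7 9, 121), (.hz 22 63, 54384), (.hz 22 127, 43835), (.hz 25 383, 104006), (.hz 21 1343, 59928), (.hz 24 1343, 219921), (.hz 25 1407, 154394)]))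
(.mark 319 [6, 7, 10]
(.lp [[7], [0, 2, 4, 6, 9], [1, 3, 5, 8, 10]] [(.mj 3 4, 35), (.mj 6 7, 1), (.hz 22 63, 1044), (.hz 22 127, 1588), (.hz 25 127, 1530), (.hz 24 319, 1158), (.hz 24 1343, 1448)])))
(.maj 8 9
(.lp [[7], [1, 3, 5, 8], [0, 2, 4, 6, 9]] [(.mj 3 4, 93), (.mj 6 7, 7), (.mj 8 9, 6), (.hz 22 127, 8438), (.hz 19 639, 4756)])
(.lp [[7], [1, 3, 5, 8], [0, 2, 4, 6, 9]] [(.mj 3 4, 113), (.mj 6 7, 6), (.mj 7 9, 7), (.mj 9 8, 3), (.hz 22 127, 2458), (.hz 24 383, 21077), (.hz 23 383, 2952)])))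
(.lp [[7], [1, 3, 5, 8], [0, 2, 4, 6, 9]] [(.mj 3 4, 121), (.mj 7 9, 7), (.hz 24 63, 18306), (.hz 22 63, 5680), (.hz 22 127, 1570), (.hz 23 383, 3248)]))
(.lp [[7], [1, 3, 5, 8], [0, 2, 4, 6, 9]] [(.mj 3 4, 28), (.mj 6 7, 1), (.hz 22 63, 943), (.hz 22 127, 1219), (.hz 23 127, 610), (.hz 20 319, 141)])))
(.lp [[7], [1, 3, 5, 8], [0, 2, 4, 6, 9]] [(.mj 3 4, 33), (.mj 6 7, 22), (.mj 7 8, 17), (.hz 21 63, 10155), (.hz 16 319, 42805), (.hz 20 319, 4447), (.hz 18 639, 30575)]))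
(.lp [[7], [1, 3, 5, 8], [0, 2, 4, 6, 9]] [(.mj 7 8, 14), (.mj 7 9, 10), (.hz 20 31, 4408), (.hz 20 63, 2449), (.hz 19 639, 351), (.hz 18 639, 54542), (.hz 18 767, 17553)]))
(.lp [[7], [1, 3, 5, 8], [0, 2, 4, 6, 9]] [(.mj 3 4, 10), (.mj 7 8, 5), (.mj 7 9, 4), (.hz 19 31, 294), (.hz 19 63, 828), (.hz 19 95, 342), (.hz 19 127, 1359), (.hz 18 639, 18445)]))
(.lp [[7], [1, 3, 5, 8], [0, 2, 4, 6, 9]] [(.mj 3 4, 18), (.mj 6 7, 1), (.mj 7 9, 1), (.hz 18 63, 2432), (.hz 18 127, 2021), (.hz 17 639, 580)]))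
(.lp [[7], [1, 3, 5, 8], [0, 2, 4, 6, 9]] [(.mj 3 4, 18), (.mj 6 7, 1), (.mj 7 9, 1), (.hz 17 63, 485), (.hz 17 127, 389)]))
(.ref 0)
(.ask 639
(.mark 639 [7, 8, 10]
(.spn
(.lp [[7], [1, 3, 5, 8], [0, 2, 4, 6, 9, 10]] [(.mj 9 7, 1083), (.rw 8, 2)])
(.maj 7 10
(.cut 7 [(0, 1), (1, 1), (2, 1), (3, 1), (5, 1), (7, 1), (11, 1), (21, 1), (15, 1), (23, 1), (31, 1), (47, 1), (63, 1), (95, 1), (127, 1), (639, 1)]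
(.lp [[7], [1, 3, 5, 8], [0, 2, 4, 6, 9, 10]] [(.mj 9 8, 2127), (.rw 8, 2), (.rw 9, 3)]))
(.ask 1663
(.mark 1663 [7, 8, 11]
(.cut 7 [(0, 1), (1, 1), (2, 1), (3, 1), (5, 1), (7, 1), (11, 1), (21, 1), (15, 1), (23, 1), (31, 1), (47, 1), (63, 1), (95, 1), (127, 1), (319, 1), (383, 1), (639, 1)]
(.cut 7 [(0, 1), (1, 1), (2, 1), (3, 1), (5, 1), (7, 1), (11, 1), (21, 1), (15, 1), (23, 1), (31, 1), (47, 1), (63, 1), (95, 1), (127, 1), (639, 1), (1663, 1)]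
(.lp [[7], [1, 3, 5, 8], [0, 2, 4, 6, 9, 10, 11]] [(.mj 8 7, 1434), (.mj 8 10, 6410), (.mj 9 8, 10395), (.mj 10 7, 4976), (.rw 9, 1), (.rw 10, 16)]))))
(.cut 7 [(0, 1), (1, 1), (2, 1), (3, 1), (5, 1), (7, 1), (11, 1), (21, 1), (15, 1), (23, 1), (31, 1), (47, 1), (63, 1), (95, 1), (127, 1), (319, 1), (639, 1), (1663, 1)]
(.cut 7 [(0, 1), (1, 1), (2, 1), (3, 1), (5, 1), (7, 1), (11, 1), (21, 1), (15, 1), (23, 1), (31, 1), (47, 1), (63, 1), (95, 1), (127, 1), (319, 2), (383, 1), (639, 1), (1663, 1)]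
(.lp [[7], [1, 3, 5, 8], [0, 2, 4, 6, 9, 10]] [(.mj 8 7, 2758), (.mj 9 8, 6188), (.rw 9, 2), (.rw 10, 2)])))))
(.ask 1663
(.mark 1663 [7, 8, 11]
(.spn
(.lp [[7], [1, 3, 5, 8], [0, 2, 4, 6, 9, 10, 11]] [(.mj 10 7, 249), (.rw 9, 1)])
(.lp [[7], [1, 3, 5, 8], [0, 2, 4, 6, 9, 10, 11]] [(.mj 10 8, 8751), (.rw 9, 14)])
(.haz 8 639 3 50
(.maj 7 8
(.cut 7 [(0, 1), (1, 1), (2, 1), (3, 1), (5, 1), (7, 1), (11, 1), (21, 1), (15, 1), (23, 1), (31, 1), (47, 1), (63, 1), (95, 1), (127, 1), (639, 1)]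
(.lp [[7], [1, 3, 5, 8], [0, 2, 4, 6, 9, 10, 11]] [(.mj 11 7, 278), (.hz 17 767, 1052373), (.hz 17 1791, 288092), (.rw 10, 1)]))
(.haz 6 191 31 50
(.cut 7 [(0, 1), (1, 1), (2, 1), (3, 1), (5, 1), (7, 1), (11, 1), (21, 1), (15, 1), (23, 1), (31, 1), (47, 1), (63, 1), (95, 1), (127, 1)]
(.cut 7 [(0, 1), (1, 1), (2, 1), (3, 1), (5, 1), (7, 1), (11, 1), (21, 1), (15, 1), (23, 1), (31, 1), (47, 1), (63, 1), (95, 1), (127, 1), (319, 2), (383, 1), (639, 1), (895, 1)]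
(.cut 8 [(0, 1), (1, 1), (2, 1), (3, 1), (5, 1), (7, 1), (11, 1), (21, 1), (15, 1), (23, 1), (31, 1), (47, 1), (63, 1), (95, 1), (127, 1), (639, 1), (1663, 1)]
(.cut 7 [(0, 1), (1, 1), (2, 1), (3, 1), (5, 1), (7, 1), (11, 1), (21, 1), (15, 1), (23, 1), (31, 1), (47, 1), (63, 1), (95, 1), (127, 1), (319, 2), (383, 2), (639, 1), (895, 1)]
(.lp [[7], [1, 3, 5, 8], [0, 2, 4, 6, 9, 10, 11]] [(.mj 3 4, 2397660), (.mj 5 6, 1463426), (.mj 11 8, 380581), (.rw 9, 213), (.hz 18 191, 107422041), (.hz 18 447, 425792492), (.hz 17 767, 894355466), (.hz 17 1791, 730749621), (.rw 10, 988), (.rw 11, 280), (.rw 12, 1353), (.rw 13, 65)])))))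
(.cut 7 [(0, 1), (1, 1), (2, 1), (3, 1), (5, 1), (7, 1), (11, 1), (21, 1), (15, 1), (23, 1), (31, 1), (47, 1), (63, 1), (95, 1), (127, 1)]
(.cut 8 [(0, 1), (1, 1), (2, 1), (3, 1), (5, 1), (7, 1), (11, 1), (21, 1), (15, 1), (23, 1), (31, 1), (47, 1), (63, 1), (95, 1), (127, 1), (639, 1)]
(.lp [[7], [1, 3, 5, 8], [0, 2, 4, 6, 9, 10, 11]] [(.mj 11 7, 2544), (.mj 11 8, 5647), (.rw 9, 3), (.hz 18 63, 2238302), (.hz 16 447, 65863139), (.rw 10, 12), (.rw 11, 20)])))))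
(.cut 7 [(0, 1), (1, 1), (2, 1), (3, 1), (5, 1), (7, 1), (11, 1), (21, 1), (15, 1), (23, 1), (31, 1), (47, 1), (63, 1), (95, 1), (127, 1)]
(.cut 8 [(0, 1), (1, 1), (2, 1), (3, 1), (5, 1), (7, 1), (11, 1), (21, 1), (15, 1), (23, 1), (31, 1), (47, 1), (63, 1), (95, 1), (159, 1), (127, 1), (223, 1)]
(.cut 7 [(0, 1), (1, 1), (2, 1), (3, 1), (5, 1), (7, 1), (11, 1), (21, 1), (15, 1), (23, 1), (31, 1), (47, 1), (63, 1), (95, 1), (127, 1), (319, 1), (383, 1), (639, 1)]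
(.lp [[7], [1, 3, 5, 8], [0, 2, 4, 6, 9, 10, 11]] [(.mj 3 4, 41835), (.hz 17 63, 1223193), (.rw 10, 1), (.rw 11, 1), (.rw 12, 1)])))))
.fin))
(.lp [[7], [1, 3, 5, 8], [0, 2, 4, 6, 9, 10]] [(.mj 10 8, 1), (.rw 8, 1)]))
.fin))
(.lp [[7], [1, 3, 5, 8], [0, 2, 4, 6, 9]] [(.mj 9 8, 1), (.rw 7, 1)]))
.fin))
(.spn
(.cut 8 [(0, 1), (1, 1), (2, 1), (3, 1), (5, 1), (7, 1), (11, 1), (21, 1), (15, 1), (23, 1), (31, 1), (47, 1), (63, 1), (95, 1), (159, 1), (127, 1), (223, 1)]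
(.lp [[7], [0, 2, 4, 6], [1, 3, 5, 8]] [(.mj 3 4, 191035), (.mj 6 7, 37978), (.mj 7 8, 33111), (.hz 16 319, 25676715), (.rw 8, 8)]))
(.haz 5 159 2 5
(.haz 5 159 23 50
(.haz 5 223 3 5
(.haz 7 383 7 50
(.haz 7 95 4 25
(.haz 5 159 1 2
(.haz 7 127 9 50
(.haz 7 127 1 5
(.lp [[7], [0, 2, 4, 6], [1, 3, 5, 8]] [(.mj 0 1, 665), (.mj 6 8, 1), (.mj 8 7, 17), (.hz 24 127, 69282), (.hz 24 383, 29692)])
(.lp [[7], [0, 2, 4, 6], [1, 3, 5, 8]] [(.mj 0 1, 27113), (.mj 8 7, 211), (.hz 24 95, 397162), (.hz 22 159, 1588648), (.hz 23 127, 29061), (.hz 23 383, 26688)]))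
(.lp [[7], [0, 2, 4, 6], [1, 3, 5, 8]] [(.mj 0 1, 13663), (.mj 8 7, 106), (.hz 23 95, 19526), (.hz 22 159, 800556), (.hz 21 127, 29754), (.hz 21 383, 26923)]))
(.lp [[7], [0, 2, 4, 6], [1, 3, 5, 8]] [(.mj 8 7, 1), (.hz 22 31, 7423), (.hz 18 159, 207), (.hz 19 223, 1590), (.hz 21 383, 218)]))
(.lp [[7], [0, 2, 4, 6], [1, 3, 5, 8]] [(.mj 0 1, 23), (.hz 21 31, 96), (.hz 21 95, 131), (.hz 20 383, 51)]))
(.lp [[7], [0, 2, 4, 6], [1, 3, 5, 8]] [(.mj 0 1, 12), (.hz 20 31, 17), (.hz 20 95, 28), (.hz 18 159, 15), (.hz 20 127, 15)]))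
(.lp [[7], [0, 2, 4, 6], [1, 3, 5, 8]] [(.mj 8 7, 590), (.rw 7, 1), (.hz 19 95, 8533542), (.hz 18 159, 313875), (.hz 18 223, 510834)]))
(.lp [[7], [0, 2, 4, 6], [1, 3, 5, 8]] [(.mj 3 4, 4), (.hz 18 31, 88)]))
(.lp [[7], [0, 2, 4, 6], [1, 3, 5, 8]] [(.mj 3 4, 1), (.hz 17 31, 209)]))
.fin
.fin))

theorem run249 : run P3488 (leaf3 218 625) (cutRow P3488) [s248] t249 s249 = true := by
  decide +kernel

theorem bad249 : Bad P3488 s249 :=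
  run_sound (leaf3_sound P3488 rfl rfl) (cutRow_sound P3488) (
    List.forall_mem_cons.2 ⟨bad248, fun _ h => absurd h List.not_mem_nil⟩) t249 s249 run249

/-- the state above piece 189 of the tree -/
def s189 : St := ⟨[0, 0, 1, 3, 5, 15, 21, 47, 47], [95, 87, 85, 63, 31, 23, 21, 15, 11, 7, 5, 3, 2, 1, 0], [0, 1, 2, 3, 4, 5, 6],
  [(5, 6), (4, 5)],
  [⟨true, 2, 3, 3, 10⟩, ⟨true, 1, 5, 2, 5⟩, ⟨true, 2, 3, 23, 50⟩, ⟨true, 1, 5, 12, 25⟩, ⟨true, 1, 21, 27, 50⟩, ⟨true, 4, 15, 9, 40⟩, ⟨true, 3, 23, 11, 20⟩, ⟨true, 4, 47, 7, 20⟩, ⟨true, 4, 47, 17, 40⟩, ⟨true, 4, 47, 9, 20⟩, ⟨true, 4, 47, 19, 40⟩, ⟨true, 3, 87, 27, 40⟩, ⟨true, 5, 95, 1, 4⟩, ⟨true, 7, 383, 1, 20⟩, ⟨true, 6, 191, 11, 40⟩, ⟨true, 8, 255, 3, 40⟩, ⟨true, 7, 303, 3, 40⟩],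
  [.spn 0 0 651200, .spn 1 1 302400, .spn 3 2 302400, .spn 7 3 302400, .spn 15 4 302400, .spn 31 5 302400, .spn 63 6 140426]⟩

/-- piece 189 of the tree -/
noncomputable def t189 : WN.Tree :=
(.haz 6 319 7 20
(.ask 127
(.mark 127 [7, 8, 9]
(.spn
(.ask 175
(.mark 255 [8, 9, 10]
(.spn
(.haz 9 255 7 20
(.lp [[8], [0, 2, 4, 6, 9], [1, 3, 5, 7, 10]] [(.mj 4 5, 13), (.mj 7 8, 4), (.mj 8 9, 6), (.hz 18 255, 4092), (.hz 18 511, 3597), (.hz 18 1279, 12443)])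
(.haz 8 255 1 4
(.lp [[8], [0, 2, 4, 6, 9], [1, 3, 5, 7, 10]] [(.mj 4 5, 6), (.mj 7 8, 1), (.hz 18 127, 1929), (.hz 19 255, 1949), (.hz 18 255, 1920), (.hz 19 767, 4709), (.hz 19 1279, 25730)])
(.lp [[8], [0, 2, 4, 6, 9], [1, 3, 5, 7, 10]] [(.mj 4 5, 122889), (.rw 8, 7), (.hz 19 127, 112640501), (.hz 18 127, 35892092), (.hz 18 255, 34658616), (.hz 15 1279, 57882662)])))
(.haz 7 319 7 40
(.haz 6 319 17 40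
(.haz 6 319 23 50
(.haz 9 383 13 50
(.haz 9 1279 8 25
(.ask 639
(.ref 0)
(.haz 7 319 1 4
(.ask 767
(.mark 767 [8, 10, 11]
(.spn
(.haz 10 2815 3 50
(.haz 10 2815 7 50
(.ask 2815
(.haz 10 767 6 25
(.mark 2815 [8, 10, 12]
(.lp [[8], [1, 3, 5, 7, 10], [0, 2, 4, 6, 9, 11, 12]] [(.mj 7 9, 2), (.mj 8 10, 10), (.mj 8 11, 3), (.mj 9 8, 12), (.hz 26 767, 1832), (.hz 26 1023, 47759), (.hz 26 2815, 25179), (.hz 26 6911, 18088)]))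
(.haz 11 1791 12 25
(.ask 1199
(.mark 3839 [8, 12, 13]
(.lp [[8], [1, 3, 5, 7, 10, 13], [0, 2, 4, 6, 9, 11, 12]] [(.mj 6 7, 1), (.mj 8 11, 5), (.mj 9 8, 8), (.hz 26 175, 685), (.hz 26 191, 3319), (.hz 15 1279, 9233), (.hz 15 9471, 34038), (.hz 22 9471, 1581), (.hz 25 3071, 1583), (.hz 27 9983, 34425), (.hz 25 6911, 1583)]))
(.ask 1215
(.mark 3839 [8, 12, 13]
(.lp [[8], [1, 3, 5, 7, 10, 13], [0, 2, 4, 6, 9, 11, 12]] [(.mj 3 4, 7), (.mj 6 7, 2), (.mj 8 11, 4), (.mj 9 8, 7), (.hz 26 191, 3976), (.hz 15 1279, 8139), (.hz 15 9471, 27095), (.hz 22 9471, 1211), (.hz 25 3071, 1393), (.hz 27 9983, 29043), (.hz 25 6911, 1393)]))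
(.ask 1279
(.mark 3839 [8, 12, 13]
(.lp [[8], [1, 3, 5, 7, 10, 13], [0, 2, 4, 6, 9, 11, 12]] [(.mj 3 4, 16), (.mj 8 11, 8), (.mj 9 8, 13), (.hz 26 255, 12296), (.hz 15 1279, 10256), (.hz 15 9471, 27183), (.hz 22 9471, 3797), (.hz 25 3071, 3717), (.hz 27 9983, 50196), (.hz 25 6911, 3717)]))
(.lp [[8], [1, 3, 5, 7, 10], [0, 2, 4, 6, 9, 11, 12]] [(.mj 3 4, 23), (.mj 8 11, 8), (.mj 9 8, 12), (.hz 10 303, 520), (.hz 10 431, 520), (.hz 10 1455, 520), (.hz 26 767, 14581), (.hz 15 1279, 12854), (.hz 27 1791, 29067)]))))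
(.lp [[8], [1, 3, 5, 7, 10], [0, 2, 4, 6, 9, 11, 12]] [(.mj 3 4, 25), (.mj 6 7, 19), (.mj 9 8, 24), (.hz 26 175, 779), (.hz 26 767, 55484), (.hz 27 767, 58183), (.hz 15 1279, 93070)])))
(.lp [[8], [1, 3, 5, 7, 10], [0, 2, 4, 6, 9, 11]] [(.mj 8 10, 2), (.mj 9 8, 3), (.hz 25 3071, 7182)]))
(.lp [[8], [1, 3, 5, 7, 10], [0, 2, 4, 6, 9, 11]] [(.mj 3 4, 72), (.mj 8 11, 35), (.mj 9 8, 58), (.hz 25 175, 4193), (.hz 25 191, 12428), (.hz 10 431, 1545), (.hz 25 255, 15111), (.hz 25 767, 36647), (.hz 15 1279, 131987), (.hz 24 2815, 63878)]))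
(.lp [[8], [1, 3, 5, 7, 10], [0, 2, 4, 6, 9, 11]] [(.mj 3 4, 14), (.mj 8 11, 5), (.mj 9 8, 8), (.hz 24 175, 645), (.hz 10 303, 293), (.hz 24 191, 1733), (.hz 10 431, 395), (.hz 24 255, 2987), (.hz 24 767, 4321)]))
(.maj 8 11
(.cut 8 [(0, 1), (1, 1), (2, 1), (3, 1), (5, 1), (7, 1), (11, 1), (21, 1), (15, 1), (23, 1), (85, 1), (31, 1), (47, 1), (87, 1), (63, 1), (95, 1), (175, 1), (127, 1), (191, 1), (255, 1), (639, 1), (767, 1)]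
(.lp [[8], [1, 3, 5, 7, 10], [0, 2, 4, 6, 9, 11]] [(.mj 6 7, 1821), (.mj 10 8, 773), (.mj 10 11, 75), (.hz 15 2815, 3697887), (.rw 10, 2)]))
(.cut 8 [(0, 1), (1, 1), (2, 1), (3, 1), (5, 1), (7, 1), (11, 1), (21, 1), (15, 1), (23, 1), (85, 1), (31, 1), (47, 1), (87, 1), (63, 1), (95, 1), (175, 1), (127, 1), (191, 1), (1199, 2), (255, 1), (639, 1), (1215, 1), (1279, 1)]
(.cut 8 [(0, 1), (1, 1), (2, 1), (3, 1), (5, 1), (7, 1), (11, 1), (21, 1), (15, 1), (23, 1), (85, 1), (31, 1), (47, 1), (87, 1), (63, 1), (95, 1), (175, 1), (127, 1), (191, 1), (255, 1), (639, 1), (767, 1)]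
(.lp [[8], [1, 3, 5, 7, 10], [0, 2, 4, 6, 9, 11]] [(.mj 6 7, 13850), (.mj 10 11, 2872), (.mj 11 8, 6381), (.hz 15 1279, 15197647), (.rw 10, 1), (.rw 11, 16)]))))
(.ask 2815
(.mark 2815 [8, 10, 12]
(.spn
(.lp [[8], [1, 3, 5, 7, 10], [0, 2, 4, 6, 9, 11, 12]] [(.mj 11 8, 230), (.rw 10, 1)])
(.lp [[8], [1, 3, 5, 7, 10], [0, 2, 4, 6, 9, 11, 12]] [(.mj 3 4, 19054), (.mj 6 7, 1251), (.mj 11 10, 1251), (.rw 9, 2), (.rw 10, 5), (.hz 10 303, 836121), (.hz 20 319, 1317016), (.hz 10 431, 424555), (.hz 10 1199, 424555), (.hz 15 255, 1837176), (.hz 15 767, 5545640), (.hz 15 1279, 7206348), (.hz 15 1791, 15535635)])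
(.ask 303
(.mark 511 [9, 10, 13]
(.cut 8 [(0, 1), (1, 1), (2, 1), (3, 1), (5, 1), (7, 1), (11, 1), (21, 1), (15, 1), (23, 1), (85, 1), (31, 1), (47, 1), (87, 1), (63, 1), (95, 1), (175, 1), (127, 1), (191, 1), (255, 1), (639, 1), (767, 1)]
(.lp [[8, 13], [1, 3, 5, 7, 10], [0, 2, 4, 6, 9, 11, 12]] [(.mj 3 4, 7662), (.mj 6 7, 2652), (.mj 12 8, 944), (.hz 20 319, 270830), (.hz 10 1199, 178410), (.hz 10 8495, 459307), (.hz 14 1215, 78422), (.hz 20 8511, 185846), (.hz 23 8511, 21875755), (.hz 10 1455, 442593), (.hz 23 8575, 15812140), (.hz 21 8575, 108945), (.hz 20 1471, 132580), (.rw 11, 2)])))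
(.cut 8 [(0, 1), (1, 1), (2, 1), (3, 1), (5, 1), (7, 1), (11, 1), (21, 1), (15, 1), (23, 1), (85, 1), (31, 1), (47, 1), (87, 1), (63, 1), (95, 1), (175, 1), (127, 1), (191, 1), (255, 1), (639, 1)]
(.cut 8 [(0, 1), (1, 1), (2, 1), (3, 1), (5, 1), (7, 1), (11, 1), (21, 1), (15, 1), (23, 1), (85, 1), (31, 1), (47, 1), (87, 1), (63, 1), (95, 1), (175, 1), (127, 1), (191, 1), (255, 1), (639, 1), (767, 1)]
(.lp [[8], [1, 3, 5, 7, 10], [0, 2, 4, 6, 9, 11, 12]] [(.mj 3 4, 4194179), (.mj 6 7, 1482321), (.mj 12 8, 588218), (.hz 20 319, 162741560), (.hz 23 319, 3374064061), (.hz 10 1199, 96746375), (.hz 14 1215, 33590563), (.hz 10 1455, 203798458), (.hz 15 767, 271037943), (.hz 20 1471, 279836862), (.hz 22 1535, 1044086884), (.rw 11, 774), (.rw 12, 368)]))))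
.fin))
(.lp [[8], [1, 3, 5, 7, 10], [0, 2, 4, 6, 9, 11]] [(.mj 11 10, 1), (.rw 9, 1)]))
.fin))
(.spn
(.lp [[8], [0, 2, 4, 6, 9], [1, 3, 5, 7, 10]] [(.mj 8 10, 2), (.mj 9 8, 3)])
(.lp [[8], [0, 2, 4, 6, 9], [1, 3, 5, 7, 10]] [(.mj 9 10, 3), (.mj 10 8, 2), (.hz 15 1279, 11598)])
.fin
.fin))
(.lp [[8], [0, 2, 4, 6, 9], [1, 3, 5, 7, 10]] [(.mj 3 4, 19), (.mj 7 9, 1), (.mj 9 8, 6), (.hz 23 63, 40828), (.hz 10 303, 555), (.hz 20 319, 1118), (.hz 18 319, 2703), (.hz 10 431, 555), (.hz 10 1199, 1519), (.hz 15 255, 5033)])))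
(.lp [[8], [0, 2, 4, 6, 9], [1, 3, 5, 7, 10]] [(.mj 6 7, 1), (.mj 9 8, 4), (.mj 9 10, 3), (.hz 22 127, 3015), (.hz 22 255, 6079), (.hz 15 1279, 17037)]))
(.lp [[8], [0, 2, 4, 6, 9], [1, 3, 5, 7, 10]] [(.mj 9 8, 17), (.mj 9 10, 11), (.hz 21 127, 18223), (.hz 18 383, 4468), (.hz 15 767, 12426), (.hz 15 1279, 67513)]))
(.lp [[8], [0, 2, 4, 6, 9], [1, 3, 5, 7, 10]] [(.mj 4 5, 39), (.mj 9 8, 1), (.hz 20 63, 5514), (.hz 19 319, 1050), (.hz 18 319, 3045), (.hz 15 255, 76), (.hz 15 767, 612)]))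
(.lp [[8], [0, 2, 4, 6, 9], [1, 3, 5, 7, 10]] [(.mj 4 5, 18), (.mj 9 8, 1), (.hz 19 63, 3315), (.hz 17 319, 1066), (.hz 18 319, 1437)]))
(.lp [[8], [0, 2, 4, 6, 9], [1, 3, 5, 7, 10]] [(.mj 3 4, 1651), (.mj 7 9, 191), (.mj 9 8, 380), (.rw 4, 1), (.hz 18 63, 217354), (.hz 17 319, 165569), (.hz 16 319, 175237), (.hz 10 1199, 62473), (.hz 15 255, 278942)]))
(.haz 9 255 1 4
(.cut 8 [(0, 1), (1, 1), (2, 1), (3, 1), (5, 1), (7, 1), (11, 1), (21, 1), (15, 1), (23, 1), (85, 1), (31, 1), (47, 1), (87, 1), (63, 1), (95, 1), (127, 1)]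
(.lp [[8], [0, 2, 4, 6, 9], [1, 3, 5, 7, 10]] [(.mj 4 5, 5222), (.mj 10 8, 774), (.mj 10 9, 1508), (.hz 18 255, 7249099), (.hz 18 511, 41898174), (.hz 15 767, 61610), (.hz 15 1279, 1040350), (.rw 9, 2)]))
(.lp [[8], [0, 2, 4, 6, 9], [1, 3, 5, 7, 10]] [(.mj 4 5, 6), (.mj 10 8, 1), (.hz 18 127, 8381), (.hz 15 255, 1540), (.hz 18 255, 7004), (.hz 15 1279, 3036)]))
.fin))
(.ref 1))
(.con 8 7)
(.haz 7 127 1 5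
(.lp [[8], [1, 3, 5, 7], [0, 2, 4, 6, 9]] [(.mj 3 4, 20389), (.mj 9 7, 1547), (.rw 4, 10), (.rw 7, 2), (.hz 10 303, 235434), (.hz 16 303, 120898), (.hz 18 127, 15929205), (.hz 17 319, 3082817), (.hz 16 319, 459414), (.hz 18 383, 9091557)])
(.lp [[8], [1, 3, 5, 7], [0, 2, 4, 6, 9]] [(.mj 3 4, 90532), (.mj 9 8, 9724), (.rw 4, 55), (.hz 18 47, 6533350), (.hz 18 63, 32160795), (.hz 16 303, 759692), (.hz 17 319, 9579714), (.hz 16 319, 2886829), (.hz 16 383, 7141103)]))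
.fin))
(.spn
(.haz 7 383 21 40
(.lp [[8], [0, 2, 4, 6], [1, 3, 5, 7]] [(.mj 4 5, 3), (.mj 6 7, 1), (.hz 15 255, 387), (.hz 18 383, 792)])
(.lp [[8], [0, 2, 4, 6], [1, 3, 5, 7]] [(.mj 7 8, 926), (.rw 7, 1), (.hz 18 127, 1295094)]))
(.con 8 7)
.fin
.fin))
(.lp [[8], [0, 2, 4, 6], [1, 3, 5, 7]] [(.mj 4 5, 2), (.hz 17 63, 509)]))

theorem run189 : run P3488 (leaf3 218 625) (cutRow P3488) [s185, s188] t189 s189 = true := by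
  decide +kernel

theorem bad189 : Bad P3488 s189 :=
  run_sound (leaf3_sound P3488 rfl rfl) (cutRow_sound P3488) (
    List.forall_mem_cons.2 ⟨bad185, List.forall_mem_cons.2 ⟨bad188, fun _ h => absurd h List.not_mem_nil⟩⟩) t189 s189 run189

/-- the state above piece 158 of the tree -/
def s158 : St := ⟨[0, 0, 1, 3, 5, 15, 15, 47, 23], [21, 15, 11, 7, 5, 3, 2, 1, 0], [0, 1, 2, 3, 4],
  [(4, 5)],
  [⟨true, 2, 3, 3, 10⟩, ⟨true, 1, 5, 2, 5⟩, ⟨true, 2, 3, 23, 50⟩, ⟨true, 1, 5, 12, 25⟩, ⟨true, 1, 21, 27, 50⟩, ⟨true, 4, 15, 9, 40⟩, ⟨true, 3, 23, 11, 20⟩, ⟨true, 1, 21, 29, 50⟩],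
  [.spn 0 0 651200, .spn 1 1 302400, .spn 3 2 302400, .spn 7 3 302400, .spn 15 4 140426]⟩

/-- piece 158 of the tree -/
noncomputable def t158 : WN.Tree :=
(.mark 31 [5, 6, 8]
(.spn
(.mark 63 [6, 7, 8]
(.spn
(.haz 8 63 7 40
(.haz 8 63 9 40
(.lp [[6], [0, 2, 4, 8], [1, 3, 5, 7]] [(.mj 0 1, 2379), (.mj 5 6, 114), (.mj 6 8, 254), (.hz 6 279, 24915), (.hz 9 63, 40990), (.hz 5 175, 2388), (.hz 9 127, 24452), (.hz 9 191, 75417)])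
(.lp [[6], [0, 2, 4, 8], [1, 3, 5, 7]] [(.mj 0 1, 87), (.mj 5 6, 1), (.hz 9 23, 736), (.hz 9 31, 550), (.hz 9 63, 310)]))
(.lp [[6], [0, 2, 4, 8], [1, 3, 5, 7]] [(.mj 0 1, 56), (.mj 5 6, 1), (.hz 8 23, 459), (.hz 8 31, 334), (.hz 8 63, 183)]))
(.haz 8 95 7 40
(.haz 5 287 11 40
(.ask 279
(.mark 319 [6, 7, 9]
(.cut 6 [(0, 1), (1, 1), (2, 1), (3, 1), (5, 1), (7, 1), (11, 1), (21, 1), (15, 1), (23, 1), (31, 1), (47, 1), (279, 1), (63, 1), (287, 1), (791, 1), (319, 1)]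
(.cut 8 [(0, 1), (1, 1), (2, 1), (3, 1), (5, 1), (7, 1), (11, 1), (21, 1), (15, 1), (23, 1), (31, 1), (47, 1), (79, 1), (63, 1), (95, 2), (111, 1), (175, 1), (127, 1)]
(.lp [[6], [1, 3, 5, 7], [0, 2, 4, 8, 9]] [(.mj 0 1, 786010), (.mj 7 8, 48295), (.hz 6 279, 14962794), (.hz 8 95, 11080975), (.hz 9 287, 6073461), (.hz 9 351, 26767873), (.hz 9 799, 969585), (.hz 9 863, 1197529), (.rw 7, 13), (.rw 8, 2)]))))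
(.lp [[6], [0, 2, 4, 8], [1, 3, 5, 7]] [(.mj 0 1, 19), (.mj 7 8, 1), (.hz 8 95, 273), (.hz 9 287, 162), (.hz 9 351, 232)]))
(.lp [[6], [0, 2, 4, 8], [1, 3, 5, 7]] [(.mj 0 1, 17), (.mj 7 6, 3), (.mj 7 8, 5), (.hz 9 15, 244), (.hz 9 31, 747), (.hz 8 95, 1759)]))
(.lp [[6], [0, 2, 4, 8], [1, 3, 5, 7]] [(.mj 0 1, 71), (.mj 7 6, 1), (.mj 7 8, 1), (.hz 8 23, 526), (.hz 8 31, 288)]))
(.haz 8 95 7 40
(.haz 4 79 13 40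
(.ask 279
(.ref 0)
(.haz 8 95 1 4
(.ask 287
(.ref 1)
(.haz 6 191 1 20
(.ask 319
(.mark 319 [6, 7, 9]
(.spn
(.haz 7 831 1 8
(.haz 6 191 1 10
(.haz 7 831 4 25
(.haz 8 191 21 50
(.haz 7 831 9 50
(.haz 8 191 12 25
(.ask 831
(.haz 7 319 11 50
(.maj 7 9
(.mark 831 [6, 7, 10]
(.ask 1855
(.mark 1855 [6, 7, 11]
(.lp [[6], [1, 3, 5, 7], [0, 2, 4, 8, 9, 10, 11]] [(.mj 0 1, 165), (.mj 5 8, 52), (.mj 6 7, 51), (.mj 7 9, 8), (.mj 8 6, 58), (.hz 17 191, 5157), (.hz 18 319, 2723), (.hz 18 383, 19128), (.hz 18 831, 10430), (.hz 18 895, 3772), (.hz 18 1855, 13372), (.hz 18 3903, 17143)]))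
(.lp [[6], [1, 3, 5, 7], [0, 2, 4, 8, 9, 10]] [(.mj 0 1, 131), (.mj 5 8, 10), (.mj 6 7, 18), (.mj 7 9, 5), (.mj 8 6, 25), (.hz 18 383, 12281), (.hz 18 831, 2282), (.hz 18 895, 3046), (.hz 18 1855, 2926)])))
(.mark 831 [6, 7, 10]
(.lp [[6], [1, 3, 5, 7], [0, 2, 4, 8, 9, 10]] [(.mj 0 1, 213), (.mj 5 8, 30), (.mj 6 7, 8), (.mj 6 9, 28), (.mj 8 6, 51), (.mj 9 7, 34), (.hz 13 191, 79669), (.hz 18 383, 61091), (.hz 18 831, 18124), (.hz 18 1855, 2624)])))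
(.haz 6 191 4 25
(.haz 9 447 1 2
(.ask 175
(.mark 447 [6, 9, 11]
(.lp [[6], [1, 3, 5, 7, 11], [0, 2, 4, 8, 9, 10]] [(.mj 5 8, 9), (.mj 6 9, 7), (.mj 8 6, 12), (.hz 18 47, 788), (.hz 18 63, 752), (.hz 18 319, 170), (.hz 20 447, 23199), (.hz 19 2239, 16360), (.hz 20 2495, 147627)]))
(.lp [[6], [1, 3, 5, 7], [0, 2, 4, 8, 9, 10]] [(.mj 5 8, 166), (.mj 6 9, 101), (.mj 8 6, 170), (.hz 18 63, 37582), (.hz 19 191, 87409), (.hz 18 319, 5048), (.hz 20 447, 1451258)]))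
(.lp [[6], [1, 3, 5, 7], [0, 2, 4, 8, 9, 10]] [(.mj 5 8, 23), (.mj 8 6, 16), (.hz 18 47, 1116), (.hz 18 63, 2445), (.hz 19 191, 9709), (.hz 18 319, 6012), (.hz 20 319, 150298)]))
(.lp [[6], [1, 3, 5, 7], [0, 2, 4, 8, 9, 10]] [(.mj 0 1, 97), (.mj 5 8, 10), (.mj 6 9, 4), (.hz 19 31, 1725), (.hz 19 63, 2783), (.hz 18 63, 1391), (.hz 18 319, 1756), (.hz 16 831, 2289)])))
(.maj 7 9
(.lp [[6], [1, 3, 5, 7], [0, 2, 4, 8, 9]] [(.mj 0 1, 172), (.mj 5 8, 18), (.mj 6 7, 10), (.mj 7 9, 2), (.mj 8 6, 14), (.hz 13 191, 31584), (.hz 16 831, 868)])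
(.lp [[6], [1, 3, 5, 7], [0, 2, 4, 8, 9]] [(.mj 0 1, 63), (.mj 5 8, 18), (.mj 6 7, 5), (.mj 8 6, 17), (.mj 9 7, 9), (.hz 13 191, 23385), (.hz 16 895, 17352)])))
(.lp [[6], [1, 3, 5, 7], [0, 2, 4, 8, 9]] [(.mj 0 1, 857), (.mj 5 8, 23), (.mj 6 7, 6), (.mj 8 6, 5), (.hz 17 63, 17496), (.hz 13 191, 44636), (.hz 15 191, 1773), (.hz 16 831, 2163)]))
(.lp [[6], [1, 3, 5, 7], [0, 2, 4, 8, 9]] [(.mj 5 8, 16), (.mj 6 9, 8), (.mj 8 6, 16), (.hz 16 47, 1089), (.hz 16 63, 2695), (.hz 13 191, 24382), (.hz 16 319, 3490), (.hz 14 831, 9344)]))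
(.lp [[6], [1, 3, 5, 7], [0, 2, 4, 8, 9]] [(.mj 0 1, 293), (.mj 5 8, 7), (.hz 15 63, 2323), (.hz 13 191, 14046)]))
(.lp [[6], [1, 3, 5, 7], [0, 2, 4, 8, 9]] [(.mj 5 8, 17), (.mj 6 9, 9), (.mj 8 6, 17), (.hz 14 47, 2315), (.hz 14 63, 5681), (.hz 13 191, 26102), (.hz 14 319, 7294), (.hz 12 831, 32017)]))
(.lp [[6], [1, 3, 5, 7], [0, 2, 4, 8, 9]] [(.mj 6 7, 3), (.mj 6 9, 2), (.hz 13 15, 768), (.hz 13 31, 7103), (.hz 13 47, 853), (.hz 12 831, 14409)]))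
(.lp [[6], [1, 3, 5, 7], [0, 2, 4, 8, 9]] [(.mj 3 4, 2), (.mj 5 8, 30), (.mj 6 9, 18), (.mj 8 6, 31), (.hz 12 47, 12876), (.hz 12 63, 33822), (.hz 11 191, 23177), (.hz 12 319, 38794)]))
(.ref 2)
(.haz 8 191 11 40
(.ask 831
(.mark 831 [6, 7, 10]
(.spn
(.lp [[6], [1, 3, 5, 7], [0, 2, 4, 8, 9, 10]] [(.mj 9 6, 350), (.rw 8, 1)])
(.cut 6 [(0, 1), (1, 1), (2, 1), (3, 1), (5, 1), (7, 1), (11, 1), (21, 1), (15, 1), (23, 1), (31, 1), (47, 1), (279, 1), (63, 1), (287, 1), (319, 1)]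
(.cut 6 [(0, 1), (1, 1), (2, 1), (3, 1), (5, 1), (7, 1), (11, 1), (21, 1), (15, 1), (23, 1), (31, 1), (47, 1), (279, 1), (63, 1), (175, 2), (287, 1), (191, 1), (319, 1), (831, 1)]
(.lp [[6], [1, 3, 5, 7], [0, 2, 4, 8, 9, 10]] [(.mj 3 4, 381399), (.mj 7 6, 26172), (.mj 7 10, 12280), (.mj 9 7, 82918), (.rw 7, 62), (.rw 8, 143), (.hz 9 79, 13640874), (.hz 9 111, 13640874), (.hz 9 239, 31743854), (.hz 11 447, 246521114), (.rw 9, 136), (.rw 10, 50)])))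
(.maj 6 7
(.cut 6 [(0, 1), (1, 1), (2, 1), (3, 1), (5, 1), (7, 1), (11, 1), (21, 1), (15, 1), (23, 1), (31, 1), (47, 1), (279, 1), (63, 1), (287, 1), (319, 1)]
(.lp [[6], [1, 3, 5, 7], [0, 2, 4, 8, 9, 10]] [(.mj 5 8, 33387), (.mj 10 6, 3294), (.rw 8, 8), (.hz 5 175, 1143609), (.hz 11 191, 2470195), (.hz 12 191, 6553918), (.hz 11 447, 46468081), (.rw 9, 41)]))
(.cut 7 [(0, 1), (1, 1), (2, 1), (3, 1), (5, 1), (7, 1), (11, 1), (21, 1), (15, 1), (23, 1), (31, 1), (47, 1), (279, 1), (63, 1), (287, 1), (319, 1), (831, 1)]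
(.cut 6 [(0, 1), (1, 1), (2, 1), (3, 1), (5, 1), (7, 1), (11, 1), (21, 1), (15, 1), (23, 1), (31, 1), (47, 1), (279, 1), (63, 1), (175, 2), (287, 1), (191, 2), (319, 1), (447, 1), (831, 1), (959, 1)]
(.cut 6 [(0, 1), (1, 1), (2, 1), (3, 1), (5, 1), (7, 1), (11, 1), (21, 1), (15, 1), (23, 1), (31, 1), (47, 1), (279, 1), (63, 1), (287, 1), (319, 1)]
(.lp [[6], [1, 3, 5, 7], [0, 2, 4, 8, 9, 10]] [(.mj 5 8, 80999), (.mj 10 6, 31059), (.mj 10 7, 31059), (.rw 8, 5), (.hz 9 239, 15822557), (.hz 12 255, 83424076), (.hz 11 959, 230800299), (.rw 9, 57), (.rw 10, 14), (.rw 11, 85)])))))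
.fin))
(.lp [[6], [1, 3, 5, 7], [0, 2, 4, 8, 9]] [(.mj 9 7, 1), (.rw 7, 1)]))
(.lp [[6], [1, 3, 5, 7], [0, 2, 4, 8, 9]] [(.mj 0 1, 12549), (.mj 9 7, 440), (.rw 7, 1), (.hz 12 63, 950708)]))
.fin))
(.spn
(.lp [[6], [0, 2, 4, 8], [1, 3, 5, 7]] [(.mj 5 8, 1), (.mj 6 7, 8), (.mj 8 6, 13)])
(.cut 6 [(0, 1), (1, 1), (2, 1), (3, 1), (5, 1), (7, 1), (11, 1), (21, 1), (15, 1), (23, 1), (31, 1), (47, 1), (279, 1), (63, 1), (287, 1), (319, 1)]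
(.lp [[6], [0, 2, 4, 8], [1, 3, 5, 7]] [(.mj 7 6, 512), (.mj 8 7, 1239), (.rw 8, 1)]))
.fin
.fin))
(.cut 6 [(0, 1), (1, 1), (2, 1), (3, 1), (5, 1), (7, 1), (11, 1), (21, 1), (23, 1), (279, 1)]
(.lp [[6], [0, 2, 4, 8], [1, 3, 5, 7]] [(.mj 3 4, 547), (.mj 5 8, 2127), (.mj 8 7, 1272), (.hz 11 15, 3516579), (.hz 11 31, 4179590), (.hz 9 111, 305666), (.rw 7, 13)]))))
(.lp [[6], [0, 2, 4, 8], [1, 3, 5, 7]] [(.mj 0 1, 72), (.mj 5 6, 1), (.hz 10 31, 12399), (.hz 8 95, 429)])))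
(.lp [[6], [0, 2, 4, 8], [1, 3, 5, 7]] [(.mj 0 1, 1), (.hz 9 7, 10)]))
(.lp [[6], [0, 2, 4, 8], [1, 3, 5, 7]] [(.mj 0 1, 42), (.mj 5 6, 1), (.hz 8 23, 342), (.hz 8 31, 415)]))
.fin))
(.con 6 5)
(.haz 6 47 3 20
(.mark 47 [4, 6, 7]
(.cut 5 [(0, 1), (1, 1), (2, 1), (3, 1), (5, 1), (7, 1), (11, 1), (21, 1), (15, 1), (23, 1), (31, 1), (279, 1)]
(.lp [[6], [0, 2, 4, 8], [1, 3, 5, 7]] [(.mj 3 4, 73645), (.mj 8 5, 22380), (.mj 8 6, 35885), (.hz 8 47, 6493654), (.hz 5 79, 3276023), (.hz 8 63, 30158318), (.hz 5 175, 3931638), (.hz 8 175, 5607039), (.hz 8 191, 21306749), (.rw 6, 7)])))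
(.lp [[6], [0, 2, 4, 8], [1, 3, 5, 7]] [(.mj 3 4, 14), (.mj 8 5, 8), (.hz 8 15, 2318), (.hz 5 47, 715)]))
.fin))

theorem run158 : run P3488 (leaf3 218 625) (cutRow P3488) [s157, s156, s155] t158 s158 = true := by
  decide +kernel

theorem bad158 : Bad P3488 s158 :=
  run_sound (leaf3_sound P3488 rfl rfl) (cutRow_sound P3488) (
    List.forall_mem_cons.2 ⟨bad157, List.forall_mem_cons.2 ⟨bad156, List.forall_mem_cons.2 ⟨bad155, fun _ h => absurd h List.not_mem_nil⟩⟩⟩) t158 s158 run158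

/-- the state above piece 137 of the tree -/
def s137 : St := ⟨[0, 0, 1, 3, 5, 11, 15, 21, 79], [95, 31, 15, 11, 7, 5, 3, 2, 1, 0], [0, 1, 2, 3, 4, 6, 7],
  [],
  [⟨true, 2, 3, 3, 10⟩, ⟨true, 1, 5, 2, 5⟩, ⟨true, 2, 3, 23, 50⟩, ⟨true, 1, 5, 12, 25⟩, ⟨true, 1, 21, 27, 50⟩, ⟨true, 4, 15, 9, 40⟩, ⟨true, 3, 23, 11, 20⟩, ⟨true, 4, 79, 7, 25⟩, ⟨true, 6, 63, 6, 25⟩, ⟨true, 4, 15, 17, 50⟩, ⟨true, 3, 151, 29, 50⟩],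
  [.spn 0 0 651200, .spn 1 1 302400, .spn 3 2 302400, .spn 7 3 302400, .spn 15 4 140426, .spn 31 6 140426, .spn 95 7 140426]⟩

/-- piece 137 of the tree -/
noncomputable def t137 : WN.Tree :=
(.haz 5 351 1 25
(.haz 4 335 9 25
(.haz 7 63 1 5
(.ask 149
(.mark 223 [5, 8, 9]
(.spn
(.haz 8 223 13 40
(.lp [[5], [1, 3, 6, 8], [0, 2, 4, 7, 9]] [(.mj 5 8, 5394), (.mj 6 7, 5394), (.mj 7 5, 5394), (.rw 6, 1), (.rw 7, 1), (.hz 14 223, 1045050), (.hz 14 255, 2022677), (.hz 14 735, 4045354)])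
(.haz 9 255 1 4
(.lp [[5], [1, 3, 6, 8], [0, 2, 4, 7, 9]] [(.mj 3 4, 903), (.mj 6 7, 3652), (.mj 7 5, 2882), (.rw 7, 2), (.hz 14 79, 277853), (.hz 14 95, 764103), (.hz 14 223, 602547), (.hz 11 351, 1729355), (.hz 15 255, 20928863)])
(.lp [[5], [1, 3, 6, 8], [0, 2, 4, 7, 9]] [(.mj 6 7, 9), (.mj 7 5, 8), (.hz 14 79, 714), (.hz 14 95, 2160), (.hz 14 223, 3345), (.hz 15 223, 24390), (.hz 11 351, 4928)])))
(.ref 0)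
(.haz 8 111 9 40
(.cut 5 [(0, 1), (1, 1), (2, 1), (3, 1), (5, 1), (7, 1), (11, 1), (21, 1), (15, 1), (23, 1), (149, 1), (31, 1), (79, 1), (151, 1), (661, 1), (95, 1), (159, 1), (663, 1), (223, 1)]
(.lp [[5], [1, 3, 6, 8], [0, 2, 4, 7, 9]] [(.mj 6 7, 25606), (.mj 9 5, 7112), (.mj 9 8, 10669), (.rw 6, 16), (.hz 2 43, 193297), (.hz 9 47, 1222317), (.hz 8 63, 931278), (.hz 13 63, 75534386), (.hz 14 111, 1433971), (.hz 14 127, 5845726), (.hz 14 255, 20110811), (.rw 8, 9)]))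
(.lp [[5], [1, 3, 6, 8], [0, 2, 4, 7, 9]] [(.mj 3 4, 40), (.mj 9 5, 18), (.mj 9 8, 4), (.hz 2 43, 206), (.hz 9 47, 2871), (.hz 14 79, 4347), (.hz 13 63, 38311), (.hz 9 111, 1429), (.hz 13 127, 43830), (.hz 11 351, 19329), (.hz 11 479, 31162)]))
.fin))
(.haz 7 351 7 25
(.ask 151
(.mark 223 [5, 8, 9]
(.spn
(.haz 8 223 8 25
(.lp [[5], [1, 3, 6, 8], [0, 2, 4, 7, 9]] [(.mj 5 8, 4093), (.mj 6 7, 4093), (.mj 7 5, 4093), (.rw 6, 1), (.rw 7, 1), (.hz 15 223, 1326213), (.hz 15 255, 2455950), (.hz 15 735, 4809568)])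
(.haz 9 255 6 25
(.lp [[5], [1, 3, 6, 8], [0, 2, 4, 7, 9]] [(.mj 3 4, 6232), (.mj 6 7, 26171), (.mj 7 5, 20317), (.rw 7, 14), (.hz 15 79, 3122526), (.hz 15 95, 8578916), (.hz 15 223, 6543804), (.hz 11 351, 12190341), (.hz 16 255, 23584373)])
(.lp [[5], [1, 3, 6, 8], [0, 2, 4, 7, 9]] [(.mj 6 7, 15), (.mj 7 5, 13), (.hz 15 79, 1817), (.hz 15 95, 5942), (.hz 15 223, 8605), (.hz 16 223, 6398)])))
(.haz 8 767 11 40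
(.haz 5 335 1 25
(.haz 5 351 3 50
(.haz 5 335 3 50
(.ask 335
(.mark 479 [5, 9, 10]
(.spn
(.haz 9 479 13 50
(.lp [[5], [0, 2, 4, 7, 9], [1, 3, 6, 8, 10]] [(.mj 5 9, 2632), (.mj 5 10, 293), (.mj 7 8, 2074), (.mj 8 5, 2632), (.rw 8, 1), (.hz 18 1359, 276224), (.hz 19 479, 665681), (.hz 17 1375, 1244214), (.hz 19 511, 2171749), (.hz 19 1503, 2680700)])
(.lp [[5], [0, 2, 4, 7, 9], [1, 3, 6, 8, 10]] [(.mj 3 4, 508), (.mj 7 8, 1570), (.mj 8 5, 971), (.rw 8, 1), (.hz 19 151, 39115), (.hz 19 159, 166174), (.hz 19 223, 419902), (.hz 18 1359, 330253), (.hz 19 479, 273487), (.hz 17 1375, 1639220), (.hz 17 991, 830405)]))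
(.haz 5 79 1 10
(.lp [[5], [0, 2, 4, 7, 9], [1, 3, 6, 8, 10]] [(.mj 6 7, 6), (.mj 7 8, 3), (.mj 9 5, 5), (.hz 19 335, 3379), (.hz 19 223, 17758), (.hz 19 351, 12499), (.hz 12 1359, 133), (.hz 19 1359, 1502), (.hz 19 479, 13164), (.hz 19 735, 13044), (.hz 19 1375, 7208), (.hz 14 1375, 472), (.hz 19 1503, 21323)])
(.haz 8 127 7 25
(.haz 5 335 2 25
(.ask 1359
(.mark 1375 [5, 7, 11]
(.cut 5 [(0, 1), (1, 1), (2, 1), (3, 1), (5, 1), (7, 1), (11, 1), (21, 1), (15, 1), (23, 1), (149, 1), (31, 1), (79, 1), (151, 1), (95, 1), (159, 1), (335, 1), (663, 1), (223, 1), (351, 1), (1359, 1), (479, 1), (1375, 1)]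
(.lp [[5], [0, 2, 4, 7, 9], [1, 3, 6, 8, 10, 11]] [(.mj 3 4, 185637), (.mj 7 8, 68368), (.mj 9 5, 41425), (.hz 19 11, 7917345), (.hz 19 15, 20673067), (.hz 19 79, 22970074), (.hz 21 335, 21595964), (.hz 21 351, 100224492), (.hz 12 1359, 8217546), (.hz 21 1359, 4395586), (.hz 21 1375, 26756890), (.hz 12 3407, 2173685), (.hz 21 1503, 28187028), (.hz 14 3423, 970490), (.hz 12 3439, 11282562), (.hz 14 3455, 91431129), (.hz 21 3551, 12131128), (.rw 9, 46)])))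
(.lp [[5], [0, 2, 4, 7, 9], [1, 3, 6, 8, 10]] [(.mj 3 4, 173), (.mj 7 8, 60), (.mj 9 5, 38), (.hz 19 11, 7902), (.hz 19 15, 20632), (.hz 19 79, 22924), (.hz 21 335, 17651), (.hz 20 127, 8529), (.hz 21 351, 76024), (.hz 21 479, 72625), (.hz 21 1375, 22982), (.hz 21 991, 69281), (.hz 21 1503, 67974)]))
(.lp [[5], [0, 2, 4, 7, 9], [1, 3, 6, 8, 10]] [(.mj 3 4, 73), (.mj 6 7, 3), (.mj 7 8, 32), (.mj 9 10, 2), (.hz 21 11, 2109), (.hz 21 15, 7830), (.hz 21 79, 3762), (.hz 18 335, 4040), (.hz 20 127, 32427), (.hz 12 1359, 3134), (.hz 18 1359, 495), (.hz 17 1375, 4033), (.hz 17 991, 7246), (.hz 17 1503, 6552)]))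
(.lp [[5], [0, 2, 4, 7, 9], [1, 3, 6, 8, 10]] [(.mj 3 4, 1), (.hz 19 11, 59), (.hz 19 15, 225), (.hz 19 79, 679), (.hz 20 79, 128), (.hz 20 95, 253)])))
(.ask 663
(.mark 991 [5, 10, 11]
(.cut 5 [(0, 1), (1, 1), (2, 1), (3, 1), (5, 1), (7, 1), (11, 1), (21, 1), (15, 1), (23, 1), (149, 1), (31, 1), (79, 1), (151, 1), (95, 1), (159, 1), (335, 1), (663, 1), (223, 1), (351, 1), (671, 1), (2711, 1), (479, 1), (735, 1), (991, 1)]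
(.lp [[5], [1, 3, 6, 8, 10], [0, 2, 4, 7, 9, 11]] [(.mj 3 4, 5485), (.mj 6 7, 4247), (.mj 7 8, 6338), (.mj 10 5, 5711), (.mj 10 9, 308), (.hz 2 43, 34080), (.hz 9 47, 215505), (.hz 8 63, 98457), (.hz 9 111, 115270), (.hz 10 663, 144033), (.hz 17 351, 293389), (.hz 10 2711, 1882926), (.hz 8 703, 8274737), (.hz 12 1391, 552563), (.hz 17 991, 1849289), (.rw 9, 14)])))
(.cut 5 [(0, 1), (1, 1), (2, 1), (3, 1), (5, 1), (7, 1), (11, 1), (21, 1), (15, 1), (23, 1), (149, 1), (31, 1), (79, 1), (151, 1), (95, 1), (159, 1), (335, 1), (663, 1), (223, 1), (351, 1), (1359, 1)]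
(.cut 5 [(0, 1), (1, 1), (2, 1), (3, 1), (5, 1), (7, 1), (11, 1), (21, 1), (15, 1), (23, 1), (149, 1), (31, 1), (79, 1), (151, 1), (95, 1), (159, 1), (335, 1), (663, 1), (351, 1)]
(.cut 5 [(0, 1), (1, 1), (2, 1), (3, 1), (5, 1), (7, 1), (11, 1), (21, 1), (15, 1), (23, 1), (149, 1), (31, 1), (79, 1), (151, 1), (95, 1), (159, 1), (335, 1), (663, 1), (223, 1), (351, 1)]
(.lp [[5], [0, 2, 4, 7, 9], [1, 3, 6, 8, 10]] [(.mj 6 7, 102034), (.mj 7 8, 101811), (.mj 10 5, 83806), (.mj 10 9, 12165), (.hz 18 335, 882257), (.hz 18 1359, 2541778), (.hz 8 703, 79738972), (.hz 17 1375, 24789955), (.hz 15 767, 165859235), (.rw 9, 13), (.rw 10, 100), (.rw 11, 96)])))))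
.fin))
(.ref 1))
(.lp [[5], [1, 3, 6, 8], [0, 2, 4, 7, 9]] [(.mj 3 4, 179), (.mj 4 6, 20), (.mj 7 8, 80), (.hz 18 11, 2600), (.hz 18 15, 15402), (.hz 12 335, 1684), (.hz 16 335, 32027), (.hz 17 351, 49225)]))
(.lp [[5], [1, 3, 6, 8], [0, 2, 4, 7, 9]] [(.mj 3 4, 531), (.mj 4 6, 64), (.mj 7 8, 242), (.hz 17 11, 7771), (.hz 17 15, 19923), (.hz 17 31, 8514), (.hz 17 79, 11033), (.hz 17 95, 42574), (.hz 16 335, 72724), (.hz 11 351, 326910)]))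
(.lp [[5], [1, 3, 6, 8], [0, 2, 4, 7, 9]] [(.mj 3 4, 21), (.mj 4 6, 2), (.mj 7 8, 10), (.hz 16 11, 602), (.hz 16 15, 3441), (.hz 12 335, 366), (.hz 11 351, 15427)]))
(.lp [[5], [1, 3, 6, 8], [0, 2, 4, 7, 9]] [(.mj 6 7, 462), (.mj 8 9, 108), (.rw 7, 1), (.hz 15 223, 1154029)]))
(.ask 663
(.mark 735 [5, 8, 10]
(.lp [[5], [1, 3, 6, 8], [0, 2, 4, 7, 9, 10]] [(.mj 6 7, 10512), (.mj 9 5, 6086), (.mj 9 8, 6485), (.rw 6, 4), (.hz 2 43, 60366), (.hz 9 47, 585908), (.hz 13 63, 36239078), (.hz 12 335, 247142), (.hz 13 127, 5552115), (.hz 11 351, 12406511), (.hz 11 479, 25353233)]))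
(.cut 5 [(0, 1), (1, 1), (2, 1), (3, 1), (5, 1), (7, 1), (11, 1), (21, 1), (15, 1), (23, 1), (149, 1), (31, 1), (79, 1), (151, 1), (95, 1), (159, 1), (663, 1), (223, 1)]
(.lp [[5], [1, 3, 6, 8], [0, 2, 4, 7, 9]] [(.mj 6 7, 16949), (.mj 9 5, 6852), (.mj 9 8, 6852), (.rw 6, 11), (.hz 12 367, 841356), (.rw 8, 16)])))
.fin))
(.ref 2))
(.lp [[5], [0, 2, 4, 7], [1, 3, 6, 8]] [(.mj 0 1, 1505), (.mj 7 8, 223), (.rw 6, 1), (.hz 10 151, 11043), (.hz 13 63, 402160), (.hz 14 95, 694282), (.hz 11 351, 420623)])))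
(.lp [[5], [0, 2, 4, 7], [1, 3, 6, 8]] [(.mj 0 1, 112), (.mj 7 8, 1), (.hz 13 21, 6198), (.hz 13 23, 8869), (.hz 13 31, 13738), (.hz 8 63, 1021)]))
(.lp [[5], [0, 2, 4, 7], [1, 3, 6, 8]] [(.mj 4 6, 351), (.mj 7 8, 234), (.rw 6, 1), (.hz 12 79, 844519), (.hz 9 111, 292191), (.hz 9 335, 339501), (.hz 11 351, 316179)]))
(.cut 5 [(0, 1), (1, 1), (2, 1), (3, 1), (5, 1), (7, 1), (11, 1), (21, 1), (15, 1), (23, 1), (149, 1), (31, 1), (79, 1), (151, 1), (95, 1)]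
(.lp [[5], [0, 2, 4, 7], [1, 3, 6, 8]] [(.mj 3 4, 91493), (.mj 4 6, 39170), (.mj 7 8, 9831), (.hz 11 11, 2409895), (.hz 11 15, 6125149), (.hz 11 31, 15226901), (.rw 7, 28)])))

theorem run137 : run P3488 (leaf3 218 625) (cutRow P3488) [s131, s132, s136] t137 s137 = true := by
  decide +kernel

theorem bad137 : Bad P3488 s137 :=
  run_sound (leaf3_sound P3488 rfl rfl) (cutRow_sound P3488) (
    List.forall_mem_cons.2 ⟨bad131, List.forall_mem_cons.2 ⟨bad132, List.forall_mem_cons.2 ⟨bad136, fun _ h => absurd h List.not_mem_nil⟩⟩⟩) t137 s137 run137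

/-- the state above piece 33 of the tree -/
def s33 : St := ⟨[0, 0, 1, 1, 3, 7], [13, 11, 9, 7, 5, 3, 2, 1, 0], [0, 1, 2, 3],
  [],
  [⟨true, 1, 9, 7, 50⟩, ⟨true, 2, 11, 3, 50⟩, ⟨true, 2, 9, 9, 50⟩, ⟨true, 3, 3, 1, 5⟩, ⟨true, 1, 5, 13, 50⟩, ⟨true, 5, 31, 1, 8⟩],
  [.spn 0 0 651200, .spn 1 1 140426, .spn 3 2 140426, .spn 7 3 62723]⟩

/-- piece 33 of the tree -/
noncomputable def t33 : WN.Tree :=
(.haz 4 39 1 20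
(.ask 15
(.ref 0)
(.spn
(.haz 5 23 7 25
(.ask 39
(.mark 39 [3, 4, 6]
(.lp [[3], [1, 4], [0, 2, 5, 6]] [(.mj 2 3, 79), (.mj 3 4, 75), (.mj 4 5, 61), (.hz 7 23, 6334), (.hz 7 31, 3962), (.hz 3 103, 19810), (.hz 6 103, 7043)]))
(.lp [[3], [1, 4], [0, 2, 5]] [(.mj 2 3, 6), (.mj 3 4, 5), (.mj 4 5, 3)]))
(.lp [[3], [1, 4], [0, 2, 5]] [(.mj 2 3, 10), (.mj 3 4, 9), (.mj 4 5, 4), (.hz 7 7, 431), (.hz 5 31, 2052)]))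
(.haz 5 31 16 25
(.ask 39
(.mark 39 [3, 4, 6]
(.ask 47
(.mark 47 [4, 6, 7]
(.spn
(.ref 1)
(.maj 4 7
(.ask 175
(.mark 175 [4, 6, 8]
(.cut 4 [(0, 1), (1, 1), (2, 1), (3, 1), (5, 1), (9, 1), (7, 1), (11, 1), (13, 1), (15, 1), (39, 1), (47, 1)]
(.lp [[1, 4], [3, 7, 8], [0, 2, 5, 6]] [(.mj 3 5, 4319), (.mj 4 7, 73), (.mj 6 4, 1851), (.mj 6 7, 175), (.hz 6 175, 2291197), (.hz 6 431, 636338), (.rw 6, 4)])))
(.cut 4 [(0, 1), (1, 1), (2, 1), (3, 1), (5, 1), (9, 1), (7, 1), (11, 1), (13, 1), (15, 1), (39, 1), (47, 1)]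
(.lp [[1, 4], [3, 7], [0, 2, 5, 6]] [(.mj 3 5, 4656), (.mj 4 7, 178), (.mj 6 4, 1996), (.hz 6 175, 2208708), (.rw 6, 4)])))
(.haz 6 175 2 5
(.haz 4 7 3 25
(.lp [[1, 4], [3, 7], [0, 2, 5, 6]] [(.mj 3 5, 4), (.mj 6 7, 1), (.mj 7 4, 3), (.hz 9 39, 883), (.hz 9 47, 451), (.hz 9 103, 451), (.hz 9 111, 1026), (.hz 9 175, 850)])
(.haz 4 47 1 10
(.lp [[1, 4], [3, 7], [0, 2, 5, 6]] [(.mj 3 5, 38), (.mj 6 7, 8), (.mj 7 4, 25), (.hz 10 47, 29392), (.hz 10 111, 48690), (.hz 10 175, 18420)])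
(.cut 4 [(0, 1), (1, 1), (2, 1), (3, 1), (5, 1), (9, 1), (7, 1), (11, 1), (13, 1), (15, 1), (39, 1), (47, 1), (103, 1)]
(.cut 4 [(0, 1), (1, 1), (2, 1), (3, 1), (5, 1), (9, 1), (7, 1), (11, 1), (13, 1), (15, 1)]
(.lp [[1, 4], [3, 7], [0, 2, 5, 6]] [(.mj 3 5, 8451), (.mj 6 7, 1343), (.hz 10 3, 406193), (.hz 10 7, 654422), (.hz 10 11, 654422), (.hz 10 15, 1860463), (.hz 6 175, 67616), (.rw 6, 3), (.rw 7, 2)])))))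
(.lp [[1, 4], [3, 7], [0, 2, 5, 6]] [(.mj 3 5, 22), (.mj 6 7, 42), (.mj 7 4, 35), (.hz 8 39, 5365), (.hz 8 47, 64882), (.hz 6 103, 8242), (.hz 6 111, 15302), (.hz 6 175, 48908)])))
(.ask 175
(.mark 175 [4, 6, 8]
(.spn
(.lp [[1, 4], [3, 7, 8], [0, 2, 5, 6]] [(.mj 7 4, 368), (.rw 6, 1)])
(.ask 431
(.maj 4 8
(.mark 431 [4, 6, 9]
(.cut 4 [(0, 1), (1, 1), (2, 1), (3, 1), (5, 1), (9, 1), (7, 1), (11, 1), (13, 1), (15, 1), (39, 1), (47, 1), (175, 1)]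
(.lp [[1, 4], [2, 5, 6], [0, 3, 7, 8, 9]] [(.mj 4 8, 181), (.mj 6 4, 8237), (.mj 6 8, 5954), (.mj 7 6, 14709), (.hz 6 431, 11620150), (.hz 6 943, 2831400), (.rw 7, 19)])))
(.maj 4 9
(.mark 431 [4, 6, 9]
(.cut 4 [(0, 1), (1, 1), (2, 1), (3, 1), (5, 1), (9, 1), (7, 1), (11, 1), (13, 1), (15, 1), (39, 1), (47, 1), (175, 1), (431, 1)]
(.lp [[1, 4], [2, 5, 6], [0, 3, 7, 8, 9]] [(.mj 6 8, 260), (.mj 7 6, 603), (.mj 8 4, 314), (.hz 6 943, 371562), (.rw 7, 1)])))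
(.cut 4 [(0, 1), (1, 1), (2, 1), (3, 1), (5, 1), (9, 1), (7, 1), (11, 1), (13, 1), (15, 1), (39, 1), (47, 1), (175, 1)]
(.lp [[1, 4], [2, 5, 6], [0, 3, 7, 8, 9]] [(.mj 6 4, 94), (.mj 6 8, 3899), (.mj 7 6, 6963), (.mj 9 4, 3805), (.rw 7, 13)]))))
(.cut 4 [(0, 1), (1, 1), (2, 1), (3, 1), (5, 1), (9, 1), (7, 1), (11, 1), (13, 1), (15, 1), (39, 1), (47, 1), (175, 1), (431, 1)]
(.lp [[1, 4], [3, 7, 8], [0, 2, 5, 6]] [(.mj 6 4, 3156), (.mj 7 6, 8115), (.rw 7, 8)])))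
(.ask 431
(.mark 431 [4, 6, 9]
(.spn
(.lp [[1, 4], [2, 5, 6], [0, 3, 7, 8, 9]] [(.mj 8 4, 173), (.rw 7, 1)])
(.lp [[1, 4], [2, 5, 6], [0, 3, 7, 8, 9]] [(.mj 8 6, 1071), (.rw 7, 2), (.hz 6 103, 387537), (.hz 6 111, 1817159), (.hz 6 239, 2687872)])
(.ask 943
(.mark 943 [4, 6, 10]
(.spn
(.lp [[1, 4], [2, 5, 6], [0, 3, 7, 8, 9, 10]] [(.mj 9 4, 75), (.rw 8, 1)])
(.lp [[1, 4], [2, 5, 6], [0, 3, 7, 8, 9, 10]] [(.mj 9 6, 410), (.rw 8, 1)])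
(.cut 4 [(0, 1), (1, 1), (2, 1), (3, 1), (5, 1), (9, 1), (7, 1), (11, 1), (13, 1), (15, 1), (39, 1), (47, 1), (175, 1), (431, 1)]
(.cut 4 [(0, 1), (1, 1), (2, 1), (3, 1), (5, 1), (9, 1), (7, 1), (11, 1), (13, 1), (15, 1), (39, 1), (47, 1), (103, 1), (175, 1), (431, 1), (943, 1)]
(.cut 6 [(0, 1), (1, 1), (2, 1), (3, 1), (5, 1), (9, 1), (7, 1), (11, 1), (13, 1), (19, 1), (15, 1), (23, 1), (27, 1), (39, 1), (31, 1), (47, 1), (55, 1), (63, 1)]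
(.cut 6 [(0, 1), (1, 1), (2, 1), (3, 1), (5, 1), (9, 1), (7, 1), (11, 1), (13, 1), (19, 1), (15, 1), (23, 1), (27, 1), (39, 1), (31, 1), (47, 1), (55, 1), (63, 1), (175, 1), (191, 1), (431, 1), (447, 1)]
(.lp [[1, 4], [2, 5, 6], [0, 3, 7, 8, 9, 10]] [(.mj 3 5, 835), (.mj 10 4, 10609), (.mj 10 6, 1751), (.hz 6 175, 5355178), (.hz 3 119, 5735157), (.hz 6 431, 18588), (.hz 6 495, 12756996), (.hz 6 1007, 7517771), (.rw 9, 30), (.rw 10, 1), (.rw 11, 2), (.rw 12, 4)])))))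
.fin))
(.lp [[1, 4], [2, 5, 6], [0, 3, 7, 8, 9]] [(.mj 9 6, 1), (.rw 7, 1)]))
.fin))
(.lp [[1, 4], [3, 7, 8], [0, 2, 5, 6]] [(.mj 8 6, 1), (.rw 6, 1)]))
.fin))
(.lp [[1, 4], [3, 7], [0, 2, 5, 6]] [(.mj 7 6, 180), (.rw 5, 1)]))
.fin))
(.spn
(.lp [[3], [1, 4], [0, 2, 5, 6]] [(.mj 4 6, 2), (.mj 5 4, 3)])
(.cut 4 [(0, 1), (1, 1), (2, 1), (3, 1), (5, 1), (9, 1), (7, 1), (11, 1), (13, 1), (15, 1), (39, 1)]
(.lp [[3], [1, 4], [0, 2, 5, 6]] [(.mj 3 5, 3271), (.mj 6 4, 1484), (.hz 6 103, 714459), (.rw 6, 2)]))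
.fin
.fin)))
(.ref 2))
(.lp [[3], [1, 4], [0, 2, 5]] [(.mj 3 5, 2), (.mj 5 4, 4), (.hz 7 15, 1156), (.hz 6 39, 537)]))
.fin
.fin))
(.cut 4 [(0, 1), (1, 1), (2, 1), (3, 1), (5, 1), (9, 1), (11, 1), (13, 1)]
(.lp [[3], [1, 4], [0, 2, 5]] [(.mj 3 5, 27), (.hz 6 3, 202700), (.hz 5 31, 126561), (.rw 4, 1)])))

theorem run33 : run P3488 (leaf3 218 625) (cutRow P3488) [s32, s30, s31] t33 s33 = true := by
  decide +kernel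

theorem bad33 : Bad P3488 s33 :=
  run_sound (leaf3_sound P3488 rfl rfl) (cutRow_sound P3488) (
    List.forall_mem_cons.2 ⟨bad32, List.forall_mem_cons.2 ⟨bad30, List.forall_mem_cons.2 ⟨bad31, fun _ h => absurd h List.not_mem_nil⟩⟩⟩) t33 s33 run33

end Pool.Agent.WN.Data
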