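import Pool.Agent.WN.CutRow
import Pool.Agent.WN.LeafRow
import Pool.Agent.Helper99.WN.ParDef
import Pool.Agent.WN.Data.D2
import Pool.Agent.WN.Data.D4
import Pool.Agent.WN.Data.D5
import Pool.Agent.WN.Data.D18
import Pool.Agent.WN.Data.D20
import Pool.Agent.WN.Data.D23
import Pool.Agent.WN.Data.D29
import Pool.Agent.WN.Data.D35
import Pool.Agent.WN.Data.D38
import Pool.Agent.WN.Data.D41
import Pool.Agent.WN.Data.D42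

/-!
# The search tree, part 43
-/

set_option autoImplicit false

namespace Pool.Agent.WN.Data

open Pool.Agent.W3 Pool.Agent.WN Pool.Agent.Helper99.WN

/-- the state above piece 180 of the tree -/
def s180 : St := ⟨[0, 0, 1, 3, 5, 15, 21, 31, 47], [63, 31, 23, 21, 15, 11, 7, 5, 3, 2, 1, 0], [0, 1, 2, 3, 4, 5, 7],
  [(5, 6), (4, 5)],
  [⟨true, 2, 3, 3, 10⟩, ⟨true, 1, 5, 2, 5⟩, ⟨true, 2, 3, 23, 50⟩, ⟨true, 1, 5, 12, 25⟩, ⟨true, 1, 21, 27, 50⟩, ⟨true, 4, 15, 9, 40⟩, ⟨true, 3, 23, 11, 20⟩, ⟨true, 4, 47, 7, 20⟩, ⟨true, 4, 47, 17, 40⟩, ⟨true, 4, 47, 9, 20⟩, ⟨true, 4, 47, 19, 40⟩, ⟨true, 3, 87, 27, 40⟩, ⟨true, 5, 95, 1, 4⟩, ⟨true, 5, 159, 1, 4⟩, ⟨true, 7, 127, 7, 40⟩],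
  [.spn 0 0 651200, .spn 1 1 302400, .spn 3 2 302400, .spn 7 3 302400, .spn 15 4 302400, .spn 31 5 140426, .spn 63 7 140426]⟩

/-- piece 180 of the tree -/
noncomputable def t180 : WN.Tree :=
(.haz 7 95 1 5
(.ask 159
(.mark 191 [6, 8, 9]
(.spn
(.haz 8 191 9 40
(.lp [[6], [1, 3, 5, 8], [0, 2, 4, 7, 9]] [(.mj 3 4, 93), (.mj 5 7, 1), (.mj 6 8, 28), (.mj 6 9, 1), (.hz 10 303, 2496), (.hz 16 191, 6402), (.hz 16 703, 14687)])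
(.lp [[6], [1, 3, 5, 8], [0, 2, 4, 7, 9]] [(.mj 3 4, 30), (.mj 6 8, 4), (.mj 6 9, 3), (.hz 16 47, 957), (.hz 16 63, 539)]))
(.haz 8 127 7 40
(.haz 4 303 1 2
(.haz 6 447 1 20
(.ask 303
(.mark 447 [6, 9, 10]
(.spn
(.haz 7 127 7 20
(.haz 6 1471 3 20
(.haz 9 447 2 5
(.lp [[6], [0, 2, 4, 7, 9], [1, 3, 5, 8, 10]] [(.mj 6 9, 3166), (.mj 7 8, 3166), (.mj 8 6, 3166), (.rw 7, 1), (.rw 8, 1), (.hz 21 447, 4511641), (.hz 21 511, 16226076), (.hz 20 1471, 2770306), (.hz 21 1471, 26120024)])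
(.haz 9 255 1 5
(.ask 1327
(.mark 1471 [6, 9, 11]
(.lp [[6], [0, 2, 4, 7, 9], [1, 3, 5, 8, 10, 11]] [(.mj 3 4, 40035), (.mj 6 9, 19479), (.mj 7 8, 41308), (.mj 8 6, 22720), (.rw 7, 5), (.rw 8, 7), (.hz 21 159, 7566309), (.hz 21 191, 42914916), (.hz 22 255, 125031385), (.hz 20 1471, 35992240), (.hz 22 1535, 100050029), (.hz 20 3519, 67725458), (.hz 22 3583, 331364462)]))
(.haz 9 447 7 20
(.lp [[6], [0, 2, 4, 7, 9], [1, 3, 5, 8, 10]] [(.mj 6 9, 3031), (.mj 7 8, 3031), (.mj 8 6, 3031), (.rw 7, 1), (.rw 8, 1), (.hz 23 447, 1392301), (.hz 23 511, 3883289), (.hz 20 1471, 2652003), (.hz 23 1471, 6251149)])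
(.haz 9 1471 1 5
(.lp [[6], [0, 2, 4, 7, 9], [1, 3, 5, 8, 10]] [(.mj 3 4, 106690), (.mj 6 9, 10853), (.mj 7 8, 44154), (.mj 8 6, 9250), (.rw 8, 14), (.hz 23 191, 11398476), (.hz 22 255, 79840220), (.hz 20 1471, 46788266), (.hz 24 1471, 89533922)])
(.lp [[6], [0, 2, 4, 7, 9], [1, 3, 5, 8, 10]] [(.mj 3 4, 1), (.mj 7 8, 2), (.mj 8 6, 1), (.hz 24 159, 1646), (.hz 24 191, 4853), (.hz 22 255, 6166), (.hz 24 447, 3851), (.hz 20 1471, 2837)]))))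
(.lp [[6], [0, 2, 4, 7, 9], [1, 3, 5, 8, 10]] [(.mj 7 8, 21), (.mj 8 6, 16), (.hz 22 159, 18190), (.hz 22 191, 104598), (.hz 20 1471, 31638)])))
(.lp [[6], [0, 2, 4, 7, 9], [1, 3, 5, 8, 10]] [(.mj 6 9, 949), (.mj 7 8, 2621), (.rw 8, 13), (.hz 20 447, 25415868), (.hz 18 959, 1216418), (.hz 18 1471, 5814801)]))
(.lp [[6], [0, 2, 4, 7, 9], [1, 3, 5, 8, 10]] [(.mj 3 4, 3427), (.mj 7 8, 5079), (.mj 8 6, 3332), (.rw 8, 2), (.hz 19 31, 1053669), (.hz 19 63, 2572565), (.hz 15 95, 6291671), (.hz 15 127, 9579952), (.hz 18 959, 4269326), (.hz 18 1471, 4269326)]))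
(.ref 0)
(.ask 1327
(.mark 1471 [6, 9, 11]
(.cut 6 [(0, 1), (1, 1), (2, 1), (3, 1), (5, 1), (7, 1), (11, 1), (21, 1), (15, 1), (23, 1), (31, 1), (47, 1), (63, 1), (159, 1), (303, 1), (191, 1), (1327, 1), (3375, 1)]
(.lp [[6], [0, 2, 4, 7, 9], [1, 3, 5, 8, 10, 11]] [(.mj 7 8, 119415), (.mj 10 6, 67253), (.mj 10 9, 67253), (.rw 7, 57), (.hz 17 3375, 267780001), (.hz 18 959, 690326564), (.hz 18 1471, 71067325), (.hz 18 3519, 123466224), (.rw 9, 86)])))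
(.haz 9 447 3 10
(.cut 6 [(0, 1), (1, 1), (2, 1), (3, 1), (5, 1), (7, 1), (11, 1), (21, 1), (15, 1), (23, 1), (31, 1), (47, 1), (63, 1), (159, 1), (303, 1), (191, 1), (319, 1), (1327, 1), (447, 1)]
(.lp [[6], [0, 2, 4, 7, 9], [1, 3, 5, 8, 10]] [(.mj 7 8, 3033), (.mj 10 6, 2350), (.mj 10 9, 2350), (.hz 19 447, 5145155), (.hz 19 511, 11096549), (.rw 9, 4)]))
(.cut 6 [(0, 1), (1, 1), (2, 1), (3, 1), (5, 1), (7, 1), (11, 1), (21, 1), (15, 1), (23, 1), (31, 1), (47, 1), (63, 1), (159, 1), (303, 1), (191, 1), (319, 1), (1327, 1), (447, 1)]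
(.lp [[6], [0, 2, 4, 7, 9], [1, 3, 5, 8, 10]] [(.mj 5 7, 428), (.mj 7 8, 3621), (.mj 10 6, 2244), (.mj 10 9, 1238), (.hz 19 159, 464705), (.hz 19 191, 1921236), (.hz 12 735, 1869656), (.rw 9, 4)]))))
.fin))
(.ref 1))
(.cut 6 [(0, 1), (1, 1), (2, 1), (3, 1), (5, 1), (7, 1), (11, 1), (21, 1), (15, 1), (23, 1), (31, 1), (47, 1), (63, 1), (159, 1), (303, 1), (191, 1)]
(.lp [[6], [1, 3, 5, 8], [0, 2, 4, 7, 9]] [(.mj 0 1, 810190), (.mj 5 7, 19678), (.mj 8 9, 4055), (.hz 18 21, 9500462), (.hz 18 23, 11850889), (.hz 18 31, 6674963), (.hz 18 63, 1226620), (.hz 18 191, 10947385), (.hz 18 319, 17530218), (.hz 18 447, 9842661), (.rw 8, 22)])))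
(.lp [[6], [1, 3, 5, 8], [0, 2, 4, 7, 9]] [(.mj 3 4, 3), (.mj 7 8, 5), (.hz 17 15, 9285), (.hz 17 47, 18570), (.hz 10 303, 1116)]))
(.lp [[6], [1, 3, 5, 8], [0, 2, 4, 7, 9]] [(.mj 3 4, 7), (.mj 8 9, 1), (.hz 16 47, 280), (.hz 16 63, 700)]))
(.haz 8 191 9 40
(.haz 7 127 2 5
(.lp [[6], [1, 3, 5, 8], [0, 2, 4, 7, 9]] [(.mj 3 4, 26), (.mj 5 7, 12), (.mj 9 8, 14), (.hz 15 95, 13297), (.hz 10 303, 704), (.hz 17 127, 47634), (.hz 16 191, 4369), (.hz 16 255, 22479)])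
(.lp [[6], [1, 3, 5, 8], [0, 2, 4, 7, 9]] [(.mj 3 4, 8), (.mj 9 8, 3), (.hz 17 31, 729), (.hz 17 63, 2105), (.hz 15 95, 2328), (.hz 10 303, 158), (.hz 15 127, 8763), (.hz 16 191, 1098), (.hz 16 255, 4868)]))
(.lp [[6], [1, 3, 5, 8], [0, 2, 4, 7, 9]] [(.mj 3 4, 8), (.mj 5 7, 2), (.hz 16 47, 381), (.hz 16 63, 521), (.hz 15 95, 8099), (.hz 16 191, 293)]))
.fin))
(.ask 191
(.mark 191 [6, 8, 9]
(.spn
(.haz 8 191 1 5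
(.lp [[6], [1, 3, 5, 8], [0, 2, 4, 7, 9]] [(.mj 3 4, 36), (.mj 6 8, 11), (.hz 10 303, 960), (.hz 16 191, 23763), (.hz 16 703, 32376)])
(.lp [[6], [1, 3, 5, 8], [0, 2, 4, 7, 9]] [(.mj 3 4, 8), (.mj 6 8, 1), (.mj 6 9, 1), (.hz 16 47, 1990), (.hz 16 63, 1105)]))
(.ref 2)
(.ask 703
(.mark 703 [6, 8, 10]
(.spn
(.lp [[6], [1, 3, 5, 8], [0, 2, 4, 7, 9, 10]] [(.mj 9 6, 441), (.rw 8, 1)])
(.ask 303
(.mark 319 [6, 7, 11]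
(.cut 6 [(0, 1), (1, 1), (2, 1), (3, 1), (5, 1), (7, 1), (11, 1), (21, 1), (15, 1), (23, 1), (31, 1), (47, 1), (63, 1), (159, 1), (303, 1), (191, 1), (2351, 1), (703, 1)]
(.lp [[6], [1, 3, 5, 8, 11], [0, 2, 4, 7, 9, 10]] [(.mj 3 4, 3213), (.mj 8 6, 1013), (.mj 8 10, 1287), (.mj 9 8, 3174), (.rw 8, 1), (.hz 10 2351, 932422), (.hz 15 383, 1983396), (.hz 15 2431, 20121975), (.rw 9, 4)])))
(.cut 6 [(0, 1), (1, 1), (2, 1), (3, 1), (5, 1), (7, 1), (11, 1), (21, 1), (15, 1), (23, 1), (31, 1), (47, 1), (63, 1), (159, 1), (303, 1), (191, 1), (703, 1)]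
(.lp [[6], [1, 3, 5, 8], [0, 2, 4, 7, 9, 10]] [(.mj 3 4, 21032), (.mj 8 6, 83), (.mj 8 10, 1874), (.mj 9 8, 4762), (.rw 8, 1), (.rw 9, 5)])))
(.ask 1727
(.mark 1727 [6, 8, 11]
(.spn
(.lp [[6], [1, 3, 5, 8], [0, 2, 4, 7, 9, 10, 11]] [(.mj 10 6, 187), (.rw 9, 1)])
(.lp [[6], [1, 3, 5, 8], [0, 2, 4, 7, 9, 10, 11]] [(.mj 10 8, 631), (.rw 9, 1)])
(.ask 3775
(.mark 3775 [6, 8, 12]
(.spn
(.lp [[6], [1, 3, 5, 8], [0, 2, 4, 7, 9, 10, 11, 12]] [(.mj 11 6, 79), (.rw 10, 1)])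
(.lp [[6], [1, 3, 5, 8], [0, 2, 4, 7, 9, 10, 11, 12]] [(.mj 11 8, 241), (.rw 10, 1)])
(.maj 6 8
(.cut 6 [(0, 1), (1, 1), (2, 1), (3, 1), (5, 1), (7, 1), (11, 1), (21, 1), (15, 1), (23, 1), (31, 1), (47, 1), (63, 1), (159, 1), (191, 1)]
(.cut 8 [(0, 1), (1, 1), (2, 1), (3, 1), (5, 1), (7, 1), (11, 1), (21, 1), (15, 1), (23, 1), (85, 1), (31, 1), (47, 1), (87, 1), (63, 1), (95, 1), (159, 1), (223, 1)]
(.cut 6 [(0, 1), (1, 1), (2, 1), (3, 1), (5, 1), (7, 1), (11, 1), (21, 1), (15, 1), (23, 1), (31, 1), (47, 1), (63, 1), (159, 1), (191, 1), (703, 1)]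
(.cut 8 [(0, 1), (1, 1), (2, 1), (3, 1), (5, 1), (7, 1), (11, 1), (21, 1), (15, 1), (23, 1), (85, 1), (31, 1), (47, 1), (87, 1), (63, 1), (95, 1), (159, 1), (191, 1), (223, 1)]
(.cut 6 [(0, 1), (1, 1), (2, 1), (3, 1), (5, 1), (7, 1), (11, 1), (21, 1), (15, 1), (23, 1), (31, 1), (47, 1), (63, 1), (159, 1), (191, 1), (703, 1), (1727, 1)]
(.cut 8 [(0, 1), (1, 1), (2, 1), (3, 1), (5, 1), (7, 1), (11, 1), (21, 1), (15, 1), (23, 1), (85, 1), (31, 1), (47, 1), (87, 1), (63, 1), (95, 1), (159, 1), (127, 1), (191, 1), (223, 1), (255, 1), (703, 1)]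
(.lp [[6], [1, 3, 5, 8], [0, 2, 4, 7, 9, 10, 11, 12]] [(.mj 5 7, 5177), (.mj 12 6, 6078), (.rw 10, 1), (.rw 11, 22), (.rw 12, 1), (.rw 13, 5), (.rw 14, 1), (.rw 15, 5), (.rw 16, 1)])))))))
(.cut 6 [(0, 1), (1, 1), (2, 1), (3, 1), (5, 1), (7, 1), (11, 1), (21, 1), (15, 1), (23, 1), (31, 1), (47, 1), (63, 1), (159, 1), (303, 1), (191, 1)]
(.cut 8 [(0, 1), (1, 1), (2, 1), (3, 1), (5, 1), (7, 1), (11, 1), (21, 1), (15, 1), (23, 1), (31, 1), (47, 1), (63, 1), (159, 1)]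
(.cut 8 [(0, 1), (1, 1), (2, 1), (3, 1), (5, 1), (7, 1), (11, 1), (21, 1), (15, 1), (23, 1), (31, 1), (47, 1), (63, 1), (159, 1), (191, 1)]
(.cut 8 [(0, 1), (1, 1), (2, 1), (3, 1), (5, 1), (7, 1), (11, 1), (21, 1), (15, 1), (23, 1), (31, 1), (47, 1), (63, 1), (159, 1), (191, 1), (703, 1)]
(.cut 6 [(0, 1), (1, 1), (2, 1), (3, 1), (5, 1), (7, 1), (11, 1), (21, 1), (15, 1), (23, 1), (31, 1), (47, 1), (63, 1), (159, 1), (303, 1), (191, 1), (319, 1), (703, 1)]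
(.cut 8 [(0, 1), (1, 1), (2, 1), (3, 1), (5, 1), (7, 1), (11, 1), (21, 1), (15, 1), (23, 1), (31, 1), (47, 1), (63, 1), (159, 1), (191, 1), (703, 1), (1727, 1)]
(.cut 6 [(0, 1), (1, 1), (2, 1), (3, 1), (5, 1), (7, 1), (11, 1), (21, 1), (15, 1), (23, 1), (31, 1), (47, 1), (63, 1), (159, 1), (303, 1), (191, 1), (703, 1), (1727, 1)]
(.lp [[6], [1, 3, 5, 8], [0, 2, 4, 7, 9, 10, 11, 12]] [(.mj 5 7, 35334), (.mj 12 8, 35352), (.rw 10, 9), (.hz 10 303, 9093353), (.rw 11, 36), (.rw 12, 41), (.rw 13, 31), (.rw 14, 31), (.rw 15, 12), (.rw 16, 31), (.rw 17, 9)])))))))))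
.fin))
(.lp [[6], [1, 3, 5, 8], [0, 2, 4, 7, 9, 10, 11]] [(.mj 11 8, 1), (.rw 9, 1)]))
.fin))
(.lp [[6], [1, 3, 5, 8], [0, 2, 4, 7, 9, 10]] [(.mj 10 8, 1), (.rw 8, 1)]))
.fin))
(.lp [[6], [1, 3, 5, 8], [0, 2, 4, 7, 9]] [(.mj 9 8, 1), (.rw 7, 1)]))
.fin))
(.spn
(.lp [[7], [0, 2, 4, 6], [1, 3, 5, 8]] [(.mj 6 8, 3), (.mj 7 6, 5)])
(.ask 303
(.mark 319 [6, 7, 9]
(.cut 6 [(0, 1), (1, 1), (2, 1), (3, 1), (5, 1), (7, 1), (11, 1), (21, 1), (15, 1), (23, 1), (31, 1), (47, 1), (63, 1), (159, 1), (303, 1), (191, 1), (815, 1)]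
(.lp [[7], [0, 2, 4, 6], [1, 3, 5, 8, 9]] [(.mj 7 8, 14455), (.mj 8 6, 6539), (.hz 10 815, 872023), (.rw 8, 8)])))
(.cut 6 [(0, 1), (1, 1), (2, 1), (3, 1), (5, 1), (7, 1), (11, 1), (21, 1), (15, 1), (23, 1), (31, 1), (47, 1), (63, 1), (159, 1), (303, 1), (191, 1)]
(.lp [[7], [0, 2, 4, 6], [1, 3, 5, 8]] [(.mj 7 8, 14455), (.mj 8 6, 6539), (.rw 8, 8)])))
.fin
.fin)))
(.lp [[7], [0, 2, 4, 6], [1, 3, 5, 8]] [(.mj 3 4, 4), (.mj 7 6, 7), (.mj 7 8, 8), (.hz 15 31, 25673), (.hz 14 127, 1871)]))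

theorem run180 : run P3488 (leaf3 218 625) (cutRow P3488) [s168, s173, s179] t180 s180 = true := by
  decide +kernel

theorem bad180 : Bad P3488 s180 :=
  run_sound (leaf3_sound P3488 rfl rfl) (cutRow_sound P3488) (
    List.forall_mem_cons.2 ⟨bad168, List.forall_mem_cons.2 ⟨bad173, List.forall_mem_cons.2 ⟨bad179, fun _ h => absurd h List.not_mem_nil⟩⟩⟩) t180 s180 run180

/-- the state above piece 139 of the tree -/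
def s139 : St := ⟨[0, 0, 1, 3, 5, 11, 15, 21], [31, 15, 11, 7, 5, 3, 2, 1, 0], [0, 1, 2, 3, 4, 6],
  [],
  [⟨true, 2, 3, 3, 10⟩, ⟨true, 1, 5, 2, 5⟩, ⟨true, 2, 3, 23, 50⟩, ⟨true, 1, 5, 12, 25⟩, ⟨true, 1, 21, 27, 50⟩, ⟨true, 4, 15, 9, 40⟩, ⟨true, 3, 23, 11, 20⟩, ⟨true, 4, 79, 7, 25⟩, ⟨true, 6, 63, 6, 25⟩, ⟨true, 4, 15, 17, 50⟩, ⟨true, 3, 151, 29, 50⟩],
  [.spn 0 0 651200, .spn 1 1 302400, .spn 3 2 302400, .spn 7 3 302400, .spn 15 4 140426, .spn 31 6 140426]⟩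

/-- piece 139 of the tree -/
noncomputable def t139 : WN.Tree :=
(.ask 79
(.mark 95 [5, 7, 8]
(.spn
(.haz 7 95 6 25
(.haz 7 31 7 25
(.lp [[5], [0, 2, 4, 7], [1, 3, 6, 8]] [(.mj 0 1, 33), (.mj 4 6, 2), (.mj 5 7, 13), (.mj 6 5, 5), (.hz 4 149, 131), (.hz 12 31, 1685), (.hz 12 63, 2146), (.hz 12 95, 4006), (.hz 9 335, 605), (.hz 12 351, 6121)])
(.lp [[5], [0, 2, 4, 7], [1, 3, 6, 8]] [(.mj 0 1, 915), (.mj 5 7, 103), (.mj 5 8, 2), (.mj 6 5, 35), (.hz 12 21, 9228), (.hz 12 23, 4726), (.hz 10 151, 2476), (.hz 11 95, 23030), (.hz 11 127, 12255), (.hz 11 351, 50466)]))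
(.lp [[5], [0, 2, 4, 7], [1, 3, 6, 8]] [(.mj 0 1, 707663), (.mj 5 8, 5370), (.rw 6, 13), (.hz 11 21, 8141981), (.hz 11 23, 11860704), (.hz 11 31, 9759350), (.hz 11 95, 6994410)]))
(.ref 0)
(.haz 6 47 3 10
(.haz 6 159 7 25
(.haz 7 63 4 25
(.haz 7 95 1 5
(.haz 6 47 2 5
(.ask 43
(.mark 127 [7, 8, 9]
(.lp [[6, 8], [0, 2, 4, 7], [1, 3, 5, 9]] [(.mj 4 6, 15), (.mj 8 5, 1), (.mj 8 7, 9), (.hz 15 47, 20040), (.hz 2 555, 456), (.hz 13 63, 2441), (.hz 14 95, 11863), (.hz 15 559, 15535), (.hz 14 127, 47258), (.hz 13 575, 5619)]))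
(.lp [[5], [0, 2, 4, 7], [1, 3, 6, 8]] [(.mj 4 6, 472), (.mj 8 5, 49), (.mj 8 7, 280), (.hz 15 47, 603482), (.hz 15 63, 292717), (.hz 13 63, 128911), (.hz 14 95, 368904), (.hz 14 127, 1638602)]))
(.lp [[5], [0, 2, 4, 7], [1, 3, 6, 8]] [(.mj 0 1, 5), (.mj 8 5, 1), (.mj 8 7, 2), (.hz 15 15, 2227), (.hz 4 149, 19), (.hz 9 47, 76), (.hz 11 47, 700), (.hz 11 63, 1716), (.hz 13 63, 1090), (.hz 14 95, 2543), (.hz 14 127, 13314)]))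
(.lp [[5], [0, 2, 4, 7], [1, 3, 6, 8]] [(.mj 0 1, 23), (.mj 4 6, 1), (.hz 14 21, 1339), (.hz 14 23, 2088), (.hz 14 31, 2097), (.hz 11 47, 1577), (.hz 14 95, 1165)]))
(.lp [[5], [0, 2, 4, 7], [1, 3, 6, 8]] [(.mj 0 1, 1), (.hz 13 21, 11), (.hz 13 23, 15), (.hz 13 31, 19)]))
(.lp [[5], [0, 2, 4, 7], [1, 3, 6, 8]] [(.mj 8 5, 1), (.mj 8 7, 1), (.hz 12 15, 313), (.hz 11 47, 593), (.hz 11 63, 456)]))
(.lp [[5], [0, 2, 4, 7], [1, 3, 6, 8]] [(.mj 0 1, 26), (.mj 8 5, 29), (.mj 8 7, 30), (.hz 11 15, 21867), (.hz 9 47, 1214), (.hz 8 63, 13754)]))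
.fin))
(.ask 95
(.mark 95 [5, 7, 8]
(.spn
(.haz 7 95 9 50
(.haz 7 31 7 25
(.lp [[5], [0, 2, 4, 7], [1, 3, 6, 8]] [(.mj 0 1, 19), (.mj 4 6, 2), (.mj 5 7, 10), (.mj 6 5, 5), (.hz 4 149, 75), (.hz 12 31, 967), (.hz 12 63, 2803), (.hz 12 95, 2402), (.hz 12 351, 3336)])
(.haz 7 95 1 5
(.haz 3 151 33 50
(.haz 7 23 13 50
(.lp [[5], [0, 2, 4, 7], [1, 3, 6, 8]] [(.mj 0 1, 46), (.mj 5 7, 11), (.mj 6 5, 5), (.hz 12 21, 375), (.hz 15 31, 597), (.hz 14 151, 23), (.hz 15 63, 1430), (.hz 15 95, 1486), (.hz 15 351, 2007)])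
(.haz 5 159 1 5
(.ask 149
(.haz 9 223 11 50
(.haz 7 31 11 50
(.mark 159 [5, 6, 9]
(.lp [[5], [1, 3, 6, 8], [0, 2, 4, 7, 9]] [(.mj 0 1, 636), (.mj 5 7, 80), (.mj 6 5, 17), (.hz 15 21, 2976), (.hz 18 63, 4842), (.hz 18 95, 12510), (.hz 14 663, 2476), (.hz 18 351, 13964), (.hz 16 671, 42885)]))
(.mark 159 [5, 6, 9]
(.lp [[5], [1, 3, 6, 8], [0, 2, 4, 7, 9]] [(.mj 0 1, 416), (.mj 5 7, 21), (.mj 5 8, 8), (.mj 6 5, 9), (.hz 18 21, 2209), (.hz 18 23, 3121), (.hz 16 159, 8172), (.hz 13 351, 75596), (.hz 16 671, 21382), (.hz 17 479, 4902)])))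
(.mark 159 [5, 6, 9]
(.lp [[5], [1, 3, 6, 8], [0, 2, 4, 7, 9]] [(.mj 0 1, 257), (.mj 5 7, 28), (.mj 5 8, 1), (.mj 6 5, 6), (.hz 17 149, 1184), (.hz 17 151, 2140), (.hz 13 95, 26593), (.hz 17 159, 702), (.hz 13 351, 52855), (.hz 16 671, 14038)])))
(.lp [[5], [0, 2, 4, 7], [1, 3, 6, 8]] [(.mj 0 1, 1014), (.mj 5 7, 128), (.mj 6 5, 28), (.hz 14 151, 7407), (.hz 13 95, 177596), (.hz 16 159, 49530), (.hz 13 351, 224805)]))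
(.lp [[5], [0, 2, 4, 7], [1, 3, 6, 8]] [(.mj 0 1, 10902), (.mj 5 7, 1745), (.mj 5 8, 376), (.hz 15 21, 47261), (.hz 16 31, 2883786), (.hz 14 151, 24100), (.hz 13 95, 1522281), (.hz 13 127, 1275660), (.hz 13 351, 4367612)])))
(.lp [[5], [0, 2, 4, 7], [1, 3, 6, 8]] [(.mj 0 1, 1), (.hz 12 21, 13), (.hz 14 23, 195), (.hz 12 23, 382), (.hz 9 47, 1), (.hz 10 151, 1)]))
(.lp [[5], [0, 2, 4, 7], [1, 3, 6, 8]] [(.mj 0 1, 46), (.mj 5 8, 2), (.mj 6 5, 1), (.hz 13 21, 2679), (.hz 13 23, 4181), (.hz 13 31, 4210), (.hz 13 95, 4246), (.hz 11 127, 168), (.hz 11 351, 624)])))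
(.lp [[5], [0, 2, 4, 7], [1, 3, 6, 8]] [(.mj 0 1, 1051), (.mj 5 8, 26), (.hz 11 21, 5728), (.hz 11 23, 8148), (.hz 11 31, 6534), (.hz 11 95, 4565)]))
(.haz 5 95 1 5
(.lp [[5], [0, 2, 4, 7], [1, 3, 6, 8]] [(.mj 3 4, 3), (.mj 7 5, 2), (.hz 11 95, 5292), (.hz 11 223, 2311), (.hz 11 351, 3791)])
(.haz 5 351 1 20
(.haz 5 351 1 10
(.haz 5 223 1 10
(.haz 4 47 2 5
(.ask 149
(.mark 223 [5, 8, 9]
(.spn
(.lp [[5], [1, 3, 6, 8], [0, 2, 4, 7, 9]] [(.mj 3 4, 87567), (.mj 5 8, 16874), (.mj 7 5, 33339), (.rw 6, 14), (.hz 11 11, 3633693), (.hz 15 47, 19985309), (.hz 11 79, 9992655), (.hz 13 351, 44158012), (.hz 14 735, 40064478)])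
(.haz 4 111 27 40
(.ask 351
(.mark 479 [5, 9, 10]
(.lp [[5], [0, 2, 4, 7, 9], [1, 3, 6, 8, 10]] [(.mj 3 4, 453), (.mj 7 8, 177), (.mj 8 5, 218), (.hz 11 11, 24334), (.hz 15 47, 133838), (.hz 16 111, 9914), (.hz 14 223, 384783), (.hz 13 351, 520376), (.hz 14 735, 1286884), (.hz 13 1375, 62397)]))
(.ask 479
(.mark 479 [5, 9, 10]
(.spn
(.lp [[5], [0, 2, 4, 7, 9], [1, 3, 6, 8, 10]] [(.mj 3 4, 3688), (.mj 5 10, 355), (.mj 8 5, 1430), (.rw 8, 1), (.hz 11 11, 123416), (.hz 15 47, 678786), (.hz 16 111, 50280)])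
(.lp [[5], [0, 2, 4, 7, 9], [1, 3, 6, 8, 10]] [(.mj 3 4, 6), (.mj 9 5, 2), (.hz 11 11, 334), (.hz 11 15, 5), (.hz 15 47, 1827), (.hz 16 111, 136), (.hz 14 223, 6195), (.hz 13 351, 606), (.hz 13 479, 4762)])
(.lp [[5], [0, 2, 4, 7, 9], [1, 3, 6, 8, 10]] [(.mj 3 4, 5), (.mj 10 5, 2), (.hz 2 43, 35), (.hz 15 47, 1879), (.hz 16 111, 74), (.hz 14 223, 6567), (.hz 13 351, 1310), (.hz 13 479, 5145)])
.fin))
(.lp [[5], [1, 3, 6, 8], [0, 2, 4, 7, 9]] [(.mj 3 4, 3), (.mj 7 5, 1), (.hz 11 11, 179), (.hz 11 15, 3), (.hz 15 47, 978), (.hz 16 111, 73)])))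
(.lp [[5], [1, 3, 6, 8], [0, 2, 4, 7, 9]] [(.mj 3 4, 1), (.hz 11 11, 119), (.hz 11 15, 328), (.hz 16 79, 801), (.hz 11 79, 5489), (.hz 15 111, 657)]))
(.lp [[5], [1, 3, 6, 8], [0, 2, 4, 7, 9]] [(.mj 3 4, 5312), (.mj 9 5, 1820), (.mj 9 8, 877), (.rw 6, 1), (.hz 11 11, 285597), (.hz 15 47, 1570786), (.hz 11 79, 349063), (.hz 15 111, 872659), (.hz 14 223, 3811200), (.hz 13 351, 3893558)])
.fin))
(.ref 1))
(.lp [[5], [0, 2, 4, 7], [1, 3, 6, 8]] [(.mj 0 1, 154), (.rw 6, 1), (.hz 15 15, 4049945), (.hz 11 15, 1023865), (.hz 4 149, 610), (.hz 9 47, 225336), (.hz 11 79, 2253356)]))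
(.lp [[5], [0, 2, 4, 7], [1, 3, 6, 8]] [(.mj 3 4, 60), (.mj 7 8, 10), (.hz 14 11, 3408), (.hz 14 15, 8898), (.hz 14 31, 42), (.hz 14 79, 9886), (.hz 14 95, 11032), (.hz 13 351, 25458)]))
(.cut 5 [(0, 1), (1, 1), (2, 1), (3, 1), (5, 1), (7, 1), (11, 1), (21, 1), (15, 1), (23, 1), (149, 1), (31, 1), (79, 1), (151, 1), (95, 1)]
(.lp [[5], [0, 2, 4, 7], [1, 3, 6, 8]] [(.mj 3 4, 19729), (.mj 7 8, 3697), (.hz 13 11, 1120966), (.hz 13 15, 2926966), (.hz 13 31, 13958), (.hz 13 79, 3252184), (.hz 13 95, 3629047), (.hz 12 351, 3944616), (.rw 7, 1)])))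
(.lp [[5], [0, 2, 4, 7], [1, 3, 6, 8]] [(.mj 3 4, 6), (.mj 7 8, 1), (.hz 12 11, 172), (.hz 12 15, 964)])))
(.ask 351
(.mark 351 [5, 7, 9]
(.spn
(.lp [[5], [0, 2, 4, 7], [1, 3, 6, 8, 9]] [(.mj 8 5, 627), (.rw 7, 1)])
(.ask 149
(.mark 159 [5, 6, 10]
(.cut 5 [(0, 1), (1, 1), (2, 1), (3, 1), (5, 1), (7, 1), (11, 1), (21, 1), (15, 1), (23, 1), (149, 1), (31, 1), (79, 1), (151, 1), (1173, 1), (95, 1), (1175, 1), (351, 1)]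
(.lp [[5], [0, 2, 4, 7, 10], [1, 3, 6, 8, 9]] [(.mj 0 1, 11744), (.mj 7 5, 2727), (.mj 7 9, 2937), (.mj 8 7, 8004), (.rw 7, 4), (.hz 4 1173, 314813), (.hz 10 1175, 1755195), (.hz 8 191, 1599997), (.hz 8 1215, 8459880), (.rw 8, 9)])))
(.ask 151
(.mark 159 [5, 6, 10]
(.cut 5 [(0, 1), (1, 1), (2, 1), (3, 1), (5, 1), (7, 1), (11, 1), (21, 1), (15, 1), (23, 1), (149, 1), (31, 1), (79, 1), (151, 1), (95, 1), (1175, 1), (351, 1)]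
(.lp [[5], [0, 2, 4, 7, 10], [1, 3, 6, 8, 9]] [(.mj 0 1, 42133), (.mj 7 5, 3378), (.mj 7 9, 4131), (.mj 8 7, 11702), (.rw 7, 5), (.hz 10 1175, 2042030), (.hz 8 191, 2866248), (.hz 8 1215, 10364674), (.rw 8, 12)])))
(.cut 5 [(0, 1), (1, 1), (2, 1), (3, 1), (5, 1), (7, 1), (11, 1), (21, 1), (15, 1), (23, 1), (149, 1), (31, 1), (79, 1), (151, 1), (95, 1), (159, 1), (223, 1), (351, 1)]
(.cut 5 [(0, 1), (1, 1), (2, 1), (3, 1), (5, 1), (7, 1), (11, 1), (21, 1), (15, 1), (23, 1), (149, 1), (31, 1), (79, 1), (151, 1), (95, 1), (351, 1)]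
(.lp [[5], [0, 2, 4, 7], [1, 3, 6, 8, 9]] [(.mj 0 1, 19926), (.mj 7 5, 1671), (.mj 7 9, 2027), (.mj 8 7, 5306), (.rw 7, 2), (.rw 8, 1), (.rw 9, 5)])))))
(.ask 863
(.mark 863 [5, 7, 10]
(.spn
(.lp [[5], [0, 2, 4, 7], [1, 3, 6, 8, 9, 10]] [(.mj 9 5, 213), (.rw 8, 1)])
(.lp [[5], [0, 2, 4, 7], [1, 3, 6, 8, 9, 10]] [(.mj 9 7, 627), (.rw 8, 1)])
(.haz 7 95 3 25
(.cut 5 [(0, 1), (1, 1), (2, 1), (3, 1), (5, 1), (7, 1), (11, 1), (21, 1), (15, 1), (23, 1), (149, 1), (31, 1), (79, 1), (151, 1), (95, 1)]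
(.lp [[5], [0, 2, 4, 7], [1, 3, 6, 8, 9, 10]] [(.mj 0 1, 449617), (.mj 10 7, 74167), (.rw 8, 8), (.hz 4 149, 3225679), (.hz 10 151, 7884358), (.hz 8 63, 11035640), (.hz 11 95, 23671503), (.hz 11 127, 80740411), (.hz 11 351, 26899435), (.hz 11 383, 103834065), (.hz 11 863, 30567540), (.rw 9, 24)]))
(.cut 5 [(0, 1), (1, 1), (2, 1), (3, 1), (5, 1), (7, 1), (11, 1), (21, 1), (15, 1), (23, 1), (149, 1), (31, 1), (79, 1), (151, 1), (95, 1)]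
(.lp [[5], [0, 2, 4, 7], [1, 3, 6, 8, 9, 10]] [(.mj 0 1, 43729), (.hz 11 21, 476028), (.hz 11 23, 726727), (.hz 11 31, 91922), (.hz 8 63, 914040), (.rw 9, 1)])))
.fin))
(.lp [[5], [0, 2, 4, 7], [1, 3, 6, 8, 9]] [(.mj 9 7, 1), (.rw 7, 1)]))
.fin))
(.lp [[5], [0, 2, 4, 7], [1, 3, 6, 8]] [(.mj 8 7, 1), (.rw 6, 1)]))
.fin))
(.spn
(.lp [[6], [1, 3, 5], [0, 2, 4, 7]] [(.mj 5 7, 5), (.mj 6 5, 9)])
(.cut 5 [(0, 1), (1, 1), (2, 1), (3, 1), (5, 1), (7, 1), (11, 1), (21, 1), (15, 1), (23, 1), (149, 1), (31, 1), (79, 1), (151, 1), (95, 1)]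
(.lp [[6], [1, 3, 5], [0, 2, 4, 7]] [(.mj 3 4, 182), (.mj 6 7, 1509), (.rw 6, 1), (.hz 2 43, 1083), (.hz 9 47, 6845), (.hz 9 111, 3662), (.rw 7, 1)]))
.fin
.fin)))

theorem run139 : run P3488 (leaf3 218 625) (cutRow P3488) [s137, s138] t139 s139 = true := by
  decide +kernel

theorem bad139 : Bad P3488 s139 :=
  run_sound (leaf3_sound P3488 rfl rfl) (cutRow_sound P3488) (
    List.forall_mem_cons.2 ⟨bad137, List.forall_mem_cons.2 ⟨bad138, fun _ h => absurd h List.not_mem_nil⟩⟩) t139 s139 run139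

/-- the state above piece 106 of the tree -/
def s106 : St := ⟨[0, 0, 1, 3, 5, 5, 15], [15, 11, 7, 3, 2, 1, 0], [0, 1, 2, 3, 4],
  [],
  [⟨true, 2, 3, 3, 10⟩, ⟨true, 1, 5, 2, 5⟩, ⟨true, 2, 3, 23, 50⟩, ⟨true, 1, 5, 12, 25⟩, ⟨true, 2, 11, 12, 25⟩, ⟨true, 5, 31, 3, 50⟩, ⟨true, 3, 39, 21, 50⟩],
  [.spn 0 0 651200, .spn 1 1 302400, .spn 3 2 302400, .spn 7 3 140426, .spn 15 4 140426]⟩

/-- piece 106 of the tree -/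
noncomputable def t106 : WN.Tree :=
(.ask 21
(.mark 31 [5, 6, 7]
(.spn
(.haz 6 31 17 50
(.lp [[5], [1, 3, 6], [0, 2, 4, 7]] [(.mj 1 2, 8), (.mj 4 5, 2), (.mj 5 6, 3), (.hz 7 31, 188), (.hz 7 63, 138), (.hz 7 159, 545)])
(.lp [[5], [1, 3, 6], [0, 2, 4, 7]] [(.mj 1 2, 12427), (.mj 4 5, 1293), (.rw 5, 1), (.hz 7 15, 217217), (.hz 7 31, 220457), (.hz 5 159, 885733)]))
(.haz 6 191 13 50
(.haz 5 15 3 50
(.haz 1 37 14 25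
(.ask 79
(.ref 0)
(.ask 95
(.mark 95 [5, 7, 8]
(.spn
(.haz 8 223 17 50
(.haz 5 31 4 25
(.lp [[5], [0, 2, 4, 7], [1, 3, 6, 8]] [(.mj 1 2, 14), (.mj 3 4, 29), (.mj 4 6, 13), (.mj 5 8, 18), (.mj 6 5, 33), (.hz 11 31, 5567), (.hz 11 159, 34576), (.hz 10 223, 6274)])
(.haz 5 31 7 50
(.lp [[5], [0, 2, 4, 7], [1, 3, 6, 8]] [(.mj 3 4, 51), (.mj 5 8, 33), (.mj 6 5, 46), (.hz 11 15, 8414), (.hz 12 31, 6977), (.hz 12 159, 27212), (.hz 10 223, 11640)])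
(.lp [[5], [0, 2, 4, 7], [1, 3, 6, 8]] [(.mj 1 2, 302), (.mj 3 4, 318), (.mj 5 7, 26), (.mj 5 8, 218), (.hz 12 7, 8771), (.hz 12 15, 45319), (.hz 5 159, 100357), (.hz 10 223, 80865)])))
(.lp [[5], [0, 2, 4, 7], [1, 3, 6, 8]] [(.mj 3 4, 2), (.mj 5 7, 6), (.mj 6 5, 10), (.hz 10 95, 1563), (.hz 5 159, 5463)]))
(.cut 5 [(0, 1), (1, 1), (2, 1), (3, 1), (5, 1), (7, 1), (11, 1), (21, 1), (15, 1), (23, 1), (31, 1), (79, 1), (95, 1)]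
(.lp [[5], [0, 2, 4, 7], [1, 3, 6, 8]] [(.mj 3 4, 945), (.mj 7 5, 439), (.mj 7 8, 137), (.hz 5 351, 91885), (.rw 7, 1)]))
(.ask 351
(.mark 351 [5, 7, 9]
(.spn
(.lp [[5], [0, 2, 4, 7], [1, 3, 6, 8, 9]] [(.mj 8 5, 213), (.rw 7, 1)])
(.lp [[5], [0, 2, 4, 7], [1, 3, 6, 8, 9]] [(.mj 8 7, 2554), (.rw 7, 4), (.hz 5 159, 2037468), (.hz 5 223, 2982506)])
(.ask 863
(.mark 863 [5, 7, 10]
(.spn
(.lp [[5], [0, 2, 4, 7], [1, 3, 6, 8, 9, 10]] [(.mj 9 5, 129), (.rw 8, 1)])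
(.lp [[5], [0, 2, 4, 7], [1, 3, 6, 8, 9, 10]] [(.mj 9 7, 627), (.rw 8, 1)])
(.cut 5 [(0, 1), (1, 1), (2, 1), (3, 1), (5, 1), (7, 1), (11, 1), (21, 1), (15, 1), (23, 1), (31, 1), (79, 1)]
(.cut 5 [(0, 1), (1, 1), (2, 1), (3, 1), (5, 1), (7, 1), (11, 1), (21, 1), (15, 1), (23, 1), (31, 1), (79, 1), (95, 1)]
(.cut 5 [(0, 1), (1, 1), (2, 1), (3, 1), (5, 1), (7, 1), (11, 1), (21, 1), (15, 1), (23, 1), (149, 1), (31, 1), (79, 1), (151, 2), (95, 1), (159, 2), (223, 1), (351, 1)]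
(.cut 7 [(0, 1), (1, 1), (2, 1), (3, 1), (5, 1), (7, 1), (11, 1), (21, 1), (37, 1), (15, 1), (23, 1), (39, 1), (53, 1), (31, 1), (47, 1), (55, 1), (79, 1), (63, 1), (95, 1), (111, 1), (127, 1)]
(.cut 5 [(0, 1), (1, 1), (2, 1), (3, 1), (5, 1), (7, 1), (11, 1), (21, 1), (15, 1), (23, 1), (149, 2), (31, 1), (79, 1), (151, 1), (95, 1), (159, 1), (351, 1)]
(.cut 7 [(0, 1), (1, 1), (2, 1), (3, 1), (5, 1), (7, 1), (11, 1), (21, 1), (37, 1), (15, 1), (23, 1), (39, 1), (53, 1), (31, 1), (47, 1), (55, 1), (79, 1), (63, 1), (95, 1), (111, 1), (127, 1), (351, 1)]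
(.lp [[5], [0, 2, 4, 7], [1, 3, 6, 8, 9, 10]] [(.mj 3 4, 85396), (.mj 10 5, 137155), (.rw 8, 3), (.hz 9 181, 5830925), (.hz 6 183, 3228696), (.hz 5 223, 23443319), (.hz 5 863, 16480202), (.hz 5 991, 96008167), (.rw 9, 166), (.rw 10, 266), (.rw 11, 11), (.rw 12, 22), (.rw 13, 18), (.rw 14, 23)])))))))
.fin))
(.lp [[5], [0, 2, 4, 7], [1, 3, 6, 8, 9]] [(.mj 9 7, 1), (.rw 7, 1)]))
.fin))
(.lp [[5], [0, 2, 4, 7], [1, 3, 6, 8]] [(.mj 8 7, 1), (.rw 6, 1)]))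
.fin))
(.lp [[5], [1, 3, 6], [0, 2, 4, 7]] [(.mj 1 2, 78), (.mj 4 5, 4), (.mj 4 6, 4), (.hz 5 31, 852), (.hz 5 159, 7361)])))
(.lp [[5], [1, 3, 6], [0, 2, 4, 7]] [(.mj 1 2, 26), (.mj 4 6, 1), (.hz 9 5, 942), (.hz 3 37, 240), (.hz 3 53, 240), (.hz 3 149, 240), (.hz 8 79, 94)]))
(.cut 5 [(0, 1), (1, 1), (2, 1), (3, 1), (5, 1), (7, 1), (11, 1), (21, 1), (15, 1), (23, 1), (31, 1)]
(.lp [[5], [1, 3, 6], [0, 2, 4, 7]] [(.hz 8 5, 41215), (.hz 8 7, 82429), (.hz 8 15, 82429), (.rw 6, 2)])))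
(.lp [[5], [1, 3, 6], [0, 2, 4, 7]] [(.mj 1 2, 1862), (.mj 6 7, 192), (.rw 5, 1), (.hz 7 15, 17546), (.hz 7 31, 258235)]))
(.cut 5 [(0, 1), (1, 1), (2, 1), (3, 1), (5, 1), (7, 1), (11, 1), (21, 1), (15, 1), (23, 1), (31, 1)]
(.lp [[5], [1, 3, 6], [0, 2, 4, 7]] [(.mj 1 2, 109048), (.mj 7 5, 10798), (.mj 7 6, 25338), (.hz 5 31, 1204617), (.rw 6, 35)]))
.fin))
(.haz 4 79 1 10
(.haz 4 79 3 20
(.haz 4 79 1 5
(.ask 23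
(.mark 31 [5, 6, 7]
(.spn
(.haz 6 159 7 50
(.haz 6 31 8 25
(.lp [[5], [1, 3, 6], [0, 2, 4, 7]] [(.mj 1 2, 61214), (.mj 4 5, 10202), (.mj 5 6, 18364), (.rw 4, 2), (.rw 5, 3), (.hz 11 31, 2053744), (.hz 11 63, 1275301), (.hz 5 159, 1402831), (.hz 11 159, 5968406)])
(.ask 37
(.mark 63 [6, 7, 8]
(.lp [[5, 8], [1, 3, 6], [0, 2, 4, 7]] [(.mj 1 2, 4065), (.mj 3 4, 1996), (.mj 4 5, 970), (.rw 5, 1), (.hz 11 15, 298872), (.hz 11 31, 205731), (.hz 5 159, 389642)]))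
(.haz 5 31 6 25
(.lp [[5], [1, 3, 6], [0, 2, 4, 7]] [(.mj 1 2, 8), (.mj 4 5, 1), (.hz 11 15, 298), (.hz 12 31, 292), (.hz 11 31, 182), (.hz 12 95, 124), (.hz 12 159, 578)])
(.lp [[5], [1, 3, 6], [0, 2, 4, 7]] [(.mj 1 2, 5153), (.mj 3 4, 2381), (.rw 5, 1), (.hz 12 15, 439202), (.hz 11 15, 439202), (.hz 11 31, 295789), (.hz 5 159, 481031)]))))
(.lp [[5], [1, 3, 6], [0, 2, 4, 7]] [(.mj 1 2, 163), (.mj 4 5, 8), (.hz 10 15, 1999), (.hz 10 31, 1075)]))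
(.ask 79
(.ref 1)
(.haz 4 47 3 10
(.ask 95
(.mark 95 [5, 7, 8]
(.spn
(.haz 8 223 7 20
(.haz 5 95 1 4
(.lp [[5], [0, 2, 4, 7], [1, 3, 6, 8]] [(.mj 3 4, 14), (.mj 5 8, 2), (.mj 6 5, 19), (.hz 12 95, 54834), (.hz 5 159, 10977), (.hz 12 223, 6410), (.hz 11 223, 1902)])
(.haz 5 31 3 20
(.lp [[5], [0, 2, 4, 7], [1, 3, 6, 8]] [(.mj 3 4, 32), (.mj 5 8, 22), (.mj 6 5, 37), (.hz 13 31, 10332), (.hz 12 79, 24159), (.hz 13 159, 44373), (.hz 11 223, 18783)])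
(.ask 37
(.mark 127 [7, 8, 9]
(.lp [[5, 9], [0, 2, 4, 7], [1, 3, 6, 8]] [(.mj 3 4, 117), (.mj 5 8, 41), (.hz 13 15, 27656), (.hz 3 549, 2872), (.hz 13 31, 670), (.hz 6 551, 9982), (.hz 5 159, 22172), (.hz 10 559, 144764), (.hz 11 223, 34602)]))
(.ask 39
(.mark 127 [7, 8, 9]
(.lp [[5, 9], [0, 2, 4, 7], [1, 3, 6, 8]] [(.mj 3 4, 35), (.mj 5 8, 12), (.hz 13 15, 6931), (.hz 13 31, 2276), (.hz 6 551, 1968), (.hz 5 159, 6988), (.hz 10 559, 40411), (.hz 11 223, 10169)]))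
(.haz 8 223 9 20
(.lp [[5], [0, 2, 4, 7], [1, 3, 6, 8]] [(.mj 3 4, 18), (.mj 5 7, 1), (.mj 5 8, 10), (.hz 13 15, 6490), (.hz 13 31, 1212), (.hz 5 159, 3161), (.hz 14 223, 8904)])
(.lp [[5], [0, 2, 4, 7], [1, 3, 6, 8]] [(.mj 3 4, 12), (.mj 5 7, 2), (.hz 13 15, 3172), (.hz 14 95, 3036), (.hz 5 159, 3255), (.hz 11 223, 914)]))))))
(.lp [[5], [0, 2, 4, 7], [1, 3, 6, 8]] [(.mj 3 4, 2), (.mj 5 7, 7), (.mj 6 5, 11), (.hz 11 95, 4346), (.hz 5 159, 5443)]))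
(.cut 5 [(0, 1), (1, 1), (2, 1), (3, 1), (5, 1), (7, 1), (11, 1), (21, 1), (15, 1), (23, 1), (31, 1), (79, 1), (95, 1)]
(.lp [[5], [0, 2, 4, 7], [1, 3, 6, 8]] [(.mj 3 4, 7509), (.mj 7 5, 3337), (.mj 7 8, 958), (.hz 5 351, 683410), (.rw 7, 8)]))
(.ask 351
(.mark 351 [5, 7, 9]
(.spn
(.lp [[5], [0, 2, 4, 7], [1, 3, 6, 8, 9]] [(.mj 8 5, 213), (.rw 7, 1)])
(.lp [[5], [0, 2, 4, 7], [1, 3, 6, 8, 9]] [(.mj 8 7, 8102), (.rw 7, 13), (.hz 5 159, 5925715), (.hz 5 223, 9320681)])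
(.ask 863
(.mark 863 [5, 7, 10]
(.spn
(.lp [[5], [0, 2, 4, 7], [1, 3, 6, 8, 9, 10]] [(.mj 9 5, 129), (.rw 8, 1)])
(.lp [[5], [0, 2, 4, 7], [1, 3, 6, 8, 9, 10]] [(.mj 9 7, 485), (.rw 8, 1)])
(.cut 5 [(0, 1), (1, 1), (2, 1), (3, 1), (5, 1), (7, 1), (11, 1), (21, 1), (15, 1), (23, 1), (31, 1), (79, 1)]
(.cut 5 [(0, 1), (1, 1), (2, 1), (3, 1), (5, 1), (7, 1), (11, 1), (21, 1), (15, 1), (23, 1), (31, 1), (79, 1), (151, 2), (159, 1)]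
(.cut 7 [(0, 1), (1, 1), (2, 1), (3, 1), (5, 1), (7, 1), (11, 1), (21, 1), (37, 1), (15, 1), (23, 1), (39, 1), (53, 1), (31, 1), (47, 1), (55, 1), (79, 1), (63, 1), (95, 1), (111, 1), (127, 1)]
(.cut 5 [(0, 1), (1, 1), (2, 1), (3, 1), (5, 1), (7, 1), (11, 1), (21, 1), (15, 1), (23, 1), (31, 1), (79, 1), (95, 1)]
(.cut 5 [(0, 1), (1, 1), (2, 1), (3, 1), (5, 1), (7, 1), (11, 1), (21, 1), (15, 1), (23, 1), (31, 1), (79, 1), (151, 1), (95, 1), (351, 1)]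
(.cut 7 [(0, 1), (1, 1), (2, 1), (3, 1), (5, 1), (7, 1), (11, 1), (21, 1), (37, 1), (15, 1), (23, 1), (39, 1), (53, 1), (31, 1), (47, 1), (55, 1), (79, 1), (63, 1), (95, 1), (111, 1), (351, 1)]
(.lp [[5], [0, 2, 4, 7], [1, 3, 6, 8, 9, 10]] [(.mj 3 4, 25470), (.mj 10 5, 56036), (.hz 6 183, 391603), (.hz 5 351, 2890078), (.hz 5 479, 19993481), (.hz 5 863, 7229801), (.hz 5 991, 38525074), (.rw 9, 117), (.rw 10, 3), (.rw 11, 3), (.rw 12, 37), (.rw 13, 9), (.rw 14, 8)])))))))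
.fin))
(.lp [[5], [0, 2, 4, 7], [1, 3, 6, 8, 9]] [(.mj 9 7, 1), (.rw 7, 1)]))
.fin))
(.lp [[5], [0, 2, 4, 7], [1, 3, 6, 8]] [(.mj 8 7, 1), (.rw 6, 1)]))
.fin))
(.lp [[5], [1, 3, 6], [0, 2, 4, 7]] [(.mj 1 2, 14), (.mj 3 4, 22), (.mj 6 5, 9), (.hz 10 47, 17390), (.hz 5 159, 7088)]))
(.lp [[5], [1, 3, 6], [0, 2, 4, 7]] [(.mj 4 5, 1), (.hz 10 7, 128), (.hz 10 15, 754), (.hz 5 31, 1), (.hz 9 111, 963)])))
(.cut 5 [(0, 1), (1, 1), (2, 1), (3, 1), (5, 1), (7, 1), (11, 1), (15, 1)]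
(.cut 5 [(0, 1), (1, 1), (2, 1), (3, 1), (5, 1), (7, 1), (11, 1), (21, 1), (15, 1), (23, 1), (31, 1)]
(.lp [[5], [1, 3, 6], [0, 2, 4, 7]] [(.mj 3 4, 27106), (.mj 7 5, 16681), (.mj 7 6, 13172), (.hz 9 79, 10964251), (.hz 5 95, 2263789), (.hz 9 111, 40185605), (.rw 6, 26), (.rw 7, 7)])))
.fin))
(.ref 2))
(.lp [[5], [0, 2, 4], [1, 3, 6]] [(.mj 0 1, 1268), (.mj 4 5, 317), (.mj 4 6, 571), (.rw 4, 2), (.hz 9 15, 2377140), (.hz 3 53, 16508), (.hz 5 31, 7594)]))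
(.lp [[5], [0, 2, 4], [1, 3, 6]] [(.mj 4 5, 484), (.mj 4 6, 644), (.rw 4, 1), (.hz 8 7, 35603), (.hz 8 15, 382734)]))
(.lp [[5], [0, 2, 4], [1, 3, 6]] [(.mj 4 5, 1), (.mj 4 6, 1), (.hz 7 5, 60), (.hz 7 7, 208), (.hz 7 15, 356)])))

theorem run106 : run P3488 (leaf3 218 625) (cutRow P3488) [s97, s99, s105] t106 s106 = true := by
  decide +kernel

theorem bad106 : Bad P3488 s106 :=
  run_sound (leaf3_sound P3488 rfl rfl) (cutRow_sound P3488) (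
    List.forall_mem_cons.2 ⟨bad97, List.forall_mem_cons.2 ⟨bad99, List.forall_mem_cons.2 ⟨bad105, fun _ h => absurd h List.not_mem_nil⟩⟩⟩) t106 s106 run106

/-- the state above piece 190 of the tree -/
def s190 : St := ⟨[0, 0, 1, 3, 5, 15, 21, 47, 47], [85, 63, 31, 23, 21, 15, 11, 7, 5, 3, 2, 1, 0], [0, 1, 2, 3, 4, 5, 6],
  [(5, 6), (4, 5)],
  [⟨true, 2, 3, 3, 10⟩, ⟨true, 1, 5, 2, 5⟩, ⟨true, 2, 3, 23, 50⟩, ⟨true, 1, 5, 12, 25⟩, ⟨true, 1, 21, 27, 50⟩, ⟨true, 4, 15, 9, 40⟩, ⟨true, 3, 23, 11, 20⟩, ⟨true, 4, 47, 7, 20⟩, ⟨true, 4, 47, 17, 40⟩, ⟨true, 4, 47, 9, 20⟩, ⟨true, 4, 47, 19, 40⟩, ⟨true, 3, 87, 27, 40⟩, ⟨true, 5, 95, 1, 4⟩, ⟨true, 7, 383, 1, 20⟩, ⟨true, 6, 191, 11, 40⟩, ⟨true, 8, 255, 3, 40⟩, ⟨true, 7, 303, 3, 40⟩],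
  [.spn 0 0 651200, .spn 1 1 302400, .spn 3 2 302400, .spn 7 3 302400, .spn 15 4 302400, .spn 31 5 302400, .spn 63 6 140426]⟩

/-- piece 190 of the tree -/
noncomputable def t190 : WN.Tree :=
(.ask 87
(.mark 127 [7, 8, 9]
(.spn
(.ask 175
(.mark 255 [8, 9, 10]
(.lp [[8], [0, 2, 4, 6, 9], [1, 3, 5, 7, 10]] [(.mj 3 4, 345), (.mj 7 8, 37), (.rw 4, 1)]))
(.haz 7 319 11 40
(.ask 191
(.mark 255 [8, 9, 10]
(.lp [[8], [0, 2, 4, 6, 9], [1, 3, 5, 7, 10]] [(.mj 3 4, 4281), (.mj 6 7, 1477), (.mj 7 8, 517), (.rw 4, 4), (.hz 17 319, 633086)]))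
(.ask 255
(.mark 255 [8, 9, 10]
(.spn
(.ask 303
(.mark 383 [7, 9, 11]
(.lp [[8, 11], [0, 2, 4, 6, 9], [1, 3, 5, 7, 10]] [(.mj 3 4, 345), (.mj 8 10, 37), (.rw 4, 1)]))
(.ask 319
(.mark 383 [7, 9, 11]
(.lp [[8, 11], [0, 2, 4, 6, 9], [1, 3, 5, 7, 10]] [(.mj 3 4, 1394), (.mj 6 7, 59), (.mj 8 10, 136), (.rw 4, 4), (.hz 17 319, 63897), (.hz 17 2367, 317900)]))
(.cut 9 [(0, 1), (1, 1), (2, 1), (3, 1), (5, 1), (7, 1), (11, 1), (21, 1), (15, 1), (23, 1), (85, 1), (31, 1), (47, 1), (87, 1), (63, 1), (95, 1), (175, 1), (303, 1), (127, 1), (191, 1), (319, 1), (431, 1), (255, 1), (447, 1)]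
(.lp [[8], [0, 2, 4, 6, 9], [1, 3, 5, 7, 10]] [(.mj 3 4, 399144), (.mj 6 7, 96756), (.mj 7 8, 62599), (.mj 8 10, 23484), (.rw 4, 200), (.hz 15 767, 11345932), (.rw 9, 14)]))))
(.lp [[8], [0, 2, 4, 6, 9], [1, 3, 5, 7, 10]] [(.mj 3 4, 1197), (.mj 9 8, 118), (.mj 9 10, 127), (.rw 4, 2), (.hz 17 319, 47650)])
(.ask 303
(.mark 383 [7, 9, 11]
(.lp [[8, 11], [0, 2, 4, 6, 9], [1, 3, 5, 7, 10]] [(.mj 3 4, 1437), (.mj 6 7, 757), (.mj 10 8, 80), (.rw 4, 1), (.hz 17 319, 390077), (.hz 10 2351, 62598), (.hz 17 2367, 460217)]))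
(.lp [[8], [0, 2, 4, 6, 9], [1, 3, 5, 7, 10]] [(.mj 3 4, 4706), (.mj 6 7, 2373), (.mj 10 8, 561), (.rw 4, 1), (.hz 17 319, 1176587), (.hz 15 255, 411751)]))
.fin))
(.lp [[8], [1, 3, 5, 7], [0, 2, 4, 6, 9]] [(.mj 3 4, 510), (.mj 6 7, 25), (.mj 7 8, 59), (.rw 4, 1)])))
(.lp [[8], [1, 3, 5, 7], [0, 2, 4, 6, 9]] [(.mj 3 4, 10401), (.mj 7 8, 2829), (.rw 4, 19), (.hz 17 63, 2241567), (.hz 16 303, 951028), (.hz 16 319, 1237612)])))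
(.con 8 7)
(.lp [[8], [1, 3, 5, 7], [0, 2, 4, 6, 9]] [(.mj 3 4, 421), (.mj 9 7, 89), (.mj 9 8, 89), (.rw 4, 1)])
.fin))
(.ask 95
(.mark 127 [7, 8, 9]
(.spn
(.ask 175
(.mark 255 [8, 9, 10]
(.spn
(.ask 303
(.mark 511 [9, 10, 11]
(.lp [[8, 11], [0, 2, 4, 6, 9], [1, 3, 5, 7, 10]] [(.mj 3 4, 3229), (.mj 7 8, 27), (.rw 4, 5), (.hz 15 1279, 404499)]))
(.ask 431
(.mark 511 [9, 10, 11]
(.lp [[8, 11], [0, 2, 4, 6, 9], [1, 3, 5, 7, 10]] [(.mj 3 4, 2589), (.mj 6 7, 901), (.mj 7 8, 233), (.mj 8 9, 65), (.rw 4, 1)]))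
(.haz 8 191 7 40
(.lp [[8], [0, 2, 4, 6, 9], [1, 3, 5, 7, 10]] [(.mj 3 4, 13033), (.mj 7 8, 895), (.mj 8 9, 425), (.rw 4, 22), (.hz 17 191, 38565), (.hz 17 1215, 2688857), (.hz 17 767, 788094)])
(.lp [[8], [0, 2, 4, 6, 9], [1, 3, 5, 7, 10]] [(.mj 3 4, 60160), (.mj 6 7, 18138), (.rw 4, 18), (.rw 8, 5), (.hz 17 63, 6338854), (.hz 15 767, 887487), (.hz 15 1279, 7511021)]))))
(.haz 8 191 7 40
(.lp [[8], [0, 2, 4, 6, 9], [1, 3, 5, 7, 10]] [(.mj 3 4, 794), (.mj 6 7, 3), (.mj 9 8, 101), (.rw 4, 1), (.hz 17 191, 39692), (.hz 17 255, 86589), (.hz 17 1215, 84247), (.hz 17 767, 43797), (.hz 17 1279, 112600)])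
(.lp [[8], [0, 2, 4, 6, 9], [1, 3, 5, 7, 10]] [(.mj 3 4, 95035), (.mj 6 7, 2138), (.mj 9 8, 1623), (.mj 9 10, 2469), (.rw 4, 107), (.hz 17 63, 2526276), (.hz 15 767, 2868255), (.hz 15 1279, 16932582)]))
(.cut 8 [(0, 1), (1, 1), (2, 1), (3, 1), (5, 1), (7, 1), (11, 1), (21, 1), (15, 1), (23, 1), (85, 1), (31, 1), (47, 1), (87, 1), (63, 1), (95, 1), (175, 1), (127, 1), (191, 1), (607, 1), (255, 1)]
(.lp [[8], [0, 2, 4, 6, 9], [1, 3, 5, 7, 10]] [(.mj 3 4, 14831), (.mj 6 7, 740), (.mj 10 8, 1236), (.mj 10 9, 474), (.rw 4, 25), (.hz 15 255, 2090550), (.hz 15 767, 1383813), (.hz 15 1279, 1829871), (.rw 9, 1)]))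
.fin))
(.haz 8 191 1 8
(.ask 191
(.mark 255 [8, 9, 10]
(.spn
(.haz 8 191 7 40
(.haz 9 383 7 40
(.haz 9 1279 1 4
(.haz 7 639 13 40
(.ask 303
(.mark 511 [9, 10, 11]
(.lp [[8, 11], [0, 2, 4, 6, 9], [1, 3, 5, 7, 10]] [(.mj 3 4, 112421), (.mj 6 7, 106840), (.mj 7 8, 118078), (.mj 8 9, 144553), (.mj 8 10, 35515), (.rw 4, 415), (.hz 16 2351, 52136097), (.hz 21 639, 27024208), (.hz 16 2367, 51428642), (.hz 20 1279, 1984576741), (.hz 19 2431, 53352307)]))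
(.ask 431
(.mark 511 [9, 10, 11]
(.lp [[8, 11], [0, 2, 4, 6, 9], [1, 3, 5, 7, 10]] [(.mj 3 4, 3237), (.mj 6 7, 1183), (.mj 7 8, 315), (.mj 8 9, 82), (.rw 4, 1)]))
(.ask 319
(.mark 511 [9, 10, 11]
(.spn
(.lp [[8, 11], [0, 2, 4, 6, 9], [1, 3, 5, 7, 10]] [(.mj 3 4, 3641), (.mj 6 7, 3400), (.mj 7 8, 5178), (.mj 8 9, 5685), (.mj 9 10, 1583), (.rw 4, 14), (.hz 21 639, 875222), (.hz 18 1215, 3063777), (.hz 18 1279, 1105070), (.hz 20 1279, 58627729), (.hz 19 2431, 2892192)])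
(.lp [[8, 11], [0, 2, 4, 6, 9], [1, 3, 5, 7, 10]] [(.mj 3 4, 101), (.mj 7 8, 33), (.mj 8 10, 73), (.mj 10 9, 152), (.rw 4, 1), (.hz 19 383, 85457), (.hz 21 639, 24182), (.hz 16 2367, 42410), (.hz 19 511, 286166), (.hz 20 1279, 1013297), (.hz 19 2431, 274231), (.hz 19 2559, 291273), (.hz 21 2943, 361637)])
(.lp [[8, 11], [0, 2, 4, 6, 9], [1, 3, 5, 7, 10]] [(.mj 3 4, 148), (.mj 6 7, 75), (.mj 7 8, 154), (.mj 11 9, 237), (.mj 11 10, 54), (.rw 4, 1), (.hz 19 383, 275321), (.hz 21 639, 35555), (.hz 18 1215, 111016), (.hz 18 1279, 39585), (.hz 20 1279, 3202109)])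
.fin))
(.lp [[8], [0, 2, 4, 6, 9], [1, 3, 5, 7, 10]] [(.mj 3 4, 16), (.mj 6 7, 5), (.mj 7 8, 2), (.hz 18 191, 262), (.hz 19 383, 1493), (.hz 18 1215, 365)]))))
(.lp [[8], [0, 2, 4, 6, 9], [1, 3, 5, 7, 10]] [(.mj 3 4, 39989), (.mj 7 8, 4378), (.rw 4, 22), (.rw 7, 13), (.hz 21 63, 1299579), (.hz 21 127, 11406827), (.hz 19 383, 2872753)]))
(.lp [[8], [0, 2, 4, 6, 9], [1, 3, 5, 7, 10]] [(.mj 3 4, 1886), (.mj 6 7, 3211), (.mj 7 8, 2043), (.rw 4, 1), (.hz 20 95, 3994506), (.hz 20 127, 11285179), (.hz 18 191, 1013152), (.hz 20 255, 8060842), (.hz 19 383, 1340813), (.hz 18 1215, 1612168)]))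
(.lp [[8], [0, 2, 4, 6, 9], [1, 3, 5, 7, 10]] [(.mj 3 4, 4), (.mj 6 7, 10), (.mj 7 8, 8), (.hz 19 95, 1417), (.hz 19 127, 4941), (.hz 18 191, 3430), (.hz 18 1215, 4579), (.hz 18 767, 6437)]))
(.lp [[8], [0, 2, 4, 6, 9], [1, 3, 5, 7, 10]] [(.mj 3 4, 263215), (.mj 6 7, 93195), (.rw 8, 26), (.hz 18 47, 11527636), (.hz 18 63, 21545849), (.hz 17 1215, 209306305), (.hz 17 767, 24028272)]))
(.ask 303
(.mark 511 [9, 10, 11]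
(.lp [[8, 11], [0, 2, 4, 6, 9], [1, 3, 5, 7, 10]] [(.mj 3 4, 7784), (.mj 6 7, 812), (.mj 9 8, 640), (.rw 4, 8), (.hz 17 191, 4223982), (.hz 16 2351, 523212), (.hz 17 255, 1302645), (.hz 16 2367, 4839), (.hz 17 1279, 2846000)]))
(.lp [[8], [0, 2, 4, 6, 9], [1, 3, 5, 7, 10]] [(.mj 3 4, 135146), (.mj 6 7, 24670), (.mj 9 8, 40989), (.rw 4, 9), (.rw 8, 1), (.hz 17 191, 83703230), (.hz 17 255, 218529809), (.hz 14 1215, 4475633), (.hz 17 1215, 60842357), (.hz 17 767, 72065258), (.hz 17 1279, 211347134)]))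
(.haz 9 255 9 40
(.lp [[8], [0, 2, 4, 6, 9], [1, 3, 5, 7, 10]] [(.mj 6 7, 3), (.mj 10 8, 4), (.mj 10 9, 4), (.hz 17 191, 13354), (.hz 17 255, 13943), (.hz 18 255, 5249), (.hz 17 1215, 514), (.hz 17 767, 98432)])
(.lp [[8], [0, 2, 4, 6, 9], [1, 3, 5, 7, 10]] [(.mj 3 4, 1406), (.mj 6 7, 1072), (.mj 10 8, 875), (.rw 4, 1), (.hz 18 95, 105260), (.hz 18 127, 382763), (.hz 17 191, 4596014), (.hz 17 255, 2220835), (.hz 18 255, 198329), (.hz 17 1215, 991644)]))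
.fin))
(.ask 255
(.mark 255 [8, 9, 10]
(.spn
(.haz 7 319 11 50
(.haz 9 1279 2 25
(.ref 0)
(.cut 9 [(0, 1), (1, 1), (2, 1), (3, 1), (5, 1), (7, 1), (11, 1), (21, 1), (15, 1), (23, 1), (85, 1), (31, 1), (47, 1), (87, 1), (63, 1), (95, 1), (175, 1), (303, 1), (127, 1), (191, 1), (319, 1), (431, 1), (255, 1), (447, 1)]
(.lp [[8], [0, 2, 4, 6, 9], [1, 3, 5, 7, 10]] [(.mj 4 5, 5667), (.mj 6 7, 4646), (.mj 7 8, 5680), (.mj 8 10, 4132), (.hz 19 95, 2656368), (.hz 19 127, 4773741), (.hz 19 255, 4854956), (.rw 9, 1)])))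
(.lp [[8], [0, 2, 4, 6, 9], [1, 3, 5, 7, 10]] [(.mj 3 4, 59940), (.mj 6 8, 14710), (.mj 7 8, 4903), (.rw 4, 16), (.rw 8, 5), (.hz 18 63, 6374545), (.hz 10 431, 806496)]))
(.lp [[8], [0, 2, 4, 6, 9], [1, 3, 5, 7, 10]] [(.mj 3 4, 1805), (.mj 9 8, 351), (.mj 9 10, 43), (.rw 4, 1), (.hz 17 255, 1611583), (.hz 17 767, 965026), (.hz 17 1279, 1768913)])
(.haz 8 127 4 25
(.lp [[8], [0, 2, 4, 6, 9], [1, 3, 5, 7, 10]] [(.mj 3 4, 11), (.mj 6 7, 3), (.mj 10 8, 5), (.hz 10 303, 289), (.hz 18 127, 2707), (.hz 18 255, 9823), (.hz 18 639, 5378)])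
(.lp [[8], [0, 2, 4, 6, 9], [1, 3, 5, 7, 10]] [(.mj 3 4, 100), (.mj 6 7, 37), (.mj 10 8, 7), (.hz 18 47, 6457), (.hz 18 63, 7374), (.hz 17 191, 86321), (.hz 17 255, 25786)]))
.fin))
(.lp [[8], [1, 3, 5, 7], [0, 2, 4, 6, 9]] [(.mj 3 4, 18090), (.mj 6 7, 205), (.mj 7 8, 2152), (.rw 4, 19), (.hz 17 767, 13030924)])))
(.lp [[8], [1, 3, 5, 7], [0, 2, 4, 6, 9]] [(.mj 3 4, 212), (.mj 6 7, 89), (.hz 17 47, 47003), (.hz 17 63, 101262), (.hz 15 255, 41498)])))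
(.con 8 7)
(.lp [[8], [1, 3, 5, 7], [0, 2, 4, 6, 9]] [(.mj 3 4, 22423), (.mj 9 7, 3918), (.mj 9 8, 3763), (.rw 4, 14), (.hz 16 303, 635578), (.hz 14 191, 1130188), (.hz 16 319, 4123413), (.hz 14 447, 6702663)])
.fin))
(.ref 1)))

theorem run190 : run P3488 (leaf3 218 625) (cutRow P3488) [s183, s189] t190 s190 = true := by
  decide +kernel

theorem bad190 : Bad P3488 s190 :=
  run_sound (leaf3_sound P3488 rfl rfl) (cutRow_sound P3488) (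
    List.forall_mem_cons.2 ⟨bad183, List.forall_mem_cons.2 ⟨bad189, fun _ h => absurd h List.not_mem_nil⟩⟩) t190 s190 run190

/-- the state above piece 124 of the tree -/
def s124 : St := ⟨[0, 0, 1, 3, 5, 7, 15], [15, 11, 7, 5, 3, 2, 1, 0], [0, 1, 2, 3, 4],
  [],
  [⟨true, 2, 3, 3, 10⟩, ⟨true, 1, 5, 2, 5⟩, ⟨true, 2, 3, 23, 50⟩, ⟨true, 1, 5, 12, 25⟩, ⟨true, 4, 39, 4, 25⟩, ⟨true, 4, 39, 9, 50⟩, ⟨true, 4, 15, 4, 25⟩, ⟨true, 4, 15, 9, 50⟩],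
  [.spn 0 0 651200, .spn 1 1 302400, .spn 3 2 302400, .spn 7 3 140426, .spn 15 4 140426]⟩

/-- piece 124 of the tree -/
noncomputable def t124 : WN.Tree :=
(.haz 1 21 29 50
(.ask 21
(.mark 31 [5, 6, 7]
(.spn
(.haz 6 31 17 40
(.lp [[5], [1, 3, 6], [0, 2, 4, 7]] [(.mj 3 4, 9009), (.mj 4 5, 9009), (.mj 5 6, 9009), (.rw 4, 2), (.hz 9 31, 545466), (.hz 9 63, 703827), (.hz 9 159, 1697465)])
(.haz 4 39 9 40
(.haz 6 159 9 40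
(.haz 5 79 7 40
(.ask 79
(.haz 5 159 3 20
(.mark 79 [4, 5, 8]
(.lp [[5], [0, 2, 4, 7], [1, 3, 6, 8]] [(.mj 3 4, 143), (.mj 4 5, 121), (.mj 5 6, 80), (.mj 5 7, 2), (.hz 12 79, 7550), (.hz 12 95, 1456), (.hz 13 159, 19988), (.hz 11 159, 19402), (.hz 7 335, 1165), (.hz 12 335, 9469)]))
(.lp [[5], [0, 2, 4, 7], [1, 3, 6, 8]] [(.mj 3 4, 1), (.mj 5 6, 2), (.mj 5 7, 1), (.hz 13 7, 221), (.hz 13 15, 445), (.hz 9 15, 37), (.hz 13 31, 666), (.hz 11 159, 754)]))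
(.lp [[5], [1, 3, 6], [0, 2, 4, 7]] [(.mj 3 4, 84), (.mj 4 5, 60), (.mj 5 6, 37), (.hz 10 39, 1867), (.hz 12 79, 3163), (.hz 11 159, 8965), (.hz 12 223, 5275)]))
(.lp [[5], [1, 3, 6], [0, 2, 4, 7]] [(.mj 3 4, 4), (.mj 5 6, 2), (.hz 12 7, 122), (.hz 12 15, 325), (.hz 9 15, 187), (.hz 11 159, 438)]))
(.lp [[5], [1, 3, 6], [0, 2, 4, 7]] [(.mj 3 4, 34), (.mj 4 5, 19), (.hz 11 15, 1881), (.hz 10 39, 1758), (.hz 11 31, 1194)]))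
(.lp [[5], [1, 3, 6], [0, 2, 4, 7]] [(.mj 0 1, 18), (.mj 4 5, 11), (.mj 5 6, 3), (.hz 10 5, 230), (.hz 10 7, 973), (.hz 9 15, 639)])))
(.haz 4 39 9 40
(.haz 3 151 7 20
(.haz 5 15 1 5
(.lp [[5], [1, 3, 6], [0, 2, 4, 7]] [(.mj 3 4, 12), (.mj 4 6, 13), (.mj 6 5, 53), (.hz 11 15, 31740), (.hz 8 149, 332), (.hz 11 31, 91655), (.hz 11 79, 12889), (.hz 10 151, 7868), (.hz 11 159, 157359)])
(.haz 3 23 19 40
(.haz 6 47 3 10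
(.ask 79
(.mark 95 [5, 7, 8]
(.spn
(.ref 0)
(.haz 5 79 3 20
(.lp [[5], [0, 2, 4, 7], [1, 3, 6, 8]] [(.mj 3 4, 80), (.mj 4 6, 53), (.mj 6 7, 54), (.mj 7 5, 105), (.mj 7 8, 9), (.hz 14 79, 25124), (.hz 14 95, 57694), (.hz 14 335, 19782), (.hz 14 223, 100655), (.hz 14 351, 75599)])
(.haz 8 223 9 40
(.haz 5 335 1 20
(.ref 1)
(.cut 5 [(0, 1), (1, 1), (2, 1), (3, 1), (5, 1), (7, 1), (11, 1), (21, 1), (15, 1), (23, 1), (149, 1), (31, 1), (79, 1), (95, 1)]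
(.lp [[5], [0, 2, 4, 7], [1, 3, 6, 8]] [(.mj 3 4, 1992), (.mj 4 6, 884), (.mj 7 8, 183), (.hz 16 7, 225049), (.hz 16 15, 44686), (.hz 8 149, 14955), (.rw 7, 1)])))
(.cut 5 [(0, 1), (1, 1), (2, 1), (3, 1), (5, 1), (7, 1), (11, 1), (21, 1), (15, 1), (23, 1), (149, 1), (31, 1), (79, 1), (95, 1)]
(.lp [[5], [0, 2, 4, 7], [1, 3, 6, 8]] [(.mj 3 4, 5715), (.mj 7 5, 1002), (.mj 7 8, 36), (.hz 9 39, 624402), (.hz 9 47, 92553), (.hz 14 79, 399180), (.hz 15 79, 305909), (.hz 15 95, 263359), (.rw 7, 1)]))))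
(.haz 7 95 7 50
(.haz 6 47 2 5
(.haz 5 15 4 25
(.lp [[5], [0, 2, 4, 7], [1, 3, 6, 8]] [(.mj 3 4, 4), (.mj 4 6, 3), (.mj 8 5, 4), (.hz 8 149, 5), (.hz 16 31, 1066), (.hz 16 79, 997), (.hz 12 151, 43), (.hz 16 95, 1164), (.hz 16 159, 2224), (.hz 16 335, 56), (.hz 16 223, 344)])
(.haz 5 159 3 50
(.haz 6 159 12 25
(.ask 335
(.mark 351 [5, 7, 9]
(.spn
(.lp [[5], [0, 2, 4, 7], [1, 3, 6, 8, 9]] [(.mj 4 6, 1104), (.mj 5 7, 718), (.mj 8 5, 849), (.rw 7, 1), (.hz 8 149, 2807), (.hz 12 151, 24522), (.hz 17 159, 201539), (.hz 18 159, 92403), (.hz 14 127, 634161), (.hz 14 351, 124482), (.hz 14 863, 215506)])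
(.cut 5 [(0, 1), (1, 1), (2, 1), (3, 1), (5, 1), (7, 1), (11, 1), (21, 1), (15, 1), (23, 1), (149, 1), (31, 1), (79, 1), (95, 1)]
(.cut 5 [(0, 1), (1, 1), (2, 1), (3, 1), (5, 1), (7, 1), (11, 1), (21, 1), (15, 1), (23, 1), (149, 1), (31, 1), (79, 1), (151, 2), (95, 1), (159, 1), (335, 1), (351, 1)]
(.cut 5 [(0, 1), (1, 1), (2, 1), (3, 1), (5, 1), (7, 1), (11, 1), (21, 1), (15, 1), (23, 1), (149, 1), (31, 1), (79, 1), (95, 1), (335, 1), (351, 1)]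
(.lp [[5], [0, 2, 4, 7], [1, 3, 6, 8, 9]] [(.mj 4 6, 1152079), (.mj 7 5, 445847), (.mj 8 7, 962693), (.rw 7, 313), (.hz 16 7, 21877841), (.hz 8 149, 39570224), (.hz 15 47, 426617907), (.hz 12 55, 36846891), (.hz 12 151, 3635112), (.hz 15 63, 1513601183), (.hz 12 183, 125016756), (.hz 17 223, 127427589), (.rw 8, 687), (.rw 9, 86), (.rw 10, 544)]))))
(.lp [[5], [0, 2, 4, 7], [1, 3, 6, 8, 9]] [(.mj 3 4, 26), (.mj 4 6, 84), (.mj 9 5, 17), (.mj 9 7, 35), (.hz 16 7, 3542), (.hz 15 47, 135457), (.hz 12 151, 158), (.hz 15 63, 26977), (.hz 17 159, 17552), (.hz 18 159, 3575), (.hz 14 127, 28170), (.hz 14 351, 9960), (.hz 17 479, 53447), (.hz 14 863, 541), (.hz 17 991, 9018)])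
.fin))
(.ask 351
(.mark 351 [5, 7, 9]
(.spn
(.lp [[5], [0, 2, 4, 7], [1, 3, 6, 8, 9]] [(.mj 4 6, 5), (.mj 5 7, 13), (.mj 5 9, 7), (.mj 8 5, 14), (.hz 8 149, 22), (.hz 12 151, 191), (.hz 17 159, 3230), (.hz 18 159, 306), (.hz 14 127, 6920), (.hz 14 351, 489), (.hz 14 863, 6814)])
(.maj 5 9
(.cut 5 [(0, 1), (1, 1), (2, 1), (3, 1), (5, 1), (7, 1), (11, 1), (21, 1), (15, 1), (23, 1), (149, 1), (31, 1), (79, 1), (151, 1), (95, 1), (159, 2), (335, 1), (223, 1), (351, 1)]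
(.cut 5 [(0, 1), (1, 1), (2, 1), (3, 1), (5, 1), (7, 1), (11, 1), (21, 1), (15, 1), (23, 1), (149, 1), (31, 1), (79, 1), (95, 1), (335, 1), (351, 1)]
(.lp [[5], [0, 2, 4, 7], [1, 3, 6, 8, 9]] [(.mj 8 7, 31304), (.rw 7, 28), (.hz 8 149, 1125066), (.rw 8, 10), (.rw 9, 42)])))
(.cut 5 [(0, 1), (1, 1), (2, 1), (3, 1), (5, 1), (7, 1), (11, 1), (21, 1), (15, 1), (23, 1), (149, 1), (31, 1), (79, 1)]
(.cut 5 [(0, 1), (1, 1), (2, 1), (3, 1), (5, 1), (7, 1), (11, 1), (21, 1), (15, 1), (23, 1), (149, 1), (31, 1), (79, 1), (151, 2), (95, 1), (159, 1), (335, 1)]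
(.cut 5 [(0, 1), (1, 1), (2, 1), (3, 1), (5, 1), (7, 1), (11, 1), (21, 1), (15, 1), (23, 1), (149, 1), (31, 1), (79, 1), (95, 1), (335, 1), (351, 1)]
(.lp [[5], [0, 2, 4, 7], [1, 3, 6, 8, 9]] [(.mj 4 6, 15429), (.mj 7 9, 60010), (.mj 8 7, 108017), (.mj 9 5, 68131), (.hz 8 149, 5935542), (.hz 17 159, 5918233), (.hz 12 183, 15779751), (.hz 17 223, 24426937), (.rw 8, 6), (.rw 9, 17), (.rw 10, 174)])))))
(.cut 5 [(0, 1), (1, 1), (2, 1), (3, 1), (5, 1), (7, 1), (11, 1), (21, 1), (15, 1), (23, 1), (149, 1), (31, 1), (79, 1), (95, 1)]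
(.lp [[5], [0, 2, 4, 7], [1, 3, 6, 8, 9]] [(.mj 4 6, 3996), (.mj 9 7, 1365), (.rw 7, 1), (.hz 16 7, 90543), (.hz 8 149, 63300), (.hz 15 47, 4928117), (.hz 12 55, 152493), (.hz 12 151, 31271), (.hz 15 63, 3101584), (.hz 14 95, 336612), (.hz 12 183, 226474), (.hz 18 191, 589762), (.hz 14 351, 803705), (.hz 17 479, 1501743), (.rw 8, 2)]))
.fin))
(.lp [[5], [0, 2, 4, 7], [1, 3, 6, 8]] [(.mj 8 5, 1), (.mj 8 7, 1), (.hz 17 159, 478), (.hz 17 223, 894)])))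
(.lp [[5], [0, 2, 4, 7], [1, 3, 6, 8]] [(.mj 8 5, 59), (.mj 8 7, 74), (.hz 18 15, 11280), (.hz 18 31, 23712), (.hz 15 47, 36999), (.hz 15 63, 148592), (.hz 14 95, 13008), (.hz 17 159, 60036), (.hz 14 127, 32139), (.hz 15 191, 359667)]))
(.cut 5 [(0, 1), (1, 1), (2, 1), (3, 1), (5, 1), (7, 1), (11, 1), (21, 1), (15, 1), (23, 1), (149, 1), (31, 1), (79, 1), (95, 1)]
(.lp [[5], [0, 2, 4, 7], [1, 3, 6, 8]] [(.mj 3 4, 1254), (.mj 4 6, 1780), (.mj 8 7, 454), (.hz 17 7, 44599), (.hz 17 15, 77178), (.hz 8 149, 25763), (.hz 17 31, 23312), (.hz 14 95, 45405), (.hz 15 191, 1549640), (.rw 7, 1)]))))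
(.cut 5 [(0, 1), (1, 1), (2, 1), (3, 1), (5, 1), (7, 1), (11, 1), (21, 1), (15, 1), (23, 1), (149, 1), (31, 1), (79, 1), (95, 1)]
(.lp [[5], [0, 2, 4, 7], [1, 3, 6, 8]] [(.mj 3 4, 2246), (.mj 8 5, 1566), (.mj 8 7, 1003), (.hz 11 15, 348947), (.hz 15 15, 3500495), (.hz 9 39, 311213), (.hz 13 47, 1002544), (.hz 13 63, 654703), (.hz 14 95, 72891), (.hz 14 127, 1763377), (.rw 7, 1)])))
(.cut 5 [(0, 1), (1, 1), (2, 1), (3, 1), (5, 1), (7, 1), (11, 1), (21, 1), (15, 1), (23, 1), (149, 1), (31, 1), (79, 1), (95, 1)]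
(.lp [[5], [0, 2, 4, 7], [1, 3, 6, 8]] [(.mj 4 6, 3184), (.mj 8 5, 1400), (.hz 14 21, 69589), (.hz 14 23, 191365), (.hz 14 31, 207302), (.hz 12 55, 96141), (.hz 13 63, 2374474), (.hz 13 191, 363839), (.rw 7, 2)])))
.fin))
(.ref 2))
(.lp [[5], [1, 3, 6], [0, 2, 4, 7]] [(.mj 3 4, 93), (.mj 6 5, 10), (.hz 11 15, 58029), (.hz 13 15, 49935), (.hz 9 39, 5487)]))
(.lp [[5], [1, 3, 6], [0, 2, 4, 7]] [(.mj 3 4, 8), (.hz 12 7, 580), (.hz 11 7, 3413), (.hz 12 23, 80), (.hz 9 39, 291)])))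
(.lp [[5], [1, 3, 6], [0, 2, 4, 7]] [(.mj 3 4, 782), (.rw 4, 1), (.hz 10 7, 15466), (.hz 10 23, 304779), (.hz 9 39, 25433)]))
(.cut 5 [(0, 1), (1, 1), (2, 1), (3, 1), (5, 1), (7, 1), (11, 1), (21, 1), (15, 1), (23, 1), (149, 1), (31, 1)]
(.lp [[5], [1, 3, 6], [0, 2, 4, 7]] [(.mj 0 1, 5942), (.mj 4 6, 1879), (.mj 6 5, 1899), (.hz 9 7, 335013), (.hz 5 39, 212381), (.hz 8 149, 120683), (.rw 6, 1)])))
(.haz 6 47 9 40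
(.lp [[5], [1, 3, 6], [0, 2, 4, 7]] [(.mj 3 4, 140), (.mj 7 5, 43), (.mj 7 6, 75), (.hz 5 39, 9822), (.hz 5 47, 1656), (.hz 9 47, 14714), (.hz 7 79, 5257), (.hz 5 111, 9397)])
(.lp [[5], [1, 3, 6], [0, 2, 4, 7]] [(.mj 3 4, 21), (.mj 7 5, 10), (.mj 7 6, 5), (.hz 9 15, 789), (.hz 5 39, 1868), (.hz 5 47, 550)]))
.fin))
(.ref 3))
(.lp [[5], [0, 2, 4], [1, 3, 6]] [(.mj 3 4, 41), (.hz 8 5, 2133), (.hz 3 21, 3777)]))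

theorem run124 : run P3488 (leaf3 218 625) (cutRow P3488) [s112, s111, s113, s123] t124 s124 = true := by
  decide +kernel

theorem bad124 : Bad P3488 s124 :=
  run_sound (leaf3_sound P3488 rfl rfl) (cutRow_sound P3488) (
    List.forall_mem_cons.2 ⟨bad112, List.forall_mem_cons.2 ⟨bad111, List.forall_mem_cons.2 ⟨bad113, List.forall_mem_cons.2 ⟨bad123, fun _ h => absurd h List.not_mem_nil⟩⟩⟩⟩) t124 s124 run124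

end Pool.Agent.WN.Data
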