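import Pool.Agent.WN.CutRow
import Pool.Agent.WN.LeafRow
import Pool.Agent.Helper99.WN.ParDef
import Pool.Agent.WN.Data.D1
import Pool.Agent.WN.Data.D7
import Pool.Agent.WN.Data.D11
import Pool.Agent.WN.Data.D12
import Pool.Agent.WN.Data.D24
import Pool.Agent.WN.Data.D27
import Pool.Agent.WN.Data.D28
import Pool.Agent.WN.Data.D29
import Pool.Agent.WN.Data.D30
import Pool.Agent.WN.Data.D33
import Pool.Agent.WN.Data.D34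

/-!
# The search tree, part 39
-/

set_option autoImplicit false

namespace Pool.Agent.WN.Data

open Pool.Agent.W3 Pool.Agent.WN Pool.Agent.Helper99.WN

/-- the state above piece 41 of the tree -/
def s41 : St := ⟨[0, 0, 1, 1, 7, 7, 11, 23, 47], [63, 55, 39, 31, 15, 13, 9, 7, 5, 3, 2, 1, 0], [0, 1, 2, 3, 4, 5, 7],
  [(3, 4)],
  [⟨true, 1, 9, 7, 50⟩, ⟨true, 2, 11, 3, 50⟩, ⟨true, 2, 9, 9, 50⟩, ⟨true, 3, 3, 1, 5⟩, ⟨true, 1, 5, 13, 50⟩, ⟨true, 2, 11, 3, 5⟩, ⟨true, 2, 9, 8, 25⟩, ⟨true, 2, 9, 17, 50⟩, ⟨true, 2, 11, 33, 50⟩, ⟨true, 4, 47, 4, 25⟩, ⟨true, 4, 79, 1, 5⟩, ⟨true, 5, 159, 7, 50⟩, ⟨true, 4, 79, 3, 10⟩, ⟨true, 3, 23, 7, 25⟩, ⟨true, 3, 23, 3, 10⟩, ⟨true, 6, 63, 2, 25⟩, ⟨true, 5, 95, 4, 25⟩, ⟨true, 4, 79, 9, 25⟩, ⟨true, 4, 303, 13, 50⟩, ⟨true, 6, 159, 3, 25⟩],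
  [.spn 0 0 651200, .spn 1 1 140426, .spn 3 2 302400, .spn 7 3 62723, .spn 15 4 140426, .spn 31 5 62723, .spn 63 7 62723]⟩

/-- piece 41 of the tree -/
noncomputable def t41 : WN.Tree :=
(.haz 4 303 8 25
(.haz 6 47 7 50
(.ref 0)
(.haz 6 47 1 10
(.haz 5 95 11 40
(.haz 7 95 7 20
(.ask 151
(.mark 191 [6, 8, 9]
(.spn
(.ask 75
(.mark 255 [8, 9, 10]
(.lp [[1, 5, 8], [3, 6, 10], [0, 2, 4, 7, 9]] [(.mj 3 4, 13), (.mj 4 5, 25), (.mj 5 7, 14), (.mj 6 8, 2), (.hz 21 11, 824), (.hz 21 15, 2137), (.hz 22 303, 16335), (.hz 17 1103, 930), (.hz 23 1119, 3014), (.hz 24 1119, 17824)]))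
(.ask 79
(.mark 255 [8, 9, 10]
(.lp [[1, 5, 8], [3, 6, 10], [0, 2, 4, 7, 9]] [(.mj 3 4, 8), (.mj 4 5, 16), (.mj 5 7, 9), (.mj 6 8, 1), (.hz 21 15, 1807), (.hz 22 303, 10372), (.hz 17 1103, 598), (.hz 23 1119, 2462), (.hz 24 1119, 10477)]))
(.ask 95
(.mark 95 [5, 7, 10]
(.lp [[1, 5, 8], [3, 6, 10], [0, 2, 4, 7, 9]] [(.mj 3 4, 67), (.mj 4 5, 108), (.mj 5 7, 57), (.mj 6 8, 9), (.hz 21 15, 17339), (.hz 22 303, 117276), (.hz 22 319, 14688), (.hz 23 1119, 3672), (.hz 24 1119, 52742), (.hz 19 671, 10759)]))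
(.lp [[3, 6], [1, 5, 8], [0, 2, 4, 7, 9]] [(.mj 3 4, 6), (.mj 4 5, 20), (.mj 5 7, 10), (.hz 21 15, 864), (.hz 21 47, 1505), (.hz 22 303, 4784), (.hz 19 447, 8319)]))))
(.haz 5 159 7 20
(.lp [[3, 6], [1, 5, 8], [0, 2, 4, 7, 9]] [(.mj 3 4, 207), (.mj 4 5, 165), (.mj 8 6, 71), (.mj 8 9, 4), (.hz 21 11, 3718), (.hz 21 15, 10520), (.hz 22 47, 175229), (.hz 23 95, 27143), (.hz 22 303, 15027), (.hz 19 191, 81922), (.hz 25 223, 10161), (.hz 25 671, 65027), (.hz 19 671, 33317), (.hz 19 703, 155833)])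
(.lp [[3, 6], [1, 5, 8], [0, 2, 4, 7, 9]] [(.mj 3 4, 15), (.mj 4 5, 52), (.mj 5 7, 51), (.mj 8 6, 43), (.mj 8 9, 5), (.hz 21 11, 664), (.hz 21 15, 1880), (.hz 25 31, 39612), (.hz 23 95, 33784), (.hz 25 159, 8026), (.hz 19 159, 32953), (.hz 22 303, 59643), (.hz 19 671, 64777), (.hz 19 447, 49108), (.hz 23 735, 96098)]))
(.lp [[3, 6], [1, 5, 8], [0, 2, 4, 7, 9]] [(.mj 3 4, 39), (.mj 4 5, 29), (.mj 5 7, 19), (.mj 9 6, 10), (.mj 9 8, 7), (.hz 21 11, 1150), (.hz 21 15, 3253), (.hz 23 95, 3187), (.hz 24 95, 14946), (.hz 22 303, 34254), (.hz 22 319, 104175), (.hz 24 383, 71316), (.hz 19 703, 5894)])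
.fin))
(.ask 183
(.mark 191 [6, 8, 9]
(.lp [[3, 6], [1, 5, 8], [0, 2, 4, 7, 9]] [(.mj 3 4, 3), (.mj 4 5, 5), (.mj 5 7, 1), (.hz 21 11, 140), (.hz 21 15, 669), (.hz 23 95, 953), (.hz 19 447, 2921)]))
(.haz 2 75 39 50
(.haz 4 303 23 50
(.ask 159
(.mark 191 [6, 8, 9]
(.spn
(.haz 9 447 1 4
(.haz 9 447 7 20
(.ask 75
(.mark 255 [8, 9, 10]
(.lp [[1, 5, 8], [3, 6, 10], [0, 2, 4, 7, 9]] [(.mj 4 5, 124), (.mj 5 7, 77), (.mj 6 8, 6), (.mj 6 9, 18), (.hz 21 15, 12428), (.hz 25 1099, 3803), (.hz 22 303, 101138), (.hz 17 1103, 22177), (.hz 23 1119, 43294), (.hz 24 1119, 102638), (.hz 28 447, 64186)]))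
(.ask 79
(.mark 255 [8, 9, 10]
(.lp [[1, 5, 8], [3, 6, 10], [0, 2, 4, 7, 9]] [(.mj 4 5, 89), (.mj 5 7, 59), (.mj 6 8, 4), (.mj 6 9, 11), (.hz 21 15, 7261), (.hz 22 303, 50821), (.hz 17 1103, 8973), (.hz 23 1119, 21824), (.hz 24 1119, 72691), (.hz 28 447, 38846)]))
(.ask 95
(.mark 255 [8, 9, 10]
(.lp [[1, 5, 8], [3, 6, 10], [0, 2, 4, 7, 9]] [(.mj 4 5, 2332), (.mj 5 7, 1252), (.mj 6 8, 133), (.mj 6 9, 496), (.hz 21 15, 338579), (.hz 22 303, 3167948), (.hz 22 319, 98446), (.hz 23 1119, 24611), (.hz 24 1119, 1106672), (.hz 28 447, 1664444)]))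
(.lp [[3, 6], [1, 5, 8], [0, 2, 4, 7, 9]] [(.mj 4 5, 31), (.mj 5 7, 18), (.mj 6 9, 2), (.hz 21 47, 5000), (.hz 22 303, 49513), (.hz 19 671, 776), (.hz 19 447, 4451), (.hz 28 447, 5482)]))))
(.lp [[3, 6], [1, 5, 8], [0, 2, 4, 7, 9]] [(.mj 4 5, 10), (.mj 5 7, 12), (.mj 6 8, 30), (.hz 21 11, 791), (.hz 21 15, 6292), (.hz 21 47, 41702), (.hz 28 159, 8097), (.hz 22 303, 192685), (.hz 28 191, 65168), (.hz 22 319, 97331), (.hz 19 447, 13202), (.hz 27 447, 305366)]))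
(.lp [[3, 6], [1, 5, 8], [0, 2, 4, 7, 9]] [(.mj 4 5, 36), (.mj 5 7, 11), (.mj 6 8, 5), (.hz 21 11, 816), (.hz 21 15, 6493), (.hz 27 159, 38769), (.hz 27 191, 95355), (.hz 19 447, 42623)]))
(.ask 671
(.mark 671 [5, 6, 10]
(.lp [[3, 6], [1, 5, 8], [0, 2, 4, 7, 9, 10]] [(.mj 4 5, 62), (.mj 5 7, 18), (.mj 8 6, 45), (.mj 8 9, 2), (.hz 22 47, 95226), (.hz 19 159, 18494), (.hz 22 303, 24146), (.hz 19 191, 74805), (.hz 19 671, 12741), (.hz 19 447, 29708), (.hz 19 703, 80899), (.hz 19 1695, 39808), (.hz 23 1759, 55018)]))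
(.lp [[3, 6], [1, 5, 8], [0, 2, 4, 7, 9]] [(.mj 4 5, 8), (.mj 8 6, 5), (.mj 8 9, 1), (.hz 22 47, 12103), (.hz 22 63, 9047), (.hz 19 191, 4787), (.hz 19 671, 1530), (.hz 19 447, 2620), (.hz 19 703, 12502)]))
(.ask 671
(.mark 703 [6, 8, 10]
(.lp [[3, 6], [1, 5, 8], [0, 2, 4, 7, 9, 10]] [(.mj 4 5, 7), (.mj 5 7, 22), (.mj 9 6, 18), (.mj 9 8, 8), (.hz 21 11, 61), (.hz 21 15, 171), (.hz 22 47, 9083), (.hz 23 95, 1016), (.hz 19 159, 21835), (.hz 22 303, 23424), (.hz 19 191, 9920), (.hz 22 319, 131913), (.hz 19 671, 3954), (.hz 24 383, 74130), (.hz 19 447, 22106), (.hz 19 1695, 4494)]))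
(.ask 703
(.mark 703 [6, 8, 10]
(.spn
(.haz 8 1727 1 8
(.lp [[3, 6], [1, 5, 8], [0, 2, 4, 7, 9, 10]] [(.mj 4 5, 3), (.mj 5 7, 8), (.mj 6 8, 10), (.mj 6 10, 7), (.mj 9 6, 15), (.hz 22 47, 4579), (.hz 22 303, 10276), (.hz 22 319, 59456), (.hz 24 383, 28490), (.hz 19 447, 24617), (.hz 27 1727, 135669)])
(.lp [[3, 6], [1, 5, 8], [0, 2, 4, 7, 9, 10]] [(.mj 3 4, 995), (.mj 5 7, 3036), (.mj 9 6, 2153), (.rw 8, 1), (.hz 21 47, 50355), (.hz 27 47, 2165263), (.hz 27 63, 4943646), (.hz 19 159, 3359408), (.hz 27 191, 2691547)]))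
(.lp [[3, 6], [1, 5, 8], [0, 2, 4, 7, 9, 10]] [(.mj 3 4, 8), (.mj 4 5, 5), (.mj 8 6, 9), (.mj 9 8, 2), (.hz 22 47, 7952), (.hz 22 63, 12544), (.hz 19 159, 2025), (.hz 22 303, 2497), (.hz 19 191, 9121), (.hz 22 319, 7093), (.hz 19 671, 1626), (.hz 19 447, 9316), (.hz 19 703, 12213), (.hz 19 1727, 13879)])
(.lp [[3, 6], [1, 5, 8], [0, 2, 4, 7, 9, 10]] [(.mj 3 4, 15), (.mj 4 5, 11), (.mj 5 7, 1), (.mj 10 6, 15), (.hz 22 47, 16535), (.hz 22 63, 24978), (.hz 19 159, 5143), (.hz 22 303, 10105), (.hz 19 191, 18740), (.hz 22 319, 35827), (.hz 19 671, 3777), (.hz 19 703, 25588)])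
.fin))
(.lp [[3, 6], [1, 5, 8], [0, 2, 4, 7, 9]] [(.mj 9 6, 1), (.mj 9 8, 1), (.hz 22 303, 1328), (.hz 22 319, 1281), (.hz 19 447, 6389)])))
.fin))
(.haz 6 63 4 25
(.lp [[3, 6], [1, 5, 8], [0, 2, 4, 7]] [(.mj 3 4, 48), (.mj 4 5, 35), (.hz 21 11, 1263), (.hz 21 15, 12215), (.hz 27 63, 28895), (.hz 22 303, 53140), (.hz 27 319, 1096)])
(.lp [[3, 6], [1, 5, 8], [0, 2, 4, 7]] [(.mj 3 4, 113), (.mj 4 5, 76), (.hz 21 11, 2883), (.hz 21 15, 8156), (.hz 27 31, 32363), (.hz 22 47, 57070), (.hz 22 303, 5333), (.hz 19 191, 11162), (.hz 22 319, 27905)])))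
(.lp [[3, 6], [1, 5, 8], [0, 2, 4, 7]] [(.mj 4 5, 4), (.hz 21 11, 71), (.hz 26 15, 610), (.hz 21 15, 518), (.hz 22 47, 2571), (.hz 17 79, 46), (.hz 19 159, 101), (.hz 20 303, 66)]))
(.lp [[3, 6], [1, 5, 8], [0, 2, 4, 7]] [(.hz 25 11, 5), (.hz 21 11, 5)]))))
(.lp [[3, 6], [1, 5, 8], [0, 2, 4, 7]] [(.mj 3 4, 14), (.mj 4 5, 19), (.hz 21 11, 511), (.hz 21 15, 3099), (.hz 24 31, 5675), (.hz 23 95, 4315), (.hz 22 303, 27324)]))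
(.lp [[3, 6], [1, 5, 8], [0, 2, 4, 7]] [(.mj 3 4, 1), (.mj 5 7, 8), (.hz 21 11, 145), (.hz 23 15, 1160), (.hz 21 15, 2483), (.hz 23 31, 2153), (.hz 22 47, 7635), (.hz 19 159, 4296)]))
(.lp [[3, 6], [1, 5, 8], [0, 2, 4, 7]] [(.mj 1 2, 22342), (.mj 3 4, 595), (.mj 4 5, 279), (.mj 5 7, 86), (.hz 22 11, 1693377), (.hz 22 15, 130830), (.hz 19 159, 47418), (.hz 19 191, 89944), (.hz 15 319, 201314)])))
(.lp [[3, 6], [1, 5, 8], [0, 2, 4, 7]] [(.mj 2 3, 5), (.mj 4 5, 2), (.hz 20 7, 319), (.hz 20 15, 194), (.hz 20 39, 233)]))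

theorem run41 : run P3488 (leaf3 218 625) (cutRow P3488) [s40] t41 s41 = true := by
  decide +kernel

theorem bad41 : Bad P3488 s41 :=
  run_sound (leaf3_sound P3488 rfl rfl) (cutRow_sound P3488) (
    List.forall_mem_cons.2 ⟨bad40, fun _ h => absurd h List.not_mem_nil⟩) t41 s41 run41

/-- the state above piece 164 of the tree -/
def s164 : St := ⟨[0, 0, 1, 3, 5, 15, 15], [47, 15, 11, 7, 5, 3, 2, 1, 0], [0, 1, 2, 3, 4],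
  [(4, 5)],
  [⟨true, 2, 3, 3, 10⟩, ⟨true, 1, 5, 2, 5⟩, ⟨true, 2, 3, 23, 50⟩, ⟨true, 1, 5, 12, 25⟩, ⟨true, 1, 21, 27, 50⟩, ⟨true, 4, 15, 9, 40⟩, ⟨true, 3, 23, 11, 20⟩, ⟨true, 1, 21, 29, 50⟩],
  [.spn 0 0 651200, .spn 1 1 302400, .spn 3 2 302400, .spn 7 3 302400, .spn 15 4 140426]⟩

/-- piece 164 of the tree -/
noncomputable def t164 : WN.Tree :=
(.haz 1 21 3 5
(.haz 1 21 31 50
(.ask 21
(.mark 31 [5, 6, 7]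
(.spn
(.haz 4 79 7 25
(.haz 4 79 8 25
(.haz 4 79 17 50
(.haz 3 151 3 5
(.haz 3 151 31 50
(.haz 5 159 9 50
(.haz 7 127 2 25
(.ask 63
(.mark 63 [6, 7, 8]
(.spn
(.ref 0)
(.haz 6 319 2 25
(.haz 4 111 27 50
(.haz 6 63 1 8
(.haz 4 79 2 5
(.haz 4 111 13 20
(.maj 6 8
(.ask 149
(.mark 191 [6, 8, 9]
(.lp [[6], [1, 3, 5, 8], [0, 2, 4, 7, 9]] [(.mj 3 4, 6400), (.mj 6 8, 1067), (.mj 7 6, 2406), (.rw 6, 1), (.hz 20 79, 1406592), (.hz 21 111, 216399), (.hz 19 319, 3593867)]))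
(.ask 151
(.mark 191 [6, 8, 9]
(.lp [[6], [1, 3, 5, 8], [0, 2, 4, 7, 9]] [(.mj 3 4, 7960), (.mj 6 8, 1261), (.mj 7 6, 2836), (.rw 6, 1), (.hz 20 79, 1829734), (.hz 21 111, 281498), (.hz 19 319, 4125439)]))
(.ask 159
(.mark 191 [6, 8, 9]
(.lp [[6], [1, 3, 5, 8], [0, 2, 4, 7, 9]] [(.mj 3 4, 60), (.mj 6 8, 4), (.mj 7 6, 21), (.mj 7 8, 6), (.hz 20 79, 16876), (.hz 21 111, 2596), (.hz 19 319, 42166), (.hz 19 703, 15112)]))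
(.ask 191
(.mark 191 [6, 8, 9]
(.spn
(.ask 319
(.haz 8 191 7 20
(.mark 319 [6, 7, 10]
(.lp [[6], [0, 2, 4, 7, 9], [1, 3, 5, 8, 10]] [(.mj 3 4, 10), (.mj 6 8, 2), (.mj 7 6, 4), (.hz 20 79, 2847), (.hz 21 111, 438), (.hz 22 191, 785), (.hz 19 319, 1730), (.hz 22 255, 650), (.hz 22 703, 1646), (.hz 19 1343, 5691)]))
(.mark 447 [6, 9, 10]
(.lp [[6], [0, 2, 4, 7, 9], [1, 3, 5, 8, 10]] [(.mj 3 4, 26768), (.mj 6 8, 164), (.mj 7 6, 7233), (.rw 7, 2), (.hz 20 79, 7064079), (.hz 22 63, 1684891), (.hz 21 111, 1086781), (.hz 19 319, 6832321), (.hz 19 1343, 8630300)])))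
(.lp [[6], [1, 3, 5, 8], [0, 2, 4, 7, 9]] [(.mj 3 4, 18386), (.mj 6 8, 961), (.mj 7 6, 5131), (.rw 7, 1), (.hz 20 79, 5320951), (.hz 21 111, 818608), (.hz 19 319, 3510479)]))
(.con 8 6)
(.lp [[6], [1, 3, 5, 8], [0, 2, 4, 7, 9]] [(.mj 3 4, 13163), (.mj 9 6, 1512), (.rw 7, 2), (.hz 20 79, 3809476), (.hz 21 111, 586073), (.hz 19 191, 16734486), (.hz 19 319, 1653564)])
.fin))
(.lp [[6], [0, 2, 4, 7], [1, 3, 5, 8]] [(.mj 5 7, 1), (.mj 6 8, 6), (.mj 7 6, 10)])))))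
(.lp [[6], [0, 2, 4, 7], [1, 3, 5, 8]] [(.mj 3 4, 12650), (.mj 7 8, 2373), (.mj 8 6, 4449), (.hz 20 79, 3661057), (.hz 21 111, 563240), (.hz 19 191, 16082502), (.hz 19 319, 7044552)]))
(.lp [[6], [0, 2, 4, 7], [1, 3, 5, 8]] [(.mj 3 4, 5), (.mj 7 6, 4), (.hz 21 47, 2218), (.hz 20 79, 5087), (.hz 18 111, 616)]))
(.lp [[6], [0, 2, 4, 7], [1, 3, 5, 8]] [(.mj 7 6, 1), (.hz 20 15, 2901), (.hz 9 149, 12), (.hz 12 79, 238), (.hz 14 151, 66), (.hz 19 63, 52), (.hz 18 111, 150), (.hz 19 319, 1478)]))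
(.cut 6 [(0, 1), (1, 1), (2, 1), (3, 1), (5, 1), (7, 1), (11, 1), (21, 1), (15, 1), (23, 1), (149, 1), (31, 1), (47, 1), (151, 1), (63, 1)]
(.lp [[6], [0, 2, 4, 7], [1, 3, 5, 8]] [(.mj 3 4, 14316), (.mj 7 8, 2620), (.hz 19 15, 2607305), (.hz 19 47, 2979777), (.hz 19 63, 3310864), (.hz 17 319, 1946104), (.rw 7, 1)])))
(.lp [[6], [0, 2, 4, 7], [1, 3, 5, 8]] [(.mj 3 4, 3), (.mj 7 6, 2), (.hz 18 47, 365), (.hz 12 79, 228), (.hz 12 111, 318)]))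
(.lp [[6], [0, 2, 4, 7], [1, 3, 5, 8]] [(.mj 3 4, 10), (.mj 7 8, 2), (.hz 17 15, 618), (.hz 17 47, 644), (.hz 17 63, 728)]))
(.ask 319
(.mark 319 [6, 7, 9]
(.spn
(.lp [[6], [0, 2, 4, 7], [1, 3, 5, 8, 9]] [(.mj 8 6, 624), (.rw 7, 1)])
(.haz 6 63 2 25
(.lp [[6], [0, 2, 4, 7], [1, 3, 5, 8, 9]] [(.mj 8 7, 639), (.rw 7, 1), (.hz 17 191, 1633452)])
(.cut 6 [(0, 1), (1, 1), (2, 1), (3, 1), (5, 1), (7, 1), (11, 1), (21, 1), (15, 1), (23, 1), (149, 1), (31, 1), (47, 1), (151, 1), (63, 1), (319, 1)]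
(.lp [[6], [0, 2, 4, 7], [1, 3, 5, 8, 9]] [(.mj 3 4, 41930), (.mj 7 9, 10413), (.mj 8 7, 15626), (.rw 7, 11), (.hz 17 15, 2564796), (.hz 17 31, 282085), (.hz 17 47, 2787821), (.hz 17 63, 7184835), (.hz 16 127, 1306887), (.rw 8, 24)])))
(.ask 831
(.mark 831 [6, 7, 10]
(.spn
(.lp [[6], [0, 2, 4, 7], [1, 3, 5, 8, 9, 10]] [(.mj 9 6, 263), (.rw 8, 1)])
(.lp [[6], [0, 2, 4, 7], [1, 3, 5, 8, 9, 10]] [(.mj 9 7, 627), (.rw 8, 1)])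
(.maj 6 7
(.cut 6 [(0, 1), (1, 1), (2, 1), (3, 1), (5, 1), (7, 1), (11, 1), (21, 1), (15, 1), (23, 1), (31, 1), (47, 1), (63, 1), (319, 1)]
(.lp [[6], [0, 2, 4, 7], [1, 3, 5, 8, 9, 10]] [(.mj 10 6, 1047), (.hz 16 127, 2675639), (.hz 16 383, 2908303), (.hz 16 895, 1466478), (.rw 9, 4)]))
(.haz 7 31 3 25
(.lp [[6], [0, 2, 4, 7], [1, 3, 5, 8, 9, 10]] [(.mj 0 1, 58643), (.mj 10 7, 13315), (.rw 8, 2), (.hz 9 149, 210643), (.hz 17 31, 2326644), (.hz 12 79, 56275), (.hz 17 63, 4491825), (.hz 17 95, 6515650), (.hz 12 111, 56275), (.hz 17 127, 2342718), (.hz 17 319, 5104346), (.hz 15 223, 5153470), (.hz 17 831, 5800393)])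
(.cut 6 [(0, 1), (1, 1), (2, 1), (3, 1), (5, 1), (7, 1), (11, 1), (21, 1), (15, 1), (23, 1), (149, 1), (31, 1), (151, 1)]
(.cut 6 [(0, 1), (1, 1), (2, 1), (3, 1), (5, 1), (7, 1), (11, 1), (21, 1), (15, 1), (23, 1), (149, 1), (31, 1), (47, 1), (151, 1), (63, 1), (159, 1), (191, 1)]
(.cut 7 [(0, 1), (1, 1), (2, 1), (3, 1), (5, 1), (7, 1), (11, 1), (21, 1), (15, 1), (23, 1), (31, 1), (47, 1), (63, 1), (319, 1)]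
(.cut 6 [(0, 1), (1, 1), (2, 1), (3, 1), (5, 1), (7, 1), (11, 1), (21, 1), (15, 1), (23, 1), (149, 1), (31, 1), (47, 1), (151, 1), (63, 1), (159, 1), (191, 1), (319, 1), (447, 1)]
(.cut 7 [(0, 1), (1, 1), (2, 1), (3, 1), (5, 1), (7, 1), (11, 1), (21, 1), (15, 1), (23, 1), (31, 1), (47, 1), (63, 1), (319, 1), (831, 1)]
(.lp [[6], [0, 2, 4, 7], [1, 3, 5, 8, 9, 10]] [(.mj 0 1, 1528891), (.mj 10 7, 35721), (.hz 17 21, 17097736), (.hz 17 23, 27288048), (.hz 17 31, 1214517), (.hz 16 127, 58939783), (.hz 16 383, 72365982), (.hz 16 895, 83913745), (.rw 9, 45), (.rw 10, 10), (.rw 11, 9), (.rw 12, 12), (.rw 13, 81)]))))))))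
.fin))
(.lp [[6], [0, 2, 4, 7], [1, 3, 5, 8, 9]] [(.mj 9 7, 1), (.rw 7, 1)]))
.fin))
(.lp [[6], [0, 2, 4, 7], [1, 3, 5, 8]] [(.mj 8 7, 1), (.rw 6, 1)]))
.fin))
(.spn
(.haz 7 95 11 50
(.lp [[6], [1, 3, 5], [0, 2, 4, 7]] [(.mj 4 5, 2), (.mj 5 6, 11), (.mj 6 7, 8), (.hz 17 95, 3275)])
(.lp [[6], [1, 3, 5], [0, 2, 4, 7]] [(.mj 0 1, 67), (.mj 5 6, 73), (.mj 6 7, 41), (.hz 17 21, 359), (.hz 17 23, 470), (.hz 17 31, 264), (.hz 16 127, 36980)]))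
(.lp [[6], [1, 3, 5], [0, 2, 4, 7]] [(.mj 3 4, 13), (.mj 7 6, 4), (.hz 12 79, 456), (.hz 12 111, 301)])
.fin
.fin))
(.lp [[6], [1, 3, 5], [0, 2, 4, 7]] [(.mj 0 1, 2), (.hz 16 21, 19), (.hz 16 23, 24), (.hz 16 31, 13)]))
(.lp [[6], [1, 3, 5], [0, 2, 4, 7]] [(.mj 5 6, 1), (.mj 5 7, 1), (.hz 15 15, 69), (.hz 15 31, 124)]))
(.lp [[6], [1, 3, 5], [0, 2, 4, 7]] [(.mj 3 4, 128), (.hz 14 7, 7350), (.hz 14 23, 1040)]))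
(.lp [[6], [1, 3, 5], [0, 2, 4, 7]] [(.mj 3 4, 1), (.hz 13 7, 565), (.hz 13 23, 77)]))
(.lp [[6], [1, 3, 5], [0, 2, 4, 7]] [(.mj 4 5, 17), (.mj 5 6, 18), (.hz 12 5, 210), (.hz 12 15, 3729), (.hz 9 149, 27), (.hz 11 79, 6177), (.hz 6 151, 2645)]))
(.lp [[6], [1, 3, 5], [0, 2, 4, 7]] [(.mj 4 5, 4), (.mj 4 6, 7), (.mj 5 6, 3), (.hz 11 15, 3800), (.hz 9 149, 109), (.hz 10 79, 2147), (.hz 6 151, 1716)]))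
(.lp [[6], [1, 3, 5], [0, 2, 4, 7]] [(.mj 0 1, 4), (.hz 10 5, 51), (.hz 10 7, 30)]))
(.con 6 5)
(.cut 6 [(0, 1), (1, 1), (2, 1), (3, 1), (5, 1), (7, 1), (11, 1), (21, 1), (15, 1), (23, 1), (149, 1), (31, 1), (151, 1)]
(.lp [[6], [1, 3, 5], [0, 2, 4, 7]] [(.mj 3 4, 5459), (.mj 5 6, 1600), (.mj 7 5, 1950), (.mj 7 6, 1210), (.hz 5 79, 242826), (.rw 6, 1)]))
.fin))
(.ref 1))
(.lp [[6], [0, 2, 4], [1, 3, 5]] [(.mj 3 4, 2), (.hz 9 5, 115), (.hz 8 21, 922)]))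
(.lp [[6], [0, 2, 4], [1, 3, 5]] [(.mj 3 4, 2), (.hz 8 5, 1098), (.hz 7 21, 88)]))

theorem run164 : run P3488 (leaf3 218 625) (cutRow P3488) [s161, s163] t164 s164 = true := by
  decide +kernel

theorem bad164 : Bad P3488 s164 :=
  run_sound (leaf3_sound P3488 rfl rfl) (cutRow_sound P3488) (
    List.forall_mem_cons.2 ⟨bad161, List.forall_mem_cons.2 ⟨bad163, fun _ h => absurd h List.not_mem_nil⟩⟩) t164 s164 run164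

/-- the state above piece 266 of the tree -/
def s266 : St := ⟨[0, 0, 1], [3, 2, 1, 0], [0, 1],
  [],
  [⟨true, 2, 3, 3, 10⟩, ⟨true, 1, 5, 2, 5⟩, ⟨true, 2, 3, 23, 50⟩, ⟨true, 1, 5, 12, 25⟩],
  [.spn 0 0 651200, .spn 1 1 302400]⟩

/-- piece 266 of the tree -/
noncomputable def t266 : WN.Tree :=
(.spn
(.ask 5
(.ask 5
(.cut 3 [(0, 1), (1, 1), (2, 1), (3, 1)]
(.cut 4 [(0, 1), (1, 1), (2, 1), (3, 1)]
(.lp [[1], [4], [0, 2, 3]] [(.rw 2, 5), (.rw 3, 1), (.rw 4, 1)])))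
(.ask 7
(.haz 4 15 1 25
(.ask 7
(.ref 0)
(.spn
(.lp [[], [1, 4], [0, 2, 3]] [(.mj 3 4, 55), (.rw 2, 1)])
(.ask 23
(.ask 23
(.mark 23 [3, 5, 6]
(.spn
(.lp [[3], [1, 6], [0, 2, 4, 5]] [(.rw 2, 4), (.rw 4, 1)])
(.ask 55
(.mark 55 [3, 6, 7]
(.spn
(.lp [[3], [1, 6], [0, 2, 4, 5, 7]] [(.rw 2, 4), (.rw 5, 1)])
(.ref 1)
(.ask 183
(.mark 183 [3, 6, 8]
(.spn
(.lp [[3], [1, 6], [0, 2, 4, 5, 7, 8]] [(.mj 7 3, 381), (.rw 6, 1)])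
(.cut 3 [(0, 1), (1, 1), (2, 1), (3, 1), (5, 1), (7, 1), (23, 1), (55, 1), (183, 1)]
(.lp [[3], [1, 6], [0, 2, 4, 5, 7, 8]] [(.mj 6 3, 1534), (.mj 6 8, 1534), (.mj 7 6, 3362), (.rw 6, 1), (.rw 7, 5)]))
(.ask 439
(.mark 439 [3, 6, 9]
(.spn
(.lp [[3], [1, 6], [0, 2, 4, 5, 7, 8, 9]] [(.mj 8 3, 176), (.rw 7, 1)])
(.lp [[3], [1, 6], [0, 2, 4, 5, 7, 8, 9]] [(.mj 8 6, 627), (.rw 7, 1)])
(.maj 3 6
(.haz 6 959 2 25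
(.cut 3 [(0, 1), (1, 1), (2, 1), (3, 1), (5, 1), (7, 1), (23, 1), (55, 1), (183, 1), (439, 1)]
(.lp [[3], [1, 6], [0, 2, 4, 5, 7, 8, 9]] [(.mj 9 3, 269), (.hz 5 959, 510209), (.rw 8, 1)]))
(.cut 3 [(0, 1), (1, 1), (2, 1), (3, 1), (5, 1), (7, 1), (23, 1), (55, 1)]
(.cut 6 [(0, 1), (1, 1), (2, 1), (3, 1), (5, 1), (7, 1), (13, 1), (15, 1), (23, 1)]
(.cut 3 [(0, 1), (1, 1), (2, 1), (3, 1), (5, 1), (7, 1), (23, 1), (55, 1), (183, 1)]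
(.cut 6 [(0, 1), (1, 1), (2, 1), (3, 1), (5, 1), (7, 1), (13, 1), (15, 1), (23, 1), (55, 1)]
(.cut 6 [(0, 1), (1, 1), (2, 1), (3, 1), (5, 1), (7, 1), (13, 1), (15, 1), (23, 1), (31, 1), (55, 1), (183, 1)]
(.lp [[3], [1, 6], [0, 2, 4, 5, 7, 8, 9]] [(.mj 1 2, 70153), (.mj 9 3, 599), (.hz 5 183, 197630), (.hz 5 439, 610708), (.rw 8, 10), (.rw 9, 1), (.rw 10, 4), (.rw 11, 2), (.rw 12, 5)])))))))
(.ask 87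
(.mark 87 [3, 5, 10]
(.cut 3 [(0, 1), (1, 1), (2, 1), (3, 1)]
(.cut 3 [(0, 1), (1, 1), (2, 1), (3, 1), (5, 1), (7, 1), (23, 1)]
(.cut 3 [(0, 1), (1, 1), (2, 1), (3, 1), (5, 1), (7, 1), (23, 1), (55, 1)]
(.cut 3 [(0, 1), (1, 1), (2, 1), (3, 1), (5, 1), (7, 1), (23, 1), (87, 1), (1111, 1)]
(.cut 3 [(0, 1), (1, 1), (2, 1), (3, 1), (5, 1), (7, 1), (23, 1), (55, 1), (87, 1), (119, 1), (183, 1), (247, 1)]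
(.cut 6 [(0, 1), (1, 1), (2, 1), (3, 1), (5, 1), (7, 1), (23, 1), (55, 1), (183, 1)]
(.lp [[3], [1, 6, 10], [0, 2, 4, 5, 7, 8, 9]] [(.rw 7, 3), (.rw 8, 3), (.rw 9, 4), (.rw 10, 3), (.rw 11, 3), (.rw 12, 3), (.rw 13, 12)]))))))))
(.cut 3 [(0, 1), (1, 1), (2, 1), (3, 1)]
(.cut 3 [(0, 1), (1, 1), (2, 1), (3, 1), (5, 1), (7, 1), (23, 1)]
(.cut 6 [(0, 1), (1, 1), (2, 1), (3, 1), (5, 1), (7, 1), (23, 1), (55, 1), (183, 1)]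
(.cut 3 [(0, 1), (1, 1), (2, 1), (3, 1), (5, 1), (7, 1), (23, 1), (55, 1), (87, 1), (183, 1)]
(.cut 3 [(0, 1), (1, 1), (2, 1), (3, 1), (5, 1), (7, 1), (23, 1), (55, 1), (87, 1), (119, 1), (183, 1), (439, 1)]
(.lp [[3], [1, 6], [0, 2, 4, 5, 7, 8, 9]] [(.rw 7, 3), (.rw 8, 3), (.rw 9, 7), (.rw 10, 12), (.rw 11, 3), (.rw 12, 3)]))))))))
.fin))
(.lp [[3], [1, 6], [0, 2, 4, 5, 7, 8]] [(.mj 8 6, 1), (.rw 6, 1)]))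
.fin))
(.lp [[3], [1, 6], [0, 2, 4, 5, 7]] [(.mj 7 6, 1), (.rw 5, 1)]))
.fin))
(.lp [[3], [1, 6], [0, 2, 4, 5]] [(.mj 1 2, 7), (.mj 5 6, 1)]))
(.con 6 5)
.fin))
(.spn
(.lp [[], [0, 2, 3], [1, 4, 5]] [(.mj 1 2, 6), (.mj 3 5, 1)])
(.ask 55
(.ask 55
(.ref 2)
(.spn
(.lp [[], [0, 2, 3], [1, 4, 5, 6]] [(.mj 5 3, 1), (.rw 5, 1)])
(.ask 119
(.haz 3 247 1 20
(.ask 119
(.mark 119 [3, 7, 8]
(.spn
(.lp [[3], [1, 8], [0, 2, 4, 5, 6, 7]] [(.rw 5, 1), (.rw 6, 3)])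
(.ask 247
(.mark 247 [3, 8, 9]
(.spn
(.lp [[3], [1, 8], [0, 2, 4, 5, 6, 7, 9]] [(.mj 7 3, 176), (.rw 7, 1)])
(.maj 3 9
(.cut 3 [(0, 1), (1, 1), (2, 1), (3, 1), (5, 1), (7, 1), (23, 1), (55, 1), (119, 1), (247, 1)]
(.lp [[3], [1, 8], [0, 2, 4, 5, 6, 7, 9]] [(.mj 7 8, 337), (.mj 8 3, 674), (.hz 5 759, 316049), (.rw 8, 2)]))
(.cut 3 [(0, 1), (1, 1), (2, 1), (3, 1), (5, 1), (7, 1), (23, 1), (55, 1), (119, 1), (247, 1)]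
(.lp [[3], [1, 8], [0, 2, 4, 5, 6, 7, 9]] [(.mj 7 8, 166), (.mj 8 9, 166), (.mj 9 3, 2105), (.hz 5 503, 311605), (.rw 8, 7)])))
(.ask 759
(.mark 759 [3, 8, 10]
(.spn
(.lp [[3], [1, 8], [0, 2, 4, 5, 6, 7, 9, 10]] [(.mj 9 3, 76), (.rw 8, 1)])
(.lp [[3], [1, 8], [0, 2, 4, 5, 6, 7, 9, 10]] [(.mj 9 8, 1180), (.rw 8, 2), (.hz 5 503, 1475564)])
(.cut 3 [(0, 1), (1, 1), (2, 1), (3, 1), (5, 1)]
(.cut 3 [(0, 1), (1, 1), (2, 1), (3, 1), (5, 1), (7, 1), (23, 1), (55, 1)]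
(.cut 3 [(0, 1), (1, 1), (2, 1), (3, 1), (5, 1), (7, 1), (23, 1), (55, 1), (119, 1)]
(.lp [[3], [1, 8], [0, 2, 4, 5, 6, 7, 9, 10]] [(.mj 10 3, 28614), (.rw 8, 1), (.hz 5 759, 2823713), (.rw 9, 24), (.rw 10, 54), (.rw 11, 18)]))))
.fin))
(.lp [[3], [1, 8], [0, 2, 4, 5, 6, 7, 9]] [(.mj 9 8, 1), (.rw 7, 1)]))
.fin))
(.lp [[3], [1, 8], [0, 2, 4, 5, 6, 7]] [(.mj 7 8, 1020), (.rw 6, 1)]))
(.con 8 7)
.fin))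
(.spn
(.lp [[], [0, 2, 3], [1, 4, 5, 6, 7]] [(.mj 6 3, 1), (.rw 6, 1)])
(.ask 247
(.ask 247
(.mark 247 [3, 8, 9]
(.spn
(.lp [[3], [1, 9], [0, 2, 4, 5, 6, 7, 8]] [(.mj 7 3, 176), (.rw 7, 1)])
(.maj 3 9
(.cut 9 [(0, 1), (1, 1), (2, 1), (3, 1), (5, 1), (7, 1), (13, 1), (15, 1), (23, 1), (31, 1), (55, 1), (63, 1), (119, 1), (127, 1)]
(.cut 3 [(0, 1), (1, 1), (2, 1), (3, 1), (5, 1), (7, 1), (23, 1), (55, 1), (119, 1), (247, 1)]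
(.lp [[3], [1, 9], [0, 2, 4, 5, 6, 7, 8]] [(.mj 8 3, 33293), (.hz 5 759, 16247372), (.rw 8, 5), (.rw 9, 111)])))
(.cut 3 [(0, 1), (1, 1), (2, 1), (3, 1), (5, 1)]
(.cut 3 [(0, 1), (1, 1), (2, 1), (3, 1), (5, 1), (7, 1), (23, 1), (55, 1), (119, 1), (247, 1)]
(.lp [[3], [1, 9], [0, 2, 4, 5, 6, 7, 8]] [(.mj 8 3, 1995), (.mj 9 3, 1995), (.rw 8, 3), (.rw 9, 11)]))))
(.con 9 8)
.fin))
(.spn
(.lp [[], [0, 2, 3], [1, 4, 5, 6, 7, 8]] [(.rw 7, 1)])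
(.ask 503
(.maj 3 9
(.ask 503
(.mark 503 [3, 9, 10]
(.spn
(.lp [[3], [1, 10], [0, 2, 4, 5, 6, 7, 8, 9]] [(.rw 7, 1), (.rw 8, 3)])
(.con 9 3)
(.con 10 9)
.fin))
(.lp [[], [0, 2, 3], [1, 4, 5, 6, 7, 8, 9]] [(.mj 3 9, 1), (.mj 8 3, 1)]))
(.cut 3 [(0, 1), (1, 1), (2, 1), (3, 1), (5, 1), (7, 1), (23, 1), (55, 1), (119, 1), (247, 1)]
(.lp [[], [0, 2, 3], [1, 4, 5, 6, 7, 8, 9]] [(.mj 9 3, 278), (.rw 8, 1)])))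
(.lp [[], [0, 2, 3], [1, 4, 5, 6, 7, 8]] [(.rw 7, 1)]))
.fin
.fin))
(.lp [[], [0, 2, 3], [1, 4, 5, 6, 7]] [(.rw 6, 1)]))
.fin
.fin))
(.cut 3 [(0, 1), (1, 1), (2, 1), (3, 1)]
(.lp [[], [0, 2, 3], [1, 4, 5, 6, 7]] [(.hz 5 5, 49617), (.hz 5 7, 99234), (.rw 6, 1)])))
(.lp [[], [0, 2, 3], [1, 4, 5, 6]] [(.rw 5, 1)]))
.fin
.fin))
(.lp [[], [0, 2, 3], [1, 4, 5]] [(.mj 5 3, 1)]))
.fin
.fin))
(.lp [[], [1, 4], [0, 2, 3]] [(.rw 3, 1)]))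
.fin
.fin))
(.cut 4 [(0, 1), (1, 1), (2, 1), (3, 1), (5, 1)]
(.lp [[], [1, 4], [0, 2, 3]] [(.mj 1 2, 64500), (.hz 4 7, 3359357), (.rw 3, 28)])))
(.lp [[], [1], [0, 2, 3]] [(.mj 1 2, 1)])))
(.ask 7
(.ask 7
(.ask 7
(.mark 7 [3, 4, 5]
(.dec 7))
(.dec 7))
(.dec 7))
(.cmp [5, 2])))
.fin
.fin
.fin)

theorem run266 : run P3488 (leaf3 218 625) (cutRow P3488) [s265, s263, s264] t266 s266 = true := by
  decide +kernel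

theorem bad266 : Bad P3488 s266 :=
  run_sound (leaf3_sound P3488 rfl rfl) (cutRow_sound P3488) (
    List.forall_mem_cons.2 ⟨bad265, List.forall_mem_cons.2 ⟨bad263, List.forall_mem_cons.2 ⟨bad264, fun _ h => absurd h List.not_mem_nil⟩⟩⟩) t266 s266 run266

/-- the state above piece 94 of the tree -/
def s94 : St := ⟨[0, 0, 1, 3, 5, 5, 11, 31], [31, 23, 21, 15, 7, 3, 2, 1, 0], [0, 1, 2, 3, 4, 6],
  [],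
  [⟨true, 2, 3, 3, 10⟩, ⟨true, 1, 5, 2, 5⟩, ⟨true, 2, 3, 23, 50⟩, ⟨true, 1, 5, 12, 25⟩, ⟨true, 2, 11, 12, 25⟩, ⟨true, 4, 79, 11, 50⟩, ⟨true, 5, 31, 1, 50⟩, ⟨true, 3, 39, 7, 25⟩, ⟨true, 5, 31, 1, 25⟩],
  [.spn 0 0 651200, .spn 1 1 302400, .spn 3 2 302400, .spn 7 3 140426, .spn 15 4 140426, .spn 31 6 140426]⟩

/-- piece 94 of the tree -/
noncomputable def t94 : WN.Tree :=
(.haz 4 47 17 50
(.haz 3 39 2 5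
(.haz 3 39 23 50
(.haz 5 159 3 50
(.haz 1 37 27 50
(.haz 3 55 16 25
(.ask 75
(.mark 95 [5, 7, 8]
(.spn
(.haz 7 95 19 50
(.lp [[5], [0, 2, 4, 7], [1, 3, 6, 8]] [(.mj 4 6, 8981), (.mj 5 7, 8981), (.mj 6 5, 8981), (.rw 5, 2), (.rw 6, 1), (.hz 15 95, 729677), (.hz 15 127, 1010321), (.hz 15 351, 2806449)])
(.haz 5 31 4 25
(.lp [[5], [0, 2, 4, 7], [1, 3, 6, 8]] [(.mj 0 1, 5521), (.mj 4 6, 17495), (.mj 6 5, 11723), (.rw 6, 4), (.hz 15 31, 1452941), (.hz 15 95, 1535357), (.hz 16 159, 2637780), (.hz 16 351, 7625200)])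
(.haz 5 15 7 50
(.lp [[5], [0, 2, 4, 7], [1, 3, 6, 8]] [(.mj 4 6, 35), (.mj 6 5, 19), (.hz 16 31, 3030), (.hz 15 31, 3349), (.hz 17 79, 2686), (.hz 15 95, 3021), (.hz 17 159, 2133), (.hz 17 335, 6041)])
(.haz 5 351 7 50
(.lp [[5], [0, 2, 4, 7], [1, 3, 6, 8]] [(.mj 4 6, 4999), (.rw 6, 1), (.hz 17 5, 24196), (.hz 17 7, 76525), (.hz 16 21, 57608), (.hz 17 15, 137374), (.hz 16 23, 250785), (.hz 16 31, 1142464), (.hz 15 31, 571232), (.hz 15 95, 504538), (.hz 18 351, 1162579)])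
(.lp [[5], [0, 2, 4, 7], [1, 3, 6, 8]] [(.mj 4 6, 1025), (.rw 6, 4), (.hz 18 95, 1208164), (.hz 15 95, 128139), (.hz 8 351, 640693)])))))
(.ref 0)
(.ask 331
(.mark 351 [5, 7, 9]
(.cut 5 [(0, 1), (1, 1), (2, 1), (3, 1), (5, 1), (7, 1), (11, 1), (21, 1), (15, 1), (23, 1), (75, 1), (31, 1), (331, 1), (843, 1)]
(.lp [[5], [0, 2, 4, 7], [1, 3, 6, 8, 9]] [(.mj 4 6, 58091), (.mj 8 5, 33572), (.mj 8 7, 29824), (.rw 5, 22), (.hz 12 159, 7027891), (.hz 4 843, 4100898), (.hz 12 223, 35392498), (.hz 12 479, 4392559), (.hz 8 863, 24579647), (.rw 7, 40)])))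
(.haz 7 95 3 10
(.cut 5 [(0, 1), (1, 1), (2, 1), (3, 1), (5, 1), (7, 1), (11, 1), (21, 1), (15, 1), (23, 1), (75, 1), (31, 1), (331, 1)]
(.lp [[5], [0, 2, 4, 7], [1, 3, 6, 8]] [(.mj 4 6, 903), (.mj 8 5, 673), (.mj 8 7, 626), (.hz 15 95, 496872), (.hz 12 159, 88451), (.hz 15 127, 1292548), (.rw 7, 1)]))
(.lp [[5], [0, 2, 4, 7], [1, 3, 6, 8]] [(.mj 0 1, 19), (.mj 4 6, 24), (.mj 8 5, 18), (.hz 13 37, 156), (.hz 15 31, 11407), (.hz 15 95, 4980), (.hz 12 159, 2063), (.hz 12 223, 13110), (.hz 8 351, 28188)])))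
.fin))
(.haz 6 159 11 50
(.haz 1 37 29 50
(.haz 3 39 12 25
(.haz 1 53 7 10
(.ask 79
(.ref 1)
(.haz 6 47 11 50
(.haz 6 191 3 10
(.ask 95
(.ref 2)
(.spn
(.lp [[5], [1, 3, 6], [0, 2, 4, 7]] [(.mj 4 5, 1), (.mj 5 7, 3), (.mj 6 5, 4)])
(.haz 4 47 1 2
(.ask 159
(.mark 159 [5, 6, 8]
(.ask 223
(.mark 223 [5, 8, 9]
(.spn
(.lp [[5], [1, 3, 6, 9], [0, 2, 4, 7, 8]] [(.mj 5 9, 481), (.mj 6 7, 2840), (.mj 7 5, 1504), (.rw 7, 2)])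
(.lp [[5], [1, 3, 6, 9], [0, 2, 4, 7, 8]] [(.mj 6 7, 7), (.mj 8 5, 5), (.mj 8 9, 1), (.hz 12 159, 3087), (.hz 12 223, 948), (.hz 12 735, 2572)])
(.cut 5 [(0, 1), (1, 1), (2, 1), (3, 1), (5, 1), (7, 1), (11, 1), (21, 1), (15, 1), (23, 1), (75, 1), (31, 1), (79, 1), (95, 1), (159, 1), (223, 1), (415, 1)]
(.cut 8 [(0, 1), (1, 1), (2, 1), (3, 1), (5, 1), (7, 1), (11, 1), (21, 1), (37, 1), (15, 1), (23, 1), (39, 1), (53, 1), (75, 1), (31, 1), (47, 1), (55, 1), (79, 1), (63, 1), (95, 1), (111, 1), (159, 1), (127, 1), (191, 1), (223, 1), (255, 1)]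
(.cut 5 [(0, 1), (1, 1), (2, 1), (3, 1), (5, 1), (7, 1), (11, 1), (21, 1), (15, 1), (23, 1), (75, 1), (31, 1), (79, 1), (95, 1)]
(.lp [[5], [1, 3, 6, 9], [0, 2, 4, 7, 8]] [(.mj 6 7, 27890), (.mj 9 5, 13698), (.rw 8, 11), (.rw 9, 2), (.rw 10, 32)]))))
.fin))
(.lp [[5], [1, 3, 6], [0, 2, 4, 7, 8]] [(.mj 6 7, 3), (.mj 7 5, 2), (.hz 12 159, 904)])))
(.ask 223
(.ask 223
(.mark 223 [5, 8, 9]
(.spn
(.haz 8 735 11 40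
(.ask 735
(.mark 735 [5, 8, 10]
(.lp [[5], [1, 3, 6, 8], [0, 2, 4, 7, 9, 10]] [(.mj 5 8, 9), (.mj 5 9, 3), (.mj 6 7, 9), (.mj 7 5, 12), (.mj 8 9, 1), (.hz 22 735, 3817), (.hz 22 1759, 3492)]))
(.lp [[5], [1, 3, 6, 9], [0, 2, 4, 7, 8]] [(.mj 5 8, 2), (.mj 7 5, 3)]))
(.lp [[5], [1, 3, 6, 9], [0, 2, 4, 7, 8]] [(.mj 6 7, 2), (.mj 7 5, 3), (.mj 8 9, 2), (.hz 22 223, 955), (.hz 12 735, 2884)]))
(.cut 5 [(0, 1), (1, 1), (2, 1), (3, 1), (5, 1), (7, 1), (11, 1), (21, 1), (15, 1), (23, 1), (75, 1), (31, 1), (79, 1), (95, 1), (159, 1), (223, 1)]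
(.lp [[5], [1, 3, 6, 9], [0, 2, 4, 7, 8]] [(.mj 6 7, 43607), (.mj 8 5, 15698), (.rw 8, 50)]))
(.con 9 8)
.fin))
(.spn
(.lp [[5], [1, 3, 6], [0, 2, 4, 7, 8]] [(.mj 5 8, 1), (.mj 7 5, 1)])
(.cut 5 [(0, 1), (1, 1), (2, 1), (3, 1), (5, 1), (7, 1), (11, 1), (21, 1), (15, 1), (23, 1), (75, 1), (31, 1), (79, 1), (95, 1), (159, 1)]
(.lp [[5], [1, 3, 6], [0, 2, 4, 7, 8]] [(.mj 6 7, 43607), (.mj 8 5, 15698), (.rw 8, 50)]))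
.fin
.fin))
(.lp [[5], [1, 3, 6], [0, 2, 4, 7]] [(.mj 7 5, 1)])))
(.lp [[5], [1, 3, 6], [0, 2, 4, 7]] [(.mj 0 1, 1), (.mj 7 5, 1), (.hz 21 15, 5235), (.hz 9 47, 178), (.hz 12 159, 62), (.hz 9 111, 100)]))
.fin
.fin))
(.lp [[5], [1, 3, 6], [0, 2, 4, 7]] [(.mj 3 4, 1), (.mj 6 5, 9), (.mj 6 7, 10), (.hz 20 31, 9886), (.hz 20 47, 3149), (.hz 12 159, 4374)]))
(.lp [[5], [1, 3, 6], [0, 2, 4, 7]] [(.mj 6 5, 113), (.mj 6 7, 99), (.hz 19 15, 25477), (.hz 9 47, 3625), (.hz 8 95, 26792), (.hz 12 159, 47226)])))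
(.lp [[5], [1, 3, 6], [0, 2, 4, 7]] [(.mj 4 6, 5), (.mj 6 5, 8), (.hz 18 21, 8417), (.hz 16 37, 645), (.hz 17 39, 423), (.hz 16 53, 1241), (.hz 14 55, 1772), (.hz 8 95, 1052), (.hz 12 159, 351)]))
(.lp [[5], [1, 3, 6], [0, 2, 4, 7]] [(.mj 6 5, 6), (.mj 6 7, 2), (.hz 17 7, 1972), (.hz 11 39, 701), (.hz 14 55, 760), (.hz 8 95, 532), (.hz 12 159, 1278)]))
(.lp [[5], [1, 3, 6], [0, 2, 4, 7]] [(.mj 3 4, 31), (.mj 6 5, 158), (.mj 6 7, 3), (.hz 16 5, 17539), (.hz 13 37, 16745), (.hz 11 39, 13017), (.hz 13 53, 15290), (.hz 14 55, 32606), (.hz 8 95, 2872), (.hz 12 159, 18913)]))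
(.lp [[5], [1, 3, 6], [0, 2, 4, 7]] [(.mj 6 5, 1), (.mj 6 7, 1), (.hz 15 15, 93), (.hz 15 31, 142), (.hz 12 159, 467)])))
(.lp [[5], [1, 3, 6], [0, 2, 4, 7]] [(.mj 4 6, 2), (.mj 6 5, 3), (.hz 14 23, 1295), (.hz 11 39, 235), (.hz 11 55, 360)]))
(.lp [[5], [1, 3, 6], [0, 2, 4, 7]] [(.mj 3 4, 1), (.mj 6 5, 10), (.hz 13 5, 1025), (.hz 3 37, 2198), (.hz 11 39, 818), (.hz 4 75, 429), (.hz 3 53, 1684), (.hz 11 55, 1087)]))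
(.lp [[5], [1, 3, 6], [0, 2, 4, 7]] [(.mj 0 1, 249), (.mj 6 7, 11), (.hz 12 5, 1208), (.hz 12 7, 386), (.hz 12 21, 1285), (.hz 12 23, 1778), (.hz 12 31, 916), (.hz 8 95, 3526), (.hz 8 159, 7606)]))
(.lp [[5], [1, 3, 6], [0, 2, 4, 7]] [(.mj 3 4, 9), (.mj 6 5, 23), (.mj 6 7, 5), (.hz 11 7, 4031), (.hz 10 39, 34192), (.hz 4 75, 1365), (.hz 9 47, 1867), (.hz 8 95, 1350), (.hz 8 159, 8453)]))
(.lp [[5], [1, 3, 6], [0, 2, 4, 7]] [(.mj 3 4, 1), (.mj 6 5, 4), (.mj 6 7, 1), (.hz 10 7, 6218), (.hz 7 39, 1194), (.hz 4 75, 251), (.hz 9 47, 358)]))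
(.cut 5 [(0, 1), (1, 1), (2, 1), (3, 1), (5, 1), (7, 1), (11, 1), (21, 1), (15, 1), (23, 1), (75, 1), (31, 1)]
(.lp [[5], [1, 3, 6], [0, 2, 4, 7]] [(.mj 0 1, 31030), (.mj 4 6, 8571), (.mj 6 5, 11260), (.hz 3 37, 317929), (.hz 9 15, 1159504), (.hz 3 53, 317929), (.hz 8 31, 1228155), (.hz 7 55, 545020), (.rw 6, 4)])))

theorem run94 : run P3488 (leaf3 218 625) (cutRow P3488) [s90, s93, s92] t94 s94 = true := by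
  decide +kernel

theorem bad94 : Bad P3488 s94 :=
  run_sound (leaf3_sound P3488 rfl rfl) (cutRow_sound P3488) (
    List.forall_mem_cons.2 ⟨bad90, List.forall_mem_cons.2 ⟨bad93, List.forall_mem_cons.2 ⟨bad92, fun _ h => absurd h List.not_mem_nil⟩⟩⟩) t94 s94 run94

/-- the state above piece 229 of the tree -/
def s229 : St := ⟨[0, 0, 1, 3, 5, 15, 23, 47, 63], [95, 87, 63, 47, 31, 23, 21, 15, 11, 7, 5, 3, 2, 1, 0], [0, 1, 2, 3, 4, 5, 6],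
  [(5, 6), (4, 5)],
  [⟨true, 2, 3, 3, 10⟩, ⟨true, 1, 5, 2, 5⟩, ⟨true, 2, 3, 23, 50⟩, ⟨true, 1, 5, 12, 25⟩, ⟨true, 1, 21, 27, 50⟩, ⟨true, 4, 15, 9, 40⟩, ⟨true, 3, 23, 11, 20⟩, ⟨true, 4, 47, 7, 20⟩, ⟨true, 4, 47, 17, 40⟩, ⟨true, 4, 47, 9, 20⟩, ⟨true, 4, 47, 19, 40⟩, ⟨true, 5, 95, 1, 5⟩, ⟨true, 5, 95, 3, 10⟩, ⟨true, 5, 31, 3, 10⟩, ⟨true, 5, 95, 11, 25⟩, ⟨true, 6, 63, 3, 20⟩, ⟨true, 7, 319, 1, 10⟩, ⟨true, 7, 319, 7, 40⟩, ⟨true, 7, 63, 1, 5⟩],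
  [.spn 0 0 651200, .spn 1 1 302400, .spn 3 2 302400, .spn 7 3 302400, .spn 15 4 302400, .spn 31 5 302400, .spn 63 6 140426]⟩

/-- piece 229 of the tree -/
noncomputable def t229 : WN.Tree :=
(.ask 127
(.mark 127 [7, 8, 9]
(.spn
(.ref 0)
(.ask 319
(.mark 383 [7, 9, 10]
(.spn
(.haz 10 1023 1 5
(.haz 9 1407 11 40
(.haz 10 1023 1 4
(.ask 1343
(.mark 1407 [7, 9, 11]
(.lp [[7], [0, 2, 4, 6, 9], [1, 3, 5, 8, 10, 11]] [(.mj 3 4, 7), (.mj 6 8, 18), (.mj 7 9, 12), (.mj 8 7, 20), (.hz 18 63, 4584), (.hz 18 639, 79739), (.hz 18 1343, 6471), (.hz 20 1407, 5822), (.hz 18 3391, 51051), (.hz 20 1535, 689), (.hz 20 3455, 12763)]))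
(.ask 1407
(.maj 9 10
(.mark 1407 [7, 9, 11]
(.lp [[7], [0, 2, 4, 6, 9], [1, 3, 5, 8, 10, 11]] [(.mj 3 4, 1649), (.mj 6 8, 2607), (.mj 7 9, 1693), (.mj 8 7, 3307), (.mj 9 10, 224), (.hz 18 63, 1030521), (.hz 18 639, 13840494), (.hz 18 1343, 8896859), (.hz 18 1407, 156874), (.hz 20 1407, 1054783), (.hz 20 3455, 1454874)]))
(.ask 175
(.mark 1535 [9, 11, 12]
(.lp [[7, 12], [0, 2, 4, 6, 9], [1, 3, 5, 8, 10, 11]] [(.mj 6 8, 16), (.mj 7 10, 13), (.mj 8 7, 24), (.mj 10 9, 15), (.hz 18 639, 159918), (.hz 18 895, 106433), (.hz 20 1407, 15360), (.hz 20 1535, 1743), (.hz 20 3455, 2497)]))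
(.lp [[7], [0, 2, 4, 6, 9], [1, 3, 5, 8, 10, 11]] [(.mj 3 4, 317), (.mj 6 8, 127), (.mj 7 10, 20), (.mj 8 7, 163), (.mj 10 9, 31), (.hz 18 319, 351063), (.hz 18 639, 978039), (.hz 18 1343, 104295), (.hz 18 895, 462521), (.hz 20 1407, 20821)])))
(.lp [[7], [0, 2, 4, 6, 9], [1, 3, 5, 8, 10]] [(.mj 3 4, 6), (.mj 6 8, 9), (.mj 7 9, 6), (.mj 8 7, 12), (.hz 18 63, 3915), (.hz 18 639, 49712), (.hz 20 1407, 1714), (.hz 20 1535, 366)])))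
(.lp [[7], [0, 2, 4, 6, 9], [1, 3, 5, 8, 10]] [(.mj 3 4, 95), (.mj 6 8, 18), (.mj 7 9, 17), (.mj 8 7, 70), (.hz 18 63, 59114), (.hz 21 319, 52669), (.hz 21 383, 152165), (.hz 18 639, 455572), (.hz 20 1407, 14530)]))
(.ask 175
(.mark 511 [9, 10, 11]
(.lp [[8, 10], [0, 2, 4, 6, 9], [1, 3, 5, 7, 11]] [(.mj 3 4, 168), (.mj 6 8, 328), (.mj 8 7, 231), (.hz 20 127, 93484), (.hz 18 319, 1278502), (.hz 10 2223, 3753), (.hz 20 383, 58692), (.hz 18 639, 310390)]))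
(.lp [[7], [0, 2, 4, 6, 9], [1, 3, 5, 8, 10]] [(.mj 3 4, 229), (.mj 6 8, 64), (.mj 8 7, 83), (.hz 18 127, 173391), (.hz 18 319, 185592), (.hz 20 383, 5286), (.hz 18 639, 322465), (.hz 18 1343, 42291)])))
(.lp [[7], [0, 2, 4, 6, 9], [1, 3, 5, 8, 10]] [(.mj 3 4, 28), (.mj 6 8, 5), (.mj 7 9, 5), (.mj 8 7, 21), (.hz 18 63, 17724), (.hz 19 319, 12303), (.hz 19 383, 46083), (.hz 18 639, 136702)]))
(.lp [[7], [0, 2, 4, 6, 9], [1, 3, 5, 8, 10]] [(.mj 3 4, 5), (.mj 6 8, 1), (.mj 8 9, 1), (.mj 9 7, 4), (.hz 18 63, 3227), (.hz 18 127, 10487), (.hz 18 319, 6637), (.hz 18 383, 19906), (.hz 18 639, 3332), (.hz 18 1343, 6797)])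
(.lp [[7], [0, 2, 4, 6, 9], [1, 3, 5, 8, 10]] [(.mj 3 4, 4), (.mj 6 8, 1), (.mj 10 7, 3), (.hz 18 63, 2211), (.hz 18 127, 7186), (.hz 18 319, 7560), (.hz 18 383, 15671), (.hz 18 639, 11680)])
.fin))
(.ask 383
(.mark 383 [7, 9, 10]
(.spn
(.haz 10 895 3 10
(.ask 175
(.mark 511 [9, 10, 11]
(.lp [[8, 10], [0, 2, 4, 6, 9], [1, 3, 5, 7, 11]] [(.mj 3 4, 1037), (.mj 6 8, 44), (.mj 7 10, 104), (.mj 8 7, 378), (.hz 18 127, 556447), (.hz 10 2223, 27550), (.hz 18 639, 2208189), (.hz 15 2239, 166337), (.hz 19 895, 441637)]))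
(.lp [[7], [0, 2, 4, 6, 9], [1, 3, 5, 8, 10]] [(.mj 3 4, 73), (.mj 6 8, 7), (.mj 7 10, 5), (.mj 8 7, 22), (.hz 18 127, 38712), (.hz 18 639, 114443), (.hz 19 895, 21910)]))
(.lp [[7], [0, 2, 4, 6, 9], [1, 3, 5, 8, 10]] [(.mj 3 4, 34), (.mj 8 7, 19), (.hz 18 63, 2535), (.hz 18 127, 57142), (.hz 19 383, 10677), (.hz 18 639, 105913)]))
(.lp [[7], [0, 2, 4, 6, 9], [1, 3, 5, 8, 10]] [(.mj 3 4, 2), (.mj 9 7, 1), (.hz 10 175, 63), (.hz 18 127, 2796), (.hz 18 319, 602), (.hz 18 383, 4189), (.hz 18 639, 46)])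
(.lp [[7], [0, 2, 4, 6, 9], [1, 3, 5, 8, 10]] [(.mj 3 4, 2), (.mj 10 7, 1), (.hz 10 175, 61), (.hz 18 127, 2713), (.hz 18 319, 613), (.hz 18 383, 4157), (.hz 18 639, 125)])
.fin))
(.lp [[8], [1, 3, 5, 7], [0, 2, 4, 6, 9]] [(.mj 3 4, 5), (.mj 8 7, 3), (.hz 10 175, 2), (.hz 18 127, 8790), (.hz 18 639, 14651)])))
(.lp [[8], [1, 3, 5, 7], [0, 2, 4, 6, 9]] [(.mj 3 4, 10012), (.mj 9 7, 2062), (.rw 7, 1), (.hz 10 175, 268575), (.hz 18 127, 11884464), (.hz 15 319, 1231044), (.hz 18 319, 3609038)])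
.fin))
(.spn
(.haz 8 255 6 25
(.haz 8 255 3 10
(.lp [[8], [0, 2, 4, 6], [1, 3, 5, 7]] [(.mj 6 7, 7), (.mj 7 8, 4), (.hz 20 255, 9541)])
(.ask 319
(.mark 319 [6, 7, 9]
(.lp [[7], [0, 2, 4, 6], [1, 3, 5, 8, 9]] [(.mj 6 7, 1), (.hz 20 127, 1528), (.hz 19 255, 570), (.hz 18 831, 3652)]))
(.lp [[8], [0, 2, 4, 6], [1, 3, 5, 7]] [(.mj 3 4, 3), (.mj 6 7, 2), (.hz 20 127, 2119), (.hz 19 255, 699)])))
(.lp [[8], [0, 2, 4, 6], [1, 3, 5, 7]] [(.mj 3 4, 8), (.mj 6 7, 34), (.hz 19 127, 9976), (.hz 18 319, 109641)]))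
(.haz 8 255 17 25
(.ask 319
(.mark 319 [6, 7, 9]
(.ask 383
(.mark 383 [7, 9, 10]
(.spn
(.lp [[7], [0, 2, 4, 6, 10], [1, 3, 5, 8, 9]] [(.mj 6 8, 59), (.mj 7 10, 17), (.mj 8 7, 41), (.hz 18 319, 106018), (.hz 18 831, 175033)])
(.lp [[7], [0, 2, 4, 6, 10], [1, 3, 5, 8, 9]] [(.mj 6 8, 2), (.mj 9 7, 2), (.hz 18 319, 11077), (.hz 18 383, 7469)])
(.lp [[7], [0, 2, 4, 6, 10], [1, 3, 5, 8, 9]] [(.mj 3 4, 2), (.mj 6 8, 1), (.mj 10 7, 2), (.hz 18 63, 1193), (.hz 18 127, 3877), (.hz 18 319, 4080), (.hz 18 383, 8456)])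
.fin))
(.lp [[7], [0, 2, 4, 6], [1, 3, 5, 8, 9]] [(.mj 6 8, 1), (.mj 8 7, 1), (.hz 18 319, 3391)])))
(.ask 383
(.haz 6 191 17 50
(.ask 175
(.mark 191 [6, 8, 10]
(.ask 1199
(.mark 1215 [6, 8, 11]
(.lp [[8], [0, 2, 4, 6, 9], [1, 3, 5, 7, 10, 11]] [(.mj 3 4, 29), (.mj 6 8, 19), (.mj 8 7, 3), (.hz 19 255, 8416), (.hz 10 3247, 2468), (.hz 19 1279, 24499), (.hz 20 3263, 14808), (.hz 19 3327, 28054)]))
(.ask 1215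
(.mark 1215 [6, 8, 11]
(.lp [[8], [0, 2, 4, 6, 9], [1, 3, 5, 7, 10, 11]] [(.mj 3 4, 40), (.mj 6 8, 20), (.mj 8 7, 4), (.hz 19 255, 7828), (.hz 20 1215, 1721), (.hz 19 1279, 13858), (.hz 20 3263, 8796), (.hz 19 3327, 25870)]))
(.lp [[8], [0, 2, 4, 6, 9], [1, 3, 5, 7, 10]] [(.mj 3 4, 10), (.mj 6 8, 4), (.mj 8 7, 1), (.hz 19 255, 1411), (.hz 19 1279, 2240)]))))
(.ask 191
(.mark 191 [6, 8, 10]
(.lp [[8], [0, 2, 4, 6, 9], [1, 3, 5, 7, 10]] [(.mj 3 4, 481), (.mj 6 8, 53), (.mj 8 7, 75), (.hz 18 383, 169733), (.hz 20 1215, 25501), (.hz 19 1279, 25082)]))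
(.lp [[8], [1, 3, 5, 7], [0, 2, 4, 6, 9]] [(.mj 3 4, 19), (.mj 6 8, 3), (.mj 8 7, 2)])))
(.lp [[8], [1, 3, 5, 7], [0, 2, 4, 6, 9]] [(.mj 6 8, 1), (.mj 8 7, 2), (.hz 20 63, 620), (.hz 18 127, 8862)]))
(.lp [[8], [0, 2, 4, 6], [1, 3, 5, 7]] [(.mj 8 7, 1)])))
(.lp [[8], [0, 2, 4, 6], [1, 3, 5, 7]] [(.mj 3 4, 10), (.mj 6 8, 3), (.mj 8 7, 7), (.hz 18 63, 6074), (.hz 19 127, 4645), (.hz 18 319, 6371)]))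
.fin
.fin))

theorem run229 : run P3488 (leaf3 218 625) (cutRow P3488) [s228] t229 s229 = true := by
  decide +kernel

theorem bad229 : Bad P3488 s229 :=
  run_sound (leaf3_sound P3488 rfl rfl) (cutRow_sound P3488) (
    List.forall_mem_cons.2 ⟨bad228, fun _ h => absurd h List.not_mem_nil⟩) t229 s229 run229

/-- the state above piece 248 of the tree -/
def s248 : St := ⟨[0, 0, 1, 3, 5, 15, 31, 31, 63, 127], [127, 95, 63, 47, 31, 23, 21, 15, 11, 7, 5, 3, 2, 1, 0], [0, 1, 2, 3, 4, 5, 6, 8],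
  [(4, 5)],
  [⟨true, 2, 3, 3, 10⟩, ⟨true, 1, 5, 2, 5⟩, ⟨true, 2, 3, 23, 50⟩, ⟨true, 1, 5, 12, 25⟩, ⟨true, 1, 21, 27, 50⟩, ⟨true, 4, 15, 9, 40⟩, ⟨true, 3, 23, 11, 20⟩, ⟨true, 4, 47, 7, 20⟩, ⟨true, 4, 47, 17, 40⟩, ⟨true, 4, 47, 9, 20⟩, ⟨true, 4, 47, 19, 40⟩, ⟨true, 5, 31, 3, 10⟩, ⟨true, 4, 47, 3, 5⟩, ⟨true, 4, 47, 5, 8⟩, ⟨true, 6, 159, 1, 10⟩, ⟨true, 6, 319, 1, 8⟩, ⟨true, 6, 319, 1, 5⟩],
  [.spn 0 0 651200, .spn 1 1 302400, .spn 3 2 302400, .spn 7 3 302400, .spn 15 4 302400, .spn 31 5 140426, .spn 63 6 140426, .spn 127 8 140426]⟩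

/-- piece 248 of the tree -/
noncomputable def t248 : WN.Tree :=
(.haz 5 159 17 40
(.haz 7 895 1 20
(.haz 5 159 19 40
(.haz 6 191 7 20
(.haz 5 223 13 20
(.haz 7 127 1 8
(.ask 319
(.mark 383 [7, 9, 10]
(.spn
(.haz 9 383 13 40
(.lp [[7], [0, 2, 4, 6, 9], [1, 3, 5, 8, 10]] [(.mj 0 1, 1977), (.mj 7 9, 18), (.mj 8 7, 29), (.hz 19 159, 5411), (.hz 21 223, 7908), (.hz 23 383, 5648), (.hz 22 639, 5406), (.hz 23 511, 9935), (.hz 22 1407, 4449), (.hz 23 1407, 14380)])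
(.ask 159
(.mark 511 [9, 10, 11]
(.lp [[7, 11], [0, 2, 4, 6, 9], [1, 3, 5, 8, 10]] [(.mj 0 1, 100490), (.mj 8 7, 1135), (.rw 8, 1), (.hz 23 127, 169628), (.hz 19 2207, 214800), (.hz 23 383, 124840), (.hz 22 639, 1236956), (.hz 21 2271, 627876), (.hz 22 1407, 342211)]))
(.lp [[7], [0, 2, 4, 6, 9], [1, 3, 5, 8, 10]] [(.mj 0 1, 664970), (.mj 8 7, 6894), (.rw 8, 1), (.hz 23 127, 1115684), (.hz 21 223, 4933410), (.hz 23 383, 1062255), (.hz 22 639, 12387073), (.hz 22 1407, 14156643)])))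
(.ask 639
(.mark 895 [7, 10, 11]
(.lp [[7], [1, 3, 5, 8, 10], [0, 2, 4, 6, 9, 11]] [(.mj 0 1, 637), (.mj 8 9, 5), (.mj 9 7, 10), (.hz 19 159, 1547), (.hz 22 127, 5342), (.hz 21 223, 2261), (.hz 22 383, 33897), (.hz 22 639, 28166), (.hz 22 1407, 70594), (.hz 22 2687, 3069)]))
(.ask 895
(.mark 895 [7, 10, 11]
(.spn
(.lp [[7], [1, 3, 5, 8, 10], [0, 2, 4, 6, 9, 11]] [(.mj 0 1, 3645), (.mj 7 11, 14), (.mj 9 7, 72), (.hz 19 159, 4354), (.hz 22 127, 64855), (.hz 21 223, 6363), (.hz 22 383, 317926), (.hz 22 1407, 634142)])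
(.lp [[7], [1, 3, 5, 8, 10], [0, 2, 4, 6, 9, 11]] [(.mj 0 1, 58), (.mj 10 7, 1), (.hz 19 159, 86), (.hz 22 127, 1652), (.hz 21 223, 126), (.hz 22 383, 4986), (.hz 22 639, 1371), (.hz 22 895, 5020), (.hz 22 1407, 2080), (.hz 22 2943, 918)])
(.lp [[7], [1, 3, 5, 8, 10], [0, 2, 4, 6, 9, 11]] [(.mj 0 1, 43), (.mj 11 7, 1), (.hz 19 159, 57), (.hz 22 127, 1346), (.hz 21 223, 84), (.hz 22 383, 3847), (.hz 22 639, 1071), (.hz 22 895, 3879), (.hz 22 1407, 552)])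
.fin))
(.lp [[7], [0, 2, 4, 6, 9], [1, 3, 5, 8, 10]] [(.mj 0 1, 58), (.mj 9 7, 1), (.hz 19 159, 124), (.hz 21 223, 181), (.hz 22 383, 3609), (.hz 22 1407, 7819)])))
(.lp [[7], [0, 2, 4, 6, 9], [1, 3, 5, 8, 10]] [(.mj 0 1, 667), (.mj 10 7, 8), (.mj 10 9, 3), (.hz 19 159, 1885), (.hz 21 223, 2755), (.hz 22 383, 31634), (.hz 22 639, 28632), (.hz 22 1407, 12901)])
.fin))
(.haz 8 639 3 10
(.haz 8 639 3 8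
(.ask 383
(.mark 383 [7, 9, 10]
(.spn
(.haz 10 895 9 40
(.haz 10 895 7 20
(.haz 10 895 17 40
(.ask 639
(.mark 895 [7, 10, 11]
(.lp [[7], [1, 3, 5, 8, 10], [0, 2, 4, 6, 9, 11]] [(.mj 0 1, 81), (.mj 7 9, 5), (.mj 7 10, 20), (.mj 8 7, 32), (.hz 22 639, 64001), (.hz 27 895, 15165), (.hz 22 2687, 89918), (.hz 24 2687, 23314), (.hz 27 2943, 26007)]))
(.ask 895
(.mark 895 [7, 10, 11]
(.lp [[7], [1, 3, 5, 8, 10], [0, 2, 4, 6, 9, 11]] [(.mj 0 1, 466), (.mj 7 9, 3), (.mj 7 10, 10), (.mj 8 7, 19), (.hz 22 639, 24380), (.hz 27 895, 6807), (.hz 27 2943, 9255)]))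
(.lp [[7], [0, 2, 4, 6, 9], [1, 3, 5, 8, 10]] [(.mj 7 10, 2), (.mj 8 7, 3)])))
(.lp [[7], [0, 2, 4, 6, 9], [1, 3, 5, 8, 10]] [(.mj 0 1, 17138), (.mj 7 9, 257), (.mj 8 7, 545), (.hz 27 383, 237759), (.hz 22 639, 2058034), (.hz 26 895, 297221)]))
(.lp [[7], [0, 2, 4, 6, 9], [1, 3, 5, 8, 10]] [(.mj 0 1, 417), (.mj 7 9, 7), (.mj 8 7, 14), (.hz 26 383, 11310), (.hz 22 639, 51076), (.hz 25 895, 3894)]))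
(.lp [[7], [0, 2, 4, 6, 9], [1, 3, 5, 8, 10]] [(.mj 7 9, 6), (.mj 8 7, 10), (.hz 25 383, 4190), (.hz 22 639, 42241)]))
(.ask 639
(.mark 895 [7, 10, 11]
(.lp [[7], [1, 3, 5, 8, 10], [0, 2, 4, 6, 9, 11]] [(.mj 8 9, 11), (.mj 9 7, 62), (.hz 22 127, 206723), (.hz 22 383, 268556), (.hz 22 639, 53637), (.hz 22 1407, 187409), (.hz 22 2687, 17037)]))
(.ask 895
(.mark 895 [7, 10, 11]
(.spn
(.haz 11 1919 7 20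
(.lp [[7], [1, 3, 5, 8, 10], [0, 2, 4, 6, 9, 11]] [(.mj 0 1, 750), (.mj 7 10, 4), (.mj 7 11, 11), (.mj 9 7, 26), (.hz 22 127, 16376), (.hz 22 383, 62340), (.hz 22 1407, 124642), (.hz 25 1919, 38950)])
(.lp [[7], [1, 3, 5, 8, 10], [0, 2, 4, 6, 9, 11]] [(.mj 7 10, 3), (.mj 9 7, 4), (.hz 25 895, 7509), (.hz 22 1407, 32889)]))
(.lp [[7], [1, 3, 5, 8, 10], [0, 2, 4, 6, 9, 11]] [(.mj 0 1, 71), (.mj 10 7, 2), (.hz 22 127, 4203), (.hz 22 383, 9007), (.hz 22 639, 2702), (.hz 22 895, 9179), (.hz 22 1407, 842)])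
(.lp [[7], [1, 3, 5, 8, 10], [0, 2, 4, 6, 9, 11]] [(.mj 0 1, 3), (.mj 11 7, 1), (.hz 22 127, 3301), (.hz 22 383, 4454), (.hz 22 639, 1685), (.hz 22 895, 5025), (.hz 22 1407, 3099)])
.fin))
(.lp [[7], [0, 2, 4, 6, 9], [1, 3, 5, 8, 10]] [(.mj 0 1, 76), (.mj 9 7, 2), (.hz 22 127, 3355), (.hz 22 383, 9629), (.hz 22 1407, 7534)])))
(.lp [[7], [0, 2, 4, 6, 9], [1, 3, 5, 8, 10]] [(.mj 0 1, 76), (.mj 10 7, 2), (.hz 22 127, 4529), (.hz 22 383, 9705), (.hz 22 639, 3467), (.hz 24 639, 1296), (.hz 22 895, 9044)])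
.fin))
(.spn
(.lp [[7], [1, 3, 5, 8], [0, 2, 4, 6, 9]] [(.mj 6 7, 1), (.mj 7 9, 2), (.mj 8 7, 2)])
(.lp [[7], [1, 3, 5, 8], [0, 2, 4, 6, 9]] [(.mj 8 9, 7), (.mj 9 7, 4), (.hz 22 639, 43604)])
.fin
.fin))
(.lp [[7], [1, 3, 5, 8], [0, 2, 4, 6, 9]] [(.mj 8 7, 10), (.mj 8 9, 9), (.hz 24 127, 30711), (.hz 22 639, 64773), (.hz 20 447, 1762)]))
(.lp [[7], [1, 3, 5, 8], [0, 2, 4, 6, 9]] [(.mj 6 8, 1), (.mj 8 7, 4), (.mj 8 9, 4), (.hz 23 127, 9751), (.hz 22 639, 24883)])))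
(.ref 0))
(.lp [[7], [1, 3, 5, 8], [0, 2, 4, 6, 9]] [(.mj 6 8, 2), (.mj 8 7, 3), (.hz 21 95, 4024), (.hz 19 159, 857), (.hz 19 223, 1154)]))
(.lp [[7], [1, 3, 5, 8], [0, 2, 4, 6, 9]] [(.mj 0 1, 186), (.mj 8 7, 2), (.hz 20 63, 1016), (.hz 19 159, 469), (.hz 14 191, 1037), (.hz 19 223, 469)]))
(.lp [[7], [1, 3, 5, 8], [0, 2, 4, 6, 9]] [(.mj 3 4, 1), (.hz 19 31, 27)]))
(.lp [[7], [1, 3, 5, 8], [0, 2, 4, 6, 9]] [(.mj 0 1, 283), (.mj 8 9, 1), (.hz 18 31, 1433), (.hz 18 95, 1508)]))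
(.lp [[7], [1, 3, 5, 8], [0, 2, 4, 6, 9]] [(.mj 3 4, 2), (.hz 17 31, 54)]))

theorem run248 : run P3488 (leaf3 218 625) (cutRow P3488) [s247] t248 s248 = true := by
  decide +kernel

theorem bad248 : Bad P3488 s248 :=
  run_sound (leaf3_sound P3488 rfl rfl) (cutRow_sound P3488) (
    List.forall_mem_cons.2 ⟨bad247, fun _ h => absurd h List.not_mem_nil⟩) t248 s248 run248

/-- the state above piece 32 of the tree -/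
def s32 : St := ⟨[0, 0, 1, 1, 3, 7, 15], [13, 11, 9, 7, 5, 3, 2, 1, 0], [0, 1, 2, 3],
  [],
  [⟨true, 1, 9, 7, 50⟩, ⟨true, 2, 11, 3, 50⟩, ⟨true, 2, 9, 9, 50⟩, ⟨true, 3, 3, 1, 5⟩, ⟨true, 1, 5, 13, 50⟩, ⟨true, 5, 31, 1, 8⟩, ⟨true, 4, 39, 1, 20⟩],
  [.spn 0 0 651200, .spn 1 1 140426, .spn 3 2 140426, .spn 7 3 62723]⟩

/-- piece 32 of the tree -/
noncomputable def t32 : WN.Tree :=
(.mark 15 [4, 5, 6]
(.spn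
(.haz 5 79 1 10
(.haz 5 15 11 40
(.haz 4 39 9 40
(.haz 4 79 3 20
(.haz 4 79 1 5
(.maj 5 6
(.haz 4 79 1 4
(.ask 19
(.mark 31 [5, 6, 7]
(.spn
(.ask 39
(.mark 39 [3, 4, 8]
(.lp [[3, 6], [1, 4, 7], [0, 2, 5, 8]] [(.mj 2 3, 51), (.mj 3 4, 37), (.mj 4 5, 28), (.mj 5 6, 6), (.hz 9 39, 750), (.hz 3 147, 24837), (.hz 12 79, 9284), (.hz 8 79, 4203), (.hz 3 295, 6086), (.hz 9 295, 1736)]))
(.lp [[3, 6], [0, 2, 5], [1, 4, 7]] [(.mj 2 3, 20), (.mj 3 4, 12), (.mj 4 5, 8), (.mj 5 6, 2), (.hz 3 147, 11704), (.hz 12 79, 4538), (.hz 8 79, 892)]))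
(.con 6 5)
(.lp [[3, 6], [0, 2, 5], [1, 4, 7]] [(.mj 2 3, 3), (.mj 3 4, 4), (.mj 7 5, 2), (.mj 7 6, 1), (.hz 9 39, 357), (.hz 8 31, 366), (.hz 9 47, 109), (.hz 12 79, 1562), (.hz 8 79, 463)])
.fin))
(.ask 27
(.mark 31 [5, 6, 7]
(.lp [[3, 6], [0, 2, 5], [1, 4, 7]] [(.mj 2 3, 41), (.mj 3 4, 22), (.mj 4 5, 35), (.mj 5 6, 2), (.hz 8 15, 1934), (.hz 8 79, 6136)]))
(.ask 23
(.mark 31 [5, 6, 7]
(.spn
(.ask 39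
(.mark 63 [6, 7, 8]
(.spn
(.ask 79
(.mark 79 [4, 5, 9]
(.lp [[1, 4, 7], [3, 6, 9], [0, 2, 5, 8]] [(.mj 2 3, 145), (.mj 3 4, 131), (.mj 4 5, 83), (.mj 5 6, 16), (.hz 8 15, 1085), (.hz 8 31, 2823), (.hz 12 79, 5289), (.hz 8 79, 7529), (.hz 9 295, 10049), (.hz 8 159, 3894), (.hz 8 591, 10384)]))
(.lp [[3, 6], [1, 4, 7], [0, 2, 5, 8]] [(.mj 2 3, 75), (.mj 3 4, 67), (.mj 4 5, 42), (.mj 5 6, 8), (.hz 8 31, 1683), (.hz 8 79, 3770), (.hz 3 295, 2220), (.hz 9 295, 5073), (.hz 8 159, 1938)]))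
(.lp [[3, 6], [1, 4, 7], [0, 2, 5, 8]] [(.mj 2 3, 96), (.mj 3 4, 92), (.mj 4 5, 55), (.mj 7 6, 13), (.hz 8 31, 1820), (.hz 12 79, 24722), (.hz 8 79, 10792), (.hz 9 295, 7209), (.hz 8 159, 3131), (.hz 12 111, 73136)])
(.lp [[3, 6], [1, 4, 7], [0, 2, 5, 8]] [(.mj 2 3, 38), (.mj 3 4, 38), (.mj 4 5, 24), (.mj 8 6, 6), (.mj 8 7, 1), (.hz 12 79, 6680), (.hz 8 79, 5011), (.hz 9 295, 2900), (.hz 8 159, 2233), (.hz 12 111, 36843)])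
.fin))
(.lp [[3, 6], [0, 2, 5], [1, 4, 7]] [(.mj 2 3, 181), (.mj 3 4, 98), (.mj 4 5, 38), (.hz 9 47, 5164), (.hz 12 79, 49692), (.hz 8 79, 4804), (.hz 3 151, 40181), (.hz 8 159, 194)]))
(.con 6 5)
(.lp [[3, 6], [0, 2, 5], [1, 4, 7]] [(.mj 2 3, 5), (.mj 3 4, 5), (.mj 7 5, 3), (.mj 7 6, 1), (.hz 8 15, 15), (.hz 9 39, 461), (.hz 8 31, 803), (.hz 12 79, 2829), (.hz 8 79, 530)])
.fin))
(.ask 39
(.mark 39 [3, 4, 7]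
(.lp [[1, 4], [3, 6], [0, 2, 5, 7]] [(.mj 2 3, 19), (.mj 3 4, 10), (.mj 4 5, 11), (.hz 8 15, 528), (.hz 8 31, 242), (.hz 8 79, 1612), (.hz 3 167, 1938), (.hz 9 167, 477)]))
(.lp [[1, 4], [3, 6], [0, 2, 5]] [(.mj 2 3, 20), (.mj 3 4, 12), (.mj 4 5, 8), (.mj 5 6, 2), (.hz 12 79, 4538), (.hz 8 79, 892)])))))
(.lp [[1, 4], [3, 6], [0, 2, 5]] [(.mj 2 3, 2), (.mj 4 5, 4), (.mj 5 6, 1), (.hz 12 3, 1028), (.hz 12 7, 1885), (.hz 12 15, 3277), (.hz 8 15, 175), (.hz 11 79, 2352), (.hz 8 79, 503)]))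
(.lp [[1, 4], [3, 6], [0, 2, 5]] [(.mj 2 3, 85), (.mj 3 4, 94), (.mj 4 6, 37), (.mj 6 5, 53), (.hz 8 15, 275), (.hz 9 39, 8567), (.hz 8 31, 14938), (.hz 8 79, 6350)]))
(.lp [[1, 4], [3, 6], [0, 2, 5]] [(.mj 2 3, 3), (.mj 4 5, 7), (.mj 4 6, 2), (.hz 11 3, 1420), (.hz 11 7, 2484), (.hz 11 15, 4182), (.hz 8 15, 305), (.hz 8 79, 1123)]))
(.lp [[1, 4], [3, 6], [0, 2, 5]] [(.mj 2 3, 2), (.mj 4 5, 4), (.mj 4 6, 1), (.hz 10 3, 199), (.hz 10 7, 334), (.hz 10 15, 547), (.hz 8 15, 171), (.hz 8 79, 596)]))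
(.lp [[1, 4], [3, 6], [0, 2, 5]] [(.mj 2 3, 12), (.mj 4 5, 13), (.hz 9 3, 354), (.hz 9 7, 634), (.hz 8 15, 866), (.hz 3 39, 2072), (.hz 8 79, 1552)]))
(.ask 19
(.mark 23 [3, 5, 7]
(.lp [[3, 6], [0, 2, 5], [1, 4, 7]] [(.mj 2 3, 173), (.mj 3 4, 46), (.mj 4 6, 4), (.hz 8 7, 5764), (.hz 3 19, 56840), (.hz 3 147, 90237), (.hz 7 79, 2501)]))
(.haz 3 23 13 40
(.ask 23
(.mark 31 [5, 6, 7]
(.spn
(.haz 6 31 13 40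
(.lp [[3, 6], [0, 2, 5], [1, 4, 7]] [(.mj 2 3, 40), (.mj 3 4, 32), (.mj 5 6, 28), (.hz 8 7, 2287), (.hz 8 15, 3486), (.hz 10 31, 7218), (.hz 9 151, 2709), (.hz 5 159, 3132), (.hz 10 159, 10023)])
(.lp [[3, 6], [0, 2, 5], [1, 4, 7]] [(.mj 2 3, 185), (.mj 3 4, 124), (.mj 5 7, 15), (.hz 8 7, 7322), (.hz 8 15, 11520), (.hz 10 15, 11520), (.hz 10 31, 4692), (.hz 5 159, 23460)]))
(.haz 5 15 9 40
(.lp [[3, 6], [0, 2, 5], [1, 4, 7]] [(.mj 2 3, 7), (.mj 6 5, 5), (.mj 6 7, 1), (.hz 10 15, 588), (.hz 10 31, 1494), (.hz 9 151, 955), (.hz 10 159, 2572)])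
(.lp [[3, 6], [0, 2, 5], [1, 4, 7]] [(.mj 2 3, 14642), (.mj 3 4, 3727), (.mj 6 7, 882), (.rw 5, 1), (.hz 10 7, 399325), (.hz 9 55, 430092), (.hz 9 151, 755633), (.hz 5 159, 3100393)]))
(.haz 6 31 13 40
(.lp [[3, 6], [0, 2, 5], [1, 4, 7]] [(.mj 2 3, 1), (.mj 3 4, 19), (.mj 7 5, 19), (.mj 7 6, 15), (.hz 8 7, 41), (.hz 5 31, 36591), (.hz 10 31, 5868), (.hz 7 79, 19473), (.hz 5 95, 80549), (.hz 5 159, 11840)])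
(.lp [[3, 6], [0, 2, 5], [1, 4, 7]] [(.mj 2 3, 33), (.mj 3 4, 33), (.mj 7 5, 22), (.hz 8 7, 574), (.hz 10 15, 2464), (.hz 5 31, 45021), (.hz 7 79, 10953), (.hz 5 95, 16247), (.hz 5 159, 16247)]))
.fin))
(.lp [[1, 4], [3, 6], [0, 2, 5]] [(.mj 2 3, 27), (.mj 3 4, 8), (.mj 4 6, 3), (.hz 8 7, 1516), (.hz 7 79, 2186)]))
(.lp [[1, 4], [3, 6], [0, 2, 5]] [(.mj 3 4, 1), (.hz 9 7, 100), (.hz 8 7, 67), (.hz 3 19, 18), (.hz 6 39, 98)]))))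
(.lp [[1, 4], [3, 6], [0, 2, 5]] [(.mj 2 3, 12), (.mj 3 4, 10), (.mj 4 6, 4), (.hz 7 7, 1930), (.hz 7 15, 2057)]))
(.ref 0)
(.haz 5 15 11 40
(.lp [[1, 4], [3, 6], [0, 2, 5]] [(.mj 2 3, 9174), (.mj 6 5, 2854), (.rw 4, 2), (.hz 3 19, 4751597), (.hz 7 15, 749853), (.hz 3 23, 4910702), (.hz 6 39, 445952), (.hz 7 31, 802714)])
(.lp [[1, 4], [3, 6], [0, 2, 5]] [(.mj 2 3, 29), (.mj 6 4, 7), (.hz 7 7, 796), (.hz 3 19, 18130), (.hz 3 23, 8242), (.hz 6 39, 659), (.hz 5 31, 6044)]))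
.fin))

theorem run32 : run P3488 (leaf3 218 625) (cutRow P3488) [s29] t32 s32 = true := by
  decide +kernel

theorem bad32 : Bad P3488 s32 :=
  run_sound (leaf3_sound P3488 rfl rfl) (cutRow_sound P3488) (
    List.forall_mem_cons.2 ⟨bad29, fun _ h => absurd h List.not_mem_nil⟩) t32 s32 run32

end Pool.Agent.WN.Data
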