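import Pool.Agent.WN.CutRow
import Pool.Agent.WN.LeafRow
import Pool.Agent.Helper99.WN.ParDef
import Pool.Agent.WN.Data.D15
import Pool.Agent.WN.Data.D17
import Pool.Agent.WN.Data.D23
import Pool.Agent.WN.Data.D25
import Pool.Agent.WN.Data.D26
import Pool.Agent.WN.Data.D32
import Pool.Agent.WN.Data.D35
import Pool.Agent.WN.Data.D36
import Pool.Agent.WN.Data.D39

/-!
# The search tree, part 40
-/

set_option autoImplicit false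

namespace Pool.Agent.WN.Data

open Pool.Agent.W3 Pool.Agent.WN Pool.Agent.Helper99.WN

/-- the state above piece 76 of the tree -/
def s76 : St := ⟨[0, 0, 1, 1], [1, 0], [0, 1],
  [],
  [⟨true, 1, 9, 7, 50⟩, ⟨true, 2, 11, 3, 50⟩, ⟨true, 2, 9, 9, 50⟩, ⟨false, 3, 3, 1, 5⟩],
  [.spn 0 0 651200, .spn 1 1 140426]⟩

/-- piece 76 of the tree -/
noncomputable def t76 : WN.Tree :=
(.haz 2 3 1 4
(.haz 1 9 3 10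
(.haz 2 9 3 10
(.ask 2
(.ref 0)
(.haz 1 9 7 20
(.haz 1 5 7 20
(.ask 3
(.mark 3 [2, 3, 4]
(.spn
(.ask 5
(.ref 1)
(.haz 1 9 19 50
(.ask 7
(.mark 7 [3, 4, 5]
(.spn
(.haz 5 23 13 50
(.haz 3 19 3 25
(.haz 5 23 9 25
(.haz 3 39 9 50
(.haz 5 15 19 50
(.maj 4 5
(.lp [[3], [1, 4], [0, 2, 5]] [(.mj 3 4, 2620), (.mj 4 5, 2963), (.hz 3 1, 811471), (.hz 3 3, 304302), (.hz 4 19, 275416), (.hz 14 15, 293624), (.hz 12 23, 196486), (.hz 13 39, 2645)])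
(.haz 4 7 11 50
(.lp [[3], [1, 4], [0, 2, 5]] [(.mj 3 5, 10), (.mj 5 4, 13), (.hz 3 1, 3382), (.hz 3 3, 2256), (.hz 15 15, 1845), (.hz 15 39, 592)])
(.ask 19
(.mark 23 [3, 5, 6]
(.lp [[3], [0, 2, 5], [1, 4, 6]] [(.mj 3 5, 1), (.hz 3 1, 154), (.hz 3 3, 597), (.hz 15 3, 25), (.hz 11 19, 8), (.hz 12 23, 66), (.hz 4 83, 22), (.hz 11 83, 59), (.hz 12 87, 175)]))
(.lp [[3], [1, 4], [0, 2, 5]] [(.mj 1 2, 13), (.mj 3 5, 45), (.hz 3 1, 3175), (.hz 3 3, 28028), (.hz 15 7, 1727), (.hz 11 19, 1224), (.hz 12 23, 5569)]))))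
(.lp [[3], [1, 4], [0, 2, 5]] [(.mj 3 4, 1), (.hz 3 1, 152), (.hz 3 3, 764), (.hz 14 7, 57), (.hz 11 19, 123), (.hz 12 23, 76)]))
(.lp [[3], [1, 4], [0, 2, 5]] [(.mj 3 4, 5), (.mj 3 5, 8), (.hz 13 1, 71), (.hz 13 3, 157), (.hz 13 5, 86), (.hz 13 7, 296), (.hz 4 19, 1664), (.hz 12 23, 1355)]))
(.lp [[3], [1, 4], [0, 2, 5]] [(.mj 3 4, 4), (.hz 3 1, 606), (.hz 3 3, 2898), (.hz 12 7, 427), (.hz 11 19, 473), (.hz 10 23, 151)]))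
(.lp [[3], [1, 4], [0, 2, 5]] [(.mj 3 4, 5), (.mj 3 5, 7), (.hz 11 1, 724), (.hz 4 19, 1302), (.hz 10 23, 634)]))
(.cut 4 [(0, 1), (1, 1), (2, 1), (3, 1), (5, 1), (9, 1), (7, 1), (13, 1)]
(.lp [[3], [1, 4], [0, 2, 5]] [(.mj 3 4, 8763), (.hz 3 1, 2538248), (.hz 3 3, 3005755), (.hz 10 7, 364683), (.rw 4, 2)])))
(.ref 2)
(.ask 39
(.mark 39 [3, 4, 6]
(.spn
(.lp [[3], [1, 4], [0, 2, 5, 6]] [(.mj 5 3, 1180), (.rw 4, 2)])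
(.maj 3 6
(.cut 3 [(0, 1), (1, 1), (2, 1), (3, 1), (5, 1), (7, 1), (39, 1)]
(.lp [[3], [1, 4], [0, 2, 5, 6]] [(.mj 5 4, 3878), (.rw 4, 4), (.rw 5, 5)]))
(.ask 103
(.mark 103 [3, 4, 7]
(.cut 3 [(0, 1), (1, 1), (2, 1), (3, 1), (5, 1), (7, 1), (19, 1), (39, 1)]
(.cut 3 [(0, 1), (1, 1), (2, 1), (3, 1), (5, 1), (7, 1), (39, 1)]
(.cut 3 [(0, 1), (1, 1), (2, 1), (3, 1), (5, 1), (7, 1), (19, 2), (23, 1), (39, 1), (103, 1)]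
(.lp [[3], [1, 4], [0, 2, 5, 6, 7]] [(.mj 4 3, 18178), (.mj 4 6, 82774), (.mj 5 4, 132438), (.mj 6 3, 64596), (.rw 5, 17), (.rw 6, 184), (.rw 7, 11)])))))
(.cut 3 [(0, 1), (1, 1), (2, 1), (3, 1), (5, 1), (7, 1), (39, 1), (103, 1)]
(.lp [[3], [1, 4], [0, 2, 5, 6]] [(.mj 4 6, 78), (.mj 5 4, 750), (.mj 6 3, 362), (.rw 5, 1)]))))
(.ask 103
(.mark 103 [3, 4, 7]
(.spn
(.lp [[3], [1, 4], [0, 2, 5, 6, 7]] [(.mj 6 3, 274), (.rw 5, 1)])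
(.lp [[3], [1, 4], [0, 2, 5, 6, 7]] [(.mj 6 4, 1180), (.rw 5, 2)])
(.maj 3 4
(.haz 3 247 3 50
(.cut 3 [(0, 1), (1, 1), (2, 1), (3, 1), (5, 1), (7, 1), (39, 1), (103, 1)]
(.cut 4 [(0, 1), (1, 1), (2, 1), (3, 1), (5, 1), (9, 1), (7, 1), (11, 1), (13, 1), (15, 1), (39, 1), (103, 1)]
(.lp [[3], [1, 4], [0, 2, 5, 6, 7]] [(.mj 7 3, 6488), (.hz 10 247, 3928396), (.rw 6, 19), (.rw 7, 4)])))
(.cut 3 [(0, 1), (2, 1)]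
(.lp [[3], [1, 4], [0, 2, 5, 6, 7]] [(.hz 10 1, 41215), (.hz 10 3, 41215), (.rw 6, 2)])))
(.ask 231
(.mark 231 [3, 4, 8]
(.spn
(.con 3 4)
(.lp [[3], [1, 4], [0, 2, 5, 6, 7, 8]] [(.mj 7 4, 274), (.rw 6, 1)])
(.cut 3 [(0, 1), (2, 1)]
(.cut 3 [(0, 1), (1, 1), (2, 1), (3, 1), (5, 1), (7, 1)]
(.cut 4 [(0, 1), (1, 1), (2, 1), (3, 1), (5, 1), (7, 1)]
(.cut 3 [(0, 1), (1, 1), (2, 1), (3, 1), (5, 1), (7, 1), (39, 1)]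
(.cut 4 [(0, 1), (1, 1), (2, 1), (3, 1), (5, 1), (7, 1), (39, 1)]
(.cut 3 [(0, 1), (1, 1), (2, 1), (3, 1), (5, 1), (7, 1), (19, 1), (23, 1), (39, 1), (103, 1)]
(.cut 4 [(0, 1), (1, 1), (2, 1), (3, 1), (5, 1), (7, 1), (39, 1), (103, 1)]
(.lp [[3], [1, 4], [0, 2, 5, 6, 7, 8]] [(.mj 8 4, 2701), (.rw 6, 4), (.hz 6 27, 2271190), (.rw 7, 4), (.rw 8, 11), (.rw 9, 4), (.rw 10, 3), (.rw 11, 18), (.rw 12, 6), (.rw 13, 6)]))))))))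
.fin))
(.lp [[3], [1, 4], [0, 2, 5, 6, 7]] [(.mj 7 4, 1), (.rw 5, 1)])))
.fin))
(.lp [[3], [1, 4], [0, 2, 5, 6]] [(.mj 6 4, 1), (.rw 4, 1)]))
.fin))
(.lp [[3], [1, 4], [0, 2, 5]] [(.mj 5 4, 1), (.rw 3, 1)]))
.fin))
(.spn
(.lp [[3], [0, 2], [1, 4]] [(.mj 3 4, 1), (.hz 3 1, 558)])
(.haz 1 9 11 25
(.haz 1 9 12 25
(.haz 1 13 3 5
(.haz 3 3 7 50
(.haz 1 13 17 25
(.haz 3 23 9 50
(.lp [[3], [0, 2], [1, 4]] [(.mj 2 4, 13), (.mj 4 3, 7), (.hz 15 23, 640)])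
(.lp [[3], [0, 2], [1, 4]] [(.mj 0 1, 8), (.hz 15 5, 131), (.hz 11 9, 61), (.hz 6 9, 357), (.hz 15 7, 36), (.hz 13 19, 36)]))
(.lp [[3], [0, 2], [1, 4]] [(.mj 2 4, 2), (.mj 4 3, 4), (.hz 14 5, 430), (.hz 13 19, 104), (.hz 12 13, 1811)]))
(.cut 3 [(0, 1), (1, 1), (2, 1), (3, 1), (5, 1), (7, 1)]
(.lp [[3], [0, 2], [1, 4]] [(.mj 0 1, 35194), (.hz 13 1, 292360), (.hz 11 9, 384684), (.rw 4, 2)])))
(.lp [[3], [0, 2], [1, 4]] [(.mj 4 3, 579), (.rw 3, 1), (.hz 12 5, 1101965), (.hz 11 9, 83548), (.hz 11 13, 131602)]))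
(.lp [[3], [0, 2], [1, 4]] [(.mj 4 3, 4), (.hz 11 1, 344), (.hz 10 9, 320), (.hz 10 13, 179)]))
(.lp [[3], [0, 2], [1, 4]] [(.mj 4 3, 1), (.hz 10 1, 74), (.hz 9 9, 34), (.hz 9 13, 21)]))
.fin
.fin))
(.lp [[3], [0, 2], [1, 4]] [(.mj 1 2, 2), (.hz 9 1, 83), (.hz 3 1, 405), (.hz 7 9, 61)])))
(.con 3 2)
(.lp [[3], [0, 2], [1, 4]] [(.mj 0 1, 3), (.mj 4 2, 2), (.hz 3 1, 96), (.hz 4 3, 625), (.hz 7 9, 56), (.hz 6 9, 125), (.hz 6 11, 375)])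
.fin))
(.spn
(.haz 2 9 7 20
(.ref 3)
(.lp [[1], [3], [0, 2]] [(.hz 9 1, 5), (.hz 3 1, 5), (.hz 3 3, 11), (.hz 6 9, 6)]))
(.con 3 2)
.fin
.fin))
(.lp [[1], [3], [0, 2]] [(.mj 1 2, 8), (.hz 8 1, 347), (.hz 3 1, 705), (.hz 6 9, 504)]))
(.lp [[1], [3], [0, 2]] [(.mj 1 2, 8), (.hz 7 1, 347), (.hz 3 1, 705), (.hz 6 9, 504)])))
(.haz 3 3 7 50
(.ask 9
(.haz 2 9 6 25
(.haz 3 3 4 25
(.ask 2
(.mark 3 [2, 3, 5]
(.lp [[2], [1, 5], [0, 3, 4]] [(.mj 0 1, 1), (.hz 6 1, 110), (.hz 3 1, 123), (.hz 3 3, 79), (.hz 8 9, 16)]))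
(.ask 3
(.mark 3 [2, 3, 5]
(.spn
(.haz 5 7 3 10
(.maj 3 5
(.mark 9 [1, 2, 4]
(.lp [[2], [1, 5], [0, 3, 4]] [(.mj 3 5, 104), (.hz 6 1, 14193), (.hz 3 1, 13283), (.hz 3 3, 28426), (.hz 9 7, 2041), (.hz 10 7, 19483), (.hz 8 25, 2041)]))
(.haz 5 27 1 4
(.haz 2 35 2 5
(.ask 5
(.mark 7 [3, 5, 6]
(.spn
(.con 3 5)
(.mark 9 [1, 2, 4]
(.ask 25
(.mark 27 [2, 5, 7]
(.lp [[1, 5], [2, 6], [0, 3, 4, 7]] [(.mj 2 5, 176), (.mj 5 3, 99), (.hz 6 1, 15008), (.hz 9 7, 1414), (.hz 9 35, 14286), (.hz 8 25, 1081), (.hz 9 39, 603), (.hz 9 71, 17323), (.hz 11 27, 106144), (.hz 5 153, 12232), (.hz 11 155, 137389)]))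
(.mark 15 [4, 5, 6]
(.lp [[1, 5], [3, 4], [0, 2, 6]] [(.mj 2 5, 625), (.mj 5 3, 299), (.hz 6 1, 54492), (.hz 9 35, 17932), (.hz 9 39, 25111), (.hz 9 71, 51662), (.hz 11 27, 549878)]))))
(.mark 15 [4, 5, 6]
(.lp [[1, 5], [3, 4], [0, 2, 6]] [(.mj 6 5, 1), (.hz 6 1, 184), (.hz 3 1, 317), (.hz 8 9, 42), (.hz 12 35, 153), (.hz 9 35, 31)]))
.fin))
(.ask 7
(.mark 7 [3, 5, 6]
(.spn
(.con 3 5)
(.ask 35
(.mark 47 [4, 6, 7]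
(.lp [[3, 4], [0, 2, 6], [1, 5, 7]] [(.mj 0 1, 20), (.mj 5 3, 11), (.hz 6 1, 82), (.hz 9 3, 575), (.hz 9 7, 750), (.hz 9 35, 16), (.hz 8 25, 22), (.hz 9 71, 839), (.hz 9 163, 47)]))
(.ask 39
(.mark 39 [3, 6, 7]
(.spn
(.mark 47 [4, 6, 7]
(.spn
(.lp [[3, 4], [0, 2, 6], [1, 5, 7]] [(.mj 2 5, 1), (.mj 4 6, 2), (.mj 4 7, 2), (.mj 5 3, 4), (.hz 9 71, 763), (.hz 9 103, 473), (.hz 9 167, 581)])
(.lp [[3, 4], [0, 2, 6], [1, 5, 7]] [(.mj 5 3, 14), (.mj 6 7, 2), (.hz 6 1, 1649), (.hz 9 7, 2421), (.hz 9 71, 397), (.hz 9 167, 163)])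
(.haz 7 103 3 10
(.lp [[3, 4], [0, 2, 6], [1, 5, 7]] [(.mj 0 1, 632), (.mj 3 7, 162), (.mj 5 3, 357), (.mj 7 6, 53), (.hz 6 1, 16275), (.hz 5 25, 29437), (.hz 9 71, 57791), (.hz 4 27, 115226), (.hz 5 29, 4626), (.hz 9 103, 23862), (.hz 13 103, 81146)])
(.lp [[3, 4], [0, 2, 6], [1, 5, 7]] [(.mj 0 1, 1), (.mj 5 3, 5), (.mj 7 6, 1), (.hz 6 1, 403), (.hz 13 39, 1008), (.hz 9 71, 1253), (.hz 9 103, 535)]))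
.fin))
(.lp [[3, 4], [0, 2, 6], [1, 5, 7]] [(.mj 6 3, 1), (.hz 6 1, 118), (.hz 9 7, 113), (.hz 9 35, 6), (.hz 8 25, 20), (.hz 9 39, 73), (.hz 9 167, 62)])
(.mark 15 [4, 5, 6]
(.lp [[3, 4], [0, 2, 6], [1, 5, 7]] [(.mj 7 3, 1), (.hz 6 1, 24), (.hz 9 3, 50), (.hz 9 7, 127), (.hz 9 35, 24), (.hz 9 39, 78)]))
.fin))
(.mark 9 [1, 2, 4]
(.lp [[1, 5], [3, 4], [0, 2, 6]] [(.mj 0 1, 3), (.mj 5 3, 2), (.hz 6 1, 184), (.hz 9 7, 174), (.hz 5 25, 89), (.hz 8 25, 35), (.hz 9 71, 204)]))))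
(.lp [[1, 5], [3, 4], [0, 2, 6]] [(.rw 3, 1), (.hz 6 1, 175543), (.hz 8 9, 43886), (.hz 9 7, 131007), (.hz 10 7, 288021)])
.fin))
(.lp [[2], [1, 5], [0, 3, 4]] [(.mj 2 5, 13), (.mj 5 3, 7), (.hz 9 35, 1420)])))
(.mark 11 [2, 4, 5]
(.lp [[2], [1, 5], [0, 3, 4]] [(.mj 2 5, 35), (.mj 5 3, 23), (.hz 6 1, 1882), (.hz 3 1, 185), (.hz 12 3, 9461), (.hz 8 9, 577), (.hz 9 7, 857), (.hz 9 35, 1749), (.hz 11 27, 21867)])))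
(.mark 11 [2, 4, 5]
(.lp [[2], [1, 5], [0, 3, 4]] [(.mj 5 3, 1), (.hz 6 1, 164), (.hz 11 3, 345), (.hz 9 7, 126), (.hz 11 11, 60), (.hz 8 25, 18), (.hz 4 27, 242)]))))
(.mark 9 [1, 2, 4]
(.lp [[2], [1, 5], [0, 3, 4]] [(.hz 6 1, 359), (.hz 3 1, 156), (.hz 3 3, 623), (.hz 10 3, 266), (.hz 9 7, 76), (.hz 8 25, 76)])))
(.con 3 2)
(.mark 9 [1, 2, 4]
(.lp [[2], [1, 5], [0, 3, 4]] [(.mj 0 1, 2), (.mj 5 2, 2), (.hz 3 1, 138), (.hz 4 3, 697), (.hz 8 9, 36), (.hz 9 7, 98), (.hz 4 11, 287), (.hz 8 25, 48)]))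
.fin))
(.lp [[1], [2], [0, 3, 4]] [(.hz 6 1, 4), (.hz 3 1, 2), (.hz 3 3, 5), (.hz 8 9, 1)])))
(.lp [[1], [2], [0, 3, 4]] [(.mj 0 1, 11), (.hz 6 1, 450), (.hz 9 1, 180)]))
(.lp [[1], [2], [0, 3, 4]] [(.mj 0 1, 2), (.hz 8 1, 32), (.hz 3 1, 161)]))
(.lp [[1], [3], [0, 2]] [(.mj 0 1, 28), (.hz 6 1, 879), (.hz 3 3, 2511), (.hz 6 9, 1255)]))
(.lp [[1], [3], [0, 2]] [(.mj 0 1, 2), (.hz 6 1, 81), (.hz 7 1, 16)])))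
(.lp [[1], [3], [0, 2]] [(.mj 1 2, 4), (.hz 5 0, 132), (.hz 5 1, 246), (.hz 3 1, 403), (.hz 2 9, 49)]))
(.lp [[1], [3], [0, 2]] [(.mj 0 1, 1), (.hz 4 1, 101), (.hz 3 1, 81)]))

theorem run76 : run P3488 (leaf3 218 625) (cutRow P3488) [s75, s72, s71, s74] t76 s76 = true := by
  decide +kernel

theorem bad76 : Bad P3488 s76 :=
  run_sound (leaf3_sound P3488 rfl rfl) (cutRow_sound P3488) (
    List.forall_mem_cons.2 ⟨bad75, List.forall_mem_cons.2 ⟨bad72, List.forall_mem_cons.2 ⟨bad71, List.forall_mem_cons.2 ⟨bad74, fun _ h => absurd h List.not_mem_nil⟩⟩⟩⟩) t76 s76 run76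

/-- the state above piece 46 of the tree -/
def s46 : St := ⟨[0, 0, 1, 1, 7, 7, 11, 23], [47, 55, 39, 31, 15, 13, 9, 7, 5, 3, 2, 1, 0], [0, 1, 2, 3, 4, 5],
  [(3, 4)],
  [⟨true, 1, 9, 7, 50⟩, ⟨true, 2, 11, 3, 50⟩, ⟨true, 2, 9, 9, 50⟩, ⟨true, 3, 3, 1, 5⟩, ⟨true, 1, 5, 13, 50⟩, ⟨true, 2, 11, 3, 5⟩, ⟨true, 2, 9, 8, 25⟩, ⟨true, 2, 9, 17, 50⟩, ⟨true, 2, 11, 33, 50⟩, ⟨true, 4, 47, 4, 25⟩, ⟨true, 4, 79, 1, 5⟩, ⟨true, 5, 159, 7, 50⟩, ⟨true, 4, 79, 3, 10⟩, ⟨true, 3, 23, 7, 25⟩, ⟨true, 3, 23, 3, 10⟩, ⟨true, 6, 63, 2, 25⟩, ⟨true, 5, 95, 4, 25⟩, ⟨true, 4, 79, 9, 25⟩],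
  [.spn 0 0 651200, .spn 1 1 140426, .spn 3 2 302400, .spn 7 3 62723, .spn 15 4 140426, .spn 31 5 62723]⟩

/-- piece 46 of the tree -/
noncomputable def t46 : WN.Tree :=
(.ask 63
(.mark 63 [6, 7, 8]
(.spn
(.ref 0)
(.haz 6 15 11 50
(.lp [[3, 6], [1, 5, 8], [0, 2, 4, 7]] [(.mj 3 4, 5), (.mj 5 7, 1), (.mj 7 6, 8), (.hz 18 15, 530), (.hz 18 31, 900), (.hz 18 47, 679), (.hz 18 63, 2755), (.hz 18 159, 225)])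
(.haz 6 15 1 5
(.lp [[3, 6], [1, 5, 8], [0, 2, 4, 7]] [(.mj 3 4, 30), (.mj 5 7, 5), (.mj 7 6, 55), (.hz 19 15, 40002), (.hz 19 31, 64034), (.hz 19 47, 50003), (.hz 19 63, 192428), (.hz 19 159, 14619)])
(.haz 6 63 1 10
(.haz 2 75 18 25
(.haz 2 75 19 25
(.haz 4 79 21 50
(.haz 4 79 23 50
(.haz 7 95 1 5
(.haz 4 79 12 25
(.haz 7 95 11 50
(.ask 151
(.mark 191 [6, 8, 9]
(.spn
(.haz 7 319 9 40
(.haz 8 703 7 40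
(.haz 6 319 1 8
(.haz 8 191 19 40
(.lp [[3, 6], [1, 5, 8], [0, 2, 4, 7, 9]] [(.mj 3 4, 228), (.mj 5 7, 26), (.mj 6 8, 72), (.mj 7 6, 146), (.hz 22 75, 1880), (.hz 26 79, 11852), (.hz 26 111, 10912), (.hz 31 191, 34953), (.hz 30 319, 344696), (.hz 11 671, 27633), (.hz 31 255, 11828), (.hz 31 703, 90137)])
(.haz 8 703 13 40
(.ask 319
(.mark 319 [6, 7, 10]
(.lp [[3, 6], [1, 5, 8, 10], [0, 2, 4, 7, 9]] [(.mj 3 4, 220), (.mj 4 5, 7), (.mj 5 7, 16), (.mj 6 8, 27), (.mj 7 6, 117), (.hz 22 75, 1814), (.hz 26 79, 11440), (.hz 26 111, 2323), (.hz 31 191, 7737), (.hz 30 319, 339139), (.hz 11 671, 4575), (.hz 32 703, 33988), (.hz 30 1343, 256155)]))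
(.lp [[3, 6], [1, 5, 8], [0, 2, 4, 7, 9]] [(.mj 3 4, 100), (.mj 5 7, 3), (.mj 6 8, 6), (.mj 7 6, 50), (.hz 22 75, 570), (.hz 26 79, 3594), (.hz 26 111, 3309), (.hz 31 191, 10475), (.hz 30 319, 141297), (.hz 32 703, 6943)]))
(.lp [[3, 6], [1, 5, 8], [0, 2, 4, 7, 9]] [(.mj 3 4, 15), (.mj 7 6, 7), (.hz 19 11, 201), (.hz 22 75, 34), (.hz 26 79, 409), (.hz 32 63, 1076), (.hz 26 111, 459), (.hz 32 191, 1362), (.hz 30 319, 21689), (.hz 20 703, 153)])))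
(.lp [[3, 6], [1, 5, 8], [0, 2, 4, 7, 9]] [(.mj 3 4, 5), (.mj 6 8, 1), (.hz 30 11, 628), (.hz 30 15, 1765), (.hz 30 31, 2103), (.hz 30 47, 2646), (.hz 30 63, 4649), (.hz 20 319, 1659), (.hz 28 319, 505), (.hz 11 671, 85)]))
(.lp [[3, 6], [1, 5, 8], [0, 2, 4, 7, 9]] [(.mj 3 4, 4), (.mj 7 6, 2), (.hz 19 11, 167), (.hz 26 79, 162), (.hz 29 63, 455), (.hz 29 191, 343)]))
(.lp [[3, 6], [1, 5, 8], [0, 2, 4, 7, 9]] [(.mj 4 5, 3), (.mj 6 8, 2), (.mj 7 6, 5), (.mj 7 8, 1), (.hz 28 23, 1149), (.hz 28 31, 315), (.hz 20 319, 19404)]))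
(.haz 6 63 1 8
(.haz 5 671 3 8
(.lp [[3, 6], [1, 5, 8], [0, 2, 4, 7, 9]] [(.mj 3 4, 42), (.mj 4 5, 22), (.mj 7 8, 3), (.mj 8 6, 29), (.hz 22 75, 457), (.hz 26 79, 2880), (.hz 28 63, 89128), (.hz 27 95, 2321), (.hz 28 191, 114980), (.hz 28 319, 16263), (.hz 29 671, 40312), (.hz 28 703, 218687)])
(.lp [[3, 6], [1, 5, 8], [0, 2, 4, 7, 9]] [(.mj 3 4, 37), (.mj 8 6, 18), (.hz 22 75, 131), (.hz 29 31, 18259), (.hz 26 79, 829), (.hz 28 63, 36531), (.hz 27 95, 1429), (.hz 26 111, 763), (.hz 28 191, 83153), (.hz 11 671, 7306), (.hz 28 703, 134814)]))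
(.lp [[3, 6], [1, 5, 8], [0, 2, 4, 7, 9]] [(.mj 3 4, 28), (.mj 4 5, 9), (.mj 7 8, 2), (.hz 28 11, 3715), (.hz 28 15, 10438), (.hz 28 31, 14397), (.hz 28 63, 94), (.hz 20 319, 10722), (.hz 11 671, 2469)]))
(.lp [[3, 6], [1, 5, 8], [0, 2, 4, 7, 9]] [(.mj 3 4, 16), (.mj 5 7, 2), (.mj 9 6, 8), (.mj 9 8, 3), (.hz 19 11, 1122), (.hz 26 79, 1091), (.hz 20 63, 548), (.hz 27 95, 1481), (.hz 26 111, 1465), (.hz 20 319, 41547), (.hz 27 383, 15869), (.hz 20 703, 16773)])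
.fin))
(.ref 1))
(.lp [[3, 6], [1, 5, 8], [0, 2, 4, 7]] [(.mj 7 6, 9), (.mj 7 8, 8), (.hz 27 23, 1252), (.hz 27 31, 5576), (.hz 25 95, 39399), (.hz 20 319, 52749)]))
(.lp [[3, 6], [1, 5, 8], [0, 2, 4, 7]] [(.mj 4 5, 76), (.mj 7 6, 11), (.mj 7 8, 8), (.hz 19 11, 10527), (.hz 26 15, 60054), (.hz 19 15, 153654), (.hz 24 79, 9950), (.hz 14 151, 20932), (.hz 25 95, 35390), (.hz 20 319, 54850)]))
(.lp [[3, 6], [1, 5, 8], [0, 2, 4, 7]] [(.mj 7 6, 6), (.mj 7 8, 4), (.hz 25 23, 6937), (.hz 25 31, 25730), (.hz 20 63, 3849), (.hz 20 191, 9136), (.hz 20 319, 29013)]))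
(.lp [[3, 6], [1, 5, 8], [0, 2, 4, 7]] [(.mj 4 5, 1), (.hz 19 11, 172), (.hz 24 15, 286), (.hz 19 15, 1807), (.hz 23 79, 64), (.hz 14 151, 229), (.hz 20 191, 93), (.hz 20 319, 273)]))
(.lp [[3, 6], [1, 5, 8], [0, 2, 4, 7]] [(.mj 4 5, 1), (.hz 19 11, 238), (.hz 23 15, 357), (.hz 19 15, 2169), (.hz 17 79, 179), (.hz 14 151, 317)]))
(.lp [[3, 6], [1, 5, 8], [0, 2, 4, 7]] [(.mj 3 4, 1), (.hz 22 11, 2626), (.hz 19 11, 12743), (.hz 21 75, 2), (.hz 17 79, 2)]))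
(.lp [[3, 6], [1, 5, 8], [0, 2, 4, 7]] [(.mj 3 4, 1), (.hz 21 11, 1314), (.hz 19 11, 6183), (.hz 8 75, 1)]))
(.lp [[3, 6], [1, 5, 8], [0, 2, 4, 7]] [(.mj 1 2, 418), (.mj 3 4, 33), (.mj 7 8, 4), (.hz 20 11, 33076), (.hz 20 15, 4872), (.hz 20 31, 2564), (.hz 20 47, 9487), (.hz 20 63, 7692), (.hz 15 319, 6562)]))))
(.ask 319
(.mark 319 [6, 7, 9]
(.spn
(.lp [[3, 6], [1, 4, 7], [0, 2, 5, 8, 9]] [(.mj 4 5, 3504), (.rw 6, 1), (.rw 7, 3)])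
(.lp [[3, 6], [1, 4, 7], [0, 2, 5, 8, 9]] [(.mj 4 5, 7528), (.rw 6, 3), (.rw 7, 4), (.hz 15 63, 7363945), (.hz 15 191, 4117761)])
(.maj 6 7
(.cut 6 [(0, 1), (1, 1), (2, 1), (3, 1), (5, 1), (9, 1), (7, 1), (11, 1), (13, 1), (15, 1), (23, 1), (39, 1), (31, 1), (47, 1), (55, 1), (63, 1), (319, 1)]
(.lp [[3, 6], [1, 4, 7], [0, 2, 5, 8, 9]] [(.mj 4 5, 41188), (.mj 9 6, 4579), (.rw 7, 10), (.hz 14 151, 2862168), (.hz 11 159, 8586504), (.hz 15 191, 44510456), (.rw 8, 46)]))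
(.cut 7 [(0, 1), (1, 1), (2, 1), (3, 1), (5, 1), (9, 1), (7, 1), (11, 1), (13, 1), (15, 1), (23, 1), (39, 1), (31, 1), (47, 1), (55, 1), (63, 1)]
(.lp [[3, 6], [1, 4, 7], [0, 2, 5, 8, 9]] [(.mj 4 5, 11501), (.rw 7, 5), (.hz 15 63, 11251382), (.hz 15 319, 5353919), (.rw 8, 10)])))
.fin))
(.lp [[3, 6], [1, 5, 8], [0, 2, 4, 7]] [(.mj 8 7, 1), (.rw 6, 1)]))
.fin))
(.spn
(.haz 7 95 11 50
(.lp [[1, 5], [3, 6], [0, 2, 4, 7]] [(.mj 4 5, 1), (.mj 5 6, 12), (.mj 6 7, 7), (.hz 14 151, 64), (.hz 18 95, 4268), (.hz 11 159, 193)])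
(.lp [[1, 5], [3, 6], [0, 2, 4, 7]] [(.mj 2 3, 5), (.mj 4 5, 3), (.mj 5 6, 2), (.mj 6 7, 2), (.hz 18 23, 306)]))
(.haz 6 63 9 50
(.haz 4 79 11 25
(.haz 4 79 1 2
(.haz 6 159 7 50
(.haz 4 111 31 50
(.haz 6 15 1 5
(.lp [[1, 5], [3, 6], [0, 2, 4, 7]] [(.mj 3 4, 65), (.mj 5 7, 5), (.mj 7 6, 38), (.hz 23 31, 30670), (.hz 23 63, 99678), (.hz 23 159, 13203)])
(.haz 4 111 7 10
(.ask 151
(.ask 75
(.mark 223 [5, 8, 9]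
(.lp [[1, 5], [3, 6, 9], [0, 2, 4, 7, 8]] [(.mj 3 4, 1043), (.mj 7 6, 420), (.hz 23 11, 42464), (.hz 20 79, 197256), (.hz 18 63, 83231), (.hz 24 111, 137631), (.hz 20 591, 298153)]))
(.mark 159 [5, 6, 8]
(.lp [[1, 5], [3, 6], [0, 2, 4, 7, 8]] [(.mj 3 4, 215), (.mj 5 7, 1), (.mj 7 6, 57), (.hz 23 15, 66234), (.hz 24 111, 47310)])))
(.ask 159
(.ask 183
(.mark 191 [6, 8, 9]
(.lp [[3, 6], [1, 5, 9], [0, 2, 4, 7, 8]] [(.mj 3 4, 8), (.mj 5 7, 3), (.mj 7 6, 4), (.hz 23 11, 615), (.hz 23 15, 1392), (.hz 20 79, 1608), (.hz 21 159, 738), (.hz 24 111, 1576), (.hz 18 447, 656)]))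
(.mark 159 [5, 6, 8]
(.ask 191
(.mark 191 [6, 8, 9]
(.spn
(.haz 9 447 2 5
(.ask 415
(.mark 447 [6, 9, 10]
(.lp [[3, 6], [1, 5, 9], [0, 2, 4, 7, 8, 10]] [(.mj 3 4, 2), (.mj 5 7, 7), (.mj 6 9, 4), (.mj 7 6, 7), (.hz 21 415, 546), (.hz 25 447, 14034), (.hz 25 1471, 37424)]))
(.ask 447
(.mark 447 [6, 9, 10]
(.lp [[3, 6], [1, 5, 9], [0, 2, 4, 7, 8, 10]] [(.mj 3 4, 2), (.mj 5 7, 22), (.mj 6 9, 11), (.mj 7 6, 19), (.hz 18 447, 3691), (.hz 25 447, 52695), (.hz 25 1471, 87824)]))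
(.lp [[3, 6], [1, 5, 9], [0, 2, 4, 7, 8]] [(.mj 3 4, 1), (.mj 5 7, 5), (.mj 6 9, 3), (.mj 7 6, 5)])))
(.lp [[3, 6], [1, 5, 9], [0, 2, 4, 7, 8]] [(.mj 5 7, 52), (.mj 7 6, 28), (.hz 18 191, 10139), (.hz 25 191, 82216), (.hz 18 447, 22528)]))
(.lp [[3, 6], [1, 5, 9], [0, 2, 4, 7, 8]] [(.mj 3 4, 5), (.mj 5 7, 1), (.mj 8 6, 3), (.hz 23 11, 243), (.hz 20 79, 2837), (.hz 18 63, 328), (.hz 21 159, 665), (.hz 24 111, 544), (.hz 18 191, 1781)])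
(.lp [[3, 6], [1, 5, 9], [0, 2, 4, 7, 8]] [(.mj 3 4, 5), (.mj 5 7, 1), (.mj 9 6, 3), (.hz 23 11, 243), (.hz 20 79, 2837), (.hz 18 63, 328), (.hz 21 159, 665), (.hz 24 111, 544), (.hz 18 191, 1781)])
.fin))
(.lp [[1, 5], [3, 6], [0, 2, 4, 7, 8]] [(.mj 5 7, 3), (.mj 7 6, 2), (.hz 21 159, 735), (.hz 18 447, 779)]))))
(.ask 75
(.mark 79 [4, 5, 8]
(.lp [[1, 5], [3, 6, 8], [0, 2, 4, 7]] [(.mj 3 4, 1043), (.mj 7 6, 420), (.hz 23 11, 42464), (.hz 20 79, 197256), (.hz 18 63, 83231), (.hz 24 111, 137631), (.hz 20 335, 298153)]))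
(.lp [[1, 5], [3, 6], [0, 2, 4, 7]] [(.mj 3 4, 215), (.mj 5 7, 1), (.mj 7 6, 57), (.hz 23 15, 66234), (.hz 24 111, 47310)]))))
(.lp [[1, 5], [3, 6], [0, 2, 4, 7]] [(.mj 3 4, 12), (.mj 4 5, 13), (.mj 5 7, 12), (.mj 7 6, 21), (.hz 24 47, 60263), (.hz 21 159, 3894), (.hz 22 111, 7769)])))
(.lp [[1, 5], [3, 6], [0, 2, 4, 7]] [(.mj 3 4, 4), (.mj 4 5, 3), (.mj 5 7, 4), (.mj 7 6, 6), (.hz 8 75, 18), (.hz 22 47, 3019), (.hz 20 79, 2490), (.hz 21 159, 1014), (.hz 20 111, 50920)]))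
(.lp [[1, 5], [3, 6], [0, 2, 4, 7]] [(.mj 3 4, 7), (.mj 5 7, 1), (.mj 7 6, 1), (.hz 21 11, 105), (.hz 21 15, 839), (.hz 18 191, 522)]))
(.lp [[1, 5], [3, 6], [0, 2, 4, 7]] [(.mj 3 4, 7), (.mj 4 5, 3), (.mj 7 6, 10), (.hz 20 15, 57870), (.hz 19 79, 3576), (.hz 18 63, 2711), (.hz 18 191, 465)]))
(.lp [[1, 5], [3, 6], [0, 2, 4, 7]] [(.mj 3 4, 2), (.mj 4 5, 1), (.mj 7 6, 3), (.hz 19 7, 62), (.hz 19 15, 1451), (.hz 17 79, 1188), (.hz 18 63, 865), (.hz 18 191, 174)]))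
(.lp [[1, 5], [3, 6], [0, 2, 4, 7]] [(.mj 3 4, 22), (.mj 5 7, 1), (.hz 18 11, 369), (.hz 18 15, 1066), (.hz 18 31, 672), (.hz 18 47, 1669), (.hz 18 63, 1599), (.hz 15 191, 492)]))
.fin
.fin))

theorem run46 : run P3488 (leaf3 218 625) (cutRow P3488) [s45, s44] t46 s46 = true := by
  decide +kernel

theorem bad46 : Bad P3488 s46 :=
  run_sound (leaf3_sound P3488 rfl rfl) (cutRow_sound P3488) (
    List.forall_mem_cons.2 ⟨bad45, List.forall_mem_cons.2 ⟨bad44, fun _ h => absurd h List.not_mem_nil⟩⟩) t46 s46 run46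

/-- the state above piece 225 of the tree -/
def s225 : St := ⟨[0, 0, 1, 3, 5, 15, 23, 47, 47, 95], [87, 63, 31, 23, 21, 15, 11, 7, 5, 3, 2, 1, 0], [0, 1, 2, 3, 4, 5, 6],
  [(5, 6), (4, 5)],
  [⟨true, 2, 3, 3, 10⟩, ⟨true, 1, 5, 2, 5⟩, ⟨true, 2, 3, 23, 50⟩, ⟨true, 1, 5, 12, 25⟩, ⟨true, 1, 21, 27, 50⟩, ⟨true, 4, 15, 9, 40⟩, ⟨true, 3, 23, 11, 20⟩, ⟨true, 4, 47, 7, 20⟩, ⟨true, 4, 47, 17, 40⟩, ⟨true, 4, 47, 9, 20⟩, ⟨true, 4, 47, 19, 40⟩, ⟨true, 5, 95, 1, 5⟩, ⟨true, 5, 95, 3, 10⟩, ⟨true, 5, 31, 3, 10⟩, ⟨true, 5, 95, 11, 25⟩, ⟨true, 6, 63, 3, 20⟩, ⟨true, 8, 255, 1, 50⟩, ⟨true, 6, 319, 13, 40⟩],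
  [.spn 0 0 651200, .spn 1 1 302400, .spn 3 2 302400, .spn 7 3 302400, .spn 15 4 302400, .spn 31 5 302400, .spn 63 6 140426]⟩

/-- piece 225 of the tree -/
noncomputable def t225 : WN.Tree :=
(.mark 127 [7, 8, 9]
(.spn
(.haz 7 639 9 50
(.haz 7 639 13 50
(.ask 175
(.ref 0)
(.haz 8 191 2 25
(.ask 191
(.mark 255 [8, 9, 10]
(.spn
(.haz 8 1279 1 8
(.haz 9 1279 1 5
(.haz 8 639 7 40
(.haz 9 255 9 40
(.haz 8 639 9 40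
(.haz 8 1279 1 5
(.haz 9 127 3 10
(.lp [[8], [0, 2, 4, 6, 9], [1, 3, 5, 7, 10]] [(.mj 4 5, 1), (.mj 6 7, 5), (.mj 7 8, 5), (.mj 8 9, 6), (.hz 17 319, 489), (.hz 14 607, 74), (.hz 27 255, 9774), (.hz 27 383, 12819), (.hz 20 1215, 2478), (.hz 26 1279, 2025), (.hz 27 1279, 24471)])
(.haz 7 383 3 8
(.ask 607
(.mark 639 [7, 8, 11]
(.lp [[8], [1, 3, 5, 7, 10], [0, 2, 4, 6, 9, 11]] [(.mj 6 7, 32), (.mj 7 8, 30), (.mj 8 9, 20), (.mj 8 10, 3), (.hz 27 95, 2962), (.hz 28 383, 2962), (.hz 25 639, 16652), (.hz 14 2655, 5482), (.hz 26 1279, 115786), (.hz 24 1279, 24744), (.hz 25 2687, 24967)]))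
(.lp [[8], [0, 2, 4, 6, 9], [1, 3, 5, 7, 10]] [(.mj 0 1, 200), (.mj 6 7, 158), (.mj 7 8, 113), (.mj 8 9, 64), (.hz 27 127, 115226), (.hz 28 383, 154784), (.hz 25 639, 70532), (.hz 26 1279, 721397), (.hz 24 1279, 64897)]))
(.lp [[8], [0, 2, 4, 6, 9], [1, 3, 5, 7, 10]] [(.mj 3 4, 6833), (.mj 7 8, 16965), (.mj 8 9, 690), (.rw 8, 1), (.hz 28 63, 16729413), (.hz 27 95, 4164470), (.hz 28 127, 41759858), (.hz 27 127, 24684113), (.hz 25 639, 10603116), (.hz 26 1279, 13524779), (.hz 24 1279, 700487)])))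
(.lp [[8], [0, 2, 4, 6, 9], [1, 3, 5, 7, 10]] [(.mj 0 1, 53), (.mj 4 5, 1), (.mj 6 7, 1), (.mj 8 9, 6), (.mj 8 10, 2), (.hz 26 63, 6191), (.hz 26 127, 19436), (.hz 26 255, 27349), (.hz 24 255, 721), (.hz 21 1279, 542), (.hz 24 1279, 8455)]))
(.lp [[8], [0, 2, 4, 6, 9], [1, 3, 5, 7, 10]] [(.mj 0 1, 499), (.mj 6 7, 26), (.mj 8 9, 47), (.hz 25 63, 6041), (.hz 25 127, 21099), (.hz 24 255, 19591), (.hz 23 639, 946), (.hz 21 1279, 73994), (.hz 24 1279, 47697)]))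
(.lp [[8], [0, 2, 4, 6, 9], [1, 3, 5, 7, 10]] [(.mj 6 7, 41), (.mj 7 8, 40), (.mj 8 10, 12), (.hz 24 95, 8563), (.hz 24 127, 14635), (.hz 24 255, 21293), (.hz 23 639, 24959), (.hz 21 1279, 136739), (.hz 22 1279, 128678)]))
(.lp [[8], [0, 2, 4, 6, 9], [1, 3, 5, 7, 10]] [(.mj 6 7, 6), (.mj 8 9, 5), (.mj 8 10, 1), (.hz 23 47, 401), (.hz 23 63, 1208), (.hz 23 127, 2507), (.hz 19 639, 920), (.hz 21 1279, 13594), (.hz 22 1279, 47544)]))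
(.lp [[8], [0, 2, 4, 6, 9], [1, 3, 5, 7, 10]] [(.mj 0 1, 7203310), (.mj 7 8, 69214), (.rw 8, 82), (.hz 22 95, 633874904), (.hz 22 127, 695773920), (.hz 22 255, 462869204), (.hz 20 767, 69214087), (.hz 21 1279, 963809583)]))
(.lp [[8], [0, 2, 4, 6, 9], [1, 3, 5, 7, 10]] [(.mj 3 4, 30), (.mj 6 7, 13), (.mj 8 9, 5), (.mj 8 10, 4), (.hz 21 47, 8380), (.hz 21 63, 13900), (.hz 21 127, 16149)]))
(.haz 8 191 1 8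
(.haz 8 127 3 20
(.ask 1215
(.mark 1215 [6, 8, 11]
(.lp [[8], [0, 2, 4, 6, 9], [1, 3, 5, 7, 10, 11]] [(.mj 3 4, 103), (.mj 6 7, 12), (.mj 9 8, 36), (.hz 10 303, 2771), (.hz 22 127, 28855), (.hz 21 191, 52464), (.hz 22 255, 48879), (.hz 22 639, 3103), (.hz 21 1215, 44774), (.hz 22 1279, 64287), (.hz 17 1471, 4583), (.hz 21 3263, 130802), (.hz 17 3519, 47462)]))
(.lp [[8], [0, 2, 4, 6, 9], [1, 3, 5, 7, 10]] [(.mj 3 4, 92), (.mj 6 7, 10), (.mj 9 8, 32), (.hz 10 303, 2460), (.hz 22 127, 25608), (.hz 21 191, 43554), (.hz 22 255, 42712), (.hz 22 639, 3091), (.hz 22 1279, 75419)]))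
(.lp [[8], [0, 2, 4, 6, 9], [1, 3, 5, 7, 10]] [(.mj 3 4, 1424), (.mj 6 7, 421), (.mj 9 8, 25), (.hz 22 47, 115311), (.hz 22 63, 133840), (.hz 22 127, 38511), (.hz 21 191, 760550), (.hz 21 1215, 110031), (.hz 21 767, 79104), (.hz 21 1279, 125750)]))
(.lp [[8], [0, 2, 4, 6, 9], [1, 3, 5, 7, 10]] [(.mj 3 4, 247), (.mj 6 7, 63), (.mj 9 10, 5), (.hz 21 47, 49349), (.hz 21 63, 77012), (.hz 20 191, 24198), (.hz 20 1215, 15767), (.hz 20 767, 7866), (.hz 20 1279, 18625)]))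
(.haz 8 255 3 20
(.lp [[8], [0, 2, 4, 6, 9], [1, 3, 5, 7, 10]] [(.mj 6 7, 53), (.mj 10 8, 47), (.mj 10 9, 34), (.hz 14 607, 9741), (.hz 21 255, 131246), (.hz 19 639, 35852), (.hz 21 767, 381770), (.hz 21 1279, 83642)])
(.cut 8 [(0, 1), (1, 1), (2, 1), (3, 1), (5, 1), (7, 1), (11, 1), (21, 1), (15, 1), (23, 1), (31, 1), (47, 1), (87, 1), (63, 1), (95, 1), (175, 1), (127, 1), (191, 1), (607, 1), (255, 1), (1215, 1)]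
(.lp [[8], [0, 2, 4, 6, 9], [1, 3, 5, 7, 10]] [(.mj 3 4, 45319), (.mj 6 7, 27344), (.mj 10 9, 5891), (.hz 21 47, 4964195), (.hz 21 63, 8111168), (.hz 21 127, 9120235), (.hz 20 191, 13997263), (.hz 19 639, 2150473), (.hz 20 767, 14683236), (.rw 9, 4)])))
.fin))
(.ask 255
(.mark 255 [8, 9, 10]
(.spn
(.haz 9 1279 1 10
(.haz 8 1279 3 25
(.ref 1)
(.lp [[8], [0, 2, 4, 6, 9], [1, 3, 5, 7, 10]] [(.mj 3 4, 60), (.mj 6 7, 11), (.mj 8 10, 2), (.hz 22 47, 3692), (.hz 22 63, 4030), (.hz 22 175, 960), (.hz 22 127, 557), (.hz 21 1279, 11748)]))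
(.lp [[8], [0, 2, 4, 6, 9], [1, 3, 5, 7, 10]] [(.mj 0 1, 586), (.mj 7 8, 12), (.mj 8 10, 13), (.hz 21 95, 29735), (.hz 21 127, 36869), (.hz 21 255, 34832), (.hz 20 767, 11719)]))
(.haz 8 255 7 50
(.lp [[8], [0, 2, 4, 6, 9], [1, 3, 5, 7, 10]] [(.mj 3 4, 124), (.mj 6 7, 2), (.mj 9 8, 38), (.mj 9 10, 1), (.hz 10 303, 3320), (.hz 10 431, 2758), (.hz 21 255, 29423), (.hz 21 767, 13786), (.hz 21 1279, 23632)])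
(.lp [[8], [0, 2, 4, 6, 9], [1, 3, 5, 7, 10]] [(.mj 3 4, 80), (.mj 6 7, 11), (.mj 9 10, 4), (.hz 21 47, 2414), (.hz 21 63, 2513), (.hz 21 175, 1246), (.hz 21 255, 2801), (.hz 20 767, 5450), (.hz 20 1279, 14059)]))
(.ask 1279
(.mark 1279 [8, 9, 11]
(.spn
(.lp [[8], [0, 2, 4, 6, 9], [1, 3, 5, 7, 10, 11]] [(.mj 10 8, 578), (.rw 9, 1)])
(.maj 8 11
(.cut 8 [(0, 1), (1, 1), (2, 1), (3, 1), (5, 1), (7, 1), (11, 1), (21, 1), (15, 1), (23, 1), (31, 1), (47, 1), (87, 1), (63, 1), (95, 1), (175, 1), (127, 1), (191, 1), (607, 1), (255, 1), (639, 1), (767, 1), (1279, 1)]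
(.lp [[8], [0, 2, 4, 6, 9], [1, 3, 5, 7, 10, 11]] [(.mj 10 9, 6328), (.rw 9, 9), (.hz 20 767, 30953491), (.rw 10, 4)]))
(.lp [[8], [0, 2, 4, 6, 9], [1, 3, 5, 7, 10, 11]] [(.mj 9 11, 9), (.mj 10 9, 13), (.mj 11 8, 12), (.hz 20 767, 107086), (.hz 20 1791, 38829), (.hz 20 3327, 41341)]))
(.ask 3327
(.mark 3327 [8, 9, 12]
(.spn
(.lp [[8], [0, 2, 4, 6, 9], [1, 3, 5, 7, 10, 11, 12]] [(.mj 11 8, 208), (.rw 10, 1)])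
(.lp [[8], [0, 2, 4, 6, 9], [1, 3, 5, 7, 10, 11, 12]] [(.mj 11 9, 559), (.rw 10, 1)])
(.maj 8 9
(.cut 8 [(0, 1), (1, 1), (2, 1), (3, 1), (5, 1), (7, 1), (11, 1), (21, 1), (15, 1), (23, 1), (31, 1), (47, 1), (87, 1), (63, 1), (95, 1), (175, 1), (127, 1), (191, 1), (255, 1), (1279, 1)]
(.lp [[8], [0, 2, 4, 6, 9], [1, 3, 5, 7, 10, 11, 12]] [(.mj 3 4, 14361), (.mj 6 7, 5291), (.mj 12 8, 4838), (.hz 10 303, 385210), (.rw 11, 14)]))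
(.cut 9 [(0, 1), (1, 1), (2, 1), (3, 1), (5, 1), (7, 1), (11, 1), (21, 1), (15, 1), (23, 1), (31, 1), (47, 1), (87, 1), (63, 1), (95, 1), (175, 1), (127, 1), (191, 1), (255, 1)]
(.lp [[8], [0, 2, 4, 6, 9], [1, 3, 5, 7, 10, 11, 12]] [(.mj 6 7, 707337), (.rw 10, 286), (.hz 20 191, 922613997), (.hz 20 255, 445428678), (.hz 20 767, 484161607), (.hz 20 1279, 484161607), (.hz 20 3327, 526262616), (.rw 11, 526)])))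
.fin))
(.lp [[8], [0, 2, 4, 6, 9], [1, 3, 5, 7, 10, 11]] [(.mj 11 9, 1), (.rw 9, 1)]))
.fin))
(.lp [[8], [0, 2, 4, 6, 9], [1, 3, 5, 7, 10]] [(.mj 10 9, 1), (.rw 8, 1)]))
.fin))
(.spn
(.haz 9 511 9 50
(.lp [[8], [1, 3, 5, 7], [0, 2, 4, 6, 9]] [(.mj 5 6, 1), (.mj 6 7, 1), (.mj 7 8, 5), (.mj 8 9, 3), (.hz 19 639, 103), (.hz 21 511, 3261)])
(.lp [[8], [1, 3, 5, 7], [0, 2, 4, 6, 9]] [(.mj 6 7, 1), (.mj 7 8, 1), (.hz 21 95, 199), (.hz 21 127, 457), (.hz 21 255, 494)]))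
(.lp [[8], [1, 3, 5, 7], [0, 2, 4, 6, 9]] [(.mj 3 4, 57), (.mj 6 7, 1), (.mj 9 8, 11), (.hz 10 303, 2228), (.hz 17 319, 4991), (.hz 10 431, 1839), (.hz 17 447, 4890), (.hz 20 767, 4229)])
.fin
.fin)))
(.cut 8 [(0, 1), (1, 1), (2, 1), (3, 1), (5, 1), (7, 1), (11, 1), (21, 1), (15, 1), (23, 1), (31, 1), (47, 1), (87, 1), (63, 1), (95, 1), (127, 1), (607, 1), (639, 1)]
(.cut 8 [(0, 1), (1, 1), (2, 1), (3, 1), (5, 1), (7, 1), (11, 1), (21, 1), (15, 1), (23, 1), (31, 1), (47, 1), (87, 1), (63, 1), (95, 1), (127, 1), (607, 1)]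
(.lp [[8], [1, 3, 5, 7], [0, 2, 4, 6, 9]] [(.mj 3 4, 31807), (.mj 6 7, 8309), (.hz 20 47, 1877119), (.hz 20 63, 2069543), (.hz 10 431, 319744), (.rw 8, 1), (.rw 9, 1)])))))
(.lp [[8], [1, 3, 5, 7], [0, 2, 4, 6, 9]] [(.mj 3 4, 19247), (.mj 7 8, 3221), (.rw 7, 13), (.hz 19 47, 435281), (.hz 19 63, 71242), (.hz 10 303, 615636), (.hz 19 127, 8089324)]))
(.lp [[8], [1, 3, 5, 7], [0, 2, 4, 6, 9]] [(.mj 3 4, 1065), (.mj 7 8, 171), (.rw 7, 1), (.hz 18 47, 22891), (.hz 18 63, 4196), (.hz 10 303, 32135), (.hz 18 127, 617480)]))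
(.con 8 7)
(.haz 7 319 9 50
(.ask 175
(.mark 191 [6, 8, 10]
(.cut 7 [(0, 1), (1, 1), (2, 1), (3, 1), (5, 1), (7, 1), (11, 1), (21, 1), (15, 1), (23, 1), (31, 1), (47, 1), (87, 1), (63, 1), (95, 1), (127, 1), (607, 1)]
(.lp [[8], [0, 2, 4, 6, 9], [1, 3, 5, 7, 10]] [(.mj 3 4, 337103), (.mj 9 7, 56411), (.mj 9 8, 31265), (.rw 4, 187), (.hz 10 303, 4135855), (.hz 17 319, 19769651), (.hz 18 319, 24467481), (.hz 18 383, 61763224), (.hz 15 1215, 30583707), (.hz 16 1279, 44169516), (.rw 8, 14)])))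
(.lp [[8], [1, 3, 5, 7], [0, 2, 4, 6, 9]] [(.mj 3 4, 120), (.mj 9 7, 30), (.mj 9 8, 22), (.hz 10 303, 6281), (.hz 15 191, 19383), (.hz 17 319, 12824), (.hz 18 319, 13419), (.hz 18 383, 29311)]))
(.lp [[8], [1, 3, 5, 7], [0, 2, 4, 6, 9]] [(.mj 3 4, 71), (.mj 9 8, 23), (.hz 18 47, 2519), (.hz 18 63, 4897), (.hz 10 303, 2905), (.hz 17 319, 7337), (.hz 16 255, 21166)]))
.fin))

theorem run225 : run P3488 (leaf3 218 625) (cutRow P3488) [s215, s214] t225 s225 = true := by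
  decide +kernel

theorem bad225 : Bad P3488 s225 :=
  run_sound (leaf3_sound P3488 rfl rfl) (cutRow_sound P3488) (
    List.forall_mem_cons.2 ⟨bad215, List.forall_mem_cons.2 ⟨bad214, fun _ h => absurd h List.not_mem_nil⟩⟩) t225 s225 run225

/-- the state above piece 202 of the tree -/
def s202 : St := ⟨[0, 0, 1, 3, 5, 15, 23, 31, 47, 159], [191, 63, 31, 23, 21, 15, 11, 7, 5, 3, 2, 1, 0], [0, 1, 2, 3, 4, 5, 7, 8],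
  [(5, 6), (4, 5)],
  [⟨true, 2, 3, 3, 10⟩, ⟨true, 1, 5, 2, 5⟩, ⟨true, 2, 3, 23, 50⟩, ⟨true, 1, 5, 12, 25⟩, ⟨true, 1, 21, 27, 50⟩, ⟨true, 4, 15, 9, 40⟩, ⟨true, 3, 23, 11, 20⟩, ⟨true, 4, 47, 7, 20⟩, ⟨true, 4, 47, 17, 40⟩, ⟨true, 4, 47, 9, 20⟩, ⟨true, 4, 47, 19, 40⟩, ⟨true, 5, 95, 1, 5⟩, ⟨true, 5, 95, 3, 10⟩, ⟨true, 5, 31, 3, 10⟩, ⟨true, 3, 87, 29, 40⟩, ⟨true, 6, 447, 1, 40⟩],
  [.spn 0 0 651200, .spn 1 1 302400, .spn 3 2 302400, .spn 7 3 302400, .spn 15 4 302400, .spn 31 5 140426, .spn 63 7 140426, .spn 191 8 140426]⟩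

/-- piece 202 of the tree -/
noncomputable def t202 : WN.Tree :=
(.haz 8 703 13 50
(.ask 303
(.mark 447 [6, 9, 10]
(.spn
(.haz 6 1471 3 25
(.haz 9 447 8 25
(.lp [[6], [0, 2, 4, 7, 9], [1, 3, 5, 8, 10]] [(.mj 6 9, 5138), (.mj 7 8, 5138), (.mj 8 6, 5138), (.rw 7, 1), (.rw 8, 1), (.hz 18 447, 2265901), (.hz 18 511, 5266551), (.hz 17 1471, 3468216), (.hz 18 1471, 8477862)])
(.haz 9 447 13 50
(.lp [[6], [0, 2, 4, 7, 9], [1, 3, 5, 8, 10]] [(.mj 6 9, 98), (.mj 6 10, 28), (.mj 7 8, 95), (.mj 8 6, 130), (.hz 18 159, 8131), (.hz 18 191, 24606), (.hz 19 447, 5984), (.hz 19 511, 67234), (.hz 17 1471, 55959), (.hz 19 1471, 106318)])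
(.lp [[6], [0, 2, 4, 7, 9], [1, 3, 5, 8, 10]] [(.mj 7 8, 3560), (.mj 8 6, 2466), (.rw 8, 1), (.hz 19 159, 308415), (.hz 19 191, 896534), (.hz 19 447, 720057), (.hz 17 1471, 4344299)])))
(.lp [[6], [0, 2, 4, 7, 9], [1, 3, 5, 8, 10]] [(.mj 6 9, 177), (.mj 7 8, 451), (.rw 8, 1), (.hz 17 23, 13760), (.hz 17 31, 32836), (.hz 17 63, 54513), (.hz 17 159, 37314), (.hz 17 191, 104349), (.hz 17 447, 1885430)]))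
(.haz 6 1983 2 25
(.haz 5 95 19 50
(.haz 6 31 7 50
(.lp [[6], [0, 2, 4, 7, 9], [1, 3, 5, 8, 10]] [(.mj 5 7, 1), (.mj 7 8, 2), (.mj 8 9, 1), (.mj 9 6, 7), (.hz 19 31, 565), (.hz 19 63, 701), (.hz 19 159, 739), (.hz 19 191, 1523), (.hz 19 319, 2309), (.hz 19 671, 337), (.hz 10 1327, 355), (.hz 19 447, 3706), (.hz 19 703, 1102), (.hz 19 1343, 2118)])
(.ask 671
(.mark 959 [6, 10, 11]
(.spn
(.haz 10 959 6 25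
(.lp [[6], [1, 3, 5, 8, 10], [0, 2, 4, 7, 9, 11]] [(.mj 6 10, 1434), (.mj 6 11, 33), (.mj 8 9, 1401), (.mj 9 6, 1434), (.rw 9, 1), (.hz 20 959, 1474768), (.hz 20 1023, 3225655), (.hz 15 3007, 2513901), (.hz 20 3007, 4235753)])
(.lp [[6], [1, 3, 5, 8, 10], [0, 2, 4, 7, 9, 11]] [(.mj 0 1, 1318), (.mj 8 9, 1309), (.mj 9 6, 775), (.rw 9, 1), (.hz 20 303, 94906), (.hz 20 319, 416633), (.hz 20 447, 1036807), (.hz 20 959, 671473)]))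
(.haz 6 319 2 25
(.haz 6 159 1 10
(.lp [[6], [1, 3, 5, 8, 10], [0, 2, 4, 7, 9, 11]] [(.mj 0 1, 252), (.mj 5 7, 11), (.mj 8 9, 3), (.mj 9 10, 13), (.mj 10 6, 33), (.hz 14 87, 1123), (.hz 21 159, 21829), (.hz 21 191, 41516), (.hz 21 671, 20833), (.hz 21 447, 90565), (.hz 21 703, 71042), (.hz 20 1343, 13298), (.hz 21 2719, 18516), (.hz 21 959, 128580), (.hz 21 1471, 185465), (.hz 21 2751, 84349), (.hz 21 3007, 236588)])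
(.haz 6 159 2 25
(.haz 5 2719 21 50
(.haz 5 2719 12 25
(.maj 6 11
(.cut 6 [(0, 1), (1, 1), (2, 1), (3, 1), (5, 1), (7, 1), (11, 1), (21, 1), (15, 1), (23, 1), (31, 1), (47, 1), (63, 1), (159, 1), (303, 1), (191, 1), (319, 1), (671, 1), (1327, 1), (447, 1), (703, 1), (1343, 1), (959, 1)]
(.cut 6 [(0, 1), (1, 1), (2, 1), (3, 1), (5, 1), (7, 1), (11, 1), (21, 1), (15, 1), (23, 1), (31, 1), (47, 1), (63, 1), (159, 1), (303, 1), (191, 1), (319, 1), (671, 1), (1327, 1), (447, 1), (703, 1), (959, 1)]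
(.lp [[6], [1, 3, 5, 8, 10], [0, 2, 4, 7, 9, 11]] [(.mj 0 1, 9051931), (.mj 5 7, 69841), (.mj 8 9, 141666), (.mj 9 10, 52679), (.mj 10 6, 142190), (.hz 21 23, 241361828), (.hz 21 31, 74467985), (.hz 18 95, 11349165), (.hz 22 671, 94666007), (.hz 24 2719, 26424275), (.hz 22 2719, 31992853), (.hz 22 2751, 498951456), (.hz 16 2751, 3947829), (.hz 20 3007, 1111639121), (.rw 10, 4), (.rw 11, 245)])))
(.lp [[6], [1, 3, 5, 8, 10], [0, 2, 4, 7, 9, 11]] [(.mj 0 1, 1532), (.mj 5 7, 6), (.mj 8 9, 31), (.mj 9 10, 3), (.mj 10 11, 5), (.mj 11 6, 49), (.hz 21 23, 37621), (.hz 18 95, 4275), (.hz 22 191, 7207), (.hz 20 319, 22119), (.hz 22 671, 23747), (.hz 20 447, 31876), (.hz 22 703, 94480), (.hz 20 1343, 42279), (.hz 24 2719, 5572), (.hz 22 2719, 4131), (.hz 20 959, 77342), (.hz 20 1471, 92662), (.hz 22 2751,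 17988), (.hz 17 1983, 172418), (.hz 20 3007, 49167)]))
(.lp [[6], [1, 3, 5, 8, 10], [0, 2, 4, 7, 9, 11]] [(.mj 0 1, 8775), (.mj 5 7, 256), (.mj 8 9, 367), (.mj 9 10, 125), (.mj 10 6, 212), (.hz 21 23, 275082), (.hz 21 31, 305647), (.hz 24 159, 208249), (.hz 22 191, 47385), (.hz 22 671, 174568), (.hz 20 447, 51506), (.hz 22 703, 969471), (.hz 20 1343, 143293), (.hz 23 2719, 84697), (.hz 22 2719, 47617), (.hz 20 959, 391516), (.hz 20 1471, 498411), (.hz 22 2751, 216921), (.hz 16 2751, 24337), (.hz 20 3007, 608436)]))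
(.lp [[6], [1, 3, 5, 8, 10], [0, 2, 4, 7, 9, 11]] [(.mj 5 7, 1), (.hz 23 15, 41), (.hz 21 23, 105), (.hz 23 31, 128), (.hz 21 31, 641), (.hz 22 159, 332)]))
(.lp [[6], [1, 3, 5, 8, 10], [0, 2, 4, 7, 9, 11]] [(.mj 0 1, 606), (.mj 5 7, 16), (.mj 8 9, 6), (.hz 22 23, 7362), (.hz 22 31, 7179), (.hz 20 1343, 4794), (.hz 13 2719, 628), (.hz 20 959, 21310), (.hz 20 1471, 1257), (.hz 16 2751, 640), (.hz 20 3007, 31727)])))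
(.lp [[6], [1, 3, 5, 8, 10], [0, 2, 4, 7, 9, 11]] [(.mj 0 1, 1756), (.mj 5 7, 43), (.mj 8 9, 16), (.mj 10 11, 2), (.hz 20 23, 21201), (.hz 20 31, 13759), (.hz 20 63, 5670), (.hz 20 319, 4821), (.hz 17 1983, 59212), (.hz 15 3007, 83273)]))
(.haz 6 447 1 10
(.lp [[6], [1, 3, 5, 8, 10], [0, 2, 4, 7, 9, 11]] [(.mj 7 8, 4329), (.mj 8 9, 4648), (.mj 11 6, 4648), (.mj 11 10, 319), (.rw 8, 1), (.hz 20 447, 19541529), (.hz 20 959, 55888773), (.hz 20 1471, 42690725), (.hz 20 1983, 33488737), (.hz 20 3007, 48220043)])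
(.ask 1327
(.mark 1471 [6, 9, 12]
(.cut 6 [(0, 1), (1, 1), (2, 1), (3, 1), (5, 1), (7, 1), (11, 1), (21, 1), (15, 1), (23, 1), (31, 1), (47, 1), (63, 1), (159, 1), (303, 1), (191, 1), (319, 1), (1327, 1), (447, 1), (5423, 1)]
(.lp [[6], [0, 2, 4, 7, 9, 11], [1, 3, 5, 8, 10, 12]] [(.mj 0 1, 74211), (.mj 5 7, 672), (.mj 8 9, 2436), (.mj 11 6, 1364), (.mj 11 10, 499), (.hz 20 23, 2028292), (.hz 20 31, 923860), (.hz 20 319, 5132339), (.hz 10 5423, 613733), (.hz 15 3007, 1910047), (.hz 15 5567, 2405962), (.rw 10, 4)])))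
(.cut 6 [(0, 1), (1, 1), (2, 1), (3, 1), (5, 1), (7, 1), (11, 1), (21, 1), (15, 1), (23, 1), (31, 1), (47, 1), (63, 1), (159, 1), (303, 1), (191, 1), (319, 1), (671, 1), (1327, 1), (447, 1), (703, 1), (959, 1)]
(.lp [[6], [1, 3, 5, 8, 10], [0, 2, 4, 7, 9, 11]] [(.mj 0 1, 18000), (.mj 8 9, 2918), (.mj 11 6, 107), (.mj 11 10, 1618), (.hz 20 23, 809431), (.hz 20 31, 973631), (.hz 20 63, 1156076), (.hz 20 159, 1081813), (.hz 20 191, 2486543), (.hz 20 319, 6165464), (.rw 10, 4)]))))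
.fin))
(.ref 0)))
(.lp [[6], [0, 2, 4, 7, 9], [1, 3, 5, 8, 10]] [(.mj 3 4, 22), (.mj 5 7, 5), (.hz 18 15, 974), (.hz 18 31, 601)]))
(.cut 6 [(0, 1), (1, 1), (2, 1), (3, 1), (5, 1), (7, 1), (11, 1), (21, 1), (15, 1), (23, 1), (31, 1), (47, 1), (63, 1), (159, 1), (303, 1), (191, 1), (319, 1), (1327, 1), (447, 1)]
(.lp [[6], [0, 2, 4, 7, 9], [1, 3, 5, 8, 10]] [(.mj 0 1, 61662), (.mj 5 7, 639), (.mj 8 9, 1367), (.hz 17 23, 727487), (.hz 17 31, 443410), (.hz 17 63, 134632), (.hz 17 159, 99935), (.hz 17 191, 480711), (.hz 17 447, 120517), (.hz 17 1343, 490989), (.hz 17 1471, 1996915), (.rw 9, 1)])))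
(.ask 1327
(.mark 1471 [6, 9, 11]
(.cut 6 [(0, 1), (1, 1), (2, 1), (3, 1), (5, 1), (7, 1), (11, 1), (21, 1), (15, 1), (23, 1), (31, 1), (47, 1), (63, 1), (159, 1), (303, 1), (191, 1), (319, 1), (1327, 1), (447, 1), (3375, 1)]
(.lp [[6], [0, 2, 4, 7, 9], [1, 3, 5, 8, 10, 11]] [(.mj 7 8, 195832), (.mj 10 6, 106965), (.mj 10 9, 106965), (.rw 7, 79), (.hz 10 3375, 33785901), (.hz 15 959, 454080553), (.hz 15 3519, 63261283), (.rw 9, 184)])))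
(.haz 9 1471 1 10
(.cut 6 [(0, 1), (1, 1), (2, 1), (3, 1), (5, 1), (7, 1), (11, 1), (21, 1), (15, 1), (23, 1), (31, 1), (47, 1), (63, 1), (159, 1), (303, 1), (191, 1), (319, 1), (1327, 1), (447, 1)]
(.lp [[6], [0, 2, 4, 7, 9], [1, 3, 5, 8, 10]] [(.mj 7 8, 5624), (.mj 10 6, 3664), (.mj 10 9, 3230), (.hz 13 671, 814987), (.hz 16 703, 1107546), (.hz 17 1535, 48026290), (.rw 9, 7)]))
(.lp [[6], [0, 2, 4, 7, 9], [1, 3, 5, 8, 10]] [(.mj 0 1, 2), (.mj 7 8, 3), (.mj 10 6, 2), (.hz 17 159, 1254), (.hz 17 191, 3307), (.hz 17 447, 1962)])))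
.fin))
(.haz 6 959 3 50
(.haz 8 127 7 25
(.ask 319
(.ref 1)
(.haz 6 703 3 50
(.haz 8 703 21 50
(.ask 447
(.ref 2)
(.spn
(.lp [[6], [1, 3, 5, 8], [0, 2, 4, 7, 9]] [(.mj 6 9, 2), (.mj 7 6, 1), (.mj 8 6, 2)])
(.cut 6 [(0, 1), (1, 1), (2, 1), (3, 1), (5, 1), (7, 1), (11, 1), (21, 1), (15, 1), (23, 1), (31, 1), (47, 1), (63, 1), (159, 1), (303, 1), (191, 1), (319, 1), (671, 1), (447, 1), (703, 1)]
(.lp [[6], [1, 3, 5, 8], [0, 2, 4, 7, 9]] [(.mj 8 9, 3922), (.mj 9 6, 1958), (.hz 19 703, 4040629), (.rw 9, 1)]))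
.fin
.fin))
(.lp [[6], [1, 3, 5, 8], [0, 2, 4, 7, 9]] [(.mj 3 4, 31), (.mj 7 8, 2), (.mj 8 9, 3), (.hz 20 191, 2570), (.hz 19 703, 4992)]))
(.cut 6 [(0, 1), (1, 1), (2, 1), (3, 1), (5, 1), (7, 1), (11, 1), (21, 1), (15, 1), (23, 1), (31, 1), (47, 1), (63, 1), (303, 1)]
(.lp [[6], [1, 3, 5, 8], [0, 2, 4, 7, 9]] [(.mj 0 1, 42564), (.mj 5 7, 1250), (.mj 8 9, 143), (.hz 19 23, 244600), (.hz 19 31, 141458), (.hz 19 63, 426431), (.rw 8, 1)]))))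
(.cut 6 [(0, 1), (1, 1), (2, 1), (3, 1), (5, 1), (7, 1), (11, 1), (21, 1), (15, 1), (23, 1), (31, 1), (47, 1), (63, 1), (303, 1)]
(.lp [[6], [1, 3, 5, 8], [0, 2, 4, 7, 9]] [(.mj 3 4, 17210), (.mj 5 7, 702), (.mj 8 9, 600), (.hz 18 63, 3095676), (.rw 8, 1)])))
(.cut 6 [(0, 1), (1, 1), (2, 1), (3, 1), (5, 1), (7, 1), (11, 1), (21, 1), (15, 1), (23, 1), (31, 1), (47, 1), (63, 1), (303, 1)]
(.lp [[6], [1, 3, 5, 8], [0, 2, 4, 7, 9]] [(.mj 0 1, 28074), (.mj 5 7, 1055), (.hz 17 23, 162426), (.hz 17 31, 95831), (.hz 17 63, 370899), (.hz 17 319, 62219), (.rw 8, 1)]))))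
(.lp [[6], [1, 3, 5, 8], [0, 2, 4, 7, 9]] [(.mj 3 4, 13), (.mj 8 9, 1), (.hz 16 47, 422), (.hz 16 63, 467), (.hz 16 191, 593)]))

theorem run202 : run P3488 (leaf3 218 625) (cutRow P3488) [s196, s201, s200] t202 s202 = true := by
  decide +kernel

theorem bad202 : Bad P3488 s202 :=
  run_sound (leaf3_sound P3488 rfl rfl) (cutRow_sound P3488) (
    List.forall_mem_cons.2 ⟨bad196, List.forall_mem_cons.2 ⟨bad201, List.forall_mem_cons.2 ⟨bad200, fun _ h => absurd h List.not_mem_nil⟩⟩⟩) t202 s202 run202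

/-- the state above piece 95 of the tree -/
def s95 : St := ⟨[0, 0, 1, 3, 5, 5, 11, 31], [23, 21, 15, 7, 3, 2, 1, 0], [0, 1, 2, 3, 4],
  [],
  [⟨true, 2, 3, 3, 10⟩, ⟨true, 1, 5, 2, 5⟩, ⟨true, 2, 3, 23, 50⟩, ⟨true, 1, 5, 12, 25⟩, ⟨true, 2, 11, 12, 25⟩, ⟨true, 4, 79, 11, 50⟩, ⟨true, 5, 31, 1, 50⟩, ⟨true, 3, 39, 7, 25⟩, ⟨true, 5, 31, 1, 25⟩],
  [.spn 0 0 651200, .spn 1 1 302400, .spn 3 2 302400, .spn 7 3 140426, .spn 15 4 140426]⟩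

/-- piece 95 of the tree -/
noncomputable def t95 : WN.Tree :=
(.mark 31 [5, 6, 7]
(.spn
(.haz 6 31 11 50
(.haz 5 159 7 50
(.haz 5 159 1 5
(.haz 3 39 19 50
(.ask 159
(.haz 6 47 4 25
(.haz 6 15 3 10
(.lp [[5], [1, 3, 6], [0, 2, 4, 7, 8]] [(.mj 1 2, 2), (.mj 3 4, 4), (.mj 4 5, 8), (.mj 5 6, 11), (.hz 14 15, 1574), (.hz 14 31, 4314), (.hz 14 47, 5223), (.hz 14 159, 6162)])
(.haz 2 75 3 5
(.maj 6 7
(.ask 37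
(.mark 191 [6, 8, 9]
(.lp [[5, 9], [1, 3, 6], [0, 2, 4, 7, 8]] [(.mj 1 2, 7), (.mj 3 4, 13), (.mj 4 5, 21), (.mj 5 6, 23), (.mj 6 7, 6), (.hz 14 11, 306), (.hz 14 15, 287), (.hz 9 31, 888), (.hz 9 159, 2018), (.hz 13 559, 3001), (.hz 9 575, 64), (.hz 9 415, 2587)]))
(.ask 39
(.mark 191 [6, 8, 9]
(.lp [[5, 9], [1, 3, 6], [0, 2, 4, 7, 8]] [(.mj 3 4, 29), (.mj 4 5, 40), (.mj 5 6, 42), (.mj 6 7, 9), (.hz 9 31, 1834), (.hz 13 47, 2491), (.hz 12 551, 298), (.hz 11 159, 412), (.hz 9 159, 3723), (.hz 13 559, 4426), (.hz 9 415, 4773)]))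
(.ask 53
(.mark 191 [6, 8, 9]
(.lp [[5, 9], [1, 3, 6], [0, 2, 4, 7, 8]] [(.mj 3 4, 10), (.mj 4 5, 7), (.mj 5 6, 8), (.mj 6 7, 2), (.hz 14 11, 257), (.hz 14 15, 754), (.hz 9 159, 982), (.hz 9 415, 922)]))
(.ask 55
(.mark 191 [6, 8, 9]
(.lp [[5, 9], [1, 3, 6], [0, 2, 4, 7, 8]] [(.mj 3 4, 17), (.mj 4 5, 11), (.mj 5 6, 13), (.mj 6 7, 3), (.hz 14 11, 462), (.hz 14 15, 1353), (.hz 9 159, 1600), (.hz 9 415, 1490)]))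
(.haz 5 79 1 5
(.haz 5 159 13 50
(.ask 75
(.mark 223 [5, 8, 9]
(.lp [[5], [1, 3, 6, 9], [0, 2, 4, 7, 8]] [(.mj 3 4, 205), (.mj 4 5, 213), (.mj 5 6, 152), (.mj 6 7, 39), (.hz 16 79, 92094), (.hz 15 587, 25202), (.hz 9 63, 5940), (.hz 17 159, 9887), (.hz 9 159, 13345), (.hz 16 591, 298531), (.hz 9 415, 17109)]))
(.ask 79
(.mark 223 [5, 8, 9]
(.lp [[5], [1, 3, 6, 9], [0, 2, 4, 7, 8]] [(.mj 3 4, 21), (.mj 4 5, 21), (.mj 5 6, 14), (.mj 6 7, 4), (.hz 16 79, 14415), (.hz 17 159, 1033), (.hz 9 159, 1157), (.hz 16 591, 19715), (.hz 9 415, 1570)]))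
(.mark 159 [5, 6, 8]
(.lp [[5], [1, 3, 6], [0, 2, 4, 7, 8]] [(.mj 3 4, 71), (.mj 4 5, 63), (.mj 5 6, 51), (.mj 6 7, 11), (.hz 13 47, 7991), (.hz 17 159, 2664), (.hz 9 159, 4505), (.hz 9 415, 5776)]))))
(.mark 159 [5, 6, 8]
(.lp [[5], [1, 3, 6], [0, 2, 4, 7, 8]] [(.mj 3 4, 13), (.mj 5 6, 25), (.mj 6 7, 10), (.hz 17 15, 2561), (.hz 17 31, 3231), (.hz 11 159, 28361), (.hz 9 159, 2146), (.hz 9 415, 2751)])))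
(.mark 159 [5, 6, 8]
(.lp [[5], [1, 3, 6], [0, 2, 4, 7, 8]] [(.mj 3 4, 7), (.mj 5 6, 5), (.hz 16 15, 6630), (.hz 14 15, 519), (.hz 9 31, 310), (.hz 9 159, 449), (.hz 9 415, 576)])))))))
(.mark 159 [5, 6, 8]
(.lp [[5], [1, 3, 6], [0, 2, 4, 7, 8]] [(.mj 1 2, 1071), (.mj 3 4, 122), (.mj 4 5, 458), (.mj 5 6, 105), (.mj 5 7, 332), (.mj 7 6, 760), (.hz 15 75, 53573), (.hz 9 31, 40766), (.hz 13 47, 251125), (.hz 9 63, 268661), (.hz 9 159, 75515), (.hz 9 415, 11761)])))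
(.lp [[5], [1, 3, 6], [0, 2, 4, 7, 8]] [(.mj 1 2, 1), (.hz 15 3, 225), (.hz 15 11, 2242), (.hz 14 11, 1121)])))
(.lp [[5], [1, 3, 6], [0, 2, 4, 7, 8]] [(.mj 3 4, 143), (.mj 4 5, 236), (.mj 5 7, 124), (.hz 13 11, 10457), (.hz 13 15, 74381), (.hz 9 63, 40074), (.hz 9 159, 24823)]))
(.maj 6 7
(.haz 6 47 7 25
(.lp [[5], [1, 3, 6], [0, 2, 4, 7]] [(.mj 3 4, 2), (.mj 4 5, 8), (.mj 5 6, 6), (.mj 6 7, 1), (.hz 9 31, 132), (.hz 13 47, 2359), (.hz 13 191, 484)])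
(.lp [[5], [1, 3, 6], [0, 2, 4, 7]] [(.mj 3 4, 360), (.mj 4 5, 437), (.mj 5 6, 277), (.mj 6 7, 63), (.hz 13 11, 8306), (.hz 13 15, 23995), (.hz 9 63, 38173), (.hz 9 159, 9077)]))
(.lp [[5], [1, 3, 6], [0, 2, 4, 7]] [(.mj 3 4, 3), (.mj 4 5, 6), (.mj 5 7, 1), (.mj 7 6, 6), (.hz 9 63, 3397)])))
(.lp [[5], [1, 3, 6], [0, 2, 4, 7]] [(.mj 1 2, 5), (.mj 4 5, 1), (.hz 12 3, 24), (.hz 12 7, 251), (.hz 7 39, 287), (.hz 4 75, 172)]))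
(.lp [[5], [1, 3, 6], [0, 2, 4, 7]] [(.mj 1 2, 37), (.mj 3 4, 5), (.mj 5 6, 40), (.mj 5 7, 22), (.hz 11 7, 11471), (.hz 11 15, 25810), (.hz 11 23, 6334), (.hz 11 31, 44983), (.hz 9 159, 8982)]))
(.lp [[5], [1, 3, 6], [0, 2, 4, 7]] [(.mj 3 4, 1), (.mj 5 6, 2), (.mj 5 7, 1), (.hz 10 5, 23), (.hz 10 7, 71), (.hz 10 21, 3), (.hz 10 15, 128), (.hz 10 23, 16), (.hz 10 31, 214), (.hz 9 159, 428)]))
(.haz 7 95 3 10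
(.haz 5 159 1 10
(.haz 5 79 3 20
(.haz 7 95 9 20
(.haz 5 79 1 5
(.haz 7 63 2 5
(.maj 6 7
(.lp [[5], [1, 3, 6], [0, 2, 4, 7]] [(.mj 3 4, 9), (.mj 4 5, 25), (.mj 6 7, 26), (.hz 9 11, 680), (.hz 9 15, 1329), (.hz 9 31, 3074), (.hz 14 79, 22013), (.hz 15 63, 76851), (.hz 11 159, 7164)])
(.haz 6 159 3 20
(.haz 4 79 9 20
(.ask 75
(.mark 95 [5, 7, 8]
(.lp [[5], [0, 2, 4, 7], [1, 3, 6, 8]] [(.mj 3 4, 1490), (.mj 4 5, 1556), (.mj 5 7, 894), (.mj 7 6, 256), (.hz 9 11, 47175), (.hz 14 79, 1070490), (.hz 13 95, 223148), (.hz 17 335, 90467), (.hz 14 335, 1750734), (.hz 13 351, 698318)]))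
(.ask 79
(.mark 95 [5, 7, 8]
(.lp [[5], [0, 2, 4, 7], [1, 3, 6, 8]] [(.mj 3 4, 47), (.mj 4 5, 49), (.mj 5 7, 28), (.mj 7 6, 7), (.hz 9 15, 1619), (.hz 14 79, 36221), (.hz 13 95, 8191), (.hz 17 335, 3201), (.hz 14 335, 42931), (.hz 13 351, 20314)]))
(.lp [[5], [1, 3, 6], [0, 2, 4, 7]] [(.mj 3 4, 20), (.mj 4 5, 18), (.mj 5 7, 13), (.hz 9 31, 1848), (.hz 13 95, 6262)])))
(.lp [[5], [1, 3, 6], [0, 2, 4, 7]] [(.mj 4 5, 3), (.hz 9 11, 34), (.hz 17 15, 785), (.hz 9 15, 212), (.hz 14 79, 2441)]))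
(.lp [[5], [1, 3, 6], [0, 2, 4, 7]] [(.mj 3 4, 27), (.mj 4 5, 29), (.mj 5 7, 17), (.hz 16 11, 1897), (.hz 16 15, 3598), (.hz 16 31, 971), (.hz 14 79, 25137), (.hz 13 95, 8630)])))
(.lp [[5], [1, 3, 6], [0, 2, 4, 7]] [(.mj 3 4, 4), (.mj 4 5, 3), (.hz 9 11, 82), (.hz 9 15, 161), (.hz 9 31, 371), (.hz 15 31, 3714), (.hz 14 79, 2659)]))
(.lp [[5], [1, 3, 6], [0, 2, 4, 7]] [(.mj 1 2, 28), (.mj 3 4, 28), (.mj 5 7, 23), (.hz 14 7, 8679), (.hz 9 11, 890), (.hz 14 15, 30310), (.hz 9 15, 3031), (.hz 9 31, 524), (.hz 13 95, 11641)]))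
(.lp [[5], [1, 3, 6], [0, 2, 4, 7]] [(.mj 3 4, 43), (.mj 4 5, 31), (.hz 9 11, 834), (.hz 9 15, 1797), (.hz 9 31, 4090), (.hz 13 31, 10224), (.hz 12 79, 6821)]))
(.lp [[5], [1, 3, 6], [0, 2, 4, 7]] [(.mj 3 4, 3), (.mj 5 7, 2), (.hz 12 5, 72), (.hz 12 7, 229), (.hz 9 11, 63), (.hz 12 15, 614), (.hz 9 15, 246), (.hz 9 31, 110), (.hz 10 95, 2099)]))
(.lp [[5], [1, 3, 6], [0, 2, 4, 7]] [(.mj 3 4, 2), (.mj 5 6, 1), (.mj 5 7, 2), (.hz 11 5, 141), (.hz 11 7, 1570), (.hz 9 11, 39), (.hz 9 15, 153), (.hz 10 95, 2724)]))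
(.lp [[5], [1, 3, 6], [0, 2, 4, 7]] [(.mj 3 4, 1), (.mj 4 5, 1), (.hz 9 11, 27), (.hz 9 15, 75), (.hz 9 31, 115), (.hz 10 31, 576)])))
(.ref 0)
(.ask 159
(.mark 159 [5, 6, 8]
(.spn
(.lp [[5], [1, 3, 6], [0, 2, 4, 7, 8]] [(.mj 7 5, 516), (.rw 6, 1)])
(.haz 5 15 1 8
(.lp [[5], [1, 3, 6], [0, 2, 4, 7, 8]] [(.mj 3 4, 2501), (.rw 5, 1), (.rw 6, 1), (.hz 9 31, 3125636), (.hz 9 95, 1339558)])
(.haz 5 31 1 10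
(.lp [[5], [1, 3, 6], [0, 2, 4, 7, 8]] [(.mj 3 4, 37192), (.rw 5, 14), (.rw 6, 16), (.hz 10 31, 36159257), (.hz 10 95, 14348912)])
(.ask 75
(.mark 79 [4, 5, 9]
(.cut 5 [(0, 1), (1, 1), (2, 1), (3, 1), (5, 1), (7, 1), (11, 1), (21, 1), (15, 1), (23, 1), (75, 1), (31, 1), (587, 1), (159, 1)]
(.lp [[5], [1, 3, 6, 9], [0, 2, 4, 7, 8]] [(.mj 3 4, 4860), (.mj 6 8, 1676), (.mj 7 6, 4328), (.rw 6, 1), (.hz 10 5, 225507), (.hz 10 7, 701577), (.hz 10 15, 1230545), (.hz 4 587, 604973), (.hz 8 95, 422499), (.hz 5 111, 292691), (.hz 5 591, 358315), (.hz 8 223, 15656), (.hz 5 623, 782815), (.rw 7, 4)])))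
(.cut 5 [(0, 1), (1, 1), (2, 1), (3, 1), (5, 1), (7, 1), (11, 1), (21, 1), (15, 1), (23, 1), (75, 1), (31, 1), (159, 1)]
(.lp [[5], [1, 3, 6], [0, 2, 4, 7, 8]] [(.mj 3 4, 7058), (.mj 6 8, 2433), (.mj 7 6, 6075), (.rw 6, 1), (.hz 10 5, 327454), (.hz 10 7, 1018746), (.hz 10 15, 1786848), (.hz 5 111, 615570), (.rw 7, 6)])))))
(.ask 415
(.mark 415 [5, 6, 9]
(.spn
(.lp [[5], [1, 3, 6], [0, 2, 4, 7, 8, 9]] [(.mj 8 5, 199), (.rw 7, 1)])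
(.lp [[5], [1, 3, 6], [0, 2, 4, 7, 8, 9]] [(.mj 8 6, 1101), (.rw 7, 2)])
(.maj 5 6
(.cut 5 [(0, 1), (1, 1), (2, 1), (3, 1), (5, 1), (7, 1), (11, 1), (21, 1), (15, 1), (23, 1), (31, 1), (159, 1), (415, 1)]
(.lp [[5], [1, 3, 6], [0, 2, 4, 7, 8, 9]] [(.mj 3 4, 21059), (.mj 9 5, 1663), (.rw 7, 5), (.hz 4 75, 173183), (.hz 5 79, 865916), (.rw 8, 32)]))
(.ask 75
(.mark 223 [5, 8, 10]
(.cut 5 [(0, 1), (1, 1), (2, 1), (3, 1), (5, 1), (7, 1), (11, 1), (21, 1), (15, 1), (23, 1), (75, 1), (31, 1), (79, 1), (1099, 1), (95, 1)]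
(.cut 6 [(0, 1), (1, 1), (2, 1), (3, 1), (5, 1), (7, 1), (11, 1), (21, 1), (15, 1), (23, 1), (31, 1)]
(.lp [[5], [1, 3, 6, 10], [0, 2, 4, 7, 8, 9]] [(.mj 3 4, 29029), (.mj 9 6, 15794), (.rw 7, 8), (.hz 4 1099, 4402537), (.hz 5 1103, 2039077), (.hz 8 223, 20837057), (.hz 8 415, 3023896), (.hz 5 1135, 10417788), (.hz 8 479, 18163618), (.rw 8, 36), (.rw 9, 66)]))))
(.cut 5 [(0, 1), (1, 1), (2, 1), (3, 1), (5, 1), (7, 1), (11, 1), (21, 1), (15, 1), (23, 1), (75, 1), (31, 1), (159, 1), (415, 1)]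
(.cut 5 [(0, 1), (1, 1), (2, 1), (3, 1), (5, 1), (7, 1), (11, 1), (21, 1), (15, 1), (23, 1), (75, 1), (31, 1), (79, 2), (95, 1)]
(.cut 6 [(0, 1), (1, 1), (2, 1), (3, 1), (5, 1), (7, 1), (11, 1), (21, 1), (15, 1), (23, 1), (31, 1), (159, 1)]
(.lp [[5], [1, 3, 6], [0, 2, 4, 7, 8, 9]] [(.mj 3 4, 13061), (.mj 9 6, 7654), (.rw 7, 4), (.hz 5 111, 5740432), (.hz 8 223, 9168745), (.hz 8 479, 8801995), (.rw 8, 13), (.rw 9, 7), (.rw 10, 31)]))))))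
.fin))
(.lp [[5], [1, 3, 6], [0, 2, 4, 7, 8]] [(.mj 8 6, 1), (.rw 6, 1)]))
.fin))
(.lp [[5], [1, 3, 6], [0, 2, 4, 7]] [(.mj 7 6, 1), (.rw 5, 1)]))
.fin))

theorem run95 : run P3488 (leaf3 218 625) (cutRow P3488) [s94] t95 s95 = true := by
  decide +kernel

theorem bad95 : Bad P3488 s95 :=
  run_sound (leaf3_sound P3488 rfl rfl) (cutRow_sound P3488) (
    List.forall_mem_cons.2 ⟨bad94, fun _ h => absurd h List.not_mem_nil⟩) t95 s95 run95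

end Pool.Agent.WN.Data
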