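import Pool.Agent.WN.CutRow
import Pool.Agent.WN.LeafRow
import Pool.Agent.Helper99.WN.ParDef
import Pool.Agent.WN.Data.D8
import Pool.Agent.WN.Data.D9
import Pool.Agent.WN.Data.D13
import Pool.Agent.WN.Data.D30
import Pool.Agent.WN.Data.D33
import Pool.Agent.WN.Data.D34
import Pool.Agent.WN.Data.D35
import Pool.Agent.WN.Data.D36
import Pool.Agent.WN.Data.D37
import Pool.Agent.WN.Data.D38

/-!
# The search tree, part 42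
-/

set_option autoImplicit false

namespace Pool.Agent.WN.Data

open Pool.Agent.W3 Pool.Agent.WN Pool.Agent.Helper99.WN

/-- the state above piece 224 of the tree -/
def s224 : St := ⟨[0, 0, 1, 3, 5, 15, 23, 47, 47, 127], [175, 127, 95, 87, 63, 31, 23, 21, 15, 11, 7, 5, 3, 2, 1, 0], [0, 1, 2, 3, 4, 5, 6, 7],
  [(5, 6), (4, 5)],
  [⟨true, 2, 3, 3, 10⟩, ⟨true, 1, 5, 2, 5⟩, ⟨true, 2, 3, 23, 50⟩, ⟨true, 1, 5, 12, 25⟩, ⟨true, 1, 21, 27, 50⟩, ⟨true, 4, 15, 9, 40⟩, ⟨true, 3, 23, 11, 20⟩, ⟨true, 4, 47, 7, 20⟩, ⟨true, 4, 47, 17, 40⟩, ⟨true, 4, 47, 9, 20⟩, ⟨true, 4, 47, 19, 40⟩, ⟨true, 5, 95, 1, 5⟩, ⟨true, 5, 95, 3, 10⟩, ⟨true, 5, 31, 3, 10⟩, ⟨true, 5, 95, 11, 25⟩, ⟨true, 6, 63, 3, 20⟩, ⟨true, 8, 255, 1, 50⟩, ⟨true, 6, 319, 13, 40⟩, ⟨true, 6, 191, 13, 40⟩, ⟨true, 7, 383, 3, 40⟩, ⟨true, 8, 191, 1, 20⟩,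 ⟨true, 6, 319, 17, 40⟩, ⟨true, 6, 319, 19, 40⟩],
  [.spn 0 0 651200, .spn 1 1 302400, .spn 3 2 302400, .spn 7 3 302400, .spn 15 4 302400, .spn 31 5 302400, .spn 63 6 140426, .spn 127 7 140426]⟩

/-- piece 224 of the tree -/
noncomputable def t224 : WN.Tree :=
(.haz 7 639 7 40
(.haz 7 319 7 40
(.ask 191
(.ref 0)
(.haz 8 255 3 40
(.ask 255
(.mark 255 [8, 9, 10]
(.spn
(.haz 9 1279 1 8
(.haz 8 639 1 8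
(.haz 9 1279 1 5
(.haz 7 639 3 10
(.haz 7 639 3 8
(.ask 1279
(.haz 8 3327 9 40
(.haz 8 639 1 5
(.maj 9 10
(.mark 1279 [8, 9, 11]
(.lp [[8], [0, 2, 4, 6, 9], [1, 3, 5, 7, 10, 11]] [(.mj 0 1, 57035), (.mj 7 8, 1063), (.mj 8 9, 1437), (.mj 9 10, 386), (.hz 30 639, 1346478), (.hz 32 639, 3586856), (.hz 28 1279, 6508137), (.hz 32 1791, 4164308), (.hz 31 3327, 520538), (.hz 28 3327, 8265306)]))
(.lp [[8], [0, 2, 4, 6, 9], [1, 3, 5, 7, 10, 11]] [(.mj 0 1, 2432), (.mj 7 8, 45), (.mj 8 10, 34), (.mj 10 9, 42), (.hz 30 639, 82336), (.hz 32 639, 396822), (.hz 32 767, 742222), (.hz 28 1279, 313899)]))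
(.mark 1279 [8, 9, 11]
(.lp [[8], [0, 2, 4, 6, 9], [1, 3, 5, 7, 10, 11]] [(.mj 0 1, 2089), (.mj 8 9, 49), (.mj 8 10, 8), (.hz 32 127, 160181), (.hz 30 639, 74983), (.hz 28 1279, 295588), (.hz 28 1535, 46692), (.hz 28 3327, 280154)])))
(.mark 1279 [8, 9, 11]
(.lp [[8], [0, 2, 4, 6, 9], [1, 3, 5, 7, 10, 11]] [(.mj 0 1, 392), (.mj 8 9, 16), (.mj 8 10, 6), (.hz 31 127, 7489), (.hz 31 255, 7167), (.hz 30 639, 11159), (.hz 31 1279, 2267), (.hz 28 1279, 125841), (.hz 28 3327, 90666)])))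
(.lp [[8], [0, 2, 4, 6, 9], [1, 3, 5, 7, 10]] [(.mj 0 1, 524), (.mj 7 8, 7), (.mj 8 9, 11), (.hz 30 639, 14832), (.hz 27 639, 14086), (.hz 28 1279, 29664), (.hz 28 1535, 27054)]))
(.lp [[8], [0, 2, 4, 6, 9], [1, 3, 5, 7, 10]] [(.mj 0 1, 165), (.mj 7 8, 12), (.mj 8 9, 11), (.hz 30 127, 35667), (.hz 29 639, 25520), (.hz 27 639, 25616), (.hz 28 1279, 63800)]))
(.lp [[8], [0, 2, 4, 6, 9], [1, 3, 5, 7, 10]] [(.mj 0 1, 43), (.mj 7 8, 8), (.mj 8 9, 6), (.hz 29 127, 16789), (.hz 23 639, 3541), (.hz 27 639, 21940), (.hz 28 1279, 35408)]))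
(.lp [[8], [0, 2, 4, 6, 9], [1, 3, 5, 7, 10]] [(.mj 0 1, 917), (.mj 7 8, 17), (.mj 8 10, 18), (.hz 28 127, 102901), (.hz 28 255, 120613), (.hz 27 639, 35397), (.hz 26 1279, 99827)]))
(.lp [[8], [0, 2, 4, 6, 9], [1, 3, 5, 7, 10]] [(.mj 6 7, 1), (.mj 8 9, 4), (.mj 8 10, 3), (.hz 27 47, 2085), (.hz 27 63, 18110), (.hz 26 1279, 30081)]))
(.lp [[8], [0, 2, 4, 6, 9], [1, 3, 5, 7, 10]] [(.mj 0 1, 449), (.mj 7 8, 8), (.mj 8 10, 10), (.hz 26 127, 33072), (.hz 26 255, 34358)]))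
(.ref 1)
(.ask 1279
(.mark 1279 [8, 9, 11]
(.spn
(.lp [[8], [0, 2, 4, 6, 9], [1, 3, 5, 7, 10, 11]] [(.mj 10 8, 578), (.rw 9, 1)])
(.maj 8 11
(.cut 8 [(0, 1), (1, 1), (2, 1), (3, 1), (5, 1), (7, 1), (11, 1), (21, 1), (15, 1), (23, 1), (31, 1), (47, 1), (87, 1), (63, 1), (95, 1), (175, 1), (127, 1), (191, 1), (255, 1), (1279, 1)]
(.lp [[8], [0, 2, 4, 6, 9], [1, 3, 5, 7, 10, 11]] [(.mj 10 9, 4124), (.rw 9, 4), (.rw 10, 6)]))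
(.cut 8 [(0, 1), (1, 1), (2, 1), (3, 1), (5, 1), (7, 1), (11, 1), (21, 1), (15, 1), (23, 1), (31, 1), (47, 1), (87, 1), (63, 1), (95, 1), (175, 1), (127, 1), (191, 1), (255, 1), (1279, 1)]
(.lp [[8], [0, 2, 4, 6, 9], [1, 3, 5, 7, 10, 11]] [(.mj 9 8, 329), (.mj 9 11, 3192), (.mj 10 9, 5018), (.mj 11 8, 2863), (.hz 25 767, 2831486), (.rw 10, 8)])))
(.ask 3327
(.mark 3327 [8, 9, 12]
(.spn
(.lp [[8], [0, 2, 4, 6, 9], [1, 3, 5, 7, 10, 11, 12]] [(.mj 11 8, 208), (.rw 10, 1)])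
(.lp [[8], [0, 2, 4, 6, 9], [1, 3, 5, 7, 10, 11, 12]] [(.mj 11 9, 620), (.rw 10, 1)])
(.maj 8 9
(.cut 8 [(0, 1), (1, 1), (2, 1), (3, 1), (5, 1), (7, 1), (11, 1), (21, 1), (15, 1), (23, 1), (31, 1), (47, 1), (87, 1), (63, 1), (95, 1), (175, 1), (127, 1), (191, 1), (255, 1), (1279, 1), (3327, 1)]
(.cut 9 [(0, 1), (1, 1), (2, 1), (3, 1), (5, 1), (7, 1), (11, 1), (21, 1), (15, 1), (23, 1), (31, 1), (47, 1), (87, 1), (63, 1), (95, 1), (175, 1), (303, 1), (127, 1), (191, 1), (319, 1), (431, 1), (255, 1), (383, 2), (447, 1), (511, 1)]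
(.lp [[8], [0, 2, 4, 6, 9], [1, 3, 5, 7, 10, 11, 12]] [(.mj 6 7, 35404), (.mj 12 8, 10886), (.rw 10, 7), (.hz 10 303, 614757), (.hz 22 319, 3015544), (.hz 23 639, 8096586), (.rw 11, 74), (.rw 12, 7)])))
(.cut 8 [(0, 1), (1, 1), (2, 1), (3, 1), (5, 1), (7, 1), (11, 1), (21, 1), (15, 1), (23, 1), (31, 1), (47, 1), (87, 1), (63, 1), (95, 1), (175, 1), (127, 1), (191, 1), (255, 1), (1279, 1), (3327, 1)]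
(.cut 9 [(0, 1), (1, 1), (2, 1), (3, 1), (5, 1), (7, 1), (11, 1), (21, 1), (15, 1), (23, 1), (31, 1), (47, 1), (87, 1), (63, 1), (95, 1), (175, 1), (127, 1), (191, 1), (255, 1)]
(.cut 9 [(0, 1), (1, 1), (2, 1), (3, 1), (5, 1), (7, 1), (11, 1), (21, 1), (15, 1), (23, 1), (31, 1), (47, 1), (87, 1), (63, 1), (95, 1), (175, 1), (127, 1), (191, 1), (255, 1), (1279, 1)]
(.lp [[8], [0, 2, 4, 6, 9], [1, 3, 5, 7, 10, 11, 12]] [(.mj 6 7, 13512), (.rw 10, 5), (.hz 25 255, 15292073), (.hz 25 1279, 5576456), (.hz 23 895, 3973523), (.hz 25 3327, 4747846), (.rw 11, 1), (.rw 12, 8), (.rw 13, 6)])))))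
.fin))
(.lp [[8], [0, 2, 4, 6, 9], [1, 3, 5, 7, 10, 11]] [(.mj 11 9, 1), (.rw 9, 1)]))
.fin))
(.lp [[8], [0, 2, 4, 6, 9], [1, 3, 5, 7, 10]] [(.mj 10 9, 1), (.rw 8, 1)]))
.fin))
(.spn
(.lp [[8], [1, 3, 5, 7], [0, 2, 4, 6, 9]] [(.mj 0 1, 90), (.mj 7 8, 2), (.mj 8 9, 3), (.hz 23 639, 724)])
(.haz 8 255 3 20
(.haz 8 255 1 5
(.lp [[8], [1, 3, 5, 7], [0, 2, 4, 6, 9]] [(.mj 3 4, 9), (.mj 7 9, 2), (.mj 9 8, 6), (.hz 27 255, 51610), (.hz 27 767, 27812)])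
(.ask 639
(.mark 639 [7, 8, 10]
(.ask 767
(.mark 767 [8, 10, 11]
(.spn
(.lp [[8], [1, 3, 5, 7, 11], [0, 2, 4, 6, 9, 10]] [(.mj 7 9, 16), (.mj 8 11, 4), (.mj 9 8, 11), (.hz 26 767, 18042), (.hz 26 1791, 30968)])
(.lp [[8], [1, 3, 5, 7, 11], [0, 2, 4, 6, 9, 10]] [(.mj 7 9, 1), (.mj 10 8, 1), (.hz 26 767, 4861), (.hz 26 2815, 2109)])
(.lp [[8], [1, 3, 5, 7, 11], [0, 2, 4, 6, 9, 10]] [(.mj 3 4, 4), (.mj 7 9, 1), (.mj 11 8, 2), (.hz 27 175, 249), (.hz 10 303, 97), (.hz 10 431, 45), (.hz 26 255, 2127), (.hz 26 767, 6527)])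
.fin))
(.lp [[8], [1, 3, 5, 7], [0, 2, 4, 6, 9, 10]] [(.mj 7 9, 11012), (.rw 8, 8)])))
(.ask 767
(.maj 8 10
(.ask 767
(.mark 767 [8, 10, 11]
(.spn
(.ask 2815
(.haz 10 2815 3 10
(.mark 2815 [8, 10, 12]
(.lp [[8], [1, 3, 5, 7, 10], [0, 2, 4, 6, 9, 11, 12]] [(.mj 3 4, 59), (.mj 8 10, 15), (.mj 9 8, 28), (.mj 10 11, 5), (.hz 27 175, 7573), (.hz 10 303, 1594), (.hz 26 2815, 35830), (.hz 28 2815, 49170), (.hz 28 6911, 70242)]))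
(.lp [[8], [1, 3, 5, 7, 10], [0, 2, 4, 6, 9, 11, 12]] [(.mj 7 9, 4), (.mj 9 8, 4), (.mj 10 11, 2), (.hz 28 767, 13536), (.hz 26 2815, 16701)]))
(.lp [[8], [1, 3, 5, 7, 11], [0, 2, 4, 6, 9, 10]] [(.mj 7 9, 1), (.mj 8 10, 4), (.mj 9 8, 6), (.mj 10 11, 1)]))
(.con 10 8)
(.con 11 10)
.fin))
(.lp [[8], [1, 3, 5, 7], [0, 2, 4, 6, 9, 10]] [(.mj 7 9, 1), (.mj 8 10, 2), (.mj 9 8, 3)]))
(.lp [[8], [1, 3, 5, 7], [0, 2, 4, 6, 9, 10]] [(.mj 3 4, 3), (.mj 10 8, 1), (.hz 27 175, 200), (.hz 10 303, 78), (.hz 10 431, 36), (.hz 26 255, 1715), (.hz 26 767, 3648)]))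
(.lp [[8], [1, 3, 5, 7], [0, 2, 4, 6, 9]] [(.mj 7 8, 1), (.mj 9 8, 1)]))))
(.lp [[8], [1, 3, 5, 7], [0, 2, 4, 6, 9]] [(.mj 3 4, 28), (.hz 26 47, 1813), (.hz 26 63, 141), (.hz 26 175, 2133), (.hz 26 191, 3778), (.hz 22 319, 987), (.hz 26 255, 2122), (.hz 25 767, 987)]))
.fin
.fin))
(.cut 8 [(0, 1), (1, 1), (2, 1), (3, 1), (5, 1), (7, 1), (11, 1), (21, 1), (15, 1), (23, 1), (31, 1), (47, 1), (87, 1), (63, 1), (95, 1), (127, 1)]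
(.cut 8 [(0, 1), (1, 1), (2, 1), (3, 1), (5, 1), (7, 1), (11, 1), (21, 1), (15, 1), (23, 1), (31, 1), (47, 1), (87, 1), (63, 1), (95, 1), (175, 1)]
(.lp [[8], [1, 3, 5, 7], [0, 2, 4, 6, 9]] [(.mj 3 4, 255933), (.mj 6 7, 58958), (.hz 25 47, 8965545), (.hz 25 63, 8537701), (.hz 25 127, 25223593), (.rw 8, 2), (.rw 9, 35)])))))
(.cut 8 [(0, 1), (1, 1), (2, 1), (3, 1), (5, 1), (7, 1), (11, 1), (21, 1), (15, 1), (23, 1), (31, 1), (47, 1), (87, 1), (63, 1), (95, 1), (175, 1), (127, 1), (191, 1)]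
(.lp [[8], [1, 3, 5, 7], [0, 2, 4, 6, 9]] [(.mj 3 4, 2752), (.mj 7 8, 3825), (.mj 7 9, 3023), (.hz 24 63, 2540777), (.hz 24 303, 254292), (.hz 22 319, 311657), (.hz 23 639, 151112), (.hz 20 767, 6044481), (.rw 8, 1)])))
(.lp [[8], [1, 3, 5, 7], [0, 2, 4, 6, 9]] [(.mj 3 4, 647), (.mj 7 8, 89), (.mj 7 9, 142), (.rw 7, 1), (.hz 10 303, 7742), (.hz 23 127, 707960), (.hz 10 431, 22409)]))

theorem run224 : run P3488 (leaf3 218 625) (cutRow P3488) [s223, s222] t224 s224 = true := by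
  decide +kernel

theorem bad224 : Bad P3488 s224 :=
  run_sound (leaf3_sound P3488 rfl rfl) (cutRow_sound P3488) (
    List.forall_mem_cons.2 ⟨bad223, List.forall_mem_cons.2 ⟨bad222, fun _ h => absurd h List.not_mem_nil⟩⟩) t224 s224 run224

/-- the state above piece 89 of the tree -/
def s89 : St := ⟨[0, 0, 1, 3, 5, 5, 11, 23], [31, 21, 15, 7, 3, 2, 1, 0], [0, 1, 2, 3, 4, 6],
  [],
  [⟨true, 2, 3, 3, 10⟩, ⟨true, 1, 5, 2, 5⟩, ⟨true, 2, 3, 23, 50⟩, ⟨true, 1, 5, 12, 25⟩, ⟨true, 2, 11, 12, 25⟩, ⟨true, 4, 79, 11, 50⟩, ⟨true, 5, 31, 1, 50⟩, ⟨true, 3, 39, 7, 25⟩, ⟨true, 5, 31, 1, 25⟩],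
  [.spn 0 0 651200, .spn 1 1 302400, .spn 3 2 302400, .spn 7 3 140426, .spn 15 4 140426, .spn 31 6 140426]⟩

/-- piece 89 of the tree -/
noncomputable def t89 : WN.Tree :=
(.haz 5 23 3 25
(.ask 75
(.mark 95 [5, 7, 8]
(.spn
(.haz 7 351 4 25
(.haz 7 95 3 10
(.lp [[5], [0, 2, 4, 7], [1, 3, 6, 8]] [(.mj 3 4, 8), (.mj 4 6, 122), (.mj 5 7, 97), (.mj 6 5, 122), (.hz 9 151, 14237), (.hz 11 95, 43278), (.hz 9 159, 40455), (.hz 11 127, 5188), (.hz 9 351, 27485), (.hz 11 351, 151539)])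
(.ask 37
(.mark 127 [7, 8, 9]
(.lp [[5, 9], [0, 2, 4, 7], [1, 3, 6, 8]] [(.mj 3 4, 1790), (.mj 4 6, 13807), (.mj 6 5, 7280), (.rw 6, 7), (.hz 11 23, 1960831), (.hz 11 31, 6051369), (.hz 11 95, 4565617), (.hz 9 351, 2981131)]))
(.haz 7 351 6 25
(.lp [[5], [0, 2, 4, 7], [1, 3, 6, 8]] [(.mj 3 4, 28), (.mj 4 6, 291), (.mj 5 7, 168), (.mj 5 8, 38), (.mj 6 5, 282), (.hz 11 23, 16514), (.hz 11 31, 49730), (.hz 9 151, 33344), (.hz 9 159, 91754), (.hz 9 351, 77696), (.hz 12 351, 132576)])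
(.lp [[5], [0, 2, 4, 7], [1, 3, 6, 8]] [(.mj 3 4, 1), (.mj 4 6, 5), (.mj 5 8, 1), (.mj 6 5, 4), (.hz 12 23, 306), (.hz 12 31, 967), (.hz 9 151, 611), (.hz 12 95, 1283), (.hz 9 159, 1346), (.hz 9 351, 1747), (.hz 10 351, 857)]))))
(.lp [[5], [0, 2, 4, 7], [1, 3, 6, 8]] [(.mj 4 6, 3), (.mj 5 8, 1), (.mj 6 5, 3), (.hz 10 23, 349), (.hz 10 31, 853), (.hz 10 95, 921), (.hz 9 351, 1263)]))
(.haz 4 335 9 25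
(.haz 8 95 13 50
(.ask 331
(.mark 335 [4, 5, 9]
(.lp [[5], [0, 2, 4, 7], [1, 3, 6, 8, 9]] [(.mj 3 4, 101), (.mj 4 6, 68), (.mj 7 5, 91), (.hz 9 23, 28600), (.hz 9 31, 15340), (.hz 9 151, 5045), (.hz 9 95, 62364), (.hz 11 95, 1437), (.hz 4 843, 2410), (.hz 11 223, 1658), (.hz 9 351, 102104), (.hz 10 847, 21149), (.hz 9 863, 148618)]))
(.ask 335
(.mark 335 [4, 5, 9]
(.lp [[5], [0, 2, 4, 7], [1, 3, 6, 8, 9]] [(.mj 3 4, 45), (.mj 4 6, 26), (.mj 7 5, 39), (.hz 9 23, 12705), (.hz 9 31, 6815), (.hz 9 151, 2473), (.hz 9 95, 24478), (.hz 9 159, 784), (.hz 11 223, 513), (.hz 9 351, 40913), (.hz 10 847, 7875), (.hz 9 863, 57082)]))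
(.lp [[5], [0, 2, 4, 7], [1, 3, 6, 8]] [(.mj 3 4, 13), (.mj 4 6, 7), (.mj 7 5, 11), (.hz 9 23, 3729), (.hz 9 31, 2000), (.hz 9 151, 768), (.hz 9 95, 6629), (.hz 9 159, 374), (.hz 9 351, 10943)])))
(.lp [[5], [0, 2, 4, 7], [1, 3, 6, 8]] [(.mj 3 4, 53), (.mj 4 6, 6), (.mj 7 5, 32), (.hz 9 23, 14948), (.hz 11 75, 891), (.hz 9 31, 8017), (.hz 11 79, 3432), (.hz 9 151, 4381), (.hz 9 95, 6893), (.hz 11 95, 1322), (.hz 9 159, 5907), (.hz 9 351, 27200)]))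
(.lp [[5], [0, 2, 4, 7], [1, 3, 6, 8]] [(.mj 4 6, 581), (.rw 5, 1), (.hz 10 79, 363229), (.hz 9 95, 101704)]))
(.lp [[5], [0, 2, 4, 7], [1, 3, 6, 8]] [(.mj 3 4, 2), (.mj 4 6, 19), (.mj 8 5, 17), (.mj 8 7, 9), (.hz 9 23, 664), (.hz 9 31, 356), (.hz 9 151, 3915), (.hz 9 95, 12843), (.hz 9 159, 11716), (.hz 9 351, 8122)])
.fin))
(.ask 79
(.mark 95 [5, 7, 8]
(.spn
(.haz 7 351 4 25
(.haz 7 95 3 10
(.lp [[5], [0, 2, 4, 7], [1, 3, 6, 8]] [(.mj 3 4, 250), (.mj 4 6, 9235), (.mj 5 7, 7802), (.mj 6 5, 9235), (.rw 6, 1), (.hz 9 151, 985888), (.hz 11 95, 3813881), (.hz 9 159, 2478406), (.hz 11 127, 1525552), (.hz 9 351, 2077764), (.hz 11 351, 11214926)])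
(.haz 7 351 11 50
(.ask 37
(.mark 127 [7, 8, 9]
(.lp [[5, 9], [0, 2, 4, 7], [1, 3, 6, 8]] [(.mj 3 4, 159), (.mj 4 6, 2337), (.mj 5 7, 1373), (.mj 5 8, 478), (.mj 6 5, 2197), (.rw 6, 1), (.hz 11 23, 132961), (.hz 11 31, 662028), (.hz 9 151, 243537), (.hz 12 351, 568165)]))
(.ask 39
(.mark 127 [7, 8, 9]
(.lp [[5, 9], [0, 2, 4, 7], [1, 3, 6, 8]] [(.mj 3 4, 194), (.mj 4 6, 2546), (.mj 5 7, 1471), (.mj 5 8, 507), (.mj 6 5, 2376), (.rw 6, 1), (.hz 11 23, 138503), (.hz 11 31, 717668), (.hz 9 151, 269584), (.hz 12 351, 606753)]))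
(.ask 47
(.mark 127 [7, 8, 9]
(.lp [[5, 9], [0, 2, 4, 7], [1, 3, 6, 8]] [(.mj 3 4, 10), (.mj 4 6, 94), (.mj 5 7, 86), (.mj 5 8, 39), (.mj 6 5, 123), (.hz 11 23, 3862), (.hz 11 31, 18582), (.hz 9 151, 14015), (.hz 9 159, 21701), (.hz 12 351, 38595)]))
(.maj 7 8
(.lp [[5], [0, 2, 4, 7], [1, 3, 6, 8]] [(.mj 3 4, 478), (.mj 4 6, 736), (.mj 6 5, 420), (.mj 7 8, 124), (.hz 11 31, 263583), (.hz 9 151, 112907), (.hz 11 95, 358395), (.hz 9 159, 136295), (.hz 9 351, 422018)])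
(.lp [[5], [0, 2, 4, 7], [1, 3, 6, 8]] [(.mj 3 4, 7), (.mj 4 6, 17), (.mj 5 8, 4), (.mj 6 5, 14), (.mj 8 7, 6), (.hz 11 31, 2673), (.hz 9 151, 3599), (.hz 9 159, 8221), (.hz 9 223, 8307), (.hz 9 351, 3933), (.hz 12 351, 1309)])))))
(.lp [[5], [0, 2, 4, 7], [1, 3, 6, 8]] [(.mj 4 6, 6), (.mj 5 8, 2), (.mj 6 5, 6), (.hz 12 23, 268), (.hz 12 31, 648), (.hz 9 151, 638), (.hz 12 95, 854), (.hz 9 159, 1852), (.hz 9 351, 2211), (.hz 10 351, 1318)])))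
(.lp [[5], [0, 2, 4, 7], [1, 3, 6, 8]] [(.mj 4 6, 6), (.mj 5 8, 2), (.mj 6 5, 6), (.hz 10 23, 522), (.hz 10 31, 1477), (.hz 9 151, 632), (.hz 10 95, 1596), (.hz 9 351, 2100)]))
(.haz 5 79 1 10
(.lp [[5], [0, 2, 4, 7], [1, 3, 6, 8]] [(.mj 3 4, 151), (.mj 4 6, 86), (.mj 7 5, 127), (.hz 9 23, 42734), (.hz 9 31, 22921), (.hz 10 79, 95029), (.hz 9 151, 8519), (.hz 9 95, 47374), (.hz 9 159, 3322), (.hz 5 335, 2712), (.hz 10 335, 55449), (.hz 9 351, 72875)])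
(.lp [[5], [0, 2, 4, 7], [1, 3, 6, 8]] [(.mj 3 4, 28), (.mj 4 6, 20), (.hz 10 5, 1166), (.hz 10 7, 3628), (.hz 10 15, 8380), (.hz 9 23, 4754), (.hz 9 151, 2160), (.hz 9 95, 4560), (.hz 9 159, 622), (.hz 9 351, 5182)]))
(.lp [[5], [0, 2, 4, 7], [1, 3, 6, 8]] [(.mj 3 4, 11), (.mj 4 6, 20), (.mj 8 5, 20), (.mj 8 7, 5), (.hz 9 23, 3166), (.hz 9 31, 1698), (.hz 9 151, 3615), (.hz 9 95, 14717), (.hz 9 159, 9735), (.hz 9 351, 7828)])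
.fin))
(.ask 95
(.mark 95 [5, 7, 8]
(.spn
(.haz 7 351 3 25
(.haz 8 223 19 50
(.ask 351
(.ask 151
(.mark 223 [5, 8, 10]
(.lp [[5], [0, 2, 4, 7, 10], [1, 3, 6, 8, 9]] [(.mj 3 4, 16), (.mj 4 6, 10), (.mj 5 7, 1), (.mj 5 8, 14), (.mj 6 5, 22), (.hz 9 151, 6388), (.hz 9 159, 4328), (.hz 9 1175, 2763), (.hz 11 223, 2109), (.hz 9 1183, 15238), (.hz 11 1247, 7850), (.hz 10 863, 328)]))
(.ask 159
(.mark 479 [5, 9, 10]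
(.lp [[5], [0, 2, 4, 7, 10], [1, 3, 6, 8, 9]] [(.mj 3 4, 96), (.mj 4 6, 55), (.mj 5 7, 12), (.mj 5 8, 70), (.mj 6 5, 125), (.hz 9 23, 2986), (.hz 9 151, 36906), (.hz 9 159, 28949), (.hz 9 1183, 74854), (.hz 10 383, 18056), (.hz 11 1247, 45626), (.hz 10 863, 23008)]))
(.ask 223
(.mark 479 [5, 9, 10]
(.lp [[5], [0, 2, 4, 7, 10], [1, 3, 6, 8, 9]] [(.mj 4 6, 3), (.mj 5 7, 4), (.mj 5 8, 17), (.mj 6 5, 28), (.hz 9 151, 4267), (.hz 9 159, 6646), (.hz 11 223, 5532), (.hz 9 1247, 1546), (.hz 11 1247, 5332)]))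
(.lp [[5], [0, 2, 4, 7], [1, 3, 6, 8, 9]] [(.mj 4 6, 1), (.mj 5 8, 4), (.mj 6 5, 7)]))))
(.lp [[5], [0, 2, 4, 7], [1, 3, 6, 8]] [(.mj 5 7, 4), (.mj 5 8, 1), (.mj 6 5, 12), (.hz 9 151, 2777), (.hz 9 159, 8648), (.hz 9 223, 2060)]))
(.lp [[5], [0, 2, 4, 7], [1, 3, 6, 8]] [(.mj 3 4, 4), (.mj 5 7, 24), (.mj 6 5, 46), (.hz 9 151, 12259), (.hz 11 95, 7166), (.hz 9 159, 36424), (.hz 10 351, 9569)]))
(.cut 7 [(0, 1), (1, 1), (2, 1), (3, 1), (5, 1), (7, 1), (11, 1), (21, 1), (37, 1), (15, 1), (23, 1), (39, 1), (53, 1), (75, 1), (31, 1), (47, 1), (79, 1), (95, 1), (111, 1)]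
(.lp [[5], [0, 2, 4, 7], [1, 3, 6, 8]] [(.mj 4 6, 96550), (.mj 5 8, 61821), (.mj 6 5, 94374), (.hz 10 23, 8836552), (.hz 10 31, 20593131), (.hz 9 151, 8377014), (.hz 10 95, 24728401), (.hz 9 159, 22471642), (.rw 7, 4)])))
(.lp [[5], [0, 2, 4, 7], [1, 3, 6, 8]] [(.mj 3 4, 8), (.mj 7 5, 5), (.mj 7 8, 1), (.hz 9 23, 2152), (.hz 9 31, 1154), (.hz 9 151, 585), (.hz 9 95, 1312), (.hz 9 159, 694), (.hz 9 351, 3178)])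
(.lp [[5], [0, 2, 4, 7], [1, 3, 6, 8]] [(.mj 3 4, 2), (.mj 4 6, 3), (.mj 8 5, 13), (.hz 9 23, 2402), (.hz 9 31, 3840), (.hz 9 151, 1288), (.hz 9 95, 8990), (.hz 9 159, 4187)])
.fin))
(.lp [[5], [1, 3, 6], [0, 2, 4, 7]] [(.mj 3 4, 10), (.mj 4 6, 3), (.mj 6 5, 8), (.hz 9 23, 2956), (.hz 9 31, 374), (.hz 9 151, 1585), (.hz 9 159, 4648)]))))
(.haz 4 39 13 50
(.haz 6 47 13 50
(.ref 0)
(.lp [[5], [1, 3, 6], [0, 2, 4, 7]] [(.mj 3 4, 1), (.hz 9 5, 11), (.hz 9 7, 82), (.hz 11 11, 13), (.hz 11 15, 80), (.hz 10 39, 127), (.hz 8 95, 52)]))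
(.lp [[5], [1, 3, 6], [0, 2, 4, 7]] [(.mj 0 1, 1), (.hz 9 5, 13), (.hz 10 7, 17), (.hz 9 7, 22), (.hz 9 21, 12), (.hz 3 53, 6)])))

theorem run89 : run P3488 (leaf3 218 625) (cutRow P3488) [s88] t89 s89 = true := by
  decide +kernel

theorem bad89 : Bad P3488 s89 :=
  run_sound (leaf3_sound P3488 rfl rfl) (cutRow_sound P3488) (
    List.forall_mem_cons.2 ⟨bad88, fun _ h => absurd h List.not_mem_nil⟩) t89 s89 run89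

/-- the state above piece 179 of the tree -/
def s179 : St := ⟨[0, 0, 1, 3, 5, 15, 21, 31, 47, 191], [191, 159, 63, 31, 23, 21, 15, 11, 7, 5, 3, 2, 1, 0], [0, 1, 2, 3, 4, 5, 7, 8],
  [(5, 6), (4, 5)],
  [⟨true, 2, 3, 3, 10⟩, ⟨true, 1, 5, 2, 5⟩, ⟨true, 2, 3, 23, 50⟩, ⟨true, 1, 5, 12, 25⟩, ⟨true, 1, 21, 27, 50⟩, ⟨true, 4, 15, 9, 40⟩, ⟨true, 3, 23, 11, 20⟩, ⟨true, 4, 47, 7, 20⟩, ⟨true, 4, 47, 17, 40⟩, ⟨true, 4, 47, 9, 20⟩, ⟨true, 4, 47, 19, 40⟩, ⟨true, 3, 87, 27, 40⟩, ⟨true, 5, 95, 1, 4⟩, ⟨true, 5, 159, 1, 4⟩, ⟨true, 7, 127, 7, 40⟩, ⟨true, 7, 95, 1, 5⟩],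
  [.spn 0 0 651200, .spn 1 1 302400, .spn 3 2 302400, .spn 7 3 302400, .spn 15 4 302400, .spn 31 5 140426, .spn 63 7 140426, .spn 191 8 140426]⟩

/-- piece 179 of the tree -/
noncomputable def t179 : WN.Tree :=
(.haz 8 127 9 50
(.haz 5 95 2 5
(.haz 6 191 3 50
(.haz 4 303 13 25
(.haz 5 95 12 25
(.ask 303
(.mark 447 [6, 9, 10]
(.spn
(.haz 6 1343 3 40
(.haz 9 447 19 40
(.lp [[6], [0, 2, 4, 7, 9], [1, 3, 5, 8, 10]] [(.mj 6 9, 2186), (.mj 7 8, 2186), (.mj 8 6, 2186), (.rw 7, 1), (.hz 22 447, 363791), (.hz 22 511, 785652), (.hz 22 1471, 2254478)])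
(.haz 9 1471 9 40
(.haz 9 447 7 20
(.lp [[6], [0, 2, 4, 7, 9], [1, 3, 5, 8, 10]] [(.mj 6 9, 19), (.mj 7 8, 20), (.mj 8 6, 22), (.hz 22 191, 1064), (.hz 19 1327, 347), (.hz 24 447, 11079), (.hz 18 703, 6346), (.hz 21 1343, 8598), (.hz 24 1471, 38689)])
(.lp [[6], [0, 2, 4, 7, 9], [1, 3, 5, 8, 10]] [(.mj 7 8, 3525), (.mj 8 6, 2195), (.rw 8, 1), (.hz 24 191, 1954295), (.hz 24 447, 1667330), (.hz 18 703, 631016), (.hz 21 1343, 2987685)]))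
(.lp [[6], [0, 2, 4, 7, 9], [1, 3, 5, 8, 10]] [(.mj 7 8, 2678), (.mj 8 6, 1632), (.rw 8, 1), (.hz 23 191, 694121), (.hz 23 447, 443056)])))
(.lp [[6], [0, 2, 4, 7, 9], [1, 3, 5, 8, 10]] [(.mj 0 1, 11), (.mj 6 9, 2), (.mj 6 10, 2), (.hz 21 21, 89), (.hz 21 23, 184), (.hz 21 31, 624), (.hz 21 63, 925), (.hz 21 319, 1280)]))
(.haz 7 1343 9 40
(.haz 7 127 17 40
(.haz 9 1471 3 8
(.haz 7 1343 7 20
(.haz 7 1343 2 5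
(.haz 8 703 3 10
(.ask 703
(.ref 0)
(.ask 959
(.mark 959 [6, 10, 11]
(.spn
(.haz 11 1983 3 8
(.haz 10 3007 1 5
(.lp [[6], [1, 3, 5, 8, 10], [0, 2, 4, 7, 9, 11]] [(.mj 6 10, 381), (.mj 6 11, 260), (.mj 7 8, 86), (.mj 8 9, 3), (.mj 9 6, 608), (.hz 18 1471, 1224643), (.hz 28 3007, 7352481)])
(.lp [[6], [1, 3, 5, 8, 10], [0, 2, 4, 7, 9, 11]] [(.mj 6 11, 21), (.mj 7 8, 9), (.mj 9 6, 26), (.hz 28 303, 8299), (.hz 28 319, 33611), (.hz 28 447, 72446), (.hz 28 959, 41657), (.hz 18 1471, 54534), (.hz 27 1983, 214844)]))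
(.lp [[6], [1, 3, 5, 8, 10], [0, 2, 4, 7, 9, 11]] [(.mj 6 10, 3), (.mj 9 6, 4), (.hz 27 959, 22257), (.hz 18 1471, 9686)]))
(.cut 6 [(0, 1), (1, 1), (2, 1), (3, 1), (5, 1), (7, 1), (11, 1), (21, 1), (15, 1), (23, 1), (31, 1), (47, 1), (63, 1), (159, 1), (303, 1), (191, 1), (319, 1), (1327, 1), (447, 1), (703, 1), (959, 1)]
(.lp [[6], [1, 3, 5, 8, 10], [0, 2, 4, 7, 9, 11]] [(.mj 7 8, 91657), (.mj 10 6, 39883), (.mj 10 11, 9667), (.hz 19 1327, 23856975), (.hz 18 3007, 46361091), (.rw 10, 94)]))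
(.ask 3007
(.mark 3007 [6, 10, 12]
(.spn
(.lp [[6], [1, 3, 5, 8, 10], [0, 2, 4, 7, 9, 11, 12]] [(.mj 11 6, 129), (.rw 10, 1)])
(.lp [[6], [1, 3, 5, 8, 10], [0, 2, 4, 7, 9, 11, 12]] [(.mj 11 10, 1106), (.rw 10, 2), (.hz 18 1471, 4411391), (.hz 18 1983, 6986892)])
(.ask 1327
(.mark 1471 [6, 9, 13]
(.cut 6 [(0, 1), (1, 1), (2, 1), (3, 1), (5, 1), (7, 1), (11, 1), (21, 1), (15, 1), (23, 1), (31, 1), (47, 1), (63, 1), (159, 1), (303, 1), (191, 1), (319, 1), (1327, 1), (447, 1), (703, 1), (1343, 1), (9519, 1), (959, 1), (1471, 1), (3007, 1)]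
(.cut 10 [(0, 1), (1, 1), (2, 1), (3, 1), (5, 1), (7, 1), (11, 1), (21, 1), (15, 1), (23, 1), (85, 1), (31, 1), (47, 1), (87, 1), (63, 1), (95, 1), (159, 1), (303, 1), (127, 1), (191, 1), (223, 1), (319, 1), (255, 1), (383, 1), (447, 1), (703, 1), (511, 1), (767, 1), (959, 1), (1023, 1)]
(.lp [[6], [1, 3, 5, 8, 10, 13], [0, 2, 4, 7, 9, 11, 12]] [(.mj 0 1, 13569), (.mj 7 8, 3304), (.mj 12 6, 5393), (.hz 4 85, 53675), (.hz 19 9519, 6656592), (.hz 22 1407, 2419891), (.hz 25 9535, 15618026), (.hz 22 9599, 4466879), (.hz 18 1983, 2879951), (.hz 23 9663, 7884544), (.hz 18 4031, 5312313), (.rw 11, 19), (.rw 12, 1)]))))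
(.cut 6 [(0, 1), (1, 1), (2, 1), (3, 1), (5, 1), (7, 1), (11, 1), (21, 1), (15, 1), (23, 1), (31, 1), (47, 1), (63, 1), (159, 1), (303, 1), (191, 1), (319, 1), (1327, 1), (447, 1), (703, 1), (959, 1), (3007, 1)]
(.cut 6 [(0, 1), (1, 1), (2, 1), (3, 1), (5, 1), (7, 1), (11, 1), (21, 1), (15, 1), (23, 1), (31, 1), (47, 1), (63, 1), (303, 1), (319, 1), (1327, 1), (1343, 1)]
(.cut 10 [(0, 1), (1, 1), (2, 1), (3, 1), (5, 1), (7, 1), (11, 1), (21, 1), (15, 1), (23, 1), (85, 1), (31, 1), (47, 1), (87, 1), (63, 1), (95, 1), (159, 1), (303, 1), (127, 1), (191, 1), (223, 1), (319, 1), (255, 1), (383, 1), (447, 1), (703, 1), (511, 1), (767, 1), (959, 1), (1023, 1)]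
(.lp [[6], [1, 3, 5, 8, 10], [0, 2, 4, 7, 9, 11, 12]] [(.mj 0 1, 89336), (.mj 7 8, 2416), (.mj 12 6, 21832), (.hz 4 85, 353387), (.hz 18 703, 17409638), (.hz 22 1407, 20008095), (.hz 18 959, 6186390), (.hz 23 1535, 112571706), (.hz 18 4031, 41145090), (.rw 11, 54), (.rw 12, 1), (.rw 13, 2)])))))
.fin))
(.lp [[6], [1, 3, 5, 8, 10], [0, 2, 4, 7, 9, 11]] [(.mj 11 10, 1), (.rw 9, 1)]))
.fin))
(.lp [[6], [0, 2, 4, 7, 9], [1, 3, 5, 8, 10]] [(.mj 7 8, 11), (.mj 9 6, 7), (.mj 9 10, 1), (.hz 26 767, 31996), (.hz 18 1471, 29303)])))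
(.lp [[6], [0, 2, 4, 7, 9], [1, 3, 5, 8, 10]] [(.mj 8 9, 272), (.mj 9 6, 204), (.hz 26 47, 74234), (.hz 26 63, 239670), (.hz 16 127, 31886), (.hz 26 191, 370727), (.hz 16 255, 108694), (.hz 18 703, 251628), (.hz 26 703, 73696), (.hz 18 1471, 245652)]))
(.lp [[6], [0, 2, 4, 7, 9], [1, 3, 5, 8, 10]] [(.mj 3 4, 1), (.mj 7 8, 7), (.mj 9 6, 4), (.hz 25 63, 18784), (.hz 20 95, 183), (.hz 22 127, 1132), (.hz 16 127, 3029), (.hz 25 319, 1629), (.hz 20 223, 183)]))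
(.lp [[6], [0, 2, 4, 7, 9], [1, 3, 5, 8, 10]] [(.mj 7 8, 3), (.mj 9 6, 2), (.hz 24 63, 2386), (.hz 22 127, 775), (.hz 16 127, 391), (.hz 24 319, 188)]))
(.lp [[6], [0, 2, 4, 7, 9], [1, 3, 5, 8, 10]] [(.mj 7 8, 3), (.mj 9 6, 8), (.mj 9 10, 7), (.hz 23 191, 19002), (.hz 23 447, 39879), (.hz 18 1471, 30307)]))
(.lp [[6], [0, 2, 4, 7, 9], [1, 3, 5, 8, 10]] [(.mj 7 8, 7), (.mj 9 6, 4), (.hz 22 63, 2510), (.hz 15 95, 412), (.hz 15 127, 11875), (.hz 16 127, 3153), (.hz 18 447, 2096), (.hz 18 703, 27), (.hz 18 1471, 447)]))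
(.lp [[6], [0, 2, 4, 7, 9], [1, 3, 5, 8, 10]] [(.mj 7 8, 1), (.mj 9 6, 1), (.hz 21 63, 410), (.hz 21 319, 20)]))
(.ask 1327
(.mark 1471 [6, 9, 11]
(.lp [[6], [0, 2, 4, 7, 9], [1, 3, 5, 8, 10, 11]] [(.mj 3 4, 4238), (.mj 7 8, 19782), (.mj 10 6, 11867), (.mj 10 9, 10618), (.rw 7, 1), (.hz 20 95, 1103624), (.hz 16 127, 6008620), (.hz 20 223, 1103624), (.hz 16 255, 7480118), (.hz 18 703, 19224576), (.hz 16 767, 33282576), (.hz 18 1471, 4128311), (.hz 18 3519, 7679287)]))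
(.cut 6 [(0, 1), (1, 1), (2, 1), (3, 1), (5, 1), (7, 1), (11, 1), (21, 1), (15, 1), (23, 1), (31, 1), (47, 1), (63, 1), (159, 1), (303, 1), (191, 1), (319, 1), (1327, 1), (447, 1), (703, 2), (959, 1)]
(.cut 6 [(0, 1), (1, 1), (2, 1), (3, 1), (5, 1), (7, 1), (11, 1), (21, 1), (15, 1), (23, 1), (31, 1), (47, 1), (63, 1), (159, 1), (303, 1), (191, 1), (319, 1), (1327, 1), (447, 1)]
(.lp [[6], [0, 2, 4, 7, 9], [1, 3, 5, 8, 10]] [(.mj 7 8, 3198833), (.mj 10 6, 2084088), (.mj 10 9, 1749665), (.hz 18 703, 1602442554), (.hz 16 767, 5977474079), (.rw 9, 449), (.rw 10, 3227)]))))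
.fin))
(.ref 1))
(.lp [[6], [1, 3, 5, 8], [0, 2, 4, 7, 9]] [(.mj 3 4, 21), (.mj 8 6, 1), (.hz 20 31, 4826), (.hz 17 95, 18879), (.hz 19 303, 1880), (.hz 16 127, 15), (.hz 17 223, 2299), (.hz 18 703, 245)]))
(.lp [[6], [1, 3, 5, 8], [0, 2, 4, 7, 9]] [(.mj 3 4, 5), (.mj 7 8, 10), (.mj 8 6, 1), (.hz 19 47, 4802), (.hz 17 95, 13692), (.hz 10 303, 2629), (.hz 16 127, 3414), (.hz 17 223, 2069)]))
(.cut 6 [(0, 1), (1, 1), (2, 1), (3, 1), (5, 1), (7, 1), (11, 1), (21, 1), (15, 1), (23, 1), (31, 1), (47, 1), (63, 1), (159, 1), (303, 1), (191, 1)]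
(.lp [[6], [1, 3, 5, 8], [0, 2, 4, 7, 9]] [(.mj 0 1, 132374), (.mj 8 9, 1358), (.hz 18 21, 614968), (.hz 18 23, 738828), (.hz 18 31, 340234), (.hz 18 63, 1788361), (.hz 18 159, 361952), (.rw 8, 4)])))
(.lp [[6], [1, 3, 5, 8], [0, 2, 4, 7, 9]] [(.mj 3 4, 5), (.mj 5 7, 1), (.hz 17 15, 2404), (.hz 17 31, 2453)]))
(.lp [[6], [1, 3, 5, 8], [0, 2, 4, 7, 9]] [(.mj 3 4, 15), (.mj 8 9, 2), (.hz 16 47, 462), (.hz 16 63, 1183), (.hz 15 95, 1104)]))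

theorem run179 : run P3488 (leaf3 218 625) (cutRow P3488) [s174, s178] t179 s179 = true := by
  decide +kernel

theorem bad179 : Bad P3488 s179 :=
  run_sound (leaf3_sound P3488 rfl rfl) (cutRow_sound P3488) (
    List.forall_mem_cons.2 ⟨bad174, List.forall_mem_cons.2 ⟨bad178, fun _ h => absurd h List.not_mem_nil⟩⟩) t179 s179 run179

/-- the state above piece 61 of the tree -/
def s61 : St := ⟨[0, 0, 1, 1, 7], [7, 5, 3, 2, 1, 0], [0, 1, 2],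
  [(3, 4)],
  [⟨true, 1, 9, 7, 50⟩, ⟨true, 2, 11, 3, 50⟩, ⟨true, 2, 9, 9, 50⟩, ⟨true, 3, 3, 1, 5⟩, ⟨true, 1, 5, 13, 50⟩, ⟨true, 2, 11, 3, 5⟩, ⟨true, 2, 9, 8, 25⟩, ⟨true, 2, 9, 17, 50⟩, ⟨true, 2, 11, 33, 50⟩],
  [.spn 0 0 651200, .spn 1 1 140426, .spn 3 2 302400]⟩

/-- piece 61 of the tree -/
noncomputable def t61 : WN.Tree :=
(.spn
(.ask 23
(.ask 9
(.mark 9 [1, 2, 6]
(.ask 11
(.mark 31 [5, 6, 7]
(.cut 6 [(0, 1), (1, 1), (2, 1), (3, 1), (5, 1), (7, 1), (23, 1), (55, 1)]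
(.lp [[1, 7], [3, 6], [0, 2, 4, 5]] [(.mj 1 2, 13816), (.mj 2 3, 34904), (.mj 3 4, 23754), (.rw 4, 2)])))
(.lp [[1], [3, 6], [0, 2, 4, 5]] [(.mj 1 2, 28), (.mj 2 3, 4), (.mj 3 4, 3), (.hz 7 73, 314), (.hz 8 75, 486)])))
(.ask 11
(.ask 13
(.mark 15 [4, 6, 7]
(.spn
(.mark 31 [5, 6, 7]
(.spn
(.haz 6 63 7 50
(.ask 55
(.mark 63 [6, 7, 8]
(.spn
(.cut 7 [(0, 1), (1, 1), (2, 1), (3, 1), (5, 1), (9, 1), (7, 1), (11, 1), (13, 1), (15, 1), (23, 1), (75, 1), (31, 1), (55, 1), (63, 1), (311, 1)]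
(.lp [[1, 6], [3, 7], [0, 2, 4, 5, 8]] [(.mj 1 2, 397007), (.mj 2 3, 329211), (.mj 3 4, 215335), (.mj 5 6, 26273), (.mj 6 8, 7814), (.hz 9 191, 9198370), (.rw 7, 10)]))
(.lp [[1, 6], [3, 7], [0, 2, 4, 5, 8]] [(.mj 1 2, 15029), (.mj 2 3, 11272), (.mj 3 4, 6262), (.rw 6, 1)])
(.lp [[1, 6], [3, 7], [0, 2, 4, 5, 8]] [(.mj 1 2, 126), (.mj 2 3, 131), (.mj 3 4, 89), (.mj 8 6, 5), (.hz 9 63, 583), (.hz 9 191, 2216)])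
.fin))
(.cut 7 [(0, 1), (1, 1), (2, 1), (3, 1), (5, 1), (9, 1), (7, 1), (11, 1), (23, 1), (75, 1), (55, 1)]
(.lp [[1, 6], [3, 7], [0, 2, 4, 5]] [(.mj 1 2, 34492), (.mj 2 3, 12630), (.hz 8 75, 565077), (.hz 9 63, 149655), (.hz 9 191, 382524), (.rw 6, 4)])))
(.lp [[1, 6], [3, 7], [0, 2, 4, 5]] [(.mj 1 2, 159), (.mj 3 4, 36), (.hz 9 11, 2973), (.hz 9 15, 1477), (.hz 9 31, 794)]))
(.lp [[1, 6], [3, 7], [0, 2, 4, 5]] [(.mj 1 2, 2), (.mj 2 3, 3), (.mj 6 5, 1), (.hz 3 55, 827)])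
(.lp [[1, 6], [3, 7], [0, 2, 4, 5]] [(.mj 1 2, 19), (.mj 2 3, 14), (.mj 3 4, 8), (.mj 7 5, 1), (.mj 7 6, 1)])
.fin))
(.lp [[1, 6], [3, 7], [0, 2, 4, 5]] [(.mj 1 2, 1), (.mj 2 3, 2), (.mj 6 4, 1), (.hz 3 23, 369)])
(.lp [[1, 6], [3, 7], [0, 2, 4, 5]] [(.mj 1 2, 1), (.mj 2 3, 2), (.mj 7 4, 1), (.hz 3 23, 369)])
.fin))
(.haz 3 23 8 25
(.haz 4 15 27 50
(.haz 3 23 19 50
(.haz 4 15 29 50
(.maj 4 6
(.ask 11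
(.mark 15 [4, 6, 7]
(.spn
(.mark 31 [5, 6, 7]
(.spn
(.ask 55
(.mark 63 [6, 7, 8]
(.lp [[1, 6], [3, 7], [0, 2, 4, 5, 8]] [(.mj 2 3, 3), (.mj 3 4, 2)]))
(.ask 63
(.mark 63 [6, 7, 8]
(.spn
(.lp [[1, 6], [3, 7], [0, 2, 4, 5, 8]] [(.mj 2 3, 7), (.mj 6 8, 1)])
(.con 7 6)
(.ask 319
(.mark 319 [6, 7, 9]
(.spn
(.lp [[1, 6], [3, 7], [0, 2, 4, 5, 8, 9]] [(.mj 8 6, 2464), (.rw 7, 4)])
(.con 7 6)
(.ask 831
(.mark 831 [6, 7, 10]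
(.spn
(.lp [[1, 6], [3, 7], [0, 2, 4, 5, 8, 9, 10]] [(.mj 9 6, 298), (.rw 8, 1)])
(.con 7 6)
(.cut 6 [(0, 1), (1, 1), (2, 1), (3, 1), (5, 1), (9, 1), (7, 1), (11, 1), (13, 1), (15, 1), (23, 1), (31, 1), (55, 1)]
(.cut 6 [(0, 1), (1, 1), (2, 1), (3, 1), (5, 1), (9, 1), (7, 1), (11, 1), (13, 1), (15, 1), (23, 1), (31, 1), (55, 1), (63, 1)]
(.cut 7 [(0, 1), (1, 1), (2, 1), (3, 1), (5, 1), (9, 1), (7, 1), (11, 1), (13, 1), (15, 1), (23, 1), (31, 1), (55, 1)]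
(.cut 6 [(0, 1), (1, 1), (2, 1), (3, 1), (5, 1), (9, 1), (7, 1), (11, 1), (13, 1), (15, 1), (23, 1), (31, 1), (55, 1), (63, 1), (319, 1)]
(.cut 7 [(0, 1), (1, 1), (2, 1), (3, 1), (5, 1), (9, 1), (7, 1), (11, 1), (13, 1), (15, 1), (23, 1), (31, 1), (55, 1), (63, 1)]
(.cut 7 [(0, 1), (1, 1), (2, 1), (3, 1), (5, 1), (9, 1), (7, 1), (11, 1), (13, 1), (15, 1), (23, 1), (31, 1), (55, 1), (63, 1), (319, 1)]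
(.cut 7 [(0, 1), (1, 1), (2, 1), (3, 1), (5, 1), (9, 1), (7, 1), (11, 1), (13, 1), (15, 1), (23, 1), (75, 1), (31, 1), (55, 1), (79, 1), (63, 1), (95, 1), (319, 1), (831, 1)]
(.lp [[1, 6], [3, 7], [0, 2, 4, 5, 8, 9, 10]] [(.mj 2 3, 114816), (.mj 3 4, 235742), (.mj 10 6, 41575), (.rw 8, 38), (.hz 12 207, 9020941), (.rw 9, 71), (.rw 10, 114), (.rw 11, 54), (.rw 12, 64), (.rw 13, 38), (.rw 14, 12), (.rw 15, 26)]))))))))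
.fin))
(.lp [[1, 6], [3, 7], [0, 2, 4, 5, 8, 9]] [(.rw 7, 1)]))
.fin))
(.lp [[1, 6], [3, 7], [0, 2, 4, 5, 8]] [(.rw 6, 1)]))
.fin))
(.lp [[1, 6], [3, 7], [0, 2, 4, 5]] [(.mj 2 3, 1)])))
(.lp [[1, 6], [3, 7], [0, 2, 4, 5]] [(.mj 2 3, 3), (.mj 6 5, 1), (.hz 11 55, 43)])
(.con 7 6)
.fin))
(.con 6 4)
(.con 7 6)
.fin))
(.ask 15
(.ref 0)
(.spn
(.haz 6 63 1 10
(.ask 23
(.mark 31 [5, 6, 7]
(.spn
(.haz 5 159 6 25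
(.ask 55
(.mark 63 [6, 7, 8]
(.lp [[1, 7], [3, 6], [0, 2, 4, 5, 8]] [(.mj 2 3, 1236), (.mj 3 4, 803), (.mj 5 7, 13), (.hz 14 159, 8791), (.hz 13 191, 33544)]))
(.ask 63
(.mark 63 [6, 7, 8]
(.spn
(.haz 5 159 11 25
(.haz 8 191 3 10
(.haz 7 319 2 25
(.haz 7 319 1 10
(.haz 5 159 13 25
(.haz 6 159 9 50
(.haz 6 159 11 50
(.lp [[1, 7], [3, 6], [0, 2, 4, 5, 8]] [(.mj 2 3, 50), (.mj 3 4, 120), (.mj 5 6, 49), (.mj 6 8, 12), (.hz 19 159, 638), (.hz 21 159, 11211), (.hz 18 319, 25719)])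
(.lp [[1, 7], [3, 6], [0, 2, 4, 5, 8]] [(.mj 2 3, 352), (.mj 3 4, 282), (.mj 6 8, 8), (.hz 21 31, 5527), (.hz 19 159, 5300), (.hz 20 159, 1681), (.hz 18 319, 16420)]))
(.lp [[1, 7], [3, 6], [0, 2, 4, 5, 8]] [(.mj 2 3, 8), (.mj 3 4, 13), (.mj 6 8, 1), (.hz 20 15, 440), (.hz 20 31, 462), (.hz 19 159, 513), (.hz 18 319, 1303)]))
(.lp [[1, 7], [3, 6], [0, 2, 4, 5, 8]] [(.mj 2 3, 221), (.mj 3 4, 151), (.hz 19 31, 1397), (.hz 15 159, 3174)]))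
(.cut 7 [(0, 1), (1, 1), (2, 1), (3, 1), (5, 1), (9, 1), (7, 1), (11, 1), (13, 1), (15, 1), (23, 1), (75, 1), (31, 1), (55, 1), (79, 1), (63, 1)]
(.lp [[1, 7], [3, 6], [0, 2, 4, 5, 8]] [(.mj 2 3, 4771), (.mj 5 6, 4803), (.mj 6 8, 3595), (.hz 18 23, 918348), (.hz 18 31, 2144160), (.hz 18 55, 1020387), (.hz 18 63, 3516163), (.hz 17 319, 1854697), (.rw 7, 2)])))
(.lp [[1, 7], [3, 6], [0, 2, 4, 5, 8]] [(.mj 2 3, 28), (.mj 6 8, 4), (.hz 17 23, 930), (.hz 17 31, 403), (.hz 17 55, 1011), (.hz 17 63, 246), (.hz 13 191, 3584), (.hz 16 191, 8704)]))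
(.lp [[1, 7], [3, 6], [0, 2, 4, 5, 8]] [(.mj 2 3, 56), (.mj 3 4, 81), (.mj 5 6, 19), (.hz 16 63, 4663), (.hz 15 159, 2967), (.hz 13 191, 21098)]))
(.lp [[1, 7], [3, 6], [0, 2, 4, 5, 8]] [(.mj 2 3, 532), (.mj 3 4, 244), (.mj 6 7, 41), (.hz 15 31, 17762), (.hz 14 159, 14324)]))
(.lp [[1, 7], [3, 6], [0, 2, 4, 5, 8]] [(.mj 2 3, 73), (.mj 3 4, 73), (.mj 7 6, 7), (.hz 13 63, 5498), (.hz 14 159, 1935), (.hz 13 319, 6109)])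
(.haz 6 31 4 25
(.lp [[1, 7], [3, 6], [0, 2, 4, 5, 8]] [(.mj 3 4, 7), (.mj 8 6, 4), (.hz 15 31, 614), (.hz 15 63, 1346), (.hz 14 159, 455), (.hz 15 159, 663)])
(.lp [[1, 7], [3, 6], [0, 2, 4, 5, 8]] [(.mj 3 4, 4), (.hz 15 11, 127), (.hz 15 15, 362), (.hz 15 31, 197)]))
.fin))
(.lp [[1, 7], [3, 6], [0, 2, 4, 5]] [(.mj 3 4, 6), (.mj 5 6, 5), (.mj 5 7, 2), (.hz 13 191, 8336)])))
(.lp [[1, 7], [3, 6], [0, 2, 4, 5]] [(.mj 5 6, 5), (.mj 5 7, 6), (.hz 14 23, 400), (.hz 14 31, 1594)]))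
(.cut 7 [(0, 1), (1, 1), (2, 1), (3, 1), (5, 1), (9, 1), (7, 1), (11, 1), (13, 1), (15, 1), (23, 1), (75, 1), (31, 1), (79, 1)]
(.lp [[1, 7], [3, 6], [0, 2, 4, 5]] [(.mj 2 3, 26819), (.mj 3 4, 13410), (.mj 5 7, 1829), (.mj 6 5, 1829), (.rw 6, 1)]))
(.con 7 5)
.fin))
(.ref 1))
(.lp [[3], [1, 6], [0, 2, 4, 5]] [(.mj 1 2, 36), (.mj 3 4, 1), (.hz 13 11, 2733)]))
(.con 6 4)
.fin
.fin)))
(.lp [[3], [1, 6], [0, 2, 4, 5]] [(.mj 2 3, 1), (.mj 6 4, 1), (.hz 12 15, 42), (.hz 11 23, 4)]))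
(.lp [[3], [1, 6], [0, 2, 4, 5]] [(.mj 1 2, 67), (.mj 2 3, 36), (.hz 12 7, 1221)]))
(.lp [[3], [1, 6], [0, 2, 4, 5]] [(.mj 2 3, 3), (.mj 3 4, 5), (.hz 11 7, 214)]))
(.lp [[3], [1, 6], [0, 2, 4, 5]] [(.mj 1 2, 12), (.mj 2 3, 7), (.hz 10 7, 224)]))
(.lp [[3], [1, 6], [0, 2, 4, 5]] [(.mj 2 3, 2), (.mj 3 4, 3), (.hz 9 7, 274)])))
(.lp [[1], [3], [0, 2, 4, 5]] [(.mj 1 2, 14), (.mj 3 4, 1)])))
(.lp [[1], [3], [0, 2, 4]] [(.mj 2 3, 1)]))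
(.con 4 3)
.fin
.fin)

theorem run61 : run P3488 (leaf3 218 625) (cutRow P3488) [s60, s59] t61 s61 = true := by
  decide +kernel

theorem bad61 : Bad P3488 s61 :=
  run_sound (leaf3_sound P3488 rfl rfl) (cutRow_sound P3488) (
    List.forall_mem_cons.2 ⟨bad60, List.forall_mem_cons.2 ⟨bad59, fun _ h => absurd h List.not_mem_nil⟩⟩) t61 s61 run61

/-- the state above piece 18 of the tree -/
def s18 : St := ⟨[0, 0, 1, 1, 2], [9, 3, 1, 0], [0, 1, 2],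
  [],
  [⟨true, 1, 9, 7, 50⟩, ⟨true, 2, 11, 3, 50⟩, ⟨true, 2, 9, 9, 50⟩, ⟨true, 3, 3, 1, 5⟩],
  [.spn 0 0 651200, .spn 1 1 140426, .spn 3 2 140426]⟩

/-- piece 18 of the tree -/
noncomputable def t18 : WN.Tree :=
(.ask 5
(.mark 7 [3, 4, 5]
(.spn
(.ask 13
(.mark 15 [4, 5, 6]
(.spn
(.haz 4 39 1 5
(.haz 5 79 2 25
(.haz 4 39 11 50
(.haz 5 79 1 10
(.haz 5 79 3 25
(.haz 5 79 4 25
(.haz 5 79 9 50
(.haz 3 39 7 25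
(.haz 4 7 6 25
(.haz 5 15 3 10
(.lp [[1, 4], [3, 6], [0, 2, 5]] [(.mj 1 2, 173), (.mj 2 3, 260), (.mj 3 4, 308), (.mj 4 5, 136), (.mj 4 6, 5), (.hz 12 7, 5680), (.hz 13 15, 44594), (.hz 12 39, 30982), (.hz 13 79, 123903)])
(.haz 6 63 1 5
(.haz 4 3 7 25
(.lp [[1, 4], [3, 6], [0, 2, 5]] [(.mj 1 2, 548), (.mj 2 3, 427), (.mj 3 4, 630), (.mj 4 5, 19), (.hz 15 3, 6606), (.hz 15 7, 28175), (.hz 15 11, 12472), (.hz 15 39, 62934), (.hz 10 79, 13005)])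
(.ask 18
(.mark 23 [3, 5, 7]
(.lp [[3, 6], [0, 2, 5], [1, 4, 7]] [(.mj 1 2, 116), (.mj 2 3, 118), (.mj 3 4, 87), (.mj 4 5, 5), (.hz 15 2, 949), (.hz 13 7, 14002), (.hz 12 39, 5965), (.hz 3 147, 108734), (.hz 10 79, 4043)]))
(.ask 19
(.mark 23 [3, 5, 7]
(.lp [[3, 6], [0, 2, 5], [1, 4, 7]] [(.mj 1 2, 23), (.mj 2 3, 21), (.mj 3 4, 18), (.mj 4 5, 1), (.hz 13 7, 2106), (.hz 12 39, 1503), (.hz 3 147, 14837), (.hz 10 79, 757)]))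
(.lp [[1, 4], [3, 6], [0, 2, 5]] [(.mj 1 2, 420), (.mj 2 3, 310), (.mj 3 4, 322), (.mj 4 5, 13), (.hz 13 7, 25547), (.hz 12 39, 32211), (.hz 10 79, 13177)]))))
(.lp [[1, 4], [3, 6], [0, 2, 5]] [(.mj 1 2, 35), (.mj 2 3, 78), (.mj 3 4, 70), (.mj 4 5, 17), (.hz 13 5, 1598), (.hz 13 7, 5741), (.hz 13 15, 5262), (.hz 14 15, 26603), (.hz 12 39, 7032), (.hz 10 79, 3010)])))
(.lp [[1, 4], [3, 6], [0, 2, 5]] [(.mj 1 2, 14), (.mj 2 3, 18), (.mj 4 5, 10), (.hz 12 2, 490), (.hz 12 3, 1134), (.hz 12 7, 1520), (.hz 11 39, 1917), (.hz 10 79, 2287)]))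
(.lp [[1, 4], [3, 6], [0, 2, 5]] [(.mj 1 2, 20), (.mj 2 3, 11), (.mj 3 4, 29), (.mj 4 5, 13), (.hz 11 7, 3496), (.hz 3 39, 16522), (.hz 6 39, 1448)]))
(.lp [[1, 4], [3, 6], [0, 2, 5]] [(.mj 1 2, 7), (.mj 2 3, 15), (.mj 3 4, 14), (.mj 4 6, 4), (.hz 10 5, 111), (.hz 10 7, 379), (.hz 10 13, 11), (.hz 10 15, 618), (.hz 6 39, 716), (.hz 9 79, 1891)]))
(.lp [[1, 4], [3, 6], [0, 2, 5]] [(.mj 1 2, 6), (.mj 2 3, 15), (.mj 3 4, 14), (.mj 4 6, 4), (.hz 9 5, 235), (.hz 9 7, 755), (.hz 9 13, 58), (.hz 9 15, 1239), (.hz 6 39, 712), (.hz 8 79, 2045)]))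
(.lp [[1, 4], [3, 6], [0, 2, 5]] [(.mj 1 2, 2), (.mj 2 3, 7), (.mj 3 4, 6), (.mj 4 6, 2), (.hz 8 5, 113), (.hz 8 7, 322), (.hz 8 13, 54), (.hz 8 15, 535), (.hz 6 39, 304), (.hz 7 79, 2341)]))
(.lp [[1, 4], [3, 6], [0, 2, 5]] [(.mj 1 2, 1), (.mj 2 3, 3), (.mj 3 4, 3), (.mj 4 6, 1), (.hz 7 5, 158), (.hz 7 7, 424), (.hz 7 13, 91), (.hz 7 15, 708), (.hz 6 39, 160), (.hz 5 79, 520)]))
(.lp [[1, 4], [3, 6], [0, 2, 5]] [(.mj 1 2, 87), (.mj 2 3, 31), (.mj 4 5, 16), (.hz 6 2, 753), (.hz 6 3, 1719), (.hz 6 7, 3969), (.hz 3 39, 21738), (.hz 4 39, 18732), (.hz 5 79, 12428)]))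
(.lp [[1, 4], [3, 6], [0, 2, 5]] [(.mj 2 3, 4), (.mj 3 4, 4), (.mj 4 6, 2), (.hz 5 5, 208), (.hz 5 7, 225), (.hz 5 15, 400)]))
(.lp [[1, 4], [3, 6], [0, 2, 5]] [(.mj 1 2, 20), (.mj 2 3, 13), (.mj 4 5, 5), (.hz 4 2, 2085), (.hz 4 3, 4691), (.hz 4 7, 4853), (.hz 3 39, 7697)]))
(.cut 4 [(0, 1), (1, 1), (2, 1), (3, 1), (5, 1), (9, 1), (7, 1), (11, 1), (13, 1), (37, 1), (15, 1), (45, 1), (77, 1)]
(.lp [[1, 4], [3, 6], [0, 2, 5]] [(.mj 0 1, 208), (.mj 1 2, 6878), (.mj 5 4, 3389), (.mj 5 6, 116), (.hz 3 19, 129836), (.hz 3 39, 264791), (.hz 2 27, 100983), (.rw 5, 1)]))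
(.cut 4 [(0, 1), (1, 1), (2, 1), (3, 1), (5, 1), (9, 1), (7, 1), (11, 1), (13, 1), (37, 1), (15, 1), (45, 1), (77, 1)]
(.lp [[1, 4], [3, 6], [0, 2, 5]] [(.mj 0 1, 362), (.mj 1 2, 8292), (.mj 2 3, 422), (.mj 6 4, 4067), (.hz 3 19, 226304), (.hz 3 39, 482782), (.rw 5, 2)]))
.fin))
(.ref 0))
(.haz 1 5 8 25
(.lp [[3], [1, 4], [0, 2, 5]] [(.mj 0 1, 5683), (.mj 4 3, 7659), (.mj 4 5, 824), (.hz 3 3, 2161911), (.hz 3 7, 3551711), (.hz 4 37, 321673), (.hz 3 39, 6496661)])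
(.lp [[3], [1, 4], [0, 2, 5]] [(.mj 1 2, 4), (.mj 4 3, 1), (.hz 4 0, 68), (.hz 4 1, 100), (.hz 2 9, 31), (.hz 2 11, 38)]))
(.lp [[3], [1, 4], [0, 2, 5]] [(.mj 0 1, 15), (.mj 1 2, 17), (.mj 5 3, 14), (.mj 5 4, 2), (.hz 3 3, 781), (.hz 3 7, 8087), (.hz 3 19, 8561), (.hz 3 39, 3516), (.hz 2 27, 1319)])
.fin))
(.ask 7
(.mark 7 [3, 4, 5]
(.spn
(.ask 13
(.ref 1)
(.haz 4 39 1 20
(.ask 11
(.mark 15 [4, 5, 6]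
(.spn
(.haz 6 47 1 4
(.lp [[1, 4], [3, 6], [0, 2, 5]] [(.mj 0 1, 134), (.mj 2 3, 63), (.mj 4 5, 22), (.hz 3 19, 35558), (.hz 3 39, 18356), (.hz 5 47, 39446), (.hz 4 111, 5819)])
(.lp [[1, 4], [3, 6], [0, 2, 5]] [(.mj 0 1, 21), (.mj 2 3, 5), (.mj 4 5, 4), (.hz 5 15, 3771)]))
(.haz 5 79 2 5
(.haz 2 75 1 2
(.ask 39
(.ref 2)
(.ask 47
(.mark 47 [4, 6, 7]
(.spn
(.haz 4 15 3 20
(.haz 7 111 7 20
(.lp [[1, 4], [3, 6], [0, 2, 5, 7]] [(.mj 2 3, 20), (.mj 3 5, 5), (.mj 4 7, 9), (.mj 5 4, 22), (.hz 7 15, 5132), (.hz 7 79, 17757), (.hz 8 111, 6209)])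
(.lp [[1, 4], [3, 6], [0, 2, 5, 7]] [(.mj 2 3, 5), (.mj 3 5, 2), (.mj 4 6, 2), (.mj 5 4, 5), (.hz 8 47, 1544), (.hz 7 79, 5759)]))
(.lp [[1, 4], [3, 6], [0, 2, 5, 7]] [(.mj 2 3, 11), (.mj 4 7, 2), (.hz 7 2, 170), (.hz 7 7, 1312), (.hz 3 19, 6293), (.hz 4 111, 1913)]))
(.lp [[1, 4], [3, 6], [0, 2, 5, 7]] [(.mj 0 1, 10), (.mj 2 3, 26), (.mj 6 4, 6), (.mj 6 7, 3), (.hz 3 19, 19557), (.hz 3 23, 7380), (.hz 3 55, 3198), (.hz 4 111, 2387), (.hz 4 175, 5633)])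
(.ask 175
(.mark 175 [4, 6, 8]
(.spn
(.lp [[1, 4], [3, 6], [0, 2, 5, 7, 8]] [(.mj 7 4, 281), (.rw 6, 1)])
(.lp [[1, 4], [3, 6], [0, 2, 5, 7, 8]] [(.mj 0 1, 7114), (.mj 2 3, 18946), (.rw 5, 1), (.rw 6, 6), (.hz 3 19, 14427348), (.hz 3 23, 5444282), (.hz 3 55, 2359189), (.hz 4 111, 7003544)])
(.ask 431
(.mark 431 [4, 6, 9]
(.spn
(.lp [[1, 4], [3, 6], [0, 2, 5, 7, 8, 9]] [(.mj 8 4, 151), (.rw 7, 1)])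
(.lp [[1, 4], [3, 6], [0, 2, 5, 7, 8, 9]] [(.mj 8 6, 627), (.rw 7, 1)])
(.cut 4 [(0, 1), (1, 1), (2, 1), (3, 1), (5, 1), (9, 1), (7, 1), (11, 1), (13, 1), (15, 1), (39, 1), (47, 1)]
(.lp [[1, 4], [3, 6], [0, 2, 5, 7, 8, 9]] [(.mj 2 3, 9772), (.mj 9 4, 3741), (.hz 4 431, 1285808), (.rw 8, 10)]))
.fin))
(.lp [[1, 4], [3, 6], [0, 2, 5, 7, 8]] [(.mj 8 6, 1), (.rw 6, 1)]))
.fin))
(.lp [[1, 4], [3, 6], [0, 2, 5, 7]] [(.mj 7 6, 1), (.rw 5, 1)]))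
.fin))
(.lp [[1, 4], [3, 6], [0, 2, 5]] [(.mj 0 1, 3), (.mj 2 3, 7), (.mj 3 5, 1), (.mj 5 4, 2), (.hz 3 19, 5104), (.hz 4 111, 1537)])))
(.lp [[1, 4], [3, 6], [0, 2, 5]] [(.mj 0 1, 4), (.mj 2 3, 2), (.hz 6 3, 1595), (.hz 6 11, 690), (.hz 3 19, 776)]))
(.lp [[1, 4], [3, 6], [0, 2, 5]] [(.mj 0 1, 8), (.mj 2 3, 41), (.mj 5 4, 14), (.hz 5 7, 12276), (.hz 3 19, 34408), (.hz 5 15, 7985), (.hz 3 23, 6015)]))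
(.lp [[1, 4], [3, 6], [0, 2, 5]] [(.mj 0 1, 13), (.mj 2 3, 28), (.mj 6 4, 8), (.mj 6 5, 11), (.hz 3 19, 20071), (.hz 3 23, 4225), (.hz 3 39, 8668), (.hz 4 39, 2812), (.hz 4 47, 9635)])
.fin))
(.ref 3))
(.cut 4 [(0, 1), (1, 1), (2, 1), (5, 1), (9, 1), (13, 1)]
(.lp [[3], [1, 4], [0, 2, 5]] [(.mj 2 3, 221), (.mj 3 5, 221), (.hz 4 3, 829129), (.rw 4, 4)]))))
(.lp [[3], [1, 4], [0, 2, 5]] [(.mj 0 1, 1), (.mj 4 3, 1), (.hz 3 3, 221), (.hz 3 7, 277), (.hz 3 19, 68), (.hz 3 39, 338)])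
(.lp [[3], [1, 4], [0, 2, 5]] [(.mj 0 1, 3), (.mj 5 3, 5), (.hz 3 3, 1482), (.hz 3 7, 2507), (.hz 3 19, 513)])
.fin))
(.spn
(.lp [[3], [0, 2], [1, 4]] [(.mj 0 1, 3), (.mj 1 2, 2), (.mj 2 3, 7), (.mj 3 4, 2), (.hz 3 19, 4138)])
(.lp [[3], [0, 2], [1, 4]] [(.mj 0 1, 1), (.mj 4 3, 1), (.hz 3 3, 221), (.hz 3 7, 277), (.hz 3 19, 68)])
.fin
.fin)))

theorem run18 : run P3488 (leaf3 218 625) (cutRow P3488) [s7, s17, s11, s16] t18 s18 = true := by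
  decide +kernel

theorem bad18 : Bad P3488 s18 :=
  run_sound (leaf3_sound P3488 rfl rfl) (cutRow_sound P3488) (
    List.forall_mem_cons.2 ⟨bad7, List.forall_mem_cons.2 ⟨bad17, List.forall_mem_cons.2 ⟨bad11, List.forall_mem_cons.2 ⟨bad16, fun _ h => absurd h List.not_mem_nil⟩⟩⟩⟩) t18 s18 run18

/-- the state above piece 105 of the tree -/
def s105 : St := ⟨[0, 0, 1, 3, 5, 5, 15], [23, 21, 15, 11, 7, 3, 2, 1, 0], [0, 1, 2, 3, 4],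
  [],
  [⟨true, 2, 3, 3, 10⟩, ⟨true, 1, 5, 2, 5⟩, ⟨true, 2, 3, 23, 50⟩, ⟨true, 1, 5, 12, 25⟩, ⟨true, 2, 11, 12, 25⟩, ⟨true, 5, 31, 3, 50⟩, ⟨true, 3, 39, 21, 50⟩, ⟨true, 4, 79, 1, 10⟩, ⟨true, 4, 79, 3, 20⟩, ⟨true, 4, 79, 1, 5⟩],
  [.spn 0 0 651200, .spn 1 1 302400, .spn 3 2 302400, .spn 7 3 140426, .spn 15 4 140426]⟩

/-- piece 105 of the tree -/
noncomputable def t105 : WN.Tree :=
(.ask 31
(.ref 0)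
(.spn
(.lp [[5], [0, 2, 4], [1, 3, 6]] [(.mj 1 2, 20), (.mj 4 5, 4), (.mj 5 6, 6), (.hz 9 79, 2164)])
(.haz 6 47 3 8
(.haz 3 55 5 8
(.haz 4 111 5 8
(.haz 3 39 1 2
(.haz 4 47 13 40
(.ask 79
(.mark 79 [4, 5, 7]
(.ask 95
(.mark 95 [5, 7, 8]
(.spn
(.haz 8 223 3 10
(.lp [[5], [0, 2, 4, 8], [1, 3, 6, 7]] [(.mj 4 6, 34), (.mj 5 7, 7), (.mj 5 8, 22), (.mj 6 5, 34), (.hz 5 223, 4185), (.hz 15 223, 31469)])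
(.lp [[5], [0, 2, 4, 8], [1, 3, 6, 7]] [(.mj 4 6, 6), (.mj 5 7, 3), (.mj 6 5, 5), (.hz 15 95, 3885)]))
(.lp [[5], [0, 2, 4, 8], [1, 3, 6, 7]] [(.mj 4 6, 14), (.mj 7 5, 5), (.mj 7 8, 2), (.hz 3 37, 298), (.hz 13 39, 18202), (.hz 10 47, 15640), (.hz 10 63, 2463), (.hz 5 223, 418), (.hz 5 351, 2102)])
(.ask 351
(.mark 351 [5, 7, 9]
(.spn
(.lp [[5], [1, 3, 6, 7], [0, 2, 4, 8, 9]] [(.mj 8 5, 213), (.rw 7, 1)])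
(.lp [[5], [1, 3, 6, 7], [0, 2, 4, 8, 9]] [(.mj 4 6, 38), (.mj 7 5, 22), (.mj 7 9, 2), (.hz 5 95, 9721), (.hz 5 223, 8435), (.hz 5 351, 3179), (.hz 5 863, 5548)])
(.cut 5 [(0, 1), (1, 1), (2, 1), (3, 1), (5, 1), (7, 1), (11, 1), (21, 1), (15, 1), (23, 1), (31, 1), (79, 1)]
(.cut 7 [(0, 1), (1, 1), (2, 1), (3, 1), (5, 1), (7, 1), (11, 1), (21, 1), (37, 1), (15, 1), (23, 1), (39, 1), (53, 1), (31, 1), (47, 1), (55, 1), (79, 1), (63, 1), (95, 1), (111, 1), (127, 1)]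
(.cut 5 [(0, 1), (1, 1), (2, 1), (3, 1), (5, 1), (7, 1), (11, 1), (21, 1), (15, 1), (23, 1), (31, 1), (79, 1), (95, 1)]
(.lp [[5], [1, 3, 6, 7], [0, 2, 4, 8, 9]] [(.mj 4 6, 1518243), (.mj 9 5, 1024549), (.hz 5 223, 305079815), (.hz 5 479, 85003048), (.rw 8, 1288), (.rw 9, 301), (.rw 10, 1846)]))))
.fin))
(.lp [[5], [0, 2, 4, 8], [1, 3, 6, 7]] [(.mj 4 6, 1), (.mj 8 7, 1), (.rw 6, 1)]))
.fin))
(.lp [[5], [0, 2, 4], [1, 3, 6, 7]] [(.mj 4 6, 2), (.mj 6 5, 1), (.hz 3 37, 17), (.hz 13 39, 1058), (.hz 10 47, 1538)])))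
(.ask 95
(.ask 95
(.mark 95 [5, 7, 8]
(.spn
(.ask 351
(.haz 7 351 11 40
(.haz 8 127 3 10
(.mark 351 [5, 7, 9]
(.lp [[5], [0, 2, 4, 7], [1, 3, 6, 8, 9]] [(.mj 4 6, 4), (.mj 5 7, 13), (.mj 6 5, 17), (.mj 7 8, 7), (.hz 16 127, 20675), (.hz 15 351, 2051), (.hz 15 863, 2829)]))
(.mark 351 [5, 7, 9]
(.lp [[5], [0, 2, 4, 7], [1, 3, 6, 8, 9]] [(.mj 5 7, 14), (.mj 6 5, 19), (.mj 7 8, 1), (.hz 16 95, 5654), (.hz 15 351, 2243), (.hz 15 863, 3094)])))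
(.lp [[5], [0, 2, 4, 7], [1, 3, 6, 8, 9]] [(.mj 6 5, 17), (.mj 7 8, 11), (.hz 15 95, 3105), (.hz 5 351, 8013)]))
(.lp [[5], [0, 2, 4, 7], [1, 3, 6, 8]] [(.mj 4 6, 1), (.mj 5 7, 5), (.mj 6 5, 7), (.mj 7 8, 1)]))
(.ask 223
(.mark 223 [5, 8, 9]
(.spn
(.lp [[5], [1, 3, 6, 8], [0, 2, 4, 7, 9]] [(.mj 7 5, 213), (.rw 7, 1)])
(.maj 5 9
(.cut 5 [(0, 1), (1, 1), (2, 1), (3, 1), (5, 1), (7, 1), (11, 1), (21, 1), (15, 1), (23, 1), (31, 1), (79, 1), (95, 1), (223, 1)]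
(.lp [[5], [1, 3, 6, 8], [0, 2, 4, 7, 9]] [(.mj 4 6, 796), (.mj 7 8, 210), (.mj 8 5, 389), (.hz 5 735, 306936), (.rw 8, 1)]))
(.cut 5 [(0, 1), (1, 1), (2, 1), (3, 1), (5, 1), (7, 1), (11, 1), (21, 1), (15, 1), (23, 1), (31, 1), (79, 1), (95, 1), (223, 1)]
(.lp [[5], [1, 3, 6, 8], [0, 2, 4, 7, 9]] [(.mj 4 6, 102092), (.mj 7 8, 3708), (.mj 8 9, 3708), (.mj 9 5, 40169), (.hz 5 479, 10814827), (.rw 8, 121)])))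
(.ask 735
(.mark 735 [5, 8, 10]
(.spn
(.lp [[5], [1, 3, 6, 8], [0, 2, 4, 7, 9, 10]] [(.mj 9 5, 129), (.rw 8, 1)])
(.lp [[5], [1, 3, 6, 8], [0, 2, 4, 7, 9, 10]] [(.mj 9 8, 1070), (.rw 8, 2), (.hz 5 351, 996142), (.hz 5 479, 1458183)])
(.cut 5 [(0, 1), (1, 1), (2, 1), (3, 1), (5, 1), (7, 1), (11, 1), (21, 1), (15, 1), (23, 1), (31, 1), (79, 1), (95, 1), (223, 1)]
(.lp [[5], [1, 3, 6, 8], [0, 2, 4, 7, 9, 10]] [(.mj 4 6, 8395), (.mj 10 5, 3319), (.mj 10 8, 161), (.hz 5 223, 468472), (.rw 9, 10)]))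
.fin))
(.lp [[5], [1, 3, 6, 8], [0, 2, 4, 7, 9]] [(.mj 9 8, 1), (.rw 7, 1)]))
.fin))
(.lp [[5], [0, 2, 4, 7], [1, 3, 6, 8]] [(.mj 7 8, 820), (.rw 6, 1)]))
(.con 8 7)
.fin))
(.spn
(.lp [[5], [1, 3, 6], [0, 2, 4, 7]] [(.mj 5 7, 2), (.mj 6 5, 3)])
(.ask 223
(.ask 223
(.mark 223 [5, 8, 9]
(.spn
(.lp [[5], [1, 3, 6, 9], [0, 2, 4, 7, 8]] [(.rw 6, 1), (.rw 7, 3)])
(.ask 479
(.mark 479 [5, 9, 10]
(.spn
(.lp [[5], [1, 3, 6, 9], [0, 2, 4, 7, 8, 10]] [(.mj 8 5, 129), (.rw 8, 1)])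
(.cut 5 [(0, 1), (1, 1), (2, 1), (3, 1), (5, 1), (7, 1), (11, 1), (21, 1), (15, 1), (23, 1), (31, 1), (79, 1), (95, 1), (223, 1), (479, 1)]
(.lp [[5], [1, 3, 6, 9], [0, 2, 4, 7, 8, 10]] [(.mj 4 6, 3073), (.mj 8 9, 200), (.mj 9 5, 1197), (.mj 9 10, 21), (.hz 5 1503, 231113), (.rw 9, 4)]))
(.cut 5 [(0, 1), (1, 1), (2, 1), (3, 1), (5, 1), (7, 1), (11, 1), (21, 1), (15, 1), (23, 1), (31, 1), (79, 1)]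
(.cut 5 [(0, 1), (1, 1), (2, 1), (3, 1), (5, 1), (7, 1), (11, 1), (21, 1), (15, 1), (23, 1), (31, 1), (79, 1), (95, 1), (223, 1)]
(.lp [[5], [1, 3, 6, 9], [0, 2, 4, 7, 8, 10]] [(.mj 4 6, 1475), (.mj 10 5, 527), (.rw 9, 1), (.rw 10, 1)])))
.fin))
(.lp [[5], [1, 3, 6, 9], [0, 2, 4, 7, 8]] [(.mj 8 9, 813), (.rw 7, 1)]))
(.con 9 8)
.fin))
(.spn
(.lp [[5], [1, 3, 6], [0, 2, 4, 7, 8]] [(.rw 7, 1)])
(.ask 479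
(.ask 479
(.mark 479 [5, 9, 10]
(.spn
(.lp [[5], [1, 3, 6, 10], [0, 2, 4, 7, 8, 9]] [(.rw 7, 1), (.rw 8, 3)])
(.cut 5 [(0, 1), (1, 1), (2, 1), (3, 1), (5, 1), (7, 1), (11, 1), (21, 1), (15, 1), (23, 1), (31, 1), (79, 1)]
(.cut 5 [(0, 1), (1, 1), (2, 1), (3, 1), (5, 1), (7, 1), (11, 1), (21, 1), (15, 1), (23, 1), (31, 1), (79, 1), (95, 1), (223, 1)]
(.lp [[5], [1, 3, 6, 10], [0, 2, 4, 7, 8, 9]] [(.mj 4 6, 1475), (.mj 9 5, 527), (.rw 9, 1), (.rw 10, 1)])))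
(.con 10 9)
.fin))
(.spn
(.lp [[5], [1, 3, 6], [0, 2, 4, 7, 8, 9]] [(.mj 8 5, 1), (.rw 8, 1)])
(.cut 5 [(0, 1), (1, 1), (2, 1), (3, 1), (5, 1), (7, 1), (11, 1), (21, 1), (15, 1), (23, 1), (31, 1), (79, 1), (95, 1), (223, 1), (479, 1)]
(.lp [[5], [1, 3, 6], [0, 2, 4, 7, 8, 9]] [(.mj 4 6, 1475), (.mj 9 5, 527), (.rw 9, 2)]))
.fin
.fin))
(.lp [[5], [1, 3, 6], [0, 2, 4, 7, 8]] [(.mj 8 5, 1)]))
.fin
.fin))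
(.lp [[5], [1, 3, 6], [0, 2, 4, 7]] [(.mj 7 5, 1)]))
.fin
.fin))
(.lp [[5], [0, 2, 4], [1, 3, 6]] [(.mj 4 5, 1), (.mj 6 5, 1)])))
(.lp [[5], [0, 2, 4], [1, 3, 6]] [(.mj 1 2, 1), (.mj 4 6, 5), (.mj 6 5, 2), (.hz 14 15, 453), (.hz 13 39, 1140), (.hz 10 47, 3479), (.hz 11 55, 228), (.hz 12 111, 872)]))
(.lp [[5], [0, 2, 4], [1, 3, 6]] [(.mj 6 5, 1), (.hz 13 7, 3614), (.hz 6 39, 118), (.hz 10 47, 286), (.hz 11 55, 332)]))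
(.cut 5 [(0, 1), (1, 1), (2, 1), (3, 1), (5, 1), (7, 1), (11, 1), (21, 1), (15, 1), (23, 1), (31, 1)]
(.lp [[5], [0, 2, 4], [1, 3, 6]] [(.mj 4 6, 1874), (.mj 6 5, 882), (.hz 12 79, 620215), (.hz 12 111, 1116386), (.rw 6, 1)])))
(.lp [[5], [0, 2, 4], [1, 3, 6]] [(.mj 1 2, 1), (.mj 3 4, 2), (.mj 4 6, 3), (.mj 6 5, 2), (.hz 11 23, 2900), (.hz 6 39, 57), (.hz 10 47, 1759), (.hz 6 55, 195)]))
(.cut 5 [(0, 1), (1, 1), (2, 1), (3, 1), (5, 1), (7, 1), (11, 1), (15, 1)]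
(.lp [[5], [0, 2, 4], [1, 3, 6]] [(.mj 6 5, 2219), (.hz 10 15, 2851003), (.hz 5 95, 135868), (.rw 6, 1)])))
.fin
.fin))

theorem run105 : run P3488 (leaf3 218 625) (cutRow P3488) [s104] t105 s105 = true := by
  decide +kernel

theorem bad105 : Bad P3488 s105 :=
  run_sound (leaf3_sound P3488 rfl rfl) (cutRow_sound P3488) (
    List.forall_mem_cons.2 ⟨bad104, fun _ h => absurd h List.not_mem_nil⟩) t105 s105 run105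

end Pool.Agent.WN.Data
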