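import Pool.Agent.WN.CutRow
import Pool.Agent.WN.LeafRow
import Pool.Agent.Helper99.WN.ParDef
import Pool.Agent.WN.Data.D19
import Pool.Agent.WN.Data.D25
import Pool.Agent.WN.Data.D26
import Pool.Agent.WN.Data.D27
import Pool.Agent.WN.Data.D30
import Pool.Agent.WN.Data.D31
import Pool.Agent.WN.Data.D32
import Pool.Agent.WN.Data.D33
import Pool.Agent.WN.Data.D37
import Pool.Agent.WN.Data.D38
import Pool.Agent.WN.Data.D39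
import Pool.Agent.WN.Data.D40
import Pool.Agent.WN.Data.D41
import Pool.Agent.WN.Data.D42

/-!
# The search tree, part 44
-/

set_option autoImplicit false

namespace Pool.Agent.WN.Data

open Pool.Agent.W3 Pool.Agent.WN Pool.Agent.Helper99.WN

/-- the state above piece 250 of the tree -/
def s250 : St := ⟨[0, 0, 1, 3, 5, 15, 31, 31], [47, 31, 23, 21, 15, 11, 7, 5, 3, 2, 1, 0], [0, 1, 2, 3, 4, 5],
  [(4, 5)],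
  [⟨true, 2, 3, 3, 10⟩, ⟨true, 1, 5, 2, 5⟩, ⟨true, 2, 3, 23, 50⟩, ⟨true, 1, 5, 12, 25⟩, ⟨true, 1, 21, 27, 50⟩, ⟨true, 4, 15, 9, 40⟩, ⟨true, 3, 23, 11, 20⟩, ⟨true, 4, 47, 7, 20⟩, ⟨true, 4, 47, 17, 40⟩, ⟨true, 4, 47, 9, 20⟩, ⟨true, 4, 47, 19, 40⟩, ⟨true, 5, 31, 3, 10⟩, ⟨true, 4, 47, 3, 5⟩, ⟨true, 4, 47, 5, 8⟩, ⟨true, 6, 159, 1, 10⟩],
  [.spn 0 0 651200, .spn 1 1 302400, .spn 3 2 302400, .spn 7 3 302400, .spn 15 4 302400, .spn 31 5 140426]⟩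

/-- piece 250 of the tree -/
noncomputable def t250 : WN.Tree :=
(.ask 63
(.mark 63 [6, 7, 8]
(.spn
(.haz 6 319 1 8
(.haz 6 319 1 5
(.ask 95
(.mark 127 [7, 8, 9]
(.spn
(.haz 8 127 3 10
(.lp [[7], [1, 3, 5, 8], [0, 2, 4, 6, 9]] [(.mj 3 4, 19), (.mj 6 7, 2), (.mj 7 8, 3), (.hz 17 127, 2470), (.hz 17 255, 1809), (.hz 17 639, 5999)])
(.haz 8 191 3 20
(.lp [[7], [1, 3, 5, 8], [0, 2, 4, 6, 9]] [(.mj 3 4, 75714), (.mj 6 7, 1709), (.rw 7, 2), (.hz 17 63, 6511237), (.hz 17 127, 3830139), (.hz 18 191, 747716)])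
(.lp [[7], [1, 3, 5, 8], [0, 2, 4, 6, 9]] [(.mj 3 4, 29), (.mj 6 7, 1), (.hz 18 63, 1139), (.hz 17 127, 1340)])))
(.ask 319
(.ref 0)
(.haz 8 191 1 4
(.haz 7 383 1 20
(.haz 8 767 2 5
(.ask 383
(.mark 383 [7, 9, 10]
(.spn
(.haz 9 1407 3 20
(.haz 9 255 3 20
(.ask 1407
(.haz 7 639 1 10
(.haz 9 383 1 5
(.maj 9 10
(.haz 10 511 17 40
(.mark 1407 [7, 9, 11]
(.lp [[7], [0, 2, 4, 6, 9], [1, 3, 5, 8, 10, 11]] [(.mj 6 8, 10), (.mj 7 9, 27), (.mj 8 7, 28), (.mj 9 10, 13), (.hz 11 607, 1166), (.hz 23 383, 19289), (.hz 22 639, 20595), (.hz 23 511, 100503), (.hz 24 511, 25177), (.hz 23 1407, 99994), (.hz 23 3455, 124993)]))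
(.mark 1407 [7, 9, 11]
(.lp [[7], [0, 2, 4, 6, 9], [1, 3, 5, 8, 10, 11]] [(.mj 6 8, 1), (.mj 7 9, 9), (.mj 8 7, 11), (.mj 9 10, 1), (.hz 24 383, 3515), (.hz 23 511, 93415), (.hz 23 1407, 31648), (.hz 23 3455, 39560)])))
(.mark 1407 [7, 9, 11]
(.lp [[7], [0, 2, 4, 6, 9], [1, 3, 5, 8, 10, 11]] [(.mj 6 8, 109), (.mj 7 9, 126), (.mj 7 10, 140), (.mj 8 7, 289), (.mj 10 9, 163), (.hz 23 383, 239220), (.hz 23 511, 6071723), (.hz 23 1407, 1672410), (.hz 23 3455, 584315)])))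
(.haz 10 895 1 2
(.lp [[7], [0, 2, 4, 6, 9], [1, 3, 5, 8, 10, 11]] [(.mj 7 10, 116), (.mj 8 7, 150), (.hz 23 95, 130897), (.hz 23 127, 367240), (.hz 21 255, 351275), (.hz 23 383, 36302), (.hz 24 895, 2504808)])
(.lp [[7], [0, 2, 4, 6, 9], [1, 3, 5, 8, 10, 11]] [(.mj 8 7, 4), (.hz 23 95, 2188), (.hz 23 127, 6137), (.hz 21 255, 12712), (.hz 23 383, 29531), (.hz 24 383, 73829)])))
(.mark 1407 [7, 9, 11]
(.lp [[7], [0, 2, 4, 6, 9], [1, 3, 5, 8, 10, 11]] [(.mj 7 9, 3), (.mj 7 10, 2), (.hz 22 31, 1387), (.hz 22 63, 11951), (.hz 22 95, 1541), (.hz 20 1407, 7624), (.hz 20 3455, 3875)])))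
(.lp [[7], [0, 2, 4, 6, 9], [1, 3, 5, 8, 10]] [(.mj 7 9, 2), (.mj 8 7, 3), (.hz 21 255, 7881), (.hz 21 511, 1965)]))
(.haz 9 511 1 8
(.lp [[7], [0, 2, 4, 6, 9], [1, 3, 5, 8, 10]] [(.mj 7 10, 23), (.mj 8 7, 36), (.hz 21 95, 6883), (.hz 21 127, 58671), (.hz 22 511, 265096), (.hz 20 1407, 49380)])
(.lp [[7], [0, 2, 4, 6, 9], [1, 3, 5, 8, 10]] [(.mj 7 10, 13), (.mj 8 7, 22), (.hz 22 95, 10051), (.hz 22 127, 27122), (.hz 22 383, 46632), (.hz 20 1407, 27182)])))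
(.haz 10 895 13 40
(.haz 9 511 1 10
(.ask 607
(.mark 895 [7, 10, 11]
(.lp [[7], [1, 3, 5, 8, 10], [0, 2, 4, 6, 9, 11]] [(.mj 7 10, 2), (.mj 8 7, 3), (.hz 20 95, 1727), (.hz 22 511, 8464), (.hz 21 895, 1062), (.hz 21 2943, 3769)]))
(.lp [[7], [0, 2, 4, 6, 9], [1, 3, 5, 8, 10]] [(.mj 7 10, 58), (.mj 8 7, 77), (.hz 20 127, 55465), (.hz 20 383, 26305), (.hz 22 511, 305173), (.hz 21 895, 62266)]))
(.lp [[7], [0, 2, 4, 6, 9], [1, 3, 5, 8, 10]] [(.mj 7 10, 2), (.mj 8 7, 3), (.hz 22 95, 1202), (.hz 22 127, 3206), (.hz 22 383, 1250), (.hz 18 895, 7254), (.hz 21 895, 2338)]))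
(.lp [[7], [0, 2, 4, 6, 9], [1, 3, 5, 8, 10]] [(.mj 8 7, 1), (.hz 20 95, 145), (.hz 20 127, 396), (.hz 20 383, 1119), (.hz 21 383, 559)])))
(.ref 1)
(.ask 1407
(.mark 1407 [7, 9, 11]
(.spn
(.lp [[7], [0, 2, 4, 6, 9], [1, 3, 5, 8, 10, 11]] [(.mj 10 7, 260), (.rw 9, 1)])
(.cut 7 [(0, 1), (1, 1), (2, 1), (3, 1), (5, 1), (7, 1), (11, 1), (21, 1), (15, 1), (23, 1), (31, 1), (47, 1), (63, 1), (95, 1), (127, 1), (319, 1), (383, 1), (1407, 1)]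
(.lp [[7], [0, 2, 4, 6, 9], [1, 3, 5, 8, 10, 11]] [(.mj 9 7, 1450), (.mj 9 11, 1450), (.mj 10 9, 3152), (.rw 9, 1), (.rw 10, 5)]))
(.ask 3455
(.mark 3455 [7, 9, 12]
(.spn
(.lp [[7], [0, 2, 4, 6, 9], [1, 3, 5, 8, 10, 11, 12]] [(.mj 11 7, 145), (.rw 10, 1)])
(.lp [[7], [0, 2, 4, 6, 9], [1, 3, 5, 8, 10, 11, 12]] [(.mj 11 9, 566), (.rw 10, 1)])
(.maj 7 9
(.cut 7 [(0, 1), (1, 1), (2, 1), (3, 1), (5, 1), (7, 1), (11, 1), (21, 1), (15, 1), (23, 1), (31, 1), (47, 1), (63, 1), (95, 1)]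
(.cut 7 [(0, 1), (1, 1), (2, 1), (3, 1), (5, 1), (7, 1), (11, 1), (21, 1), (15, 1), (23, 1), (31, 1), (47, 1), (63, 1), (95, 1), (127, 1), (319, 1)]
(.cut 7 [(0, 1), (1, 1), (2, 1), (3, 1), (5, 1), (7, 1), (11, 1), (21, 1), (15, 1), (23, 1), (31, 1), (47, 1), (63, 1), (95, 1), (127, 1), (319, 1), (383, 1)]
(.cut 7 [(0, 1), (1, 1), (2, 1), (3, 1), (5, 1), (7, 1), (11, 1), (21, 1), (15, 1), (23, 1), (31, 1), (47, 1), (63, 1), (95, 1), (127, 1), (319, 1), (383, 1), (1407, 1)]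
(.lp [[7], [0, 2, 4, 6, 9], [1, 3, 5, 8, 10, 11, 12]] [(.mj 12 7, 14491), (.rw 11, 24), (.rw 12, 10), (.rw 13, 9), (.rw 14, 9)])))))
(.cut 7 [(0, 1), (1, 1), (2, 1), (3, 1), (5, 1), (7, 1), (11, 1), (21, 1), (15, 1), (23, 1), (31, 1), (47, 1), (63, 1), (95, 1)]
(.cut 7 [(0, 1), (1, 1), (2, 1), (3, 1), (5, 1), (7, 1), (11, 1), (21, 1), (15, 1), (23, 1), (31, 1), (47, 1), (63, 1), (95, 1), (127, 1), (319, 1), (383, 1)]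
(.cut 7 [(0, 1), (1, 1), (2, 1), (3, 1), (5, 1), (7, 1), (11, 1), (21, 1), (15, 1), (23, 1), (31, 1), (47, 1), (63, 1), (95, 1), (127, 1), (319, 1), (607, 1), (383, 1), (639, 1), (1407, 1)]
(.cut 9 [(0, 1), (1, 1), (2, 1), (3, 1), (5, 1), (7, 1), (11, 1), (21, 1), (15, 1), (23, 1), (31, 1), (47, 1), (63, 1), (95, 1), (127, 1), (319, 1), (383, 1), (1407, 1)]
(.lp [[7], [0, 2, 4, 6, 9], [1, 3, 5, 8, 10, 11, 12]] [(.mj 0 1, 172697), (.mj 12 9, 2043), (.rw 10, 2), (.hz 11 607, 2003522), (.hz 11 735, 9841405), (.hz 19 767, 30418295), (.hz 18 1919, 23828048), (.hz 18 3967, 13535630), (.rw 11, 3), (.rw 12, 5), (.rw 13, 2), (.rw 14, 12)]))))))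
.fin))
(.lp [[7], [0, 2, 4, 6, 9], [1, 3, 5, 8, 10, 11]] [(.mj 11 9, 1), (.rw 9, 1)]))
.fin))
(.lp [[7], [0, 2, 4, 6, 9], [1, 3, 5, 8, 10]] [(.mj 10 9, 1), (.rw 8, 1)]))
.fin))
(.spn
(.lp [[7], [1, 3, 5, 8], [0, 2, 4, 6, 9]] [(.mj 6 7, 1), (.mj 7 9, 2), (.mj 8 7, 2)])
(.lp [[7], [1, 3, 5, 8], [0, 2, 4, 6, 9]] [(.mj 8 9, 54), (.mj 9 7, 29), (.hz 18 895, 169457)])
.fin
.fin))
(.lp [[7], [1, 3, 5, 8], [0, 2, 4, 6, 9]] [(.mj 3 4, 101), (.mj 8 7, 1), (.hz 19 127, 22193), (.hz 19 191, 3936), (.hz 19 255, 39502), (.hz 16 447, 39502)]))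
(.cut 7 [(0, 1), (1, 1), (2, 1), (3, 1), (5, 1), (7, 1), (11, 1), (21, 1), (15, 1), (23, 1), (31, 1), (47, 1), (63, 1), (95, 1), (127, 1), (319, 1)]
(.lp [[7], [1, 3, 5, 8], [0, 2, 4, 6, 9]] [(.hz 18 31, 446554), (.hz 18 63, 248086), (.rw 8, 1)])))
(.cut 7 [(0, 1), (1, 1), (2, 1), (3, 1), (5, 1), (7, 1), (11, 1), (21, 1), (15, 1), (23, 1), (31, 1), (47, 1), (63, 1), (95, 1), (127, 1)]
(.lp [[7], [1, 3, 5, 8], [0, 2, 4, 6, 9]] [(.mj 3 4, 30470), (.mj 8 7, 938), (.hz 17 63, 11313201), (.hz 14 159, 1594449), (.rw 8, 1)]))))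
(.ask 319
(.mark 383 [7, 9, 10]
(.cut 7 [(0, 1), (1, 1), (2, 1), (3, 1), (5, 1), (7, 1), (11, 1), (21, 1), (15, 1), (23, 1), (31, 1), (47, 1), (63, 1), (95, 1), (127, 1)]
(.cut 7 [(0, 1), (1, 1), (2, 1), (3, 1), (5, 1), (7, 1), (11, 1), (21, 1), (15, 1), (23, 1), (31, 1), (47, 1), (63, 1), (95, 1), (127, 1), (319, 1), (383, 1)]
(.cut 8 [(0, 1), (1, 1), (2, 1), (3, 1), (5, 1), (7, 1), (11, 1), (21, 1), (15, 1), (23, 1), (31, 1), (47, 1), (63, 1), (95, 1), (159, 1), (127, 1), (191, 2), (223, 1), (607, 1), (255, 1), (735, 1)]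
(.lp [[7], [0, 2, 4, 6, 9], [1, 3, 5, 8, 10]] [(.mj 3 4, 7251667), (.mj 9 7, 197056), (.mj 9 8, 549638), (.hz 16 319, 67804270), (.hz 16 1343, 788224634), (.rw 8, 429), (.rw 9, 152), (.rw 10, 123)])))))
(.lp [[7], [1, 3, 5, 8], [0, 2, 4, 6, 9]] [(.mj 3 4, 104), (.mj 9 7, 2), (.mj 9 8, 5), (.hz 14 159, 10519)]))
.fin))
(.ref 2))
(.lp [[7], [0, 2, 4, 6], [1, 3, 5, 8]] [(.mj 0 1, 45), (.mj 6 7, 8), (.mj 6 8, 8), (.hz 16 31, 9277), (.hz 16 63, 14432)]))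
(.lp [[7], [0, 2, 4, 6], [1, 3, 5, 8]] [(.mj 6 7, 1), (.mj 6 8, 1), (.hz 15 31, 580), (.hz 15 63, 985)]))
(.con 7 6)
(.haz 6 63 7 40
(.ask 159
(.mark 159 [5, 6, 9]
(.cut 7 [(0, 1), (1, 1), (2, 1), (3, 1), (5, 1), (7, 1), (11, 1), (21, 1), (15, 1), (23, 1), (31, 1), (47, 1), (63, 1), (95, 2), (127, 2)]
(.lp [[6], [1, 3, 5, 8], [0, 2, 4, 7, 9]] [(.mj 0 1, 127827), (.mj 8 6, 3689), (.mj 8 7, 1413), (.hz 15 63, 806991), (.hz 15 191, 2011585), (.hz 11 671, 3046906), (.hz 14 671, 3664344), (.hz 15 703, 2404628), (.rw 7, 1)])))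
(.lp [[7], [0, 2, 4, 6], [1, 3, 5, 8]] [(.mj 0 1, 214609), (.mj 8 6, 4570), (.rw 6, 1), (.hz 15 63, 1354852), (.hz 15 191, 1642245)]))
(.lp [[7], [0, 2, 4, 6], [1, 3, 5, 8]] [(.mj 0 1, 323), (.mj 8 7, 5), (.hz 15 31, 1154), (.hz 11 159, 5086), (.hz 14 159, 2808), (.hz 14 191, 7177)]))
.fin))
(.lp [[7], [1, 3, 5], [0, 2, 4, 6]] [(.mj 3 4, 850), (.mj 5 6, 21), (.hz 14 159, 118670)]))

theorem run250 : run P3488 (leaf3 218 625) (cutRow P3488) [s245, s244, s249] t250 s250 = true := by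
  decide +kernel

theorem bad250 : Bad P3488 s250 :=
  run_sound (leaf3_sound P3488 rfl rfl) (cutRow_sound P3488) (
    List.forall_mem_cons.2 ⟨bad245, List.forall_mem_cons.2 ⟨bad244, List.forall_mem_cons.2 ⟨bad249, fun _ h => absurd h List.not_mem_nil⟩⟩⟩) t250 s250 run250

/-- the state above piece 230 of the tree -/
def s230 : St := ⟨[0, 0, 1, 3, 5, 15, 23, 47, 47], [31, 23, 21, 15, 11, 7, 5, 3, 2, 1, 0], [0, 1, 2, 3, 4, 5],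
  [(5, 6), (4, 5)],
  [⟨true, 2, 3, 3, 10⟩, ⟨true, 1, 5, 2, 5⟩, ⟨true, 2, 3, 23, 50⟩, ⟨true, 1, 5, 12, 25⟩, ⟨true, 1, 21, 27, 50⟩, ⟨true, 4, 15, 9, 40⟩, ⟨true, 3, 23, 11, 20⟩, ⟨true, 4, 47, 7, 20⟩, ⟨true, 4, 47, 17, 40⟩, ⟨true, 4, 47, 9, 20⟩, ⟨true, 4, 47, 19, 40⟩, ⟨true, 5, 95, 1, 5⟩, ⟨true, 5, 95, 3, 10⟩, ⟨true, 5, 31, 3, 10⟩, ⟨true, 5, 95, 11, 25⟩, ⟨true, 6, 63, 3, 20⟩],
  [.spn 0 0 651200, .spn 1 1 302400, .spn 3 2 302400, .spn 7 3 302400, .spn 15 4 302400, .spn 31 5 302400]⟩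

/-- piece 230 of the tree -/
noncomputable def t230 : WN.Tree :=
(.mark 63 [6, 7, 8]
(.spn
(.haz 8 255 1 50
(.ask 87
(.ref 0)
(.haz 6 319 13 40
(.ask 95
(.ref 1)
(.haz 6 191 13 40
(.haz 7 383 3 40
(.haz 8 191 1 20
(.haz 6 319 17 40
(.haz 6 319 19 40
(.ask 127
(.mark 127 [7, 8, 9]
(.spn
(.ask 175
(.mark 255 [8, 9, 10]
(.spn
(.haz 9 255 3 10
(.lp [[8], [0, 2, 4, 6, 9], [1, 3, 5, 7, 10]] [(.mj 0 1, 210), (.mj 7 8, 5), (.mj 8 9, 8), (.hz 23 255, 12518), (.hz 23 511, 8997), (.hz 23 1279, 36661)])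
(.lp [[8], [0, 2, 4, 6, 9], [1, 3, 5, 7, 10]] [(.mj 0 1, 104016), (.mj 7 8, 885), (.rw 8, 1), (.hz 23 127, 4607880), (.hz 23 255, 3633857)]))
(.haz 9 1279 9 25
(.haz 8 127 3 50
(.ask 639
(.ref 2)
(.ask 767
(.mark 767 [8, 10, 11]
(.spn
(.haz 7 895 29 50
(.haz 11 1791 17 50
(.haz 8 1279 1 10
(.haz 11 1791 23 50
(.haz 8 1279 3 25
(.lp [[8], [1, 3, 5, 7, 10], [0, 2, 4, 6, 9, 11]] [(.mj 0 1, 4376), (.mj 8 10, 10), (.mj 8 11, 152), (.mj 9 8, 194), (.hz 29 1279, 1159904), (.hz 25 895, 46938), (.hz 28 1791, 279751)])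
(.lp [[8], [1, 3, 5, 7, 10], [0, 2, 4, 6, 9, 11]] [(.mj 0 1, 146), (.mj 6 7, 2), (.mj 8 11, 5), (.hz 29 127, 11803), (.hz 27 1279, 37277), (.hz 28 1791, 8872)]))
(.lp [[8], [1, 3, 5, 7, 10], [0, 2, 4, 6, 9, 11]] [(.mj 0 1, 359), (.mj 8 10, 11), (.mj 9 8, 22), (.hz 28 767, 23494), (.hz 27 1279, 400452), (.hz 26 1791, 10024)]))
(.lp [[8], [1, 3, 5, 7, 10], [0, 2, 4, 6, 9, 11]] [(.mj 0 1, 68), (.mj 6 7, 4), (.mj 8 10, 1), (.mj 8 11, 4), (.hz 27 63, 2853), (.hz 27 127, 23692), (.hz 26 1791, 8133)]))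
(.lp [[8], [1, 3, 5, 7, 10], [0, 2, 4, 6, 9, 11]] [(.mj 0 1, 70), (.mj 8 10, 5), (.mj 9 8, 8), (.hz 26 767, 7000), (.hz 24 1279, 24279)]))
(.lp [[8], [1, 3, 5, 7, 10], [0, 2, 4, 6, 9, 11]] [(.mj 0 1, 81349), (.mj 7 9, 1969), (.mj 9 8, 1106), (.rw 9, 1), (.hz 25 639, 1768392), (.hz 24 1279, 5079633)]))
(.maj 8 11
(.cut 8 [(0, 1), (1, 1), (2, 1), (3, 1), (5, 1), (7, 1), (11, 1), (21, 1), (15, 1), (23, 1), (31, 1), (47, 1), (87, 1), (63, 1), (95, 1), (175, 1), (127, 1), (191, 1), (255, 1), (639, 1), (767, 1)]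
(.lp [[8], [1, 3, 5, 7, 10], [0, 2, 4, 6, 9, 11]] [(.mj 6 7, 3961), (.mj 10 8, 1718), (.mj 10 11, 246), (.hz 24 2815, 6704055), (.rw 10, 4)]))
(.cut 8 [(0, 1), (1, 1), (2, 1), (3, 1), (5, 1), (7, 1), (11, 1), (21, 1), (15, 1), (23, 1), (31, 1), (47, 1), (87, 1), (63, 1), (95, 1), (175, 1), (127, 1), (191, 1), (255, 1), (639, 1)]
(.cut 8 [(0, 1), (1, 1), (2, 1), (3, 1), (5, 1), (7, 1), (11, 1), (21, 1), (15, 1), (23, 1), (31, 1), (47, 1), (87, 1), (63, 1), (95, 1), (175, 1), (127, 1), (191, 1), (255, 1), (639, 1), (767, 1)]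
(.lp [[8], [1, 3, 5, 7, 10], [0, 2, 4, 6, 9, 11]] [(.mj 6 7, 18075), (.mj 10 8, 3730), (.mj 10 11, 3132), (.mj 11 8, 4107), (.rw 10, 13), (.rw 11, 10)]))))
(.ask 2815
(.mark 2815 [8, 10, 12]
(.spn
(.lp [[8], [1, 3, 5, 7, 10], [0, 2, 4, 6, 9, 11, 12]] [(.mj 11 8, 226), (.rw 10, 1)])
(.lp [[8], [1, 3, 5, 7, 10], [0, 2, 4, 6, 9, 11, 12]] [(.mj 11 10, 2561), (.rw 10, 4), (.hz 24 1279, 10112621), (.hz 24 1791, 15252605)])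
(.ask 6911
(.mark 6911 [8, 10, 13]
(.spn
(.lp [[8], [1, 3, 5, 7, 10], [0, 2, 4, 6, 9, 11, 12, 13]] [(.mj 12 8, 133), (.rw 11, 1)])
(.lp [[8], [1, 3, 5, 7, 10], [0, 2, 4, 6, 9, 11, 12, 13]] [(.mj 12 10, 454), (.rw 11, 1)])
(.cut 8 [(0, 1), (1, 1), (2, 1), (3, 1), (5, 1), (7, 1), (11, 1), (21, 1), (15, 1), (23, 1), (31, 1), (47, 1), (87, 1), (63, 1), (95, 1), (175, 1), (127, 1), (191, 1), (255, 1), (639, 1), (767, 1), (2815, 1), (6911, 1)]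
(.cut 10 [(0, 1), (1, 1), (2, 1), (3, 1), (5, 1), (7, 1), (11, 1), (21, 1), (15, 1), (23, 1), (31, 1), (47, 1), (87, 1), (63, 1), (95, 1), (175, 1), (303, 1), (127, 1), (191, 1), (319, 1), (431, 1), (255, 1), (383, 1), (447, 1), (639, 1), (511, 1), (767, 1), (895, 1), (1023, 1)]
(.cut 8 [(0, 1), (1, 1), (2, 1), (3, 1), (5, 1), (7, 1), (11, 1), (21, 1), (15, 1), (23, 1), (31, 1), (47, 1), (87, 1), (63, 1), (95, 1), (175, 1), (127, 1), (191, 1), (1199, 1), (255, 1), (639, 1), (1215, 2), (767, 1), (1279, 1), (1791, 1)]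
(.cut 10 [(0, 1), (1, 1), (2, 1), (3, 1), (5, 1), (7, 1), (11, 1), (21, 1), (15, 1), (23, 1), (31, 1), (47, 1), (87, 1), (63, 1), (95, 1), (175, 1), (303, 1), (127, 1), (191, 1), (319, 1), (431, 1), (255, 1), (383, 1), (447, 1), (639, 1), (511, 1), (767, 1), (895, 1), (1023, 1), (2815, 1), (3071, 1)]
(.lp [[8], [1, 3, 5, 7, 10], [0, 2, 4, 6, 9, 11, 12, 13]] [(.mj 3 4, 21081), (.mj 13 8, 58550), (.mj 13 10, 10008), (.hz 24 127, 4485218), (.hz 10 1199, 965025), (.hz 24 639, 3650204), (.hz 10 1455, 13650821), (.hz 24 767, 15668823), (.hz 22 1471, 52126117), (.hz 23 1535, 162278139), (.hz 24 2815, 33831289), (.hz 24 3839, 145017599), (.hz 24 7935, 83532412), (.rw 12, 161), (.rw 13, 4), (.rw 14, 2), (.rw 15, 25)])))))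
.fin))
(.lp [[8], [1, 3, 5, 7, 10], [0, 2, 4, 6, 9, 11, 12]] [(.mj 12 10, 1), (.rw 10, 1)]))
.fin))
(.lp [[8], [1, 3, 5, 7, 10], [0, 2, 4, 6, 9, 11]] [(.mj 11 10, 1), (.rw 9, 1)]))
.fin))
(.lp [[8], [0, 2, 4, 6, 9], [1, 3, 5, 7, 10]] [(.mj 0 1, 1042), (.mj 7 8, 5), (.mj 7 9, 6), (.hz 24 255, 5687), (.hz 24 1279, 46827)])))
(.cut 8 [(0, 1), (1, 1), (2, 1), (3, 1), (5, 1), (7, 1), (11, 1), (21, 1), (15, 1), (23, 1), (31, 1), (47, 1), (87, 1), (63, 1), (95, 1), (175, 1), (127, 1), (191, 1), (255, 1)]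
(.lp [[8], [0, 2, 4, 6, 9], [1, 3, 5, 7, 10]] [(.hz 24 47, 206073), (.hz 24 63, 370932), (.hz 24 127, 535790), (.rw 9, 2)])))
(.lp [[8], [0, 2, 4, 6, 9], [1, 3, 5, 7, 10]] [(.mj 0 1, 31112), (.mj 9 10, 220), (.rw 8, 1), (.hz 23 127, 357514), (.hz 23 255, 3191144), (.hz 20 1215, 3754244), (.hz 20 1279, 964173)]))
(.cut 8 [(0, 1), (1, 1), (2, 1), (3, 1), (5, 1), (7, 1), (11, 1), (21, 1), (15, 1), (23, 1), (31, 1), (47, 1), (87, 1), (63, 1), (95, 1), (175, 1), (127, 1), (191, 1), (255, 1)]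
(.lp [[8], [0, 2, 4, 6, 9], [1, 3, 5, 7, 10]] [(.mj 0 1, 123828), (.mj 10 8, 1154), (.mj 10 9, 2948), (.hz 19 895, 6541056), (.rw 9, 4)]))
.fin))
(.ref 3))
(.con 8 7)
(.ask 639
(.mark 639 [7, 8, 10]
(.spn
(.ask 175
(.mark 175 [4, 8, 11]
(.lp [[8], [1, 3, 5, 7, 11], [0, 2, 4, 6, 9, 10]] [(.mj 3 4, 33839), (.mj 9 7, 1695), (.rw 7, 4), (.rw 8, 5), (.hz 10 303, 1445384), (.hz 22 319, 2637453), (.hz 10 431, 887835), (.hz 10 2223, 1166610), (.hz 20 255, 7978130), (.hz 22 447, 790366), (.hz 18 2239, 3561187)]))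
(.lp [[8], [1, 3, 5, 7], [0, 2, 4, 6, 9, 10]] [(.mj 3 4, 46593), (.mj 9 7, 2291), (.rw 7, 5), (.rw 8, 7), (.hz 10 303, 1990156), (.hz 22 319, 3631523), (.hz 10 431, 1236537), (.hz 22 447, 1171361)]))
(.con 8 7)
(.cut 7 [(0, 1), (1, 1), (2, 1), (3, 1), (5, 1), (7, 1), (11, 1), (21, 1), (15, 1), (23, 1), (31, 1), (47, 1), (87, 1), (63, 1), (95, 1), (127, 1)]
(.cut 8 [(0, 1), (1, 1), (2, 1), (3, 1), (5, 1), (7, 1), (11, 1), (21, 1), (15, 1), (23, 1), (31, 1), (47, 1), (87, 1), (63, 1), (95, 1), (127, 1)]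
(.lp [[8], [1, 3, 5, 7], [0, 2, 4, 6, 9, 10]] [(.mj 3 4, 71245), (.mj 10 7, 5693), (.rw 8, 8), (.hz 10 175, 2106802), (.hz 10 303, 3043107), (.hz 18 191, 1403165), (.hz 22 319, 5552887), (.hz 10 431, 1228562), (.hz 22 447, 5090116), (.rw 9, 21), (.rw 10, 8)])))
.fin))
(.lp [[8], [1, 3, 5, 7], [0, 2, 4, 6, 9]] [(.rw 7, 1)]))
.fin))
(.spn
(.cut 8 [(0, 1), (1, 1), (2, 1), (3, 1), (5, 1), (7, 1), (11, 1), (21, 1), (15, 1), (23, 1), (31, 1), (47, 1), (87, 1), (63, 1), (95, 1), (175, 2), (127, 1), (191, 1)]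
(.lp [[8], [0, 2, 4, 6], [1, 3, 5, 7]] [(.mj 0 1, 76752), (.mj 7 8, 28), (.hz 20 191, 817666), (.rw 8, 1)]))
(.con 8 7)
.fin
.fin))
(.lp [[8], [0, 2, 4, 6], [1, 3, 5, 7]] [(.mj 0 1, 863), (.mj 7 8, 1), (.hz 22 63, 11056), (.hz 20 191, 13797), (.hz 21 319, 306)]))
(.lp [[8], [0, 2, 4, 6], [1, 3, 5, 7]] [(.mj 0 1, 4), (.hz 21 63, 47)]))
(.cut 8 [(0, 1), (1, 1), (2, 1), (3, 1), (5, 1), (7, 1), (11, 1), (21, 1), (15, 1), (23, 1), (31, 1), (87, 1), (95, 1)]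
(.lp [[8], [0, 2, 4, 6], [1, 3, 5, 7]] [(.mj 3 4, 5458), (.mj 6 7, 2531), (.hz 20 47, 5928810), (.hz 20 63, 24317914), (.hz 19 383, 7574355), (.rw 7, 22)])))
(.lp [[8], [0, 2, 4, 6], [1, 3, 5, 7]] [(.mj 3 4, 17), (.mj 7 8, 4), (.hz 19 47, 625), (.hz 19 63, 642), (.hz 10 303, 697), (.hz 17 319, 1587)]))
(.lp [[8], [0, 2, 4, 6], [1, 3, 5, 7]] [(.mj 4 5, 1), (.hz 18 63, 150)])))
(.lp [[8], [0, 2, 4, 6], [1, 3, 5, 7]] [(.mj 0 1, 2), (.hz 17 31, 26), (.hz 17 63, 8)])))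
(.cut 8 [(0, 1), (1, 1), (2, 1), (3, 1), (5, 1), (7, 1), (11, 1), (21, 1), (15, 1), (23, 1), (31, 1), (87, 1), (95, 1)]
(.lp [[8], [0, 2, 4, 6], [1, 3, 5, 7]] [(.mj 3 4, 9006), (.mj 6 7, 2572), (.hz 16 47, 353448), (.hz 16 63, 435241), (.hz 10 175, 243730), (.hz 16 127, 260264), (.rw 7, 1)])))
(.lp [[8], [0, 2, 4, 6], [1, 3, 5, 7]] [(.mj 4 5, 3010), (.mj 7 6, 1342), (.rw 4, 1), (.hz 14 95, 261297)])
(.con 8 7)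
.fin))

theorem run230 : run P3488 (leaf3 218 625) (cutRow P3488) [s226, s225, s217, s224] t230 s230 = true := by
  decide +kernel

theorem bad230 : Bad P3488 s230 :=
  run_sound (leaf3_sound P3488 rfl rfl) (cutRow_sound P3488) (
    List.forall_mem_cons.2 ⟨bad226, List.forall_mem_cons.2 ⟨bad225, List.forall_mem_cons.2 ⟨bad217, List.forall_mem_cons.2 ⟨bad224, fun _ h => absurd h List.not_mem_nil⟩⟩⟩⟩) t230 s230 run230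

/-- the state above piece 50 of the tree -/
def s50 : St := ⟨[0, 0, 1, 1, 7, 7, 11, 23], [31, 15, 13, 9, 7, 5, 3, 2, 1, 0], [0, 1, 2, 3, 4, 5],
  [(3, 4)],
  [⟨true, 1, 9, 7, 50⟩, ⟨true, 2, 11, 3, 50⟩, ⟨true, 2, 9, 9, 50⟩, ⟨true, 3, 3, 1, 5⟩, ⟨true, 1, 5, 13, 50⟩, ⟨true, 2, 11, 3, 5⟩, ⟨true, 2, 9, 8, 25⟩, ⟨true, 2, 9, 17, 50⟩, ⟨true, 2, 11, 33, 50⟩, ⟨true, 4, 47, 4, 25⟩],
  [.spn 0 0 651200, .spn 1 1 140426, .spn 3 2 302400, .spn 7 3 62723, .spn 15 4 140426, .spn 31 5 62723]⟩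

/-- piece 50 of the tree -/
noncomputable def t50 : WN.Tree :=
(.haz 4 79 1 5
(.haz 5 159 7 50
(.haz 4 79 3 10
(.ask 39
(.ref 0)
(.haz 3 23 7 25
(.haz 3 23 3 10
(.haz 6 63 2 25
(.haz 5 95 4 25
(.ask 55
(.ref 1)
(.haz 4 79 9 25
(.ask 47
(.mark 63 [6, 7, 8]
(.spn
(.haz 7 319 2 25
(.haz 6 319 7 50
(.haz 7 95 11 50
(.haz 7 63 6 25
(.lp [[3, 6], [1, 5, 8], [0, 2, 4, 7]] [(.mj 2 3, 156), (.mj 4 5, 190), (.mj 5 6, 152), (.mj 6 7, 222), (.hz 14 151, 18591), (.hz 21 63, 113773), (.hz 20 95, 26591), (.hz 11 159, 60), (.hz 9 303, 8040), (.hz 19 319, 25456), (.hz 21 319, 215932)])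
(.lp [[3, 6], [1, 5, 8], [0, 2, 4, 7]] [(.mj 2 3, 7), (.mj 4 5, 2), (.hz 21 23, 320), (.hz 21 31, 345), (.hz 21 55, 533), (.hz 21 63, 635), (.hz 19 319, 858)]))
(.lp [[3, 6], [1, 5, 8], [0, 2, 4, 7]] [(.mj 2 3, 9164), (.mj 4 5, 4859), (.mj 5 6, 1854), (.mj 6 7, 1570), (.rw 6, 1), (.hz 20 23, 561726), (.hz 15 191, 648765), (.hz 19 319, 1508177), (.hz 18 319, 1531191)]))
(.lp [[3, 6], [1, 5, 8], [0, 2, 4, 7]] [(.mj 4 5, 11), (.mj 6 7, 9), (.mj 6 8, 3), (.hz 19 11, 380), (.hz 19 15, 1075), (.hz 19 31, 1629), (.hz 11 159, 2122)]))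
(.lp [[3, 6], [1, 5, 8], [0, 2, 4, 7]] [(.mj 2 3, 3), (.mj 4 5, 1), (.hz 18 23, 327)]))
(.haz 4 303 13 50
(.haz 6 159 3 25
(.ref 2)
(.haz 6 159 2 25
(.haz 5 79 7 25
(.ask 151
(.mark 159 [5, 6, 9]
(.lp [[3, 6], [1, 5, 8], [0, 2, 4, 7, 9]] [(.mj 3 4, 114), (.mj 4 5, 147), (.mj 5 7, 53), (.hz 19 11, 9386), (.hz 19 15, 13820), (.hz 19 31, 27881), (.hz 21 79, 39253), (.hz 20 159, 22294), (.hz 15 319, 16270), (.hz 11 671, 10091)]))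
(.ask 183
(.mark 191 [6, 8, 9]
(.lp [[3, 6], [1, 5, 8], [0, 2, 4, 7, 9]] [(.mj 3 4, 1), (.mj 4 5, 1), (.hz 19 11, 68), (.hz 19 15, 83), (.hz 19 31, 197), (.hz 21 79, 340), (.hz 19 159, 219)]))
(.ask 159
(.mark 191 [6, 8, 9]
(.spn
(.haz 9 447 6 25
(.lp [[3, 6], [1, 5, 8], [0, 2, 4, 7, 9]] [(.mj 4 5, 21), (.mj 5 7, 11), (.mj 6 8, 3), (.mj 6 9, 7), (.hz 19 11, 1283), (.hz 19 15, 3597), (.hz 19 31, 5371), (.hz 19 159, 3799), (.hz 15 319, 10768), (.hz 20 671, 6991), (.hz 22 447, 20777)])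
(.lp [[3, 6], [1, 5, 8], [0, 2, 4, 7, 9]] [(.mj 4 5, 3), (.mj 6 8, 1), (.hz 19 11, 130), (.hz 19 15, 365), (.hz 19 31, 1745), (.hz 22 159, 1056), (.hz 22 191, 1955)]))
(.ask 75
(.mark 255 [8, 9, 10]
(.lp [[1, 5, 8], [3, 6, 10], [0, 2, 4, 7, 9]] [(.mj 4 5, 335), (.mj 5 7, 162), (.mj 8 9, 24), (.hz 19 11, 33979), (.hz 20 159, 35121), (.hz 21 1103, 299109), (.hz 15 319, 130112), (.hz 21 1119, 9378), (.hz 21 735, 40650)]))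
(.ask 79
(.mark 255 [8, 9, 10]
(.lp [[1, 5, 8], [3, 6, 10], [0, 2, 4, 7, 9]] [(.mj 4 5, 1078), (.mj 5 7, 510), (.mj 8 9, 71), (.hz 19 15, 111821), (.hz 21 79, 161784), (.hz 20 159, 159432), (.hz 21 1103, 727812), (.hz 15 319, 274561), (.hz 21 735, 100372)]))
(.lp [[3, 6], [1, 5, 8], [0, 2, 4, 7, 9]] [(.mj 1 2, 516), (.mj 4 5, 41), (.mj 5 7, 18), (.mj 8 9, 5), (.hz 19 31, 24185), (.hz 15 319, 15598), (.hz 20 671, 15643), (.hz 15 703, 5752), (.hz 21 735, 14551)])))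
(.haz 6 15 1 10
(.haz 7 95 23 50
(.ask 671
(.mark 703 [6, 8, 10]
(.lp [[3, 6], [1, 5, 8], [0, 2, 4, 7, 9, 10]] [(.mj 4 5, 38), (.mj 5 7, 139), (.mj 9 6, 55), (.mj 9 8, 49), (.hz 19 11, 3686), (.hz 19 15, 10331), (.hz 23 95, 14754), (.hz 22 159, 204766), (.hz 22 303, 122817), (.hz 23 127, 14235), (.hz 22 319, 621334), (.hz 23 383, 116771), (.hz 22 447, 273575), (.hz 22 1695, 130187)]))
(.ask 703
(.mark 703 [6, 8, 10]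
(.spn
(.haz 8 191 9 50
(.lp [[3, 6], [1, 5, 8], [0, 2, 4, 7, 9, 10]] [(.mj 5 7, 3), (.mj 6 8, 6), (.mj 6 10, 3), (.mj 9 6, 7), (.hz 19 11, 28), (.hz 19 15, 79), (.hz 19 31, 118), (.hz 19 159, 69), (.hz 22 303, 4919), (.hz 22 319, 16333), (.hz 24 255, 11384), (.hz 24 703, 390), (.hz 24 1727, 10789)])
(.lp [[3, 6], [1, 5, 8], [0, 2, 4, 7, 9, 10]] [(.mj 3 4, 26), (.mj 4 5, 8), (.mj 5 7, 5), (.mj 9 6, 3), (.hz 19 11, 1000), (.hz 19 15, 2803), (.hz 24 47, 1404), (.hz 24 63, 1699), (.hz 23 95, 1860), (.hz 22 303, 1981), (.hz 23 127, 1807), (.hz 22 319, 7024), (.hz 22 447, 1493)]))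
(.lp [[3, 6], [1, 5, 8], [0, 2, 4, 7, 9, 10]] [(.mj 3 4, 41), (.mj 4 5, 29), (.mj 8 6, 19), (.mj 9 8, 2), (.hz 19 11, 1107), (.hz 22 47, 6447), (.hz 21 79, 9754), (.hz 22 63, 28039), (.hz 23 95, 711), (.hz 22 303, 3197), (.hz 22 191, 58391), (.hz 22 319, 10464), (.hz 22 671, 3951), (.hz 22 447, 31690), (.hz 22 703, 69269), (.hz 22 1727, 76966)])
(.lp [[3, 6], [1, 5, 8], [0, 2, 4, 7, 9, 10]] [(.mj 3 4, 12), (.mj 4 5, 11), (.mj 5 7, 3), (.mj 10 6, 10), (.hz 19 11, 280), (.hz 22 47, 7317), (.hz 21 79, 2464), (.hz 22 63, 12713), (.hz 22 159, 9900), (.hz 22 303, 6594), (.hz 22 191, 28946), (.hz 22 319, 40719), (.hz 22 671, 6121), (.hz 23 383, 7540), (.hz 22 447, 16252), (.hz 22 703, 38964)])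
.fin))
(.lp [[3, 6], [1, 5, 8], [0, 2, 4, 7, 9]] [(.mj 3 4, 1), (.mj 9 6, 1), (.mj 9 8, 1), (.hz 19 11, 35), (.hz 19 15, 97), (.hz 19 31, 54), (.hz 19 159, 626), (.hz 22 303, 1237), (.hz 22 319, 4716), (.hz 22 447, 13168)])))
(.lp [[3, 6], [1, 5, 8], [0, 2, 4, 7, 9]] [(.mj 3 4, 17), (.mj 4 5, 22), (.hz 19 11, 1162), (.hz 19 15, 1509), (.hz 19 31, 6394), (.hz 23 31, 3073), (.hz 21 79, 5494), (.hz 22 303, 11861)]))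
(.lp [[3, 6], [1, 5, 8], [0, 2, 4, 7, 9]] [(.mj 1 2, 20677), (.mj 3 4, 506), (.mj 4 5, 162), (.mj 5 7, 28), (.hz 22 11, 1553136), (.hz 21 79, 32161), (.hz 15 63, 17531), (.hz 20 159, 15153), (.hz 15 319, 19056)]))
.fin))
(.lp [[3, 6], [1, 5, 8], [0, 2, 4, 7]] [(.mj 3 4, 7), (.mj 4 5, 5), (.hz 19 11, 393), (.hz 19 15, 630), (.hz 19 31, 970), (.hz 21 79, 1482), (.hz 19 159, 885)]))))
(.lp [[3, 6], [1, 5, 8], [0, 2, 4, 7]] [(.mj 3 4, 7), (.mj 5 7, 5), (.hz 19 11, 385), (.hz 21 15, 3473), (.hz 19 15, 2183), (.hz 19 31, 2271), (.hz 20 159, 2913)]))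
(.lp [[3, 6], [1, 5, 8], [0, 2, 4, 7]] [(.mj 1 2, 92), (.mj 3 4, 3), (.mj 4 5, 1), (.hz 20 11, 2738), (.hz 20 15, 44), (.hz 20 31, 68), (.hz 15 63, 207)])))
(.lp [[3, 6], [1, 5, 8], [0, 2, 4, 7]] [(.mj 2 3, 2), (.mj 4 5, 1), (.hz 18 7, 103)]))
(.haz 7 63 13 50
(.maj 6 7
(.lp [[3, 6], [1, 5, 8], [0, 2, 4, 7]] [(.mj 2 3, 24), (.mj 4 5, 15), (.mj 6 7, 19), (.mj 8 6, 8), (.hz 14 151, 2880), (.hz 18 63, 4829), (.hz 16 95, 11341), (.hz 18 127, 6540), (.hz 15 319, 6241), (.hz 18 319, 9183)])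
(.lp [[3, 6], [1, 5, 8], [0, 2, 4, 7]] [(.mj 2 3, 36), (.mj 4 5, 131), (.mj 7 6, 108), (.mj 8 7, 137), (.hz 17 79, 9880), (.hz 14 151, 4234), (.hz 15 63, 24026), (.hz 18 63, 56915), (.hz 16 95, 100645), (.hz 15 191, 320390), (.hz 15 319, 199805)]))
(.lp [[3, 6], [1, 5, 8], [0, 2, 4, 7]] [(.mj 2 3, 4), (.mj 4 5, 12), (.mj 8 6, 5), (.hz 18 23, 402), (.hz 18 31, 1312), (.hz 18 55, 328), (.hz 18 63, 1126), (.hz 16 95, 7665), (.hz 15 319, 7972)]))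
.fin))
(.ref 3))
(.lp [[1, 5], [3, 6], [0, 2, 4, 7]] [(.mj 2 3, 18), (.mj 4 5, 7), (.hz 17 7, 1378), (.hz 17 15, 818), (.hz 12 79, 669), (.hz 14 151, 1724), (.hz 15 63, 1929)])))
(.lp [[1, 5], [3, 6], [0, 2, 4, 7]] [(.mj 2 3, 5), (.mj 5 6, 31), (.mj 5 7, 35), (.hz 16 15, 7625), (.hz 16 23, 4504), (.hz 16 31, 9808), (.hz 15 63, 1344), (.hz 11 159, 1203), (.hz 15 191, 30066)]))
(.lp [[1, 5], [3, 6], [0, 2, 4, 7]] [(.mj 1 2, 102), (.mj 3 4, 3), (.mj 4 5, 1), (.hz 15 11, 3021), (.hz 15 15, 35), (.hz 15 31, 51), (.hz 11 159, 25)]))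
(.lp [[1, 5], [3, 6], [0, 2, 4, 7]] [(.mj 3 4, 13), (.mj 4 5, 2), (.hz 14 3, 154), (.hz 14 7, 5700), (.hz 13 23, 546), (.hz 8 75, 273)]))
(.lp [[1, 5], [3, 6], [0, 2, 4, 7]] [(.mj 3 4, 12), (.mj 4 5, 3), (.mj 5 7, 1), (.hz 13 3, 502), (.hz 13 7, 1490), (.hz 8 75, 60), (.hz 3 151, 1267)])))
(.lp [[1, 5], [3, 6], [0, 2, 4, 7]] [(.mj 2 3, 2), (.mj 4 5, 10), (.mj 5 6, 7), (.hz 12 7, 1850), (.hz 12 15, 4933), (.hz 10 79, 9686)]))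
(.lp [[1, 5], [3, 6], [0, 2, 4, 7]] [(.mj 2 3, 3), (.mj 5 6, 12), (.mj 5 7, 14), (.hz 11 7, 463), (.hz 11 15, 1159), (.hz 11 23, 538), (.hz 11 31, 1974)]))
(.lp [[1, 5], [3, 6], [0, 2, 4, 7]] [(.mj 4 5, 2), (.mj 5 6, 2), (.hz 10 7, 700), (.hz 10 15, 1867)]))

theorem run50 : run P3488 (leaf3 218 625) (cutRow P3488) [s48, s47, s41, s46] t50 s50 = true := by
  decide +kernel

theorem bad50 : Bad P3488 s50 :=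
  run_sound (leaf3_sound P3488 rfl rfl) (cutRow_sound P3488) (
    List.forall_mem_cons.2 ⟨bad48, List.forall_mem_cons.2 ⟨bad47, List.forall_mem_cons.2 ⟨bad41, List.forall_mem_cons.2 ⟨bad46, fun _ h => absurd h List.not_mem_nil⟩⟩⟩⟩) t50 s50 run50

/-- the state above piece 206 of the tree -/
def s206 : St := ⟨[0, 0, 1, 3, 5, 15, 23, 31, 47], [63, 31, 23, 21, 15, 11, 7, 5, 3, 2, 1, 0], [0, 1, 2, 3, 4, 5, 7],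
  [(5, 6), (4, 5)],
  [⟨true, 2, 3, 3, 10⟩, ⟨true, 1, 5, 2, 5⟩, ⟨true, 2, 3, 23, 50⟩, ⟨true, 1, 5, 12, 25⟩, ⟨true, 1, 21, 27, 50⟩, ⟨true, 4, 15, 9, 40⟩, ⟨true, 3, 23, 11, 20⟩, ⟨true, 4, 47, 7, 20⟩, ⟨true, 4, 47, 17, 40⟩, ⟨true, 4, 47, 9, 20⟩, ⟨true, 4, 47, 19, 40⟩, ⟨true, 5, 95, 1, 5⟩, ⟨true, 5, 95, 3, 10⟩, ⟨true, 5, 31, 3, 10⟩],
  [.spn 0 0 651200, .spn 1 1 302400, .spn 3 2 302400, .spn 7 3 302400, .spn 15 4 302400, .spn 31 5 140426, .spn 63 7 140426]⟩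

/-- piece 206 of the tree -/
noncomputable def t206 : WN.Tree :=
(.haz 3 87 29 40
(.haz 6 447 1 40
(.ask 159
(.mark 191 [6, 8, 9]
(.spn
(.haz 8 191 6 25
(.lp [[6], [1, 3, 5, 8], [0, 2, 4, 7, 9]] [(.mj 3 4, 20630), (.mj 6 8, 5804), (.rw 6, 1), (.hz 10 303, 553381), (.hz 16 191, 2223068), (.hz 16 703, 4643485)])
(.lp [[6], [1, 3, 5, 8], [0, 2, 4, 7, 9]] [(.mj 3 4, 52), (.mj 6 8, 5), (.mj 6 9, 3), (.hz 16 47, 2671), (.hz 16 63, 1518)]))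
(.ref 0)
(.haz 8 191 3 25
(.ask 303
(.haz 8 191 11 50
(.haz 7 127 8 25
(.mark 447 [6, 9, 10]
(.cut 6 [(0, 1), (1, 1), (2, 1), (3, 1), (5, 1), (7, 1), (11, 1), (21, 1), (15, 1), (23, 1), (31, 1), (47, 1), (63, 1), (159, 1), (303, 1), (191, 1), (319, 1), (1327, 1), (447, 1)]
(.lp [[6], [0, 2, 4, 7, 9], [1, 3, 5, 8, 10]] [(.mj 3 4, 11164), (.mj 5 7, 2763), (.mj 9 8, 5521), (.hz 18 127, 3672635), (.hz 17 191, 1749729), (.hz 10 1327, 484698), (.hz 17 255, 6182756), (.rw 8, 1)])))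
(.mark 447 [6, 9, 10]
(.lp [[6], [0, 2, 4, 7, 9], [1, 3, 5, 8, 10]] [(.mj 9 6, 85), (.mj 9 8, 78), (.hz 18 31, 18840), (.hz 18 63, 20631), (.hz 17 191, 27110), (.hz 15 447, 242302), (.hz 15 959, 57879), (.hz 15 1471, 57879)])))
(.lp [[6], [0, 2, 4, 7, 9], [1, 3, 5, 8, 10]] [(.mj 3 4, 7), (.mj 5 7, 1), (.hz 17 47, 229), (.hz 17 63, 249), (.hz 17 191, 140)]))
(.cut 6 [(0, 1), (1, 1), (2, 1), (3, 1), (5, 1), (7, 1), (11, 1), (21, 1), (15, 1), (23, 1), (31, 1), (47, 1), (63, 1), (303, 1)]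
(.cut 6 [(0, 1), (1, 1), (2, 1), (3, 1), (5, 1), (7, 1), (11, 1), (21, 1), (15, 1), (23, 1), (31, 1), (47, 1), (63, 1), (159, 1), (303, 1), (191, 1), (319, 2), (447, 1)]
(.lp [[6], [1, 3, 5, 8], [0, 2, 4, 7, 9]] [(.mj 3 4, 141329), (.mj 5 7, 13653), (.mj 9 8, 33059), (.hz 16 255, 66776472), (.hz 16 703, 14229561), (.rw 8, 20), (.rw 9, 8)]))))
(.lp [[6], [1, 3, 5, 8], [0, 2, 4, 7, 9]] [(.mj 3 4, 1), (.hz 16 47, 62), (.hz 16 63, 65), (.hz 16 191, 34)]))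
.fin))
(.haz 7 319 11 40
(.ask 191
(.mark 191 [6, 8, 9]
(.spn
(.haz 8 191 1 5
(.lp [[6], [1, 3, 5, 8], [0, 2, 4, 7, 9]] [(.mj 3 4, 131), (.mj 6 8, 42), (.mj 6 9, 3), (.mj 7 6, 5), (.hz 10 303, 3493), (.hz 17 191, 86428), (.hz 17 255, 11647), (.hz 17 703, 131566)])
(.lp [[6], [1, 3, 5, 8], [0, 2, 4, 7, 9]] [(.mj 3 4, 9), (.mj 6 9, 1), (.hz 17 47, 2770), (.hz 17 63, 2983), (.hz 17 191, 3250)]))
(.ref 1)
(.ask 703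
(.mark 703 [6, 8, 10]
(.spn
(.lp [[6], [1, 3, 5, 8], [0, 2, 4, 7, 9, 10]] [(.mj 9 6, 501), (.rw 8, 1)])
(.ask 303
(.mark 959 [6, 10, 11]
(.cut 6 [(0, 1), (1, 1), (2, 1), (3, 1), (5, 1), (7, 1), (11, 1), (21, 1), (15, 1), (23, 1), (31, 1), (47, 1), (63, 1), (159, 1), (303, 1), (191, 1), (319, 1), (2351, 1), (447, 1), (703, 1)]
(.lp [[6], [1, 3, 5, 8, 11], [0, 2, 4, 7, 9, 10]] [(.mj 3 4, 6026), (.mj 8 6, 944), (.mj 8 10, 1385), (.mj 9 8, 3345), (.rw 8, 1), (.hz 10 2351, 1118605), (.hz 16 2367, 1074409), (.hz 16 2431, 2395288), (.rw 9, 4)])))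
(.cut 6 [(0, 1), (1, 1), (2, 1), (3, 1), (5, 1), (7, 1), (11, 1), (21, 1), (15, 1), (23, 1), (31, 1), (47, 1), (63, 1), (159, 1), (303, 1), (191, 1), (703, 1)]
(.lp [[6], [1, 3, 5, 8], [0, 2, 4, 7, 9, 10]] [(.mj 3 4, 29160), (.mj 8 6, 235), (.mj 8 10, 2371), (.mj 9 8, 6374), (.rw 8, 1), (.rw 9, 6)])))
(.ask 1727
(.mark 1727 [6, 8, 11]
(.spn
(.lp [[6], [1, 3, 5, 8], [0, 2, 4, 7, 9, 10, 11]] [(.mj 10 6, 197), (.rw 9, 1)])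
(.lp [[6], [1, 3, 5, 8], [0, 2, 4, 7, 9, 10, 11]] [(.mj 10 8, 631), (.rw 9, 1)])
(.maj 6 8
(.cut 6 [(0, 1), (1, 1), (2, 1), (3, 1), (5, 1), (7, 1), (11, 1), (21, 1), (15, 1), (23, 1), (31, 1), (47, 1), (63, 1), (159, 1), (191, 1)]
(.cut 8 [(0, 1), (1, 1), (2, 1), (3, 1), (5, 1), (7, 1), (11, 1), (21, 1), (15, 1), (23, 1), (31, 1), (47, 1), (87, 1), (63, 1), (95, 1), (159, 1), (191, 1), (223, 1)]
(.cut 6 [(0, 1), (1, 1), (2, 1), (3, 1), (5, 1), (7, 1), (11, 1), (21, 1), (15, 1), (23, 1), (31, 1), (47, 1), (63, 1), (159, 1), (191, 1), (703, 1)]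
(.cut 8 [(0, 1), (1, 1), (2, 1), (3, 1), (5, 1), (7, 1), (11, 1), (21, 1), (15, 1), (23, 1), (31, 1), (47, 1), (87, 1), (63, 1), (95, 1), (159, 1), (127, 1), (191, 1), (223, 1), (255, 1), (703, 1), (767, 1)]
(.lp [[6], [1, 3, 5, 8], [0, 2, 4, 7, 9, 10, 11]] [(.mj 3 4, 60239), (.mj 5 7, 4212), (.mj 11 6, 11084), (.rw 9, 8), (.hz 10 303, 1615841), (.rw 10, 40), (.rw 11, 16), (.rw 12, 48), (.rw 13, 8)])))))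
(.ask 303
(.haz 12 959 1 20
(.mark 447 [6, 9, 12]
(.cut 6 [(0, 1), (1, 1), (2, 1), (3, 1), (5, 1), (7, 1), (11, 1), (21, 1), (15, 1), (23, 1), (31, 1), (47, 1), (63, 1), (159, 1), (303, 1), (191, 1), (319, 1), (4399, 1), (447, 1)]
(.cut 6 [(0, 1), (1, 1), (2, 1), (3, 1), (5, 1), (7, 1), (11, 1), (21, 1), (15, 1), (23, 1), (31, 1), (47, 1), (63, 1), (159, 1), (303, 1), (191, 1), (319, 1), (4399, 1), (447, 1), (703, 1)]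
(.cut 8 [(0, 1), (1, 1), (2, 1), (3, 1), (5, 1), (7, 1), (11, 1), (21, 1), (15, 1), (23, 1), (31, 1), (47, 1), (63, 1), (159, 1), (191, 1), (703, 1), (1727, 1)]
(.lp [[6], [1, 3, 5, 8, 12], [0, 2, 4, 7, 9, 10, 11]] [(.mj 3 4, 16384), (.mj 5 7, 7769), (.mj 11 8, 5703), (.rw 9, 1), (.hz 10 4399, 2461159), (.hz 16 4415, 3128236), (.hz 16 4479, 7484258), (.hz 15 959, 22006227), (.hz 17 959, 13160868), (.hz 15 1983, 20694360), (.hz 17 1983, 20359607), (.rw 10, 7), (.rw 11, 1), (.rw 12, 18)])))))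
(.mark 959 [6, 10, 12]
(.cut 6 [(0, 1), (1, 1), (2, 1), (3, 1), (5, 1), (7, 1), (11, 1), (21, 1), (15, 1), (23, 1), (31, 1), (47, 1), (63, 1), (159, 1), (303, 1), (191, 1), (319, 1), (447, 1), (703, 1), (959, 1)]
(.lp [[6], [1, 3, 5, 8, 12], [0, 2, 4, 7, 9, 10, 11]] [(.mj 3 4, 6793), (.mj 5 7, 510), (.mj 11 8, 294), (.hz 17 303, 721403), (.hz 17 319, 1982048), (.rw 10, 1)]))))
(.cut 6 [(0, 1), (1, 1), (2, 1), (3, 1), (5, 1), (7, 1), (11, 1), (21, 1), (15, 1), (23, 1), (31, 1), (47, 1), (63, 1), (303, 1)]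
(.cut 6 [(0, 1), (1, 1), (2, 1), (3, 1), (5, 1), (7, 1), (11, 1), (21, 1), (15, 1), (23, 1), (31, 1), (47, 1), (63, 1), (159, 1), (303, 1), (191, 1), (319, 2), (447, 1), (703, 1), (959, 1)]
(.cut 8 [(0, 1), (1, 1), (2, 1), (3, 1), (5, 1), (7, 1), (11, 1), (21, 1), (15, 1), (23, 1), (31, 1), (47, 1), (63, 1), (159, 1), (191, 1), (703, 1), (1727, 1)]
(.lp [[6], [1, 3, 5, 8], [0, 2, 4, 7, 9, 10, 11]] [(.mj 3 4, 275058), (.mj 11 8, 27387), (.rw 9, 6), (.hz 16 383, 48589004), (.hz 15 447, 2005517), (.hz 15 959, 73411344), (.hz 15 1983, 73860232), (.rw 10, 72), (.rw 11, 13), (.rw 12, 77)]))))))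
.fin))
(.lp [[6], [1, 3, 5, 8], [0, 2, 4, 7, 9, 10]] [(.mj 10 8, 1), (.rw 8, 1)]))
.fin))
(.lp [[6], [1, 3, 5, 8], [0, 2, 4, 7, 9]] [(.mj 9 8, 1), (.rw 7, 1)]))
.fin))
(.spn
(.lp [[7], [0, 2, 4, 6], [1, 3, 5, 8]] [(.mj 6 8, 7), (.mj 7 6, 12)])
(.ask 303
(.mark 319 [6, 7, 9]
(.cut 6 [(0, 1), (1, 1), (2, 1), (3, 1), (5, 1), (7, 1), (11, 1), (21, 1), (15, 1), (23, 1), (31, 1), (47, 1), (63, 1), (159, 1), (303, 1), (191, 1)]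
(.lp [[7], [0, 2, 4, 6], [1, 3, 5, 8, 9]] [(.mj 7 8, 3626), (.mj 8 6, 1640), (.hz 10 815, 204514), (.rw 8, 2)])))
(.cut 6 [(0, 1), (1, 1), (2, 1), (3, 1), (5, 1), (7, 1), (11, 1), (21, 1), (15, 1), (23, 1), (31, 1), (47, 1), (63, 1), (159, 1), (303, 1), (191, 1)]
(.lp [[7], [0, 2, 4, 6], [1, 3, 5, 8]] [(.mj 7 8, 3626), (.mj 8 6, 1640), (.rw 8, 2)])))
.fin
.fin))
(.lp [[7], [0, 2, 4, 6], [1, 3, 5, 8]] [(.mj 3 4, 60), (.mj 7 6, 46), (.mj 7 8, 65), (.hz 16 63, 19290)])))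
(.cut 6 [(0, 1), (1, 1), (2, 1), (3, 1), (5, 1), (7, 1), (11, 1), (21, 1), (15, 1), (23, 1), (31, 1), (47, 1), (63, 1), (303, 1)]
(.lp [[7], [0, 2, 4, 6], [1, 3, 5, 8]] [(.mj 0 1, 35854), (.mj 5 7, 1319), (.hz 15 23, 252045), (.hz 15 31, 142629), (.hz 15 63, 526013), (.hz 10 303, 125464), (.hz 15 319, 172577), (.rw 7, 1)])))
(.lp [[7], [0, 2, 4, 6], [1, 3, 5, 8]] [(.mj 3 4, 415), (.mj 7 6, 34), (.mj 7 8, 102), (.hz 14 23, 31504), (.hz 6 87, 24709), (.hz 10 303, 14847)]))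

theorem run206 : run P3488 (leaf3 218 625) (cutRow P3488) [s202, s205] t206 s206 = true := by
  decide +kernel

theorem bad206 : Bad P3488 s206 :=
  run_sound (leaf3_sound P3488 rfl rfl) (cutRow_sound P3488) (
    List.forall_mem_cons.2 ⟨bad202, List.forall_mem_cons.2 ⟨bad205, fun _ h => absurd h List.not_mem_nil⟩⟩) t206 s206 run206

/-- the state above piece 63 of the tree -/
def s63 : St := ⟨[0, 0, 1, 1, 3], [2, 1, 0], [0, 1],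
  [],
  [⟨true, 1, 9, 7, 50⟩, ⟨true, 2, 11, 3, 50⟩, ⟨true, 2, 9, 9, 50⟩, ⟨true, 3, 3, 1, 5⟩, ⟨true, 1, 5, 13, 50⟩],
  [.spn 0 0 651200, .spn 1 1 140426]⟩

/-- piece 63 of the tree -/
noncomputable def t63 : WN.Tree :=
(.mark 3 [2, 3, 4]
(.spn
(.ask 5
(.ref 0)
(.ask 7
(.mark 7 [3, 4, 5]
(.spn
(.ask 9
(.ref 1)
(.ask 11
(.ref 2)
(.haz 5 31 1 8
(.ask 13
(.mark 15 [4, 5, 6]
(.spn
(.ref 3)
(.ask 39
(.ref 4)
(.haz 3 23 7 25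
(.haz 3 23 8 25
(.haz 3 23 9 25
(.ask 47
(.mark 47 [4, 6, 7]
(.spn
(.ask 19
(.mark 63 [6, 7, 8]
(.lp [[3, 6], [1, 4, 8], [0, 2, 5, 7]] [(.mj 2 3, 63), (.mj 4 7, 4), (.mj 5 4, 9), (.hz 8 23, 3068), (.hz 3 275, 22169), (.hz 8 279, 11821)]))
(.ask 27
(.mark 63 [6, 7, 8]
(.lp [[3, 6], [1, 4, 8], [0, 2, 5, 7]] [(.mj 2 3, 1)]))
(.haz 3 55 31 50
(.ask 23
(.mark 63 [6, 7, 8]
(.cut 6 [(0, 1), (1, 1), (2, 1), (3, 1), (5, 1), (9, 1), (7, 1), (11, 1), (13, 1), (19, 1), (15, 1), (23, 1), (27, 1), (39, 1), (47, 1), (55, 1), (279, 1), (311, 1)]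
(.lp [[3, 6], [1, 4, 8], [0, 2, 5, 7]] [(.mj 2 3, 19390), (.mj 4 7, 1259), (.mj 5 4, 3438), (.hz 8 23, 2114578), (.hz 8 279, 336282), (.hz 9 311, 732519), (.rw 6, 1)])))
(.haz 6 63 3 50
(.ask 55
(.mark 63 [6, 7, 8]
(.spn
(.lp [[3, 6], [1, 4, 8], [0, 2, 5, 7]] [(.mj 2 3, 44), (.mj 5 4, 4), (.mj 6 7, 3), (.mj 6 8, 3), (.hz 9 55, 2211)])
(.haz 7 111 19 50
(.lp [[3, 6], [1, 4, 8], [0, 2, 5, 7]] [(.mj 2 3, 257), (.mj 4 7, 27), (.mj 5 4, 61), (.hz 9 55, 13299), (.hz 10 63, 24196), (.hz 11 111, 7078)])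
(.lp [[3, 6], [1, 4, 8], [0, 2, 5, 7]] [(.mj 2 3, 6), (.mj 5 4, 1), (.hz 11 47, 66), (.hz 9 55, 304), (.hz 10 63, 526)]))
(.lp [[3, 6], [1, 4, 8], [0, 2, 5, 7]] [(.mj 2 3, 57), (.mj 5 4, 8), (.mj 8 7, 4), (.hz 9 55, 5836), (.hz 10 63, 2616)])
.fin))
(.lp [[1, 4], [3, 6], [0, 2, 5, 7]] [(.mj 2 3, 1)]))
(.lp [[1, 4], [3, 6], [0, 2, 5, 7]] [(.mj 2 3, 2), (.mj 4 7, 15), (.mj 5 4, 23), (.hz 10 13, 347), (.hz 10 15, 1411), (.hz 10 47, 2068)])))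
(.lp [[1, 4], [3, 6], [0, 2, 5, 7]] [(.mj 2 3, 93), (.mj 5 4, 40), (.hz 8 23, 27819), (.hz 9 39, 4580)]))))
(.lp [[1, 4], [3, 6], [0, 2, 5, 7]] [(.mj 2 3, 81), (.mj 6 4, 12), (.mj 6 7, 5), (.hz 3 19, 28131), (.hz 8 23, 7446), (.hz 8 55, 1931)])
(.ask 175
(.mark 175 [4, 6, 8]
(.spn
(.lp [[1, 4], [3, 6], [0, 2, 5, 7, 8]] [(.mj 7 4, 368), (.rw 6, 1)])
(.lp [[1, 4], [3, 6], [0, 2, 5, 7, 8]] [(.mj 2 3, 18175), (.rw 5, 1), (.rw 6, 3), (.hz 3 19, 6297030), (.hz 8 23, 1666861), (.hz 8 55, 432149)])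
(.ask 431
(.mark 431 [4, 6, 9]
(.spn
(.lp [[1, 4], [3, 6], [0, 2, 5, 7, 8, 9]] [(.mj 8 4, 173), (.rw 7, 1)])
(.lp [[1, 4], [3, 6], [0, 2, 5, 7, 8, 9]] [(.mj 8 6, 507), (.rw 7, 1)])
(.maj 4 6
(.cut 4 [(0, 1), (1, 1), (2, 1), (3, 1), (5, 1), (9, 1), (7, 1), (11, 1), (13, 1), (15, 1), (39, 1), (47, 1)]
(.cut 4 [(0, 1), (1, 1), (2, 1), (3, 1), (5, 1), (9, 1), (7, 1), (11, 1), (13, 1), (15, 1), (39, 1), (47, 1), (175, 1)]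
(.cut 6 [(0, 1), (1, 1), (2, 1), (3, 1), (5, 1), (9, 1), (7, 1), (11, 1), (13, 1), (19, 1), (15, 1), (23, 1), (27, 1), (39, 1), (55, 1)]
(.lp [[1, 4], [3, 6], [0, 2, 5, 7, 8, 9]] [(.mj 2 3, 16453), (.mj 9 4, 8023), (.rw 8, 21), (.rw 9, 5), (.rw 10, 1)]))))
(.cut 4 [(0, 1), (1, 1), (2, 1), (3, 1), (5, 1), (9, 1), (7, 1), (11, 1), (13, 1), (15, 1), (39, 1), (77, 1), (47, 1)]
(.cut 6 [(0, 1), (1, 1), (2, 1), (3, 1), (5, 1), (9, 1), (7, 1), (11, 1), (13, 1), (15, 1), (39, 1)]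
(.cut 4 [(0, 1), (1, 1), (2, 1), (3, 1), (5, 1), (9, 1), (7, 1), (11, 1), (13, 1), (15, 1), (39, 1), (77, 1), (47, 1), (175, 1)]
(.lp [[1, 4], [3, 6], [0, 2, 5, 7, 8, 9]] [(.mj 1 2, 7598), (.mj 2 3, 30556), (.mj 9 4, 3799), (.hz 3 19, 12593979), (.hz 8 23, 2484045), (.hz 8 55, 658672), (.rw 8, 3), (.rw 9, 3), (.rw 10, 2)])))))
.fin))
(.lp [[1, 4], [3, 6], [0, 2, 5, 7, 8]] [(.mj 8 6, 1), (.rw 6, 1)]))
.fin))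
(.lp [[1, 4], [3, 6], [0, 2, 5, 7]] [(.mj 7 6, 1), (.rw 5, 1)]))
.fin))
(.lp [[1, 4], [3, 6], [0, 2, 5]] [(.mj 2 3, 95), (.mj 5 4, 21), (.hz 3 19, 24405), (.hz 8 23, 12590)]))
(.lp [[1, 4], [3, 6], [0, 2, 5]] [(.mj 3 5, 44), (.mj 5 4, 48), (.hz 8 7, 19758), (.hz 7 23, 18266), (.hz 4 77, 3099)]))
(.lp [[1, 4], [3, 6], [0, 2, 5]] [(.mj 3 5, 2), (.mj 5 4, 3), (.hz 7 5, 31), (.hz 7 7, 1029), (.hz 6 23, 922), (.hz 4 77, 153)]))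
(.lp [[1, 4], [3, 6], [0, 2, 5]] [(.mj 3 4, 4), (.mj 3 5, 2), (.mj 5 4, 2), (.hz 6 5, 23), (.hz 6 7, 1557), (.hz 3 23, 4191), (.hz 4 77, 261)])))
(.ask 19
(.mark 23 [3, 5, 7]
(.cut 4 [(0, 1), (1, 1), (2, 1), (3, 1), (5, 1), (9, 1), (7, 1), (11, 1), (13, 1), (15, 1), (39, 2), (77, 1), (47, 2)]
(.lp [[3, 6], [0, 2, 5], [1, 4, 7]] [(.mj 1 2, 60936), (.mj 2 3, 81209), (.mj 6 4, 31147), (.mj 6 5, 35754), (.hz 3 19, 19010008), (.hz 3 39, 28137054), (.hz 3 147, 30896539), (.hz 5 31, 87473904), (.hz 3 151, 67671139), (.hz 5 159, 147929585), (.rw 5, 19)])))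
(.ask 23
(.mark 31 [5, 6, 7]
(.lp [[3, 6], [0, 2, 5], [1, 4, 7]] [(.mj 1 2, 33), (.mj 6 4, 9), (.mj 6 5, 5), (.hz 3 19, 3998), (.hz 3 39, 887), (.hz 5 31, 18229)]))
(.lp [[1, 4], [3, 6], [0, 2, 5]] [(.mj 1 2, 4), (.mj 2 3, 6), (.mj 6 4, 1), (.mj 6 5, 3), (.hz 3 39, 2092)])))
.fin))
(.ref 5))
(.lp [[3], [1, 4], [0, 2, 5]] [(.mj 2 3, 17), (.mj 3 4, 6), (.hz 5 7, 2174), (.hz 3 19, 8887)]))))
(.lp [[3], [1, 4], [0, 2, 5]] [(.mj 0 1, 3), (.mj 4 3, 2), (.hz 3 3, 510), (.hz 3 7, 638), (.hz 3 19, 58), (.hz 3 39, 290)])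
(.lp [[3], [1, 4], [0, 2, 5]] [(.mj 5 3, 1), (.hz 3 3, 262), (.hz 3 7, 499), (.hz 3 19, 241)])
.fin))
(.spn
(.lp [[3], [0, 2], [1, 4]] [(.mj 2 3, 5), (.mj 3 4, 2), (.hz 3 19, 2397)])
(.lp [[3], [0, 2], [1, 4]] [(.mj 2 4, 3), (.mj 4 3, 2), (.hz 3 19, 1720)])
.fin
.fin)))
(.con 3 2)
(.ask 5
(.mark 5 [1, 3, 5]
(.lp [[3], [1, 4], [0, 2, 5]] [(.mj 0 1, 325), (.mj 4 2, 103), (.mj 4 3, 182), (.hz 3 3, 41028), (.hz 2 9, 2175), (.hz 3 19, 21888), (.hz 4 37, 5302), (.hz 3 39, 227616), (.hz 2 27, 12160)]))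
(.lp [[3], [0, 2], [1, 4]] [(.mj 0 1, 5), (.mj 2 3, 2), (.mj 4 2, 1), (.mj 4 3, 2), (.hz 3 3, 851), (.hz 3 7, 1064), (.hz 3 19, 473)]))
.fin))

theorem run63 : run P3488 (leaf3 218 625) (cutRow P3488) [s36, s35, s34, s26, s25, s33] t63 s63 = true := by
  decide +kernel

theorem bad63 : Bad P3488 s63 :=
  run_sound (leaf3_sound P3488 rfl rfl) (cutRow_sound P3488) (
    List.forall_mem_cons.2 ⟨bad36, List.forall_mem_cons.2 ⟨bad35, List.forall_mem_cons.2 ⟨bad34, List.forall_mem_cons.2 ⟨bad26, List.forall_mem_cons.2 ⟨bad25, List.forall_mem_cons.2 ⟨bad33, fun _ h => absurd h List.not_mem_nil⟩⟩⟩⟩⟩⟩) t63 s63 run63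

end Pool.Agent.WN.Data
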