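import Pool.Agent.WN.CutRow
import Pool.Agent.WN.LeafRow
import Pool.Agent.Helper99.WN.ParDef
import Pool.Agent.WN.Data.D15
import Pool.Agent.WN.Data.D31
import Pool.Agent.WN.Data.D39
import Pool.Agent.WN.Data.D40
import Pool.Agent.WN.Data.D42
import Pool.Agent.WN.Data.D43
import Pool.Agent.WN.Data.D44

/-!
# The search tree, part 45
-/

set_option autoImplicit false

namespace Pool.Agent.WN.Data

open Pool.Agent.W3 Pool.Agent.WN Pool.Agent.Helper99.WN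

/-- the state above piece 182 of the tree -/
def s182 : St := ⟨[0, 0, 1, 3, 5, 15, 21, 31, 47], [31, 23, 21, 15, 11, 7, 5, 3, 2, 1, 0], [0, 1, 2, 3, 4, 5],
  [(5, 6), (4, 5)],
  [⟨true, 2, 3, 3, 10⟩, ⟨true, 1, 5, 2, 5⟩, ⟨true, 2, 3, 23, 50⟩, ⟨true, 1, 5, 12, 25⟩, ⟨true, 1, 21, 27, 50⟩, ⟨true, 4, 15, 9, 40⟩, ⟨true, 3, 23, 11, 20⟩, ⟨true, 4, 47, 7, 20⟩, ⟨true, 4, 47, 17, 40⟩, ⟨true, 4, 47, 9, 20⟩, ⟨true, 4, 47, 19, 40⟩, ⟨true, 3, 87, 27, 40⟩, ⟨true, 5, 95, 1, 4⟩, ⟨true, 5, 159, 1, 4⟩],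
  [.spn 0 0 651200, .spn 1 1 302400, .spn 3 2 302400, .spn 7 3 302400, .spn 15 4 302400, .spn 31 5 140426]⟩

/-- piece 182 of the tree -/
noncomputable def t182 : WN.Tree :=
(.mark 63 [6, 7, 8]
(.spn
(.haz 8 191 7 40
(.haz 7 127 7 40
(.haz 6 191 11 40
(.lp [[7], [0, 2, 4, 6], [1, 3, 5, 8]] [(.mj 3 4, 581), (.mj 6 7, 17), (.mj 6 8, 175), (.hz 10 303, 15571), (.hz 16 191, 23403), (.hz 14 191, 67789)])
(.lp [[7], [0, 2, 4, 6], [1, 3, 5, 8]] [(.mj 3 4, 16), (.mj 6 7, 4), (.mj 6 8, 9), (.hz 16 63, 1643), (.hz 10 303, 221), (.hz 15 127, 99), (.hz 14 191, 4210)]))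
(.lp [[7], [0, 2, 4, 6], [1, 3, 5, 8]] [(.mj 3 4, 1043), (.mj 6 8, 315), (.hz 15 31, 1728), (.hz 15 63, 22955), (.hz 10 303, 26132), (.hz 14 191, 113183)]))
(.lp [[7], [0, 2, 4, 6], [1, 3, 5, 8]] [(.mj 3 4, 6), (.mj 6 7, 1), (.hz 14 47, 255), (.hz 14 63, 293)]))
(.haz 7 127 7 40
(.ref 0)
(.lp [[7], [0, 2, 4, 6], [1, 3, 5, 8]] [(.mj 7 6, 1), (.mj 7 8, 1), (.hz 14 31, 153), (.hz 14 63, 270)]))
(.haz 6 23 11 50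
(.lp [[7], [0, 2, 4, 6], [1, 3, 5, 8]] [(.mj 4 5, 4), (.mj 8 6, 7), (.hz 14 23, 241), (.hz 14 31, 502), (.hz 14 63, 1209), (.hz 13 159, 5404), (.hz 14 159, 782), (.hz 14 191, 1997)])
(.haz 6 159 3 40
(.haz 5 159 7 20
(.haz 5 159 17 40
(.haz 5 159 19 40
(.ask 303
(.mark 319 [6, 7, 9]
(.spn
(.haz 7 319 1 5
(.lp [[7], [0, 2, 4, 6], [1, 3, 5, 8, 9]] [(.mj 4 5, 4335), (.mj 6 7, 2966), (.mj 8 6, 3624), (.rw 7, 1), (.hz 18 159, 194765), (.hz 19 319, 4820444), (.hz 19 383, 17205362), (.hz 19 831, 8898346)])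
(.haz 7 95 1 8
(.lp [[7], [0, 2, 4, 6], [1, 3, 5, 8, 9]] [(.mj 4 5, 34674), (.mj 8 6, 19381), (.rw 7, 4), (.hz 19 31, 25368077), (.hz 19 63, 18714155), (.hz 20 95, 13627480), (.hz 20 127, 50660269), (.hz 19 319, 10396753)])
(.lp [[7], [0, 2, 4, 6], [1, 3, 5, 8, 9]] [(.mj 4 5, 10552), (.mj 8 6, 6378), (.rw 7, 1), (.hz 20 31, 4342020), (.hz 19 63, 3435385), (.hz 15 159, 896904), (.hz 15 191, 3030556), (.hz 19 319, 2918732)])))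
(.haz 9 447 9 40
(.haz 5 95 19 40
(.haz 6 159 1 8
(.haz 6 63 3 20
(.ask 159
(.mark 159 [5, 6, 10]
(.lp [[6], [0, 2, 4, 7, 10], [1, 3, 5, 8, 9]] [(.mj 4 5, 31), (.mj 7 6, 27), (.mj 8 7, 19), (.hz 22 63, 5560), (.hz 21 159, 11252), (.hz 22 191, 21474), (.hz 22 319, 12100), (.hz 18 1183, 1786), (.hz 22 831, 19794)]))
(.lp [[7], [0, 2, 4, 6], [1, 3, 5, 8, 9]] [(.mj 4 5, 43), (.mj 7 6, 38), (.mj 8 7, 26), (.hz 22 63, 7988), (.hz 22 191, 36448), (.hz 22 319, 17387), (.hz 22 831, 28443)]))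
(.lp [[7], [0, 2, 4, 6], [1, 3, 5, 8, 9]] [(.mj 4 5, 47), (.mj 8 7, 23), (.hz 22 21, 912), (.hz 22 23, 3808), (.hz 22 31, 9040), (.hz 22 63, 10635), (.hz 18 159, 1401), (.hz 21 159, 25100), (.hz 21 191, 67925)]))
(.lp [[7], [0, 2, 4, 6], [1, 3, 5, 8, 9]] [(.mj 0 1, 458), (.mj 7 6, 4), (.mj 8 7, 19), (.hz 21 21, 14640), (.hz 21 23, 19751), (.hz 21 31, 22573), (.hz 18 159, 1170), (.hz 15 159, 5552), (.hz 15 191, 9286)]))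
(.lp [[7], [0, 2, 4, 6], [1, 3, 5, 8, 9]] [(.mj 3 4, 47), (.mj 8 7, 8), (.hz 20 15, 2855), (.hz 20 31, 2154), (.hz 18 159, 1960), (.hz 15 159, 1704), (.hz 15 191, 3409)]))
(.cut 6 [(0, 1), (1, 1), (2, 1), (3, 1), (5, 1), (7, 1), (11, 1), (21, 1), (15, 1), (23, 1), (31, 1), (47, 1), (63, 1), (159, 1), (303, 1), (319, 1), (815, 1)]
(.lp [[7], [0, 2, 4, 6], [1, 3, 5, 8, 9]] [(.mj 4 5, 740), (.mj 7 6, 1887), (.mj 8 7, 3063), (.hz 15 159, 903243), (.hz 19 303, 282721), (.hz 15 191, 927718), (.hz 19 319, 488398), (.rw 8, 1)])))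
(.haz 7 319 3 20
(.cut 6 [(0, 1), (1, 1), (2, 1), (3, 1), (5, 1), (7, 1), (11, 1), (21, 1), (15, 1), (23, 1), (31, 1), (47, 1), (63, 1), (303, 1), (815, 1)]
(.lp [[7], [0, 2, 4, 6], [1, 3, 5, 8, 9]] [(.mj 4 5, 1734), (.mj 9 6, 1471), (.mj 9 7, 1283), (.hz 10 47, 258072), (.hz 18 159, 14304), (.hz 15 159, 263075), (.hz 15 191, 740877), (.hz 19 319, 475469), (.hz 19 383, 4064924), (.rw 8, 1)]))
(.lp [[7], [0, 2, 4, 6], [1, 3, 5, 8, 9]] [(.mj 4 5, 3), (.mj 9 6, 1), (.hz 14 21, 8), (.hz 14 23, 229), (.hz 19 31, 705), (.hz 19 63, 507), (.hz 19 319, 274)]))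
.fin))
(.haz 1 85 7 10
(.haz 6 63 3 25
(.ask 319
(.mark 319 [6, 7, 9]
(.spn
(.haz 6 831 6 25
(.haz 6 191 9 50
(.haz 7 319 1 10
(.haz 3 87 37 50
(.haz 5 159 14 25
(.haz 6 159 7 50
(.haz 3 87 39 50
(.haz 7 831 7 50
(.ask 831
(.maj 7 9
(.mark 831 [6, 7, 10]
(.lp [[7], [0, 2, 4, 6], [1, 3, 5, 8, 9, 10]] [(.mj 4 5, 3), (.mj 6 7, 34), (.mj 7 9, 28), (.mj 8 6, 89), (.hz 26 159, 16095), (.hz 22 191, 42285), (.hz 21 831, 30559), (.hz 28 831, 6951), (.hz 28 1855, 8083)]))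
(.haz 5 159 3 5
(.lp [[7], [0, 2, 4, 6], [1, 3, 5, 8, 9, 10]] [(.mj 4 5, 2999), (.mj 6 9, 904), (.mj 8 6, 2832), (.mj 9 7, 1184), (.hz 29 159, 1704713), (.hz 26 159, 537960), (.hz 22 191, 1440388), (.hz 23 383, 3478700), (.hz 28 831, 474790)])
(.lp [[7], [0, 2, 4, 6], [1, 3, 5, 8, 9, 10]] [(.mj 6 9, 7), (.mj 8 6, 21), (.mj 9 7, 9), (.hz 29 31, 23370), (.hz 25 159, 4628), (.hz 26 159, 3922), (.hz 22 191, 11489), (.hz 23 383, 26342), (.hz 28 831, 3595)])))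
(.lp [[7], [0, 2, 4, 6], [1, 3, 5, 8, 9]] [(.mj 4 5, 6), (.mj 6 7, 7), (.mj 8 6, 16), (.hz 26 159, 2734), (.hz 22 191, 1063), (.hz 28 895, 6503)]))
(.lp [[7], [0, 2, 4, 6], [1, 3, 5, 8, 9]] [(.mj 4 5, 58), (.mj 6 9, 12), (.mj 8 6, 43), (.hz 28 31, 4373), (.hz 28 63, 1247), (.hz 26 159, 4831), (.hz 22 191, 15775), (.hz 28 319, 3429), (.hz 23 831, 31034)]))
(.lp [[7], [0, 2, 4, 6], [1, 3, 5, 8, 9]] [(.mj 4 5, 492), (.mj 6 9, 753), (.mj 8 6, 4166), (.rw 7, 1), (.hz 27 23, 578764), (.hz 24 87, 403050), (.hz 26 159, 468663), (.hz 22 191, 2003173), (.hz 23 831, 1977891)]))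
(.lp [[7], [0, 2, 4, 6], [1, 3, 5, 8, 9]] [(.mj 0 1, 406), (.mj 4 5, 443), (.rw 7, 1), (.hz 26 21, 1417), (.hz 26 31, 481972), (.hz 25 159, 226514), (.hz 22 191, 805384)]))
(.lp [[7], [0, 2, 4, 6], [1, 3, 5, 8, 9]] [(.mj 8 6, 36037), (.mj 8 7, 13496), (.rw 7, 19), (.hz 25 31, 14264604), (.hz 18 159, 10427006), (.hz 22 191, 28632686)]))
(.lp [[7], [0, 2, 4, 6], [1, 3, 5, 8, 9]] [(.hz 14 21, 1), (.hz 24 23, 81), (.hz 14 23, 79)]))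
(.lp [[7], [0, 2, 4, 6], [1, 3, 5, 8, 9]] [(.mj 4 5, 256), (.mj 6 9, 50), (.mj 8 6, 183), (.hz 23 31, 106839), (.hz 22 191, 89248), (.hz 23 319, 59786)]))
(.lp [[7], [0, 2, 4, 6], [1, 3, 5, 8, 9]] [(.mj 4 5, 5398), (.rw 7, 8), (.hz 22 21, 2482), (.hz 22 23, 10473), (.hz 22 31, 25183), (.hz 22 63, 3495777), (.hz 18 159, 66271), (.hz 20 191, 6337131)]))
(.lp [[7], [0, 2, 4, 6], [1, 3, 5, 8, 9]] [(.mj 4 5, 477), (.mj 6 9, 160), (.rw 7, 1), (.hz 20 191, 135577), (.hz 21 319, 813461)]))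
(.haz 6 31 9 50
(.lp [[7], [0, 2, 4, 6], [1, 3, 5, 8, 9]] [(.mj 7 6, 3), (.mj 8 7, 1), (.hz 21 31, 336), (.hz 21 63, 409), (.hz 21 159, 197), (.hz 21 191, 479), (.hz 21 319, 619), (.hz 21 831, 755)])
(.haz 6 31 4 25
(.lp [[7], [0, 2, 4, 6], [1, 3, 5, 8, 9]] [(.mj 0 1, 42), (.mj 7 6, 28), (.mj 8 7, 9), (.hz 22 31, 4972), (.hz 22 63, 7163), (.hz 22 159, 3279), (.hz 22 191, 8229), (.hz 22 319, 11013), (.hz 22 831, 13111)])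
(.haz 6 159 3 25
(.maj 6 9
(.ask 159
(.mark 447 [6, 9, 10]
(.lp [[6], [0, 2, 4, 7, 10], [1, 3, 5, 8, 9]] [(.mj 6 9, 670), (.mj 7 6, 761), (.mj 8 7, 1330), (.rw 7, 1), (.hz 23 159, 674377), (.hz 20 191, 722117), (.hz 20 831, 361623)]))
(.ask 191
(.mark 447 [6, 9, 10]
(.lp [[6], [0, 2, 4, 7, 10], [1, 3, 5, 8, 9]] [(.mj 6 9, 1124), (.mj 7 6, 1278), (.mj 8 7, 2312), (.rw 7, 2), (.hz 23 159, 1184275), (.hz 20 191, 1335358), (.hz 20 1215, 2361314), (.hz 20 831, 606939)]))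
(.ask 447
(.mark 447 [6, 9, 10]
(.spn
(.haz 9 447 9 25
(.lp [[6], [0, 2, 4, 7, 10], [1, 3, 5, 8, 9]] [(.mj 6 9, 7), (.mj 7 6, 8), (.mj 8 7, 7), (.hz 24 447, 4601), (.hz 20 831, 3696), (.hz 24 1471, 7189)])
(.lp [[6], [0, 2, 4, 7, 10], [1, 3, 5, 8, 9]] [(.mj 4 5, 575), (.mj 7 6, 1260), (.mj 8 7, 2301), (.rw 8, 2), (.hz 24 319, 598463), (.hz 20 831, 598463)]))
(.con 9 6)
(.lp [[6], [0, 2, 4, 7, 10], [1, 3, 5, 8, 9]] [(.mj 4 5, 4), (.mj 8 7, 1), (.mj 10 6, 3), (.hz 20 63, 578), (.hz 23 159, 654), (.hz 20 191, 2196), (.hz 20 319, 1236), (.hz 20 447, 3104), (.hz 20 831, 1404)])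
.fin))
(.lp [[7], [0, 2, 4, 6], [1, 3, 5, 8, 9]] [(.mj 6 9, 2), (.mj 7 6, 1), (.mj 8 6, 2)]))))
(.lp [[7], [0, 2, 4, 6], [1, 3, 5, 8, 9]] [(.mj 4 5, 18), (.mj 7 9, 13), (.mj 8 7, 21), (.mj 9 6, 28), (.hz 20 63, 2574), (.hz 23 159, 13491), (.hz 20 191, 34679), (.hz 20 319, 5499), (.hz 20 447, 29234), (.hz 20 831, 14736)]))
(.lp [[7], [0, 2, 4, 6], [1, 3, 5, 8, 9]] [(.mj 0 1, 732), (.mj 8 7, 20), (.hz 23 21, 7452), (.hz 23 23, 10034), (.hz 23 31, 11403), (.hz 18 159, 3034), (.hz 15 159, 6738), (.hz 20 191, 13960)]))))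
(.ask 831
(.mark 831 [6, 7, 10]
(.spn
(.lp [[7], [0, 2, 4, 6], [1, 3, 5, 8, 9, 10]] [(.mj 4 5, 7778), (.mj 9 6, 1180), (.rw 7, 2), (.rw 8, 4), (.hz 18 159, 349447)])
(.lp [[7], [0, 2, 4, 6], [1, 3, 5, 8, 9, 10]] [(.mj 4 5, 2850), (.rw 7, 1), (.rw 8, 2), (.hz 20 63, 404834), (.hz 20 319, 864873)])
(.lp [[7], [0, 2, 4, 6], [1, 3, 5, 8, 9, 10]] [(.mj 4 5, 39087), (.mj 10 6, 7720), (.rw 8, 13), (.hz 20 63, 5552139), (.hz 18 159, 2114203), (.hz 15 159, 1085672), (.hz 20 191, 4439192), (.hz 20 319, 11861387), (.hz 20 831, 13478849)])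
.fin))
(.lp [[7], [0, 2, 4, 6], [1, 3, 5, 8, 9]] [(.mj 9 7, 1), (.rw 7, 1)]))
.fin))
(.lp [[7], [0, 2, 4, 6], [1, 3, 5, 8]] [(.mj 8 6, 3), (.mj 8 7, 2), (.hz 20 191, 5758)]))
(.lp [[7], [0, 2, 4, 6], [1, 3, 5, 8]] [(.mj 0 1, 220), (.mj 8 7, 6), (.hz 20 21, 2241), (.hz 20 23, 3020), (.hz 20 31, 2139), (.hz 20 63, 1138), (.hz 18 159, 812), (.hz 15 159, 1325), (.hz 15 191, 2650)]))
(.lp [[7], [0, 2, 4, 6], [1, 3, 5, 8]] [(.hz 19 21, 22), (.hz 14 21, 4)])))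
(.lp [[7], [0, 2, 4, 6], [1, 3, 5, 8]] [(.mj 3 4, 417), (.mj 8 7, 73), (.hz 18 15, 25450), (.hz 18 31, 19208), (.hz 17 159, 18306), (.hz 15 159, 15919), (.hz 15 191, 31837)]))
(.lp [[7], [0, 2, 4, 6], [1, 3, 5, 8]] [(.mj 3 4, 10), (.mj 8 7, 2), (.hz 17 15, 618), (.hz 17 31, 450), (.hz 16 159, 906)]))
(.lp [[7], [0, 2, 4, 6], [1, 3, 5, 8]] [(.mj 3 4, 5), (.mj 8 7, 1), (.hz 16 15, 719), (.hz 13 159, 1011)]))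
(.lp [[7], [0, 2, 4, 6], [1, 3, 5, 8]] [(.mj 0 1, 113), (.mj 8 7, 4), (.hz 15 21, 690), (.hz 15 23, 913), (.hz 15 31, 987), (.hz 13 159, 4997)])))
.fin))

theorem run182 : run P3488 (leaf3 218 625) (cutRow P3488) [s180] t182 s182 = true := by
  decide +kernel

theorem bad182 : Bad P3488 s182 :=
  run_sound (leaf3_sound P3488 rfl rfl) (cutRow_sound P3488) (
    List.forall_mem_cons.2 ⟨bad180, fun _ h => absurd h List.not_mem_nil⟩) t182 s182 run182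

/-- the state above piece 255 of the tree -/
def s255 : St := ⟨[0, 0, 1, 3, 5, 5], [3, 2, 1, 0], [0, 1, 2],
  [],
  [⟨true, 2, 3, 3, 10⟩, ⟨true, 1, 5, 2, 5⟩, ⟨true, 2, 3, 23, 50⟩, ⟨true, 1, 5, 12, 25⟩],
  [.spn 0 0 651200, .spn 1 1 302400, .spn 3 2 302400]⟩

/-- piece 255 of the tree -/
noncomputable def t255 : WN.Tree :=
(.mark 7 [3, 4, 5]
(.spn
(.haz 2 11 12 25
(.ask 11
(.mark 15 [4, 5, 6]
(.spn
(.haz 4 79 11 50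
(.ask 21
(.ref 0)
(.haz 5 31 1 50
(.haz 3 39 7 25
(.haz 5 31 1 25
(.ask 23
(.mark 31 [5, 6, 7]
(.spn
(.haz 6 159 2 25
(.haz 5 159 3 25
(.haz 6 31 13 50
(.haz 6 47 11 50
(.ask 75
(.mark 79 [4, 5, 8]
(.lp [[5], [0, 2, 4, 7], [1, 3, 6, 8]] [(.mj 1 2, 27584), (.mj 3 4, 27910), (.mj 4 5, 28282), (.mj 5 6, 36719), (.mj 5 7, 373), (.rw 5, 1), (.hz 12 47, 2350883), (.hz 4 331, 557889), (.hz 11 63, 1703527), (.hz 10 159, 4131739), (.hz 11 159, 7744818), (.hz 5 335, 1830798), (.hz 8 351, 6363549)]))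
(.lp [[5], [1, 3, 6], [0, 2, 4, 7]] [(.mj 1 2, 22810), (.mj 3 4, 22217), (.mj 4 5, 22217), (.mj 5 6, 29328), (.rw 5, 1), (.hz 11 31, 1447394), (.hz 12 47, 1944002), (.hz 5 79, 412021), (.hz 10 159, 3347387), (.hz 11 159, 4765723)]))
(.lp [[5], [1, 3, 6], [0, 2, 4, 7]] [(.mj 3 4, 76), (.mj 4 5, 93), (.mj 5 6, 59), (.mj 5 7, 19), (.hz 12 11, 876), (.hz 12 15, 2437), (.hz 11 63, 8115), (.hz 10 159, 9912), (.hz 11 159, 13360)]))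
(.haz 5 79 9 50
(.lp [[5], [1, 3, 6], [0, 2, 4, 7]] [(.mj 3 4, 474484), (.mj 4 5, 325811), (.rw 5, 163), (.hz 11 11, 8878698), (.hz 11 15, 18381787), (.hz 11 31, 17472449), (.hz 12 79, 28508505), (.hz 10 159, 114812379)])
(.lp [[5], [1, 3, 6], [0, 2, 4, 7]] [(.mj 1 2, 2), (.mj 3 4, 3), (.hz 12 7, 61), (.hz 11 11, 68), (.hz 12 15, 229), (.hz 11 15, 229), (.hz 11 31, 164), (.hz 10 159, 938)])))
(.lp [[5], [1, 3, 6], [0, 2, 4, 7]] [(.mj 3 4, 2), (.mj 5 6, 3), (.mj 5 7, 2), (.hz 10 5, 73), (.hz 10 7, 230), (.hz 10 15, 408), (.hz 10 31, 636), (.hz 5 79, 21)]))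
(.lp [[5], [1, 3, 6], [0, 2, 4, 7]] [(.mj 3 4, 2), (.mj 4 5, 2), (.mj 5 7, 1), (.hz 9 11, 118), (.hz 9 15, 305), (.hz 9 31, 319)]))
(.ref 1)
(.haz 5 23 7 50
(.lp [[5], [1, 3, 6], [0, 2, 4, 7]] [(.mj 3 4, 7), (.mj 7 5, 7), (.mj 7 6, 5), (.hz 9 23, 1051), (.hz 4 75, 197), (.hz 9 31, 591), (.hz 5 79, 984), (.hz 9 151, 188), (.hz 9 95, 4325)])
(.haz 4 47 13 50
(.ask 75
(.mark 95 [5, 7, 8]
(.cut 5 [(0, 1), (1, 1), (2, 1), (3, 1), (5, 1), (7, 1), (11, 1), (21, 1), (15, 1), (23, 1), (75, 1), (31, 1), (79, 1), (331, 1), (95, 1)]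
(.cut 6 [(0, 1), (1, 1), (2, 1), (3, 1), (5, 1), (7, 1), (11, 1), (21, 1), (37, 1), (15, 1), (23, 1), (39, 1), (53, 1), (31, 1), (47, 2), (55, 1), (151, 1), (63, 2), (183, 1)]
(.lp [[5], [0, 2, 4, 7], [1, 3, 6, 8]] [(.mj 3 4, 100571), (.mj 7 5, 5049), (.mj 7 6, 52838), (.hz 9 5, 820383), (.hz 9 7, 3174990), (.hz 4 75, 7424024), (.hz 10 47, 8892519), (.hz 10 111, 6394050), (.hz 5 335, 1842964), (.hz 10 367, 7531927), (.rw 6, 46), (.rw 7, 7)]))))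
(.cut 5 [(0, 1), (1, 1), (2, 1), (3, 1), (5, 1), (7, 1), (11, 1), (21, 1), (15, 1), (23, 1), (75, 1), (31, 1)]
(.lp [[5], [1, 3, 6], [0, 2, 4, 7]] [(.mj 3 4, 2868), (.mj 7 6, 1349), (.hz 9 5, 20112), (.hz 9 7, 113955), (.hz 10 47, 238276), (.hz 5 79, 99131), (.hz 10 111, 127766), (.rw 6, 1)])))
(.lp [[5], [1, 3, 6], [0, 2, 4, 7]] [(.mj 7 6, 1), (.hz 9 5, 7), (.hz 10 7, 127), (.hz 9 7, 163), (.hz 3 53, 30), (.hz 5 79, 66)])))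
.fin))
(.ask 31
(.ref 2)
(.spn
(.haz 6 63 7 50
(.lp [[5], [0, 2, 4], [1, 3, 6]] [(.mj 3 4, 2), (.mj 4 5, 20), (.mj 5 6, 12), (.hz 9 63, 2736)])
(.lp [[5], [0, 2, 4], [1, 3, 6]] [(.mj 3 4, 1), (.mj 4 5, 1), (.hz 9 11, 21), (.hz 9 15, 55), (.hz 9 31, 59)]))
(.haz 5 31 3 25
(.haz 5 23 4 25
(.lp [[5], [0, 2, 4], [1, 3, 6]] [(.mj 4 6, 7), (.mj 6 5, 4), (.hz 10 95, 2115)])
(.haz 5 79 7 50
(.lp [[5], [0, 2, 4], [1, 3, 6]] [(.mj 4 6, 7), (.mj 6 5, 4), (.hz 11 79, 1131)])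
(.lp [[5], [0, 2, 4], [1, 3, 6]] [(.mj 4 6, 22), (.hz 11 5, 114), (.hz 11 7, 359), (.hz 10 21, 270), (.hz 11 15, 645), (.hz 10 23, 4803), (.hz 9 95, 7158)])))
(.lp [[5], [0, 2, 4], [1, 3, 6]] [(.mj 0 1, 1), (.hz 9 5, 10), (.hz 9 7, 3), (.hz 9 21, 12), (.hz 9 23, 17), (.hz 9 31, 8), (.hz 8 95, 17)]))
.fin
.fin)))
(.cut 5 [(0, 1), (1, 1), (2, 1), (3, 1), (5, 1), (7, 1), (11, 1), (21, 1), (15, 1), (75, 1)]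
(.lp [[5], [0, 2, 4], [1, 3, 6]] [(.mj 0 1, 21657), (.mj 3 4, 4712), (.hz 8 5, 237047), (.hz 8 7, 157042), (.hz 8 15, 388290), (.hz 3 53, 3019), (.hz 6 31, 229498), (.rw 5, 1)])))
(.lp [[5], [0, 2, 4], [1, 3, 6]] [(.mj 1 2, 1), (.hz 7 3, 25), (.hz 7 7, 15)]))
(.lp [[5], [0, 2, 4], [1, 3, 6]] [(.mj 0 1, 74), (.mj 3 4, 16), (.hz 6 5, 402), (.hz 6 7, 270), (.hz 6 15, 137)])))
(.lp [[5], [0, 2, 4], [1, 3, 6]] [(.mj 0 1, 682), (.mj 4 5, 266), (.mj 4 6, 266), (.rw 4, 1), (.hz 5 5, 3330), (.hz 5 15, 136244)]))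
(.con 5 4)
(.haz 3 39 8 25
(.ask 75
(.mark 79 [4, 5, 7]
(.spn
(.haz 5 79 3 25
(.haz 5 23 4 25
(.lp [[5], [0, 2, 4], [1, 3, 6, 7]] [(.mj 2 3, 95081), (.mj 4 5, 66481), (.mj 6 4, 65308), (.rw 5, 16), (.hz 3 21, 535311), (.hz 3 37, 474217), (.hz 7 23, 8163492), (.hz 5 39, 3615906), (.hz 7 31, 21623294), (.hz 7 95, 7914685), (.hz 6 207, 22872896)])
(.lp [[5], [0, 2, 4], [1, 3, 6, 7]] [(.mj 0 1, 915), (.mj 2 3, 3181), (.mj 4 5, 433), (.mj 6 4, 2722), (.rw 5, 1), (.hz 7 5, 57217), (.hz 7 7, 257475), (.hz 6 95, 1238827), (.hz 6 207, 97528)]))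
(.lp [[5], [0, 2, 4], [1, 3, 6, 7]] [(.mj 0 1, 3), (.mj 2 3, 40), (.mj 6 4, 29), (.hz 6 5, 717), (.hz 6 7, 2151), (.hz 6 15, 1523), (.hz 6 79, 810)]))
(.con 5 4)
(.cut 5 [(0, 1), (1, 1), (2, 1), (3, 1), (5, 1), (7, 1), (11, 1), (15, 1), (75, 1), (203, 1)]
(.cut 4 [(0, 1), (1, 1), (2, 1), (3, 1), (5, 1), (7, 1), (11, 1), (15, 1), (75, 1), (79, 1), (203, 1)]
(.cut 5 [(0, 1), (1, 1), (2, 1), (3, 1), (5, 1), (7, 1), (11, 1), (15, 1), (75, 1), (79, 1), (203, 1)]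
(.lp [[5], [0, 2, 4], [1, 3, 6, 7]] [(.mj 2 3, 107993), (.mj 4 5, 89662), (.mj 7 4, 91480), (.mj 7 5, 1818), (.hz 4 11, 10383969), (.hz 4 75, 4624057), (.hz 3 53, 1657724), (.hz 5 55, 5351250), (.rw 6, 28), (.rw 7, 22), (.rw 8, 50)]))))
.fin))
(.ask 79
(.mark 79 [4, 5, 7]
(.spn
(.haz 5 15 9 50
(.lp [[5], [0, 2, 4], [1, 3, 6, 7]] [(.mj 2 3, 2245), (.mj 4 5, 2117), (.mj 6 4, 2117), (.rw 5, 1), (.hz 6 15, 68443), (.hz 6 31, 535310), (.hz 6 79, 151910), (.hz 6 207, 185256)])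
(.haz 4 37 4 25
(.ask 37
(.mark 111 [4, 7, 8]
(.lp [[4], [0, 2, 5, 8], [1, 3, 6, 7]] [(.mj 0 1, 305), (.mj 2 3, 5639), (.mj 4 5, 53), (.mj 4 7, 400), (.mj 6 4, 3994), (.rw 5, 1), (.hz 6 5, 34572), (.hz 6 7, 90296), (.hz 7 37, 83879), (.hz 7 39, 319539), (.hz 7 293, 99856), (.hz 7 47, 935278), (.hz 7 295, 499279), (.hz 7 303, 1736748)]))
(.lp [[5], [0, 2, 4], [1, 3, 6, 7]] [(.mj 0 1, 22572), (.mj 6 4, 5355), (.rw 5, 2), (.hz 6 7, 157464), (.hz 3 21, 208036), (.hz 5 39, 187603), (.hz 7 39, 327505), (.hz 3 53, 208036), (.hz 7 47, 1777582)]))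
(.lp [[5], [0, 2, 4], [1, 3, 6, 7]] [(.mj 0 1, 21), (.mj 6 4, 1), (.hz 7 5, 463), (.hz 6 5, 164), (.hz 6 7, 120), (.hz 6 15, 66)])))
(.con 5 4)
(.haz 5 79 2 25
(.cut 5 [(0, 1), (1, 1), (2, 1), (3, 1), (5, 1), (7, 1), (11, 1), (15, 1), (75, 1), (79, 1)]
(.cut 4 [(0, 1), (1, 1), (2, 1), (3, 1), (5, 1), (7, 1), (11, 1), (15, 1), (75, 1), (79, 1)]
(.cut 5 [(0, 1), (1, 1), (2, 1), (3, 1), (5, 1), (7, 1), (11, 1), (21, 2), (15, 1), (23, 2), (75, 1), (31, 1), (79, 1), (95, 1)]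
(.lp [[5], [0, 2, 4], [1, 3, 6, 7]] [(.mj 2 3, 2947286), (.mj 7 4, 282234), (.rw 5, 901), (.hz 3 37, 14699682), (.hz 5 39, 112085078), (.hz 3 53, 34414119), (.hz 6 79, 87299266), (.hz 5 55, 240358135), (.hz 6 95, 450658839), (.rw 6, 180), (.rw 7, 1733), (.rw 8, 409)]))))
(.cut 4 [(0, 1), (1, 1), (2, 1), (3, 1), (5, 1), (7, 1), (11, 1), (75, 1)]
(.cut 5 [(0, 1), (1, 1), (2, 1), (3, 1), (5, 1), (7, 1), (11, 1), (15, 1), (75, 1)]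
(.lp [[5], [0, 2, 4], [1, 3, 6, 7]] [(.mj 0 1, 908), (.mj 2 3, 20677), (.mj 7 4, 11349), (.hz 6 5, 283737), (.hz 6 7, 851211), (.hz 6 15, 344302), (.hz 3 53, 116286), (.hz 6 79, 2376878), (.rw 6, 5), (.rw 7, 8)]))))
.fin))
(.lp [[5], [0, 2, 4], [1, 3, 6]] [(.mj 4 5, 5), (.mj 6 4, 9)])))
(.lp [[5], [0, 2, 4], [1, 3, 6]] [(.mj 1 2, 11), (.mj 6 4, 1), (.mj 6 5, 1), (.hz 5 3, 530)]))
.fin))
(.haz 5 31 3 50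
(.haz 3 39 21 50
(.ask 15
(.mark 15 [4, 5, 6]
(.spn
(.ref 3)
(.con 5 4)
(.ask 79
(.mark 79 [4, 5, 7]
(.spn
(.haz 5 23 3 25
(.lp [[5], [0, 2, 4], [1, 3, 6, 7]] [(.mj 6 4, 1230), (.rw 5, 2), (.hz 7 23, 349429), (.hz 7 31, 676622)])
(.ask 21
(.mark 21 [1, 5, 8]
(.lp [[5], [0, 2, 4, 8], [1, 3, 6, 7]] [(.mj 0 1, 51576), (.mj 6 4, 13374), (.rw 5, 13), (.hz 7 5, 562588), (.hz 7 7, 299249), (.hz 3 277, 475519), (.hz 5 31, 3763420)]))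
(.lp [[5], [0, 2, 4], [1, 3, 6, 7]] [(.mj 0 1, 8496), (.mj 6 4, 1420), (.rw 5, 1), (.hz 7 5, 92675), (.hz 7 7, 49295), (.hz 3 53, 45187), (.hz 5 31, 315786)])))
(.con 5 4)
(.ask 207
(.mark 207 [4, 5, 8]
(.spn
(.lp [[5], [0, 2, 4], [1, 3, 6, 7, 8]] [(.mj 7 4, 1024), (.rw 6, 2)])
(.con 5 4)
(.cut 5 [(0, 1), (1, 1), (2, 1), (3, 1), (5, 1), (7, 1), (11, 1), (15, 1)]
(.cut 4 [(0, 1), (1, 1), (2, 1), (3, 1), (5, 1), (7, 1), (11, 1), (15, 1), (79, 1), (207, 1)]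
(.cut 5 [(0, 1), (1, 1), (2, 1), (3, 1), (5, 1), (7, 1), (11, 1), (21, 2), (15, 1), (23, 1), (31, 1), (79, 1), (95, 1)]
(.lp [[5], [0, 2, 4], [1, 3, 6, 7, 8]] [(.mj 0 1, 44708), (.mj 8 4, 7380), (.rw 6, 5), (.hz 3 21, 129605), (.hz 3 37, 513987), (.hz 6 39, 162419), (.hz 3 53, 732550), (.hz 5 31, 1800269), (.hz 5 95, 3962351), (.hz 5 223, 4237474), (.rw 7, 8), (.rw 8, 39), (.rw 9, 5)]))))
.fin))
(.lp [[5], [0, 2, 4], [1, 3, 6, 7]] [(.rw 5, 1)]))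
.fin))
(.lp [[5], [0, 2, 4], [1, 3, 6]] [(.rw 4, 1)]))
.fin))
(.spn
(.cut 5 [(0, 1), (1, 1), (2, 1), (3, 1), (5, 1), (7, 1), (11, 1), (15, 1)]
(.lp [[5], [1, 3], [0, 2, 4]] [(.mj 1 2, 6479), (.rw 5, 1)]))
(.con 5 4)
.fin
.fin))
(.lp [[5], [1, 3], [0, 2, 4]] [(.mj 1 2, 8), (.hz 6 7, 135)]))
(.cut 5 [(0, 1), (1, 1), (2, 1), (3, 1), (11, 1)]
(.lp [[5], [1, 3], [0, 2, 4]] [(.hz 5 5, 41215), (.hz 5 7, 82429), (.hz 5 15, 82429), (.rw 4, 2)]))))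
(.lp [[5], [1, 3], [0, 2, 4]] [(.mj 2 3, 2), (.hz 4 1, 34), (.hz 4 3, 98)]))
(.lp [[5], [1, 3], [0, 2, 4]] [(.mj 1 2, 5), (.mj 4 3, 2), (.hz 2 11, 32)])
(.con 5 4)
.fin))

theorem run255 : run P3488 (leaf3 218 625) (cutRow P3488) [s96, s89, s95, s106] t255 s255 = true := by
  decide +kernel

theorem bad255 : Bad P3488 s255 :=
  run_sound (leaf3_sound P3488 rfl rfl) (cutRow_sound P3488) (
    List.forall_mem_cons.2 ⟨bad96, List.forall_mem_cons.2 ⟨bad89, List.forall_mem_cons.2 ⟨bad95, List.forall_mem_cons.2 ⟨bad106, fun _ h => absurd h List.not_mem_nil⟩⟩⟩⟩) t255 s255 run255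

/-- the state above piece 232 of the tree -/
def s232 : St := ⟨[0, 0, 1, 3, 5, 15, 23, 31], [23, 21, 15, 11, 7, 5, 3, 2, 1, 0], [0, 1, 2, 3, 4],
  [(5, 6), (4, 5)],
  [⟨true, 2, 3, 3, 10⟩, ⟨true, 1, 5, 2, 5⟩, ⟨true, 2, 3, 23, 50⟩, ⟨true, 1, 5, 12, 25⟩, ⟨true, 1, 21, 27, 50⟩, ⟨true, 4, 15, 9, 40⟩, ⟨true, 3, 23, 11, 20⟩, ⟨true, 4, 47, 7, 20⟩, ⟨true, 4, 47, 17, 40⟩, ⟨true, 4, 47, 9, 20⟩, ⟨true, 4, 47, 19, 40⟩, ⟨true, 5, 95, 1, 5⟩, ⟨true, 5, 95, 3, 10⟩, ⟨true, 5, 31, 3, 10⟩],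
  [.spn 0 0 651200, .spn 1 1 302400, .spn 3 2 302400, .spn 7 3 302400, .spn 15 4 302400]⟩

/-- piece 232 of the tree -/
noncomputable def t232 : WN.Tree :=
(.mark 31 [5, 6, 7]
(.spn
(.ask 47
(.mark 63 [6, 7, 8]
(.spn
(.haz 8 191 7 40
(.haz 6 191 9 40
(.haz 8 191 9 40
(.haz 6 191 13 40
(.haz 8 63 7 20
(.ask 303
(.mark 319 [6, 7, 9]
(.cut 7 [(0, 1), (1, 1), (2, 1), (3, 1), (5, 1), (7, 1), (11, 1), (21, 1), (15, 1), (23, 1), (31, 1), (47, 1), (87, 1), (63, 1), (303, 1), (319, 1), (815, 1)]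
(.lp [[7], [0, 2, 4, 6], [1, 3, 5, 8, 9]] [(.mj 3 4, 37476), (.mj 6 8, 12686), (.hz 13 159, 1452284), (.hz 18 127, 1867222), (.hz 17 191, 395345), (.hz 18 191, 9744310), (.hz 10 815, 1072234), (.hz 17 447, 138622), (.rw 7, 1)])))
(.lp [[7], [0, 2, 4, 6], [1, 3, 5, 8]] [(.mj 3 4, 8), (.mj 6 8, 2), (.hz 17 191, 121), (.hz 18 191, 1242)]))
(.lp [[7], [0, 2, 4, 6], [1, 3, 5, 8]] [(.mj 3 4, 78), (.mj 6 7, 1), (.mj 6 8, 14), (.hz 18 47, 4479), (.hz 17 191, 3515), (.hz 16 191, 5429)]))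
(.lp [[7], [0, 2, 4, 6], [1, 3, 5, 8]] [(.mj 3 4, 35), (.mj 6 7, 7), (.mj 6 8, 19), (.hz 17 63, 3652), (.hz 10 303, 408), (.hz 15 191, 149), (.hz 16 191, 8716)]))
(.lp [[7], [0, 2, 4, 6], [1, 3, 5, 8]] [(.mj 3 4, 13), (.mj 6 7, 1), (.hz 16 47, 516), (.hz 16 63, 561), (.hz 15 191, 763)]))
(.lp [[7], [0, 2, 4, 6], [1, 3, 5, 8]] [(.mj 3 4, 2428), (.mj 6 7, 708), (.mj 6 8, 1494), (.rw 6, 1), (.hz 15 63, 674383), (.hz 14 191, 747098)]))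
(.lp [[7], [0, 2, 4, 6], [1, 3, 5, 8]] [(.mj 3 4, 9), (.mj 6 7, 1), (.hz 14 47, 342), (.hz 14 63, 365)]))
(.ref 0)
(.haz 6 159 1 10
(.haz 6 159 3 20
(.haz 5 95 2 5
(.haz 5 159 17 40
(.haz 6 63 7 40
(.ask 159
(.haz 3 87 27 40
(.mark 159 [5, 6, 9]
(.lp [[6], [1, 3, 5, 8], [0, 2, 4, 7, 9]] [(.mj 0 1, 32179), (.mj 8 6, 2480), (.mj 8 7, 149), (.hz 19 87, 149718), (.hz 18 63, 485450), (.hz 15 159, 472931), (.hz 18 191, 954155), (.hz 17 671, 212385), (.hz 15 671, 697480), (.hz 18 703, 1213627)]))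
(.lp [[6], [1, 3, 5, 8], [0, 2, 4, 7, 9]] [(.mj 3 4, 10653), (.rw 4, 8), (.hz 19 23, 986374)]))
(.ask 87
(.mark 95 [5, 7, 9]
(.lp [[7], [1, 3, 5, 8], [0, 2, 4, 6, 9]] [(.mj 0 1, 1867), (.mj 8 6, 136), (.mj 8 7, 9), (.hz 15 159, 30032), (.hz 6 599, 22529), (.hz 18 191, 76461), (.hz 18 319, 23809), (.hz 16 607, 190469)]))
(.lp [[7], [0, 2, 4, 6], [1, 3, 5, 8]] [(.mj 0 1, 168), (.mj 8 6, 12), (.mj 8 7, 1), (.hz 18 63, 2206), (.hz 18 191, 5517)])))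
(.lp [[7], [0, 2, 4, 6], [1, 3, 5, 8]] [(.mj 0 1, 39), (.mj 8 7, 1), (.hz 18 23, 319), (.hz 18 31, 232), (.hz 18 63, 127), (.hz 17 159, 150), (.hz 15 159, 400), (.hz 15 191, 830)]))
(.lp [[7], [0, 2, 4, 6], [1, 3, 5, 8]] [(.mj 3 4, 13), (.mj 8 7, 2), (.hz 17 15, 744), (.hz 17 31, 472), (.hz 13 159, 1746), (.hz 15 159, 811)]))
(.lp [[7], [0, 2, 4, 6], [1, 3, 5, 8]] [(.mj 3 4, 7), (.mj 8 7, 1), (.hz 16 15, 3154), (.hz 16 31, 1972), (.hz 13 159, 911), (.hz 15 159, 423)]))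
(.lp [[7], [0, 2, 4, 6], [1, 3, 5, 8]] [(.mj 0 1, 165), (.mj 8 7, 5), (.hz 15 23, 2664), (.hz 15 31, 3134), (.hz 13 159, 2924), (.hz 14 159, 5992), (.hz 14 191, 8106)]))
(.lp [[7], [0, 2, 4, 6], [1, 3, 5, 8]] [(.mj 0 1, 25), (.mj 8 7, 1), (.hz 14 23, 786), (.hz 14 31, 874), (.hz 13 159, 419)]))
.fin))
(.ask 63
(.mark 63 [6, 7, 8]
(.spn
(.lp [[7], [0, 2, 4, 6], [1, 3, 5, 8]] [(.mj 3 4, 53), (.mj 6 7, 5), (.mj 6 8, 8)])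
(.ref 1)
(.ask 319
(.mark 319 [6, 7, 9]
(.spn
(.haz 7 383 3 20
(.lp [[7], [0, 2, 4, 6], [1, 3, 5, 8, 9]] [(.mj 8 6, 2246), (.rw 7, 4), (.hz 14 383, 5054360)])
(.cut 7 [(0, 1), (1, 1), (2, 1), (3, 1), (5, 1), (7, 1), (11, 1), (21, 1), (15, 1), (23, 1), (31, 1), (47, 1), (87, 1), (63, 1), (319, 1)]
(.lp [[7], [0, 2, 4, 6], [1, 3, 5, 8, 9]] [(.mj 3 4, 137671), (.mj 6 9, 9219), (.rw 7, 11), (.hz 14 319, 3621447), (.rw 8, 15)])))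
(.maj 6 9
(.cut 6 [(0, 1), (1, 1), (2, 1), (3, 1), (5, 1), (7, 1), (11, 1), (21, 1), (15, 1), (23, 1), (31, 1), (47, 1), (63, 1), (319, 1)]
(.lp [[7], [0, 2, 4, 6], [1, 3, 5, 8, 9]] [(.mj 8 7, 38782), (.rw 7, 40), (.rw 8, 47)]))
(.haz 6 191 1 10
(.haz 6 319 1 10
(.lp [[7], [0, 2, 4, 6], [1, 3, 5, 8, 9]] [(.mj 7 9, 40), (.mj 8 7, 56), (.mj 9 6, 52), (.hz 14 191, 279522), (.hz 14 447, 120350), (.hz 15 831, 103152)])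
(.cut 6 [(0, 1), (1, 1), (2, 1), (3, 1), (5, 1), (7, 1), (11, 1), (21, 1), (15, 1), (23, 1), (31, 1), (47, 1), (63, 1), (319, 1)]
(.lp [[7], [0, 2, 4, 6], [1, 3, 5, 8, 9]] [(.mj 0 1, 230970), (.mj 7 9, 4424), (.mj 8 7, 9910), (.rw 7, 1), (.hz 15 23, 7455940), (.hz 15 31, 5574590), (.hz 15 63, 3484201), (.hz 15 319, 3871335), (.rw 8, 8)])))
(.cut 6 [(0, 1), (1, 1), (2, 1), (3, 1), (5, 1), (7, 1), (11, 1), (21, 1), (15, 1), (23, 1), (31, 1), (47, 1), (63, 1), (319, 1)]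
(.lp [[7], [0, 2, 4, 6], [1, 3, 5, 8, 9]] [(.mj 0 1, 118596), (.mj 7 9, 2732), (.mj 8 7, 5463), (.hz 14 23, 3914996), (.hz 14 31, 3066879), (.hz 14 63, 4780186), (.hz 14 159, 60972), (.rw 8, 5)]))))
(.ask 831
(.mark 831 [6, 7, 10]
(.spn
(.lp [[7], [0, 2, 4, 6], [1, 3, 5, 8, 9, 10]] [(.mj 9 6, 485), (.rw 8, 1)])
(.lp [[7], [0, 2, 4, 6], [1, 3, 5, 8, 9, 10]] [(.mj 9 7, 603), (.rw 8, 1)])
(.maj 6 7
(.haz 6 63 3 40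
(.ask 87
(.mark 127 [7, 8, 11]
(.cut 7 [(0, 1), (1, 1), (2, 1), (3, 1), (5, 1), (7, 1), (11, 1), (21, 1), (15, 1), (23, 1), (31, 1), (47, 1), (87, 1), (63, 1), (95, 1), (2135, 1), (127, 1)]
(.cut 7 [(0, 1), (1, 1), (2, 1), (3, 1), (5, 1), (7, 1), (11, 1), (21, 1), (15, 1), (23, 1), (31, 1), (47, 1), (87, 1), (63, 1), (95, 1), (2135, 1), (127, 1), (319, 1), (383, 1)]
(.cut 6 [(0, 1), (1, 1), (2, 1), (3, 1), (5, 1), (7, 1), (11, 1), (21, 1), (15, 1), (23, 1), (31, 1), (47, 1), (63, 1), (319, 1), (831, 1)]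
(.cut 7 [(0, 1), (1, 1), (2, 1), (3, 1), (5, 1), (7, 1), (11, 1), (21, 1), (15, 1), (23, 1), (31, 1), (47, 1), (87, 1), (63, 1), (95, 1), (2135, 1), (127, 1), (319, 1), (2143, 1), (383, 1), (2175, 1)]
(.lp [[7], [0, 2, 4, 6, 11], [1, 3, 5, 8, 9, 10]] [(.mj 0 1, 14858785), (.mj 10 6, 870234), (.rw 8, 151), (.hz 13 159, 211062284), (.hz 6 2135, 427852005), (.hz 12 2143, 1080196678), (.hz 14 447, 1745441914), (.hz 12 2271, 1480863059), (.hz 14 959, 936597074), (.rw 9, 327), (.rw 10, 476), (.rw 11, 2303), (.rw 12, 73)]))))))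
(.cut 6 [(0, 1), (1, 1), (2, 1), (3, 1), (5, 1), (7, 1), (11, 1), (21, 1), (15, 1), (23, 1), (31, 1), (47, 1), (63, 1), (319, 1), (831, 1)]
(.cut 7 [(0, 1), (1, 1), (2, 1), (3, 1), (5, 1), (7, 1), (11, 1), (21, 1), (15, 1), (23, 1), (31, 1), (47, 1), (87, 1), (63, 1)]
(.cut 7 [(0, 1), (1, 1), (2, 1), (3, 1), (5, 1), (7, 1), (11, 1), (21, 1), (15, 1), (23, 1), (31, 1), (47, 1), (87, 1), (63, 1), (95, 2), (127, 1), (319, 1), (383, 1)]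
(.lp [[7], [0, 2, 4, 6], [1, 3, 5, 8, 9, 10]] [(.mj 0 1, 832700), (.mj 10 6, 34172), (.rw 8, 8), (.hz 13 159, 13178480), (.hz 14 191, 6601716), (.hz 12 223, 66932582), (.hz 14 447, 41481767), (.hz 14 959, 41842667), (.rw 9, 91), (.rw 10, 17), (.rw 11, 17)])))))
(.cut 6 [(0, 1), (1, 1), (2, 1), (3, 1), (5, 1), (7, 1), (11, 1), (21, 1), (15, 1), (23, 1), (31, 1), (47, 1), (63, 1)]
(.lp [[7], [0, 2, 4, 6], [1, 3, 5, 8, 9, 10]] [(.mj 0 1, 18840), (.hz 14 23, 102389), (.hz 14 63, 1365186), (.rw 9, 4)])))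
(.haz 6 63 3 40
(.haz 6 31 1 8
(.lp [[7], [0, 2, 4, 6], [1, 3, 5, 8, 9, 10]] [(.mj 3 4, 1664), (.mj 7 6, 4404), (.rw 8, 1), (.hz 15 31, 4510603), (.hz 15 63, 4816406), (.hz 15 319, 5504465), (.hz 15 831, 6290817), (.hz 15 1855, 4816406)])
(.cut 7 [(0, 1), (1, 1), (2, 1), (3, 1), (5, 1), (7, 1), (11, 1), (21, 1), (15, 1), (23, 1), (31, 1), (47, 1), (63, 1), (319, 1), (831, 1)]
(.cut 6 [(0, 1), (1, 1), (2, 1), (3, 1), (5, 1), (7, 1), (11, 1), (21, 1), (15, 1), (23, 1), (31, 1), (47, 1), (63, 1), (159, 2), (191, 1), (319, 1), (447, 1), (831, 1), (959, 1)]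
(.lp [[7], [0, 2, 4, 6], [1, 3, 5, 8, 9, 10]] [(.mj 0 1, 4496538), (.mj 10 7, 62395), (.rw 8, 40), (.hz 15 23, 144170309), (.hz 15 31, 43871488), (.hz 14 63, 13386220), (.hz 14 191, 71385953), (.hz 14 319, 8302767), (.hz 14 447, 114297158), (.hz 14 959, 105722786), (.rw 9, 298), (.rw 10, 56)]))))
(.cut 7 [(0, 1), (1, 1), (2, 1), (3, 1), (5, 1), (7, 1), (11, 1), (21, 1), (15, 1), (23, 1), (31, 1), (47, 1), (63, 1)]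
(.cut 7 [(0, 1), (1, 1), (2, 1), (3, 1), (5, 1), (7, 1), (11, 1), (21, 1), (15, 1), (23, 1), (31, 1), (47, 1), (63, 1), (319, 1)]
(.lp [[7], [0, 2, 4, 6], [1, 3, 5, 8, 9, 10]] [(.mj 0 1, 89060), (.mj 10 7, 1569), (.hz 14 23, 622817), (.hz 14 31, 323541), (.hz 13 159, 1372599), (.rw 9, 1), (.rw 10, 1)])))))
.fin))
(.lp [[7], [0, 2, 4, 6], [1, 3, 5, 8, 9]] [(.mj 9 7, 1), (.rw 7, 1)]))
.fin))
(.lp [[7], [0, 2, 4, 6], [1, 3, 5, 8]] [(.mj 8 7, 1), (.rw 6, 1)]))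
.fin))
(.lp [[7], [1, 3, 5], [0, 2, 4, 6]] [(.mj 3 4, 4), (.mj 5 7, 1)])))
(.con 6 5)
(.lp [[7], [1, 3, 5], [0, 2, 4, 6]] [(.mj 3 4, 3), (.mj 7 5, 2), (.hz 13 31, 860)])
.fin))

theorem run232 : run P3488 (leaf3 218 625) (cutRow P3488) [s206, s208] t232 s232 = true := by
  decide +kernel

theorem bad232 : Bad P3488 s232 :=
  run_sound (leaf3_sound P3488 rfl rfl) (cutRow_sound P3488) (
    List.forall_mem_cons.2 ⟨bad206, List.forall_mem_cons.2 ⟨bad208, fun _ h => absurd h List.not_mem_nil⟩⟩) t232 s232 run232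

/-- the state above piece 55 of the tree -/
def s55 : St := ⟨[0, 0, 1, 1, 7, 7, 11, 23], [15, 13, 9, 7, 5, 3, 2, 1, 0], [0, 1, 2, 3, 4],
  [(3, 4)],
  [⟨true, 1, 9, 7, 50⟩, ⟨true, 2, 11, 3, 50⟩, ⟨true, 2, 9, 9, 50⟩, ⟨true, 3, 3, 1, 5⟩, ⟨true, 1, 5, 13, 50⟩, ⟨true, 2, 11, 3, 5⟩, ⟨true, 2, 9, 8, 25⟩, ⟨true, 2, 9, 17, 50⟩, ⟨true, 2, 11, 33, 50⟩, ⟨true, 4, 47, 4, 25⟩],
  [.spn 0 0 651200, .spn 1 1 140426, .spn 3 2 302400, .spn 7 3 62723, .spn 15 4 140426]⟩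

/-- piece 55 of the tree -/
noncomputable def t55 : WN.Tree :=
(.mark 31 [5, 6, 7]
(.spn
(.ref 0)
(.haz 3 39 6 25
(.haz 5 223 3 50
(.haz 6 159 6 25
(.haz 5 23 4 25
(.ask 151
(.mark 151 [3, 5, 8]
(.ask 407
(.mark 407 [3, 5, 9]
(.lp [[1, 5], [3, 6], [0, 2, 4, 7, 8, 9]] [(.mj 2 3, 31), (.mj 6 5, 19), (.mj 6 7, 3), (.hz 13 31, 7426), (.hz 13 151, 1801), (.hz 13 95, 3421), (.hz 13 159, 5411), (.hz 10 183, 3355), (.hz 13 407, 1856), (.hz 13 415, 3656), (.hz 10 439, 4313), (.hz 13 919, 3656), (.hz 10 951, 9375)]))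
(.lp [[1, 5], [3, 6], [0, 2, 4, 7, 8]] [(.mj 2 3, 10), (.mj 6 5, 6), (.mj 6 7, 1), (.hz 13 31, 2320), (.hz 13 151, 200), (.hz 13 95, 1069), (.hz 13 159, 2572), (.hz 13 407, 105), (.hz 13 415, 2092)])))
(.lp [[1, 5], [3, 6], [0, 2, 4, 7]] [(.mj 2 3, 10), (.mj 6 5, 6), (.mj 6 7, 1), (.hz 13 31, 2320), (.hz 13 151, 200), (.hz 13 95, 1069), (.hz 13 159, 2572)]))
(.haz 4 39 17 50
(.haz 7 63 11 50
(.haz 7 31 23 50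
(.lp [[1, 5], [3, 6], [0, 2, 4, 7]] [(.mj 2 3, 184), (.mj 6 7, 134), (.hz 13 7, 9949), (.hz 13 23, 682), (.hz 16 31, 19782), (.hz 14 47, 8026), (.hz 10 55, 39068), (.hz 16 63, 56997)])
(.haz 7 55 7 25
(.haz 7 31 9 25
(.ask 39
(.mark 63 [6, 7, 8]
(.lp [[3, 6], [1, 5, 8], [0, 2, 4, 7]] [(.mj 2 3, 22), (.mj 6 7, 9), (.hz 13 7, 877), (.hz 16 23, 268), (.hz 10 39, 408), (.hz 18 31, 1812), (.hz 17 55, 210), (.hz 18 63, 6244), (.hz 14 303, 798), (.hz 10 311, 2443), (.hz 17 311, 2059), (.hz 18 319, 11667)]))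
(.ask 47
(.mark 63 [6, 7, 8]
(.lp [[3, 6], [1, 5, 8], [0, 2, 4, 7]] [(.mj 2 3, 12), (.mj 6 5, 1), (.mj 6 7, 5), (.hz 16 23, 107), (.hz 18 31, 1077), (.hz 18 63, 3506), (.hz 14 303, 457), (.hz 10 183, 393), (.hz 18 319, 2537)]))
(.lp [[1, 5], [3, 6], [0, 2, 4, 7]] [(.mj 2 3, 64), (.mj 3 4, 8), (.mj 6 7, 19), (.hz 13 23, 4446), (.hz 16 23, 1003), (.hz 18 31, 2855), (.hz 17 55, 2874), (.hz 18 63, 13414)])))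
(.lp [[1, 5], [3, 6], [0, 2, 4, 7]] [(.mj 2 3, 265), (.mj 6 7, 52), (.hz 13 7, 9893), (.hz 13 23, 14789), (.hz 18 23, 13114), (.hz 17 55, 7825), (.hz 17 63, 40621), (.hz 12 191, 17093)]))
(.lp [[1, 5], [3, 6], [0, 2, 4, 7]] [(.mj 2 3, 45), (.mj 6 5, 1), (.mj 6 7, 9), (.hz 13 7, 1654), (.hz 13 23, 2660), (.hz 17 23, 2075), (.hz 15 63, 3710)])))
(.lp [[1, 5], [3, 6], [0, 2, 4, 7]] [(.mj 2 3, 7), (.mj 6 5, 1), (.hz 13 7, 194), (.hz 13 23, 330), (.hz 15 23, 188), (.hz 15 31, 188)]))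
(.lp [[1, 5], [3, 6], [0, 2, 4, 7]] [(.mj 2 3, 1), (.hz 14 7, 31), (.hz 13 7, 61)])))
(.lp [[1, 5], [3, 6], [0, 2, 4, 7]] [(.mj 2 3, 1563), (.mj 6 5, 994), (.mj 6 7, 1441), (.rw 5, 2), (.hz 12 31, 1302208)]))
(.lp [[1, 5], [3, 6], [0, 2, 4, 7]] [(.mj 2 3, 35), (.mj 3 4, 10), (.mj 6 7, 7), (.hz 11 7, 725), (.hz 11 15, 119), (.hz 11 31, 512), (.hz 3 151, 4714)]))
(.lp [[1, 5], [3, 6], [0, 2, 4, 7]] [(.mj 3 4, 3), (.mj 6 5, 8), (.mj 6 7, 7), (.hz 10 3, 630), (.hz 10 7, 1796), (.hz 3 39, 11516), (.hz 9 47, 1787), (.hz 3 151, 7591)]))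
(.haz 4 39 1 4
(.haz 4 39 7 20
(.haz 5 15 1 5
(.lp [[1, 5], [3, 6], [0, 2, 4, 7]] [(.mj 2 3, 17), (.mj 3 4, 24), (.mj 7 5, 24), (.mj 7 6, 3), (.hz 12 15, 10904), (.hz 8 75, 219), (.hz 12 31, 47331), (.hz 12 79, 62960), (.hz 12 159, 17974), (.hz 11 111, 18820)])
(.haz 3 39 1 4
(.haz 4 79 3 10
(.ask 151
(.mark 159 [5, 6, 8]
(.spn
(.haz 6 31 1 4
(.lp [[1, 5], [3, 6], [0, 2, 4, 7, 8]] [(.mj 3 4, 7), (.mj 5 6, 8), (.mj 7 5, 4), (.hz 12 15, 3786), (.hz 11 39, 811), (.hz 15 31, 4282), (.hz 15 63, 28167), (.hz 15 159, 10335), (.hz 15 415, 23424)])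
(.ask 39
(.mark 191 [6, 8, 9]
(.lp [[3, 6], [1, 5, 9], [0, 2, 4, 7, 8]] [(.mj 3 4, 1767), (.mj 5 6, 210), (.mj 7 5, 435), (.mj 7 6, 107), (.rw 6, 1), (.hz 15 11, 295339), (.hz 15 15, 886017), (.hz 15 31, 372243), (.hz 11 551, 470193), (.hz 11 559, 141721)]))
(.haz 6 159 3 20
(.ask 47
(.mark 191 [6, 8, 9]
(.lp [[3, 6], [1, 5, 9], [0, 2, 4, 7, 8]] [(.mj 3 4, 34), (.mj 5 6, 33), (.mj 5 8, 12), (.mj 7 5, 22), (.hz 15 11, 1806), (.hz 12 15, 28134), (.hz 15 15, 14795), (.hz 16 159, 3481), (.hz 16 191, 18410), (.hz 16 415, 31626), (.hz 16 703, 30781)]))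
(.lp [[1, 5], [3, 6], [0, 2, 4, 7, 8]] [(.mj 3 4, 47), (.mj 5 6, 34), (.mj 5 8, 11), (.mj 7 5, 31), (.hz 15 11, 5841), (.hz 15 15, 17522), (.hz 16 159, 4123), (.hz 16 191, 26534), (.hz 16 415, 30457)]))
(.lp [[1, 5], [3, 6], [0, 2, 4, 7, 8]] [(.mj 3 4, 14), (.hz 16 11, 552), (.hz 12 15, 10655), (.hz 16 15, 2195), (.hz 16 31, 1626), (.hz 16 159, 956)]))))
(.haz 5 31 1 8
(.lp [[1, 5], [3, 6], [0, 2, 4, 7, 8]] [(.mj 3 4, 4378), (.mj 6 5, 4712), (.mj 6 8, 334), (.mj 7 6, 4712), (.rw 6, 1), (.hz 15 31, 3518411), (.hz 15 95, 18084813), (.hz 15 159, 6366649), (.hz 15 415, 12007276)])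
(.haz 4 39 17 40
(.haz 6 63 7 40
(.ask 39
(.mark 191 [6, 8, 9]
(.lp [[3, 6], [1, 5, 9], [0, 2, 4, 7, 8]] [(.mj 3 4, 11947), (.mj 7 6, 6295), (.rw 6, 1), (.hz 15 7, 129255), (.hz 16 39, 762121), (.hz 16 551, 804469), (.hz 17 63, 2268638), (.hz 16 559, 802934), (.hz 17 575, 7378065)]))
(.ask 75
(.mark 79 [4, 5, 9]
(.cut 5 [(0, 1), (1, 1), (2, 1), (3, 1), (5, 1), (9, 1), (7, 1), (11, 1), (13, 1), (15, 1), (23, 1), (75, 1), (31, 1), (79, 1), (95, 1)]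
(.cut 5 [(0, 1), (1, 1), (2, 1), (3, 1), (5, 1), (9, 1), (7, 1), (11, 1), (13, 1), (15, 1), (23, 1), (75, 1), (31, 1), (151, 1), (587, 1), (159, 1)]
(.lp [[1, 5], [3, 6, 9], [0, 2, 4, 7, 8]] [(.mj 3 4, 24684), (.mj 6 8, 2402), (.mj 7 6, 16080), (.hz 15 15, 13733813), (.hz 15 31, 2060323), (.hz 8 587, 893906), (.hz 17 63, 1291589), (.hz 14 591, 4558638), (.hz 16 623, 2451791), (.rw 7, 1), (.rw 8, 10)]))))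
(.cut 5 [(0, 1), (1, 1), (2, 1), (3, 1), (5, 1), (9, 1), (7, 1), (11, 1), (13, 1), (15, 1), (23, 1), (75, 1), (31, 1), (79, 1), (95, 1)]
(.cut 5 [(0, 1), (1, 1), (2, 1), (3, 1), (5, 1), (9, 1), (7, 1), (11, 1), (13, 1), (15, 1), (23, 1), (75, 1), (31, 1), (151, 1), (159, 1)]
(.lp [[1, 5], [3, 6], [0, 2, 4, 7, 8]] [(.mj 3 4, 68837), (.mj 6 8, 8580), (.mj 7 6, 47991), (.hz 15 15, 39747644), (.hz 15 31, 8627603), (.hz 17 63, 3163061), (.hz 16 111, 721475), (.rw 7, 1), (.rw 8, 32)])))))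
(.lp [[1, 5], [3, 6], [0, 2, 4, 7, 8]] [(.mj 3 4, 339), (.mj 6 8, 120), (.rw 6, 1), (.hz 15 31, 158739), (.hz 17 31, 430862)]))
(.lp [[1, 5], [3, 6], [0, 2, 4, 7, 8]] [(.mj 2 3, 1), (.hz 16 7, 63), (.hz 15 7, 284), (.hz 15 15, 90), (.hz 15 31, 31)])))
(.haz 4 39 17 40
(.haz 6 159 1 10
(.haz 5 159 1 8
(.maj 5 6
(.cut 5 [(0, 1), (1, 1), (2, 1), (3, 1), (5, 1), (9, 1), (7, 1), (11, 1), (13, 1), (15, 1), (23, 1), (31, 1), (151, 1), (159, 1)]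
(.lp [[1, 5], [3, 6], [0, 2, 4, 7, 8]] [(.mj 3 4, 1480), (.mj 5 6, 833), (.mj 8 5, 583), (.hz 15 39, 36841), (.hz 8 75, 4777), (.hz 15 47, 98242), (.hz 14 79, 219734), (.hz 16 159, 535004), (.hz 16 191, 3768508), (.hz 16 415, 885304), (.rw 7, 1)]))
(.lp [[1, 5], [3, 6], [0, 2, 4, 7, 8]] [(.mj 3 4, 22), (.mj 6 5, 14), (.mj 8 6, 18), (.hz 15 39, 536), (.hz 8 75, 70), (.hz 15 47, 1430), (.hz 14 79, 3197), (.hz 17 159, 32690), (.hz 16 159, 11416), (.hz 16 191, 97714), (.hz 17 415, 32334)]))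
(.cut 5 [(0, 1), (1, 1), (2, 1), (3, 1), (5, 1), (9, 1), (7, 1), (11, 1), (13, 1), (15, 1), (23, 1), (75, 1), (31, 1)]
(.cut 5 [(0, 1), (1, 1), (2, 1), (3, 1), (5, 1), (9, 1), (7, 1), (11, 1), (13, 1), (15, 1), (23, 1), (75, 1), (31, 1), (151, 1), (159, 1)]
(.lp [[1, 5], [3, 6], [0, 2, 4, 7, 8]] [(.mj 2 3, 122991), (.mj 3 4, 317292), (.mj 8 6, 118781), (.hz 17 15, 91261467), (.hz 15 39, 20874460), (.hz 8 75, 2308614), (.hz 17 31, 70005064), (.hz 14 79, 25658042), (.hz 16 159, 79927946), (.hz 16 191, 509526435), (.rw 7, 36), (.rw 8, 22)]))))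
(.lp [[1, 5], [3, 6], [0, 2, 4, 7, 8]] [(.mj 3 4, 9), (.mj 8 5, 1), (.hz 16 11, 751), (.hz 12 15, 4564), (.hz 16 15, 2593), (.hz 15 39, 329), (.hz 16 31, 1818), (.hz 16 159, 957)]))
(.lp [[1, 5], [3, 6], [0, 2, 4, 7, 8]] [(.mj 2 3, 21), (.mj 8 5, 5), (.mj 8 6, 5), (.hz 15 7, 2118), (.hz 12 7, 9322), (.hz 12 15, 5645), (.hz 11 39, 1411)]))
.fin))
(.ref 1))
(.lp [[1, 5], [3, 6], [0, 2, 4, 7]] [(.mj 2 3, 3), (.mj 7 5, 1), (.hz 14 7, 520), (.hz 12 7, 733), (.hz 14 15, 303), (.hz 11 39, 57)]))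
(.lp [[1, 5], [3, 6], [0, 2, 4, 7]] [(.mj 3 4, 1), (.hz 13 3, 277), (.hz 13 7, 641), (.hz 12 7, 261), (.hz 11 39, 101)])))
(.cut 5 [(0, 1), (1, 1), (2, 1), (3, 1), (5, 1), (9, 1), (7, 1), (11, 1), (13, 1), (15, 1), (23, 1), (75, 1), (31, 1)]
(.lp [[1, 5], [3, 6], [0, 2, 4, 7]] [(.mj 2 3, 3733), (.mj 7 5, 2451), (.mj 7 6, 408), (.hz 11 7, 538459), (.hz 3 39, 1327852), (.hz 10 39, 2038170), (.hz 3 55, 749519), (.rw 6, 1)])))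
(.lp [[1, 5], [3, 6], [0, 2, 4, 7]] [(.mj 2 3, 8), (.mj 7 5, 6), (.mj 7 6, 1), (.hz 10 7, 5192), (.hz 3 39, 4846), (.hz 9 47, 1933)]))
.fin))

theorem run55 : run P3488 (leaf3 218 625) (cutRow P3488) [s50, s49] t55 s55 = true := by
  decide +kernel

theorem bad55 : Bad P3488 s55 :=
  run_sound (leaf3_sound P3488 rfl rfl) (cutRow_sound P3488) (
    List.forall_mem_cons.2 ⟨bad50, List.forall_mem_cons.2 ⟨bad49, fun _ h => absurd h List.not_mem_nil⟩⟩) t55 s55 run55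

/-- the state above piece 231 of the tree -/
def s231 : St := ⟨[0, 0, 1, 3, 5, 15, 23, 47], [31, 23, 21, 15, 11, 7, 5, 3, 2, 1, 0], [0, 1, 2, 3, 4, 5],
  [(5, 6), (4, 5)],
  [⟨true, 2, 3, 3, 10⟩, ⟨true, 1, 5, 2, 5⟩, ⟨true, 2, 3, 23, 50⟩, ⟨true, 1, 5, 12, 25⟩, ⟨true, 1, 21, 27, 50⟩, ⟨true, 4, 15, 9, 40⟩, ⟨true, 3, 23, 11, 20⟩, ⟨true, 4, 47, 7, 20⟩, ⟨true, 4, 47, 17, 40⟩, ⟨true, 4, 47, 9, 20⟩, ⟨true, 4, 47, 19, 40⟩, ⟨true, 5, 95, 1, 5⟩, ⟨true, 5, 95, 3, 10⟩, ⟨true, 5, 31, 3, 10⟩, ⟨true, 5, 95, 11, 25⟩, ⟨true, 6, 63, 3, 20⟩],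
  [.spn 0 0 651200, .spn 1 1 302400, .spn 3 2 302400, .spn 7 3 302400, .spn 15 4 302400, .spn 31 5 302400]⟩

/-- piece 231 of the tree -/
noncomputable def t231 : WN.Tree :=
(.ask 47
(.ref 0)
(.ask 63
(.mark 63 [6, 7, 8]
(.spn
(.haz 7 319 1 10
(.haz 7 319 7 40
(.haz 7 63 1 5
(.ask 87
(.mark 127 [7, 8, 9]
(.spn
(.haz 8 127 1 5
(.haz 7 319 13 50
(.ask 175
(.mark 255 [8, 9, 10]
(.lp [[8], [0, 2, 4, 6, 9], [1, 3, 5, 7, 10]] [(.mj 3 4, 41), (.mj 6 7, 18), (.mj 7 8, 5), (.hz 20 319, 3856), (.hz 10 1199, 730), (.hz 19 639, 36220), (.hz 19 1279, 6780)]))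
(.ask 319
(.mark 383 [7, 9, 10]
(.lp [[7], [0, 2, 4, 6, 9], [1, 3, 5, 8, 10]] [(.mj 3 4, 13), (.mj 6 7, 6), (.mj 7 8, 1), (.hz 20 319, 1065), (.hz 20 1343, 1603)]))
(.cut 9 [(0, 1), (1, 1), (2, 1), (3, 1), (5, 1), (7, 1), (11, 1), (21, 1), (15, 1), (23, 1), (31, 1), (47, 1), (63, 1), (175, 1), (191, 1), (319, 1), (447, 1)]
(.lp [[8], [1, 3, 5, 7], [0, 2, 4, 6, 9]] [(.mj 3 4, 37653), (.mj 6 7, 12524), (.mj 7 8, 3134), (.hz 20 319, 1410666), (.hz 19 255, 7869598), (.rw 8, 1)]))))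
(.lp [[8], [1, 3, 5, 7], [0, 2, 4, 6, 9]] [(.mj 3 4, 4), (.mj 7 8, 2), (.hz 20 47, 178), (.hz 20 63, 760), (.hz 19 127, 3691), (.hz 18 319, 3306), (.hz 19 639, 11403)]))
(.lp [[8], [1, 3, 5, 7], [0, 2, 4, 6, 9]] [(.mj 3 4, 262), (.mj 6 7, 131), (.hz 19 63, 53745), (.hz 10 175, 1013), (.hz 19 127, 101124), (.hz 18 319, 330126)]))
(.ask 319
(.mark 383 [7, 9, 10]
(.lp [[7], [0, 2, 4, 6, 9], [1, 3, 5, 8, 10]] [(.mj 3 4, 184), (.mj 6 8, 66), (.mj 8 7, 88), (.hz 10 175, 4928), (.hz 18 127, 154637), (.hz 18 319, 197414), (.hz 18 639, 585052), (.hz 18 1343, 50747)]))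
(.ask 383
(.mark 383 [7, 9, 10]
(.spn
(.ask 175
(.mark 511 [9, 10, 11]
(.lp [[8, 10], [0, 2, 4, 6, 9], [1, 3, 5, 7, 11]] [(.mj 3 4, 102), (.mj 6 8, 5), (.mj 7 10, 14), (.mj 8 7, 39), (.hz 18 127, 17210), (.hz 10 2223, 2875), (.hz 18 639, 379239), (.hz 15 2239, 22467)]))
(.lp [[7], [0, 2, 4, 6, 9], [1, 3, 5, 8, 10]] [(.mj 3 4, 18), (.mj 6 8, 2), (.mj 7 10, 2), (.mj 8 7, 6), (.hz 18 127, 4071), (.hz 18 639, 55592)]))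
(.lp [[7], [0, 2, 4, 6, 9], [1, 3, 5, 8, 10]] [(.mj 3 4, 3), (.mj 9 7, 1), (.hz 10 175, 74), (.hz 18 127, 3273), (.hz 18 319, 740), (.hz 18 383, 5015)])
(.lp [[7], [0, 2, 4, 6, 9], [1, 3, 5, 8, 10]] [(.mj 3 4, 2), (.mj 10 7, 1), (.hz 18 63, 515), (.hz 10 175, 14), (.hz 18 127, 2279), (.hz 18 319, 781), (.hz 18 383, 3824)])
.fin))
(.lp [[8], [1, 3, 5, 7], [0, 2, 4, 6, 9]] [(.mj 3 4, 6), (.mj 6 7, 1), (.mj 8 7, 1), (.hz 10 175, 147)])))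
(.lp [[8], [1, 3, 5, 7], [0, 2, 4, 6, 9]] [(.mj 3 4, 6), (.mj 9 7, 3), (.mj 9 8, 1), (.hz 10 175, 165), (.hz 18 127, 7306), (.hz 15 319, 412), (.hz 18 319, 6823)])
.fin))
(.ask 95
(.mark 127 [7, 8, 9]
(.spn
(.haz 7 319 1 4
(.haz 8 639 1 10
(.haz 6 319 1 4
(.ask 175
(.mark 255 [8, 9, 10]
(.spn
(.ask 319
(.mark 511 [9, 10, 11]
(.lp [[8, 11], [0, 2, 4, 6, 9], [1, 3, 5, 7, 10]] [(.mj 3 4, 16), (.mj 6 7, 6), (.mj 7 8, 1), (.hz 19 319, 14192), (.hz 10 1199, 359), (.hz 20 639, 1521), (.hz 19 2367, 14750)]))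
(.haz 9 383 1 10
(.lp [[8], [0, 2, 4, 6, 9], [1, 3, 5, 7, 10]] [(.mj 3 4, 2029), (.mj 6 7, 740), (.mj 7 8, 134), (.hz 19 319, 1885145), (.hz 10 1199, 44850), (.hz 22 383, 339699)])
(.lp [[8], [0, 2, 4, 6, 9], [1, 3, 5, 7, 10]] [(.mj 6 7, 9), (.mj 7 8, 5), (.hz 22 95, 4455), (.hz 22 127, 16193), (.hz 19 319, 21543)])))
(.lp [[8], [0, 2, 4, 6, 9], [1, 3, 5, 7, 10]] [(.mj 3 4, 175), (.mj 6 7, 64), (.mj 9 8, 11), (.hz 21 319, 4345), (.hz 19 319, 229196), (.hz 10 1199, 3859), (.hz 20 639, 359), (.hz 21 447, 75313)])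
(.lp [[8], [0, 2, 4, 6, 9], [1, 3, 5, 7, 10]] [(.mj 3 4, 88), (.mj 6 7, 34), (.mj 10 8, 6), (.mj 10 9, 1), (.hz 21 319, 9299), (.hz 19 319, 113398), (.hz 10 1199, 1829), (.hz 19 383, 38898), (.hz 20 639, 16007)])
.fin))
(.ask 319
(.mark 383 [7, 9, 10]
(.lp [[7], [0, 2, 4, 6, 9], [1, 3, 5, 8, 10]] [(.mj 3 4, 100), (.mj 6 7, 37), (.mj 7 8, 6), (.hz 19 319, 78236), (.hz 19 1343, 105087)]))
(.cut 9 [(0, 1), (1, 1), (2, 1), (3, 1), (5, 1), (7, 1), (11, 1), (21, 1), (15, 1), (23, 1), (31, 1), (47, 1), (87, 1), (63, 1), (175, 1), (191, 1), (319, 1), (447, 1)]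
(.lp [[8], [1, 3, 5, 7], [0, 2, 4, 6, 9]] [(.mj 3 4, 222075), (.mj 6 7, 63287), (.mj 7 8, 12103), (.hz 19 319, 84000656), (.hz 19 383, 34317924), (.rw 8, 4)]))))
(.lp [[8], [1, 3, 5, 7], [0, 2, 4, 6, 9]] [(.mj 6 7, 5), (.mj 6 8, 3), (.hz 21 31, 8982), (.hz 21 63, 12667), (.hz 19 319, 21230)]))
(.lp [[8], [1, 3, 5, 7], [0, 2, 4, 6, 9]] [(.mj 3 4, 22), (.mj 6 7, 9), (.hz 20 63, 1687), (.hz 10 175, 337), (.hz 20 127, 2189), (.hz 19 319, 24714)]))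
(.lp [[8], [1, 3, 5, 7], [0, 2, 4, 6, 9]] [(.mj 3 4, 32), (.mj 7 8, 8), (.hz 19 47, 14538), (.hz 19 63, 34268), (.hz 15 319, 4379), (.hz 18 319, 9138)]))
(.haz 4 175 5 8
(.ask 319
(.mark 383 [7, 9, 10]
(.spn
(.ask 175
(.mark 447 [6, 10, 11]
(.lp [[8, 10], [0, 2, 4, 6, 9], [1, 3, 5, 7, 11]] [(.mj 3 4, 266), (.mj 6 8, 78), (.mj 8 7, 118), (.hz 18 127, 223606), (.hz 18 319, 316065), (.hz 19 2223, 27486), (.hz 18 639, 740335), (.hz 15 2239, 25304)]))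
(.lp [[7], [0, 2, 4, 6, 9], [1, 3, 5, 8, 10]] [(.mj 3 4, 29), (.mj 6 8, 8), (.mj 8 7, 11), (.hz 18 127, 22035), (.hz 18 319, 23586), (.hz 18 639, 63926), (.hz 18 1343, 5088)]))
(.lp [[7], [0, 2, 4, 6, 9], [1, 3, 5, 8, 10]] [(.mj 3 4, 10), (.mj 6 8, 1), (.mj 9 7, 4), (.hz 19 175, 1173), (.hz 18 127, 11438), (.hz 18 319, 7709), (.hz 18 383, 12510), (.hz 18 1343, 6549)])
(.lp [[7], [0, 2, 4, 6, 9], [1, 3, 5, 8, 10]] [(.mj 3 4, 4), (.mj 6 8, 1), (.mj 10 7, 2), (.hz 19 175, 506), (.hz 18 127, 4937), (.hz 18 319, 5403), (.hz 18 383, 9901), (.hz 18 639, 7917)])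
.fin))
(.ask 383
(.mark 383 [7, 9, 10]
(.spn
(.ask 175
(.mark 511 [9, 10, 11]
(.lp [[8, 10], [0, 2, 4, 6, 9], [1, 3, 5, 7, 11]] [(.mj 3 4, 97), (.mj 6 8, 5), (.mj 7 10, 10), (.mj 8 7, 34), (.hz 18 127, 35630), (.hz 19 2223, 10821), (.hz 18 639, 286555), (.hz 15 2239, 16513)]))
(.lp [[7], [0, 2, 4, 6, 9], [1, 3, 5, 8, 10]] [(.mj 3 4, 125), (.mj 6 8, 13), (.mj 7 10, 11), (.mj 8 7, 40), (.hz 18 127, 54553), (.hz 18 639, 308067)]))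
(.lp [[7], [0, 2, 4, 6, 9], [1, 3, 5, 8, 10]] [(.mj 3 4, 3), (.mj 9 7, 1), (.hz 19 175, 350), (.hz 18 127, 3410), (.hz 18 319, 699), (.hz 18 383, 5136)])
(.lp [[7], [0, 2, 4, 6, 9], [1, 3, 5, 8, 10]] [(.mj 3 4, 2), (.mj 10 7, 1), (.hz 18 63, 332), (.hz 19 175, 131), (.hz 18 127, 2352), (.hz 18 319, 676), (.hz 18 383, 3784)])
.fin))
(.lp [[8], [1, 3, 5, 7], [0, 2, 4, 6, 9]] [(.mj 3 4, 11), (.mj 6 7, 2), (.mj 8 7, 1), (.hz 19 175, 1301), (.hz 18 127, 892)])))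
(.lp [[8], [1, 3, 5, 7], [0, 2, 4, 6, 9]] [(.mj 3 4, 2), (.mj 8 7, 8), (.hz 19 47, 9347), (.hz 10 175, 1755), (.hz 18 127, 28603), (.hz 14 607, 1909), (.hz 18 639, 40122)]))
(.lp [[8], [1, 3, 5, 7], [0, 2, 4, 6, 9]] [(.mj 3 4, 7), (.mj 9 7, 3), (.mj 9 8, 1), (.hz 10 175, 197), (.hz 18 127, 8729), (.hz 15 319, 570), (.hz 18 319, 7122)])
.fin))
(.ref 1)))
(.lp [[8], [0, 2, 4, 6], [1, 3, 5, 7]] [(.mj 3 4, 204), (.mj 6 8, 32), (.hz 18 47, 64708), (.hz 18 63, 69685), (.hz 17 319, 9553)]))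
(.lp [[8], [0, 2, 4, 6], [1, 3, 5, 7]] [(.mj 3 4, 17), (.mj 6 8, 3), (.hz 17 47, 670), (.hz 17 63, 715), (.hz 16 319, 3416)]))
(.lp [[8], [0, 2, 4, 6], [1, 3, 5, 7]] [(.mj 3 4, 6), (.mj 6 8, 1), (.hz 16 47, 925), (.hz 16 63, 958)]))
(.lp [[8], [0, 2, 4, 6], [1, 3, 5, 7]] [(.mj 4 5, 38), (.mj 7 6, 22), (.mj 7 8, 2), (.hz 15 63, 6991), (.hz 15 319, 11190)])
(.ask 319
(.mark 319 [6, 7, 9]
(.spn
(.ask 87
(.mark 383 [7, 9, 10]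
(.lp [[7], [0, 2, 4, 6, 10], [1, 3, 5, 8, 9]] [(.mj 0 1, 36519), (.mj 6 9, 630), (.mj 8 6, 2566), (.rw 7, 1), (.hz 6 1111, 449159), (.hz 15 191, 2699510), (.hz 14 1119, 720203)]))
(.lp [[7], [0, 2, 4, 6], [1, 3, 5, 8, 9]] [(.mj 0 1, 43946), (.mj 6 9, 719), (.mj 8 6, 2892), (.rw 7, 1), (.hz 15 191, 2982768)]))
(.lp [[7], [0, 2, 4, 6], [1, 3, 5, 8, 9]] [(.mj 0 1, 75438), (.mj 7 6, 5535), (.rw 6, 1), (.hz 6 87, 790200), (.hz 15 63, 2370601), (.hz 15 191, 363260), (.hz 15 319, 2058475), (.hz 15 831, 2421735)])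
(.lp [[7], [0, 2, 4, 6], [1, 3, 5, 8, 9]] [(.mj 0 1, 7), (.mj 9 6, 1), (.hz 6 87, 25), (.hz 15 63, 491), (.hz 15 191, 439), (.hz 15 319, 439)])
.fin))
(.lp [[8], [0, 2, 4, 6], [1, 3, 5, 7]] [(.mj 4 5, 3), (.rw 6, 1)]))
.fin))
(.spn
(.haz 7 63 2 5
(.lp [[], [0, 2, 4, 6], [1, 3, 5, 7]] [(.mj 3 4, 9), (.mj 6 7, 5), (.hz 16 63, 7785)])
(.lp [[], [0, 2, 4, 6], [1, 3, 5, 7]] [(.mj 3 4, 27), (.mj 6 7, 5), (.hz 16 47, 6493)]))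
(.lp [[], [0, 2, 4, 6], [1, 3, 5, 7]] [(.mj 4 5, 3010), (.mj 7 6, 1342), (.rw 4, 1), (.hz 14 95, 261297)])
.fin
.fin)))

theorem run231 : run P3488 (leaf3 218 625) (cutRow P3488) [s230, s229] t231 s231 = true := by
  decide +kernel

theorem bad231 : Bad P3488 s231 :=
  run_sound (leaf3_sound P3488 rfl rfl) (cutRow_sound P3488) (
    List.forall_mem_cons.2 ⟨bad230, List.forall_mem_cons.2 ⟨bad229, fun _ h => absurd h List.not_mem_nil⟩⟩) t231 s231 run231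

end Pool.Agent.WN.Data
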