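import Pool.Agent.WN.CutRow
import Pool.Agent.WN.LeafRow
import Pool.Agent.Helper99.WN.ParDef
import Pool.Agent.WN.Data.D7
import Pool.Agent.WN.Data.D11
import Pool.Agent.WN.Data.D12
import Pool.Agent.WN.Data.D16
import Pool.Agent.WN.Data.D29
import Pool.Agent.WN.Data.D34
import Pool.Agent.WN.Data.D41
import Pool.Agent.WN.Data.D43
import Pool.Agent.WN.Data.D44

/-!
# The search tree, part 46
-/

set_option autoImplicit false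

namespace Pool.Agent.WN.Data

open Pool.Agent.W3 Pool.Agent.WN Pool.Agent.Helper99.WN

/-- the state above piece 251 of the tree -/
def s251 : St := ⟨[0, 0, 1, 3, 5, 15], [23, 21, 15, 11, 7, 5, 3, 2, 1, 0], [0, 1, 2, 3, 4],
  [(4, 5)],
  [⟨true, 2, 3, 3, 10⟩, ⟨true, 1, 5, 2, 5⟩, ⟨true, 2, 3, 23, 50⟩, ⟨true, 1, 5, 12, 25⟩, ⟨true, 1, 21, 27, 50⟩, ⟨true, 4, 15, 9, 40⟩, ⟨true, 3, 23, 11, 20⟩, ⟨true, 4, 47, 7, 20⟩, ⟨true, 4, 47, 17, 40⟩, ⟨true, 4, 47, 9, 20⟩, ⟨true, 4, 47, 19, 40⟩],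
  [.spn 0 0 651200, .spn 1 1 302400, .spn 3 2 302400, .spn 7 3 302400, .spn 15 4 302400]⟩

/-- piece 251 of the tree -/
noncomputable def t251 : WN.Tree :=
(.ask 31
(.haz 5 31 3 10
(.haz 4 47 3 5
(.haz 4 47 5 8
(.ask 31
(.mark 31 [5, 6, 7]
(.spn
(.haz 6 159 1 10
(.ask 47
(.mark 63 [6, 7, 8]
(.spn
(.haz 6 159 1 4
(.ask 95
(.mark 127 [7, 8, 9]
(.spn
(.haz 7 319 1 10
(.haz 6 159 3 10
(.haz 7 319 3 20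
(.haz 8 639 3 20
(.haz 7 639 1 5
(.haz 6 319 13 40
(.haz 7 319 1 5
(.haz 8 639 1 5
(.ask 159
(.mark 255 [8, 9, 10]
(.spn
(.haz 9 255 7 20
(.lp [[7, 10], [1, 3, 5, 8], [0, 2, 4, 6, 9]] [(.mj 0 1, 47), (.mj 5 6, 16), (.mj 6 7, 30), (.mj 7 8, 32), (.mj 8 9, 19), (.hz 21 319, 1345), (.hz 22 319, 89), (.hz 17 1183, 9661), (.hz 24 255, 32747), (.hz 23 639, 128599), (.hz 17 1215, 21436), (.hz 11 1247, 19058), (.hz 24 1279, 99696)])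
(.lp [[7, 10], [1, 3, 5, 8], [0, 2, 4, 6, 9]] [(.mj 0 1, 259), (.mj 5 6, 32), (.mj 6 7, 27), (.mj 7 8, 21), (.hz 24 127, 11008), (.hz 22 319, 22697), (.hz 17 1183, 16808), (.hz 24 255, 1713), (.hz 23 639, 84883)]))
(.lp [[7, 10], [1, 3, 5, 8], [0, 2, 4, 6, 9]] [(.mj 0 1, 278), (.mj 5 6, 44), (.mj 6 7, 19), (.mj 9 8, 13), (.hz 21 319, 3562), (.hz 22 319, 57879), (.hz 17 1183, 62155), (.hz 22 383, 100836), (.hz 20 639, 65684)])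
(.lp [[7, 10], [1, 3, 5, 8], [0, 2, 4, 6, 9]] [(.mj 5 6, 2), (.mj 6 7, 3), (.mj 10 8, 2), (.mj 10 9, 1), (.hz 13 303, 570), (.hz 22 319, 12532), (.hz 22 383, 775), (.hz 20 639, 5579), (.hz 23 639, 11973)])
.fin))
(.ask 223
(.mark 255 [8, 9, 10]
(.lp [[7, 10], [1, 3, 5, 8], [0, 2, 4, 6, 9]] [(.mj 0 1, 56), (.mj 5 6, 13), (.mj 6 7, 5), (.mj 7 8, 8), (.hz 20 639, 2982), (.hz 23 639, 43054)]))
(.haz 8 191 3 20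
(.ask 607
(.mark 639 [7, 8, 10]
(.lp [[7], [1, 3, 5, 8], [0, 2, 4, 6, 9, 10]] [(.mj 0 1, 1194), (.mj 5 6, 103), (.mj 6 7, 77), (.mj 7 8, 37), (.hz 21 319, 83), (.hz 22 319, 183706), (.hz 20 639, 43041), (.hz 23 639, 75923), (.hz 20 1663, 125514), (.hz 23 1663, 190615)]))
(.ask 639
(.haz 8 255 1 5
(.haz 7 1663 1 4
(.haz 7 319 1 4
(.mark 639 [7, 8, 10]
(.ask 1663
(.mark 1663 [7, 8, 11]
(.lp [[7], [1, 3, 5, 8], [0, 2, 4, 6, 9, 10, 11]] [(.mj 0 1, 27218), (.mj 5 6, 4039), (.mj 6 7, 3186), (.mj 7 8, 1766), (.mj 7 9, 66), (.hz 21 319, 57610), (.hz 27 319, 9457901), (.hz 20 639, 1250212), (.hz 23 639, 5219045), (.hz 27 895, 1765739), (.hz 23 1663, 5650364), (.hz 23 3711, 7062955)]))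
(.lp [[7], [1, 3, 5, 8], [0, 2, 4, 6, 9, 10]] [(.mj 0 1, 752), (.mj 5 6, 73), (.mj 6 7, 55), (.mj 7 8, 26), (.hz 27 319, 162349), (.hz 27 383, 5840), (.hz 23 639, 45530), (.hz 23 767, 45226), (.hz 23 1663, 56912)])))
(.mark 639 [7, 8, 10]
(.lp [[7], [1, 3, 5, 8], [0, 2, 4, 6, 9, 10]] [(.mj 0 1, 381), (.mj 5 6, 19), (.mj 7 8, 5), (.hz 27 63, 50985), (.hz 22 319, 4518), (.hz 20 639, 11230), (.hz 23 639, 16404), (.hz 23 1663, 20506)])))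
(.mark 639 [7, 8, 10]
(.lp [[7], [1, 3, 5, 8], [0, 2, 4, 6, 9, 10]] [(.mj 0 1, 102), (.mj 5 6, 7), (.mj 7 8, 5), (.mj 7 9, 1), (.hz 26 63, 23946), (.hz 26 127, 15538), (.hz 23 639, 22177), (.hz 23 1663, 19660)])))
(.lp [[7], [1, 3, 5, 8], [0, 2, 4, 6, 9, 10]] [(.mj 5 6, 13), (.mj 6 7, 10), (.mj 7 9, 2), (.hz 25 47, 7016), (.hz 25 63, 21400), (.hz 25 127, 20680), (.hz 24 191, 5789), (.hz 20 639, 27821), (.hz 23 639, 10666)]))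
(.lp [[7], [1, 3, 5, 8], [0, 2, 4, 6, 9]] [(.mj 0 1, 203), (.mj 5 6, 22), (.mj 6 7, 20), (.mj 7 8, 10), (.hz 22 319, 50228), (.hz 23 639, 14239)])))
(.lp [[7], [1, 3, 5, 8], [0, 2, 4, 6, 9]] [(.mj 5 6, 11), (.mj 6 7, 10), (.mj 7 9, 2), (.hz 24 47, 1553), (.hz 24 63, 7240), (.hz 22 319, 41655), (.hz 20 639, 22277), (.hz 23 639, 10339)]))))
(.lp [[7], [1, 3, 5, 8], [0, 2, 4, 6, 9]] [(.mj 5 6, 34), (.mj 6 7, 28), (.mj 7 9, 6), (.hz 23 47, 18753), (.hz 23 63, 40498), (.hz 23 127, 53599), (.hz 22 319, 66799), (.hz 20 639, 71244), (.hz 19 639, 7778)]))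
(.lp [[7], [1, 3, 5, 8], [0, 2, 4, 6, 9]] [(.mj 0 1, 897), (.mj 5 6, 53), (.mj 7 8, 21), (.mj 7 9, 7), (.hz 22 31, 59549), (.hz 22 63, 60792), (.hz 20 639, 68694), (.hz 19 639, 30219)]))
(.lp [[7], [1, 3, 5, 8], [0, 2, 4, 6, 9]] [(.mj 0 1, 110), (.mj 6 7, 4), (.hz 21 31, 665), (.hz 21 63, 502), (.hz 11 159, 1451), (.hz 18 319, 2347)]))
(.lp [[7], [1, 3, 5, 8], [0, 2, 4, 6, 9]] [(.mj 5 6, 15), (.mj 7 8, 26), (.mj 7 9, 14), (.hz 20 31, 24800), (.hz 20 63, 48492), (.hz 17 159, 3185), (.hz 20 127, 73328), (.hz 19 639, 44384), (.hz 18 895, 1456)]))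
(.lp [[7], [1, 3, 5, 8], [0, 2, 4, 6, 9]] [(.mj 3 4, 76), (.mj 6 7, 1), (.hz 19 47, 4966), (.hz 19 63, 3476), (.hz 17 159, 6278), (.hz 19 127, 1926), (.hz 18 319, 574)]))
(.lp [[7], [1, 3, 5, 8], [0, 2, 4, 6, 9]] [(.mj 0 1, 345), (.mj 5 6, 19), (.mj 7 8, 2), (.hz 18 31, 2340), (.hz 18 63, 2734), (.hz 17 159, 10589)]))
(.lp [[7], [1, 3, 5, 8], [0, 2, 4, 6, 9]] [(.mj 0 1, 872), (.mj 6 7, 46), (.mj 7 8, 8), (.hz 17 31, 42486), (.hz 11 159, 17217), (.hz 16 319, 54542)]))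
(.lp [[7], [1, 3, 5, 8], [0, 2, 4, 6, 9]] [(.mj 0 1, 70), (.mj 5 6, 4), (.mj 7 8, 2), (.mj 7 9, 1), (.hz 16 31, 2241), (.hz 16 63, 2119)]))
(.haz 7 127 1 8
(.ask 159
(.mark 191 [6, 8, 10]
(.lp [[7, 10], [1, 3, 5, 8], [0, 2, 4, 6, 9]] [(.mj 0 1, 1247), (.mj 5 6, 39), (.mj 8 7, 17), (.hz 15 159, 49069), (.hz 11 1183, 3560), (.hz 15 1183, 65796), (.hz 16 383, 29048), (.hz 16 639, 83181), (.hz 15 1215, 47551)]))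
(.lp [[7], [1, 3, 5, 8], [0, 2, 4, 6, 9]] [(.mj 0 1, 857), (.mj 5 6, 25), (.mj 8 7, 10), (.mj 8 9, 1), (.hz 15 159, 32434), (.hz 15 191, 21428), (.hz 16 383, 6105), (.hz 16 639, 38620)]))
(.lp [[7], [1, 3, 5, 8], [0, 2, 4, 6, 9]] [(.mj 0 1, 580), (.mj 5 6, 14), (.mj 8 9, 3), (.hz 16 31, 11663), (.hz 16 63, 3460), (.hz 15 159, 4078)]))
(.ask 159
(.mark 191 [6, 8, 10]
(.cut 7 [(0, 1), (1, 1), (2, 1), (3, 1), (5, 1), (7, 1), (11, 1), (21, 1), (15, 1), (23, 1), (31, 1), (47, 1), (63, 1), (95, 1), (303, 1), (127, 1), (607, 1)]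
(.lp [[7, 10], [1, 3, 5, 8], [0, 2, 4, 6, 9]] [(.mj 0 1, 544248), (.mj 5 6, 28645), (.mj 9 7, 8023), (.mj 9 8, 2685), (.hz 15 159, 45723639), (.hz 15 1183, 53251353), (.hz 15 1215, 17088945), (.rw 8, 4)])))
(.ask 191
(.mark 191 [6, 8, 10]
(.cut 7 [(0, 1), (1, 1), (2, 1), (3, 1), (5, 1), (7, 1), (11, 1), (21, 1), (15, 1), (23, 1), (31, 1), (47, 1), (63, 1), (95, 1), (303, 1), (127, 1)]
(.lp [[7, 10], [1, 3, 5, 8], [0, 2, 4, 6, 9]] [(.mj 0 1, 113939), (.mj 5 6, 5997), (.mj 9 7, 1953), (.mj 9 8, 562), (.hz 15 159, 5267864), (.hz 15 447, 15356570), (.hz 15 1215, 8466491), (.rw 8, 2)])))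
(.lp [[7], [1, 3, 5, 8], [0, 2, 4, 6, 9]] [(.mj 0 1, 124), (.mj 5 6, 7), (.mj 9 7, 1), (.mj 9 8, 1), (.hz 15 447, 12462)])))
.fin))
(.haz 6 319 11 40
(.ref 0)
(.lp [[7], [0, 2, 4, 6], [1, 3, 5, 8]] [(.mj 0 1, 152), (.mj 5 7, 3), (.mj 6 7, 2), (.hz 16 31, 294), (.hz 16 63, 844)])))
(.lp [[7], [0, 2, 4, 6], [1, 3, 5, 8]] [(.mj 0 1, 247), (.mj 6 7, 8), (.hz 15 31, 22807), (.hz 11 159, 4055), (.hz 14 159, 3041)]))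
(.con 7 6)
(.lp [[7], [0, 2, 4, 6], [1, 3, 5, 8]] [(.mj 0 1, 212), (.mj 8 6, 6), (.mj 8 7, 5), (.hz 11 95, 3009), (.hz 11 159, 2358), (.hz 14 159, 6138)])
.fin))
(.ref 1))
(.lp [[7], [1, 3, 5], [0, 2, 4, 6]] [(.mj 0 1, 52), (.mj 6 7, 1), (.hz 14 31, 725), (.hz 11 159, 769)]))
(.lp [[7], [1, 3, 5], [0, 2, 4, 6]] [(.mj 3 4, 3), (.mj 6 5, 2), (.hz 11 31, 860)])
(.con 7 6)
.fin))
(.spn
(.lp [[], [1, 3, 5], [0, 2, 4, 6]] [(.mj 0 1, 2725), (.mj 5 6, 65)])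
(.lp [[], [1, 3, 5], [0, 2, 4, 6]] [(.mj 3 4, 2372), (.rw 5, 1), (.hz 11 31, 847290)])
.fin
.fin))
(.lp [[], [1, 3, 5], [0, 2, 4, 6]] [(.mj 0 1, 5), (.hz 13 15, 158)]))
(.lp [[], [1, 3, 5], [0, 2, 4, 6]] [(.mj 0 1, 4), (.hz 12 15, 181)]))
(.lp [[], [1, 3, 5], [0, 2, 4, 6]] [(.mj 3 4, 2), (.hz 11 15, 323)]))
(.lp [[], [0, 2, 4], [1, 3, 5]] [(.mj 0 1, 1)]))

theorem run251 : run P3488 (leaf3 218 625) (cutRow P3488) [s239, s250] t251 s251 = true := by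
  decide +kernel

theorem bad251 : Bad P3488 s251 :=
  run_sound (leaf3_sound P3488 rfl rfl) (cutRow_sound P3488) (
    List.forall_mem_cons.2 ⟨bad239, List.forall_mem_cons.2 ⟨bad250, fun _ h => absurd h List.not_mem_nil⟩⟩) t251 s251 run251

/-- the state above piece 140 of the tree -/
def s140 : St := ⟨[0, 0, 1, 3, 5, 11, 15, 21], [15, 11, 7, 5, 3, 2, 1, 0], [0, 1, 2, 3, 4],
  [],
  [⟨true, 2, 3, 3, 10⟩, ⟨true, 1, 5, 2, 5⟩, ⟨true, 2, 3, 23, 50⟩, ⟨true, 1, 5, 12, 25⟩, ⟨true, 1, 21, 27, 50⟩, ⟨true, 4, 15, 9, 40⟩, ⟨true, 3, 23, 11, 20⟩],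
  [.spn 0 0 651200, .spn 1 1 302400, .spn 3 2 302400, .spn 7 3 302400, .spn 15 4 140426]⟩

/-- piece 140 of the tree -/
noncomputable def t140 : WN.Tree :=
(.mark 31 [5, 6, 7]
(.spn
(.haz 4 79 7 25
(.haz 4 79 8 25
(.haz 7 95 9 50
(.haz 4 79 17 50
(.haz 4 79 9 25
(.haz 5 95 9 50
(.haz 5 95 13 50
(.ask 43
(.ref 0)
(.haz 3 151 29 50
(.haz 5 159 6 25
(.haz 7 127 11 50
(.ask 47
(.mark 63 [6, 7, 8]
(.spn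
(.haz 7 63 13 50
(.haz 7 31 3 10
(.lp [[6], [0, 2, 4, 7], [1, 3, 5, 8]] [(.mj 0 1, 56), (.mj 4 5, 5), (.mj 5 6, 10), (.mj 6 7, 21), (.hz 4 149, 267), (.hz 18 31, 4011), (.hz 14 151, 245), (.hz 18 63, 18250), (.hz 18 95, 10806), (.hz 5 303, 1635), (.hz 18 319, 29599)])
(.lp [[6], [0, 2, 4, 7], [1, 3, 5, 8]] [(.mj 0 1, 153), (.mj 5 6, 14), (.mj 6 7, 19), (.hz 18 21, 4142), (.hz 18 23, 4660), (.hz 17 63, 2281), (.hz 17 127, 2534), (.hz 17 319, 5363)]))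
(.lp [[6], [0, 2, 4, 7], [1, 3, 5, 8]] [(.mj 0 1, 57), (.mj 5 6, 2), (.hz 17 21, 349), (.hz 17 23, 557), (.hz 17 31, 573), (.hz 17 63, 329), (.hz 13 95, 247), (.hz 9 95, 318)]))
(.haz 5 79 11 50
(.haz 6 47 11 50
(.lp [[6], [0, 2, 4, 7], [1, 3, 5, 8]] [(.mj 0 1, 13), (.mj 4 5, 3), (.mj 5 7, 14), (.mj 7 6, 16), (.hz 4 149, 53), (.hz 18 47, 1586), (.hz 18 63, 2921), (.hz 18 303, 1390), (.hz 18 191, 3459), (.hz 18 319, 4567)])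
(.haz 4 303 8 25
(.haz 4 303 9 25
(.haz 4 303 19 50
(.haz 4 303 2 5
(.haz 4 79 19 50
(.ask 149
(.ref 1)
(.haz 7 95 7 25
(.ask 151
(.mark 191 [6, 8, 9]
(.spn
(.ask 79
(.mark 255 [8, 9, 10]
(.lp [[6, 10], [1, 3, 5, 8], [0, 2, 4, 7, 9]] [(.mj 0 1, 631772), (.mj 3 4, 101676), (.mj 5 7, 28065), (.mj 7 6, 7094), (.mj 7 8, 2238), (.rw 6, 1), (.rw 7, 17), (.hz 23 1103, 928529), (.hz 17 1103, 479458), (.hz 14 663, 1189716), (.hz 24 1119, 13330774)]))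
(.haz 9 191 6 20
(.haz 8 63 4 20
(.lp [[6], [1, 3, 5, 8], [0, 2, 4, 7, 9]] [(.mj 0 1, 309109), (.mj 3 4, 51656), (.mj 5 7, 11364), (.mj 7 6, 626), (.rw 6, 1), (.hz 18 47, 76929), (.hz 24 95, 5050514), (.hz 14 663, 536628), (.hz 26 127, 1125256)])
(.lp [[6], [1, 3, 5, 8], [0, 2, 4, 7, 9]] [(.mj 0 1, 61171), (.mj 3 4, 11415), (.mj 5 7, 3759), (.mj 6 8, 365), (.mj 7 6, 2041), (.rw 7, 1), (.hz 26 47, 226131), (.hz 26 63, 837910), (.hz 24 95, 323790), (.hz 25 255, 2260384), (.hz 25 447, 559368)]))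
(.lp [[6], [1, 3, 5, 8], [0, 2, 4, 7, 9]] [(.mj 0 1, 1581), (.mj 3 4, 276), (.mj 5 7, 46), (.mj 7 6, 8), (.hz 25 151, 4390), (.hz 13 95, 602), (.hz 24 95, 18107), (.hz 14 663, 962)])))
(.ask 79
(.mark 255 [8, 9, 10]
(.lp [[6, 10], [1, 3, 5, 8], [0, 2, 4, 7, 9]] [(.mj 0 1, 311403), (.mj 3 4, 47236), (.mj 4 5, 1), (.mj 5 7, 14474), (.mj 8 6, 316), (.rw 6, 1), (.hz 24 95, 6810014), (.hz 23 1103, 853848), (.hz 14 663, 655038), (.hz 24 1119, 6750068), (.hz 13 735, 59393)]))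
(.lp [[6], [1, 3, 5, 8], [0, 2, 4, 7, 9]] [(.mj 0 1, 7298), (.mj 3 4, 1609), (.mj 4 5, 20), (.mj 5 7, 48), (.mj 8 6, 49), (.hz 24 95, 40696), (.hz 23 111, 14948), (.hz 14 663, 3404), (.hz 24 127, 36757)]))
(.ask 79
(.mark 255 [8, 9, 10]
(.lp [[6, 10], [1, 3, 5, 8], [0, 2, 4, 7, 9]] [(.mj 0 1, 272241), (.mj 3 4, 37897), (.mj 5 7, 14978), (.mj 9 8, 116), (.rw 6, 1), (.hz 24 95, 6172225), (.hz 23 1103, 713644), (.hz 14 663, 637098), (.hz 24 1119, 7661521)]))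
(.lp [[6], [1, 3, 5, 8], [0, 2, 4, 7, 9]] [(.mj 0 1, 7298), (.mj 3 4, 1609), (.mj 4 5, 20), (.mj 5 7, 48), (.mj 9 6, 49), (.hz 24 95, 40696), (.hz 23 111, 14948), (.hz 14 663, 3404), (.hz 24 127, 36757)]))
.fin))
(.lp [[6], [0, 2, 4, 7], [1, 3, 5, 8]] [(.mj 0 1, 261), (.mj 3 4, 17), (.mj 5 7, 23), (.hz 23 79, 107), (.hz 24 95, 9264)]))
(.lp [[6], [0, 2, 4, 7], [1, 3, 5, 8]] [(.mj 0 1, 157), (.mj 3 4, 6), (.mj 7 6, 4), (.hz 24 23, 3658), (.hz 24 31, 4652), (.hz 17 79, 2090), (.hz 9 95, 775)])))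
(.lp [[6], [0, 2, 4, 7], [1, 3, 5, 8]] [(.mj 4 5, 41), (.hz 23 5, 291), (.hz 23 7, 1051), (.hz 23 15, 3221), (.hz 18 15, 2658), (.hz 17 79, 2559)]))
(.lp [[6], [0, 2, 4, 7], [1, 3, 5, 8]] [(.mj 4 5, 1782), (.mj 5 7, 277), (.rw 6, 2), (.hz 22 47, 9879666), (.hz 11 79, 96021), (.hz 13 95, 270808), (.hz 9 95, 48395), (.hz 11 111, 845131), (.hz 21 303, 693374)]))
(.lp [[6], [0, 2, 4, 7], [1, 3, 5, 8]] [(.mj 4 5, 737), (.rw 6, 1), (.hz 21 5, 1530), (.hz 21 7, 5526), (.hz 21 15, 11972), (.hz 21 47, 438840), (.hz 11 79, 66511), (.hz 13 95, 127905), (.hz 11 111, 389543), (.hz 20 303, 645353)]))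
(.lp [[6], [0, 2, 4, 7], [1, 3, 5, 8]] [(.mj 0 1, 1), (.hz 20 5, 14), (.hz 20 7, 10), (.hz 20 15, 7), (.hz 18 15, 4)]))
(.lp [[6], [0, 2, 4, 7], [1, 3, 5, 8]] [(.mj 0 1, 1), (.hz 19 5, 17), (.hz 19 7, 12), (.hz 19 15, 8), (.hz 18 15, 4)])))
(.lp [[6], [0, 2, 4, 7], [1, 3, 5, 8]] [(.mj 3 4, 17), (.mj 7 6, 8), (.hz 17 15, 1602), (.hz 11 79, 2217), (.hz 13 95, 2760)]))
(.lp [[6], [0, 2, 4, 7], [1, 3, 5, 8]] [(.mj 0 1, 185), (.mj 4 5, 4), (.mj 8 7, 25), (.hz 4 149, 1157), (.hz 11 79, 231), (.hz 14 151, 2319), (.hz 13 95, 3080), (.hz 9 95, 4314), (.hz 15 159, 8398), (.hz 16 127, 12941)])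
.fin))
(.ref 2))
(.lp [[6], [1, 3, 5], [0, 2, 4, 7]] [(.mj 0 1, 128), (.mj 5 6, 1), (.hz 16 21, 722), (.hz 16 23, 1043), (.hz 16 31, 851), (.hz 13 95, 1272), (.hz 9 95, 119)]))
(.lp [[6], [1, 3, 5], [0, 2, 4, 7]] [(.mj 5 6, 884), (.mj 5 7, 1155), (.rw 5, 1), (.hz 15 15, 141220), (.hz 15 31, 648236), (.hz 9 95, 356840)]))
(.lp [[6], [1, 3, 5], [0, 2, 4, 7]] [(.mj 0 1, 64), (.mj 3 4, 35), (.mj 4 5, 1), (.hz 14 7, 1378), (.hz 14 23, 5), (.hz 11 79, 29), (.hz 13 95, 56)])))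
(.lp [[6], [1, 3, 5], [0, 2, 4, 7]] [(.mj 0 1, 3611), (.mj 5 6, 1813), (.mj 5 7, 2665), (.rw 5, 1), (.hz 13 11, 29033), (.hz 13 15, 113285), (.hz 13 31, 552160), (.hz 9 95, 783578)]))
(.lp [[6], [1, 3, 5], [0, 2, 4, 7]] [(.mj 3 4, 758), (.mj 5 6, 297), (.rw 5, 1), (.hz 12 11, 6819), (.hz 12 15, 18545), (.hz 12 31, 230780)]))
(.lp [[6], [1, 3, 5], [0, 2, 4, 7]] [(.mj 0 1, 64), (.mj 5 6, 2), (.hz 11 5, 911), (.hz 11 7, 729), (.hz 11 15, 445), (.hz 10 79, 287), (.hz 9 95, 349)]))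
(.lp [[6], [1, 3, 5], [0, 2, 4, 7]] [(.mj 0 1, 23), (.mj 5 6, 1), (.hz 10 5, 162), (.hz 10 7, 128), (.hz 10 15, 77), (.hz 8 79, 177)]))
(.lp [[6], [1, 3, 5], [0, 2, 4, 7]] [(.mj 0 1, 96), (.mj 5 6, 2), (.hz 9 21, 523), (.hz 9 23, 744), (.hz 9 31, 596)]))
(.lp [[6], [1, 3, 5], [0, 2, 4, 7]] [(.mj 0 1, 20), (.mj 5 6, 1), (.hz 8 5, 276), (.hz 8 7, 216), (.hz 8 15, 129), (.hz 7 79, 154)]))
(.lp [[6], [1, 3, 5], [0, 2, 4, 7]] [(.mj 0 1, 17), (.mj 5 6, 1), (.hz 7 5, 220), (.hz 7 7, 169), (.hz 7 15, 99), (.hz 5 79, 79)]))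
(.haz 4 79 7 25
(.haz 6 63 6 25
(.haz 4 15 17 50
(.haz 3 151 29 50
(.ref 3)
(.lp [[6], [1, 3, 5], [0, 2, 4, 7]] [(.mj 0 1, 202), (.mj 3 4, 110), (.mj 6 5, 3), (.hz 10 7, 4363), (.hz 2 43, 320), (.hz 9 47, 358)]))
(.lp [[6], [1, 3, 5], [0, 2, 4, 7]] [(.mj 0 1, 543), (.mj 4 6, 31), (.hz 9 5, 3794), (.hz 9 7, 3051), (.hz 9 15, 1926), (.hz 5 47, 809), (.hz 8 63, 5393)]))
(.lp [[6], [1, 3, 5], [0, 2, 4, 7]] [(.mj 3 4, 4), (.mj 6 5, 9), (.mj 6 7, 7), (.hz 8 15, 1151), (.hz 8 31, 1930)]))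
(.lp [[6], [1, 3, 5], [0, 2, 4, 7]] [(.mj 0 1, 14), (.mj 4 6, 1), (.hz 7 5, 190), (.hz 7 7, 146), (.hz 7 15, 85)]))
(.haz 5 79 7 50
(.haz 5 31 11 50
(.lp [[6], [1, 3, 5], [0, 2, 4, 7]] [(.mj 3 4, 36), (.mj 7 5, 26), (.mj 7 6, 12), (.hz 8 31, 2301), (.hz 5 79, 2806), (.hz 7 79, 2666), (.hz 8 95, 6929)])
(.lp [[6], [1, 3, 5], [0, 2, 4, 7]] [(.mj 3 4, 135), (.mj 7 6, 68), (.hz 8 11, 2280), (.hz 8 15, 6344), (.hz 8 31, 4015), (.hz 5 79, 6948), (.hz 7 79, 5962), (.hz 7 95, 13627)]))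
(.lp [[6], [1, 3, 5], [0, 2, 4, 7]] [(.mj 3 4, 26), (.mj 7 6, 16), (.hz 7 11, 428), (.hz 7 15, 1950), (.hz 5 79, 1388)]))
.fin))

theorem run140 : run P3488 (leaf3 218 625) (cutRow P3488) [s130, s128, s129, s139] t140 s140 = true := by
  decide +kernel

theorem bad140 : Bad P3488 s140 :=
  run_sound (leaf3_sound P3488 rfl rfl) (cutRow_sound P3488) (
    List.forall_mem_cons.2 ⟨bad130, List.forall_mem_cons.2 ⟨bad128, List.forall_mem_cons.2 ⟨bad129, List.forall_mem_cons.2 ⟨bad139, fun _ h => absurd h List.not_mem_nil⟩⟩⟩⟩) t140 s140 run140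

/-- the state above piece 125 of the tree -/
def s125 : St := ⟨[0, 0, 1, 3, 5, 7], [11, 7, 5, 3, 2, 1, 0], [0, 1, 2, 3],
  [],
  [⟨true, 2, 3, 3, 10⟩, ⟨true, 1, 5, 2, 5⟩, ⟨true, 2, 3, 23, 50⟩, ⟨true, 1, 5, 12, 25⟩, ⟨true, 4, 39, 4, 25⟩],
  [.spn 0 0 651200, .spn 1 1 302400, .spn 3 2 302400, .spn 7 3 140426]⟩

/-- piece 125 of the tree -/
noncomputable def t125 : WN.Tree :=
(.haz 4 39 9 50
(.haz 4 15 4 25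
(.haz 4 15 9 50
(.ask 15
(.mark 15 [4, 5, 6]
(.spn
(.ref 0)
(.haz 4 7 6 25
(.lp [[5], [0, 2, 4], [1, 3, 6]] [(.mj 3 5, 6), (.mj 5 4, 13), (.hz 8 7, 759), (.hz 8 15, 1189), (.hz 8 39, 990), (.hz 8 79, 1564)])
(.haz 3 23 17 50
(.haz 3 23 9 25
(.haz 1 21 37 50
(.haz 3 23 19 50
(.ask 39
(.mark 47 [4, 6, 7]
(.spn
(.haz 6 191 1 4
(.haz 6 175 3 10
(.ask 79
(.mark 79 [4, 5, 8]
(.lp [[4], [0, 2, 5, 7], [1, 3, 6, 8]] [(.mj 3 5, 50), (.mj 4 6, 30), (.mj 4 7, 2), (.mj 5 4, 44), (.hz 5 39, 325), (.hz 7 79, 2239), (.hz 5 167, 3413), (.hz 14 175, 21659), (.hz 7 335, 2731)]))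
(.lp [[4], [1, 3, 6], [0, 2, 5, 7]] [(.mj 3 5, 41), (.mj 4 6, 22), (.mj 5 4, 34), (.hz 5 39, 663), (.hz 7 79, 1664), (.hz 5 167, 2573), (.hz 14 175, 15009)]))
(.ask 79
(.mark 79 [4, 5, 8]
(.lp [[4], [0, 2, 5, 7], [1, 3, 6, 8]] [(.mj 0 1, 79), (.mj 3 5, 97), (.mj 5 4, 67), (.hz 11 21, 308), (.hz 14 15, 14055), (.hz 5 39, 3674), (.hz 14 47, 20203), (.hz 7 79, 3428), (.hz 5 167, 6576), (.hz 7 335, 4180)]))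
(.lp [[4], [1, 3, 6], [0, 2, 5, 7]] [(.mj 3 5, 8), (.mj 5 4, 5), (.hz 5 39, 305), (.hz 14 47, 2914), (.hz 5 167, 574)])))
(.lp [[4], [1, 3, 6], [0, 2, 5, 7]] [(.mj 0 1, 3), (.mj 3 5, 13), (.mj 5 4, 9), (.hz 13 15, 6349), (.hz 5 39, 530), (.hz 13 47, 5487), (.hz 7 79, 568), (.hz 5 167, 878)]))
(.lp [[4], [1, 3, 6], [0, 2, 5, 7]] [(.mj 0 1, 5), (.mj 6 4, 1), (.hz 11 21, 21), (.hz 7 15, 69), (.hz 5 39, 25), (.hz 5 47, 115), (.hz 7 79, 4), (.hz 5 167, 100), (.hz 12 183, 149)])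
(.lp [[4], [1, 3, 6], [0, 2, 5, 7]] [(.mj 0 1, 10), (.mj 3 5, 1), (.mj 7 4, 3), (.hz 11 21, 37), (.hz 7 15, 124), (.hz 5 39, 157), (.hz 5 47, 279), (.hz 7 79, 200)])
.fin))
(.ask 47
(.mark 47 [4, 6, 7]
(.spn
(.haz 6 175 1 20
(.haz 6 175 1 10
(.ask 175
(.haz 7 111 9 20
(.ask 79
(.ask 21
(.mark 127 [7, 9, 10]
(.lp [[4, 10], [1, 3, 6, 9], [0, 2, 5, 7, 8]] [(.mj 0 1, 21), (.mj 3 5, 1), (.mj 4 7, 2), (.mj 5 4, 5), (.hz 11 1045, 87), (.hz 7 79, 258), (.hz 12 1047, 212), (.hz 15 111, 265), (.hz 7 591, 430), (.hz 15 623, 1337)]))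
(.mark 111 [4, 7, 9]
(.lp [[4], [1, 3, 6, 9], [0, 2, 5, 7, 8]] [(.mj 0 1, 65), (.mj 3 5, 4), (.mj 4 7, 5), (.mj 5 4, 14), (.hz 12 23, 84), (.hz 7 79, 581), (.hz 15 111, 525), (.hz 7 591, 1527), (.hz 15 623, 2729)])))
(.ask 111
(.ask 21
(.mark 255 [8, 9, 10]
(.lp [[4, 10], [1, 3, 6, 9], [0, 2, 5, 7, 8]] [(.mj 0 1, 61), (.mj 3 5, 3), (.mj 4 6, 1), (.mj 4 7, 15), (.mj 5 4, 24), (.hz 11 1045, 208), (.hz 12 1047, 155), (.hz 15 111, 4584), (.hz 15 623, 5658)]))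
(.mark 111 [4, 7, 9]
(.lp [[4], [1, 3, 6, 9], [0, 2, 5, 7, 8]] [(.mj 0 1, 308), (.mj 3 5, 15), (.mj 4 7, 16), (.mj 5 4, 53), (.hz 12 23, 889), (.hz 7 79, 3511), (.hz 15 111, 3505), (.hz 15 623, 6373)])))
(.lp [[4], [1, 3, 6], [0, 2, 5, 7, 8]] [(.mj 0 1, 28), (.mj 3 5, 2), (.mj 4 7, 11), (.mj 5 4, 22), (.hz 14 175, 14)])))
(.ask 21
(.mark 63 [6, 7, 9]
(.spn
(.haz 6 175 1 4
(.mark 175 [4, 6, 8]
(.lp [[4, 9], [1, 3, 6], [0, 2, 5, 7, 8]] [(.mj 4 6, 8), (.mj 5 4, 11), (.mj 6 7, 3), (.hz 15 47, 670), (.hz 7 79, 516), (.hz 16 175, 7536), (.hz 16 431, 10048)]))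
(.mark 191 [6, 8, 9]
(.lp [[4, 9], [1, 3, 6], [0, 2, 5, 7, 8]] [(.mj 5 4, 3), (.mj 6 7, 1), (.hz 16 15, 1857), (.hz 16 47, 6703), (.hz 15 47, 1032)])))
(.lp [[4, 9], [1, 3, 6], [0, 2, 5, 7, 8]] [(.mj 0 1, 581), (.mj 3 5, 13), (.mj 5 4, 109), (.mj 7 6, 14), (.hz 11 533, 2393), (.hz 15 47, 12557), (.hz 7 79, 17054), (.hz 12 535, 5836), (.hz 5 111, 4265)])
(.lp [[4, 9], [1, 3, 6], [0, 2, 5, 7, 8]] [(.mj 3 5, 2), (.mj 5 4, 3), (.mj 9 6, 2), (.mj 9 7, 1), (.hz 15 47, 440), (.hz 7 79, 470), (.hz 5 111, 429), (.hz 14 175, 1680), (.hz 14 431, 1102)])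
.fin))
(.lp [[4], [1, 3, 6], [0, 2, 5, 7, 8]] [(.mj 0 1, 469), (.mj 3 5, 13), (.mj 5 4, 52), (.hz 12 23, 2283), (.hz 15 47, 2576), (.hz 7 79, 5297)])))
(.ask 21
(.mark 63 [6, 7, 8]
(.lp [[5, 7], [1, 3, 6], [0, 2, 4, 8]] [(.mj 0 1, 86), (.mj 3 5, 1), (.mj 4 6, 1), (.mj 4 7, 1), (.mj 5 4, 16), (.hz 11 277, 356), (.hz 7 79, 2143), (.hz 12 279, 869), (.hz 5 111, 281), (.hz 12 311, 281)]))
(.lp [[4], [1, 3, 6], [0, 2, 5, 7]] [(.mj 0 1, 260), (.mj 3 5, 8), (.mj 4 7, 2), (.mj 5 4, 33), (.hz 12 23, 1048), (.hz 7 79, 3444), (.hz 5 111, 340)])))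
(.lp [[4], [1, 3, 6], [0, 2, 5, 7]] [(.mj 0 1, 19), (.mj 3 5, 148), (.mj 4 7, 78), (.mj 5 4, 132), (.hz 14 15, 34919), (.hz 14 47, 42359), (.hz 7 79, 8233), (.hz 13 175, 31830)]))
(.lp [[4], [1, 3, 6], [0, 2, 5, 7]] [(.mj 0 1, 1), (.mj 3 5, 19), (.mj 4 7, 10), (.mj 5 4, 17), (.hz 13 15, 2697), (.hz 13 47, 2612)]))
(.lp [[4], [1, 3, 6], [0, 2, 5, 7]] [(.mj 0 1, 5), (.mj 6 4, 1), (.hz 11 21, 21), (.hz 7 15, 69), (.hz 5 39, 25), (.hz 5 47, 115), (.hz 7 79, 4)])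
(.lp [[4], [1, 3, 6], [0, 2, 5, 7]] [(.mj 0 1, 5), (.mj 7 4, 1), (.hz 11 21, 19), (.hz 7 15, 62), (.hz 5 39, 23), (.hz 5 47, 104), (.hz 7 79, 14)])
.fin))
(.lp [[5], [0, 2, 4], [1, 3, 6]] [(.mj 0 1, 144), (.mj 5 4, 46), (.hz 11 21, 346), (.hz 7 15, 2782), (.hz 7 79, 4347)])))
(.lp [[5], [0, 2, 4], [1, 3, 6]] [(.mj 3 5, 56), (.mj 5 4, 30), (.hz 12 7, 3366), (.hz 8 7, 1567), (.hz 10 23, 3798), (.hz 5 39, 2803)]))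
(.lp [[5], [0, 2, 4], [1, 3, 6]] [(.hz 11 5, 19), (.hz 8 5, 38)]))
(.lp [[5], [0, 2, 4], [1, 3, 6]] [(.mj 3 5, 14), (.mj 5 4, 8), (.hz 10 7, 1703), (.hz 8 7, 357), (.hz 9 23, 502), (.hz 5 39, 700)]))
(.lp [[5], [0, 2, 4], [1, 3, 6]] [(.mj 3 5, 4), (.hz 8 5, 47), (.hz 9 7, 208), (.hz 8 7, 343), (.hz 5 39, 184)])))
(.ask 21
(.mark 31 [5, 6, 7]
(.cut 5 [(0, 1), (1, 1), (2, 1), (3, 1), (5, 1), (7, 1), (11, 1), (21, 1), (23, 1), (149, 1)]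
(.cut 5 [(0, 1), (1, 1), (2, 1), (3, 1), (5, 1), (7, 1), (11, 1), (21, 1), (15, 1), (23, 1), (149, 1), (31, 1), (151, 1)]
(.lp [[5], [1, 3, 6], [0, 2, 4, 7]] [(.mj 0 1, 121508), (.mj 6 4, 48735), (.mj 6 5, 5062), (.hz 7 15, 3995989), (.hz 5 39, 3030690), (.hz 3 149, 1536649), (.hz 5 47, 4536616), (.rw 5, 7), (.rw 6, 4)]))))
(.lp [[5], [0, 2, 4], [1, 3, 6]] [(.mj 0 1, 82680), (.mj 6 4, 8402), (.rw 4, 4), (.hz 7 15, 945269), (.hz 5 39, 315090)]))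
.fin))
(.spn
(.haz 5 31 6 25
(.lp [[5], [1, 3], [0, 2, 4]] [(.mj 3 4, 5), (.mj 4 5, 3), (.hz 8 31, 543)])
(.lp [[5], [1, 3], [0, 2, 4]] [(.mj 3 4, 1), (.hz 8 7, 4), (.hz 8 15, 61), (.hz 5 39, 67)]))
(.haz 4 7 11 50
(.lp [[5], [1, 3], [0, 2, 4]] [(.mj 3 5, 9), (.mj 5 4, 5), (.hz 8 39, 763)])
(.haz 4 39 1 5
(.lp [[5], [1, 3], [0, 2, 4]] [(.mj 3 5, 22), (.mj 5 4, 12), (.hz 9 39, 18501)])
(.haz 5 23 9 25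
(.ask 21
(.mark 23 [3, 5, 6]
(.lp [[5], [1, 3], [0, 2, 4, 6]] [(.mj 0 1, 125), (.mj 3 5, 52), (.mj 5 4, 12), (.hz 10 23, 7695), (.hz 3 85, 2820), (.hz 10 87, 6463)]))
(.lp [[5], [1, 3], [0, 2, 4]] [(.mj 0 1, 51), (.mj 3 5, 4), (.hz 9 7, 3212), (.hz 10 23, 408)]))
(.lp [[5], [1, 3], [0, 2, 4]] [(.mj 0 1, 9), (.mj 5 4, 5), (.hz 9 7, 1077), (.hz 10 7, 1077), (.hz 5 39, 303)]))))
.fin
.fin))
(.lp [[5], [1, 3], [0, 2, 4]] [(.mj 0 1, 14), (.mj 3 5, 1), (.hz 7 5, 80), (.hz 7 7, 44), (.hz 5 39, 47)]))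
(.lp [[5], [1, 3], [0, 2, 4]] [(.mj 0 1, 17), (.mj 3 5, 1), (.hz 6 5, 192), (.hz 6 7, 105), (.hz 5 39, 56)]))
(.lp [[5], [1, 3], [0, 2, 4]] [(.mj 0 1, 139), (.mj 3 5, 10), (.hz 5 5, 796), (.hz 5 7, 437), (.hz 4 39, 961)]))

theorem run125 : run P3488 (leaf3 218 625) (cutRow P3488) [s124] t125 s125 = true := by
  decide +kernel

theorem bad125 : Bad P3488 s125 :=
  run_sound (leaf3_sound P3488 rfl rfl) (cutRow_sound P3488) (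
    List.forall_mem_cons.2 ⟨bad124, fun _ h => absurd h List.not_mem_nil⟩) t125 s125 run125

/-- the state above piece 193 of the tree -/
def s193 : St := ⟨[0, 0, 1, 3, 5, 15, 21], [31, 23, 21, 15, 11, 7, 5, 3, 2, 1, 0], [0, 1, 2, 3, 4],
  [(5, 6), (4, 5)],
  [⟨true, 2, 3, 3, 10⟩, ⟨true, 1, 5, 2, 5⟩, ⟨true, 2, 3, 23, 50⟩, ⟨true, 1, 5, 12, 25⟩, ⟨true, 1, 21, 27, 50⟩, ⟨true, 4, 15, 9, 40⟩, ⟨true, 3, 23, 11, 20⟩, ⟨true, 4, 47, 7, 20⟩, ⟨true, 4, 47, 17, 40⟩, ⟨true, 4, 47, 9, 20⟩, ⟨true, 4, 47, 19, 40⟩, ⟨true, 3, 87, 27, 40⟩, ⟨true, 5, 95, 1, 4⟩],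
  [.spn 0 0 651200, .spn 1 1 302400, .spn 3 2 302400, .spn 7 3 302400, .spn 15 4 302400]⟩

/-- piece 193 of the tree -/
noncomputable def t193 : WN.Tree :=
(.spn
(.ask 47
(.ask 47
(.mark 63 [6, 7, 8]
(.spn
(.haz 7 383 1 20
(.haz 6 191 11 40
(.haz 8 255 3 40
(.haz 7 303 3 40
(.ask 85
(.mark 127 [7, 8, 9]
(.spn
(.ask 175
(.mark 255 [8, 9, 10]
(.lp [[8], [0, 2, 4, 6, 9], [1, 3, 5, 7, 10]] [(.mj 3 4, 607), (.mj 7 8, 79), (.rw 4, 2)]))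
(.haz 7 319 11 40
(.ask 191
(.mark 255 [8, 9, 10]
(.lp [[8], [0, 2, 4, 6, 9], [1, 3, 5, 7, 10]] [(.mj 3 4, 1955), (.mj 6 7, 721), (.mj 7 8, 254), (.rw 4, 2), (.hz 17 319, 313520)]))
(.ask 255
(.mark 255 [8, 9, 10]
(.spn
(.haz 10 767 13 40
(.lp [[8], [0, 2, 4, 6, 9], [1, 3, 5, 7, 10]] [(.mj 3 4, 36156), (.mj 6 7, 5254), (.mj 7 8, 7505), (.mj 8 10, 5380), (.rw 4, 61), (.hz 15 767, 6496754), (.hz 18 767, 7986567)])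
(.lp [[8], [0, 2, 4, 6, 9], [1, 3, 5, 7, 10]] [(.mj 3 4, 546), (.mj 6 7, 42), (.mj 7 8, 64), (.rw 4, 1), (.hz 18 255, 50543)]))
(.lp [[8], [0, 2, 4, 6, 9], [1, 3, 5, 7, 10]] [(.mj 3 4, 592), (.mj 9 8, 66), (.mj 9 10, 71), (.rw 4, 1), (.hz 17 319, 23586)])
(.ask 303
(.mark 383 [7, 9, 11]
(.lp [[8, 11], [0, 2, 4, 6, 9], [1, 3, 5, 7, 10]] [(.mj 3 4, 1232), (.mj 6 7, 691), (.mj 10 8, 72), (.rw 4, 1), (.hz 17 319, 356814), (.hz 10 2351, 58443), (.hz 17 2367, 420417)]))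
(.lp [[8], [0, 2, 4, 6, 9], [1, 3, 5, 7, 10]] [(.mj 3 4, 3721), (.mj 6 7, 1963), (.mj 10 8, 467), (.rw 4, 1), (.hz 17 319, 965595), (.hz 15 255, 342639)]))
.fin))
(.lp [[8], [1, 3, 5, 7], [0, 2, 4, 6, 9]] [(.mj 3 4, 426), (.mj 6 7, 29), (.mj 7 8, 57), (.rw 4, 1)])))
(.lp [[8], [1, 3, 5, 7], [0, 2, 4, 6, 9]] [(.mj 3 4, 4297), (.mj 7 8, 1337), (.rw 4, 8), (.hz 17 63, 1055775), (.hz 16 303, 403618), (.hz 16 319, 584809)])))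
(.con 8 7)
(.lp [[8], [1, 3, 5, 7], [0, 2, 4, 6, 9]] [(.mj 3 4, 336), (.mj 9 7, 80), (.mj 9 8, 80), (.rw 4, 1)])
.fin))
(.ref 0))
(.cut 8 [(0, 1), (1, 1), (2, 1), (3, 1), (5, 1), (7, 1), (11, 1), (21, 1), (15, 1), (23, 1), (85, 1), (31, 1), (47, 1), (87, 1), (63, 1), (95, 1)]
(.lp [[8], [0, 2, 4, 6], [1, 3, 5, 7]] [(.mj 3 4, 62523), (.mj 6 8, 1368), (.mj 7 8, 10396), (.rw 4, 35), (.hz 16 47, 3492280), (.rw 7, 6)])))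
(.cut 8 [(0, 1), (1, 1), (2, 1), (3, 1), (5, 1), (7, 1), (11, 1), (21, 1), (15, 1), (23, 1), (85, 1), (31, 1), (47, 1), (87, 1), (63, 1), (95, 1)]
(.lp [[8], [0, 2, 4, 6], [1, 3, 5, 7]] [(.mj 3 4, 8107), (.mj 6 7, 1396), (.rw 4, 4), (.hz 15 47, 109030), (.hz 15 63, 305285), (.hz 15 127, 718317), (.hz 10 431, 40507), (.rw 7, 1)])))
(.lp [[8], [0, 2, 4, 6], [1, 3, 5, 7]] [(.mj 4 5, 1031), (.rw 4, 1), (.hz 14 31, 138950), (.hz 14 63, 80550)]))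
(.lp [[8], [0, 2, 4, 6], [1, 3, 5, 7]] [(.mj 3 4, 13906), (.mj 7 8, 2570), (.rw 4, 7), (.hz 13 47, 401618), (.hz 13 63, 1124530)]))
(.lp [[8], [0, 2, 4, 6], [1, 3, 5, 7]] [(.mj 7 6, 294), (.rw 4, 2)])
(.con 8 7)
.fin))
(.ref 1))
(.ask 63
(.haz 6 63 1 10
(.ask 63
(.ref 2)
(.spn
(.lp [[], [0, 2, 4, 6], [1, 3, 5, 7]] [(.mj 3 4, 4), (.mj 6 7, 1)])
(.ask 191
(.ask 191
(.mark 191 [6, 8, 9]
(.spn
(.haz 8 703 11 40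
(.ask 703
(.haz 9 255 11 40
(.mark 703 [6, 8, 10]
(.lp [[8], [0, 2, 4, 6], [1, 3, 5, 7, 9, 10]] [(.mj 6 8, 9603), (.mj 8 9, 5047), (.rw 6, 8), (.hz 15 255, 2734695), (.hz 14 703, 1522922), (.hz 14 1727, 2100582)]))
(.mark 703 [6, 8, 10]
(.lp [[8], [0, 2, 4, 6], [1, 3, 5, 7, 9, 10]] [(.mj 6 8, 5584), (.mj 8 9, 512), (.rw 6, 5), (.hz 15 191, 530107), (.hz 14 703, 885632), (.hz 14 1727, 1221562)])))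
(.lp [[9], [0, 2, 4, 6], [1, 3, 5, 7, 8]] [(.mj 6 8, 1114), (.mj 8 9, 279), (.rw 6, 1)]))
(.lp [[9], [0, 2, 4, 6], [1, 3, 5, 7, 8]] [(.mj 8 9, 4012), (.rw 6, 4), (.hz 14 191, 1140898), (.hz 13 703, 10531364)]))
(.ask 447
(.mark 447 [6, 9, 10]
(.spn
(.lp [[9], [0, 2, 4, 6], [1, 3, 5, 7, 8, 10]] [(.mj 8 6, 627), (.rw 8, 1)])
(.maj 6 10
(.ask 1471
(.mark 1471 [6, 9, 11]
(.cut 6 [(0, 1), (1, 1), (2, 1), (3, 1), (5, 1), (7, 1), (11, 1), (21, 1), (15, 1), (23, 1), (31, 1), (47, 1), (63, 1), (191, 1), (447, 1)]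
(.lp [[9], [0, 2, 4, 6], [1, 3, 5, 7, 8, 10, 11]] [(.mj 0 1, 17184), (.mj 6 10, 581), (.mj 8 9, 8527), (.mj 9 6, 11628), (.hz 13 63, 10740115), (.hz 13 1471, 22045500), (.hz 13 3519, 10174846), (.rw 9, 16)])))
(.lp [[9], [0, 2, 4, 6], [1, 3, 5, 7, 8, 10]] [(.mj 6 10, 4), (.mj 8 9, 17), (.mj 9 6, 12), (.hz 13 703, 56330), (.hz 13 1471, 3736)]))
(.lp [[9], [0, 2, 4, 6], [1, 3, 5, 7, 8, 10]] [(.mj 0 1, 9), (.mj 8 9, 1), (.mj 9 10, 1), (.mj 10 6, 6), (.hz 13 63, 5727), (.hz 13 191, 3818), (.hz 13 447, 4242), (.hz 13 703, 7506), (.hz 13 959, 10606), (.hz 13 1471, 3030)]))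
(.ask 1471
(.mark 1471 [6, 9, 11]
(.spn
(.lp [[9], [0, 2, 4, 6], [1, 3, 5, 7, 8, 10, 11]] [(.mj 10 6, 213), (.rw 9, 1)])
(.lp [[9], [0, 2, 4, 6], [1, 3, 5, 7, 8, 10, 11]] [(.mj 0 1, 3771), (.rw 8, 1), (.rw 9, 3), (.hz 13 63, 2356774), (.hz 13 191, 1571183), (.hz 13 447, 1745758), (.hz 13 703, 1745758), (.hz 13 959, 3879463)])
(.lp [[9], [0, 2, 4, 6], [1, 3, 5, 7, 8, 10, 11]] [(.mj 0 1, 25035), (.mj 11 6, 13246), (.rw 9, 1), (.hz 13 63, 15646722), (.hz 13 191, 10431148), (.hz 13 447, 11590164), (.hz 13 703, 11590164), (.hz 13 1471, 12877960)])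
.fin))
(.lp [[9], [0, 2, 4, 6], [1, 3, 5, 7, 8, 10]] [(.mj 10 9, 1), (.rw 8, 1)]))
.fin))
(.lp [[9], [0, 2, 4, 6], [1, 3, 5, 7, 8]] [(.mj 0 1, 632), (.mj 8 9, 215), (.rw 7, 1), (.hz 13 703, 1670959)]))
(.con 9 8)
.fin))
(.spn
(.lp [[], [0, 2, 4, 6], [1, 3, 5, 7, 8]] [(.rw 6, 1), (.rw 7, 2)])
(.ask 447
(.haz 7 127 4 5
(.ask 447
(.mark 447 [6, 9, 10]
(.spn
(.lp [[10], [0, 2, 4, 6], [1, 3, 5, 7, 8, 9]] [(.rw 7, 1), (.rw 8, 3)])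
(.ask 959
(.mark 959 [6, 10, 11]
(.spn
(.lp [[10], [0, 2, 4, 6], [1, 3, 5, 7, 8, 9, 11]] [(.mj 9 6, 213), (.rw 9, 1)])
(.lp [[10], [0, 2, 4, 6], [1, 3, 5, 7, 8, 9, 11]] [(.mj 0 1, 9227), (.mj 10 6, 4479), (.rw 8, 1), (.hz 13 63, 5766898), (.hz 13 191, 3844599), (.hz 13 447, 4271776), (.hz 13 959, 3527155), (.hz 13 1471, 391906), (.hz 13 3007, 3919061)])
(.lp [[10], [0, 2, 4, 6], [1, 3, 5, 7, 8, 9, 11]] [(.mj 0 1, 3), (.mj 11 6, 2), (.hz 13 63, 1906), (.hz 13 191, 1271), (.hz 13 447, 1412), (.hz 13 959, 1569), (.hz 13 1471, 1569)])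
.fin))
(.lp [[10], [0, 2, 4, 6], [1, 3, 5, 7, 8, 9]] [(.mj 9 10, 820), (.rw 8, 1)]))
(.con 10 9)
.fin))
(.spn
(.lp [[], [0, 2, 4, 6], [1, 3, 5, 7, 8, 9]] [(.mj 8 6, 1), (.rw 8, 1)])
(.ask 959
(.maj 6 10
(.ask 959
(.mark 959 [6, 10, 11]
(.spn
(.lp [[11], [0, 2, 4, 6], [1, 3, 5, 7, 8, 9, 10]] [(.mj 9 6, 213), (.rw 9, 1)])
(.con 10 6)
(.con 11 10)
.fin))
(.lp [[], [0, 2, 4, 6], [1, 3, 5, 7, 8, 9, 10]] [(.mj 6 10, 1069), (.rw 8, 1)]))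
(.lp [[], [0, 2, 4, 6], [1, 3, 5, 7, 8, 9, 10]] [(.mj 0 1, 3), (.mj 10 6, 2), (.hz 13 63, 1906), (.hz 13 191, 1271), (.hz 13 447, 1412), (.hz 13 959, 1569)]))
(.lp [[], [0, 2, 4, 6], [1, 3, 5, 7, 8, 9]] [(.mj 9 6, 1)]))
.fin
.fin))
(.lp [[], [0, 2, 4, 6], [1, 3, 5, 7, 8, 9]] [(.mj 8 6, 1), (.hz 14 63, 2365), (.hz 13 191, 788)]))
(.lp [[], [0, 2, 4, 6], [1, 3, 5, 7, 8]] [(.mj 8 6, 1)]))
.fin
.fin))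
(.lp [[], [0, 2, 4, 6], [1, 3, 5, 7]] [(.mj 7 6, 1)]))
.fin
.fin))
(.lp [[], [0, 2, 4, 6], [1, 3, 5, 7]] [(.mj 0 1, 6), (.hz 13 21, 146), (.hz 13 23, 182), (.hz 13 31, 96)]))
(.lp [[], [1, 3, 5], [0, 2, 4, 6]] [(.mj 5 6, 1)])))
(.con 6 5)
.fin
.fin)

theorem run193 : run P3488 (leaf3 218 625) (cutRow P3488) [s190, s191, s192] t193 s193 = true := by
  decide +kernel

theorem bad193 : Bad P3488 s193 :=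
  run_sound (leaf3_sound P3488 rfl rfl) (cutRow_sound P3488) (
    List.forall_mem_cons.2 ⟨bad190, List.forall_mem_cons.2 ⟨bad191, List.forall_mem_cons.2 ⟨bad192, fun _ h => absurd h List.not_mem_nil⟩⟩⟩) t193 s193 run193

end Pool.Agent.WN.Data
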