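import Pool.Agent.WN.CutRow
import Pool.Agent.WN.LeafRow
import Pool.Agent.Helper99.WN.ParDef
import Pool.Agent.WN.Data.D1
import Pool.Agent.WN.Data.D11
import Pool.Agent.WN.Data.D14
import Pool.Agent.WN.Data.D30
import Pool.Agent.WN.Data.D34
import Pool.Agent.WN.Data.D37
import Pool.Agent.WN.Data.D40
import Pool.Agent.WN.Data.D42
import Pool.Agent.WN.Data.D44
import Pool.Agent.WN.Data.D45
import Pool.Agent.WN.Data.D46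

/-!
# The search tree, part 47
-/

set_option autoImplicit false

namespace Pool.Agent.WN.Data

open Pool.Agent.W3 Pool.Agent.WN Pool.Agent.Helper99.WN

/-- the state above piece 78 of the tree -/
def s78 : St := ⟨[0, 0, 1, 1], [1, 0], [0, 1],
  [],
  [],
  [.spn 0 0 651200, .spn 1 1 140426]⟩

/-- piece 78 of the tree -/
noncomputable def t78 : WN.Tree :=
(.haz 1 9 7 50
(.haz 2 11 3 50
(.haz 2 9 9 50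
(.haz 3 3 1 5
(.ask 2
(.mark 3 [2, 3, 4]
(.spn
(.ask 9
(.ask 5
(.mark 7 [3, 4, 6]
(.spn
(.mark 15 [4, 5, 6]
(.spn
(.haz 4 71 7 40
(.haz 6 47 3 20
(.haz 4 7 1 4
(.ask 69
(.mark 79 [4, 5, 7]
(.lp [[1, 4], [3, 5], [0, 2, 6, 7]] [(.mj 1 2, 34220), (.mj 2 3, 51360), (.mj 3 4, 51715), (.mj 4 6, 17495), (.rw 2, 11), (.rw 4, 1), (.hz 2 41, 98470), (.hz 6 71, 16569337), (.hz 6 47, 23909053), (.hz 5 47, 12043089), (.hz 3 199, 3336689), (.hz 6 199, 44256532)]))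
(.lp [[1, 4], [3, 5], [0, 2, 6]] [(.mj 1 2, 7), (.mj 2 3, 24), (.mj 3 4, 23), (.mj 4 6, 11), (.hz 6 7, 1359), (.hz 6 15, 2911), (.hz 3 71, 5013), (.hz 6 71, 14075), (.hz 6 47, 12861), (.hz 5 47, 6521)]))
(.lp [[1, 4], [3, 5], [0, 2, 6]] [(.mj 2 3, 10), (.mj 4 6, 8), (.hz 6 2, 1311), (.hz 6 3, 3046), (.hz 6 7, 5384), (.hz 3 19, 38), (.hz 3 71, 5631), (.hz 5 47, 5179), (.hz 4 111, 637)]))
(.lp [[1, 4], [3, 5], [0, 2, 6]] [(.mj 2 3, 6), (.mj 3 4, 4), (.hz 5 5, 137), (.hz 5 7, 434), (.hz 5 13, 69), (.hz 5 15, 318)]))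
(.lp [[1, 4], [3, 5], [0, 2, 6]] [(.mj 1 2, 6), (.mj 2 3, 7), (.mj 4 6, 3), (.hz 4 2, 114), (.hz 4 3, 251), (.hz 4 7, 306), (.hz 3 71, 3799)]))
(.haz 6 15 3 8
(.lp [[1, 4], [3, 5], [0, 2, 6]] [(.mj 0 1, 8638), (.mj 1 2, 3848), (.mj 2 3, 9840), (.mj 5 4, 2054), (.mj 5 6, 6844), (.rw 2, 1), (.hz 3 19, 5399004), (.hz 0 41, 76042), (.hz 4 15, 3639588), (.hz 3 23, 10771761), (.hz 3 71, 1789553), (.hz 2 27, 99084), (.hz 4 31, 16950436), (.hz 4 47, 768776)])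
(.ask 18
(.mark 31 [5, 6, 7]
(.lp [[3, 5], [0, 2, 6], [1, 4, 7]] [(.mj 0 1, 4), (.mj 1 2, 4), (.mj 2 3, 6), (.mj 5 4, 2), (.mj 5 6, 1), (.hz 4 5, 135), (.hz 4 7, 979), (.hz 3 19, 3767), (.hz 3 147, 3351)]))
(.lp [[1, 4], [3, 5], [0, 2, 6]] [(.mj 1 2, 13), (.mj 2 3, 13), (.mj 5 4, 9), (.mj 5 6, 1), (.hz 4 7, 2682), (.hz 3 19, 8598), (.hz 3 23, 5916)])))
(.haz 2 9 7 20
(.haz 4 7 1 5
(.lp [[1, 4], [3, 5], [0, 2, 6]] [(.mj 1 2, 57), (.mj 2 3, 35), (.mj 3 6, 23), (.mj 6 4, 62), (.hz 5 7, 8943), (.hz 4 41, 2575), (.hz 5 15, 82982), (.hz 5 71, 17419), (.hz 4 43, 7381), (.hz 5 47, 174046)])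
(.haz 5 79 7 40
(.lp [[1, 4], [3, 5], [0, 2, 6]] [(.mj 1 2, 423), (.mj 2 3, 130), (.mj 6 4, 11), (.hz 5 2, 29042), (.hz 5 3, 65344), (.hz 5 7, 44579), (.hz 4 41, 37448), (.hz 3 71, 102318), (.hz 6 79, 15135)])
(.lp [[1, 4], [3, 5], [0, 2, 6]] [(.mj 1 2, 31), (.mj 2 3, 5), (.mj 3 6, 3), (.mj 6 4, 9), (.hz 5 2, 1288), (.hz 5 3, 2897), (.hz 6 11, 817), (.hz 4 41, 1084), (.hz 6 15, 323), (.hz 4 27, 740)])))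
(.lp [[1, 4], [3, 5], [0, 2, 6]] [(.mj 0 1, 67), (.mj 2 3, 229), (.mj 6 4, 56), (.hz 4 1, 12422), (.hz 3 19, 128678), (.hz 0 41, 1327), (.hz 2 41, 1277), (.hz 3 23, 8921), (.hz 3 71, 29694), (.hz 2 27, 4729)]))
.fin))
(.haz 6 13 3 10
(.haz 6 7 17 40
(.mark 9 [1, 2, 5]
(.lp [[1, 4], [3, 5], [0, 2, 6]] [(.mj 0 1, 1492), (.mj 4 3, 923), (.mj 4 6, 1080), (.rw 3, 1), (.hz 3 3, 159539), (.hz 3 7, 1008746), (.hz 5 7, 158354), (.hz 4 13, 247185), (.hz 2 41, 10905), (.hz 3 71, 1541270)]))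
(.mark 11 [2, 4, 5]
(.lp [[1, 4], [3, 5], [0, 2, 6]] [(.mj 0 1, 8), (.mj 4 3, 8), (.hz 3 3, 2968), (.hz 5 5, 158), (.hz 3 7, 3153), (.hz 4 13, 763), (.hz 2 41, 97), (.hz 4 15, 871), (.hz 3 71, 2339)])))
(.lp [[1, 4], [3, 5], [0, 2, 6]] [(.mj 0 1, 5), (.mj 4 3, 4), (.hz 3 3, 1070), (.hz 4 5, 284), (.hz 3 7, 912), (.hz 3 19, 280), (.hz 3 71, 1682)]))
(.mark 15 [4, 5, 6]
(.lp [[1, 4], [3, 5], [0, 2, 6]] [(.mj 0 1, 8), (.mj 1 2, 10), (.mj 6 3, 8), (.mj 6 4, 2), (.hz 3 3, 356), (.hz 3 7, 6845), (.hz 3 19, 4822), (.hz 2 41, 139), (.hz 3 71, 138), (.hz 2 27, 649)]))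
.fin))
(.ref 0))
(.ref 1))
(.con 3 2)
(.lp [[3], [0, 2], [1, 4]] [(.mj 0 1, 146), (.mj 2 3, 115), (.mj 4 2, 140), (.hz 3 3, 32362), (.hz 2 9, 1751), (.hz 2 11, 7730), (.hz 3 19, 47541), (.hz 2 27, 2475)])
.fin))
(.haz 1 5 13 50
(.ask 3
(.ref 2)
(.spn
(.haz 2 11 3 5
(.haz 2 9 8 25
(.haz 2 9 17 50
(.ask 5
(.ref 3)
(.ask 7
(.haz 2 11 33 50
(.maj 3 4
(.ask 7
(.mark 7 [3, 4, 5]
(.spn
(.haz 4 47 4 25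
(.ask 9
(.mark 15 [4, 5, 6]
(.spn
(.ask 73
(.mark 79 [4, 5, 7]
(.lp [[1, 4], [2, 5], [0, 3, 6, 7]] [(.mj 1 2, 1), (.hz 3 3, 36), (.hz 7 73, 12), (.hz 7 201, 2), (.hz 8 203, 25)]))
(.haz 2 75 18 25
(.lp [[1, 5], [3, 6], [0, 2, 4]] [(.mj 1 2, 11), (.hz 3 3, 6), (.hz 3 7, 337), (.hz 10 75, 535)])
(.lp [[1, 5], [3, 6], [0, 2, 4]] [(.mj 1 2, 13), (.hz 10 3, 58), (.hz 8 11, 59), (.hz 8 75, 318)])))
(.con 5 4)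
(.lp [[1, 5], [3, 6], [0, 2, 4]] [(.mj 1 2, 70), (.mj 2 3, 8), (.mj 6 4, 12), (.mj 6 5, 10), (.hz 7 9, 1004), (.hz 8 11, 1034), (.hz 3 39, 3903), (.hz 9 47, 7480)])
.fin))
(.ask 13
(.mark 15 [4, 5, 6]
(.lp [[1, 5], [3, 6], [0, 2, 4]] [(.mj 1 2, 1), (.hz 3 3, 36)]))
(.ask 11
(.mark 15 [4, 5, 6]
(.spn
(.ask 23
(.ref 4)
(.haz 3 39 13 50
(.haz 3 39 3 10
(.haz 5 79 7 50
(.haz 3 39 8 25
(.haz 4 79 7 25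
(.haz 4 79 2 5
(.haz 3 55 2 5
(.ask 31
(.mark 31 [5, 6, 7]
(.spn
(.haz 6 159 2 25
(.haz 5 79 1 5
(.haz 3 55 23 50
(.haz 3 55 1 2
(.haz 2 75 18 25
(.ask 39
(.mark 63 [6, 7, 8]
(.spn
(.haz 7 63 2 5
(.lp [[3, 6], [1, 5, 8], [0, 2, 4, 7]] [(.mj 2 3, 5), (.mj 4 5, 2), (.mj 6 7, 1), (.hz 18 79, 5209), (.hz 13 295, 200), (.hz 22 63, 3486), (.hz 20 311, 6867), (.hz 22 319, 6637)])
(.lp [[3, 6], [1, 5, 8], [0, 2, 4, 7]] [(.mj 2 3, 55), (.mj 4 5, 32), (.hz 22 31, 23981), (.hz 18 79, 88241), (.hz 22 63, 9089), (.hz 20 311, 52242)]))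
(.ref 5)
(.lp [[3, 6], [1, 5, 8], [0, 2, 4, 7]] [(.mj 4 5, 49), (.mj 8 6, 21), (.mj 8 7, 23), (.hz 21 75, 1230), (.hz 18 79, 126311), (.hz 18 95, 44728), (.hz 17 159, 33046), (.hz 18 223, 363270)])
.fin))
(.haz 3 55 13 25
(.ref 6)
(.lp [[1, 5], [3, 6], [0, 2, 4, 7]] [(.mj 2 3, 23), (.mj 4 5, 144), (.hz 22 23, 28662), (.hz 21 75, 3683), (.hz 18 79, 326496), (.hz 20 55, 322134)])))
(.lp [[1, 5], [3, 6], [0, 2, 4, 7]] [(.mj 2 3, 11), (.mj 4 5, 4), (.hz 21 11, 1258), (.hz 13 39, 348), (.hz 8 75, 372), (.hz 18 79, 8935), (.hz 20 55, 9688)]))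
(.lp [[1, 5], [3, 6], [0, 2, 4, 7]] [(.mj 2 3, 22), (.mj 4 5, 119), (.hz 20 23, 283469), (.hz 8 75, 1564), (.hz 18 79, 269677), (.hz 19 55, 10649)]))
(.lp [[1, 5], [3, 6], [0, 2, 4, 7]] [(.mj 2 3, 5), (.mj 4 5, 24), (.hz 19 23, 2167), (.hz 8 75, 309), (.hz 18 79, 54743), (.hz 16 55, 21520)]))
(.lp [[1, 5], [3, 6], [0, 2, 4, 7]] [(.mj 2 3, 338), (.mj 5 7, 59), (.hz 18 7, 173236), (.hz 18 15, 14370), (.hz 12 79, 18761), (.hz 17 159, 32346)]))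
(.lp [[1, 5], [3, 6], [0, 2, 4, 7]] [(.mj 1 2, 152), (.mj 3 4, 2), (.mj 4 5, 2), (.hz 17 11, 4354), (.hz 13 39, 497), (.hz 8 75, 73)]))
(.lp [[1, 5], [3, 6], [0, 2, 4, 7]] [(.mj 2 3, 7), (.mj 6 5, 2), (.mj 6 7, 1), (.hz 13 39, 380), (.hz 12 79, 135), (.hz 16 55, 1291)])
(.haz 3 55 29 50
(.lp [[1, 5], [3, 6], [0, 2, 4, 7]] [(.mj 1 2, 244), (.mj 2 3, 86), (.mj 7 5, 14), (.hz 13 39, 5790), (.hz 8 75, 1933), (.hz 9 47, 640), (.hz 15 79, 5369), (.hz 12 79, 1917), (.hz 17 55, 1597), (.hz 12 95, 3835)])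
(.lp [[1, 5], [3, 6], [0, 2, 4, 7]] [(.mj 2 3, 51), (.mj 7 5, 95), (.hz 17 23, 26042), (.hz 13 39, 25201), (.hz 15 79, 64340), (.hz 16 55, 195063)]))
.fin))
(.spn
(.lp [[1, 5], [3, 6], [0, 2, 4]] [(.mj 4 5, 12), (.mj 5 6, 5), (.hz 8 75, 69), (.hz 12 79, 2561)])
(.lp [[1, 5], [3, 6], [0, 2, 4]] [(.mj 2 3, 3), (.mj 6 5, 1), (.hz 13 39, 149), (.hz 16 55, 596)])
.fin
.fin))
(.lp [[1, 5], [3, 6], [0, 2, 4]] [(.mj 2 3, 6), (.mj 4 5, 8), (.hz 16 23, 6252), (.hz 13 39, 2043), (.hz 12 79, 1070)]))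
(.lp [[1, 5], [3, 6], [0, 2, 4]] [(.mj 2 3, 38), (.mj 4 5, 25), (.hz 15 15, 19098), (.hz 13 39, 4520), (.hz 12 79, 3447)]))
(.lp [[1, 5], [3, 6], [0, 2, 4]] [(.mj 2 3, 2), (.mj 4 5, 1), (.hz 14 7, 124), (.hz 14 15, 103), (.hz 13 39, 123), (.hz 12 79, 155)]))
(.lp [[1, 5], [3, 6], [0, 2, 4]] [(.mj 1 2, 13), (.mj 3 4, 16), (.mj 4 5, 15), (.hz 13 7, 4819), (.hz 11 39, 10417), (.hz 8 75, 879), (.hz 12 79, 2051)]))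
(.lp [[1, 5], [3, 6], [0, 2, 4]] [(.mj 1 2, 80), (.mj 2 3, 29), (.hz 12 7, 745), (.hz 11 39, 5318), (.hz 8 75, 532)]))
(.lp [[1, 5], [3, 6], [0, 2, 4]] [(.mj 3 4, 17), (.mj 4 5, 18), (.hz 11 3, 312), (.hz 11 7, 13391), (.hz 10 39, 2417), (.hz 8 75, 646)]))
(.lp [[1, 5], [3, 6], [0, 2, 4]] [(.mj 3 4, 3), (.mj 3 5, 2), (.mj 4 5, 3), (.hz 10 7, 698), (.hz 3 39, 5320), (.hz 8 75, 187)])))
(.con 5 4)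
(.lp [[1, 5], [3, 6], [0, 2, 4]] [(.mj 2 3, 31), (.mj 6 4, 30), (.mj 6 5, 25), (.hz 8 11, 4451), (.hz 3 39, 9856), (.hz 9 47, 18890)])
.fin))
(.lp [[3], [1, 5], [0, 2, 4]] [(.mj 1 2, 1), (.hz 3 3, 36)]))))
(.lp [[3], [1, 5], [0, 2, 4]] [(.mj 1 2, 50), (.mj 2 3, 35), (.mj 4 5, 14), (.hz 9 7, 1640), (.hz 3 39, 14265)]))
(.con 4 3)
(.con 5 4)
.fin))
(.ref 7))
(.lp [[1], [3], [0, 2, 4]] [(.mj 4 3, 1), (.hz 3 3, 257), (.hz 3 7, 493)]))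
(.lp [[1], [3], [0, 2, 4]] [(.mj 2 3, 2), (.hz 8 3, 78), (.hz 5 11, 70)]))
(.lp [[1], [3], [0, 2]] [(.mj 2 3, 1)])))
(.lp [[1], [3], [0, 2]] [(.mj 2 3, 4), (.hz 7 1, 171), (.hz 6 9, 186), (.hz 5 11, 20)]))
(.lp [[1], [3], [0, 2]] [(.mj 2 3, 5), (.hz 6 1, 338), (.hz 3 3, 258), (.hz 2 9, 93)]))
(.lp [[1], [3], [0, 2]] [(.mj 1 2, 6), (.mj 2 3, 11), (.hz 5 3, 3119), (.hz 3 7, 1386)]))
(.con 3 2)
.fin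
.fin))
(.lp [[1], [3], [0, 2]] [(.mj 1 2, 17), (.mj 2 3, 14), (.hz 4 1, 288), (.hz 3 3, 3561), (.hz 2 9, 217)])))
(.ref 8))
(.haz 3 3 6 25
(.lp [[1], [3], [0, 2]] [(.mj 0 1, 55), (.mj 2 3, 41), (.hz 2 1, 511), (.hz 3 3, 2044)])
(.lp [[1], [3], [0, 2]] [(.mj 0 1, 13), (.hz 2 1, 101), (.hz 3 1, 202)])))
(.cut 2 [(0, 1), (1, 1), (2, 1)]
(.lp [[1], [3], [0, 2]] [(.mj 0 1, 2885), (.mj 2 3, 1085), (.hz 1 1, 17366), (.hz 1 3, 39468), (.hz 0 9, 27135), (.rw 2, 1)])))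
(.lp [[1], [3], [0, 2]] [(.mj 1 2, 1), (.mj 2 3, 1), (.hz 0 0, 12), (.hz 0 1, 14)]))

theorem run78 : run P3488 (leaf3 218 625) (cutRow P3488) [s5, s18, s63, s62, s55, s51, s54, s61, s76] t78 s78 = true := by
  decide +kernel

theorem bad78 : Bad P3488 s78 :=
  run_sound (leaf3_sound P3488 rfl rfl) (cutRow_sound P3488) (
    List.forall_mem_cons.2 ⟨bad5, List.forall_mem_cons.2 ⟨bad18, List.forall_mem_cons.2 ⟨bad63, List.forall_mem_cons.2 ⟨bad62, List.forall_mem_cons.2 ⟨bad55, List.forall_mem_cons.2 ⟨bad51, List.forall_mem_cons.2 ⟨bad54, List.forall_mem_cons.2 ⟨bad61, List.forall_mem_cons.2 ⟨bad76, fun _ h => absurd h List.not_mem_nil⟩⟩⟩⟩⟩⟩⟩⟩⟩) t78 s78 run78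

/-- the state above piece 126 of the tree -/
def s126 : St := ⟨[0, 0, 1, 3, 5, 7], [7, 5, 3, 2, 1, 0], [0, 1, 2, 3],
  [],
  [⟨true, 2, 3, 3, 10⟩, ⟨true, 1, 5, 2, 5⟩, ⟨true, 2, 3, 23, 50⟩, ⟨true, 1, 5, 12, 25⟩],
  [.spn 0 0 651200, .spn 1 1 302400, .spn 3 2 302400, .spn 7 3 140426]⟩

/-- piece 126 of the tree -/
noncomputable def t126 : WN.Tree :=
(.haz 4 39 4 25
(.ask 11
(.mark 15 [4, 5, 6]
(.spn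
(.haz 1 21 27 50
(.haz 4 39 11 50
(.haz 3 39 13 50
(.haz 4 39 6 25
(.haz 4 79 7 25
(.ask 21
(.mark 31 [5, 6, 7]
(.spn
(.haz 6 47 3 20
(.haz 6 159 1 5
(.haz 5 159 3 20
(.haz 5 79 1 4
(.ask 39
(.mark 63 [6, 7, 8]
(.lp [[5, 8], [1, 3, 6], [0, 2, 4, 7]] [(.mj 0 1, 233), (.mj 3 4, 332), (.mj 4 5, 200), (.mj 5 6, 186), (.hz 2 75, 1592), (.hz 9 79, 11544), (.hz 13 79, 162987), (.hz 8 295, 54098), (.hz 12 159, 32648), (.hz 11 159, 357383)]))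
(.ask 47
(.mark 63 [6, 7, 8]
(.spn
(.ask 75
(.mark 127 [7, 8, 9]
(.lp [[5, 8], [0, 2, 4, 7], [1, 3, 6, 9]] [(.mj 0 1, 6279), (.mj 3 4, 10913), (.mj 4 5, 7644), (.mj 5 6, 5516), (.mj 6 7, 143), (.rw 6, 1), (.hz 2 587, 105618), (.hz 12 159, 1583885), (.hz 11 159, 9652183), (.hz 10 303, 999104), (.hz 13 591, 15745298)]))
(.ask 79
(.mark 79 [4, 5, 9]
(.lp [[5, 8], [0, 2, 4, 7], [1, 3, 6, 9]] [(.mj 3 4, 4), (.mj 4 5, 3), (.mj 5 6, 2), (.hz 13 79, 302), (.hz 13 95, 1526), (.hz 12 159, 602), (.hz 11 159, 3490), (.hz 10 303, 305), (.hz 13 591, 4776)]))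
(.lp [[5, 8], [1, 3, 6], [0, 2, 4, 7]] [(.mj 3 4, 8), (.mj 4 5, 6), (.mj 5 6, 4), (.hz 13 95, 3655), (.hz 12 159, 1251), (.hz 11 159, 7338), (.hz 8 303, 19), (.hz 10 303, 708)])))
(.lp [[5, 8], [1, 3, 6], [0, 2, 4, 7]] [(.mj 3 4, 12), (.mj 4 5, 12), (.mj 5 7, 5), (.mj 7 6, 10), (.hz 2 75, 234), (.hz 9 79, 241), (.hz 13 79, 23453), (.hz 10 63, 6067), (.hz 11 159, 10177), (.hz 10 303, 2869), (.hz 10 319, 8153), (.hz 9 367, 1253)])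
(.lp [[5, 8], [1, 3, 6], [0, 2, 4, 7]] [(.mj 3 4, 6), (.mj 4 5, 6), (.mj 8 6, 4), (.mj 8 7, 1), (.hz 2 75, 114), (.hz 9 79, 111), (.hz 13 79, 11472), (.hz 10 63, 2937), (.hz 12 159, 1410), (.hz 11 159, 8485)])
.fin))
(.lp [[5], [1, 3, 6], [0, 2, 4, 7]] [(.mj 0 1, 179), (.mj 3 4, 69), (.mj 4 5, 18), (.mj 5 6, 19), (.hz 5 149, 708), (.hz 9 79, 2181), (.hz 13 79, 1577), (.hz 12 159, 6175), (.hz 11 159, 32989)])))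
(.lp [[5], [1, 3, 6], [0, 2, 4, 7]] [(.mj 0 1, 10), (.mj 3 4, 25), (.mj 5 6, 18), (.hz 13 7, 9530), (.hz 13 15, 18344), (.hz 9 79, 1641), (.hz 12 159, 3871), (.hz 11 159, 31519)]))
(.lp [[5], [1, 3, 6], [0, 2, 4, 7]] [(.mj 3 4, 3), (.mj 5 6, 2), (.hz 12 7, 212), (.hz 12 15, 390), (.hz 9 79, 196), (.hz 11 159, 3727)]))
(.lp [[5], [1, 3, 6], [0, 2, 4, 7]] [(.mj 3 4, 25), (.mj 4 5, 13), (.hz 11 11, 4234), (.hz 11 15, 11643), (.hz 8 39, 2014), (.hz 11 31, 7277), (.hz 10 47, 2767)]))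
(.lp [[5], [1, 3, 6], [0, 2, 4, 7]] [(.mj 3 4, 5), (.mj 4 5, 3), (.hz 10 11, 214), (.hz 10 15, 988), (.hz 8 39, 453)]))
(.ref 0)
(.haz 6 47 9 50
(.lp [[5], [1, 3, 6], [0, 2, 4, 7]] [(.mj 3 4, 11), (.mj 7 5, 3), (.mj 7 6, 6), (.hz 8 39, 1416), (.hz 2 75, 54), (.hz 8 47, 76), (.hz 10 47, 1402), (.hz 9 79, 825), (.hz 9 111, 4408)])
(.lp [[5], [1, 3, 6], [0, 2, 4, 7]] [(.mj 3 4, 5), (.mj 7 5, 2), (.hz 10 11, 84), (.hz 10 15, 405), (.hz 8 39, 1030), (.hz 8 47, 197)]))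
.fin))
(.haz 4 39 13 50
(.haz 6 47 1 50
(.ref 1)
(.lp [[5], [0, 2, 4], [1, 3, 6]] [(.mj 3 4, 33), (.mj 4 5, 8), (.hz 11 11, 368), (.hz 11 15, 929), (.hz 10 39, 2599)]))
(.lp [[5], [0, 2, 4], [1, 3, 6]] [(.mj 0 1, 35), (.mj 4 5, 4), (.hz 10 7, 460), (.hz 7 39, 130), (.hz 8 39, 193)])))
(.lp [[5], [0, 2, 4], [1, 3, 6]] [(.mj 0 1, 24999), (.mj 4 5, 1633), (.rw 4, 4), (.hz 9 5, 292276), (.hz 9 7, 122462), (.hz 9 15, 1020516)]))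
(.lp [[5], [0, 2, 4], [1, 3, 6]] [(.mj 0 1, 48), (.mj 4 5, 5), (.hz 8 5, 609), (.hz 8 7, 801), (.hz 7 39, 183), (.hz 6 39, 133)]))
(.lp [[5], [0, 2, 4], [1, 3, 6]] [(.mj 3 4, 3), (.mj 3 5, 2), (.hz 7 3, 68), (.hz 7 7, 126), (.hz 6 39, 218)]))
(.lp [[5], [0, 2, 4], [1, 3, 6]] [(.mj 0 1, 112), (.mj 3 5, 8), (.mj 4 5, 5), (.hz 6 5, 704), (.hz 6 7, 902), (.hz 4 39, 1421)]))
(.lp [[5], [0, 2, 4], [1, 3, 6]] [(.mj 2 3, 49), (.mj 3 4, 90), (.hz 5 5, 3955), (.hz 3 21, 6743)]))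
(.haz 4 15 7 50
(.haz 4 7 13 50
(.lp [[5], [0, 2, 4], [1, 3, 6]] [(.mj 3 5, 1), (.mj 5 4, 7), (.hz 6 7, 266), (.hz 6 15, 428), (.hz 6 39, 39), (.hz 2 75, 156), (.hz 6 79, 599)])
(.haz 5 23 3 10
(.haz 1 21 27 40
(.haz 3 23 13 40
(.ask 21
(.haz 4 15 1 5
(.ask 39
(.mark 63 [6, 7, 8]
(.lp [[5, 8], [1, 3, 6], [0, 2, 4, 7]] [(.mj 0 1, 185), (.mj 3 5, 26), (.mj 5 4, 35), (.hz 8 149, 1189), (.hz 10 47, 19832), (.hz 10 79, 45143), (.hz 9 151, 1454), (.hz 7 151, 13794), (.hz 10 303, 11839)]))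
(.ask 47
(.mark 47 [4, 6, 8]
(.spn
(.mark 63 [6, 7, 8]
(.spn
(.lp [[5, 8], [1, 3, 6], [0, 2, 4, 7]] [(.mj 0 1, 84), (.mj 3 5, 2), (.mj 5 4, 20), (.mj 6 8, 3), (.hz 10 15, 6401), (.hz 8 149, 422), (.hz 10 79, 28659), (.hz 9 151, 748), (.hz 10 303, 9303)])
(.lp [[5, 8], [1, 3, 6], [0, 2, 4, 7]] [(.mj 0 1, 27), (.mj 3 5, 2), (.mj 5 4, 11), (.mj 7 6, 3), (.mj 7 8, 4), (.hz 6 5, 44), (.hz 8 149, 79), (.hz 10 79, 18541), (.hz 10 111, 5883), (.hz 10 303, 9411)])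
(.haz 8 111 8 25
(.lp [[5, 8], [1, 3, 6], [0, 2, 4, 7]] [(.mj 0 1, 411), (.mj 3 5, 12), (.mj 4 8, 34), (.mj 5 4, 97), (.hz 8 149, 2234), (.hz 10 47, 3914), (.hz 10 79, 143838), (.hz 9 151, 5684), (.hz 11 111, 12760)])
(.lp [[5, 8], [1, 3, 6], [0, 2, 4, 7]] [(.mj 0 1, 9), (.mj 5 4, 2), (.hz 8 149, 47), (.hz 11 47, 164), (.hz 10 79, 3312), (.hz 9 151, 118), (.hz 10 111, 377)]))
.fin))
(.lp [[5, 8], [1, 3, 6], [0, 2, 4, 7]] [(.mj 0 1, 4), (.mj 6 4, 1), (.hz 8 21, 21), (.hz 10 15, 474), (.hz 7 23, 55), (.hz 10 47, 820), (.hz 10 303, 120)])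
(.mark 23 [3, 5, 7]
(.lp [[5, 8], [1, 3, 6], [0, 2, 4, 7]] [(.mj 0 1, 4), (.mj 8 4, 1), (.hz 8 21, 17), (.hz 10 15, 531), (.hz 8 149, 1), (.hz 10 47, 1056)]))
.fin))
(.mark 23 [3, 5, 7]
(.lp [[5], [1, 3, 6], [0, 2, 4, 7]] [(.mj 0 1, 7), (.mj 5 4, 2), (.hz 10 15, 707), (.hz 8 149, 33), (.hz 10 79, 2289), (.hz 9 151, 48)]))))
(.mark 23 [3, 5, 7]
(.lp [[5], [1, 3, 6], [0, 2, 4, 7]] [(.mj 0 1, 91), (.mj 3 5, 13), (.hz 10 5, 5463), (.hz 10 15, 5824), (.hz 8 149, 33), (.hz 4 47, 909), (.hz 7 151, 6369)])))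
(.ask 23
(.mark 23 [3, 5, 7]
(.lp [[5], [1, 3, 6], [0, 2, 4, 7]] [(.mj 0 1, 324), (.mj 3 5, 57), (.mj 5 4, 28), (.hz 9 23, 69), (.hz 7 23, 13996), (.hz 5 79, 2413), (.hz 7 151, 14140)]))
(.lp [[5], [0, 2, 4], [1, 3, 6]] [(.mj 0 1, 13), (.mj 3 5, 1), (.mj 5 4, 1)])))
(.lp [[5], [0, 2, 4], [1, 3, 6]] [(.mj 3 5, 13), (.hz 9 3, 215), (.hz 6 5, 78), (.hz 9 7, 604), (.hz 6 7, 290), (.hz 7 23, 3219)]))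
(.lp [[5], [0, 2, 4], [1, 3, 6]] [(.mj 0 1, 1), (.hz 8 5, 83), (.hz 6 5, 67)]))
(.lp [[5], [0, 2, 4], [1, 3, 6]] [(.mj 0 1, 307), (.mj 5 4, 20), (.hz 6 5, 1596), (.hz 6 7, 1476), (.hz 7 7, 16208), (.hz 4 39, 2452), (.hz 5 79, 1716)])))
(.lp [[5], [0, 2, 4], [1, 3, 6]] [(.mj 0 1, 11), (.mj 3 5, 1), (.hz 5 5, 62), (.hz 5 7, 33), (.hz 4 39, 73)]))
(.haz 3 7 17 50
(.lp [[5], [0, 2, 4], [1, 3, 6]] [(.mj 0 1, 53), (.mj 6 4, 10), (.mj 6 5, 2), (.hz 3 21, 687), (.hz 5 23, 507), (.hz 5 39, 183), (.hz 4 39, 877), (.hz 4 47, 2274)])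
(.cut 4 [(0, 1), (1, 1), (2, 1), (3, 1), (5, 1), (7, 1), (11, 1), (75, 1)]
(.lp [[5], [0, 2, 4], [1, 3, 6]] [(.mj 6 4, 3682), (.mj 6 5, 3161), (.hz 5 3, 204568), (.hz 4 39, 461643), (.rw 5, 1)])))
.fin))
(.ref 2))
(.lp [[5], [1, 3], [0, 2, 4]] [(.mj 0 1, 122), (.mj 3 5, 10), (.hz 4 5, 1371), (.hz 4 7, 745)]))

theorem run126 : run P3488 (leaf3 218 625) (cutRow P3488) [s109, s110, s125] t126 s126 = true := by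
  decide +kernel

theorem bad126 : Bad P3488 s126 :=
  run_sound (leaf3_sound P3488 rfl rfl) (cutRow_sound P3488) (
    List.forall_mem_cons.2 ⟨bad109, List.forall_mem_cons.2 ⟨bad110, List.forall_mem_cons.2 ⟨bad125, fun _ h => absurd h List.not_mem_nil⟩⟩⟩) t126 s126 run126

/-- the state above piece 194 of the tree -/
def s194 : St := ⟨[0, 0, 1, 3, 5, 15, 21], [23, 21, 15, 11, 7, 5, 3, 2, 1, 0], [0, 1, 2, 3, 4],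
  [(5, 6), (4, 5)],
  [⟨true, 2, 3, 3, 10⟩, ⟨true, 1, 5, 2, 5⟩, ⟨true, 2, 3, 23, 50⟩, ⟨true, 1, 5, 12, 25⟩, ⟨true, 1, 21, 27, 50⟩, ⟨true, 4, 15, 9, 40⟩, ⟨true, 3, 23, 11, 20⟩, ⟨true, 4, 47, 7, 20⟩, ⟨true, 4, 47, 17, 40⟩, ⟨true, 4, 47, 9, 20⟩, ⟨true, 4, 47, 19, 40⟩, ⟨true, 3, 87, 27, 40⟩],
  [.spn 0 0 651200, .spn 1 1 302400, .spn 3 2 302400, .spn 7 3 302400, .spn 15 4 302400]⟩

/-- piece 194 of the tree -/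
noncomputable def t194 : WN.Tree :=
(.haz 5 95 1 4
(.ask 31
(.mark 31 [5, 6, 7]
(.spn
(.haz 5 159 1 4
(.ask 47
(.ref 0)
(.ask 63
(.mark 63 [6, 7, 8]
(.spn
(.lp [[7], [0, 2, 4, 6], [1, 3, 5, 8]] [(.mj 3 4, 19), (.mj 6 7, 2), (.mj 6 8, 3)])
(.ref 1)
(.ask 319
(.mark 319 [6, 7, 9]
(.spn
(.cut 7 [(0, 1), (1, 1), (2, 1), (3, 1), (5, 1), (7, 1), (11, 1), (21, 1), (15, 1), (23, 1), (85, 1), (31, 1), (47, 1), (87, 1), (63, 1), (319, 1)]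
(.lp [[7], [0, 2, 4, 6], [1, 3, 5, 8, 9]] [(.mj 3 4, 27609), (.mj 6 7, 809), (.mj 6 9, 1875), (.rw 7, 3), (.rw 8, 4)]))
(.ask 85
(.mark 383 [7, 9, 10]
(.cut 6 [(0, 1), (1, 1), (2, 1), (3, 1), (5, 1), (7, 1), (11, 1), (21, 1), (15, 1), (23, 1), (31, 1), (47, 1), (63, 1), (319, 1)]
(.lp [[7], [0, 2, 4, 6, 10], [1, 3, 5, 8, 9]] [(.mj 3 4, 31580), (.mj 7 9, 6767), (.mj 8 7, 8925), (.rw 8, 7)])))
(.haz 9 383 9 25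
(.haz 7 127 1 5
(.haz 9 383 23 50
(.cut 6 [(0, 1), (1, 1), (2, 1), (3, 1), (5, 1), (7, 1), (11, 1), (21, 1), (15, 1), (23, 1), (31, 1), (47, 1), (63, 1), (319, 1)]
(.lp [[7], [0, 2, 4, 6], [1, 3, 5, 8, 9]] [(.mj 3 4, 10721), (.mj 7 9, 3829), (.mj 8 7, 5494), (.hz 15 127, 33503007), (.hz 16 383, 1923090), (.rw 8, 1)]))
(.lp [[7], [0, 2, 4, 6], [1, 3, 5, 8, 9]] [(.mj 3 4, 5), (.mj 8 7, 2), (.hz 15 127, 20582), (.hz 16 319, 350)]))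
(.cut 6 [(0, 1), (1, 1), (2, 1), (3, 1), (5, 1), (7, 1), (11, 1), (21, 1), (15, 1), (23, 1), (31, 1), (47, 1), (63, 1), (319, 1)]
(.lp [[7], [0, 2, 4, 6], [1, 3, 5, 8, 9]] [(.mj 3 4, 8725), (.mj 7 6, 293), (.mj 7 9, 2308), (.hz 15 63, 8079143), (.hz 14 383, 1951350), (.rw 8, 1)])))
(.cut 6 [(0, 1), (1, 1), (2, 1), (3, 1), (5, 1), (7, 1), (11, 1), (21, 1), (15, 1), (23, 1), (31, 1), (47, 1), (63, 1), (319, 1)]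
(.lp [[7], [0, 2, 4, 6], [1, 3, 5, 8, 9]] [(.mj 7 6, 740), (.mj 8 7, 1004), (.hz 14 319, 281275), (.hz 14 383, 377430), (.rw 8, 1)]))))
(.ask 831
(.mark 831 [6, 7, 10]
(.spn
(.lp [[7], [0, 2, 4, 6], [1, 3, 5, 8, 9, 10]] [(.mj 9 6, 627), (.rw 8, 1)])
(.lp [[7], [0, 2, 4, 6], [1, 3, 5, 8, 9, 10]] [(.mj 9 7, 603), (.rw 8, 1)])
(.maj 6 7
(.ask 1855
(.mark 1855 [6, 7, 11]
(.spn
(.lp [[7], [0, 2, 4, 6], [1, 3, 5, 8, 9, 10, 11]] [(.mj 10 6, 213), (.rw 9, 1)])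
(.con 7 6)
(.haz 6 31 2 25
(.cut 6 [(0, 1), (1, 1), (2, 1), (3, 1), (5, 1), (7, 1), (11, 1), (21, 1), (15, 1), (23, 1), (31, 1), (47, 1), (63, 1), (319, 1)]
(.cut 7 [(0, 1), (1, 1), (2, 1), (3, 1), (5, 1), (7, 1), (11, 1), (21, 1), (15, 1), (23, 1), (85, 1), (31, 1), (47, 1), (87, 1), (63, 1)]
(.lp [[7], [0, 2, 4, 6], [1, 3, 5, 8, 9, 10, 11]] [(.mj 11 6, 8690), (.hz 14 31, 2798167), (.hz 13 159, 243298), (.hz 14 159, 834247), (.hz 14 191, 6947449), (.hz 14 447, 13634548), (.hz 14 959, 3041486), (.hz 14 1855, 3041486), (.rw 10, 15), (.rw 11, 2)])))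
(.cut 6 [(0, 1), (1, 1), (2, 1), (3, 1), (5, 1), (7, 1), (11, 1), (21, 1), (15, 1), (23, 1), (31, 1), (47, 1), (63, 1)]
(.cut 7 [(0, 1), (1, 1), (2, 1), (3, 1), (5, 1), (7, 1), (11, 1), (21, 1), (15, 1), (23, 1), (85, 1), (31, 1), (47, 1), (87, 1), (63, 1)]
(.cut 6 [(0, 1), (1, 1), (2, 1), (3, 1), (5, 1), (7, 1), (11, 1), (21, 1), (15, 1), (23, 1), (31, 1), (47, 1), (63, 1), (319, 1)]
(.cut 7 [(0, 1), (1, 1), (2, 1), (3, 1), (5, 1), (7, 1), (11, 1), (21, 1), (15, 1), (23, 1), (85, 1), (31, 1), (47, 1), (87, 1), (63, 1), (319, 1)]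
(.cut 6 [(0, 1), (1, 1), (2, 1), (3, 1), (5, 1), (7, 1), (11, 1), (21, 1), (15, 1), (23, 1), (31, 1), (47, 1), (63, 1), (319, 1), (831, 1)]
(.cut 7 [(0, 1), (1, 1), (2, 1), (3, 1), (5, 1), (7, 1), (11, 1), (21, 1), (15, 1), (23, 1), (85, 1), (31, 1), (47, 1), (87, 1), (63, 1), (319, 1), (831, 1)]
(.lp [[7], [0, 2, 4, 6], [1, 3, 5, 8, 9, 10, 11]] [(.mj 0 1, 1340479), (.mj 11 6, 47205), (.rw 9, 23), (.hz 14 21, 14482649), (.hz 14 23, 22763918), (.hz 12 223, 293477519), (.rw 10, 157), (.rw 11, 46), (.rw 12, 53), (.rw 13, 23), (.rw 14, 53), (.rw 15, 23)]))))))))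
.fin))
(.lp [[7], [0, 2, 4, 6], [1, 3, 5, 8, 9, 10]] [(.mj 6 7, 1), (.rw 8, 1)]))
(.ask 1855
(.mark 1855 [6, 7, 11]
(.spn
(.con 6 7)
(.lp [[7], [0, 2, 4, 6], [1, 3, 5, 8, 9, 10, 11]] [(.mj 10 7, 279), (.rw 9, 1)])
(.cut 6 [(0, 1), (1, 1), (2, 1), (3, 1), (5, 1), (7, 1), (11, 1), (21, 1), (15, 1), (47, 1)]
(.cut 7 [(0, 1), (1, 1), (2, 1), (3, 1), (5, 1), (7, 1), (11, 1), (21, 1), (15, 1), (23, 1), (31, 1), (47, 1), (63, 1)]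
(.cut 6 [(0, 1), (1, 1), (2, 1), (3, 1), (5, 1), (7, 1), (11, 1), (21, 1), (15, 1), (23, 1), (47, 1)]
(.cut 7 [(0, 1), (1, 1), (2, 1), (3, 1), (5, 1), (7, 1), (11, 1), (21, 1), (15, 1), (23, 1), (31, 1), (47, 1), (63, 1), (319, 1)]
(.cut 6 [(0, 1), (1, 1), (2, 1), (3, 1), (5, 1), (7, 1), (11, 1), (21, 1), (15, 1), (23, 1), (31, 1), (47, 1)]
(.cut 7 [(0, 1), (1, 1), (2, 1), (3, 1), (5, 1), (7, 1), (11, 1), (21, 1), (15, 1), (23, 1), (31, 1), (47, 1), (63, 1), (319, 1), (831, 1)]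
(.cut 6 [(0, 1), (1, 1), (2, 1), (3, 1), (5, 1), (7, 1), (11, 1), (21, 1), (15, 1), (23, 1), (31, 1), (47, 1), (63, 1)]
(.cut 6 [(0, 1), (1, 1), (2, 1), (3, 1), (5, 1), (7, 1), (11, 1), (21, 1), (15, 1), (23, 1), (31, 1), (47, 1), (63, 1), (159, 1), (191, 1)]
(.cut 6 [(0, 1), (1, 1), (2, 1), (3, 1), (5, 1), (7, 1), (11, 1), (21, 1), (15, 1), (23, 1), (31, 1), (47, 1), (63, 1), (159, 2), (191, 1), (319, 1)]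
(.cut 6 [(0, 1), (1, 1), (2, 1), (3, 1), (5, 1), (7, 1), (11, 1), (21, 1), (15, 1), (23, 1), (31, 1), (47, 1), (63, 1), (159, 1), (319, 1)]
(.cut 6 [(0, 1), (1, 1), (2, 1), (3, 1), (5, 1), (7, 1), (11, 1), (21, 1), (15, 1), (23, 1), (31, 1), (47, 1), (63, 1), (319, 1), (831, 1)]
(.lp [[7], [0, 2, 4, 6], [1, 3, 5, 8, 9, 10, 11]] [(.mj 0 1, 84256), (.mj 11 7, 10353), (.rw 9, 19), (.hz 12 223, 78814396), (.rw 10, 13), (.rw 11, 7), (.rw 12, 10), (.rw 13, 84), (.rw 14, 10), (.rw 15, 25), (.rw 16, 4), (.rw 17, 15), (.rw 18, 10), (.rw 19, 9), (.rw 20, 19)]))))))))))))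
.fin))
(.lp [[7], [0, 2, 4, 6], [1, 3, 5, 8, 9, 10]] [(.mj 10 7, 1), (.rw 8, 1)])))
.fin))
(.lp [[7], [0, 2, 4, 6], [1, 3, 5, 8, 9]] [(.mj 9 7, 1), (.rw 7, 1)]))
.fin))
(.lp [[7], [0, 2, 4, 6], [1, 3, 5, 8]] [(.mj 8 7, 1), (.rw 6, 1)]))
.fin))
(.lp [[7], [1, 3, 5], [0, 2, 4, 6]] [(.mj 3 4, 4), (.mj 5 7, 1)])))
(.lp [[7], [1, 3, 5], [0, 2, 4, 6]] [(.mj 3 4, 4), (.mj 5 7, 1), (.hz 13 15, 1978), (.hz 13 31, 1276)]))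
(.con 6 5)
(.lp [[7], [1, 3, 5], [0, 2, 4, 6]] [(.mj 3 4, 4), (.mj 7 5, 1), (.hz 10 47, 129)])
.fin))
(.ref 2))
(.lp [[], [1, 3, 5], [0, 2, 4, 6]] [(.mj 3 4, 1), (.hz 12 15, 459)]))

theorem run194 : run P3488 (leaf3 218 625) (cutRow P3488) [s182, s181, s193] t194 s194 = true := by
  decide +kernel

theorem bad194 : Bad P3488 s194 :=
  run_sound (leaf3_sound P3488 rfl rfl) (cutRow_sound P3488) (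
    List.forall_mem_cons.2 ⟨bad182, List.forall_mem_cons.2 ⟨bad181, List.forall_mem_cons.2 ⟨bad193, fun _ h => absurd h List.not_mem_nil⟩⟩⟩) t194 s194 run194

end Pool.Agent.WN.Data
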