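import Pool.Agent.WN.CutRow
import Pool.Agent.WN.LeafRow
import Pool.Agent.Helper99.WN.ParDef
import Pool.Agent.WN.Data.D3
import Pool.Agent.WN.Data.D4
import Pool.Agent.WN.Data.D14
import Pool.Agent.WN.Data.D19
import Pool.Agent.WN.Data.D43
import Pool.Agent.WN.Data.D45
import Pool.Agent.WN.Data.D46
import Pool.Agent.WN.Data.D47

/-!
# The search tree, part 48
-/

set_option autoImplicit false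

namespace Pool.Agent.WN.Data

open Pool.Agent.W3 Pool.Agent.WN Pool.Agent.Helper99.WN

/-- the state above piece 270 of the tree -/
def s270 : St := ⟨[0, 0, 1, 1], [0], [0],
  [],
  [],
  [.spn 0 0 651200]⟩

/-- piece 270 of the tree -/
noncomputable def t270 : WN.Tree :=
(.mark 1 [1, 2, 3]
(.spn
(.ref 0)
(.ask 5
(.mark 5 [1, 3, 4]
(.spn
(.haz 3 7 1 8
(.haz 1 9 3 20
(.haz 4 13 13 40
(.haz 4 13 17 40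
(.lp [[1], [3], [0, 2, 4]] [(.mj 1 3, 74), (.mj 1 4, 701), (.mj 2 1, 1861), (.rw 2, 1), (.hz 1 9, 130684), (.hz 3 13, 23062)])
(.lp [[1], [3], [0, 2, 4]] [(.mj 1 3, 11), (.mj 2 1, 22), (.hz 3 5, 316), (.hz 1 9, 1504), (.hz 2 13, 165)]))
(.lp [[1], [3], [0, 2, 4]] [(.mj 1 3, 4), (.mj 2 1, 7), (.hz 2 5, 93), (.hz 1 9, 471)]))
(.lp [[1], [3], [0, 2, 4]] [(.rw 2, 1), (.hz 1 1, 44841), (.hz 0 7, 128917)]))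
(.ask 9
(.mark 13 [1, 4, 5]
(.cut 3 [(0, 1), (1, 1), (2, 1), (5, 1)]
(.lp [[1], [3, 5], [0, 2, 4]] [(.mj 1 4, 2902), (.mj 2 1, 4081), (.hz 0 1, 340071), (.rw 3, 1)])))
(.cut 3 [(0, 1), (1, 1), (2, 1), (5, 1)]
(.lp [[1], [3], [0, 2, 4]] [(.mj 1 4, 3103), (.mj 2 1, 3965), (.hz 0 5, 430896), (.rw 3, 1)]))))
(.haz 1 21 1 40
(.haz 1 21 1 20
(.haz 3 21 1 4
(.maj 1 4
(.haz 4 13 7 20
(.ask 9
(.mark 13 [1, 4, 5]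
(.lp [[1], [3, 5], [0, 2, 4]] [(.mj 1 4, 4365), (.mj 2 3, 1198), (.mj 3 1, 2291), (.rw 1, 2), (.rw 2, 1), (.hz 3 13, 129575), (.hz 1 21, 71607), (.hz 3 45, 409183)]))
(.ask 13
(.mark 13 [1, 4, 5]
(.lp [[1], [3, 5], [0, 2, 4]] [(.mj 1 4, 4), (.mj 2 3, 1), (.mj 3 1, 3), (.hz 3 13, 179), (.hz 3 15, 120), (.hz 3 45, 239)]))
(.lp [[1], [3], [0, 2, 4]] [(.mj 1 4, 2), (.mj 3 1, 3)])))
(.ask 9
(.mark 13 [1, 4, 5]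
(.cut 1 [(0, 1), (1, 1), (5, 1)]
(.lp [[1], [3, 5], [0, 2, 4]] [(.mj 2 3, 1567), (.mj 3 1, 957), (.hz 3 5, 37075), (.hz 3 13, 23376), (.hz 1 21, 29920), (.rw 3, 1)])))
(.ask 13
(.mark 13 [1, 4, 5]
(.spn
(.haz 5 29 17 40
(.ask 21
(.mark 29 [1, 5, 6]
(.lp [[1], [3, 5], [0, 2, 4, 6]] [(.mj 1 4, 2), (.mj 1 5, 17), (.mj 2 3, 16), (.mj 3 1, 24), (.hz 3 5, 702), (.hz 4 29, 546), (.hz 1 85, 1339), (.hz 2 85, 1451), (.hz 4 93, 1047)]))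
(.lp [[1], [3, 5], [0, 2, 4]] [(.mj 1 4, 5), (.mj 1 5, 8), (.mj 2 3, 10), (.mj 3 1, 13), (.hz 4 29, 540)]))
(.lp [[1], [3, 5], [0, 2, 4]] [(.mj 2 3, 4), (.mj 3 1, 3), (.hz 3 5, 120), (.hz 3 13, 339), (.hz 4 13, 169), (.hz 1 21, 97)]))
(.con 4 1)
(.cut 1 [(0, 1), (1, 1), (5, 1), (9, 1), (13, 1)]
(.lp [[1], [3, 5], [0, 2, 4]] [(.mj 2 3, 5510), (.mj 5 1, 950), (.rw 3, 1), (.hz 1 21, 29690), (.hz 2 21, 564104), (.rw 4, 7)]))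
.fin))
(.lp [[1], [3], [0, 2, 4]] [(.mj 1 4, 1), (.mj 2 3, 1), (.mj 3 1, 2), (.hz 3 5, 28)]))))
(.haz 0 2 5 8
(.haz 0 2 3 4
(.haz 3 3 9 40
(.haz 0 2 33 40
(.ask 9
(.mark 13 [1, 4, 5]
(.spn
(.con 1 4)
(.ask 21
(.mark 29 [1, 5, 6]
(.spn
(.ask 2
(.mark 31 [5, 6, 7]
(.lp [[1, 7], [3, 5], [0, 2, 4, 6]] [(.mj 2 3, 6181), (.mj 3 4, 5151), (.mj 4 1, 2457), (.rw 4, 7), (.hz 6 130, 31507), (.hz 5 131, 539316), (.hz 5 135, 178349), (.hz 1 61, 643827)]))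
(.ask 3
(.mark 31 [5, 6, 7]
(.lp [[1, 7], [3, 5], [0, 2, 4, 6]] [(.mj 2 3, 3489), (.mj 3 4, 2907), (.mj 4 1, 1332), (.rw 4, 4), (.hz 5 131, 251447), (.hz 5 135, 93760), (.hz 1 61, 363391)]))
(.ask 11
(.mark 31 [5, 6, 7]
(.lp [[1, 7], [3, 5], [0, 2, 4, 6]] [(.mj 2 3, 3), (.mj 3 4, 2)]))
(.haz 5 93 3 20
(.ask 7
(.mark 31 [5, 6, 7]
(.lp [[1, 7], [3, 5], [0, 2, 4, 6]] [(.mj 1 5, 55), (.mj 2 3, 560), (.mj 3 4, 560), (.mj 4 1, 323), (.rw 4, 1), (.hz 5 135, 21882), (.hz 7 93, 6865), (.hz 7 95, 71112)]))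
(.lp [[1], [3, 5], [0, 2, 4, 6]] [(.mj 1 6, 10), (.mj 2 3, 131), (.mj 3 4, 69), (.mj 4 1, 18), (.hz 1 85, 356), (.hz 1 61, 11959), (.hz 7 93, 1946)]))
(.lp [[1], [3, 5], [0, 2, 4, 6]] [(.mj 1 6, 5), (.mj 3 4, 7), (.mj 4 1, 8), (.hz 7 9, 261), (.hz 7 13, 568), (.hz 7 29, 681), (.hz 1 85, 876)])))))
(.ask 85
(.mark 85 [1, 3, 7]
(.cut 1 [(0, 1), (1, 1), (5, 1), (9, 1)]
(.cut 1 [(0, 1), (1, 1), (5, 1), (9, 1), (13, 1), (21, 1), (85, 1)]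
(.lp [[1], [3, 5], [0, 2, 4, 6, 7]] [(.mj 2 3, 33681), (.mj 3 4, 14746), (.mj 5 1, 19439), (.mj 5 6, 2184), (.hz 1 85, 1568290), (.hz 1 61, 528696), (.hz 1 93, 2086774), (.hz 2 215, 15186882), (.rw 5, 23), (.rw 6, 27)]))))
(.cut 1 [(0, 1), (1, 1), (5, 1), (9, 1), (13, 1), (21, 1), (29, 1), (85, 1)]
(.lp [[1], [3, 5], [0, 2, 4, 6]] [(.mj 2 3, 812), (.mj 5 1, 406), (.mj 5 6, 175), (.hz 1 85, 28854), (.hz 1 93, 39952), (.rw 5, 1)])))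
(.haz 5 15 9 40
(.cut 1 [(0, 1), (1, 1), (5, 1), (9, 1)]
(.cut 1 [(0, 1), (1, 1), (5, 1), (9, 1), (13, 1)]
(.lp [[1], [3, 5], [0, 2, 4, 6]] [(.mj 2 3, 161501), (.mj 3 4, 161501), (.mj 6 1, 122121), (.mj 6 5, 14453), (.hz 7 15, 49295), (.hz 1 85, 2486756), (.hz 7 31, 14836258), (.rw 5, 202), (.rw 6, 179)])))
(.cut 1 [(0, 1), (1, 1), (5, 1), (9, 1), (13, 1), (21, 1), (29, 1), (85, 1)]
(.cut 1 [(0, 1), (1, 1), (5, 1), (9, 1), (13, 1)]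
(.lp [[1], [3, 5], [0, 2, 4, 6]] [(.mj 2 3, 54506), (.mj 3 4, 106040), (.mj 6 1, 63277), (.mj 6 5, 8771), (.hz 7 11, 684610), (.hz 7 13, 1098902), (.hz 7 15, 2455414), (.hz 1 85, 1465082), (.hz 1 61, 11746873), (.rw 5, 28), (.rw 6, 151)]))))
.fin))
(.ask 29
(.mark 29 [1, 5, 6]
(.spn
(.ask 2
(.mark 31 [5, 6, 7]
(.lp [[1, 7], [3, 5], [0, 2, 4, 6]] [(.mj 1 6, 188), (.mj 2 3, 829), (.mj 4 1, 314), (.hz 6 130, 2854), (.hz 5 131, 81371), (.hz 5 135, 47279), (.hz 1 61, 188330)]))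
(.haz 6 61 13 40
(.lp [[1], [3, 5], [0, 2, 4, 6]] [(.mj 1 6, 71529), (.mj 2 3, 257504), (.mj 3 4, 42917), (.mj 4 1, 138824), (.rw 4, 65), (.hz 5 3, 6842690), (.hz 1 61, 46940853), (.hz 7 61, 6705836)])
(.lp [[1], [3, 5], [0, 2, 4, 6]] [(.mj 1 5, 3), (.mj 2 3, 1), (.mj 4 1, 4), (.hz 7 29, 176)])))
(.lp [[1], [3, 5], [0, 2, 4, 6]] [(.mj 2 3, 42), (.mj 3 4, 2), (.mj 5 1, 12), (.mj 5 6, 6), (.hz 6 2, 188), (.hz 5 3, 1874), (.hz 5 7, 340), (.hz 2 23, 2105), (.hz 1 61, 1226), (.hz 1 93, 3481)])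
(.maj 1 5
(.cut 1 [(0, 1), (1, 1), (5, 1), (9, 1), (13, 1), (21, 1), (29, 1)]
(.cut 5 [(0, 1), (1, 1), (2, 1), (3, 1), (5, 1), (9, 1), (7, 1), (21, 1), (23, 1)]
(.cut 5 [(0, 1), (1, 1), (2, 1), (3, 1), (5, 1), (9, 1), (7, 1), (13, 1), (21, 1), (23, 1)]
(.lp [[1], [3, 5], [0, 2, 4, 6]] [(.mj 2 3, 138455), (.mj 6 1, 188453), (.hz 1 61, 180280417), (.rw 5, 589), (.rw 6, 43), (.rw 7, 46)]))))
(.cut 1 [(0, 1), (1, 1), (5, 1), (9, 1), (21, 1)]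
(.cut 5 [(0, 1), (1, 1), (5, 1), (9, 1), (21, 1)]
(.lp [[1], [3, 5], [0, 2, 4, 6]] [(.mj 2 3, 38534), (.mj 5 1, 13521), (.hz 1 61, 3496015), (.hz 1 93, 1267561), (.rw 5, 40), (.rw 6, 8)]))))
.fin))
(.lp [[1], [3, 5], [0, 2, 4]] [(.mj 2 3, 5), (.mj 3 1, 2), (.hz 6 2, 15), (.hz 5 3, 172)])))
(.lp [[1], [3, 5], [0, 2, 4]] [(.mj 2 3, 9), (.mj 5 1, 4), (.mj 5 4, 4), (.hz 6 2, 40), (.hz 5 3, 397), (.hz 5 7, 72), (.hz 1 21, 454), (.hz 2 21, 975), (.hz 1 29, 1250)])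
.fin))
(.ref 1))
(.lp [[1], [3], [0, 2, 4]] [(.mj 4 1, 73224), (.rw 1, 8), (.hz 6 0, 2388198), (.hz 4 2, 15247126), (.hz 5 3, 1244663), (.hz 5 7, 4299116), (.hz 1 21, 4021754)]))
(.cut 1 [(0, 1), (1, 1), (5, 1)]
(.lp [[1], [3], [0, 2, 4]] [(.mj 3 4, 754), (.mj 4 1, 674), (.hz 5 1, 24790), (.hz 1 21, 24790), (.rw 3, 1)])))
(.lp [[1], [3], [0, 2, 4]] [(.mj 4 1, 2), (.hz 4 0, 459), (.hz 3 2, 141)]))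
(.lp [[1], [3], [0, 2, 4]] [(.mj 4 1, 4), (.hz 3 0, 310)])))
(.lp [[1], [3], [0, 2, 4]] [(.mj 3 1, 3361), (.mj 3 4, 8621), (.rw 2, 19), (.hz 2 5, 6301535), (.hz 1 21, 913266)]))
(.cut 1 [(0, 1)]
(.lp [[1], [3], [0, 2, 4]] [(.hz 1 1, 59708), (.rw 3, 1)])))
(.cut 1 [(0, 1)]
(.lp [[1], [3], [0, 2, 4]] [(.hz 0 1, 27113), (.rw 3, 1)])))
(.ask 21
(.mark 21 [1, 3, 5]
(.spn
(.lp [[1], [3], [0, 2, 4, 5]] [(.mj 4 1, 627), (.rw 3, 1)])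
(.cut 1 [(0, 1), (1, 1), (5, 1), (21, 1)]
(.lp [[1], [3], [0, 2, 4, 5]] [(.mj 3 1, 1086), (.mj 3 5, 1086), (.mj 4 3, 2443), (.rw 3, 1), (.rw 4, 3)]))
(.ask 53
(.mark 53 [1, 3, 6]
(.spn
(.lp [[1], [3], [0, 2, 4, 5, 6]] [(.mj 5 1, 213), (.rw 4, 1)])
(.lp [[1], [3], [0, 2, 4, 5, 6]] [(.mj 5 3, 627), (.rw 4, 1)])
(.maj 1 3
(.haz 1 125 2 25
(.cut 1 [(0, 1), (1, 1)]
(.cut 1 [(0, 1), (1, 1), (5, 1), (21, 1), (53, 1)]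
(.cut 3 [(0, 1), (1, 1), (2, 1), (5, 1), (21, 1), (53, 1)]
(.lp [[1], [3], [0, 2, 4, 5, 6]] [(.mj 6 1, 1651), (.hz 0 125, 515788), (.rw 5, 2), (.rw 6, 3), (.rw 7, 1)]))))
(.cut 1 [(0, 1), (1, 1)]
(.cut 3 [(0, 1), (1, 1), (2, 1)]
(.cut 1 [(0, 1), (1, 1), (5, 1)]
(.lp [[1], [3], [0, 2, 4, 5, 6]] [(.hz 0 0, 47714), (.hz 0 21, 596423), (.rw 5, 5), (.rw 6, 2), (.rw 7, 15)])))))
(.haz 1 125 3 50
(.cut 1 [(0, 1)]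
(.cut 1 [(0, 1), (1, 1)]
(.cut 1 [(0, 1), (1, 1), (5, 1)]
(.cut 1 [(0, 1), (1, 1), (5, 1), (9, 1), (21, 1)]
(.cut 3 [(0, 1), (1, 1), (5, 1), (21, 1), (53, 1)]
(.lp [[1], [3], [0, 2, 4, 5, 6]] [(.mj 6 3, 50028), (.rw 4, 125), (.hz 0 125, 25013908), (.rw 5, 250), (.rw 6, 125), (.rw 7, 94), (.rw 8, 156), (.rw 9, 700)]))))))
(.cut 1 [(0, 1)]
(.lp [[1], [3], [0, 2, 4, 5, 6]] [(.hz 0 1, 38930), (.rw 5, 2)]))))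
.fin))
(.lp [[1], [3], [0, 2, 4, 5]] [(.mj 5 3, 1), (.rw 3, 1)]))
.fin))
(.lp [[1], [3], [0, 2, 4]] [(.mj 4 3, 1), (.rw 2, 1)]))
.fin))
(.spn
(.lp [[1], [3], [0, 2]] [(.mj 2 1, 178), (.rw 2, 1)])
(.cut 1 [(0, 1), (1, 1), (5, 1)]
(.lp [[1], [3], [0, 2]] [(.mj 2 3, 1235), (.mj 3 1, 618), (.rw 3, 1)]))
.fin
.fin))
(.con 3 2)
.fin))

theorem run270 : run P3488 (leaf3 218 625) (cutRow P3488) [s78, s77] t270 s270 = true := by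
  decide +kernel

theorem bad270 : Bad P3488 s270 :=
  run_sound (leaf3_sound P3488 rfl rfl) (cutRow_sound P3488) (
    List.forall_mem_cons.2 ⟨bad78, List.forall_mem_cons.2 ⟨bad77, fun _ h => absurd h List.not_mem_nil⟩⟩) t270 s270 run270

/-- the state above piece 252 of the tree -/
def s252 : St := ⟨[0, 0, 1, 3, 5, 15], [15, 11, 7, 5, 3, 2, 1, 0], [0, 1, 2, 3, 4],
  [(4, 5)],
  [⟨true, 2, 3, 3, 10⟩, ⟨true, 1, 5, 2, 5⟩, ⟨true, 2, 3, 23, 50⟩, ⟨true, 1, 5, 12, 25⟩, ⟨true, 1, 21, 27, 50⟩, ⟨true, 4, 15, 9, 40⟩, ⟨true, 3, 23, 11, 20⟩, ⟨true, 4, 47, 7, 20⟩, ⟨true, 4, 47, 17, 40⟩, ⟨true, 4, 47, 9, 20⟩, ⟨true, 4, 47, 19, 40⟩],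
  [.spn 0 0 651200, .spn 1 1 302400, .spn 3 2 302400, .spn 7 3 302400, .spn 15 4 302400]⟩

/-- piece 252 of the tree -/
noncomputable def t252 : WN.Tree :=
(.ask 21
(.ask 21
(.ref 0)
(.haz 3 87 27 40
(.maj 5 6
(.ask 23
(.mark 31 [5, 6, 7]
(.spn
(.ask 47
(.mark 63 [6, 7, 8]
(.spn
(.lp [[7], [0, 2, 4, 6], [1, 3, 5, 8]] [(.mj 3 4, 67), (.mj 6 7, 1), (.mj 6 8, 20), (.hz 10 303, 1786)])
(.ask 303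
(.mark 319 [6, 7, 9]
(.cut 6 [(0, 1), (1, 1), (2, 1), (3, 1), (5, 1), (7, 1), (11, 1), (21, 1), (15, 1), (23, 1), (31, 1), (47, 1), (63, 1), (303, 1), (815, 1)]
(.lp [[7], [0, 2, 4, 6], [1, 3, 5, 8, 9]] [(.mj 3 4, 5137), (.mj 7 8, 1683), (.hz 10 303, 272138), (.hz 10 815, 156900), (.rw 7, 1)])))
(.lp [[7], [0, 2, 4, 6], [1, 3, 5, 8]] [(.mj 3 4, 4), (.mj 7 8, 1)]))
(.ref 1)
.fin))
(.ask 63
(.mark 63 [6, 7, 8]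
(.spn
(.lp [[7], [0, 2, 4, 6], [1, 3, 5, 8]] [(.mj 3 4, 5), (.mj 6 8, 1)])
(.lp [[7], [0, 2, 4, 6], [1, 3, 5, 8]] [(.mj 3 4, 4), (.mj 7 8, 1)])
(.ask 319
(.mark 319 [6, 7, 9]
(.spn
(.lp [[7], [0, 2, 4, 6], [1, 3, 5, 8, 9]] [(.mj 3 4, 9), (.mj 6 9, 1)])
(.lp [[7], [0, 2, 4, 6], [1, 3, 5, 8, 9]] [(.mj 3 4, 10), (.mj 7 9, 1)])
(.ask 831
(.mark 831 [6, 7, 10]
(.spn
(.lp [[7], [0, 2, 4, 6], [1, 3, 5, 8, 9, 10]] [(.mj 9 6, 627), (.rw 8, 1)])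
(.lp [[7], [0, 2, 4, 6], [1, 3, 5, 8, 9, 10]] [(.mj 9 7, 485), (.rw 8, 1)])
(.ask 1855
(.mark 1855 [6, 7, 11]
(.spn
(.lp [[7], [0, 2, 4, 6], [1, 3, 5, 8, 9, 10, 11]] [(.mj 10 6, 213), (.rw 9, 1)])
(.lp [[7], [0, 2, 4, 6], [1, 3, 5, 8, 9, 10, 11]] [(.mj 10 7, 224), (.rw 9, 1)])
(.maj 6 7
(.cut 7 [(0, 1), (1, 1), (2, 1), (3, 1), (5, 1), (7, 1), (11, 1), (21, 1), (15, 1), (85, 1), (47, 1)]
(.cut 6 [(0, 1), (1, 1), (2, 1), (3, 1), (5, 1), (7, 1), (11, 1), (21, 1), (15, 1), (23, 1), (31, 1), (47, 1), (63, 1)]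
(.cut 7 [(0, 1), (1, 1), (2, 1), (3, 1), (5, 1), (7, 1), (11, 1), (21, 1), (15, 1), (23, 1), (85, 1), (31, 1), (47, 1)]
(.cut 6 [(0, 1), (1, 1), (2, 1), (3, 1), (5, 1), (7, 1), (11, 1), (21, 1), (15, 1), (23, 1), (31, 1), (47, 1), (63, 1), (319, 1)]
(.cut 7 [(0, 1), (1, 1), (2, 1), (3, 1), (5, 1), (7, 1), (11, 1), (21, 1), (15, 1), (23, 1), (85, 1), (31, 1), (47, 1), (63, 1)]
(.cut 6 [(0, 1), (1, 1), (2, 1), (3, 1), (5, 1), (7, 1), (11, 1), (21, 1), (15, 1), (23, 1), (31, 1), (47, 1), (63, 1), (319, 1), (831, 1)]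
(.cut 7 [(0, 1), (1, 1), (2, 1), (3, 1), (5, 1), (7, 1), (11, 1), (21, 1), (15, 1), (23, 1), (85, 1), (31, 1), (47, 1), (63, 1), (319, 1)]
(.cut 7 [(0, 1), (1, 1), (2, 1), (3, 1), (5, 1), (7, 1), (11, 1), (21, 1), (15, 1), (23, 1), (85, 1), (31, 1), (47, 1), (87, 1), (63, 1), (95, 1), (319, 1), (831, 1), (1855, 1)]
(.lp [[7], [0, 2, 4, 6], [1, 3, 5, 8, 9, 10, 11]] [(.mj 11 6, 33830), (.rw 9, 33), (.hz 4 85, 4045740), (.hz 11 87, 1186637), (.hz 11 215, 6637897), (.rw 10, 33), (.rw 11, 151), (.rw 12, 31), (.rw 13, 59), (.rw 14, 33), (.rw 15, 54), (.rw 16, 24), (.rw 17, 42)])))))))))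
(.cut 6 [(0, 1), (1, 1), (2, 1), (3, 1), (5, 1), (7, 1), (11, 1), (21, 1), (15, 1), (23, 1), (31, 1), (47, 1)]
(.cut 6 [(0, 1), (1, 1), (2, 1), (3, 1), (5, 1), (7, 1), (11, 1), (21, 1), (15, 1), (23, 1), (31, 1), (47, 1), (63, 1)]
(.cut 7 [(0, 1), (1, 1), (2, 1), (3, 1), (5, 1), (7, 1), (11, 1), (21, 1), (15, 1), (23, 1), (31, 1), (47, 1)]
(.cut 6 [(0, 1), (1, 1), (2, 1), (3, 1), (5, 1), (7, 1), (11, 1), (21, 1), (15, 1), (23, 1), (31, 1), (47, 1), (63, 1), (319, 1)]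
(.cut 7 [(0, 1), (1, 1), (2, 1), (3, 1), (5, 1), (7, 1), (11, 1), (21, 1), (15, 1), (23, 1), (31, 1), (47, 1), (63, 1)]
(.cut 6 [(0, 1), (1, 1), (2, 1), (3, 1), (5, 1), (7, 1), (11, 1), (21, 1), (15, 1), (23, 1), (31, 1), (47, 1), (63, 1), (319, 1), (831, 1)]
(.cut 7 [(0, 1), (1, 1), (2, 1), (3, 1), (5, 1), (7, 1), (11, 1), (21, 1), (15, 1), (23, 1), (31, 1), (47, 1), (63, 1), (319, 1)]
(.cut 7 [(0, 1), (1, 1), (2, 1), (3, 1), (5, 1), (7, 1), (11, 1), (21, 1), (15, 1), (23, 1), (31, 1), (47, 1), (63, 1), (319, 1), (831, 1)]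
(.lp [[7], [0, 2, 4, 6], [1, 3, 5, 8, 9, 10, 11]] [(.mj 11 7, 33650), (.rw 9, 25), (.hz 11 215, 3066149), (.rw 10, 49), (.rw 11, 25), (.rw 12, 56), (.rw 13, 25), (.rw 14, 78), (.rw 15, 25), (.rw 16, 46), (.rw 17, 46)]))))))))))
.fin))
(.lp [[7], [0, 2, 4, 6], [1, 3, 5, 8, 9, 10]] [(.mj 10 7, 1), (.rw 8, 1)]))
.fin))
(.lp [[7], [0, 2, 4, 6], [1, 3, 5, 8, 9]] [(.mj 9 7, 1), (.rw 7, 1)]))
.fin))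
(.lp [[7], [0, 2, 4, 6], [1, 3, 5, 8]] [(.mj 8 7, 1), (.rw 6, 1)]))
.fin))
(.lp [[7], [1, 3, 5], [0, 2, 4, 6]] [(.mj 3 4, 1)])))
(.con 6 5)
(.lp [[7], [1, 3, 5], [0, 2, 4, 6]] [(.mj 3 4, 1094), (.mj 7 5, 337), (.rw 4, 1)])
.fin))
(.ref 2))
(.lp [[], [1, 3, 5], [0, 2, 4, 6]] [(.mj 3 4, 4), (.mj 6 5, 1), (.hz 10 47, 129)]))
(.lp [[], [1, 3, 5], [0, 2, 4, 6]] [(.mj 3 4, 10653), (.rw 4, 8), (.hz 11 23, 986374)])))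
(.ask 23
(.haz 5 95 1 5
(.haz 5 95 3 10
(.maj 5 6
(.ask 23
(.ref 3)
(.haz 5 31 3 10
(.ask 31
(.ref 4)
(.spn
(.haz 5 95 11 25
(.haz 6 63 3 20
(.ask 47
(.ref 5)
(.ask 63
(.ask 63
(.mark 63 [6, 7, 8]
(.spn
(.haz 8 191 7 40
(.lp [[8], [0, 2, 4, 6], [1, 3, 5, 7]] [(.mj 3 4, 42), (.mj 6 7, 6), (.mj 7 8, 5), (.hz 16 191, 1236), (.hz 15 319, 4346)])
(.lp [[8], [0, 2, 4, 6], [1, 3, 5, 7]] [(.mj 3 4, 5), (.mj 6 7, 1), (.hz 16 63, 202)]))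
(.ask 191
(.mark 191 [6, 8, 9]
(.spn
(.haz 9 447 3 10
(.ask 87
(.mark 255 [8, 9, 10]
(.spn
(.lp [[8], [0, 2, 4, 6, 10], [1, 3, 5, 7, 9]] [(.mj 6 8, 404), (.mj 7 6, 780), (.mj 8 9, 404), (.rw 7, 1)])
(.haz 9 447 2 5
(.lp [[8], [0, 2, 4, 6, 10], [1, 3, 5, 7, 9]] [(.mj 0 1, 56567), (.mj 6 9, 1383), (.mj 7 6, 4383), (.mj 9 8, 192), (.rw 7, 1), (.hz 6 1111, 695732), (.hz 15 319, 3474182), (.hz 14 1119, 1115571), (.hz 15 447, 246296), (.hz 17 447, 4841828)])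
(.lp [[8], [0, 2, 4, 6, 10], [1, 3, 5, 7, 9]] [(.mj 7 6, 2), (.mj 9 8, 1), (.hz 17 191, 3447), (.hz 15 319, 2878), (.hz 15 447, 1137)]))
(.lp [[8], [0, 2, 4, 6, 10], [1, 3, 5, 7, 9]] [(.mj 7 6, 868), (.mj 10 8, 449), (.mj 10 9, 449), (.rw 7, 1)])
.fin))
(.lp [[8], [0, 2, 4, 6], [1, 3, 5, 7, 9]] [(.mj 0 1, 348886), (.mj 6 9, 4349), (.mj 7 6, 21602), (.rw 7, 8), (.hz 15 319, 17760023), (.hz 16 447, 7611438)]))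
(.lp [[8], [0, 2, 4, 6], [1, 3, 5, 7, 9]] [(.mj 6 8, 1), (.mj 7 6, 2), (.hz 16 191, 1331), (.hz 15 319, 1704)]))
(.lp [[8], [0, 2, 4, 6], [1, 3, 5, 7, 9]] [(.mj 0 1, 84), (.mj 7 8, 5), (.mj 8 6, 16), (.hz 15 63, 6943), (.hz 15 191, 5854), (.hz 15 319, 5205), (.hz 15 703, 6887)])
(.lp [[8], [0, 2, 4, 6], [1, 3, 5, 7, 9]] [(.mj 0 1, 6), (.mj 9 6, 1), (.hz 15 63, 508), (.hz 15 191, 428), (.hz 15 319, 428)])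
.fin))
(.lp [[8], [0, 2, 4, 6], [1, 3, 5, 7]] [(.mj 7 8, 126), (.rw 6, 1), (.hz 15 319, 887654)]))
(.con 8 7)
.fin))
(.spn
(.lp [[], [0, 2, 4, 6], [1, 3, 5, 7]] [(.mj 3 4, 4), (.mj 6 7, 1)])
(.ask 191
(.maj 6 8
(.ask 191
(.mark 191 [6, 8, 9]
(.spn
(.haz 8 703 9 40
(.ask 703
(.haz 9 255 11 40
(.haz 8 703 13 40
(.mark 703 [6, 8, 10]
(.lp [[8], [0, 2, 4, 6], [1, 3, 5, 7, 9, 10]] [(.mj 6 8, 2364), (.mj 8 9, 1077), (.rw 6, 2), (.hz 17 255, 521899), (.hz 18 703, 349026), (.hz 18 1727, 517075)]))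
(.lp [[8], [0, 2, 4, 6], [1, 3, 5, 7, 9, 10]] [(.mj 8 9, 1841), (.rw 6, 1), (.hz 18 191, 402666), (.hz 17 255, 1179238)]))
(.mark 703 [6, 8, 10]
(.lp [[8], [0, 2, 4, 6], [1, 3, 5, 7, 9, 10]] [(.mj 6 8, 82469), (.rw 6, 71), (.hz 17 191, 10835353), (.hz 17 255, 4059029), (.hz 16 703, 13981101), (.hz 16 1727, 18040130)])))
(.lp [[9], [0, 2, 4, 6], [1, 3, 5, 7, 8]] [(.mj 6 8, 2081), (.mj 8 9, 530), (.rw 6, 2)]))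
(.lp [[9], [0, 2, 4, 6], [1, 3, 5, 7, 8]] [(.mj 8 9, 872), (.rw 6, 1), (.hz 16 191, 274563), (.hz 15 703, 1117330)]))
(.con 8 6)
(.con 9 8)
.fin))
(.lp [[], [0, 2, 4, 6], [1, 3, 5, 7, 8]] [(.mj 6 8, 1262), (.rw 6, 1)]))
(.lp [[], [0, 2, 4, 6], [1, 3, 5, 7, 8]] [(.mj 0 1, 6), (.mj 8 6, 1), (.hz 15 63, 508), (.hz 15 191, 428)]))
(.lp [[], [0, 2, 4, 6], [1, 3, 5, 7]] [(.mj 7 6, 1)]))
.fin
.fin))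
(.lp [[], [1, 3, 5], [0, 2, 4, 6]] [(.mj 5 6, 1)])))
(.lp [[], [1, 3, 5], [0, 2, 4, 6]] [(.mj 0 1, 22), (.hz 15 23, 322), (.hz 15 31, 174)]))
(.lp [[], [1, 3, 5], [0, 2, 4, 6]] [(.mj 3 4, 1), (.hz 14 15, 102), (.hz 14 31, 65)]))
(.con 6 5)
.fin
.fin))
(.lp [[], [1, 3, 5], [0, 2, 4, 6]] [(.mj 3 4, 2), (.hz 13 15, 323)])))
(.lp [[], [1, 3, 5], [0, 2, 4, 6]] [(.mj 3 4, 4), (.mj 6 5, 1), (.hz 10 47, 129)]))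
(.lp [[], [1, 3, 5], [0, 2, 4, 6]] [(.mj 3 4, 2), (.hz 12 15, 323)]))
(.lp [[], [1, 3, 5], [0, 2, 4, 6]] [(.mj 3 4, 1), (.hz 11 15, 339)]))
(.ref 6)))

theorem run252 : run P3488 (leaf3 218 625) (cutRow P3488) [s195, s165, s194, s233, s232, s231, s251] t252 s252 = true := by
  decide +kernel

theorem bad252 : Bad P3488 s252 :=
  run_sound (leaf3_sound P3488 rfl rfl) (cutRow_sound P3488) (
    List.forall_mem_cons.2 ⟨bad195, List.forall_mem_cons.2 ⟨bad165, List.forall_mem_cons.2 ⟨bad194, List.forall_mem_cons.2 ⟨bad233, List.forall_mem_cons.2 ⟨bad232, List.forall_mem_cons.2 ⟨bad231, List.forall_mem_cons.2 ⟨bad251, fun _ h => absurd h List.not_mem_nil⟩⟩⟩⟩⟩⟩⟩) t252 s252 run252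

end Pool.Agent.WN.Data
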