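import Pool.Agent.WN.CutRow
import Pool.Agent.WN.LeafRow
import Pool.Agent.Helper99.WN.ParDef
import Pool.Agent.WN.Data.D2
import Pool.Agent.WN.Data.D35
import Pool.Agent.WN.Data.D39
import Pool.Agent.WN.Data.D41
import Pool.Agent.WN.Data.D44
import Pool.Agent.WN.Data.D48

/-!
# The search tree, part 49
-/

set_option autoImplicit false

namespace Pool.Agent.WN.Data

open Pool.Agent.W3 Pool.Agent.WN Pool.Agent.Helper99.WN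

/-- the state above piece 253 of the tree -/
def s253 : St := ⟨[0, 0, 1, 3, 5], [11, 7, 5, 3, 2, 1, 0], [0, 1, 2, 3],
  [],
  [⟨true, 2, 3, 3, 10⟩, ⟨true, 1, 5, 2, 5⟩, ⟨true, 2, 3, 23, 50⟩, ⟨true, 1, 5, 12, 25⟩, ⟨true, 1, 21, 27, 50⟩, ⟨true, 4, 15, 9, 40⟩, ⟨true, 3, 23, 11, 20⟩],
  [.spn 0 0 651200, .spn 1 1 302400, .spn 3 2 302400, .spn 7 3 302400]⟩

/-- piece 253 of the tree -/
noncomputable def t253 : WN.Tree :=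
(.ask 15
(.maj 4 5
(.ask 15
(.mark 15 [4, 5, 6]
(.spn
(.haz 1 21 29 50
(.ask 47
(.ask 21
(.mark 31 [5, 6, 8]
(.spn
(.mark 63 [6, 7, 8]
(.spn
(.haz 5 287 1 5
(.haz 5 287 3 10
(.haz 8 191 1 10
(.haz 8 95 3 20
(.haz 8 31 13 40
(.lp [[6], [0, 2, 4, 8], [1, 3, 5, 7]] [(.mj 0 1, 68), (.mj 4 5, 7), (.mj 5 6, 12), (.mj 6 8, 29), (.hz 7 277, 254), (.hz 12 31, 2232), (.hz 5 79, 473), (.hz 12 63, 5848), (.hz 12 95, 3079), (.hz 5 175, 2340), (.hz 12 191, 8519)])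
(.ref 0))
(.lp [[6], [0, 2, 4, 8], [1, 3, 5, 7]] [(.mj 0 1, 67), (.mj 5 6, 1), (.hz 11 21, 873), (.hz 11 23, 1189), (.hz 11 31, 1399)]))
(.lp [[6], [0, 2, 4, 8], [1, 3, 5, 7]] [(.mj 0 1, 42), (.mj 5 6, 1), (.hz 10 21, 1042), (.hz 10 23, 1393), (.hz 10 31, 977), (.hz 10 63, 514)]))
(.cut 8 [(0, 1), (1, 1), (2, 1), (3, 1), (5, 1), (7, 1), (11, 1), (21, 1), (15, 1), (23, 1), (31, 1), (47, 1), (79, 1), (63, 1), (111, 1), (175, 1)]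
(.lp [[6], [0, 2, 4, 8], [1, 3, 5, 7]] [(.mj 5 6, 90454), (.mj 6 8, 67823), (.rw 6, 2), (.hz 9 15, 28267016), (.hz 9 31, 48145111), (.hz 8 287, 113220036), (.rw 7, 5)])))
(.lp [[6], [0, 2, 4, 8], [1, 3, 5, 7]] [(.mj 5 6, 1), (.mj 6 8, 1), (.hz 8 15, 906), (.hz 8 31, 725)]))
(.haz 5 287 1 4
(.haz 5 95 3 10
(.haz 7 127 2 5
(.haz 8 95 3 20
(.haz 8 63 1 5
(.haz 3 279 13 20
(.haz 5 79 3 10
(.haz 5 79 2 5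
(.lp [[6], [0, 2, 4, 8], [1, 3, 5, 7]] [(.mj 4 5, 98), (.mj 7 6, 10), (.mj 7 8, 58), (.hz 15 79, 102441), (.hz 12 63, 75854), (.hz 15 95, 63206), (.hz 11 95, 29338), (.hz 10 127, 24753), (.hz 12 127, 306561)])
(.lp [[6], [0, 2, 4, 8], [1, 3, 5, 7]] [(.mj 0 1, 42), (.mj 7 6, 27), (.mj 7 8, 37), (.hz 15 15, 52556), (.hz 5 79, 22), (.hz 14 79, 27981), (.hz 12 63, 45987), (.hz 11 95, 28010), (.hz 5 111, 11241), (.hz 10 127, 18879), (.hz 12 127, 270415)]))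
(.lp [[6], [0, 2, 4, 8], [1, 3, 5, 7]] [(.mj 7 6, 1), (.mj 7 8, 1), (.hz 14 15, 776), (.hz 5 79, 160), (.hz 9 95, 1570), (.hz 11 95, 815), (.hz 8 287, 1087), (.hz 10 127, 1901)]))
(.lp [[6], [0, 2, 4, 8], [1, 3, 5, 7]] [(.mj 4 5, 1), (.mj 7 8, 13), (.hz 13 7, 1790), (.hz 13 23, 2304), (.hz 5 79, 358), (.hz 6 279, 2543), (.hz 12 63, 22969), (.hz 9 95, 6685), (.hz 11 95, 5742), (.hz 10 127, 644), (.hz 12 127, 62344)]))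
(.lp [[6], [0, 2, 4, 8], [1, 3, 5, 7]] [(.mj 0 1, 460), (.mj 7 6, 1), (.hz 12 21, 25140), (.hz 12 23, 35024), (.hz 12 31, 25838), (.hz 12 63, 14354), (.hz 9 95, 17046), (.hz 11 95, 273), (.hz 10 127, 43843), (.hz 11 127, 546)]))
(.lp [[6], [0, 2, 4, 8], [1, 3, 5, 7]] [(.mj 0 1, 13), (.hz 11 21, 169), (.hz 11 23, 230), (.hz 11 31, 271), (.hz 9 95, 474), (.hz 10 127, 1137)]))
(.lp [[6], [0, 2, 4, 8], [1, 3, 5, 7]] [(.mj 0 1, 78), (.mj 4 5, 33), (.mj 7 6, 53), (.mj 7 8, 67), (.hz 7 277, 293), (.hz 10 47, 17198), (.hz 10 63, 131572)]))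
(.lp [[6], [0, 2, 4, 8], [1, 3, 5, 7]] [(.mj 3 4, 3), (.mj 7 6, 8), (.mj 7 8, 5), (.hz 9 15, 2506), (.hz 9 31, 4511), (.hz 8 287, 10651)]))
(.lp [[6], [0, 2, 4, 8], [1, 3, 5, 7]] [(.mj 3 4, 1098), (.mj 7 6, 431), (.rw 5, 1), (.hz 8 15, 336534), (.hz 8 31, 3015347)]))
(.ref 1)
.fin))
(.con 6 5)
(.haz 6 47 7 40
(.mark 47 [4, 6, 7]
(.lp [[6], [0, 2, 4, 8], [1, 3, 5, 7]] [(.mj 3 4, 22), (.mj 8 5, 6), (.mj 8 6, 11), (.hz 5 47, 628), (.hz 8 47, 1059), (.hz 5 79, 958), (.hz 8 63, 3753), (.hz 5 175, 576), (.hz 8 175, 866), (.hz 8 191, 3292)]))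
(.lp [[6], [0, 2, 4, 8], [1, 3, 5, 7]] [(.mj 3 4, 347), (.mj 8 5, 217), (.hz 8 15, 32893), (.hz 5 47, 18729)]))
.fin))
(.ask 23
(.ref 2)
(.ask 31
(.mark 31 [5, 6, 8]
(.spn
(.lp [[6], [0, 2, 4, 8], [1, 3, 5, 7]] [(.mj 0 1, 2725), (.mj 5 8, 65)])
(.con 6 5)
(.ask 287
(.mark 287 [5, 6, 9]
(.spn
(.mark 319 [6, 7, 9]
(.spn
(.lp [[6], [1, 3, 5, 7], [0, 2, 4, 8, 9]] [(.mj 5 6, 794), (.mj 6 9, 794), (.mj 8 5, 1756), (.rw 6, 2), (.rw 7, 1)])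
(.lp [[6], [1, 3, 5, 7], [0, 2, 4, 8, 9]] [(.mj 7 6, 946), (.mj 7 9, 946), (.mj 8 5, 2091), (.rw 6, 2)])
(.ask 799
(.mark 831 [6, 7, 10]
(.spn
(.ask 79
(.mark 895 [7, 10, 11]
(.lp [[6, 11], [1, 3, 5, 7], [0, 2, 4, 8, 9, 10]] [(.mj 5 9, 433), (.mj 6 10, 72), (.mj 8 5, 712), (.mj 9 6, 505), (.rw 8, 1)]))
(.lp [[6], [1, 3, 5, 7], [0, 2, 4, 8, 9, 10]] [(.mj 3 4, 173754), (.mj 6 10, 27580), (.mj 8 5, 148061), (.mj 9 6, 55160), (.rw 6, 117), (.rw 8, 100)]))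
(.cut 6 [(0, 1), (1, 1), (2, 1), (3, 1), (5, 1), (7, 1), (11, 1), (21, 1), (15, 1), (23, 1), (31, 1), (287, 1)]
(.lp [[6], [1, 3, 5, 7], [0, 2, 4, 8, 9, 10]] [(.mj 5 9, 28725), (.mj 7 6, 28725), (.mj 8 5, 47586), (.rw 6, 1), (.rw 8, 7), (.hz 5 111, 2416964), (.rw 9, 64)]))
(.cut 6 [(0, 1), (1, 1), (2, 1), (3, 1), (5, 1), (7, 1), (11, 1), (21, 1), (15, 1), (23, 1), (31, 1), (47, 1), (63, 1), (287, 1)]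
(.cut 6 [(0, 1), (1, 1), (2, 1), (3, 1), (5, 1), (7, 1), (11, 1), (21, 1), (15, 1), (23, 1), (31, 1), (47, 1), (63, 1), (287, 1), (319, 1), (799, 1)]
(.lp [[6], [1, 3, 5, 7], [0, 2, 4, 8, 9, 10]] [(.mj 5 9, 3261), (.mj 8 5, 3846), (.mj 10 6, 2745), (.hz 5 239, 198751), (.rw 9, 5), (.rw 10, 2)])))
.fin))
(.cut 6 [(0, 1), (1, 1), (2, 1), (3, 1), (5, 1), (7, 1), (11, 1), (21, 1), (15, 1), (23, 1), (31, 1), (47, 1), (63, 1), (175, 1), (287, 1), (799, 1)]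
(.lp [[6], [1, 3, 5, 7], [0, 2, 4, 8, 9]] [(.mj 5 6, 975), (.mj 5 9, 76), (.mj 8 5, 2794), (.mj 9 6, 269), (.hz 5 175, 593963), (.rw 8, 2)])))
.fin))
(.con 6 5)
(.ask 799
(.mark 799 [5, 6, 10]
(.spn
(.mark 831 [6, 7, 10]
(.lp [[6], [1, 3, 5, 7], [0, 2, 4, 8, 9, 10]] [(.mj 9 5, 3010), (.rw 7, 5)]))
(.con 6 5)
(.haz 6 31 1 8
(.cut 5 [(0, 1), (1, 1), (2, 1), (3, 1), (5, 1), (7, 1), (11, 1), (21, 1), (15, 1), (23, 1), (31, 1), (287, 1), (799, 1)]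
(.lp [[6], [1, 3, 5, 7], [0, 2, 4, 8, 9, 10]] [(.mj 3 4, 2411), (.rw 7, 1), (.hz 8 31, 861096), (.hz 8 287, 984110), (.hz 8 799, 1124697), (.rw 8, 3)]))
(.mark 47 [4, 6, 7]
(.cut 5 [(0, 1), (1, 1), (2, 1), (3, 1), (5, 1), (7, 1), (11, 1), (21, 1), (15, 1), (23, 1), (31, 1), (287, 1)]
(.lp [[6], [1, 3, 5, 7], [0, 2, 4, 8, 9, 10]] [(.mj 3 4, 6471), (.mj 10 5, 2289), (.hz 8 15, 1189575), (.hz 5 175, 262728), (.rw 8, 4)]))))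
.fin))
(.lp [[6], [1, 3, 5, 7], [0, 2, 4, 8, 9]] [(.rw 6, 1)]))
.fin))
(.lp [[6], [0, 2, 4, 8], [1, 3, 5, 7]] [(.rw 5, 1)]))
.fin))
(.lp [[6], [0, 2, 4], [1, 3, 5, 7]] [(.mj 0 1, 1)]))))
(.ref 3))
(.lp [[6], [0, 2, 4], [1, 3, 5]] [(.mj 3 4, 2), (.hz 7 5, 113), (.hz 4 21, 93)]))
(.con 5 4)
(.con 6 5)
.fin))
(.spn
(.haz 4 47 7 20
(.haz 4 47 17 40
(.haz 4 47 9 20
(.haz 4 47 19 40
(.ref 4)
(.haz 1 21 29 50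
(.haz 1 21 3 5
(.haz 1 21 31 50
(.haz 5 31 13 25
(.ask 47
(.ask 21
(.ask 21
(.mark 31 [5, 7, 8]
(.lp [[8], [0, 2, 4, 7], [1, 3, 5, 6]] [(.mj 3 4, 355), (.rw 4, 1), (.hz 10 47, 52889)]))
(.ask 23
(.mark 31 [5, 7, 8]
(.lp [[8], [0, 2, 4, 7], [1, 3, 5, 6]] [(.mj 3 4, 991), (.rw 4, 2), (.hz 10 47, 99918)]))
(.ask 31
(.mark 31 [5, 7, 8]
(.spn
(.mark 63 [6, 7, 8]
(.spn
(.haz 7 31 9 50
(.lp [[8], [0, 2, 4, 7], [1, 3, 5, 6]] [(.mj 4 5, 147), (.mj 6 7, 91), (.mj 6 8, 22), (.hz 10 47, 9226), (.hz 15 63, 15946), (.hz 14 287, 20015), (.hz 15 287, 14143), (.hz 15 319, 33980)])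
(.lp [[8], [0, 2, 4, 7], [1, 3, 5, 6]] [(.mj 4 5, 12), (.hz 15 21, 65), (.hz 10 15, 1285), (.hz 15 23, 274)]))
(.lp [[8], [0, 2, 4, 7], [1, 3, 5, 6]] [(.mj 3 4, 2), (.mj 7 6, 3), (.hz 10 15, 254), (.hz 10 47, 484), (.hz 9 111, 1198)])
(.lp [[8], [0, 2, 4, 7], [1, 3, 5, 6]] [(.mj 3 4, 2), (.mj 8 6, 3), (.hz 10 15, 254), (.hz 10 47, 484), (.hz 9 111, 1198)])
.fin))
(.lp [[8], [0, 2, 4, 7], [1, 3, 5, 6]] [(.mj 3 4, 1), (.mj 7 5, 1), (.hz 14 31, 124)])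
(.lp [[8], [0, 2, 4, 7], [1, 3, 5, 6]] [(.mj 3 4, 1), (.mj 8 5, 1), (.hz 10 15, 3), (.hz 14 31, 124)])
.fin))
(.lp [[], [0, 2, 4, 7], [1, 3, 5, 6]] [(.mj 3 4, 355), (.rw 4, 1), (.hz 10 47, 52889)]))))
(.ask 23
(.ask 23
(.mark 31 [5, 7, 8]
(.lp [[8], [0, 2, 4, 7], [1, 3, 5, 6]] [(.mj 3 4, 991), (.rw 4, 2), (.hz 10 47, 99918)]))
(.ask 31
(.mark 31 [5, 7, 8]
(.spn
(.mark 63 [6, 7, 8]
(.spn
(.haz 7 31 13 50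
(.lp [[8], [0, 2, 4, 7], [1, 3, 5, 6]] [(.mj 0 1, 10), (.mj 4 5, 2), (.mj 6 7, 3), (.hz 15 31, 130), (.hz 10 47, 83), (.hz 15 63, 513), (.hz 14 287, 439), (.hz 15 287, 330), (.hz 15 319, 843)])
(.lp [[8], [0, 2, 4, 7], [1, 3, 5, 6]] [(.mj 0 1, 67), (.hz 10 15, 559), (.hz 15 23, 448)]))
(.lp [[8], [0, 2, 4, 7], [1, 3, 5, 6]] [(.mj 3 4, 2), (.mj 7 6, 3), (.hz 10 15, 254), (.hz 10 47, 484), (.hz 9 111, 1198)])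
(.lp [[8], [0, 2, 4, 7], [1, 3, 5, 6]] [(.mj 3 4, 2), (.mj 8 6, 3), (.hz 10 15, 254), (.hz 10 47, 484), (.hz 9 111, 1198)])
.fin))
(.lp [[8], [0, 2, 4, 7], [1, 3, 5, 6]] [(.mj 3 4, 1), (.mj 7 5, 1), (.hz 14 31, 124)])
(.lp [[8], [0, 2, 4, 7], [1, 3, 5, 6]] [(.mj 3 4, 1), (.mj 8 5, 1), (.hz 10 15, 3), (.hz 14 31, 124)])
.fin))
(.lp [[], [0, 2, 4, 7], [1, 3, 5, 6]] [(.mj 3 4, 991), (.rw 4, 2), (.hz 10 47, 99918)])))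
(.lp [[], [0, 2, 4], [1, 3, 5, 6]] [(.mj 0 1, 1), (.hz 10 15, 5)])))
(.lp [[], [0, 2, 4], [1, 3, 5]] [(.mj 3 4, 1), (.hz 10 15, 16), (.hz 10 47, 31)]))
(.lp [[], [0, 2, 4], [1, 3, 5]] [(.mj 3 4, 1), (.hz 10 15, 5604), (.hz 14 15, 8966)]))
(.lp [[], [0, 2, 4], [1, 3, 5]] [(.mj 3 4, 2), (.hz 13 5, 115), (.hz 12 21, 922)]))
(.lp [[], [0, 2, 4], [1, 3, 5]] [(.mj 3 4, 2), (.hz 12 5, 1098), (.hz 11 21, 88)]))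
(.lp [[], [0, 2, 4], [1, 3, 5]] [(.mj 3 4, 2), (.hz 11 5, 113), (.hz 4 21, 93)])))
(.lp [[], [0, 2, 4], [1, 3, 5]] [(.mj 4 5, 4917), (.rw 4, 4), (.hz 9 15, 1707185)]))
(.lp [[], [0, 2, 4], [1, 3, 5]] [(.mj 4 5, 1130), (.rw 4, 1), (.hz 8 15, 207739)]))
(.lp [[], [0, 2, 4], [1, 3, 5]] [(.mj 4 5, 721), (.rw 4, 1), (.hz 7 15, 321816)]))
(.con 5 4)
.fin
.fin))
(.lp [[], [0, 2, 4], [1, 3, 5]] [(.mj 0 1, 8), (.mj 5 4, 2), (.hz 4 21, 37), (.hz 5 15, 150)]))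
(.lp [[], [1, 3], [0, 2, 4]] [(.mj 3 4, 1)]))

theorem run253 : run P3488 (leaf3 218 625) (cutRow P3488) [s141, s148, s158, s164, s252] t253 s253 = true := by
  decide +kernel

theorem bad253 : Bad P3488 s253 :=
  run_sound (leaf3_sound P3488 rfl rfl) (cutRow_sound P3488) (
    List.forall_mem_cons.2 ⟨bad141, List.forall_mem_cons.2 ⟨bad148, List.forall_mem_cons.2 ⟨bad158, List.forall_mem_cons.2 ⟨bad164, List.forall_mem_cons.2 ⟨bad252, fun _ h => absurd h List.not_mem_nil⟩⟩⟩⟩⟩) t253 s253 run253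

end Pool.Agent.WN.Data
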