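import Pool.Agent.WN.CutRow
import Pool.Agent.WN.LeafRow
import Pool.Agent.Helper99.WN.ParDef
import Pool.Agent.WN.Data.D45
import Pool.Agent.WN.Data.D46
import Pool.Agent.WN.Data.D49

/-!
# The search tree, part 50
-/

set_option autoImplicit false

namespace Pool.Agent.WN.Data

open Pool.Agent.W3 Pool.Agent.WN Pool.Agent.Helper99.WN

/-- the state above piece 254 of the tree -/
def s254 : St := ⟨[0, 0, 1, 3, 5], [7, 5, 3, 2, 1, 0], [0, 1, 2],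
  [],
  [⟨true, 2, 3, 3, 10⟩, ⟨true, 1, 5, 2, 5⟩, ⟨true, 2, 3, 23, 50⟩, ⟨true, 1, 5, 12, 25⟩],
  [.spn 0 0 651200, .spn 1 1 302400, .spn 3 2 302400]⟩

/-- piece 254 of the tree -/
noncomputable def t254 : WN.Tree :=
(.spn
(.haz 1 21 27 50
(.haz 4 15 9 40
(.haz 3 23 11 20
(.ask 11
(.ask 11
(.mark 15 [4, 5, 6]
(.spn
(.ask 21
(.mark 31 [5, 6, 7]
(.spn
(.ask 149
(.haz 5 79 9 50
(.haz 4 15 2 5
(.haz 7 95 1 5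
(.ask 43
(.mark 191 [6, 8, 9]
(.lp [[6], [1, 3, 5, 9], [0, 2, 4, 7, 8]] [(.mj 0 1, 2540), (.mj 3 4, 570), (.mj 5 7, 64), (.hz 8 79, 22299), (.hz 7 79, 4071), (.hz 6 151, 33877), (.hz 4 405, 10958), (.hz 9 95, 152570), (.hz 6 407, 6116)]))
(.haz 7 95 3 10
(.haz 7 31 9 40
(.haz 7 63 1 4
(.ask 47
(.mark 63 [6, 7, 9]
(.spn
(.lp [[6], [1, 3, 5, 9], [0, 2, 4, 7, 8]] [(.mj 0 1, 44), (.mj 2 3, 41), (.mj 5 6, 8), (.mj 6 7, 27), (.hz 4 149, 348), (.hz 6 151, 2487), (.hz 12 63, 43926), (.hz 10 95, 7244), (.hz 12 575, 98565)])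
(.mark 191 [6, 8, 9]
(.spn
(.haz 9 191 19 50
(.lp [[6], [1, 3, 5, 9], [0, 2, 4, 7, 8]] [(.mj 5 7, 4488), (.mj 6 9, 4488), (.mj 7 6, 4488), (.rw 6, 1), (.rw 7, 1), (.hz 13 191, 617129), (.hz 13 255, 1683080), (.hz 13 447, 2805133)])
(.lp [[6], [1, 3, 5, 9], [0, 2, 4, 7, 8]] [(.mj 0 1, 202652), (.mj 3 4, 22808), (.mj 5 7, 23790), (.rw 7, 1), (.hz 4 405, 931798), (.hz 13 63, 1662734), (.hz 10 95, 32831196), (.hz 6 407, 4156834)]))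
(.ask 405
(.mark 415 [5, 6, 10]
(.lp [[6], [1, 3, 5, 9], [0, 2, 4, 7, 8, 10]] [(.mj 0 1, 3048548), (.mj 3 4, 575547), (.mj 5 7, 249962), (.mj 8 9, 41447), (.rw 6, 40), (.rw 7, 40), (.hz 8 79, 90665292), (.hz 10 95, 410021906), (.hz 4 1429, 12093934), (.hz 12 575, 194282768), (.hz 6 1431, 59870145)]))
(.lp [[6], [1, 3, 5, 9], [0, 2, 4, 7, 8]] [(.mj 0 1, 589), (.mj 3 4, 118), (.mj 5 7, 26), (.mj 8 9, 5), (.hz 8 79, 11813), (.hz 10 95, 36752), (.hz 6 407, 5366), (.hz 12 575, 23268)]))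
(.haz 5 79 3 10
(.haz 5 79 9 25
(.lp [[6], [1, 3, 5, 9], [0, 2, 4, 7, 8]] [(.mj 0 1, 861437), (.mj 3 4, 248200), (.mj 4 5, 28269), (.mj 5 7, 6729), (.rw 6, 8), (.hz 8 79, 11888057), (.hz 14 79, 11100263), (.hz 4 405, 3299265), (.hz 10 95, 19813428), (.hz 6 407, 6542338)])
(.lp [[6], [1, 3, 5, 9], [0, 2, 4, 7, 8]] [(.mj 0 1, 181), (.mj 3 4, 16), (.mj 5 7, 31), (.mj 9 6, 4), (.hz 14 15, 4788), (.hz 8 79, 4526), (.hz 13 79, 11033), (.hz 4 405, 790), (.hz 10 95, 40662), (.hz 6 407, 3029), (.hz 10 127, 7270)]))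
(.lp [[6], [1, 3, 5, 9], [0, 2, 4, 7, 8]] [(.mj 0 1, 18), (.mj 5 7, 5), (.mj 9 6, 1), (.hz 13 15, 2041), (.hz 8 79, 1030), (.hz 7 79, 373), (.hz 4 405, 83), (.hz 10 95, 6715), (.hz 6 407, 352)]))
.fin))
(.lp [[6], [1, 3, 5, 9], [0, 2, 4, 7, 8]] [(.mj 0 1, 5), (.mj 9 7, 1), (.hz 4 149, 27), (.hz 7 79, 31), (.hz 6 151, 103), (.hz 12 63, 2359), (.hz 10 95, 971), (.hz 6 407, 12)])
.fin))
(.mark 159 [5, 6, 8]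
(.lp [[6], [1, 3, 5], [0, 2, 4, 7, 8]] [(.mj 0 1, 1829), (.mj 3 4, 519), (.mj 5 6, 11), (.hz 8 79, 54847), (.hz 7 79, 1452), (.hz 4 405, 7041), (.hz 12 63, 72538), (.hz 10 95, 38508), (.hz 6 407, 14508)])))
(.mark 159 [5, 6, 8]
(.lp [[6], [1, 3, 5], [0, 2, 4, 7, 8]] [(.mj 0 1, 24), (.mj 3 4, 5), (.hz 12 21, 984), (.hz 4 405, 13)])))
(.mark 159 [5, 6, 8]
(.lp [[6], [1, 3, 5], [0, 2, 4, 7, 8]] [(.mj 0 1, 5), (.mj 3 4, 1), (.hz 11 21, 21), (.hz 4 405, 3)])))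
(.mark 159 [5, 6, 8]
(.lp [[6], [1, 3, 5], [0, 2, 4, 7, 8]] [(.mj 0 1, 47), (.mj 3 4, 10), (.hz 10 21, 789), (.hz 4 405, 26)]))))
(.lp [[6], [1, 3, 5], [0, 2, 4, 7, 8]] [(.mj 0 1, 2), (.hz 9 21, 121), (.hz 9 23, 173), (.hz 9 31, 140)]))
(.lp [[6], [1, 3, 5], [0, 2, 4, 7, 8]] [(.mj 0 1, 38), (.mj 4 5, 1), (.hz 8 5, 2854), (.hz 8 7, 2535), (.hz 8 15, 2002), (.hz 7 79, 372)]))
(.mark 159 [5, 6, 8]
(.lp [[6], [1, 3, 5], [0, 2, 4, 7, 8]] [(.mj 0 1, 1228), (.mj 3 4, 438), (.mj 5 6, 103), (.hz 7 11, 99), (.hz 7 15, 14676), (.hz 5 79, 9230), (.hz 4 405, 4146)])))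
(.lp [[6], [1, 3, 5], [0, 2, 4, 7]] [(.mj 0 1, 18), (.mj 3 4, 4), (.hz 6 151, 37)]))
(.con 6 5)
(.ask 149
(.mark 159 [5, 6, 8]
(.spn
(.haz 6 47 9 50
(.lp [[6], [1, 3, 5], [0, 2, 4, 7, 8]] [(.mj 0 1, 5551), (.mj 3 4, 4731), (.mj 5 6, 397), (.mj 7 5, 1955), (.mj 7 6, 2159), (.rw 3, 1), (.rw 6, 1), (.hz 7 47, 477802), (.hz 5 79, 185866), (.hz 7 63, 1102275)])
(.lp [[6], [1, 3, 5], [0, 2, 4, 7, 8]] [(.mj 0 1, 40812), (.mj 3 4, 14557), (.mj 7 5, 4040), (.rw 6, 1), (.hz 7 11, 3265), (.hz 7 15, 488090), (.hz 4 405, 137878)]))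
(.con 6 5)
(.cut 6 [(0, 1), (1, 1), (2, 1), (3, 1), (5, 1), (7, 1), (11, 1), (21, 1), (15, 1), (23, 1), (149, 1), (31, 1), (151, 1), (405, 1), (159, 1), (407, 1)]
(.lp [[6], [1, 3, 5], [0, 2, 4, 7, 8]] [(.mj 3 4, 1276), (.mj 5 6, 1274), (.mj 8 5, 1297), (.mj 8 6, 23), (.hz 4 21, 45176), (.hz 6 23, 239017), (.hz 6 151, 298993), (.hz 2 107, 15348), (.rw 7, 1)]))
.fin))
(.lp [[6], [1, 3, 5], [0, 2, 4, 7]] [(.mj 0 1, 9), (.mj 3 4, 2), (.hz 6 23, 17)]))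
.fin))
(.lp [[6], [0, 2, 4], [1, 3, 5]] [(.mj 0 1, 5), (.mj 3 4, 1)]))
(.lp [[6], [0, 2, 4], [1, 3, 5]] [(.mj 2 3, 2), (.mj 5 4, 1), (.hz 4 21, 5), (.hz 6 23, 57)])
(.con 6 5)
.fin))
(.ask 15
(.mark 15 [4, 5, 6]
(.spn
(.ask 21
(.ref 0)
(.ask 23
(.mark 31 [5, 6, 7]
(.spn
(.lp [[6], [1, 3, 5], [0, 2, 4, 7]] [(.mj 0 1, 88), (.mj 3 4, 13), (.mj 5 6, 1), (.mj 5 7, 1)])
(.haz 6 63 9 25
(.ask 151
(.haz 5 79 1 50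
(.maj 5 8
(.mark 159 [5, 6, 8]
(.cut 5 [(0, 1), (1, 1), (2, 1), (3, 1), (5, 1), (7, 1), (21, 1), (23, 1), (151, 1)]
(.lp [[6], [1, 3, 5], [0, 2, 4, 7, 8]] [(.mj 0 1, 85782), (.mj 3 4, 12867), (.hz 7 63, 385246), (.rw 6, 1)])))
(.haz 3 151 3 5
(.haz 5 95 1 25
(.ask 79
(.mark 95 [5, 7, 9]
(.spn
(.tr 7 8 5
(.con 5 7))
(.mark 223 [5, 8, 9]
(.cut 5 [(0, 1), (1, 1), (2, 1), (3, 1), (5, 1), (7, 1), (11, 1), (21, 1), (15, 1), (23, 1), (31, 1), (79, 1), (151, 1), (95, 1), (407, 1)]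
(.lp [[5], [1, 3, 6, 9], [0, 2, 4, 7, 8]] [(.mj 0 1, 409972), (.mj 3 4, 63630), (.mj 6 7, 2082), (.mj 7 9, 2117), (.hz 8 591, 589630), (.hz 9 407, 3833506), (.hz 10 607, 2288331), (.rw 7, 4)])))
(.mark 159 [5, 6, 8]
(.lp [[5], [1, 3, 6, 9], [0, 2, 4, 7, 8]] [(.mj 0 1, 96), (.mj 4 6, 1), (.mj 9 7, 6), (.hz 9 151, 18706), (.hz 10 95, 963), (.hz 10 607, 1828)]))
.fin))
(.ask 95
(.mark 223 [5, 8, 9]
(.cut 5 [(0, 1), (1, 1), (2, 1), (3, 1), (5, 1), (7, 1), (11, 1), (21, 1), (15, 1), (23, 1), (31, 1), (151, 1), (159, 1), (407, 1)]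
(.lp [[5], [1, 3, 6, 9], [0, 2, 4, 7, 8]] [(.mj 0 1, 2222856), (.mj 3 4, 343050), (.hz 9 151, 5252690), (.hz 9 407, 19297367), (.hz 7 191, 11459350), (.hz 10 607, 7916538), (.rw 6, 22)])))
(.lp [[6], [1, 3, 5], [0, 2, 4, 7, 8]] [(.mj 0 1, 6), (.mj 3 4, 1)])))
(.mark 159 [5, 6, 8]
(.cut 5 [(0, 1), (1, 1), (2, 1), (3, 1), (5, 1), (7, 1), (11, 1), (21, 1), (15, 1), (23, 1), (151, 1), (407, 1)]
(.lp [[6], [1, 3, 5], [0, 2, 4, 7, 8]] [(.mj 3 4, 67294), (.mj 4 6, 21954), (.hz 10 11, 409445), (.hz 10 15, 1040672), (.hz 10 31, 122565757), (.hz 10 79, 42590066), (.hz 9 151, 74291282), (.hz 7 63, 60918851), (.hz 9 407, 185728205), (.hz 7 191, 37145641), (.rw 6, 232)]))))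
(.lp [[6], [1, 3, 5], [0, 2, 4, 7, 8]] [(.mj 0 1, 145), (.mj 3 4, 29), (.mj 4 6, 4), (.hz 9 23, 2597), (.hz 8 79, 354)])))
(.mark 159 [5, 6, 8]
(.cut 5 [(0, 1), (1, 1), (2, 1), (3, 1), (5, 1), (7, 1), (21, 1), (23, 1), (151, 1), (407, 1)]
(.lp [[6], [1, 3, 5], [0, 2, 4, 7, 8]] [(.mj 3 4, 2098), (.mj 4 6, 1071), (.hz 8 11, 188067), (.hz 8 15, 788483), (.hz 6 151, 372001), (.hz 7 63, 2219122), (.hz 6 407, 826670), (.hz 7 191, 661336), (.rw 6, 4)]))))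
(.cut 5 [(0, 1), (1, 1), (2, 1), (3, 1), (5, 1), (7, 1), (21, 1), (23, 1), (151, 1)]
(.lp [[6], [1, 3, 5], [0, 2, 4, 7]] [(.mj 0 1, 85782), (.mj 3 4, 12867), (.hz 7 63, 385246), (.rw 6, 1)])))
(.lp [[6], [1, 3, 5], [0, 2, 4, 7]] [(.mj 0 1, 22), (.mj 3 4, 4), (.hz 7 15, 58), (.hz 7 31, 36)]))
(.lp [[6], [1, 3, 5], [0, 2, 4, 7]] [(.mj 0 1, 48), (.mj 3 4, 9), (.mj 7 6, 1), (.hz 5 79, 73)])
.fin))
(.cut 5 [(0, 1), (1, 1), (2, 1), (3, 1), (5, 1), (7, 1), (11, 1), (21, 1), (15, 1), (23, 1)]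
(.lp [[6], [0, 2, 4], [1, 3, 5]] [(.mj 0 1, 73768), (.mj 3 4, 11065), (.rw 5, 1)]))))
(.lp [[6], [0, 2, 4], [1, 3, 5]] [(.mj 2 3, 3), (.mj 5 4, 2), (.hz 4 21, 1), (.hz 5 15, 109), (.hz 6 23, 13), (.hz 5 79, 149)])
(.lp [[6], [0, 2, 4], [1, 3, 5]] [(.mj 0 1, 8), (.mj 6 4, 2), (.hz 4 21, 37), (.hz 5 15, 150)])
.fin))
(.spn
(.ask 21
(.ask 21
(.mark 31 [5, 6, 7]
(.lp [[7], [1, 3, 5], [0, 2, 4, 6]] [(.mj 0 1, 77692), (.mj 3 4, 20020), (.rw 4, 2), (.hz 4 85, 307327), (.hz 4 149, 307327)]))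
(.lp [[], [1, 3, 5], [0, 2, 4, 6]] [(.mj 0 1, 589976), (.mj 3 4, 152028), (.rw 4, 13), (.hz 4 85, 2333765)]))
(.lp [[], [0, 2, 4], [1, 3, 5]] [(.mj 0 1, 5), (.mj 3 4, 1)]))
(.lp [[], [0, 2, 4], [1, 3, 5]] [(.mj 2 3, 2), (.mj 5 4, 1), (.hz 4 21, 5), (.hz 6 23, 57)])
.fin
.fin)))
(.ref 1))
(.lp [[], [1, 3], [0, 2, 4]] [(.mj 0 1, 17289), (.mj 3 4, 8645), (.rw 3, 1), (.hz 6 7, 982331)]))
(.lp [[], [1, 3], [0, 2, 4]] [(.mj 0 1, 1), (.hz 5 5, 8), (.hz 5 7, 5)]))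
(.lp [[], [1, 3], [0, 2, 4]] [(.mj 3 4, 27189), (.rw 3, 20), (.hz 4 5, 2597907), (.hz 3 21, 4429218)]))
(.lp [[], [1, 3], [0, 2, 4]] [(.mj 1 2, 5), (.mj 4 3, 2), (.hz 2 11, 32)])
.fin
.fin)

theorem run254 : run P3488 (leaf3 218 625) (cutRow P3488) [s140, s253] t254 s254 = true := by
  decide +kernel

theorem bad254 : Bad P3488 s254 :=
  run_sound (leaf3_sound P3488 rfl rfl) (cutRow_sound P3488) (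
    List.forall_mem_cons.2 ⟨bad140, List.forall_mem_cons.2 ⟨bad253, fun _ h => absurd h List.not_mem_nil⟩⟩) t254 s254 run254

end Pool.Agent.WN.Data
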