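import Pool.Agent.WN.CutRow
import Pool.Agent.WN.LeafRow
import Pool.Agent.Helper99.WN.ParDef
import Pool.Agent.WN.Data.D30
import Pool.Agent.WN.Data.D35
import Pool.Agent.WN.Data.D39
import Pool.Agent.WN.Data.D45
import Pool.Agent.WN.Data.D46
import Pool.Agent.WN.Data.D47
import Pool.Agent.WN.Data.D50

/-!
# The search tree, part 51
-/

set_option autoImplicit false

namespace Pool.Agent.WN.Data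

open Pool.Agent.W3 Pool.Agent.WN Pool.Agent.Helper99.WN

/-- the state above piece 267 of the tree -/
def s267 : St := ⟨[0, 0, 1], [2, 1, 0], [0, 1],
  [],
  [],
  [.spn 0 0 651200, .spn 1 1 302400]⟩

/-- piece 267 of the tree -/
noncomputable def t267 : WN.Tree :=
(.haz 2 3 3 10
(.haz 1 5 2 5
(.haz 2 3 23 50
(.haz 1 5 12 25
(.ask 3
(.ask 3
(.ref 0)
(.spn
(.ask 5
(.ask 5
(.ref 1)
(.ask 7
(.mark 7 [3, 4, 5]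
(.spn
(.ref 2)
(.haz 3 39 1 10
(.haz 3 7 11 50
(.lp [[5], [1, 3], [0, 2, 4]] [(.mj 1 2, 9), (.mj 4 3, 5), (.hz 5 7, 137), (.hz 5 39, 190)])
(.lp [[5], [1, 3], [0, 2, 4]] [(.mj 1 2, 165), (.mj 4 5, 28), (.hz 5 3, 2162), (.hz 5 7, 1214), (.hz 4 39, 8674)]))
(.lp [[5], [1, 3], [0, 2, 4]] [(.mj 1 2, 5), (.mj 4 5, 1), (.hz 4 3, 302), (.hz 4 7, 159)]))
(.ask 39
(.mark 39 [3, 4, 6]
(.spn
(.haz 4 39 7 50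
(.ask 103
(.maj 4 6
(.haz 6 47 9 25
(.mark 103 [3, 4, 7]
(.lp [[4], [1, 3], [0, 2, 5, 6, 7]] [(.mj 3 4, 12), (.mj 4 6, 9), (.mj 5 3, 13), (.hz 4 47, 727), (.hz 5 47, 1713), (.hz 4 103, 402), (.hz 4 231, 468)]))
(.mark 103 [3, 4, 7]
(.lp [[4], [1, 3], [0, 2, 5, 6, 7]] [(.mj 3 4, 3), (.mj 5 3, 4), (.hz 5 39, 214), (.hz 4 47, 341), (.hz 4 103, 106), (.hz 4 231, 124)])))
(.lp [[4], [1, 3], [0, 2, 5, 6, 7]] [(.mj 3 6, 16), (.mj 5 3, 23), (.mj 6 4, 21), (.hz 4 47, 4699), (.hz 4 103, 1386)]))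
(.lp [[4], [1, 3], [0, 2, 5, 6]] [(.mj 3 4, 5), (.mj 5 3, 9), (.hz 4 47, 813)]))
(.haz 4 103 2 25
(.haz 6 55 21 50
(.haz 4 15 1 10
(.ask 21
(.mark 55 [3, 6, 7]
(.lp [[3], [1, 5, 6], [0, 2, 4, 7]] [(.mj 3 6, 2), (.mj 5 3, 3), (.hz 4 5, 70), (.hz 7 15, 377), (.hz 5 103, 107), (.hz 6 183, 273)]))
(.ask 23
(.mark 55 [3, 6, 7]
(.lp [[3], [1, 5, 6], [0, 2, 4, 7]] [(.mj 3 6, 9), (.mj 5 3, 14), (.hz 4 7, 472), (.hz 7 15, 3496), (.hz 5 103, 832), (.hz 6 183, 882)]))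
(.lp [[4], [1, 3], [0, 2, 5, 6]] [(.mj 3 6, 10), (.mj 5 3, 13), (.hz 7 15, 3037), (.hz 4 39, 416), (.hz 6 55, 850)])))
(.cut 4 [(0, 1), (1, 1), (2, 1), (3, 1), (5, 1), (7, 1), (11, 1), (39, 1)]
(.lp [[4], [1, 3], [0, 2, 5, 6]] [(.mj 0 1, 130680), (.mj 3 6, 41970), (.mj 5 3, 53131), (.hz 7 5, 5289396), (.hz 7 7, 7380868), (.hz 4 39, 697770), (.hz 6 55, 2085932), (.rw 5, 26)])))
(.lp [[4], [1, 3], [0, 2, 5, 6]] [(.mj 5 3, 14), (.hz 4 5, 72), (.hz 4 7, 229), (.hz 4 39, 520), (.hz 6 39, 520)]))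
(.cut 4 [(0, 1), (1, 1), (2, 1), (3, 1), (5, 1), (7, 1), (11, 1), (39, 1)]
(.lp [[4], [1, 3], [0, 2, 5, 6]] [(.mj 0 1, 5168), (.mj 3 6, 1592), (.mj 5 3, 1995), (.hz 5 5, 81086), (.hz 5 7, 109882), (.hz 5 39, 119437), (.rw 5, 1)]))))
(.haz 3 7 7 40
(.lp [[4], [1, 3], [0, 2, 5, 6]] [(.mj 1 2, 13), (.mj 4 3, 8), (.mj 5 4, 1), (.hz 4 7, 253), (.hz 4 23, 155), (.hz 4 39, 307), (.hz 4 103, 372)])
(.haz 3 103 1 10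
(.haz 3 103 1 8
(.haz 3 55 1 8
(.haz 2 11 29 40
(.haz 2 11 31 40
(.haz 5 15 1 2
(.maj 3 6
(.ask 21
(.mark 55 [3, 6, 7]
(.lp [[3], [1, 5, 6], [0, 2, 4, 7]] [(.mj 1 2, 3786), (.mj 3 6, 616), (.mj 4 3, 704), (.mj 5 4, 494), (.rw 4, 1), (.hz 4 3, 41881), (.hz 6 103, 164986)]))
(.ask 23
(.mark 55 [3, 6, 7]
(.lp [[3], [1, 5, 6], [0, 2, 4, 7]] [(.mj 3 6, 1962), (.mj 4 3, 2242), (.mj 5 4, 4434), (.rw 4, 4), (.hz 7 55, 1344341), (.hz 6 103, 525475), (.hz 7 183, 3102249)]))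
(.ask 55
(.mark 55 [3, 6, 7]
(.spn
(.haz 6 55 1 4
(.lp [[3], [1, 5, 6], [0, 2, 4, 7]] [(.mj 3 6, 15), (.mj 3 7, 3), (.mj 4 3, 17), (.mj 5 4, 13), (.hz 11 55, 7920), (.hz 6 103, 3914), (.hz 11 183, 20266)])
(.lp [[3], [1, 5, 6], [0, 2, 4, 7]] [(.mj 1 2, 337), (.mj 4 3, 900), (.mj 5 4, 1491), (.rw 5, 1), (.hz 11 39, 421851), (.hz 6 103, 210926)]))
(.con 6 3)
(.lp [[3], [1, 5, 6], [0, 2, 4, 7]] [(.mj 1 2, 23990), (.mj 7 3, 3331), (.rw 5, 2), (.hz 9 11, 204926), (.hz 10 15, 2732350), (.hz 7 55, 5718418), (.hz 6 103, 780671)])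
.fin))
(.lp [[4], [1, 3], [0, 2, 5, 6]] [(.mj 3 6, 975), (.mj 4 3, 975), (.mj 5 4, 1191), (.rw 4, 1)]))))
(.lp [[4], [1, 3], [0, 2, 5, 6]] [(.mj 1 2, 520), (.mj 4 6, 57), (.mj 6 3, 167), (.hz 9 11, 3760), (.hz 7 55, 162200), (.hz 6 103, 54706)]))
(.lp [[4], [1, 3], [0, 2, 5, 6]] [(.mj 1 2, 468), (.rw 3, 1), (.hz 10 7, 1755269)]))
(.lp [[4], [1, 3], [0, 2, 5, 6]] [(.mj 1 2, 1), (.hz 9 3, 225), (.hz 4 3, 225)]))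
(.lp [[4], [1, 3], [0, 2, 5, 6]] [(.mj 1 2, 1), (.hz 8 3, 113), (.hz 4 3, 113)]))
(.lp [[4], [1, 3], [0, 2, 5, 6]] [(.mj 1 2, 64), (.mj 4 6, 5), (.hz 7 3, 4335), (.hz 7 7, 1436), (.hz 7 39, 1642), (.hz 6 103, 3283)]))
(.lp [[4], [1, 3], [0, 2, 5, 6]] [(.mj 1 2, 163), (.mj 4 6, 14), (.hz 6 3, 11076), (.hz 6 7, 3670), (.hz 6 39, 4195), (.hz 5 103, 7065)]))
(.lp [[4], [1, 3], [0, 2, 5, 6]] [(.mj 1 2, 9), (.mj 4 6, 1), (.hz 5 3, 516), (.hz 5 7, 171), (.hz 5 39, 190)])))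
(.ask 103
(.mark 103 [3, 4, 7]
(.spn
(.lp [[4], [1, 3], [0, 2, 5, 6, 7]] [(.mj 6 3, 1180), (.rw 5, 2)])
(.cut 3 [(0, 1), (1, 1), (2, 1), (3, 1), (5, 1), (7, 1), (21, 1), (39, 1), (103, 1)]
(.lp [[4], [1, 3], [0, 2, 5, 6, 7]] [(.mj 1 2, 42008), (.mj 4 7, 28005), (.mj 6 4, 60678), (.rw 4, 26), (.rw 5, 97), (.rw 6, 64)]))
(.ask 231
(.mark 231 [3, 4, 8]
(.spn
(.lp [[4], [1, 3], [0, 2, 5, 6, 7, 8]] [(.mj 7 3, 274), (.rw 6, 1)])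
(.lp [[4], [1, 3], [0, 2, 5, 6, 7, 8]] [(.mj 7 4, 381), (.rw 6, 1)])
(.maj 3 4
(.haz 3 503 2 25
(.cut 3 [(0, 1), (1, 1), (2, 1), (3, 1), (5, 1), (7, 1), (39, 1), (103, 1), (231, 1)]
(.cut 4 [(0, 1), (1, 1), (2, 1), (3, 1), (5, 1), (7, 1), (11, 1), (39, 1), (103, 1), (231, 1)]
(.lp [[4], [1, 3], [0, 2, 5, 6, 7, 8]] [(.mj 8 3, 6076), (.hz 2 11, 111173), (.hz 4 503, 7613968), (.rw 7, 17), (.rw 8, 5)])))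
(.cut 3 [(0, 1), (1, 1), (2, 1), (3, 1), (5, 1), (7, 1)]
(.cut 4 [(0, 1), (1, 1), (2, 1), (3, 1), (5, 1), (7, 1), (11, 1)]
(.cut 3 [(0, 1), (1, 1), (2, 1), (3, 1), (5, 1), (7, 1), (39, 1)]
(.lp [[4], [1, 3], [0, 2, 5, 6, 7, 8]] [(.hz 4 3, 196781), (.hz 4 103, 2644247), (.rw 7, 6), (.rw 8, 4), (.rw 9, 22)])))))
(.haz 4 495 2 25
(.cut 4 [(0, 1), (1, 1), (2, 1), (3, 1), (5, 1), (7, 1), (39, 1), (103, 1), (231, 1)]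
(.cut 3 [(0, 1), (1, 1), (2, 1), (3, 1), (5, 1), (7, 1), (21, 1), (39, 1), (103, 1), (231, 1)]
(.lp [[4], [1, 3], [0, 2, 5, 6, 7, 8]] [(.mj 8 4, 71257), (.hz 3 21, 1455189), (.hz 4 495, 92996710), (.rw 7, 187), (.rw 8, 62)])))
(.cut 3 [(0, 1), (1, 1), (2, 1), (3, 1), (5, 1), (7, 1), (21, 1)]
(.cut 4 [(0, 1), (1, 1), (2, 1), (3, 1), (5, 1), (7, 1)]
(.cut 4 [(0, 1), (1, 1), (2, 1), (3, 1), (5, 1), (7, 1), (39, 1)]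
(.lp [[4], [1, 3], [0, 2, 5, 6, 7, 8]] [(.hz 4 5, 52535), (.hz 4 103, 1097987), (.rw 7, 2), (.rw 8, 2), (.rw 9, 9)]))))))
.fin))
(.lp [[4], [1, 3], [0, 2, 5, 6, 7]] [(.mj 7 4, 1), (.rw 5, 1)]))
.fin))
(.lp [[4], [1, 3], [0, 2, 5, 6]] [(.mj 6 4, 1), (.rw 4, 1)]))
.fin))
(.lp [[5], [1, 3], [0, 2, 4]] [(.mj 5 4, 35), (.rw 3, 1)]))
.fin))
(.ref 3)))
(.ref 4))
(.lp [[], [0, 2], [1, 3]] [(.mj 0 1, 1), (.mj 3 2, 1), (.hz 2 3, 14)])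
.fin
.fin))
(.ref 5))
(.lp [[], [1], [0, 2]] [(.mj 1 2, 8), (.hz 3 1, 271)]))
(.lp [[], [1], [0, 2]] [(.mj 0 1, 11), (.hz 2 1, 90)]))
(.lp [[], [1], [0, 2]] [(.mj 1 2, 1), (.hz 1 1, 155)]))
(.lp [[], [1], [0, 2]] [(.mj 0 1, 1), (.hz 0 1, 40)]))

theorem run267 : run P3488 (leaf3 218 625) (cutRow P3488) [s261, s255, s126, s254, s260, s266] t267 s267 = true := by
  decide +kernel

theorem bad267 : Bad P3488 s267 :=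
  run_sound (leaf3_sound P3488 rfl rfl) (cutRow_sound P3488) (
    List.forall_mem_cons.2 ⟨bad261, List.forall_mem_cons.2 ⟨bad255, List.forall_mem_cons.2 ⟨bad126, List.forall_mem_cons.2 ⟨bad254, List.forall_mem_cons.2 ⟨bad260, List.forall_mem_cons.2 ⟨bad266, fun _ h => absurd h List.not_mem_nil⟩⟩⟩⟩⟩⟩) t267 s267 run267

end Pool.Agent.WN.Data
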