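import Pool.Agent.WN.CutRow
import Pool.Agent.WN.LeafRow
import Pool.Agent.Helper99.WN.ParDef
import Pool.Agent.WN.Data.D2
import Pool.Agent.WN.Data.D10
import Pool.Agent.WN.Data.D47
import Pool.Agent.WN.Data.D51

/-!
# The search tree, part 52
-/

set_option autoImplicit false

namespace Pool.Agent.WN.Data

open Pool.Agent.W3 Pool.Agent.WN Pool.Agent.Helper99.WN

/-- the state above piece 269 of the tree -/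
def s269 : St := ⟨[0, 0, 1], [1, 0], [0, 1],
  [],
  [],
  [.spn 0 0 651200, .spn 1 1 302400]⟩

/-- piece 269 of the tree -/
noncomputable def t269 : WN.Tree :=
(.ask 2
(.haz 2 3 3 10
(.haz 2 3 2 5
(.haz 2 3 9 20
(.ask 5
(.ask 2
(.mark 7 [3, 4, 5]
(.lp [[5], [1, 3], [0, 2, 4]] [(.mj 0 1, 346), (.rw 1, 1)]))
(.ask 5
(.mark 7 [3, 4, 5]
(.lp [[5], [1, 3], [0, 2, 4]] [(.mj 0 1, 346), (.rw 1, 1)]))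
(.ask 3
(.mark 3 [2, 3, 5]
(.spn
(.mark 7 [3, 4, 5]
(.spn
(.lp [[5], [1, 3], [0, 2, 4]] [(.mj 0 1, 25567), (.mj 3 4, 4261), (.mj 3 5, 4261), (.rw 1, 16)])
(.ref 0)
(.haz 4 7 3 10
(.haz 4 7 8 25
(.ask 21
(.haz 1 85 7 25
(.haz 1 85 9 25
(.mark 23 [3, 5, 6]
(.ask 85
(.haz 1 21 27 50
(.mark 87 [3, 5, 7]
(.cut 3 [(0, 1), (1, 1), (5, 1), (21, 1), (85, 1), (213, 1)]
(.cut 3 [(0, 1), (1, 1), (2, 1), (3, 1), (5, 1), (7, 1), (21, 1), (23, 1), (85, 1), (87, 1), (213, 1)]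
(.lp [[5], [1, 3], [0, 2, 4, 6, 7]] [(.mj 0 1, 9829), (.mj 5 4, 2739), (.hz 4 15, 157736), (.hz 4 39, 100664), (.hz 7 85, 69997), (.hz 4 47, 171000), (.hz 7 213, 42750), (.rw 4, 1), (.rw 5, 1)]))))
(.mark 87 [3, 5, 7]
(.ask 213
(.mark 215 [3, 5, 8]
(.cut 3 [(0, 1), (1, 1), (5, 1), (21, 1), (85, 1), (213, 1), (469, 1)]
(.cut 3 [(0, 1), (1, 1), (2, 1), (3, 1), (5, 1), (7, 1), (21, 1), (85, 1), (213, 1), (469, 1)]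
(.lp [[5], [1, 3], [0, 2, 4, 6, 7, 8]] [(.mj 0 1, 29099), (.mj 5 4, 14298), (.hz 7 5, 159992), (.hz 2 11, 357178), (.hz 4 15, 1600422), (.hz 4 39, 676707), (.hz 6 85, 777535), (.hz 4 47, 738485), (.hz 6 213, 157543), (.hz 6 469, 246162), (.rw 4, 4), (.rw 5, 2)]))))
(.cut 3 [(0, 1), (1, 1), (2, 1), (5, 1), (21, 1), (85, 1), (213, 1)]
(.lp [[5], [1, 3], [0, 2, 4, 6, 7]] [(.mj 0 1, 6225), (.mj 5 4, 2769), (.hz 7 5, 44883), (.hz 2 11, 64990), (.hz 4 15, 434712), (.hz 4 39, 114108), (.rw 4, 1)])))))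
(.cut 3 [(0, 1), (1, 1), (2, 1), (5, 1), (21, 1), (85, 1)]
(.lp [[5], [1, 3], [0, 2, 4, 6]] [(.mj 0 1, 6555), (.mj 5 4, 1395), (.hz 4 15, 152345), (.hz 4 39, 32774), (.rw 4, 1)]))))
(.lp [[5], [1, 3], [0, 2, 4, 6]] [(.mj 1 2, 813), (.rw 1, 1), (.hz 6 1, 56424)]))
(.lp [[5], [1, 3], [0, 2, 4, 6]] [(.mj 1 2, 1), (.hz 5 0, 17), (.hz 5 1, 23)]))
(.cut 3 [(0, 1), (1, 1), (2, 1), (5, 1), (21, 1)]
(.lp [[5], [1, 3], [0, 2, 4]] [(.mj 0 1, 8951), (.mj 5 4, 1343), (.rw 4, 1)])))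
(.cut 3 [(0, 1), (1, 1), (5, 1), (21, 1)]
(.lp [[5], [1, 3], [0, 2, 4]] [(.mj 0 1, 10904), (.hz 4 5, 203248), (.hz 4 7, 40984), (.rw 4, 1)])))
(.lp [[5], [1, 3], [0, 2, 4]] [(.mj 0 1, 4), (.hz 3 5, 131), (.hz 3 7, 77)]))
.fin))
(.lp [[5], [1, 3], [0, 2, 4]] [(.mj 0 1, 1), (.mj 3 2, 1), (.hz 2 3, 34), (.hz 2 35, 2)])
(.lp [[5], [1, 3], [0, 2, 4]] [(.mj 0 1, 1), (.mj 5 2, 1), (.hz 2 3, 36)])
.fin))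
(.spn
(.ask 7
(.mark 7 [3, 4, 5]
(.spn
(.lp [[5], [1, 3], [0, 2, 4]] [(.mj 0 1, 1496), (.mj 3 4, 249), (.mj 3 5, 249), (.rw 1, 1)])
(.lp [[5], [1, 3], [0, 2, 4]] [(.mj 0 1, 75754), (.mj 4 5, 12626), (.rw 1, 142)])
(.ask 39
(.mark 39 [3, 4, 6]
(.spn
(.lp [[4], [1, 3], [0, 2, 5, 6]] [(.mj 0 1, 375369), (.rw 1, 235), (.rw 4, 78)])
(.ref 1)
(.ask 103
(.mark 103 [3, 4, 7]
(.spn
(.lp [[4], [1, 3], [0, 2, 5, 6, 7]] [(.mj 6 3, 627), (.rw 5, 1)])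
(.cut 3 [(0, 1), (1, 1), (2, 1), (3, 1), (5, 1), (7, 1), (21, 1), (39, 1), (103, 1)]
(.lp [[4], [1, 3], [0, 2, 5, 6, 7]] [(.mj 1 2, 10670), (.mj 4 7, 7114), (.mj 6 4, 17784), (.rw 4, 7), (.rw 5, 29), (.rw 6, 18)]))
(.ask 231
(.mark 231 [3, 4, 8]
(.spn
(.lp [[4], [1, 3], [0, 2, 5, 6, 7, 8]] [(.mj 7 3, 213), (.rw 6, 1)])
(.lp [[4], [1, 3], [0, 2, 5, 6, 7, 8]] [(.mj 7 4, 381), (.rw 6, 1)])
(.ask 487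
(.mark 487 [3, 4, 9]
(.spn
(.lp [[4], [1, 3], [0, 2, 5, 6, 7, 8, 9]] [(.mj 8 3, 129), (.rw 7, 1)])
(.lp [[4], [1, 3], [0, 2, 5, 6, 7, 8, 9]] [(.mj 8 4, 176), (.rw 7, 1)])
(.maj 3 4
(.cut 3 [(0, 1), (1, 1), (2, 1), (3, 1), (5, 1), (7, 1)]
(.cut 3 [(0, 1), (1, 1), (2, 1), (3, 1), (5, 1), (7, 1), (39, 1)]
(.cut 3 [(0, 1), (1, 1), (2, 1), (3, 1), (5, 1), (7, 1), (39, 1), (103, 1)]
(.cut 3 [(0, 1), (1, 1), (2, 1), (3, 1), (5, 1), (7, 1), (39, 1), (103, 1), (231, 1)]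
(.lp [[4], [1, 3], [0, 2, 5, 6, 7, 8, 9]] [(.mj 9 3, 1651), (.rw 8, 3), (.rw 9, 1), (.rw 10, 1), (.rw 11, 1)])))))
(.cut 4 [(0, 1), (1, 1), (2, 1), (3, 1), (5, 1)]
(.cut 4 [(0, 1), (1, 1), (2, 1), (3, 1), (5, 1), (7, 1)]
(.cut 4 [(0, 1), (1, 1), (2, 1), (3, 1), (5, 1), (7, 1), (39, 1)]
(.cut 4 [(0, 1), (1, 1), (2, 1), (3, 1), (5, 1), (7, 1), (39, 1), (103, 1)]
(.cut 3 [(0, 1), (1, 1), (2, 1), (3, 1), (5, 1), (7, 1), (21, 1)]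
(.cut 4 [(0, 1), (1, 1), (2, 1), (3, 1), (5, 1), (7, 1), (39, 1), (103, 1), (231, 1)]
(.cut 3 [(0, 1), (1, 1), (2, 1), (3, 1), (5, 1), (7, 1), (21, 1), (39, 1)]
(.cut 3 [(0, 1), (1, 1), (2, 1), (3, 1), (5, 1), (7, 1), (21, 1), (39, 1), (103, 1)]
(.lp [[4], [1, 3], [0, 2, 5, 6, 7, 8, 9]] [(.mj 9 4, 205865), (.rw 7, 32), (.rw 8, 214), (.rw 9, 161), (.rw 10, 161), (.rw 11, 161), (.rw 12, 96), (.rw 13, 161), (.rw 14, 32), (.rw 15, 32)]))))))))))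
.fin))
(.lp [[4], [1, 3], [0, 2, 5, 6, 7, 8]] [(.mj 8 4, 1), (.rw 6, 1)]))
.fin))
(.lp [[4], [1, 3], [0, 2, 5, 6, 7]] [(.mj 7 4, 1), (.rw 5, 1)]))
.fin))
(.lp [[4], [1, 3], [0, 2, 5, 6]] [(.mj 6 4, 1), (.rw 4, 1)]))
.fin))
(.lp [[5], [1, 3], [0, 2, 4]] [(.mj 5 4, 46), (.rw 3, 1)]))
.fin))
(.lp [[], [1, 3], [0, 2, 4]] [(.mj 0 1, 346), (.rw 1, 1)]))
(.lp [[], [1, 3], [0, 2, 4]] [(.mj 0 1, 267), (.mj 3 2, 89), (.rw 1, 1)])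
.fin
.fin))))
(.cut 3 [(0, 1), (1, 1), (5, 1)]
(.lp [[], [0, 2], [1, 3]] [(.mj 0 1, 5569), (.rw 2, 1)])))
(.lp [[], [0, 2], [1, 3]] [(.mj 0 1, 1), (.hz 2 1, 20)]))
(.lp [[], [0, 2], [1, 3]] [(.mj 0 1, 1), (.hz 1 1, 92)]))
(.lp [[], [0, 2], [1, 3]] [(.mj 0 1, 1), (.hz 0 1, 40)]))
(.ref 2))

theorem run269 : run P3488 (leaf3 218 625) (cutRow P3488) [s79, s80, s267] t269 s269 = true := by
  decide +kernel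

theorem bad269 : Bad P3488 s269 :=
  run_sound (leaf3_sound P3488 rfl rfl) (cutRow_sound P3488) (
    List.forall_mem_cons.2 ⟨bad79, List.forall_mem_cons.2 ⟨bad80, List.forall_mem_cons.2 ⟨bad267, fun _ h => absurd h List.not_mem_nil⟩⟩⟩) t269 s269 run269

end Pool.Agent.WN.Data
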