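import Pool.Agent.WN.CutRow
import Pool.Agent.WN.LeafRow
import Pool.Agent.Helper99.WN.ParDef
import Pool.Agent.WN.Data.D17
import Pool.Agent.WN.Data.D34
import Pool.Agent.WN.Data.D48
import Pool.Agent.WN.Data.D49
import Pool.Agent.WN.Data.D50
import Pool.Agent.WN.Data.D51
import Pool.Agent.WN.Data.D52

/-!
# The search tree, part top
-/

set_option autoImplicit false

namespace Pool.Agent.WN.Data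

open Pool.Agent.W3 Pool.Agent.WN Pool.Agent.Helper99.WN

/-- piece 271 of the tree -/
noncomputable def t271 : WN.Tree :=
(.ask 0
(.ask 0
(.ask 0
(.mark 0 [0, 1, 2]
(.spn
(.haz 2 1 3 50
(.ask 1
(.mark 1 [1, 2, 3]
(.spn
(.ref 0)
(.con 2 1)
(.ask 9
(.mark 9 [1, 2, 4]
(.spn
(.haz 2 3 3 25
(.lp [[1], [2], [0, 3, 4]] [(.mj 3 1, 2178), (.rw 2, 4), (.hz 1 3, 371318)])
(.cut 2 [(0, 1), (1, 1), (2, 1), (3, 1), (9, 1)]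
(.cut 2 [(0, 1), (1, 1), (9, 1)]
(.lp [[1], [2], [0, 3, 4]] [(.mj 1 4, 157847), (.mj 3 1, 276759), (.rw 2, 74), (.hz 1 0, 2999097), (.hz 1 1, 7892361), (.rw 3, 25), (.rw 4, 271)]))))
(.con 2 1)
(.ask 25
(.mark 25 [1, 2, 5]
(.spn
(.lp [[1], [2], [0, 3, 4, 5]] [(.mj 4 1, 627), (.rw 3, 1)])
(.con 2 1)
(.haz 1 29 1 10
(.ask 57
(.mark 57 [1, 2, 6]
(.spn
(.lp [[1], [2], [0, 3, 4, 5, 6]] [(.mj 5 1, 213), (.rw 4, 1)])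
(.con 2 1)
(.cut 1 [(0, 1), (1, 1), (9, 1), (25, 1), (57, 1)]
(.cut 2 [(0, 1), (1, 1), (2, 2), (3, 1), (9, 1), (11, 1), (25, 1), (27, 1), (57, 1), (59, 1)]
(.lp [[1], [2], [0, 3, 4, 5, 6]] [(.mj 6 1, 1466), (.hz 0 3, 116961), (.hz 0 11, 124426), (.hz 1 29, 894854), (.hz 0 59, 75569), (.hz 1 61, 196778), (.rw 5, 6), (.rw 6, 1)])))
.fin))
(.lp [[1], [2], [0, 3, 4, 5]] [(.rw 3, 1)]))
(.cut 2 [(0, 1), (1, 1), (9, 1), (25, 1)]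
(.cut 1 [(0, 1), (1, 1), (9, 1)]
(.cut 2 [(0, 1), (1, 1), (2, 2), (3, 1)]
(.lp [[1], [2], [0, 3, 4, 5]] [(.hz 1 4, 452382), (.hz 0 3, 308442), (.hz 0 11, 96251), (.hz 1 25, 4523818), (.rw 4, 8), (.rw 5, 60), (.rw 6, 5)])))))
.fin))
(.lp [[1], [2], [0, 3, 4]] [(.rw 2, 1)]))
.fin))
(.lp [[1], [2], [0, 3]] [(.rw 1, 1)]))
.fin))
(.lp [[0], [1], [2]] [(.mj 0 1, 13), (.mj 1 2, 7), (.hz 0 3, 240)]))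
(.cut 2 []
(.lp [[0], [1], [2]] [(.hz 0 0, 41215), (.rw 1, 2)])))
(.con 1 0)
(.con 2 1)
.fin))
(.spn
(.ask 1
(.ask 1
(.ref 1)
(.spn
(.ref 2)
(.ask 5
(.maj 1 3
(.ask 5
(.mark 5 [1, 3, 4]
(.spn
(.haz 3 21 9 40
(.ask 21
(.haz 4 7 11 40
(.haz 4 13 1 4
(.mark 21 [1, 3, 5]
(.lp [[1], [3], [0, 2, 4, 5]] [(.mj 1 3, 31171), (.mj 3 4, 30197), (.rw 1, 28), (.hz 1 7, 1305907), (.hz 2 13, 3774648), (.hz 0 53, 487051)]))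
(.mark 21 [1, 3, 5]
(.lp [[1], [3], [0, 2, 4, 5]] [(.mj 1 3, 9429), (.mj 3 4, 707), (.rw 1, 8), (.hz 2 5, 774431), (.hz 0 21, 114185), (.hz 0 53, 147335)])))
(.mark 21 [1, 3, 5]
(.lp [[1], [3], [0, 2, 4, 5]] [(.mj 1 3, 4711), (.rw 1, 4), (.hz 1 5, 44207), (.hz 1 7, 16560), (.hz 0 21, 57041), (.hz 0 53, 73602)])))
(.lp [[1], [4], [0, 2, 3]] [(.mj 1 3, 2190), (.mj 3 4, 510), (.rw 1, 2), (.hz 0 21, 10291)]))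
(.cut 4 [(0, 1), (1, 1), (2, 1), (3, 1), (5, 1)]
(.lp [[1], [4], [0, 2, 3]] [(.mj 1 4, 13439), (.mj 3 4, 13439), (.rw 1, 21), (.hz 0 5, 419966), (.rw 3, 8)])))
(.con 3 1)
(.con 4 3)
.fin))
(.lp [[], [1], [0, 2, 3]] [(.mj 1 3, 1198), (.rw 1, 1)]))
(.ask 5
(.ref 3)
(.spn
(.con 1 3)
(.ask 13
(.maj 1 4
(.ask 13
(.mark 13 [1, 4, 5]
(.spn
(.lp [[1], [5], [0, 2, 3, 4]] [(.rw 2, 1), (.rw 3, 3)])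
(.con 4 1)
(.con 5 4)
.fin))
(.lp [[], [1], [0, 2, 3, 4]] [(.mj 1 4, 1), (.mj 3 1, 1)]))
(.ask 13
(.mark 13 [1, 4, 5]
(.spn
(.con 1 4)
(.ask 29
(.mark 29 [1, 5, 6]
(.spn
(.lp [[1], [5], [0, 2, 3, 4, 6]] [(.mj 4 1, 213), (.rw 4, 1)])
(.haz 1 29 3 40
(.maj 1 6
(.cut 1 [(0, 1), (1, 1), (5, 1), (13, 1), (29, 1)]
(.lp [[1], [5], [0, 2, 3, 4, 6]] [(.mj 4 5, 918), (.mj 5 1, 1402), (.hz 0 93, 95587), (.rw 5, 4)]))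
(.ask 45
(.mark 61 [1, 6, 7]
(.cut 1 [(0, 1)]
(.cut 1 [(0, 1), (1, 1)]
(.cut 1 [(0, 1), (1, 1), (5, 1)]
(.cut 1 [(0, 1), (1, 1), (5, 1), (13, 1)]
(.cut 1 [(0, 1), (1, 1), (5, 1), (13, 1), (29, 1)]
(.cut 1 [(0, 1), (1, 1), (5, 1), (13, 1), (29, 1), (45, 1), (93, 1)]
(.cut 1 [(0, 1), (1, 1), (5, 1), (13, 1), (45, 1)]
(.lp [[1], [5, 7], [0, 2, 3, 4, 6]] [(.mj 4 5, 9910), (.mj 5 6, 19821), (.mj 6 1, 104058), (.hz 0 189, 2064637), (.rw 5, 118), (.rw 6, 59), (.rw 7, 59), (.rw 8, 22), (.rw 9, 68), (.rw 10, 6), (.rw 11, 37)])))))))))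
(.cut 1 [(0, 1), (1, 1), (5, 1), (13, 1), (29, 1)]
(.cut 1 [(0, 1), (1, 1), (5, 1), (13, 1), (45, 1)]
(.lp [[1], [5], [0, 2, 3, 4, 6]] [(.mj 5 6, 7401), (.mj 6 1, 135678), (.hz 0 61, 3083589), (.rw 5, 23), (.rw 6, 401)])))))
(.cut 1 [(0, 1)]
(.cut 1 [(0, 1), (1, 1)]
(.cut 1 [(0, 1), (1, 1), (5, 1)]
(.lp [[1], [5], [0, 2, 3, 4, 6]] [(.hz 0 13, 580323), (.rw 5, 3), (.rw 6, 2), (.rw 7, 23)])))))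
(.ask 93
(.mark 93 [1, 5, 7]
(.spn
(.lp [[1], [5], [0, 2, 3, 4, 6, 7]] [(.mj 6 1, 129), (.rw 5, 1)])
(.cut 1 [(0, 1)]
(.cut 1 [(0, 1), (1, 1)]
(.cut 1 [(0, 1), (1, 1), (5, 1)]
(.cut 1 [(0, 1), (1, 1), (5, 1), (13, 1)]
(.lp [[1], [5], [0, 2, 3, 4, 6, 7]] [(.rw 4, 1), (.rw 5, 2), (.rw 6, 2), (.rw 7, 1), (.rw 8, 1), (.rw 9, 1)])))))
(.cut 1 [(0, 1)]
(.cut 1 [(0, 1), (1, 1)]
(.cut 1 [(0, 1), (1, 1), (5, 1)]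
(.cut 1 [(0, 1), (1, 1), (5, 1), (13, 1)]
(.cut 1 [(0, 1), (1, 1), (5, 1), (13, 1), (45, 1)]
(.cut 5 [(0, 1), (1, 1), (2, 1), (3, 1), (5, 1), (7, 1), (13, 1), (15, 1)]
(.cut 1 [(0, 1), (1, 1), (5, 1), (13, 1), (29, 1)]
(.cut 5 [(0, 1), (1, 1), (2, 1), (3, 1), (5, 1), (7, 1), (13, 1), (15, 1), (29, 1)]
(.cut 5 [(0, 1), (1, 1), (2, 1), (3, 1), (5, 1), (7, 1), (13, 1), (15, 1), (29, 1), (31, 1)]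
(.lp [[1], [5], [0, 2, 3, 4, 6, 7]] [(.mj 7 1, 675738), (.mj 7 5, 112623), (.rw 6, 422), (.rw 7, 211), (.rw 8, 211), (.rw 9, 985), (.rw 10, 70), (.rw 11, 141), (.rw 12, 634), (.rw 13, 28), (.rw 14, 42)]))))))))))
.fin))
(.lp [[1], [5], [0, 2, 3, 4, 6]] [(.mj 6 5, 1), (.rw 4, 1)]))
.fin))
(.lp [[1], [5], [0, 2, 3, 4]] [(.mj 4 5, 820), (.rw 3, 1)]))
(.con 5 4)
.fin))
(.spn
(.con 1 4)
(.ask 29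
(.haz 1 61 1 20
(.ask 29
(.mark 29 [1, 5, 6]
(.spn
(.lp [[1], [6], [0, 2, 3, 4, 5]] [(.mj 4 1, 213), (.rw 4, 1)])
(.ask 61
(.mark 61 [1, 6, 7]
(.spn
(.lp [[1], [6], [0, 2, 3, 4, 5, 7]] [(.mj 5 1, 129), (.rw 5, 1)])
(.cut 1 [(0, 1), (1, 1), (5, 1), (13, 1), (29, 1), (61, 1)]
(.lp [[1], [6], [0, 2, 3, 4, 5, 7]] [(.mj 5 6, 914), (.mj 6 1, 5484), (.mj 6 7, 141), (.hz 0 189, 197729), (.rw 6, 19)]))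
(.cut 1 [(0, 1)]
(.cut 1 [(0, 1), (1, 1)]
(.cut 1 [(0, 1), (1, 1), (5, 1)]
(.cut 1 [(0, 1), (1, 1), (5, 1), (13, 1)]
(.cut 1 [(0, 1), (1, 1), (5, 1), (13, 1), (29, 1)]
(.lp [[1], [6], [0, 2, 3, 4, 5, 7]] [(.mj 7 1, 1651), (.rw 6, 2), (.rw 7, 1), (.rw 8, 1), (.rw 9, 1), (.rw 10, 1)]))))))
.fin))
(.lp [[1], [6], [0, 2, 3, 4, 5]] [(.mj 5 6, 352), (.rw 4, 1), (.hz 0 125, 89131)]))
(.con 6 5)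
.fin))
(.spn
(.lp [[], [1], [0, 2, 3, 4, 5]] [(.rw 4, 1)])
(.ask 61
(.ask 61
(.mark 61 [1, 6, 7]
(.spn
(.lp [[1], [7], [0, 2, 3, 4, 5, 6]] [(.rw 4, 1), (.rw 5, 3)])
(.cut 1 [(0, 1), (1, 1), (5, 1), (13, 1), (29, 1), (61, 1)]
(.lp [[1], [7], [0, 2, 3, 4, 5, 6]] [(.mj 6 1, 1100), (.rw 6, 4)]))
(.con 7 6)
.fin))
(.spn
(.lp [[], [1], [0, 2, 3, 4, 5, 6]] [(.mj 5 1, 1), (.rw 5, 1)])
(.cut 1 [(0, 1)]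
(.cut 1 [(0, 1), (1, 1)]
(.cut 1 [(0, 1), (1, 1), (5, 1)]
(.cut 1 [(0, 1), (1, 1), (5, 1), (13, 1)]
(.cut 1 [(0, 1), (1, 1), (5, 1), (13, 1), (29, 1)]
(.lp [[], [1], [0, 2, 3, 4, 5, 6]] [(.mj 6 1, 1651), (.rw 6, 2), (.rw 7, 1), (.rw 8, 1), (.rw 9, 1), (.rw 10, 1)]))))))
.fin
.fin))
(.lp [[], [1], [0, 2, 3, 4, 5]] [(.mj 5 1, 1)]))
.fin
.fin))
(.cut 1 [(0, 1)]
(.lp [[], [1], [0, 2, 3, 4, 5]] [(.hz 0 1, 59708), (.rw 4, 1)])))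
(.lp [[], [1], [0, 2, 3, 4]] [(.mj 4 1, 1)]))
.fin
.fin)))
(.lp [[], [1], [0, 2, 3]] [(.mj 3 1, 1)]))
.fin
.fin)))
(.lp [[], [1], [0, 2]] [(.mj 2 1, 1)]))
.fin
.fin))
(.lp [[], [0], [1]] [(.mj 0 1, 1)]))
(.con 1 0)
.fin
.fin))
(.dec 0))
(.cmp [0, 0]))

theorem run271 : run P3488 (leaf3 218 625) (cutRow P3488) [s3, s270, s269, s268] t271 root = true := by
  decide +kernel

theorem bad_root : Bad P3488 root :=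
  run_sound (leaf3_sound P3488 rfl rfl) (cutRow_sound P3488) (
    List.forall_mem_cons.2 ⟨bad3, List.forall_mem_cons.2 ⟨bad270, List.forall_mem_cons.2 ⟨bad269, List.forall_mem_cons.2 ⟨bad268, fun _ h => absurd h List.not_mem_nil⟩⟩⟩⟩) t271 root run271

end Pool.Agent.WN.Data
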